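import Pool.Agent.P.MP_65ad7c_ag.HEF1

/-! Decay of the Fourier transform gives regularity. -/

open Set Filter Topology MeasureTheory
open scoped ContDiff InnerProductSpace FourierTransform

noncomputable section
namespace Pool.Agent.HT
open Pool.Agent.Wein (Ret Tan)

variable {m : ℕ} {F : Type} [NormedAddCommGroup F] [InnerProductSpace ℂ F] [FiniteDimensional ℂ F]

theorem hef4_flip {f : EE m → ℂ} {h : EE m → F} (hf : Integrable f) (hh : Integrable h) :
    ∫ ξ, 𝓕 f ξ • h ξ = ∫ x, f x • 𝓕 h x := by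
  have := FiniteDimensional.complete ℂ F
  simpa using! VectorFourier.integral_fourierIntegral_smul_eq_flip (L := innerₗ (EE m))
    Real.continuous_fourierChar continuous_inner hf hh

omit [FiniteDimensional ℂ F] in
theorem hef4_cont {f : EE m → F} (hf : Integrable f) : Continuous (𝓕⁻ f) := by
  have e : 𝓕⁻ f = fun x => 𝓕 f (-x) := funext fun x => Real.fourierInv_eq_fourier_neg f x
  rw [e]
  exact (fourier_cont hf).comp continuous_neg

theorem hef4_test {v : EE m → F} (hv : Integrable v) (hv' : Integrable (𝓕 v)) {G : EE m → ℂ}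
    (hG : Test univ G) : ∫ x, G x • v x = ∫ x, G x • 𝓕⁻ (𝓕 v) x := by
  have e : 𝓕⁻ G = fun x => 𝓕 G (-x) := funext fun x => Real.fourierInv_eq_fourier_neg G x
  have h1 : Integrable (𝓕⁻ G) := by
    rw [e]
    exact hG.fourier_integrable.comp_neg
  have h2 := hef4_flip h1 hv
  rw [hG.continuous.fourier_fourierInv_eq hG.integrable hG.fourier_integrable] at h2
  rw [h2, e, Real.fourierInv_eq_fourier_comp_neg, ← hef4_flip hG.integrable hv'.comp_neg,
    ← integral_neg_eq_self]
  simp only [neg_neg]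

theorem ae_eq_fourierInv {v : EE m → F} (hv : Integrable v) (hv' : Integrable (𝓕 v)) :
    v =ᵐ[volume] 𝓕⁻ (𝓕 v) := by
  have := FiniteDimensional.complete ℂ F
  refine ae_eq_of_integral_contDiff_smul_eq hv.locallyIntegrable
    (hef4_cont hv').locallyIntegrable fun g g1 g2 => ?_
  have hG : Test univ fun y => Complex.ofRealCLM (g y) :=
    Test.clm Complex.ofRealCLM ⟨g1, g2, subset_univ _⟩
  have e : ∀ (y : EE m) (u : F), g y • u = Complex.ofRealCLM (g y) • u := fun y u =>
    (Complex.coe_smul (g y) u).symm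
  simp only [e]
  exact hef4_test hv hv' hG

omit [FiniteDimensional ℂ F] in
theorem hef4_int {v : EE m → F} {n : ℕ} (hv : FH (n + (m + 1)) v) :
    Integrable fun ξ => (1 + ‖ξ‖) ^ n * ‖𝓕 v ξ‖ := by
  obtain ⟨K, hK⟩ := hv.2
  exact integrable_of_decay (fourier_cont hv.1) hK

omit [FiniteDimensional ℂ F] in
theorem hef4_int0 {v : EE m → F} (hv : FH (m + 1) v) : Integrable (𝓕 v) := by
  have h := hef4_int (n := 0) (v := v) (by rwa [Nat.zero_add])
  simp only [pow_zero, one_mul] at h
  exact (integrable_norm_iff (fourier_cont hv.1).aestronglyMeasurable).1 h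

theorem FH.cont {v : EE m → F} (hv : FH (m + 1) v) : ∃ w, ContDiff ℝ 0 w ∧ v =ᵐ[volume] w :=
  ⟨_, contDiff_zero.2 (hef4_cont (hef4_int0 hv)), ae_eq_fourierInv hv.1 (hef4_int0 hv)⟩

theorem FH.smooth {v : EE m → F} (hv : ∀ s, FH s v) : ∃ w, ContDiff ℝ ∞ w ∧ v =ᵐ[volume] w := by
  refine ⟨_, ?_, ae_eq_fourierInv (hv 0).1 (hef4_int0 (hv _))⟩
  have e : 𝓕⁻ (𝓕 v) = fun x => 𝓕 (𝓕 v) (-x) :=
    funext fun x => Real.fourierInv_eq_fourier_neg _ x
  rw [e]
  refine (Real.contDiff_fourier (N := ⊤) fun n _ => ?_).comp contDiff_neg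
  refine (hef4_int (hv (n + (m + 1)))).mono'
    ((continuous_norm.pow n).mul (fourier_cont (hv 0).1).norm).aestronglyMeasurable
    (Eventually.of_forall fun ξ => ?_)
  rw [Real.norm_of_nonneg (by positivity)]
  exact mul_le_mul_of_nonneg_right (pow_le_pow_left₀ (norm_nonneg _) (by linarith) n)
    (norm_nonneg _)

end Pool.Agent.HT
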