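import Pool.Agent.P.MP_65ad7c_ag.HEDefs

/-! Absorption of a small convolution term in weighted supremum norms. -/

open Set Filter Topology MeasureTheory
open scoped ContDiff InnerProductSpace FourierTransform

noncomputable section
namespace Pool.Agent.HT
open Pool.Agent.Wein (Ret Tan)

variable {m : ℕ}

theorem hew_pow {t s : ℝ} (ht : 0 ≤ t) (hs : 0 ≤ s) (hs1 : s ≤ 1) (n : ℕ) :
    (1 + t * s) ^ n ≤ 1 + ((1 + t) ^ n - 1) * s := by
  induction n with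
  | zero => simp
  | succ n ih =>
    have h1 : 1 ≤ (1 + t) ^ n := one_le_pow₀ (by linarith)
    have h2 : 0 ≤ t * s := mul_nonneg ht hs
    have h3 := mul_le_mul_of_nonneg_right ih (show 0 ≤ 1 + t * s by linarith)
    have h4 : 0 ≤ ((1 + t) ^ n - 1) * (t * s) * (1 - s) :=
      mul_nonneg (mul_nonneg (by linarith) h2) (by linarith)
    rw [pow_succ, pow_succ]
    nlinarith

theorem hew_min {μ R a b t : ℝ} (hμ : 0 < μ) (hR : 0 ≤ R) (hb : 0 ≤ b) (ht : 0 ≤ t)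
    (h : a ≤ b + t) : min (μ + a) R ≤ min (μ + b) R * (1 + t * μ⁻¹) := by
  have h1 : 0 ≤ t * μ⁻¹ := by positivity
  rcases min_choice (μ + b) R with e | e <;> rw [e]
  · refine (min_le_left _ _).trans ?_
    have h2 : μ * (t * μ⁻¹) = t := by field_simp
    nlinarith [mul_nonneg hb h1]
  · exact (min_le_right _ _).trans (le_mul_of_one_le_right hR (by linarith))

theorem weight_boot {U k : EE m → ℝ} (hU : Continuous U) (hU0 : ∀ ξ, 0 ≤ U ξ) {K₀ : ℝ}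
    (hb : ∀ ξ, U ξ ≤ K₀) (hk0 : ∀ η, 0 ≤ k η) {n : ℕ} (hk : Integrable k)
    (hkn : Integrable fun η => (1 + ‖η‖) ^ n * k η) (hk1 : ∫ η, k η ≤ 1 / 2) {K : ℝ}
    (h : ∀ ξ, (1 + ‖ξ‖) ^ n * U ξ ≤ (1 + ‖ξ‖) ^ n * (∫ η, k η * U (ξ - η)) + K) :
    ∃ K' : ℝ, ∀ ξ, (1 + ‖ξ‖) ^ n * U ξ ≤ K' := by
  obtain ⟨J, hJ⟩ : ∃ J, J = ∫ η, (1 + ‖η‖) ^ n * k η := ⟨_, rfl⟩
  have hJ0 : 0 ≤ J := hJ ▸ integral_nonneg fun η => mul_nonneg (by positivity) (hk0 η)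
  obtain ⟨μ, hμ⟩ : ∃ μ, μ = 1 + 4 * J := ⟨_, rfl⟩
  have hμ1 : 1 ≤ μ := by linarith
  have hμ0 : 0 < μ := by linarith
  have hi0 : 0 ≤ μ⁻¹ := by positivity
  have hi1 : μ⁻¹ ≤ 1 := inv_le_one_of_one_le₀ hμ1
  have hJμ : J * μ⁻¹ ≤ 1 / 4 := by
    rw [← div_eq_mul_inv, div_le_iff₀ hμ0]
    linarith
  have key : ∀ R : ℝ, 0 ≤ R → ∀ ξ, (min (μ + ‖ξ‖) R) ^ n * U ξ ≤ 4 * (max K 0 * μ ^ n) := by
    intro R hR
    have hw0 : ∀ ξ : EE m, 0 ≤ min (μ + ‖ξ‖) R := fun ξ => le_min (by positivity) hR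
    have hbd : BddAbove (range fun ξ => (min (μ + ‖ξ‖) R) ^ n * U ξ) := by
      refine ⟨R ^ n * K₀, ?_⟩
      rintro _ ⟨ξ, rfl⟩
      exact mul_le_mul (pow_le_pow_left₀ (hw0 ξ) (min_le_right _ _) n) (hb ξ) (hU0 ξ)
        (pow_nonneg hR n)
    obtain ⟨M, hM⟩ : ∃ M, M = ⨆ ξ, (min (μ + ‖ξ‖) R) ^ n * U ξ := ⟨_, rfl⟩
    have hle : ∀ ξ, (min (μ + ‖ξ‖) R) ^ n * U ξ ≤ M := fun ξ => hM ▸ le_ciSup hbd ξ
    have hM0 : 0 ≤ M := (mul_nonneg (pow_nonneg (hw0 0) n) (hU0 0)).trans (hle 0)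
    have h1 : ∀ ξ, (min (μ + ‖ξ‖) R) ^ n * U ξ ≤ M * (3 / 4) + max K 0 * μ ^ n := by
      intro ξ
      have hp : 0 < (1 + ‖ξ‖) ^ n := by positivity
      have hw := pow_nonneg (hw0 ξ) n
      have a1 : (min (μ + ‖ξ‖) R) ^ n ≤ μ ^ n * (1 + ‖ξ‖) ^ n := by
        rw [← mul_pow]
        refine pow_le_pow_left₀ (hw0 ξ) ((min_le_left _ _).trans ?_) n
        nlinarith [norm_nonneg ξ]
      have a2 : (min (μ + ‖ξ‖) R) ^ n * (∫ η, k η * U (ξ - η)) ≤ M * (3 / 4) := by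
        rw [← integral_const_mul]
        have a3 : ∫ η, (min (μ + ‖ξ‖) R) ^ n * (k η * U (ξ - η)) ≤
            ∫ η, M * (k η + (1 + ‖η‖) ^ n * k η * μ⁻¹) := by
          refine integral_mono_of_nonneg (Eventually.of_forall fun η =>
            mul_nonneg hw (mul_nonneg (hk0 η) (hU0 _))) ((hk.add (hkn.mul_const _)).const_mul M)
            (Eventually.of_forall fun η => ?_)
          have b1 : ‖ξ‖ ≤ ‖ξ - η‖ + ‖η‖ := by
            simpa using norm_add_le (ξ - η) η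
          have b2 := pow_le_pow_left₀ (hw0 ξ)
            (hew_min hμ0 hR (norm_nonneg (ξ - η)) (norm_nonneg η) b1) n
          rw [mul_pow] at b2
          have b3 : (1 + ‖η‖ * μ⁻¹) ^ n ≤ 1 + (1 + ‖η‖) ^ n * μ⁻¹ :=
            (hew_pow (norm_nonneg η) hi0 hi1 n).trans (by nlinarith)
          have b4 : 0 ≤ (1 + ‖η‖ * μ⁻¹) ^ n := by positivity
          calc (min (μ + ‖ξ‖) R) ^ n * (k η * U (ξ - η))
              ≤ (min (μ + ‖ξ - η‖) R) ^ n * (1 + ‖η‖ * μ⁻¹) ^ n * (k η * U (ξ - η)) :=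
                mul_le_mul_of_nonneg_right b2 (mul_nonneg (hk0 η) (hU0 _))
            _ = (min (μ + ‖ξ - η‖) R) ^ n * U (ξ - η) * ((1 + ‖η‖ * μ⁻¹) ^ n * k η) := by ring
            _ ≤ M * ((1 + (1 + ‖η‖) ^ n * μ⁻¹) * k η) :=
                mul_le_mul (hle _) (mul_le_mul_of_nonneg_right b3 (hk0 η))
                  (mul_nonneg b4 (hk0 η)) hM0
            _ = M * (k η + (1 + ‖η‖) ^ n * k η * μ⁻¹) := by ring
        refine a3.trans ?_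
        rw [integral_const_mul, integral_add hk (hkn.mul_const _), integral_mul_const, ← hJ]
        exact mul_le_mul_of_nonneg_left (by linarith) hM0
      have a4 : U ξ ≤ (∫ η, k η * U (ξ - η)) + max K 0 / (1 + ‖ξ‖) ^ n := by
        refine le_of_mul_le_mul_left ?_ hp
        rw [mul_add, mul_div_cancel₀ _ hp.ne']
        linarith [h ξ, le_max_left K 0]
      have a5 : (min (μ + ‖ξ‖) R) ^ n * (max K 0 / (1 + ‖ξ‖) ^ n) ≤ max K 0 * μ ^ n := by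
        refine (mul_le_mul_of_nonneg_right a1 (div_nonneg (le_max_right _ _) hp.le)).trans
          (le_of_eq ?_)
        field_simp
      have a6 := mul_le_mul_of_nonneg_left a4 hw
      rw [mul_add] at a6
      linarith
    have h2 : M ≤ M * (3 / 4) + max K 0 * μ ^ n := (le_of_eq hM).trans (ciSup_le h1)
    intro ξ
    linarith [hle ξ]
  refine ⟨4 * (max K 0 * μ ^ n), fun ξ => le_trans ?_ (key (μ + ‖ξ‖) (by positivity) ξ)⟩
  rw [min_self]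
  exact mul_le_mul_of_nonneg_right (pow_le_pow_left₀ (by positivity) (by linarith) n) (hU0 ξ)

theorem ell_const {A : Type} [Fintype A] {x : A → EE m}
    (h : ∀ ξ : EE m, (∀ a, ⟪ξ, x a⟫_ℝ = 0) → ξ = 0) :
    ∃ c : ℝ, 0 < c ∧ ∀ ξ : EE m, c * ‖ξ‖ ^ 2 ≤ ∑ a, ⟪x a, ξ⟫_ℝ ^ 2 := by
  let L : EE m →ₗ[ℝ] EuclideanSpace ℝ A :=
    { toFun := fun ξ => WithLp.toLp 2 fun a => ⟪x a, ξ⟫_ℝ
      map_add' := fun u v => by ext a; simp [inner_add_right]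
      map_smul' := fun c v => by ext a; simp [inner_smul_right] }
  have hL : ∀ ξ a, L ξ a = ⟪x a, ξ⟫_ℝ := fun _ _ => rfl
  have hker : LinearMap.ker L = ⊥ := by
    refine LinearMap.ker_eq_bot'.2 fun ξ hξ => h ξ fun a => ?_
    rw [real_inner_comm, ← hL, hξ]
    rfl
  obtain ⟨K, hK0, hK⟩ := L.exists_antilipschitzWith hker
  have hK' : (0 : ℝ) < K := hK0
  refine ⟨((K : ℝ) ^ 2)⁻¹, by positivity, fun ξ => ?_⟩
  have h1 : ‖ξ‖ ≤ K * ‖L ξ‖ := ZeroHomClass.bound_of_antilipschitz L hK ξ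
  have h2 : ‖L ξ‖ ^ 2 = ∑ a, ⟪x a, ξ⟫_ℝ ^ 2 := by
    rw [EuclideanSpace.real_norm_sq_eq]
    rfl
  rw [← h2, inv_mul_le_iff₀ (by positivity), ← mul_pow]
  exact pow_le_pow_left₀ (norm_nonneg _) h1 2

end Pool.Agent.HT
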