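import Pool.Agent.P.MP_65ad7c_ag.HEF2
import Pool.Agent.P.MP_65ad7c_ag.HEW

/-! Gain of one order for a small perturbation of an elliptic multiplier. -/

open Set Filter Topology MeasureTheory
open scoped ContDiff InnerProductSpace FourierTransform

noncomputable section
namespace Pool.Agent.HT
open Pool.Agent.Wein (Ret Tan)

variable {m : ℕ} {F : Type} [NormedAddCommGroup F] [InnerProductSpace ℂ F] [FiniteDimensional ℂ F]

theorem heab_key {v : EE m → F} (hv : Integrable v) {a : Fin m × Fin m → EE m → ℂ}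
    (ha : ∀ p, Test univ (a p)) (t : ℝ) (ξ : EE m) :
    t * ‖𝓕 v ξ‖ ≤
      ‖𝓕 (fun y => ((t : ℂ) + ∑ p : Fin m × Fin m, ((ξ p.1 * ξ p.2 : ℝ) : ℂ) * a p y) • v y) ξ‖
        + ‖ξ‖ ^ 2 * ∫ η, (∑ p, ‖𝓕 (a p) η‖) * ‖𝓕 v (ξ - η)‖ := by
  have hi : ∀ p, Integrable fun y => a p y • v y := by
    intro p
    obtain ⟨B, hB⟩ := (ha p).bound
    refine (hv.norm.const_mul B).mono' ((ha p).continuous.aestronglyMeasurable.smul hv.1)
      (Eventually.of_forall fun y => ?_)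
    rw [norm_smul]
    exact mul_le_mul_of_nonneg_right (hB y) (norm_nonneg _)
  have hi' : ∀ p : Fin m × Fin m, Integrable fun y => ((ξ p.1 * ξ p.2 : ℝ) : ℂ) • a p y • v y :=
    fun p => (hi p).smul ((ξ p.1 * ξ p.2 : ℝ) : ℂ)
  have e : (fun y => ((t : ℂ) + ∑ p : Fin m × Fin m, ((ξ p.1 * ξ p.2 : ℝ) : ℂ) * a p y) • v y)
      = fun y => (t : ℂ) • v y
        + ∑ p : Fin m × Fin m, ((ξ p.1 * ξ p.2 : ℝ) : ℂ) • a p y • v y := by
    funext y
    simp only [add_smul, Finset.sum_smul, mul_smul]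
  have hj : ∀ p, Integrable fun η => ‖𝓕 (a p) η‖ * ‖𝓕 v (ξ - η)‖ := fun p =>
    (ha p).fourier_integrable.norm.mul_bdd (c := ∫ y, ‖v y‖)
      ((fourier_cont hv).comp (continuous_const.sub continuous_id)).norm.aestronglyMeasurable
      (Eventually.of_forall fun η => by simpa using norm_fourier_le v (ξ - η))
  have h1 : ‖∑ p : Fin m × Fin m, 𝓕 (fun y => ((ξ p.1 * ξ p.2 : ℝ) : ℂ) • a p y • v y) ξ‖
      ≤ ‖ξ‖ ^ 2 * ∫ η, (∑ p, ‖𝓕 (a p) η‖) * ‖𝓕 v (ξ - η)‖ := by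
    simp only [Finset.sum_mul]
    rw [integral_finsetSum _ fun p _ => hj p, Finset.mul_sum]
    refine (norm_sum_le _ _).trans (Finset.sum_le_sum fun p _ => ?_)
    rw [fourier_smul', norm_smul, Complex.norm_real, norm_mul, sq]
    exact mul_le_mul (mul_le_mul (PiLp.norm_apply_le ξ p.1) (PiLp.norm_apply_le ξ p.2)
      (norm_nonneg _) (norm_nonneg _)) (norm_fourier_smul_le (ha p) hv ξ) (norm_nonneg _)
      (by positivity)
  have hv' : Integrable fun y => (t : ℂ) • v y := hv.smul (t : ℂ)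
  rw [e, fourier_add' hv' (integrable_finsetSum _ fun p _ => hi' p),
    fourier_sum' _ fun p _ => hi' p, fourier_smul']
  have h2 : t * ‖𝓕 v ξ‖ ≤ ‖(t : ℂ) • 𝓕 v ξ‖ := by
    rw [norm_smul, Complex.norm_real]
    exact mul_le_mul_of_nonneg_right (le_abs_self t) (norm_nonneg _)
  have h3 := norm_le_add_norm_add ((t : ℂ) • 𝓕 v ξ)
    (∑ p : Fin m × Fin m, 𝓕 (fun y => ((ξ p.1 * ξ p.2 : ℝ) : ℂ) • a p y • v y) ξ)
  linarith

theorem absorb {v : EE m → F} (hv : Integrable v) {q : EE m → ℝ} {c : ℝ} (hc : 0 < c)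
    (hq : ∀ ξ, c * ‖ξ‖ ^ 2 ≤ q ξ) {a : Fin m × Fin m → EE m → ℂ} (ha : ∀ p, Test univ (a p))
    (hs : ∑ p, ∫ η, ‖𝓕 (a p) η‖ ≤ c / 2) {s : ℕ} {K : ℝ}
    (h : ∀ ξ : EE m, (1 + ‖ξ‖) ^ s *
      ‖𝓕 (fun y => ((q ξ : ℂ) + ∑ p : Fin m × Fin m, ((ξ p.1 * ξ p.2 : ℝ) : ℂ) * a p y) • v y) ξ‖ ≤
        K * (1 + ‖ξ‖)) : FH (s + 1) v := by
  refine ⟨hv, ?_⟩
  have hK : 0 ≤ K := by
    have h0 := h 0
    rw [norm_zero, add_zero, mul_one] at h0
    exact le_trans (by positivity) h0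
  have hI : 0 ≤ ∫ y, ‖v y‖ := integral_nonneg fun y => norm_nonneg _
  have hk : Integrable fun η => ∑ p, ‖𝓕 (a p) η‖ :=
    integrable_finsetSum _ fun p _ => (ha p).fourier_integrable.norm
  refine weight_boot (U := fun ξ => ‖𝓕 v ξ‖) (k := fun η => c⁻¹ * ∑ p, ‖𝓕 (a p) η‖)
    (fourier_cont hv).norm (fun _ => norm_nonneg _) (norm_fourier_le v)
    (fun _ => by positivity) (hk.const_mul _) ?_ ?_
    (K := 4 * K / c + 2 ^ (s + 1) * ∫ y, ‖v y‖) fun ξ => ?_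
  · simp only [mul_left_comm _ c⁻¹, Finset.mul_sum]
    exact integrable_finsetSum _ fun p _ => ((ha p).fourier_int (s + 1)).const_mul _
  · rw [integral_const_mul, integral_finsetSum _ fun p _ => (ha p).fourier_integrable.norm,
      inv_mul_le_iff₀ hc]
    linarith
  · simp only [mul_assoc]
    rw [integral_const_mul]
    have hJ : 0 ≤ ∫ η, (∑ p, ‖𝓕 (a p) η‖) * ‖𝓕 v (ξ - η)‖ :=
      integral_nonneg fun η => by positivity
    have h1 := heab_key hv ha (q ξ) ξ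
    have h2 := h ξ
    have h3 := mul_le_mul_of_nonneg_right (hq ξ) (norm_nonneg (𝓕 v ξ))
    have h4 := norm_fourier_le v ξ
    generalize ‖𝓕 (fun y => ((q ξ : ℂ) + ∑ p : Fin m × Fin m,
      ((ξ p.1 * ξ p.2 : ℝ) : ℂ) * a p y) • v y) ξ‖ = T at h1 h2
    generalize ∫ η, (∑ p, ‖𝓕 (a p) η‖) * ‖𝓕 v (ξ - η)‖ = J at h1 hJ ⊢
    have hU := norm_nonneg (𝓕 v ξ)
    generalize ‖𝓕 v ξ‖ = U at h1 h3 h4 hU ⊢
    have hx := norm_nonneg ξ
    generalize ‖ξ‖ = x at h1 h2 h3 hx ⊢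
    have p1 : 0 ≤ (1 + x) ^ (s + 1) * (c⁻¹ * J) := by positivity
    have p2 : 0 ≤ 4 * (K / c) := by positivity
    have p3 : 0 ≤ 2 ^ (s + 1) * ∫ y, ‖v y‖ := by positivity
    rw [mul_div_assoc]
    rcases le_total x 1 with hx1 | hx1
    · have h5 : (1 + x) ^ (s + 1) * U ≤ 2 ^ (s + 1) * ∫ y, ‖v y‖ :=
        mul_le_mul (pow_le_pow_left₀ (by positivity) (by linarith) _) h4 hU (by positivity)
      linarith
    · have hx2 : 0 < c * x ^ 2 := by positivity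
      have h5 : c * x ^ 2 * (U - c⁻¹ * J) ≤ T := by
        have e : c * x ^ 2 * (c⁻¹ * J) = x ^ 2 * J := by field_simp
        rw [mul_sub, e]
        linarith
      have h6 : c * x ^ 2 * ((1 + x) ^ (s + 1) * (U - c⁻¹ * J)) ≤ c * x ^ 2 * (4 * (K / c)) := by
        calc c * x ^ 2 * ((1 + x) ^ (s + 1) * (U - c⁻¹ * J))
            = (1 + x) * ((1 + x) ^ s * (c * x ^ 2 * (U - c⁻¹ * J))) := by ring
          _ ≤ (1 + x) * ((1 + x) ^ s * T) := by gcongr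
          _ ≤ (1 + x) * (K * (1 + x)) := by gcongr
          _ = K * (1 + x) ^ 2 := by ring
          _ ≤ K * (2 * x) ^ 2 := by gcongr; linarith
          _ = c * x ^ 2 * (4 * (K / c)) := by field_simp; norm_num
      have h7 := le_of_mul_le_mul_left h6 hx2
      rw [mul_sub] at h7
      linarith

end Pool.Agent.HT
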