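import Pool.Agent.P.MP_65ad7c_ag.HEF1

/-! The operator applied to a localised plane wave. -/

open Set Filter Topology MeasureTheory
open scoped ContDiff InnerProductSpace FourierTransform

noncomputable section
namespace Pool.Agent.HT
open Pool.Agent.Wein (Ret Tan)

variable {m : ℕ} {O : Set (EE m)}
  {F : Type} [NormedAddCommGroup F] [InnerProductSpace ℂ F] [FiniteDimensional ℂ F]

/-- the phase of the plane wave -/
def hesym_L (ξ : EE m) : EE m →L[ℝ] ℂ :=
  (innerSL ℝ ξ).smulRight (2 * (Real.pi : ℂ) * Complex.I)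

theorem hesym_L_apply (ξ v : EE m) :
    hesym_L ξ v = ((2 * Real.pi * ⟪v, ξ⟫_ℝ : ℝ) : ℂ) * Complex.I := by
  rw [hesym_L, ContinuousLinearMap.smulRight_apply, innerSL_apply_apply, real_inner_comm,
    Complex.real_smul]
  push_cast
  ring

theorem hesym_L_sum (ξ v : EE m) :
    hesym_L ξ v = ∑ j, ((ξ j : ℝ) : ℂ) * (2 * (Real.pi : ℂ) * Complex.I * ((v j : ℝ) : ℂ)) := by
  rw [hesym_L_apply, PiLp.inner_apply]
  push_cast
  rw [Finset.mul_sum, Finset.sum_mul]
  refine Finset.sum_congr rfl fun j _ => ?_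
  simp only [RCLike.inner_apply, conj_trivial]
  push_cast
  ring

theorem hesym_pw (ξ : EE m) : pw ξ = fun y => Complex.exp (hesym_L ξ y) := by
  funext y
  rw [hesym_L_apply, pw]

theorem hesym_pw_smooth (ξ : EE m) : ContDiff ℝ ∞ (pw ξ) := by
  rw [hesym_pw]
  exact (hesym_L ξ).contDiff.cexp

theorem hesym_pw_deriv (ξ y : EE m) : HasFDerivAt (pw ξ) (pw ξ y • hesym_L ξ) y := by
  rw [hesym_pw]
  exact (hesym_L ξ).hasFDerivAt.cexp

theorem hesym_smul {G : Type} [NormedAddCommGroup G] [NormedSpace ℝ G] [NormedSpace ℂ G]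
    [IsScalarTower ℝ ℂ G] {c : EE m → ℂ} (hc : Test O c) {f : EE m → G}
    (hf : ContDiff ℝ ∞ f) : Test O fun y => c y • f y :=
  hc.of_supp (hc.1.smul hf) fun y hy => by rw [image_eq_zero_of_notMem_tsupport hy, zero_smul]

theorem hesym_ofReal {χ : EE m → ℝ} (hχ : Test O χ) : Test O fun y => (χ y : ℂ) :=
  hχ.clm Complex.ofRealCLM

omit [FiniteDimensional ℂ F] in
theorem pw_test {χ : EE m → ℝ} (hχ : Test O χ) (ξ : EE m) (e : F) :
    Test O fun y => ((χ y : ℂ) * pw ξ y) • e := by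
  simp only [mul_smul]
  exact hesym_smul (hesym_ofReal hχ) ((hesym_pw_smooth ξ).smul contDiff_const)

omit [FiniteDimensional ℂ F] in
theorem hesym_vd {c : EE m → ℂ} (hc : ContDiff ℝ ∞ c) (X : EE m → EE m) (ξ : EE m) (e : F) :
    vd X (fun y => (c y * pw ξ y) • e) = fun y => ((fderiv ℝ c y (X y) +
      hesym_L ξ (X y) * c y) * pw ξ y) • e := by
  funext y
  have h1 := (((hc.differentiable (by simp) y).hasFDerivAt.mul (hesym_pw_deriv ξ y)).smul_const e)
  have h2 : fderiv ℝ (fun y => (c y * pw ξ y) • e) y = _ := h1.fderiv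
  rw [vd, h2]
  simp only [ContinuousLinearMap.smulRight_apply, add_apply,
    smul_apply, smul_eq_mul]
  exact congrArg (· • e) (by ring)

omit [FiniteDimensional ℂ F] in
theorem vd_pw {c : EE m → ℂ} (hc : ContDiff ℝ ∞ c) (X : EE m → EE m) (ξ : EE m) (e : F) :
    vd X (fun y => (c y * pw ξ y) • e) = fun y => ((fderiv ℝ c y (X y) +
      ((2 * Real.pi * ⟪X y, ξ⟫_ℝ : ℝ) : ℂ) * Complex.I * c y) * pw ξ y) • e := by
  simp only [hesym_vd hc, hesym_L_apply]

theorem hesym_d_smooth {G : Type} [NormedAddCommGroup G] [NormedSpace ℝ G] {c : EE m → G}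
    (hc : ContDiff ℝ ∞ c) {X : EE m → EE m} (hX : ContDiff ℝ ∞ X) :
    ContDiff ℝ ∞ fun y => fderiv ℝ c y (X y) :=
  (hc.fderiv_right (m := ∞) (by simp)).clm_apply hX

omit [FiniteDimensional ℂ F] in
theorem hesym_vd2 {c : EE m → ℂ} (hc : ContDiff ℝ ∞ c) {X : EE m → EE m} (hX : ContDiff ℝ ∞ X)
    (ξ : EE m) (e : F) (y : EE m) :
    vd X (vd X fun y => (c y * pw ξ y) • e) y =
      ((fderiv ℝ (fun z => fderiv ℝ c z (X z)) y (X y) +
        hesym_L ξ (fderiv ℝ X y (X y)) * c y + 2 * hesym_L ξ (X y) * fderiv ℝ c y (X y) +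
        hesym_L ξ (X y) ^ 2 * c y) * pw ξ y) • e := by
  have hd := hesym_d_smooth hc hX
  have hL : ContDiff ℝ ∞ fun y => hesym_L ξ (X y) := (hesym_L ξ).contDiff.comp hX
  rw [hesym_vd hc, hesym_vd (hd.add (hL.mul hc))]
  have h1 := (hd.differentiable (by simp) y).hasFDerivAt.add
    (((hesym_L ξ).hasFDerivAt.comp y (hX.differentiable (by simp) y).hasFDerivAt).mul
      (hc.differentiable (by simp) y).hasFDerivAt)
  have h2 : fderiv ℝ (fun y => fderiv ℝ c y (X y) + hesym_L ξ (X y) * c y) y = _ := h1.fderiv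
  beta_reduce
  rw [h2]
  simp only [add_apply, smul_apply, smul_eq_mul,
    ContinuousLinearMap.comp_apply, Function.comp_apply]
  exact congrArg (· • e) (by ring)

theorem hesym_coord {X : EE m → EE m} (hX : ContDiff ℝ ∞ X) (j : Fin m) :
    ContDiff ℝ ∞ fun y => 2 * (Real.pi : ℂ) * Complex.I * ((X y j : ℝ) : ℂ) :=
  contDiff_const.mul (Complex.ofRealCLM.contDiff.comp
    ((EuclideanSpace.proj (𝕜 := ℝ) j).contDiff.comp hX))

omit [FiniteDimensional ℂ F] in
theorem opP_pw {A : Type} [Fintype A] {X : A → EE m → EE m} {B : A → EE m → F →L[ℂ] F}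
    {C : EE m → F →L[ℂ] F} (hX : ∀ a, ContDiff ℝ ∞ (X a)) (hB : ∀ a, ContDiff ℝ ∞ (B a))
    (hC : ContDiff ℝ ∞ C) {χ : EE m → ℝ} (hχ : Test O χ) :
    ∃ (M : Fin m → EE m → F →L[ℂ] F) (N : EE m → F →L[ℂ] F), (∀ j, Test O (M j)) ∧ Test O N ∧
      ∀ (ξ : EE m) (e : F) (y : EE m), opP X B C (fun y => ((χ y : ℂ) * pw ξ y) • e) y =
        pw ξ y • (((4 * Real.pi ^ 2 * (∑ a, ⟪X a y, ξ⟫_ℝ ^ 2) * χ y : ℝ) : ℂ) • e +
          ∑ j, ((ξ j : ℝ) : ℂ) • M j y e + N y e) := by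
  have h0 := hesym_ofReal hχ
  obtain ⟨c, hc⟩ : ∃ c : EE m → ℂ, c = fun y => (χ y : ℂ) := ⟨_, rfl⟩
  have hcy : ∀ y, (χ y : ℂ) = c y := fun y => by rw [hc]
  rw [← hc] at h0
  have h1 := fun a => h0.deriv (hX a)
  have h2 := fun a => (h1 a).deriv (hX a)
  refine ⟨fun j y => ∑ a, (c y • ((-(2 * (Real.pi : ℂ) * Complex.I *
      ((fderiv ℝ (X a) y (X a y) j : ℝ) : ℂ))) • (1 : F →L[ℂ] F) +
      (2 * (Real.pi : ℂ) * Complex.I * ((X a y j : ℝ) : ℂ)) • B a y) +
      fderiv ℝ c y (X a y) • (((-2 : ℂ) * (2 * (Real.pi : ℂ) * Complex.I *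
        ((X a y j : ℝ) : ℂ))) • (1 : F →L[ℂ] F))),
    fun y => ∑ a, (fderiv ℝ (fun z => fderiv ℝ c z (X a z)) y (X a y) • (-1 : F →L[ℂ] F) +
      fderiv ℝ c y (X a y) • B a y) + c y • C y, fun j => ?_, ?_, fun ξ e y => ?_⟩
  · refine Test.sum _ fun a _ => (hesym_smul h0 ?_).add (hesym_smul (h1 a) ?_)
    · exact ((hesym_coord (hesym_d_smooth (hX a) (hX a)) j).neg.smul contDiff_const).add
        ((hesym_coord (hX a) j).smul (hB a))
    · exact (contDiff_const.mul (hesym_coord (hX a) j)).smul contDiff_const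
  · exact (Test.sum _ fun a _ => (hesym_smul (h2 a) contDiff_const).add
      (hesym_smul (h1 a) (hB a))).add (hesym_smul h0 hC)
  · have e1 : ((4 * Real.pi ^ 2 * (∑ a, ⟪X a y, ξ⟫_ℝ ^ 2) * χ y : ℝ) : ℂ) =
        ∑ a, -(hesym_L ξ (X a y) ^ 2 * c y) := by
      push_cast
      rw [Finset.mul_sum, Finset.sum_mul, hcy]
      refine Finset.sum_congr rfl fun a _ => ?_
      rw [hesym_L_apply, mul_pow, Complex.I_sq]
      push_cast
      ring
    have e2 : ∀ a, ∑ j, ((ξ j : ℝ) : ℂ) • (c y • ((-(2 * (Real.pi : ℂ) * Complex.I *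
        ((fderiv ℝ (X a) y (X a y) j : ℝ) : ℂ))) • e +
        (2 * (Real.pi : ℂ) * Complex.I * ((X a y j : ℝ) : ℂ)) • B a y e) +
        fderiv ℝ c y (X a y) • (((-2 : ℂ) * (2 * (Real.pi : ℂ) * Complex.I *
          ((X a y j : ℝ) : ℂ))) • e)) =
        (-(hesym_L ξ (fderiv ℝ (X a) y (X a y)) * c y) -
          2 * hesym_L ξ (X a y) * fderiv ℝ c y (X a y)) • e +
          (hesym_L ξ (X a y) * c y) • B a y e := fun a => by
      rw [hesym_L_sum, hesym_L_sum, Finset.mul_sum, Finset.sum_mul, Finset.sum_mul,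
        Finset.sum_mul, ← Finset.sum_neg_distrib, ← Finset.sum_sub_distrib, Finset.sum_smul,
        Finset.sum_smul, ← Finset.sum_add_distrib]
      refine Finset.sum_congr rfl fun j _ => ?_
      module
    rw [e1]
    simp only [hcy, opP, hesym_vd2 h0.1 (hX _)]
    simp only [hesym_vd h0.1, sum_apply, add_apply,
      smul_apply, neg_apply,
      one_apply_eq_self, Finset.smul_sum, map_smul]
    rw [Finset.sum_comm]
    simp only [e2]
    rw [Finset.sum_smul, ← add_assoc, ← Finset.sum_add_distrib, ← Finset.sum_add_distrib,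
      smul_add, Finset.smul_sum, ← Finset.sum_neg_distrib, ← Finset.sum_add_distrib, mul_comm (c y),
      mul_smul]
    refine congrArg (· + _) (Finset.sum_congr rfl fun a _ => ?_)
    module

end Pool.Agent.HT
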