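import Pool.Agent.P.MP_65ad7c_ag.HEF2
import Pool.Agent.P.MP_65ad7c_ag.HESym

/-! The weak equation on the Fourier side. -/

open Set Filter Topology MeasureTheory
open scoped ContDiff InnerProductSpace FourierTransform

noncomputable section
namespace Pool.Agent.HT
open Pool.Agent.Wein (Ret Tan)

variable {m : ℕ} {O : Set (EE m)}
  {F : Type} [NormedAddCommGroup F] [InnerProductSpace ℂ F] [FiniteDimensional ℂ F]

theorem heid_inner {w : EE m → F} (hw : Integrable w) (ξ : EE m) (e : F) :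
    ⟪𝓕 w ξ, e⟫_ℂ = ∫ y, ⟪w y, pw ξ y • e⟫_ℂ := by
  have hc : Continuous fun y => (starRingEnd ℂ) (pw ξ y) :=
    Complex.continuous_conj.comp (pw_smooth ξ).continuous
  have hint : Integrable fun y => (starRingEnd ℂ) (pw ξ y) • w y :=
    hw.bdd_smul 1 hc.aestronglyMeasurable
      (Eventually.of_forall fun y => by rw [RCLike.norm_conj, norm_pw])
  rw [fourier_pw, ← inner_conj_symm, ← integral_inner hint, ← integral_conj]
  refine integral_congr_ae (Eventually.of_forall fun y => ?_)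
  simp only
  rw [inner_conj_symm, inner_smul_left, inner_smul_right, Complex.conj_conj]

theorem heid_coord (ξ : EE m) (j : Fin m) : ‖((ξ j : ℝ) : ℂ)‖ ≤ 1 + ‖ξ‖ := by
  rw [Complex.norm_real]
  have := PiLp.norm_apply_le ξ j
  linarith

theorem weak_fourier {A : Type} [Fintype A] {X : A → EE m → EE m} {B : A → EE m → F →L[ℂ] F}
    {C : EE m → F →L[ℂ] F} (hX : ∀ a, ContDiff ℝ ∞ (X a)) (hB : ∀ a, ContDiff ℝ ∞ (B a))
    (hC : ContDiff ℝ ∞ C) (hO : IsOpen O) {u f : EE m → F} {s : ℕ}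
    (hw : ∀ φ : EE m → F, Test O φ →
      ∫ y in O, ⟪u y, opP X B C φ y⟫_ℂ = ∫ y in O, ⟪f y, φ y⟫_ℂ)
    (hu : FL s O u) (hf : FL s O f) {χ : EE m → ℝ} (hχ : Test O χ) :
    ∃ K : ℝ, ∀ ξ : EE m, (1 + ‖ξ‖) ^ s *
      ‖𝓕 (fun y => ((∑ a, ⟪X a y, ξ⟫_ℝ ^ 2 : ℝ) : ℂ) • χ y • u y) ξ‖ ≤ K * (1 + ‖ξ‖) := by
  obtain ⟨M, N, hM, hN, hop⟩ := opP_pw hX hB hC hχ
  have h2 : ∀ j, FH s fun y => ContinuousLinearMap.adjoint (M j y) (u y) :=
    fun j => FL.mul hO (hM j).adjoint hu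
  have h3 : FH s fun y => ContinuousLinearMap.adjoint (N y) (u y) := FL.mul hO hN.adjoint hu
  have h4 : FH s fun y => χ y • f y := hf χ hχ
  choose K2 hK2 using fun j => (h2 j).2
  obtain ⟨K3, hK3⟩ := h3.2
  obtain ⟨K4, hK4⟩ := h4.2
  refine ⟨K4 + ∑ j, K2 j + K3, fun ξ => ?_⟩
  have hp : (0 : ℝ) < (1 + ‖ξ‖) ^ s := by positivity
  have hK2' : ∀ j, 0 ≤ K2 j := fun j => le_trans (by positivity) (hK2 j ξ)
  have hK3' : 0 ≤ K3 := le_trans (by positivity) (hK3 ξ)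
  have hK4' : 0 ≤ K4 := le_trans (by positivity) (hK4 ξ)
  have hq : ContDiff ℝ ∞ fun y => (∑ a, ⟪X a y, ξ⟫_ℝ ^ 2 : ℝ) :=
    ContDiff.sum fun a _ => ((hX a).inner ℝ contDiff_const).pow 2
  have ht : Test O fun y => (∑ a, ⟪X a y, ξ⟫_ℝ ^ 2 : ℝ) * χ y :=
    hχ.of_supp (hq.mul hχ.1) fun y hy => by
      rw [image_eq_zero_of_notMem_tsupport hy, mul_zero]
  have h1 : Integrable fun y => ((∑ a, ⟪X a y, ξ⟫_ℝ ^ 2 : ℝ) : ℂ) • χ y • u y := by
    refine (hu _ ht).1.congr (Eventually.of_forall fun y => ?_)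
    simp only
    rw [mul_smul, Complex.coe_smul]
  set w1 : EE m → F := fun y => ((∑ a, ⟪X a y, ξ⟫_ℝ ^ 2 : ℝ) : ℂ) • χ y • u y with hw1
  have i1 : Integrable fun y => ((4 * Real.pi ^ 2 : ℝ) : ℂ) • w1 y := h1.smul _
  have i2 : ∀ j ∈ (Finset.univ : Finset (Fin m)),
      Integrable fun y => ((ξ j : ℝ) : ℂ) • ContinuousLinearMap.adjoint (M j y) (u y) :=
    fun j _ => (h2 j).1.smul _
  have i2' : Integrable fun y =>
      ∑ j, ((ξ j : ℝ) : ℂ) • ContinuousLinearMap.adjoint (M j y) (u y) :=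
    integrable_finsetSum _ i2
  have i12 : Integrable fun y => ((4 * Real.pi ^ 2 : ℝ) : ℂ) • w1 y +
      ∑ j, ((ξ j : ℝ) : ℂ) • ContinuousLinearMap.adjoint (M j y) (u y) := i1.add i2'
  have i123 : Integrable fun y => ((4 * Real.pi ^ 2 : ℝ) : ℂ) • w1 y +
      ∑ j, ((ξ j : ℝ) : ℂ) • ContinuousLinearMap.adjoint (M j y) (u y) +
      ContinuousLinearMap.adjoint (N y) (u y) := i12.add h3.1
  have key : 𝓕 (fun y => ((4 * Real.pi ^ 2 : ℝ) : ℂ) • w1 y +
      ∑ j, ((ξ j : ℝ) : ℂ) • ContinuousLinearMap.adjoint (M j y) (u y) +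
      ContinuousLinearMap.adjoint (N y) (u y)) ξ = 𝓕 (fun y => χ y • f y) ξ := by
    refine ext_inner_right ℂ fun e => ?_
    have hwe := hw _ (pw_test hχ ξ e)
    rw [setIntegral_eq_integral_of_forall_compl_eq_zero,
      setIntegral_eq_integral_of_forall_compl_eq_zero] at hwe
    · rw [heid_inner i123, heid_inner h4.1]
      refine Eq.trans ?_ (hwe.trans ?_)
      · refine integral_congr_ae (Eventually.of_forall fun y => ?_)
        simp only
        rw [hop, hw1]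
        simp only
        generalize (∑ a, ⟪X a y, ξ⟫_ℝ ^ 2 : ℝ) = q
        simp only [inner_add_left, inner_add_right, sum_inner, inner_sum, inner_smul_left,
          inner_smul_right, ContinuousLinearMap.adjoint_inner_left, Complex.conj_ofReal,
          ← Complex.coe_smul]
        push_cast
        ring
      · refine integral_congr_ae (Eventually.of_forall fun y => ?_)
        simp only [← Complex.coe_smul, inner_smul_left, inner_smul_right, Complex.conj_ofReal]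
        ring
    · intro y hy
      rw [hχ.eq_zero hy]
      simp
    · intro y hy
      rw [hop, hχ.eq_zero hy, hN.eq_zero hy]
      simp [fun j => (hM j).eq_zero hy]
  rw [fourier_add' i12 h3.1, fourier_add' i1 i2', fourier_smul', fourier_sum' _ i2] at key
  simp only [fourier_smul'] at key
  have e1 : ((4 * Real.pi ^ 2 : ℝ) : ℂ) • 𝓕 w1 ξ = 𝓕 (fun y => χ y • f y) ξ -
      ∑ j, ((ξ j : ℝ) : ℂ) • 𝓕 (fun y => ContinuousLinearMap.adjoint (M j y) (u y)) ξ -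
      𝓕 (fun y => ContinuousLinearMap.adjoint (N y) (u y)) ξ := by
    rw [← key]; abel
  have hpi : (1 : ℝ) ≤ 4 * Real.pi ^ 2 := by nlinarith [Real.pi_gt_three]
  have n1 : ‖𝓕 w1 ξ‖ ≤ ‖((4 * Real.pi ^ 2 : ℝ) : ℂ) • 𝓕 w1 ξ‖ := by
    rw [norm_smul, Complex.norm_real, Real.norm_of_nonneg (by positivity)]
    exact le_mul_of_one_le_left (norm_nonneg _) hpi
  have n2 : ‖∑ j, ((ξ j : ℝ) : ℂ) • 𝓕 (fun y => ContinuousLinearMap.adjoint (M j y) (u y)) ξ‖ ≤
      ∑ j, (1 + ‖ξ‖) * ‖𝓕 (fun y => ContinuousLinearMap.adjoint (M j y) (u y)) ξ‖ := by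
    refine (norm_sum_le _ _).trans (Finset.sum_le_sum fun j _ => ?_)
    rw [norm_smul]
    exact mul_le_mul_of_nonneg_right (heid_coord ξ j) (norm_nonneg _)
  have n3 : ‖𝓕 w1 ξ‖ ≤ ‖𝓕 (fun y => χ y • f y) ξ‖ +
      ∑ j, (1 + ‖ξ‖) * ‖𝓕 (fun y => ContinuousLinearMap.adjoint (M j y) (u y)) ξ‖ +
      ‖𝓕 (fun y => ContinuousLinearMap.adjoint (N y) (u y)) ξ‖ := by
    refine n1.trans ?_
    rw [e1]
    refine (norm_sub_le _ _).trans (add_le_add ((norm_sub_le _ _).trans ?_) le_rfl)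
    exact add_le_add le_rfl n2
  have n4 : (1 + ‖ξ‖) ^ s *
      ∑ j, (1 + ‖ξ‖) * ‖𝓕 (fun y => ContinuousLinearMap.adjoint (M j y) (u y)) ξ‖ ≤
      (∑ j, K2 j) * (1 + ‖ξ‖) := by
    rw [Finset.mul_sum, Finset.sum_mul]
    refine Finset.sum_le_sum fun j _ => ?_
    rw [mul_left_comm, mul_comm (K2 j)]
    exact mul_le_mul_of_nonneg_left (hK2 j ξ) (by positivity)
  have n5 := mul_le_mul_of_nonneg_left n3 hp.le
  have n6 := hK3 ξ
  have n7 := hK4 ξ
  have n8 := mul_nonneg hK3' (norm_nonneg ξ)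
  have n9 := mul_nonneg hK4' (norm_nonneg ξ)
  rw [mul_add, mul_add] at n5
  nlinarith

end Pool.Agent.HT
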