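import Pool.Agent.P.MP_65ad7c_ag.HEF3
import Pool.Agent.P.MP_65ad7c_ag.HEAb
import Pool.Agent.P.MP_65ad7c_ag.HEId

/-! Local gain of regularity for very weak solutions. -/

open Set Filter Topology MeasureTheory
open scoped ContDiff InnerProductSpace FourierTransform

noncomputable section
namespace Pool.Agent.HT
open Pool.Agent.Wein (Ret Tan)

variable {m : ℕ} {F : Type} [NormedAddCommGroup F] [InnerProductSpace ℂ F] [FiniteDimensional ℂ F]

theorem hereg_sq {A : Type} [Fintype A] (x : A → EE m) (ξ : EE m) :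
    ∑ a, ⟪x a, ξ⟫_ℝ ^ 2 = ∑ p : Fin m × Fin m, ξ p.1 * ξ p.2 * ∑ a, x a p.1 * x a p.2 := by
  simp only [Finset.mul_sum]
  rw [Finset.sum_comm]
  refine Finset.sum_congr rfl fun a _ => ?_
  rw [PiLp.inner_apply, sq, Finset.sum_mul_sum, Fintype.sum_prod_type]
  refine Finset.sum_congr rfl fun j _ => Finset.sum_congr rfl fun k _ => ?_
  simp only [RCLike.inner_apply, conj_trivial]
  ring

theorem regloc {A : Type} [Fintype A] {X : A → EE m → EE m} {B : A → EE m → F →L[ℂ] F}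
    {C : EE m → F →L[ℂ] F} (hX : ∀ a, ContDiff ℝ ∞ (X a)) (hB : ∀ a, ContDiff ℝ ∞ (B a))
    (hC : ContDiff ℝ ∞ C) {y₀ : EE m} (hell : ∀ ξ : EE m, (∀ a, ⟪ξ, X a y₀⟫_ℝ = 0) → ξ = 0) :
    ∀ᶠ r in 𝓝[>] (0 : ℝ), ∀ (u f : EE m → F) (s : ℕ),
      (∀ φ : EE m → F, Test (Metric.ball y₀ r) φ →
        ∫ y in Metric.ball y₀ r, ⟪u y, opP X B C φ y⟫_ℂ = ∫ y in Metric.ball y₀ r, ⟪f y, φ y⟫_ℂ) →
      FL s (Metric.ball y₀ r) u → FL s (Metric.ball y₀ r) f →
        FL (s + 1) (Metric.ball y₀ r) u := by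
  obtain ⟨c, hc, hq⟩ := ell_const (x := fun a => X a y₀) hell
  let g : Fin m × Fin m → EE m → ℂ := fun p y =>
    ((∑ a, X a y p.1 * X a y p.2 - ∑ a, X a y₀ p.1 * X a y₀ p.2 : ℝ) : ℂ)
  have hco : ∀ a j, ContDiff ℝ ∞ fun y => X a y j := fun a j =>
    (EuclideanSpace.proj (𝕜 := ℝ) j).contDiff.comp (hX a)
  have hg : ∀ p, ContDiff ℝ ∞ (g p) := fun p =>
    Complex.ofRealCLM.contDiff.comp
      ((ContDiff.sum fun a _ => (hco a p.1).mul (hco a p.2)).sub contDiff_const)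
  have hε : 0 < c / (2 * (Fintype.card (Fin m × Fin m) + 1)) := by positivity
  have hev := eventually_all.2 fun p => small_fourier (hg p) (y₀ := y₀) (by simp [g]) hε
  filter_upwards [hev] with r hr u f s hw hu hf χ hχ
  choose a ha1 ha2 ha3 using hr
  obtain ⟨K, hK⟩ := weak_fourier hX hB hC Metric.isOpen_ball hw hu hf hχ
  refine absorb (hu χ hχ).1 hc hq ha1 ?_ (K := K) fun ξ => ?_
  · refine (Finset.sum_le_sum fun p _ => ha3 p).trans ?_
    rw [Finset.sum_const, Finset.card_univ, nsmul_eq_mul, ← mul_div_assoc,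
      div_le_div_iff₀ (by positivity) (by norm_num)]
    have : (0 : ℝ) ≤ Fintype.card (Fin m × Fin m) := Nat.cast_nonneg _
    nlinarith
  · refine le_of_eq_of_le ?_ (hK ξ)
    refine congrArg (fun w : EE m → F => (1 + ‖ξ‖) ^ s * ‖𝓕 w ξ‖) (funext fun y => ?_)
    by_cases hy : y ∈ Metric.ball y₀ r
    · congr 1
      simp only [ha2 _ y hy, g, hereg_sq]
      push_cast
      simp only [mul_sub, Finset.sum_sub_distrib]
      ring
    · simp [hχ.eq_zero hy]

end Pool.Agent.HT
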