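import Pool.Agent.P.MP_65ad7c_ag.VGlue

open Set Filter Topology Metric

noncomputable section
namespace Pool.Agent.PWV

variable {X : Cx} {T T' : Type} [MetricSpace T] [TopologicalSpace T']

namespace FC

/-- Restriction to a subspace. -/
def comap (Q : FC X T) (φ : T' → T) (hφ : IsInducing φ) : FC X T' where
  top := Q.top
  z n y := Q.z n (φ y)
  d_top := Q.d_top
  d_z y := Q.d_z (φ y)
  opn n v := (Q.opn n v).preimage hφ.continuous
  glue n ι O v hO hv h := by
    choose U hU hUO using fun i => hφ.isOpen_iff.1 (hO i)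
    obtain ⟨w, hw, hw'⟩ := Q.glue_res (range φ) n ι U v hU hv (by
      rintro i j _ ⟨y, rfl⟩ hi hj
      exact h i j y ⟨by rw [← hUO i]; exact hi, by rw [← hUO j]; exact hj⟩)
    exact ⟨w, hw, fun i y hy => hw' i _ ⟨y, rfl⟩ (by rw [← hUO i] at hy; exact hy)⟩
  neg n hn y := Q.neg n hn (φ y)

/-- `i_* i^*` for the closure of `A`. -/
def res (Q : FC X T) (A : Set T) : FC X T where
  top := Q.top
  z n x := ⨅ _ : x ∈ closure A, Q.z n x
  d_top := Q.d_top
  d_z x n v hv := by
    simp only [Submodule.mem_iInf] at hv ⊢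
    exact fun hx => Q.d_z x n v (hv hx)
  opn n v := by
    have : {x | v ∈ ⨅ _ : x ∈ closure A, Q.z n x} = (closure A)ᶜ ∪ {x | v ∈ Q.z n x} := by
      ext x
      simp only [Submodule.mem_iInf, mem_ofPred_eq, mem_union, mem_compl_iff]
      tauto
    rw [this]
    exact isClosed_closure.isOpen_compl.union (Q.opn n v)
  glue n ι O v hO hv h := by
    simp only [Submodule.mem_iInf] at h ⊢
    obtain ⟨w, hw, hw'⟩ := Q.glue_res (closure A) n ι O v hO hv
      fun i j x hx hi hj => h i j x ⟨hi, hj⟩ hx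
    exact ⟨w, hw, fun i x hi hx => hw' i x hx hi⟩
  neg n hn x := le_iInf fun _ => Q.neg n hn x

/-- Direct image along a rational map of the restriction to its domain. -/
def pushR {σ τ : Type} [Fintype σ] (Q : FC X (σ → ℂ)) (f : τ → MvPolynomial σ ℂ)
    (h : MvPolynomial σ ℂ) : FC X (τ → ℂ) :=
  (Q.comap (Subtype.val : {x : σ → ℂ // MvPolynomial.eval x h ≠ 0} → σ → ℂ)
    IsInducing.subtypeVal).map (ratC f h)

end FC

end Pool.Agent.PWV
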