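import Pool.Agent.P.MP_65ad7c_ag.VAlg
import Pool.Agent.P.MP_65ad7c_ag.VOps

open Set Filter Topology Metric

noncomputable section
namespace Pool.Agent.PWV

variable {X : Cx} {T T' : Type} [MetricSpace T] [MetricSpace T']

theorem sep_of_isClosed {A B : Set T} (hA : IsClosed A) (hB : IsClosed B) : Sep A B := by
  refine ⟨disjoint_left.2 fun x h1 h2 => h2.2 ?_, disjoint_left.2 fun x h1 h2 => h1.2 ?_⟩
  · exact closure_minimal sdiff_subset hA h1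
  · exact closure_minimal sdiff_subset hB h2

theorem sep_of_isOpen {A B : Set T} (hA : IsOpen A) (hB : IsOpen B) : Sep A B := by
  refine ⟨disjoint_left.2 fun x h1 h2 => ?_, disjoint_left.2 fun x h1 h2 => ?_⟩
  · exact closure_minimal (fun _ h => h.2) hB.isClosed_compl h1 h2.1
  · exact closure_minimal (fun _ h => h.2) hA.isClosed_compl h2 h1.1

theorem sep_of_relCl {A B S : Set T} (hA : RelCl A S) (hB : RelCl B S) : Sep A B := by
  refine ⟨disjoint_left.2 fun x h1 h2 => h2.2 ?_, disjoint_left.2 fun x h1 h2 => h1.2 ?_⟩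
  · exact hA.2 ⟨closure_mono sdiff_subset h1, hB.1 h2.1⟩
  · exact hB.2 ⟨closure_mono sdiff_subset h2, hA.1 h1.1⟩

theorem sep_of_subset {A B : Set T} (h : A ⊆ B) : Sep A B := by
  rw [Sep, sdiff_eq_empty.2 h, closure_empty]
  exact ⟨empty_disjoint _, empty_disjoint _⟩

theorem Sep.symm {A B : Set T} (h : Sep A B) : Sep B A := by
  exact ⟨h.2.symm, h.1.symm⟩

theorem RelCl.inter {A B S : Set T} (hA : RelCl A S) (hB : RelCl B S) : RelCl (A ∩ B) S := by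
  exact ⟨inter_subset_left.trans hA.1, fun x hx =>
    ⟨hA.2 ⟨closure_mono inter_subset_left hx.1, hx.2⟩,
      hB.2 ⟨closure_mono inter_subset_right hx.1, hx.2⟩⟩⟩

theorem relCl_of_isClosed {A S : Set T} (hA : IsClosed A) (h : A ⊆ S) : RelCl A S := by
  exact ⟨h, fun x hx => hA.closure_subset hx.1⟩

theorem relCl_inter {C S : Set T} (hC : IsClosed C) : RelCl (S ∩ C) S := by
  exact ⟨inter_subset_left, fun x hx => ⟨hx.2, closure_minimal inter_subset_right hC hx.1⟩⟩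

namespace FC
variable {Q : FC X T} {A B C : Set T} {n : ℤ}

theorem ZT_anti (h : B ⊆ A) : Q.ZT A ≤ Q.ZT B := by
  exact fun n v hv => mem_ZT.2 ⟨(mem_ZT.1 hv).1, fun x hx => (mem_ZT.1 hv).2 x (h hx)⟩

theorem ZT_stab (Q : FC X T) (A : Set T) : X.Stab (Q.ZT A) := by
  exact fun n v hv => ⟨Q.d_top n v hv.1, Q.Z_stab A n v hv.2⟩

theorem ZT_empty (Q : FC X T) : Q.ZT ∅ = Q.top := by
  funext n
  ext v
  simp [mem_ZT]

theorem ZT_union (Q : FC X T) (A B : Set T) : Q.ZT (A ∪ B) = Q.ZT A ⊓ Q.ZT B := by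
  funext n
  ext v
  simp only [Pi.inf_apply, Submodule.mem_inf, mem_ZT, mem_union]
  exact ⟨fun h => ⟨⟨h.1, fun x hx => h.2 x (Or.inl hx)⟩, h.1, fun x hx => h.2 x (Or.inr hx)⟩,
    fun h => ⟨h.1.1, fun x hx => hx.elim (h.1.2 x) (h.2.2 x)⟩⟩

theorem ZT_inter (Q : FC X T) (h : Sep A B) : Q.ZT (A ∩ B) = Q.ZT A ⊔ Q.ZT B := by
  refine le_antisymm (fun n v hv => ?_)
    (sup_le (ZT_anti inter_subset_left) (ZT_anti inter_subset_right))
  obtain ⟨U, U', hU, hU', h1, h2, h3⟩ :=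
    separatedNhds_iff_disjoint.2 (CompletelyNormalSpace.completely_normal h.1 h.2)
  obtain ⟨hv1, hv2⟩ := mem_ZT.1 hv
  have key : ∀ x, x ∈ U ∪ {x | v ∈ Q.z n x} → x ∈ U' ∪ {x | v ∈ Q.z n x} → v ∈ Q.z n x :=
    fun x g1 g2 => g1.elim (fun g1 => g2.elim (fun g2 => (disjoint_left.1 h3 g1 g2).elim) id) id
  obtain ⟨w, hw, hw'⟩ := Q.glue n Bool
    (fun b => cond b (U' ∪ {x | v ∈ Q.z n x}) (U ∪ {x | v ∈ Q.z n x})) (fun b => cond b v 0)
    (fun b => by cases b; exacts [hU.union (Q.opn n v), hU'.union (Q.opn n v)])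
    (fun b => by cases b; exacts [zero_mem _, hv1])
    (fun i j x hx => by
      cases i <;> cases j
      · simp
      · simpa using key x hx.1 hx.2
      · simpa using key x hx.2 hx.1
      · simp)
  refine Submodule.mem_sup.2 ⟨w, mem_ZT.2 ⟨hw, fun x hx => ?_⟩, v - w,
    mem_ZT.2 ⟨sub_mem hv1 hw, fun x hx => ?_⟩, add_sub_cancel _ _⟩
  · have hx' : x ∈ U ∪ {x | v ∈ Q.z n x} := by
      by_cases hB : x ∈ B
      exacts [Or.inr (hv2 x ⟨hx, hB⟩), Or.inl (h1 ⟨hx, hB⟩)]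
    simpa using hw' false x hx'
  · have hx' : x ∈ U' ∪ {x | v ∈ Q.z n x} := by
      by_cases hA : x ∈ A
      exacts [Or.inr (hv2 x ⟨hA, hx⟩), Or.inl (h2 ⟨hx, hA⟩)]
    have := neg_mem (hw' true x hx')
    simpa using this

theorem ex_self (Q : FC X T) (n : ℤ) (A : Set T) : Q.Ex n A A := by
  exact fun v hv _ => ⟨0, zero_mem _, by simpa using hv⟩

theorem ex_neg (Q : FC X T) (hn : n + 1 < 0) (A B : Set T) : Q.Ex n A B := by
  refine fun v hv _ => ⟨0, zero_mem _, ?_⟩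
  rw [map_zero, sub_zero]
  exact mem_ZT.2 ⟨hv.1, fun x _ => Q.neg _ hn x hv.1⟩

theorem ex_iff_good :
    Q.Ex n A B ↔ ∀ v ∈ Q.ZT B (n + 1), X.d (n + 1) v ∈ Q.ZT A (n + 1 + 1) → Q.Good n v A B :=
  Iff.rfl

theorem Good.mono {v : X.V (n + 1)} {A' B' : Set T} (h : Q.Good n v A B) (hA : A' ⊆ A)
    (hB : B' ⊆ B) : Q.Good n v A' B' := by
  obtain ⟨w, h1, h2⟩ := h
  exact ⟨w, ZT_anti hB _ h1, ZT_anti hA _ h2⟩

theorem Ex.mid (hBA : B ⊆ A) (hCB : C ⊆ B) (h1 : Q.Ex n A B) (h2 : Q.Ex n B C) : Q.Ex n A C := by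
  exact Cx.exs_mid (ZT_anti hCB) (ZT_anti hBA) (Q.ZT_stab B) h1 h2

theorem Ex.left (hBA : B ⊆ A) (hCB : C ⊆ B) (h1 : Q.Ex (n + 1) A C) (h2 : Q.Ex n B C) :
    Q.Ex (n + 1) A B := by
  exact Cx.exs_left (ZT_anti hBA) (ZT_anti hCB) (Q.ZT_stab B) h1 h2

theorem Ex.right (hBA : B ⊆ A) (hCB : C ⊆ B) (h1 : Q.Ex n A C) (h2 : Q.Ex (n + 1) A B) :
    Q.Ex n B C := by
  exact Cx.exs_right (ZT_anti hBA) (ZT_anti hCB) (Q.ZT_stab C) (Q.ZT_stab B) h1 h2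

theorem Acyc.mid (hBA : B ⊆ A) (hCB : C ⊆ B) (h1 : Q.Acyc A B) (h2 : Q.Acyc B C) :
    Q.Acyc A C := by
  exact fun n => (h1 n).mid hBA hCB (h2 n)

theorem Acyc.left (hBA : B ⊆ A) (hCB : C ⊆ B) (h1 : Q.Acyc A C) (h2 : Q.Acyc B C) :
    Q.Acyc A B := by
  intro n
  obtain ⟨m, rfl⟩ : ∃ m, n = m + 1 := ⟨n - 1, by ring⟩
  exact (h1 (m + 1)).left hBA hCB (h2 m)

theorem Acyc.right (hBA : B ⊆ A) (hCB : C ⊆ B) (h1 : Q.Acyc A C) (h2 : Q.Acyc A B) :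
    Q.Acyc B C := by
  exact fun n => (h1 n).right hBA hCB (h2 (n + 1))

/-- Excision. -/
theorem ex_exc (Q : FC X T) (h : Sep A B) : Q.Ex n (A ∪ B) B ↔ Q.Ex n A (A ∩ B) := by
  rw [Ex, Ex, ZT_union, ZT_inter Q h]
  exact Cx.exs_exc (Q.ZT_stab A) (Q.ZT_stab B)

/-- Mayer-Vietoris gluing for a fixed element. -/
theorem mv_good {A₁ A₂ B₁ B₂ : Set T} {v : X.V (n + 1 + 1)} (h1 : B₁ ⊆ A₁) (h2 : B₂ ⊆ A₂)
    (sA : Sep A₁ A₂) (sB : Sep B₁ B₂) (h : Q.Ex n (A₁ ∩ A₂) (B₁ ∩ B₂))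
    (g1 : Q.Good (n + 1) v A₁ B₁) (g2 : Q.Good (n + 1) v A₂ B₂) :
    Q.Good (n + 1) v (A₁ ∪ A₂) (B₁ ∪ B₂) := by
  obtain ⟨w1, a1, b1⟩ := g1
  obtain ⟨w2, a2, b2⟩ := g2
  obtain ⟨s, hs, hr⟩ := h (w1 - w2)
    (sub_mem (ZT_anti inter_subset_left _ a1) (ZT_anti inter_subset_right _ a2)) (by
      have := sub_mem (ZT_anti (inter_subset_right (s := A₁)) _ b2)
        (ZT_anti (inter_subset_left (t := A₂)) _ b1)
      convert this using 1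
      rw [map_sub]; abel)
  rw [ZT_inter Q sB] at hs
  rw [ZT_inter Q sA] at hr
  obtain ⟨s1, c1, s2, c2, rfl⟩ := Submodule.mem_sup.1 hs
  obtain ⟨r1, d1, r2, d2, e⟩ := Submodule.mem_sup.1 hr
  have e' : w1 - X.d n s1 - r1 = w2 + X.d n s2 + r2 := by
    rw [map_add] at e
    rw [eq_sub_of_add_eq e]; abel
  refine ⟨w1 - X.d n s1 - r1, ?_, ?_⟩
  · rw [ZT_union]
    refine ⟨sub_mem (sub_mem a1 (Q.ZT_stab _ _ _ c1)) (ZT_anti h1 _ d1), ?_⟩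
    rw [e']
    exact add_mem (add_mem a2 (Q.ZT_stab _ _ _ c2)) (ZT_anti h2 _ d2)
  · rw [ZT_union]
    refine ⟨?_, ?_⟩
    · have e1 : v - X.d (n + 1) (w1 - X.d n s1 - r1) = v - X.d (n + 1) w1 + X.d (n + 1) r1 := by
        simp only [map_sub, X.dd]; abel
      rw [e1]
      exact add_mem b1 (Q.ZT_stab _ _ _ d1)
    · have e1 : v - X.d (n + 1) (w2 + X.d n s2 + r2) = v - X.d (n + 1) w2 - X.d (n + 1) r2 := by
        simp only [map_add, X.dd]; abel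
      rw [e', e1]
      exact sub_mem b2 (Q.ZT_stab _ _ _ d2)

theorem PC.mono (h : Q.PC A) (hBA : B ⊆ A) : Q.PC B := by
  exact fun γ h1 h2 h3 => h γ h1 h2 (h3.mono_right hBA)

theorem Deg.mono {b b' : ℤ} (h : Q.Deg A b) (hBA : B ⊆ A) (hb : b' ≤ b) : Q.Deg B b' := by
  exact fun x hx j hj => h x (hBA hx) j (hj.trans_le hb)

theorem DegLe.mono {b b' : ℤ} (h : Q.DegLe A b) (hBA : B ⊆ A) (hb : b ≤ b') : Q.DegLe B b' := by
  exact fun x hx j hj => h x (hBA hx) j (hb.trans_lt hj)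

end FC

end Pool.Agent.PWV
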