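import Pool.Agent.P.MP_65ad7c_ag.VBas1

open Set Filter Topology Metric

noncomputable section
namespace Pool.Agent.PWV

variable {X : Cx} {T T' : Type} [MetricSpace T] [MetricSpace T']

namespace FC
variable {Q : FC X T} {A B C : Set T} {n : ℤ}

theorem vb2_ext {S S' : X.Sub} (h : ∀ n v, v ∈ S n ↔ v ∈ S' n) : S = S' :=
  funext fun n => Submodule.ext (h n)

theorem vb2_ex_of_eq (h : Q.ZT A = Q.ZT B) : Q.Ex n A B := by
  rw [Ex, h]
  exact Q.ex_self n B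

theorem vb2_map_open (Q : FC X T) (p : C(T, T')) {A : Set T'} (hA : IsOpen A) :
    (Q.map p).ZT A = Q.ZT (p ⁻¹' A) := vb2_ext fun n v => by
  rw [mem_ZT, mem_ZT]
  refine and_congr_right fun _ => ⟨fun h x hx =>
    (eventually_comap.1 (h (p x) hx)).self_of_nhds x rfl, fun h y hy => eventually_comap.2 ?_⟩
  filter_upwards [hA.mem_nhds hy] with y' h1 x hx
  exact h x (by rw [mem_preimage, hx]; exact h1)

theorem gam_ZT (Q : FC X T) (hC : IsClosed C) (A : Set T) : (Q.gam C).ZT A = Q.ZT (A ∪ Cᶜ) := by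
  refine vb2_ext fun n v => ?_
  rw [mem_ZT, mem_ZT]
  show (v ∈ Q.ZT (closure C)ᶜ n ∧ ∀ x ∈ A, v ∈ Q.z n x) ↔ _
  rw [mem_ZT, hC.closure_eq]
  exact ⟨fun h => ⟨h.1.1, fun x hx => hx.elim (h.2 x) (h.1.2 x)⟩,
    fun h => ⟨⟨h.1, fun x hx => h.2 x (Or.inr hx)⟩, fun x hx => h.2 x (Or.inl hx)⟩⟩

theorem gam_ex (Q : FC X T) (hC : IsClosed C) :
    (Q.gam C).Ex n A B ↔ Q.Ex n (A ∪ Cᶜ) (B ∪ Cᶜ) := by
  rw [Ex, Ex, gam_ZT Q hC, gam_ZT Q hC]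

theorem gam_univ (Q : FC X T) : Q.gam univ = Q := by
  refine FC.ext ?_ rfl
  show Q.ZT (closure univ)ᶜ = Q.top
  rw [closure_univ, compl_univ, ZT_empty]

theorem gam_gam (Q : FC X T) {D : Set T} (hC : IsClosed C) (hD : IsClosed D) :
    (Q.gam C).gam D = Q.gam (C ∩ D) := by
  refine FC.ext ?_ rfl
  show (Q.gam C).ZT (closure D)ᶜ = Q.ZT (closure (C ∩ D))ᶜ
  rw [gam_ZT Q hC, hD.closure_eq, (hC.inter hD).closure_eq, compl_inter, union_comm]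

theorem mem_loc_z (Q : FC X T) {W : Set T} (hW : IsOpen W) {y : T} {v : X.V n} :
    v ∈ (Q.loc W).z n y ↔ ∀ᶠ x in 𝓝[W] y, v ∈ Q.z n x := by
  show (∀ᶠ x in 𝓝[interior W] y, v ∈ Q.z n x) ↔ _
  rw [hW.interior_eq]

theorem loc_ZT_sub (Q : FC X T) {W : Set T} (hW : IsOpen W) (h : A ⊆ W) :
    (Q.loc W).ZT A = Q.ZT A := by
  refine vb2_ext fun n v => ?_
  simp only [mem_ZT, mem_loc_z Q hW]
  exact and_congr_right fun _ => forall₂_congr fun x hx => ⟨fun h' => h'.self_of_nhdsWithin (h hx),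
    fun h' => nhdsWithin_le_nhds ((Q.opn n v).mem_nhds h')⟩

theorem loc_ZT_open (Q : FC X T) {W : Set T} (hW : IsOpen W) (hA : IsOpen A) :
    (Q.loc W).ZT A = Q.ZT (A ∩ W) := by
  refine vb2_ext fun n v => ?_
  simp only [mem_ZT, mem_loc_z Q hW]
  refine and_congr_right fun _ => ⟨fun h x hx => (h x hx.1).self_of_nhdsWithin hx.2,
    fun h x hx => ?_⟩
  filter_upwards [nhdsWithin_le_nhds (hA.mem_nhds hx), self_mem_nhdsWithin] with y h1 h2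
  exact h y ⟨h1, h2⟩

theorem mem_loc_ZT (Q : FC X T) {W : Set T} (hW : IsOpen W) {v : X.V n} :
    v ∈ (Q.loc W).ZT A n ↔ ∃ N, IsOpen N ∧ A ⊆ N ∧ v ∈ Q.ZT (N ∩ W) n := by
  constructor
  · intro h
    refine ⟨{y | v ∈ (Q.loc W).z n y}, (Q.loc W).opn n v, (mem_ZT.1 h).2, ?_⟩
    rw [← loc_ZT_open Q hW ((Q.loc W).opn n v)]
    exact mem_ZT.2 ⟨h.1, fun x hx => hx⟩
  · rintro ⟨N, hN, hAN, h⟩
    rw [← loc_ZT_open Q hW hN] at h
    exact ZT_anti hAN n h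

theorem loc_ZT_compl (Q : FC X T) (hC : IsClosed C) (A : Set T) :
    (Q.loc Cᶜ).ZT A = Q.ZT A ⊔ Q.ZT Cᶜ := by
  have hW := hC.isOpen_compl
  refine le_antisymm (fun n v hv => ?_) (sup_le (fun n v hv => ?_) fun n v hv => ?_)
  · obtain ⟨N, hN, hAN, h⟩ := (mem_loc_ZT Q hW).1 hv
    rw [Q.ZT_inter (sep_of_isOpen hN hW)] at h
    have hle : Q.ZT N ⊔ Q.ZT Cᶜ ≤ Q.ZT A ⊔ Q.ZT Cᶜ :=
      sup_le_sup_right (ZT_anti (Q := Q) hAN) _
    exact hle n h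
  · exact (mem_loc_ZT Q hW).2 ⟨{y | v ∈ Q.z n y}, Q.opn n v, (mem_ZT.1 hv).2,
      mem_ZT.2 ⟨hv.1, fun x hx => hx.1⟩⟩
  · exact (mem_loc_ZT Q hW).2 ⟨univ, isOpen_univ, subset_univ _, by rwa [univ_inter]⟩

theorem tri_mid (hC : IsClosed C) (hBA : B ⊆ A) (h1 : (Q.gam C).Ex n A B)
    (h3 : (Q.loc Cᶜ).Ex n A B) : Q.Ex n A B := by
  rw [Ex, gam_ZT Q hC, gam_ZT Q hC, ZT_union, ZT_union] at h1
  rw [Ex, loc_ZT_compl Q hC, loc_ZT_compl Q hC] at h3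
  exact Cx.tri_mid (ZT_anti hBA) (Q.ZT_stab _) (Q.ZT_stab _) (Q.ZT_stab _) h1 h3

theorem tri_left (hC : IsClosed C) (hBA : B ⊆ A) (h2 : Q.Ex (n + 1) A B)
    (h3 : (Q.loc Cᶜ).Ex n A B) : (Q.gam C).Ex (n + 1) A B := by
  rw [Ex, gam_ZT Q hC, gam_ZT Q hC, ZT_union, ZT_union]
  rw [Ex, loc_ZT_compl Q hC, loc_ZT_compl Q hC] at h3
  exact Cx.tri_left (ZT_anti hBA) (Q.ZT_stab _) (Q.ZT_stab _) (Q.ZT_stab _) h2 h3

theorem tri_right (hC : IsClosed C) (hBA : B ⊆ A) (h2 : Q.Ex n A B)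
    (h1 : (Q.gam C).Ex (n + 1) A B) : (Q.loc Cᶜ).Ex n A B := by
  rw [Ex, gam_ZT Q hC, gam_ZT Q hC, ZT_union, ZT_union] at h1
  rw [Ex, loc_ZT_compl Q hC, loc_ZT_compl Q hC]
  exact Cx.tri_right (ZT_anti hBA) (Q.ZT_stab _) (Q.ZT_stab _) (Q.ZT_stab _) h2 h1

theorem ex_gam_interior (Q : FC X T) (hC : IsClosed C) (hBA : B ⊆ A) (hA : A ⊆ interior C) :
    (Q.gam C).Ex n A B ↔ Q.Ex n A B := by
  have key : ∀ D ⊆ interior C, (Q.loc Cᶜ).ZT D = Q.top := fun D hD => vb2_ext fun n v => by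
    simp only [mem_ZT, mem_loc_z Q hC.isOpen_compl]
    refine ⟨fun h => h.1, fun h => ⟨h, fun x hx => ?_⟩⟩
    filter_upwards [nhdsWithin_le_nhds (mem_interior_iff_mem_nhds.1 (hD hx)),
      self_mem_nhdsWithin] with y h1 h2 using absurd h1 h2
  have h3 : ∀ m, (Q.loc Cᶜ).Ex m A B := fun m =>
    vb2_ex_of_eq ((key A hA).trans (key B (hBA.trans hA)).symm)
  refine ⟨fun h => tri_mid hC hBA h (h3 n), fun h => ?_⟩
  obtain ⟨m, rfl⟩ : ∃ m, n = m + 1 := ⟨n - 1, by ring⟩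
  exact tri_left hC hBA h (h3 m)

theorem supp_univ (Q : FC X T) : Q.Supp univ := by
  exact fun _ _ _ x hx => absurd (mem_univ x) hx

theorem supp_gam (Q : FC X T) (hC : IsClosed C) : (Q.gam C).Supp C := by
  exact fun n v hv x hx => (mem_ZT.1 hv).2 x (by rwa [hC.closure_eq])

theorem supp_res (Q : FC X T) (hC : IsClosed C) : (Q.res C).Supp C := by
  intro n v _ x hx
  show v ∈ ⨅ _ : x ∈ closure C, Q.z n x
  rw [Submodule.mem_iInf, hC.closure_eq]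
  exact fun h => absurd h hx

theorem Supp.gam (h : Q.Supp C) (D : Set T) : (Q.gam D).Supp C := by
  exact fun n v hv x hx => h n v hv.1 x hx

theorem Supp.mono (h : Q.Supp C) {D : Set T} (hD : C ⊆ D) : Q.Supp D := by
  exact fun n v hv x hx => h n v hv x fun hx' => hx (hD hx')

theorem Supp.ZT_eq (h : Q.Supp C) (A : Set T) : Q.ZT A = Q.ZT (A ∩ C) := by
  refine vb2_ext fun n v => ?_
  rw [mem_ZT, mem_ZT]
  refine and_congr_right fun hv => ⟨fun h' x hx => h' x hx.1, fun h' x hx => ?_⟩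
  by_cases hx' : x ∈ C
  · exact h' x ⟨hx, hx'⟩
  · exact h n v hv x hx'

theorem Supp.gam_eq (h : Q.Supp C) (hC : IsClosed C) : Q.gam C = Q := by
  refine FC.ext ?_ rfl
  show Q.ZT (closure C)ᶜ = Q.top
  rw [hC.closure_eq, h.ZT_eq, compl_inter_self, ZT_empty]

theorem Supp.ex_off (h : Q.Supp C) (hA : A ⊆ Cᶜ) (hBA : B ⊆ A) : Q.Ex n A B := by
  have key : ∀ D ⊆ Cᶜ, Q.ZT D = Q.ZT ∅ := fun D hD => by
    rw [h.ZT_eq, (subset_compl_iff_disjoint_right.1 hD).inter_eq]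
  exact vb2_ex_of_eq ((key A hA).trans (key B (hBA.trans hA)).symm)

theorem Supp.pc_off (h : Q.Supp C) : Q.PC Cᶜ := by
  intro γ _ _ hγ n
  exact h.ex_off hγ.image_subset (singleton_subset_iff.2 ⟨0, left_mem_Icc.2 zero_le_one, rfl⟩)

theorem Supp.deg_off (h : Q.Supp C) (b : ℤ) : Q.Deg Cᶜ b ∧ Q.DegLe Cᶜ b := by
  exact ⟨fun x hx _ _ => h.ex_off (singleton_subset_iff.2 hx) (empty_subset _),
    fun x hx _ _ => h.ex_off (singleton_subset_iff.2 hx) (empty_subset _)⟩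

theorem res_ZT (Q : FC X T) (hC : IsClosed C) (A : Set T) : (Q.res C).ZT A = Q.ZT (A ∩ C) := by
  refine vb2_ext fun n v => ?_
  rw [mem_ZT, mem_ZT]
  show (v ∈ Q.top n ∧ ∀ x ∈ A, v ∈ ⨅ _ : x ∈ closure C, Q.z n x) ↔ _
  simp only [Submodule.mem_iInf, hC.closure_eq]
  exact and_congr_right fun _ => ⟨fun h x hx => h x hx.1 hx.2, fun h x h1 h2 => h x ⟨h1, h2⟩⟩

theorem map_gam (Q : FC X T) (p : C(T, T')) {V : Set T'} (hV : IsClosed V) :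
    (Q.map p).gam V = (Q.gam (p ⁻¹' V)).map p := by
  refine FC.ext ?_ rfl
  show (Q.map p).ZT (closure V)ᶜ = Q.ZT (closure (p ⁻¹' V))ᶜ
  rw [hV.closure_eq, (hV.preimage p.continuous).closure_eq, vb2_map_open Q p hV.isOpen_compl,
    preimage_compl]

theorem map_ZT_open (Q : FC X T) (p : C(T, T')) {A : Set T'} (hA : IsOpen A) :
    (Q.map p).ZT A = Q.ZT (p ⁻¹' A) := by
  exact vb2_map_open Q p hA

theorem Supp.map_ZT (h : Q.Supp C) (hC : IsClosed C) (p : C(T, T'))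
    (hp : ∀ D ⊆ C, IsClosed D → IsClosed (p '' D)) (A : Set T') :
    (Q.map p).ZT A = Q.ZT (p ⁻¹' A ∩ C) := by
  refine vb2_ext fun n v => ?_
  rw [mem_ZT, mem_ZT]
  refine and_congr_right fun hv => ⟨fun h' x hx =>
    (eventually_comap.1 (h' (p x) hx.1)).self_of_nhds x rfl, fun h' y hy => eventually_comap.2 ?_⟩
  have hD := hp (C ∩ {x | v ∈ Q.z n x}ᶜ) inter_subset_left (hC.inter (Q.opn n v).isClosed_compl)
  have hy' : y ∈ (p '' (C ∩ {x | v ∈ Q.z n x}ᶜ))ᶜ := by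
    rintro ⟨x, hx, rfl⟩
    exact hx.2 (h' x ⟨hy, hx.1⟩)
  filter_upwards [hD.isOpen_compl.mem_nhds hy'] with y' h1 x hx
  by_contra hc
  by_cases hx' : x ∈ C
  · exact h1 ⟨x, ⟨hx', hc⟩, hx⟩
  · exact hc (h n v hv x hx')

theorem Supp.map_fst_ZT {Q : FC X (T × ℂ)} (h : Q.Supp (univ ×ˢ Db)) (A : Set T) :
    (Q.map (fstC T ℂ)).ZT A = Q.ZT (A ×ˢ Db) := by
  have : CompactSpace Db := isCompact_iff_compactSpace.1 (isCompact_closedBall 0 1)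
  rw [h.map_ZT (isClosed_univ.prod isClosed_closedBall) (fstC T ℂ) fun D hD hc => ?_]
  · congr 1
    ext x
    simp [fstC]
  · have h1 := isClosedMap_fst_of_compactSpace (X := T) (Y := Db) _
      (hc.preimage (continuous_fst.prodMk (continuous_subtype_val.comp continuous_snd)))
    convert h1 using 1
    ext y
    exact ⟨fun ⟨x, hx, e⟩ => ⟨(x.1, ⟨x.2, (hD hx).2⟩), hx, e⟩, fun ⟨x, hx, e⟩ => ⟨_, hx, e⟩⟩

end FC

end Pool.Agent.PWV
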