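import Mathlib

/-! Flabby complexes presented by global sections and germ kernels. -/

open Set Filter Topology

noncomputable section
namespace Pool.Agent.PWV

/-- A cochain complex of complex vector spaces. -/
structure Cx where
  V : ℤ → Type
  [acg : ∀ n, AddCommGroup (V n)]
  [mod : ∀ n, Module ℂ (V n)]
  d : ∀ n, V n →ₗ[ℂ] V (n + 1)
  dd : ∀ n v, d (n + 1) (d n v) = 0

attribute [instance] Cx.acg Cx.mod

/-- A family of subspaces. -/
abbrev Cx.Sub (X : Cx) := ∀ n, Submodule ℂ (X.V n)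

/-- `H^{n+1}(Y / A) = 0` for subcomplexes `A ≤ Y`. -/
def Cx.ExS (X : Cx) (n : ℤ) (A Y : X.Sub) : Prop :=
  ∀ v ∈ Y (n + 1), X.d (n + 1) v ∈ A (n + 1 + 1) → ∃ w ∈ Y n, v - X.d n w ∈ A (n + 1)

/-- The family is stable under the differential. -/
def Cx.Stab (X : Cx) (A : X.Sub) : Prop := ∀ n, ∀ v ∈ A n, X.d n v ∈ A (n + 1)

/-- A complex of flabby sheaves on `T` in degrees `≥ 0`: `top n` maps onto the sections over every
open set, and `z n x` is the space of elements with zero germ at `x`. -/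
@[ext]
structure FC (X : Cx) (T : Type) [TopologicalSpace T] where
  top : X.Sub
  z : ∀ n, T → Submodule ℂ (X.V n)
  d_top : X.Stab top
  d_z : ∀ x, X.Stab fun n => z n x
  opn : ∀ n v, IsOpen {x | v ∈ z n x}
  glue : ∀ n (ι : Type) (O : ι → Set T) (v : ι → X.V n), (∀ i, IsOpen (O i)) →
    (∀ i, v i ∈ top n) → (∀ i j, ∀ x ∈ O i ∩ O j, v i - v j ∈ z n x) →
    ∃ w ∈ top n, ∀ i, ∀ x ∈ O i, w - v i ∈ z n x
  neg : ∀ n < 0, ∀ x, top n ≤ z n x

variable {X : Cx} {T T' : Type} [TopologicalSpace T] [TopologicalSpace T']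

namespace FC

/-- Elements vanishing near `A`. -/
def Z (Q : FC X T) (A : Set T) : X.Sub := fun n => ⨅ x ∈ A, Q.z n x

theorem mem_Z {Q : FC X T} {A : Set T} {n : ℤ} {v : X.V n} :
    v ∈ Q.Z A n ↔ ∀ x ∈ A, v ∈ Q.z n x := by
  simp [Z, Submodule.mem_iInf]

theorem Z_stab (Q : FC X T) (A : Set T) : X.Stab (Q.Z A) := fun n v hv =>
  mem_Z.2 fun x hx => Q.d_z x n v (mem_Z.1 hv x hx)

/-- Sections vanishing near `A`. -/
def ZT (Q : FC X T) (A : Set T) : X.Sub := fun n => Q.top n ⊓ Q.Z A n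

theorem mem_ZT {Q : FC X T} {A : Set T} {n : ℤ} {v : X.V n} :
    v ∈ Q.ZT A n ↔ v ∈ Q.top n ∧ ∀ x ∈ A, v ∈ Q.z n x := by
  simp [ZT, mem_Z]

/-- `H^{n+1}(A, B; Q) = 0`, germs along `A` relative to germs along `B` (for `B ⊆ A`). -/
def Ex (Q : FC X T) (n : ℤ) (A B : Set T) : Prop := X.ExS n (Q.ZT A) (Q.ZT B)

/-- `H(A; Q) → H(B; Q)` is bijective. -/
def Acyc (Q : FC X T) (A B : Set T) : Prop := ∀ n, Q.Ex n A B

/-- `v` is the coboundary near `A` of a section vanishing near `B`. -/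
def Good (Q : FC X T) (n : ℤ) (v : X.V (n + 1)) (A B : Set T) : Prop :=
  ∃ w ∈ Q.ZT B n, v - X.d n w ∈ Q.ZT A (n + 1)

/-- Sections with support in (the closure of) `C`. -/
def gam (Q : FC X T) (C : Set T) : FC X T where
  top := Q.ZT (closure C)ᶜ
  z := Q.z
  d_top n v hv := ⟨Q.d_top n v hv.1, Q.Z_stab _ n v hv.2⟩
  d_z := Q.d_z
  opn := Q.opn
  glue n ι O v hO hv h := by
    obtain ⟨w, hw, hw'⟩ := Q.glue n (Option ι)
      (fun i => i.elim (closure C)ᶜ O) (fun i => i.elim 0 v)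
      (fun i => by cases i; exacts [isClosed_closure.isOpen_compl, hO _])
      (fun i => by cases i; exacts [zero_mem _, (hv _).1])
      (fun i j x hx => by
        cases i <;> cases j
        · simp
        · simpa using mem_Z.1 (hv _).2 x hx.1
        · simpa using mem_Z.1 (hv _).2 x hx.2
        · exact h _ _ x hx)
    exact ⟨w, mem_ZT.2 ⟨hw, fun x hx => by simpa using hw' none x hx⟩, fun i => hw' (some i)⟩
  neg n hn x := inf_le_left.trans (Q.neg n hn x)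

/-- The subspace of elements vanishing near the points of some member of a filter. -/
def ZF (Q : FC X T) (F : Filter T) (n : ℤ) : Submodule ℂ (X.V n) where
  carrier := {v | ∀ᶠ x in F, v ∈ Q.z n x}
  add_mem' ha hb := by
    filter_upwards [ha, hb] with x h1 h2 using add_mem h1 h2
  zero_mem' := Eventually.of_forall fun _ => zero_mem _
  smul_mem' c _ ha := by
    filter_upwards [ha] with x h using Submodule.smul_mem _ c h

theorem mem_ZF {Q : FC X T} {F : Filter T} {n : ℤ} {v : X.V n} :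
    v ∈ Q.ZF F n ↔ ∀ᶠ x in F, v ∈ Q.z n x := Iff.rfl

/-- `j_* j^*` for the (interior of the) set `W`. -/
def loc (Q : FC X T) (W : Set T) : FC X T where
  top := Q.top
  z n y := Q.ZF (𝓝[interior W] y) n
  d_top := Q.d_top
  d_z y n v hv := mem_ZF.2 ((mem_ZF.1 hv).mono fun x h => Q.d_z x n v h)
  opn n v := by
    rw [isOpen_iff_eventually]
    intro y hy
    exact eventually_nhds_nhdsWithin.2 hy
  glue n ι O v hO hv h := by
    obtain ⟨w, hw, hw'⟩ := Q.glue n ι (fun i => O i ∩ interior W) v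
      (fun i => (hO i).inter isOpen_interior) hv
      (fun i j x hx => (h i j x ⟨hx.1.1, hx.2.1⟩).self_of_nhdsWithin hx.1.2)
    refine ⟨w, hw, fun i x hx => ?_⟩
    filter_upwards [nhdsWithin_le_nhds ((hO i).mem_nhds hx), self_mem_nhdsWithin] with y h1 h2
    exact hw' i y ⟨h1, h2⟩
  neg n hn y v hv := mem_ZF.2 (Eventually.of_forall fun x => Q.neg n hn x hv)

/-- Direct image. -/
def map (Q : FC X T) (p : C(T, T')) : FC X T' where
  top := Q.top
  z n y := Q.ZF (comap p (𝓝 y)) n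
  d_top := Q.d_top
  d_z y n v hv := mem_ZF.2 ((mem_ZF.1 hv).mono fun x h => Q.d_z x n v h)
  opn n v := by
    rw [isOpen_iff_eventually]
    intro y hy
    have hy' : ∀ᶠ y' in 𝓝 y, ∀ x, p x = y' → v ∈ Q.z n x := eventually_comap.1 hy
    filter_upwards [hy'.eventually_nhds] with y' h using eventually_comap.2 h
  glue n ι O v hO hv h := by
    obtain ⟨w, hw, hw'⟩ := Q.glue n ι (fun i => p ⁻¹' O i) v
      (fun i => (hO i).preimage p.continuous) hv
      (fun i j x hx => (eventually_comap.1 (h i j (p x) hx)).self_of_nhds x rfl)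
    refine ⟨w, hw, fun i y hy => eventually_comap.2 ?_⟩
    filter_upwards [(hO i).mem_nhds hy] with y' h1 x hx
    exact hw' i x (by rw [mem_preimage, hx]; exact h1)
  neg n hn y v hv := mem_ZF.2 (Eventually.of_forall fun x => Q.neg n hn x hv)

/-- The cohomology sheaves are locally constant along `S`. -/
def LC (Q : FC X T) (S : Set T) : Prop :=
  ∀ y ∈ S, ∃ W ⊆ S, W ∈ 𝓝[S] y ∧ ∀ x ∈ W, Q.Acyc W {x}

/-- The cohomology sheaves are constant along every arc in `S`. -/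
def PC (Q : FC X T) (S : Set T) : Prop :=
  ∀ γ : ℝ → T, ContinuousOn γ (Icc 0 1) → InjOn γ (Icc 0 1) → MapsTo γ (Icc 0 1) S →
    Q.Acyc (γ '' Icc 0 1) {γ 0}

/-- The stalks at the points of `S` have cohomology in degrees `≥ b`. -/
def Deg (Q : FC X T) (S : Set T) (b : ℤ) : Prop := ∀ x ∈ S, ∀ j, j + 1 < b → Q.Ex j {x} ∅

/-- The stalks at the points of `S` have cohomology in degrees `≤ b`. -/
def DegLe (Q : FC X T) (S : Set T) (b : ℤ) : Prop := ∀ x ∈ S, ∀ j, b < j + 1 → Q.Ex j {x} ∅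

/-- `PC` in one degree. -/
def PCn (Q : FC X T) (n : ℤ) (S : Set T) : Prop :=
  ∀ γ : ℝ → T, ContinuousOn γ (Icc 0 1) → InjOn γ (Icc 0 1) → MapsTo γ (Icc 0 1) S →
    Q.Ex n (γ '' Icc 0 1) {γ 0}

/-- The cohomology sheaf in degree `n + 1` is locally constant along `S`. -/
def LCn (Q : FC X T) (S : Set T) (n : ℤ) : Prop :=
  ∀ x ∈ S, ∃ (W : Set T) (B : Submodule ℂ (X.V (n + 1))), IsOpen W ∧ x ∈ W ∧
    (∀ b ∈ B, b ∈ Q.top (n + 1) ∧ X.d (n + 1) b ∈ Q.Z W (n + 1 + 1)) ∧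
    ∀ y ∈ S ∩ W, (∀ b ∈ B, Q.Good n b {y} ∅ → b ∈ Q.Z W (n + 1)) ∧
      ∀ v ∈ Q.top (n + 1), X.d (n + 1) v ∈ Q.z (n + 1 + 1) y → ∃ b ∈ B, Q.Good n (v - b) {y} ∅

/-- Sections with compact support. -/
def Cc (Q : FC X T) : X.Sub := fun n => ⨆ K : {K : Set T // IsCompact K}, Q.ZT K.1ᶜ n

/-- `H_c^{n+1}(T; Q) = 0`. -/
def CS (Q : FC X T) (n : ℤ) : Prop := X.ExS n (Q.ZT univ) Q.Cc

/-- Sections with support in a member of an increasing family. -/
def Cf (Q : FC X T) (Φ : ℕ → Set T) : X.Sub := fun n => ⨆ k, Q.ZT (Φ k)ᶜ n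

/-- All sections vanish off `C`. -/
def Supp (Q : FC X T) (C : Set T) : Prop := ∀ n, ∀ v ∈ Q.top n, ∀ x ∉ C, v ∈ Q.z n x

/-- `Q₁` has the same relative vanishing as `Q₂` along `φ`. -/
def Tr (Q₁ : FC X T') (Q₂ : FC X T) (φ : T' → T) : Prop :=
  ∀ n A B, B ⊆ A → (Q₁.Ex n A B ↔ Q₂.Ex n (φ '' A) (φ '' B))

end FC

/-- The first projection. -/
def fstC (E F : Type) [TopologicalSpace E] [TopologicalSpace F] : C(E × F, E) :=
  ⟨Prod.fst, continuous_fst⟩

/-- The closed unit disc. -/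
def Db : Set ℂ := Metric.closedBall 0 1

/-- The two differences are separated. -/
def Sep (A B : Set T) : Prop := Disjoint (closure (A \ B)) (B \ A) ∧ Disjoint (A \ B) (closure (B \ A))

/-- `A` is closed in `B`. -/
def RelCl (A B : Set T) : Prop := A ⊆ B ∧ closure A ∩ B ⊆ A

section alg
variable {σ : Type}

/-- Zariski closed. -/
def ZC (V : Set (σ → ℂ)) : Prop :=
  ∃ S : Set (MvPolynomial σ ℂ), V = {x | ∀ f ∈ S, MvPolynomial.eval x f = 0}

/-- Zariski closure. -/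
def zcl (A : Set (σ → ℂ)) : Set (σ → ℂ) :=
  {x | ∀ f : MvPolynomial σ ℂ, (∀ y ∈ A, MvPolynomial.eval y f = 0) → MvPolynomial.eval x f = 0}

/-- Zero set of an ideal. -/
def ZI (p : Ideal (MvPolynomial σ ℂ)) : Set (σ → ℂ) := {x | ∀ f ∈ p, MvPolynomial.eval x f = 0}

/-- Roots of a polynomial depending on the parameter `x`. -/
def rt (G : Polynomial (MvPolynomial σ ℂ)) (x : σ → ℂ) : Set ℂ :=
  {t | (G.map (MvPolynomial.eval x)).eval t = 0}

/-- The rescaled root locus. -/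
def Rt (G : Polynomial (MvPolynomial σ ℂ)) (R : (σ → ℂ) → ℝ) : Set ((σ → ℂ) × ℂ) :=
  {p | (R p.1 : ℂ) * p.2 ∈ rt G p.1}

/-- Dimension `< k`: any `k` polynomials are algebraically dependent on `V`. -/
def Dim (V : Set (σ → ℂ)) (k : ℕ) : Prop :=
  ∀ f : Fin k → MvPolynomial σ ℂ, ∃ P : MvPolynomial (Fin k) ℂ, P ≠ 0 ∧
    ∀ x ∈ V, MvPolynomial.eval (fun i => MvPolynomial.eval x (f i)) P = 0

/-- `V` is near `x` a flat topological submanifold of complex dimension `e`. -/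
def Flat {n : ℕ} (V : Set (Fin n → ℂ)) (e : ℕ) (x : Fin n → ℂ) : Prop :=
  ∃ m, e + m = n ∧ ∃ φ : (Fin e → ℂ) × (Fin m → ℂ) → Fin n → ℂ, IsOpenEmbedding φ ∧ φ 0 = x ∧
    ∀ u, φ u ∈ V ↔ u.2 = 0

/-- The polynomial map with components `G`. -/
def pm {τ : Type} (G : τ → MvPolynomial σ ℂ) (x : σ → ℂ) : τ → ℂ := fun i => MvPolynomial.eval x (G i)

/-- The rational map with numerators `f` and denominator `h`. -/
def ratm {τ : Type} (f : τ → MvPolynomial σ ℂ) (h : MvPolynomial σ ℂ) (x : σ → ℂ) : τ → ℂ :=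
  fun i => MvPolynomial.eval x (f i) / MvPolynomial.eval x h

/-- The rational map on its domain. -/
def ratC {τ : Type} (f : τ → MvPolynomial σ ℂ) (h : MvPolynomial σ ℂ) :
    C({x : σ → ℂ // MvPolynomial.eval x h ≠ 0}, τ → ℂ) :=
  ⟨fun x => ratm f h x.1, continuous_pi fun i =>
    ((MvPolynomial.continuous_eval (f i)).comp continuous_subtype_val).div
      ((MvPolynomial.continuous_eval h).comp continuous_subtype_val) fun x => x.2⟩

/-- The polynomials `G` are local coordinates on `V` near `x`. -/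
def Chart {k : ℕ} (V : Set (σ → ℂ)) (G : Fin k → MvPolynomial σ ℂ) (x : σ → ℂ) : Prop :=
  ∃ (O : Set (Fin k → ℂ)) (N : Set (σ → ℂ)) (ψ : (Fin k → ℂ) → σ → ℂ),
    IsOpen O ∧ IsOpen N ∧ x ∈ N ∧ ContinuousOn ψ O ∧ V ∩ N = ψ '' O ∧ ∀ y ∈ O, pm G (ψ y) = y

variable [Finite σ]

/-- Costalks are constructible, in degrees `≥ a - e` along subvarieties of dimension `e`. -/
def GW (Q : FC X (σ → ℂ)) (a : ℤ) : Prop :=
  ∀ V (e : ℕ), ZC V → Dim V (e + 1) → ∃ V', ZC V' ∧ Dim V' e ∧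
    (Q.gam V).PC (V \ V') ∧ (Q.gam V).Deg (V \ V') (a - e)

/-- Stalks are constructible, in degrees `≤ a - e` along subvarieties of dimension `e`. -/
def GA (Q : FC X (σ → ℂ)) (a : ℤ) : Prop :=
  ∀ V (e : ℕ), ZC V → Dim V (e + 1) → ∃ V', ZC V' ∧ Dim V' e ∧
    Q.PC (V \ V') ∧ Q.DegLe (V \ V') (a - e)

end alg

/-- The point with coordinate `t` on the line through `(0, x)` in the direction `(1, v)`. -/
def shear {n : ℕ} (v x : Fin n → ℂ) (t : ℂ) : Fin (n + 1) → ℂ := Fin.cons t fun i => x i + t * v i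

/-- The projection in the direction `(1, v)`. -/
def prj {n : ℕ} (v : Fin n → ℂ) (x : Fin (n + 1) → ℂ) : Fin n → ℂ := fun i => x i.succ - x 0 * v i

/-- Shear after rescaling. -/
def sc {n : ℕ} (v : Fin n → ℂ) (R : (Fin n → ℂ) → ℝ) (p : (Fin n → ℂ) × ℂ) : Fin (n + 1) → ℂ :=
  shear v p.1 (R p.1 * p.2)

/-- The complement of a projective neighbourhood of a hyperplane. -/
def Far {N : ℕ} (c : Fin (N + 1) → ℂ) (ε : ℝ) : Set (Fin N → ℂ) :=
  {x | ε * ‖(Fin.cons 1 x : Fin (N + 1) → ℂ)‖ ≤ ‖c ⬝ᵥ (Fin.cons 1 x : Fin (N + 1) → ℂ)‖}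

end Pool.Agent.PWV
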