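import Pool.Agent.P.MP_65ad7c_ag.VPrime

open Set Filter Topology Metric

noncomputable section
namespace Pool.Agent.PWV

open MvPolynomial

variable {n : ℕ}

theorem vint_eval {σ τ : Type} (x : σ → ℂ) (f : τ → MvPolynomial σ ℂ) (P : MvPolynomial τ ℂ) :
    eval x (aeval f P) = eval (fun i => eval x (f i)) P := by
  induction P using MvPolynomial.induction_on with
  | C a => simp
  | add P Q hP hQ => rw [map_add, map_add, map_add, hP, hQ]
  | mul_X P i hP => rw [map_mul, map_mul, map_mul, hP, aeval_X, eval_X]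

theorem vint_mk {σ τ : Type} (p : Ideal (MvPolynomial σ ℂ)) (f : τ → MvPolynomial σ ℂ)
    (P : MvPolynomial τ ℂ) :
    aeval (fun i => Ideal.Quotient.mk p (f i)) P = Ideal.Quotient.mk p (aeval f P) :=
  (comp_aeval_apply f (Ideal.Quotient.mkₐ ℂ p) P).symm

theorem vint_trdeg {S T : Type} [CommRing S] [CommRing T] [IsDomain S] [IsDomain T] [Algebra ℂ S]
    [Algebra ℂ T] (φ : S →ₐ[ℂ] T) (hφ : Function.Injective φ) (t : T) (g : Polynomial S)
    (hg : g ≠ 0) (ht : g.eval₂ (φ : S →+* T) t = 0)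
    (hgen : ∀ Z : T → Prop, (∀ s, Z (φ s)) → Z t → (∀ a b, Z a → Z b → Z (a + b)) →
      (∀ a b, Z a → Z b → Z (a * b)) → ∀ a, Z a) :
    Algebra.trdeg ℂ T = Algebra.trdeg ℂ S := by
  let : Algebra S T := (φ : S →+* T).toAlgebra
  have : IsScalarTower ℂ S T := IsScalarTower.of_algebraMap_eq fun a => (φ.commutes a).symm
  have : FaithfulSMul S T := (faithfulSMul_iff_algebraMap_injective S T).2 hφ
  have : Algebra.IsAlgebraic S T := ⟨hgen (IsAlgebraic S) (fun s => isAlgebraic_algebraMap s)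
    ⟨g, hg, ht⟩ (fun _ _ ha hb => ha.add hb) fun _ _ ha hb => ha.mul hb⟩
  rw [← trdeg_add_eq ℂ S (A := T), trdeg_eq_zero (R := S) (A := T), add_zero]

theorem dim_iff_trdeg {σ : Type} [Finite σ] {p : Ideal (MvPolynomial σ ℂ)} (hp : p.IsPrime) (k : ℕ) :
    Dim (ZI p) k ↔ Algebra.trdeg ℂ (MvPolynomial σ ℂ ⧸ p) < k := by
  have := hp
  constructor
  · intro h
    by_contra hk
    obtain ⟨s, hs⟩ := exists_isTranscendenceBasis ℂ (MvPolynomial σ ℂ ⧸ p)
    have h1 : Cardinal.mk (Fin k) ≤ Cardinal.mk s := by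
      rw [hs.cardinalMk_eq_trdeg, Cardinal.mk_fin]
      exact not_lt.1 hk
    obtain ⟨e⟩ := (Cardinal.le_def _ _).1 h1
    have h2 := hs.1.comp e e.injective
    choose f hf using fun i : Fin k => Ideal.Quotient.mk_surjective (I := p) (e i).1
    obtain ⟨P, hP, h3⟩ := h f
    refine hP (algebraicIndependent_iff.1 h2 P ?_)
    have h4 : (Subtype.val ∘ e : Fin k → MvPolynomial σ ℂ ⧸ p) =
        fun i => Ideal.Quotient.mk p (f i) := funext fun i => (hf i).symm
    rw [h4, vint_mk, Ideal.Quotient.eq_zero_iff_mem]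
    exact null hp fun x hx => (vint_eval x f P).trans (h3 x hx)
  · intro h f
    have h1 : ¬ AlgebraicIndependent ℂ fun i => Ideal.Quotient.mk p (f i) := fun h1 => by
      have h2 := h1.cardinalMk_le_trdeg
      rw [Cardinal.mk_fin] at h2
      exact absurd h (not_lt.2 h2)
    rw [algebraicIndependent_iff] at h1
    push Not at h1
    obtain ⟨P, h2, h3⟩ := h1
    rw [vint_mk, Ideal.Quotient.eq_zero_iff_mem] at h2
    exact ⟨P, h3, fun x hx => (vint_eval x f P).symm.trans (hx _ h2)⟩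

theorem vint_rename (x : Fin (n + 1) → ℂ) (f : MvPolynomial (Fin n) ℂ) :
    eval x (rename Fin.succ f) = eval (Fin.tail x) f := eval_rename _ _ _

theorem vint_eval₂ (x : Fin (n + 1) → ℂ) (G : Polynomial (MvPolynomial (Fin n) ℂ)) :
    eval x (G.eval₂ (rename Fin.succ : MvPolynomial (Fin n) ℂ →ₐ[ℂ] MvPolynomial (Fin (n + 1)) ℂ)
      (X 0)) = (G.map (eval (Fin.tail x))).eval (x 0) := by
  rw [Polynomial.hom_eval₂, Polynomial.eval_map, eval_X]
  congr 1
  exact RingHom.ext fun f => vint_rename x f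

theorem vint_prime (G : Polynomial (MvPolynomial (Fin n) ℂ))
    {q : Ideal (MvPolynomial (Fin (n + 1)) ℂ)} (hq : q.IsPrime)
    (h1 : rename Fin.succ G.leadingCoeff ∉ q)
    (h2 : G.eval₂ (rename Fin.succ : MvPolynomial (Fin n) ℂ →ₐ[ℂ] MvPolynomial (Fin (n + 1)) ℂ)
      (X 0) ∈ q) {k : ℕ}
    (h : Dim (ZI (q.comap
      (rename Fin.succ : MvPolynomial (Fin n) ℂ →ₐ[ℂ] MvPolynomial (Fin (n + 1)) ℂ))) k) :
    Dim (ZI q) k := by
  have := hq
  set ρ : MvPolynomial (Fin n) ℂ →ₐ[ℂ] MvPolynomial (Fin (n + 1)) ℂ := rename Fin.succ with hρ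
  have hp : (q.comap ρ).IsPrime := Ideal.comap_isPrime ρ q
  rw [dim_iff_trdeg hp] at h
  rw [dim_iff_trdeg hq]
  have hφ : ∀ f, Ideal.quotientMapₐ q ρ le_rfl (Ideal.Quotient.mk (q.comap ρ) f) =
      Ideal.Quotient.mk q (ρ f) := fun f => rfl
  rw [vint_trdeg (Ideal.quotientMapₐ q ρ le_rfl) ?_ (Ideal.Quotient.mk q (X 0))
    (G.map (Ideal.Quotient.mk (q.comap ρ))) ?_ ?_ ?_]
  · exact h
  · refine (injective_iff_map_eq_zero _).2 fun a ha => ?_
    obtain ⟨f, rfl⟩ := Ideal.Quotient.mk_surjective a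
    rw [hφ, Ideal.Quotient.eq_zero_iff_mem] at ha
    exact Ideal.Quotient.eq_zero_iff_mem.2 ha
  · intro h0
    have h3 := congrArg (fun P => Polynomial.coeff P G.natDegree) h0
    simp only [Polynomial.coeff_map, Polynomial.coeff_zero] at h3
    have h4 : G.leadingCoeff ∈ q.comap ρ := Ideal.Quotient.eq_zero_iff_mem.1 h3
    exact h1 h4
  · rw [Polynomial.eval₂_map, ← Ideal.Quotient.eq_zero_iff_mem.2 h2, Polynomial.hom_eval₂]
    rfl
  · intro Z z1 z2 z3 z4 a
    obtain ⟨f, rfl⟩ := Ideal.Quotient.mk_surjective a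
    induction f using MvPolynomial.induction_on with
    | C c =>
      have h3 := z1 (Ideal.Quotient.mk _ (C c))
      rwa [hφ, hρ, rename_C] at h3
    | add P Q hP hQ =>
      rw [map_add]
      exact z3 _ _ hP hQ
    | mul_X P i hP =>
      rw [map_mul]
      refine z4 _ _ hP (Fin.cases z2 (fun j => ?_) i)
      have h3 := z1 (Ideal.Quotient.mk _ (X j))
      rwa [hφ, hρ, rename_X] at h3

/-- The root locus of a polynomial over the part of `V` where its leading coefficient is not zero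
has the dimension of `V`. -/
theorem dim_roots' (G : Polynomial (MvPolynomial (Fin n) ℂ)) {V : Set (Fin n → ℂ)} {k : ℕ}
    (h : Dim V k) (hG : ∀ x ∈ V, eval x G.leadingCoeff ≠ 0) :
    Dim {x : Fin (n + 1) → ℂ | Fin.tail x ∈ V ∧ x 0 ∈ rt G (Fin.tail x)} k := by
  obtain ⟨s, hs, hp, -, he⟩ :=
    (zc_zcl {x : Fin (n + 1) → ℂ | Fin.tail x ∈ V ∧ x 0 ∈ rt G (Fin.tail x)}).exists_primes
  have hsub : ∀ q ∈ s, ∀ f : MvPolynomial (Fin (n + 1)) ℂ,
      (∀ x : Fin (n + 1) → ℂ, Fin.tail x ∈ V → x 0 ∈ rt G (Fin.tail x) → eval x f = 0) → f ∈ q := by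
    intro q hq f hf
    refine null (hp q hq) fun x hx => ?_
    have h1 : x ∈ zcl {x : Fin (n + 1) → ℂ | Fin.tail x ∈ V ∧ x 0 ∈ rt G (Fin.tail x)} := by
      rw [he]
      exact mem_biUnion hq hx
    exact h1 f fun y hy => hf y hy.1 hy.2
  refine (dim_biUnion (s := {q ∈ s | rename Fin.succ G.leadingCoeff ∉ q})
    (hs.subset fun q hq => hq.1) (f := fun q => ZI q) fun q hq => ?_).mono fun x hx => ?_
  · refine vint_prime G (hp q hq.1) hq.2 (hsub q hq.1 _ fun x _ hx => ?_)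
      (h.zcl.mono fun y hy f hf => hy f (hsub q hq.1 _ fun x hx _ => ?_))
    · rw [vint_eval₂]
      exact hx
    · exact (vint_rename x f).trans (hf _ hx)
  · have h1 := subset_zcl _ hx
    rw [he] at h1
    obtain ⟨q, hq, h2⟩ := mem_iUnion₂.1 h1
    exact mem_biUnion (x := q) ⟨hq, fun h3 => hG _ hx.1 ((vint_rename x _).symm.trans (h2 _ h3))⟩ h2

theorem dim_roots {G : Polynomial (MvPolynomial (Fin n) ℂ)} (hG : G.Monic) {V : Set (Fin n → ℂ)}
    {k : ℕ} (h : Dim V k) :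
    Dim {x : Fin (n + 1) → ℂ | Fin.tail x ∈ V ∧ x 0 ∈ rt G (Fin.tail x)} k :=
  dim_roots' G h fun x _ => by simp [hG.leadingCoeff]

end Pool.Agent.PWV
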