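import Pool.Agent.P.MP_65ad7c_ag.VBas2

open Set Filter Topology Metric

noncomputable section
namespace Pool.Agent.PWV

variable {X : Cx} {T T' : Type} [MetricSpace T] [MetricSpace T']

namespace FC
variable {Q : FC X T} {Q' : FC X T'} {φ : T' → T}

theorem comap_ZT (Q : FC X T) (hφ : IsInducing φ) (A : Set T') :
    (Q.comap φ hφ).ZT A = Q.ZT (φ '' A) := by
  funext n
  ext v
  rw [mem_ZT, mem_ZT, forall_mem_image]
  rfl

theorem tr_comap (Q : FC X T) (hφ : IsInducing φ) : Tr (Q.comap φ hφ) Q φ := by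
  intro n A B _
  rw [Ex, Ex, comap_ZT, comap_ZT]

theorem Supp.comap {Y : Set T} (h : Q.Supp Y) (hφ : IsInducing φ) :
    (Q.comap φ hφ).Supp (φ ⁻¹' Y) := by
  exact fun n v hv x hx => h n v hv (φ x) hx

theorem vtr_loc (Q : FC X T) {O C A B : Set T} (hO : IsOpen O) (hC : IsClosed C) (hA : A ⊆ O)
    (hBA : B ⊆ A) (n : ℤ) :
    Q.Ex n (A ∪ Cᶜ) (B ∪ Cᶜ) ↔ Q.Ex n (A ∪ (O \ C)) (B ∪ (O \ C)) := by
  have h1 : (A ∪ (O \ C)) \ (B ∪ Cᶜ) ⊆ O ∩ C := fun x hx =>
    ⟨hx.1.elim (fun h => hA h) fun h => h.1, not_not.1 fun h => hx.2 (Or.inr h)⟩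
  have h2 : (B ∪ Cᶜ) \ (A ∪ (O \ C)) ⊆ Oᶜ ∩ Cᶜ := fun x hx => by
    have h3 : x ∈ Cᶜ := hx.1.elim (fun h => (hx.2 (Or.inl (hBA h))).elim) id
    exact ⟨fun h => hx.2 (Or.inr ⟨h, h3⟩), h3⟩
  have hs : Sep (A ∪ (O \ C)) (B ∪ Cᶜ) :=
    ⟨disjoint_left.2 fun x hx hx' =>
      (h2 hx').2 (closure_minimal (h1.trans inter_subset_right) hC hx),
     disjoint_left.2 fun x hx hx' =>
      closure_minimal (h2.trans inter_subset_left) hO.isClosed_compl hx' (h1 hx).1⟩
  have e1 : (A ∪ (O \ C)) ∪ (B ∪ Cᶜ) = A ∪ Cᶜ := by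
    ext x
    have := @hBA x
    simp only [mem_union, Set.mem_sdiff, mem_compl_iff]
    tauto
  have e2 : (A ∪ (O \ C)) ∩ (B ∪ Cᶜ) = B ∪ (O \ C) := by
    ext x
    have := @hBA x
    have := @hA x
    simp only [mem_union, mem_inter_iff, Set.mem_sdiff, mem_compl_iff]
    tauto
  have := Q.ex_exc (n := n) hs
  rwa [e1, e2] at this

theorem vtr_map_z (Q' : FC X T') (p : C(T', T)) (hp : IsInducing p) {n : ℤ} {v : X.V n} (x : T') :
    v ∈ (Q'.map p).z n (p x) ↔ v ∈ Q'.z n x := by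
  show (∀ᶠ y in Filter.comap p (𝓝 (p x)), v ∈ Q'.z n y) ↔ _
  rw [← hp.nhds_eq_comap]
  exact ⟨fun h => h.self_of_nhds, fun h => (Q'.opn n v).mem_nhds h⟩

/-- Local cohomology can be computed on a subspace that is open in the support. -/
theorem tr_gam_comap {Y O C : Set T} (h : Q.Supp Y) (hφ : IsInducing φ) (hO : IsOpen O)
    (hr : range φ = Y ∩ O) (hC : IsClosed C) :
    Tr ((Q.comap φ hφ).gam (φ ⁻¹' C)) (Q.gam C) φ := by
  intro n A B hBA
  have hs : ∀ S : Set T', φ '' S ⊆ Y ∩ O := fun S => hr ▸ image_subset_range φ S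
  have key : ∀ S : Set T', (Q.comap φ hφ).ZT (S ∪ (φ ⁻¹' C)ᶜ) = Q.ZT (φ '' S ∪ (O \ C)) := by
    intro S
    rw [comap_ZT, h.ZT_eq (φ '' S ∪ (O \ C)), image_union, ← preimage_compl,
      image_preimage_eq_inter_range, hr]
    congr 1
    ext x
    have := @hs S x
    simp only [mem_union, mem_inter_iff, Set.mem_sdiff, mem_compl_iff] at this ⊢
    tauto
  rw [gam_ex _ (hC.preimage hφ.continuous), gam_ex _ hC,
    Q.vtr_loc hO hC ((hs A).trans inter_subset_right) (image_mono hBA), Ex, Ex, key, key]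

/-- Local cohomology depends only on the germ of the support. -/
theorem ex_gam_congr (Q : FC X T) {U C D A B : Set T} (hU : IsOpen U) (hC : IsClosed C)
    (hD : IsClosed D) (h : C ∩ U = D ∩ U) (hA : A ⊆ U) (hBA : B ⊆ A) (n : ℤ) :
    (Q.gam C).Ex n A B ↔ (Q.gam D).Ex n A B := by
  have e : U \ C = U \ D := by
    ext x
    have := Set.ext_iff.1 h x
    simp only [mem_inter_iff, Set.mem_sdiff] at this ⊢
    tauto
  rw [gam_ex _ hC, gam_ex _ hD, Q.vtr_loc hU hC hA hBA, Q.vtr_loc hU hD hA hBA, e]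

/-- Direct image along an embedding that is closed into the open set `O`. -/
theorem map_ZT_emb (Q' : FC X T') (p : C(T', T)) (hp : IsInducing p) {O A : Set T}
    (hO : closure (range p) ∩ O ⊆ range p) (hA : A ⊆ O) :
    (Q'.map p).ZT A = Q'.ZT (p ⁻¹' A) := by
  funext n
  ext v
  rw [mem_ZT, mem_ZT]
  refine and_congr Iff.rfl ⟨fun h x hx => (vtr_map_z Q' p hp x).1 (h _ hx), fun h y hy => ?_⟩
  by_cases hr : y ∈ range p
  · obtain ⟨x, rfl⟩ := hr
    exact (vtr_map_z Q' p hp x).2 (h x hy)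
  · have h1 : y ∈ (closure (range p))ᶜ := fun hc => hr (hO ⟨hc, hA hy⟩)
    refine eventually_comap.2 ?_
    filter_upwards [isClosed_closure.isOpen_compl.mem_nhds h1] with y' hy' x hx
    exact (hy' (subset_closure ⟨x, hx⟩)).elim

theorem tr_map_emb (Q' : FC X T') (p : C(T', T)) (hp : IsEmbedding p) : Tr Q' (Q'.map p) p := by
  have key : ∀ S : Set T', (Q'.map p).ZT (p '' S) = Q'.ZT S := by
    intro S
    funext n
    ext v
    rw [mem_ZT, mem_ZT, forall_mem_image]
    exact and_congr Iff.rfl (forall₂_congr fun x _ => vtr_map_z Q' p hp.isInducing x)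
  intro n A B _
  rw [Ex, Ex, key, key]

theorem Tr.acyc (h : Tr Q' Q φ) {A B : Set T'} (hBA : B ⊆ A) :
    Q'.Acyc A B ↔ Q.Acyc (φ '' A) (φ '' B) := by
  exact forall_congr' fun n => h n A B hBA

theorem Tr.pc (h : Tr Q' Q φ) (hφ : IsEmbedding φ) (S : Set T') : Q'.PC S ↔ Q.PC (φ '' S) := by
  have h0 : (0 : ℝ) ∈ Icc (0 : ℝ) 1 := ⟨le_rfl, zero_le_one⟩
  have sub : ∀ γ : ℝ → T', {γ 0} ⊆ γ '' Icc 0 1 := fun γ => singleton_subset_iff.2 ⟨0, h0, rfl⟩
  constructor
  · intro hS γ hc hi hm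
    obtain ⟨x0, -, -⟩ := hm h0
    have : Nonempty T' := ⟨x0⟩
    have e : ∀ t ∈ Icc (0 : ℝ) 1, Function.invFun φ (γ t) ∈ S ∧
        φ (Function.invFun φ (γ t)) = γ t := fun t ht => by
      obtain ⟨x, hx, ex⟩ := hm ht
      rw [← ex, Function.leftInverse_invFun hφ.injective x]
      exact ⟨hx, rfl⟩
    have h1 := hS (fun t => Function.invFun φ (γ t))
      (hφ.isInducing.continuousOn_iff.2 (hc.congr fun t ht => (e t ht).2))
      (fun s hs t ht est => hi hs ht ((e s hs).2.symm.trans ((congrArg φ est).trans (e t ht).2)))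
      fun t ht => (e t ht).1
    have h2 := (h.acyc (sub _)).1 h1
    rwa [image_singleton, (e 0 h0).2, image_image, image_congr fun t ht => (e t ht).2] at h2
  · intro hS γ hc hi hm
    have h1 := hS (φ ∘ γ) (hφ.continuous.comp_continuousOn hc) (hφ.injective.comp_injOn hi)
      fun t ht => mem_image_of_mem φ (hm ht)
    refine (h.acyc (sub γ)).2 ?_
    rwa [image_singleton, ← image_comp]

theorem Tr.deg (h : Tr Q' Q φ) (S : Set T') (b : ℤ) : Q'.Deg S b ↔ Q.Deg (φ '' S) b := by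
  rw [Deg, Deg, forall_mem_image]
  refine forall₂_congr fun x _ => forall₂_congr fun j _ => ?_
  rw [h j {x} ∅ (empty_subset _), image_singleton, image_empty]

theorem Tr.degLe (h : Tr Q' Q φ) (S : Set T') (b : ℤ) : Q'.DegLe S b ↔ Q.DegLe (φ '' S) b := by
  rw [DegLe, DegLe, forall_mem_image]
  refine forall₂_congr fun x _ => forall₂_congr fun j _ => ?_
  rw [h j {x} ∅ (empty_subset _), image_singleton, image_empty]

/-- Direct images along the first projection of complexes supported in the disc bundle. -/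
theorem Tr.map_fst {R : FC X (T × ℂ)} {R' : FC X (T' × ℂ)} (hR : R.Supp (univ ×ˢ Db))
    (hR' : R'.Supp (univ ×ˢ Db)) (h : Tr R' R (Prod.map φ id)) :
    Tr (R'.map (fstC T' ℂ)) (R.map (fstC T ℂ)) φ := by
  intro n A B hBA
  have h1 := h n (A ×ˢ Db) (B ×ˢ Db) (prod_mono_left hBA)
  rw [prodMap_image_prod, prodMap_image_prod, image_id] at h1
  rw [Ex, Ex, hR.map_fst_ZT, hR.map_fst_ZT, hR'.map_fst_ZT, hR'.map_fst_ZT]
  exact h1

end FC

/-- An open embedding of a product onto a small neighbourhood that respects the zero section. -/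
theorem exists_chart {E F : Type} [NormedAddCommGroup E] [NormedSpace ℝ E] [NormedAddCommGroup F]
    [NormedSpace ℝ F] (x : E) {N : Set (E × F)} (hN : N ∈ 𝓝 (x, (0 : F))) :
    ∃ χ : E × F → E × F, IsOpenEmbedding χ ∧ χ 0 = (x, 0) ∧ range χ ⊆ N ∧
      ∀ u, (χ u).2 = 0 ↔ u.2 = 0 := by
  obtain ⟨ε, hε, hb⟩ := Metric.mem_nhds_iff.1 hN
  have o1 := (OpenPartialHomeomorph.univBall (E := E) x ε).isOpenEmbedding
    (OpenPartialHomeomorph.univBall_source x ε)
  have o2 := (OpenPartialHomeomorph.univBall (E := F) (0 : F) ε).isOpenEmbedding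
    (OpenPartialHomeomorph.univBall_source (0 : F) ε)
  refine ⟨Prod.map (OpenPartialHomeomorph.univBall (E := E) x ε)
    (OpenPartialHomeomorph.univBall (E := F) (0 : F) ε), o1.prodMap o2, ?_, ?_, fun u => ?_⟩
  · exact Prod.ext (OpenPartialHomeomorph.univBall_apply_zero x ε)
      (OpenPartialHomeomorph.univBall_apply_zero (0 : F) ε)
  · rintro _ ⟨u, rfl⟩
    refine hb ?_
    rw [← ball_prod_same]
    constructor
    · rw [← OpenPartialHomeomorph.univBall_target (E := E) x hε]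
      exact OpenPartialHomeomorph.map_source _
        (by rw [OpenPartialHomeomorph.univBall_source]; trivial)
    · rw [← OpenPartialHomeomorph.univBall_target (E := F) (0 : F) hε]
      exact OpenPartialHomeomorph.map_source _
        (by rw [OpenPartialHomeomorph.univBall_source]; trivial)
  · have := o2.injective.eq_iff (a := u.2) (b := 0)
    rw [OpenPartialHomeomorph.univBall_apply_zero] at this
    exact this

end Pool.Agent.PWV
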