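import Pool.Agent.P.MP_65ad7c_ag.HDefs

/-! Intersection cohomology of an affine variety and its weight filtration, defined through a
linear section and logarithmic forms on a normal crossing model. -/

open Set CategoryTheory TopologicalSpace Opposite
open scoped ContDiff
open Pool.Agent.HT (Form pull Amb proj IsChart)

noncomputable section
namespace Pool.Agent.PWD

section sheaves
variable {Y : Type} [TopologicalSpace Y]

/-- Complexes of sheaves of complex vector spaces. -/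
abbrev Cx (Y : Type) [TopologicalSpace Y] :=
  CochainComplex (Sheaf (Opens.grothendieckTopology Y) (ModuleCat.{0} ℂ)) ℕ

/-- Sections of degree `n` over `W`. -/
abbrev Sec (I : Cx Y) (n : ℕ) (W : Opens Y) : Type := (I.X n).obj.obj (op W)

variable {I : Cx Y} {n : ℕ} {W W' : Opens Y}

/-- Restriction. -/
def rs (h : W' ≤ W) : Sec I n W →ₗ[ℂ] Sec I n W' := ((I.X n).obj.map (homOfLE h).op).hom

/-- The differential (zero unless `n = k + 1`). -/
def dd (k n : ℕ) : Sec I k W →ₗ[ℂ] Sec I n W := ((I.d k n).hom.app (op W)).hom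

/-- `s` has support in `C`. -/
def Supp (C : Set Y) (s : Sec I n W) : Prop :=
  ∀ y ∈ W, y ∉ C → ∃ (W' : Opens Y) (h : W' ≤ W), y ∈ W' ∧ rs h s = 0

/-- `s` is a cocycle with support in `C`. -/
def Coc (C : Set Y) (s : Sec I n W) : Prop := Supp C s ∧ dd n (n + 1) s = 0

/-- Near `y`, `s` is the coboundary of a section with support in `C`. -/
def Cob (C : Set Y) (y : Y) (s : Sec I n W) : Prop :=
  ∃ (W' : Opens Y) (h : W' ≤ W) (k : ℕ) (t : Sec I k W'), y ∈ W' ∧ Supp C t ∧ dd k n t = rs h s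

/-- The cohomology sheaf `H^n` of the sections with support in `C` is locally constant on `S`. -/
def LC (I : Cx Y) (C S : Set Y) (n : ℕ) : Prop :=
  ∀ x ∈ S, ∃ (W : Opens Y) (B : Submodule ℂ (Sec I n W)), x ∈ W ∧ (∀ b ∈ B, Coc C b) ∧
    ∀ y ∈ S, y ∈ W → (∀ b ∈ B, Cob C y b → b = 0) ∧
      ∀ (W' : Opens Y) (h : W' ≤ W) (s : Sec I n W'), y ∈ W' → Coc C s →
        ∃ b ∈ B, Cob C y (s - rs h b)

/-- The Goresky-MacPherson axioms for the strata `U (c + 1) \ U c` of complex codimension `c`. -/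
structure IsIC (U : ℕ → Opens Y) (I : Cx Y) (one : Sec I 0 (U 1)) : Prop where
  inj : ∀ n, Injective (I.X n)
  closed : dd 0 1 one = 0
  ne : ∀ y ∈ U 1, ¬Cob univ y one
  norm : ∀ (W : Opens Y) (h : W ≤ U 1) (s : Sec I 0 W), Coc univ s → ∀ y ∈ W,
    ∃ c : ℂ, Cob univ y (s - c • rs h one)
  supp : ∀ c n (W : Opens Y) (s : Sec I n W), 0 < n → c ≤ n → Coc univ s →
    ∀ y ∈ W, y ∈ U (c + 1) → Cob univ y s
  cosupp : ∀ c n (W : Opens Y) (s : Sec I n W), 0 < c → n ≤ c → Coc (U c)ᶜ s →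
    ∀ y ∈ W, y ∈ U (c + 1) → Cob (U c)ᶜ y s
  lc : ∀ c n, LC I univ (U (c + 1) \ U c) n ∧ LC I (U c)ᶜ (U (c + 1) \ U c) n

end sheaves

section strata
variable {R : Type} [CommRing R] [Algebra ℂ R] {Y : Set (R → ℂ)}

/-- `dim T < n`: any `n` regular functions are algebraically dependent on `T`. -/
def DimLT (T : Set Y) (n : ℕ) : Prop :=
  ∀ g : Fin n → R, ∃ p : MvPolynomial (Fin n) ℂ, p ≠ 0 ∧
    ∀ y ∈ T, MvPolynomial.eval (fun i => y.1 (g i)) p = 0

/-- An algebraic stratification of `Y`: the stratum `U (c + 1) \ U c` is smooth of dimension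
`d - c` (regular functions give local coordinates). -/
structure IsStrat (d : ℕ) (U : ℕ → Opens Y) : Prop where
  zero : U 0 = ⊥
  mono : Monotone U
  alg : ∀ c, ∃ T : Set R, ∀ y, y ∉ U c ↔ ∀ g ∈ T, y.1 g = 0
  dim : ∀ c, DimLT (U c : Set Y)ᶜ (d + 1 - c)
  chart : ∀ c, ∃ T : Finset R, ∀ x ∈ (U (c + 1) \ U c : Set Y),
    ∃ (g : Fin (d - c) → R) (W : Opens Y), (∀ k, g k ∈ T) ∧ x ∈ W ∧
    Topology.IsOpenEmbedding fun (y : ↥((W : Set Y) ∩ (U (c + 1) \ U c))) k => y.1.1 (g k)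

end strata

section forms
variable {V : Type} [NormedAddCommGroup V] [NormedSpace ℝ V] {n : ℕ} {ι : Type} [LinearOrder ι]

/-- `α` is smooth near `S`. -/
def Sm (S : Set V) (α : Form V n) : Prop := ∃ O, IsOpen O ∧ S ⊆ O ∧ ContDiffOn ℝ ∞ α O

/-- The restriction of `α` to `S` is zero. -/
def Van (S : Set V) (α : Form V n) : Prop :=
  ∀ (γ : V → V) (O : Set V), IsOpen O → ContDiffOn ℝ ∞ γ O → MapsTo γ O S →
    ∀ z ∈ O, pull γ α z = 0

/-- Forms on `O` with fewer than `w` logarithmic poles `dh / h`, `h ∈ G`. -/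
inductive Lg (G : Set (V → ℂ)) (O : Set V) : ℕ → (n : ℕ) → Form V n → Prop
  | zero {w n} : Lg G O w n 0
  | smooth {w n β} : ContDiffOn ℝ ∞ β O → Lg G O (w + 1) n β
  | add {w n β β'} : Lg G O w n β → Lg G O w n β' → Lg G O w n (β + β')
  | log {w n β h} : h ∈ G → Lg G O w n β → Lg G O (w + 1) (n + 1) fun x =>
      ContinuousAlternatingMap.alternatizeUncurryFin (((h x)⁻¹ • fderiv ℝ h x).smulRight (β x))

/-- The alternating sum of the faces. -/
def cob (c : Finset ι → Form V n) (J : Finset ι) : Form V n :=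
  ∑ i ∈ J, (-1 : ℂ) ^ (J.filter (· < i)).card • c (J.erase i)

/-- The total differential of the complex of strata. -/
def Dt (b : (n : ℕ) → Finset ι → Form V n) : (n : ℕ) → Finset ι → Form V n
  | 0, J => cob (b 0) J
  | n + 1, J => extDeriv (b n J) + (-1 : ℂ) ^ (n + 1) • cob (b (n + 1)) J

end forms

/-- `h` is a reduced holomorphic equation of `D` on `X ∩ O`. -/
def Eqn {M : ℕ} (d : ℕ) (X D O : Set (Amb M)) (h : Amb M → ℂ) : Prop :=
  ContDiffOn ℝ ∞ h O ∧ ∀ (O' : Set (Fin d → ℂ)) (g : (Fin d → ℂ) → Fin M → ℂ), IsChart X O' g →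
    ∀ z ∈ O', proj (g z) ∈ O → DifferentiableAt ℂ (h ∘ proj ∘ g) z ∧
      (proj (g z) ∈ D ↔ h (proj (g z)) = 0) ∧
      (proj (g z) ∈ D → fderiv ℂ (h ∘ proj ∘ g) z ≠ 0)

section model
variable {R : Type} [CommRing R] [Algebra ℂ R] {Y : Set (R → ℂ)}

/-- Data of a linear section and of a normal crossing model of `Y`. -/
structure Data (Y : Set (R → ℂ)) (a : ℕ) where
  N : ℕ
  f : Fin N → R
  c : Fin (a + 1) → Fin (N + 1) → ℂ
  M : ℕ
  r : ℕ
  X : Set (Amb M)
  D : Fin r → Set (Amb M)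
  al : Finset (Fin r)
  be : Finset (Fin r)
  h : Fin (a + 1) ↪ Fin r
  π : Amb M → Y
  ph : Amb M → Amb (N + 1)

variable {a n : ℕ} (Q : Data Y a)

/-- Homogeneous coordinates. -/
def Data.vec (y : Y) : Fin (Q.N + 1) → ℂ := Fin.cons 1 fun j => y.1 (Q.f j)

/-- The part of the model over `W`. -/
def Data.pre (W : Set Y) : Set (Amb Q.M) := (Q.X \ ⋃ i ∈ Q.al, Q.D i) ∩ Q.π ⁻¹' W

end model

end Pool.Agent.PWD
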