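import Pool.Agent.P.MP_65ad7c_ag.NDefs
import Pool.Agent.P.MP_65ad7c_ag.DDefs0

/-! The weight filtration on intersection cohomology, in the form used in the proofs. -/

open Set CategoryTheory TopologicalSpace Opposite
open scoped ContDiff
open Pool.Agent.HT (Form pull Amb proj cj IsChart IsSNC)

noncomputable section
namespace Pool.Agent.PWD

/-- On `S`, `η` has fewer than `w` logarithmic poles along the divisors `D i`, `i ∈ al`. -/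
def LogW {M n : ℕ} {ι : Type} (d : ℕ) (X : Set (Amb M)) (D : ι → Set (Amb M)) (al : Finset ι)
    (S : Set (Amb M)) (w : ℕ) (η : Form (Amb M) n) : Prop :=
  ∀ x ∈ S, ∃ O β, IsOpen O ∧ x ∈ O ∧ Lg {h | ∃ i ∈ al, Eqn d X (D i) O h} O w n β ∧
    Van ((S ∩ O) \ ⋃ i ∈ al, D i) (η - β)

/-- Deligne: the class of `η` in `H^m(Z - A, E)` lies in `W_k`, where `Z` is the intersection of
the `D i`, `i ∈ T`, and `A`, `E` are the unions of the `D i` over `al`, `be`. -/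
def InW {M m : ℕ} {ι : Type} [LinearOrder ι] (d : ℕ) (X : Set (Amb M)) (D : ι → Set (Amb M))
    (T al be : Finset ι) (k : ℕ) (η : Form (Amb M) m) : Prop :=
  ∃ b : (n : ℕ) → Finset ι → Form (Amb M) n, ∀ n, ∀ J ⊆ be,
    Sm ((X ∩ ⋂ i ∈ T ∪ J, D i) \ ⋃ i ∈ al, D i) (b n J) ∧
    (n + J.card = m → LogW d X D al (X ∩ ⋂ i ∈ T ∪ J, D i) (k + 1 - n)
      ((Pi.single m (Pi.single ∅ η) : (n : ℕ) → Finset ι → Form (Amb M) n) n J - Dt b n J))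

section model
variable {R : Type} [CommRing R] [Algebra ℂ R] {Y : Set (R → ℂ)} {a n : ℕ} (Q : Data Y a)

/-- Smooth forms over `W` that vanish near the exceptional divisor. -/
def Data.Adm (W : Set Y) (η : Form (Amb Q.M) n) : Prop :=
  Sm (Q.pre W) η ∧ ∃ O, IsOpen O ∧ (Q.pre W ∩ ⋃ i ∈ Q.be, Q.D i) ⊆ O ∧ Van (Q.pre W ∩ O) η

/-- `Q` is a projective normal crossing model of `Y`, defined over the real structure `S`,
isomorphic to `Y` over `U 1` and transverse to the hyperplanes `c i`. -/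
structure Data.IsModel (S : (R → ℂ) → (R → ℂ) → Prop) (d m : ℕ) (U : ℕ → Opens Y) : Prop where
  gen : Algebra.adjoin ℂ (range Q.f) = ⊤
  dim : ∀ e, DimLT ((U e : Set Y)ᶜ ∩ {y | ∀ i, Q.c i ⬝ᵥ Q.vec y = 0}) (m - e)
  snc : IsSNC d Q.X Q.D
  cjX : MapsTo (cj Q.M) Q.X Q.X
  cjD : ∀ i, MapsTo (cj Q.M) (Q.D i) (Q.D i)
  disj : Disjoint Q.al Q.be ∧ ∀ i, Q.h i ∉ Q.al ∪ Q.be
  cont : ContinuousOn Q.π (Q.pre univ)
  surj : SurjOn Q.π (Q.pre univ) univ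
  inj : InjOn Q.π (Q.pre (U 1))
  exc : ∀ x ∈ Q.pre univ, Q.π x ∉ U 1 ↔ x ∈ ⋃ i ∈ Q.be, Q.D i
  real : ∀ x ∈ Q.pre univ, S (Q.π x).1 (Q.π (cj Q.M x)).1
  hol : ∀ (O : Set (Fin d → ℂ)) (g : (Fin d → ℂ) → Fin Q.M → ℂ), IsChart Q.X O g → ∀ j,
    DifferentiableOn ℂ (fun z => (Q.π (proj (g z))).1 (Q.f j)) (O ∩ (proj ∘ g) ⁻¹' Q.pre univ)
  ph_cont : ContinuousOn Q.ph Q.X
  ph_eq : ∀ x ∈ Q.pre univ, Q.ph x = proj (Q.vec (Q.π x))
  ph_inf : ∀ x ∈ ⋃ i ∈ Q.al, Q.D i, Q.ph x (0, 0) = 0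
  ph_hyp : ∀ i, ∀ x ∈ Q.X, x ∈ Q.D (Q.h i) ↔ ∀ k, ∑ j, Q.c i j * Q.ph x (j, k) = 0

/-- `u` is the natural map from the extension by zero of the de Rham complex to `I`. -/
structure Data.IsNat {U : ℕ → Opens Y} {I : Cx Y} (one : Sec I 0 (U 1))
    (u : ∀ n W, Form (Amb Q.M) n →ₗ[ℂ] Sec I n W) : Prop where
  van : ∀ n (W : Opens Y) η, Q.Adm W η → Van (Q.pre W) η → u n W η = 0
  res : ∀ n (W W' : Opens Y) (h : W' ≤ W) η, Q.Adm W η → rs h (u n W η) = u n W' η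
  d : ∀ n (W : Opens Y) η, Q.Adm W η → dd n (n + 1) (u n W η) = u (n + 1) W (extDeriv η)
  one : u 0 (U 1) (fun _ => ContinuousAlternatingMap.constOfIsEmpty ℝ _ _ 1) = one

/-- `W_k IH^m(Y)`: cocycles whose restriction to a linear section `Z` of dimension `m` comes from
`W_k H^m(Z, Z - U 1)`. -/
def Wt (S : (R → ℂ) → (R → ℂ) → Prop) (d : ℕ) {U : ℕ → Opens Y} {I : Cx Y} (one : Sec I 0 (U 1))
    (m k : ℕ) : Set (Sec I m ⊤) :=
  {α | dd m (m + 1) α = 0 ∧ ∃ (Q : Data Y (d - m)) (u : ∀ n W, Form (Amb Q.M) n →ₗ[ℂ] Sec I n W)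
    (O : Opens Y) (η : Form (Amb Q.M) m) (j : ℕ) (t : Sec I j O),
    Q.IsModel S d m U ∧ Q.IsNat one u ∧
    (∀ y, (∀ i : Fin (d - m), Q.c i.castSucc ⬝ᵥ Q.vec y = 0) → y ∈ O) ∧
    Q.Adm O η ∧ Van (Q.pre O) (extDeriv η) ∧ rs le_top α - u m O η = dd j m t ∧
    InW d Q.X Q.D (Finset.univ.map (Fin.castSuccEmb.trans Q.h)) Q.al Q.be k η}

end model

end Pool.Agent.PWD
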