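import Pool.Agent.P.MP_65ad7c_ag.Defs
import Pool.Agent.P.MP_65ad7c_ag.DDefs0

/-! The Betti moduli space and the weight filtration on its intersection cohomology. -/

open Set TopologicalSpace Matrix
open scoped ContDiff
open Pool.Agent.HT (Form Amb proj IsChart IsSNC)
open Pool.Agent.PWD

noncomputable section
namespace Pool.Agent.PWF

section betti
variable {r : ℕ} {Γ : Type} [Group Γ] {G : Subgroup (GL (Fin r) ℂ)} {R : Type} [CommRing R]
  [Algebra ℂ R]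

/-- `G` is Zariski closed in `GL_r(ℂ)` and closed under conjugate transposition (by a theorem of
Mostow these are, up to conjugation, the complex reductive groups). -/
def Red (G : Subgroup (GL (Fin r) ℂ)) : Prop :=
  (∃ S : Set (MvPolynomial (Fin r × Fin r) ℂ), ∀ g : GL (Fin r) ℂ,
    g ∈ G ↔ ∀ p ∈ S, MvPolynomial.eval (fun ij => g.1 ij.1 ij.2) p = 0) ∧
  ∀ g ∈ G, ∃ g' ∈ G, g'.1 = g.1ᴴ

/-- `e` identifies `R` with the coordinate ring of the Betti moduli space: the ring of conjugation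
invariant regular functions on `Hom(Γ, G)`. -/
def IsInv (e : (Γ →* G) → R →ₐ[ℂ] ℂ) : Prop :=
  (∀ f, (∀ ρ, e ρ f = 0) → f = 0) ∧ ∀ φ : (Γ →* G) → ℂ, (∃ f, ∀ ρ, e ρ f = φ ρ) ↔
    φ ∈ Algebra.adjoin ℂ {x : (Γ →* G) → ℂ | ∃ γ i j, x = fun ρ => (ρ γ).1.1 i j} ∧
    ∀ (g : G) ρ, φ ((MulAut.conj g).toMonoidHom.comp ρ) = φ ρ

/-- The complex points of the closed subvariety of `Spec R` defined by `P`, with the topology of
pointwise convergence (the analytic topology). -/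
def Pts (P : Ideal R) : Set (R → ℂ) := {y | (∃ φ : R →ₐ[ℂ] ℂ, ⇑φ = y) ∧ ∀ f ∈ P, y f = 0}

/-- `y'` is the image of `y` under the real structure induced by `ρ ↦ (γ ↦ ρ(γ⁻¹)ᴴ)`. -/
def Cnj (e : (Γ →* G) → R →ₐ[ℂ] ℂ) (y y' : R → ℂ) : Prop :=
  ∀ f f' : R, (∀ ρ ρ' : Γ →* G, (∀ γ, (ρ' γ).1.1 = (ρ γ⁻¹).1.1ᴴ) →
    e ρ f' = starRingEnd ℂ (e ρ' f)) → y' f = starRingEnd ℂ (y f')

end betti

section forms
variable {V : Type} [NormedAddCommGroup V] [NormedSpace ℝ V] {n : ℕ} {ι : Type} [LinearOrder ι]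
  (E : ι → Set V → Set (V → ℂ)) (X : Set V) (D : ι → Set V)

/-- On `S`, `η` has fewer than `w` logarithmic poles along the divisors `D i`, `i ∈ al`, whose
equations on `O` are the elements of `E i O`. -/
def Log (al : Finset ι) (S : Set V) (w : ℕ) (η : Form V n) : Prop :=
  ∀ x ∈ S, ∃ O β, IsOpen O ∧ x ∈ O ∧ Lg {h | ∃ i ∈ al, h ∈ E i O} O w n β ∧
    Van ((S ∩ O) \ ⋃ i ∈ al, D i) (η - β)

/-- Deligne: the class of `η` in `H^m(Z - A, B)` lies in `W_k`, where `Z` is the intersection of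
the `D i`, `i ∈ T`, and `A`, `B` are the unions of the `D i` over `al`, `be`. -/
def Del (T al be : Finset ι) (k : ℕ) {m : ℕ} (η : Form V m) : Prop :=
  ∃ b : (n : ℕ) → Finset ι → Form V n, ∀ n, ∀ J ⊆ be,
    Sm ((X ∩ ⋂ i ∈ T ∪ J, D i) \ ⋃ i ∈ al, D i) (b n J) ∧
    (n + J.card = m → Log E D al (X ∩ ⋂ i ∈ T ∪ J, D i) (k + 1 - n)
      ((Pi.single m (Pi.single ∅ η) : (n : ℕ) → Finset ι → Form V n) n J - Dt b n J))

/-- Smooth forms on `S` that vanish near `B`. -/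
def Adm (S B : Set V) (η : Form V n) : Prop :=
  Sm S η ∧ ∃ O, IsOpen O ∧ S ∩ B ⊆ O ∧ Van (S ∩ O) η

variable {Y : Type} [TopologicalSpace Y] {U : Opens Y} {I : Cx Y} (pre : Set Y → Set V)

/-- `u` is the natural map to `I` from the extension by zero of the de Rham complex of `U`. -/
structure IsNat (B : Set V) (one : Sec I 0 U) (u : ∀ n W, Form V n → Sec I n W) : Prop where
  lin : ∀ n W, IsLinearMap ℂ (u n W)
  van : ∀ n (W : Opens Y) η, Adm (pre W) B η → Van (pre W) η → u n W η = 0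
  res : ∀ n (W W' : Opens Y) (h : W' ≤ W) η, Adm (pre W) B η → rs h (u n W η) = u n W' η
  d : ∀ n (W : Opens Y) η, Adm (pre W) B η → dd n (n + 1) (u n W η) = u (n + 1) W (extDeriv η)
  one : u 0 U (fun _ => ContinuousAlternatingMap.constOfIsEmpty ℝ _ _ 1) = one

/-- Global sections. -/
abbrev Glo (I : Cx Y) (m : ℕ) : Type := Sec I m ⊤

/-- `α` is a cocycle which near `Z` comes from a class in `W_k H^m`. -/
def Near (Z : Set Y) (T al be : Finset ι) (one : Sec I 0 U) (k : ℕ) {m : ℕ} (α : Glo I m) : Prop :=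
  dd m (m + 1) α = 0 ∧
  ∃ (u : ∀ n W, Form V n → Sec I n W) (O : Opens Y) (η : Form V m) (j : ℕ) (t : Sec I j O),
    IsNat pre (⋃ i ∈ be, D i) one u ∧ Z ⊆ O ∧ Adm (pre O) (⋃ i ∈ be, D i) η ∧
    Van (pre O) (extDeriv η) ∧ rs le_top α - u m O η = dd j m t ∧ Del E X D T al be k η

end forms

/-- Complex conjugation of `ℙ^{N-1}`: conjugation of the entries. -/
def bar {N : ℕ} (x : Amb N) : Amb N := WithLp.toLp 2 fun p => starRingEnd ℂ (x p)

section model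
variable {R : Type} [CommRing R] [Algebra ℂ R] {Y : Set (R → ℂ)}

/-- `Q` is a projective normal crossing model of `Y`, defined over the real structure `S`,
isomorphic to `Y` over `U 1` and transverse to the hyperplanes `c i`. -/
structure Model {a : ℕ} (Q : Data Y a) (S : (R → ℂ) → (R → ℂ) → Prop) (d m : ℕ)
    (U : ℕ → Set Y) : Prop where
  gen : Algebra.adjoin ℂ (range Q.f) = ⊤
  dim : ∀ e, DimLT ((U e)ᶜ ∩ {y | ∀ i, Q.c i ⬝ᵥ Q.vec y = 0}) (m - e)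
  snc : IsSNC d Q.X Q.D
  cjX : MapsTo bar Q.X Q.X
  cjD : ∀ i, MapsTo bar (Q.D i) (Q.D i)
  disj : Disjoint Q.al Q.be ∧ ∀ i, Q.h i ∉ Q.al ∪ Q.be
  cont : ContinuousOn Q.π (Q.pre univ)
  surj : SurjOn Q.π (Q.pre univ) univ
  inj : InjOn Q.π (Q.pre (U 1))
  exc : ∀ x ∈ Q.pre univ, Q.π x ∉ U 1 ↔ x ∈ ⋃ i ∈ Q.be, Q.D i
  real : ∀ x ∈ Q.pre univ, S (Q.π x).1 (Q.π (bar x)).1
  hol : ∀ (O : Set (Fin d → ℂ)) (g : (Fin d → ℂ) → Fin Q.M → ℂ), IsChart Q.X O g → ∀ j,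
    DifferentiableOn ℂ (fun z => (Q.π (proj (g z))).1 (Q.f j)) (O ∩ (proj ∘ g) ⁻¹' Q.pre univ)
  ph_cont : ContinuousOn Q.ph Q.X
  ph_eq : ∀ x ∈ Q.pre univ, Q.ph x = proj (Q.vec (Q.π x))
  ph_inf : ∀ x ∈ ⋃ i ∈ Q.al, Q.D i, Q.ph x (0, 0) = 0
  ph_hyp : ∀ i, ∀ x ∈ Q.X, x ∈ Q.D (Q.h i) ↔ ∀ k, ∑ j, Q.c i j * Q.ph x (j, k) = 0

/-- `W_k IH^m(Y)`: cocycles whose restriction to a linear section `Z` of dimension `m` comes from
`W_k H^m(Z, Z - U 1)`, for some stratification `U` adapted to `I`. -/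
def Wt (S : (R → ℂ) → (R → ℂ) → Prop) (d : ℕ) (I : Cx Y) (m k : ℕ) : Set (Glo I m) :=
  {α | ∃ (U : ℕ → Opens Y) (one : Sec I 0 (U 1)) (Q : Data Y (d - m)),
    IsStrat d U ∧ IsIC U I one ∧ Model Q S d m (fun e => U e) ∧
    Near (fun i O => {h | Eqn d Q.X (Q.D i) O h}) Q.X Q.D Q.pre
      {y | ∀ i : Fin (d - m), Q.c i.castSucc ⬝ᵥ Q.vec y = 0}
      (Finset.univ.map (Fin.castSuccEmb.trans Q.h)) Q.al Q.be one k α}

end model

end Pool.Agent.PWF
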