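import Pool.Agent.P.MP_65ad7c_ag.VDefs

open Set Filter Topology Metric

noncomputable section
namespace Pool.Agent.PWV

open MvPolynomial

variable {σ τ : Type} {A B V W : Set (σ → ℂ)} {k : ℕ}

theorem vdim_subst (x : σ → ℂ) (f : τ → MvPolynomial σ ℂ) (P : MvPolynomial τ ℂ) :
    eval x (aeval f P) = eval (fun i => eval x (f i)) P := by
  induction P using MvPolynomial.induction_on with
  | C a => simp
  | add p q hp hq => simp only [map_add, hp, hq]
  | mul_X p i hp => simp only [map_mul, hp, aeval_X, eval_X]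

theorem ZC.isClosed (h : ZC V) : IsClosed V := by
  obtain ⟨S, rfl⟩ := h
  have e : {x : σ → ℂ | ∀ f ∈ S, eval x f = 0} = ⋂ f ∈ S, {x | eval x f = 0} := by
    ext x
    simp only [mem_iInter, mem_ofPred_eq]
  rw [e]
  exact isClosed_biInter fun f _ => isClosed_eq (MvPolynomial.continuous_eval f) continuous_const

theorem zc_univ : ZC (univ : Set (σ → ℂ)) := by
  exact ⟨∅, by simp⟩

theorem zc_empty : ZC (∅ : Set (σ → ℂ)) := by
  exact ⟨{1}, by simp⟩

theorem ZC.inter (hV : ZC V) (hW : ZC W) : ZC (V ∩ W) := by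
  obtain ⟨S, rfl⟩ := hV
  obtain ⟨T, rfl⟩ := hW
  refine ⟨S ∪ T, ?_⟩
  ext x
  constructor
  · rintro ⟨h1, h2⟩ f (hf | hf)
    exacts [h1 f hf, h2 f hf]
  · exact fun h => ⟨fun f hf => h f (Or.inl hf), fun f hf => h f (Or.inr hf)⟩

theorem ZC.union (hV : ZC V) (hW : ZC W) : ZC (V ∪ W) := by
  obtain ⟨S, rfl⟩ := hV
  obtain ⟨T, rfl⟩ := hW
  refine ⟨{h | ∃ f ∈ S, ∃ g ∈ T, h = f * g}, ?_⟩
  ext x
  constructor
  · rintro (h | h) _ ⟨f, hf, g, hg, rfl⟩
    · rw [map_mul, h f hf, zero_mul]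
    · rw [map_mul, h g hg, mul_zero]
  · intro h
    by_cases h1 : ∀ f ∈ S, eval x f = 0
    · exact Or.inl h1
    · push Not at h1
      obtain ⟨f, hf, h0⟩ := h1
      refine Or.inr fun g hg => ?_
      have h2 := h _ ⟨f, hf, g, hg, rfl⟩
      rw [map_mul] at h2
      exact (mul_eq_zero.1 h2).resolve_left h0

theorem zc_biUnion {ι : Type} {s : Set ι} (hs : s.Finite) {f : ι → Set (σ → ℂ)}
    (h : ∀ i ∈ s, ZC (f i)) : ZC (⋃ i ∈ s, f i) := by
  induction s, hs using Set.Finite.induction_on with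
  | empty => simpa using zc_empty
  | insert _ _ ih =>
    rw [biUnion_insert]
    exact (h _ (mem_insert _ _)).union (ih fun i hi => h i (mem_insert_of_mem _ hi))

theorem zc_zero (g : MvPolynomial σ ℂ) : ZC {x : σ → ℂ | eval x g = 0} := by
  exact ⟨{g}, by simp⟩

theorem zc_ZI (p : Ideal (MvPolynomial σ ℂ)) : ZC (ZI p) := by
  exact ⟨p, rfl⟩

theorem zc_zcl (A : Set (σ → ℂ)) : ZC (zcl A) := by
  exact ⟨{f | ∀ y ∈ A, eval y f = 0}, rfl⟩

theorem subset_zcl (A : Set (σ → ℂ)) : A ⊆ zcl A := by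
  exact fun x hx f hf => hf x hx

theorem ZC.preimage {V : Set (τ → ℂ)} (h : ZC V) (f : τ → MvPolynomial σ ℂ) :
    ZC {x : σ → ℂ | (fun i => eval x (f i)) ∈ V} := by
  obtain ⟨S, rfl⟩ := h
  refine ⟨aeval f '' S, ?_⟩
  ext x
  simp only [mem_ofPred_eq, forall_mem_image, vdim_subst]

theorem Dim.mono (h : Dim A k) (hBA : B ⊆ A) : Dim B k := by
  intro f
  obtain ⟨P, h0, hP⟩ := h f
  exact ⟨P, h0, fun x hx => hP x (hBA hx)⟩

theorem Dim.mono_nat (h : Dim A k) {l : ℕ} (hl : k ≤ l) : Dim A l := by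
  intro f
  obtain ⟨P, h0, hP⟩ := h fun i => f (Fin.castLE hl i)
  refine ⟨rename (Fin.castLE hl) P, fun e => h0 ?_, fun x hx => ?_⟩
  · exact rename_injective _ (Fin.castLE_injective hl) (by rw [e, map_zero])
  · rw [eval_rename]
    exact hP x hx

theorem dim_empty (k : ℕ) : Dim (∅ : Set (σ → ℂ)) k := by
  exact fun _ => ⟨1, one_ne_zero, fun x hx => hx.elim⟩

theorem dim_zero : Dim A 0 ↔ A = ∅ := by
  refine ⟨fun h => eq_empty_of_forall_notMem fun x hx => ?_, fun h => h ▸ dim_empty 0⟩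
  obtain ⟨P, h0, hP⟩ := h Fin.elim0
  obtain ⟨c, rfl⟩ := MvPolynomial.C_surjective (Fin 0) P
  have h1 := hP x hx
  rw [eval_C] at h1
  exact h0 (by rw [h1, map_zero])

theorem Dim.union (hA : Dim A k) (hB : Dim B k) : Dim (A ∪ B) k := by
  intro f
  obtain ⟨P, h0, hP⟩ := hA f
  obtain ⟨Q, h1, hQ⟩ := hB f
  refine ⟨P * Q, mul_ne_zero h0 h1, ?_⟩
  rintro x (hx | hx)
  · rw [map_mul, hP x hx, zero_mul]
  · rw [map_mul, hQ x hx, mul_zero]

theorem dim_biUnion {ι : Type} {s : Set ι} (hs : s.Finite) {f : ι → Set (σ → ℂ)}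
    (h : ∀ i ∈ s, Dim (f i) k) : Dim (⋃ i ∈ s, f i) k := by
  induction s, hs using Set.Finite.induction_on with
  | empty => simpa using dim_empty k
  | insert _ _ ih =>
    rw [biUnion_insert]
    exact (h _ (mem_insert _ _)).union (ih fun i hi => h i (mem_insert_of_mem _ hi))

theorem Dim.zcl (h : Dim A k) : Dim (zcl A) k := by
  intro f
  obtain ⟨P, h0, hP⟩ := h f
  refine ⟨P, h0, fun x hx => ?_⟩
  rw [← vdim_subst]
  exact hx _ fun y hy => by rw [vdim_subst]; exact hP y hy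

theorem Dim.image (h : Dim A k) (f : τ → MvPolynomial σ ℂ) :
    Dim ((fun x i => eval x (f i)) '' A) k := by
  intro g
  obtain ⟨P, h0, hP⟩ := h fun i => aeval f (g i)
  refine ⟨P, h0, ?_⟩
  rintro _ ⟨x, hx, rfl⟩
  simpa only [vdim_subst] using hP x hx

theorem dim_univ (n : ℕ) : Dim (univ : Set (Fin n → ℂ)) (n + 1) := by
  intro f
  have h : ¬ AlgebraicIndependent ℂ f := fun hf => by
    have h1 := hf.cardinalMk_le_trdeg
    rw [MvPolynomial.trdeg_of_isDomain] at h1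
    simp only [Cardinal.mk_fin, Cardinal.lift_natCast, Nat.cast_le] at h1
    omega
  rw [algebraicIndependent_iff] at h
  push Not at h
  obtain ⟨P, hP, h0⟩ := h
  exact ⟨P, h0, fun x _ => by rw [← vdim_subst, hP, map_zero]⟩

theorem Dim.exists_poly {n : ℕ} {A : Set (Fin n → ℂ)} (h : Dim A n) :
    ∃ g : MvPolynomial (Fin n) ℂ, g ≠ 0 ∧ ∀ x ∈ A, eval x g = 0 := by
  obtain ⟨P, h0, hP⟩ := h X
  exact ⟨P, h0, fun x hx => by simpa only [eval_X] using hP x hx⟩

end Pool.Agent.PWV
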