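import Pool.Agent.P.MP_65ad7c_ag.VPrime

open Set Filter Topology Metric

noncomputable section
namespace Pool.Agent.PWV

section dom

open Polynomial

variable {D : Type} [CommRing D]

lemma velim_div {g : D[X]} (hg : 0 < g.natDegree) (f : D[X]) :
    ∃ (N : ℕ) (h r : D[X]), r.natDegree < g.natDegree ∧
      C g.leadingCoeff ^ N * f = g * h + r := by
  induction hk : f.natDegree using Nat.strong_induction_on generalizing f with
  | _ k ih =>
    by_cases hlt : f.natDegree < g.natDegree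
    · exact ⟨0, 0, f, hlt, by simp⟩
    · have hle := not_lt.1 hlt
      obtain ⟨N, h, r, hr, e⟩ := ih _ (hk ▸ natDegree_cancelLeads_lt_of_natDegree_le_natDegree hle
        (hg.trans_le hle)) (g.cancelLeads f) rfl
      rw [cancelLeads, Nat.sub_eq_zero_of_le hle, pow_zero, mul_one] at e
      refine ⟨N + 1, h + C g.leadingCoeff ^ N *
        (C f.leadingCoeff * X ^ (f.natDegree - g.natDegree)), r, hr, ?_⟩
      linear_combination e

lemma velim_min (S : Set D[X]) (hS : S.Nonempty) :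
    ∃ m ∈ S, ∀ r : D[X], r.natDegree < m.natDegree → r ∉ S := by
  obtain ⟨m, hm, h⟩ := (InvImage.wf natDegree (wellFounded_lt (α := ℕ))).has_min S hS
  exact ⟨m, hm, fun r hr hrS => h r hrS hr⟩

lemma velim_dom [IsDomain D] [CharZero D] {P : Ideal D[X]} (hP : P.IsPrime)
    (hc : ∀ c, C c ∈ P → c = 0) (h0 : P ≠ ⊥) :
    ∃ δ : D, δ ≠ 0 ∧ ∃ m ∈ P, (∀ f ∈ P, ∃ (N : ℕ) (h : D[X]), C δ ^ N * f = m * h) ∧
      ∃ a ∈ P, ∃ b, C δ = a + b * derivative m := by
  obtain ⟨f0, hf0, hf0'⟩ := P.ne_bot_iff.1 h0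
  obtain ⟨m, ⟨hm, hm0⟩, hmin⟩ := velim_min {f | f ∈ P ∧ f ≠ 0} ⟨f0, hf0, hf0'⟩
  have hmin' : ∀ r ∈ P, r.natDegree < m.natDegree → r = 0 := fun r hr h => by
    by_contra h1
    exact hmin r h ⟨hr, h1⟩
  have hpos : 0 < m.natDegree := by
    refine Nat.pos_of_ne_zero fun h => hm0 ?_
    rw [eq_C_of_natDegree_eq_zero h] at hm ⊢
    rw [hc _ hm, C_0]
  have hd : (derivative m).natDegree < m.natDegree := natDegree_derivative_lt hpos.ne'
  have hd0 : derivative m ∉ P := fun h =>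
    hpos.ne' (derivative_eq_zero.1 (hmin' _ h hd))
  obtain ⟨g, ⟨⟨a, ha, b, hab⟩, hgP⟩, hgmin⟩ :=
    velim_min {g | (∃ a ∈ P, ∃ b, g = a + b * derivative m) ∧ g ∉ P}
      ⟨derivative m, ⟨0, P.zero_mem, 1, by simp⟩, hd0⟩
  have hg0 : g ≠ 0 := fun h => hgP (h ▸ P.zero_mem)
  have hgm : g.natDegree < m.natDegree := by
    refine lt_of_le_of_lt (not_lt.1 fun h => ?_) hd
    exact hgmin _ h ⟨⟨0, P.zero_mem, 1, by simp⟩, hd0⟩
  have hg : g.natDegree = 0 := by
    by_contra hne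
    obtain ⟨N, h, r, hr, e⟩ := velim_div (Nat.pos_of_ne_zero hne) m
    have hrP : r ∈ P := by
      by_contra h1
      refine hgmin r hr ⟨⟨C g.leadingCoeff ^ N * m - a * h,
        P.sub_mem (P.mul_mem_left _ hm) (P.mul_mem_right _ ha), -(b * h), ?_⟩, h1⟩
      rw [hab] at e ⊢
      linear_combination -e
    rw [hmin' r hrP (hr.trans hgm), add_zero] at e
    have hl : (C g.leadingCoeff ^ N : D[X]) ≠ 0 :=
      pow_ne_zero _ (C_ne_zero.2 (leadingCoeff_ne_zero.2 hg0))
    have hh0 : h ≠ 0 := by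
      rintro rfl
      exact mul_ne_zero hl hm0 (by rw [e, mul_zero])
    have hhP : h ∈ P := (hP.mem_or_mem (e ▸ P.mul_mem_left _ hm)).resolve_left hgP
    have e' := congrArg natDegree e
    rw [natDegree_mul hl hm0, natDegree_mul hg0 hh0, ← C_pow, natDegree_C] at e'
    exact hh0 (hmin' h hhP (by omega))
  have hgC := eq_C_of_natDegree_eq_zero hg
  have hc0 : g.coeff 0 ≠ 0 := fun h => hg0 (by rw [hgC, h, C_0])
  refine ⟨m.leadingCoeff * g.coeff 0, mul_ne_zero (leadingCoeff_ne_zero.2 hm0) hc0, m, hm,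
    fun f hf => ?_, C m.leadingCoeff * a, P.mul_mem_left _ ha, C m.leadingCoeff * b, ?_⟩
  · obtain ⟨N, h, r, hr, e⟩ := velim_div hpos f
    have hrP : r ∈ P := by
      have := P.sub_mem (P.mul_mem_left (C m.leadingCoeff ^ N) hf) (P.mul_mem_right h hm)
      rwa [e, add_sub_cancel_left] at this
    rw [hmin' r hrP hr, add_zero] at e
    refine ⟨N, C (g.coeff 0) ^ N * h, ?_⟩
    rw [C_mul, mul_pow]
    linear_combination C (g.coeff 0) ^ N * e
  · rw [C_mul, ← hgC]
    linear_combination C m.leadingCoeff * hab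

end dom

open MvPolynomial

variable {n : ℕ}

lemma velim_rename (a : MvPolynomial (Fin n) ℂ) :
    finSuccEquiv ℂ n (rename Fin.succ a) = Polynomial.C a := by
  induction a using MvPolynomial.induction_on with
  | C c => rw [rename_C]; exact (finSuccEquiv ℂ n).commutes c
  | add p q hp hq => rw [map_add, map_add, hp, hq, map_add]
  | mul_X p i hp => rw [map_mul, map_mul, hp, rename_X, finSuccEquiv_X_succ, map_mul]

lemma velim_pderiv (f : MvPolynomial (Fin (n + 1)) ℂ) :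
    finSuccEquiv ℂ n (pderiv 0 f) = Polynomial.derivative (finSuccEquiv ℂ n f) := by
  induction f using MvPolynomial.induction_on with
  | C c =>
    have : finSuccEquiv ℂ n (C c) = Polynomial.C (C c) := (finSuccEquiv ℂ n).commutes c
    rw [pderiv_C, map_zero, this, Polynomial.derivative_C]
  | add p q hp hq => rw [map_add, map_add, hp, hq, map_add, map_add]
  | mul_X p i hp =>
    have e : finSuccEquiv ℂ n (pderiv 0 (X i)) =
        Polynomial.derivative (finSuccEquiv ℂ n (X i)) := by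
      refine Fin.cases ?_ (fun j => ?_) i
      · rw [pderiv_X_self, map_one, finSuccEquiv_X_zero, Polynomial.derivative_X]
      · rw [pderiv_X_of_ne (Fin.succ_ne_zero j), map_zero, finSuccEquiv_X_succ,
          Polynomial.derivative_C]
    rw [pderiv_mul, map_add, map_mul, map_mul, map_mul, hp, Polynomial.derivative_mul, e]

lemma velim_mem {p : Ideal (MvPolynomial (Fin (n + 1)) ℂ)} {f : MvPolynomial (Fin (n + 1)) ℂ}
    (h : ∀ i, rename Fin.succ ((finSuccEquiv ℂ n f).coeff i) ∈ p) : f ∈ p := by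
  have e : f = ∑ i ∈ (finSuccEquiv ℂ n f).support,
      rename Fin.succ ((finSuccEquiv ℂ n f).coeff i) * X 0 ^ i := by
    apply (finSuccEquiv ℂ n).injective
    simp only [map_sum, map_mul, map_pow, velim_rename, finSuccEquiv_X_zero]
    exact Polynomial.as_sum_support_C_mul_X_pow _
  rw [e]
  exact p.sum_mem fun i _ => p.mul_mem_right _ (h i)

/-- Elimination of the first variable: a cylinder, or generically a simple root. -/
theorem elim {p : Ideal (MvPolynomial (Fin (n + 1)) ℂ)} (hp : p.IsPrime) :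
    (∀ x, x ∈ ZI p ↔ Fin.tail x ∈ ZI (p.comap (rename Fin.succ).toRingHom)) ∨
    ∃ δ ∉ p.comap (rename (R := ℂ) (Fin.succ (n := n))).toRingHom,
      ∃ m : MvPolynomial (Fin (n + 1)) ℂ, ∀ x : Fin (n + 1) → ℂ, eval (Fin.tail x) δ ≠ 0 →
        (x ∈ ZI p ↔ Fin.tail x ∈ ZI (p.comap (rename Fin.succ).toRingHom) ∧ eval x m = 0) ∧
        (x ∈ ZI p → eval x (pderiv 0 m) ≠ 0) := by
  have hmem : ∀ a, a ∈ p.comap (rename (R := ℂ) (Fin.succ (n := n))).toRingHom ↔
      rename Fin.succ a ∈ p := fun a => Iff.rfl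
  have hp0 : (p.comap (rename (R := ℂ) (Fin.succ (n := n))).toRingHom).IsPrime :=
    Ideal.comap_isPrime _ _
  generalize p.comap (rename (R := ℂ) (Fin.succ (n := n))).toRingHom = p0 at hmem hp0
  have htail : ∀ x ∈ ZI p, Fin.tail x ∈ ZI p0 := fun x hx a ha => by
    have := hx _ ((hmem a).1 ha)
    rwa [eval_rename] at this
  have : CharZero (MvPolynomial (Fin n) ℂ ⧸ p0) :=
    charZero_of_injective_algebraMap (algebraMap ℂ _).injective
  obtain ⟨Ψ, hΨ⟩ : ∃ Ψ : MvPolynomial (Fin (n + 1)) ℂ →+* Polynomial (MvPolynomial (Fin n) ℂ ⧸ p0),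
      ∀ f, Ψ f = (finSuccEquiv ℂ n f).map (Ideal.Quotient.mk p0) :=
    ⟨(Polynomial.mapRingHom (Ideal.Quotient.mk p0)).comp (finSuccEquiv ℂ n).toRingEquiv.toRingHom,
      fun _ => rfl⟩
  have hsurj : Function.Surjective Ψ := fun F => by
    obtain ⟨G, rfl⟩ := Polynomial.map_surjective _ Ideal.Quotient.mk_surjective F
    exact ⟨(finSuccEquiv ℂ n).symm G, by rw [hΨ, AlgEquiv.apply_symm_apply]⟩
  have hker : RingHom.ker Ψ ≤ p := fun f hf => velim_mem fun i => by
    have h1 : Ψ f = 0 := hf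
    have h2 := congrArg (fun F => Polynomial.coeff F i) h1
    simp only [hΨ, Polynomial.coeff_map, Polynomial.coeff_zero] at h2
    exact (hmem _).1 (Ideal.Quotient.eq_zero_iff_mem.1 h2)
  have hP : (p.map Ψ).IsPrime := Ideal.map_isPrime_of_surjective hsurj hker
  have hiff : ∀ f, Ψ f ∈ p.map Ψ ↔ f ∈ p := fun f => by
    rw [← Ideal.mem_comap, Ideal.comap_map_of_surjective _ hsurj, ← RingHom.ker_eq_comap_bot,
      sup_eq_left.2 hker]
  have hC : ∀ a, Ψ (rename Fin.succ a) = Polynomial.C (Ideal.Quotient.mk p0 a) := fun a => by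
    rw [hΨ, velim_rename, Polynomial.map_C]
  have hev : ∀ x : Fin (n + 1) → ℂ, Fin.tail x ∈ ZI p0 →
      ∃ ev : Polynomial (MvPolynomial (Fin n) ℂ ⧸ p0) →+* ℂ, ∀ f, ev (Ψ f) = eval x f := by
    intro x hx
    refine ⟨Polynomial.eval₂RingHom (Ideal.Quotient.lift p0 (eval (Fin.tail x)) hx) (x 0),
      fun f => ?_⟩
    conv_rhs => rw [← Fin.cons_self_tail x, eval_eq_eval_mv_eval', Polynomial.eval_map]
    rw [hΨ, Polynomial.coe_eval₂RingHom, Polynomial.eval₂_map, Ideal.Quotient.lift_comp_mk]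
  by_cases h0 : p.map Ψ = ⊥
  · refine Or.inl fun x => ⟨htail x, fun hx f hf => ?_⟩
    obtain ⟨ev, e⟩ := hev x hx
    have h1 := (hiff f).2 hf
    rw [h0, Ideal.mem_bot] at h1
    rw [← e, h1, map_zero]
  · obtain ⟨d, hd, M, hM, h1, A, hA, B, h2⟩ := velim_dom hP (fun c hc => by
      obtain ⟨a, rfl⟩ := Ideal.Quotient.mk_surjective c
      rw [← hC, hiff] at hc
      exact Ideal.Quotient.eq_zero_iff_mem.2 ((hmem a).2 hc)) h0
    obtain ⟨δ, rfl⟩ := Ideal.Quotient.mk_surjective d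
    obtain ⟨m, rfl⟩ := hsurj M
    obtain ⟨a, rfl⟩ := hsurj A
    refine Or.inr ⟨δ, fun h => hd (Ideal.Quotient.eq_zero_iff_mem.2 h), m, fun x hx => ⟨⟨fun h =>
      ⟨htail x h, h m ((hiff m).1 hM)⟩, fun h f hf => ?_⟩, fun h h3 => hx ?_⟩⟩
    · obtain ⟨ev, e⟩ := hev x h.1
      obtain ⟨N, g, h4⟩ := h1 _ ((hiff f).2 hf)
      have h5 := congrArg ev h4
      rw [map_mul, map_mul, map_pow, ← hC, e, e, e, h.2, zero_mul, eval_rename] at h5
      exact (mul_eq_zero.1 h5).resolve_left (pow_ne_zero _ hx)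
    · obtain ⟨ev, e⟩ := hev x (htail x h)
      have h4 : Polynomial.derivative (Ψ m) = Ψ (pderiv 0 m) := by
        rw [hΨ, hΨ, velim_pderiv, Polynomial.derivative_map]
      have h5 := congrArg ev h2
      rw [map_add, map_mul, ← hC, h4, e, e, e, h3, h a ((hiff a).1 hA), mul_zero, add_zero,
        eval_rename] at h5
      exact h5

end Pool.Agent.PWV
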