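import Pool.Agent.P.MP_65ad7c_ag.VTr

open Set Filter Topology Metric

noncomputable section
namespace Pool.Agent.PWV

open MvPolynomial

variable {n : ℕ}

theorem vift_der (m : MvPolynomial (Fin (n + 1)) ℂ) (x : Fin (n + 1) → ℂ) :
    ∃ L : (Fin (n + 1) → ℂ) →L[ℂ] ℂ, HasStrictFDerivAt (fun y => eval y m) L x ∧
      L (Pi.single 0 1) = eval x (pderiv 0 m) := by
  induction m using MvPolynomial.induction_on with
  | C a => exact ⟨0, by simpa using hasStrictFDerivAt_const a x, by simp⟩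
  | add p q hp hq =>
    obtain ⟨L, h1, h2⟩ := hp
    obtain ⟨L', h3, h4⟩ := hq
    exact ⟨L + L', by simpa using h1.fun_add h3, by simp [h2, h4]⟩
  | mul_X p i hp =>
    obtain ⟨L, h1, h2⟩ := hp
    refine ⟨_, by simpa using h1.fun_mul (hasStrictFDerivAt_apply i x), ?_⟩
    by_cases h : i = 0 <;> simp [h, h2, pderiv_X]

theorem ift (m : MvPolynomial (Fin (n + 1)) ℂ) {x : Fin (n + 1) → ℂ}
    (h : eval x (pderiv 0 m) ≠ 0) :
    ∃ e : OpenPartialHomeomorph (Fin (n + 1) → ℂ) ((Fin n → ℂ) × ℂ), x ∈ e.source ∧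
      ∀ y, e y = (Fin.tail y, eval y m) := by
  obtain ⟨L, h1, h2⟩ := vift_der m x
  let T : (Fin (n + 1) → ℂ) →L[ℂ] (Fin n → ℂ) :=
    ContinuousLinearMap.pi fun i => ContinuousLinearMap.proj i.succ
  have h3 : Function.Injective (T.prod L).toLinearMap := by
    rw [injective_iff_map_eq_zero]
    intro v hv
    have h4 : v = v 0 • Pi.single 0 1 := funext fun i => by
      refine Fin.cases (by simp) (fun j => ?_) i
      simpa [T] using congrFun (congrArg Prod.fst hv) j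
    have h5 : L v = 0 := congrArg Prod.snd hv
    rw [h4, map_smul, h2, smul_eq_mul] at h5
    rw [h4, (mul_eq_zero.1 h5).resolve_right h, zero_smul]
  have h4 : HasStrictFDerivAt (fun y : Fin (n + 1) → ℂ => (Fin.tail y, eval y m))
      ((LinearMap.linearEquivOfInjective _ h3 (by simp)).toContinuousLinearEquiv :
        (Fin (n + 1) → ℂ) →L[ℂ] (Fin n → ℂ) × ℂ) x := T.hasStrictFDerivAt.prodMk h1
  exact ⟨h4.toOpenPartialHomeomorph _, h4.mem_toOpenPartialHomeomorph_source, fun _ => rfl⟩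

/-- Flat charts can be shrunk, and flatness only depends on the germ. -/
theorem Flat.shrink {V V' : Set (Fin n → ℂ)} {e : ℕ} {x : Fin n → ℂ} (h : Flat V e x)
    (hV : ∀ᶠ y in 𝓝 x, y ∈ V' ↔ y ∈ V) {N : Set (Fin n → ℂ)} (hN : N ∈ 𝓝 x) :
    ∃ m, e + m = n ∧ ∃ φ : (Fin e → ℂ) × (Fin m → ℂ) → Fin n → ℂ, IsOpenEmbedding φ ∧ φ 0 = x ∧
      range φ ⊆ N ∧ ∀ u, φ u ∈ V' ↔ u.2 = 0 := by
  obtain ⟨m, hm, φ, h1, rfl, h2⟩ := h
  obtain ⟨χ, k1, k2, k3, k4⟩ := exists_chart 0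
    (h1.continuous.continuousAt.preimage_mem_nhds (inter_mem hV hN))
  refine ⟨m, hm, φ ∘ χ, h1.comp k1, congrArg φ k2, ?_, fun u => ?_⟩
  · rintro _ ⟨u, rfl⟩
    exact (k3 ⟨u, rfl⟩).2
  · exact (k3 ⟨u, rfl⟩).1.trans ((h2 _).trans (k4 u))

/-- Splitting off the first coordinate. -/
def vift_C (n : ℕ) : ℂ × (Fin n → ℂ) ≃ₜ (Fin (n + 1) → ℂ) :=
  (Fin.consEquivL ℂ fun _ : Fin (n + 1) => ℂ).toHomeomorph

theorem Flat.cyl {V : Set (Fin n → ℂ)} {e : ℕ} {x : Fin (n + 1) → ℂ} (h : Flat V e (Fin.tail x)) :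
    Flat {y : Fin (n + 1) → ℂ | Fin.tail y ∈ V} (e + 1) x := by
  obtain ⟨m, hm, φ, h1, h2, h3⟩ := h
  refine ⟨m, by omega, _, (vift_C n).isOpenEmbedding.comp
    (((Homeomorph.addLeft (x 0)).isOpenEmbedding.prodMap h1).comp
      (((vift_C e).symm.prodCongr (Homeomorph.refl _)).trans
        (Homeomorph.prodAssoc _ _ _)).isOpenEmbedding), ?_, fun u => h3 (Fin.tail u.1, u.2)⟩
  change Fin.cons (x 0 + 0) (φ 0) = x
  rw [h2, add_zero, Fin.cons_self_tail]

theorem vift_comp {X Y Z : Type} [TopologicalSpace X] [TopologicalSpace Y] [TopologicalSpace Z]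
    (e : OpenPartialHomeomorph X Y) {g : Z → X} (hg : IsOpenEmbedding g)
    (h : ∀ z, g z ∈ e.source) : IsOpenEmbedding (e ∘ g) :=
  .of_continuous_injective_isOpenMap (e.continuousOn.comp_continuous hg.continuous h)
    (fun a b hab => hg.injective (e.injOn (h a) (h b) hab)) fun U hU => by
      rw [image_comp]
      exact e.isOpen_image_of_subset_source (hg.isOpenMap U hU) (by
        rintro _ ⟨z, -, rfl⟩
        exact h z)

theorem Flat.root {V : Set (Fin n → ℂ)} {e : ℕ} {x : Fin (n + 1) → ℂ} (h : Flat V e (Fin.tail x))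
    {m : MvPolynomial (Fin (n + 1)) ℂ} (h0 : eval x m = 0) (h1 : eval x (pderiv 0 m) ≠ 0) :
    Flat {y : Fin (n + 1) → ℂ | Fin.tail y ∈ V ∧ eval y m = 0} e x := by
  obtain ⟨k, hk, φ, h2, h3, h4⟩ := h
  obtain ⟨E, hx, hE⟩ := ift m h1
  have h5 : IsOpenEmbedding fun u : (Fin e → ℂ) × (Fin (k + 1) → ℂ) =>
      (φ (u.1, Fin.tail u.2), u.2 0) := (h2.prodMap IsOpenEmbedding.id).comp
    (((Homeomorph.refl _).prodCongr ((vift_C k).symm.trans (Homeomorph.prodComm _ _))).trans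
      (Homeomorph.prodAssoc _ _ _).symm).isOpenEmbedding
  have h6 : (φ 0, (0 : ℂ)) = E x := by rw [hE, h3, h0]
  obtain ⟨χ, k1, k2, k3, k4⟩ := exists_chart 0 (h5.continuous.continuousAt.preimage_mem_nhds
    (E.open_target.mem_nhds (show (φ 0, (0 : ℂ)) ∈ _ from h6 ▸ E.map_source hx)))
  refine ⟨k + 1, by omega, _, vift_comp E.symm (h5.comp k1) fun u => k3 ⟨u, rfl⟩, ?_, fun u => ?_⟩
  · simp only [Function.comp_apply, k2]
    exact (congrArg E.symm h6).trans (E.left_inv hx)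
  · have h7 := E.right_inv (k3 ⟨u, rfl⟩)
    rw [hE, Prod.mk.injEq] at h7
    simp only [Function.comp_apply, mem_ofPred_eq, h7.1, h7.2, h4]
    rw [← k4]
    refine ⟨fun h8 => funext fun i => Fin.cases h8.2 (congrFun h8.1) i, fun h8 => ?_⟩
    rw [h8]
    exact ⟨rfl, rfl⟩

end Pool.Agent.PWV
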