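import Pool.Agent.P.MP_65ad7c_ag.VElim
import Pool.Agent.P.MP_65ad7c_ag.VIft

open Set Filter Topology Metric

noncomputable section
namespace Pool.Agent.PWV

open MvPolynomial

/-- a local section gives openness at a point -/
theorem vopen_sec {A B : Type} [TopologicalSpace A] [TopologicalSpace B] {f : A → B} {s : B → A}
    {S : Set A} {T : Set B} {x : A} (hc : ContinuousAt s (f x)) (hx : s (f x) = x)
    (h : ∀ᶠ y in 𝓝[T] (f x), s y ∈ S ∧ f (s y) = y) : 𝓝[T] (f x) ≤ map f (𝓝[S] x) := by
  have h1 : Tendsto s (𝓝[T] (f x)) (𝓝[S] x) := by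
    refine tendsto_nhdsWithin_iff.2 ⟨?_, h.mono fun _ hy => hy.1⟩
    have := hc.tendsto
    rw [hx] at this
    exact this.mono_left nhdsWithin_le_nhds
  have h2 : map (f ∘ s) (𝓝[T] (f x)) = map id (𝓝[T] (f x)) :=
    map_congr (h.mono fun _ hy => hy.2)
  rw [map_id, ← map_map] at h2
  rw [← h2]
  exact map_mono h1

theorem vopen_eval {σ τ : Type} (E : τ → MvPolynomial σ ℂ) (x : σ → ℂ) (f : MvPolynomial τ ℂ) :
    eval x (aeval E f) = eval (pm E x) f := by
  induction f using MvPolynomial.induction_on with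
  | C a => simp
  | add f g hf hg => simp only [map_add, hf, hg]
  | mul_X f i hf => simp only [map_mul, hf, aeval_X, eval_X, pm]

theorem vopen_step {n : ℕ} {p : Ideal (MvPolynomial (Fin (n + 1)) ℂ)} (hp : p.IsPrime) :
    ∃ δ ∉ p, ∀ x ∈ ZI p, eval x δ ≠ 0 →
      𝓝[ZI (p.comap (rename Fin.succ).toRingHom)] (Fin.tail x) ≤
        map (Fin.tail : (Fin (n + 1) → ℂ) → Fin n → ℂ) (𝓝[ZI p] x) := by
  rcases elim hp with h | ⟨δ, hδ, m, h⟩
  · refine ⟨1, fun h1 => hp.ne_top ((Ideal.eq_top_iff_one p).2 h1), fun x _ _ => ?_⟩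
    refine vopen_sec (f := (Fin.tail : (Fin (n + 1) → ℂ) → Fin n → ℂ))
      (s := fun y => Fin.cons (x 0) y) ?_ (Fin.cons_self_tail x) ?_
    · refine Continuous.continuousAt (continuous_pi fun i => ?_)
      refine Fin.cases ?_ (fun i => ?_) i
      · exact continuous_const
      · exact continuous_apply i
    · filter_upwards [self_mem_nhdsWithin] with y hy
      exact ⟨(h _).2 (by rwa [Fin.tail_cons]), Fin.tail_cons _ _⟩
  · refine ⟨rename Fin.succ δ, hδ, fun x hx hxδ => ?_⟩
    rw [eval_rename] at hxδ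
    obtain ⟨h1, h2⟩ := h x hxδ
    obtain ⟨e, hxe, he⟩ := ift m (h2 hx)
    have hex : e x = (Fin.tail x, 0) := by rw [he, (h1.1 hx).2]
    have ht : (Fin.tail x, (0 : ℂ)) ∈ e.target := hex ▸ e.map_source hxe
    have hc : Continuous fun y : Fin n → ℂ => (y, (0 : ℂ)) := continuous_id.prodMk continuous_const
    refine vopen_sec (f := (Fin.tail : (Fin (n + 1) → ℂ) → Fin n → ℂ))
      (s := fun y => e.symm (y, 0)) ?_ ?_ ?_
    · exact (e.continuousAt_symm ht).comp (f := fun y : Fin n → ℂ => (y, (0 : ℂ))) hc.continuousAt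
    · show e.symm (Fin.tail x, 0) = x
      rw [← hex, e.left_inv hxe]
    · have a1 : ∀ᶠ y in 𝓝 (Fin.tail x), (y, (0 : ℂ)) ∈ e.target :=
        hc.continuousAt.eventually (e.open_target.mem_nhds ht)
      have a2 : ∀ᶠ y in 𝓝 (Fin.tail x : Fin n → ℂ), eval y δ ≠ 0 :=
        (MvPolynomial.continuous_eval δ).continuousAt.eventually_ne hxδ
      filter_upwards [self_mem_nhdsWithin, nhdsWithin_le_nhds a1, nhdsWithin_le_nhds a2]
        with y hy b1 b2
      have b3 := e.right_inv b1
      rw [he] at b3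
      have b4 : Fin.tail (e.symm (y, 0)) = y := congrArg Prod.fst b3
      have b5 : eval (e.symm (y, 0)) m = 0 := congrArg Prod.snd b3
      refine ⟨((h _ (by rwa [b4])).1).2 ⟨by rwa [b4], b5⟩, b4⟩

/-- Dropping the first coordinates is generically open on an irreducible variety. -/
theorem proj_open_tail (k j : ℕ) : ∀ p : Ideal (MvPolynomial (Fin (k + j)) ℂ), p.IsPrime →
    ∃ δ ∉ p, ∀ x ∈ ZI p, eval x δ ≠ 0 →
      𝓝[ZI (p.comap (rename fun i : Fin k => i.addNat j).toRingHom)] (fun i => x (i.addNat j)) ≤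
        map (fun y (i : Fin k) => y (i.addNat j)) (𝓝[ZI p] x) := by
  induction j with
  | zero =>
    intro p hp
    refine ⟨1, fun h1 => hp.ne_top ((Ideal.eq_top_iff_one p).2 h1), fun x _ _ => ?_⟩
    refine vopen_sec (f := fun (y : Fin (k + 0) → ℂ) (i : Fin k) => y (i.addNat 0))
      (s := fun y => y) continuous_id.continuousAt rfl ?_
    filter_upwards [self_mem_nhdsWithin] with y hy
    refine ⟨fun f hf => hy f ?_, rfl⟩
    show rename (id : Fin k → Fin k) f ∈ p
    rwa [rename_id_apply]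
  | succ j ih =>
    intro p hp
    obtain ⟨δ₁, h1, k1⟩ := vopen_step (n := k + j) hp
    have hp' : (p.comap (rename (R := ℂ) (Fin.succ (n := k + j))).toRingHom).IsPrime :=
      Ideal.comap_isPrime _ p
    obtain ⟨δ₂, h2, k2⟩ := ih _ hp'
    refine ⟨δ₁ * rename Fin.succ δ₂, fun h => (hp.mem_or_mem h).elim h1 h2, fun x hx hδ => ?_⟩
    rw [map_mul, eval_rename] at hδ
    have hx' : Fin.tail x ∈ ZI (p.comap (rename (R := ℂ) (Fin.succ (n := k + j))).toRingHom) := by
      intro f hf
      have := hx _ hf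
      exact (eval_rename _ _ _).symm.trans this
    have e : (p.comap (rename (R := ℂ) (Fin.succ (n := k + j))).toRingHom).comap
        (rename (R := ℂ) fun i : Fin k => i.addNat j).toRingHom
        = p.comap (rename (R := ℂ) fun i : Fin k => i.addNat (j + 1)).toRingHom := by
      ext f
      show rename Fin.succ (rename (fun i : Fin k => i.addNat j) f) ∈ p ↔ _
      rw [rename_rename]
      rfl
    have k3 := (k2 _ hx' (right_ne_zero_of_mul hδ)).trans
      (map_mono (k1 x hx (left_ne_zero_of_mul hδ)))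
    rw [e, map_map] at k3
    exact k3

/-- A polynomial map on an irreducible variety is generically open onto the closure of its image. -/
theorem proj_open {N k : ℕ} (G : Fin k → MvPolynomial (Fin N) ℂ)
    {p : Ideal (MvPolynomial (Fin N) ℂ)} (hp : p.IsPrime) :
    ∃ δ ∉ p, ∀ x ∈ ZI p, eval x δ ≠ 0 →
      𝓝[ZI (p.comap (aeval G).toRingHom)] (pm G x) ≤ map (pm G) (𝓝[ZI p] x) := by
  obtain ⟨E, hE1, hE2⟩ : ∃ E : Fin (k + N) → MvPolynomial (Fin N) ℂ,
      (∀ i : Fin k, E (i.addNat N) = G i) ∧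
        ∀ i : Fin N, E (i.castLE (Nat.le_add_left N k)) = X i := by
    refine ⟨fun i => if h : i.1 < N then X ⟨i.1, h⟩ else G ⟨i.1 - N, by omega⟩,
      fun i => ?_, fun i => ?_⟩
    · have h : ¬ (i.addNat N).1 < N := by simp
      simp only [dif_neg h]
      exact congrArg G (Fin.ext (by simp))
    · have h : (i.castLE (Nat.le_add_left N k)).1 < N := i.2
      simp only [dif_pos h]
      rfl
  have hr : ∀ f : MvPolynomial (Fin N) ℂ,
      aeval E (rename (Fin.castLE (Nat.le_add_left N k)) f) = f := by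
    intro f
    rw [aeval_rename, show E ∘ Fin.castLE (Nat.le_add_left N k) = X from funext hE2, aeval_X_left]
    rfl
  have hp' : (p.comap (aeval (R := ℂ) E).toRingHom).IsPrime := Ideal.comap_isPrime _ p
  obtain ⟨δ, h1, k1⟩ := proj_open_tail k N _ hp'
  refine ⟨aeval E δ, h1, fun x hx hδ => ?_⟩
  rw [vopen_eval] at hδ
  have hx' : pm E x ∈ ZI (p.comap (aeval (R := ℂ) E).toRingHom) := fun f hf =>
    (vopen_eval E x f).symm.trans (hx _ hf)
  have e : (p.comap (aeval (R := ℂ) E).toRingHom).comap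
      (rename (R := ℂ) fun i : Fin k => i.addNat N).toRingHom =
      p.comap (aeval (R := ℂ) G).toRingHom := by
    ext f
    show aeval E (rename (fun i : Fin k => i.addNat N) f) ∈ p ↔ aeval G f ∈ p
    rw [aeval_rename, show (E ∘ fun i : Fin k => i.addNat N) = G from funext hE1]
  have e2 : ((fun (y : Fin (k + N) → ℂ) (i : Fin k) => y (i.addNat N)) ∘ pm E) = pm G := by
    funext y i
    simp only [Function.comp, pm, hE1]
  have k2 : 𝓝[ZI (p.comap (aeval (R := ℂ) E).toRingHom)] (pm E x) ≤ map (pm E) (𝓝[ZI p] x) := by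
    refine vopen_sec (s := fun y => y ∘ Fin.castLE (Nat.le_add_left N k)) ?_ ?_ ?_
    · exact (continuous_pi fun i => continuous_apply _).continuousAt
    · funext i
      simp only [Function.comp, pm, hE2, eval_X]
    · filter_upwards [self_mem_nhdsWithin] with y hy
      refine ⟨fun f hf => ?_, funext fun i => ?_⟩
      · rw [← eval_rename]
        refine hy _ ?_
        show aeval E (rename _ f) ∈ p
        rwa [hr]
      · have := hy (rename (Fin.castLE (Nat.le_add_left N k)) (E i) - X i) (by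
          show aeval E (rename _ (E i) - X i) ∈ p
          rw [map_sub, hr, aeval_X, sub_self]
          exact p.zero_mem)
        rw [map_sub, eval_rename, eval_X, sub_eq_zero] at this
        exact this
  have k3 := (k1 _ hx' hδ).trans (map_mono k2)
  rw [e, map_map, e2] at k3
  rw [← congrFun e2 x]
  exact k3

end Pool.Agent.PWV
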