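import Pool.Agent.P.MP_65ad7c_ag.VInt

open Set Filter Topology Metric

noncomputable section
namespace Pool.Agent.PWV

open MvPolynomial

variable {n : ℕ} {τ : Type}

theorem Dim.ratm {A : Set (Fin n → ℂ)} {k : ℕ} (hA : Dim A k) (f : τ → MvPolynomial (Fin n) ℂ)
    {h : MvPolynomial (Fin n) ℂ} (h0 : ∀ x ∈ A, eval x h ≠ 0) : Dim (ratm f h '' A) k := by
  rcases A.eq_empty_or_nonempty with rfl | ⟨x₀, hx₀⟩
  · rw [image_empty]
    exact dim_empty k
  have hh : h ≠ 0 := fun e => h0 x₀ hx₀ (by rw [e, map_zero])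
  have h1 := dim_roots' (Polynomial.C h * Polynomial.X + Polynomial.C (-1)) hA fun x hx => by
    rw [Polynomial.leadingCoeff_linear hh]
    exact h0 x hx
  refine (h1.image fun i => X 0 * rename Fin.succ (f i)).mono ?_
  rintro _ ⟨y, hy, rfl⟩
  refine ⟨Fin.cons (eval y h)⁻¹ y, ⟨by rwa [Fin.tail_cons], ?_⟩, funext fun i => ?_⟩
  · simp [rt, mul_inv_cancel₀ (h0 y hy)]
  · have e : (Fin.cons (eval y h)⁻¹ y : Fin (n + 1) → ℂ) ∘ Fin.succ = y := funext fun j => by simp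
    simp only [map_mul, eval_X, eval_rename, e, Fin.cons_zero, PWV.ratm]
    rw [div_eq_inv_mul]

/-- Clearing denominators. -/
theorem ratm_clear {σ : Type} (f : τ → MvPolynomial σ ℂ) (h : MvPolynomial σ ℂ)
    (g : MvPolynomial τ ℂ) : ∃ (k : ℕ) (F : MvPolynomial σ ℂ),
      ∀ x, eval x h ≠ 0 → eval x F = eval x h ^ k * eval (ratm f h x) g := by
  induction g using MvPolynomial.induction_on with
  | C a => exact ⟨0, C a, fun x _ => by simp⟩
  | add p q hp hq =>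
    obtain ⟨k, F, h1⟩ := hp
    obtain ⟨l, G, h2⟩ := hq
    refine ⟨k + l, h ^ l * F + h ^ k * G, fun x hx => ?_⟩
    simp only [map_add, map_mul, map_pow, h1 x hx, h2 x hx]
    ring
  | mul_X p i hp =>
    obtain ⟨k, F, h1⟩ := hp
    refine ⟨k + 1, F * f i, fun x hx => ?_⟩
    simp only [map_mul, eval_X, h1 x hx, PWV.ratm]
    field_simp
    ring

theorem ZC.ratm {σ : Type} {V : Set (τ → ℂ)} (hV : ZC V) (f : τ → MvPolynomial σ ℂ)
    (h : MvPolynomial σ ℂ) {x : σ → ℂ} (hx : eval x h ≠ 0)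
    (hz : x ∈ zcl {y | eval y h ≠ 0 ∧ ratm f h y ∈ V}) : ratm f h x ∈ V := by
  obtain ⟨S, rfl⟩ := hV
  intro g hg
  obtain ⟨k, F, h1⟩ := ratm_clear f h g
  have h2 := hz F fun y hy => by rw [h1 y hy.1, hy.2 g hg, mul_zero]
  rw [h1 x hx] at h2
  exact (mul_eq_zero.1 h2).resolve_left (pow_ne_zero k hx)

/-- A polynomial that is not in `p` and vanishes on `W`, if `ZI p` is not contained in `W`. -/
theorem ZC.exists_not_mem {σ : Type} {W : Set (σ → ℂ)} (hW : ZC W)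
    {p : Ideal (MvPolynomial σ ℂ)} (h : ¬ ZI p ⊆ W) : ∃ δ ∉ p, ∀ x ∈ W, eval x δ = 0 := by
  obtain ⟨S, rfl⟩ := hW
  by_contra hc
  refine h fun x hx g hg => hx g ?_
  by_contra hp
  exact hc ⟨g, hp, fun y hy => hy g hg⟩

end Pool.Agent.PWV
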