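import Pool.Agent.P.MP_65ad7c_ag.XA6

open Set Filter Topology Asymptotics
open scoped ComplexConjugate

noncomputable section
namespace Pool.Agent.HIR

variable {n : ℕ}

theorem exists_coords (W : Submodule ℂ (E n)) (S : Finset (Fin n))
    (hS : ∀ y : E n, ∃ v ∈ W, ∀ i ∈ S, v i = y i) :
    ∃ R : Finset (Fin n), S ⊆ R ∧ R.card = Module.finrank ℂ W ∧
      (∀ y : E n, ∃ v ∈ W, ∀ i ∈ R, v i = y i) ∧ ∀ v ∈ W, (∀ i ∈ R, v i = 0) → v = 0 := by
  classical
  obtain ⟨R, hR, hmax⟩ := Finset.exists_max_image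
    (Finset.univ.filter fun R : Finset (Fin n) =>
      S ⊆ R ∧ ∀ y : E n, ∃ v ∈ W, ∀ i ∈ R, v i = y i) Finset.card
    ⟨S, Finset.mem_filter.2 ⟨Finset.mem_univ _, Finset.Subset.refl _, hS⟩⟩
  obtain ⟨-, hSR, hsur⟩ := Finset.mem_filter.1 hR
  have hinj : ∀ v ∈ W, (∀ i ∈ R, v i = 0) → v = 0 := by
    intro v hv h0
    by_contra hne
    obtain ⟨j, hj⟩ : ∃ j, v j ≠ 0 := Function.ne_iff.1 hne
    have hjR : j ∉ R := fun h => hj (h0 j h)
    have h3 := hmax (insert j R) (Finset.mem_filter.2 ⟨Finset.mem_univ _,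
      hSR.trans (Finset.subset_insert _ _), fun y => by
        obtain ⟨u, hu, huy⟩ := hsur y
        refine ⟨u + ((y j - u j) / v j) • v, W.add_mem hu (W.smul_mem _ hv), fun i hi => ?_⟩
        rcases Finset.mem_insert.1 hi with rfl | hi
        · simp only [Pi.add_apply, Pi.smul_apply, smul_eq_mul]
          rw [div_mul_cancel₀ _ hj]; ring
        · simp only [Pi.add_apply, Pi.smul_apply, smul_eq_mul, h0 i hi, huy i hi]
          ring⟩)
    rw [Finset.card_insert_of_notMem hjR] at h3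
    omega
  refine ⟨R, hSR, ?_, hsur, hinj⟩
  let P : W →ₗ[ℂ] (R → ℂ) := (LinearMap.funLeft ℂ ℂ (fun i : R => (i : Fin n))) ∘ₗ W.subtype
  have hP : Function.Bijective P := by
    constructor
    · rw [injective_iff_map_eq_zero]
      intro v hv
      exact Subtype.ext (hinj v.1 v.2 fun i hi => congrFun hv ⟨i, hi⟩)
    · intro y
      obtain ⟨v, hv, hvy⟩ := hsur fun i => if h : i ∈ R then y ⟨i, h⟩ else 0
      refine ⟨⟨v, hv⟩, funext fun i => ?_⟩
      have := hvy i.1 i.2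
      rw [dif_pos i.2] at this
      exact this
  rw [(LinearEquiv.ofBijective P hP).finrank_eq, Module.finrank_fintype_fun_eq_card,
    Fintype.card_coe]

/-- the tangent space of `C` projects isomorphically onto a coordinate subspace -/
theorem exists_compl (L : E n →L[ℂ] E n) (hL : ∀ v, L v = 0 → v = 0) (T₀ T₁ T₂ : Finset (Fin n))
    (h1 : ∀ v, (∀ i ∈ T₀, L v i = 0) → ∀ i ∈ T₁, v i = 0) (c : Fin n → Fin n)
    (hc : InjOn c T₂) (hc0 : ∀ i ∈ T₂, c i ∉ T₀)
    (h2 : ∀ i ∈ T₂, ∃ u : ℂ, u ≠ 0 ∧ ∀ v, L v (c i) = u * v i) :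
    ∃ T : Finset (Fin n), T₁ ⊆ T ∧ Disjoint T T₂ ∧ T.card = T₀.card ∧
      ∀ v, (∀ i ∈ T₀, L v i = 0) → (∀ i ∉ T, v i = 0) → v = 0 := by
  classical
  have hinj : Function.Injective (L : E n →ₗ[ℂ] E n) := (injective_iff_map_eq_zero _).2 hL
  have hsur : Function.Surjective (L : E n →ₗ[ℂ] E n) :=
    LinearMap.injective_iff_surjective.1 hinj
  let P : E n →ₗ[ℂ] (T₀ → ℂ) :=
    (LinearMap.funLeft ℂ ℂ (fun i : T₀ => (i : Fin n))) ∘ₗ (L : E n →ₗ[ℂ] E n)
  have hker : ∀ v, v ∈ LinearMap.ker P ↔ ∀ i ∈ T₀, L v i = 0 := fun v =>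
    ⟨fun h i hi => congrFun (LinearMap.mem_ker.1 h) ⟨i, hi⟩,
      fun h => LinearMap.mem_ker.2 (funext fun i => h i.1 i.2)⟩
  have hPs : Function.Surjective P :=
    (LinearMap.funLeft_surjective_of_injective ℂ ℂ _ Subtype.val_injective).comp hsur
  have hrk := LinearMap.finrank_range_add_finrank_ker P
  rw [LinearMap.range_eq_top.2 hPs, finrank_top, Module.finrank_fintype_fun_eq_card,
    Module.finrank_fintype_fun_eq_card, Fintype.card_coe, Fintype.card_fin] at hrk
  choose! u hu0 hu using h2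
  obtain ⟨R, hTR, hcard, hRs, hRi⟩ := exists_coords (LinearMap.ker P) T₂ fun y => by
    obtain ⟨v, hv⟩ := hsur (∑ i ∈ T₂, Pi.single (c i) (u i * y i))
    have hv' : L v = ∑ i ∈ T₂, Pi.single (c i) (u i * y i) := hv
    refine ⟨v, (hker v).2 fun j hj => ?_, fun i hi => ?_⟩
    · rw [hv', Finset.sum_apply]
      refine Finset.sum_eq_zero fun i hi => ?_
      exact Pi.single_eq_of_ne (fun h : j = c i => hc0 i hi (h ▸ hj)) _
    · apply mul_left_cancel₀ (hu0 i hi)
      rw [← hu i hi v, hv', Finset.sum_apply, Finset.sum_eq_single_of_mem i hi]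
      · exact Pi.single_eq_same _ _
      · intro k hk hki
        exact Pi.single_eq_of_ne (fun h => hki (hc hk hi h.symm)) _
  refine ⟨Rᶜ, fun i hi => Finset.mem_compl.2 fun hiR => ?_, ?_, ?_, fun v hv h0 => ?_⟩
  · obtain ⟨v, hv, h3⟩ := hRs fun _ => 1
    have h4 := h1 v ((hker v).1 hv) i hi
    rw [h3 i hiR] at h4
    exact one_ne_zero h4
  · exact Finset.disjoint_left.2 fun i hi h => Finset.mem_compl.1 hi (hTR h)
  · rw [Finset.card_compl, Fintype.card_fin]
    omega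
  · exact hRi v ((hker v).2 hv) fun i hi => h0 i fun h => Finset.mem_compl.1 h hi

/-- straightening -/
theorem straighten {χ ψ : E n → E n} {z y : E n} (hb : Bi χ ψ z y) {K T₀ T₁ T₂ : Finset (Fin n)}
    (hy : ∀ i ∈ T₀, y i = 0) (hK : K ⊆ T₁)
    (h1 : ∀ᶠ w in 𝓝 z, (∀ i ∈ T₀, χ w i = 0) → ∀ i ∈ T₁, w i = 0) (c : Fin n → Fin n)
    (hc : InjOn c T₂) (hc0 : ∀ i ∈ T₂, c i ∉ T₀) (hz : ∀ i ∈ T₂, z i = 0)
    (h2 : ∀ i ∈ T₂, ∀ᶠ w in 𝓝 z, w i = 0 ↔ χ w (c i) = 0) :
    ∃ (τ σ : E n → E n) (T : Finset (Fin n)), Bi τ σ z (τ z) ∧ Ty3 τ z K (T₁ ∪ T₂) ∧ T₁ ⊆ T ∧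
      Disjoint T T₂ ∧ T.card = T₀.card ∧
      ∀ᶠ w in 𝓝 z, (∀ i ∈ T₀, χ w i = 0) ↔ ∀ i ∈ T, τ w i = 0 := by
  classical
  have hT1 : ∀ᶠ w in 𝓝 y, (∀ i ∈ T₀, w i = 0) → ∀ i ∈ T₁, ψ w i = 0 := by
    filter_upwards [hb.symm.tendsto.eventually h1, hb.right] with w hw hw' h0
    exact hw (by rw [hw']; exact h0)
  obtain ⟨T, hT₁, hT₂, hcard, hinj⟩ := exists_compl (fderiv ℂ χ z)
    (fun v hv => by rw [← hb.left_d v, hv, map_zero]) T₀ T₁ T₂
    (fun v hv i hi => by
      have := hb.symm.tan hy hT1 hv i hi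
      rwa [hb.left_d] at this) c hc hc0
    (fun i hi => by
      obtain ⟨u, hu, hu0, he⟩ := hb.unit (hz i hi) (h2 i hi)
      refine ⟨u z, hu0, fun v => ?_⟩
      have hd : HasFDerivAt (co i : E n → ℂ)
          (ContinuousLinearMap.proj (R := ℂ) (φ := fun _ : Fin n => ℂ) i) z :=
        (ContinuousLinearMap.proj (R := ℂ) (φ := fun _ : Fin n => ℂ) i).hasFDerivAt
      rw [← hb.fderiv_co, he.fderiv_eq, (hu.differentiableAt.hasFDerivAt.mul hd).fderiv]
      simp [co, hz i hi])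
  let s : T ≃ T₀ := Finset.equivOfCardEq hcard
  let Φ : E n → E n := fun w i => if h : i ∈ T then χ w (s ⟨i, h⟩) else w i
  have hΦ1 : ∀ w (j : T₀), Φ w (s.symm j) = χ w j := fun w j => by
    simp only [Φ]
    rw [dif_pos (s.symm j).2]
    simp
  have hΦ2 : ∀ w, ∀ i ∉ T, Φ w i = w i := fun w i hi => dif_neg hi
  have hΦ3 : ∀ w, (∀ i ∈ T₀, χ w i = 0) → Φ w = rho T w := fun w hw => by
    funext i
    by_cases h : i ∈ T
    · simp only [Φ, rho, dif_pos h, if_pos h]
      exact hw _ (s ⟨i, h⟩).2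
    · simp only [Φ, rho, dif_neg h, if_neg h]
  have hΦa : AnalyticAt ℂ Φ z := by
    refine analyticAt_pi_iff.2 fun i => ?_
    by_cases h : i ∈ T
    · simp only [dif_pos h]
      exact analyticAt_pi_iff.1 hb.an _
    · simp only [dif_neg h]
      exact an_co i z
  obtain ⟨Ψ, hΨ⟩ := bi_of_inj hΦa fun v hv => by
    have hd : ∀ i, fderiv ℂ (fun w => Φ w i) z v = 0 := fun i => by
      rw [(hasFDerivAt_pi'.1 hΦa.differentiableAt.hasFDerivAt i).fderiv]
      exact congrFun hv i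
    refine hinj v (fun j hj => ?_) fun i hi => ?_
    · have e : (fun w => Φ w (s.symm ⟨j, hj⟩)) = co j ∘ χ := funext fun w => hΦ1 w ⟨j, hj⟩
      have := hd (s.symm ⟨j, hj⟩)
      rwa [e, hb.fderiv_co] at this
    · have e : (fun w => Φ w i) =
          (ContinuousLinearMap.proj (R := ℂ) (φ := fun _ : Fin n => ℂ) i) :=
        funext fun w => hΦ2 w i hi
      have := hd i
      rwa [e, ContinuousLinearMap.fderiv] at this
  have hΦz : Φ z = rho T z := hΦ3 z fun i hi => by rw [hb.map]; exact hy i hi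
  rw [hΦz] at hΨ
  let τ : E n → E n := fun w i => if i ∈ T then w i - Ψ (rho T w) i else w i
  let σ : E n → E n := fun w i => if i ∈ T then w i + Ψ (rho T w) i else w i
  have hrτ : ∀ w, rho T (τ w) = rho T w := fun w => by
    funext i
    by_cases h : i ∈ T <;> simp only [τ, rho, h, if_true, if_false]
  have hrσ : ∀ w, rho T (σ w) = rho T w := fun w => by
    funext i
    by_cases h : i ∈ T <;> simp only [σ, rho, h, if_true, if_false]
  have hστ : ∀ w, σ (τ w) = w := fun w => by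
    funext i
    show (if i ∈ T then τ w i + Ψ (rho T (τ w)) i else τ w i) = w i
    rw [hrτ]
    by_cases h : i ∈ T <;> simp only [τ, h, if_true, if_false]
    ring
  have hτσ : ∀ w, τ (σ w) = w := fun w => by
    funext i
    show (if i ∈ T then σ w i - Ψ (rho T (σ w)) i else σ w i) = w i
    rw [hrσ]
    by_cases h : i ∈ T <;> simp only [σ, h, if_true, if_false]
    ring
  have hpa : ∀ x, rho T x = rho T z → ∀ i, AnalyticAt ℂ (fun w => Ψ (rho T w) i) x := by
    intro x hx i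
    have h3 : AnalyticAt ℂ Ψ (rho T x) := by rw [hx]; exact hΨ.an'
    exact analyticAt_pi_iff.1 (h3.comp (an_rho T x)) i
  have hpt : Tendsto (fun w => Ψ (rho T w)) (𝓝 z) (𝓝 z) :=
    hΨ.symm.tendsto.comp (an_rho T z).continuousAt
  have hpr : ∀ᶠ w in 𝓝 z, Φ (Ψ (rho T w)) = rho T w :=
    (an_rho T z).continuousAt.eventually hΨ.right
  have hpC : ∀ w, Φ (Ψ (rho T w)) = rho T w → ∀ j ∈ T₀, χ (Ψ (rho T w)) j = 0 := by
    intro w hw j hj
    have h3 := hΦ1 (Ψ (rho T w)) ⟨j, hj⟩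
    rw [hw] at h3
    rw [← h3]
    exact if_pos (s.symm ⟨j, hj⟩).2
  refine ⟨τ, σ, T, ⟨?_, ?_, rfl, hστ z, Eventually.of_forall hστ, Eventually.of_forall hτσ⟩,
    ⟨hK.trans Finset.subset_union_left, fun i hi => ?_, fun i hi => ?_⟩, hT₁, hT₂, hcard, ?_⟩
  · refine analyticAt_pi_iff.2 fun i => ?_
    by_cases h : i ∈ T
    · simp only [if_pos h]
      exact (an_co i z).sub (hpa z rfl i)
    · simp only [if_neg h]
      exact an_co i z
  · refine analyticAt_pi_iff.2 fun i => ?_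
    by_cases h : i ∈ T
    · simp only [if_pos h]
      exact (an_co i _).add (hpa _ (hrτ z) i)
    · simp only [if_neg h]
      exact an_co i _
  · rcases Finset.mem_union.1 hi with hi | hi
    · filter_upwards [hpt.eventually h1, hpr] with w hw hw'
      show τ w i = w i
      simp only [τ, if_pos (hT₁ hi), hw (hpC w hw') i hi, sub_zero]
    · refine Eventually.of_forall fun w => ?_
      exact if_neg (Finset.disjoint_right.1 hT₂ hi)
  · refine Eventually.of_forall fun w => ?_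
    have e : rho T (rho K w) = rho T w := by
      funext k
      by_cases h : k ∈ T
      · simp only [rho, if_pos h]
      · simp only [rho, if_neg h, if_neg fun h' : k ∈ K => h (hT₁ (hK h'))]
    have e2 : rho K w i = w i := if_neg hi
    show (if i ∈ T then rho K w i - Ψ (rho T (rho K w)) i else rho K w i) =
      if i ∈ T then w i - Ψ (rho T w) i else w i
    rw [e, e2]
  · filter_upwards [hΨ.left, hpr] with w hw hw'
    constructor
    · intro h i hi
      rw [hΦ3 w h] at hw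
      simp only [τ, if_pos hi, hw, sub_self]
    · intro h
      have e : Ψ (rho T w) = w := by
        funext i
        by_cases hi : i ∈ T
        · have := h i hi
          simp only [τ, if_pos hi] at this
          exact (sub_eq_zero.1 this).symm
        · rw [← hΦ2 (Ψ (rho T w)) i hi, hw']
          exact if_neg hi
      have := hpC w hw'
      rwa [e] at this

end Pool.Agent.HIR
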