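import Pool.Agent.P.MP_65ad7c_ag.XG1

open Set Filter Topology Asymptotics
open scoped ComplexConjugate
open Pool.Agent.HT (Amb proj cj IsChart IsSNC)

noncomputable section
namespace Pool.Agent.HIR

variable {e M N : ℕ} {X : Set (Amb M)} {ph : Amb M → Amb N}

theorem fix_XG3 {u : Fin N → ℂ} (hu : u ≠ 0) (v : Fin N → ℂ) :
    (fun i => ∑ k, proj u (i, k) * v k) = v ↔ ∃ t : ℂ, v = t • u := by
  have hs : (∑ k, u k * conj (u k)) ≠ 0 := by
    obtain ⟨k, hk⟩ := Function.ne_iff.1 hu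
    intro h0
    refine hk ((proj_diag hu k).1 ?_)
    show u k * conj (u k) / ∑ k, u k * conj (u k) = 0
    rw [h0, div_zero]
  have e1 : ∀ i, ∑ k, proj u (i, k) * v k =
      ((∑ k, conj (u k) * v k) / ∑ k, u k * conj (u k)) * u i := by
    intro i
    rw [Finset.sum_div, Finset.sum_mul]
    refine Finset.sum_congr rfl fun k _ => ?_
    show u i * conj (u k) / (∑ k, u k * conj (u k)) * v k = _
    ring
  constructor
  · intro h
    exact ⟨_, funext fun i => ((congrFun h i).symm.trans (e1 i))⟩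
  · rintro ⟨t, rfl⟩
    funext i
    have e2 : ∑ k, conj (u k) * (t • u) k = t * ∑ k, u k * conj (u k) := by
      rw [Finset.mul_sum]
      refine Finset.sum_congr rfl fun k _ => ?_
      rw [Pi.smul_apply, smul_eq_mul]
      ring
    rw [e1, e2, mul_div_cancel_right₀ _ hs]
    rfl

theorem fderiv_XG3 {g : E e → Fin N → ℂ} {w : E e} (hg : AnalyticAt ℂ g w) (t s : ℂ) (v : E e) :
    fderiv ℂ (fun u : ℂ × E e => u.1 • g u.2) (t, w) (s, v) = t • fderiv ℂ g w v + s • g w := by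
  have h1 : HasFDerivAt (fun u : ℂ × E e => g u.2)
      ((fderiv ℂ g w).comp (ContinuousLinearMap.snd ℂ ℂ (E e))) (t, w) :=
    HasFDerivAt.comp (t, w) (g := g) (f := Prod.snd) hg.differentiableAt.hasFDerivAt
      hasFDerivAt_snd
  have h2 := (hasFDerivAt_fst (𝕜 := ℂ) (p := ((t, w) : ℂ × E e))).smul h1
  have h3 : fderiv ℂ (fun u : ℂ × E e => u.1 • g u.2) (t, w) = _ := h2.fderiv
  rw [h3]
  simp

theorem imm_iff_XG3 {g : E e → Fin N → ℂ} {w : E e} (hg : AnalyticAt ℂ g w) (h0 : g w ≠ 0)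
    {t : ℂ} (ht : t ≠ 0) :
    Function.Injective (fderiv ℂ (fun u : ℂ × E e => u.1 • g u.2) (t, w)) ↔
      ∀ (v : E e) (c : ℂ), fderiv ℂ g w v = c • g w → v = 0 := by
  rw [injective_iff_map_eq_zero]
  constructor
  · intro h v c hv
    have := h (-(t * c), v) (by rw [fderiv_XG3 hg, hv, smul_smul, neg_smul, add_neg_cancel])
    exact congrArg Prod.snd this
  · rintro h ⟨s, v⟩ hv
    rw [fderiv_XG3 hg] at hv
    have h1 : v = 0 := by
      refine h v (-(s / t)) (smul_right_injective _ ht ?_)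
      show t • fderiv ℂ g w v = t • (-(s / t)) • g w
      rw [smul_smul, mul_neg, mul_div_cancel₀ _ ht, neg_smul]
      exact eq_neg_of_add_eq_zero_left hv
    rw [h1, map_zero, smul_zero, zero_add] at hv
    rw [h1, (smul_eq_zero.1 hv).resolve_right h0]
    rfl

theorem ind_XG3 {φ : E e → Amb M} {z : E e} {x : Amb M} {g : E e → Fin N → ℂ}
    (hp : Pt X φ z x) (hg : AnalyticAt ℂ g z) (h0 : g z ≠ 0) (he : ph ∘ φ =ᶠ[𝓝 z] proj ∘ g)
    (hi : ImmP e X ph x) : ∀ (v : E e) (c : ℂ), fderiv ℂ g z v = c • g z → v = 0 := by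
  obtain ⟨φ', z', g', hp', hg', h0', he', hi'⟩ := hi
  obtain ⟨τ, σ, hb, e1, -⟩ := hp.trans hp'
  obtain ⟨k, hk⟩ := Function.ne_iff.1 h0'
  have hgτ : AnalyticAt ℂ (g' ∘ τ) z := AnalyticAt.comp (by rw [hb.map]; exact hg') hb.an
  have hz : (g' ∘ τ) z = g' z' := by rw [Function.comp_apply, hb.map]
  have hk1 : AnalyticAt ℂ (fun w => g w k) z := analyticAt_pi_iff.1 hg k
  have hk2 : AnalyticAt ℂ (fun w => (g' ∘ τ) w k) z := analyticAt_pi_iff.1 hgτ k
  have hk3 : (g' ∘ τ) z k ≠ 0 := by rw [hz]; exact hk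
  have hl : AnalyticAt ℂ (fun w => g w k / (g' ∘ τ) w k) z := hk1.div hk2 hk3
  have hev : g =ᶠ[𝓝 z] fun w => (g w k / (g' ∘ τ) w k) • (g' ∘ τ) w := by
    filter_upwards [he, e1, hb.tendsto.eventually he', hg.continuousAt.eventually_ne h0,
      hk2.continuousAt.eventually_ne hk3] with w a1 a2 a3 a4 a5
    have a6 : (g' ∘ τ) w ≠ 0 := fun h => a5 (congrFun h k)
    have a7 : proj ((g' ∘ τ) w) = proj (g w) :=
      a3.symm.trans ((congrArg ph a2).trans a1)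
    obtain ⟨c, -, hc⟩ := (proj_eq_iff a6 a4).1 a7
    have a8 : g w k = c * (g' ∘ τ) w k := congrFun hc k
    rw [a8, mul_div_cancel_right₀ _ a5]
    exact hc
  intro v c hv
  have hgz := hev.self_of_nhds
  set l := g z k / (g' ∘ τ) z k with hl0
  have hl1 : l ≠ 0 := fun h => h0 (by rw [hgz]; show l • _ = 0; rw [h, zero_smul])
  have hd := (hl.differentiableAt.hasFDerivAt.smul hgτ.differentiableAt.hasFDerivAt).fderiv
  have hd' : fderiv ℂ g z = _ := hev.fderiv_eq.trans hd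
  have hc : fderiv ℂ (g' ∘ τ) z v = fderiv ℂ g' z' (fderiv ℂ τ z v) := by
    rw [fderiv_comp z (by rw [hb.map]; exact hg'.differentiableAt) hb.an.differentiableAt, hb.map]
    rfl
  have h1 : l • fderiv ℂ g' z' (fderiv ℂ τ z v) +
      fderiv ℂ (fun w => g w k / (g' ∘ τ) w k) z v • g' z' = (c * l) • g' z' := by
    rw [mul_smul, ← hc, ← hz]
    have h2 : l • (g' ∘ τ) z = g z := hgz.symm
    rw [h2, ← hv, hd']
    simp [hl0]
  have h3 : fderiv ℂ τ z v = 0 := by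
    refine hi' _ ((c * l - fderiv ℂ (fun w => g w k / (g' ∘ τ) w k) z v) / l)
      (smul_right_injective _ hl1 ?_)
    show l • _ = l • _
    rw [smul_smul, mul_div_cancel₀ _ hl1, sub_smul]
    exact eq_sub_of_add_eq h1
  rw [← hb.left_d v, h3, map_zero]

theorem cover_XG3 (hX : Mf e X) (hph : HolP e X ph) :
    ∃ (J : Type) (_ : Countable J) (φ : J → E e → Amb M) (g : J → E e → Fin N → ℂ)
      (O : J → Set (E e)) (z : J → E e), (∀ j, z j ∈ O j ∧ IsOpen (O j) ∧ InjOn (φ j) (O j) ∧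
        ∀ w ∈ O j, Pt X (φ j) w (φ j w) ∧ AnalyticAt ℂ (g j) w ∧ g j w ≠ 0 ∧
          ph (φ j w) = proj (g j w)) ∧ ∀ x ∈ X, ∃ j, ∃ w ∈ O j, φ j w = x := by
  have h1 : ∀ x ∈ X, ∃ (φ : E e → Amb M) (g : E e → Fin N → ℂ) (O : Set (E e)) (z : E e),
      (z ∈ O ∧ IsOpen O ∧ InjOn φ O ∧ ∀ w ∈ O, Pt X φ w (φ w) ∧ AnalyticAt ℂ g w ∧ g w ≠ 0 ∧
        ph (φ w) = proj (g w)) ∧ φ '' O ∈ 𝓝[X] x := by
    intro x hx
    obtain ⟨φ, z, hp⟩ := hX.chart x hx
    obtain ⟨g, hg, h0, he⟩ := hph φ z x hp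
    obtain ⟨ι, hι⟩ := hp.inv
    obtain ⟨O, hO, ho, hz⟩ := eventually_nhds_iff.1 (hι.and (hp.ev.and
      (hg.eventually_analyticAt.and ((hg.continuousAt.eventually_ne h0).and he))))
    refine ⟨φ, g, O, z, ⟨hz, ho, fun a ha b hb hab => ?_, fun w hw => (hO w hw).2⟩, ?_⟩
    · rw [← (hO a ha).1, ← (hO b hb).1, hab]
    · rw [← hp.map]
      exact image_mem_map (ho.mem_nhds hz)
  choose φ g O z h2 h3 using h1
  obtain ⟨t, ht⟩ := hX.compact.elim_nhdsWithin_subcover' _ h3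
  refine ⟨t, inferInstance, fun j => φ j.1 j.1.2, fun j => g j.1 j.1.2, fun j => O j.1 j.1.2,
    fun j => z j.1 j.1.2, fun j => h2 j.1 j.1.2, fun x hx => ?_⟩
  obtain ⟨y, hy, w, hw, e1⟩ := mem_iUnion₂.1 (ht hx)
  exact ⟨⟨y, hy⟩, w, hw, e1⟩

/-- the total space of the tautological bundle -/
def tot_XG3 (X : Set (Amb M)) (ph : Amb M → Amb N) : Set (Amb M × (Fin N → ℂ)) :=
  {p | p ∈ X ×ˢ univ ∧ (fun i => ∑ k, ph p.1 (i, k) * p.2 k) = p.2}

theorem proper_XG3 (hX : Mf e X) (hph : HolP e X ph) :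
    IsProperMap fun p : tot_XG3 X ph => p.1.2 := by
  have hc : IsClosed (tot_XG3 X ph) := by
    refine (hX.compact.isClosed.prod isClosed_univ).isClosed_eq ?_ continuousOn_snd
    refine continuousOn_pi.2 fun i => continuousOn_finsetSum _ fun k _ => ContinuousOn.mul ?_ ?_
    · have h1 : ContinuousOn (fun p : Amb M × (Fin N → ℂ) => ph p.1) (X ×ˢ univ) :=
        (hph.cont hX).comp continuousOn_fst fun p hp => hp.1
      exact (show Continuous fun y : Amb N => y (i, k) by fun_prop).comp_continuousOn h1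
    · fun_prop
  refine isProperMap_iff_isCompact_preimage.2 ⟨by fun_prop, fun K hK => ?_⟩
  rw [Subtype.isCompact_iff]
  have e1 : Subtype.val '' ((fun p : tot_XG3 X ph => p.1.2) ⁻¹' K) = tot_XG3 X ph ∩ X ×ˢ K := by
    ext p
    constructor
    · rintro ⟨q, hq, rfl⟩
      exact ⟨q.2, q.2.1.1, hq⟩
    · rintro ⟨h1, h2⟩
      exact ⟨⟨p, h1⟩, h2.2, rfl⟩
  rw [e1]
  exact (hX.compact.prod hK).inter_left hc

theorem chart_XG3 {φ : E e → Amb M} {g : E e → Fin N → ℂ} {O : Set (E e)} (hi : InjOn φ O)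
    (h : ∀ w ∈ O, Pt X φ w (φ w) ∧ AnalyticAt ℂ g w ∧ g w ≠ 0 ∧ ph (φ w) = proj (g w))
    {ι : ℂ × E e → tot_XG3 X ph} (hι : ∀ u : ℂ × E e, u.2 ∈ O → (ι u).1 = (φ u.2, u.1 • g u.2))
    {U : Set (ℂ × E e)} (hU : IsOpen U) (hUO : ∀ u ∈ U, u.2 ∈ O) : Weil.IsChart ι U := by
  refine ⟨hU, ?_, ?_, ?_⟩
  · rw [Topology.IsInducing.subtypeVal.continuousOn_iff]
    refine ContinuousOn.congr (f := fun u : ℂ × E e => (φ u.2, u.1 • g u.2)) ?_
      fun u hu => hι u (hUO u hu)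
    intro u hu
    have h1 : ContinuousAt φ u.2 := (h _ (hUO u hu)).1.cont
    have h2 : ContinuousAt g u.2 := (h _ (hUO u hu)).2.1.continuousAt
    exact ((h1.comp continuousAt_snd).prodMk
      (continuousAt_fst.smul (h2.comp continuousAt_snd))).continuousWithinAt
  · intro u hu u' hu' huu
    have h1 := congrArg Subtype.val huu
    rw [hι u (hUO u hu), hι u' (hUO u' hu'), Prod.mk.injEq] at h1
    have h2 : u.2 = u'.2 := hi (hUO u hu) (hUO u' hu') h1.1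
    have h3 := h1.2
    rw [← h2] at h3
    exact Prod.ext (smul_left_injective ℂ (h _ (hUO u hu)).2.2.1 h3) h2
  · intro W hWU hW
    rw [isOpen_iff_mem_nhds]
    rintro _ ⟨⟨t, w⟩, hu, rfl⟩
    have hw : w ∈ O := hUO _ (hWU hu)
    obtain ⟨hp, hg, h0, -⟩ := h w hw
    obtain ⟨k, hk⟩ := Function.ne_iff.1 h0
    have hk' : g w k ≠ 0 := hk
    have c1 : ContinuousAt (fun q : E e × (Fin N → ℂ) => g q.1 k) (w, t • g w) :=
      (continuous_apply k).continuousAt.comp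
        (ContinuousAt.comp (f := Prod.fst) hg.continuousAt continuousAt_fst)
    have c2 : ContinuousAt (fun q : E e × (Fin N → ℂ) => ((q.2 k / g q.1 k, q.1) : ℂ × E e))
        (w, t • g w) :=
      (ContinuousAt.div (by fun_prop) c1 hk').prodMk continuousAt_fst
    have c3 : ∀ᶠ q : E e × (Fin N → ℂ) in 𝓝 (w, t • g w),
        ((q.2 k / g q.1 k, q.1) : ℂ × E e) ∈ W ∧ g q.1 k ≠ 0 := by
      refine (c2.eventually_mem (hW.mem_nhds ?_)).and (c1.eventually_ne hk')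
      show ((t * g w k / g w k, w) : ℂ × E e) ∈ W
      rw [mul_div_cancel_right₀ _ hk']
      exact hu
    rw [nhds_prod_eq] at c3
    have c4 := image_mem_map (m := Prod.map φ id) c3
    rw [← prod_map_map_eq', hp.map, Filter.map_id] at c4
    have e0 := hι (t, w) hw
    have c5 : Tendsto (Subtype.val : tot_XG3 X ph → _) (𝓝 (ι (t, w)))
        (𝓝[X] φ w ×ˢ 𝓝 (t • g w)) := by
      have c6 : Tendsto (Subtype.val : tot_XG3 X ph → _) (𝓝 (ι (t, w))) (𝓝 (φ w, t • g w)) := by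
        have := continuous_subtype_val.tendsto (ι (t, w))
        rwa [e0] at this
      exact Tendsto.prodMk (tendsto_nhdsWithin_iff.2 ⟨(continuous_fst.tendsto _).comp c6,
        Eventually.of_forall fun p => p.2.1.1⟩) ((continuous_snd.tendsto _).comp c6)
    filter_upwards [c5 c4] with p hp'
    obtain ⟨⟨w', v⟩, ⟨a1, a2⟩, a3⟩ := hp'
    have hw' : w' ∈ O := hUO _ (hWU a1)
    have a4 := p.2.2
    rw [← a3] at a4
    have a5 : (fun i => ∑ k, ph (φ w') (i, k) * v k) = v := a4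
    rw [(h w' hw').2.2.2] at a5
    obtain ⟨t', ht'⟩ := (fix_XG3 (h w' hw').2.2.1 v).1 a5
    refine ⟨_, a1, Subtype.ext ?_⟩
    rw [hι _ hw', ← a3]
    have a6 : v k / g w' k = t' := by
      rw [ht']
      exact mul_div_cancel_right₀ _ a2
    show (φ w', (v k / g w' k) • g w') = (φ w', v)
    rw [a6, ← ht']

/-- the cone over the image is a proper chain -/
theorem cone_chain (hX : Mf e X) (hph : HolP e X ph) :
    ∃ c : Weil.PChain (Fin N → ℂ) (ℂ × E e),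
      c.F '' c.good = {v | v ≠ 0 ∧ ∃ x ∈ X, ImmP e X ph x ∧ ph x = proj v} ∧
      (InjOn ph X → InjOn c.F c.good) := by
  classical
  obtain ⟨J, hJ, φ, g, O, z, hO, hcov⟩ := cover_XG3 hX hph
  have hmem : ∀ j (t : ℂ), ∀ w ∈ O j, (φ j w, t • g j w) ∈ tot_XG3 X ph := by
    intro j t w hw
    obtain ⟨hp, -, h0, he⟩ := (hO j).2.2.2 w hw
    refine ⟨⟨hp.mem, trivial⟩, ?_⟩
    show (fun i => ∑ k, ph (φ j w) (i, k) * (t • g j w) k) = t • g j w
    rw [he]
    exact (fix_XG3 h0 _).2 ⟨t, rfl⟩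
  let ι : J → ℂ × E e → tot_XG3 X ph := fun j u =>
    if h : u.2 ∈ O j then ⟨_, hmem j u.1 u.2 h⟩ else ⟨_, hmem j 0 (z j) (hO j).1⟩
  have hι : ∀ j (u : ℂ × E e), u.2 ∈ O j → (ι j u).1 = (φ j u.2, u.1 • g j u.2) := by
    intro j u hu
    simp only [ι, dif_pos hu]
  let ψ : J → ℂ × E e → Fin N → ℂ := fun j u => u.1 • g j u.2
  let U₀ : J → Set (ℂ × E e) := fun j => ({0}ᶜ : Set ℂ) ×ˢ O j
  have hψ : ∀ j, AnalyticOnNhd ℂ (ψ j) (U₀ j) := fun j u hu =>
    analyticAt_fst.smul (AnalyticAt.comp (f := Prod.snd) ((hO j).2.2.2 _ hu.2).2.1 analyticAt_snd)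
  let U : J → Set (ℂ × E e) := fun j => {u | u ∈ U₀ j ∧ Function.Injective (fderiv ℂ (ψ j) u)}
  have hU : ∀ j, IsOpen (U j) := fun j =>
    Weil.CoverAux.isOpen_inj (isOpen_compl_singleton.prod (hO j).2.1) (hψ j)
  have hrep : ∀ p : tot_XG3 X ph, p.1.2 ≠ 0 → ∃ j, ∃ u ∈ U₀ j, ι j u = p := by
    intro p hp
    obtain ⟨j, w, hw, e1⟩ := hcov _ p.2.1.1
    have a1 := p.2.2
    rw [← e1, ((hO j).2.2.2 w hw).2.2.2] at a1
    obtain ⟨t, ht⟩ := (fix_XG3 ((hO j).2.2.2 w hw).2.2.1 _).1 a1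
    refine ⟨j, (t, w), ⟨fun h0 => hp ?_, hw⟩, Subtype.ext ?_⟩
    · have h1 : t = 0 := h0
      rw [ht, h1, zero_smul]
    · rw [hι j (t, w) hw]
      exact Prod.ext e1 ht.symm
  have hsmall : Weil.Thin (Module.finrank ℂ (ℂ × E e))
      ((fun p : tot_XG3 X ph => p.1.2) '' {p | ∀ j, p ∉ ι j '' U j}) := by
    have hpos : Module.finrank ℂ (Fin 0 → ℂ) < Module.finrank ℂ (ℂ × E e) := by simp
    have t0 := Weil.thin_of_param (φ := fun _ : Fin 0 → ℂ => (0 : Fin N → ℂ)) (U := univ) hpos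
      analyticOnNhd_const
    refine (t0.union (Weil.thin_iUnion fun j => Weil.thin_crit (hψ j) _)).mono ?_ le_rfl
    rintro _ ⟨p, hp, rfl⟩
    by_cases h0 : p.1.2 = 0
    · exact Or.inl ⟨0, trivial, h0.symm⟩
    · obtain ⟨j, u, hu, rfl⟩ := hrep p h0
      refine Or.inr (mem_iUnion.2 ⟨j, u, ⟨hu, ?_⟩, ?_⟩)
      · have a1 := LinearMap.finrank_range_add_finrank_ker
          (fderiv ℂ (ψ j) u : (ℂ × E e) →ₗ[ℂ] Fin N → ℂ)
        have a2 : Module.finrank ℂ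
            (LinearMap.ker (fderiv ℂ (ψ j) u : (ℂ × E e) →ₗ[ℂ] Fin N → ℂ)) ≠ 0 := fun h =>
          hp j ⟨u, ⟨hu, LinearMap.ker_eq_bot.1 (Submodule.finrank_eq_zero.1 h)⟩, rfl⟩
        omega
      · show ψ j u = (ι j u).1.2
        rw [hι j u hu.2]
  have hgood : ∀ j, ∀ u ∈ U j, (ι j u).1.2 ≠ 0 ∧ ImmP e X ph (ι j u).1.1 ∧
      ph (ι j u).1.1 = proj (ι j u).1.2 := by
    rintro j ⟨t, w⟩ ⟨⟨ht, hw⟩, hi⟩
    obtain ⟨hp, hg, h0, he⟩ := (hO j).2.2.2 w hw
    rw [hι j (t, w) hw]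
    refine ⟨smul_ne_zero ht h0, ⟨φ j, w, g j, hp, hg, h0, ?_, (imm_iff_XG3 hg h0 ht).1 hi⟩, ?_⟩
    · filter_upwards [(hO j).2.1.mem_nhds hw] with y hy using ((hO j).2.2.2 y hy).2.2.2
    · exact he.trans (proj_smul ht _).symm
  refine ⟨{ Z := tot_XG3 X ph
            F := fun p => p.1.2
            proper := proper_XG3 hX hph
            J := J
            U := U
            ι := ι
            φ := ψ
            chart := fun j => chart_XG3 (hO j).2.2.1 (hO j).2.2.2 (hι j) (hU j) fun u hu => hu.1.2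
            an := fun j => (hψ j).mono fun u hu => hu.1
            lift := fun j u hu => congrArg Prod.snd (hι j u hu.1.2)
            imm := fun j u hu => hu.2
            small := hsmall }, ?_, ?_⟩
  · ext v
    constructor
    · rintro ⟨p, hp, rfl⟩
      obtain ⟨j, u, hu, rfl⟩ := mem_iUnion.1 hp
      obtain ⟨a1, a2, a3⟩ := hgood j u hu
      exact ⟨a1, _, (ι j u).2.1.1, a2, a3⟩
    · rintro ⟨hv, x, hx, hi, he⟩
      obtain ⟨j, w, hw, rfl⟩ := hcov x hx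
      obtain ⟨hp, hg, h0, he'⟩ := (hO j).2.2.2 w hw
      obtain ⟨t, ht, rfl⟩ := (proj_eq_iff h0 hv).1 (he'.symm.trans he)
      refine ⟨ι j (t, w), mem_iUnion.2 ⟨j, (t, w), ⟨⟨ht, hw⟩, (imm_iff_XG3 hg h0 ht).2
        (ind_XG3 hp hg h0 ?_ hi)⟩, rfl⟩, congrArg Prod.snd (hι j (t, w) hw)⟩
      filter_upwards [(hO j).2.1.mem_nhds hw] with y hy using ((hO j).2.2.2 y hy).2.2.2
  · intro hinj p hp p' hp' hpp
    obtain ⟨j, u, hu, rfl⟩ := mem_iUnion.1 hp
    obtain ⟨j', u', hu', rfl⟩ := mem_iUnion.1 hp'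
    have a1 : (ι j u).1.2 = (ι j' u').1.2 := hpp
    refine Subtype.ext (Prod.ext (hinj (ι j u).2.1.1 (ι j' u').2.1.1 ?_) a1)
    rw [(hgood j u hu).2.2, (hgood j' u' hu').2.2, a1]

end Pool.Agent.HIR
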