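import Pool.Agent.P.MP_65ad7c_ag.XG4

open Set Filter Topology Asymptotics
open scoped ComplexConjugate
open Pool.Agent.HT (Amb proj cj IsChart IsSNC)

noncomputable section
namespace Pool.Agent.HIR

variable {V P : Type} [NormedAddCommGroup V] [NormedSpace ℂ V] [FiniteDimensional ℂ V]
  [NormedAddCommGroup P] [NormedSpace ℂ P] [FiniteDimensional ℂ P]
  {c : Weil.PChain V P} {m : ℕ} {π : V →L[ℂ] (Fin m → ℂ)} {W : Set V} {Δ F : Set (Fin m → ℂ)}
  {K : ℕ}

omit [FiniteDimensional ℂ V] in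
/-- a function dominated by a function with vanishing directional derivative -/
theorem dom_deriv_XG5 {D G : V → ℂ} {v ξ : V} {η : ℝ} (hη : 0 < η) (hD : DifferentiableAt ℂ D v)
    (hG : DifferentiableAt ℂ G v) (hG0 : G v = 0) (hD0 : D v = 0)
    (hle : ∀ᶠ w in 𝓝 v, η * ‖D w‖ ≤ ‖G w‖) (h : fderiv ℂ G v ξ = 0) : fderiv ℂ D v ξ = 0 := by
  have hγ : HasDerivAt (fun t : ℂ => v + t • ξ) ξ 0 := by
    simpa using ((hasDerivAt_id (0 : ℂ)).smul_const ξ).const_add v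
  have e0 : v + (0 : ℂ) • ξ = v := by simp
  have hG1 : HasFDerivAt G (fderiv ℂ G v) (v + (0 : ℂ) • ξ) := by
    rw [e0]; exact hG.hasFDerivAt
  have hD1 : HasFDerivAt D (fderiv ℂ D v) (v + (0 : ℂ) • ξ) := by
    rw [e0]; exact hD.hasFDerivAt
  have hG2 := hG1.comp_hasDerivAt (0 : ℂ) hγ
  have hD2 := hD1.comp_hasDerivAt (0 : ℂ) hγ
  rw [h] at hG2
  have hT : Tendsto (fun t : ℂ => v + t • ξ) (𝓝 0) (𝓝 v) := by
    have := hγ.continuousAt.tendsto
    simpa using this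
  have hO : (fun t : ℂ => D (v + t • ξ)) =O[𝓝 0] fun t : ℂ => G (v + t • ξ) := by
    refine IsBigO.of_bound η⁻¹ ?_
    filter_upwards [hT.eventually hle] with t ht
    rw [← div_eq_inv_mul, le_div_iff₀ hη, mul_comm]
    exact ht
  have ho : (fun t : ℂ => G (v + t • ξ)) =o[𝓝 0] fun t : ℂ => t - 0 := by
    have := hasDerivAt_iff_isLittleO.1 hG2
    simpa [hG0] using this
  have hD3 : HasDerivAt (D ∘ fun t : ℂ => v + t • ξ) 0 0 := by
    refine hasDerivAt_iff_isLittleO.2 ?_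
    have := hO.trans_isLittleO ho
    simpa [hD0] using this
  exact hD2.unique hD3

/-- at a smooth unramified point some norm has non-zero differential -/
theorem norm_deriv (h : Weil.LocalCover c π W Δ F K) (hi : InjOn c.F c.good) {v₁ ξ : V}
    (hv : v₁ ∈ W) {σ : (Fin m → ℂ) → V} (hσ : AnalyticAt ℂ σ (π v₁)) (h0 : σ (π v₁) = v₁)
    (h1 : ∀ᶠ y in 𝓝 (π v₁), σ y ∈ c.F '' c.good ∧ π (σ y) = y)
    (h2 : ∀ᶠ v in 𝓝 v₁, v ∈ c.F '' c.good → σ (π v) = v)
    (hξ : ξ ≠ fderiv ℂ σ (π v₁) (π ξ)) :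
    ∃ G : V → ℂ, DifferentiableOn ℂ G W ∧ (∀ v ∈ W ∩ c.F '' c.good, G v = 0) ∧
      fderiv ℂ G v₁ ξ ≠ 0 := by
  classical
  have : ProperSpace V := FiniteDimensional.proper ℂ V
  set A : Set V := c.F '' c.good with hA
  have hy1 : π v₁ ∈ Δ := h.maps hv
  have hv1A : v₁ ∈ A := by
    have := h1.self_of_nhds.1
    rwa [h0] at this
  -- the linear form
  have hfin : (((fun u => v₁ - u) '' ({v | v ∈ W ∩ closure A ∧ π v = π v₁} \ {v₁})) ∪
      {ξ - fderiv ℂ σ (π v₁) (π ξ)}).Finite :=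
    (((fibre_finite h (π v₁)).subset sdiff_subset).image _).union (finite_singleton _)
  obtain ⟨l, hl⟩ := exists_form hfin (by
    rintro (⟨u, hu, he⟩ | he)
    · exact hu.2 (sub_eq_zero.1 he).symm
    · exact hξ (sub_eq_zero.1 (mem_singleton_iff.1 he).symm))
  obtain ⟨g, hg, hz, hs⟩ := norm_poly h l
  set G : V → ℂ := fun v => l v ^ K + ∑ j ∈ Finset.range K, g j (π v) * l v ^ j with hG
  have hGd : DifferentiableOn ℂ G W := by
    refine (l.differentiable.pow K).differentiableOn.add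
      (DifferentiableOn.fun_sum fun j _ => ?_)
    exact ((hg j).comp π.differentiableOn h.maps).mul (l.differentiable.pow j).differentiableOn
  refine ⟨G, hGd, fun v hv' => hz v ⟨hv'.1, subset_closure hv'.2⟩, ?_⟩
  -- the other sheets stay away
  obtain ⟨B, hB, hBo, hBv⟩ := eventually_nhds_iff.1 h2
  have hQ : IsCompact (closure (A ∩ W) \ B) :=
    (h.bdd.subset inter_subset_right).isCompact_closure.diff hBo
  have hfc : Continuous fun u : V => ‖π u - π v₁‖ + ‖l u - l v₁‖ := by fun_prop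
  obtain ⟨δ3, hδ3, hδQ⟩ := hQ.exists_forall_le' (a := 0) hfc.continuousOn (by
    intro u hu
    by_contra hcon
    have h3 : ‖π u - π v₁‖ = 0 := by
      linarith [norm_nonneg (π u - π v₁), norm_nonneg (l u - l v₁)]
    have h4 : ‖l u - l v₁‖ = 0 := by
      linarith [norm_nonneg (π u - π v₁), norm_nonneg (l u - l v₁)]
    have h5 : π u = π v₁ := sub_eq_zero.1 (norm_eq_zero.1 h3)
    have h6 : u ∈ W := h.proper u hu.1 (by rw [h5]; exact hy1)
    have h7 : u ≠ v₁ := fun e => hu.2 (by rw [e]; exact hBv)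
    refine hl (v₁ - u) (Or.inl ⟨u, ⟨⟨⟨h6, closure_mono inter_subset_left hu.1⟩, h5⟩, h7⟩, rfl⟩) ?_
    rw [map_sub, sub_eq_zero.1 (norm_eq_zero.1 h4), sub_self])
  set δ : ℝ := δ3 / 3 with hδdef
  have hδ : 0 < δ := by positivity
  have hη : 0 < δ ^ (K - 1) := pow_pos hδ _
  have hN : ∀ᶠ y in 𝓝 (π v₁), y ∈ Δ ∧ ContinuousAt σ y ∧ σ y ∈ A ∧ π (σ y) = y ∧ σ y ∈ W ∧
      ‖y - π v₁‖ < δ := by
    have e1 : ∀ᶠ y in 𝓝 (π v₁), σ y ∈ W :=
      hσ.continuousAt.eventually_mem (by rw [h0]; exact h.openW.mem_nhds hv)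
    have e2 : ∀ᶠ y in 𝓝 (π v₁), ‖y - π v₁‖ < δ := by
      filter_upwards [Metric.ball_mem_nhds (π v₁) hδ] with y hy
      rwa [mem_ball_iff_norm] at hy
    filter_upwards [h.openΔ.mem_nhds hy1, hσ.eventually_analyticAt, h1, e1, e2]
      with y a1 a2 a3 a4 a5
    exact ⟨a1, a2.continuousAt, a3.1, a3.2, a4, a5⟩
  obtain ⟨N, hNp, hNo, hNy⟩ := eventually_nhds_iff.1 hN
  -- the estimate off the branch locus
  have key : ∀ t : ℂ, ‖t - l v₁‖ < δ → ∀ y ∈ N ∩ (Δ \ F),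
      δ ^ (K - 1) * ‖t - l (σ y)‖ ≤ ‖t ^ K + ∑ j ∈ Finset.range K, g j y * t ^ j‖ := by
    intro t ht y hy
    obtain ⟨s, hsi, hsz, hst⟩ := hs y hy.2
    obtain ⟨-, -, ⟨z, hzg, hzF⟩, b2, b3, b4⟩ := hNp y hy.1
    obtain ⟨a0, ha0⟩ := (hsz z).1 ⟨hzg, by rw [hzF]; exact b3, by rw [hzF]; exact b2⟩
    rw [hst t, ← Finset.mul_prod_erase Finset.univ _ (Finset.mem_univ a0), norm_mul, ← ha0, hzF,
      mul_comm]
    refine mul_le_mul_of_nonneg_left ?_ (norm_nonneg _)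
    rw [norm_prod]
    have hcard : (Finset.univ.erase a0).card = K - 1 := by
      rw [Finset.card_erase_of_mem (Finset.mem_univ a0), Finset.card_univ, Fintype.card_fin]
    rw [← hcard, ← Finset.prod_const]
    refine Finset.prod_le_prod (fun _ _ => hδ.le) fun a ha => ?_
    obtain ⟨c1, c2, c3⟩ := (hsz (s a)).2 ⟨a, rfl⟩
    have hnB : c.F (s a) ∉ B := by
      intro hin
      have e1 := hB _ hin ⟨_, c1, rfl⟩
      rw [c3, ← hzF] at e1
      have e2 : z = s a := hi hzg c1 e1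
      rw [ha0] at e2
      exact (Finset.mem_erase.1 ha).1 (hsi e2).symm
    have e3 := hδQ (c.F (s a)) ⟨subset_closure ⟨⟨_, c1, rfl⟩, c2⟩, hnB⟩
    rw [c3] at e3
    have e4 : ‖l (c.F (s a)) - l v₁‖ ≤ ‖t - l (c.F (s a))‖ + ‖t - l v₁‖ := by
      have e5 := norm_sub_le (t - l v₁) (t - l (c.F (s a)))
      have e6 : t - l v₁ - (t - l (c.F (s a))) = l (c.F (s a)) - l v₁ := by ring
      rw [e6] at e5
      linarith
    have e7 : δ3 = 3 * δ := by rw [hδdef]; ring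
    linarith
  -- the estimate everywhere
  have key2 : ∀ t : ℂ, ‖t - l v₁‖ < δ → ∀ y ∈ N,
      δ ^ (K - 1) * ‖t - l (σ y)‖ ≤ ‖t ^ K + ∑ j ∈ Finset.range K, g j y * t ^ j‖ := by
    intro t ht y hy
    obtain ⟨b0, b1, -⟩ := hNp y hy
    have hcl : y ∈ closure (N ∩ (Δ \ F)) := hNo.inter_closure ⟨hy, dense_diff h b0⟩
    refine ContinuousWithinAt.closure_le (f := fun y => δ ^ (K - 1) * ‖t - l (σ y)‖)
      (g := fun y => ‖t ^ K + ∑ j ∈ Finset.range K, g j y * t ^ j‖) hcl ?_ ?_ (key t ht)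
    · exact (continuousAt_const.mul
        (continuousAt_const.sub (l.continuous.continuousAt.comp b1)).norm).continuousWithinAt
    · refine (ContinuousAt.norm (continuousAt_const.add ?_)).continuousWithinAt
      refine tendsto_finsetSum _ fun j _ => Tendsto.mul_const _ ?_
      exact ((hg j).continuousOn.continuousAt (h.openΔ.mem_nhds b0)).tendsto
  have hle : ∀ᶠ v in 𝓝 v₁, δ ^ (K - 1) * ‖l v - l (σ (π v))‖ ≤ ‖G v‖ := by
    have e1 : ∀ᶠ v in 𝓝 v₁, π v ∈ N :=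
      π.continuous.continuousAt.eventually_mem (hNo.mem_nhds hNy)
    have e2 : ∀ᶠ v in 𝓝 v₁, l v ∈ Metric.ball (l v₁) δ :=
      l.continuous.continuousAt.eventually_mem (Metric.ball_mem_nhds _ hδ)
    filter_upwards [e1, e2] with v a1 a2
    exact key2 (l v) (mem_ball_iff_norm.1 a2) (π v) a1
  intro hcon
  have hD : HasFDerivAt (fun v => l v - l (σ (π v)))
      (l - l.comp ((fderiv ℂ σ (π v₁)).comp π)) v₁ :=
    l.hasFDerivAt.sub (l.hasFDerivAt.comp v₁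
      (hσ.differentiableAt.hasFDerivAt.comp v₁ π.hasFDerivAt))
  have hfin2 := dom_deriv_XG5 hη hD.differentiableAt
    (hGd.differentiableAt (h.openW.mem_nhds hv)) (hz v₁ ⟨hv, subset_closure hv1A⟩)
    (by show l v₁ - l (σ (π v₁)) = 0; rw [h0, sub_self]) hle hcon
  rw [hD.fderiv] at hfin2
  refine hl _ (Or.inr rfl) ?_
  rw [map_sub]
  exact hfin2

end Pool.Agent.HIR
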