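import Pool.Agent.P.MP_65ad7c_ag.XG2
import Pool.Agent.P.MP_65ad7c_ag.XG3
import Pool.Agent.P.MP_65ad7c_ag.XG5
import Pool.Agent.P.MP_65ad7c_ag.XC6

open Set Filter Topology Asymptotics
open scoped ComplexConjugate
open Pool.Agent.HT (Amb proj cj IsChart IsSNC)

noncomputable section
namespace Pool.Agent.HIR

variable {e M N : ℕ} {X : Set (Amb M)}

theorem small_XG6 {R : ℝ} (hR : 0 < R) (u : Fin N → ℂ) :
    ∀ᶠ s : ℂ in 𝓝[≠] 0, s ≠ 0 ∧ s • u ∈ Metric.ball (0 : Fin N → ℂ) R := by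
  have h1 : Tendsto (fun s : ℂ => s • u) (𝓝 0) (𝓝 0) := by
    have : Continuous fun s : ℂ => s • u := by fun_prop
    simpa using this.tendsto 0
  exact Eventually.and self_mem_nhdsWithin
    ((h1.eventually (Metric.ball_mem_nhds 0 hR)).filter_mono nhdsWithin_le_nhds)

theorem sum_ne_XG6 {u : Fin N → ℂ} (hu : u ≠ 0) : ∑ k, u k * conj (u k) ≠ 0 := by
  intro h
  obtain ⟨k, hk⟩ : ∃ k, u k ≠ 0 := Function.ne_iff.1 hu
  refine hk ((proj_diag hu k).1 ?_)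
  show u k * conj (u k) / ∑ k, u k * conj (u k) = 0
  rw [h, div_zero]

theorem proj_mul_XG6 (w u : Fin N → ℂ) : (fun i => ∑ j, proj w (i, j) * u j) =
    ((∑ j, conj (w j) * u j) / ∑ k, w k * conj (w k)) • w := by
  funext i
  show ∑ j, w i * conj (w j) / (∑ k, w k * conj (w k)) * u j = _
  rw [Pi.smul_apply, smul_eq_mul, Finset.sum_div, Finset.sum_mul]
  exact Finset.sum_congr rfl fun j _ => by ring

theorem mem_closure_XG6 {ph : Amb M → Amb N} (hX : Mf e X) (hph : HolP e X ph)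
    (hd : X ⊆ closure {x | x ∈ X ∧ ImmP e X ph x}) {u : Fin N → ℂ} (hu : u ≠ 0)
    (h : proj u ∈ ph '' X) :
    u ∈ closure {v | v ≠ 0 ∧ ∃ x ∈ X, ImmP e X ph x ∧ ph x = proj v} := by
  obtain ⟨x, hx, hxu⟩ := h
  have hne : NeBot (𝓝[{x | x ∈ X ∧ ImmP e X ph x}] x) :=
    mem_closure_iff_nhdsWithin_neBot.1 (hd hx)
  have hc : Continuous fun (y : Amb N) i => ∑ j, y (i, j) * u j := by fun_prop
  have h1 : Tendsto ph (𝓝[{x | x ∈ X ∧ ImmP e X ph x}] x) (𝓝 (proj u)) := by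
    rw [← hxu]
    exact (hph.cont hX x hx).mono fun y hy => hy.1
  have h2 := (hc.tendsto (proj u)).comp h1
  have e1 : (fun i => ∑ j, proj u (i, j) * u j) = u := by
    have e2 : ∑ j, conj (u j) * u j = ∑ k, u k * conj (u k) :=
      Finset.sum_congr rfl fun j _ => mul_comm _ _
    rw [proj_mul_XG6, e2, div_self (sum_ne_XG6 hu), one_smul]
  rw [e1] at h2
  refine mem_closure_of_tendsto h2 ?_
  filter_upwards [h2.eventually_ne hu, self_mem_nhdsWithin] with y hy hy'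
  refine ⟨hy, y, hy'.1, hy'.2, ?_⟩
  obtain ⟨φ, z, g, hp, -, -, he, -⟩ := hy'.2
  have e3 : ph y = proj (g z) := by
    rw [← hp.eq]
    exact he.self_of_nhds
  have e4 := proj_mul_XG6 (g z) u
  simp only [Function.comp_apply] at hy ⊢
  rw [e3] at hy ⊢
  rw [e4] at hy ⊢
  exact (proj_smul (left_ne_zero_of_smul hy) _).symm

/-- Chow: the image is cut out by homogeneous polynomials -/
theorem chow1 {ph : Amb M → Amb N} (hX : Mf e X) (hph : HolP e X ph)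
    (hd : X ⊆ closure {x | x ∈ X ∧ ImmP e X ph x}) {v : Fin N → ℂ} (hv : v ≠ 0)
    (h : proj v ∉ ph '' X) : ∃ (P : MvPolynomial (Fin N) ℂ) (k : ℕ), P.IsHomogeneous k ∧
      ev P v ≠ 0 ∧ ∀ u, u ≠ 0 → proj u ∈ ph '' X → ev P u = 0 := by
  obtain ⟨c, hc, -⟩ := cone_chain hX hph
  obtain ⟨U, k, F, hU, h0, hF, hiff⟩ := c.analytic_closure 0
  rw [hc] at hiff
  obtain ⟨R, hR, hRU⟩ := Metric.isOpen_iff.1 hU 0 h0
  obtain ⟨t, ht, htv⟩ := (small_XG6 (by positivity : 0 < R / 6) v).exists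
  have htv0 : t • v ≠ 0 := smul_ne_zero ht hv
  have hcl : IsClosed (ph '' X) := (hX.compact.image_of_continuousOn (hph.cont hX)).isClosed
  have hne : F (t • v) ≠ 0 := by
    intro h1
    have h2 := (hiff _ (hRU (Metric.ball_subset_ball (by linarith) htv))).2 h1
    have h3 := (cont_proj htv0).continuousWithinAt.mem_closure_image h2
    rw [proj_smul ht] at h3
    refine h (hcl.closure_subset_iff.2 ?_ h3)
    rintro _ ⟨w, ⟨-, x, hx, -, hxw⟩, rfl⟩
    exact ⟨x, hx, hxw⟩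
  obtain ⟨a, ha⟩ : ∃ a, F (t • v) a ≠ 0 := Function.ne_iff.1 hne
  obtain ⟨P, hP, hz, hv'⟩ := homp (f := fun y => F y a) hR
    (differentiableOn_pi.1 (hF.mono hRU) a)
  obtain ⟨j, hj⟩ := (hv' _ htv).1 ha
  refine ⟨P j, j, hP j, fun h1 => hj ?_, fun u hu hux => hz u ?_ j⟩
  · rw [ev_smul (hP j), h1, mul_zero]
  · filter_upwards [small_XG6 hR u] with s hs
    have h4 := mem_closure_XG6 hX hph hd (smul_ne_zero hs.1 hu) (by rwa [proj_smul hs.1])
    exact congrFun ((hiff _ (hRU hs.2)).1 h4) a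

/-- the cone over a submanifold is a graph over its tangent space -/
theorem cone_graph {g : E e → Fin M → ℂ} {z : E e} (hp : Pt X (proj ∘ g) z (proj (g z)))
    (hg : AnalyticAt ℂ g z) (h0 : g z ≠ 0) {m : ℕ} (hm : m = e + 1)
    (π : (Fin M → ℂ) →L[ℂ] (Fin m → ℂ))
    (hπ : ∀ (v : E e) (a : ℂ), π (fderiv ℂ g z v + a • g z) = 0 → v = 0 ∧ a = 0)
    {t : ℂ} (ht : t ≠ 0) : ∃ σ : (Fin m → ℂ) → Fin M → ℂ, AnalyticAt ℂ σ (π (t • g z)) ∧
      σ (π (t • g z)) = t • g z ∧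
      (∀ᶠ y in 𝓝 (π (t • g z)), (σ y ≠ 0 ∧ proj (σ y) ∈ X) ∧ π (σ y) = y) ∧
      (∀ᶠ v in 𝓝 (t • g z), proj v ∈ X → σ (π v) = v) ∧
      ∀ η, ∃ (v : E e) (a : ℂ), fderiv ℂ σ (π (t • g z)) η = fderiv ℂ g z v + a • g z := by
  let ψ : ℂ × E e → Fin M → ℂ := fun u => u.1 • g u.2
  have hg2 : AnalyticAt ℂ (fun u : ℂ × E e => g u.2) (t, z) :=
    AnalyticAt.comp (g := g) (f := fun u : ℂ × E e => u.2) hg analyticAt_snd
  have hψ : AnalyticAt ℂ ψ (t, z) := analyticAt_fst.smul hg2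
  have hdψ : ∀ u : ℂ × E e, fderiv ℂ ψ (t, z) u = fderiv ℂ g z (t • u.2) + u.1 • g z := by
    intro u
    have h1 : HasFDerivAt (fun u : ℂ × E e => g u.2)
        ((fderiv ℂ g z).comp (ContinuousLinearMap.snd ℂ ℂ (E e))) (t, z) :=
      HasFDerivAt.comp (g := g) (f := fun u : ℂ × E e => u.2) (t, z)
        hg.differentiableAt.hasFDerivAt hasFDerivAt_snd
    have h2 : HasFDerivAt ψ _ (t, z) := hasFDerivAt_fst.smul h1
    rw [h2.fderiv]
    simp
  have hπψ : AnalyticAt ℂ (fun u => π (ψ u)) (t, z) := (π.analyticAt _).comp hψ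
  have hinj : Function.Injective (fderiv ℂ (fun u => π (ψ u)) (t, z)) := by
    refine (injective_iff_map_eq_zero _).2 fun u hu => ?_
    have h1 : HasFDerivAt (fun u => π (ψ u)) (π.comp (fderiv ℂ ψ (t, z))) (t, z) :=
      π.hasFDerivAt.comp (t, z) hψ.differentiableAt.hasFDerivAt
    rw [h1.fderiv, ContinuousLinearMap.comp_apply, hdψ] at hu
    obtain ⟨h2, h3⟩ := hπ _ _ hu
    exact Prod.ext h3 ((smul_eq_zero.1 h2).resolve_left ht)
  have hdim : Module.finrank ℂ (ℂ × E e) = Module.finrank ℂ (Fin m → ℂ) := by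
    simp [hm, add_comm]
  obtain ⟨k, hk1, hk2, hk3, hk4, -⟩ := Weil.CoverAux.local_inv hdim hπψ hinj
  change ∀ᶠ y in 𝓝 (π (t • g z)), _ at hk1 hk4
  change k (π (t • g z)) = _ at hk2
  have hkt : Tendsto k (𝓝 (π (t • g z))) (𝓝 (t, z)) := by
    have := hk1.self_of_nhds.continuousAt.tendsto
    rwa [hk2] at this
  have hgne : ∀ᶠ w in 𝓝 z, g w ≠ 0 := hg.continuousAt.eventually_ne h0
  refine ⟨fun y => ψ (k y), ?_, congrArg ψ hk2, ?_, ?_, fun η => ?_⟩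
  · refine analyticAt_pi_iff.2 fun i => an_of_ev ?_
    filter_upwards [hk1, hkt.eventually hψ.eventually_analyticAt] with y hy hy'
    exact differentiableAt_pi.1 (hy'.differentiableAt.comp y hy) i
  · have h1 : Tendsto (fun y => (k y).1) (𝓝 (π (t • g z))) (𝓝 t) :=
      (continuous_fst.tendsto _).comp hkt
    have h2 : Tendsto (fun y => (k y).2) (𝓝 (π (t • g z))) (𝓝 z) :=
      (continuous_snd.tendsto _).comp hkt
    filter_upwards [hk4, h1.eventually_ne ht, h2.eventually hgne, h2.eventually hp.ev] with y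
      hy hy1 hy2 hy3
    refine ⟨⟨smul_ne_zero hy1 hy2, ?_⟩, hy⟩
    show proj ((k y).1 • g (k y).2) ∈ X
    rw [proj_smul hy1]
    exact hy3.mem
  · obtain ⟨j, hj⟩ : ∃ j, g z j ≠ 0 := Function.ne_iff.1 h0
    have hgj : ContinuousAt (fun w => g w j) z :=
      (continuous_apply j).continuousAt.comp hg.continuousAt
    have h1 : Tendsto (fun q : (Fin M → ℂ) × E e => (q.1 j / g q.2 j, q.2))
        (𝓝 (t • g z) ×ˢ 𝓝 z) (𝓝 (t, z)) := by
      refine Tendsto.prodMk_nhds ?_ tendsto_snd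
      have h2 : Tendsto (fun q : (Fin M → ℂ) × E e => q.1 j / g q.2 j)
          (𝓝 (t • g z) ×ˢ 𝓝 z) (𝓝 ((t • g z) j / g z j)) :=
        (((continuous_apply j).tendsto _).comp tendsto_fst).div (hgj.tendsto.comp tendsto_snd) hj
      rwa [Pi.smul_apply, smul_eq_mul, mul_div_cancel_right₀ _ hj] at h2
    obtain ⟨A, hA, B, hB, hAB⟩ := eventually_prod_iff.1 (h1.eventually hk3)
    have h3 : ∀ᶠ x in 𝓝[X] proj (g z), ∃ w, (B w ∧ g w j ≠ 0) ∧ proj (g w) = x := by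
      rw [← hp.map, eventually_map]
      filter_upwards [hB, hgj.eventually_ne hj] with w hw hw'
      exact ⟨w, ⟨hw, hw'⟩, rfl⟩
    have hv0 : t • g z ≠ 0 := smul_ne_zero ht h0
    have h4 : Tendsto proj (𝓝 (t • g z)) (𝓝 (proj (g z))) := by
      have := (cont_proj hv0).tendsto
      rwa [proj_smul ht] at this
    filter_upwards [hA, h4.eventually (eventually_nhdsWithin_iff.1 h3),
      eventually_ne_nhds hv0] with v hvA hv hv1 hvX
    obtain ⟨w, ⟨hwB, hwj⟩, hw⟩ := hv hvX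
    obtain ⟨a, -, rfl⟩ := (proj_eq_iff (fun h => hwj (congrFun h j)) hv1).1 hw
    have h5 := hAB hvA hwB
    simp only [Pi.smul_apply, smul_eq_mul, mul_div_cancel_right₀ _ hwj] at h5
    change k (π (a • g w)) = _ at h5
    rw [h5]
  · have h1 : HasFDerivAt ψ (fderiv ℂ ψ (t, z)) (k (π (t • g z))) := by
      rw [hk2]; exact hψ.differentiableAt.hasFDerivAt
    have h2 : HasFDerivAt (fun y => ψ (k y)) _ (π (t • g z)) :=
      h1.comp _ hk1.self_of_nhds.hasFDerivAt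
    rw [h2.fderiv, ContinuousLinearMap.comp_apply, hdψ]
    exact ⟨_, _, rfl⟩

/-- Chow: the equations cut out the tangent space -/
theorem chow3 (hX : Mf e X) {g : E e → Fin M → ℂ} {z : E e} (hp : Pt X (proj ∘ g) z (proj (g z)))
    (hg : AnalyticAt ℂ g z) (h0 : g z ≠ 0)
    (hi : ∀ (v : E e) (c : ℂ), fderiv ℂ g z v = c • g z → v = 0) {ξ : Fin M → ℂ}
    (hξ : ∀ (v : E e) (c : ℂ), ξ ≠ fderiv ℂ g z v + c • g z) :
    ∃ (P : MvPolynomial (Fin M) ℂ) (k : ℕ), P.IsHomogeneous k ∧ fderiv ℂ (ev P) (g z) ξ ≠ 0 ∧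
      ∀ u, u ≠ 0 → proj u ∈ X → ev P u = 0 := by
  classical
  obtain ⟨c, hc, hinj⟩ := cone_chain hX (holP_id (n := e) (X := X))
  have hG : ∀ v, v ∈ c.F '' c.good ↔ v ≠ 0 ∧ proj v ∈ X := fun v => by
    rw [hc]
    refine and_congr_right fun _ => ⟨?_, fun h => ?_⟩
    · rintro ⟨x, hx, -, hxv⟩
      exact hxv ▸ hx
    · obtain ⟨φ, w, hw⟩ := hX.chart _ h
      exact ⟨_, h, hw.immP, rfl⟩
  obtain ⟨L, hL⟩ := c.exists_localCover 0
  let T : (ℂ × E e) →ₗ[ℂ] (Fin M → ℂ) :=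
    LinearMap.coprod (LinearMap.toSpanSingleton ℂ _ (g z)) (fderiv ℂ g z : E e →ₗ[ℂ] Fin M → ℂ)
  have hT : ∀ u : ℂ × E e, T u = fderiv ℂ g z u.2 + u.1 • g z := fun u => add_comm _ _
  have hT0 : ∀ u, T u = 0 → u = 0 := fun u hu => by
    rw [hT] at hu
    have h1 : u.2 = 0 := hi u.2 (-u.1) (by rw [neg_smul]; exact eq_neg_of_add_eq_zero_left hu)
    rw [h1, map_zero, zero_add] at hu
    exact Prod.ext ((smul_eq_zero.1 hu).resolve_right h0) h1
  let T' : (ℂ × E e) →ₗ[ℂ] E (Module.finrank ℂ (Fin M → ℂ)) := L.toLinearEquiv.toLinearMap ∘ₗ T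
  have hT'0 : ∀ u, T' u = 0 → u = 0 := fun u hu => hT0 u (L.map_eq_zero_iff.1 hu)
  obtain ⟨R, -, hcard, -, hR⟩ := exists_coords (LinearMap.range T') ∅
    fun y => ⟨0, Submodule.zero_mem _, fun i hi => absurd hi (Finset.notMem_empty i)⟩
  rw [LinearMap.finrank_range_of_inj ((injective_iff_map_eq_zero _).2 hT'0)] at hcard
  obtain ⟨W, Δ, F, K, hW, hcov⟩ := hL (R.orderEmbOfFin hcard).toEmbedding
  obtain ⟨r, hr, hrW⟩ := Metric.isOpen_iff.1 hcov.openW 0 hW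
  obtain ⟨t, ht, htv⟩ := (small_XG6 (by positivity : 0 < r / 6) (g z)).exists
  obtain ⟨σ, hσ, hσ0, hσ1, hσ2, hσ3⟩ := cone_graph hp hg h0
    (m := Module.finrank ℂ (ℂ × E e)) (by simp [add_comm])
    (ContinuousLinearMap.pi fun a =>
      (ContinuousLinearMap.proj ((R.orderEmbOfFin hcard).toEmbedding a)).comp
        (L : (Fin M → ℂ) →L[ℂ] (Fin (Module.finrank ℂ (Fin M → ℂ)) → ℂ)))
    (fun v a hva => by
      have h1 : T' (a, v) = 0 := by
        refine hR _ ⟨(a, v), rfl⟩ fun i hi => ?_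
        have h2 : i ∈ Set.range (R.orderEmbOfFin hcard) := by
          rw [Finset.range_orderEmbOfFin]; exact hi
        obtain ⟨b, rfl⟩ := h2
        have h3 := congrFun hva b
        show L (T (a, v)) _ = 0
        rw [hT]
        exact h3
      have h2 := hT'0 _ h1
      exact ⟨congrArg Prod.snd h2, congrArg Prod.fst h2⟩) ht
  obtain ⟨G, hGd, hG0, hG1⟩ := norm_deriv (ξ := ξ) hcov (hinj (injOn_id X))
    (hrW (Metric.ball_subset_ball (by linarith) htv)) hσ hσ0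
    (hσ1.mono fun y hy => ⟨(hG _).2 hy.1, hy.2⟩) (hσ2.mono fun v hv hv' => hv ((hG _).1 hv').2)
    (fun h => by
      obtain ⟨v, a, hva⟩ := hσ3 _
      exact hξ v a (h.trans hva))
  obtain ⟨P, hP, hz, hv'⟩ := homp hr (hGd.mono hrW)
  obtain ⟨j, hj⟩ := (hv' _ htv).2 ξ hG1
  refine ⟨P j, j, hP j, fun h1 => hj ((fderiv_ev_smul (hP j) ht _ _).2 h1),
    fun u hu hux => hz u ?_ j⟩
  filter_upwards [small_XG6 hr u] with s hs
  exact hG0 _ ⟨hrW hs.2, (hG _).2 ⟨smul_ne_zero hs.1 hu, by rwa [proj_smul hs.1]⟩⟩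

end Pool.Agent.HIR
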