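import Pool.Agent.P.MP_65ad7c_ag.XI1
import Pool.Agent.P.MP_65ad7c_ag.VOpen

open Set Filter Topology Asymptotics
open scoped ComplexConjugate
open Pool.Agent.HT (Amb proj cj IsChart IsSNC)
open Pool.Agent.PWV (ZC ZI Dim)

noncomputable section
namespace Pool.Agent.HIR

variable {d e M N : ℕ} {p : Ideal (MvPolynomial (Fin N) ℂ)}

/-- a polynomial that vanishes on an open set is zero -/
theorem poly_zero {P : MvPolynomial (Fin e) ℂ} {z : Fin e → ℂ}
    (h : ∀ᶠ w in 𝓝 z, MvPolynomial.eval w P = 0) : P = 0 := by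
  have h1 := (AnalyticOnNhd.eval_mvPolynomial P).eqOn_zero_of_preconnected_of_eventuallyEq_zero
    isPreconnected_univ (mem_univ z) h
  exact MvPolynomial.funext fun x => by simpa using h1 (mem_univ x)

theorem dim_le {Y : Set (Fin N → ℂ)} (hd : Dim Y (d + 1)) {g : E e → Fin N → ℂ} {z : E e}
    (hg : AnalyticAt ℂ g z) (hi : Function.Injective (fderiv ℂ g z))
    (hY : ∀ᶠ w in 𝓝 z, g w ∈ Y) : e ≤ d := by
  by_contra hlt
  have hd2 : Dim Y e := hd.mono_nat (by omega)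
  obtain ⟨L, hL⟩ := LinearMap.exists_leftInverse_of_injective
    (fderiv ℂ g z : E e →ₗ[ℂ] (Fin N → ℂ)) (LinearMap.ker_eq_bot.2 hi)
  obtain ⟨P, hP, h1⟩ := hd2 fun i => ∑ j, MvPolynomial.C (L (Pi.single j 1) i) * MvPolynomial.X j
  have h2 : ∀ x ∈ Y, MvPolynomial.eval (L x) P = 0 := fun x hx => by
    rw [← h1 x hx]
    refine congrArg (fun y => MvPolynomial.eval y P) (funext fun i => ?_)
    conv_lhs => rw [pi_eq_sum_univ' x]
    simp [mul_comm]
  have hτ : AnalyticAt ℂ (LinearMap.toContinuousLinearMap L ∘ g) z :=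
    ((LinearMap.toContinuousLinearMap L).analyticAt _).comp hg
  obtain ⟨σ, hb⟩ := bi_of_inj hτ fun v hv => by
    rw [fderiv_comp z (LinearMap.toContinuousLinearMap L).differentiableAt hg.differentiableAt,
      ContinuousLinearMap.fderiv] at hv
    exact (LinearMap.congr_fun hL v).symm.trans hv
  refine hP (poly_zero (z := (LinearMap.toContinuousLinearMap L ∘ g) z) ?_)
  rw [← hb.map_nhds, eventually_map]
  exact hY.mono fun w hw => h2 _ hw

theorem not_thin (hp : p.IsPrime) (hd : ¬ Dim (ZI p) d) : ¬ Weil.Thin d (ZI p) := by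
  intro ht
  unfold Dim at hd
  push Not at hd
  obtain ⟨G, hG⟩ := hd
  obtain ⟨δ, hδ, h1⟩ := PWV.proj_open G hp
  obtain ⟨x, hx, hxδ⟩ : ∃ x ∈ ZI p, MvPolynomial.eval x δ ≠ 0 := by
    by_contra hc
    push Not at hc
    exact hδ (PWV.null hp hc)
  have h2 : ZI (p.comap (MvPolynomial.aeval G).toRingHom) = univ := by
    refine eq_univ_of_forall fun y f hf => ?_
    by_cases h0 : f = 0
    · rw [h0, map_zero]
    · obtain ⟨u, hu, hne⟩ := hG f h0
      exact absurd ((PWV.vdim_subst u G f).symm.trans (hu _ hf)) hne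
  have h3 := h1 x hx hxδ
  rw [h2, nhdsWithin_univ] at h3
  have h4 : PWV.pm G '' ZI p ∈ 𝓝 (PWV.pm G x) := h3 (image_mem_map self_mem_nhdsWithin)
  have h5 : Weil.Thin (Module.finrank ℂ (Fin d → ℂ)) (PWV.pm G '' ZI p) := by
    rw [Module.finrank_fin_fun]
    exact ht.image fun y _ => AnalyticAt.pi fun i =>
      AnalyticOnNhd.eval_mvPolynomial (G i) y (mem_univ y)
  exact (MeasureTheory.Measure.measure_pos_of_mem_nhds MeasureTheory.volume h4).ne'
    (h5.measure_zero MeasureTheory.volume)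

theorem chart_XI5 {X : Set (Amb M)} {ph : Amb M → Amb (N + 1)} {φ : E e → Amb M} {z : E e}
    {x : Amb M} {g : E e → Fin (N + 1) → ℂ} (hpt : Pt X φ z x) (hg : AnalyticAt ℂ g z)
    (h0 : g z ≠ 0) (hev : ph ∘ φ =ᶠ[𝓝 z] proj ∘ g) (hx : ph x (0, 0) ≠ 0) :
    g z 0 ≠ 0 ∧ AnalyticAt ℂ (fun w (j : Fin N) => g w j.succ / g w 0) z ∧
      ∀ᶠ w in 𝓝 z, ph (φ w) (0, 0) ≠ 0 ∧ deh (ph (φ w)) = fun j : Fin N => g w j.succ / g w 0 := by
  have e1 : ph x = proj (g z) := hpt.eq ▸ hev.self_of_nhds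
  have k0 : g z 0 ≠ 0 := fun k => hx (e1 ▸ (proj_diag h0 0).2 k)
  refine ⟨k0, AnalyticAt.pi fun j => (an_app_XE2 hg _).div (an_app_XE2 hg 0) k0, ?_⟩
  filter_upwards [hev, ev_ne_XE2 hg k0] with w h1 h2
  have e2 : ph (φ w) = proj (g w) := h1
  rw [e2]
  exact ⟨fun k => h2 ((proj_diag (fun k' => h2 (congrFun k' 0)) 0).1 k), deh_proj h2⟩

theorem inj_XI5 {z : E e} {g : E e → Fin (N + 1) → ℂ} (hg : AnalyticAt ℂ g z) (k0 : g z 0 ≠ 0)
    (him : ∀ (v : E e) (c : ℂ), fderiv ℂ g z v = c • g z → v = 0) :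
    Function.Injective (fderiv ℂ (fun w (j : Fin N) => g w j.succ / g w 0) z) := by
  refine (injective_iff_map_eq_zero _).2 fun v hv => ?_
  have hG := (an_nrm_XE2 hg k0).differentiableAt
  have e1 : (fun w (j : Fin N) => g w j.succ / g w 0) =
      (ContinuousLinearMap.pi fun j : Fin N =>
        ContinuousLinearMap.proj (R := ℂ) (φ := fun _ : Fin (N + 1) => ℂ) j.succ) ∘
        fun y => (g y 0)⁻¹ • g y := by
    funext w j
    simp [div_eq_inv_mul]
  rw [e1, fderiv_comp z (ContinuousLinearMap.differentiableAt _) hG, ContinuousLinearMap.fderiv,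
    ContinuousLinearMap.comp_apply, d_nrm_XE2 hg.differentiableAt k0] at hv
  refine him v (fderiv ℂ g z v 0 / g z 0) (funext fun i => ?_)
  rw [Pi.smul_apply, smul_eq_mul]
  refine Fin.cases ?_ (fun j => ?_) i
  · field_simp
  · have h1 := congrFun hv j
    simp only [ContinuousLinearMap.pi_apply, ContinuousLinearMap.proj_apply, Pi.sub_apply,
      Pi.smul_apply, smul_eq_mul, Pi.zero_apply] at h1
    field_simp at h1 ⊢
    linear_combination h1

/-- the dimension of a modification -/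
theorem Md.dim {X : Set (Amb M)} {ph : Amb M → Amb (N + 1)} {H : MvPolynomial (Fin (N + 1)) ℂ}
    (h : Md e X ph (ZI p) H) (hX : Mf e X) (hp : p.IsPrime) (hH : NV (ZI p) H)
    (hi : ∀ x ∈ X, ph x ∈ Wo H → ImmP e X ph x) (hd : Dim (ZI p) (d + 1))
    (hd' : ¬ Dim (ZI p) d) : e = d := by
  refine le_antisymm ?_ ?_
  · obtain ⟨y, hy, hH'⟩ := hH
    obtain ⟨x, hx, e1⟩ := h.surj y hy
    have hw : ph x ∈ Wo H := e1 ▸ aff_Wo.2 hH'
    obtain ⟨φ, z, g, hpt, hg, h0, hev, him⟩ := hi x hx hw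
    obtain ⟨k0, k1, k2⟩ := chart_XI5 hpt hg h0 hev hw.1
    refine dim_le hd k1 (inj_XI5 hg k0 him) ?_
    filter_upwards [k2, hpt.ev] with w h1 h2
    rw [← h1.2]
    exact h.im _ h2.mem h1.1
  · by_contra hlt
    refine not_thin hp hd' ((Weil.thin_of_locally (A := {x | x ∈ X ∧ ph x (0, 0) ≠ 0})
      (g := fun x => deh (ph x)) fun x hx => ?_).mono (fun y hy => ?_) le_rfl)
    · obtain ⟨φ, z, hpt⟩ := hX.chart x hx.1
      obtain ⟨g, hg, h0, hev⟩ := h.hol φ z x hpt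
      obtain ⟨k0, k1, k2⟩ := chart_XI5 hpt hg h0 hev hx.2
      have h1 := image_mem_map (m := φ) (k1.eventually_analyticAt.and k2)
      rw [hpt.map, mem_nhdsWithin_iff_exists_mem_nhds_inter] at h1
      obtain ⟨U, hU, h2⟩ := h1
      refine ⟨U, hU, (Weil.thin_of_param (m := d) (P := E e)
        (φ := fun w (j : Fin N) => g w j.succ / g w 0)
        (U := {w | AnalyticAt ℂ (fun w (j : Fin N) => g w j.succ / g w 0) w}) ?_
        fun w hw => hw).mono ?_ le_rfl⟩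
      · rw [Module.finrank_fin_fun]
        omega
      · rintro _ ⟨u, hu, rfl⟩
        obtain ⟨w, hw, rfl⟩ := h2 ⟨hu.2, hu.1.1⟩
        exact ⟨w, hw.1, hw.2.2.symm⟩
    · obtain ⟨x, hx, e1⟩ := h.surj y hy
      exact ⟨x, ⟨hx, e1 ▸ aff_zero y⟩, by simp only [e1, deh_aff]⟩

end Pool.Agent.HIR
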