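import Pool.Agent.P.MP_65ad7c_ag.VDim

open Set Filter Topology Metric

noncomputable section
namespace Pool.Agent.PWV

open MvPolynomial

variable {n : ℕ}

theorem null {σ : Type} [Finite σ] {p : Ideal (MvPolynomial σ ℂ)} (hp : p.IsPrime)
    {f : MvPolynomial σ ℂ} (h : ∀ x ∈ ZI p, eval x f = 0) : f ∈ p := by
  rw [← IsPrime.vanishingIdeal_zeroLocus (K := ℂ) p]
  exact fun x hx => h x hx

theorem drop {σ : Type} [Finite σ] {p : Ideal (MvPolynomial σ ℂ)} (hp : p.IsPrime)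
    {δ : MvPolynomial σ ℂ} (hδ : δ ∉ p) {e : ℕ} (h : Dim (ZI p) (e + 1)) :
    Dim (ZI p ∩ {x | eval x δ = 0}) e := by
  intro f
  obtain ⟨P, hP, h1⟩ := h (Fin.cons δ f)
  have hQ : finSuccEquiv ℂ e P ≠ 0 := (map_ne_zero_iff _ (finSuccEquiv ℂ e).injective).2 hP
  obtain ⟨Q, h2, h3⟩ := Polynomial.exists_eq_pow_rootMultiplicity_mul_and_not_dvd _ hQ 0
  generalize Polynomial.rootMultiplicity 0 (finSuccEquiv ℂ e P) = s at h2
  rw [map_zero, sub_zero] at h2 h3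
  have h4 : ∀ x : σ → ℂ, eval x (Q.eval₂ (eval₂Hom C f) δ) =
      (Q.map (eval fun i => eval x (f i))).eval (eval x δ) := fun x => by
    rw [Polynomial.hom_eval₂, Polynomial.eval_map]
    congr 1
    exact ringHom_ext (fun c => by simp) fun i => by simp
  have h5 : δ ^ s * Q.eval₂ (eval₂Hom C f) δ ∈ p := null hp fun x hx => by
    have h6 := h1 x hx
    have h7 : (fun i => eval x ((Fin.cons δ f : Fin (e + 1) → MvPolynomial σ ℂ) i)) =
        Fin.cons (eval x δ) fun i => eval x (f i) := funext fun i => Fin.cases rfl (fun _ => rfl) i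
    rw [h7, eval_eq_eval_mv_eval', h2] at h6
    rw [map_mul, map_pow, h4]
    simpa using h6
  have h6 := (hp.mem_or_mem h5).resolve_left fun h' => hδ (hp.mem_of_pow_mem s h')
  refine ⟨Q.coeff 0, fun h' => h3 (Polynomial.X_dvd_iff.2 h'), fun x hx => ?_⟩
  have h7 := hx.1 _ h6
  rwa [h4, hx.2, ← Polynomial.coeff_zero_eq_eval_zero, Polynomial.coeff_map] at h7

theorem dim_hyp {g : MvPolynomial (Fin n) ℂ} (hg : g ≠ 0) : Dim {x | eval x g = 0} n := by
  refine (drop (p := ⊥) Ideal.isPrime_bot (δ := g) hg ((dim_univ n).mono (subset_univ _))).mono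
    fun x hx => ⟨fun f hf => ?_, hx⟩
  rw [Ideal.mem_bot.1 hf, map_zero]

/-- Decomposition into irreducible components. -/
theorem ZC.exists_primes {σ : Type} [Finite σ] {V : Set (σ → ℂ)} (hV : ZC V) :
    ∃ s : Set (Ideal (MvPolynomial σ ℂ)), s.Finite ∧ (∀ p ∈ s, p.IsPrime) ∧
      (∀ p ∈ s, ∀ q ∈ s, q ≤ p → q = p) ∧ V = ⋃ p ∈ s, ZI p := by
  obtain ⟨S, rfl⟩ := hV
  refine ⟨(Ideal.span S).minimalPrimes, Ideal.finite_minimalPrimes_of_isNoetherianRing _ _,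
    fun p hp => hp.1.1, fun p hp q hq h => le_antisymm h (hp.2 hq.1 h), ?_⟩
  ext x
  simp only [mem_iUnion]
  constructor
  · intro hx
    have : (RingHom.ker (eval x : MvPolynomial σ ℂ →+* ℂ)).IsPrime := RingHom.ker_isPrime _
    obtain ⟨p, h1, h2⟩ := Ideal.exists_minimalPrimes_le (I := Ideal.span S)
      (J := RingHom.ker (eval x : MvPolynomial σ ℂ →+* ℂ)) (Ideal.span_le.2 fun f hf => hx f hf)
    exact ⟨p, h1, fun f hf => h2 hf⟩
  · rintro ⟨p, h1, h2⟩ f hf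
    exact h2 f (h1.1.2 (Ideal.subset_span hf))

/-- Off a subset of smaller dimension, `V` is locally one component of top dimension. -/
theorem comp {V : Set (Fin n → ℂ)} {e : ℕ} (hV : ZC V) (hd : Dim V (e + 1))
    (δ : Ideal (MvPolynomial (Fin n) ℂ) → MvPolynomial (Fin n) ℂ)
    (hδ : ∀ p, p.IsPrime → δ p ∉ p) :
    ∃ V', ZC V' ∧ Dim V' e ∧ ∀ x ∈ V \ V', ∃ p : Ideal (MvPolynomial (Fin n) ℂ), p.IsPrime ∧
      ZI p ⊆ V ∧ ¬ Dim (ZI p) e ∧ x ∈ ZI p ∧ eval x (δ p) ≠ 0 ∧ ∀ᶠ y in 𝓝 x, y ∈ V → y ∈ ZI p := by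
  classical
  obtain ⟨s, h1, h2, h3, rfl⟩ := hV.exists_primes
  have h4 : ∀ p, ∃ g, p ∈ s → g ∉ p ∧ ∀ q ∈ s, q ≠ p → g ∈ q := fun p => by
    by_cases hp : p ∈ s
    · have : ¬ (h1.toFinset.erase p).inf id ≤ p := fun h => by
        obtain ⟨q, hq, h'⟩ := (h2 p hp).inf_le'.1 h
        obtain ⟨k1, k2⟩ := Finset.mem_erase.1 hq
        exact k1 (h3 p hp q (h1.mem_toFinset.1 k2) h')
      obtain ⟨g, k1, k2⟩ := not_subset.1 this
      exact ⟨g, fun _ => ⟨k2, fun q hq hqp => (Finset.inf_le (f := id)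
        (Finset.mem_erase.2 ⟨hqp, h1.mem_toFinset.2 hq⟩)) k1⟩⟩
    · exact ⟨0, fun h => absurd h hp⟩
  choose g h4 using h4
  have hsub : ∀ p ∈ s, ZI p ⊆ ⋃ p ∈ s, ZI p := fun p hp => subset_biUnion_of_mem hp
  refine ⟨⋃ p ∈ s, if Dim (ZI p) e then ZI p else ZI p ∩ {x | eval x (δ p * g p) = 0},
    zc_biUnion h1 fun p _ => ?_, dim_biUnion h1 fun p hp => ?_, fun x hx => ?_⟩
  · split_ifs
    · exact zc_ZI p
    · exact (zc_ZI p).inter (zc_zero _)
  · split_ifs with h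
    · exact h
    · exact drop (h2 p hp) (fun h' => ((h2 p hp).mem_or_mem h').elim (hδ p (h2 p hp)) (h4 p hp).1)
        (hd.mono (hsub p hp))
  · obtain ⟨p, hp, hxp⟩ := mem_iUnion₂.1 hx.1
    have h5 : x ∉ (if Dim (ZI p) e then ZI p else ZI p ∩ {x | eval x (δ p * g p) = 0}) :=
      fun h => hx.2 (mem_iUnion₂.2 ⟨p, hp, h⟩)
    split_ifs at h5 with h
    · exact absurd hxp h5
    · have h6 : eval x (δ p) * eval x (g p) ≠ 0 := fun h' => h5 ⟨hxp, (map_mul _ _ _).trans h'⟩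
      refine ⟨p, h2 p hp, hsub p hp, h, hxp, left_ne_zero_of_mul h6, ?_⟩
      filter_upwards [(continuous_eval (g p)).continuousAt.eventually_ne (right_ne_zero_of_mul h6)]
        with y hy hyV
      obtain ⟨q, hq, hyq⟩ := mem_iUnion₂.1 hyV
      by_cases hqp : q = p
      · exact hqp ▸ hyq
      · exact absurd (hyq _ ((h4 p hp).2 q hq hqp)) hy

end Pool.Agent.PWV
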