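import Pool.Agent.P.MP_65ad7c_ag.XA2

open Set Filter Topology Asymptotics
open scoped ComplexConjugate

noncomputable section
namespace Pool.Agent.HIR

variable {n m m' : ℕ} {z : E n} {f g : E n → ℂ} {i j : Fin n} {K T : Finset (Fin n)}

theorem ord_zero (h : ContinuousAt f z) : Ord z 0 f := by
  unfold Ord
  simpa only [pow_zero] using h.isBigO_one ℝ

theorem ord_zero_fun (z : E n) (m : ℕ) : Ord z m 0 := isBigO_zero _ _

theorem Ord.mono (h : Ord z m f) (hm : m' ≤ m) : Ord z m' f := by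
  refine IsBigO.trans h (IsBigO.of_bound 1 ?_)
  filter_upwards [Metric.ball_mem_nhds z one_pos] with w hw
  rw [one_mul, Real.norm_of_nonneg (by positivity), Real.norm_of_nonneg (by positivity)]
  exact pow_le_pow_of_le_one (norm_nonneg _) (mem_ball_iff_norm.1 hw).le hm

theorem Ord.congr (h : Ord z m f) (e : f =ᶠ[𝓝 z] g) : Ord z m g :=
  IsBigO.congr' h e EventuallyEq.rfl

theorem Ord.add (h : Ord z m f) (h' : Ord z m g) : Ord z m (f + g) :=
  IsBigO.add h h'

theorem Ord.sub (h : Ord z m f) (h' : Ord z m g) : Ord z m (f - g) :=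
  IsBigO.sub h h'

theorem Ord.mul (h : Ord z m f) (h' : Ord z m' g) : Ord z (m + m') (f * g) := by
  unfold Ord
  simp only [pow_add]
  exact IsBigO.mul h h'

theorem Ord.mul_left (h : Ord z m f) (hg : ContinuousAt g z) : Ord z m (g * f) := by
  have h1 := (ord_zero hg).mul h
  rwa [zero_add] at h1

theorem Ord.sum {ι : Type} (s : Finset ι) {F : ι → E n → ℂ} (h : ∀ k ∈ s, Ord z m (F k)) :
    Ord z m (∑ k ∈ s, F k) := by
  classical
  induction s using Finset.induction_on with
  | empty => exact ord_zero_fun z m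
  | insert a s ha ih =>
    rw [Finset.sum_insert ha]
    exact (h a (Finset.mem_insert_self a s)).add
      (ih fun k hk => h k (Finset.mem_insert_of_mem hk))

theorem Ord.of_unit (h : Ord z m (g * f)) (hg : ContinuousAt g z) (h0 : g z ≠ 0) : Ord z m f := by
  refine (h.mul_left (hg.inv₀ h0)).congr ?_
  filter_upwards [hg.eventually_ne h0] with w hw
  change (g w)⁻¹ * (g w * f w) = f w
  rw [inv_mul_cancel_left₀ hw]

theorem Ord.of_isBigO (h : Ord z m f) (e : g =O[𝓝 z] f) : Ord z m g :=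
  e.trans h

theorem Ord.eq_zero (h : Ord z (m + 1) f) : f z = 0 :=
  (IsBigO.eq_zero_imp h).self_of_nhds (by rw [sub_self, norm_zero, zero_pow (Nat.succ_ne_zero m)])

theorem ord_one (h : An z f) (h0 : f z = 0) : Ord z 1 f := by
  have h1 := h.differentiableAt.isBigO_sub.norm_right
  unfold Ord
  simpa only [h0, sub_zero, pow_one] using h1

theorem Ord.comp {τ : E n → E n} (h : Ord (τ z) m f) (hτ : DifferentiableAt ℂ τ z) :
    Ord z m (f ∘ τ) :=
  (IsBigO.comp_tendsto h hτ.continuousAt).trans (hτ.isBigO_sub.norm_norm.pow m)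

theorem Ord.of_pow {t : ℕ} (ht : 0 < t) (h : Ord z (t * m) (f ^ t)) : Ord z m f := by
  have h1 : (fun w => ‖f w‖ ^ t) =O[𝓝 z] fun w => (‖w - z‖ ^ m) ^ t := by
    refine (IsBigO.norm_left h).congr (fun w => ?_) fun w => ?_
    · rw [Pi.pow_apply, norm_pow]
    · rw [← pow_mul, mul_comm]
  exact (IsBigO.of_pow ht.ne' h1).of_norm_left

theorem Ord.cf (h : Ord z m f) : Ord (star z) m (cf f) := by
  have h1 : Tendsto (star : E n → E n) (𝓝 (star z)) (𝓝 z) := by
    have h2 := (continuous_star (R := E n)).tendsto (star z)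
    rwa [star_star] at h2
  refine IsBigO.of_norm_left ((IsBigO.norm_left (IsBigO.comp_tendsto h h1)).congr
    (fun w => ?_) fun w => ?_)
  · exact (Complex.norm_conj _).symm
  · change ‖star w - z‖ ^ m = _
    rw [← norm_star (w - star z), star_sub, star_star]

theorem isBigO_of_pow {ι : Type} {l : Filter ι} {F G : ι → ℝ} {t : ℕ} (ht : 0 < t)
    (h : (fun w => F w ^ t) =O[l] fun w => G w ^ t) : F =O[l] G :=
  IsBigO.of_pow ht.ne' h

theorem le_of_pow_XA3 {k : ℕ} (h : (fun t : ℂ => t ^ k) =O[𝓝 0] fun t => ‖t‖ ^ m) : m ≤ k := by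
  by_contra hk
  obtain ⟨d, rfl⟩ : ∃ d, m = k + (d + 1) := ⟨m - k - 1, by omega⟩
  obtain ⟨c, hc⟩ := h.bound
  have h1 : Tendsto (fun t : ℂ => c * ‖t‖ ^ (d + 1)) (𝓝 0) (𝓝 0) := by
    have h2 : Continuous fun t : ℂ => c * ‖t‖ ^ (d + 1) := by fun_prop
    simpa using h2.tendsto 0
  have h3 := (hc.and (h1.eventually_lt_const one_pos)).filter_mono
    (nhdsWithin_le_nhds (s := ({0}ᶜ : Set ℂ)))
  obtain ⟨t, ⟨h4, h5⟩, h6⟩ := (h3.and self_mem_nhdsWithin).exists
  have h7 : 0 < ‖t‖ ^ k := pow_pos (norm_pos_iff.2 h6) k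
  rw [norm_pow, Real.norm_of_nonneg (by positivity), pow_add] at h4
  nlinarith

theorem line_XA3 (h : Ord z m f) (v : E n) :
    (fun t : ℂ => f (z + t • v)) =O[𝓝 0] fun t => ‖t‖ ^ m := by
  have h1 : Tendsto (fun t : ℂ => z + t • v) (𝓝 0) (𝓝 z) := by
    have h2 : Continuous fun t : ℂ => z + t • v := by fun_prop
    simpa using h2.tendsto 0
  refine (IsBigO.comp_tendsto h h1).trans (IsBigO.of_bound (‖v‖ ^ m)
    (Eventually.of_forall fun t => le_of_eq ?_))
  change ‖‖z + t • v - z‖ ^ m‖ = _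
  rw [add_sub_cancel_left, norm_smul, mul_pow, norm_mul, mul_comm,
    Real.norm_of_nonneg (pow_nonneg (norm_nonneg v) m)]

/-- a power of a function with non-zero differential -/
theorem not_ord_pow (h : An z f) {v : E n} (hv : fderiv ℂ f z v ≠ 0) (b : ℕ) :
    ¬ Ord z (b + 1) (f ^ b) := by
  intro ho
  have h0 : f z = 0 := by_contra fun h1 => pow_ne_zero b h1 ho.eq_zero
  have h1 : HasDerivAt (fun t : ℂ => z + t • v) v 0 := by
    simpa using ((hasDerivAt_id (0 : ℂ)).smul_const v).const_add z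
  have h2 : HasFDerivAt f (fderiv ℂ f z) (z + (0 : ℂ) • v) := by
    rw [zero_smul, add_zero]
    exact h.differentiableAt.hasFDerivAt
  have h3 := ((h2.comp_hasDerivAt (0 : ℂ) h1).isTheta_sub hv).symm.isBigO.comp_tendsto
    (k := fun t : ℂ => (t, (0 : ℂ))) (tendsto_id.prodMk (tendsto_const_pure))
  have h4 : (fun t : ℂ => t) =O[𝓝 0] fun t => f (z + t • v) := by
    refine h3.congr (fun t => sub_zero t) fun t => ?_
    change f (z + t • v) - f (z + (0 : ℂ) • v) = _
    rw [zero_smul, add_zero, h0, sub_zero]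
  have h5 := le_of_pow_XA3 ((h4.pow b).trans (line_XA3 ho v))
  omega

theorem ord_mon {α : Fin n → ℕ} : Ord z m (mon α) ↔ m ≤ ∑ i with z i = 0, α i := by
  rw [Finset.sum_filter]
  constructor
  · intro h
    refine le_of_pow_XA3 (IsBigO.trans ?_ (line_XA3 h 1))
    have h1 : ∀ i, (fun t : ℂ => t ^ (if z i = 0 then α i else 0)) =O[𝓝 0]
        fun t => (z i + t) ^ α i := fun i => by
      by_cases hi : z i = 0
      · simp only [hi, if_true, zero_add]
        exact isBigO_refl _ _
      · have h2 : ContinuousAt (fun t : ℂ => (z i + t) ^ α i) 0 := by fun_prop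
        have h3 : (z i + 0) ^ α i ≠ 0 := pow_ne_zero _ (by rwa [add_zero])
        have h4 := ((h2.inv₀ h3).isBigO_one ℂ).mul
          (isBigO_refl (fun t : ℂ => (z i + t) ^ α i) (𝓝 0))
        refine h4.congr' ?_ (Eventually.of_forall fun t => one_mul _)
        filter_upwards [h2.eventually_ne h3] with t ht
        rw [if_neg hi, pow_zero]
        exact inv_mul_cancel₀ ht
    refine (IsBigO.finsetProd (s := Finset.univ) fun i _ => h1 i).congr (fun t => ?_) fun t => ?_
    · exact Finset.prod_pow_eq_pow_sum _ _ _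
    · simp [mon]
  · intro h
    refine Ord.mono ?_ h
    have h1 : ∀ i, Ord z (if z i = 0 then α i else 0) fun w => w i ^ α i := fun i => by
      by_cases hi : z i = 0
      · rw [if_pos hi]
        refine IsBigO.of_bound 1 (Eventually.of_forall fun w => ?_)
        rw [one_mul, norm_pow, Real.norm_of_nonneg (by positivity)]
        refine pow_le_pow_left₀ (norm_nonneg _) ?_ _
        have h2 := norm_le_pi_norm (w - z) i
        rwa [Pi.sub_apply, hi, sub_zero] at h2
      · rw [if_neg hi]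
        exact ord_zero ((continuous_apply i).pow (α i)).continuousAt
    refine (IsBigO.finsetProd (s := Finset.univ) fun i _ => h1 i).congr (fun w => rfl) fun w => ?_
    exact Finset.prod_pow_eq_pow_sum _ _ _

theorem list_XA3 {s : List (E n → ℂ)} (hs : ∀ u ∈ s, Ord z m u) :
    (fun w => (s.map fun u => ‖u w‖).sum) =O[𝓝 z] fun w => ‖w - z‖ ^ m := by
  induction s with
  | nil => exact isBigO_zero _ _
  | cons a s ih =>
    simp only [List.map_cons, List.sum_cons]
    exact (IsBigO.norm_left (hs a List.mem_cons_self)).add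
      (ih fun u hu => hs u (List.mem_cons_of_mem a hu))

/-- a bound by finitely many functions that vanish to order `m` at the nearby points of `C` -/
theorem ord_near {C : Set (E n)} {s : List (E n → ℂ)}
    (h : (fun w => ‖g w‖) =O[𝓝 z] fun w => (s.map fun u => ‖u w‖).sum)
    (hs : ∀ u ∈ s, ∀ᶠ w in 𝓝 z, w ∈ C → Ord w m u) : ∀ᶠ w in 𝓝 z, w ∈ C → Ord w m g := by
  obtain ⟨c, hc⟩ := h.bound
  have h1 : ∀ᶠ w in 𝓝 z, ∀ u ∈ {u | u ∈ s}, w ∈ C → Ord w m u :=
    (eventually_all_finite s.finite_toSet).2 hs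
  filter_upwards [hc.eventually_nhds, h1] with w h2 h3 hw
  exact ((IsBigO.of_bound c h2).trans (list_XA3 fun u hu => h3 u hu hw)).of_norm_left

end Pool.Agent.HIR
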