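import Pool.Agent.P.MP_65ad7c_ag.XA1
import Pool.Agent.P.MP_65ad7c_ag.XA3

open Set Filter Topology Asymptotics
open scoped ComplexConjugate

noncomputable section
namespace Pool.Agent.HIR

variable {n m k : ℕ} {z : E n} {f g h : E n → ℂ} {i j : Fin n} {α : Fin n → ℕ}

/-- the complement of the zero set of a monomial is dense, also in a coordinate subspace -/
theorem dense_mon {T : Finset (Fin n)} (hz : ∀ i ∈ T, z i = 0) (hα : ∀ i, α i ≠ 0 → i ∉ T) :
    ∃ᶠ w in 𝓝 z, (∀ i ∈ T, w i = 0) ∧ mon α w ≠ 0 := by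
  classical
  let v : E n := fun i => if i ∈ T then 0 else 1
  have ht : Tendsto (fun t : ℂ => z + t • v) (𝓝[≠] 0) (𝓝 z) := by
    have hc : Continuous fun t : ℂ => z + t • v := by fun_prop
    have := (hc.tendsto 0).mono_left (nhdsWithin_le_nhds (s := ({0}ᶜ : Set ℂ)))
    simpa using this
  refine ht.frequently (Eventually.frequently ?_)
  have h1 : ∀ i, ∀ᶠ t : ℂ in 𝓝[≠] 0, z i + t ≠ 0 := by
    intro i
    by_cases h : z i = 0
    · filter_upwards [self_mem_nhdsWithin] with t ht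
      simpa [h] using ht
    · have hc : ContinuousAt (fun t : ℂ => z i + t) 0 := by fun_prop
      exact (hc.eventually_ne (by simpa using h)).filter_mono nhdsWithin_le_nhds
  filter_upwards [eventually_all.2 h1] with t ht
  refine ⟨fun i hi => by simp [v, hi, hz i hi], ?_⟩
  refine Finset.prod_ne_zero_iff.2 fun i _ => ?_
  by_cases h : α i = 0
  · simp [h]
  · have hi := hα i h
    refine pow_ne_zero _ ?_
    simpa [v, hi] using ht i

/-- projection to a coordinate line -/
def pr_XA5 (i : Fin n) : E n →L[ℂ] E n :=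
  (ContinuousLinearMap.proj i : E n →L[ℂ] ℂ).smulRight (Pi.single i 1)

/-- scale one coordinate -/
def sc_XA5 (i : Fin n) (t : ℝ) : E n →L[ℂ] E n :=
  ContinuousLinearMap.id ℂ (E n) + ((t : ℂ) - 1) • pr_XA5 i

theorem sc_apply_XA5 (i : Fin n) (t : ℝ) (w : E n) (j : Fin n) :
    sc_XA5 i t w j = if j = i then (t : ℂ) * w i else w j := by
  by_cases h : j = i
  · subst h
    simp [sc_XA5, pr_XA5]
    ring
  · simp [sc_XA5, pr_XA5, h]

theorem sc_cont_XA5 (i : Fin n) : Continuous (sc_XA5 i : ℝ → E n →L[ℂ] E n) := by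
  unfold sc_XA5
  fun_prop

theorem sc_norm_XA5 (i : Fin n) {t : ℝ} (ht : t ∈ Icc (0 : ℝ) 1) :
    ‖sc_XA5 i t‖ ≤ 1 + ‖pr_XA5 i‖ := by
  refine (norm_add_le _ _).trans (add_le_add ContinuousLinearMap.norm_id_le ?_)
  rw [norm_smul]
  have h1 : ‖(t : ℂ) - 1‖ ≤ 1 := by
    rw [← Complex.ofReal_one, ← Complex.ofReal_sub, Complex.norm_real, Real.norm_eq_abs, abs_le]
    constructor <;> linarith [ht.1, ht.2]
  exact mul_le_of_le_one_left (norm_nonneg _) h1

theorem sc_near_XA5 (hz : z i = 0) {t : ℝ} (ht : t ∈ Icc (0 : ℝ) 1) (w : E n) :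
    ‖sc_XA5 i t w - z‖ ≤ ‖w - z‖ := by
  refine (pi_norm_le_iff_of_nonneg (norm_nonneg _)).2 fun j => ?_
  refine le_trans ?_ (norm_le_pi_norm (w - z) j)
  rw [Pi.sub_apply, Pi.sub_apply, sc_apply_XA5]
  split_ifs with h
  · subst h
    rw [hz, sub_zero, sub_zero, norm_mul, Complex.norm_real, Real.norm_of_nonneg ht.1]
    exact mul_le_of_le_one_left (norm_nonneg _) ht.2
  · exact le_rfl

theorem sc_deriv_XA5 (i : Fin n) (w : E n) (t : ℝ) :
    HasDerivAt (fun t : ℝ => sc_XA5 i t w) (w i • (Pi.single i 1 : E n)) t := by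
  have h1 : HasDerivAt (fun t : ℝ => (t : ℂ) - 1) 1 t :=
    (Complex.ofRealCLM.hasDerivAt (x := t)).sub_const 1
  have h2 := (h1.smul_const (w i • (Pi.single i 1 : E n))).const_add w
  simpa [sc_XA5, pr_XA5] using h2

theorem mon_single_XA5 (i : Fin n) (k : ℕ) : mon (Pi.single i k) = co i ^ k := by
  funext w
  simp only [mon, Pi.pow_apply, co]
  rw [Finset.prod_eq_single i]
  · simp
  · intro j _ hj
    simp [hj]
  · simp

theorem mon_add_XA5 (α β : Fin n → ℕ) : mon (α + β) = mon α * mon β := by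
  funext w
  simp [mon, pow_add, Finset.prod_mul_distrib]

/-- division by a coordinate -/
theorem div_co (hf : An z f) (hz : z i = 0) (h0 : ∀ᶠ w in 𝓝 z, w i = 0 → f w = 0) :
    ∃ q, An z q ∧ f =ᶠ[𝓝 z] co i * q := by
  have hg : An z (pd i f) := an_pd hf i
  have hc : ContinuousAt (fderiv ℂ (pd i f)) z := hg.fderiv.continuousAt
  have hb : ∀ᶠ w in 𝓝 z, ‖fderiv ℂ (pd i f) w‖ < ‖fderiv ℂ (pd i f) z‖ + 1 :=
    hc.norm.eventually_lt continuousAt_const (lt_add_one _)
  obtain ⟨r, hr, H⟩ := Metric.eventually_nhds_iff_ball.1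
    (hf.eventually_analyticAt.and (hg.eventually_analyticAt.and (hb.and h0)))
  have hmem : ∀ w ∈ Metric.ball z r, ∀ t ∈ Icc (0 : ℝ) 1, sc_XA5 i t w ∈ Metric.ball z r := by
    intro w hw t ht
    rw [mem_ball_iff_norm] at hw ⊢
    exact (sc_near_XA5 hz ht w).trans_lt hw
  have hsc : ∀ w : E n, Continuous fun t : ℝ => sc_XA5 i t w := fun w =>
    (sc_cont_XA5 i).clm_apply continuous_const
  have hF : ∀ w ∈ Metric.ball z r, ContinuousOn (fun t : ℝ => pd i f (sc_XA5 i t w)) (Icc 0 1) :=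
    fun w hw t ht => ((H _ (hmem w hw t ht)).2.1.continuousAt.comp
      (f := fun t : ℝ => sc_XA5 i t w) (hsc w).continuousAt).continuousWithinAt
  have hsub : uIoc (0 : ℝ) 1 ⊆ Icc 0 1 := by
    rw [uIoc_of_le zero_le_one]
    exact Ioc_subset_Icc_self
  refine ⟨fun w => ∫ t in (0 : ℝ)..1, pd i f (sc_XA5 i t w), an_of_ev ?_, ?_⟩
  · filter_upwards [Metric.ball_mem_nhds z hr] with w hw
    have hw' : Metric.ball z r ∈ 𝓝 w := Metric.isOpen_ball.mem_nhds hw
    refine (intervalIntegral.hasFDerivAt_integral_of_dominated_of_fderiv_le (𝕜 := ℂ)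
      (μ := MeasureTheory.volume) (F := fun w t => pd i f (sc_XA5 i t w))
      (F' := fun w t => (fderiv ℂ (pd i f) (sc_XA5 i t w)).comp (sc_XA5 i t))
      (bound := fun _ => (‖fderiv ℂ (pd i f) z‖ + 1) * (1 + ‖pr_XA5 i‖)) hw' ?_ ?_ ?_ ?_ ?_
      ?_).differentiableAt
    · filter_upwards [hw'] with y hy
      exact ((hF y hy).mono hsub).aestronglyMeasurable measurableSet_uIoc
    · exact (hF w hw).intervalIntegrable_of_Icc zero_le_one
    · refine ContinuousOn.aestronglyMeasurable (ContinuousOn.mono ?_ hsub) measurableSet_uIoc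
      refine ContinuousOn.clm_comp ?_ (sc_cont_XA5 i).continuousOn
      exact fun t ht => ((H _ (hmem w hw t ht)).2.1.fderiv.continuousAt.comp
        (f := fun t : ℝ => sc_XA5 i t w) (hsc w).continuousAt).continuousWithinAt
    · refine Eventually.of_forall fun t ht y hy => ?_
      refine (ContinuousLinearMap.opNorm_comp_le _ _).trans ?_
      exact mul_le_mul (H _ (hmem y hy t (hsub ht))).2.2.1.le (sc_norm_XA5 i (hsub ht))
        (norm_nonneg _) (by positivity)
    · exact intervalIntegrable_const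
    · refine Eventually.of_forall fun t ht y hy => ?_
      exact (H _ (hmem y hy t (hsub ht))).2.1.differentiableAt.hasFDerivAt.comp y
        (sc_XA5 i t).hasFDerivAt
  · filter_upwards [Metric.ball_mem_nhds z hr] with w hw
    have hd : ∀ t ∈ uIcc (0 : ℝ) 1, HasDerivAt (fun t : ℝ => f (sc_XA5 i t w))
        (w i * pd i f (sc_XA5 i t w)) t := by
      intro t ht
      rw [uIcc_of_le zero_le_one] at ht
      have h1 : HasFDerivAt f (fderiv ℂ f (sc_XA5 i t w)) (sc_XA5 i t w) :=
        (H _ (hmem w hw t ht)).1.differentiableAt.hasFDerivAt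
      have h2 := (h1.restrictScalars ℝ).comp_hasDerivAt t (sc_deriv_XA5 i w t)
      simpa [pd, Function.comp_def] using h2
    have hi : IntervalIntegrable (fun t : ℝ => w i * pd i f (sc_XA5 i t w))
        MeasureTheory.volume 0 1 :=
      ((hF w hw).intervalIntegrable_of_Icc zero_le_one).const_mul _
    have h3 := intervalIntegral.integral_eq_sub_of_hasDerivAt hd hi
    have h4 : f (sc_XA5 i 0 w) = 0 :=
      (H _ (hmem w hw 0 ⟨le_rfl, zero_le_one⟩)).2.2.2 (by simp [sc_apply_XA5])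
    have h5 : sc_XA5 i 1 w = w := by simp [sc_XA5]
    rw [h4, h5, sub_zero, intervalIntegral.integral_const_mul] at h3
    simp only [Pi.mul_apply, co]
    exact h3.symm

theorem canc_bigO {F G : E n → ℝ} (hF : ∀ᶠ w in 𝓝 z, ContinuousAt F w)
    (hG : ∀ᶠ w in 𝓝 z, ContinuousAt G w)
    (h : (fun w => ‖mon α w‖ * F w) =O[𝓝 z] fun w => ‖mon α w‖ * G w) : F =O[𝓝 z] G := by
  obtain ⟨C, hC⟩ := h.bound
  refine IsBigO.of_bound C ?_
  filter_upwards [hF, hG, hC.eventually_nhds] with w h1 h2 h3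
  refine le_of_tendsto_of_tendsto_of_frequently h1.norm.tendsto (h2.norm.tendsto.const_mul C) ?_
  refine ((dense_mon (z := w) (α := α) (T := ∅) (by simp) (by simp)).and_eventually h3).mono ?_
  rintro y ⟨⟨-, h4⟩, h5⟩
  rw [norm_mul, norm_mul, norm_norm, mul_left_comm] at h5
  exact le_of_mul_le_mul_left h5 (norm_pos_iff.2 h4)

theorem canc_mon (hf : An z f) (hg : An z g) (h : mon α * f =ᶠ[𝓝 z] mon α * g) :
    f =ᶠ[𝓝 z] g := by
  filter_upwards [hf.eventually_analyticAt, hg.eventually_analyticAt, h.eventually_nhds]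
    with w h1 h2 h3
  refine tendsto_nhds_unique_of_frequently_eq h1.continuousAt.tendsto h2.continuousAt.tendsto ?_
  refine ((dense_mon (z := w) (α := α) (T := ∅) (by simp) (by simp)).and_eventually h3).mono ?_
  rintro y ⟨⟨-, h4⟩, h5⟩
  exact mul_left_cancel₀ h4 h5

theorem canc_co (hf : An z f) (hg : An z g) (h : co i ^ k * f =ᶠ[𝓝 z] co i ^ k * g) :
    f =ᶠ[𝓝 z] g := by
  rw [← mon_single_XA5] at h
  exact canc_mon hf hg h

theorem div_mon (hf : An z f) (hα : ∀ i, α i ≠ 0 → z i = 0) (h : f =O[𝓝 z] mon α) :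
    ∃ q, An z q ∧ f =ᶠ[𝓝 z] mon α * q := by
  obtain ⟨N, hN⟩ : ∃ N, ∑ i, α i = N := ⟨_, rfl⟩
  induction N generalizing f α with
  | zero =>
    have h0 : α = 0 := by
      funext i
      exact Finset.sum_eq_zero_iff.1 hN i (Finset.mem_univ i)
    exact ⟨f, hf, by rw [h0, mon_zero, one_mul]⟩
  | succ N ih =>
    obtain ⟨i, -, hi⟩ := Finset.exists_ne_zero_of_sum_ne_zero (s := Finset.univ) (f := α)
      (by rw [hN]; omega)
    obtain ⟨β, rfl⟩ : ∃ β : Fin n → ℕ, α = Pi.single i 1 + β := by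
      refine ⟨α - Pi.single i 1, funext fun j => ?_⟩
      by_cases hj : j = i
      · subst hj
        simp only [Pi.add_apply, Pi.sub_apply, Pi.single_eq_same]
        omega
      · simp [hj]
    have hβ : ∑ j, β j = N := by
      simp only [Pi.add_apply, Finset.sum_add_distrib, Finset.sum_pi_single', Finset.mem_univ,
        if_true] at hN
      omega
    have e : mon (Pi.single i 1 + β) = co i * mon β := by
      rw [mon_add_XA5, mon_single_XA5, pow_one]
    rw [e] at h ⊢
    obtain ⟨q, hq, hfq⟩ := div_co hf (hα i hi) (by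
      filter_upwards [h.eq_zero_imp] with w hw h1
      exact hw (by simp [co, h1]))
    have h2 : (fun w => ‖q w‖) =O[𝓝 z] fun w => ‖mon β w‖ := by
      refine canc_bigO (α := Pi.single i 1) ?_ ?_ ?_
      · filter_upwards [hq.eventually_analyticAt] with w hw using hw.continuousAt.norm
      · exact Eventually.of_forall fun w => (an_mon β w).continuousAt.norm
      · have h3 := (h.congr' hfq EventuallyEq.rfl).norm_norm
        simpa [mon_single_XA5] using h3
    obtain ⟨q', hq', hqq⟩ := ih hq (α := β) (fun j hj => hα j (by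
      simp only [Pi.add_apply]
      omega)) h2.of_norm_norm hβ
    refine ⟨q', hq', ?_⟩
    filter_upwards [hfq, hqq] with w h4 h5
    simp only [Pi.mul_apply] at h4 h5 ⊢
    rw [h4, h5, mul_assoc]

theorem pd_co_mul_XA5 (hg : An z g) (e : f =ᶠ[𝓝 z] co i * g) :
    pd i f =ᶠ[𝓝 z] g + co i * pd i g := by
  filter_upwards [pd_congr e i, pd_mul (an_co i z) hg i] with w h1 h2
  rw [h1, h2, pd_co]
  simp

theorem euler_XA5 (hz : z i = 0) (hh : An z h) (m c : ℕ) (hf : An z f)
    (e : (fun w => ((c : ℂ) + 1) * f w) + co i * pd i f =ᶠ[𝓝 z] co i ^ m * h) :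
    ∃ q, An z q ∧ f =ᶠ[𝓝 z] co i ^ m * q := by
  induction m generalizing f c with
  | zero => exact ⟨f, hf, by simp⟩
  | succ m ih =>
    have hc : (c : ℂ) + 1 ≠ 0 := by exact_mod_cast Nat.succ_ne_zero c
    obtain ⟨g, hg, e1⟩ := div_co hf hz (by
      filter_upwards [e] with w hw h1
      simpa [co, h1, hc] using hw)
    have hA : An z ((fun w => (((c + 1 : ℕ) : ℂ) + 1) * g w) + co i * pd i g) :=
      (analyticAt_const.mul hg).add ((an_co i z).mul (an_pd hg i))
    have e2 : (fun w => (((c + 1 : ℕ) : ℂ) + 1) * g w) + co i * pd i g =ᶠ[𝓝 z] co i ^ m * h := by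
      refine canc_co (i := i) (k := 1) hA (((an_co i z).pow m).mul hh) ?_
      filter_upwards [e, e1, pd_co_mul_XA5 hg e1] with w h1 h2 h3
      simp only [Pi.mul_apply, Pi.add_apply, Pi.pow_apply] at h1 h2 h3 ⊢
      rw [h2, h3] at h1
      push_cast
      linear_combination h1
    obtain ⟨q, hq, e3⟩ := ih (c + 1) hg e2
    refine ⟨q, hq, ?_⟩
    filter_upwards [e1, e3] with w h2 h3
    simp only [Pi.mul_apply, Pi.pow_apply] at h2 h3 ⊢
    rw [h2, h3]
    ring

theorem div_of_pd (hf : An z f) (hz : z i = 0) (h0 : ∀ᶠ w in 𝓝 z, w i = 0 → f w = 0)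
    (hh : An z h) (hd : pd i f =ᶠ[𝓝 z] co i ^ m * h) :
    ∃ q, An z q ∧ f =ᶠ[𝓝 z] co i ^ (m + 1) * q := by
  obtain ⟨f₁, h1, e1⟩ := div_co hf hz h0
  obtain ⟨q, hq, e2⟩ := euler_XA5 hz hh m 0 h1 (by
    filter_upwards [pd_co_mul_XA5 h1 e1, hd] with w h2 h3
    simp only [Pi.mul_apply, Pi.add_apply] at h2 h3 ⊢
    rw [← h3, h2]
    simp)
  refine ⟨q, hq, ?_⟩
  filter_upwards [e1, e2] with w h2 h3
  simp only [Pi.mul_apply, Pi.pow_apply] at h2 h3 ⊢
  rw [h2, h3]
  ring

/-- a monomial in the other variables is prime to `co i` -/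
theorem div_of_mon_mul (hf : An z f) (hz : z i = 0) (hα : α i = 0) (hh : An z h)
    (e : mon α * f =ᶠ[𝓝 z] co i * h) : ∃ q, An z q ∧ f =ᶠ[𝓝 z] co i * q := by
  refine div_co hf hz ?_
  filter_upwards [hf.eventually_analyticAt, e.eventually_nhds] with w h1 h2 h3
  refine tendsto_nhds_unique_of_frequently_eq h1.continuousAt.tendsto
    (tendsto_const_nhds (x := (0 : ℂ))) ?_
  have h4 := dense_mon (z := w) (α := α) (T := {i}) (by simpa using h3) (by
    intro j hj hj'
    rw [Finset.mem_singleton] at hj'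
    exact hj (hj' ▸ hα))
  refine (h4.and_eventually h2).mono ?_
  rintro y ⟨⟨h5, h6⟩, h7⟩
  have h8 : y i = 0 := h5 i (Finset.mem_singleton_self i)
  simpa [co, h8, h6] using h7

/-- a reduced equation of a coordinate hyperplane -/
theorem unit_of_zero (hf : An z f) (hz : z i = 0) (h0 : ∀ᶠ w in 𝓝 z, w i = 0 → f w = 0)
    (hd : fderiv ℂ f z ≠ 0) : ∃ u, An z u ∧ u z ≠ 0 ∧ f =ᶠ[𝓝 z] u * co i := by
  obtain ⟨q, hq, e⟩ := div_co hf hz h0
  refine ⟨q, hq, fun h1 => hd ?_, by rwa [mul_comm]⟩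
  rw [e.fderiv_eq, fderiv_mul (an_co i z).differentiableAt hq.differentiableAt]
  ext v
  simp [co, hz, h1]

/-- functions that vanish on a coordinate subspace -/
theorem div_sub {T : Finset (Fin n)} (hf : An z f) (hz : ∀ i ∈ T, z i = 0)
    (h0 : ∀ᶠ w in 𝓝 z, (∀ i ∈ T, w i = 0) → f w = 0) :
    ∃ q : Fin n → E n → ℂ, (∀ i, An z (q i)) ∧ f =ᶠ[𝓝 z] ∑ i ∈ T, co i * q i := by
  induction T using Finset.induction_on generalizing f with
  | empty =>
    refine ⟨fun _ _ => 0, fun _ => analyticAt_const, ?_⟩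
    filter_upwards [h0] with w hw
    simpa using hw
  | insert i T hi ih =>
    have hzi : ∀ j ∈ ({i} : Finset (Fin n)), z j = 0 := by
      intro j hj
      rw [Finset.mem_singleton.1 hj]
      exact hz i (Finset.mem_insert_self i T)
    have h1 : An z (f ∘ rho {i}) := hf.rho hzi
    obtain ⟨q₀, hq₀, e₀⟩ := div_co (i := i) (hf.sub h1) (hz i (Finset.mem_insert_self i T))
      (Eventually.of_forall fun w hw => by
        have : rho {i} w = w := rho_fix (by simpa using hw)
        simp [this])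
    obtain ⟨q, hq, e⟩ := ih h1 (fun j hj => hz j (Finset.mem_insert_of_mem hj)) (by
      filter_upwards [(tendsto_rho hzi).eventually h0] with w hw h2
      refine hw fun j hj => ?_
      rcases Finset.mem_insert.1 hj with rfl | hj
      · simp [rho]
      · simp [rho, h2 j hj])
    refine ⟨Function.update q i q₀, fun j => ?_, ?_⟩
    · by_cases hj : j = i
      · subst hj
        simpa using hq₀
      · simpa [hj] using hq j
    · have e1 : ∑ j ∈ T, co j * Function.update q i q₀ j = ∑ j ∈ T, co j * q j :=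
        Finset.sum_congr rfl fun j hj => by
          have hne : j ≠ i := by
            rintro rfl
            exact hi hj
          rw [Function.update_of_ne hne]
      rw [Finset.sum_insert hi, e1, Function.update_self]
      filter_upwards [e₀, e] with w h2 h3
      rw [Pi.add_apply, ← h2, ← h3]
      simp

/-- a coordinate that vanishes on a coordinate subspace -/
theorem mem_of_van {T : Finset (Fin n)} (hz : ∀ i ∈ T, z i = 0)
    (h0 : ∀ᶠ w in 𝓝 z, (∀ i ∈ T, w i = 0) → w j = 0) : j ∈ T := by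
  by_contra hj
  have h1 := dense_mon (z := z) (α := Pi.single j 1) hz (by
    intro l hl hl'
    by_cases h : l = j
    · exact hj (h ▸ hl')
    · simp [h] at hl)
  obtain ⟨w, ⟨h2, h3⟩, h4⟩ := (h1.and_eventually h0).exists
  rw [mon_single_XA5] at h3
  exact h3 (by simp [co, h4 h2])

end Pool.Agent.HIR
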