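import Pool.Agent.P.MP_65ad7c_ag.XB1
import Pool.Agent.P.MP_65ad7c_ag.XA5

open Set Filter Topology Asymptotics
open scoped ComplexConjugate

noncomputable section
namespace Pool.Agent.HIR

variable {n m μ : ℕ} {z : E n} {L : Set (ℕ × (E n → ℂ))} {A : Gr (E n)} {f : E n → ℂ}
  {i : Fin n} {K : Finset (Fin n)}

theorem an_iter_XB3 (hf : An z f) (i : Fin n) (j : ℕ) : An z ((pd i)^[j] f) := by
  induction j with
  | zero => exact hf
  | succ j ih =>
    rw [Function.iterate_succ_apply']
    exact an_pd ih i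

theorem mem_iter_XB3 (hd : Dif i A) (j : ℕ) : ∀ r, A (r + j) f → A r ((pd i)^[j] f) := by
  induction j with
  | zero => exact fun r h => h
  | succ j ih =>
    intro r h
    rw [Function.iterate_succ_apply']
    refine hd _ _ (ih (r + 1) ?_)
    rwa [show r + 1 + j = r + (j + 1) by omega]

theorem pow_co_XB3 (hA : LR z A) (hc : A 1 (co i)) (k : ℕ) : A k (co i ^ k) := by
  simpa using hA.pow (ring_an z) hc k

theorem taylor_XB3 (hA : LR z A) (hc : A 1 (co i)) (hd : Dif i A) (hf : A m f) (k : ℕ)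
    (hk : k ≤ m) : ∃ (S : E n → ℂ) (c : ℂ), A m S ∧ (∀ w, w i = 0 → S w = f w) ∧
      pd i S =ᶠ[𝓝 z] fun w => c * (w i ^ k * (pd i)^[k + 1] f w) := by
  induction k with
  | zero => exact ⟨f, 1, hf, fun _ _ => rfl, Eventually.of_forall fun w => by simp⟩
  | succ k ih =>
    obtain ⟨S, c, h1, h2, h3⟩ := ih (by omega)
    have ha := an_iter_XB3 (hA.an _ _ hf) i (k + 1)
    have hp : An z (co i ^ (k + 1)) := (an_co i z).pow _
    have hcc : An z fun _ : E n => -c / ((k : ℂ) + 1) := analyticAt_const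
    have hm : A m (co i ^ (k + 1) * (pd i)^[k + 1] f) := by
      have := hA.mul _ _ _ _ (pow_co_XB3 hA hc (k + 1))
        (mem_iter_XB3 (f := f) hd (k + 1) (m - (k + 1)) (by rwa [Nat.sub_add_cancel hk]))
      rwa [Nat.add_sub_cancel' hk] at this
    refine ⟨S + (fun _ => -c / ((k : ℂ) + 1)) * (co i ^ (k + 1) * (pd i)^[k + 1] f),
      -c / ((k : ℂ) + 1), hA.add _ _ _ h1 (hA.hol_mul hcc hm), fun w hw => ?_, ?_⟩
    · simp [co, hw, h2 w hw]
    · have e1 := pd_add (hA.an _ _ h1) (hcc.mul (hp.mul ha)) i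
      have e2 := pd_mul hcc (hp.mul ha) i
      have e3 := pd_mul hp ha i
      have hk0 : (k : ℂ) + 1 ≠ 0 := by exact_mod_cast Nat.succ_ne_zero k
      filter_upwards [e1, e2, e3, h3] with w w1 w2 w3 w4
      rw [w1, Pi.add_apply, w2, w4, pd_const, Pi.add_apply, Pi.mul_apply, Pi.mul_apply,
        Pi.mul_apply, w3, pd_pow_co, Function.iterate_succ_apply' (pd i) (k + 1)]
      simp only [Pi.add_apply, Pi.mul_apply, Pi.zero_apply, Pi.pow_apply, co]
      field_simp
      ring

theorem coef_one (hA : LR z A) (hc : A 1 (co i)) (hd : Dif i A) (hz : z i = 0) (hf : A m f) :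
    A m (f ∘ rho {i}) := by
  obtain ⟨S, c, h1, h2, h3⟩ := taylor_XB3 hA hc hd hf m le_rfl
  have hz' : ∀ j ∈ ({i} : Finset (Fin n)), z j = 0 := fun j hj => by
    rw [Finset.mem_singleton.1 hj, hz]
  have hr : An z (f ∘ rho {i}) := An.rho (hA.an _ _ hf) hz'
  have hS := hA.an _ _ h1
  have hcc : An z fun _ : E n => (-1 : ℂ) := analyticAt_const
  have hrr : (f ∘ rho {i}) ∘ rho {i} =ᶠ[𝓝 z] f ∘ rho {i} :=
    Eventually.of_forall fun w => congrArg f (rho_rho _ w)
  have e0 := (pd_rho_ev (i := i) hr hrr hz').1 (Finset.mem_singleton_self i)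
  have e1 := pd_add hr (hcc.mul hS) i
  have e2 := pd_mul hcc hS i
  have hh : An z ((fun _ : E n => -c) * (pd i)^[m + 1] f) :=
    analyticAt_const.mul (an_iter_XB3 (hA.an _ _ hf) i (m + 1))
  obtain ⟨q, hq, e⟩ := div_of_pd (m := m) (hr.add (hcc.mul hS)) hz
    (Eventually.of_forall fun w hw => by
      have : rho {i} w = w := rho_fix fun j hj => by rw [Finset.mem_singleton.1 hj, hw]
      simp [this, h2 w hw]) hh (by
      filter_upwards [e0, e1, e2, h3] with w w0 w1 w2 w3
      rw [w1, Pi.add_apply, w0, w2, pd_const, Pi.add_apply, Pi.mul_apply, Pi.mul_apply, w3]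
      simp only [Pi.mul_apply, Pi.zero_apply, Pi.pow_apply, co]
      ring)
  have hm : A m (q * co i ^ (m + 1)) := hA.hol_mul hq (hA.anti _ _ (pow_co_XB3 hA hc (m + 1)))
  refine hA.congr _ _ _ (hA.add _ _ _ hm h1) ?_
  filter_upwards [e] with w hw
  simp only [Pi.add_apply, Pi.mul_apply] at hw ⊢
  linear_combination -hw

/-- the coefficient lemma -/
theorem coef (hA : LR z A) (hK : PK A K) (hz : ∀ i ∈ K, z i = 0) (hf : A m f) :
    A m (f ∘ rho K) := by
  induction K using Finset.induction_on with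
  | empty =>
    have : f ∘ rho (∅ : Finset (Fin n)) = f := by
      funext w
      exact congrArg f (rho_fix fun j hj => absurd hj (Finset.notMem_empty j))
    rwa [this]
  | insert j K hj ih =>
    have h1 := ih ⟨fun l hl => hK.co l (Finset.mem_insert_of_mem hl),
      fun l hl => hK.der l (Finset.mem_insert_of_mem hl)⟩
      fun l hl => hz l (Finset.mem_insert_of_mem hl)
    have hm := Finset.mem_insert_self j K
    have h2 := coef_one hA (hK.co j hm) (hK.der j hm) (hz j hm) h1
    have : f ∘ rho (insert j K) = (f ∘ rho K) ∘ rho {j} := by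
      funext w
      refine congrArg f (funext fun l => ?_)
      by_cases h1 : l ∈ K <;> by_cases h2 : l = j <;> simp [rho, h1, h2]
    rwa [this]

/-- the singular locus is read off from the coefficient ideal -/
theorem sing (hL : ∀ q ∈ L, An z q.2) (hw : ∀ q ∈ L, 1 ≤ q.1 ∧ q.1 ≤ μ) (hK : PK (LIn z L) K)
    (hz : ∀ i ∈ K, z i = 0)
    (h : ∀ c, LIn z L μ.factorial c → Ord z μ.factorial (c ∘ rho K)) : LSg z (LIn z L) := by
  have hA := lr_In hL
  have hB : LR z fun m f => An z f ∧ Ord z m (f ∘ rho K) :=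
    { an := fun _ _ h => h.1
      hol := fun _ h => ⟨h, ord_zero (An.rho h hz).continuousAt⟩
      anti := fun _ _ h => ⟨h.1, h.2.mono (Nat.le_succ _)⟩
      mul := fun _ _ _ _ h h' => ⟨h.1.mul h'.1, h.2.mul h'.2⟩
      add := fun _ _ _ h h' => ⟨h.1.add h'.1, h.2.add h'.2⟩
      zero := fun m => ⟨analyticAt_const, ord_zero_fun z m⟩
      congr := fun _ _ _ h e => ⟨h.1.congr e, h.2.congr (e.comp_tendsto (tendsto_rho hz))⟩ }
  have hle := In.le (L := L) hB fun q hq => by
    refine ⟨hL q hq, ?_⟩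
    obtain ⟨t, ht⟩ := Nat.dvd_factorial (hw q hq).1 (hw q hq).2
    have ht0 : 0 < t := by
      rcases Nat.eq_zero_or_pos t with rfl | h0
      · exact absurd ht (Nat.factorial_ne_zero μ)
      · exact h0
    have h1 := hA.pow (ring_an z) (In.gen (m := q.1) (f := q.2) hq) t
    rw [mul_comm] at ht
    rw [← ht] at h1
    have h2 := h _ h1
    rw [ht] at h2
    exact Ord.of_pow ht0 h2
  intro m
  induction m with
  | zero => exact fun f hf => ord_zero (hA.an _ _ hf).continuousAt
  | succ m ih =>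
    exact fun f hf => ord_of_rho (hA.an _ _ hf) hz (hle _ _ hf).2
      fun j hj => ih _ (hK.der j hj _ _ hf)

end Pool.Agent.HIR
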