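import Pool.Agent.P.MP_65ad7c_ag.XC1
import Pool.Agent.P.MP_65ad7c_ag.XB3

open Set Filter Topology Asymptotics
open scoped ComplexConjugate

noncomputable section
namespace Pool.Agent.HIR

variable {n b ν : ℕ} {z z' : E n} {τ σ : E n → E n} {A B : Gr (E n)} {K N : Finset (Fin n)}
  {α : Fin n → ℕ}

theorem Ty3.rho (h : Ty3 τ z K N) (hz : ∀ i ∈ K, z i = 0) :
    τ ∘ rho K =ᶠ[𝓝 z] rho K ∘ τ := by
  have key : ∀ i, ∀ᶠ w in 𝓝 z, τ (HIR.rho K w) i = HIR.rho K (τ w) i := by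
    intro i
    by_cases hi : i ∈ K
    · filter_upwards [(tendsto_rho hz).eventually (h.fix i (h.sub hi))] with w hw
      have : τ (HIR.rho K w) i = HIR.rho K w i := hw
      rw [this]
      simp [HIR.rho, hi]
    · filter_upwards [h.ind i hi] with w hw
      have : τ (HIR.rho K w) i = τ w i := hw
      rw [this]
      simp [HIR.rho, hi]
  filter_upwards [eventually_all.2 key] with w hw
  exact funext hw

theorem mon_XC3 (h : Ty3 τ z K N) (hN : ∀ i, α i ≠ 0 → i ∈ N) : mon α ∘ τ =ᶠ[𝓝 z] mon α := by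
  have key : ∀ i, ∀ᶠ w in 𝓝 z, τ w i ^ α i = w i ^ α i := by
    intro i
    by_cases hi : α i = 0
    · simp [hi]
    · filter_upwards [h.fix i (hN i hi)] with w hw
      have : τ w i = w i := hw
      rw [this]
  filter_upwards [eventually_all.2 key] with w hw
  simp only [Function.comp, mon, hw]

theorem back_XC3 (hb : Bi τ σ z z') (g : E n → ℂ) : (g ∘ σ) ∘ τ =ᶠ[𝓝 z] g := by
  filter_upwards [hb.left] with w hw
  simp [hw]

theorem rr_congr_XC3 (hA : LR z A) (hz : ∀ i ∈ K, z i = 0) {g g' : E n → ℂ}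
    (hg : g ∈ RR z A K b α) (e : g =ᶠ[𝓝 z] g') : g' ∈ RR z A K b α := by
  refine ⟨hg.1.congr e, ?_, hA.congr _ _ _ hg.2.2 (EventuallyEq.rfl.mul e)⟩
  exact ((e.comp_tendsto (tendsto_rho hz)).symm.trans hg.2.1).trans e

theorem Ty3.pk (h : Ty3 τ z K N) (hb : Bi τ σ z z') (hA : LR z A) (hz : ∀ i ∈ K, z i = 0)
    (hK : PK A K) : PK (push A τ z') K := by
  refine ⟨fun i hi => ⟨an_co i z', hA.congr _ _ _ (hK.co i hi) (h.fix i (h.sub hi)).symm⟩,
    fun i hi m f hf => ⟨an_pd hf.1 i, hA.congr _ _ _ (hK.der i hi m _ hf.2) ?_⟩⟩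
  have key : ∀ j, ∀ᶠ w in 𝓝 z, pd i (co j ∘ τ) w = if j = i then 1 else 0 := by
    intro j
    by_cases hj : j ∈ K
    · filter_upwards [pd_congr (h.fix j (h.sub hj)) i] with w hw
      rw [hw, pd_co]
    · filter_upwards [(pd_rho_ev (hb.comp (an_co j z')) (h.ind j hj) hz).1 hi] with w hw
      rw [hw, if_neg fun e : j = i => hj (e ▸ hi)]
      rfl
  filter_upwards [pd_comp hb.an (hb.map.symm ▸ hf.1) i, eventually_all.2 key] with w h1 h2
  rw [h1]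
  simp [Finset.sum_apply, h2]

theorem Ty3.rr (h : Ty3 τ z K N) (hb : Bi τ σ z z') (hA : LR z A) (hz : ∀ i ∈ K, z i = 0)
    (hN : ∀ i, α i ≠ 0 → i ∈ N) {g : E n → ℂ} (hg : An z' g) :
    g ∈ RR z' (push A τ z') K b α ↔ g ∘ τ ∈ RR z A K b α := by
  have e1 : (mon α * g) ∘ τ =ᶠ[𝓝 z] mon α * g ∘ τ := (mon_XC3 h hN).mul EventuallyEq.rfl
  have e2 : (g ∘ τ) ∘ HIR.rho K =ᶠ[𝓝 z] (g ∘ HIR.rho K) ∘ τ := (h.rho hz).fun_comp g
  have e3 : g ∘ HIR.rho K =ᶠ[𝓝 z'] g ↔ (g ∘ HIR.rho K) ∘ τ =ᶠ[𝓝 z] g ∘ τ := by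
    rw [← hb.map_nhds]
    exact eventuallyEq_map
  constructor
  · rintro ⟨-, h2, -, h3⟩
    exact ⟨hb.comp hg, e2.trans (e3.1 h2), hA.congr _ _ _ h3 e1⟩
  · rintro ⟨-, h2, h3⟩
    exact ⟨hg, e3.2 (e2.symm.trans h2), (an_mon α z').mul hg, hA.congr _ _ _ h3 e1.symm⟩

/-- type III: the invariant is transported -/
theorem Ty3.li (h : Ty3 τ z K N) (hb : Bi τ σ z z') (hA : LR z A) (hB : LR z B)
    (hz : ∀ i ∈ K, z i = 0) (hN : ∀ i, α i ≠ 0 → i ∈ N) (hl : LI z A B K b α ν) :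
    LI z' (push A τ z') (push B τ z') K b α ν := by
  have hr : ∀ g ∈ RR z A K b α, g ∘ σ ∈ RR z' (push A τ z') K b α := fun g hg =>
    (h.rr hb hA hz hN (hb.symm.comp hg.1)).2 (rr_congr_XC3 hA hz hg (back_XC3 hb g).symm)
  have hA' := lr_push hb hA
  refine ⟨h.pk hb hA hz hl.pk, fun i hi => ⟨(hl.sup i hi).1, ?_⟩, fun m c hc => ?_, ?_,
    push_le hl.le, fun m f hf => ?_⟩
  · have : τ z i = z i := (h.fix i (hN i hi)).self_of_nhds
    rw [← hb.map, this, (hl.sup i hi).2]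
  · obtain ⟨s, h1, h2⟩ := hl.dom m _ hc.2
    refine ⟨s.map (· ∘ σ), fun g hg => ?_, ?_⟩
    · obtain ⟨g, hg', rfl⟩ := List.mem_map.1 hg
      exact push_mem hb hB (h1 g hg')
    · rw [← hb.map_nhds, isBigO_map]
      refine h2.congr' ?_ ?_
      · filter_upwards [h.rho hz] with w hw
        have : τ (HIR.rho K w) = HIR.rho K (τ w) := hw
        simp [this]
      · filter_upwards [h.rho hz, mon_XC3 h hN, (tendsto_rho hz).eventually hb.left]
          with w hw h3 h4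
        have h5 : τ (HIR.rho K w) = HIR.rho K (τ w) := hw
        have h6 : mon α (τ w) = mon α w := h3
        simp only [Function.comp_def, List.map_map, h6, ← h5, h4]
  · obtain ⟨g, hg, h1⟩ := hl.res
    refine ⟨g ∘ σ, hr g hg, fun h2 => h1 ?_⟩
    exact (Ord.comp (hb.map.symm ▸ h2) hb.an.differentiableAt).congr (back_XC3 hb g)
  · have hC := lr_Cmp (K := K) (b := b) (α := α) (ν := ν) hA'
    have h1 : Le (Cmp z A K b α ν) (push (Cmp z' (push A τ z') K b α ν) σ z) :=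
      Cmp_le (lr_push hb.symm hC) (dif_push hb.symm hC (dif_Cmp hA'))
        (fun m f hf => ⟨hA.an _ _ hf, le_Cmp _ _ (push_mem hb hA hf)⟩)
        fun g hg => ⟨hg.1, rr_Cmp (hr g hg)⟩
    exact hC.congr _ _ _ (h1 _ _ (hl.cmp _ _ hf.2)).2 (back_XC3 hb.symm f)

end Pool.Agent.HIR
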