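import Pool.Agent.P.MP_65ad7c_ag.XA5

open Set Filter Topology Asymptotics
open scoped ComplexConjugate

noncomputable section
namespace Pool.Agent.HIR

variable {n : ℕ} {z z' z'' : E n} {τ σ τ' σ' : E n → E n} {T T' : Finset (Fin n)}

theorem Bi.refl (z : E n) : Bi id id z z :=
  ⟨analyticAt_id, analyticAt_id, rfl, rfl, .of_forall fun _ => rfl, .of_forall fun _ => rfl⟩

theorem Bi.symm (h : Bi τ σ z z') : Bi σ τ z' z := ⟨h.an', h.an, h.map', h.map, h.right, h.left⟩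

theorem tendsto_XA6 (h : Bi τ σ z z') : Tendsto τ (𝓝 z) (𝓝 z') :=
  h.map ▸ h.an.continuousAt.tendsto

theorem Bi.trans (h : Bi τ σ z z') (h' : Bi τ' σ' z' z'') : Bi (τ' ∘ τ) (σ ∘ σ') z z'' := by
  refine ⟨h'.an.comp_of_eq h.an h.map, h.an'.comp_of_eq h'.an' h'.map', ?_, ?_, ?_, ?_⟩
  · rw [Function.comp_apply, h.map, h'.map]
  · rw [Function.comp_apply, h'.map', h.map']
  · filter_upwards [h.left, (tendsto_XA6 h).eventually h'.left] with w h1 h2
    simp only [Function.comp_apply, h2, h1]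
  · filter_upwards [h'.right, (tendsto_XA6 h'.symm).eventually h.right] with w h1 h2
    simp only [Function.comp_apply, h2, h1]

theorem Bi.tendsto (h : Bi τ σ z z') : Tendsto τ (𝓝 z) (𝓝 z') := tendsto_XA6 h

theorem Bi.map_nhds (h : Bi τ σ z z') : Filter.map τ (𝓝 z) = 𝓝 z' := by
  refine le_antisymm h.tendsto fun s hs => ?_
  filter_upwards [h.symm.tendsto hs, h.right] with w h1 h2
  rw [← h2]
  exact h1

theorem Bi.ev (h : Bi τ σ z z') : ∀ᶠ w in 𝓝 z, Bi τ σ w (τ w) := by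
  filter_upwards [h.an.eventually_analyticAt, h.tendsto.eventually h.an'.eventually_analyticAt,
    h.left, h.left.eventually_nhds, h.tendsto.eventually h.right.eventually_nhds]
    with w h1 h2 h3 h4 h5
  exact ⟨h1, h2, rfl, h3, h4, h5⟩

theorem Bi.comp (h : Bi τ σ z z') {f : E n → ℂ} (hf : An z' f) : An z (f ∘ τ) :=
  hf.comp_of_eq h.an h.map

theorem Bi.left_d (h : Bi τ σ z z') (v : E n) : fderiv ℂ σ z' (fderiv ℂ τ z v) = v := by
  have h1 : HasFDerivAt σ (fderiv ℂ σ z') (τ z) := h.map ▸ h.an'.differentiableAt.hasFDerivAt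
  have h2 := h1.comp z h.an.differentiableAt.hasFDerivAt
  have h3 : HasFDerivAt (σ ∘ τ) (ContinuousLinearMap.id ℂ (E n)) z :=
    (hasFDerivAt_id z).congr_of_eventuallyEq h.left
  exact DFunLike.congr_fun (h2.unique h3) v

theorem fderiv_co_XA6 (h : AnalyticAt ℂ τ z) (i : Fin n) (v : E n) :
    fderiv ℂ (co i ∘ τ) z v = fderiv ℂ τ z v i :=
  DFunLike.congr_fun ((ContinuousLinearMap.proj (R := ℂ) (φ := fun _ : Fin n => ℂ)
    i).hasFDerivAt.comp z h.differentiableAt.hasFDerivAt).fderiv v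

theorem Bi.fderiv_co (h : Bi τ σ z z') (i : Fin n) (v : E n) :
    fderiv ℂ (co i ∘ τ) z v = fderiv ℂ τ z v i := fderiv_co_XA6 h.an i v

theorem Bi.fderiv_co_ne (h : Bi τ σ z z') (i : Fin n) : fderiv ℂ (co i ∘ τ) z ≠ 0 := by
  intro h0
  have := h.fderiv_co i (fderiv ℂ σ z' (Pi.single i 1))
  rw [h0, h.symm.left_d] at this
  simp at this

theorem bi_of_inj (h : AnalyticAt ℂ τ z) (hi : ∀ v, fderiv ℂ τ z v = 0 → v = 0) :
    ∃ σ, Bi τ σ z (τ z) := by
  obtain ⟨e, he⟩ : ∃ e : E n ≃L[ℂ] E n, fderiv ℂ τ z = e :=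
    ⟨(LinearEquiv.ofInjectiveEndo (fderiv ℂ τ z).toLinearMap
      ((injective_iff_map_eq_zero _).2 hi)).toContinuousLinearEquiv, by ext; rfl⟩
  have hs : HasStrictFDerivAt τ (e : E n →L[ℂ] E n) z := he ▸ h.hasStrictFDerivAt
  exact ⟨hs.localInverse τ e z, h, (hs.toOpenPartialHomeomorph τ).analyticAt_symm'
    hs.mem_toOpenPartialHomeomorph_source h he, rfl, hs.localInverse_apply_image,
    hs.eventually_left_inverse, hs.eventually_right_inverse⟩

/-- replace one coordinate -/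
theorem bi_update {u : E n → ℂ} {l : Fin n} (h : An z u) (hl : pd l u z ≠ 0) :
    ∃ σ, Bi (fun w => Function.update w l (u w)) σ z (Function.update z l (u z)) := by
  have e1 : co l ∘ (fun w : E n => Function.update w l (u w)) = u := by
    funext w
    simp [co]
  have e2 : ∀ j ≠ l, co j ∘ (fun w : E n => Function.update w l (u w)) = co j := by
    intro j hj
    funext w
    simp [co, hj]
  have ha : AnalyticAt ℂ (fun w : E n => Function.update w l (u w)) z := by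
    refine analyticAt_pi_iff.2 fun j => ?_
    change AnalyticAt ℂ (co j ∘ fun w : E n => Function.update w l (u w)) z
    by_cases hj : j = l
    · rw [hj, e1]
      exact h
    · rw [e2 j hj]
      exact an_co j z
  refine bi_of_inj ha fun v hv => ?_
  have h1 : ∀ j ≠ l, v j = 0 := by
    intro j hj
    have := fderiv_co_XA6 ha j v
    rw [hv, e2 j hj, show co j = co j ∘ id from rfl, fderiv_co_XA6 analyticAt_id, fderiv_id] at this
    exact this
  have h2 := fderiv_co_XA6 ha l v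
  rw [hv, e1, fderiv_eq_sum, Finset.sum_eq_single l (fun j _ hj => by rw [h1 j hj, zero_mul])
    (fun hl => absurd (Finset.mem_univ l) hl)] at h2
  funext j
  by_cases hj : j = l
  · rw [hj]
    exact (mul_eq_zero.1 h2).resolve_right hl
  · exact h1 j hj

/-- tangent spaces -/
theorem Bi.tan (h : Bi τ σ z z') (hz : ∀ i ∈ T, z i = 0)
    (hT : ∀ᶠ w in 𝓝 z, (∀ i ∈ T, w i = 0) → ∀ i ∈ T', τ w i = 0) {v : E n}
    (hv : ∀ i ∈ T, v i = 0) : ∀ i ∈ T', fderiv ℂ τ z v i = 0 := by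
  intro i hi
  have h1 : HasDerivAt (fun t : ℂ => z + t • v) v 0 := by
    simpa using ((hasDerivAt_id (0 : ℂ)).smul_const v).const_add z
  have h0 : z + (0 : ℂ) • v = z := by simp
  have h2 : HasFDerivAt (co i ∘ τ) (fderiv ℂ (co i ∘ τ) z) (z + (0 : ℂ) • v) :=
    h0.symm ▸ (h.comp (an_co i z')).differentiableAt.hasFDerivAt
  have h3 := h2.comp_hasDerivAt (0 : ℂ) h1
  have h4 : Tendsto (fun t : ℂ => z + t • v) (𝓝 0) (𝓝 z) := by
    have := h1.continuousAt.tendsto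
    rwa [h0] at this
  have h5 : HasDerivAt ((co i ∘ τ) ∘ fun t : ℂ => z + t • v) 0 0 := by
    refine (hasDerivAt_const (0 : ℂ) (0 : ℂ)).congr_of_eventuallyEq ?_
    filter_upwards [h4.eventually hT] with t ht
    exact ht (fun j hj => by simp [hz j hj, hv j hj]) i hi
  rw [← h.fderiv_co]
  exact h3.unique h5

/-- the coordinate subspace -/
def sub_XA6 (T : Finset (Fin n)) : Submodule ℂ (E n) :=
  LinearMap.ker (LinearMap.funLeft ℂ ℂ (Subtype.val : T → Fin n))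

theorem mem_sub_XA6 {v : E n} : v ∈ sub_XA6 T ↔ ∀ i ∈ T, v i = 0 := by
  simp [sub_XA6, funext_iff, LinearMap.funLeft_apply]

theorem dim_XA6 (T : Finset (Fin n)) : T.card + Module.finrank ℂ (sub_XA6 T) = n := by
  have := (LinearMap.funLeft ℂ ℂ (Subtype.val : T → Fin n)).finrank_range_add_finrank_ker
  rwa [LinearMap.range_eq_top.2 (LinearMap.funLeft_surjective_of_injective ℂ ℂ _
    Subtype.val_injective), finrank_top, Module.finrank_fintype_fun_eq_card,
    Module.finrank_fintype_fun_eq_card, Fintype.card_coe, Fintype.card_fin] at this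

theorem map_XA6 (L : E n →L[ℂ] E n) (hL : ∀ v, L v = 0 → v = 0)
    (h : ∀ v, (∀ i ∈ T, v i = 0) → ∀ i ∈ T', L v i = 0) :
    (sub_XA6 T).map L.toLinearMap ≤ sub_XA6 T' ∧
      Module.finrank ℂ ((sub_XA6 T).map L.toLinearMap) = Module.finrank ℂ (sub_XA6 T) := by
  refine ⟨?_, (Submodule.equivMapOfInjective L.toLinearMap
    ((injective_iff_map_eq_zero _).2 hL) _).finrank_eq.symm⟩
  rintro _ ⟨v, hv, rfl⟩
  exact mem_sub_XA6.2 (h v (mem_sub_XA6.1 hv))

theorem onto_XA6 (L : E n →L[ℂ] E n) (hL : ∀ v, L v = 0 → v = 0) (hc : T.card = T'.card)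
    (h : ∀ v, (∀ i ∈ T, v i = 0) → ∀ i ∈ T', L v i = 0) (v : E n) (hv : ∀ i ∈ T', L v i = 0) :
    ∀ i ∈ T, v i = 0 := by
  obtain ⟨h1, h2⟩ := map_XA6 L hL h
  have h3 := dim_XA6 T
  have h4 := dim_XA6 T'
  have h5 := Submodule.eq_of_le_of_finrank_eq h1 (by omega)
  obtain ⟨v', hv', e⟩ : L v ∈ (sub_XA6 T).map L.toLinearMap := h5 ▸ mem_sub_XA6.2 hv
  have : v' = v := sub_eq_zero.1 (hL _ (by rw [map_sub]; exact sub_eq_zero.2 e))
  exact mem_sub_XA6.1 (this ▸ hv')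

theorem inj_XA6 (h : Bi τ σ z z') (v : E n) (hv : fderiv ℂ τ z v = 0) : v = 0 := by
  rw [← h.left_d v, hv, map_zero]

theorem card_le_XA6 (h : Bi τ σ z z') (hz : ∀ i ∈ T, z i = 0)
    (hT : ∀ᶠ w in 𝓝 z, (∀ i ∈ T, w i = 0) → ∀ i ∈ T', τ w i = 0) : T'.card ≤ T.card := by
  obtain ⟨h1, h2⟩ := map_XA6 (fderiv ℂ τ z) (inj_XA6 h) fun v hv => h.tan hz hT hv
  have h3 := dim_XA6 T
  have h4 := dim_XA6 T'
  have h5 := Submodule.finrank_mono h1
  omega

/-- an inclusion of submanifolds of the same dimension is an equality -/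
theorem Bi.sub_eq (h : Bi τ σ z z') (hz : ∀ i ∈ T, z i = 0) (hc : T.card = T'.card)
    (hT : ∀ᶠ w in 𝓝 z, (∀ i ∈ T, w i = 0) → ∀ i ∈ T', τ w i = 0) :
    ∀ᶠ w in 𝓝 z, (∀ i ∈ T, w i = 0) ↔ ∀ i ∈ T', τ w i = 0 := by
  obtain ⟨R, hR⟩ : ∃ R : E n →L[ℂ] E n, ∀ w, R w = rho T w :=
    ⟨ContinuousLinearMap.pi fun i => if i ∈ T then 0 else ContinuousLinearMap.proj i, fun w => by
      funext i
      by_cases hi : i ∈ T <;> simp [rho, hi]⟩
  obtain ⟨L, hL⟩ : ∃ L, L = fderiv ℂ τ z := ⟨_, rfl⟩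
  have hRz : R z = z := by rw [hR, rho_fix hz]
  have ha : AnalyticAt ℂ (fun w => τ (R w) + L (w - R w)) z :=
    (h.an.comp_of_eq (R.analyticAt z) hRz).add
      ((L.analyticAt _).comp (analyticAt_id.sub (R.analyticAt z)))
  have hτ : HasFDerivAt τ L (R z) := by
    rw [hRz, hL]
    exact h.an.differentiableAt.hasFDerivAt
  have hd : HasFDerivAt (fun w => τ (R w) + L (w - R w))
      (L.comp R + L.comp (ContinuousLinearMap.id ℂ (E n) - R)) z :=
    (hτ.comp z R.hasFDerivAt).add (L.hasFDerivAt.comp z ((hasFDerivAt_id z).sub R.hasFDerivAt))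
  obtain ⟨Ψ, hΨ⟩ := bi_of_inj ha fun v hv => inj_XA6 h v (by
    rw [hd.fderiv] at hv
    simpa [hL] using hv)
  rw [hRz, sub_self, map_zero, add_zero, h.map] at hΨ
  have t1 : Tendsto (fun w => Ψ (τ w)) (𝓝 z) (𝓝 z) := hΨ.symm.tendsto.comp h.tendsto
  filter_upwards [hT, h.left, t1.eventually h.left, h.tendsto.eventually hΨ.right,
    ((tendsto_rho hz).comp t1).eventually hT] with w h1 h2 h3 h4 h5
  refine ⟨h1, fun hw => ?_⟩
  have h6 := h5 fun i hi => by simp [rho, hi]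
  have h7 := onto_XA6 L (hL ▸ inj_XA6 h) hc (fun v hv => hL ▸ h.tan hz hT hv)
    (Ψ (τ w) - R (Ψ (τ w))) fun i hi => by
      have e := congrFun h4 i
      rw [Pi.add_apply, hw i hi, hR] at e
      rw [hR, ← e]
      exact (eq_add_of_sub_eq (by rw [sub_self]; exact (h6 i hi).symm))
  have h8 : ∀ i ∈ T, Ψ (τ w) i = 0 := fun i hi => by simpa [hR, rho, hi] using h7 i hi
  rw [hR, rho_fix h8, sub_self, map_zero, add_zero] at h4
  rw [h4, h2] at h3
  rw [h3]
  exact h8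

/-- the codimension is well defined -/
theorem Bi.card_eq (h : Bi τ σ z z') (hz : ∀ i ∈ T, z i = 0)
    (hT : ∀ᶠ w in 𝓝 z, (∀ i ∈ T, w i = 0) ↔ ∀ i ∈ T', τ w i = 0) : T.card = T'.card := by
  refine le_antisymm (card_le_XA6 h.symm (h.map ▸ hT.self_of_nhds.1 hz) ?_)
    (card_le_XA6 h hz (hT.mono fun w hw => hw.1))
  filter_upwards [h.symm.tendsto.eventually hT, h.right] with w h1 h2 h3
  exact h1.2 (h2.symm ▸ h3)

theorem Bi.unit (h : Bi τ σ z z') {i j : Fin n} (hz : z i = 0)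
    (hi : ∀ᶠ w in 𝓝 z, w i = 0 ↔ τ w j = 0) :
    ∃ u, An z u ∧ u z ≠ 0 ∧ co j ∘ τ =ᶠ[𝓝 z] u * co i :=
  unit_of_zero (h.comp (an_co j z')) hz (hi.mono fun _ hw => hw.1) (h.fderiv_co_ne j)

variable {J : Finset ℕ} {c c' : ℕ → Fin n}

theorem DvC.symm (h : DvC τ z J c c') (hb : Bi τ σ z z') : DvC σ z' J c' c := by
  refine ⟨h.inj', h.inj, fun j hj => hb.map ▸ (h.iff j hj).self_of_nhds.1 (h.zero j hj),
    fun j hj => ?_⟩
  filter_upwards [hb.symm.tendsto.eventually (h.iff j hj), hb.right] with w h1 h2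
  rw [h1, h2]

theorem DvC.mon (h : DvC τ z J c c') (hb : Bi τ σ z z') (a : ℕ → ℕ) :
    ∃ u, An z u ∧ u z ≠ 0 ∧ mon (exv J c' a) ∘ τ =ᶠ[𝓝 z] u * mon (exv J c a) := by
  choose! u h1 h2 h3 using fun j (hj : j ∈ J) => hb.unit (h.zero j hj) (h.iff j hj)
  refine ⟨fun w => ∏ j ∈ J, u j w ^ a j, J.analyticAt_fun_prod fun j hj => (h1 j hj).pow _,
    Finset.prod_ne_zero_iff.2 fun j hj => pow_ne_zero _ (h2 j hj), ?_⟩
  filter_upwards [(eventually_all_finset J).2 h3] with w hw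
  rw [Function.comp_apply, Pi.mul_apply, mon_exv, mon_exv, ← Finset.prod_mul_distrib]
  refine Finset.prod_congr rfl fun j hj => ?_
  rw [← mul_pow]
  exact congrArg (· ^ a j) (hw j hj)

/-- a linear injection between coordinate subspaces of the same dimension is onto -/
theorem lin_onto (L : E n →L[ℂ] E n) (hL : ∀ v, L v = 0 → v = 0) (hc : T.card = T'.card)
    (h : ∀ v, (∀ i ∈ T, v i = 0) → ∀ i ∈ T', L v i = 0) (v : E n) (hv : ∀ i ∈ T', L v i = 0) :
    ∀ i ∈ T, v i = 0 := onto_XA6 L hL hc h v hv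

end Pool.Agent.HIR
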