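import Pool.Agent.P.MP_65ad7c_ag.XA4
import Pool.Agent.P.MP_65ad7c_ag.XA6

open Set Filter Topology Asymptotics
open scoped ComplexConjugate

noncomputable section
namespace Pool.Agent.HIR

variable {n m k : ℕ} {w : E n} {f f' : E n → ℂ} {i p : Fin n} {K T : Finset (Fin n)}
  {α : Fin n → ℕ}

theorem bet_self (T : Finset (Fin n)) (p : Fin n) (w : E n) : bet T p w p = w p := by
  simp [bet]

theorem bet_zero (hp : p ∈ T) : (∀ i ∈ T, bet T p w i = 0) ↔ w p = 0 := by
  constructor
  · intro h
    rw [← bet_self T p w]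
    exact h p hp
  · intro h i hi
    by_cases e : i = p
    · rw [e, bet_self, h]
    · simp [bet, e, hi, h]

theorem rho_bet (hK : K ⊆ T) (hp : p ∉ K) (w : E n) : rho K (bet T p w) = bet T p (rho K w) := by
  funext i
  by_cases hi : i ∈ K
  · simp [rho, bet, hi]
  · simp [rho, bet, hi, hp]

theorem co_bet (hi : i ∈ T) (hp : i ≠ p) : co i ∘ bet T p = co p ^ 1 * co i := by
  funext y
  simp [co, bet, hi, hp]

theorem mon_bet (hp : p ∈ T) (α : Fin n → ℕ) :
    mon α ∘ bet T p = co p ^ (∑ j ∈ T, α j) * mon (Function.update α p 0) := by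
  funext y
  have e : ∀ i, bet T p y i ^ α i =
      (if i ∈ T then y p ^ α i else 1) * y i ^ Function.update α p 0 i := by
    intro i
    by_cases h : i = p
    · subst h
      simp [bet, hp]
    · by_cases hi : i ∈ T <;> simp [bet, h, hi, mul_pow]
  simp only [Function.comp, mon, Pi.mul_apply, Pi.pow_apply, co, e, Finset.prod_mul_distrib]
  rw [Finset.prod_ite_mem, Finset.univ_inter, Finset.prod_pow_eq_pow_sum]

/-- the new monomial -/
theorem mon_nex (hp : p ∈ T) (hw : w p = 0) {ν b : ℕ} (hb : b ≤ ∑ j ∈ T, α j + ν) :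
    ∃ u, An w u ∧ u w ≠ 0 ∧
      co p ^ ν * (mon α ∘ bet T p) = co p ^ b * (u * mon (nex α T p w ν b)) := by
  obtain ⟨h1, h2⟩ := mon_cut (Function.update α p 0) w
  refine ⟨_, an_mon _ w, h1, ?_⟩
  have e : mon (nex α T p w ν b) =
      co p ^ (∑ j ∈ T, α j + ν - b) * mon (cut (Function.update α p 0) w) := by
    funext y
    have e' : ∀ i, y i ^ nex α T p w ν b i = (if i = p then y p ^ (∑ j ∈ T, α j + ν - b) else 1) *
        y i ^ cut (Function.update α p 0) w i := by
      intro i
      by_cases h : i = p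
      · subst h
        simp [nex, cut]
      · simp [nex, cut, h]
    simp only [mon, Pi.mul_apply, Pi.pow_apply, co, e', Finset.prod_mul_distrib]
    simp
  have e2 : (co p : E n → ℂ) ^ ν * co p ^ (∑ j ∈ T, α j) =
      co p ^ b * co p ^ (∑ j ∈ T, α j + ν - b) := by
    rw [← pow_add, ← pow_add]
    congr 1
    omega
  rw [mon_bet hp, e]
  calc co p ^ ν * (co p ^ (∑ j ∈ T, α j) * mon (Function.update α p 0))
      = (co p ^ ν * co p ^ (∑ j ∈ T, α j)) * mon (Function.update α p 0) := by ring
    _ = (co p ^ b * co p ^ (∑ j ∈ T, α j + ν - b)) *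
        (mon (Function.update α p 0 - cut (Function.update α p 0) w) *
          mon (cut (Function.update α p 0) w)) := by rw [e2, ← h2]
    _ = _ := by ring

theorem pdco_XA7 (T : Finset (Fin n)) (p i j : Fin n) (y : E n) :
    pd i (co j ∘ bet T p) y = if j ∈ T.erase p then
      (if p = i then 1 else 0) * y j + y p * (if j = i then 1 else 0)
      else if j = i then 1 else 0 := by
  by_cases h : j ∈ T.erase p
  · have e : co j ∘ bet T p = co p * co j := by
      funext z
      simp only [Function.comp, co, bet, if_pos h, Pi.mul_apply]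
    rw [if_pos h, e, (pd_mul (an_co p y) (an_co j y) i).self_of_nhds, pd_co, pd_co]
    rfl
  · have e : co j ∘ bet T p = co j := by
      funext z
      simp only [Function.comp, co, bet, if_neg h]
    rw [if_neg h, e, pd_co]

theorem pdne_XA7 (hip : i ≠ p) (hf : An (bet T p w) f) :
    pd i (f ∘ bet T p) =ᶠ[𝓝 w] (if i ∈ T then co p else 1) * (pd i f ∘ bet T p) := by
  filter_upwards [pd_comp (an_bet T p w) hf i] with y hy
  rw [hy, Finset.sum_apply, Finset.sum_eq_single i]
  · rw [Pi.mul_apply, Pi.mul_apply, pdco_XA7]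
    by_cases hi : i ∈ T <;> simp [hi, hip, hip.symm, co]
  · intro j _ hj
    rw [Pi.mul_apply, pdco_XA7]
    simp [hj, hip.symm]
  · simp

theorem pdeq_XA7 (hf : An (bet T p w) f) :
    pd p (f ∘ bet T p) =ᶠ[𝓝 w]
      pd p f ∘ bet T p + ∑ l ∈ T.erase p, co l * (pd l f ∘ bet T p) := by
  filter_upwards [pd_comp (an_bet T p w) hf p] with y hy
  have e : ∀ j, (pd p (co j ∘ bet T p) * (pd j f ∘ bet T p)) y =
      (if j = p then (pd p f ∘ bet T p) y else 0) +
        if j ∈ T.erase p then (co j * (pd j f ∘ bet T p)) y else 0 := by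
    intro j
    rw [Pi.mul_apply, pdco_XA7]
    by_cases h : j = p
    · subst h
      simp
    · by_cases hj : j ∈ T <;> simp [h, hj, co]
  rw [hy, Finset.sum_apply, Pi.add_apply, Finset.sum_apply]
  simp only [e, Finset.sum_add_distrib]
  rw [Finset.sum_ite_mem, Finset.univ_inter]
  simp

theorem pdpow_XA7 (hip : i ≠ p) (hf' : An w f') (h : f ∘ bet T p =ᶠ[𝓝 w] co p ^ k * f') :
    pd i (f ∘ bet T p) =ᶠ[𝓝 w] co p ^ k * pd i f' := by
  refine (pd_congr h i).trans ((pd_mul ((an_co p w).pow k) hf' i).trans ?_)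
  rw [pd_pow_co_ne hip.symm]
  simp

/-- division by a power of the exceptional divisor -/
theorem bdiv (hp : p ∈ T) (hw : w p = 0) (hf : An (bet T p w) f)
    (h : ∀ᶠ y in 𝓝 (bet T p w), (∀ i ∈ T, y i = 0) → Ord y m f) :
    ∃ f', An w f' ∧ f ∘ bet T p =ᶠ[𝓝 w] co p ^ m * f' := by
  induction m generalizing f with
  | zero => exact ⟨f ∘ bet T p, hf.comp (an_bet T p w), by simp⟩
  | succ m ih =>
    have h1 : ∀ j, ∃ g, An w g ∧ pd j f ∘ bet T p =ᶠ[𝓝 w] co p ^ m * g := by
      intro j
      refine ih (an_pd hf j) ?_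
      filter_upwards [h, hf.eventually_analyticAt] with y hy hy' hT
      exact (hy hT).pd hy' j
    choose g hg hg' using h1
    refine div_of_pd (h := ∑ j, pd p (co j ∘ bet T p) * g j) (hf.comp (an_bet T p w)) hw ?_ ?_ ?_
    · filter_upwards [(an_bet T p w).continuousAt.eventually h] with y hy h0
      exact (hy ((bet_zero hp).2 h0)).eq_zero
    · exact Finset.analyticAt_sum _ fun j _ =>
        (an_pd ((an_co j _).comp (an_bet T p w)) p).mul (hg j)
    · filter_upwards [pd_comp (an_bet T p w) hf p, eventually_all.2 hg'] with y hy hy'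
      rw [hy]
      simp only [Finset.sum_apply, Pi.mul_apply, Finset.mul_sum]
      refine Finset.sum_congr rfl fun j _ => ?_
      rw [hy' j, Pi.mul_apply]
      ring

/-- Giraud: the exact form -/
theorem gir_mem (hi : i ∈ T) (hip : i ≠ p) (hf : An (bet T p w) f) (hf' : An w f')
    (h : f ∘ bet T p =ᶠ[𝓝 w] co p ^ (m + 1) * f') :
    pd i f ∘ bet T p =ᶠ[𝓝 w] co p ^ m * pd i f' := by
  refine canc_co (i := p) (k := 1) ((an_pd hf i).comp (an_bet T p w))
    (((an_co p w).pow m).mul (an_pd hf' i)) ?_
  have h1 := pdne_XA7 hip hf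
  rw [if_pos hi] at h1
  filter_upwards [h1, pdpow_XA7 hip hf' h] with y a b
  rw [a] at b
  simp only [Pi.mul_apply, Pi.pow_apply] at b ⊢
  rw [pow_one, b]
  ring

/-- Giraud: all derivatives -/
theorem gir (hp : p ∈ T) (hf : An (bet T p w) f) (hf' : An w f')
    (h : f ∘ bet T p =ᶠ[𝓝 w] co p ^ (m + 1) * f') (i : Fin n) :
    ∃ (c₀ : E n → ℂ) (c : Fin n → E n → ℂ), An w c₀ ∧ (∀ j, An w (c j)) ∧
      pd i f ∘ bet T p =ᶠ[𝓝 w] co p ^ m * (c₀ * f' + ∑ j, c j * pd j f') := by
  by_cases hip : i = p
  · subst hip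
    refine ⟨fun _ => (m : ℂ) + 1,
      fun j => (if j = i then co i else 0) - if j ∈ T.erase i then co j else 0,
      analyticAt_const, fun j => AnalyticAt.sub ?_ ?_, ?_⟩
    · split_ifs
      · exact an_co i w
      · exact analyticAt_const
    · split_ifs
      · exact an_co j w
      · exact analyticAt_const
    have h1 : ∀ᶠ y in 𝓝 w, ∀ l ∈ T.erase i, (pd l f ∘ bet T i) y = (co i ^ m * pd l f') y :=
      (eventually_all_finset _).2 fun l hl =>
        gir_mem (Finset.mem_of_mem_erase hl) (Finset.ne_of_mem_erase hl) hf hf' h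
    filter_upwards [h1, pdeq_XA7 hf, pd_congr h i, pd_mul ((an_co i w).pow (m + 1)) hf' i]
      with y a b c d
    rw [b, d, pd_pow_co] at c
    have e1 : (∑ l ∈ T.erase i, co l * (pd l f ∘ bet T i)) y =
        y i ^ m * ∑ l ∈ T.erase i, y l * pd l f' y := by
      rw [Finset.sum_apply, Finset.mul_sum]
      refine Finset.sum_congr rfl fun l hl => ?_
      rw [Pi.mul_apply, a l hl]
      simp only [Pi.mul_apply, Pi.pow_apply, co]
      ring
    have e2 : (∑ j, ((if j = i then co i else 0) - if j ∈ T.erase i then co j else 0) *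
        pd j f') y = y i * pd i f' y - ∑ l ∈ T.erase i, y l * pd l f' y := by
      have e3 : ∀ j, (((if j = i then co i else 0) - if j ∈ T.erase i then co j else 0) *
          pd j f') y = (if j = i then y i * pd i f' y else 0) -
            if j ∈ T.erase i then y j * pd j f' y else 0 := by
        intro j
        by_cases hj : j = i
        · subst hj
          simp [co]
        · by_cases hT : j ∈ T <;> simp [hj, hT, co]
      rw [Finset.sum_apply]
      simp only [e3, Finset.sum_sub_distrib]
      rw [Finset.sum_ite_mem, Finset.univ_inter]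
      simp
    rw [Pi.add_apply, e1] at c
    rw [Pi.mul_apply, Pi.add_apply, e2]
    simp only [Pi.mul_apply, Pi.pow_apply, Pi.add_apply, co] at c ⊢
    linear_combination c
  · have key : ∀ (u : E n → ℂ) (y : E n),
        ((0 : E n → ℂ) * f' + ∑ j, (if j = i then u else 0) * pd j f') y = u y * pd i f' y := by
      intro u y
      simp [ite_mul]
    by_cases hi : i ∈ T
    · refine ⟨0, fun j => if j = i then 1 else 0, analyticAt_const, fun j => ?_, ?_⟩
      · beta_reduce
        split_ifs <;> exact analyticAt_const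
      filter_upwards [gir_mem hi hip hf hf' h] with y a
      rw [a, Pi.mul_apply, Pi.mul_apply, key]
      simp
    · refine ⟨0, fun j => if j = i then co p else 0, analyticAt_const, fun j => ?_, ?_⟩
      · beta_reduce
        split_ifs
        · exact an_co p w
        · exact analyticAt_const
      have h1 := pdne_XA7 hip hf
      rw [if_neg hi, one_mul] at h1
      filter_upwards [h1, pdpow_XA7 hip hf' h] with y a b
      rw [← a, b, Pi.mul_apply, Pi.mul_apply, key]
      simp only [Pi.pow_apply]
      ring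

theorem bord0 (hp : p ∈ T) (hw : w p = 0) (hf : An (bet T p w) f) (hf' : An w f')
    (h : f ∘ bet T p =ᶠ[𝓝 w] co p ^ k * f') : Ord (bet T p w) k f := by
  induction k generalizing f f' with
  | zero => exact ord_zero hf.continuousAt
  | succ k ih =>
    refine ord_succ hf ?_ fun i => ?_
    · have := h.self_of_nhds
      simpa [co, hw] using this
    · obtain ⟨c₀, c, h0, h1, h2⟩ := gir hp hf hf' h i
      exact ih (an_pd hf i)
        ((h0.mul hf').add (Finset.analyticAt_sum _ fun j _ => (h1 j).mul (an_pd hf' j))) h2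

theorem bord (hp : p ∈ T) (hw : w p = 0) (hf : An (bet T p w) f) (hf' : An w f')
    (h : f ∘ bet T p =ᶠ[𝓝 w] co p ^ k * f') (ho : Ord w (k + 1) f') :
    Ord (bet T p w) (k + 1) f := by
  induction k generalizing f f' with
  | zero =>
    refine ord_one hf ?_
    have := h.self_of_nhds
    simpa [ho.eq_zero] using this
  | succ k ih =>
    refine ord_succ hf ?_ fun i => ?_
    · have := h.self_of_nhds
      simpa [co, hw] using this
    · obtain ⟨c₀, c, h0, h1, h2⟩ := gir hp hf hf' h i
      refine ih (an_pd hf i)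
        ((h0.mul hf').add (Finset.analyticAt_sum _ fun j _ => (h1 j).mul (an_pd hf' j))) h2 ?_
      exact ((ho.mono (Nat.le_succ _)).mul_left h0.continuousAt).add
        (Ord.sum _ fun j _ => (ho.pd hf' j).mul_left (h1 j).continuousAt)

/-- off the exceptional divisor the chart is biholomorphic -/
theorem bi_bet (hp : p ∈ T) (hw : w p ≠ 0) : ∃ σ, Bi (bet T p) σ w (bet T p w) := by
  have h0 : bet T p w p ≠ 0 := by rwa [bet_self]
  have l : ∀ y : E n, y p ≠ 0 →
      (fun i => if i ∈ T.erase p then bet T p y i / bet T p y p else bet T p y i) = y := by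
    intro y hy
    funext i
    rw [bet_self]
    by_cases hi : i ∈ T.erase p
    · simp only [bet, if_pos hi]
      field_simp
    · simp only [bet, if_neg hi]
  refine ⟨fun y i => if i ∈ T.erase p then y i / y p else y i, an_bet T p w, ?_, rfl, l w hw,
    ?_, ?_⟩
  · refine analyticAt_pi_iff.2 fun i => ?_
    by_cases hi : i ∈ T.erase p
    · simp only [if_pos hi]
      exact (an_co i _).div (an_co p _) h0
    · simp only [if_neg hi]
      exact an_co i _
  · filter_upwards [(an_co p w).continuousAt.eventually_ne hw] with y hy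
    exact l y hy
  · filter_upwards [(an_co p _).continuousAt.eventually_ne h0] with y hy
    have hy' : y p ≠ 0 := hy
    funext i
    by_cases hi : i ∈ T.erase p
    · simp only [bet, if_pos hi, if_neg (Finset.notMem_erase p T)]
      field_simp
    · simp only [bet, if_neg hi]

end Pool.Agent.HIR
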