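import Pool.Agent.P.MP_65ad7c_ag.XB4
import Pool.Agent.P.MP_65ad7c_ag.XA6

open Set Filter Topology Asymptotics
open scoped ComplexConjugate

noncomputable section
namespace Pool.Agent.HIR

variable {n m μ b ν : ℕ} {z z' z'' : E n} {τ σ τ' σ' : E n → E n} {A B : Gr (E n)}
  {L : Set (ℕ × (E n → ℂ))} {f : E n → ℂ} {K K' K'' : Finset (Fin n)} {α α' α'' : Fin n → ℕ}

theorem left_XC1 (hb : Bi τ σ z z') (f : E n → ℂ) : (f ∘ σ) ∘ τ =ᶠ[𝓝 z] f :=
  hb.left.mono fun _ hw => congrArg f hw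

theorem lr_push (hb : Bi τ σ z z') (hA : LR z A) : LR z' (push A τ z') := by
  exact
    { an := fun _ _ h => h.1
      hol := fun _ hf => ⟨hf, hA.hol _ (hb.comp hf)⟩
      anti := fun _ _ h => ⟨h.1, hA.anti _ _ h.2⟩
      mul := fun _ _ _ _ h h' => ⟨h.1.mul h'.1, hA.mul _ _ _ _ h.2 h'.2⟩
      add := fun _ _ _ h h' => ⟨h.1.add h'.1, hA.add _ _ _ h.2 h'.2⟩
      zero := fun m => ⟨analyticAt_const, hA.zero m⟩
      congr := fun _ _ _ h e => ⟨h.1.congr e, hA.congr _ _ _ h.2 (e.comp_tendsto hb.tendsto)⟩ }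

theorem push_mem (hb : Bi τ σ z z') (hA : LR z A) (hf : A m f) : push A τ z' m (f ∘ σ) := by
  exact ⟨hb.symm.comp (hA.an _ _ hf), hA.congr _ _ _ hf (left_XC1 hb f).symm⟩

theorem push_push (hb : Bi τ σ z z') (hA : LR z A) : push (push A τ z') σ z = A := by
  refine Le.antisymm (fun m h hh => ?_) fun m h hh => ⟨hA.an _ _ hh, push_mem hb hA hh⟩
  exact hA.congr _ _ _ hh.2.2 (left_XC1 hb h)

theorem push_id (hA : LR z A) : push A id z = A := by
  exact Le.antisymm (fun m h hh => hh.2) fun m h hh => ⟨hA.an _ _ hh, hh⟩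

theorem push_trans (hb : Bi τ' σ' z' z'') :
    push (push A τ z') τ' z'' = push A (τ' ∘ τ) z'' := by
  exact Le.antisymm (fun m h hh => ⟨hh.1, hh.2.2⟩) fun m h hh => ⟨hh.1, hb.comp hh.1, hh.2⟩

theorem push_congr (hb : Bi τ σ z z') (hA : LR z A) (h : τ =ᶠ[𝓝 z] τ') :
    push A τ z' = push A τ' z' := by
  have _ := hb
  exact Le.antisymm (fun m g hg => ⟨hg.1, hA.congr _ _ _ hg.2 (h.fun_comp g)⟩)
    fun m g hg => ⟨hg.1, hA.congr _ _ _ hg.2 (h.fun_comp g).symm⟩

theorem push_le (h : Le A B) : Le (push A τ z') (push B τ z') := by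
  exact fun m g hg => ⟨hg.1, h _ _ hg.2⟩

theorem push_top (hb : Bi τ σ z z') : push (top z) τ z' = top z' := by
  exact Le.antisymm (fun m g hg => hg.1) fun m g hg => ⟨hg, hb.comp hg⟩

theorem lsg_push (hb : Bi τ σ z z') (hA : LR z A) : LSg z' (push A τ z') ↔ LSg z A := by
  constructor
  · intro h m g hg
    have h1 := h m _ (push_mem hb hA hg)
    rw [← hb.map] at h1
    exact (h1.comp hb.an.differentiableAt).congr (left_XC1 hb g)
  · intro h m g hg
    have h1 := h m _ hg.2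
    rw [← hb.map'] at h1
    exact (h1.comp hb.an'.differentiableAt).congr (left_XC1 hb.symm g)

theorem dif_push (hb : Bi τ σ z z') (hA : LR z A) (h : ∀ i, Dif i A) (i : Fin n) :
    Dif i (push A τ z') := by
  intro m g hg
  have hP := lr_push hb hA
  have h1 : An (σ z') (g ∘ τ) := by
    rw [hb.map']
    exact hb.comp hg.1
  have h2 := (pd_congr (left_XC1 hb.symm g) i).symm.trans (pd_comp hb.an' h1 i)
  refine hP.congr _ _ _ (hP.sum Finset.univ fun j _ => ?_) h2.symm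
  exact hP.hol_mul (an_pd (hb.symm.comp (an_co j z)) i) (push_mem hb hA (h j _ _ hg.2))

theorem push_In (hb : Bi τ σ z z') (hL : ∀ q ∈ L, An z q.2) :
    push (LIn z L) τ z' = LIn z' ((fun q => (q.1, q.2 ∘ σ)) '' L) := by
  have hL' : ∀ q ∈ (fun q : ℕ × (E n → ℂ) => (q.1, q.2 ∘ σ)) '' L, An z' q.2 := by
    rintro _ ⟨q, hq, rfl⟩
    exact hb.symm.comp (hL q hq)
  refine Le.antisymm (fun m g hg => ?_) (In.le (lr_push hb (lr_In hL)) ?_)
  · refine In.congr ?_ (left_XC1 hb.symm g)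
    exact In.comp hb.symm.tendsto (fun f hf => hb.symm.comp hf) (lr_In hL')
      (fun q hq => In.gen ⟨q, hq, rfl⟩) hg.2
  · rintro _ ⟨q, hq, rfl⟩
    exact push_mem (m := q.1) (f := q.2) hb (lr_In hL) (In.gen hq)

theorem Gen.push {A : E n → Gr (E n)} (h : Gen A μ z L) (hb : Bi τ σ z z') :
    Gen (fun w => push (A (σ w)) τ w) μ z' ((fun q => (q.1, q.2 ∘ σ)) '' L) := by
  refine ⟨h.fin.image _, ?_, ?_, ?_⟩
  · rintro _ ⟨q, hq, rfl⟩
    exact h.wt q hq
  · rintro _ ⟨q, hq, rfl⟩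
    exact hb.symm.comp (h.an q hq)
  · have h1 : ∀ᶠ w in 𝓝 z, ∀ q ∈ L, An w q.2 :=
      (eventually_all_finite h.fin).mpr fun q hq => (h.an q hq).eventually_analyticAt
    filter_upwards [hb.symm.ev, hb.symm.tendsto.eventually h.eq, hb.symm.tendsto.eventually h1]
      with w e1 e2 e3
    rw [e2]
    exact push_In e1.symm e3

theorem Tr.trans (hb : Bi τ' σ' z' z'') (h : Tr τ z z' A K K' b α α')
    (h' : Tr τ' z' z'' (push A τ z') K' K'' b α' α'') : Tr (τ' ∘ τ) z z'' A K K'' b α α'' := by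
  intro hd
  obtain ⟨d1, r1⟩ := h hd
  obtain ⟨d2, r2⟩ := h' d1
  rw [← push_trans hb]
  refine ⟨d2, fun ν hν => ?_⟩
  obtain ⟨a1, a2⟩ := r1 ν hν
  obtain ⟨b1, b2⟩ := r2 ν a1
  rw [← push_trans hb]
  exact ⟨b1, b2.trans (push_le a2)⟩

theorem Tr.congr (hb : Bi τ σ z z') (hA : LR z A) (e : τ =ᶠ[𝓝 z] τ')
    (h : Tr τ z z' A K K' b α α') : Tr τ' z z' A K K' b α α' := by
  intro hd
  obtain ⟨d1, r1⟩ := h hd
  rw [← push_congr hb hA e]
  refine ⟨d1, fun ν hν => ?_⟩
  rw [← push_congr hb (lr_Cmp hA) e]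
  exact r1 ν hν

theorem Two.symm {J : Finset ℕ} {c c' : ℕ → Fin n} (h : Two τ σ z z' A K K' J c c') :
    Two σ τ z' z (push A τ z') K' K J c' c := by
  refine ⟨h.bi.symm, lr_push h.bi h.rees, (lsg_push h.bi h.rees).mpr h.sg, h.pk', ?_, h.card.symm,
    h.dv.symm h.bi, h.out', h.out⟩
  rw [push_push h.bi h.rees]
  exact h.pk

/-- a new coordinate of maximal contact for a differential algebra -/
theorem pk_update {u : E n → ℂ} {l : Fin n} (hA : LR z A) (hd : ∀ i, Dif i A)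
    (hK : ∀ i ∈ K, A 1 (co i)) (hu : A 1 u) (hl : l ∉ K)
    (hb : Bi (fun w => Function.update w l (u w)) σ z z') :
    PK (push A (fun w => Function.update w l (u w)) z') (insert l K) := by
  refine ⟨fun i hi => ⟨an_co i z', ?_⟩, fun i _ => dif_push hb hA hd i⟩
  rcases Finset.mem_insert.mp hi with rfl | hi
  · have e : (co i ∘ fun w => Function.update w i (u w)) = u := by
      funext w
      simp [co]
    rw [e]
    exact hu
  · have hne : i ≠ l := fun e => hl (e ▸ hi)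
    have e : (co i ∘ fun w => Function.update w l (u w)) = co i := by
      funext w
      simp [co, Function.update_of_ne hne]
    rw [e]
    exact hK i hi

end Pool.Agent.HIR
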