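import Pool.Agent.P.MP_65ad7c_ag.XB4
import Pool.Agent.P.MP_65ad7c_ag.XA7
import Pool.Agent.P.MP_65ad7c_ag.XC1

open Set Filter Topology Asymptotics
open scoped ComplexConjugate

noncomputable section
namespace Pool.Agent.HIR

variable {n m μ : ℕ} {w : E n} {A B : Gr (E n)} {L : Set (ℕ × (E n → ℂ))} {f f' : E n → ℂ}
  {K T : Finset (Fin n)} {p : Fin n}

theorem lr_ltr (A : Gr (E n)) (T : Finset (Fin n)) (p : Fin n) (w : E n) : LR w (ltr A T p w) :=
  lr_In fun _ hq => hq.1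

theorem ltr_gen (hf : A m f) (hf' : An w f') (h : f ∘ bet T p =ᶠ[𝓝 w] co p ^ m * f') :
    ltr A T p w m f' :=
  In.gen ⟨hf', f, hf, h⟩

theorem ltr_mono (h : Le A B) : Le (ltr A T p w) (ltr B T p w) :=
  In.mono fun _ ⟨h1, f, hf, e⟩ => ⟨h1, f, h _ _ hf, e⟩

theorem lr_pre (hB : LR w B) : LR (bet T p w) (pre B T p w) := by
  have ht : Tendsto (bet T p) (𝓝 w) (𝓝 (bet T p w)) := (an_bet T p w).continuousAt.tendsto
  refine ⟨fun _ _ h => h.1, fun f hf => ?_, ?_, ?_, ?_, fun m => ?_, ?_⟩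
  · exact ⟨hf, f ∘ bet T p, hB.hol _ (hf.comp (an_bet T p w)), EventuallyEq.of_eq (by simp)⟩
  · rintro m f ⟨h1, h', hB', e⟩
    exact ⟨h1, co p * h', hB.hol_mul (an_co p w) (hB.anti _ _ hB'),
      e.trans (EventuallyEq.of_eq (by ring))⟩
  · rintro m m' f g ⟨h1, f', hf', e⟩ ⟨h2, g', hg', e'⟩
    exact ⟨h1.mul h2, f' * g', hB.mul _ _ _ _ hf' hg',
      (e.mul e').trans (EventuallyEq.of_eq (by funext y; simp only [Pi.mul_apply, Pi.pow_apply]; ring))⟩
  · rintro m f g ⟨h1, f', hf', e⟩ ⟨h2, g', hg', e'⟩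
    exact ⟨h1.add h2, f' + g', hB.add _ _ _ hf' hg',
      (e.add e').trans (EventuallyEq.of_eq (by
        funext y; simp only [Pi.mul_apply, Pi.pow_apply, Pi.add_apply]; ring))⟩
  · exact ⟨analyticAt_const, 0, hB.zero m, EventuallyEq.of_eq (by funext y; simp)⟩
  · rintro m f g ⟨h1, h', hB', e⟩ efg
    exact ⟨h1.congr efg, h', hB', (efg.comp_tendsto ht).symm.trans e⟩

theorem dif_pre (hp : p ∈ T) (hB : LR w B) (hd : ∀ i, Dif i B) (i : Fin n) :
    Dif i (pre B T p w) := by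
  rintro m f ⟨h1, h', hB', e⟩
  obtain ⟨c₀, c, hc₀, hc, e'⟩ := gir hp h1 (hB.an _ _ hB') e i
  exact ⟨an_pd h1 i, c₀ * h' + ∑ j, c j * pd j h',
    hB.add _ _ _ (hB.hol_mul hc₀ (hB.anti _ _ hB'))
      (hB.sum _ fun j _ => hB.hol_mul (hc j) (hd j m h' hB')), e'⟩

theorem ltr_le_of_pre (hB : LR w B) (h : Le A (pre B T p w)) : Le (ltr A T p w) B := by
  refine In.le hB ?_
  rintro q ⟨h1, f, hf, e⟩
  obtain ⟨-, h', hB', e'⟩ := h _ _ hf
  exact hB.congr _ _ _ hB' (canc_co (hB.an _ _ hB') h1 (e'.symm.trans e))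

theorem le_pre_ltr (hp : p ∈ T) (hw : w p = 0) (hA : LR (bet T p w) A)
    (hv : VanC (bet T p w) T A) : Le A (pre (ltr A T p w) T p w) := by
  intro m f hf
  obtain ⟨f', hf', e⟩ := bdiv hp hw (hA.an _ _ hf) (hv m f hf)
  exact ⟨hA.an _ _ hf, f', ltr_gen hf hf' e, e⟩

/-- the transforms of the generators generate the transform -/
theorem ltr_In (hL : ∀ q ∈ L, An (bet T p w) q.2) (t : ℕ × (E n → ℂ) → E n → ℂ)
    (ht : ∀ q ∈ L, An w (t q) ∧ q.2 ∘ bet T p =ᶠ[𝓝 w] co p ^ q.1 * t q) :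
    ltr (LIn (bet T p w) L) T p w = LIn w ((fun q => (q.1, t q)) '' L) := by
  have hR : LR w (LIn w ((fun q => (q.1, t q)) '' L)) := lr_In (by
    rintro _ ⟨q, hq, rfl⟩
    exact (ht q hq).1)
  refine Le.antisymm (ltr_le_of_pre hR (In.le (lr_pre hR) fun q hq => ?_))
    (In.le (lr_ltr _ T p w) ?_)
  · exact ⟨hL q hq, t q, In.gen ⟨q, hq, rfl⟩, (ht q hq).2⟩
  · rintro _ ⟨q, hq, rfl⟩
    exact ltr_gen (In.gen (m := q.1) (f := q.2) hq) (ht q hq).1 (ht q hq).2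

theorem Gen.ltr {A : E n → Gr (E n)} (h : Gen A μ (bet T p w) L) (hp : p ∈ T) (hw : w p = 0)
    (hv : VanC (bet T p w) T (A (bet T p w))) :
    LFg (fun y => ltr (A (bet T p y)) T p y) μ w := by
  have ht : Tendsto (bet T p) (𝓝 w) (𝓝 (bet T p w)) := (an_bet T p w).continuousAt.tendsto
  have h0 : A (bet T p w) = LIn (bet T p w) L := h.eq.self_of_nhds
  have h1 : ∀ q : ℕ × (E n → ℂ), ∃ f' : E n → ℂ, q ∈ L →
      An w f' ∧ q.2 ∘ bet T p =ᶠ[𝓝 w] co p ^ q.1 * f' := by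
    intro q
    by_cases hq : q ∈ L
    · have h2 : A (bet T p w) q.1 q.2 := by
        rw [h0]; exact In.gen (m := q.1) (f := q.2) hq
      obtain ⟨f', hf', e⟩ := bdiv hp hw (h.an q hq) (hv _ _ h2)
      exact ⟨f', fun _ => ⟨hf', e⟩⟩
    · exact ⟨0, fun h2 => absurd h2 hq⟩
  choose t ht' using h1
  refine ⟨(fun q => (q.1, t q)) '' L, h.fin.image _, ?_, ?_, ?_⟩
  · rintro _ ⟨q, hq, rfl⟩
    exact h.wt q hq
  · rintro _ ⟨q, hq, rfl⟩
    exact (ht' q hq).1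
  · have h2 : ∀ᶠ y in 𝓝 w, ∀ q ∈ L, An (bet T p y) q.2 :=
      (eventually_all_finite h.fin).2 fun q hq => ht.eventually (h.an q hq).eventually_analyticAt
    have h3 : ∀ᶠ y in 𝓝 w, ∀ q ∈ L,
        An y (t q) ∧ q.2 ∘ bet T p =ᶠ[𝓝 y] co p ^ q.1 * t q :=
      (eventually_all_finite h.fin).2 fun q hq =>
        (ht' q hq).1.eventually_analyticAt.and (ht' q hq).2.eventuallyEq_nhds
    filter_upwards [h2, h3, ht.eventually h.eq] with y k2 k3 k4
    rw [k4]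
    exact ltr_In k2 t k3

/-- off the exceptional divisor -/
theorem ltr_off {σ : E n → E n} (hb : Bi (bet T p) σ w (bet T p w)) (hw : w p ≠ 0)
    (hA : LR (bet T p w) A) : ltr A T p w = push A σ w := by
  have hσ : Tendsto σ (𝓝 (bet T p w)) (𝓝 w) := by
    have := hb.an'.continuousAt.tendsto
    rwa [hb.map'] at this
  have hc : ∀ {g : E n → ℂ}, An w g → An (bet T p w) (g ∘ σ) := fun hg =>
    AnalyticAt.comp (by rwa [hb.map']) hb.an'
  refine Le.antisymm (In.le (lr_push hb.symm hA) ?_) ?_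
  · rintro q ⟨h1, f, hf, e⟩
    refine ⟨h1, hA.unit (g := (co p ^ q.1) ∘ σ) (hc ((an_co p w).pow _)) ?_ ?_⟩
    · simp only [Function.comp_apply, hb.map', Pi.pow_apply, co]
      exact pow_ne_zero _ hw
    · refine hA.congr _ _ _ hf ?_
      filter_upwards [e.comp_tendsto hσ, hb.right] with y k1 k2
      simp only [Function.comp_apply, k2] at k1
      exact k1
  · rintro m g ⟨h1, h2⟩
    refine ltr_gen (hA.hol_mul (g := (co p ^ m) ∘ σ) (hc ((an_co p w).pow _)) h2) h1 ?_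
    filter_upwards [hb.left] with y k
    simp only [Function.comp_apply, Pi.mul_apply, k]

/-- persistence of maximal contact -/
theorem lpk (hK : PK A K) (hKT : K ⊆ T) (hA : LR (bet T p w) A) (hs : LSg w (ltr A T p w)) :
    p ∉ K ∧ PK (ltr A T p w) K := by
  have hp : p ∉ K := fun hp => by
    refine not_lsg_one (f := 1) (ltr_gen (hK.co p hp) analyticAt_const
      (EventuallyEq.of_eq ?_)) (by simp) hs
    funext y
    simp [co, bet_self]
  refine ⟨hp, fun i hi => ?_, fun i hi => ?_⟩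
  · exact ltr_gen (hK.co i hi) (an_co i w)
      (EventuallyEq.of_eq (co_bet (hKT hi) fun e => hp (e ▸ hi)))
  · refine In.dif (fun _ hq => hq.1) ?_
    rintro m f' ⟨h1, f, hf, e⟩
    exact ltr_gen (hK.der i hi m f hf) (an_pd h1 i)
      (gir_mem (hKT hi) (fun e => hp (e ▸ hi)) (hA.an _ _ hf) h1 e)

end Pool.Agent.HIR
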