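import Pool.Agent.P.MP_65ad7c_ag.XE3
import Pool.Agent.P.MP_65ad7c_ag.XA7

open Set Filter Topology Asymptotics
open scoped ComplexConjugate
open Pool.Agent.HT (Amb proj cj IsChart IsSNC)

noncomputable section
namespace Pool.Agent.HIR

variable {n r₀ j : ℕ} {S : Sp n} {β : Bl S} {φ : E n → Amb S.M} {φ' : E n → Amb β.S'.M}
  {z w : E n} {x' : Amb β.S'.M} {T : Finset (Fin n)} {p i : Fin n}

theorem clos_XE6 {M : ℕ} {X A : Set (Amb M)} {ψ : E n → Amb M} {x : Amb M} (h : Pt X ψ z x)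
    (hA : A ⊆ X) : x ∈ closure A ↔ ∃ᶠ u in 𝓝 z, ψ u ∈ A := by
  have h1 : (∃ᶠ y in 𝓝[X] x, y ∈ A) ↔ ∃ᶠ u in 𝓝 z, ψ u ∈ A :=
    not_congr (h.ev_iff (P := fun y => y ∉ A))
  rw [← h1, mem_closure_iff_frequently, frequently_nhdsWithin_iff]
  exact frequently_congr (Eventually.of_forall fun y => ⟨fun hy => ⟨hy, hA hy⟩, fun hy => hy.1⟩)

theorem freq_XE6 {K : Finset (Fin n)} (hz : ∀ i ∈ K, z i = 0) (hp : p ∉ K) :
    ∃ᶠ u in 𝓝 z, (∀ i ∈ K, u i = 0) ∧ u p ≠ 0 := by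
  refine (dense_mon (α := Pi.single p 1) hz fun i hi hK => ?_).mono fun u hu => ⟨hu.1, fun h0 => ?_⟩
  · exact hi (Pi.single_eq_of_ne (fun e : i = p => hp (e ▸ hK)) 1)
  · exact hu.2 (Finset.prod_eq_zero (Finset.mem_univ p) (by simp [h0]))

theorem empty_XE6 (β : Bl S) (hj : S.r < j) : β.S'.D j = ∅ :=
  β.S'.fin j (by rw [β.r]; omega)

theorem Bl.exists_off (hx : x' ∈ β.S'.X) (h : β.π x' ∉ β.C) (hp : Pt S.X φ z (β.π x')) :
    ∃ φ', Off β x' φ φ' z := by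
  obtain ⟨φ', h1, h2⟩ := β.off x' hx h φ z hp
  exact ⟨φ', hp, h1, h, h2⟩

theorem Bl.exists_up (hx : x' ∈ β.S'.X) (h : β.π x' ∈ β.C) (hp : Pt S.X φ z (β.π x'))
    (hs : Sub β.C φ z T) : ∃ φ' w p, bet T p w = z ∧ Up β x' φ T p φ' w := by
  obtain ⟨φ', w, p, h1, h2, rfl, h3, h4⟩ := β.on x' hx h φ z T hp hs
  exact ⟨φ', w, p, rfl, hp, h3, h1, h2, hs, h4⟩

theorem Bl.str_sub (β : Bl S) (hj : j ≠ S.r) : MapsTo β.π (β.S'.D j) (S.D j) := by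
  intro x hx
  rcases hj.lt_or_gt with h | h
  · rw [β.str j h] at hx
    exact closure_minimal (fun y hy => hy.2.1) ((S.closedD j).preimage β.cont) hx
  · rw [empty_XE6 β h] at hx
    exact hx.elim

theorem Bl.tendsto (β : Bl S) (x' : Amb β.S'.M) :
    Tendsto β.π (𝓝[β.S'.X] x') (𝓝[S.X] β.π x') := by
  exact β.cont.continuousWithinAt.tendsto_nhdsWithin β.maps

theorem Bl.J_sub (β : Bl S) (r₀ : ℕ) (x' : Amb β.S'.M) :
    β.S'.J r₀ x' ⊆ insert S.r (S.J r₀ (β.π x')) := by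
  intro j hj
  obtain ⟨h1, h2⟩ := mem_J.1 hj
  by_cases e : j = S.r
  · exact Finset.mem_insert.2 (Or.inl e)
  · exact Finset.mem_insert_of_mem (mem_J.2 ⟨h1, β.str_sub e h2⟩)

theorem Up.memC (h : Up β x' φ T p φ' w) : β.π x' ∈ β.C := by
  rw [← h.pt.eq]
  exact h.sub.zero.2 ((bet_zero h.mem).2 h.zero)

theorem tb_XE6 (T : Finset (Fin n)) (p : Fin n) (w : E n) :
    Tendsto (bet T p) (𝓝 w) (𝓝 (bet T p w)) := (an_bet T p w).continuousAt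

theorem up_XE6 (h : Up β x' φ T p φ' w) : ∀ᶠ y in 𝓝 w, Pt β.S'.X φ' y (φ' y) ∧
    β.π (φ' y) = φ (bet T p y) ∧ (φ (bet T p y) ∈ β.C ↔ y p = 0) := by
  filter_upwards [h.pt'.ev, h.comm, (tb_XE6 T p w).eventually h.sub] with y h1 h2 h3
  exact ⟨h1, h2, h3.trans (bet_zero h.mem)⟩

theorem str_XE6 (h : Up β x' φ T p φ' w) (hj : j < S.r) (hc : Co (S.D j) φ (bet T p w) i) :
    ∀ᶠ y in 𝓝 w, φ' y ∈ β.S'.D j ↔ ∃ᶠ u in 𝓝 y, bet T p u i = 0 ∧ u p ≠ 0 := by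
  filter_upwards [up_XE6 h, (up_XE6 h).eventually_nhds,
    ((tb_XE6 T p w).eventually hc).eventually_nhds] with y h1 h2 h3
  rw [β.str j hj, clos_XE6 h1.1 Set.inter_subset_left]
  refine frequently_congr ?_
  filter_upwards [h2, h3] with u h4 h5
  rw [Set.mem_inter_iff, Set.mem_preimage, Set.mem_sdiff, h4.2.1, h4.2.2, h5]
  exact and_iff_right h4.1.mem

theorem Up.exc (h : Up β x' φ T p φ' w) : Co (β.S'.D S.r) φ' w p := by
  filter_upwards [up_XE6 h] with y hy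
  rw [β.exc, Set.mem_inter_iff, Set.mem_preimage, hy.2.1, hy.2.2]
  exact and_iff_right hy.1.mem

theorem Up.str (h : Up β x' φ T p φ' w) (hj : j ≠ S.r) (hc : Co (S.D j) φ (bet T p w) i)
    (hz : bet T p w i = 0) (hi : i ≠ p) : Co (β.S'.D j) φ' w i := by
  filter_upwards [str_XE6 h (Sp.lt (hc.zero.2 hz)) hc] with y hy
  have e : ∀ u : E n, u p ≠ 0 → (bet T p u i = 0 ↔ u i = 0) := fun u hu => by
    rw [bet]
    split_ifs
    · exact mul_eq_zero.trans (or_iff_right hu)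
    · rfl
  rw [hy]
  constructor
  · intro hf
    have hf' : ∃ᶠ u in 𝓝 y, u ∈ {u : E n | u i = 0} := hf.mono fun u hu => (e u hu.2).1 hu.1
    exact (isClosed_eq (continuous_apply i) continuous_const).closure_subset
      (mem_closure_iff_frequently.2 hf')
  · intro h0
    refine (freq_XE6 (K := {i}) (p := p) (by simpa using h0) (by simpa using hi.symm)).mono
      fun u hu => ⟨(e u hu.2).2 (hu.1 i (Finset.mem_singleton_self i)), hu.2⟩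

theorem Up.str_self (h : Up β x' φ T p φ' w) (hj : j ≠ S.r) (hc : Co (S.D j) φ (bet T p w) p) :
    x' ∉ β.S'.D j := by
  intro hx
  rcases hj.lt_or_gt with h1 | h1
  · have h2 := (str_XE6 h h1 hc).self_of_nhds
    rw [h.pt'.eq] at h2
    obtain ⟨u, hu, hu'⟩ := (h2.1 hx).exists
    rw [bet_self] at hu
    exact hu' hu
  · rw [empty_XE6 β h1] at hx
    exact hx.elim

theorem Up.J (h : Up β x' φ T p φ' w) (hr : r₀ ≤ S.r) {c : ℕ → Fin n}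
    (hc : ∀ j ∈ S.J r₀ (β.π x'), Co (S.D j) φ (bet T p w) (c j)) :
    β.S'.J r₀ x' = insert S.r ((S.J r₀ (β.π x')).filter fun j => c j ≠ p ∧ w (c j) = 0) := by
  have key : ∀ j ∈ S.J r₀ (β.π x'), j ≠ S.r → c j ≠ p → (x' ∈ β.S'.D j ↔ w (c j) = 0) := by
    intro j hj h1 h2
    have h3 : bet T p w (c j) = 0 := (hc j hj).zero.1 (by rw [h.pt.eq]; exact (mem_J.1 hj).2)
    have h4 := (h.str h1 (hc j hj) h3 h2).zero
    rwa [h.pt'.eq] at h4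
  ext j
  rw [Finset.mem_insert, Finset.mem_filter]
  by_cases e : j = S.r
  · refine iff_of_true (mem_J.2 ⟨e ▸ hr, ?_⟩) (Or.inl e)
    rw [e, ← h.pt'.eq]
    exact h.exc.zero.2 h.zero
  · rw [or_iff_right e]
    constructor
    · intro hj
      obtain ⟨h1, h2⟩ := mem_J.1 hj
      have h3 : j ∈ S.J r₀ (β.π x') := mem_J.2 ⟨h1, β.str_sub e h2⟩
      have h4 : c j ≠ p := fun e' => h.str_self e (e' ▸ hc j h3) h2
      exact ⟨h3, h4, (key j h3 e h4).1 h2⟩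
    · rintro ⟨h1, h2, h3⟩
      exact mem_J.2 ⟨(mem_J.1 h1).1, (key j h1 e h2).2 h3⟩

theorem Off.ev (h : Off β x' φ φ' z) :
    ∀ᶠ y in 𝓝 z, β.π (φ' y) = φ y ∧ Off β (φ' y) φ φ' y := by
  filter_upwards [h.comm, h.comm.eventually_nhds, h.pt.ev, h.pt'.ev,
    h.pt.cont.eventually (β.ctr.closed.isOpen_compl.mem_nhds h.out)] with y h1 h2 h3 h4 h5
  have e : β.π (φ' y) = φ y := h1
  exact ⟨e, by rw [e]; exact h3, h4, by rw [e]; exact h5, h2⟩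

theorem Bl.mem_off (hx : x' ∈ β.S'.X) (h : β.π x' ∉ β.C) : x' ∈ β.S'.D j ↔ β.π x' ∈ S.D j := by
  rcases lt_trichotomy j S.r with h1 | rfl | h1
  · refine ⟨fun h2 => β.str_sub h1.ne h2, fun h2 => ?_⟩
    rw [β.str j h1]
    exact subset_closure ⟨hx, h2, h⟩
  · rw [β.exc, S.fin _ le_rfl]
    exact iff_of_false (fun h2 => h h2.2) id
  · rw [empty_XE6 β h1, S.fin _ h1.le]
    exact Iff.rfl

theorem Off.co (h : Off β x' φ φ' z) : Co (β.S'.D j) φ' z i ↔ Co (S.D j) φ z i := by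
  refine eventually_congr ?_
  filter_upwards [h.ev] with y hy
  rw [Bl.mem_off hy.2.pt'.mem hy.2.out, hy.1]

theorem Bl.J_off (hx : x' ∈ β.S'.X) (h : β.π x' ∉ β.C) : β.S'.J r₀ x' = S.J r₀ (β.π x') := by
  ext j
  rw [mem_J, mem_J, Bl.mem_off hx h]

theorem exup_XE6 (hx : x' ∈ β.S'.X) (h : β.π x' ∈ β.C) :
    ∃ φ T p φ' w, Up β x' φ T p φ' w := by
  obtain ⟨s, hs⟩ := β.ctr.chart
  obtain ⟨φ, z, T, hp, -, hT, -⟩ := hs _ h
  obtain ⟨φ', w, p, -, hu⟩ := Bl.exists_up hx h hp hT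
  exact ⟨φ, T, p, φ', w, hu⟩

theorem Bl.hol {f : Amb S.M → ℂ} (hx : x' ∈ β.S'.X) (h : Hol n S.X (β.π x') f) :
    Hol n β.S'.X x' (f ∘ β.π) := by
  by_cases hC : β.π x' ∈ β.C
  · obtain ⟨φ, T, p, φ', w, hu⟩ := exup_XE6 hx hC
    refine hol_of_pt hu.pt' ?_
    have h1 : An w ((f ∘ φ) ∘ bet T p) := (h φ _ hu.pt).comp (an_bet T p w)
    exact h1.congr (hu.comm.fun_comp f).symm
  · obtain ⟨φ, z, hp, -⟩ := Sp.chart (β.maps hx)
    obtain ⟨φ', ho⟩ := Bl.exists_off hx hC hp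
    exact hol_of_pt ho.pt' ((h φ z hp).congr (ho.comm.fun_comp f).symm)

/-- the complement of the exceptional divisor is dense -/
theorem Bl.dense (β : Bl S) : β.S'.X ⊆ closure (β.S'.X \ β.π ⁻¹' β.C) := by
  intro x' hx
  by_cases hC : β.π x' ∈ β.C
  · obtain ⟨φ, T, p, φ', w, hu⟩ := exup_XE6 hx hC
    rw [clos_XE6 hu.pt' Set.sdiff_subset]
    refine ((freq_XE6 (K := ∅) (p := p) (by simp) (by simp)).and_eventually (up_XE6 hu)).mono
      fun u hu' => ⟨hu'.2.1.mem, fun h1 => hu'.1.2 (hu'.2.2.2.1 ?_)⟩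
    rw [← hu'.2.2.1]
    exact h1
  · exact subset_closure ⟨hx, hC⟩

/-- the union of the new divisors -/
theorem Bl.union (hx : x' ∈ β.S'.X) :
    (∃ j, x' ∈ β.S'.D j) ↔ β.π x' ∈ β.C ∨ ∃ j, β.π x' ∈ S.D j := by
  constructor
  · rintro ⟨j, hj⟩
    by_cases e : j = S.r
    · rw [e, β.exc] at hj
      exact Or.inl hj.2
    · exact Or.inr ⟨j, β.str_sub e hj⟩
  · intro h
    by_cases hC : β.π x' ∈ β.C
    · exact ⟨S.r, by rw [β.exc]; exact ⟨hx, hC⟩⟩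
    · obtain ⟨j, hj⟩ := h.resolve_left hC
      exact ⟨j, (Bl.mem_off hx hC).2 hj⟩

end Pool.Agent.HIR
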