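import Pool.Agent.P.MP_65ad7c_ag.XE4
import Pool.Agent.P.MP_65ad7c_ag.XE6
import Pool.Agent.P.MP_65ad7c_ag.XC7

open Set Filter Topology Asymptotics
open scoped ComplexConjugate
open Pool.Agent.HT (Amb proj cj IsChart IsSNC)

noncomputable section
namespace Pool.Agent.HIR

variable {n μ : ℕ} {S : Sp n} {β : Bl S} {G H : Alg S.M} {φ : E n → Amb S.M}
  {φ' : E n → Amb β.S'.M} {z w : E n} {x' : Amb β.S'.M} {T : Finset (Fin n)} {p : Fin n}

theorem tr_eq_XE7 (G : Alg S.M) (hx : x' ∈ β.S'.X) : tr β G x' =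
    In (𝓝[β.S'.X] x') (Hol n β.S'.X x') {q | Hol n β.S'.X x' q.2 ∧ ∃ g ε, G (β.π x') q.1 g ∧
      Eq1 n β.S'.X (β.S'.D S.r) x' ε ∧ g ∘ β.π =ᶠ[𝓝[β.S'.X] x'] ε ^ q.1 * q.2} := by
  funext m f
  exact propext ⟨fun h => h hx, fun h _ => h⟩

theorem tr_rees (β : Bl S) (G : Alg S.M) : GR β.S' (tr β G) := by
  intro x hx
  rw [tr_eq_XE7 G hx]
  exact In.rees (ring_hol _ _ _) fun q hq => hq.1

theorem loc_tr (h : Pt S.X φ (bet T p w) (β.π x')) (h' : Pt β.S'.X φ' w x')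
    (hc : Co (β.S'.D S.r) φ' w p) (e : β.π ∘ φ' =ᶠ[𝓝 w] φ ∘ bet T p) :
    loc (tr β G) φ' w = ltr (loc G φ (bet T p w)) T p w := by
  have hb : Tendsto (bet T p) (𝓝 w) (𝓝 (bet T p w)) := (an_bet T p w).continuousAt
  rw [loc_In h' (tr_eq_XE7 G h'.mem)]
  refine Le.antisymm (In.le (lr_ltr _ _ _ _) ?_) (In.mono ?_)
  · rintro ⟨m, k⟩ ⟨f, ⟨hf, g, ε, hg, hε, e1⟩, e2⟩
    obtain ⟨u, hu, hu0, e3⟩ := eq1_unit h' hc hε
    have hk : An w k := (hf φ' w h').congr e2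
    have e1' := (h'.ev_iff (P := fun y => (g ∘ β.π) y = (ε ^ m * f) y)).1 e1
    refine Rees.unit (g := u ^ m) (lr_ltr _ _ _ _) (hu.pow m) (pow_ne_zero m hu0) ?_
    refine ltr_gen (f := g ∘ φ) ⟨g, by rw [h.eq]; exact hg, EventuallyEq.rfl⟩
      ((hu.pow m).mul hk) ?_
    filter_upwards [e, e1', e2, e3] with y h1 h2 h3 h4
    simp only [Function.comp_apply, Pi.mul_apply, Pi.pow_apply] at h1 h2 h3 h4 ⊢
    rw [← h1, h2, h3, h4]
    ring
  · rintro ⟨m, k⟩ ⟨hk, f₀, ⟨g, hg, e1⟩, e2⟩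
    obtain ⟨f, e3⟩ := h'.lift k
    obtain ⟨ε, hε, e4⟩ := exists_eq1 h' hc
    refine ⟨f, ⟨hol_of_pt h' (AnalyticAt.congr hk e3.symm), g, ε, by rw [← h.eq]; exact hg, hε,
      ?_⟩, e3⟩
    refine (h'.ev_iff (P := fun y => (g ∘ β.π) y = (ε ^ m * f) y)).2 ?_
    filter_upwards [e, hb.eventually e1, e2, e3, e4] with y h1 h2 h3 h4 h5
    simp only [Function.comp_apply, Pi.mul_apply, Pi.pow_apply] at h1 h2 h3 h4 h5 ⊢
    rw [h1, h2, h3, h4, h5]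

theorem Up.loc_tr (h : Up β x' φ T p φ' w) (G : Alg S.M) :
    ∀ᶠ y in 𝓝 w, loc (tr β G) φ' y = ltr (loc G φ (bet T p y)) T p y := by
  have hb : Tendsto (bet T p) (𝓝 w) (𝓝 (bet T p w)) := (an_bet T p w).continuousAt
  filter_upwards [hb.eventually h.pt.ev, h.pt'.ev, h.exc.ev, h.comm.eventually_nhds]
    with y h1 h2 h3 h4
  have h5 : β.π (φ' y) = φ (bet T p y) := h4.self_of_nhds
  exact HIR.loc_tr (x' := φ' y) (by rw [h5]; exact h1) h2 h3 h4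

theorem Off.loc_tr (h : Off β x' φ φ' z) (hG : GR S G) : loc (tr β G) φ' z = loc G φ z := by
  have hD : x' ∉ β.S'.D S.r := by
    rw [β.exc]
    exact fun h' => h.out h'.2
  refine Le.antisymm ?_ ?_
  · rw [loc_In h.pt' (tr_eq_XE7 G h.pt'.mem)]
    refine In.le (lr_loc hG h.pt) ?_
    rintro ⟨m, k⟩ ⟨f, ⟨-, g, ε, hg, hε, e1⟩, e2⟩
    have h0 : ε x' ≠ 0 := fun h0 => hD ((hε.2.1.self_of_nhdsWithin h.pt'.mem).1 h0)
    have e1' := (h.pt'.ev_iff (P := fun y => (g ∘ β.π) y = (ε ^ m * f) y)).1 e1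
    refine Rees.unit (g := (ε ∘ φ') ^ m) (lr_loc hG h.pt) ((hε.1 φ' z h.pt').pow m) ?_ ?_
    · have : ε (φ' z) ≠ 0 := by rw [h.pt'.eq]; exact h0
      exact pow_ne_zero m this
    · refine ⟨g, by rw [h.pt.eq]; exact hg, ?_⟩
      filter_upwards [h.comm, e1', e2] with y h1 h2 h3
      simp only [Function.comp_apply, Pi.mul_apply, Pi.pow_apply] at h1 h2 h3 ⊢
      rw [← h1, h2, h3]
  · rintro m k ⟨g, hg, e1⟩
    rw [h.pt.eq] at hg
    refine ⟨g ∘ β.π, ?_, ?_⟩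
    · rw [h.pt'.eq]
      refine fun hx => In.gen ⟨Bl.hol hx ((hG _ h.pt.mem).an _ _ hg), g, 1, hg,
        eq1_one (β.S'.closedD _) hD, ?_⟩
      rw [one_pow, one_mul]
    · filter_upwards [h.comm, e1] with y h1 h2
      simp only [Function.comp_apply] at h1 h2 ⊢
      rw [h1, h2]

theorem tr_mono (β : Bl S) (h : GLe S G H) : GLe β.S' (tr β G) (tr β H) := by
  intro x hx m f hf _
  refine In.mono ?_ m f (hf hx)
  rintro q ⟨h1, g, ε, hg, h2⟩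
  exact ⟨h1, g, ε, h _ (β.maps hx) _ _ hg, h2⟩

theorem tr_cj (β : Bl S) (h : CjA S G) : CjA β.S' (tr β G) := by
  intro x hx m f hf _
  have hf' := hf hx
  clear hf
  induction hf' with
  | @gen m f hq =>
    obtain ⟨h1, g, ε, hg, hε, e⟩ := hq
    refine In.gen ⟨h1.cF β.S'.cjX, cF g, cF ε, ?_, hε.cF β.S'.cjX (β.S'.cjD _), ?_⟩
    · rw [β.rl]
      exact h _ (β.maps hx) _ _ hg
    · rw [← map_cj β.S'.cjX x]
      refine Filter.eventually_map.2 ?_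
      filter_upwards [e] with y hy
      simp only [Function.comp_apply, Pi.mul_apply, Pi.pow_apply, cF, β.rl, cj_cj] at hy ⊢
      rw [hy, map_mul, map_pow]
  | hol hq => exact In.hol (hq.cF β.S'.cjX)
  | anti _ ih => exact In.anti ih
  | @mul m m' f g _ _ ih ih' =>
    have e : cF (f * g) = cF f * cF g := by
      funext y
      simp [cF]
    rw [e]
    exact In.mul ih ih'
  | @add m f g _ _ ih ih' =>
    have e : cF (f + g) = cF f + cF g := by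
      funext y
      simp [cF]
    rw [e]
    exact In.add ih ih'
  | zero =>
    have e : cF (0 : Amb β.S'.M → ℂ) = 0 := by
      funext y
      simp [cF]
    rw [e]
    exact In.zero
  | @congr m f g _ e ih =>
    refine In.congr ih ?_
    rw [← map_cj β.S'.cjX x]
    refine Filter.eventually_map.2 ?_
    filter_upwards [e] with y hy
    simp only [cF, cj_cj, hy]

theorem sg_off (hG : GR S G) (hx : x' ∈ β.S'.X) (h : β.π x' ∉ β.C) :
    x' ∈ Sg β.S' (tr β G) ↔ β.π x' ∈ Sg S G := by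
  obtain ⟨φ, z, hp, -⟩ := Sp.chart (β.maps hx)
  obtain ⟨φ', ho⟩ := Bl.exists_off hx h hp
  rw [sg_iff (tr_rees β G) ho.pt', sg_iff hG hp, ho.loc_tr hG]

theorem sg_tr (hG : GR S G) (hC : β.C ⊆ Sg S G) :
    MapsTo β.π (Sg β.S' (tr β G)) (Sg S G) := by
  intro x' hx
  by_cases h : β.π x' ∈ β.C
  · exact hC h
  · exact (sg_off hG hx.1 h).1 hx

theorem Good.tr (hG : Good S G μ) (hC : β.C ⊆ Sg S G) : Good β.S' (tr β G) μ := by
  refine good_of_one hG.pos (tr_rees β G) (tr_cj β hG.rl) fun x' hx => ?_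
  by_cases h : β.π x' ∈ β.C
  · obtain ⟨s, hs⟩ := β.ctr.chart
    obtain ⟨φ, z, T, hp, -, hsub, -⟩ := hs _ h
    obtain ⟨φ', w, p, rfl, hu⟩ := Bl.exists_up hx h hp hsub
    obtain ⟨L, hL⟩ := hG.fg φ _ _ hp
    obtain ⟨L', hL'⟩ := hL.ltr hu.mem hu.zero (hG.vanC hp hC hsub)
    refine ⟨φ', w, hu.pt', L', hL'.fin, hL'.wt, hL'.an, ?_⟩
    filter_upwards [hL'.eq, hu.loc_tr G] with y h1 h2
    exact h2.trans h1
  · obtain ⟨φ, z, hp, -⟩ := Sp.chart (β.maps hx)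
    obtain ⟨φ', ho⟩ := Bl.exists_off hx h hp
    obtain ⟨L, hL⟩ := hG.fg φ _ _ hp
    refine ⟨φ', z, ho.pt', L, hL.fin, hL.wt, hL.an, ?_⟩
    filter_upwards [hL.eq, ho.ev] with y h1 h2
    exact (h2.2.loc_tr hG.rees).trans h1

theorem van_mem_XE7 {x : Amb S.M} {i : Fin n} {j : ℕ} {f : Amb S.M → ℂ} (hG : GR S G)
    (hp : Pt S.X φ z x) (hc : Co (S.D j) φ z i) (hx : x ∈ S.D j) (hi : loc G φ z 1 (co i))
    (hf : Hol n S.X x f) (hv : VanD (S.D j) x f) : G x 1 f := by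
  have hz : z i = 0 := hc.zero.1 (by rw [hp.eq]; exact hx)
  have h0 : ∀ᶠ y in 𝓝 z, y i = 0 → (f ∘ φ) y = 0 := by
    filter_upwards [(vanD_iff hp (S.snc.sub j)).1 hv, hc] with y h1 h2 h3
    exact h1 (h2.2 h3)
  obtain ⟨q, hq, e⟩ := div_co (hf φ z hp) hz h0
  refine (mem_loc hG hp).1 ((lr_loc hG hp).congr _ _ _ ((lr_loc hG hp).hol_mul hq hi) ?_)
  rw [mul_comm]
  exact e.symm

theorem Old.tr {r₀ : ℕ} (h : Old S G r₀) (hG : Good S G μ) (hr : r₀ ≤ S.r) (hC : β.C ⊆ Sg S G) :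
    Old β.S' (HIR.tr β G) r₀ := by
  intro x' hx' j hj hD f hf hv
  have hx : β.π x' ∈ Sg S G := sg_tr hG.rees hC hx'
  have hjr : j ≠ S.r := by omega
  have hD0 : β.π x' ∈ S.D j := β.str_sub hjr hD
  by_cases hc : β.π x' ∈ β.C
  · obtain ⟨s, hs⟩ := β.ctr.chart
    obtain ⟨φ, z, T, hp, -, hsub, hco⟩ := hs _ hc
    obtain ⟨i, hi⟩ := hco j hD0
    obtain ⟨φ', w, p, rfl, hu⟩ := Bl.exists_up hx'.1 hc hp hsub
    have h1 := h.co hp hx hj hD0 hi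
    have hz : ∀ k ∈ T, bet T p w k = 0 := hsub.zero.1 (by rw [hp.eq]; exact hc)
    have hiT : i ∈ T := by
      refine mem_of_van hz ?_
      filter_upwards [hG.van hp h1, hsub] with y h2 h3 h4
      exact h2 (hC (h3.2 h4))
    have hip : i ≠ p := by
      rintro rfl
      exact hu.str_self hjr hi hD
    refine van_mem_XE7 (tr_rees β G) hu.pt' (hu.str hjr hi (hz i hiT) hip) hD ?_ hf hv
    rw [(hu.loc_tr G).self_of_nhds]
    exact ltr_gen h1 (an_co i w) (by rw [co_bet hiT hip])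
  · obtain ⟨φ, z, hp, hco⟩ := Sp.chart (β.maps hx'.1)
    obtain ⟨i, hi⟩ := hco j hD0
    obtain ⟨φ', ho⟩ := Bl.exists_off hx'.1 hc hp
    refine van_mem_XE7 (tr_rees β G) ho.pt' (ho.co.2 hi) hD ?_ hf hv
    rw [ho.loc_tr hG.rees]
    exact h.co hp hx hj hD0 hi

theorem Std.tr {r₀ : ℕ} (h : Std S G r₀ μ) (hC : β.C ⊆ Sg S G) : Std β.S' (HIR.tr β G) r₀ μ := by
  refine ⟨h.good.tr hC, ?_, h.old.tr h.good h.le hC⟩
  have := h.le
  rw [β.r]
  omega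

end Pool.Agent.HIR
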