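import Pool.Agent.P.MP_65ad7c_ag.XE5
import Pool.Agent.P.MP_65ad7c_ag.XE7
import Pool.Agent.P.MP_65ad7c_ag.XC3
import Pool.Agent.P.MP_65ad7c_ag.XC6

open Set Filter Topology Asymptotics
open scoped ComplexConjugate
open Pool.Agent.HT (Amb proj cj IsChart IsSNC)

noncomputable section
namespace Pool.Agent.HIR

variable {n μ r₀ k : ℕ} {S : Sp n} {G : Alg S.M} {φ χ : E n → Amb S.M} {z y : E n} {x : Amb S.M}
  {C : Set (Amb S.M)} {K T₀ : Finset (Fin n)} {c : ℕ → Fin n}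

/-- straightening of a centre in a given chart -/
theorem gstraight (hC : C ⊆ S.X) (hx : x ∈ C) (hp : Pt S.X φ z x) (hp' : Pt S.X χ y x)
    (hs : Sub C χ y T₀) (hK : ∀ i ∈ K, ∀ᶠ w in 𝓝 z, φ w ∈ C → w i = 0) {J : Finset ℕ}
    (hJ : ∀ j ∈ J, x ∈ S.D j ∧ Co (S.D j) φ z (c j))
    (hJ' : ∀ j ∈ J, Cin C (S.D j) x ∨ ∃ i, Co (S.D j) χ y i) :
    ∃ (τ σ : E n → E n) (T : Finset (Fin n)), Bi τ σ z (τ z) ∧ Ty3 τ z K (K ∪ J.image c) ∧ K ⊆ T ∧
      T.card = T₀.card ∧ Sub C (φ ∘ σ) (τ z) T ∧ ∀ j ∈ J, Co (S.D j) (φ ∘ σ) (τ z) (c j) := by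
  classical
  obtain ⟨τ0, σ0, hb0, e0, -⟩ := hp.trans hp'
  set J1 := J.filter fun j => Cin C (S.D j) x with hJ1
  set J2 := J.filter fun j => ¬ Cin C (S.D j) x with hJ2
  have hch : ∀ i : Fin n, ∃ d : ℕ × Fin n, i ∈ J2.image c →
      d.1 ∈ J2 ∧ c d.1 = i ∧ Co (S.D d.1) χ y d.2 := by
    intro i
    by_cases hi : i ∈ J2.image c
    · obtain ⟨j, hj, rfl⟩ := Finset.mem_image.1 hi
      have hj' := Finset.mem_filter.1 hj
      obtain ⟨d, hd⟩ := (hJ' j hj'.1).resolve_left hj'.2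
      exact ⟨(j, d), fun _ => ⟨hj, rfl, hd⟩⟩
    · exact ⟨(0, i), fun h => absurd h hi⟩
  choose d hd using hch
  have hCw : ∀ᶠ w in 𝓝 z, φ w ∈ C ↔ ∀ i ∈ T₀, τ0 w i = 0 := by
    filter_upwards [hb0.tendsto.eventually hs, e0] with w h1 h2
    rw [← h2]
    exact h1
  have hy : ∀ i ∈ T₀, y i = 0 := hs.zero.1 (by rw [hp'.eq]; exact hx)
  have h1 : ∀ᶠ w in 𝓝 z, (∀ i ∈ T₀, τ0 w i = 0) → ∀ i ∈ K ∪ J1.image c, w i = 0 := by
    have ha : ∀ᶠ w in 𝓝 z, ∀ i ∈ K ∪ J1.image c, φ w ∈ C → w i = 0 := by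
      rw [Filter.eventually_all_finset]
      intro i hi
      rcases Finset.mem_union.1 hi with hi | hi
      · exact hK i hi
      · obtain ⟨j, hj, rfl⟩ := Finset.mem_image.1 hi
        have hj' := Finset.mem_filter.1 hj
        filter_upwards [(hp.ev_sub hC).1 hj'.2, (hJ j hj'.1).2] with w h1 h2 h3
        exact h2.1 (h1 h3)
    filter_upwards [ha, hCw] with w h1 h2 h3 i hi
    exact h1 i hi (h2.2 h3)
  have hinj : InjOn (fun i => (d i).2) (J2.image c : Finset (Fin n)) := by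
    intro i hi i' hi' e
    obtain ⟨a1, a2, a3⟩ := hd i hi
    obtain ⟨b1, b2, b3⟩ := hd i' hi'
    have e' : (d i).2 = (d i').2 := e
    rw [← e'] at b3
    have := Co.inj hp' a3 b3 (hJ _ (Finset.mem_filter.1 a1).1).1
    rw [← a2, ← b2, this]
  have hc0 : ∀ i ∈ J2.image c, (fun i => (d i).2) i ∉ T₀ := by
    intro i hi hT
    obtain ⟨a1, a2, a3⟩ := hd i hi
    exact (Finset.mem_filter.1 a1).2 ((cin_iff hp' hC hs hx a3).2 hT)
  have hz : ∀ i ∈ J2.image c, z i = 0 := by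
    intro i hi
    obtain ⟨j, hj, rfl⟩ := Finset.mem_image.1 hi
    have hj' := hJ j (Finset.mem_filter.1 hj).1
    exact hj'.2.zero.1 (by rw [hp.eq]; exact hj'.1)
  have h2 : ∀ i ∈ J2.image c, ∀ᶠ w in 𝓝 z, w i = 0 ↔ τ0 w ((fun i => (d i).2) i) = 0 := by
    intro i hi
    obtain ⟨a1, a2, a3⟩ := hd i hi
    have hj' := (hJ _ (Finset.mem_filter.1 a1).1).2
    rw [a2] at hj'
    filter_upwards [hb0.tendsto.eventually a3, e0, hj'] with w b1 b2 b3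
    rw [← b3, ← b2]
    exact b1
  obtain ⟨τ, σ, T, hb, hty, hT, -, hcard, hsub⟩ :=
    straighten hb0 (K := K) hy Finset.subset_union_left h1 (fun i => (d i).2) hinj hc0 hz h2
  have hU : K ∪ J1.image c ∪ J2.image c = K ∪ J.image c := by
    rw [Finset.union_assoc, ← Finset.image_union, hJ1, hJ2, Finset.filter_union_filter_not_eq]
  rw [hU] at hty
  refine ⟨τ, σ, T, hb, hty, Finset.subset_union_left.trans hT, hcard, ?_, fun j hj => ?_⟩
  · filter_upwards [hb.symm.tendsto.eventually (hCw.and hsub), hb.right] with w h1 h2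
    rw [h2] at h1
    exact h1.1.trans h1.2
  · exact (hJ j hj).2.comp hb
      (hty.fix _ (Finset.mem_union_right _ (Finset.mem_image_of_mem c hj)))

/-- a centre adapted to the active divisors is adapted to all divisors -/
theorem ctr_of (hn : 0 < n) (hG : Std S G r₀ μ) (hC : C ⊆ Sg S G) (hc : IsClosed C)
    (hj : MapsTo (cj S.M) C C) (s : ℕ)
    (h : ∀ x ∈ C, ∃ (φ : E n → Amb S.M) (z : E n) (T : Finset (Fin n)), Pt S.X φ z x ∧
      T.card = s ∧ Sub C φ z T ∧ ∀ j ∈ S.J r₀ x, ∃ i, Co (S.D j) φ z i) : Ctr S C := by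
  have hCX : C ⊆ S.X := fun x hx => (hC hx).1
  refine ⟨hc, hCX, hj, s, fun x hx => ?_⟩
  obtain ⟨χ, y, T₀, hp', hcard, hs, hd⟩ := h x hx
  obtain ⟨φ, z, hp, hco⟩ := Sp.chart (S := S) (hCX hx)
  have hch : ∀ j, ∃ i : Fin n, x ∈ S.D j → Co (S.D j) φ z i := by
    intro j
    by_cases hxj : x ∈ S.D j
    · obtain ⟨i, hi⟩ := hco j hxj
      exact ⟨i, fun _ => hi⟩
    · exact ⟨⟨0, hn⟩, fun h => absurd h hxj⟩
  choose c hc' using hch
  obtain ⟨τ, σ, T, hb, -, -, hT, hsub, hJ⟩ := gstraight (K := ∅) (c := c) hCX hx hp hp' hs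
    (fun i hi => absurd hi (Finset.notMem_empty i)) (J := S.J 0 x)
    (fun j hj => ⟨(mem_J.1 hj).2, hc' j (mem_J.1 hj).2⟩) (fun j hj => by
      have hxj := (mem_J.1 hj).2
      by_cases hr : r₀ ≤ j
      · exact Or.inr (hd j (mem_J.2 ⟨hr, hxj⟩))
      · left
        have h1 := hG.old.co hp (hC hx) (not_le.1 hr) hxj (hc' j hxj)
        refine (hp.ev_sub hCX).2 ?_
        filter_upwards [hG.good.van hp h1, hc' j hxj] with w a1 a2 a3
        exact a2.2 (a1 (hC a3)))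
  exact ⟨φ ∘ σ, τ z, T, hp.comp hb, hT.trans hcard, hsub,
    fun j hj => ⟨c j, hJ j (mem_J.2 ⟨Nat.zero_le _, hj⟩)⟩⟩

variable {β : Bl S} {x' : Amb β.S'.M}

theorem PC.of_up {T : Finset (Fin n)} {p : Fin n} {φ' : E n → Amb β.S'.M} {w : E n}
    (h : PC S G r₀ k (β.π x') φ (bet T p w) K c) (hu : Up β x' φ T p φ' w) (hK : K ⊆ T)
    (hG : GR S G) (hr : r₀ ≤ S.r) (hx' : x' ∈ Sg β.S' (tr β G)) :
    p ∉ K ∧ PC β.S' (tr β G) r₀ k x' φ' w K (Function.update c S.r p) := by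
  have e : loc (tr β G) φ' w = ltr (loc G φ (bet T p w)) T p w := (hu.loc_tr G).self_of_nhds
  have hs : LSg w (ltr (loc G φ (bet T p w)) T p w) := by
    rw [← e]
    exact (sg_iff (tr_rees β G) hu.pt').1 hx'
  obtain ⟨hpK, hpk⟩ := lpk h.pk hK (lr_loc hG h.pt) hs
  have hJ := hu.J hr h.co
  refine ⟨hpK, hu.pt', hx', by rw [e]; exact hpk, h.card, fun j hj => ?_, fun j hj => ?_⟩
  · rw [hJ] at hj
    rcases Finset.mem_insert.1 hj with rfl | hj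
    · rw [Function.update_self]
      exact hu.exc
    · obtain ⟨h1, h2, -⟩ := Finset.mem_filter.1 hj
      have hne : j ≠ S.r := (Sp.lt (mem_J.1 h1).2).ne
      rw [Function.update_of_ne hne]
      exact hu.str hne (h.co j h1) (h.zero' j h1) h2
  · rw [hJ] at hj
    rcases Finset.mem_insert.1 hj with rfl | hj
    · rw [Function.update_self]
      exact hpK
    · obtain ⟨h1, h2, -⟩ := Finset.mem_filter.1 hj
      have hne : j ≠ S.r := (Sp.lt (mem_J.1 h1).2).ne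
      rw [Function.update_of_ne hne]
      exact h.out j h1

theorem PC.up (h : PC S G r₀ k (β.π x') φ z K c) (hG : Good S G μ) (hC : β.C ⊆ Sg S G)
    (hx' : x' ∈ β.S'.X) (hx : β.π x' ∈ β.C) :
    ∃ (τ σ : E n → E n) (T : Finset (Fin n)) (p : Fin n) (φ' : E n → Amb β.S'.M) (w : E n),
      Bi τ σ z (bet T p w) ∧ Ty3 τ z K (K ∪ (S.J r₀ (β.π x')).image c) ∧ K ⊆ T ∧
      Up β x' (φ ∘ σ) T p φ' w ∧ PC S G r₀ k (β.π x') (φ ∘ σ) (bet T p w) K c := by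
  obtain ⟨s, hch⟩ := β.ctr.chart
  obtain ⟨χ, y, T₀, hp', -, hs, hd⟩ := hch _ hx
  obtain ⟨τ, σ, T, hb, hty, hKT, -, hsub, hJ⟩ := gstraight (K := K) (c := c) β.ctr.sub hx h.pt hp' hs
    (fun i hi => by
      filter_upwards [hG.van h.pt (h.pk.co i hi)] with w a1 a2
      exact a1 (hC a2)) (J := S.J r₀ (β.π x'))
    (fun j hj => ⟨(mem_J.1 hj).2, h.co j hj⟩) (fun j hj => Or.inr (hd j (mem_J.1 hj).2))
  have hp := h.pt.comp hb
  obtain ⟨φ', w, p, e, hu⟩ := Bl.exists_up hx' hx hp hsub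
  refine ⟨τ, σ, T, p, φ', w, by rw [e]; exact hb, hty, hKT, hu, ?_⟩
  rw [e]
  refine ⟨hp, h.sg, ?_, h.card, hJ, h.out⟩
  rw [loc_comp hG.rees h.pt hb]
  exact hty.pk hb (lr_loc hG.rees h.pt) h.zero h.pk

theorem PC.off {φ' : E n → Amb β.S'.M} (h : PC S G r₀ k (β.π x') φ z K c) (hG : GR S G)
    (ho : Off β x' φ φ' z) : PC β.S' (tr β G) r₀ k x' φ' z K c := by
  have hJ : β.S'.J r₀ x' = S.J r₀ (β.π x') := Bl.J_off ho.pt'.mem ho.out
  refine ⟨ho.pt', (sg_off hG ho.pt'.mem ho.out).2 h.sg, by rw [ho.loc_tr hG]; exact h.pk, h.card,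
    fun j hj => ?_, fun j hj => ?_⟩
  · rw [hJ] at hj
    exact ho.co.2 (h.co j hj)
  · rw [hJ] at hj
    exact h.out j hj

theorem PKg.tr (h : PKg S G r₀ k) (hG : Good S G μ) (hr : r₀ ≤ S.r) (hC : β.C ⊆ Sg S G) :
    PKg β.S' (HIR.tr β G) r₀ k := by
  intro x' hx'
  obtain ⟨φ, z, K, c, hpc⟩ := h _ (sg_tr hG.rees hC hx')
  by_cases hx : β.π x' ∈ β.C
  · obtain ⟨τ, σ, T, p, φ', w, -, -, hK, hu, hpc'⟩ := hpc.up hG hC hx'.1 hx
    exact ⟨φ', w, K, _, (hpc'.of_up hu hK hG.rees hr hx').2⟩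
  · obtain ⟨φ', ho⟩ := Bl.exists_off hx'.1 hx hpc.pt
    exact ⟨φ', z, K, c, hpc.off hG.rees ho⟩

end Pool.Agent.HIR
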