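import Pool.Agent.P.MP_65ad7c_ag.XF2
import Pool.Agent.P.MP_65ad7c_ag.XE8

open Set Filter Topology Asymptotics
open scoped ComplexConjugate
open Pool.Agent.HT (Amb proj cj IsChart IsSNC)

noncomputable section
namespace Pool.Agent.HIR

variable {n μ r₀ r₁ k : ℕ}

/-- follow a second algebra along a resolution -/
theorem Res.follow {P : ∀ S : Sp n, Alg S.M → Alg S.M → Prop}
    (hs : ∀ S J H (β : Bl S), P S J H → β.C ⊆ Sg S J → β.C ⊆ Sg S H ∧ P β.S' (tr β J) (tr β H))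
    (he : ∀ S J H, P S J H → Sg S J = ∅ → Res S H) {S : Sp n} {J : Alg S.M} (h : Res S J) :
    ∀ H, P S J H → Res S H := by
  induction h with
  | done h0 => exact fun H hP => he _ _ H hP h0
  | step β hC _ ih =>
    intro H hP
    obtain ⟨h1, h2⟩ := hs _ _ H β hP hC
    exact Res.step β h1 (ih _ h2)

theorem bnd_aux (hR : RK n k) (h01 : r₀ ≤ r₁) (𝒜 : Finset (Finset ℕ)) :
    ∀ (S : Sp n) (H : Alg S.M), Std S H r₀ μ → r₁ ≤ S.r → PKg S H r₁ k →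
      (∀ B ⊆ Finset.Ico r₀ r₁, (∃ x ∈ Sg S H, ∀ j ∈ B, x ∈ S.D j) → B ∈ 𝒜) → Res S H := by
  classical
  induction hc : 𝒜.card using Nat.strong_induction_on generalizing 𝒜 with
  | _ m ih =>
  intro S H hS hr hp hA
  by_cases h0 : Sg S H = ∅
  · exact Res.done h0
  obtain ⟨x₀, hx₀⟩ := Set.nonempty_iff_ne_empty.2 h0
  have hne : (𝒜.filter fun B => B ⊆ Finset.Ico r₀ r₁).Nonempty :=
    ⟨∅, Finset.mem_filter.2 ⟨hA ∅ (Finset.empty_subset _) ⟨x₀, hx₀, by simp⟩,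
      Finset.empty_subset _⟩⟩
  obtain ⟨A, hA1, hmax⟩ := Finset.exists_max_image _ Finset.card hne
  obtain ⟨hA𝒜, hAI⟩ := Finset.mem_filter.1 hA1
  have hstd : Std S (addD S H A) r₁ μ := by
    refine ⟨good_addD hS.good, hr, fun x hx j hj hxj f hf hv => ?_⟩
    obtain ⟨hx1, hx2⟩ := (sg_addD hS.good.rees).1 hx
    by_cases hj0 : j < r₀
    · exact le_addD x hx1.1 1 f (hS.old x hx1 j hj0 hxj f hf hv)
    · have h1 : insert j A ⊆ Finset.Ico r₀ r₁ :=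
        Finset.insert_subset (Finset.mem_Ico.2 ⟨not_lt.1 hj0, hj⟩) hAI
      have h2 : insert j A ∈ 𝒜 := hA _ h1 ⟨x, hx1, fun i hi => by
        rcases Finset.mem_insert.1 hi with rfl | hi
        · exact hxj
        · exact hx2 i hi⟩
      have h3 := hmax _ (Finset.mem_filter.2 ⟨h2, h1⟩)
      have h4 : j ∈ A := by
        by_contra h5
        rw [Finset.card_insert_of_notMem h5] at h3
        omega
      exact van_addD h4 hf hv
  refine Res.follow (P := fun S' J' H' => J' = addD S' H' A ∧ Std S' H' r₀ μ ∧ r₁ ≤ S'.r ∧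
    PKg S' H' r₁ k ∧ ∀ B ⊆ Finset.Ico r₀ r₁, (∃ x ∈ Sg S' H', ∀ j ∈ B, x ∈ S'.D j) → B ∈ 𝒜)
    ?_ ?_ (hR S _ r₁ μ hstd (pkg_addD hS.good.rees hp)) H ⟨rfl, hS, hr, hp, hA⟩
  · rintro S' _ H' β ⟨rfl, hS', hr', hp', hA'⟩ hC
    have hC' : β.C ⊆ Sg S' H' := fun x hx => ((sg_addD hS'.good.rees).1 (hC hx)).1
    refine ⟨hC', tr_addD hS'.good
      (fun j hj => (Finset.mem_Ico.1 (hAI hj)).2.trans_le hr') hC, hS'.tr hC', ?_,
      hp'.tr hS'.good hr' hC', ?_⟩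
    · rw [β.r]
      omega
    · rintro B hB ⟨x, hx, hxB⟩
      exact hA' B hB ⟨β.π x, sg_tr hS'.good.rees hC' hx, fun j hj =>
        β.str_sub ((Finset.mem_Ico.1 (hB hj)).2.trans_le hr').ne (hxB j hj)⟩
  · rintro S' _ H' ⟨rfl, hS', hr', hp', hA'⟩ he
    refine ih _ (hc ▸ Finset.card_erase_lt_of_mem hA𝒜) (𝒜.erase A) rfl S' H' hS' hr' hp' ?_
    rintro B hB ⟨x, hx, hxB⟩
    refine Finset.mem_erase.2 ⟨?_, hA' B hB ⟨x, hx, hxB⟩⟩
    rintro rfl
    have : x ∈ Sg S' (addD S' H' B) := (sg_addD hS'.good.rees).2 ⟨hx, hxB⟩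
    rw [he] at this
    exact this

/-- separation from the boundary -/
theorem bnd (hR : RK n k) {S : Sp n} {H : Alg S.M} (h : Std S H r₀ μ) (hp : PKg S H S.r k) :
    Res S H :=
  bnd_aux hR h.le (Finset.Ico r₀ S.r).powerset S H h le_rfl hp fun _ hB _ =>
    Finset.mem_powerset.2 hB

end Pool.Agent.HIR
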