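import Pool.Agent.P.MP_65ad7c_ag.XB2

open Set Filter Topology Asymptotics
open scoped ComplexConjugate

noncomputable section
namespace Pool.Agent.HIR

variable {n m μ : ℕ} {z : E n} {L : Set (ℕ × (E n → ℂ))} {A B : E n → Gr (E n)} {f : E n → ℂ}
  {K T : Finset (Fin n)}

theorem Gen.self (h : Gen A μ z L) : A z = LIn z L := by
  exact h.eq.self_of_nhds

theorem Gen.ev (h : Gen A μ z L) : ∀ᶠ w in 𝓝 z, Gen A μ w L := by
  have h1 : ∀ᶠ w in 𝓝 z, ∀ q ∈ L, An w q.2 :=
    (eventually_all_finite h.fin).2 fun q hq => (h.an q hq).eventually_analyticAt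
  filter_upwards [h1, h.eq.eventually_nhds] with w h2 h3
  exact ⟨h.fin, h.wt, h2, h3⟩

theorem Gen.rees (h : Gen A μ z L) : LR z (A z) := by
  rw [h.self]
  exact lr_In h.an

theorem Gen.mono {μ' : ℕ} (h : Gen A μ z L) (hμ : μ ≤ μ') : Gen A μ' z L := by
  exact ⟨h.fin, fun q hq => ⟨(h.wt q hq).1, (h.wt q hq).2.trans hμ⟩, h.an, h.eq⟩

theorem Gen.congr (h : Gen A μ z L) (e : ∀ᶠ w in 𝓝 z, B w = A w) : Gen B μ z L := by
  refine ⟨h.fin, h.wt, h.an, ?_⟩
  filter_upwards [e, h.eq] with w h1 h2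
  exact h1.trans h2

theorem in_ev_XB4 (hf : LIn z L m f) : ∀ᶠ w in 𝓝 z, LIn w L m f := by
  induction hf with
  | gen h => exact Eventually.of_forall fun _ => In.gen h
  | hol h => exact h.eventually_analyticAt.mono fun w hw => In.hol (H := An w) hw
  | anti _ ih => exact ih.mono fun _ => In.anti
  | mul _ _ ih ih' => exact (ih.and ih').mono fun _ h => h.1.mul h.2
  | add _ _ ih ih' => exact (ih.and ih').mono fun _ h => h.1.add h.2
  | zero => exact Eventually.of_forall fun _ => In.zero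
  | congr _ e ih => exact (ih.and e.eventuallyEq_nhds).mono fun _ h => h.1.congr h.2

theorem Gen.mem_ev (h : Gen A μ z L) (hf : A z m f) : ∀ᶠ w in 𝓝 z, A w m f := by
  rw [h.self] at hf
  filter_upwards [in_ev_XB4 hf, h.eq] with w h1 h2
  rwa [h2]

theorem Gen.pk_ev (h : Gen A μ z L) (hK : PK (A z) K) : ∀ᶠ w in 𝓝 z, PK (A w) K := by
  have h1 : ∀ᶠ w in 𝓝 z, ∀ i ∈ K, A w 1 (co i) :=
    (eventually_all_finset K).2 fun i hi => h.mem_ev (hK.co i hi)
  have h2 : ∀ᶠ w in 𝓝 z, ∀ i ∈ K, ∀ q ∈ L, A w (q.1 - 1) (pd i q.2) :=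
    (eventually_all_finset K).2 fun i hi => (eventually_all_finite h.fin).2 fun q hq =>
      h.mem_ev (hK.der i hi _ _ (by
        rw [Nat.sub_add_cancel (h.wt q hq).1, h.self]
        exact In.gen hq))
  filter_upwards [h1, h2, h.ev] with w h3 h4 h5
  refine ⟨h3, fun i hi => ?_⟩
  rw [h5.self] at h4 ⊢
  exact In.dif h5.an fun m f hf => h4 i hi _ hf

theorem Gen.not_lsg_ev (h : Gen A μ z L) (hs : ¬ LSg z (A z)) : ∀ᶠ w in 𝓝 z, ¬ LSg w (A w) := by
  obtain ⟨m, hm⟩ := not_forall.1 hs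
  obtain ⟨f, hf⟩ := not_forall.1 hm
  obtain ⟨h1, h2⟩ := Classical.not_imp.1 hf
  filter_upwards [h.mem_ev h1, not_ord_ev (h.rees.an _ _ h1) h2] with w h3 h4 h5
  exact h4 (h5 _ _ h3)

theorem Gen.vanC (h : Gen A μ z L) (hs : ∀ᶠ w in 𝓝 z, (∀ i ∈ T, w i = 0) → LSg w (A w)) :
    VanC z T (A z) := by
  intro m f hf
  filter_upwards [h.mem_ev hf, hs] with w h1 h2 h3
  exact h2 h3 _ _ h1

section spn
variable {F : Finset (E n → ℂ)} {g c : E n → ℂ}

theorem spn_congr_XB4 (h : Spn z F f) (e : f =ᶠ[𝓝 z] g) : Spn z F g :=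
  h.imp fun _ hq => ⟨hq.1, e.symm.trans hq.2⟩

theorem spn_zero_XB4 : Spn z F 0 :=
  ⟨0, fun _ _ => analyticAt_const, by simp⟩

theorem spn_add_XB4 (h : Spn z F f) (h' : Spn z F g) : Spn z F (f + g) := by
  obtain ⟨q, h1, h2⟩ := h
  obtain ⟨q', h1', h2'⟩ := h'
  refine ⟨q + q', fun u hu => (h1 u hu).add (h1' u hu), (h2.add h2').trans (EventuallyEq.of_eq ?_)⟩
  simp only [Pi.add_apply q q', add_mul, Finset.sum_add_distrib]

theorem spn_mul_XB4 (hc : An z c) (h : Spn z F f) : Spn z F (c * f) := by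
  obtain ⟨q, h1, h2⟩ := h
  refine ⟨fun u => c * q u, fun u hu => hc.mul (h1 u hu),
    ((EventuallyEq.refl _ c).mul h2).trans (EventuallyEq.of_eq ?_)⟩
  simp only [mul_assoc, ← Finset.mul_sum]

theorem spn_mem_XB4 (h : f ∈ F) : Spn z F f := by
  classical
  refine ⟨fun u => if u = f then 1 else 0, fun u _ => ?_, EventuallyEq.of_eq ?_⟩
  · show AnalyticAt ℂ (if u = f then 1 else 0) z
    split_ifs <;> exact analyticAt_const
  · simp [h]

end spn

/-- the product of a list of generators -/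
def pr_XB4 (s : List L) : E n → ℂ := (s.map fun q => q.1.2).prod

/-- the weight of a list of generators -/
def wt_XB4 (s : List L) : ℕ := (s.map fun q => q.1.1).sum

theorem pr_in_XB4 (s : List L) : LIn z L (wt_XB4 s) (pr_XB4 s) := by
  induction s with
  | nil => exact In.hol analyticAt_const
  | cons q s ih => exact (In.gen q.2).mul ih

theorem len_le_XB4 (hw : ∀ q ∈ L, 1 ≤ q.1) (s : List L) : s.length ≤ wt_XB4 s := by
  induction s with
  | nil => exact le_rfl
  | cons q s ih =>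
    have := hw _ q.2
    show s.length + 1 ≤ q.1.1 + wt_XB4 s
    omega

theorem spn_step_XB4 {F : Finset (E n → ℂ)} {b : ℕ} (hf : LIn z L m f) :
    ∀ (k : ℕ) (g : E n → ℂ), (∀ s : List L, b ≤ wt_XB4 s + k → Spn z F (pr_XB4 s * g)) →
      ∀ s : List L, b ≤ wt_XB4 s + (k + m) → Spn z F (pr_XB4 s * (f * g)) := by
  induction hf with
  | @gen m f h =>
    intro k g hg s hs
    have h1 := hg (⟨(m, f), h⟩ :: s) (by
      show b ≤ m + wt_XB4 s + k
      omega)
    have e : pr_XB4 (⟨(m, f), h⟩ :: s) * g = pr_XB4 s * (f * g) := by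
      show f * pr_XB4 s * g = _
      ring
    rwa [e] at h1
  | hol h =>
    intro k g hg s hs
    rw [mul_left_comm]
    exact spn_mul_XB4 h (hg s hs)
  | anti _ ih => exact fun k g hg s hs => ih k g hg s (by omega)
  | mul _ _ ih ih' =>
    intro k g hg s hs
    rw [mul_assoc]
    exact ih _ _ (ih' k g hg) s (by omega)
  | add _ _ ih ih' =>
    intro k g hg s hs
    rw [add_mul, mul_add]
    exact spn_add_XB4 (ih k g hg s hs) (ih' k g hg s hs)
  | zero =>
    intro k g _ s _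
    rw [zero_mul, mul_zero]
    exact spn_zero_XB4
  | congr _ e ih =>
    exact fun k g hg s hs => spn_congr_XB4 (ih k g hg s hs)
      ((EventuallyEq.refl _ _).mul (e.mul (EventuallyEq.refl _ _)))

/-- each graded piece is a finitely generated ideal, uniformly near `z` -/
theorem Gen.fgb (h : Gen A μ z L) (b : ℕ) : ∃ F : Finset (E n → ℂ), (∀ f ∈ F, An z f) ∧
    ∀ᶠ w in 𝓝 z, (∀ f ∈ F, A w b f) ∧ ∀ c, A w b c → Spn w F c := by
  have : Finite L := h.fin
  have hS : (pr_XB4 '' {s : List L | s.length ≤ b ∧ b ≤ wt_XB4 s}).Finite :=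
    ((List.finite_length_le L b).subset fun _ hs => hs.1).image _
  refine ⟨hS.toFinset, fun f hf => ?_, h.ev.mono fun w hw => ⟨fun f hf => ?_, fun c hc => ?_⟩⟩
  · obtain ⟨s, -, rfl⟩ := hS.mem_toFinset.1 hf
    exact (lr_In h.an).an _ _ (pr_in_XB4 s)
  · obtain ⟨s, hs, rfl⟩ := hS.mem_toFinset.1 hf
    rw [hw.self]
    exact (lr_In hw.an).anti' (pr_in_XB4 s) hs.2
  · rw [hw.self] at hc
    have h1 := spn_step_XB4 (F := hS.toFinset) (b := b) hc 0 1 (fun s hs => ?_) [] (by omega)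
    · simpa [pr_XB4] using h1
    rw [mul_one]
    by_cases hl : s.length ≤ b
    · exact spn_mem_XB4 (hS.mem_toFinset.2 ⟨s, ⟨hl, hs⟩, rfl⟩)
    have e : pr_XB4 s = pr_XB4 (s.drop b) * pr_XB4 (s.take b) := by
      rw [pr_XB4, pr_XB4, pr_XB4, mul_comm, ← List.prod_append, ← List.map_append,
        List.take_append_drop]
    have h2 : (s.take b).length = b := List.length_take_of_le (by omega)
    rw [e]
    exact spn_mul_XB4 ((lr_In hw.an).an _ _ (pr_in_XB4 _)) (spn_mem_XB4 (hS.mem_toFinset.2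
      ⟨s.take b, ⟨h2.le, h2.ge.trans (len_le_XB4 (fun q hq => (h.wt q hq).1) _)⟩, rfl⟩))

end Pool.Agent.HIR
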