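import Pool.Agent.P.MP_65ad7c_ag.XB3
import Pool.Agent.P.MP_65ad7c_ag.XB4

open Set Filter Topology Asymptotics
open scoped ComplexConjugate

noncomputable section
namespace Pool.Agent.HIR

variable {n m μ b ν : ℕ} {z : E n} {L : Set (ℕ × (E n → ℂ))} {A : E n → Gr (E n)}
  {K : Finset (Fin n)} {α : Fin n → ℕ}

theorem bigO_ev_XB5 {f g : E n → ℂ} (h : f =O[𝓝 z] g) : ∀ᶠ w in 𝓝 z, f =O[𝓝 w] g := by
  obtain ⟨c, hc⟩ := h.bound
  exact hc.eventually_nhds.mono fun w hw => IsBigO.of_bound c hw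

theorem spn_rho_XB5 {F : Finset (E n → ℂ)} {c g : E n → ℂ} (hz : ∀ i ∈ K, z i = 0)
    (h : Spn z F c) (hF : ∀ f ∈ F, (f ∘ rho K) =O[𝓝 z] g) : (c ∘ rho K) =O[𝓝 z] g := by
  obtain ⟨q, hq, e⟩ := h
  have e' : (∑ f ∈ F, fun w => (q f ∘ rho K) w * (f ∘ rho K) w) =ᶠ[𝓝 z] c ∘ rho K := by
    filter_upwards [(tendsto_rho hz).eventually e] with w hw
    simp only [Function.comp_apply, hw, Finset.sum_apply, Pi.mul_apply]
  refine IsBigO.congr' (IsBigO.sum fun f hf => ?_) e' EventuallyEq.rfl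
  have h1 : (q f ∘ rho K) =O[𝓝 z] fun _ => (1 : ℂ) :=
    (An.rho (hq f hf) hz).continuousAt.tendsto.isBigO_one ℂ
  simpa using h1.mul (hF f hf)

theorem Gen.div_ev (h : Gen A μ z L) (hd : Div z (A z) K b α) :
    ∀ᶠ w in 𝓝 z, (∀ i ∈ K, w i = 0) → Div w (A w) K b (cut α w) := by
  obtain ⟨F, -, hF⟩ := h.fgb b
  have h1 : ∀ᶠ w in 𝓝 z, ∀ f ∈ F, (f ∘ rho K) =O[𝓝 w] mon α :=
    (eventually_all_finset F).2 fun f hf => bigO_ev_XB5 (hd f (hF.self_of_nhds.1 f hf))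
  filter_upwards [hF, h1] with w h2 h3 hw c hc
  refine (spn_rho_XB5 hw (h2.2 c hc) h3).trans ?_
  have h4 : mon (α - cut α w) =O[𝓝 w] fun _ => (1 : ℂ) :=
    (an_mon _ w).continuousAt.tendsto.isBigO_one ℂ
  have h5 := h4.mul (isBigO_refl (mon (cut α w)) (𝓝 w))
  rw [(mon_cut α w).2]
  simpa [Pi.mul_def] using h5

theorem Gen.res_ev (h : Gen A μ z L) (hα : ∀ i, α i ≠ 0 → i ∉ K) (hr : ResLE z (A z) K b α ν) :
    ∀ᶠ w in 𝓝 z, ResLE w (A w) K b (cut α w) ν := by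
  obtain ⟨g, ⟨g1, g2, g3⟩, g4⟩ := hr
  filter_upwards [g1.eventually_analyticAt, g2.eventually_nhds, h.mem_ev g3, not_ord_ev g1 g4]
    with w a1 a2 a3 a4
  refine ⟨mon (α - cut α w) * g, ⟨(an_mon _ w).mul a1, ?_, ?_⟩, fun ho => a4 ?_⟩
  · filter_upwards [a2] with y hy
    have e : mon (α - cut α w) (rho K y) = mon (α - cut α w) y :=
      mon_rho (fun i hi => hα i fun h0 => hi (by simp [h0])) y
    simp only [Function.comp_apply, Pi.mul_apply] at hy ⊢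
    rw [e, hy]
  · rw [← mul_assoc, mul_comm (mon (cut α w)), ← (mon_cut α w).2]
    exact a3
  · exact ho.of_unit (an_mon _ w).continuousAt (mon_cut α w).1

/-- the monomial case -/
theorem Gen.lmon (h : Gen A μ z L) (hK : PK (A z) K) (hd : Div z (A z) K μ.factorial α)
    (hr : ResLE z (A z) K μ.factorial α 0) :
    ∀ᶠ w in 𝓝 z, LSg w (A w) ↔ (∀ i ∈ K, w i = 0) ∧ μ.factorial ≤ ∑ i with w i = 0, α i := by
  obtain ⟨g, ⟨g1, -, g3⟩, g4⟩ := hr
  have g0 : g z ≠ 0 := fun h0 => g4 (ord_one g1 h0)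
  have hm : A z μ.factorial (mon α) := Rees.unit h.rees g1 g0 (by rwa [mul_comm] at g3)
  filter_upwards [h.mem_ev hm, h.pk_ev hK, h.ev, h.div_ev hd] with w a1 a2 a3 a4
  refine ⟨fun hs => ⟨hs.zero a2, ord_mon.1 (hs _ _ a1)⟩, fun hw => ?_⟩
  have a5 := a4 hw.1
  rw [a3.self] at a2 a5 ⊢
  refine sing a3.an a3.wt a2 hw.1 fun c hc => Ord.of_isBigO (ord_mon.2 ?_) (a5 c hc)
  refine hw.2.trans (le_of_eq (Finset.sum_congr rfl fun i hi => ?_))
  simp only [cut, if_pos (Finset.mem_filter.1 hi).2]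

/-- the coefficient ideal is zero -/
theorem Gen.lz (h : Gen A μ z L) (hK : PK (A z) K) (hz : ∀ i ∈ K, z i = 0)
    (hr : ∀ ν, ¬ ResLE z (A z) K μ.factorial 0 ν) :
    ∀ᶠ w in 𝓝 z, (∀ i ∈ K, w i = 0) → LSg w (A w) ∧ ∀ ν, ¬ ResLE w (A w) K μ.factorial 0 ν := by
  have h0 : ∀ c, A z μ.factorial c → c ∘ rho K =ᶠ[𝓝 z] 0 := by
    intro c hc
    have c1 : An z (c ∘ rho K) := An.rho (h.rees.an _ _ hc) hz
    refine zero_of_ord c1 fun m => Ord.mono (m := m + 1) ?_ (Nat.le_succ m)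
    by_contra ho
    refine hr m ⟨c ∘ rho K, ⟨c1, Eventually.of_forall fun y => ?_, ?_⟩, ho⟩
    · simp only [Function.comp_apply, rho_rho]
    · rw [mon_zero, one_mul]
      exact coef h.rees hK hz hc
  obtain ⟨F, -, hF⟩ := h.fgb μ.factorial
  have h1 : ∀ᶠ w in 𝓝 z, ∀ f ∈ F, f ∘ rho K =ᶠ[𝓝 w] 0 :=
    (eventually_all_finset F).2 fun f hf => (h0 f (hF.self_of_nhds.1 f hf)).eventually_nhds
  filter_upwards [hF, h1, h.pk_ev hK, h.ev] with w h2 h3 a2 a3 hw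
  have h4 : ∀ c, A w μ.factorial c → c ∘ rho K =ᶠ[𝓝 w] 0 := by
    intro c hc
    have h5 : (c ∘ rho K) =O[𝓝 w] fun _ => (0 : ℂ) :=
      spn_rho_XB5 hw (h2.2 c hc) fun f hf => isBigO_zero_right_iff.2 (h3 f hf)
    exact isBigO_zero_right_iff.1 h5
  constructor
  · rw [a3.self] at a2 h4 ⊢
    exact sing a3.an a3.wt a2 hw fun c hc => (ord_zero_fun w _).congr (h4 c hc).symm
  · rintro ν ⟨g, ⟨-, g2, g3⟩, g4⟩
    rw [mon_zero, one_mul] at g3
    exact g4 ((ord_zero_fun w _).congr ((h4 g g3).symm.trans g2))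

theorem div_zero (hA : LR z (A z)) (hz : ∀ i ∈ K, z i = 0) : Div z (A z) K b 0 := by
  intro c hc
  rw [mon_zero]
  exact (An.rho (hA.an _ _ hc) hz).continuousAt.tendsto.isBigO_one ℂ

/-- the invariant in the monomial case -/
theorem Gen.li_self (h : Gen A μ z L) (hK : PK (A z) K) (hz : ∀ i ∈ K, z i = 0) (hα : Sup z K α)
    (hd : Div z (A z) K μ.factorial α) (hr : ResLE z (A z) K μ.factorial α 0) :
    LI z (A z) (A z) K μ.factorial α 0 := by
  refine ⟨hK, hα, ?_, hr, Le.refl _, le_Cmp⟩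
  have h1 : Dom z (LIn z L) (A z) K μ.factorial α 0 := by
    refine dom_In μ.factorial_pos h.rees hz fun q hq => ⟨[1], ?_, ?_⟩
    · intro g hg
      rw [List.mem_singleton.1 hg]
      exact h.rees.hol _ analyticAt_const
    · obtain ⟨t, ht⟩ := Nat.dvd_factorial (h.wt q hq).1 (h.wt q hq).2
      have h2 : A z q.1 q.2 := by rw [h.self]; exact In.gen hq
      have h3 := h.rees.pow (ring_an z) h2 t
      rw [mul_comm, ← ht] at h3
      have h4 := ((hd _ h3).norm_norm).pow q.1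
      refine h4.congr (fun w => ?_) fun w => ?_
      · simp only [Function.comp_apply, Pi.pow_apply, norm_pow]
        rw [← pow_mul, mul_comm, ← ht]
      · simp
  rwa [← h.self] at h1

end Pool.Agent.HIR
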