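import Pool.Agent.P.MP_65ad7c_ag.XE8
import Pool.Agent.P.MP_65ad7c_ag.XB5

open Set Filter Topology Asymptotics
open scoped ComplexConjugate
open Pool.Agent.HT (Amb proj cj IsChart IsSNC)

noncomputable section
namespace Pool.Agent.HIR

variable {n μ r₀ k b : ℕ} {S : Sp n} {G : Alg S.M} {φ : E n → Amb S.M} {z : E n} {x : Amb S.M}
  {K : Finset (Fin n)} {c : ℕ → Fin n}

theorem mem_zi (hG : GR S G) (hb : 0 < b) (h : PC S G r₀ k x φ z K c) :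
    x ∈ Zi S G r₀ k b ↔ ∀ ν, ¬ ResLE z (loc G φ z) K b 0 ν := by
  refine ⟨fun hx => hx.2 φ z K c h, fun H => ⟨h.sg, fun φ' z' K' c' h' ν hr => H ν ?_⟩⟩
  have h1 := (PC.ind (a := 0) (ν := ν) h' h hG hb
    (by rw [ex_zero]; exact div_zero (A := loc G φ') (lr_loc hG h'.pt) h'.zero)
    (by rw [ex_zero]; exact hr)).2.1
  rwa [ex_zero] at h1

theorem sub_zi (hG : Good S G μ) (h : PC S G r₀ k x φ z K c) (hx : x ∈ Zi S G r₀ k μ.factorial) :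
    Sub (Zi S G r₀ k μ.factorial) φ z K := by
  obtain ⟨L, hL⟩ := hG.fg φ z x h.pt
  filter_upwards [hL.lz h.pk h.zero (hx.2 φ z K c h), h.ev hG, hG.sg_ev h.pt] with w h1 h2 h3
  refine ⟨fun hw => (h2 hw.1).zero, fun hw => ?_⟩
  exact (mem_zi hG.rees (Nat.factorial_pos μ) (h2 (h3.2 (h1 hw).1))).2 (h1 hw).2

theorem near_XF4 {ν : ℕ} (hG : Good S G μ) (h : PC S G r₀ k x φ z K c)
    (hr : ResLE z (loc G φ z) K b 0 ν) : ∀ᶠ y in 𝓝 x, y ∈ Sg S G →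
      ∃ φ z K c, PC S G r₀ k y φ z K c ∧ ResLE z (loc G φ z) K b 0 ν := by
  obtain ⟨L, hL⟩ := hG.fg φ z x h.pt
  have h1 : ∀ᶠ y in 𝓝[S.X] x, y ∈ Sg S G →
      ∃ φ z K c, PC S G r₀ k y φ z K c ∧ ResLE z (loc G φ z) K b 0 ν := by
    rw [h.pt.ev_iff]
    filter_upwards [hL.res_ev (α := 0) (fun i hi => absurd rfl hi) hr, h.ev hG] with w h1 h2 hw
    rw [cut_zero] at h1
    exact ⟨φ, w, K, c, h2 hw, h1⟩
  filter_upwards [eventually_nhdsWithin_iff.1 h1] with y hy hs using hy hs.1 hs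

theorem ctr_zi (hn : 0 < n) (hG : Std S G r₀ μ) (hp : PKg S G r₀ k) :
    Ctr S (Zi S G r₀ k μ.factorial) := by
  refine ctr_of hn hG (fun x hx => hx.1) ?_ (fun x hx => ?_) k fun x hx => ?_
  · refine isClosed_iff_frequently.2 fun x hx => ?_
    have hs : x ∈ Sg S G := isClosed_iff_frequently.1 hG.good.closed x (hx.mono fun y hy => hy.1)
    refine ⟨hs, fun φ z K c h ν hr => ?_⟩
    obtain ⟨y, hy, hy'⟩ := (hx.and_eventually (near_XF4 hG.good h hr)).exists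
    obtain ⟨φ', z', K', c', h', hr'⟩ := hy' hy.1
    exact hy.2 φ' z' K' c' h' ν hr'
  · obtain ⟨φ, z, K, c, h⟩ := hp x hx.1
    refine (mem_zi hG.good.rees (Nat.factorial_pos μ) (h.bar hG.good)).2 fun ν hr => ?_
    rw [loc_cj hG.good.rl h.pt] at hr
    have h1 := hr.cA
    rw [star_star, cA_cA] at h1
    exact hx.2 φ z K c h ν h1
  · obtain ⟨φ, z, K, c, h⟩ := hp x hx.1
    exact ⟨φ, z, K, h.pt, h.card, sub_zi hG.good h hx, fun j hj => ⟨c j, h.co j hj⟩⟩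

/-- a uniform bound for the order -/
theorem inv0_of (hG : Good S G μ) (h : ∀ x ∈ Sg S G, ∃ φ z K c ν, PC S G r₀ k x φ z K c ∧
    ResLE z (loc G φ z) K b 0 ν) : ∃ ν, Inv0 S G r₀ k b 0 ν := by
  have mono : ∀ {ν ν' : ℕ} {y : Amb S.M}, ν ≤ ν' →
      (∃ φ z K c, PC S G r₀ k y φ z K c ∧ ResLE z (loc G φ z) K b 0 ν) →
      ∃ φ z K c, PC S G r₀ k y φ z K c ∧ ResLE z (loc G φ z) K b 0 ν' := by
    rintro ν ν' y hν ⟨φ, z, K, c, h1, g, hg, hg'⟩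
    exact ⟨φ, z, K, c, h1, g, hg, fun ho => hg' (ho.mono (by omega))⟩
  have key : ∃ ν, ∀ y ∈ Sg S G, y ∈ Sg S G →
      ∃ φ z K c, PC S G r₀ k y φ z K c ∧ ResLE z (loc G φ z) K b 0 ν := by
    refine hG.compact.induction_on (p := fun s => ∃ ν, ∀ y ∈ s, y ∈ Sg S G →
      ∃ φ z K c, PC S G r₀ k y φ z K c ∧ ResLE z (loc G φ z) K b 0 ν)
      ⟨0, fun y hy => absurd hy (notMem_empty y)⟩ ?_ ?_ ?_
    · rintro s t hst ⟨ν, hν⟩
      exact ⟨ν, fun y hy => hν y (hst hy)⟩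
    · rintro s t ⟨ν, hν⟩ ⟨ν', hν'⟩
      refine ⟨max ν ν', fun y hy hs => ?_⟩
      rcases hy with hy | hy
      · exact mono (le_max_left _ _) (hν y hy hs)
      · exact mono (le_max_right _ _) (hν' y hy hs)
    · intro y hy
      obtain ⟨φ, z, K, c, ν, h1, h2⟩ := h y hy
      exact ⟨_, mem_nhdsWithin_of_mem_nhds (near_XF4 hG h1 h2), ν, fun y hy => hy⟩
  obtain ⟨ν, hν⟩ := key
  refine ⟨ν, fun y hy => ?_⟩
  obtain ⟨φ, z, K, c, h1, h2⟩ := hν y hy hy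
  refine ⟨φ, z, K, c, h1, ?_, ?_⟩
  · rw [ex_zero]
    exact div_zero (A := loc G φ) (lr_loc hG.rees h1.pt) h1.zero
  · rwa [ex_zero]

theorem zinf (hG : Good S G μ) (hp : PKg S G r₀ k) (β : Bl S)
    (hβ : β.C = Zi S G r₀ k μ.factorial) : ∃ ν, Inv0 β.S' (tr β G) r₀ k μ.factorial 0 ν := by
  have hC : β.C ⊆ Sg S G := by
    rw [hβ]
    exact fun x hx => hx.1
  refine inv0_of (hG.tr hC) fun x' hx' => ?_
  obtain ⟨φ, z, K, c, h⟩ := hp _ (sg_tr hG.rees hC hx')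
  by_cases hx : β.π x' ∈ β.C
  · have hs : Sub β.C φ z K := by
      rw [hβ] at hx ⊢
      exact sub_zi hG h hx
    obtain ⟨φ', w, p, rfl, hu⟩ := Bl.exists_up hx'.1 hx h.pt hs
    have h1 := (sg_iff (tr_rees β G) hu.pt').1 hx'
    rw [(hu.loc_tr G).self_of_nhds] at h1
    exact absurd hu.mem (lpk h.pk subset_rfl (lr_loc hG.rees h.pt) h1).1
  · obtain ⟨φ', ho⟩ := Bl.exists_off hx'.1 hx h.pt
    rw [hβ, mem_zi hG.rees (Nat.factorial_pos μ) h] at hx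
    push Not at hx
    obtain ⟨ν, hν⟩ := hx
    refine ⟨φ', z, K, c, ν, h.off hG.rees ho, ?_⟩
    rwa [ho.loc_tr hG.rees]

end Pool.Agent.HIR
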