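import Pool.Agent.P.MP_65ad7c_ag.XF5

open Set Filter Topology Asymptotics
open scoped ComplexConjugate
open Pool.Agent.HT (Amb proj cj IsChart IsSNC)

noncomputable section
namespace Pool.Agent.HIR

variable {n μ r₀ k : ℕ}

theorem mem_pow_XF6 {S : Sp n} {x : Amb S.M} {B : Finset ℕ} (hB : B ⊆ S.J r₀ x) :
    B ⊆ Finset.range S.r := fun _ hj => Finset.mem_range.2 (Sp.lt (mem_J.1 (hB hj)).2)

theorem exists_m2 {S : Sp n} {G : Alg S.M} {a : ℕ → Amb S.M → ℕ} (hG : Good S G μ)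
    (ha : Ex S G a) (ρ : ℕ) : ∃ s 𝒜, M2 S G r₀ a ρ s 𝒜 := by
  have hb : ∀ j, ∃ N, ∀ y ∈ Sg S G ∩ S.D j, a j y ≤ N := by
    intro j
    have hc : IsCompact (Sg S G ∩ S.D j) := hG.compact.inter_right (S.closedD j)
    refine hc.induction_on (p := fun s => ∃ N, ∀ y ∈ s, a j y ≤ N) ⟨0, fun _ h => h.elim⟩ ?_ ?_ ?_
    · rintro s t hst ⟨N, hN⟩
      exact ⟨N, fun y hy => hN y (hst hy)⟩
    · rintro s t ⟨N, hN⟩ ⟨N', hN'⟩
      refine ⟨max N N', fun y hy => ?_⟩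
      rcases hy with hy | hy
      · exact (hN y hy).trans (le_max_left _ _)
      · exact (hN' y hy).trans (le_max_right _ _)
    · intro x hx
      exact ⟨{y | a j y = a j x}, ha.lc j x hx, a j x, fun y hy => le_of_eq hy⟩
  choose N hN using hb
  refine ⟨∑ j ∈ Finset.range S.r, N j, (Finset.range S.r).powerset, fun x hx B hB _ => ⟨?_, fun _ => ?_⟩⟩
  · calc ∑ j ∈ B, a j x ≤ ∑ j ∈ B, N j :=
          Finset.sum_le_sum fun j hj => hN j x ⟨hx, (mem_J.1 (hB hj)).2⟩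
      _ ≤ ∑ j ∈ Finset.range S.r, N j := Finset.sum_le_sum_of_subset (mem_pow_XF6 hB)
  · exact Finset.mem_powerset.2 (mem_pow_XF6 hB)

/-- the statement for sets of at least `ρ` divisors -/
def St_XF6 (n μ r₀ k ρ : ℕ) : Prop := ∀ (S : Sp n) (G : Alg S.M) (a : ℕ → Amb S.M → ℕ),
  Std S G r₀ μ → Ex S G a → Inv S G G r₀ k μ.factorial a 0 → M1 S G r₀ μ.factorial a ρ → Res S G

/-- the statement with a bound for the weights -/
def St2_XF6 (n μ r₀ k ρ s : ℕ) (𝒜 : Finset (Finset ℕ)) : Prop :=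
  ∀ (S : Sp n) (G : Alg S.M) (a : ℕ → Amb S.M → ℕ), Std S G r₀ μ → Ex S G a →
    Inv S G G r₀ k μ.factorial a 0 → M1 S G r₀ μ.factorial a ρ → M2 S G r₀ a ρ s 𝒜 → Res S G

theorem top_XF6 : St_XF6 n μ r₀ k (n + 1) := by
  intro S G a hG _ hI h1
  refine Res.done (eq_empty_of_forall_notMem fun x hx => ?_)
  have h0 := (hI.inv0 μ.factorial_pos hG.good.rees).le_sum hG.good hx
  have h2 := h1 x hx (S.J r₀ x) (Finset.Subset.refl _) (Nat.lt_succ_of_le (card_J_le hx.1))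
  omega

theorem sets_XF6 (hn : 0 < n) (hB : BLX n) {ρ s : ℕ} (hs : μ.factorial ≤ s)
    (h0 : St2_XF6 n μ r₀ k ρ s ∅) (𝒜 : Finset (Finset ℕ)) : St2_XF6 n μ r₀ k ρ s 𝒜 := by
  induction 𝒜 using Finset.induction_on with
  | empty => exact h0
  | insert A 𝒜 hA ih =>
    intro S G a hG ha hI h1 h2
    by_cases hc : A.card = ρ
    · have hI0 := hI.inv0 μ.factorial_pos hG.good.rees
      obtain ⟨β, hβ⟩ := hB S _ (ctr_mc (A := A) hn hI0 hG ha hs)
      have hC : β.C ⊆ Sg S G := by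
        rw [hβ]
        exact fun x hx => hx.1
      obtain ⟨g1, g2⟩ := mstep hI0 hG ha hs hβ hc h1 h2
      rw [Finset.erase_insert hA] at g2
      exact Res.step β hC (ih _ _ _ (hG.tr hC) (ha.tra hG.good.rees hC r₀ μ.factorial 0)
        (hI.tr μ.factorial_pos hG.good hG.good hG.le (fun _ _ _ _ h => h) hC) g1 g2)
    · refine ih S G a hG ha hI h1 fun x hx B hBJ hBc => ⟨(h2 x hx B hBJ hBc).1, fun e => ?_⟩
      rcases Finset.mem_insert.1 ((h2 x hx B hBJ hBc).2 e) with h | h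
      · exact absurd (h ▸ hBc) hc
      · exact h

theorem small_XF6 {ρ s : ℕ} (h : St_XF6 n μ r₀ k (ρ + 1)) (hs : s < μ.factorial)
    (𝒜 : Finset (Finset ℕ)) : St2_XF6 n μ r₀ k ρ s 𝒜 := by
  intro S G a hG ha hI h1 h2
  refine h S G a hG ha hI fun x hx B hBJ hBc => ?_
  rcases Nat.lt_succ_iff_lt_or_eq.1 hBc with h3 | h3
  · exact h1 x hx B hBJ h3
  · exact lt_of_le_of_lt (h2 x hx B hBJ h3).1 hs

theorem wts_XF6 (hn : 0 < n) (hB : BLX n) {ρ : ℕ} (h : St_XF6 n μ r₀ k (ρ + 1)) (s : ℕ) :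
    ∀ 𝒜, St2_XF6 n μ r₀ k ρ s 𝒜 := by
  induction s with
  | zero => exact small_XF6 h μ.factorial_pos
  | succ s ih =>
    by_cases hs : s + 1 < μ.factorial
    · exact small_XF6 h hs
    · refine sets_XF6 hn hB (not_lt.1 hs) ?_
      intro S G a hG ha hI h1 h2
      refine ih (Finset.range S.r).powerset S G a hG ha hI h1 fun x hx B hBJ hBc =>
        ⟨?_, fun _ => Finset.mem_powerset.2 (mem_pow_XF6 hBJ)⟩
      have h3 := (h2 x hx B hBJ hBc).1
      have h4 : ∑ j ∈ B, a j x ≠ s + 1 := fun e =>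
        Finset.notMem_empty _ ((h2 x hx B hBJ hBc).2 e)
      omega

theorem all_XF6 (hn : 0 < n) (hB : BLX n) (d : ℕ) :
    ∀ ρ, ρ + d = n + 1 → St_XF6 n μ r₀ k ρ := by
  induction d with
  | zero =>
    intro ρ e
    rw [show ρ = n + 1 from e]
    exact top_XF6
  | succ d ih =>
    intro ρ e S G a hG ha hI h1
    obtain ⟨s, 𝒜, h2⟩ := exists_m2 (r₀ := r₀) hG.good ha ρ
    exact wts_XF6 hn hB (ih (ρ + 1) (by omega)) s 𝒜 S G a hG ha hI h1 h2

/-- the monomial case -/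
theorem monomial_case (hn : 0 < n) (hB : BLX n) {S : Sp n} {G : Alg S.M} {a : ℕ → Amb S.M → ℕ}
    (hG : Std S G r₀ μ) (ha : Ex S G a) (hI : Inv S G G r₀ k μ.factorial a 0) : Res S G := by
  exact all_XF6 hn hB (n + 1) 0 (Nat.zero_add _) S G a hG ha hI
    fun _ _ _ _ h => absurd h (Nat.not_lt_zero _)

end Pool.Agent.HIR
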