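import Pool.Agent.P.MP_65ad7c_ag.XF1
import Pool.Agent.P.MP_65ad7c_ag.XF3
import Pool.Agent.P.MP_65ad7c_ag.XF4
import Pool.Agent.P.MP_65ad7c_ag.XF6

open Set Filter Topology Asymptotics
open scoped ComplexConjugate
open Pool.Agent.HT (Amb proj cj IsChart IsSNC)

noncomputable section
namespace Pool.Agent.HIR

variable {n k : ℕ}

theorem loop (hn : 0 < n) (hB : BLX n) (hR : RK n (k + 1)) (r₀ μ ν : ℕ) :
    ∀ (S : Sp n) (G : Alg S.M) (a : ℕ → Amb S.M → ℕ), Std S G r₀ μ → Ex S G a →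
      Inv0 S G r₀ k μ.factorial a ν → Res S G := by
  have hb : 0 < μ.factorial := Nat.factorial_pos μ
  induction ν with
  | zero => exact fun S G a hG ha hI => monomial_case hn hB hG ha (hI.inv hG.good)
  | succ ν ih =>
    intro S G a hG ha hI
    have h1 : 1 ≤ ν + 1 := Nat.le_add_left 1 ν
    have hgood := good_cp hG.good hb ha hI h1
    have hle : GLe S G (Cp S G r₀ k μ.factorial a (ν + 1)) := le_cp hG.good.rees
    have hres : Res S (Cp S G r₀ k μ.factorial a (ν + 1)) :=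
      bnd hR ⟨hgood, hG.le, hG.old.mono hle⟩ (pkg_cp hG.good.rees hb hI h1)
    refine Res.follow (P := fun S' H' G' => ∃ a', Std S' G' r₀ μ ∧ Good S' H' (max μ (ν + 1)) ∧
      GLe S' G' H' ∧ Ex S' G' a' ∧ Inv S' G' H' r₀ k μ.factorial a' (ν + 1)) ?_ ?_ hres G
      ⟨a, hG, hgood, hle, ha, inv_cp hG.good hI⟩
    · rintro S' H' G' β ⟨a', g1, g2, g3, g4, g5⟩ hC
      have hC' : β.C ⊆ Sg S' G' := hC.trans (sg_mono g3)
      exact ⟨hC', tra β r₀ μ.factorial a' (ν + 1), g1.tr hC', g2.tr hC, tr_mono β g3,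
        g4.tra g1.good.rees hC' _ _ _, g5.tr hb g1.good g2 g1.le g3 hC⟩
    · rintro S' H' G' ⟨a', g1, g2, -, g4, g5⟩ he
      exact ih S' G' a' g1 g4 (g5.drop hb g1.good.rees g2.rees he)

theorem rk_step (hn : 0 < n) (hB : BLX n) (hR : RK n (k + 1)) : RK n k := by
  intro S G r₀ μ hG hp
  obtain ⟨β, hβ⟩ := hB S _ (ctr_zi hn hG hp)
  have hC : β.C ⊆ Sg S G := by
    rw [hβ]
    exact fun x hx => hx.1
  obtain ⟨ν, hν⟩ := zinf hG.good hp β hβ
  exact Res.step β hC (loop hn hB hR r₀ μ ν _ _ 0 (hG.tr hC) (ex_zero' _ _) hν)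

theorem rk_top (n : ℕ) : RK n (n + 1) := by
  intro S G r₀ μ _ hp
  refine Res.done (eq_empty_of_forall_notMem fun x hx => ?_)
  obtain ⟨φ, z, K, c, h⟩ := hp x hx
  have h1 := K.card_le_univ
  rw [h.card, Fintype.card_fin] at h1
  omega

theorem rk_all_XF7 (hn : 0 < n) (hB : BLX n) (d : ℕ) : ∀ k, k + d = n + 1 → RK n k := by
  induction d with
  | zero =>
    intro k hk
    obtain rfl : k = n + 1 := by omega
    exact rk_top n
  | succ d ih => exact fun k hk => rk_step hn hB (ih (k + 1) (by omega))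

/-- principalization -/
theorem prin (hB : BLX n) {S : Sp n} {G : Alg S.M} {μ : ℕ} (hG : Good S G μ) : Res S G := by
  rcases Nat.eq_zero_or_pos n with rfl | hn
  · have hs : ∀ (x : Amb S.M) (φ : E 0 → Amb S.M) (z : E 0), x ∈ Sg S G → Pt S.X φ z x →
        Sub (Sg S G) φ z ∅ := by
      intro x φ z hx hp
      refine Eventually.of_forall fun y => ?_
      rw [Subsingleton.elim y z, hp.eq]
      exact ⟨fun _ i => i.elim0, fun _ => hx⟩
    have hc : Ctr S (Sg S G) := by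
      refine ⟨hG.closed, fun x hx => hx.1, hG.sg_cj, 0, fun x hx => ?_⟩
      obtain ⟨φ, z, hp, hD⟩ := Sp.chart hx.1
      exact ⟨φ, z, ∅, hp, rfl, hs x φ z hx hp, hD⟩
    obtain ⟨β, hβ⟩ := hB S _ hc
    have hC : β.C ⊆ Sg S G := hβ.subset
    refine Res.step β hC (Res.done (eq_empty_of_forall_notMem fun x' hx' => ?_))
    have h1 : β.π x' ∈ Sg S G := sg_tr hG.rees hC hx'
    obtain ⟨φ, z, hp, -⟩ := Sp.chart h1.1
    obtain ⟨_, _, p, -⟩ := β.on x' hx'.1 (hβ ▸ h1) φ z ∅ hp (hβ ▸ hs _ φ z h1 hp)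
    exact p.elim0
  · refine rk_all_XF7 hn hB (n + 1) 0 (by omega) S G 0 μ
      ⟨hG, Nat.zero_le _, fun x _ j hj => absurd hj (Nat.not_lt_zero j)⟩ fun x hx => ?_
    obtain ⟨φ, z, hp, hD⟩ := Sp.chart hx.1
    have : Nonempty (Fin n) := ⟨⟨0, hn⟩⟩
    choose! c hc using hD
    exact ⟨φ, z, ∅, c, hp, hx, ⟨fun i hi => absurd hi (Finset.notMem_empty i),
      fun i hi => absurd hi (Finset.notMem_empty i)⟩, rfl, fun j hj => hc j (mem_J.1 hj).2,
      fun j _ => Finset.notMem_empty _⟩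

end Pool.Agent.HIR
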