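import Pool.Agent.P.MP_65ad7c_ag.XG6

open Set Filter Topology Asymptotics
open scoped ComplexConjugate
open Pool.Agent.HT (Amb proj cj IsChart IsSNC)

noncomputable section
namespace Pool.Agent.HIR

variable {n e M : ℕ} {X C : Set (Amb M)}

theorem ev_mul_XG7 (P Q : MvPolynomial (Fin M) ℂ) : ev (P * Q) = ev P * ev Q := by
  funext v
  simp [ev]

theorem ev_add_XG7 (P Q : MvPolynomial (Fin M) ℂ) : ev (P + Q) = ev P + ev Q := by
  funext v
  simp [ev]

theorem fd_mul_XG7 (P Q : MvPolynomial (Fin M) ℂ) (v ξ : Fin M → ℂ) :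
    fderiv ℂ (ev (P * Q)) v ξ =
      ev P v * fderiv ℂ (ev Q) v ξ + ev Q v * fderiv ℂ (ev P) v ξ := by
  rw [ev_mul_XG7, fderiv_mul (an_ev P v).differentiableAt (an_ev Q v).differentiableAt]
  simp

/-- polynomials that vanish at `v` together with the derivative in the direction `ξ` -/
def jet_XG7 (v ξ : Fin M → ℂ) : Ideal (MvPolynomial (Fin M) ℂ) where
  carrier := {Q | ev Q v = 0 ∧ fderiv ℂ (ev Q) v ξ = 0}
  add_mem' := by
    intro P Q hP hQ
    refine ⟨?_, ?_⟩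
    · rw [ev_add_XG7, Pi.add_apply, hP.1, hQ.1, add_zero]
    · rw [ev_add_XG7, fderiv_add (an_ev P v).differentiableAt (an_ev Q v).differentiableAt,
        add_apply, hP.2, hQ.2, add_zero]
  zero_mem' := by
    have h : ev (0 : MvPolynomial (Fin M) ℂ) = fun _ => 0 := by
      funext v
      simp [ev]
    refine ⟨?_, ?_⟩
    · rw [h]
    · rw [h]
      simp
  smul_mem' := by
    intro P Q hQ
    refine ⟨?_, ?_⟩
    · rw [smul_eq_mul, ev_mul_XG7, Pi.mul_apply, hQ.1, mul_zero]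
    · rw [smul_eq_mul, fd_mul_XG7, hQ.1, hQ.2, mul_zero, zero_mul, add_zero]

theorem mem_jet_XG7 {v ξ : Fin M → ℂ} {Q : MvPolynomial (Fin M) ℂ} :
    Q ∈ jet_XG7 v ξ ↔ ev Q v = 0 ∧ fderiv ℂ (ev Q) v ξ = 0 := Iff.rfl

theorem sat_XG7 {v ξ : Fin M → ℂ} {U Q : MvPolynomial (Fin M) ℂ} (hU : ev U v ≠ 0)
    (h : U * Q ∈ jet_XG7 v ξ) : Q ∈ jet_XG7 v ξ := by
  obtain ⟨h1, h2⟩ := mem_jet_XG7.1 h
  rw [ev_mul_XG7, Pi.mul_apply] at h1
  have h3 : ev Q v = 0 := (mul_eq_zero.1 h1).resolve_left hU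
  rw [fd_mul_XG7, h3, zero_mul, add_zero] at h2
  exact mem_jet_XG7.2 ⟨h3, (mul_eq_zero.1 h2).resolve_left hU⟩

theorem ev_bar_XG7 (P : MvPolynomial (Fin M) ℂ) (v : Fin M → ℂ) :
    ev (MvPolynomial.map (starRingEnd ℂ) P) (star v) = conj (ev P v) := by
  unfold ev
  induction P using MvPolynomial.induction_on with
  | C a => simp
  | add p q hp hq => simp [hp, hq]
  | mul_X p i hp => simp [hp]

theorem ev_bar'_XG7 (P : MvPolynomial (Fin M) ℂ) (v : Fin M → ℂ) :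
    ev P (star v) = conj (ev (MvPolynomial.map (starRingEnd ℂ) P) v) := by
  have h := ev_bar_XG7 P (star v)
  rw [star_star] at h
  rw [h, Complex.conj_conj]

/-- real and imaginary part -/
def rp_XG7 (P : MvPolynomial (Fin M) ℂ) : Bool → MvPolynomial (Fin M) ℂ
  | true => P + MvPolynomial.map (starRingEnd ℂ) P
  | false => MvPolynomial.C Complex.I * (P - MvPolynomial.map (starRingEnd ℂ) P)

theorem rp_hom_XG7 {P : MvPolynomial (Fin M) ℂ} {l : ℕ} (h : P.IsHomogeneous l) (b : Bool) :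
    (rp_XG7 P b).IsHomogeneous l := by
  cases b
  · exact (h.sub (h.map _)).C_mul _
  · exact h.add (h.map _)

theorem rp_real_XG7 (P : MvPolynomial (Fin M) ℂ) (b : Bool) (v : Fin M → ℂ) :
    ev (rp_XG7 P b) (star v) = conj (ev (rp_XG7 P b) v) := by
  have h1 := ev_bar_XG7 P v
  have h2 := ev_bar'_XG7 P v
  unfold ev at h1 h2 ⊢
  cases b
  · simp only [rp_XG7, map_mul, map_sub, MvPolynomial.eval_C, h1, h2, Complex.conj_I]
    ring
  · simp only [rp_XG7, map_add, h1, h2]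
    ring

theorem rp_zero_XG7 {P : MvPolynomial (Fin M) ℂ} (b : Bool) {u : Fin M → ℂ} (h : ev P u = 0)
    (h' : ev P (star u) = 0) : ev (rp_XG7 P b) u = 0 := by
  have h1 := ev_bar_XG7 P (star u)
  rw [star_star, h', map_zero] at h1
  unfold ev at h h1 ⊢
  cases b
  · simp only [rp_XG7, map_mul, map_sub, h, h1, sub_zero, mul_zero]
  · simp only [rp_XG7, map_add, h, h1, add_zero]

theorem rp_two_XG7 (P : MvPolynomial (Fin M) ℂ) :
    MvPolynomial.C (2 : ℂ) * P = rp_XG7 P true - MvPolynomial.C Complex.I * rp_XG7 P false := by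
  have h : (MvPolynomial.C Complex.I * MvPolynomial.C Complex.I : MvPolynomial (Fin M) ℂ) = -1 := by
    rw [← map_mul, Complex.I_mul_I, map_neg, map_one]
  have h2 : (MvPolynomial.C (2 : ℂ) : MvPolynomial (Fin M) ℂ) = 2 := map_ofNat _ 2
  simp only [rp_XG7]
  rw [← mul_assoc, h, h2]
  ring

/-- two representatives of the same map differ by a unit -/
theorem rep_XG7 {m : ℕ} {g g' : E m → Fin M → ℂ} {w : E m} (hg : AnalyticAt ℂ g w)
    (hg' : AnalyticAt ℂ g' w) (h0 : g w ≠ 0) (h0' : g' w ≠ 0)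
    (h : proj ∘ g =ᶠ[𝓝 w] proj ∘ g') :
    ∃ a : ℂ, a ≠ 0 ∧ g' w = a • g w ∧
      ∀ η, ∃ b : ℂ, fderiv ℂ g' w η = a • fderiv ℂ g w η + b • g w := by
  obtain ⟨k, hk⟩ := Function.ne_iff.1 h0
  have hk' : g w k ≠ 0 := hk
  have ak : AnalyticAt ℂ (fun y => g y k) w := analyticAt_pi_iff.1 hg k
  have ak' : AnalyticAt ℂ (fun y => g' y k) w := analyticAt_pi_iff.1 hg' k
  have al : AnalyticAt ℂ (fun y => g' y k / g y k) w := ak'.div ak hk'
  have e1 : ∀ᶠ y in 𝓝 w, g y k ≠ 0 := ak.continuousAt.eventually_ne hk'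
  have e2 : ∀ᶠ y in 𝓝 w, g' y ≠ 0 := hg'.continuousAt.eventually_ne h0'
  have e : g' =ᶠ[𝓝 w] fun y => (g' y k / g y k) • g y := by
    filter_upwards [e1, e2, h] with y h1 h2 h3
    have hy : g y ≠ 0 := fun hh => h1 (by rw [hh]; rfl)
    obtain ⟨c, _, hc⟩ := (proj_eq_iff hy h2).1 h3
    have hck : g' y k / g y k = c := by
      rw [hc, Pi.smul_apply, smul_eq_mul, mul_div_assoc, div_self h1, mul_one]
    rw [hck]
    exact hc
  have ew : g' w = (g' w k / g w k) • g w := e.self_of_nhds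
  refine ⟨g' w k / g w k, ?_, ew, fun η => ⟨fderiv ℂ (fun y => g' y k / g y k) w η, ?_⟩⟩
  · intro hh
    rw [hh, zero_smul] at ew
    exact h0' ew
  · rw [e.fderiv_eq, fderiv_fun_smul al.differentiableAt hg.differentiableAt]
    simp

/-- finitely many real homogeneous equations of the same degree -/
theorem exists_gens (C : Set (Amb M)) (hC : MapsTo (cj M) C C) :
    ∃ (q k : ℕ) (G : Fin q → MvPolynomial (Fin M) ℂ), (∀ a, (G a).IsHomogeneous k) ∧
      (∀ a v, ev (G a) (star v) = conj (ev (G a) v)) ∧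
      (∀ a u, u ≠ 0 → proj u ∈ C → ev (G a) u = 0) ∧
      ∀ (P : MvPolynomial (Fin M) ℂ) (l : ℕ), P.IsHomogeneous l →
        (∀ u, u ≠ 0 → proj u ∈ C → ev P u = 0) → ∀ v, v ≠ 0 → (∀ a, ev (G a) v = 0) →
        ev P v = 0 ∧ ∀ ξ, (∀ a, fderiv ℂ (ev (G a)) v ξ = 0) → fderiv ℂ (ev P) v ξ = 0 := by
  classical
  obtain ⟨s, hsS, hspan⟩ := (Submodule.fg_span_iff_fg_span_finset_subset
    (R := MvPolynomial (Fin M) ℂ) {P : MvPolynomial (Fin M) ℂ | ∃ l, P.IsHomogeneous l ∧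
      ∀ u, u ≠ 0 → proj u ∈ C → ev P u = 0}).1 (IsNoetherian.noetherian _)
  have hd : ∀ P : s, ∃ l, (P : MvPolynomial (Fin M) ℂ).IsHomogeneous l ∧
      ∀ u, u ≠ 0 → proj u ∈ C → ev P u = 0 := fun P => hsS P.2
  choose d hd1 hd2 using hd
  let k : ℕ := Finset.univ.sup d
  have hk : ∀ P, d P ≤ k := fun P => Finset.le_sup (Finset.mem_univ P)
  let G' : s × Bool × Fin M → MvPolynomial (Fin M) ℂ := fun a =>
    MvPolynomial.X a.2.2 ^ (k - d a.1) * rp_XG7 a.1 a.2.1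
  let ε := Fintype.equivFin (s × Bool × Fin M)
  have key : ∀ (P : MvPolynomial (Fin M) ℂ) (l : ℕ), P.IsHomogeneous l →
      (∀ u, u ≠ 0 → proj u ∈ C → ev P u = 0) → ∀ v, v ≠ 0 → ∀ ξ,
      (∀ a, G' a ∈ jet_XG7 v ξ) → P ∈ jet_XG7 v ξ := by
    intro P l hP hP0 v hv ξ hG
    obtain ⟨i, hi⟩ := Function.ne_iff.1 hv
    have hi' : v i ≠ 0 := hi
    have hle : Submodule.span (MvPolynomial (Fin M) ℂ) (s : Set (MvPolynomial (Fin M) ℂ)) ≤
        jet_XG7 v ξ := by
      rw [Submodule.span_le]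
      intro Q hQ
      have hr : ∀ b, rp_XG7 Q b ∈ jet_XG7 v ξ := by
        intro b
        refine sat_XG7 ?_ (hG (⟨Q, hQ⟩, b, i))
        simp [ev, hi']
      refine sat_XG7 (U := MvPolynomial.C (2 : ℂ)) (by simp [ev]) ?_
      rw [rp_two_XG7]
      exact Ideal.sub_mem _ (hr true) (Ideal.mul_mem_left _ _ (hr false))
    apply hle
    rw [← hspan]
    exact Submodule.subset_span ⟨l, hP, hP0⟩
  refine ⟨_, k, fun a => G' (ε.symm a), fun a => ?_, fun a v => ?_, fun a u hu hm => ?_, ?_⟩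
  · have h := (MvPolynomial.isHomogeneous_X_pow (R := ℂ) (ε.symm a).2.2
      (k - d (ε.symm a).1)).mul (rp_hom_XG7 (hd1 (ε.symm a).1) (ε.symm a).2.1)
    rwa [Nat.sub_add_cancel (hk _)] at h
  · simp only [G', ev_mul_XG7, Pi.mul_apply, rp_real_XG7, map_mul]
    congr 1
    simp [ev]
  · have hu' : star u ≠ 0 := star_ne_zero.2 hu
    have hm' : proj (star u) ∈ C := by
      rw [← cj_proj]
      exact hC hm
    simp only [G', ev_mul_XG7, Pi.mul_apply]
    rw [rp_zero_XG7 _ (hd2 _ u hu hm) (hd2 _ _ hu' hm'), mul_zero]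
  · intro P l hP hP0 v hv hG
    have hG' : ∀ a, ev (G' a) v = 0 := fun a => by
      have h := hG (ε a)
      simpa only [Equiv.symm_apply_apply] using h
    refine ⟨(mem_jet_XG7.1 (key P l hP hP0 v hv 0 fun a => ?_)).1, fun ξ hξ => ?_⟩
    · exact mem_jet_XG7.2 ⟨hG' a, map_zero _⟩
    · refine (mem_jet_XG7.1 (key P l hP hP0 v hv ξ fun a => mem_jet_XG7.2 ⟨hG' a, ?_⟩)).2
      have h := hξ (ε a)
      simpa only [Equiv.symm_apply_apply] using h

/-- the representative of a chart is an immersion -/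
theorem Pt.imm {g : E n → Fin M → ℂ} {z : E n} (hp : Pt X (proj ∘ g) z (proj (g z)))
    (hg : AnalyticAt ℂ g z) (h0 : g z ≠ 0) (v : E n) (c : ℂ) (h : fderiv ℂ g z v = c • g z) :
    v = 0 := by
  obtain ⟨g', e1, ha, h0', hi⟩ := hp.rep
  obtain ⟨a, ha0, ew, hd⟩ := rep_XG7 hg ha h0 h0' (Filter.EventuallyEq.of_eq e1)
  obtain ⟨b, hb⟩ := hd v
  refine hi v ((a * c + b) * a⁻¹) ?_
  rw [hb, h, ew, smul_smul, smul_smul, ← add_smul, mul_assoc, inv_mul_cancel₀ ha0, mul_one]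

theorem exists_segD (hX : Mf n X) (hC : Mf e C) (hs : C ⊆ X) (hj : MapsTo (cj M) C C) :
    ∃ (q : ℕ) (H : (Fin M → ℂ) → Fin q → ℂ), SegD n X C H := by
  obtain ⟨q, k, G, hhom, hrl, hvan, hgen⟩ := exists_gens C hj
  refine ⟨q, fun v a => ev (G a) v, hX, hC.compact.isClosed, hs, fun v => ?_, ⟨k, fun c v => ?_⟩,
    fun v => ?_, fun v hv => ⟨fun h => ?_, fun h => ?_⟩, ?_⟩
  · exact analyticAt_pi_iff.2 fun a => an_ev (G a) v
  · funext a
    exact ev_smul (hhom a) c v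
  · funext a
    exact hrl a v
  · by_contra hn
    have hd : C ⊆ closure {x | x ∈ C ∧ ImmP e C id x} := by
      intro x hx
      obtain ⟨φ, z, hp⟩ := hC.chart x hx
      exact subset_closure ⟨hx, hp.immP⟩
    obtain ⟨P, l, hP, hne, hP0⟩ := chow1 hC holP_id hd hv (by rwa [image_id])
    rw [image_id] at hP0
    exact hne (hgen P l hP hP0 v hv fun a => congrFun h a).1
  · funext a
    exact hvan a v hv h
  · intro g z T hp hg h0 hm hsub c hc i hi
    obtain ⟨φ0, w, hp0⟩ := hC.chart _ hm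
    obtain ⟨g0, rfl, hg0, h00, hi0⟩ := hp0.rep
    have hx : proj (g0 w) = proj (g z) := hp0.eq
    have hev : ∀ᶠ y in 𝓝 w, proj (g0 y) ∈ C := hp0.ev.mono fun y hy => hy.mem
    obtain ⟨τ, hτ, hw, hcomp⟩ := hp.factor hg0 h00 hx (hev.mono fun y hy => hs hy)
    subst hw
    have hgτ : AnalyticAt ℂ (g ∘ τ) w := hg.comp hτ
    obtain ⟨a, ha0, ew, hd⟩ := rep_XG7 hgτ hg0 h0 h00 hcomp
    have ew' : g0 w = a • g (τ w) := ew
    have hT : (fun y => τ y i) =ᶠ[𝓝 w] fun _ => 0 := by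
      filter_upwards [hτ.continuousAt.tendsto.eventually hsub, hev, hcomp] with y h1 h2 h3
      have h4 : proj (g (τ y)) = proj (g0 y) := h3
      refine h1.1 ?_ i hi
      rw [Function.comp_apply, h4]
      exact h2
    have hT' : ∀ η, fderiv ℂ τ w η i = 0 := by
      intro η
      have h1 := hT.fderiv_eq (𝕜 := ℂ)
      rw [fderiv_apply hτ.differentiableAt i] at h1
      have h2 := DFunLike.congr_fun h1 η
      simpa using h2
    have hξ : ∀ a', fderiv ℂ (ev (G a')) (g (τ w)) (fderiv ℂ g (τ w) c) = 0 := by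
      intro a'
      have hH : AnalyticAt ℂ (fun v a => ev (G a) v) (g (τ w)) :=
        analyticAt_pi_iff.2 fun a => an_ev (G a) _
      rw [fderiv_comp _ hH.differentiableAt hg.differentiableAt,
        fderiv_pi fun a => (an_ev (G a) _).differentiableAt] at hc
      exact congrFun hc a'
    have hex : ∃ (η : E e) (b : ℂ), fderiv ℂ g (τ w) c = fderiv ℂ g0 w η + b • g0 w := by
      by_contra hn
      have hp1 : Pt C (proj ∘ g0) w (proj (g0 w)) := by
        rw [hx]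
        exact hp0
      obtain ⟨P, l, hP, hne, hP0⟩ := chow3 hC hp1 hg0 h00 hi0 (ξ := fderiv ℂ g (τ w) c)
        fun η b hh => hn ⟨η, b, hh⟩
      apply hne
      rw [ew', fderiv_ev_smul hP ha0]
      exact (hgen P l hP hP0 _ h0 fun a' => hvan a' _ h0 hm).2 _ hξ
    obtain ⟨η, b, hb⟩ := hex
    obtain ⟨b', hb'⟩ := hd η
    rw [fderiv_comp _ hg.differentiableAt hτ.differentiableAt] at hb'
    have hz : c - a • fderiv ℂ τ w η = 0 := by
      refine hp.imm hg h0 _ (b' + b * a) ?_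
      rw [map_sub, map_smul, hb, hb', ew', add_smul, smul_smul]
      simp only [ContinuousLinearMap.comp_apply, Function.comp_apply]
      abel
    have hz' := congrFun hz i
    simpa [hT' η] using hz'

end Pool.Agent.HIR
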