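import Pool.Agent.P.MP_65ad7c_ag.XG9
import Pool.Agent.P.MP_65ad7c_ag.XG7

open Set Filter Topology Asymptotics
open scoped ComplexConjugate
open Pool.Agent.HT (Amb proj cj IsChart IsSNC)

noncomputable section
namespace Pool.Agent.HIR

variable {n M q : ℕ} {X C : Set (Amb M)} {H : (Fin M → ℂ) → Fin q → ℂ} {g : E n → Fin M → ℂ}
  {z w : E n} {T : Finset (Fin n)} {A : Fin n → E n → Fin q → ℂ} {p : Fin n}

/-- the chart `p` of the blow-up -/
def segC (g : E n → Fin M → ℂ) (T : Finset (Fin n)) (A : Fin n → E n → Fin q → ℂ) (p : Fin n)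
    (y : E n) : Fin (M * q) → ℂ :=
  tens (g (bet T p y)) (∑ i ∈ T, Function.update y p 1 i • A i (bet T p y))

theorem upd_XH1 (p i : Fin n) (w : E n) : ∃ L : E n →L[ℂ] ℂ,
    (∀ v, L v = Function.update v p 0 i) ∧ AnalyticAt ℂ (fun y : E n => Function.update y p 1 i) w ∧
      HasFDerivAt (fun y : E n => Function.update y p 1 i) L w := by
  by_cases h : i = p
  · subst h
    simp only [Function.update_self]
    exact ⟨0, fun _ => rfl, analyticAt_const, hasFDerivAt_const _ _⟩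
  · simp only [Function.update_of_ne h]
    exact ⟨ContinuousLinearMap.proj i, fun _ => rfl, an_co i w,
      (ContinuousLinearMap.proj (R := ℂ) (φ := fun _ : Fin n => ℂ) i).hasFDerivAt⟩

theorem anS_XH1 (h : ∀ i, AnalyticAt ℂ (A i) (bet T p w)) :
    AnalyticAt ℂ (fun y => ∑ i ∈ T, Function.update y p 1 i • A i (bet T p y)) w :=
  Finset.analyticAt_fun_sum _ fun i _ =>
    (upd_XH1 p i w).choose_spec.2.1.smul ((h i).comp (an_bet T p w))

theorem dbet_XH1 {i : Fin n} (hi : i ∉ T.erase p) (w v : E n) :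
    fderiv ℂ (bet T p) w v i = v i := by
  have h1 := (ContinuousLinearMap.proj (R := ℂ) (φ := fun _ : Fin n => ℂ) i).hasFDerivAt.comp w
    (an_bet T p w).differentiableAt.hasFDerivAt
  have h2 : (ContinuousLinearMap.proj (R := ℂ) (φ := fun _ : Fin n => ℂ) i) ∘ bet T p =
      ContinuousLinearMap.proj (R := ℂ) (φ := fun _ : Fin n => ℂ) i := by
    funext y
    exact if_neg hi
  rw [h2] at h1
  exact DFunLike.congr_fun
    (h1.unique (ContinuousLinearMap.proj (R := ℂ) (φ := fun _ : Fin n => ℂ) i).hasFDerivAt) v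

theorem dS_XH1 (h : ∀ i, AnalyticAt ℂ (A i) (bet T p w)) {v : E n}
    (hv : fderiv ℂ (bet T p) w v = 0) :
    fderiv ℂ (fun y => ∑ i ∈ T, Function.update y p 1 i • A i (bet T p y)) w v =
      ∑ i ∈ T, Function.update v p 0 i • A i (bet T p w) := by
  choose L hL _ hd using fun i => upd_XH1 p i w
  have h1 := HasFDerivAt.fun_sum (u := T) fun i _ => (hd i).fun_smul
    ((h i).differentiableAt.hasFDerivAt.comp w (an_bet T p w).differentiableAt.hasFDerivAt)
  refine (DFunLike.congr_fun h1.fderiv v).trans ?_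
  rw [sum_apply]
  refine Finset.sum_congr rfl fun i _ => ?_
  simp [hv, hL]

theorem col_XH1 (v : Fin M → ℂ) (s : Fin q → ℂ) (k₁ : Fin M) (k : Fin (M * q)) :
    ∃ μ : ℂ, (fun a => proj (tens v s) (finProdFinEquiv (k₁, a), k)) = μ • s := by
  refine ⟨conj (tens v s k) / (∑ j, tens v s j * conj (tens v s j)) * v k₁, funext fun a => ?_⟩
  refine (congrFun (proj_col (tens v s) k) (finProdFinEquiv (k₁, a))).trans ?_
  simp only [Pi.smul_apply, smul_eq_mul, mul_assoc]
  congr 1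
  simp [tens]

theorem pnt_XH1 (g : E n → Fin M → ℂ) (A : Fin n → E n → Fin q → ℂ) {u c y : E n} (hc : c p ≠ 0)
    (h : ∀ i ∈ T, u i * c p = u p * c i) (hy : ∀ i ∈ T.erase p, y i = c i / c p)
    (hy' : ∀ i, i ∉ T.erase p → y i = u i) :
    bet T p y = u ∧ proj (segC g T A p y) = proj (tens (g u) (∑ i ∈ T, c i • A i u)) := by
  have e : bet T p y = u := by
    funext i
    by_cases hi : i ∈ T.erase p
    · refine (if_pos hi).trans ?_
      rw [hy i hi, hy' p (Finset.notMem_erase p T), ← mul_div_assoc,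
        ← h i (Finset.mem_of_mem_erase hi), mul_div_cancel_right₀ _ hc]
    · exact (if_neg hi).trans (hy' i hi)
  refine ⟨e, ?_⟩
  have e2 : ∑ i ∈ T, c i • A i u = c p • ∑ i ∈ T, Function.update y p 1 i • A i u := by
    rw [Finset.smul_sum]
    refine Finset.sum_congr rfl fun i hi => ?_
    rw [smul_smul]
    by_cases hip : i = p
    · rw [hip, Function.update_self, mul_one]
    · rw [Function.update_of_ne hip, hy i (Finset.mem_erase.2 ⟨hip, hi⟩), mul_div_cancel₀ _ hc]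
  have e3 := tens_smul 1 (c p) (g u) (∑ i ∈ T, Function.update y p 1 i • A i u)
  rw [one_smul, one_mul] at e3
  rw [segC, e, e2, e3, proj_smul hc]

theorem ne_XH1 (h : SegL X C H g (bet T p w) T A) (hp : p ∈ T) :
    ∑ i ∈ T, Function.update w p 1 i • A i (bet T p w) ≠ 0 := fun h0 => by
  simpa using h.ind _ h0 p hp

theorem an_XH1 (h : SegL X C H g (bet T p w) T A) : AnalyticAt ℂ (segC g T A p) w :=
  an_tens (h.an.comp (an_bet T p w)) (anS_XH1 h.anA)

theorem imm_XH1 (h : SegL X C H g (bet T p w) T A) (hp : p ∈ T) (v : E n) (c : ℂ)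
    (hv : fderiv ℂ (segC g T A p) w v = c • segC g T A p w) : v = 0 := by
  obtain ⟨⟨a, ha⟩, b, hb⟩ := imm_tens (h.an.comp (an_bet T p w)) (anS_XH1 h.anA) h.ne
    (ne_XH1 h hp) hv
  rw [fderiv_comp w h.an.differentiableAt (an_bet T p w).differentiableAt] at ha
  have h1 : fderiv ℂ (bet T p) w v = 0 := h.imm _ a ha
  rw [dS_XH1 h.anA h1] at hb
  have h2 := h.ind (fun i => Function.update v p 0 i - b * Function.update w p 1 i) (by
    simp only [sub_smul, mul_smul, Finset.sum_sub_distrib, ← Finset.smul_sum]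
    exact sub_eq_zero.2 hb)
  have hb0 : b = 0 := by simpa using h2 p hp
  funext i
  by_cases hi : i ∈ T.erase p
  · obtain ⟨hip, hi⟩ := Finset.mem_erase.1 hi
    simpa [hb0, hip] using h2 i hi
  · rw [← dbet_XH1 hi w v, h1]

theorem mem_XH1 (h : SegL X C H g (bet T p w) T A) (hp : p ∈ T) :
    ∀ᶠ y in 𝓝 w, proj (segC g T A p y) ∈ closure (gph X C H) := by
  have tb : Tendsto (bet T p) (𝓝 w) (𝓝 (bet T p w)) := (an_bet T p w).continuousAt
  have h1 : ∀ᶠ y in 𝓝 w, y p ≠ 0 → proj (segC g T A p y) ∈ gph X C H := by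
    filter_upwards [tb.eventually h.pt.ev, tb.eventually h.sub, tb.eventually h.eq,
      tb.eventually (h.an.continuousAt.eventually_ne h.ne)] with y a b c d hy
    refine ⟨g (bet T p y), d, a.mem, fun hC => hy ((bet_zero hp).1 (b.1 hC)), ?_⟩
    rw [c]
    refine (pnt_XH1 g A (c := bet T p y) (y := y) (by rwa [bet_self]) (fun i _ => mul_comm _ _)
      (fun i hi => ?_) fun i hi => (if_neg hi).symm).2
    rw [bet_self, eq_div_iff hy, mul_comm]
    exact (if_pos hi).symm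
  filter_upwards [h1.eventually_nhds, (an_XH1 h).eventually_analyticAt,
    (an_XH1 h).continuousAt.eventually_ne (tens_ne h.ne (ne_XH1 h hp))] with y a b c
  have h2 := dense_mon (z := y) (T := ∅) (α := Pi.single p 1) (by simp) (by simp)
  refine mem_closure_of_frequently_of_tendsto ((h2.and_eventually a).mono fun u hu => hu.2 ?_)
    ((cont_proj c).tendsto.comp b.continuousAt)
  intro h0
  exact hu.1.2 (Finset.prod_eq_zero (Finset.mem_univ p) (by simp [h0]))

theorem inv_XH1 (h : SegL X C H g (bet T p w) T A) (hD : SegD n X C H) (hp : p ∈ T) :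
    ∃ Y : Amb (M * q) → E n,
      Tendsto Y (𝓝[closure (gph X C H)] proj (segC g T A p w)) (𝓝 w) ∧
      ∀ᶠ x in 𝓝[closure (gph X C H)] proj (segC g T A p w), proj (segC g T A p (Y x)) = x := by
  obtain ⟨ι, hι⟩ := h.pt.inv
  obtain ⟨Λ, hΛ, hΛ'⟩ := h.left
  have h0 : segC g T A p w ≠ 0 := tens_ne h.ne (ne_XH1 h hp)
  obtain ⟨k, hk⟩ := Function.ne_iff.1 h0
  obtain ⟨⟨k₁, k₂⟩, rfl⟩ := finProdFinEquiv.surjective k
  generalize hl : 𝓝[closure (gph X C H)] proj (segC g T A p w) = l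
  have l1 : l ≤ 𝓝 (proj (segC g T A p w)) := hl ▸ nhdsWithin_le_nhds
  have l2 : ∀ᶠ x in l, x ∈ closure (gph X C H) := hl ▸ self_mem_nhdsWithin
  have t1 : Tendsto (ptr M q) l (𝓝[X] proj (g (bet T p w))) := by
    refine tendsto_nhdsWithin_iff.2 ⟨?_, l2.mono fun x hx => hD.maps hx⟩
    rw [← ptr_tens (ne_XH1 h hp)]
    exact (cont_ptr.tendsto _).mono_left l1
  have t2 : Tendsto ι (𝓝[X] proj (g (bet T p w))) (𝓝 (bet T p w)) := by
    rw [← h.pt.map, tendsto_map'_iff]
    exact tendsto_id.congr' (hι.mono fun u hu => hu.symm)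
  have t3 := t2.comp t1
  have e1 : ∀ᶠ x in l, proj (g (ι (ptr M q x))) = ptr M q x :=
    t1.eventually ((h.pt.ev_iff (P := fun y => proj (g (ι y)) = y)).2
      (hι.mono fun u hu => congrArg (proj ∘ g) hu))
  let R : Amb (M * q) → Fin q → ℂ := fun x a =>
    x (finProdFinEquiv (k₁, a), finProdFinEquiv (k₁, k₂))
  have cR : Continuous R := by fun_prop
  let d : Amb (M * q) → E n := fun x => Λ (ι (ptr M q x)) (R x)
  have t4 : Tendsto d l (𝓝 (Λ (bet T p w) (R (proj (segC g T A p w))))) :=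
    (isBoundedBilinearMap_apply.continuous.tendsto _).comp
      ((hΛ.tendsto.comp t3).prodMk_nhds ((cR.tendsto _).mono_left l1))
  obtain ⟨μ, hμ⟩ := col_XH1 (g (bet T p w))
    (∑ i ∈ T, Function.update w p 1 i • A i (bet T p w)) k₁ (finProdFinEquiv (k₁, k₂))
  have hμ0 : μ ≠ 0 := by
    rintro rfl
    exact hk ((proj_diag h0 _).1 ((congrFun hμ k₂).trans (zero_mul _)))
  have e2 : ∀ j ∈ T, Λ (bet T p w) (R (proj (segC g T A p w))) j =
      μ * Function.update w p 1 j := fun j hj => by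
    rw [show R (proj (segC g T A p w)) = _ from hμ, map_smul, Pi.smul_apply,
      hΛ'.self_of_nhds.2 _ j hj, smul_eq_mul]
  have t5 : Tendsto (fun x => d x p) l (𝓝 μ) := by
    have := tendsto_pi_nhds.1 t4 p
    rwa [e2 p hp, Function.update_self, mul_one] at this
  refine ⟨fun x i => if i ∈ T.erase p then d x i / d x p else ι (ptr M q x) i,
    tendsto_pi_nhds.2 fun i => ?_, ?_⟩
  · by_cases hi : i ∈ T.erase p
    · simp only [if_pos hi]
      obtain ⟨hip, hi⟩ := Finset.mem_erase.1 hi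
      have := (tendsto_pi_nhds.1 t4 i).div t5 hμ0
      rwa [e2 i hi, Function.update_of_ne hip, mul_div_cancel_left₀ _ hμ0] at this
    · simp only [if_neg hi]
      have := tendsto_pi_nhds.1 t3 i
      rwa [show bet T p w i = w i from if_neg hi] at this
  · filter_upwards [l2, e1, t3.eventually (h.fib hD), t3.eventually hΛ', t5.eventually_ne hμ0]
      with x a b c e f
    obtain ⟨c, -, hc, hx⟩ := c x a b.symm
    obtain ⟨ν, hν⟩ := col_XH1 (g (ι (ptr M q x))) (∑ i ∈ T, c i • A i (ι (ptr M q x))) k₁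
      (finProdFinEquiv (k₁, k₂))
    have e3 : ∀ j ∈ T, d x j = ν * c j := fun j hj => by
      have e4 : R x = ν • ∑ i ∈ T, c i • A i (ι (ptr M q x)) := (congrArg R hx).trans hν
      change Λ (ι (ptr M q x)) (R x) j = _
      rw [e4, map_smul, Pi.smul_apply, smul_eq_mul]
      exact congrArg (ν * ·) (e.2 c j hj)
    rw [e3 p hp] at f
    refine (pnt_XH1 g A (right_ne_zero_of_mul f) (fun i hi => hc i hi p hp) (fun i hi => ?_)
      fun i hi => if_neg hi).2.trans hx.symm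
    rw [if_pos hi, e3 p hp, e3 i (Finset.mem_of_mem_erase hi),
      mul_div_mul_left _ _ (left_ne_zero_of_mul f)]

theorem SegL.chart (h : SegL X C H g (bet T p w) T A) (hD : SegD n X C H) (hp : p ∈ T) :
    Pt (closure (gph X C H)) (proj ∘ segC g T A p) w (proj (segC g T A p w)) ∧
      ptr M q ∘ proj ∘ segC g T A p =ᶠ[𝓝 w] (proj ∘ g) ∘ bet T p := by
  have h0 : segC g T A p w ≠ 0 := tens_ne h.ne (ne_XH1 h hp)
  refine ⟨pt_of_imm (an_XH1 h) h0 (imm_XH1 h hp) (le_antisymm ?_ ?_), ?_⟩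
  · exact tendsto_nhdsWithin_iff.2
      ⟨(cont_proj h0).tendsto.comp (an_XH1 h).continuousAt, mem_XH1 h hp⟩
  · obtain ⟨Y, h1, h2⟩ := inv_XH1 h hD hp
    exact ((tendsto_map (f := proj ∘ segC g T A p)).comp h1).congr' (f₂ := id) h2
  · filter_upwards [(anS_XH1 h.anA).continuousAt.eventually_ne (ne_XH1 h hp)] with y hy
    exact ptr_tens hy

theorem SegD.on (h : SegD n X C H) {x : Amb (M * q)} (hx : x ∈ closure (gph X C H))
    (hC : ptr M q x ∈ C) {φ : E n → Amb M} (hp : Pt X φ z (ptr M q x)) (hs : Sub C φ z T) :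
    ∃ φ' w p, p ∈ T ∧ w p = 0 ∧ bet T p w = z ∧ Pt (closure (gph X C H)) φ' w x ∧
      ptr M q ∘ φ' =ᶠ[𝓝 w] φ ∘ bet T p := by
  obtain ⟨g, A, rfl, hL⟩ := h.exists_loc hp hC hs
  obtain ⟨c, ⟨p, hpT, hc⟩, hc', hx'⟩ := (hL.fib h).self_of_nhds x hx hp.eq.symm
  obtain ⟨e1, e2⟩ := pnt_XH1 g A (y := fun i => if i ∈ T.erase p then c i / c p else z i) hc
    (fun i hi => hc' i hi p hpT) (fun i hi => if_pos hi) fun i hi => if_neg hi
  rw [← e1] at hL
  obtain ⟨h1, h2⟩ := hL.chart h hpT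
  exact ⟨_, _, p, hpT, (bet_zero hpT).1 hL.zero, e1, (e2.trans hx'.symm) ▸ h1, h2⟩

/-- blow-ups exist -/
theorem blx (n : ℕ) : BLX n := by
  intro S C hC
  obtain ⟨e, he⟩ := hC.mf
  obtain ⟨q, H, h⟩ := exists_segD S.mf he hC.sub hC.rl
  exact bl_of_pre hC ⟨h.compact, h.cjX S.cjX hC.rl, cont_ptr, h.maps, ptr_cj, h.inj, h.surj,
    fun _ hx hc _ _ hp => h.off hx hc hp, fun _ hx hc _ _ _ hp hs => h.on hx hc hp hs⟩

end Pool.Agent.HIR
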