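import Pool.Agent.P.MP_65ad7c_ag.XA0

open Set Filter Topology Asymptotics
open scoped ComplexConjugate

noncomputable section
namespace Pool.Agent.HIR

variable {V : Type} [NormedAddCommGroup V] [NormedSpace ℂ V] [FiniteDimensional ℂ V]

theorem diter_XA1 {f : V → ℂ} {U : Set V} (hU : IsOpen U) (hf : DifferentiableOn ℂ f U) (n : ℕ)
    {z : V} (hz : z ∈ U) : DifferentiableAt ℂ (iteratedFDeriv ℂ n f) z :=
  ((Pool.Agent.Lib.SCV.contDiffOn_nat hU (n + 1) f hf).contDiffAt
    (hU.mem_nhds hz)).differentiableAt_iteratedFDeriv (by exact_mod_cast Nat.lt_succ_self n)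

theorem cauchy_XA1 {f : V → ℂ} {U : Set V} (hU : IsOpen U) (hf : DifferentiableOn ℂ f U) {M r : ℝ}
    (hr : 0 < r) (n : ℕ) : ∀ y : V, (∀ z ∈ Metric.closedBall y (n * r), z ∈ U ∧ ‖f z‖ ≤ M) →
      ‖iteratedFDeriv ℂ n f y‖ ≤ M / r ^ n := by
  induction n with
  | zero =>
    intro y h
    simpa using (h y (by simp)).2
  | succ n ih =>
    intro y h
    have hn : (0 : ℝ) ≤ n * r := by positivity
    have hc : ((n + 1 : ℕ) : ℝ) * r = n * r + r := by push_cast; ring
    rw [hc] at h
    have hy := h y (Metric.mem_closedBall_self (by linarith))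
    have hM : 0 ≤ M := (norm_nonneg _).trans hy.2
    refine ContinuousMultilinearMap.opNorm_le_bound (by positivity) fun m => ?_
    rw [(diter_XA1 hU hf n hy.1).iteratedFDeriv_succ_apply_left']
    have hd : DifferentiableOn ℂ (fun z => iteratedFDeriv ℂ n f z (Fin.tail m))
        (Metric.closedBall y r) := by
      intro z hz
      have hzU := (h z (Metric.closedBall_subset_closedBall (by linarith) hz)).1
      exact ((diter_XA1 hU hf n hzU).continuousMultilinear_apply_const _).differentiableWithinAt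
    have hb : ∀ z ∈ Metric.closedBall y r,
        ‖iteratedFDeriv ℂ n f z (Fin.tail m)‖ ≤ M / r ^ n * ∏ i, ‖Fin.tail m i‖ := by
      intro z hz
      refine ContinuousMultilinearMap.le_of_opNorm_le (ih z fun w hw => h w ?_) _
      rw [Metric.mem_closedBall] at *
      linarith [dist_triangle w z y]
    have h1 := Pool.Agent.Lib.SCV.norm_fderiv_le hr hd hb
    refine ((ContinuousLinearMap.le_opNorm _ _).trans
      (mul_le_mul_of_nonneg_right h1 (norm_nonneg _))).trans (le_of_eq ?_)
    rw [Fin.prod_univ_succ, pow_succ]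
    simp only [Fin.tail]
    field_simp

theorem line_XA1 {f : V → ℂ} {U : Set V} (hU : IsOpen U) (hf : DifferentiableOn ℂ f U) (x y : V)
    (n : ℕ) : ∀ t : ℂ, x + t • y ∈ U →
      iteratedDeriv n (fun s : ℂ => f (x + s • y)) t = iteratedFDeriv ℂ n f (x + t • y) fun _ => y := by
  induction n with
  | zero =>
    intro t _
    simp
  | succ n ih =>
    intro t ht
    have hcont : Continuous fun s : ℂ => x + s • y := by fun_prop
    have hev : iteratedDeriv n (fun s : ℂ => f (x + s • y)) =ᶠ[𝓝 t]
        fun s => iteratedFDeriv ℂ n f (x + s • y) fun _ => y := by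
      filter_upwards [(hU.preimage hcont).mem_nhds ht] with s hs using ih s hs
    have hD := diter_XA1 hU hf n ht
    rw [iteratedDeriv_succ, hev.deriv_eq, hD.iteratedFDeriv_succ_apply_left']
    have h1 : HasDerivAt (fun s : ℂ => x + s • y) y t := by
      simpa using ((hasDerivAt_id t).smul_const y).const_add x
    exact ((hD.continuousMultilinear_apply_const fun _ => y).hasFDerivAt.comp_hasDerivAt t h1).deriv

theorem osg {f : V → ℂ} {x : V} {R : ℝ} (hR : 0 < R) (hf : DifferentiableOn ℂ f (Metric.ball x R)) :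
    ∃ p : FormalMultilinearSeries ℂ V ℂ, HasFPowerSeriesOnBall f p x (ENNReal.ofReal (R / 6)) := by
  have : ProperSpace V := FiniteDimensional.proper ℂ V
  have hsub : Metric.closedBall x (R / 2) ⊆ Metric.ball x R :=
    Metric.closedBall_subset_ball (by linarith)
  obtain ⟨M, hM⟩ := (isCompact_closedBall x (R / 2)).exists_bound_of_continuousOn
    (hf.continuousOn.mono hsub)
  have hM0 : 0 ≤ M := (norm_nonneg _).trans (hM x (Metric.mem_closedBall_self (by linarith)))
  refine ⟨fun n => ((n.factorial : ℂ)⁻¹) • iteratedFDeriv ℂ n f x, ?_, ?_, ?_⟩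
  · refine FormalMultilinearSeries.le_radius_of_bound _ M (r := (R / 6).toNNReal) fun n => ?_
    rw [Real.coe_toNNReal _ (by linarith), norm_smul, norm_inv, Complex.norm_natCast]
    rcases Nat.eq_zero_or_pos n with rfl | hn
    · simpa using hM x (Metric.mem_closedBall_self (by linarith))
    have hn' : (0 : ℝ) < n := by exact_mod_cast hn
    have h1 := cauchy_XA1 Metric.isOpen_ball hf (M := M) (r := R / 2 / n) (by positivity) n x
      (fun z hz => by
        rw [mul_div_cancel₀ _ hn'.ne'] at hz
        exact ⟨hsub hz, hM z hz⟩)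
    have h2 : (n : ℝ) ^ n / n.factorial ≤ 3 ^ n := by
      refine (Real.pow_div_factorial_le_exp (n : ℝ) hn'.le n).trans ?_
      rw [← Real.exp_one_pow]
      exact pow_le_pow_left₀ (Real.exp_pos 1).le Real.exp_one_lt_three.le n
    have hfac : (0 : ℝ) < n.factorial := by exact_mod_cast n.factorial_pos
    have h3 : (n.factorial : ℝ)⁻¹ * (M / (R / 2 / n) ^ n) * (R / 6) ^ n
        = M * ((n : ℝ) ^ n / n.factorial / 3 ^ n) := by
      have e : R / 6 = R / 2 / n * (n / 3) := by field_simp; norm_num
      rw [e, mul_pow, div_pow (n : ℝ) 3]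
      field_simp
    calc (n.factorial : ℝ)⁻¹ * ‖iteratedFDeriv ℂ n f x‖ * (R / 6) ^ n
        ≤ (n.factorial : ℝ)⁻¹ * (M / (R / 2 / n) ^ n) * (R / 6) ^ n := by gcongr
      _ = M * ((n : ℝ) ^ n / n.factorial / 3 ^ n) := h3
      _ ≤ M * 1 := by
        refine mul_le_mul_of_nonneg_left ?_ hM0
        rw [div_le_one (by positivity)]
        exact h2
      _ = M := mul_one M
  · exact ENNReal.ofReal_pos.mpr (by linarith)
  · intro y hy
    rw [Metric.eball_ofReal, mem_ball_zero_iff] at hy
    have hd : DifferentiableOn ℂ (fun s : ℂ => f (x + s • y)) (Metric.ball 0 2) := by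
      refine hf.comp (f := fun s : ℂ => x + s • y) (by fun_prop) fun s hs => ?_
      rw [mem_ball_zero_iff] at hs
      rw [Metric.mem_ball, dist_eq_norm, add_sub_cancel_left, norm_smul]
      nlinarith [norm_nonneg s, norm_nonneg y]
    have h1 := Complex.hasSum_taylorSeries_on_ball hd (z := 1) (by simp)
    have h2 : ∀ n, iteratedDeriv n (fun s : ℂ => f (x + s • y)) 0
        = iteratedFDeriv ℂ n f x fun _ => y := fun n => by
      simpa using line_XA1 Metric.isOpen_ball hf x y n 0 (by simpa using hR)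
    simpa [h2] using h1

theorem an_of_diffOn {f : V → ℂ} {U : Set V} (hU : IsOpen U) (hf : DifferentiableOn ℂ f U) :
    AnalyticOnNhd ℂ f U := by
  intro x hx
  obtain ⟨R, hR, hsub⟩ := Metric.isOpen_iff.mp hU x hx
  obtain ⟨p, hp⟩ := osg hR (hf.mono hsub)
  exact hp.analyticAt

theorem an_of_diffOn_pi {ι : Type} [Fintype ι] {f : V → ι → ℂ} {U : Set V} (hU : IsOpen U)
    (hf : DifferentiableOn ℂ f U) : AnalyticOnNhd ℂ f U := by
  intro x hx
  exact analyticAt_pi_iff.mpr fun i => an_of_diffOn hU (differentiableOn_pi.mp hf i) x hx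

theorem an_of_ev {f : V → ℂ} {x : V} (hf : ∀ᶠ y in 𝓝 x, DifferentiableAt ℂ f y) :
    AnalyticAt ℂ f x := by
  obtain ⟨U, hU, hUo, hx⟩ := eventually_nhds_iff.mp hf
  exact an_of_diffOn hUo (fun y hy => (hU y hy).differentiableWithinAt) x hx

end Pool.Agent.HIR
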