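import Pool.Agent.P.MP_65ad7c_ag.XG0
import Pool.Agent.P.MP_65ad7c_ag.XA1

open Set Filter Topology Asymptotics
open scoped ComplexConjugate
open Pool.Agent.HT (Amb proj cj IsChart IsSNC)

noncomputable section
namespace Pool.Agent.HIR

variable {N : ℕ}

theorem ev_smul {P : MvPolynomial (Fin N) ℂ} {k : ℕ} (h : P.IsHomogeneous k) (c : ℂ)
    (v : Fin N → ℂ) : ev P (c • v) = c ^ k * ev P v := by
  rw [ev, ev, MvPolynomial.eval_eq, MvPolynomial.eval_eq, Finset.mul_sum]
  refine Finset.sum_congr rfl fun s hs => ?_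
  simp only [Pi.smul_apply, smul_eq_mul, mul_pow, Finset.prod_mul_distrib,
    Finset.prod_pow_eq_pow_sum, ← h.degree_eq_sum_deg_support hs]
  ring

theorem an_ev (P : MvPolynomial (Fin N) ℂ) (v : Fin N → ℂ) : AnalyticAt ℂ (ev P) v := by
  induction P using MvPolynomial.induction_on with
  | C a =>
    have h : ev (MvPolynomial.C a : MvPolynomial (Fin N) ℂ) = fun _ => a := by
      funext w
      simp [ev]
    rw [h]
    exact analyticAt_const
  | add p q hp hq =>
    have h : ev (p + q) = fun w => ev p w + ev q w := by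
      funext w
      simp [ev]
    rw [h]
    exact hp.add hq
  | mul_X p j hp =>
    have h : ev (p * MvPolynomial.X j) = fun w => ev p w * w j := by
      funext w
      simp [ev]
    rw [h]
    exact hp.mul ((ContinuousLinearMap.proj j : (Fin N → ℂ) →L[ℂ] ℂ).analyticAt v)

theorem fderiv_ev_smul {P : MvPolynomial (Fin N) ℂ} {k : ℕ} (h : P.IsHomogeneous k) {c : ℂ}
    (hc : c ≠ 0) (v ξ : Fin N → ℂ) :
    fderiv ℂ (ev P) (c • v) ξ = 0 ↔ fderiv ℂ (ev P) v ξ = 0 := by
  have h1 : HasFDerivAt (fun w : Fin N → ℂ => ev P (c • w))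
      ((fderiv ℂ (ev P) (c • v)).comp (c • ContinuousLinearMap.id ℂ (Fin N → ℂ))) v :=
    (an_ev P (c • v)).differentiableAt.hasFDerivAt.comp v ((hasFDerivAt_id v).const_smul c)
  have h2 : HasFDerivAt (fun w : Fin N → ℂ => ev P (c • w)) (c ^ k • fderiv ℂ (ev P) v) v := by
    have h3 : (fun w : Fin N → ℂ => ev P (c • w)) = fun w => c ^ k • ev P w :=
      funext fun w => ev_smul h c w
    rw [h3]
    exact (an_ev P v).differentiableAt.hasFDerivAt.const_smul (c ^ k)
  have h4 : c * fderiv ℂ (ev P) (c • v) ξ = c ^ k * fderiv ℂ (ev P) v ξ := by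
    simpa using DFunLike.congr_fun (h1.unique h2) ξ
  constructor
  · intro h0
    rw [h0, mul_zero] at h4
    exact (mul_eq_zero.1 h4.symm).resolve_left (pow_ne_zero k hc)
  · intro h0
    rw [h0, mul_zero] at h4
    exact (mul_eq_zero.1 h4).resolve_left hc

theorem poly_XG2 {k : ℕ} (m : ContinuousMultilinearMap ℂ (fun _ : Fin k => Fin N → ℂ) ℂ) :
    ∃ P : MvPolynomial (Fin N) ℂ, P.IsHomogeneous k ∧ ∀ v, ev P v = m fun _ => v := by
  classical
  refine ⟨∑ σ : Fin k → Fin N, MvPolynomial.C (m fun i => Pi.single (σ i) 1) *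
    ∏ i, MvPolynomial.X (σ i), MvPolynomial.IsHomogeneous.sum _ _ _ fun σ _ => ?_, fun v => ?_⟩
  · have h1 := MvPolynomial.IsHomogeneous.prod (Finset.univ : Finset (Fin k))
      (fun i => (MvPolynomial.X (σ i) : MvPolynomial (Fin N) ℂ)) (fun _ => 1)
      (fun i _ => MvPolynomial.isHomogeneous_X ℂ (σ i))
    simpa using h1.C_mul (m fun i => Pi.single (σ i) 1)
  · have h1 : (fun _ : Fin k => v) = fun _ => ∑ j, v j • (Pi.single j 1 : Fin N → ℂ) := by
      funext _ l
      simp [Finset.sum_apply, Pi.single_apply]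
    rw [h1, m.map_sum]
    simp only [ev, map_sum, map_mul, map_prod, MvPolynomial.eval_C, MvPolynomial.eval_X]
    refine Finset.sum_congr rfl fun σ _ => ?_
    rw [m.map_smul_univ, smul_eq_mul, mul_comm]

theorem line_XG2 {g : (Fin N → ℂ) → ℂ} {v : Fin N → ℂ} (hg : DifferentiableAt ℂ g v)
    (ξ : Fin N → ℂ) : deriv (fun t : ℂ => g (v + t • ξ)) 0 = fderiv ℂ g v ξ := by
  have h1 : HasDerivAt (fun t : ℂ => v + t • ξ) ξ 0 := by
    simpa using ((hasDerivAt_id (0 : ℂ)).smul_const ξ).const_add v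
  have h2 : HasFDerivAt g (fderiv ℂ g v) (v + (0 : ℂ) • ξ) := by
    simpa using hg.hasFDerivAt
  exact (h2.comp_hasDerivAt (0 : ℂ) h1).deriv

/-- the homogeneous parts of a holomorphic function -/
theorem homp {f : (Fin N → ℂ) → ℂ} {R : ℝ} (hR : 0 < R)
    (hf : DifferentiableOn ℂ f (Metric.ball 0 R)) :
    ∃ P : ℕ → MvPolynomial (Fin N) ℂ, (∀ k, (P k).IsHomogeneous k) ∧
      (∀ u, (∀ᶠ t : ℂ in 𝓝[≠] 0, f (t • u) = 0) → ∀ k, ev (P k) u = 0) ∧
      ∀ v ∈ Metric.ball (0 : Fin N → ℂ) (R / 6), (f v ≠ 0 → ∃ k, ev (P k) v ≠ 0) ∧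
        ∀ ξ, fderiv ℂ f v ξ ≠ 0 → ∃ k, fderiv ℂ (ev (P k)) v ξ ≠ 0 := by
  obtain ⟨p, hp⟩ := osg hR hf
  choose P hP hev using fun k => poly_XG2 (p k)
  refine ⟨P, hP, fun u hu k => ?_, fun v hv => ?_⟩
  · let L : ℂ →L[ℂ] (Fin N → ℂ) := ContinuousLinearMap.toSpanSingleton ℂ u
    have h1 : HasFPowerSeriesAt f p (L 0) := by
      rw [map_zero]
      exact hp.hasFPowerSeriesAt
    have h2 := h1.compContinuousLinearMap
    have h3 : f ∘ L =ᶠ[𝓝[≠] 0] 0 := hu
    have h4 : (f ∘ L) 0 = 0 := tendsto_nhds_unique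
      (h2.continuousAt.tendsto.mono_left nhdsWithin_le_nhds)
      (tendsto_const_nhds.congr' h3.symm)
    have h5 : f ∘ L =ᶠ[𝓝 0] 0 := by
      rw [← nhdsNE_sup_pure (0 : ℂ)]
      exact eventually_sup.2 ⟨h3, h4⟩
    have h6 := (h2.congr h5).apply_eq_zero k 1
    rw [FormalMultilinearSeries.compContinuousLinearMap_apply] at h6
    rw [hev, ← h6]
    exact congrArg (p k) (funext fun _ => (one_smul ℂ u).symm)
  have hv' : v ∈ Metric.eball (0 : Fin N → ℂ) (ENNReal.ofReal (R / 6)) := by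
    rwa [Metric.eball_ofReal]
  refine ⟨fun h => ?_, fun ξ h => ?_⟩
  · by_contra hn
    push Not at hn
    have h1 := hp.hasSum hv'
    simp only [← hev, hn, zero_add] at h1
    exact h (h1.unique hasSum_zero)
  · by_contra hn
    push Not at hn
    have hc : Continuous fun t : ℂ => v + t • ξ := by fun_prop
    have hU : IsOpen ((fun t : ℂ => v + t • ξ) ⁻¹'
        Metric.eball (0 : Fin N → ℂ) (ENNReal.ofReal (R / 6))) := Metric.isOpen_eball.preimage hc
    have hs : ∀ n, (fun y => p.partialSum n y) = fun y => ∑ k ∈ Finset.range n, ev (P k) y :=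
      fun n => funext fun y => by simp only [FormalMultilinearSeries.partialSum, hev]
    have hd : ∀ n y, DifferentiableAt ℂ (fun y => p.partialSum n y) y := fun n y => by
      rw [hs]
      exact DifferentiableAt.fun_sum fun k _ => (an_ev (P k) y).differentiableAt
    have h1 := (hp.tendstoLocallyUniformlyOn.comp (fun t : ℂ => v + t • ξ) (mapsTo_preimage _ _)
      hc.continuousOn).deriv (Eventually.of_forall fun n t _ =>
        ((hd n _).comp t (by fun_prop)).differentiableWithinAt) hU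
    have h2 := h1.tendsto_at (a := 0) (by simpa using hv')
    have h3 : ∀ n, deriv ((fun y => p.partialSum n y) ∘ fun t : ℂ => v + t • ξ) 0 = 0 := fun n => by
      have h4 := line_XG2 (hd n v) ξ
      rw [Function.comp_def, h4, hs, fderiv_fun_sum fun k _ => (an_ev (P k) v).differentiableAt]
      simp [hn]
    have h5 : deriv ((fun y => f (0 + y)) ∘ fun t : ℂ => v + t • ξ) 0 = fderiv ℂ f v ξ := by
      have h6 := line_XG2 (hp.analyticOnNhd v hv').differentiableAt ξ
      simpa [Function.comp_def] using h6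
    simp only [Function.comp_apply, h3, h5] at h2
    exact h (tendsto_nhds_unique h2 tendsto_const_nhds)

end Pool.Agent.HIR
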