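import Pool.Agent.P.MP_65ad7c_ag.XG1
import Pool.Agent.P.MP_65ad7c_ag.XG2
import Pool.Agent.P.MP_65ad7c_ag.XE7
import Pool.Agent.P.MP_65ad7c_ag.VDim

open Set Filter Topology Asymptotics
open scoped ComplexConjugate
open Pool.Agent.HT (Amb proj cj IsChart IsSNC)
open Pool.Agent.PWV (ZC ZI Dim)

noncomputable section
namespace Pool.Agent.HIR

variable {n M N : ℕ}

/-- the affine chart of projective space -/
def aff (y : Fin N → ℂ) : Amb (N + 1) := proj (Fin.cons 1 y)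

/-- affine coordinates -/
def deh (x : Amb (N + 1)) : Fin N → ℂ := fun j => x (j.succ, 0) / x (0, 0)

/-- projective space -/
def Prj (N : ℕ) : Set (Amb N) := {x | ∃ v, v ≠ 0 ∧ proj v = x}

/-- common zeros of homogeneous polynomials -/
def Zs (𝒬 : Set (MvPolynomial (Fin N) ℂ)) : Set (Amb N) :=
  {x | ∀ P ∈ 𝒬, ∀ i, ev P (fun k => x (k, i)) = 0}

/-- the normalised column -/
def nrm (i : Fin N) (x : Amb N) : Fin N → ℂ := (x (i, i))⁻¹ • fun k => x (k, i)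

/-- the algebra generated in weight one by the pull-backs of homogeneous polynomials -/
def pol (n : ℕ) (X : Set (Amb M)) (ph : Amb M → Amb N) (𝒬 : Set (MvPolynomial (Fin N) ℂ)) :
    Alg M := fun x =>
  In (𝓝[X] x) (Hol n X x)
    {q | q.1 = 1 ∧ ∃ P ∈ 𝒬, ∃ i, ph x (i, i) ≠ 0 ∧ q.2 = fun y => ev P (nrm i (ph y))}

/-- real homogeneous polynomials -/
structure RH (P : MvPolynomial (Fin N) ℂ) : Prop where
  hom : ∃ k, P.IsHomogeneous k
  rl : ∀ v, ev P (star v) = conj (ev P v)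

/-- `H` does not vanish on `Y` -/
def NV (Y : Set (Fin N → ℂ)) (H : MvPolynomial (Fin (N + 1)) ℂ) : Prop :=
  ∃ y ∈ Y, ev H (Fin.cons 1 y) ≠ 0

/-- the affine points where `H` does not vanish -/
def Wo (H : MvPolynomial (Fin (N + 1)) ℂ) : Set (Amb (N + 1)) :=
  {x | x (0, 0) ≠ 0 ∧ ev H (Fin.cons 1 (deh x)) ≠ 0}

/-- `ph` is a modification of the projective closure of `Y`, bijective where `H` is not zero -/
structure Md (n : ℕ) (X : Set (Amb M)) (ph : Amb M → Amb (N + 1)) (Y : Set (Fin N → ℂ))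
    (H : MvPolynomial (Fin (N + 1)) ℂ) : Prop where
  hol : HolP n X ph
  rl : ∀ x, ph (cj M x) = cj (N + 1) (ph x)
  im : ∀ x ∈ X, ph x (0, 0) ≠ 0 → deh (ph x) ∈ Y
  surj : ∀ y ∈ Y, ∃ x ∈ X, ph x = aff y
  inj : InjOn ph (X ∩ ph ⁻¹' Wo H)
  dense : X ⊆ closure (X ∩ ph ⁻¹' Wo H)

/-- the invariant of the embedded resolution -/
structure RI (S : Sp n) (G : Alg S.M) (ph : Amb S.M → Amb (N + 1)) (Y : Set (Fin N → ℂ))
    (H₀ H : MvPolynomial (Fin (N + 1)) ℂ) : Prop where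
  good : Good S G 1
  hol : HolP n S.X ph
  rl : ∀ x, ph (cj S.M x) = cj (N + 1) (ph x)
  rh : RH H
  nv : NV Y H
  dvd : ∀ v, ev H₀ v = 0 → ev H v = 0
  inj : InjOn ph (S.X ∩ ph ⁻¹' Wo H)
  imm : ∀ x ∈ S.X, ph x ∈ Wo H → ImmP n S.X ph x
  sur : ∀ y ∈ Y, aff y ∈ Wo H → ∃ x ∈ Sg S G, ph x = aff y
  ovr : ∀ x ∈ Sg S G, ph x (0, 0) ≠ 0 → deh (ph x) ∈ Y

/-- `A` is locally a union of divisors -/
def LocU (S : Sp n) (A : Set (Amb S.M)) : Prop :=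
  ∀ x ∈ S.X, ∃ J : Set ℕ, ∀ᶠ y in 𝓝[S.X] x, y ∈ A ↔ ∃ j ∈ J, y ∈ S.D j

/-- hyperplane sections -/
def hyp (X : Set (Amb M)) (ph : Amb M → Amb N) (c : Fin N → ℂ) : Set (Amb M) :=
  {x | x ∈ X ∧ ∀ k, ∑ j, c j * ph x (j, k) = 0}

/-- the hyperplane section is transverse to the divisors -/
def Tv (S : Sp n) (ph : Amb S.M → Amb N) (c : Fin N → ℂ) : Prop :=
  ∀ x ∈ hyp S.X ph c, ∃ (φ : E n → Amb S.M) (z : E n) (l : Fin n), Pt S.X φ z x ∧
    Co (hyp S.X ph c) φ z l ∧ ∀ j, x ∈ S.D j → ∃ i, i ≠ l ∧ Co (S.D j) φ z i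

/-- another normal crossing divisor on the same manifold -/
structure DivOK (S : Sp n) (D : ℕ → Set (Amb S.M)) (r : ℕ) : Prop where
  snc : IsSNC n S.X D
  fin : ∀ j, r ≤ j → D j = ∅
  cjD : ∀ j, MapsTo (cj S.M) (D j) (D j)

/-- the manifold with the other divisor -/
@[reducible] def DivOK.sp {S : Sp n} {D : ℕ → Set (Amb S.M)} {r : ℕ} (h : DivOK S D r) : Sp n :=
  ⟨S.M, S.X, D, r, h.snc, h.fin, S.cjX, h.cjD⟩

end Pool.Agent.HIR
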