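import Pool.Agent.P.MP_65ad7c_ag.XI0

open Set Filter Topology Asymptotics
open scoped ComplexConjugate
open Pool.Agent.HT (Amb proj cj IsChart IsSNC)
open Pool.Agent.PWV (ZC ZI Dim)

noncomputable section
namespace Pool.Agent.HIR

variable {n M N : ℕ} {v : Fin (N + 1) → ℂ} {y : Fin N → ℂ} {x : Amb (N + 1)}
  {H : MvPolynomial (Fin (N + 1)) ℂ}

theorem cj_apply (x : Amb M) (p : Fin M × Fin M) : cj M x p = conj (x p) := by
  rfl

theorem cons_ne (y : Fin N → ℂ) : (Fin.cons 1 y : Fin (N + 1) → ℂ) ≠ 0 := by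
  intro h
  simpa using congr_fun h 0

theorem aff_zero (y : Fin N → ℂ) : aff y (0, 0) ≠ 0 := by
  rw [aff, Ne, proj_diag (cons_ne y)]
  simp

theorem deh_proj (hv : v 0 ≠ 0) : deh (proj v) = fun j => v j.succ / v 0 := by
  funext j
  have h := congr_fun (col_proj_XE2 hv) j.succ
  simp only [col_XE2, Pi.smul_apply, smul_eq_mul] at h
  rw [deh, div_eq_inv_mul, div_eq_inv_mul, h]

theorem deh_aff (y : Fin N → ℂ) : deh (aff y) = y := by
  rw [aff, deh_proj (by simp)]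
  funext j
  simp

theorem cons_deh (hv : v 0 ≠ 0) :
    (Fin.cons 1 (deh (proj v)) : Fin (N + 1) → ℂ) = (v 0)⁻¹ • v := by
  rw [deh_proj hv]
  funext j
  refine Fin.cases ?_ (fun j => ?_) j
  · simp [hv]
  · simp [div_eq_inv_mul]

theorem aff_deh (hx : x ∈ Prj (N + 1)) (h : x (0, 0) ≠ 0) : aff (deh x) = x := by
  obtain ⟨v, hv, rfl⟩ := hx
  have h0 : v 0 ≠ 0 := fun e => h ((proj_diag hv 0).2 e)
  rw [aff, cons_deh h0, proj_smul (inv_ne_zero h0)]

theorem deh_cj (x : Amb (N + 1)) : deh (cj (N + 1) x) = star (deh x) := by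
  funext j
  simp [deh, cj_apply]

theorem star_cons_XI1 (y : Fin N → ℂ) :
    star (Fin.cons 1 y : Fin (N + 1) → ℂ) = Fin.cons 1 (star y) := by
  funext j
  refine Fin.cases ?_ (fun j => ?_) j <;> simp

theorem cj_aff (y : Fin N → ℂ) : cj (N + 1) (aff y) = aff (star y) := by
  rw [aff, aff, cj_proj, star_cons_XI1]

theorem cont_deh (h : x (0, 0) ≠ 0) : ContinuousAt deh x := by
  have h1 : ∀ p : Fin (N + 1) × Fin (N + 1), Continuous fun y : Amb (N + 1) => y p :=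
    fun p => by fun_prop
  exact continuousAt_pi.2 fun j => (h1 _).continuousAt.div (h1 _).continuousAt h

theorem isOpen_Wo (H : MvPolynomial (Fin (N + 1)) ℂ) : IsOpen (Wo H) := by
  refine isOpen_iff_mem_nhds.2 fun x hx => ?_
  have h1 : Continuous fun y : Amb (N + 1) => y (0, 0) := by fun_prop
  have h2 : Continuous fun y : Fin N → ℂ => ev H (Fin.cons 1 y) := by
    refine (MvPolynomial.continuous_eval H).comp (continuous_pi fun j => ?_)
    refine Fin.cases ?_ (fun j => ?_) j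
    · simpa using continuous_const
    · simpa using continuous_apply j
  exact (h1.continuousAt.eventually_ne hx.1).and
    ((h2.continuousAt.comp (cont_deh hx.1)).eventually_ne hx.2)

theorem cj_Wo (h : RH H) : cj (N + 1) x ∈ Wo H ↔ x ∈ Wo H := by
  simp only [Wo, mem_ofPred_eq]
  rw [cj_apply, deh_cj, ← star_cons_XI1, h.rl, map_ne_zero, map_ne_zero]

theorem aff_Wo : aff y ∈ Wo H ↔ ev H (Fin.cons 1 y) ≠ 0 := by
  simp only [Wo, mem_ofPred_eq]
  rw [deh_aff, and_iff_right (aff_zero y)]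

theorem proj_Wo {k : ℕ} (h : H.IsHomogeneous k) (hv : v ≠ 0) :
    proj v ∈ Wo H ↔ v 0 ≠ 0 ∧ ev H v ≠ 0 := by
  simp only [Wo, mem_ofPred_eq]
  rw [Ne, proj_diag hv]
  refine and_congr_right fun h0 => ?_
  rw [cons_deh h0, ev_smul h, mul_ne_zero_iff, and_iff_right (pow_ne_zero _ (inv_ne_zero h0))]

theorem proj_Zs {𝒬 : Set (MvPolynomial (Fin M) ℂ)} (h : ∀ P ∈ 𝒬, ∃ k, P.IsHomogeneous k)
    {u : Fin M → ℂ} (hu : u ≠ 0) : proj u ∈ Zs 𝒬 ↔ ∀ P ∈ 𝒬, ev P u = 0 := by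
  simp only [Zs, mem_ofPred_eq]
  refine forall₂_congr fun P hP => ?_
  obtain ⟨k, hk⟩ := h P hP
  simp only [proj_col, ev_smul hk]
  refine ⟨fun h1 => ?_, fun h1 i => by rw [h1, mul_zero]⟩
  obtain ⟨i, hi⟩ : ∃ i, u i ≠ 0 := Function.ne_iff.1 hu
  exact (mul_eq_zero.1 (h1 i)).resolve_left
    (pow_ne_zero _ (div_ne_zero ((map_ne_zero _).2 hi) (sum_ne_XE1 hu)))

theorem Zs_Wo {k : ℕ} (h : H.IsHomogeneous k) : Zs {H} ⊆ (Wo H)ᶜ := by
  intro x hx hw
  have e : (Fin.cons 1 (deh x) : Fin (N + 1) → ℂ) = (x (0, 0))⁻¹ • fun k => x (k, 0) := by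
    funext j
    refine Fin.cases ?_ (fun j => ?_) j
    · simp [hw.1]
    · simp [deh, div_eq_inv_mul]
  exact hw.2 (by rw [e, ev_smul h, hx H rfl 0, mul_zero])

theorem Wo_mul {P : MvPolynomial (Fin (N + 1)) ℂ} : Wo (H * P) = Wo H ∩ Wo P := by
  ext x
  simp only [Wo, ev, mem_ofPred_eq, mem_inter_iff, map_mul, mul_ne_zero_iff]
  tauto

theorem mem_Zs_of {k : ℕ} (h : H.IsHomogeneous k) (hx : x ∈ Prj (N + 1)) (h0 : x (0, 0) ≠ 0)
    (hw : x ∉ Wo H) : x ∈ Zs {H} := by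
  obtain ⟨v, hv, rfl⟩ := hx
  rw [proj_Wo h hv, not_and, not_not] at hw
  refine (proj_Zs (fun P hP => ⟨k, by rwa [hP]⟩) hv).2 fun P hP => ?_
  rw [hP]
  exact hw fun e => h0 ((proj_diag hv 0).2 e)

theorem Zs_X0 (hx : x ∈ Prj (N + 1)) : x ∈ Zs {MvPolynomial.X 0} ↔ x (0, 0) = 0 := by
  obtain ⟨v, hv, rfl⟩ := hx
  rw [proj_Zs (fun P hP => ⟨1, by rw [hP]; exact MvPolynomial.isHomogeneous_X _ _⟩) hv,
    proj_diag hv]
  simp [ev]

theorem nrm_proj {u : Fin M → ℂ} {i : Fin M} (h : u i ≠ 0) : nrm i (proj u) = (u i)⁻¹ • u := by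
  exact col_proj_XE2 h

theorem nrm_cj (i : Fin M) (w : Amb M) : nrm i (cj M w) = star (nrm i w) := by
  funext j
  simp [nrm, cj_apply]

theorem proj_hyp {u : Fin M → ℂ} (hu : u ≠ 0) (c : Fin M → ℂ) :
    (∀ k, ∑ j, c j * proj u (j, k) = 0) ↔ c ⬝ᵥ u = 0 := by
  have e : ∀ k, ∑ j, c j * proj u (j, k) =
      (conj (u k) / ∑ j, u j * conj (u j)) * (c ⬝ᵥ u) := fun k => by
    rw [← smul_eq_mul, ← dotProduct_smul, ← proj_col]
    rfl
  simp only [e]
  refine ⟨fun h1 => ?_, fun h1 i => by rw [h1, mul_zero]⟩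
  obtain ⟨i, hi⟩ : ∃ i, u i ≠ 0 := Function.ne_iff.1 hu
  exact (mul_eq_zero.1 (h1 i)).resolve_left
    (div_ne_zero ((map_ne_zero _).2 hi) (sum_ne_XE1 hu))

theorem compact_XI1 (M : ℕ) : IsCompact (Prj M) := by
  have hne : ∀ v ∈ Metric.sphere (0 : Fin M → ℂ) 1, v ≠ 0 := fun v hv e => by simp [e] at hv
  have : Prj M = proj '' Metric.sphere (0 : Fin M → ℂ) 1 := by
    ext x
    constructor
    · rintro ⟨v, hv, rfl⟩
      have h1 : ‖v‖ ≠ 0 := norm_ne_zero_iff.2 hv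
      have h2 : ((‖v‖ : ℂ))⁻¹ ≠ 0 := inv_ne_zero (Complex.ofReal_ne_zero.2 h1)
      refine ⟨((‖v‖ : ℂ))⁻¹ • v, ?_, proj_smul h2 v⟩
      simp [norm_smul, h1]
    · rintro ⟨v, hv, rfl⟩
      exact ⟨v, hne v hv, rfl⟩
  rw [this]
  exact (isCompact_sphere _ _).image_of_continuousOn
    fun v hv => (cont_proj (hne v hv)).continuousWithinAt

theorem chart_XI1 (i : Fin (N + 1)) : ∃ g : E N → Fin (N + 1) → ℂ,
    IsChart (Prj (N + 1)) univ g ∧ (∀ z, g z i = 1) ∧ ∀ z j, g z (i.succAbove j) = z j := by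
  let L0 : E N →ₗ[ℂ] (Fin (N + 1) → ℂ) :=
    { toFun := fun z => i.insertNth 0 z
      map_add' := fun a b => by
        funext k
        refine i.succAboveCases ?_ (fun j => ?_) k <;> simp
      map_smul' := fun c a => by
        funext k
        refine i.succAboveCases ?_ (fun j => ?_) k <;> simp }
  obtain ⟨L, hL0, hL1⟩ : ∃ L : E N →L[ℂ] (Fin (N + 1) → ℂ), (∀ z, L z i = 0) ∧
      ∀ z j, L z (i.succAbove j) = z j :=
    ⟨LinearMap.toContinuousLinearMap L0, fun z => by simp [L0], fun z j => by simp [L0]⟩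
  obtain ⟨g, hd, h0, h1⟩ : ∃ g : E N → Fin (N + 1) → ℂ, (∀ z, HasFDerivAt g L z) ∧
      (∀ z, g z i = 1) ∧ ∀ z j, g z (i.succAbove j) = z j :=
    ⟨fun z => Pi.single i 1 + L z, fun z => L.hasFDerivAt.const_add _, fun z => by simp [hL0],
      fun z j => by simp [hL1]⟩
  have hi : ∀ z, g z i ≠ 0 := fun z => by rw [h0]; exact one_ne_zero
  have hne : ∀ z, g z ≠ 0 := fun z e => hi z (by rw [e]; rfl)
  have hl : ∀ z, (fun j => col_XE2 i (proj (g z)) (i.succAbove j)) = z := fun z => by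
    funext j
    rw [col_proj_XE2 (hi z), h0, inv_one, one_smul, h1]
  refine ⟨g, ⟨isOpen_univ, fun z _ => (hd z).differentiableAt.differentiableWithinAt,
    fun z _ => hne z, fun z _ v c h => ?_, fun a _ b _ h => ?_, fun O _ hO => ?_⟩, h0, h1⟩
  · rw [(hd z).fderiv] at h
    have hc := congr_fun h i
    rw [hL0, Pi.smul_apply, h0, smul_eq_mul, mul_one] at hc
    funext j
    rw [← hL1 v j, h, ← hc, zero_smul]
    rfl
  · rw [← hl a, ← hl b]
    exact congrArg (fun x => fun j => col_XE2 i x (i.succAbove j)) h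
  · refine ⟨{x | x (i, i) ≠ 0 ∧ (fun j => col_XE2 i x (i.succAbove j)) ∈ O}, ?_, ?_⟩
    · refine isOpen_iff_mem_nhds.2 fun x hx => ?_
      have c1 : Continuous fun y : Amb (N + 1) => y (i, i) := by fun_prop
      have c2 : ContinuousAt (fun y : Amb (N + 1) => fun j => col_XE2 i y (i.succAbove j)) x :=
        continuousAt_pi.2 fun j => continuousAt_pi.1 (cont_col_XE2 hx.1) _
      exact (c1.continuousAt.eventually_ne hx.1).and (c2 (hO.mem_nhds hx.2))
    · ext x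
      constructor
      · rintro ⟨z, hz, rfl⟩
        refine ⟨⟨g z, hne z, rfl⟩, fun e => hi z ((proj_diag (hne z) i).1 e), ?_⟩
        rwa [Function.comp_apply, hl]
      · rintro ⟨⟨v, hv, rfl⟩, h2, h3⟩
        have hvi : v i ≠ 0 := fun e => h2 ((proj_diag hv i).2 e)
        refine ⟨_, h3, ?_⟩
        rw [Function.comp_apply, col_proj_XE2 hvi]
        refine Eq.trans (congrArg proj (funext fun k => ?_)) (proj_smul (inv_ne_zero hvi) v)
        refine i.succAboveCases ?_ (fun j => ?_) k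
        · simp [h0, hvi]
        · rw [h1]

theorem mf_Prj (N : ℕ) : Mf N (Prj (N + 1)) := by
  refine ⟨compact_XI1 _, ?_⟩
  rintro x ⟨v, hv, rfl⟩
  obtain ⟨i, hi⟩ : ∃ i, v i ≠ 0 := Function.ne_iff.1 hv
  obtain ⟨g, hg, h0, h1⟩ := chart_XI1 i
  refine ⟨proj ∘ g, fun j => (v i)⁻¹ * v (i.succAbove j), univ, g, hg, rfl, mem_univ _, ?_⟩
  rw [← proj_smul (inv_ne_zero hi) v]
  refine congrArg proj (funext fun k => ?_)
  refine i.succAboveCases ?_ (fun j => ?_) k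
  · simp [h0, hi]
  · simp [h1]

theorem cj_Prj (M : ℕ) : MapsTo (cj M) (Prj M) (Prj M) := by
  rintro x ⟨v, hv, rfl⟩
  exact ⟨star v, star_ne_zero.2 hv, (cj_proj v).symm⟩

theorem HolP.prj {X : Set (Amb M)} {ph : Amb M → Amb N} (h : HolP n X ph) (hX : Mf n X) :
    MapsTo ph X (Prj N) := by
  intro x hx
  obtain ⟨φ, z, hp⟩ := hX.chart x hx
  obtain ⟨g, -, h0, e⟩ := h φ z x hp
  refine ⟨g z, h0, ?_⟩
  rw [← hp.eq]
  exact e.self_of_nhds.symm

theorem Mf.snc {X : Set (Amb M)} (h : Mf n X) : IsSNC n X fun _ : ℕ => ∅ := by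
  refine snc_of_pt (r := 0) h.compact (fun _ => empty_subset _) (fun _ => isClosed_empty)
    (fun _ _ => rfl) fun x hx => ?_
  obtain ⟨φ, z, hp⟩ := h.chart x hx
  exact ⟨φ, z, fun _ => none, hp, fun _ _ _ h1 => h1.elim, fun _ h1 => h1.elim⟩

/-- a manifold with the empty divisor -/
@[reducible] def Mf.sp {X : Set (Amb M)} (h : Mf n X) (hc : MapsTo (cj M) X X) : Sp n :=
  ⟨M, X, fun _ => ∅, 0, h.snc, fun _ _ => rfl, hc, fun _ => mapsTo_empty _ _⟩

end Pool.Agent.HIR
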