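import Pool.Agent.P.MP_65ad7c_ag.XI1

open Set Filter Topology Asymptotics
open scoped ComplexConjugate
open Pool.Agent.HT (Amb proj cj IsChart IsSNC)
open Pool.Agent.PWV (ZC ZI Dim)

noncomputable section
namespace Pool.Agent.HIR

variable {n N : ℕ} {S : Sp n} {ph : Amb S.M → Amb N} {𝒬 : Set (MvPolynomial (Fin N) ℂ)}

section
variable {φ : E n → Amb S.M} {z : E n} {x : Amb S.M} {g : E n → Fin N → ℂ}

theorem pt_XI3 (hp : Pt S.X φ z x) (he : ph ∘ φ =ᶠ[𝓝 z] proj ∘ g) : ph x = proj (g z) := by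
  rw [← hp.eq]
  exact he.self_of_nhds

theorem gen_XI3 (hg : AnalyticAt ℂ g z) (he : ph ∘ φ =ᶠ[𝓝 z] proj ∘ g) {i : Fin N}
    (hi : g z i ≠ 0) (P : MvPolynomial (Fin N) ℂ) :
    (fun y => ev P (nrm i (ph y))) ∘ φ =ᶠ[𝓝 z] fun w => ev P ((g w i)⁻¹ • g w) := by
  filter_upwards [he, ev_ne_XE2 hg hi] with w h1 h2
  have h3 : ph (φ w) = proj (g w) := h1
  rw [Function.comp_apply, h3, nrm_proj h2]

theorem an_XI3 (hg : AnalyticAt ℂ g z) :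
    ∀ q ∈ (fun P => ((1 : ℕ), fun y => ev P (g y))) '' 𝒬, An z q.2 := by
  rintro _ ⟨P, -, rfl⟩
  exact (an_ev P _).comp hg

end

theorem cF_ev_XI3 {M : ℕ} {C : Set (Amb M)} (hC : MapsTo (cj M) C C) {y : Amb M}
    {f g : Amb M → ℂ} (h : f =ᶠ[𝓝[C] y] g) : cF f =ᶠ[𝓝[C] cj M y] cF g := by
  rw [← map_cj hC, Filter.EventuallyEq, eventually_map]
  filter_upwards [h] with u hu
  simp only [cF, cj_cj, hu]

theorem pol_rees (hph : HolP n S.X ph) (𝒬 : Set (MvPolynomial (Fin N) ℂ)) :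
    GR S (pol n S.X ph 𝒬) := by
  intro x _
  refine In.rees (ring_hol n S.X x) ?_
  rintro ⟨m, f⟩ ⟨-, P, -, i, hi, rfl⟩ φ z hp
  obtain ⟨g, hg, h0, he⟩ := hph φ z x hp
  rw [pt_XI3 hp he, Ne, proj_diag h0] at hi
  exact AnalyticAt.congr ((an_ev P _).comp (an_nrm_XE2 hg hi)) (gen_XI3 hg he hi P).symm

theorem loc_pol (h : ∀ P ∈ 𝒬, ∃ k, P.IsHomogeneous k) {φ : E n → Amb S.M} {z : E n} {x : Amb S.M}
    {g : E n → Fin N → ℂ} (hp : Pt S.X φ z x) (hg : AnalyticAt ℂ g z) (h0 : g z ≠ 0)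
    (he : ph ∘ φ =ᶠ[𝓝 z] proj ∘ g) :
    loc (pol n S.X ph 𝒬) φ z = LIn z ((fun P => (1, fun y => ev P (g y))) '' 𝒬) := by
  rw [loc_In hp rfl]
  have key : ∀ P ∈ 𝒬, ∀ i, g z i ≠ 0 → ∃ u : E n → ℂ, An z u ∧ u z ≠ 0 ∧
      (fun y => ev P (nrm i (ph y))) ∘ φ =ᶠ[𝓝 z] u * fun y => ev P (g y) := by
    intro P hP i hi
    obtain ⟨k, hk⟩ := h P hP
    refine ⟨fun w => (g w i)⁻¹ ^ k, ((an_app_XE2 hg i).inv hi).pow k,
      pow_ne_zero k (inv_ne_zero hi), (gen_XI3 hg he hi P).trans ?_⟩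
    exact Eventually.of_forall fun w => ev_smul hk _ _
  have R2 := lr_In (an_XI3 (𝒬 := 𝒬) hg)
  have k1 : ∀ q ∈ {q : ℕ × (E n → ℂ) | ∃ f, (q.1, f) ∈ {q : ℕ × (Amb S.M → ℂ) | q.1 = 1 ∧
      ∃ P ∈ 𝒬, ∃ i, ph x (i, i) ≠ 0 ∧ q.2 = fun y => ev P (nrm i (ph y))} ∧ f ∘ φ =ᶠ[𝓝 z] q.2},
      LIn z ((fun P => (1, fun y => ev P (g y))) '' 𝒬) q.1 q.2 := by
    rintro ⟨m, v⟩ ⟨f, ⟨h1, P, hP, i, hi, rfl⟩, e⟩
    obtain rfl : m = 1 := h1
    rw [pt_XI3 hp he, Ne, proj_diag h0] at hi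
    obtain ⟨u, hu, -, e'⟩ := key P hP i hi
    exact In.congr (R2.hol_mul hu (In.gen ⟨P, hP, rfl⟩)) (e'.symm.trans e)
  have R1 := lr_In fun q hq => R2.an _ _ (k1 q hq)
  refine Le.antisymm (In.le R2 k1) (In.le R1 ?_)
  rintro _ ⟨P, hP, rfl⟩
  obtain ⟨i, hi⟩ := Function.ne_iff.1 h0
  obtain ⟨u, hu, hu0, e'⟩ := key P hP i hi
  refine R1.unit hu hu0 (In.gen ⟨_, ⟨rfl, P, hP, i, ?_, rfl⟩, e'⟩)
  rw [pt_XI3 hp he, Ne, proj_diag h0]
  exact hi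

theorem good_pol (hph : HolP n S.X ph) (hr : ∀ x, ph (cj S.M x) = cj N (ph x)) (hf : 𝒬.Finite)
    (h : ∀ P ∈ 𝒬, RH P) : Good S (pol n S.X ph 𝒬) 1 := by
  refine good_of_one le_rfl (pol_rees hph 𝒬) ?_ fun x hx => ?_
  · intro x _ m f hf
    induction hf with
    | gen hq =>
      obtain ⟨h1, P, hP, i, hi, h2⟩ := hq
      refine In.gen ⟨h1, P, hP, i, ?_, ?_⟩
      · rw [hr, cj_apply]
        exact (map_ne_zero _).2 hi
      · dsimp only at h2 ⊢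
        rw [h2]
        funext y
        rw [cF, hr, nrm_cj, (h P hP).rl, Complex.conj_conj]
    | hol h => exact In.hol (h.cF S.cjX)
    | anti _ ih => exact In.anti ih
    | mul _ _ ih ih' =>
      exact In.congr (In.mul ih ih') (Eventually.of_forall fun u => by simp [cF])
    | add _ _ ih ih' =>
      exact In.congr (In.add ih ih') (Eventually.of_forall fun u => by simp [cF])
    | zero => exact In.congr In.zero (Eventually.of_forall fun u => by simp [cF])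
    | congr _ e ih => exact In.congr ih (cF_ev_XI3 S.cjX e)
  · obtain ⟨φ, z, hp⟩ := S.mf.chart x hx
    obtain ⟨g, hg, h0, he⟩ := hph φ z x hp
    refine ⟨φ, z, hp, (fun P => (1, fun y => ev P (g y))) '' 𝒬, hf.image _, ?_, an_XI3 hg, ?_⟩
    · rintro _ ⟨P, -, rfl⟩
      exact ⟨le_rfl, le_rfl⟩
    · filter_upwards [hp.ev, hg.eventually_analyticAt, hg.continuousAt.eventually_ne h0,
        he.eventually_nhds] with w h1 h2 h3 h4
      exact loc_pol (fun P hP => (h P hP).hom) h1 h2 h3 h4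

theorem sg_pol (hph : HolP n S.X ph) (h : ∀ P ∈ 𝒬, ∃ k, P.IsHomogeneous k) :
    Sg S (pol n S.X ph 𝒬) = S.X ∩ ph ⁻¹' Zs 𝒬 := by
  have key : ∀ (φ : E n → Amb S.M) z x, Pt S.X φ z x →
      (LSg z (loc (pol n S.X ph 𝒬) φ z) ↔ ph x ∈ Zs 𝒬) := by
    intro φ z x hp
    obtain ⟨g, hg, h0, he⟩ := hph φ z x hp
    rw [loc_pol h hp hg h0 he, lsg_In (an_XI3 hg), pt_XI3 hp he, proj_Zs h h0]
    constructor
    · exact fun h1 P hP => Ord.eq_zero (z := z) (f := fun y => ev P (g y)) (m := 0)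
        (h1 _ ⟨P, hP, rfl⟩)
    · rintro h1 _ ⟨P, hP, rfl⟩
      exact ord_one ((an_ev P _).comp hg) (h1 P hP)
  ext x
  constructor
  · intro hx
    obtain ⟨φ, z, hp⟩ := S.mf.chart x hx.1
    exact ⟨hx.1, (key φ z x hp).1 (hx.2 φ z hp)⟩
  · exact fun hx => ⟨hx.1, fun φ z hp => (key φ z x hp).2 hx.2⟩

end Pool.Agent.HIR
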