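import Pool.Agent.P.MP_65ad7c_ag.XI1
import Pool.Agent.P.MP_65ad7c_ag.XG3
import Pool.Agent.P.MP_65ad7c_ag.XG7

open Set Filter Topology Asymptotics
open scoped ComplexConjugate
open Pool.Agent.HT (Amb proj cj IsChart IsSNC)
open Pool.Agent.PWV (ZC ZI Dim)

noncomputable section
namespace Pool.Agent.HIR

variable {n e M N : ℕ} {X C : Set (Amb M)} {ph : Amb M → Amb N} {x : Amb M}

theorem pull_XI4 {m : ℕ} {φ : E n → Amb M} {z : E n} {g : E n → Fin N → ℂ} {τ : E m → E n}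
    {w : E m} {χ : E m → Amb M} (hg : AnalyticAt ℂ g z) (h0 : g z ≠ 0)
    (he : ph ∘ φ =ᶠ[𝓝 z] proj ∘ g) (hτ : AnalyticAt ℂ τ w) (hw : τ w = z)
    (e1 : φ ∘ τ =ᶠ[𝓝 w] χ) :
    AnalyticAt ℂ (g ∘ τ) w ∧ (g ∘ τ) w ≠ 0 ∧ ph ∘ χ =ᶠ[𝓝 w] proj ∘ (g ∘ τ) := by
  subst hw
  refine ⟨hg.comp hτ, h0, ?_⟩
  filter_upwards [hτ.continuousAt.tendsto.eventually he, e1] with y h1 h2
  simp only [Function.comp_apply] at h1 h2 ⊢
  rw [← h2, h1]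

theorem holP_of_one (h : ∀ x ∈ X, ∃ (φ : E n → Amb M) (z : E n) (g : E n → Fin N → ℂ),
    Pt X φ z x ∧ AnalyticAt ℂ g z ∧ g z ≠ 0 ∧ ph ∘ φ =ᶠ[𝓝 z] proj ∘ g) : HolP n X ph := by
  intro φ' z' x hp'
  obtain ⟨φ, z, g, hp, hg, h0, he⟩ := h x hp'.mem
  obtain ⟨τ, σ, hb, e1, -⟩ := hp'.trans hp
  exact ⟨g ∘ τ, pull_XI4 hg h0 he hb.an hb.map e1⟩

theorem HolP.bl {S : Sp n} (β : Bl S) {ph : Amb S.M → Amb N} (h : HolP n S.X ph) :
    HolP n β.S'.X (ph ∘ β.π) := by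
  refine holP_of_one fun x' hx => ?_
  by_cases hC : β.π x' ∈ β.C
  · obtain ⟨s, hs⟩ := β.ctr.chart
    obtain ⟨φ, z, T, hp, -, hT, -⟩ := hs _ hC
    obtain ⟨φ', w, p, -, -, hw, hp', e1⟩ := β.on x' hx hC φ z T hp hT
    obtain ⟨g, hg, h0, he⟩ := h φ z _ hp
    have key := pull_XI4 hg h0 he (an_bet T p w) hw e1.symm
    exact ⟨φ', w, g ∘ bet T p, hp', key⟩
  · obtain ⟨φ, z, hp, -⟩ := Sp.chart (β.maps hx)
    obtain ⟨φ', hp', e1⟩ := β.off x' hx hC φ z hp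
    obtain ⟨g, hg, h0, he⟩ := h φ z _ hp
    exact ⟨φ', z, g, hp', hg, h0, (e1.fun_comp ph).trans he⟩

theorem ImmP.off {S : Sp n} (β : Bl S) {ph : Amb S.M → Amb N} {x' : Amb β.S'.M}
    (hx : x' ∈ β.S'.X) (hC : β.π x' ∉ β.C) (h : ImmP n S.X ph (β.π x')) :
    ImmP n β.S'.X (ph ∘ β.π) x' := by
  obtain ⟨φ, z, g, hp, hg, h0, he, hi⟩ := h
  obtain ⟨φ', hp', e1⟩ := β.off x' hx hC φ z hp
  exact ⟨φ', z, g, hp', hg, h0, (e1.fun_comp ph).trans he, hi⟩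

theorem fac_XI4 {φ : E n → Amb M} {z : E n} (hp : Pt X φ z x) (hC : C ⊆ X) {ψ : E e → Amb M}
    {w : E e} (hq : Pt C ψ w x) : ∃ τ : E e → E n, AnalyticAt ℂ τ w ∧ τ w = z ∧
      φ ∘ τ =ᶠ[𝓝 w] ψ ∧ ∀ v, fderiv ℂ τ w v = 0 → v = 0 := by
  obtain ⟨g', rfl, hg', h0', hi'⟩ := hq.rep
  obtain ⟨τ, hτ, hw, e1⟩ := hp.factor hg' h0' hq.eq (hq.ev.mono fun y hy => hC hy.mem)
  refine ⟨τ, hτ, hw, e1, fun v hv => ?_⟩
  obtain ⟨g, rfl, hg, h0, -⟩ := hp.rep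
  subst hw
  obtain ⟨a, ha, h1, h2⟩ := rep_XG7 (g := g ∘ τ) (hg.comp hτ) hg' h0 h0' e1
  obtain ⟨b, hb⟩ := h2 v
  rw [fderiv_comp w hg.differentiableAt hτ.differentiableAt, ContinuousLinearMap.comp_apply, hv,
    map_zero, smul_zero, zero_add] at hb
  refine hi' v (b * a⁻¹) ?_
  rw [hb, h1, smul_smul, mul_assoc, inv_mul_cancel₀ ha, mul_one]

theorem HolP.sub (h : HolP n X ph) (hX : Mf n X) (hC : C ⊆ X) : HolP e C ph := by
  intro ψ w x hq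
  obtain ⟨φ, z, hp⟩ := hX.chart x (hC hq.mem)
  obtain ⟨τ, hτ, hw, e1, -⟩ := fac_XI4 hp hC hq
  obtain ⟨g, hg, h0, he⟩ := h φ z x hp
  exact ⟨g ∘ τ, pull_XI4 hg h0 he hτ hw e1⟩

theorem ImmP.sub (h : ImmP n X ph x) (hC : C ⊆ X) {ψ : E e → Amb M} {w : E e} (hp : Pt C ψ w x) :
    ImmP e C ph x := by
  obtain ⟨φ, z, g, hq, hg, h0, he, hi⟩ := h
  obtain ⟨τ, hτ, hw, e1, hj⟩ := fac_XI4 hq hC hp
  obtain ⟨a1, a2, a3⟩ := pull_XI4 hg h0 he hτ hw e1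
  refine ⟨ψ, w, g ∘ τ, hp, a1, a2, a3, fun v c hv => ?_⟩
  subst hw
  rw [fderiv_comp w hg.differentiableAt hτ.differentiableAt, ContinuousLinearMap.comp_apply] at hv
  exact hj v (hi _ c hv)

theorem an_ev_XI4 (H : MvPolynomial (Fin N) ℂ) (v : Fin N → ℂ) : AnalyticAt ℂ (ev H) v :=
  AnalyticOnNhd.eval_mvPolynomial H v (mem_univ v)

theorem dense_XI4 {u : E e → ℂ} {z : E e} (hu : AnalyticAt ℂ u z) (hz : ¬ u =ᶠ[𝓝 z] 0) :
    ∀ᶠ w in 𝓝 z, ∃ᶠ y in 𝓝 w, u y ≠ 0 := by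
  obtain ⟨r, hr, hb⟩ := Metric.eventually_nhds_iff_ball.1 hu.eventually_analyticAt
  filter_upwards [Metric.ball_mem_nhds z hr] with w hw
  by_contra hn
  have h0 : u =ᶠ[𝓝 w] 0 := by
    filter_upwards [not_frequently.1 hn] with y hy using not_not.1 hy
  have := AnalyticOnNhd.eqOn_zero_of_preconnected_of_eventuallyEq_zero
    (f := u) (U := Metric.ball z r) hb (convex_ball z r).isPreconnected hw h0
  exact hz (Filter.eventually_of_mem (Metric.ball_mem_nhds z hr) this)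

/-- the closure of the part over `Wo H` is a union of components -/
theorem mf_clo {ph : Amb M → Amb (N + 1)} (hC : Mf e C) (hph : HolP e C ph)
    {H : MvPolynomial (Fin (N + 1)) ℂ} {k : ℕ} (hH : H.IsHomogeneous k) :
    Mf e (closure (C ∩ ph ⁻¹' Wo H)) := by
  have hs : closure (C ∩ ph ⁻¹' Wo H) ⊆ C :=
    closure_minimal inter_subset_left hC.compact.isClosed
  refine ⟨hC.compact.of_isClosed_subset isClosed_closure hs, fun x hx => ?_⟩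
  obtain ⟨φ, z, hp⟩ := hC.chart x (hs hx)
  obtain ⟨g, hg, h0, he⟩ := hph φ z x hp
  have hu : AnalyticAt ℂ (fun y => g y 0 * ev H (g y)) z :=
    (an_app_XE2 hg 0).mul ((an_ev_XI4 H (g z)).comp hg)
  have hA : ∀ᶠ y in 𝓝 z, φ y ∈ C ∩ ph ⁻¹' Wo H ↔ g y 0 * ev H (g y) ≠ 0 := by
    filter_upwards [hp.ev, he, hg.continuousAt.eventually_ne h0] with y h1 h2 h3
    simp only [Function.comp_apply] at h2
    rw [mem_inter_iff, mem_preimage, h2, proj_Wo hH h3, mul_ne_zero_iff]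
    exact and_iff_right h1.mem
  have hz : ¬ (fun y => g y 0 * ev H (g y)) =ᶠ[𝓝 z] 0 := fun h =>
    not_mem_closure hp inter_subset_left (by
      filter_upwards [hA, h] with y h1 h2 h3 using h1.1 h3 h2) hx
  have hB : ∀ᶠ w in 𝓝 z, φ w ∈ closure (C ∩ ph ⁻¹' Wo H) := by
    filter_upwards [hp.ev, dense_XI4 hu hz, hA.eventually_nhds] with w h1 h2 h3
    rw [closure_iff_XG1 h1 inter_subset_left]
    exact (h2.and_eventually h3).mono fun y hy => hy.2.2 hy.1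
  refine ⟨φ, z, hp.congr_set ?_⟩
  filter_upwards [eventually_nhdsWithin_iff.1 (hp.ev_iff.2 hB)] with y hy
  exact ⟨hy, fun h => hs h⟩

end Pool.Agent.HIR
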