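import Pool.Agent.P.MP_65ad7c_ag.SRig0

/-! Rigidity, part 2: uniqueness of maps between complexes with the conditions AX. -/

open TopologicalSpace

set_option backward.isDefEq.respectTransparency false

noncomputable section
namespace Pool.Agent.PW.S

variable {Y Z Z' : Type} [TopologicalSpace Y] [TopologicalSpace Z] [TopologicalSpace Z']

/-- the components of `d k + k d` -/
def srig1_f {A B : Cx Y} (k : ∀ n, Mor (A.X (n + 1)) (B.X n)) : ∀ n, Mor (A.X n) (B.X n)
  | 0 => (k 0).comp (A.d 0)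
  | n + 1 => (B.d n).comp (k n) + (k (n + 1)).comp (A.d (n + 1))

theorem srig1_f_realize : True := by have := @srig1_f.eq_def; trivial

/-- the chain map `d k + k d` -/
def srig1_w {A B : Cx Y} (k : ∀ n, Mor (A.X (n + 1)) (B.X n)) : CMap A B where
  f := srig1_f k
  comm n V s := by
    cases n with
    | zero =>
      show (B.d 0).app V ((k 0).app V ((A.d 0).app V s)) =
        (B.d 0).app V ((k 0).app V ((A.d 0).app V s)) +
          (k 1).app V ((A.d (0 + 1)).app V ((A.d 0).app V s))
      rw [A.dd, map_zero, add_zero]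
    | succ n =>
      show (B.d (n + 1)).app V ((B.d n).app V ((k n).app V s) +
          (k (n + 1)).app V ((A.d (n + 1)).app V s)) =
        (B.d (n + 1)).app V ((k (n + 1)).app V ((A.d (n + 1)).app V s)) +
          (k (n + 1 + 1)).app V ((A.d (n + 1 + 1)).app V ((A.d (n + 1)).app V s))
      rw [A.dd, map_zero, add_zero, map_add, B.dd, zero_add]

theorem srig1_w_null {A B : Cx Y} (k : ∀ n, Mor (A.X (n + 1)) (B.X n)) : (srig1_w k).Null :=
  ⟨k, fun _ _ => rfl, fun _ _ _ => rfl⟩

/-- a null-homotopy of `ρ u` lifts along a degreewise section of `ρ` -/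
theorem srig1_lift {A B C : Cx Y} (ρ : CMap B C) (σ : ∀ n, Mor (C.X n) (B.X n))
    (hσ : ∀ n V s, (ρ.f n).app V ((σ n).app V s) = s) (u : CMap A B) (h : (ρ.comp u).Null) :
    ∃ w : CMap A B, w.Null ∧ ∀ n V s, (ρ.f n).app V (((u - w).f n).app V s) = 0 := by
  obtain ⟨κ, h0, h1⟩ := h
  refine ⟨srig1_w fun n => (σ n).comp (κ n), srig1_w_null _, fun n V s => ?_⟩
  rw [CMap.sub_app, map_sub, sub_eq_zero]
  cases n with
  | zero =>
    refine (h0 V s).trans ?_
    exact (hσ 0 V _).symm
  | succ n =>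
    refine (h1 n V s).trans ?_
    show _ = (ρ.f (n + 1)).app V ((B.d n).app V ((σ n).app V ((κ n).app V s)) +
      (σ (n + 1)).app V ((κ (n + 1)).app V ((A.d (n + 1)).app V s)))
    rw [map_add, ← ρ.comm, hσ, hσ]

/-- a chain map whose values vanish on `O` -/
def srig1_toGam {A B : Cx Y} (O : Opens Y) (v : CMap A B)
    (h : ∀ n V s, (B.X n).res (inf_le_left : V ⊓ O ≤ V) ((v.f n).app V s) = 0) :
    CMap A (B.gam O) :=
  ⟨fun n => ⟨fun V => ((v.f n).app V).codRestrict _ fun s => LinearMap.mem_ker.2 (h n V s),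
      fun e s => Subtype.ext ((v.f n).nat e s)⟩,
    fun n V s => Subtype.ext (v.comm n V s)⟩

variable {U : ℕ → Opens Y} {I J : Cx Y} {one : (I.X 0).obj (U 0)} {one' : (J.X 0).obj (U 0)}

theorem rig_null_loc (hU : Monotone U) (hI : AX U I one) (hJ : AX U J one') (k : ℕ)
    (u : CMap I (J.loc (U k))) (hu : (u.f 0).app (U 0) one = 0) : u.Null := by
  induction k with
  | zero => exact rig_null_zero hU hI hJ.inj u hu
  | succ k ih =>
    have hk : U k ≤ U (k + 1) := hU (Nat.le_succ k)
    let ρ : CMap (J.loc (U (k + 1))) (J.loc (U k)) :=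
      J.resMap (inf_mono _) (inf_mono _) fun V => inf_le_inf_left V hk
    choose σ hσ using fun n => (hJ.inj n).split (U k)
    have h1 : (ρ.comp u).Null := ih _ (by rw [CMap.comp_app, hu, map_zero])
    obtain ⟨w, hw, hw'⟩ := srig1_lift ρ (fun n => ((J.toLoc (U (k + 1))).f n).comp (σ n))
      (fun n V s => ((J.X n).res_res _ _ _).trans (hσ n V s)) u h1
    have h2 : ∀ n V s, ((J.loc (U (k + 1))).X n).res (inf_le_left : V ⊓ U k ≤ V)
        (((u - w).f n).app V s) = 0 := fun n V s => by
      have e : (J.X n).res (inf_le_left : (V ⊓ U k) ⊓ U (k + 1) ≤ V ⊓ U k)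
          ((ρ.f n).app V (((u - w).f n).app V s)) = 0 := by rw [hw', map_zero]
      exact ((J.X n).res_res _ _ _).symm.trans e
    have hinj : CInj (U (k + 1)) ((J.loc (U (k + 1))).gam (U k)) := fun n =>
      (((hJ.inj n).loc (U (k + 1))).mono Set.inter_subset_right).gam (U k)
    have h3 : (srig1_toGam (U k) (u - w) h2).Null :=
      null_of_qis (I.tauι (k / 2)) (fun x hx => tau_qis (hI.supp k x hx)) hinj _
        (null_of_tau (k / 2) hinj (fun x hx n hn => exAt_gam_loc hx (hJ.cosupp k x hx n hn)) _)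
    refine ((h3.comp_left (Cx.subι _ _ _ _)).add hw).congr fun n V s => ?_
    exact (sub_add_cancel _ _).symm

theorem rig_null (hU : Monotone U) (hm : ∃ m, U m = ⊤) (hI : AX U I one) (hJ : AX U J one')
    (u : CMap I J) (hu : (u.f 0).app (U 0) one = 0) : u.Null := by
  obtain ⟨m, hm⟩ := hm
  have h1 : ((J.toLoc (U m)).comp u).Null :=
    rig_null_loc hU hI hJ m _ (by rw [CMap.comp_app, hu, map_zero])
  let τ : CMap (J.loc (U m)) J := J.resMap (ψ := id) (inf_mono _) monotone_id
    fun V => le_inf le_rfl (hm ▸ le_top)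
  refine (h1.comp_left τ).congr fun n V s => ?_
  exact (((J.X n).res_res _ _ _).trans ((J.X n).res_self _ _ _)).symm

end Pool.Agent.PW.S
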