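import Pool.Agent.P.MP_65ad7c_ag.SRig0

/-! Rigidity, part 3: existence of maps between complexes with the axioms. -/

open TopologicalSpace

set_option backward.isDefEq.respectTransparency false

noncomputable section
namespace Pool.Agent.PW.S

variable {Y Z Z' : Type} [TopologicalSpace Y] [TopologicalSpace Z] [TopologicalSpace Z']

variable {U : ℕ → Opens Y} {I J : Cx Y} {one : (I.X 0).obj (U 0)} {one' : (J.X 0).obj (U 0)}

/-- a morphism whose values vanish on `O` -/
def srig2_lift {A B : PS Y} (O : Opens Y) (f : Mor A B)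
    (h : ∀ V s, B.res (inf_le_left : V ⊓ O ≤ V) (f.app V s) = 0) : Mor A (B.gam O) :=
  ⟨fun V => (f.app V).codRestrict _ (h V), fun hle s => Subtype.ext (f.nat hle s)⟩

/-- a degreewise lift of a chain map is corrected to a chain map -/
theorem srig2_corr {T B : Cx Y} (O : Opens Y) (σ : ∀ n, Mor (T.X n) (B.X n))
    (hσ : ∀ n V s, (B.X (n + 1)).res (inf_le_left : V ⊓ O ≤ V)
      ((B.d n).app V ((σ n).app V s) - (σ (n + 1)).app V ((T.d n).app V s)) = 0)
    (H : ∀ θ : ∀ n, Mor (T.X n) ((B.gam O).X (n + 1)),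
      (∀ n V s, ((B.gam O).d (n + 1)).app V ((θ n).app V s) +
        (θ (n + 1)).app V ((T.d n).app V s) = 0) →
      ∃ k : ∀ n, Mor (T.X n) ((B.gam O).X n), ∀ n V s, (θ n).app V s =
        ((B.gam O).d n).app V ((k n).app V s) - (k (n + 1)).app V ((T.d n).app V s)) :
    ∃ w : CMap T B, ∀ n V s, (B.X n).res (inf_le_left : V ⊓ O ≤ V) ((w.f n).app V s) =
      (B.X n).res (inf_le_left : V ⊓ O ≤ V) ((σ n).app V s) := by
  obtain ⟨k, hk⟩ := H (fun n => srig2_lift O ((B.d n).comp (σ n) - (σ (n + 1)).comp (T.d n))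
    (hσ n)) fun n V s => Subtype.ext (by
      show (B.d (n + 1)).app V ((B.d n).app V ((σ n).app V s) -
        (σ (n + 1)).app V ((T.d n).app V s)) + ((B.d (n + 1)).app V ((σ (n + 1)).app V
        ((T.d n).app V s)) - (σ (n + 1 + 1)).app V ((T.d (n + 1)).app V ((T.d n).app V s))) = 0
      rw [map_sub, B.dd, T.dd, map_zero]
      abel)
  let ι : CMap (B.gam O) B := B.subι _ _ _
  refine ⟨⟨fun n => σ n - (ι.f n).comp (k n), fun n V s => ?_⟩, fun n V s => ?_⟩
  · have h1 : (B.d n).app V ((σ n).app V s) - (σ (n + 1)).app V ((T.d n).app V s) =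
        (B.d n).app V ((ι.f n).app V ((k n).app V s)) -
          (ι.f (n + 1)).app V ((k (n + 1)).app V ((T.d n).app V s)) :=
      congrArg Subtype.val (hk n V s)
    simp only [Mor.sub_app, Mor.comp_app, map_sub]
    rw [sub_eq_sub_iff_sub_eq_sub, h1]
  · have h1 : (B.X n).res (inf_le_left : V ⊓ O ≤ V) ((ι.f n).app V ((k n).app V s)) = 0 :=
      ((k n).app V s).2
    simp only [Mor.sub_app, Mor.comp_app, map_sub]
    rw [h1, sub_zero]

theorem rig_exists_loc (hU : Monotone U) (hI : AX U I one) (hJ : AX U J one') (k : ℕ) :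
    ∃ u : CMap I (J.loc (U k)), (u.f 0).app (U 0) one = (J.X 0).res inf_le_left one' := by
  induction k with
  | zero => exact rig_exists_zero hU hI hJ.inj one' hJ.closed
  | succ k ih =>
    obtain ⟨v, hv⟩ := ih
    have cB : CInj (U (k + 1)) (J.loc (U (k + 1))) := fun n =>
      ((hJ.inj n).loc (U (k + 1))).mono Set.inter_subset_right
    choose σ0 hσ0 using fun n => (hJ.inj n).split (U k)
    let v' := v.comp (I.tauι (k / 2))
    let σ : ∀ n, Mor ((I.tau (k / 2)).X n) ((J.loc (U (k + 1))).X n) := fun n =>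
      ((J.toLoc (U (k + 1))).f n).comp ((σ0 n).comp (v'.f n))
    have key : ∀ n V s, ((J.loc (U (k + 1))).X n).res (inf_le_left : V ⊓ U k ≤ V)
        ((σ n).app V s) = (J.X n).res (inf_le_left : V ⊓ U k ⊓ U (k + 1) ≤ V ⊓ U k)
          ((v'.f n).app V s) := fun n V s => by
      rw [← hσ0 n V ((v'.f n).app V s)]
      exact ((J.X n).res_res _ _ _).trans ((J.X n).res_res _ _ _).symm
    obtain ⟨w, hw⟩ := srig2_corr (U k) σ (fun n V s => by
        rw [map_sub, ((J.loc (U (k + 1))).d n).nat, key, key, ← v'.comm]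
        exact sub_eq_zero.2 ((J.d n).nat _ _).symm)
      (null_of_tau_shift (O := U (k + 1)) (k / 2) (fun n => (cB n).gam (U k))
        fun x hx n hn => exAt_gam_loc hx (hJ.cosupp k x hx n hn))
    obtain ⟨u, hu⟩ := extend_qis (I.tauι (k / 2)) (fun x hx => tau_qis (hI.supp k x hx)) cB w
    let e : ((I.tau (k / 2)).X 0).obj (U 0) :=
      ⟨one, fun _ => hI.closed, fun h => absurd h (Nat.not_lt_zero _)⟩
    have h1 : (u.f 0).app (U 0) one - (w.f 0).app (U 0) e = 0 :=
      hu.bd e (Subtype.ext hI.closed)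
    have h2 : U 0 ⊓ U (k + 1) ≤ U 0 ⊓ U k ⊓ U (k + 1) :=
      inf_le_inf_right _ (le_inf le_rfl (hU (Nat.zero_le k)))
    have h3 := (hw 0 (U 0) e).trans (key 0 (U 0) e)
    have h4 : (v'.f 0).app (U 0) e = (J.X 0).res inf_le_left one' := hv
    rw [h4] at h3
    refine ⟨u, (sub_eq_zero.1 h1).trans ?_⟩
    have h5 := congrArg ((J.X 0).res h2) h3
    exact (((J.X 0).res_res _ _ _).trans ((J.X 0).res_self _ _ _)).symm.trans (h5.trans
      (((J.X 0).res_res _ _ _).trans ((J.X 0).res_res _ _ _)))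

theorem rig_exists (hU : Monotone U) (hm : ∃ m, U m = ⊤) (hI : AX U I one) (hJ : AX U J one') :
    ∃ u : CMap I J, (u.f 0).app (U 0) one = one' := by
  obtain ⟨m, hm⟩ := hm
  obtain ⟨u, hu⟩ := rig_exists_loc hU hI hJ m
  have hle : ∀ V : Opens Y, V ≤ V ⊓ U m := fun V => le_inf le_rfl (hm ▸ le_top)
  refine ⟨CMap.comp (J.resMap (ψ := id) (inf_mono (U m)) monotone_id hle) u, ?_⟩
  show (J.X 0).res (hle _) ((u.f 0).app (U 0) one) = one'
  rw [hu]
  exact ((J.X 0).res_res _ _ _).trans ((J.X 0).res_self _ _ _)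

end Pool.Agent.PW.S
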