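import Pool.Agent.P.MP_65ad7c_ag.SAXJ
import Pool.Agent.P.MP_65ad7c_ag.SRig1
import Pool.Agent.P.MP_65ad7c_ag.SRig2

/-! Isotopy invariance. -/

open TopologicalSpace

set_option backward.isDefEq.respectTransparency false

noncomputable section
namespace Pool.Agent.PW.S

variable {Y Z Z' : Type} [TopologicalSpace Y] [TopologicalSpace Z] [TopologicalSpace Z']

variable {U : ℕ → Opens Y} {I : Cx Y} {one : (I.X 0).obj (U 0)}

/-- the lift of an isotopy to the cylinder -/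
def siso_lift (Φ : C(Y × unitInterval, Y)) : C(Y × unitInterval, Y × unitInterval) :=
  ⟨fun z => (Φ z, z.2), by fun_prop⟩

/-- the map at time `t` -/
theorem siso_slice (Φ : C(Y × unitInterval, Y))
    (ω : CMap I.cyl (I.cyl.push (siso_lift Φ)))
    (e : pre (siso_lift Φ) (pre (pr Y) (U 0)) ≤ pre (pr Y) (U 0))
    (hω : (ω.f 0).app (pre (pr Y) (U 0)) ((I.beta.f 0).app (U 0) one) =
      (I.cyl.X 0).res e ((I.beta.f 0).app (U 0) one))
    (t : unitInterval) (s : C(Y, Y)) (hs : ∀ y, s y = Φ (y, t)) (hs0 : pre s (U 0) ≤ U 0) :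
    ∃ h : CMap I (I.G.push s),
      (h.f 0).app (U 0) one = (I.G.X 0).res hs0 ((I.aug.f 0).app (U 0) one) ∧
      ∀ (n : ℕ) (z : (I.X n).obj ⊤), (show (I.G.X n).obj ⊤ from (h.f n).app ⊤ z) =
        ((I.rsl t).f n).app ⊤ ((ω.f n).app ⊤ ((I.beta.f n).app ⊤ z)) := by
  have le : ∀ V : Opens Y, pre s V ≤ pre (slice Y t) (pre (siso_lift Φ) (pre (pr Y) V)) :=
    fun V y hy => by
      show Φ (y, t) ∈ V
      rw [← hs]
      exact hy
  refine ⟨(I.G.resMap (φ := fun V => pre (slice Y t) (pre (siso_lift Φ) (pre (pr Y) V)))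
    ((pre_mono _).comp ((pre_mono _).comp (pre_mono _))) (pre_mono s) le).comp
    ((((I.rsl t).push (siso_lift Φ)).push (pr Y)).comp ((ω.push (pr Y)).comp I.beta)), ?_,
    fun n z => (I.G.X n).res_self ⊤ le_rfl _⟩
  show (I.G.X 0).res (le (U 0)) (((I.rsl t).f 0).app (pre (siso_lift Φ) (pre (pr Y) (U 0)))
    ((ω.f 0).app (pre (pr Y) (U 0)) ((I.beta.f 0).app (U 0) one))) = _
  rw [hω, ← ((I.rsl t).f 0).nat e, rsl_beta I t 0 (U 0) (fun _ hy => hy)]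
  exact ((I.G.X 0).res_res (pre_mono (slice Y t) e) (le (U 0)) _).trans ((I.G.X 0).res_res _ _ _)

/-- a map `I → s_* G I` with `one ↦ one` which acts on global cohomology as the augmentation -/
theorem iso_aux (hU : Monotone U) (hm : ∃ m, U m = ⊤) (hI : AX U I one)
    (Φ Φ' : C(Y × unitInterval, Y)) (h0 : ∀ y, Φ (y, 0) = y)
    (h1 : ∀ y t, Φ' (Φ (y, t), t) = y) (h2 : ∀ y t, Φ (Φ' (y, t), t) = y)
    (hΦ : ∀ k y t, Φ (y, t) ∈ U k ↔ y ∈ U k) (s : C(Y, Y)) (hs : ∀ y, s y = Φ (y, 1))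
    (hs0 : pre s (U 0) ≤ U 0) :
    ∃ h : CMap I (I.G.push s),
      (h.f 0).app (U 0) one = (I.G.X 0).res hs0 ((I.aug.f 0).app (U 0) one) ∧
      ∀ (n : ℕ) (z : (I.X n).obj ⊤), (I.d n).app ⊤ z = 0 →
        (show (I.G.X n).obj ⊤ from (h.f n).app ⊤ z) - (I.aug.f n).app ⊤ z ∈ I.G.Bd n ⊤ := by
  have hC := hI.cyl
  have e : pre (siso_lift Φ) (pre (pr Y) (U 0)) ≤ pre (pr Y) (U 0) :=
    fun z hz => (hΦ 0 z.1 z.2).1 hz
  have hP := hC.push (siso_lift Φ) (siso_lift Φ') (fun z => Prod.ext (h1 z.1 z.2) rfl)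
    (fun z => Prod.ext (h2 z.1 z.2) rfl) (fun k z => hΦ k z.1 z.2) e
  obtain ⟨ω, hω⟩ := rig_exists (U := fun k => pre (pr Y) (U k))
    (fun _ _ h => pre_mono _ (hU h)) (hm.imp fun m h => by rw [h]; rfl) hC hP
  obtain ⟨h, ha, hb⟩ := siso_slice Φ ω e hω 1 s hs hs0
  obtain ⟨h', ha', hb'⟩ := siso_slice Φ ω e hω 0 (ContinuousMap.id Y) (fun y => (h0 y).symm) le_rfl
  refine ⟨h, ha, fun n z hz => ?_⟩
  have hn : CMap.Null (A := I) (B := I.G) ((show CMap I I.G from h') - I.aug) :=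
    rig_null hU hm hI hI.G _ (sub_eq_zero.2 (ha'.trans ((I.G.X 0).res_self _ _ _)))
  have b1 := hn.bd z hz
  have b2 := rsl_indep hI.inj 1 0 n ((ω.f n).app ⊤ ((I.beta.f n).app ⊤ z))
    (ω.map_cocycle (I.beta.map_cocycle hz))
  have b3 : (show (I.G.X n).obj ⊤ from (h'.f n).app ⊤ z) - (I.aug.f n).app ⊤ z ∈ I.G.Bd n ⊤ := b1
  rw [hb'] at b3
  have b4 := add_mem b2 b3
  rw [sub_add_sub_cancel] at b4
  rw [hb]
  exact b4

/-- a map `I → s_* I` with `one ↦ ε one` acts on global cohomology as `ε` -/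
theorem iso_main (hU : Monotone U) (hm : ∃ m, U m = ⊤) (hI : AX U I one)
    (Φ Φ' : C(Y × unitInterval, Y)) (h0 : ∀ y, Φ (y, 0) = y)
    (h1 : ∀ y t, Φ' (Φ (y, t), t) = y) (h2 : ∀ y t, Φ (Φ' (y, t), t) = y)
    (hΦ : ∀ k y t, Φ (y, t) ∈ U k ↔ y ∈ U k) (s : C(Y, Y)) (hs : ∀ y, s y = Φ (y, 1))
    (hs0 : pre s (U 0) ≤ U 0) (g : CMap I (I.push s)) (ε : ℂ)
    (hg : (g.f 0).app (U 0) one = ε • (I.X 0).res hs0 one)
    (n : ℕ) (z : (I.X n).obj ⊤) (hz : (I.d n).app ⊤ z = 0) :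
    (show (I.X n).obj ⊤ from (g.f n).app ⊤ z) - ε • z ∈ I.Bd n ⊤ := by
  obtain ⟨h, ha, hb⟩ := iso_aux hU hm hI Φ Φ' h0 h1 h2 hΦ s hs hs0
  have hP := hI.G.push s (Φ'.comp (slice Y 1)) (fun y => by rw [hs]; exact h1 y 1)
    (fun y => by rw [hs]; exact h2 y 1) (fun k y => by rw [hs]; exact hΦ k y 1) hs0
  have hn : ((I.aug.push s).comp g - ε • h).Null := by
    refine rig_null hU hm hI hP _ ?_
    show (I.aug.f 0).app (pre s (U 0)) ((g.f 0).app (U 0) one) -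
      ε • (show (I.G.X 0).obj (pre s (U 0)) from (h.f 0).app (U 0) one) = 0
    rw [sub_eq_zero]
    show (I.aug.f 0).app (pre s (U 0)) ((g.f 0).app (U 0) one) = ε • (h.f 0).app (U 0) one
    rw [hg, ha, map_smul, (I.aug.f 0).nat hs0]
  have b1 : (I.aug.f n).app ⊤ ((g.f n).app ⊤ z) -
      ε • (show (I.G.X n).obj ⊤ from (h.f n).app ⊤ z) ∈ I.G.Bd n ⊤ := by
    have := hn.bd z hz
    cases n <;> exact this
  have b2 := add_mem b1 (Submodule.smul_mem _ ε (hb n z hz))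
  obtain ⟨v, hv⟩ := heq_of_qis I.aug (aug_qis I) hI.inj (cinj_G I)
  have hc : (I.d n).app ⊤ (show (I.X n).obj ⊤ from (g.f n).app ⊤ z) = 0 := g.map_cocycle hz
  refine hv.inj_bd _ (by rw [map_sub, map_smul, hc, hz, smul_zero, sub_zero]) ?_
  rw [smul_sub, sub_add_sub_cancel] at b2
  rw [map_sub, map_smul]
  exact b2

end Pool.Agent.PW.S
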