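import Mathlib

/-! Elementary presheaves of modules, subpresheaves, graded subcomplexes. -/

open Set TopologicalSpace

noncomputable section
namespace Pool.Agent.PWD

/-- presheaves of `k`-modules -/
structure PSh (k : Type) [Ring k] (X : Type) [TopologicalSpace X] where
  obj : Opens X → Type
  [grp : ∀ O, AddCommGroup (obj O)]
  [mod : ∀ O, Module k (obj O)]
  res : ∀ {O O' : Opens X}, O' ≤ O → obj O →ₗ[k] obj O'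
  res_id : ∀ O (x : obj O), res le_rfl x = x
  res_res : ∀ {O O' O'' : Opens X} (h : O' ≤ O) (h' : O'' ≤ O') (x : obj O),
    res h' (res h x) = res (h'.trans h) x

attribute [instance] PSh.grp PSh.mod

variable {k : Type} [Ring k] {X : Type} [TopologicalSpace X]

/-- maps of presheaves -/
structure Hom (P Q : PSh k X) where
  app : ∀ O, P.obj O →ₗ[k] Q.obj O
  nat : ∀ {O O' : Opens X} (h : O' ≤ O) (x : P.obj O), Q.res h (app O x) = app O' (P.res h x)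

/-- subpresheaves -/
@[ext] structure Sub (P : PSh k X) where
  sub : ∀ O, Submodule k (P.obj O)
  res_mem : ∀ {O O' : Opens X} (h : O' ≤ O) {x : P.obj O}, x ∈ sub O → P.res h x ∈ sub O'

/-- product of presheaves -/
def PSh.prod (P Q : PSh k X) : PSh k X where
  obj O := P.obj O × Q.obj O
  res h := (P.res h).prodMap (Q.res h)
  res_id O x := Prod.ext (P.res_id O x.1) (Q.res_id O x.2)
  res_res h h' x := Prod.ext (P.res_res h h' x.1) (Q.res_res h h' x.2)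

namespace Sub
variable {P Q : PSh k X}

instance : LE (Sub P) := ⟨fun S S' => ∀ O, S.sub O ≤ S'.sub O⟩
instance : Bot (Sub P) := ⟨⟨fun _ => ⊥, fun h x hx => by
  rw [Submodule.mem_bot] at hx ⊢; rw [hx, map_zero]⟩⟩
instance : Top (Sub P) := ⟨⟨fun _ => ⊤, fun _ _ _ => trivial⟩⟩
instance : Min (Sub P) := ⟨fun S S' => ⟨fun O => S.sub O ⊓ S'.sub O,
  fun h _ hx => ⟨S.res_mem h hx.1, S'.res_mem h hx.2⟩⟩⟩
instance : Max (Sub P) := ⟨fun S S' => ⟨fun O => S.sub O ⊔ S'.sub O, fun h x hx => by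
  obtain ⟨a, ha, b, hb, rfl⟩ := Submodule.mem_sup.1 hx
  rw [map_add]
  exact Submodule.add_mem_sup (S.res_mem h ha) (S'.res_mem h hb)⟩⟩

theorem le_def {S S' : Sub P} : S ≤ S' ↔ ∀ O, S.sub O ≤ S'.sub O := Iff.rfl
@[simp] theorem bot_sub (O) : (⊥ : Sub P).sub O = ⊥ := rfl
@[simp] theorem top_sub (O) : (⊤ : Sub P).sub O = ⊤ := rfl
@[simp] theorem inf_sub (S S' : Sub P) (O) : (S ⊓ S').sub O = S.sub O ⊓ S'.sub O := rfl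
@[simp] theorem sup_sub (S S' : Sub P) (O) : (S ⊔ S').sub O = S.sub O ⊔ S'.sub O := rfl

/-- image -/
def map (f : Hom P Q) (S : Sub P) : Sub Q :=
  ⟨fun O => (S.sub O).map (f.app O), fun h _ ⟨y, hy, e⟩ => ⟨_, S.res_mem h hy, e ▸ (f.nat h y).symm⟩⟩

/-- preimage -/
def comap (f : Hom P Q) (S : Sub Q) : Sub P :=
  ⟨fun O => (S.sub O).comap (f.app O), fun h x hx => by
    rw [Submodule.mem_comap, ← f.nat]; exact S.res_mem h hx⟩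

/-- `x` lies in `S` near `y` -/
def Near (S : Sub P) {O : Opens X} (x : P.obj O) (y : X) : Prop :=
  ∃ (O' : Opens X) (h : O' ≤ O), y ∈ O' ∧ P.res h x ∈ S.sub O'

/-- membership is local -/
def Loc (S : Sub P) : Prop := ∀ O (x : P.obj O), (∀ y ∈ O, S.Near x y) → x ∈ S.sub O

/-- sections near a compact set extend -/
def Soft (S : Sub P) : Prop :=
  ∀ (K : Set X) (O O₁ : Opens X), IsCompact K → K ⊆ O → K ⊆ O₁ → ∀ x ∈ S.sub O,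
    ∃ x' ∈ S.sub O₁, ∃ (O₂ : Opens X) (h : O₂ ≤ O) (h₁ : O₂ ≤ O₁), K ⊆ O₂ ∧ P.res h₁ x' = P.res h x

/-- `f` maps `S` to `S'` -/
def Maps (f : Hom P Q) (S : Sub P) (S' : Sub Q) : Prop := ∀ O, ∀ x ∈ S.sub O, f.app O x ∈ S'.sub O

/-- local and stable under the cut-off operators -/
def Fine (M : Set (Hom P P)) (S : Sub P) : Prop := S.Loc ∧ ∀ m ∈ M, Maps m S S

end Sub

/-- the sheaf condition -/
structure PSh.IsSh (P : PSh k X) : Prop where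
  sep : (⊥ : Sub P).Loc
  glue : ∀ {ι : Type} (O : ι → Opens X) (x : ∀ i, P.obj (O i)),
    (∀ i j, P.res (inf_le_left : O i ⊓ O j ≤ O i) (x i) = P.res inf_le_right (x j)) →
    ∃ z : P.obj (⨆ i, O i), ∀ i, P.res (le_iSup O i) z = x i

/-- cut-off operators: identity near `K`, zero outside a closed subset of `O` -/
def PSh.Cut (P : PSh k X) (M : Set (Hom P P)) : Prop :=
  ∀ (K : Set X) (O : Opens X), IsCompact K → K ⊆ O → ∃ m ∈ M, ∃ O₂ O₃ : Opens X, K ⊆ O₂ ∧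
    O ⊔ O₃ = ⊤ ∧ (∀ O' ≤ O₂, ∀ x, m.app O' x = x) ∧ ∀ O' ≤ O₃, ∀ x, m.app O' x = 0

/-- a graded subcomplex -/
def IsCx {P : PSh k X} (d : Hom P P) (S : ℤ → Sub P) : Prop := ∀ b, Sub.Maps d (S b) (S (b + 1))

/-- the quotient `S' / S` is exact at the point `y` -/
def LAat {P : PSh k X} (d : Hom P P) (S S' : ℤ → Sub P) (y : X) : Prop :=
  ∀ (b : ℤ) (O : Opens X), y ∈ O → ∀ x ∈ (S' b).sub O, d.app O x ∈ (S (b + 1)).sub O →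
    ∃ (O' : Opens X) (h : O' ≤ O), y ∈ O' ∧ ∃ z ∈ (S' (b - 1)).sub O',
      P.res h x - d.app O' z ∈ (S b).sub O'

/-- A mixed Hodge structure on the subquotient `Z / B`. -/
structure MHS {V : Type} [AddCommGroup V] [Module k V] (Z B : Submodule k V)
    (W F Fb : ℤ → Submodule k V) : Prop where
  W_mono : Monotone W
  F_anti : Antitone F
  Fb_anti : Antitone Fb
  B_W : ∀ j, B ≤ W j
  B_F : ∀ p, B ≤ F p
  B_Fb : ∀ p, B ≤ Fb p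
  W_Z : ∀ j, W j ≤ Z
  F_Z : ∀ p, F p ≤ Z
  Fb_Z : ∀ p, Fb p ≤ Z
  W_bot : ∃ j, W j ≤ B
  W_top : ∃ j, Z ≤ W j
  F_bot : ∃ p, F p ≤ B
  F_top : ∃ p, Z ≤ F p
  span : ∀ j p, W j ≤ F p ⊓ W j ⊔ Fb (j - p + 1) ⊓ W j ⊔ W (j - 1)
  disj : ∀ j p, ∀ x ∈ F p ⊓ W j, ∀ y ∈ Fb (j - p + 1) ⊓ W j, x - y ∈ W (j - 1) → x ∈ W (j - 1)

/-- the canonical complement of `F p` -/
def Spl {V : Type} [AddCommGroup V] [Module k V] (W Fb : ℤ → Submodule k V) (p : ℤ) :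
    Submodule k V := ⨆ j, Fb (j - p + 1) ⊓ W j

/-- `N` is stable under the canonical projections -/
def Good {V : Type} [AddCommGroup V] [Module k V] (W F Fb : ℤ → Submodule k V)
    (N : Submodule k V) : Prop := ∀ p, ∀ a ∈ F p, ∀ s ∈ Spl W Fb p, a + s ∈ N → a ∈ N

/-- The local and global input for a mixed Hodge complex of presheaves supported on `M`. -/
structure MHC (P : PSh k X) (M : Set X) where
  d : Hom P P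
  κ : Hom P P
  cuts : Set (Hom P P)
  All : ℤ → Sub P
  F : ℤ → ℤ → Sub P
  W : ℤ → ℤ → Sub P
  Wt : ℤ → ℤ → Sub P
  Y : ℤ → ℤ → Sub P
  τ : ℤ → ℤ → Sub P
  Z : ℤ → ℤ → Sub P
  Cj : ℤ → ℤ → Sub (P.prod P)
  compact : IsCompact M
  sh : P.IsSh
  supp : ∀ O : Opens X, Disjoint (O : Set X) M → ∀ x : P.obj O, x = 0
  cut : P.Cut cuts
  dd : ∀ O x, d.app O (d.app O x) = 0
  κκ : ∀ O x, κ.app O (κ.app O x) = x
  κd : ∀ O x, κ.app O (d.app O x) = d.app O (κ.app O x)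
  All_cx : IsCx d All
  W_cx : ∀ q, IsCx d (W q)
  FW_cx : ∀ p q, IsCx d fun b => F p b ⊓ W q b
  Wt_cx : ∀ q, IsCx d (Wt q)
  Y_cx : ∀ q, IsCx d (Y q)
  τ_cx : ∀ q, IsCx d (τ q)
  Z_cx : ∀ q, IsCx d (Z q)
  All_fine : ∀ b, (All b).Fine cuts
  W_fine : ∀ q b, (W q b).Fine cuts
  Wt_fine : ∀ q b, (Wt q b).Fine cuts
  All_neg : ∀ b < 0, All b ≤ ⊥
  κ_All : ∀ b, Sub.Maps κ (All b) (All b)
  κ_τ : ∀ q b, Sub.Maps κ (τ q b) (τ q b)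
  F_anti : ∀ p b, F (p + 1) b ≤ F p b
  F_top : ∀ b, All b ≤ F 0 b
  F_bot : ∀ b, F (b + 1) b ⊓ All b ≤ ⊥
  W_mono : ∀ q b, W q b ≤ W (q + 1) b
  τ_mono : ∀ q b, τ q b ≤ τ (q + 1) b
  W_All : ∀ q b, W q b ≤ All b
  τ_All : ∀ q b, τ q b ≤ All b
  W_bot : ∃ q₀, ∀ q ≤ q₀, ∀ b, W q b ≤ ⊥ ∧ τ q b ≤ ⊥
  W_top : ∀ q b, b ≤ q → W q b ≤ W b b
  τ_top : ∀ q b, b < q → All b ≤ τ q b
  τ_Wt : ∀ q b, τ q b ⊓ W q b ≤ Wt q b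
  Wt_W : ∀ q b, Wt q b ≤ W q b
  W_Y : ∀ q b, W (q - 1) b ≤ Y q b
  Y_W : ∀ q b, Y q b ≤ W q b
  la_τ : ∀ q, ∀ y ∈ M, LAat d (τ q) (fun b => W q b ⊔ τ q b) y
  la_W : ∀ q, ∀ y ∈ M, LAat d (W q) (fun b => W q b ⊔ τ q b) y
  la_Y : ∀ q, ∀ y ∈ M, LAat d (Y q) (W q) y
  le_Z : ∀ q b, W (q - 1) b ⊔ τ (q - 1) b ≤ Z q b
  Z_le : ∀ q b, Z q b ≤ W q b ⊔ τ q b
  la_Z : ∀ q, ∀ y ∈ M, LAat d (fun b => W (q - 1) b ⊔ τ (q - 1) b) (Z q) y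
  Z_W : ∀ q b O, ∀ x ∈ (Z q b ⊓ W q b).sub O, ∀ y ∈ O, (W (q - 1) b).Near x y
  Cj_Y : ∀ q b O, ∀ x ∈ (Cj q b).sub O, x.1 ∈ (Y q b).sub O ∧ x.2 ∈ (Y q b).sub O
  Cj_d : ∀ q b O, ∀ x ∈ (Cj q b).sub O, (d.app O x.1, d.app O x.2) ∈ (Cj q (b + 1)).sub O
  Cj_W : ∀ q b O, ∀ x ∈ (Cj q b).sub O, x.1 ∈ (W (q - 1) b).sub O → x.2 ∈ (W (q - 1) b).sub O
  Cj_ex : ∀ q b O, ∀ x ∈ (Y q b).sub O, ∀ y ∈ O, ∃ (O' : Opens X) (h : O' ≤ O), y ∈ O' ∧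
    ∃ x', (P.res h x, x') ∈ (Cj q b).sub O'
  Cj_τ : ∀ q b O, ∀ t ∈ (τ q b).sub O, ∀ y ∈ O, ∃ (O' : Opens X) (h : O' ≤ O), y ∈ O' ∧
    ∃ x ∈ (Cj q b).sub O', P.res h t - x.1 ∈ (Z q b).sub O' ∧
      κ.app O' (P.res h t) - x.2 ∈ (Z q b).sub O'
  strict : ∀ p q b, ∀ x ∈ (F p b ⊓ W q b).sub ⊤, ∀ z ∈ (W q (b - 1)).sub ⊤,
    x - d.app ⊤ z ∈ (W (q - 1) b).sub ⊤ →
    ∃ z' ∈ (F p (b - 1) ⊓ W q (b - 1)).sub ⊤, x - d.app ⊤ z' ∈ (W (q - 1) b).sub ⊤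
  span : ∀ p q b, ∀ x ∈ (W q b).sub ⊤, d.app ⊤ x ∈ (W (q - 1) (b + 1)).sub ⊤ →
    ∃ f ∈ (F p b ⊓ W q b).sub ⊤, ∃ g ∈ (Cj q b).sub ⊤, ∃ z ∈ (W q (b - 1)).sub ⊤,
      g.1 ∈ (F (b + q - p + 1) b).sub ⊤ ∧ d.app ⊤ f ∈ (W (q - 1) (b + 1)).sub ⊤ ∧
      d.app ⊤ g.1 ∈ (W (q - 1) (b + 1)).sub ⊤ ∧ x - f - g.2 - d.app ⊤ z ∈ (W (q - 1) b).sub ⊤
  conj : ∀ p q b, ∀ x ∈ (F p b ⊓ W q b).sub ⊤, d.app ⊤ x ∈ (W (q - 1) (b + 1)).sub ⊤ →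
    ∃ g ∈ (Cj q b).sub ⊤, ∃ z ∈ (W q (b - 1)).sub ⊤, g.1 ∈ (F p b).sub ⊤ ∧
      x - g.1 - d.app ⊤ z ∈ (W (q - 1) b).sub ⊤
  disj : ∀ p q b, ∀ f ∈ (F p b ⊓ W q b).sub ⊤, ∀ g ∈ (Cj q b).sub ⊤, ∀ z ∈ (W q (b - 1)).sub ⊤,
    g.1 ∈ (F (b + q - p + 1) b).sub ⊤ → d.app ⊤ f ∈ (W (q - 1) (b + 1)).sub ⊤ →
    d.app ⊤ g.1 ∈ (W (q - 1) (b + 1)).sub ⊤ → f - g.2 - d.app ⊤ z ∈ (W (q - 1) b).sub ⊤ →
    ∃ z' ∈ (W q (b - 1)).sub ⊤, f - d.app ⊤ z' ∈ (W (q - 1) b).sub ⊤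

namespace MHC
variable {P : PSh k X} {M : Set X} (C : MHC P M)

/-- cocycles -/
def Zc (n : ℤ) : Submodule k (P.obj ⊤) := (C.All n).sub ⊤ ⊓ LinearMap.ker (C.d.app ⊤)
/-- coboundaries -/
def Bd (n : ℤ) : Submodule k (P.obj ⊤) := ((C.All (n - 1)).sub ⊤).map (C.d.app ⊤)
/-- weight filtration -/
def Wc (n j : ℤ) : Submodule k (P.obj ⊤) :=
  (C.W (j - n) n).sub ⊤ ⊓ LinearMap.ker (C.d.app ⊤) ⊔ C.Bd n
/-- Hodge filtration -/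
def Fc (n p : ℤ) : Submodule k (P.obj ⊤) :=
  (C.F p n ⊓ C.W n n).sub ⊤ ⊓ LinearMap.ker (C.d.app ⊤) ⊔ C.Bd n
/-- conjugate Hodge filtration -/
def Fbc (n p : ℤ) : Submodule k (P.obj ⊤) := (C.Fc n p).map (C.κ.app ⊤)

end MHC

end Pool.Agent.PWD
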