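import Pool.Agent.P.MP_65ad7c_ag.SBase

/-! Stalks and the Godement resolution, functorial along continuous maps. -/

open TopologicalSpace

set_option backward.isDefEq.respectTransparency false

noncomputable section
namespace Pool.Agent.PW.S

variable {Y Z Z' : Type} [TopologicalSpace Y] [TopologicalSpace Z] [TopologicalSpace Z']

/-- open neighbourhoods, ordered by reverse inclusion -/
abbrev Nb (x : Y) := {V : Opens Y // x ∈ V}ᵒᵈ

instance (x : Y) : Nonempty (Nb x) := ⟨OrderDual.toDual ⟨⊤, trivial⟩⟩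

instance (x : Y) : IsDirectedOrder (Nb x) :=
  ⟨fun V W => ⟨OrderDual.toDual ⟨(OrderDual.ofDual V).1 ⊓ (OrderDual.ofDual W).1,
    ⟨(OrderDual.ofDual V).2, (OrderDual.ofDual W).2⟩⟩,
    (inf_le_left : (OrderDual.ofDual V).1 ⊓ (OrderDual.ofDual W).1 ≤ _),
    (inf_le_right : (OrderDual.ofDual V).1 ⊓ (OrderDual.ofDual W).1 ≤ _)⟩⟩

instance (x : Y) : DecidableEq (Nb x) := Classical.decEq _

/-- transition maps of the directed system of sections near `x` -/
def PS.tr (F : PS Y) (x : Y) (V W : Nb x) (h : V ≤ W) :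
    F.obj (OrderDual.ofDual V).1 →ₗ[ℂ] F.obj (OrderDual.ofDual W).1 := F.res h

instance (F : PS Y) (x : Y) :
    DirectedSystem (fun V : Nb x => F.obj (OrderDual.ofDual V).1) fun V W h => F.tr x V W h where
  map_self _ s := F.res_self _ _ s
  map_map _ _ _ h h' s := F.res_res h h' s

/-- the stalk -/
def PS.stalk (F : PS Y) (x : Y) : Type :=
  Module.DirectLimit (fun V : Nb x => F.obj (OrderDual.ofDual V).1) (F.tr x)

instance (F : PS Y) (x : Y) : AddCommGroup (F.stalk x) :=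
  inferInstanceAs (AddCommGroup (Module.DirectLimit _ _))
instance (F : PS Y) (x : Y) : Module ℂ (F.stalk x) :=
  inferInstanceAs (Module ℂ (Module.DirectLimit _ _))

/-- the germ of a section -/
def PS.germ (F : PS Y) {x : Y} (V : Opens Y) (hx : x ∈ V) : F.obj V →ₗ[ℂ] F.stalk x :=
  Module.DirectLimit.of ℂ (Nb x) (fun V : Nb x => F.obj (OrderDual.ofDual V).1) (F.tr x)
    (OrderDual.toDual ⟨V, hx⟩)

theorem PS.germ_res (F : PS Y) {x : Y} {V W : Opens Y} (h : W ≤ V) (hx : x ∈ W) (s : F.obj V) :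
    F.germ W hx (F.res h s) = F.germ V (h hx) s :=
  Module.DirectLimit.of_f (f := F.tr x) (i := OrderDual.toDual ⟨V, h hx⟩)
    (j := OrderDual.toDual ⟨W, hx⟩) (hij := h) (x := s)

theorem PS.germ_surj (F : PS Y) {x : Y} (ξ : F.stalk x) :
    ∃ (V : Opens Y) (hx : x ∈ V) (s : F.obj V), F.germ V hx s = ξ := by
  obtain ⟨V, s, h⟩ := Module.DirectLimit.exists_of (f := F.tr x) ξ
  exact ⟨(OrderDual.ofDual V).1, (OrderDual.ofDual V).2, s, h⟩

theorem PS.germ_eq_zero (F : PS Y) {x : Y} {V : Opens Y} (hx : x ∈ V) (s : F.obj V) :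
    F.germ V hx s = 0 ↔ F.LocZero x s := by
  constructor
  · intro h
    obtain ⟨W, hW, h0⟩ := Module.DirectLimit.of.zero_exact (f := F.tr x) h
    exact ⟨(OrderDual.ofDual W).1, hW, (OrderDual.ofDual W).2, h0⟩
  · rintro ⟨W, h, hW, h0⟩
    rw [← F.germ_res h hW, h0, map_zero]

/-- maps out of a stalk -/
def PS.lift (F : PS Y) (x : Y) {E : Type} [AddCommGroup E] [Module ℂ E]
    (φ : ∀ V : Opens Y, x ∈ V → F.obj V →ₗ[ℂ] E)
    (hφ : ∀ (V W : Opens Y) (h : W ≤ V) (hx : x ∈ W) s, φ W hx (F.res h s) = φ V (h hx) s) :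
    F.stalk x →ₗ[ℂ] E :=
  Module.DirectLimit.lift ℂ (Nb x) _ (F.tr x)
    (fun V => φ (OrderDual.ofDual V).1 (OrderDual.ofDual V).2) fun _ _ h s => hφ _ _ h _ s

@[simp] theorem PS.lift_germ (F : PS Y) (x : Y) {E : Type} [AddCommGroup E] [Module ℂ E]
    (φ : ∀ V : Opens Y, x ∈ V → F.obj V →ₗ[ℂ] E) (hφ) (V : Opens Y) (hx : x ∈ V) (s : F.obj V) :
    F.lift x φ hφ (F.germ V hx s) = φ V hx s :=
  Module.DirectLimit.lift_of _ _ _

/-- the map on stalks along `f` -/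
def smap (f : C(Y, Z)) {A : PS Z} {B : PS Y} (u : Mor A (B.push f)) (y : Y) :
    A.stalk (f y) →ₗ[ℂ] B.stalk y :=
  A.lift (f y) (fun V hV => (B.germ (pre f V) hV).comp (u.app V)) fun V W h hx s => by
    have := u.nat h s
    show B.germ (pre f W) hx (u.app W (A.res h s)) = B.germ (pre f V) (h hx) (u.app V s)
    rw [← this]
    exact B.germ_res (pre_mono f h) hx _

@[simp] theorem smap_germ (f : C(Y, Z)) {A : PS Z} {B : PS Y} (u : Mor A (B.push f)) (y : Y)
    (V : Opens Z) (hV : f y ∈ V) (s : A.obj V) :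
    smap f u y (A.germ V hV s) = B.germ (pre f V) hV (u.app V s) := A.lift_germ _ _ _ _ _ _

/-- discontinuous sections -/
def PS.T (F : PS Y) : PS Y where
  obj V := ∀ x : V, F.stalk x.1
  acg _ := inferInstance
  mod _ := inferInstance
  res h := { toFun := fun s x => s ⟨x.1, h x.2⟩
             map_add' := fun _ _ => rfl
             map_smul' := fun _ _ => rfl }
  res_self _ _ _ := rfl
  res_res _ _ _ := rfl

theorem PS.T_res (F : PS Y) {V W : Opens Y} (h : W ≤ V) (s : F.T.obj V) (x : W) :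
    F.T.res h s x = s ⟨x.1, h x.2⟩ := rfl

/-- the unit -/
def PS.η (F : PS Y) : Mor F F.T :=
  ⟨fun V => LinearMap.pi (φ := fun x : V => F.stalk x.1) fun x => F.germ V x.2,
    fun h s => funext fun x => (F.germ_res h x.2 s).symm⟩

theorem PS.η_app (F : PS Y) (V : Opens Y) (s : F.obj V) (x : V) :
    F.η.app V s x = F.germ V x.2 s := rfl

/-- `T` along `f` -/
def Tmap (f : C(Y, Z)) {A : PS Z} {B : PS Y} (u : Mor A (B.push f)) : Mor A.T (B.T.push f) :=
  ⟨fun V => { toFun := fun s y => smap f u y.1 (s ⟨f y.1, y.2⟩)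
              map_add' := fun _ _ => funext fun _ => map_add _ _ _
              map_smul' := fun c s => funext fun y =>
                map_smul (smap f u y.1) c (s ⟨f y.1, y.2⟩) }, fun _ _ => rfl⟩

theorem Tmap_app (f : C(Y, Z)) {A : PS Z} {B : PS Y} (u : Mor A (B.push f)) (V : Opens Z)
    (s : A.T.obj V) (y : pre f V) : (Tmap f u).app V s y = smap f u y.1 (s ⟨f y.1, y.2⟩) := rfl

theorem Tmap_η (f : C(Y, Z)) {A : PS Z} {B : PS Y} (u : Mor A (B.push f)) (V : Opens Z)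
    (s : A.obj V) : (Tmap f u).app V (A.η.app V s) = B.η.app (pre f V) (u.app V s) :=
  funext fun y => smap_germ f u y.1 V y.2 s

theorem Tmap_Tmap (f : C(Y, Z)) (g : C(Z, Z')) {A : PS Z'} {B : PS Z} {C : PS Y}
    (u : Mor A (B.push g)) (v : Mor B (C.push f)) (w : Mor A (C.push (g.comp f)))
    (h : ∀ V s, w.app V s = v.app (pre g V) (u.app V s)) (V : Opens Z') (s : A.T.obj V) :
    (Tmap f v).app (pre g V) ((Tmap g u).app V s) = (Tmap (g.comp f) w).app V s := by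
  funext y
  rw [Tmap_app, Tmap_app, Tmap_app]
  obtain ⟨W, hW, a, ha⟩ := A.germ_surj (s ⟨g (f y.1), y.2⟩)
  have h1 : s ⟨(g.comp f) y.1, y.2⟩ = A.germ W hW a := ha.symm
  rw [h1, ← ha, smap_germ, smap_germ]
  exact (congrArg _ (h W a)).symm.trans (smap_germ (g.comp f) w y.1 W hW a).symm

theorem Tmap_zero (f : C(Y, Z)) {A : PS Z} {B : PS Y} (w : Mor A (B.push f))
    (h : ∀ V s, w.app V s = 0) (V : Opens Z) (s : A.T.obj V) : (Tmap f w).app V s = 0 := by
  funext y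
  rw [Tmap_app]
  obtain ⟨W, hW, a, ha⟩ := A.germ_surj (s ⟨f y.1, y.2⟩)
  rw [← ha, smap_germ, h]
  exact map_zero _

/-- the presheaf cokernel of the unit -/
def PS.Q (F : PS Y) : PS Y where
  obj V := F.T.obj V ⧸ LinearMap.range (F.η.app V)
  acg _ := inferInstance
  mod _ := inferInstance
  res h := Submodule.mapQ _ _ (F.T.res h) (by
    rintro _ ⟨s, rfl⟩
    exact ⟨F.res h s, (F.η.nat h s).symm⟩)
  res_self V h s := by
    obtain ⟨s, rfl⟩ := Submodule.Quotient.mk_surjective _ s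
    rfl
  res_res h h' s := by
    obtain ⟨s, rfl⟩ := Submodule.Quotient.mk_surjective _ s
    rfl

/-- the projection to the cokernel -/
def PS.π (F : PS Y) : Mor F.T F.Q := ⟨fun _ => Submodule.mkQ _, fun _ _ => rfl⟩

theorem PS.π_surj (F : PS Y) (V : Opens Y) : Function.Surjective (F.π.app V) :=
  Submodule.mkQ_surjective _

theorem PS.π_eq_zero (F : PS Y) (V : Opens Y) (s : F.T.obj V) :
    F.π.app V s = 0 ↔ ∃ a, F.η.app V a = s := Submodule.Quotient.mk_eq_zero _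

theorem PS.π_η (F : PS Y) (V : Opens Y) (a : F.obj V) : F.π.app V (F.η.app V a) = 0 :=
  (F.π_eq_zero V _).2 ⟨a, rfl⟩

/-- `Q` along `f` -/
def Qmap (f : C(Y, Z)) {A : PS Z} {B : PS Y} (u : Mor A (B.push f)) : Mor A.Q (B.Q.push f) :=
  ⟨fun V => Submodule.mapQ _ _ ((Tmap f u).app V) (by
    rintro _ ⟨s, rfl⟩
    exact ⟨u.app V s, (Tmap_η f u V s).symm⟩), fun h s => by
    obtain ⟨s, rfl⟩ := Submodule.Quotient.mk_surjective _ s
    rfl⟩

theorem Qmap_π (f : C(Y, Z)) {A : PS Z} {B : PS Y} (u : Mor A (B.push f)) (V : Opens Z)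
    (s : A.T.obj V) :
    (Qmap f u).app V (A.π.app V s) = B.π.app (pre f V) ((Tmap f u).app V s) := rfl

/-- `T` on morphisms -/
def Mor.T {A B : PS Y} (u : Mor A B) : Mor A.T B.T := Tmap (ContinuousMap.id Y) u

/-- `Q` on morphisms -/
def Mor.Q {A B : PS Y} (u : Mor A B) : Mor A.Q B.Q := Qmap (ContinuousMap.id Y) u

theorem Mor.T_η {A B : PS Y} (u : Mor A B) (V : Opens Y) (s : A.obj V) :
    u.T.app V (A.η.app V s) = B.η.app V (u.app V s) := Tmap_η (ContinuousMap.id Y) u V s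

theorem Mor.Q_π {A B : PS Y} (u : Mor A B) (V : Opens Y) (s : A.T.obj V) :
    u.Q.app V (A.π.app V s) = B.π.app V (u.T.app V s) := rfl

theorem Cx.T_dd (A : Cx Y) (n : ℕ) (V : Opens Y) (s : (A.X n).T.obj V) :
    (A.d (n + 1)).T.app V ((A.d n).T.app V s) = 0 :=
  (Tmap_Tmap (ContinuousMap.id Y) (ContinuousMap.id Y) (A.d n) (A.d (n + 1))
    ((A.d (n + 1)).comp (A.d n)) (fun _ _ => rfl) V s).trans
    (Tmap_zero _ _ (fun V s => A.dd n V s) V s)

theorem CMap.T_comm (f : C(Y, Z)) {A : Cx Z} {B : Cx Y} (u : CMap A (B.push f)) (n : ℕ)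
    (V : Opens Z) (s : (A.X n).T.obj V) :
    (B.d n).T.app (pre f V) ((Tmap f (u.f n)).app V s) =
      (Tmap f (u.f (n + 1))).app V ((A.d n).T.app V s) :=
  (Tmap_Tmap (ContinuousMap.id Y) f (u.f n) (B.d n) ((u.f (n + 1)).comp (A.d n))
    (fun V s => (u.comm n V s).symm) V s).trans
    (Tmap_Tmap f (ContinuousMap.id Z) (A.d n) (u.f (n + 1)) ((u.f (n + 1)).comp (A.d n))
      (fun _ _ => rfl) V s).symm

/-- the complex of cokernels -/
def Cx.Q (A : Cx Y) : Cx Y where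
  X n := (A.X n).Q
  d n := (A.d n).Q
  dd n V s := by
    obtain ⟨s, rfl⟩ := (A.X n).π_surj V s
    rw [Mor.Q_π, Mor.Q_π, A.T_dd, map_zero]

/-- `Q` on chain maps along `f` -/
def QC (f : C(Y, Z)) {A : Cx Z} {B : Cx Y} (u : CMap A (B.push f)) : CMap A.Q (B.Q.push f) :=
  ⟨fun n => Qmap f (u.f n), fun n V s => by
    obtain ⟨s, rfl⟩ := (A.X n).π_surj V s
    exact congrArg ((B.X (n + 1)).π.app (pre f V)) (u.T_comm f n V s)⟩

/-- terms of the Godement resolution -/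
def GX : ℕ → Cx Y → PS Y
  | 0, A => (A.X 0).T
  | m + 1, A => (A.X (m + 1)).T.prod (GX m A.Q)

/-- pairing of morphisms -/
def Mor.pair {A B C : PS Y} (u : Mor A B) (v : Mor A C) : Mor A (B.prod C) :=
  ⟨fun V => (u.app V).prod (v.app V), fun h s => Prod.ext (u.nat h s) (v.nat h s)⟩

/-- first projection -/
def Mor.fst (B C : PS Y) : Mor (B.prod C) B := ⟨fun _ => LinearMap.fst _ _ _, fun _ _ => rfl⟩

/-- second projection -/
def Mor.snd (B C : PS Y) : Mor (B.prod C) C := ⟨fun _ => LinearMap.snd _ _ _, fun _ _ => rfl⟩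

/-- augmentation -/
def Gaug : ∀ (m : ℕ) (A : Cx Y), Mor (A.X m) (GX m A)
  | 0, A => (A.X 0).η
  | m + 1, A => (A.X (m + 1)).η.pair 0

/-- differential -/
def Gd : ∀ (m : ℕ) (A : Cx Y), Mor (GX m A) (GX (m + 1) A)
  | 0, A => (A.d 0).T.pair ((Gaug 0 A.Q).comp (A.X 0).π)
  | m + 1, A => ((A.d (m + 1)).T.comp (Mor.fst _ _)).pair
      (((Gaug (m + 1) A.Q).comp (A.X (m + 1)).π).comp (Mor.fst _ _) -
        (Gd m A.Q).comp (Mor.snd _ _))

theorem Gd_zero (A : Cx Y) (V : Opens Y) (a : (A.X 0).T.obj V) :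
    (Gd 0 A).app V a = ((A.d 0).T.app V a, (Gaug 0 A.Q).app V ((A.X 0).π.app V a)) := rfl

theorem Gd_succ (m : ℕ) (A : Cx Y) (V : Opens Y) (a : (A.X (m + 1)).T.obj V)
    (b : (GX m A.Q).obj V) :
    (Gd (m + 1) A).app V (a, b) = ((A.d (m + 1)).T.app V a,
      (Gaug (m + 1) A.Q).app V ((A.X (m + 1)).π.app V a) - (Gd m A.Q).app V b) := rfl

theorem Gaug_succ (m : ℕ) (A : Cx Y) (V : Opens Y) (s : (A.X (m + 1)).obj V) :
    (Gaug (m + 1) A).app V s = ((A.X (m + 1)).η.app V s, (0 : (GX m A.Q).obj V)) := rfl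

theorem Gd_aug : ∀ (m : ℕ) (A : Cx Y) (V : Opens Y) (s : (A.X m).obj V),
    (Gd m A).app V ((Gaug m A).app V s) = (Gaug (m + 1) A).app V ((A.d m).app V s)
  | 0, A, V, s => by
    refine (Gd_zero A V _).trans (Prod.ext ((A.d 0).T_η V s) ?_)
    exact (congrArg ((Gaug 0 A.Q).app V) ((A.X 0).π_η V s)).trans (map_zero _)
  | m + 1, A, V, s => by
    refine (Gd_succ m A V _ _).trans (Prod.ext ((A.d (m + 1)).T_η V s) ?_)
    show (Gaug (m + 1) A.Q).app V ((A.X (m + 1)).π.app V ((A.X (m + 1)).η.app V s)) -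
      (Gd m A.Q).app V 0 = 0
    rw [PS.π_η, map_zero, map_zero, sub_zero]

theorem Gd_Gd : ∀ (m : ℕ) (A : Cx Y) (V : Opens Y) (s : (GX m A).obj V),
    (Gd (m + 1) A).app V ((Gd m A).app V s) = 0
  | 0, A, V, s => by
    refine (Gd_succ 0 A V _ _).trans (Prod.ext (A.T_dd 0 V s) ?_)
    show (Gaug 1 A.Q).app V ((A.X 1).π.app V ((A.d 0).T.app V s)) -
      (Gd 0 A.Q).app V ((Gaug 0 A.Q).app V ((A.X 0).π.app V s)) = 0
    rw [Gd_aug]
    exact sub_self _
  | m + 1, A, V, (a, b) => by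
    refine (Gd_succ (m + 1) A V _ _).trans (Prod.ext (A.T_dd (m + 1) V a) ?_)
    show (Gaug (m + 2) A.Q).app V ((A.X (m + 2)).π.app V ((A.d (m + 1)).T.app V a)) -
      (Gd (m + 1) A.Q).app V ((Gaug (m + 1) A.Q).app V ((A.X (m + 1)).π.app V a) -
        (Gd m A.Q).app V b) = 0
    rw [map_sub, Gd_aug, Gd_Gd m A.Q V b, sub_zero]
    exact sub_self _

/-- the Godement resolution -/
def Cx.G (A : Cx Y) : Cx Y := ⟨fun m => GX m A, fun m => Gd m A, fun m => Gd_Gd m A⟩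

/-- the augmentation of the Godement resolution -/
def Cx.aug (A : Cx Y) : CMap A A.G := ⟨fun m => Gaug m A, fun m => Gd_aug m A⟩

/-- the Godement resolution along `f`, termwise -/
def Gf (f : C(Y, Z)) : ∀ (m : ℕ) {A : Cx Z} {B : Cx Y} (_ : CMap A (B.push f)),
    Mor (GX m A) ((GX m B).push f)
  | 0, _, _, u => Tmap f (u.f 0)
  | m + 1, _, _, u => ((Tmap f (u.f (m + 1))).comp (Mor.fst _ _)).pair
      ((Gf f m (QC f u)).comp (Mor.snd _ _))

theorem Gf_succ (f : C(Y, Z)) (m : ℕ) {A : Cx Z} {B : Cx Y} (u : CMap A (B.push f)) (V : Opens Z)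
    (a : (A.X (m + 1)).T.obj V) (b : (GX m A.Q).obj V) :
    (Gf f (m + 1) u).app V (a, b) =
      ((Tmap f (u.f (m + 1))).app V a, (Gf f m (QC f u)).app V b) := rfl

theorem Gf_aug (f : C(Y, Z)) : ∀ (m : ℕ) {A : Cx Z} {B : Cx Y} (u : CMap A (B.push f))
    (V : Opens Z) (s : (A.X m).obj V),
    (Gf f m u).app V ((Gaug m A).app V s) = (Gaug m B).app (pre f V) ((u.f m).app V s)
  | 0, _, _, u, V, s => Tmap_η f (u.f 0) V s
  | m + 1, _, _, u, V, s =>
    (Gf_succ f m u V _ _).trans (Prod.ext (Tmap_η f (u.f (m + 1)) V s) (map_zero _))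

theorem Gf_comm (f : C(Y, Z)) : ∀ (m : ℕ) {A : Cx Z} {B : Cx Y} (u : CMap A (B.push f))
    (V : Opens Z) (s : (GX m A).obj V),
    (Gd m B).app (pre f V) ((Gf f m u).app V s) = (Gf f (m + 1) u).app V ((Gd m A).app V s)
  | 0, A, B, u, V, s => by
    refine (Gd_zero B _ _).trans (Prod.ext (u.T_comm f 0 V s) ?_)
    exact (Gf_aug f 0 (QC f u) V ((A.X 0).π.app V s)).symm
  | m + 1, A, B, u, V, (a, b) => by
    refine (Gd_succ m B _ _ _).trans (Prod.ext (u.T_comm f (m + 1) V a) ?_)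
    show _ = (Gf f (m + 1) (QC f u)).app V
      ((Gaug (m + 1) A.Q).app V ((A.X (m + 1)).π.app V a) - (Gd m A.Q).app V b)
    rw [map_sub, Gf_aug, ← Gf_comm f m (QC f u) V b]
    rfl

/-- the Godement resolution along `f` -/
def Gmap (f : C(Y, Z)) {A : Cx Z} {B : Cx Y} (u : CMap A (B.push f)) : CMap A.G (B.G.push f) :=
  ⟨fun m => Gf f m u, fun m => Gf_comm f m u⟩

theorem Gmap_aug (f : C(Y, Z)) {A : Cx Z} {B : Cx Y} (u : CMap A (B.push f)) (m : ℕ)
    (V : Opens Z) (s : (A.X m).obj V) :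
    ((Gmap f u).f m).app V ((A.aug.f m).app V s) =
      (B.aug.f m).app (pre f V) ((u.f m).app V s) := Gf_aug f m u V s

end Pool.Agent.PW.S
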