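import Pool.Agent.P.MP_65ad7c_ag.SNull
import Pool.Agent.P.MP_65ad7c_ag.SGod

/-! The augmentation of the Godement resolution is a local quasi-isomorphism. -/

open TopologicalSpace

set_option backward.isDefEq.respectTransparency false

noncomputable section
namespace Pool.Agent.PW.S

variable {Y Z Z' : Type} [TopologicalSpace Y] [TopologicalSpace Z] [TopologicalSpace Z']

theorem PS.locZero_η (F : PS Y) {x : Y} {V : Opens Y} (hx : x ∈ V) (s : F.obj V) :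
    F.T.LocZero x (F.η.app V s) ↔ F.LocZero x s := by
  constructor
  · rintro ⟨W, h, hW, h0⟩
    exact (F.germ_eq_zero hx s).1 (congrFun h0 ⟨x, hW⟩)
  · rintro ⟨W, h, hW, h0⟩
    exact ⟨W, h, hW, by rw [F.η.nat, h0, map_zero]⟩

theorem sgodq_zero (F : PS Y) {x : Y} {V : Opens Y} (hx : x ∈ V) {s : F.obj V}
    (h : F.η.app V s = 0) : F.LocZero x s :=
  (F.locZero_η hx s).1 ⟨V, le_rfl, hx, by rw [h, map_zero]⟩

/-- boundaries of the resolution -/
theorem sgodq_bd (A : Cx Y) (m : ℕ) (W : Opens Y) (t : (A.X (m + 1)).T.obj W)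
    (b : (GX m A.Q).obj W) :
    ((t, b) : (GX (m + 1) A).obj W) ∈ A.G.Bd (m + 1) W ↔ ∃ t' : (A.X m).T.obj W,
      (A.d m).T.app W t' = t ∧
        (Gaug m A.Q).app W ((A.X m).π.app W t') - b ∈ A.Q.G.Bd m W := by
  cases m with
  | zero =>
    constructor
    · rintro ⟨t', h⟩
      exact ⟨t', congrArg Prod.fst h, sub_eq_zero.2 (congrArg Prod.snd h)⟩
    · rintro ⟨t', h1, h2⟩
      exact ⟨t', Prod.ext h1 (sub_eq_zero.1 h2)⟩
  | succ m =>
    constructor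
    · rintro ⟨⟨t', b'⟩, h⟩
      refine ⟨t', congrArg Prod.fst h, b', ?_⟩
      have h2 : (Gaug (m + 1) A.Q).app W ((A.X (m + 1)).π.app W t') - (Gd m A.Q).app W b' = b :=
        congrArg Prod.snd h
      rw [← h2]
      exact (sub_sub_cancel _ _).symm
    · rintro ⟨t', h1, b', h2⟩
      refine ⟨(t', b'), Prod.ext h1 ?_⟩
      have h3 : (Gd m A.Q).app W b' =
        (Gaug (m + 1) A.Q).app W ((A.X (m + 1)).π.app W t') - b := h2
      show (Gaug (m + 1) A.Q).app W ((A.X (m + 1)).π.app W t') - (Gd m A.Q).app W b' = b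
      rw [h3]
      exact sub_sub_cancel _ _

/-- boundaries of the cokernel complex -/
theorem sgodq_bdQ (A : Cx Y) (m : ℕ) (W : Opens Y) (t : (A.X m).T.obj W)
    (h : (A.X m).π.app W t ∈ A.Q.Bd m W) :
    ∃ a : (A.X m).obj W, (A.d m).T.app W t = (A.X (m + 1)).η.app W ((A.d m).app W a) := by
  cases m with
  | zero =>
    obtain ⟨a, rfl⟩ := ((A.X 0).π_eq_zero W t).1 h
    exact ⟨a, (A.d 0).T_η W a⟩
  | succ m =>
    obtain ⟨q, hq⟩ := h
    obtain ⟨t', rfl⟩ := (A.X m).π_surj W q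
    have h1 : (A.X (m + 1)).π.app W ((A.d m).T.app W t') = (A.X (m + 1)).π.app W t := hq
    obtain ⟨a, ha⟩ := ((A.X (m + 1)).π_eq_zero W (t - (A.d m).T.app W t')).1
      (by rw [map_sub, h1, sub_self])
    refine ⟨a, ?_⟩
    rw [← Mor.T_η, ha, map_sub, A.T_dd, sub_zero]

theorem aug_inj : ∀ (n : ℕ) (A : Cx Y) (x : Y) (V : Opens Y), x ∈ V → ∀ a : (A.X n).obj V,
    (A.d n).app V a = 0 → A.G.LocBd x ((A.aug.f n).app V a) → A.LocBd x a := by
  intro n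
  induction n with
  | zero =>
    rintro A x V hx a - ⟨W, h, hW, h0⟩
    exact ((A.X 0).locZero_η hx a).1 ⟨W, h, hW, h0⟩
  | succ m ih =>
    rintro A x V hx a - ⟨W, h, hW, h0⟩
    rw [(A.aug.f (m + 1)).nat] at h0
    obtain ⟨t', h1, h2⟩ := (sgodq_bd A m W _ 0).1 h0
    rw [sub_zero] at h2
    have h3 : (A.Q.d m).app W ((A.X m).π.app W t') = 0 :=
      (congrArg ((A.X (m + 1)).π.app W) h1).trans ((A.X (m + 1)).π_η W _)
    obtain ⟨W1, k1, hW1, h4⟩ := ih A.Q x W hW _ h3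
      ⟨W, le_rfl, hW, by rw [PS.res_self]; exact h2⟩
    obtain ⟨a', ha'⟩ := sgodq_bdQ A m W1 ((A.X m).T.res k1 t') h4
    rw [← (A.d m).T.nat, h1, (A.X (m + 1)).η.nat, PS.res_res] at ha'
    obtain ⟨W2, k2, hW2, h5⟩ := sgodq_zero (A.X (m + 1)) hW1
      (s := (A.X (m + 1)).res (k1.trans h) a - (A.d m).app W1 a') (by rw [map_sub, ha', sub_self])
    rw [map_sub, PS.res_res, sub_eq_zero, (A.d m).nat] at h5
    exact ⟨W2, k2.trans (k1.trans h), hW2, _, h5.symm⟩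

theorem sgodq_shrink (A : Cx Y) (n : ℕ) {x : Y} {V W : Opens Y} (h : W ≤ V) (hW : x ∈ W)
    (z : (A.G.X n).obj V) (a : (A.X n).obj W)
    (h1 : (A.X (n + 1)).η.app W ((A.d n).app W a) = 0)
    (h2 : (A.aug.f n).app W a - (A.G.X n).res h z ∈ A.G.Bd n W) :
    ∃ (W : Opens Y) (h : W ≤ V) (a : (A.X n).obj W), x ∈ W ∧
      (A.d n).app W a = 0 ∧ (A.aug.f n).app W a - (A.G.X n).res h z ∈ A.G.Bd n W := by
  obtain ⟨W1, k1, hW1, h3⟩ := sgodq_zero _ hW h1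
  refine ⟨W1, k1.trans h, (A.X n).res k1 a, hW1, by rw [← (A.d n).nat, h3], ?_⟩
  have := A.G.res_bd k1 h2
  rwa [map_sub, PS.res_res, (A.aug.f n).nat] at this

theorem aug_surj : ∀ (n : ℕ) (A : Cx Y) (x : Y) (V : Opens Y), x ∈ V → ∀ z : (A.G.X n).obj V,
    (A.G.d n).app V z = 0 → ∃ (W : Opens Y) (h : W ≤ V) (a : (A.X n).obj W), x ∈ W ∧
      (A.d n).app W a = 0 ∧ (A.aug.f n).app W a - (A.G.X n).res h z ∈ A.G.Bd n W := by
  intro n
  induction n with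
  | zero =>
    intro A x V hx z hz
    have h1 : (A.d 0).T.app V z = 0 := congrArg Prod.fst hz
    have h2 : (A.X 0).Q.η.app V ((A.X 0).π.app V z) = 0 := congrArg Prod.snd hz
    obtain ⟨W, h, hW, h3⟩ := sgodq_zero _ hx h2
    rw [(A.X 0).π.nat] at h3
    obtain ⟨a, ha⟩ := ((A.X 0).π_eq_zero W _).1 h3
    refine sgodq_shrink A 0 h hW z a ?_ (sub_eq_zero.2 ha)
    rw [← Mor.T_η, ha, ← (A.d 0).T.nat, h1, map_zero]
  | succ m ih =>
    rintro A x V hx ⟨t, b⟩ hz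
    have h1 : (A.d (m + 1)).T.app V t = 0 := congrArg Prod.fst hz
    have h2 : (Gaug (m + 1) A.Q).app V ((A.X (m + 1)).π.app V t) = (Gd m A.Q).app V b :=
      sub_eq_zero.1 (congrArg Prod.snd hz)
    have h3 : (A.Q.d (m + 1)).app V ((A.X (m + 1)).π.app V t) = 0 :=
      (congrArg ((A.X (m + 2)).π.app V) h1).trans (map_zero _)
    obtain ⟨W1, k1, hW1, q, hq⟩ := aug_inj (m + 1) A.Q x V hx _ h3
      ⟨V, le_rfl, hx, by rw [PS.res_self]; exact ⟨b, h2.symm⟩⟩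
    obtain ⟨t', rfl⟩ := (A.X m).π_surj W1 q
    have h4 : (A.X (m + 1)).π.app W1 ((A.d m).T.app W1 t') =
      (A.X (m + 1)).π.app W1 ((A.X (m + 1)).T.res k1 t) := hq
    obtain ⟨a, ha⟩ := ((A.X (m + 1)).π_eq_zero W1
      ((A.X (m + 1)).T.res k1 t - (A.d m).T.app W1 t')).1 (by rw [map_sub, h4, sub_self])
    have h5 : (Gd m A.Q).app W1 ((GX m A.Q).res k1 b -
        (Gaug m A.Q).app W1 ((A.X m).π.app W1 t')) = 0 := by
      rw [map_sub, Gd_aug, ← (Gd m A.Q).nat, ← h2, (Gaug (m + 1) A.Q).nat, hq, sub_self]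
    obtain ⟨W2, k2, q, hW2, h6, h7⟩ := ih A.Q x W1 hW1 _ h5
    obtain ⟨t'', rfl⟩ := (A.X m).π_surj W2 q
    obtain ⟨a'', ha''⟩ := ((A.X (m + 1)).π_eq_zero W2 ((A.d m).T.app W2 t'')).1 h6
    have h8 : (A.d m).T.app W2 (-((A.X m).T.res k2 t' + t'')) =
        (A.X (m + 1)).η.app W2 ((A.X (m + 1)).res k2 a - a'') -
          (A.X (m + 1)).T.res (k2.trans k1) t := by
      rw [map_neg, map_add, map_sub, ha'', ← (A.X (m + 1)).η.nat, ha, map_sub, PS.res_res,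
        (A.d m).T.nat]
      abel
    refine sgodq_shrink A (m + 1) (k2.trans k1) hW2 (t, b) ((A.X (m + 1)).res k2 a - a'') ?_ ?_
    · rw [← Mor.T_η, ← sub_eq_iff_eq_add.1 h8.symm |>.symm, map_add, A.T_dd, zero_add,
        ← (A.d (m + 1)).T.nat, h1, map_zero]
    · refine (sgodq_bd A m W2 _ (0 - (GX m A.Q).res (k2.trans k1) b)).2 ⟨_, h8, ?_⟩
      have h9 : (Gaug m A.Q).app W2 ((A.X m).π.app W2 t'') - (GX m A.Q).res k2
        ((GX m A.Q).res k1 b - (Gaug m A.Q).app W1 ((A.X m).π.app W1 t')) ∈ A.Q.G.Bd m W2 := h7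
      rw [map_sub, PS.res_res, (Gaug m A.Q).nat] at h9
      have h10 : (A.Q.X m).res k2 ((A.X m).π.app W1 t') =
        (A.X m).π.app W2 ((A.X m).T.res k2 t') := rfl
      rw [h10] at h9
      convert neg_mem h9 using 1
      rw [map_neg, map_neg, map_add, map_add]
      abel

theorem aug_qis (A : Cx Y) (x : Y) : A.aug.Qis x :=
  ⟨fun n V => aug_surj n A x V, fun n V => aug_inj n A x V⟩

end Pool.Agent.PW.S
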