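import Pool.Agent.P.MP_65ad7c_ag.SInj
import Pool.Agent.P.MP_65ad7c_ag.SGodQ

/-! Injectivity and functoriality of the Godement resolution. -/

open TopologicalSpace

set_option backward.isDefEq.respectTransparency false

noncomputable section
namespace Pool.Agent.PW.S

variable {Y Z Z' : Type} [TopologicalSpace Y] [TopologicalSpace Z] [TopologicalSpace Z']

theorem sgodf_ext {M N P : Type} [AddCommGroup M] [Module ℂ M] [AddCommGroup N] [Module ℂ N]
    [AddCommGroup P] [Module ℂ P] (α : M →ₗ[ℂ] N) (γ : M →ₗ[ℂ] P)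
    (h : ∀ m, α m = 0 → γ m = 0) : ∃ k : N →ₗ[ℂ] P, ∀ m, k (α m) = γ m := by
  obtain ⟨k, hk⟩ := LinearMap.exists_extend
    ((α.ker.liftQ γ fun m hm => h m hm) ∘ₗ α.quotKerEquivRange.symm.toLinearMap)
  refine ⟨k, fun m => ?_⟩
  have h1 := LinearMap.congr_fun hk ⟨α m, LinearMap.mem_range_self α m⟩
  simpa [LinearMap.quotKerEquivRange_symm_apply_image] using h1

/-- the value at `y` of a morphism to the direct image of discontinuous sections -/
def sgodf_ev (f : C(Y, Z)) {F : PS Y} {A : PS Z} (g : Mor A (F.T.push f)) (y : Y) :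
    A.stalk (f y) →ₗ[ℂ] F.stalk y :=
  A.lift (f y) (fun V hV =>
    (LinearMap.proj (φ := fun x : pre f V => F.stalk x.1) ⟨y, hV⟩).comp (g.app V))
    fun _ _ h hx s => (congrFun (g.nat h s) ⟨y, hx⟩).symm

theorem sgodf_ev_germ (f : C(Y, Z)) {F : PS Y} {A : PS Z} (g : Mor A (F.T.push f)) (y : Y)
    (V : Opens Z) (hV : f y ∈ V) (a : A.obj V) :
    sgodf_ev f g y (A.germ V hV a) = g.app V a ⟨y, hV⟩ := A.lift_germ _ _ _ _ _ _

theorem inj_push_T (f : C(Y, Z)) (F : PS Y) : Inj Set.univ (F.T.push f) := by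
  intro A B φ g hg
  have key : ∀ y : Y, ∃ k : B.stalk (f y) →ₗ[ℂ] F.stalk y, ∀ (V : Opens Z) (hV : f y ∈ V)
      (a : A.obj V), k (B.germ V hV (φ.app V a)) = g.app V a ⟨y, hV⟩ := fun y => by
    obtain ⟨k, hk⟩ := sgodf_ext (smap (ContinuousMap.id Z) (B := B) φ (f y)) (sgodf_ev f g y)
      fun ξ hξ => by
        obtain ⟨V, hV, a, rfl⟩ := A.germ_surj ξ
        have h1 : B.germ V hV (φ.app V a) = 0 :=
          (smap_germ (ContinuousMap.id Z) (B := B) φ (f y) V hV a).symm.trans hξ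
        obtain ⟨W, hW, hy, h0⟩ := hg (f y) trivial V hV a ((B.germ_eq_zero hV _).1 h1)
        exact (sgodf_ev_germ f g y V hV a).trans (congrFun h0 ⟨y, hy⟩)
    exact ⟨k, fun V hV a =>
      (congrArg k (smap_germ (ContinuousMap.id Z) (B := B) φ (f y) V hV a)).symm.trans
        ((hk _).trans (sgodf_ev_germ f g y V hV a))⟩
  choose k hk using key
  exact ⟨⟨fun V => LinearMap.pi (φ := fun x : pre f V => F.stalk x.1)
      fun y => (k y.1).comp (B.germ V y.2),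
    fun h s => funext fun y => congrArg (k y.1) (B.germ_res h y.2 s).symm⟩,
    fun V a => funext fun y => hk y.1 V y.2 a⟩

theorem inj_T (F : PS Y) : Inj Set.univ F.T := inj_push_T (ContinuousMap.id Y) F

theorem Inj.push {I : PS Y} (hI : Inj Set.univ I) (f : C(Y, Z)) : Inj Set.univ (I.push f) := by
  obtain ⟨r, hr⟩ := hI I I.T I.η (Mor.id I) fun x _ V hx a h => (I.locZero_η hx a).1 h
  exact (inj_push_T f I).retract (I.η.comap _ _) (r.comap _ _) fun V s => hr (pre f V) s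

theorem sgodf_inj : ∀ (n : ℕ) (A : Cx Y), Inj Set.univ (GX n A)
  | 0, A => inj_T (A.X 0)
  | n + 1, A => (inj_T (A.X (n + 1))).prod (sgodf_inj n A.Q)

theorem cinj_G (A : Cx Y) : CInj Set.univ A.G := fun n => sgodf_inj n A

theorem CInj.push {I : Cx Y} (hI : CInj Set.univ I) (f : C(Y, Z)) : CInj Set.univ (I.push f) :=
  fun n => (hI n).push f

theorem sgodf_comp (f : C(Y, Z)) (g : C(Z, Z')) : ∀ (n : ℕ) {A : Cx Z'} {B : Cx Z} {C : Cx Y}
    (u : CMap A (B.push g)) (v : CMap B (C.push f)) (w : CMap A (C.push (g.comp f)))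
    (_ : ∀ n V s, (w.f n).app V s = (v.f n).app (pre g V) ((u.f n).app V s))
    (V : Opens Z') (s : (GX n A).obj V),
    (Gf f n v).app (pre g V) ((Gf g n u).app V s) = (Gf (g.comp f) n w).app V s
  | 0, _, _, _, u, v, w, h, V, s => Tmap_Tmap f g (u.f 0) (v.f 0) (w.f 0) (h 0) V s
  | n + 1, A, _, C, u, v, w, h, V, (a, b) =>
    Prod.ext (Tmap_Tmap f g (u.f (n + 1)) (v.f (n + 1)) (w.f (n + 1)) (h (n + 1)) V a)
      (sgodf_comp f g n (QC g u) (QC f v) (QC (g.comp f) w) (fun m V s => by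
        obtain ⟨s, rfl⟩ := (A.X m).π_surj V s
        exact congrArg ((C.X m).π.app (pre (g.comp f) V))
          (Tmap_Tmap f g (u.f m) (v.f m) (w.f m) (h m) V s).symm) V b)

/-- composition law -/
theorem Gmap_Gmap (f : C(Y, Z)) (g : C(Z, Z')) {A : Cx Z'} {B : Cx Z} {C : Cx Y}
    (u : CMap A (B.push g)) (v : CMap B (C.push f)) (w : CMap A (C.push (g.comp f)))
    (h : ∀ n V s, (w.f n).app V s = (v.f n).app (pre g V) ((u.f n).app V s)) (n : ℕ)
    (V : Opens Z') (s : (A.G.X n).obj V) :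
    ((Gmap f v).f n).app (pre g V) (((Gmap g u).f n).app V s) =
      ((Gmap (g.comp f) w).f n).app V s := sgodf_comp f g n u v w h V s

/-- `u` is the identity over the open set `O` -/
def IdOn (f : C(Y, Y)) (O : Opens Y) {A : Cx Y} (u : CMap A (A.push f)) : Prop :=
  ∀ (n : ℕ) (V W : Opens Y) (h : W ≤ V) (h' : W ≤ pre f V), W ≤ O → ∀ s : (A.X n).obj V,
    (A.X n).res h' ((u.f n).app V s) = (A.X n).res h s

theorem sgodf_tr {A : PS Y} {V V₁ : Opens Y} (s : A.T.obj V) (a : A.obj V₁) {x y : Y} (e : x = y)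
    (hx : x ∈ V) (hy : y ∈ V) (hx₁ : x ∈ V₁) (hy₁ : y ∈ V₁) (h : A.germ V₁ hx₁ a = s ⟨x, hx⟩) :
    A.germ V₁ hy₁ a = s ⟨y, hy⟩ := by
  subst e
  exact h

theorem sgodf_T (f : C(Y, Y)) (O : Opens Y) (hf : ∀ y ∈ O, f y = y) {A : PS Y}
    (u : Mor A (A.push f))
    (hu : ∀ (V W : Opens Y) (h : W ≤ V) (h' : W ≤ pre f V), W ≤ O → ∀ s : A.obj V,
      A.res h' (u.app V s) = A.res h s)
    (V W : Opens Y) (h : W ≤ V) (h' : W ≤ pre f V) (hO : W ≤ O) (s : A.T.obj V) :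
    A.T.res h' ((Tmap f u).app V s) = A.T.res h s := by
  funext y
  obtain ⟨V₁, hV₁, a, ha⟩ := A.germ_surj (s ⟨f y.1, h' y.2⟩)
  have e : f y.1 = y.1 := hf _ (hO y.2)
  have hy₁ : y.1 ∈ V₁ := e ▸ hV₁
  have h1 := sgodf_tr s a e (h' y.2) (h y.2) hV₁ hy₁ ha
  have hm : y.1 ∈ V₁ ⊓ pre f V₁ ⊓ O := ⟨⟨hy₁, hV₁⟩, hO y.2⟩
  have l1 : V₁ ⊓ pre f V₁ ⊓ O ≤ V₁ := inf_le_left.trans inf_le_left
  have l2 : V₁ ⊓ pre f V₁ ⊓ O ≤ pre f V₁ := inf_le_left.trans inf_le_right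
  show smap f u y.1 (s ⟨f y.1, h' y.2⟩) = s ⟨y.1, h y.2⟩
  rw [← ha, ← h1, smap_germ, ← A.germ_res l2 hm, hu V₁ _ l1 l2 inf_le_right, A.germ_res]

theorem sgodf_idOn (f : C(Y, Y)) (O : Opens Y) (hf : ∀ y ∈ O, f y = y) : ∀ (n : ℕ) {A : Cx Y}
    (u : CMap A (A.push f)) (_ : IdOn f O u) (V W : Opens Y) (h : W ≤ V) (h' : W ≤ pre f V)
    (_ : W ≤ O) (s : (GX n A).obj V), (GX n A).res h' ((Gf f n u).app V s) = (GX n A).res h s
  | 0, _, u, hu, V, W, h, h', hO, s => sgodf_T f O hf (u.f 0) (hu 0) V W h h' hO s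
  | n + 1, A, u, hu, V, W, h, h', hO, (a, b) =>
    Prod.ext (sgodf_T f O hf (u.f (n + 1)) (hu (n + 1)) V W h h' hO a)
      (sgodf_idOn f O hf n (QC f u) (fun m V W h h' hO s => by
        obtain ⟨s, rfl⟩ := (A.X m).π_surj V s
        exact congrArg ((A.X m).π.app W) (sgodf_T f O hf (u.f m) (hu m) V W h h' hO s))
        V W h h' hO b)

theorem Gmap_idOn (f : C(Y, Y)) (O : Opens Y) (hf : ∀ y ∈ O, f y = y) {A : Cx Y}
    (u : CMap A (A.push f)) (hu : IdOn f O u) : IdOn f O (Gmap f u) :=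
  fun n => sgodf_idOn f O hf n u hu

end Pool.Agent.PW.S
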