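import Pool.Agent.P.MP_65ad7c_ag.SBr
import Pool.Agent.P.MP_65ad7c_ag.SGodF

/-! Injective sheaves have the extension property. -/

open CategoryTheory TopologicalSpace Opposite Pool.Agent.HT

set_option backward.isDefEq.respectTransparency false

noncomputable section
namespace Pool.Agent.PW.S

variable {Y : Type} [TopologicalSpace Y]

/-- the presheaf of an elementary presheaf -/
def sbriPS (P : PS Y) : TopCat.Presheaf (ModuleCat.{0} ℂ) (TopCat.of Y) where
  obj V := ModuleCat.of ℂ (P.obj V.unop)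
  map h := ModuleCat.ofHom (P.res (leOfHom h.unop))
  map_id _ := ModuleCat.hom_ext (LinearMap.ext fun s => P.res_self _ _ s)
  map_comp _ _ := ModuleCat.hom_ext (LinearMap.ext fun s => (P.res_res _ _ s).symm)

theorem sbri_sheaf (P : PS Y) : (sbriPS P.T).IsSheaf := by
  rw [TopCat.Presheaf.isSheaf_iff_isSheafUniqueGluing]
  intro ι U sf hc
  have hx : ∀ x : (iSup U : Opens Y), ∃ i, x.1 ∈ U i := fun x => Opens.mem_iSup.1 x.2
  choose k hk using hx
  refine ⟨fun x : (iSup U : Opens Y) => (sf (k x) : P.T.obj (U (k x))) ⟨x.1, hk x⟩, fun i => ?_,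
    fun s hs => ?_⟩
  · funext x
    exact congrFun (hc (k ⟨x.1, le_iSup U i x.2⟩) i) ⟨x.1, hk ⟨x.1, le_iSup U i x.2⟩, x.2⟩
  · funext x
    exact congrFun (hs (k x)) ⟨x.1, hk x⟩

/-- the unit as a natural transformation -/
def sbriEta (F : TopCat.Presheaf (ModuleCat.{0} ℂ) (TopCat.of Y)) : F ⟶ sbriPS (toPS F).T where
  app V := ModuleCat.ofHom ((toPS F).η.app V.unop)
  naturality _ _ h :=
    ModuleCat.hom_ext (LinearMap.ext fun s => ((toPS F).η.nat (leOfHom h.unop) s).symm)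

theorem sbri_inj (F : TopCat.Presheaf (ModuleCat.{0} ℂ) (TopCat.of Y)) (h : F.IsSheaf)
    (V : Opens Y) : Function.Injective ((toPS F).η.app V) := by
  rw [injective_iff_map_eq_zero]
  intro s hs
  have hx : ∀ x : V, (toPS F).LocZero x.1 s := fun x =>
    ((toPS F).germ_eq_zero x.2 s).1 (congrFun hs x)
  choose W hW hx h0 using hx
  refine TopCat.Sheaf.eq_of_locally_eq' (⟨F, h⟩ : TopCat.Sheaf (ModuleCat.{0} ℂ) (TopCat.of Y))
    W V (fun x => homOfLE (hW x)) (fun y hy => Opens.mem_iSup.2 ⟨⟨y, hy⟩, hx _⟩) s 0 fun x => ?_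
  exact (h0 x).trans (map_zero ((toPS F).res (hW x))).symm

theorem inj_of_injective (F : TopCat.Presheaf (ModuleCat.{0} ℂ) (TopCat.of Y)) (h : F.IsSheaf)
    (hi : Injective (⟨F, h⟩ : TopCat.Sheaf (ModuleCat.{0} ℂ) (TopCat.of Y))) :
    Inj Set.univ (toPS F) := by
  let e : (⟨F, h⟩ : TopCat.Sheaf (ModuleCat.{0} ℂ) (TopCat.of Y)) ⟶
      ⟨sbriPS (toPS F).T, sbri_sheaf _⟩ := ⟨sbriEta F⟩
  have m1 : ∀ V, Mono ((sbriEta F).app V) := fun V =>
    (ModuleCat.mono_iff_injective _).2 (sbri_inj F h V.unop)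
  have m2 : Mono e.hom := NatTrans.mono_of_mono_app (sbriEta F)
  have m3 : Mono e := Sheaf.Hom.mono_of_presheaf_mono _ _ e
  have hr := Injective.comp_factorThru (𝟙 _) e
  refine (inj_T (toPS F)).retract (toPS F).η (toMor (Injective.factorThru (𝟙 _) e).hom)
    fun V s => ?_
  exact congrArg (fun g => (g.hom.app (op V)).hom s) hr

end Pool.Agent.PW.S
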