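import Pool.Agent.P.MP_65ad7c_ag.HForm

/-! The total complex of a family of strata with Hodge theory, as an abstract complex. -/

open Set
open scoped ContDiff ComplexConjugate

noncomputable section
namespace Pool.Agent.HT

section eig
variable {T T' : Type} [AddCommGroup T] [Module ℂ T] [AddCommGroup T'] [Module ℂ T']

theorem EGe.mem_of {g : Module.End ℂ T} {t : ℝ} {lam : ℂ} (h : t ≤ lam.im) {x : T}
    (hx : g x = lam • x) : x ∈ EGe g t :=
  Submodule.mem_iSup_of_mem lam (Submodule.mem_iSup_of_mem h (Module.End.mem_eigenspace_iff.2 hx))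

theorem EGe.le_of {g : Module.End ℂ T} {t : ℝ} {P : Submodule ℂ T}
    (h : ∀ lam : ℂ, t ≤ lam.im → ∀ x, g x = lam • x → x ∈ P) : EGe g t ≤ P :=
  iSup₂_le fun lam hl x hx => h lam hl x (Module.End.mem_eigenspace_iff.1 hx)

theorem EGe.map {g : Module.End ℂ T} {g' : Module.End ℂ T'} (L : T →ₗ[ℂ] T')
    (hL : ∀ x, L (g x) = g' (L x)) {t : ℝ} {x : T} (hx : x ∈ EGe g t) : L x ∈ EGe g' t :=
  EGe.le_of (P := (EGe g' t).comap L)
    (fun _ hl y hy => EGe.mem_of hl (by rw [← hL, hy, map_smul])) hx

theorem EGe.map_conj {g : Module.End ℂ T} {g' : Module.End ℂ T'} (L : T →ₗ⋆[ℂ] T')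
    (hL : ∀ x, L (g x) = -g' (L x)) {t : ℝ} {x : T} (hx : x ∈ EGe g t) : L x ∈ EGe g' t :=
  EGe.le_of (P := (EGe g' t).comap L) (fun lam hl y hy => EGe.mem_of (lam := -conj lam)
    (by simpa using hl) (by rw [← neg_neg (g' _), ← hL, hy, map_smulₛₗ, neg_smul])) hx

end eig

variable {V : Type} [NormedAddCommGroup V] [NormedSpace ℝ V] {ι : Type} {n : ℕ}
  {J : V → V →L[ℝ] V}

theorem Om.gam_mk {S : Set V} (h : GamOK J S) (a : SF V n) :
    Om.gam h n (Om.mk S a) = Om.mk S (SF.gam J h.smooth n a) := rfl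

theorem Om.gam_res {S S' : Set V} (h : GamOK J S) (h' : GamOK J S') (hS : S ⊆ S') (α : Om S' n) :
    Om.gam h n (Om.res hS n α) = Om.res hS n (Om.gam h' n α) := by
  induction α using Submodule.Quotient.induction_on with
  | H α => rfl

theorem SF.gam_conj (hJ : ContDiff ℝ ∞ J) (a : SF V n) :
    SF.gam J hJ n (SF.conj n a) = SF.conj n (SF.gam J hJ n a) := by
  refine SF.ext (funext fun x => ?_)
  ext v
  simp only [SF.gam_val, SF.conj_val, der_apply, map_sum]

theorem Om.gam_conj {S : Set V} (h : GamOK J S) (α : Om S n) :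
    Om.gam h n (Om.conj S n α) = Om.conj S n (Om.gam h n α) := by
  induction α using Submodule.Quotient.induction_on with
  | H α => exact congrArg (Om.mk S) (SF.gam_conj h.smooth α)

theorem Om.gam_zero {S : Set V} (h : GamOK J S) (α : Om S 0) : Om.gam h 0 α = 0 := by
  induction α using Submodule.Quotient.induction_on with
  | H α =>
    have : SF.gam J h.smooth 0 α = 0 := SF.ext (funext fun x => by ext v; simp [der_apply])
    exact (congrArg (Om.mk S) this).trans rfl

theorem Om.dc_apply {S : Set V} (h : GamOK J S) (α : Om S n) :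
    Om.dc h n α = Om.gam h (n + 1) (Om.d S n α) - Om.d S n (Om.gam h n α) := rfl

variable {Z : Set V} {D : ι → Set V}

/-- the type operator on the total complex -/
def totG (h : ∀ p (I : Fin p → ι), GamOK J (strat Z D I)) : Module.End ℂ (Tot Z D) where
  toFun y := fun p m I => Om.gam (h p I) m (y p m I)
  map_add' x y := by
    funext p m I
    exact map_add _ _ _
  map_smul' c x := by
    funext p m I
    exact map_smul (Om.gam (h p I) m) c _

variable (h : ∀ p (I : Fin p → ι), GamOK J (strat Z D I))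

theorem totG_apply (y : Tot Z D) (p m : ℕ) (I : Fin p → ι) :
    totG h y p m I = Om.gam (h p I) m (y p m I) := rfl

theorem totG_e (p m : ℕ) (y : Tot Z D) : totE Z D p m (totG h y) = totG h (totE Z D p m y) := by
  funext p' m' I
  simp only [totG_apply, totE_apply]
  split_ifs
  · rfl
  · exact (map_zero _).symm

theorem totC_zero (y : Tot Z D) (p : ℕ) (I : Fin p → ι) :
    (totG h * totD Z D - totD Z D * totG h) y p 0 I = 0 := by
  change Om.gam (h p I) 0 0 - 0 = 0
  rw [map_zero, sub_zero]

theorem totC_succ (y : Tot Z D) (p m : ℕ) (I : Fin p → ι) :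
    (totG h * totD Z D - totD Z D * totG h) y p (m + 1) I = Om.dc (h p I) m (y p m I) := rfl

theorem totConj_g (y : Tot Z D) : totConj Z D (totG h y) = totG h (totConj Z D y) := by
  funext p m I
  exact (Om.gam_conj (h p I) _).symm

/-- the total complex as a complex with Hodge theory -/
def totKD (hH : ∀ p (I : Fin p → ι), Hodge (h p I)) : KD (Tot Z D) where
  toBG := totBG Z D
  g := totG h
  eg := totG_e h
  gδ x := by
    funext p m I
    rw [totBG_δ]
    rcases p with _ | p
    · exact map_zero (Om.gam (h 0 I) m)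
    · simp only [totG_apply, totδ_succ, map_sum, map_smul]
      exact Finset.sum_congr rfl fun j _ => congrArg _ (Om.gam_res _ _ _ _)
  poly p m x := by
    have h1 := fun I => (Submodule.mem_iSup_finset_iff_exists_sum _ _).1 ((hH p I).poly m (x p m I))
    choose μ hμ using h1
    let y : ℕ → Tot Z D := fun b => Pi.single p (Pi.single m fun I => (μ I b).1)
    have hy : ∀ b I, y b p m I = (μ I b).1 := fun b I => by simp only [y, Pi.single_eq_same]
    have e : totE Z D p m x = ∑ b ∈ Finset.range (m + 1), totE Z D p m (y b) := by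
      rw [← map_sum, ← sub_eq_zero, ← map_sub, totE_eq_zero]
      funext I
      simp only [Pi.sub_apply, Finset.sum_apply, hy, hμ, sub_self, Pi.zero_apply]
    rw [totBG_e, e]
    refine Submodule.sum_mem _ fun b hb => Submodule.mem_iSup_of_mem b
      (Submodule.mem_iSup_of_mem hb (Module.End.mem_eigenspace_iff.2 ?_))
    rw [← totG_e, ← map_smul, ← sub_eq_zero, ← map_sub, totE_eq_zero]
    funext I
    simp only [Pi.sub_apply, Pi.smul_apply, totG_apply, hy, Pi.zero_apply, sub_eq_zero]
    exact Module.End.mem_eigenspace_iff.1 (μ I b).2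
  hA x hx := by
    rw [totBG_d] at hx ⊢
    have h0 : ∀ p m I, Om.d _ m (x p m I) = 0 := fun p m I => by
      rw [← totD_succ, hx]; rfl
    choose b hb using fun p m I => (hH p I).hA m (x p (m + 1) I) (h0 p (m + 1) I)
    refine ⟨b, ?_⟩
    funext p m I
    rcases m with _ | _ | m
    · rfl
    · rw [totD_succ, totG_apply, Om.gam_zero, map_zero]
      rfl
    · exact hb p m I
  hB x := by
    rw [totBG_d]
    funext p m I
    rcases m with _ | m
    · simp only [Pi.sub_apply, Pi.neg_apply, totG_apply, totC_zero, totD_zero, map_zero, sub_zero,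
        neg_zero]
    · exact (hH p I).hB m (x p m I)
  hC y hy := by
    rw [totBG_d] at hy ⊢
    have h0 : ∀ p m I, Om.dc (h p I) (m + 1) (Om.d _ m (y p m I)) = 0 := fun p m I => by
      rw [← totD_succ, ← totC_succ, hy]; rfl
    choose b hb using fun p m I => (hH p I).hC m (y p (m + 1) I) (h0 p (m + 1) I)
    refine ⟨b, ?_⟩
    funext p m I
    rcases m with _ | _ | m
    · rfl
    · rw [totD_succ, totD_succ, totC_zero, map_zero]
      exact (hH p I).hC0 _ (h0 p 0 I)
    · exact hb p m I
  hD y hy := by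
    rw [totBG_d] at hy ⊢
    have h0 : ∀ p m I, Om.d _ (m + 1) (Om.dc (h p I) m (y p m I)) = 0 := fun p m I => by
      rw [← totC_succ, ← totD_succ, hy]; rfl
    choose b hb using fun p m I => (hH p I).hD m (y p (m + 1) I) (h0 p (m + 1) I)
    refine ⟨b, ?_⟩
    funext p m I
    rcases m with _ | _ | m
    · exact totC_zero h y p I
    · rw [totC_succ, totD_succ, totC_zero, map_zero]
      exact (hH p I).hD0 _ (h0 p 0 I)
    · exact hb p m I

variable (Z D) in
/-- evaluation of a cochain -/
def totEv (p m : ℕ) (I : Fin p → ι) : Tot Z D →ₗ[ℂ] Om (strat Z D I) m where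
  toFun y := y p m I
  map_add' _ _ := rfl
  map_smul' _ _ := rfl

open Classical in
variable (Z D) in
/-- a cochain with one entry -/
def totIn (p m : ℕ) (I : Fin p → ι) : Om (strat Z D I) m →ₗ[ℂ] Tot Z D where
  toFun a := Pi.single p (Pi.single m (Pi.single I a))
  map_add' x y := by simp only [Pi.single_add]
  map_smul' c x := by simp only [Pi.single_smul, RingHom.id_apply]

theorem totIn_g (p m : ℕ) (I : Fin p → ι) (a : Om (strat Z D I) m) :
    totIn Z D p m I (Om.gam (h p I) m a) = totG h (totIn Z D p m I a) := by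
  classical
  funext p' m' I'
  rw [totG_apply]
  by_cases hp : p' = p
  · subst hp
    by_cases hm : m' = m
    · subst hm
      by_cases hI : I' = I
      · subst hI
        simp [totIn]
      · simp [totIn, Pi.single_eq_of_ne hI]
    · simp [totIn, Pi.single_eq_of_ne hm]
  · simp [totIn, Pi.single_eq_of_ne hp]

theorem totE_eq_sum [Finite ι] (p m : ℕ) (y : Tot Z D) :
    totE Z D p m y = ∑ᶠ I, totIn Z D p m I (y p m I) := by
  classical
  have := Fintype.ofFinite (Fin p → ι)
  rw [finsum_eq_sum_of_fintype, totE_eq]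
  conv_lhs => rw [← Finset.univ_sum_single (y p m)]
  let L := (LinearMap.single ℂ (fun p => (n : ℕ) → (I : Fin p → ι) → Om (strat Z D I) n) p).comp
    (LinearMap.single ℂ (fun n => (I : Fin p → ι) → Om (strat Z D I) n) m)
  exact map_sum L _ _

theorem totE_mem_EGe [Finite ι] {p m : ℕ} {y : Tot Z D} {t : ℝ} :
    totE Z D p m y ∈ EGe (totG h) t ↔ ∀ I, y p m I ∈ EGe (Om.gam (h p I) m) t := by
  constructor
  · intro hy I
    have := EGe.map (g' := Om.gam (h p I) m) (totEv Z D p m I) (fun _ => rfl) hy
    rwa [show totEv Z D p m I (totE Z D p m y) = y p m I from congrFun (totE_same p m y) I] at this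
  · intro hy
    have := Fintype.ofFinite (Fin p → ι)
    rw [totE_eq_sum, finsum_eq_sum_of_fintype]
    exact Submodule.sum_mem _ fun I _ => EGe.map (totIn Z D p m I) (totIn_g h p m I) (hy I)

variable (hH : ∀ p (I : Fin p → ι), Hodge (h p I))

theorem totKD_toBG : (totKD h hH).toBG = totBG Z D := rfl

theorem mem_totF [Finite ι] {a : ℕ} {y : Tot Z D} :
    y ∈ (totKD h hH).F a ↔ ∀ p m I, y p m I ∈ EGe (Om.gam (h p I) m) (2 * (a : ℝ) - m) := by
  rw [KD.mem_F]
  exact forall₂_congr fun p m => totE_mem_EGe h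

theorem totConj_mem_Fb {a : ℕ} {y : Tot Z D} (hy : y ∈ (totKD h hH).F a) :
    totConj Z D y ∈ (totKD h hH).Fb a := by
  rw [KD.mem_F] at hy
  refine KD.mem_Fb _ |>.2 fun p m => ?_
  have := EGe.map_conj (g' := -totG h) (totConj Z D)
    (fun x => by rw [LinearMap.neg_apply, neg_neg]; exact totConj_g h x) (hy p m)
  exact (totConj_e p y) ▸ this

theorem totConj_mem_F {a : ℕ} {y : Tot Z D} (hy : y ∈ (totKD h hH).Fb a) :
    totConj Z D y ∈ (totKD h hH).F a := by
  rw [KD.mem_Fb] at hy
  refine KD.mem_F _ |>.2 fun p m => ?_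
  have := EGe.map_conj (g := -totG h) (g' := totG h) (totConj Z D)
    (fun x => by rw [LinearMap.neg_apply, map_neg, totConj_g]) (hy p m)
  exact (totConj_e p y) ▸ this

end Pool.Agent.HT
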