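import Pool.Agent.P.MP_65ad7c_ag.HNul

/-! Types of forms on a Kaehler retract. -/

open Set
open scoped ContDiff InnerProductSpace ComplexConjugate

noncomputable section
namespace Pool.Agent.HT
open Pool.Agent.Wein (Ret)

section alg
variable {M M' : Type} [AddCommGroup M] [Module ℂ M] [AddCommGroup M'] [Module ℂ M']

lemma hp_fold_eigen (g : M →ₗ[ℂ] M) (lam : ℕ → ℂ) (l : List ℕ) {x : M} {μ : ℂ}
    (hx : g x = μ • x) :
    l.foldr (fun b y => g y - lam b • y) x = (l.map fun b => μ - lam b).prod • x := by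
  induction l with
  | nil => simp
  | cons b l ih =>
    simp only [List.foldr_cons, List.map_cons, List.prod_cons, ih, map_smul, hx, smul_smul,
      ← sub_smul]
    congr 1
    ring

lemma hp_fold_add (g : M →ₗ[ℂ] M) (lam : ℕ → ℂ) (l : List ℕ) (x y : M) :
    l.foldr (fun b y => g y - lam b • y) (x + y) =
      l.foldr (fun b y => g y - lam b • y) x + l.foldr (fun b y => g y - lam b • y) y := by
  induction l with
  | nil => simp
  | cons b l ih =>
    simp only [List.foldr_cons, ih, map_add, smul_add]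
    abel

lemma hp_fold_map {g : M → M} {g' : M' → M'} (ρ : M →ₗ[ℂ] M') (h : ∀ y, ρ (g y) = g' (ρ y))
    (lam : ℕ → ℂ) (l : List ℕ) (x : M) :
    ρ (l.foldr (fun b y => g y - lam b • y) x) =
      l.foldr (fun b y => g' y - lam b • y) (ρ x) := by
  induction l with
  | nil => simp
  | cons b l ih => simp only [List.foldr_cons, map_sub, map_smul, h, ih]

lemma hp_fold_zero (g : M →ₗ[ℂ] M) (lam : ℕ → ℂ) (l : List ℕ) {x : M}
    (hx : x ∈ ⨆ b ∈ l, Module.End.eigenspace g (lam b)) :
    l.foldr (fun b y => g y - lam b • y) x = 0 := by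
  refine Submodule.iSup_induction _ (motive := fun x => l.foldr (fun b y => g y - lam b • y) x = 0)
    hx (fun b y hy => ?_) ?_ (fun y z hy hz => ?_)
  · by_cases hb : b ∈ l
    · rw [iSup_pos hb, Module.End.mem_eigenspace_iff] at hy
      rw [hp_fold_eigen g lam l hy, List.prod_eq_zero, zero_smul]
      exact List.mem_map.2 ⟨b, hb, sub_self _⟩
    · rw [iSup_neg hb, Submodule.mem_bot] at hy
      rw [hp_fold_eigen g lam l (μ := 0) (by simp [hy]), hy, smul_zero]
  · rw [hp_fold_eigen g lam l (μ := 0) (by simp), smul_zero]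
  · rw [hp_fold_add, hy, hz, add_zero]

lemma hp_mem_of_fold (g : M →ₗ[ℂ] M) (lam : ℕ → ℂ) (hl : Function.Injective lam) (l : List ℕ)
    (hn : l.Nodup) (x : M) (hx : l.foldr (fun b y => g y - lam b • y) x = 0) :
    x ∈ ⨆ b ∈ l, Module.End.eigenspace g (lam b) := by
  induction l generalizing x with
  | nil =>
    have : x = 0 := by simpa using hx
    rw [this]
    exact Submodule.zero_mem _
  | cons b l ih =>
    rw [List.nodup_cons] at hn
    rw [List.foldr_cons, sub_eq_zero] at hx
    set y := l.foldr (fun b y => g y - lam b • y) x with hy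
    set c := (l.map fun b' => lam b - lam b').prod with hc
    have hc0 : c ≠ 0 := by
      refine List.prod_ne_zero fun h => ?_
      obtain ⟨b', hb', h⟩ := List.mem_map.1 h
      exact hn.1 (hl (sub_eq_zero.1 h) ▸ hb')
    have h1 : g (-(c⁻¹ • y)) = lam b • (-(c⁻¹ • y)) := by
      rw [map_neg, map_smul, hx, smul_neg, smul_comm]
    have h2 := ih hn.2 (x + -(c⁻¹ • y)) (by
      rw [hp_fold_add, hp_fold_eigen g lam l h1, ← hc, ← hy, smul_neg, smul_smul,
        mul_inv_cancel₀ hc0, one_smul, add_neg_cancel])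
    have e : x = (x + -(c⁻¹ • y)) - -(c⁻¹ • y) := by abel
    rw [e]
    refine Submodule.sub_mem _ ?_ ?_
    · refine (?_ : (⨆ b ∈ l, Module.End.eigenspace g (lam b)) ≤ _) h2
      exact iSup₂_le fun b' hb' => le_iSup₂_of_le b' (List.mem_cons_of_mem _ hb') le_rfl
    · exact (le_iSup₂_of_le b List.mem_cons_self le_rfl :
        Module.End.eigenspace g (lam b) ≤ _) (Module.End.mem_eigenspace_iff.2 h1)

lemma hp_spec {ι : Type} (K : ι → M →ₗ[ℂ] M) (hc : ∀ i j x, K i (K j x) = K j (K i x))
    (hK : ∀ i x, K i (K i x) = -x) (s : Finset ι) (x : M) :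
    x ∈ ⨆ b ∈ List.range (s.card + 1),
      Module.End.eigenspace (∑ i ∈ s, K i) (Complex.I * (2 * (b : ℂ) - s.card)) := by
  classical
  induction s using Finset.induction_on generalizing x with
  | empty =>
    refine (le_iSup₂_of_le 0 (by simp) le_rfl : Module.End.eigenspace _ _ ≤ _) ?_
    simp
  | insert k s hk ih =>
    refine Submodule.iSup_induction _ (motive := fun x => x ∈ ⨆ b ∈ List.range ((insert k s).card + 1),
      Module.End.eigenspace (∑ i ∈ insert k s, K i) (Complex.I * (2 * (b : ℂ) - (insert k s).card)))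
      (ih x) (fun b y hy => ?_) (Submodule.zero_mem _) (fun y z hy hz => Submodule.add_mem _ hy hz)
    by_cases hb : b ∈ List.range (s.card + 1)
    swap
    · rw [iSup_neg hb, Submodule.mem_bot] at hy
      rw [hy]
      exact Submodule.zero_mem _
    rw [iSup_pos hb, Module.End.mem_eigenspace_iff] at hy
    rw [List.mem_range] at hb
    have hS : (∑ i ∈ s, K i) (K k y) = (Complex.I * (2 * (b : ℂ) - s.card)) • K k y := by
      rw [← map_smul, ← hy, LinearMap.sum_apply, LinearMap.sum_apply, map_sum]
      exact Finset.sum_congr rfl fun i _ => hc i k y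
    have e : y = (2 : ℂ)⁻¹ • (y - Complex.I • K k y) + (2 : ℂ)⁻¹ • (y + Complex.I • K k y) := by
      module
    rw [e, Finset.card_insert_of_notMem hk, Finset.sum_insert hk]
    refine Submodule.add_mem _ (Submodule.smul_mem _ _ ?_) (Submodule.smul_mem _ _ ?_)
    · refine (le_iSup₂_of_le (b + 1) (List.mem_range.2 (by omega)) le_rfl :
        Module.End.eigenspace _ _ ≤ _) (Module.End.mem_eigenspace_iff.2 ?_)
      rw [LinearMap.add_apply, map_sub, map_sub, map_smul, map_smul, hK, hy, hS]
      push_cast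
      match_scalars
      · linear_combination Complex.I_mul_I
      · ring1
    · refine (le_iSup₂_of_le b (List.mem_range.2 (by omega)) le_rfl :
        Module.End.eigenspace _ _ ≤ _) (Module.End.mem_eigenspace_iff.2 ?_)
      rw [LinearMap.add_apply, map_add, map_add, map_smul, map_smul, hK, hy, hS]
      push_cast
      match_scalars
      · linear_combination Complex.I_mul_I
      · ring1

end alg

section point
variable {V : Type} [NormedAddCommGroup V] [NormedSpace ℝ V] {n : ℕ}

/-- the action of an endomorphism in one slot of a multilinear map -/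
def hpSlot {T : Type} [AddCommGroup T] [Module ℝ T] (L : T →ₗ[ℝ] T) (i : Fin n) :
    MultilinearMap ℝ (fun _ : Fin n => T) ℂ →ₗ[ℂ] MultilinearMap ℝ (fun _ : Fin n => T) ℂ where
  toFun f := f.compLinearMap (Function.update (fun _ => LinearMap.id) i L)
  map_add' _ _ := rfl
  map_smul' _ _ := rfl

lemma hpSlot_apply {T : Type} [AddCommGroup T] [Module ℝ T] (L : T →ₗ[ℝ] T) (i : Fin n)
    (f : MultilinearMap ℝ (fun _ : Fin n => T) ℂ) (v : Fin n → T) :
    hpSlot L i f v = f (Function.update v i (L (v i))) := by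
  refine congrArg f (funext fun j => ?_)
  by_cases h : j = i
  · subst h; simp
  · simp [Function.update_of_ne h]

/-- the restriction of an alternating form to a subspace -/
def hpRes (T : Submodule ℝ V) (n : ℕ) :
    Alt V n →ₗ[ℂ] MultilinearMap ℝ (fun _ : Fin n => T) ℂ where
  toFun a := a.toContinuousMultilinearMap.toMultilinearMap.compLinearMap fun _ => T.subtype
  map_add' _ _ := rfl
  map_smul' _ _ := rfl

lemma hpRes_apply (T : Submodule ℝ V) (a : Alt V n) (v : Fin n → T) :
    hpRes T n a v = a fun i => v i := rfl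

/-- the eigenvalues of `der J` on a complex subspace -/
theorem der_poly (J : V →L[ℝ] V) (T : Submodule ℝ V) (hT : ∀ v ∈ T, J v ∈ T)
    (hJ : ∀ v ∈ T, J (J v) = -v) (n : ℕ) (a : Alt V n) (v : Fin n → V) (hv : ∀ i, v i ∈ T) :
    ((List.range (n + 1)).foldr
      (fun (b : ℕ) (x : Alt V n) => der J x - (Complex.I * (2 * (b : ℂ) - n)) • x) a) v = 0 := by
  let L : T →ₗ[ℝ] T := (J : V →ₗ[ℝ] V).restrict hT
  have hL : ∀ w : T, (L w : V) = J w := fun _ => rfl
  have h1 : ∀ y : Alt V n, hpRes T n (der J y) = (∑ i, hpSlot L i) (hpRes T n y) := fun y => by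
    ext w
    rw [hpRes_apply, der_apply, LinearMap.sum_apply, _root_.sum_apply]
    refine Finset.sum_congr rfl fun i _ => ?_
    rw [hpSlot_apply, hpRes_apply]
    refine congrArg y (funext fun j => ?_)
    by_cases h : j = i
    · subst h; simp [hL]
    · simp [Function.update_of_ne h]
  have h2 := hp_spec (fun i : Fin n => hpSlot L i) (fun i j f => by
      ext w
      by_cases h : i = j
      · rw [h]
      · simp only [hpSlot_apply, Function.update_of_ne h, Function.update_of_ne (Ne.symm h)]
        rw [Function.update_comm h]) (fun i f => by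
      ext w
      have : L (L (w i)) = -w i := Subtype.ext (hJ _ (w i).2)
      simp only [hpSlot_apply, Function.update_self, Function.update_idem, this]
      rw [MultilinearMap.map_update_neg, Function.update_eq_self]
      rfl) Finset.univ (hpRes T n a)
  rw [Finset.card_univ, Fintype.card_fin] at h2
  have h3 := (hp_fold_map (hpRes T n) h1 (fun b => Complex.I * (2 * (b : ℂ) - n))
    (List.range (n + 1)) a).trans (hp_fold_zero _ _ _ h2)
  exact DFunLike.congr_fun h3 fun i => ⟨v i, hv i⟩

/-- an eigenvector of `der J` is of pure type -/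
theorem der_eigen (J : V →L[ℝ] V) (T : Submodule ℝ V) (hT : ∀ v ∈ T, J v ∈ T)
    (hJ : ∀ v ∈ T, J (J v) = -v) {b : ℕ} (hb : b ≤ n) (a : Alt V n)
    (ha : ∀ v : Fin n → V, (∀ i, v i ∈ T) → der J a v = Complex.I * (2 * (b : ℂ) - n) * a v)
    (v : Fin n → V) (hv : ∀ i, v i ∈ T) (c : ℂ) :
    a (fun i => c.re • v i + c.im • J (v i)) = a v * c ^ b * conj c ^ (n - b) := by
  set lam : ℂ := Complex.I * (2 * (b : ℂ) - n) with hlam
  let w : ℝ → Fin n → V := fun t i => Real.cos t • v i + Real.sin t • J (v i)
  have hw : ∀ t, HasDerivAt w (fun i => J (w t i)) t := fun t => by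
    refine hasDerivAt_pi.2 fun i => ?_
    have h := ((Real.hasDerivAt_cos t).smul_const (v i)).add
      ((Real.hasDerivAt_sin t).smul_const (J (v i)))
    refine HasDerivAt.congr_deriv h ?_
    simp only [w, map_add, map_smul, hJ _ (hv i)]
    module
  have hf : ∀ t, HasDerivAt (fun t => a (w t)) (lam * a (w t)) t := fun t => by
    have h := (a.toContinuousMultilinearMap.hasFDerivAt (w t)).comp_hasDerivAt t (hw t)
    rw [ContinuousMultilinearMap.linearDeriv_apply] at h
    rw [← ha _ fun i => T.add_mem (T.smul_mem _ (hv i)) (T.smul_mem _ (hT _ (hv i))), der_apply]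
    exact h
  have hg : ∀ t : ℝ, HasDerivAt (fun t : ℝ => Complex.exp (-(lam * t)) * a (w t)) 0 t := fun t => by
    have h0 : HasDerivAt (fun t : ℝ => -(lam * (t : ℂ))) (-(lam * 1)) t :=
      ((Complex.ofRealCLM.hasDerivAt (x := t)).const_mul lam).neg
    refine HasDerivAt.congr_deriv (h0.cexp.mul (hf t)) ?_
    ring
  have hconst : ∀ t : ℝ, a (w t) = Complex.exp (lam * t) * a v := fun t => by
    have h := is_const_of_deriv_eq_zero (fun t => (hg t).differentiableAt)
      (fun t => (hg t).deriv) t 0
    have e : w 0 = v := funext fun i => by simp [w]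
    simp only [e, Complex.ofReal_zero, mul_zero, neg_zero, Complex.exp_zero, one_mul] at h
    rw [← h, ← mul_assoc, ← Complex.exp_add, add_neg_cancel, Complex.exp_zero, one_mul]
  have e1 : (fun i => c.re • v i + c.im • J (v i)) = fun i => ‖c‖ • w c.arg i := funext fun i => by
    simp only [w, smul_add, smul_smul, Complex.norm_mul_cos_arg, Complex.norm_mul_sin_arg]
  have e2 : a (fun i => ‖c‖ • w c.arg i) = (∏ _i : Fin n, ‖c‖) • a (w c.arg) :=
    a.toContinuousMultilinearMap.map_smul_univ (fun _ => ‖c‖) (w c.arg)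
  rw [e1, e2, hconst, Finset.prod_const, Finset.card_univ, Fintype.card_fin]
  have e3 : c = ‖c‖ * Complex.exp (c.arg * Complex.I) := (Complex.norm_mul_exp_arg_mul_I c).symm
  have e4 : conj c = ‖c‖ * Complex.exp (-(c.arg * Complex.I)) := by
    conv_lhs => rw [e3]
    rw [map_mul, Complex.conj_ofReal, ← Complex.exp_conj, map_mul, Complex.conj_ofReal,
      Complex.conj_I, mul_neg]
  obtain ⟨k, rfl⟩ := Nat.exists_eq_add_of_le hb
  rw [e4, Nat.add_sub_cancel_left, congrArg (· ^ b) e3]
  have e5 : Complex.exp (lam * c.arg) =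
      Complex.exp (c.arg * Complex.I) ^ b * Complex.exp (-(c.arg * Complex.I)) ^ k := by
    rw [← Complex.exp_nat_mul, ← Complex.exp_nat_mul, ← Complex.exp_add, hlam]
    congr 1
    push_cast
    ring
  rw [e5, Complex.real_smul]
  push_cast
  ring

/-- the monomials `c^b conj(c)^(n-b)` are linearly independent -/
theorem mono_indep (β : ℕ → ℂ)
    (h : ∀ c : ℂ, ∑ b ∈ Finset.range (n + 1), β b * c ^ b * conj c ^ (n - b) = 0) :
    ∀ b ≤ n, β b = 0 := by
  have hp : (∑ b ∈ Finset.range (n + 1), Polynomial.monomial (2 * b) (β b) : Polynomial ℂ) = 0 := by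
    refine Polynomial.eq_zero_of_infinite_isRoot _ (Set.Infinite.mono (s := Metric.sphere 0 1) ?_ ?_)
    · intro c hc
      have h1 : c * conj c = 1 := by
        rw [Complex.mul_conj, Complex.normSq_eq_norm_sq, mem_sphere_zero_iff_norm.1 hc]
        simp
      have h2 := congrArg (· * c ^ n) (h c)
      simp only [Finset.sum_mul, zero_mul] at h2
      simp only [mem_ofPred_eq, Polynomial.IsRoot.def, Polynomial.eval_finsetSum,
        Polynomial.eval_monomial]
      rw [← h2]
      refine Finset.sum_congr rfl fun b hb => ?_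
      obtain ⟨k, rfl⟩ := Nat.exists_eq_add_of_le (Nat.lt_succ_iff.1 (Finset.mem_range.1 hb))
      have h3 : c ^ k * conj c ^ k = 1 := by rw [← mul_pow, h1, one_pow]
      rw [Nat.add_sub_cancel_left]
      linear_combination (-β b * c ^ (2 * b)) * h3
    · refine (isPreconnected_sphere ?_ _ _).infinite_of_nontrivial ⟨1, by simp, -1, by simp, by norm_num⟩
      simp
  intro b hb
  have h1 := congrArg (fun p => Polynomial.coeff p (2 * b)) hp
  simp only [Polynomial.finsetSum_coeff, Polynomial.coeff_monomial, Polynomial.coeff_zero] at h1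
  rw [Finset.sum_eq_single b (fun b' _ h' => if_neg (by omega))
    (fun h' => absurd (Finset.mem_range.2 (by omega)) h'), if_pos rfl] at h1
  exact h1

end point

variable {V : Type} [NormedAddCommGroup V] [InnerProductSpace ℝ V] {R : Ret V}
  {J : V → V →L[ℝ] V} {m n : ℕ}

theorem IsKR.poly (h : IsKR R J m) (n : ℕ) (x : Om R.S n) : x ∈ ⨆ b ∈ Finset.range (n + 1),
    Module.End.eigenspace (Om.gam h.gamOK n) (Complex.I * (2 * (b : ℂ) - n)) := by
  obtain ⟨α, rfl⟩ := Submodule.Quotient.mk_surjective _ x
  have h1 := hp_mem_of_fold (Om.gam h.gamOK n) (fun b => Complex.I * (2 * (b : ℂ) - n))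
    (fun b b' hb => by
      have h2 := mul_left_cancel₀ Complex.I_ne_zero hb
      have h3 : (b : ℂ) = b' := by linear_combination h2 / 2
      exact_mod_cast h3) (List.range (n + 1)) List.nodup_range (Submodule.Quotient.mk α) (by
    refine (hp_fold_map (g := SF.gam J h.smooth n) (Nul R.S n).mkQ (fun _ => rfl) _ _ α).symm.trans ?_
    refine (Submodule.Quotient.mk_eq_zero _).2 ((nul_iff R).2 fun y hy v => ?_)
    let ev : SF V n →ₗ[ℂ] Alt V n :=
      { toFun := fun a => a.1 y, map_add' := fun _ _ => rfl, map_smul' := fun _ _ => rfl }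
    refine (DFunLike.congr_fun (hp_fold_map (g := SF.gam J h.smooth n) (g' := der (J y)) ev
      (fun _ => rfl) _ _ α) _).trans ?_
    refine der_poly (J y) (LinearMap.range (R.P y : V →ₗ[ℝ] V)) ?_ ?_ n _ _ fun i => ⟨v i, rfl⟩
    · rintro _ ⟨u, rfl⟩
      exact ⟨_, h.inv y hy u⟩
    · rintro _ ⟨u, rfl⟩
      exact h.sq y hy u)
  simpa only [List.mem_range, Finset.mem_range] using h1

end Pool.Agent.HT
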