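import Pool.Agent.P.MP_65ad7c_ag.HSPull
import Pool.Agent.P.MP_e3ee0c_gt.WIF
import Pool.Agent.Lib.SCV.Smooth

/-! Charts with a smooth left inverse; homotopies collapsing a neighbourhood of the divisor. -/

open Set Filter Topology Metric
open scoped ContDiff ComplexConjugate

noncomputable section
namespace Pool.Agent.HT

variable {N d : ℕ} {ι : Type} {Z : Set (Amb N)} {D : ι → Set (Amb N)} {O : Set (Fin d → ℂ)}
  {f : (Fin d → ℂ) → Fin N → ℂ}

lemma sum_mul_conj_ne {v : Fin N → ℂ} (hv : v ≠ 0) : ∑ k, v k * conj (v k) ≠ 0 := by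
  simp only [Complex.mul_conj, ← Complex.ofReal_sum, Ne, Complex.ofReal_eq_zero,
    Finset.sum_eq_zero_iff_of_nonneg fun i _ => Complex.normSq_nonneg (v i), Complex.normSq_eq_zero]
  exact fun h => hv (funext fun i => h i (Finset.mem_univ i))

lemma proj_contDiffAt {v : Fin N → ℂ} (hv : v ≠ 0) : ContDiffAt ℝ ∞ (proj (N := N)) v := by
  have h : ∀ i j, ContDiff ℝ ∞ fun v : Fin N → ℂ => v i * conj (v j) := fun i j =>
    (contDiff_apply ℝ ℂ i).mul (Complex.conjCLE.contDiff.comp (contDiff_apply ℝ ℂ j))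
  exact (contDiffAt_piLp 2).2 fun p => (h p.1 p.2).contDiffAt.mul
    ((ContDiff.sum fun k _ => h k k).contDiffAt.inv (sum_mul_conj_ne hv))

lemma IsChart.f_smooth (h : IsChart Z O f) {z : Fin d → ℂ} (hz : z ∈ O) : ContDiffAt ℝ ∞ f z :=
  contDiffAt_pi.2 fun i => ((Lib.SCV.contDiffOn_of_differentiableOn h.isOpen
    (differentiableOn_pi.1 h.hol i)).contDiffAt (h.isOpen.mem_nhds hz)).restrict_scalars ℝ

lemma IsChart.smooth (h : IsChart Z O f) {z : Fin d → ℂ} (hz : z ∈ O) :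
    ContDiffAt ℝ ∞ (proj ∘ f) z := (proj_contDiffAt (h.ne z hz)).comp z (h.f_smooth hz)

lemma IsChart.fderiv_inj (h : IsChart Z O f) {z : Fin d → ℂ} (hz : z ∈ O) :
    Function.Injective (fderiv ℝ (proj ∘ f) z) := by
  refine (injective_iff_map_eq_zero _).2 fun u hu => ?_
  have hl : HasDerivAt (fun t : ℝ => z + t • u) u 0 := by
    simpa using ((hasDerivAt_id (0 : ℝ)).smul_const u).const_add z
  have h1 := (cda_diff (h.smooth hz)).hasFDerivAt.comp_hasDerivAt_of_eq 0 hl (by simp)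
  have h2 := ((h.hol.differentiableAt (h.isOpen.mem_nhds hz)).hasFDerivAt.restrictScalars
    ℝ).comp_hasDerivAt_of_eq 0 hl (by simp)
  rw [hu] at h1
  refine h.imm z hz u ((∑ j, conj (f z j) * fderiv ℂ f z u j) / ∑ k, f z k * conj (f z k))
    (funext fun i => ?_)
  have h3 := HasDerivAt.fun_sum (u := Finset.univ) fun j _ =>
    (((EuclideanSpace.proj (𝕜 := ℂ) (i, j)).restrictScalars ℝ).hasFDerivAt.comp_hasDerivAt 0
      h1).fun_mul (hasDerivAt_pi.1 h2 j)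
  refine ((hasDerivAt_pi.1 h2 i).unique (h3.congr_of_eventuallyEq ?_)).trans ?_
  · filter_upwards [hl.continuousAt.eventually_mem (h.isOpen.mem_nhds (by simpa using hz))]
      with t ht
    change f _ i = ∑ j, f _ i * conj (f _ j) / _ * f (z + t • u) j
    simp only [div_mul_eq_mul_div, ← Finset.sum_div, mul_assoc, ← Finset.mul_sum,
      mul_comm (conj _)]
    rw [mul_div_cancel_right₀ _ (sum_mul_conj_ne (h.ne _ ht))]
  · simp [proj, Finset.sum_div, Finset.sum_mul]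
    exact Finset.sum_congr rfl fun j _ => by ring

/-- a chart has a smooth left inverse near each point -/
theorem IsChart.exists_inv (h : IsChart Z O f) {c : Fin d → ℂ} (hc : c ∈ O) :
    ∃ ρ > 0, ∃ (W : Set (Amb N)) (φ : Amb N → Fin d → ℂ), ball c ρ ⊆ O ∧ IsOpen W ∧
      ContDiffOn ℝ ∞ φ W ∧ MapsTo φ W (ball c ρ) ∧
      (∀ z ∈ ball c ρ, proj (f z) ∈ Z ∩ W ∧ φ (proj (f z)) = z) ∧
      ∀ y ∈ Z ∩ W, proj (f (φ y)) = y := by
  obtain ⟨L, hL⟩ := LinearMap.exists_leftInverse_of_injective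
    (fderiv ℝ (proj ∘ f) c).toLinearMap (LinearMap.ker_eq_bot.2 (h.fderiv_inj hc))
  let L' := LinearMap.toContinuousLinearMap L
  obtain ⟨W1, g, hW1, hc1, h1O, -, hF, hg, hgF⟩ := Wein.inverse_compact (L' ∘ proj ∘ f) O h.isOpen
    (fun z hz => (L'.contDiff.contDiffAt.comp z (h.smooth hz)).contDiffWithinAt) {c}
    isCompact_singleton (by simpa) (injOn_singleton _ _) (by
      rintro _ rfl
      rw [(L'.hasFDerivAt.comp _ (cda_diff (h.smooth hc)).hasFDerivAt).fderiv]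
      exact fun a b hab => (LinearMap.congr_fun hL a).symm.trans
        (hab.trans (LinearMap.congr_fun hL b)))
  obtain ⟨ρ, hρ, hb⟩ := Metric.isOpen_iff.1 hW1 c (hc1 rfl)
  obtain ⟨W0, hW0, e⟩ := h.opn _ (hb.trans h1O) isOpen_ball
  have hφ : ContDiffOn ℝ ∞ (g ∘ L') (L' ⁻¹' ((L' ∘ proj ∘ f) '' W1)) :=
    hg.comp L'.contDiff.contDiffOn fun _ hy => hy
  refine ⟨ρ, hρ, W0 ∩ (L' ⁻¹' ((L' ∘ proj ∘ f) '' W1) ∩ (g ∘ L') ⁻¹' ball c ρ), g ∘ L',
    hb.trans h1O, hW0.inter (hφ.continuousOn.isOpen_inter_preimage (hF.preimage L'.continuous)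
      isOpen_ball), hφ.mono fun _ hy => hy.2.1, fun _ hy => hy.2.2, fun z hz => ?_, fun y hy => ?_⟩
  · have h1 := e.subset ⟨z, hz, rfl⟩
    have h2 : (g ∘ L') (proj (f z)) = z := hgF z (hb hz)
    exact ⟨⟨h1.1, h1.2, ⟨z, hb hz, rfl⟩, by rwa [mem_preimage, h2]⟩, h2⟩
  · obtain ⟨z, hz, rfl⟩ := e.superset ⟨hy.1, hy.2.1⟩
    exact congrArg (proj ∘ f) (hgF z (hb hz))

lemma IsChart.mono (h : IsChart Z O f) {O' : Set (Fin d → ℂ)} (h1 : O' ⊆ O) (h2 : IsOpen O') :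
    IsChart Z O' f :=
  ⟨h2, h.hol.mono h1, fun z hz => h.ne z (h1 hz), fun z hz => h.imm z (h1 hz), h.inj.mono h1,
    fun _ h3 => h.opn _ (h3.trans h1)⟩

theorem IsSNC.geo' (h : IsSNC d Z D) : Geo d Z D := by
  classical
  refine ⟨h.compact, h.sub, fun x hx => ?_⟩
  obtain ⟨O, f, κ, hf, ⟨c, hc, rfl⟩, hκ, hD⟩ := h.chart x hx
  have hf' := hf.mono (O' := O ∩ ⋂ k ∈ {k | c k ≠ 0}, {z | z k ≠ 0}) inter_subset_left
    (hf.isOpen.inter ((toFinite _).isOpen_biInter fun k _ =>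
      isOpen_ne_fun (continuous_apply k) continuous_const))
  obtain ⟨ρ, hρ, W, φ, hb, hW, hφ, -, h1, h2⟩ :=
    hf'.exists_inv ⟨hc, mem_iInter₂.2 fun k hk => hk⟩
  obtain ⟨χ, hχ, -, hs, -, hχ1⟩ := Wein.exists_bump {c} O isCompact_singleton hf.isOpen
    (singleton_subset_iff.2 hc)
  obtain ⟨η, hη, -, hs', -, hη1⟩ := Wein.exists_bump {(proj ∘ f) c} W isCompact_singleton hW
    (singleton_subset_iff.2 (h1 c (mem_ball_self hρ)).1.2)
  rw [nhdsSet_singleton] at hχ1 hη1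
  obtain ⟨r, hr, hb'⟩ := Metric.eventually_nhds_iff_ball.1 ((hχ1.and (ball_mem_nhds c hρ)).and
    ((hf.smooth hc).continuousAt.eventually hη1.eventually_nhds))
  have hκ' : ∀ i k, ((κ i).bind fun k => if c k = 0 then some k else none) = some k ↔
      κ i = some k ∧ c k = 0 := fun i k => by
    cases κ i <;> simp +contextual [and_comm, iff_def]
  have e1 : ∀ z ∈ ball c r, χ z • (proj ∘ f) z = proj (f z) := fun z hz => by
    simp [(hb' z hz).1.1]
  have e2 : ∀ y, (∀ᶠ y in 𝓝 y, η y = 1) → η y • φ y = φ y := fun y hy => by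
    simp [hy.self_of_nhds]
  have hO : ball c r ⊆ O := fun z hz => (hb (hb' z hz).1.2).1
  refine ⟨⟨c, r, {y | ∀ᶠ y in 𝓝 y, η y = 1} ∩ (W ∩ φ ⁻¹' ball c r), f,
    fun z => χ z • (proj ∘ f) z, fun y => η y • φ y,
    fun i => (κ i).bind fun k => if c k = 0 then some k else none, hr,
    isOpen_setOfPred_eventually_nhds.inter (hφ.continuousOn.isOpen_inter_preimage hW isOpen_ball),
    hf.hol.mono hO, fun z hz => hf.ne z (hO hz), e1,
    Wein.contDiff_smul_cut O hf.isOpen χ hχ hs _ fun z hz => (hf.smooth hz).contDiffWithinAt,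
    Wein.contDiff_smul_cut W hW η hη hs' _ hφ, fun z hz => ?_, fun y hy => ?_, fun z hz => ?_,
    fun y hy => ?_, fun i j k hi hj => hκ i j k ((hκ' _ _).1 hi).1 ((hκ' _ _).1 hj).1,
    fun i k hi => ((hκ' _ _).1 hi).2, fun i z hz => ?_⟩, e1 c (mem_ball_self hr)⟩
  · have := h1 z (hb' z hz).1.2
    rw [e1 z hz]
    exact ⟨this.1.1, (hb' z hz).2, this.1.2, by rwa [mem_preimage, this.2]⟩
  · rw [e2 y hy.1]; exact hy.2.2
  · rw [e1 z hz, e2 (proj (f z)) (hb' z hz).2, (h1 z (hb' z hz).1.2).2]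
  · rw [e2 y hy.2.1, e1 _ hy.2.2.2, h2 y ⟨hy.1, hy.2.2.1⟩]
  · simp only [e1 z hz, hD i z (hO hz), hκ']
    refine exists_congr fun k => ⟨fun hk => ⟨⟨hk.1, by_contra fun h0 => ?_⟩, hk.2⟩,
      fun hk => ⟨hk.1.1, hk.2⟩⟩
    exact mem_iInter₂.1 (hb (hb' z hz).1.2).2 k h0 hk.2

end Pool.Agent.HT
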