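import Pool.Agent.P.MP_65ad7c_ag.HSPull

/-! Homotopies collapsing a neighbourhood of the divisor. -/

open Set Filter Topology Metric
open scoped ContDiff

noncomputable section
namespace Pool.Agent.HT

variable {N d : ℕ} {ι : Type} {Z : Set (Amb N)} {D : ι → Set (Amb N)}

lemma AC.of_mem (A : AC d Z D) (h : Geo d Z D) {j : ι} {y : Amb N} (hy : y ∈ D j) (hW : y ∈ A.W) :
    ∃ m, A.κ j = some m ∧ A.φ y m = 0 :=
  (A.memD j _ (A.φ_mem y hW)).1 ((A.ψφ y ⟨h.sub j hy, hW⟩).symm ▸ hy)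

lemma Geo.closed (h : Geo d Z D) (i : ι) : IsClosed (D i) := by
  refine isOpen_compl_iff.1 (isOpen_iff_mem_nhds.2 fun x hx => ?_)
  by_cases hZ : x ∈ Z
  · obtain ⟨A, rfl⟩ := h.chart x hZ
    have hc := mem_ball_self (x := A.c) A.ρ_pos
    filter_upwards [A.W_open.mem_nhds (A.ψ_mem _ hc).2] with y hy hyD
    obtain ⟨k, hk, -⟩ := A.of_mem h hyD hy
    exact hx ((A.memD i _ hc).2 ⟨k, hk, A.κ_c i k hk⟩)
  · filter_upwards [h.compact.isClosed.isOpen_compl.mem_nhds hZ] with y hy hyD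
    exact hy (h.sub i hyD)

/-- a smooth homotopy starting at the identity and preserving `Z` and the `D j` -/
structure Hty (Z : Set (Amb N)) (D : ι → Set (Amb N)) (G : ℝ × Amb N → Amb N) : Prop where
  sm : ContDiff ℝ ∞ G
  zero : ∀ y ∈ Z, G (0, y) = y
  mZ : ∀ t, ∀ y ∈ Z, G (t, y) ∈ Z
  mD : ∀ j t, ∀ y ∈ D j, G (t, y) ∈ D j

lemma Hty.id : Hty Z D Prod.snd :=
  ⟨contDiff_snd, fun _ _ => rfl, fun _ _ h => h, fun _ _ _ h => h⟩

lemma Hty.comp {G H : ℝ × Amb N → Amb N} (hG : Hty Z D G) (hH : Hty Z D H) :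
    Hty Z D fun p => G (p.1, H p) :=
  ⟨hG.sm.comp (contDiff_fst.prodMk hH.sm), fun y hy => by rw [hH.zero y hy, hG.zero y hy],
    fun t y hy => hG.mZ _ _ (hH.mZ t y hy), fun j t y hy => hG.mD _ _ _ (hH.mD j t y hy)⟩

/-- `G 1` maps a neighbourhood of `x` in `Z` into `S` -/
def Clp (Z S : Set (Amb N)) (G : ℝ × Amb N → Amb N) (x : Amb N) : Prop :=
  ∀ᶠ y in 𝓝 x, y ∈ Z → G (1, y) ∈ S

lemma Clp.left {G H : ℝ × Amb N → Amb N} (hH : Hty Z D H) {S : Set (Amb N)} {x : Amb N}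
    (h : Clp Z S G (H (1, x))) : Clp Z S (fun p => G (p.1, H p)) x := by
  have hc : Continuous fun y => H (1, y) := hH.sm.continuous.comp (by fun_prop)
  filter_upwards [hc.continuousAt.eventually h] with y hy hZ using hy (hH.mZ _ _ hZ)

lemma Clp.right {G H : ℝ × Amb N → Amb N} (hG : Hty Z D G) {j : ι} {x : Amb N}
    (h : Clp Z (D j) H x) : Clp Z (D j) (fun p => G (p.1, H p)) x :=
  h.mono fun _ hy hZ => hG.mD _ _ _ (hy hZ)

lemma Geo.col_loc (h : Geo d Z D) (i : ι) {x : Amb N} (hx : x ∈ D i) :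
    ∃ G, Hty Z D G ∧ (∀ t, ∀ y ∈ D i, G (t, y) = y) ∧ Clp Z (D i) G x := by
  obtain ⟨A, rfl⟩ := h.chart x (h.sub i hx)
  have hc := mem_ball_self (x := A.c) A.ρ_pos
  obtain ⟨k, hk, hck⟩ := (A.memD i _ hc).1 hx
  obtain ⟨χ, hχ, -, hs, h01, hχ1⟩ := Wein.exists_bump {A.ψ A.c} A.W isCompact_singleton A.W_open
    (singleton_subset_iff.2 (A.ψ_mem _ hc).2)
  let q : ℝ × Amb N → Fin d → ℂ := fun p =>
    A.φ p.2 - (Real.smoothTransition p.1 * χ p.2) • (Pi.single k (A.φ p.2 k) : Fin d → ℂ)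
  have hq : ∀ t, ∀ y ∈ A.W, q (t, y) ∈ ball A.c A.ρ := fun t y hy => by
    have h3 := (dist_pi_lt_iff A.ρ_pos).1 (A.φ_mem y hy)
    refine (dist_pi_lt_iff A.ρ_pos).2 fun m => ?_
    rcases eq_or_ne m k with rfl | hne
    · refine lt_of_le_of_lt ?_ (h3 m)
      have a1 := Real.smoothTransition.nonneg t
      have a2 := Real.smoothTransition.le_one t
      have a3 : q (t, y) m = (1 - Real.smoothTransition t * χ y) • A.φ y m := by simp [q, sub_mul]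
      rw [a3, hck, dist_zero_right, dist_zero_right, norm_smul, Real.norm_of_nonneg
        (by nlinarith [h01 y])]
      exact mul_le_of_le_one_left (norm_nonneg _) (by nlinarith [h01 y])
    · simpa [q, hne] using h3 m
  let G : ℝ × Amb N → Amb N := fun p => p.2 + (A.ψ (q p) - A.ψ (A.φ p.2))
  have hG : ∀ t, ∀ y ∈ Z, y ∈ A.W → G (t, y) = A.ψ (q (t, y)) := fun t y hy hyW => by
    simp [G, A.ψφ y ⟨hy, hyW⟩]
  have hG0 : ∀ p, q p = A.φ p.2 → G p = p.2 := fun p hp => by simp [G, hp]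
  have hG1 : ∀ t, ∀ y ∉ A.W, G (t, y) = y := fun t y hy =>
    hG0 _ (by simp [q, image_eq_zero_of_notMem_tsupport fun h => hy (hs h)])
  have a1 : ContDiff ℝ ∞ fun p : ℝ × Amb N => A.φ p.2 := A.φ_smooth.comp contDiff_snd
  refine ⟨G, ⟨contDiff_snd.add ((A.ψ_smooth.comp (a1.sub
    (((Real.smoothTransition.contDiff.comp contDiff_fst).mul (hχ.comp contDiff_snd)).smul
      ((ContinuousLinearMap.single ℝ (fun _ : Fin d => ℂ) k).contDiff.comp
        (contDiff_pi.1 a1 k))))).sub (A.ψ_smooth.comp a1)), fun y _ => hG0 _ (by simp [q]),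
    fun t y hy => ?_, fun j t y hy => ?_⟩, fun t y hy => ?_, ?_⟩
  · by_cases hyW : y ∈ A.W
    · exact hG t y hy hyW ▸ (A.ψ_mem _ (hq t y hyW)).1
    · rwa [hG1 t y hyW]
  · by_cases hyW : y ∈ A.W
    · obtain ⟨m, hm1, hm2⟩ := A.of_mem h hy hyW
      rw [hG t y (h.sub j hy) hyW]
      refine (A.memD j _ (hq t y hyW)).2 ⟨m, hm1, ?_⟩
      rcases eq_or_ne m k with rfl | hne <;> simp [q, *]
    · rwa [hG1 t y hyW]
  · by_cases hyW : y ∈ A.W
    · obtain ⟨m, hm1, hm2⟩ := A.of_mem h hy hyW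
      obtain rfl : m = k := Option.some_injective _ (hm1.symm.trans hk)
      exact hG0 _ (by simp [q, hm2])
    · exact hG1 t y hyW
  · rw [nhdsSet_singleton] at hχ1
    filter_upwards [hχ1, A.W_open.mem_nhds (A.ψ_mem _ hc).2] with y hy hyW hZ
    rw [hG 1 y hZ hyW]
    exact (A.memD i _ (hq 1 y hyW)).2 ⟨k, hk, by simp [q, hy]⟩

lemma Geo.col_one (h : Geo d Z D) (i : ι) :
    ∃ G, Hty Z D G ∧ (∀ t, ∀ y ∈ D i, G (t, y) = y) ∧ ∀ x ∈ D i, Clp Z (D i) G x := by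
  have hc : IsCompact (D i) := h.compact.of_isClosed_subset (h.closed i) (h.sub i)
  have := hc.induction_on (p := fun K => ∃ G, Hty Z D G ∧ (∀ t, ∀ y ∈ D i, G (t, y) = y) ∧
    ∀ x ∈ K, x ∈ D i → Clp Z (D i) G x) ⟨_, Hty.id, fun _ _ _ => rfl, fun _ h => h.elim⟩
    (fun s t hst ⟨G, h1, h2, h3⟩ => ⟨G, h1, h2, fun x hx => h3 x (hst hx)⟩)
    (fun s t ⟨G, h1, h2, h3⟩ ⟨H, k1, k2, k3⟩ => ⟨_, h1.comp k1, fun t y hy => by
      simp only [k2 t y hy, h2 t y hy], fun x hx hD => hx.elim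
        (fun hx => Clp.left k1 (by rw [k2 _ _ hD]; exact h3 x hx hD))
        fun hx => (k3 x hx hD).right h1⟩)
    fun x hx => by
      obtain ⟨G, h1, h2, h3⟩ := h.col_loc i hx
      exact ⟨_, mem_nhdsWithin_of_mem_nhds h3.eventually_nhds, G, h1, h2, fun _ hy _ => hy⟩
  obtain ⟨G, h1, h2, h3⟩ := this
  exact ⟨G, h1, h2, fun x hx => h3 x hx hx⟩

lemma Geo.col_all [Finite ι] (h : Geo d Z D) :
    ∃ G, Hty Z D G ∧ ∀ i, ∀ x ∈ D i, Clp Z (D i) G x := by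
  have : ∀ s : Set ι, ∃ G, Hty Z D G ∧ ∀ i ∈ s, ∀ x ∈ D i, Clp Z (D i) G x := fun s => by
    induction s, toFinite s using Set.Finite.induction_on with
    | empty => exact ⟨_, Hty.id, fun _ h => h.elim⟩
    | @insert i s _ _ ih =>
      obtain ⟨H, k1, k2⟩ := ih
      obtain ⟨G, h1, -, h3⟩ := h.col_one i
      refine ⟨_, h1.comp k1, ?_⟩
      rintro j (rfl | hj) x hx
      · exact Clp.left k1 (h3 _ (k1.mD _ _ _ hx))
      · exact (k2 j hj x hx).right h1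
  obtain ⟨G, h1, h2⟩ := this univ
  exact ⟨G, h1, fun i => h2 i trivial⟩

end Pool.Agent.HT
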