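import Pool.Agent.P.MP_65ad7c_ag.HS2
import Pool.Agent.P.MP_65ad7c_ag.HS3
import Pool.Agent.P.MP_65ad7c_ag.HS4

/-! Every total cocycle comes from a closed form with compact support in the complement. -/

open Set Filter Topology
open scoped ContDiff

noncomputable section
namespace Pool.Agent.HT

variable {N d : ℕ} {ι : Type} {Z : Set (Amb N)} {D : ι → Set (Amb N)}

/-- globally smooth adapted charts -/
theorem IsSNC.geo [Finite ι] (h : IsSNC d Z D) : Geo d Z D := h.geo'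

/-- the alternating sum of the faces -/
def hsD {A : Type} [AddCommGroup A] [Module ℂ A] {p : ℕ} (b : (Fin p → ι) → A)
    (I : Fin (p + 1) → ι) : A := ∑ j : Fin (p + 1), (-1 : ℂ) ^ (j : ℕ) • b (j.removeNth I)

lemma hsD_hsD {A : Type} [AddCommGroup A] [Module ℂ A] {p : ℕ} (b : (Fin p → ι) → A)
    (I : Fin (p + 2) → ι) : hsD (hsD b) I = 0 := by
  simp only [hsD, Finset.smul_sum, smul_smul, ← pow_add]
  rw [← Finset.sum_product']
  refine Finset.sum_involution (fun x _ => (x.1.succAbove x.2, x.2.predAbove x.1))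
    (fun x _ => ?_) (fun x _ _ h => Fin.succAbove_ne _ _ (congrArg Prod.fst h))
    (fun _ _ => by simp) fun x _ => Prod.ext (Fin.succAbove_succAbove_predAbove _ _)
      (Fin.predAbove_predAbove_succAbove _ _)
  rw [Fin.neg_one_pow_succAbove_add_predAbove, ← Fin.removeNth_removeNth_eq_swap, neg_smul,
    add_neg_cancel]

lemma hsD_add {A : Type} [AddCommGroup A] [Module ℂ A] {p : ℕ} (a b : (Fin p → ι) → A) :
    hsD (a + b) = hsD a + hsD b := funext fun _ => by simp [hsD, Finset.sum_add_distrib]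

lemma hsD_sub {A : Type} [AddCommGroup A] [Module ℂ A] {p : ℕ} (a b : (Fin p → ι) → A) :
    hsD (a - b) = hsD a - hsD b := funext fun _ => by simp [hsD, smul_sub]

lemma hsD_cons {A : Type} [AddCommGroup A] [Module ℂ A] {p : ℕ} (c : (Fin (p + 1) → ι) → A) (i : ι)
    (I : Fin (p + 1) → ι) :
    hsD c (Fin.cons i I) = c I - hsD (fun J => c (Fin.cons i J)) I := by
  rw [hsD, Fin.sum_univ_succ, hsD, sub_eq_add_neg, ← Finset.sum_neg_distrib]
  congr 1
  · simp
  · refine Finset.sum_congr rfl fun j _ => ?_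
    have : j.succ.removeNth (α := fun _ => ι) (Fin.cons i I) = Fin.cons i (j.removeNth I) := by
      funext k; cases k using Fin.cases <;> simp [Fin.removeNth]
    simp [this, pow_succ]

lemma strat_cons {p : ℕ} (i : ι) (I : Fin p → ι) :
    strat Z D I ∩ D i ⊆ strat Z D (Fin.cons i I : Fin (p + 1) → ι) := fun _ h =>
  ⟨h.1.1, mem_iInter.2 fun k => Fin.cases h.2 (mem_iInter.1 h.1.2) k⟩

lemma Hty.strat {G : ℝ × Amb N → Amb N} (h : Hty Z D G) {p : ℕ} (I : Fin p → ι) (t : ℝ) :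
    ∀ y ∈ strat Z D I, G (t, y) ∈ strat Z D I := fun y hy =>
  ⟨h.mZ t y hy.1, mem_iInter.2 fun k => h.mD _ t y (mem_iInter.1 hy.2 k)⟩

/-- extension of forms from `D i`, compatible with the strata -/
lemma Geo.exists_ext (h : Geo d Z D) (i : ι) (n : ℕ) : ∃ e : SF (Amb N) n → SF (Amb N) n,
    (∀ α, α - e α ∈ Nul (D i) n) ∧ ∀ {p : ℕ} (I : Fin p → ι) (k : ι) (α : SF (Amb N) n),
      α ∈ Nul (strat Z D I ∩ D k ∩ D i) n → e α ∈ Nul (strat Z D I ∩ D k) n := by
  obtain ⟨G, h1, h2, h3⟩ := h.col_one i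
  have hW : IsOpen {x | Clp Z (D i) G x} := isOpen_setOfPred_eventually_nhds
  obtain ⟨χ, hχ, -, hs, -, hχ1⟩ := Wein.exists_bump (D i) _
    (h.compact.of_isClosed_subset (h.closed i) (h.sub i)) hW h3
  refine ⟨fun α => SF.fsmul χ hχ n (α.pl _ (slice_smooth h1.sm 1)), fun α => ?_,
    fun I k α hα => Nul.fsmul_of_inter hW (Nul.pl hα _ fun y hy =>
      ⟨⟨h1.strat I 1 y hy.1.1, h1.mD _ _ _ hy.1.2⟩, hy.2.self_of_nhds hy.1.1.1⟩) hχ hs⟩
  have a1 := Nul.pl_sub α (slice_smooth h1.sm 1) (h2 1)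
  have a2 : SF.fsmul χ hχ n (α.pl _ (slice_smooth h1.sm 1)) - α.pl _ (slice_smooth h1.sm 1) ∈
      Nul (D i) n := Nul.of_zero fun x hx => by
    ext v; simp [hχ1.self_of_nhdsSet x hx]
  convert neg_mem (add_mem a1 a2) using 1
  abel

lemma Geo.row_sf [Finite ι] (h : Geo d Z D) {p n : ℕ} (c : (Fin (p + 1) → ι) → SF (Amb N) n)
    (hc : ∀ I, hsD c I ∈ Nul (strat Z D I) n) :
    ∃ b : (Fin p → ι) → SF (Amb N) n, ∀ I, c I - hsD b I ∈ Nul (strat Z D I) n := by
  have : ∀ s : Set ι, ∃ b : (Fin p → ι) → SF (Amb N) n, ∀ k ∈ s, ∀ I,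
      (c - hsD b) I ∈ Nul (strat Z D I ∩ D k) n := fun s => by
    induction s, toFinite s using Set.Finite.induction_on with
    | empty => exact ⟨0, fun _ h => h.elim⟩
    | @insert i s _ _ ih =>
      obtain ⟨b, hb⟩ := ih
      obtain ⟨e, e1, e2⟩ := h.exists_ext i n
      refine ⟨b + fun J => e ((c - hsD b) (Fin.cons i J)), fun k hk I => ?_⟩
      rw [hsD_add, ← sub_sub]
      rcases hk with rfl | hk
      · have a1 : hsD (c - hsD b) (Fin.cons k I) ∈ Nul (strat Z D I ∩ D k) n := by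
          rw [hsD_sub, Pi.sub_apply, hsD_hsD, sub_zero]
          exact Nul.anti (strat_cons k I) (hc _)
        have a2 : hsD ((fun J => (c - hsD b) (Fin.cons k J)) -
            fun J => e ((c - hsD b) (Fin.cons k J))) I ∈ Nul (strat Z D I ∩ D k) n :=
          sum_mem fun j _ => Submodule.smul_mem _ _ (Nul.anti inter_subset_right (e1 _))
        rw [hsD_cons] at a1
        rw [hsD_sub] at a2
        convert add_mem a1 a2 using 1
        simp only [Pi.sub_apply]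
        abel
      · exact sub_mem (hb k hk I) (sum_mem fun j _ => Submodule.smul_mem _ _
          (Nul.anti (inter_subset_inter_left _ (strat_sub Z D I j)) (e2 _ k _
            (Nul.anti (fun y hy => mem_inter (strat_cons i _ ⟨hy.1.1, hy.2⟩) hy.1.2)
              (hb k hk _)))))
  obtain ⟨b, hb⟩ := this univ
  exact ⟨b, fun I => Nul.anti (fun y hy => mem_inter hy (mem_iInter.1 hy.2 0))
    (hb (I 0) trivial I)⟩

lemma hsD_mk {p n : ℕ} (b : (Fin p → ι) → SF (Amb N) n) (I : Fin (p + 1) → ι) :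
    ∑ j : Fin (p + 1), (-1 : ℂ) ^ (j : ℕ) • Om.res (strat_sub Z D I j) n
      (Om.mk _ (b (j.removeNth I))) = Om.mk _ (hsD b I) :=
  ((map_sum (Nul (strat Z D I) n).mkQ _ _).trans
    (Finset.sum_congr rfl fun _ _ => map_smul _ _ _)).symm

lemma Geo.pl_mem [Finite ι] (h : Geo d Z D) {G : ℝ × Amb N → Amb N} (h1 : Hty Z D G)
    (h2 : ∀ i, ∀ x ∈ D i, Clp Z (D i) G x) {n : ℕ} {α : SF (Amb N) n} (hα : ∀ i, α ∈ Nul (D i) n) :
    Om.mk Z (α.pl _ (slice_smooth h1.sm 1)) ∈ Ac Z (Z \ ⋃ i, D i) n := by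
  have hW : IsOpen (⋃ i, {x | Clp Z (D i) G x}) :=
    isOpen_iUnion fun _ => isOpen_setOfPred_eventually_nhds
  refine Submodule.mem_iSup_of_mem (Z \ ⋃ i, {x | Clp Z (D i) G x}) (Submodule.mem_iSup_of_mem
    ⟨h.compact.diff hW, sdiff_subset_sdiff_right (iUnion_mono h2)⟩
    ((Submodule.Quotient.mk_eq_zero _).2 (Nul.loc fun x hx => ?_)))
  obtain ⟨i, hi⟩ := mem_iUnion.1 (not_not.1 fun h => hx.2 ⟨hx.1, h⟩)
  exact ⟨_, hi, Nul.pl (hα i) (slice_smooth h1.sm 1) fun y hy => hy.2 hy.1.1⟩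

/-- exactness of the rows -/
theorem Geo.row [Finite ι] (h : Geo d Z D) (p n : ℕ)
    (c : (I : Fin (p + 1) → ι) → Om (strat Z D I) n)
    (hc : ∀ I : Fin (p + 2) → ι, ∑ j : Fin (p + 2), (-1 : ℂ) ^ (j : ℕ) •
      Om.res (strat_sub Z D I j) n (c (j.removeNth I)) = 0) :
    ∃ b : (I : Fin p → ι) → Om (strat Z D I) n, ∀ I : Fin (p + 1) → ι,
      c I = ∑ j : Fin (p + 1), (-1 : ℂ) ^ (j : ℕ) •
        Om.res (strat_sub Z D I j) n (b (j.removeNth I)) := by
  choose c' hc' using fun I => Submodule.Quotient.mk_surjective _ (c I)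
  obtain rfl : c = fun I => Om.mk _ (c' I) := funext fun I => (hc' I).symm
  obtain ⟨b, hb⟩ := h.row_sf c' fun I =>
    (Submodule.Quotient.mk_eq_zero _).1 ((hsD_mk c' I).symm.trans (hc I))
  exact ⟨fun I => Om.mk _ (b I), fun I =>
    ((Submodule.Quotient.eq _).2 (hb I)).trans (hsD_mk b I).symm⟩

/-- a locally constant function that vanishes on the divisor vanishes near it -/
theorem Geo.squash0 [Finite ι] (h : Geo d Z D) (α : Om Z 0) (hd : Om.d Z 0 α = 0)
    (hD : ∀ i, Om.res (h.sub i) 0 α = 0) : α ∈ Ac Z (Z \ ⋃ i, D i) 0 := by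
  obtain ⟨α, rfl⟩ := Submodule.Quotient.mk_surjective _ α
  obtain ⟨G, h1, h2⟩ := h.col_all
  have a1 := Nul.K ((Submodule.Quotient.mk_eq_zero _).1 hd) h1.sm h1.mZ
  have a2 := Nul.pl_sub α (slice_smooth h1.sm 0) h1.zero
  rw [← SF.hom_zero h1.sm] at a1
  have a3 := add_mem a1 a2
  rw [sub_add_sub_cancel] at a3
  exact (Submodule.Quotient.eq _).2 a3 ▸
    h.pl_mem h1 h2 fun i => (Submodule.Quotient.mk_eq_zero _).1 (hD i)

/-- a closed form that vanishes on the divisor can be moved away from it -/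
theorem Geo.squash [Finite ι] (h : Geo d Z D) (n : ℕ) (α : Om Z (n + 1)) (hd : Om.d Z _ α = 0)
    (hD : ∀ i, Om.res (h.sub i) _ α = 0) :
    ∃ β : Om Z n, (∀ i, Om.res (h.sub i) n β = 0) ∧
      α - Om.d Z n β ∈ Ac Z (Z \ ⋃ i, D i) (n + 1) := by
  obtain ⟨α, rfl⟩ := Submodule.Quotient.mk_surjective _ α
  obtain ⟨G, h1, h2⟩ := h.col_all
  have hα := fun i => (Submodule.Quotient.mk_eq_zero (x := α) _).1 (hD i)
  refine ⟨Om.mk Z (-α.K G h1.sm), fun i => (Submodule.Quotient.mk_eq_zero _).2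
    (neg_mem (Nul.K (hα i) h1.sm (h1.mD i))), ?_⟩
  have a1 := Nul.K ((Submodule.Quotient.mk_eq_zero (x := SF.d _ α) _).1 hd) h1.sm h1.mZ
  have a2 := Nul.pl_sub α (slice_smooth h1.sm 0) h1.zero
  have a3 : α.pl _ (slice_smooth h1.sm 1) - (α - SF.d n (-α.K G h1.sm)) ∈ Nul Z (n + 1) := by
    convert add_mem a1 a2 using 1
    rw [eq_sub_of_add_eq (SF.hom_succ h1.sm α).symm, map_neg]
    abel
  have a4 := h.pl_mem h1 h2 hα
  rwa [Om.mk, (Submodule.Quotient.eq _).2 a3] at a4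

end Pool.Agent.HT
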