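import Pool.Agent.P.MP_65ad7c_ag.HAlg
import Pool.Agent.P.MP_65ad7c_ag.HSurj
import Pool.Agent.P.MP_65ad7c_ag.HKD

/-! The complex of strata as an abstract double complex. -/

open Set
open scoped ContDiff

noncomputable section
namespace Pool.Agent.HT

variable {N d n : ℕ} {ι : Type} {Z : Set (Amb N)} {D : ι → Set (Amb N)}

/-- what Hodge theory gives on a stratum -/
def Good (S : Set (Amb N)) : Prop := ∃ h : GamOK (JP N) S, Hodge h ∧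
  ∀ a n (x : Om S n), x ∈ TypeGe S a n ↔ x ∈ EGe (Om.gam h n) (2 * (a : ℝ) - n)

/-- every total cocycle comes from a closed form with compact support off the divisor -/
theorem Geo.lift [Finite ι] (h : Geo d Z D) {y : Tot Z D} (hy : y ∈ (totBG Z D).Deg n)
    (hD : Dt Z D y = 0) : ∃ a ∈ Cc Z D n, ∃ w, inc Z D n a - Dt Z D w = y := by
  obtain ⟨z, hz⟩ := (totBG Z D).to_col0 (totBG_row h.row) hy hD
  obtain ⟨a, ha⟩ := exists_inc_of_mem_H hz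
  have h0 : Dt Z D (inc Z D n a) = 0 := by
    rw [← ha, ← totBG_D, map_sub, BG.DD, totBG_D, hD, sub_zero]
  obtain ⟨h1, h2⟩ := (Dt_inc_eq_zero h.sub).1 h0
  rcases n with _ | n
  · refine ⟨a, mem_Cc.2 ⟨h.squash0 a h1 h2, h1⟩, -z, ?_⟩
    rw [← ha, ← totBG_D, map_neg]
    abel
  · obtain ⟨β, hβ, hc⟩ := h.squash n a h1 h2
    refine ⟨_, mem_Cc.2 ⟨hc, by rw [map_sub, h1, Om.d_d, sub_zero]⟩, -z - inc Z D n β, ?_⟩
    rw [map_sub, ← Dt_inc_of_res h.sub hβ, ← ha, ← totBG_D, ← totBG_D, map_sub, map_neg]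
    abel

theorem BG.tr_mem_Col {T : Type} [AddCommGroup T] [Module ℂ T] (B : BG T) {c : ℕ} (m : ℕ) {x : T}
    (hx : x ∈ B.Col c) : B.tr m x ∈ B.Col c := by
  rw [BG.mem_Col] at hx ⊢
  intro p hp q
  rw [B.e_tr, hx p hp q, ite_self]

theorem BG.tr_D_ex2 {T : Type} [AddCommGroup T] [Module ℂ T] (B : BG T) (m : ℕ) (x : T) :
    ∃ w, B.tr m (B.D x) = B.D w := by
  rcases m with _ | m
  · exact ⟨0, by rw [B.tr_D_zero, map_zero]⟩
  · exact ⟨_, B.tr_D m x⟩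

/-- the complex of strata with its Hodge filtrations -/
theorem exists_KD [Finite ι] (hg : ∀ p (I : Fin p → ι), Good (strat Z D I)) :
    ∃ K : KD (Tot Z D), K.toBG = totBG Z D ∧
      (∀ a m (α : Om Z m), α ∈ Fil Z D a m ↔ ∃ z, inc Z D m α - Dt Z D z ∈ K.F a) ∧
      (∀ a, ∀ y ∈ K.F a, totConj Z D y ∈ K.Fb a) ∧ ∀ a, ∀ y ∈ K.Fb a, totConj Z D y ∈ K.F a := by
  choose h hH hT using hg
  refine ⟨totKD h hH, rfl, fun a m α => mem_cls_of_eq fun y => ?_,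
    fun a y => totConj_mem_Fb h hH, fun a y => totConj_mem_F h hH⟩
  rw [mem_totF]
  exact forall₃_congr fun p q I => hT p I a q _

theorem totConj_sub_Dt (α : Om Z n) (w : Tot Z D) : totConj Z D (inc Z D n α - Dt Z D w) =
    inc Z D n (Om.conj Z n α) - Dt Z D (totConj Z D w) := by
  rw [map_sub, totConj_inc, totConj_Dt]

theorem odd_span' [Finite ι] (h : Geo d Z D) (hg : ∀ p (I : Fin p → ι), Good (strat Z D I))
    {c b : ℕ} (hn : n + 1 = c + 2 * b) {α : Om Z n} (hα : α ∈ Cc Z D n ⊓ col Z D c n) :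
    ∃ f ∈ Cc Z D n ⊓ col Z D c n ⊓ Fil Z D b n, ∃ f' ∈ Cc Z D n ⊓ col Z D c n ⊓ Fil Z D b n,
      ∃ r ∈ Cc Z D n ⊓ col Z D (c + 1) n, α = f + Om.conj Z n f' + r := by
  obtain ⟨K, hK, hF, -, hc⟩ := exists_KD hg
  obtain ⟨z, hz⟩ := mem_col.1 hα.2
  obtain ⟨w, hw⟩ := (totBG Z D).tr_D_ex2 n z
  have e : (totBG Z D).tr n (inc Z D n α - Dt Z D z) = inc Z D n α - Dt Z D w := by
    rw [map_sub, BG.tr_of_mem _ (inc_mem_Deg α), ← totBG_D, hw, totBG_D]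
  have hy : inc Z D n α - Dt Z D w ∈ K.Deg n ⊓ K.Col c := by
    rw [hK, ← e]
    exact ⟨BG.tr_mem _ _ _, BG.tr_mem_Col _ _ hz⟩
  have hD : K.D (inc Z D n α - Dt Z D w) = 0 := by
    rw [hK, map_sub, ← totBG_D w, BG.DD, totBG_D, Cc.Dt_inc hα.1, sub_zero]
  obtain ⟨x, hx, x', hx', u, h1, h2, h3⟩ := K.span_odd hn hy hD
  rw [hK] at hx hx' h1 h2 h3
  obtain ⟨a, ha, v, hv⟩ := h.lift hx.1.1 h1
  obtain ⟨a', ha', v', hv'⟩ := h.lift (totConj_mem_Deg hx'.1.1)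
    (by rw [← totConj_Dt, ← totBG_D, h2, map_zero])
  have e' : inc Z D n (Om.conj Z n a') - Dt Z D (totConj Z D v') = x' := by
    rw [← totConj_sub_Dt, hv', totConj_conj]
  refine ⟨a, ⟨⟨ha, mem_col.2 ⟨v, hv ▸ hx.1.2⟩⟩, (hF _ _ _).2 ⟨v, hv ▸ hx.2⟩⟩,
    a', ⟨⟨ha', mem_col.2 ⟨v', hv' ▸ totConj_mem_Col hx'.1.2⟩⟩, (hF _ _ _).2 ⟨v', hv' ▸ hc _ _ hx'.2⟩⟩,
    α - a - Om.conj Z n a', ⟨sub_mem (sub_mem hα.1 ha) (Cc.conj_mem ha'),
      mem_col.2 ⟨w - v - totConj Z D v' + u, ?_⟩⟩, by abel⟩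
  have e2 : inc Z D n (α - a - Om.conj Z n a') - Dt Z D (w - v - totConj Z D v' + u) =
      inc Z D n α - Dt Z D w - x - x' - (totBG Z D).D u := by
    rw [← hv, ← e']
    simp only [← totBG_D, map_sub, map_add]
    abel
  rwa [e2]

theorem odd_disj' [Finite ι] (h : Geo d Z D) (hg : ∀ p (I : Fin p → ι), Good (strat Z D I))
    {c b : ℕ} (hn : n + 1 = c + 2 * b) {f f' : Om Z n}
    (hf : f ∈ Cc Z D n ⊓ col Z D c n ⊓ Fil Z D b n)
    (hf' : f' ∈ Cc Z D n ⊓ col Z D c n ⊓ Fil Z D b n)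
    (hff : f - Om.conj Z n f' ∈ col Z D (c + 1) n) : f ∈ col Z D (c + 1) n := by
  obtain ⟨K, hK, hF, hc, -⟩ := exists_KD hg
  have := K.disj_odd (x := inc Z D n f) (x' := inc Z D n (Om.conj Z n f')) hn
  rw [hK] at this
  refine mem_col.2 (this (inc_mem_Deg _) (inc_mem_Deg _) (Cc.Dt_inc hf.1.1)
    (Cc.Dt_inc (Cc.conj_mem hf'.1.1)) (mem_col.1 hf.1.2) ((hF _ _ _).1 hf.2)
    (mem_col.1 (col_conj hf'.1.2)) ?_ ?_)
  · obtain ⟨z, hz⟩ := (hF _ _ _).1 hf'.2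
    exact ⟨totConj Z D z, totConj_sub_Dt f' z ▸ hc _ _ hz⟩
  · rw [← map_sub]
    exact mem_col.1 hff

end Pool.Agent.HT
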