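import Pool.Agent.P.MP_65ad7c_ag.HKaeD

/-! The `d d^c` lemma from the Hodge decomposition. -/

noncomputable section
namespace Pool.Agent.HT

variable {M : Type} [AddCommGroup M] [Module ℂ M] {ip : M → M → ℂ} {T : Submodule ℂ M}
  {d ds c cs : Module.End ℂ M}

theorem Pack.zero_right (h : Pack ip T d ds c cs) (u : M) : ip u 0 = 0 := by
  simpa using h.smul 0 u 0

theorem Pack.zero_left (h : Pack ip T d ds c cs) (u : M) : ip 0 u = 0 := by
  rw [← h.conj, h.zero_right, map_zero]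

theorem Pack.adj_d' (h : Pack ip T d ds c cs) (u w : M) : ip (ds u) w = ip u (d w) := by
  rw [← h.conj, ← h.adj_d, h.conj]

theorem Pack.symm (h : Pack ip T d ds c cs) : Pack ip T c cs d ds where
  add := h.add
  smul := h.smul
  conj := h.conj
  nonneg := h.nonneg
  defn := h.defn
  d_mem := h.c_mem
  ds_mem := h.cs_mem
  c_mem := h.d_mem
  cs_mem := h.ds_mem
  adj_d := h.adj_c
  adj_c := h.adj_d
  dd := h.cc
  cc := h.dd
  dc := fun u hu => by rw [add_comm]; exact h.dc u hu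
  dcs := h.cds
  cds := h.dcs
  lap := fun u hu => (h.lap u hu).symm
  hodge := fun u hu => by
    obtain ⟨k, hk, w, hw, h1, h2⟩ := h.hodge u hu
    exact ⟨k, hk, w, hw, by rw [← h.lap k hk, h1], by rw [← h.lap w hw]; exact h2⟩

theorem Pack.ds_zero (h : Pack ip T d ds c cs) {u : M} (h0 : d (ds u) = 0) : ds u = 0 :=
  h.defn _ (by rw [h.adj_d', h0, h.zero_right, Complex.zero_re])

theorem Pack.d_zero (h : Pack ip T d ds c cs) {u : M} (h0 : ds (d u) = 0) : d u = 0 :=
  h.defn _ (by rw [h.adj_d, h0, h.zero_right, Complex.zero_re])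

theorem Pack.harm (h : Pack ip T d ds c cs) {u : M} (h0 : d (ds u) + ds (d u) = 0) : d u = 0 := by
  have h1 : ip u (d (ds u) + ds (d u)) = 0 := by rw [h0, h.zero_right]
  rw [h.add, ← h.adj_d' u (ds u), ← h.adj_d u (d u)] at h1
  have h2 := congrArg Complex.re h1
  rw [Complex.add_re, Complex.zero_re] at h2
  exact h.defn _ (by linarith [h.nonneg (ds u), h.nonneg (d u)])

theorem Pack.hA (h : Pack ip T d ds c cs) {x : M} (hx : x ∈ T) (hd : d x = 0) :
    ∃ b ∈ T, c (x - d b) = 0 := by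
  obtain ⟨k, hk, w, hw, h1, h2⟩ := h.hodge x hx
  have h3 : d k = 0 := h.harm h1
  have h4 : c k = 0 := h.symm.harm (by rw [← h.lap k hk, h1])
  have h5 : d (ds (d w)) = 0 := by
    rw [h2, map_add, map_add, h3, h.dd _ (h.ds_mem w hw), zero_add, zero_add] at hd
    exact hd
  refine ⟨ds w, h.ds_mem w hw, ?_⟩
  rw [h2, h.ds_zero h5, add_zero, add_sub_cancel_right, h4]

theorem Pack.hC (h : Pack ip T d ds c cs) {y : M} (hy : y ∈ T) (hd : c (d y) = 0) :
    ∃ b ∈ T, d y = d (c b) := by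
  obtain ⟨k, hk, w, hw, h1, h2⟩ := h.symm.hodge y hy
  have h3 : d k = 0 := h.harm (by rw [h.lap k hk, h1])
  have hcw := h.c_mem w hw
  have hb := h.cs_mem w hw
  have h4 : d (cs (c w)) = -cs (d (c w)) := eq_neg_of_add_eq_zero_left (h.dcs _ hcw)
  have h5 : c (d (c (cs w))) = 0 := by
    have := h.dc _ (h.c_mem _ hb)
    rwa [h.cc _ hb, map_zero, zero_add] at this
  have h6 : d y = d (c (cs w)) - cs (d (c w)) := by
    rw [h2, map_add, map_add, h3, zero_add, h4, sub_eq_add_neg]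
  have h7 : c (cs (d (c w))) = 0 := by
    rw [h6, map_sub, h5, zero_sub, neg_eq_zero] at hd
    exact hd
  exact ⟨cs w, hb, by rw [h6, h.symm.ds_zero h7, sub_zero]⟩

theorem Pack.hD (h : Pack ip T d ds c cs) {y : M} (hy : y ∈ T) (hd : d (c y) = 0) :
    ∃ b ∈ T, c y = d (c b) := by
  obtain ⟨b, hb, h1⟩ := h.symm.hC hy hd
  refine ⟨-b, T.neg_mem hb, ?_⟩
  rw [h1, map_neg, map_neg]
  exact eq_neg_of_add_eq_zero_right (h.dc b hb)

end Pool.Agent.HT
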