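import Pool.Agent.P.MP_65ad7c_ag.HAlgD

/-! The formal properties of `Om`, `Ac`, `col`, `Fil`. -/

open Set
open scoped ContDiff ComplexConjugate

noncomputable section
namespace Pool.Agent.HT

section formal
variable {V : Type} [NormedAddCommGroup V] [NormedSpace ℝ V] {ι : Type} {n : ℕ}

theorem SF.ext' {a b : SF V n} (h : a.1 = b.1) : a = b := Subtype.ext h

theorem SF.pull_val (L : V →L[ℝ] V) (α : SF V n) :
    (SF.pull L n α).1 = fun x => (α.1 (L x)).compContinuousLinearMap L := rfl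

theorem SF.conj_val (α : SF V n) (x : V) (v : Fin n → V) :
    (SF.conj n α).1 x v = conj (α.1 x v) := rfl

theorem SF.d_d (α : SF V n) : SF.d (n + 1) (SF.d n α) = 0 :=
  SF.ext' (extDeriv_extDeriv (r := ∞) α.smooth (by simp; decide))

theorem SF.d_pull (L : V →L[ℝ] V) (α : SF V n) :
    SF.d n (SF.pull L n α) = SF.pull L (n + 1) (SF.d n α) := by
  refine SF.ext' (funext fun x => ?_)
  have h := extDeriv_pullback (f := L) (x := x) (r := ∞) (α.diff (L x)) L.contDiff.contDiffAt
    (by simp; decide)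
  simp only [L.fderiv] at h
  exact h

theorem SF.d_conj (α : SF V n) : SF.d n (SF.conj n α) = SF.conj (n + 1) (SF.d n α) := by
  refine SF.ext' (funext fun x => ?_)
  ext v
  rw [SF.conj_val, SF.d_val, SF.d_val, extDeriv_apply (α.diff x),
    extDeriv_apply ((SF.conj n α).diff x), map_sum]
  refine Finset.sum_congr rfl fun i _ => ?_
  have h := Complex.conjCLE.comp_fderiv (f := fun y => α.1 y (i.removeNth v)) (x := x)
  have h' : (fun y => (SF.conj n α).1 y (i.removeNth v)) =
      Complex.conjCLE ∘ fun y => α.1 y (i.removeNth v) := rfl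
  rw [h', h, map_zsmul]
  rfl

theorem Om.d_mk (S : Set V) (α : SF V n) :
    Om.d S n (Submodule.Quotient.mk α) = Submodule.Quotient.mk (SF.d n α) := rfl

theorem Om.pull_mk {S S' : Set V} (L : V →L[ℝ] V) (h : MapsTo L S S') (α : SF V n) :
    Om.pull L h n (Submodule.Quotient.mk α) = Submodule.Quotient.mk (SF.pull L n α) := rfl

theorem Om.conj_mk (S : Set V) (α : SF V n) :
    Om.conj S n (Submodule.Quotient.mk α) = Submodule.Quotient.mk (SF.conj n α) := rfl

theorem Om.res_mk {S S' : Set V} (h : S ⊆ S') (α : SF V n) :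
    Om.res h n (Submodule.Quotient.mk α) = Submodule.Quotient.mk α := rfl

theorem Om.d_d (S : Set V) (α : Om S n) : Om.d S (n + 1) (Om.d S n α) = 0 := by
  induction α using Submodule.Quotient.induction_on with
  | H α => rw [Om.d_mk, Om.d_mk, SF.d_d]; rfl

theorem Om.d_pull {S S' : Set V} (L : V →L[ℝ] V) (h : MapsTo L S S') (α : Om S' n) :
    Om.d S n (Om.pull L h n α) = Om.pull L h (n + 1) (Om.d S' n α) := by
  induction α using Submodule.Quotient.induction_on with
  | H α => rw [Om.pull_mk, Om.d_mk, Om.d_mk, Om.pull_mk, SF.d_pull]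

theorem Om.d_conj (S : Set V) (α : Om S n) :
    Om.d S n (Om.conj S n α) = Om.conj S (n + 1) (Om.d S n α) := by
  induction α using Submodule.Quotient.induction_on with
  | H α => rw [Om.conj_mk, Om.d_mk, Om.d_mk, Om.conj_mk, SF.d_conj]

theorem Om.conj_conj (S : Set V) (α : Om S n) : Om.conj S n (Om.conj S n α) = α := by
  induction α using Submodule.Quotient.induction_on with
  | H α =>
    rw [Om.conj_mk, Om.conj_mk]
    congr 1
    refine SF.ext' (funext fun x => ?_)
    ext v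
    simp [SF.conj_val]

theorem Om.conj_pull {S S' : Set V} (L : V →L[ℝ] V) (h : MapsTo L S S') (α : Om S' n) :
    Om.conj S n (Om.pull L h n α) = Om.pull L h n (Om.conj S' n α) := by
  induction α using Submodule.Quotient.induction_on with
  | H α => rfl

theorem Om.pull_pull {S S' S'' : Set V} (L L' : V →L[ℝ] V) (h : MapsTo L S S')
    (h' : MapsTo L' S' S'') (α : Om S'' n) :
    Om.pull L h n (Om.pull L' h' n α) = Om.pull (L'.comp L) (h'.comp h) n α := by
  induction α using Submodule.Quotient.induction_on with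
  | H α => rfl

theorem Om.res_pull {S S' S'' : Set V} (L : V →L[ℝ] V) (h : S ⊆ S') (h' : MapsTo L S' S'')
    (α : Om S'' n) : Om.res h n (Om.pull L h' n α) = Om.pull L (h'.mono_left h) n α := by
  induction α using Submodule.Quotient.induction_on with
  | H α => rfl

theorem Om.pull_res {S S' S'' : Set V} (L : V →L[ℝ] V) (h : MapsTo L S S') (h' : S' ⊆ S'')
    (α : Om S'' n) : Om.pull L h n (Om.res h' n α) = Om.pull L (h.mono_right h') n α := by
  induction α using Submodule.Quotient.induction_on with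
  | H α => rfl

theorem Om.res_res {S S' S'' : Set V} (h : S ⊆ S') (h' : S' ⊆ S'') (α : Om S'' n) :
    Om.res h n (Om.res h' n α) = Om.res (h.trans h') n α := by
  induction α using Submodule.Quotient.induction_on with
  | H α => rfl

theorem Om.res_self {S : Set V} (h : S ⊆ S) (α : Om S n) : Om.res h n α = α := by
  induction α using Submodule.Quotient.induction_on with
  | H α => rfl

theorem Om.d_res {S S' : Set V} (h : S ⊆ S') (α : Om S' n) :
    Om.d S n (Om.res h n α) = Om.res h (n + 1) (Om.d S' n α) := Om.d_pull _ _ _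

theorem Om.conj_res {S S' : Set V} (h : S ⊆ S') (α : Om S' n) :
    Om.conj S n (Om.res h n α) = Om.res h n (Om.conj S' n α) := Om.conj_pull _ _ _

theorem Ac.mem_of {Z U K : Set V} (hK : IsCompact K) (hKU : K ⊆ U) {α : Om Z n}
    (h : Om.res (sdiff_subset : Z \ K ⊆ Z) n α = 0) : α ∈ Ac Z U n :=
  (le_iSup₂_of_le (f := fun K (_ : K ∈ {K | IsCompact K ∧ K ⊆ U}) =>
    LinearMap.ker (Om.res (sdiff_subset : Z \ K ⊆ Z) n)) K ⟨hK, hKU⟩ le_rfl) h

theorem Ac.le_of {Z U : Set V} {P : Submodule ℂ (Om Z n)}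
    (h : ∀ K, IsCompact K → K ⊆ U → ∀ α, Om.res (sdiff_subset : Z \ K ⊆ Z) n α = 0 → α ∈ P) :
    Ac Z U n ≤ P :=
  iSup₂_le fun K hK α hα => h K hK.1 hK.2 α hα

/-- a form in `Ac` vanishes off one compact set -/
theorem Ac.exists {Z U : Set V} {α : Om Z n} (h : α ∈ Ac Z U n) :
    ∃ K, IsCompact K ∧ K ⊆ U ∧ Om.res (sdiff_subset : Z \ K ⊆ Z) n α = 0 := by
  let P : Submodule ℂ (Om Z n) :=
    { carrier := {α | ∃ K, IsCompact K ∧ K ⊆ U ∧ Om.res (sdiff_subset : Z \ K ⊆ Z) n α = 0}
      add_mem' := by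
        rintro a b ⟨K, hK, hKU, ha⟩ ⟨K', hK', hKU', hb⟩
        refine ⟨K ∪ K', hK.union hK', union_subset hKU hKU', ?_⟩
        have h1 : Z \ (K ∪ K') ⊆ Z \ K := sdiff_subset_sdiff_right subset_union_left
        have h2 : Z \ (K ∪ K') ⊆ Z \ K' := sdiff_subset_sdiff_right subset_union_right
        rw [map_add, ← Om.res_res h1 sdiff_subset a, ← Om.res_res h2 sdiff_subset b, ha, hb,
          map_zero, map_zero, add_zero]
      zero_mem' := ⟨∅, isCompact_empty, empty_subset _, map_zero _⟩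
      smul_mem' := by
        rintro c a ⟨K, hK, hKU, ha⟩
        exact ⟨K, hK, hKU, by rw [map_smul, ha, smul_zero]⟩ }
  exact Ac.le_of (P := P) (fun K hK hKU α hα => ⟨K, hK, hKU, hα⟩) h

theorem Om.mk_eq_zero {S : Set V} {a : SF V n} : Om.mk S a = 0 ↔ a ∈ Nul S n :=
  Submodule.Quotient.mk_eq_zero _

theorem Om.mk_eq_mk {S : Set V} {a b : SF V n} : Om.mk S a = Om.mk S b ↔ a - b ∈ Nul S n :=
  Submodule.Quotient.eq _

theorem Om.mk_surj {S : Set V} (α : Om S n) : ∃ a, Om.mk S a = α :=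
  Submodule.Quotient.mk_surjective _ α

theorem mem_Ac {Z U : Set V} {a : SF V n} :
    Om.mk Z a ∈ Ac Z U n ↔ ∃ K, IsCompact K ∧ K ⊆ U ∧ a ∈ Nul (Z \ K) n := by
  constructor
  · intro h
    obtain ⟨K, hK, hKU, h0⟩ := Ac.exists h
    exact ⟨K, hK, hKU, Om.mk_eq_zero.1 h0⟩
  · rintro ⟨K, hK, hKU, h0⟩
    exact Ac.mem_of hK hKU (Om.mk_eq_zero.2 h0)

theorem Ac.mono (Z : Set V) {U U' : Set V} (h : U ⊆ U') : Ac Z U n ≤ Ac Z U' n :=
  Ac.le_of fun _ hK hKU _ hα => Ac.mem_of hK (hKU.trans h) hα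

theorem Ac.d_mem {Z U : Set V} {α : Om Z n} (h : α ∈ Ac Z U n) :
    Om.d Z n α ∈ Ac Z U (n + 1) := by
  obtain ⟨K, hK, hKU, hα⟩ := Ac.exists h
  refine Ac.mem_of hK hKU ?_
  rw [← Om.d_res, hα, map_zero]

theorem Ac.conj_mem {Z U : Set V} {α : Om Z n} (h : α ∈ Ac Z U n) :
    Om.conj Z n α ∈ Ac Z U n := by
  obtain ⟨K, hK, hKU, hα⟩ := Ac.exists h
  refine Ac.mem_of hK hKU ?_
  rw [← Om.conj_res, hα, map_zero]

/-- pull-back under a linear involution -/
theorem Ac.pull_mem {Z U U' : Set V} (L : V →L[ℝ] V) (hL : ∀ x, L (L x) = x) (hZ : MapsTo L Z Z)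
    (hU : MapsTo L U U') {α : Om Z n} (h : α ∈ Ac Z U n) : Om.pull L hZ n α ∈ Ac Z U' n := by
  obtain ⟨K, hK, hKU, hα⟩ := Ac.exists h
  refine Ac.mem_of (hK.image L.continuous) (image_subset_iff.2 fun x hx => hU (hKU hx)) ?_
  have h1 : MapsTo L (Z \ L '' K) (Z \ K) := fun x hx =>
    ⟨hZ hx.1, fun h' => hx.2 ⟨L x, h', hL x⟩⟩
  rw [Om.res_pull, ← Om.pull_res L h1 sdiff_subset, hα, map_zero]

/-- a form with support in `U` vanishes on subsets of `Z` that do not meet `U` -/
theorem Ac.res_eq_zero {Z U S : Set V} {α : Om Z n} (h : α ∈ Ac Z U n) (hS : S ⊆ Z)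
    (hd : ∀ x ∈ S, x ∉ U) : Om.res hS n α = 0 := by
  obtain ⟨K, _, hKU, hα⟩ := Ac.exists h
  have h1 : S ⊆ Z \ K := fun x hx => ⟨hS hx, fun h' => hd x hx (hKU h')⟩
  rw [← Om.res_res h1 sdiff_subset, hα, map_zero]

variable {Z : Set V} {D : ι → Set V}

omit [NormedAddCommGroup V] [NormedSpace ℝ V] in
variable (Z D) in
theorem strat_subset {p : ℕ} (I : Fin p → ι) : strat Z D I ⊆ Z := inter_subset_left

theorem mem_cls_span {A : Set (Tot Z D)} {α : Om Z n} :
    α ∈ cls Z D A n ↔ inc Z D n α ∈ Submodule.span ℂ (A ∪ range (Dt Z D)) := Iff.rfl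

theorem inc_same (α : Om Z n) (I : Fin 0 → ι) :
    inc Z D n α 0 n I = Om.res (strat_subset Z D I) n α := by
  simp only [inc, LinearMap.comp_apply, LinearMap.single_apply, Pi.single_eq_same]
  rfl

theorem inc_succ (α : Om Z n) (p m : ℕ) (I : Fin (p + 1) → ι) : inc Z D n α (p + 1) m I = 0 := by
  simp [inc]

theorem inc_ne (α : Om Z n) (p : ℕ) {m : ℕ} (hm : m ≠ n) (I : Fin p → ι) :
    inc Z D n α p m I = 0 := by
  cases p with
  | zero => simp [inc, Pi.single_eq_of_ne hm]
  | succ p => exact inc_succ α p m I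

theorem eq_inc {y : Tot Z D} {α : Om Z n} 
    (h0 : ∀ I, y 0 n I = Om.res (strat_subset Z D I) n α)
    (h1 : ∀ p m I, y (p + 1) m I = 0) (h2 : ∀ m, m ≠ n → ∀ I, y 0 m I = 0) : y = inc Z D n α := by
  funext p m I
  cases p with
  | zero =>
    by_cases hm : m = n
    · subst hm
      rw [h0, inc_same]
    · rw [h2 m hm, inc_ne α 0 hm]
  | succ p => rw [h1, inc_succ]

theorem Dt_00 (c : Tot Z D) (I : Fin 0 → ι) : Dt Z D c 0 0 I = 0 := add_zero _

theorem Dt_0s (c : Tot Z D) (m : ℕ) (I : Fin 0 → ι) :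
    Dt Z D c 0 (m + 1) I = Om.d _ m (c 0 m I) := add_zero _

theorem Dt_s0 (c : Tot Z D) (p : ℕ) (I : Fin (p + 1) → ι) :
    Dt Z D c (p + 1) 0 I = ∑ j : Fin (p + 1), (-1 : ℂ) ^ (0 + (j : ℕ)) •
      Om.res (strat_sub Z D I j) 0 (c p 0 (j.removeNth I)) := zero_add _

theorem Dt_ss (c : Tot Z D) (p m : ℕ) (I : Fin (p + 1) → ι) :
    Dt Z D c (p + 1) (m + 1) I = Om.d _ m (c (p + 1) m I) +
      ∑ j : Fin (p + 1), (-1 : ℂ) ^ (m + 1 + (j : ℕ)) •
        Om.res (strat_sub Z D I j) (m + 1) (c p (m + 1) (j.removeNth I)) := rfl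

theorem Dt_zero : Dt Z D 0 = 0 := by
  funext p m I
  cases p <;> cases m <;> simp [Dt_00, Dt_0s, Dt_s0, Dt_ss]

theorem Dt_add (x y : Tot Z D) : Dt Z D (x + y) = Dt Z D x + Dt Z D y := by
  funext p m I
  cases p <;> cases m <;>
    simp only [Dt_00, Dt_0s, Dt_s0, Dt_ss, Pi.add_apply, map_add, smul_add, add_zero,
      Finset.sum_add_distrib]
  abel

theorem Dt_smul (c : ℂ) (x : Tot Z D) : Dt Z D (c • x) = c • Dt Z D x := by
  funext p m I
  cases p <;> cases m <;>
    simp only [Dt_00, Dt_0s, Dt_s0, Dt_ss, Pi.smul_apply, map_smul, smul_add, smul_zero,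
      Finset.smul_sum, smul_comm c]

variable (Z D) in
/-- the total differential as a linear map -/
def DtL : Tot Z D →ₗ[ℂ] Tot Z D where
  toFun := Dt Z D
  map_add' := Dt_add
  map_smul' := Dt_smul

theorem cls_mono {A A' : Set (Tot Z D)} (h : A ⊆ A') : cls Z D A n ≤ cls Z D A' n :=
  Submodule.comap_mono (Submodule.span_mono (union_subset_union_left _ h))

/-- transport of `cls` along a semilinear map of the total complex -/
theorem cls_map {σ : ℂ →+* ℂ} (T : Tot Z D →ₛₗ[σ] Tot Z D) {A A' : Set (Tot Z D)}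
    (hA : ∀ y ∈ A, T y ∈ Submodule.span ℂ (A' ∪ range (Dt Z D)))
    (hD : ∀ x, ∃ x', T (Dt Z D x) = Dt Z D x') {α α' : Om Z n}
    (hα : T (inc Z D n α) = inc Z D n α') (h : α ∈ cls Z D A n) : α' ∈ cls Z D A' n := by
  rw [mem_cls_span] at h ⊢
  rw [← hα]
  have : Submodule.span ℂ (A ∪ range (Dt Z D)) ≤
      (Submodule.span ℂ (A' ∪ range (Dt Z D))).comap T := by
    rw [Submodule.span_le]
    rintro y (hy | ⟨x, rfl⟩)
    · exact hA y hy
    · obtain ⟨x', hx'⟩ := hD x
      exact Submodule.subset_span (Or.inr ⟨x', hx'.symm⟩)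
  exact this h

theorem col_zero : col Z D 0 n = ⊤ := by
  rw [eq_top_iff]
  intro α _
  exact mem_cls_span.2 (Submodule.subset_span (Or.inl fun p hp => absurd hp (Nat.not_lt_zero p)))

theorem col_anti {c c' : ℕ} (h : c ≤ c') : col Z D c' n ≤ col Z D c n :=
  cls_mono fun _ hy p hp => hy p (hp.trans_le h)

variable (Z D) in
/-- the part of total degree `n - k` -/
def degP (n k : ℕ) : Tot Z D →ₗ[ℂ] Tot Z D where
  toFun y := fun p m I => if p + m + k = n then y p m I else 0
  map_add' x y := by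
    funext p m I
    by_cases h : p + m + k = n <;> simp [h]
  map_smul' c x := by
    funext p m I
    by_cases h : p + m + k = n <;> simp [h]

theorem degP_apply (k : ℕ) (y : Tot Z D) (p m : ℕ) (I : Fin p → ι) :
    degP Z D n k y p m I = if p + m + k = n then y p m I else 0 := rfl

theorem degP_Dt (k : ℕ) (x : Tot Z D) :
    degP Z D n k (Dt Z D x) = Dt Z D (degP Z D n (k + 1) x) := by
  funext p m I
  rw [degP_apply]
  rcases p with _ | p <;> rcases m with _ | m
  · simp [Dt_00]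
  · have e : (0 + m + (k + 1) = n) = (0 + (m + 1) + k = n) := by
      congr 1; omega
    simp only [Dt_0s, degP_apply, e]
    split_ifs <;> simp
  · have e : (p + 0 + (k + 1) = n) = (p + 1 + 0 + k = n) := by
      congr 1; omega
    simp only [Dt_s0, degP_apply, e]
    split_ifs <;> simp
  · have e : (p + 1 + m + (k + 1) = n) = (p + 1 + (m + 1) + k = n) := by
      congr 1; omega
    have e' : (p + (m + 1) + (k + 1) = n) = (p + 1 + (m + 1) + k = n) := by
      congr 1; omega
    simp only [Dt_ss, degP_apply, e, e']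
    split_ifs <;> simp

theorem degP_inc (α : Om Z n) : degP Z D n 0 (inc Z D n α) = inc Z D n α := by
  refine eq_inc (fun I => ?_) (fun p m I => ?_) (fun m hm I => ?_)
  · rw [degP_apply, if_pos (by omega), inc_same]
  · rw [degP_apply, inc_succ, ite_self]
  · rw [degP_apply, inc_ne α 0 hm, ite_self]

theorem col_big {c : ℕ} (h : n < c) : col Z D c n ≤ col Z D (c + 1) n := by
  intro α hα
  refine cls_map (degP Z D n 0) (fun y hy => ?_) (fun x => ⟨_, degP_Dt 0 x⟩) (degP_inc α) hα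
  have : degP Z D n 0 y = 0 := by
    funext p m I
    rw [degP_apply]
    split_ifs with hp
    · rw [hy p (by omega)]
      rfl
    · rfl
  rw [this]
  exact Submodule.zero_mem _

variable (Z D) in
/-- conjugation on the total complex -/
def totConj : Tot Z D →ₗ⋆[ℂ] Tot Z D where
  toFun y := fun p m I => Om.conj _ m (y p m I)
  map_add' x y := by
    funext p m I
    exact map_add _ _ _
  map_smul' c x := by
    funext p m I
    exact map_smulₛₗ (Om.conj (strat Z D I) m) c (x p m I)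

theorem totConj_apply (y : Tot Z D) (p m : ℕ) (I : Fin p → ι) :
    totConj Z D y p m I = Om.conj _ m (y p m I) := rfl

theorem totConj_Dt (x : Tot Z D) : totConj Z D (Dt Z D x) = Dt Z D (totConj Z D x) := by
  funext p m I
  rcases p with _ | p <;> rcases m with _ | m <;>
    simp only [totConj_apply, Dt_00, Dt_0s, Dt_s0, Dt_ss, map_zero, map_add, map_sum, map_smulₛₗ,
      Om.d_conj, Om.conj_res, map_pow, map_neg, map_one]

theorem totConj_inc (α : Om Z n) :
    totConj Z D (inc Z D n α) = inc Z D n (Om.conj Z n α) := by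
  refine eq_inc (fun I => ?_) (fun p m I => ?_) (fun m hm I => ?_)
  · rw [totConj_apply, inc_same, Om.conj_res]
  · rw [totConj_apply, inc_succ, map_zero]
  · rw [totConj_apply, inc_ne α 0 hm, map_zero]

theorem col_conj {c : ℕ} {α : Om Z n} (h : α ∈ col Z D c n) : Om.conj Z n α ∈ col Z D c n := by
  refine cls_map (totConj Z D) (fun y hy => Submodule.subset_span (Or.inl fun p hp => ?_))
    (fun x => ⟨_, totConj_Dt x⟩) (totConj_inc α) h
  funext m I
  rw [totConj_apply, hy p hp]
  exact map_zero _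

theorem strat_maps (L : V →L[ℝ] V) (hZ : MapsTo L Z Z) {τ : ι → ι}
    (hτ : ∀ i, MapsTo L (D i) (D (τ i))) {p : ℕ} (I : Fin p → ι) :
    MapsTo L (strat Z D I) (strat Z D fun j => τ (I j)) := fun _ hx =>
  ⟨hZ hx.1, mem_iInter.2 fun j => hτ _ (mem_iInter.1 hx.2 j)⟩

/-- pull-back on the total complex -/
def totPull (L : V →L[ℝ] V) (hZ : MapsTo L Z Z) {τ : ι → ι}
    (hτ : ∀ i, MapsTo L (D i) (D (τ i))) : Tot Z D →ₗ[ℂ] Tot Z D where
  toFun y := fun p m I => Om.pull L (strat_maps L hZ hτ I) m (y p m fun j => τ (I j))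
  map_add' x y := by
    funext p m I
    exact map_add _ _ _
  map_smul' c x := by
    funext p m I
    exact map_smul (Om.pull L (strat_maps L hZ hτ I) m) c _

theorem totPull_apply (L : V →L[ℝ] V) (hZ : MapsTo L Z Z) {τ : ι → ι}
    (hτ : ∀ i, MapsTo L (D i) (D (τ i))) (y : Tot Z D) (p m : ℕ) (I : Fin p → ι) :
    totPull L hZ hτ y p m I = Om.pull L (strat_maps L hZ hτ I) m (y p m fun j => τ (I j)) := rfl

theorem totPull_Dt (L : V →L[ℝ] V) (hZ : MapsTo L Z Z) {τ : ι → ι}
    (hτ : ∀ i, MapsTo L (D i) (D (τ i))) (x : Tot Z D) :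
    totPull L hZ hτ (Dt Z D x) = Dt Z D (totPull L hZ hτ x) := by
  funext p m I
  rcases p with _ | p <;> rcases m with _ | m <;>
    simp only [totPull_apply, Dt_00, Dt_0s, Dt_s0, Dt_ss, map_zero, map_add, map_sum, map_smul,
      Om.d_pull, Om.pull_res, Om.res_pull] <;> rfl

theorem totPull_inc (L : V →L[ℝ] V) (hZ : MapsTo L Z Z) {τ : ι → ι}
    (hτ : ∀ i, MapsTo L (D i) (D (τ i))) (α : Om Z n) :
    totPull L hZ hτ (inc Z D n α) = inc Z D n (Om.pull L hZ n α) := by
  refine eq_inc (fun I => ?_) (fun p m I => ?_) (fun m hm I => ?_)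
  · rw [totPull_apply, inc_same, Om.pull_res, Om.res_pull]
  · rw [totPull_apply, inc_succ, map_zero]
  · rw [totPull_apply, inc_ne α 0 hm, map_zero]

theorem col_pull (L : V →L[ℝ] V) (hZ : MapsTo L Z Z) (hD : ∀ i, ∃ j, MapsTo L (D i) (D j)) {c : ℕ}
    {α : Om Z n} (h : α ∈ col Z D c n) : Om.pull L hZ n α ∈ col Z D c n := by
  choose τ hτ using hD
  refine cls_map (totPull L hZ hτ) (fun y hy => Submodule.subset_span (Or.inl fun p hp => ?_))
    (fun x => ⟨_, totPull_Dt L hZ hτ x⟩) (totPull_inc L hZ hτ α) h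
  funext m I
  rw [totPull_apply, hy p hp]
  exact map_zero _

/-- on forms that vanish on the divisor, `inc` commutes with the differentials -/
theorem Dt_inc {α : Om Z n} (h : α ∈ Ac Z (Z \ ⋃ i, D i) n) :
    Dt Z D (inc Z D n α) = inc Z D (n + 1) (Om.d Z n α) := by
  have h1 : ∀ (p m : ℕ) (I : Fin (p + 1) → ι) (j : Fin (p + 1)),
      Om.res (strat_sub Z D I j) m (inc Z D n α p m (j.removeNth I)) = 0 := by
    intro p m I j
    rcases p with _ | p
    · by_cases hm : m = n
      · subst hm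
        rw [inc_same, Om.res_res]
        exact Ac.res_eq_zero h _ fun x hx hx' =>
          hx'.2 (mem_iUnion.2 ⟨I 0, mem_iInter.1 hx.2 0⟩)
      · rw [inc_ne α 0 hm, map_zero]
    · rw [inc_succ, map_zero]
  refine eq_inc (fun I => ?_) (fun p m I => ?_) (fun m hm I => ?_)
  · rw [Dt_0s, inc_same, Om.d_res]
  · rcases m with _ | m
    · simp only [Dt_s0, h1, smul_zero, Finset.sum_const_zero]
    · simp only [Dt_ss, h1, smul_zero, Finset.sum_const_zero, inc_succ, map_zero, add_zero]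
  · rcases m with _ | m
    · exact Dt_00 _ _
    · rw [Dt_0s, inc_ne α 0 (fun e => hm (by rw [e])), map_zero]

theorem cls_exact (hD : ∀ i, D i ⊆ Z) (A : Set (Tot Z D)) {α : Om Z n}
    (h : α ∈ Ac Z (Z \ ⋃ i, D i) n) : Om.d Z n α ∈ cls Z D A (n + 1) :=
  mem_cls_span.2 (Submodule.subset_span (Or.inr ⟨_, Dt_inc h⟩))

theorem Om.res_congr {S : Set V} {p : ℕ} (c : (J : Fin p → ι) → Om (strat Z D J) n)
    {J J' : Fin p → ι} (e : J = J') (h : S ⊆ strat Z D J) (h' : S ⊆ strat Z D J') :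
    Om.res h n (c J) = Om.res h' n (c J') := by
  subst e
  rfl

theorem sum_sum_sign {M : Type} [AddCommGroup M] [Module ℂ M] {p : ℕ}
    (f : Fin (p + 2) → Fin (p + 1) → M) (h : ∀ j k, f (j.succAbove k) (k.predAbove j) = f j k) :
    ∑ j : Fin (p + 2), ∑ k : Fin (p + 1), (-1 : ℂ) ^ ((j : ℕ) + k) • f j k = 0 := by
  rw [← Finset.sum_product']
  refine Finset.sum_ninvolution (fun a => (a.1.succAbove a.2, a.2.predAbove a.1)) (fun a => ?_)
    (fun a _ e => a.1.succAbove_ne a.2 (congrArg Prod.fst e)) (fun a => by simp) (fun a => ?_)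
  · simp only [h, Fin.neg_one_pow_succAbove_add_predAbove, neg_smul, add_neg_cancel]
  · simp only [Fin.succAbove_succAbove_predAbove, Fin.predAbove_predAbove_succAbove]

/-- the simplicial differential squares to zero -/
theorem row_row {p : ℕ} (c : (J : Fin p → ι) → Om (strat Z D J) n) (I : Fin (p + 2) → ι) :
    ∑ j : Fin (p + 2), (-1 : ℂ) ^ (j : ℕ) • Om.res (strat_sub Z D I j) n
      (∑ k : Fin (p + 1), (-1 : ℂ) ^ (k : ℕ) • Om.res (strat_sub Z D (j.removeNth I) k) n
        (c (k.removeNth (j.removeNth I)))) = 0 := by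
  have := sum_sum_sign (fun (j : Fin (p + 2)) (k : Fin (p + 1)) =>
    Om.res ((strat_sub Z D I j).trans (strat_sub Z D (j.removeNth I) k)) n
      (c (k.removeNth (j.removeNth I))))
    fun j k => Om.res_congr c (Fin.removeNth_removeNth_eq_swap I k j).symm _ _
  simpa only [map_sum, map_smul, Om.res_res, Finset.smul_sum, smul_smul, ← pow_add] using this

variable (Z D) in
/-- the vertical differential -/
def totD : Module.End ℂ (Tot Z D) where
  toFun c := fun p n I => match n with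
    | 0 => 0
    | n + 1 => Om.d _ n (c p n I)
  map_add' x y := by
    funext p m I
    cases m
    · exact (add_zero _).symm
    · exact map_add _ _ _
  map_smul' c x := by
    funext p m I
    rcases m with _ | m
    · exact (smul_zero c).symm
    · exact map_smul (Om.d (strat Z D I) m) c _

theorem totD_zero (c : Tot Z D) (p : ℕ) (I : Fin p → ι) : totD Z D c p 0 I = 0 := rfl

theorem totD_succ (c : Tot Z D) (p m : ℕ) (I : Fin p → ι) :
    totD Z D c p (m + 1) I = Om.d _ m (c p m I) := rfl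

variable (Z D) in
/-- the horizontal differential -/
def totδ : Module.End ℂ (Tot Z D) where
  toFun c := fun p n I => match p, I with
    | 0, _ => 0
    | p + 1, I => ∑ j : Fin (p + 1), (-1 : ℂ) ^ (n + j) •
        Om.res (strat_sub Z D I j) n (c p n (j.removeNth I))
  map_add' x y := by
    funext p m I
    cases p
    · exact (add_zero _).symm
    · simp only [Pi.add_apply, map_add, smul_add, Finset.sum_add_distrib]
  map_smul' c x := by
    funext p m I
    cases p
    · exact (smul_zero c).symm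
    · simp only [Pi.smul_apply, map_smul, Finset.smul_sum, smul_comm c, RingHom.id_apply]

theorem totδ_zero (c : Tot Z D) (m : ℕ) (I : Fin 0 → ι) : totδ Z D c 0 m I = 0 := rfl

theorem totδ_succ (c : Tot Z D) (p m : ℕ) (I : Fin (p + 1) → ι) :
    totδ Z D c (p + 1) m I = ∑ j : Fin (p + 1), (-1 : ℂ) ^ (m + (j : ℕ)) •
      Om.res (strat_sub Z D I j) m (c p m (j.removeNth I)) := rfl

theorem totδ_succ' (c : Tot Z D) (p m : ℕ) (I : Fin (p + 1) → ι) :
    totδ Z D c (p + 1) m I = (-1 : ℂ) ^ m • ∑ j : Fin (p + 1), (-1 : ℂ) ^ (j : ℕ) •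
      Om.res (strat_sub Z D I j) m (c p m (j.removeNth I)) := by
  simp only [totδ_succ, Finset.smul_sum, smul_smul, pow_add]

variable (Z D) in
/-- the projection to column `p` and row `n` -/
def totE (p n : ℕ) : Module.End ℂ (Tot Z D) where
  toFun y := Pi.single p (Pi.single n (y p n))
  map_add' x y := by simp only [Pi.add_apply, Pi.single_add]
  map_smul' c x := by simp only [Pi.smul_apply, Pi.single_smul, RingHom.id_apply]

theorem totE_eq (p n : ℕ) (y : Tot Z D) : totE Z D p n y = Pi.single p (Pi.single n (y p n)) := rfl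

theorem totE_same (p n : ℕ) (y : Tot Z D) : totE Z D p n y p n = y p n := by
  simp only [totE_eq, Pi.single_eq_same]

theorem totE_ne {p n p' n' : ℕ} (h : ¬(p' = p ∧ n' = n)) (y : Tot Z D) :
    totE Z D p n y p' n' = 0 := by
  by_cases hp : p' = p
  · subst hp
    rw [totE_eq, Pi.single_eq_same, Pi.single_eq_of_ne fun e => h ⟨rfl, e⟩]
  · rw [totE_eq, Pi.single_eq_of_ne hp]
    rfl

theorem totE_apply (p n : ℕ) (y : Tot Z D) (p' n' : ℕ) (I : Fin p' → ι) :
    totE Z D p n y p' n' I = if p' = p ∧ n' = n then y p' n' I else 0 := by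
  split_ifs with h
  · obtain ⟨rfl, rfl⟩ := h
    rw [totE_same]
  · rw [totE_ne h]
    rfl

theorem totE_eq_zero {p n : ℕ} {y : Tot Z D} : totE Z D p n y = 0 ↔ y p n = 0 := by
  constructor
  · intro h
    rw [← totE_same p n y, h]
    rfl
  · intro h
    rw [totE_eq, h, Pi.single_zero, Pi.single_zero]

variable (Z D) in
/-- the total complex as an abstract double complex -/
def totBG : BG (Tot Z D) where
  d := totD Z D
  δ := totδ Z D
  e := totE Z D
  ee p n x := by rw [totE_eq p n (totE Z D p n x), totE_same, totE_eq]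
  ee' p n p' n' x h := totE_eq_zero.2 (totE_ne h x)
  ext x h := funext fun p => funext fun n => totE_eq_zero.1 (h p n)
  ed p n x := by
    funext p' m I
    rcases m with _ | m
    · simp only [totE_apply, totD_zero, ite_self]
    · simp only [totE_apply, totD_succ, Nat.add_right_cancel_iff]
      split_ifs
      · rfl
      · exact (map_zero _).symm
  ed0 p x := totE_eq_zero.2 rfl
  eδ p n x := by
    funext p' m I
    rcases p' with _ | p'
    · simp only [totE_apply, totδ_zero, ite_self]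
    · simp only [totE_apply, totδ_succ, Nat.add_right_cancel_iff]
      split_ifs
      · rfl
      · simp only [map_zero, smul_zero, Finset.sum_const_zero]
  eδ0 n x := totE_eq_zero.2 rfl
  dd x := by
    funext p m I
    rcases m with _ | _ | m
    · rfl
    · exact map_zero (Om.d (strat Z D I) 0)
    · exact Om.d_d _ _
  δδ x := by
    funext p m I
    rcases p with _ | _ | p
    · rfl
    · simp only [totδ_succ, totδ_zero, map_zero, smul_zero, Finset.sum_const_zero]
      rfl
    · simp only [totδ_succ', map_smul, smul_comm _ ((-1 : ℂ) ^ m), ← Finset.smul_sum, row_row,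
        smul_zero]
      rfl
  dδ x := by
    funext p m I
    rcases p with _ | p <;> rcases m with _ | m <;>
      simp only [Pi.neg_apply, totD_zero, totD_succ, totδ_zero, totδ_succ', map_zero, neg_zero,
        smul_zero, Finset.sum_const_zero, map_smul, map_sum, Om.d_res, pow_succ, mul_neg, mul_one,
        neg_smul, neg_neg]

theorem totBG_d : (totBG Z D).d = totD Z D := rfl

theorem totBG_δ : (totBG Z D).δ = totδ Z D := rfl

theorem totBG_e : (totBG Z D).e = totE Z D := rfl

theorem totBG_D (y : Tot Z D) : (totBG Z D).D y = Dt Z D y := rfl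

theorem mem_totH {p : ℕ} {y : Tot Z D} :
    y ∈ (totBG Z D).H p n ↔ ∀ p' n', ¬(p' = p ∧ n' = n) → y p' n' = 0 := by
  rw [BG.mem_H, totBG_e]
  constructor
  · intro h p' n' h'
    rw [← h, totE_ne h']
  · intro h
    funext p' n'
    by_cases h' : p' = p ∧ n' = n
    · obtain ⟨rfl, rfl⟩ := h'
      exact totE_same _ _ _
    · rw [totE_ne h', h p' n' h']

theorem mem_totCol {c : ℕ} {y : Tot Z D} : y ∈ (totBG Z D).Col c ↔ ∀ p < c, y p = 0 := by
  simp only [BG.mem_Col, totBG_e, totE_eq_zero]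
  exact forall₂_congr fun p _ => ⟨fun h => funext h, fun h m => congrFun h m⟩

theorem mem_totDeg {N : ℕ} {y : Tot Z D} :
    y ∈ (totBG Z D).Deg N ↔ ∀ p n, p + n ≠ N → y p n = 0 := by
  simp only [BG.mem_Deg, totBG_e, totE_eq_zero]

theorem mem_cls {A : Submodule ℂ (Tot Z D)} {α : Om Z n} :
    α ∈ cls Z D A n ↔ ∃ z, inc Z D n α - Dt Z D z ∈ A := by
  have e : range (Dt Z D) = (LinearMap.range (DtL Z D) : Submodule ℂ (Tot Z D)) := rfl
  rw [mem_cls_span, Submodule.span_union, e, Submodule.span_eq, Submodule.span_eq,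
    Submodule.mem_sup]
  constructor
  · rintro ⟨y, hy, _, ⟨z, rfl⟩, h⟩
    exact ⟨z, by rw [← h]; exact (add_sub_cancel_right y _).symm ▸ hy⟩
  · rintro ⟨z, hz⟩
    exact ⟨_, hz, _, ⟨z, rfl⟩, sub_add_cancel _ _⟩

theorem mem_cls_of_eq {A : Set (Tot Z D)} {A' : Submodule ℂ (Tot Z D)} (h : ∀ y, y ∈ A ↔ y ∈ A')
    {α : Om Z n} : α ∈ cls Z D A n ↔ ∃ z, inc Z D n α - Dt Z D z ∈ A' := by
  have e : A = A' := Set.ext h
  rw [e, mem_cls]

theorem mem_col {c : ℕ} {α : Om Z n} :
    α ∈ col Z D c n ↔ ∃ z, inc Z D n α - Dt Z D z ∈ (totBG Z D).Col c :=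
  mem_cls_of_eq fun _ => mem_totCol.symm

theorem inc_mem_H (α : Om Z n) : inc Z D n α ∈ (totBG Z D).H 0 n := by
  refine mem_totH.2 fun p m h => funext fun I => ?_
  rcases p with _ | p
  · exact inc_ne α 0 (fun e => h ⟨rfl, e⟩) I
  · exact inc_succ α p m I

theorem inc_mem_Deg (α : Om Z n) : inc Z D n α ∈ (totBG Z D).Deg n :=
  mem_totDeg.2 fun p m h => mem_totH.1 (inc_mem_H α) p m fun e => h (by omega)

omit [NormedAddCommGroup V] [NormedSpace ℝ V] in
variable (Z D) in
theorem subset_strat_zero (I : Fin 0 → ι) : Z ⊆ strat Z D I := fun _ hx =>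
  ⟨hx, mem_iInter.2 fun j => j.elim0⟩

theorem exists_inc_of_mem_H {y : Tot Z D} (h : y ∈ (totBG Z D).H 0 n) : ∃ α, y = inc Z D n α := by
  rw [mem_totH] at h
  refine ⟨Om.res (subset_strat_zero Z D Fin.elim0) n (y 0 n Fin.elim0), eq_inc (fun I => ?_)
    (fun p m I => ?_) fun m hm I => ?_⟩
  · rw [Om.res_res, Om.res_congr (y 0 n) (Subsingleton.elim Fin.elim0 I) _ subset_rfl, Om.res_self]
  · rw [h (p + 1) m (by omega)]
    rfl
  · rw [h 0 m fun e => hm e.2]
    rfl

theorem res_inc (α : Om Z n) (I : Fin 0 → ι) :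
    Om.res (subset_strat_zero Z D I) n (inc Z D n α 0 n I) = α := by
  rw [inc_same, Om.res_res, Om.res_self]

theorem inc_injective : Function.Injective (inc Z D n) := fun α β h => by
  rw [← res_inc (D := D) α Fin.elim0, h, res_inc]

theorem totD_inc (α : Om Z n) : totD Z D (inc Z D n α) = inc Z D (n + 1) (Om.d Z n α) := by
  refine eq_inc (fun I => ?_) (fun p m I => ?_) (fun m hm I => ?_)
  · rw [totD_succ, inc_same, Om.d_res]
  · rcases m with _ | m
    · rfl
    · rw [totD_succ, inc_succ, map_zero]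
  · rcases m with _ | m
    · rfl
    · rw [totD_succ, inc_ne α 0 (fun e => hm (by rw [e])), map_zero]

theorem totδ_inc_one (α : Om Z n) (I : Fin 1 → ι) :
    totδ Z D (inc Z D n α) 1 n I = (-1 : ℂ) ^ n • Om.res (strat_subset Z D I) n α := by
  rw [totδ_succ', Fin.sum_univ_one, inc_same, Om.res_res]
  simp

theorem totδ_inc_eq_zero (hD : ∀ i, D i ⊆ Z) {α : Om Z n} :
    totδ Z D (inc Z D n α) = 0 ↔ ∀ i, Om.res (hD i) n α = 0 := by
  constructor
  · intro h i
    have h1 := totδ_inc_one (D := D) α fun _ => i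
    rw [h] at h1
    have h2 : Om.res (strat_subset Z D fun _ : Fin 1 => i) n α = 0 :=
      (smul_eq_zero.1 h1.symm).resolve_left (pow_ne_zero _ (by simp))
    have h3 : D i ⊆ strat Z D fun _ : Fin 1 => i := fun x hx => ⟨hD i hx, mem_iInter.2 fun _ => hx⟩
    rw [← Om.res_res h3 (strat_subset Z D _), h2, map_zero]
  · intro h
    funext p m I
    rcases p with _ | _ | p
    · rfl
    · by_cases hm : m = n
      · subst hm
        have h3 : strat Z D I ⊆ D (I 0) := fun x hx => mem_iInter.1 hx.2 0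
        rw [totδ_inc_one, ← Om.res_res h3 (hD _), h, map_zero, smul_zero]
        rfl
      · simp only [totδ_succ, inc_ne α _ hm, map_zero, smul_zero, Finset.sum_const_zero]
        rfl
    · simp only [totδ_succ, inc_succ, map_zero, smul_zero, Finset.sum_const_zero]
      rfl

theorem Dt_inc_eq_zero (hD : ∀ i, D i ⊆ Z) {α : Om Z n} :
    Dt Z D (inc Z D n α) = 0 ↔ Om.d Z n α = 0 ∧ ∀ i, Om.res (hD i) n α = 0 := by
  have e : Dt Z D (inc Z D n α) =
      inc Z D (n + 1) (Om.d Z n α) + totδ Z D (inc Z D n α) := by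
    rw [← totD_inc]
    rfl
  rw [← totδ_inc_eq_zero hD, e]
  constructor
  · intro h
    have h1 : Om.d Z n α = 0 := by
      have h2 := congrFun (congrFun (congrFun h 0) (n + 1)) Fin.elim0
      rw [Pi.add_apply, Pi.add_apply, Pi.add_apply, totδ_zero, add_zero] at h2
      rw [← res_inc (D := D) (Om.d Z n α) Fin.elim0, h2]
      exact map_zero _
    rw [h1, map_zero, zero_add] at h
    exact ⟨h1, h⟩
  · rintro ⟨h1, h2⟩
    rw [h1, h2, map_zero, add_zero]

/-- the total differential of a form that vanishes on the divisor -/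
theorem Dt_inc_of_res (hD : ∀ i, D i ⊆ Z) {α : Om Z n} (h : ∀ i, Om.res (hD i) n α = 0) :
    Dt Z D (inc Z D n α) = inc Z D (n + 1) (Om.d Z n α) := by
  rw [← totD_inc, ← totBG_D, BG.D_apply, totBG_δ, (totδ_inc_eq_zero hD).2 h, add_zero, totBG_d]

theorem mem_Cc {α : Om Z n} : α ∈ Cc Z D n ↔ α ∈ Ac Z (Z \ ⋃ i, D i) n ∧ Om.d Z n α = 0 := Iff.rfl

theorem Ac.res_D (hD : ∀ i, D i ⊆ Z) {α : Om Z n} (h : α ∈ Ac Z (Z \ ⋃ i, D i) n) (i : ι) :
    Om.res (hD i) n α = 0 :=
  Ac.res_eq_zero h _ fun _ hx hx' => hx'.2 (mem_iUnion.2 ⟨i, hx⟩)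

theorem Cc.d_eq_zero {α : Om Z n} (h : α ∈ Cc Z D n) : Om.d Z n α = 0 := h.2

theorem Cc.res_D (hD : ∀ i, D i ⊆ Z) {α : Om Z n} (h : α ∈ Cc Z D n) (i : ι) :
    Om.res (hD i) n α = 0 := Ac.res_D hD h.1 i

theorem Cc.Dt_inc {α : Om Z n} (h : α ∈ Cc Z D n) : Dt Z D (inc Z D n α) = 0 := by
  rw [HT.Dt_inc h.1, Cc.d_eq_zero h, map_zero]

theorem Cc.conj_mem {α : Om Z n} (h : α ∈ Cc Z D n) : Om.conj Z n α ∈ Cc Z D n :=
  mem_Cc.2 ⟨Ac.conj_mem h.1, by rw [Om.d_conj, Cc.d_eq_zero h, map_zero]⟩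

theorem totConj_conj (y : Tot Z D) : totConj Z D (totConj Z D y) = y := by
  funext p m I
  exact Om.conj_conj _ _

theorem totConj_e (p : ℕ) (y : Tot Z D) :
    totConj Z D (totE Z D p n y) = totE Z D p n (totConj Z D y) := by
  funext p' m I
  simp only [totConj_apply, totE_apply]
  split_ifs
  · rfl
  · exact map_zero _

theorem totConj_d (y : Tot Z D) : totConj Z D (totD Z D y) = totD Z D (totConj Z D y) := by
  funext p m I
  rcases m with _ | m <;> simp only [totConj_apply, totD_zero, totD_succ, map_zero, Om.d_conj]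

theorem totConj_δ (y : Tot Z D) : totConj Z D (totδ Z D y) = totδ Z D (totConj Z D y) := by
  funext p m I
  rcases p with _ | p <;>
    simp only [totConj_apply, totδ_zero, totδ_succ, map_zero, map_sum, map_smulₛₗ, Om.conj_res,
      map_pow, map_neg, map_one]

theorem totConj_mem_Col {c : ℕ} {y : Tot Z D} (h : y ∈ (totBG Z D).Col c) :
    totConj Z D y ∈ (totBG Z D).Col c := by
  rw [mem_totCol] at h ⊢
  intro p hp
  funext m I
  rw [totConj_apply, h p hp]
  exact map_zero _

theorem totConj_mem_Deg {N : ℕ} {y : Tot Z D} (h : y ∈ (totBG Z D).Deg N) :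
    totConj Z D y ∈ (totBG Z D).Deg N := by
  rw [mem_totDeg] at h ⊢
  intro p m hp
  funext I
  rw [totConj_apply, h p m hp]
  exact map_zero _

/-- exactness of the rows, in the form used for abstract double complexes -/
theorem totBG_row (row : ∀ (p n : ℕ) (c : (I : Fin (p + 1) → ι) → Om (strat Z D I) n),
      (∀ I : Fin (p + 2) → ι, ∑ j : Fin (p + 2), (-1 : ℂ) ^ (j : ℕ) •
        Om.res (strat_sub Z D I j) n (c (j.removeNth I)) = 0) →
      ∃ b : (I : Fin p → ι) → Om (strat Z D I) n, ∀ I : Fin (p + 1) → ι,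
        c I = ∑ j : Fin (p + 1), (-1 : ℂ) ^ (j : ℕ) •
          Om.res (strat_sub Z D I j) n (b (j.removeNth I)))
    (p n : ℕ) (x : Tot Z D) (h : (totBG Z D).δ ((totBG Z D).e (p + 1) n x) = 0) :
    ∃ b, (totBG Z D).e (p + 1) n x = (totBG Z D).δ b := by
  rw [totBG_δ, totBG_e] at *
  obtain ⟨b, hb⟩ := row p n (x (p + 1) n) fun I => by
    have h1 := totδ_succ' (totE Z D (p + 1) n x) (p + 1) n I
    rw [h, totE_same] at h1
    exact (smul_eq_zero.1 h1.symm).resolve_left (pow_ne_zero _ (by simp))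
  let y : Tot Z D := Pi.single p (Pi.single n ((-1 : ℂ) ^ n • b))
  have hy : y p n = (-1 : ℂ) ^ n • b := by simp only [y, Pi.single_eq_same]
  refine ⟨totE Z D p n y, ?_⟩
  have h2 := (totBG Z D).eδ p n y
  rw [totBG_δ, totBG_e] at h2
  rw [← h2, totE_eq, totE_eq]
  congr 2
  funext I
  rw [totδ_succ', hy, hb]
  rw [Finset.smul_sum]
  refine Finset.sum_congr rfl fun j _ => ?_
  rw [Pi.smul_apply, map_smul, smul_comm ((-1 : ℂ) ^ n), smul_smul ((-1 : ℂ) ^ n), ← mul_pow,
    neg_mul_neg, mul_one, one_pow, one_smul]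

end formal

variable {N d n : ℕ} {ι : Type} {Z : Set (Amb N)} {D : ι → Set (Amb N)}

theorem cj_apply (x : Amb N) (p : Fin N × Fin N) : cj N x p = conj (x p) := rfl

theorem cj_cj (x : Amb N) : cj N (cj N x) = x := by
  ext p
  simp [cj_apply]

theorem cj_proj (v : Fin N → ℂ) : cj N (proj v) = proj (star v) := by
  ext p
  simp [cj_apply, proj]

/-- conjugation as an equivalence -/
def cjE (N : ℕ) : Amb N ≃L[ℝ] Amb N :=
  ContinuousLinearEquiv.equivOfInverse (cj N) (cj N) cj_cj cj_cj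

theorem TypeGe.pull_conj {S S' : Set (Amb N)} (h : MapsTo (cj N) S S') {a : ℕ} {β : Om S' n}
    (hβ : β ∈ TypeGe S' a n) : Om.pull (cj N) h n (Om.conj S' n β) ∈ TypeGe S a n := by
  obtain ⟨α, hα, rfl⟩ := hβ
  refine ⟨SF.pull (cj N) n (SF.conj n α), fun e O g hO hg hS z hz v => ?_, rfl⟩
  have hst : Continuous (star : (Fin e → ℂ) → Fin e → ℂ) := continuous_star
  obtain ⟨b, hb⟩ := hα e (star ⁻¹' O) (star ∘ g ∘ star) (hO.preimage hst)
    (fun w hw => by
      have h1 := ((hg _ hw).differentiableAt (hO.mem_nhds hw)).star_star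
      rw [star_star] at h1
      exact h1.differentiableWithinAt)
    (fun w hw => ⟨star_ne_zero.2 (hS _ hw).1, by
      have := h (hS _ hw).2
      rwa [cj_proj] at this⟩)
    (star z) (by simpa using hz) (fun i => star (v i))
  refine ⟨fun k => conj (b k), fun c => ?_⟩
  have h1 := congrArg conj (hb (conj c))
  simp only [map_sum, map_mul, map_pow, Complex.conj_conj] at h1
  rw [← h1]
  have e1 : proj ∘ star ∘ g ∘ star =
      cjE N ∘ ((proj ∘ g) ∘ (starL' ℝ : (Fin e → ℂ) ≃L[ℝ] Fin e → ℂ)) := by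
    funext w
    exact (cj_proj _).symm
  have e2 : fderiv ℝ (proj ∘ star ∘ g ∘ star) (star z) =
      (cj N).comp ((fderiv ℝ (proj ∘ g) z).comp
        (starL' ℝ : (Fin e → ℂ) ≃L[ℝ] Fin e → ℂ).toContinuousLinearMap) := by
    rw [e1, ContinuousLinearEquiv.comp_fderiv, ContinuousLinearEquiv.comp_right_fderiv]
    simp only [starL'_apply, star_star]
    rfl
  have e3 : (proj ∘ star ∘ g ∘ star) (star z) = cj N ((proj ∘ g) z) := by
    simp [cj_proj]
  simp only [pull, e2, e3, SF.pull_val, ContinuousAlternatingMap.compContinuousLinearMap_apply,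
    SF.conj_val]
  congr 2
  funext i
  simp

theorem Fil_pull_conj (hZ : MapsTo (cj N) Z Z) (hD : ∀ i, ∃ j, MapsTo (cj N) (D i) (D j)) {a : ℕ}
    {α : Om Z n} (h : α ∈ Fil Z D a n) :
    Om.pull (cj N) hZ n (Om.conj Z n α) ∈ Fil Z D a n := by
  choose τ hτ using hD
  refine cls_map ((totPull (cj N) hZ hτ).comp (totConj Z D))
    (fun y hy => Submodule.subset_span (Or.inl fun p m I => ?_))
    (fun x => ⟨totPull (cj N) hZ hτ (totConj Z D x), ?_⟩) ?_ h
  · exact TypeGe.pull_conj (strat_maps (cj N) hZ hτ I) (hy p m _)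
  · rw [LinearMap.comp_apply, totConj_Dt, totPull_Dt]
  · rw [LinearMap.comp_apply, totConj_inc, totPull_inc]

end Pool.Agent.HT
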