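import Pool.Agent.P.MP_65ad7c_ag.HKae
import Pool.Agent.P.MP_65ad7c_ag.HDdc
import Pool.Agent.P.MP_65ad7c_ag.HPoly
import Pool.Agent.P.MP_65ad7c_ag.HForm

/-! Translation between forms and sections of the Fock bundle; Hodge theory for forms. -/

open MeasureTheory
open scoped ContDiff InnerProductSpace

noncomputable section
namespace Pool.Agent.HT
open Pool.Agent.Wein (Ret)

variable {V : Type} [NormedAddCommGroup V] [InnerProductSpace ℝ V]
  {F : Type} [NormedAddCommGroup F] [InnerProductSpace ℂ F] (Φ : Fock V F) (R : Ret V)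
  {A : Type} [Fintype A] (b : OrthonormalBasis A ℝ V) {J : V → V →L[ℝ] V} {m : ℕ}

/-- the form of degree `q` of a smooth function -/
def Fock.psiC (q : ℕ) : CF V F →ₗ[ℂ] SF V q where
  toFun f := SF.mk (fun x => Φ.psi q (f.1 x)) ((Φ.psi q).contDiff.comp f.smooth)
  map_add' a b := SF.ext (by ext x v; simp)
  map_smul' c a := SF.ext (by ext x v; simp [Φ.psi_smul])

/-- the form of degree `q` of a section -/
def Psi (q : ℕ) : Sec R.S F →ₗ[ℂ] Om R.S q :=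
  Submodule.mapQ _ _ (Φ.psiC q) fun f hf => Nul.of_zero fun x hx => by
    show Φ.psi q (f.1 x) = 0
    rw [hf x hx, map_zero]

theorem Psi_mk (q : ℕ) (f : CF V F) : Psi Φ R q (Sec.mk R.S f) = Om.mk R.S (Φ.psiC q f) := rfl

theorem Fock.psiC_val (q : ℕ) (f : CF V F) (x : V) : (Φ.psiC q f).1 x = Φ.psi q (f.1 x) := rfl

theorem N_smooth : ContDiff ℝ ∞ fun x => (1 : V →L[ℝ] V) - R.P x := contDiff_const.sub R.P_smooth

theorem nN_mk {f : CF V F} : nN Φ R b (Sec.mk R.S f) = 0 ↔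
    ∀ x ∈ R.S, ∀ v, Φ.io (v - R.P x v) (f.1 x) = 0 := by
  rw [nN, mG, Sec.mul_mk (Φ.dG_smooth b (N_smooth R)), Submodule.Quotient.mk_eq_zero]
  refine forall₂_congr fun x hx => ?_
  refine Φ.dG_eq_zero_iff b (Q := 1 - R.P x) (fun v w => ?_) (fun v => ?_) _
  · simp [inner_sub_left, inner_sub_right, R.P_symm hx]
  · simp [R.P_idem hx]

theorem dT_mk (f : CF V F) : ∃ g : CF V F, dT Φ R b R.P (Sec.mk R.S f) = Sec.mk R.S g ∧
    ∀ x, g.1 x = ∑ a, Φ.ep (R.P x (b a))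
      (fderiv ℝ f.1 x (R.P x (b a)) - Φ.dG b (Kc R (b a) x) (f.1 x)) := by
  have h1 : ∀ a, ContDiff ℝ ∞ fun x => Φ.ep (R.P x (b a)) := fun a =>
    Φ.ep.contDiff.comp (R.P_smooth.clm_apply contDiff_const)
  have h2 : ∀ a, ContDiff ℝ ∞ fun x => Φ.dG b (Kc R (b a) x) := fun a =>
    Φ.dG_smooth b (Kc_smooth R _)
  refine ⟨∑ a, CF.mul _ (h1 a) (CF.pd R (b a) f - CF.mul _ (h2 a) f), ?_, fun x => ?_⟩
  · rw [dT, LinearMap.sum_apply]
    refine Eq.trans ?_ (map_sum (Submodule.mkQ (Z0 R.S F)) _ _).symm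
    refine Finset.sum_congr rfl fun a _ => ?_
    rw [Module.End.mul_apply, nab, LinearMap.sub_apply, Sec.mul_mk (h2 a), Sec.pd_mk,
      ← Submodule.Quotient.mk_sub, Sec.mul_mk (h1 a)]
    rfl
  · rw [CF.val_sum]
    rfl

variable {Φ} in
/-- a tangential element only sees the tangential parts of the arguments -/
theorem Fock.psi_proj (Q : V →L[ℝ] V) : ∀ (q : ℕ) (y : F), (∀ v, Φ.io (v - Q v) y = 0) →
    ∀ v : Fin q → V, Φ.psi q y v = Φ.psi q y fun i => Q (v i)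
  | 0, _, _, v => congrArg _ (Subsingleton.elim _ _)
  | q + 1, y, hy, v => by
    have h1 : (fun i => Q (v i)) = Fin.cons (Q (v 0)) fun i => Q (Fin.tail v i) := by
      ext1 i
      refine Fin.cases rfl (fun _ => rfl) i
    have h2 : Φ.io (v 0) y = Φ.io (Q (v 0)) y := by
      have := hy (v 0)
      rwa [map_sub, sub_apply, sub_eq_zero] at this
    have h3 : ∀ w, Φ.io (w - Q w) (Φ.io (Q (v 0)) y) = 0 := fun w => by
      have := DFunLike.congr_fun (Φ.anti (w - Q w) (Q (v 0))) y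
      simpa only [add_apply, mul_apply_eq_comp, hy w, map_zero,
        add_zero, zero_apply] using this
    rw [h1, Φ.psi_succ, ← Fock.psi_proj Q q _ h3, ← h2, ← Φ.psi_succ, Fin.cons_self_tail]

theorem Psi_ext {u : Sec R.S F} (hu : nN Φ R b u = 0) (h : ∀ q, Psi Φ R q u = 0) : u = 0 := by
  obtain ⟨f, rfl⟩ := Submodule.Quotient.mk_surjective _ u
  rw [Submodule.Quotient.mk_eq_zero]
  intro x hx
  refine Φ.ext _ fun q => ?_
  ext v
  rw [Fock.psi_proj (R.P x) q _ ((nN_mk Φ R b).1 hu x hx)]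
  exact (nul_iff R).1 ((Submodule.Quotient.mk_eq_zero _).1 (h q)) x hx v

theorem Psi_surj (q : ℕ) (α : Om R.S q) : ∃ u : Sec R.S F, nN Φ R b u = 0 ∧ Psi Φ R q u = α ∧
    ∀ q', q' ≠ q → Psi Φ R q' u = 0 := by
  obtain ⟨a, rfl⟩ := Submodule.Quotient.mk_surjective _ α
  have hs : ContDiff ℝ ∞ fun x => Φ.phi q ((a.1 x).compContinuousLinearMap (R.P x)) :=
    (Φ.phi q).contDiff.comp (contDiff_iff_contDiffAt.2 fun x =>
      contDiffAt_compCLM a.smooth.contDiffAt R.P_smooth.contDiffAt)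
  refine ⟨Sec.mk R.S (CF.mk _ hs), (nN_mk Φ R b).2 fun x hx v => Φ.ext _ fun q' => ?_, ?_,
    fun q' hq => ?_⟩
  · ext w
    rw [← Φ.psi_succ, CF.mk_val]
    by_cases hq : q' + 1 = q
    · subst hq
      rw [Φ.psi_phi]
      refine (a.1 x).map_coord_zero 0 ?_
      simp [R.P_idem hx]
    · rw [Φ.psi_phi_ne _ _ _ hq]
      rfl
  · rw [Psi_mk]
    refine (Submodule.Quotient.eq _).2 ((nul_iff R).2 fun x hx v => ?_)
    simp [Fock.psiC_val, Φ.psi_phi, Function.comp_def, R.P_idem hx]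
  · rw [Psi_mk]
    refine (Submodule.Quotient.mk_eq_zero _).2 (Nul.of_zero fun x _ => ?_)
    rw [Fock.psiC_val, CF.mk_val, Φ.psi_phi_ne _ _ _ hq]

theorem Psi_d0 (u : Sec R.S F) : Psi Φ R 0 (dT Φ R b R.P u) = 0 := by
  obtain ⟨f, rfl⟩ := Submodule.Quotient.mk_surjective _ u
  obtain ⟨g, hg, hv⟩ := dT_mk Φ R b f
  rw [hg, Psi_mk]
  refine (Submodule.Quotient.mk_eq_zero _).2 (Nul.of_zero fun x _ => ?_)
  rw [Fock.psiC_val, hv, map_sum]
  exact Finset.sum_eq_zero fun a _ => Φ.psi_ep _ _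

theorem Psi_d (q : ℕ) {u : Sec R.S F} (hu : nN Φ R b u = 0) :
    Psi Φ R (q + 1) (dT Φ R b R.P u) = Om.d R.S q (Psi Φ R q u) := by
  obtain ⟨f, rfl⟩ := Submodule.Quotient.mk_surjective _ u
  obtain ⟨g, hg, hv⟩ := dT_mk Φ R b f
  rw [hg, Psi_mk, Psi_mk]
  refine (Submodule.Quotient.eq _).2 ((nul_iff R).2 fun x hx v => ?_)
  have hf := (nN_mk Φ R b).1 hu x hx
  have hK : ∀ (a : A) (w : Fin q → V),
      Φ.psi q (Φ.dG b (Kc R (b a) x) (f.1 x)) (fun i => R.P x (w i)) = 0 := fun a w => by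
    rw [Φ.psi_dG, der_apply]
    refine Finset.sum_eq_zero fun j _ => Φ.psi_eq_zero (i := j) ?_
    have h1 := DFunLike.congr_fun (P_Kc_P R (b a) hx) (w j)
    have h2 := hf (Kc R (b a) x (R.P x (w j)))
    simp only [mul_apply_eq_comp, zero_apply] at h1
    rw [h1, sub_zero] at h2
    simpa using h2
  have hD : fderiv ℝ (Φ.psiC q f).1 x = (Φ.psi q).comp (fderiv ℝ f.1 x) :=
    ((Φ.psi q).hasFDerivAt.comp x (f.diff x).hasFDerivAt).fderiv
  have hsum : ∀ w : V, ∑ a, ⟪R.P x (b a), R.P x w⟫_ℝ • R.P x (b a) = R.P x w := fun w => by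
    have h1 := congrArg (R.P x) (b.sum_repr' (R.P x w))
    rw [map_sum, R.P_idem hx] at h1
    refine Eq.trans (Finset.sum_congr rfl fun a _ => ?_) h1
    rw [map_smul, R.P_symm hx, R.P_idem hx]
  rw [SF.val_sub, Pi.sub_apply, ContinuousAlternatingMap.sub_apply, sub_eq_zero, Fock.psiC_val, hv,
    map_sum, ContinuousAlternatingMap.sum_apply]
  show _ = extDeriv (Φ.psiC q f).1 x _
  rw [extDeriv, ContinuousAlternatingMap.alternatizeUncurryFin_apply, hD]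
  simp only [Φ.psi_succ_ep]
  rw [Finset.sum_comm]
  refine Finset.sum_congr rfl fun i _ => ?_
  have h3 : i.removeNth (fun j => R.P x (v j)) = fun j => R.P x (i.removeNth v j) := rfl
  rw [h3, ← hsum (v i)]
  simp only [map_sub, ContinuousAlternatingMap.sub_apply, hK, sub_zero, hsum]
  conv_rhs => rw [← hsum (v i)]
  simp only [map_sum, map_smul, ContinuousAlternatingMap.sum_apply,
    ContinuousAlternatingMap.smul_apply, ContinuousLinearMap.comp_apply, Finset.smul_sum,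
    Complex.real_smul, zsmul_eq_mul, mul_assoc]
  simp

theorem Psi_gam (h : IsKR R J m) (q : ℕ) (u : Sec R.S F) :
    Psi Φ R q (mG Φ R b (Jt R J) u) = Om.gam h.gamOK q (Psi Φ R q u) := by
  obtain ⟨f, rfl⟩ := Submodule.Quotient.mk_surjective _ u
  rw [mG, Sec.mul_mk (Φ.dG_smooth b (h.isPar R).smooth), Psi_mk, Psi_mk]
  refine (Submodule.Quotient.eq _).2 ((nul_iff R).2 fun x hx v => ?_)
  rw [SF.val_sub, Pi.sub_apply, ContinuousAlternatingMap.sub_apply, sub_eq_zero, Fock.psiC_val,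
    CF.mk_val, Φ.psi_dG, SF.gam_val, Fock.psiC_val, der_apply, der_apply]
  simp [Jt, R.P_idem hx]

theorem dT_mem {u : Sec R.S F} (hu : nN Φ R b u = 0) : nN Φ R b (dT Φ R b R.P u) = 0 := by
  rw [← Module.End.mul_apply, nN_dT Φ R b (isPar_P R), Module.End.mul_apply, hu, map_zero]

theorem dT_dT {u : Sec R.S F} (hu : nN Φ R b u = 0) : dT Φ R b R.P (dT Φ R b R.P u) = 0 := by
  refine Psi_ext Φ R b (dT_mem Φ R b (dT_mem Φ R b hu)) fun q => ?_
  match q with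
  | 0 => exact Psi_d0 Φ R b _
  | 1 => rw [Psi_d Φ R b 0 (dT_mem Φ R b hu), Psi_d0, map_zero]
  | q + 2 => rw [Psi_d Φ R b _ (dT_mem Φ R b hu), Psi_d Φ R b _ hu, Om.d_d]

theorem Psi_c (h : IsKR R J m) (q : ℕ) {u : Sec R.S F} (hu : nN Φ R b u = 0) :
    Psi Φ R (q + 1) ((-dT Φ R b (Jt R J)) u) = Om.dc h.gamOK q (Psi Φ R q u) := by
  have hg : nN Φ R b (mG Φ R b (Jt R J) u) = 0 := by
    rw [← Module.End.mul_apply, nN_mG Φ R b (h.isPar R), Module.End.mul_apply, hu, map_zero]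
  rw [← h.gam_d Φ R b, LinearMap.sub_apply, Module.End.mul_apply, Module.End.mul_apply, map_sub,
    Psi_gam Φ R b h, Psi_d Φ R b q hu, Psi_d Φ R b q hg, Psi_gam Φ R b h]
  rfl

theorem Psi_c0 (h : IsKR R J m) (u : Sec R.S F) : Psi Φ R 0 ((-dT Φ R b (Jt R J)) u) = 0 := by
  rw [← h.gam_d Φ R b, LinearMap.sub_apply, Module.End.mul_apply, Module.End.mul_apply, map_sub,
    Psi_gam Φ R b h, Psi_d0, Psi_d0, map_zero, sub_zero]

variable {R}

/-- Hodge theory on a compact Kaehler retract -/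
theorem IsKR.hodge [FiniteDimensional ℝ V] (h : IsKR R J m) : Hodge h.gamOK := by
  obtain ⟨F, _, _, _, ⟨Φ⟩⟩ := exists_fock V
  let : MeasurableSpace V := borel V
  have : BorelSpace V := ⟨rfl⟩
  obtain ⟨μ, hμ⟩ := exists_vol R.compact (exists_chart R h.rank)
  let b := stdOrthonormalBasis ℝ V
  have hP := h.pack Φ R b hμ fun u hu => dT_dT Φ R b hu
  set d := dT Φ R b R.P with hd
  set c := -dT Φ R b (Jt R J) with hc
  have D1 : ∀ q u, nN Φ R b u = 0 → Psi Φ R (q + 1) (d u) = Om.d R.S q (Psi Φ R q u) :=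
    fun q u hu => Psi_d Φ R b q hu
  have C1 : ∀ q u, nN Φ R b u = 0 → Psi Φ R (q + 1) (c u) = Om.dc h.gamOK q (Psi Φ R q u) :=
    fun q u hu => Psi_c Φ R b h q hu
  have D0 : ∀ u, Psi Φ R 0 (d u) = 0 := Psi_d0 Φ R b
  have C0 : ∀ u, Psi Φ R 0 (c u) = 0 := Psi_c0 Φ R b h
  have dm : ∀ u, nN Φ R b u = 0 → nN Φ R b (d u) = 0 := hP.d_mem
  have cm : ∀ u, nN Φ R b u = 0 → nN Φ R b (c u) = 0 := hP.c_mem
  -- a second order expression vanishes as soon as it vanishes in the only possible degree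
  have key : ∀ (e e' : Module.End ℂ (Sec R.S F)) (E E' : ∀ q, Om R.S q →ₗ[ℂ] Om R.S (q + 1)),
      (∀ u, nN Φ R b u = 0 → nN Φ R b (e u) = 0) → (∀ u, nN Φ R b u = 0 → nN Φ R b (e' u) = 0) →
      (∀ q u, nN Φ R b u = 0 → Psi Φ R (q + 1) (e u) = E q (Psi Φ R q u)) →
      (∀ q u, nN Φ R b u = 0 → Psi Φ R (q + 1) (e' u) = E' q (Psi Φ R q u)) →
      (∀ u, Psi Φ R 0 (e u) = 0) → (∀ u, Psi Φ R 0 (e' u) = 0) →
      ∀ n u, nN Φ R b u = 0 → (∀ q', q' ≠ n → Psi Φ R q' u = 0) →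
        E (n + 1) (E' n (Psi Φ R n u)) = 0 → e (e' u) = 0 := by
    intro e e' E E' m1 m2 p1 p2 z1 z2 n u hu hn h0
    refine Psi_ext Φ R b (m1 _ (m2 _ hu)) fun q => ?_
    match q with
    | 0 => exact z1 _
    | 1 => rw [p1 0 _ (m2 _ hu), z2, map_zero]
    | q + 2 =>
      rw [p1 _ _ (m2 _ hu), p2 _ _ hu]
      by_cases hq : q = n
      · subst hq; exact h0
      · rw [hn q hq, map_zero, map_zero]
  refine ⟨h.poly, fun n x hx => ?_, fun n x => ?_, fun y hy => ?_, fun n y hy => ?_,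
    fun y hy => ?_, fun n y hy => ?_⟩
  · obtain ⟨u, hu, rfl, hn⟩ := Psi_surj Φ R b _ x
    have hdu : d u = 0 := by
      refine Psi_ext Φ R b (dm _ hu) fun q => ?_
      match q with
      | 0 => exact D0 _
      | q + 1 =>
        rw [D1 _ _ hu]
        by_cases hq : q = n + 1
        · subst hq; exact hx
        · rw [hn q hq, map_zero]
    obtain ⟨β, hβ, h1⟩ := hP.hA hu hdu
    refine ⟨Psi Φ R n β, ?_⟩
    have hm : nN Φ R b (u - d β) = 0 := by rw [map_sub, hu, dm _ hβ, sub_zero]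
    have h2 := C1 (n + 1) _ hm
    rw [h1, map_zero, map_sub (Psi Φ R (n + 1)), D1 _ _ hβ] at h2
    have h3 : Om.d R.S _ (Psi Φ R (n + 1) u - Om.d R.S n (Psi Φ R n β)) = 0 := by
      rw [map_sub, hx, Om.d_d, sub_zero]
    rw [Om.dc, LinearMap.sub_apply, LinearMap.comp_apply, LinearMap.comp_apply, h3, map_zero,
      zero_sub, eq_comm, neg_eq_zero] at h2
    exact h2
  · obtain ⟨u, hu, rfl, -⟩ := Psi_surj Φ R b _ x
    have hg : nN Φ R b (mG Φ R b (Jt R J) u) = 0 := by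
      rw [← Module.End.mul_apply, nN_mG Φ R b (h.isPar R), Module.End.mul_apply, hu, map_zero]
    rw [← C1 _ _ hu, ← Psi_gam Φ R b h, ← Psi_gam Φ R b h, ← C1 _ _ hg, ← D1 _ _ hu, ← map_sub,
      ← map_neg]
    have h1 := DFunLike.congr_fun (h.gam_dc Φ R b) u
    simp only [LinearMap.sub_apply, Module.End.mul_apply] at h1
    congr 1
    rw [hc, hd, ← h1]
    simp only [LinearMap.neg_apply, map_neg]
    abel
  · obtain ⟨u, hu, rfl, hn⟩ := Psi_surj Φ R b _ y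
    obtain ⟨β, hβ, h1⟩ := hP.hC hu (key c d _ _ cm dm C1 D1 C0 D0 0 u hu hn hy)
    rw [← D1 _ _ hu, h1, D1 _ _ (cm _ hβ), C0, map_zero]
  · obtain ⟨u, hu, rfl, hn⟩ := Psi_surj Φ R b _ y
    obtain ⟨β, hβ, h1⟩ := hP.hC hu (key c d _ _ cm dm C1 D1 C0 D0 _ u hu hn hy)
    exact ⟨Psi Φ R n β, by rw [← D1 _ _ hu, h1, D1 _ _ (cm _ hβ), C1 _ _ hβ]⟩
  · obtain ⟨u, hu, rfl, hn⟩ := Psi_surj Φ R b _ y
    obtain ⟨β, hβ, h1⟩ := hP.hD hu (key d c _ _ dm cm D1 C1 D0 C0 0 u hu hn hy)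
    rw [← C1 _ _ hu, h1, D1 _ _ (cm _ hβ), C0, map_zero]
  · obtain ⟨u, hu, rfl, hn⟩ := Psi_surj Φ R b _ y
    obtain ⟨β, hβ, h1⟩ := hP.hD hu (key d c _ _ dm cm D1 C1 D0 C0 _ u hu hn hy)
    exact ⟨Psi Φ R n β, by rw [← C1 _ _ hu, h1, D1 _ _ (cm _ hβ), C1 _ _ hβ]⟩

end Pool.Agent.HT
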