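import Pool.Agent.P.MP_65ad7c_ag.HInt
import Pool.Agent.P.MP_65ad7c_ag.HFin
import Pool.Agent.P.MP_65ad7c_ag.HGeo
import Pool.Agent.P.MP_65ad7c_ag.HTrans

/-! Block H: the odd graded pieces of the weight filtration split as `F + conj F`. -/

open Set
open scoped ContDiff ComplexConjugate

noncomputable section
namespace Pool.Agent.HT

variable {N d n : ℕ} {ι : Type} {Z : Set (Amb N)} {D : ι → Set (Amb N)}

theorem Geo.good (h : Geo d Z D) (p : ℕ) (I : Fin p → ι) : Good (strat Z D I) := by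
  classical
  obtain ⟨R, hR⟩ := Wein.exists_ret _ (h.isSubmanifold I).1 (h.isSubmanifold I).2
  obtain ⟨hp, hr⟩ := h.plots I R hR
  rw [← hR]
  exact ⟨(hp.isKR hr).gamOK, (hp.isKR hr).hodge, hp.typeGe_iff (hp.isKR hr)⟩

/-- (a) `Gr^W_{2b-1} = F^b + conj F^b` -/
theorem odd_span [Finite ι] (h : IsSNC d Z D) {c b : ℕ} (hn : n + 1 = c + 2 * b) {α : Om Z n}
    (hα : α ∈ Cc Z D n ⊓ col Z D c n) :
    ∃ f ∈ Cc Z D n ⊓ col Z D c n ⊓ Fil Z D b n, ∃ f' ∈ Cc Z D n ⊓ col Z D c n ⊓ Fil Z D b n,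
      ∃ r ∈ Cc Z D n ⊓ col Z D (c + 1) n, α = f + Om.conj Z n f' + r :=
  odd_span' h.geo h.geo.good hn hα

/-- (b) `F^b ∩ conj F^b = 0` on `Gr^W_{2b-1}` -/
theorem odd_disj [Finite ι] (h : IsSNC d Z D) {c b : ℕ} (hn : n + 1 = c + 2 * b) {f f' : Om Z n}
    (hf : f ∈ Cc Z D n ⊓ col Z D c n ⊓ Fil Z D b n)
    (hf' : f' ∈ Cc Z D n ⊓ col Z D c n ⊓ Fil Z D b n)
    (hff : f - Om.conj Z n f' ∈ col Z D (c + 1) n) : f ∈ col Z D (c + 1) n :=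
  odd_disj' h.geo h.geo.good hn hf hf' hff

end Pool.Agent.HT
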