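import Pool.Agent.P.MP_65ad7c_ag.HForm

/-! Integration over a projective manifold and complex conjugation. -/

open Set MeasureTheory
open scoped ContDiff ComplexConjugate Manifold

noncomputable section
namespace Pool.Agent.HT

section general
variable {V : Type} [NormedAddCommGroup V] [NormedSpace ℝ V] {n : ℕ}

/-- The product of a smooth function and a smooth form. -/
def SF.fmul (χ : V → ℝ) (hχ : ContDiff ℝ ∞ χ) (a : SF V n) : SF V n :=
  ⟨fun x => χ x • a.1 x, hχ.smul a.smooth⟩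

theorem hint_pull_fmul (χ : V → ℝ) (hχ : ContDiff ℝ ∞ χ) (a : SF V n) (γ : V → V) (z : V) :
    pull γ (SF.fmul χ hχ a).1 z = χ (γ z) • pull γ a.1 z := rfl

theorem hint_fmul_nul {S : Set V} (χ : V → ℝ) (hχ : ContDiff ℝ ∞ χ) {a : SF V n}
    (ha : a ∈ Nul S n) : SF.fmul χ hχ a ∈ Nul S n := fun γ O hO hγ hS z hz => by
  rw [hint_pull_fmul, ha γ O hO hγ hS z hz]
  ext v
  simp

theorem hint_nul_of_zero {S : Set V} {a : SF V n} (ha : ∀ x ∈ S, a.1 x = 0) : a ∈ Nul S n :=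
  fun γ O _ _ hS z hz => by
    ext v
    simp [pull, ha _ (hS hz)]

theorem hint_res_mk {S S' : Set V} (h : S ⊆ S') (a : SF V n) :
    Om.res h n (Submodule.Quotient.mk a) = Submodule.Quotient.mk a := rfl

theorem hint_mem_ac {Z U K : Set V} (hK : IsCompact K) (hKU : K ⊆ U) {a : SF V n}
    (ha : a ∈ Nul (Z \ K) n) : (Submodule.Quotient.mk a : Om Z n) ∈ Ac Z U n := by
  refine Submodule.mem_iSup_of_mem K (Submodule.mem_iSup_of_mem ⟨hK, hKU⟩ ?_)
  rw [LinearMap.mem_ker, hint_res_mk]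
  exact (Submodule.Quotient.mk_eq_zero _).2 ha

/-- A compactly supported form is a finite sum of forms with small supports. -/
theorem Ac.le_iSup [FiniteDimensional ℝ V] {Z U : Set V} (hZ : IsCompact Z) {κ : Type}
    (W : κ → Set V) (hW : ∀ i, IsOpen (W i)) (hc : Z ⊆ ⋃ i, W i) :
    Ac Z U n ≤ ⨆ i, Ac Z U n ⊓ Ac Z (Z ∩ W i) n := by
  obtain ⟨ρ, hρ⟩ := SmoothPartitionOfUnity.exists_isSubordinate 𝓘(ℝ, V) hZ.isClosed W hW hc
  have hs : ∀ i, ContDiff ℝ ∞ (ρ i) := fun i => (ρ i).contMDiff.contDiff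
  have hT := ρ.locallyFinite.finite_nonempty_inter_compact hZ
  refine iSup₂_le fun K hK α hα => ?_
  obtain ⟨a, rfl⟩ := Submodule.Quotient.mk_surjective _ α
  have ha : a ∈ Nul (Z \ K) n := (Submodule.Quotient.mk_eq_zero _).1 hα
  have e : (Submodule.Quotient.mk a : Om Z n) =
      ∑ i ∈ hT.toFinset, Submodule.Quotient.mk (SF.fmul (ρ i) (hs i) a) := by
    change _ = ∑ i ∈ hT.toFinset, (Nul Z n).mkQ (SF.fmul (ρ i) (hs i) a)
    rw [← map_sum]
    refine (Submodule.Quotient.eq _).2 (hint_nul_of_zero fun x hx => ?_)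
    have h1 : (∑ i ∈ hT.toFinset, SF.fmul (ρ i) (hs i) a).1 x =
        ∑ i ∈ hT.toFinset, ρ i x • a.1 x := by
      have := map_sum (sf V n).subtype (fun i => SF.fmul (ρ i) (hs i) a) hT.toFinset
      exact (congrFun this x).trans (Finset.sum_apply _ _ _)
    have h2 : ∑ i ∈ hT.toFinset, ρ i x = 1 := ρ.sum_finsupport' x hx fun i hi =>
      hT.mem_toFinset.2 ⟨x, (ρ.mem_finsupport x).1 hi, hx⟩
    rw [SF.val_sub, Pi.sub_apply, h1, ← Finset.sum_smul, h2, one_smul, sub_self]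
  rw [e]
  refine Submodule.sum_mem _ fun i _ => Submodule.mem_iSup_of_mem i ⟨?_, ?_⟩
  · exact hint_mem_ac hK.1 hK.2 (hint_fmul_nul _ _ ha)
  · refine hint_mem_ac (hZ.inter_right (isClosed_tsupport (ρ i)))
      (inter_subset_inter_right _ (hρ i)) (hint_nul_of_zero fun x hx => ?_)
    change ρ i x • a.1 x = 0
    rw [image_eq_zero_of_notMem_tsupport fun h => hx.2 ⟨hx.1, h⟩]
    ext v
    simp

end general

variable {N d n : ℕ} {ι : Type} {Z : Set (Amb N)} {D : ι → Set (Amb N)}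

theorem proj_star (v : Fin N → ℂ) : proj (star v) = cj N (proj v) := (cj_proj v).symm

/-- conjugation of `ℂ^d` as a real linear equivalence -/
def cjd (d : ℕ) : (Fin d → ℂ) ≃L[ℝ] (Fin d → ℂ) := starL' ℝ

theorem cjd_apply (z : Fin d → ℂ) : cjd d z = star z := rfl

/-- The conjugate of a chart. -/
theorem IsChart.conj {O : Set (Fin d → ℂ)} {f : (Fin d → ℂ) → Fin N → ℂ} (h : IsChart Z O f)
    (hZ : MapsTo (cj N) Z Z) : IsChart Z (star ⁻¹' O) (star ∘ f ∘ star) := by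
  have hd : ∀ z ∈ star ⁻¹' O, HasFDerivAt (star ∘ f ∘ star)
      ((starL ℂ).toContinuousLinearMap.comp <|
        (fderiv ℂ f (star z)).comp (starL ℂ).toContinuousLinearMap) z := fun z hz => by
    have := ((h.hol _ hz).differentiableAt (h.isOpen.mem_nhds hz)).hasFDerivAt.star_star
    rwa [star_star] at this
  have hp : ∀ z, (proj ∘ star ∘ f ∘ star) z = cj N ((proj ∘ f) (star z)) := fun z => proj_star _
  refine ⟨h.isOpen.preimage continuous_star,
    fun z hz => (hd z hz).differentiableAt.differentiableWithinAt,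
    fun z hz => star_ne_zero.2 (h.ne _ hz), fun z hz v c hv => ?_, fun z hz w hw e => ?_,
    fun O' hO' ho => ?_⟩
  · rw [(hd z hz).fderiv] at hv
    have h1 : star (fderiv ℂ f (star z) (star v)) = c • star (f (star z)) := hv
    have h2 : fderiv ℂ f (star z) (star v) = star c • f (star z) := by
      rw [← star_star (fderiv ℂ f (star z) (star v)), h1, star_smul, star_star]
    exact star_eq_zero.1 (h.imm _ hz _ _ h2)
  · rw [hp, hp] at e
    exact star_injective (h.inj hz hw ((cjE N).injective e))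
  · obtain ⟨W, hW, e⟩ := h.opn (star ⁻¹' O') (fun z hz => by simpa using hO' hz)
      (ho.preimage continuous_star)
    refine ⟨cj N ⁻¹' W, hW.preimage (cj N).continuous, ?_⟩
    ext x
    constructor
    · rintro ⟨z, hz, rfl⟩
      have h1 : (proj ∘ f) (star z) ∈ Z ∩ W := e ▸ ⟨star z, by simpa using hz, rfl⟩
      rw [hp]
      exact ⟨hZ h1.1, by rw [mem_preimage, cj_cj]; exact h1.2⟩
    · intro hx
      obtain ⟨z, hz, e'⟩ : cj N x ∈ (proj ∘ f) '' (star ⁻¹' O') := e ▸ ⟨hZ hx.1, hx.2⟩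
      exact ⟨star z, hz, by rw [hp, star_star, e', cj_cj]⟩

theorem hint_prod (d : ℕ) : ∏ i : Fin (2 * d), (-1 : ℝ) ^ ((i : ℕ) % 2) = (-1) ^ d := by
  rw [Fin.prod_univ_eq_prod_range (fun i => (-1 : ℝ) ^ (i % 2))]
  induction d with
  | zero => simp
  | succ d ih =>
    rw [Nat.mul_succ, Finset.prod_range_succ, Finset.prod_range_succ, ih]
    simp [Nat.add_mod, pow_succ]

theorem hint_pull_conj (f : (Fin d → ℂ) → Fin N → ℂ) (a : SF (Amb N) n) (z : Fin d → ℂ)
    (v : Fin n → Fin d → ℂ) :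
    pull (proj ∘ star ∘ f ∘ star) (SF.pull (cj N) n a).1 z v =
      pull (proj ∘ f) a.1 (star z) fun i => star (v i) := by
  have e : proj ∘ star ∘ f ∘ star = cjE N ∘ (proj ∘ f) ∘ cjd d := funext fun z => proj_star _
  rw [e]
  change a.1 (cj N (cj N ((proj ∘ f) (star z))))
      (fun i => cj N (fderiv ℝ (cjE N ∘ (proj ∘ f) ∘ cjd d) z (v i))) =
    a.1 ((proj ∘ f) (star z)) fun i => fderiv ℝ (proj ∘ f) (star z) (star (v i))
  rw [cj_cj, ContinuousLinearEquiv.comp_fderiv, ContinuousLinearEquiv.comp_right_fderiv]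
  congr 1
  funext i
  exact cj_cj _

theorem hint_star_single (k : Fin d) (i : ℕ) :
    star (Pi.single k (Complex.I ^ (i % 2)) : Fin d → ℂ) =
      (-1 : ℝ) ^ (i % 2) • (Pi.single k (Complex.I ^ (i % 2)) : Fin d → ℂ) := by
  ext j
  rcases eq_or_ne j k with rfl | h
  · rcases Nat.mod_two_eq_zero_or_one i with h | h <;> simp [h]
  · simp [h]

/-- conjugation multiplies the orientation by (-1)^d -/
theorem IsInt.pull_cj (h : IsSNC d Z D) (hZ : MapsTo (cj N) Z Z) {U : Set (Amb N)}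
    (hU : MapsTo (cj N) U U) {lam : Ac Z U (2 * d) →ₗ[ℂ] ℂ} (hl : IsInt d Z U lam)
    (α : Ac Z U (2 * d)) :
    lam ⟨Om.pull (cj N) hZ _ α.1, Ac.pull_mem _ cj_cj hZ hU α.2⟩ = (-1) ^ d * lam α := by
  choose! O f κ hc hx _ using h.chart
  choose! W hW hWe using fun x (hx : x ∈ Z) => (hc x hx).opn _ Subset.rfl (hc x hx).isOpen
  let Φ : Ac Z U (2 * d) →ₗ[ℂ] ℂ :=
    lam.comp ((Om.pull (cj N) hZ _).restrict fun _ hβ => Ac.pull_mem _ cj_cj hZ hU hβ)
  have key : (⨆ x : Z, Ac Z U (2 * d) ⊓ Ac Z (Z ∩ W x) (2 * d)) ≤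
      (LinearMap.eqLocus Φ (((-1 : ℂ) ^ d) • lam)).map (Ac Z U (2 * d)).subtype := by
    refine iSup_le fun x β hβ => ⟨⟨β, hβ.1⟩, ?_, rfl⟩
    obtain ⟨b, rfl⟩ := Submodule.Quotient.mk_surjective _ β
    have h1 := hβ.2
    rw [← hWe x x.2] at h1
    have h2 : (Submodule.Quotient.mk (SF.pull (cj N) _ b) : Om Z (2 * d)) ∈
        Ac Z ((proj ∘ star ∘ f x ∘ star) '' (star ⁻¹' O x)) (2 * d) := by
      refine Ac.pull_mem _ cj_cj hZ ?_ h1
      rintro _ ⟨z, hz, rfl⟩
      exact ⟨star z, by simpa using hz, by simp [proj_star]⟩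
    have h3 := hl _ _ ((hc x x.2).conj hZ) _ (Ac.pull_mem _ cj_cj hZ hU hβ.1) h2
    have hm : MeasurePreserving (star : (Fin d → ℂ) → Fin d → ℂ) :=
      volume_preserving_pi fun _ => Complex.conjLIE.measurePreserving
    refine h3.trans ?_
    rw [LinearMap.smul_apply, hl _ _ (hc x x.2) b hβ.1 h1,
      ← hm.setIntegral_preimage_emb (cjd d).toHomeomorph.measurableEmbedding _ (O x),
      ← integral_smul]
    congr 1
    funext z
    rw [hint_pull_conj]
    simp only [hint_star_single]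
    rw [ContinuousAlternatingMap.map_smul_univ, hint_prod]
    simp
  obtain ⟨β, hβ, e⟩ := key (Ac.le_iSup h.compact (fun x : Z => W x) (fun x => hW x x.2)
    (fun x hx' => mem_iUnion.2 ⟨⟨x, hx'⟩, ((hWe x hx').subset (hx x hx')).2⟩) α.2)
  obtain rfl : β = α := Subtype.ext e
  exact hβ

end Pool.Agent.HT
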