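import Pool.Agent.P.MP_65ad7c_ag.DQ

open Set TopologicalSpace Pool.Agent.PWD

namespace Pool.Agent.PWF

/-- `H^m(Y, I) → H^m(Z, I)` is injective: a global cocycle that is a coboundary near `Z` is a
coboundary. -/
def Inj {Y : Type} [TopologicalSpace Y] (I : Cx Y) (Z : Set Y) (m : ℕ) : Prop :=
  ∀ α : Glo I m, Coc univ α → ∀ (O : Opens Y) (j : ℕ) (t : Sec I j O), Z ⊆ O →
    rs le_top α = dd j m t → ∃ (k : ℕ) (s : Glo I k), α = dd k m s

end Pool.Agent.PWF
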