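import Pool.Agent.P.MP_65ad7c_ag.NDefs

/-! The interface between the analytic and the algebraic part of the flow. -/

open Matrix Filter Topology Set

noncomputable section
namespace Pool.Agent.PW

/-- the entries of `R m` are polynomials in the entries of `m` -/
def IsPoly {n k : Type} (R : Matrix n n ℂ → Matrix k k ℂ) : Prop :=
  ∀ i j, ∃ p : MvPolynomial (n × n) ℂ, ∀ m, R m i j = MvPolynomial.eval (fun x => m x.1 x.2) p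

/-- orthogonal projections on invariant subspaces commute with the family -/
def Perp {n Γ : Type} [Fintype n] (ρ : Γ → Matrix n n ℂ) : Prop :=
  ∀ Q : Matrix n n ℂ, Qᴴ = Q → Q * Q = Q → (∀ γ, Q * ρ γ * Q = ρ γ * Q) → ∀ γ, Q * ρ γ = ρ γ * Q

/-- `Rel C t ρ ρ'`: `ρ` has a harmonic metric equal to `1` at the base point, and `ρ'` is the
monodromy of the connection rotated by the angle `t`; all bounds are controlled by `C`. -/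
structure RotSys (Γ : Type) [Group Γ] where
  S : Finset Γ
  symm : ∀ s ∈ S, s⁻¹ ∈ S
  gen : Submonoid.closure (S : Set Γ) = ⊤
  Rel : ∀ {r : ℕ}, ℝ → ℝ → (Γ →* Matrix (Fin r) (Fin r) ℂ) → (Γ →* Matrix (Fin r) (Fin r) ℂ) → Prop
  mono : ∀ {r : ℕ} {C C' t : ℝ} {ρ ρ' : Γ →* Matrix (Fin r) (Fin r) ℂ}, C ≤ C' →
    Rel C t ρ ρ' → Rel C' t ρ ρ'
  exi : ∀ (r : ℕ) (N : ℝ), 0 < r → ∃ C : ℝ, ∀ ρ : Γ →* Matrix (Fin r) (Fin r) ℂ,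
    (∀ W : Submodule ℂ (Fin r → ℂ), (∀ γ, ∀ v ∈ W, ρ γ *ᵥ v ∈ W) →
      ∃ W' : Submodule ℂ (Fin r → ℂ), (∀ γ, ∀ v ∈ W', ρ γ *ᵥ v ∈ W') ∧ IsCompl W W') →
    (∀ s ∈ S, ∀ i j, ‖ρ s i j‖ ≤ N) →
    ∃ (u : Matrix (Fin r) (Fin r) ℂ) (σ : Γ →* Matrix (Fin r) (Fin r) ℂ)
      (F : ℝ → Γ →* Matrix (Fin r) (Fin r) ℂ), IsUnit u ∧ (∀ γ, u * σ γ = ρ γ * u) ∧
      (∀ γ i j, AnalyticOnNhd ℝ (fun t => F t γ i j) univ) ∧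
      ∀ t, Rel C t σ (F t) ∧ ∃ C' : ℝ, Rel C' (-t) (F t) σ
  uniq : ∀ {r : ℕ} {C₁ C₂ t : ℝ} {ρ₁ ρ₁' ρ₂ ρ₂' : Γ →* Matrix (Fin r) (Fin r) ℂ}
    (g : Matrix (Fin r) (Fin r) ℂ), Rel C₁ t ρ₁ ρ₁' → Rel C₂ t ρ₂ ρ₂' → IsUnit g →
    (∀ γ, g * ρ₁ γ = ρ₂ γ * g) → ∀ γ, g * ρ₁' γ = ρ₂' γ * g
  prep : ∀ {r s : ℕ} {C t : ℝ} {ρ ρ' : Γ →* Matrix (Fin r) (Fin r) ℂ}
    (R : Matrix (Fin r) (Fin r) ℂ →* Matrix (Fin s) (Fin s) ℂ), IsPoly R →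
    (∀ m, R mᴴ = (R m)ᴴ) → Rel C t ρ ρ' → ∃ C' : ℝ, Rel C' t (R.comp ρ) (R.comp ρ')
  perp : ∀ {r : ℕ} {C t : ℝ} {ρ ρ' : Γ →* Matrix (Fin r) (Fin r) ℂ}, Rel C t ρ ρ' → Perp ρ
  bdd : ∀ (r : ℕ) (C : ℝ) (γ : Γ), ∃ B : ℝ, ∀ (t : ℝ) (ρ ρ' : Γ →* Matrix (Fin r) (Fin r) ℂ),
    Rel C t ρ ρ' → ∀ i j, ‖ρ γ i j‖ ≤ B ∧ ‖ρ' γ i j‖ ≤ B
  lim : ∀ {r : ℕ} {C : ℝ} (ι : Type) (U : Ultrafilter ι) (t : ι → ℝ) (t₀ : ℝ)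
    (ρ ρ' : ι → Γ →* Matrix (Fin r) (Fin r) ℂ) (ρ₀ ρ₀' : Γ →* Matrix (Fin r) (Fin r) ℂ),
    (∀ k, Rel C (t k) (ρ k) (ρ' k)) → Tendsto t U (𝓝 t₀) →
    (∀ γ i j, Tendsto (fun k => ρ k γ i j) U (𝓝 (ρ₀ γ i j))) →
    (∀ γ i j, Tendsto (fun k => ρ' k γ i j) U (𝓝 (ρ₀' γ i j))) → ∃ C' : ℝ, Rel C' t₀ ρ₀ ρ₀'
  zero : ∀ {r : ℕ} {C : ℝ} {ρ ρ' : Γ →* Matrix (Fin r) (Fin r) ℂ}, Rel C 0 ρ ρ' → ∀ γ, ρ' γ = ρ γ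
  half : ∀ {r : ℕ} {C : ℝ} {ρ ρ' : Γ →* Matrix (Fin r) (Fin r) ℂ}, Rel C Real.pi ρ ρ' →
    ∀ γ, ρ' γ = (ρ γ⁻¹)ᴴ

end Pool.Agent.PW
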