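import Pool.Agent.P.MP_65ad7c_ag.LDefs

open Matrix Filter Topology Set
open scoped ComplexOrder Kronecker

noncomputable section
namespace Pool.Agent.PW.L

variable {n m : Type} [Fintype n] [DecidableEq n] [Fintype m] [DecidableEq m]
  {r : ℕ} {G : Subgroup (GL (Fin r) ℂ)} {Γ : Type}

omit [DecidableEq n] in
theorem lfc0_diag (X : Matrix n n ℂ) (j : n) : (Xᴴ * X) j j = ((∑ i, ‖X i j‖ ^ 2 : ℝ) : ℂ) := by
  rw [Matrix.mul_apply, Complex.ofReal_sum]
  refine Finset.sum_congr rfl fun i _ => ?_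
  rw [conjTranspose_apply, Complex.star_def, Complex.conj_mul', Complex.ofReal_pow]

theorem lfc0_col {U : Matrix n n ℂ} (h : Uni U) (j : n) : ∑ i, ‖U i j‖ ^ 2 = 1 := by
  have h1 : Uᴴ * U = 1 := h
  have h2 := lfc0_diag U j
  rw [h1, Matrix.one_apply_eq] at h2
  exact_mod_cast h2.symm

theorem lfc0_uni {P : Matrix n n ℂ} (h : P.IsHermitian) :
    Uni (h.eigenvectorUnitary : Matrix n n ℂ) := h.eigenvectorUnitary.2.1

theorem lfc0_spec {P : Matrix n n ℂ} (h : P.IsHermitian) :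
    P = Dg (h.eigenvectorUnitary : Matrix n n ℂ) h.eigenvalues := h.spectral_theorem

theorem Uni.mul_self {U : Matrix n n ℂ} (h : Uni U) : U * Uᴴ = 1 := by
  exact mul_eq_one_comm.1 h

theorem Uni.star {U : Matrix n n ℂ} (h : Uni U) : Uni Uᴴ := by
  unfold Uni
  rw [conjTranspose_conjTranspose]
  exact h.mul_self

theorem Uni.mul {U V : Matrix n n ℂ} (h : Uni U) (h' : Uni V) : Uni (U * V) := by
  unfold Uni at *
  rw [conjTranspose_mul, Matrix.mul_assoc, ← Matrix.mul_assoc Uᴴ, h, Matrix.one_mul, h']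

theorem Uni.isUnit {U : Matrix n n ℂ} (h : Uni U) : IsUnit U := by
  exact ⟨⟨U, Uᴴ, h.mul_self, h⟩, rfl⟩

theorem Uni.norm_le {U : Matrix n n ℂ} (h : Uni U) (i j : n) : ‖U i j‖ ≤ 1 := by
  have h1 := lfc0_col h j
  have h2 : ‖U i j‖ ^ 2 ≤ ∑ i, ‖U i j‖ ^ 2 :=
    Finset.single_le_sum (f := fun i => ‖U i j‖ ^ 2) (fun _ _ => sq_nonneg _) (Finset.mem_univ i)
  rw [h1] at h2
  exact (pow_le_one_iff_of_nonneg (norm_nonneg _) two_ne_zero).1 h2

theorem Uni.row {U : Matrix n n ℂ} (h : Uni U) (i : n) : ∑ j, ‖U i j‖ ^ 2 = 1 := by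
  have h1 := lfc0_col h.star i
  simpa [conjTranspose_apply] using h1

theorem Uni.col {U : Matrix n n ℂ} (h : Uni U) (j : n) : ∑ i, ‖U i j‖ ^ 2 = 1 := by
  exact lfc0_col h j

theorem Dg_mul {U : Matrix n n ℂ} (h : Uni U) (d e : n → ℝ) :
    Dg U d * Dg U e = Dg U fun i => d i * e i := by
  have h1 : Uᴴ * U = 1 := h
  unfold Dg
  calc U * diagonal (fun i => (d i : ℂ)) * Uᴴ * (U * diagonal (fun i => (e i : ℂ)) * Uᴴ)
      = U * (diagonal (fun i => (d i : ℂ)) * (Uᴴ * U) * diagonal (fun i => (e i : ℂ))) * Uᴴ := by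
        simp only [Matrix.mul_assoc]
    _ = _ := by
        rw [h1, Matrix.mul_one, diagonal_mul_diagonal]
        simp only [Complex.ofReal_mul]

theorem Dg_one {U : Matrix n n ℂ} (h : Uni U) : Dg U (fun _ => 1) = 1 := by
  unfold Dg
  simp only [Complex.ofReal_one, diagonal_one, Matrix.mul_one]
  exact h.mul_self

theorem Dg_add (U : Matrix n n ℂ) (d e : n → ℝ) : Dg U (fun i => d i + e i) = Dg U d + Dg U e := by
  unfold Dg
  rw [← Matrix.add_mul, ← Matrix.mul_add, diagonal_add]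
  simp only [Complex.ofReal_add]

theorem Dg_neg (U : Matrix n n ℂ) (d : n → ℝ) : Dg U (fun i => -d i) = -Dg U d := by
  unfold Dg
  rw [← Matrix.neg_mul, ← Matrix.mul_neg, diagonal_neg]
  simp only [Complex.ofReal_neg]

theorem Dg_herm (U : Matrix n n ℂ) (d : n → ℝ) : (Dg U d).IsHermitian := by
  refine isHermitian_mul_mul_conjTranspose U ?_
  unfold IsHermitian
  rw [diagonal_conjTranspose]
  congr 1
  funext i
  simp

theorem trace_Dg {U : Matrix n n ℂ} (h : Uni U) (d : n → ℝ) :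
    (Dg U d).trace = ((∑ i, d i : ℝ) : ℂ) := by
  have h1 : Uᴴ * U = 1 := h
  unfold Dg
  rw [trace_mul_cycle, h1, Matrix.one_mul, trace_diagonal, Complex.ofReal_sum]

theorem det_Dg {U : Matrix n n ℂ} (h : Uni U) (d : n → ℝ) :
    (Dg U d).det = ((∏ i, d i : ℝ) : ℂ) := by
  have h1 : Uᴴ * U = 1 := h
  unfold Dg
  rw [det_mul_comm, ← Matrix.mul_assoc, h1, Matrix.one_mul, det_diagonal, Complex.ofReal_prod]

theorem Dg_inv {U : Matrix n n ℂ} (h : Uni U) {d : n → ℝ} (hd : ∀ i, d i ≠ 0) :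
    (Dg U d)⁻¹ = Dg U fun i => (d i)⁻¹ := by
  refine Matrix.inv_eq_right_inv ?_
  rw [Dg_mul h, ← Dg_one h]
  congr 1
  funext i
  exact mul_inv_cancel₀ (hd i)

theorem Dg_posDef {U : Matrix n n ℂ} (h : Uni U) {d : n → ℝ} (hd : ∀ i, 0 < d i) :
    (Dg U d).PosDef := by
  have h1 : (diagonal fun i => (d i : ℂ)).PosDef :=
    PosDef.diagonal fun i => by exact_mod_cast hd i
  exact h1.mul_mul_conjTranspose_same (vecMul_injective_iff_isUnit.2 h.isUnit)

theorem Dg_conj (V U : Matrix n n ℂ) (d : n → ℝ) : V * Dg U d * Vᴴ = Dg (V * U) d := by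
  unfold Dg
  rw [conjTranspose_mul]
  simp only [Matrix.mul_assoc]

theorem exists_Dg {P : Matrix n n ℂ} (h : P.IsHermitian) : ∃ U d, Uni U ∧ P = Dg U d := by
  exact ⟨_, _, lfc0_uni h, lfc0_spec h⟩

theorem exists_Dg_pos {P : Matrix n n ℂ} (h : P.PosDef) :
    ∃ U d, Uni U ∧ (∀ i, 0 < d i) ∧ P = Dg U d := by
  exact ⟨_, _, lfc0_uni h.isHermitian, h.eigenvalues_pos, lfc0_spec h.isHermitian⟩

theorem posDef_star_mul {a : Matrix n n ℂ} (h : IsUnit a) : (aᴴ * a).PosDef := by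
  exact PosDef.conjTranspose_mul_self a (mulVec_injective_iff_isUnit.2 h)

theorem fro_nonneg (X : Matrix n n ℂ) : 0 ≤ fro X := by
  exact Finset.sum_nonneg fun _ _ => Finset.sum_nonneg fun _ _ => sq_nonneg _

theorem fro_eq (X : Matrix n n ℂ) : fro X = (Xᴴ * X).trace.re := by
  unfold fro
  rw [Finset.sum_comm, trace, Complex.re_sum]
  refine Finset.sum_congr rfl fun j _ => ?_
  rw [diag_apply, lfc0_diag, Complex.ofReal_re]

theorem fro_eq_zero {X : Matrix n n ℂ} (h : fro X = 0) : X = 0 := by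
  ext i j
  have h1 := (Finset.sum_eq_zero_iff_of_nonneg fun _ _ =>
    Finset.sum_nonneg fun _ _ => sq_nonneg _).1 h i (Finset.mem_univ i)
  have h2 := (Finset.sum_eq_zero_iff_of_nonneg fun _ _ => sq_nonneg _).1 h1 j (Finset.mem_univ j)
  exact norm_eq_zero.1 ((pow_eq_zero_iff two_ne_zero).1 h2)

theorem sq_le_fro (X : Matrix n n ℂ) (i j : n) : ‖X i j‖ ^ 2 ≤ fro X := by
  exact (Finset.single_le_sum (f := fun j => ‖X i j‖ ^ 2) (fun _ _ => sq_nonneg _)
    (Finset.mem_univ j)).trans (Finset.single_le_sum (f := fun i => ∑ j, ‖X i j‖ ^ 2)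
      (fun _ _ => Finset.sum_nonneg fun _ _ => sq_nonneg _) (Finset.mem_univ i))

theorem fro_uni {U V : Matrix n n ℂ} (h : Uni U) (h' : Uni V) (X : Matrix n n ℂ) :
    fro (Uᴴ * X * V) = fro X := by
  rw [fro_eq, fro_eq]
  congr 1
  rw [conjTranspose_mul, conjTranspose_mul, conjTranspose_conjTranspose]
  calc (Vᴴ * (Xᴴ * U) * (Uᴴ * X * V)).trace = (Vᴴ * (Xᴴ * (U * Uᴴ) * X) * V).trace := by
        simp only [Matrix.mul_assoc]
    _ = _ := by
        rw [h.mul_self, Matrix.mul_one, trace_mul_cycle, h'.mul_self, Matrix.one_mul]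

theorem continuous_fro : Continuous (fro : Matrix n n ℂ → ℝ) := by
  unfold fro
  refine continuous_finsetSum _ fun i _ => continuous_finsetSum _ fun j _ => ?_
  exact (continuous_id.matrix_elem i j).norm.pow 2

end Pool.Agent.PW.L
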