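import Pool.Agent.P.MP_65ad7c_ag.LFc0

open Matrix Filter Topology Set
open scoped ComplexOrder Kronecker

noncomputable section
namespace Pool.Agent.PW.L

variable {n m : Type} [Fintype n] [DecidableEq n] [Fintype m] [DecidableEq m]
  {r : ℕ} {G : Subgroup (GL (Fin r) ℂ)} {Γ : Type}

theorem exists_proj (W : Submodule ℂ (n → ℂ)) : ∃ Q : Matrix n n ℂ, Qᴴ = Q ∧ Q * Q = Q ∧
    (∀ v, Q *ᵥ v ∈ W) ∧ ∀ v ∈ W, Q *ᵥ v = v := by
  let W' : Submodule ℂ (EuclideanSpace ℂ n) := W.comap (WithLp.linearEquiv 2 ℂ (n → ℂ)).toLinearMap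
  let e := Matrix.toEuclideanCLM (𝕜 := ℂ) (n := n)
  have key : ∀ v : n → ℂ,
      e.symm W'.starProjection *ᵥ v = (W'.starProjection (WithLp.toLp 2 v)).ofLp := by
    intro v
    have := Matrix.ofLp_toEuclideanCLM (𝕜 := ℂ) (e.symm W'.starProjection) (WithLp.toLp 2 v)
    rw [← this]
    exact congrArg (fun T : EuclideanSpace ℂ n →L[ℂ] EuclideanSpace ℂ n =>
      (T (WithLp.toLp 2 v)).ofLp) (e.apply_symm_apply _)
  refine ⟨e.symm W'.starProjection, ?_, ?_, fun v => ?_, fun v hv => ?_⟩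
  · rw [← star_eq_conjTranspose, ← map_star, (isSelfAdjoint_starProjection W').star_eq]
  · rw [← map_mul, W'.isIdempotentElem_starProjection.eq]
  · rw [key]
    exact W'.starProjection_apply_mem _
  · rw [key, Submodule.starProjection_eq_self_iff.2 (show WithLp.toLp 2 v ∈ W' from hv)]

theorem exists_isom {Q : Matrix n n ℂ} (h : Qᴴ = Q) (h2 : Q * Q = Q) :
    ∃ (k : Type) (_ : Fintype k) (_ : DecidableEq k) (J : Matrix n k ℂ),
      Jᴴ * J = 1 ∧ J * Jᴴ = Q := by
  obtain ⟨U, d, hU, rfl⟩ := exists_Dg (P := Q) h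
  have hd : ∀ i, d i = 0 ∨ d i = 1 := by
    intro i
    have e : ∀ f : n → ℝ, Uᴴ * Dg U f * U = diagonal fun i => (f i : ℂ) := fun f => by
      rw [Dg, ← Matrix.mul_assoc, ← Matrix.mul_assoc, hU, Matrix.one_mul, Matrix.mul_assoc, hU,
        Matrix.mul_one]
    have h3 := congrArg (fun X => (Uᴴ * X * U) i i) h2
    simp only [Dg_mul hU, e, diagonal_apply_eq, Complex.ofReal_inj] at h3
    rcases eq_or_ne (d i) 0 with h0 | h0
    · exact Or.inl h0
    · exact Or.inr (mul_left_cancel₀ h0 (h3.trans (mul_one _).symm))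
  classical
  refine ⟨{i // d i = 1}, inferInstance, inferInstance, U.submatrix id Subtype.val, ?_, ?_⟩
  · ext i j
    have := congrFun (congrFun hU i.1) j.1
    simpa [Matrix.mul_apply, one_apply, Subtype.ext_iff] using this
  · ext i j
    rw [Dg, Matrix.mul_apply, Matrix.mul_apply]
    simp only [submatrix_apply, id, conjTranspose_apply, mul_diagonal]
    rw [← Finset.sum_subtype (Finset.univ.filter fun k => d k = 1) (by simp)
      (fun k => U i k * star (U j k)), Finset.sum_filter]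
    refine Finset.sum_congr rfl fun k _ => ?_
    rcases hd k with h0 | h0 <;> simp [h0]

theorem lproj_inv {W : Submodule ℂ (n → ℂ)} {Q c : Matrix n n ℂ} (h1 : ∀ v, Q *ᵥ v ∈ W)
    (h2 : ∀ v ∈ W, Q *ᵥ v = v) (hc : ∀ v ∈ W, c *ᵥ v ∈ W) : Q * c * Q = c * Q := by
  refine Matrix.toLin'.injective (LinearMap.ext fun v => ?_)
  rw [toLin'_apply, toLin'_apply, Matrix.mul_assoc, ← mulVec_mulVec, ← mulVec_mulVec]
  exact h2 _ (hc _ (h1 v))

theorem ssm_of_perp {a : Γ → Matrix n n ℂ} (h : Perp a) : SSm a := by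
  intro W hW
  obtain ⟨Q, hQ, hQ2, h1, h2⟩ := exists_proj W
  have hc := h Q hQ hQ2 fun γ => lproj_inv h1 h2 (hW γ)
  refine ⟨LinearMap.ker (toLin' Q), fun γ v hv => ?_, ?_, ?_⟩
  · rw [LinearMap.mem_ker, toLin'_apply] at hv ⊢
    rw [mulVec_mulVec, hc, ← mulVec_mulVec, hv, mulVec_zero]
  · refine Submodule.disjoint_def.2 fun v hv hv' => ?_
    rw [LinearMap.mem_ker, toLin'_apply] at hv'
    rw [← h2 v hv, hv']
  · refine codisjoint_iff.2 (eq_top_iff.2 fun v _ => Submodule.mem_sup.2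
      ⟨Q *ᵥ v, h1 v, v - Q *ᵥ v, ?_, add_sub_cancel _ _⟩)
    rw [LinearMap.mem_ker, toLin'_apply, mulVec_sub, mulVec_mulVec, hQ2, sub_self]

theorem SpanC.perp {a : Γ → Matrix n n ℂ} (h : SpanC a) : Perp a := by
  intro Q hQ _ h1 γ
  have h2 : ∀ X ∈ Submodule.span ℂ (range a), Q * X * Q = X * Q := by
    intro X hX
    induction hX using Submodule.span_induction with
    | mem x hx => obtain ⟨γ, rfl⟩ := hx; exact h1 γ
    | zero => simp
    | add y z _ _ h1 h2 => rw [Matrix.mul_add, Matrix.add_mul, Matrix.add_mul, h1, h2]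
    | smul c y _ h1 => rw [Matrix.mul_smul, Matrix.smul_mul, Matrix.smul_mul, h1]
  have h3 := congrArg conjTranspose (h2 _ (h γ))
  simp only [conjTranspose_mul, conjTranspose_conjTranspose, hQ] at h3
  rw [← h3, ← Matrix.mul_assoc, h1]

theorem SpanC.com_star {a : Γ → Matrix n n ℂ} (h : SpanC a) {c : Matrix n n ℂ} (hc : c ∈ Com a) :
    cᴴ ∈ Com a := by
  intro γ
  have h2 : ∀ X ∈ Submodule.span ℂ (range a), c * X = X * c := by
    intro X hX
    induction hX using Submodule.span_induction with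
    | mem x hx => obtain ⟨γ, rfl⟩ := hx; exact hc γ
    | zero => simp
    | add y z _ _ h1 h2 => rw [Matrix.mul_add, Matrix.add_mul, h1, h2]
    | smul c y _ h1 => rw [Matrix.mul_smul, Matrix.smul_mul, h1]
  have h3 := congrArg conjTranspose (h2 _ (h γ))
  simp only [conjTranspose_mul, conjTranspose_conjTranspose] at h3
  exact h3.symm

/-- a matrix as a vector -/
def lproj_vec : Matrix n n ℂ ≃ₗ[ℂ] (n × n → ℂ) where
  toFun X p := X p.1 p.2
  invFun v := Matrix.of fun i j => v (i, j)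
  map_add' _ _ := rfl
  map_smul' _ _ := rfl
  left_inv _ := rfl
  right_inv _ := rfl

theorem lproj_kron (a X : Matrix n n ℂ) :
    (a ⊗ₖ (1 : Matrix n n ℂ)) *ᵥ lproj_vec X = lproj_vec (a * X) := by
  ext ⟨i, j⟩
  simp [lproj_vec, mulVec, dotProduct, Fintype.sum_prod_type, Matrix.mul_apply, one_apply]

theorem lproj_mul [Monoid Γ] (a : Γ →* Matrix n n ℂ) {X Y : Matrix n n ℂ}
    (hX : X ∈ Submodule.span ℂ (range a)) (hY : Y ∈ Submodule.span ℂ (range a)) :
    X * Y ∈ Submodule.span ℂ (range a) := by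
  induction hX using Submodule.span_induction with
  | mem x hx =>
    obtain ⟨γ, rfl⟩ := hx
    induction hY using Submodule.span_induction with
    | mem y hy =>
      obtain ⟨γ', rfl⟩ := hy
      exact Submodule.subset_span ⟨γ * γ', map_mul a _ _⟩
    | zero => simp
    | add y z _ _ h1 h2 => rw [Matrix.mul_add]; exact Submodule.add_mem _ h1 h2
    | smul c y _ h1 => rw [Matrix.mul_smul]; exact Submodule.smul_mem _ c h1
  | zero => simp
  | add y z _ _ h1 h2 => rw [Matrix.add_mul]; exact Submodule.add_mem _ h1 h2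
  | smul c y _ h1 => rw [Matrix.smul_mul]; exact Submodule.smul_mem _ c h1

theorem spanC_of_perp [Monoid Γ] (a : Γ →* Matrix n n ℂ)
    (h : Perp fun γ => a γ ⊗ₖ (1 : Matrix n n ℂ)) : SpanC a := by
  intro γ
  obtain ⟨Q, hQ, hQ2, h1, h2⟩ := exists_proj
    ((Submodule.span ℂ (range a)).map (lproj_vec (n := n)).toLinearMap)
  have hc := h Q hQ hQ2 (fun γ => lproj_inv h1 h2 fun v hv => by
    obtain ⟨X, hX, rfl⟩ := hv
    exact ⟨a γ * X, lproj_mul a (Submodule.subset_span ⟨γ, rfl⟩) hX, (lproj_kron _ _).symm⟩) γ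
  have h3 := congrArg conjTranspose hc
  simp only [conjTranspose_mul, hQ, conjTranspose_kronecker, conjTranspose_one] at h3
  have h4 : Q *ᵥ lproj_vec (1 : Matrix n n ℂ) = lproj_vec 1 :=
    h2 _ ⟨1, Submodule.subset_span ⟨1, map_one a⟩, rfl⟩
  have h5 : lproj_vec (a γ)ᴴ = Q *ᵥ (((a γ)ᴴ ⊗ₖ (1 : Matrix n n ℂ)) *ᵥ lproj_vec 1) := by
    rw [mulVec_mulVec, ← h3, ← mulVec_mulVec, h4, lproj_kron, Matrix.mul_one]
  obtain ⟨X, hX, hX'⟩ := h1 (((a γ)ᴴ ⊗ₖ (1 : Matrix n n ℂ)) *ᵥ lproj_vec 1)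
  rw [← h5] at hX'
  exact lproj_vec.injective hX' ▸ hX

theorem spanC_lift {α : Type} (v : α → Matrix n n ℂ)
    (h : ∀ x, (v x)ᴴ ∈ Submodule.span ℂ (range (FreeMonoid.lift v))) :
    SpanC (FreeMonoid.lift v) := by
  intro w
  induction w using FreeMonoid.inductionOn' with
  | one =>
    rw [map_one, conjTranspose_one]
    exact Submodule.subset_span ⟨1, map_one _⟩
  | of_mul x w ih =>
    rw [map_mul, conjTranspose_mul, FreeMonoid.lift_eval_of]
    exact lproj_mul _ ih (h x)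

end Pool.Agent.PW.L
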