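import Pool.Agent.P.MP_65ad7c_ag.LDenC0

open Matrix Filter Topology Set
open scoped ComplexOrder Kronecker

noncomputable section
namespace Pool.Agent.PW.L

variable {n m : Type} [Fintype n] [DecidableEq n] [Fintype m] [DecidableEq m]
  {r : ℕ} {G : Subgroup (GL (Fin r) ℂ)} {Γ : Type}

theorem dens_red (A : Type) [CommRing A] [IsReduced A] [Algebra ℂ A] [Algebra.FiniteType ℂ A]
    (e : A) (φ : A →ₐ[ℂ] ℂ) (h : ∀ o, o * e = 0 → φ o = 0) :
    ∃ (U : Ultrafilter ℕ) (ψ : ℕ → A →ₐ[ℂ] ℂ),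
      (∀ k, ψ k e ≠ 0) ∧ ∀ x, Tendsto (fun k => ψ k x) U (𝓝 (φ x)) := by
  let J : Ideal A := LinearMap.ker (LinearMap.mulRight A e)
  have hJ : ∀ o, o ∈ J ↔ o * e = 0 := fun o => Iff.rfl
  have hp : (RingHom.ker φ).IsPrime := RingHom.ker_isPrime φ
  obtain ⟨q, hq, hqφ⟩ := Ideal.exists_minimalPrimes_le (I := J) (J := RingHom.ker φ)
    fun o ho => h o ((hJ o).1 ho)
  have hqp : q.IsPrime := hq.1.1
  have he : e ∉ q := fun he => by
    obtain ⟨y, hy, hy'⟩ := Ideal.exists_mul_mem_of_mem_minimalPrimes hq he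
    refine hy ((hJ y).2 (IsNilpotent.eq_zero ⟨2, ?_⟩))
    have := (hJ _).1 hy'
    linear_combination y * this
  obtain ⟨U, ψ, h1, h2⟩ := dens_prime (A ⧸ q) (e := Ideal.Quotient.mk q e)
    (fun h0 => he (Ideal.Quotient.eq_zero_iff_mem.1 h0))
    (Ideal.Quotient.liftₐ q φ fun a ha => hqφ ha)
  exact ⟨U, fun k => (ψ k).comp (Ideal.Quotient.mkₐ ℂ q), h1, fun x => h2 (Ideal.Quotient.mk q x)⟩

end Pool.Agent.PW.L
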