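import Pool.Agent.P.MP_65ad7c_ag.SBase

/-! Null-homotopic maps; maps from a locally exact complex to an injective complex. -/

open TopologicalSpace

set_option backward.isDefEq.respectTransparency false

noncomputable section
namespace Pool.Agent.PW.S

variable {Y Z Z' : Type} [TopologicalSpace Y] [TopologicalSpace Z] [TopologicalSpace Z']

namespace CMap
variable {A B C : Cx Y}

theorem Null.congr {u v : CMap A B} (hu : u.Null)
    (h : ∀ n V s, (v.f n).app V s = (u.f n).app V s) : v.Null := by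
  obtain ⟨k, h0, h1⟩ := hu
  exact ⟨k, fun V s => (h 0 V s).trans (h0 V s), fun n V s => (h _ V s).trans (h1 n V s)⟩

theorem null_of_zero {u : CMap A B} (h : ∀ n V s, (u.f n).app V s = 0) : u.Null :=
  ⟨fun _ => 0, fun V s => by simp [h], fun n V s => by simp [h]⟩

theorem Null.add {u v : CMap A B} (hu : u.Null) (hv : v.Null) : (u + v).Null := by
  obtain ⟨k, h0, h1⟩ := hu
  obtain ⟨k', h0', h1'⟩ := hv
  refine ⟨fun n => k n + k' n, fun V s => by simp [h0, h0'], fun n V s => ?_⟩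
  simp only [add_app, Mor.add_app, h1, h1', map_add]
  abel

theorem Null.sub {u v : CMap A B} (hu : u.Null) (hv : v.Null) : (u - v).Null := by
  obtain ⟨k, h0, h1⟩ := hu
  obtain ⟨k', h0', h1'⟩ := hv
  refine ⟨fun n => k n - k' n, fun V s => by simp [h0, h0'], fun n V s => ?_⟩
  simp only [sub_app, Mor.sub_app, h1, h1', map_sub]
  abel

theorem Null.smul {u : CMap A B} (c : ℂ) (hu : u.Null) : (c • u).Null := by
  obtain ⟨k, h0, h1⟩ := hu
  exact ⟨fun n => c • k n, fun V s => by simp [h0], fun n V s => by simp [h1]⟩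

theorem Null.comp_left {u : CMap A B} (hu : u.Null) (v : CMap B C) : (v.comp u).Null := by
  obtain ⟨k, h0, h1⟩ := hu
  exact ⟨fun n => (v.f n).comp (k n), fun V s => by simp [h0], fun n V s => by simp [h1, v.comm]⟩

theorem Null.comp_right {v : CMap B C} (hv : v.Null) (u : CMap A B) : (v.comp u).Null := by
  obtain ⟨k, h0, h1⟩ := hv
  exact ⟨fun n => (k n).comp (u.f (n + 1)), fun V s => by simp [h0, u.comm],
    fun n V s => by simp [h1, u.comm]⟩

theorem Null.comap {u : CMap A B} (hu : u.Null) (φ : Opens Z → Opens Y) (hφ : Monotone φ) :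
    (u.comap φ hφ).Null := by
  obtain ⟨k, h0, h1⟩ := hu
  exact ⟨fun n => (k n).comap φ hφ, fun V s => h0 (φ V) s, fun n V s => h1 n (φ V) s⟩

/-- a null-homotopic map sends cocycles to boundaries -/
theorem Null.bd {u : CMap A B} (hu : u.Null) {n : ℕ} {V : Opens Y} (z : (A.X n).obj V)
    (hz : (A.d n).app V z = 0) : (u.f n).app V z ∈ B.Bd n V := by
  obtain ⟨k, h0, h1⟩ := hu
  cases n with
  | zero => exact (Submodule.mem_bot ℂ).2 (by rw [h0, hz, map_zero])
  | succ n => exact ⟨(k n).app V z, by rw [h1, hz, map_zero, add_zero]⟩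

theorem map_bd (u : CMap A B) {n : ℕ} {V : Opens Y} {z : (A.X n).obj V} (hz : z ∈ A.Bd n V) :
    (u.f n).app V z ∈ B.Bd n V := by
  cases n with
  | zero => exact (Submodule.mem_bot ℂ).2 (by rw [(Submodule.mem_bot ℂ).1 hz, map_zero])
  | succ n =>
    obtain ⟨b, rfl⟩ := hz
    exact ⟨_, u.comm n V b⟩

theorem map_cocycle (u : CMap A B) {n : ℕ} {V : Opens Y} {z : (A.X n).obj V}
    (hz : (A.d n).app V z = 0) : (B.d n).app V ((u.f n).app V z) = 0 := by
  rw [u.comm, hz, map_zero]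

end CMap

theorem Cx.d_bd (A : Cx Y) {n : ℕ} {V : Opens Y} {z : (A.X n).obj V} (hz : z ∈ A.Bd n V) :
    (A.d n).app V z = 0 := by
  cases n with
  | zero => rw [(Submodule.mem_bot ℂ).1 hz, map_zero]
  | succ n =>
    obtain ⟨b, rfl⟩ := hz
    exact A.dd n V b

theorem Cx.res_bd (A : Cx Y) {n : ℕ} {V W : Opens Y} (h : W ≤ V) {z : (A.X n).obj V}
    (hz : z ∈ A.Bd n V) : (A.X n).res h z ∈ A.Bd n W := by
  cases n with
  | zero => exact (Submodule.mem_bot ℂ).2 (by rw [(Submodule.mem_bot ℂ).1 hz, map_zero])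
  | succ n =>
    obtain ⟨b, rfl⟩ := hz
    exact ⟨_, ((A.d n).nat h b).symm⟩

theorem Cx.res_cocycle (A : Cx Y) {n : ℕ} {V W : Opens Y} (h : W ≤ V) {z : (A.X n).obj V}
    (hz : (A.d n).app V z = 0) : (A.d n).app W ((A.X n).res h z) = 0 := by
  rw [← (A.d n).nat, hz, map_zero]

theorem Cx.comap_bd (A : Cx Y) (φ : Opens Z → Opens Y) (hφ : Monotone φ) (n : ℕ) (V : Opens Z) :
    (A.comap φ hφ).Bd n V = A.Bd n (φ V) := by
  cases n <;> rfl

theorem snull_ext {O : Set Y} {C : Cx Y} {I : PS Y} {n : ℕ} (hC : ∀ x ∈ O, C.ExAt x n)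
    (hI : Inj O I) (g : Mor (C.X n) I) (hg : ∀ V, ∀ z ∈ C.Bd n V, g.app V z = 0) :
    ∃ k : Mor (C.X (n + 1)) I, ∀ V s, k.app V ((C.d n).app V s) = g.app V s := by
  refine hI _ _ (C.d n) g ?_
  rintro x hx V - a ⟨W, hW, hxW, h0⟩
  obtain ⟨W', hW', hxW', h1⟩ := hC x hx W hxW ((C.X n).res hW a) (by rw [← (C.d n).nat, h0])
  refine ⟨W', hW'.trans hW, hxW', ?_⟩
  rw [g.nat, ← (C.X n).res_res hW hW', hg _ _ h1]

theorem snull_main {O : Set Y} {C I : Cx Y} (good : ℕ → Prop) (g0 : good 0)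
    (gs : ∀ n, good (n + 1) → good n) (hC : ∀ x ∈ O, ∀ n, good n → C.ExAt x n)
    (hI : CInj O I) (φ : CMap C I) :
    ∃ k : ∀ n, Mor (C.X (n + 1)) (I.X n),
      (∀ V s, (φ.f 0).app V s = (k 0).app V ((C.d 0).app V s)) ∧
      ∀ n, good (n + 1) → ∀ V s, (φ.f (n + 1)).app V s =
        (I.d n).app V ((k n).app V s) + (k (n + 1)).app V ((C.d (n + 1)).app V s) := by
  obtain ⟨k0, hk0⟩ := snull_ext (fun x hx => hC x hx 0 g0) (hI 0) (φ.f 0) fun V z hz => by
    rw [(Submodule.mem_bot ℂ).1 hz, map_zero]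
  have step : ∀ (n : ℕ) (k : Mor (C.X (n + 1)) (I.X n)), ∃ k' : Mor (C.X (n + 2)) (I.X (n + 1)),
      good (n + 1) → (∀ V b, (I.d n).app V ((φ.f n).app V b - k.app V ((C.d n).app V b)) = 0) →
        ∀ V s, (φ.f (n + 1)).app V s =
          (I.d n).app V (k.app V s) + k'.app V ((C.d (n + 1)).app V s) := fun n k => by
    by_cases h : good (n + 1) ∧
      ∀ V b, (I.d n).app V ((φ.f n).app V b - k.app V ((C.d n).app V b)) = 0
    · obtain ⟨k', hk'⟩ := snull_ext (fun x hx => hC x hx _ h.1) (hI (n + 1))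
        (φ.f (n + 1) - (I.d n).comp k) (by
          rintro V _ ⟨b, rfl⟩
          rw [Mor.sub_app, Mor.comp_app, ← φ.comm, ← map_sub, h.2])
      refine ⟨k', fun _ _ V s => ?_⟩
      rw [hk', Mor.sub_app, Mor.comp_app, add_sub_cancel]
    · exact ⟨0, fun h1 h2 => absurd ⟨h1, h2⟩ h⟩
  choose st hst using step
  let k : ∀ n, Mor (C.X (n + 1)) (I.X n) := fun n => Nat.rec k0 st n
  have inv : ∀ n, good n →
      ∀ V b, (I.d n).app V ((φ.f n).app V b - (k n).app V ((C.d n).app V b)) = 0 := by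
    intro n
    induction n with
    | zero =>
      intro _ V b
      rw [show (k 0).app V ((C.d 0).app V b) = _ from hk0 V b, sub_self, map_zero]
    | succ n ih =>
      intro hn V b
      rw [hst n (k n) hn (ih (gs n hn)) V b]
      show (I.d (n + 1)).app V (_ + (k (n + 1)).app V _ - _) = 0
      rw [add_sub_cancel_right, I.dd]
  exact ⟨k, fun V s => (hk0 V s).symm, fun n hn => hst n (k n) hn (inv n (gs n hn))⟩

/-- H0, bounded form: `C` locally exact in degrees `≤ a` -/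
theorem h0_le {O : Set Y} {C I : Cx Y} (a : ℕ) (hC : ∀ x ∈ O, ∀ n ≤ a, C.ExAt x n)
    (hI : CInj O I) (φ : CMap C I) :
    ∃ k : ∀ n, Mor (C.X (n + 1)) (I.X n),
      (∀ V s, (φ.f 0).app V s = (k 0).app V ((C.d 0).app V s)) ∧
      ∀ n, n + 1 ≤ a → ∀ V s, (φ.f (n + 1)).app V s =
        (I.d n).app V ((k n).app V s) + (k (n + 1)).app V ((C.d (n + 1)).app V s) :=
  snull_main (· ≤ a) (Nat.zero_le a) (fun _ h => Nat.le_of_succ_le h) hC hI φ

/-- H0: `C` locally exact in all degrees -/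
theorem h0 {O : Set Y} {C I : Cx Y} (hC : ∀ x ∈ O, ∀ n, C.ExAt x n) (hI : CInj O I)
    (φ : CMap C I) : φ.Null := by
  obtain ⟨k, h1, h2⟩ := snull_main (fun _ => True) trivial (fun _ _ => trivial)
    (fun x hx n _ => hC x hx n) hI φ
  exact ⟨k, h1, fun n => h2 n trivial⟩

end Pool.Agent.PW.S
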