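import Pool.Agent.P.MP_65ad7c_ag.SBrI
import Pool.Agent.P.MP_65ad7c_ag.SNull

/-! The axioms and homotopies in elementary form. -/

open CategoryTheory TopologicalSpace Opposite Pool.Agent.HT

set_option backward.isDefEq.respectTransparency false

noncomputable section
namespace Pool.Agent.PW.S

variable {Y : Type} [TopologicalSpace Y]

theorem sbra_d00 (I : PCx Y) (V : Opens Y) : dv I 0 0 V = 0 := by
  show ((I.d 0 0).app (op V)).hom = 0
  rw [I.shape 0 0 (by simp)]
  rfl

theorem toCx_bd (I : PCx Y) (j : ℕ) (V : Opens Y) :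
    (toCx I).Bd j V = LinearMap.range (dv I (j - 1) j V) := by
  cases j with
  | zero =>
    show (⊥ : Submodule ℂ ((I.X 0).obj (op V))) = LinearMap.range (dv I 0 0 V)
    rw [sbra_d00, LinearMap.range_zero]
  | succ j => rfl

theorem null_of_homotopy {I J : PCx Y} {f g : I ⟶ J} (h : Homotopy f g) :
    (toCMap f - toCMap g).Null := by
  refine ⟨fun n => toMor (h.hom (n + 1) n), fun V s => ?_, fun n V s => ?_⟩
  · have e := h.comm 0
    rw [Homotopy.dNext_cochainComplex, Homotopy.prevD_zero_cochainComplex, add_zero] at e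
    have e' := congrArg (fun u : I.X 0 ⟶ J.X 0 => (u.app (op V)).hom s) e
    exact sub_eq_iff_eq_add.2 e'
  · have e := h.comm (n + 1)
    rw [Homotopy.dNext_cochainComplex, Homotopy.prevD_succ_cochainComplex,
      add_comm (I.d (n + 1) (n + 1 + 1) ≫ _)] at e
    have e' := congrArg (fun u : I.X (n + 1) ⟶ J.X (n + 1) => (u.app (op V)).hom s) e
    exact sub_eq_iff_eq_add.2 e'

theorem exAt_gam_of_near {I : PCx Y} {O : Opens Y} {x : Y} {n : ℕ} (h : ExactNear I O x n) :
    ((toCx I).gam O).ExAt x n := by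
  intro V hx c hc
  obtain ⟨W, hW, hxW, b, hb, e⟩ := h V hx c.1 (congrArg Subtype.val hc) c.2
  refine ⟨W, hW, hxW, ?_⟩
  cases n with
  | zero =>
    have e' : dv I 0 0 W b = rs _ hW c.1 := e
    rw [sbra_d00] at e'
    exact Subtype.ext e'.symm
  | succ n => exact ⟨⟨b, hb⟩, Subtype.ext e⟩

theorem exAt_of_near {I : PCx Y} (hI : CInj Set.univ (toCx I)) {x : Y} {n : ℕ}
    (h : ExactNear I ⊥ x n) : (toCx I).ExAt x n := by
  intro V hx c hc
  obtain ⟨W, hW, hxW, b, -, e⟩ := h V hx c hc ((hI n).eq_zero_of_bot inf_le_right _)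
  refine ⟨W, hW, hxW, ?_⟩
  rw [toCx_bd]
  exact ⟨b, e⟩

theorem ax_of_isIC {U : ℕ → Opens Y} {I : PCx Y} {one : (I.X 0).obj (op (U 0))}
    (h : IsIC U I one) : AX U (toCx I) one := by
  have hI : CInj Set.univ (toCx I) := fun n =>
    inj_of_injective (I.X n) (h.inj n).choose (h.inj n).choose_spec
  exact ⟨hI, h.closed, h.ne, fun x V hV hx c hc => h.gen V hV x hx c hc,
    fun k x hx n hn => exAt_of_near hI (h.supp k x hx n hn),
    fun k x hx n hn => exAt_gam_of_near (h.cosupp k x hx n hn)⟩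

/-- `p i` is the identity on cocycles up to boundaries -/
theorem split_bd {I K : PCx Y} {i : I ⟶ K} {p : K ⟶ I} (h : Homotopy (i ≫ p) (𝟙 I)) (n : ℕ)
    (V : Opens Y) (z : ((toCx I).X n).obj V) (hz : ((toCx I).d n).app V z = 0) :
    ((toCMap p).f n).app V (((toCMap i).f n).app V z) - z ∈ (toCx I).Bd n V :=
  (null_of_homotopy h).bd z hz

end Pool.Agent.PW.S
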