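import Pool.Agent.P.MP_65ad7c_ag.HMain

/-! Purity of all graded pieces of the weight filtration. -/

open Set
open Complex (I)
open scoped ContDiff ComplexConjugate

noncomputable section
namespace Pool.Agent.HT

namespace KD
variable {T : Type} [AddCommGroup T] [Module ℂ T] (K : KD T)

theorem span_two {N c b b' : ℕ} (hN : b' ≤ N + 1 - (c + b)) {y : T} (hy : y ∈ K.Deg N ⊓ K.Col c)
    (hD : K.D y = 0) :
    ∃ f ∈ K.Deg N ⊓ K.Col c ⊓ K.F b, ∃ f' ∈ K.Deg N ⊓ K.Col c ⊓ K.Fb b', ∃ z,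
      K.D f = 0 ∧ K.D f' = 0 ∧ y - f - f' - K.D z ∈ K.Col (c + 1) := by
  by_cases hc : N < c
  · refine ⟨0, Submodule.zero_mem _, 0, Submodule.zero_mem _, 0, map_zero _, map_zero _, ?_⟩
    rw [BG.eq_zero_of_lt hy.1 hy.2 hc]
    simp
  obtain ⟨n, rfl⟩ : ∃ n, N = c + n := ⟨N - c, by omega⟩
  obtain ⟨h, hh, β, hβ⟩ := key hy.1 hy.2 (by rw [hD]; exact Submodule.zero_mem _) rfl
  have h1 : h ∈ (K.Z (c + n) c ⊓ K.F b ⊔ K.Z (c + n) c ⊓ K.Fb b') ⊔ K.Col (c + 1) := by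
    refine (Sp.le fun lam hl x hx hg => ?_) hh
    obtain ⟨t, ht, rfl⟩ := hl
    by_cases hbb : b ≤ t
    · obtain ⟨f, hf, w, hw, rfl⟩ := Submodule.mem_sup.1 (ext_one hx hg)
      exact Submodule.add_mem _
        (Submodule.mem_sup_left (Submodule.mem_sup_left ⟨hf.1, F_mono hbb hf.2⟩))
        (Submodule.mem_sup_right hw)
    · have hx' : x ∈ K.neg.X c n := ⟨⟨neg_B.2 hx.1.1, hx.1.2⟩, neg_dc.2 hx.2⟩
      have hg' : K.neg.g x = (I * (2 * ((n - t : ℕ) : ℂ) - n)) • x := by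
        change -K.g x = _
        rw [hg, ← neg_smul, Nat.cast_sub ht]
        congr 1
        ring
      obtain ⟨f, hf, w, hw, rfl⟩ := Submodule.mem_sup.1 (ext_one hx' hg')
      exact Submodule.add_mem _ (Submodule.mem_sup_left (Submodule.mem_sup_right
        ⟨hf.1, F_mono (K := K.neg) (by omega) hf.2⟩)) (Submodule.mem_sup_right hw)
  obtain ⟨f₀, hf₀, w, hw, rfl⟩ := Submodule.mem_sup.1 h1
  obtain ⟨f, hf, f', hf', rfl⟩ := Submodule.mem_sup.1 hf₀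
  refine ⟨f, ⟨hf.1.1, hf.2⟩, f', ⟨hf'.1.1, hf'.2⟩, β, hf.1.2, hf'.1.2, ?_⟩
  have h2 : y - f - f' - K.D β = (y - (f + f' + w) - K.D β) + w := by abel
  rw [h2]
  exact Submodule.add_mem _ hβ hw

theorem disj_two {N c b b' : ℕ} (hN : N + 1 ≤ c + b + b') {x x' : T} (hx : x ∈ K.Deg N)
    (hx' : x' ∈ K.Deg N) (hD : K.D x = 0) (hD' : K.D x' = 0)
    (h1 : ∃ z, x - K.D z ∈ K.Col c) (h2 : ∃ z, x - K.D z ∈ K.F b)
    (h1' : ∃ z, x' - K.D z ∈ K.Col c) (h2' : ∃ z, x' - K.D z ∈ K.Fb b')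
    (h3 : ∃ z, x - x' - K.D z ∈ K.Col (c + 1)) : ∃ z, x - K.D z ∈ K.Col (c + 1) := by
  obtain ⟨z, hz⟩ := strict c hx hD h1 h2
  obtain ⟨z', hz'⟩ := strict (K := K.neg) c hx' hD' h1' h2'
  obtain ⟨z₃, hz₃⟩ := h3
  by_cases hc : N < c
  · have e := BG.eq_zero_of_lt hz.1.1.1 hz.1.1.2 hc
    exact ⟨z, by rw [e]; exact Submodule.zero_mem _⟩
  obtain ⟨n, hn⟩ : ∃ n, c + n = N := ⟨N - c, by omega⟩
  obtain ⟨h', hh', β', -, e'⟩ := low (K := K.neg) hz' n
  have e'' : K.e c n (x' - K.D z') = h' + K.d β' := e'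
  have hcol : x' - K.D z' ∈ K.Col c := hz'.1.1.2
  have e : K.D (z₃ - z + z') = (x - K.D z) - (x' - K.D z') - (x - x' - K.D z₃) := by
    rw [map_add, map_sub]
    abel
  obtain ⟨u, hu, v, huv⟩ := degen (z := z₃ - z + z') (c := c) (by
    rw [e]
    exact Submodule.sub_mem _ (Submodule.sub_mem _ hz.1.1.2 hcol) (BG.col_mono (by omega) hz₃)) n
  rw [e, map_sub, K.mem_Col.1 hz₃ c (by omega), sub_zero, map_sub, e''] at huv
  have hs : h' ∈ Sp K.g (GE (2 * (b : ℝ) - n))ᶜ ⊤ := by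
    refine Sp.mono ?_ le_rfl (Sp.neg (g := K.g) hh'.2)
    intro lam hl h''
    have hl' : 2 * (b' : ℝ) - n ≤ (-lam).im := hl
    have hb : (n : ℝ) + 1 ≤ b + b' := by exact_mod_cast (by omega : n + 1 ≤ b + b')
    rw [mem_GE] at h''
    rw [Complex.neg_im] at hl'
    linarith
  obtain ⟨w, -, h⟩ := step (v := v + β') hz hn (neg_B.1 hh'.1.1) hs hu (by
    rw [map_add]
    linear_combination (norm := module) huv)
  exact ⟨z + w, by rwa [map_add, ← sub_sub]⟩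

end KD

variable {N d n : ℕ} {ι : Type} {Z : Set (Amb N)} {D : ι → Set (Amb N)}

/-- `Gr^W = F^b + conj F^b'` -/
theorem two_span [Finite ι] (h₀ : IsSNC d Z D) {c b b' : ℕ} (hn : b' ≤ n + 1 - (c + b))
    {α : Om Z n} (hα : α ∈ Cc Z D n ⊓ col Z D c n) :
    ∃ f ∈ Cc Z D n ⊓ col Z D c n ⊓ Fil Z D b n, ∃ f' ∈ Cc Z D n ⊓ col Z D c n ⊓ Fil Z D b' n,
      ∃ r ∈ Cc Z D n ⊓ col Z D (c + 1) n, α = f + Om.conj Z n f' + r := by
  have h := h₀.geo
  obtain ⟨K, hK, hF, -, hc⟩ := exists_KD h.good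
  obtain ⟨z, hz⟩ := mem_col.1 hα.2
  obtain ⟨w, hw⟩ := (totBG Z D).tr_D_ex2 n z
  have e : (totBG Z D).tr n (inc Z D n α - Dt Z D z) = inc Z D n α - Dt Z D w := by
    rw [map_sub, BG.tr_of_mem _ (inc_mem_Deg α), ← totBG_D, hw, totBG_D]
  have hy : inc Z D n α - Dt Z D w ∈ K.Deg n ⊓ K.Col c := by
    rw [hK, ← e]
    exact ⟨BG.tr_mem _ _ _, BG.tr_mem_Col _ _ hz⟩
  have hD : K.D (inc Z D n α - Dt Z D w) = 0 := by
    rw [hK, map_sub, ← totBG_D w, BG.DD, totBG_D, Cc.Dt_inc hα.1, sub_zero]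
  obtain ⟨x, hx, x', hx', u, h1, h2, h3⟩ := K.span_two hn hy hD
  rw [hK] at hx hx' h1 h2 h3
  obtain ⟨a, ha, v, hv⟩ := h.lift hx.1.1 h1
  obtain ⟨a', ha', v', hv'⟩ := h.lift (totConj_mem_Deg hx'.1.1)
    (by rw [← totConj_Dt, ← totBG_D, h2, map_zero])
  have e' : inc Z D n (Om.conj Z n a') - Dt Z D (totConj Z D v') = x' := by
    rw [← totConj_sub_Dt, hv', totConj_conj]
  refine ⟨a, ⟨⟨ha, mem_col.2 ⟨v, hv ▸ hx.1.2⟩⟩, (hF _ _ _).2 ⟨v, hv ▸ hx.2⟩⟩,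
    a', ⟨⟨ha', mem_col.2 ⟨v', hv' ▸ totConj_mem_Col hx'.1.2⟩⟩, (hF _ _ _).2 ⟨v', hv' ▸ hc _ _ hx'.2⟩⟩,
    α - a - Om.conj Z n a', ⟨sub_mem (sub_mem hα.1 ha) (Cc.conj_mem ha'),
      mem_col.2 ⟨w - v - totConj Z D v' + u, ?_⟩⟩, by abel⟩
  have e2 : inc Z D n (α - a - Om.conj Z n a') - Dt Z D (w - v - totConj Z D v' + u) =
      inc Z D n α - Dt Z D w - x - x' - (totBG Z D).D u := by
    rw [← hv, ← e']
    simp only [← totBG_D, map_sub, map_add]
    abel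
  rwa [e2]

/-- `F^b ∩ conj F^b' = 0` on `Gr^W` -/
theorem two_disj [Finite ι] (h : IsSNC d Z D) {c b b' : ℕ} (hn : n + 1 ≤ c + b + b')
    {f f' : Om Z n} (hf : f ∈ Cc Z D n ⊓ col Z D c n ⊓ Fil Z D b n)
    (hf' : f' ∈ Cc Z D n ⊓ col Z D c n ⊓ Fil Z D b' n)
    (hff : f - Om.conj Z n f' ∈ col Z D (c + 1) n) : f ∈ col Z D (c + 1) n := by
  obtain ⟨K, hK, hF, hc, -⟩ := exists_KD h.geo.good
  have := K.disj_two (x := inc Z D n f) (x' := inc Z D n (Om.conj Z n f')) hn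
  rw [hK] at this
  refine mem_col.2 (this (inc_mem_Deg _) (inc_mem_Deg _) (Cc.Dt_inc hf.1.1)
    (Cc.Dt_inc (Cc.conj_mem hf'.1.1)) (mem_col.1 hf.1.2) ((hF _ _ _).1 hf.2)
    (mem_col.1 (col_conj hf'.1.2)) ?_ ?_)
  · obtain ⟨z, hz⟩ := (hF _ _ _).1 hf'.2
    exact ⟨totConj Z D z, totConj_sub_Dt f' z ▸ hc _ _ hz⟩
  · rw [← map_sub]
    exact mem_col.1 hff

/-- if the rows are exact, a cochain whose differential is in column `0` can be moved there -/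
theorem BG.to_col0' {T : Type} [AddCommGroup T] [Module ℂ T] (B : BG T)
    (row : ∀ p n x, B.δ (B.e (p + 1) n x) = 0 → ∃ b, B.e (p + 1) n x = B.δ b)
    {N : ℕ} {y : T} (hy : y ∈ B.Deg N) (hD : ∀ p n, B.e (p + 1) n (B.D y) = 0) :
    ∃ z, y - B.D z ∈ B.H 0 N := by
  have key : ∀ k, ∀ y ∈ B.Deg N, (∀ p n, B.e (p + 1) n (B.D y) = 0) →
      (∀ p n, k < p → B.e p n y = 0) → ∃ z, y - B.D z ∈ B.H 0 N := by
    intro k
    induction k with
    | zero =>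
      intro y hy _ h
      refine ⟨0, B.mem_H.2 (B.ext' fun p n => ?_)⟩
      rw [map_zero, sub_zero, BG.e_e]
      split_ifs with h'
      · rfl
      · by_cases hp : p = 0
        · exact (B.mem_Deg.1 hy p n (by omega)).symm
        · exact (h p n (by omega)).symm
    | succ k ih =>
      intro y hy hD h
      by_cases hk : N < k + 1
      · exact ih y hy hD fun p n hp => B.mem_Deg.1 hy p n (by omega)
      obtain ⟨n, hn⟩ : ∃ n, k + 1 + n = N := ⟨N - (k + 1), by omega⟩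
      have h1 : B.δ (B.e (k + 1) n y) = 0 := by
        have h2 : B.e (k + 2) n (B.D y) = 0 := hD _ _
        rw [BG.D_apply, map_add, B.eδ] at h2
        cases n with
        | zero => rwa [B.ed0, zero_add] at h2
        | succ n => rwa [B.ed, h _ _ (by omega), map_zero, zero_add] at h2
      obtain ⟨b, hb⟩ := row k n y h1
      have hb' : B.δ (B.e k n b) = B.e (k + 1) n y := by rw [← B.eδ, ← hb, B.ee]
      have hdeg : B.D (B.e k n b) ∈ B.Deg N :=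
        (by omega : k + n + 1 = N) ▸ BG.D_mem_deg (BG.deg_of_H (B.e_mem k n b) rfl)
      obtain ⟨z, hz⟩ := ih (y - B.D (B.e k n b)) (Submodule.sub_mem _ hy hdeg)
        (by rw [map_sub, BG.DD, sub_zero]; exact hD) fun p m hp => by
          rw [map_sub, BG.D_apply, map_add, hb',
            BG.e_of_H (BG.d_mem_H (B.e_mem k n b)) (by omega), zero_add, BG.e_e]
          split_ifs with h'
          · exact sub_self _
          · rw [sub_zero]
            by_cases hpk : p = k + 1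
            · exact B.mem_Deg.1 hy p m (by omega)
            · exact h p m (by omega)
      refine ⟨B.e k n b + z, ?_⟩
      rwa [map_add, ← sub_sub]
  exact key N y hy hD fun p n hp => B.mem_Deg.1 hy p n (by omega)

/-- a primitive that vanishes on the divisor can be moved away from it -/
theorem Geo.unsquash [Finite ι] (h : Geo d Z D) (a : Om Z n)
    (hD : ∀ i, Om.res (h.sub i) n a = 0) (hα : Om.d Z n a ∈ Ac Z (Z \ ⋃ i, D i) (n + 1)) :
    ∃ β ∈ Ac Z (Z \ ⋃ i, D i) n, Om.d Z n β = Om.d Z n a := by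
  obtain ⟨a, rfl⟩ := Om.mk_surj a
  obtain ⟨G₀, g1, g2⟩ := h.col_all
  let G : ℝ × Amb N → Amb N := fun p => G₀ (Real.smoothTransition p.1, p.2)
  have h1 : Hty Z D G := ⟨g1.sm.comp ((Real.smoothTransition.contDiff.comp contDiff_fst).prodMk
      contDiff_snd), fun y hy => by simpa [G] using g1.zero y hy,
    fun t y hy => g1.mZ _ y hy, fun j t y hy => g1.mD j _ y hy⟩
  have h2 : ∀ i, ∀ x ∈ D i, Clp Z (D i) G x := fun i x hx => by
    simpa [G, Clp] using g2 i x hx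
  obtain ⟨K, hK, hKU, hK0⟩ := (mem_Ac (a := SF.d n a)).1 hα
  let W : Set (Amb N) := {y | ∀ t ∈ Icc (0 : ℝ) 1, G₀ (t, y) ∉ K}
  have hW : IsOpen W := isOpen_iff_eventually.2 fun y hy =>
    isCompact_Icc.eventually_forall_of_forall_eventually (P := fun y t => G₀ (t, y) ∉ K)
      fun t ht => ((g1.sm.continuous.comp continuous_swap).continuousAt (x := (y, t))).eventually
        (hK.isClosed.isOpen_compl.mem_nhds (hy t ht))
  have a1 : Om.mk Z ((SF.d n a).K G h1.sm) ∈ Ac Z (Z \ ⋃ i, D i) n := by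
    refine mem_Ac.2 ⟨Z \ W, h.compact.diff hW, sdiff_subset_sdiff_right fun y hy t _ hk => ?_,
      Nul.K hK0 h1.sm fun t y hy => ⟨h1.mZ t y hy.1, ?_⟩⟩
    · obtain ⟨i, hi⟩ := mem_iUnion.1 hy
      exact (hKU hk).2 (mem_iUnion.2 ⟨i, g1.mD i t y hi⟩)
    · exact (not_not.1 fun e => hy.2 ⟨hy.1, e⟩ : y ∈ W) _
        ⟨Real.smoothTransition.nonneg t, Real.smoothTransition.le_one t⟩
  have a2 := h.pl_mem h1 h2 fun i => (Om.mk_eq_zero (a := a)).1 (hD i)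
  refine ⟨_, sub_mem a2 a1, ?_⟩
  have a3 : SF.d (n + 1) (SF.d n a) ∈ Nul Z (n + 1 + 1) :=
    (Om.mk_eq_zero (a := SF.d (n + 1) (SF.d n a))).1 (Om.d_d Z (Om.mk Z a))
  have a4 := Nul.K a3 h1.sm h1.mZ
  have a5 := Nul.pl_sub (SF.d n a) (slice_smooth h1.sm 0) h1.zero
  have a6 : SF.d n (a.pl _ (slice_smooth h1.sm 1) - (SF.d n a).K G h1.sm) - SF.d n a ∈
      Nul Z (n + 1) := by
    convert add_mem a4 a5 using 1
    rw [map_sub, SF.d_pl, eq_sub_of_add_eq (SF.hom_succ h1.sm (SF.d n a)).symm]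
    abel
  exact Om.mk_eq_mk.2 a6

theorem col_big_eq {c : ℕ} (hc : n < c) {α : Om Z n} (h : α ∈ col Z D c n) :
    ∃ z, inc Z D n α = (totBG Z D).tr n ((totBG Z D).D z) := by
  obtain ⟨z, hz⟩ := mem_col.1 h
  have h1 := BG.eq_zero_of_lt ((totBG Z D).tr_mem n _) (BG.tr_mem_col hz n) hc
  rw [map_sub, BG.tr_of_mem _ (inc_mem_Deg α), sub_eq_zero] at h1
  exact ⟨z, h1⟩

theorem col_zero_eq {c : ℕ} (hc : 0 < c) {α : Om Z 0} (h : α ∈ col Z D c 0) : α = 0 := by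
  obtain ⟨z, hz⟩ := col_big_eq hc h
  rw [BG.tr_D_zero] at hz
  exact inc_injective (hz.trans (map_zero _).symm)

/-- a class that is trivial in the complex of strata is trivial -/
theorem col_exact [Finite ι] (h₀ : IsSNC d Z D) {c : ℕ} (hc : n + 1 < c) {α : Om Z (n + 1)}
    (hα : α ∈ Ac Z (Z \ ⋃ i, D i) (n + 1)) (h : α ∈ col Z D c (n + 1)) :
    ∃ β ∈ Ac Z (Z \ ⋃ i, D i) n, Om.d Z n β = α := by
  have hg := h₀.geo
  obtain ⟨z, hz⟩ := col_big_eq hc h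
  rw [BG.tr_D] at hz
  obtain ⟨w, hw⟩ := (totBG Z D).to_col0' (totBG_row hg.row) ((totBG Z D).tr_mem n z)
    fun p m => by rw [← hz]; exact BG.e_of_H (inc_mem_H α) (by omega)
  obtain ⟨a, ha⟩ := exists_inc_of_mem_H hw
  have h1 : (totBG Z D).D (inc Z D n a) = inc Z D (n + 1) α := by
    rw [← ha, map_sub, BG.DD, sub_zero, hz]
  have h2 : (totBG Z D).δ (inc Z D n a) = 0 := by
    have h3 := congrArg ((totBG Z D).e 1 n) h1
    rwa [BG.e_of_H (inc_mem_H α) (by omega), BG.D_apply, map_add,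
      BG.e_of_H (BG.d_mem_H (inc_mem_H a)) (by omega), zero_add,
      (totBG Z D).mem_H.1 (BG.δ_mem_H (inc_mem_H a))] at h3
  have h4 := (totδ_inc_eq_zero hg.sub).1 h2
  rw [totBG_D, Dt_inc_of_res hg.sub h4] at h1
  obtain rfl := inc_injective h1
  exact hg.unsquash a h4 hα

/-- there are no forms above the top degree -/
theorem top_zero [Finite ι] (h₀ : IsSNC d Z D) (hn : 2 * d < n) (α : Om Z n) : α = 0 := by
  classical
  have h := h₀.geo
  obtain ⟨a, rfl⟩ := Om.mk_surj α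
  obtain ⟨R, hR⟩ := Wein.exists_ret _ (h.isSubmanifold (Fin.elim0 : Fin 0 → ι)).1
    (h.isSubmanifold Fin.elim0).2
  obtain ⟨-, hr⟩ := h.plots Fin.elim0 R hR
  refine Om.mk_eq_zero.2 (Nul.anti (subset_strat_zero Z D Fin.elim0) ?_)
  rw [← hR, nul_iff]
  intro x hx v
  refine (a.1 x).toAlternatingMap.map_linearDependent _ fun hl => ?_
  let w : Fin n → LinearMap.range (R.P x : Amb N →ₗ[ℝ] Amb N) := fun i => ⟨_, v i, rfl⟩
  have h1 : LinearIndependent ℝ w := LinearIndependent.of_comp (Submodule.subtype _) hl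
  have h2 := h1.fintype_card_le_finrank
  rw [hr x hx, Fintype.card_fin] at h2
  omega

end Pool.Agent.HT
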