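import Pool.Agent.P.MP_65ad7c_ag.SFin
import Pool.Agent.P.MP_65ad7c_ag.HTwo

/-! The weight and Hodge filtrations are opposite. -/

open CategoryTheory TopologicalSpace Opposite Pool.Agent.HT

set_option backward.isDefEq.respectTransparency false

noncomputable section
namespace Pool.Agent.PW.S

variable {Y : Type} [TopologicalSpace Y]

variable {N : ℕ} {ι : Type} {d : ℕ} {Z : Set (Amb N)} {D : ι → Set (Amb N)}
  (π : C(↥(Z \ ⋃ i, D i), Y))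

theorem sht_span [Finite ι] (h : IsSNC d Z D) {U : Set (Amb N)} (hU : U = Z \ ⋃ i, D i)
    {q c b b' : ℕ} (hq : b' ≤ q + 1 - (c + b)) (α : Ac Z U q) (h1 : Om.d Z q α.1 = 0)
    (h2 : α.1 ∈ col Z D c q) :
    ∃ f f' r : Ac Z U q, α = f + f' + r ∧
      (Om.d Z q f.1 = 0 ∧ f.1 ∈ col Z D c q ∧ f.1 ∈ Fil Z D b q) ∧
      (Om.d Z q f'.1 = 0 ∧ f'.1 ∈ col Z D c q ∧ f'.1 ∈ Om.conj Z q '' Fil Z D b' q) ∧
      (Om.d Z q r.1 = 0 ∧ r.1 ∈ col Z D (c + 1) q) := by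
  subst hU
  obtain ⟨f, hf, f', hf', r, hr, e⟩ := two_span h hq (α := α.1) ⟨⟨α.2, h1⟩, h2⟩
  exact ⟨⟨f, hf.1.1.1⟩, ⟨Om.conj Z q f', Ac.conj_mem hf'.1.1.1⟩, ⟨r, hr.1.1⟩, Subtype.ext e,
    ⟨hf.1.1.2, hf.1.2, hf.2⟩, ⟨sdual_d_conj hf'.1.1.2, col_conj hf'.1.2, f', hf'.2, rfl⟩,
    hr.1.2, hr.2⟩

theorem sht_dec [Finite ι] (h : IsSNC d Z D) {U : Set (Amb N)} (hU : U = Z \ ⋃ i, D i)
    {q c b b' : ℕ} (hq : b' = q + 1 - (c + b)) (lam : Module.Dual ℂ (Ac Z U q))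
    (hl : ∀ α : Ac Z U q, Om.d Z q α.1 = 0 → α.1 ∈ col Z D (c + 1) q → lam α = 0) :
    ∃ x y w : Module.Dual ℂ (Ac Z U q), lam = x + y + w ∧
      (∀ α : Ac Z U q, Om.d Z q α.1 = 0 → α.1 ∈ col Z D (c + 1) q → x α = 0) ∧
      (∀ α : Ac Z U q, Om.d Z q α.1 = 0 → α.1 ∈ Fil Z D b q → x α = 0) ∧
      (∀ α : Ac Z U q, Om.d Z q α.1 = 0 → α.1 ∈ col Z D (c + 1) q → y α = 0) ∧
      (∀ α : Ac Z U q, Om.d Z q α.1 = 0 → α.1 ∈ Om.conj Z q '' Fil Z D b' q → y α = 0) ∧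
      ∀ α : Ac Z U q, Om.d Z q α.1 = 0 → α.1 ∈ col Z D c q → w α = 0 := by
  obtain ⟨x, y, w, e, a1, a2, b1, b2, w1⟩ := dual_dec
    (C0 := (LinearMap.ker (Om.d Z q) ⊓ col Z D c q).comap (Ac Z U q).subtype)
    (C1 := (LinearMap.ker (Om.d Z q) ⊓ col Z D (c + 1) q).comap (Ac Z U q).subtype)
    (F := (LinearMap.ker (Om.d Z q) ⊓ Fil Z D b q).comap (Ac Z U q).subtype)
    (F' := (LinearMap.ker (Om.d Z q) ⊓ (Fil Z D b' q).comap (Om.conj Z q)).comap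
      (Ac Z U q).subtype)
    (fun x hx => ⟨hx.1, col_anti (Nat.le_succ c) hx.2⟩)
    (fun x hx => by
      obtain ⟨f, f', r, rfl, hf, hf', hr⟩ := sht_span h hU hq.le x hx.1 hx.2
      obtain ⟨g, hg, hg'⟩ := hf'.2.2
      have h3 : Om.conj Z q f'.1 ∈ Fil Z D b' q := by
        rw [← hg', Om.conj_conj]
        exact hg
      exact Submodule.add_mem_sup (Submodule.add_mem_sup ⟨⟨hf.1, hf.2.1⟩, ⟨hf.1, hf.2.2⟩⟩
        ⟨⟨hf'.1, hf'.2.1⟩, ⟨hf'.1, h3⟩⟩) ⟨hr.1, hr.2⟩)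
    (fun f hf f' hf' hff => by
      subst hU
      refine ⟨hf.1.1, two_disj h (b := b) (b' := b') (by omega) (f := f.1)
        (f' := Om.conj Z q f'.1) ⟨⟨⟨f.2, hf.1.1⟩, hf.1.2⟩, hf.2.2⟩
        ⟨⟨⟨Ac.conj_mem f'.2, sdual_d_conj hf'.1.1⟩, col_conj hf'.1.2⟩, hf'.2.2⟩ ?_⟩
      rw [Om.conj_conj]
      exact hff.2)
    lam (fun x hx => hl x hx.1 hx.2)
  refine ⟨x, y, w, e, fun α h1 h2 => a1 α ⟨h1, h2⟩, fun α h1 h2 => a2 α ⟨h1, h2⟩,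
    fun α h1 h2 => b1 α ⟨h1, h2⟩, fun α h1 h2 => b2 α ⟨h1, ?_⟩, fun α h1 h2 => w1 α ⟨h1, h2⟩⟩
  obtain ⟨g, hg, hg'⟩ := h2
  have h3 : Om.conj Z q α.1 ∈ Fil Z D b' q := by
    rw [← hg', Om.conj_conj]
    exact hg
  exact h3

theorem sht_dec' [Finite ι] (h : IsSNC d Z D) {U : Set (Amb N)} (hU : U = Z \ ⋃ i, D i)
    {q j m a : ℕ} (ha : 2 * a ≤ m + 2) (hq : q + j = 2 * d) (lam : Module.Dual ℂ (Ac Z U q))
    (hl : ∀ α : Ac Z U q, Om.d Z q α.1 = 0 → α.1 ∈ col Z D (m + 1 + 1 - j) q → lam α = 0) :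
    ∃ x y w : Module.Dual ℂ (Ac Z U q), lam = x + y + w ∧
      (∀ α : Ac Z U q, Om.d Z q α.1 = 0 → α.1 ∈ col Z D (m + 1 + 1 - j) q → x α = 0) ∧
      (∀ α : Ac Z U q, Om.d Z q α.1 = 0 → α.1 ∈ Fil Z D (d + 1 - a) q → x α = 0) ∧
      (∀ α : Ac Z U q, Om.d Z q α.1 = 0 → α.1 ∈ col Z D (m + 1 + 1 - j) q → y α = 0) ∧
      (∀ α : Ac Z U q, Om.d Z q α.1 = 0 →
        α.1 ∈ Om.conj Z q '' Fil Z D (d + 1 - (m + 2 - a)) q → y α = 0) ∧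
      ∀ α : Ac Z U q, Om.d Z q α.1 = 0 → α.1 ∈ col Z D (m + 1 - j) q → w α = 0 := by
  have triv := fun h1 : col Z D (m + 1 - j) q ≤ col Z D (m + 1 + 1 - j) q =>
    fun (α : Ac Z U q) h2 h3 => hl α h2 (h1 h3)
  rcases lt_or_ge (m + 1) j with h0 | h0
  · exact ⟨0, 0, lam, by rw [add_zero, zero_add], fun _ _ _ => rfl, fun _ _ _ => rfl,
      fun _ _ _ => rfl, fun _ _ _ => rfl, triv (col_anti (by omega))⟩
  rcases lt_or_ge q (m + 1 - j) with h' | h'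
  · exact ⟨0, 0, lam, by rw [add_zero, zero_add], fun _ _ _ => rfl, fun _ _ _ => rfl,
      fun _ _ _ => rfl, fun _ _ _ => rfl, triv ((col_big h').trans (col_anti (by omega)))⟩
  have h1 : m + 1 + 1 - j = m + 1 - j + 1 := by omega
  rw [h1] at hl ⊢
  exact sht_dec h hU (by omega) lam hl

theorem wt_dec2 [Finite ι] (h : IsSNC d Z D) {j m a : ℕ} (ha : 2 * a ≤ m + 2)
    {lam : ((Kx d π).X j).obj (op ⊤)} (hl : lam ∈ Wt d π j (m + 1)) :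
    ∃ x ∈ Wt d π j (m + 1) ⊓ Hg d π j a, ∃ y ∈ Wt d π j (m + 1) ⊓ Hg' d π j (m + 2 - a),
      ∃ w ∈ Wt d π j m, lam = x + y + w := by
  choose x y w e a1 a2 b1 b2 w1 using fun q : {q // q + j = 2 * d} =>
    sht_dec' h (up_top π) ha q.2 (lam q) (hl q)
  exact ⟨x, ⟨a1, a2⟩, y, ⟨b1, b2⟩, w, w1, funext e⟩

theorem ann_pure [Finite ι] (h : IsSNC d Z D) {j c a : ℕ} (hc : c + j < 2 * a)
    {lam : ((Kx d π).X j).obj (op ⊤)} (h1 : lam ∈ ann d π j fun q => col Z D (c + 1) q)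
    (h2 : lam ∈ Hg d π j a) (h3 : lam ∈ Hg' d π j a) : lam ∈ ann d π j fun q => col Z D c q := by
  intro q α hα hc'
  obtain ⟨f, f', r, rfl, hf, hf', hr⟩ := sht_span h (up_top π) (b := d + 1 - a) (b' := d + 1 - a)
    (by have := q.2; omega) α hα hc'
  have e1 : lam q f = 0 := h2 q f hf.1 hf.2.2
  have e2 : lam q f' = 0 := h3 q f' hf'.1 hf'.2.2
  have e3 : lam q r = 0 := h1 q r hr.1 hr.2
  rw [map_add, map_add, e1, e2, e3, add_zero, add_zero]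

theorem wt_pure [Finite ι] (h : IsSNC d Z D) {j m a : ℕ} (ha : m + 1 < 2 * a)
    {lam : ((Kx d π).X j).obj (op ⊤)} (h1 : lam ∈ Wt d π j (m + 1))
    (h2 : lam ∈ Hg d π j a) (h3 : lam ∈ Hg' d π j a) : lam ∈ Wt d π j m := by
  rcases lt_or_ge (m + 1) j with h0 | h0
  · exact fun q α hα hc => h1 q α hα (col_anti (by omega) hc)
  · exact ann_pure π h (c := m + 1 - j) (by omega)
      (fun q α hα hc => h1 q α hα (col_anti (by omega) hc)) h2 h3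

theorem ann_zero_bd [Finite ι] (h : IsSNC d Z D) {j : ℕ} {lam : ((Kx d π).X j).obj (op ⊤)}
    (h1 : lam ∈ ann d π j fun q => col Z D 0 q) : lam ∈ (toCx (Kx d π)).Bd j ⊤ := by
  have h2 : ∀ q (α : Ac Z (up π ⊤) q.1), Om.d Z q.1 α.1 = 0 → lam q α = 0 := fun q α hα =>
    h1 q α hα ((col_zero (Z := Z) (D := D) (n := q.1)).ge Submodule.mem_top)
  cases j with
  | zero =>
    exact (Submodule.mem_bot ℂ).2 (funext fun q => LinearMap.ext fun α =>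
      h2 q α (top_zero h (by have := q.2; omega) _))
  | succ j =>
    have h3 : ∀ q (hq : q + (j + 1) = 2 * d), ∃ φ : Module.Dual ℂ (Ac Z (up π ⊤) (q + 1)),
        ((Om.d Z q).restrict (ac_d (up π ⊤) q)).dualMap φ = lam ⟨q, hq⟩ := fun q hq => by
      refine (?_ : lam ⟨q, hq⟩ ∈ LinearMap.range ((Om.d Z q).restrict (ac_d (up π ⊤) q)).dualMap)
      rw [LinearMap.range_dualMap_eq_dualAnnihilator_ker, Submodule.mem_dualAnnihilator]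
      exact fun α hα => h2 ⟨q, hq⟩ α (congrArg Subtype.val hα)
    choose φ hφ using h3
    let μ : ((Kx d π).X j).obj (op ⊤) := fun q : {q // q + j = 2 * d} =>
      show Module.Dual ℂ (Ac Z (up π ⊤) q.1) from match q with
      | ⟨0, _⟩ => 0
      | ⟨q + 1, hq⟩ => φ q (by omega)
    refine ⟨μ, funext fun q => LinearMap.ext fun α => (dualCx_dv j ⊤ μ q α).trans ?_⟩
    exact DFunLike.congr_fun (hφ q.1 q.2) α

theorem wt_bd [Finite ι] (h : IsSNC d Z D) {j m a : ℕ} (ha : m < 2 * a)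
    {lam : ((Kx d π).X j).obj (op ⊤)} (h1 : lam ∈ Wt d π j m)
    (h2 : lam ∈ Hg d π j a) (h3 : lam ∈ Hg' d π j a) : lam ∈ (toCx (Kx d π)).Bd j ⊤ := by
  have key : ∀ c, c ≤ m + 1 - j → lam ∈ (ann d π j fun q => col Z D c q) →
      lam ∈ ann d π j fun q => col Z D 0 q := fun c => by
    induction c with
    | zero => exact fun _ => id
    | succ c ih => exact fun hc h4 => ih (by omega) (ann_pure π h (by omega) h4 h2 h3)
  exact ann_zero_bd π h (key _ le_rfl h1)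

theorem wt_top [Finite ι] (h : IsSNC d Z D) {j m : ℕ} (hm : 2 * d ≤ m)
    {lam : ((Kx d π).X j).obj (op ⊤)} (h1 : dv (Kx d π) j (j + 1) ⊤ lam = 0) :
    lam ∈ Wt d π j m := by
  rintro ⟨q, hq⟩ α - hc
  cases q with
  | zero =>
    have : α = 0 := Subtype.ext (col_zero_eq (by omega) hc)
    rw [this, map_zero]
  | succ q =>
    obtain ⟨β, hβ, e⟩ := col_exact h (by omega) (Ac.mono Z (up_top π).le α.2) hc
    have h2 := dualCx_dv j ⊤ lam ⟨q, by omega⟩ ⟨β, Ac.mono Z (up_top π).ge hβ⟩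
    have h3 := DFunLike.congr_fun (congrFun h1 ⟨q, by omega⟩) ⟨β, Ac.mono Z (up_top π).ge hβ⟩
    exact (congrArg (lam ⟨q + 1, hq⟩) (Subtype.ext e)).symm.trans (h2.symm.trans h3)

theorem sht_gen {I K : PCx Y} {i : I ⟶ K} {p : K ⟶ I} (hsp : Homotopy (i ≫ p) (𝟙 I)) (j k t : ℕ)
    (W H H' : ℕ → Submodule ℂ ((K.X j).obj (op ⊤)))
    (σ : (K.X j).obj (op ⊤) → (K.X j).obj (op ⊤)) {ε : ℂ} (hε : ε ≠ 0)
    (act : ∀ z : ((toCx I).X j).obj ⊤, ((toCx I).d j).app ⊤ z = 0 →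
      ((toCMap p).f j).app ⊤ (σ (((toCMap i).f j).app ⊤ z)) - ε • z ∈ (toCx I).Bd j ⊤)
    (cl : ∀ m, ∀ x ∈ W m, dv K j (j + 1) ⊤ x = 0)
    (bd : ∀ x : (K.X j).obj (op ⊤), x ∈ (toCx K).Bd j ⊤ → ∀ a, x ∈ W a ∧ x ∈ H a ∧ x ∈ H' a)
    (dec : ∀ m, 2 * k ≤ m → ∀ x ∈ W (m + 1), ∃ a ∈ W (m + 1) ⊓ H (k + 1),
      ∃ b ∈ W (m + 1) ⊓ H' (m + 2 - (k + 1)), ∃ w ∈ W m, x = a + b + w)
    (pure : ∀ m a, m + 1 < 2 * a → ∀ x ∈ W (m + 1), x ∈ H a → x ∈ H' a → x ∈ W m)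
    (low : ∀ x ∈ W (2 * k), x ∈ H (k + 1) → x ∈ H' (k + 1) → x ∈ (toCx K).Bd j ⊤)
    (top : ∀ x, dv K j (j + 1) ⊤ x = 0 → x ∈ W (2 * k + t))
    (w1 : ∀ m, (W m).map (((p ≫ i).f j).app (op ⊤)).hom ≤ W m)
    (e1 : ∀ a, (H a).map (((p ≫ i).f j).app (op ⊤)).hom ≤ H a)
    (e2 : ∀ a, (H' a).map (((p ≫ i).f j).app (op ⊤)).hom ≤ H' a)
    (s1 : ∀ a, ∀ x ∈ H a, σ x ∈ H' a) (s2 : ∀ a, ∀ x ∈ H' a, σ x ∈ H a) :
    (∀ x, x ∈ (W (2 * k)).map ((p.f j).app (op ⊤)).hom ⊔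
        LinearMap.range ((I.d (j - 1) j).app (op ⊤)).hom →
      x ∈ (H (k + 1)).map ((p.f j).app (op ⊤)).hom ⊔
        LinearMap.range ((I.d (j - 1) j).app (op ⊤)).hom →
      x ∈ LinearMap.range ((I.d (j - 1) j).app (op ⊤)).hom) ∧
    ∀ x, dv I j (j + 1) ⊤ x = 0 → x ∈ ((W (2 * k)).map ((p.f j).app (op ⊤)).hom ⊔
        LinearMap.range ((I.d (j - 1) j).app (op ⊤)).hom) ⊔
      ((H (k + 1)).map ((p.f j).app (op ⊤)).hom ⊔
        LinearMap.range ((I.d (j - 1) j).app (op ⊤)).hom) := by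
  set P := ((p.f j).app (op ⊤)).hom with hP
  set Q := ((i.f j).app (op ⊤)).hom with hQ
  set B := LinearMap.range ((I.d (j - 1) j).app (op ⊤)).hom with hB
  have eB : ∀ x, x ∈ (toCx I).Bd j ⊤ ↔ x ∈ B := fun x => by
    rw [toCx_bd]
  have key : ∀ {T : Submodule ℂ ((K.X j).obj (op ⊤))},
      T.map (((p ≫ i).f j).app (op ⊤)).hom ≤ T → ∀ x ∈ T, Q (P x) ∈ T :=
    fun hT x hx => hT ⟨x, hx, rfl⟩
  have hc : ∀ m, ∀ x ∈ W m, ((toCx I).d j).app ⊤ (P x) = 0 := fun m x hx =>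
    (toCMap p).map_cocycle (n := j) (V := ⊤) (z := x) (cl m x hx)
  have qb : ∀ x ∈ B, Q x ∈ (toCx K).Bd j ⊤ := fun x hx => (toCMap i).map_bd ((eB x).2 hx)
  have sw : ∀ {T T' : Submodule ℂ ((K.X j).obj (op ⊤))}, (∀ x ∈ T', Q (P x) ∈ T') →
      (∀ x ∈ T, σ x ∈ T') → (∀ x : (K.X j).obj (op ⊤), x ∈ (toCx K).Bd j ⊤ → x ∈ T') →
      ∀ z : (I.X j).obj (op ⊤), ((toCx I).d j).app ⊤ z = 0 → Q z ∈ T → Q z ∈ T' := by
    intro T T' h1 h2 h3 z hz hq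
    have h4 : Q (P (σ (Q z)) - ε • z) ∈ T' := h3 _ ((toCMap i).map_bd (act z hz))
    have h5 := T'.sub_mem (h1 _ (h2 _ hq)) h4
    rw [map_sub, sub_sub_cancel, map_smul] at h5
    exact (T'.smul_mem_iff hε).1 h5
  have sp : ∀ z : (I.X j).obj (op ⊤), ((toCx I).d j).app ⊤ z = 0 → P (Q z) - z ∈ B := fun z hz =>
    (eB _).1 (split_bd hsp j ⊤ z hz)
  refine ⟨fun x h1 h2 => ?_, fun x hx => ?_⟩
  · obtain ⟨_, ⟨l, hl, rfl⟩, b, hb, e⟩ := Submodule.mem_sup.1 h1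
    obtain ⟨_, ⟨l', hl', rfl⟩, b', hb', e'⟩ := Submodule.mem_sup.1 h2
    have a1 : Q (P l) ∈ H (k + 1) := by
      have : P l = P l' + b' - b := by rw [e', ← e, add_sub_cancel_right]
      rw [this, map_sub, map_add]
      exact sub_mem (add_mem (key (e1 _) l' hl') (bd _ (qb _ hb') _).2.1) (bd _ (qb _ hb) _).2.1
    have a2 := low _ (key (w1 _) l hl) a1
      (sw (key (e2 _)) (s1 _) (fun x hx => (bd x hx _).2.2) _ (hc _ l hl) a1)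
    have a3 : P (Q (P l)) ∈ B := (eB _).1 ((toCMap p).map_bd a2)
    have a4 := sub_mem a3 (sp _ (hc _ l hl))
    rw [sub_sub_cancel] at a4
    exact e ▸ add_mem a4 hb
  · have ind : ∀ s, ∀ l ∈ W (2 * k + s), P l ∈ ((W (2 * k)).map P ⊔ B) ⊔
        ((H (k + 1)).map P ⊔ B) := fun s => by
      induction s with
      | zero => exact fun l hl => Submodule.mem_sup_left (Submodule.mem_sup_left ⟨l, hl, rfl⟩)
      | succ s ih =>
        intro l hl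
        obtain ⟨a, ⟨-, a2⟩, b, ⟨b1, b2⟩, w, hw, rfl⟩ := dec (2 * k + s) (by omega) l hl
        have c1 := key (e2 _) b b2
        have c2 := ih _ (pure _ _ (by omega) _ (key (w1 _) b b1)
          (sw (key (e1 _)) (s2 _) (fun x hx => (bd x hx _).2.1) _ (hc _ b b1) c1) c1)
        have c3 := sub_mem c2 (Submodule.mem_sup_left (Submodule.mem_sup_right
          (sp _ (hc _ b b1))))
        rw [sub_sub_cancel] at c3
        rw [map_add, map_add]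
        exact add_mem (add_mem (Submodule.mem_sup_right (Submodule.mem_sup_left ⟨a, a2, rfl⟩)) c3)
          (ih w hw)
    have h1 := sub_mem (ind t (Q x) (top _ ((toCMap i).map_cocycle (n := j) (V := ⊤) (z := x) hx)))
      (Submodule.mem_sup_left (Submodule.mem_sup_right (sp x hx)))
    rwa [sub_sub_cancel] at h1

variable (d) in
/-- The Hodge filtration on intersection cohomology. -/
def FIH {I : PCx Y} (p : Kx d π ⟶ I) (j a : ℕ) : Submodule ℂ ((I.X j).obj (op ⊤)) :=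
  (Hg d π j a).map ((p.f j).app (op ⊤)).hom ⊔ LinearMap.range ((I.d (j - 1) j).app (op ⊤)).hom

variable {U : ℕ → Opens Y} {I : PCx Y} {one : (I.X 0).obj (op (U 0))}
  {i : I ⟶ Kx d π} {p : Kx d π ⟶ I} {S : Y → Y → Prop}

theorem tate_of_act [Finite ι] (h : IsRes d π S one i p) (s : C(Y, Y))
    (hs : ∀ V, Set.MapsTo (cj N) (up π (pre s V)) (up π V)) (ε : ℂ) (hε : ε ≠ 0)
    (act : ∀ (n : ℕ) (z : ((toCx I).X n).obj ⊤), ((toCx I).d n).app ⊤ z = 0 →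
      (show ((toCx I).X n).obj ⊤ from ((toCMap p).f n).app ⊤
        (((sig d π h.cjZ s hs).f n).app ⊤ (((toCMap i).f n).app ⊤ z))) - ε • z ∈ (toCx I).Bd n ⊤)
    (j k : ℕ) : (∀ x, x ∈ WIH d π p j (2 * k) → x ∈ FIH d π p j (k + 1) →
      x ∈ LinearMap.range ((I.d (j - 1) j).app (op ⊤)).hom) ∧
      ∀ x, dv I j (j + 1) ⊤ x = 0 → x ∈ WIH d π p j (2 * k) ⊔ FIH d π p j (k + 1) :=
  sht_gen h.split.some j k (2 * d) (Wt d π j) (Hg d π j) (Hg' d π j)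
    (fun x => ((sig d π h.cjZ s hs).f j).app ⊤ x) hε (act j)
    (fun _ _ hx => wt_closed π h.snc.sub hx)
    (fun _ hx _ => ⟨bd_mem_ann π _ hx, bd_mem_ann π _ hx, bd_mem_ann π _ hx⟩)
    (fun _ _ _ hx => wt_dec2 π h.snc (by omega) hx)
    (fun _ _ ha _ h1 h2 h3 => wt_pure π h.snc ha h1 h2 h3)
    (fun _ h1 h2 h3 => wt_bd π h.snc (by omega) h1 h2 h3)
    (fun _ hx => wt_top π h.snc (by omega) hx) (h.wt j) (h.hg j) (h.hg' j)
    (fun _ _ hx => sig_hg π h.cjZ s hs h.cjD hx) (fun _ _ hx => sig_hg' π h.cjZ s hs h.cjD hx)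

end Pool.Agent.PW.S
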