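import Pool.Agent.P.MP_65ad7c_ag.QFA
import Pool.Agent.P.MP_65ad7c_ag.SHT

/-! The forms part of the bridge. -/

open Set CategoryTheory TopologicalSpace Opposite

noncomputable section
namespace Pool.Agent.PQ

open Pool.Agent.HT (SF Om)

variable {Y : Type} [TopologicalSpace Y] (R : Res Y)

theorem Res.up_eq' (V : Opens Y) : R.up V = PW.up R.π V := R.up_eq V

theorem Res.isFun' {j : ℕ} {V : Opens Y} (q : ℕ) (l : Sec R.K j V) :
    IsFun R.Z (PW.up R.π V) (R.ev q l) := R.up_eq' V ▸ R.isFun j V q l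

theorem Res.ac_rep {V : Opens Y} {q : ℕ} (x : HT.Ac R.Z (PW.up R.π V) q) :
    Ac R.Z (R.up V) (rep x.1).1 := by
  rw [R.up_eq', ← ac_iff, cl_rep]
  exact x.2

/-- The comparison on sections. -/
def Res.thL (j : ℕ) (V : Opens Y) :
    Sec R.K j V →ₗ[ℂ] ∀ q : {q // q + j = 2 * R.d}, Module.Dual ℂ (HT.Ac R.Z (PW.up R.π V) q.1) where
  toFun l q := toDual (R.ev q.1 l) (R.isFun' q.1 l)
  map_add' l l' := by
    funext q
    ext x
    have := R.lin j V q.1 1 l l' (rep x.1).1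
    rwa [one_smul, one_mul] at this
  map_smul' a l := by
    funext q
    ext x
    have h1 := R.lin j V q.1 a l 0 (rep x.1).1
    have h2 := R.lin j V q.1 1 0 0 (rep x.1).1
    rw [one_smul, add_zero, one_mul, left_eq_add] at h2
    rwa [add_zero, h2, add_zero] at h1

theorem Res.thL_apply {j : ℕ} {V : Opens Y} (l : Sec R.K j V) (q : {q // q + j = 2 * R.d})
    (x : HT.Ac R.Z (PW.up R.π V) q.1) : R.thL j V l q x = R.ev q.1 l (rep x.1).1 := rfl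

theorem Res.thL_cl {j : ℕ} {V : Opens Y} (l : Sec R.K j V) (q : {q // q + j = 2 * R.d})
    (α : SF (Amb R.N) q.1) (h : cl R.Z α ∈ HT.Ac R.Z (PW.up R.π V) q.1) :
    R.thL j V l q ⟨cl R.Z α, h⟩ = R.ev q.1 l α.1 := toDual_cl (R.isFun' q.1 l) α h

theorem Res.thL_bij (j : ℕ) (V : Opens Y) : Function.Bijective (R.thL j V) := by
  refine ⟨(injective_iff_map_eq_zero _).2 fun l hl => R.inj j V l fun q hq α hα => ?_,
    fun lam => ?_⟩
  · have h1 : cl R.Z ⟨α, hα.1⟩ ∈ HT.Ac R.Z (PW.up R.π V) q :=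
      (ac_iff ⟨α, hα.1⟩).2 (R.up_eq' V ▸ hα)
    rw [← R.thL_cl l ⟨q, hq⟩ ⟨α, hα.1⟩ h1, hl]
    rfl
  · by_cases hj : j ≤ 2 * R.d
    · have hq : 2 * R.d - j + j = 2 * R.d := by omega
      obtain ⟨l, hl⟩ := R.surj j V _ hq (ofDual (lam ⟨_, hq⟩))
        (by rw [R.up_eq']; exact isFun_ofDual (lam ⟨_, hq⟩))
      refine ⟨l, funext fun q => ?_⟩
      obtain rfl : q = ⟨_, hq⟩ := Subtype.ext (by
        have := q.2
        show q.1 = 2 * R.d - j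
        omega)
      ext x
      rw [R.thL_apply, hl _ (R.ac_rep x), ofDual_cl _ _ (by rw [cl_rep]; exact x.2)]
      exact congrArg _ (Subtype.ext (cl_rep _))
    · exact ⟨0, funext fun q => absurd q.2 (by omega)⟩

section gen
variable {t : ℕ} {E : ℕ → Type} [∀ q, AddCommGroup (E q)] [∀ q, Module ℂ (E q)]
  {δ : ∀ q, E q →ₗ[ℂ] E (q + 1)} {A : Opens Y → ∀ q, Submodule ℂ (E q)}
  {hA : ∀ V W, W ≤ V → ∀ q, A W q ≤ A V q} {hδ : ∀ V q, ∀ α ∈ A V q, δ q α ∈ A V (q + 1)}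
  {hδδ : ∀ q α, δ (q + 1) (δ q α) = 0} {K : PCx Y}

theorem exists_iso
    (th : ∀ j V, Sec K j V →ₗ[ℂ] ∀ q : {q // q + j = t}, Module.Dual ℂ (A V q.1))
    (hr : ∀ j V W (h : W ≤ V) l q (x : A W q.1),
      th j W (rs h l) q x = th j V l q ⟨x.1, hA V W h q.1 x.2⟩)
    (hd : ∀ j V l (q : {q // q + (j + 1) = t}) (x : A V q.1), th (j + 1) V (dv (j + 1) l) q x =
      th j V l ⟨q.1 + 1, by have := q.2; omega⟩ ⟨δ q.1 x.1, hδ V q.1 x.1 x.2⟩)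
    (hb : ∀ j V, Function.Bijective (th j V)) :
    ∃ e : K ≅ PW.dualCx t δ A hA hδ hδδ, ∀ j V (l : Sec K j V), mp e.hom l = th j V l := by
  let f : ∀ j, K.X j ⟶ (PW.dualCx t δ A hA hδ hδδ).X j := fun j =>
    { app := fun V => ModuleCat.ofHom (th j V.unop)
      naturality := fun V W h => ModuleCat.hom_ext (LinearMap.ext fun l => funext fun q =>
        LinearMap.ext fun x => hr j V.unop W.unop (leOfHom h.unop) l q x) }
  let g : K ⟶ PW.dualCx t δ A hA hδ hδδ :=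
    { f := f
      comm' := fun i j hij => by
        obtain rfl : i + 1 = j := hij
        refine NatTrans.ext (funext fun V => ModuleCat.hom_ext (LinearMap.ext fun l =>
          funext fun q => LinearMap.ext fun x => ?_))
        exact (PW.S.dualCx_dv i V.unop (th i V.unop l) q x).trans (hd i V.unop l q x).symm }
  have h1 : ∀ j, IsIso (g.f j) := fun j => by
    have : ∀ V, IsIso ((g.f j).app V) := fun V =>
      (ConcreteCategory.isIso_iff_bijective _).2 (hb j V.unop)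
    exact NatIso.isIso_of_isIso_app _
  have : IsIso g := HomologicalComplex.Hom.isIso_of_components _
  exact ⟨asIso g, fun _ _ _ => rfl⟩

end gen

theorem Res.exists_th : ∃ e : R.K ≅ PW.Kx R.d R.π,
    ∀ j V (l : Sec R.K j V), mp e.hom l = R.thL j V l := by
  refine exists_iso (A := fun V q => HT.Ac R.Z (PW.up R.π V) q) R.thL
    (fun j V W h l q x => ?_) (fun i V l q x => ?_) R.thL_bij
  · exact (R.thL_apply _ q x).trans ((R.ev_rs j V W q.1 h l _ (R.ac_rep x)).trans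
      (R.thL_apply l q ⟨x.1, PW.ac_mono R.π h q.1 x.2⟩).symm)
  · have h1 : cl R.Z (SF.d q.1 (rep x.1)) = Om.d R.Z q.1 x.1 :=
      congrArg (Om.d R.Z q.1) (cl_rep x.1)
    have h2 : cl R.Z (SF.d q.1 (rep x.1)) ∈ HT.Ac R.Z (PW.up R.π V) (q.1 + 1) :=
      h1 ▸ PW.ac_d _ _ _ x.2
    have h3 := R.thL_cl l ⟨q.1 + 1, by have := q.2; omega⟩ _ h2
    have h4 := R.ev_dv i V q.1 l _ (R.ac_rep x)
    refine (R.thL_apply _ q x).trans (h4.trans (h3.symm.trans ?_))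
    exact congrArg (R.thL i V l ⟨q.1 + 1, by have := q.2; omega⟩) (Subtype.ext h1)

theorem mp_comp {I J K : PCx Y} (f : I ⟶ J) (g : J ⟶ K) {j : ℕ} {V : Opens Y} (l : Sec I j V) :
    mp (f ≫ g) l = mp g (mp f l) := rfl

theorem mp_hom_inv {I J : PCx Y} (e : I ≅ J) {j : ℕ} {V : Opens Y} (l : Sec I j V) :
    mp e.inv (mp e.hom l) = l := by
  rw [← mp_comp, e.hom_inv_id]
  rfl

theorem mp_inv_hom {I J : PCx Y} (e : I ≅ J) {j : ℕ} {V : Opens Y} (l : Sec J j V) :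
    mp e.hom (mp e.inv l) = l := mp_hom_inv e.symm l

theorem Res.ann_iff {j : ℕ} {S : ∀ q, Form R.N q → Prop} {S' : ∀ q, Set (Om R.Z q)}
    (h : ∀ q (α : SF (Amb R.N) q), S q α.1 ↔ cl R.Z α ∈ S' q) (l : Sec R.K j ⊤) :
    l ∈ R.ann j S ↔ ∀ q (x : HT.Ac R.Z (PW.up R.π ⊤) q.1), Om.d R.Z q.1 x.1 = 0 → x.1 ∈ S' q.1 →
      R.thL j ⊤ l q x = 0 := by
  constructor
  · intro hl q x h1 h2
    refine (R.thL_apply l q x).trans
      (hl q.1 q.2 _ (R.ac_rep x) ((cl_eq_zero (SF.d q.1 (rep x.1))).1 ?_) ((h _ _).2 ?_))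
    · exact (congrArg (Om.d R.Z q.1) (cl_rep x.1)).trans h1
    · rwa [cl_rep]
  · intro hl q hq α h1 h2 h3
    have h4 : cl R.Z ⟨α, h1.1⟩ ∈ HT.Ac R.Z (PW.up R.π ⊤) q :=
      (ac_iff ⟨α, h1.1⟩).2 (R.up_eq' ⊤ ▸ h1)
    exact (R.thL_cl l ⟨q, hq⟩ ⟨α, h1.1⟩ h4).symm.trans
      (hl ⟨q, hq⟩ ⟨_, h4⟩ ((cl_eq_zero (SF.d q ⟨α, h1.1⟩)).2 h2) ((h q ⟨α, h1.1⟩).1 h3))

variable {R} {e : R.K ≅ PW.Kx R.d R.π}

theorem Res.ann_iff' (he : ∀ j V (l : Sec R.K j V), mp e.hom l = R.thL j V l) {j : ℕ}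
    {S : ∀ q, Form R.N q → Prop} {S' : ∀ q, Set (Om R.Z q)}
    (h : ∀ q (α : SF (Amb R.N) q), S q α.1 ↔ cl R.Z α ∈ S' q) (l : Sec R.K j ⊤) :
    l ∈ R.ann j S ↔ mp e.hom l ∈ PW.ann R.d R.π j S' := by
  rw [he]
  exact R.ann_iff h l

theorem map_le_gen {I K K' : PCx Y} (e : K ≅ K') {j : ℕ} {T : Set (Sec K j ⊤)}
    {T' : Submodule ℂ (Sec K' j ⊤)} (h : ∀ l, l ∈ T ↔ mp e.hom l ∈ T') {p : K ⟶ I} {i : I ⟶ K}
    (hm : MapsTo (mp (p ≫ i)) T T) :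
    T'.map ((((e.inv ≫ p) ≫ i ≫ e.hom).f j).app (op ⊤)).hom ≤ T' := by
  rintro _ ⟨x, hx, rfl⟩
  have h1 : mp e.inv x ∈ T := (h _).2 (by rwa [mp_inv_hom])
  exact (h _).1 (hm h1)

theorem w_gen {I K K' : PCx Y} (e : K ≅ K') {j : ℕ} {T : Set (Sec K j ⊤)}
    {T' : Submodule ℂ (Sec K' j ⊤)} (h : ∀ l, l ∈ T ↔ mp e.hom l ∈ T') (p : K ⟶ I) :
    {x : Sec I j ⊤ | ∃ l ∈ T, ∃ b : Sec I (j - 1) ⊤, x = mp p l + dv j b} =
      ((T'.map (((e.inv ≫ p).f j).app (op ⊤)).hom ⊔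
        LinearMap.range ((I.d (j - 1) j).app (op ⊤)).hom : Submodule ℂ (Sec I j ⊤)) :
          Set (Sec I j ⊤)) := by
  ext x
  constructor
  · rintro ⟨l, hl, b, rfl⟩
    exact Submodule.add_mem_sup ⟨mp e.hom l, (h l).1 hl, congrArg (mp p) (mp_hom_inv e l)⟩ ⟨b, rfl⟩
  · intro hx
    obtain ⟨_, ⟨l, hl, rfl⟩, _, ⟨b, rfl⟩, rfl⟩ := Submodule.mem_sup.1 hx
    exact ⟨mp e.inv l, (h _).2 (by rwa [mp_inv_hom]), b, rfl⟩

theorem Model.isRes {Y : Type} [TopologicalSpace Y] {S : Y → Y → Prop} (M : Model S) :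
    ∃ (i : M.I ⟶ PW.Kx M.R.d M.R.π) (p : PW.Kx M.R.d M.R.π ⟶ M.I),
      PW.IsRes M.R.d M.R.π S (U := fun k => M.U (k + 1)) M.one i p ∧
        (∀ j m, M.W j m = (PW.WIH M.R.d M.R.π p j m : Set (Sec M.I j ⊤))) ∧
        ∀ j a, M.F j a = (PW.S.FIH M.R.d M.R.π p j a : Set (Sec M.I j ⊤)) := by
  obtain ⟨e, he⟩ := M.R.exists_th
  refine ⟨M.i ≫ e.hom, e.inv ≫ M.p, ⟨M.R.snc.ht, M.cjZ, M.cjD, M.cjπ, ?_, ?_,
    fun j m => map_le_gen e (Res.ann_iff' he fun _ α => col_iff _ _ _ α) (M.wt j m),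
    fun j a => map_le_gen e (Res.ann_iff' he fun _ α => fil_iff _ _ _ α) (M.hg j a),
    fun j a => map_le_gen e (Res.ann_iff' he fun _ α => fil_bar_iff _ _ _ α) (M.hg' j a)⟩,
    fun j m => w_gen e (Res.ann_iff' he fun _ α => col_iff _ _ _ α) M.p,
    fun j a => w_gen e (Res.ann_iff' he fun _ α => fil_iff _ _ _ α) M.p⟩
  · rw [Category.assoc, e.hom_inv_id_assoc]
    exact M.split
  · have h1 : (((M.i ≫ e.hom).f 0).app (op (M.U 1))).hom M.one =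
        M.R.thL 0 (M.U 1) (mp M.i M.one) := he 0 (M.U 1) (mp M.i M.one)
    have h2 := IsInt.ht (M.R.up_eq' _ ▸ M.int) (M.R.isFun' _ (mp M.i M.one))
    exact (congrArg (fun z => HT.IsInt M.R.d M.R.Z (PW.up M.R.π (M.U 1))
      (z ⟨2 * M.R.d, rfl⟩)) h1).mpr h2

end Pool.Agent.PQ
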