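import Pool.Agent.P.MP_65ad7c_ag.HGeoA
import Pool.Agent.P.MP_65ad7c_ag.HS4

/-! The strata are Kaehler retracts. -/

open Set Metric Filter Topology
open scoped ContDiff InnerProductSpace ComplexConjugate

noncomputable section
namespace Pool.Agent.HT
open Pool.Agent.Wein (Ret IsSubmanifold Tan)

lemma isSub_of_ret {E : Type} [NormedAddCommGroup E] [InnerProductSpace ℝ E] [FiniteDimensional ℝ E]
    {S : Set E} (h : ∀ x ∈ S, ∃ (W : Set E) (π : E → E), IsOpen W ∧ x ∈ W ∧ ContDiff ℝ ∞ π ∧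
      MapsTo π W (S ∩ W) ∧ ∀ y ∈ S ∩ W, π y = y) : IsSubmanifold S := fun x hx => by
  obtain ⟨W, π, hW, hxW, hπ, hm, hf⟩ := h x hx
  have hd : ∀ y, HasFDerivAt π (fderiv ℝ π y) y := fun y => (cda_diff hπ.contDiffAt).hasFDerivAt
  set Q := fderiv ℝ π x
  have hQ : ∀ v, Q (Q v) = Q v := fun v => by
    have h1 := (hd (π x)).comp x (hd x)
    rw [hf x ⟨hx, hxW⟩] at h1
    exact congrArg (· v) (h1.unique ((hd x).congr_of_eventuallyEq
      (mem_of_superset (hW.mem_nhds hxW) fun y hy => hf _ (hm hy))))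
  let K := LinearMap.range (1 - Q).toLinearMap
  let L := (toEuclidean (E := K)).toContinuousLinearMap.comp
    ((1 - Q).codRestrict K fun v => ⟨v, rfl⟩)
  let R := K.subtypeL.comp (toEuclidean (E := K)).symm.toContinuousLinearMap
  have hL : ∀ y, HasFDerivAt (fun y => L (y - π y)) (L.comp (1 - fderiv ℝ π y)) y := fun y =>
    L.hasFDerivAt.comp y ((hasFDerivAt_id y).sub (hd y))
  have hc : Continuous fun y => (L.comp (1 - fderiv ℝ π y)).comp R := by
    have := hπ.continuous_fderiv (by simp)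
    fun_prop
  have h1 : (L.comp (1 - Q)).comp R = 1 := by
    refine ContinuousLinearMap.ext fun v => (toEuclidean (E := K)).symm.injective (Subtype.ext ?_)
    obtain ⟨w, hw⟩ := ((toEuclidean (E := K)).symm v).2
    simp [L, R, ← hw, hQ]
  obtain ⟨W1, -, hW1, hx1, -, hi, -⟩ := Wein.inverse_compact
    (fun y => Q (π y) + (1 - Q) (y - π y)) univ isOpen_univ
    ((Q.contDiff.comp hπ).add ((1 - Q).contDiff.comp (contDiff_id.sub hπ))).contDiffOn {x}
    isCompact_singleton (subset_univ _) (injOn_singleton _ _) (by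
      rintro _ rfl
      erw [((Q.hasFDerivAt.comp _ (hd _)).fun_add ((1 - Q).hasFDerivAt.comp _
        ((hasFDerivAt_id _).sub (hd _)))).fderiv]
      intro a b hab
      simpa [hQ, show fderiv ℝ π _ = Q from rfl] using hab)
  refine ⟨_, fun y => L (y - π y), (W ∩ W1 ∩ π ⁻¹' W1) ∩
    (fun y => (L.comp (1 - fderiv ℝ π y)).comp R) ⁻¹' {u | IsUnit u},
    ((hW.inter hW1).inter (hW1.preimage hπ.continuous)).inter (Units.isOpen.preimage hc),
    ⟨⟨⟨hxW, hx1 rfl⟩, by rw [mem_preimage, hf x ⟨hx, hxW⟩]; exact hx1 rfl⟩, by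
      rw [mem_preimage, h1]; exact isUnit_one⟩,
    (L.contDiff.comp (contDiff_id.sub hπ)).contDiffOn, fun y hy => ?_,
    fun y hy => ⟨fun hS => by simp [hf y ⟨hS, hy.1.1.1⟩], fun h0 => ?_⟩⟩
  · rw [(hL y).fderiv]
    exact Function.Surjective.of_comp (g := R)
      (ContinuousLinearMap.isUnit_iff_bijective.1 hy.2).2
  · have h2 : (1 - Q) (y - π y) = 0 :=
      congrArg Subtype.val ((toEuclidean (E := K)).map_eq_zero_iff.1 h0)
    have h3 := hf _ (hm hy.1.1.1)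
    exact hi hy.1.2 hy.1.1.2 (by simp only [h2, h3, sub_self, map_zero]) ▸ (hm hy.1.1.1).1

variable {N d : ℕ} {ι : Type} {Z : Set (Amb N)} {D : ι → Set (Amb N)}

/-- holomorphic maps to projective space are holomorphic for `JP` -/
theorem proj_hol {e : ℕ} {g : (Fin e → ℂ) → Fin N → ℂ} {z : Fin e → ℂ} (hg : AnalyticAt ℂ g z)
    (h0 : g z ≠ 0) : ContDiffAt ℝ ∞ (proj ∘ g) z ∧ ∀ v, fderiv ℝ (proj ∘ g) z (Complex.I • v) =
      JP N (proj (g z)) (fderiv ℝ (proj ∘ g) z v) :=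
  ⟨(proj_contDiffAt h0).comp z (hg.contDiffAt.restrict_scalars ℝ),
    fun v => (JP_hol hg.differentiableAt h0 v).symm⟩

/-- every point of `S` lies on a holomorphic plot whose differential is onto the tangent space -/
def HasPlots (R : Ret (Amb N)) : Prop :=
  ∀ x ∈ R.S, ∃ (e : ℕ) (O : Set (Fin e → ℂ)) (g : (Fin e → ℂ) → Fin N → ℂ), IsOpen O ∧
    DifferentiableOn ℂ g O ∧ (∀ z ∈ O, g z ≠ 0 ∧ proj (g z) ∈ R.S) ∧ ∃ z ∈ O, proj (g z) = x ∧
      ∀ v, ∃ w, fderiv ℝ (proj ∘ g) z w = R.P x v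

section chart
variable (A : AC d Z D) {p : ℕ} {I : Fin p → ι}

lemma AC.kill_c : kill (A.T I) A.c = A.c := funext fun k => by
  by_cases hk : k ∈ A.T I
  · rw [kill_of_mem hk]; obtain ⟨j, hj⟩ := hk; exact (A.κ_c _ _ hj).symm
  · exact kill_of_notMem hk _

lemma AC.kill_mem {z : Fin d → ℂ} (hz : z ∈ ball A.c A.ρ) : kill (A.T I) z ∈ ball A.c A.ρ := by
  refine (dist_pi_lt_iff A.ρ_pos).2 fun k => ?_
  by_cases hk : k ∈ A.T I
  · rw [← A.kill_c (I := I), kill_of_mem hk, kill_of_mem hk, dist_self]; exact A.ρ_pos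
  · rw [kill_of_notMem hk]; exact (dist_pi_lt_iff A.ρ_pos).1 hz k

lemma AC.ψ_kill (hx : A.ψ A.c ∈ strat Z D I) {z : Fin d → ℂ} (hz : z ∈ ball A.c A.ρ) :
    A.ψ (kill (A.T I) z) ∈ strat Z D I ∩ A.W := by
  have h1 := A.ψ_mem _ (A.kill_mem (I := I) hz)
  refine ⟨⟨h1.1, mem_iInter.2 fun j => ?_⟩, h1.2⟩
  obtain ⟨k, hk, -⟩ := (A.memD _ _ (mem_ball_self A.ρ_pos)).1 (mem_iInter.1 hx.2 j)
  exact (A.memD _ _ (A.kill_mem hz)).2 ⟨k, hk, kill_of_mem (T := A.T I) ⟨j, hk⟩ _⟩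

lemma AC.π_fix (h : Geo d Z D) {y : Amb N} (hy : y ∈ strat Z D I ∩ A.W) : A.π (A.T I) y = y := by
  refine (congrArg A.ψ (funext fun k => ?_)).trans (A.ψφ y ⟨hy.1.1, hy.2⟩)
  by_cases hk : k ∈ A.T I
  · rw [kill_of_mem hk]
    obtain ⟨j, hj⟩ := hk
    obtain ⟨m, h1, h2⟩ := A.of_mem h (mem_iInter.1 hy.1.2 j) hy.2
    rw [← h2, Option.some_injective _ (h1.symm.trans hj)]
  · exact kill_of_notMem hk _

lemma AC.has_kill : HasFDerivAt (A.ψ ∘ kill (A.T I))
    ((fderiv ℝ A.ψ A.c).comp ((kill (A.T I)).restrictScalars ℝ)) A.c :=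
  HasFDerivAt.comp _ (by rw [A.kill_c]; exact (cda_diff A.ψ_smooth.contDiffAt).hasFDerivAt)
    ((kill (A.T I)).restrictScalars ℝ).hasFDerivAt

lemma AC.tan_iff (h : Geo d Z D) (hx : A.ψ A.c ∈ strat Z D I) (v : Amb N) :
    v ∈ Tan (strat Z D I) (A.ψ A.c) ↔ ∃ w, fderiv ℝ A.ψ A.c (kill (A.T I) w) = v := by
  have hc := mem_ball_self (x := A.c) A.ρ_pos
  refine ⟨fun hv => ⟨fderiv ℝ A.φ (A.ψ A.c) v, ?_⟩, ?_⟩
  · have h1 := HasFDerivAt.comp (A.ψ A.c) (by rw [A.φψ _ hc]; exact A.has_kill (I := I))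
      (cda_diff A.φ_smooth.contDiffAt).hasFDerivAt
    have h2 := Tan.fderiv_congr hv h1.differentiableAt differentiableAt_id
      (mem_of_superset (A.W_open.mem_nhds (A.ψ_mem _ hc).2) fun y hy hS => A.π_fix h ⟨hS, hy⟩)
    rwa [h1.fderiv, fderiv_id] at h2
  · rintro ⟨w, rfl⟩
    have := Tan.map (tan_univ A.c w) (A.has_kill (I := I)).differentiableAt
      (mem_of_superset (ball_mem_nhds _ A.ρ_pos) fun z hz _ => (A.ψ_kill hx hz).1)
    rwa [A.has_kill.fderiv, Function.comp_apply, A.kill_c] at this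

lemma AC.dψ_inj : Function.Injective (fderiv ℝ A.ψ A.c) := by
  have h1 := (cda_diff A.φ_smooth.contDiffAt).hasFDerivAt.comp A.c
    (cda_diff A.ψ_smooth.contDiffAt).hasFDerivAt
  have h2 := h1.unique ((hasFDerivAt_id _).congr_of_eventuallyEq
    (mem_of_superset (ball_mem_nhds _ A.ρ_pos) A.φψ))
  exact Function.LeftInverse.injective fun v => congrArg (· v) h2

end chart

theorem Geo.isSubmanifold (h : Geo d Z D) {p : ℕ} (I : Fin p → ι) :
    IsSubmanifold (strat Z D I) ∧ IsCompact (strat Z D I) := by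
  refine ⟨isSub_of_ret fun x hx => ?_,
    h.compact.inter_right (isClosed_iInter fun j => h.closed _)⟩
  obtain ⟨A, rfl⟩ := h.chart x hx.1
  exact ⟨A.W, A.π (A.T I), A.W_open, (A.ψ_mem _ (mem_ball_self A.ρ_pos)).2,
    A.ψ_smooth.comp (((kill (A.T I)).restrictScalars ℝ).contDiff.comp A.φ_smooth),
    fun y hy => A.ψ_kill hx (A.φ_mem y hy), fun y hy => A.π_fix h hy⟩

theorem Geo.plots [DecidableEq ι] (h : Geo d Z D) {p : ℕ} (I : Fin p → ι) (R : Ret (Amb N))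
    (hR : R.S = strat Z D I) : HasPlots R ∧ ∀ x ∈ R.S,
      Module.finrank ℝ (LinearMap.range (R.P x : Amb N →ₗ[ℝ] Amb N)) =
        2 * (d - (Finset.univ.image I).card) := by
  classical
  have key : ∀ x ∈ R.S, ∃ A : AC d Z D, A.ψ A.c = x ∧ A.ψ A.c ∈ strat Z D I ∧
      ∀ v, R.P x v = v ↔ ∃ w, fderiv ℝ A.ψ A.c (kill (A.T I) w) = v := fun x hx => by
    obtain ⟨A, rfl⟩ := h.chart x (hR ▸ hx).1
    exact ⟨A, rfl, hR ▸ hx, fun v => by rw [← R.mem_tan hx, hR, A.tan_iff h (hR ▸ hx)]⟩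
  refine ⟨fun x hx => ?_, fun x hx => ?_⟩ <;> obtain ⟨A, rfl, h1, h2⟩ := key x hx
  · have e : ∀ z ∈ ball A.c A.ρ, (proj ∘ A.f ∘ kill (A.T I)) z = (A.ψ ∘ kill (A.T I)) z :=
      fun z hz => (A.ψ_eq _ (A.kill_mem hz)).symm
    refine ⟨d, ball A.c A.ρ, A.f ∘ kill (A.T I), isOpen_ball,
      A.f_hol.comp (kill (A.T I)).differentiable.differentiableOn fun z hz => A.kill_mem hz,
      fun z hz => ⟨A.f_ne _ (A.kill_mem hz), hR ▸ mem_of_eq_of_mem (e z hz) (A.ψ_kill h1 hz).1⟩, A.c,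
      mem_ball_self A.ρ_pos, (e _ (mem_ball_self A.ρ_pos)).trans (congrArg _ A.kill_c), fun v => ?_⟩
    rw [(A.has_kill.congr_of_eventuallyEq (mem_of_superset (ball_mem_nhds _ A.ρ_pos) e)).fderiv]
    exact (h2 _).1 (R.P_idem hx v)
  · let j : (↥(A.T I)ᶜ → ℂ) →ₗ[ℝ] Fin d → ℂ :=
      LinearMap.pi fun k => if hk : k ∈ (A.T I)ᶜ then LinearMap.proj ⟨k, hk⟩ else 0
    have hj : ∀ w, j (fun k => w k) = kill (A.T I) w := fun w => funext fun k => by
      by_cases hk : k ∈ A.T I <;> simp [j, hk, kill_of_mem, kill_of_notMem]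
    have hj' : ∀ w (k : ↥(A.T I)ᶜ), j w k = w k := fun w k => by
      simp [j, show k.1 ∉ A.T I from k.2]
    have e : LinearMap.range (R.P (A.ψ A.c) : Amb N →ₗ[ℝ] Amb N) =
        LinearMap.range ((fderiv ℝ A.ψ A.c).toLinearMap ∘ₗ j) := by
      ext v
      refine ⟨?_, ?_⟩ <;> rintro ⟨w, rfl⟩
      · obtain ⟨u, hu⟩ := (h2 _).1 (R.P_idem hx w)
        exact ⟨_, (congrArg _ (hj u)).trans hu⟩
      · exact ⟨_, (h2 _).2 ⟨j w, by rw [← hj, funext (hj' w)]; rfl⟩⟩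
    choose k hk using fun j => (A.memD _ _ (mem_ball_self A.ρ_pos)).1 (mem_iInter.1 h1.2 j)
    have hT : (A.T I).toFinset = Finset.univ.image k := by
      ext m; simp [AC.T, fun j => (hk j).1]
    have hi : Function.Injective ((fderiv ℝ A.ψ A.c).toLinearMap ∘ₗ j) :=
      A.dψ_inj.comp fun a b hab => funext fun k => by rw [← hj' a, hab, hj']
    rw [e, LinearMap.finrank_range_of_inj hi, Module.finrank_pi_fintype]
    simp only [Complex.finrank_real_complex, Finset.sum_const, Finset.card_univ, smul_eq_mul,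
      Fintype.card_compl_set, Fintype.card_fin, mul_comm 2]
    rw [← toFinset_card, hT, ← Finset.card_image_of_injective _ (Option.some_injective _),
      ← Finset.card_image_of_injOn (s := Finset.univ.image I) (f := A.κ), Finset.image_image,
      Finset.image_image, show some ∘ k = A.κ ∘ I from funext fun j => (hk j).1.symm]
    simp only [Finset.coe_image, Finset.coe_univ, image_univ]
    rintro _ ⟨a, rfl⟩ _ ⟨b, rfl⟩ hab
    exact A.κ_inj _ _ _ (hk a).1 (hab ▸ (hk a).1)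

theorem HasPlots.isKR {R : Ret (Amb N)} (h : HasPlots R) {m : ℕ}
    (hr : ∀ x ∈ R.S, Module.finrank ℝ (LinearMap.range (R.P x : Amb N →ₗ[ℝ] Amb N)) = m) :
    IsKR R (JP N) m := by
  have hP : ∀ x ∈ R.S, x ∈ PP N := fun x hx => by
    obtain ⟨e, O, g, -, -, h1, z, hz, rfl, -⟩ := h x hx
    exact ⟨_, (h1 z hz).1, rfl⟩
  have hT : ∀ x ∈ R.S, ∀ v, R.P x v ∈ Tan (PP N) x := fun x hx v => by
    obtain ⟨γ, h1, h2, h3⟩ := (R.mem_tan hx _).2 (R.P_idem hx v)
    exact ⟨γ, h1, h2.mono fun t => hP _, h3⟩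
  refine ⟨hr, JP_smooth, fun x hx => JP_skew (hP x hx), fun x hx v => ?_, fun x hx v => ?_,
    fun x hx u v => ext_inner_right ℝ fun w => ?_⟩
  · obtain ⟨e, O, g, hO, hg, h1, z, hz, rfl, h2⟩ := h x hx
    obtain ⟨w, hw⟩ := h2 v
    have hd := hg.differentiableAt (hO.mem_nhds hz)
    rw [← hw, JP_hol hd (h1 z hz).1, ← R.mem_tan hx]
    exact Tan.map (tan_univ z _) ((cda_diff (proj_contDiffAt (h1 z hz).1)).comp z
      (hd.restrictScalars ℝ)) (mem_of_superset (hO.mem_nhds hz) fun y hy _ => (h1 y hy).2)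
  · obtain ⟨e, O, g, hO, hg, h1, z, hz, rfl, h2⟩ := h x hx
    obtain ⟨w, hw⟩ := h2 v
    have hd := hg.differentiableAt (hO.mem_nhds hz)
    rw [← hw, JP_hol hd (h1 z hz).1, JP_hol hd (h1 z hz).1, smul_smul, Complex.I_mul_I,
      neg_one_smul, map_neg]
  · rw [R.P_symm hx, fderiv_JP, JP_par (hP x hx) (hT x hx u) (hT x hx v) (hT x hx w),
      inner_zero_left]

end Pool.Agent.HT
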