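import Pool.Agent.P.MP_65ad7c_ag.HS2
import Pool.Agent.P.MP_65ad7c_ag.HInt
import Pool.Agent.P.MP_65ad7c_ag.HGeo0
import Pool.Agent.P.MP_65ad7c_ag.QForms

/-! Definitions for the existence of a model in the smooth case. -/

open Set Pool.Agent.HT MeasureTheory
open scoped ContDiff

noncomputable section
namespace Pool.Agent.QN

section euc
variable {E : Type} [NormedAddCommGroup E] [NormedSpace ℝ E] {m n : ℕ}

/-- the closed box -/
def box (b : Module.Basis (Fin m) ℝ E) (l u : Fin m → ℝ) : Set E :=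
  {x | ∀ k, b.repr x k ∈ Icc (l k) (u k)}

/-- `σ` vanishes off `C` -/
def Off (C : Set E) (σ : SF E n) : Prop := ∀ x ∉ C, σ.1 x = 0

/-- `σ` has a primitive that vanishes off `C` -/
def ExE (C : Set E) : ∀ n, SF E n → Prop
  | 0, σ => σ = 0
  | n + 1, σ => ∃ η : SF E n, Off C η ∧ SF.d n η = σ

/-- coboundaries of forms on `Z` with compact support in `U` -/
def Bd (Z U : Set E) : ∀ n, Submodule ℂ (Om Z n)
  | 0 => ⊥
  | n + 1 => (Ac Z U n).map (Om.d Z n)

/-- a smooth step from `0` (left of `l`) to `1` (right of `u`) -/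
def stp (l u t : ℝ) : ℝ := Real.smoothTransition ((t - l) / (u - l))

/-- the derivative of the step -/
def rho (l u : ℝ) : ℝ → ℝ := deriv (stp l u)

/-- `σ` is divisible by `dx_k` -/
def Div (b : Module.Basis (Fin m) ℝ E) (k : Fin m) (σ : SF E n) : Prop :=
  ∀ x (w : Fin n → E), (∀ i, b.repr (w i) k = 0) → σ.1 x w = 0

/-- in the direction `b k`, `σ` is proportional to `rho` -/
def Per (b : Module.Basis (Fin m) ℝ E) (l u : Fin m → ℝ) (k : Fin m) (σ : SF E n) : Prop :=
  ∀ x (s : ℝ), rho (l k) (u k) (b.repr x k) • σ.1 (x + s • b k) =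
    rho (l k) (u k) (b.repr x k + s) • σ.1 x

end euc

variable {N d m : ℕ}

/-- `lam` is integration over `Z`, normalised by the frame `e` -/
def IsLam (Z : Set (Amb N)) (e : Fin m → Fin d → ℂ) (lam : Module.Dual ℂ (Om Z m)) : Prop :=
  ∀ (O : Set (Fin d → ℂ)) (f : (Fin d → ℂ) → Fin N → ℂ), IsChart Z O f →
    ∀ α : SF (Amb N) m, Om.mk Z α ∈ Ac Z ((proj ∘ f) '' O) m →
      lam (Om.mk Z α) = ∫ z in O, pull (proj ∘ f) α.1 z e

/-- the standard real frame of `ℂ^d` -/
def fr (d : ℕ) : Fin (2 * d) → Fin d → ℂ := fun i =>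
  Pi.single ⟨i / 2, by omega⟩ (Complex.I ^ ((i : ℕ) % 2))

end Pool.Agent.QN
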