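import Pool.Agent.P.MP_65ad7c_ag.QN0

/-! Gluing of linear functionals. -/

open Set Pool.Agent.HT MeasureTheory Filter Topology Metric CategoryTheory TopologicalSpace Opposite
open scoped ContDiff

noncomputable section
namespace Pool.Agent.QN

theorem glue_dual {E : Type} [AddCommGroup E] [Module ℂ E] {κ : Type} (A : κ → Submodule ℂ E)
    (lam : ∀ i, Module.Dual ℂ (A i))
    (hc : ∀ i j (α : E) (hi : α ∈ A i) (hj : α ∈ A j), lam i ⟨α, hi⟩ = lam j ⟨α, hj⟩)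
    (pu : ∀ F : Finset E, (∀ α ∈ F, ∃ i, α ∈ A i) → ∃ (s : Finset κ) (T : κ → E →ₗ[ℂ] E),
      (∀ α ∈ F, ∑ j ∈ s, T j α = α) ∧ ∀ i j, ∀ α ∈ A i, T j α ∈ A i ⊓ A j) :
    ∃ Λ : Module.Dual ℂ E, ∀ i (α : A i), Λ α.1 = lam i α := by
  classical
  choose L hL using fun i => Subspace.dualRestrict_surjective (W := A i) (lam i)
  have hL' : ∀ i (α : E) (h : α ∈ A i), L i α = lam i ⟨α, h⟩ := fun i α h => by
    rw [← hL i]; rfl
  let φ : ((Σ i, A i) →₀ ℂ) →ₗ[ℂ] E := Finsupp.linearCombination ℂ fun p => p.2.1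
  let μ : Module.Dual ℂ ((Σ i, A i) →₀ ℂ) := Finsupp.linearCombination ℂ fun p => lam p.1 p.2
  have hk : μ ∈ (LinearMap.ker φ).dualAnnihilator := by
    rw [Submodule.mem_dualAnnihilator]
    intro x hx
    obtain ⟨s, T, h1, h2⟩ := pu (x.support.image fun p => p.2.1) fun α hα => by
      obtain ⟨p, -, rfl⟩ := Finset.mem_image.1 hα
      exact ⟨p.1, p.2.2⟩
    let Ψ : E →ₗ[ℂ] ℂ := ∑ j ∈ s, (L j).comp (T j)
    have h3 : ∀ p ∈ x.support, lam p.1 p.2 = Ψ p.2.1 := fun p hp => by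
      have e := h1 p.2.1 (Finset.mem_image_of_mem _ hp)
      have e1 : lam p.1 p.2 = L p.1 p.2.1 := (hL' p.1 p.2.1 p.2.2).symm
      rw [e1, LinearMap.sum_apply]
      conv_lhs => rw [← e]
      rw [map_sum]
      refine Finset.sum_congr rfl fun j _ => ?_
      have k := h2 p.1 j p.2.1 p.2.2
      rw [LinearMap.comp_apply, hL' p.1 _ k.1, hL' j _ k.2]
      exact hc _ _ _ _ _
    have h4 : μ x = Ψ (φ x) := by
      rw [Finsupp.linearCombination_apply, Finsupp.linearCombination_apply, Finsupp.sum,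
        Finsupp.sum, map_sum]
      exact Finset.sum_congr rfl fun p hp => by rw [map_smul, h3 p hp]
    rw [h4, LinearMap.mem_ker.1 hx, map_zero]
  rw [← LinearMap.range_dualMap_eq_dualAnnihilator_ker] at hk
  obtain ⟨Λ, hΛ⟩ := hk
  refine ⟨Λ, fun i α => ?_⟩
  have e := LinearMap.congr_fun hΛ (Finsupp.single ⟨i, α⟩ 1)
  rw [LinearMap.dualMap_apply, Finsupp.linearCombination_single, Finsupp.linearCombination_single,
    one_smul, one_smul] at e
  exact e

variable {Y : Type} [TopologicalSpace Y] (t : ℕ) {E : ℕ → Type} [∀ q, AddCommGroup (E q)]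
  [∀ q, Module ℂ (E q)] (A : Opens Y → ∀ q, Submodule ℂ (E q))
  (hA : ∀ V W, W ≤ V → ∀ q, A W q ≤ A V q)

theorem dualX_sheaf (hinf : ∀ V W q, A V q ⊓ A W q ≤ A (V ⊓ W) q)
    (pu : ∀ (κ : Type) (U : κ → Opens Y) (q : ℕ) (F : Finset (E q)),
      (∀ α ∈ F, α ∈ A (iSup U) q) → ∃ (s : Finset κ) (T : κ → E q →ₗ[ℂ] E q),
        (∀ α ∈ F, ∑ j ∈ s, T j α = α) ∧ (∀ j α, T j α ∈ A (U j) q) ∧
          ∀ V j, ∀ α ∈ A V q, T j α ∈ A V q) (j : ℕ) :
    (PW.dualX t A hA j).IsSheaf := by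
  rw [TopCat.Presheaf.isSheaf_iff_isSheafUniqueGluing]
  intro κ U sf hsf
  have ex : ∀ q : {q // q + j = t}, ∃ Λ : Module.Dual ℂ (E q.1),
      ∀ i (α : A (U i) q.1), Λ α.1 = sf i q α := fun q => by
    refine glue_dual (fun i => A (U i) q.1) (fun i => sf i q) (fun i k α hi hk => ?_)
      fun F hF => ?_
    · exact LinearMap.congr_fun (congrFun (hsf i k) q) ⟨α, hinf _ _ _ ⟨hi, hk⟩⟩
    · obtain ⟨s, T, h1, h2, h3⟩ := pu κ U q.1 F fun α hα => by
        obtain ⟨i, hi⟩ := hF α hα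
        exact hA _ _ (le_iSup U i) _ hi
      exact ⟨s, T, h1, fun i k α hα => ⟨h3 _ k α hα, h2 k α⟩⟩
  choose Λ hΛ using ex
  refine ⟨fun q => (Λ q).domRestrict _, fun i => funext fun q => LinearMap.ext fun α => hΛ q i α,
    fun y hy => funext fun q => LinearMap.ext fun α => ?_⟩
  obtain ⟨s, T, h1, h2, h3⟩ := pu κ U q.1 {α.1} fun β hβ => by
    rw [Finset.mem_singleton.1 hβ]; exact α.2
  have e := h1 α.1 (Finset.mem_singleton_self _)
  have e1 : α = ∑ k ∈ s, (⟨T k α.1, h3 _ k _ α.2⟩ : A (iSup U) q.1) :=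
    Subtype.ext (by rw [Submodule.coe_sum]; exact e.symm)
  refine (congrArg (y q) e1).trans ((map_sum _ _ _).trans ?_)
  refine Eq.trans ?_ (congrArg (Λ q) e)
  rw [map_sum]
  refine Finset.sum_congr rfl fun k _ => ?_
  exact (LinearMap.congr_fun (congrFun (hy k) q) ⟨T k α.1, h2 k _⟩).trans
    (hΛ q k ⟨T k α.1, h2 k _⟩).symm

theorem dualX_flabby (j : ℕ) (V W : Opens Y) (hle : W ≤ V) :
    Function.Surjective ((PW.dualX t A hA j).map (homOfLE hle).op).hom := by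
  intro y
  choose L hL using fun q : {q // q + j = t} =>
    Subspace.dualRestrict_surjective (W := A W q.1) (y q)
  exact ⟨fun q => (L q).domRestrict _, funext fun q => LinearMap.ext fun α =>
    LinearMap.congr_fun (hL q) α⟩

end Pool.Agent.QN
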