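import Pool.Agent.P.MP_65ad7c_ag.QNa
import Pool.Agent.P.MP_65ad7c_ag.QNb

/-! Partitions of unity; the duals of compactly supported forms are injective sheaves. -/

open Set Pool.Agent.HT MeasureTheory Filter Topology Metric CategoryTheory TopologicalSpace Opposite
open scoped ContDiff

noncomputable section
namespace Pool.Agent.QN

section gen
variable {V : Type} [NormedAddCommGroup V] [NormedSpace ℝ V] {n : ℕ}

theorem ac_inf (Z U U' : Set V) : Ac Z U n ⊓ Ac Z U' n ≤ Ac Z (U ∩ U') n := by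
  rintro α ⟨h1, h2⟩
  obtain ⟨a, rfl⟩ := Om.mk_surj α
  obtain ⟨K, hK, hKU, ha⟩ := mem_Ac.1 h1
  obtain ⟨K', hK', hKU', ha'⟩ := mem_Ac.1 h2
  refine mem_Ac.2 ⟨K ∩ K', hK.inter hK', inter_subset_inter hKU hKU', Nul.loc fun x hx => ?_⟩
  by_cases hxK : x ∈ K
  · exact ⟨K'ᶜ, hK'.isClosed.isOpen_compl.mem_nhds fun h' => hx.2 ⟨hxK, h'⟩,
      Nul.anti (fun y hy => mem_sdiff_of_mem hy.1.1 hy.2) ha'⟩
  · exact ⟨Kᶜ, hK.isClosed.isOpen_compl.mem_nhds hxK,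
      Nul.anti (fun y hy => mem_sdiff_of_mem hy.1.1 hy.2) ha⟩

theorem ac_empty (Z : Set V) : Ac Z ∅ n = ⊥ := by
  refine eq_bot_iff.2 fun α hα => ?_
  obtain ⟨a, rfl⟩ := Om.mk_surj α
  obtain ⟨K, -, hKU, ha⟩ := mem_Ac.1 hα
  exact Om.mk_eq_zero.2 (Nul.anti (fun y hy => mem_sdiff_of_mem hy fun h' => hKU h') ha)

theorem ac_pu [FiniteDimensional ℝ V] {Z : Set V} (hZ : IsCompact Z) {κ : Type} (W : κ → Set V)
    (hW : ∀ i, IsOpen (W i)) (F : Finset (Om Z n)) (hF : ∀ α ∈ F, α ∈ Ac Z (⋃ i, W i) n) :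
    ∃ (s : Finset κ) (T : κ → Om Z n →ₗ[ℂ] Om Z n), (∀ α ∈ F, ∑ j ∈ s, T j α = α) ∧
      (∀ j α, T j α ∈ Ac Z (Z ∩ W j) n) ∧
        ∀ (U : Set V) j, ∀ α ∈ Ac Z U n, T j α ∈ Ac Z U n := by
  choose! K hK hKU h0 using fun α hα => Ac.exists (hF α hα)
  have hc : IsCompact (⋃ α ∈ F, K α) := F.isCompact_biUnion hK
  obtain ⟨ρ, hρ⟩ := SmoothPartitionOfUnity.exists_isSubordinate (modelWithCornersSelf ℝ V)
    hc.isClosed W hW (iUnion₂_subset hKU)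
  have hs : ∀ i, ContDiff ℝ ∞ (ρ i) := fun i => (ρ i).contMDiff.contDiff
  have hT := ρ.locallyFinite.finite_nonempty_inter_compact hc
  let T : κ → Om Z n →ₗ[ℂ] Om Z n := fun j =>
    Submodule.mapQ (Nul Z n) (Nul Z n) (SF.fsmul (ρ j) (hs j) n) fun a ha => Nul.fsmul ha _ _
  have hTm : ∀ j a, T j (Om.mk Z a) = Om.mk Z (SF.fsmul (ρ j) (hs j) n a) := fun _ _ => rfl
  refine ⟨hT.toFinset, T, fun α hα => ?_, fun j α => ?_, fun U j α hα => ?_⟩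
  · have h1 := h0 α hα
    have h2 := hK α hα
    have h3 : K α ⊆ ⋃ α ∈ F, K α := subset_biUnion_of_mem (u := K) hα
    obtain ⟨a, rfl⟩ := Om.mk_surj α
    have ha : a ∈ Nul (Z \ K (Om.mk Z a)) n := Om.mk_eq_zero.1 h1
    change ∑ i ∈ hT.toFinset, (Nul Z n).mkQ (SF.fsmul (ρ i) (hs i) n a) = _
    rw [← map_sum]
    refine Om.mk_eq_mk.2 (mem_Nul.2 fun γ z hz => ?_)
    have e : (∑ i ∈ hT.toFinset, SF.fsmul (ρ i) (hs i) n a - a).1 (γ z) =
        (∑ i ∈ hT.toFinset, ρ i (γ z) - 1) • a.1 (γ z) := by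
      have := map_sum (sf V n).subtype (fun i => SF.fsmul (ρ i) (hs i) n a) hT.toFinset
      have h4 : (∑ i ∈ hT.toFinset, SF.fsmul (ρ i) (hs i) n a).1 (γ z) =
          ∑ i ∈ hT.toFinset, ρ i (γ z) • a.1 (γ z) :=
        (congrFun this (γ z)).trans (Finset.sum_apply _ _ _)
      rw [SF.val_sub, Pi.sub_apply, h4, ← Finset.sum_smul]
      ext w
      simp [sub_mul]
    ext v
    rw [pull_apply, e]
    by_cases hx : γ z ∈ K (Om.mk Z a)
    · have h5 : ∑ i ∈ hT.toFinset, ρ i (γ z) = 1 := ρ.sum_finsupport' _ (h3 hx) fun i hi =>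
        hT.mem_toFinset.2 ⟨γ z, (ρ.mem_finsupport _).1 hi, h3 hx⟩
      rw [h5, sub_self]
      simp
    · have h5 : pull γ a.1 z = 0 := by
        refine mem_Nul.1 ha γ z ?_
        filter_upwards [hz, hz.self_of_nhds.1.continuousAt
          (h2.isClosed.isOpen_compl.mem_nhds hx)] with y h6 h7 using ⟨h6.1, h6.2, h7⟩
      have h6 := DFunLike.congr_fun h5 v
      rw [pull_apply] at h6
      simp [h6]
  · obtain ⟨a, rfl⟩ := Om.mk_surj α
    rw [hTm]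
    refine mem_Ac.2 ⟨Z ∩ tsupport (ρ j), hZ.inter_right (isClosed_tsupport (ρ j)),
      inter_subset_inter_right _ (hρ j), Nul.of_zero fun x hx => ?_⟩
    rw [SF.fsmul_val, image_eq_zero_of_notMem_tsupport fun h => hx.2 ⟨hx.1, h⟩]
    ext v
    simp
  · obtain ⟨a, rfl⟩ := Om.mk_surj α
    obtain ⟨K', hK', hKU', ha⟩ := mem_Ac.1 hα
    rw [hTm]
    exact mem_Ac.2 ⟨K', hK', hKU', Nul.fsmul ha _ _⟩

end gen

variable {N d : ℕ} {ι : Type} {Z : Set (Amb N)} {D : ι → Set (Amb N)} {Y : Type}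
  [TopologicalSpace Y]

theorem up_open [Finite ι] (h : Geo d Z D) (π : C(↥(Z \ ⋃ i, D i), Y)) (V : Opens Y) :
    ∃ W, IsOpen W ∧ PW.up π V = Z ∩ W := by
  obtain ⟨W, hW, e⟩ := isOpen_induced_iff.1 (V.isOpen.preimage π.continuous)
  refine ⟨W ∩ (⋃ i, D i)ᶜ, hW.inter (isClosed_iUnion_of_finite h.closed).isOpen_compl, ?_⟩
  rw [PW.up, ← e]
  ext x
  constructor
  · rintro ⟨y, hy, rfl⟩
    exact ⟨y.2.1, hy, y.2.2⟩
  · intro hx
    exact ⟨⟨x, hx.1, hx.2.2⟩, hx.2.1, rfl⟩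

theorem kx_inj [Finite ι] (h : Geo d Z D) (π : C(↥(Z \ ⋃ i, D i), Y)) (e j : ℕ) :
    ∃ hs : ((PW.Kx e π).X j).IsSheaf,
      Injective (⟨(PW.Kx e π).X j, hs⟩ : TopCat.Sheaf (ModuleCat.{0} ℂ) (TopCat.of Y)) := by
  have hs : (PW.dualX (2 * e) (fun V q => Ac Z (PW.up π V) q) (fun _ _ => PW.ac_mono π)
      j).IsSheaf := by
    refine dualX_sheaf (2 * e) (fun V q => Ac Z (PW.up π V) q) (fun _ _ => PW.ac_mono π)
      (fun V W q => (ac_inf Z _ _).trans (Ac.mono Z ?_))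
      (fun κ U q F hF => ?_) j
    · rintro x ⟨⟨y, hy, rfl⟩, y', hy', e'⟩
      obtain rfl : y' = y := Subtype.ext e'
      exact ⟨y', ⟨hy, hy'⟩, rfl⟩
    · choose W hW hWe using fun i => up_open h π (U i)
      obtain ⟨s, T, h1, h2, h3⟩ := ac_pu h.compact W hW F fun α hα => Ac.mono Z (by
        rintro x ⟨y, hy, rfl⟩
        obtain ⟨i, hi⟩ := Opens.mem_iSup.1 hy
        have : y.1 ∈ PW.up π (U i) := ⟨y, hi, rfl⟩
        rw [hWe] at this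
        exact mem_iUnion.2 ⟨i, this.2⟩) (hF α hα)
      exact ⟨s, T, h1, fun i α => by rw [hWe]; exact h2 i α, fun V i => h3 _ i⟩
  exact ⟨hs, injective_of_flabby (Y := Y) _ hs (dualX_flabby (2 * e)
    (fun V q => Ac Z (PW.up π V) q) (fun _ _ => PW.ac_mono π) j)⟩

end Pool.Agent.QN
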