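import Pool.Agent.P.MP_65ad7c_ag.QNf

/-! The Poincare lemma with compact supports in top degree. -/

open Set Pool.Agent.HT MeasureTheory Filter Topology Metric
open scoped ContDiff

noncomputable section
namespace Pool.Agent.QN

variable {E : Type} [NormedAddCommGroup E] [NormedSpace ℝ E] [FiniteDimensional ℝ E] {m n : ℕ}

omit [FiniteDimensional ℝ E] in
theorem app_smooth_QNf2 (η : SF E n) (w : Fin n → E) : ContDiff ℝ ∞ fun x => η.1 x w :=
  (ContinuousAlternatingMap.apply ℝ E ℂ w).contDiff.comp η.smooth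

omit [FiniteDimensional ℝ E] in
theorem app_supp_QNf2 (η : SF E n) {C : Set E} (hC : IsCompact C) (hs : Off C η) (w : Fin n → E) :
    HasCompactSupport fun x => η.1 x w :=
  HasCompactSupport.intro hC fun x hx => by simp [hs x hx]

omit [FiniteDimensional ℝ E] in
theorem per_prod_QNf2 (b : Module.Basis (Fin m) ℝ E) {l u : Fin m → ℝ} (σ : SF E n)
    (hp : ∀ k, Per b l u k σ) (S : Finset (Fin m)) : ∀ x y : E,
    (∀ j ∉ S, b.repr x j = b.repr y j) →
    (∏ j ∈ S, rho (l j) (u j) (b.repr y j)) • σ.1 x =
      (∏ j ∈ S, rho (l j) (u j) (b.repr x j)) • σ.1 y := by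
  induction S using Finset.induction_on with
  | empty =>
    intro x y h
    have : x = y := b.repr.injective (Finsupp.ext fun j => h j (by simp))
    rw [this]
  | insert k S hk ih =>
    intro x y h
    have hz : ∀ j, j ≠ k → b.repr (y + (b.repr x k - b.repr y k) • b k) j = b.repr y j :=
      fun j hj => by simp [Finsupp.single_eq_of_ne hj]
    have h1 := ih x (y + (b.repr x k - b.repr y k) • b k) fun j hj => by
      by_cases hjk : j = k
      · subst hjk; simp
      · rw [hz j hjk]; exact h j (by simp [hjk, hj])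
    have h2 := hp k y (b.repr x k - b.repr y k)
    rw [add_sub_cancel] at h2
    rw [Finset.prod_congr rfl fun j hj => by
      rw [hz j fun e => hk (e ▸ hj)]] at h1
    rw [Finset.prod_insert hk, Finset.prod_insert hk, mul_smul, h1, smul_comm, h2, smul_smul,
      mul_comm]

omit [FiniteDimensional ℝ E] in
theorem top_zero_QNf2 (b : Module.Basis (Fin n) ℝ E) (a : E [⋀^Fin n]→L[ℝ] ℂ) (h : a b = 0) :
    a = 0 := by
  apply ContinuousAlternatingMap.toAlternatingMap_injective
  refine Module.Basis.ext_alternating b fun i hi => ?_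
  have e := a.toAlternatingMap.map_perm b
    (Equiv.ofBijective i (Finite.injective_iff_bijective.1 hi))
  have h' : a.toAlternatingMap b = 0 := h
  rw [h', smul_zero] at e
  exact e

theorem over_zero_QNf2 (b : Module.Basis (Fin n) ℝ E) (a : E [⋀^Fin (n + 1)]→L[ℝ] ℂ) : a = 0 := by
  ext v
  refine a.toAlternatingMap.map_linearDependent v fun hv => ?_
  have h1 := hv.fintype_card_le_finrank
  rw [Module.finrank_eq_card_basis b, Fintype.card_fin, Fintype.card_fin] at h1
  omega

variable [MeasurableSpace E] [BorelSpace E] (μ : Measure E) [μ.IsAddHaarMeasure]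

theorem int_fderiv_QNf2 {g : E → ℂ} (hg : ContDiff ℝ ∞ g) (hc : HasCompactSupport g) (v : E) :
    Integrable (fun x => fderiv ℝ g x v) μ ∧ ∫ x, fderiv ℝ g x v ∂μ = 0 := by
  have h1 : Integrable (fun x => fderiv ℝ g x v) μ :=
    ((hg.continuous_fderiv (by simp)).clm_apply continuous_const).integrable_of_hasCompactSupport
      (hc.fderiv_apply ℝ v)
  refine ⟨h1, ?_⟩
  have := integral_smul_fderiv_eq_neg_fderiv_smul_of_integrable (μ := μ)
    (f := fun _ : E => (1 : ℝ)) (g := g) (v := v) (by simp) (by simpa using h1)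
    (by simpa using hg.continuous.integrable_of_hasCompactSupport hc)
    (fun _ _ => differentiableAt_const _) (fun x _ => hg.differentiable (by simp) x)
  simpa using this

theorem stokesE (η : SF E n) {C : Set E} (hC : IsCompact C) (hs : Off C η) (v : Fin (n + 1) → E) :
    ∫ x, (SF.d n η).1 x v ∂μ = 0 := by
  have h := fun i : Fin (n + 1) => int_fderiv_QNf2 μ (app_smooth_QNf2 η (i.removeNth v))
    (app_supp_QNf2 η hC hs _) (v i)
  simp only [SF.d_val, ext_app η.smooth]
  rw [integral_finsetSum _ fun i _ => (h i).1.const_mul _]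
  refine Finset.sum_eq_zero fun i _ => ?_
  rw [integral_const_mul, (h i).2, mul_zero]

theorem zero_of_per (b : Module.Basis (Fin m) ℝ E) {l u : Fin m → ℝ} (hlu : ∀ k, l k < u k)
    (σ : SF E n) (hp : ∀ k, Per b l u k σ) (v : Fin n → E) (hi : ∫ x, σ.1 x v ∂μ = 0) (x : E) :
    σ.1 x v = 0 := by
  have hR : 0 < ∫ y, ∏ j, rho (l j) (u j) (b.repr y j) ∂μ := by
    choose t ht using fun j => rho_ne (hlu j)
    refine Continuous.integral_pos_of_hasCompactSupport_nonneg_nonzero (x := b.equivFun.symm t)
      (continuous_finsetProd _ fun j _ => (rho_cont _ _).comp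
        (b.coord j).continuous_of_finiteDimensional)
      (HasCompactSupport.intro (box_compact b l u) fun y hy => ?_)
      (fun y => Finset.prod_nonneg fun j _ => rho_nonneg (hlu j) _)
      (Finset.prod_ne_zero_iff.2 fun j _ => ?_)
    · obtain ⟨j, hj⟩ := not_forall.1 hy
      exact Finset.prod_eq_zero (Finset.mem_univ j) (rho_zero (hlu j) hj)
    · have : b.repr (b.equivFun.symm t) j = t j := by
        rw [← b.equivFun_apply, LinearEquiv.apply_symm_apply]
      rw [this]
      exact ht j
  have h1 : ∀ y, (∏ j, rho (l j) (u j) (b.repr y j)) • σ.1 x v =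
      (∏ j, rho (l j) (u j) (b.repr x j)) • σ.1 y v := fun y =>
    DFunLike.congr_fun (per_prod_QNf2 b σ hp Finset.univ x y fun j hj => absurd
      (Finset.mem_univ j) hj) v
  have h2 : (∫ y, ∏ j, rho (l j) (u j) (b.repr y j) ∂μ) • σ.1 x v = 0 := by
    rw [← integral_smul_const]
    simp only [h1]
    rw [integral_smul, hi, smul_zero]
  exact (smul_eq_zero.1 h2).resolve_left hR.ne'

theorem poin_top (b : Module.Basis (Fin n) ℝ E) {l u : Fin n → ℝ} (hlu : ∀ k, l k < u k)
    (σ : SF E n) (hs : Off (box b l u) σ) (hi : ∫ x, σ.1 x b ∂μ = 0) :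
    ExE (box b l u) n σ := by
  cases n with
  | zero =>
    exact SF.ext (funext fun x => top_zero_QNf2 b _
      (zero_of_per μ b hlu σ (fun k => k.elim0) b hi x))
  | succ n =>
    obtain ⟨η, h1, h2⟩ := poin_all b hlu σ hs (SF.ext (funext fun x => over_zero_QNf2 b _))
    refine ⟨η, h1, (sub_eq_zero.1 (SF.ext (funext fun x => top_zero_QNf2 b _
      (zero_of_per μ b hlu _ (fun k => (h2 k).2) b ?_ x)))).symm⟩
    have hc := box_compact b l u
    have i1 := (app_smooth_QNf2 σ b).continuous.integrable_of_hasCompactSupport (μ := μ)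
      (app_supp_QNf2 σ hc hs b)
    have i2 := (app_smooth_QNf2 (SF.d n η) b).continuous.integrable_of_hasCompactSupport (μ := μ)
      (app_supp_QNf2 _ hc (h1.d hc.isClosed) b)
    have e := integral_sub i1 i2
    rw [hi, stokesE μ η hc h1 b, sub_zero] at e
    exact e

end Pool.Agent.QN
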