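import Pool.Agent.P.MP_65ad7c_ag.QNg

/-! Transfer of forms between a chart and the manifold. -/

open Set Pool.Agent.HT MeasureTheory Filter Topology Metric
open scoped ContDiff

noncomputable section
namespace Pool.Agent.QN

variable {N d n m : ℕ} {ι : Type} {Z : Set (Amb N)} {D : ι → Set (Amb N)} (A : AC d Z D)

theorem to_chart {K : Set (Amb N)} (hK : IsCompact K) (hKW : K ⊆ Z ∩ A.W) {α : SF (Amb N) n}
    (hα : α ∈ Nul (Z \ K) n) : ∃ σ : SF (Fin d → ℂ) n, Off (A.φ '' K) σ ∧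
      ∀ z ∈ ball A.c A.ρ, σ.1 z = pull A.ψ α.1 z := by
  have hc : IsClosed (A.φ '' K) := (hK.image A.φ_smooth.continuous).isClosed
  have key : ∀ z ∈ ball A.c A.ρ, z ∉ A.φ '' K → pull A.ψ α.1 z = 0 := fun z hz hz' => by
    refine Nul.gen hα ?_
    filter_upwards [isOpen_ball.mem_nhds hz, hc.isOpen_compl.mem_nhds hz'] with y h1 h2
    exact ⟨A.ψ_smooth.contDiffAt, (A.ψ_mem y h1).1, fun h => h2 ⟨_, h, A.φψ y h1⟩⟩
  have off : ∀ z ∉ A.φ '' K, indicator (ball A.c A.ρ) (pull A.ψ α.1) z = 0 := fun z hz => by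
    by_cases h : z ∈ ball A.c A.ρ
    · rw [indicator_of_mem h, key z h hz]
    · exact indicator_of_notMem h _
  refine ⟨SF.mk (indicator (ball A.c A.ρ) (pull A.ψ α.1)) (contDiff_iff_contDiffAt.2 fun z => ?_),
    off, fun z hz => indicator_of_mem hz _⟩
  by_cases h : z ∈ ball A.c A.ρ
  · refine (pull_contDiff A.ψ_smooth α.smooth).contDiffAt.congr_of_eventuallyEq ?_
    filter_upwards [isOpen_ball.mem_nhds h] with y hy using indicator_of_mem hy _
  · have hz : z ∉ A.φ '' K := fun ⟨y, hy, e⟩ => h (e ▸ A.φ_mem y (hKW hy).2)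
    refine (contDiffAt_const (c := 0)).congr_of_eventuallyEq ?_
    filter_upwards [hc.isOpen_compl.mem_nhds hz] with y hy using off y hy

theorem of_chart {C : Set (Fin d → ℂ)} (hC : IsCompact C) (hCb : C ⊆ ball A.c A.ρ)
    {η : SF (Fin d → ℂ) n} (hη : Off C η) : ∃ β : SF (Amb N) n, β ∈ Nul (Z \ A.ψ '' C) n ∧
      ∀ z ∈ ball A.c A.ρ, pull A.ψ β.1 z = η.1 z := by
  obtain ⟨χ, h1, -, h2, -, h3⟩ := Wein.exists_bump (A.ψ '' C) A.W (hC.image A.ψ_smooth.continuous)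
    A.W_open (by rintro _ ⟨z, hz, rfl⟩; exact (A.ψ_mem z (hCb hz)).2)
  refine ⟨SF.fsmul χ h1 n (SF.mk (pull A.φ η.1) (pull_contDiff A.φ_smooth η.smooth)),
    Nul.of_zero fun y hy => ?_, fun z hz => ?_⟩
  · rw [SF.fsmul_val, SF.mk_val]
    by_cases hW : y ∈ A.W
    · have : η.1 (A.φ y) = 0 := hη _ fun h => hy.2 ⟨_, h, A.ψφ y ⟨hy.1, hW⟩⟩
      ext v
      simp [pull_apply, this]
    · rw [image_eq_zero_of_notMem_tsupport fun h => hW (h2 h)]
      ext v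
      simp
  · have e1 : pull A.ψ (pull A.φ η.1) z = η.1 z := by
      rw [← pull_comp _ (cda_diff A.ψ_smooth.contDiffAt) (cda_diff A.φ_smooth.contDiffAt),
        pull_congr (G' := id) _ ?_]
      · ext v
        simp [pull_apply]
      · filter_upwards [isOpen_ball.mem_nhds hz] with y hy using A.φψ y hy
    ext v
    have e2 := DFunLike.congr_fun e1 v
    rw [pull_apply] at e2 ⊢
    rw [SF.fsmul_val, SF.mk_val, ContinuousAlternatingMap.smul_apply, e2]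
    by_cases hC' : z ∈ C
    · rw [h3.self_of_nhdsSet _ ⟨z, hC', rfl⟩, one_smul]
    · simp [hη z hC']

theorem nul_of_chart {K : Set (Amb N)} (hK : IsCompact K) (hKW : K ⊆ A.W) {α : SF (Amb N) n}
    (hα : α ∈ Nul (Z \ K) n) (h0 : ∀ z ∈ ball A.c A.ρ, pull A.ψ α.1 z = 0) : α ∈ Nul Z n := by
  refine Nul.loc fun x _ => ?_
  by_cases hx : x ∈ A.W
  · refine ⟨A.W, A.W_open.mem_nhds hx, mem_Nul.2 fun γ z hz => ?_⟩
    have hz' := hz.self_of_nhds
    rw [pull_congr (G' := A.ψ ∘ (A.φ ∘ γ)) _ (hz.mono fun y hy => (A.ψφ _ hy.2).symm),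
      pull_comp _ (cda_diff (A.φ_smooth.contDiffAt.comp z hz'.1)) (cda_diff A.ψ_smooth.contDiffAt)]
    ext v
    rw [pull_apply, h0 ((A.φ ∘ γ) z) (A.φ_mem _ hz'.2.2)]
    rfl
  · exact ⟨Kᶜ, hK.isClosed.isOpen_compl.mem_nhds fun h => hx (hKW h), hα⟩

end Pool.Agent.QN
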