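import Pool.Agent.P.MP_65ad7c_ag.QNh

/-! The integral of a top degree form does not depend on the chart. -/

open Set Pool.Agent.HT MeasureTheory Filter Topology Metric
open scoped ContDiff

noncomputable section
namespace Pool.Agent.QN

variable {N d n m : ℕ} {Z : Set (Amb N)} {O O' : Set (Fin d → ℂ)}
  {f f' : (Fin d → ℂ) → Fin N → ℂ}

lemma det_nonneg_QNh2 (L : (Fin d → ℂ) →L[ℝ] (Fin d → ℂ))
    (hL : ∀ v, L (Complex.I • v) = Complex.I • L v) : 0 ≤ L.det := by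
  have e : ∀ (c : ℂ) (v : Fin d → ℂ), c • v = c.re • v + c.im • (Complex.I • v) := fun c v => by
    ext i
    simp only [Pi.smul_apply, Pi.add_apply, smul_eq_mul, Complex.real_smul]
    conv_lhs => rw [← Complex.re_add_im c]
    ring
  let M : (Fin d → ℂ) →ₗ[ℂ] (Fin d → ℂ) :=
    { toFun := L
      map_add' := L.map_add
      map_smul' := fun c v => by
        rw [RingHom.id_apply, e c v, e c (L v), map_add, map_smul, map_smul, hL] }
  have h1 : (L : (Fin d → ℂ) →ₗ[ℝ] (Fin d → ℂ)) = M.restrictScalars ℝ := rfl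
  rw [ContinuousLinearMap.det, h1, LinearMap.det_restrictScalars, Algebra.norm_complex_apply]
  exact Complex.normSq_nonneg _

lemma alt_comp_QNh2 (b : Module.Basis (Fin m) ℝ (Fin d → ℂ))
    (a : (Fin d → ℂ) [⋀^Fin m]→L[ℝ] ℂ) (L : (Fin d → ℂ) →L[ℝ] (Fin d → ℂ)) :
    a (L ∘ b) = L.det • a b := by
  have key : ∀ g : ℂ →ₗ[ℝ] ℝ, g (a (L ∘ b)) = L.det * g (a b) := fun g => by
    have h1 := (g.compAlternatingMap a.toAlternatingMap).eq_smul_basis_det b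
    have h2 := DFunLike.congr_fun h1 ((L : (Fin d → ℂ) →ₗ[ℝ] (Fin d → ℂ)) ∘ b)
    rw [AlternatingMap.smul_apply, Module.Basis.det_comp, Module.Basis.det_self] at h2
    refine h2.trans ?_
    rw [smul_eq_mul, mul_one, mul_comm]
    rfl
  apply Complex.ext
  · simpa using key Complex.reLm
  · simpa using key Complex.imLm

lemma memZ_QNh2 (h : IsChart Z O f) {z : Fin d → ℂ} (hz : z ∈ O) : (proj ∘ f) z ∈ Z := by
  obtain ⟨W, -, e⟩ := h.opn O Subset.rfl h.isOpen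
  exact (e.subset ⟨z, hz, rfl⟩).1

lemma open_QNh2 (h : IsChart Z O f) (h' : IsChart Z O' f') :
    IsOpen (O ∩ (proj ∘ f) ⁻¹' ((proj ∘ f') '' O')) := by
  obtain ⟨W, hW, e⟩ := h'.opn O' Subset.rfl h'.isOpen
  have h1 : O ∩ (proj ∘ f) ⁻¹' ((proj ∘ f') '' O') = O ∩ (proj ∘ f) ⁻¹' W := by
    rw [e]
    ext z
    exact ⟨fun hz => ⟨hz.1, hz.2.2⟩, fun hz => ⟨hz.1, memZ_QNh2 h hz.1, hz.2⟩⟩
  rw [h1]
  exact ContinuousOn.isOpen_inter_preimage
    (fun z hz => (h.smooth hz).continuousAt.continuousWithinAt) h.isOpen hW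

lemma restrict_QNh2 (h : IsChart Z O f) {α : SF (Amb N) m} {U : Set (Amb N)}
    (hα : Om.mk Z α ∈ Ac Z U m) (e : Fin m → Fin d → ℂ) :
    ∫ z in O, pull (proj ∘ f) α.1 z e = ∫ z in O ∩ (proj ∘ f) ⁻¹' U, pull (proj ∘ f) α.1 z e := by
  obtain ⟨K, hK, hKU, h0⟩ := mem_Ac.1 hα
  refine setIntegral_eq_of_subset_of_forall_sdiff_eq_zero h.isOpen.measurableSet
    inter_subset_left fun z hz => ?_
  rw [pull_zero_off h hK h0 hz.1 fun hzK => hz.2 ⟨hz.1, hKU hzK⟩]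
  rfl

lemma trans_QNh2 (h : IsChart Z O f) (h' : IsChart Z O' f') {z : Fin d → ℂ} (hz : z ∈ O)
    (hz' : (proj ∘ f) z ∈ (proj ∘ f') '' O') :
    DifferentiableAt ℝ (Function.invFunOn (proj ∘ f') O' ∘ (proj ∘ f)) z ∧
      (proj ∘ f') ∘ (Function.invFunOn (proj ∘ f') O' ∘ (proj ∘ f)) =ᶠ[𝓝 z] proj ∘ f := by
  have hm : Function.invFunOn (proj ∘ f') O' ((proj ∘ f) z) ∈ O' := Function.invFunOn_mem hz'
  have he : (proj ∘ f') (Function.invFunOn (proj ∘ f') O' ((proj ∘ f) z)) = (proj ∘ f) z :=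
    Function.invFunOn_eq hz'
  obtain ⟨ρ, hρ, W, φ, hb, hW, hφ, hmap, h1, h2⟩ := h'.exists_inv hm
  have hzW : (proj ∘ f) z ∈ W := he ▸ (h1 _ (mem_ball_self hρ)).1.2
  have hev : ∀ᶠ y in 𝓝 z, y ∈ O ∧ (proj ∘ f) y ∈ W :=
    (show ∀ᶠ y in 𝓝 z, y ∈ O from h.isOpen.mem_nhds hz).and
      ((h.smooth hz).continuousAt.eventually_mem (hW.mem_nhds hzW))
  have him : ∀ y, y ∈ O ∧ (proj ∘ f) y ∈ W → ∃ a ∈ O', (proj ∘ f') a = (proj ∘ f) y :=
    fun y hy => ⟨φ ((proj ∘ f) y), hb (hmap hy.2), h2 _ ⟨memZ_QNh2 h hy.1, hy.2⟩⟩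
  refine ⟨?_, ?_⟩
  · have h3 : DifferentiableAt ℝ (φ ∘ (proj ∘ f)) z :=
      (cda_diff (hφ.contDiffAt (hW.mem_nhds hzW))).comp z (cda_diff (h.smooth hz))
    refine h3.congr_of_eventuallyEq ?_
    filter_upwards [hev] with y hy
    exact h'.inj (Function.invFunOn_mem (him y hy)) (hb (hmap hy.2))
      ((Function.invFunOn_eq (him y hy)).trans (h2 _ ⟨memZ_QNh2 h hy.1, hy.2⟩).symm)
  · filter_upwards [hev] with y hy
    exact Function.invFunOn_eq (him y hy)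

lemma hol_QNh2 (h : IsChart Z O f) (h' : IsChart Z O' f') {τ : (Fin d → ℂ) → Fin d → ℂ}
    {z : Fin d → ℂ} (hz : z ∈ O) (hz' : τ z ∈ O') (hτ : DifferentiableAt ℝ τ z)
    (he : (proj ∘ f') ∘ τ =ᶠ[𝓝 z] proj ∘ f) (v : Fin d → ℂ) :
    fderiv ℝ τ z (Complex.I • v) = Complex.I • fderiv ℝ τ z v := by
  have h1 : ∀ w, fderiv ℝ (proj ∘ f') (τ z) (fderiv ℝ τ z w) = fderiv ℝ (proj ∘ f) z w := fun w => by
    rw [← he.fderiv_eq, fderiv_comp z (cda_diff (h'.smooth hz')) hτ]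
    rfl
  have h2 : proj (f' (τ z)) = proj (f z) := he.self_of_nhds
  apply h'.fderiv_inj hz'
  rw [h1, ← JP_hol (h.hol.differentiableAt (h.isOpen.mem_nhds hz)) (h.ne z hz),
    ← JP_hol (h'.hol.differentiableAt (h'.isOpen.mem_nhds hz')) (h'.ne _ hz'), h1, h2]

theorem chart_change (b : Module.Basis (Fin m) ℝ (Fin d → ℂ)) (h : IsChart Z O f)
    (h' : IsChart Z O' f') {α : SF (Amb N) m} (hα : Om.mk Z α ∈ Ac Z ((proj ∘ f) '' O) m)
    (hα' : Om.mk Z α ∈ Ac Z ((proj ∘ f') '' O') m) :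
    ∫ z in O, pull (proj ∘ f) α.1 z b = ∫ z in O', pull (proj ∘ f') α.1 z b := by
  rw [restrict_QNh2 h hα', restrict_QNh2 h' hα]
  set τ := Function.invFunOn (proj ∘ f') O' ∘ (proj ∘ f) with hτ
  have hm : ∀ z ∈ O ∩ (proj ∘ f) ⁻¹' ((proj ∘ f') '' O'), τ z ∈ O' := fun z hz =>
    Function.invFunOn_mem hz.2
  have he : ∀ z ∈ O ∩ (proj ∘ f) ⁻¹' ((proj ∘ f') '' O'), (proj ∘ f') (τ z) = (proj ∘ f) z :=
    fun z hz => Function.invFunOn_eq hz.2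
  have him : τ '' (O ∩ (proj ∘ f) ⁻¹' ((proj ∘ f') '' O')) =
      O' ∩ (proj ∘ f') ⁻¹' ((proj ∘ f) '' O) := by
    ext y
    constructor
    · rintro ⟨z, hz, rfl⟩
      exact ⟨hm z hz, z, hz.1, (he z hz).symm⟩
    · rintro ⟨hy, z, hz, e⟩
      have hz' : z ∈ O ∩ (proj ∘ f) ⁻¹' ((proj ∘ f') '' O') := ⟨hz, y, hy, e.symm⟩
      exact ⟨z, hz', h'.inj (hm z hz') hy ((he z hz').trans e)⟩
  have hinj : InjOn τ (O ∩ (proj ∘ f) ⁻¹' ((proj ∘ f') '' O')) := fun z hz y hy e =>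
    h.inj hz.1 hy.1 ((he z hz).symm.trans ((congrArg (proj ∘ f') e).trans (he y hy)))
  rw [← him, integral_image_eq_integral_abs_det_fderiv_smul volume
    (open_QNh2 h h').measurableSet (f' := fun z => fderiv ℝ τ z)
    (fun z hz => (trans_QNh2 h h' hz.1 hz.2).1.hasFDerivAt.hasFDerivWithinAt) hinj]
  refine setIntegral_congr_fun (open_QNh2 h h').measurableSet fun z hz => ?_
  obtain ⟨h1, h2⟩ := trans_QNh2 h h' hz.1 hz.2
  have h3 := det_nonneg_QNh2 _ (hol_QNh2 h h' hz.1 (hm z hz) h1 h2)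
  rw [abs_of_nonneg h3, ← alt_comp_QNh2, ← pull_congr α.1 h2,
    pull_comp α.1 h1 (cda_diff (h'.smooth (hm z hz))), pull_apply]

end Pool.Agent.QN
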