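import Pool.Agent.P.MP_65ad7c_ag.QNc
import Pool.Agent.P.MP_65ad7c_ag.QNh2

/-! Integration over the manifold. -/

open Set Pool.Agent.HT MeasureTheory Filter Topology Metric
open scoped ContDiff

noncomputable section
namespace Pool.Agent.QN

variable {N d n m : ℕ} {ι : Type} {Z : Set (Amb N)} {D : ι → Set (Amb N)}

theorem indep_QNi {O : Set (Fin d → ℂ)} {f : (Fin d → ℂ) → Fin N → ℂ} (h : IsChart Z O f)
    {a a' : SF (Amb N) n} (e : Om.mk Z a = Om.mk Z a') (v : Fin n → Fin d → ℂ) :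
    ∫ z in O, pull (proj ∘ f) a.1 z v = ∫ z in O, pull (proj ∘ f) a'.1 z v := by
  refine setIntegral_congr_fun h.isOpen.measurableSet fun z hz => ?_
  have h0 : a - a' ∈ Nul (Z \ ∅) n := by
    rw [sdiff_empty]
    exact Om.mk_eq_mk.1 e
  have h1 := DFunLike.congr_fun (pull_zero_off h isCompact_empty h0 hz (notMem_empty _)) v
  have h2 : pull (proj ∘ f) (a - a').1 z v =
      pull (proj ∘ f) a.1 z v - pull (proj ∘ f) a'.1 z v := by
    simp [pull]
  rw [h2] at h1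
  exact sub_eq_zero.1 h1

theorem exists_loc_QNi {O : Set (Fin d → ℂ)} {f : (Fin d → ℂ) → Fin N → ℂ} (h : IsChart Z O f)
    (v : Fin n → Fin d → ℂ) :
    ∃ l : Module.Dual ℂ (Ac Z ((proj ∘ f) '' O) n), ∀ (a : SF (Amb N) n)
      (ha : Om.mk Z a ∈ Ac Z ((proj ∘ f) '' O) n),
        l ⟨Om.mk Z a, ha⟩ = ∫ z in O, pull (proj ∘ f) a.1 z v := by
  choose r hr using (Om.mk_surj : ∀ α : Om Z n, ∃ a, Om.mk Z a = α)
  have hm : ∀ x : Ac Z ((proj ∘ f) '' O) n, Om.mk Z (r x.1) ∈ Ac Z ((proj ∘ f) '' O) n :=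
    fun x => by rw [hr]; exact x.2
  refine ⟨⟨⟨fun x => ∫ z in O, pull (proj ∘ f) (r x.1).1 z v, fun x y => ?_⟩, fun c x => ?_⟩,
    fun a ha => indep_QNi h (hr _) v⟩
  · have e : Om.mk Z (r (x + y).1) = Om.mk Z (r x.1 + r y.1) := by
      rw [hr]
      change _ = Om.mk Z (r x.1) + Om.mk Z (r y.1)
      rw [hr, hr]
      rfl
    rw [indep_QNi h e v,
      ← integral_add (chart_integrable h (hm x) v) (chart_integrable h (hm y) v)]
    refine integral_congr_ae (Eventually.of_forall fun z => ?_)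
    simp [pull]
  · have e : Om.mk Z (r (c • x).1) = Om.mk Z (c • r x.1) := by
      rw [hr]
      change _ = c • Om.mk Z (r x.1)
      rw [hr]
      rfl
    change ∫ z in O, pull (proj ∘ f) (r (c • x).1).1 z v =
      c * ∫ z in O, pull (proj ∘ f) (r x.1).1 z v
    rw [indep_QNi h e v, ← integral_const_mul]
    refine integral_congr_ae (Eventually.of_forall fun z => ?_)
    simp [pull]

theorem exists_lam (h : Geo d Z D) (b : Module.Basis (Fin m) ℝ (Fin d → ℂ)) :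
    ∃ lam : Module.Dual ℂ (Om Z m), IsLam Z b lam := by
  let κ := {p : Set (Fin d → ℂ) × ((Fin d → ℂ) → Fin N → ℂ) // IsChart Z p.1 p.2}
  choose l hl using fun p : κ => exists_loc_QNi (n := m) p.2 b
  choose W hW hWe using fun p : κ => p.2.opn p.1.1 Subset.rfl p.2.isOpen
  obtain ⟨Λ, hΛ⟩ := glue_dual (fun p : κ => Ac Z ((proj ∘ p.1.2) '' p.1.1) m) l
    (fun p q α hp hq => by
      obtain ⟨a, rfl⟩ := Om.mk_surj α
      rw [hl p a hp, hl q a hq]
      exact chart_change b p.2 q.2 hp hq)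
    (fun F hF => by
      obtain ⟨s, T, h1, h2, h3⟩ := ac_pu h.compact W hW F fun α hα => by
        obtain ⟨p, hp⟩ := hF α hα
        refine Ac.mono Z ?_ hp
        rw [hWe p]
        exact inter_subset_right.trans (subset_iUnion W p)
      refine ⟨s, T, h1, fun p q α hα => ⟨h3 _ q α hα, ?_⟩⟩
      have h4 := h2 q α
      rw [← hWe q] at h4
      exact h4)
  refine ⟨Λ, fun O f hc α hα => ?_⟩
  exact (hΛ ⟨(O, f), hc⟩ ⟨Om.mk Z α, hα⟩).trans (hl ⟨(O, f), hc⟩ α hα)

end Pool.Agent.QN
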