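import Pool.Agent.P.MP_65ad7c_ag.QNf2
import Pool.Agent.P.MP_65ad7c_ag.QNg2

/-! Stokes theorem and a form with non-zero integral. -/

open Set Pool.Agent.HT MeasureTheory Filter Topology Metric
open scoped ContDiff

noncomputable section
namespace Pool.Agent.QN

variable {N d n m : ℕ} {ι : Type} {Z : Set (Amb N)} {D : ι → Set (Amb N)}

theorem stokes_chart_QNi2 (A : AC d Z D) {e : Fin (n + 1) → Fin d → ℂ}
    {lam : Module.Dual ℂ (Om Z (n + 1))} (hl : IsLam Z e lam) {β : Om Z n}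
    (hβ : β ∈ Ac Z (Z ∩ A.W) n) : lam (Om.d Z n β) = 0 := by
  obtain ⟨a, rfl⟩ := Om.mk_surj β
  have hd := Ac.d_mem hβ
  obtain ⟨K, hK, hKW, ha⟩ := mem_Ac.1 hβ
  obtain ⟨σ, hσ, hσb⟩ := to_chart A hK hKW ha
  have hC : IsCompact (A.φ '' K) := hK.image A.φ_smooth.continuous
  rw [← ac_image A] at hd
  have h1 := hl _ _ (ac_isChart A) (SF.d n a) hd
  refine Eq.trans h1 ?_
  have h2 : ∀ z ∈ ball A.c A.ρ,
      pull (proj ∘ A.f) (SF.d n a).1 z e = (SF.d n σ).1 z e := fun z hz => by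
    have h3 : σ.1 =ᶠ[𝓝 z] pull A.ψ a.1 := by
      filter_upwards [isOpen_ball.mem_nhds hz] with y hy using hσb y hy
    rw [ac_pull A _ hz, SF.d_val, SF.d_val, h3.extDeriv_eq,
      pull_extDeriv A.ψ_smooth.contDiffAt (a.diff _)]
  rw [setIntegral_congr_fun measurableSet_ball h2,
    setIntegral_eq_integral_of_forall_compl_eq_zero, stokesE volume σ hC hσ e]
  intro z hz
  rw [Off.d hC.isClosed hσ z]
  · rfl
  · rintro ⟨y, hy, rfl⟩
    exact hz (A.φ_mem y (hKW hy).2)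

theorem IsLam.stokes (h : Geo d Z D) {e : Fin (n + 1) → Fin d → ℂ}
    {lam : Module.Dual ℂ (Om Z (n + 1))} (hl : IsLam Z e lam) (β : Om Z n) :
    lam (Om.d Z n β) = 0 := by
  choose A hA using fun x : Z => h.chart x x.2
  have hβ : β ∈ Ac Z univ n := by
    obtain ⟨a, rfl⟩ := Om.mk_surj β
    refine mem_Ac.2 ⟨Z, h.compact, subset_univ _, Nul.of_zero fun x hx => ?_⟩
    exact (hx.2 hx.1).elim
  have hc : Z ⊆ ⋃ x : Z, (A x).W := fun x hx => mem_iUnion.2 ⟨⟨x, hx⟩, by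
    have h1 := ((A ⟨x, hx⟩).ψ_mem _ (mem_ball_self (A ⟨x, hx⟩).ρ_pos)).2
    rwa [hA] at h1⟩
  have key : (⨆ x : Z, Ac Z univ n ⊓ Ac Z (Z ∩ (A x).W) n) ≤
      LinearMap.ker (lam.comp (Om.d Z n)) :=
    iSup_le fun x γ hγ => stokes_chart_QNi2 (A x) hl hγ.2
  exact key (Ac.le_iSup h.compact _ (fun x => (A x).W_open) hc hβ)

theorem exists_det_QNi2 {E : Type} [NormedAddCommGroup E] [NormedSpace ℝ E]
    [FiniteDimensional ℝ E] (b : Module.Basis (Fin m) ℝ E) :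
    ∃ δ : E [⋀^Fin m]→L[ℝ] ℂ, δ b = 1 := by
  have hc : Continuous fun v : Fin m → E => (b.toMatrix v).det :=
    Continuous.matrix_det (continuous_matrix fun i j =>
      (b.coord i).continuous_of_finiteDimensional.comp (continuous_apply j))
  let δ : E [⋀^Fin m]→L[ℝ] ℝ := { b.det with cont := hc }
  refine ⟨Complex.ofRealCLM.compContinuousAlternatingMap δ, ?_⟩
  have h1 : δ b = 1 := b.det_self
  simp [h1]

theorem IsLam.ne (h : Geo d Z D) {b : Module.Basis (Fin m) ℝ (Fin d → ℂ)}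
    {lam : Module.Dual ℂ (Om Z m)} (hl : IsLam Z b lam) {x : Amb N} (hx : x ∈ Z)
    {G : Set (Amb N)} (hG : IsOpen G) (hxG : x ∈ G) : ∃ α ∈ Ac Z (Z ∩ G) m, lam α ≠ 0 := by
  obtain ⟨A, hA⟩ := h.chart x hx
  obtain ⟨δ, hδ⟩ := exists_det_QNi2 b
  have hO : IsOpen (ball A.c A.ρ ∩ A.ψ ⁻¹' G) :=
    isOpen_ball.inter (hG.preimage A.ψ_smooth.continuous)
  obtain ⟨χ, hχ, hχc, hχs, hχ0, hχ1⟩ := Wein.exists_bump {A.c} _ isCompact_singleton hO
    (singleton_subset_iff.2 ⟨mem_ball_self A.ρ_pos, by rw [mem_preimage, hA]; exact hxG⟩)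
  have hc1 : χ A.c = 1 := hχ1.self_of_nhdsSet _ rfl
  let η : SF (Fin d → ℂ) m := SF.fsmul χ hχ m (SF.mk (fun _ => δ) contDiff_const)
  have hη : Off (tsupport χ) η := fun z hz => by
    change χ z • δ = 0
    rw [image_eq_zero_of_notMem_tsupport hz]
    ext v
    simp
  obtain ⟨β, hβ, hβb⟩ := of_chart A hχc (hχs.trans inter_subset_left) hη
  have hK : IsCompact (A.ψ '' tsupport χ) := hχc.isCompact.image A.ψ_smooth.continuous
  refine ⟨Om.mk Z β, mem_Ac.2 ⟨_, hK, ?_, hβ⟩, ?_⟩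
  · rintro _ ⟨z, hz, rfl⟩
    exact ⟨(A.ψ_mem z (hχs hz).1).1, (hχs hz).2⟩
  have h1 : Om.mk Z β ∈ Ac Z ((proj ∘ A.f) '' ball A.c A.ρ) m := by
    rw [ac_image A]
    refine mem_Ac.2 ⟨_, hK, ?_, hβ⟩
    rintro _ ⟨z, hz, rfl⟩
    exact A.ψ_mem z (hχs hz).1
  have h2 : ∀ z ∈ ball A.c A.ρ, pull (proj ∘ A.f) β.1 z b = (χ z : ℂ) := fun z hz => by
    rw [ac_pull A _ hz, hβb z hz]
    change χ z • δ b = _
    rw [hδ, Complex.real_smul, mul_one]
  rw [hl _ _ (ac_isChart A) β h1, setIntegral_congr_fun measurableSet_ball h2,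
    setIntegral_eq_integral_of_forall_compl_eq_zero, integral_complex_ofReal]
  · exact Complex.ofReal_ne_zero.2 (hχ.continuous.integral_pos_of_hasCompactSupport_nonneg_nonzero
      hχc (fun z => (hχ0 z).1) (x := A.c) (by rw [hc1]; exact one_ne_zero)).ne'
  · intro z hz
    rw [image_eq_zero_of_notMem_tsupport fun h' => hz (hχs h').1, Complex.ofReal_zero]

end Pool.Agent.QN
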