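import Pool.Agent.P.MP_65ad7c_ag.HDefs
import Pool.Agent.P.MP_e3ee0c_gt.WTub

/-! Internal definitions of block H: the type operator, adapted charts, Kaehler retracts. -/

open Set Filter Topology Metric
open scoped ContDiff ComplexConjugate InnerProductSpace

noncomputable section
namespace Pool.Agent.HT
open Pool.Agent.Wein (Ret)

section forms
variable {V : Type} [NormedAddCommGroup V] [NormedSpace ℝ V] {n : ℕ}

/-- alternating forms -/
abbrev Alt (V : Type) [NormedAddCommGroup V] [NormedSpace ℝ V] (n : ℕ) := V [⋀^Fin n]→L[ℝ] ℂ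

/-- a smooth form from a form and a proof -/
def SF.mk (α : Form V n) (h : ContDiff ℝ ∞ α) : SF V n := ⟨α, h⟩

@[simp] theorem SF.mk_val (α : Form V n) (h : ContDiff ℝ ∞ α) : (SF.mk α h).1 = α := rfl

@[ext] theorem SF.ext {a b : SF V n} (h : a.1 = b.1) : a = b := Subtype.ext h

@[simp] theorem SF.d_val (a : SF V n) : (SF.d n a).1 = extDeriv a.1 := rfl

/-- the class of a smooth form -/
abbrev Om.mk (S : Set V) (α : SF V n) : Om S n := Submodule.Quotient.mk α

/-- multiplication by a smooth function -/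
def SF.fsmul (χ : V → ℝ) (hχ : ContDiff ℝ ∞ χ) (n : ℕ) : SF V n →ₗ[ℂ] SF V n where
  toFun α := SF.mk (fun x => χ x • α.1 x) (hχ.smul α.smooth)
  map_add' a b := SF.ext (by ext x v; simp)
  map_smul' c a := SF.ext (by ext x v; simp; ring)

@[simp] theorem SF.fsmul_val (χ : V → ℝ) (hχ : ContDiff ℝ ∞ χ) (α : SF V n) (x : V) :
    (SF.fsmul χ hχ n α).1 x = χ x • α.1 x := rfl

/-- the derivation of the algebra of alternating forms induced by `M` -/
def der (M : V →L[ℝ] V) (a : Alt V n) : Alt V n :=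
  a.fderivCompContinuousLinearMap (ContinuousLinearMap.id ℝ V) M

theorem der_apply (M : V →L[ℝ] V) (a : Alt V n) (v : Fin n → V) :
    der M a v = ∑ i, a (Function.update v i (M (v i))) := by
  simp only [der, ContinuousAlternatingMap.fderivCompContinuousLinearMap_apply]
  refine Finset.sum_congr rfl fun i _ => congrArg a (funext fun j => ?_)
  by_cases h : j = i
  · subst h; simp
  · simp [Function.update_of_ne h]

/-- the derivation induced by an almost complex structure: i (p - q) on forms of type (p, q) -/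
def SF.gam (J : V → V →L[ℝ] V) (hJ : ContDiff ℝ ∞ J) (n : ℕ) : SF V n →ₗ[ℂ] SF V n where
  toFun α := SF.mk (fun x => der (J x) (α.1 x)) (by
    have h := ((ContinuousAlternatingMap.fderivCompContinuousLinearMapCLM (ι := Fin n) (G := ℂ)
      (ContinuousLinearMap.id ℝ V)).contDiff.comp α.smooth).clm_apply hJ
    exact h)
  map_add' a b := SF.ext (by ext x v; simp [der_apply, Finset.sum_add_distrib])
  map_smul' c a := SF.ext (by ext x v; simp [der_apply, Finset.mul_sum])

@[simp] theorem SF.gam_val (J : V → V →L[ℝ] V) (hJ : ContDiff ℝ ∞ J) (α : SF V n) (x : V) :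
    (SF.gam J hJ n α).1 x = der (J x) (α.1 x) := rfl

/-- the type operator descends to forms on `S` -/
structure GamOK (J : V → V →L[ℝ] V) (S : Set V) : Prop where
  smooth : ContDiff ℝ ∞ J
  nul : ∀ n, Nul S n ≤ (Nul S n).comap (SF.gam J smooth n)

/-- the type operator on forms on `S` -/
def Om.gam {J : V → V →L[ℝ] V} {S : Set V} (h : GamOK J S) (n : ℕ) : Om S n →ₗ[ℂ] Om S n :=
  Submodule.mapQ _ _ (SF.gam J h.smooth n) (h.nul n)

/-- `d^c = [gam, d]` -/
def Om.dc {J : V → V →L[ℝ] V} {S : Set V} (h : GamOK J S) (n : ℕ) : Om S n →ₗ[ℂ] Om S (n + 1) :=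
  (Om.gam h (n + 1)).comp (Om.d S n) - (Om.d S n).comp (Om.gam h n)

/-- the sum of the eigenspaces of `g` with imaginary part of the eigenvalue at least `t` -/
def EGe {T : Type} [AddCommGroup T] [Module ℂ T] (g : Module.End ℂ T) (t : ℝ) : Submodule ℂ T :=
  ⨆ lam ∈ {lam : ℂ | t ≤ lam.im}, g.eigenspace lam

/-- The consequences of Hodge theory that are used, for forms on `S`. -/
structure Hodge {J : V → V →L[ℝ] V} {S : Set V} (h : GamOK J S) : Prop where
  poly : ∀ n (x : Om S n), x ∈ ⨆ b ∈ Finset.range (n + 1),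
    Module.End.eigenspace (Om.gam h n) (Complex.I * (2 * (b : ℂ) - n))
  hA : ∀ n (x : Om S (n + 1)), Om.d S _ x = 0 →
    ∃ b, Om.d S _ (Om.gam h _ (x - Om.d S n b)) = 0
  hB : ∀ n (x : Om S n), Om.gam h _ (Om.dc h n x) - Om.dc h n (Om.gam h n x) = -Om.d S n x
  hC0 : ∀ y : Om S 0, Om.dc h 1 (Om.d S 0 y) = 0 → Om.d S 0 y = 0
  hC : ∀ n (y : Om S (n + 1)), Om.dc h _ (Om.d S _ y) = 0 →
    ∃ b, Om.d S _ y = Om.d S _ (Om.dc h n b)
  hD0 : ∀ y : Om S 0, Om.d S 1 (Om.dc h 0 y) = 0 → Om.dc h 0 y = 0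
  hD : ∀ n (y : Om S (n + 1)), Om.d S _ (Om.dc h _ y) = 0 →
    ∃ b, Om.dc h _ y = Om.d S _ (Om.dc h n b)

/-- a form on `Z` placed in column `0` -/
def inc {ι : Type} (Z : Set V) (D : ι → Set V) (n : ℕ) : Om Z n →ₗ[ℂ] Tot Z D :=
  (LinearMap.single ℂ (fun p => (n : ℕ) → (I : Fin p → ι) → Om (strat Z D I) n) 0).comp <|
    (LinearMap.single ℂ (fun n => (I : Fin 0 → ι) → Om (strat Z D I) n) n).comp <|
      LinearMap.pi fun _ => Om.res inter_subset_left n

theorem cls_eq {ι : Type} (Z : Set V) (D : ι → Set V) (A : Set (Tot Z D)) (n : ℕ) :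
    cls Z D A n = (Submodule.span ℂ (A ∪ range (Dt Z D))).comap (inc Z D n) := rfl

/-- closed forms with compact support in the complement of the divisor -/
def Cc {ι : Type} (Z : Set V) (D : ι → Set V) (n : ℕ) : Submodule ℂ (Om Z n) :=
  Ac Z (Z \ ⋃ i, D i) n ⊓ LinearMap.ker (Om.d Z n)

/-- `α` vanishes on `Z` near `y` -/
def VN (Z : Set V) (α : SF V n) (y : V) : Prop := ∃ G, IsOpen G ∧ y ∈ G ∧ α ∈ Nul (Z ∩ G) n

end forms

/-- A compact Kaehler submanifold, given as a smooth retract of constant dimension `m`. -/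
structure IsKR {V : Type} [NormedAddCommGroup V] [InnerProductSpace ℝ V] (R : Ret V)
    (J : V → V →L[ℝ] V) (m : ℕ) : Prop where
  rank : ∀ x ∈ R.S, Module.finrank ℝ (LinearMap.range (R.P x : V →ₗ[ℝ] V)) = m
  smooth : ContDiff ℝ ∞ J
  skew : ∀ x ∈ R.S, ∀ v w, ⟪J x v, w⟫_ℝ = -⟪v, J x w⟫_ℝ
  inv : ∀ x ∈ R.S, ∀ v, R.P x (J x (R.P x v)) = J x (R.P x v)
  sq : ∀ x ∈ R.S, ∀ v, J x (J x (R.P x v)) = -R.P x v
  par : ∀ x ∈ R.S, ∀ u v, R.P x (fderiv ℝ J x (R.P x u) (R.P x v)) = 0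

section proj
variable {N : ℕ} {ι : Type}

/-- the complex structure of projective space: `J_p X = i (X p - p X)` -/
def JP (N : ℕ) (p : Amb N) : Amb N →L[ℝ] Amb N :=
  LinearMap.toContinuousLinearMap
    { toFun := fun X => WithLp.toLp 2 fun q =>
        Complex.I * ∑ k, (X (q.1, k) * p (k, q.2) - p (q.1, k) * X (k, q.2))
      map_add' := fun X Y => by
        ext q
        simp only [PiLp.add_apply, ← mul_add, ← Finset.sum_add_distrib]
        exact congrArg _ (Finset.sum_congr rfl fun k _ => by ring)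
      map_smul' := fun c X => by
        ext q
        simp only [PiLp.smul_apply, RingHom.id_apply, Complex.real_smul, Finset.mul_sum]
        exact Finset.sum_congr rfl fun k _ => by ring }

theorem JP_apply (p X : Amb N) (q : Fin N × Fin N) :
    JP N p X q = Complex.I * ∑ k, (X (q.1, k) * p (k, q.2) - p (q.1, k) * X (k, q.2)) := rfl

/-- the projection of `ℂ^d` that kills the coordinates in `T` -/
def kill {d : ℕ} (T : Set (Fin d)) : (Fin d → ℂ) →L[ℂ] (Fin d → ℂ) := by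
  classical exact ContinuousLinearMap.pi fun k => if k ∈ T then 0 else ContinuousLinearMap.proj k

theorem kill_of_mem {d : ℕ} {T : Set (Fin d)} {k : Fin d} (h : k ∈ T) (z : Fin d → ℂ) :
    kill T z k = 0 := by simp [kill, h]

theorem kill_of_notMem {d : ℕ} {T : Set (Fin d)} {k : Fin d} (h : k ∉ T) (z : Fin d → ℂ) :
    kill T z k = z k := by simp [kill, h]

/-- A globally smooth adapted chart on a ball (for the sup norm), centred at a point of `Z`. -/
structure AC (d : ℕ) (Z : Set (Amb N)) (D : ι → Set (Amb N)) where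
  c : Fin d → ℂ
  ρ : ℝ
  W : Set (Amb N)
  f : (Fin d → ℂ) → Fin N → ℂ
  ψ : (Fin d → ℂ) → Amb N
  φ : Amb N → Fin d → ℂ
  κ : ι → Option (Fin d)
  ρ_pos : 0 < ρ
  W_open : IsOpen W
  f_hol : DifferentiableOn ℂ f (ball c ρ)
  f_ne : ∀ z ∈ ball c ρ, f z ≠ 0
  ψ_eq : ∀ z ∈ ball c ρ, ψ z = proj (f z)
  ψ_smooth : ContDiff ℝ ∞ ψ
  φ_smooth : ContDiff ℝ ∞ φ
  ψ_mem : ∀ z ∈ ball c ρ, ψ z ∈ Z ∩ W
  φ_mem : ∀ x ∈ W, φ x ∈ ball c ρ
  φψ : ∀ z ∈ ball c ρ, φ (ψ z) = z
  ψφ : ∀ x ∈ Z ∩ W, ψ (φ x) = x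
  κ_inj : ∀ i j k, κ i = some k → κ j = some k → i = j
  κ_c : ∀ i k, κ i = some k → c k = 0
  memD : ∀ i, ∀ z ∈ ball c ρ, ψ z ∈ D i ↔ ∃ k, κ i = some k ∧ z k = 0

/-- the coordinates that vanish on the stratum `I` -/
def AC.T {d : ℕ} {Z : Set (Amb N)} {D : ι → Set (Amb N)} (A : AC d Z D) {p : ℕ}
    (I : Fin p → ι) : Set (Fin d) := {k | ∃ j, A.κ (I j) = some k}

/-- the retraction of the chart domain onto the stratum `I` (if the stratum meets the chart) -/
def AC.π {d : ℕ} {Z : Set (Amb N)} {D : ι → Set (Amb N)} (A : AC d Z D) (T : Set (Fin d)) :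
    Amb N → Amb N := fun x => A.ψ (kill T (A.φ x))

/-- A compact complex submanifold of projective space with a normal crossing divisor. -/
structure Geo (d : ℕ) (Z : Set (Amb N)) (D : ι → Set (Amb N)) : Prop where
  compact : IsCompact Z
  sub : ∀ i, D i ⊆ Z
  chart : ∀ x ∈ Z, ∃ A : AC d Z D, A.ψ A.c = x

end proj

end Pool.Agent.HT
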