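import Pool.Agent.P.MP_65ad7c_ag.HSPull

/-! The homotopy operator. -/

open Set Filter Topology MeasureTheory
open scoped ContDiff

noncomputable section
namespace Pool.Agent.HT

variable {V : Type} [NormedAddCommGroup V] [NormedSpace ℝ V] [FiniteDimensional ℝ V] {n : ℕ}

lemma par_has {W : Type} [NormedAddCommGroup W] [NormedSpace ℝ W] {F : ℝ × V → W}
    (hF : ContDiff ℝ 1 F) (x : V) : HasFDerivAt (fun x => ∫ t in (0 : ℝ)..1, F (t, x))
      (∫ t in (0 : ℝ)..1, (fderiv ℝ F (t, x)).comp (ContinuousLinearMap.inr ℝ ℝ V)) x := by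
  have := FiniteDimensional.proper_real V
  have hc : Continuous fun p => (fderiv ℝ F p).comp (ContinuousLinearMap.inr ℝ ℝ V) :=
    (hF.continuous_fderiv one_ne_zero).clm_comp continuous_const
  obtain ⟨C, hC⟩ := (isCompact_uIcc (a := (0 : ℝ)) (b := 1)).prod (isCompact_closedBall x 1)
    |>.exists_bound_of_continuousOn hc.continuousOn
  have h0 := hF.continuous
  refine intervalIntegral.hasFDerivAt_integral_of_dominated_of_fderiv_le
    (F' := fun x t => (fderiv ℝ F (t, x)).comp (ContinuousLinearMap.inr ℝ ℝ V))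
    (bound := fun _ => C) (Metric.closedBall_mem_nhds x one_pos)
    (.of_forall fun y => Continuous.aestronglyMeasurable (by fun_prop))
    (Continuous.intervalIntegrable (by fun_prop) _ _)
    (hc.comp (by fun_prop : Continuous fun t : ℝ => (t, x))).aestronglyMeasurable
    (.of_forall fun t ht y hy => hC (t, y) ⟨uIoc_subset_uIcc ht, hy⟩) intervalIntegrable_const
    (.of_forall fun t _ y _ => ?_)
  exact (hF.differentiable one_ne_zero _).hasFDerivAt.comp y (hasFDerivAt_prodMk_right t y)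

lemma par_nat (k : ℕ) : ∀ {W : Type} [NormedAddCommGroup W] [NormedSpace ℝ W] {F : ℝ × V → W},
    ContDiff ℝ ∞ F → ContDiff ℝ k fun x => ∫ t in (0 : ℝ)..1, F (t, x) := by
  induction k with
  | zero =>
    intro W _ _ F hF
    exact contDiff_zero.2 (continuous_iff_continuousAt.2 fun x =>
      (par_has (hF.of_le (by simp)) x).continuousAt)
  | succ k ih =>
    intro W _ _ F hF
    rw [Nat.cast_succ, contDiff_succ_iff_hasFDerivAt]
    exact ⟨_, ih ((hF.fderiv_right (by simp)).clm_comp contDiff_const),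
      par_has (hF.of_le (by simp))⟩

omit [NormedSpace ℝ V] [FiniteDimensional ℝ V] in
lemma cont_ii {W : Type} [NormedAddCommGroup W] {F : ℝ × V → W} (hF : Continuous F) (x : V) :
    IntervalIntegrable (fun t => F (t, x)) volume 0 1 :=
  (hF.comp (continuous_id.prodMk continuous_const)).intervalIntegrable _ _

lemma ext_app {X : Type} [NormedAddCommGroup X] [NormedSpace ℝ X] {β : Form X n}
    (h : ContDiff ℝ ∞ β) (x : X) (v : Fin (n + 1) → X) : extDeriv β x v =
      ∑ i : Fin (n + 1), (-1) ^ (i : ℕ) * fderiv ℝ (β · (i.removeNth v)) x (v i) := by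
  simp [extDeriv_apply (cda_diff h.contDiffAt)]

/-- contraction with the time direction and restriction to a slice -/
def cT (V : Type) [NormedAddCommGroup V] [NormedSpace ℝ V] (n : ℕ) :
    ((ℝ × V) [⋀^Fin (n + 1)]→L[ℝ] ℂ) →L[ℝ] V [⋀^Fin n]→L[ℝ] ℂ :=
  (ContinuousAlternatingMap.compContinuousLinearMapCLM (ContinuousLinearMap.inr ℝ ℝ V)).comp
    ((ContinuousLinearMap.apply ℝ _ ((1, 0) : ℝ × V)).comp
      ContinuousAlternatingMap.curryLeftLI.toContinuousLinearMap)

omit [FiniteDimensional ℝ V] in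
lemma cT_apply (a : (ℝ × V) [⋀^Fin (n + 1)]→L[ℝ] ℂ) (v : Fin n → V) :
    cT V n a v = a (Fin.cons (1, 0) fun i => (0, v i)) := rfl

/-- integration along the time direction -/
def K0 (β : Form (ℝ × V) (n + 1)) : Form V n := fun x => ∫ t in (0 : ℝ)..1, cT V n (β (t, x))

lemma K0_smooth {β : Form (ℝ × V) (n + 1)} (h : ContDiff ℝ ∞ β) : ContDiff ℝ ∞ (K0 β) :=
  contDiff_infty.2 fun k => par_nat k ((cT V n).contDiff.comp h)

omit [FiniteDimensional ℝ V] in
lemma K0_apply {β : Form (ℝ × V) (n + 1)} (h : Continuous β) (x : V) (v : Fin n → V) :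
    K0 β x v = ∫ t in (0 : ℝ)..1, β (t, x) (Fin.cons (1, 0) fun i => (0, v i)) :=
  ((ContinuousAlternatingMap.apply ℝ V ℂ v).intervalIntegral_comp_comm
    (cont_ii ((cT V n).continuous.comp h) x)).symm

lemma ext_smooth {X : Type} [NormedAddCommGroup X] [NormedSpace ℝ X] {β : Form X n}
    (h : ContDiff ℝ ∞ β) : ContDiff ℝ ∞ (extDeriv β) := (SF.d n ⟨β, h⟩).smooth

omit [FiniteDimensional ℝ V] in
lemma K0_ftc {β : Form (ℝ × V) n} (h : ContDiff ℝ ∞ β) (x : V) (w : Fin n → ℝ × V) :
    β (1, x) w - β (0, x) w = ∫ t in (0 : ℝ)..1, fderiv ℝ (β · w) (t, x) (1, 0) := by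
  have h1 : ContDiff ℝ ∞ (β · w) := (ContinuousAlternatingMap.apply ℝ _ ℂ w).contDiff.comp h
  have h2 := h1.continuous_fderiv (by simp)
  refine (intervalIntegral.integral_eq_sub_of_hasDerivAt (f := fun t => β (t, x) w)
    (fun t _ => ?_) (cont_ii (h2.clm_apply continuous_const) x)).symm
  exact (cda_diff h1.contDiffAt).hasFDerivAt.comp_hasDerivAt t
    ((hasDerivAt_id t).prodMk (hasDerivAt_const t x))

omit [FiniteDimensional ℝ V] in
lemma hom_zero {β : Form (ℝ × V) 0} (h : ContDiff ℝ ∞ β) (x : V) (v : Fin 0 → V) :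
    β (1, x) (fun i => (0, v i)) - β (0, x) (fun i => (0, v i)) = K0 (extDeriv β) x v := by
  rw [K0_ftc h, K0_apply (ext_smooth h).continuous]
  refine intervalIntegral.integral_congr fun t _ => ?_
  simp [ext_app h]

lemma hom_succ {β : Form (ℝ × V) (n + 1)} (h : ContDiff ℝ ∞ β) (x : V) (v : Fin (n + 1) → V) :
    β (1, x) (fun i => (0, v i)) - β (0, x) (fun i => (0, v i)) =
      K0 (extDeriv β) x v + extDeriv (K0 β) x v := by
  have h1 : ∀ w, ContDiff ℝ ∞ (β · w) := fun w =>
    (ContinuousAlternatingMap.apply ℝ _ ℂ w).contDiff.comp h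
  have h2 := fun w => (h1 w).continuous_fderiv (by simp)
  have h3 : ∀ (w : Fin n → V) u, fderiv ℝ (K0 β · w) x u =
      ∫ t in (0 : ℝ)..1, fderiv ℝ (β · (Fin.cons (1, 0) fun i => (0, w i))) (t, x) (0, u) := by
    intro w u
    simp only [K0_apply h.continuous]
    rw [(par_has ((h1 _).of_le (by simp)) x).fderiv,
      ContinuousLinearMap.intervalIntegral_apply (cont_ii (F := fun p => (fderiv ℝ (β · _) p).comp
        (ContinuousLinearMap.inr ℝ ℝ V)) ((h2 _).clm_comp continuous_const) x)]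
    rfl
  have h4 : ∀ (c : ℂ) w u, IntervalIntegrable (fun t => c * fderiv ℝ (β · w) (t, x) u) volume 0 1 :=
    fun c w u => (cont_ii ((h2 w).clm_apply continuous_const) x).const_mul c
  rw [K0_ftc h, K0_apply (ext_smooth h).continuous, ext_app (K0_smooth h)]
  simp only [h3, ← intervalIntegral.integral_const_mul]
  have h5 := cont_ii (F := fun p => extDeriv β p (Fin.cons (1, 0) fun i => (0, v i)))
    ((ContinuousAlternatingMap.apply ℝ _ ℂ _).continuous.comp (ext_smooth h).continuous) x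
  rw [← intervalIntegral.integral_finsetSum fun i _ => h4 _ _ _,
    ← intervalIntegral.integral_add h5 (by
      simpa only [Finset.sum_fn] using IntervalIntegrable.sum Finset.univ fun i _ => h4 _ _ _)]
  refine intervalIntegral.integral_congr fun t _ => ?_
  simp only [ext_app h]
  rw [Fin.sum_univ_succ, add_assoc, ← Finset.sum_add_distrib, Finset.sum_eq_zero fun j _ => ?_]
  · simp
  · have : j.succ.removeNth (α := fun _ => ℝ × V) (Fin.cons (1, 0) fun i => (0, v i)) =
        Fin.cons (1, 0) fun i => (0, j.removeNth v i) := by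
      funext i; cases i using Fin.cases <;> simp [Fin.removeNth]
    simp [this, pow_succ]

/-- the homotopy operator -/
def SF.K (G : ℝ × V → V) (hG : ContDiff ℝ ∞ G) (α : SF V (n + 1)) : SF V n :=
  ⟨K0 (HT.pull G α.1), K0_smooth (pull_contDiff hG α.smooth)⟩

omit [FiniteDimensional ℝ V] in
lemma slice_smooth {G : ℝ × V → V} (hG : ContDiff ℝ ∞ G) (t : ℝ) :
    ContDiff ℝ ∞ fun y => G (t, y) := hG.comp (contDiff_const.prodMk contDiff_id)

omit [FiniteDimensional ℝ V] in
lemma pl_slice {G : ℝ × V → V} (hG : ContDiff ℝ ∞ G) (α : SF V n) (t : ℝ) (x : V) (v : Fin n → V) :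
    (α.pl _ (slice_smooth hG t)).1 x v = pull G α.1 (t, x) fun i => (0, v i) := by
  have := pull_comp α.1 (hasFDerivAt_prodMk_right (𝕜 := ℝ) t x).differentiableAt
    (cda_diff (hG.contDiffAt (x := (t, x))))
  refine (DFunLike.congr_fun this v).trans ?_
  rw [pull_apply, (hasFDerivAt_prodMk_right (𝕜 := ℝ) t x).fderiv]
  rfl

omit [FiniteDimensional ℝ V] in
lemma d_pullG {G : ℝ × V → V} (hG : ContDiff ℝ ∞ G) (α : SF V n) :
    extDeriv (pull G α.1) = pull G (SF.d n α).1 :=
  funext fun _ => pull_extDeriv hG.contDiffAt (α.diff _)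

lemma SF.hom_zero {G : ℝ × V → V} (hG : ContDiff ℝ ∞ G) (α : SF V 0) :
    α.pl _ (slice_smooth hG 1) - α.pl _ (slice_smooth hG 0) = (SF.d 0 α).K G hG := by
  refine Subtype.ext (funext fun x => ContinuousAlternatingMap.ext fun v => ?_)
  have := HT.hom_zero (pull_contDiff hG α.smooth) x v
  rwa [← pl_slice hG, ← pl_slice hG, d_pullG hG] at this

lemma SF.hom_succ {G : ℝ × V → V} (hG : ContDiff ℝ ∞ G) (α : SF V (n + 1)) :
    α.pl _ (slice_smooth hG 1) - α.pl _ (slice_smooth hG 0) =
      (SF.d _ α).K G hG + SF.d n (α.K G hG) := by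
  refine Subtype.ext (funext fun x => ContinuousAlternatingMap.ext fun v => ?_)
  have := HT.hom_succ (pull_contDiff hG α.smooth) x v
  rwa [← pl_slice hG, ← pl_slice hG, d_pullG hG] at this

lemma Nul.K {S S' : Set V} {α : SF V (n + 1)} (h : α ∈ Nul S' (n + 1)) {G : ℝ × V → V}
    (hG : ContDiff ℝ ∞ G) (hS : ∀ t, ∀ y ∈ S, G (t, y) ∈ S') : α.K G hG ∈ Nul S n :=
  mem_Nul.2 fun γ z hz => by
    ext v
    rw [pull_apply, SF.K, K0_apply (pull_contDiff hG α.smooth).continuous]
    refine (intervalIntegral.integral_congr fun t _ => ?_).trans intervalIntegral.integral_zero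
    have hd := (hasFDerivAt_id (𝕜 := ℝ) t).prodMap (t, z) (cda_diff hz.self_of_nhds.1).hasFDerivAt
    have h1 := Nul.gen h (γ := G ∘ Prod.map id γ) (z := (t, z)) (by
      filter_upwards [continuous_snd.continuousAt.eventually (p := fun y =>
        ContDiffAt ℝ ∞ γ y ∧ γ y ∈ S) hz] with y hy
      exact ⟨hG.contDiffAt.comp y (contDiffAt_id.prodMap' hy.1), hS _ _ hy.2⟩)
    rw [pull_comp _ hd.differentiableAt (cda_diff hG.contDiffAt)] at h1
    have h2 := DFunLike.congr_fun h1 (Fin.cons (1, 0) fun i => (0, v i))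
    rw [pull_apply, hd.fderiv] at h2
    refine Eq.trans (congrArg _ ?_) h2
    funext i; cases i using Fin.cases <;> simp

end Pool.Agent.HT
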