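import Pool.Agent.P.MP_65ad7c_ag.DDefs
import Pool.Agent.P.MP_65ad7c_ag.HS2

/-! Calculus of forms that are smooth near a set, or whose restriction to a set vanishes. -/

open Set Filter Topology
open scoped ContDiff
open Pool.Agent.HT

noncomputable section
namespace Pool.Agent.PWD

variable {V : Type} [NormedAddCommGroup V] [NormedSpace ℝ V] {n : ℕ} {S S' : Set V}
  {α β : Form V n}

theorem sm_iff : Sm S α ↔ ∀ x ∈ S, ∀ᶠ y in 𝓝 x, ContDiffAt ℝ ∞ α y :=
  ⟨fun ⟨_, hO, hS, h⟩ _ hx => mem_of_superset (hO.mem_nhds (hS hx)) fun _ hy =>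
      h.contDiffAt (hO.mem_nhds hy),
    fun h => ⟨_, isOpen_setOfPred_eventually_nhds, h, fun _ hy =>
      (Eventually.self_of_nhds hy).contDiffWithinAt⟩⟩

theorem Sm.ev (h : Sm S α) {x : V} (hx : x ∈ S) : ∀ᶠ y in 𝓝 x, ContDiffAt ℝ ∞ α y :=
  sm_iff.1 h x hx

theorem Sm.cda (h : Sm S α) {x : V} (hx : x ∈ S) : ContDiffAt ℝ ∞ α x := (h.ev hx).self_of_nhds

theorem Sm.diff (h : Sm S α) {x : V} (hx : x ∈ S) : DifferentiableAt ℝ α x := cda_diff (h.cda hx)

theorem Sm.anti (h : Sm S α) (hS : S' ⊆ S) : Sm S' α := sm_iff.2 fun _ hx => h.ev (hS hx)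

theorem Sm.of_contDiff (h : ContDiff ℝ ∞ α) : Sm S α :=
  ⟨univ, isOpen_univ, subset_univ _, h.contDiffOn⟩

theorem Sm.zero : Sm S (0 : Form V n) := .of_contDiff contDiff_const

theorem Sm.add (h : Sm S α) (h' : Sm S β) : Sm S (α + β) :=
  sm_iff.2 fun _ hx => ((h.ev hx).and (h'.ev hx)).mono fun _ hy => hy.1.add hy.2

theorem Sm.smul (c : ℂ) (h : Sm S α) : Sm S (c • α) :=
  sm_iff.2 fun _ hx => (h.ev hx).mono fun _ hy => hy.const_smul c

theorem Sm.neg (h : Sm S α) : Sm S (-α) :=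
  sm_iff.2 fun _ hx => (h.ev hx).mono fun _ hy => hy.neg

theorem Sm.sub (h : Sm S α) (h' : Sm S β) : Sm S (α - β) :=
  sm_iff.2 fun _ hx => ((h.ev hx).and (h'.ev hx)).mono fun _ hy => hy.1.sub hy.2

theorem Sm.congr (h : Sm S α) (e : ∀ x ∈ S, β =ᶠ[𝓝 x] α) : Sm S β :=
  sm_iff.2 fun x hx => ((h.ev hx).and (e x hx).eventually_nhds).mono fun _ hy =>
    hy.1.congr_of_eventuallyEq hy.2

theorem cda_extDeriv {x : V} (h : ContDiffAt ℝ ∞ α x) : ContDiffAt ℝ ∞ (extDeriv α) x := by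
  have := (ContinuousAlternatingMap.alternatizeUncurryFinCLM (n := n) ℝ V ℂ).contDiff.contDiffAt.comp
    x (h.fderiv_right (m := ∞) (by simp))
  exact this

theorem Sm.d (h : Sm S α) : Sm S (extDeriv α) :=
  sm_iff.2 fun _ hx => (h.ev hx).mono fun _ hy => cda_extDeriv hy

theorem Sm.pull (h : Sm S' α) {G : V → V} (hG : ∀ x ∈ S, ∀ᶠ y in 𝓝 x, ContDiffAt ℝ ∞ G y)
    (hS : MapsTo G S S') : Sm S (pull G α) :=
  sm_iff.2 fun x hx => ((hG x hx).and ((hG x hx).self_of_nhds.continuousAt.eventually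
    (h.ev (hS hx)))).mono fun _ hy => pull_contDiffAt hy.1 hy.2

theorem Sm.fsmul (h : Sm S α) {χ : V → ℝ} (hχ : ContDiff ℝ ∞ χ) : Sm S fun x => χ x • α x :=
  sm_iff.2 fun _ hx => (h.ev hx).mono fun _ hy => hχ.contDiffAt.smul hy

theorem van_iff : Van S α ↔ ∀ (γ : V → V) (z : V),
    (∀ᶠ y in 𝓝 z, ContDiffAt ℝ ∞ γ y ∧ γ y ∈ S) → pull γ α z = 0 := by
  refine ⟨fun h γ z hz => ?_, fun h γ O hO hγ hS z hz => h γ z ?_⟩
  · obtain ⟨O, h1, hO, hzO⟩ := eventually_nhds_iff.1 hz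
    exact h γ O hO (fun y hy => (h1 y hy).1.contDiffWithinAt) (fun y hy => (h1 y hy).2) z hzO
  · filter_upwards [hO.mem_nhds hz] with y hy using ⟨hγ.contDiffAt (hO.mem_nhds hy), hS hy⟩

theorem van_iff_nul {α : SF V n} : Van S α.1 ↔ α ∈ Nul S n := Iff.rfl

theorem Van.anti (h : Van S α) (hS : S' ⊆ S) : Van S' α :=
  fun γ O hO hγ hm => h γ O hO hγ (hm.mono_right hS)

theorem Van.loc (h : ∀ x ∈ S, ∃ W ∈ 𝓝 x, Van (S ∩ W) α) : Van S α := van_iff.2 fun γ z hz => by
  obtain ⟨W, hW, hα⟩ := h _ hz.self_of_nhds.2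
  refine van_iff.1 hα γ z ?_
  filter_upwards [hz, hz.self_of_nhds.1.continuousAt hW] with y h1 h2 using ⟨h1.1, h1.2, h2⟩

theorem Van.of_zero (h : ∀ x ∈ S, α x = 0) : Van S α :=
  fun γ O _ _ hS z hz => by ext v; simp [pull_apply, h _ (hS hz)]

theorem Van.zero : Van S (0 : Form V n) := .of_zero fun _ _ => rfl

theorem Van.of_eq (h : ∀ x ∈ S, α x = β x) : Van S (α - β) :=
  .of_zero fun x hx => sub_eq_zero.2 (h x hx)

theorem pull_add {X : Type} [NormedAddCommGroup X] [NormedSpace ℝ X] (γ : X → V) (α β : Form V n) :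
    pull γ (α + β) = pull γ α + pull γ β := rfl

theorem pull_sub {X : Type} [NormedAddCommGroup X] [NormedSpace ℝ X] (γ : X → V) (α β : Form V n) :
    pull γ (α - β) = pull γ α - pull γ β := rfl

theorem pull_smul {X : Type} [NormedAddCommGroup X] [NormedSpace ℝ X] (γ : X → V) (c : ℂ)
    (α : Form V n) : pull γ (c • α) = c • pull γ α := rfl

theorem pull_zero {X : Type} [NormedAddCommGroup X] [NormedSpace ℝ X] (γ : X → V) :
    pull γ (0 : Form V n) = 0 := rfl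

theorem Van.add (h : Van S α) (h' : Van S β) : Van S (α + β) := fun γ O hO hγ hS z hz => by
  rw [pull_add, Pi.add_apply, h γ O hO hγ hS z hz, h' γ O hO hγ hS z hz, add_zero]

theorem Van.smul (c : ℂ) (h : Van S α) : Van S (c • α) := fun γ O hO hγ hS z hz => by
  rw [pull_smul, Pi.smul_apply, h γ O hO hγ hS z hz]
  ext v; simp

theorem Van.sub (h : Van S α) (h' : Van S β) : Van S (α - β) := fun γ O hO hγ hS z hz => by
  rw [pull_sub, Pi.sub_apply, h γ O hO hγ hS z hz, h' γ O hO hγ hS z hz, sub_zero]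

theorem Van.neg (h : Van S α) : Van S (-α) := by simpa using Van.zero.sub h

theorem Van.symm (h : Van S (α - β)) : Van S (β - α) := by simpa using h.neg

theorem Van.trans {δ : Form V n} (h : Van S (α - β)) (h' : Van S (β - δ)) : Van S (α - δ) := by
  simpa using h.add h'

theorem Van.of_sub (h : Van S (α - β)) (h' : Van S β) : Van S α := by simpa using h.add h'

theorem Van.congr (h : Van S α) (e : ∀ x ∈ S, β x = α x) : Van S β := (Van.of_eq e).of_sub h

theorem Van.fsmul (h : Van S α) (χ : V → ℝ) : Van S fun x => χ x • α x :=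
  fun γ O hO hγ hS z hz => by
    ext v
    have := DFunLike.congr_fun (h γ O hO hγ hS z hz) v
    rw [pull_apply] at this ⊢
    simp [this]

theorem Van.d (h : Van S α) (hs : Sm S α) : Van S (extDeriv α) := van_iff.2 fun γ z hz => by
  rw [← pull_extDeriv hz.self_of_nhds.1 (hs.diff hz.self_of_nhds.2)]
  have h0 : pull γ α =ᶠ[𝓝 z] fun _ => 0 := hz.eventually_nhds.mono fun y hy => van_iff.1 h γ y hy
  rw [h0.extDeriv_eq]
  ext v
  simp [extDeriv, ContinuousAlternatingMap.alternatizeUncurryFin_apply]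

theorem extDeriv_sub' {x : V} (h : DifferentiableAt ℝ α x) (h' : DifferentiableAt ℝ β x) :
    extDeriv (α - β) x = extDeriv α x - extDeriv β x := by
  rw [eq_sub_iff_add_eq, ← extDeriv_add (h.sub h') h', sub_add_cancel]

theorem Van.d_sub (h : Van S (α - β)) (hs : Sm S α) (hs' : Sm S β) :
    Van S (extDeriv α - extDeriv β) :=
  (h.d (hs.sub hs')).congr fun _ hx => (extDeriv_sub' (hs.diff hx) (hs'.diff hx)).symm

theorem Van.dd (hs : Sm S α) : Van S (extDeriv (extDeriv α)) :=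
  .of_zero fun _ hx => extDeriv_extDeriv_apply (hs.cda hx) (by simp; decide)

theorem Van.pull (h : Van S' α) {G : V → V} (hG : ∀ x ∈ S, ContDiffAt ℝ ∞ G x)
    (hS : MapsTo G S S') : Van S (pull G α) := van_iff.2 fun γ z hz => by
  rw [← pull_comp _ (cda_diff hz.self_of_nhds.1) (cda_diff (hG _ hz.self_of_nhds.2))]
  exact van_iff.1 h _ z (hz.mono fun y hy => ⟨(hG _ hy.2).comp y hy.1, hS hy.2⟩)

theorem Van.pull_self (α : Form V n) {G : V → V} (hG : ∀ x ∈ S, ContDiffAt ℝ ∞ G x)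
    (hS : ∀ y ∈ S, G y = y) : Van S (HT.pull G α - α) := van_iff.2 fun γ z hz => by
  have h1 := pull_comp α (cda_diff hz.self_of_nhds.1) (cda_diff (hG _ hz.self_of_nhds.2))
  rw [pull_congr (G := G ∘ γ) (G' := γ) _ (hz.mono fun y hy => hS _ hy.2)] at h1
  rw [pull_sub, Pi.sub_apply, ← h1, sub_self]

theorem Van.d_pull (hs : Sm S' α) {G : V → V} (hG : ∀ x ∈ S, ContDiffAt ℝ ∞ G x)
    (hS : MapsTo G S S') : Van S (extDeriv (HT.pull G α) - HT.pull G (extDeriv α)) :=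
  .of_eq fun x hx => pull_extDeriv (hG x hx) (hs.diff (hS hx))

/-- the constant function `1` -/
abbrev one0 (V : Type) [NormedAddCommGroup V] [NormedSpace ℝ V] : Form V 0 :=
  fun _ => ContinuousAlternatingMap.constOfIsEmpty ℝ _ _ 1

theorem d_one0 : extDeriv (one0 V) = 0 := by
  ext x v
  simp [extDeriv, ContinuousAlternatingMap.alternatizeUncurryFin_apply]

theorem pull_one0 (G : V → V) : pull G (one0 V) = one0 V := rfl

/-- a function whose restriction vanishes is zero at the points of `S` -/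
theorem Van.zero_form {α : Form V 0} (h : Van S α) {x : V} (hx : x ∈ S) : α x = 0 := by
  have := van_iff.1 h (fun _ => x) x (Eventually.of_forall fun _ => ⟨contDiffAt_const, hx⟩)
  ext v
  exact (congrArg (α x) (Subsingleton.elim _ _)).trans (DFunLike.congr_fun this v)

section fd
variable [FiniteDimensional ℝ V]

/-- a form that is smooth near a compact set agrees near it with a smooth form -/
theorem exists_cut {K O : Set V} (hK : IsCompact K) (hO : IsOpen O) (hKO : K ⊆ O) (h : Sm K α) :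
    ∃ χ : V → ℝ, ContDiff ℝ ∞ χ ∧ tsupport χ ⊆ O ∧ (∀ᶠ x in 𝓝ˢ K, χ x = 1) ∧
      ContDiff ℝ ∞ fun x => χ x • α x := by
  obtain ⟨O', hO', hK', h⟩ := h
  obtain ⟨χ, hχ, -, hs, -, h1⟩ :=
    Wein.exists_bump K (O ∩ O') hK (hO.inter hO') (subset_inter hKO hK')
  exact ⟨χ, hχ, hs.trans inter_subset_left, h1,
    Wein.contDiff_smul_cut O' hO' χ hχ (hs.trans inter_subset_right) α h⟩

/-- the homotopy formula in degree `0` -/
theorem Van.poin0 {α : SF V 0} {G : ℝ × V → V} (hG : ContDiff ℝ ∞ G)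
    (hS : ∀ t, ∀ y ∈ S, G (t, y) ∈ S) (h1 : ∀ y ∈ S, G (1, y) = y) {x : V}
    (h0 : ∀ y, G (0, y) = x) (hd : Van S (extDeriv α.1)) :
    Van S (α.1 - α.1 x Fin.elim0 • one0 V) := by
  have a1 := Nul.K (α := SF.d 0 α) hd hG hS
  rw [← SF.hom_zero hG] at a1
  refine (Van.symm (Nul.pl_sub α (slice_smooth hG 1) h1)).trans
    (Van.congr (van_iff_nul.2 a1) fun y _ => ?_)
  ext v
  simp [pull_apply, h0]
  exact congrArg (α.1 x) (Subsingleton.elim _ _)

/-- the homotopy formula in positive degree -/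
theorem Van.poin {α : SF V (n + 1)} {G : ℝ × V → V} (hG : ContDiff ℝ ∞ G)
    (hS : ∀ t, ∀ y ∈ S, G (t, y) ∈ S) (h1 : ∀ y ∈ S, G (1, y) = y) {x : V}
    (h0 : ∀ y, G (0, y) = x) (hd : Van S (extDeriv α.1)) :
    ∃ β : Form V n, ContDiff ℝ ∞ β ∧ Van S (extDeriv β - α.1) := by
  have a1 := Nul.K (α := SF.d _ α) hd hG hS
  have a2 := SF.hom_succ hG α
  have a3 : α.pl _ (slice_smooth hG 0) = 0 := SF.ext (by
    ext y v
    simp only [SF.pl_val, pull_apply, h0, fderiv_fun_const, SF.val_zero, Pi.zero_apply]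
    exact (α.1 x).toAlternatingMap.map_coord_zero 0 rfl)
  rw [a3, sub_zero] at a2
  refine ⟨(α.K G hG).1, (α.K G hG).smooth, ?_⟩
  have a4 := sub_mem (Nul.pl_sub α (slice_smooth hG 1) h1) a1
  rw [a2, add_sub_right_comm, add_sub_right_comm, sub_sub_cancel_left] at a4
  have a5 : Van S (-α.1 + extDeriv (α.K G hG).1) := a4
  rwa [neg_add_eq_sub] at a5

end fd

end Pool.Agent.PWD
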