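import Pool.Agent.P.MP_65ad7c_ag.DL1a
import Pool.Agent.P.MP_65ad7c_ag.DIa

/-! Formal calculus of families of forms. -/

open Set Filter Topology
open scoped ContDiff
open Pool.Agent.HT (Form Alt pull der)

noncomputable section
namespace Pool.Agent.PWD

variable {V V' : Type} [NormedAddCommGroup V] [NormedSpace ℝ V] [NormedAddCommGroup V']
  [NormedSpace ℝ V'] {ι : Type} {S S' O : Set V} {f g : GF V} {x : V}

theorem evDL1 {W : Type} [NormedAddCommGroup W] [NormedSpace ℝ W] {ξ : V → W} (hO : IsOpen O)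
    (h : ContDiffOn ℝ ∞ ξ O) (hx : x ∈ O) : ∀ᶠ y in 𝓝 x, ContDiffAt ℝ ∞ ξ y :=
  mem_of_superset (hO.mem_nhds hx) fun _ hy => h.contDiffAt (hO.mem_nhds hy)

theorem cda_wDL1 {n : ℕ} {ξ : V → V →L[ℝ] ℂ} {α : Form V n} (hξ : ContDiffAt ℝ ∞ ξ x)
    (h : ContDiffAt ℝ ∞ α x) : ContDiffAt ℝ ∞
      (fun y => ContinuousAlternatingMap.alternatizeUncurryFin ((ξ y).smulRight (α y))) x := by
  have h1 := ((ContinuousLinearMap.lsmul ℝ ℂ : ℂ →L[ℝ] Alt V n →L[ℝ] Alt V n).flip.contDiff.contDiffAt.comp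
    x h).clm_comp hξ
  exact (ContinuousAlternatingMap.alternatizeUncurryFinCLM (n := n) ℝ V ℂ).contDiff.contDiffAt.comp
    x h1

theorem cda_dGDL1 (h : ∀ n, ContDiffAt ℝ ∞ (f n) x) (n : ℕ) : ContDiffAt ℝ ∞ (dG f n) x := by
  cases n with
  | zero => exact contDiffAt_const
  | succ n => exact cda_extDeriv (h n)

theorem smul0DL1 (n : ℕ) (c : ℂ) : c • (0 : Alt V n) = 0 := by
  ext v
  simp

theorem ext0DL1 (n : ℕ) : extDeriv (0 : Form V n) x = 0 := by
  ext v
  simp [extDeriv, ContinuousAlternatingMap.alternatizeUncurryFin_apply]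

theorem ddDL1 (h : ∀ n, ContDiffAt ℝ ∞ (f n) x) (n : ℕ) : dG (dG f) n x = 0 := by
  rcases n with _ | _ | n
  · rfl
  · exact ext0DL1 0
  · exact extDeriv_extDeriv_apply (h n) (by simp; decide)

theorem d_mulDL1 {χ : V → ℂ} (hχ : DifferentiableAt ℝ χ x) (h : ∀ n, DifferentiableAt ℝ (f n) x)
    (n : ℕ) : dG (mulG χ f) n x = χ x • dG f n x + wG (fderiv ℝ χ) f n x := by
  cases n with
  | zero => simp [dG, wG, smul0DL1]
  | succ n =>
    change extDeriv (fun y => χ y • f n y) x = χ x • extDeriv (f n) x +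
      ContinuousAlternatingMap.alternatizeUncurryFin ((fderiv ℝ χ x).smulRight (f n x))
    rw [extDeriv, fderiv_fun_smul hχ (h n), ContinuousAlternatingMap.alternatizeUncurryFin_add,
      ContinuousAlternatingMap.alternatizeUncurryFin_smul, extDeriv]

theorem logDL1 {h : V → ℂ} (hh : ∀ᶠ y in 𝓝 x, ContDiffAt ℝ ∞ h y) (h0 : h x ≠ 0) :
    ∃ u : V → ℂ, ∀ᶠ y in 𝓝 x, ContDiffAt ℝ ∞ u y ∧ fderiv ℝ u y = (h y)⁻¹ • fderiv ℝ h y := by
  refine ⟨fun y => Complex.log ((h x)⁻¹ * h y), ?_⟩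
  have hc : ContinuousAt (fun y => (h x)⁻¹ * h y) x :=
    continuousAt_const.mul hh.self_of_nhds.continuousAt
  have h1 : ∀ᶠ y in 𝓝 x, (h x)⁻¹ * h y ∈ Complex.slitPlane :=
    hc.eventually (Complex.isOpen_slitPlane.mem_nhds (by simp [inv_mul_cancel₀ h0]))
  filter_upwards [hh, h1] with y hy h2
  refine ⟨ContDiffAt.comp (g := Complex.log) (f := fun y => (h x)⁻¹ * h y) y
    ((Complex.contDiffAt_log h2).restrict_scalars ℝ) (contDiffAt_const.mul hy), ?_⟩
  have h3 := (Complex.hasStrictDerivAt_log h2).hasDerivAt.comp_hasFDerivAt y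
    ((HT.cda_diff hy).hasFDerivAt.const_mul (h x)⁻¹)
  refine h3.fderiv.trans ?_
  rw [smul_smul, mul_inv, inv_inv, mul_right_comm, mul_inv_cancel₀ h0, one_mul]

theorem d_lgDL1 {h : V → ℂ} (hh : ∀ᶠ y in 𝓝 x, ContDiffAt ℝ ∞ h y) (h0 : h x ≠ 0)
    (hf : ∀ n, ∀ᶠ y in 𝓝 x, ContDiffAt ℝ ∞ (f n) y) (n : ℕ) :
    dG (lg h f) n x + lg h (dG f) n x = 0 := by
  obtain ⟨u, hu⟩ := logDL1 hh h0
  have hx := fun n => (hf n).self_of_nhds
  have hux := hu.self_of_nhds
  have hm : ∀ n, ContDiffAt ℝ ∞ (mulG u f n) x := fun n => hux.1.smul (hx n)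
  rcases n with _ | _ | n
  · simp [dG, lg, wG]
  · have e1 : dG (lg h f) (0 + 1) x = 0 := ext0DL1 0
    rw [e1, zero_add]
    ext v
    simp [dG, lg, wG, ContinuousAlternatingMap.alternatizeUncurryFin_apply]
  · have e : lg h f (n + 1) =ᶠ[𝓝 x] dG (mulG u f) (n + 1) - mulG u (dG f) (n + 1) := by
      filter_upwards [hu, hf n] with y h1 h2
      change ContinuousAlternatingMap.alternatizeUncurryFin
        (((h y)⁻¹ • fderiv ℝ h y).smulRight (f n y)) =
          extDeriv (fun z => u z • f n z) y - u y • extDeriv (f n) y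
      rw [extDeriv, fderiv_fun_smul (HT.cda_diff h1.1) (HT.cda_diff h2),
        ContinuousAlternatingMap.alternatizeUncurryFin_add,
        ContinuousAlternatingMap.alternatizeUncurryFin_smul, extDeriv, add_sub_cancel_left, h1.2]
    have e1 : dG (lg h f) (n + 1 + 1) x =
        dG (dG (mulG u f)) (n + 1 + 1) x - dG (mulG u (dG f)) (n + 1 + 1) x :=
      e.extDeriv_eq.trans (extDeriv_sub' (HT.cda_diff (cda_dGDL1 hm _))
        (HT.cda_diff (hux.1.smul (cda_dGDL1 hx _))))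
    rw [e1, ddDL1 hm, d_mulDL1 (HT.cda_diff hux.1) fun n => HT.cda_diff (cda_dGDL1 hx n), ddDL1 hx,
      smul0DL1, zero_add, zero_sub, neg_add_eq_zero]
    exact wG_congr hux.2 (fun _ => rfl) _

/-! ### smooth near a set, zero on a set -/

theorem SmG.smS (hO : IsOpen O) (hS : S ⊆ O) (h : SmG O f) : SmS S f :=
  fun n => ⟨O, hO, hS, h n⟩
theorem SmS.anti (h : SmS S f) (hS : S' ⊆ S) : SmS S' f := fun n => (h n).anti hS
theorem SmS.loc (h : ∀ x ∈ S, ∃ O, IsOpen O ∧ x ∈ O ∧ SmS (S ∩ O) f) : SmS S f :=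
  fun n => sm_iff.2 fun x hx => let ⟨_, _, h1, h2⟩ := h x hx; (h2 n).ev ⟨hx, h1⟩
theorem SmS.zero : SmS S (0 : GF V) := fun _ => Sm.zero
theorem SmS.one : SmS S (oneG : GF V) := fun n => by
  cases n with
  | zero => exact Sm.of_contDiff contDiff_const
  | succ n => exact Sm.zero
theorem SmS.add (h : SmS S f) (h' : SmS S g) : SmS S (f + g) := fun n => (h n).add (h' n)
theorem SmS.smul (c : ℂ) (h : SmS S f) : SmS S (c • f) := fun n => (h n).smul c
theorem SmS.sub (h : SmS S f) (h' : SmS S g) : SmS S (f - g) := fun n => (h n).sub (h' n)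
theorem SmS.sum {κ : Type} (s : Finset κ) {f : κ → GF V} (h : ∀ i ∈ s, SmS S (f i)) :
    SmS S (∑ i ∈ s, f i) :=
  Finset.sum_induction f (SmS S) (fun _ _ => SmS.add) SmS.zero h
theorem SmS.d (h : SmS S f) : SmS S (dG f) := fun n => by
  cases n with
  | zero => exact Sm.zero
  | succ n => exact (h n).d
theorem SmS.conj (h : SmS S f) : SmS S (conjG f) := fun n =>
  sm_iff.2 fun _ hx => ((h n).ev hx).mono fun y hy =>
    (ContinuousLinearMap.compContinuousAlternatingMapCLM ℝ V ℂ ℂ (Fin n)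
      (Complex.conjCLE : ℂ →L[ℝ] ℂ)).contDiff.contDiffAt.comp y hy
theorem SmS.eps (h : SmS S f) : SmS S (epsG f) := fun n => (h n).smul _
theorem SmS.prj (n : ℕ) (h : SmS S f) : SmS S (prj n f) := fun m => by
  by_cases e : m = n
  · subst e
    rw [PWD.prj, Pi.single_eq_same]
    exact h m
  · rw [PWD.prj, Pi.single_eq_of_ne e]
    exact Sm.zero
theorem SmS.mul {χ : V → ℂ} (hO : IsOpen O) (hS : S ⊆ O) (hχ : ContDiffOn ℝ ∞ χ O) (h : SmS S f) :
    SmS S (mulG χ f) := fun n =>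
  sm_iff.2 fun _ hx => ((evDL1 hO hχ (hS hx)).and ((h n).ev hx)).mono fun _ hy => hy.1.smul hy.2
theorem SmS.wG {ξ : V → V →L[ℝ] ℂ} (hO : IsOpen O) (hS : S ⊆ O) (hξ : ContDiffOn ℝ ∞ ξ O)
    (h : SmS S f) : SmS S (wG ξ f) := fun n => by
  cases n with
  | zero => exact Sm.zero
  | succ n =>
    exact sm_iff.2 fun _ hx => ((evDL1 hO hξ (hS hx)).and ((h n).ev hx)).mono fun _ hy =>
      cda_wDL1 hy.1 hy.2
theorem SmS.pull {γ : V' → V} {T O' : Set V'} (hO : IsOpen O') (hT : T ⊆ O')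
    (hγ : ContDiffOn ℝ ∞ γ O') (hm : MapsTo γ T S) (h : SmS S f) : SmS T (pullG γ f) := fun n =>
  sm_iff.2 fun _ hx => ((evDL1 hO hγ (hT hx)).and
    ((evDL1 hO hγ (hT hx)).self_of_nhds.continuousAt.eventually ((h n).ev (hm hx)))).mono
      fun _ hy => HT.pull_contDiffAt hy.1 hy.2
/-- extension by zero -/
theorem SmS.cut {χ : V → ℂ} (hχ : ContDiff ℝ ∞ χ) (hO : IsOpen O) (hs : tsupport χ ⊆ O)
    (h : SmS (S ∩ O) f) : SmS S (mulG χ f) := fun n => sm_iff.2 fun x hx => by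
  by_cases hxO : x ∈ O
  · exact ((h n).ev ⟨hx, hxO⟩).mono fun _ hy => hχ.contDiffAt.smul hy
  · filter_upwards [(notMem_tsupport_iff_eventuallyEq.1 fun h1 => hxO (hs h1)).eventually_nhds]
      with y hy
    refine (contDiffAt_const (c := 0)).congr_of_eventuallyEq (hy.mono fun z hz => ?_)
    change χ z • f n z = 0
    ext v
    simp [hz]

theorem VanG.anti (h : VanG S f) (hS : S' ⊆ S) : VanG S' f := fun n => (h n).anti hS
theorem VanG.loc (h : ∀ x ∈ S, ∃ O, IsOpen O ∧ x ∈ O ∧ VanG (S ∩ O) f) : VanG S f :=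
  fun n => Van.loc fun x hx => let ⟨O, h0, h1, h2⟩ := h x hx; ⟨O, h0.mem_nhds h1, h2 n⟩
theorem VanG.of_zero (h : ∀ n, ∀ x ∈ S, f n x = 0) : VanG S f := fun n => .of_zero (h n)
theorem VanG.empty : VanG ∅ f := .of_zero fun _ _ hx => hx.elim
theorem VanG.congr (h : VanG S f) (h' : ∀ n, ∀ x ∈ S, g n x = f n x) : VanG S g :=
  fun n => (h n).congr (h' n)
theorem VanG.eq_zero (hO : IsOpen O) (h : VanG O f) (n : ℕ) : ∀ x ∈ O, f n x = 0 :=
  fun x hx => by
    have := h n id O hO contDiffOn_id (mapsTo_id O) x hx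
    ext v
    simpa [HT.pull_apply] using DFunLike.congr_fun this v
theorem VanG.zero : VanG S (0 : GF V) := fun _ => Van.zero
theorem VanG.add (h : VanG S f) (h' : VanG S g) : VanG S (f + g) := fun n => (h n).add (h' n)
theorem VanG.smul (c : ℂ) (h : VanG S f) : VanG S (c • f) := fun n => (h n).smul c
theorem VanG.neg (h : VanG S f) : VanG S (-f) := fun n => (h n).neg
theorem VanG.sub (h : VanG S f) (h' : VanG S g) : VanG S (f - g) := fun n => (h n).sub (h' n)
theorem VanG.sum {κ : Type} (s : Finset κ) {f : κ → GF V} (h : ∀ i ∈ s, VanG S (f i)) :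
    VanG S (∑ i ∈ s, f i) :=
  Finset.sum_induction f (VanG S) (fun _ _ => VanG.add) VanG.zero h
theorem VanG.d (h : VanG S f) (h' : SmS S f) : VanG S (dG f) := fun n => by
  cases n with
  | zero => exact Van.zero
  | succ n => exact (h n).d (h' n)
theorem VanG.conj (h : VanG S f) : VanG S (conjG f) := fun n γ O hO hγ hS z hz => by
  ext v
  have := DFunLike.congr_fun (h n γ O hO hγ hS z hz) v
  rw [HT.pull_apply] at this ⊢
  simp [conjG, this]
theorem VanG.eps (h : VanG S f) : VanG S (epsG f) := fun n => (h n).smul _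
theorem VanG.prj (n : ℕ) (h : VanG S f) : VanG S (prj n f) := fun m => by
  by_cases e : m = n
  · subst e
    rw [PWD.prj, Pi.single_eq_same]
    exact h m
  · rw [PWD.prj, Pi.single_eq_of_ne e]
    exact Van.zero
theorem VanG.mul (χ : V → ℂ) (h : VanG S f) : VanG S (mulG χ f) :=
  fun n γ O hO hγ hS z hz => by
    ext v
    have := DFunLike.congr_fun (h n γ O hO hγ hS z hz) v
    rw [HT.pull_apply] at this ⊢
    simp [mulG, this]
theorem VanG.wG (ξ : V → V →L[ℝ] ℂ) (h : VanG S f) : VanG S (wG ξ f) :=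
  fun n γ O hO hγ hS z hz => by
    change pullG γ (PWD.wG ξ f) n z = 0
    rw [pullG_wG, wG_congr (f := pullG γ f) (g := 0) rfl (fun m => h m γ O hO hγ hS z hz), wG_zero]
    rfl
theorem VanG.lgI [LinearOrder ι] (h : ι → V → ℂ) (I : Finset ι) (hf : VanG S f) :
    VanG S (lgI h I f) := by
  unfold PWD.lgI
  induction I.sort (· ≤ ·) with
  | nil => exact hf
  | cons i l ih => exact ih.wG _
theorem VanG.gen [FiniteDimensional ℝ V] (h : VanG S f) {γ : V' → V} {z : V'}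
    (hz : ∀ᶠ y in 𝓝 z, ContDiffAt ℝ ∞ γ y ∧ γ y ∈ S) (n : ℕ) : pullG γ f n z = 0 := by
  change HT.pull γ (f n) z = 0
  ext u
  rcases le_or_gt n (Module.finrank ℝ V) with hn | hn
  · let b := Module.finBasis ℝ V
    let A : V →L[ℝ] V' := LinearMap.toContinuousLinearMap
      (b.constr ℝ fun j => if h : (j : ℕ) < n then u ⟨j, h⟩ else 0)
    have hA : HasFDerivAt (fun y => z + A y) A 0 := A.hasFDerivAt.const_add z
    have hc : Tendsto (fun y => z + A y) (𝓝 0) (𝓝 z) := by simpa using hA.continuousAt.tendsto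
    have h1 := van_iff.1 (h n) (γ ∘ fun y => z + A y) 0 (by
      filter_upwards [hc.eventually hz] with y hy
      exact ⟨hy.1.comp y (contDiffAt_const.add A.contDiff.contDiffAt), hy.2⟩)
    rw [HT.pull_comp _ hA.differentiableAt (by simpa using HT.cda_diff hz.self_of_nhds.1)] at h1
    have h2 := DFunLike.congr_fun h1 fun i => b (Fin.castLE hn i)
    rw [HT.pull_apply, hA.fderiv] at h2
    have e : (A ∘ fun i => b (Fin.castLE hn i)) = u := funext fun i =>
      (b.constr_basis ℝ _ _).trans (dif_pos i.2)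
    rwa [e, map_zero, add_zero] at h2
  · refine (f n (γ z)).toAlternatingMap.map_linearDependent _ fun hl => ?_
    have := hl.fintype_card_le_finrank
    simp at this
    omega
theorem VanG.pull [FiniteDimensional ℝ V] {γ : V' → V} {T O' : Set V'} (hO : IsOpen O')
    (hT : T ⊆ O') (hγ : ContDiffOn ℝ ∞ γ O') (hm : MapsTo γ T S) (h : VanG S f) :
    VanG T (pullG γ f) := fun n => van_iff.2 fun δ z hz => by
  have hγ' : ∀ y ∈ T, ContDiffAt ℝ ∞ γ y := fun y hy => hγ.contDiffAt (hO.mem_nhds (hT hy))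
  change HT.pull δ (HT.pull γ (f n)) z = 0
  rw [← HT.pull_comp _ (HT.cda_diff hz.self_of_nhds.1) (HT.cda_diff (hγ' _ hz.self_of_nhds.2))]
  exact h.gen (hz.mono fun y hy => ⟨(hγ' _ hy.2).comp y hy.1, hm hy.2⟩) n
theorem VanG.pull_sub {γ : V → V} (hO : IsOpen O) (hS : S ⊆ O) (hγ : ContDiffOn ℝ ∞ γ O)
    (hm : ∀ y ∈ S, γ y = y) (f : GF V) : VanG S (f - pullG γ f) := fun n =>
  (Van.pull_self (f n) (fun _ hy => hγ.contDiffAt (hO.mem_nhds (hS hy))) hm).symm
theorem VanG.dd (h : SmS S f) : VanG S (dG (dG f)) :=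
  .of_zero fun n _ hx => ddDL1 (fun m => (h m).cda hx) n
theorem VanG.d_add (h : SmS S f) (h' : SmS S g) : VanG S (dG (f + g) - (dG f + dG g)) :=
  fun n => Van.of_eq fun x hx => by
    cases n with
    | zero => simp [dG]
    | succ n => exact extDeriv_add ((h n).diff hx) ((h' n).diff hx)
theorem VanG.d_sub (h : SmS S f) (h' : SmS S g) : VanG S (dG (f - g) - (dG f - dG g)) :=
  fun n => Van.of_eq fun x hx => by
    cases n with
    | zero => simp [dG]
    | succ n => exact extDeriv_sub' ((h n).diff hx) ((h' n).diff hx)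
theorem VanG.d_sum {κ : Type} (s : Finset κ) {f : κ → GF V} (h : ∀ i ∈ s, SmS S (f i)) :
    VanG S (dG (∑ i ∈ s, f i) - ∑ i ∈ s, dG (f i)) := by
  classical
  induction s using Finset.induction_on with
  | empty => simpa [dG_zero] using VanG.zero
  | insert i s hi ih =>
    have h1 := fun j hj => h j (Finset.mem_insert_of_mem hj)
    have h2 := (VanG.d_add (h i (Finset.mem_insert_self i s)) (SmS.sum s h1)).add (ih h1)
    rw [Finset.sum_insert hi, Finset.sum_insert hi]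
    rwa [show ∀ a b c d : GF V, a - (b + c) + (c - d) = a - (b + d) from fun _ _ _ _ => by abel]
      at h2
theorem VanG.d_mul {χ : V → ℂ} (hO : IsOpen O) (hS : S ⊆ O) (hχ : ContDiffOn ℝ ∞ χ O)
    (h : SmS S f) : VanG S (dG (mulG χ f) - (mulG χ (dG f) + PWD.wG (fderiv ℝ χ) f)) :=
  fun n => Van.of_eq fun _ hx =>
    d_mulDL1 (HT.cda_diff (hχ.contDiffAt (hO.mem_nhds (hS hx)))) (fun m => (h m).diff hx) n
theorem VanG.d_lg {h : V → ℂ} (hO : IsOpen O) (hS : S ⊆ O) (hh : ContDiffOn ℝ ∞ h O)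
    (h0 : ∀ y ∈ S, h y ≠ 0) (hf : SmS S f) : VanG S (dG (lg h f) + lg h (dG f)) :=
  .of_zero fun n x hx => d_lgDL1 (evDL1 hO hh (hS hx)) (h0 x hx) (fun m => (hf m).ev hx) n
theorem VanG.d_pull {γ : V' → V} {T O' : Set V'} (hO : IsOpen O') (hT : T ⊆ O')
    (hγ : ContDiffOn ℝ ∞ γ O') (hm : MapsTo γ T S) (h : SmS S f) :
    VanG T (dG (pullG γ f) - pullG γ (dG f)) := fun n => Van.of_eq fun x hx => by
  cases n with
  | zero => rfl
  | succ n => exact HT.pull_extDeriv (hγ.contDiffAt (hO.mem_nhds (hT hx))) ((h n).diff (hm hx))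

end Pool.Agent.PWD
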