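import Pool.Agent.P.MP_65ad7c_ag.SCone
import Pool.Agent.P.MP_65ad7c_ag.SGodF

/-! Transport of the conditions along homeomorphisms and homotopy equivalences. -/

open TopologicalSpace

set_option backward.isDefEq.respectTransparency false

noncomputable section
namespace Pool.Agent.PW.S

variable {Y Z Z' : Type} [TopologicalSpace Y] [TopologicalSpace Z] [TopologicalSpace Z']

variable {U : ℕ → Opens Y} {I J : Cx Y} {one : (I.X 0).obj (U 0)}

/-- a chain map on the sections vanishing on `O` -/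
def CMap.gam {A B : Cx Y} (u : CMap A B) (O : Opens Y) : CMap (A.gam O) (B.gam O) where
  f n := ⟨fun V => ((u.f n).app V).restrict fun s hs => by
      rw [LinearMap.mem_ker] at hs ⊢
      rw [(u.f n).nat, hs, map_zero], fun h s => Subtype.ext ((u.f n).nat h s.1)⟩
  comm n V s := Subtype.ext (u.comm n V s.1)

theorem sax_null_gam {A B : Cx Y} {u : CMap A B} (hu : u.Null) (O : Opens Y) :
    (u.gam O).Null := by
  obtain ⟨k, k0, k1⟩ := hu
  refine ⟨fun n => ⟨fun V => ((k n).app V).restrict fun s hs => by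
      rw [LinearMap.mem_ker] at hs ⊢
      rw [(k n).nat, hs, map_zero], fun h s => Subtype.ext ((k n).nat h s.1)⟩,
    fun V s => Subtype.ext (k0 V s.1), fun n V s => Subtype.ext (k1 n V s.1)⟩

theorem HEq.gam {A B : Cx Y} {u : CMap A B} {v : CMap B A} (h : HEq u v) (O : Opens Y) :
    HEq (u.gam O) (v.gam O) :=
  ⟨(sax_null_gam h.left O).congr fun _ _ _ => Subtype.ext rfl,
    (sax_null_gam h.right O).congr fun _ _ _ => Subtype.ext rfl⟩

theorem HEq.exAt {A B : Cx Y} {u : CMap A B} {v : CMap B A} (h : HEq u v) {x : Y} {n : ℕ}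
    (hA : A.ExAt x n) : B.ExAt x n := by
  intro V hx c hc
  obtain ⟨a, ha, hb⟩ := h.surj_bd c hc
  obtain ⟨W, hW, hxW, h1⟩ := hA V hx a ha
  refine ⟨W, hW, hxW, ?_⟩
  have h2 := u.map_bd h1
  rw [← (u.f n).nat] at h2
  have h3 := (B.Bd n W).sub_mem h2 (B.res_bd hW hb)
  rwa [map_sub, sub_sub_cancel] at h3

theorem sax_exAt_push {A : Cx Y} (f f' : C(Y, Y)) (h1 : ∀ y, f' (f y) = y)
    (h2 : ∀ y, f (f' y) = y) {x : Y} {n : ℕ} (h : A.ExAt (f' x) n) : (A.push f).ExAt x n := by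
  intro V hx c hc
  obtain ⟨W, hW, hxW, h3⟩ := h (pre f V) (by rw [mem_pre, h2]; exact hx) c hc
  have a1 : pre f' W ≤ V := fun y hy => by
    have h4 : f (f' y) ∈ V := hW hy
    rwa [h2] at h4
  have a2 : pre f (pre f' W) ≤ W := fun y hy => by
    have h4 : f' (f y) ∈ W := hy
    rwa [h1] at h4
  refine ⟨pre f' W, a1, hxW, ?_⟩
  have h5 := A.res_bd a2 h3
  rw [(A.X n).res_res] at h5
  rw [Cx.comap_bd]
  exact h5

/-- sections vanishing on an invariant open set, first comparison map -/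
def saxA (A : Cx Y) (f : C(Y, Y)) (O : Opens Y) (h : ∀ y, f y ∈ O ↔ y ∈ O) :
    CMap ((A.gam O).push f) ((A.push f).gam O) where
  f n := ⟨fun V => Submodule.inclusion fun s hs => by
      have h1 : pre f (V ⊓ O) ≤ pre f V ⊓ O := fun y hy => ⟨hy.1, (h y).1 hy.2⟩
      have h2 := congrArg ((A.X n).res h1) (LinearMap.mem_ker.1 hs)
      rw [(A.X n).res_res, map_zero] at h2
      exact h2, fun _ _ => rfl⟩
  comm _ _ _ := rfl

/-- sections vanishing on an invariant open set, second comparison map -/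
def saxB (A : Cx Y) (f : C(Y, Y)) (O : Opens Y) (h : ∀ y, f y ∈ O ↔ y ∈ O) :
    CMap ((A.push f).gam O) ((A.gam O).push f) where
  f n := ⟨fun V => Submodule.inclusion fun s hs => by
      have h1 : pre f V ⊓ O ≤ pre f (V ⊓ O) := fun y hy => ⟨hy.1, (h y).2 hy.2⟩
      have h0 : (A.X n).res (pre_mono f (inf_le_left : V ⊓ O ≤ V)) s = 0 := LinearMap.mem_ker.1 hs
      have h2 := congrArg ((A.X n).res h1) h0
      rw [(A.X n).res_res, map_zero] at h2
      exact h2, fun _ _ => rfl⟩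
  comm _ _ _ := rfl

theorem sax_heq (A : Cx Y) (f : C(Y, Y)) (O : Opens Y) (h : ∀ y, f y ∈ O ↔ y ∈ O) :
    HEq (saxA A f O h) (saxB A f O h) :=
  ⟨CMap.null_of_zero fun _ _ s => sub_self s, CMap.null_of_zero fun _ _ s => sub_self s⟩

theorem AX.push (hI : AX U I one) (f f' : C(Y, Y)) (h1 : ∀ y, f' (f y) = y)
    (h2 : ∀ y, f (f' y) = y) (hU : ∀ k y, f y ∈ U k ↔ y ∈ U k) (h0 : pre f (U 0) ≤ U 0) :
    AX U (I.push f) ((I.X 0).res h0 one) where
  inj := hI.inj.push f
  closed := I.res_cocycle h0 hI.closed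
  ne V h hV := by
    have h3 : pre f V ≠ ⊥ := by
      intro h4
      refine hV (le_bot_iff.1 fun y hy => ?_)
      have h5 : f' y ∈ pre f V := by rw [mem_pre, h2]; exact hy
      rw [h4] at h5
      exact h5
    intro h4
    exact hI.ne (pre f V) ((pre_mono f h).trans h0) h3 (((I.X 0).res_res _ _ one).symm.trans h4)
  gen x V h hx c hc := by
    obtain ⟨W, hW, a, hxW, h3⟩ := hI.gen (f' x) (pre f V) ((pre_mono f h).trans h0)
      (by rw [mem_pre, h2]; exact hx) c hc
    have a1 : pre f' W ≤ V := fun y hy => by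
      have h4 : f (f' y) ∈ V := hW hy
      rwa [h2] at h4
    have a2 : pre f (pre f' W) ≤ W := fun y hy => by
      have h4 : f' (f y) ∈ W := hy
      rwa [h1] at h4
    refine ⟨pre f' W, a1, a, hxW, ?_⟩
    have h5 := congrArg ((I.X 0).res a2) h3
    rw [map_smul, (I.X 0).res_res, (I.X 0).res_res] at h5
    show (I.X 0).res (pre_mono f a1) c =
      a • (I.X 0).res (pre_mono f (a1.trans h)) ((I.X 0).res h0 one)
    rw [(I.X 0).res_res]
    exact h5
  supp k x hx n hn :=
    sax_exAt_push f f' h1 h2 (hI.supp k (f' x) ((hU _ _).1 (by rw [h2]; exact hx)) n hn)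
  cosupp k x hx n hn := (sax_heq I f (U k) (hU k)).exAt
    (sax_exAt_push f f' h1 h2 (hI.cosupp k (f' x) ((hU _ _).1 (by rw [h2]; exact hx)) n hn))

theorem AX.of_heq (hI : AX U I one) {u : CMap I J} {v : CMap J I} (h : HEq u v)
    (hJ : CInj Set.univ J) : AX U J ((u.f 0).app (U 0) one) where
  inj := hJ
  closed := u.map_cocycle hI.closed
  ne V hV hne h0 := by
    rw [(u.f 0).nat] at h0
    exact hI.ne V hV hne ((Submodule.mem_bot ℂ).1 (h.inj_bd (n := 0) _
      (I.res_cocycle hV hI.closed) ((Submodule.mem_bot ℂ).2 h0)))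
  gen x V hV hx c hc := by
    obtain ⟨a, ha, hb⟩ := h.surj_bd c hc
    have h1 : (u.f 0).app V a = c := sub_eq_zero.1 ((Submodule.mem_bot ℂ).1 hb)
    obtain ⟨W, hW, r, hxW, h2⟩ := hI.gen x V hV hx a ha
    refine ⟨W, hW, r, hxW, ?_⟩
    rw [← h1, (u.f 0).nat, h2, map_smul, (u.f 0).nat]
  supp k x hx n hn := h.exAt (hI.supp k x hx n hn)
  cosupp k x hx n hn := (h.gam (U k)).exAt (hI.cosupp k x hx n hn)

theorem AX.G (hI : AX U I one) : AX U I.G ((I.aug.f 0).app (U 0) one) := by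
  obtain ⟨v, hv⟩ := heq_of_qis I.aug (aug_qis I) hI.inj (cinj_G I)
  exact hI.of_heq hv (cinj_G I)

end Pool.Agent.PW.S
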