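import Pool.Agent.P.MP_65ad7c_ag.Defs

/-! The Betti moduli space, its intersection complex and the weight filtration. -/

open Set CategoryTheory TopologicalSpace Opposite
open scoped ContDiff ComplexConjugate Matrix

noncomputable section
namespace Pool.Agent.PQ

section betti
variable {r : ℕ}

/-- `G` is Zariski closed in `GL_r(ℂ)` and closed under conjugate transposition (by a theorem of
Mostow these are, up to conjugation, the complex reductive groups). -/
def IsRed (G : Subgroup (GL (Fin r) ℂ)) : Prop :=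
  (∃ S : Set (MvPolynomial (Fin r × Fin r) ℂ), ∀ g : GL (Fin r) ℂ,
    g ∈ G ↔ ∀ p ∈ S, MvPolynomial.eval (fun ij => g.1 ij.1 ij.2) p = 0) ∧
  ∀ g ∈ G, ∃ g' ∈ G, g'.1 = g.1ᴴ

/-- `Hom(Γ, G)`. -/
def Rep (Γ : Type) [Group Γ] (G : Subgroup (GL (Fin r) ℂ)) : Type := Γ →* G

variable {Γ : Type} [Group Γ] {G : Subgroup (GL (Fin r) ℂ)}

/-- The matrix `ρ(γ)`. -/
def mat (ρ : Rep Γ G) (γ : Γ) : Matrix (Fin r) (Fin r) ℂ := (MonoidHom.toOneHom ρ γ).1.1

variable (Γ G) in
/-- The coordinate ring of the Betti moduli space: the conjugation invariant regular functions on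
`Hom(Γ, G)`. -/
def Inv : Subalgebra ℂ (Rep Γ G → ℂ) :=
  Algebra.adjoin ℂ {f | f ∈ Algebra.adjoin ℂ {e | ∃ γ i j, e = fun ρ => mat ρ γ i j} ∧
    ∀ g ∈ G, ∀ ρ ρ', (∀ γ, mat ρ' γ * g.1 = g.1 * mat ρ γ) → f ρ' = f ρ}

variable (Γ G) in
/-- The ring `Inv Γ G` as a type. -/
abbrev Fn : Type := Inv Γ G

/-- `Y` is an irreducible component of the Betti moduli space: the set of complex points of
`Spec (Inv Γ G)` killing a minimal prime. It carries the topology of pointwise convergence (the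
analytic topology). -/
def IsComp (Y : Set (Fn Γ G → ℂ)) : Prop :=
  ∃ P ∈ minimalPrimes (Fn Γ G), ∀ y, y ∈ Y ↔ (∃ φ : Fn Γ G →ₐ[ℂ] ℂ, ⇑φ = y) ∧ ∀ f ∈ P, y f = 0

/-- `y'` is the image of `y` under the antiholomorphic involution induced by
`ρ ↦ (γ ↦ ρ(γ⁻¹)ᴴ)`. -/
def IsS (y y' : Fn Γ G → ℂ) : Prop :=
  ∀ f f' : Fn Γ G, (∀ ρ ρ', (∀ γ, mat ρ' γ = (mat ρ γ⁻¹)ᴴ) → f'.1 ρ = conj (f.1 ρ')) →
    y' f = conj (y f')

end betti

section sheaves
variable {Y : Type} [TopologicalSpace Y]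

variable (Y) in
/-- Presheaves of complex vector spaces. -/
abbrev PSh := TopCat.Presheaf (ModuleCat.{0} ℂ) (TopCat.of Y)

variable (Y) in
/-- Complexes of presheaves of complex vector spaces, in degrees `≥ 0`. -/
abbrev PCx := CochainComplex (PSh Y) ℕ

/-- The term `I^n` of a complex. -/
abbrev Tm (I : PCx Y) (n : ℕ) : PSh Y := I.X n

/-- Sections of `I^n` over `V`. -/
abbrev Sec (I : PCx Y) (n : ℕ) (V : Opens Y) : Type := (Tm I n).obj (op V)

variable {I J : PCx Y} {n m : ℕ} {V W : Opens Y}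

/-- Restriction of sections. -/
def rs (h : W ≤ V) (c : Sec I n V) : Sec I n W := ((Tm I n).map (homOfLE h).op).hom c

/-- A map of presheaves, on sections. -/
def ap (f : Tm I n ⟶ Tm J m) (c : Sec I n V) : Sec J m V := (f.app (op V)).hom c

/-- The differential (zero unless `m = n + 1`). -/
def dv (m : ℕ) (c : Sec I n V) : Sec I m V := ap (I.d n m) c

/-- A map of complexes, on sections. -/
def mp (f : I ⟶ J) (c : Sec I n V) : Sec J n V := ap (f.f n) c

/-- `c` vanishes on `O`. -/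
def Van (O : Opens Y) (c : Sec I n V) : Prop := rs (inf_le_left : V ⊓ O ≤ V) c = 0

/-- `c` is a cocycle that vanishes on `O`. -/
structure Cyc (O : Opens Y) (c : Sec I n V) : Prop where
  cyc : dv (n + 1) c = 0
  van : Van O c

/-- Near `y`, `c` is the coboundary of a section that vanishes on `O` (`I.d 0 0` is zero). -/
structure LocBd (O : Opens Y) (y : Y) (c : Sec I n V) : Prop where
  bd : ∃ (W : Opens Y) (h : W ≤ V) (b : Sec I (n - 1) W), y ∈ W ∧ Van O b ∧
    dv n b = rs h c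

/-- The complex of sections vanishing on `O` has zero cohomology stalk at `x` in degree `n`. -/
structure ExactAt (I : PCx Y) (O : Opens Y) (x : Y) (n : ℕ) : Prop where
  ex : ∀ V : Opens Y, x ∈ V → ∀ c : Sec I n V, Cyc O c → LocBd O x c

/-- The cohomology sheaf in degree `n` of the complex of sections vanishing on `O` is locally
constant on `S`: locally a fixed space `B` of cocycles maps bijectively to all its stalks. -/
structure LocConst (I : PCx Y) (O : Opens Y) (S : Set Y) (n : ℕ) : Prop where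
  lc : ∀ x ∈ S, ∃ (W : Opens Y) (B : Submodule ℂ (Sec I n W)), x ∈ W ∧ (∀ b ∈ B, Cyc O b) ∧
    ∀ y ∈ S, y ∈ W → (∀ b ∈ B, LocBd O y b → b = 0) ∧
      ∀ (V : Opens Y) (h : V ≤ W) (c : Sec I n V), y ∈ V → Cyc O c →
        ∃ b ∈ B, LocBd O y (c - rs h b)

/-- `I` is the intersection complex of `Y` (middle perversity, trivial local system `ℂ · one`), as a
complex of injective sheaves with the axioms AX1 of Goresky and MacPherson for a stratification:
`U c` is the open complement of the strata of complex codimension `≥ c`, and the stratum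
`U (c + 1) - U c` is a topological manifold of complex dimension `d - c`. -/
structure IsIC (d : ℕ) (U : ℕ → Opens Y) (I : PCx Y) (one : Sec I 0 (U 1)) : Prop where
  mono : Monotone U
  bot : U 0 = ⊥
  top : U (d + 1) = ⊤
  chart : ∀ c, ∀ x ∈ (U (c + 1) \ U c : Set Y), ∃ (W : Opens Y)
    (φ : ↥((W : Set Y) ∩ (U (c + 1) \ U c)) → Fin (d - c) → ℂ), x ∈ W ∧ Topology.IsOpenEmbedding φ
  inj : ∀ n, ∃ h : (Tm I n).IsSheaf,
    Injective (⟨Tm I n, h⟩ : TopCat.Sheaf (ModuleCat.{0} ℂ) (TopCat.of Y))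
  closed : Cyc ⊥ one
  ne : ∀ (V : Opens Y) (h : V ≤ U 1), V ≠ ⊥ → rs h one ≠ 0
  gen : ∀ (V : Opens Y) (h : V ≤ U 1), ∀ x ∈ V, ∀ c : Sec I 0 V, Cyc ⊥ c →
    ∃ a : ℂ, LocBd ⊥ x (c - a • rs h one)
  supp : ∀ c, ∀ x ∈ U (c + 1), ∀ n, 0 < n → c ≤ n → ExactAt I ⊥ x n
  cosupp : ∀ c, 0 < c → ∀ x ∈ U (c + 1), ∀ n ≤ c, ExactAt I (U c) x n
  lc : ∀ c n, LocConst I (U c) (U (c + 1) \ U c) n

end sheaves

section forms

/-- Complex `N × N` matrices. -/
abbrev Amb (N : ℕ) := EuclideanSpace ℂ (Fin N × Fin N)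

/-- Complex valued differential forms of degree `n` on `Amb N`. -/
abbrev Form (N n : ℕ) := Amb N → Amb N [⋀^Fin n]→L[ℝ] ℂ

variable {N n : ℕ} {ι : Type}

/-- Smoothness. -/
def Sm (α : Form N n) : Prop := ContDiff ℝ ∞ α

/-- The exterior derivative. -/
def dd (α : Form N n) : Form N (n + 1) := extDeriv α

/-- The complex conjugate form. -/
def bar (α : Form N n) : Form N n :=
  fun x => (Complex.conjCLE : ℂ →L[ℝ] ℂ).compContinuousAlternatingMap (α x)

/-- `α` restricts to zero on the submanifold `S`: its pull-back under every smooth map into `S`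
vanishes. -/
def Nul (S : Set (Amb N)) (α : Form N n) : Prop :=
  ∀ (γ : Amb N → Amb N) (O : Set (Amb N)), IsOpen O → ContDiffOn ℝ ∞ γ O → MapsTo γ O S →
    ∀ z ∈ O, ∀ v : Fin n → Amb N, α (γ z) (fun i => fderiv ℝ γ z (v i)) = 0

/-- `α` is smooth and its restriction to `Z` has compact support in `U`. -/
def Ac (Z U : Set (Amb N)) (α : Form N n) : Prop :=
  Sm α ∧ ∃ K, IsCompact K ∧ K ⊆ U ∧ Nul (Z \ K) α

/-- `φ` is a linear functional on the forms on `Z` with compact support in `U`. -/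
def IsFun (Z U : Set (Amb N)) (φ : Form N n → ℂ) : Prop :=
  (∀ (a : ℂ) α β, Ac Z U α → Ac Z U β → φ (a • α + β) = a * φ α + φ β) ∧
    ∀ α, Sm α → Nul Z α → φ α = 0

/-- The closed stratum `D_{I 0} ∩ ... ∩ D_{I (p-1)}` (for `p = 0` it is `Z`). -/
def strat (Z : Set (Amb N)) (D : ι → Set (Amb N)) {p : ℕ} (I : Fin p → ι) : Set (Amb N) :=
  Z ∩ ⋂ j, D (I j)

/-- The double complex: in column `p` and row `n`, an `n`-form for each `p`-fold intersection. -/
abbrev Tot (N : ℕ) (ι : Type) := (p n : ℕ) → (Fin p → ι) → Form N n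

/-- The total differential `d + (-1)^n ∑ (-1)^j res_j`. -/
def Dt (c : Tot N ι) : Tot N ι := fun p n I =>
  (match n with
    | 0 => 0
    | n + 1 => dd (c p n I)) +
  (match p, I with
    | 0, _ => 0
    | p + 1, I => ∑ j : Fin (p + 1), (-1 : ℂ) ^ (n + j) • c p n (j.removeNth I))

/-- The form `α` on `Z`, placed in column `0`, lies in `A` up to a total coboundary. -/
def Cls (Z : Set (Amb N)) (D : ι → Set (Amb N)) (A : Tot N ι → Prop) (α : Form N n) : Prop :=
  ∃ x y z : Tot N ι, (∀ I, x 0 n I = α) ∧ (∀ p m I, p ≠ 0 ∨ m ≠ n → x p m I = 0) ∧ A y ∧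
    ∀ p m I, Sm (y p m I) ∧ Sm (z p m I) ∧ Nul (strat Z D I) (x p m I - y p m I - Dt z p m I)

/-- The orthogonal projector onto the line `ℂ v`: the embedding of `ℙ^{N-1}` into matrices. -/
def proj (v : Fin N → ℂ) : Amb N :=
  WithLp.toLp 2 fun p => v p.1 * conj (v p.2) / ∑ k, v k * conj (v k)

/-- Complex conjugation of `ℙ^{N-1}`: conjugation of the entries. -/
def cj (x : Amb N) : Amb N := WithLp.toLp 2 fun p => conj (x p)

/-- The value of the pull-back of `α` under `proj ∘ g` at the point `z` on the vectors `v`. -/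
def pb {e : ℕ} (g : (Fin e → ℂ) → Fin N → ℂ) (α : Form N n) (z : Fin e → ℂ)
    (v : Fin n → Fin e → ℂ) : ℂ :=
  α (proj (g z)) fun i => fderiv ℝ (proj ∘ g) z (v i)

/-- `α` has only components of type `(b, n - b)`, `b ≥ a`, on `S`: for holomorphic maps into `S`
the pull-back at `(c v_1, ..., c v_n)` is a combination of the `c^b conj(c)^(n-b)`, `b ≥ a`. -/
def TypeGe (S : Set (Amb N)) (a : ℕ) (α : Form N n) : Prop :=
  ∀ (e : ℕ) (O : Set (Fin e → ℂ)) (g : (Fin e → ℂ) → Fin N → ℂ), IsOpen O →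
    DifferentiableOn ℂ g O → (∀ z ∈ O, g z ≠ 0 ∧ proj (g z) ∈ S) → ∀ z ∈ O,
      ∀ v : Fin n → Fin e → ℂ, ∃ β : ℕ → ℂ, ∀ c : ℂ,
        pb g α z (fun i => c • v i) = ∑ b ∈ Finset.Icc a n, β b * c ^ b * conj c ^ (n - b)

/-- The filtration by columns `≥ c`: on `H^n_c(Z - D)` it is `W_{n-c}`. -/
def Col (Z : Set (Amb N)) (D : ι → Set (Amb N)) (c : ℕ) (α : Form N n) : Prop :=
  Cls Z D (fun y => ∀ p < c, y p = 0) α

/-- The Hodge filtration `F^a` on `H^n_c(Z - D)`. -/
def Fil (Z : Set (Amb N)) (D : ι → Set (Amb N)) (a : ℕ) (α : Form N n) : Prop :=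
  Cls Z D (fun y => ∀ p m I, TypeGe (strat Z D I) a (y p m I)) α

/-- `proj ∘ f` is a holomorphic parametrisation (an injective immersion, open onto `Z`). -/
structure IsChart {d : ℕ} (Z : Set (Amb N)) (O : Set (Fin d → ℂ))
    (f : (Fin d → ℂ) → Fin N → ℂ) : Prop where
  isOpen : IsOpen O
  hol : DifferentiableOn ℂ f O
  ne : ∀ z ∈ O, f z ≠ 0
  imm : ∀ z ∈ O, ∀ (v : Fin d → ℂ) (c : ℂ), fderiv ℂ f z v = c • f z → v = 0
  inj : InjOn (proj ∘ f) O
  opn : ∀ O' ⊆ O, IsOpen O' → ∃ W, IsOpen W ∧ (proj ∘ f) '' O' = Z ∩ W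

/-- `Z` is a compact complex submanifold of `ℙ^{N-1}` of dimension `d`, and the `D i` are the
smooth components of a normal crossing divisor: in suitable charts the `D i` that occur are
distinct coordinate hyperplanes. -/
structure IsSNC (d : ℕ) (Z : Set (Amb N)) (D : ι → Set (Amb N)) : Prop where
  compact : IsCompact Z
  sub : ∀ i, D i ⊆ Z
  chart : ∀ x ∈ Z, ∃ (O : Set (Fin d → ℂ)) (f : (Fin d → ℂ) → Fin N → ℂ)
    (κ : ι → Option (Fin d)), IsChart Z O f ∧ x ∈ (proj ∘ f) '' O ∧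
    (∀ i j k, κ i = some k → κ j = some k → i = j) ∧
    ∀ i, ∀ z ∈ O, proj (f z) ∈ D i ↔ ∃ k, κ i = some k ∧ z k = 0

/-- `lam` is integration over the complex manifold `Z`: on a form supported in a chart it is the
integral of the coefficient of `dx_1 dy_1 ... dx_d dy_d`. -/
structure IsInt (d : ℕ) (Z U : Set (Amb N)) (lam : Form N (2 * d) → ℂ) : Prop where
  int : ∀ (O : Set (Fin d → ℂ)) (f : (Fin d → ℂ) → Fin N → ℂ), IsChart Z O f →
    ∀ α, Ac Z U α → Ac Z ((proj ∘ f) '' O) α →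
      lam α = ∫ z in O, pb f α z fun i k => if (k : ℕ) = i / 2 then Complex.I ^ ((i : ℕ) % 2) else 0

end forms

variable (Y : Type) [TopologicalSpace Y]

/-- A projective manifold `Z` of dimension `d` with a normal crossing divisor `D`, a map
`π : Z - D → Y`, and the complex `K^j(V) = A_c^{2d-j}(π⁻¹ V)^*` of duals of compactly supported
forms, which is a complex of injective sheaves representing `Rπ_* ℂ` (Verdier); `ev` is the
pairing. -/
structure Res where
  (N d : ℕ)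
  ι : Type
  fin : Finite ι
  Z : Set (Amb N)
  D : ι → Set (Amb N)
  snc : IsSNC d Z D
  π : C(↥(Z \ ⋃ a, D a), Y)
  up : Opens Y → Set (Amb N)
  up_eq : ∀ V, up V = Subtype.val '' (π ⁻¹' V)
  K : PCx Y
  ev : ∀ {j V} (q : ℕ), Sec K j V → Form N q → ℂ
  lin : ∀ j V q (a : ℂ) (l l' : Sec K j V) α, ev q (a • l + l') α = a * ev q l α + ev q l' α
  isFun : ∀ j V q (l : Sec K j V), IsFun Z (up V) (ev q l)
  inj : ∀ j V (l : Sec K j V), (∀ q, q + j = 2 * d → ∀ α, Ac Z (up V) α → ev q l α = 0) → l = 0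
  surj : ∀ j V q, q + j = 2 * d → ∀ φ, IsFun Z (up V) φ →
    ∃ l : Sec K j V, ∀ α, Ac Z (up V) α → ev q l α = φ α
  ev_rs : ∀ j V W q (h : W ≤ V) (l : Sec K j V) α, Ac Z (up W) α → ev q (rs h l) α = ev q l α
  ev_dv : ∀ j V q (l : Sec K j V) α, Ac Z (up V) α → ev q (dv (j + 1) l) α = ev (q + 1) l (dd α)

variable {Y} (R : Res Y)

/-- The functionals that kill the closed forms satisfying `S`. -/
def Res.ann (j : ℕ) (S : ∀ q, Form R.N q → Prop) : Set (Sec R.K j ⊤) :=
  {l | ∀ q, q + j = 2 * R.d → ∀ α, Ac R.Z (R.up ⊤) α → Nul R.Z (dd α) → S q α → R.ev q l α = 0}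

/-- Deligne's weight filtration `W_m H^j(Z - D)`, as a space of cocycles. -/
def Res.Wt (j m : ℕ) := R.ann j fun _ α => Col R.Z R.D (m + 1 - j) α

/-- Deligne's Hodge filtration `F^a H^j(Z - D)`. -/
def Res.Hg (j a : ℕ) := R.ann j fun _ α => Fil R.Z R.D (R.d + 1 - a) α

/-- The conjugate Hodge filtration. -/
def Res.Hg' (j a : ℕ) := R.ann j fun _ α => Fil R.Z R.D (R.d + 1 - a) (bar α)

/-- The data that put Saito's mixed Hodge structure on `IH(Y)`: an intersection complex `I`, a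
resolution `R` whose map `π` carries complex conjugation to the relation `S`, and a splitting
`(i, p)` of `I` off `Rπ_* ℂ`, with `i one` the fundamental class, the projector `i p` respecting
the weight and Hodge filtrations of `H(Z - D)`. -/
structure Model (S : Y → Y → Prop) where
  R : Res Y
  U : ℕ → Opens Y
  I : PCx Y
  one : Sec I 0 (U 1)
  ic : IsIC R.d U I one
  cjZ : MapsTo cj R.Z R.Z
  cjD : ∀ a, ∃ b, MapsTo cj (R.D a) (R.D b)
  cjπ : ∀ u u', u'.1 = cj u.1 → S (R.π u) (R.π u')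
  i : I ⟶ R.K
  p : R.K ⟶ I
  split : Nonempty (Homotopy (i ≫ p) (𝟙 I))
  int : IsInt R.d R.Z (R.up (U 1)) (R.ev (2 * R.d) (mp i one))
  wt : ∀ j m, MapsTo (mp (p ≫ i)) (R.Wt j m) (R.Wt j m)
  hg : ∀ j a, MapsTo (mp (p ≫ i)) (R.Hg j a) (R.Hg j a)
  hg' : ∀ j a, MapsTo (mp (p ≫ i)) (R.Hg' j a) (R.Hg' j a)

/-- The weight filtration `W_m IH^j(Y)`, as a space of cocycles: the image of `W_m H^j(Z - D)`
under the projection `p`, plus the coboundaries. -/
def Model.W {S : Y → Y → Prop} (M : Model S) (j m : ℕ) : Set (Sec M.I j ⊤) :=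
  {x | ∃ l ∈ M.R.Wt j m, ∃ b : Sec M.I (j - 1) ⊤, x = mp M.p l + dv j b}

/-- The Hodge filtration `F^a IH^j(Y)`, as a space of cocycles: the image of `F^a H^j(Z - D)`
under the projection `p`, plus the coboundaries. -/
def Model.F {S : Y → Y → Prop} (M : Model S) (j a : ℕ) : Set (Sec M.I j ⊤) :=
  {x | ∃ l ∈ M.R.Hg j a, ∃ b : Sec M.I (j - 1) ⊤, x = mp M.p l + dv j b}

end Pool.Agent.PQ
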