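import Pool.Agent.P.MP_65ad7c_ag.XG1

open Set Filter Topology Asymptotics
open scoped ComplexConjugate
open Pool.Agent.HT (Amb proj cj IsChart IsSNC)

noncomputable section
namespace Pool.Agent.HIR

variable {n M q : ℕ} {X C : Set (Amb M)} {H : (Fin M → ℂ) → Fin q → ℂ} {v : Fin M → ℂ}
  {y : Fin q → ℂ}

theorem tens_apply_XG8 (v : Fin M → ℂ) (y : Fin q → ℂ) (i : Fin M) (a : Fin q) :
    tens v y (finProdFinEquiv (i, a)) = v i * y a := by
  simp only [tens, Equiv.symm_apply_apply]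

theorem nsq_ne_XG8 (hy : y ≠ 0) : ∑ a, y a * conj (y a) ≠ 0 := by
  simp only [Complex.mul_conj, ← Complex.ofReal_sum, Complex.ofReal_ne_zero]
  intro h
  refine hy (funext fun a => ?_)
  exact Complex.normSq_eq_zero.1 ((Finset.sum_eq_zero_iff_of_nonneg
    fun a _ => Complex.normSq_nonneg (y a)).1 h a (Finset.mem_univ a))

theorem SegD.ne_XG8 (h : SegD n X C H) (hv : v ≠ 0) (hC : proj v ∉ C) : H v ≠ 0 :=
  fun h0 => hC ((h.zero v hv).1 h0)

theorem col_XG8 (hv : v ≠ 0) {k : Fin M} (hk : proj v (k, k) ≠ 0) :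
    ∃ c : ℂ, c ≠ 0 ∧ (fun i => proj v (i, k)) = c • v :=
  ⟨_, div_ne_zero ((map_ne_zero _).2 fun h0 => hk ((proj_diag hv k).2 h0)) (nsq_ne_XG8 hv),
    proj_col v k⟩

theorem tens_ne (hv : v ≠ 0) (hy : y ≠ 0) : tens v y ≠ 0 := by
  obtain ⟨i, hi⟩ := Function.ne_iff.mp hv
  obtain ⟨a, ha⟩ := Function.ne_iff.mp hy
  intro h
  have h1 := congrFun h (finProdFinEquiv (i, a))
  rw [tens_apply_XG8] at h1
  exact mul_ne_zero hi ha h1

theorem tens_smul (a b : ℂ) (v : Fin M → ℂ) (y : Fin q → ℂ) :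
    tens (a • v) (b • y) = (a * b) • tens v y := by
  funext k
  simp only [tens, Pi.smul_apply, smul_eq_mul]
  ring

theorem tens_cancel (hv : v ≠ 0) {y' : Fin q → ℂ} (h : tens v y = tens v y') : y = y' := by
  obtain ⟨i, hi⟩ := Function.ne_iff.mp hv
  funext a
  have h1 := congrFun h (finProdFinEquiv (i, a))
  rw [tens_apply_XG8, tens_apply_XG8] at h1
  exact mul_left_cancel₀ hi h1

theorem an_tens {e : ℕ} {f : E e → Fin M → ℂ} {g : E e → Fin q → ℂ} {z : E e}
    (hf : AnalyticAt ℂ f z) (hg : AnalyticAt ℂ g z) :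
    AnalyticAt ℂ (fun w => tens (f w) (g w)) z := by
  rw [analyticAt_pi_iff] at hf hg ⊢
  exact fun k => (hf _).mul (hg _)

/-- the differential of a Segre product -/
theorem imm_tens {e : ℕ} {f : E e → Fin M → ℂ} {g : E e → Fin q → ℂ} {z u : E e}
    (hf : AnalyticAt ℂ f z) (hg : AnalyticAt ℂ g z) (hf0 : f z ≠ 0) (hg0 : g z ≠ 0) {c : ℂ}
    (h : fderiv ℂ (fun w => tens (f w) (g w)) z u = c • tens (f z) (g z)) :
    (∃ a : ℂ, fderiv ℂ f z u = a • f z) ∧ ∃ b : ℂ, fderiv ℂ g z u = b • g z := by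
  have key : ∀ i a, f z i * fderiv ℂ g z u a + g z a * fderiv ℂ f z u i =
      c * (f z i * g z a) := by
    intro i a
    have h1 := (hasFDerivAt_pi'.1 hf.differentiableAt.hasFDerivAt i).mul
      (hasFDerivAt_pi'.1 hg.differentiableAt.hasFDerivAt a)
    have h2 := hasFDerivAt_pi'.1 (an_tens hf hg).differentiableAt.hasFDerivAt
      (finProdFinEquiv (i, a))
    simp only [tens_apply_XG8] at h2
    have h3 := DFunLike.congr_fun (h2.unique h1) u
    have h4 := congrFun h (finProdFinEquiv (i, a))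
    rw [Pi.smul_apply, tens_apply_XG8, smul_eq_mul] at h4
    rw [← h4]
    exact h3.symm
  obtain ⟨i, hi⟩ := Function.ne_iff.mp hf0
  obtain ⟨a, ha⟩ := Function.ne_iff.mp hg0
  have hi' : f z i ≠ 0 := hi
  have ha' : g z a ≠ 0 := ha
  refine ⟨⟨c - fderiv ℂ g z u a / g z a, funext fun j => ?_⟩,
    ⟨c - fderiv ℂ f z u i / f z i, funext fun b => ?_⟩⟩
  · rw [Pi.smul_apply, smul_eq_mul]
    field_simp
    linear_combination key j a
  · rw [Pi.smul_apply, smul_eq_mul]
    field_simp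
    linear_combination key i b

theorem ptr_tens (hy : y ≠ 0) : ptr M q (proj (tens v y)) = proj v := by
  have h1 : ∑ k, tens v y k * conj (tens v y k) =
      (∑ i, v i * conj (v i)) * ∑ a, y a * conj (y a) := by
    rw [← finProdFinEquiv.sum_comp, Fintype.sum_prod_type, Finset.sum_mul_sum]
    refine Finset.sum_congr rfl fun i _ => Finset.sum_congr rfl fun a _ => ?_
    rw [tens_apply_XG8, map_mul]
    ring
  ext p
  simp only [ptr, proj, tens_apply_XG8, h1]
  have h2 : ∑ a, v p.1 * y a * conj (v p.2 * y a) =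
      v p.1 * conj (v p.2) * ∑ a, y a * conj (y a) := by
    rw [Finset.mul_sum]
    refine Finset.sum_congr rfl fun a _ => ?_
    rw [map_mul]
    ring
  rw [← Finset.sum_div, h2, mul_div_mul_right _ _ (nsq_ne_XG8 hy)]

theorem cont_ptr : Continuous (ptr M q) := by
  unfold ptr
  fun_prop

theorem ptr_cj (x : Amb (M * q)) : ptr M q (cj (M * q) x) = cj M (ptr M q x) := by
  ext p
  simp [ptr, cj]

theorem SegD.compact (h : SegD n X C H) : IsCompact (closure (gph X C H)) := by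
  refine IsCompact.closure_of_subset (K := proj '' Metric.sphere (0 : Fin (M * q) → ℂ) 1)
    ((isCompact_sphere _ _).image_of_continuousOn fun u hu =>
      (cont_proj (by rintro rfl; simp at hu)).continuousWithinAt) ?_
  rintro x ⟨v, hv, -, hC, rfl⟩
  have h0 := norm_ne_zero_iff.2 (tens_ne hv (h.ne_XG8 hv hC))
  refine ⟨((‖tens v (H v)‖⁻¹ : ℝ) : ℂ) • tens v (H v), ?_,
    proj_smul (Complex.ofReal_ne_zero.2 (inv_ne_zero h0)) _⟩
  rw [mem_sphere_zero_iff_norm, norm_smul, Complex.norm_real, norm_inv, norm_norm,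
    inv_mul_cancel₀ h0]

theorem SegD.cjX (h : SegD n X C H) (hX : MapsTo (cj M) X X) (hC : MapsTo (cj M) C C) :
    MapsTo (cj (M * q)) (closure (gph X C H)) (closure (gph X C H)) := by
  refine MapsTo.closure ?_ (cj (M * q)).continuous
  rintro x ⟨v, hv, hvX, hvC, rfl⟩
  refine ⟨star v, star_ne_zero.2 hv, ?_, ?_, ?_⟩
  · rw [← cj_proj]
    exact hX hvX
  · intro h1
    have h2 := hC h1
    rw [← cj_proj, cj_cj] at h2
    exact hvC h2
  · rw [cj_proj, h.rl]
    refine congrArg proj (funext fun k => ?_)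
    simp [tens]

theorem SegD.maps (h : SegD n X C H) : MapsTo (ptr M q) (closure (gph X C H)) X := by
  refine MapsTo.closure_left ?_ cont_ptr h.mf.compact.isClosed
  rintro x ⟨v, hv, hvX, hvC, rfl⟩
  rw [ptr_tens (h.ne_XG8 hv hvC)]
  exact hvX

theorem SegD.psi_XG8 (h : SegD n X C H) (hv : v ≠ 0) {k : Fin M} (hk : proj v (k, k) ≠ 0) :
    proj (tens (fun i => proj v (i, k)) (H fun i => proj v (i, k))) = proj (tens v (H v)) := by
  obtain ⟨c, hc, hc'⟩ := col_XG8 hv hk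
  obtain ⟨m, hm⟩ := h.hom
  rw [hc', hm, tens_smul, proj_smul (mul_ne_zero hc (pow_ne_zero _ hc))]

theorem SegD.eq_off (h : SegD n X C H) {x : Amb (M * q)} (hx : x ∈ closure (gph X C H))
    (hv : v ≠ 0) (e : ptr M q x = proj v) (hC : proj v ∉ C) : x = proj (tens v (H v)) := by
  obtain ⟨k, hk⟩ := Function.ne_iff.mp hv
  have hk' : proj v (k, k) ≠ 0 := fun h0 => hk ((proj_diag hv k).1 h0)
  have hne := mem_closure_iff_nhdsWithin_neBot.1 hx
  have hcol : Continuous fun x : Amb (M * q) => fun i => ptr M q x (i, k) := by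
    have := cont_ptr (M := M) (q := q)
    fun_prop
  obtain ⟨c, hc, hc'⟩ := col_XG8 hv hk'
  obtain ⟨m, hm⟩ := h.hom
  have h1 : ContinuousAt (fun x : Amb (M * q) => proj (tens (fun i => ptr M q x (i, k))
      (H fun i => ptr M q x (i, k)))) x := by
    have h2 : ContinuousAt (fun u => tens u (H u)) fun i => ptr M q x (i, k) :=
      (an_tens (f := id) analyticAt_id (h.an _)).continuousAt
    have h2' := ContinuousAt.comp (f := fun x : Amb (M * q) => fun i => ptr M q x (i, k)) (x := x)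
      h2 hcol.continuousAt
    refine ContinuousAt.comp (g := proj) (cont_proj ?_) h2'
    rw [e, hc', hm]
    exact tens_ne (smul_ne_zero hc hv) (smul_ne_zero (pow_ne_zero _ hc) (h.ne_XG8 hv hC))
  have h3 : ∀ᶠ x' in 𝓝 x, ptr M q x' (k, k) ≠ 0 := by
    refine ((continuous_apply k).comp hcol).continuousAt.eventually_ne ?_
    rw [Function.comp_apply, e]
    exact hk'
  have h4 : (fun x : Amb (M * q) => proj (tens (fun i => ptr M q x (i, k))
      (H fun i => ptr M q x (i, k)))) =ᶠ[𝓝[gph X C H] x] id := by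
    filter_upwards [mem_nhdsWithin_of_mem_nhds h3, self_mem_nhdsWithin] with x' h5 h6
    obtain ⟨u, hu, -, huC, rfl⟩ := h6
    rw [ptr_tens (h.ne_XG8 hu huC)] at h5 ⊢
    exact h.psi_XG8 hu h5
  have h5 := tendsto_nhds_unique_of_eventuallyEq h1.continuousWithinAt.tendsto
    (continuousWithinAt_id (s := gph X C H) (x := x)).tendsto h4
  rw [e, h.psi_XG8 hv hk'] at h5
  exact h5.symm

theorem SegD.inj (h : SegD n X C H) : InjOn (ptr M q) (closure (gph X C H) \ ptr M q ⁻¹' C) := by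
  intro x hx x' hx' e
  obtain ⟨v, hv, hv'⟩ := h.mf.rep (h.maps hx.1)
  have hC : proj v ∉ C := by
    rw [hv']
    exact hx.2
  rw [h.eq_off hx.1 hv hv'.symm hC]
  exact (h.eq_off hx'.1 hv (e.symm.trans hv'.symm) hC).symm

theorem SegD.surj (h : SegD n X C H) : SurjOn (ptr M q) (closure (gph X C H)) (X \ C) := by
  intro y hy
  obtain ⟨v, hv, rfl⟩ := h.mf.rep hy.1
  exact ⟨_, subset_closure ⟨v, hv, hy.1, hy.2, rfl⟩, ptr_tens (h.ne_XG8 hv hy.2)⟩

theorem SegD.off (h : SegD n X C H) {x : Amb (M * q)} (hx : x ∈ closure (gph X C H))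
    (hC : ptr M q x ∉ C) {φ : E n → Amb M} {z : E n} (hp : Pt X φ z (ptr M q x)) :
    ∃ φ', Pt (closure (gph X C H)) φ' z x ∧ ptr M q ∘ φ' =ᶠ[𝓝 z] φ := by
  obtain ⟨g, rfl, hg, hg0, hi⟩ := hp.rep
  have e : ptr M q x = proj (g z) := hp.eq.symm
  have hC' : proj (g z) ∉ C := by
    rw [← e]
    exact hC
  have hx' := h.eq_off hx hg0 e hC'
  have hH : AnalyticAt ℂ (fun w => H (g w)) z := (h.an _).comp hg
  have hG := an_tens hg hH
  have hG0 := tens_ne hg0 (h.ne_XG8 hg0 hC')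
  have hev : ∀ᶠ w in 𝓝 z, g w ≠ 0 ∧ proj (g w) ∈ X ∧ proj (g w) ∉ C := by
    filter_upwards [hg.continuousAt.eventually_ne hg0, hp.ev,
      hp.cont.eventually (h.closed.isOpen_compl.mem_nhds hC)] with w h1 h2 h3
    exact ⟨h1, h2.mem, h3⟩
  refine ⟨proj ∘ fun w => tens (g w) (H (g w)), ?_, ?_⟩
  · rw [hx']
    refine pt_of_imm hG hG0 (fun u c hu => ?_) (le_antisymm ?_ (Filter.le_map fun s hs => ?_))
    · obtain ⟨a, ha⟩ := (imm_tens hg hH hg0 (h.ne_XG8 hg0 hC') hu).1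
      exact hi u a ha
    · refine tendsto_nhdsWithin_iff.2 ⟨(cont_proj hG0).tendsto.comp hG.continuousAt, ?_⟩
      filter_upwards [hev] with w hw
      exact subset_closure ⟨g w, hw.1, hw.2.1, hw.2.2, rfl⟩
    · rw [← hx']
      have h1 : Tendsto (ptr M q) (𝓝[closure (gph X C H)] x) (𝓝[X] ptr M q x) :=
        cont_ptr.continuousWithinAt.tendsto_nhdsWithin h.maps
      rw [← hp.map] at h1
      filter_upwards [h1 (image_mem_map (inter_mem hs hev)), self_mem_nhdsWithin] with x' h2 h3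
      obtain ⟨w, ⟨hw, hw1, -, hw3⟩, hw'⟩ := h2
      exact ⟨w, hw, (h.eq_off h3 hw1 hw'.symm hw3).symm⟩
  · filter_upwards [hev] with w hw
    exact ptr_tens (h.ne_XG8 hw.1 hw.2.2)

end Pool.Agent.HIR
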