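import Pool.Agent.P.MP_65ad7c_ag.XI1
import Pool.Agent.P.MP_65ad7c_ag.XG7
import Pool.Agent.P.MP_65ad7c_ag.VPrime

open Set Filter Topology Asymptotics
open scoped ComplexConjugate
open Pool.Agent.HT (Amb proj cj IsChart IsSNC)
open Pool.Agent.PWV (ZC ZI Dim)

noncomputable section
namespace Pool.Agent.HIR

variable {N : ℕ} {p : Ideal (MvPolynomial (Fin N) ℂ)} {H P : MvPolynomial (Fin (N + 1)) ℂ}

/-- homogenisation -/
theorem exists_homog (f : MvPolynomial (Fin N) ℂ) : ∃ (P : MvPolynomial (Fin (N + 1)) ℂ) (k : ℕ),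
    P.IsHomogeneous k ∧ ∀ y, ev P (Fin.cons 1 y) = MvPolynomial.eval y f := by
  induction f using MvPolynomial.induction_on with
  | C a => exact ⟨MvPolynomial.C a, 0, MvPolynomial.isHomogeneous_C _ a, fun y => by simp [ev]⟩
  | add f g hf hg =>
    obtain ⟨P, k, hP, eP⟩ := hf
    obtain ⟨Q, l, hQ, eQ⟩ := hg
    refine ⟨P * MvPolynomial.X 0 ^ l + MvPolynomial.X 0 ^ k * Q, k + l,
      (hP.mul (MvPolynomial.isHomogeneous_X_pow 0 l)).add
        ((MvPolynomial.isHomogeneous_X_pow 0 k).mul hQ), fun y => ?_⟩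
    have h1 := eP y
    have h2 := eQ y
    unfold ev at h1 h2 ⊢
    simp [h1, h2]
  | mul_X f i hf =>
    obtain ⟨P, k, hP, eP⟩ := hf
    refine ⟨P * MvPolynomial.X i.succ, k + 1, hP.mul (MvPolynomial.isHomogeneous_X ℂ _),
      fun y => ?_⟩
    have h1 := eP y
    unfold ev at h1 ⊢
    simp [h1]

theorem exists_dehom (P : MvPolynomial (Fin (N + 1)) ℂ) : ∃ f : MvPolynomial (Fin N) ℂ,
    ∀ y, MvPolynomial.eval y f = ev P (Fin.cons 1 y) := by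
  unfold ev
  induction P using MvPolynomial.induction_on with
  | C a => exact ⟨MvPolynomial.C a, fun y => by simp⟩
  | add f g hf hg =>
    obtain ⟨P, eP⟩ := hf
    obtain ⟨Q, eQ⟩ := hg
    exact ⟨P + Q, fun y => by simp [eP, eQ]⟩
  | mul_X f i hf =>
    obtain ⟨P, eP⟩ := hf
    refine Fin.cases ⟨P, fun y => by simp [eP]⟩
      (fun j => ⟨P * MvPolynomial.X j, fun y => by simp [eP]⟩) i

theorem NV.mul (hp : p.IsPrime) (h : NV (ZI p) H) (h' : NV (ZI p) P) : NV (ZI p) (H * P) := by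
  obtain ⟨f, hf⟩ := exists_dehom H
  obtain ⟨g, hg⟩ := exists_dehom P
  by_contra hn
  have h1 : f * g ∈ p := Pool.Agent.PWV.null hp fun y hy => by
    by_contra h2
    refine hn ⟨y, hy, ?_⟩
    rwa [ev_mul_XG7, Pi.mul_apply, ← hf, ← hg, ← map_mul]
  rcases hp.mem_or_mem h1 with h2 | h2
  · obtain ⟨y, hy, h3⟩ := h
    exact h3 (by rw [← hf]; exact hy f h2)
  · obtain ⟨y, hy, h3⟩ := h'
    exact h3 (by rw [← hg]; exact hy g h2)

theorem RH.mul {M : ℕ} {A B : MvPolynomial (Fin M) ℂ} (h : RH A) (h' : RH B) : RH (A * B) := by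
  obtain ⟨k, hk⟩ := h.hom
  obtain ⟨l, hl⟩ := h'.hom
  refine ⟨⟨k + l, hk.mul hl⟩, fun v => ?_⟩
  rw [ev_mul_XG7, Pi.mul_apply, Pi.mul_apply, h.rl, h'.rl, map_mul]

theorem rh_X {M : ℕ} (i : Fin M) : RH (MvPolynomial.X i : MvPolynomial (Fin M) ℂ) := by
  exact ⟨⟨1, MvPolynomial.isHomogeneous_X ℂ i⟩, fun v => by simp [ev]⟩

/-- multiply by the conjugate polynomial -/
theorem exists_rh (hp : p.IsPrime) (hs : ∀ y ∈ ZI p, star y ∈ ZI p) {k : ℕ}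
    (hP : P.IsHomogeneous k) (h : NV (ZI p) P) :
    ∃ P', RH P' ∧ NV (ZI p) P' ∧ ∀ v, ev P v = 0 → ev P' v = 0 := by
  refine ⟨P * MvPolynomial.map (starRingEnd ℂ) P, ⟨⟨k + k, hP.mul (hP.map _)⟩, fun v => ?_⟩,
    h.mul hp ?_, fun v hv => ?_⟩
  · rw [ev_mul_XG7, Pi.mul_apply, Pi.mul_apply, ev_bar_XG7, ev_bar'_XG7, map_mul, mul_comm]
  · obtain ⟨y, hy, h1⟩ := h
    refine ⟨star y, hs y hy, ?_⟩
    have e : (Fin.cons 1 (star y) : Fin (N + 1) → ℂ) = star (Fin.cons 1 y : Fin (N + 1) → ℂ) :=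
      funext fun i => Fin.cases (by simp) (fun j => by simp) i
    rw [e, ev_bar_XG7]
    exact (map_ne_zero _).2 h1
  · rw [ev_mul_XG7, Pi.mul_apply, hv, zero_mul]

/-- finitely many real homogeneous equations -/
theorem exists_eqs {Y : Set (Fin N → ℂ)} (hY : ZC Y) (hs : ∀ y ∈ Y, star y ∈ Y) :
    ∃ 𝒬 : Set (MvPolynomial (Fin (N + 1)) ℂ), 𝒬.Finite ∧ (∀ P ∈ 𝒬, RH P) ∧
      ∀ y, aff y ∈ Zs 𝒬 ↔ y ∈ Y := by
  obtain ⟨S, hS⟩ := hY
  obtain ⟨q, k, G, h1, h2, h3, h4⟩ := exists_gens (aff '' Y) (by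
    rintro _ ⟨y, hy, rfl⟩
    exact ⟨star y, hs y hy, (cj_aff y).symm⟩)
  refine ⟨range G, finite_range G, ?_, fun y => ?_⟩
  · rintro _ ⟨a, rfl⟩
    exact ⟨⟨k, h1 a⟩, h2 a⟩
  · have hz := proj_Zs (𝒬 := range G) (by rintro _ ⟨a, rfl⟩; exact ⟨k, h1 a⟩) (cons_ne y)
    refine hz.trans ⟨fun h => ?_, ?_⟩
    · rw [hS]
      intro f hf
      obtain ⟨P, l, hP, eP⟩ := exists_homog f
      rw [← eP]
      refine (h4 P l hP (fun u hu hc => ?_) _ (cons_ne y) fun a => h _ ⟨a, rfl⟩).1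
      obtain ⟨y', hy', e⟩ := hc
      have hq : ∀ Q ∈ ({P} : Set (MvPolynomial (Fin (N + 1)) ℂ)), ∃ k, Q.IsHomogeneous k := by
        rintro _ rfl
        exact ⟨l, hP⟩
      refine (proj_Zs hq hu).1 ?_ P rfl
      rw [← e]
      refine (proj_Zs hq (cons_ne y')).2 ?_
      rintro _ rfl
      rw [eP]
      rw [hS] at hy'
      exact hy' f hf
    · rintro hy _ ⟨a, rfl⟩
      exact h3 a _ (cons_ne y) ⟨y, hy, rfl⟩

/-- the hypersurface section has smaller dimension -/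
theorem NV.drop (hp : p.IsPrime) (h : NV (ZI p) H) {d : ℕ} (hd : Dim (ZI p) (d + 1)) :
    ∃ f : MvPolynomial (Fin N) ℂ, (∀ y, MvPolynomial.eval y f = ev H (Fin.cons 1 y)) ∧
      Dim (ZI p ∩ {y | MvPolynomial.eval y f = 0}) d := by
  obtain ⟨f, hf⟩ := exists_dehom H
  refine ⟨f, hf, Pool.Agent.PWV.drop hp (fun h2 => ?_) hd⟩
  obtain ⟨y, hy, h3⟩ := h
  exact h3 (by rw [← hf]; exact hy f h2)

end Pool.Agent.HIR
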