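import Mathlib

/-! Projective manifolds with a normal crossing divisor, differential forms on them, and Deligne's
weight and Hodge filtrations on forms with compact support in the complement of the divisor. -/

open Set
open scoped ContDiff ComplexConjugate

noncomputable section
namespace Pool.Agent.HT

section forms
variable {V V' : Type} [NormedAddCommGroup V] [NormedSpace ℝ V] [NormedAddCommGroup V']
  [NormedSpace ℝ V'] {n : ℕ}

/-- Complex valued differential forms of degree `n` on the vector space `V`. -/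
abbrev Form (V : Type) [NormedAddCommGroup V] [NormedSpace ℝ V] (n : ℕ) :=
  V → V [⋀^Fin n]→L[ℝ] ℂ

/-- Pull-back of a form. -/
def pull (G : V → V') (α : Form V' n) : Form V n :=
  fun x => (α (G x)).compContinuousLinearMap (fderiv ℝ G x)

/-- Smooth forms, as a submodule. -/
def sf (V : Type) [NormedAddCommGroup V] [NormedSpace ℝ V] (n : ℕ) : Submodule ℂ (Form V n) where
  carrier := {α | ContDiff ℝ ∞ α}
  add_mem' := fun {a b} (ha : ContDiff ℝ ∞ a) (hb : ContDiff ℝ ∞ b) => ha.add hb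
  zero_mem' := (contDiff_const : ContDiff ℝ ∞ fun _ : V => (0 : V [⋀^Fin n]→L[ℝ] ℂ))
  smul_mem' := fun c a (ha : ContDiff ℝ ∞ a) => ha.const_smul c

/-- Smooth forms. -/
def SF (V : Type) [NormedAddCommGroup V] [NormedSpace ℝ V] (n : ℕ) : Type := sf V n

instance : AddCommGroup (SF V n) := inferInstanceAs (AddCommGroup (sf V n))
instance : Module ℂ (SF V n) := inferInstanceAs (Module ℂ (sf V n))

theorem SF.smooth (α : SF V n) : ContDiff ℝ ∞ α.1 := α.2

theorem SF.diff (α : SF V n) (x : V) : DifferentiableAt ℝ α.1 x :=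
  α.smooth.differentiable (by simp) x

@[simp] theorem SF.val_add (a b : SF V n) : (a + b).1 = a.1 + b.1 := rfl
@[simp] theorem SF.val_sub (a b : SF V n) : (a - b).1 = a.1 - b.1 := rfl
@[simp] theorem SF.val_neg (a : SF V n) : (-a).1 = -a.1 := rfl
@[simp] theorem SF.val_smul (c : ℂ) (a : SF V n) : (c • a).1 = c • a.1 := rfl
@[simp] theorem SF.val_zero : (0 : SF V n).1 = 0 := rfl

/-- Smooth forms whose pull-back under every smooth map into `S` vanishes. -/
def Nul (S : Set V) (n : ℕ) : Submodule ℂ (SF V n) where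
  carrier := {α | ∀ (γ : V → V) (O : Set V), IsOpen O → ContDiffOn ℝ ∞ γ O → MapsTo γ O S →
    ∀ z ∈ O, pull γ α.1 z = 0}
  add_mem' := fun {a b} ha hb γ O hO hγ hS z hz => by
    have h1 := ha γ O hO hγ hS z hz
    have h2 := hb γ O hO hγ hS z hz
    ext v
    have h1' := DFunLike.congr_fun h1 v
    have h2' := DFunLike.congr_fun h2 v
    simp only [pull] at h1' h2' ⊢
    simp at h1' h2' ⊢
    rw [h1', h2', add_zero]
  zero_mem' := fun γ O _ _ _ z _ => by ext v; simp [pull]
  smul_mem' := fun c a ha γ O hO hγ hS z hz => by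
    have h1 := ha γ O hO hγ hS z hz
    ext v
    have h1' := DFunLike.congr_fun h1 v
    simp only [pull] at h1' ⊢
    simp at h1' ⊢
    exact Or.inr h1'

/-- Smooth forms of degree `n` on the submanifold `S`. -/
abbrev Om (S : Set V) (n : ℕ) := SF V n ⧸ Nul S n

theorem extDeriv_csmul (c : ℂ) {α : Form V n} {x : V} (h : DifferentiableAt ℝ α x) :
    extDeriv (c • α) x = c • extDeriv α x := by
  ext v
  simp [extDeriv, fderiv_const_smul h, ContinuousAlternatingMap.alternatizeUncurryFin_apply,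
    Finset.mul_sum]

/-- The exterior derivative on smooth forms. -/
def SF.d (n : ℕ) : SF V n →ₗ[ℂ] SF V (n + 1) where
  toFun α := ⟨extDeriv α.1, by
    have h := (ContinuousAlternatingMap.alternatizeUncurryFinCLM (n := n) ℝ V ℂ).contDiff.comp
      (α.smooth.fderiv_right (m := ∞) (by simp))
    exact h⟩
  map_add' a b := Subtype.ext <| funext fun x => extDeriv_add (a.diff x) (b.diff x)
  map_smul' c a := Subtype.ext <| funext fun x => extDeriv_csmul c (a.diff x)

/-- The exterior derivative. -/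
def Om.d (S : Set V) (n : ℕ) : Om S n →ₗ[ℂ] Om S (n + 1) :=
  Submodule.mapQ _ _ (SF.d n) fun α hα γ O hO hγ hS z hz => by
    have h := extDeriv_pullback (f := γ) (x := z) (r := ∞)
      (α.diff _) (hγ.contDiffAt (hO.mem_nhds hz)) (by simp; decide)
    have h0 : pull γ α.1 =ᶠ[nhds z] fun _ => 0 := by
      filter_upwards [hO.mem_nhds hz] with y hy using hα γ O hO hγ hS y hy
    refine h.symm.trans (h0.extDeriv_eq.trans ?_)
    ext v
    simp [extDeriv, ContinuousAlternatingMap.alternatizeUncurryFin_apply]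

/-- Pull-back of smooth forms under a linear map. -/
def SF.pull (L : V →L[ℝ] V) (n : ℕ) : SF V n →ₗ[ℂ] SF V n where
  toFun α := ⟨fun x => (α.1 (L x)).compContinuousLinearMap L,
    (ContinuousAlternatingMap.compContinuousLinearMapCLM (ι := Fin n) (F := ℂ) L).contDiff.comp
      (α.smooth.comp L.contDiff)⟩
  map_add' _ _ := rfl
  map_smul' _ _ := rfl

/-- Pull-back under a linear map of the ambient space that sends `S` to `S'`. -/
def Om.pull {S S' : Set V} (L : V →L[ℝ] V) (h : MapsTo L S S') (n : ℕ) : Om S' n →ₗ[ℂ] Om S n :=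
  Submodule.mapQ _ _ (SF.pull L n) fun α hα γ O hO hγ hS z hz => by
    have h1 := hα (L ∘ γ) O hO (L.contDiff.comp_contDiffOn hγ) (h.comp hS) z hz
    have hd : DifferentiableAt ℝ γ z :=
      (hγ.contDiffAt (hO.mem_nhds hz)).differentiableAt (by simp)
    rw [HT.pull, fderiv_comp z L.differentiableAt hd, L.fderiv] at h1
    exact h1

/-- Restriction to a subset. -/
abbrev Om.res {S S' : Set V} (h : S ⊆ S') (n : ℕ) : Om S' n →ₗ[ℂ] Om S n :=
  Om.pull (ContinuousLinearMap.id ℝ V) h n

/-- Complex conjugation of the values of a smooth form. -/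
def SF.conj (n : ℕ) : SF V n →ₗ⋆[ℂ] SF V n where
  toFun α := ⟨fun x => (Complex.conjCLE : ℂ →L[ℝ] ℂ).compContinuousAlternatingMap (α.1 x),
    (ContinuousLinearMap.compContinuousAlternatingMapCLM ℝ V ℂ ℂ (Fin n)
      (Complex.conjCLE : ℂ →L[ℝ] ℂ)).contDiff.comp α.smooth⟩
  map_add' a b := Subtype.ext (by ext x v; simp)
  map_smul' c a := Subtype.ext (by ext x v; simp)

/-- Complex conjugation of forms. -/
def Om.conj (S : Set V) (n : ℕ) : Om S n →ₗ⋆[ℂ] Om S n :=
  Submodule.mapQ _ _ (SF.conj n) fun α hα γ O hO hγ hS z hz => by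
    have h1 := hα γ O hO hγ hS z hz
    ext v
    have h1' := DFunLike.congr_fun h1 v
    simpa [HT.pull, SF.conj] using h1'

/-- Forms on `Z` with compact support in `U`. -/
def Ac (Z U : Set V) (n : ℕ) : Submodule ℂ (Om Z n) :=
  ⨆ K ∈ {K | IsCompact K ∧ K ⊆ U}, LinearMap.ker (Om.res (sdiff_subset : Z \ K ⊆ Z) n)

variable {ι : Type}

/-- The closed stratum `D_{I 0} ∩ ... ∩ D_{I (p-1)}` (for `p = 0` it is `Z`). -/
def strat (Z : Set V) (D : ι → Set V) {p : ℕ} (I : Fin p → ι) : Set V := Z ∩ ⋂ j, D (I j)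

omit [NormedAddCommGroup V] [NormedSpace ℝ V] in
theorem strat_sub (Z : Set V) (D : ι → Set V) {p : ℕ} (I : Fin (p + 1) → ι) (j : Fin (p + 1)) :
    strat Z D I ⊆ strat Z D (j.removeNth I) :=
  inter_subset_inter_right _ fun _ h => mem_iInter.2 fun k => mem_iInter.1 h (j.succAbove k)

/-- The double complex: in column `p` and row `n`, an `n`-form on each `p`-fold intersection. -/
abbrev Tot (Z : Set V) (D : ι → Set V) := (p n : ℕ) → (I : Fin p → ι) → Om (strat Z D I) n

/-- The total differential `d + (-1)^n ∑ (-1)^j res_j`. -/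
def Dt (Z : Set V) (D : ι → Set V) (c : Tot Z D) : Tot Z D := fun p n I =>
  (match n with
    | 0 => 0
    | n + 1 => Om.d _ n (c p n I)) +
  (match p, I with
    | 0, _ => 0
    | p + 1, I => ∑ j : Fin (p + 1), (-1 : ℂ) ^ (n + j) •
        Om.res (strat_sub Z D I j) n (c p n (j.removeNth I)))

/-- The forms on `Z` which, placed in column `0`, lie in `A` up to total coboundaries. -/
def cls (Z : Set V) (D : ι → Set V) (A : Set (Tot Z D)) (n : ℕ) : Submodule ℂ (Om Z n) :=
  (Submodule.span ℂ (A ∪ range (Dt Z D))).comap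
    ((LinearMap.single ℂ (fun p => (n : ℕ) → (I : Fin p → ι) → Om (strat Z D I) n) 0).comp <|
      (LinearMap.single ℂ (fun n => (I : Fin 0 → ι) → Om (strat Z D I) n) n).comp <|
        LinearMap.pi fun _ => Om.res inter_subset_left n)

/-- The filtration by columns `≥ c`: in degree `n` it is `W_{n-c}`. -/
def col (Z : Set V) (D : ι → Set V) (c n : ℕ) : Submodule ℂ (Om Z n) :=
  cls Z D {y | ∀ p < c, y p = 0} n

end forms

/-- Complex `N × N` matrices. -/
abbrev Amb (N : ℕ) := EuclideanSpace ℂ (Fin N × Fin N)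

variable {N : ℕ} {ι : Type}

/-- The orthogonal projector onto the line `ℂ v`: the embedding of `ℙ^{N-1}` into matrices. -/
def proj (v : Fin N → ℂ) : Amb N :=
  WithLp.toLp 2 fun p => v p.1 * conj (v p.2) / ∑ k, v k * conj (v k)

/-- Complex conjugation of `ℙ^{N-1}`: conjugation of the entries. -/
def cj (N : ℕ) : Amb N →L[ℝ] Amb N :=
  LinearMap.toContinuousLinearMap
    { toFun := fun x => WithLp.toLp 2 fun p => conj (x p)
      map_add' := fun x y => by ext p; simp
      map_smul' := fun c x => by ext p; simp }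

/-- `α` has only components of type (b, n - b), `b ≥ a`, on `S`: for holomorphic maps into `S`
the pull-back at (c v_1, ..., c v_n) is a combination of the `c^b conj(c)^(n-b)`, `b ≥ a`. -/
def TypeGe (S : Set (Amb N)) (a n : ℕ) : Set (Om S n) :=
  Submodule.Quotient.mk '' {α : SF (Amb N) n | ∀ (e : ℕ) (O : Set (Fin e → ℂ))
    (g : (Fin e → ℂ) → Fin N → ℂ), IsOpen O → DifferentiableOn ℂ g O →
    (∀ z ∈ O, g z ≠ 0 ∧ proj (g z) ∈ S) → ∀ z ∈ O, ∀ v : Fin n → Fin e → ℂ, ∃ β : ℕ → ℂ, ∀ c : ℂ,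
      pull (proj ∘ g) α.1 z (fun i => c • v i) =
        ∑ b ∈ Finset.Icc a n, β b * c ^ b * conj c ^ (n - b)}

/-- The Hodge filtration `F^a`. -/
def Fil (Z : Set (Amb N)) (D : ι → Set (Amb N)) (a n : ℕ) : Submodule ℂ (Om Z n) :=
  cls Z D {y | ∀ p m I, y p m I ∈ TypeGe _ a m} n

/-- `proj ∘ f` is a holomorphic parametrisation (an injective immersion, open onto `Z`). -/
structure IsChart {d : ℕ} (Z : Set (Amb N)) (O : Set (Fin d → ℂ))
    (f : (Fin d → ℂ) → Fin N → ℂ) : Prop where
  isOpen : IsOpen O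
  hol : DifferentiableOn ℂ f O
  ne : ∀ z ∈ O, f z ≠ 0
  imm : ∀ z ∈ O, ∀ (v : Fin d → ℂ) (c : ℂ), fderiv ℂ f z v = c • f z → v = 0
  inj : InjOn (proj ∘ f) O
  opn : ∀ O' ⊆ O, IsOpen O' → ∃ W, IsOpen W ∧ (proj ∘ f) '' O' = Z ∩ W

/-- `Z` is a compact complex submanifold of `ℙ^{N-1}` of dimension `d`, and the `D i` are the
smooth components of a normal crossing divisor: in suitable charts the `D i` that occur are
distinct coordinate hyperplanes. -/
structure IsSNC (d : ℕ) (Z : Set (Amb N)) (D : ι → Set (Amb N)) : Prop where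
  compact : IsCompact Z
  sub : ∀ i, D i ⊆ Z
  chart : ∀ x ∈ Z, ∃ (O : Set (Fin d → ℂ)) (f : (Fin d → ℂ) → Fin N → ℂ)
    (κ : ι → Option (Fin d)), IsChart Z O f ∧ x ∈ (proj ∘ f) '' O ∧
    (∀ i j k, κ i = some k → κ j = some k → i = j) ∧
    ∀ i, ∀ z ∈ O, proj (f z) ∈ D i ↔ ∃ k, κ i = some k ∧ z k = 0

/-- `lam` is integration over the complex manifold `Z`: on a form supported in a chart it is the
integral of the coefficient of `dx_1 dy_1 ... dx_d dy_d`. -/
def IsInt (d : ℕ) (Z U : Set (Amb N)) (lam : Ac Z U (2 * d) →ₗ[ℂ] ℂ) : Prop :=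
  ∀ (O : Set (Fin d → ℂ)) (f : (Fin d → ℂ) → Fin N → ℂ), IsChart Z O f →
    ∀ (α : SF (Amb N) (2 * d)) (h : Submodule.Quotient.mk α ∈ Ac Z U (2 * d)),
      Submodule.Quotient.mk α ∈ Ac Z ((proj ∘ f) '' O) (2 * d) →
      lam ⟨_, h⟩ = ∫ z in O, pull (proj ∘ f) α.1 z fun i =>
        Pi.single ⟨i / 2, by omega⟩ (Complex.I ^ ((i : ℕ) % 2))

end Pool.Agent.HT
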