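import Pool.Agent.P.MP_65ad7c_ag.NDefs
import Pool.Agent.P.MP_65ad7c_ag.HDefs

/-! The intersection complex, the direct image of the constant sheaf of a resolution, and the
weight and Hodge filtrations. -/

open CategoryTheory TopologicalSpace Opposite TopCat.Presheaf Pool.Agent.HT

noncomputable section
namespace Pool.Agent.PW

variable {Y : Type} [TopologicalSpace Y]

variable (Y) in
/-- Complexes of presheaves of complex vector spaces, in degrees `≥ 0`. -/
abbrev PCx := CochainComplex (TopCat.Presheaf (ModuleCat.{0} ℂ) (TopCat.of Y)) ℕ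

/-- Restriction of sections. -/
abbrev rs (F : TopCat.Presheaf (ModuleCat.{0} ℂ) (TopCat.of Y)) {V W : Opens Y} (h : W ≤ V) :
    F.obj (op V) →ₗ[ℂ] F.obj (op W) := (F.map (homOfLE h).op).hom

/-- The differential on sections. -/
abbrev dv (I : PCx Y) (n m : ℕ) (V : Opens Y) : (I.X n).obj (op V) →ₗ[ℂ] (I.X m).obj (op V) :=
  ((I.d n m).app (op V)).hom

/-- The stalk at `x` of the subcomplex of sections vanishing on `O` is exact in degree `n`
(for `n = 0` the differential `I.d 0 0` is zero). -/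
def ExactNear (I : PCx Y) (O : Opens Y) (x : Y) (n : ℕ) : Prop :=
  ∀ V : Opens Y, x ∈ V → ∀ c : (I.X n).obj (op V), dv I n (n + 1) V c = 0 →
    rs _ (inf_le_left : V ⊓ O ≤ V) c = 0 → ∃ (W : Opens Y) (h : W ≤ V), x ∈ W ∧
      ∃ b : (I.X (n - 1)).obj (op W),
        rs _ (inf_le_left : W ⊓ O ≤ W) b = 0 ∧ dv I (n - 1) n W b = rs _ h c

/-- `I` is a complex of injective sheaves with the axioms AX1 of Goresky and MacPherson for the
middle perversity and the trivial local system `ℂ · one`, with respect to a filtration by open sets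
`U k` (complement of the strata of real codimension `≥ k + 2`) that is invariant under all
homeomorphisms of `Y`. -/
structure IsIC (U : ℕ → Opens Y) (I : PCx Y) (one : (I.X 0).obj (op (U 0))) : Prop where
  mono : Monotone U
  top : ∃ m, U m = ⊤
  inv : ∀ (φ : Y ≃ₜ Y) (k : ℕ), ∀ y ∈ U k, φ y ∈ U k
  inj : ∀ n, ∃ h : (I.X n).IsSheaf,
    Injective (⟨I.X n, h⟩ : TopCat.Sheaf (ModuleCat.{0} ℂ) (TopCat.of Y))
  closed : dv I 0 1 _ one = 0
  ne : ∀ (V : Opens Y) (h : V ≤ U 0), V ≠ ⊥ → rs _ h one ≠ 0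
  gen : ∀ (V : Opens Y) (h : V ≤ U 0), ∀ x ∈ V, ∀ c : (I.X 0).obj (op V), dv I 0 1 V c = 0 →
    ∃ (W : Opens Y) (h' : W ≤ V) (a : ℂ), x ∈ W ∧ rs _ h' c = a • rs _ (h'.trans h) one
  supp : ∀ k, ∀ x ∈ U (k + 1), ∀ n, k / 2 < n → ExactNear I ⊥ x n
  cosupp : ∀ k, ∀ x ∈ U (k + 1), ∀ n, n ≤ k / 2 + 1 → ExactNear I (U k) x n

section dual
variable (t : ℕ) {E : ℕ → Type} [∀ q, AddCommGroup (E q)] [∀ q, Module ℂ (E q)]
  (δ : ∀ q, E q →ₗ[ℂ] E (q + 1)) (A : Opens Y → ∀ q, Submodule ℂ (E q))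

/-- The presheaf `V ↦ (A V (t - j))^*` (zero for `j > t`); restriction is the transpose of the
inclusion. -/
def dualX (hA : ∀ V W, W ≤ V → ∀ q, A W q ≤ A V q) (j : ℕ) :
    TopCat.Presheaf (ModuleCat.{0} ℂ) (TopCat.of Y) where
  obj V := ModuleCat.of ℂ (∀ q : {q // q + j = t}, Module.Dual ℂ (A V.unop q.1))
  map h := ModuleCat.ofHom (LinearMap.pi fun q =>
    (Submodule.inclusion (hA _ _ (leOfHom h.unop) q.1)).dualMap.comp (LinearMap.proj q))
  map_id _ := rfl
  map_comp _ _ := rfl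

/-- The transpose of `δ`. -/
def dualD (hA : ∀ V W, W ≤ V → ∀ q, A W q ≤ A V q)
    (hδ : ∀ V q, ∀ α ∈ A V q, δ q α ∈ A V (q + 1)) (j : ℕ) :
    dualX t A hA j ⟶ dualX t A hA (j + 1) where
  app V := ModuleCat.ofHom (LinearMap.pi fun q : {q // q + (j + 1) = t} =>
    ((δ q.1).restrict (hδ V.unop q.1)).dualMap.comp (LinearMap.proj
      (φ := fun q : {q // q + j = t} => Module.Dual ℂ (A V.unop q.1))
      ⟨q.1 + 1, by have := q.2; omega⟩))
  naturality _ _ _ := ModuleCat.hom_ext (LinearMap.ext fun lam => funext fun q =>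
    LinearMap.ext fun _ => congrArg (lam ⟨q.1 + 1, by have := q.2; omega⟩) (Subtype.ext rfl))

/-- The complex of the `dualX j`. -/
def dualCx (hA : ∀ V W, W ≤ V → ∀ q, A W q ≤ A V q)
    (hδ : ∀ V q, ∀ α ∈ A V q, δ q α ∈ A V (q + 1)) (hδδ : ∀ q α, δ (q + 1) (δ q α) = 0) : PCx Y :=
  CochainComplex.of (dualX t A hA) (dualD t δ A hA hδ)
    fun _ => NatTrans.ext (funext fun _ => ModuleCat.hom_ext (LinearMap.ext fun lam =>
      funext fun q => LinearMap.ext fun α =>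
        (congrArg (lam ⟨q.1 + 1 + 1, by have := q.2; omega⟩)
          (Subtype.ext (hδδ q.1 α.1))).trans (map_zero _)))

end dual

variable {N : ℕ} {ι : Type} (d : ℕ) {Z : Set (Amb N)} {D : ι → Set (Amb N)}
  (π : C(↥(Z \ ⋃ i, D i), Y))

/-- `π⁻¹ V` as a subset of the ambient space. -/
def up (V : Opens Y) : Set (Amb N) := Subtype.val '' (π ⁻¹' V)

theorem ac_mono {V W : Opens Y} (h : W ≤ V) (q : ℕ) : Ac Z (up π W) q ≤ Ac Z (up π V) q :=
  biSup_mono fun _ hK => ⟨hK.1, hK.2.trans (Set.image_mono (Set.preimage_mono h))⟩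

theorem ac_d (U : Set (Amb N)) (q : ℕ) : ∀ α ∈ Ac Z U q, Om.d Z q α ∈ Ac Z U (q + 1) := by
  refine fun α hα => (?_ : Ac Z U q ≤ (Ac Z U (q + 1)).comap (Om.d Z q)) hα
  refine iSup₂_le fun K hK α hα => (le_iSup₂_of_le K hK le_rfl : _ ≤ Ac Z U (q + 1)) ?_
  obtain ⟨α, rfl⟩ := Submodule.Quotient.mk_surjective _ α
  have h0 : Om.d (Z \ K) q (Om.res Set.sdiff_subset q (Submodule.Quotient.mk α)) = 0 := by
    rw [LinearMap.mem_ker.1 hα, map_zero]
  exact h0

theorem om_dd (q : ℕ) (α : Om Z q) : Om.d Z (q + 1) (Om.d Z q α) = 0 := by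
  obtain ⟨α, rfl⟩ := Submodule.Quotient.mk_surjective _ α
  have h0 : SF.d (q + 1) (SF.d q α) = 0 :=
    Subtype.ext (extDeriv_extDeriv (r := ((⊤ : ℕ∞) : WithTop ℕ∞)) α.smooth (by simp; decide))
  exact (congrArg Submodule.Quotient.mk h0).trans rfl

/-- The complex `V ↦ (A_c^{2d-j}(π⁻¹ V))^*` of linear duals of compactly supported forms: a complex
of injective sheaves representing `Rπ_* ℂ` (Verdier). -/
def Kx : PCx Y :=
  dualCx (2 * d) (Om.d Z) (fun V q => Ac Z (up π V) q) (fun _ _ => ac_mono π)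
    (fun V => ac_d (up π V)) om_dd

/-- The functionals that kill the closed forms lying in `S`. -/
def ann (j : ℕ) (S : ∀ q, Set (Om Z q)) : Submodule ℂ (((Kx d π).X j).obj (op ⊤)) where
  carrier := {lam | ∀ q (α : Ac Z (up π ⊤) q.1), Om.d Z q.1 α.1 = 0 → α.1 ∈ S q.1 → lam q α = 0}
  add_mem' ha hb q α h1 h2 := (congrArg₂ (· + ·) (ha q α h1 h2) (hb q α h1 h2)).trans (add_zero _)
  zero_mem' _ _ _ _ := rfl
  smul_mem' c _ ha q α h1 h2 := (congrArg (c * ·) (ha q α h1 h2)).trans (mul_zero _)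

/-- Deligne's weight filtration `W_m H^j(Z - D)`, as a space of cocycles. -/
def Wt (j m : ℕ) := ann d π j fun q => col Z D (m + 1 - j) q

/-- Deligne's Hodge filtration `F^a H^j(Z - D)`. -/
def Hg (j a : ℕ) := ann d π j fun q => Fil Z D (d + 1 - a) q

/-- The conjugate Hodge filtration. -/
def Hg' (j a : ℕ) := ann d π j fun q => Om.conj Z q '' Fil Z D (d + 1 - a) q

/-- The weight filtration `W_m IH^j(Y)`, as a space of cocycles: the image of `W_m H^j(Z - D)`
under the projection `p`, plus the coboundaries. -/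
def WIH {I : PCx Y} (p : Kx d π ⟶ I) (j m : ℕ) : Submodule ℂ ((I.X j).obj (op ⊤)) :=
  (Wt d π j m).map ((p.f j).app (op ⊤)).hom ⊔ LinearMap.range ((I.d (j - 1) j).app (op ⊤)).hom

/-- The data that put Saito's mixed Hodge structure on `IH(Y)`: a projective manifold `Z` with a
normal crossing divisor `D`, a map `π : Z - D → Y` that carries complex conjugation to the relation
`S`, and a splitting `(i, p)` of `I` off `Rπ_* ℂ`, with `i one` the fundamental class, whose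
projector `i p` respects the weight and Hodge filtrations of `H(Z - D)`. -/
structure IsRes (S : Y → Y → Prop) {U : ℕ → Opens Y} {I : PCx Y} (one : (I.X 0).obj (op (U 0)))
    (i : I ⟶ Kx d π) (p : Kx d π ⟶ I) : Prop where
  snc : IsSNC d Z D
  cjZ : Set.MapsTo (cj N) Z Z
  cjD : ∀ a, ∃ b, Set.MapsTo (cj N) (D a) (D b)
  cjπ : ∀ u u' : ↥(Z \ ⋃ i, D i), u'.1 = cj N u.1 → S (π u) (π u')
  split : Nonempty (Homotopy (i ≫ p) (𝟙 I))
  int : IsInt d Z (up π (U 0)) (((i.f 0).app (op (U 0))).hom one ⟨2 * d, rfl⟩)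
  wt : ∀ j m, (Wt d π j m).map (((p ≫ i).f j).app (op ⊤)).hom ≤ Wt d π j m
  hg : ∀ j a, (Hg d π j a).map (((p ≫ i).f j).app (op ⊤)).hom ≤ Hg d π j a
  hg' : ∀ j a, (Hg' d π j a).map (((p ≫ i).f j).app (op ⊤)).hom ≤ Hg' d π j a

end Pool.Agent.PW
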