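import Pool.Agent.P.MP_65ad7c_ag.QDefs
import Pool.Agent.P.MP_65ad7c_ag.SDefs

/-! Dictionary between the forms of the statement and the bundled forms of the proof. -/

open Set
open scoped ContDiff ComplexConjugate

noncomputable section
namespace Pool.Agent.PQ

open Pool.Agent.HT (SF Om)

variable {N n : ℕ} {ι : Type}

/-- The class of a smooth form. -/
abbrev cl (S : Set (Amb N)) (α : SF (Amb N) n) : Om S n := Submodule.Quotient.mk α

theorem nul_iff {S : Set (Amb N)} (α : SF (Amb N) n) : Nul S α.1 ↔ α ∈ HT.Nul S n := by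
  constructor
  · intro h γ O hO hγ hS z hz
    ext v
    exact h γ O hO hγ hS z hz v
  · intro h γ O hO hγ hS z hz v
    exact DFunLike.congr_fun (h γ O hO hγ hS z hz) v

theorem cl_eq_zero {S : Set (Amb N)} (α : SF (Amb N) n) : cl S α = 0 ↔ Nul S α.1 :=
  (Submodule.Quotient.mk_eq_zero _).trans (nul_iff α).symm

theorem cl_eq {S : Set (Amb N)} (α β : SF (Amb N) n) : cl S α = cl S β ↔ Nul S (α.1 - β.1) :=
  (Submodule.Quotient.eq _).trans (nul_iff (α - β)).symm

theorem Nul.mono {S S' : Set (Amb N)} (h : S ⊆ S') {α : Form N n} (hα : Nul S' α) : Nul S α :=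
  fun γ O hO hγ hS => hα γ O hO hγ (hS.mono_right h)

theorem res_cl {S S' : Set (Amb N)} (h : S ⊆ S') (α : SF (Amb N) n) :
    Om.res h n (cl S' α) = cl S α := rfl

theorem ac_iff {Z U : Set (Amb N)} (α : SF (Amb N) n) : cl Z α ∈ HT.Ac Z U n ↔ Ac Z U α.1 := by
  constructor
  · intro h
    let A : Submodule ℂ (Om Z n) :=
      { carrier := {x | ∃ K, IsCompact K ∧ K ⊆ U ∧ Om.res (sdiff_subset : Z \ K ⊆ Z) n x = 0}
        add_mem' := by
          rintro x y ⟨K, h1, h2, h3⟩ ⟨K', h1', h2', h3'⟩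
          obtain ⟨x, rfl⟩ := Submodule.Quotient.mk_surjective _ x
          obtain ⟨y, rfl⟩ := Submodule.Quotient.mk_surjective _ y
          refine ⟨K ∪ K', h1.union h1', union_subset h2 h2', ?_⟩
          have a1 : cl (Z \ (K ∪ K')) x = 0 := (cl_eq_zero x).2
            (((cl_eq_zero x).1 h3).mono (sdiff_subset_sdiff_right subset_union_left))
          have a2 : cl (Z \ (K ∪ K')) y = 0 := (cl_eq_zero y).2
            (((cl_eq_zero y).1 h3').mono (sdiff_subset_sdiff_right subset_union_right))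
          rw [map_add, res_cl, res_cl, a1, a2, add_zero]
        zero_mem' := ⟨∅, isCompact_empty, empty_subset _, map_zero _⟩
        smul_mem' := by
          rintro c x ⟨K, h1, h2, h3⟩
          exact ⟨K, h1, h2, by rw [map_smul, h3, smul_zero]⟩ }
    have h1 : HT.Ac Z U n ≤ A := iSup₂_le fun K hK x hx => ⟨K, hK.1, hK.2, hx⟩
    obtain ⟨K, h2, h3, h4⟩ := h1 h
    exact ⟨α.2, K, h2, h3, (cl_eq_zero α).1 h4⟩
  · rintro ⟨-, K, h2, h3, h4⟩
    exact (le_iSup₂_of_le K ⟨h2, h3⟩ le_rfl : _ ≤ HT.Ac Z U n) ((cl_eq_zero α).2 h4)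

theorem ac_of_nul {Z U : Set (Amb N)} {α : Form N n} (h : Sm α) (h0 : Nul Z α) : Ac Z U α :=
  ⟨h, ∅, isCompact_empty, empty_subset _, h0.mono sdiff_subset⟩

theorem IsFun.congr {Z U : Set (Amb N)} {φ : Form N n → ℂ} (h : IsFun Z U φ)
    {α β : SF (Amb N) n} (hβ : cl Z β ∈ HT.Ac Z U n) (e : cl Z α = cl Z β) : φ α.1 = φ β.1 := by
  have h0 := (cl_eq α β).1 e
  have h1 := h.1 1 (α.1 - β.1) β.1 (ac_of_nul (α - β).2 h0) ((ac_iff β).1 hβ)
  rw [h.2 (α.1 - β.1) (α - β).2 h0, one_smul, sub_add_cancel, mul_zero, zero_add] at h1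
  exact h1

/-- A chosen representative. -/
def rep {S : Set (Amb N)} (x : Om S n) : SF (Amb N) n :=
  (Submodule.Quotient.mk_surjective _ x).choose

theorem cl_rep {S : Set (Amb N)} (x : Om S n) : cl S (rep x) = x :=
  (Submodule.Quotient.mk_surjective _ x).choose_spec

theorem IsFun.lin {Z U : Set (Amb N)} {φ : Form N n → ℂ} (h : IsFun Z U φ) (a : ℂ)
    (x y : HT.Ac Z U n) : φ (rep (a • x + y).1).1 = a * φ (rep x.1).1 + φ (rep y.1).1 := by
  have hx : cl Z (rep x.1) ∈ HT.Ac Z U n := by rw [cl_rep]; exact x.2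
  have hy : cl Z (rep y.1) ∈ HT.Ac Z U n := by rw [cl_rep]; exact y.2
  have e : cl Z (a • rep x.1 + rep y.1) = (a • x + y).1 := by
    change a • cl Z (rep x.1) + cl Z (rep y.1) = _
    rw [cl_rep, cl_rep]
    rfl
  rw [← h.1 a _ _ ((ac_iff _).1 hx) ((ac_iff _).1 hy)]
  exact h.congr (β := a • rep x.1 + rep y.1) (by rw [e]; exact (a • x + y).2)
    ((cl_rep _).trans e.symm)

/-- The functional on compactly supported forms. -/
def toDual {Z U : Set (Amb N)} (φ : Form N n → ℂ) (h : IsFun Z U φ) :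
    Module.Dual ℂ (HT.Ac Z U n) where
  toFun x := φ (rep x.1).1
  map_add' x y := by
    have := h.lin 1 x y
    rwa [one_smul, one_mul] at this
  map_smul' a x := by
    have h1 := h.lin a x 0
    have h2 := h.lin 1 0 0
    rw [one_smul, add_zero, one_mul, left_eq_add] at h2
    rwa [add_zero, h2, add_zero] at h1

theorem toDual_cl {Z U : Set (Amb N)} {φ : Form N n → ℂ} (h : IsFun Z U φ) (α : SF (Amb N) n)
    (hα : cl Z α ∈ HT.Ac Z U n) : toDual φ h ⟨cl Z α, hα⟩ = φ α.1 :=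
  h.congr hα (cl_rep _)

open Classical in
/-- The function on forms given by a functional. -/
def ofDual {Z U : Set (Amb N)} (lam : Module.Dual ℂ (HT.Ac Z U n)) (α : Form N n) : ℂ :=
  if h : Ac Z U α then lam ⟨cl Z ⟨α, h.1⟩, (ac_iff ⟨α, h.1⟩).2 h⟩ else 0

theorem ofDual_cl {Z U : Set (Amb N)} (lam : Module.Dual ℂ (HT.Ac Z U n)) (α : SF (Amb N) n)
    (hα : cl Z α ∈ HT.Ac Z U n) : ofDual lam α.1 = lam ⟨cl Z α, hα⟩ :=
  dif_pos ((ac_iff α).1 hα)

theorem isFun_ofDual {Z U : Set (Amb N)} (lam : Module.Dual ℂ (HT.Ac Z U n)) :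
    IsFun Z U (ofDual lam) := by
  refine ⟨fun a α β hα hβ => ?_, fun α hα h0 => ?_⟩
  · let α' : SF (Amb N) n := ⟨α, hα.1⟩
    let β' : SF (Amb N) n := ⟨β, hβ.1⟩
    have h1 := (ac_iff α').2 hα
    have h2 := (ac_iff β').2 hβ
    have h3 : cl Z (a • α' + β') ∈ HT.Ac Z U n := add_mem (Submodule.smul_mem _ a h1) h2
    have e1 := ofDual_cl lam _ h1
    have e2 := ofDual_cl lam _ h2
    have e3 := ofDual_cl lam _ h3
    refine e3.trans ?_
    rw [show ofDual lam α = _ from e1, show ofDual lam β = _ from e2, ← smul_eq_mul, ← map_smul,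
      ← map_add]
    rfl
  · let α' : SF (Amb N) n := ⟨α, hα⟩
    have h1 := (ac_iff (U := U) α').2 (ac_of_nul hα h0)
    refine (ofDual_cl lam α' h1).trans ?_
    have : (⟨cl Z α', h1⟩ : HT.Ac Z U n) = 0 := Subtype.ext ((cl_eq_zero α').2 h0)
    rw [this, map_zero]

/-- Smooth cochains. -/
abbrev STot (N : ℕ) (ι : Type) := (p n : ℕ) → (Fin p → ι) → SF (Amb N) n

/-- The class of a smooth cochain. -/
def clT (Z : Set (Amb N)) (D : ι → Set (Amb N)) (y : STot N ι) : HT.Tot Z D :=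
  fun p m I => cl _ (y p m I)

/-- The total differential on smooth cochains. -/
def DtS (c : STot N ι) : STot N ι := fun p n I =>
  (match n with
    | 0 => 0
    | n + 1 => SF.d n (c p n I)) +
  (match p, I with
    | 0, _ => 0
    | p + 1, I => ∑ j : Fin (p + 1), (-1 : ℂ) ^ (n + j) • c p n (j.removeNth I))

theorem sf_val_sum {κ : Type} (s : Finset κ) (f : κ → SF (Amb N) n) :
    (∑ k ∈ s, f k).1 = ∑ k ∈ s, (f k).1 :=
  map_sum (HT.sf (Amb N) n).subtype f s

theorem DtS_val (c : STot N ι) (p m : ℕ) (I : Fin p → ι) :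
    (DtS c p m I).1 = Dt (fun p m I => (c p m I).1) p m I := by
  unfold DtS Dt
  rw [SF.val_add]
  refine congrArg₂ (· + ·) ?_ ?_
  · cases m <;> rfl
  · cases p with
    | zero => rfl
    | succ p => exact sf_val_sum _ _

theorem Dt_clT (Z : Set (Amb N)) (D : ι → Set (Amb N)) (c : STot N ι) :
    HT.Dt Z D (clT Z D c) = clT Z D (DtS c) := by
  funext p m I
  unfold DtS HT.Dt clT
  rw [cl, Submodule.Quotient.mk_add]
  refine congrArg₂ (· + ·) ?_ ?_
  · cases m <;> rfl
  · cases p with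
    | zero => rfl
    | succ p => exact (map_sum (HT.Nul (HT.strat Z D I) m).mkQ _ _).symm

theorem Dt_lin (Z : Set (Amb N)) (D : ι → Set (Amb N)) (a : ℂ) (x y : HT.Tot Z D) :
    HT.Dt Z D (a • x + y) = a • HT.Dt Z D x + HT.Dt Z D y := by
  funext p m I
  cases m <;> cases p <;>
    simp only [HT.Dt, Pi.add_apply, Pi.smul_apply, map_add, map_smul, smul_add, add_zero, zero_add,
      smul_zero, Finset.sum_add_distrib, Finset.smul_sum, smul_comm a] <;> abel

/-- The form `α` in column `0`. -/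
def col0 (α : SF (Amb N) n) : STot N ι :=
  Pi.single (M := fun p => (m : ℕ) → (Fin p → ι) → SF (Amb N) m) 0
    (Pi.single (M := fun m => (Fin 0 → ι) → SF (Amb N) m) n fun _ => α)

theorem col0_zero (α : SF (Amb N) n) (I : Fin 0 → ι) : col0 α 0 n I = α := by
  simp [col0]

theorem col0_ne (α : SF (Amb N) n) {p m : ℕ} (I : Fin p → ι) (h : p ≠ 0 ∨ m ≠ n) :
    col0 α p m I = 0 := by
  by_cases hp : p = 0
  · subst hp
    have hm : m ≠ n := h.resolve_left fun h => h rfl
    simp [col0, Pi.single_eq_of_ne hm]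
  · simp [col0, Pi.single_eq_of_ne hp]

theorem mem_cls (Z : Set (Amb N)) (D : ι → Set (Amb N)) (A : Set (HT.Tot Z D))
    (α : SF (Amb N) n) : cl Z α ∈ HT.cls Z D A n ↔
      clT Z D (col0 α) ∈ Submodule.span ℂ (A ∪ range (HT.Dt Z D)) := by
  have e : ((LinearMap.single ℂ (fun p => (n : ℕ) → (I : Fin p → ι) → Om (HT.strat Z D I) n) 0).comp
      <| (LinearMap.single ℂ (fun n => (I : Fin 0 → ι) → Om (HT.strat Z D I) n) n).comp <|
        LinearMap.pi fun _ => Om.res inter_subset_left n) (cl Z α) = clT Z D (col0 α) := by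
    funext p m I
    by_cases hp : p = 0
    · subst hp
      by_cases hm : m = n
      · subst hm
        simp only [LinearMap.comp_apply, LinearMap.coe_single, Pi.single_eq_same, clT, col0_zero]
        rfl
      · simp only [LinearMap.comp_apply, LinearMap.coe_single, Pi.single_eq_same, clT,
          col0_ne α I (Or.inr hm), Pi.single_eq_of_ne hm]
        rfl
    · simp only [LinearMap.comp_apply, LinearMap.coe_single, clT, col0_ne α I (Or.inl hp),
        Pi.single_eq_of_ne hp]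
      rfl
  rw [HT.cls, Submodule.mem_comap, e]

theorem cls_iff {Z : Set (Amb N)} {D : ι → Set (Amb N)} {A : Tot N ι → Prop}
    {A' : Set (HT.Tot Z D)} (h0 : 0 ∈ A') (hl : ∀ (a : ℂ), ∀ x ∈ A', ∀ y ∈ A', a • x + y ∈ A')
    (h1 : ∀ y : STot N ι, A (fun p m I => (y p m I).1) → clT Z D y ∈ A')
    (h2 : ∀ x ∈ A', ∃ y : STot N ι, A (fun p m I => (y p m I).1) ∧ clT Z D y = x)
    (α : SF (Amb N) n) : Cls Z D A α.1 ↔ cl Z α ∈ HT.cls Z D A' n := by
  rw [mem_cls]
  constructor
  · rintro ⟨x, y, z, a1, a2, a3, a4⟩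
    let y' : STot N ι := fun p m I => ⟨y p m I, (a4 p m I).1⟩
    let z' : STot N ι := fun p m I => ⟨z p m I, (a4 p m I).2.1⟩
    have e : clT Z D (col0 α) = clT Z D y' + HT.Dt Z D (clT Z D z') := by
      rw [Dt_clT]
      funext p m I
      refine ((cl_eq (col0 α p m I) (y' p m I + DtS z' p m I)).2 ?_)
      have hx : (col0 α p m I).1 = x p m I := by
        by_cases h : p ≠ 0 ∨ m ≠ n
        · rw [col0_ne α I h, a2 p m I h]
          rfl
        · obtain ⟨rfl, rfl⟩ : p = 0 ∧ m = n := by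
            simpa only [not_or, not_not] using h
          rw [col0_zero, a1]
      rw [hx, SF.val_add, DtS_val, ← sub_sub]
      exact (a4 p m I).2.2
    rw [e]
    exact add_mem (Submodule.subset_span (Or.inl (h1 y' a3)))
      (Submodule.subset_span (Or.inr ⟨_, rfl⟩))
  · intro h
    have hD0 : HT.Dt Z D 0 = 0 := by
      have := Dt_lin Z D 1 0 0
      rwa [one_smul, one_smul, add_zero, left_eq_add] at this
    have key : ∀ t ∈ Submodule.span ℂ (A' ∪ range (HT.Dt Z D)),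
        ∃ y ∈ A', ∃ z, t = y + HT.Dt Z D z := by
      intro t ht
      induction ht using Submodule.span_induction with
      | mem t ht =>
        rcases ht with ht | ⟨z, rfl⟩
        · exact ⟨t, ht, 0, by rw [hD0, add_zero]⟩
        · exact ⟨0, h0, z, (zero_add _).symm⟩
      | zero => exact ⟨0, h0, 0, by rw [hD0, add_zero]⟩
      | add s t _ _ hs ht =>
        obtain ⟨y, hy, z, rfl⟩ := hs
        obtain ⟨y', hy', z', rfl⟩ := ht
        refine ⟨(1 : ℂ) • y + y', hl 1 y hy y' hy', (1 : ℂ) • z + z', ?_⟩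
        rw [Dt_lin, one_smul, one_smul]
        abel
      | smul a t _ ht =>
        obtain ⟨y, hy, z, rfl⟩ := ht
        refine ⟨a • y + 0, hl a y hy 0 h0, a • z + 0, ?_⟩
        rw [Dt_lin, hD0, add_zero, add_zero, smul_add]
    obtain ⟨y, hy, z, e⟩ := key _ h
    obtain ⟨y, a3, rfl⟩ := h2 y hy
    let z' : STot N ι := fun p m I => rep (z p m I)
    have hz : z = clT Z D z' := funext fun p => funext fun m => funext fun I => (cl_rep _).symm
    rw [hz, Dt_clT] at e
    refine ⟨fun p m I => (col0 α p m I).1, fun p m I => (y p m I).1, fun p m I => (z' p m I).1,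
      fun I => congrArg Subtype.val (col0_zero α I),
      fun p m I h => congrArg Subtype.val (col0_ne α I h), a3,
      fun p m I => ⟨(y p m I).2, (z' p m I).2, ?_⟩⟩
    have := (cl_eq (col0 α p m I) (y p m I + DtS z' p m I)).1
      (congrFun (congrFun (congrFun e p) m) I)
    rwa [SF.val_add, DtS_val, ← sub_sub] at this

theorem col_iff (Z : Set (Amb N)) (D : ι → Set (Amb N)) (c : ℕ) (α : SF (Amb N) n) :
    Col Z D c α.1 ↔ cl Z α ∈ HT.col Z D c n := by
  refine cls_iff (A' := {y | ∀ p < c, y p = 0}) (fun _ _ => rfl) (fun a x hx y hy p hp => ?_)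
    (fun y hy p hp => ?_) (fun x hx => ?_) α
  · rw [Pi.add_apply, Pi.smul_apply, hx p hp, hy p hp, smul_zero, add_zero]
  · funext m I
    have : y p m I = 0 := Subtype.ext (congrFun (congrFun (hy p hp) m) I)
    exact congrArg (cl _) this
  · refine ⟨fun p m I => if p < c then 0 else rep (x p m I), fun p hp => ?_, ?_⟩
    · funext m I
      simp only [if_pos hp]
      rfl
    · funext p m I
      by_cases hp : p < c
      · simp only [clT, if_pos hp, hx p hp]
        rfl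
      · simp only [clT, if_neg hp, cl_rep]

theorem typeGe_lin {S : Set (Amb N)} {b : ℕ} (a : ℂ) {α β : Form N n} (hα : TypeGe S b α)
    (hβ : TypeGe S b β) : TypeGe S b (a • α + β) := by
  intro e O g hO hg hS z hz v
  obtain ⟨s, hs⟩ := hα e O g hO hg hS z hz v
  obtain ⟨t, ht⟩ := hβ e O g hO hg hS z hz v
  refine ⟨fun k => a * s k + t k, fun c => ?_⟩
  have : pb g (a • α + β) z (fun i => c • v i) =
      a * pb g α z (fun i => c • v i) + pb g β z (fun i => c • v i) := rfl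
  rw [this, hs, ht, Finset.mul_sum, ← Finset.sum_add_distrib]
  exact Finset.sum_congr rfl fun k _ => by ring

theorem mem_typeGe {S : Set (Amb N)} {b : ℕ} {x : Om S n} :
    x ∈ HT.TypeGe S b n ↔ ∃ α : SF (Amb N) n, TypeGe S b α.1 ∧ cl S α = x := Iff.rfl

theorem fil_iff (Z : Set (Amb N)) (D : ι → Set (Amb N)) (b : ℕ) (α : SF (Amb N) n) :
    Fil Z D b α.1 ↔ cl Z α ∈ HT.Fil Z D b n := by
  refine cls_iff (A' := {y | ∀ p m I, y p m I ∈ HT.TypeGe (HT.strat Z D I) b m})
    (fun p m I => ?_) (fun a x hx y hy p m I => ?_) (fun y hy p m I => ?_) (fun x hx => ?_) α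
  · exact mem_typeGe.2 ⟨0, fun e O g _ _ _ z _ v => ⟨0, fun c => by simp [pb]⟩, rfl⟩
  · obtain ⟨s, hs, es⟩ := mem_typeGe.1 (hx p m I)
    obtain ⟨t, ht, et⟩ := mem_typeGe.1 (hy p m I)
    refine mem_typeGe.2 ⟨a • s + t, typeGe_lin a hs ht, ?_⟩
    change a • cl _ s + cl _ t = a • x p m I + y p m I
    rw [es, et]
  · exact mem_typeGe.2 ⟨y p m I, hy p m I, rfl⟩
  · choose y hy ey using fun p m I => mem_typeGe.1 (hx p m I)
    exact ⟨y, hy, funext fun p => funext fun m => funext fun I => ey p m I⟩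

theorem conj_conj {S : Set (Amb N)} (x : Om S n) : Om.conj S n (Om.conj S n x) = x := by
  obtain ⟨α, rfl⟩ := Submodule.Quotient.mk_surjective _ x
  refine congrArg (cl S) (Subtype.ext ?_ : SF.conj n (SF.conj n α) = α)
  funext x
  ext v
  exact Complex.conj_conj _

theorem fil_bar_iff (Z : Set (Amb N)) (D : ι → Set (Amb N)) (b : ℕ) (α : SF (Amb N) n) :
    Fil Z D b (bar α.1) ↔ cl Z α ∈ Om.conj Z n '' (HT.Fil Z D b n) := by
  refine (fil_iff Z D b (SF.conj n α)).trans ⟨fun h => ⟨_, h, conj_conj (cl Z α)⟩, ?_⟩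
  rintro ⟨x, hx, e⟩
  have : cl Z (SF.conj n α) = x := by
    rw [← conj_conj x, e]
    rfl
  rw [this]
  exact hx

theorem chart_iff {d : ℕ} {Z : Set (Amb N)} {O : Set (Fin d → ℂ)}
    {f : (Fin d → ℂ) → Fin N → ℂ} : IsChart Z O f ↔ HT.IsChart Z O f :=
  ⟨fun h => ⟨h.1, h.2, h.3, h.4, h.5, h.6⟩, fun h => ⟨h.1, h.2, h.3, h.4, h.5, h.6⟩⟩

theorem IsSNC.ht {d : ℕ} {Z : Set (Amb N)} {D : ι → Set (Amb N)} (h : IsSNC d Z D) :
    HT.IsSNC d Z D := by
  refine ⟨h.compact, h.sub, fun x hx => ?_⟩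
  obtain ⟨O, f, κ, h1, h2⟩ := h.chart x hx
  exact ⟨O, f, κ, chart_iff.1 h1, h2⟩

theorem IsInt.ht {d : ℕ} {Z U : Set (Amb N)} {φ : Form N (2 * d) → ℂ} (h : IsInt d Z U φ)
    (hφ : IsFun Z U φ) : HT.IsInt d Z U (toDual φ hφ) := by
  intro O f hf α h1 h2
  rw [toDual_cl hφ α h1, h.int O f (chart_iff.2 hf) α.1 ((ac_iff α).1 h1) ((ac_iff α).1 h2)]
  have e : (fun (i : Fin (2 * d)) (k : Fin d) =>
      if (k : ℕ) = i / 2 then Complex.I ^ ((i : ℕ) % 2) else 0) = fun i : Fin (2 * d) =>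
      (Pi.single ⟨i / 2, by omega⟩ (Complex.I ^ ((i : ℕ) % 2)) : Fin d → ℂ) := by
    funext i k
    rw [Pi.single_apply]
    simp only [Fin.ext_iff]
  rw [e]
  rfl

end Pool.Agent.PQ
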