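import Pool.Agent.P.MP_65ad7c_ag.HAlgB

/-! The mixed Hodge structure of a double complex whose columns satisfy the `d d^c` lemma. -/

open Complex (I)

noncomputable section
namespace Pool.Agent.HT

namespace KD
variable {T : Type} [AddCommGroup T] [Module ℂ T] {K : KD T} {p n c N a : ℕ} {x y : T} {lam : ℂ}

variable (K) in
/-- elements of constant holomorphic degree -/
def Pure (μ : ℂ) : Submodule ℂ T := ⨅ p, ⨅ n : ℕ, (K.g.eigenspace (μ - I * n)).comap (K.e p n)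

theorem mem_Pure {μ : ℂ} : x ∈ K.Pure μ ↔
    ∀ p n : ℕ, K.g (K.e p n x) = (μ - I * n) • K.e p n x := by
  simp [Pure]

theorem Pure_of_H {μ : ℂ} (h : x ∈ K.H p n) (hg : K.g x = (μ - I * n) • x) : x ∈ K.Pure μ :=
  mem_Pure.2 fun p' n' => by
    by_cases e : p' = p ∧ n' = n
    · rw [e.1, e.2, K.mem_H.1 h]
      exact hg
    · rw [BG.e_of_H h e, map_zero, smul_zero]

theorem F_of_Pure (h : x ∈ K.Pure (I * (2 * (a : ℂ)))) : x ∈ K.F a := mem_F'.2 fun p n =>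
  Sp.mem (lam := I * (2 * (a : ℂ)) - I * n) (by simp [mem_GE]) trivial (mem_Pure.1 h p n)

/-- a pure `d d^c`-exact cocycle is a total coboundary -/
theorem ext_pure {μ : ℂ} (n : ℕ) : ∀ (p : ℕ) (y : T), y ∈ K.H p n → K.g y = (μ - I * n) • y →
    K.δ y = 0 → y ∈ LinearMap.range K.dc → ∃ w ∈ K.Col p ⊓ K.Pure μ, K.D w = y := by
  induction n using Nat.strong_induction_on with
  | _ n ih =>
    intro p y hy hg hδ hr
    obtain ⟨m, b, hb, hgb, e, hm | rfl⟩ := L2 hy hg hr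
    swap
    · exact ⟨0, Submodule.zero_mem _, by rw [e, map_zero, map_zero]⟩
    subst hm
    have h1 : K.P b ∈ K.H p (m + 1) := P_mem_H hb
    have h2 : K.g (K.P b) = (μ - I * (m + 1 : ℕ)) • K.P b := by
      rw [eig_map K.g_P hgb]
      congr 1
      push_cast
      ring
    have h3 : K.d (K.P b) = y := by rw [d_P, e]
    have h4 : K.g (K.δ (K.P b)) = (μ - I * (m + 1 : ℕ)) • K.δ (K.P b) := by
      rw [K.gδ, h2, map_smul]
    have h5 : K.d (K.δ (K.P b)) = 0 := by rw [K.dδ, h3, hδ, neg_zero]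
    obtain ⟨w, hw, hw'⟩ := ih (m + 1) (by omega) (p + 1) (K.δ (K.P b)) (BG.δ_mem_H h1) h4
      (K.δδ _) (dc_of_P (u := -K.δ b) (mem_B_of_eig h4 h5) (by rw [map_neg, P_δ, neg_neg]))
    refine ⟨K.P b - w, Submodule.sub_mem _ ⟨BG.col_of_H h1 le_rfl, Pure_of_H h1 h2⟩
      ⟨BG.col_mono (by omega) hw.1, hw.2⟩, ?_⟩
    rw [map_sub, hw', BG.D_apply, h3, add_sub_cancel_right]

variable (K) in
/-- harmonic elements whose coboundary is exact -/
def X (p n : ℕ) : Submodule ℂ T := K.B ⊓ K.H p n ⊓ (LinearMap.range K.dc).comap K.δ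

theorem inv_X : GInv K.g (K.X p n) := (inv_B.inf inv_H).inf (GInv.comap K.gδ inv_dc)

variable (K) in
/-- cocycles -/
def Z (N c : ℕ) : Submodule ℂ T := K.Deg N ⊓ K.Col c ⊓ LinearMap.ker K.D

/-- harmonic elements of pure type extend to cocycles -/
theorem ext_one (hx : x ∈ K.X p n) (hg : K.g x = (I * (2 * (a : ℂ) - n)) • x) :
    x ∈ K.Z (p + n) p ⊓ K.F a ⊔ K.Col (p + 1) := by
  have hg' : K.g x = (I * (2 * (a : ℂ)) - I * n) • x := by rw [hg, mul_sub]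
  obtain ⟨w, hw, hw'⟩ := ext_pure (μ := I * (2 * (a : ℂ))) n (p + 1) (K.δ x) (BG.δ_mem_H hx.1.2)
    (by rw [K.gδ, hg', map_smul]) (K.δδ _) hx.2
  have h1 : K.tr (p + n) w ∈ K.Col (p + 1) := BG.tr_mem_col hw.1 _
  refine Submodule.mem_sup.2 ⟨x - K.tr (p + n) w, ⟨⟨⟨?_, ?_⟩, ?_⟩, ?_⟩, _, h1, sub_add_cancel _ _⟩
  · exact Submodule.sub_mem _ (BG.deg_of_H hx.1.2 rfl) (K.tr_mem _ _)
  · exact Submodule.sub_mem _ (BG.col_of_H hx.1.2 le_rfl) (BG.col_mono (by omega) h1)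
  · change K.D _ = 0
    rw [map_sub, ← BG.tr_D, hw', K.tr_of_mem (BG.deg_of_H (BG.δ_mem_H hx.1.2) (by omega)),
      BG.D_apply, hx.1.1.1, zero_add, sub_self]
  · exact Submodule.sub_mem _ (F_of_Pure (Pure_of_H hx.1.2 hg')) (tr_mem_F (F_of_Pure hw.2) _)

theorem key (hy : y ∈ K.Deg N) (hc : y ∈ K.Col c) (hD : K.D y ∈ K.Col (c + 2)) (hN : c + n = N) :
    ∃ h ∈ Sp K.g (sv n) (K.X c n), ∃ β, y - h - K.D β ∈ K.Col (c + 1) := by
  have h1 : K.d (K.e c n y) = 0 := by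
    rw [BG.d_e_low hc, K.mem_Col.1 hD c (by omega)]
  obtain ⟨h, hh, β, hβ, e⟩ := HA (K.e_mem c n y) h1
  have h2 : K.e (c + 1) n (K.D y) = 0 := K.mem_Col.1 hD _ (by omega) _
  obtain ⟨v, -, hv⟩ := K.e_d_ex (c + 1) n y
  rw [BG.D_apply, map_add, K.eδ, hv, e, map_add, BG.δd] at h2
  have h3 : K.δ h = K.d (K.δ β - v) := by
    rw [map_sub]
    linear_combination (norm := module) h2
  refine ⟨h, Sp.dec inv_X ⟨hh, dc_of_d (δ_mem_B hh.1).2 h3⟩ (sp_of_H hh.2), β, ?_⟩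
  have h4 : y - h - K.D β = (y - K.e c n y) - K.δ β := by
    rw [BG.D_apply, e]
    abel
  rw [h4]
  exact Submodule.sub_mem _ (BG.sub_e_mem hy hc hN) (BG.δ_mem_col hβ)

variable (K) in
theorem span_odd {N c b : ℕ} (hN : N + 1 = c + 2 * b) {y : T} (hy : y ∈ K.Deg N ⊓ K.Col c)
    (hD : K.D y = 0) :
    ∃ f ∈ K.Deg N ⊓ K.Col c ⊓ K.F b, ∃ f' ∈ K.Deg N ⊓ K.Col c ⊓ K.Fb b, ∃ z,
      K.D f = 0 ∧ K.D f' = 0 ∧ y - f - f' - K.D z ∈ K.Col (c + 1) := by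
  by_cases hc : N < c
  · refine ⟨0, Submodule.zero_mem _, 0, Submodule.zero_mem _, 0, map_zero _, map_zero _, ?_⟩
    rw [BG.eq_zero_of_lt hy.1 hy.2 hc]
    simp
  obtain ⟨n, rfl⟩ : ∃ n, N = c + n := ⟨N - c, by omega⟩
  obtain ⟨h, hh, β, hβ⟩ := key hy.1 hy.2 (by rw [hD]; exact Submodule.zero_mem _) rfl
  have h1 : h ∈ (K.Z (c + n) c ⊓ K.F b ⊔ K.Z (c + n) c ⊓ K.Fb b) ⊔ K.Col (c + 1) := by
    refine (Sp.le fun lam hl x hx hg => ?_) hh
    obtain ⟨b', hb', rfl⟩ := hl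
    by_cases hbb : b ≤ b'
    · obtain ⟨f, hf, w, hw, rfl⟩ := Submodule.mem_sup.1 (ext_one hx hg)
      exact Submodule.add_mem _
        (Submodule.mem_sup_left (Submodule.mem_sup_left ⟨hf.1, F_mono hbb hf.2⟩))
        (Submodule.mem_sup_right hw)
    · have hx' : x ∈ K.neg.X c n := ⟨⟨neg_B.2 hx.1.1, hx.1.2⟩, neg_dc.2 hx.2⟩
      have hg' : K.neg.g x = (I * (2 * ((n - b' : ℕ) : ℂ) - n)) • x := by
        change -K.g x = _
        rw [hg, ← neg_smul, Nat.cast_sub hb']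
        congr 1
        ring
      obtain ⟨f, hf, w, hw, rfl⟩ := Submodule.mem_sup.1 (ext_one hx' hg')
      exact Submodule.add_mem _ (Submodule.mem_sup_left (Submodule.mem_sup_right
        ⟨hf.1, F_mono (K := K.neg) (by omega) hf.2⟩)) (Submodule.mem_sup_right hw)
  obtain ⟨f₀, hf₀, w, hw, rfl⟩ := Submodule.mem_sup.1 h1
  obtain ⟨f, hf, f', hf', rfl⟩ := Submodule.mem_sup.1 hf₀
  refine ⟨f, ⟨hf.1.1, hf.2⟩, f', ⟨hf'.1.1, hf'.2⟩, β, hf.1.2, hf'.1.2, ?_⟩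
  have h2 : y - f - f' - K.D β = (y - (f + f' + w) - K.D β) + w := by abel
  rw [h2]
  exact Submodule.add_mem _ hβ hw

/-- raising the lowest column of a primitive -/
theorem raise (hy : y ∈ K.Deg N) (hc : y ∈ K.Col c) (hD : K.D y ∈ K.Col (c + 2)) :
    ∃ z ∈ K.Deg N ⊓ K.Col (c + 1), K.D z = K.D y := by
  by_cases hN : N < c
  · exact ⟨0, Submodule.zero_mem _, by rw [BG.eq_zero_of_lt hy hc hN]⟩
  obtain ⟨n, rfl⟩ : ∃ n, N = c + n := ⟨N - c, by omega⟩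
  obtain ⟨h, hh, β, hβ⟩ := key hy hc hD rfl
  have h1 : h ∈ LinearMap.ker K.D ⊔ K.Col (c + 1) := by
    refine (Sp.le fun lam hl x hx hg => ?_) hh
    obtain ⟨b', -, rfl⟩ := hl
    obtain ⟨f, hf, w, hw, rfl⟩ := Submodule.mem_sup.1 (ext_one hx hg)
    exact Submodule.add_mem _ (Submodule.mem_sup_left hf.1.2) (Submodule.mem_sup_right hw)
  obtain ⟨f, hf, w, hw, rfl⟩ := Submodule.mem_sup.1 h1
  refine ⟨K.tr (c + n) (y - (f + w) - K.D β + w),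
    ⟨K.tr_mem _ _, BG.tr_mem_col (Submodule.add_mem _ hβ hw) _⟩, ?_⟩
  have h2 : K.D (y - (f + w) - K.D β + w) = K.D y := by
    simp only [map_add, map_sub, BG.DD, LinearMap.mem_ker.1 hf]
    abel
  rw [← BG.tr_D, h2, K.tr_of_mem (BG.D_mem_deg hy)]

theorem raise_all (c : ℕ) (hy : y ∈ K.Deg N) (hD : K.D y ∈ K.Col (c + 1)) :
    ∃ z ∈ K.Deg N ⊓ K.Col c, K.D z = K.D y := by
  induction c with
  | zero => exact ⟨y, ⟨hy, BG.col_zero y⟩, rfl⟩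
  | succ c ih =>
    obtain ⟨z, hz, e⟩ := ih (BG.col_mono (by omega) hD)
    obtain ⟨z', hz', e'⟩ := raise hz.1 hz.2 (by rw [e]; exact hD)
    exact ⟨z', hz', e'.trans e⟩

variable (K) in
/-- harmonic elements in the previous column -/
def U (c n : ℕ) : Submodule ℂ T := K.B ⊓ K.H (c - 1) n ⊓ (K.H c n).comap K.δ

theorem inv_U : GInv K.g (K.U c n) := (inv_B.inf inv_H).inf (GInv.comap K.gδ inv_H)

/-- degeneration at the second page -/
theorem degen {z : T} (hD : K.D z ∈ K.Col c) (n : ℕ) :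
    ∃ u ∈ K.U c n, ∃ v, K.e c n (K.D z) = K.δ u + K.d v := by
  cases c with
  | zero =>
    obtain ⟨v, -, hv⟩ := K.e_d_ex 0 n z
    exact ⟨0, Submodule.zero_mem _, v, by
      rw [BG.D_apply, map_add, K.eδ0, hv, map_zero, add_zero, zero_add]⟩
  | succ c =>
    have h1 : K.D (K.tr (c + n) z) ∈ K.Col (c + 1) := by
      rw [← BG.tr_D]
      exact BG.tr_mem_col hD _
    obtain ⟨w, hw, e⟩ := raise_all c (K.tr_mem (c + n) z) h1
    have h2 : K.e (c + 1) n (K.D z) = K.e (c + 1) n (K.D w) := by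
      rw [e, ← BG.tr_D, BG.e_tr, if_pos (by omega)]
    have h3 : K.d (K.e c n w) = 0 := by
      rw [BG.d_e_low hw.2, e, K.mem_Col.1 h1 c (by omega)]
    obtain ⟨h, hh, β, -, e'⟩ := HA (K.e_mem c n w) h3
    obtain ⟨v, -, hv⟩ := K.e_d_ex (c + 1) n w
    refine ⟨h, ⟨hh, BG.δ_mem_H hh.2⟩, v - K.δ β, ?_⟩
    rw [h2, BG.D_apply, map_add, K.eδ, hv, e', map_add, BG.δd, map_sub]
    abel

theorem L5 (hy : y ∈ K.H p n) (hr : y ∈ LinearMap.range K.dc)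
    (hg : y ∈ Sp K.g (GE (2 * (a : ℝ) - n)) ⊤) : y ∈ (K.F a ⊓ K.Col p).map K.d := by
  refine (Sp.le fun lam hl x hx hgx => ?_) (Sp.dec (inv_H.inf inv_dc) ⟨hy, hr⟩ hg)
  obtain ⟨m, b, hb, hgb, e, hm | rfl⟩ := L2 hx.1 hgx hx.2
  · subst hm
    refine ⟨K.P b, ⟨F_of_H (P_mem_H hb) (Sp.ge (P_mem_sp (Sp.mem hl trivial hgb)) ?_),
      BG.col_of_H (P_mem_H hb) le_rfl⟩, by rw [d_P, e]⟩
    push_cast
    linarith
  · rw [e, map_zero]
    exact Submodule.zero_mem _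

theorem peel (hx : x ∈ K.H p n) (hg : x ∈ Sp K.g (GE (2 * (a : ℝ) - n)) ⊤) :
    ∃ x₀ ∈ K.H p n, K.g x₀ = (I * (2 * (a : ℂ) - n)) • x₀ ∧
      x - x₀ ∈ Sp K.g (GE (2 * ((a + 1 : ℕ) : ℝ) - n)) ⊤ := by
  have h1 : x ∈ (K.H p n ⊓ K.g.eigenspace (I * (2 * (a : ℂ) - n))) ⊔
      Sp K.g (GE (2 * ((a + 1 : ℕ) : ℝ) - n)) ⊤ := by
    refine (Sp.le fun lam hl y hy hgy => ?_) (Sp.dec (inv_H.inf GInv.sp) ⟨hx, hg⟩ (sp_of_H hx))
    obtain ⟨b, -, rfl⟩ := hl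
    rcases lt_trichotomy b a with h | rfl | h
    · rw [Sp.eq_zero (g := K.g) (disjoint_compl_right (a := GE (2 * (a : ℝ) - n))) hy.2
        (Sp.mem (fun h' => ?_) trivial hgy)]
      · exact Submodule.zero_mem _
      · rw [mem_GE, im_sv] at h'
        have : (b : ℝ) < a := by exact_mod_cast h
        linarith
    · exact Submodule.mem_sup_left ⟨hy.1, Module.End.mem_eigenspace_iff.2 hgy⟩
    · refine Submodule.mem_sup_right (Sp.mem ?_ trivial hgy)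
      rw [mem_GE, im_sv]
      have : ((a + 1 : ℕ) : ℝ) ≤ b := by exact_mod_cast h
      linarith
  obtain ⟨x₀, h₀, x', h', rfl⟩ := Submodule.mem_sup.1 h1
  exact ⟨x₀, h₀.1, Module.End.mem_eigenspace_iff.1 h₀.2, by rwa [add_sub_cancel_left]⟩

/-- closed elements of `F a` are harmonic up to exact ones, inside `F a` -/
theorem L4 (k : ℕ) : ∀ (a : ℕ) (x : T), n < a + k → x ∈ K.H p n →
    x ∈ Sp K.g (GE (2 * (a : ℝ) - n)) ⊤ → K.d x = 0 →
    x ∈ (K.B ⊓ K.H p n ⊓ Sp K.g (GE (2 * (a : ℝ) - n)) ⊤) ⊔ (K.F a ⊓ K.Col p).map K.d := by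
  induction k with
  | zero =>
    intro a x hk hx hg _
    have hsub : sv n ⊆ (GE (2 * (a : ℝ) - n))ᶜ := by
      rintro _ ⟨b, hb, rfl⟩ h'
      rw [mem_GE, im_sv] at h'
      have : (b : ℝ) < a := by exact_mod_cast (by omega : b < a)
      linarith
    rw [Sp.eq_zero (g := K.g) (disjoint_compl_right (a := GE (2 * (a : ℝ) - n))) hg
      (Sp.mono hsub le_rfl (sp_of_H hx))]
    exact Submodule.zero_mem _
  | succ k ih =>
    intro a x hk hx hg hd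
    obtain ⟨x₀, h₀, hg₀, h'⟩ := peel hx hg
    have h2I : (2 * I : ℂ) ≠ 0 := mul_ne_zero two_ne_zero Complex.I_ne_zero
    have hs₀ : x₀ ∈ Sp K.g (GE (2 * (a : ℝ) - n)) ⊤ := Sp.mem (mem_GE.2 (im_sv a n).ge) trivial hg₀
    have hQ : K.Q x₀ = 0 := by
      refine Sp.eq_zero (g := K.g) (disjoint_compl_right (a := GE (2 * (a : ℝ) - n))) ?_
        (Sp.mem (fun h'' => ?_) trivial (eig_map K.g_Q hg₀))
      · have e : K.Q x₀ = K.P x - K.Q (x - x₀) := by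
          have := K.P_sub_Q x
          rw [hd, smul_zero, sub_eq_zero] at this
          rw [map_sub, this, sub_sub_cancel]
        rw [e]
        refine Submodule.sub_mem _ (Sp.ge (P_mem_sp hg) ?_) (Sp.ge (Q_mem_sp h') ?_) <;>
          push_cast <;> linarith
      · rw [mem_GE, Complex.add_im, im_sv] at h''
        simp only [Complex.neg_im, Complex.I_im] at h''
        linarith
    have hP : K.P x₀ = (2 * I) • K.d x₀ := by rw [← P_sub_Q, hQ, sub_zero]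
    have hgP := eig_map K.g_P hg₀
    obtain ⟨m, b, hb, hgb, e, hm⟩ := L2 (P_mem_H h₀) hgP
      (dc_of_P (mem_B_of_eig hgP (by rw [hP, map_smul, K.dd, smul_zero])) rfl)
    have hsb : b ∈ Sp K.g (GE (2 * (a : ℝ) - n + 1)) ⊤ :=
      Sp.mem (by rw [mem_GE, Complex.add_im, im_sv, Complex.I_im]) trivial hgb
    have hb' : K.Q b ∈ K.H p n ∧ K.P b ∈ K.H p n ∧ b ∈ K.F a ⊓ K.Col p := by
      rcases hm with hm | rfl
      · obtain rfl : n = m + 1 := by omega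
        refine ⟨Q_mem_H hb, P_mem_H hb, F_of_H hb (Sp.ge hsb ?_), BG.col_of_H hb le_rfl⟩
        push_cast
        linarith
      · simp
    have hB : x₀ - (2 * I)⁻¹ • K.Q b ∈ K.B := K.mem_B_of
      (by rw [map_sub, map_smul, P_Q, smul_smul, inv_mul_cancel₀ h2I, one_smul, e, sub_self])
      (by rw [map_sub, map_smul, Q_Q, hQ, smul_zero, sub_zero])
    have hdec : x = (x₀ - (2 * I)⁻¹ • K.Q b) + K.d (-b) + (x - x₀ + (2 * I)⁻¹ • K.P b) := by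
      have : K.d b = (2 * I)⁻¹ • (K.P b - K.Q b) := by
        rw [P_sub_Q, smul_smul, inv_mul_cancel₀ h2I, one_smul]
      rw [map_neg, this, smul_sub]
      abel
    have hrest := ih (a + 1) (x - x₀ + (2 * I)⁻¹ • K.P b) (by omega)
      (Submodule.add_mem _ (Submodule.sub_mem _ hx h₀) (Submodule.smul_mem _ _ hb'.2.1))
      (Submodule.add_mem _ h' (Submodule.smul_mem _ _ (Sp.ge (P_mem_sp hsb)
        (by push_cast; linarith))))
      (by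
        have := congrArg K.d hdec
        rw [hd, map_add, map_add, hB.1, K.dd, zero_add, zero_add] at this
        exact this.symm)
    rw [hdec]
    refine Submodule.add_mem _ (Submodule.add_mem _ (Submodule.mem_sup_left ⟨⟨hB, ?_⟩, ?_⟩)
      (Submodule.mem_sup_right ⟨-b, Submodule.neg_mem _ hb'.2.2, rfl⟩)) ?_
    · exact Submodule.sub_mem _ h₀ (Submodule.smul_mem _ _ hb'.1)
    · exact Submodule.sub_mem _ hs₀ (Submodule.smul_mem _ _ (Sp.ge (Q_mem_sp hsb) (by linarith)))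
    · obtain ⟨h, hh, _, ⟨w, hw, rfl⟩, e'⟩ := Submodule.mem_sup.1 hrest
      rw [← e']
      exact Submodule.add_mem _ (Submodule.mem_sup_left ⟨hh.1, Sp.ge hh.2 (by push_cast; linarith)⟩)
        (Submodule.mem_sup_right ⟨w, ⟨F_mono (by omega) hw.1, hw.2⟩, rfl⟩)

theorem low (hx : x ∈ K.Z N c ⊓ K.F a) (n : ℕ) :
    ∃ h ∈ K.B ⊓ K.H c n ⊓ Sp K.g (GE (2 * (a : ℝ) - n)) ⊤, ∃ β ∈ K.F a ⊓ K.Col c,
      K.e c n x = h + K.d β := by
  obtain ⟨h, hh, _, ⟨β, hβ, rfl⟩, e⟩ := Submodule.mem_sup.1 (L4 (n + 1) a _ (by omega)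
    (K.e_mem c n x) (mem_F'.1 hx.2 c n)
    (by rw [BG.d_e_low hx.1.1.2, LinearMap.mem_ker.1 hx.1.2, map_zero]))
  exact ⟨h, hh, β, hβ, e.symm⟩

theorem step (hx : x ∈ K.Z N c ⊓ K.F a) (hN : c + n = N) {h' u v : T} (hB : h' ∈ K.B)
    (hs : h' ∈ Sp K.g (GE (2 * (a : ℝ) - n))ᶜ ⊤) (hu : u ∈ K.U c n)
    (e : K.e c n x = h' + (K.δ u + K.d v)) : ∃ z ∈ K.F a, x - K.D z ∈ K.Col (c + 1) := by
  obtain ⟨h, hh, β, hβ, e'⟩ := low hx n
  obtain ⟨u₁, hu₁, u₂, hu₂, rfl⟩ :=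
    Sp.split (GE (2 * (a : ℝ) - n)) (Sp.dec inv_U hu (sp_of_H hu.1.2))
  have hu₁' := Sp.le_self hu₁
  have hu₂' := Sp.le_self hu₂
  have hs₁ : u₁ ∈ Sp K.g (GE (2 * (a : ℝ) - n)) ⊤ := Sp.mono Set.inter_subset_right le_top hu₁
  have hs₂ : u₂ ∈ Sp K.g (GE (2 * (a : ℝ) - n))ᶜ ⊤ := Sp.mono Set.inter_subset_right le_top hu₂
  have h1 : h - K.δ u₁ ∈ Sp K.g (GE (2 * (a : ℝ) - n)) ⊤ :=
    Submodule.sub_mem _ hh.2 (δ_mem_sp hs₁)
  have h2 : (h - K.δ u₁) + -(h' + K.δ u₂) = K.d (v - β) := by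
    rw [e', map_add] at e
    rw [map_sub]
    linear_combination (norm := module) e
  have h3 : (h - K.δ u₁) + -(h' + K.δ u₂) ∈ K.B :=
    Submodule.add_mem _ (Submodule.sub_mem _ hh.1.1 (δ_mem_B hu₁'.1.1))
      (Submodule.neg_mem _ (Submodule.add_mem _ hB (δ_mem_B hu₂'.1.1)))
  have h4 : h - K.δ u₁ ∈ LinearMap.range K.dc := Sp.part inv_dc h1
    (Submodule.neg_mem _ (Submodule.add_mem _ hs (δ_mem_sp hs₂))) (dc_of_d h3.2 h2)
  obtain ⟨w, hw, hw'⟩ := L5 (Submodule.sub_mem _ hh.1.2 hu₁'.2) h4 h1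
  refine ⟨u₁ + (w + β), Submodule.add_mem _ (F_of_H hu₁'.1.2 hs₁)
    (Submodule.add_mem _ hw.1 hβ.1), ?_⟩
  have h5 : x - K.D (u₁ + (w + β)) = (x - K.e c n x) - K.δ (w + β) := by
    have h0 : K.d u₁ = 0 := hu₁'.1.1.1
    simp only [BG.D_apply, map_add, h0, hw', e']
    abel
  rw [h5]
  exact Submodule.sub_mem _ (BG.sub_e_mem hx.1.1.1 hx.1.1.2 hN)
    (BG.δ_mem_col (Submodule.add_mem _ hw.2 hβ.2))

theorem trunc (hx : x ∈ K.Deg N) (hD : K.D x = 0) {z : T} (h1 : x - K.D z ∈ K.Col c)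
    (h2 : x - K.D z ∈ K.F a) : ∃ z', x - K.D z' ∈ K.Z N c ⊓ K.F a := by
  obtain ⟨z', hz'⟩ := K.tr_D_ex N z
  have e : x - K.D z' = K.tr N (x - K.D z) := by rw [map_sub, K.tr_of_mem hx, hz']
  refine ⟨z', ⟨⟨?_, ?_⟩, ?_⟩, ?_⟩
  · rw [e]
    exact K.tr_mem _ _
  · rw [e]
    exact BG.tr_mem_col h1 _
  · change K.D _ = 0
    rw [map_sub, hD, BG.DD, sub_zero]
  · rw [e]
    exact tr_mem_F h2 _

/-- strictness -/
theorem strict (c : ℕ) (hx : x ∈ K.Deg N) (hD : K.D x = 0) (h1 : ∃ z, x - K.D z ∈ K.Col c)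
    (h2 : ∃ z, x - K.D z ∈ K.F a) : ∃ z, x - K.D z ∈ K.Z N c ⊓ K.F a := by
  induction c with
  | zero =>
    obtain ⟨z, hz⟩ := h2
    exact trunc hx hD (BG.col_zero _) hz
  | succ c ih =>
    obtain ⟨z₁, hz₁⟩ := h1
    obtain ⟨z, hz⟩ := ih ⟨z₁, BG.col_mono (by omega) hz₁⟩
    by_cases hN : N < c
    · have e := BG.eq_zero_of_lt hz.1.1.1 hz.1.1.2 hN
      exact ⟨z, by rw [e]; exact Submodule.zero_mem _⟩
    obtain ⟨n, hn⟩ : ∃ n, c + n = N := ⟨N - c, by omega⟩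
    have e : K.D (z₁ - z) = (x - K.D z) - (x - K.D z₁) := by
      rw [map_sub]
      abel
    obtain ⟨u, hu, v, huv⟩ := degen (z := z₁ - z) (c := c) (by
      rw [e]
      exact Submodule.sub_mem _ hz.1.1.2 (BG.col_mono (by omega) hz₁)) n
    rw [e, map_sub, K.mem_Col.1 hz₁ c (by omega), sub_zero] at huv
    obtain ⟨z', hz', h⟩ := step hz hn (Submodule.zero_mem _) (Submodule.zero_mem _) hu
      (by rw [huv, zero_add])
    have e' : x - K.D (z + z') = x - K.D z - K.D z' := by rw [map_add, sub_sub]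
    exact trunc (z := z + z') hx hD (by rw [e']; exact h)
      (by rw [e']; exact Submodule.sub_mem _ hz.2 (D_mem_F hz'))

variable (K) in
theorem disj_odd {N c b : ℕ} (hN : N + 1 = c + 2 * b) {x x' : T} (hx : x ∈ K.Deg N)
    (hx' : x' ∈ K.Deg N) (hD : K.D x = 0) (hD' : K.D x' = 0)
    (h1 : ∃ z, x - K.D z ∈ K.Col c) (h2 : ∃ z, x - K.D z ∈ K.F b)
    (h1' : ∃ z, x' - K.D z ∈ K.Col c) (h2' : ∃ z, x' - K.D z ∈ K.Fb b)
    (h3 : ∃ z, x - x' - K.D z ∈ K.Col (c + 1)) : ∃ z, x - K.D z ∈ K.Col (c + 1) := by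
  obtain ⟨z, hz⟩ := strict c hx hD h1 h2
  obtain ⟨z', hz'⟩ := strict (K := K.neg) c hx' hD' h1' h2'
  obtain ⟨z₃, hz₃⟩ := h3
  by_cases hc : N < c
  · have e := BG.eq_zero_of_lt hz.1.1.1 hz.1.1.2 hc
    exact ⟨z, by rw [e]; exact Submodule.zero_mem _⟩
  obtain ⟨n, hn⟩ : ∃ n, c + n = N := ⟨N - c, by omega⟩
  obtain ⟨h', hh', β', -, e'⟩ := low (K := K.neg) hz' n
  have e'' : K.e c n (x' - K.D z') = h' + K.d β' := e'
  have hcol : x' - K.D z' ∈ K.Col c := hz'.1.1.2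
  have e : K.D (z₃ - z + z') = (x - K.D z) - (x' - K.D z') - (x - x' - K.D z₃) := by
    rw [map_add, map_sub]
    abel
  obtain ⟨u, hu, v, huv⟩ := degen (z := z₃ - z + z') (c := c) (by
    rw [e]
    exact Submodule.sub_mem _ (Submodule.sub_mem _ hz.1.1.2 hcol) (BG.col_mono (by omega) hz₃)) n
  rw [e, map_sub, K.mem_Col.1 hz₃ c (by omega), sub_zero, map_sub, e''] at huv
  have hs : h' ∈ Sp K.g (GE (2 * (b : ℝ) - n))ᶜ ⊤ := by
    refine Sp.mono ?_ le_rfl (Sp.neg (g := K.g) hh'.2)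
    intro lam hl h''
    have hl' : 2 * (b : ℝ) - n ≤ (-lam).im := hl
    have hb : (n : ℝ) + 1 = 2 * b := by exact_mod_cast (by omega : n + 1 = 2 * b)
    rw [mem_GE] at h''
    rw [Complex.neg_im] at hl'
    linarith
  obtain ⟨w, -, h⟩ := step (v := v + β') hz hn (neg_B.1 hh'.1.1) hs hu (by
    rw [map_add]
    linear_combination (norm := module) huv)
  exact ⟨z + w, by rwa [map_add, ← sub_sub]⟩

end KD

end Pool.Agent.HT
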