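import Pool.Agent.P.MP_65ad7c_ag.HBase

/-! Calculus of pull-backs and of forms vanishing on a set. -/

open Set Filter Topology
open scoped ContDiff

noncomputable section
namespace Pool.Agent.HT

variable {V V' X : Type} [NormedAddCommGroup V] [NormedSpace ℝ V] [NormedAddCommGroup V']
  [NormedSpace ℝ V'] [NormedAddCommGroup X] [NormedSpace ℝ X] {n : ℕ}

variable (V n) in
/-- alternatization as a continuous linear map -/
def altL : ContinuousMultilinearMap ℝ (fun _ : Fin n => V) ℂ →L[ℝ] V [⋀^Fin n]→L[ℝ] ℂ :=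
  LinearMap.mkContinuous
    { toFun := fun f => ContinuousMultilinearMap.alternatization f
      map_add' := map_add _
      map_smul' := fun c f => by
        ext v
        simp [ContinuousMultilinearMap.alternatization_apply_apply, Finset.smul_sum,
          smul_comm c] }
    n.factorial fun f => by
      refine ContinuousAlternatingMap.opNorm_le_bound _ (by positivity) fun v => ?_
      change ‖ContinuousMultilinearMap.alternatization f v‖ ≤ _
      rw [ContinuousMultilinearMap.alternatization_apply_apply]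
      refine (norm_sum_le_of_le _ (n := fun _ => ‖f‖ * ∏ i, ‖v i‖) fun σ _ => ?_).trans ?_
      · rcases Int.units_eq_one_or (Equiv.Perm.sign σ) with h | h <;>
          simpa [h, Equiv.prod_comp σ fun i => ‖v i‖] using f.le_opNorm (v ∘ σ)
      · simp [Fintype.card_perm, mul_assoc]

lemma altL_alt (a : V [⋀^Fin n]→L[ℝ] ℂ) :
    (n.factorial : ℝ)⁻¹ • altL V n a.toContinuousMultilinearMap = a := by
  ext v
  have : altL V n a.toContinuousMultilinearMap v = n.factorial • a v := by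
    change ContinuousMultilinearMap.alternatization _ v = _
    rw [ContinuousMultilinearMap.alternatization_apply_apply]
    have h : ∀ σ : Equiv.Perm (Fin n), Equiv.Perm.sign σ • a.toContinuousMultilinearMap (v ∘ σ) =
        a v := fun σ => (a.toAlternatingMap.map_congr_perm v σ).symm
    simp [h, Fintype.card_perm, -ContinuousAlternatingMap.coe_toContinuousMultilinearMap]
  rw [ContinuousAlternatingMap.smul_apply, this, ← Nat.cast_smul_eq_nsmul ℝ, smul_smul,
    inv_mul_cancel₀ (by positivity), one_smul]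

lemma contDiffAt_compCLM {a : X → V' [⋀^Fin n]→L[ℝ] ℂ} {L : X → V →L[ℝ] V'} {x : X}
    (ha : ContDiffAt ℝ ∞ a x) (hL : ContDiffAt ℝ ∞ L x) :
    ContDiffAt ℝ ∞ (fun x => (a x).compContinuousLinearMap (L x)) x := by
  have h1 := (ContinuousMultilinearMap.contDiff
    (F := ContinuousMultilinearMap ℝ (fun _ : Fin n => V') ℂ →L[ℝ]
      ContinuousMultilinearMap ℝ (fun _ : Fin n => V) ℂ) (n := ∞)
    (ContinuousMultilinearMap.compContinuousLinearMapContinuousMultilinear ℝ
      (fun _ : Fin n => V) (fun _ => V') ℂ)).contDiffAt.comp x (contDiffAt_pi.2 fun _ => hL)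
  have h2 := ((ContinuousAlternatingMap.toContinuousMultilinearMapCLM ℝ).contDiff.contDiffAt.comp x
    ha)
  have h3 := ((altL V n).contDiff.contDiffAt.comp x (h1.clm_apply h2)).const_smul
    (n.factorial : ℝ)⁻¹
  convert h3 using 2 with y
  exact (altL_alt _).symm

lemma pull_contDiffAt {G : V → V'} {α : Form V' n} {x : V} (hG : ContDiffAt ℝ ∞ G x)
    (hα : ContDiffAt ℝ ∞ α (G x)) : ContDiffAt ℝ ∞ (pull G α) x :=
  contDiffAt_compCLM (hα.comp x hG) (hG.fderiv_right (by simp))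

lemma pull_contDiff {G : V → V'} {α : Form V' n} (hG : ContDiff ℝ ∞ G) (hα : ContDiff ℝ ∞ α) :
    ContDiff ℝ ∞ (pull G α) :=
  contDiff_iff_contDiffAt.2 fun _ => pull_contDiffAt hG.contDiffAt hα.contDiffAt

lemma pull_apply (G : V → V') (α : Form V' n) (x : V) (v : Fin n → V) :
    pull G α x v = α (G x) (fderiv ℝ G x ∘ v) := rfl

lemma pull_comp {F : X → V} {G : V → V'} (α : Form V' n) {x : X} (hF : DifferentiableAt ℝ F x)
    (hG : DifferentiableAt ℝ G (F x)) : pull (G ∘ F) α x = pull F (pull G α) x := by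
  ext v
  simp only [pull_apply, fderiv_comp x hG hF]
  rfl

lemma pull_congr {G G' : V → V'} (α : Form V' n) {x : V} (h : G =ᶠ[𝓝 x] G') :
    pull G α x = pull G' α x := by
  simp only [pull, h.fderiv_eq, h.self_of_nhds]

lemma pull_extDeriv {G : V → V'} {α : Form V' n} {x : V} (hG : ContDiffAt ℝ ∞ G x)
    (hα : DifferentiableAt ℝ α (G x)) : extDeriv (pull G α) x = pull G (extDeriv α) x :=
  extDeriv_pullback hα hG (by simp; decide)

lemma cda_diff {G : V → V'} {x : V} (hG : ContDiffAt ℝ ∞ G x) : DifferentiableAt ℝ G x :=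
  hG.differentiableAt (by simp)

lemma mem_Nul {S : Set V} {α : SF V n} : α ∈ Nul S n ↔ ∀ (γ : V → V) (z : V),
    (∀ᶠ y in 𝓝 z, ContDiffAt ℝ ∞ γ y ∧ γ y ∈ S) → pull γ α.1 z = 0 := by
  refine ⟨fun h γ z hz => ?_, fun h γ O hO hγ hS z hz => h γ z ?_⟩
  · obtain ⟨O, h1, hO, hzO⟩ := eventually_nhds_iff.1 hz
    exact h γ O hO (fun y hy => (h1 y hy).1.contDiffWithinAt) (fun y hy => (h1 y hy).2) z hzO
  · filter_upwards [hO.mem_nhds hz] with y hy using ⟨hγ.contDiffAt (hO.mem_nhds hy), hS hy⟩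

/-- forms in `Nul S` are killed by all smooth maps into `S`, whatever the source -/
lemma Nul.gen [FiniteDimensional ℝ V] {S : Set V} {α : SF V n} (h : α ∈ Nul S n) {γ : X → V} {z : X}
    (hz : ∀ᶠ y in 𝓝 z, ContDiffAt ℝ ∞ γ y ∧ γ y ∈ S) : pull γ α.1 z = 0 := by
  ext u
  rcases le_or_gt n (Module.finrank ℝ V) with hn | hn
  · let b := Module.finBasis ℝ V
    let A : V →L[ℝ] X := LinearMap.toContinuousLinearMap
      (b.constr ℝ fun j => if h : (j : ℕ) < n then u ⟨j, h⟩ else 0)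
    have hA : HasFDerivAt (fun y => z + A y) A 0 := A.hasFDerivAt.const_add z
    have hc : Tendsto (fun y => z + A y) (𝓝 0) (𝓝 z) := by simpa using hA.continuousAt.tendsto
    have h1 := mem_Nul.1 h (γ ∘ fun y => z + A y) 0 (by
      filter_upwards [hc.eventually hz] with y hy
      exact ⟨hy.1.comp y (contDiffAt_const.add A.contDiff.contDiffAt), hy.2⟩)
    rw [pull_comp _ hA.differentiableAt (by simpa using cda_diff hz.self_of_nhds.1)] at h1
    have h2 := DFunLike.congr_fun h1 fun i => b (Fin.castLE hn i)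
    rw [pull_apply, hA.fderiv] at h2
    have e : (A ∘ fun i => b (Fin.castLE hn i)) = u := funext fun i =>
      (b.constr_basis ℝ _ _).trans (dif_pos i.2)
    rwa [e, map_zero, add_zero] at h2
  · refine (α.1 (γ z)).toAlternatingMap.map_linearDependent _ fun hl => ?_
    have := hl.fintype_card_le_finrank
    simp at this
    omega

lemma Nul.anti {S S' : Set V} (h : S ⊆ S') : Nul S' n ≤ Nul S n :=
  fun _ hα γ O hO hγ hS => hα γ O hO hγ (hS.mono_right h)

lemma Nul.loc {S : Set V} {α : SF V n} (h : ∀ x ∈ S, ∃ W ∈ 𝓝 x, α ∈ Nul (S ∩ W) n) :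
    α ∈ Nul S n := mem_Nul.2 fun γ z hz => by
  obtain ⟨W, hW, hα⟩ := h _ hz.self_of_nhds.2
  refine mem_Nul.1 hα γ z ?_
  filter_upwards [hz, hz.self_of_nhds.1.continuousAt hW] with y h1 h2 using ⟨h1.1, h1.2, h2⟩

lemma Nul.of_zero {S : Set V} {α : SF V n} (h : ∀ x ∈ S, α.1 x = 0) : α ∈ Nul S n :=
  fun γ O _ _ hS z hz => by ext v; simp [pull_apply, h _ (hS hz)]

lemma Nul.fsmul {S : Set V} {α : SF V n} (h : α ∈ Nul S n) (χ : V → ℝ) (hχ : ContDiff ℝ ∞ χ) :
    SF.fsmul χ hχ n α ∈ Nul S n := fun γ O hO hγ hS z hz => by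
  ext v
  have := DFunLike.congr_fun (h γ O hO hγ hS z hz) v
  rw [pull_apply] at this ⊢
  simp [this]

/-- cutting off a form that vanishes on `S ∩ W` -/
lemma Nul.fsmul_of_inter {S W : Set V} {α : SF V n} (hW : IsOpen W) (h : α ∈ Nul (S ∩ W) n)
    {χ : V → ℝ} (hχ : ContDiff ℝ ∞ χ) (hs : tsupport χ ⊆ W) : SF.fsmul χ hχ n α ∈ Nul S n := by
  refine Nul.loc fun x _ => ?_
  by_cases hx : x ∈ W
  · exact ⟨W, hW.mem_nhds hx, Nul.fsmul h χ hχ⟩
  · exact ⟨_, (isClosed_tsupport χ).isOpen_compl.mem_nhds fun h => hx (hs h),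
      Nul.of_zero fun y hy => by
        ext v; simp [image_eq_zero_of_notMem_tsupport hy.2]⟩

/-- Leibniz rule -/
lemma extDeriv_fsmul {χ : V → ℝ} {α : Form V n} {x : V} (hχ : DifferentiableAt ℝ χ x)
    (hα : DifferentiableAt ℝ α x) : extDeriv (fun y => χ y • α y) x = χ x • extDeriv α x +
      ContinuousAlternatingMap.alternatizeUncurryFin ((fderiv ℝ χ x).smulRight (α x)) := by
  rw [extDeriv, fderiv_fun_smul hχ hα, ContinuousAlternatingMap.alternatizeUncurryFin_add,
    ContinuousAlternatingMap.alternatizeUncurryFin_smul, extDeriv]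

lemma extDeriv_fsmul_apply {χ : V → ℝ} {α : Form V n} {x : V} (hχ : DifferentiableAt ℝ χ x)
    (hα : DifferentiableAt ℝ α x) (v : Fin (n + 1) → V) :
    extDeriv (fun y => χ y • α y) x v = χ x * extDeriv α x v +
      ∑ i : Fin (n + 1), (-1) ^ (i : ℕ) * (fderiv ℝ χ x (v i) * α x (i.removeNth v)) := by
  simp [extDeriv_fsmul hχ hα, ContinuousAlternatingMap.alternatizeUncurryFin_apply]

/-- pull-back of a smooth form under a smooth map -/
def SF.pl (G : V → V) (hG : ContDiff ℝ ∞ G) (α : SF V n) : SF V n :=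
  ⟨HT.pull G α.1, pull_contDiff hG α.smooth⟩

@[simp] lemma SF.pl_val (G : V → V) (hG : ContDiff ℝ ∞ G) (α : SF V n) :
    (α.pl G hG).1 = HT.pull G α.1 := rfl

lemma Nul.pl {S S' : Set V} {α : SF V n} (h : α ∈ Nul S' n) {G : V → V} (hG : ContDiff ℝ ∞ G)
    (hS : MapsTo G S S') : α.pl G hG ∈ Nul S n := mem_Nul.2 fun γ z hz => by
  rw [SF.pl_val, ← pull_comp _ (cda_diff hz.self_of_nhds.1) (cda_diff hG.contDiffAt)]
  exact mem_Nul.1 h _ z (hz.mono fun y hy => ⟨hG.contDiffAt.comp y hy.1, hS hy.2⟩)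

lemma Nul.pl_sub {S : Set V} (α : SF V n) {G : V → V} (hG : ContDiff ℝ ∞ G)
    (hS : ∀ y ∈ S, G y = y) : α.pl G hG - α ∈ Nul S n := mem_Nul.2 fun γ z hz => by
  have h1 := pull_comp α.1 (cda_diff hz.self_of_nhds.1) (cda_diff (hG.contDiffAt (x := γ z)))
  rw [pull_congr (G := G ∘ γ) (G' := γ) _ (hz.mono fun y hy => hS _ hy.2)] at h1
  ext v
  have := DFunLike.congr_fun h1 v
  simp only [pull_apply] at this
  simp [pull_apply, this]

lemma SF.d_pl (G : V → V) (hG : ContDiff ℝ ∞ G) (α : SF V n) :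
    SF.d n (α.pl G hG) = (SF.d n α).pl G hG :=
  Subtype.ext <| funext fun _ => pull_extDeriv hG.contDiffAt (α.diff _)

lemma Nul.d {S : Set V} {α : SF V n} (h : α ∈ Nul S n) : SF.d n α ∈ Nul S (n + 1) :=
  (Submodule.Quotient.mk_eq_zero _).1
    ((congrArg (Om.d S n) ((Submodule.Quotient.mk_eq_zero _).2 h)).trans (map_zero _))

end Pool.Agent.HT
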