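import Pool.Agent.P.MP_65ad7c_ag.QN0

/-! Adapted charts, boxes and the standard frame. -/

open Set Pool.Agent.HT MeasureTheory Filter Topology Metric
open scoped ContDiff

noncomputable section
namespace Pool.Agent.QN

variable {N d n m : ℕ} {ι : Type} {Z : Set (Amb N)} {D : ι → Set (Amb N)} (A : AC d Z D)

theorem proj_smul_QNg {a : ℂ} (ha : a ≠ 0) (u : Fin N → ℂ) : proj (a • u) = proj u := by
  have h : a * (starRingEnd ℂ) a ≠ 0 := mul_ne_zero ha ((map_ne_zero _).2 ha)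
  have e : ∀ i j, (a • u) i * (starRingEnd ℂ) ((a • u) j) =
      a * (starRingEnd ℂ) a * (u i * (starRingEnd ℂ) (u j)) := fun i j => by
    simp only [Pi.smul_apply, smul_eq_mul, map_mul]
    ring
  ext p
  simp only [proj, e, ← Finset.mul_sum]
  exact mul_div_mul_left _ _ h

theorem dproj_QNg {u : Fin N → ℂ} (hu : u ≠ 0) (c : ℂ) :
    fderiv ℝ (proj (N := N)) u (c • u) = 0 := by
  have hl : HasDerivAt (fun t : ℝ => u + t • c • u) (c • u) 0 := by
    simpa using ((hasDerivAt_id (0 : ℝ)).smul_const (c • u)).const_add u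
  have h1 := (cda_diff (proj_contDiffAt hu)).hasFDerivAt.comp_hasDerivAt_of_eq (0 : ℝ) hl (by simp)
  have hc : Continuous fun t : ℝ => 1 + (t : ℂ) * c := by fun_prop
  have h2 : ∀ᶠ t : ℝ in 𝓝 0, 1 + (t : ℂ) * c ≠ 0 :=
    hc.continuousAt.eventually_ne (by simp)
  refine h1.unique ((hasDerivAt_const (0 : ℝ) (proj u)).congr_of_eventuallyEq ?_)
  filter_upwards [h2] with t ht
  rw [← proj_smul_QNg ht u, add_smul, one_smul, mul_smul, Complex.coe_smul]
  rfl

theorem ev_QNg {z : Fin d → ℂ} (hz : z ∈ ball A.c A.ρ) : proj ∘ A.f =ᶠ[𝓝 z] A.ψ := by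
  filter_upwards [isOpen_ball.mem_nhds hz] with y hy using (A.ψ_eq y hy).symm

theorem ac_isChart : IsChart Z (ball A.c A.ρ) A.f := by
  refine ⟨isOpen_ball, A.f_hol, A.f_ne, fun z hz v c hv => ?_, fun z hz z' hz' e => ?_,
    fun O' hO' hO => ⟨A.W ∩ A.φ ⁻¹' O', A.W_open.inter (hO.preimage A.φ_smooth.continuous), ?_⟩⟩
  · have h1 := ((A.f_hol z hz).differentiableAt (isOpen_ball.mem_nhds hz)).hasFDerivAt
    have h2 := (cda_diff (proj_contDiffAt (A.f_ne z hz))).hasFDerivAt.comp z (h1.restrictScalars ℝ)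
    have h3 := (cda_diff (A.φ_smooth.contDiffAt (x := proj (A.f z)))).hasFDerivAt.comp z h2
    have h4 : A.φ ∘ proj ∘ A.f =ᶠ[𝓝 z] id := by
      filter_upwards [isOpen_ball.mem_nhds hz] with y hy
      rw [Function.comp_apply, Function.comp_apply, ← A.ψ_eq y hy, A.φψ y hy, id]
    have h5 := congrArg (· v) (((hasFDerivAt_id z).congr_of_eventuallyEq h4).unique h3)
    simpa [hv, dproj_QNg (A.f_ne z hz)] using h5
  · rw [← A.φψ z hz, ← A.φψ z' hz', A.ψ_eq z hz, A.ψ_eq z' hz']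
    exact congrArg A.φ e
  · ext x
    constructor
    · rintro ⟨z, hz, rfl⟩
      have h := A.ψ_mem z (hO' hz)
      rw [Function.comp_apply, ← A.ψ_eq z (hO' hz)]
      exact ⟨h.1, h.2, by rwa [mem_preimage, A.φψ z (hO' hz)]⟩
    · rintro ⟨h1, h2, h3⟩
      exact ⟨A.φ x, h3, (A.ψ_eq _ (A.φ_mem x h2)).symm.trans (A.ψφ x ⟨h1, h2⟩)⟩

theorem ac_image : (proj ∘ A.f) '' ball A.c A.ρ = Z ∩ A.W := by
  ext x
  constructor
  · rintro ⟨z, hz, rfl⟩
    rw [Function.comp_apply, ← A.ψ_eq z hz]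
    exact A.ψ_mem z hz
  · intro h
    exact ⟨A.φ x, A.φ_mem x h.2, (A.ψ_eq _ (A.φ_mem x h.2)).symm.trans (A.ψφ x h)⟩

theorem ac_pull (α : Form (Amb N) n) {z : Fin d → ℂ} (hz : z ∈ ball A.c A.ρ) :
    pull (proj ∘ A.f) α z = pull A.ψ α z := by
  exact pull_congr α (ev_QNg A hz)

theorem exists_box {E : Type} [NormedAddCommGroup E] [NormedSpace ℝ E] [FiniteDimensional ℝ E]
    (b : Module.Basis (Fin m) ℝ E) {c : E} {O : Set E} (hO : O ∈ 𝓝 c) :
    ∃ l u : Fin m → ℝ, (∀ k, l k < u k) ∧ box b l u ⊆ O ∧ box b l u ∈ 𝓝 c := by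
  have h1 : b.equivFunL.symm ⁻¹' O ∈ 𝓝 (b.equivFunL c) :=
    b.equivFunL.symm.continuous.continuousAt.preimage_mem_nhds (by simpa using hO)
  obtain ⟨r, hr, h2⟩ := nhds_basis_closedBall.mem_iff.1 h1
  have h3 : box b (fun k => b.repr c k - r) (fun k => b.repr c k + r) =
      b.equivFunL ⁻¹' closedBall (b.equivFunL c) r := by
    ext x
    simp only [box, mem_ofPred_eq, mem_preimage, mem_closedBall, dist_pi_le_iff hr.le,
      ← Real.closedBall_eq_Icc]
    rfl
  refine ⟨fun k => b.repr c k - r, fun k => b.repr c k + r, fun k => by linarith,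
    fun x hx => ?_, ?_⟩
  · rw [h3] at hx
    simpa using h2 hx
  · rw [h3]
    exact b.equivFunL.continuous.continuousAt.preimage_mem_nhds (closedBall_mem_nhds _ hr)

theorem exists_fr (d : ℕ) : ∃ b : Module.Basis (Fin (2 * d)) ℝ (Fin d → ℂ), ⇑b = fr d := by
  refine ⟨basisOfTopLeSpanOfCardEqFinrank (fr d) (fun z _ => ?_) ?_,
    coe_basisOfTopLeSpanOfCardEqFinrank _ _ _⟩
  · rw [← Finset.univ_sum_single z]
    refine Submodule.sum_mem _ fun k _ => ?_
    have h0 : fr d ⟨2 * k, by omega⟩ = Pi.single k 1 := by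
      simp [fr]
    have h1 : fr d ⟨2 * k + 1, by omega⟩ = Pi.single k Complex.I := by
      have e : (2 * (k : ℕ) + 1) / 2 = k := by omega
      simp [fr, e]
    have h2 : Pi.single k (z k) = (z k).re • fr d ⟨2 * k, by omega⟩ +
        (z k).im • fr d ⟨2 * k + 1, by omega⟩ := by
      rw [h0, h1, ← Pi.single_smul, ← Pi.single_smul, ← Pi.single_add]
      simp
    rw [h2]
    exact Submodule.add_mem _ (Submodule.smul_mem _ _ (Submodule.subset_span ⟨_, rfl⟩))
      (Submodule.smul_mem _ _ (Submodule.subset_span ⟨_, rfl⟩))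
  · simp [Module.finrank_pi_fintype, Complex.finrank_real_complex, mul_comm]

end Pool.Agent.QN
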