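import Pool.Agent.P.MP_65ad7c_ag.XG0
import Pool.Agent.P.MP_65ad7c_ag.XA7

open Set Filter Topology Asymptotics
open scoped ComplexConjugate
open Pool.Agent.HT (Amb proj cj IsChart IsSNC)

noncomputable section
namespace Pool.Agent.HIR

variable {n e M : ℕ} {X C A : Set (Amb M)} {φ : E n → Amb M} {z : E n} {x : Amb M}
  {T : Finset (Fin n)} {i p : Fin n}

theorem emb_apply (s : Fin e ↪ Fin n) (w : E e) (k : Fin e) : emb s w (s k) = w k := by
  exact s.injective.extend_apply _ _ k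

theorem emb_of_ne (s : Fin e ↪ Fin n) (w : E e) (h : ∀ k, s k ≠ i) : emb s w i = 0 := by
  exact Function.extend_apply' _ _ _ fun ⟨k, hk⟩ => h k hk

theorem exists_emb (T : Finset (Fin n)) (h : e + T.card = n) :
    ∃ s : Fin e ↪ Fin n, ∀ i, i ∉ T ↔ ∃ k, s k = i := by
  have hc : Tᶜ.card = e := by
    rw [Finset.card_compl, Fintype.card_fin]
    omega
  refine ⟨(Tᶜ.orderEmbOfFin hc).toEmbedding, fun i => ?_⟩
  have := Set.ext_iff.1 (Finset.range_orderEmbOfFin Tᶜ hc) i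
  simp only [mem_range, Finset.mem_coe, Finset.mem_compl] at this
  exact this.symm

/-- `emb s` is a continuous linear map -/
theorem exists_embL (s : Fin e ↪ Fin n) : ∃ L : E e →L[ℂ] E n, ⇑L = emb s := by
  refine ⟨LinearMap.toContinuousLinearMap ⟨⟨emb s, fun u v => ?_⟩, fun c v => ?_⟩, rfl⟩
  · funext i
    by_cases h : ∃ k, s k = i
    · obtain ⟨k, rfl⟩ := h
      simp only [Pi.add_apply, emb_apply]
    · push Not at h
      simp only [Pi.add_apply, emb_of_ne s _ h, add_zero]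
  · funext i
    by_cases h : ∃ k, s k = i
    · obtain ⟨k, rfl⟩ := h
      simp only [Pi.smul_apply, emb_apply, RingHom.id_apply]
    · push Not at h
      simp only [Pi.smul_apply, emb_of_ne s _ h, smul_zero]

theorem emb_comp_XG1 {s : Fin e ↪ Fin n} (hT : ∀ i, i ∉ T ↔ ∃ k, s k = i) {y : E n}
    (hy : ∀ i ∈ T, y i = 0) : emb s (y ∘ s) = y := by
  funext i
  by_cases h : ∃ k, s k = i
  · obtain ⟨k, rfl⟩ := h
    exact emb_apply s _ k
  · have hi : i ∈ T := by
      by_contra h'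
      exact h ((hT i).1 h')
    push Not at h
    rw [emb_of_ne s _ h, hy i hi]

/-- a coordinate subspace of a chart is a chart of the submanifold -/
theorem Pt.sub (h : Pt X φ z x) (hC : C ⊆ X) (hx : x ∈ C) (hs : Sub C φ z T) (s : Fin e ↪ Fin n)
    (hT : ∀ i, i ∉ T ↔ ∃ k, s k = i) : emb s (z ∘ s) = z ∧ Pt C (φ ∘ emb s) (z ∘ s) x := by
  have hz : emb s (z ∘ s) = z := emb_comp_XG1 hT (hs.zero.1 (by rw [h.eq]; exact hx))
  refine ⟨hz, ?_⟩
  obtain ⟨L, hL⟩ := exists_embL s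
  obtain ⟨g, hg, ha, h0, hi⟩ := h.rep
  have hLz : L (z ∘ s) = z := by rw [hL, hz]
  have ht : Tendsto (emb s) (𝓝 (z ∘ s)) (𝓝 z) := by
    have := L.continuous.tendsto (z ∘ s)
    rwa [hLz, hL] at this
  have ht' : Tendsto (fun y : E n => y ∘ s) (𝓝 z) (𝓝 (z ∘ s)) :=
    (continuous_pi fun k => continuous_apply (s k)).tendsto z
  have hx' : proj ((g ∘ L) (z ∘ s)) = x := by
    rw [Function.comp_apply, hLz, ← h.eq, hg, Function.comp_apply]
  have ha' : AnalyticAt ℂ g (L (z ∘ s)) := by rw [hLz]; exact ha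
  have key := pt_of_imm (X := C) (g := g ∘ L) (z := z ∘ s) (ha'.comp (L.analyticAt _))
    (by rw [Function.comp_apply, hLz]; exact h0) (fun v c hv => ?_) ?_
  · rw [hx', hL] at key
    rw [hg]
    exact key
  · rw [fderiv_comp _ ha'.differentiableAt L.differentiableAt, L.fderiv, Function.comp_apply,
      hLz] at hv
    have h1 : L v = 0 := hi _ c hv
    funext k
    have h2 := congrFun h1 (s k)
    rwa [hL, emb_apply] at h2
  · rw [hx', hL]
    have e1 : proj ∘ g ∘ emb s = φ ∘ emb s := by rw [hg]; rfl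
    rw [e1]
    ext P
    rw [Filter.mem_map]
    refine Iff.trans ?_ (h.ev_sub hC (P := fun y => y ∈ P)).symm
    constructor
    · intro hP
      filter_upwards [ht'.eventually hP, hs] with y h1 h2 h3
      rwa [Function.comp_apply, emb_comp_XG1 hT (h2.1 h3)] at h1
    · intro hP
      filter_upwards [ht.eventually hP, ht.eventually hs] with y h1 h2
      refine h1 (h2.2 fun i hi => emb_of_ne s y fun k hk => ?_)
      exact (hT i).2 ⟨k, hk⟩ hi

theorem Sp.mf (S : Sp n) : Mf n S.X := by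
  refine ⟨S.snc.compact, fun x hx => ?_⟩
  obtain ⟨φ, z, hp, -⟩ := Sp.chart hx
  exact ⟨φ, z, hp⟩

theorem Ctr.mf {S : Sp n} {C : Set (Amb S.M)} (h : Ctr S C) : ∃ e, Mf e C := by
  obtain ⟨s, hs⟩ := h.chart
  refine ⟨n - s, S.snc.compact.of_isClosed_subset h.closed h.sub, fun x hx => ?_⟩
  obtain ⟨φ, z, T, hp, hT, hsub, -⟩ := hs x hx
  have h1 : T.card ≤ n := by simpa using Finset.card_le_univ T
  obtain ⟨t, ht⟩ := exists_emb (e := n - s) T (by omega)
  exact ⟨_, _, (hp.sub h.sub hx hsub t ht).2⟩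

theorem holP_id : HolP n X id := by
  intro φ z x h
  obtain ⟨g, hg, ha, h0, -⟩ := h.rep
  exact ⟨g, ha, h0, by rw [hg]; rfl⟩

theorem Pt.immP (h : Pt X φ z x) : ImmP n X id x := by
  obtain ⟨g, hg, ha, h0, hi⟩ := h.rep
  exact ⟨φ, z, g, h, ha, h0, by rw [hg]; rfl, hi⟩

theorem Mf.rep (h : Mf n X) (hx : x ∈ X) : ∃ v, v ≠ 0 ∧ proj v = x := by
  obtain ⟨φ, z, hp⟩ := h.chart x hx
  obtain ⟨g, hg, -, h0, -⟩ := hp.rep
  exact ⟨g z, h0, by rw [← hp.eq, hg]; rfl⟩

theorem HolP.cont {N : ℕ} {ph : Amb M → Amb N} (h : HolP n X ph) (hX : Mf n X) :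
    ContinuousOn ph X := by
  intro x hx
  obtain ⟨φ, z, hp⟩ := hX.chart x hx
  obtain ⟨g, ha, h0, e⟩ := h φ z x hp
  have e1 : ph x = (proj ∘ g) z := by rw [← hp.eq]; exact e.self_of_nhds
  rw [ContinuousWithinAt, ← hp.map, tendsto_map'_iff, e1]
  exact Tendsto.congr' e.symm ((cont_proj h0).comp ha.continuousAt)

theorem closure_iff_XG1 (h : Pt X φ z x) (hA : A ⊆ X) :
    x ∈ closure A ↔ ∃ᶠ w in 𝓝 z, φ w ∈ A := by
  rw [mem_closure_iff_nhdsWithin_neBot, neBot_iff, Ne, ← eventually_false_iff_eq_bot,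
    h.ev_sub hA (P := fun _ => False)]
  rfl

theorem zero_of_freq_XG1 (h : ∃ᶠ w in 𝓝 z, w i = 0) : z i = 0 :=
  (isClosed_eq (continuous_apply i) continuous_const).closure_subset
    (mem_closure_iff_frequently.2 h)

theorem co_closure (h : Pt X φ z x) (hA : A ⊆ X) (hi : i ≠ p)
    (e : ∀ᶠ y in 𝓝 z, φ y ∈ A ↔ y i = 0 ∧ y p ≠ 0) : Co (closure A) φ z i := by
  filter_upwards [h.ev, e.eventually_nhds] with y h1 h2
  rw [closure_iff_XG1 h1 hA]
  constructor
  · intro h3
    exact zero_of_freq_XG1 ((h3.and_eventually h2).mono fun u hu => (hu.2.1 hu.1).1)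
  · intro h3
    have h4 := dense_mon (z := y) (T := {i}) (α := Pi.single p 1) (by simpa using h3) (by
      intro k hk hk'
      rw [Finset.mem_singleton] at hk'
      rw [hk', Pi.single_eq_of_ne hi] at hk
      exact hk rfl)
    refine (h4.and_eventually h2).mono fun u hu => hu.2.2 ⟨hu.1.1 i (by simp), fun h5 => ?_⟩
    exact hu.1.2 (Finset.prod_eq_zero (Finset.mem_univ p) (by simp [h5]))

theorem co_closure' (h : Pt X φ z x) (hA : A ⊆ X) (e : Co A φ z i) : Co (closure A) φ z i := by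
  filter_upwards [h.ev, e.ev] with y h1 h2
  constructor
  · intro h3
    rw [closure_iff_XG1 h1 hA] at h3
    exact zero_of_freq_XG1 ((h3.and_eventually h2).mono fun u hu => hu.2.1 hu.1)
  · intro h3
    exact subset_closure (h2.zero.2 h3)

theorem not_mem_closure (h : Pt X φ z x) (hA : A ⊆ X) (e : ∀ᶠ y in 𝓝 z, φ y ∉ A) :
    x ∉ closure A := by
  rw [closure_iff_XG1 h hA]
  exact fun h1 => h1 e

theorem kappa_XG1 {P : ℕ → Prop} {Q R : ℕ → Fin n → Prop} (h1 : ∀ j, P j → ∃ i, Q j i ∧ R j i)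
    (h2 : ∀ j j' i, R j i → R j' i → j = j') : ∃ κ : ℕ → Option (Fin n),
    (∀ j j' i, P j → P j' → κ j = some i → κ j' = some i → j = j') ∧
      ∀ j, P j → ∃ i, κ j = some i ∧ Q j i := by
  classical
  choose c hc using h1
  refine ⟨fun j => if h : P j then some (c j h) else none, fun j j' i hj hj' e e' => ?_,
    fun j hj => ⟨c j hj, dif_pos hj, (hc j hj).1⟩⟩
  simp only [dif_pos hj, dif_pos hj', Option.some.injEq] at e e'
  exact h2 j j' i (e ▸ (hc j hj).2) (e' ▸ (hc j' hj').2)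

/-- the divisors of a blow-up -/
theorem bl_of_pre {S : Sp n} {C : Set (Amb S.M)} (hC : Ctr S C) {M' : ℕ} {X' : Set (Amb M')}
    {π : Amb M' → Amb S.M} (h : PreBl S C X' π) : ∃ β : Bl S, β.C = C := by
  obtain ⟨D, hD1, hD2, hD3⟩ : ∃ D : ℕ → Set (Amb M'),
      (∀ j < S.r, D j = closure (X' ∩ π ⁻¹' (S.D j \ C))) ∧ D S.r = X' ∩ π ⁻¹' C ∧
        ∀ j, S.r + 1 ≤ j → D j = ∅ := by
    refine ⟨fun j => if j < S.r then closure (X' ∩ π ⁻¹' (S.D j \ C)) else
      if j = S.r then X' ∩ π ⁻¹' C else ∅, fun j hj => if_pos hj, ?_, fun j hj => ?_⟩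
    · simp
    · have h1 : ¬ j < S.r := by omega
      have h2 : j ≠ S.r := by omega
      simp [h1, h2]
  have hX := h.compact.isClosed
  have cs : ∀ (P : Set (Amb M') → Prop) (j : ℕ), (j < S.r → P (closure (X' ∩ π ⁻¹' (S.D j \ C)))) →
      (j = S.r → P (X' ∩ π ⁻¹' C)) → P ∅ → P (D j) := by
    intro P j h1 h2 h3
    rcases lt_trichotomy j S.r with hj | hj | hj
    · rw [hD1 j hj]
      exact h1 hj
    · rw [hj, hD2]
      exact h2 hj
    · rw [hD3 j hj]
      exact h3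
  have dn : ∀ j, closure (X' ∩ π ⁻¹' (S.D j \ C)) ⊆ π ⁻¹' S.D j := fun j =>
    closure_minimal (fun y hy => hy.2.1) ((S.closedD j).preimage h.cont)
  have snc : IsSNC n X' D := by
    refine snc_of_pt (r := S.r + 1) h.compact (fun j => cs (· ⊆ X') j
      (fun _ => closure_minimal inter_subset_left hX) (fun _ => inter_subset_left) (empty_subset _))
      (fun j => cs IsClosed j (fun _ => isClosed_closure)
        (fun _ => hX.inter (hC.closed.preimage h.cont)) isClosed_empty) hD3 fun x hx => ?_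
    by_cases hc : π x ∈ C
    · obtain ⟨s, hs⟩ := hC.chart
      obtain ⟨φ, z, T, hp, -, hsub, hco⟩ := hs _ hc
      obtain ⟨φ', w, p, hpT, -, rfl, hp', e⟩ := h.on x hx hc φ z T hp hsub
      have hb : Tendsto (bet T p) (𝓝 w) (𝓝 (bet T p w)) := (an_bet T p w).continuousAt
      have hE : ∀ᶠ y in 𝓝 w, φ' y ∈ X' ∧ π (φ' y) = φ (bet T p y) ∧
          (φ (bet T p y) ∈ C ↔ y p = 0) := by
        filter_upwards [hp'.ev, e, hb.eventually hsub] with y h1 h2 h3
        exact ⟨h1.mem, h2, h3.trans (bet_zero hpT)⟩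
      refine ⟨φ', w, (kappa_XG1 (P := fun j => x ∈ D j) (Q := fun j i => Co (D j) φ' w i)
        (R := fun j i => (j = S.r ∧ i = p) ∨ (i ≠ p ∧ π x ∈ S.D j ∧ Co (S.D j) φ (bet T p w) i))
        (fun j => ?_) ?_).imp fun κ hκ => ⟨hp', hκ⟩⟩
      · refine cs (fun Y => x ∈ Y → ∃ i, Co Y φ' w i ∧ ((j = S.r ∧ i = p) ∨
          (i ≠ p ∧ π x ∈ S.D j ∧ Co (S.D j) φ (bet T p w) i))) j (fun _ hj => ?_)
          (fun hj _ => ⟨p, ?_, Or.inl ⟨hj, rfl⟩⟩) (fun hj => hj.elim)
        · obtain ⟨i, hi⟩ := hco j (dn j hj)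
          have hA : ∀ᶠ y in 𝓝 w, φ' y ∈ X' ∩ π ⁻¹' (S.D j \ C) ↔ bet T p y i = 0 ∧ y p ≠ 0 := by
            filter_upwards [hE, hb.eventually hi] with y h1 h2
            rw [mem_inter_iff, mem_preimage, Set.mem_sdiff, h1.2.1, h2, h1.2.2]
            exact and_iff_right h1.1
          have hip : i ≠ p := by
            rintro rfl
            refine not_mem_closure hp' inter_subset_left ?_ hj
            filter_upwards [hA] with y h1 h2
            have h3 := h1.1 h2
            rw [bet_self] at h3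
            exact h3.2 h3.1
          refine ⟨i, co_closure hp' inter_subset_left hip ?_, Or.inr ⟨hip, dn j hj, hi⟩⟩
          filter_upwards [hA] with y h1
          rw [h1]
          refine and_congr_left fun h2 => ?_
          unfold bet
          split_ifs
          · simp [h2]
          · rfl
        · filter_upwards [hE] with y h1
          rw [mem_inter_iff, mem_preimage, h1.2.1, h1.2.2]
          exact and_iff_right h1.1
      · rintro j j' i (⟨h1, h2⟩ | ⟨h1, h2, h3⟩) (⟨h4, h5⟩ | ⟨h4, h5, h6⟩)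
        · rw [h1, h4]
        · exact absurd h2 h4
        · exact absurd h5 h1
        · exact Co.inj hp h3 h6 h2
    · obtain ⟨φ, z, hp, hco⟩ := Sp.chart (h.maps hx)
      obtain ⟨φ', hp', e⟩ := h.off x hx hc φ z hp
      refine ⟨φ', z, (kappa_XG1 (P := fun j => x ∈ D j) (Q := fun j i => Co (D j) φ' z i)
        (R := fun j i => π x ∈ S.D j ∧ Co (S.D j) φ z i) (fun j => ?_) ?_).imp
        fun κ hκ => ⟨hp', hκ⟩⟩
      · refine cs (fun Y => x ∈ Y → ∃ i, Co Y φ' z i ∧ π x ∈ S.D j ∧ Co (S.D j) φ z i) j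
          (fun _ hj => ?_) (fun _ hj => absurd hj.2 hc) (fun hj => hj.elim)
        obtain ⟨i, hi⟩ := hco j (dn j hj)
        refine ⟨i, co_closure' hp' inter_subset_left ?_, dn j hj, hi⟩
        filter_upwards [hp'.ev, e, hi, hp.cont.eventually (hC.closed.isOpen_compl.mem_nhds hc)]
          with y h1 h2 h3 h4
        rw [Function.comp_apply] at h2
        rw [mem_inter_iff, mem_preimage, Set.mem_sdiff, h2, h3]
        exact ⟨fun h5 => h5.2.1, fun h5 => ⟨h1.mem, h5, h4⟩⟩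
      · rintro j j' i ⟨h1, h2⟩ ⟨-, h3⟩
        exact Co.inj hp h2 h3 h1
  have cjD : ∀ j, MapsTo (cj M') (D j) (D j) := by
    intro j
    refine cs (fun Y => MapsTo (cj M') Y Y) j (fun _ => MapsTo.closure ?_ (cj M').continuous)
      (fun _ y hy => ⟨h.cjX hy.1, ?_⟩) (mapsTo_empty _ _)
    · intro y hy
      refine ⟨h.cjX hy.1, ?_⟩
      rw [mem_preimage, h.rl]
      refine ⟨S.cjD j hy.2.1, fun h1 => hy.2.2 ?_⟩
      have h2 := hC.rl h1
      rwa [cj_cj] at h2
    · rw [mem_preimage, h.rl]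
      exact hC.rl hy.2
  exact ⟨⟨⟨M', X', D, S.r + 1, snc, hD3, h.cjX, cjD⟩, C, π, hC, h.cont, h.maps, h.rl, h.inj, h.surj,
    h.off, h.on, rfl, hD2, hD1⟩, rfl⟩

end Pool.Agent.HIR
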