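import Pool.Agent.P.MP_65ad7c_ag.ABd0

open MeasureTheory Set Filter Topology Metric Matrix
open scoped ComplexOrder ContDiff Matrix.Norms.Frobenius RealInnerProductSpace ENNReal
open Pool.Agent.Lib.Sob

open scoped MatrixOrder in
theorem Pool.Agent.PWAbd.exists_sqrt {r : ℕ} {P : Matrix (Fin r) (Fin r) ℂ} (hP : P.PosSemidef) :
    ∃ B : Matrix (Fin r) (Fin r) ℂ, P = Bᴴ * B :=
  CStarAlgebra.nonneg_iff_eq_star_mul_self.1 hP.nonneg

noncomputable section
namespace Pool.Agent.PW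

variable {E : Type} [NormedAddCommGroup E] [InnerProductSpace ℝ E] [FiniteDimensional ℝ E] {r : ℕ}

variable {P Q R h u u' : Mat r} {C C' : ℝ}

theorem Bd.posDef (hC : 0 < C) (hh : Bd C h) : h.PosDef := Obst.posDef PosDef.one hC hh

theorem Bd.mono (hC : 0 < C) (hCC : C ≤ C') (hh : Bd C h) : Bd C' h :=
  Obst.mono PosSemidef.one hC hCC hh

theorem abd_smul_psd (hP : P.PosSemidef) (hC : 0 ≤ C) : (C • P).PosSemidef := hP.smul hC

theorem abd_inv_lower (hC : 0 < C) (hh : h.PosDef) (hK : (C • (1 : Mat r) - h).PosSemidef) :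
    (h⁻¹ - C⁻¹ • (1 : Mat r)).PosSemidef := by
  have hu : IsUnit h.det := (Matrix.isUnit_iff_isUnit_det h).1 hh.isUnit
  have h1 : h * h⁻¹ = 1 := Matrix.mul_nonsing_inv h hu
  have h2 : h⁻¹ * h = 1 := Matrix.nonsing_inv_mul h hu
  have hA := hh.inv.posSemidef.conjTranspose_mul_mul_same (C • (1 : Mat r) - h)
  rw [hK.1] at hA
  have hB := abd_smul_psd (hA.add hK) (C := C⁻¹ * C⁻¹) (by positivity)
  have e : (C⁻¹ * C⁻¹) • ((C • (1 : Mat r) - h) * h⁻¹ * (C • (1 : Mat r) - h) +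
      (C • (1 : Mat r) - h)) = h⁻¹ - C⁻¹ • (1 : Mat r) := by
    simp only [Matrix.sub_mul, Matrix.mul_sub, Matrix.smul_mul, Matrix.mul_smul, Matrix.one_mul,
      Matrix.mul_one, h1, h2]
    match_scalars <;> field_simp <;> ring
  rwa [e] at hB

theorem abd_inv_upper (hC : 0 < C) (hh : h.PosDef) (hL : (h - C⁻¹ • (1 : Mat r)).PosSemidef) :
    (C • (1 : Mat r) - h⁻¹).PosSemidef := by
  have hu : IsUnit h.det := (Matrix.isUnit_iff_isUnit_det h).1 hh.isUnit
  have h1 : h * h⁻¹ = 1 := Matrix.mul_nonsing_inv h hu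
  have h2 : h⁻¹ * h = 1 := Matrix.nonsing_inv_mul h hu
  have hi : (h⁻¹)ᴴ = h⁻¹ := hh.inv.1
  have hA := hL.conjTranspose_mul_mul_same h⁻¹
  rw [hi] at hA
  have hB := Matrix.posSemidef_conjTranspose_mul_self ((1 : Mat r) - C⁻¹ • h⁻¹)
  have hH : ((1 : Mat r) - C⁻¹ • h⁻¹)ᴴ = (1 : Mat r) - C⁻¹ • h⁻¹ := by
    rw [conjTranspose_sub, conjTranspose_one, conjTranspose_smul, hi]; simp
  rw [hH] at hB
  have hD := (abd_smul_psd hB hC.le).add hA
  have e : C • (((1 : Mat r) - C⁻¹ • h⁻¹) * ((1 : Mat r) - C⁻¹ • h⁻¹)) +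
      h⁻¹ * (h - C⁻¹ • (1 : Mat r)) * h⁻¹ = C • (1 : Mat r) - h⁻¹ := by
    simp only [Matrix.sub_mul, Matrix.mul_sub, Matrix.smul_mul, Matrix.mul_smul, Matrix.one_mul,
      Matrix.mul_one, h2]
    match_scalars <;> field_simp <;> ring
  rwa [e] at hD

theorem Bd.inv (hC : 0 < C) (hh : Bd C h) : Bd C h⁻¹ :=
  ⟨abd_inv_lower hC (hh.posDef hC) hh.2, abd_inv_upper hC (hh.posDef hC) hh.1⟩

theorem abd_norm_eq (X : Mat r) : ‖X‖ = √(∑ p : Fin r × Fin r, ‖X p.1 p.2‖ ^ 2) := by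
  rw [Matrix.frobenius_norm_def, Real.sqrt_eq_rpow, Fintype.sum_prod_type]
  simp only [Real.rpow_two]

theorem abd_norm_sq (X : Mat r) : ‖X‖ ^ 2 = (Xᴴ * X).trace.re := by
  rw [abd_norm_eq, Real.sq_sqrt (Finset.sum_nonneg fun _ _ => sq_nonneg _), Fintype.sum_prod_type,
    Finset.sum_comm]
  simp only [Matrix.trace, Matrix.diag, Matrix.mul_apply, conjTranspose_apply, Complex.re_sum]
  refine Finset.sum_congr rfl fun i _ => Finset.sum_congr rfl fun j _ => ?_
  rw [Complex.star_def, Complex.conj_mul', ← Complex.ofReal_pow, Complex.ofReal_re]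

theorem abd_exists_sqrt (hP : P.PosSemidef) : ∃ B : Mat r, P = Bᴴ * B :=
  Pool.Agent.PWAbd.exists_sqrt hP

theorem norm_le_trace (hP : P.PosSemidef) : ‖P‖ ≤ P.trace.re := by
  obtain ⟨B, rfl⟩ := abd_exists_sqrt hP
  rw [← abd_norm_sq, sq]
  calc ‖Bᴴ * B‖ ≤ ‖Bᴴ‖ * ‖B‖ := norm_mul_le _ _
    _ = ‖B‖ * ‖B‖ := by rw [Matrix.frobenius_norm_conjTranspose]

theorem Bd.norm_le (hC : 0 < C) (hh : Bd C h) : ‖h‖ ≤ r * C := by
  refine (norm_le_trace (hh.posDef hC).posSemidef).trans ?_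
  have h1 := (Complex.nonneg_iff.1 hh.2.trace_nonneg).1
  simp only [trace_sub, trace_smul, trace_one, Fintype.card_fin, Complex.sub_re,
    Complex.real_smul, Complex.mul_re, Complex.ofReal_re, Complex.ofReal_im, Complex.natCast_re,
    Complex.natCast_im] at h1
  linarith

theorem Bd.norm_inv_le (hC : 0 < C) (hh : Bd C h) : ‖h⁻¹‖ ≤ r * C := (hh.inv hC).norm_le hC

theorem abs_trace_mul_le (X Y : Mat r) : ‖(X * Y).trace‖ ≤ ‖X‖ * ‖Y‖ := by
  have e : (X * Y).trace = ∑ p : Fin r × Fin r, X p.1 p.2 * Y p.2 p.1 := by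
    simp only [Matrix.trace, Matrix.diag, Matrix.mul_apply, Fintype.sum_prod_type]
  have e2 : ‖Y‖ = √(∑ p : Fin r × Fin r, ‖Y p.2 p.1‖ ^ 2) := by
    rw [abd_norm_eq, Fintype.sum_prod_type, Fintype.sum_prod_type, Finset.sum_comm]
  rw [e, abd_norm_eq X, e2]
  refine (norm_sum_le _ _).trans ?_
  simp only [norm_mul]
  exact Real.sum_mul_le_sqrt_mul_sqrt _ _ _

theorem abd_upper (hh : h.IsHermitian) (h1 : ‖h‖ ≤ C) : (C • (1 : Mat r) - h).PosSemidef := by
  have hC : 0 ≤ C := (norm_nonneg _).trans h1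
  have hH : (C • (1 : Mat r) - h).IsHermitian := by
    unfold IsHermitian
    rw [conjTranspose_sub, conjTranspose_smul, conjTranspose_one, hh]; simp
  refine Matrix.posSemidef_iff_dotProduct_mulVec.2 ⟨hH, fun x => ?_⟩
  have hY : (vecMulVec x (star x)).PosSemidef := Matrix.posSemidef_vecMulVec_self_star x
  have e : ∀ M : Mat r, star x ⬝ᵥ (M *ᵥ x) = (M * vecMulVec x (star x)).trace := by
    intro M
    simp only [Matrix.trace, Matrix.diag, Matrix.mul_apply, vecMulVec_apply, dotProduct, mulVec,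
      Finset.mul_sum]
    exact Finset.sum_congr rfl fun i _ => Finset.sum_congr rfl fun j _ => by ring
  refine Complex.nonneg_iff.2 ⟨?_, (hH.im_star_dotProduct_mulVec_self x).symm⟩
  rw [e, Matrix.sub_mul, Matrix.smul_mul, Matrix.one_mul, trace_sub, trace_smul]
  have a1 := abs_trace_mul_le h (vecMulVec x (star x))
  have a2 := norm_le_trace hY
  have a3 := Complex.re_le_norm (h * vecMulVec x (star x)).trace
  have a4 : ‖h‖ * ‖vecMulVec x (star x)‖ ≤ C * (vecMulVec x (star x)).trace.re :=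
    mul_le_mul h1 a2 (norm_nonneg _) hC
  simp only [Complex.sub_re, Complex.real_smul, Complex.mul_re, Complex.ofReal_re,
    Complex.ofReal_im]
  linarith

theorem bd_of_norm (hC : 0 < C) (hh : h.PosDef) (h1 : ‖h‖ ≤ C) (h2 : ‖h⁻¹‖ ≤ C) : Bd C h := by
  refine ⟨?_, abd_upper hh.1 h1⟩
  have hu : IsUnit h.det := (Matrix.isUnit_iff_isUnit_det h).1 hh.isUnit
  have := abd_inv_lower hC hh.inv (abd_upper hh.inv.1 h2)
  rwa [Matrix.nonsing_inv_nonsing_inv h hu] at this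

theorem trace_mul_nonneg (hP : P.PosSemidef) (hQ : Q.PosSemidef) : 0 ≤ (P * Q).trace.re := by
  obtain ⟨B, rfl⟩ := abd_exists_sqrt hP
  rw [Matrix.mul_assoc, trace_mul_comm]
  exact (Complex.nonneg_iff.1 (hQ.mul_mul_conjTranspose_same B).trace_nonneg).1

omit [InnerProductSpace ℝ E] [FiniteDimensional ℝ E] in
theorem LBd.of_continuousOn {U : Set E} {H : E → Mat r} (hc : ContinuousOn H U)
    (hp : ∀ x ∈ U, (H x).PosDef) : LBd U H := by
  intro K hK hKU
  have hi : ContinuousOn (fun x => (H x)⁻¹) U := by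
    intro x hx
    have hu : IsUnit (H x).det := (Matrix.isUnit_iff_isUnit_det _).1 (hp x hx).isUnit
    have : ContinuousAt Inv.inv (H x) := by
      refine continuousAt_matrix_inv _ ?_
      rw [Ring.inverse_eq_inv']
      exact continuousAt_inv₀ hu.ne_zero
    exact this.comp_continuousWithinAt (hc x hx)
  obtain ⟨a, ha⟩ := hK.exists_bound_of_continuousOn (hc.mono hKU)
  obtain ⟨b, hb⟩ := hK.exists_bound_of_continuousOn (hi.mono hKU)
  refine ⟨max 1 (max a b), le_max_left _ _, fun x hx => ?_⟩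
  exact bd_of_norm (lt_of_lt_of_le one_pos (le_max_left _ _)) (hp x (hKU hx))
    ((ha x hx).trans ((le_max_left _ _).trans (le_max_right _ _)))
    ((hb x hx).trans ((le_max_right _ _).trans (le_max_right _ _)))

omit [InnerProductSpace ℝ E] [FiniteDimensional ℝ E] in
theorem LBd.of_obst {U : Set E} {H h : E → Mat r} (hH : LBd U H) (hC : 1 ≤ C)
    (ho : ∀ x ∈ U, Obst C (H x) (h x)) : LBd U h := by
  intro K hK hKU
  obtain ⟨B, hB, hb⟩ := hH K hK hKU
  exact ⟨B * C, one_le_mul_of_one_le_of_one_le hB hC, fun x hx =>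
    Obst.trans (by linarith) (by linarith) (hb x hx) (ho x (hKU hx))⟩

omit [InnerProductSpace ℝ E] [FiniteDimensional ℝ E] in
theorem LBd.mono {U U' : Set E} {h : E → Mat r} (hh : LBd U h) (hU : U' ⊆ U) : LBd U' h :=
  fun K hK hKU => hh K hK (hKU.trans hU)

omit [InnerProductSpace ℝ E] [FiniteDimensional ℝ E] in
theorem LBd.posDef {U : Set E} {h : E → Mat r} (hh : LBd U h) : ∀ x ∈ U, (h x).PosDef := by
  intro x hx
  obtain ⟨B, hB, hb⟩ := hh {x} isCompact_singleton (singleton_subset_iff.2 hx)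
  exact (hb x rfl).posDef (by linarith)

omit [InnerProductSpace ℝ E] [FiniteDimensional ℝ E] in
theorem LBd.lb {U : Set E} {h : E → Mat r} (hh : LBd U h) : LB U h := by
  intro K hK hKU
  obtain ⟨B, hB, hb⟩ := hh K hK hKU
  exact ⟨r * B, fun x hx => (hb x hx).norm_le (by linarith)⟩

omit [InnerProductSpace ℝ E] [FiniteDimensional ℝ E] in
theorem LBd.lb_inv {U : Set E} {h : E → Mat r} (hh : LBd U h) : LB U fun x => (h x)⁻¹ := by
  intro K hK hKU
  obtain ⟨B, hB, hb⟩ := hh K hK hKU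
  exact ⟨r * B, fun x hx => (hb x hx).norm_inv_le (by linarith)⟩

end Pool.Agent.PW
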