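import Pool.Agent.P.MP_65ad7c_ag.Base

open MeasureTheory Set Filter Topology Metric Matrix
open scoped ComplexOrder ContDiff Matrix.Norms.Frobenius RealInnerProductSpace ENNReal
open Pool.Agent.Lib.Sob

noncomputable section
namespace Pool.Agent.PW

variable {E : Type} [NormedAddCommGroup E] [InnerProductSpace ℝ E] [FiniteDimensional ℝ E] {r : ℕ}

variable {P Q R h u u' : Mat r} {C C' : ℝ}

theorem Obst.posDef (hP : P.PosDef) (hC : 0 < C) (h : Obst C P Q) : Q.PosDef := by
  have h1 := (hP.smul (inv_pos.2 hC)).add_posSemidef h.1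
  rwa [add_sub_cancel] at h1

theorem Obst.refl (hP : P.PosSemidef) (hC : 1 ≤ C) : Obst C P P := by
  constructor
  · have h1 := hP.smul (a := 1 - C⁻¹) (sub_nonneg.2 (inv_le_one_of_one_le₀ hC))
    rwa [sub_smul, one_smul] at h1
  · have h1 := hP.smul (a := C - 1) (sub_nonneg.2 hC)
    rwa [sub_smul, one_smul] at h1

theorem Obst.mono (hP : P.PosSemidef) (hC : 0 < C) (hCC : C ≤ C') (h : Obst C P Q) :
    Obst C' P Q := by
  constructor
  · have h1 := h.1.add (hP.smul (a := C⁻¹ - C'⁻¹) (sub_nonneg.2 (inv_anti₀ hC hCC)))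
    rwa [sub_smul, sub_add_sub_cancel] at h1
  · have h1 := (hP.smul (a := C' - C) (sub_nonneg.2 hCC)).add h.2
    rwa [sub_smul, sub_add_sub_cancel] at h1

theorem Obst.symm (hC : 0 < C) (h : Obst C P Q) : Obst C Q P := by
  constructor
  · have h1 := h.2.smul (inv_pos.2 hC).le
    rwa [smul_sub, smul_smul, inv_mul_cancel₀ hC.ne', one_smul] at h1
  · have h1 := h.1.smul hC.le
    rwa [smul_sub, smul_smul, mul_inv_cancel₀ hC.ne', one_smul] at h1

theorem Obst.trans (hC : 0 < C) (hC' : 0 < C') (h : Obst C P Q) (h' : Obst C' Q R) :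
    Obst (C * C') P R := by
  constructor
  · have h1 := h'.1.add (h.1.smul (inv_pos.2 hC').le)
    rwa [smul_sub, smul_smul, sub_add_sub_cancel, ← mul_inv, mul_comm C' C] at h1
  · have h1 := (h.2.smul hC'.le).add h'.2
    rwa [smul_sub, smul_smul, sub_add_sub_cancel, mul_comm C' C] at h1

theorem Obst.gm (h : Obst C P Q) (u : Mat r) : Obst C (gm P u) (gm Q u) := by
  constructor
  · have h1 := h.1.conjTranspose_mul_mul_same u
    rwa [Matrix.mul_sub, Matrix.sub_mul, Matrix.mul_smul, Matrix.smul_mul] at h1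
  · have h1 := h.2.conjTranspose_mul_mul_same u
    rwa [Matrix.mul_sub, Matrix.sub_mul, Matrix.mul_smul, Matrix.smul_mul] at h1

theorem Obst.smul (h : Obst C P Q) {t : ℝ} (ht : 0 ≤ t) : Obst C (t • P) (t • Q) := by
  constructor
  · have h1 := h.1.smul ht
    rwa [smul_sub, smul_comm t C⁻¹ P] at h1
  · have h1 := h.2.smul ht
    rwa [smul_sub, smul_comm t C P] at h1

theorem abd0_isClosed_psd : IsClosed {Q : Mat r | Q.PosSemidef} := by
  have e : {Q : Mat r | Q.PosSemidef} =
      {Q : Mat r | Qᴴ = Q} ∩ ⋂ x : Fin r → ℂ, {Q : Mat r | 0 ≤ star x ⬝ᵥ (Q *ᵥ x)} := by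
    ext Q
    simp only [mem_ofPred_eq, mem_inter_iff, mem_iInter, posSemidef_iff_dotProduct_mulVec]
    rfl
  rw [e]
  refine (isClosed_eq continuous_id.matrix_conjTranspose continuous_id).inter
    (isClosed_iInter fun x => isClosed_le continuous_const ?_)
  exact continuous_const.dotProduct (continuous_id.matrix_mulVec continuous_const)

theorem isClosed_obst (C : ℝ) (P : Mat r) : IsClosed {Q | Obst C P Q} :=
  (abd0_isClosed_psd.preimage (f := fun Q : Mat r => Q - C⁻¹ • P)
    (continuous_id.sub continuous_const)).inter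
    (abd0_isClosed_psd.preimage (f := fun Q : Mat r => C • P - Q)
      (continuous_const.sub continuous_id))

theorem convex_obst (C : ℝ) (P : Mat r) : Convex ℝ {Q | Obst C P Q} := by
  intro X hX Y hY a b ha hb hab
  constructor
  · have h1 := (hX.1.smul ha).add (hY.1.smul hb)
    have e : a • (X - C⁻¹ • P) + b • (Y - C⁻¹ • P) = a • X + b • Y - C⁻¹ • P := by
      rw [smul_sub, smul_sub, sub_add_sub_comm, ← add_smul, hab, one_smul]
    rwa [e] at h1
  · have h1 := (hX.2.smul ha).add (hY.2.smul hb)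
    have e : a • (C • P - X) + b • (C • P - Y) = C • P - (a • X + b • Y) := by
      rw [smul_sub, smul_sub, sub_add_sub_comm, ← add_smul, hab, one_smul]
    rwa [e] at h1

theorem gm_gm (h u v : Mat r) : gm (gm h u) v = gm h (u * v) := by
  simp only [gm, conjTranspose_mul, Matrix.mul_assoc]

theorem gm_one (h : Mat r) : gm h 1 = h := by simp [gm]

theorem gm_posDef (hP : P.PosDef) (hu : u * u' = 1) : (gm P u).PosDef :=
  hP.conjTranspose_mul_mul_same (mulVec_injective_of_isUnit (IsUnit.of_mul_eq_one u' hu))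

theorem gm_inv (hP : P.PosDef) (hu : u * u' = 1) : (gm P u)⁻¹ = u' * P⁻¹ * u'ᴴ := by
  refine Matrix.inv_eq_right_inv ?_
  have h1 : P * P⁻¹ = 1 := Matrix.mul_nonsing_inv _ ((isUnit_iff_isUnit_det _).1 hP.isUnit)
  have h2 : uᴴ * u'ᴴ = 1 := by
    rw [← conjTranspose_mul, mul_eq_one_comm.1 hu, conjTranspose_one]
  calc gm P u * (u' * P⁻¹ * u'ᴴ) = uᴴ * (P * (u * u') * P⁻¹) * u'ᴴ := by
        simp only [gm, Matrix.mul_assoc]
    _ = 1 := by rw [hu, Matrix.mul_one, h1, Matrix.mul_one, h2]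

end Pool.Agent.PW
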