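import Pool.Agent.P.MP_65ad7c_ag.ABd

open MeasureTheory Set Filter Topology Metric Matrix
open scoped ComplexOrder ContDiff Matrix.Norms.Frobenius RealInnerProductSpace ENNReal
open Pool.Agent.Lib.Sob

noncomputable section

namespace Pool.Agent.PWAsg

open scoped MatrixOrder in
theorem asg_fact {r : ℕ} {Q : Matrix (Fin r) (Fin r) ℂ} (hQ : Q.PosSemidef) :
    ∃ B : Matrix (Fin r) (Fin r) ℂ, Q = Bᴴ * B :=
  CStarAlgebra.nonneg_iff_eq_star_mul_self.1 hQ.nonneg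

end Pool.Agent.PWAsg

namespace Pool.Agent.PW

variable {E : Type} [NormedAddCommGroup E] [InnerProductSpace ℝ E] [FiniteDimensional ℝ E] {r : ℕ}

variable {P Q R u u' : Mat r} {C : ℝ}

theorem asg_det (hP : P.PosDef) : IsUnit P.det := (Matrix.isUnit_iff_isUnit_det P).1 hP.isUnit

theorem asg_inv_mul (hP : P.PosDef) : P⁻¹ * P = 1 := Matrix.nonsing_inv_mul P (asg_det hP)

theorem asg_mul_inv (hP : P.PosDef) : P * P⁻¹ = 1 := Matrix.mul_nonsing_inv P (asg_det hP)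

theorem asg_tr_one : (1 : Mat r).trace.re = r := by simp

theorem asg_tr_smul (t : ℝ) (X : Mat r) : (t • X).trace.re = t * X.trace.re := by simp

theorem asg_tr_nonneg (hP : P.PosSemidef) : 0 ≤ P.trace.re := by
  simpa using trace_mul_nonneg hP PosSemidef.one

theorem asg_nn (hP : P.PosDef) (hQ : Q.PosDef) : 0 ≤ (P⁻¹ * Q).trace.re :=
  trace_mul_nonneg hP.inv.posSemidef hQ.posSemidef

theorem asg_tr_mul_le (hP : P.PosSemidef) (hQ : Q.PosSemidef) :
    (P * Q).trace.re ≤ P.trace.re * Q.trace.re :=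
  ((Complex.re_le_norm _).trans (abs_trace_mul_le P Q)).trans
    (mul_le_mul (norm_le_trace hP) (norm_le_trace hQ) (norm_nonneg _) (asg_tr_nonneg hP))

theorem asg_sqrt (hQ : Q.PosDef) : ∃ B B' : Mat r, Q = Bᴴ * B ∧ B * B' = 1 := by
  obtain ⟨B, hB⟩ := PWAsg.asg_fact hQ.posSemidef
  refine ⟨B, Q⁻¹ * Bᴴ, hB, mul_eq_one_comm.1 ?_⟩
  rw [Matrix.mul_assoc, ← hB, asg_inv_mul hQ]

theorem asg_three (hP : P.PosSemidef) (hQ : Q.PosDef) (hR : R.PosSemidef) :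
    (P * R).trace.re ≤ (P * Q).trace.re * (Q⁻¹ * R).trace.re := by
  obtain ⟨B, B', hB, h1⟩ := asg_sqrt hQ
  have h2 : B' * B = 1 := mul_eq_one_comm.1 h1
  have h3 : Bᴴ * B'ᴴ = 1 := by rw [← conjTranspose_mul, h2, conjTranspose_one]
  have h4 : B'ᴴ * Bᴴ = 1 := mul_eq_one_comm.1 h3
  have hi : Q⁻¹ = B' * B'ᴴ := by
    refine Matrix.inv_eq_left_inv ?_
    rw [hB, Matrix.mul_assoc, ← Matrix.mul_assoc B'ᴴ, h4, Matrix.one_mul, h2]
  have a := asg_tr_mul_le (hP.mul_mul_conjTranspose_same B) (hR.conjTranspose_mul_mul_same B')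
  have e1 : (B * P * Bᴴ * (B'ᴴ * R * B')).trace = (P * R).trace := by
    have : B * P * Bᴴ * (B'ᴴ * R * B') = B * (P * (Bᴴ * B'ᴴ) * R * B') := by
      simp only [Matrix.mul_assoc]
    rw [this, h3, Matrix.mul_one, trace_mul_comm, Matrix.mul_assoc, h2, Matrix.mul_one]
  have e2 : (B * P * Bᴴ).trace = (P * Q).trace := by
    rw [hB, Matrix.mul_assoc, trace_mul_comm, Matrix.mul_assoc]
  have e3 : (B'ᴴ * R * B').trace = (Q⁻¹ * R).trace := by
    rw [hi, trace_mul_comm, Matrix.mul_assoc]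
  rwa [e1, e2, e3] at a

theorem asg_psd {M : Mat r} (hM : M.IsHermitian)
    (h : ∀ A : Mat r, A.PosSemidef → 0 ≤ (A * M).trace.re) : M.PosSemidef := by
  refine PosSemidef.of_dotProduct_mulVec_nonneg hM fun x => ?_
  have a := h _ (posSemidef_vecMulVec_self_star x)
  have e : (vecMulVec x (star x) * M).trace = star x ⬝ᵥ M *ᵥ x := by
    rw [vecMulVec_mul, trace_vecMulVec, dotProduct_comm, dotProduct_mulVec]
  rw [e] at a
  exact Complex.nonneg_iff.2 ⟨a, (hM.im_star_dotProduct_mulVec_self x).symm⟩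

theorem asg_herm (t : ℝ) (hP : P.IsHermitian) : (t • P).IsHermitian := by
  unfold IsHermitian at hP ⊢
  rw [conjTranspose_smul, hP, star_trivial]

theorem asg_inv_smul {t : ℝ} (ht : 0 < t) (hP : P.PosDef) : (t • P)⁻¹ = t⁻¹ • P⁻¹ := by
  refine Matrix.inv_eq_left_inv ?_
  rw [smul_mul_smul_comm, asg_inv_mul hP, inv_mul_cancel₀ ht.ne', one_smul]

theorem asg_low {A : Mat r} {t : ℝ} (hA : A.PosSemidef) (h : (Q - t • P).PosSemidef) :
    t * (A * P).trace.re ≤ (A * Q).trace.re := by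
  have := trace_mul_nonneg hA h
  rw [Matrix.mul_sub, trace_sub, Complex.sub_re, Matrix.mul_smul, asg_tr_smul] at this
  linarith

theorem asg_up {A : Mat r} {t : ℝ} (hA : A.PosSemidef) (h : (t • P - Q).PosSemidef) :
    (A * Q).trace.re ≤ t * (A * P).trace.re := by
  have := trace_mul_nonneg hA h
  rw [Matrix.mul_sub, trace_sub, Complex.sub_re, Matrix.mul_smul, asg_tr_smul] at this
  linarith

theorem asg_gm (hP : P.PosDef) (hu : u * u' = 1) :
    ((gm P u)⁻¹ * gm Q u).trace = (P⁻¹ * Q).trace := by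
  have h3 : u'ᴴ * uᴴ = 1 := by rw [← conjTranspose_mul, hu, conjTranspose_one]
  have : u' * P⁻¹ * u'ᴴ * (uᴴ * Q * u) = u' * (P⁻¹ * (u'ᴴ * uᴴ) * Q * u) := by
    simp only [Matrix.mul_assoc]
  rw [gm_inv hP hu, gm, this, h3, Matrix.mul_one, trace_mul_comm, Matrix.mul_assoc, hu,
    Matrix.mul_one]

theorem asg_smul {t : ℝ} (ht : 0 < t) (hP : P.PosDef) : (t • P)⁻¹ * (t • Q) = P⁻¹ * Q := by
  rw [asg_inv_smul ht hP, smul_mul_smul_comm, inv_mul_cancel₀ ht.ne', one_smul]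

theorem sg_comm (P Q : Mat r) : sg P Q = sg Q P := add_comm _ _

theorem sg_self (hP : P.PosDef) : sg P P = 2 * r := by
  rw [sg, asg_inv_mul hP, asg_tr_one]; ring

theorem sg_sub_eq (hP : P.PosDef) (hQ : Q.PosDef) :
    sg P Q - 2 * r = nf Q P (P⁻¹ * Q - 1) (P⁻¹ * Q - 1) := by
  have e1 : (P⁻¹ * Q - 1) * Q⁻¹ = P⁻¹ - Q⁻¹ := by
    rw [Matrix.sub_mul, Matrix.mul_assoc, asg_mul_inv hQ, Matrix.mul_one, Matrix.one_mul]
  have e2 : (P⁻¹ * Q - 1)ᴴ * P = Q - P := by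
    rw [conjTranspose_sub, conjTranspose_mul, conjTranspose_one, hQ.isHermitian.eq,
      hP.inv.isHermitian.eq, Matrix.sub_mul, Matrix.mul_assoc, asg_inv_mul hP, Matrix.mul_one,
      Matrix.one_mul]
  rw [nf, Matrix.mul_assoc, e1, e2, Matrix.sub_mul, Matrix.mul_sub, Matrix.mul_sub, asg_inv_mul hP,
    asg_inv_mul hQ, sg]
  simp only [trace_sub, Complex.sub_re, asg_tr_one]
  ring

theorem le_sg (hP : P.PosDef) (hQ : Q.PosDef) : 2 * (r : ℝ) ≤ sg P Q := by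
  have := trace_mul_nonneg (hQ.inv.posSemidef.mul_mul_conjTranspose_same (P⁻¹ * Q - 1))
    hP.posSemidef
  have e := sg_sub_eq hP hQ
  rw [nf] at e
  linarith

theorem trace_inv_mul_le (hP : P.PosDef) (hQ : Q.PosDef) (hR : R.PosDef) :
    (P⁻¹ * R).trace.re ≤ (P⁻¹ * Q).trace.re * (Q⁻¹ * R).trace.re := by
  exact asg_three hP.inv.posSemidef hQ hR.posSemidef

theorem sg_mul_le (hP : P.PosDef) (hQ : Q.PosDef) (hR : R.PosDef) :
    sg P R ≤ sg P Q * sg Q R := by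
  have a := trace_inv_mul_le hP hQ hR
  have b := trace_inv_mul_le hR hQ hP
  have c := mul_nonneg (asg_nn hP hQ) (asg_nn hR hQ)
  have d := mul_nonneg (asg_nn hQ hP) (asg_nn hQ hR)
  simp only [sg]
  nlinarith

theorem log_sg_nonneg (hr : 0 < r) (hP : P.PosDef) (hQ : Q.PosDef) : 0 ≤ Real.log (sg P Q) := by
  have : (1 : ℝ) ≤ r := by exact_mod_cast hr
  exact Real.log_nonneg (by linarith [le_sg hP hQ])

theorem log_sg_le (hr : 0 < r) (hP : P.PosDef) (hQ : Q.PosDef) (hR : R.PosDef) :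
    Real.log (sg P R) ≤ Real.log (sg P Q) + Real.log (sg Q R) := by
  have : (1 : ℝ) ≤ r := by exact_mod_cast hr
  have a : 0 < sg P Q := by linarith [le_sg hP hQ]
  have b : 0 < sg Q R := by linarith [le_sg hQ hR]
  have c : 0 < sg P R := by linarith [le_sg hP hR]
  rw [← Real.log_mul a.ne' b.ne']
  exact Real.log_le_log c (sg_mul_le hP hQ hR)

theorem sg_gm (hP : P.PosDef) (hQ : Q.PosDef) (hu : u * u' = 1) :
    sg (gm P u) (gm Q u) = sg P Q := by
  rw [sg, sg, asg_gm hP hu, asg_gm hQ hu]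

theorem sg_smul {t : ℝ} (ht : 0 < t) (hP : P.PosDef) (hQ : Q.PosDef) :
    sg (t • P) (t • Q) = sg P Q := by
  rw [sg, sg, asg_smul ht hP, asg_smul ht hQ]

theorem kz_smul {t : ℝ} (ht : 0 < t) (hP : P.PosDef) (hQ : Q.PosDef) :
    kz (t • P) (t • Q) = kz P Q := by
  rw [kz, kz, asg_smul ht hP, asg_smul ht hQ]

theorem sg_le_of_obst (hP : P.PosDef) (hC : 0 < C) (h : Obst C P Q) : sg P Q ≤ 2 * r * C := by
  have hQ := h.posDef hP hC
  have a := asg_up hP.inv.posSemidef h.2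
  have b := asg_up hQ.inv.posSemidef (h.symm hC).2
  rw [asg_inv_mul hP, asg_tr_one] at a
  rw [asg_inv_mul hQ, asg_tr_one] at b
  rw [sg]
  linarith

theorem obst_of_sg (hP : P.PosDef) (hQ : Q.PosDef) (hC : 0 < C) (h : sg P Q ≤ C) :
    Obst C P Q := by
  have n1 := asg_nn hP hQ
  have n2 := asg_nn hQ hP
  rw [sg] at h
  refine ⟨asg_psd (hQ.isHermitian.sub (asg_herm _ hP.isHermitian)) fun A hA => ?_,
    asg_psd ((asg_herm _ hP.isHermitian).sub hQ.isHermitian) fun A hA => ?_⟩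
  · have a := asg_three hA hQ hP.posSemidef
    have b := trace_mul_nonneg hA hQ.posSemidef
    rw [Matrix.mul_sub, trace_sub, Complex.sub_re, Matrix.mul_smul, asg_tr_smul, sub_nonneg,
      inv_mul_le_iff₀ hC]
    nlinarith
  · have a := asg_three hA hP hQ.posSemidef
    have b := trace_mul_nonneg hA hP.posSemidef
    rw [Matrix.mul_sub, trace_sub, Complex.sub_re, Matrix.mul_smul, asg_tr_smul, sub_nonneg]
    nlinarith

theorem norm_kz_le (hP : P.PosDef) (hC : 0 < C) (hQ : Bd C Q) :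
    ‖kz P Q‖ ≤ r * C ^ 2 * sg P Q := by
  have hQ' := hQ.posDef hC
  have a := asg_low hP.inv.posSemidef hQ.1
  have b := asg_low hP.posSemidef (hQ.inv hC).1
  rw [Matrix.mul_one, inv_mul_le_iff₀ hC] at a b
  rw [trace_mul_comm] at b
  have rc : (0 : ℝ) ≤ r * C := by positivity
  have a1 : ‖P⁻¹ * Q‖ ≤ C * (P⁻¹ * Q).trace.re * (r * C) :=
    (norm_mul_le _ _).trans (mul_le_mul ((norm_le_trace hP.inv.posSemidef).trans a)
      (hQ.norm_le hC) (norm_nonneg _) (mul_nonneg hC.le (asg_nn hP hQ')))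
  have b1 : ‖Q⁻¹ * P‖ ≤ r * C * (C * (Q⁻¹ * P).trace.re) :=
    (norm_mul_le _ _).trans (mul_le_mul (hQ.norm_inv_le hC)
      ((norm_le_trace hP.posSemidef).trans b) (norm_nonneg _) rc)
  calc ‖kz P Q‖ ≤ ‖P⁻¹ * Q‖ + ‖Q⁻¹ * P‖ := norm_sub_le _ _
    _ ≤ _ := add_le_add a1 b1
    _ = _ := by rw [sg]; ring

/-- the scale of `Q` relative to `P` -/
theorem exists_scale (hr : 0 < r) (hP : P.PosDef) (hC : 0 < C) (h : Obst C P Q) {B L : ℝ}
    (hB : 0 < B) (hb : Bd B P) (hL : Q.trace.re * Q⁻¹.trace.re ≤ L) :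
    ∃ t : ℝ, C⁻¹ ≤ t ∧ t ≤ C ∧ sg (t • P) Q ≤ r + r * B ^ 2 * L := by
  have hQ := h.posDef hP hC
  have r1 : (1 : ℝ) ≤ r := by exact_mod_cast hr
  have r0 : (0 : ℝ) < r := by linarith
  have a := asg_low hP.inv.posSemidef h.1
  have b := asg_up hP.inv.posSemidef h.2
  rw [asg_inv_mul hP, asg_tr_one] at a b
  have c := asg_up hQ.posSemidef (hb.inv hB).2
  have d := asg_up hQ.inv.posSemidef hb.2
  rw [Matrix.mul_one] at c d
  rw [trace_mul_comm] at c
  have n1 := asg_nn hP hQ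
  have n2 := asg_nn hQ hP
  have q1 := asg_tr_nonneg hQ.posSemidef
  have q2 := asg_tr_nonneg hQ.inv.posSemidef
  have l : C⁻¹ ≤ (P⁻¹ * Q).trace.re / r := (le_div_iff₀ r0).2 a
  have t0 : 0 < (P⁻¹ * Q).trace.re / r := (inv_pos.2 hC).trans_le l
  have p0 : 0 < (P⁻¹ * Q).trace.re := (div_pos_iff_of_pos_right r0).1 t0
  refine ⟨(P⁻¹ * Q).trace.re / r, l, (div_le_iff₀ r0).2 b, ?_⟩
  rw [sg, asg_inv_smul t0 hP, Matrix.smul_mul, Matrix.mul_smul, asg_tr_smul, asg_tr_smul]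
  have e : ((P⁻¹ * Q).trace.re / r)⁻¹ * (P⁻¹ * Q).trace.re = r := by field_simp
  have m : (P⁻¹ * Q).trace.re * (Q⁻¹ * P).trace.re ≤ B ^ 2 * L :=
    calc _ ≤ B * Q.trace.re * (B * Q⁻¹.trace.re) := mul_le_mul c d n2 (by positivity)
      _ = B ^ 2 * (Q.trace.re * Q⁻¹.trace.re) := by ring
      _ ≤ _ := mul_le_mul_of_nonneg_left hL (sq_nonneg B)
  have m0 : 0 ≤ B ^ 2 * L := (mul_nonneg n1 n2).trans m
  have f : (P⁻¹ * Q).trace.re / r * (Q⁻¹ * P).trace.re ≤ r * B ^ 2 * L := by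
    rw [div_mul_eq_mul_div, div_le_iff₀ r0]
    have : (1 : ℝ) ≤ r * r := by nlinarith
    nlinarith [mul_le_mul_of_nonneg_left this m0]
  rw [e]
  linarith

end Pool.Agent.PW
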