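import Pool.Agent.P.MP_65ad7c_ag.ANf
import Pool.Agent.P.MP_65ad7c_ag.ASg

open MeasureTheory Set Filter Topology Metric Matrix
open scoped ComplexOrder ContDiff Matrix.Norms.Frobenius RealInnerProductSpace ENNReal
open Pool.Agent.Lib.Sob

noncomputable section
namespace Pool.Agent.PW

variable {Γ : Type} [Group Γ] {r m : ℕ}

/-- an irreducible representation is quantitatively irreducible -/
theorem Irr.burn {ρ : Γ →* Mat r} (h : Irr ρ) :
    ∃ (m : ℕ) (γs : Fin m → Γ) (β : ℝ), Burn γs β ρ := by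
  have hfg : (Submodule.span ℂ (range ρ)).FG := by
    rw [show Submodule.span ℂ (range ρ) = ⊤ from h]
    exact Module.Finite.fg_top
  obtain ⟨s, hs, hspan⟩ := (Submodule.fg_span_iff_fg_span_finset_subset _).1 hfg
  have hch : ∀ l : Fin s.card, ∃ γ, ρ γ = (s.equivFin.symm l : Mat r) := fun l =>
    hs (s.equivFin.symm l).2
  choose γs hγ using hch
  have htop : ⊤ ≤ Submodule.span ℂ (range fun l => ρ (γs l)) := by
    rw [← show Submodule.span ℂ (range ρ) = ⊤ from h, hspan]
    refine Submodule.span_mono fun X hX => ⟨s.equivFin ⟨X, hX⟩, ?_⟩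
    simp only [hγ, Equiv.symm_apply_apply]
  have hsurj : LinearMap.range (Fintype.linearCombination ℂ fun l => ρ (γs l)) = ⊤ := by
    rw [Fintype.range_linearCombination]
    exact top_le_iff.1 htop
  obtain ⟨S, hS⟩ := LinearMap.exists_rightInverse_of_surjective _ hsurj
  refine ⟨s.card, γs, ‖LinearMap.toContinuousLinearMap S‖, fun X =>
    ⟨S X, (LinearMap.toContinuousLinearMap S).le_opNorm X, ?_⟩⟩
  have h1 := LinearMap.congr_fun hS X
  rw [LinearMap.comp_apply, Fintype.linearCombination_apply] at h1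
  exact h1.symm

theorem rep_mul_inv (ρ : Γ →* Mat r) (γ : Γ) : ρ γ * ρ γ⁻¹ = 1 := by
  rw [← map_mul, mul_inv_cancel, map_one]

theorem rep_inv_mul (ρ : Γ →* Mat r) (γ : Γ) : ρ γ⁻¹ * ρ γ = 1 := by
  rw [← map_mul, inv_mul_cancel, map_one]

theorem aburn_nf_sum (P Q : Mat r) (X : Fin m → Mat r) :
    nf P Q (∑ l, X l) (∑ l, X l) = ∑ l, ∑ k, nf P Q (X l) (X k) := by
  simp only [nf, conjTranspose_sum, Finset.sum_mul, Finset.mul_sum, trace_sum, Complex.re_sum]
  exact Finset.sum_comm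

theorem aburn_nf_smul (P Q X : Mat r) (c : ℂ) :
    nf P Q (c • X) (c • X) = ‖c‖ ^ 2 * nf P Q X X := by
  simp only [nf, conjTranspose_smul, Matrix.smul_mul, Matrix.mul_smul, trace_smul, smul_eq_mul]
  rw [← mul_assoc, Complex.star_def, Complex.conj_mul', ← Complex.ofReal_pow,
    Complex.re_ofReal_mul]

theorem aburn_nf_single {Q : Mat r} (hQ : Q.PosDef) (i j : Fin r) :
    nf Q Q (single i j 1) (single i j 1) = (Q i i).re * (Q⁻¹ j j).re := by
  have h1 : (Q i i).im = 0 := (Complex.nonneg_iff.1 (hQ.posSemidef.diag_nonneg (i := i))).2.symm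
  rw [nf, conjTranspose_single, star_one, single_mul_mul_single, trace_single_mul]
  simp [h1, mul_comm]

theorem aburn_norm_single (i j : Fin r) : ‖(single i j 1 : Mat r)‖ = 1 := by
  rw [Matrix.frobenius_norm_def, Finset.sum_eq_single i, Finset.sum_eq_single j]
  · simp
  · intro b _ hb
    simp [hb.symm]
  · simp
  · intro b _ hb
    simp [hb.symm]
  · simp

theorem aburn_nf_rep {Q u u' : Mat r} (hQ : Q.PosDef) (hu : u * u' = 1) :
    nf Q Q u u ≤ sg (gm Q u) Q := by
  have h1 := trace_mul_nonneg (gm_posDef hQ hu).inv.posSemidef hQ.posSemidef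
  have h2 : nf Q Q u u = (Q⁻¹ * gm Q u).trace.re := by
    rw [nf, gm, Matrix.mul_assoc, Matrix.mul_assoc, trace_mul_comm]
    simp only [Matrix.mul_assoc]
  rw [h2, sg]
  linarith

/-- an almost invariant metric of an irreducible representation has bounded condition number -/
theorem burn_cond {γs : Fin m → Γ} {β L : ℝ} {ρ : Γ →* Mat r} (hb : Burn γs β ρ) {Q : Mat r}
    (hQ : Q.PosDef) (hL0 : 0 ≤ L) (hL : ∀ l, sg (gm Q (ρ (γs l))) Q ≤ L) :
    Q.trace.re * Q⁻¹.trace.re ≤ r ^ 2 * m ^ 2 * β ^ 2 * L := by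
  have key : ∀ i j, (Q i i).re * (Q⁻¹ j j).re ≤ m ^ 2 * β ^ 2 * L := by
    intro i j
    obtain ⟨x, hx, hX⟩ := hb (single i j 1)
    rw [aburn_norm_single, mul_one] at hx
    have h1 : ∀ l, nf Q Q (x l • ρ (γs l)) (x l • ρ (γs l)) ≤ β ^ 2 * L := fun l => by
      rw [aburn_nf_smul]
      exact mul_le_mul (pow_le_pow_left₀ (norm_nonneg _) ((norm_le_pi_norm x l).trans hx) 2)
        ((aburn_nf_rep hQ (rep_mul_inv ρ _)).trans (hL l)) (nf_nonneg hQ hQ _) (sq_nonneg _)
    have h0 : 0 ≤ β ^ 2 * L := mul_nonneg (sq_nonneg _) hL0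
    have h2 : ∀ l k, nf Q Q (x l • ρ (γs l)) (x k • ρ (γs k)) ≤ β ^ 2 * L := fun l k => by
      refine (abs_le_of_sq_le_sq' ((nf_sq_le hQ hQ _ _).trans ?_) h0).2
      rw [sq (β ^ 2 * L)]
      exact mul_le_mul (h1 l) (h1 k) (nf_nonneg hQ hQ _) h0
    rw [← aburn_nf_single hQ, hX, aburn_nf_sum]
    refine (Finset.sum_le_sum fun l _ => Finset.sum_le_sum fun k _ => h2 l k).trans (le_of_eq ?_)
    simp only [Finset.sum_const, Finset.card_univ, Fintype.card_fin, nsmul_eq_mul]
    ring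
  rw [trace, trace, Complex.re_sum, Complex.re_sum, Finset.sum_mul_sum]
  refine (Finset.sum_le_sum fun i _ => Finset.sum_le_sum fun j _ => key i j).trans (le_of_eq ?_)
  simp only [Finset.sum_const, Finset.card_univ, Fintype.card_fin, nsmul_eq_mul]
  ring

end Pool.Agent.PW
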