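import Pool.Agent.P.MP_65ad7c_ag.ANf

open MeasureTheory Set Filter Topology Metric Matrix
open scoped ComplexOrder ContDiff Matrix.Norms.Frobenius RealInnerProductSpace ENNReal
open Pool.Agent.Lib.Sob

noncomputable section
namespace Pool.Agent.PW

variable {E : Type} [NormedAddCommGroup E] [InnerProductSpace ℝ E] [FiniteDimensional ℝ E] {r : ℕ}

theorem aen_pair_add_left (α : E →L[ℝ] E) (X Y Z : E →L[ℝ] Mat r) :
    pair α (X + Y) Z = pair α X Z + pair α Y Z := by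
  simp only [pair, _root_.add_apply, Matrix.add_mul, trace_add, Complex.add_re,
    Finset.sum_add_distrib]

theorem aen_pair_add_right (α : E →L[ℝ] E) (X Y Z : E →L[ℝ] Mat r) :
    pair α X (Y + Z) = pair α X Y + pair α X Z := by
  simp only [pair, _root_.add_apply, Matrix.mul_add, trace_add, Complex.add_re,
    Finset.sum_add_distrib]

theorem aen_pair_smul_right (α : E →L[ℝ] E) (t : ℝ) (X Y : E →L[ℝ] Mat r) :
    pair α X (t • Y) = t * pair α X Y := by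
  simp only [pair, _root_.smul_apply, Matrix.mul_smul, trace_smul, Finset.mul_sum,
    Complex.smul_re, smul_eq_mul]

theorem aen_pair_conj (α : E →L[ℝ] E) {u u' : Mat r} (hu : u * u' = 1) (X Y : E →L[ℝ] Mat r) :
    pair α (lmul u' (rmul X u)) (lmul u' (rmul Y u)) = pair α X Y := by
  unfold pair
  refine Finset.sum_congr rfl fun p _ => ?_
  simp only [lmul_apply, rmul_apply]
  congr 1
  have h1 : u' * (X (ob E p) * u) * (u' * (Y (α (ob E p)) * u)) =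
      u' * ((X (ob E p) * Y (α (ob E p))) * u) := by
    calc u' * (X (ob E p) * u) * (u' * (Y (α (ob E p)) * u))
        = u' * (X (ob E p) * (u * u') * Y (α (ob E p)) * u) := by
          simp only [Matrix.mul_assoc]
      _ = _ := by rw [hu, Matrix.mul_one]
  rw [h1, Matrix.trace_mul_comm, Matrix.mul_assoc, hu, Matrix.mul_one]

theorem aen_re_trace_conjTranspose (X : Mat r) : (Xᴴ).trace.re = X.trace.re := by
  rw [Matrix.trace_conjTranspose]
  simp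

theorem aen_pair_star (α : E →L[ℝ] E) {h : Mat r} (hh : h.PosDef) {D : E →L[ℝ] Mat r}
    (hD : HermF D) (w : E →L[ℝ] Mat r) :
    pair α (mc h D) (lmul h⁻¹ (rmul ((adjL r).comp w) h)) = pair α (mc h D) w := by
  unfold pair
  refine Finset.sum_congr rfl fun p _ => ?_
  have hdet : IsUnit h.det := (Matrix.isUnit_iff_isUnit_det h).1 hh.isUnit
  have h1 : h * h⁻¹ = 1 := Matrix.mul_nonsing_inv h hdet
  have h2 : (h⁻¹)ᴴ = h⁻¹ := hh.inv.isHermitian
  simp only [mc, lmul_apply, rmul_apply, ContinuousLinearMap.comp_apply, adjL_apply]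
  set Dp := D (ob E p) with hDp
  set wq := w (α (ob E p))
  have hDh : Dpᴴ = Dp := hD _
  have e1 : (h⁻¹ * Dp * (h⁻¹ * (wqᴴ * h))).trace = (Dp * h⁻¹ * wqᴴ).trace := by
    calc (h⁻¹ * Dp * (h⁻¹ * (wqᴴ * h))).trace
        = ((h⁻¹ * (Dp * h⁻¹ * wqᴴ)) * h).trace := by simp only [Matrix.mul_assoc]
      _ = (h * (h⁻¹ * (Dp * h⁻¹ * wqᴴ))).trace := Matrix.trace_mul_comm _ _
      _ = _ := by rw [← Matrix.mul_assoc, h1, Matrix.one_mul]
  have e2 : (Dp * h⁻¹ * wqᴴ)ᴴ = wq * (h⁻¹ * Dp) := by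
    rw [conjTranspose_mul, conjTranspose_mul, conjTranspose_conjTranspose, h2, hDh]
  rw [e1, ← aen_re_trace_conjTranspose, e2, Matrix.trace_mul_comm]

theorem aen_inv {z : Mat r} (hz : ‖z‖ ≤ 1 / 2) :
    ∃ n : Mat r, (1 + z) * (1 + n) = 1 ∧ (1 + n) * (1 + z) = 1 ∧ ‖n‖ ≤ 2 * ‖z‖ := by
  have hlt : ‖-z‖ < 1 := by rw [norm_neg]; linarith
  obtain ⟨U, hU⟩ := isUnit_one_sub_of_norm_lt_one hlt
  have hU' : (U : Mat r) = 1 + z := by rw [hU, sub_neg_eq_add]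
  have h1 : (1 + z) * (1 + ((U⁻¹ : (Mat r)ˣ) - 1 : Mat r)) = 1 := by
    rw [add_sub_cancel, ← hU', Units.mul_inv]
  have h2 : (1 + ((U⁻¹ : (Mat r)ˣ) - 1 : Mat r)) * (1 + z) = 1 := by
    rw [add_sub_cancel, ← hU', Units.inv_mul]
  refine ⟨_, h1, h2, ?_⟩
  generalize ((U⁻¹ : (Mat r)ˣ) - 1 : Mat r) = n at h1
  have h3 : n = -z - z * n := by
    have : (1 + z) * (1 + n) = 1 + n + z + z * n := by noncomm_ring
    rw [this] at h1
    have h4 : n + z + z * n = 0 := by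
      have := congrArg (fun x => x - 1) h1
      simp only [sub_self] at this
      rw [← this]; abel
    rw [← sub_eq_zero, ← h4]; abel
  have h5 : ‖n‖ ≤ ‖z‖ + ‖z‖ * ‖n‖ := by
    calc ‖n‖ = ‖-z - z * n‖ := by rw [← h3]
      _ ≤ ‖-z‖ + ‖z * n‖ := norm_sub_le _ _
      _ ≤ ‖z‖ + ‖z‖ * ‖n‖ := by rw [norm_neg]; exact add_le_add le_rfl (norm_mul_le _ _)
  nlinarith [norm_nonneg n, norm_nonneg z]

omit [FiniteDimensional ℝ E] in
theorem aen_norm_adj (w : E →L[ℝ] Mat r) : ‖(adjL r).comp w‖ ≤ ‖w‖ := by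
  refine ContinuousLinearMap.opNorm_le_bound _ (norm_nonneg _) fun v => ?_
  rw [ContinuousLinearMap.comp_apply, adjL_apply, Matrix.frobenius_norm_conjTranspose]
  exact w.le_opNorm v

omit [FiniteDimensional ℝ E] in
theorem aen_mc {h u u' : Mat r} (hh : h.PosDef) (hu : u * u' = 1) (hu' : u' * u = 1)
    (D W : E →L[ℝ] Mat r) :
    mc (gm h u) (dgm h u D W) = lmul u' (rmul (mc h D + (rmul W u' +
      lmul h⁻¹ (rmul ((adjL r).comp (rmul W u')) h))) u) := by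
  ext1 v
  have hdet : IsUnit h.det := (Matrix.isUnit_iff_isUnit_det h).1 hh.isUnit
  have h1 : ∀ X : Mat r, h⁻¹ * (h * X) = X := fun X => by
    rw [← Matrix.mul_assoc, Matrix.nonsing_inv_mul h hdet, Matrix.one_mul]
  have h2 : ∀ X : Mat r, u'ᴴ * (uᴴ * X) = X := fun X => by
    rw [← Matrix.mul_assoc, ← conjTranspose_mul, hu, conjTranspose_one, Matrix.one_mul]
  simp only [mc, dgm, gm_inv hh hu, lmul_apply, rmul_apply, _root_.add_apply,
    ContinuousLinearMap.comp_apply, adjL_apply, Matrix.mul_add, Matrix.add_mul,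
    conjTranspose_mul, Matrix.mul_assoc, h1, h2, hu', Matrix.mul_one]
  abel

theorem aen_fin {d a b M τ x y nA nR nS P Q : ℝ} (hd : 0 ≤ d) (ha : 0 ≤ a) (hb : 0 ≤ b)
    (hM : 0 ≤ M) (hτ : 0 ≤ τ) (hx : 0 ≤ x) (hy : 0 ≤ y) (hR : 0 ≤ nR) (hS : 0 ≤ nS)
    (h1 : nA ≤ b * x) (h2 : nR ≤ τ * y * (2 * (τ * M))) (h3 : nS ≤ (1 + b ^ 2) * (2 * (τ * y)))
    (hP : |P| ≤ d * a * nA * nR) (hQ : |Q| ≤ d * a * nS * nS) :
    |4 * P + Q| ≤ d * (4 * M * b + 4 * (1 + b ^ 2) ^ 2) * τ ^ 2 * a * (x ^ 2 + y ^ 2) := by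
  have b1 : |P| ≤ d * a * (b * x) * (τ * y * (2 * (τ * M))) :=
    hP.trans (mul_le_mul (mul_le_mul_of_nonneg_left h1 (by positivity)) h2 hR (by positivity))
  have b2 : |Q| ≤ d * a * ((1 + b ^ 2) * (2 * (τ * y))) * ((1 + b ^ 2) * (2 * (τ * y))) :=
    hQ.trans (mul_le_mul (mul_le_mul_of_nonneg_left h3 (by positivity)) h3 hS (by positivity))
  have hDW : 2 * (x * y) ≤ x ^ 2 + y ^ 2 := by nlinarith [sq_nonneg (x - y)]
  have hWW : y ^ 2 ≤ x ^ 2 + y ^ 2 := by nlinarith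
  calc |4 * P + Q| ≤ 4 * |P| + |Q| := by
        refine (abs_add_le _ _).trans ?_
        rw [abs_mul, abs_of_pos (by norm_num : (0 : ℝ) < 4)]
    _ ≤ 4 * (d * a * (b * x) * (τ * y * (2 * (τ * M)))) +
        d * a * ((1 + b ^ 2) * (2 * (τ * y))) * ((1 + b ^ 2) * (2 * (τ * y))) := by
        linarith
    _ = d * (4 * M * b) * τ ^ 2 * a * (2 * (x * y)) +
        d * (4 * (1 + b ^ 2) ^ 2) * τ ^ 2 * a * y ^ 2 := by ring
    _ ≤ d * (4 * M * b) * τ ^ 2 * a * (x ^ 2 + y ^ 2) +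
        d * (4 * (1 + b ^ 2) ^ 2) * τ ^ 2 * a * (x ^ 2 + y ^ 2) :=
        add_le_add (mul_le_mul_of_nonneg_left hDW (by positivity))
          (mul_le_mul_of_nonneg_left hWW (by positivity))
    _ = _ := by ring

/-- second order expansion of the energy density -/
theorem en_var (r : ℕ) {B M : ℝ} (hB : 1 ≤ B) (hM : 0 ≤ M) : ∃ K t₀ : ℝ, 0 ≤ K ∧ 0 < t₀ ∧
    ∀ (h ζ : Mat r) (D W : E →L[ℝ] Mat r) (α : E →L[ℝ] E) (t : ℝ), Bd B h → HermF D → ‖ζ‖ ≤ M →
      (∀ v w, ⟪α v, w⟫ = ⟪v, α w⟫) → |t| ≤ t₀ →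
      |en α (gm h (1 + t • ζ)) (dgm h (1 + t • ζ) D (t • W)) - en α h D -
        4 * t * pair α (mc h D) W| ≤ K * t ^ 2 * ‖α‖ * (‖D‖ ^ 2 + ‖W‖ ^ 2) := by
  have hB0 : 0 < B := by linarith
  set d : ℝ := (Module.finrank ℝ E : ℝ) with hd
  set b : ℝ := (r : ℝ) * B with hb
  have hd0 : 0 ≤ d := Nat.cast_nonneg _
  have hb0 : 0 ≤ b := mul_nonneg (Nat.cast_nonneg _) hB0.le
  refine ⟨d * (4 * M * b + 4 * (1 + b ^ 2) ^ 2), 1 / (2 * (M + 1)), by positivity, by positivity,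
    fun h ζ D W α t hh hD hζ hα ht => ?_⟩
  have hp : h.PosDef := hh.posDef hB0
  have ht0 : 0 ≤ |t| := abs_nonneg t
  have htM : |t| * M ≤ 1 / 2 := by
    have h1 : |t| * (2 * (M + 1)) ≤ 1 := by
      rwa [le_div_iff₀ (by positivity)] at ht
    nlinarith
  have hz : ‖t • ζ‖ ≤ |t| * M := by
    rw [norm_smul, Real.norm_eq_abs]
    exact mul_le_mul_of_nonneg_left hζ ht0
  obtain ⟨n, hu, hu', hn⟩ := aen_inv (hz.trans htM)
  have hn1 : ‖n‖ ≤ 2 * (|t| * M) := hn.trans (by linarith)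
  have hn2 : ‖n‖ ≤ 1 := hn1.trans (by linarith)
  set A := mc h D with hA
  set w := rmul (t • W) (1 + n) with hw
  set w' := lmul h⁻¹ (rmul ((adjL r).comp w) h) with hw'
  have hw1 : w = t • W + rmul (t • W) n := by
    ext1 v
    simp only [hw, rmul_apply, _root_.add_apply, Matrix.mul_add, Matrix.mul_one]
  have e1 : en α (gm h (1 + t • ζ)) (dgm h (1 + t • ζ) D (t • W)) =
      pair α (A + (w + w')) (A + (w + w')) := by
    rw [en, aen_mc hp hu hu', aen_pair_conj α hu]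
  have e2 : pair α A (w + w') = 2 * (t * pair α A W + pair α A (rmul (t • W) n)) := by
    rw [aen_pair_add_right, hw', aen_pair_star α hp hD, ← hA, ← two_mul]
    conv_lhs => rw [hw1]
    rw [aen_pair_add_right, aen_pair_smul_right]
  have e3 : en α (gm h (1 + t • ζ)) (dgm h (1 + t • ζ) D (t • W)) - en α h D -
      4 * t * pair α A W = 4 * pair α A (rmul (t • W) n) + pair α (w + w') (w + w') := by
    rw [e1, aen_pair_add_left, aen_pair_add_right α A A, aen_pair_add_right α (w + w') A,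
      pair_comm hα (w + w') A, e2, en, ← hA]
    ring
  have nA : ‖A‖ ≤ b * ‖D‖ :=
    (norm_lmul_le _ _).trans (mul_le_mul_of_nonneg_right (hh.norm_inv_le hB0) (norm_nonneg _))
  have nW : ‖t • W‖ = |t| * ‖W‖ := by rw [norm_smul, Real.norm_eq_abs]
  have nR : ‖rmul (t • W) n‖ ≤ |t| * ‖W‖ * (2 * (|t| * M)) := by
    refine (norm_rmul_le _ _).trans ?_
    rw [nW]
    exact mul_le_mul_of_nonneg_left hn1 (mul_nonneg ht0 (norm_nonneg _))
  have nw : ‖w‖ ≤ 2 * (|t| * ‖W‖) := by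
    rw [hw1]
    refine (norm_add_le _ _).trans ?_
    have := (norm_rmul_le (t • W) n).trans (mul_le_mul_of_nonneg_left hn2 (norm_nonneg _))
    rw [nW] at this ⊢
    linarith
  have nw' : ‖w'‖ ≤ b ^ 2 * ‖w‖ := by
    refine (norm_lmul_le _ _).trans ?_
    have h1 : ‖rmul ((adjL r).comp w) h‖ ≤ ‖w‖ * b :=
      (norm_rmul_le _ _).trans
        (mul_le_mul (aen_norm_adj w) (hh.norm_le hB0) (norm_nonneg _) (norm_nonneg _))
    calc ‖h⁻¹‖ * ‖rmul ((adjL r).comp w) h‖ ≤ b * (‖w‖ * b) :=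
          mul_le_mul (hh.norm_inv_le hB0) h1 (norm_nonneg _) hb0
      _ = b ^ 2 * ‖w‖ := by ring
  have nww : ‖w + w'‖ ≤ (1 + b ^ 2) * (2 * (|t| * ‖W‖)) := by
    calc ‖w + w'‖ ≤ ‖w‖ + b ^ 2 * ‖w‖ := (norm_add_le _ _).trans (add_le_add le_rfl nw')
      _ = (1 + b ^ 2) * ‖w‖ := by ring
      _ ≤ _ := mul_le_mul_of_nonneg_left nw (add_nonneg zero_le_one (sq_nonneg b))
  rw [e3, ← sq_abs t]
  exact aen_fin hd0 (norm_nonneg _) hb0 hM ht0 (norm_nonneg _) (norm_nonneg _) (norm_nonneg _)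
    (norm_nonneg _) nA nR nww (abs_pair_le _ _ _) (abs_pair_le _ _ _)

end Pool.Agent.PW
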