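import Pool.Agent.P.MP_65ad7c_ag.ANf
import Pool.Agent.P.MP_65ad7c_ag.ASg

open MeasureTheory Set Filter Topology Metric Matrix
open scoped ComplexOrder ContDiff Matrix.Norms.Frobenius RealInnerProductSpace ENNReal
open Pool.Agent.Lib.Sob

noncomputable section
namespace Pool.Agent.PW

variable {E : Type} [NormedAddCommGroup E] [InnerProductSpace ℝ E] [FiniteDimensional ℝ E] {r : ℕ}

variable {h h' : Mat r} {D D' : E →L[ℝ] Mat r} {α : E →L[ℝ] E}

theorem akey_det (hh : h.PosDef) : IsUnit h.det :=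
  (Matrix.isUnit_iff_isUnit_det h).1 hh.isUnit

theorem akey_mul_inv (hh : h.PosDef) : h * h⁻¹ = 1 := Matrix.mul_nonsing_inv h (akey_det hh)

theorem akey_inv_mul (hh : h.PosDef) : h⁻¹ * h = 1 := Matrix.nonsing_inv_mul h (akey_det hh)

theorem akey_mul_inv' (hh : h.PosDef) (X : Mat r) : h * (h⁻¹ * X) = X := by
  rw [← Matrix.mul_assoc, akey_mul_inv hh, Matrix.one_mul]

theorem akey_inv_mul' (hh : h.PosDef) (X : Mat r) : h⁻¹ * (h * X) = X := by
  rw [← Matrix.mul_assoc, akey_inv_mul hh, Matrix.one_mul]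

theorem akey_inv_herm (hh : h.PosDef) : (h⁻¹)ᴴ = h⁻¹ := hh.isHermitian.inv

omit [FiniteDimensional ℝ E] in
theorem akey_dk_apply (v : E) :
    dk h h' D D' v = h⁻¹ * D' v - h⁻¹ * (D v * (h⁻¹ * h')) := rfl

omit [FiniteDimensional ℝ E] in
theorem akey_mc_apply (v : E) : mc h D v = h⁻¹ * D v := rfl

omit [FiniteDimensional ℝ E] in
theorem akey_dsg_apply (v : E) :
    dsg h h' D D' v = (dk h h' D D' v).trace.re + (dk h' h D' D v).trace.re := by
  simp [dsg]

omit [FiniteDimensional ℝ E] in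
/-- the adjoint of `dk` for the positive form -/
theorem akey_adj (hh : h.PosDef) (hh' : h'.PosDef) (hD : HermF D) (hD' : HermF D') (w : E) :
    h'⁻¹ * (dk h h' D D' w)ᴴ * h = mc h' D' w - mc h D w := by
  rw [akey_dk_apply, akey_mc_apply, akey_mc_apply]
  simp only [conjTranspose_sub, conjTranspose_mul, akey_inv_herm hh, hD w, hD' w,
    hh'.isHermitian.eq, Matrix.mul_sub, Matrix.sub_mul, Matrix.mul_assoc, akey_inv_mul hh,
    akey_inv_mul' hh', Matrix.mul_one]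

omit [FiniteDimensional ℝ E] in
theorem akey_nf_dk (hh : h.PosDef) (hh' : h'.PosDef) (hD : HermF D) (hD' : HermF D')
    (X : Mat r) (w : E) :
    nf h' h X (dk h h' D D' w) = (X * (mc h' D' w - mc h D w)).trace.re := by
  rw [nf, ← akey_adj hh hh' hD hD' w]
  simp only [Matrix.mul_assoc]

omit [FiniteDimensional ℝ E] in
theorem akey_tr_dk (hh' : h'.PosDef) (v : E) :
    ((mc h' D' v - mc h D v) * (h⁻¹ * h')).trace = (dk h h' D D' v).trace := by
  rw [akey_dk_apply, akey_mc_apply, akey_mc_apply, Matrix.sub_mul, trace_sub, trace_sub,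
    trace_mul_comm (h'⁻¹ * D' v)]
  simp only [Matrix.mul_assoc, akey_mul_inv' hh']

theorem akey_qq (hh : h.PosDef) (hh' : h'.PosDef) (hD : HermF D) (hD' : HermF D')
    (hα : ∀ v w, ⟪α v, w⟫ = ⟪v, α w⟫) :
    qq α h h' D D' = pair α (mc h' D' - mc h D) (dkz h h' D D') := by
  rw [pair_comm hα, qq, npair, npair, pair, ← Finset.sum_add_distrib]
  refine Finset.sum_congr rfl fun i _ => ?_
  rw [akey_nf_dk hh hh' hD hD', akey_nf_dk hh' hh hD' hD, ← Complex.add_re, ← trace_add]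
  congr 2
  simp only [dkz, _root_.sub_apply, Matrix.mul_sub, Matrix.sub_mul]
  abel

/-- the key identity -/
theorem pair_key (hh : h.PosDef) (hh' : h'.PosDef) (hD : HermF D) (hD' : HermF D')
    (hα : ∀ v w, ⟪α v, w⟫ = ⟪v, α w⟫) (η : ℝ) (p : E →L[ℝ] ℝ) :
    pair α (mc h' D') (η • dkz h h' D D' + p.smulRight (kz h h')) -
      pair α (mc h D) (η • dkz h h' D D' + p.smulRight (kz h h')) =
      η * qq α h h' D D' + spair α (dsg h h' D D') p := by
  rw [akey_qq hh hh' hD hD' hα]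
  simp only [pair, spair, Finset.mul_sum, ← Finset.sum_sub_distrib, ← Finset.sum_add_distrib]
  refine Finset.sum_congr rfl fun i _ => ?_
  have h1 := akey_tr_dk (h := h) (D := D) (D' := D') hh' (ob E i)
  have h2 := akey_tr_dk (h := h') (D := D') (D' := D) hh (ob E i)
  rw [akey_dsg_apply, ← h1, ← h2]
  simp only [_root_.add_apply, _root_.smul_apply,
    ContinuousLinearMap.smulRight_apply, _root_.sub_apply, kz, Matrix.mul_add,
    Matrix.mul_smul, Matrix.mul_sub, Matrix.sub_mul, trace_add, trace_sub, trace_smul,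
    Complex.add_re, Complex.sub_re, Complex.smul_re, smul_eq_mul]
  ring

theorem qq_nonneg (hh : h.PosDef) (hh' : h'.PosDef) (hα : ∀ v w, ⟪α v, w⟫ = ⟪v, α w⟫)
    (hp : ∀ v, 0 ≤ ⟪v, α v⟫) : 0 ≤ qq α h h' D D' :=
  add_nonneg (npair_nonneg hh' hh hα hp _) (npair_nonneg hh hh' hα hp _)

theorem akey_nf_add (P Q X X' Y : Mat r) : nf P Q (X + X') Y = nf P Q X Y + nf P Q X' Y := by
  simp [nf, Matrix.add_mul]

theorem akey_nf_smul (P Q X Y : Mat r) (c : ℝ) : nf P Q (c • X) Y = c * nf P Q X Y := by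
  simp [nf]

theorem akey_nf_add' (P Q X Y Y' : Mat r) : nf P Q X (Y + Y') = nf P Q X Y + nf P Q X Y' := by
  simp [nf, Matrix.add_mul, Matrix.mul_add]

theorem akey_nf_smul' (P Q X Y : Mat r) (c : ℝ) : nf P Q X (c • Y) = c * nf P Q X Y := by
  simp [nf]

theorem akey_cs {a b s t m n : ℝ} (hs : 0 ≤ s) (ht : 0 ≤ t) (hm : 0 ≤ m) (hn : 0 ≤ n)
    (ha : a ^ 2 ≤ m * s) (hb : b ^ 2 ≤ n * t) : (a + b) ^ 2 ≤ (s + t) * (m + n) := by
  have h1 : (2 * a * b) ^ 2 ≤ (s * n + t * m) ^ 2 := by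
    have h2 : a ^ 2 * b ^ 2 ≤ (m * s) * (n * t) :=
      mul_le_mul ha hb (sq_nonneg b) (mul_nonneg hm hs)
    nlinarith [sq_nonneg (s * n - t * m)]
  have h3 : 2 * a * b ≤ s * n + t * m :=
    le_of_sq_le_sq h1 (add_nonneg (mul_nonneg hs hn) (mul_nonneg ht hm))
  nlinarith

/-- Cauchy-Schwarz for the contraction -/
theorem akey_contr (hh : h.PosDef) (hh' : h'.PosDef) (hα : ∀ v w, ⟪α v, w⟫ = ⟪v, α w⟫)
    (hp : ∀ v, 0 ≤ ⟪v, α v⟫) (X X' : E →L[ℝ] Mat r) (Y Y' : Mat r) (p : E →L[ℝ] ℝ)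
    (hpv : ∀ v, p v = nf h' h (X v) Y + nf h h' (X' v) Y') :
    spair α p p ≤ (nf h' h Y Y + nf h h' Y' Y') * (npair α h' h X + npair α h h' X') := by
  set s := nf h' h Y Y + nf h h' Y' Y' with hs
  let B : E →ₗ[ℝ] E →ₗ[ℝ] ℝ := LinearMap.mk₂ ℝ
    (fun v w => s * (nf h' h (X v) (X w) + nf h h' (X' v) (X' w)) - p v * p w)
    (fun v v' w => by simp only [map_add, akey_nf_add]; ring)
    (fun c v w => by simp only [map_smul, akey_nf_smul, smul_eq_mul]; ring)
    (fun v w w' => by simp only [map_add, akey_nf_add']; ring)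
    (fun c v w => by simp only [map_smul, akey_nf_smul', smul_eq_mul]; ring)
  have hB : ∀ v w, B v w = s * (nf h' h (X v) (X w) + nf h h' (X' v) (X' w)) - p v * p w :=
    fun v w => rfl
  have key := contr_ge (l := 0) B
    (fun v w => by rw [hB, hB, nf_comm hh' hh (X v), nf_comm hh hh' (X' v), mul_comm (p v)])
    (fun v => by
      rw [hB, ← sq, hpv v, sub_nonneg]
      exact akey_cs (nf_nonneg hh' hh _) (nf_nonneg hh hh' _) (nf_nonneg hh' hh _)
        (nf_nonneg hh hh' _) (nf_sq_le hh' hh _ _) (nf_sq_le hh hh' _ _))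
    hα (fun v => by simpa using hp v)
  simp only [hB, zero_mul, Finset.sum_sub_distrib, ← Finset.mul_sum, Finset.sum_add_distrib,
    sub_nonneg] at key
  exact key

theorem akey_nf_k (hh : h.PosDef) (hh' : h'.PosDef) (X : Mat r) :
    nf h' h X (h⁻¹ * h') = X.trace.re := by
  simp only [nf, conjTranspose_mul, akey_inv_herm hh, hh'.isHermitian.eq, Matrix.mul_assoc,
    akey_inv_mul hh, akey_inv_mul hh', Matrix.mul_one]

theorem spair_dsg_le (hh : h.PosDef) (hh' : h'.PosDef) (hα : ∀ v w, ⟪α v, w⟫ = ⟪v, α w⟫)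
    (hp : ∀ v, 0 ≤ ⟪v, α v⟫) :
    spair α (dsg h h' D D') (dsg h h' D D') ≤ sg h h' * qq α h h' D D' := by
  have key := akey_contr hh hh' hα hp (dk h h' D D') (dk h' h D' D) (h⁻¹ * h') (h'⁻¹ * h)
    (dsg h h' D D') fun v => by rw [akey_nf_k hh hh', akey_nf_k hh' hh, akey_dsg_apply]
  rwa [akey_nf_k hh hh', akey_nf_k hh' hh] at key

theorem akey_nf_k1 (hh : h.PosDef) (hh' : h'.PosDef) (X : Mat r) :
    nf h' h X (h⁻¹ * h' - 1) = X.trace.re - (X * (h'⁻¹ * h)).trace.re := by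
  rw [← akey_nf_k hh hh' X]
  simp only [nf, conjTranspose_sub, conjTranspose_one, Matrix.mul_sub, Matrix.sub_mul,
    Matrix.mul_one, trace_sub, Complex.sub_re, Matrix.mul_assoc]

omit [FiniteDimensional ℝ E] in
theorem akey_tr_dk' (hh : h.PosDef) (hh' : h'.PosDef) (v : E) :
    (dk h h' D D' v * (h'⁻¹ * h)).trace = (h'⁻¹ * D' v).trace - (h⁻¹ * D v).trace := by
  rw [akey_dk_apply, Matrix.sub_mul, trace_sub, trace_mul_comm (h⁻¹ * D' v)]
  simp only [Matrix.mul_assoc, akey_mul_inv' hh, akey_mul_inv' hh', akey_inv_mul hh,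
    Matrix.mul_one]

theorem spair_dsg_le' (hh : h.PosDef) (hh' : h'.PosDef) (hα : ∀ v w, ⟪α v, w⟫ = ⟪v, α w⟫)
    (hp : ∀ v, 0 ≤ ⟪v, α v⟫) :
    spair α (dsg h h' D D') (dsg h h' D D') ≤ 2 * (sg h h' - 2 * r) * qq α h h' D D' := by
  have key := akey_contr hh hh' hα hp (dk h h' D D') (dk h' h D' D) (h⁻¹ * h' - 1)
    (h'⁻¹ * h - 1) (dsg h h' D D') fun v => by
      rw [akey_nf_k1 hh hh', akey_nf_k1 hh' hh, akey_dsg_apply, akey_tr_dk' hh hh',
        akey_tr_dk' hh' hh, Complex.sub_re, Complex.sub_re]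
      ring
  rw [← sg_sub_eq hh hh', ← sg_sub_eq hh' hh, sg_comm h' h, ← two_mul] at key
  exact key

theorem dk_symm (hh : h.PosDef) (hh' : h'.PosDef) :
    dk h' h D' D = -lmul (h'⁻¹ * h) (rmul (dk h h' D D') (h'⁻¹ * h)) := by
  ext1 v
  simp only [_root_.neg_apply, lmul_apply, rmul_apply, akey_dk_apply,
    Matrix.mul_sub, Matrix.sub_mul, Matrix.mul_assoc, akey_mul_inv' hh, akey_mul_inv' hh',
    akey_inv_mul hh, Matrix.mul_one, neg_sub]

end Pool.Agent.PW
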