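import Pool.Agent.P.MP_65ad7c_ag.ANf0

open MeasureTheory Set Filter Topology Metric Matrix
open scoped ComplexOrder ContDiff Matrix.Norms.Frobenius RealInnerProductSpace ENNReal
open Pool.Agent.Lib.Sob

noncomputable section
namespace Pool.Agent.PW

variable {E : Type} [NormedAddCommGroup E] [InnerProductSpace ℝ E] [FiniteDimensional ℝ E] {r : ℕ}

variable {P Q h : Mat r} {C l L : ℝ} {α : E →L[ℝ] E}

/-- the bilinear form `(v, w) ↦ re tr (X v * M * T (Y w) * N)` -/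
def anfB (M N : Mat r) (T : Mat r →L[ℝ] Mat r) (X Y : E →L[ℝ] Mat r) : E →ₗ[ℝ] E →ₗ[ℝ] ℝ :=
  LinearMap.mk₂ ℝ (fun v w => trL r (X v * M * T (Y w) * N))
    (fun _ _ _ => by simp only [map_add, add_mul])
    (fun _ _ _ => by simp only [map_smul, smul_mul_assoc])
    (fun _ _ _ => by simp only [map_add, add_mul, mul_add])
    (fun _ _ _ => by simp only [map_smul, smul_mul_assoc, mul_smul_comm])

/-- the bilinear form `(v, w) ↦ p v * q w` -/
def anfS (p q : E →L[ℝ] ℝ) : E →ₗ[ℝ] E →ₗ[ℝ] ℝ :=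
  LinearMap.mk₂ ℝ (fun v w => p v * q w) (fun _ _ _ => by simp only [map_add, add_mul])
    (fun _ _ _ => by simp only [map_smul, smul_mul_assoc])
    (fun _ _ _ => by simp only [map_add, mul_add])
    (fun _ _ _ => by simp only [map_smul, mul_smul_comm])

theorem anf_sum_le (α : E →L[ℝ] E) {V W : Type} [NormedAddCommGroup V] [NormedSpace ℝ V]
    [NormedAddCommGroup W] [NormedSpace ℝ W] (X : E →L[ℝ] V) (Y : E →L[ℝ] W)
    (f : Fin (Module.finrank ℝ E) → ℝ) (hf : ∀ p, |f p| ≤ ‖X (ob E p)‖ * ‖Y (α (ob E p))‖) :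
    |∑ p, f p| ≤ Module.finrank ℝ E * ‖α‖ * ‖X‖ * ‖Y‖ := by
  refine (Finset.abs_sum_le_sum_abs _ _).trans
    ((Finset.sum_le_card_nsmul _ _ (‖α‖ * ‖X‖ * ‖Y‖) fun p _ => (hf p).trans ?_).trans_eq ?_)
  · have h0 : ‖ob E p‖ = 1 := (ob E).orthonormal.1 p
    have h1 := X.le_opNorm (ob E p)
    have h2 := α.le_opNorm (ob E p)
    rw [h0, mul_one] at h1 h2
    calc _ ≤ ‖X‖ * (‖Y‖ * ‖α‖) := mul_le_mul h1 (Y.le_of_opNorm_le_of_le le_rfl h2)
          (norm_nonneg _) (norm_nonneg _)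
      _ = _ := by ring
  · simp [mul_assoc]

theorem npair_ge (hP : P.PosDef) (hQ : Q.PosDef) (hα : ∀ v w, ⟪α v, w⟫ = ⟪v, α w⟫)
    (hl : ∀ v, l * ‖v‖ ^ 2 ≤ ⟪v, α v⟫) (X : E →L[ℝ] Mat r) :
    l * npair (ContinuousLinearMap.id ℝ E) P Q X ≤ npair α P Q X := by
  exact contr_ge (anfB P⁻¹ Q (adjL r) X X) (fun _ _ => nf_comm hP hQ _ _)
    (fun _ => nf_nonneg hP hQ _) hα hl

theorem npair_nonneg (hP : P.PosDef) (hQ : Q.PosDef) (hα : ∀ v w, ⟪α v, w⟫ = ⟪v, α w⟫)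
    (hl : ∀ v, 0 ≤ ⟪v, α v⟫) (X : E →L[ℝ] Mat r) : 0 ≤ npair α P Q X := by
  simpa using npair_ge (l := 0) hP hQ hα (by simpa using hl) X

theorem norm_sq_le_npair (hC : 0 < C) (hP : Bd C P) (hQ : Bd C Q) (hl : 0 ≤ l) (hα : Ell l L α)
    (X : E →L[ℝ] Mat r) : l * ‖X‖ ^ 2 ≤ C ^ 2 * npair α P Q X := by
  have h1 : ‖X‖ ^ 2 ≤ C ^ 2 * npair (ContinuousLinearMap.id ℝ E) P Q X := by
    rw [npair, Finset.mul_sum]
    exact (norm_sq_le_sum X).trans (Finset.sum_le_sum fun p _ => le_nf hC hP hQ _)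
  have h2 := npair_ge (hP.posDef hC) (hQ.posDef hC) hα.1 hα.2.1 X
  calc _ ≤ l * (C ^ 2 * npair (ContinuousLinearMap.id ℝ E) P Q X) :=
        mul_le_mul_of_nonneg_left h1 hl
    _ = C ^ 2 * (l * npair (ContinuousLinearMap.id ℝ E) P Q X) := by ring
    _ ≤ _ := mul_le_mul_of_nonneg_left h2 (sq_nonneg C)

theorem en_eq_npair (hh : h.PosDef) {D : E →L[ℝ] Mat r} (hD : HermF D) (α : E →L[ℝ] E) :
    en α h D = npair α h h (mc h D) := by
  rw [en, pair, npair]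
  refine Finset.sum_congr rfl fun p _ => ?_
  simp only [mc, nf, lmul_apply, conjTranspose_mul, hD _, hh.inv.isHermitian.eq, Matrix.mul_assoc,
    Matrix.nonsing_inv_mul h (isUnit_iff_isUnit_det h |>.1 hh.isUnit), Matrix.mul_one]

theorem abs_pair_le (α : E →L[ℝ] E) (X Y : E →L[ℝ] Mat r) :
    |pair α X Y| ≤ Module.finrank ℝ E * ‖α‖ * ‖X‖ * ‖Y‖ := by
  exact anf_sum_le α X Y _ fun p => (Complex.abs_re_le_norm _).trans (abs_trace_mul_le _ _)

theorem abs_spair_le (α : E →L[ℝ] E) (p q : E →L[ℝ] ℝ) :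
    |spair α p q| ≤ Module.finrank ℝ E * ‖α‖ * ‖p‖ * ‖q‖ := by
  exact anf_sum_le α p q _ fun i => (abs_mul _ _).le

theorem le_spair (hl : 0 ≤ l) (hα : Ell l L α) (p : E →L[ℝ] ℝ) : l * ‖p‖ ^ 2 ≤ spair α p p := by
  have h1 := contr_ge (anfS p p) (fun _ _ => mul_comm _ _) (fun _ => mul_self_nonneg _) hα.1 hα.2.1
  refine (mul_le_mul_of_nonneg_left ((norm_sq_le_sum p).trans_eq ?_) hl).trans h1
  exact Finset.sum_congr rfl fun i _ => (sq_abs _).trans (sq _)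

theorem pair_comm (hα : ∀ v w, ⟪α v, w⟫ = ⟪v, α w⟫) (X Y : E →L[ℝ] Mat r) :
    pair α X Y = pair α Y X := by
  have h1 := contr_symm (anfB 1 1 (ContinuousLinearMap.id ℝ _) X Y) hα
  simp only [anfB, LinearMap.mk₂_apply, Matrix.mul_one, ContinuousLinearMap.id_apply,
    trL_apply] at h1
  rw [pair, h1]
  exact Finset.sum_congr rfl fun p _ => by rw [trace_mul_comm]

theorem spair_comm (hα : ∀ v w, ⟪α v, w⟫ = ⟪v, α w⟫) (p q : E →L[ℝ] ℝ) :
    spair α p q = spair α q p := by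
  exact (contr_symm (anfS p q) hα).trans (Finset.sum_congr rfl fun _ _ => mul_comm _ _)

theorem norm_lmul_le (P : Mat r) (X : E →L[ℝ] Mat r) : ‖lmul P X‖ ≤ ‖P‖ * ‖X‖ := by
  refine ContinuousLinearMap.opNorm_le_bound _ (by positivity) fun v => ?_
  rw [mul_assoc]
  exact (norm_mul_le _ _).trans (mul_le_mul_of_nonneg_left (X.le_opNorm v) (norm_nonneg _))

theorem norm_rmul_le (X : E →L[ℝ] Mat r) (P : Mat r) : ‖rmul X P‖ ≤ ‖X‖ * ‖P‖ := by
  refine ContinuousLinearMap.opNorm_le_bound _ (by positivity) fun v => ?_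
  rw [mul_right_comm]
  exact (norm_mul_le _ _).trans (mul_le_mul_of_nonneg_right (X.le_opNorm v) (norm_nonneg _))

theorem lmul_mc (hh : h.PosDef) (D : E →L[ℝ] Mat r) : lmul h (mc h D) = D := by
  refine ContinuousLinearMap.ext fun v => ?_
  simp only [mc, lmul_apply, ← Matrix.mul_assoc,
    Matrix.mul_nonsing_inv h (isUnit_iff_isUnit_det h |>.1 hh.isUnit), Matrix.one_mul]

theorem mc_smul (hh : h.PosDef) {t : ℝ} (ht : 0 < t) (D : E →L[ℝ] Mat r) :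
    mc (t • h) (t • D) = mc h D := by
  have h1 : (t • h)⁻¹ = t⁻¹ • h⁻¹ := Matrix.inv_eq_left_inv (by
    rw [smul_mul_smul_comm, inv_mul_cancel₀ ht.ne', one_smul,
      Matrix.nonsing_inv_mul h (isUnit_iff_isUnit_det h |>.1 hh.isUnit)])
  refine ContinuousLinearMap.ext fun v => ?_
  simp only [mc, lmul_apply, h1, _root_.smul_apply, smul_mul_smul_comm,
    inv_mul_cancel₀ ht.ne', one_smul]

/-- uniform ellipticity on compact sets -/
theorem Coef.ell {U K : Set E} {α : E → E →L[ℝ] E} (h : Coef U α) (hK : IsCompact K)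
    (hKU : K ⊆ U) : ∃ l L : ℝ, 0 < l ∧ ∀ x ∈ K, Ell l L (α x) := by
  have hc : ContinuousOn α K := h.1.continuousOn.mono hKU
  obtain ⟨L, hL⟩ := hK.exists_bound_of_continuousOn hc
  have hc2 : ContinuousOn (fun z : E × E => ⟪z.2, α z.1 z.2⟫) (K ×ˢ sphere 0 1) :=
    ContinuousOn.inner (𝕜 := ℝ) continuousOn_snd
      ((hc.comp continuousOn_fst fun _ hz => hz.1).clm_apply continuousOn_snd)
  obtain ⟨l, hl, h1⟩ := (hK.prod (isCompact_sphere (0 : E) 1)).exists_forall_le' hc2 (a := 0)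
    fun z hz => (h.2 z.1 (hKU hz.1)).2 z.2 (ne_of_mem_sphere hz.2 one_ne_zero)
  refine ⟨l, L, hl, fun x hx => ⟨(h.2 x (hKU hx)).1, fun v => ?_, hL x hx⟩⟩
  rcases eq_or_ne v 0 with rfl | hv
  · simp
  have h0 : 0 < ‖v‖ := norm_pos_iff.2 hv
  have h2 := h1 (x, ‖v‖⁻¹ • v) ⟨hx, by simp [norm_smul, h0.ne']⟩
  simp only [map_smul, real_inner_smul_left, real_inner_smul_right] at h2
  rw [← le_div_iff₀ (by positivity)]
  refine h2.trans_eq ?_
  field_simp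

end Pool.Agent.PW
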