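import Pool.Agent.P.MP_65ad7c_ag.ABd

open MeasureTheory Set Filter Topology Metric Matrix
open scoped ComplexOrder ContDiff Matrix.Norms.Frobenius RealInnerProductSpace ENNReal
open Pool.Agent.Lib.Sob

noncomputable section
namespace Pool.Agent.PW

variable {E : Type} [NormedAddCommGroup E] [InnerProductSpace ℝ E] [FiniteDimensional ℝ E] {r : ℕ}

variable {P Q h : Mat r} {C l L : ℝ} {α : E →L[ℝ] E}

theorem nf_comm (hP : P.PosDef) (hQ : Q.PosDef) (X Y : Mat r) : nf P Q X Y = nf P Q Y X := by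
  have h1 : (X * P⁻¹ * Yᴴ * Q)ᴴ = Q * (Y * P⁻¹ * Xᴴ) := by
    simp only [conjTranspose_mul, conjTranspose_conjTranspose, hQ.isHermitian.eq,
      hP.inv.isHermitian.eq, Matrix.mul_assoc]
  have h2 : (Y * P⁻¹ * Xᴴ * Q).trace = star (X * P⁻¹ * Yᴴ * Q).trace := by
    rw [← trace_conjTranspose, h1, trace_mul_comm]
  simp only [nf, h2]
  simp

theorem nf_nonneg (hP : P.PosDef) (hQ : Q.PosDef) (X : Mat r) : 0 ≤ nf P Q X X :=
  trace_mul_nonneg (hP.inv.posSemidef.mul_mul_conjTranspose_same X) hQ.posSemidef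

theorem anf0_expand (X Y : Mat r) (t : ℝ) : nf P Q (t • X + Y) (t • X + Y) =
    nf P Q X X * (t * t) + (nf P Q X Y + nf P Q Y X) * t + nf P Q Y Y := by
  have e : (t • X + Y)ᴴ = t • Xᴴ + Yᴴ := by
    ext i j; simp
  simp only [nf, e, Matrix.add_mul, Matrix.mul_add, Matrix.smul_mul, Matrix.mul_smul, trace_add,
    trace_smul, Complex.add_re, Complex.real_smul, Complex.re_ofReal_mul]
  ring

theorem nf_sq_le (hP : P.PosDef) (hQ : Q.PosDef) (X Y : Mat r) :
    nf P Q X Y ^ 2 ≤ nf P Q X X * nf P Q Y Y := by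
  have h := discrim_le_zero (a := nf P Q X X) (b := nf P Q X Y + nf P Q Y X) (c := nf P Q Y Y)
    fun t => by rw [← anf0_expand]; exact nf_nonneg hP hQ _
  rw [discrim, ← nf_comm hP hQ X Y] at h
  nlinarith

theorem anf0_norm_sq (X : Mat r) : ‖X‖ ^ 2 = (X * Xᴴ).trace.re := by
  rw [Matrix.frobenius_norm_def, ← Real.sqrt_eq_rpow, Real.sq_sqrt (by positivity)]
  simp only [trace, diag, Matrix.mul_apply, conjTranspose_apply, Complex.re_sum]
  refine Finset.sum_congr rfl fun i _ => Finset.sum_congr rfl fun j _ => ?_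
  rw [Complex.star_def, Complex.mul_conj, Complex.normSq_eq_norm_sq, Complex.ofReal_re,
    Real.rpow_two]

theorem anf0_tr_nonneg (hP : P.PosSemidef) : 0 ≤ P.trace.re := by
  simpa using trace_mul_nonneg hP PosSemidef.one

theorem le_nf (hC : 0 < C) (hP : Bd C P) (hQ : Bd C Q) (X : Mat r) :
    ‖X‖ ^ 2 ≤ C ^ 2 * nf P Q X X := by
  have hP' := (hP.posDef hC).inv.posSemidef.mul_mul_conjTranspose_same X
  have h1 := trace_mul_nonneg hP' hQ.1
  have h2 := anf0_tr_nonneg ((hP.inv hC).1.mul_mul_conjTranspose_same X)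
  simp only [Matrix.mul_sub, Matrix.sub_mul, Matrix.mul_smul, Matrix.smul_mul, Matrix.mul_one,
    trace_sub, trace_smul, Complex.sub_re, Complex.real_smul, Complex.re_ofReal_mul] at h1 h2
  rw [anf0_norm_sq, nf]
  have e : C⁻¹ * C = 1 := inv_mul_cancel₀ hC.ne'
  set a := (X * Xᴴ).trace.re
  set b := (X * P⁻¹ * Xᴴ).trace.re
  set c := (X * P⁻¹ * Xᴴ * Q).trace.re
  have h3 : a ≤ C * b := by
    have := mul_nonneg hC.le h2
    rw [mul_sub, ← mul_assoc, mul_comm C C⁻¹, e, one_mul] at this; linarith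
  have h4 : b ≤ C * c := by
    have := mul_nonneg hC.le h1
    rw [mul_sub, ← mul_assoc, mul_comm C C⁻¹, e, one_mul] at this; linarith
  nlinarith [mul_le_mul_of_nonneg_left h4 hC.le]

theorem nf_le (hC : 0 < C) (hP : Bd C P) (hQ : Bd C Q) (X : Mat r) :
    nf P Q X X ≤ C ^ 2 * ‖X‖ ^ 2 := by
  have hP' := (hP.posDef hC).inv.posSemidef.mul_mul_conjTranspose_same X
  have h1 := trace_mul_nonneg hP' hQ.2
  have h2 := anf0_tr_nonneg ((hP.inv hC).2.mul_mul_conjTranspose_same X)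
  simp only [Matrix.mul_sub, Matrix.sub_mul, Matrix.mul_smul, Matrix.smul_mul, Matrix.mul_one,
    trace_sub, trace_smul, Complex.sub_re, Complex.real_smul, Complex.re_ofReal_mul] at h1 h2
  rw [anf0_norm_sq, nf]
  set a := (X * Xᴴ).trace.re
  set b := (X * P⁻¹ * Xᴴ).trace.re
  set c := (X * P⁻¹ * Xᴴ * Q).trace.re
  nlinarith [mul_nonneg hC.le h2]

theorem anf0_indep {V ι κ : Type} [AddCommGroup V] [Module ℝ V] [Fintype ι] [Fintype κ]
    (B : E →ₗ[ℝ] E →ₗ[ℝ] V) (e : OrthonormalBasis ι ℝ E) (b : OrthonormalBasis κ ℝ E) :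
    ∑ p, B (e p) (e p) = ∑ i, B (b i) (b i) := by
  have h1 : ∀ p, B (e p) (e p) = ∑ i, ⟪b i, e p⟫ • B (b i) (e p) := fun p => by
    conv_lhs => rw [show B (e p) = B (∑ i, ⟪b i, e p⟫ • b i) by rw [b.sum_repr']]
    rw [map_sum, LinearMap.sum_apply]
    refine Finset.sum_congr rfl fun i _ => ?_
    rw [map_smul, LinearMap.smul_apply]
  have h2 : ∀ i, B (b i) (b i) = ∑ p, ⟪b i, e p⟫ • B (b i) (e p) := fun i => by
    conv_lhs => rw [show B (b i) (b i) = B (b i) (∑ p, ⟪e p, b i⟫ • e p) by rw [e.sum_repr']]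
    rw [map_sum]
    refine Finset.sum_congr rfl fun p _ => ?_
    rw [map_smul, real_inner_comm]
  simp only [h1]
  rw [Finset.sum_comm]
  exact Finset.sum_congr rfl fun i _ => (h2 i).symm

/-- contraction of a positive symmetric bilinear form with `α ≥ l` -/
theorem contr_ge (B : E →ₗ[ℝ] E →ₗ[ℝ] ℝ) (hs : ∀ v w, B v w = B w v) (hp : ∀ v, 0 ≤ B v v)
    (hα : ∀ v w, ⟪α v, w⟫ = ⟪v, α w⟫) (hl : ∀ v, l * ‖v‖ ^ 2 ≤ ⟪v, α v⟫) :
    l * ∑ p, B (ob E p) (ob E p) ≤ ∑ p, B (ob E p) (α (ob E p)) := by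
  have hsym : (α : E →ₗ[ℝ] E).IsSymmetric := hα
  set b := hsym.eigenvectorBasis rfl with hb
  have h1 := anf0_indep (B.compl₂ (α : E →ₗ[ℝ] E)) (ob E) b
  simp only [LinearMap.compl₂_apply, ContinuousLinearMap.coe_coe] at h1
  rw [h1, anf0_indep B (ob E) b, Finset.mul_sum]
  refine Finset.sum_le_sum fun i _ => ?_
  have h2 : α (b i) = hsym.eigenvalues rfl i • b i := hsym.apply_eigenvectorBasis rfl i
  have h3 := hl (b i)
  rw [h2, inner_smul_right, real_inner_self_eq_norm_sq, b.orthonormal.1 i] at h3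
  rw [h2, map_smul, smul_eq_mul]
  exact mul_le_mul_of_nonneg_right (by simpa using h3) (hp _)

/-- the contraction of a bilinear map with a symmetric `α` is symmetric -/
theorem contr_symm {V : Type} [AddCommGroup V] [Module ℝ V] (B : E →ₗ[ℝ] E →ₗ[ℝ] V)
    (hα : ∀ v w, ⟪α v, w⟫ = ⟪v, α w⟫) :
    ∑ p, B (ob E p) (α (ob E p)) = ∑ p, B (α (ob E p)) (ob E p) := by
  have h1 : ∀ p, B (ob E p) (α (ob E p)) =
      ∑ q, ⟪ob E q, α (ob E p)⟫ • B (ob E p) (ob E q) := fun p => by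
    conv_lhs => rw [← (ob E).sum_repr' (α (ob E p))]
    rw [map_sum]
    exact Finset.sum_congr rfl fun q _ => map_smul _ _ _
  have h2 : ∀ q, B (α (ob E q)) (ob E q) =
      ∑ p, ⟪ob E q, α (ob E p)⟫ • B (ob E p) (ob E q) := fun q => by
    conv_lhs => rw [← (ob E).sum_repr' (α (ob E q))]
    rw [map_sum, LinearMap.sum_apply]
    refine Finset.sum_congr rfl fun p _ => ?_
    rw [map_smul, LinearMap.smul_apply, ← hα (ob E q), real_inner_comm]
  simp only [h1, h2]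
  exact Finset.sum_comm

theorem norm_sq_le_sum {V : Type} [NormedAddCommGroup V] [NormedSpace ℝ V] (X : E →L[ℝ] V) :
    ‖X‖ ^ 2 ≤ ∑ p, ‖X (ob E p)‖ ^ 2 := by
  have h0 : 0 ≤ ∑ p, ‖X (ob E p)‖ ^ 2 := Finset.sum_nonneg fun _ _ => sq_nonneg _
  rw [← Real.le_sqrt (norm_nonneg _) h0]
  refine X.opNorm_le_bound (Real.sqrt_nonneg _) fun v => ?_
  have h1 : ‖X v‖ ≤ ∑ p, ‖X (ob E p)‖ * |⟪ob E p, v⟫| := by
    conv_lhs => rw [← (ob E).sum_repr' v, map_sum]
    refine (norm_sum_le _ _).trans (Finset.sum_le_sum fun p _ => ?_)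
    rw [map_smul, norm_smul, Real.norm_eq_abs, mul_comm]
  have h2 := Finset.sum_mul_sq_le_sq_mul_sq Finset.univ (fun p => ‖X (ob E p)‖)
    (fun p => |⟪ob E p, v⟫|)
  have h3 : ∑ p, |⟪ob E p, v⟫| ^ 2 = ‖v‖ ^ 2 := by
    simpa using (ob E).sum_sq_norm_inner_right v
  rw [h3] at h2
  refine h1.trans ?_
  rw [← Real.sqrt_sq (norm_nonneg v), ← Real.sqrt_mul h0]
  exact Real.le_sqrt_of_sq_le h2

end Pool.Agent.PW
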