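import Pool.Agent.P.MP_65ad7c_ag.ANf
import Pool.Agent.P.MP_65ad7c_ag.ASg

open MeasureTheory Set Filter Topology Metric Matrix
open scoped ComplexOrder ContDiff Matrix.Norms.Frobenius RealInnerProductSpace ENNReal
open Pool.Agent.Lib.Sob

noncomputable section
namespace Pool.Agent.PW

variable {E : Type} [NormedAddCommGroup E] [InnerProductSpace ℝ E] [FiniteDimensional ℝ E] {r : ℕ}

/-- unitary diagonalisation -/
theorem avar_unit {Q : Mat r} (hQ : Q.IsHermitian) :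
    ∃ (U : Mat r) (μ : Fin r → ℝ), U * Uᴴ = 1 ∧ Uᴴ * U = 1 ∧
      gm Q U = diagonal fun i => (μ i : ℂ) := by
  refine ⟨hQ.eigenvectorUnitary, hQ.eigenvalues, ?_, ?_, ?_⟩
  · exact Unitary.coe_mul_star_self hQ.eigenvectorUnitary
  · exact Unitary.coe_star_mul_self hQ.eigenvectorUnitary
  · have h := hQ.conjStarAlgAut_star_eigenvectorUnitary
    rw [Unitary.conjStarAlgAut_star_apply] at h
    exact h

theorem avar_gm_herm {Q : Mat r} (hQ : Q.IsHermitian) (u : Mat r) : (gm Q u).IsHermitian := by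
  unfold gm
  exact isHermitian_conjTranspose_mul_mul u hQ

theorem avar_gm_diag (a b : Fin r → ℝ) :
    gm (diagonal fun i => (a i : ℂ)) (diagonal fun i => (b i : ℂ)) =
      diagonal fun i => ((a i * b i ^ 2 : ℝ) : ℂ) := by
  unfold gm
  rw [diagonal_conjTranspose, diagonal_mul_diagonal, diagonal_mul_diagonal]
  congr 1
  funext i
  simp only [Pi.star_apply, RCLike.star_def, Complex.conj_ofReal]
  push_cast
  ring

theorem avar_normalise {P : Mat r} (hP : P.PosDef) :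
    ∃ u u' : Mat r, u * u' = 1 ∧ gm P u = 1 := by
  obtain ⟨U, μ, h1, -, h3⟩ := avar_unit hP.isHermitian
  have hpos : ∀ i, 0 < μ i := by
    have h4 := gm_posDef hP h1
    rw [h3, posDef_diagonal_iff] at h4
    intro i
    exact_mod_cast h4 i
  have hs : ∀ i, √(μ i) ≠ 0 := fun i => (Real.sqrt_pos.2 (hpos i)).ne'
  refine ⟨U * diagonal fun i => (((√(μ i))⁻¹ : ℝ) : ℂ),
    (diagonal fun i => ((√(μ i) : ℝ) : ℂ)) * Uᴴ, ?_, ?_⟩
  · rw [Matrix.mul_assoc, ← Matrix.mul_assoc (diagonal _), diagonal_mul_diagonal]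
    have : (fun i => (((√(μ i))⁻¹ : ℝ) : ℂ) * ((√(μ i) : ℝ) : ℂ)) = fun _ => 1 := by
      funext i
      rw [← Complex.ofReal_mul, inv_mul_cancel₀ (hs i), Complex.ofReal_one]
    rw [this, diagonal_one, Matrix.one_mul, h1]
  · rw [← gm_gm, h3, avar_gm_diag]
    have : (fun i => ((μ i * ((√(μ i))⁻¹) ^ 2 : ℝ) : ℂ)) = fun _ => 1 := by
      funext i
      rw [inv_pow, Real.sq_sqrt (hpos i).le, mul_inv_cancel₀ (hpos i).ne', Complex.ofReal_one]
    rw [this, diagonal_one]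

/-- simultaneous diagonalisation -/
theorem exists_simul_diag {P Q : Mat r} (hP : P.PosDef) (hQ : Q.IsHermitian) :
    ∃ (u u' : Mat r) (μ : Fin r → ℝ), u * u' = 1 ∧ gm P u = 1 ∧
      gm Q u = diagonal fun i => (μ i : ℂ) := by
  obtain ⟨v, v', h1, h2⟩ := avar_normalise hP
  obtain ⟨U, μ, h3, h4, h5⟩ := avar_unit (avar_gm_herm hQ v)
  refine ⟨v * U, Uᴴ * v', μ, ?_, ?_, ?_⟩
  · rw [Matrix.mul_assoc, ← Matrix.mul_assoc U, h3, Matrix.one_mul, h1]
  · rw [← gm_gm, h2]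
    unfold gm
    rw [Matrix.mul_one, h4]
  · rw [← gm_gm, h5]

theorem avar_smul_one (c : ℝ) : c • (1 : Mat r) = Matrix.diagonal fun _ => (c : ℂ) := by
  ext i j
  by_cases hij : i = j
  · subst hij
    simp
  · simp [hij]

theorem avar_obst_diag (C : ℝ) (μ : Fin r → ℝ) :
    Obst C 1 (diagonal fun i => (μ i : ℂ)) ↔ ∀ i, C⁻¹ ≤ μ i ∧ μ i ≤ C := by
  unfold Obst
  rw [avar_smul_one, avar_smul_one, diagonal_sub, diagonal_sub, posSemidef_diagonal_iff,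
    posSemidef_diagonal_iff, ← forall_and]
  refine forall_congr' fun i => ?_
  rw [← Complex.ofReal_sub, ← Complex.ofReal_sub, Complex.zero_le_real, Complex.zero_le_real,
    sub_nonneg, sub_nonneg]

theorem avar_inv_diag {a : Fin r → ℝ} (ha : ∀ i, a i ≠ 0) :
    (diagonal fun i => (a i : ℂ))⁻¹ = diagonal fun i => (((a i)⁻¹ : ℝ) : ℂ) := by
  apply Matrix.inv_eq_right_inv
  rw [diagonal_mul_diagonal]
  have : (fun i => (a i : ℂ) * (((a i)⁻¹ : ℝ) : ℂ)) = fun _ => 1 := by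
    funext i
    rw [← Complex.ofReal_mul, mul_inv_cancel₀ (ha i), Complex.ofReal_one]
  rw [this, diagonal_one]

theorem avar_kz_diag {a b : Fin r → ℝ} (ha : ∀ i, a i ≠ 0) (hb : ∀ i, b i ≠ 0) :
    kz (diagonal fun i => (a i : ℂ)) (diagonal fun i => (b i : ℂ)) =
      diagonal fun i => (((a i)⁻¹ * b i - (b i)⁻¹ * a i : ℝ) : ℂ) := by
  unfold kz
  rw [avar_inv_diag ha, avar_inv_diag hb, diagonal_mul_diagonal, diagonal_mul_diagonal,
    diagonal_sub]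
  congr 1
  funext i
  push_cast
  ring

theorem avar_inv_mul_gm {P Q u u' : Mat r} (hP : P.PosDef) (hu : u * u' = 1) :
    (gm P u)⁻¹ * gm Q u = u' * (P⁻¹ * Q) * u := by
  rw [gm_inv hP hu]
  have h1 : u'ᴴ * uᴴ = 1 := by rw [← conjTranspose_mul, hu, conjTranspose_one]
  unfold gm
  calc u' * P⁻¹ * u'ᴴ * (uᴴ * Q * u) = u' * P⁻¹ * (u'ᴴ * uᴴ) * Q * u := by
        simp only [Matrix.mul_assoc]
    _ = u' * (P⁻¹ * Q) * u := by
        rw [h1]
        simp only [Matrix.mul_assoc, Matrix.mul_one]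

theorem avar_kz_gm {P Q u u' : Mat r} (hP : P.PosDef) (hQ : Q.PosDef) (hu : u * u' = 1) :
    kz (gm P u) (gm Q u) = u' * kz P Q * u := by
  unfold kz
  rw [avar_inv_mul_gm hP hu, avar_inv_mul_gm hQ hu, Matrix.mul_sub, Matrix.sub_mul]

theorem avar_gm_smul (t : ℝ) (P u : Mat r) : gm (t • P) u = t • gm P u := by
  unfold gm
  rw [Matrix.mul_smul, Matrix.smul_mul]

/-- the scalar inequality, normalised -/
theorem avar_scalar0 {K κ s : ℝ} (hK : 1 ≤ K) (h1 : K⁻¹ ≤ κ) (h2 : κ ≤ K) (hs0 : 0 ≤ s)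
    (hs : s ≤ (8 * K)⁻¹) :
    min 1 κ ≤ (1 + s * (κ - κ⁻¹)) ^ 2 ∧ (1 + s * (κ - κ⁻¹)) ^ 2 ≤ max 1 κ := by
  have hK0 : 0 < K := by linarith
  have hκ : 0 < κ := lt_of_lt_of_le (inv_pos.2 hK0) h1
  have hsK : s * K ≤ 1 / 8 := by
    have := mul_le_mul_of_nonneg_right hs hK0.le
    rwa [mul_inv, mul_assoc, inv_mul_cancel₀ hK0.ne', mul_one, ← one_div] at this
  have hs1 : s ≤ 1 / 8 := by nlinarith
  have hi0 : 0 < κ⁻¹ := inv_pos.2 hκ
  have hiK : κ⁻¹ ≤ K := by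
    have := inv_anti₀ (inv_pos.2 hK0) h1
    rwa [inv_inv] at this
  have hm : κ * κ⁻¹ = 1 := mul_inv_cancel₀ hκ.ne'
  have hid : κ - κ⁻¹ = (κ - 1) * (1 + κ⁻¹) := by
    rw [sub_mul, mul_add, hm]
    ring
  rcases le_total 1 κ with hc | hc
  · have hi1 : κ⁻¹ ≤ 1 := inv_le_one_of_one_le₀ hc
    rw [min_eq_left hc, max_eq_right hc]
    have ha0 : 0 ≤ s * (κ - κ⁻¹) := mul_nonneg hs0 (by linarith)
    have ha1 : s * (κ - κ⁻¹) ≤ (κ - 1) / 4 := by
      rw [hid]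
      have h3 : (κ - 1) * (1 + κ⁻¹) ≤ (κ - 1) * 2 :=
        mul_le_mul_of_nonneg_left (by linarith) (by linarith)
      have h4 : 0 ≤ (κ - 1) * (1 + κ⁻¹) := mul_nonneg (by linarith) (by linarith)
      nlinarith
    have ha2 : s * (κ - κ⁻¹) ≤ 1 / 8 := by
      have : s * (κ - κ⁻¹) ≤ s * K := mul_le_mul_of_nonneg_left (by linarith) hs0
      linarith
    generalize s * (κ - κ⁻¹) = a at ha0 ha1 ha2
    constructor <;> nlinarith
  · rw [min_eq_right hc, max_eq_left hc]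
    have hi1 : 1 ≤ κ⁻¹ := (one_le_inv₀ hκ).2 hc
    have ha0 : s * (κ - κ⁻¹) ≤ 0 := mul_nonpos_of_nonneg_of_nonpos hs0 (by linarith)
    have ha1 : -((1 - κ) / 4) ≤ s * (κ - κ⁻¹) := by
      rw [hid]
      have h3 : s * (1 + κ⁻¹) ≤ 1 / 4 := by
        have : s * κ⁻¹ ≤ s * K := mul_le_mul_of_nonneg_left hiK hs0
        linarith
      have h4 : (1 - κ) * (s * (1 + κ⁻¹)) ≤ (1 - κ) * (1 / 4) :=
        mul_le_mul_of_nonneg_left h3 (by linarith)
      linarith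
    generalize s * (κ - κ⁻¹) = a at ha0 ha1
    constructor <;> nlinarith

theorem avar_scalar {C μ t s : ℝ} (hC : 1 ≤ C) (hμ1 : C⁻¹ ≤ μ) (hμ2 : μ ≤ C) (h1 : C⁻¹ ≤ t)
    (h2 : t ≤ C) (hs0 : 0 ≤ s) (hs : s ≤ (8 * C ^ 2)⁻¹) :
    C⁻¹ ≤ μ * (1 + s * (μ⁻¹ * t - t⁻¹ * μ)) ^ 2 ∧ μ * (1 + s * (μ⁻¹ * t - t⁻¹ * μ)) ^ 2 ≤ C := by
  have hC0 : 0 < C := by linarith
  have hCi : 0 < C⁻¹ := inv_pos.2 hC0
  have hμ : 0 < μ := lt_of_lt_of_le hCi hμ1
  have ht : 0 < t := lt_of_lt_of_le hCi h1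
  have hi1 : C⁻¹ ≤ μ⁻¹ := inv_anti₀ hμ hμ2
  have hi2 : μ⁻¹ ≤ C := by
    have := inv_anti₀ hCi hμ1
    rwa [inv_inv] at this
  have hk1 : (C ^ 2)⁻¹ ≤ μ⁻¹ * t := by
    rw [← inv_pow, sq]
    exact mul_le_mul hi1 h1 hCi.le (inv_pos.2 hμ).le
  have hk2 : μ⁻¹ * t ≤ C ^ 2 := by
    rw [sq]
    exact mul_le_mul hi2 h2 ht.le hC0.le
  have hinv : (μ⁻¹ * t)⁻¹ = t⁻¹ * μ := by rw [_root_.mul_inv_rev, inv_inv]
  obtain ⟨h3, h4⟩ := avar_scalar0 (one_le_pow₀ hC) hk1 hk2 hs0 hs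
  rw [hinv] at h3 h4
  have hmt : μ * (μ⁻¹ * t) = t := by rw [← mul_assoc, mul_inv_cancel₀ hμ.ne', one_mul]
  constructor
  · refine le_trans ?_ (mul_le_mul_of_nonneg_left h3 hμ.le)
    rw [mul_min_of_nonneg _ _ hμ.le, mul_one, hmt]
    exact le_min hμ1 h1
  · refine le_trans (mul_le_mul_of_nonneg_left h4 hμ.le) ?_
    rw [mul_max_of_nonneg _ _ hμ.le, mul_one, hmt]
    exact max_le hμ2 h2

/-- the variation towards `t H` respects the obstacles -/
theorem obst_var {C : ℝ} (hC : 1 ≤ C) {H h : Mat r} (hH : H.PosDef) (ho : Obst C H h) {t s : ℝ}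
    (h1 : C⁻¹ ≤ t) (h2 : t ≤ C) (hs0 : 0 ≤ s) (hs : s ≤ (8 * C ^ 2)⁻¹) :
    Obst C H (gm h (1 + s • kz h (t • H))) := by
  have hC0 : 0 < C := by linarith
  have hCi : 0 < C⁻¹ := inv_pos.2 hC0
  have ht : 0 < t := lt_of_lt_of_le hCi h1
  have hh : h.PosDef := ho.posDef hH hC0
  have htH : (t • H).PosDef := hH.smul ht
  obtain ⟨u, u', μ, hu, hHu, hhu⟩ := exists_simul_diag hH hh.isHermitian
  have hu' : u' * u = 1 := mul_eq_one_comm.1 hu
  have hμ : ∀ i, C⁻¹ ≤ μ i ∧ μ i ≤ C := by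
    have := ho.gm u
    rwa [hHu, hhu, avar_obst_diag] at this
  have hμ0 : ∀ i, μ i ≠ 0 := fun i => (lt_of_lt_of_le hCi (hμ i).1).ne'
  have hk : u' * kz h (t • H) * u =
      diagonal fun i => (((μ i)⁻¹ * t - t⁻¹ * μ i : ℝ) : ℂ) := by
    rw [← avar_kz_gm hh htH hu, avar_gm_smul, hHu, hhu, avar_smul_one,
      avar_kz_diag hμ0 fun _ => ht.ne']
  have hw : (1 + s • kz h (t • H)) * u =
      u * diagonal fun i => ((1 + s * ((μ i)⁻¹ * t - t⁻¹ * μ i) : ℝ) : ℂ) := by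
    have h3 : (diagonal fun i => ((1 + s * ((μ i)⁻¹ * t - t⁻¹ * μ i) : ℝ) : ℂ)) =
        1 + s • (u' * kz h (t • H) * u) := by
      rw [hk, ← diagonal_one, ← diagonal_smul, diagonal_add]
      congr 1
      funext i
      simp only [Pi.smul_apply, Complex.real_smul]
      push_cast
      ring
    rw [h3, Matrix.add_mul, Matrix.mul_add, Matrix.one_mul, Matrix.mul_one, Matrix.smul_mul,
      Matrix.mul_smul, ← Matrix.mul_assoc, ← Matrix.mul_assoc, hu, Matrix.one_mul]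
  have hfin : Obst C (gm H u) (gm (gm h (1 + s • kz h (t • H))) u) := by
    rw [hHu, gm_gm, hw, ← gm_gm, hhu, avar_gm_diag, avar_obst_diag]
    exact fun i => avar_scalar hC (hμ i).1 (hμ i).2 h1 h2 hs0 hs
  have := hfin.gm u'
  rwa [gm_gm, gm_gm _ u, hu, gm_one, gm_one] at this

/-- a Hermitian matrix is bounded below by minus its norm -/
theorem avar_psd {W : Mat r} (hW : W.IsHermitian) {c : ℝ} (hc : ‖W‖ ≤ c) :
    (c • (1 : Mat r) + W).PosSemidef := by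
  obtain ⟨U, μ, h1, h2, h3⟩ := avar_unit hW
  have hμ : ∀ i, 0 ≤ c + μ i := by
    intro i
    have hE : (single i i (1 : ℂ) : Mat r).PosSemidef := by
      rw [← diagonal_single, posSemidef_diagonal_iff]
      intro j
      by_cases hij : j = i
      · subst hij
        simp
      · simp [hij]
    have hP : (U * single i i (1 : ℂ) * Uᴴ : Mat r).PosSemidef := hE.mul_mul_conjTranspose_same U
    have ht : (U * single i i (1 : ℂ) * Uᴴ : Mat r).trace = 1 := by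
      rw [trace_mul_cycle, h2, Matrix.one_mul, trace_single_eq_same]
    have hn := norm_le_trace hP
    rw [ht, Complex.one_re] at hn
    have h4 : (W * (U * single i i (1 : ℂ) * Uᴴ)).trace = μ i := by
      rw [← Matrix.mul_assoc, trace_mul_comm, ← Matrix.mul_assoc, ← Matrix.mul_assoc]
      change (gm W U * single i i (1 : ℂ)).trace = μ i
      rw [h3, trace_mul_single]
      simp
    have h5 := abs_trace_mul_le W (U * single i i (1 : ℂ) * Uᴴ)
    rw [h4, Complex.norm_real, Real.norm_eq_abs] at h5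
    have h6 : ‖W‖ * ‖(U * single i i (1 : ℂ) * Uᴴ : Mat r)‖ ≤ ‖W‖ * 1 :=
      mul_le_mul_of_nonneg_left hn (norm_nonneg _)
    have := neg_abs_le (μ i)
    linarith
  have h7 : c • (1 : Mat r) + W = U * (diagonal fun i => ((c + μ i : ℝ) : ℂ)) * Uᴴ := by
    have h8 : (diagonal fun i => ((c + μ i : ℝ) : ℂ)) = c • (1 : Mat r) + gm W U := by
      rw [h3, avar_smul_one, diagonal_add]
      congr 1
      funext i
      push_cast
      ring
    rw [h8, Matrix.mul_add, Matrix.add_mul, Matrix.mul_smul, Matrix.smul_mul, Matrix.mul_one, h1]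
    congr 1
    unfold gm
    calc W = (U * Uᴴ) * W * (U * Uᴴ) := by rw [h1, Matrix.one_mul, Matrix.mul_one]
      _ = _ := by simp only [Matrix.mul_assoc]
  rw [h7]
  refine PosSemidef.mul_mul_conjTranspose_same ?_ U
  rw [posSemidef_diagonal_iff]
  intro i
  exact Complex.zero_le_real.2 (hμ i)

/-- small variations -/
theorem obst_free (r : ℕ) {B : ℝ} (hB : 1 ≤ B) : ∃ δ : ℝ, 0 < δ ∧
    ∀ h Z : Mat r, Bd B h → ‖Z‖ ≤ δ → Obst 2 h (gm h (1 + Z)) := by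
  have hB0 : 0 < B := by linarith
  have hr : (0 : ℝ) ≤ r := Nat.cast_nonneg r
  have hD : 0 < 6 * r * B ^ 2 + 1 := by positivity
  refine ⟨(6 * r * B ^ 2 + 1)⁻¹, inv_pos.2 hD, fun h Z hh hZ => ?_⟩
  have hp := hh.posDef hB0
  have hn := hh.norm_le hB0
  have hZ0 := norm_nonneg Z
  have hZ1 : ‖Z‖ * (6 * r * B ^ 2 + 1) ≤ 1 := by
    have := mul_le_mul_of_nonneg_right hZ hD.le
    rwa [inv_mul_cancel₀ hD.ne'] at this
  have hZ2 : ‖Z‖ ≤ 1 := by
    have : 0 ≤ ‖Z‖ * (6 * r * B ^ 2) := by positivity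
    linarith
  obtain ⟨W, hWd⟩ : ∃ W, W = gm h (1 + Z) - h := ⟨_, rfl⟩
  have hWh : W.IsHermitian := hWd ▸ (avar_gm_herm hp.isHermitian _).sub hp.isHermitian
  have hWe : W = Zᴴ * h + h * Z + Zᴴ * h * Z := by
    rw [hWd]
    unfold gm
    rw [conjTranspose_add, conjTranspose_one]
    noncomm_ring
  have hZH : ‖Zᴴ‖ = ‖Z‖ := Matrix.frobenius_norm_conjTranspose Z
  have hWn : ‖W‖ ≤ (2 * B)⁻¹ := by
    have e1 : ‖Zᴴ * h‖ ≤ ‖Z‖ * (r * B) := by
      refine (norm_mul_le _ _).trans ?_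
      rw [hZH]
      exact mul_le_mul_of_nonneg_left hn hZ0
    have e2 : ‖h * Z‖ ≤ (r * B) * ‖Z‖ :=
      (norm_mul_le _ _).trans (mul_le_mul_of_nonneg_right hn hZ0)
    have e3 : ‖Zᴴ * h * Z‖ ≤ ‖Z‖ * (r * B) * 1 :=
      (norm_mul_le _ _).trans (mul_le_mul e1 hZ2 hZ0 (by positivity))
    have e4 : ‖W‖ ≤ 3 * (‖Z‖ * (r * B)) := by
      rw [hWe]
      have := norm_add₃_le (a := Zᴴ * h) (b := h * Z) (c := Zᴴ * h * Z)
      linarith
    rw [← one_div, le_div_iff₀ (by positivity)]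
    have e5 := mul_le_mul_of_nonneg_right e4 (show 0 ≤ 2 * B by positivity)
    nlinarith
  have hg : gm h (1 + Z) = h + W := by rw [hWd]; abel
  have p1 := avar_psd hWh hWn
  have p2 := avar_psd hWh.neg (c := (2 * B)⁻¹) (by rwa [norm_neg])
  have p3 : (h - B⁻¹ • (1 : Mat r)).PosSemidef := hh.1
  have p4 : ((2 * B)⁻¹ • (1 : Mat r)).PosSemidef := PosSemidef.one.smul (by positivity)
  have hBi : B⁻¹ = 2 * (2 * B)⁻¹ := by field_simp
  rw [hg]
  constructor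
  · have : h + W - (2 : ℝ)⁻¹ • h =
        (2 : ℝ)⁻¹ • (h - B⁻¹ • (1 : Mat r)) + ((2 * B)⁻¹ • (1 : Mat r) + W) := by
      rw [hBi]
      module
    rw [this]
    exact (p3.smul (by positivity)).add p1
  · have : (2 : ℝ) • h - (h + W) = (h - B⁻¹ • (1 : Mat r)) + ((2 * B)⁻¹ • (1 : Mat r) + -W) +
        (2 * B)⁻¹ • (1 : Mat r) := by
      rw [hBi]
      module
    rw [this]
    exact (p3.add p2).add p4

end Pool.Agent.PW
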