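import Pool.Agent.P.MP_65ad7c_ag.TMul0

open MeasureTheory Set Filter Topology Metric Matrix
open scoped ComplexOrder ContDiff Matrix.Norms.Frobenius RealInnerProductSpace ENNReal
open Pool.Agent.Lib.Sob

noncomputable section
namespace Pool.Agent.PW

variable {E : Type} [NormedAddCommGroup E] [InnerProductSpace ℝ E] [FiniteDimensional ℝ E]
  [MeasurableSpace E] [BorelSpace E] {r : ℕ} {U : Set E}
  {V W : Type} [NormedAddCommGroup V] [NormedSpace ℝ V] [NormedAddCommGroup W] [NormedSpace ℝ W]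

variable {u v h h' : E → Mat r} {D D' : E → E →L[ℝ] Mat r}

theorem tmul_wd_inv (hU : IsOpen U) (h1 : WD 2 U h D) (b1 : LBd U h) :
    WD 2 U (fun x => (h x)⁻¹) fun x => -lmul (h x)⁻¹ (rmul (D x) (h x)⁻¹) := by
  refine wd_inv hU h1 fun K hK hKU => ?_
  obtain ⟨C, hC, hb⟩ := b1 K hK hKU
  have hC0 : 0 < C := by linarith
  exact ⟨r * C, fun x hx => ⟨(Matrix.isUnit_iff_isUnit_det _).1 ((hb x hx).posDef hC0).isUnit,
    (hb x hx).norm_le hC0, (hb x hx).norm_inv_le hC0⟩⟩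

omit [NormedSpace ℝ V] in
theorem tmul_sum {ι : Type} [Fintype ι] {n : ℕ} {f : ι → E → V} (hf : ∀ i, LocLp n U (f i)) :
    LocLp n U fun x => ∑ i, f i x :=
  fun K hK hKU => memLp_finsetSum _ fun i _ => hf i K hK hKU

theorem tmul_app {n : ℕ} {α : E → E →L[ℝ] E} (hα : ContinuousOn α U) {Y : E → E →L[ℝ] V}
    (hY : LocLp n U Y) (e : E) : LocLp n U fun x => Y x (α x e) := by
  have hc : ContinuousOn (fun x => α x e) U := hα.clm_apply continuousOn_const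
  exact locLp_bilin_lb (m := 1) (ContinuousLinearMap.apply ℝ V) (LocLp.of_continuousOn hc)
    (LB.of_continuousOn hc) hY

omit [FiniteDimensional ℝ E] [MeasurableSpace E] [BorelSpace E] [InnerProductSpace ℝ E] in
theorem tmul_lb_clm {f : E → V} (hf : LB U f) (L : V →L[ℝ] W) : LB U fun x => L (f x) := by
  intro K hK hKU
  obtain ⟨C, hC⟩ := hf K hK hKU
  exact ⟨‖L‖ * C, fun x hx => (L.le_opNorm _).trans
    (mul_le_mul_of_nonneg_left (hC x hx) (norm_nonneg _))⟩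

theorem tmul_npair {α : E → E →L[ℝ] E} (hα : ContinuousOn α U) {P Q : E → Mat r}
    {X : E → E →L[ℝ] Mat r} (p1 : LocLp 2 U fun x => (P x)⁻¹) (p2 : LB U fun x => (P x)⁻¹)
    (q1 : LocLp 2 U Q) (q2 : LB U Q) (hX : LocLp 2 U X) :
    LocLp 1 U fun x => npair (α x) (P x) (Q x) (X x) := by
  refine tmul_sum (f := fun p x => nf (P x) (Q x) (X x (ob E p)) (X x (α x (ob E p)))) fun p => ?_
  have a1 : LocLp 2 U fun x => X x (ob E p) * (P x)⁻¹ :=
    locLp_bilin_lb (ContinuousLinearMap.mul ℝ (Mat r)).flip p1 p2 (hX.apply _)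
  have a2 : LocLp 2 U fun x => (X x (α x (ob E p)))ᴴ * Q x :=
    locLp_bilin_lb (ContinuousLinearMap.mul ℝ (Mat r)).flip q1 q2
      ((tmul_app hα hX _).clm (adjL r))
  have a3 := (locLp_bilin_one (ContinuousLinearMap.mul ℝ (Mat r)) a1 a2).clm (trL r)
  refine a3.congr (Eventually.of_forall fun x _ => ?_)
  simp only [ContinuousLinearMap.mul_apply', trL_apply, nf, mul_assoc]

theorem locLp_mc (hU : IsOpen U) (h1 : WD 2 U h D) (b1 : LBd U h) :
    LocLp 2 U fun x => mc (h x) (D x) :=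
  locLp_bilin_lb ((ContinuousLinearMap.compL ℝ E (Mat r) (Mat r)).comp
    (ContinuousLinearMap.mul ℝ (Mat r))) (tmul_wd_inv hU h1 b1).1 b1.lb_inv h1.2.1

theorem wd_k (hU : IsOpen U) (h1 : WD 2 U h D) (h2 : WD 2 U h' D') (b1 : LBd U h)
    (b2 : LBd U h') :
    WD 2 U (fun x => (h x)⁻¹ * h' x) fun x => dk (h x) (h' x) (D x) (D' x) := by
  refine (wd_mul hU (tmul_wd_inv hU h1 b1) h2 b1.lb_inv b2.lb).congr' (fun _ _ => rfl)
    fun x _ => ?_
  refine ContinuousLinearMap.ext fun e => ?_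
  simp only [dk, _root_.add_apply, _root_.sub_apply,
    _root_.neg_apply, rmul_apply, lmul_apply, neg_mul, mul_assoc]
  abel

theorem wd_kz (hU : IsOpen U) (h1 : WD 2 U h D) (h2 : WD 2 U h' D') (b1 : LBd U h)
    (b2 : LBd U h') :
    WD 2 U (fun x => kz (h x) (h' x)) (fun x => dkz (h x) (h' x) (D x) (D' x)) ∧
      LB U fun x => kz (h x) (h' x) :=
  ⟨(wd_k hU h1 h2 b1 b2).sub (by norm_num) (wd_k hU h2 h1 b2 b1),
    (b1.lb_inv.mul b2.lb).sub (b2.lb_inv.mul b1.lb)⟩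

theorem wd_sg (hU : IsOpen U) (h1 : WD 2 U h D) (h2 : WD 2 U h' D') (b1 : LBd U h)
    (b2 : LBd U h') :
    WD 2 U (fun x => sg (h x) (h' x)) (fun x => dsg (h x) (h' x) (D x) (D' x)) ∧
      LB U fun x => sg (h x) (h' x) := by
  refine ⟨(((wd_k hU h1 h2 b1 b2).add (by norm_num) (wd_k hU h2 h1 b2 b1)).clm (by norm_num)
    (trL r)).congr' (fun x _ => ?_) fun _ _ => rfl, ?_⟩
  · rw [map_add]; rfl
  · exact (tmul_lb_clm (b1.lb_inv.mul b2.lb) (trL r)).add (tmul_lb_clm (b2.lb_inv.mul b1.lb) (trL r))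

theorem locLp_pair {α : E → E →L[ℝ] E} (hα : ContinuousOn α U) {X Y : E → E →L[ℝ] Mat r}
    (hX : LocLp 2 U X) (hY : LocLp 2 U Y) : LocLp 1 U fun x => pair (α x) (X x) (Y x) :=
  tmul_sum (f := fun p x => (X x (ob E p) * Y x (α x (ob E p))).trace.re) fun p =>
    (locLp_bilin_one (ContinuousLinearMap.mul ℝ (Mat r)) (hX.apply (ob E p))
      (tmul_app hα hY (ob E p))).clm (trL r)

theorem locLp_spair {α : E → E →L[ℝ] E} (hα : ContinuousOn α U) {p q : E → E →L[ℝ] ℝ}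
    (hp : LocLp 2 U p) (hq : LocLp 2 U q) : LocLp 1 U fun x => spair (α x) (p x) (q x) :=
  tmul_sum (f := fun i x => p x (ob E i) * q x (α x (ob E i))) fun i =>
    locLp_bilin_one (ContinuousLinearMap.mul ℝ ℝ) (hp.apply (ob E i)) (tmul_app hα hq (ob E i))

theorem locLp_qq (hU : IsOpen U) {α : E → E →L[ℝ] E} (hα : ContinuousOn α U) (h1 : WD 2 U h D)
    (h2 : WD 2 U h' D') (b1 : LBd U h) (b2 : LBd U h') :
    LocLp 1 U fun x => qq (α x) (h x) (h' x) (D x) (D' x) :=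
  (tmul_npair hα (tmul_wd_inv hU h2 b2).1 b2.lb_inv h1.1 b1.lb (wd_k hU h1 h2 b1 b2).2.1).add
    (tmul_npair hα (tmul_wd_inv hU h1 b1).1 b1.lb_inv h2.1 b2.lb (wd_k hU h2 h1 b2 b1).2.1)

end Pool.Agent.PW
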