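import Pool.Agent.P.MP_65ad7c_ag.BExt
import Pool.Agent.P.MP_65ad7c_ag.TMul
import Pool.Agent.P.MP_65ad7c_ag.ANf

open MeasureTheory Set Filter Topology Metric Matrix
open scoped ComplexOrder ContDiff Matrix.Norms.Frobenius RealInnerProductSpace ENNReal
open Pool.Agent.Lib.Sob

noncomputable section
namespace Pool.Agent.PW

variable {E : Type} [NormedAddCommGroup E] [InnerProductSpace ℝ E] [FiniteDimensional ℝ E]
  [MeasurableSpace E] [BorelSpace E] {r : ℕ} {U : Set E} {Γ : Type} [Group Γ]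
  {V : Type} [NormedAddCommGroup V] [NormedSpace ℝ V]

/-- `X ↦ gm X τ` as a real linear map -/
def bdc_gmL (τ : Mat r) : Mat r →L[ℝ] Mat r :=
  ((ContinuousLinearMap.mul ℝ (Mat r)).flip τ).comp (ContinuousLinearMap.mul ℝ (Mat r) τᴴ)

@[simp] theorem bdc_gmL_apply (τ X : Mat r) : bdc_gmL τ X = gm X τ := rfl

/-- compatibility of weak derivatives -/
theorem Pre.dcompat (A : Pre E Γ) (hU : IsOpen U) {ρ : Γ →* Mat r} {h : A.ι → E → Mat r}
    {D : A.ι → E → E →L[ℝ] Mat r} (hw : ∀ a, WD 2 U (h a) (D a)) (hm : A.MC U ρ h) (a b : A.ι) :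
    ∀ᵐ x, x ∈ A.ov U a b → ∀ v, D b (A.T a b x) (fderiv ℝ (A.T a b) x v) =
      gm (D a x v) (ρ (A.c a b x)) := by
  have hd := A.diffeo hU a b
  have hO : IsOpen (A.ov U a b) := A.ov_open hU a b
  have w1 := hd.wd_comp (n := 2) (by norm_num) ((hw b).mono fun y hy => hy.2.1)
  have w2 : WD 2 (A.ov U a b) (fun x => h b (A.T a b x))
      fun x => (bdc_gmL (ρ (A.c a b x))).comp (D a x) := by
    refine WD.of_local (by norm_num) fun x hx => ?_
    obtain ⟨O1, hO1, hO1o, hxO1⟩ := _root_.eventually_nhds_iff.1 (A.c_loc a b x hx.1)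
    refine ⟨O1 ∩ A.ov U a b, hO1o.inter hO, ⟨hxO1, hx⟩, ?_⟩
    have w3 := ((hw a).mono (U' := O1 ∩ A.ov U a b) fun y hy => hy.2.2.1).clm (by norm_num)
      (bdc_gmL (ρ (A.c a b x)))
    refine w3.congr' (fun y hy => ?_) fun y hy => ?_
    · rw [hm a b y hy.2, hO1 y hy.1]
      rfl
    · rw [hO1 y hy.1]
  filter_upwards [WD.unique (by norm_num) hO w1 w2] with x hx hx' v
  exact congrArg (fun L : E →L[ℝ] Mat r => L v) (hx hx')

theorem Pre.mc_compat (A : Pre E Γ) (hU : IsOpen U) {ρ : Γ →* Mat r} {h : A.ι → E → Mat r}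
    {D : A.ι → E → E →L[ℝ] Mat r} (hw : ∀ a, WD 2 U (h a) (D a)) (hm : A.MC U ρ h)
    (hp : ∀ a, ∀ x ∈ U, (h a x).PosDef) (a b : A.ι) :
    ∀ᵐ x, x ∈ A.ov U a b → ∀ v, mc (h a x) (D a x) v = ρ (A.c a b x) *
      mc (h b (A.T a b x)) (D b (A.T a b x)) (fderiv ℝ (A.T a b) x v) * ρ (A.c a b x)⁻¹ := by
  filter_upwards [A.dcompat hU hw hm a b] with x hx hx' v
  have h1 := rep_mul_inv ρ (A.c a b x)
  have h2 : (ρ (A.c a b x)⁻¹)ᴴ * (ρ (A.c a b x))ᴴ = 1 := by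
    rw [← conjTranspose_mul, h1, conjTranspose_one]
  simp only [mc, lmul_apply]
  rw [hx hx' v, hm a b x hx', gm_inv (hp a x hx'.2.1) h1, gm]
  set τ := ρ (A.c a b x)
  set τ' := ρ (A.c a b x)⁻¹
  calc (h a x)⁻¹ * D a x v
      = (τ * τ') * (h a x)⁻¹ * (τ'ᴴ * τᴴ) * D a x v * (τ * τ') := by
        rw [h1, h2, Matrix.one_mul, Matrix.mul_one, Matrix.mul_one]
    _ = _ := by simp only [Matrix.mul_assoc]

omit [MeasurableSpace E] [BorelSpace E] in
theorem bdc_contr (B : E →ₗ[ℝ] E →ₗ[ℝ] V) (S R : E →L[ℝ] E) :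
    ∑ p, B (S (ob E p)) (R (ob E p)) = ∑ q, B (ob E q) (R (S.adjoint (ob E q))) := by
  have h1 : ∀ p, B (S (ob E p)) (R (ob E p))
      = ∑ q, ⟪ob E q, S (ob E p)⟫ • B (ob E q) (R (ob E p)) := fun p => by
    conv_lhs => rw [← (ob E).sum_repr' (S (ob E p))]
    simp only [map_sum, map_smul, LinearMap.sum_apply, LinearMap.smul_apply]
  have h2 : ∀ q, B (ob E q) (R (S.adjoint (ob E q)))
      = ∑ p, ⟪ob E q, S (ob E p)⟫ • B (ob E q) (R (ob E p)) := fun q => by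
    conv_lhs => rw [← (ob E).sum_repr' (S.adjoint (ob E q))]
    simp only [map_sum, map_smul]
    refine Finset.sum_congr rfl fun p _ => ?_
    rw [ContinuousLinearMap.adjoint_inner_right, real_inner_comm]
  simp only [h1, h2]
  exact Finset.sum_comm

/-- invariance of the contraction of a bilinear map -/
theorem Atlas.contr_inv (A : Atlas E Γ) {a b : A.ι} {x : E} (hx : x ∈ A.O a b)
    (B : E →ₗ[ℝ] E →ₗ[ℝ] V) :
    ∑ p, B (fderiv ℝ (A.T a b) x (ob E p)) (fderiv ℝ (A.T a b) x (A.α a x (ob E p))) =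
      A.jac a b x • ∑ p, B (ob E p) (A.α b (A.T a b x) (ob E p)) := by
  have h1 := bdc_contr B (fderiv ℝ (A.T a b) x) ((fderiv ℝ (A.T a b) x).comp (A.α a x))
  simp only [ContinuousLinearMap.comp_apply] at h1
  rw [h1, Finset.smul_sum]
  refine Finset.sum_congr rfl fun p _ => ?_
  rw [← map_smul]
  congr 1
  refine ext_inner_left ℝ fun v => ?_
  rw [← ContinuousLinearMap.adjoint_inner_left, A.α_inv a b x hx, real_inner_smul_right]

theorem Atlas.pair_inv (A : Atlas E Γ) {a b : A.ι} {x : E} (hx : x ∈ A.O a b)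
    {X Y X' Y' : E →L[ℝ] Mat r} {τ τ' : Mat r} (hτ : τ' * τ = 1)
    (hX : ∀ v, X v = τ * X' (fderiv ℝ (A.T a b) x v) * τ')
    (hY : ∀ v, Y v = τ * Y' (fderiv ℝ (A.T a b) x v) * τ') :
    pair (A.α a x) X Y = A.jac a b x * pair (A.α b (A.T a b x)) X' Y' := by
  let B : E →ₗ[ℝ] E →ₗ[ℝ] ℝ := LinearMap.mk₂ ℝ (fun v w => (X' v * Y' w).trace.re)
    (fun v v' w => by simp [Matrix.add_mul])
    (fun c v w => by simp)
    (fun v w w' => by simp [Matrix.mul_add])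
    (fun c v w => by simp)
  have h1 := A.contr_inv hx B
  simp only [B, LinearMap.mk₂_apply, smul_eq_mul] at h1
  unfold pair
  rw [← h1]
  refine Finset.sum_congr rfl fun p _ => ?_
  rw [hX, hY]
  congr 1
  set P := X' (fderiv ℝ (A.T a b) x (ob E p))
  set Q := Y' (fderiv ℝ (A.T a b) x (A.α a x (ob E p)))
  calc (τ * P * τ' * (τ * Q * τ')).trace = (τ * (P * (τ' * τ) * Q * τ')).trace := by
        simp only [Matrix.mul_assoc]
    _ = (P * (τ' * τ) * Q * τ' * τ).trace := Matrix.trace_mul_comm _ _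
    _ = (P * (τ' * τ) * Q * (τ' * τ)).trace := by simp only [Matrix.mul_assoc]
    _ = (P * Q).trace := by rw [hτ, Matrix.mul_one, Matrix.mul_one]

theorem Atlas.en_inv (A : Atlas E Γ) (hU : IsOpen U) {ρ : Γ →* Mat r} {h : A.ι → E → Mat r}
    {D : A.ι → E → E →L[ℝ] Mat r} (hw : ∀ a, WD 2 U (h a) (D a)) (hm : A.MC U ρ h)
    (hp : ∀ a, ∀ x ∈ U, (h a x).PosDef) (a b : A.ι) :
    ∀ᵐ x, x ∈ A.ov U a b → en (A.α a x) (h a x) (D a x) =
      A.jac a b x * en (A.α b (A.T a b x)) (h b (A.T a b x)) (D b (A.T a b x)) := by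
  filter_upwards [A.mc_compat hU hw hm hp a b] with x hx hx'
  exact A.pair_inv hx'.1 (rep_inv_mul ρ _) (hx hx') (hx hx')

end Pool.Agent.PW
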