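import Pool.Agent.P.MP_65ad7c_ag.TComp
import Pool.Agent.P.MP_65ad7c_ag.ABurn

open MeasureTheory Set Filter Topology Metric Matrix
open scoped ComplexOrder ContDiff Matrix.Norms.Frobenius RealInnerProductSpace ENNReal
open Pool.Agent.Lib.Sob

noncomputable section
namespace Pool.Agent.PW

variable {E : Type} [NormedAddCommGroup E] [InnerProductSpace ℝ E] [FiniteDimensional ℝ E]
  [MeasurableSpace E] [BorelSpace E] {r : ℕ} {U : Set E} {Γ : Type} [Group Γ]
  {V : Type} [NormedAddCommGroup V] [NormedSpace ℝ V]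

theorem Pre.c_symm (A : Pre E Γ) {a b : A.ι} {x : E} (hx : x ∈ A.O a b) :
    A.c b a (A.T a b x) = (A.c a b x)⁻¹ := by
  have h := (A.cocycle a b a x hx (A.T_mem a b x hx)).2.2
  rw [A.c_self a x (A.O_sub a b hx)] at h
  exact eq_inv_of_mul_eq_one_right h.symm

theorem Pre.ov_open (A : Pre E Γ) (hU : IsOpen U) (a b : A.ι) : IsOpen (A.ov U a b) := by
  have h := ((A.T_smooth a b).continuousOn.isOpen_inter_preimage (A.O_open a b) hU).inter hU
  convert h using 1
  ext x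
  exact ⟨fun h => ⟨⟨h.1, h.2.2⟩, h.2.1⟩, fun h => ⟨h.1.1, h.2, h.1.2⟩⟩

theorem Pre.ov_six (A : Pre E Γ) (a b : A.ι) : A.ov (ball 0 6) a b = A.O a b := by
  ext x
  exact ⟨fun h => h.1, fun h => ⟨h, A.O_sub a b h, A.O_sub b a (A.T_mem a b x h)⟩⟩

theorem Pre.diffeo (A : Pre E Γ) (hU : IsOpen U) (a b : A.ι) :
    Diffeo (A.ov U a b) (A.ov U b a) (A.T a b) (A.T b a) := by
  have hm : ∀ a b, MapsTo (A.T a b) (A.ov U a b) (A.ov U b a) := fun a b x hx =>
    ⟨A.T_mem a b x hx.1, hx.2.2, by rw [A.T_inv a b x hx.1]; exact hx.2.1⟩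
  exact ⟨A.ov_open hU a b, A.ov_open hU b a, hm a b, hm b a, fun x hx => A.T_inv a b x hx.1,
    fun x hx => A.T_inv b a x hx.1, (A.T_smooth a b).mono fun _ hx => hx.1,
    (A.T_smooth b a).mono fun _ hx => hx.1⟩

theorem Pre.MC.mono {A : Pre E Γ} {U' : Set E} {ρ : Γ →* Mat r} {h : A.ι → E → Mat r}
    (hm : A.MC U ρ h) (hU : U' ⊆ U) : A.MC U' ρ h :=
  fun a b x hx => hm a b x ⟨hx.1, hU hx.2.1, hU hx.2.2⟩

theorem bext_trans {A : Pre E Γ} {a b d : A.ι} {γ γ' : Γ} (h : A.Chain a b γ)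
    (h' : A.Chain b d γ') : A.Chain a d (γ * γ') := by
  induction h with
  | nil a => rwa [one_mul]
  | cons a b e x γ hx _ ih =>
    rw [mul_assoc]
    exact Pre.Chain.cons a b d x _ hx (ih h')

theorem Pre.Chain.symm {A : Pre E Γ} {a b : A.ι} {γ : Γ} (h : A.Chain a b γ) :
    A.Chain b a γ⁻¹ := by
  induction h with
  | nil a => rw [inv_one]; exact Pre.Chain.nil a
  | cons a b d x γ hx _ ih =>
    have h1 : A.T a b x ∈ A.ov (ball 0 1) b a := (A.diffeo isOpen_ball a b).m hx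
    have h2 := bext_trans ih (Pre.Chain.cons b a a _ 1 h1 (Pre.Chain.nil a))
    rwa [mul_one, A.c_symm hx.1, ← _root_.mul_inv_rev] at h2

theorem Pre.Chain.trans {A : Pre E Γ} {a b d : A.ι} {γ γ' : Γ} (h : A.Chain a b γ)
    (h' : A.Chain b d γ') : A.Chain a d (γ * γ') := by
  exact bext_trans h h'

/-- the set where a compactly supported function of the chart `a` is seen in the chart `b` is
relatively closed -/
theorem Pre.isOpen_off (A : Pre E Γ) (a b : A.ι) {K : Set E} (hK : IsCompact K)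
    (hK6 : K ⊆ ball 0 6) : IsOpen {x | x ∈ ball (0 : E) 6 ∧ ¬(x ∈ A.O b a ∧ A.T b a x ∈ K)} := by
  refine isOpen_iff_mem_nhds.2 fun x hx => ?_
  have h6 : ∀ᶠ y in 𝓝 x, y ∈ ball (0 : E) 6 := isOpen_ball.mem_nhds hx.1
  by_cases hO : x ∈ A.O b a
  · have hc : ContinuousAt (A.T b a) x :=
      (A.T_smooth b a).continuousOn.continuousAt ((A.O_open b a).mem_nhds hO)
    have h1 : ∀ᶠ y in 𝓝 x, A.T b a y ∈ Kᶜ :=
      hc.eventually (hK.isClosed.isOpen_compl.mem_nhds fun h => hx.2 ⟨hO, h⟩)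
    filter_upwards [h6, h1] with y hy hy' using ⟨hy, fun h => hy' h.2⟩
  · filter_upwards [h6, A.sep b a K hK hK6 x hx.1 hO] with y hy hy' using
      ⟨hy, fun h => hy' h.1 h.2⟩

theorem Pre.ext_smooth (A : Pre E Γ) {ψ : E → ℝ} (hψ : IsTest (ball 0 6) ψ) (a b : A.ι)
    (F : Γ → V) : ContDiffOn ℝ ∞ (fun x => A.ext ψ a b x • F (A.c b a x)) (ball 0 6) := by
  intro x hx
  refine ContDiffAt.contDiffWithinAt ?_
  by_cases hO : x ∈ A.O b a
  · have hn := (A.O_open b a).mem_nhds hO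
    have h1 : ContDiffAt ℝ ∞ (fun y => ψ (A.T b a y) • F (A.c b a x)) x :=
      (hψ.1.contDiffAt.comp x ((A.T_smooth b a).contDiffAt hn)).smul contDiffAt_const
    refine h1.congr_of_eventuallyEq ?_
    filter_upwards [hn, A.c_loc b a x hO] with y hy hy'
    rw [hy', Pre.ext, if_pos hy]
  · have hn := (A.isOpen_off a b hψ.2.1 hψ.2.2).mem_nhds ⟨hx, fun h => hO h.1⟩
    refine (contDiffAt_const (c := (0 : V))).congr_of_eventuallyEq ?_
    filter_upwards [hn] with y hy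
    have h0 : A.ext ψ a b y = 0 := by
      unfold Pre.ext
      split_ifs with h
      · exact image_eq_zero_of_notMem_tsupport fun h' => hy.2 ⟨h, h'⟩
      · rfl
    rw [h0, zero_smul]

theorem Pre.ext_smooth' (A : Pre E Γ) {ψ : E → ℝ} (hψ : IsTest (ball 0 6) ψ) (a b : A.ι) :
    ContDiffOn ℝ ∞ (A.ext ψ a b) (ball 0 6) := by
  simpa using A.ext_smooth hψ a b fun _ => (1 : ℝ)

/-- `ext` is compatible with the transitions -/
theorem Pre.ext_comp (A : Pre E Γ) (ψ : E → ℝ) (a : A.ι) {b d : A.ι} {x : E} (hx : x ∈ A.O b d) :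
    A.ext ψ a d (A.T b d x) = A.ext ψ a b x := by
  unfold Pre.ext
  by_cases h : A.T b d x ∈ A.O d a
  · have h1 := A.cocycle b d a x hx h
    rw [if_pos h, if_pos h1.1, h1.2.1]
  · have h1 : x ∉ A.O b a := fun h' =>
      h (A.cocycle d b a _ (A.T_mem b d x hx) (by rwa [A.T_inv b d x hx])).1
    rw [if_neg h, if_neg h1]

theorem Pre.Pou.mono {A : Pre E Γ} {U' : Set E} {χ : A.ι → E → ℝ} (h : A.Pou U χ) (hU : U ⊆ U') :
    A.Pou U' χ := ⟨fun a => ⟨(h.1 a).1.mono hU, (h.1 a).2⟩, h.2⟩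

theorem Pre.exists_pou (A : Pre E Γ) {R R' : ℝ} (h1 : 1 ≤ R) (h2 : R < R') (h3 : R' < 6) :
    ∃ χ, A.Pou (closedBall 0 R') χ ∧ ∀ a, ∀ x ∈ closedBall (0 : E) R, 0 < χ a x := by
  obtain ⟨β, hβ, hβ1, hβ0⟩ := exists_cutoff (isCompact_closedBall (0 : E) R)
    (isOpen_ball (x := (0 : E)) (ε := R')) (closedBall_subset_ball h2)
  have hβ6 : IsTest (ball 0 6) β := hβ.mono (ball_subset_ball h3.le)
  have hone : ∀ x ∈ closedBall (0 : E) R, β x = 1 := fun x hx => hβ1.self_of_nhdsSet x hx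
  have he : ∀ a b x, 0 ≤ A.ext β a b x := fun a b x => by
    unfold Pre.ext
    split_ifs
    exacts [(hβ0 _).1, le_rfl]
  let s : A.ι → E → ℝ := fun b x => ∑ a, A.ext β a b x
  have hs0 : ∀ b x, 0 ≤ s b x := fun b x => Finset.sum_nonneg fun a _ => he a b x
  have hs : ∀ b, ∀ x ∈ ball (0 : E) 6, 0 < s b x := fun b x hx => by
    obtain ⟨a, ha, hT⟩ := A.cover b x hx
    refine Finset.sum_pos' (fun a _ => he a b x) ⟨a, Finset.mem_univ _, ?_⟩
    rw [Pre.ext, if_pos ha,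
      hone _ (ball_subset_closedBall.trans (closedBall_subset_closedBall h1) hT)]
    exact one_pos
  have hsm : ∀ b, ContDiffOn ℝ ∞ (s b) (ball 0 6) := fun b =>
    ContDiffOn.sum fun a _ => A.ext_smooth' hβ6 a b
  have hts : ∀ a, tsupport (fun x => β x / s a x) ⊆ tsupport β := fun a => by
    simp only [div_eq_mul_inv]
    exact tsupport_mul_subset_left
  refine ⟨fun a x => β x / s a x, ⟨fun a => ⟨⟨?_, ?_, ?_⟩, fun x => div_nonneg (hβ0 x).1 (hs0 a x)⟩,
    fun b x hx => ?_⟩, fun a x hx => ?_⟩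
  · refine contDiff_iff_contDiffAt.2 fun x => ?_
    by_cases hx : x ∈ ball (0 : E) 6
    · exact hβ.1.contDiffAt.div ((hsm a).contDiffAt (isOpen_ball.mem_nhds hx)) (hs a x hx).ne'
    · refine (contDiffAt_const (c := (0 : ℝ))).congr_of_eventuallyEq ?_
      exact notMem_tsupport_iff_eventuallyEq.1 fun h => hx (hβ6.2.2 (hts a h))
  · exact hβ.2.1.of_isClosed_subset (isClosed_tsupport _) (hts a)
  · exact (hts a).trans (hβ.2.2.trans ball_subset_closedBall)
  · have e : ∀ a, A.ext (fun x => β x / s a x) a b x = A.ext β a b x / s b x := fun a => by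
      by_cases h : x ∈ A.O b a
      · have e1 : s a (A.T b a x) = s b x := Finset.sum_congr rfl fun d _ => A.ext_comp β d h
        rw [Pre.ext, Pre.ext, if_pos h, if_pos h, e1]
      · rw [Pre.ext, Pre.ext, if_neg h, if_neg h, zero_div]
    simp only [e]
    rw [← Finset.sum_div]
    exact div_self (hs b x hx).ne'
  · exact div_pos (by rw [hone x hx]; exact one_pos)
      (hs a x (closedBall_subset_ball (h2.trans h3) hx))

end Pool.Agent.PW
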