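import Pool.Agent.P.MP_65ad7c_ag.BExt
import Pool.Agent.P.MP_65ad7c_ag.ABd

open MeasureTheory Set Filter Topology Metric Matrix
open scoped ComplexOrder ContDiff Matrix.Norms.Frobenius RealInnerProductSpace ENNReal
open Pool.Agent.Lib.Sob

noncomputable section
namespace Pool.Agent.PW

variable {E : Type} [NormedAddCommGroup E] [InnerProductSpace ℝ E] [FiniteDimensional ℝ E]
  [MeasurableSpace E] [BorelSpace E] {r : ℕ} {U : Set E} {Γ : Type} [Group Γ]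
  {V : Type} [NormedAddCommGroup V] [NormedSpace ℝ V]

theorem bgau_convex_sum {J : Type} [Fintype J] {s : Set V} (hs : Convex ℝ s) {w : J → ℝ}
    {z : J → V} (h0 : ∀ j, 0 ≤ w j) (h1 : ∑ j, w j = 1) (hz : ∀ j, w j ≠ 0 → z j ∈ s) :
    ∑ j, w j • z j ∈ s := by
  classical
  have h := hs.sum_mem (t := Finset.univ.filter fun j => w j ≠ 0) (w := w) (z := z)
    (fun j _ => h0 j) (by rw [Finset.sum_filter_ne_zero, h1])
    fun j hj => hz j (Finset.mem_filter.1 hj).2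
  rwa [Finset.sum_filter_of_ne] at h
  intro j _ hj hw
  exact hj (by rw [hw, zero_smul])

theorem bgau_convex_posDef : Convex ℝ {P : Mat r | P.PosDef} := by
  intro P hP Q hQ a b ha hb hab
  rcases ha.eq_or_lt with rfl | ha'
  · have : b = 1 := by linarith
    subst this
    simpa using hQ
  · exact (PosDef.smul hP ha').add_posSemidef (PosSemidef.smul (PosDef.posSemidef hQ) hb)

omit [FiniteDimensional ℝ E] [MeasurableSpace E] [BorelSpace E] in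
theorem bgau_c0_bound {Θ : E → V} (hΘ : ContDiffOn ℝ ∞ Θ U) {K : Set E}
    (hK : IsCompact K) (hKU : K ⊆ U) : ∃ M : ℝ, ∀ x ∈ K, ‖Θ x‖ ≤ M :=
  hK.exists_bound_of_continuousOn (hΘ.continuousOn.mono hKU)

omit [FiniteDimensional ℝ E] [MeasurableSpace E] [BorelSpace E] in
theorem bgau_c2_bound {Θ : E → V} (hU : IsOpen U) (hΘ : ContDiffOn ℝ ∞ Θ U) {K : Set E}
    (hK : IsCompact K) (hKU : K ⊆ U) : ∃ M : ℝ, 0 ≤ M ∧ ∀ x ∈ K, ‖Θ x‖ ≤ M ∧
      ‖fderiv ℝ Θ x‖ ≤ M ∧ ‖fderiv ℝ (fderiv ℝ Θ) x‖ ≤ M := by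
  have h1 : ContDiffOn ℝ ∞ (fderiv ℝ Θ) U := hΘ.fderiv_of_isOpen hU (by simp)
  have h2 : ContDiffOn ℝ ∞ (fderiv ℝ (fderiv ℝ Θ)) U := h1.fderiv_of_isOpen hU (by simp)
  obtain ⟨M0, b0⟩ := bgau_c0_bound hΘ hK hKU
  obtain ⟨M1, b1⟩ := bgau_c0_bound h1 hK hKU
  obtain ⟨M2, b2⟩ := bgau_c0_bound h2 hK hKU
  refine ⟨|M0| + |M1| + |M2|, by positivity, fun x hx => ⟨?_, ?_, ?_⟩⟩
  · linarith [b0 x hx, le_abs_self M0, abs_nonneg M1, abs_nonneg M2]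
  · linarith [b1 x hx, le_abs_self M1, abs_nonneg M0, abs_nonneg M2]
  · linarith [b2 x hx, le_abs_self M2, abs_nonneg M0, abs_nonneg M1]

omit [FiniteDimensional ℝ E] [MeasurableSpace E] [BorelSpace E] in
theorem bgau_clm {W : Type} [NormedAddCommGroup W] [NormedSpace ℝ W] {Θ : E → V} {G : E → W}
    (hU : IsOpen U) (hΘ : ContDiffOn ℝ ∞ Θ U) (Λ : V →L[ℝ] W) (hG : ∀ x ∈ U, G x = Λ (Θ x))
    {x : E} (hx : x ∈ U) : ‖G x‖ ≤ ‖Λ‖ * ‖Θ x‖ ∧ ‖fderiv ℝ G x‖ ≤ ‖Λ‖ * ‖fderiv ℝ Θ x‖ ∧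
      ‖fderiv ℝ (fderiv ℝ G) x‖ ≤ ‖Λ‖ * ‖fderiv ℝ (fderiv ℝ Θ) x‖ := by
  have h1 : ContDiffOn ℝ ∞ (fderiv ℝ Θ) U := hΘ.fderiv_of_isOpen hU (by simp)
  have e1 : ∀ y ∈ U, fderiv ℝ G y = ContinuousLinearMap.compL ℝ E V W Λ (fderiv ℝ Θ y) := by
    intro y hy
    have d : DifferentiableAt ℝ Θ y :=
      (hΘ.contDiffAt (hU.mem_nhds hy)).differentiableAt (by simp)
    have ev : G =ᶠ[𝓝 y] fun z => Λ (Θ z) := by
      filter_upwards [hU.mem_nhds hy] with z hz using hG z hz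
    rw [ev.fderiv_eq]
    exact (Λ.hasFDerivAt.comp y d.hasFDerivAt).fderiv
  have e2 : fderiv ℝ (fderiv ℝ G) x
      = (ContinuousLinearMap.compL ℝ E V W Λ).comp (fderiv ℝ (fderiv ℝ Θ) x) := by
    have d : DifferentiableAt ℝ (fderiv ℝ Θ) x :=
      (h1.contDiffAt (hU.mem_nhds hx)).differentiableAt (by simp)
    have ev : fderiv ℝ G =ᶠ[𝓝 x]
        fun z => ContinuousLinearMap.compL ℝ E V W Λ (fderiv ℝ Θ z) := by
      filter_upwards [hU.mem_nhds hx] with z hz using e1 z hz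
    rw [ev.fderiv_eq]
    exact ((ContinuousLinearMap.compL ℝ E V W Λ).hasFDerivAt.comp x d.hasFDerivAt).fderiv
  have hn : ‖ContinuousLinearMap.compL ℝ E V W Λ‖ ≤ ‖Λ‖ :=
    ContinuousLinearMap.opNorm_le_bound _ (norm_nonneg _) fun X => Λ.opNorm_comp_le X
  refine ⟨?_, ?_, ?_⟩
  · rw [hG x hx]
    exact Λ.le_opNorm _
  · rw [e1 x hx]
    exact Λ.opNorm_comp_le _
  · rw [e2]
    exact (ContinuousLinearMap.opNorm_comp_le _ _).trans
      (mul_le_mul_of_nonneg_right hn (norm_nonneg _))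

theorem bgau_lin {J : Type} [Fintype J] (v : J → V) {N : ℝ} (hN : 0 ≤ N) (hv : ∀ j, ‖v j‖ ≤ N) :
    ∃ Λ : (J → ℝ) →L[ℝ] V, (∀ a, Λ a = ∑ j, a j • v j) ∧ ‖Λ‖ ≤ Fintype.card J * N := by
  refine ⟨∑ j, (ContinuousLinearMap.proj j : (J → ℝ) →L[ℝ] ℝ).smulRight (v j), fun a => by simp,
    ContinuousLinearMap.opNorm_le_bound _ (by positivity) fun a => ?_⟩
  simp only [_root_.sum_apply, ContinuousLinearMap.smulRight_apply,
    ContinuousLinearMap.proj_apply]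
  refine (norm_sum_le _ _).trans ?_
  have h : ∀ j ∈ (Finset.univ : Finset J), ‖a j • v j‖ ≤ N * ‖a‖ := by
    intro j _
    rw [norm_smul, mul_comm]
    exact mul_le_mul (hv j) (norm_le_pi_norm a j) (norm_nonneg _) hN
  refine (Finset.sum_le_sum h).trans ?_
  rw [Finset.sum_const, Finset.card_univ, nsmul_eq_mul, mul_assoc]

omit [FiniteDimensional ℝ E] [MeasurableSpace E] [BorelSpace E] in
theorem bgau_ext_nonneg (A : Pre E Γ) {ψ : E → ℝ} (h : ∀ x, 0 ≤ ψ x) (a b : A.ι) (x : E) :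
    0 ≤ A.ext ψ a b x := by
  unfold Pre.ext
  split_ifs
  · exact h _
  · exact le_rfl

omit [FiniteDimensional ℝ E] [MeasurableSpace E] [BorelSpace E] in
theorem bgau_ext_mem (A : Pre E Γ) {ψ : E → ℝ} {a b : A.ι} {x : E} (h : A.ext ψ a b x ≠ 0) :
    x ∈ A.O b a ∧ A.T b a x ∈ tsupport ψ := by
  unfold Pre.ext at h
  split_ifs at h with hx
  · exact ⟨hx, subset_tsupport _ h⟩
  · exact absurd rfl h

omit [MeasurableSpace E] [BorelSpace E] in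
theorem bgau_c_mem (A : Pre E Γ) {χ : A.ι → E → ℝ} (hχ : A.Pou (closedBall 0 (9 / 2)) χ)
    {a b : A.ι} {x : E} (hx : ‖x‖ ≤ 5) (h : A.ext (χ a) a b x ≠ 0) : A.c b a x ∈ A.S := by
  obtain ⟨h1, h2⟩ := bgau_ext_mem A h
  have h3 := (hχ.1 a).1.2.2 h2
  rw [mem_closedBall, dist_zero_right] at h3
  exact A.S_mem b a x h1 hx (by linarith)

theorem bgau_gm (ρ : Γ →* Mat r) (γ : Γ) : (ρ γ⁻¹)ᴴ * ρ γ⁻¹ = gm 1 (ρ γ⁻¹) := by
  simp [gm]

theorem bgau_inv (ρ : Γ →* Mat r) (γ : Γ) : ρ γ⁻¹ * ρ γ = 1 := by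
  rw [← map_mul, inv_mul_cancel, map_one]

theorem Pre.gau_smooth (A : Pre E Γ) {χ : A.ι → E → ℝ} (hχ : A.Pou (ball 0 6) χ) (F : Γ → Mat r)
    (b : A.ι) : ContDiffOn ℝ ∞ (A.gau χ F b) (ball 0 6) := by
  exact ContDiffOn.sum fun a _ => A.ext_smooth (hχ.1 a).1 a b F

/-- uniform `C²` bounds -/
theorem Pre.gau_bound (A : Pre E Γ) {χ : A.ι → E → ℝ} (hχ : A.Pou (closedBall 0 (9 / 2)) χ) :
    ∃ L : ℝ, 0 ≤ L ∧ ∀ (F : Γ → Mat r) (N : ℝ), 0 ≤ N → (∀ s ∈ A.S, ‖F s‖ ≤ N) →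
      ∀ b, ∀ x ∈ closedBall (0 : E) (9 / 2), ‖A.gau χ F b x‖ ≤ L * N ∧
        ‖fderiv ℝ (A.gau χ F b) x‖ ≤ L * N ∧ ‖fderiv ℝ (fderiv ℝ (A.gau χ F b)) x‖ ≤ L * N := by
  classical
  have h96 : closedBall (0 : E) (9 / 2) ⊆ ball 0 6 := closedBall_subset_ball (by norm_num)
  have h95 : closedBall (0 : E) (9 / 2) ⊆ ball 0 5 := closedBall_subset_ball (by norm_num)
  have h56 : ball (0 : E) 5 ⊆ ball 0 6 := ball_subset_ball (by norm_num)
  set Θ : A.ι → E → (A.ι × A.S → ℝ) := fun b x j =>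
    A.ext (χ j.1) j.1 b x • (if A.c b j.1 x = j.2 then (1 : ℝ) else 0) with hΘ
  have sΘ : ∀ b, ContDiffOn ℝ ∞ (Θ b) (ball 0 5) := fun b => contDiffOn_pi.2 fun j =>
    (A.ext_smooth ((hχ.1 j.1).1.mono h96) j.1 b
      fun γ => if γ = j.2 then (1 : ℝ) else 0).mono h56
  choose M hM0 hM using fun b => bgau_c2_bound isOpen_ball (sΘ b) (isCompact_closedBall _ _) h95
  have hMs : ∀ b, M b ≤ ∑ d, M d := fun b =>
    Finset.single_le_sum (fun d _ => hM0 d) (Finset.mem_univ b)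
  have hM1 : 0 ≤ ∑ d, M d := Finset.sum_nonneg fun d _ => hM0 d
  refine ⟨Fintype.card (A.ι × A.S) * ∑ d, M d, by positivity, fun F N hN hF b x hx => ?_⟩
  obtain ⟨Λ, hΛ, hΛn⟩ := bgau_lin (J := A.ι × A.S) (fun j => F j.2) hN fun j => hF _ j.2.2
  have hG : ∀ y ∈ ball (0 : E) 5, A.gau χ F b y = Λ (Θ b y) := by
    intro y hy
    rw [hΛ, Fintype.sum_prod_type]
    refine Finset.sum_congr rfl fun a _ => ?_
    by_cases h : A.ext (χ a) a b y = 0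
    · simp [hΘ, h]
    · have hc := bgau_c_mem A hχ (mem_ball_zero_iff.1 hy).le h
      rw [Finset.sum_eq_single (⟨_, hc⟩ : A.S)]
      · simp [hΘ]
      · intro s _ hs
        have : A.c b a y ≠ s := fun e => hs (Subtype.ext e.symm)
        simp [hΘ, this]
      · simp
  obtain ⟨k0, k1, k2⟩ := bgau_clm isOpen_ball (sΘ b) Λ hG (h95 hx)
  obtain ⟨m0, m1, m2⟩ := hM b x hx
  have key : ∀ t : ℝ, 0 ≤ t → t ≤ M b →
      ‖Λ‖ * t ≤ Fintype.card (A.ι × A.S) * (∑ d, M d) * N := by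
    intro t ht htM
    rw [mul_right_comm]
    exact mul_le_mul hΛn (htM.trans (hMs b)) ht (by positivity)
  exact ⟨k0.trans (key _ (norm_nonneg _) m0), k1.trans (key _ (norm_nonneg _) m1),
    k2.trans (key _ (ContinuousLinearMap.opNorm_nonneg _) m2)⟩

theorem Atlas.h0_ref (A : Atlas E Γ) {χ : A.ι → E → ℝ} (hχ : A.Pou (ball 0 6) χ)
    (ρ : Γ →* Mat r) : A.Ref ρ (A.h0 χ ρ) := by
  refine ⟨fun a => A.gau_smooth hχ _ a, fun b x hx => ?_, fun a b x hx => ?_⟩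
  · refine bgau_convex_sum bgau_convex_posDef
      (fun a => bgau_ext_nonneg A.toPre (hχ.1 a).2 a b x) (hχ.2 b x hx) fun a _ => ?_
    simp only [mem_ofPred_eq, bgau_gm]
    exact gm_posDef PosDef.one (bgau_inv ρ _)
  · simp only [Pre.h0, Pre.gau, gm, Finset.mul_sum, Finset.sum_mul]
    refine Finset.sum_congr rfl fun d _ => ?_
    by_cases h : A.ext (χ d) d b (A.T a b x) = 0
    · have h' := h
      rw [A.ext_comp _ _ hx.1] at h'
      simp [h, h']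
    · obtain ⟨-, -, hc⟩ := A.cocycle a b d x hx.1 (bgau_ext_mem A.toPre h).1
      have e : ρ (A.c b d (A.T a b x))⁻¹ = ρ (A.c a d x)⁻¹ * ρ (A.c a b x) := by
        rw [← map_mul, hc]
        simp
      rw [A.ext_comp _ _ hx.1, e]
      simp only [conjTranspose_mul, Matrix.mul_smul, Matrix.smul_mul, Matrix.mul_assoc]

theorem Atlas.h0_bd (A : Atlas E Γ) {χ : A.ι → E → ℝ} (hχ : A.Pou (closedBall 0 (9 / 2)) χ)
    (N : ℝ) : ∃ B : ℝ, 1 ≤ B ∧ ∀ ρ : Γ →* Mat r, A.Sz N ρ → A.RefBd B (A.h0 χ ρ) := by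
  obtain ⟨L, hL0, hL⟩ := A.gau_bound (r := r) hχ
  have h96 : closedBall (0 : E) (9 / 2) ⊆ ball 0 6 := closedBall_subset_ball (by norm_num)
  set N₁ := max N 1 with hN₁
  have hN1 : 1 ≤ N₁ := le_max_right _ _
  have hN2 : 1 ≤ N₁ * N₁ := one_le_mul_of_one_le_of_one_le hN1 hN1
  have hLN : 0 ≤ L * (N₁ * N₁) := by positivity
  refine ⟨N₁ * N₁ + L * (N₁ * N₁), by linarith, fun ρ hρ b x hx => ?_⟩
  have hρ' : ∀ s ∈ A.S, ‖ρ s‖ ≤ N₁ := fun s hs => (hρ s hs).trans (le_max_left _ _)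
  have hct : ∀ X : Mat r, ‖Xᴴ‖ = ‖X‖ := fun X => Matrix.frobenius_norm_conjTranspose X
  have hF : ∀ s ∈ A.S, ‖(ρ s⁻¹)ᴴ * ρ s⁻¹‖ ≤ N₁ * N₁ := by
    intro s hs
    have h1 := hρ' _ (A.S_inv s hs)
    refine (norm_mul_le _ _).trans ?_
    rw [hct]
    exact mul_le_mul h1 h1 (norm_nonneg _) (by linarith)
  obtain ⟨-, k1, k2⟩ := hL (fun γ => (ρ γ⁻¹)ᴴ * ρ γ⁻¹) (N₁ * N₁) (by linarith) hF b x hx
  refine ⟨Bd.mono (C := N₁ * N₁) (by linarith) (by linarith) ?_, k1.trans (by linarith),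
    k2.trans (by linarith)⟩
  refine bgau_convex_sum (convex_obst (N₁ * N₁) 1)
    (fun a => bgau_ext_nonneg A.toPre (hχ.1 a).2 a b x) (hχ.2 b x (h96 hx)) fun a ha => ?_
  have hs := bgau_c_mem A.toPre hχ ((mem_closedBall_zero_iff.1 hx).trans (by norm_num)) ha
  refine bd_of_norm (by linarith) ?_ (hF _ hs) ?_
  · beta_reduce
    rw [bgau_gm]
    exact gm_posDef PosDef.one (bgau_inv ρ _)
  · have h1 := hρ' _ hs
    beta_reduce
    rw [bgau_gm, gm_inv PosDef.one (bgau_inv ρ _), inv_one, Matrix.mul_one]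
    refine (norm_mul_le _ _).trans ?_
    rw [hct]
    exact mul_le_mul h1 h1 (norm_nonneg _) (by linarith)

end Pool.Agent.PW
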