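import Pool.Agent.P.MP_65ad7c_ag.BInt0

open MeasureTheory Set Filter Topology Metric Matrix
open scoped ComplexOrder ContDiff Matrix.Norms.Frobenius RealInnerProductSpace ENNReal
open Pool.Agent.Lib.Sob

noncomputable section
namespace Pool.Agent.PW

variable {E : Type} [NormedAddCommGroup E] [InnerProductSpace ℝ E] [FiniteDimensional ℝ E]
  [MeasurableSpace E] [BorelSpace E] {r : ℕ} {U : Set E} {Γ : Type} [Group Γ]
  {V : Type} [NormedAddCommGroup V] [NormedSpace ℝ V]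

theorem bint_two : (2 : WithTop ℕ∞) ≤ ((⊤ : ℕ∞) : WithTop ℕ∞) :=
  WithTop.coe_le_coe.2 (le_top : (2 : ℕ∞) ≤ ⊤)

set_option linter.unusedSectionVars false

theorem bint_jet {f g : E → ℝ} {x : E} (h : f =ᶠ[𝓝 x] g) :
    fderiv ℝ f x = fderiv ℝ g x ∧ fderiv ℝ (fderiv ℝ f) x = fderiv ℝ (fderiv ℝ g) x :=
  ⟨h.fderiv_eq, h.fderiv.fderiv_eq⟩

theorem bint_jet_const {f : E → ℝ} {x : E} {c : ℝ} (h : f =ᶠ[𝓝 x] fun _ => c) :
    fderiv ℝ f x = 0 ∧ fderiv ℝ (fderiv ℝ f) x = 0 := by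
  obtain ⟨h1, h2⟩ := bint_jet h
  have h3 : fderiv ℝ (fun _ : E => c) = fun _ => 0 := by
    funext y; simp
  refine ⟨by rw [h1, h3], ?_⟩
  rw [h2, h3]; simp

theorem bint_jet_sum {ι : Type} (s : Finset ι) {f : ι → E → ℝ} {x : E}
    (hf : ∀ i ∈ s, ContDiffAt ℝ 2 (f i) x) :
    fderiv ℝ (fun y => ∑ i ∈ s, f i y) x = ∑ i ∈ s, fderiv ℝ (f i) x ∧
      fderiv ℝ (fderiv ℝ fun y => ∑ i ∈ s, f i y) x = ∑ i ∈ s, fderiv ℝ (fderiv ℝ (f i)) x := by
  have hev : ∀ᶠ y in 𝓝 x, ∀ i ∈ s, DifferentiableAt ℝ (f i) y := by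
    rw [Filter.eventually_all_finset]
    intro i hi
    filter_upwards [(hf i hi).eventually (by simp)] with y hy
    exact hy.differentiableAt (by simp)
  have h1 : (fderiv ℝ fun y => ∑ i ∈ s, f i y) =ᶠ[𝓝 x] fun y => ∑ i ∈ s, fderiv ℝ (f i) y := by
    filter_upwards [hev] with y hy
    exact fderiv_fun_sum hy
  refine ⟨h1.eq_of_nhds, ?_⟩
  rw [h1.fderiv_eq]
  refine fderiv_fun_sum fun i hi => ?_
  exact ((hf i hi).fderiv_right (m := 1) (by norm_num)).differentiableAt (by simp)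

/-- an invariant density that is additive in the 2-jet of a function sums to zero over a
partition of unity -/
theorem Pre.pou_zero [CompleteSpace V] (A : Pre E Γ) (hU : IsOpen U) (hU6 : U ⊆ ball 0 6)
    {χ : A.ι → E → ℝ} (hχ : A.Pou U χ)
    (P : A.ι → E → (E →L[ℝ] ℝ) → (E →L[ℝ] E →L[ℝ] ℝ) → V)
    (hadd : ∀ a x p p' q q', P a x (p + p') (q + q') = P a x p q + P a x p' q')
    (hint : ∀ a φ, ContDiffOn ℝ ∞ φ U →
      LocLp 1 U fun x => P a x (fderiv ℝ φ x) (fderiv ℝ (fderiv ℝ φ) x))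
    (hinv : ∀ a b, ∀ᵐ x, x ∈ A.ov U a b → ∀ φ : E → ℝ, ContDiffAt ℝ 2 φ (A.T a b x) →
      P a x (fderiv ℝ (fun y => φ (A.T a b y)) x)
          (fderiv ℝ (fderiv ℝ fun y => φ (A.T a b y)) x) =
        A.jac a b x • P b (A.T a b x) (fderiv ℝ φ (A.T a b x))
          (fderiv ℝ (fderiv ℝ φ) (A.T a b x))) :
    ∑ a, ∫ x, P a x (fderiv ℝ (χ a) x) (fderiv ℝ (fderiv ℝ (χ a)) x) = 0 := by
  classical
  have hP0 : ∀ a x, P a x 0 0 = 0 := fun a x => by
    have := hadd a x 0 0 0 0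
    have e : (0 : E →L[ℝ] E →L[ℝ] ℝ) + 0 = 0 := by ext; simp
    rw [add_zero, e] at this
    exact left_eq_add.1 this
  have hPsum : ∀ a x (s : Finset A.ι) (p : A.ι → E →L[ℝ] ℝ) (q : A.ι → E →L[ℝ] E →L[ℝ] ℝ),
      P a x (∑ b ∈ s, p b) (∑ b ∈ s, q b) = ∑ b ∈ s, P a x (p b) (q b) := by
    intro a x s p q
    induction s using Finset.induction_on with
    | empty => simpa using hP0 a x
    | insert b s hb ih => rw [Finset.sum_insert hb, Finset.sum_insert hb, Finset.sum_insert hb,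
        hadd, ih]
  have ht6 : ∀ b, IsTest (ball 0 6) (χ b) := fun b => (hχ.1 b).1.mono hU6
  have hsm : ∀ b a, ContDiffOn ℝ ∞ (A.ext (χ b) b a) (ball 0 6) := fun b a =>
    A.ext_smooth' (ht6 b) b a
  set F : A.ι → A.ι → E → V := fun b a x => P a x (fderiv ℝ (A.ext (χ b) b a) x)
    (fderiv ℝ (fderiv ℝ (A.ext (χ b) b a)) x) with hFdef
  have hloc : ∀ b a, LocLp 1 U (F b a) := fun b a => hint a _ ((hsm b a).mono hU6)
  have hself : ∀ b, ∀ x ∈ ball (0 : E) 6, A.ext (χ b) b b =ᶠ[𝓝 x] χ b := by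
    intro b x hx
    filter_upwards [isOpen_ball.mem_nhds hx] with y hy
    have : y ∈ A.O b b := by rw [A.O_self]; exact hy
    simp only [Pre.ext, if_pos this, A.T_self b y hy]
  have hout : ∀ b x, x ∉ tsupport (χ b) →
      P b x (fderiv ℝ (χ b) x) (fderiv ℝ (fderiv ℝ (χ b)) x) = 0 := by
    intro b x hx
    have : χ b =ᶠ[𝓝 x] fun _ => (0 : ℝ) := notMem_tsupport_iff_eventuallyEq.1 hx
    obtain ⟨h1, h2⟩ := bint_jet_const this
    rw [h1, h2, hP0]
  have key : ∀ b, ∑ a, ∫ x, χ a x • F b a x =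
      ∫ x, P b x (fderiv ℝ (χ b) x) (fderiv ℝ (fderiv ℝ (χ b)) x) := by
    intro b
    have hK : IsCompact (tsupport (χ b)) := (hχ.1 b).1.2.1
    have hKU : tsupport (χ b) ⊆ U := (hχ.1 b).1.2.2
    have hFb : ∀ x ∈ U, F b b x = P b x (fderiv ℝ (χ b) x) (fderiv ℝ (fderiv ℝ (χ b)) x) := by
      intro x hx
      obtain ⟨h1, h2⟩ := bint_jet (hself b x (hU6 hx))
      simp only [hFdef, h1, h2]
    rw [A.int_dens hU hU6 hχ (F := F b) b hK hKU (hloc b b)]
    · rw [setIntegral_congr_fun hU.measurableSet hFb]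
      exact setIntegral_eq_integral_of_forall_compl_eq_zero fun x hx =>
        hout b x fun h => hx (hKU h)
    · intro a
      filter_upwards [hinv a b] with x hx hxo
      have hT : A.T a b x ∈ ball (0 : E) 6 := hU6 hxo.2.2
      have hc : ContDiffAt ℝ 2 (A.ext (χ b) b b) (A.T a b x) :=
        ((hsm b b).contDiffAt (isOpen_ball.mem_nhds hT)).of_le bint_two
      have hev : A.ext (χ b) b a =ᶠ[𝓝 x] fun y => A.ext (χ b) b b (A.T a b y) := by
        filter_upwards [(A.O_open a b).mem_nhds hxo.1] with y hy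
        exact (A.ext_comp (χ b) b hy).symm
      obtain ⟨h1, h2⟩ := bint_jet hev
      simp only [hFdef, h1, h2]
      exact hx hxo _ hc
    · refine Eventually.of_forall fun x hx hxK => ?_
      rw [hFb x hx]; exact hout b x hxK
    · intro a
      refine Eventually.of_forall fun x hx hxo => ?_
      have hop := A.isOpen_off b a hK (hKU.trans hU6)
      have hmem : x ∈ {x | x ∈ ball (0 : E) 6 ∧ ¬(x ∈ A.O a b ∧ A.T a b x ∈ tsupport (χ b))} :=
        ⟨hU6 hx, fun h => hxo ⟨h.1, hx, hKU h.2⟩⟩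
      have hev : A.ext (χ b) b a =ᶠ[𝓝 x] fun _ => (0 : ℝ) := by
        filter_upwards [hop.mem_nhds hmem] with y hy
        by_cases hyo : y ∈ A.O a b
        · simp only [Pre.ext, if_pos hyo]
          exact image_eq_zero_of_notMem_tsupport fun h => hy.2 ⟨hyo, h⟩
        · simp only [Pre.ext, if_neg hyo]
      obtain ⟨h1, h2⟩ := bint_jet_const hev
      simp only [hFdef, h1, h2, hP0]
  rw [← Finset.sum_congr rfl fun b _ => key b, Finset.sum_comm]
  refine Finset.sum_eq_zero fun a _ => ?_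
  have hi : ∀ b, Integrable fun x => χ a x • F b a x := fun b =>
    (hloc b a).integrable_test le_rfl (hχ.1 a).1
  rw [← integral_finsetSum _ fun b _ => hi b]
  refine integral_eq_zero_of_ae (Eventually.of_forall fun x => ?_)
  by_cases hx : x ∈ U
  · have hx6 := hU6 hx
    have hev : (fun y => ∑ b, A.ext (χ b) b a y) =ᶠ[𝓝 x] fun _ => (1 : ℝ) := by
      filter_upwards [isOpen_ball.mem_nhds hx6] with y hy
      exact hχ.2 a y hy
    obtain ⟨h1, h2⟩ := bint_jet_const hev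
    obtain ⟨h3, h4⟩ := bint_jet_sum (Finset.univ : Finset A.ι) (f := fun b => A.ext (χ b) b a)
      (x := x) fun b _ =>
        ((hsm b a).contDiffAt (isOpen_ball.mem_nhds hx6)).of_le bint_two
    show ∑ b, χ a x • F b a x = 0
    rw [← Finset.smul_sum]
    simp only [hFdef]
    rw [← hPsum, ← h3, ← h4, h1, h2, hP0, smul_zero]
  · have : χ a x = 0 := image_eq_zero_of_notMem_tsupport fun h => hx ((hχ.1 a).1.2.2 h)
    show ∑ b, χ a x • F b a x = 0
    simp [this]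

end Pool.Agent.PW
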