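import Pool.Agent.P.MP_65ad7c_ag.TBil
import Pool.Agent.P.MP_65ad7c_ag.ANf

open MeasureTheory Set Filter Topology Metric Matrix
open scoped ComplexOrder ContDiff Matrix.Norms.Frobenius RealInnerProductSpace ENNReal
open Pool.Agent.Lib.Sob

noncomputable section
namespace Pool.Agent.PW

variable {E : Type} [NormedAddCommGroup E] [InnerProductSpace ℝ E] [FiniteDimensional ℝ E]
  [MeasurableSpace E] [BorelSpace E] {r : ℕ} {U : Set E}
  {V W : Type} [NormedAddCommGroup V] [NormedSpace ℝ V] [NormedAddCommGroup W] [NormedSpace ℝ W]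

/-- the derivative of a compactly supported function is compactly supported -/
theorem wd_cs_ae [CompleteSpace V] {n : ℕ} (hn : 1 ≤ n) (hU : IsOpen U) {u : E → V}
    {D : E → E →L[ℝ] V} (h : WD n U u D) {K : Set E} (hK : IsClosed K)
    (h0 : ∀ x ∈ U, x ∉ K → u x = 0) : ∀ᵐ x, x ∈ U → x ∉ K → D x = 0 := by
  have hz : ∀ᵐ x, x ∈ U \ K → D x = 0 :=
    ((h.mono sdiff_subset).congr' (fun x hx => h0 x hx.1 hx.2) (fun _ _ => rfl)).unique hn
      (hU.sdiff hK) (WD.const hn 0)
  filter_upwards [hz] with x hx h1 h2 using hx ⟨h1, h2⟩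

/-- a locally integrable function vanishing a.e. off a compact set is integrable -/
theorem integrableOn_of_cs (hU : IsOpen U) {u : E → V} (h : LocLp 1 U u) {K : Set E}
    (hK : IsCompact K) (hKU : K ⊆ U) (h0 : ∀ᵐ x, x ∈ U → x ∉ K → u x = 0) :
    IntegrableOn u U ∧ ∫ x in U, u x = ∫ x in K, u x := by
  have hz : ∀ᵐ x, x ∈ U \ K → u x = 0 := by
    filter_upwards [h0] with x hx h1 using hx h1.1 h1.2
  exact ⟨(h.integrableOn le_rfl hK hKU).of_ae_sdiff_eq_zero hU.measurableSet.nullMeasurableSet hz,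
    setIntegral_eq_of_subset_of_ae_sdiff_eq_zero hU.measurableSet.nullMeasurableSet hKU hz⟩

/-- pairing with a fixed `L²` function is continuous for `L²` convergence -/
theorem ttest_lim {X A B C : Type*} [MeasurableSpace X] {μ : Measure X}
    [NormedAddCommGroup A] [NormedSpace ℝ A] [NormedAddCommGroup B] [NormedSpace ℝ B]
    [NormedAddCommGroup C] [NormedSpace ℝ C] (L : A →L[ℝ] B →L[ℝ] C) {f : X → A}
    (hf : MemLp f 2 μ) {g : ℕ → X → B} {g0 : X → B} (hg : ∀ k, MemLp (g k) 2 μ)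
    (hg0 : MemLp g0 2 μ)
    (h : Tendsto (fun k => ∫⁻ x, ‖g k x - g0 x‖ₑ ^ 2 ∂μ) atTop (𝓝 0)) :
    Tendsto (fun k => ∫ x, L (f x) (g k x) ∂μ) atTop (𝓝 (∫ x, L (f x) (g0 x) ∂μ)) := by
  have h2 : Tendsto (fun k => eLpNorm (fun x => g k x - g0 x) 2 μ) atTop (𝓝 0) := by
    have e : ∀ k, eLpNorm (fun x => g k x - g0 x) 2 μ =
        (∫⁻ x, ‖g k x - g0 x‖ₑ ^ 2 ∂μ) ^ (2⁻¹ : ℝ) := by
      intro k
      have := lintegral_pow_eq (n := 2) (μ := μ) (by norm_num) (fun x => g k x - g0 x)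
      rw [this]
      have h3 := ENNReal.pow_rpow_inv_natCast (n := 2) (by norm_num)
        (eLpNorm (fun x => g k x - g0 x) 2 μ)
      simpa using h3.symm
    simp only [e]
    have := (ENNReal.continuous_rpow_const (y := (2⁻¹ : ℝ))).tendsto 0
    rw [ENNReal.zero_rpow_of_pos (by norm_num)] at this
    exact this.comp h
  refine tendsto_integral_of_L1 _ (L.aestronglyMeasurable_comp₂ hf.1 hg0.1)
    (Eventually.of_forall fun k => memLp_one_iff_integrable.1 (L.memLp_of_bilin 1 hf (hg k))) ?_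
  have h3 : Tendsto (fun k => (‖L‖₊ * eLpNorm f 2 μ) * eLpNorm (fun x => g k x - g0 x) 2 μ)
      atTop (𝓝 0) := by
    have := ENNReal.Tendsto.const_mul (a := ‖L‖₊ * eLpNorm f 2 μ) h2
      (Or.inr (ENNReal.mul_ne_top ENNReal.coe_ne_top hf.2.ne))
    simpa using this
  refine tendsto_of_tendsto_of_tendsto_of_le_of_le tendsto_const_nhds h3 (fun _ => zero_le)
    fun k => ?_
  have h4 := eLpNorm_le_eLpNorm_mul_eLpNorm_of_nnnorm (p := 2) (q := 2) (r := 1) hf.1
    ((hg k).1.sub hg0.1) (fun a b => L a b) ‖L‖₊ (.of_forall fun _ => L.le_opNorm₂ _ _)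
  rw [eLpNorm_one_eq_lintegral_enorm] at h4
  simp only [Pi.sub_apply, map_sub] at h4
  exact h4

/-- weak identities extend to compactly supported `W^{1,2}` test functions -/
theorem test_ext [CompleteSpace V] (hU : IsOpen U) {X : E → (E →L[ℝ] ℝ) →L[ℝ] V} {Z : E → V}
    (hX : LocLp 2 U X) (hZ : LocLp 2 U Z)
    (h : ∀ φ, IsTest U φ → ∫ x, X x (fderiv ℝ φ x) = ∫ x, φ x • Z x) {η : E → ℝ}
    {Dη : E → E →L[ℝ] ℝ} (hη : WD 2 U η Dη) (hc : CS U η) :
    ∫ x in U, X x (Dη x) = ∫ x in U, η x • Z x := by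
  obtain ⟨K, hK, hKU, h0⟩ := hc
  obtain ⟨K', hK', hKK', hK'U, φ, hφ, t1, t2⟩ := hη.approx_test (by norm_num) hU hK hKU h0
  have hD := wd_cs_ae (by norm_num) hU hη hK.isClosed h0
  have mK := hK.measurableSet
  have r1 : Tendsto (fun k => ∫⁻ x in K', ‖φ k x - K.indicator η x‖ₑ ^ 2) atTop (𝓝 0) :=
    tendsto_of_tendsto_of_tendsto_of_le_of_le tendsto_const_nhds t1 (fun _ => zero_le)
      fun k => setLIntegral_le_lintegral _ _
  have r2 : Tendsto (fun k => ∫⁻ x in K', ‖fderiv ℝ (φ k) x - K.indicator Dη x‖ₑ ^ 2) atTop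
      (𝓝 0) :=
    tendsto_of_tendsto_of_tendsto_of_le_of_le tendsto_const_nhds t2 (fun _ => zero_le)
      fun k => setLIntegral_le_lintegral _ _
  have a1 := ttest_lim (ContinuousLinearMap.id ℝ ((E →L[ℝ] ℝ) →L[ℝ] V)) (hX K' hK' hK'U)
    (fun k => LocLp.of_continuousOn (n := 2) (hφ k).continuous_fderiv.continuousOn K' hK' hK'U)
    ((hη.2.1 K' hK' hK'U).indicator mK) r2
  have a2 := ttest_lim (ContinuousLinearMap.lsmul ℝ ℝ (E := V)).flip (hZ K' hK' hK'U)
    (fun k => LocLp.of_continuousOn (n := 2) (hφ k).continuous.continuousOn K' hK' hK'U)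
    ((hη.1 K' hK' hK'U).indicator mK) r1
  simp only [ContinuousLinearMap.id_apply, ContinuousLinearMap.flip_apply,
    ContinuousLinearMap.lsmul_apply] at a1 a2
  have e : ∀ k, ∫ x in K', X x (fderiv ℝ (φ k) x) = ∫ x in K', φ k x • Z x := by
    intro k
    rw [setIntegral_eq_integral_of_forall_compl_eq_zero
        (fun x hx => by rw [(hφ k).fderiv_zero_of_notMem hx, map_zero]),
      setIntegral_eq_integral_of_forall_compl_eq_zero
        (fun x hx => by rw [(hφ k).zero_of_notMem hx, zero_smul])]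
    exact h _ ((hφ k).mono hK'U)
  simp only [e] at a1
  have key := tendsto_nhds_unique a1 a2
  have e1 : ∫ x in U, X x (Dη x) = ∫ x in K', X x (K.indicator Dη x) := by
    rw [setIntegral_eq_of_subset_of_ae_sdiff_eq_zero hU.measurableSet.nullMeasurableSet hK'U]
    · refine setIntegral_congr_ae hK'.measurableSet ?_
      filter_upwards [hD] with x hx hxK'
      by_cases hxK : x ∈ K
      · rw [indicator_of_mem hxK]
      · rw [indicator_of_notMem hxK, hx (hK'U hxK') hxK]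
    · filter_upwards [hD] with x hx hx'
      rw [hx hx'.1 fun h' => hx'.2 (hKK' h'), map_zero]
  have e2 : ∫ x in U, η x • Z x = ∫ x in K', K.indicator η x • Z x := by
    rw [setIntegral_eq_of_subset_of_ae_sdiff_eq_zero hU.measurableSet.nullMeasurableSet hK'U]
    · refine setIntegral_congr_fun hK'.measurableSet fun x hxK' => ?_
      by_cases hxK : x ∈ K
      · simp only [indicator_of_mem hxK]
      · simp only [indicator_of_notMem hxK, h0 x (hK'U hxK') hxK]
    · refine Eventually.of_forall fun x hx' => ?_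
      rw [h0 x hx'.1 fun h' => hx'.2 (hKK' h'), zero_smul]
  rw [e1, e2, key]

theorem ttest_smulRight {n : ℕ} {u : E → V} (h : LocLp n U u) {ζ : E → W →L[ℝ] ℝ}
    (hζ : ContinuousOn ζ U) : LocLp n U (fun x => (ζ x).smulRight (u x)) := by
  refine h.of_le_mul hζ.norm (fun K hK hKU => ?_) (Eventually.of_forall fun x _ => ?_)
  · have h1 := (hζ.mono hKU).aestronglyMeasurable hK.measurableSet (μ := volume)
    exact (ContinuousLinearMap.smulRightL ℝ W V).aestronglyMeasurable_comp₂ h1 (h K hK hKU).1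
  · rw [ContinuousLinearMap.norm_smulRight_apply]

omit [NormedSpace ℝ V] in
theorem ttest_sum {ι : Type} [Fintype ι] {n : ℕ} {u : ι → E → V} (h : ∀ i, LocLp n U (u i)) :
    LocLp n U fun x => ∑ i, u i x :=
  fun K hK hKU => memLp_finsetSum _ fun i _ => h i K hK hKU

/-- vector valued test functions, paired by a bilinear form -/
theorem ttest_gen [FiniteDimensional ℝ V] (Q : V →ₗ[ℝ] V →ₗ[ℝ] ℝ) (hU : IsOpen U)
    {α : E → E →L[ℝ] E} (hα : ContinuousOn α U)
    {Y : E → E →L[ℝ] V} {Z : E → V} (hY : LocLp 2 U Y) (hZ : LocLp 2 U Z)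
    (h : ∀ φ, IsTest U φ →
      ∫ x, ∑ p, fderiv ℝ φ x (α x (ob E p)) • Y x (ob E p) = ∫ x, φ x • Z x)
    {ζ : E → V} {Dζ : E → E →L[ℝ] V} (hζ : WD 2 U ζ Dζ) (hc : CS U ζ) :
    ∫ x in U, ∑ p, Q (Y x (ob E p)) (Dζ x (α x (ob E p))) = ∫ x in U, Q (Z x) (ζ x) := by
  have : CompleteSpace V := FiniteDimensional.complete ℝ V
  obtain ⟨K, hK, hKU, h0⟩ := hc
  have hD := wd_cs_ae (by norm_num) hU hζ hK.isClosed h0
  let b := Module.finBasis ℝ V
  let l : Fin (Module.finrank ℝ V) → V →L[ℝ] ℝ :=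
    fun a => LinearMap.toContinuousLinearMap (b.coord a)
  let T : Fin (Module.finrank ℝ V) → V →L[ℝ] ℝ :=
    fun a => LinearMap.toContinuousLinearMap (Q.flip (b a))
  have hT : ∀ a M, T a M = Q M (b a) := fun a M => rfl
  have hl : ∀ a M, l a M = b.repr M a := fun a M => rfl
  have hQ : ∀ A B, Q A B = ∑ a, b.repr B a * Q A (b a) := by
    intro A B
    conv_lhs => rw [← b.sum_repr B]
    simp only [map_sum, map_smul, smul_eq_mul]
  let X : E → (E →L[ℝ] ℝ) →L[ℝ] V := fun x => ∑ p : Fin (Module.finrank ℝ E),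
    (ContinuousLinearMap.apply ℝ ℝ (α x (ob E p))).smulRight (Y x (ob E p))
  have hXa : ∀ x q, X x q = ∑ p, q (α x (ob E p)) • Y x (ob E p) := by
    intro x q
    simp only [X, _root_.sum_apply, ContinuousLinearMap.smulRight_apply,
      ContinuousLinearMap.apply_apply]
  have hX : LocLp 2 U X := by
    refine ttest_sum fun p => ?_
    have c : ContinuousOn (fun x => α x (ob E p)) U := hα.clm_apply continuousOn_const
    exact ttest_smulRight (hY.apply _)
      ((ContinuousLinearMap.apply ℝ ℝ (E := E)).continuous.comp_continuousOn c)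
  have hw : ∀ a, WD 2 U (fun x => l a (ζ x)) fun x => (l a).comp (Dζ x) :=
    fun a => hζ.clm (by norm_num) (l a)
  have key : ∀ a, ∫ x in U, X x ((l a).comp (Dζ x)) = ∫ x in U, l a (ζ x) • Z x := by
    intro a
    refine test_ext hU hX hZ (fun φ hφ => ?_) (hw a) ⟨K, hK, hKU, fun x hx hxK => ?_⟩
    · simp only [hXa]
      exact h φ hφ
    · simp only [h0 x hx hxK, map_zero]
  have i1 : ∀ a, IntegrableOn (fun x => X x ((l a).comp (Dζ x))) U := by
    intro a
    refine (integrableOn_of_cs hU (locLp_bilin_one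
      (ContinuousLinearMap.id ℝ ((E →L[ℝ] ℝ) →L[ℝ] V)) hX (hw a).2.1) hK hKU ?_).1
    filter_upwards [hD] with x hx h1 h2
    simp only [hx h1 h2, ContinuousLinearMap.comp_zero, map_zero]
  have i2 : ∀ a, IntegrableOn (fun x => l a (ζ x) • Z x) U := by
    intro a
    refine (integrableOn_of_cs hU (locLp_bilin_one
      (ContinuousLinearMap.lsmul ℝ ℝ (E := V)) (hw a).1 hZ) hK hKU ?_).1
    refine Eventually.of_forall fun x h1 h2 => ?_
    simp only [h0 x h1 h2, map_zero, _root_.zero_apply]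
  have e1 : ∀ x, ∑ p, Q (Y x (ob E p)) (Dζ x (α x (ob E p))) =
      ∑ a, T a (X x ((l a).comp (Dζ x))) := by
    intro x
    simp only [hXa, map_sum, map_smul, hT, ContinuousLinearMap.comp_apply, hl, smul_eq_mul,
      LinearMap.sum_apply, LinearMap.smul_apply]
    rw [Finset.sum_comm]
    exact Finset.sum_congr rfl fun p _ => hQ _ _
  have e2 : ∀ x, Q (Z x) (ζ x) = ∑ a, T a (l a (ζ x) • Z x) := by
    intro x
    simp only [map_smul, hT, hl]
    exact hQ _ _
  simp only [e1, e2]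
  rw [integral_finsetSum _ fun a _ => (T a).integrable_comp (i1 a),
    integral_finsetSum _ fun a _ => (T a).integrable_comp (i2 a)]
  refine Finset.sum_congr rfl fun a _ => ?_
  rw [(T a).integral_comp_comm (i1 a), (T a).integral_comp_comm (i2 a), key]

/-- matrix valued test functions for `- div (α Y) = Z` -/
theorem div_test (hU : IsOpen U) {α : E → E →L[ℝ] E} (hα : ContinuousOn α U)
    {Y : E → E →L[ℝ] Mat r} {Z : E → Mat r} (hY : LocLp 2 U Y) (hZ : LocLp 2 U Z)
    (h : ∀ φ, IsTest U φ →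
      ∫ x, ∑ p, fderiv ℝ φ x (α x (ob E p)) • Y x (ob E p) = ∫ x, φ x • Z x)
    {ζ : E → Mat r} {Dζ : E → E →L[ℝ] Mat r} (hζ : WD 2 U ζ Dζ) (hc : CS U ζ) :
    ∫ x in U, pair (α x) (Y x) (Dζ x) = ∫ x in U, (Z x * ζ x).trace.re :=
  ttest_gen ((LinearMap.mul ℝ (Mat r)).compr₂ (trL r).toLinearMap) hU hα hY hZ h hζ hc

theorem harm_test (hU : IsOpen U) {α : E → E →L[ℝ] E} (hα : ContinuousOn α U)
    {A : E → E →L[ℝ] Mat r} (hA : LocLp 2 U A) (h : Harm U α A)
    {ζ : E → Mat r} {Dζ : E → E →L[ℝ] Mat r} (hζ : WD 2 U ζ Dζ) (hc : CS U ζ) :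
    ∫ x in U, pair (α x) (A x) (Dζ x) = 0 := by
  have := div_test hU hα hA (Z := fun _ => 0) (LocLp.of_continuousOn continuousOn_const)
    (fun φ hφ => by simpa using h φ hφ) hζ hc
  simpa using this

end Pool.Agent.PW
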