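import Pool.Agent.P.MP_65ad7c_ag.BExt
import Pool.Agent.P.MP_65ad7c_ag.TTest

open MeasureTheory Set Filter Topology Metric Matrix
open scoped ComplexOrder ContDiff Matrix.Norms.Frobenius RealInnerProductSpace ENNReal
open Pool.Agent.Lib.Sob

noncomputable section
namespace Pool.Agent.PW

variable {E : Type} [NormedAddCommGroup E] [InnerProductSpace ℝ E] [FiniteDimensional ℝ E]
  [MeasurableSpace E] [BorelSpace E] {r : ℕ} {U : Set E} {Γ : Type} [Group Γ]
  {V : Type} [NormedAddCommGroup V] [NormedSpace ℝ V]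

omit [FiniteDimensional ℝ E] [MeasurableSpace E] [BorelSpace E] in
theorem bint0_diffeo (A : Pre E Γ) (a b : A.ι) :
    Diffeo {x | x ∈ A.O a b ∧ A.T a b x ∈ ball (0 : E) 1} {y | y ∈ A.O b a ∧ y ∈ ball (0 : E) 1}
      (A.T a b) (A.T b a) where
  o := (A.T_smooth a b).continuousOn.isOpen_inter_preimage (A.O_open a b) isOpen_ball
  o' := (A.O_open b a).inter isOpen_ball
  m := fun x hx => ⟨A.T_mem a b x hx.1, hx.2⟩
  m' := fun y hy => ⟨A.T_mem b a y hy.1, by rw [A.T_inv b a y hy.1]; exact hy.2⟩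
  l := fun x hx => A.T_inv a b x hx.1
  r := fun y hy => A.T_inv b a y hy.1
  s := (A.T_smooth a b).mono fun _ hx => hx.1
  s' := (A.T_smooth b a).mono fun _ hx => hx.1

/-- a property that holds a.e. on the unit balls holds a.e. everywhere, in some chart -/
theorem Pre.ae_cover (A : Pre E Γ) {p : A.ι → E → Prop}
    (hp : ∀ b, ∀ᵐ y, y ∈ ball (0 : E) 1 → p b y) (a : A.ι) :
    ∀ᵐ x, x ∈ ball (0 : E) 6 → ∃ b, x ∈ A.O a b ∧ A.T a b x ∈ ball (0 : E) 1 ∧
      p b (A.T a b x) := by
  have h := fun b => (bint0_diffeo A a b).ae_comp (p := p b)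
    ((hp b).mono fun y hy h1 => hy h1.2)
  filter_upwards [ae_all_iff.2 h] with x hx h6
  obtain ⟨b, h1, h2⟩ := A.cover a x h6
  exact ⟨b, h1, h2, hx b ⟨h1, h2⟩⟩

/-- a density is controlled by its integrals over the unit balls -/
theorem Pre.cov_dens (A : Pre E Γ) {F : A.ι → E → ℝ≥0∞} (a : A.ι)
    (hF : ∀ b, ∀ᵐ x, x ∈ A.O a b → F a x ≤ ENNReal.ofReal (A.jac a b x) * F b (A.T a b x)) :
    ∫⁻ x in ball (0 : E) 6, F a x ≤ ∑ b, ∫⁻ x in ball (0 : E) 1, F b x := by
  have h1 : ball (0 : E) 6 ⊆ ⋃ b, {x | x ∈ A.O a b ∧ A.T a b x ∈ ball (0 : E) 1} := fun x hx =>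
    mem_iUnion.2 (A.cover a x hx)
  refine (lintegral_mono_set h1).trans ((lintegral_iUnion_le _ _).trans ?_)
  rw [tsum_fintype]
  refine Finset.sum_le_sum fun b _ => ?_
  have hd := bint0_diffeo A a b
  refine le_trans ?_ ((hd.lintegral_comp (F b)).le.trans (lintegral_mono_set fun y hy => hy.2))
  refine lintegral_mono_ae ((ae_restrict_iff' hd.o.measurableSet).2 ?_)
  filter_upwards [hF b] with x hx h2 using hx h2.1

/-- the integral of a density supported in one chart -/
theorem Pre.int_dens [CompleteSpace V] (A : Pre E Γ) (hU : IsOpen U) (hU6 : U ⊆ ball 0 6)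
    {χ : A.ι → E → ℝ} (hχ : A.Pou U χ) {F : A.ι → E → V} (b : A.ι) {K : Set E}
    (hK : IsCompact K) (hKU : K ⊆ U) (hb : LocLp 1 U (F b))
    (hF : ∀ a, ∀ᵐ x, x ∈ A.ov U a b → F a x = A.jac a b x • F b (A.T a b x))
    (h0 : ∀ᵐ x, x ∈ U → x ∉ K → F b x = 0)
    (h1 : ∀ a, ∀ᵐ x, x ∈ U → x ∉ A.ov U a b → F a x = 0) :
    ∑ a, ∫ x, χ a x • F a x = ∫ x in U, F b x := by
  have key : ∀ a, ∫ x, χ a x • F a x = ∫ y in U, A.ext (χ a) a b y • F b y := by
    intro a
    have hd := A.diffeo hU a b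
    have z : ∀ {x}, x ∉ U → χ a x = 0 := (hχ.1 a).1.zero_of_notMem
    calc ∫ x, χ a x • F a x = ∫ x in A.ov U a b, χ a x • F a x := by
          refine (setIntegral_eq_integral_of_ae_compl_eq_zero ?_).symm
          filter_upwards [h1 a] with x hx h2
          by_cases hxU : x ∈ U
          · rw [hx hxU h2, smul_zero]
          · rw [z hxU, zero_smul]
      _ = ∫ x in A.ov U a b, |(fderiv ℝ (A.T a b) x).det| •
            (fun y => χ a (A.T b a y) • F b y) (A.T a b x) := by
          refine setIntegral_congr_ae hd.o.measurableSet ?_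
          filter_upwards [hF a] with x hx h2
          rw [hx h2, hd.l x h2, smul_comm]
          rfl
      _ = ∫ y in A.ov U b a, χ a (A.T b a y) • F b y :=
          hd.integral_comp fun y => χ a (A.T b a y) • F b y
      _ = ∫ y in A.ov U b a, A.ext (χ a) a b y • F b y :=
          setIntegral_congr_fun hd.o'.measurableSet fun y hy => by simp only [Pre.ext, if_pos hy.1]
      _ = ∫ y in U, A.ext (χ a) a b y • F b y := by
          refine (setIntegral_eq_of_subset_of_forall_sdiff_eq_zero hU.measurableSet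
            (fun y hy => hy.2.1) fun y hy => ?_).symm
          by_cases h2 : y ∈ A.O b a
          · have h3 : A.T b a y ∉ U := fun h3 => hy.2 ⟨h2, hy.1, h3⟩
            simp only [Pre.ext, if_pos h2, z h3, zero_smul]
          · simp only [Pre.ext, if_neg h2, zero_smul]
  have hint : ∀ a, IntegrableOn (fun y => A.ext (χ a) a b y • F b y) U := by
    intro a
    have c := ((A.ext_smooth' ((hχ.1 a).1.mono hU6) a b).continuousOn).mono hU6
    refine ((hb.smul c).integrableOn le_rfl hK hKU).of_ae_sdiff_eq_zero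
      hU.measurableSet.nullMeasurableSet ?_
    filter_upwards [h0] with y hy h2
    rw [hy h2.1 h2.2, smul_zero]
  simp only [key]
  rw [← integral_finsetSum _ fun a _ => hint a]
  refine setIntegral_congr_fun hU.measurableSet fun y hy => ?_
  rw [← Finset.sum_smul, hχ.2 b y (hU6 hy), one_smul]

end Pool.Agent.PW
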