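import Pool.Agent.P.MP_65ad7c_ag.BExt
import Pool.Agent.P.MP_65ad7c_ag.ASg

open MeasureTheory Set Filter Topology Metric Matrix
open scoped ComplexOrder ContDiff Matrix.Norms.Frobenius RealInnerProductSpace ENNReal
open Pool.Agent.Lib.Sob

noncomputable section
namespace Pool.Agent.PW

variable {E : Type} [NormedAddCommGroup E] [InnerProductSpace ℝ E] [FiniteDimensional ℝ E]
  [MeasurableSpace E] [BorelSpace E] {r : ℕ} {U : Set E} {Γ : Type} [Group Γ]
  {V : Type} [NormedAddCommGroup V] [NormedSpace ℝ V]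

theorem bpick_cheb {F : E → ℝ} {η L : ℝ} (hη : 0 ≤ η) (hL : 1 ≤ L)
    (hF : AEStronglyMeasurable F (volume.restrict (closedBall 0 1)))
    (hN : N2 (closedBall 0 1) F ≤ ENNReal.ofReal η) :
    volume ({y | L * η < F y} ∩ closedBall (0 : E) 1) ≤ ENNReal.ofReal L⁻¹ := by
  rw [← Measure.restrict_apply' measurableSet_closedBall]
  unfold N2 at hN
  rcases hη.eq_or_lt with rfl | hη
  · rw [ENNReal.ofReal_zero, nonpos_iff_eq_zero, eLpNorm_eq_zero_iff hF two_ne_zero] at hN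
    have h0 : (volume.restrict (closedBall (0 : E) 1)) {y | L * 0 < F y} = 0 := by
      refine measure_mono_null (fun y hy => ?_) (ae_iff.1 hN)
      have hy' : L * 0 < F y := hy
      rw [mul_zero] at hy'
      exact hy'.ne'
    rw [h0]
    exact zero_le
  · have hL0 : 0 < L := by linarith
    have hp : 0 < L * η := mul_pos hL0 hη
    have h1 := mul_meas_ge_le_pow_eLpNorm' (volume.restrict (closedBall (0 : E) 1)) two_ne_zero
      ENNReal.ofNat_ne_top hF (ENNReal.ofReal (L * η))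
    simp only [ENNReal.toReal_ofNat, ENNReal.rpow_two] at h1
    have h2 : (volume.restrict (closedBall (0 : E) 1)) {y | L * η < F y} ≤
        (volume.restrict (closedBall (0 : E) 1)) {y | ENNReal.ofReal (L * η) ≤ ‖F y‖ₑ} := by
      refine measure_mono fun y hy => ?_
      have hy' : L * η < F y := hy
      show ENNReal.ofReal (L * η) ≤ ‖F y‖ₑ
      rw [← ofReal_norm]
      exact ENNReal.ofReal_le_ofReal (hy'.le.trans (le_abs_self _))
    have h3 : ENNReal.ofReal η ^ 2 ≤ ENNReal.ofReal (L * η) ^ 2 * ENNReal.ofReal L⁻¹ := by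
      rw [← ENNReal.ofReal_pow hη.le, ← ENNReal.ofReal_pow hp.le,
        ← ENNReal.ofReal_mul (by positivity)]
      refine ENNReal.ofReal_le_ofReal ?_
      have h4 : (L * η) ^ 2 * L⁻¹ = L * η ^ 2 := by field_simp
      rw [h4]
      nlinarith [sq_nonneg η]
    refine h2.trans ?_
    have h5 : ENNReal.ofReal (L * η) ^ 2 ≠ 0 := pow_ne_zero _ (ENNReal.ofReal_pos.2 hp).ne'
    have h6 : ENNReal.ofReal (L * η) ^ 2 ≠ ⊤ := ENNReal.pow_ne_top ENNReal.ofReal_ne_top
    exact (ENNReal.mul_le_mul_iff_right h5 h6).1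
      (h1.trans ((pow_le_pow_left₀ zero_le hN 2).trans h3))

theorem bpick_image {O O' : Set E} {T T' : E → E} (h : Diffeo O O' T T') {x : E} (hx : x ∈ O') :
    ∃ K : ℝ, 0 ≤ K ∧ ∃ W ∈ 𝓝 x, ∀ Z : Set E,
      volume (T' '' (W ∩ Z)) ≤ ENNReal.ofReal K * volume Z := by
  have hc : ContinuousAt (fderiv ℝ T') x :=
    (h.s'.continuousOn_fderiv_of_isOpen h.o' (by simp)).continuousAt (h.o'.mem_nhds hx)
  have hd : ContinuousAt (fun y => |(fderiv ℝ T' y).det|) x :=
    (ContinuousLinearMap.continuous_det.continuousAt.comp hc).abs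
  have he : ∀ᶠ y in 𝓝 x, |(fderiv ℝ T' y).det| < |(fderiv ℝ T' x).det| + 1 ∧ y ∈ O' :=
    (hd.eventually (gt_mem_nhds (lt_add_one _))).and (h.o'.mem_nhds hx)
  obtain ⟨W, hW, hWo, hxW⟩ := _root_.eventually_nhds_iff.1 he
  refine ⟨|(fderiv ℝ T' x).det| + 1, by positivity, W, hWo.mem_nhds hxW, fun Z => ?_⟩
  have hm : MeasurableSet (W ∩ toMeasurable volume Z) :=
    hWo.measurableSet.inter (measurableSet_toMeasurable _ _)
  have h1 := addHaar_image_le_lintegral_abs_det_fderiv (volume : Measure E) hm (f := T')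
    (f' := fderiv ℝ T') fun y hy =>
      ((h.s'.differentiableOn (by simp)).differentiableAt
        (h.o'.mem_nhds (hW y hy.1).2)).hasFDerivAt.hasFDerivWithinAt
  have h2 : ∫⁻ y in W ∩ toMeasurable volume Z, ENNReal.ofReal |(fderiv ℝ T' y).det| ≤
      ∫⁻ _ in W ∩ toMeasurable volume Z, ENNReal.ofReal (|(fderiv ℝ T' x).det| + 1) :=
    setLIntegral_mono' hm fun y hy => ENNReal.ofReal_le_ofReal (hW y hy.1).1.le
  rw [setLIntegral_const] at h2
  refine (measure_mono (image_mono (inter_subset_inter_right _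
    (subset_toMeasurable volume Z)))).trans (h1.trans (h2.trans ?_))
  refine mul_le_mul_right ?_ _
  exact (measure_mono inter_subset_right).trans (measure_toMeasurable Z).le

/-- Chebyshev on a link -/
theorem Pre.pick (A : Pre E Γ) {a b : A.ι} {x : E} (hx : x ∈ A.ov (ball 0 1) a b) :
    ∃ L : ℝ, 0 ≤ L ∧ ∀ (F G : E → ℝ) (η : ℝ), 0 ≤ η →
      AEStronglyMeasurable F (volume.restrict (closedBall 0 1)) →
      AEStronglyMeasurable G (volume.restrict (closedBall 0 1)) →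
      N2 (closedBall 0 1) F ≤ ENNReal.ofReal η → N2 (closedBall 0 1) G ≤ ENNReal.ofReal η →
      ∃ y ∈ A.ov (ball 0 1) a b, A.c a b y = A.c a b x ∧ F y ≤ L * η ∧
        G (A.T a b y) ≤ L * η := by
  have hd := A.diffeo (U := ball 0 1) isOpen_ball a b
  obtain ⟨K, hK, W', hW', hZ⟩ := bpick_image hd (hd.m hx)
  have hT : ContinuousAt (A.T a b) x := hd.s.continuousOn.continuousAt (hd.o.mem_nhds hx)
  have hW : {y | y ∈ A.ov (ball 0 1) a b ∧ A.T a b y ∈ W' ∧ A.c a b y = A.c a b x} ∈ 𝓝 x := by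
    filter_upwards [hd.o.mem_nhds hx, hT.eventually hW', A.c_loc a b x hx.1] with y h1 h2 h3
    exact ⟨h1, h2, h3⟩
  obtain ⟨m, hm0, hm1, hm2⟩ := ENNReal.lt_iff_exists_real_btwn.1
    (Measure.measure_pos_of_mem_nhds volume hW)
  have hm : 0 < m := ENNReal.ofReal_pos.1 hm1
  have hq : 0 ≤ (1 + K) / m := by positivity
  refine ⟨(1 + K) / m + 1, by positivity, fun F G η hη hF hG hNF hNG => ?_⟩
  have hL : 1 ≤ (1 + K) / m + 1 := by linarith
  have h1 := bpick_cheb hη hL hF hNF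
  have h2 := bpick_cheb hη hL hG hNG
  have h3 : ((1 + K) / m + 1)⁻¹ + K * ((1 + K) / m + 1)⁻¹ ≤ m := by
    rw [← one_add_mul, ← div_eq_mul_inv, div_le_iff₀ (by linarith), mul_add,
      mul_div_cancel₀ _ hm.ne']
    linarith
  have hi : 0 ≤ ((1 + K) / m + 1)⁻¹ := by positivity
  generalize (1 + K) / m + 1 = L at *
  by_contra hc
  have hs : {y | y ∈ A.ov (ball 0 1) a b ∧ A.T a b y ∈ W' ∧ A.c a b y = A.c a b x} ⊆
      ({y | L * η < F y} ∩ closedBall (0 : E) 1) ∪
        A.T b a '' (W' ∩ ({y | L * η < G y} ∩ closedBall (0 : E) 1)) := by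
    rintro y ⟨y1, y2, y3⟩
    by_cases hy : L * η < F y
    · exact Or.inl ⟨hy, ball_subset_closedBall y1.2.1⟩
    · refine Or.inr ⟨A.T a b y, ⟨y2, ?_, ball_subset_closedBall y1.2.2⟩, hd.l y y1⟩
      by_contra hy2
      exact hc ⟨y, y1, y3, not_lt.1 hy, not_lt.1 hy2⟩
  have h4 := (measure_mono hs).trans ((measure_union_le _ _).trans
    (add_le_add h1 ((hZ _).trans (mul_le_mul_right h2 _))))
  rw [← ENNReal.ofReal_mul hK, ← ENNReal.ofReal_add hi (mul_nonneg hK hi)] at h4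
  exact absurd (hm2.trans_le (h4.trans (ENNReal.ofReal_le_ofReal h3))) (lt_irrefl _)

/-- centres are almost invariant along chains -/
theorem Pre.chain_sg (A : Pre E Γ) (hr : 0 < r) {a b : A.ι} {γ : Γ} (hc : A.Chain a b γ) :
    ∃ L : ℝ, 0 ≤ L ∧ ∀ (ρ : Γ →* Mat r) (h : A.ι → E → Mat r) (Q : A.ι → Mat r) (η : ℝ), 1 ≤ η →
      A.MC (ball 0 1) ρ h → (∀ d, ∀ x ∈ ball (0 : E) 1, (h d x).PosDef) → (∀ d, (Q d).PosDef) →
      (∀ d, AEStronglyMeasurable (fun x => Real.log (sg (Q d) (h d x)))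
        (volume.restrict (closedBall 0 1))) →
      (∀ d, N2 (closedBall 0 1) (fun x => Real.log (sg (Q d) (h d x))) ≤ ENNReal.ofReal η) →
      Real.log (sg (gm (Q a) (ρ γ)) (Q b)) ≤ L * η := by
  induction hc with
  | nil a =>
    have h1 : (1 : ℝ) ≤ r := by exact_mod_cast hr
    have h0 : 0 ≤ Real.log (2 * r) := Real.log_nonneg (by linarith)
    refine ⟨Real.log (2 * r), h0, fun ρ h Q η hη _ _ hQ _ _ => ?_⟩
    rw [map_one, gm_one, sg_self (hQ a)]
    exact le_mul_of_one_le_right h0 hη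
  | cons a b d x γ hx _ ih =>
    obtain ⟨L0, hL0, h0⟩ := A.pick hx
    obtain ⟨L1, hL1, h1⟩ := ih
    refine ⟨2 * L0 + L1, by positivity, fun ρ h Q η hη hm hp hQ hme hN => ?_⟩
    obtain ⟨y, hy, hyc, ha, hb⟩ := h0 _ _ η (by linarith) (hme a) (hme b) (hN a) (hN b)
    have h2 := h1 ρ h Q η hη hm hp hQ hme hN
    have h3 := hm a b y hy
    rw [hyc] at h3
    have u1 := rep_mul_inv ρ (A.c a b x)
    have u2 := rep_mul_inv ρ γ
    have p1 := gm_posDef (hQ a) u1
    have h4 := log_sg_le hr (gm_posDef p1 u2) (gm_posDef (hQ b) u2) (hQ d)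
    rw [sg_gm p1 (hQ b) u2] at h4
    have h5 := log_sg_le hr p1 (hp b _ hy.2.2) (hQ b)
    rw [sg_comm (h b _) (Q b)] at h5
    have h6 : sg (gm (Q a) (ρ (A.c a b x))) (h b (A.T a b y)) = sg (Q a) (h a y) := by
      rw [h3, sg_gm (hQ a) (hp a y hy.2.1) u1]
    rw [h6] at h5
    rw [map_mul, ← gm_gm]
    linarith

end Pool.Agent.PW
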