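import Pool.Agent.P.MP_65ad7c_ag.Defs
import Pool.Agent.Lib.Sob.Poinc
import Pool.Agent.Lib.Sob.Chain

/-! Definitions for the analytic part: matrix valued forms, atlases, harmonic metrics. -/

open MeasureTheory Set Filter Topology Metric Matrix
open scoped ComplexOrder ContDiff Matrix.Norms.Frobenius RealInnerProductSpace ENNReal
open Pool.Agent.Lib.Sob

noncomputable section
namespace Pool.Agent.PW

/-- Complex matrices (always with the Frobenius norm). -/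
abbrev Mat (r : ℕ) := Matrix (Fin r) (Fin r) ℂ

/-- the uniformity of the Frobenius norm (definitionally the product uniformity) -/
scoped instance (priority := high) matUnif (r s : ℕ) : UniformSpace (Matrix (Fin r) (Fin s) ℂ) :=
  PseudoMetricSpace.toUniformSpace

/-- the topology of the Frobenius norm (definitionally the product topology) -/
scoped instance (priority := high) matTop (r s : ℕ) :
    TopologicalSpace (Matrix (Fin r) (Fin s) ℂ) := UniformSpace.toTopologicalSpace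

scoped instance matComplete (r s : ℕ) : CompleteSpace (Matrix (Fin r) (Fin s) ℂ) :=
  FiniteDimensional.complete ℝ _

scoped instance matSC (r s : ℕ) : SecondCountableTopology (Matrix (Fin r) (Fin s) ℂ) :=
  inferInstanceAs (SecondCountableTopology (Fin r → Fin s → ℂ))

section pointwise
variable {E : Type} [NormedAddCommGroup E] [InnerProductSpace ℝ E] [FiniteDimensional ℝ E]
  {r : ℕ}

variable (E) in
/-- A fixed orthonormal basis. -/
def ob : OrthonormalBasis (Fin (Module.finrank ℝ E)) ℝ E := stdOrthonormalBasis ℝ E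

/-- left multiplication of a matrix valued form -/
def lmul (P : Mat r) (X : E →L[ℝ] Mat r) : E →L[ℝ] Mat r :=
  (ContinuousLinearMap.mul ℝ (Mat r) P).comp X

/-- right multiplication of a matrix valued form -/
def rmul (X : E →L[ℝ] Mat r) (P : Mat r) : E →L[ℝ] Mat r :=
  ((ContinuousLinearMap.mul ℝ (Mat r)).flip P).comp X

/-- conjugate transpose as a real linear map -/
def adjL (r : ℕ) : Mat r →L[ℝ] Mat r :=
  LinearMap.toContinuousLinearMap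
    { toFun := fun X => Xᴴ
      map_add' := fun X Y => conjTranspose_add X Y
      map_smul' := fun c X => by ext i j; simp }

/-- real part of the trace as a real linear map -/
def trL (r : ℕ) : Mat r →L[ℝ] ℝ :=
  LinearMap.toContinuousLinearMap
    { toFun := fun X => X.trace.re
      map_add' := fun X Y => by simp
      map_smul' := fun c X => by simp }

omit [FiniteDimensional ℝ E] in
@[simp] theorem lmul_apply (P : Mat r) (X : E →L[ℝ] Mat r) (v : E) : lmul P X v = P * X v := rfl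
omit [FiniteDimensional ℝ E] in
@[simp] theorem rmul_apply (X : E →L[ℝ] Mat r) (P : Mat r) (v : E) : rmul X P v = X v * P := rfl
@[simp] theorem adjL_apply (X : Mat r) : adjL r X = Xᴴ := rfl
@[simp] theorem trL_apply (X : Mat r) : trL r X = X.trace.re := rfl

/-- Maurer-Cartan form `h⁻¹ dh` -/
def mc (h : Mat r) (D : E →L[ℝ] Mat r) : E →L[ℝ] Mat r := lmul h⁻¹ D

/-- commutator -/
def cm (X Y : Mat r) : Mat r := X * Y - Y * X

/-- contraction of two matrix valued forms -/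
def pair (α : E →L[ℝ] E) (X Y : E →L[ℝ] Mat r) : ℝ :=
  ∑ p, (X (ob E p) * Y (α (ob E p))).trace.re

/-- contraction of two covectors -/
def spair (α : E →L[ℝ] E) (p q : E →L[ℝ] ℝ) : ℝ := ∑ i, p (ob E i) * q (α (ob E i))

/-- the positive form `re tr (X P⁻¹ Yᴴ Q)` -/
def nf (P Q X Y : Mat r) : ℝ := (X * P⁻¹ * Yᴴ * Q).trace.re

/-- contraction with the positive form -/
def npair (α : E →L[ℝ] E) (P Q : Mat r) (X : E →L[ℝ] Mat r) : ℝ :=
  ∑ p, nf P Q (X (ob E p)) (X (α (ob E p)))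

/-- Donaldson's distance function (without the additive constant) -/
def sg (P Q : Mat r) : ℝ := (P⁻¹ * Q).trace.re + (Q⁻¹ * P).trace.re

/-- `C⁻¹ P ≤ Q ≤ C P` -/
def Obst (C : ℝ) (P Q : Mat r) : Prop := (Q - C⁻¹ • P).PosSemidef ∧ (C • P - Q).PosSemidef

/-- `C⁻¹ ≤ h ≤ C` -/
def Bd (C : ℝ) (h : Mat r) : Prop := Obst C 1 h

/-- symmetric, with ellipticity constants -/
def Ell (l L : ℝ) (α : E →L[ℝ] E) : Prop :=
  (∀ v w, ⟪α v, w⟫ = ⟪v, α w⟫) ∧ (∀ v, l * ‖v‖ ^ 2 ≤ ⟪v, α v⟫) ∧ ‖α‖ ≤ L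

/-- a form with Hermitian values -/
def HermF (D : E →L[ℝ] Mat r) : Prop := ∀ v, (D v)ᴴ = D v

/-- derivative of `h⁻¹ h'` -/
def dk (h h' : Mat r) (D D' : E →L[ℝ] Mat r) : E →L[ℝ] Mat r :=
  lmul h⁻¹ D' - lmul h⁻¹ (rmul D (h⁻¹ * h'))

/-- `k - k⁻¹` for `k = h⁻¹ h'` -/
def kz (h h' : Mat r) : Mat r := h⁻¹ * h' - h'⁻¹ * h

/-- derivative of `kz` -/
def dkz (h h' : Mat r) (D D' : E →L[ℝ] Mat r) : E →L[ℝ] Mat r := dk h h' D D' - dk h' h D' D

/-- derivative of `sg` -/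
def dsg (h h' : Mat r) (D D' : E →L[ℝ] Mat r) : E →L[ℝ] ℝ :=
  (trL r).comp (dk h h' D D' + dk h' h D' D)

/-- the good term of the key identity -/
def qq (α : E →L[ℝ] E) (h h' : Mat r) (D D' : E →L[ℝ] Mat r) : ℝ :=
  npair α h' h (dk h h' D D') + npair α h h' (dk h' h D' D)

/-- energy density -/
def en (α : E →L[ℝ] E) (h : Mat r) (D : E →L[ℝ] Mat r) : ℝ := pair α (mc h D) (mc h D)

/-- the metric `uᴴ h u` -/
def gm (h u : Mat r) : Mat r := uᴴ * h * u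

/-- derivative of `uᴴ h u` -/
def dgm (h u : Mat r) (D W : E →L[ℝ] Mat r) : E →L[ℝ] Mat r :=
  rmul ((adjL r).comp W) (h * u) + lmul uᴴ (rmul D u) + lmul (uᴴ * h) W

end pointwise

section loc
variable {E : Type} [NormedAddCommGroup E] [InnerProductSpace ℝ E] [FiniteDimensional ℝ E]
  [MeasurableSpace E] [BorelSpace E] {r : ℕ}
  {V : Type} [NormedAddCommGroup V] [NormedSpace ℝ V]

/-- `L²` norm on a set -/
def N2 (K : Set E) (u : E → V) : ℝ≥0∞ := eLpNorm u 2 (volume.restrict K)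

/-- bounded on compact subsets -/
def LB (U : Set E) (u : E → V) : Prop :=
  ∀ K, IsCompact K → K ⊆ U → ∃ C : ℝ, ∀ x ∈ K, ‖u x‖ ≤ C

/-- locally uniformly positive and bounded -/
def LBd (U : Set E) (h : E → Mat r) : Prop :=
  ∀ K, IsCompact K → K ⊆ U → ∃ C : ℝ, 1 ≤ C ∧ ∀ x ∈ K, Bd C (h x)

/-- vanishes on `U` outside a compact subset -/
def CS (U : Set E) (u : E → V) : Prop :=
  ∃ K, IsCompact K ∧ K ⊆ U ∧ ∀ x ∈ U, x ∉ K → u x = 0

/-- continuous, symmetric and positive on `U` -/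
def Coef (U : Set E) (α : E → E →L[ℝ] E) : Prop :=
  ContDiffOn ℝ ∞ α U ∧ ∀ x ∈ U, (∀ v w, ⟪α x v, w⟫ = ⟪v, α x w⟫) ∧ ∀ v, v ≠ 0 → 0 < ⟪v, α x v⟫

/-- weak form of `div (α A) = 0` -/
def Harm (U : Set E) (α : E → E →L[ℝ] E) (A : E → E →L[ℝ] Mat r) : Prop :=
  ∀ φ, IsTest U φ → ∫ x, ∑ p, fderiv ℝ φ x (α x (ob E p)) • A x (ob E p) = 0

/-- weak form of `d om = Φ` -/
def WCurl (U : Set E) (om : E → E →L[ℝ] Mat r) (Φ : E → E → E → Mat r) : Prop :=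
  ∀ φ, IsTest U φ → ∀ v w : E,
    ∫ x, (fderiv ℝ φ x v • om x w - fderiv ℝ φ x w • om x v) = -∫ x, φ x • Φ x v w

end loc

section atlas
variable (E : Type) [NormedAddCommGroup E] [InnerProductSpace ℝ E] [FiniteDimensional ℝ E]
  (Γ : Type) [Group Γ]

/-- Finitely many charts with domain the ball of radius 6, with a locally constant cocycle. -/
structure Pre where
  ι : Type
  fin : Fintype ι
  a0 : ι
  O : ι → ι → Set E
  T : ι → ι → E → E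
  c : ι → ι → E → Γ
  S : Finset Γ
  O_open : ∀ a b, IsOpen (O a b)
  O_sub : ∀ a b, O a b ⊆ ball 0 6
  O_self : ∀ a, O a a = ball 0 6
  T_self : ∀ a, ∀ x ∈ ball (0 : E) 6, T a a x = x
  c_self : ∀ a, ∀ x ∈ ball (0 : E) 6, c a a x = 1
  T_mem : ∀ a b, ∀ x ∈ O a b, T a b x ∈ O b a
  T_inv : ∀ a b, ∀ x ∈ O a b, T b a (T a b x) = x
  T_smooth : ∀ a b, ContDiffOn ℝ ∞ (T a b) (O a b)
  cocycle : ∀ a b d, ∀ x ∈ O a b, T a b x ∈ O b d →
    x ∈ O a d ∧ T a d x = T b d (T a b x) ∧ c a d x = c a b x * c b d (T a b x)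
  c_loc : ∀ a b, ∀ x ∈ O a b, ∀ᶠ y in 𝓝 x, c a b y = c a b x
  sep : ∀ a b (K : Set E), IsCompact K → K ⊆ ball 0 6 → ∀ x ∈ ball (0 : E) 6, x ∉ O a b →
    ∀ᶠ y in 𝓝 x, y ∈ O a b → T a b y ∉ K
  cover : ∀ a, ∀ x ∈ ball (0 : E) 6, ∃ b, x ∈ O a b ∧ T a b x ∈ ball (0 : E) 1
  S_mem : ∀ a b, ∀ x ∈ O a b, ‖x‖ ≤ 5 → ‖T a b x‖ ≤ 5 → c a b x ∈ S
  S_inv : ∀ s ∈ S, s⁻¹ ∈ S

variable {E Γ}

instance (A : Pre E Γ) : Fintype A.ι := A.fin

/-- overlap inside `U` -/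
def Pre.ov (A : Pre E Γ) (U : Set E) (a b : A.ι) : Set E :=
  {x | x ∈ A.O a b ∧ x ∈ U ∧ A.T a b x ∈ U}

/-- products of the cocycle along chains of unit balls -/
inductive Pre.Chain (A : Pre E Γ) : A.ι → A.ι → Γ → Prop
  | nil (a : A.ι) : A.Chain a a 1
  | cons (a b d : A.ι) (x : E) (γ : Γ) : x ∈ A.ov (ball 0 1) a b → A.Chain b d γ →
      A.Chain a d (A.c a b x * γ)

/-- Jacobian of the transition -/
def Pre.jac (A : Pre E Γ) (a b : A.ι) (x : E) : ℝ := |(fderiv ℝ (A.T a b) x).det|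

open Classical in
/-- a function `ψ` on the chart `a`, seen in the chart `b` -/
def Pre.ext (A : Pre E Γ) (ψ : E → ℝ) (a b : A.ι) (x : E) : ℝ :=
  if x ∈ A.O b a then ψ (A.T b a x) else 0

/-- partition of unity with supports in `U` -/
def Pre.Pou (A : Pre E Γ) (U : Set E) (χ : A.ι → E → ℝ) : Prop :=
  (∀ a, IsTest U (χ a) ∧ ∀ x, 0 ≤ χ a x) ∧
    ∀ b, ∀ x ∈ ball (0 : E) 6, ∑ a, A.ext (χ a) a b x = 1

/-- `∑_a χ_a F (c_{ba})` in the chart `b` -/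
def Pre.gau {r : ℕ} (A : Pre E Γ) (χ : A.ι → E → ℝ) (F : Γ → Mat r) (b : A.ι) (x : E) : Mat r :=
  ∑ a, A.ext (χ a) a b x • F (A.c b a x)

/-- the reference metric -/
def Pre.h0 {r : ℕ} (A : Pre E Γ) (χ : A.ι → E → ℝ) (ρ : Γ →* Mat r) : A.ι → E → Mat r :=
  A.gau χ fun γ => (ρ γ⁻¹)ᴴ * ρ γ⁻¹

/-- compatibility of a metric -/
def Pre.MC {r : ℕ} (A : Pre E Γ) (U : Set E) (ρ : Γ →* Mat r) (h : A.ι → E → Mat r) : Prop :=
  ∀ a b, ∀ x ∈ A.ov U a b, h b (A.T a b x) = gm (h a x) (ρ (A.c a b x))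

/-- size of a representation -/
def Pre.Sz {r : ℕ} (A : Pre E Γ) (N : ℝ) (ρ : Γ →* Mat r) : Prop := ∀ s ∈ A.S, ‖ρ s‖ ≤ N

/-- distance of two representations -/
def Pre.Cl {r : ℕ} (A : Pre E Γ) (ε : ℝ) (ρ ρ' : Γ →* Mat r) : Prop :=
  ∀ s ∈ A.S, ‖ρ s - ρ' s‖ ≤ ε

/-- irreducible (Burnside form) -/
def Irr {r : ℕ} (ρ : Γ →* Mat r) : Prop := Submodule.span ℂ (range ρ) = ⊤

/-- quantitatively irreducible -/
def Burn {r m : ℕ} (γs : Fin m → Γ) (β : ℝ) (ρ : Γ →* Mat r) : Prop :=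
  ∀ X : Mat r, ∃ x : Fin m → ℂ, ‖x‖ ≤ β * ‖X‖ ∧ X = ∑ l, x l • ρ (γs l)

variable (E Γ) in
/-- An atlas with a Riemannian coefficient field, whose cocycle presents `Γ`. -/
structure Atlas extends Pre E Γ where
  α : ι → E → E →L[ℝ] E
  coef : ∀ a, Coef (ball 0 6) (α a)
  α_inv : ∀ a b, ∀ x ∈ O a b, ∀ v w : E,
    ⟪(fderiv ℝ (T a b) x).adjoint v, α a x ((fderiv ℝ (T a b) x).adjoint w)⟫ =
      toPre.jac a b x * ⟪v, α b (T a b x) w⟫
  chain : ∀ γ, toPre.Chain a0 a0 γ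
  reach : ∀ a, ∃ γ, toPre.Chain a0 a γ
  lift : ∀ (G : Type) [Group G] (τ : ι → ι → E → G),
    (∀ a b, ∀ x ∈ toPre.ov (ball 0 2) a b, ∀ᶠ y in 𝓝 x, τ a b y = τ a b x) →
    (∀ a b d, ∀ x ∈ toPre.ov (ball 0 2) a b, T a b x ∈ toPre.ov (ball 0 2) b d →
      τ a d x = τ a b x * τ b d (T a b x)) →
    ∃ (ρ : Γ →* G) (u : ι → G), u a0 = 1 ∧
      ∀ a b, ∀ x ∈ toPre.ov (ball 0 2) a b, τ a b x = (u a)⁻¹ * ρ (c a b x) * u b

variable [MeasurableSpace E] [BorelSpace E] {r : ℕ}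

/-- the obstacle class -/
structure Atlas.Adm (A : Atlas E Γ) (ρ : Γ →* Mat r) (H : A.ι → E → Mat r) (C : ℝ)
    (h : A.ι → E → Mat r) (D : A.ι → E → E →L[ℝ] Mat r) : Prop where
  wd : ∀ a, WD 2 (ball 0 6) (h a) (D a)
  ob : ∀ a, ∀ x ∈ ball (0 : E) 6, Obst C (H a x) (h a x)
  mc : A.MC (ball 0 6) ρ h

/-- total energy -/
def Atlas.energy (A : Atlas E Γ) (χ : A.ι → E → ℝ) (h : A.ι → E → Mat r)
    (D : A.ι → E → E →L[ℝ] Mat r) : ℝ :=
  ∑ a, ∫ x, χ a x * en (A.α a x) (h a x) (D a x)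

/-- a smooth compatible reference metric -/
structure Atlas.Ref (A : Atlas E Γ) (ρ : Γ →* Mat r) (H : A.ι → E → Mat r) : Prop where
  sm : ∀ a, ContDiffOn ℝ ∞ (H a) (ball 0 6)
  pos : ∀ a, ∀ x ∈ ball (0 : E) 6, (H a x).PosDef
  mc : A.MC (ball 0 6) ρ H

/-- a minimiser in the obstacle class -/
def Atlas.IsMin (A : Atlas E Γ) (χ : A.ι → E → ℝ) (ρ : Γ →* Mat r) (H : A.ι → E → Mat r) (C : ℝ)
    (h : A.ι → E → Mat r) (D : A.ι → E → E →L[ℝ] Mat r) : Prop :=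
  A.Adm ρ H C h D ∧ ∀ h' D', A.Adm ρ H C h' D' → A.energy χ h D ≤ A.energy χ h' D'

/-- bounds for a reference metric on the closed ball of radius `9/2` -/
def Atlas.RefBd (A : Atlas E Γ) (C : ℝ) (H : A.ι → E → Mat r) : Prop :=
  ∀ a, ∀ x ∈ closedBall (0 : E) (9 / 2), Bd C (H a x) ∧ ‖fderiv ℝ (H a) x‖ ≤ C ∧
    ‖fderiv ℝ (fderiv ℝ (H a)) x‖ ≤ C

/-- a bounded weakly harmonic metric -/
structure Atlas.HM (A : Atlas E Γ) (ρ : Γ →* Mat r) (C : ℝ)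
    (h : A.ι → E → Mat r) (D : A.ι → E → E →L[ℝ] Mat r) : Prop where
  wd : ∀ a, WD 2 (ball 0 6) (h a) (D a)
  lbd : ∀ a, LBd (ball 0 6) (h a)
  mc : A.MC (ball 0 6) ρ h
  harm : ∀ a, Harm (ball 0 6) (A.α a) fun x => PW.mc (h a x) (D a x)
  bd : ∀ a, ∀ x ∈ closedBall (0 : E) 4, Bd C (h a x)
  n2 : ∀ a, N2 (closedBall 0 4) (D a) ≤ ENNReal.ofReal C

end atlas

section kaehler
variable {n r : ℕ} {V : Type} [NormedAddCommGroup V] [NormedSpace ℝ V] [NormedSpace ℂ V]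
  [IsScalarTower ℝ ℂ V]

/-- multiplication by `i` -/
def IL (n : ℕ) : EC n →L[ℝ] EC n := (Complex.I • ContinuousLinearMap.id ℂ (EC n)).restrictScalars ℝ

@[simp] theorem IL_apply (v : EC n) : IL n v = Complex.I • v := rfl

/-- `(1,0)` component of a form -/
def d1 (X : EC n →L[ℝ] V) (j : Fin n) : V :=
  (2 : ℂ)⁻¹ • (X (EuclideanSpace.single j 1) - Complex.I • X (EuclideanSpace.single j Complex.I))

/-- `(0,1)` component of a form -/
def d2 (X : EC n →L[ℝ] V) (j : Fin n) : V :=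
  (2 : ℂ)⁻¹ • (X (EuclideanSpace.single j 1) + Complex.I • X (EuclideanSpace.single j Complex.I))

/-- `β (∂_l, ∂bar_m)` -/
def d12 (β : EC n →L[ℝ] EC n →L[ℝ] V) (l m : Fin n) : V :=
  (2 : ℂ)⁻¹ • (d2 (β (EuclideanSpace.single l 1)) m -
    Complex.I • d2 (β (EuclideanSpace.single l Complex.I)) m)

/-- `β (∂bar_m, ∂_j)` -/
def d21 (β : EC n →L[ℝ] EC n →L[ℝ] V) (m j : Fin n) : V :=
  (2 : ℂ)⁻¹ • (d1 (β (EuclideanSpace.single m 1)) j +
    Complex.I • d1 (β (EuclideanSpace.single m Complex.I)) j)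

/-- complexified covector -/
def cx (p : EC n →L[ℝ] ℝ) : EC n →L[ℝ] ℂ := Complex.ofRealCLM.comp p

/-- complexified bilinear form -/
def cx2 (q : EC n →L[ℝ] EC n →L[ℝ] ℝ) : EC n →L[ℝ] EC n →L[ℝ] ℂ :=
  (ContinuousLinearMap.compL ℝ (EC n) ℝ ℂ Complex.ofRealCLM).comp q

/-- inverse metric `g^{j kbar}` -/
def kW (g : Mat n) : Mat n := (gᵀ)⁻¹

/-- first cofactor -/
def kH (g : Mat n) : Mat n := g.det • kW g

/-- second cofactor -/
def kG (g : Mat n) (j k l m : Fin n) : ℂ :=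
  g.det * (kW g j k * kW g l m - kW g j m * kW g l k)

/-- the Riemannian coefficient of a Hermitian metric -/
def kα (g : Mat n) : EC n →L[ℝ] EC n :=
  (Matrix.toEuclideanCLM (𝕜 := ℂ) (n := Fin n) (kH g)).restrictScalars ℝ

/-- the signed integrand of the Siu-Sampson formula -/
def SF (G : Fin n → Fin n → Fin n → Fin n → ℂ) (A : EC n →L[ℝ] Mat r)
    (β : EC n →L[ℝ] EC n →L[ℝ] Mat r) : ℂ :=
  ∑ j, ∑ k, ∑ l, ∑ m, G j k l m * ((d21 β m j * d12 β l k).trace -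
    4⁻¹ * (cm (d1 A l) (d1 A j) * cm (d2 A m) (d2 A k)).trace)

/-- the boundary integrand of the Siu-Sampson formula -/
def SP (G : Fin n → Fin n → Fin n → Fin n → ℂ) (A : EC n →L[ℝ] Mat r) (p : EC n →L[ℝ] ℝ)
    (q : EC n →L[ℝ] EC n →L[ℝ] ℝ) : ℂ :=
  ∑ j, ∑ k, ∑ l, ∑ m, G j k l m * (d12 (cx2 q) l m * (d1 A j * d2 A k).trace -
    2⁻¹ * d1 (cx p) l * (d1 A j * cm (d2 A m) (d2 A k)).trace -
    2⁻¹ * d2 (cx p) m * (cm (d1 A l) (d1 A j) * d2 A k).trace)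

/-- `N_{j kbar}` -/
def SN (β : EC n →L[ℝ] EC n →L[ℝ] Mat r) (j k : Fin n) : Mat r :=
  (2 : ℂ)⁻¹ • (d21 β k j + d12 β j k)

/-- pointwise relations between `h`, `A = h⁻¹ dh` and `β = dA` -/
structure Jet (h : Mat r) (A : EC n →L[ℝ] Mat r) (β : EC n →L[ℝ] EC n →L[ℝ] Mat r) : Prop where
  herm : ∀ v, (h * A v)ᴴ = h * A v
  flat : ∀ v w, β v w - β w v = -cm (A v) (A w)
  adj : ∀ v w, (β v w)ᴴ * h = h * β w v

/-- the commutation relation of a pluriharmonic metric -/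
def PH1 (A : EC n →L[ℝ] Mat r) : Prop :=
  ∀ v w, cm (A (Complex.I • v)) (A (Complex.I • w)) = cm (A v) (A w)

/-- the connection form `p A + q A(i ·)`; flat when `p ^ 2 - p + q ^ 2 = 0` -/
def rotB (p q : ℂ) (A : EC n →L[ℝ] Mat r) : EC n →L[ℝ] Mat r := p • A + q • A.comp (IL n)

variable (n) (Γ : Type) [Group Γ]

/-- A Kaehler atlas. -/
structure KAtlas extends Atlas (EC n) Γ where
  g : ι → EC n → Mat n
  kae : ∀ a, IsKahlerOn (ball 0 6) (g a)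
  hol : ∀ a b, DifferentiableOn ℂ (T a b) (O a b)
  g_inv : ∀ a b, ∀ x ∈ O a b, ∀ u v, herm (g a x) u v =
    herm (g b (T a b x)) (fderiv ℂ (T a b) x u) (fderiv ℂ (T a b) x v)
  α_eq : ∀ a x, α a x = kα (g a x)

variable {n Γ}

/-- local part of a bounded pluriharmonic metric -/
structure PHL (U : Set (EC n)) (C : ℝ) (h : EC n → Mat r) (D : EC n → EC n →L[ℝ] Mat r) :
    Prop where
  cont : ContinuousOn h U
  bd : ∀ x ∈ U, Bd C (h x)
  wd : WD 2 U h D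
  dbd : ∀ᵐ x, x ∈ U → ‖D x‖ ≤ C
  ph1 : ∀ᵐ x, x ∈ U → PH1 (mc (h x) (D x))
  ph2 : WCurl U (fun x => (mc (h x) (D x)).comp (IL n)) fun _ _ _ => 0

/-- a bounded pluriharmonic metric -/
structure KAtlas.PH (A : KAtlas n Γ) (U : Set (EC n)) (ρ : Γ →* Mat r) (C : ℝ)
    (h : A.ι → EC n → Mat r) (D : A.ι → EC n → EC n →L[ℝ] Mat r) : Prop where
  loc : ∀ a, PHL U C (h a) (D a)
  mc : A.MC U ρ h

end kaehler

/-- the twistor line through a character -/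
def TWc (Γ : Type) [Group Γ] (r : ℕ) (χ : Γ → ℂ) : Prop :=
  ∃ F : ℂ → Γ → ℂ, (∀ w, F w ∈ charVar Γ r) ∧ (∀ γ, Differentiable ℂ fun w => F w γ) ∧
    (∀ w, F (w + 2 * Real.pi * Complex.I) = F w) ∧
    (∀ γ, ∃ C : ℝ, ∀ w, ‖F w γ‖ ≤ Real.exp (C * Real.exp |w.re|)) ∧ F 0 = χ ∧
    ∀ γ, F (Real.pi * Complex.I) γ = (starRingEnd ℂ) (χ γ⁻¹)

/-- every rational map from a component of the character variety to an abelian variety is
constant -/
def AlbTrivial (Γ : Type) [Group Γ] (r : ℕ) : Prop :=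
  ∀ P ∈ (MvPolynomial.vanishingIdeal ℂ (charVar Γ r)).minimalPrimes,
    ∀ (g M : ℕ) (Λ : Submodule ℤ (EC g)) [DiscreteTopology Λ] [IsZLattice ℝ Λ]
      (Θ : EC g → Fin (M + 1) → ℂ), IsAbelianEmb Λ Θ →
      ∀ f : Fin (M + 1) → MvPolynomial Γ ℂ,
        (∀ y ∈ charVar Γ r ∩ MvPolynomial.zeroLocus ℂ P, (fun i => MvPolynomial.eval y (f i)) ≠ 0 →
          ∃ (c : ℂ) (z : EC g), (fun i => MvPolynomial.eval y (f i)) = c • Θ z) →
        ∀ y ∈ charVar Γ r ∩ MvPolynomial.zeroLocus ℂ P,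
          ∀ y' ∈ charVar Γ r ∩ MvPolynomial.zeroLocus ℂ P,
            (fun i => MvPolynomial.eval y (f i)) ≠ 0 → (fun i => MvPolynomial.eval y' (f i)) ≠ 0 →
            ∃ c : ℂ, (fun i => MvPolynomial.eval y' (f i)) = c • fun i => MvPolynomial.eval y (f i)

end Pool.Agent.PW
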