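import Pool.Agent.K.MP_65ad7c_ag.C38

/-! Quotients by an involution: lemmas on forms. -/

open Set Filter Topology Metric Pool.Agent.HT Pool.Agent.QN
open scoped ContDiff

noncomputable section
namespace Pool.Agent.Cq

variable {N d n : ℕ} {ι : Type} {Z : Set (Amb N)} {D : ι → Set (Amb N)}

theorem top_nul (h : Geo d Z D) (hn : 2 * d < n) (α : Om Z n) : α = 0 := by
  obtain ⟨a, rfl⟩ := Om.mk_surj α
  refine Om.mk_eq_zero.2 (Nul.loc fun x hx => ?_)
  obtain ⟨A, rfl⟩ := h.chart x hx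
  refine ⟨A.W, A.W_open.mem_nhds (A.ψ_mem _ (mem_ball_self A.ρ_pos)).2,
    mem_Nul.2 fun γ z hz => ?_⟩
  have hz' := hz.self_of_nhds
  rw [pull_congr (G' := A.ψ ∘ (A.φ ∘ γ)) _ (hz.mono fun y hy => (A.ψφ _ hy.2).symm),
    pull_comp _ (cda_diff (A.φ_smooth.contDiffAt.comp z hz'.1)) (cda_diff A.ψ_smooth.contDiffAt)]
  ext v
  rw [pull_apply]
  refine (pull A.ψ a.1 _).toAlternatingMap.map_linearDependent _ fun hl => ?_
  have h1 := hl.fintype_card_le_finrank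
  rw [Module.finrank_pi_fintype] at h1
  simp [Complex.finrank_real_complex] at h1
  omega

/-- the Poincare lemma for germs -/
theorem germ (h : Geo d Z D) {x : Amb N} (hx : x ∈ Z) {G : Set (Amb N)} (hG : IsOpen G)
    (hxG : x ∈ G) {α : Om Z (n + 1)} (hα : α ∈ Ac Z (Z ∩ G) (n + 1))
    (hd : Om.d Z (n + 1) α ∈ Ac Z {x}ᶜ (n + 1 + 1)) :
    ∃ β ∈ Ac Z (Z ∩ G) n, α - Om.d Z n β ∈ Ac Z ((Z ∩ G) ∩ {x}ᶜ) (n + 1) := by
  obtain ⟨a, rfl⟩ := Om.mk_surj α
  obtain ⟨K, hK, hKx, h0⟩ := mem_Ac.1 (show Om.mk Z (SF.d _ a) ∈ _ from hd)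
  obtain ⟨A, rfl⟩ := h.chart x hx
  have hc : A.c ∈ ball A.c A.ρ := mem_ball_self A.ρ_pos
  obtain ⟨r, hr, hb⟩ := Metric.mem_nhds_iff.1 ((isOpen_ball.inter
    (hK.isClosed.isOpen_compl.preimage A.ψ_smooth.continuous)).mem_nhds
      ⟨hc, fun h1 => hKx h1 rfl⟩)
  let H : ℝ × Amb N → Amb N := fun p => A.ψ (A.c + Real.smoothTransition p.1 • (A.φ p.2 - A.c))
  have hH : ContDiff ℝ ∞ H := A.ψ_smooth.comp (contDiff_const.add
    ((Real.smoothTransition.contDiff.comp contDiff_fst).smul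
      ((A.φ_smooth.comp contDiff_snd).sub contDiff_const)))
  let O : Set (Amb N) := A.W ∩ A.φ ⁻¹' ball A.c r
  have hO : IsOpen O := A.W_open.inter (isOpen_ball.preimage A.φ_smooth.continuous)
  have hxO : A.ψ A.c ∈ O := ⟨(A.ψ_mem _ hc).2, by
    rw [mem_preimage, A.φψ _ hc]; exact mem_ball_self hr⟩
  have a1 := Nul.K h0 hH (S := Z ∩ O) fun t y hy => by
    have h1 : A.c + Real.smoothTransition t • (A.φ y - A.c) ∈ ball A.c r := by
      rw [mem_ball_iff_norm, add_sub_cancel_left, norm_smul, Real.norm_eq_abs,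
        abs_of_nonneg (Real.smoothTransition.nonneg t)]
      have h2 := mem_ball_iff_norm.1 hy.2.2
      have h3 := Real.smoothTransition.le_one t
      nlinarith [norm_nonneg (A.φ y - A.c), Real.smoothTransition.nonneg t]
    exact ⟨(A.ψ_mem _ (hb h1).1).1, (hb h1).2⟩
  have a2 := Nul.pl_sub (S := Z ∩ O) a (slice_smooth hH 1) fun y hy => by
    simp only [H, Real.smoothTransition.one, one_smul, add_sub_cancel]
    exact A.ψφ y ⟨hy.1, hy.2.1⟩
  have a3 : a.pl _ (slice_smooth hH 0) = 0 := by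
    refine SF.ext (funext fun y => ContinuousAlternatingMap.ext fun v => ?_)
    have e : (fun y => H (0, y)) = fun _ => A.ψ A.c := by
      funext y
      simp [H]
    rw [SF.pl_val, pull_apply, e]
    exact (a.1 _).map_coord_zero 0 (by simp)
  have a4 : a - SF.d n (a.K H hH) ∈ Nul (Z ∩ O) (n + 1) := by
    have e := SF.hom_succ hH a
    rw [a3, sub_zero] at e
    have e2 : a - SF.d n (a.K H hH) =
        (SF.d _ a).K H hH - (a.pl _ (slice_smooth hH 1) - a) := by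
      rw [e]; abel
    rw [e2]
    exact sub_mem a1 a2
  obtain ⟨χ, hχ, -, hs, -, h1⟩ := Wein.exists_bump {A.ψ A.c} G isCompact_singleton hG
    (singleton_subset_iff.2 hxG)
  rw [nhdsSet_singleton] at h1
  obtain ⟨T, hT, hTo, hxT⟩ := _root_.eventually_nhds_iff.1 h1
  have hβ : Om.mk Z (SF.fsmul χ hχ n (a.K H hH)) ∈ Ac Z (Z ∩ G) n :=
    mem_Ac.2 ⟨Z ∩ tsupport χ, h.compact.inter_right (isClosed_tsupport χ),
      inter_subset_inter_right _ hs, Nul.of_zero fun y hy => by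
        rw [SF.fsmul_val, image_eq_zero_of_notMem_tsupport fun h2 => hy.2 ⟨hy.1, h2⟩]
        ext v
        simp⟩
  refine ⟨_, hβ, ac_inf Z _ _ ⟨sub_mem hα (Ac.d_mem hβ), ?_⟩⟩
  refine mem_Ac.2 ⟨Z \ (O ∩ T), h.compact.diff (hO.inter hTo),
    fun y hy e => hy.2 (by rw [mem_singleton_iff.1 e]; exact ⟨hxO, hxT⟩), ?_⟩
  have hs2 : Z \ (Z \ (O ∩ T)) ⊆ Z ∩ (O ∩ T) := fun y hy =>
    ⟨hy.1, by_contra fun h2 => hy.2 ⟨hy.1, h2⟩⟩
  refine Nul.anti hs2 ?_
  have a5 : a.K H hH - SF.fsmul χ hχ n (a.K H hH) ∈ Nul (Z ∩ (O ∩ T)) n :=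
    Nul.of_zero fun y hy => by
      change (a.K H hH).1 y - χ y • (a.K H hH).1 y = 0
      rw [hT y hy.2.2, one_smul, sub_self]
  have a6 := add_mem (Nul.anti (inter_subset_inter_right Z inter_subset_left) a4) (Nul.d a5)
  rwa [map_sub, sub_add_sub_cancel] at a6

variable {L : Amb N →L[ℝ] Amb N} {A : (Fin N → ℂ) →L[ℂ] Fin N → ℂ}

theorem pull_L {X : Type} [NormedAddCommGroup X] [NormedSpace ℝ X] (hL : ∀ x, L (L x) = x)
    (g : X → Amb N) (a : SF (Amb N) n) (z : X) :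
    pull g (SF.pull L n a).1 z = pull (L ∘ g) a.1 z := by
  have e : fderiv ℝ (L ∘ g) z = L.comp (fderiv ℝ g z) :=
    (ContinuousLinearEquiv.equivOfInverse L L hL hL).comp_fderiv
  ext v
  rw [pull_apply, pull_apply, e]
  rfl

theorem typeGe_pull (hL : ∀ x, L (L x) = x) (hA : ∀ v, A (A v) = v)
    (hp : ∀ v, proj (A v) = L (proj v)) {S S' : Set (Amb N)} (h : MapsTo L S S') {a : ℕ}
    {β : Om S' n} (hβ : β ∈ TypeGe S' a n) : Om.pull L h n β ∈ TypeGe S a n := by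
  obtain ⟨α, hα, rfl⟩ := hβ
  refine ⟨SF.pull L n α, fun e O g hO hg hS z hz v => ?_, rfl⟩
  obtain ⟨b, hb⟩ := hα e O (A ∘ g) hO (A.differentiable.comp_differentiableOn hg)
    (fun w hw => ⟨fun h0 => (hS w hw).1 (by
      rw [← hA (g w), show A (g w) = 0 from h0, map_zero]), by
        rw [Function.comp_apply, hp]; exact h (hS w hw).2⟩) z hz v
  refine ⟨b, fun c => ?_⟩
  rw [← hb c, pull_L hL, show L ∘ (proj ∘ g) = proj ∘ A ∘ g from funext fun w => (hp _).symm]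

theorem fil_pull (hL : ∀ x, L (L x) = x) (hA : ∀ v, A (A v) = v)
    (hp : ∀ v, proj (A v) = L (proj v)) (hZ : MapsTo L Z Z)
    (hD : ∀ i, ∃ j, MapsTo L (D i) (D j)) {a : ℕ} {α : Om Z n} (h : α ∈ Fil Z D a n) :
    Om.pull L hZ n α ∈ Fil Z D a n := by
  choose τ hτ using hD
  refine cls_map (totPull L hZ hτ) (fun y hy => Submodule.subset_span (Or.inl fun p m I => ?_))
    (fun x => ⟨_, totPull_Dt L hZ hτ x⟩) (totPull_inc L hZ hτ α) h
  exact typeGe_pull hL hA hp (strat_maps L hZ hτ I) (hy p m _)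

theorem pull_pull (hL : ∀ x, L (L x) = x) (hZ : MapsTo L Z Z) (α : Om Z n) :
    Om.pull L hZ n (Om.pull L hZ n α) = α := by
  obtain ⟨a, rfl⟩ := Om.mk_surj α
  refine congrArg (Om.mk Z) (SF.ext (funext fun x => ContinuousAlternatingMap.ext fun v => ?_) :
    SF.pull L n (SF.pull L n a) = a)
  simp only [SF.pull_val, ContinuousAlternatingMap.compContinuousLinearMap_apply, hL]
  exact congrArg _ (funext fun i => hL _)

theorem chart_map (hL : ∀ x, L (L x) = x) (hA : ∀ v, A (A v) = v)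
    (hp : ∀ v, proj (A v) = L (proj v)) (hZ : MapsTo L Z Z) {O : Set (Fin d → ℂ)}
    {f : (Fin d → ℂ) → Fin N → ℂ} (hf : IsChart Z O f) : IsChart Z O (A ∘ f) := by
  have hi : Function.Injective A := Function.LeftInverse.injective hA
  have e1 : proj ∘ A ∘ f = L ∘ (proj ∘ f) := funext fun w => hp _
  refine ⟨hf.isOpen, A.differentiable.comp_differentiableOn hf.hol,
    fun z hz h0 => hf.ne z hz (hi (h0.trans (map_zero A).symm)), fun z hz v c hv => ?_,
    fun z hz z' hz' e => hf.inj hz hz' ?_, fun O' h1 h2 => ?_⟩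
  · rw [fderiv_comp z A.differentiableAt
      ((hf.hol z hz).differentiableAt (hf.isOpen.mem_nhds hz)), A.fderiv] at hv
    exact hf.imm z hz v c (hi (hv.trans (map_smul A c _).symm))
  · rw [e1] at e
    exact Function.LeftInverse.injective hL e
  · obtain ⟨W, hW, e⟩ := hf.opn O' h1 h2
    refine ⟨L ⁻¹' W, hW.preimage L.continuous, ?_⟩
    rw [e1, image_comp, e]
    ext y
    exact ⟨fun ⟨w, hw, e⟩ => e ▸ ⟨hZ hw.1, by rw [mem_preimage, hL]; exact hw.2⟩,
      fun hy => ⟨L y, ⟨hZ hy.1, hy.2⟩, hL y⟩⟩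

theorem lam_pull (hL : ∀ x, L (L x) = x) (hA : ∀ v, A (A v) = v)
    (hp : ∀ v, proj (A v) = L (proj v)) (hZ : MapsTo L Z Z) {e : Fin n → Fin d → ℂ}
    {lam : Module.Dual ℂ (Om Z n)} (hl : IsLam Z e lam) :
    IsLam Z e (lam.comp (Om.pull L hZ n)) := by
  intro O f hf α hα
  have e1 : proj ∘ A ∘ f = L ∘ (proj ∘ f) := funext fun w => hp _
  have hf' := chart_map hL hA hp hZ hf
  have h2 := hl O _ hf' (SF.pull L n α) (Ac.pull_mem L hL hZ (by
    rw [e1, image_comp L]; exact mapsTo_image _ _) hα)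
  refine h2.trans (congrArg _ (funext fun z => ?_))
  rw [pull_L hL, e1, show L ∘ L ∘ proj ∘ f = proj ∘ f from funext fun w => hL _]

theorem exists_lam_inv (h : Geo d Z D) (hL : ∀ x, L (L x) = x) (hA : ∀ v, A (A v) = v)
    (hp : ∀ v, proj (A v) = L (proj v)) (hZ : MapsTo L Z Z)
    (b : Module.Basis (Fin n) ℝ (Fin d → ℂ)) :
    ∃ lam : Module.Dual ℂ (Om Z n), IsLam Z b lam ∧ ∀ α, lam (Om.pull L hZ n α) = lam α := by
  obtain ⟨lam, hl⟩ := exists_lam h b
  have h2 := lam_pull hL hA hp hZ hl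
  refine ⟨(1 / 2 : ℂ) • (lam + lam.comp (Om.pull L hZ n)), fun O f hf α hα => ?_, fun α => ?_⟩
  · rw [LinearMap.smul_apply, LinearMap.add_apply, hl O f hf α hα, h2 O f hf α hα, smul_eq_mul]
    ring
  · simp only [LinearMap.smul_apply, LinearMap.add_apply, LinearMap.comp_apply, pull_pull hL,
      add_comm]

end Pool.Agent.Cq
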