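import Pool.Agent.K.MP_65ad7c_ag.C38

/-! Quotients by an involution: direct summands of complexes of sheaves. -/

open Set CategoryTheory TopologicalSpace Opposite Pool.Agent.PQ

noncomputable section
namespace Pool.Agent.Cq

variable {Y : Type} [TopologicalSpace Y] {I K : PCx Y} {n m : ℕ} {V W : Opens Y}

theorem rs_mp (f : I ⟶ K) (h : W ≤ V) (c : Sec I n V) : rs h (mp f c) = mp f (rs h c) :=
  ((f.f n).naturality_apply (homOfLE h).op c).symm

theorem rs_dv (h : W ≤ V) (c : Sec I n V) : rs h (dv m c) = dv m (rs h c) :=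
  ((I.d n m).naturality_apply (homOfLE h).op c).symm

theorem dv_mp (f : I ⟶ K) (c : Sec I n V) : dv m (mp f c) = mp f (dv m c) :=
  congrArg (fun g : I.X n ⟶ K.X m => ap g c) (f.comm n m)

theorem rs_zero (h : W ≤ V) : rs h (0 : Sec I n V) = 0 := map_zero (ModuleCat.Hom.hom _)

theorem dv_zero : dv m (0 : Sec I n V) = 0 := map_zero (ModuleCat.Hom.hom _)

theorem mp_zero (f : I ⟶ K) : mp f (0 : Sec I n V) = 0 := map_zero (ModuleCat.Hom.hom _)

theorem rs_add (h : W ≤ V) (a b : Sec I n V) : rs h (a + b) = rs h a + rs h b :=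
  map_add (ModuleCat.Hom.hom _) a b

theorem rs_sub (h : W ≤ V) (a b : Sec I n V) : rs h (a - b) = rs h a - rs h b :=
  map_sub (ModuleCat.Hom.hom _) a b

theorem rs_smul (h : W ≤ V) (a : ℂ) (b : Sec I n V) : rs h (a • b) = a • rs h b :=
  map_smul (ModuleCat.Hom.hom _) a b

theorem dv_add (a b : Sec I n V) : dv m (a + b) = dv m a + dv m b :=
  map_add (ModuleCat.Hom.hom _) a b

theorem dv_smul (a : ℂ) (b : Sec I n V) : dv m (a • b) = a • dv m b :=
  map_smul (ModuleCat.Hom.hom _) a b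

theorem mp_sub (f : I ⟶ K) (a b : Sec I n V) : mp f (a - b) = mp f a - mp f b :=
  map_sub (ModuleCat.Hom.hom _) a b

theorem mp_smul (f : I ⟶ K) (a : ℂ) (b : Sec I n V) : mp f (a • b) = a • mp f b :=
  map_smul (ModuleCat.Hom.hom _) a b

theorem van_rs {O : Opens Y} (h : W ≤ V) {c : Sec I n V} (hc : Van O c) : Van O (rs h c) := by
  unfold Van at hc ⊢
  rw [rs_rs_QNm, ← rs_rs_QNm inf_le_left (inf_le_inf_right O h), hc, rs_zero]

theorem van_mp {O : Opens Y} (f : I ⟶ K) {c : Sec I n V} (hc : Van O c) : Van O (mp f c) := by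
  unfold Van at hc ⊢
  rw [rs_mp, hc, mp_zero]

theorem cyc_mp {O : Opens Y} (f : I ⟶ K) {c : Sec I n V} (hc : Cyc O c) : Cyc O (mp f c) :=
  ⟨by rw [dv_mp, hc.cyc, mp_zero], van_mp f hc.van⟩

theorem bd_mp {O : Opens Y} {x : Y} (f : I ⟶ K) {c : Sec I n V} (hc : LocBd O x c) :
    LocBd O x (mp f c) := by
  obtain ⟨W, h, b, hx, h1, h2⟩ := hc.bd
  exact ⟨W, h, mp f b, hx, van_mp f h1, by rw [dv_mp, h2, rs_mp]⟩

theorem bd_rs {O : Opens Y} {x : Y} (h : W ≤ V) (hx : x ∈ W) {c : Sec I n V} (hc : LocBd O x c) :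
    LocBd O x (rs h c) := by
  obtain ⟨T, h0, b, hT, h1, h2⟩ := hc.bd
  exact ⟨T ⊓ W, inf_le_right, rs inf_le_left b, ⟨hT, hx⟩, van_rs _ h1, by
    rw [← rs_dv, h2, rs_rs_QNm, rs_rs_QNm]⟩

theorem exact_mem {O : Opens Y} {x : Y} (hx : x ∈ O) : ExactAt I O x n :=
  ⟨fun V hV _ hc => ⟨V ⊓ O, inf_le_left, 0, ⟨hV, hx⟩, rs_zero _, dv_zero.trans hc.van.symm⟩⟩

theorem lc_empty {O : Opens Y} {S : Set Y} (h : ∀ x, x ∉ S) : LocConst I O S n :=
  ⟨fun x hx => (h x hx).elim⟩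

/-- the cocycles vanishing on `O` -/
def cycS (I : PCx Y) (O : Opens Y) (n : ℕ) (W : Opens Y) : Submodule ℂ (Sec I n W) where
  carrier := {c | Cyc O c}
  zero_mem' := ⟨dv_zero, rs_zero _⟩
  add_mem' {a b} ha hb := ⟨by rw [dv_add, ha.cyc, hb.cyc, add_zero],
    (rs_add _ a b).trans (by rw [ha.van, hb.van, add_zero])⟩
  smul_mem' a b hb := ⟨by rw [dv_smul, hb.cyc, smul_zero],
    (rs_smul _ a b).trans (by rw [hb.van, smul_zero])⟩

/-- the local coboundaries -/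
def bdS (I : PCx Y) (O : Opens Y) (n : ℕ) {W : Opens Y} {x : Y} (hx : x ∈ W) :
    Submodule ℂ (Sec I n W) where
  carrier := {c | LocBd O x c}
  zero_mem' := ⟨W, le_rfl, 0, hx, rs_zero _, dv_zero.trans (rs_zero _).symm⟩
  add_mem' {a b} ha hb := by
    obtain ⟨T, h, s, hT, h1, h2⟩ := ha.bd
    obtain ⟨T', h', s', hT', h1', h2'⟩ := hb.bd
    refine ⟨T ⊓ T', inf_le_left.trans h, rs inf_le_left s + rs inf_le_right s', ⟨hT, hT'⟩,
      (rs_add _ _ _).trans ?_, ?_⟩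
    · rw [show rs _ (rs _ s) = 0 from van_rs _ h1, show rs _ (rs _ s') = 0 from van_rs _ h1',
        add_zero]
    · rw [dv_add, ← rs_dv, ← rs_dv, h2, h2', rs_rs_QNm, rs_rs_QNm, rs_add]
  smul_mem' a b hb := by
    obtain ⟨T, h, s, hT, h1, h2⟩ := hb.bd
    exact ⟨T, h, a • s, hT, (rs_smul _ a s).trans (by rw [h1, smul_zero]),
      by rw [dv_smul, h2, rs_smul]⟩

theorem sep (hs : (Tm I n).IsSheaf) {U U' : Opens Y} (h : U ≤ V) (h' : U' ≤ V) (hc : V ≤ U ⊔ U')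
    {c : Sec I n V} (e : rs h c = 0) (e' : rs h' c = 0) : c = 0 :=
  TopCat.Sheaf.eq_of_locally_eq₂ (⟨_, hs⟩ : TopCat.Sheaf (ModuleCat.{0} ℂ) (TopCat.of Y))
    (homOfLE h) (homOfLE h') hc c 0 (e.trans (rs_zero h).symm) (e'.trans (rs_zero h').symm)

theorem ext_zero (hs : (Tm I n).IsSheaf) {O : Opens Y} (h : V ≤ W) (hc : W ≤ V ⊔ O)
    {c : Sec I n V} (hv : Van O c) : ∃ c' : Sec I n W, Van O c' ∧ rs h c' = c := by
  let U : Bool → Opens Y := fun t => match t with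
    | true => V
    | false => W ⊓ O
  let sf : ∀ t, Sec I n (U t) := fun t => match t with
    | true => c
    | false => 0
  have h0 : ∀ (T : Opens Y) (h1 : T ≤ V), T ≤ O → rs h1 c = 0 := fun T h1 h2 => by
    rw [← rs_rs_QNm inf_le_left (le_inf h1 h2), hv, rs_zero]
  obtain ⟨s, h1, -⟩ := TopCat.Sheaf.existsUnique_gluing'
    (⟨_, hs⟩ : TopCat.Sheaf (ModuleCat.{0} ℂ) (TopCat.of Y)) U W
    (fun t => match t with
      | true => homOfLE h
      | false => homOfLE inf_le_left)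
    (fun y hy => by
      rcases hc hy with h2 | h2
      · exact le_iSup U true h2
      · exact le_iSup U false ⟨hy, h2⟩) sf
    (fun s t => match s, t with
      | true, true => rfl
      | true, false => (h0 _ inf_le_left (inf_le_right.trans inf_le_right)).trans (rs_zero _).symm
      | false, true => (rs_zero _).trans
          (h0 _ inf_le_right (inf_le_left.trans inf_le_right)).symm
      | false, false => rfl)
  exact ⟨s, h1 false, h1 true⟩

/-- local constancy along a discrete stratum -/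
theorem lc_pt (hs : ∀ n, (Tm I n).IsSheaf) {O : Opens Y} {S : Set Y}
    (h : ∀ x ∈ S, ∃ W : Opens Y, x ∈ W ∧ ∀ y ∈ W, y ≠ x → y ∈ O) (hS : ∀ y ∈ S, y ∉ O) :
    LocConst I O S n := by
  refine ⟨fun x hx => ?_⟩
  obtain ⟨W, hW, h1⟩ := h x hx
  obtain ⟨B, hB⟩ := ((bdS I O n hW).comap (cycS I O n W).subtype).exists_isCompl
  refine ⟨W, B.map (cycS I O n W).subtype, hW, ?_, fun y hy hyW => ?_⟩
  · rintro _ ⟨b, -, rfl⟩
    exact b.2
  obtain rfl : y = x := by_contra fun e => hS y hy (h1 y hyW e)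
  refine ⟨?_, fun V hV c hyV hc => ?_⟩
  · rintro _ ⟨b, hb, rfl⟩ h2
    rw [Submodule.disjoint_def.1 hB.disjoint b h2 hb, map_zero]
  · have hcov : W ≤ V ⊔ O := fun z hz => by
      by_cases e : z = y
      · exact Or.inl (e ▸ hyV)
      · exact Or.inr (h1 z hz e)
    obtain ⟨c', h2, rfl⟩ := ext_zero (hs n) hV hcov hc.van
    have h3 : Cyc O c' := ⟨sep (hs _) hV inf_le_left (fun z hz => (hcov hz).imp id fun e => ⟨hz, e⟩)
      (by rw [rs_dv, hc.cyc]) (by rw [rs_dv, h2, dv_zero]), h2⟩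
    obtain ⟨a, ha, b, hb, e⟩ := Submodule.mem_sup.1
      (hB.codisjoint.eq_top.symm ▸ Submodule.mem_top (x := (⟨c', h3⟩ : cycS I O n W)))
    refine ⟨b.1, ⟨b, hb, rfl⟩, ?_⟩
    rw [← rs_sub, show c' - b.1 = a.1 from sub_eq_of_eq_add (congrArg Subtype.val e).symm]
    exact bd_rs hV hyV ha

variable {i : I ⟶ K} {p : K ⟶ I}

theorem mp_pi (h : i ≫ p = 𝟙 I) (c : Sec I n V) : mp p (mp i c) = c := by
  rw [← mp_comp, h]
  rfl

theorem inj_retract (h : i ≫ p = 𝟙 I) (hs : (Tm K n).IsSheaf)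
    (fl : ∀ (V W : Opens Y) (hle : W ≤ V) (c : Sec K n W), ∃ c' : Sec K n V, rs hle c' = c) :
    ∃ hI : (Tm I n).IsSheaf,
      Injective (⟨Tm I n, hI⟩ : TopCat.Sheaf (ModuleCat.{0} ℂ) (TopCat.of Y)) := by
  have hI : (Tm I n).IsSheaf := by
    rw [TopCat.Presheaf.isSheaf_iff_isSheafUniqueGluing] at hs ⊢
    intro κ U sf hsf
    obtain ⟨s, h1, h2⟩ := hs U (fun a => mp i (sf a)) fun a b =>
      (rs_mp i inf_le_left (sf a)).trans ((congrArg (mp i) (hsf a b)).trans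
        (rs_mp i inf_le_right (sf b)).symm)
    refine ⟨mp p s, fun a => (rs_mp p (le_iSup U a) s).trans
      ((congrArg (mp p) (h1 a)).trans (mp_pi h _)), fun t ht => ?_⟩
    rw [← h2 (mp i t) fun a => (rs_mp i (le_iSup U a) t).trans (congrArg (mp i) (ht a))]
    exact (mp_pi h t).symm
  refine ⟨hI, QN.injective_of_flabby _ hI fun V W hle c => ?_⟩
  obtain ⟨c', e⟩ := fl V W hle (mp i c)
  exact ⟨mp p c', (rs_mp p hle c').trans ((congrArg (mp p) e).trans (mp_pi h c))⟩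

theorem exact_retract (h : i ≫ p = 𝟙 I) {O : Opens Y} {x : Y} (hK : ExactAt K O x n) :
    ExactAt I O x n :=
  ⟨fun V hV c hc => mp_pi h c ▸ bd_mp p (hK.ex V hV _ (cyc_mp i hc))⟩

theorem split_idem (e : K ⟶ K) (he : e ≫ e = e) :
    ∃ (I : PCx Y) (i : I ⟶ K) (p : K ⟶ I), i ≫ p = 𝟙 I ∧ p ≫ i = e := by
  have : IsIdempotentComplete (PSh Y) :=
    inferInstanceAs (IsIdempotentComplete ((Opens (TopCat.of Y))ᵒᵖ ⥤ ModuleCat.{0} ℂ))
  exact IsIdempotentComplete.idempotents_split K e he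

end Pool.Agent.Cq
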