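import Pool.Agent.P.MP_65ad7c_ag.CqA
import Pool.Agent.P.MP_65ad7c_ag.CqB

/-! Quotients by an involution: the local structure of the direct image. -/

open Set CategoryTheory TopologicalSpace Opposite Topology Pool.Agent.PQ Pool.Agent.QN
open Pool.Agent.HT (SF Om Geo)

noncomputable section
namespace Pool.Agent.Cq

variable {Y : Type} [TopologicalSpace Y] {N d n : ℕ} {ι : Type} {Z : Set (Amb N)}
  {D : ι → Set (Amb N)} {π : C(↥(Z \ ⋃ a, D a), Y)} {j : ℕ} {V W : Opens Y}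
  {L : Amb N →L[ℝ] Amb N}

section gen
variable {t : ℕ} {E : ℕ → Type} [∀ q, AddCommGroup (E q)] [∀ q, Module ℂ (E q)]
  {δ : ∀ q, E q →ₗ[ℂ] E (q + 1)} {A : Opens Y → ∀ q, Submodule ℂ (E q)}
  {hA : ∀ V W, W ≤ V → ∀ q, A W q ≤ A V q} {hδ : ∀ V q, ∀ α ∈ A V q, δ q α ∈ A V (q + 1)}
  {hδδ : ∀ q α, δ (q + 1) (δ q α) = 0}

theorem exists_tr' (T : ∀ q, E q →ₗ[ℂ] E q) (hT : ∀ V q, ∀ α ∈ A V q, T q α ∈ A V q)
    (hd : ∀ q α, δ q (T q α) = T (q + 1) (δ q α)) :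
    ∃ e : PW.dualCx t δ A hA hδ hδδ ⟶ PW.dualCx t δ A hA hδ hδδ,
      ∀ j V (l : Sec (PW.dualCx t δ A hA hδ hδδ) j V) (q : {q // q + j = t}) (α : A V q.1),
        mp e l q α = l q ⟨T q α.1, hT V q α.1 α.2⟩ := by
  let f : ∀ j, (PW.dualCx t δ A hA hδ hδδ).X j ⟶ (PW.dualCx t δ A hA hδ hδδ).X j := fun j =>
    { app := fun V => ModuleCat.ofHom (LinearMap.pi fun q : {q // q + j = t} =>
        ((T q.1).restrict (hT V.unop q.1)).dualMap.comp (LinearMap.proj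
          (φ := fun q : {q // q + j = t} => Module.Dual ℂ (A V.unop q.1)) q))
      naturality := fun V W h => ModuleCat.hom_ext (LinearMap.ext fun l => funext fun q =>
        LinearMap.ext fun x => congrArg (l q) (Subtype.ext rfl)) }
  refine ⟨{ f := f, comm' := fun i j hij => ?_ }, fun _ _ _ _ _ => rfl⟩
  obtain rfl : i + 1 = j := hij
  refine NatTrans.ext (funext fun V => ModuleCat.hom_ext (LinearMap.ext fun l =>
    funext fun q => LinearMap.ext fun x => ?_))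
  exact (PW.S.dualCx_dv i V.unop (((f i).app V).hom l) q x).trans
    ((congrArg (l ⟨q.1 + 1, by have := q.2; omega⟩) (Subtype.ext (hd q.1 x.1).symm)).trans
      (PW.S.dualCx_dv i V.unop l q ⟨T q.1 x.1, hT _ q.1 x.1 x.2⟩).symm)

end gen

theorem exists_tr (T : ∀ q, Om Z q →ₗ[ℂ] Om Z q)
    (hT : ∀ V q, ∀ α ∈ HT.Ac Z (PW.up π V) q, T q α ∈ HT.Ac Z (PW.up π V) q)
    (hd : ∀ q α, Om.d Z q (T q α) = T (q + 1) (Om.d Z q α)) :
    ∃ e : PW.Kx d π ⟶ PW.Kx d π, ∀ j V (l : Sec (PW.Kx d π) j V) q hq α,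
      kv π (mp e l) q hq α = kv π l q hq ⟨T q α.1, hT V q α.1 α.2⟩ := by
  obtain ⟨e, he⟩ := exists_tr' (t := 2 * d) (A := fun V q => HT.Ac Z (PW.up π V) q)
    (hA := fun _ _ => PW.ac_mono π) (hδ := fun V => PW.ac_d (PW.up π V)) (hδδ := PW.om_dd) T hT hd
  exact ⟨e, fun j V l q hq α => he j V l ⟨q, hq⟩ α⟩

theorem ac_split (hZ : IsCompact Z) {U U' : Set (Amb N)} (h : IsOpen U) (h' : IsOpen U')
    {α : Om Z n} (hα : α ∈ HT.Ac Z (U ∪ U') n) :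
    α ∈ HT.Ac Z (Z ∩ U) n ⊔ HT.Ac Z (Z ∩ U') n := by
  obtain ⟨s, T, h1, h2, -⟩ := ac_pu hZ (fun t : Bool => cond t U U')
    (fun t => by cases t <;> assumption) {α} fun β hβ => by
      rw [Finset.mem_singleton.1 hβ, ← union_eq_iUnion]
      exact hα
  rw [← h1 α (Finset.mem_singleton_self _)]
  refine Submodule.sum_mem _ fun t _ => ?_
  cases t
  · exact Submodule.mem_sup_right (h2 false α)
  · exact Submodule.mem_sup_left (h2 true α)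

theorem exact_of [Finite ι] {x : Y} (h : ∀ V : Opens Y, x ∈ V → ∃ W : Opens Y, W ≤ V ∧ x ∈ W ∧
      ∀ n < 2 * d, ∀ α ∈ HT.Ac Z (PW.up π W) n, Om.d Z n α = 0 → α ∈ Bd Z (PW.up π V) n)
    (hn : 0 < n) : ExactAt (PW.Kx d π) ⊥ x n := by
  obtain ⟨n, rfl⟩ : ∃ n', n = n' + 1 := ⟨n - 1, by omega⟩
  refine ⟨fun V hx c hc => ?_⟩
  obtain ⟨W, hW, hxW, h1⟩ := h V hx
  by_cases hq : ∃ q, q + (n + 1) = 2 * d
  · obtain ⟨q, hq⟩ := hq
    let δ : HT.Ac Z (PW.up π W) q →ₗ[ℂ] HT.Ac Z (PW.up π W) (q + 1) :=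
      (Om.d Z q).restrict (PW.ac_d _ q)
    have h2 : kv π (rs hW c) q hq ∈ (LinearMap.ker δ).dualAnnihilator := by
      refine (Submodule.mem_dualAnnihilator _).2 fun α hα => ?_
      rw [kv_rs]
      exact kv_bd hc.cyc q hq _ (h1 q (by omega) α.1 α.2 (congrArg Subtype.val hα))
    rw [← LinearMap.range_dualMap_eq_dualAnnihilator_ker] at h2
    obtain ⟨μ, hμ⟩ := h2
    have hq1 : q + 1 + n = 2 * d := by omega
    obtain ⟨l, hl'⟩ := exists_kv (π := π) (V := W) (q + 1) hq1 μ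
    refine ⟨W, hW, l, hxW, van_bot l, kv_ext fun q' hq' α => ?_⟩
    obtain rfl : q' = q := by omega
    refine (kv_dv l q' hq' α).trans ?_
    rw [hl', ← hμ]
    rfl
  · exact ⟨W, hW, 0, hxW, van_bot _, kv_ext fun q' hq' _ => (hq ⟨q', hq'⟩).elim⟩

/-- no local cohomology at a point with one preimage, below the top degree -/
theorem exact_pt [Finite ι] (h : Geo d Z D) {O T : Opens Y} {u : ↥(Z \ ⋃ a, D a)} (hT : π u ∈ T)
    (hO : π u ∉ O) (h1 : ∀ v, π v ∈ T → v ≠ u → π v ∈ O) (hn : n < 2 * d) :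
    ExactAt (PW.Kx d π) O (π u) n := by
  refine ⟨fun V hx c hc => ?_⟩
  have hW : V ⊓ T ≤ V := inf_le_left
  have hc' : Cyc O (rs hW c) := ⟨by rw [← rs_dv, hc.cyc, rs_zero], van_rs _ hc.van⟩
  obtain ⟨q, hq⟩ : ∃ q, q + 1 + n = 2 * d := ⟨2 * d - n - 1, by omega⟩
  have key : ∀ α : HT.Ac Z (PW.up π (V ⊓ T)) (q + 1),
      Om.d Z _ α.1 ∈ HT.Ac Z (PW.up π (V ⊓ T ⊓ O)) (q + 1 + 1) → kv π (rs hW c) _ hq α = 0 := by
    intro α hα
    obtain ⟨G, hG, e⟩ := up_open h π (V ⊓ T)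
    have hu : u.1 ∈ Z ∩ G := e ▸ (⟨u, ⟨hx, hT⟩, rfl⟩ : u.1 ∈ PW.up π (V ⊓ T))
    obtain ⟨β, hβ, h2⟩ := germ h hu.1 hG hu.2 (e ▸ α.2) (HT.Ac.mono Z (by
      rintro _ ⟨v, hv, rfl⟩ e'
      exact hO ((Subtype.ext e' : v = u) ▸ hv.2)) hα)
    rw [← e] at hβ h2
    have h3 : α.1 - Om.d Z q β ∈ HT.Ac Z (PW.up π (V ⊓ T ⊓ O)) (q + 1) := HT.Ac.mono Z (by
      rintro _ ⟨⟨v, hv, rfl⟩, e'⟩
      exact ⟨v, ⟨hv, h1 v hv.2 fun e2 => e' (congrArg Subtype.val e2)⟩, rfl⟩) h2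
    have h4 := kv_rs (inf_le_left : V ⊓ T ⊓ O ≤ V ⊓ T) (rs hW c) _ hq ⟨_, h3⟩
    rw [show rs _ (rs hW c) = 0 from hc'.van] at h4
    have h5 := kv_bd hc'.cyc _ hq ⟨_, PW.ac_d _ q β hβ⟩ ⟨β, hβ, rfl⟩
    have h6 : α = ⟨_, PW.ac_mono π inf_le_left _ h3⟩ + ⟨_, PW.ac_d _ q β hβ⟩ :=
      Subtype.ext (sub_add_cancel _ _).symm
    rw [h6, map_add, h5, ← h4]
    exact add_zero _
  cases n with
  | zero =>
    refine ⟨V ⊓ T, hW, 0, ⟨hx, hT⟩, rs_zero _, dv_zero.trans (kv_ext fun q' hq' α => ?_)⟩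
    obtain rfl : q' = q + 1 := by omega
    exact (key α (by rw [top_nul h (by omega) (Om.d Z _ α.1)]; exact zero_mem _)).symm
  | succ n =>
    let S : Submodule ℂ (HT.Ac Z (PW.up π (V ⊓ T)) (q + 1 + 1)) :=
      (HT.Ac Z (PW.up π (V ⊓ T ⊓ O)) (q + 1 + 1)).comap (Submodule.subtype _)
    let δ : HT.Ac Z (PW.up π (V ⊓ T)) (q + 1) →ₗ[ℂ] _ ⧸ S :=
      S.mkQ.comp ((Om.d Z (q + 1)).restrict (PW.ac_d _ (q + 1)))
    have h2 : kv π (rs hW c) _ hq ∈ (LinearMap.ker δ).dualAnnihilator :=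
      (Submodule.mem_dualAnnihilator _).2 fun α hα =>
        key α ((Submodule.Quotient.mk_eq_zero S).1 hα)
    rw [← LinearMap.range_dualMap_eq_dualAnnihilator_ker] at h2
    obtain ⟨μ, hμ⟩ := h2
    have hq1 : q + 1 + 1 + n = 2 * d := by omega
    obtain ⟨l, hl⟩ := exists_kv (π := π) (V := V ⊓ T) _ hq1 (μ.comp S.mkQ)
    refine ⟨V ⊓ T, hW, l, ⟨hx, hT⟩, kv_ext fun q' hq' α => ?_, kv_ext fun q' hq' α => ?_⟩
    · obtain rfl : q' = q + 1 + 1 := by omega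
      refine (kv_rs _ l _ hq1 α).trans ?_
      rw [hl]
      exact (congrArg μ ((Submodule.Quotient.mk_eq_zero S).2 α.2)).trans (map_zero μ)
    · obtain rfl : q' = q + 1 := by omega
      refine (kv_dv l _ hq' α).trans ?_
      rw [hl, ← hμ]
      rfl

variable (d π L) in
/-- `π` is the quotient map of the involution `L` -/
structure Sym : Prop where
  geo : Geo d Z D
  inv : ∀ x, L (L x) = x
  mZ : MapsTo L Z Z
  mD : ∀ i, ∃ j, MapsTo L (D i) (D j)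
  quot : IsQuotientMap π
  fib : ∀ u v, π u = π v ↔ v.1 = u.1 ∨ v.1 = L u.1

namespace Sym

variable (h : Sym d π L)
include h

theorem mX (u : ↥(Z \ ⋃ a, D a)) : L u.1 ∈ Z \ ⋃ a, D a := ⟨h.mZ u.2.1, fun h1 => by
  obtain ⟨i, hi⟩ := mem_iUnion.1 h1
  obtain ⟨k, hk⟩ := h.mD i
  exact u.2.2 (mem_iUnion.2 ⟨k, h.inv u.1 ▸ hk hi⟩)⟩

theorem up (V : Opens Y) : MapsTo L (PW.up π V) (PW.up π V) := by
  rintro _ ⟨u, hu, rfl⟩
  exact ⟨⟨_, h.mX u⟩, mem_preimage.2 ((h.fib u ⟨_, h.mX u⟩).2 (Or.inr rfl) ▸ hu), rfl⟩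

theorem isOpenMap : IsOpenMap π := fun S hS => by
  rw [← h.quot.isOpen_preimage]
  have hc : Continuous fun u : ↥(Z \ ⋃ a, D a) => (⟨_, h.mX u⟩ : ↥(Z \ ⋃ a, D a)) :=
    (L.continuous.comp continuous_subtype_val).subtype_mk _
  have e : π ⁻¹' (π '' S) = S ∪ (fun u => (⟨_, h.mX u⟩ : ↥(Z \ ⋃ a, D a))) ⁻¹' S := by
    ext u
    constructor
    · rintro ⟨v, hv, e⟩
      rcases (h.fib u v).1 e.symm with e | e
      · exact Or.inl ((Subtype.ext e : v = u) ▸ hv)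
      · exact Or.inr (mem_preimage.2 ((Subtype.ext e : v = ⟨_, h.mX u⟩) ▸ hv))
    · rintro (hu | hu)
      · exact ⟨u, hu, rfl⟩
      · exact ⟨_, hu, ((h.fib u _).2 (Or.inr rfl)).symm⟩
  rw [e]
  exact hS.union (hS.preimage hc)

/-- averaging -/
def av (q : ℕ) : Om Z q →ₗ[ℂ] Om Z q := (1 / 2 : ℂ) • (LinearMap.id + Om.pull L h.mZ q)

theorem av_ap (α : Om Z n) : h.av n α = (1 / 2 : ℂ) • (α + Om.pull L h.mZ n α) := rfl

theorem av_mem {S : Submodule ℂ (Om Z n)} (hS : ∀ α ∈ S, Om.pull L h.mZ n α ∈ S) :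
    ∀ α ∈ S, h.av n α ∈ S := fun α hα => S.smul_mem _ (add_mem hα (hS α hα))

theorem av_ac (V : Opens Y) (q : ℕ) :
    ∀ α ∈ HT.Ac Z (PW.up π V) q, h.av q α ∈ HT.Ac Z (PW.up π V) q :=
  h.av_mem fun _ => HT.Ac.pull_mem L h.inv h.mZ (h.up V)

theorem av_d (q : ℕ) (α : Om Z q) : Om.d Z q (h.av q α) = h.av (q + 1) (Om.d Z q α) := by
  rw [av_ap, av_ap, map_smul, map_add, Om.d_pull]

theorem av_pull (α : Om Z n) : h.av n (Om.pull L h.mZ n α) = h.av n α := by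
  rw [av_ap, av_ap, pull_pull h.inv, add_comm]

theorem av_av (α : Om Z n) : h.av n (h.av n α) = h.av n α := by
  conv_lhs => rw [h.av_ap α, map_smul, map_add, av_pull, ← two_smul ℂ, smul_smul]
  norm_num

theorem bd_pull (V : Opens Y) : ∀ α ∈ Bd Z (PW.up π V) n, Om.pull L h.mZ n α ∈ Bd Z (PW.up π V) n := by
  cases n with
  | zero =>
    intro α hα
    rw [show α = 0 from hα, map_zero]
    exact zero_mem _
  | succ n =>
    rintro _ ⟨β, hβ, rfl⟩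
    exact ⟨_, HT.Ac.pull_mem L h.inv h.mZ (h.up V) hβ, Om.d_pull _ _ _⟩

omit h in
theorem wander {x : Amb N} (hx : L x ≠ x) :
    ∃ H, IsOpen H ∧ x ∈ H ∧ ∀ y ∈ H, L y ∉ H := by
  obtain ⟨H, H', h1, h2, h3, h4, h5⟩ := t2_separation hx
  exact ⟨H' ∩ L ⁻¹' H, h2.inter (h1.preimage L.continuous), ⟨h4, h3⟩,
    fun y hy hy' => disjoint_left.1 h5 hy.2 hy'.1⟩

theorem loc [Finite ι] {b : Module.Basis (Fin (2 * d)) ℝ (Fin d → ℂ)}
    {lam : Module.Dual ℂ (Om Z (2 * d))} (hl : IsLam Z b lam)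
    (hi : ∀ α, lam (Om.pull L h.mZ _ α) = lam α) {x : Y} (hx : x ∈ V) :
    ∃ W : Opens Y, W ≤ V ∧ x ∈ W ∧
      (∀ n < 2 * d, ∀ α ∈ HT.Ac Z (PW.up π W) n, Om.d Z n α = 0 → α ∈ Bd Z (PW.up π V) n) ∧
      ∀ α ∈ HT.Ac Z (PW.up π W) (2 * d), lam α = 0 → h.av _ α ∈ Bd Z (PW.up π V) (2 * d) := by
  obtain ⟨G, hG, e⟩ := up_open h.geo π V
  obtain ⟨u, rfl⟩ := h.quot.surjective x
  have hu : u.1 ∈ Z ∩ G := e ▸ (⟨u, hx, rfl⟩ : u.1 ∈ PW.up π V)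
  obtain ⟨G', hG', huG', hsub, h1, h2⟩ := loc_poin h.geo hl hu.1 hG hu.2
  rw [← e] at h1 h2
  obtain ⟨H, hH, huH, hHG, h3⟩ : ∃ H, IsOpen H ∧ u.1 ∈ H ∧ H ⊆ G' ∧
      ∀ n, ∀ α ∈ HT.Ac Z (H ∪ L ⁻¹' H) n, ∃ β ∈ HT.Ac Z (Z ∩ G') n, ∃ γ ∈ HT.Ac Z (Z ∩ G') n,
        α = β + Om.pull L h.mZ n γ ∧ (Om.d Z n α = 0 → Om.d Z n β = 0 ∧ Om.d Z n γ = 0) := by
    by_cases hf : L u.1 = u.1
    · refine ⟨G' ∩ L ⁻¹' G', hG'.inter (hG'.preimage L.continuous),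
        ⟨huG', by rw [mem_preimage, hf]; exact huG'⟩, inter_subset_left, fun n α hα =>
          ⟨α, ?_, 0, zero_mem _, by rw [map_zero, add_zero], fun h0 => ⟨h0, map_zero _⟩⟩⟩
      have h4 := ac_split h.geo.compact hG' hG' (HT.Ac.mono Z (by
        rintro y (hy | hy)
        · exact Or.inl hy.1
        · exact Or.inl (h.inv y ▸ hy.2)) hα)
      rwa [sup_idem] at h4
    · obtain ⟨H, hH, huH, h3⟩ := wander hf
      refine ⟨G' ∩ H, hG'.inter hH, ⟨huG', huH⟩, inter_subset_left, fun n α hα => ?_⟩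
      obtain ⟨β, hβ, γ, hγ, rfl⟩ := Submodule.mem_sup.1 (ac_split h.geo.compact (hG'.inter hH)
        ((hG'.inter hH).preimage L.continuous) hα)
      refine ⟨β, HT.Ac.mono Z (inter_subset_inter_right _ inter_subset_left) hβ, _,
        HT.Ac.pull_mem L h.inv h.mZ (U' := Z ∩ G') (fun y hy => ⟨h.mZ hy.1, hy.2.1⟩) hγ,
        by rw [pull_pull h.inv], fun h0 => ?_⟩
      rw [map_add] at h0
      have h4 := ac_inf Z _ _ ⟨HT.Ac.d_mem hβ,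
        eq_neg_of_add_eq_zero_left h0 ▸ neg_mem (HT.Ac.d_mem hγ)⟩
      rw [show Z ∩ (G' ∩ H) ∩ (Z ∩ L ⁻¹' (G' ∩ H)) = ∅ from eq_empty_of_forall_notMem
        fun y hy => h3 y hy.1.2.2 hy.2.2.2, ac_empty] at h4
      have h5 : Om.d Z n β = 0 := h4
      rw [h5, zero_add] at h0
      exact ⟨h5, by rw [Om.d_pull, h0, map_zero]⟩
  let W : Opens Y := ⟨π '' (Subtype.val ⁻¹' H),
    h.isOpenMap _ (hH.preimage continuous_subtype_val)⟩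
  have hW : PW.up π W ⊆ H ∪ L ⁻¹' H := by
    rintro _ ⟨v, ⟨w, hw, hwv⟩, rfl⟩
    rcases (h.fib v w).1 hwv.symm with e | e
    · exact Or.inl (e ▸ hw)
    · exact Or.inr (by rw [mem_preimage, ← e]; exact hw)
  refine ⟨W, ?_, ⟨u, huH, rfl⟩, fun n hn α hα hd => ?_, fun α hα hd => ?_⟩
  · rintro _ ⟨v, hv, rfl⟩
    have h3 : v.1 ∈ PW.up π V := e ▸ (⟨v.2.1, hsub (hHG hv)⟩ : v.1 ∈ Z ∩ G)
    obtain ⟨w, hw, hwv⟩ := h3
    obtain rfl := Subtype.ext hwv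
    exact hw
  · obtain ⟨β, hβ, γ, hγ, rfl, h4⟩ := h3 n α (HT.Ac.mono Z hW hα)
    exact add_mem (h1 n hn β hβ (h4 hd).1) (h.bd_pull V γ (h1 n hn γ hγ (h4 hd).2))
  · obtain ⟨β, hβ, γ, hγ, rfl, -⟩ := h3 _ α (HT.Ac.mono Z hW hα)
    rw [map_add, hi, ← map_add] at hd
    rw [map_add, av_pull, ← map_add]
    exact h.av_mem (h.bd_pull V) _ (h2 _ (add_mem hβ hγ) hd)

end Sym

end Pool.Agent.Cq
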