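import Pool.Agent.P.MP_65ad7c_ag.CqC

/-! A model exists for the quotient by an involution with finitely many fixed points. -/

open Set CategoryTheory TopologicalSpace Opposite Topology Pool.Agent.PQ Pool.Agent.QN
open Pool.Agent.HT (SF Om Geo)

noncomputable section
namespace Pool.Agent.Cq

variable {Y : Type} [TopologicalSpace Y] {N d n : ℕ} {ι : Type} {Z : Set (Amb N)}
  {D : ι → Set (Amb N)} {π : C(↥(Z \ ⋃ a, D a), Y)} {L : Amb N →L[ℝ] Amb N}

/-- the stratification by an open set and finitely many points -/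
def two (O : Opens Y) (d : ℕ) : ℕ → Opens Y
  | 0 => ⊥
  | c + 1 => if c < d then O else ⊤

theorem two_lt {O : Opens Y} {c : ℕ} (h : c < d) : two O d (c + 1) = O := if_pos h

theorem two_ge {O : Opens Y} {c : ℕ} (h : ¬c < d) : two O d (c + 1) = ⊤ := if_neg h

theorem ic_two {I : PCx Y} {O : Opens Y} (hd : 0 < d) (one : Sec I 0 ⊤)
    (ch : ∀ x ∈ O, ∃ (W : Opens Y) (φ : W → Fin d → ℂ), x ∈ W ∧ W ≤ O ∧ IsOpenEmbedding φ)
    (iso : ∀ x ∉ O, ∃ W : Opens Y, x ∈ W ∧ ∀ y ∈ W, y ≠ x → y ∈ O)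
    (inj : ∀ n, ∃ h : (Tm I n).IsSheaf,
      Injective (⟨Tm I n, h⟩ : TopCat.Sheaf (ModuleCat.{0} ℂ) (TopCat.of Y)))
    (vb : ∀ n V (c : Sec I n V), Van ⊥ c) (hc : Cyc ⊥ one)
    (ne : ∀ V : Opens Y, V ≠ ⊥ → rs (le_top : V ≤ ⊤) one ≠ 0)
    (gen : ∀ V : Opens Y, ∀ x ∈ V, ∀ c : Sec I 0 V, Cyc ⊥ c →
      ∃ a : ℂ, LocBd ⊥ x (c - a • rs le_top one))
    (su : ∀ x n, 0 < n → ExactAt I ⊥ x n) (co : ∀ x ∉ O, ∀ n ≤ d, ExactAt I O x n) :
    IsIC d (two O d) I (rs le_top one) := by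
  have hs : ∀ c x, x ∈ (two O d (c + 1 + 1) \ two O d (c + 1) : Set Y) →
      c + 1 = d ∧ x ∉ O := fun c x hx => by
    by_cases h1 : c < d
    · rw [two_lt h1] at hx
      refine ⟨by_contra fun h2 => hx.2 ?_, hx.2⟩
      have h3 := hx.1
      rwa [two_lt (by omega)] at h3
    · rw [two_ge h1] at hx
      exact (hx.2 trivial).elim
  refine ⟨monotone_nat_of_le_succ fun c => ?_, rfl, two_ge (lt_irrefl d), fun c x hx => ?_, inj,
    ⟨by rw [← rs_dv, hc.cyc, rs_zero], vb _ _ _⟩, fun V h hV => ?_, fun V h x hx c hc => ?_,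
    fun _ x _ n hn _ => su x n hn, fun c hc x _ n hn => ?_, fun c n => ?_⟩
  · rcases c with _ | c
    · exact bot_le
    · by_cases h1 : c + 1 < d
      · rw [two_lt h1, two_lt (by omega)]
      · rw [two_ge h1]
        exact le_top
  · rcases c with _ | c
    · have e0 : two O d (0 + 1) = O := two_lt hd
      obtain ⟨W, φ, hW, h1, hφ⟩ := ch x (e0 ▸ hx.1)
      have e : ((W : Set Y) ∩ ((two O d (0 + 1) : Opens Y) \ (two O d 0 : Opens Y))) = W :=
        inter_eq_left.2 fun y hy => ⟨e0.symm ▸ h1 hy, id⟩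
      exact ⟨W, φ ∘ Homeomorph.setCongr e, hW, hφ.comp (Homeomorph.setCongr e).isOpenEmbedding⟩
    · obtain ⟨h1, h2⟩ := hs c x hx
      obtain ⟨W, hW, h3⟩ := iso x h2
      have : IsEmpty (Fin (d - (c + 1))) := ⟨fun k => by have := k.2; omega⟩
      have h4 : ∀ y : ↥((W : Set Y) ∩ (two O d (c + 1 + 1) \ two O d (c + 1))), y.1 = x :=
        fun y => by_contra fun e => (hs c _ y.2.2).2 (h3 _ y.2.1 e)
      exact ⟨W, fun _ => 0, hW, .of_continuous_injective_isOpenMap continuous_const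
        (fun y y' _ => Subtype.ext ((h4 y).trans (h4 y').symm)) fun _ _ => isOpen_discrete _⟩
  · rw [rs_rs_QNm]
    exact ne V hV
  · rw [rs_rs_QNm]
    exact gen V x hx c hc
  · obtain ⟨c, rfl⟩ := Nat.exists_eq_add_one.2 hc
    by_cases h1 : c < d
    · rw [two_lt h1]
      by_cases h2 : x ∈ O
      · exact exact_mem h2
      · exact co x h2 n (by omega)
    · rw [two_ge h1]
      exact exact_top _ x n
  · rcases c with _ | c
    swap
    · by_cases h1 : c < d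
      · refine lc_pt (fun n => (inj n).1) (fun x hx => ?_) fun y hy => hy.2
        rw [two_lt h1]
        exact iso x (hs c x hx).2
      · exact lc_empty fun x hx => h1 (by have := (hs c x hx).1; omega)
    refine ⟨fun x _ => ?_⟩
    rcases n with _ | n
    · refine ⟨⊤, Submodule.span ℂ {one}, trivial, fun b hb => ?_, fun y _ _ => ⟨fun b hb hy => ?_,
        fun V hV c hy hc => ?_⟩⟩
      · obtain ⟨a, rfl⟩ := Submodule.mem_span_singleton.1 hb
        exact ⟨by rw [dv_smul, hc.cyc, smul_zero], vb _ _ _⟩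
      · obtain ⟨a, rfl⟩ := Submodule.mem_span_singleton.1 hb
        obtain ⟨W, hW, b, hy, -, e⟩ := hy.bd
        rcases smul_eq_zero.1 ((rs_smul hW a one).symm.trans (e.symm.trans (dv_zero_QNm b)))
          with h0 | h0
        · rw [h0, zero_smul]
        · exact (ne W (fun hb => by rw [hb] at hy; exact hy) h0).elim
      · obtain ⟨a, ha⟩ := gen V y hy c hc
        exact ⟨a • one, Submodule.mem_span_singleton.2 ⟨a, rfl⟩, by rwa [rs_smul]⟩
    · refine ⟨⊤, ⊥, trivial, fun b hb => ?_, fun y _ _ => ⟨fun b hb _ => hb,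
        fun V hV c hy hc => ⟨0, zero_mem _, ?_⟩⟩⟩
      · rw [show b = 0 from hb]
        exact ⟨dv_zero, vb _ _ _⟩
      · rw [rs_zero, sub_zero]
        exact (su y _ n.succ_pos).ex V hy c hc

theorem Sym.closed (h : Sym d π L) {F : Set ↥(Z \ ⋃ a, D a)} (hF : F.Finite)
    (h1 : ∀ u ∈ F, L u.1 = u.1) : IsOpen (π '' F)ᶜ ∧ ∀ u, π u ∈ π '' F → u ∈ F := by
  have h2 : ∀ u, π u ∈ π '' F → u ∈ F := by
    rintro u ⟨v, hv, e⟩
    have h3 : u.1 = v.1 := ((h.fib v u).1 e).elim id fun e => e.trans (h1 v hv)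
    exact (Subtype.ext h3 : u = v) ▸ hv
  refine ⟨isOpen_compl_iff.2 (h.quot.isClosed_preimage.1 ?_), h2⟩
  rw [show π ⁻¹' (π '' F) = F from (subset_preimage_image π F).antisymm' h2]
  exact hF.isClosed

theorem Sym.chart [Finite ι] (h : Sym d π L) {u : ↥(Z \ ⋃ a, D a)} (hu : L u.1 ≠ u.1) :
    ∃ (W : Opens Y) (φ : W → Fin d → ℂ), π u ∈ W ∧ (∀ y ∈ W, ∃ v, π v = y ∧ L v.1 ≠ v.1) ∧
      IsOpenEmbedding φ := by
  obtain ⟨W, φ, hW, hφ⟩ := y_chart (π := ContinuousMap.id _) h.geo IsHomeomorph.id u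
  obtain ⟨H, hH, huH, h1⟩ := Sym.wander hu
  let S : Set W := {v | v.1.1 ∈ H}
  have hS : IsOpen S := hH.preimage (continuous_subtype_val.comp continuous_subtype_val)
  have hj : IsOpenEmbedding fun v : S => π v.1.1 := by
    have h2 := W.2.isOpenEmbedding_subtypeVal.comp hS.isOpenEmbedding_subtypeVal
    refine .of_continuous_injective_isOpenMap (π.continuous.comp h2.continuous)
      (fun v w e => ?_) (h.isOpenMap.comp h2.isOpenMap)
    rcases (h.fib _ _).1 e with e | e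
    · exact (Subtype.ext (Subtype.ext (Subtype.ext e))).symm
    · exact (h1 _ v.2 (e ▸ w.2)).elim
  refine ⟨⟨_, hj.isOpen_range⟩, (φ ∘ Subtype.val) ∘ hj.isEmbedding.toHomeomorph.symm,
    ⟨⟨⟨u, hW⟩, huH⟩, rfl⟩, ?_, (hφ.comp hS.isOpenEmbedding_subtypeVal).comp
      hj.isEmbedding.toHomeomorph.symm.isOpenEmbedding⟩
  rintro _ ⟨v, rfl⟩
  exact ⟨_, rfl, fun e => h1 _ v.2 (e.symm ▸ v.2)⟩

theorem Sym.av_conj (h : Sym d π L) (α : Om Z n) :
    Om.conj Z n (h.av n α) = h.av n (Om.conj Z n α) := by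
  rw [h.av_ap, h.av_ap, map_smulₛₗ, map_add, HT.Om.conj_pull, map_div₀, map_one, map_ofNat]

theorem ann_tr [Finite ι] (h : IsSNC d Z D) {T : ∀ q, Om Z q →ₗ[ℂ] Om Z q}
    {hT : ∀ V q, ∀ α ∈ HT.Ac Z (PW.up π V) q, T q α ∈ HT.Ac Z (PW.up π V) q}
    (hd : ∀ q α, Om.d Z q (T q α) = T (q + 1) (Om.d Z q α)) {e : PW.Kx d π ⟶ PW.Kx d π}
    (he : ∀ j V (l : Sec (PW.Kx d π) j V) q hq α,
      kv π (mp e l) q hq α = kv π l q hq ⟨T q α.1, hT V q α.1 α.2⟩) {j : ℕ}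
    {S : ∀ q, Form N q → Prop} {S' : ∀ q, Set (Om Z q)}
    (hS : ∀ q (α : SF (Amb N) q), S q α.1 ↔ cl Z α ∈ S' q) (h1 : ∀ q, ∀ α ∈ S' q, T q α ∈ S' q) :
    MapsTo (mp e) ((kres π h).ann j S) ((kres π h).ann j S) := by
  have key : ∀ (l : Sec (PW.Kx d π) j ⊤) q x, (kres π h).thL j ⊤ l q x = kv π l q.1 q.2 x :=
    fun l q x => (kev_cl_QNk q.2 l (rep x.1) ((cl_rep x.1).symm ▸ x.2)).trans
      (congrArg _ (Subtype.ext (cl_rep _)))
  intro l hl
  refine ((kres π h).ann_iff hS _).2 fun q x h2 h3 => ?_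
  refine (key _ q x).trans ((he j ⊤ l q.1 q.2 x).trans ((key l q _).symm.trans ?_))
  exact ((kres π h).ann_iff hS l).1 hl q _
    ((hd q.1 x.1).trans ((congrArg (T _) h2).trans (map_zero _))) (h1 _ _ h3)

theorem model_quow (S : Y → Y → Prop) [Finite ι] (hd : 0 < d) (h : IsSNC d Z D)
    (A : (Fin N → ℂ) →L[ℂ] Fin N → ℂ) (hA : ∀ v, A (A v) = v) (hL : ∀ x, L (L x) = x)
    (hp : ∀ v, proj (A v) = L (proj v)) (mZ : MapsTo L Z Z) (mD : ∀ a, ∃ b, MapsTo L (D a) (D b))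
    (hπ : IsQuotientMap π) (fib : ∀ u v, π u = π v ↔ v.1 = u.1 ∨ v.1 = L u.1)
    (hF : {u : ↥(Z \ ⋃ a, D a) | L u.1 = u.1}.Finite) (cjZ : MapsTo cj Z Z)
    (cjD : ∀ a, ∃ b, MapsTo cj (D a) (D b)) (cjπ : ∀ u u', u'.1 = cj u.1 → S (π u) (π u')) :
    ∃ M : Model S, (M.R.N = N ∧ M.R.d = d ∧ M.R.ι = ι ∧ HEq M.R.Z Z ∧ HEq M.R.D D ∧
      HEq M.R.π π ∧ (M.U d : Set Y) = (π '' {u | L u.1 = u.1})ᶜ) ∧
      ∀ j m q, q + (j + 1) = 2 * d → ∀ α : SF (Amb N) q, cl Z α ∈ HT.Ac Z (Z \ ⋃ a, D a) q →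
        SF.d q α = 0 → SF.pull L q α = α → Col Z D (m + 1 - (j + 1)) α.1 →
        ¬Col Z D (m + 1 + 1 - (j + 1)) α.1 → M.W (j + 1) (m + 1) ≠ M.W (j + 1) m := by
  have hs : Sym d π L := ⟨h.ht.geo', hL, mZ, mD, hπ, fib⟩
  have hg := hs.geo
  obtain ⟨b, hb⟩ := exists_fr d
  obtain ⟨lam, hl, hi⟩ := exists_lam_inv hg hL hA hp mZ b
  have hav : ∀ α, lam (hs.av _ α) = lam α := fun α => by
    rw [hs.av_ap, map_smul, map_add, hi, smul_eq_mul]
    ring
  obtain ⟨one, h1⟩ := exists_kv (π := π) (d := d) (j := 0) (V := ⊤) (2 * d) rfl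
    (lam.domRestrict _)
  have h1' : ∀ α, kv π one (2 * d) rfl α = lam α.1 := fun α => by rw [h1]; rfl
  obtain ⟨e, he⟩ := exists_tr (d := d) (π := π) hs.av hs.av_ac hs.av_d
  obtain ⟨I, i, p, hip, rfl⟩ := split_idem e (HomologicalComplex.hom_ext _ _ fun j =>
    NatTrans.ext (funext fun V => ModuleCat.hom_ext (LinearMap.ext fun l =>
      kv_ext (V := V.unop) fun q hq α => (he j _ (mp e l) q hq α).trans
        ((he j _ l q hq _).trans ((congrArg _ (Subtype.ext (hs.av_av α.1))).trans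
          (he j _ l q hq α).symm)))))
  have hone : mp i (mp p one) = one := kv_ext fun q hq α => by
    obtain rfl : q = 2 * d := hq
    exact (he 0 ⊤ one _ rfl α).trans ((h1' _).trans ((hav _).trans (h1' α).symm))
  obtain ⟨hO, hO'⟩ := hs.closed hF fun _ => id
  let O : Opens Y := ⟨_, hO⟩
  have iso : ∀ u, π u ∉ O → ∃ W : Opens Y, π u ∈ W ∧ ∀ v, π v ∈ W → v ≠ u → π v ∈ O := by
    intro u hu
    obtain ⟨h2, h3⟩ := hs.closed (hF.sdiff (t := {u})) fun _ hv => hv.1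
    exact ⟨⟨_, h2⟩, fun h4 => (h3 u h4).2 rfl, fun v hv e h4 => hv ⟨v, ⟨hO' v h4, e⟩, rfl⟩⟩
  have hic : IsIC d (two O d) I (rs le_top (mp p one)) := by
    refine ic_two hd _ (fun x hx => ?_) (fun x hx => ?_) (fun n => ?_)
      (fun n V c => mp_pi hip c ▸ van_mp p (van_bot _)) (cyc_mp p (one_closed hg hl h1'))
      (fun V hV h0 => ?_) (fun V x hx c hc => ?_)
      (fun x n hn => exact_retract hip (exact_of (fun V hV => ?_) hn)) fun x hx n hn => ?_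
    · obtain ⟨u, rfl⟩ := hπ.surjective x
      obtain ⟨W, φ, h2, h3, h4⟩ := hs.chart (u := u) fun e => hx ⟨u, e, rfl⟩
      refine ⟨W, φ, h2, fun y hy h5 => ?_, h4⟩
      obtain ⟨v, rfl, h6⟩ := h3 y hy
      exact h6 (hO' v h5)
    · obtain ⟨u, rfl⟩ := hπ.surjective x
      obtain ⟨W, h2, h3⟩ := iso u hx
      refine ⟨W, h2, fun y hy e => ?_⟩
      obtain ⟨v, rfl⟩ := hπ.surjective y
      exact h3 v hy fun e' => e (congrArg π e')
    · exact inj_retract hip (kx_inj hg π d n).1 fun V W hle c =>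
        dualX_flabby (2 * d) (fun V q => HT.Ac Z (PW.up π V) q) (fun _ _ => PW.ac_mono π) n V W hle c
    · obtain ⟨x, hx⟩ : (V : Set Y).Nonempty := (Opens.ne_bot_iff_nonempty V).1 hV
      obtain ⟨z, rfl⟩ := hπ.surjective x
      obtain ⟨W, hW, e⟩ := up_open hg π V
      have hz : z.1 ∈ Z ∩ W := e ▸ ⟨z, hx, rfl⟩
      obtain ⟨α, hα, hne⟩ := hl.ne hg hz.1 hW hz.2
      rw [← e] at hα
      have h2 := kv_rs (le_top : V ≤ ⊤) one (2 * d) rfl ⟨α, hα⟩
      rw [← hone, rs_mp, h0, mp_zero, hone, h1'] at h2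
      exact hne h2.symm
    · obtain ⟨W, hW, hxW, -, h2⟩ := hs.loc hl hi hx
      have h3 : mp (p ≫ i) (mp i c) = mp i c := congrArg (mp i) (mp_pi hip c)
      obtain ⟨a, ha⟩ := smul_QNl2 (kv π (rs hW (mp i c)) (2 * d) rfl)
        (lam.comp (HT.Ac Z (PW.up π W) (2 * d)).subtype) fun α hα => by
          rw [kv_rs, ← h3, he]
          exact kv_bd (cyc_mp i hc).cyc _ _ _ (h2 α.1 α.2 hα)
      have h4 : rs hW (mp i c - a • rs le_top one) = 0 := kv_ext fun q hq α => by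
        obtain rfl : q = 2 * d := hq
        have h4 := ha α
        rw [kv_rs] at h4
        rw [kv_rs, kv_sub, kv_smul, LinearMap.sub_apply, LinearMap.smul_apply, kv_rs, h1', h4]
        exact sub_self _
      refine ⟨a, W, hW, 0, hxW, rs_zero _, dv_zero.trans ?_⟩
      rw [← mp_pi hip c, rs_mp p le_top, ← mp_smul, ← mp_sub, rs_mp, h4, mp_zero]
    · obtain ⟨W, h2, h3, h4, -⟩ := hs.loc hl hi hV
      exact ⟨W, h2, h3, h4⟩
    · obtain ⟨u, rfl⟩ := hπ.surjective x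
      obtain ⟨W, h2, h3⟩ := iso u hx
      exact exact_retract hip (exact_pt hg h2 hx h3 (by omega))
  have e : (fun (i : Fin (2 * d)) (k : Fin d) =>
      if (k : ℕ) = i / 2 then Complex.I ^ ((i : ℕ) % 2) else 0) = fr d := by
    funext i k
    rw [fr, Pi.single_apply]
    simp only [Fin.ext_iff]
  have hint : IsInt d Z (PW.up π (two O d 1))
      (kev d π (2 * d) (mp i (rs (le_top : two O d 1 ≤ ⊤) (mp p one)))) := ⟨fun O f hf α h2 h3 => by
    rw [e, ← hb, ← rs_mp, hone]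
    exact (kev_cl_QNk rfl _ ⟨α, h2.1⟩ ((ac_iff ⟨α, h2.1⟩).2 h2)).trans ((kv_rs _ _ _ _ _).trans
      ((h1' _).trans (hl O f (chart_iff.1 hf) ⟨α, h2.1⟩ ((ac_iff ⟨α, h2.1⟩).2 h3))))⟩
  refine ⟨⟨kres π h, two O d, I, _, hic, cjZ, cjD, cjπ, i, p, ⟨Homotopy.ofEq hip⟩, hint,
    fun j m => ann_tr h hs.av_d he (fun _ α => col_iff _ _ _ α) fun q =>
      hs.av_mem fun _ => HT.col_pull L mZ mD,
    fun j a => ann_tr h hs.av_d he (fun _ α => fil_iff _ _ _ α) fun q =>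
      hs.av_mem fun _ => fil_pull hL hA hp mZ mD,
    fun j a => ann_tr h hs.av_d he (fun _ α => fil_bar_iff _ _ _ α) ?_⟩,
    ⟨rfl, rfl, rfl, HEq.rfl, HEq.rfl, HEq.rfl, ?_⟩, fun j m q hq α a1 a2 a3 a4 a5 e0 => ?_⟩
  · rintro q _ ⟨α, hα, rfl⟩
    exact ⟨_, hs.av_mem (fun _ => fil_pull hL hA hp mZ mD) α hα, hs.av_conj α⟩
  · obtain ⟨c, rfl⟩ := Nat.exists_eq_add_one.2 hd
    exact congrArg SetLike.coe (two_lt (O := O) c.lt_succ_self)
  · rw [← show PW.up π ⊤ = Z \ ⋃ a, D a from Subtype.coe_image_univ _] at a1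
    have key : ∀ (l : Sec (PW.Kx d π) (j + 1) ⊤) q x,
        (kres π h).thL (j + 1) ⊤ l q x = kv π l q.1 q.2 x :=
      fun l q x => (kev_cl_QNk q.2 l (rep x.1) ((cl_rep x.1).symm ▸ x.2)).trans
        (congrArg _ (Subtype.ext (cl_rep _)))
    obtain ⟨φ, n0, hφ⟩ := (HT.col Z D (m + 1 + 1 - (j + 1)) q).exists_dual_map_eq_bot_of_notMem
      (fun h1 => a5 ((col_iff Z D _ α).2 h1)) inferInstance
    obtain ⟨l, hl'⟩ := exists_kv (π := π) (d := d) (j := j + 1) (V := ⊤) q hq (φ.domRestrict _)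
    have av : hs.av q (cl Z α) = cl Z α := by
      rw [hs.av_ap, HT.Om.pull_mk, a3, ← two_smul ℂ, smul_smul]
      norm_num
    have d0 : Om.d Z q (cl Z α) = 0 := by
      rw [HT.Om.d_mk, a2]
      rfl
    have m1 : l ∈ (kres π h).Wt (j + 1) (m + 1) :=
      ((kres π h).ann_iff (fun _ α => col_iff _ _ _ α) l).2 fun q' x _ h3 => by
        obtain ⟨q', hq'⟩ := q'
        obtain rfl : q' = q := by
          have : q' + (j + 1) = 2 * d := hq'
          omega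
        rw [key, hl']
        exact hφ.le (Submodule.mem_map_of_mem h3)
    obtain ⟨l', m2, c, e1⟩ := e0.subset ⟨l, m1, 0, (add_zero _).symm.trans
      (congrArg _ dv_zero.symm)⟩
    have e2 : mp (p ≫ i) l = mp (p ≫ i) l' + dv (j + 1) (mp i c) :=
      (congrArg (mp i) e1).trans ((map_add (ModuleCat.Hom.hom _) _ _).trans
        (congrArg _ (dv_mp i c).symm))
    have e3 := congrArg (fun l => kv π l q hq ⟨_, a1⟩) e2
    have e4 : ∀ l, kv π (mp (p ≫ i) l) q hq ⟨_, a1⟩ = kv π l q hq ⟨_, a1⟩ := fun l =>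
      (he _ _ l q hq _).trans (congrArg _ (Subtype.ext av))
    have e5 : kv π l' q hq ⟨_, a1⟩ = 0 := (key l' ⟨q, hq⟩ _).symm.trans
      (((kres π h).ann_iff (fun _ α => col_iff _ _ _ α) l').1 m2 ⟨q, hq⟩ ⟨_, a1⟩ d0
        ((col_iff Z D _ α).1 a4))
    have e6 : kv π (dv (j + 1) (mp i c)) q hq ⟨_, a1⟩ = 0 :=
      (kv_dv _ q hq _).trans ((congrArg _ (Subtype.ext d0)).trans (map_zero _))
    refine n0 ?_
    have e7 : kv π (mp (p ≫ i) l) q hq ⟨_, a1⟩ = kv π (mp (p ≫ i) l') q hq ⟨_, a1⟩ +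
      kv π (dv (j + 1) (mp i c)) q hq ⟨_, a1⟩ := e3
    rw [e4, e4, e5, e6, hl', add_zero] at e7
    exact e7

end Pool.Agent.Cq
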