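import Pool.Agent.P.MP_65ad7c_ag.QDefs

/-! The Betti moduli space of an abelian group with values in `SL_2`. -/

open Set Pool.Agent.PQ Matrix
open scoped ComplexConjugate

noncomputable section
namespace Pool.Agent.Cq

section gen
variable {r : ℕ} {Γ : Type} [Group Γ] {G : Subgroup (GL (Fin r) ℂ)}

theorem mat_one (ρ : Rep Γ G) : mat ρ 1 = 1 :=
  congrArg (fun g : G => g.1.1) (map_one (show Γ →* G from ρ))

theorem mat_mul (ρ : Rep Γ G) (γ δ : Γ) : mat ρ (γ * δ) = mat ρ γ * mat ρ δ :=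
  congrArg (fun g : G => g.1.1) (map_mul (show Γ →* G from ρ) γ δ)

theorem fn_mem {X : Type} (R : X → Rep Γ G) (B : Subalgebra ℂ (X → ℂ))
    (hB : ∀ γ i j, (fun x => mat (R x) γ i j) ∈ B) (f : Fn Γ G) : (fun x => f.1 (R x)) ∈ B := by
  have h : f.1 ∈ Algebra.adjoin ℂ {e : Rep Γ G → ℂ | ∃ γ i j, e = fun ρ => mat ρ γ i j} :=
    Algebra.adjoin_le (fun _ hf => hf.1) f.2
  generalize f.1 = g at h
  induction h using Algebra.adjoin_induction with
  | mem _ h =>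
    obtain ⟨γ, i, j, rfl⟩ := h
    exact hB γ i j
  | algebraMap c => exact B.algebraMap_mem c
  | add _ _ _ _ h h' => exact add_mem h h'
  | mul _ _ _ _ h h' => exact mul_mem h h'

theorem fn_inv (f : Fn Γ G) {g : GL (Fin r) ℂ} (hg : g ∈ G) {ρ ρ' : Rep Γ G}
    (h : ∀ γ, mat ρ' γ * g.1 = g.1 * mat ρ γ) : f.1 ρ' = f.1 ρ := by
  obtain ⟨f, hf⟩ := f
  induction hf using Algebra.adjoin_induction with
  | mem _ h1 => exact h1.2 g hg ρ ρ' h
  | algebraMap c => rfl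
  | add _ _ _ _ h1 h2 => exact congrArg₂ (· + ·) h1 h2
  | mul _ _ _ _ h1 h2 => exact congrArg₂ (· * ·) h1 h2

variable (G) in
/-- the trace function -/
def tra (γ : Γ) : Fn Γ G :=
  ⟨fun ρ => (mat ρ γ).trace, Algebra.subset_adjoin ⟨by
    have e : (fun ρ : Rep Γ G => (mat ρ γ).trace) = ∑ i, fun ρ => mat ρ γ i i := by
      funext ρ
      simp [Matrix.trace]
    rw [e]
    exact sum_mem fun i _ => Algebra.subset_adjoin ⟨γ, i, i, rfl⟩, fun g _ ρ ρ' h => by
      beta_reduce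
      rw [← Matrix.trace_units_conj g (mat ρ γ), ← h γ, Units.mul_inv_cancel_right]⟩⟩

/-- evaluation at a representation -/
def eva (ρ : Rep Γ G) : Fn Γ G →ₐ[ℂ] ℂ := (Pi.evalAlgHom ℂ _ ρ).comp (Inv Γ G).val

end gen

theorem dalembert {A : Type} [AddCommGroup A] (t : A → ℂ) (h0 : t 0 = 2)
    (h : ∀ x y, t x * t y = t (x + y) + t (x - y)) :
    ∃ c : A → ℂ, c 0 = 1 ∧ (∀ x y, c (x + y) = c x * c y) ∧ ∀ x, t x = c x + c (-x) := by
  have ev : ∀ x, t (-x) = t x := fun x => by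
    have := h 0 x
    rw [h0, zero_add, zero_sub] at this
    linear_combination -this
  by_cases h1 : ∃ a, t a ^ 2 ≠ 4
  · obtain ⟨a, ha⟩ := h1
    obtain ⟨w, hw⟩ := IsAlgClosed.exists_eq_mul_self (t a ^ 2 - 4)
    have w0 : w ≠ 0 := fun e => ha (by rw [e] at hw; linear_combination hw)
    refine ⟨fun x => (t x + (t (x + a) - t (x - a)) / w) / 2, ?_, fun x y => ?_, fun x => ?_⟩
    · simp [h0, ev]
    · have e1 := h x y
      have e2 := h (x + a) y
      have e3 := h (x - a) y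
      have e4 := h x (y + a)
      have e5 := h x (y - a)
      have e6 := h (x + a) (y + a)
      have e7 := h (x + a) (y - a)
      have e8 := h (x - a) (y + a)
      have e9 := h (x - a) (y - a)
      have f1 := h (x + y) (a + a)
      have f2 := h (x - y) (a + a)
      have f3 := h a a
      rw [sub_self, h0] at f3
      rw [show x + a + y = x + y + a by abel, show x + a - y = x - y + a by abel] at e2
      rw [show x - a + y = x + y - a by abel, show x - a - y = x - y - a by abel] at e3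
      rw [show x + (y + a) = x + y + a by abel, show x - (y + a) = x - y - a by abel] at e4
      rw [show x + (y - a) = x + y - a by abel, show x - (y - a) = x - y + a by abel] at e5
      rw [show x + a + (y + a) = x + y + (a + a) by abel,
        show x + a - (y + a) = x - y by abel] at e6
      rw [show x + a + (y - a) = x + y by abel,
        show x + a - (y - a) = x - y + (a + a) by abel] at e7
      rw [show x - a + (y + a) = x + y by abel,
        show x - a - (y + a) = x - y - (a + a) by abel] at e8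
      rw [show x - a + (y - a) = x + y - (a + a) by abel,
        show x - a - (y - a) = x - y by abel] at e9
      field_simp
      linear_combination (-w ^ 2) * e1 - w * (e2 - e3 + e4 - e5) - (e6 - e7 - e8 + e9) +
        (f1 - f2) + (t (x + y) - t (x - y)) * (f3 - hw)
    · beta_reduce
      rw [ev, show -x + a = -(x - a) by abel, show -x - a = -(x + a) by abel, ev, ev]
      ring
  · push Not at h1
    refine ⟨fun x => t x / 2, by simp [h0], fun x y => ?_, fun x => by simp only [ev]; ring⟩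
    have e1 := h x y
    have e2 : (t (x + y) - t (x - y)) ^ 2 = 0 := by
      linear_combination 2 * h1 (x + y) + 2 * h1 (x - y) - t y ^ 2 * h1 x - 4 * h1 y +
        (t x * t y + t (x + y) + t (x - y)) * e1
    have e3 := (pow_eq_zero_iff two_ne_zero).1 e2
    linear_combination (1 / 4 : ℂ) * e3 - (1 / 4 : ℂ) * e1

variable {Γ : Type} [CommGroup Γ] {G : Subgroup (GL (Fin 2) ℂ)}
  (hG : ∀ g, g ∈ G ↔ g.1.det = 1)

/-- the representation given by a matrix valued homomorphism -/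
def mkr (m : Γ →* Matrix (Fin 2) (Fin 2) ℂ) (h : ∀ γ, (m γ).det = 1) : Rep Γ G :=
  m.toHomUnits.codRestrict G fun γ => (hG _).2 (h γ)

/-- the diagonal representation -/
def dg (χ : Γ →* ℂ) : Rep Γ G :=
  mkr hG ⟨⟨fun γ => !![χ γ, 0; 0, χ γ⁻¹], by simp [Matrix.one_fin_two]⟩, fun γ δ => by
    simp [mul_comm]⟩ fun γ => by
      change det !![χ γ, 0; 0, χ γ⁻¹] = 1
      rw [det_fin_two_of, ← map_mul, mul_inv_cancel, map_one, mul_zero, sub_zero]

theorem mat_dg (χ : Γ →* ℂ) (γ : Γ) : mat (dg hG χ) γ = !![χ γ, 0; 0, χ γ⁻¹] := rfl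

theorem tra_dg (χ : Γ →* ℂ) (γ : Γ) : (tra G γ).1 (dg hG χ) = χ γ + χ γ⁻¹ :=
  Matrix.trace_fin_two_of _ _ _ _

theorem fn_weyl (f : Fn Γ G) {χ χ' : Γ →* ℂ} (h : ∀ γ, χ' γ = χ γ⁻¹) :
    f.1 (dg hG χ') = f.1 (dg hG χ) := by
  refine fn_inv f (g := ⟨!![0, 1; -1, 0], !![0, -1; 1, 0], by simp [Matrix.one_fin_two],
    by simp [Matrix.one_fin_two]⟩) ((hG _).2 (by simp)) fun γ => ?_
  simp [mat_dg, h]

theorem fn_tri (ρ : Rep Γ G) (h : ∀ γ, mat ρ γ 1 0 = 0) :
    ∃ χ, ∀ f : Fn Γ G, f.1 ρ = f.1 (dg hG χ) := by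
  have hd : ∀ γ, mat ρ γ 0 0 * mat ρ γ 1 1 = 1 := fun γ => by
    have h1 : (mat ρ γ).det = 1 := (hG _).1 ((show Γ →* G from ρ) γ).2
    rwa [det_fin_two, h, mul_zero, sub_zero] at h1
  have hm : ∀ γ δ i j, mat ρ (γ * δ) i j = mat ρ γ i 0 * mat ρ δ 0 j + mat ρ γ i 1 * mat ρ δ 1 j :=
    fun γ δ i j => by rw [mat_mul, Matrix.mul_apply, Fin.sum_univ_two]
  let R : ℂ → Rep Γ G := fun t => mkr hG
    ⟨⟨fun γ => !![mat ρ γ 0 0, t * t * mat ρ γ 0 1; 0, mat ρ γ 1 1], by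
      simp [mat_one, Matrix.one_fin_two]⟩, fun γ δ => by
        ext i j
        fin_cases i <;> fin_cases j <;> simp [hm, h]
        ring⟩ fun γ => by
          change det !![mat ρ γ 0 0, t * t * mat ρ γ 0 1; 0, mat ρ γ 1 1] = 1
          rw [det_fin_two_of, hd, mul_zero, sub_zero]
  have hR : ∀ t γ, mat (R t) γ = !![mat ρ γ 0 0, t * t * mat ρ γ 0 1; 0, mat ρ γ 1 1] :=
    fun _ _ => rfl
  let χ : Γ →* ℂ := ⟨⟨fun γ => mat ρ γ 0 0, by simp [mat_one]⟩, fun γ δ => by simp [hm, h]⟩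
  have e0 : R 0 = dg hG χ := MonoidHom.ext fun γ => Subtype.ext (Units.ext (by
    change mat (R 0) γ = mat (dg hG χ) γ
    rw [hR, mat_dg, map_inv χ, eq_inv_of_mul_eq_one_right (hd γ)]
    simp [χ]))
  refine ⟨χ, fun f => ?_⟩
  have hc : Continuous fun t => f.1 (R t) := fn_mem R continuousSubalgebra (fun γ i j => by
    change Continuous fun t => mat (R t) γ i j
    fin_cases i <;> fin_cases j <;> simp [hR] <;> fun_prop) f
  have h1 := hc.ext_on (dense_compl_singleton 0) (continuous_const (y := f.1 ρ)) fun s hs => by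
    have hs' : s ≠ 0 := hs
    refine fn_inv f (g := ⟨!![s, 0; 0, s⁻¹], !![s⁻¹, 0; 0, s],
      by simp [Matrix.one_fin_two, hs'], by simp [Matrix.one_fin_two, hs']⟩)
      ((hG _).2 (by simp [hs'])) fun γ => ?_
    rw [hR, eta_fin_two (mat ρ γ), h]
    simp [mul_comm]
    field_simp
  rw [← e0]
  exact (congrFun h1 0).symm

theorem fn_dg (ρ : Rep Γ G) : ∃ χ, ∀ f : Fn Γ G, f.1 ρ = f.1 (dg hG χ) := by
  by_cases h : ∀ γ, mat ρ γ 1 0 = 0
  · exact fn_tri hG ρ h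
  push Not at h
  obtain ⟨γ₀, h0⟩ := h
  obtain ⟨μ, hμ⟩ : ∃ μ : ℂ, μ * μ - (mat ρ γ₀ 0 0 - mat ρ γ₀ 1 1) * μ -
      mat ρ γ₀ 0 1 * mat ρ γ₀ 1 0 = 0 := by
    obtain ⟨w, hw⟩ := IsAlgClosed.exists_eq_mul_self
      ((mat ρ γ₀ 0 0 - mat ρ γ₀ 1 1) ^ 2 + 4 * (mat ρ γ₀ 0 1 * mat ρ γ₀ 1 0))
    exact ⟨(mat ρ γ₀ 0 0 - mat ρ γ₀ 1 1 + w) / 2, by linear_combination (-1 / 4 : ℂ) * hw⟩
  let g : GL (Fin 2) ℂ := ⟨!![0, (mat ρ γ₀ 1 0)⁻¹; -mat ρ γ₀ 1 0, μ],
    !![μ, -(mat ρ γ₀ 1 0)⁻¹; mat ρ γ₀ 1 0, 0],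
    by simp [Matrix.one_fin_two, h0, mul_comm], by simp [Matrix.one_fin_two, h0, mul_comm]⟩
  have hg : g ∈ G := (hG _).2 (by simp [g, h0])
  let ρ' : Rep Γ G := (MulAut.conj (⟨g, hg⟩ : G)).toMonoidHom.comp ρ
  have h1 : ∀ γ, mat ρ' γ = g.1 * mat ρ γ * g.2 := fun _ => rfl
  obtain ⟨χ, hχ⟩ := fn_tri hG ρ' fun γ => by
    have h2 : mat ρ γ₀ * mat ρ γ = mat ρ γ * mat ρ γ₀ := by rw [← mat_mul, ← mat_mul, mul_comm]
    have h3 := congrFun (congrFun h2 0) 0
    have h4 := congrFun (congrFun h2 1) 0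
    simp only [Matrix.mul_apply, Fin.sum_univ_two] at h3 h4
    rw [h1]
    simp [g, Matrix.mul_apply, Fin.sum_univ_two, Matrix.vecMul, dotProduct]
    linear_combination mat ρ γ 1 0 * hμ - μ * h4 + mat ρ γ₀ 1 0 * h3
  refine ⟨χ, fun f => (fn_inv f hg fun γ => ?_).symm.trans (hχ f)⟩
  rw [h1, mul_assoc, g.inv_val, mul_one]

include hG in
theorem fn_ext {f g : Fn Γ G} (h : ∀ χ, f.1 (dg hG χ) = g.1 (dg hG χ)) : f = g :=
  Subtype.ext (funext fun ρ => by
    obtain ⟨χ, hχ⟩ := fn_dg hG ρ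
    rw [hχ, hχ, h])

include hG in
theorem fn_span (f : Fn Γ G) : f ∈ Submodule.span ℂ (range (tra G : Γ → Fn Γ G)) := by
  let ev : Γ →* (Γ →* ℂ) → ℂ := ⟨⟨fun γ χ => χ γ, funext fun χ => map_one χ⟩,
    fun γ δ => funext fun χ => map_mul χ γ δ⟩
  have h1 := fn_mem (dg hG) (Algebra.adjoin ℂ (range ev)) (fun γ i j => by
    fin_cases i <;> fin_cases j
    · exact Algebra.subset_adjoin ⟨γ, rfl⟩
    · exact zero_mem _
    · exact zero_mem _
    · exact Algebra.subset_adjoin ⟨γ⁻¹, rfl⟩) f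
  have h2 : (fun χ => f.1 (dg hG χ)) ∈ Submodule.span ℂ (range ev) := by
    rw [← Algebra.adjoin_eq_span_of_subset]
    · exact h1
    · rw [← MonoidHom.coe_mrange, Submonoid.closure_eq]
      exact Submodule.subset_span
  have h3 : ∀ F ∈ Submodule.span ℂ (range ev), ∃ g ∈ Submodule.span ℂ (range (tra G : Γ → Fn Γ G)),
      ∀ χ, g.1 (dg hG χ) = F χ + F (χ.comp invMonoidHom) := fun F hF => by
    induction hF using Submodule.span_induction with
    | mem _ h =>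
      obtain ⟨γ, rfl⟩ := h
      exact ⟨_, Submodule.subset_span ⟨γ, rfl⟩, fun χ => tra_dg hG χ γ⟩
    | zero => exact ⟨0, zero_mem _, fun _ => (add_zero _).symm⟩
    | add _ _ _ _ h h' =>
      obtain ⟨g, hg, e⟩ := h
      obtain ⟨g', hg', e'⟩ := h'
      exact ⟨g + g', add_mem hg hg', fun χ =>
        (congrArg₂ (· + ·) (e χ) (e' χ)).trans (add_add_add_comm _ _ _ _)⟩
    | smul a _ _ h =>
      obtain ⟨g, hg, e⟩ := h
      exact ⟨a • g, Submodule.smul_mem _ a hg, fun χ =>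
        (congrArg (a * ·) (e χ)).trans (mul_add _ _ _)⟩
  obtain ⟨g, hg, e⟩ := h3 _ h2
  rw [show f = (1 / 2 : ℂ) • g from fn_ext hG fun χ => by
    change _ = 1 / 2 * g.1 _
    rw [e, fn_weyl hG f (χ := χ) (χ' := χ.comp invMonoidHom) fun _ => rfl]
    ring]
  exact Submodule.smul_mem _ _ hg

theorem pt_eq (φ : Fn Γ G →ₐ[ℂ] ℂ) : ∃ χ, φ = eva (dg hG χ) := by
  obtain ⟨c, h0, h1, h2⟩ := dalembert (fun x : Additive Γ => φ (tra G x.toMul))
    (by
      rw [show tra G (Additive.toMul (0 : Additive Γ)) = algebraMap ℂ _ 2 from fn_ext hG fun χ => by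
        rw [tra_dg]
        simp [one_add_one_eq_two], AlgHom.commutes]
      rfl)
    fun x y => by
      rw [← map_mul, ← map_add]
      refine congrArg φ (fn_ext hG fun χ => ?_)
      change (tra G _).1 _ * (tra G _).1 _ = (tra G _).1 _ + (tra G _).1 _
      simp only [tra_dg, toMul_add, toMul_sub, div_eq_mul_inv, mul_inv, inv_inv, map_mul]
      ring
  let χ : Γ →* ℂ := ⟨⟨fun γ => c (Additive.ofMul γ), h0⟩, fun γ δ => h1 _ _⟩
  refine ⟨χ, AlgHom.toLinearMap_injective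
    (LinearMap.ext fun f => LinearMap.eqOn_span' ?_ (fn_span hG f))⟩
  rintro _ ⟨γ, rfl⟩
  exact (h2 (Additive.ofMul γ)).trans (tra_dg hG χ γ).symm

theorem eva_eq {χ χ' : Γ →* ℂ} (h : ∀ f : Fn Γ G, f.1 (dg hG χ') = f.1 (dg hG χ)) :
    (∀ γ, χ' γ = χ γ) ∨ ∀ γ, χ' γ = χ γ⁻¹ := by
  have n : ∀ (χ : Γ →* ℂ) γ, χ γ * χ γ⁻¹ = 1 := fun χ γ => by
    rw [← map_mul, mul_inv_cancel, map_one]
  have h1 : ∀ γ, χ' γ = χ γ ∨ χ' γ = χ γ⁻¹ := fun γ => by
    have h2 := h (tra G γ)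
    rw [tra_dg, tra_dg] at h2
    rw [← sub_eq_zero, ← sub_eq_zero (a := χ' γ) (b := χ γ⁻¹), ← mul_eq_zero]
    linear_combination χ' γ * h2 + n χ γ - n χ' γ
  by_contra h2
  push Not at h2
  obtain ⟨⟨a, ha⟩, b, hb⟩ := h2
  have ha' := (h1 a).resolve_left ha
  have hb' := (h1 b).resolve_right hb
  rcases h1 (a * b) with e | e
  · rw [map_mul, map_mul, hb'] at e
    exact ha (mul_right_cancel₀ (left_ne_zero_of_mul_eq_one (n χ b)) e)
  · rw [mul_inv, map_mul, map_mul, ha'] at e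
    exact hb (mul_left_cancel₀ (right_ne_zero_of_mul_eq_one (n χ a)) e)

end Pool.Agent.Cq
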