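import Pool.Agent.P.MP_65ad7c_ag.CqA

/-! The quadric surface with four lines: a compactification of the two-dimensional torus. -/

open Set Filter Topology Pool.Agent.PQ
open scoped ComplexConjugate

noncomputable section
namespace Pool.Agent.Cq

section gen
variable {N : ℕ}

theorem sum_ne {v : Fin N → ℂ} (h : v ≠ 0) : ∑ k, v k * conj (v k) ≠ 0 := by
  intro h0
  apply h
  have h1 : ∑ k, Complex.normSq (v k) = 0 := by
    have : ((∑ k, Complex.normSq (v k) : ℝ) : ℂ) = 0 := by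
      rw [← h0]; push_cast; simp [Complex.mul_conj]
    exact_mod_cast this
  funext k
  exact Complex.normSq_eq_zero.1
    ((Finset.sum_eq_zero_iff_of_nonneg fun i _ => Complex.normSq_nonneg (v i)).1 h1 k
      (Finset.mem_univ k))

theorem pr_ap (v : Fin N → ℂ) (a b : Fin N) :
    proj v (a, b) = v a * conj (v b) / ∑ k, v k * conj (v k) := rfl

theorem pr_smul {c : ℂ} (hc : c ≠ 0) (v : Fin N → ℂ) : proj (c • v) = proj v :=
  QN.proj_smul_QNg hc v

theorem pr_ratio {u : Fin N → ℂ} {i : Fin N} (hi : u i ≠ 0) (a : Fin N) :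
    proj u (a, i) / proj u (i, i) = u a / u i := by
  have hn := sum_ne (v := u) fun h => hi (congrFun h i)
  have hc : conj (u i) ≠ 0 := by simpa using hi
  rw [pr_ap, pr_ap]
  field_simp

theorem pr_diag {u : Fin N → ℂ} (h0 : u ≠ 0) (i : Fin N) : proj u (i, i) = 0 ↔ u i = 0 := by
  simp [pr_ap, sum_ne h0]

theorem pr_cont {v : Fin N → ℂ} (h : v ≠ 0) : ContinuousAt (proj : (Fin N → ℂ) → Amb N) v :=
  (HT.proj_contDiffAt h).continuousAt

theorem en_cont (p : Fin N × Fin N) : Continuous fun x : Amb N => x p :=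
  (EuclideanSpace.proj p : Amb N →L[ℂ] ℂ).continuous

theorem cj_pr (v : Fin N → ℂ) : cj (proj v) = proj fun k => conj (v k) := by
  ext ⟨a, b⟩
  simp [cj, pr_ap, mul_comm]

/-- permutation of the coordinates -/
def pA (s : Fin N → Fin N) : (Fin N → ℂ) →L[ℂ] Fin N → ℂ :=
  ContinuousLinearMap.pi fun i => ContinuousLinearMap.proj (s i)

/-- permutation of the matrix entries -/
def pL (s : Fin N → Fin N) : Amb N →L[ℝ] Amb N := LinearMap.toContinuousLinearMap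
  { toFun := fun x => WithLp.toLp 2 fun p => x (s p.1, s p.2)
    map_add' := fun _ _ => rfl
    map_smul' := fun _ _ => rfl }

variable {s : Fin N → Fin N} (hs : ∀ i, s (s i) = i)
include hs

theorem pA_pA (v : Fin N → ℂ) : pA s (pA s v) = v := funext fun i => congrArg v (hs i)

theorem pL_pL (x : Amb N) : pL s (pL s x) = x := by
  ext ⟨a, b⟩
  change x (s (s a), s (s b)) = _
  rw [hs, hs]

theorem pr_pA (v : Fin N → ℂ) : proj (pA s v) = pL s (proj v) := by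
  ext ⟨a, b⟩
  change _ = proj v (s a, s b)
  rw [pr_ap, pr_ap, ← Equiv.sum_comp (Function.Involutive.toPerm s hs) fun k => v k * conj (v k)]
  rfl

end gen

/-- The quadric. -/
def Zq : Set (Amb 4) := {x | ∃ v : Fin 4 → ℂ, v ≠ 0 ∧ v 0 * v 3 = v 1 * v 2 ∧ proj v = x}

/-- The four lines. -/
def Dq (a : Fin 4) : Set (Amb 4) :=
  Zq ∩ {x | x (![0, 2, 0, 1] a, ![0, 2, 0, 1] a) = 0 ∧ x (![1, 3, 2, 3] a, ![1, 3, 2, 3] a) = 0}

/-- The Klein four-group. -/
def xr : Fin 4 → Fin 4 → Fin 4 := ![![0, 1, 2, 3], ![1, 0, 3, 2], ![2, 3, 0, 1], ![3, 2, 1, 0]]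

theorem xr_xr : ∀ k i, xr k (xr k i) = i := by decide

theorem xr_Zq (k : Fin 4) : MapsTo (pL (xr k)) Zq Zq := by
  rintro _ ⟨v, h0, h1, rfl⟩
  refine ⟨pA (xr k) v, fun e => h0 ?_, ?_, pr_pA (xr_xr k) v⟩
  · rw [← pA_pA (xr_xr k) v, e, map_zero]
  · change v (xr k 0) * v (xr k 3) = v (xr k 1) * v (xr k 2)
    fin_cases k <;> simp [xr] <;> first | linear_combination h1 | linear_combination -h1

/-- The Segre map. -/
def sg (a b : ℂ) : Fin 4 → ℂ := ![1, b, a, a * b]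

theorem sg_ne (a b : ℂ) : sg a b ≠ 0 := fun h => one_ne_zero (congrFun h 0)

theorem sg_mem (a b : ℂ) : proj (sg a b) ∈ Zq := ⟨_, sg_ne a b, by simp [sg, mul_comm], rfl⟩

/-- The first coordinate. -/
def ca (x : Amb 4) : ℂ := x (2, 0) / x (0, 0)

/-- The second coordinate. -/
def cb (x : Amb 4) : ℂ := x (1, 0) / x (0, 0)

theorem ca_sg (a b : ℂ) : ca (proj (sg a b)) = a :=
  (pr_ratio (u := sg a b) one_ne_zero 2).trans (div_one a)

theorem cb_sg (a b : ℂ) : cb (proj (sg a b)) = b :=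
  (pr_ratio (u := sg a b) one_ne_zero 1).trans (div_one b)

theorem sg_sur {x : Amb 4} (hx : x ∈ Zq) (h : x (0, 0) ≠ 0) : proj (sg (ca x) (cb x)) = x := by
  obtain ⟨v, h0, h1, rfl⟩ := hx
  have h2 : v 0 ≠ 0 := fun e => h ((pr_diag h0 0).2 e)
  rw [ca, cb, pr_ratio h2, pr_ratio h2, ← pr_smul h2]
  congr 1
  funext i
  fin_cases i <;> simp [sg] <;> field_simp
  linear_combination -h1

theorem sg_cont : Continuous fun p : ℂ × ℂ => proj (sg p.1 p.2) :=
  continuous_iff_continuousAt.2 fun p => (pr_cont (sg_ne _ _)).comp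
    (f := fun p : ℂ × ℂ => sg p.1 p.2) (Continuous.continuousAt (by unfold sg; fun_prop))

theorem sg_chart : IsChart Zq univ fun z : Fin 2 → ℂ => sg (z 0) (z 1) := by
  have hd : Differentiable ℂ fun z : Fin 2 → ℂ => sg (z 0) (z 1) := differentiable_pi.2 fun i => by
    fin_cases i <;> simp [sg] <;> fun_prop
  refine ⟨isOpen_univ, hd.differentiableOn, fun z _ => sg_ne _ _, fun z _ v c e => ?_,
    fun z _ z' _ e => ?_, fun O _ hO => ?_⟩
  · have key : ∀ i, fderiv ℂ (fun z : Fin 2 → ℂ => sg (z 0) (z 1) i) z v = c * sg (z 0) (z 1) i :=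
      fun i => by
        rw [fderiv_apply (hd z)]
        exact congrFun e i
    have e0 := key 0
    have e1 := key 1
    have e2 := key 2
    have p := fun k : Fin 2 => (hasFDerivAt_apply (𝕜 := ℂ) k z).fderiv
    simp [sg, p] at e0 e1 e2
    funext k
    fin_cases k
    · simpa [← e0] using e2
    · simpa [← e0] using e1
  · have e' : proj (sg (z 0) (z 1)) = proj (sg (z' 0) (z' 1)) := e
    funext k
    fin_cases k
    · exact (ca_sg _ _).symm.trans ((congrArg ca e').trans (ca_sg _ _))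
    · exact (cb_sg _ _).symm.trans ((congrArg cb e').trans (cb_sg _ _))
  · have c : ContinuousOn (fun x : Amb 4 => ![ca x, cb x]) {x | x (0, 0) ≠ 0} :=
      continuousOn_pi.2 fun k => by
        fin_cases k <;> exact (en_cont _).continuousOn.div (en_cont _).continuousOn fun _ h => h
    refine ⟨_, c.isOpen_inter_preimage (isOpen_ne_fun (en_cont _) continuous_const) hO, ?_⟩
    ext x
    constructor
    · rintro ⟨z, hz, rfl⟩
      refine ⟨sg_mem _ _, fun h => one_ne_zero ((pr_diag (sg_ne _ _) 0).1 h), ?_⟩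
      change ![ca (proj (sg _ _)), cb (proj (sg _ _))] ∈ O
      rwa [ca_sg, cb_sg, show ![z 0, z 1] = z from funext fun k => by fin_cases k <;> rfl]
    · rintro ⟨h1, h2, h3⟩
      exact ⟨_, h3, sg_sur h1 h2⟩

theorem compact_Zq : IsCompact Zq := by
  have h1 : IsCompact (Metric.sphere (0 : Fin 4 → ℂ) 1 ∩ {v | v 0 * v 3 = v 1 * v 2}) :=
    (isCompact_sphere _ _).inter_right (isClosed_eq (by fun_prop) (by fun_prop))
  have h2 := h1.image_of_continuousOn (f := proj) fun v hv =>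
    (pr_cont (v := v) (by
      rintro rfl
      simp at hv)).continuousWithinAt
  refine (?_ : _ = Zq) ▸ h2
  ext x
  constructor
  · rintro ⟨v, h0, rfl⟩
    refine ⟨v, ?_, h0.2, rfl⟩
    rintro rfl
    simp at h0
  · rintro ⟨v, h0, h3, rfl⟩
    have hn : ‖v‖ ≠ 0 := norm_ne_zero_iff.2 h0
    have hc : ((‖v‖ : ℂ))⁻¹ ≠ 0 := inv_ne_zero (by exact_mod_cast hn)
    refine ⟨((‖v‖ : ℂ))⁻¹ • v, ⟨by simp [norm_smul, hn], ?_⟩, pr_smul hc v⟩
    simp only [mem_ofPred_eq, Pi.smul_apply, smul_eq_mul]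
    linear_combination ((‖v‖ : ℂ))⁻¹ ^ 2 * h3

theorem snc_q4 : IsSNC 2 Zq Dq := by
  refine ⟨compact_Zq, fun _ => inter_subset_left, fun x hx => ?_⟩
  obtain ⟨k, hk⟩ : ∃ k, pL (xr k) x (0, 0) ≠ 0 := by
    obtain ⟨v, h0, -, rfl⟩ := hx
    obtain ⟨k, hk⟩ := Function.ne_iff.1 h0
    refine ⟨k, fun e => hk ((pr_diag h0 k).1 ?_)⟩
    rwa [← (by decide : ∀ k, xr k 0 = k) k]
  have hc := chart_iff.2 (chart_map (pL_pL (xr_xr k)) (pA_pA (xr_xr k)) (pr_pA (xr_xr k))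
    (xr_Zq k) (chart_iff.1 sg_chart))
  refine ⟨univ, _, ![![none, some 0, none, some 1], ![none, some 0, some 1, none],
    ![some 0, none, none, some 1], ![some 0, none, some 1, none]] k, hc,
    ⟨![ca (pL (xr k) x), cb (pL (xr k) x)], trivial, (pr_pA (xr_xr k) _).trans
      ((congrArg _ (sg_sur (xr_Zq k hx) hk)).trans (pL_pL (xr_xr k) x))⟩,
    by fin_cases k <;> decide, fun a z _ => ?_⟩
  have h1 := hc.ne z trivial
  have h2 : proj ((pA (xr k) ∘ fun z : Fin 2 → ℂ => sg (z 0) (z 1)) z) ∈ Zq :=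
    (pr_pA (xr_xr k) _).symm ▸ xr_Zq k (sg_mem _ _)
  rw [Dq, mem_inter_iff, and_iff_right h2, mem_ofPred_eq, pr_diag h1, pr_diag h1]
  change sg (z 0) (z 1) (xr k _) = 0 ∧ sg (z 0) (z 1) (xr k _) = 0 ↔ _
  fin_cases k <;> fin_cases a <;> simp [xr, sg] <;> tauto

theorem cj_Zq : MapsTo cj Zq Zq := by
  rintro _ ⟨v, h0, h1, rfl⟩
  exact ⟨_, fun h => h0 (funext fun k => by simpa using congrFun h k), by
    rw [← map_mul, ← map_mul, h1], (cj_pr v).symm⟩

theorem cj_Dq (a : Fin 4) : MapsTo cj (Dq a) (Dq a) := fun _ hx =>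
  ⟨cj_Zq hx.1, (congrArg conj hx.2.1).trans (map_zero _), (congrArg conj hx.2.2).trans (map_zero _)⟩

theorem xr_Dq (a : Fin 4) : ∃ b, MapsTo (pL (xr 3)) (Dq a) (Dq b) := by
  refine ⟨xr 1 a, fun x hx => ⟨xr_Zq 3 hx.1, ?_⟩⟩
  have h := hx.2
  fin_cases a <;> exact ⟨h.2, h.1⟩

theorem mem_X {x : Amb 4} : x ∈ Zq \ ⋃ a, Dq a ↔ ∃ a b, a ≠ 0 ∧ b ≠ 0 ∧ proj (sg a b) = x := by
  constructor
  · rintro ⟨hx, h⟩
    have h1 : ∀ a, x ∉ Dq a := fun a e => h (mem_iUnion.2 ⟨a, e⟩)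
    have h2 : x (0, 0) ≠ 0 := fun e => by
      obtain ⟨v, h0, h3, rfl⟩ := id hx
      rw [(pr_diag h0 0).1 e, zero_mul] at h3
      rcases mul_eq_zero.1 h3.symm with e' | e'
      · exact h1 0 ⟨hx, e, (pr_diag h0 1).2 e'⟩
      · exact h1 2 ⟨hx, e, (pr_diag h0 2).2 e'⟩
    have h3 := sg_sur hx h2
    refine ⟨_, _, fun e => h1 1 ⟨hx, ?_⟩, fun e => h1 3 ⟨hx, ?_⟩, h3⟩ <;> rw [← h3, e] <;>
      exact ⟨(pr_diag (sg_ne _ _) _).2 (by simp [sg]), (pr_diag (sg_ne _ _) _).2 (by simp [sg])⟩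
  · rintro ⟨a, b, ha, hb, rfl⟩
    refine ⟨sg_mem a b, fun h => ?_⟩
    obtain ⟨k, -, h1, -⟩ := mem_iUnion.1 h
    rw [pr_diag (sg_ne _ _)] at h1
    fin_cases k <;> simp [sg, ha, hb] at h1

theorem pL_sg {a b : ℂ} (ha : a ≠ 0) (hb : b ≠ 0) :
    pL (xr 3) (proj (sg a b)) = proj (sg a⁻¹ b⁻¹) := by
  rw [← pr_pA (xr_xr 3), ← pr_smul (mul_ne_zero ha hb) (sg a⁻¹ b⁻¹)]
  congr 1
  funext i
  change sg a b (xr 3 i) = _
  fin_cases i <;> simp [sg, xr] <;> field_simp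

theorem cj_sg (a b : ℂ) : cj (proj (sg a b)) = proj (sg (conj a) (conj b)) := by
  rw [cj_pr]
  congr 1
  funext i
  fin_cases i <;> simp [sg]

end Pool.Agent.Cq
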