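import Pool.Agent.P.MP_65ad7c_ag.Defs

/-! An elliptic curve as a compact Kaehler manifold with fundamental group `ℤ²`. -/

open Set Filter Topology Pool.Agent.PW
open scoped Manifold ContDiff ComplexOrder

noncomputable section
namespace Pool.Agent.Cq

theorem torus : ∃ (X : Type) (_ : TopologicalSpace X) (_ : T2Space X) (_ : CompactSpace X)
    (_ : ConnectedSpace X) (_ : ChartedSpace (EC 1) X) (_ : IsManifold 𝓘(ℂ, EC 1) ω X),
    IsKahler 1 X ∧ ∀ x₀ : X, Nonempty (FundamentalGroup X x₀ ≃* Multiplicative (ℤ × ℤ)) := by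
  have hr : Module.finrank ℝ (EC 1) = 2 := by
    rw [← Module.finrank_mul_finrank ℝ ℂ (EC 1), Complex.finrank_real_complex]
    simp
  let b := Module.finBasisOfFinrankEq ℝ (EC 1) hr
  let Λ := (Submodule.span ℤ (range b)).toAddSubgroup
  have hd : DiscreteTopology Λ := inferInstanceAs (DiscreteTopology (Submodule.span ℤ (range b)))
  have hc := Λ.isAddQuotientCoveringMap_of_comm (isDiscrete_iff_discreteTopology.2 hd)
  have hl := hc.isCoveringMap.isLocalHomeomorph
  have hcl : IsClosed (Λ : Set (EC 1)) := AddSubgroup.isClosed_of_discrete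
  let cs : ChartedSpace (EC 1) (EC 1 ⧸ Λ) := hl.chartedSpaceOfRightInverse Quotient.out_eq
  have hs : ∀ x : EC 1 ⧸ Λ, ⇑(chartAt (EC 1) x).symm = QuotientAddGroup.mk := fun x =>
    hl.localInverseAt_symm _
  have tr : ∀ (y : EC 1 ⧸ Λ) (z : EC 1), QuotientAddGroup.mk z ∈ (chartAt (EC 1) y).source →
      ∃ c, (fun w => chartAt (EC 1) y (QuotientAddGroup.mk w)) =ᶠ[𝓝 z] fun w => w + c := by
    intro y z hz
    have c0 : Continuous (QuotientAddGroup.mk : EC 1 → EC 1 ⧸ Λ) := continuous_quot_mk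
    have c1 : ContinuousAt (fun w => chartAt (EC 1) y (QuotientAddGroup.mk w) - w) z :=
      (((chartAt (EC 1) y).continuousAt hz).comp c0.continuousAt).sub continuousAt_id
    have m : ∀ᶠ w in 𝓝 z, chartAt (EC 1) y (QuotientAddGroup.mk w) - w ∈ Λ := by
      filter_upwards [c0.continuousAt.eventually_mem
        ((chartAt (EC 1) y).open_source.mem_nhds hz)] with w hw
      have := (chartAt (EC 1) y).left_inv hw
      rw [hs] at this
      exact QuotientAddGroup.eq_iff_sub_mem.1 this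
    obtain ⟨U, hU, e⟩ := nhds_inter_eq_singleton_of_mem_discrete
      (isDiscrete_iff_discreteTopology.2 hd) m.self_of_nhds
    refine ⟨chartAt (EC 1) y (QuotientAddGroup.mk z) - z, ?_⟩
    filter_upwards [m, c1.eventually_mem hU] with w h1 h2
    exact (sub_eq_iff_eq_add'.1 (e.subset ⟨h2, h1⟩))
  refine ⟨EC 1 ⧸ Λ, inferInstance, inferInstance, ⟨?_⟩,
    QuotientAddGroup.mk_surjective.connectedSpace continuous_quot_mk, cs,
    isManifold_of_contDiffOn _ _ _ ?_, ⟨fun _ _ => 1, fun x => ⟨fun _ _ => contDiffOn_const,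
      fun _ _ => Matrix.PosDef.one, fun _ _ j k l => by simp [dz]⟩, fun x y z _ hz u v => ?_⟩,
    fun x₀ => ?_⟩
  · have e : (univ : Set (EC 1 ⧸ Λ)) =
        QuotientAddGroup.mk '' Metric.closedBall (0 : EC 1) (∑ i, ‖b i‖) := by
      refine (eq_univ_of_forall fun x => ?_).symm
      obtain ⟨m, rfl⟩ := QuotientAddGroup.mk_surjective x
      refine ⟨ZSpan.fract b m, mem_closedBall_zero_iff.2 (ZSpan.norm_fract_le b m),
        QuotientAddGroup.eq_iff_sub_mem.2 ?_⟩
      rw [ZSpan.fract_apply, sub_sub_cancel_left]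
      exact neg_mem (ZSpan.floor b m).2
    rw [e]
    exact (isCompact_closedBall _ _).image continuous_quot_mk
  · rintro _ _ ⟨x, rfl⟩ ⟨y, rfl⟩ z hz
    have h1 : (chartAt (EC 1) x).symm z ∈ (chartAt (EC 1) y).source := hz.1.2
    rw [hs] at h1
    obtain ⟨c, h2⟩ := tr y z h1
    refine ((contDiffAt_id.add contDiffAt_const).congr_of_eventuallyEq
      (EventuallyEq.trans (.of_forall fun w => ?_) h2)).contDiffWithinAt
    exact congrArg (chartAt (EC 1) y) (congrFun (hs x) w)
  · rw [hs] at hz ⊢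
    obtain ⟨c, h2⟩ := tr y z hz
    rw [h2.fderiv_eq, fderiv_add_const, fderiv_fun_id]
    rfl
  · obtain ⟨m, rfl⟩ := QuotientAddGroup.mk_surjective x₀
    exact ⟨((hc.fundamentalGroupEquiv ⟨m, rfl⟩).trans MulOpposite.opMulEquiv.symm).trans
      (AddEquiv.toMultiplicative (((b.restrictScalars ℤ).equivFun.trans
        (LinearEquiv.finTwoArrow ℤ ℤ)).toAddEquiv))⟩

end Pool.Agent.Cq
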