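import Pool.Agent.P.MP_65ad7c_ag.CtB

/-! The form of the Fermat cubic is closed and not exact. -/

open Set Filter Topology
open scoped ContDiff ComplexConjugate
open Pool.Agent.HT (Amb proj Form IsChart IsSNC)

noncomputable section
namespace Pool.Agent.Ctrl

variable {O : Set ℂ} {f : ℂ → Fin 3 → ℂ} {φ : ℂ → ℂ} {τ : Amb 3 → ℂ} {W : Set (Amb 3)}

theorem Ch.cd (h : Ch O f φ τ W) {t : ℂ} (ht : t ∈ O) : ContDiffAt ℝ ∞ (proj ∘ f) t :=
  (proj_cd (h.ne t ht)).comp t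
    (((h.hol.contDiffOn h.oO).contDiffAt (h.oO.mem_nhds ht)).restrict_scalars ℝ)

theorem closed (γ : Amb 3 → Amb 3) (S : Set (Amb 3)) (hS : IsOpen S) (hγ : ContDiffOn ℝ ∞ γ S)
    (hm : MapsTo γ S Zc) (z : Amb 3) (hz : z ∈ S) :
    (extDeriv al (γ z)).compContinuousLinearMap (fderiv ℝ γ z) = 0 := by
  obtain ⟨O, f, φ, τ, W, h, hW⟩ := exists_ch (hm hz)
  obtain ⟨r, r0, hr⟩ := Metric.isOpen_iff.1 h.oO _ (h.sur _ ⟨hm hz, hW⟩).1
  obtain ⟨Φ, hΦ⟩ := (h.phol.mono hr).isExactOn_ball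
  have gz := hγ.contDiffAt (hS.mem_nhds hz)
  have o1 := hγ.continuousOn.isOpen_inter_preimage hS h.oW
  have sU : ContDiffOn ℝ ∞ (τ ∘ γ) (S ∩ γ ⁻¹' W) :=
    h.sm.comp (hγ.mono inter_subset_left) fun _ hy => hy.2
  have o2 := sU.continuousOn.isOpen_inter_preimage o1 (Metric.isOpen_ball (x := τ (γ z)) (ε := r))
  have z2 : z ∈ S ∩ γ ⁻¹' W ∩ (τ ∘ γ) ⁻¹' Metric.ball (τ (γ z)) r :=
    ⟨⟨hz, hW⟩, Metric.mem_ball_self r0⟩
  have e : (fun y => (al (γ y)).compContinuousLinearMap (fderiv ℝ γ y)) =ᶠ[𝓝 z]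
      extDeriv fun y => ContinuousAlternatingMap.constOfIsEmpty ℝ (Amb 3) (Fin 0) (Φ (τ (γ y))) := by
    filter_upwards [o2.mem_nhds z2] with y hy
    have dU : DifferentiableAt ℝ (τ ∘ γ) y :=
      (sU.contDiffAt (o1.mem_nhds hy.1)).differentiableAt (by simp)
    have hO : τ (γ y) ∈ O := hr hy.2
    have e1 : γ =ᶠ[𝓝 y] (proj ∘ f) ∘ (τ ∘ γ) := by
      filter_upwards [o1.mem_nhds hy.1] with u hu using (h.sur _ ⟨hm hu.1, hu.2⟩).2.symm
    have e2 : fderiv ℝ γ y = (fderiv ℝ (proj ∘ f) (τ (γ y))).comp (fderiv ℝ (τ ∘ γ) y) := by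
      rw [e1.fderiv_eq]
      exact fderiv_comp y ((h.cd hO).differentiableAt (by simp)) dU
    have e3 : fderiv ℝ (fun y => Φ (τ (γ y))) y = _ :=
      (((hΦ _ hy.2).hasFDerivAt.restrictScalars ℝ).comp y dU.hasFDerivAt).fderiv
    rw [extDeriv_constOfIsEmpty, e3]
    ext v
    have e4 := h.val _ hO (fderiv ℝ (τ ∘ γ) y (v 0))
    rw [(h.sur _ ⟨hm hy.1.1, hy.1.2⟩).2] at e4
    simp only [ContinuousAlternatingMap.compContinuousLinearMap_apply, al_ap, Function.comp_apply]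
    rw [e2, ContinuousLinearMap.comp_apply, e4]
    simp [mul_comm]
  have cΦ : ContDiffAt ℝ ∞ Φ (τ (γ z)) :=
    ((DifferentiableOn.contDiffOn (fun t ht => (hΦ t ht).differentiableAt.differentiableWithinAt)
      Metric.isOpen_ball).contDiffAt (Metric.ball_mem_nhds _ r0)).restrict_scalars ℝ
  have c0 : ContDiffAt ℝ ∞
      (fun y => ContinuousAlternatingMap.constOfIsEmpty ℝ (Amb 3) (Fin 0) (Φ (τ (γ y)))) z :=
    (ContinuousAlternatingMap.constOfIsEmptyLIE ℝ (Amb 3) ℂ (Fin 0)).contDiff.contDiffAt.comp z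
      (cΦ.comp z (sU.contDiffAt (o1.mem_nhds ⟨hz, hW⟩)))
  rw [← extDeriv_pullback (r := ∞) (al_cd.differentiable (by simp) _) gz (by simp; decide),
    e.extDeriv_eq]
  exact extDeriv_extDeriv_apply c0 (by simp; decide)

theorem ne_Zc : Zc.Nonempty :=
  ⟨_, ![1, -1, 0], fun h => by simpa using congrFun h 0, by simp; norm_num, rfl⟩

theorem nonexact (g : Amb 3 → ℂ) (hg : ∀ x ∈ Zc, DifferentiableAt ℝ g x)
    (h : ∀ x ∈ Zc, ∃ N, IsOpen N ∧ x ∈ N ∧ ∀ (γ : Amb 3 → Amb 3) (S : Set (Amb 3)), IsOpen S →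
      ContDiffOn ℝ ∞ γ S → MapsTo γ S (Zc ∩ N) → ∀ z ∈ S, ∀ v,
        lin (γ z) (fderiv ℝ γ z v) = fderiv ℝ g (γ z) (fderiv ℝ γ z v)) : False := by
  obtain ⟨x, hx, mx⟩ := compact_Zc.exists_isMaxOn (f := fun y => ‖g y‖) ne_Zc
    fun y hy => (hg y hy).continuousAt.norm.continuousWithinAt
  obtain ⟨O, f, φ, τ, W, c, hW⟩ := exists_ch hx
  obtain ⟨N, oN, xN, hN⟩ := h x hx
  obtain ⟨t0, e0⟩ := c.sur _ ⟨hx, hW⟩
  have o1 : IsOpen (O ∩ (proj ∘ f) ⁻¹' N) :=
    ContinuousOn.isOpen_inter_preimage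
      (fun t ht => (c.cd ht).continuousAt.continuousWithinAt) c.oO oN
  have m1 : τ x ∈ O ∩ (proj ∘ f) ⁻¹' N := ⟨t0, by rw [mem_preimage, Function.comp_apply, e0]; exact xN⟩
  have key : ∀ t ∈ O ∩ (proj ∘ f) ⁻¹' N, HasDerivAt (g ∘ proj ∘ f) (φ t) t := by
    intro t ht
    have d1 := (c.cd ht.1).differentiableAt (by simp)
    have d2 := (hg _ (c.mem t ht.1).1).hasFDerivAt.comp t d1.hasFDerivAt
    refine hasFDerivAt_of_restrictScalars ℝ d2 ?_
    ext1 s
    have a := hN ((proj ∘ f) ∘ en (0, 0)) (en (0, 0) ⁻¹' (O ∩ (proj ∘ f) ⁻¹' N))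
      (o1.preimage (en _).continuous)
      (fun y hy => ((c.cd hy.1).comp y (en _).contDiff.contDiffAt).contDiffWithinAt)
      (fun y hy => ⟨(c.mem _ hy.1).1, hy.2⟩) (EuclideanSpace.single (0, 0) t)
      (by simpa [en_ap] using ht) (EuclideanSpace.single (0, 0) s)
    have b : en (0, 0) (EuclideanSpace.single (0, 0) t) = t := by simp [en_ap]
    have b' : en (0, 0) (EuclideanSpace.single (0, 0) s) = s := by simp [en_ap]
    rw [fderiv_comp _ (by rw [b]; exact d1) (en _).differentiableAt, ContinuousLinearMap.fderiv,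
      ContinuousLinearMap.comp_apply, Function.comp_apply, b, b', Function.comp_apply,
      c.val t ht.1] at a
    rw [ContinuousLinearMap.comp_apply, ← a]
    simp [mul_comm]
  have lm : IsLocalMax (norm ∘ g ∘ proj ∘ f) (τ x) := by
    filter_upwards [c.oO.mem_nhds t0] with t ht
    simp only [Function.comp_apply, e0]
    exact mx (c.mem t ht).1
  have ev := Complex.eventually_eq_of_isLocalMax_norm
    (mem_of_superset (o1.mem_nhds m1) fun t ht => (key t ht).differentiableAt) lm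
  exact c.pne _ t0 ((key _ m1).unique ((hasDerivAt_const _ _).congr_of_eventuallyEq ev))

theorem Ch.chart (h : Ch O f φ τ W) :
    IsChart Zc {z : Fin 1 → ℂ | z 0 ∈ O} fun z => f (z 0) := by
  have d0 : ∀ z : Fin 1 → ℂ, HasFDerivAt (fun z : Fin 1 → ℂ => z 0)
      (ContinuousLinearMap.proj (R := ℂ) (φ := fun _ : Fin 1 => ℂ) 0) z := fun z =>
    (ContinuousLinearMap.proj (R := ℂ) (φ := fun _ : Fin 1 => ℂ) 0).hasFDerivAt
  refine ⟨h.oO.preimage (continuous_apply 0), h.hol.comp (fun z _ =>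
    (d0 z).differentiableAt.differentiableWithinAt) fun _ hz => hz, fun z hz => h.ne _ hz,
    fun z hz v c e => ?_, fun z hz z' hz' e => ?_, fun O' hO' o' => ?_⟩
  · have d1 := (h.hol.differentiableAt (h.oO.mem_nhds hz)).hasFDerivAt.comp z (d0 z)
    rw [show fderiv ℂ (fun z : Fin 1 → ℂ => f (z 0)) z = _ from d1.fderiv] at e
    funext k
    rw [Subsingleton.elim k 0]
    exact h.imm _ hz _ c e
  · funext k
    rw [Subsingleton.elim k 0, ← h.inv _ hz, ← h.inv _ hz']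
    exact congrArg τ e
  · have one : ∀ z : Fin 1 → ℂ, (fun _ => z 0) = z := fun z =>
      funext fun k => by rw [Subsingleton.elim k 0]
    refine ⟨W ∩ τ ⁻¹' ((fun t _ => t) ⁻¹' O'), h.sm.continuousOn.isOpen_inter_preimage h.oW
      (o'.preimage (continuous_pi fun _ => continuous_id)), ?_⟩
    ext P
    constructor
    · rintro ⟨z, hz, rfl⟩
      refine ⟨(h.mem _ (hO' hz)).1, (h.mem _ (hO' hz)).2, ?_⟩
      simp only [mem_preimage, Function.comp_apply]
      rw [h.inv _ (hO' hz), one]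
      exact hz
    · rintro ⟨h1, h2, h3⟩
      exact ⟨_, h3, (h.sur P ⟨h1, h2⟩).2⟩

theorem snc {ι : Type} [IsEmpty ι] (D : ι → Set (Amb 3)) : IsSNC 1 Zc D := by
  refine ⟨compact_Zc, isEmptyElim, fun x hx => ?_⟩
  obtain ⟨O, f, φ, τ, W, c, hW⟩ := exists_ch hx
  exact ⟨_, _, isEmptyElim, c.chart, ⟨fun _ => τ x, (c.sur x ⟨hx, hW⟩).1, (c.sur x ⟨hx, hW⟩).2⟩,
    isEmptyElim, isEmptyElim⟩

theorem cj_Zc {x : Amb 3} (hx : x ∈ Zc) : (WithLp.toLp 2 fun p => conj (x p) : Amb 3) ∈ Zc := by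
  obtain ⟨v, h0, hF, rfl⟩ := hx
  refine ⟨fun k => conj (v k), fun h => h0 (funext fun k => by simpa using congrFun h k), ?_, ?_⟩
  · simpa using congrArg conj hF
  · ext ⟨a, b⟩
    simp [proj_ap, nn, mul_comm]

/-- A chart of the cubic has dimension one. -/
theorem dim_one {d : ℕ} {O : Set (Fin d → ℂ)} {f : (Fin d → ℂ) → Fin 3 → ℂ}
    (h : IsChart Zc O f) {z : Fin d → ℂ} (hz : z ∈ O) : d = 1 := by
  obtain ⟨W, oW, hW⟩ := h.opn O subset_rfl h.isOpen
  have mem : ∀ y ∈ O, proj (f y) ∈ Zc ∩ W := fun y hy => hW ▸ ⟨y, hy, rfl⟩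
  have cub : ∀ y ∈ O, f y 0 ^ 3 + f y 1 ^ 3 + f y 2 ^ 3 = 0 := by
    intro y hy
    obtain ⟨v, v0, vF, e⟩ := (mem y hy).1
    obtain ⟨i, hi⟩ := Function.ne_iff.1 v0
    have hi' : f y i ≠ 0 := (diag_ne (h.ne y hy) i).1 (e ▸ (diag_ne v0 i).2 hi)
    have k : ∀ a, f y a = f y i / v i * v a := fun a => by
      have := ratio v0 hi a
      rw [e, ratio (h.ne y hy) hi'] at this
      have hi2 : v i ≠ 0 := hi
      field_simp at this ⊢
      linear_combination this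
    rw [k 0, k 1, k 2]
    linear_combination (f y i / v i) ^ 3 * vF
  apply le_antisymm
  · have d1 := (h.hol.differentiableAt (h.isOpen.mem_nhds hz)).hasFDerivAt
    have d2 : ∀ a, HasFDerivAt (fun y => f y a)
        ((ContinuousLinearMap.proj a).comp (fderiv ℂ f z)) z := fun a =>
      (ContinuousLinearMap.proj (R := ℂ) (φ := fun _ : Fin 3 => ℂ) a).hasFDerivAt.comp z d1
    have d3 := ((((d2 0).pow 3).add ((d2 1).pow 3)).add ((d2 2).pow 3)).unique
      ((hasFDerivAt_const (0 : ℂ) z).congr_of_eventuallyEq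
        (mem_of_superset (h.isOpen.mem_nhds hz) fun y hy => cub y hy))
    let L : ((Fin d → ℂ) × ℂ) →ₗ[ℂ] Fin 3 → ℂ :=
      (fderiv ℂ f z).toLinearMap.coprod (LinearMap.toSpanSingleton ℂ _ (f z))
    have inj : Function.Injective L := by
      rw [injective_iff_map_eq_zero]
      rintro ⟨v, c⟩ e
      have e1 : fderiv ℂ f z v + c • f z = 0 := e
      have e2 := h.imm z hz v (-c) (by rw [neg_smul]; exact eq_neg_of_add_eq_zero_left e1)
      rw [e2, map_zero, zero_add] at e1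
      rw [e2, (smul_eq_zero.1 e1).resolve_right (h.ne z hz)]
      rfl
    have nt : LinearMap.range L ≠ ⊤ := by
      intro ht
      obtain ⟨i, hi⟩ := Function.ne_iff.1 (h.ne z hz)
      obtain ⟨⟨v, c⟩, e⟩ := LinearMap.range_eq_top.1 ht (Pi.single i 1)
      have e1 : ∀ a, fderiv ℂ f z v a = (Pi.single i 1 : Fin 3 → ℂ) a - c * f z a := fun a =>
        eq_sub_of_add_eq (congrFun e a)
      have e2 := DFunLike.congr_fun d3 v
      simp [e1] at e2
      have e3 := cub z hz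
      apply pow_ne_zero 2 hi
      fin_cases i <;> simp at e2 hi ⊢ <;> exact absurd (pow_eq_zero_iff two_ne_zero |>.1
        (by linear_combination (1 / 3) * e2 + c * e3)) hi
    have a := LinearMap.finrank_range_of_inj inj
    have b := Submodule.finrank_lt nt
    simp at a b
    omega
  · by_contra hd
    obtain rfl : d = 0 := by omega
    obtain ⟨O', f', φ, τ, W', c, hW'⟩ := exists_ch (mem z hz).1
    obtain ⟨t0, e0⟩ := c.sur _ ⟨(mem z hz).1, hW'⟩
    have ev : ∀ᶠ t in 𝓝 (τ (proj (f z))), t = τ (proj (f z)) := by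
      have c1 := (c.cd t0).continuousAt.eventually_mem (oW.mem_nhds (by
        rw [Function.comp_apply, e0]; exact (mem z hz).2))
      filter_upwards [c1, c.oO.mem_nhds t0] with t h1 h2
      obtain ⟨y, -, e⟩ : proj (f' t) ∈ (proj ∘ f) '' O := hW ▸ ⟨(c.mem t h2).1, h1⟩
      rw [Subsingleton.elim y z, Function.comp_apply] at e
      rw [e, c.inv t h2]
    obtain ⟨t, h1, h2⟩ := ((ev.filter_mono (nhdsWithin_le_nhds (s := {τ (proj (f z))}ᶜ))).and
      self_mem_nhdsWithin).exists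
    exact h2 h1

end Pool.Agent.Ctrl
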