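import Pool.Agent.P.MP_65ad7c_ag.QDefs
import Pool.Agent.P.MP_65ad7c_ag.CtC

/-! Separation of two steps of the weight filtration on a curve; the cubic has an odd weight. -/

open Set Filter Topology CategoryTheory
open scoped ContDiff ComplexConjugate
open Pool.Agent.PQ

noncomputable section
namespace Pool.Agent.Ctrl

variable {N n : ℕ} {ι : Type} {Z : Set (Amb N)} {D : ι → Set (Amb N)}

theorem dd_zero : dd (0 : Form N n) = 0 := by
  funext x
  ext v
  simp [dd, extDeriv, ContinuousAlternatingMap.alternatizeUncurryFin_apply]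

theorem sm_zero : Sm (0 : Form N n) := contDiff_const

theorem nul_zero : Nul Z (0 : Form N n) := fun _ _ _ _ _ _ _ _ => rfl

theorem sm_dd {a : Form N n} (h : Sm a) : Sm (dd a) := (HT.SF.d n ⟨a, h⟩).2

theorem sm_lin {a b : Form N n} (c : ℂ) (ha : Sm a) (hb : Sm b) : Sm (c • a + b) :=
  (ContDiff.const_smul c ha).add hb

theorem dd_lin {a b : Form N n} (c : ℂ) (ha : Sm a) (hb : Sm b) :
    dd (c • a + b) = c • dd a + dd b := by
  funext x
  have h1 : DifferentiableAt ℝ a x := ContDiff.differentiable ha (by simp) x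
  have h2 : DifferentiableAt ℝ b x := ContDiff.differentiable hb (by simp) x
  exact (extDeriv_add (h1.const_smul c) h2).trans (congrArg (· + _) (HT.extDeriv_csmul c h1))

theorem nul_lin {a b : Form N n} (c : ℂ) (ha : Nul Z a) (hb : Nul Z b) : Nul Z (c • a + b) := by
  intro γ O h1 h2 h3 z hz v
  have e1 := ha γ O h1 h2 h3 z hz v
  have e2 := hb γ O h1 h2 h3 z hz v
  simp [e1, e2]

theorem strat_zero (I : Fin 0 → ι) : strat Z D I = Z := by simp [strat]

theorem sm_Dt {z : Tot N ι} (h : ∀ p m I, Sm (z p m I)) (p m : ℕ) (I : Fin p → ι) :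
    Sm (Dt z p m I) := by
  refine ContDiff.add ?_ ?_
  · cases m
    · exact sm_zero
    · exact sm_dd (h _ _ _)
  · cases p with
    | zero => exact sm_zero
    | succ p =>
      have : Sm (fun x => ∑ j : Fin (p + 1), ((-1 : ℂ) ^ (m + j.1) • z p m (j.removeNth I)) x) :=
        ContDiff.sum fun j _ => ContDiff.const_smul ((-1 : ℂ) ^ (m + j.1)) (h p m (j.removeNth I))
      simp only [← Finset.sum_apply] at this
      exact this

/-- the form `a` in column `0` -/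
def one (ι : Type) (a : Form N n) : Tot N ι := fun p m _ =>
  if h : p = 0 ∧ m = n then h.2 ▸ a else 0

theorem one_self (a : Form N n) (I : Fin 0 → ι) : one ι a 0 n I = a := by simp [one]

theorem one_ne (a : Form N n) (p m : ℕ) (I : Fin p → ι) (h : p ≠ 0 ∨ m ≠ n) :
    one ι a p m I = 0 := dif_neg (by tauto)

theorem sm_one {a : Form N n} (h : Sm a) (p m : ℕ) (I : Fin p → ι) : Sm (one ι a p m I) := by
  by_cases e : p = 0 ∧ m = n
  · obtain ⟨rfl, rfl⟩ := e
    rwa [one_self]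
  · rw [one_ne _ _ _ _ (by tauto)]
    exact sm_zero

theorem col_zero {a : Form N n} (h : Sm a) : Col Z D 0 a := by
  refine ⟨one ι a, one ι a, 0, one_self a, one_ne a, fun p hp => absurd hp (by simp),
    fun p m I => ⟨sm_one h p m I, sm_zero, ?_⟩⟩
  have : Dt (0 : Tot N ι) p m I = 0 := by
    cases p <;> cases m <;> simp [Dt, dd_zero] <;>
      exact Finset.sum_eq_zero fun _ _ => by ext; simp
  rw [this, sub_self, sub_zero]
  exact nul_zero

/-- Column `≥ 1` means: exact on `Z`. -/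
theorem col_one (a : Form N (n + 1)) :
    Col Z D 1 a ↔ ∃ b : Form N n, Sm b ∧ Nul Z (a - dd b) := by
  constructor
  · rintro ⟨x, y, z, h1, -, h3, h4⟩
    obtain ⟨-, a1, a2⟩ := h4 0 (n + 1) Fin.elim0
    refine ⟨_, (h4 0 n Fin.elim0).2.1, ?_⟩
    rw [strat_zero, h1, h3 0 one_pos] at a2
    simpa [Dt] using a2
  · rintro ⟨b, h1, h2⟩
    refine ⟨one ι a, fun p m I => if p = 0 then 0 else -Dt (one ι b) p m I, one ι b, one_self a,
      one_ne a, fun p hp => ?_, fun p m I => ⟨?_, sm_one h1 p m I, ?_⟩⟩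
    · funext m I
      exact if_pos (by omega)
    · dsimp only
      split_ifs
      · exact sm_zero
      · exact ContDiff.neg (sm_Dt (sm_one h1) p m I)
    · cases p with
      | succ p =>
        rw [one_ne _ _ _ _ (Or.inl p.succ_ne_zero)]
        simp only [p.succ_ne_zero, if_false, sub_neg_eq_add, zero_add, sub_self]
        exact nul_zero
      | zero =>
        rw [strat_zero]
        cases m with
        | zero =>
          rw [one_ne _ _ _ _ (Or.inr (by omega))]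
          simpa [Dt] using nul_zero
        | succ m =>
          by_cases e : m = n
          · subst e
            simpa [Dt, one_self] using h2
          · rw [one_ne _ _ _ _ (Or.inr (by omega))]
            simpa [Dt, one_ne b 0 m I (Or.inr e), dd_zero] using nul_zero

theorem sep {Y : Type} [TopologicalSpace Y] {S : Y → Y → Prop} (M : Model S) (m : ℕ)
    (e1 : M.R.N = N) (e2 : M.R.ι = ι) (e3 : HEq M.R.Z Z) (e4 : HEq M.R.D D) (e5 : M.I = M.R.K)
    (e6 : HEq M.p (𝟙 M.I)) (hd : ∀ d O f z, IsChart (d := d) Z O f → z ∈ O → d = 1)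
    (hZ : Z.Nonempty) (B : Submodule ℂ (Form N 1)) (a : Form N 1) (h1 : a ∉ B)
    (h2 : Ac Z (Z \ ⋃ i, D i) a) (h3 : Nul Z (dd a)) (h4 : Col Z D m a)
    (h5 : ∀ b, Nul Z b → b ∈ B) (h6 : ∀ b, Col Z D (m + 1) b → b ∈ B) :
    M.W 1 (m + 1) ≠ M.W 1 m := by
  obtain ⟨⟨N, d, ι, fin, Z, D, snc, π, up, up_eq, K, ev, lin, isFun, inj, surj, ev_rs, ev_dv⟩,
    U, I, on, ic, c1, c2, c3, i, p, sp, it, wt, hg, hg'⟩ := M
  dsimp only at e1 e2 e3 e4 e5 e6
  subst e1 e2 e5
  obtain rfl := eq_of_heq e3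
  obtain rfl := eq_of_heq e4
  obtain rfl := eq_of_heq e6
  obtain ⟨x, hx⟩ := hZ
  obtain ⟨O, f, -, c, ⟨z, hz, -⟩, -⟩ := snc.chart x hx
  obtain rfl := hd d O f z c hz
  have eu : up ⊤ = Z \ ⋃ i, D i := by
    rw [up_eq]
    ext
    simp
  obtain ⟨φ, n0, hφ⟩ := B.exists_dual_map_eq_bot_of_notMem h1 inferInstance
  have k : ∀ b ∈ B, φ b = 0 := fun b hb => by
    have := Submodule.mem_map_of_mem (f := φ) hb
    rwa [hφ] at this
  obtain ⟨l, hl⟩ := surj 1 ⊤ 1 rfl φ ⟨fun c a b _ _ => by simp, fun b _ hb => k b (h5 b hb)⟩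
  intro e
  have m1 : l ∈ Model.W ⟨⟨N, 1, ι, fin, Z, D, snc, π, up, up_eq, I, ev, lin, isFun, inj, surj,
      ev_rs, ev_dv⟩, U, I, on, ic, c1, c2, c3, i, 𝟙 I, sp, it, wt, hg, hg'⟩ 1 (m + 1) := by
    refine ⟨l, fun q hq b b1 _ b3 => ?_, 0, ?_⟩
    · obtain rfl : q = 1 := by
        have : q + 1 = 2 * 1 := hq
        omega
      exact (hl b b1).trans (k b (h6 b b3))
    · exact (add_zero l).symm.trans (congrArg (l + ·) (map_zero (ModuleCat.Hom.hom _)).symm)
  rw [e] at m1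
  obtain ⟨l', a1, b, a2⟩ := m1
  have a3 : l = (1 : ℂ) • l' + dv 1 b := by rw [one_smul]; exact a2
  rw [← eu] at h2
  have a4 : ev 1 l' a = 0 := a1 1 rfl a h2 h3 h4
  have a5 : ev 1 (dv (0 + 1) b) a = 0 :=
    (ev_dv 0 ⊤ 1 b a h2).trans ((isFun 0 ⊤ 2 b).2 _ (sm_dd h2.1) h3)
  apply n0
  rw [← hl a h2, a3, lin, a4, a5, mul_zero, add_zero]

/-- the exact forms on `Z` whose primitive vanishes on the `D i` -/
def exa (Z : Set (Amb N)) (D : ι → Set (Amb N)) : Submodule ℂ (Form N 1) where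
  carrier := {a | ∃ b : Form N 0, Sm b ∧ Nul Z (a - dd b) ∧ ∀ i, Nul (Z ∩ D i) b}
  zero_mem' := ⟨0, sm_zero, by simpa [dd_zero] using nul_zero, fun _ => nul_zero⟩
  add_mem' := by
    rintro a a' ⟨b, h1, h2, h3⟩ ⟨b', k1, k2, k3⟩
    refine ⟨(1 : ℂ) • b + b', sm_lin 1 h1 k1, ?_, fun i => nul_lin 1 (h3 i) (k3 i)⟩
    have := nul_lin 1 h2 k2
    rw [dd_lin 1 h1 k1]
    rwa [one_smul, sub_add_sub_comm, ← one_smul ℂ (dd b)] at this
  smul_mem' := by
    rintro c a ⟨b, h1, h2, h3⟩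
    refine ⟨c • b + 0, sm_lin c h1 sm_zero, ?_, fun i => nul_lin c (h3 i) nul_zero⟩
    have := nul_lin c h2 nul_zero
    rw [dd_lin c h1 sm_zero, dd_zero, add_zero]
    rwa [add_zero, smul_sub] at this

theorem nul_exa {a : Form N 1} (h : Nul Z a) : a ∈ exa Z D :=
  ⟨0, sm_zero, by simpa [dd_zero] using h, fun _ => nul_zero⟩

theorem dd_fun (b : Form N 0) (x : Amb N) (v : Fin 1 → Amb N) :
    dd b x v = fderiv ℝ (fun y => b y Fin.elim0) x (v 0) := by
  have : b = fun y => ContinuousAlternatingMap.constOfIsEmpty ℝ (Amb N) (Fin 0) (b y Fin.elim0) := by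
    funext y
    ext u
    rw [Subsingleton.elim u Fin.elim0]
    rfl
  rw [dd, this, extDeriv_constOfIsEmpty]
  rfl

theorem sm_fun {b : Form N 0} (h : Sm b) : ContDiff ℝ ∞ fun y => b y Fin.elim0 :=
  (ContinuousAlternatingMap.apply ℝ (Amb N) ℂ (Fin.elim0 : Fin 0 → Amb N)).contDiff.comp h

theorem snc_q {d : ℕ} (h : HT.IsSNC d Z D) : IsSNC d Z D :=
  ⟨h.1, h.2, fun x hx => by
    obtain ⟨O, f, κ, c, r⟩ := h.3 x hx
    exact ⟨O, f, κ, ⟨c.1, c.2, c.3, c.4, c.5, c.6⟩, r⟩⟩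

/-- On a model built on the Fermat cubic the weight `1` occurs. -/
theorem odd_q {Y : Type} [TopologicalSpace Y] {S : Y → Y → Prop} [IsEmpty ι] {D : ι → Set (Amb 3)}
    (M : Model S) (h : M.R.N = 3 ∧ M.R.ι = ι ∧ HEq M.R.Z Zc ∧ HEq M.R.D D ∧ M.I = M.R.K ∧
      HEq M.p (𝟙 M.I)) : M.W 1 1 ≠ M.W 1 0 := by
  obtain ⟨e1, e2, e3, e4, e5, e6⟩ := h
  refine sep M 0 e1 e2 e3 e4 e5 e6
    (fun d O f z c hz => dim_one ⟨c.1, c.2, c.3, c.4, c.5, c.6⟩ hz) ne_Zc (exa Zc D) al ?_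
    ⟨al_cd, Zc, compact_Zc, by simp, fun γ O _ _ h3 z hz => absurd (h3 hz) (by simp)⟩
    (fun γ O h1 h2 h3 z hz v => DFunLike.congr_fun (closed γ O h1 h2 h3 z hz) v)
    (col_zero al_cd) (fun b => nul_exa) fun b hb => ?_
  · rintro ⟨b, h1, h2, -⟩
    refine nonexact (fun y => b y Fin.elim0) (fun x _ => (sm_fun h1).differentiable (by simp) x)
      fun x _ => ⟨univ, isOpen_univ, trivial, fun γ O k1 k2 k3 z hz v => ?_⟩
    have := h2 γ O k1 k2 (fun y hy => (k3 hy).1) z hz fun _ => v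
    rw [Pi.sub_apply, ContinuousAlternatingMap.sub_apply, dd_fun, sub_eq_zero] at this
    exact this
  · obtain ⟨c, h1, h2⟩ := (col_one b).1 hb
    exact ⟨c, h1, h2, isEmptyElim⟩

end Pool.Agent.Ctrl
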