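import Pool.Agent.P.MP_65ad7c_ag.CqD
import Pool.Agent.P.MP_65ad7c_ag.CtQ

/-! A closed `2`-form in column `2` and not in column `3`. -/

open Set Filter Topology Pool.Agent.PQ
open Pool.Agent.HT (SF Om)
open scoped ContDiff

noncomputable section
namespace Pool.Agent.Cq

variable {N n : ℕ} {ι : Type} {Z : Set (Amb N)} {D : ι → Set (Amb N)}
  {h h₁ h₂ : Amb N →L[ℝ] ℝ} {x : Amb N}

/-- a step from `0` to `1` -/
def stq (h : Amb N →L[ℝ] ℝ) (x : Amb N) : ℝ := Real.smoothTransition ((1 + 3 * h x) / 2)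

theorem stq_cd : ContDiff ℝ ∞ (stq h) :=
  Real.smoothTransition.contDiff.comp
    ((contDiff_const.add (contDiff_const.mul h.contDiff)).div_const 2)

theorem stq_zero (hx : h x ≤ -1 / 3) : stq h x = 0 :=
  Real.smoothTransition.zero_of_nonpos (by linarith)

theorem stq_one (hx : 1 / 3 ≤ h x) : stq h x = 1 :=
  Real.smoothTransition.one_of_one_le (by linarith)

theorem stq_neg {y : Amb N} (e : h y = -h x) : stq h y = 1 - stq h x := by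
  have := Real.smoothTransition.pos_denom ((1 + 3 * h x) / 2)
  rw [stq, stq, e, show (1 + 3 * -h x) / 2 = 1 - (1 + 3 * h x) / 2 by ring, Real.smoothTransition,
    Real.smoothTransition, sub_sub_cancel, add_comm (expNegInvGlue (1 - _)), eq_sub_iff_add_eq,
    ← add_div, add_comm, div_self this.ne']

/-- a smooth function as a form of degree `0` -/
def fq (g : Amb N → ℝ) (hg : ContDiff ℝ ∞ g) : SF (Amb N) 0 :=
  ⟨fun x => ContinuousAlternatingMap.constOfIsEmpty ℝ (Amb N) (Fin 0) (g x : ℂ),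
    (ContinuousAlternatingMap.constOfIsEmptyLIE ℝ (Amb N) ℂ (Fin 0)).contDiff.comp
      (Complex.ofRealCLM.contDiff.comp hg)⟩

theorem d_ev {a b : SF (Amb N) n} (e : a.1 =ᶠ[𝓝 x] b.1) :
    (SF.d n a).1 =ᶠ[𝓝 x] (SF.d n b).1 := e.extDeriv

theorem d_cst (c : ℝ) : SF.d 0 (fq (N := N) (fun _ => c) contDiff_const) = 0 := by
  refine SF.ext (funext fun y => ?_)
  rw [SF.d_val, fq, extDeriv_constOfIsEmpty]
  ext v
  simp

theorem ev_lt (hx : h x < -1 / 3) : ∀ᶠ y in 𝓝 x, stq h y = 0 :=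
  (h.continuous.continuousAt.eventually_lt continuousAt_const hx).mono fun _ e => stq_zero e.le

theorem ev_gt (hx : 1 / 3 < h x) : ∀ᶠ y in 𝓝 x, stq h y = 1 :=
  (continuousAt_const.eventually_lt h.continuous.continuousAt hx).mono fun _ e => stq_one e.le

variable (h) in
/-- the differential of the step -/
def dq : SF (Amb N) 1 := SF.d 0 (fq (stq h) stq_cd)

theorem dq_ev (hx : h x < -1 / 3 ∨ 1 / 3 < h x) : (dq h).1 =ᶠ[𝓝 x] (0 : SF (Amb N) 1).1 := by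
  rcases hx with hx | hx
  · rw [← d_cst 0]
    exact d_ev ((ev_lt hx).mono fun y e => by simp [fq, e])
  · rw [← d_cst 1]
    exact d_ev ((ev_gt hx).mono fun y e => by simp [fq, e])

variable (h₁ h₂) in
/-- a primitive of the form -/
def bq : SF (Amb N) 1 := SF.fsmul (stq h₁) stq_cd 1 (dq h₂)

theorem bq_zero (hx : h₁ x < -1 / 3 ∨ h₂ x < -1 / 3 ∨ 1 / 3 < h₂ x) :
    (bq h₁ h₂).1 =ᶠ[𝓝 x] (0 : SF (Amb N) 1).1 := by
  rcases hx with hx | hx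
  · exact (ev_lt hx).mono fun y e => by ext v; simp [bq, e]
  · exact (dq_ev hx).mono fun y e => by ext v; simp [bq, e]

theorem bq_one (hx : 1 / 3 < h₁ x) : (bq h₁ h₂).1 =ᶠ[𝓝 x] (dq h₂).1 :=
  (ev_gt hx).mono fun y e => by simp [bq, e]

theorem aq_zero (hx : ¬(h₁ x ∈ Icc (-1 / 3 : ℝ) (1 / 3) ∧ h₂ x ∈ Icc (-1 / 3 : ℝ) (1 / 3))) :
    (SF.d 1 (bq h₁ h₂)).1 x = 0 := by
  by_cases h1 : 1 / 3 < h₁ x
  · rw [(d_ev (bq_one h1)).eq_of_nhds, dq, SF.d_d]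
    rfl
  · rw [(d_ev (bq_zero (by_contra fun hc => hx ?_))).eq_of_nhds, map_zero]
    · rfl
    · push Not at hc h1
      exact ⟨⟨hc.1, h1⟩, hc.2⟩

theorem aq_ac (hZ : IsCompact Z)
    (hD : ∀ a, ∀ x ∈ D a, h₁ x = 1 ∨ h₁ x = -1 ∨ h₂ x = 1 ∨ h₂ x = -1) :
    cl Z (SF.d 1 (bq h₁ h₂)) ∈ HT.Ac Z (Z \ ⋃ a, D a) 2 := by
  refine HT.mem_Ac.2 ⟨Z ∩ (h₁ ⁻¹' Icc (-1 / 3) (1 / 3) ∩ h₂ ⁻¹' Icc (-1 / 3) (1 / 3)),
    hZ.inter_right ((isClosed_Icc.preimage h₁.continuous).inter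
      (isClosed_Icc.preimage h₂.continuous)), fun x hx => ⟨hx.1, fun h1 => ?_⟩,
    HT.Nul.of_zero fun x hx => aq_zero fun h1 => hx.2 ⟨hx.1, h1⟩⟩
  obtain ⟨a, ha⟩ := mem_iUnion.1 h1
  obtain ⟨-, ⟨a1, a2⟩, a3, a4⟩ := hx
  rcases hD a x ha with e | e | e | e <;> linarith

theorem aq_pull {L : Amb N →L[ℝ] Amb N} (e₁ : ∀ x, h₁ (L x) = -h₁ x)
    (e₂ : ∀ x, h₂ (L x) = -h₂ x) :
    SF.pull L 2 (SF.d 1 (bq h₁ h₂)) = SF.d 1 (bq h₁ h₂) := by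
  have a1 : SF.pull L 0 (fq (stq h₂) stq_cd) =
      fq (fun _ => 1) contDiff_const - fq (stq h₂) stq_cd := by
    refine SF.ext (funext fun y => ContinuousAlternatingMap.ext fun v => ?_)
    change ((stq h₂ (L y) : ℝ) : ℂ) = ((1 : ℝ) : ℂ) - ((stq h₂ y : ℝ) : ℂ)
    rw [stq_neg (e₂ y), Complex.ofReal_sub]
  have a2 : SF.pull L 1 (dq h₂) = -dq h₂ := by
    rw [dq, ← SF.d_pull, a1, map_sub, d_cst, zero_sub]
  have a3 : SF.pull L 1 (bq h₁ h₂) = bq h₁ h₂ - dq h₂ := by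
    refine SF.ext (funext fun y => ContinuousAlternatingMap.ext fun v => ?_)
    have a4 : (SF.pull L 1 (dq h₂)).1 y v = -(dq h₂).1 y v := by rw [a2]; rfl
    change stq h₁ (L y) • (SF.pull L 1 (dq h₂)).1 y v = stq h₁ y • (dq h₂).1 y v - (dq h₂).1 y v
    rw [a4, stq_neg (e₁ y), sub_smul, one_smul, smul_neg]
    ring
  rw [← SF.d_pull, a3, map_sub, dq, SF.d_d, sub_zero]

theorem K_add {G : ℝ × Amb N → Amb N} (hG : ContDiff ℝ ∞ G) (a b : SF (Amb N) (n + 1)) :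
    (a + b).K G hG = a.K G hG + b.K G hG := by
  refine SF.ext (funext fun y => ?_)
  have c := fun a : SF (Amb N) (n + 1) => HT.cont_ii ((HT.cT (Amb N) n).continuous.comp
    (HT.pull_contDiff hG a.smooth).continuous) y
  exact (intervalIntegral.integral_congr fun t _ => map_add (HT.cT (Amb N) n)
    (HT.pull G a.1 (t, y)) (HT.pull G b.1 (t, y))).trans
      (intervalIntegral.integral_add (c a) (c b))

theorem nul_univ {a : SF (Amb N) n} (h : a ∈ HT.Nul univ n) : a = 0 := by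
  refine SF.ext (funext fun y => ContinuousAlternatingMap.ext fun v => ?_)
  have := DFunLike.congr_fun (h id univ isOpen_univ contDiffOn_id (mapsTo_univ _ _) y trivial) v
  simpa [HT.pull_apply] using this

theorem nul_val {S : Set (Amb N)} {a : SF (Amb N) 0} (h : a ∈ HT.Nul S 0) (hx : x ∈ S) :
    a.1 x Fin.elim0 = 0 := by
  have := DFunLike.congr_fun (h (fun _ => x) univ isOpen_univ contDiffOn_const (fun _ _ => hx) 0
    trivial) Fin.elim0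
  rwa [HT.pull_apply, Subsingleton.elim (_ ∘ _) Fin.elim0] at this

theorem cst_val {a : SF (Amb N) 0} (h : SF.d 0 a = 0) (x y : Amb N) :
    a.1 x Fin.elim0 = a.1 y Fin.elim0 :=
  is_const_of_fderiv_eq_zero (𝕜 := ℝ) ((Ctrl.sm_fun a.2).differentiable (by simp)) (fun z => by
    ext v
    exact (Ctrl.dd_fun a.1 z fun _ => v).symm.trans (congrArg (fun b : SF (Amb N) 1 =>
      b.1 z fun _ => v) h)) x y

theorem pl_eq {S : Set (Amb N)} {a b : SF (Amb N) n} (h : a - b ∈ HT.Nul S n) {G : Amb N → Amb N}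
    (hG : ContDiff ℝ ∞ G) (hS : ∀ y, G y ∈ S) : a.pl G hG = b.pl G hG :=
  sub_eq_zero.1 (nul_univ (HT.Nul.pl h hG fun y _ => hS y))

theorem pl_val0 (a : SF (Amb N) 0) {G : Amb N → Amb N} (hG : ContDiff ℝ ∞ G) (y : Amb N) :
    (a.pl G hG).1 y Fin.elim0 = a.1 (G y) Fin.elim0 := by
  rw [SF.pl_val, HT.pull_apply, Subsingleton.elim (_ ∘ _) Fin.elim0]

/-- Stokes' theorem on a square. -/
theorem square {c : SF (Amb N) 1} (hc : SF.d 1 c ∈ HT.Nul Z 2) {H : ℝ × Amb N → Amb N}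
    (hH : ContDiff ℝ ∞ H) (hZ : ∀ p, H p ∈ Z) {S₀ S₁ T₀ T₁ : Set (Amb N)}
    {f₀ f₁ g₀ g₁ : SF (Amb N) 0} {y₀ y₁ : Amb N} (a0 : c - SF.d 0 f₀ ∈ HT.Nul S₀ 1)
    (a1 : c - SF.d 0 f₁ ∈ HT.Nul S₁ 1) (b0 : c - SF.d 0 g₀ ∈ HT.Nul T₀ 1)
    (b1 : c - SF.d 0 g₁ ∈ HT.Nul T₁ 1) (m0 : ∀ y, H (0, y) ∈ S₀) (m1 : ∀ y, H (1, y) ∈ S₁)
    (n0 : ∀ s, H (s, y₀) ∈ T₀) (n1 : ∀ s, H (s, y₁) ∈ T₁) :
    (f₁ - g₀).1 (H (1, y₀)) Fin.elim0 - (f₀ - g₀).1 (H (0, y₀)) Fin.elim0 =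
      (f₁ - g₁).1 (H (1, y₁)) Fin.elim0 - (f₀ - g₁).1 (H (0, y₁)) Fin.elim0 := by
  have e := SF.hom_succ hH c
  rw [nul_univ (HT.Nul.K hc hH (S := univ) fun t y _ => hZ _), zero_add (SF.d 0 _),
    pl_eq a1 _ m1, pl_eq a0 _ m0, ← SF.d_pl, ← SF.d_pl, ← map_sub, ← sub_eq_zero, ← map_sub] at e
  have k : ∀ {T : Set (Amb N)} {g : SF (Amb N) 0} {y : Amb N}, c - SF.d 0 g ∈ HT.Nul T 1 →
      (∀ s, H (s, y) ∈ T) → (c.K H hH).1 y Fin.elim0 =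
        g.1 (H (1, y)) Fin.elim0 - g.1 (H (0, y)) Fin.elim0 := fun {T g y} b m => by
    have e1 := K_add hH (c - SF.d 0 g) (SF.d 0 g)
    rw [sub_add_cancel, ← SF.hom_zero] at e1
    have e2 := nul_val (HT.Nul.K b hH (S := {y}) fun t z hz => hz ▸ m t) rfl
    rw [e1, ← pl_val0 g (HT.slice_smooth hH 1), ← pl_val0 g (HT.slice_smooth hH 0)]
    exact (congrArg (· + _) e2).trans (zero_add _)
  have e3 : (f₁.pl _ (HT.slice_smooth hH 1)).1 y₀ Fin.elim0 -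
      (f₀.pl _ (HT.slice_smooth hH 0)).1 y₀ Fin.elim0 - (c.K H hH).1 y₀ Fin.elim0 =
    (f₁.pl _ (HT.slice_smooth hH 1)).1 y₁ Fin.elim0 -
      (f₀.pl _ (HT.slice_smooth hH 0)).1 y₁ Fin.elim0 - (c.K H hH).1 y₁ Fin.elim0 :=
    cst_val e y₀ y₁
  rw [k b0 n0, k b1 n1, pl_val0, pl_val0, pl_val0, pl_val0] at e3
  change f₁.1 _ _ - g₀.1 _ _ - (f₀.1 _ _ - g₀.1 _ _) = f₁.1 _ _ - g₁.1 _ _ - (f₀.1 _ _ - g₁.1 _ _)
  linear_combination e3

theorem col_three {a : SF (Amb N) 2} (h : Col Z D 3 a.1) :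
    ∃ (z : SF (Amb N) 1) (w : ι → SF (Amb N) 0), a - SF.d 1 z ∈ HT.Nul Z 2 ∧
      (∀ i, z - SF.d 0 (w i) ∈ HT.Nul (Z ∩ D i) 1) ∧
      ∀ i j, ∀ x ∈ Z, x ∈ D i → x ∈ D j → (w i).1 x Fin.elim0 = (w j).1 x Fin.elim0 := by
  obtain ⟨x, y, z, h1, h2, h3, h4⟩ := h
  refine ⟨⟨z 0 1 Fin.elim0, (h4 0 1 _).2.1⟩, fun i => ⟨z 1 0 fun _ => i, (h4 1 0 _).2.1⟩,
    (nul_iff _).1 ?_, fun i => (nul_iff _).1 ?_, fun i j u hu hi hj => ?_⟩
  · obtain ⟨-, -, a2⟩ := h4 0 2 Fin.elim0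
    rw [Ctrl.strat_zero, h1, h3 0 (by omega)] at a2
    simpa [Dt, dd] using a2
  · obtain ⟨-, -, a3⟩ := h4 1 1 fun _ => i
    have e : strat Z D (fun _ : Fin 1 => i) = Z ∩ D i := by rw [strat, iInter_const]
    rw [e, h2 1 1 _ (Or.inl one_ne_zero), h3 1 (by omega)] at a3
    rw [Subsingleton.elim Fin.elim0 ((0 : Fin 1).removeNth fun _ => i)]
    intro γ O b1 b2 b3 u b4 v
    simpa [Dt, dd, sub_eq_add_neg, add_comm] using a3 γ O b1 b2 b3 u b4 v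
  · obtain ⟨-, -, a4⟩ := h4 2 0 ![i, j]
    rw [h2 2 0 _ (Or.inl two_ne_zero), h3 2 (by omega)] at a4
    have a5 := a4 (fun _ => u) univ isOpen_univ contDiffOn_const
      (fun _ _ => ⟨hu, mem_iInter.2 (Fin.forall_fin_two.2 ⟨hi, hj⟩)⟩) 0 trivial Fin.elim0
    have e0 : (0 : Fin 2).removeNth ![i, j] = fun _ => j := funext fun k => by
      rw [Subsingleton.elim k 0]; rfl
    have e1 : (1 : Fin 2).removeNth ![i, j] = fun _ => i := funext fun k => by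
      rw [Subsingleton.elim k 0]; rfl
    rw [Subsingleton.elim (fun _ => _) Fin.elim0] at a5
    simp [Dt, e0, e1] at a5
    linear_combination a5

theorem aq_not {H : ℝ × Amb N → Amb N} (hH : ContDiff ℝ ∞ H) (hZ : ∀ p, H p ∈ Z) {a₀ a₁ b₀ b₁ : ι}
    {y₀ y₁ : Amb N} (m0 : ∀ y, H (0, y) ∈ D a₀ ∧ h₁ (H (0, y)) = -1)
    (m1 : ∀ y, H (1, y) ∈ D a₁ ∧ h₁ (H (1, y)) = 1)
    (n0 : ∀ s, H (s, y₀) ∈ D b₀ ∧ h₂ (H (s, y₀)) = -1)
    (n1 : ∀ s, H (s, y₁) ∈ D b₁ ∧ h₂ (H (s, y₁)) = 1) :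
    ¬Col Z D 3 (SF.d 1 (bq h₁ h₂)).1 := fun hc => by
  obtain ⟨z, w, h1, h2, h3⟩ := col_three hc
  have k : ∀ i (T : Set (Amb N)) (f : SF (Amb N) 0), (∀ x ∈ T, (bq h₁ h₂).1 x = (SF.d 0 f).1 x) →
      bq h₁ h₂ - z - SF.d 0 (f - w i) ∈ HT.Nul (Z ∩ D i ∩ T) 1 := fun i T f e => by
    have a : bq h₁ h₂ - SF.d 0 f ∈ HT.Nul (Z ∩ D i ∩ T) 1 :=
      HT.Nul.of_zero fun x hx => sub_eq_zero.2 (e x hx.2)
    have b := sub_mem a (HT.Nul.anti (inter_subset_left (t := T)) (h2 i))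
    rw [map_sub, show bq h₁ h₂ - z - (SF.d 0 f - SF.d 0 (w i)) =
      bq h₁ h₂ - SF.d 0 f - (z - SF.d 0 (w i)) by abel]
    exact b
  have e := square (c := bq h₁ h₂ - z) (by rwa [map_sub]) hH hZ
    (k a₀ {x | h₁ x = -1} 0 fun x hx => by
      rw [map_zero]; exact (bq_zero (Or.inl (by rw [hx]; norm_num))).eq_of_nhds)
    (k a₁ {x | h₁ x = 1} (fq (stq h₂) stq_cd) fun x hx =>
      (bq_one (by rw [hx]; norm_num)).eq_of_nhds)
    (k b₀ {x | h₂ x = -1} 0 fun x hx => by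
      rw [map_zero]; exact (bq_zero (Or.inr (Or.inl (by rw [hx]; norm_num)))).eq_of_nhds)
    (k b₁ {x | h₂ x = 1} 0 fun x hx => by
      rw [map_zero]; exact (bq_zero (Or.inr (Or.inr (by rw [hx]; norm_num)))).eq_of_nhds)
    (fun y => ⟨⟨hZ _, (m0 y).1⟩, (m0 y).2⟩) (fun y => ⟨⟨hZ _, (m1 y).1⟩, (m1 y).2⟩)
    (fun s => ⟨⟨hZ _, (n0 s).1⟩, (n0 s).2⟩) (fun s => ⟨⟨hZ _, (n1 s).1⟩, (n1 s).2⟩)
  have c1 := h3 a₁ b₀ _ (hZ _) (m1 y₀).1 (n0 1).1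
  have c2 := h3 a₀ b₀ _ (hZ _) (m0 y₀).1 (n0 0).1
  have c3 := h3 a₁ b₁ _ (hZ _) (m1 y₁).1 (n1 1).1
  have c4 := h3 a₀ b₁ _ (hZ _) (m0 y₁).1 (n1 0).1
  have s0 : stq h₂ (H (1, y₀)) = 0 := stq_zero (by rw [(n0 1).2]; norm_num)
  have s1 : stq h₂ (H (1, y₁)) = 1 := stq_one (by rw [(n1 1).2]; norm_num)
  simp [fq, c1, c2, c3, c4, s0, s1] at e

open Classical in
theorem aq_col (hD : ∀ a, (∀ x ∈ D a, h₁ x = 1) ∨ ∀ x ∈ D a, h₁ x = -1 ∨ h₂ x = 1 ∨ h₂ x = -1) :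
    Col Z D 2 (SF.d 1 (bq h₁ h₂)).1 := by
  let w : ι → SF (Amb N) 0 := fun a => if ∀ x ∈ D a, h₁ x = 1 then fq (stq h₂) stq_cd else 0
  let z : Tot N ι := fun p m I => match p, m, I with
    | 0, 1, _ => (bq h₁ h₂).1
    | 1, 0, I => (w (I 0)).1
    | _, _, _ => 0
  have hz : ∀ p m I, Sm (z p m I) := fun p m I => by
    match p, m, I with
    | 0, 0, _ => exact Ctrl.sm_zero
    | 0, 1, _ => exact (bq h₁ h₂).2
    | 0, m + 2, _ => exact Ctrl.sm_zero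
    | 1, 0, I => exact (w (I 0)).2
    | 1, m + 1, _ => exact Ctrl.sm_zero
    | p + 2, _, _ => exact Ctrl.sm_zero
  refine ⟨Ctrl.one ι _, fun p m I => if p < 2 then 0 else -Dt z p m I, z, Ctrl.one_self _,
    Ctrl.one_ne _, fun p hp => funext fun m => funext fun I => if_pos hp,
    fun p m I => ⟨?_, hz p m I, ?_⟩⟩
  · dsimp only
    split_ifs
    · exact Ctrl.sm_zero
    · exact ContDiff.neg (Ctrl.sm_Dt hz p m I)
  · match p, m, I with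
    | p + 2, m, I =>
      rw [Ctrl.one_ne _ _ _ _ (Or.inl (by omega))]
      dsimp only
      rw [if_neg (by omega), sub_neg_eq_add, zero_add, sub_self]
      exact Ctrl.nul_zero
    | 0, 2, I =>
      rw [Ctrl.one_self]
      simpa [Dt, z, dd] using Ctrl.nul_zero
    | 0, 0, I =>
      rw [Ctrl.one_ne _ _ _ _ (Or.inr (by omega))]
      simpa [Dt] using Ctrl.nul_zero
    | 0, 1, I =>
      rw [Ctrl.one_ne _ _ _ _ (Or.inr (by omega))]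
      simpa [Dt, z, Ctrl.dd_zero] using Ctrl.nul_zero
    | 0, m + 3, I =>
      rw [Ctrl.one_ne _ _ _ _ (Or.inr (by omega))]
      simpa [Dt, z, Ctrl.dd_zero] using Ctrl.nul_zero
    | 1, 0, I =>
      rw [Ctrl.one_ne _ _ _ _ (Or.inl (by omega))]
      simpa [Dt, z] using Ctrl.nul_zero
    | 1, m + 2, I =>
      rw [Ctrl.one_ne _ _ _ _ (Or.inl (by omega))]
      intro γ O b1 b2 b3 u b4 v
      simp [Dt, z, Ctrl.dd_zero]
    | 1, 1, I =>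
      rw [Ctrl.one_ne _ _ _ _ (Or.inl (by omega))]
      have a : bq h₁ h₂ - SF.d 0 (w (I 0)) ∈ HT.Nul (strat Z D I) 1 := HT.Nul.of_zero fun x hx => by
        have hx' : x ∈ D (I 0) := mem_iInter.1 hx.2 0
        refine sub_eq_zero.2 ?_
        by_cases e : ∀ x ∈ D (I 0), h₁ x = 1
        · rw [show w (I 0) = _ from if_pos e]
          exact (bq_one (by rw [e x hx']; norm_num)).eq_of_nhds
        · rw [show w (I 0) = _ from if_neg e, map_zero]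
          refine (bq_zero ?_).eq_of_nhds
          rcases (hD _).resolve_left e x hx' with e | e | e <;> norm_num [e]
      intro γ O b1 b2 b3 u b4 v
      simpa [Dt, z, dd, sub_eq_add_neg, add_comm] using (nul_iff _).2 a γ O b1 b2 b3 u b4 v

end Pool.Agent.Cq
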