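import Pool.Agent.P.MP_65ad7c_ag.CqF
import Pool.Agent.P.MP_65ad7c_ag.CqV

/-! The invariant `2`-form on the quadric. -/

open Set Filter Topology Pool.Agent.PQ
open Pool.Agent.HT (SF Om)
open scoped ContDiff ComplexConjugate

noncomputable section
namespace Pool.Agent.Cq

/-- real part of a diagonal entry -/
def rq (i : Fin 4) : Amb 4 →L[ℝ] ℝ :=
  Complex.reCLM.comp ((EuclideanSpace.proj (i, i) : Amb 4 →L[ℂ] ℂ).restrictScalars ℝ)

theorem rq_ap (i : Fin 4) (x : Amb 4) : rq i x = (x (i, i)).re := rfl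

/-- the height on the first factor -/
def ha : Amb 4 →L[ℝ] ℝ := rq 2 + rq 3 - rq 0 - rq 1

/-- the height on the second factor -/
def hb : Amb 4 →L[ℝ] ℝ := rq 1 + rq 3 - rq 0 - rq 2

theorem ha_ap (x : Amb 4) : ha x = rq 2 x + rq 3 x - rq 0 x - rq 1 x := rfl

theorem hb_ap (x : Amb 4) : hb x = rq 1 x + rq 3 x - rq 0 x - rq 2 x := rfl

theorem tr_Zq {x : Amb 4} (hx : x ∈ Zq) : rq 0 x + rq 1 x + rq 2 x + rq 3 x = 1 := by
  obtain ⟨v, h0, -, rfl⟩ := hx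
  simp only [rq_ap, ← Complex.add_re, pr_ap, ← add_div]
  rw [← Fin.sum_univ_four fun k => v k * conj (v k), div_self (sum_ne h0), Complex.one_re]

theorem rq_zero {x : Amb 4} {i : Fin 4} (h : x (i, i) = 0) : rq i x = 0 := by
  rw [rq_ap, h, Complex.zero_re]

theorem h_D0 {x : Amb 4} (hx : x ∈ Dq 0) : ha x = 1 := by
  linarith [ha_ap x, tr_Zq hx.1, rq_zero (i := 0) hx.2.1, rq_zero (i := 1) hx.2.2]

theorem h_D1 {x : Amb 4} (hx : x ∈ Dq 1) : ha x = -1 := by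
  linarith [ha_ap x, tr_Zq hx.1, rq_zero (i := 2) hx.2.1, rq_zero (i := 3) hx.2.2]

theorem h_D2 {x : Amb 4} (hx : x ∈ Dq 2) : hb x = 1 := by
  linarith [hb_ap x, tr_Zq hx.1, rq_zero (i := 0) hx.2.1, rq_zero (i := 2) hx.2.2]

theorem h_D3 {x : Amb 4} (hx : x ∈ Dq 3) : hb x = -1 := by
  linarith [hb_ap x, tr_Zq hx.1, rq_zero (i := 1) hx.2.1, rq_zero (i := 3) hx.2.2]

theorem ha_L (x : Amb 4) : ha (pL (xr 3) x) = -ha x := by
  change rq 1 x + rq 0 x - rq 3 x - rq 2 x = _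
  linarith [ha_ap x]

theorem hb_L (x : Amb 4) : hb (pL (xr 3) x) = -hb x := by
  change rq 2 x + rq 0 x - rq 3 x - rq 1 x = _
  linarith [hb_ap x]

/-- a real square in the cone over the quadric -/
def sq (p : ℝ × Amb 4) : Fin 4 → ℂ := fun i =>
  (![(1 - p.1) * (1 - rq 0 p.2), (1 - p.1) * rq 0 p.2, p.1 * (1 - rq 0 p.2), p.1 * rq 0 p.2] i : ℝ)

theorem sq_ne (p : ℝ × Amb 4) : sq p ≠ 0 := fun h => by
  have a0 : (1 - p.1) * (1 - rq 0 p.2) = 0 := Complex.ofReal_eq_zero.1 (congrFun h 0)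
  have a1 : (1 - p.1) * rq 0 p.2 = 0 := Complex.ofReal_eq_zero.1 (congrFun h 1)
  have a2 : p.1 * (1 - rq 0 p.2) = 0 := Complex.ofReal_eq_zero.1 (congrFun h 2)
  have a3 : p.1 * rq 0 p.2 = 0 := Complex.ofReal_eq_zero.1 (congrFun h 3)
  linarith

theorem sq_cd : ContDiff ℝ ∞ fun p => proj (sq p) := by
  have t : ContDiff ℝ ∞ fun p : ℝ × Amb 4 => rq 0 p.2 := (rq 0).contDiff.comp contDiff_snd
  have c : ContDiff ℝ ∞ sq := contDiff_pi.2 fun i => Complex.ofRealCLM.contDiff.comp (by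
    fin_cases i
    exacts [(contDiff_const.sub contDiff_fst).mul (contDiff_const.sub t),
      (contDiff_const.sub contDiff_fst).mul t, contDiff_fst.mul (contDiff_const.sub t),
      contDiff_fst.mul t])
  exact contDiff_iff_contDiffAt.2 fun p => (HT.proj_contDiffAt (sq_ne p)).comp p c.contDiffAt

theorem sq_mem (p : ℝ × Amb 4) : proj (sq p) ∈ Zq := ⟨_, sq_ne p, by simp [sq]; ring, rfl⟩

theorem sq_D {p : ℝ × Amb 4} (a : Fin 4) (h1 : sq p (![0, 2, 0, 1] a) = 0)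
    (h2 : sq p (![1, 3, 2, 3] a) = 0) : proj (sq p) ∈ Dq a :=
  ⟨sq_mem p, (pr_diag (sq_ne p) _).2 h1, (pr_diag (sq_ne p) _).2 h2⟩

theorem wq : ∃ α : SF (Amb 4) 2, cl Zq α ∈ HT.Ac Zq (Zq \ ⋃ a, Dq a) 2 ∧ SF.d 2 α = 0 ∧
    SF.pull (pL (xr 3)) 2 α = α ∧ Col Zq Dq 2 α.1 ∧ ¬Col Zq Dq 3 α.1 := by
  refine ⟨SF.d 1 (bq ha hb), aq_ac compact_Zq fun a x hx => ?_, SF.d_d _, aq_pull ha_L hb_L,
    aq_col fun a => ?_, ?_⟩
  · fin_cases a
    exacts [.inl (h_D0 hx), .inr (.inl (h_D1 hx)), .inr (.inr (.inl (h_D2 hx))),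
      .inr (.inr (.inr (h_D3 hx)))]
  · fin_cases a
    exacts [.inl fun _ => h_D0, .inr fun _ hx => .inl (h_D1 hx),
      .inr fun _ hx => .inr (.inl (h_D2 hx)), .inr fun _ hx => .inr (.inr (h_D3 hx))]
  · have m0 : ∀ y, proj (sq (0, y)) ∈ Dq 1 := fun y => sq_D 1 (by simp [sq]) (by simp [sq])
    have m1 : ∀ y, proj (sq (1, y)) ∈ Dq 0 := fun y => sq_D 0 (by simp [sq]) (by simp [sq])
    have n0 : ∀ s, proj (sq (s, 0)) ∈ Dq 3 := fun s => sq_D 3 (by simp [sq]) (by simp [sq])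
    have n1 : ∀ s, proj (sq (s, EuclideanSpace.single (0, 0) 1)) ∈ Dq 2 := fun s =>
      sq_D 2 (by simp [sq, rq_ap]) (by simp [sq, rq_ap])
    exact aq_not sq_cd sq_mem (fun y => ⟨m0 y, h_D1 (m0 y)⟩) (fun y => ⟨m1 y, h_D0 (m1 y)⟩)
      (fun s => ⟨n0 s, h_D3 (n0 s)⟩) fun s => ⟨n1 s, h_D2 (n1 s)⟩

end Pool.Agent.Cq
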