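import Pool.Agent.P.MP_65ad7c_ag.CqE
import Pool.Agent.P.MP_65ad7c_ag.CqT
import Pool.Agent.P.MP_65ad7c_ag.CqW

/-! A model exists for the singular Betti moduli space of `ℤ²` with values in `SL_2`. -/

open Set Filter Topology Pool.Agent.PQ Matrix
open scoped ComplexConjugate

noncomputable section
namespace Pool.Agent.Cq

/-- the free abelian group of rank two -/
abbrev G2 := Multiplicative (ℤ × ℤ)

variable {Γ : Type} [CommGroup Γ] (ε : Γ ≃* G2)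

/-- the character with given values on the generators -/
def chr (a b : ℂ) (ha : a ≠ 0) (hb : b ≠ 0) : Γ →* ℂ where
  toFun γ := a ^ (ε γ).toAdd.1 * b ^ (ε γ).toAdd.2
  map_one' := by simp
  map_mul' γ δ := by
    simp only [map_mul, toAdd_mul, Prod.fst_add, Prod.snd_add, zpow_add₀ ha, zpow_add₀ hb]
    ring

theorem chr_ap {a b : ℂ} (ha : a ≠ 0) (hb : b ≠ 0) (γ : Γ) :
    chr ε a b ha hb γ = a ^ (ε γ).toAdd.1 * b ^ (ε γ).toAdd.2 := rfl

theorem chr_sur (χ : Γ →* ℂ) : ∃ a b ha hb, χ = chr ε a b ha hb := by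
  have n : ∀ γ, χ γ ≠ 0 := fun γ => ((Group.isUnit γ).map χ).ne_zero
  refine ⟨_, _, n (ε.symm (.ofAdd (1, 0))), n (ε.symm (.ofAdd (0, 1))),
    MonoidHom.ext fun γ => ?_⟩
  rw [chr_ap, ← map_zpow χ, ← map_zpow χ, ← map_mul]
  refine congrArg χ (ε.injective (Multiplicative.toAdd.injective ?_))
  simp

variable {G : Subgroup (GL (Fin 2) ℂ)} (hG : ∀ g, g ∈ G ↔ g.1.det = 1)

include ε hG in
theorem fn_dom : IsDomain (Fn Γ G) := by
  let R : ℂ × ℂ → PQ.Rep Γ G := fun p =>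
    dg hG (chr ε _ _ (Complex.exp_ne_zero p.1) (Complex.exp_ne_zero p.2))
  let B : Subalgebra ℂ (ℂ × ℂ → ℂ) :=
    { carrier := {F | AnalyticOnNhd ℂ F univ}
      mul_mem' := fun h h' => AnalyticOnNhd.mul h h'
      add_mem' := fun h h' => AnalyticOnNhd.add h h'
      algebraMap_mem' := fun _ => analyticOnNhd_const }
  have h0 : ∀ γ : Γ, (fun p : ℂ × ℂ =>
      chr ε _ _ (Complex.exp_ne_zero p.1) (Complex.exp_ne_zero p.2) γ) ∈ B := fun γ p _ =>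
    (analyticAt_fst.cexp'.zpow (Complex.exp_ne_zero _)).mul
      (analyticAt_snd.cexp'.zpow (Complex.exp_ne_zero _))
  have h1 : ∀ f : Fn Γ G, AnalyticOnNhd ℂ (fun p => f.1 (R p)) univ := fn_mem R B fun γ i j => by
    fin_cases i <;> fin_cases j
    · exact h0 γ
    · exact zero_mem B
    · exact zero_mem B
    · exact h0 γ⁻¹
  have h2 : ∀ f : Fn Γ G, (∀ p, f.1 (R p) = 0) → f = 0 := fun f hf => fn_ext hG fun χ => by
    obtain ⟨a, b, ha, hb, rfl⟩ := chr_sur ε χ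
    obtain ⟨z, rfl⟩ : ∃ z, Complex.exp z = a := ⟨_, Complex.exp_log ha⟩
    obtain ⟨w, rfl⟩ : ∃ z, Complex.exp z = b := ⟨_, Complex.exp_log hb⟩
    exact hf (z, w)
  have : Nontrivial (Fn Γ G) := (eva (R 0)).toRingHom.domain_nontrivial
  have : NoZeroDivisors (Fn Γ G) := ⟨fun {f g} h => or_iff_not_imp_left.2 fun hf => by
    obtain ⟨p, hp⟩ := not_forall.1 fun e => hf (h2 f e)
    refine h2 g fun q => (h1 g).eqOn_zero_of_preconnected_of_eventuallyEq_zero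
      isPreconnected_univ (mem_univ p) ?_ (mem_univ q)
    filter_upwards [(h1 f p trivial).continuousAt.eventually_ne hp] with x hx
    exact (mul_eq_zero.1 (congrFun (congrArg Subtype.val h) (R x))).resolve_left hx⟩
  exact NoZeroDivisors.to_isDomain _

/-- the open part of the quadric -/
abbrev Xq := ↥(Zq \ ⋃ a, Dq a)

theorem xq_eq (u : Xq) : ca u.1 ≠ 0 ∧ cb u.1 ≠ 0 ∧ proj (sg (ca u.1) (cb u.1)) = u.1 ∧
    u.1 (0, 0) ≠ 0 := by
  obtain ⟨a, b, ha, hb, e⟩ := mem_X.1 u.2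
  rw [← e, ca_sg, cb_sg]
  exact ⟨ha, hb, rfl, fun h => one_ne_zero ((pr_diag (sg_ne a b) 0).1 h)⟩

/-- the character of a point -/
def cx (u : Xq) : Γ →* ℂ := chr ε _ _ (xq_eq u).1 (xq_eq u).2.1

theorem ca_cont : Continuous fun u : Xq => ca u.1 :=
  ((en_cont _).comp continuous_subtype_val).div ((en_cont _).comp continuous_subtype_val)
    fun u => (xq_eq u).2.2.2

theorem cb_cont : Continuous fun u : Xq => cb u.1 :=
  ((en_cont _).comp continuous_subtype_val).div ((en_cont _).comp continuous_subtype_val)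
    fun u => (xq_eq u).2.2.2

theorem cx_cont (γ : Γ) : Continuous fun u : Xq => cx ε u γ :=
  (ca_cont.zpow₀ _ fun u => Or.inl (xq_eq u).1).mul
    (cb_cont.zpow₀ _ fun u => Or.inl (xq_eq u).2.1)

theorem cx_a (u : Xq) : cx ε u (ε.symm (.ofAdd (1, 0))) = ca u.1 := by simp [cx, chr_ap]

theorem cx_b (u : Xq) : cx ε u (ε.symm (.ofAdd (0, 1))) = cb u.1 := by simp [cx, chr_ap]

theorem cx_inv {u v : Xq} : (∀ γ, cx ε v γ = cx ε u γ⁻¹) ↔ v.1 = pL (xr 3) u.1 := by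
  rw [← (xq_eq u).2.2.1, pL_sg (xq_eq u).1 (xq_eq u).2.1]
  constructor
  · intro h
    rw [← (xq_eq v).2.2.1, ← cx_a ε, ← cx_b ε, h, h, map_inv, map_inv, cx_a, cx_b]
  · intro h γ
    rw [map_inv, cx, cx, chr_ap, chr_ap, h, ca_sg, cb_sg, mul_inv, _root_.inv_zpow, _root_.inv_zpow]

variable (Γ G) in
/-- the points of the Betti moduli space -/
def Yq : Set (Fn Γ G → ℂ) := {y | ∃ φ : Fn Γ G →ₐ[ℂ] ℂ, ⇑φ = y}

/-- the quotient map -/
def pq : C(Xq, Yq Γ G) where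
  toFun u := ⟨eva (dg hG (cx ε u)), _, rfl⟩
  continuous_toFun := (continuous_pi fun f => fn_mem (fun u => dg hG (cx ε u)) continuousSubalgebra
    (fun γ i j => by
      fin_cases i <;> fin_cases j
      · exact cx_cont ε γ
      · exact continuous_const (y := 0)
      · exact continuous_const (y := 0)
      · exact cx_cont ε γ⁻¹) f).subtype_mk _

theorem pq_fib (u v : Xq) : pq ε hG u = pq ε hG v ↔ v.1 = u.1 ∨ v.1 = pL (xr 3) u.1 := by
  constructor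
  · intro h
    refine (eva_eq hG fun f => (congrFun (congrArg Subtype.val h) f).symm).imp (fun e => ?_)
      (cx_inv ε).1
    rw [← (xq_eq v).2.2.1, ← cx_a ε, ← cx_b ε, e, e, cx_a, cx_b, (xq_eq u).2.2.1]
  · rintro (h | h)
    · rw [Subtype.ext h]
    · exact Subtype.ext (funext fun f => (fn_weyl hG f ((cx_inv ε).2 h)).symm)

theorem ann_bd {a : ℂ} (ha : a ≠ 0) {R : ℝ} (h : ‖a + a⁻¹‖ ≤ R) :
    ‖a‖ ≤ R + 1 ∧ (R + 1)⁻¹ ≤ ‖a‖ := by
  have h0 := norm_pos_iff.2 ha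
  have h1 : ‖a‖ ≤ R + ‖a‖⁻¹ := by
    have := norm_sub_le (a + a⁻¹) a⁻¹
    rw [add_sub_cancel_right, norm_inv] at this
    linarith
  have h2 : ‖a‖⁻¹ ≤ R + ‖a‖ := by
    have := norm_sub_le (a + a⁻¹) a
    rw [add_sub_cancel_left, norm_inv] at this
    linarith
  have h3 := (norm_nonneg _).trans h
  rcases le_total ‖a‖ 1 with e | e
  · exact ⟨by linarith, inv_le_of_inv_le₀ h0 (by linarith)⟩
  · exact ⟨by linarith [inv_le_one_of_one_le₀ e],
      (inv_le_one_of_one_le₀ (by linarith)).trans e⟩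

theorem pq_quot : IsQuotientMap (pq ε hG) := by
  let g : Yq Γ G → ℂ × ℂ := fun y =>
    (y.1 (tra G (ε.symm (.ofAdd (1, 0)))), y.1 (tra G (ε.symm (.ofAdd (0, 1)))))
  have hg : Continuous g := ((continuous_apply _).comp continuous_subtype_val).prodMk
    ((continuous_apply _).comp continuous_subtype_val)
  have e : ∀ u, g (pq ε hG u) = (ca u.1 + (ca u.1)⁻¹, cb u.1 + (cb u.1)⁻¹) := fun u =>
    Prod.ext ((tra_dg hG _ _).trans (by rw [map_inv, cx_a]))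
      ((tra_dg hG _ _).trans (by rw [map_inv, cx_b]))
  have hp : IsProperMap (g ∘ pq ε hG) := by
    refine isProperMap_iff_isCompact_preimage.2 ⟨hg.comp (pq ε hG).continuous, fun K hK => ?_⟩
    obtain ⟨R, hR⟩ := hK.isBounded.exists_norm_le
    have hR0 : ∀ a : ℂ, a ∈ Metric.closedBall (0 : ℂ) (|R| + 1) ∩ {a | (|R| + 1)⁻¹ ≤ ‖a‖} →
        a ≠ 0 := fun a ha => norm_pos_iff.1 (lt_of_lt_of_le (by positivity) ha.2)
    have hC : IsCompact (Metric.closedBall (0 : ℂ) (|R| + 1) ∩ {a | (|R| + 1)⁻¹ ≤ ‖a‖}) :=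
      (isCompact_closedBall _ _).inter_right (isClosed_le continuous_const continuous_norm)
    refine (IsInducing.subtypeVal.isCompact_preimage' ((hC.prod hC).image sg_cont) ?_
      ).of_isClosed_subset (hK.isClosed.preimage (hg.comp (pq ε hG).continuous)) fun u hu => ?_
    · rintro _ ⟨p, hp, rfl⟩
      exact ⟨⟨_, mem_X.2 ⟨_, _, hR0 _ hp.1, hR0 _ hp.2, rfl⟩⟩, rfl⟩
    · have h1 := (hR _ hu).trans (le_abs_self R)
      rw [Function.comp_apply, e] at h1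
      have h2 := ann_bd (xq_eq u).1 ((norm_fst_le _).trans h1)
      have h3 := ann_bd (xq_eq u).2.1 ((norm_snd_le _).trans h1)
      exact ⟨(ca u.1, cb u.1), ⟨⟨mem_closedBall_zero_iff.2 h2.1, h2.2⟩,
        mem_closedBall_zero_iff.2 h3.1, h3.2⟩, (xq_eq u).2.2.1⟩
  refine (isProperMap_of_comp_of_t2 (pq ε hG).continuous hg hp).isClosedMap.isQuotientMap
    (pq ε hG).continuous ?_
  rintro ⟨_, φ, rfl⟩
  obtain ⟨χ, rfl⟩ := pt_eq hG φ
  obtain ⟨a, b, ha, hb, rfl⟩ := chr_sur ε χ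
  refine ⟨⟨_, mem_X.2 ⟨a, b, ha, hb, rfl⟩⟩, Subtype.ext (congrArg (fun χ => ⇑(eva (dg hG χ)))
    (MonoidHom.ext fun γ => ?_))⟩
  rw [cx, chr_ap, chr_ap, ca_sg, cb_sg]

theorem fix_eq : Subtype.val '' {u : Xq | pL (xr 3) u.1 = u.1} =
    (fun p : ℂ × ℂ => proj (sg p.1 p.2)) '' (({1, -1} : Set ℂ) ×ˢ ({1, -1} : Set ℂ)) := by
  ext x
  constructor
  · rintro ⟨u, hu, rfl⟩
    have h2 := (cx_inv (MulEquiv.refl G2)).2 (Eq.symm hu)
    have h3 : ∀ γ, cx (MulEquiv.refl G2) u γ ∈ ({1, -1} : Set ℂ) := fun γ =>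
      mul_self_eq_one_iff.1 (by
        nth_rw 1 [h2]
        rw [← map_mul, inv_mul_cancel, map_one])
    exact ⟨(ca u.1, cb u.1), ⟨cx_a (.refl G2) u ▸ h3 _, cx_b (.refl G2) u ▸ h3 _⟩, (xq_eq u).2.2.1⟩
  · rintro ⟨⟨a, b⟩, ⟨ha, hb⟩, rfl⟩
    have h : ∀ a ∈ ({1, -1} : Set ℂ), a ≠ 0 ∧ a⁻¹ = a := by
      rintro _ (rfl | rfl) <;> simp
    exact ⟨⟨_, mem_X.2 ⟨a, b, (h a ha).1, (h b hb).1, rfl⟩⟩,
      (pL_sg (h a ha).1 (h b hb).1).trans
        (congrArg₂ (fun a b => proj (sg a b)) (h a ha).2 (h b hb).2), rfl⟩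

theorem fix_card : {u : Xq | pL (xr 3) u.1 = u.1}.ncard = 4 := by
  rw [← ncard_image_of_injective _ Subtype.val_injective, fix_eq, ncard_image_of_injective,
    ncard_prod, ncard_pair (by norm_num)]
  exact fun p q e => Prod.ext ((ca_sg _ _).symm.trans ((congrArg ca e).trans (ca_sg _ _)))
    ((cb_sg _ _).symm.trans ((congrArg cb e).trans (cb_sg _ _)))

theorem pq_cj (u v : Xq) (h : v.1 = cj u.1) : IsS (pq ε hG u).1 (pq ε hG v).1 := by
  intro f f' hf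
  have h1 : ∀ γ, cx ε v γ = conj (cx ε u γ) := fun γ => by
    rw [cx, cx, chr_ap, chr_ap, h, ← (xq_eq u).2.2.1, cj_sg, ca_sg, cb_sg, ca_sg, cb_sg, map_mul,
      map_zpow₀, map_zpow₀]
  have h2 := hf (dg hG (cx ε u)) (dg hG ((cx ε v).comp invMonoidHom)) fun γ => by
    ext i j
    fin_cases i <;> fin_cases j <;> simp [mat_dg, h1]
  change f.1 _ = conj (f'.1 _)
  rw [h2, Complex.conj_conj]
  exact (fn_weyl hG f fun _ => rfl).symm

include ε hG in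
theorem comp_iff (Y : Set (Fn Γ G → ℂ)) : IsComp Y ↔ Y = Yq Γ G := by
  have := fn_dom ε hG
  have e : ∀ y : Fn Γ G → ℂ, ((∃ φ : Fn Γ G →ₐ[ℂ] ℂ, ⇑φ = y) ∧
      ∀ f ∈ (⊥ : Ideal (Fn Γ G)), y f = 0) ↔ y ∈ Yq Γ G := fun y =>
    and_iff_left_of_imp fun ⟨φ, h⟩ f hf => by rw [← h, show f = 0 from hf, map_zero]
  rw [IsComp, IsDomain.minimalPrimes_eq_singleton_bot]
  simp only [mem_singleton_iff, exists_eq_left, e]
  exact Set.ext_iff.symm

include ε hG in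
theorem model_q {Y : Type} [TopologicalSpace Y] (e : Y → Fn Γ G → ℂ) (he : IsEmbedding e)
    (hY : IsComp (range e)) : ∃ M : Model fun y y' => IsS (e y) (e y'),
      M.R.d = 2 ∧ (M.U 2 : Set Y)ᶜ.ncard = 4 ∧ M.W 2 4 ≠ M.W 2 3 := by
  let η : Yq Γ G ≃ₜ Y := (he.toHomeomorph.trans (.setCongr ((comp_iff ε hG _).1 hY))).symm
  have h0 : ∀ y, e (η y) = y.1 := fun y => congrArg Subtype.val (η.symm_apply_apply y)
  let π : C(Xq, Y) := (η : C(_, _)).comp (pq ε hG)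
  have fib : ∀ u v, π u = π v ↔ v.1 = u.1 ∨ v.1 = pL (xr 3) u.1 := fun u v =>
    η.injective.eq_iff.trans (pq_fib ε hG u v)
  obtain ⟨M, ⟨-, h1, -, -, -, -, h2⟩, h3⟩ := model_quow (π := π) (fun y y' => IsS (e y) (e y'))
    two_pos snc_q4 (pA (xr 3)) (pA_pA (xr_xr 3)) (pL_pL (xr_xr 3)) (pr_pA (xr_xr 3)) (xr_Zq 3)
    xr_Dq (η.isQuotientMap.comp (pq_quot ε hG)) fib
    (finite_of_ncard_ne_zero (by rw [fix_card]; decide)) cj_Zq (fun a => ⟨a, cj_Dq a⟩)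
    fun u v h => (h0 _).symm ▸ (h0 _).symm ▸ pq_cj ε hG u v h
  obtain ⟨α, a1, a2, a3, a4, a5⟩ := wq
  refine ⟨M, h1, ?_, h3 1 3 2 rfl α a1 a2 a3 a4 a5⟩
  rw [h2, compl_compl, InjOn.ncard_image, fix_card]
  exact fun u hu v _ h => (Subtype.ext (((fib u v).1 h).elim id fun h => h.trans hu)).symm

omit [CommGroup Γ] ε hG in
theorem ctrl_sing [Group Γ] (ε : Γ ≃* Multiplicative (ℤ × ℤ)) (G : Subgroup (GL (Fin 2) ℂ))
    (hG : ∀ g, g ∈ G ↔ g.1.det = 1) : IsRed G ∧ (∃ Y : Set (Fn Γ G → ℂ), IsComp Y) ∧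
      ∀ (Y : Type) [TopologicalSpace Y] (e : Y → Fn Γ G → ℂ), IsEmbedding e → IsComp (range e) →
        ∃ M : Model fun y y' => IsS (e y) (e y'), M.R.d = 2 ∧ (M.U 2 : Set Y)ᶜ.ncard = 4 ∧
          M.W 2 4 ≠ M.W 2 3 := by
  let _ : CommGroup Γ := { ‹Group Γ› with
    mul_comm := fun a b => ε.injective (by rw [map_mul, map_mul, mul_comm]) }
  refine ⟨⟨⟨{MvPolynomial.X (0, 0) * MvPolynomial.X (1, 1) -
    MvPolynomial.X (0, 1) * MvPolynomial.X (1, 0) - 1}, fun g => by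
      simp [hG, det_fin_two, sub_eq_zero]⟩, fun g hg => ⟨star g, (hG _).2 ?_, rfl⟩⟩,
    ⟨_, (comp_iff ε hG _).2 rfl⟩, fun Y _ e he hY => model_q ε hG e he hY⟩
  change (g.1ᴴ).det = 1
  rw [det_conjTranspose, (hG g).1 hg, star_one]

open Pool.Agent.PW (EC IsKahler) in
open scoped Manifold ContDiff in
omit [CommGroup Γ] ε hG in
theorem ctrl_ell (G : Subgroup (GL (Fin 2) ℂ))
    (hG : ∀ g, g ∈ G ↔ g.1 0 0 * g.1 1 1 - g.1 0 1 * g.1 1 0 = 1) : IsRed G ∧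
      ∃ (X : Type) (_ : TopologicalSpace X) (_ : T2Space X) (_ : CompactSpace X)
        (_ : ConnectedSpace X) (_ : ChartedSpace (EC 1) X) (_ : IsManifold 𝓘(ℂ, EC 1) ω X)
        (x₀ : X) (ε : FundamentalGroup X x₀ ≃ ℤ × ℤ),
        IsKahler 1 X ∧ (∀ a b, ε (a * b) = ε a + ε b) ∧
        (∃ Y : Set (Fn (FundamentalGroup X x₀) G → ℂ), IsComp Y) ∧
        ∀ (Y : Type) [TopologicalSpace Y] (e : Y → Fn (FundamentalGroup X x₀) G → ℂ),
          IsEmbedding e → IsComp (range e) → ∃ M : Model fun y y' => IsS (e y) (e y'),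
            M.R.d = 2 ∧ Nonempty (↥(M.U 2 : Set Y)ᶜ ≃ Fin 4) ∧ M.W 2 4 ≠ M.W 2 3 := by
  obtain ⟨X, i1, i2, i3, i4, i5, i6, hK, h⟩ := torus
  obtain ⟨x₀⟩ : Nonempty X := inferInstance
  obtain ⟨ε⟩ := h x₀
  obtain ⟨h1, h2, h3⟩ := ctrl_sing ε G fun g => by rw [hG, det_fin_two]
  refine ⟨h1, X, i1, i2, i3, i4, i5, i6, x₀, ε.toEquiv.trans Multiplicative.toAdd, hK,
    fun a b => congrArg Multiplicative.toAdd (map_mul ε a b), h2, fun Y _ e he hY => ?_⟩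
  obtain ⟨M, a1, a2, a3⟩ := h3 Y e he hY
  exact ⟨M, a1, ⟨Nat.equivFinOfCardPos (by rw [Nat.card_coe_set_eq, a2]; decide) |>.trans
    (finCongr (by rw [Nat.card_coe_set_eq, a2]))⟩, a3⟩

end Pool.Agent.Cq
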