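import Pool.Agent.P.MP_65ad7c_ag.HDefs

/-! A control example: the Fermat cubic, its charts and its holomorphic one-form. -/

open Set Filter Topology
open scoped ContDiff ComplexConjugate
open Pool.Agent.HT (Amb proj Form)

noncomputable section
namespace Pool.Agent.Ctrl

/-- The Fermat cubic. -/
def Zc : Set (Amb 3) :=
  {P | ∃ v : Fin 3 → ℂ, v ≠ 0 ∧ v 0 ^ 3 + v 1 ^ 3 + v 2 ^ 3 = 0 ∧ proj v = P}

def nn (v : Fin 3 → ℂ) : ℂ := ∑ k, v k * conj (v k)

theorem nn_ne {v : Fin 3 → ℂ} (h : v ≠ 0) : nn v ≠ 0 := by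
  intro h0
  apply h
  have h1 : ∑ k, Complex.normSq (v k) = 0 := by
    have : ((∑ k, Complex.normSq (v k) : ℝ) : ℂ) = 0 := by
      rw [← h0, nn]; push_cast; simp [Complex.mul_conj]
    exact_mod_cast this
  funext k
  exact Complex.normSq_eq_zero.1
    ((Finset.sum_eq_zero_iff_of_nonneg fun i _ => Complex.normSq_nonneg (v i)).1 h1 k
      (Finset.mem_univ k))

theorem proj_ap (v : Fin 3 → ℂ) (a b : Fin 3) : proj v (a, b) = v a * conj (v b) / nn v := rfl

theorem proj_smul {c : ℂ} (hc : c ≠ 0) (v : Fin 3 → ℂ) : proj (c • v) = proj v := by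
  have hc' : conj c ≠ 0 := by simpa using hc
  have e : nn (c • v) = c * conj c * nn v := by
    simp only [nn, Finset.mul_sum, Pi.smul_apply, smul_eq_mul, map_mul]
    exact Finset.sum_congr rfl fun k _ => by ring
  ext ⟨a, b⟩
  rw [proj_ap, proj_ap, e]
  simp only [Pi.smul_apply, smul_eq_mul, map_mul]
  by_cases h : nn v = 0
  · simp [h]
  · field_simp

theorem conj_cd : ContDiff ℝ ∞ fun z : ℂ => conj z := Complex.conjCLE.contDiff

theorem cf_cd (b : Fin 3) {v : Fin 3 → ℂ} (h : v ≠ 0) :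
    ContDiffAt ℝ ∞ (fun u : Fin 3 → ℂ => conj (u b) / nn u) v := by
  have h1 : ∀ k : Fin 3, ContDiff ℝ ∞ fun u : Fin 3 → ℂ => u k := fun k => contDiff_apply ℝ ℂ k
  have h2 : ContDiff ℝ ∞ nn := ContDiff.sum fun k _ => (h1 k).mul (conj_cd.comp (h1 k))
  have h3 : ContDiffAt ℝ ∞ (fun u => (nn u)⁻¹) v := h2.contDiffAt.inv (nn_ne h)
  simp only [div_eq_mul_inv]
  exact (conj_cd.comp (h1 b)).contDiffAt.mul h3

theorem proj_cd {v : Fin 3 → ℂ} (h : v ≠ 0) : ContDiffAt ℝ ∞ (proj : (Fin 3 → ℂ) → Amb 3) v := by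
  rw [contDiffAt_piLp]
  rintro ⟨a, b⟩
  have := (contDiff_apply ℝ ℂ a (n := ∞)).contDiffAt.mul (cf_cd b h)
  simpa only [proj_ap, mul_div_assoc] using this

theorem compact_Zc : IsCompact Zc := by
  have h1 : IsCompact (Metric.sphere (0 : Fin 3 → ℂ) 1 ∩
      {v | v 0 ^ 3 + v 1 ^ 3 + v 2 ^ 3 = 0}) :=
    (isCompact_sphere _ _).inter_right (isClosed_eq (by fun_prop) continuous_const)
  have h2 := h1.image_of_continuousOn (f := proj) fun v hv =>
    (proj_cd (v := v) (by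
      rintro rfl
      simpa using hv.1)).continuousAt.continuousWithinAt
  have e : Zc = proj '' (Metric.sphere (0 : Fin 3 → ℂ) 1 ∩
      {v | v 0 ^ 3 + v 1 ^ 3 + v 2 ^ 3 = 0}) := by
    ext P
    constructor
    · rintro ⟨v, h0, hF, rfl⟩
      have hn : ‖v‖ ≠ 0 := norm_ne_zero_iff.2 h0
      have hc : ((‖v‖ : ℂ))⁻¹ ≠ 0 := inv_ne_zero (by exact_mod_cast hn)
      refine ⟨((‖v‖ : ℂ))⁻¹ • v, ⟨?_, ?_⟩, proj_smul hc v⟩
      · simp [norm_smul, hn]
      · simp only [mem_ofPred_eq, Pi.smul_apply, smul_eq_mul, mul_pow]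
        linear_combination ((‖v‖ : ℂ))⁻¹ ^ 3 * hF
    · rintro ⟨v, ⟨h0, hF⟩, rfl⟩
      refine ⟨v, ?_, hF, rfl⟩
      rintro rfl
      simp at h0
  rw [e]
  exact h2

/-- an entry, as a real linear map -/
def en (p : Fin 3 × Fin 3) : Amb 3 →L[ℝ] ℂ :=
  (EuclideanSpace.proj p : Amb 3 →L[ℂ] ℂ).restrictScalars ℝ

theorem en_ap (p : Fin 3 × Fin 3) (P : Amb 3) : en p P = P p := rfl

theorem en_cd (p : Fin 3 × Fin 3) : ContDiff ℝ ∞ fun P : Amb 3 => P p := (en p).contDiff

def den (P : Amb 3) : ℂ :=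
  ∑ i, P (i, i) * conj (P (i, i)) + (1 - ∑ i, P (i, i)) * conj (1 - ∑ i, P (i, i))

theorem den_ne (P : Amb 3) : den P ≠ 0 := by
  intro h0
  have h1 : ∑ i, Complex.normSq (P (i, i)) + Complex.normSq (1 - ∑ i, P (i, i)) = 0 := by
    have : ((∑ i, Complex.normSq (P (i, i)) + Complex.normSq (1 - ∑ i, P (i, i)) : ℝ) : ℂ) = 0 := by
      rw [← h0, den]; push_cast; simp only [Complex.mul_conj]
    exact_mod_cast this
  have h2 : 0 ≤ ∑ i, Complex.normSq (P (i, i)) :=
    Finset.sum_nonneg fun i _ => Complex.normSq_nonneg _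
  have h3 := Complex.normSq_nonneg (1 - ∑ i, P (i, i))
  have h4 : ∀ i, P (i, i) = 0 := fun i => Complex.normSq_eq_zero.1
    ((Finset.sum_eq_zero_iff_of_nonneg fun i _ => Complex.normSq_nonneg (P (i, i))).1
      (by linarith) i (Finset.mem_univ i))
  simp [h4] at h1

theorem den_cd : ContDiff ℝ ∞ den := by
  have h : ContDiff ℝ ∞ fun P : Amb 3 => 1 - ∑ i, P (i, i) :=
    contDiff_const.sub (ContDiff.sum fun i _ => en_cd _)
  exact (ContDiff.sum fun i _ => (en_cd (i, i)).mul (conj_cd.comp (en_cd (i, i)))).add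
    (h.mul (conj_cd.comp h))

def lin (P : Amb 3) : Amb 3 →L[ℝ] ℂ :=
  (den P)⁻¹ • ∑ i : Fin 3, (P (i + 1, i) • en (i + 2, i) - P (i + 2, i) • en (i + 1, i))

theorem lin_cd : ContDiff ℝ ∞ lin :=
  (den_cd.inv den_ne).smul (ContDiff.sum fun _ _ =>
    ((en_cd _).smul contDiff_const).sub ((en_cd _).smul contDiff_const))

/-- The holomorphic one-form of the cubic, extended to the ambient space. -/
def al : Form (Amb 3) 1 := fun P =>
  ContinuousAlternatingMap.ofSubsingletonLIE (𝕜 := ℝ) (0 : Fin 1) (lin P)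

theorem al_ap (P : Amb 3) (v : Fin 1 → Amb 3) : al P v = lin P (v 0) := rfl

theorem al_cd : ContDiff ℝ ∞ al :=
  (ContinuousAlternatingMap.ofSubsingletonLIE (𝕜 := ℝ) (E := Amb 3) (F := ℂ)
    (0 : Fin 1)).contDiff.comp lin_cd

/-- The value of the form along a curve in the cone. -/
theorem lin_proj {f : ℂ → Fin 3 → ℂ} {t : ℂ} (hf : DifferentiableAt ℝ f t) (h0 : f t ≠ 0)
    (s o : ℂ) (h : ∀ i : Fin 3, f t (i + 1) * fderiv ℝ f t s (i + 2) -
      f t (i + 2) * fderiv ℝ f t s (i + 1) = f t i ^ 2 * o) :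
    lin (proj (f t)) (fderiv ℝ (proj ∘ f) t s) = o := by
  have hp : DifferentiableAt ℝ (proj ∘ f) t :=
    ((proj_cd h0).differentiableAt (by simp)).comp t hf
  have hc : ∀ b, DifferentiableAt ℝ (fun y => conj (f y b) / nn (f y)) t := fun b =>
    ((cf_cd b h0).differentiableAt (by simp)).comp t hf
  have ha : ∀ a, HasFDerivAt (fun y => f y a)
      ((ContinuousLinearMap.proj a).comp (fderiv ℝ f t)) t := fun a =>
    (ContinuousLinearMap.proj (R := ℝ) (φ := fun _ : Fin 3 => ℂ) a).hasFDerivAt.comp t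
      hf.hasFDerivAt
  have key : ∀ a b, fderiv ℝ (proj ∘ f) t s (a, b) =
      f t a * fderiv ℝ (fun y => conj (f y b) / nn (f y)) t s +
        conj (f t b) / nn (f t) * fderiv ℝ f t s a := by
    intro a b
    have e1 := ((en (a, b)).hasFDerivAt.comp t hp.hasFDerivAt).fderiv
    have e2 := ((ha a).mul (hc b).hasFDerivAt).fderiv
    have e3 : (en (a, b)) ∘ proj ∘ f = (fun y => f y a) * fun y => conj (f y b) / nn (f y) := by
      funext y
      simp only [Function.comp, en_ap, proj_ap, Pi.mul_apply, mul_div_assoc]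
    rw [e3, e2] at e1
    have := DFunLike.congr_fun e1 s
    simpa [en_ap] using this.symm
  have hn := nn_ne h0
  have hd := den_ne (proj (f t))
  have htr : 1 - ∑ i, proj (f t) (i, i) = 0 := by
    simp only [proj_ap, ← Finset.sum_div]
    rw [show ∑ i, f t i * conj (f t i) = nn (f t) from rfl, div_self hn, sub_self]
  have hcn : conj (nn (f t)) = nn (f t) := by
    simp only [nn, map_sum, map_mul, Complex.conj_conj]
    exact Finset.sum_congr rfl fun k _ => mul_comm _ _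
  have e : den (proj (f t)) = ∑ i, (conj (f t i) / nn (f t)) ^ 2 * f t i ^ 2 := by
    rw [den, htr, zero_mul, add_zero]
    refine Finset.sum_congr rfl fun i _ => ?_
    simp only [proj_ap, map_div₀, map_mul, Complex.conj_conj, hcn]
    ring
  simp only [lin, smul_apply, sum_apply,
    sub_apply, en_ap, smul_eq_mul, key]
  rw [inv_mul_eq_iff_eq_mul₀ hd, e, Finset.sum_mul]
  refine Finset.sum_congr rfl fun i _ => ?_
  simp only [proj_ap]
  linear_combination (conj (f t i) / nn (f t)) ^ 2 * h i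

end Pool.Agent.Ctrl
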