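import Pool.Agent.P.MP_65ad7c_ag.CtA

/-! Charts of the Fermat cubic. -/

open Set Filter Topology
open scoped ContDiff ComplexConjugate
open Pool.Agent.HT (Amb proj Form)

noncomputable section
namespace Pool.Agent.Ctrl

/-- A chart of the cubic with a smooth inverse, and the coefficient of the form in it. -/
structure Ch (O : Set ℂ) (f : ℂ → Fin 3 → ℂ) (φ : ℂ → ℂ) (τ : Amb 3 → ℂ) (W : Set (Amb 3)) :
    Prop where
  oO : IsOpen O
  oW : IsOpen W
  hol : DifferentiableOn ℂ f O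
  ne : ∀ t ∈ O, f t ≠ 0
  mem : ∀ t ∈ O, proj (f t) ∈ Zc ∩ W
  inv : ∀ t ∈ O, τ (proj (f t)) = t
  sur : ∀ P ∈ Zc ∩ W, τ P ∈ O ∧ proj (f (τ P)) = P
  sm : ContDiffOn ℝ ∞ τ W
  imm : ∀ t ∈ O, ∀ s c : ℂ, fderiv ℂ f t s = c • f t → s = 0
  phol : DifferentiableOn ℂ φ O
  pne : ∀ t ∈ O, φ t ≠ 0
  val : ∀ t ∈ O, ∀ s : ℂ, lin (proj (f t)) (fderiv ℝ (proj ∘ f) t s) = φ t * s
  zer : ∃ i, ∀ t ∈ O, f t i = t ∧ ∀ a, f t a = 0 ↔ a = i ∧ t = 0

theorem cube_one {z : ℂ} (h : z ^ 3 = 1) (h0 : 0 < z.re) : z = 1 := by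
  have h1 : (z - 1) * (z ^ 2 + z + 1) = 0 := by linear_combination h
  rcases mul_eq_zero.1 h1 with h2 | h2
  · exact sub_eq_zero.1 h2
  · exfalso
    have a := congrArg Complex.re h2
    have b := congrArg Complex.im h2
    simp [pow_two] at a b
    have c : z.im * (2 * z.re + 1) = 0 := by linarith
    rcases mul_eq_zero.1 c with c | c
    · rw [c] at a
      nlinarith
    · linarith

theorem cyc (v : Fin 3 → ℂ) (i : Fin 3) :
    v 0 ^ 3 + v 1 ^ 3 + v 2 ^ 3 = v i ^ 3 + v (i + 1) ^ 3 + v (i + 2) ^ 3 := by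
  fin_cases i
  · rfl
  · show _ = v 1 ^ 3 + v 2 ^ 3 + v 0 ^ 3
    ring
  · show _ = v 2 ^ 3 + v 0 ^ 3 + v 1 ^ 3
    ring

theorem two_ne {v : Fin 3 → ℂ} (h0 : v ≠ 0) (hF : v 0 ^ 3 + v 1 ^ 3 + v 2 ^ 3 = 0) :
    ∃ i, v i ≠ 0 ∧ v (i + 1) ≠ 0 := by
  by_contra hc
  push Not at hc
  have a : v 0 ≠ 0 → v 1 = 0 := hc 0
  have b : v 1 ≠ 0 → v 2 = 0 := hc 1
  have c : v 2 ≠ 0 → v 0 = 0 := hc 2
  apply h0
  have k : v 0 = 0 ∧ v 1 = 0 ∧ v 2 = 0 := by
    by_cases x : v 0 = 0 <;> by_cases y : v 1 = 0 <;> by_cases z : v 2 = 0 <;> simp_all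
  funext m
  fin_cases m
  exacts [k.1, k.2.1, k.2.2]

theorem ratio {u : Fin 3 → ℂ} (h0 : u ≠ 0) {i : Fin 3} (hi : u i ≠ 0) (a : Fin 3) :
    proj u (a, i) / proj u (i, i) = u a / u i := by
  have hn := nn_ne h0
  have hc : conj (u i) ≠ 0 := by simpa using hi
  simp only [proj_ap]
  field_simp

theorem diag_ne {u : Fin 3 → ℂ} (h0 : u ≠ 0) (i : Fin 3) : proj u (i, i) ≠ 0 ↔ u i ≠ 0 := by
  simp [proj_ap, nn_ne h0]

def vec (i : Fin 3) (a b c : ℂ) : Fin 3 → ℂ :=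
  a • Pi.single i 1 + b • Pi.single (i + 1) 1 + c • Pi.single (i + 2) 1

theorem vec0 (i : Fin 3) (a b c : ℂ) : vec i a b c i = a := by fin_cases i <;> simp [vec]
theorem vec1 (i : Fin 3) (a b c : ℂ) : vec i a b c (i + 1) = b := by fin_cases i <;> simp [vec]
theorem vec2 (i : Fin 3) (a b c : ℂ) : vec i a b c (i + 2) = c := by fin_cases i <;> simp [vec]

theorem idx (i : Fin 3) : (∀ j, j = i ∨ j = i + 1 ∨ j = i + 2) ∧ i + 1 + 1 = i + 2 ∧
    i + 1 + 2 = i ∧ i + 2 + 1 = i ∧ i + 2 + 2 = i + 1 := by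
  revert i
  decide

theorem exists_ch {x : Amb 3} (hx : x ∈ Zc) : ∃ O f φ τ W, Ch O f φ τ W ∧ x ∈ W := by
  obtain ⟨v, h0, hF, rfl⟩ := hx
  obtain ⟨i, hi, hj⟩ := two_ne h0 hF
  obtain ⟨w0, hw0⟩ : ∃ w0, w0 = v (i + 1) / v i := ⟨_, rfl⟩
  have n0 : w0 ≠ 0 := hw0 ▸ div_ne_zero hj hi
  obtain ⟨q, hq⟩ : ∃ q : ℂ → ℂ, q = fun t => (-1 - t ^ 3) / w0 ^ 3 := ⟨_, rfl⟩
  have dq : Differentiable ℂ q := by rw [hq]; fun_prop
  obtain ⟨O, hO⟩ : ∃ O, O = q ⁻¹' Complex.slitPlane := ⟨_, rfl⟩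
  have oO : IsOpen O := hO ▸ Complex.isOpen_slitPlane.preimage dq.continuous
  obtain ⟨w, hw⟩ : ∃ w : ℂ → ℂ, w = fun t => w0 * q t ^ (((3 : ℕ) : ℂ)⁻¹) := ⟨_, rfl⟩
  have w3 : ∀ t, w t ^ 3 = -1 - t ^ 3 := fun t => by
    rw [hw, mul_pow, Complex.cpow_nat_inv_pow _ (by norm_num), hq]
    field_simp
  have dw : ∀ t ∈ O, DifferentiableAt ℂ w t := fun t ht => by
    rw [hw]
    exact ((dq t).cpow_const (by rw [hO] at ht; exact ht)).const_mul w0
  have nw : ∀ t ∈ O, w t ≠ 0 := fun t ht h => by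
    have h1 := w3 t
    rw [h] at h1
    have h2 : q t = 0 := by rw [hq]; simp [← h1]
    rw [hO] at ht
    exact Complex.slitPlane_ne_zero ht h2
  have ew : ∀ t ∈ O, w t ^ 2 * deriv w t = -t ^ 2 := fun t ht => by
    have h1 := ((dw t ht).hasDerivAt.fun_pow 3).deriv
    have h2 : deriv (fun t : ℂ => -1 - t ^ 3) t = -(3 * t ^ 2) := by
      simp
    simp only [w3] at h1
    rw [h2] at h1
    norm_num at h1
    linear_combination (-1 / 3) * h1
  have df : ∀ t ∈ O, HasDerivAt (fun t => vec i 1 (w t) t) (vec i 0 (deriv w t) 1) t := by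
    intro t ht
    have := (((hasDerivAt_const t (1 : ℂ)).smul_const (Pi.single i 1 : Fin 3 → ℂ)).add
      ((dw t ht).hasDerivAt.smul_const (Pi.single (i + 1) 1 : Fin 3 → ℂ))).add
      ((hasDerivAt_id t).smul_const (Pi.single (i + 2) 1 : Fin 3 → ℂ))
    exact this
  have nf : ∀ t, vec i 1 (w t) t ≠ 0 := fun t h => by
    have := congrFun h i
    rw [vec0] at this
    exact one_ne_zero this
  obtain ⟨τ, hτ⟩ : ∃ τ : Amb 3 → ℂ, τ = fun P => P (i + 2, i) / P (i, i) := ⟨_, rfl⟩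
  have o1 : IsOpen {P : Amb 3 | P (i, i) ≠ 0} := isOpen_ne_fun (en_cd _).continuous continuous_const
  have sτ : ContDiffOn ℝ ∞ τ {P : Amb 3 | P (i, i) ≠ 0} := by
    rw [hτ]
    simp only [div_eq_mul_inv]
    exact (en_cd _).contDiffOn.mul ((en_cd _).contDiffOn.inv fun _ h => h)
  have o2 := sτ.continuousOn.isOpen_inter_preimage o1 oO
  have c3 : ContinuousOn (fun P : Amb 3 => (P (i + 1, i) / P (i, i) / w (τ P)).re)
      ({P : Amb 3 | P (i, i) ≠ 0} ∩ τ ⁻¹' O) :=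
    Complex.continuous_re.comp_continuousOn
      ((((en_cd _).continuous.continuousOn.div (en_cd _).continuous.continuousOn
        fun _ h => h.1)).div
        (ContinuousOn.comp (fun t ht => (dw t ht).continuousAt.continuousWithinAt)
          (sτ.continuousOn.mono inter_subset_left) fun _ h => h.2) fun P h => nw _ h.2)
  have o3 := c3.isOpen_inter_preimage o2 (isOpen_Ioi (a := (0 : ℝ)))
  have inv : ∀ t, τ (proj (vec i 1 (w t) t)) = t := fun t => by
    rw [hτ]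
    simp only
    rw [ratio (nf t) (by rw [vec0]; exact one_ne_zero), vec2, vec0, div_one]
  obtain ⟨i0, i1, i2, i3, i4⟩ := idx i
  refine ⟨O, fun t => vec i 1 (w t) t, fun t => -(w t ^ 2)⁻¹, τ, _,
    ⟨oO, o3, fun t ht => (df t ht).differentiableAt.differentiableWithinAt, fun t _ => nf t,
      fun t ht => ⟨⟨_, nf t, ?_, rfl⟩, ⟨?_, ?_⟩, ?_⟩, fun t _ => inv t, ?_,
      sτ.mono fun _ h => h.1.1, ?_, ?_, ?_, ?_, i + 2, fun t ht => ⟨vec2 _ _ _ _, fun a => ?_⟩⟩,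
      ⟨(diag_ne h0 i).2 hi, ?_⟩, ?_⟩
  · rw [cyc _ i, vec0, vec1, vec2, w3]
    ring
  · exact (diag_ne (nf t) i).2 (by rw [vec0]; exact one_ne_zero)
  · rw [mem_preimage, inv]
    exact ht
  · rw [mem_preimage, inv, ratio (nf t) (by rw [vec0]; exact one_ne_zero), vec1, vec0, div_one,
      div_self (nw t ht)]
    simp
  · rintro _ ⟨⟨u, u0, uF, rfl⟩, ⟨h1, h2⟩, h3⟩
    have ui := (diag_ne u0 i).1 h1
    have e : τ (proj u) = u (i + 2) / u i := by rw [hτ]; exact ratio u0 ui _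
    refine ⟨h2, ?_⟩
    rw [mem_preimage, ratio u0 ui] at h3
    have n1 := nw _ h2
    rw [cyc _ i] at uF
    have h4 : u (i + 1) / u i / w (τ (proj u)) = 1 := by
      refine cube_one ?_ h3
      rw [div_pow, div_eq_one_iff_eq (pow_ne_zero 3 n1), w3, e]
      field_simp
      linear_combination uF
    rw [div_eq_one_iff_eq n1] at h4
    rw [← h4, e, ← proj_smul (inv_ne_zero ui) u]
    congr 1
    funext j
    rcases i0 j with rfl | rfl | rfl
    · rw [vec0]; simp [ui]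
    · rw [vec1]; simp [div_eq_inv_mul]
    · rw [vec2]; simp [div_eq_inv_mul]
  · intro t ht s c h
    rw [(df t ht).hasFDerivAt.fderiv] at h
    have a := congrFun h i
    have b := congrFun h (i + 2)
    simp [vec0, vec2] at a b
    rw [b, ← a, zero_mul]
  · exact fun t ht => (((dw t ht).pow 2).inv (pow_ne_zero 2 (nw t ht))).neg.differentiableWithinAt
  · exact fun t ht => neg_ne_zero.2 (inv_ne_zero (pow_ne_zero 2 (nw t ht)))
  · intro t ht s
    have hr := (df t ht).hasFDerivAt.restrictScalars ℝ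
    refine lin_proj hr.differentiableAt (nf t) s _ fun j => ?_
    have e : fderiv ℝ (fun t => vec i 1 (w t) t) t s = s • vec i 0 (deriv w t) 1 := by
      rw [hr.fderiv]
      simp
    have n1 := nw t ht
    have h1 := ew t ht
    have h2 := w3 t
    rw [e]
    rcases i0 j with rfl | rfl | rfl
    · simp only [Pi.smul_apply, vec0, vec1, vec2, smul_eq_mul]
      field_simp
      linear_combination s * h2 - s * t * h1
    · simp only [i1, i2, Pi.smul_apply, vec0, vec1, vec2, smul_eq_mul]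
      field_simp
      ring
    · simp only [i3, i4, Pi.smul_apply, vec0, vec1, vec2, smul_eq_mul]
      field_simp
      linear_combination s * h1
  · rcases i0 a with rfl | rfl | rfl
    · simp [vec0]
    · simp [vec1, nw t ht]
    · simp [vec2]
  · have e : τ (proj v) = v (i + 2) / v i := by rw [hτ]; exact ratio h0 hi _
    have : q (τ (proj v)) = 1 := by
      rw [cyc _ i] at hF
      rw [hq, e, hw0]
      field_simp
      linear_combination -hF
    rw [mem_preimage, hO, mem_preimage, this]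
    exact Complex.one_mem_slitPlane
  · have e : τ (proj v) = v (i + 2) / v i := by rw [hτ]; exact ratio h0 hi _
    have : q (τ (proj v)) = 1 := by
      rw [cyc _ i] at hF
      rw [hq, e, hw0]
      field_simp
      linear_combination -hF
    rw [mem_preimage, ratio h0 hi, ← hw0, hw]
    simp only [this, Complex.one_cpow, mul_one, div_self n0]
    simp

end Pool.Agent.Ctrl
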