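import Pool.Agent.P.MP_65ad7c_ag.CtC

/-! The form of the Fermat cubic has no primitive on the affine part. -/

open Set Filter Topology
open scoped ContDiff ComplexConjugate
open Pool.Agent.HT (Amb proj Form IsChart IsSNC)

noncomputable section
namespace Pool.Agent.Ctrl

variable {O : Set ℂ} {f : ℂ → Fin 3 → ℂ} {φ : ℂ → ℂ} {τ : Amb 3 → ℂ} {W N N' : Set (Amb 3)}
  {G G' : Amb 3 → ℂ} {x : Amb 3} {L : Amb 3 → Amb 3 →L[ℝ] ℂ}

/-- `G` is a primitive of the form `L` on the part of the cubic in `N`. -/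
structure Prim (L : Amb 3 → Amb 3 →L[ℝ] ℂ) (N : Set (Amb 3)) (G : Amb 3 → ℂ) : Prop where
  o : IsOpen N
  sm : ContDiffOn ℝ ∞ G N
  eq : ∀ (γ : Amb 3 → Amb 3) (S : Set (Amb 3)), IsOpen S → ContDiffOn ℝ ∞ γ S →
    MapsTo γ S (Zc ∩ N) → ∀ z ∈ S, ∀ v,
      L (γ z) (fderiv ℝ γ z v) = fderiv ℝ G (γ z) (fderiv ℝ γ z v)

theorem Prim.add (h : Prim L N G) (c : ℂ) : Prim L N fun y => G y + c :=
  ⟨h.o, h.sm.add contDiffOn_const, fun γ S a b d z hz v => by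
    rw [fderiv_add_const]
    exact h.eq γ S a b d z hz v⟩

theorem Ch.prim (h : Ch O f φ τ W) {B : Set ℂ} (oB : IsOpen B) (hr : B ⊆ O) {Φ : ℂ → ℂ}
    (cΦ : ContDiffOn ℝ ∞ Φ B)
    (hΦ : ∀ t ∈ B, HasFDerivAt Φ ((L (proj (f t))).comp (fderiv ℝ (proj ∘ f) t)) t) :
    Prim L (W ∩ τ ⁻¹' B) (Φ ∘ τ) := by
  refine ⟨h.sm.continuousOn.isOpen_inter_preimage h.oW oB,
    cΦ.comp (h.sm.mono inter_subset_left) fun _ hy => hy.2, fun γ S hS hγ hm y hy v => ?_⟩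
  have dγ := (hγ.contDiffAt (hS.mem_nhds hy)).differentiableAt (by simp)
  have dτ := (h.sm.contDiffAt (h.oW.mem_nhds (hm hy).2.1)).differentiableAt (by simp)
  have hO : τ (γ y) ∈ O := hr (hm hy).2.2
  have e1 : γ =ᶠ[𝓝 y] (proj ∘ f) ∘ (τ ∘ γ) := by
    filter_upwards [hS.mem_nhds hy] with u hu using (h.sur _ ⟨(hm hu).1, (hm hu).2.1⟩).2.symm
  have e2 : fderiv ℝ γ y = (fderiv ℝ (proj ∘ f) (τ (γ y))).comp
      ((fderiv ℝ τ (γ y)).comp (fderiv ℝ γ y)) := by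
    rw [← fderiv_comp y dτ dγ, ← Function.comp_apply (f := τ),
      ← fderiv_comp y ((h.cd hO).differentiableAt (by simp)) (dτ.comp y dγ), ← e1.fderiv_eq]
  have e3 : fderiv ℝ (Φ ∘ τ) (γ y) = _ := ((hΦ _ (hm hy).2.2).comp _ dτ.hasFDerivAt).fderiv
  have e5 := DFunLike.congr_fun e2 v
  rw [(h.sur _ ⟨(hm hy).1, (hm hy).2.1⟩).2] at e3
  simp only [ContinuousLinearMap.comp_apply] at e5
  rw [e3]
  simp only [ContinuousLinearMap.comp_apply]
  rw [← e5]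

theorem exists_prim (hx : x ∈ Zc) : ∃ N G, x ∈ N ∧ Prim lin N G := by
  obtain ⟨O, f, φ, τ, W, h, hW⟩ := exists_ch hx
  obtain ⟨r, r0, hr⟩ := Metric.isOpen_iff.1 h.oO _ (h.sur _ ⟨hx, hW⟩).1
  obtain ⟨Φ, hΦ⟩ := (h.phol.mono hr).isExactOn_ball
  refine ⟨W ∩ τ ⁻¹' Metric.ball (τ x) r, Φ ∘ τ, ⟨hW, Metric.mem_ball_self r0⟩,
    h.prim Metric.isOpen_ball hr ((DifferentiableOn.contDiffOn
      (fun t ht => (hΦ t ht).differentiableAt.differentiableWithinAt)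
      Metric.isOpen_ball).restrict_scalars ℝ) fun t ht => ?_⟩
  refine ((hΦ t ht).hasFDerivAt.restrictScalars ℝ).congr_fderiv ?_
  ext1 s
  rw [ContinuousLinearMap.comp_apply, h.val t (hr ht)]
  simp [mul_comm]

theorem Prim.rkey (h : Prim L N G) (c : Ch O f φ τ W) {t : ℂ} (ht : t ∈ O) (hN : proj (f t) ∈ N) :
    HasFDerivAt (G ∘ proj ∘ f) ((L (proj (f t))).comp (fderiv ℝ (proj ∘ f) t)) t := by
  have o1 : IsOpen (O ∩ (proj ∘ f) ⁻¹' N) :=
    ContinuousOn.isOpen_inter_preimage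
      (fun t ht => (c.cd ht).continuousAt.continuousWithinAt) c.oO h.o
  have d1 := (c.cd ht).differentiableAt (by simp)
  refine (((h.sm.contDiffAt (h.o.mem_nhds hN)).differentiableAt (by simp)).hasFDerivAt.comp t
    d1.hasFDerivAt).congr_fderiv ?_
  ext1 s
  have a := h.eq ((proj ∘ f) ∘ en (0, 0)) (en (0, 0) ⁻¹' (O ∩ (proj ∘ f) ⁻¹' N))
    (o1.preimage (en _).continuous)
    (fun y hy => ((c.cd hy.1).comp y (en _).contDiff.contDiffAt).contDiffWithinAt)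
    (fun y hy => ⟨(c.mem _ hy.1).1, hy.2⟩) (EuclideanSpace.single (0, 0) t)
    (by simpa [en_ap] using ⟨ht, hN⟩) (EuclideanSpace.single (0, 0) s)
  have b : en (0, 0) (EuclideanSpace.single (0, 0) t) = t := by simp [en_ap]
  have b' : en (0, 0) (EuclideanSpace.single (0, 0) s) = s := by simp [en_ap]
  rw [fderiv_comp _ (by rw [b]; exact d1) (en _).differentiableAt, ContinuousLinearMap.fderiv,
    ContinuousLinearMap.comp_apply, Function.comp_apply, b, b', Function.comp_apply] at a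
  exact a.symm

theorem Prim.key (h : Prim lin N G) (c : Ch O f φ τ W) {t : ℂ} (ht : t ∈ O) (hN : proj (f t) ∈ N) :
    HasDerivAt (G ∘ proj ∘ f) (φ t) t := by
  refine hasFDerivAt_of_restrictScalars ℝ (h.rkey c ht hN) ?_
  ext1 s
  rw [ContinuousLinearMap.comp_apply, c.val t ht]
  simp [mul_comm]

theorem Ch.up (c : Ch O f φ τ W) {t : ℂ} (ht : t ∈ O) :
    Tendsto (proj ∘ f) (𝓝 t) (𝓝[Zc] proj (f t)) :=
  tendsto_nhdsWithin_iff.2 ⟨(c.cd ht).continuousAt,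
    mem_of_superset (c.oO.mem_nhds ht) fun s hs => (c.mem s hs).1⟩

theorem Ch.down (c : Ch O f φ τ W) (hW : x ∈ W) {p : ℂ → Prop} (h : ∀ᶠ t in 𝓝 (τ x), p t) :
    ∀ᶠ y in 𝓝[Zc] x, p (τ y) ∧ τ y ∈ O ∧ proj (f (τ y)) = y := by
  filter_upwards [nhdsWithin_le_nhds
    ((c.sm.continuousOn.continuousAt (c.oW.mem_nhds hW)).eventually h),
    nhdsWithin_le_nhds (c.oW.mem_nhds hW), self_mem_nhdsWithin] with y a b d
  exact ⟨a, c.sur y ⟨d, b⟩⟩

theorem Prim.loc (h : Prim L N G) (h' : Prim L N' G') (hx : x ∈ Zc) (h1 : x ∈ N) (h2 : x ∈ N') :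
    ∀ᶠ y in 𝓝[Zc] x, G y - G' y = G x - G' x := by
  obtain ⟨O, f, φ, τ, W, c, hW⟩ := exists_ch hx
  obtain ⟨t0, e0⟩ := c.sur _ ⟨hx, hW⟩
  have a : ∀ᶠ t in 𝓝 (τ x), t ∈ O ∧ proj (f t) ∈ N ∩ N' := (c.oO.eventually_mem t0).and
    ((c.cd t0).continuousAt.eventually_mem ((h.o.inter h'.o).mem_nhds (by
      rw [Function.comp_apply, e0]; exact ⟨h1, h2⟩)))
  obtain ⟨r, r0, hr⟩ := Metric.eventually_nhds_iff_ball.1 a
  have d : ∀ t ∈ Metric.ball (τ x) r,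
      HasFDerivAt (G ∘ proj ∘ f - G' ∘ proj ∘ f) (0 : ℂ →L[ℝ] ℂ) t := fun t ht => by
    simpa using (h.rkey c (hr t ht).1 (hr t ht).2.1).sub (h'.rkey c (hr t ht).1 (hr t ht).2.2)
  filter_upwards [c.down hW (Metric.isOpen_ball.eventually_mem (Metric.mem_ball_self r0))]
    with y hy
  have := Metric.isOpen_ball.is_const_of_fderiv_eq_zero (convex_ball _ _).isPreconnected
    (fun t ht => (d t ht).differentiableAt.differentiableWithinAt) (fun t ht => (d t ht).fderiv)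
    hy.1 (Metric.mem_ball_self r0)
  simpa [hy.2.2, e0] using this

theorem no_prim (g : Amb 3 → ℂ)
    (h : ∀ x ∈ Zc, ∃ N G, x ∈ N ∧ Prim lin N G ∧ ∀ᶠ y in 𝓝[Zc] x, g y = G y) : False := by
  obtain ⟨x, hx, mx⟩ := compact_Zc.exists_isMaxOn (f := fun y => ‖g y‖) ne_Zc fun y hy => by
    obtain ⟨N, G, a, b, c⟩ := h y hy
    exact ((b.sm.continuousOn.continuousAt (b.o.mem_nhds a)).continuousWithinAt.congr_of_eventuallyEq
      c (c.self_of_nhdsWithin hy)).norm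
  obtain ⟨O, f, φ, τ, W, c, hW⟩ := exists_ch hx
  obtain ⟨N, G, xN, p, hg⟩ := h x hx
  obtain ⟨t0, e0⟩ := c.sur _ ⟨hx, hW⟩
  have a : ∀ᶠ t in 𝓝 (τ x), t ∈ O ∧ proj (f t) ∈ N := (c.oO.eventually_mem t0).and
    ((c.cd t0).continuousAt.eventually_mem (p.o.mem_nhds (by
      rw [Function.comp_apply, e0]; exact xN)))
  have lm : IsLocalMax (norm ∘ G ∘ proj ∘ f) (τ x) := by
    filter_upwards [c.oO.mem_nhds t0, (c.up t0).eventually (e0.symm ▸ hg)] with t ht h2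
    simp only [Function.comp_apply, e0] at h2 ⊢
    rw [← h2, ← hg.self_of_nhdsWithin hx]
    exact mx (c.mem t ht).1
  have ev := Complex.eventually_eq_of_isLocalMax_norm
    (a.mono fun t ht => (p.key c ht.1 ht.2).differentiableAt) lm
  exact c.pne _ t0 ((p.key c t0 (e0.symm ▸ xN)).unique
    ((hasDerivAt_const _ _).congr_of_eventuallyEq ev))

theorem punct {r : ℝ} (r0 : 0 < r) : IsPreconnected (Metric.ball (0 : ℂ) r \ {0}) := by
  have e : Metric.ball (0 : ℂ) r \ {0} = Complex.exp '' {z | z.re < Real.log r} := by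
    ext z
    simp only [Set.mem_sdiff, mem_ball_zero_iff, mem_singleton_iff, mem_image, mem_ofPred_eq]
    constructor
    · rintro ⟨a, b⟩
      exact ⟨_, by rw [Complex.log_re]; exact Real.log_lt_log (norm_pos_iff.2 b) a,
        Complex.exp_log b⟩
    · rintro ⟨w, a, rfl⟩
      exact ⟨by rw [Complex.norm_exp]; exact (Real.lt_log_iff_exp_lt r0).1 a, Complex.exp_ne_zero w⟩
  rw [e]
  exact (convex_halfSpace_re_lt _).isPreconnected.image _ Complex.continuous_exp.continuousOn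

theorem no_prim_aff (g : Amb 3 → ℂ)
    (h : ∀ x ∈ Zc, x (0, 0) ≠ 0 → ∃ N G, x ∈ N ∧ Prim lin N G ∧ ∀ᶠ y in 𝓝[Zc] x, g y = G y) :
    False := by
  have k : ∀ x, ∃ v : ℂ, x ∈ Zc → (x (0, 0) ≠ 0 → v = g x) ∧ ∃ N G, x ∈ N ∧ Prim lin N G ∧ v = G x ∧
      ∀ᶠ y in 𝓝[Zc] x, y = x ∨ y (0, 0) ≠ 0 ∧ g y = G y := by
    intro x
    by_cases hx : x ∈ Zc
    swap
    · exact ⟨0, fun a => absurd a hx⟩
    by_cases h0 : x (0, 0) = 0
    swap
    · obtain ⟨N, G, a, b, c⟩ := h x hx h0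
      refine ⟨g x, fun _ => ⟨fun _ => rfl, N, G, a, b, c.self_of_nhdsWithin hx, ?_⟩⟩
      filter_upwards [c, nhdsWithin_le_nhds
        ((en_cd (0, 0)).continuous.continuousAt.eventually_ne h0)] with y h1 h2 using Or.inr ⟨h2, h1⟩
    obtain ⟨O, f, φ, τ, W, c, hW⟩ := exists_ch hx
    obtain ⟨N, G, xN, p⟩ := exists_prim hx
    obtain ⟨t0, e0⟩ := c.sur _ ⟨hx, hW⟩
    obtain ⟨i, hi⟩ := c.zer
    have z : ∀ t ∈ O, proj (f t) (0, 0) = 0 ↔ 0 = i ∧ t = 0 := fun t ht => by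
      rw [← (hi t ht).2, ← not_iff_not]
      exact diag_ne (c.ne t ht) 0
    have e1 : τ x = 0 := ((z _ t0).1 (e0.symm ▸ h0)).2
    have a : ∀ᶠ t in 𝓝 (τ x), t ∈ O ∧ proj (f t) ∈ N := (c.oO.eventually_mem t0).and
      ((c.cd t0).continuousAt.eventually_mem (p.o.mem_nhds (by
        rw [Function.comp_apply, e0]; exact xN)))
    obtain ⟨r, r0, hr⟩ := Metric.eventually_nhds_iff_ball.1 a
    have b := c.down hW (Metric.isOpen_ball.eventually_mem (Metric.mem_ball_self r0))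
    rw [e1] at hr b e0
    have d : ∀ t ∈ Metric.ball (0 : ℂ) r \ {0}, HasDerivAt (g ∘ proj ∘ f - G ∘ proj ∘ f) 0 t := by
      intro t ht
      obtain ⟨a1, a2⟩ := hr t ht.1
      obtain ⟨N', G', b1, b2, b3⟩ := h _ (c.mem t a1).1 fun e => ht.2 ((z t a1).1 e).2
      simpa using ((b2.key c a1 b1).congr_of_eventuallyEq (f₁ := g ∘ proj ∘ f)
        ((c.up a1).eventually b3)).sub (p.key c a1 a2)
    obtain ⟨C, hC⟩ := (Metric.isOpen_ball.sdiff isClosed_singleton).exists_is_const_of_deriv_eq_zero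
      (punct r0) (fun t ht => (d t ht).differentiableAt.differentiableWithinAt)
      (fun t ht => (d t ht).deriv)
    refine ⟨G x + C, fun _ => ⟨fun e => absurd h0 e, N, _, xN, p.add C, rfl, ?_⟩⟩
    filter_upwards [b] with y hy
    by_cases e : τ y = 0
    · exact Or.inl (by rw [← hy.2.2, e, e0])
    · have := hC _ ⟨hy.1, e⟩
      simp only [Pi.sub_apply, Function.comp_apply, hy.2.2] at this
      exact Or.inr ⟨fun e' => e ((z _ hy.2.1).1 (hy.2.2.symm ▸ e')).2, by rw [← this]; ring⟩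
  choose g' hg' using k
  refine no_prim g' fun x hx => ?_
  obtain ⟨-, N, G, a, b, c, d⟩ := hg' x hx
  refine ⟨N, G, a, b, ?_⟩
  filter_upwards [d, self_mem_nhdsWithin] with y h1 h2
  rcases h1 with rfl | h1
  · exact c
  · rw [(hg' y h2).1 h1.1, h1.2]

end Pool.Agent.Ctrl
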