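import Pool.Agent.K.MP_65ad7c_ag.C41

/-! The affine Fermat cubic: its stratification with one stratum and its intersection complex. -/

open Set Filter Topology TopologicalSpace MvPolynomial
open Pool.Agent.PWD Pool.Agent.PWF

noncomputable section
namespace Pool.Agent.Ctrl

/-- The ideal of the affine Fermat cubic. -/
abbrev Pc : Ideal (MvPolynomial (Fin 2) ℂ) := Ideal.span {1 + X 0 ^ 3 + X 1 ^ 3}

/-- The stratification with one stratum. -/
def Uc (c : ℕ) : Opens (Pts Pc) := if c = 0 then ⊥ else ⊤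

/-- The affine Fermat cubic in the plane. -/
def Hc : Set (Fin 2 → ℂ) := {x | 1 + x 0 ^ 3 + x 1 ^ 3 = 0}

theorem var_c : IsVar (Pts Pc) := ⟨Pc, rfl⟩

theorem gen_c : Algebra.adjoin ℂ (range (X : Fin 2 → MvPolynomial (Fin 2) ℂ)) = ⊤ :=
  adjoin_range_X

theorem Hc_eq : Hc = {x | eval x (1 + X 0 ^ 3 + X 1 ^ 3 : MvPolynomial (Fin 2) ℂ) = 0} := by
  ext x
  simp [Hc]

theorem range_c : range (PWV.emb (Y := Pts Pc) X) = Hc := by
  rw [PWV.range_emb gen_c, Hc_eq]
  ext x
  constructor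
  · intro h
    refine h _ ?_
    rw [Ideal.mem_comap, aeval_X_left_apply]
    exact Ideal.subset_span rfl
  · intro h q hq
    rw [Ideal.mem_comap, aeval_X_left_apply] at hq
    obtain ⟨a, rfl⟩ := Ideal.mem_span_singleton'.1 hq
    rw [map_mul, show eval x (1 + X 0 ^ 3 + X 1 ^ 3 : MvPolynomial (Fin 2) ℂ) = 0 from h, mul_zero]

theorem chart1_c {x : Fin 2 → ℂ} (h : x 0 ≠ 0) :
    PWV.Chart Hc (fun _ : Fin 1 => X 1) x := by
  have h0 : PWV.Chart (univ : Set (Fin 1 → ℂ)) (fun i : Fin 1 => X (id i)) (Fin.tail x) :=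
    ⟨univ, univ, id, isOpen_univ, isOpen_univ, trivial, continuousOn_id, by simp,
      fun y _ => by funext i; simp [PWV.pm]⟩
  have h1 := h0.root_XK1 (m := 1 + X 0 ^ 3 + X 1 ^ 3) (by simpa [pderiv_X] using h)
  have e : (fun i : Fin 1 => (X (id i).succ : MvPolynomial (Fin 2) ℂ)) = fun _ => X 1 := by
    funext i
    rw [Subsingleton.elim i 0]
    rfl
  rw [e] at h1
  refine h1.congr (Eventually.of_forall fun y => ?_)
  rw [Hc_eq]
  simp

theorem chart0_c {x : Fin 2 → ℂ} (h : x 1 ≠ 0) :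
    PWV.Chart Hc (fun _ : Fin 1 => X 0) x := by
  let s : (Fin 2 → ℂ) → Fin 2 → ℂ := fun y => ![y 1, y 0]
  have sc : Continuous s := by fun_prop
  have ss : ∀ y, s (s y) = y := fun y => by
    funext i
    fin_cases i <;> rfl
  have sH : ∀ y, y ∈ Hc → s y ∈ Hc := fun y hy => by
    change 1 + y 1 ^ 3 + y 0 ^ 3 = 0
    rw [add_right_comm]
    exact hy
  obtain ⟨O, N, ψ, hO, hN, hx, hψ, h1, h2⟩ := chart1_c (x := s x) h
  refine ⟨O, s ⁻¹' N, s ∘ ψ, hO, hN.preimage sc, hx, sc.comp_continuousOn hψ, ?_, fun y hy => ?_⟩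
  · ext y
    constructor
    · rintro ⟨a, b⟩
      obtain ⟨u, hu, e⟩ := h1.le ⟨sH y a, b⟩
      exact ⟨u, hu, by rw [Function.comp_apply, e, ss]⟩
    · rintro ⟨u, hu, rfl⟩
      have h3 := h1.ge ⟨u, hu, rfl⟩
      refine ⟨sH _ h3.1, ?_⟩
      change s (s (ψ u)) ∈ N
      rw [ss]
      exact h3.2
  · funext i
    have h3 := congrFun (h2 y hy) i
    simp only [PWV.pm, eval_X] at h3 ⊢
    exact h3

theorem mem_Uc (c : ℕ) (y : Pts Pc) : y ∈ Uc c ↔ c ≠ 0 := by
  unfold Uc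
  split_ifs with h <;> simp [h]

theorem strat_c : IsStrat 1 Uc := by
  obtain ⟨U, hU, hm⟩ := PWV.strat_of_filt var_c gen_c (d := 1)
    (F := fun j => if j = 0 then Hc else ∅) range_c.symm
    (fun j => by
      split_ifs
      · rw [Hc_eq]
        exact PWV.zc_zero _
      · exact PWV.zc_empty)
    (fun i j hij => by
      by_cases hj : j = 0
      · obtain rfl : i = 0 := by omega
        simp [hj]
      · simp [hj])
    (fun j => by
      split_ifs with hj
      · subst hj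
        rw [Hc_eq]
        refine PWV.dim_hyp fun h => ?_
        simpa using congrArg (eval 0) h
      · exact PWV.dim_empty _)
    (fun j x hx => by
      by_cases hj : j = 0
      · subst hj
        have hx' : 1 + x 0 ^ 3 + x 1 ^ 3 = 0 := hx.1
        by_cases h : x 0 = 0
        · refine ⟨fun _ => 0, chart0_c fun h' => ?_⟩
          simp [h, h'] at hx'
        · exact ⟨fun _ => 1, chart1_c h⟩
      · simp [hj] at hx)
  have e : U = Uc := by
    funext j
    ext y
    change y ∈ U j ↔ y ∈ Uc j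
    rw [← not_iff_not, hm, mem_Uc]
    split_ifs with hj
    · simpa [hj] using range_c.le ⟨y, rfl⟩
    · simp [hj]
  exact e ▸ hU

theorem ic_c : ∃ (I : Cx (Pts Pc)) (one : Sec I 0 (Uc 1)), IsIC Uc I one := by
  have he : IsClosedEmbedding (PWV.emb (Y := Pts Pc) X) := var_c.closedEmb gen_c
  obtain ⟨X', Q, a, hs, ho, hx⟩ := PWV.exists_const he.isClosed_range
  obtain ⟨I, m, h⟩ := PWV.exists_pres (Q.comap (PWV.emb X) he.isInducing)
  obtain ⟨one, o1, o2, o3⟩ := PWV.Pres.one he h ho (U := Uc 1) (fun y _ => ⟨y, rfl⟩)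
  have hu : ∀ y : Pts Pc, y ∈ (univ : Set (Pts Pc)) ↔
      PWV.emb X y ∈ (univ : Set (Fin 2 → ℂ)) := fun y => Iff.rfl
  have hj : ∀ n : ℕ, (n : ℤ) - 1 + 1 = n := fun n => by ring
  have hl : ∀ (S : Set (Pts Pc)) (n : ℕ), LC I univ S n := fun S n => by
    refine PWV.Pres.lc he h hs isClosed_univ hu (hj n) (S' := range (PWV.emb X))
      (fun y _ => ⟨y, rfl⟩) ?_
    rw [PWV.FC.gam_univ]
    cases n with
    | zero => exact ho.lcn
    | succ n => exact PWV.FC.lcn_of_ex fun x hx' => hx x hx' _ (by omega)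
  refine ⟨I, one, h.inj, o1, o2, o3, fun c n W s hn hc hs' y hy _ => ?_,
    fun c n W s hc hn hs' y hy _ => ?_, fun c n => ⟨hl _ n, ?_⟩⟩
  · refine PWV.Pres.cob he h hs isClosed_univ hu (hj n) ?_ hs' hy
    rw [PWV.FC.gam_univ]
    exact hx _ ⟨y, rfl⟩ _ (by omega)
  · exact PWV.cob_off_YD2 hs' hy (not_not.2 ((mem_Uc c y).2 hc.ne'))
  · by_cases hc : c = 0
    · have e : ((Uc c : Set (Pts Pc)))ᶜ = univ :=
        eq_univ_of_forall fun y hy => (mem_Uc c y).1 hy hc
      rw [e]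
      exact hl _ n
    · exact fun x hx' => absurd ((mem_Uc c x).2 hc) hx'.2

end Pool.Agent.Ctrl
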