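import Pool.Agent.P.MP_65ad7c_ag.YE0
import Pool.Agent.P.MP_65ad7c_ag.CtY
import Pool.Agent.P.MP_65ad7c_ag.CtD

/-! The projective cubic as a model of the affine cubic. -/

open Set Filter Topology TopologicalSpace MvPolynomial
open scoped ContDiff ComplexConjugate Matrix
open Pool.Agent.HT (Amb proj Form IsChart IsSNC)
open Pool.Agent.PWD Pool.Agent.PWF

noncomputable section
namespace Pool.Agent.Ctrl

def pt (w : Fin 2 → ℂ) (h : 1 + w 0 ^ 3 + w 1 ^ 3 = 0) : Pts Pc :=
  ⟨aeval w, ⟨aeval w, rfl⟩, fun g hg => by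
    obtain ⟨a, rfl⟩ := Ideal.mem_span_singleton'.1 hg
    simp [h]⟩

open Classical in
def pic (x : Amb 3) : Pts Pc :=
  if h : 1 + (x (1, 0) / x (0, 0)) ^ 3 + (x (2, 0) / x (0, 0)) ^ 3 = 0 then
    pt (fun j => x (j.succ, 0) / x (0, 0)) h else pt ![-1, 0] (by simp; norm_num)

def Dc (a : Fin 3) : Set (Amb 3) := Zc ∩ {x | x (a, a) = 0}

abbrev Qc : Data (Pts Pc) (1 - 1) :=
  ⟨2, X, fun _ => Pi.single 1 1, 3, 3, Zc, Dc, {0}, ∅,
    ⟨fun _ => 1, fun _ _ _ => Subsingleton.elim (α := Fin 1) _ _⟩, pic, id⟩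

theorem pre_iff {x : Amb 3} {W : Set (Pts Pc)} :
    x ∈ Qc.pre W ↔ (x ∈ Zc ∧ x (0, 0) ≠ 0) ∧ pic x ∈ W := by
  simp +contextual [Data.pre, Dc]

theorem pic_val {x : Amb 3} (hx : x ∈ Zc) (h0 : x (0, 0) ≠ 0) :
    (pic x).1 = aeval fun j : Fin 2 => x (j.succ, 0) / x (0, 0) := by
  obtain ⟨v, v0, vF, rfl⟩ := hx
  have h1 := (diag_ne v0 0).1 h0
  rw [pic, dif_pos (by rw [ratio v0 h1, ratio v0 h1]; field_simp; linear_combination vF)]
  rfl

theorem pts_val (y : Pts Pc) : y.1 = aeval fun j => y.1 (X j) := by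
  obtain ⟨y, ⟨φ, rfl⟩, -⟩ := y
  exact congrArg DFunLike.coe (aeval_unique φ)

theorem pts_eq (y : Pts Pc) : 1 + y.1 (X 0) ^ 3 + y.1 (X 1) ^ 3 = 0 := by
  have := y.2.2 _ (Ideal.mem_span_singleton_self _)
  rw [pts_val] at this
  simpa using this

def vc (y : Pts Pc) : Fin 3 → ℂ := Fin.cons 1 fun j => y.1 (X j)

theorem vc_ne (y : Pts Pc) : vc y ≠ 0 := fun h => one_ne_zero (congrFun h 0)

theorem sg_mem (y : Pts Pc) : proj (vc y) ∈ Zc ∧ proj (vc y) (0, 0) ≠ 0 :=
  ⟨⟨_, vc_ne y, (congrArg (· + _ + _) (one_pow 3)).trans (pts_eq y), rfl⟩,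
    (diag_ne (vc_ne y) 0).2 one_ne_zero⟩

theorem pic_sg (y : Pts Pc) : pic (proj (vc y)) = y := by
  apply Subtype.ext
  rw [pic_val (sg_mem y).1 (sg_mem y).2, pts_val y]
  congr 2
  funext j
  rw [ratio (vc_ne y) one_ne_zero]
  exact div_one _

theorem sg_pic {x : Amb 3} (hx : x ∈ Zc) (h0 : x (0, 0) ≠ 0) : proj (vc (pic x)) = x := by
  have h := pic_val hx h0
  obtain ⟨v, v0, vF, rfl⟩ := hx
  have h1 := (diag_ne v0 0).1 h0
  rw [← proj_smul h1]
  congr 1
  funext j
  refine Fin.cases (mul_one _) (fun j => ?_) j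
  simp only [vc, h, Pi.smul_apply, Fin.cons_succ, aeval_X, ratio v0 h1, smul_eq_mul]
  field_simp

theorem sg_cont : Continuous fun y => proj (vc y) :=
  continuous_iff_continuousAt.2 fun y => (proj_cd (vc_ne y)).continuousAt.comp
    (continuous_pi fun j => Fin.cases continuous_const
      (fun j => (continuous_apply (X j)).comp continuous_subtype_val) j).continuousAt

theorem snc_D : IsSNC 1 Zc Dc := by
  refine ⟨compact_Zc, fun _ => inter_subset_left, fun x hx => ?_⟩
  obtain ⟨O, f, φ, τ, W, c, hW⟩ := exists_ch hx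
  obtain ⟨i, hi⟩ := c.zer
  refine ⟨_, _, fun a => if a = i then some 0 else none, c.chart,
    ⟨fun _ => τ x, (c.sur x ⟨hx, hW⟩).1, (c.sur x ⟨hx, hW⟩).2⟩, fun a b k h1 h2 => ?_,
    fun a z hz => ?_⟩
  · dsimp only at h1 h2
    split_ifs at h1 h2 with k1 k2
    rw [k1, k2]
  · have := ((hi _ hz).2 a).symm.trans (not_iff_not.1 (diag_ne (c.ne _ hz) a)).symm
    simp [Dc, (c.mem _ hz).1, ← this]

theorem model_c : Model Qc (fun y y' => ∀ j, y' (X j) = conj (y (X j))) 1 1 fun c => Uc c := by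
  have pu : ∀ {x : Amb 3}, x ∈ Qc.pre univ → x ∈ Zc ∧ x (0, 0) ≠ 0 := fun h => (pre_iff.1 h).1
  refine ⟨adjoin_range_X, fun e => ?_, snc_D, fun _ => cj_Zc,
    fun a x hx => ⟨cj_Zc hx.1, (congrArg conj hx.2).trans (map_zero _)⟩,
    ⟨Finset.disjoint_empty_right _, fun _ => by simp⟩, ?_,
    fun y _ => ⟨_, pre_iff.2 ⟨sg_mem y, trivial⟩, pic_sg y⟩, fun x hx y hy e => ?_,
    fun x _ => by simp [Uc], fun x hx j => ?_, fun O g c j => ?_, continuousOn_id,
    fun x hx => (sg_pic (pu hx).1 (pu hx).2).symm, fun x hx => ?_, fun i x hx => ?_⟩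
  · cases e with
    | succ e => exact fun _ => ⟨1, one_ne_zero, fun y hy => by simp [Uc] at hy⟩
    | zero =>
      intro g
      have fin : {z : ℂ | 1 + z ^ 3 = 0}.Finite :=
        (Polynomial.rootSet_finite (1 + Polynomial.X ^ 3 : Polynomial ℂ) ℂ).subset fun z hz =>
          Polynomial.mem_rootSet.2 ⟨fun h => by simpa using congrArg (Polynomial.eval 0) h,
            by simpa using hz⟩
      refine ⟨∏ z ∈ fin.toFinset, (X ⟨0, one_pos⟩ - C (aeval ![0, z] (g ⟨0, one_pos⟩))),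
        Finset.prod_ne_zero_iff.2 fun z _ h => ?_, fun y hy => ?_⟩
      · have := congrArg (eval fun _ => aeval ![0, z] (g ⟨0, one_pos⟩) + 1) h
        simp at this
      · have h0 : y.1 (X 0) = 0 := (single_one_dotProduct (1 : Fin 3) (vc y)).symm.trans (hy.2 0)
        rw [map_prod]
        refine Finset.prod_eq_zero (i := y.1 (X 1)) (by simpa [h0] using pts_eq y) ?_
        have : (fun j => y.1 (X j)) = ![0, y.1 (X 1)] := by
          funext j
          fin_cases j
          exacts [h0, rfl]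
        rw [← this, ← pts_val]
        simp
  · refine (Topology.IsInducing.subtypeVal.continuousOn_iff).2 (continuousOn_pi.2 fun g => ?_)
    refine ContinuousOn.congr (f := fun x : Amb 3 => eval (fun j : Fin 2 => x (j.succ, 0) / x (0, 0)) g)
      ((continuous_eval g).comp_continuousOn (continuousOn_pi.2 fun j =>
        (en_cd _).continuous.continuousOn.div (en_cd _).continuous.continuousOn
          fun x hx => (pu hx).2)) fun x hx => ?_
    exact (congrFun (pic_val (pu hx).1 (pu hx).2) g).trans (DFunLike.congr_fun (coe_aeval_eq_eval _) g)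
  · have a := (pre_iff.1 hx).1
    have b := (pre_iff.1 hy).1
    rw [← sg_pic a.1 a.2, ← sg_pic b.1 b.2]
    exact congrArg (fun y => proj (vc y)) e
  · have a := pu hx
    have h1 := pic_val a.1 a.2
    have h2 := pic_val (cj_Zc a.1) (by simpa using a.2)
    exact (congrFun h2 _).trans (by simp [h1])
  · refine DifferentiableOn.congr (f := fun z => g z j.succ / g z (0 : Fin 3))
      (((differentiableOn_pi.1 c.hol _).mono inter_subset_left).mul
        (((differentiableOn_pi.1 c.hol 0).mono inter_subset_left).inv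
          fun z hz => (diag_ne (c.ne z hz.1) 0).1 (pu hz.2).2)) fun z hz => ?_
    refine (congrFun (pic_val (pu hz.2).1 (pu hz.2).2) _).trans ((aeval_X _ _).trans ?_)
    exact ratio (c.ne z hz.1) ((diag_ne (c.ne z hz.1) 0).1 (pu hz.2).2) _
  · simp only [Finset.mem_singleton, iUnion_iUnion_eq_left] at hx
    exact hx.2
  · obtain ⟨v, v0, vF, rfl⟩ := id hx
    have := nn_ne v0
    simp [Dc, Pi.single_apply, proj_ap, this]
    exact ⟨fun h _ => Or.inl h.2, fun h => ⟨hx, (h 1).elim id id⟩⟩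

end Pool.Agent.Ctrl
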