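import Pool.Agent.K.MP_65ad7c_ag.C116
import Pool.Agent.P.MP_65ad7c_ag.CtE

/-! On the affine Fermat cubic the weight `1` occurs in degree `1`. -/

open Set Filter Topology TopologicalSpace MvPolynomial
open scoped ContDiff ComplexConjugate Matrix
open Pool.Agent.HT (Amb proj Form IsChart IsSNC pull)
open Pool.Agent.PWD Pool.Agent.PWF

noncomputable section
namespace Pool.Agent.Ctrl

variable {I : Cx (Pts Pc)} {one : Sec I 0 (Uc 1)} {u : ∀ n W, Form (Amb 3) n → Sec I n W}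
  {W : Opens (Pts Pc)} {n : ℕ} {N : Set (Amb 3)} {G : Amb 3 → ℂ} {L : Amb 3 → Amb 3 →L[ℝ] ℂ}

def f0 (G : Amb 3 → ℂ) : Form (Amb 3) 0 :=
  fun y => ContinuousAlternatingMap.constOfIsEmpty ℝ (Amb 3) (Fin 0) (G y)

def fm (L : Amb 3 → Amb 3 →L[ℝ] ℂ) : Form (Amb 3) 1 :=
  fun P => ContinuousAlternatingMap.ofSubsingletonLIE (𝕜 := ℝ) (0 : Fin 1) (L P)

theorem Prim.van (p : Prim L N G) : Van (Zc ∩ N) (fm L - extDeriv (f0 G)) := by
  intro γ S k1 k2 k3 z hz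
  ext v
  have := p.eq γ S k1 k2 k3 z hz (v 0)
  unfold f0
  simp [pull, extDeriv_constOfIsEmpty, fm, this]

theorem op (o : IsOpen N) : ∃ W : Opens (Pts Pc), ∀ x, x ∈ Qc.pre W ↔
    (x ∈ Zc ∧ x (0, 0) ≠ 0) ∧ x ∈ N :=
  ⟨⟨_, o.preimage sg_cont⟩, fun x => pre_iff.trans (and_congr_right fun a => by
    show proj (vc (pic x)) ∈ N ↔ _
    rw [sg_pic a.1 a.2])⟩

theorem mono {W W' : Opens (Pts Pc)} (h : W' ≤ W) : Qc.pre W' ⊆ Qc.pre W :=
  fun _ hx => ⟨hx.1, h hx.2⟩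

theorem adm {η : Form (Amb 3) n} (o : IsOpen N) (h : Qc.pre W ⊆ N) (s : ContDiffOn ℝ ∞ η N) :
    Adm (Qc.pre W) (⋃ i ∈ Qc.be, Qc.D i) η :=
  ⟨⟨N, o, h, s⟩, ∅, isOpen_empty, by simp, fun _ _ _ _ h3 _ hz => (h3 hz).2.elim⟩

theorem f0_cd (s : ContDiffOn ℝ ∞ G N) : ContDiffOn ℝ ∞ (f0 G) N :=
  (ContinuousAlternatingMap.constOfIsEmptyLIE ℝ (Amb 3) ℂ (Fin 0)).contDiff.comp_contDiffOn s

theorem d_cd {η : Form (Amb 3) n} (o : IsOpen N) (s : ContDiffOn ℝ ∞ η N) :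
    ContDiffOn ℝ ∞ (extDeriv η) N :=
  (ContinuousAlternatingMap.alternatizeUncurryFinCLM (n := n) ℝ (Amb 3) ℂ).contDiff.comp_contDiffOn
    (s.fderiv_of_isOpen o (by simp))

theorem lg_zero {S : Set (Amb 3 → ℂ)} {w : ℕ} {β : Form (Amb 3) n} (h : Lg S N w n β)
    (hw : w = 0) : β = 0 := by
  induction h with
  | zero => rfl
  | smooth => omega
  | add _ _ a b => rw [a hw, b hw, add_zero]
  | log => omega

variable (hu : IsNat Qc.pre (⋃ i ∈ Qc.be, Qc.D i) one u)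
include hu

theorem u_eq {η η' : Form (Amb 3) n} (o : IsOpen N) (h : Qc.pre W ⊆ N) (s : ContDiffOn ℝ ∞ η N)
    (s' : ContDiffOn ℝ ∞ η' N) (v : Van (Qc.pre W) (η - η')) : u n W η = u n W η' :=
  sub_eq_zero.1 (((hu.lin n W).map_sub _ _).symm.trans (hu.van n W _ (adm o h (s.sub s')) v))

theorem u_add (c : ℂ) : u 0 W (f0 fun y => G y + c) = u 0 W (f0 G) + c • rs le_top one := by
  have : (f0 fun y => G y + c) = f0 G + c • f0 fun _ => 1 := by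
    funext y
    ext
    simp [f0]
  rw [this, (hu.lin 0 W).map_add, (hu.lin 0 W).map_smul, ← hu.one]
  exact congrArg (_ + c • ·)
    (hu.res 0 (Uc 1) W le_top _ (adm isOpen_univ (subset_univ _) contDiffOn_const)).symm

theorem glue (hI : IsIC Uc I one) {T : Opens (Pts Pc)} {M : Set (Amb 3)} (oM : IsOpen M)
    (sM : Qc.pre T ⊆ M) (cM : ContDiffOn ℝ ∞ (fm L) M)
    (hp : ∀ x ∈ Qc.pre T, ∃ N G, x ∈ N ∧ Prim L N G) (s : Sec I 0 T)
    (h : u 1 T (fm L) = dd 0 1 s) : ∃ g : Amb 3 → ℂ, ∀ x ∈ Qc.pre T,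
      ∃ N G, x ∈ N ∧ Prim L N G ∧ ∀ᶠ y in 𝓝[Zc] x, g y = G y := by
  let E : Amb 3 → ℂ → Prop := fun x v => ∃ (W : Opens (Pts Pc)) (k : W ≤ T) (N : Set (Amb 3))
    (G : Amb 3 → ℂ), Prim L N G ∧ x ∈ Qc.pre W ∧ Qc.pre W ⊆ N ∧ rs k s = u 0 W (f0 G) ∧ v = G x
  have ex : ∀ x ∈ Qc.pre T, ∃ v, E x v := by
    intro x hx
    obtain ⟨N, G, xN, p⟩ := hp x hx
    obtain ⟨W, hW⟩ := op p.o
    have sub : Qc.pre (T ⊓ W : Opens (Pts Pc)) ⊆ N := fun y hy =>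
      ((hW y).1 (mono inf_le_right hy)).2
    have a : dd 0 (0 + 1) (rs inf_le_left s - u 0 (T ⊓ W) (f0 G)) = 0 := by
      rw [map_sub, ← vf_rs_dd, ← h, hu.res 1 T _ inf_le_left _ (adm oM sM cM),
        hu.d 0 _ _ (adm p.o sub (f0_cd p.sm)), sub_eq_zero]
      exact u_eq hu (oM.inter p.o) (subset_inter ((mono inf_le_left).trans sM) sub)
        (cM.mono inter_subset_left) ((d_cd p.o (f0_cd p.sm)).mono inter_subset_right)
        (p.van.anti fun y hy => ⟨(pre_iff.1 hy).1.1, sub hy⟩)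
    obtain ⟨c, W', k, j, t, k1, -, k2⟩ := hI.norm (T ⊓ W) le_top _
      ⟨fun _ _ h => absurd trivial h, a⟩ (pic x) ⟨hx.2, ((hW x).2 ⟨(pre_iff.1 hx).1, xN⟩).2⟩
    rw [vf_dd_ne j.succ_ne_zero, map_sub, map_sub, map_smul, vf_rs_rs, vf_rs_rs,
      hu.res 0 _ W' k _ (adm p.o sub (f0_cd p.sm)), sub_sub, eq_comm, sub_eq_zero] at k2
    exact ⟨_, W', k.trans inf_le_left, N, _, p.add c, ⟨hx.1, k1⟩, (mono k).trans sub,
      k2.trans (u_add hu c).symm, rfl⟩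
  have un : ∀ x v v', E x v → E x v' → v = v' := by
    rintro x _ _ ⟨W, k, N, G, p, a1, a2, a3, rfl⟩ ⟨W', k', N', G', p', b1, b2, b3, rfl⟩
    obtain ⟨M, oM, xM, hM⟩ := mem_nhdsWithin.1 (p.loc p' (pre_iff.1 a1).1.1 (a2 a1) (b2 b1))
    obtain ⟨V, hV⟩ := op oM
    have l1 : W ⊓ W' ⊓ V ≤ W := inf_le_left.trans inf_le_left
    have l2 : W ⊓ W' ⊓ V ≤ W' := inf_le_left.trans inf_le_right
    have e1 := congrArg (rs l1) a3
    have e2 := congrArg (rs l2) b3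
    rw [vf_rs_rs, hu.res 0 _ _ l1 _ (adm p.o a2 (f0_cd p.sm))] at e1
    rw [vf_rs_rs, hu.res 0 _ _ l2 _ (adm p'.o b2 (f0_cd p'.sm)), e1] at e2
    have e3 := u_eq hu (W := W ⊓ W' ⊓ V) (p.o.inter p'.o)
      (subset_inter ((mono l1).trans a2) ((mono l2).trans b2))
      (f0_cd (p.sm.mono inter_subset_left))
      (f0_cd ((p'.add (G x - G' x)).sm.mono inter_subset_right)) fun γ S _ _ k3 z hz => by
        have k4 := (hV _).1 (mono inf_le_right (k3 hz))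
        have k5 : G (γ z) - G' (γ z) = G x - G' x := hM ⟨k4.2, k4.1.1⟩
        ext v
        simp [pull, f0, ← k5]
    rw [u_add hu, e2, left_eq_add, smul_eq_zero] at e3
    refine sub_eq_zero.1 (e3.resolve_right fun e => hI.ne (pic x) trivial
      ⟨W ⊓ W' ⊓ V, le_top, 0, 0, ⟨⟨a1.2, b1.2⟩, ((hV x).2 ⟨(pre_iff.1 a1).1, xM⟩).2⟩,
        fun _ _ h => absurd trivial h, (map_zero _).trans e.symm⟩)
  refine ⟨fun x => Classical.epsilon (E x), fun x hx => ?_⟩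
  obtain ⟨_, W, k, N, G, p, a1, a2, a3, -⟩ := ex x hx
  have m : Qc.pre univ ∈ 𝓝[Zc] x := by
    filter_upwards [self_mem_nhdsWithin, nhdsWithin_le_nhds
      ((en_cd (0, 0)).continuous.continuousAt.eventually_ne (pre_iff.1 hx).1.2)] with y h1 h2
    exact pre_iff.2 ⟨⟨h1, h2⟩, trivial⟩
  refine ⟨N, G, a2 a1, p, ?_⟩
  filter_upwards [m, nhdsWithin_le_of_mem m ((model_c.cont x ⟨a1.1, trivial⟩).preimage_mem_nhdsWithin
    (W.2.mem_nhds a1.2))] with y h1 h2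
  have e : E y (G y) := ⟨W, k, N, G, p, ⟨h1.1, h2⟩, a2, a3, rfl⟩
  exact un y _ _ (Classical.epsilon_spec ⟨_, e⟩) e

theorem not_bd (hI : IsIC Uc I one) (s : Sec I 0 ⊤) (h : u 1 ⊤ al = dd 0 1 s) : False := by
  obtain ⟨g, hg⟩ := glue hu hI (L := lin) isOpen_univ (subset_univ _) al_cd.contDiffOn
    (fun x hx => exists_prim (pre_iff.1 hx).1.1) s h
  exact no_prim_aff g fun x hx h0 => hg x (pre_iff.2 ⟨⟨hx, h0⟩, trivial⟩)

theorem mem_one : u 1 ⊤ al ∈ WQ (d := 1) (m := 1) one Qc 1 := by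
  have a : Adm (Qc.pre (⊤ : Opens (Pts Pc))) (⋃ i ∈ Qc.be, Qc.D i) al :=
    adm isOpen_univ (subset_univ _) al_cd.contDiffOn
  have v : Van (Qc.pre (⊤ : Opens (Pts Pc))) (extDeriv al) := fun γ S k1 k2 k3 z hz =>
    closed γ S k1 k2 (fun y hy => (pre_iff.1 (k3 hy)).1.1) z hz
  refine ⟨(hu.d 1 ⊤ _ a).trans (hu.van _ _ _
    (adm isOpen_univ (subset_univ _) (d_cd isOpen_univ al_cd.contDiffOn)) v),
    u, ⊤, al, 0, 0, hu, subset_univ _, a, v, ?_, 0, fun n J hJ =>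
      ⟨⟨univ, isOpen_univ, subset_univ _, contDiffOn_const⟩, fun e x _ => ?_⟩⟩
  · rw [vf_rs_self, sub_self, map_zero]
  · obtain rfl := Finset.subset_empty.1 hJ
    obtain rfl : n = 1 := e
    refine ⟨univ, al, isOpen_univ, trivial, Lg.smooth al_cd.contDiffOn, fun γ S _ _ _ z _ => ?_⟩
    ext v
    simp [pull, Dt, cob, extDeriv, ContinuousAlternatingMap.alternatizeUncurryFin_apply]

omit hu in
theorem bd_zero {α : Glo I 1} (h : α ∈ WQ (d := 1) (m := 1) one Qc 0) :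
    ∃ s : Sec I 0 ⊤, α = dd 0 1 s := by
  obtain ⟨-, u, O, η, j, t, hu, hO, ⟨⟨N, a1, a2, a3⟩, -⟩, -, e, b, hb⟩ := h
  obtain rfl : O = ⊤ := top_le_iff.1 fun y _ => hO fun i => i.elim0
  obtain ⟨N', b1, b2, b3⟩ := (hb 0 ∅ subset_rfl).1
  have sub : Qc.pre (⊤ : Opens (Pts Pc)) ⊆ N' := fun x hx => b2 ⟨by simpa using hx.1.1, hx.1.2⟩
  have k : u 1 ⊤ η = dd 0 1 (u 0 ⊤ (b 0 ∅)) := by
    rw [hu.d 0 ⊤ _ (adm b1 sub b3)]
    refine u_eq hu (a1.inter b1) (subset_inter a2 sub) (a3.mono inter_subset_left)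
      ((d_cd b1 b3).mono inter_subset_right) fun γ S k1 k2 k3 z hz => ?_
    obtain ⟨M, β, c1, c2, c3, c4⟩ := (hb 1 ∅ subset_rfl).2 rfl (γ z)
      (by simpa using (k3 hz).1.1)
    have := c4 γ (S ∩ γ ⁻¹' M) (k2.continuousOn.isOpen_inter_preimage k1 c1)
      (k2.mono inter_subset_left)
      (fun y hy => ⟨⟨by simpa using (k3 hy.1).1.1, hy.2⟩, (k3 hy.1).1.2⟩) z ⟨hz, c2⟩
    simpa [lg_zero c3 rfl, Dt, cob] using this
  rw [vf_rs_self, k, sub_eq_iff_eq_add] at e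
  by_cases hj : j = 0
  · subst hj
    exact ⟨t + _, e.trans (map_add _ _ _).symm⟩
  · exact ⟨_, by rw [e, vf_dd_ne (by omega), zero_add]⟩

omit hu in
theorem odd_w (hI : IsIC Uc I one) :
    WQ (d := 1) (m := 1) one Qc 1 ≠ WQ (d := 1) (m := 1) one Qc 0 := by
  obtain ⟨u, hu⟩ := (model_iff.1 model_c).exists_nat ⟨Pc, rfl⟩ hI
  have hu' : IsNat Qc.pre (⋃ i ∈ Qc.be, Qc.D i) one fun n W => u n W :=
    ⟨fun n W => (u n W).isLinear, hu.van, hu.res, hu.d, hu.one⟩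
  intro e
  obtain ⟨s, hs⟩ := bd_zero (e ▸ mem_one hu')
  exact not_bd hu' hI s hs

end Pool.Agent.Ctrl
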