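import Pool.Agent.P.MP_65ad7c_ag.CtF

/-! On the affine Fermat cubic the weight `2` occurs in degree `1`. -/

open Set Filter Topology TopologicalSpace MvPolynomial
open scoped ContDiff ComplexConjugate Matrix
open Pool.Agent.HT (Amb proj Form IsChart IsSNC pull)
open Pool.Agent.PWD Pool.Agent.PWF

noncomputable section
namespace Pool.Agent.Ctrl

variable {O : Set ℂ} {f : ℂ → Fin 3 → ℂ} {φ : ℂ → ℂ} {τ : Amb 3 → ℂ} {W M N S : Set (Amb 3)}
  {L : Amb 3 → Amb 3 →L[ℝ] ℂ} {n : ℕ} {x : Amb 3}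

theorem fm_cd (h : ContDiffOn ℝ ∞ L M) : ContDiffOn ℝ ∞ (fm L) M :=
  (ContinuousAlternatingMap.ofSubsingletonLIE (𝕜 := ℝ) (E := Amb 3) (F := ℂ)
    (0 : Fin 1)).contDiff.comp_contDiffOn h

theorem Ch.van (c : Ch O f φ τ W) {α : Form (Amb 3) n} (h : Van S α) {t : ℂ}
    (ht : ∀ᶠ s in 𝓝 t, s ∈ O ∧ proj (f s) ∈ S) : pull (proj ∘ f) α t = 0 := by
  have b : ∀ s, en (0, 0) (EuclideanSpace.single (0, 0) s) = s := fun s => by simp [en_ap]
  have a := van_iff.1 h ((proj ∘ f) ∘ en (0, 0)) (EuclideanSpace.single (0, 0) t)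
    (((en _).continuous.continuousAt.eventually ((b t).symm ▸ ht)).mono fun y hy =>
      ⟨(c.cd hy.1).comp y (en _).contDiff.contDiffAt, hy.2⟩)
  ext v
  have := DFunLike.congr_fun a fun i => EuclideanSpace.single (0, 0) (v i)
  rw [pull, fderiv_comp _ (by rw [b]; exact (c.cd ht.self_of_nhds.1).differentiableAt (by simp))
    (en _).differentiableAt, ContinuousLinearMap.fderiv, Function.comp_apply, b] at this
  simpa [pull, Function.comp_def, b] using this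

theorem Ch.poin (c : Ch O f φ τ W) (hx : x ∈ Zc) (hW : x ∈ W) (oM : IsOpen M) (xM : x ∈ M)
    (cL : ContDiffOn ℝ ∞ L M) (h : Van ((Zc ∩ M) \ {x}) (extDeriv (fm L))) :
    ∃ N G, x ∈ N ∧ Prim L N G := by
  obtain ⟨t0, e0⟩ := c.sur _ ⟨hx, hW⟩
  have a : ∀ᶠ t in 𝓝 (τ x), t ∈ O ∧ proj (f t) ∈ M := (c.oO.eventually_mem t0).and
    ((c.cd t0).continuousAt.eventually_mem (oM.mem_nhds (by
      rw [Function.comp_apply, e0]; exact xM)))
  obtain ⟨r, r0, hr⟩ := Metric.eventually_nhds_iff_ball.1 a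
  let om : ℂ → ℂ →L[ℝ] ℂ := fun t => (L (proj (f t))).comp (fderiv ℝ (proj ∘ f) t)
  have cm : ∀ t ∈ Metric.ball (τ x) r, ContDiffAt ℝ ∞ om t := fun t ht =>
    ((cL.contDiffAt (oM.mem_nhds (hr t ht).2)).comp t (c.cd (hr t ht).1)).clm_comp
      ((c.cd (hr t ht).1).fderiv_right (by simp))
  have s1 : ∀ t ∈ Metric.ball (τ x) r, t ≠ τ x → ∀ a b, fderiv ℝ om t a b = fderiv ℝ om t b a := by
    intro t ht ne a b
    have d := (cm t ht).differentiableAt (by simp)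
    have k := c.van h (t := t) (by
      filter_upwards [Metric.isOpen_ball.mem_nhds ht, isOpen_ne.mem_nhds ne] with s h1 h2
      exact ⟨(hr s h1).1, ⟨(c.mem s (hr s h1).1).1, (hr s h1).2⟩, fun e => h2
        ((c.inv s (hr s h1).1).symm.trans (congrArg τ e))⟩)
    rw [pull, ← extDeriv_pullback (r := ∞) (f := proj ∘ f) (x := t) (((fm_cd cL).contDiffAt
      (oM.mem_nhds (hr t ht).2)).differentiableAt (by simp)) (c.cd (hr t ht).1) (by simp; decide)]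
      at k
    have k2 := (extDeriv_apply ((ContinuousAlternatingMap.ofSubsingletonLIE (𝕜 := ℝ) (E := ℂ)
      (F := ℂ) (0 : Fin 1)).differentiableAt.comp t d) ![a, b]).symm.trans
      (DFunLike.congr_fun k ![a, b])
    have k3 : ∀ a b, fderiv ℝ (fun s => om s b) t a = fderiv ℝ om t a b := fun a b => by
      rw [fderiv_clm_apply d (differentiableAt_const _)]
      simp
    rw [← k3, ← k3, ← sub_eq_zero]
    simpa [Fin.sum_univ_two, Fin.removeNth, sub_eq_add_neg] using k2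
  obtain ⟨Φ, hΦ⟩ := (convex_ball (τ x) r).exists_forall_hasFDerivAt_of_fderiv_symmetric (𝕜 := ℝ)
    Metric.isOpen_ball
    (fun t ht => ((cm t ht).differentiableAt (by simp)).differentiableWithinAt) fun t ht a b => by
      by_cases e : t = τ x
      · have k := ((cm t ht).fderiv_right (m := 0) (by simp)).continuousAt
        have k1 : ∀ a b, ContinuousAt (fun s => fderiv ℝ om s a b) t := fun a b =>
          (k.clm_apply continuousAt_const).clm_apply continuousAt_const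
        refine tendsto_nhds_unique_of_eventuallyEq (l := 𝓝[≠] t)
          ((k1 a b).mono_left nhdsWithin_le_nhds) ((k1 b a).mono_left nhdsWithin_le_nhds) ?_
        filter_upwards [nhdsWithin_le_nhds (Metric.isOpen_ball.mem_nhds ht), self_mem_nhdsWithin]
          with s h1 h2 using s1 s h1 (e ▸ h2) a b
      · exact s1 t ht e a b
  exact ⟨W ∩ τ ⁻¹' Metric.ball (τ x) r, _, ⟨hW, Metric.mem_ball_self r0⟩,
    c.prim Metric.isOpen_ball (fun t ht => (hr t ht).1)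
      ((contDiffOn_infty_iff_fderiv_of_isOpen Metric.isOpen_ball).2
        ⟨fun t ht => (hΦ t ht).differentiableAt.differentiableWithinAt,
          ContDiffOn.congr (fun t ht => (cm t ht).contDiffWithinAt) fun t ht => (hΦ t ht).fderiv⟩)
      hΦ⟩

/-- the unit `x + y` of the affine cubic -/
def Fu (P : Amb 3) : ℂ := (P (1, 0) + P (2, 0)) * (P (0, 0))⁻¹

def Nu : Set (Amb 3) := {P | P (0, 0) ≠ 0} ∩ {P | P (1, 0) + P (2, 0) ≠ 0}

def Lu (P : Amb 3) : Amb 3 →L[ℝ] ℂ := (Fu P)⁻¹ • fderiv ℝ Fu P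

theorem oNu : IsOpen Nu := (isOpen_ne_fun (en_cd _).continuous continuous_const).inter
  (isOpen_ne_fun ((en_cd _).add (en_cd _)).continuous continuous_const)

theorem Fu_cd : ContDiffOn ℝ ∞ Fu Nu :=
  ((en_cd _).add (en_cd _)).contDiffOn.mul ((en_cd _).contDiffOn.inv fun _ h => h.1)

theorem Fu_ne (h : x ∈ Nu) : Fu x ≠ 0 := mul_ne_zero h.2 (inv_ne_zero h.1)

theorem Lu_cd : ContDiffOn ℝ ∞ Lu Nu :=
  (Fu_cd.inv fun _ => Fu_ne).smul (Fu_cd.fderiv_of_isOpen oNu (by simp))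

theorem Fu_proj {v : Fin 3 → ℂ} (v0 : v ≠ 0) (h : v 0 ≠ 0) : Fu (proj v) = (v 1 + v 2) / v 0 := by
  rw [Fu, ← div_eq_mul_inv, add_div, ratio v0 h, ratio v0 h, add_div]

theorem mem_Nu (hx : x ∈ Zc) (h0 : x (0, 0) ≠ 0) : x ∈ Nu := by
  refine ⟨h0, fun e => ?_⟩
  obtain ⟨v, v0, vF, rfl⟩ := hx
  have h1 := (diag_ne v0 0).1 h0
  have h2 := Fu_proj v0 h1
  rw [Fu, e, zero_mul, eq_comm, div_eq_zero_iff, or_iff_left h1] at h2
  exact pow_ne_zero 3 h1 (by linear_combination vF - (v 1 ^ 2 - v 1 * v 2 + v 2 ^ 2) * h2)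

theorem log_prim (h : x ∈ Nu) : ∃ N G, x ∈ N ∧ IsOpen N ∧ ContDiffOn ℝ ∞ G N ∧
    ∀ y ∈ N, HasFDerivAt G (Lu y) y := by
  have c := Fu_cd.div_const (Fu x)
  have o := c.continuousOn.isOpen_inter_preimage oNu Complex.isOpen_slitPlane
  refine ⟨Nu ∩ (fun y => Fu y / Fu x) ⁻¹' Complex.slitPlane, Complex.log ∘ fun y => Fu y / Fu x,
    ⟨h, by simp [Fu_ne h]⟩, o, fun y hy =>
    (((Complex.contDiffAt_log hy.2).restrict_scalars ℝ).comp y
      (c.contDiffAt (oNu.mem_nhds hy.1))).contDiffWithinAt, fun y hy => ?_⟩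
  have d := ((Fu_cd.contDiffAt (oNu.mem_nhds hy.1)).differentiableAt (by simp)).hasFDerivAt
  refine (((Complex.hasDerivAt_log hy.2).hasFDerivAt.restrictScalars ℝ).comp y
    (d.mul_const (Fu x)⁻¹)).congr_fderiv ?_
  ext1 v
  have := Fu_ne h
  have := Fu_ne hy.1
  simp [Lu]
  field_simp

theorem Lu_prim (h : x ∈ Nu) : ∃ N G, x ∈ N ∧ Prim Lu N G := by
  obtain ⟨N, G, a, b, c, d⟩ := log_prim h
  exact ⟨N, G, a, b, c, fun γ S _ _ k z hz v => by rw [(d _ (k hz).2).fderiv]⟩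

theorem Lu_closed (h : x ∈ Nu) : extDeriv (fm Lu) x = 0 := by
  obtain ⟨N, G, a, b, c, d⟩ := log_prim h
  have e : fm Lu =ᶠ[𝓝 x] extDeriv (f0 G) := by
    filter_upwards [b.mem_nhds a] with y hy
    unfold f0
    rw [extDeriv_constOfIsEmpty, (d y hy).fderiv]
    rfl
  rw [e.extDeriv_eq]
  exact extDeriv_extDeriv_apply ((f0_cd c).contDiffAt (b.mem_nhds a)) (by simp; decide)

theorem exists_inf : ∃ x ∈ Zc, x (0, 0) = 0 ∧ x (1, 1) ≠ 0 ∧ x (1, 1) + x (2, 1) ≠ 0 := by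
  obtain ⟨s, hs⟩ := IsAlgClosed.exists_pow_nat_eq (-3 : ℂ) two_pos
  have v0 : (![0, 1, (1 + s) / 2] : Fin 3 → ℂ) ≠ 0 := fun h => by simpa using congrFun h 1
  have := nn_ne v0
  refine ⟨_, ⟨_, v0, ?_, rfl⟩, by simp [proj_ap], by simp [proj_ap, this], fun h => ?_⟩
  · simp
    linear_combination (s + 3) / 8 * hs
  · simp [proj_ap] at h
    field_simp at h
    have e : s = -3 := by linear_combination h
    rw [e] at hs
    norm_num at hs

theorem no_log (hx : x ∈ Zc) (h0 : x (0, 0) = 0) (h1 : x (1, 1) ≠ 0)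
    (h2 : x (1, 1) + x (2, 1) ≠ 0) (oM : IsOpen M) (xM : x ∈ M) (g : Amb 3 → ℂ)
    (h : ∀ y, (y ∈ Zc ∧ y (0, 0) ≠ 0) ∧ y ∈ M →
      ∃ N G, y ∈ N ∧ Prim Lu N G ∧ ∀ᶠ z in 𝓝[Zc] y, g z = G z) : False := by
  obtain ⟨O, f, φ, τ, W, c, hW⟩ := exists_ch hx
  obtain ⟨t0, e0⟩ := c.sur _ ⟨hx, hW⟩
  obtain ⟨i, hi⟩ := c.zer
  obtain ⟨rfl, e1⟩ : 0 = i ∧ τ x = 0 := ((hi _ t0).2 0).1
    (not_iff_not.1 (diag_ne (c.ne _ t0) 0) |>.1 (e0.symm ▸ h0))
  rw [e1] at t0 e0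
  have dA : DifferentiableOn ℂ (fun t => f t 1 + f t 2) O :=
    (differentiableOn_pi.1 c.hol 1).add (differentiableOn_pi.1 c.hol 2)
  have n1 : f 0 1 ≠ 0 := (diag_ne (c.ne _ t0) 1).1 (e0.symm ▸ h1)
  have nA : f 0 1 + f 0 2 ≠ 0 := fun e => h2 (by
    have := ratio (c.ne _ t0) n1 2
    rw [e0, div_eq_div_iff h1 n1] at this
    apply mul_right_cancel₀ n1
    linear_combination this + x (1, 1) * e)
  have a : ∀ᶠ t in 𝓝 (0 : ℂ), (t ∈ O ∧ proj (f t) ∈ M) ∧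
      (f t 1 + f t 2) / (f 0 1 + f 0 2) ∈ Complex.slitPlane := ((c.oO.eventually_mem t0).and
    ((c.cd t0).continuousAt.eventually_mem (oM.mem_nhds (by
      rw [Function.comp_apply, e0]; exact xM)))).and
    (((dA.differentiableAt (c.oO.mem_nhds t0)).continuousAt.div_const _).eventually_mem
      (Complex.isOpen_slitPlane.mem_nhds (by simp [nA])))
  obtain ⟨r, r0, hr⟩ := Metric.eventually_nhds_iff_ball.1 a
  have d : ∀ t ∈ Metric.sphere (0 : ℂ) (r / 2), HasDerivAt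
      (fun t => Complex.log ((f t 1 + f t 2) / (f 0 1 + f 0 2)) - (g ∘ proj ∘ f) t) (t - 0)⁻¹ t := by
    intro t ht
    have ne : t ≠ 0 := Metric.ne_of_mem_sphere ht (by positivity)
    obtain ⟨⟨a1, a2⟩, a3⟩ := hr t (Metric.sphere_subset_ball (by linarith) ht)
    have z : ∀ s ∈ O, s ≠ 0 → f s 0 ≠ 0 := fun s hs e => (hi s hs).1.symm ▸ e
    have m : proj (f t) ∈ Zc ∧ proj (f t) (0, 0) ≠ 0 :=
      ⟨(c.mem t a1).1, (diag_ne (c.ne t a1) 0).2 (z t a1 ne)⟩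
    obtain ⟨N, G, b1, b2, b3⟩ := h _ ⟨m, a2⟩
    have dA' := (dA.differentiableAt (c.oO.mem_nhds a1)).hasDerivAt
    have nt : f t 1 + f t 2 ≠ 0 := fun e => Complex.slitPlane_ne_zero a3 (by rw [e, zero_div])
    have k1 : HasDerivAt (Fu ∘ proj ∘ f) _ t :=
      (dA'.div (hasDerivAt_id t) ne).congr_of_eventuallyEq (by
        filter_upwards [c.oO.mem_nhds a1, isOpen_ne.mem_nhds ne] with s h1 h2
        simp [Fu_proj (c.ne s h1) (z s h1 h2), (hi s h1).1])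
    have k2 := ((Fu_cd.contDiffAt (oNu.mem_nhds (mem_Nu m.1 m.2))).differentiableAt
      (by simp)).hasFDerivAt.comp t ((c.cd a1).differentiableAt (by simp)).hasFDerivAt
    have k3 := k2.unique (k1.hasFDerivAt.restrictScalars ℝ)
    have k4 : HasDerivAt (g ∘ proj ∘ f)
        (deriv (fun t => f t 1 + f t 2) t / (f t 1 + f t 2) - t⁻¹) t := by
      refine hasFDerivAt_of_restrictScalars ℝ ((b2.rkey c a1 b1).congr_of_eventuallyEq
        ((c.up a1).eventually b3)) ?_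
      ext1 s
      have := DFunLike.congr_fun k3 s
      simp only [ContinuousLinearMap.comp_apply] at this
      simp only [Lu, ContinuousLinearMap.comp_apply, smul_apply, this,
        Fu_proj (c.ne t a1) (z t a1 ne), (hi t a1).1]
      simp
      field_simp
    refine (((dA'.div_const _).clog a3).sub k4).congr_deriv ?_
    field_simp
    ring
  exact Complex.two_pi_I_ne_zero
    ((circleIntegral.integral_sub_inv_of_mem_ball (Metric.mem_ball_self (half_pos r0))).symm.trans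
      (circleIntegral.integral_eq_zero_of_hasDerivWithinAt (half_pos r0).le
        fun t ht => (d t ht).hasDerivWithinAt))

theorem lg_one {T : Set (Amb 3 → ℂ)} {w : ℕ} {β : Form (Amb 3) n} (h : Lg T N w n β)
    (hw : w = 1) : ContDiffOn ℝ ∞ β N := by
  induction h with
  | zero => exact contDiffOn_const
  | smooth a => exact a
  | add _ _ a b => exact (a hw).add (b hw)
  | log _ a =>
    rw [lg_zero a (by omega)]
    refine contDiffOn_const.congr (f := fun _ => 0) fun y _ => ?_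
    ext v
    simp [ContinuousAlternatingMap.alternatizeUncurryFin_apply]

variable {I : Cx (Pts Pc)} {one : Sec I 0 (Uc 1)}

/-- A class of weight `1` is a coboundary near every point at infinity. -/
theorem bd_one {α : Glo I 1} (h : α ∈ WQ (d := 1) (m := 1) one Qc 1) (hx : x ∈ Zc)
    (h0 : x (0, 0) = 0) : ∃ (M : Set (Amb 3)) (T : Opens (Pts Pc)) (s : Sec I 0 T), IsOpen M ∧
      x ∈ M ∧ (∀ y, y ∈ Qc.pre T ↔ (y ∈ Zc ∧ y (0, 0) ≠ 0) ∧ y ∈ M) ∧ rs le_top α = dd 0 1 s := by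
  obtain ⟨-, u, O, η, j, t, hu, hO, ⟨⟨N, a1, a2, a3⟩, -⟩, cl, e, b, hb⟩ := h
  obtain rfl : O = ⊤ := top_le_iff.1 fun y _ => hO fun i => i.elim0
  obtain ⟨N', b1, b2, b3⟩ := (hb 0 ∅ subset_rfl).1
  have sub : Qc.pre (⊤ : Opens (Pts Pc)) ⊆ N' := fun x hx => b2 ⟨by simpa using hx.1.1, hx.1.2⟩
  obtain ⟨M, β, c1, c2, c3, c4⟩ := (hb 1 ∅ subset_rfl).2 rfl x (by simpa using hx)
  have cβ := lg_one c3 rfl
  obtain ⟨T, hT⟩ := op c1
  have c5 : Van (Qc.pre T) (η - (extDeriv (b 0 ∅) + β)) := by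
    have := c4.anti (S' := Qc.pre T) fun y hy => ⟨⟨by simpa using hy.1.1, ((hT y).1 hy).2⟩, hy.1.2⟩
    simpa [Dt, cob, sub_sub] using this
  have sT : Qc.pre T ⊆ Qc.pre (⊤ : Opens (Pts Pc)) := mono le_top
  have sb : Sm (Qc.pre T) (b 0 ∅) := ⟨N', b1, sT.trans sub, b3⟩
  have sβ : Sm (Qc.pre T) β := ⟨M, c1, fun y hy => ((hT y).1 hy).2, cβ⟩
  have c6 : Van (Qc.pre T) (extDeriv β) := by
    have k := (c5.d_sub ⟨N, a1, sT.trans a2, a3⟩ (sb.d.add sβ)).symm.of_sub (cl.anti sT)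
    exact (k.sub (Van.dd sb)).congr fun y hy => by
      rw [Pi.sub_apply, extDeriv_add (sb.d.diff hy) (sβ.diff hy), add_sub_cancel_left]
  obtain ⟨O, f, φ, τ, W, c, hW⟩ := exists_ch hx
  obtain ⟨i, hi⟩ := c.zer
  have z : ∀ y ∈ Zc ∩ W, y (0, 0) = 0 → τ y = 0 := fun y hy e => (((hi _ (c.sur y hy).1).2 0).1
    (not_iff_not.1 (diag_ne (c.ne _ (c.sur y hy).1) 0) |>.1 ((c.sur y hy).2.symm ▸ e))).2
  let K := ContinuousAlternatingMap.ofSubsingletonLIE (𝕜 := ℝ) (E := Amb 3) (F := ℂ) (0 : Fin 1)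
  have eβ : fm (fun P => K.symm (β P)) = β := funext fun P => K.apply_symm_apply _
  obtain ⟨N₁, G, g1, g2⟩ := c.poin (L := fun P => K.symm (β P)) hx hW (c1.inter c.oW) ⟨c2, hW⟩
    (K.symm.contDiff.comp_contDiffOn (cβ.mono inter_subset_left)) (eβ.symm ▸ c6.anti fun y hy =>
      (hT y).2 ⟨⟨hy.1.1, fun e => hy.2 (by
        rw [← (c.sur y ⟨hy.1.1, hy.1.2.2⟩).2, z y ⟨hy.1.1, hy.1.2.2⟩ e, ← z x ⟨hx, hW⟩ h0]
        exact (c.sur x ⟨hx, hW⟩).2)⟩, hy.1.2.1⟩)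
  obtain ⟨T', hT'⟩ := op (c1.inter g2.o)
  have s1 : Qc.pre T' ⊆ Qc.pre T := fun y hy => (hT y).2 ⟨((hT' y).1 hy).1, ((hT' y).1 hy).2.1⟩
  have s2 : Qc.pre T' ⊆ N₁ := fun y hy => ((hT' y).1 hy).2.2
  have s3 := (s1.trans sT).trans sub
  have k : u 1 T' η = dd 0 1 (u 0 T' (b 0 ∅) + u 0 T' (f0 G)) := by
    rw [map_add, hu.d 0 _ _ (adm b1 s3 b3), hu.d 0 _ _ (adm g2.o s2 (f0_cd g2.sm)),
      ← (hu.lin 1 T').map_add]
    refine u_eq hu (a1.inter (b1.inter g2.o))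
      (subset_inter ((s1.trans sT).trans a2) (subset_inter s3 s2)) (a3.mono inter_subset_left)
      (((d_cd b1 b3).mono fun _ h => h.2.1).add ((d_cd g2.o (f0_cd g2.sm)).mono fun _ h => h.2.2))
      ((c5.anti s1).trans ?_)
    rw [add_sub_add_left_eq_sub, ← eβ]
    exact g2.van.anti fun y hy => ⟨hy.1.1, s2 hy⟩
  have e' := congrArg (rs (le_top : T' ≤ ⊤)) e
  rw [vf_rs_self, map_sub, hu.res 1 ⊤ T' le_top _ (adm a1 a2 a3), k, vf_rs_dd,
    sub_eq_iff_eq_add] at e'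
  by_cases hj : j = 0
  · subst hj
    exact ⟨_, T', _ + _, c1.inter g2.o, ⟨c2, g1⟩, hT', e'.trans (map_add _ _ _).symm⟩
  · exact ⟨_, T', _, c1.inter g2.o, ⟨c2, g1⟩, hT', by rw [e', vf_dd_ne (by omega), zero_add]⟩

theorem top_w (hI : IsIC Uc I one) {α : Glo I 1} (h : Coc univ α) :
    α ∈ WQ (d := 1) (m := 1) one Qc 2 := by
  have hQ := model_iff.1 model_c
  obtain ⟨u, hu⟩ := hQ.exists_nat var_c hI
  obtain ⟨η, hη⟩ := hQ.exists_rp var_c hu strat_c hI (fun e g =>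
    (strat_c.dim e g).imp fun p hp => ⟨hp.1, fun y hy => hp.2 y hy.1⟩) h.2
  exact wq_iff.2 ⟨h.2, u, η, hu, hη, hQ.inW_top hη⟩

theorem even_w (hI : IsIC Uc I one) :
    WQ (d := 1) (m := 1) one Qc 2 ≠ WQ (d := 1) (m := 1) one Qc 1 := by
  obtain ⟨u, hu⟩ := (model_iff.1 model_c).exists_nat var_c hI
  have hu' : IsNat Qc.pre (⋃ i ∈ Qc.be, Qc.D i) one fun n W => u n W :=
    ⟨fun n W => (u n W).isLinear, hu.van, hu.res, hu.d, hu.one⟩
  have sN : ∀ T : Opens (Pts Pc), Qc.pre T ⊆ Nu := fun T y hy =>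
    mem_Nu (pre_iff.1 hy).1.1 (pre_iff.1 hy).1.2
  have a := adm oNu (sN ⊤) (fm_cd Lu_cd)
  intro e
  obtain ⟨x, hx, h0, h1, h2⟩ := exists_inf
  obtain ⟨M, T, s, oM, xM, hT, hs⟩ := bd_one (α := u 1 ⊤ (fm Lu)) (e ▸ top_w hI
    ⟨fun _ _ h => absurd trivial h, (hu'.d 1 ⊤ _ a).trans (hu'.van _ _ _
      (adm oNu (sN ⊤) (d_cd oNu (fm_cd Lu_cd))) (Van.of_zero fun y hy => Lu_closed (sN ⊤ hy)))⟩) hx h0
  obtain ⟨g, hg⟩ := glue hu' hI oNu (sN T) (fm_cd Lu_cd) (fun y hy => Lu_prim (sN T hy)) s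
    ((hu'.res 1 ⊤ T le_top _ a).symm.trans hs)
  exact no_log hx h0 h1 h2 oM xM g fun y hy => hg y ((hT y).2 hy)

theorem zero_w (hI : IsIC Uc I one) (α : Glo I 1) :
    α ∈ WQ (d := 1) (m := 1) one Qc 0 ↔ ∃ s : Glo I 0, α = dd 0 1 s := by
  refine ⟨bd_zero, ?_⟩
  rintro ⟨s, rfl⟩
  obtain ⟨u, hu⟩ := (model_iff.1 model_c).exists_nat var_c hI
  refine wq_iff.2 ⟨vf_dd_dd _ _ _ _, u, 0, hu, ⟨⊤, 0, s, subset_univ _, Data.Adm.zero, ?_, ?_⟩,
    InW.zero⟩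
  · rw [extDeriv_zeroDL1a]
    exact Van.zero
  · rw [map_zero, sub_zero, vf_rs_self]

theorem pts_ev (y : Pts Pc) : y.1 = eval fun j => y.1 (X j) :=
  (pts_val y).trans (funext fun g => DFunLike.congr_fun (coe_aeval_eq_eval _) g)

theorem pts_iff (y : MvPolynomial (Fin 2) ℂ → ℂ) :
    y ∈ Pts Pc ↔ ∃ w : Fin 2 → ℂ, 1 + w 0 ^ 3 + w 1 ^ 3 = 0 ∧ y = eval w := by
  refine ⟨fun hy => ⟨fun j => y (X j), pts_eq ⟨y, hy⟩, pts_ev ⟨y, hy⟩⟩, ?_⟩
  rintro ⟨w, a, e⟩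
  have : y = (pt w a).1 := e.trans (funext fun g => (DFunLike.congr_fun (coe_aeval_eq_eval _) g).symm)
  exact this ▸ (pt w a).2

theorem model_ev : Model Qc (fun y y' => ∀ w, y = eval w →
    y' = eval fun j => starRingEnd ℂ (w j)) 1 1 fun c => Uc c := by
  have h := model_c
  refine ⟨h.gen, h.dim, h.snc, h.cjX, h.cjD, h.disj, h.cont, h.surj, h.inj, h.exc,
    fun x hx w e => (pts_ev _).trans (congrArg (fun v => ⇑(eval v)) (funext fun j => ?_)), h.hol,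
    h.ph_cont, h.ph_eq, h.ph_inf, h.ph_hyp⟩
  exact (h.real x hx j).trans (congrArg conj ((congrFun e _).trans (eval_X j)))

theorem ctrl_w : ∃ (P : Ideal (MvPolynomial (Fin 2) ℂ)) (U : ℕ → Opens (Pts P)) (I : Cx (Pts P))
    (one : Sec I 0 (U 1)) (Q : Data (Pts P) (1 - 1)),
    (∀ y, y ∈ Pts P ↔ ∃ w : Fin 2 → ℂ, 1 + w 0 ^ 3 + w 1 ^ 3 = 0 ∧ y = MvPolynomial.eval w) ∧
    IsStrat 1 U ∧ IsIC U I one ∧
    Model Q (fun y y' => ∀ w, y = MvPolynomial.eval w →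
      y' = MvPolynomial.eval fun j => starRingEnd ℂ (w j)) 1 1 (fun c => U c) ∧
    (∀ α : Glo I 1, α ∈ WQ one Q 0 ↔ ∃ s : Glo I 0, α = dd 0 1 s) ∧
    WQ one Q 1 ≠ WQ one Q 0 ∧ WQ one Q 2 ≠ WQ one Q 1 ∧
    ∀ α : Glo I 1, Coc Set.univ α → α ∈ WQ one Q 2 := by
  obtain ⟨I, one, h⟩ := ic_c
  exact ⟨Pc, Uc, I, one, Qc, pts_iff, strat_c, h, model_ev, zero_w h, odd_w h, even_w h,
    fun _ => top_w h⟩

end Pool.Agent.Ctrl
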