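import Pool.Agent.P.MP_65ad7c_ag.CtQ

/-! The Hodge filtration on the first cohomology of the Fermat cubic has three distinct steps. -/

open Set Filter Topology CategoryTheory
open scoped ContDiff ComplexConjugate
open Pool.Agent.PQ

noncomputable section
namespace Pool.Agent.Ctrl

section gen
variable {N n : ℕ} {ι : Type} {Z : Set (Amb N)} {D : ι → Set (Amb N)}

theorem sepF {Y : Type} [TopologicalSpace Y] {S : Y → Y → Prop} (M : Model S) (k k' : ℕ)
    (e1 : M.R.N = N) (e2 : M.R.ι = ι) (e3 : HEq M.R.Z Z) (e4 : HEq M.R.D D) (e5 : M.I = M.R.K)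
    (e6 : HEq M.p (𝟙 M.I)) (hd : ∀ d O f z, IsChart (d := d) Z O f → z ∈ O → d = 1)
    (hZ : Z.Nonempty) (B : Submodule ℂ (Form N 1)) (a : Form N 1) (h1 : a ∉ B)
    (h2 : Ac Z (Z \ ⋃ i, D i) a) (h3 : Nul Z (dd a)) (h4 : Fil Z D (2 - k') a)
    (h5 : ∀ b, Nul Z b → b ∈ B) (h6 : ∀ b, Fil Z D (2 - k) b → b ∈ B) :
    M.F 1 k ≠ M.F 1 k' := by
  obtain ⟨⟨N, d, ι, fin, Z, D, snc, π, up, up_eq, K, ev, lin, isFun, inj, surj, ev_rs, ev_dv⟩,
    U, I, on, ic, c1, c2, c3, i, p, sp, it, wt, hg, hg'⟩ := M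
  dsimp only at e1 e2 e3 e4 e5 e6
  subst e1 e2 e5
  obtain rfl := eq_of_heq e3
  obtain rfl := eq_of_heq e4
  obtain rfl := eq_of_heq e6
  obtain ⟨x, hx⟩ := hZ
  obtain ⟨O, f, -, c, ⟨z, hz, -⟩, -⟩ := snc.chart x hx
  obtain rfl := hd d O f z c hz
  have eu : up ⊤ = Z \ ⋃ i, D i := by
    rw [up_eq]
    ext
    simp
  obtain ⟨φ, n0, hφ⟩ := B.exists_dual_map_eq_bot_of_notMem h1 inferInstance
  have kk : ∀ b ∈ B, φ b = 0 := fun b hb => by
    have := Submodule.mem_map_of_mem (f := φ) hb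
    rwa [hφ] at this
  obtain ⟨l, hl⟩ := surj 1 ⊤ 1 rfl φ ⟨fun c a b _ _ => by simp, fun b _ hb => kk b (h5 b hb)⟩
  intro e
  have m1 : l ∈ Model.F ⟨⟨N, 1, ι, fin, Z, D, snc, π, up, up_eq, I, ev, lin, isFun, inj, surj,
      ev_rs, ev_dv⟩, U, I, on, ic, c1, c2, c3, i, 𝟙 I, sp, it, wt, hg, hg'⟩ 1 k := by
    refine ⟨l, fun q hq b b1 _ b3 => ?_, 0, ?_⟩
    · obtain rfl : q = 1 := by
        have : q + 1 = 2 * 1 := hq
        omega
      exact (hl b b1).trans (kk b (h6 b b3))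
    · exact (add_zero l).symm.trans (congrArg (l + ·) (map_zero (ModuleCat.Hom.hom _)).symm)
  rw [e] at m1
  obtain ⟨l', a1, b, a2⟩ := m1
  have a3 : l = (1 : ℂ) • l' + dv 1 b := by rw [one_smul]; exact a2
  rw [← eu] at h2
  have a4 : ev 1 l' a = 0 := a1 1 rfl a h2 h3 h4
  have a5 : ev 1 (dv (0 + 1) b) a = 0 :=
    (ev_dv 0 ⊤ 1 b a h2).trans ((isFun 0 ⊤ 2 b).2 _ (sm_dd h2.1) h3)
  apply n0
  rw [← hl a h2, a3, lin, a4, a5, mul_zero, add_zero]

theorem fil_of {k : ℕ} {a : Form N n} (h : Sm a) (t : TypeGe Z k a) : Fil Z D k a := by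
  refine ⟨one ι a, one ι a, 0, one_self a, one_ne a, fun p m I => ?_,
    fun p m I => ⟨sm_one h p m I, sm_zero, ?_⟩⟩
  · by_cases e : p = 0 ∧ m = n
    · obtain ⟨rfl, rfl⟩ := e
      rwa [one_self, strat_zero]
    · rw [one_ne _ _ _ _ (by tauto)]
      exact fun _ _ _ _ _ _ _ _ _ => ⟨0, fun c => by simp [pb]⟩
  · have : Dt (0 : Tot N ι) p m I = 0 := by
      cases p <;> cases m <;> simp [Dt, dd_zero] <;>
        exact Finset.sum_eq_zero fun _ _ => by ext; simp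
    rw [this, sub_self, sub_zero]
    exact nul_zero

theorem of_fil {k : ℕ} {a : Form N (n + 1)} (h : Fil Z D k a) :
    ∃ η c, Sm c ∧ TypeGe Z k η ∧ Nul Z (a - η - dd c) := by
  obtain ⟨x, y, z, h1, -, h3, h4⟩ := h
  obtain ⟨-, -, a2⟩ := h4 0 (n + 1) Fin.elim0
  have a3 := h3 0 (n + 1) Fin.elim0
  rw [strat_zero] at a2 a3
  rw [h1] at a2
  exact ⟨_, _, (h4 0 n Fin.elim0).2.1, a3, by simpa [Dt] using a2⟩

theorem dd_bar {a : Form N n} (h : Sm a) (x : Amb N) (v : Fin (n + 1) → Amb N) :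
    dd (bar a) x v = conj (dd a x v) := by
  have h0 : Sm (bar a) := (HT.SF.conj n ⟨a, h⟩).2
  rw [dd, dd, extDeriv_apply (ContDiff.differentiable h (by simp) x),
    extDeriv_apply (ContDiff.differentiable h0 (by simp) x), map_sum]
  refine Finset.sum_congr rfl fun i _ => ?_
  have h1 := Complex.conjCLE.comp_fderiv (f := fun y => a y (i.removeNth v)) (x := x)
  have h' : (fun y => bar a y (i.removeNth v)) =
      Complex.conjCLE ∘ fun y => a y (i.removeNth v) := rfl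
  rw [h', h1, map_zsmul]
  rfl

end gen

variable {O : Set ℂ} {f : ℂ → Fin 3 → ℂ} {φ : ℂ → ℂ} {τ : Amb 3 → ℂ} {W : Set (Amb 3)}

/-- The value of a form in a chart. -/
def vl (f : ℂ → Fin 3 → ℂ) (a : Form 3 1) (t s : ℂ) : ℂ :=
  a (HT.proj (f t)) fun _ => fderiv ℝ (HT.proj ∘ f) t s

theorem vl_nul (c : Ch O f φ τ W) {a : Form 3 1} (h : Nul Zc a) {t : ℂ} (ht : t ∈ O) (s : ℂ) :
    vl f a t s = 0 := by
  have d1 := (c.cd ht).differentiableAt (by simp)
  have e := h ((HT.proj ∘ f) ∘ en (0, 0)) (en (0, 0) ⁻¹' O) (c.oO.preimage (en _).continuous)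
    (fun y hy => ((c.cd hy).comp y (en _).contDiff.contDiffAt).contDiffWithinAt)
    (fun y hy => (c.mem _ hy).1) (EuclideanSpace.single (0, 0) t)
    (by simpa [en_ap] using ht) fun _ => EuclideanSpace.single (0, 0) s
  have b : en (0, 0) (EuclideanSpace.single (0, 0) t) = t := by simp [en_ap]
  have b' : en (0, 0) (EuclideanSpace.single (0, 0) s) = s := by simp [en_ap]
  rwa [fderiv_comp _ (by rw [b]; exact d1) (en _).differentiableAt, ContinuousLinearMap.fderiv,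
    ContinuousLinearMap.comp_apply, Function.comp_apply, b, b'] at e

theorem vl_type (c : Ch O f φ τ W) {a : Form 3 1} {k : ℕ} (h : TypeGe Zc k a) {t : ℂ}
    (ht : t ∈ O) : ∃ β : ℕ → ℂ, ∀ s,
      vl f a t s = ∑ b ∈ Finset.Icc k 1, β b * s ^ b * conj s ^ (1 - b) := by
  obtain ⟨β, hβ⟩ := h 1 _ _ c.chart.isOpen c.chart.hol
    (fun z hz => ⟨c.ne _ hz, (c.mem _ hz).1⟩) (fun _ => t) ht fun _ _ => 1
  refine ⟨β, fun s => (Eq.trans ?_ (hβ s))⟩
  have d1 := ((c.cd ht).differentiableAt (by simp)).hasFDerivAt.comp (fun _ : Fin 1 => t)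
    (hasFDerivAt_apply (𝕜 := ℝ) (0 : Fin 1) fun _ : Fin 1 => t)
  have e : fderiv ℝ (proj ∘ fun z : Fin 1 → ℂ => f (z 0)) (fun _ => t) = _ := d1.fderiv
  rw [pb, e]
  simp [vl, proj, HT.proj]

theorem vl_dd (c : Ch O f φ τ W) {b : Form 3 0} (h : Sm b) {t : ℂ} (ht : t ∈ O) :
    ∃ L : ℂ →L[ℝ] ℂ, HasFDerivAt (fun t => b (HT.proj (f t)) Fin.elim0) L t ∧
      ∀ s, vl f (dd b) t s = L s :=
  ⟨_, ((sm_fun h).differentiable (by simp) _).hasFDerivAt.comp t
    ((c.cd ht).differentiableAt (by simp)).hasFDerivAt, fun _ => dd_fun b _ _⟩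

/-- Forms that are, up to an exact form, complex linear with coefficient in `S`. -/
def hb (S : Submodule ℂ ℂ) : Submodule ℂ (Form 3 1) where
  carrier := {a | ∃ b : Form 3 0, Sm b ∧ ∀ O f φ τ W, Ch O f φ τ W → ∀ t ∈ O, ∃ β ∈ S, ∀ s,
    vl f a t s - vl f (dd b) t s = β * s}
  zero_mem' := ⟨0, sm_zero, fun _ _ _ _ _ _ _ _ => ⟨0, zero_mem _, fun s => by
    simp [dd_zero]⟩⟩
  add_mem' := by
    rintro a a' ⟨b, h1, h2⟩ ⟨b', k1, k2⟩
    refine ⟨(1 : ℂ) • b + b', sm_lin 1 h1 k1, fun O f φ τ W c t ht => ?_⟩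
    obtain ⟨β, m, e⟩ := h2 O f φ τ W c t ht
    obtain ⟨β', m', e'⟩ := k2 O f φ τ W c t ht
    refine ⟨β + β', add_mem m m', fun s => ?_⟩
    rw [dd_lin 1 h1 k1, add_mul, ← e, ← e']
    simp [vl]
    ring
  smul_mem' := by
    rintro r a ⟨b, h1, h2⟩
    refine ⟨r • b + 0, sm_lin r h1 sm_zero, fun O f φ τ W c t ht => ?_⟩
    obtain ⟨β, m, e⟩ := h2 O f φ τ W c t ht
    refine ⟨r • β, S.smul_mem r m, fun s => ?_⟩
    rw [dd_lin r h1 sm_zero, dd_zero, smul_eq_mul, mul_assoc, ← e]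
    simp [vl]
    ring

theorem nul_hb {S : Submodule ℂ ℂ} {a : Form 3 1} (h : Nul Zc a) : a ∈ hb S :=
  ⟨0, sm_zero, fun _ _ _ _ _ c _ ht => ⟨0, zero_mem _, fun s => by
    rw [vl_nul c h ht, dd_zero]
    simp [vl]⟩⟩

theorem fil_hb {ι : Type} {D : ι → Set (Amb 3)} {a : Form 3 1} :
    (Fil Zc D 2 a → a ∈ hb ⊥) ∧ (Fil Zc D 1 a → a ∈ hb ⊤) := by
  have key : ∀ k, Fil Zc D k a → ∃ b : Form 3 0, Sm b ∧ ∀ O f φ τ W, Ch O f φ τ W → ∀ t ∈ O,
      ∃ β : ℕ → ℂ, ∀ s, vl f a t s - vl f (dd b) t s =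
        ∑ b ∈ Finset.Icc k 1, β b * s ^ b * conj s ^ (1 - b) := fun k h => by
    obtain ⟨η, b, h1, h2, h3⟩ := of_fil h
    refine ⟨b, h1, fun O f φ τ W c t ht => ?_⟩
    obtain ⟨β, e⟩ := vl_type c h2 ht
    refine ⟨β, fun s => ?_⟩
    have e' : vl f a t s - vl f η t s - vl f (dd b) t s = 0 := vl_nul c h3 ht s
    rw [← e]
    linear_combination e'
  refine ⟨fun h => ?_, fun h => ?_⟩
  · obtain ⟨b, h1, h2⟩ := key 2 h
    refine ⟨b, h1, fun O f φ τ W c t ht => ?_⟩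
    obtain ⟨β, e⟩ := h2 O f φ τ W c t ht
    exact ⟨0, zero_mem _, fun s => by simpa using e s⟩
  · obtain ⟨b, h1, h2⟩ := key 1 h
    refine ⟨b, h1, fun O f φ τ W c t ht => ?_⟩
    obtain ⟨β, e⟩ := h2 O f φ τ W c t ht
    exact ⟨β 1, trivial, fun s => by simpa using e s⟩

theorem re_max {F : ℂ → ℂ} {t : ℂ} (hF : ∀ᶠ u in 𝓝 t, DifferentiableAt ℂ F u)
    (h : IsLocalMax (fun u => (F u).re) t) :
    (∀ᶠ u in 𝓝 t, (F u).re = (F t).re) ∧ deriv F t = 0 := by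
  have ev := Complex.eventually_eq_of_isLocalMax_norm (f := fun u => Complex.exp (F u))
    (hF.mono fun u hu => hu.cexp) (h.mono fun u hu => by
      simpa only [Function.comp_apply, Complex.norm_exp, Real.exp_le_exp] using hu)
  refine ⟨ev.mono fun u hu => ?_, ?_⟩
  · simpa only [Complex.norm_exp, Real.exp_eq_exp] using congrArg norm hu
  · have := hF.self_of_nhds.hasDerivAt.cexp.unique
      ((hasDerivAt_const _ _).congr_of_eventuallyEq ev)
    exact (mul_eq_zero.1 this).resolve_left (Complex.exp_ne_zero _)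

theorem al_hb : al ∉ hb ⊥ := by
  rintro ⟨b, h1, h2⟩
  obtain ⟨x, hx, mx⟩ := compact_Zc.exists_isMaxOn (f := fun y => (b y Fin.elim0).re) ne_Zc
    (Complex.continuous_re.comp (sm_fun h1).continuous).continuousOn
  obtain ⟨O, f, φ, τ, W, c, hW⟩ := exists_ch hx
  obtain ⟨t0, e0⟩ := c.sur _ ⟨hx, hW⟩
  have key : ∀ t ∈ O, HasDerivAt (fun t => b (HT.proj (f t)) Fin.elim0) (φ t) t := fun t ht => by
    obtain ⟨β, m, e⟩ := h2 O f φ τ W c t ht
    obtain ⟨L, d, hL⟩ := vl_dd c h1 ht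
    refine hasFDerivAt_of_restrictScalars ℝ d ?_
    ext1 s
    have e1 := e s
    rw [show β = 0 from m, hL, show vl f al t s = _ from c.val t ht s] at e1
    simp only [ContinuousLinearMap.coe_restrictScalars', ContinuousLinearMap.toSpanSingleton_apply,
      smul_eq_mul]
    linear_combination e1
  have r := (re_max (mem_of_superset (c.oO.mem_nhds t0) fun t ht => (key t ht).differentiableAt)
    (mem_of_superset (c.oO.mem_nhds t0) fun t ht => by
      simp only [mem_ofPred_eq, e0]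
      exact mx (c.mem t ht).1)).2
  exact c.pne _ t0 ((key _ t0).deriv.symm.trans r)

theorem bar_hb : bar al ∉ hb ⊤ := by
  rintro ⟨b, h1, h2⟩
  have cg := (sm_fun h1).continuous
  obtain ⟨x', hx', mx⟩ := compact_Zc.exists_isMaxOn (f := fun y => (b y Fin.elim0).re) ne_Zc
    (Complex.continuous_re.comp cg).continuousOn
  obtain ⟨x, ⟨hx, ex⟩, my⟩ := (compact_Zc.inter_right (isClosed_eq (Complex.continuous_re.comp cg)
    (continuous_const (y := (b x' Fin.elim0).re)))).exists_isMaxOn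
    (f := fun y => (b y Fin.elim0).im) ⟨x', hx', rfl⟩ (Complex.continuous_im.comp cg).continuousOn
  have ex' : (b x Fin.elim0).re = (b x' Fin.elim0).re := ex
  obtain ⟨O, f, φ, τ, W, c, hW⟩ := exists_ch hx
  obtain ⟨t0, e0⟩ := c.sur _ ⟨hx, hW⟩
  obtain ⟨r, r0, hr⟩ := Metric.isOpen_iff.1 c.oO _ t0
  obtain ⟨Φ, hΦ⟩ := (c.phol.mono hr).isExactOn_ball
  have nb := Metric.ball_mem_nhds (τ x) r0
  have key : ∀ t ∈ Metric.ball (τ x) r,
      DifferentiableAt ℂ (fun t => b (HT.proj (f t)) Fin.elim0 - conj (Φ t)) t := fun t ht => by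
    obtain ⟨β, -, e⟩ := h2 O f φ τ W c t (hr ht)
    obtain ⟨L, d, hL⟩ := vl_dd c h1 (hr ht)
    have d2 := Complex.conjCLE.hasFDerivAt.comp t ((hΦ t ht).hasFDerivAt.restrictScalars ℝ)
    refine HasDerivAt.differentiableAt (f' := -β) (hasFDerivAt_of_restrictScalars ℝ (d.sub d2) ?_)
    ext1 s
    have e1 := e s
    rw [hL, show vl f (bar al) t s = conj (φ t * s) from congrArg conj (c.val t (hr ht) s)] at e1
    simp only [map_mul] at e1
    simp
    linear_combination e1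
  obtain ⟨H, hH⟩ : ∃ H, H = fun t => b (HT.proj (f t)) Fin.elim0 - conj (Φ t) := ⟨_, rfl⟩
  rw [← hH] at key
  have p1 : ∀ t, (H t + Φ t).re = (b (HT.proj (f t)) Fin.elim0).re := fun t => by simp [hH]
  have p2 : ∀ t, (-Complex.I * (H t - Φ t)).re = (b (HT.proj (f t)) Fin.elim0).im :=
    fun t => by simp [hH]
  obtain ⟨r1, r2⟩ := re_max (F := fun t => H t + Φ t) (t := τ x)
    (mem_of_superset nb fun t ht => (key t ht).add (hΦ t ht).differentiableAt)
    (mem_of_superset nb fun t ht => by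
      simp only [mem_ofPred_eq, p1, e0, ex']
      exact mx (c.mem t (hr ht)).1)
  obtain ⟨-, r3⟩ := re_max (F := fun t => -Complex.I * (H t - Φ t)) (t := τ x)
    (mem_of_superset nb fun t ht => ((key t ht).sub (hΦ t ht).differentiableAt).const_mul _)
    (by
      filter_upwards [nb, r1] with t ht h3
      simp only [p1, p2, e0, ex'] at h3 ⊢
      exact my ⟨(c.mem t (hr ht)).1, h3⟩)
  have m0 := Metric.mem_ball_self (x := τ x) r0
  have d1 := (key _ m0).hasDerivAt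
  have q1 := ((d1.add (hΦ _ m0)).deriv).symm.trans r2
  have q2 := (((d1.sub (hΦ _ m0)).const_mul (-Complex.I)).deriv).symm.trans r3
  apply c.pne _ t0
  have q3 := (mul_eq_zero.1 q2).resolve_left (neg_ne_zero.2 Complex.I_ne_zero)
  linear_combination (1 / 2) * q1 - (1 / 2) * q3

theorem cub_of {u : Fin 3 → ℂ} (h0 : u ≠ 0) (h : HT.proj u ∈ Zc) :
    u 0 ^ 3 + u 1 ^ 3 + u 2 ^ 3 = 0 := by
  obtain ⟨v, v0, vF, e⟩ := h
  obtain ⟨i, hi⟩ := Function.ne_iff.1 v0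
  have hi' : u i ≠ 0 := (diag_ne h0 i).1 (e ▸ (diag_ne v0 i).2 hi)
  have k : ∀ a, u a = u i / v i * v a := fun a => by
    have := ratio v0 hi a
    rw [e, ratio h0 hi'] at this
    have hi2 : v i ≠ 0 := hi
    field_simp at this ⊢
    linear_combination this
  rw [k 0, k 1, k 2]
  linear_combination (u i / v i) ^ 3 * vF

theorem crs {a b c p q r : ℂ} (h : a ^ 3 + b ^ 3 + c ^ 3 = 0)
    (k : a ^ 2 * p + b ^ 2 * q + c ^ 2 * r = 0) (ha : a ≠ 0) :
    ∃ o, b * r - c * q = a ^ 2 * o ∧ c * p - a * r = b ^ 2 * o ∧ a * q - b * p = c ^ 2 * o := by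
  refine ⟨(b * r - c * q) / a ^ 2, by field_simp, ?_, ?_⟩
  · field_simp
    linear_combination c * k - r * h
  · field_simp
    linear_combination q * h - b * k

theorem crs3 {u w : Fin 3 → ℂ} (h0 : u ≠ 0) (h : u 0 ^ 3 + u 1 ^ 3 + u 2 ^ 3 = 0)
    (k : u 0 ^ 2 * w 0 + u 1 ^ 2 * w 1 + u 2 ^ 2 * w 2 = 0) :
    ∃ o, ∀ i : Fin 3, u (i + 1) * w (i + 2) - u (i + 2) * w (i + 1) = u i ^ 2 * o := by
  obtain ⟨i, hi⟩ := Function.ne_iff.1 h0
  fin_cases i
  · obtain ⟨o, a, b, c⟩ := crs h k hi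
    exact ⟨o, fun j => by fin_cases j; exacts [a, b, c]⟩
  · obtain ⟨o, a, b, c⟩ := crs (a := u 1) (b := u 2) (c := u 0) (p := w 1) (q := w 2) (r := w 0)
      (by linear_combination h) (by linear_combination k) hi
    exact ⟨o, fun j => by fin_cases j; exacts [c, a, b]⟩
  · obtain ⟨o, a, b, c⟩ := crs (a := u 2) (b := u 0) (c := u 1) (p := w 2) (q := w 0) (r := w 1)
      (by linear_combination h) (by linear_combination k) hi
    exact ⟨o, fun j => by fin_cases j; exacts [b, c, a]⟩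

theorem pb_al {e : ℕ} {O : Set (Fin e → ℂ)} {g : (Fin e → ℂ) → Fin 3 → ℂ} (hO : IsOpen O)
    (hg : DifferentiableOn ℂ g O) (hm : ∀ z ∈ O, g z ≠ 0 ∧ proj (g z) ∈ Zc) {z : Fin e → ℂ}
    (hz : z ∈ O) (v : Fin 1 → Fin e → ℂ) : ∃ o, ∀ c : ℂ, pb g al z (fun i => c • v i) = o * c := by
  have d1 := (hg.differentiableAt (hO.mem_nhds hz)).hasFDerivAt
  have d2 : ∀ a, HasFDerivAt (fun y => g y a)
      ((ContinuousLinearMap.proj a).comp (fderiv ℂ g z)) z := fun a =>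
    (ContinuousLinearMap.proj (R := ℂ) (φ := fun _ : Fin 3 => ℂ) a).hasFDerivAt.comp z d1
  have d3 := ((((d2 0).pow 3).add ((d2 1).pow 3)).add ((d2 2).pow 3)).unique
    ((hasFDerivAt_const (0 : ℂ) z).congr_of_eventuallyEq
      (mem_of_superset (hO.mem_nhds hz) fun y hy => cub_of (hm y hy).1 (hm y hy).2))
  have e2 := DFunLike.congr_fun d3 (v 0)
  simp at e2
  obtain ⟨o, ho⟩ := crs3 (w := fderiv ℂ g z (v 0)) (hm z hz).1 (cub_of (hm z hz).1 (hm z hz).2)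
    (by linear_combination (1 / 3) * e2)
  refine ⟨o, fun c => ?_⟩
  have l1 : HasDerivAt (fun t : ℂ => z + t • v 0) (v 0) 0 := by
    simpa using ((hasDerivAt_id (0 : ℂ)).smul_const (v 0)).const_add z
  have z0 : z + (0 : ℂ) • v 0 = z := by simp
  have l2 := (l1.hasFDerivAt.restrictScalars ℝ)
  have l3 : HasFDerivAt (g ∘ fun t : ℂ => z + t • v 0) _ 0 :=
    HasFDerivAt.comp 0 (by rw [z0]; exact d1.restrictScalars ℝ) l2
  have l4 : HasFDerivAt ((HT.proj ∘ g) ∘ fun t : ℂ => z + t • v 0) _ 0 :=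
    HasFDerivAt.comp 0 (by
      rw [z0]
      exact (((proj_cd (hm z hz).1).differentiableAt (by simp)).comp z
        (d1.restrictScalars ℝ).differentiableAt).hasFDerivAt) l2
  have k := lin_proj l3.differentiableAt (by rw [Function.comp_apply, z0]; exact (hm z hz).1) c
    (o * c) fun i => by
      rw [l3.fderiv, Function.comp_apply, z0]
      simp
      linear_combination c * ho i
  rw [← Function.comp_assoc, l4.fderiv, Function.comp_apply, z0] at k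
  exact k

theorem type_al : TypeGe Zc 1 al := fun _ _ _ hO hg hm _ hz v => by
  obtain ⟨o, h⟩ := pb_al hO hg hm hz v
  exact ⟨fun _ => o, fun c => by simpa using h c⟩

theorem type_bar : TypeGe Zc 0 (bar al) := fun _ _ _ hO hg hm _ hz v => by
  obtain ⟨o, h⟩ := pb_al hO hg hm hz v
  refine ⟨fun b => if b = 0 then conj o else 0, fun c => (congrArg conj (h c)).trans ?_⟩
  rw [show Finset.Icc 0 1 = {0, 1} by decide]
  simp

/-- On a model built on the Fermat cubic the three steps of the Hodge filtration in degree `1` are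
distinct. -/
theorem hodge_q {Y : Type} [TopologicalSpace Y] {S : Y → Y → Prop} {ι : Type} [IsEmpty ι]
    {D : ι → Set (Amb 3)} (M : Model S) (h : M.R.N = 3 ∧ M.R.ι = ι ∧ HEq M.R.Z Zc ∧ HEq M.R.D D ∧ M.I = M.R.K ∧
      HEq M.p (𝟙 M.I)) : M.F 1 0 ≠ M.F 1 1 ∧ M.F 1 1 ≠ M.F 1 2 := by
  obtain ⟨e1, e2, e3, e4, e5, e6⟩ := h
  have hd : ∀ d O f z, IsChart (d := d) Zc O f → z ∈ O → d = 1 :=
    fun d O f z c hz => dim_one ⟨c.1, c.2, c.3, c.4, c.5, c.6⟩ hz
  have ac : ∀ a : Form 3 1, Sm a → Ac Zc (Zc \ ⋃ i, D i) a := fun a ha =>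
    ⟨ha, Zc, compact_Zc, by simp, fun γ O _ _ h3 z hz => absurd (h3 hz) (by simp)⟩
  have cl : Nul Zc (dd al) :=
    fun γ O h1 h2 h3 z hz v => DFunLike.congr_fun (closed γ O h1 h2 h3 z hz) v
  have sb : Sm (bar al) := (HT.SF.conj 1 ⟨al, al_cd⟩).2
  exact ⟨sepF M 0 1 e1 e2 e3 e4 e5 e6 hd ne_Zc (hb ⊥) al al_hb (ac _ al_cd) cl
      (fil_of al_cd type_al) (fun b => nul_hb) fun b => fil_hb.1,
    sepF M 1 2 e1 e2 e3 e4 e5 e6 hd ne_Zc (hb ⊤) (bar al) bar_hb (ac _ sb)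
      (fun γ O h1 h2 h3 z hz v => by rw [dd_bar al_cd, cl γ O h1 h2 h3 z hz v, map_zero])
      (fil_of sb type_bar) (fun b => nul_hb) fun b => fil_hb.2⟩

end Pool.Agent.Ctrl
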