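import Pool.Agent.P.MP_65ad7c_ag.CtP
import Pool.Agent.P.MP_65ad7c_ag.CtJ

/-! The projective line minus two points: the step `F^1` is not zero in degree `1`. -/

open Set Filter Topology CategoryTheory
open scoped ContDiff ComplexConjugate
open Pool.Agent.PQ

noncomputable section
namespace Pool.Agent.Ctrl

theorem type_zero {N : ℕ} (S : Set (Amb N)) (a : Form N 1) : TypeGe S 0 a := by
  intro e O g _ _ _ z _ v
  let T : ℂ →L[ℝ] ℂ := ((ContinuousAlternatingMap.ofSubsingletonLIE (𝕜 := ℝ) (0 : Fin 1)).symm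
    (a (proj (g z)))).comp ((fderiv ℝ (proj ∘ g) z).comp
      (((ContinuousLinearMap.id ℂ ℂ).smulRight (v 0)).restrictScalars ℝ))
  have hT : ∀ c : ℂ, pb g a z (fun i => c • v i) = T c := fun c => by
    exact congrArg (a (proj (g z))) (funext fun i => by rw [Subsingleton.elim i 0]; rfl)
  refine ⟨fun b => if b = 0 then (T 1 + Complex.I * T Complex.I) / 2
    else (T 1 - Complex.I * T Complex.I) / 2, fun c => ?_⟩
  have e1 : T c = c.re * T 1 + c.im * T Complex.I := by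
    conv_lhs => rw [show c = c.re • (1 : ℂ) + c.im • Complex.I by simp]
    rw [map_add, map_smul, map_smul]
    simp
  have e2 : conj c = c.re - c.im * Complex.I := by
    apply Complex.ext <;> simp
  have e3 : c = c.re + c.im * Complex.I := (Complex.re_add_im c).symm
  rw [hT, e1, show Finset.Icc 0 1 = {0, 1} by decide]
  simp only [Finset.sum_pair zero_ne_one, if_true, one_ne_zero, if_false, pow_zero, pow_one,
    Nat.sub_zero, Nat.sub_self, mul_one]
  linear_combination (-(T 1 + Complex.I * T Complex.I) / 2) * e2 -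
    ((T 1 - Complex.I * T Complex.I) / 2) * e3 + c.im * T Complex.I * Complex.I_sq

/-- The standard parametrisation. -/
def qp (i : Fin 2) (t : ℂ) : Amb 2 := proj (fp i fun _ => t)

theorem qp_mem (i : Fin 2) (t : ℂ) : qp i t ∈ Zp := ⟨_, fp_ne i _, rfl⟩

theorem fp_cd (i : Fin 2) : ContDiff ℝ ∞ (fp i) := contDiff_pi.2 fun a => by
  unfold fp
  split_ifs
  exacts [contDiff_const, contDiff_apply ℝ ℂ 0]

theorem pf_cd (i : Fin 2) : ContDiff ℝ ∞ (proj ∘ fp i) :=
  contDiff_iff_contDiffAt.2 fun z => (pp_cd (fp_ne i z)).comp z (fp_cd i).contDiffAt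

theorem qp_cd (i : Fin 2) : ContDiff ℝ ∞ (qp i) :=
  (pf_cd i).comp (contDiff_pi.2 fun _ => contDiff_id)

/-- The value of a form in the chart. -/
def wl (a : Form 2 1) (t s : ℂ) : ℂ := a (qp 0 t) fun _ => fderiv ℝ (qp 0) t s

theorem wl_nul {a : Form 2 1} (h : Nul Zp a) (t s : ℂ) : wl a t s = 0 := by
  let E : Amb 2 →L[ℝ] ℂ := (EuclideanSpace.proj (0, 0) : Amb 2 →L[ℂ] ℂ).restrictScalars ℝ
  have b : ∀ u, E (EuclideanSpace.single (0, 0) u) = u := fun u => by simp [E]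
  have e := h (qp 0 ∘ E) univ isOpen_univ ((qp_cd 0).comp E.contDiff).contDiffOn
    (fun y _ => qp_mem 0 _) (EuclideanSpace.single (0, 0) t) trivial
    fun _ => EuclideanSpace.single (0, 0) s
  rwa [fderiv_comp _ ((qp_cd 0).differentiable (by simp) _) E.differentiableAt,
    ContinuousLinearMap.fderiv, ContinuousLinearMap.comp_apply, Function.comp_apply, b, b] at e

theorem wl_type {a : Form 2 1} (h : TypeGe Zp 1 a) (t : ℂ) : ∃ β, ∀ s, wl a t s = β * s := by
  obtain ⟨β, hβ⟩ := h 1 _ _ isOpen_univ (fp_chart 0).hol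
    (fun z _ => ⟨fp_ne 0 z, _, fp_ne 0 z, rfl⟩) (fun _ => t) trivial fun _ _ => 1
  refine ⟨β 1, fun s => ?_⟩
  have d1 : HasFDerivAt (qp 0) _ t :=
    ((pf_cd 0).differentiable (by simp) _).hasFDerivAt.comp t
      (ContinuousLinearMap.pi fun _ : Fin 1 => ContinuousLinearMap.id ℝ ℂ).hasFDerivAt
  have e := hβ s
  simp only [Finset.Icc_self, Finset.sum_singleton, pow_one, Nat.sub_self, pow_zero, mul_one] at e
  rw [← e, wl, d1.fderiv, pb]
  exact congrArg (a _) (funext fun _ => congrArg (fderiv ℝ (proj ∘ fp 0) fun _ => t)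
    (funext fun _ => (mul_one s).symm))

/-- Forms that are complex linear up to the differential of a function vanishing on `Dp`. -/
def hp : Submodule ℂ (Form 2 1) where
  carrier := {a | ∃ b : Form 2 0, Sm b ∧ (∀ i, ∀ x ∈ Dp i, b x Fin.elim0 = 0) ∧
    ∀ t, ∃ β, ∀ s, wl a t s - wl (dd b) t s = β * s}
  zero_mem' := ⟨0, sm_zero, fun _ _ _ => rfl, fun _ => ⟨0, fun s => by simp [dd_zero]⟩⟩
  add_mem' := by
    rintro a a' ⟨b, h1, h3, h2⟩ ⟨b', k1, k3, k2⟩
    refine ⟨(1 : ℂ) • b + b', sm_lin 1 h1 k1, fun i x hx => by simp [h3 i x hx, k3 i x hx],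
      fun t => ?_⟩
    obtain ⟨β, e⟩ := h2 t
    obtain ⟨β', e'⟩ := k2 t
    refine ⟨β + β', fun s => ?_⟩
    rw [dd_lin 1 h1 k1, add_mul, ← e, ← e']
    simp [wl]
    ring
  smul_mem' := by
    rintro r a ⟨b, h1, h3, h2⟩
    refine ⟨r • b + 0, sm_lin r h1 sm_zero, fun i x hx => by simp [h3 i x hx], fun t => ?_⟩
    obtain ⟨β, e⟩ := h2 t
    refine ⟨r * β, fun s => ?_⟩
    rw [dd_lin r h1 sm_zero, dd_zero, mul_assoc, ← e]
    simp [wl]
    ring

theorem nul_hp {a : Form 2 1} (h : Nul Zp a) : a ∈ hp :=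
  ⟨0, sm_zero, fun _ _ _ => rfl, fun _ => ⟨0, fun s => by
    rw [wl_nul h, dd_zero]
    simp [wl]⟩⟩

theorem fil_hp {a : Form 2 1} (h : Fil Zp Dp 1 a) : a ∈ hp := by
  obtain ⟨x, y, z, h1, h2, h3, h4⟩ := h
  obtain ⟨-, -, a2⟩ := h4 0 1 Fin.elim0
  have a3 := h3 0 1 Fin.elim0
  rw [strat_zero] at a2 a3
  rw [h1] at a2
  have a4 : Nul Zp (a - y 0 1 Fin.elim0 - dd (z 0 0 Fin.elim0)) := by simpa [Dt] using a2
  refine ⟨z 0 0 Fin.elim0, (h4 0 0 Fin.elim0).2.1, fun i u hu => ?_, fun t => ?_⟩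
  · have m : u ∈ strat Zp Dp fun _ : Fin 1 => i := ⟨hu.1, mem_iInter.2 fun _ => hu⟩
    have b1 := nul_pt (h4 1 0 fun _ => i).2.2 m
    obtain ⟨v, v0, rfl⟩ := hu.1
    obtain ⟨β, b2⟩ := h3 1 0 (fun _ => i) 0 univ (fun _ => v) isOpen_univ
      (differentiableOn_const _) (fun _ _ => ⟨v0, m⟩) 0 trivial Fin.elim0
    have b3 := b2 0
    rw [pb, Subsingleton.elim (fun i => _) Fin.elim0] at b3
    rw [h2 1 0 _ (Or.inl one_ne_zero)] at b1
    rw [Subsingleton.elim Fin.elim0 ((0 : Fin 1).removeNth fun _ => i)]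
    simpa [Dt, b3] using b1
  · obtain ⟨β, e⟩ := wl_type a3 t
    refine ⟨β, fun s => ?_⟩
    have e' : wl a t s - wl (y 0 1 Fin.elim0) t s - wl (dd (z 0 0 Fin.elim0)) t s = 0 :=
      wl_nul a4 t s
    rw [← e]
    linear_combination e'

theorem bp_hp : dd bp ∉ hp := by
  rintro ⟨b, h1, h3, h2⟩
  have cg : ContDiff ℝ ∞ fun x => gp x - b x Fin.elim0 := gp_cd.sub (sm_fun h1)
  have hol : Differentiable ℂ fun t => gp (qp 0 t) - b (qp 0 t) Fin.elim0 := fun t => by
    obtain ⟨β, e⟩ := h2 t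
    have dq := ((qp_cd 0).differentiable (by simp) t).hasFDerivAt
    have d1 := (gp_cd.differentiable (by simp) _).hasFDerivAt.comp t dq
    have d2 := ((sm_fun h1).differentiable (by simp) _).hasFDerivAt.comp t dq
    refine HasDerivAt.differentiableAt (f' := β) (hasFDerivAt_of_restrictScalars ℝ (d1.sub d2) ?_)
    ext1 s
    have e1 := e s
    rw [wl, wl, bp_dd, dd_fun] at e1
    simp only [ContinuousLinearMap.coe_restrictScalars', ContinuousLinearMap.toSpanSingleton_apply,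
      smul_eq_mul]
    exact (mul_comm _ _).trans e1.symm
  have cst := hol.apply_eq_apply_of_bounded
    ((compact_Zp.image cg.continuous).isBounded.subset (by
      rintro _ ⟨t, rfl⟩
      exact ⟨_, qp_mem 0 t, rfl⟩))
  have z0 : qp 0 0 (1, 1) = 0 := (pp_diag (fp_ne _ _) 1).2 (by simp [fp])
  have z1 : qp 1 0 (0, 0) = 0 := (pp_diag (fp_ne _ _) 0).2 (by simp [fp])
  have t1 := pp_tr (qp_mem 1 0)
  rw [z1, zero_add] at t1
  have v0 : gp (qp 0 0) - b (qp 0 0) Fin.elim0 = 0 := by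
    rw [h3 1 _ ⟨qp_mem 0 0, z0⟩, gp, z0]
    norm_num [Real.smoothTransition.zero_of_nonpos]
  have v1 : gp (qp 1 0) - b (qp 1 0) Fin.elim0 = 1 := by
    rw [h3 0 _ ⟨qp_mem 1 0, z1⟩, gp, t1]
    norm_num [Real.smoothTransition.one_of_one_le]
  have e := Continuous.ext_on (dense_compl_singleton (0 : ℂ))
    (cg.continuous.comp (qp_cd 1).continuous) (continuous_const (y := (0 : ℂ))) fun s hs => by
      have k := fp_sur (u := fp 1 fun _ => s) (i := 0) (by simpa [fp] using hs)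
      exact (congrArg (fun x => gp x - b x Fin.elim0) k.symm).trans ((cst _ 0).trans v0)
  exact one_ne_zero (v1.symm.trans (congrFun e 0))

/-- On a model built on the projective line minus two points `F^1` and `F^2` differ in degree
`1`. -/
theorem tate_q {Y : Type} [TopologicalSpace Y] {S : Y → Y → Prop} (M : Model S)
    (h : M.R.N = 2 ∧ M.R.ι = Fin 2 ∧ HEq M.R.Z Zp ∧ HEq M.R.D Dp ∧ M.I = M.R.K ∧
      HEq M.p (𝟙 M.I)) : M.F 1 1 ≠ M.F 1 2 := by
  obtain ⟨e1, e2, e3, e4, e5, e6⟩ := h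
  refine sepF M 1 2 e1 e2 e3 e4 e5 e6 (fun d O f z c hz => dim_p c hz) ne_Zp hp (dd bp)
    bp_hp ac_p ?_ (fil_of (sm_dd bp_sm) (type_zero _ _)) (fun b => nul_hp) fun b => fil_hp
  rw [show dd (dd bp) = 0 from extDeriv_extDeriv bp_sm (by simp; decide)]
  exact nul_zero

end Pool.Agent.Ctrl
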