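import Pool.Agent.K.MP_65ad7c_ag.C38
import Pool.Agent.P.MP_65ad7c_ag.CtM

/-! The two control examples for models. -/

open Pool.Agent.PQ

namespace Pool.Agent.Ctrl

theorem ctrl_odd (Z : Set (Amb 3))
    (hZ : Z = {x | ∃ v : Fin 3 → ℂ, v ≠ 0 ∧ v 0 ^ 3 + v 1 ^ 3 + v 2 ^ 3 = 0 ∧ proj v = x})
    (D : Fin 0 → Set (Amb 3)) :
    ∃ M : Model fun u u' : ↥(Z \ ⋃ a, D a) => u'.1 = cj u.1,
      M.R.N = 3 ∧ HEq M.R.Z Z ∧ HEq M.R.D D ∧ M.W 1 1 ≠ M.W 1 0 ∧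
        M.F 1 0 ≠ M.F 1 1 ∧ M.F 1 1 ≠ M.F 1 2 := by
  obtain rfl : Z = Zc := hZ
  obtain ⟨M, h⟩ := model_smooth (fun u u' => u'.1 = cj u.1) 3 1 _ _ D (snc_q (snc D))
    (Homeomorph.refl _) (fun _ => cj_Zc) isEmptyElim fun _ _ e => e
  exact ⟨M, h.1, h.2.2.1, h.2.2.2.1, odd_q M h, hodge_q M h⟩

theorem ctrl_even (Z : Set (Amb 2)) (hZ : Z = {x | ∃ v : Fin 2 → ℂ, v ≠ 0 ∧ proj v = x})
    (D : Fin 2 → Set (Amb 2)) (hD : D = fun a => Z ∩ {x | x (a, a) = 0}) :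
    ∃ M : Model fun u u' : ↥(Z \ ⋃ a, D a) => u'.1 = cj u.1,
      M.R.N = 2 ∧ HEq M.R.Z Z ∧ HEq M.R.D D ∧ M.W 1 2 ≠ M.W 1 1 ∧ M.F 1 1 ≠ M.F 1 2 := by
  obtain rfl : Z = Zp := hZ
  obtain rfl : D = Dp := hD
  obtain ⟨M, h⟩ := model_smooth (fun u u' => u'.1 = cj u.1) 2 1 _ Zp Dp snc_p (Homeomorph.refl _)
    cj_Zp (fun a => ⟨a, cj_Dp a⟩) fun _ _ e => e
  exact ⟨M, h.1, h.2.2.1, h.2.2.2.1, even_q M h, tate_q M h⟩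

end Pool.Agent.Ctrl
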