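import Pool.Agent.P.MP_65ad7c_ag.CtQ

/-! The projective line minus two points: the weight `2` occurs in degree `1`. -/

open Set Filter Topology CategoryTheory
open scoped ContDiff ComplexConjugate
open Pool.Agent.PQ

noncomputable section
namespace Pool.Agent.Ctrl

/-- The projective line. -/
def Zp : Set (Amb 2) := {P | ∃ v : Fin 2 → ℂ, v ≠ 0 ∧ proj v = P}

/-- The two points `0` and `∞`. -/
def Dp (a : Fin 2) : Set (Amb 2) := Zp ∩ {x | x (a, a) = 0}

def np (v : Fin 2 → ℂ) : ℂ := ∑ k, v k * conj (v k)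

theorem np_ne {v : Fin 2 → ℂ} (h : v ≠ 0) : np v ≠ 0 := by
  intro h0
  apply h
  have h1 : ∑ k, Complex.normSq (v k) = 0 := by
    have : ((∑ k, Complex.normSq (v k) : ℝ) : ℂ) = 0 := by
      rw [← h0, np]; push_cast; simp [Complex.mul_conj]
    exact_mod_cast this
  funext k
  exact Complex.normSq_eq_zero.1
    ((Finset.sum_eq_zero_iff_of_nonneg fun i _ => Complex.normSq_nonneg (v i)).1 h1 k
      (Finset.mem_univ k))

theorem pp_ap (v : Fin 2 → ℂ) (a b : Fin 2) : proj v (a, b) = v a * conj (v b) / np v := rfl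

theorem pp_smul {c : ℂ} (hc : c ≠ 0) (v : Fin 2 → ℂ) : proj (c • v) = proj v := by
  have hc' : conj c ≠ 0 := by simpa using hc
  have e : np (c • v) = c * conj c * np v := by
    simp only [np, Finset.mul_sum, Pi.smul_apply, smul_eq_mul, map_mul]
    exact Finset.sum_congr rfl fun k _ => by ring
  ext ⟨a, b⟩
  rw [pp_ap, pp_ap, e]
  simp only [Pi.smul_apply, smul_eq_mul, map_mul]
  by_cases h : np v = 0
  · simp [h]
  · field_simp

theorem pp_cd {v : Fin 2 → ℂ} (h : v ≠ 0) : ContDiffAt ℝ ∞ (proj : (Fin 2 → ℂ) → Amb 2) v := by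
  rw [contDiffAt_piLp]
  rintro ⟨a, b⟩
  have h1 : ∀ k : Fin 2, ContDiff ℝ ∞ fun u : Fin 2 → ℂ => u k := fun k => contDiff_apply ℝ ℂ k
  have h2 : ContDiff ℝ ∞ np := ContDiff.sum fun k _ => (h1 k).mul (conj_cd.comp (h1 k))
  have h3 : ContDiffAt ℝ ∞ (fun u => (np u)⁻¹) v := h2.contDiffAt.inv (np_ne h)
  have := ((h1 a).mul (conj_cd.comp (h1 b))).contDiffAt.mul h3
  simp only [pp_ap, div_eq_mul_inv]
  exact this

theorem ep_cd (p : Fin 2 × Fin 2) : ContDiff ℝ ∞ fun P : Amb 2 => P p :=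
  ((EuclideanSpace.proj p : Amb 2 →L[ℂ] ℂ).restrictScalars ℝ).contDiff

theorem compact_Zp : IsCompact Zp := by
  have h2 := (isCompact_sphere (0 : Fin 2 → ℂ) 1).image_of_continuousOn (f := proj) fun v hv =>
    (pp_cd (v := v) (by
      rintro rfl
      simp at hv)).continuousAt.continuousWithinAt
  have e : Zp = proj '' Metric.sphere (0 : Fin 2 → ℂ) 1 := by
    ext P
    constructor
    · rintro ⟨v, h0, rfl⟩
      have hn : ‖v‖ ≠ 0 := norm_ne_zero_iff.2 h0
      have hc : ((‖v‖ : ℂ))⁻¹ ≠ 0 := inv_ne_zero (by exact_mod_cast hn)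
      exact ⟨((‖v‖ : ℂ))⁻¹ • v, by simp [norm_smul, hn], pp_smul hc v⟩
    · rintro ⟨v, h0, rfl⟩
      refine ⟨v, ?_, rfl⟩
      rintro rfl
      simp at h0
  rw [e]
  exact h2

theorem pp_ratio {u : Fin 2 → ℂ} {i : Fin 2} (hi : u i ≠ 0) (a : Fin 2) :
    proj u (a, i) / proj u (i, i) = u a / u i := by
  have hn := np_ne (v := u) fun h => hi (congrFun h i)
  have hc : conj (u i) ≠ 0 := by simpa using hi
  rw [pp_ap, pp_ap]
  field_simp

theorem pp_diag {u : Fin 2 → ℂ} (h0 : u ≠ 0) (i : Fin 2) : proj u (i, i) = 0 ↔ u i = 0 := by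
  simp [pp_ap, np_ne h0]

theorem pp_tr {x : Amb 2} (hx : x ∈ Zp) : x (0, 0) + x (1, 1) = 1 := by
  obtain ⟨v, h0, rfl⟩ := hx
  rw [pp_ap, pp_ap, ← add_div, div_eq_one_iff_eq (np_ne h0), np, Fin.sum_univ_two]

theorem idx_p (i : Fin 2) : i + 1 ≠ i ∧ (∀ a, a = i ∨ a = i + 1) ∧
    ∀ a b, a ≠ i → b ≠ i → a = b := by
  revert i
  decide

/-- The affine charts. -/
def fp (i : Fin 2) (z : Fin 1 → ℂ) : Fin 2 → ℂ := fun a => if a = i then 1 else z 0

theorem fp_self (i : Fin 2) (z : Fin 1 → ℂ) : fp i z i = 1 := if_pos rfl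

theorem fp_succ (i : Fin 2) (z : Fin 1 → ℂ) : fp i z (i + 1) = z 0 :=
  if_neg (idx_p i).1

theorem fp_ne (i : Fin 2) (z : Fin 1 → ℂ) : fp i z ≠ 0 := fun h =>
  one_ne_zero ((fp_self i z).symm.trans (congrFun h i))

theorem fp_inv (i : Fin 2) (z : Fin 1 → ℂ) :
    proj (fp i z) (i + 1, i) / proj (fp i z) (i, i) = z 0 := by
  rw [pp_ratio (by rw [fp_self]; exact one_ne_zero), fp_self, fp_succ, div_one]

theorem fp_sur {u : Fin 2 → ℂ} {i : Fin 2} (hi : u i ≠ 0) :
    proj (fp i fun _ => u (i + 1) / u i) = proj u := by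
  rw [← pp_smul (inv_ne_zero hi) u]
  congr 1
  funext a
  rcases (idx_p i).2.1 a with rfl | rfl
  · rw [fp_self]; simp [hi]
  · rw [fp_succ]; simp [div_eq_inv_mul]

theorem fp_der (i : Fin 2) (z : Fin 1 → ℂ) : HasFDerivAt (fp i)
    (ContinuousLinearMap.pi fun a => if a = i then 0 else
      ContinuousLinearMap.proj (R := ℂ) (φ := fun _ : Fin 1 => ℂ) 0) z := by
  rw [hasFDerivAt_pi']
  intro a
  by_cases h : a = i
  · simpa [fp, h] using hasFDerivAt_const (1 : ℂ) z
  · simpa [fp, h] using hasFDerivAt_apply (𝕜 := ℂ) (0 : Fin 1) z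

theorem one_fin (z : Fin 1 → ℂ) : (fun _ => z 0) = z :=
  funext fun k => by rw [Subsingleton.elim k 0]

theorem fp_chart (i : Fin 2) : IsChart Zp univ (fp i) := by
  refine ⟨isOpen_univ, fun z _ => (fp_der i z).differentiableAt.differentiableWithinAt,
    fun z _ => fp_ne i z, fun z _ v c e => ?_, fun z _ z' _ e => ?_, fun O' _ o' => ?_⟩
  · rw [(fp_der i z).fderiv] at e
    have a := congrFun e i
    have b := congrFun e (i + 1)
    have n := (idx_p i).1
    simp [fp_self, fp_succ, n] at a b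
    rw [← one_fin v, b, ← a, zero_mul]
    rfl
  · rw [← one_fin z, ← one_fin z', ← fp_inv i z, ← fp_inv i z']
    rw [show proj (fp i z) = proj (fp i z') from e]
  · have c : ContinuousOn (fun P : Amb 2 => fun _ : Fin 1 => P (i + 1, i) / P (i, i))
        {P | P (i, i) ≠ 0} := continuousOn_pi.2 fun _ =>
      (ep_cd _).continuous.continuousOn.div (ep_cd _).continuous.continuousOn fun _ h => h
    refine ⟨_, c.isOpen_inter_preimage (isOpen_ne_fun (ep_cd _).continuous continuous_const) o',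
      ?_⟩
    ext P
    constructor
    · rintro ⟨z, hz, rfl⟩
      refine ⟨⟨_, fp_ne i z, rfl⟩, fun h => ?_, ?_⟩
      · exact one_ne_zero ((fp_self i z).symm.trans ((pp_diag (fp_ne i z) i).1 h))
      · simp only [mem_preimage, Function.comp_apply]
        rw [fp_inv, one_fin]
        exact hz
    · rintro ⟨⟨u, u0, rfl⟩, h2, h3⟩
      have hi : u i ≠ 0 := fun h => h2 ((pp_diag u0 i).2 h)
      rw [mem_preimage, pp_ratio hi] at h3
      exact ⟨_, h3, fp_sur hi⟩

theorem snc_p : IsSNC 1 Zp Dp := by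
  refine ⟨compact_Zp, fun _ => inter_subset_left, ?_⟩
  rintro _ ⟨u, u0, rfl⟩
  obtain ⟨i, hi⟩ := Function.ne_iff.1 u0
  refine ⟨univ, fp i, fun a => if a = i then none else some 0, fp_chart i,
    ⟨_, trivial, fp_sur hi⟩, fun a b k ha hb => ?_, fun a z _ => ?_⟩
  · have h1 : a ≠ i := fun h => by simp [h] at ha
    have h2 : b ≠ i := fun h => by simp [h] at hb
    exact (idx_p i).2.2 a b h1 h2
  · rw [Dp, mem_inter_iff, and_iff_right ⟨_, fp_ne i z, rfl⟩, mem_ofPred_eq, pp_diag (fp_ne i z)]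
    by_cases h : a = i <;> simp [fp, h]

theorem cj_Zp : MapsTo cj Zp Zp := by
  rintro _ ⟨v, h0, rfl⟩
  refine ⟨fun k => conj (v k), fun h => h0 (funext fun k => by simpa using congrFun h k), ?_⟩
  ext ⟨a, b⟩
  simp [cj, pp_ap, np, mul_comm]

theorem cj_Dp (a : Fin 2) : MapsTo cj (Dp a) (Dp a) := fun _ hx =>
  ⟨cj_Zp hx.1, (congrArg conj hx.2).trans (map_zero _)⟩

theorem ne_Zp : Zp.Nonempty := ⟨_, _, fp_ne 0 0, rfl⟩

/-- A chart of the projective line has dimension one. -/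
theorem dim_p {d : ℕ} {O : Set (Fin d → ℂ)} {f : (Fin d → ℂ) → Fin 2 → ℂ}
    (h : IsChart Zp O f) {z : Fin d → ℂ} (hz : z ∈ O) : d = 1 := by
  apply le_antisymm
  · let L : ((Fin d → ℂ) × ℂ) →ₗ[ℂ] Fin 2 → ℂ :=
      (fderiv ℂ f z).toLinearMap.coprod (LinearMap.toSpanSingleton ℂ _ (f z))
    have inj : Function.Injective L := by
      rw [injective_iff_map_eq_zero]
      rintro ⟨v, c⟩ e
      have e1 : fderiv ℂ f z v + c • f z = 0 := e
      have e2 := h.imm z hz v (-c) (by rw [neg_smul]; exact eq_neg_of_add_eq_zero_left e1)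
      rw [e2, map_zero, zero_add] at e1
      rw [e2, (smul_eq_zero.1 e1).resolve_right (h.ne z hz)]
      rfl
    have a := LinearMap.finrank_le_finrank_of_injective inj
    simp at a
    omega
  · by_contra hd
    obtain rfl : d = 0 := by omega
    obtain ⟨W, oW, hW⟩ := h.opn O subset_rfl h.isOpen
    have mem : proj (f z) ∈ Zp ∩ W := hW ▸ ⟨z, hz, rfl⟩
    obtain ⟨i, hi⟩ := Function.ne_iff.1 (h.ne z hz)
    have c : Continuous fun t : ℂ => proj (fp i fun _ => t) :=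
      continuous_iff_continuousAt.2 fun t => ((pp_cd (fp_ne i _)).continuousAt.comp
        (fp_der i _).continuousAt).comp (continuous_pi fun _ => continuous_id).continuousAt
    have ev : ∀ᶠ t in 𝓝 (f z (i + 1) / f z i), t = f z (i + 1) / f z i := by
      have c1 := c.continuousAt.eventually_mem (oW.mem_nhds (by
        show proj (fp i fun _ => f z (i + 1) / f z i) ∈ W
        rw [fp_sur hi]; exact mem.2))
      filter_upwards [c1] with t h1
      obtain ⟨y, -, e⟩ : proj (fp i fun _ => t) ∈ (proj ∘ f) '' O :=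
        hW ▸ ⟨⟨_, fp_ne i _, rfl⟩, h1⟩
      rw [Subsingleton.elim y z, Function.comp_apply] at e
      rw [← pp_ratio hi, e, fp_inv]
    obtain ⟨t, h1, h2⟩ := ((ev.filter_mono (nhdsWithin_le_nhds
      (s := {f z (i + 1) / f z i}ᶜ))).and self_mem_nhdsWithin).exists
    exact h2 h1

/-- A function which is `0` near one point and `1` near the other. -/
def gp (x : Amb 2) : ℂ := Real.smoothTransition (3 * (x (1, 1)).re - 1)

theorem re_cd : ContDiff ℝ ∞ fun x : Amb 2 => (x (1, 1)).re :=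
  Complex.reCLM.contDiff.comp (ep_cd _)

theorem gp_cd : ContDiff ℝ ∞ gp :=
  Complex.ofRealCLM.contDiff.comp (Real.smoothTransition.contDiff.comp
    ((contDiff_const.mul re_cd).sub contDiff_const))

/-- The function as a form of degree `0`. -/
def bp : Form 2 0 := fun x => ContinuousAlternatingMap.constOfIsEmpty ℝ (Amb 2) (Fin 0) (gp x)

theorem bp_sm : Sm bp :=
  (ContinuousAlternatingMap.constOfIsEmptyLIE ℝ (Amb 2) ℂ (Fin 0)).contDiff.comp gp_cd

theorem bp_dd (x : Amb 2) (v : Fin 1 → Amb 2) : dd bp x v = fderiv ℝ gp x (v 0) := dd_fun bp x v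

theorem ac_p : Ac Zp (Zp \ ⋃ i, Dp i) (dd bp) := by
  refine ⟨sm_dd bp_sm, Zp ∩ (fun x : Amb 2 => (x (1, 1)).re) ⁻¹' Icc (1 / 3) (2 / 3),
    compact_Zp.inter_right (isClosed_Icc.preimage re_cd.continuous), fun x hx => ⟨hx.1, ?_⟩,
    fun γ O _ _ h z hz v => ?_⟩
  · have h1 := pp_tr hx.1
    obtain ⟨h2, h3⟩ : 1 / 3 ≤ (x (1, 1)).re ∧ (x (1, 1)).re ≤ 2 / 3 := hx.2
    simp only [mem_iUnion, not_exists, Fin.forall_fin_two]
    refine ⟨fun h => ?_, fun h => ?_⟩
    · rw [show x (0, 0) = 0 from h.2, zero_add] at h1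
      norm_num [h1] at h3
    · norm_num [show x (1, 1) = 0 from h.2] at h2
  · have h1 : ((γ z) (1, 1)).re < 1 / 3 ∨ 2 / 3 < ((γ z) (1, 1)).re := by
      by_contra hc
      push Not at hc
      exact (h hz).2 ⟨(h hz).1, hc⟩
    have h2 : ∃ c, gp =ᶠ[𝓝 (γ z)] fun _ => c := by
      rcases h1 with h1 | h1
      · refine ⟨0, ?_⟩
        filter_upwards [(isOpen_lt re_cd.continuous continuous_const).mem_nhds h1] with y hy
        rw [gp, Real.smoothTransition.zero_of_nonpos (by linarith [show _ < _ from hy])]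
        rfl
      · refine ⟨1, ?_⟩
        filter_upwards [(isOpen_lt continuous_const re_cd.continuous).mem_nhds h1] with y hy
        rw [gp, Real.smoothTransition.one_of_one_le (by linarith [show _ < _ from hy])]
        rfl
    obtain ⟨c, h2⟩ := h2
    rw [bp_dd, h2.fderiv_eq]
    simp

theorem nul_pt {S : Set (Amb 2)} {b : Form 2 0} (h : Nul S b) {x : Amb 2} (hx : x ∈ S) :
    b x Fin.elim0 = 0 := by
  have := h (fun _ => x) univ isOpen_univ contDiffOn_const (fun _ _ => hx) 0 trivial Fin.elim0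
  rwa [Subsingleton.elim (fun i => _) Fin.elim0] at this

theorem not_exa : dd bp ∉ exa Zp Dp := by
  rintro ⟨b, h1, h2, h3⟩
  let u : Amb 2 → Fin 2 → ℂ := fun y => ![1 - ((y (1, 1)).re : ℂ), ((y (1, 1)).re : ℂ)]
  have u0 : ∀ y, u y ≠ 0 := fun y h => by
    have a : 1 - ((y (1, 1)).re : ℂ) = 0 := congrFun h 0
    have b : ((y (1, 1)).re : ℂ) = 0 := congrFun h 1
    simp [b] at a
  have r : ContDiff ℝ ∞ fun y : Amb 2 => ((y (1, 1)).re : ℂ) :=
    Complex.ofRealCLM.contDiff.comp re_cd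
  have uc : ContDiff ℝ ∞ u := contDiff_pi.2 fun i => by
    fin_cases i
    exacts [contDiff_const.sub r, r]
  have gc : ContDiff ℝ ∞ (proj ∘ u) :=
    contDiff_iff_contDiffAt.2 fun y => (pp_cd (u0 y)).comp y uc.contDiffAt
  have d1 := gp_cd.differentiable (by simp)
  have d2 := (sm_fun h1).differentiable (by simp)
  have d3 := gc.differentiable (by simp)
  have k := is_const_of_fderiv_eq_zero (𝕜 := ℝ) ((d1.sub d2).comp d3) (fun z => by
    ext v
    have := h2 _ univ isOpen_univ gc.contDiffOn (fun y _ => ⟨_, u0 y, rfl⟩) z trivial fun _ => v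
    rw [Pi.sub_apply, ContinuousAlternatingMap.sub_apply, bp_dd, dd_fun] at this
    rw [fderiv_comp z (d1.sub d2 _) (d3 z), fderiv_sub (d1 _) (d2 _)]
    exact this) 0 (EuclideanSpace.single (1, 1) 1)
  have z0 : proj (u 0) (1, 1) = 0 := (pp_diag (u0 _) 1).2 (by simp [u])
  have z1 : proj (u (EuclideanSpace.single (1, 1) 1)) (0, 0) = 0 :=
    (pp_diag (u0 _) 0).2 (by simp [u])
  have t := pp_tr ⟨_, u0 (EuclideanSpace.single (1, 1) 1), rfl⟩
  rw [z1, zero_add] at t
  have b0 := nul_pt (h3 1) ⟨⟨_, u0 _, rfl⟩, ⟨_, u0 _, rfl⟩, z0⟩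
  have b1 := nul_pt (h3 0) ⟨⟨_, u0 _, rfl⟩, ⟨_, u0 _, rfl⟩, z1⟩
  simp only [Function.comp_apply, Pi.sub_apply, b0, b1, gp, z0, t] at k
  norm_num [Real.smoothTransition.zero_of_nonpos, Real.smoothTransition.one_of_one_le] at k

/-- Column `≥ 2` means: exact with a primitive that vanishes on the divisor. -/
theorem col_two {N : ℕ} {ι : Type} {Z : Set (Amb N)} {D : ι → Set (Amb N)} {a : Form N 1}
    (h : Col Z D 2 a) : a ∈ exa Z D := by
  obtain ⟨x, y, z, h1, h2, h3, h4⟩ := h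
  obtain ⟨-, -, a2⟩ := h4 0 1 Fin.elim0
  rw [strat_zero, h1, h3 0 two_pos] at a2
  refine ⟨z 0 0 Fin.elim0, (h4 0 0 Fin.elim0).2.1, by simpa [Dt] using a2, fun i => ?_⟩
  obtain ⟨-, -, a3⟩ := h4 1 0 fun _ => i
  have e : strat Z D (fun _ : Fin 1 => i) = Z ∩ D i := by rw [strat, iInter_const]
  rw [e, h2 1 0 _ (Or.inl one_ne_zero), h3 1 one_lt_two] at a3
  have a4 := nul_lin (-1) a3 nul_zero
  rw [Subsingleton.elim Fin.elim0 ((0 : Fin 1).removeNth fun _ => i)]
  simpa [Dt] using a4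

/-- On a model built on the projective line minus two points the weight `2` occurs in degree
`1`. -/
theorem even_q {Y : Type} [TopologicalSpace Y] {S : Y → Y → Prop} (M : Model S)
    (h : M.R.N = 2 ∧ M.R.ι = Fin 2 ∧ HEq M.R.Z Zp ∧ HEq M.R.D Dp ∧ M.I = M.R.K ∧
      HEq M.p (𝟙 M.I)) : M.W 1 2 ≠ M.W 1 1 := by
  obtain ⟨e1, e2, e3, e4, e5, e6⟩ := h
  refine sep M 1 e1 e2 e3 e4 e5 e6 (fun d O f z c hz => dim_p c hz) ne_Zp (exa Zp Dp) (dd bp)
    not_exa ac_p ?_ ((col_one _).2 ⟨bp, bp_sm, by rw [sub_self]; exact nul_zero⟩)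
    (fun b => nul_exa) fun b => col_two
  rw [show dd (dd bp) = 0 from extDeriv_extDeriv bp_sm (by simp; decide)]
  exact nul_zero

end Pool.Agent.Ctrl
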