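import Pool.Agent.P.MP_65ad7c_ag.DK2

/-! Block BC: the complex `K(T, α, β)` is locally acyclic along `D β`. -/

open Set Filter Topology
open scoped ContDiff

noncomputable section
namespace Pool.Agent.PWD

variable {V : Type} [NormedAddCommGroup V] [NormedSpace ℝ V] {ι : Type} [LinearOrder ι]

theorem bc_eps_eps (f : GF V) : epsG (epsG f) = f := by
  funext n x; ext v
  simp [epsG, ← mul_assoc, ← mul_pow]

theorem bc_eps_smul (a : ℂ) (f : GF V) : epsG (a • f) = a • epsG f := by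
  funext n x; ext v
  simp [epsG, mul_left_comm]

theorem bc_eps_sub (f g : GF V) : epsG (f - g) = epsG f - epsG g := by
  funext n x; ext v
  simp [epsG, mul_sub]

theorem bc_sq (k : ℕ) (f : GF V) : (-1 : ℂ) ^ k • (-1 : ℂ) ^ k • f = f := by
  rw [smul_smul, ← mul_pow]; simp

namespace Ctx
variable {C : Ctx V ι} {X : Set V} {T α β : Finset ι} {x : V}

omit [LinearOrder ι] in
theorem NulN.bc_prjZ {S : Set V} {f : GF V} (z : ℤ) (h : C.NulN S α x f) :
    C.NulN S α x (prjZ z f) :=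
  h.imp fun _ k => ⟨k.1, k.2.1, k.2.2.prjZ z⟩

omit [LinearOrder ι] in
theorem NulN.bc_of {S : Set V} {f g : GF V} (h : C.NulN S α x f) (e : g = f) : C.NulN S α x g :=
  e ▸ h

/-- the elements of degree `n` that vanish near `x` -/
def bN (C : Ctx V ι) (X : Set V) (T α β : Finset ι) (n : ℤ) (x : V) : Submodule ℤ (C.K X T α β) :=
  C.kDg X T α β n ⊓ Fam.col _ fun J => C.NulN (C.SJ X T β J) α x

theorem mem_bN {c : Finset ι → GF V} {hc : SmK (C.SK X T α β) c} {n : ℤ} :
    Fam.mk c hc ∈ C.bN X T α β n x ↔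
      Fam.mk c hc ∈ C.kDg X T α β n ∧ ∀ J, C.NulN (C.SJ X T β J) α x (c J) :=
  and_congr_right fun _ => Fam.mem_col fun _ => cond_nul _ _

theorem bc_smD {c : Finset ι → GF V} (hc : SmK (C.SK X T α β) c) :
    SmK (C.SK X T α β) fun J => dG (c J) + cobG c J :=
  fun J => (hc J).d.add ((C.okδ X T α β).sm c hc J)

theorem bc_kD_mk {c : Finset ι → GF V} {hc : SmK (C.SK X T α β) c} :
    C.kD X T α β (Fam.mk c hc) = Fam.mk (fun J => dG (c J) + cobG c J) (bc_smD hc) := kD_mk

theorem bc_cob_nul {c : Finset ι → GF V} {J : Finset ι}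
    (h : ∀ i ∈ J, C.NulN (C.SJ X T β (J.erase i)) α x (c (J.erase i))) :
    C.NulN (C.SJ X T β J) α x (cobG c J) :=
  (NulN.sum _ fun i hi => ((h i hi).anti (C.SJ_erase X T β i) subset_rfl).smul _).eps

theorem bc_cob_ins {c : Finset ι → GF V} {J : Finset ι} {j : ι} (hj : j ∉ J)
    (h : ∀ i ∈ J, C.NulN (C.SJ X T β ((insert j J).erase i)) α x (c ((insert j J).erase i))) :
    C.NulN (C.SJ X T β (insert j J)) α x
      (cobG c (insert j J) - (-1 : ℂ) ^ ((insert j J).filter (· < j)).card • epsG (c J)) := by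
  have h1 : C.NulN (C.SJ X T β (insert j J)) α x (epsG (∑ i ∈ J,
      (-1 : ℂ) ^ ((insert j J).filter (· < i)).card • c ((insert j J).erase i))) :=
    (NulN.sum _ fun i hi => ((h i hi).anti (C.SJ_erase X T β i) subset_rfl).smul _).eps
  refine h1.bc_of ?_
  rw [cobG, Finset.sum_insert hj, Finset.erase_insert hj, eps_add_DL2b, bc_eps_smul,
    add_sub_cancel_left]

theorem kD_mem (n : ℤ) {a : C.K X T α β} (ha : a ∈ C.kDg X T α β n) :
    C.kD X T α β a ∈ C.kDg X T α β (n + 1) :=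
  add_mem (C.kd_mem X T α β n a ha) (C.kδ_mem X T α β n a ha)

/-- the local primitive in one column -/
theorem Glob.bc_col (h : C.Glob X) (hT : Disjoint T α) (hβ : Disjoint β α) {j : ι} (hj : j ∈ β)
    (hx : x ∈ C.D j) {J : Finset ι} {u v : GF V}
    (hu : C.SmN (C.SJ X T β J) α x u) (hv : C.SmN (C.SJ X T β (insert j J)) α x v)
    (h1 : C.NulN (C.SJ X T β J) α x (dG u)) (h2 : C.NulN (C.SJ X T β (insert j J)) α x (u - dG v)) :
    ∃ g, C.SmN (C.SJ X T β J) α x g ∧ C.NulN (C.SJ X T β J) α x (u - dG g) ∧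
      C.NulN (C.SJ X T β (insert j J)) α x (v - g) := by
  by_cases hxJ : x ∈ C.SJ X T β J
  · have hJ : J ⊆ β := by
      by_contra hJ
      rw [SJ_of_not hJ] at hxJ
      exact hxJ
    have hJ' : insert j J ⊆ β := Finset.insert_subset hj hJ
    rw [SJ_of hJ] at hu h1 hxJ ⊢
    rw [SJ_of hJ'] at hv h2 ⊢
    refine h.ht (T ∪ J) (T ∪ insert j J) α
      (Finset.union_subset_union_right (Finset.subset_insert _ _))
      (Finset.disjoint_union_left.2 ⟨hT, hβ.mono_left hJ'⟩) x ⟨hxJ.1, ?_⟩ u v hu hv h1 h2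
    refine mem_iInter₂.2 fun i hi => ?_
    rw [Finset.union_insert, Finset.mem_insert] at hi
    rcases hi with rfl | hi
    exacts [hx, mem_iInter₂.1 hxJ.2 i hi]
  · refine ⟨0, SmN.zero, NulN.of_notMem (h.clSJ J) hxJ _, NulN.of_notMem (h.clSJ _) (fun hh => hxJ ?_) _⟩
    by_cases e : j ∈ J
    · rwa [Finset.insert_eq_of_mem e] at hh
    · have := C.SJ_erase X T β j hh
      rwa [Finset.erase_insert e] at this

/-- one step of the induction on the columns -/
theorem Glob.bc_step [FiniteDimensional ℝ V] (h : C.Glob X) (hT : Disjoint T α)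
    (hβ : Disjoint β α) {j : ι} (hj : j ∈ β) (hx : x ∈ C.D j) {n : ℤ} {k : ℕ}
    {c : Finset ι → GF V} (hc : SmK (C.SK X T α β) c) (hh : ∀ J, prjZ (n - J.card) (c J) = c J)
    (hd : ∀ J, C.NulN (C.SJ X T β J) α x (dG (c J) + cobG c J))
    (hk : ∀ J, (J.erase j).card < k → C.NulN (C.SJ X T β J) α x (c J)) :
    ∃ e he, Fam.mk e he ∈ C.kDg X T α β (n - 1) ∧ ∀ J, (J.erase j).card < k + 1 →
      C.NulN (C.SJ X T β J) α x (c J - (dG (e J) + cobG e J)) := by
  have key : ∀ J : Finset ι, ∃ g, C.SmN (C.SJ X T β J) α x g ∧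
      (¬(j ∉ J ∧ J.card = k) → g = 0) ∧ (j ∉ J ∧ J.card = k →
        C.NulN (C.SJ X T β J) α x (c J - dG g) ∧ C.NulN (C.SJ X T β (insert j J)) α x
          (-((-1 : ℂ) ^ ((insert j J).filter (· < j)).card • epsG (c (insert j J))) - -g)) := by
    intro J
    by_cases hJ : j ∉ J ∧ J.card = k
    swap
    · exact ⟨0, SmN.zero, fun _ => rfl, fun a => absurd a hJ⟩
    have a1 : C.NulN (C.SJ X T β J) α x (dG (c J)) := by
      refine ((hd J).sub (bc_cob_nul fun i hi => hk _ ?_)).bc_of (add_sub_cancel_right _ _).symm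
      have := Finset.card_erase_of_mem hi
      have := Finset.card_erase_le (s := J.erase i) (a := j)
      have := Finset.card_pos.2 ⟨i, hi⟩
      omega
    have a2 := bc_cob_ins (C := C) (X := X) (T := T) (α := α) (β := β) (x := x) (c := c) hJ.1
      fun i hi => hk _ (by
        rw [Finset.erase_right_comm, Finset.erase_insert hJ.1]
        have := Finset.card_erase_of_mem hi
        have := Finset.card_pos.2 ⟨i, hi⟩
        omega)
    have a3 := (((hd (insert j J)).sub a2).eps).smul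
      ((-1 : ℂ) ^ ((insert j J).filter (· < j)).card)
    obtain ⟨g, g1, g2, g3⟩ := h.bc_col hT hβ hj hx (u := c J)
      (v := (-1 : ℂ) ^ ((insert j J).filter (· < j)).card • epsG (c (insert j J)))
      (SmN.of_smS (hc J)) ((SmN.of_smS (hc _)).eps.smul _) a1 (a3.bc_of (by
        rw [show ∀ u v w : GF V, u + v - (v - w) = u + w from fun u v w => by abel, eps_add_DL2b, bc_eps_smul, bc_eps_eps, smul_add, bc_sq, dG_smul,
          dG_epsG, smul_neg, sub_neg_eq_add, add_comm]))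
    exact ⟨g, g1, fun a => absurd hJ a, fun _ => ⟨g2, g3.neg.bc_of (by rw [neg_sub'])⟩⟩
  choose g g1 g2 g3 using key
  obtain ⟨e, he, e1, e2⟩ := exists_loc (C := C) (X := X) (T := T) (α := α) (β := β) (n - 1) g1
  have e0 : ∀ J, ¬(j ∉ J ∧ J.card = k) → C.NulN (C.SJ X T β J) α x (e J) := fun J hJ =>
    (e2 J).neg.bc_of (by rw [g2 J hJ, prjZ_zero, zero_sub, neg_neg])
  have ed : ∀ J, ¬(j ∉ J ∧ J.card = k) → C.NulN (C.SJ X T β J) α x (dG (e J)) := fun J hJ =>
    (e0 J hJ).d (SmN.of_smS (he J))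
  refine ⟨e, he, e1, fun J hJ => ?_⟩
  rcases (Nat.lt_succ_iff.1 hJ).lt_or_eq with hlt | heq
  · refine (hk J hlt).sub ((ed J ?_).add (bc_cob_nul fun i hi => e0 _ ?_))
    · rintro ⟨a, b⟩
      rw [Finset.erase_eq_of_notMem a] at hlt
      omega
    · rintro ⟨a, b⟩
      have := Finset.card_le_card (Finset.erase_subset_erase j (J.erase_subset i))
      rw [Finset.erase_eq_of_notMem a] at this
      omega
  · by_cases hjJ : j ∈ J
    · obtain ⟨L, hL, rfl⟩ : ∃ L, j ∉ L ∧ J = insert j L :=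
        ⟨J.erase j, Finset.notMem_erase _ _, (Finset.insert_erase hjJ).symm⟩
      rw [Finset.erase_insert hL] at heq
      have b1 := bc_cob_ins (C := C) (X := X) (T := T) (α := α) (β := β) (x := x) (c := e) hL
        fun i hi => e0 _ fun a => a.1 (Finset.mem_erase.2
          ⟨fun b => hL (b ▸ hi), Finset.mem_insert_self _ _⟩)
      have b2 := ((g3 L ⟨hL, heq⟩).2.bc_prjZ (n - 1 - L.card)).sub
        ((e2 L).anti (by simpa only [Finset.erase_insert hL] using C.SJ_erase X T β (J := insert j L) j)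
          subset_rfl)
      have b3 : prjZ (n - 1 - L.card) (c (insert j L)) = c (insert j L) := by
        have := hh (insert j L)
        rwa [Finset.card_insert_of_notMem hL, Nat.cast_succ, show n - (L.card + 1) = n - 1 - L.card
          by ring] at this
      rw [prjZ_sub, prjZ_neg', prjZ_neg', prjZ_smul, prjZ_epsG, b3] at b2
      have b4 := (b2.eps.smul ((-1 : ℂ) ^ ((insert j L).filter (· < j)).card)).neg
      refine ((b4.sub b1).sub (ed _ fun a => a.1 hjJ)).bc_of ?_
      have : -((-1 : ℂ) ^ ((insert j L).filter (· < j)).card • epsG (c (insert j L))) -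
          -prjZ (n - 1 - L.card) (g L) - (prjZ (n - 1 - L.card) (g L) - e L) =
          e L - (-1 : ℂ) ^ ((insert j L).filter (· < j)).card • epsG (c (insert j L)) := by abel
      rw [this, bc_eps_sub, bc_eps_smul, bc_eps_eps, smul_sub, bc_sq]
      abel
    · rw [Finset.erase_eq_of_notMem hjJ] at heq
      have b1 := (g3 J ⟨hjJ, heq⟩).1.bc_prjZ (n - J.card)
      rw [prjZ_sub, hh, show n - (J.card : ℤ) = n - 1 - J.card + 1 by ring, prjZ_dG] at b1
      have s1 : C.SmN (C.SJ X T β J) α x (prjZ (n - 1 - J.card) (g J)) :=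
        (g1 J).imp fun _ k => ⟨k.1, k.2.1, k.2.2.prjZ _⟩
      have s2 : C.SmN (C.SJ X T β J) α x (e J) := SmN.of_smS (he J)
      have b2 := ((e2 J).d (s1.sub s2)).sub (NulN.d_sub s1 s2)
      have b3 : C.NulN (C.SJ X T β J) α x (cobG e J) := bc_cob_nul fun i hi => e0 _ fun a => by
        have := Finset.card_erase_of_mem hi
        have := Finset.card_pos.2 ⟨i, hi⟩
        omega
      refine ((b1.add b2).sub b3).bc_of ?_
      abel

/-- local acyclicity along `D β` -/
theorem Glob.bc_loc [FiniteDimensional ℝ V] [Fintype ι] (h : C.Glob X) (hT : Disjoint T α)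
    (hβ : Disjoint β α) {j : ι} (hj : j ∈ β) (hx : x ∈ C.D j) {n : ℤ} {a : C.K X T α β}
    (ha : a ∈ C.kDg X T α β n) (hd : C.kD X T α β a ∈ C.bN X T α β (n + 1) x) :
    ∃ b ∈ C.kDg X T α β (n - 1), a - C.kD X T α β b ∈ C.bN X T α β n x := by
  have dg : ∀ b ∈ C.kDg X T α β (n - 1), a - C.kD X T α β b ∈ C.kDg X T α β n := fun b hb =>
    sub_mem ha (by simpa only [sub_add_cancel] using kD_mem (n - 1) hb)
  have cd : ∀ (k : ℕ) (J : Finset ι), Cond (C.SK X T α β J)
      fun f => (J.erase j).card < k → C.NulN (C.SJ X T β J) α x f := fun k J =>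
    ⟨fun _ _ a b c => (a c).add (b c), fun _ a c => (a c).neg, fun _ a _ => NulN.of_van a⟩
  have key : ∀ k : ℕ, ∃ b ∈ C.kDg X T α β (n - 1), a - C.kD X T α β b ∈
      Fam.col (C.SK X T α β) fun J f => (J.erase j).card < k → C.NulN (C.SJ X T β J) α x f := by
    intro k
    induction k with
    | zero =>
      obtain ⟨c, hc, rfl⟩ := a.surj
      refine ⟨0, zero_mem _, ?_⟩
      rw [map_zero, sub_zero]
      exact (Fam.mem_col (cd 0)).2 fun _ hh => absurd hh (Nat.not_lt_zero _)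
    | succ k ih =>
      obtain ⟨b, hb, hb'⟩ := ih
      obtain ⟨c, hc, e, hh⟩ := Fam.deg_surj (dg b hb)
      have hd' : C.kD X T α β (Fam.mk c hc) ∈ C.bN X T α β (n + 1) x := by
        rw [e, map_sub, kD_kD, sub_zero]; exact hd
      rw [bc_kD_mk] at hd'
      rw [← e, Fam.mem_col (cd k)] at hb'
      obtain ⟨u, hu, u1, u2⟩ := h.bc_step hT hβ hj hx hc hh (mem_bN.1 hd').2 hb'
      refine ⟨b + Fam.mk u hu, add_mem hb u1, ?_⟩
      rw [map_add, ← sub_sub, ← e, bc_kD_mk, Fam.mk_sub]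
      exact (Fam.mem_col (cd (k + 1))).2 u2
  obtain ⟨b, hb, hb'⟩ := key (Fintype.card ι + 1)
  refine ⟨b, hb, ?_⟩
  obtain ⟨c, hc, e⟩ := (a - C.kD X T α β b).surj
  have := dg b hb
  rw [← e] at hb' this ⊢
  exact mem_bN.2 ⟨this, fun J => (Fam.mem_col (cd _)).1 hb' J
    (Nat.lt_succ_of_le (Finset.card_le_univ _))⟩

end Ctx

end Pool.Agent.PWD
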