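import Pool.Agent.P.MP_65ad7c_ag.DCc
import Pool.Agent.P.MP_65ad7c_ag.HGeo0

/-! Adapted charts are holomorphic; local equations differ by units. -/

open Set Filter Topology Metric
open scoped ContDiff ComplexConjugate
open Pool.Agent.HT

noncomputable section
namespace Pool.Agent.PWD

theorem exists_cplx {E F : Type} [NormedAddCommGroup E] [NormedSpace ℂ E] [NormedAddCommGroup F]
    [NormedSpace ℂ F] (L : E →L[ℝ] F) (h : ∀ v, L (Complex.I • v) = Complex.I • L v) :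
    ∃ L' : E →L[ℂ] F, L'.restrictScalars ℝ = L :=
  ⟨{ toFun := L, map_add' := map_add L, cont := L.continuous
     map_smul' := fun c v => by
      conv_lhs => rw [← c.re_add_im, add_smul, mul_smul, map_add, Complex.coe_smul,
        Complex.coe_smul, map_smul, map_smul, h]
      conv_rhs => rw [RingHom.id_apply, ← c.re_add_im, add_smul, mul_smul, Complex.coe_smul,
        Complex.coe_smul] }, rfl⟩

/-- division by a coordinate -/
theorem hadamard {d : ℕ} {H : (Fin d → ℂ) → ℂ} {c : Fin d → ℂ} {k : Fin d} (hc : c k = 0)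
    (h : ∀ᶠ y in 𝓝 c, ContDiffAt ℝ ∞ H y ∧ DifferentiableAt ℂ H y ∧ (y k = 0 → H y = 0))
    (h0 : fderiv ℂ H c ≠ 0) : ∃ (u : (Fin d → ℂ) → ℂ) (O : Set (Fin d → ℂ)), IsOpen O ∧ c ∈ O ∧
      ContDiffOn ℝ ∞ u O ∧ ∀ y ∈ O, u y ≠ 0 ∧ H y = u y * y k := by
  obtain ⟨O, h1, hO, hcO⟩ := _root_.eventually_nhds_iff.1 h
  obtain ⟨χ, hχ, -, hs, -, hχ1⟩ := Wein.exists_bump {c} O isCompact_singleton hO
    (singleton_subset_iff.2 hcO)
  rw [nhdsSet_singleton] at hχ1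
  have hH := Wein.contDiff_smul_cut O hO χ hχ hs H fun y hy => (h1 y hy).1.contDiffWithinAt
  set H' : (Fin d → ℂ) → ℂ := fun x => χ x • H x
  obtain ⟨r, hr, hb⟩ := Metric.eventually_nhds_iff_ball.1 (hχ1.eventually_nhds.and h)
  have he : ∀ y ∈ ball c r, H' =ᶠ[𝓝 y] H := fun y hy => (hb y hy).1.mono fun w hw => by
    simp [H', hw]
  let P : ℝ × (Fin d → ℂ) → Fin d → ℂ := fun p =>
    p.2 - Pi.single k (p.2 k) + p.1 • (Pi.single k (p.2 k) : Fin d → ℂ)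
  have hs1 : ContDiff ℝ ∞ fun p : ℝ × (Fin d → ℂ) => (Pi.single k (p.2 k) : Fin d → ℂ) :=
    (ContinuousLinearMap.single ℝ (fun _ : Fin d => ℂ) k).contDiff.comp
      (contDiff_pi.1 contDiff_snd k)
  have hP : ContDiff ℝ ∞ P := (contDiff_snd.sub hs1).add (contDiff_fst.smul hs1)
  have hF : ContDiff ℝ ∞ fun p => fderiv ℝ H' (P p) (Pi.single k 1) :=
    ((hH.fderiv_right (m := ∞) (by simp)).comp hP).clm_apply contDiff_const
  let u : (Fin d → ℂ) → ℂ := fun y => ∫ t in (0 : ℝ)..1, fderiv ℝ H' (P (t, y)) (Pi.single k 1)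
  have hu : ContDiff ℝ ∞ u := contDiff_infty.2 fun n => par_nat n hF
  have key : ∀ y ∈ ball c r, H y = u y * y k := fun y hy => by
    have m0 : y - Pi.single k (y k) ∈ ball c r := (dist_pi_lt_iff hr).2 fun j => by
      rcases eq_or_ne j k with rfl | hj
      · simpa [hc] using hr
      · simpa [hj] using (dist_pi_lt_iff hr).1 hy j
    have m1 : ∀ t ∈ uIcc (0 : ℝ) 1, P (t, y) ∈ ball c r := fun t ht => by
      simpa [P] using (convex_ball c r).add_smul_sub_mem m0 hy (uIcc_of_le (zero_le_one' ℝ) ▸ ht)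
    have := intervalIntegral.integral_eq_sub_of_hasDerivAt (f := fun t => H' (P (t, y)))
      (f' := fun t => fderiv ℝ H' (P (t, y)) (Pi.single k 1) * y k) (a := 0) (b := 1)
      (fun t ht => ?_) ((cont_ii hF.continuous y).mul_const _)
    · rw [intervalIntegral.integral_mul_const, (he _ (m1 1 (by simp))).self_of_nhds,
        (he _ (m1 0 (by simp))).self_of_nhds, (hb _ (m1 0 (by simp))).2.2.2 (by simp [P])] at this
      simpa [P] using this.symm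
    · have h2 : HasDerivAt (fun t : ℝ => P (t, y)) (Pi.single k (y k)) t := by
        simpa [P] using (hasDerivAt_id t).smul_const (Pi.single k (y k) : Fin d → ℂ)
      refine ((cda_diff hH.contDiffAt).hasFDerivAt.comp_hasDerivAt t h2).congr_deriv ?_
      rw [(he _ (m1 t ht)).fderiv_eq, ((hb _ (m1 t ht)).2.2.1.hasFDerivAt.restrictScalars ℝ).fderiv]
      simp only [ContinuousLinearMap.coe_restrictScalars']
      rw [mul_comm, ← smul_eq_mul, ← map_smul, ← Pi.single_smul, smul_eq_mul, mul_one]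
  refine ⟨u, ball c r ∩ {y | u y ≠ 0}, isOpen_ball.inter (isOpen_ne_fun hu.continuous
    continuous_const), ⟨mem_ball_self hr, fun u0 => h0 ?_⟩, hu.contDiffOn,
    fun y hy => ⟨hy.2, key y hy.1⟩⟩
  have h2 := ((cda_diff (hu.contDiffAt (x := c))).hasFDerivAt.mul (hasFDerivAt_apply k c)
    ).congr_of_eventuallyEq (mem_of_superset (ball_mem_nhds c hr) key)
  have h3 := (h.self_of_nhds.2.1.hasFDerivAt.restrictScalars ℝ).unique h2
  ext1 v
  simpa [u0, hc] using congrArg (· v) h3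

variable {N d : ℕ} {ι : Type} {X : Set (Amb N)} {D : ι → Set (Amb N)}

theorem proj_smul {a : ℂ} (ha : a ≠ 0) (u : Fin N → ℂ) : proj (a • u) = proj u := by
  ext p
  have : ∀ i j, a * u i * conj (a * u j) = a * conj a * (u i * conj (u j)) := fun i j => by
    rw [map_mul]; ring
  simp only [proj, Pi.smul_apply, smul_eq_mul, this, ← Finset.mul_sum]
  exact mul_div_mul_left _ _ (mul_ne_zero ha ((map_ne_zero _).2 ha))

theorem fderiv_proj_smul {u : Fin N → ℂ} (hu : u ≠ 0) (a : ℂ) : fderiv ℝ proj u (a • u) = 0 := by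
  have hl : HasDerivAt (fun t : ℝ => (1 + t • a) • u) (a • u) 0 := by
    simpa using (((hasDerivAt_id (0 : ℝ)).smul_const a).const_add 1).smul_const u
  have h1 := (cda_diff (proj_contDiffAt hu)).hasFDerivAt.comp_hasDerivAt_of_eq 0 hl (by simp)
  refine h1.unique ((hasDerivAt_const _ (proj u)).congr_of_eventuallyEq ?_)
  have : ContinuousAt (fun t : ℝ => 1 + t • a) 0 := by fun_prop
  exact (this.eventually_ne (y := 0) (by simp)).mono fun t ht => proj_smul ht u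

theorem chart_mem {O : Set (Fin d → ℂ)} {g : (Fin d → ℂ) → Fin N → ℂ} (h : IsChart X O g)
    {z : Fin d → ℂ} (hz : z ∈ O) : proj (g z) ∈ X := by
  obtain ⟨W, -, e⟩ := h.opn O subset_rfl h.isOpen
  exact (e.subset ⟨z, hz, rfl⟩).1

section ac
variable (A : AC d X D) {y : Fin d → ℂ}

theorem ac_ev (hy : y ∈ ball A.c A.ρ) : A.ψ =ᶠ[𝓝 y] proj ∘ A.f :=
  mem_of_superset (isOpen_ball.mem_nhds hy) A.ψ_eq

theorem ac_inj (hy : y ∈ ball A.c A.ρ) : Function.Injective (fderiv ℝ A.ψ y) := by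
  have h1 := (cda_diff A.φ_smooth.contDiffAt).hasFDerivAt.comp y
    (cda_diff A.ψ_smooth.contDiffAt).hasFDerivAt
  have h2 := h1.unique ((hasFDerivAt_id _).congr_of_eventuallyEq
    (mem_of_superset (isOpen_ball.mem_nhds hy) A.φψ))
  exact Function.LeftInverse.injective fun v => congrArg (· v) h2

theorem ac_hol (hy : y ∈ ball A.c A.ρ) (v : Fin d → ℂ) :
    fderiv ℝ A.ψ y (Complex.I • v) = JP N (A.ψ y) (fderiv ℝ A.ψ y v) := by
  rw [(ac_ev A hy).fderiv_eq, A.ψ_eq y hy,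
    JP_hol (A.f_hol.differentiableAt (isOpen_ball.mem_nhds hy)) (A.f_ne y hy)]

theorem ac_chart : IsChart X (ball A.c A.ρ) A.f := by
  refine ⟨isOpen_ball, A.f_hol, A.f_ne, fun z hz v a hv => ac_inj A hz ?_,
    fun z hz w hw e => ?_, fun O hO hO' => ⟨A.W ∩ A.φ ⁻¹' O,
      A.W_open.inter (hO'.preimage A.φ_smooth.continuous), Set.ext fun x => ⟨?_, fun hx => ?_⟩⟩⟩
  · rw [(ac_ev A hz).fderiv_eq, ((cda_diff (proj_contDiffAt (A.f_ne z hz))).hasFDerivAt.comp z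
      ((A.f_hol.differentiableAt (isOpen_ball.mem_nhds hz)).hasFDerivAt.restrictScalars ℝ)).fderiv]
    simp [hv, fderiv_proj_smul (A.f_ne z hz)]
  · rw [← A.φψ z hz, ← A.φψ w hw, A.ψ_eq z hz, A.ψ_eq w hw]
    exact congrArg A.φ e
  · rintro ⟨z, hz, rfl⟩
    rw [Function.comp_apply, ← A.ψ_eq z (hO hz)]
    exact ⟨(A.ψ_mem z (hO hz)).1, (A.ψ_mem z (hO hz)).2, by rwa [mem_preimage, A.φψ z (hO hz)]⟩
  · exact ⟨A.φ x, hx.2.2, (A.ψ_eq _ (hO hx.2.2)).symm.trans (A.ψφ x ⟨hx.1, hx.2.1⟩)⟩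

/-- transition maps are biholomorphic -/
theorem ac_trans {O : Set (Fin d → ℂ)} {g : (Fin d → ℂ) → Fin N → ℂ} (h : IsChart X O g)
    {z : Fin d → ℂ} (hz : z ∈ O) (hW : proj (g z) ∈ A.W) : ∃ L : (Fin d → ℂ) →L[ℂ] Fin d → ℂ,
      HasFDerivAt (A.φ ∘ proj ∘ g) L z ∧ Function.Surjective L := by
  have h1 := (cda_diff (A.φ_smooth.contDiffAt.comp z (h.smooth hz))).hasFDerivAt
  have h2 := ((cda_diff A.ψ_smooth.contDiffAt).hasFDerivAt.comp z h1).unique
    ((cda_diff (h.smooth hz)).hasFDerivAt.congr_of_eventuallyEq (by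
      filter_upwards [h.isOpen.mem_nhds hz,
        (h.smooth hz).continuousAt.eventually_mem (A.W_open.mem_nhds hW)] with w k1 k2
      exact A.ψφ _ ⟨chart_mem h k1, k2⟩))
  have h3 : ∀ v, fderiv ℝ A.ψ (A.φ (proj (g z))) (fderiv ℝ (A.φ ∘ proj ∘ g) z v) =
      fderiv ℝ (proj ∘ g) z v := fun v => congrArg (· v) h2
  obtain ⟨L, hL⟩ := exists_cplx (fderiv ℝ (A.φ ∘ proj ∘ g) z) fun v =>
    ac_inj A (A.φ_mem _ hW) (by
      rw [h3, ac_hol A (A.φ_mem _ hW), h3, A.ψφ _ ⟨chart_mem h hz, hW⟩,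
        JP_hol (h.hol.differentiableAt (h.isOpen.mem_nhds hz)) (h.ne z hz)])
  refine ⟨L, hasFDerivAt_of_restrictScalars ℝ h1 hL,
    (LinearMap.injective_iff_surjective (f := L.toLinearMap)).1 fun v w e => h.fderiv_inj hz ?_⟩
  rw [← h3, ← h3, ← hL]
  exact congrArg _ e

theorem zc_smooth (κ : ι → Option (Fin d)) (i : ι) : ContDiff ℝ ∞ (zc κ i) := by
  unfold zc
  cases κ i with
  | none => exact contDiff_const
  | some k => exact contDiff_apply ℝ ℂ k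

theorem ac_memD (i : ι) (hy : y ∈ ball A.c A.ρ) : A.ψ y ∈ D i ↔ zc A.κ i y = 0 := by
  rw [A.memD i y hy, zc]
  cases A.κ i <;> simp

theorem ac_eqn (i : ι) : Eqn d X (D i) A.W (zc A.κ i ∘ A.φ) := by
  refine ⟨((zc_smooth A.κ i).comp A.φ_smooth).contDiffOn, fun O g h z hz hW => ?_⟩
  obtain ⟨L, h1, h2⟩ := ac_trans A h hz hW
  have h3 := ac_memD A i (A.φ_mem _ hW)
  rw [A.ψφ _ ⟨chart_mem h hz, hW⟩] at h3
  rw [h3]
  unfold zc
  cases A.κ i with
  | none => exact ⟨differentiableAt_const (1 : ℂ), Iff.rfl, fun k => (one_ne_zero k).elim⟩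
  | some k =>
    have h4 := (hasFDerivAt_apply (𝕜 := ℂ) k _).comp z h1
    refine ⟨h4.differentiableAt, Iff.rfl, fun _ h0 => ?_⟩
    obtain ⟨v, hv⟩ := h2 (Pi.single k 1)
    simpa [hv] using congrArg (· v) (h4.fderiv.symm.trans h0)

theorem ac_unit (i : ι) {O : Set (Amb N)} (hO : IsOpen O) (hx : A.ψ A.c ∈ O) {h : Amb N → ℂ}
    (hh : Eqn d X (D i) O h) : ∃ (u : (Fin d → ℂ) → ℂ) (O' : Set (Fin d → ℂ)), IsOpen O' ∧
      A.c ∈ O' ∧ ContDiffOn ℝ ∞ u O' ∧ ∀ y ∈ O', u y ≠ 0 ∧ h (A.ψ y) = u y * zc A.κ i y := by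
  have hc := mem_ball_self (x := A.c) A.ρ_pos
  have h1 : ∀ y ∈ ball A.c A.ρ ∩ A.ψ ⁻¹' O, ContDiffAt ℝ ∞ (h ∘ A.ψ) y ∧
      DifferentiableAt ℂ (h ∘ A.ψ) y ∧ (zc A.κ i y = 0 ↔ h (A.ψ y) = 0) ∧
      (zc A.κ i y = 0 → fderiv ℂ (h ∘ A.ψ) y ≠ 0) := fun y hy => by
    have e : h ∘ A.ψ =ᶠ[𝓝 y] h ∘ proj ∘ A.f := (ac_ev A hy.1).fun_comp h
    have := hh.2 _ _ (ac_chart A) y hy.1 (A.ψ_eq y hy.1 ▸ hy.2)
    rw [← A.ψ_eq y hy.1, ac_memD A i hy.1, ← e.fderiv_eq] at this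
    exact ⟨(hh.1.contDiffAt (hO.mem_nhds hy.2)).comp y A.ψ_smooth.contDiffAt,
      this.1.congr_of_eventuallyEq e, this.2⟩
  have h2 := isOpen_ball.inter (hO.preimage A.ψ_smooth.continuous) (s := ball A.c A.ρ)
  unfold zc at h1 ⊢
  cases hk : A.κ i with
  | none =>
    rw [hk] at h1
    exact ⟨h ∘ A.ψ, _, h2, ⟨hc, hx⟩, fun y hy => (h1 y hy).1.contDiffWithinAt,
      fun y hy => ⟨fun k => one_ne_zero ((h1 y hy).2.2.1.2 k), (mul_one _).symm⟩⟩
  | some k =>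
    rw [hk] at h1
    exact hadamard (A.κ_c i k hk) (mem_of_superset (h2.mem_nhds ⟨hc, hx⟩) fun y hy =>
      ⟨(h1 y hy).1, (h1 y hy).2.1, (h1 y hy).2.2.1.1⟩) ((h1 _ ⟨hc, hx⟩).2.2.2 (A.κ_c i k hk))

end ac

end Pool.Agent.PWD
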