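import Pool.Agent.P.MP_65ad7c_ag.DLM
import Pool.Agent.P.MP_65ad7c_ag.DCd
import Pool.Agent.P.MP_65ad7c_ag.HInt

/-! The local theory on the strata of a normal crossing divisor. -/

open Set Filter Topology Metric
open scoped ContDiff ComplexConjugate
open Pool.Agent.HT

noncomputable section
namespace Pool.Agent.PWD

/-- the coordinates outside `T` -/
theorem exists_split {d : ℕ} (T : Set (Fin d)) : ∃ (e : ℕ) (j : (Fin e → ℂ) →L[ℂ] Fin d → ℂ)
    (σ : Fin e → Fin d) (τ : Fin d → Option (Fin e)), (∀ w l, j w (σ l) = w l) ∧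
    (∀ w, ∀ k ∈ T, j w k = 0) ∧ (∀ k l, τ k = some l ↔ σ l = k) ∧ ∀ k ∉ T, ∃ l, σ l = k := by
  classical
  let σ := (Fintype.equivFin ↥Tᶜ).symm
  refine ⟨_, ContinuousLinearMap.pi fun k => if h : k ∈ Tᶜ then ContinuousLinearMap.proj
    (σ.symm ⟨k, h⟩) else 0, fun l => σ l, fun k => if h : k ∈ Tᶜ then some (σ.symm ⟨k, h⟩) else none,
    fun w l => by simp [show (σ l).1 ∉ T from (σ l).2], fun w k hk => by simp [hk], fun k l => ?_,
    fun k hk => ⟨σ.symm ⟨k, hk⟩, by simp⟩⟩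
  by_cases h : k ∈ Tᶜ
  · simp only [dif_pos h, Option.some.injEq, Equiv.symm_apply_eq, Subtype.ext_iff]
    exact eq_comm
  · simp only [dif_neg h, reduceCtorEq, false_iff]
    exact fun e => h (e ▸ (σ l).2)

variable {M d : ℕ} {ι : Type} [LinearOrder ι] [Finite ι] {X : Set (Amb M)} {D : ι → Set (Amb M)}

omit [LinearOrder ι] in
theorem amb_ok (h : IsSNC d X D) : (Ctx.amb d X D).OK X where
  smooth _ _ _ hh := hh.1
  ne O i g hh y hy hD := by
    obtain ⟨O', f, -, hf, ⟨z, hz, rfl⟩, -⟩ := h.chart y hy.1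
    exact fun h0 => hD ((hh.2 O' f hf z hz hy.2).2.1.2 h0)
  mono _ _ _ hO _ hh := ⟨hh.1.mono hO, fun O g hg z hz k => hh.2 O g hg z hz (hO k)⟩

/-- charts of the strata -/
theorem exists_cht (h : IsSNC d X D) {T β : Finset ι} (hT : Disjoint T β) {x : Amb M}
    (hx : x ∈ St X D T) : ∃ (e : ℕ) (κ : ι → Option (Fin e)) (c : Fin e → ℂ),
      (∀ i j k, κ i = some k → κ j = some k → i = j) ∧ (∀ i k, κ i = some k → c k = 0) ∧
      Nonempty (Cht (Ctx.amb d X D) (St X D T) x (Ctx.std κ) c β (zc κ)) := by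
  obtain ⟨A, rfl⟩ := h.geo'.chart x hx.1
  obtain ⟨e, j, σ, τ, j1, j2, j3, j4⟩ := exists_split {k | ∃ i ∈ T, A.κ i = some k}
  have hc := mem_ball_self (x := A.c) A.ρ_pos
  have hκ : ∀ i l, (A.κ i).bind τ = some l ↔ A.κ i = some (σ l) := fun i l => by
    cases A.κ i <;> simp [j3, eq_comm]
  have hj : ∀ z : Fin d → ℂ, (∀ i ∈ T, ∀ k, A.κ i = some k → z k = 0) → j (z ∘ σ) = z :=
    fun z hz => funext fun k => by
      by_cases hk : k ∈ {k | ∃ i ∈ T, A.κ i = some k}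
      · rw [j2 _ k hk]
        obtain ⟨i, hi, hk⟩ := hk
        exact (hz i hi k hk).symm
      · obtain ⟨l, rfl⟩ := j4 k hk
        exact j1 _ l
  have jc : j (A.c ∘ σ) = A.c := hj _ fun i _ k => A.κ_c i k
  have jm : ∀ w ∈ ball (A.c ∘ σ) A.ρ, j w ∈ ball A.c A.ρ := fun w hw =>
    (dist_pi_lt_iff A.ρ_pos).2 fun k => by
      rw [← jc]
      by_cases hk : k ∈ {k | ∃ i ∈ T, A.κ i = some k}
      · rw [j2 _ k hk, j2 _ k hk, dist_self]; exact A.ρ_pos
      · obtain ⟨l, rfl⟩ := j4 k hk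
        rw [j1, j1]; exact (dist_pi_lt_iff A.ρ_pos).1 hw l
  have hz : ∀ i ∈ β, ∀ z, zc (fun i => (A.κ i).bind τ) i (z ∘ σ) = zc A.κ i z := fun i hi z => by
    unfold zc
    cases hk : A.κ i with
    | none => simp [hk]
    | some k =>
      obtain ⟨l, rfl⟩ := j4 k fun ⟨i', hi', e⟩ =>
        Finset.disjoint_left.1 hT hi' (A.κ_inj _ _ _ hk e ▸ hi)
      simp [hk, (j3 _ l).2 rfl]
  have hz' : ∀ i ∈ β, ∀ w, zc (fun i => (A.κ i).bind τ) i w = zc A.κ i (j w) := fun i hi w => by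
    rw [← hz i hi, show j w ∘ σ = w from funext (j1 w)]
  have js : ContDiff ℝ ∞ j := (j.restrictScalars ℝ).contDiff
  refine ⟨e, fun i => (A.κ i).bind τ, A.c ∘ σ,
    fun a b k ha hb => A.κ_inj a b _ ((hκ _ _).1 ha) ((hκ _ _).1 hb),
    fun i k hk => A.κ_c i _ ((hκ _ _).1 hk), ⟨⟨A.ψ ∘ j, fun y => A.φ y ∘ σ, A.W, ball (A.c ∘ σ) A.ρ,
      A.W_open, isOpen_ball, mem_ball_self A.ρ_pos, congrArg A.ψ jc, A.ψ_smooth.comp js,
      contDiff_pi.2 fun l => contDiff_pi.1 A.φ_smooth _, fun y hy => ?_, fun y hy => ?_,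
      fun y hy => ?_, fun y hy => ?_, fun i hi y hy => ?_, fun y hy v => ?_, fun _ _ => rfl,
      fun i hi => ?_, fun i hi O hO hxO g hg => ?_, (amb_ok h).anti inter_subset_left, std_ok _⟩⟩⟩
  · refine ⟨⟨(A.ψ_mem _ (jm y hy)).1, mem_iInter₂.2 fun i hi => ?_⟩, (A.ψ_mem _ (jm y hy)).2⟩
    obtain ⟨k, hk, -⟩ := (A.memD i _ hc).1 (mem_iInter₂.1 hx.2 i hi)
    exact (A.memD i _ (jm y hy)).2 ⟨k, hk, j2 _ k ⟨i, hi, hk⟩⟩
  · exact (dist_pi_lt_iff A.ρ_pos).2 fun l => (dist_pi_lt_iff A.ρ_pos).1 (A.φ_mem y hy) (σ l)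
  · rw [Function.comp_apply, A.φψ _ (jm y hy)]; exact funext (j1 y)
  · rw [Function.comp_apply, hj, A.ψφ y ⟨hy.1.1, hy.2⟩]
    intro i hi k hk
    obtain ⟨m, h1, h2⟩ := A.of_mem h.geo' (mem_iInter₂.1 hy.1.2 i hi) hy.2
    rwa [Option.some_injective _ (h1.symm.trans hk)] at h2
  · exact (ac_memD A i (jm y hy)).trans (by rw [← hz' i hi]; rfl)
  · rw [((cda_diff A.ψ_smooth.contDiffAt).hasFDerivAt.comp y
      (j.hasFDerivAt.restrictScalars ℝ)).fderiv]
    exact (congrArg _ (j.map_smul Complex.I v)).trans (ac_hol A (jm y hy) _)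
  · rw [show zc (fun i => (A.κ i).bind τ) i ∘ (fun y => A.φ y ∘ σ) = zc A.κ i ∘ A.φ from
      funext fun y => hz i hi _]
    exact ac_eqn A i
  · obtain ⟨u, O', h1, h2, h3, h4⟩ := ac_unit A i hO hxO hg
    exact ⟨u ∘ j, j ⁻¹' O', h1.preimage j.continuous, by rwa [mem_preimage, jc],
      h3.comp js.contDiffOn fun _ hy => hy, fun y hy => by rw [hz' i hi]; exact h4 _ hy⟩

theorem amb_lt (h : IsSNC d X D) {T α : Finset ι} (hT : Disjoint T α) {x : Amb M}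
    (hx : x ∈ St X D T) : ∃ e, (Ctx.amb d X D).LT (St X D T) α x e := by
  obtain ⟨e, κ, c, h1, h2, ⟨A⟩⟩ := exists_cht h hT hx
  exact ⟨_, A.lt subset_rfl (std_lt h1 h2 α)⟩

omit [LinearOrder ι] in
theorem amb_ht (h : IsSNC d X D) {T T' α : Finset ι} (hT : T ⊆ T') (hT' : Disjoint T' α)
    {x : Amb M} (hx : x ∈ St X D T') : (Ctx.amb d X D).HT (St X D T) α (St X D T') x := by
  classical
  let _ : LinearOrder ι := linearOrderOfSTO WellOrderingRel
  have e : St X D T' = St (St X D T) D (T' \ T) := by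
    rw [St, St, St, inter_assoc, ← Finset.set_biInter_inter, Finset.union_sdiff_of_subset hT]
  rw [e] at hx ⊢
  obtain ⟨e, κ, c, h1, h2, ⟨A⟩⟩ := exists_cht h (β := α ∪ (T' \ T))
    (Finset.disjoint_union_right.2 ⟨hT'.mono_left hT, Finset.disjoint_sdiff⟩) hx.1
  have hc := A.cor_univ.st A (Finset.subset_union_right (s₁ := α))
  exact A.ht Finset.subset_union_left hc
    (std_ht h1 h2 (hT'.symm.mono_right Finset.sdiff_subset) ((hc.mem A).1 hx))

/-- conjugate pull-back -/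
def rhoG (f : GF (Amb M)) : GF (Amb M) := conjG (pullG (cj M) f)

theorem rhoG_add (f g : GF (Amb M)) : rhoG (f + g) = rhoG f + rhoG g := by
  rw [rhoG, pullG_add, conjG_add]; rfl

theorem rhoG_sub (f g : GF (Amb M)) : rhoG (f - g) = rhoG f - rhoG g := by
  rw [eq_sub_iff_add_eq, ← rhoG_add, sub_add_cancel]

theorem rhoG_zero : rhoG (0 : GF (Amb M)) = 0 := by simpa using rhoG_sub (M := M) 0 0

theorem rhoG_lg (h : Amb M → ℂ) (f : GF (Amb M)) :
    rhoG (lg h f) = lg (star ∘ h ∘ cj M) (rhoG f) := by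
  rw [rhoG, lg, pullG_wG, conjG_wG, lg]
  congr 1
  funext y
  rw [show star ∘ h ∘ cj M = Complex.conjCLE ∘ h ∘ cjE M from rfl,
    ContinuousLinearEquiv.comp_fderiv, ContinuousLinearEquiv.comp_right_fderiv, (cj M).fderiv]
  ext v
  simp [cjE]

theorem rho_van {S S' : Set (Amb M)} (hS : MapsTo (cj M) S S') {f : GF (Amb M)} (h : VanG S' f) :
    VanG S (rhoG f) := (h.pull isOpen_univ (subset_univ _) (cj M).contDiff.contDiffOn hS).conj

theorem rho_smG {O : Set (Amb M)} (hO : IsOpen O) {f : GF (Amb M)} (h : SmG O f) :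
    SmG (cj M ⁻¹' O) (rhoG f) := fun n _ hy =>
  ((ContinuousLinearMap.compContinuousAlternatingMapCLM ℝ (Amb M) ℂ ℂ (Fin n)
    (Complex.conjCLE : ℂ →L[ℝ] ℂ)).contDiff.contDiffAt.comp _ (pull_contDiffAt
      (cj M).contDiff.contDiffAt ((h n).contDiffAt (hO.mem_nhds hy)))).contDiffWithinAt

theorem cj_JP (y v : Amb M) : cj M (JP M y v) = -JP M (cj M y) (cj M v) := by
  ext p
  simp [cj, JP_apply]

theorem Eqn.conj (hX : MapsTo (cj M) X X) {E O : Set (Amb M)} (hE : MapsTo (cj M) E E)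
    {h : Amb M → ℂ} (hh : Eqn d X E O h) : Eqn d X E (cj M ⁻¹' O) (star ∘ h ∘ cj M) := by
  refine ⟨Complex.conjCLE.contDiff.comp_contDiffOn (hh.1.comp (cj M).contDiff.contDiffOn
    fun _ hy => hy), fun O' g hg z hz hO => ?_⟩
  have e0 : proj ((star ∘ g ∘ star) (star z)) = cj M (proj (g z)) := by simp [proj_star]
  obtain ⟨h1, h2, h3⟩ := hh.2 _ _ (hg.conj hX) (star z) (by simpa using hz) (e0 ▸ hO)
  have e1 : (star ∘ h ∘ cj M) ∘ proj ∘ g = star ∘ (h ∘ proj ∘ star ∘ g ∘ star) ∘ star := by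
    funext w; simp [proj_star]
  have e2 : cj M (proj (g z)) ∈ E ↔ proj (g z) ∈ E :=
    ⟨fun k => HT.cj_cj (proj (g z)) ▸ hE k, fun k => hE k⟩
  have h4 := h1.hasFDerivAt.star_star
  rw [star_star, ← e1] at h4
  rw [e0, e2] at h2 h3
  refine ⟨h4.differentiableAt, h2.trans (by simp), fun k h0 => h3 k ?_⟩
  ext1 v
  simpa using congrArg (· (star v)) (h4.fderiv.symm.trans h0)

section rho
variable (hX : MapsTo (cj M) X X) (hD : ∀ i, MapsTo (cj M) (D i) (D i)) {T α : Finset ι}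
  {x : Amb M} {f : GF (Amb M)}
include hX hD

omit [LinearOrder ι] [Finite ι] hX in
theorem rho_maps {S : Set (Amb M)} (hS : MapsTo (cj M) S S) (O : Set (Amb M)) (α : Finset ι) :
    MapsTo (cj M) ((S ∩ cj M ⁻¹' O) \ Off D α) ((S ∩ O) \ Off D α) := fun y hy =>
  ⟨⟨hS hy.1.1, hy.1.2⟩, fun k => hy.2 (by
    obtain ⟨i, hi, k⟩ := mem_iUnion₂.1 k
    exact mem_biUnion hi (HT.cj_cj y ▸ hD i k))⟩

omit [LinearOrder ι] [Finite ι] in
theorem rho_st (T : Finset ι) : MapsTo (cj M) (St X D T) (St X D T) := fun _ hy =>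
  ⟨hX hy.1, mem_iInter₂.2 fun i hi => hD i (mem_iInter₂.1 hy.2 i hi)⟩

omit [Finite ι] in
theorem rho_wn {w : ℕ} (h : (Ctx.amb d X D).WN (St X D T) α w (cj M x) f) :
    (Ctx.amb d X D).WN (St X D T) α w x (rhoG f) := by
  obtain ⟨O, g, hO, hx, h1, h2⟩ := h
  refine ⟨cj M ⁻¹' O, rhoG g, hO.preimage (cj M).continuous, hx, ?_,
    rhoG_sub f g ▸ rho_van (rho_maps hD (rho_st hX hD T) O α) h2⟩
  clear h2
  induction h1 with
  | zero => rw [rhoG_zero]; exact .zero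
  | smooth h => exact .smooth (rho_smG hO h)
  | add _ _ h1 h2 => rw [rhoG_add]; exact .add h1 h2
  | mono i _ h => exact .mono i h
  | up hi hh _ h => rw [rhoG_lg]; exact .up hi (Eqn.conj hX (hD _) hh) h
  | van hi hh _ hv h =>
    rw [rhoG_lg]
    exact .van hi (Eqn.conj hX (hD _) hh) h
      (rho_van (rho_maps hD ((rho_st hX hD T).inter_inter (hD _)) O _) hv)

omit [LinearOrder ι] [Finite ι] in
theorem rho_fn {p : ℕ} (h : (Ctx.amb d X D).FN (St X D T) α p (cj M x) f) :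
    (Ctx.amb d X D).FN (St X D T) α p x (rhoG f) := by
  obtain ⟨O, hO, hx, h1⟩ := h
  refine ⟨cj M ⁻¹' O, hO.preimage (cj M).continuous, hx, fun n => ?_⟩
  refine ((rho_van (rho_maps hD (rho_st hX hD T) O α) h1 n).smul ((-1) ^ (n + 1 - p))).congr
    fun y _ => ?_
  have := tyA_conj (cj_JP y) p n (f n (cj M y))
  simp only [rhoG, conjG, pullG, pull, (cj M).fderiv, Pi.smul_apply]
  exact this

end rho

end Pool.Agent.PWD
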