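import Pool.Agent.P.MP_65ad7c_ag.DCa

/-! Transport of germ conditions along a chart. -/

open Set Filter Topology
open scoped ContDiff
open Pool.Agent.HT

noncomputable section
namespace Pool.Agent.PWD

variable {V V' : Type} [NormedAddCommGroup V] [NormedSpace ℝ V] [NormedAddCommGroup V']
  [NormedSpace ℝ V'] {ι : Type} [LinearOrder ι]

/-- a chart of `S` at `x`, adapted to the divisors in `β` -/
structure Cht (C : Ctx V ι) (S : Set V) (x : V) (C' : Ctx V' ι) (c : V') (β : Finset ι)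
    (z : ι → V' → ℂ) where
  ψ : V' → V
  φ : V → V'
  W : Set V
  W' : Set V'
  W_open : IsOpen W
  W'_open : IsOpen W'
  c_mem : c ∈ W'
  ψc : ψ c = x
  ψ_smooth : ContDiff ℝ ∞ ψ
  φ_smooth : ContDiff ℝ ∞ φ
  ψ_mem : ∀ y ∈ W', ψ y ∈ S ∩ W
  φ_mem : ∀ y ∈ W, φ y ∈ W'
  φψ : ∀ y ∈ W', φ (ψ y) = y
  ψφ : ∀ y ∈ S ∩ W, ψ (φ y) = y
  memD : ∀ i ∈ β, ∀ y ∈ W', ψ y ∈ C.D i ↔ y ∈ C'.D i
  hol : ∀ y ∈ W', ∀ v, fderiv ℝ ψ y (C'.J y v) = C.J (ψ y) (fderiv ℝ ψ y v)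
  G' : ∀ O i, C'.G O i = {z i}
  eqn : ∀ i ∈ β, z i ∘ φ ∈ C.G W i
  unit : ∀ i ∈ β, ∀ O, IsOpen O → x ∈ O → ∀ h ∈ C.G O i, ∃ (u : V' → ℂ) (O' : Set V'),
    IsOpen O' ∧ c ∈ O' ∧ ContDiffOn ℝ ∞ u O' ∧ ∀ y ∈ O', u y ≠ 0 ∧ h (ψ y) = u y * z i y
  ok : C.OK S
  ok' : C'.OK univ

namespace Cht
variable {C : Ctx V ι} {S : Set V} {x : V} {C' : Ctx V' ι} {c : V'} {β α : Finset ι}
  {z : ι → V' → ℂ} (A : Cht C S x C' c β z) {T : Set V} {T' : Set V'} {f g : GF V}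
  {f' g' : GF V'} {w p q : ℕ}

/-- the equations given by the chart -/
def e (i : ι) : V → ℂ := z i ∘ A.φ

/-- sets that correspond under the chart -/
def Cor (T : Set V) (T' : Set V') : Prop := T ⊆ S ∧ ∀ y ∈ A.W', A.ψ y ∈ T ↔ y ∈ T'

theorem x_mem : x ∈ A.W := mem_of_eq_of_mem A.ψc.symm (A.ψ_mem c A.c_mem).2

theorem φx : A.φ x = c := (congrArg A.φ A.ψc.symm).trans (A.φψ c A.c_mem)

include A in
theorem z_mem (O i) : z i ∈ C'.G O i := by rw [A.G']; rfl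

include A in
theorem z_smooth (i : ι) : ContDiff ℝ ∞ (z i) :=
  contDiffOn_univ.1 (A.ok'.smooth univ i _ (A.z_mem _ i))

theorem cor_univ : A.Cor S univ := ⟨subset_rfl, fun y hy => iff_of_true (A.ψ_mem y hy).1 trivial⟩

theorem Cor.st (h : A.Cor T T') {I : Finset ι} (hI : I ⊆ β) :
    A.Cor (St T C.D I) (St T' C'.D I) :=
  ⟨inter_subset_left.trans h.1, fun y hy => and_congr (h.2 y hy) (by
    simp only [mem_iInter]
    exact forall₂_congr fun i hi => A.memD i (hI hi) y hy)⟩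

theorem Cor.inter (h : A.Cor T T') {i : ι} (hi : i ∈ β) : A.Cor (T ∩ C.D i) (T' ∩ C'.D i) :=
  ⟨inter_subset_left.trans h.1, fun y hy => and_congr (h.2 y hy) (A.memD i hi y hy)⟩

theorem Cor.mem (h : A.Cor T T') : x ∈ T ↔ c ∈ T' := A.ψc ▸ h.2 c A.c_mem

theorem mem_off (hα : α ⊆ β) {y : V'} (hy : y ∈ A.W') : A.ψ y ∈ Off C.D α ↔ y ∈ Off C'.D α := by
  simp only [Off, mem_iUnion]
  exact exists₂_congr fun i hi => A.memD i (hα hi) y hy

theorem open_to {O : Set V} (hO : IsOpen O) (hx : x ∈ O) :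
    IsOpen (A.W' ∩ A.ψ ⁻¹' O) ∧ c ∈ A.W' ∩ A.ψ ⁻¹' O :=
  ⟨A.W'_open.inter (hO.preimage A.ψ_smooth.continuous), A.c_mem, by rwa [mem_preimage, A.ψc]⟩

theorem open_from {O : Set V'} (hO : IsOpen O) (hc : c ∈ O) :
    IsOpen (A.W ∩ A.φ ⁻¹' O) ∧ x ∈ A.W ∩ A.φ ⁻¹' O :=
  ⟨A.W_open.inter (hO.preimage A.φ_smooth.continuous), A.x_mem, by rwa [mem_preimage, A.φx]⟩

theorem maps_to (h : A.Cor T T') (hα : α ⊆ β) (O : Set V) :
    MapsTo A.ψ ((T' ∩ (A.W' ∩ A.ψ ⁻¹' O)) \ Off C'.D α) ((T ∩ O) \ Off C.D α) := fun y hy =>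
  ⟨⟨(h.2 y hy.1.2.1).2 hy.1.1, hy.1.2.2⟩, fun k => hy.2 ((A.mem_off hα hy.1.2.1).1 k)⟩

theorem maps_from (h : A.Cor T T') (hα : α ⊆ β) (O : Set V') :
    MapsTo A.φ ((T ∩ (A.W ∩ A.φ ⁻¹' O)) \ Off C.D α) ((T' ∩ O) \ Off C'.D α) := fun y hy => by
  have h1 := A.φ_mem y hy.1.2.1
  have h2 := A.ψφ y ⟨h.1 hy.1.1, hy.1.2.1⟩
  exact ⟨⟨(h.2 _ h1).1 (h2.symm ▸ hy.1.1), hy.1.2.2⟩, fun k =>
    hy.2 (h2 ▸ (A.mem_off hα h1).2 k)⟩

theorem pp (g : GF V') : EqN c (pullG A.ψ (pullG A.φ g)) g := by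
  filter_upwards [A.W'_open.mem_nhds A.c_mem] with y hy n
  have h1 : A.φ ∘ A.ψ =ᶠ[𝓝 y] id := mem_of_superset (A.W'_open.mem_nhds hy) A.φψ
  refine (pull_comp _ (cda_diff A.ψ_smooth.contDiffAt) (cda_diff A.φ_smooth.contDiffAt)).symm.trans
    ((pull_congr _ h1).trans ?_)
  ext v
  simp [pull_apply]

theorem van_pp (h : T ⊆ S ∩ A.W) (f : GF V) : VanG T (f - pullG A.φ (pullG A.ψ f)) := by
  have := VanG.pull_sub isOpen_univ (subset_univ T) (A.ψ_smooth.comp A.φ_smooth).contDiffOn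
    (fun y hy => A.ψφ y (h hy)) f
  refine this.congr fun n y _ => congrArg (f n y - ·) ?_
  exact (pull_comp _ (cda_diff A.φ_smooth.contDiffAt) (cda_diff A.ψ_smooth.contDiffAt)).symm

theorem nul_pp (h : A.Cor T T') (f : GF V) : C.NulN T α x (f - pullG A.φ (pullG A.ψ f)) :=
  ⟨A.W, A.W_open, A.x_mem, A.van_pp (fun _ hy => ⟨h.1 hy.1.1, hy.1.2⟩) f⟩

theorem sm_to (h : A.Cor T T') (hα : α ⊆ β) (hf : C.SmN T α x f) :
    C'.SmN T' α c (pullG A.ψ f) := by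
  obtain ⟨O, hO, hx, hf⟩ := hf
  exact ⟨_, (A.open_to hO hx).1, (A.open_to hO hx).2,
    hf.pull isOpen_univ (subset_univ _) A.ψ_smooth.contDiffOn (A.maps_to h hα O)⟩

theorem sm_from (h : A.Cor T T') (hα : α ⊆ β) (hf : C'.SmN T' α c f') :
    C.SmN T α x (pullG A.φ f') := by
  obtain ⟨O, hO, hx, hf⟩ := hf
  exact ⟨_, (A.open_from hO hx).1, (A.open_from hO hx).2,
    hf.pull isOpen_univ (subset_univ _) A.φ_smooth.contDiffOn (A.maps_from h hα O)⟩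

theorem smG_to {O : Set V} (hO : IsOpen O) (hf : SmG O f) :
    SmG (A.W' ∩ A.ψ ⁻¹' O) (pullG A.ψ f) := fun n _ hy =>
  (pull_contDiffAt A.ψ_smooth.contDiffAt ((hf n).contDiffAt (hO.mem_nhds hy.2))).contDiffWithinAt

theorem smG_from {O : Set V'} (hO : IsOpen O) (hf : SmG O f') :
    SmG (A.W ∩ A.φ ⁻¹' O) (pullG A.φ f') := fun n _ hy =>
  (pull_contDiffAt A.φ_smooth.contDiffAt ((hf n).contDiffAt (hO.mem_nhds hy.2))).contDiffWithinAt

theorem d_to (h : A.Cor T T') (hα : α ⊆ β) (hf : C.SmN T α x f) :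
    C'.NulN T' α c (dG (pullG A.ψ f) - pullG A.ψ (dG f)) := by
  obtain ⟨O, hO, hx, hf⟩ := hf
  exact ⟨_, (A.open_to hO hx).1, (A.open_to hO hx).2,
    VanG.d_pull isOpen_univ (subset_univ _) A.ψ_smooth.contDiffOn (A.maps_to h hα O) hf⟩

theorem d_from (h : A.Cor T T') (hα : α ⊆ β) (hf : C'.SmN T' α c f') :
    C'.NulN T' α c (pullG A.ψ (dG (pullG A.φ f')) - dG f') :=
  (A.d_to h hα (A.sm_from h hα hf)).symm.trans (A.pp f').d.nul

theorem lg_from (i : ι) (g : GF V') : pullG A.φ (lg (z i) g) = lg (A.e i) (pullG A.φ g) :=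
  funext fun n => funext fun _ =>
    pullG_lg (cda_diff A.φ_smooth.contDiffAt) (cda_diff (A.z_smooth i).contDiffAt) g n

theorem lg_to (i : ι) (h : EqN c (pullG A.ψ f) f') :
    EqN c (pullG A.ψ (lg (A.e i) f)) (lg (z i) f') :=
  EqN.trans (Eventually.of_forall fun _ => pullG_lg (cda_diff A.ψ_smooth.contDiffAt)
    (cda_diff ((A.z_smooth i).comp A.φ_smooth).contDiffAt) f)
    (EqN.lg (mem_of_superset (A.W'_open.mem_nhds A.c_mem) fun y hy => congrArg (z i) (A.φψ y hy)) h)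

theorem lgI_to (I : Finset ι) (h : EqN c (pullG A.ψ f) f') :
    EqN c (pullG A.ψ (lgI A.e I f)) (lgI z I f') := by
  unfold lgI
  induction I.sort (· ≤ ·) with
  | nil => exact h
  | cons i L ih => exact A.lg_to i ih

theorem lgI_one (I : Finset ι) : EqN c (pullG A.ψ (lgI A.e I oneG)) (lgI z I oneG) :=
  A.lgI_to I (pullG_oneG A.ψ ▸ EqN.rfl)

theorem sum_one (s : Finset (Finset ι)) (γ : Finset ι → ℂ) :
    EqN c (pullG A.ψ (∑ I ∈ s, γ I • lgI A.e I oneG)) (∑ I ∈ s, γ I • lgI z I oneG) := by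
  rw [pullG_sum]
  exact EqN.sum s fun I _ => (A.lgI_one I).smul (γ I)

theorem ty_to (p : ℕ) (f : GF V) :
    EqN c (pullG A.ψ (tyG C.J p f)) (tyG C'.J p (pullG A.ψ f)) :=
  mem_of_superset (A.W'_open.mem_nhds A.c_mem) fun y hy n => tyA_comp (A.hol y hy) p n _

/-- an arbitrary equation differs from the coordinate by a unit -/
theorem lg_unit {i : ι} (hi : i ∈ α) (hα : α ⊆ β) {O : Set V} (hO : IsOpen O) (hx : x ∈ O)
    {h : V → ℂ} (hh : h ∈ C.G O i) : ∃ (ξ : V' → V' →L[ℝ] ℂ) (O' : Set V'), IsOpen O' ∧ c ∈ O' ∧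
      ContDiffOn ℝ ∞ ξ O' ∧ ∀ f, C'.NulN univ α c
        (pullG A.ψ (lg h f) - (lg (z i) (pullG A.ψ f) + wG ξ (pullG A.ψ f))) := by
  obtain ⟨u, O', hO', hc, hu, h1⟩ := A.unit i (hα hi) O hO hx h hh
  refine ⟨fun y => (u y)⁻¹ • fderiv ℝ u y, O', hO', hc, (hu.inv fun y hy => (h1 y hy).1).smul
    (hu.fderiv_of_isOpen hO' (by simp)), fun f => ⟨O' ∩ (A.W' ∩ A.ψ ⁻¹' O),
      hO'.inter (A.open_to hO hx).1, ⟨hc, (A.open_to hO hx).2⟩, .of_zero fun n y hy => ?_⟩⟩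
  refine sub_eq_zero.2 ((pullG_lg (cda_diff A.ψ_smooth.contDiffAt)
    (cda_diff ((A.ok.smooth O i h hh).contDiffAt (hO.mem_nhds hy.1.2.2.2))) f n).trans ?_)
  rw [lg_mul (h := h ∘ A.ψ) (u := u) (z := z i) (mem_of_superset (hO'.mem_nhds hy.1.2.1) fun y hy => (h1 y hy).2)
    (cda_diff (hu.contDiffAt (hO'.mem_nhds hy.1.2.1))) (cda_diff (A.z_smooth i).contDiffAt)
    (h1 y hy.1.2.1).1 (A.ok'.ne univ i _ (A.z_mem _ i) y ⟨trivial, trivial⟩
      fun k => hy.2 (mem_biUnion hi k))]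
  rfl

theorem wn_lg {i : ι} (hi : i ∈ α) (hα : α ⊆ β) {O : Set V} (hO : IsOpen O) (hx : x ∈ O)
    {h : V → ℂ} (hh : h ∈ C.G O i) (hf : C'.WN univ α w c (pullG A.ψ f)) :
    C'.WN univ α (w + 1) c (pullG A.ψ (lg h f)) := by
  obtain ⟨ξ, O', hO', hc, hξ, h1⟩ := A.lg_unit hi hα hO hx hh
  exact ((hf.lg A.ok' A.G' hi).add A.ok'
    ((hf.wG A.ok' hO' hc hξ).mono (Nat.le_succ w))).congr A.ok' (h1 f)

section fd
variable [FiniteDimensional ℝ V] [FiniteDimensional ℝ V']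

omit [FiniteDimensional ℝ V'] in
theorem nul_to (h : A.Cor T T') (hα : α ⊆ β) (hf : C.NulN T α x f) :
    C'.NulN T' α c (pullG A.ψ f) := by
  obtain ⟨O, hO, hx, hf⟩ := hf
  exact ⟨_, (A.open_to hO hx).1, (A.open_to hO hx).2,
    hf.pull isOpen_univ (subset_univ _) A.ψ_smooth.contDiffOn (A.maps_to h hα O)⟩

omit [FiniteDimensional ℝ V] in
theorem nul_from (h : A.Cor T T') (hα : α ⊆ β) (hf : C'.NulN T' α c f') :
    C.NulN T α x (pullG A.φ f') := by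
  obtain ⟨O, hO, hx, hf⟩ := hf
  exact ⟨_, (A.open_from hO hx).1, (A.open_from hO hx).2,
    hf.pull isOpen_univ (subset_univ _) A.φ_smooth.contDiffOn (A.maps_from h hα O)⟩

omit [FiniteDimensional ℝ V] in
theorem nul_of (h : A.Cor T T') (hα : α ⊆ β) (hf : C'.NulN T' α c (pullG A.ψ f)) :
    C.NulN T α x f := (A.nul_pp h f).of_sub (A.nul_from h hα hf)

theorem fn_iff (h : A.Cor T T') (hα : α ⊆ β) :
    C.FN T α p x f ↔ C'.FN T' α p c (pullG A.ψ f) :=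
  ⟨fun hf => (A.nul_to h hα (Ctx.fn_iff.1 hf)).eqN (A.ty_to p f).symm,
    fun hf => A.nul_of h hα ((Ctx.fn_iff.1 hf).eqN (A.ty_to p f))⟩

theorem fn_from (h : A.Cor T T') (hα : α ⊆ β) (hf : C'.FN T' α p c f') :
    C.FN T α p x (pullG A.φ f') := (A.fn_iff h hα).2 (hf.eqN (A.pp f'))

omit [FiniteDimensional ℝ V'] in
theorem lw_to {O : Set V} (hO : IsOpen O) (hx : x ∈ O) (h : LW (C.G O) C.D S O α w f)
    (hα : α ⊆ β) : C'.WN univ α w c (pullG A.ψ f) := by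
  induction h with
  | zero => exact .of_nul .zero
  | smooth h => exact .of_smG (A.open_to hO hx).1 (A.open_to hO hx).2 (A.smG_to hO h)
  | add _ _ h1 h2 => exact (h1 hα).add A.ok' (h2 hα)
  | mono i _ h =>
    exact (h ((Finset.erase_subset _ _).trans hα)).anti subset_rfl (Finset.erase_subset _ _)
  | up hi hh _ h =>
    exact A.wn_lg hi hα hO hx hh
      ((h ((Finset.erase_subset _ _).trans hα)).anti subset_rfl (Finset.erase_subset _ _))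
  | van hi hh _ hv h =>
    obtain ⟨ξ, O', hO', hc, hξ, h1⟩ := A.lg_unit hi hα hO hx hh
    have h2 := h ((Finset.erase_subset _ _).trans hα)
    exact ((h2.van A.ok' hi isOpen_univ trivial (A.z_mem _ _) (A.nul_to (A.cor_univ.inter A (hα hi))
      ((Finset.erase_subset _ _).trans hα) ⟨O, hO, hx, hv⟩)).add A.ok'
      ((h2.wG A.ok' hO' hc hξ).anti subset_rfl (Finset.erase_subset _ _))).congr A.ok' (h1 _)

omit [FiniteDimensional ℝ V] in
theorem lw_from {O : Set V'} (hO : IsOpen O) (hc : c ∈ O) (h : LW (C'.G O) C'.D univ O α w f')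
    (hα : α ⊆ β) : C.WN S α w x (pullG A.φ f') := by
  induction h with
  | zero => exact .of_nul .zero
  | smooth h => exact .of_smG (A.open_from hO hc).1 (A.open_from hO hc).2 (A.smG_from hO h)
  | add _ _ h1 h2 => exact (h1 hα).add A.ok (h2 hα)
  | mono i _ h =>
    exact (h ((Finset.erase_subset _ _).trans hα)).anti subset_rfl (Finset.erase_subset _ _)
  | up hi hh _ h =>
    rw [A.G'] at hh
    rw [hh, A.lg_from]
    exact (h ((Finset.erase_subset _ _).trans hα)).up A.ok hi A.W_open A.x_mem (A.eqn _ (hα hi))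
  | van hi hh _ hv h =>
    rw [A.G'] at hh
    rw [hh, A.lg_from]
    exact (h ((Finset.erase_subset _ _).trans hα)).van A.ok hi A.W_open A.x_mem (A.eqn _ (hα hi))
      (A.nul_from (A.cor_univ.inter A (hα hi)) ((Finset.erase_subset _ _).trans hα) ⟨O, hO, hc, hv⟩)

omit [FiniteDimensional ℝ V'] in
theorem wn_to (hα : α ⊆ β) (hf : C.WN S α w x f) : C'.WN univ α w c (pullG A.ψ f) := by
  obtain ⟨O, g, hO, hx, h1, h2⟩ := hf
  exact (A.lw_to hO hx h1 hα).congr A.ok' (A.nul_to (f := f - g) A.cor_univ hα ⟨O, hO, hx, h2⟩)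

omit [FiniteDimensional ℝ V] in
theorem wn_from (hα : α ⊆ β) (hf : C'.WN univ α w c f') : C.WN S α w x (pullG A.φ f') := by
  obtain ⟨O, g, hO, hx, h1, h2⟩ := hf
  exact (A.lw_from hO hx h1 hα).congr A.ok (A.nul_from (f' := f' - g) A.cor_univ hα ⟨O, hO, hx, h2⟩)

omit [FiniteDimensional ℝ V] in
theorem wn_of (hα : α ⊆ β) (hf : C'.WN univ α w c (pullG A.ψ f)) : C.WN S α w x f :=
  (A.wn_from hα hf).congr A.ok (A.nul_pp A.cor_univ f)

include A in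
theorem txt (hα : α ⊆ β) (hf : C.TN S α w x f) : C.WN S α w x f := by
  obtain ⟨O, g, hO, hx, h1, h2⟩ := hf
  refine (A.wn_of (f := g) hα ?_).congr A.ok ⟨O, hO, hx, h2⟩
  clear h2
  induction h1 with
  | zero => exact .of_nul .zero
  | smooth h => exact .of_smG (A.open_to hO hx).1 (A.open_to hO hx).2 (A.smG_to hO h)
  | add _ _ h1 h2 => exact h1.add A.ok' h2
  | log hh _ h =>
    obtain ⟨i, hi, hh⟩ := hh
    exact A.wn_lg hi hα hO hx hh h

end fd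

end Cht

end Pool.Agent.PWD
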