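import Pool.Agent.P.MP_65ad7c_ag.DCb

/-! Transport of residues and of the local theory along a chart. -/

open Set Filter Topology
open scoped ContDiff
open Pool.Agent.HT

noncomputable section
namespace Pool.Agent.PWD

variable {V V' : Type} [NormedAddCommGroup V] [NormedSpace ℝ V] [NormedAddCommGroup V']
  [NormedSpace ℝ V'] {ι : Type} [LinearOrder ι] [FiniteDimensional ℝ V] [FiniteDimensional ℝ V']

theorem pullG_prj (γ : V' → V) (m : ℕ) (f : GF V) : pullG γ (prj m f) = prj m (pullG γ f) := by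
  funext n
  rcases eq_or_ne n m with rfl | h
  · simp [pullG, prj]
  · simp only [pullG, prj, Pi.single_eq_of_ne h]; rfl

namespace Cht
variable {C : Ctx V ι} {S : Set V} {x : V} {C' : Ctx V' ι} {c : V'} {β α : Finset ι}
  {z : ι → V' → ℂ} (A : Cht C S x C' c β z) (hα : α ⊆ β) {f g : GF V}
  {f' g' : GF V'} {w p q : ℕ} {r : Finset ι → GF V} {r' : Finset ι → GF V'}

omit [FiniteDimensional ℝ V'] in
theorem van_to {T O : Set V} {T' : Set V'} (h : A.Cor T T') (hf : VanG (T ∩ O) f) :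
    VanG (T' ∩ (A.W' ∩ A.ψ ⁻¹' O)) (pullG A.ψ f) :=
  hf.pull isOpen_univ (subset_univ _) A.ψ_smooth.contDiffOn fun y hy =>
    mem_inter ((h.2 y hy.2.1).2 hy.1) hy.2.2

omit [FiniteDimensional ℝ V] in
theorem van_from {T : Set V} {T' O : Set V'} (h : A.Cor T T') (hf : VanG (T' ∩ O) f') :
    VanG (T ∩ (A.W ∩ A.φ ⁻¹' O)) (pullG A.φ f') :=
  hf.pull isOpen_univ (subset_univ _) A.φ_smooth.contDiffOn fun y hy =>
    mem_inter ((h.2 _ (A.φ_mem y hy.2.1)).1 (by rw [A.ψφ y ⟨h.1 hy.1, hy.2.1⟩]; exact hy.1)) hy.2.2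

omit [FiniteDimensional ℝ V] [FiniteDimensional ℝ V'] in
theorem eqN_sub (f : GF V) (h : EqN c (pullG A.ψ g) g') :
    EqN c (pullG A.ψ (f - g)) (pullG A.ψ f - g') := by
  rw [pullG_sub]; exact EqN.rfl.sub h

include hα

theorem eqs : C.Eqs α x A.e :=
  ⟨A.W, A.W_open, A.x_mem, fun _ hO i hi => A.ok.mono _ _ _ hO (A.eqn i (hα hi))⟩

theorem cor_st {I : Finset ι} (hI : I ⊆ α) : A.Cor (St S C.D I) (St univ C'.D I) :=
  A.cor_univ.st A (hI.trans hα)

theorem rh_to (h : C.RH S α A.e q x f r) :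
    C'.RH univ α z q c (pullG A.ψ f) fun I => pullG A.ψ (r I) := by
  obtain ⟨O, b, hO, hx, h1, h2, h3⟩ := h
  refine ⟨_, fun I => pullG A.ψ (b I), (A.open_to hO hx).1, (A.open_to hO hx).2,
    fun I => A.smG_to hO (h1 I), (A.wn_to hα h2).eqN A.ok' ?_, fun I hI => ?_⟩
  · rw [pullG_sub, pullG_sum]
    exact EqN.rfl.sub (EqN.sum _ fun I _ => (A.lgI_to I EqN.rfl).symm)
  · exact A.van_to (A.cor_st hα (Finset.mem_powersetCard.1 hI).1) (h3 I hI)

theorem rh_of (h : C'.RH univ α z q c (pullG A.ψ f) r') :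
    C.RH S α A.e q x f fun I => pullG A.φ (r' I) := by
  obtain ⟨O, b, hO, hx, h1, h2, h3⟩ := h
  refine ⟨_, fun I => pullG A.φ (b I), (A.open_from hO hx).1, (A.open_from hO hx).2,
    fun I => A.smG_from hO (h1 I), A.wn_of hα (h2.eqN A.ok' ?_), fun I hI => ?_⟩
  · rw [pullG_sub, pullG_sum]
    exact EqN.rfl.sub (EqN.sum _ fun I _ => A.lgI_to I (A.pp _))
  · exact A.van_from (A.cor_st hα (Finset.mem_powersetCard.1 hI).1) (h3 I hI)

omit [FiniteDimensional ℝ V] [FiniteDimensional ℝ V'] in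
theorem wn_list {h : ι → V → ℂ} (hh : C.Eqs α x h) {O : Set V} (hO : IsOpen O) (hx : x ∈ O)
    (hf : SmG O f) (L : List ι) (hL : ∀ i ∈ L, i ∈ α) :
    C'.WN univ α (L.length + 1) c (L.foldr (fun i g => lg (z i) g) (pullG A.ψ f)) ∧
    C'.WN univ α L.length c (pullG A.ψ (L.foldr (fun i g => lg (h i) g) f) -
      L.foldr (fun i g => lg (z i) g) (pullG A.ψ f)) := by
  induction L with
  | nil =>
    exact ⟨.of_smG (A.open_to hO hx).1 (A.open_to hO hx).2 (A.smG_to hO hf), .of_nul EqN.rfl.nul⟩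
  | cons i L ih =>
    obtain ⟨h1, h2⟩ := ih fun j hj => hL j (List.mem_cons_of_mem _ hj)
    have hi := hL i List.mem_cons_self
    obtain ⟨O₁, hO₁, hx₁, h3⟩ := hh
    obtain ⟨ξ, O', hO', hc, hξ, h4⟩ := A.lg_unit hi hα hO₁ hx₁ (h3 _ subset_rfl i hi)
    refine ⟨h1.lg A.ok' A.G' hi, ((h2.lg A.ok' A.G' hi).add A.ok'
      (((h2.mono (Nat.le_succ _)).add A.ok' h1).wG A.ok' hO' hc hξ)).congr A.ok' ?_⟩
    convert h4 (L.foldr (fun i g => lg (h i) g) f) using 1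
    rw [sub_add_cancel, lg_sub, List.foldr_cons, List.foldr_cons]
    abel

theorem ind {h : ι → V → ℂ} (hh : C.Eqs α x h) (hf : C.RH S α h q x f r) :
    C.RH S α A.e q x f r := by
  obtain ⟨O, b, hO, hx, h1, h2, h3⟩ := hf
  refine ⟨O, b, hO, hx, h1, ?_, h3⟩
  have : C.WN S α q x (∑ I ∈ α.powersetCard q, (lgI h I (b I) - lgI A.e I (b I))) :=
    .sum A.ok _ fun I hI => by
      obtain ⟨k1, rfl⟩ := Finset.mem_powersetCard.1 hI
      have := (A.wn_list hα hh hO hx (h1 I) (I.sort (· ≤ ·))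
        fun i hi => k1 ((Finset.mem_sort _).1 hi)).2
      rw [Finset.length_sort] at this
      exact A.wn_of hα (this.eqN A.ok' (A.eqN_sub _ (A.lgI_to I EqN.rfl)))
  convert h2.add A.ok this using 1
  rw [Finset.sum_sub_distrib]
  abel

omit hα [FiniteDimensional ℝ V] [FiniteDimensional ℝ V'] in
include A in
theorem eqs' : C'.Eqs α c z := ⟨univ, isOpen_univ, trivial, fun O _ i _ => A.z_mem O i⟩

theorem rn_to (h : C.RN S α w x f r) :
    C'.RN univ α w c (pullG A.ψ f) fun I => pullG A.ψ (r I) := by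
  cases w with
  | zero => exact A.nul_to A.cor_univ hα h
  | succ q => exact ⟨z, A.eqs', A.rh_to hα (A.ind hα h.choose_spec.1 h.choose_spec.2)⟩

theorem rn_of (L : C'.LT univ α c z) (h : C'.RN univ α w c f' r')
    (e : C'.NulN univ α c (pullG A.ψ f - f')) : C.RN S α w x f fun I => pullG A.φ (r' I) := by
  cases w with
  | zero => exact A.nul_of A.cor_univ hα (e.of_sub h)
  | succ q =>
    exact ⟨A.e, A.eqs hα, A.rh_of hα ((L.ind _ _ _ _ h.choose_spec.1 h.choose_spec.2).congr A.ok'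
      (.of_nul e) fun I _ => EqN.rfl.nul)⟩

omit hα [FiniteDimensional ℝ V] [FiniteDimensional ℝ V'] in
include A in
theorem rn_congr (h : C'.RN univ α w c f' r') (e : C'.NulN univ α c (g' - f')) :
    C'.RN univ α w c g' r' := by
  cases w with
  | zero => exact e.of_sub h
  | succ q =>
    exact ⟨_, h.choose_spec.1, h.choose_spec.2.congr A.ok' (.of_nul e) fun I _ => EqN.rfl.nul⟩

omit [FiniteDimensional ℝ V'] in
theorem closed_to {T : Set V} {T' : Set V'} (h : A.Cor T T') (hf : C.SmN T α x f)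
    (hd : C.NulN T α x (dG f)) : C'.NulN T' α c (dG (pullG A.ψ f)) :=
  (A.d_to h hα hf).of_sub (A.nul_to h hα hd)

omit [FiniteDimensional ℝ V] in
theorem nul_exact {k : GF V} {k' : GF V'} (e : EqN c (pullG A.ψ k) k') (hg : C'.SmN univ α c g')
    (h : C'.NulN univ α c (k' - dG g')) : C.NulN S α x (k - dG (pullG A.φ g')) :=
  A.nul_of A.cor_univ hα ((e.nul.trans h).trans (A.d_from A.cor_univ hα hg).symm)

/-- the local theory passes from the model to the chart domain -/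
theorem lt (L : C'.LT univ α c z) : C.LT S α x A.e where
  eqs := A.eqs hα
  pp1 f h1 h2 := by
    obtain ⟨γ, g, h3, h4⟩ := L.pp1 _ (A.sm_to A.cor_univ hα h1) (A.closed_to hα A.cor_univ h1 h2)
    exact ⟨γ, _, A.sm_from A.cor_univ hα h3, A.nul_exact hα (A.eqN_sub f (A.sum_one _ γ)) h3 h4⟩
  pp2 γ g h1 h2 I hI hx :=
    L.pp2 γ _ (A.sm_to A.cor_univ hα h1) (((A.sum_one _ γ).symm.nul.trans
      (A.nul_to A.cor_univ hα h2)).trans (A.d_to A.cor_univ hα h1).symm) I hI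
      (((A.cor_st hα hI).mem A).1 hx)
  l4 w f h1 h2 h3 := by
    obtain ⟨γ, g, h4, h5, h6, h7⟩ := L.l4 w _ (A.sm_to A.cor_univ hα h1) (A.wn_to hα h2)
      (A.closed_to hα A.cor_univ h1 h3)
    exact ⟨γ, _, A.sm_from A.cor_univ hα h4, A.wn_from hα h5, h6,
      A.nul_exact hα (A.eqN_sub f (A.sum_one _ γ)) h4 h7⟩
  l3 w p f r h1 h2 h3 h4 := by
    obtain ⟨g, r', k1, k2, k3, k4⟩ := L.l3 w p _ _ (A.sm_to A.cor_univ hα h1) (A.wn_to hα h2)
      ((A.fn_iff A.cor_univ hα).1 h3) (A.rn_congr (A.rn_to hα h4) (A.d_to A.cor_univ hα h1))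
    refine ⟨_, _, A.sm_from A.cor_univ hα k1, A.wn_from hα k2, A.fn_from A.cor_univ hα k3,
      A.rn_of hα L k4 ?_⟩
    rw [pullG_sub, sub_sub_sub_cancel_left]
    exact (A.d_from A.cor_univ hα k1).symm
  off I hI hx f := A.nul_of A.cor_univ hα
    ((L.off I hI (fun h => hx (((A.cor_st hα hI).mem A).2 h)) _).eqN (A.lgI_to I EqN.rfl))
  ind _ _ _ _ := A.ind hα
  resU q f r h1 h2 I hI := A.nul_of (A.cor_st hα (Finset.mem_powersetCard.1 hI).1)
    (Finset.empty_subset _) (L.resU q _ _ (A.rh_to hα h1) (A.wn_to hα h2) I hI)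
  resF q p f r h1 h2 I hI := (A.fn_iff (A.cor_st hα (Finset.mem_powersetCard.1 hI).1)
    (Finset.empty_subset _)).2 (L.resF q p _ _ (A.rh_to hα h1) ((A.fn_iff A.cor_univ hα).1 h2) I hI)
  resV I hI O b hO hx h1 h2 := A.wn_of hα ((L.resV I hI _ _ (A.open_to hO hx).1 (A.open_to hO hx).2
    (A.smG_to hO h1) (A.van_to (A.cor_st hα hI) h2)).eqN A.ok' (A.lgI_to I EqN.rfl))
  ext I hI p r h1 h2 := by
    have hc := A.cor_st hα hI
    obtain ⟨O, b, hO, hx, k1, k2, k3⟩ := L.ext I hI p _ (A.sm_to hc (Finset.empty_subset _) h1)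
      ((A.fn_iff hc (Finset.empty_subset _)).1 h2)
    refine ⟨_, pullG A.φ b, (A.open_from hO hx).1, (A.open_from hO hx).2, A.smG_from hO k1, ?_,
      (A.fn_iff A.cor_univ hα).2 (k3.eqN (A.lgI_to I (A.pp b)))⟩
    have := (A.van_pp (T := St S C.D I ∩ (A.W ∩ A.φ ⁻¹' O)) (fun y hy => ⟨hy.1.1, hy.2.1⟩) r).add
      (A.van_from hc k2)
    rwa [pullG_sub, sub_add_sub_cancel] at this
  txt _ _ := A.txt hα
  conj I hI := by
    obtain ⟨g, h1, h2⟩ := L.conj I hI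
    refine ⟨_, A.sm_from A.cor_univ hα h1, A.nul_exact hα ?_ h1 h2⟩
    rw [pullG_sub, pullG_smul, ← conjG_pullG]
    exact (A.lgI_one I).conj.sub ((A.lgI_one I).smul _)
  ty0 f := (A.fn_iff A.cor_univ hα).2 (L.ty0 _)
  tyN p f h := (A.fn_iff A.cor_univ hα).2 (L.tyN p _ (A.nul_to A.cor_univ hα h))
  tyA p f h := (A.fn_iff A.cor_univ hα).2 (L.tyA p _ ((A.fn_iff A.cor_univ hα).1 h))
  tyd p f h1 h2 := (A.fn_iff A.cor_univ hα).2 (by
    have := (L.tyd p _ (A.sm_to A.cor_univ hα h1) ((A.fn_iff A.cor_univ hα).1 h2)).sub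
      (L.tyN p _ (A.d_to A.cor_univ hα h1))
    rwa [sub_sub_cancel] at this)
  top q f h := by
    obtain ⟨r, hr⟩ := L.top q _ (A.wn_to hα h)
    exact ⟨_, A.rh_of hα (pullG_prj A.ψ q f ▸ hr)⟩

theorem ht {T : Set V} {T' : Set V'} (h : A.Cor T T') (L : C'.HT univ α T' c) : C.HT S α T x :=
  fun f k h1 h2 h3 h4 => by
    obtain ⟨g, k1, k2, k3⟩ := L _ _ (A.sm_to A.cor_univ hα h1) (A.sm_to h hα h2)
      (A.closed_to hα A.cor_univ h1 h3) ((A.nul_to h hα h4).trans (A.d_to h hα h2).symm)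
    exact ⟨_, A.sm_from A.cor_univ hα k1, A.nul_exact hα EqN.rfl k1 k2,
      A.nul_of h hα (k3.trans (A.pp g).symm.nul)⟩

end Cht

end Pool.Agent.PWD
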