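import Pool.Agent.P.MP_65ad7c_ag.DK9
import Pool.Agent.P.MP_65ad7c_ag.DBI

/-! Natural maps between the complexes `K(T, α, β)`, classes of single forms. -/

open Set Filter Topology
open scoped ContDiff
open Pool.Agent.HT (Form)

noncomputable section
namespace Pool.Agent.PWD

variable {V : Type} [NormedAddCommGroup V] [NormedSpace ℝ V] {ι : Type} [LinearOrder ι]

theorem smS_single {S : Set V} {m : ℕ} {η : Form V m} (h : Sm S η) : SmS S (Pi.single m η) :=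
  fun n => by
    by_cases e : n = m
    · subst e; rwa [Pi.single_eq_same]
    · rw [Pi.single_eq_of_ne e]; exact Sm.zero

/-- `η` is on `S` the differential of a form that vanishes on `B` -/
def ExF (S B : Set V) : {n : ℕ} → Form V n → Prop
  | 0, η => Van S η
  | _ + 1, η => ∃ ζ, Sm S ζ ∧ Van B ζ ∧ Van S (extDeriv ζ - η)

namespace Ctx
variable (C : Ctx V ι) (X : Set V)

section one
variable (T α β : Finset ι)

/-- the class of one form -/
def kf {m : ℕ} (η : Form V m) (h : Sm (St X C.D T \ Off C.D α) η) : C.K X T α β :=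
  C.k0 X T α β (Pi.single m η) (smS_single h)

/-- cocycles -/
def kZ (n : ℤ) : Submodule ℤ (C.K X T α β) := C.kDg X T α β n ⊓ LinearMap.ker (C.kD X T α β)

/-- coboundaries -/
def kB (n : ℤ) : Submodule ℤ (C.K X T α β) := (C.kDg X T α β (n - 1)).map (C.kD X T α β)

/-- the weight filtration -/
def kWc (n j : ℤ) : Submodule ℤ (C.K X T α β) :=
  G.Gam (C.kW X T α β (j - n)) n ⊓ LinearMap.ker (C.kD X T α β) ⊔ C.kB X T α β n

end one

section maps
variable {T T' α α' β β' : Finset ι}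

theorem SJ_anti (hT : T ⊆ T') (hβ : β' ⊆ β) (J : Finset ι) : C.SJ X T' β' J ⊆ C.SJ X T β J := by
  by_cases h : J ⊆ β'
  · rw [SJ_of h, SJ_of (h.trans hβ)]
    exact inter_subset_inter_right _ (biInter_subset_biInter_left (Finset.union_subset_union_left hT))
  · rw [SJ_of_not h]; exact empty_subset _

theorem SK_anti (hT : T ⊆ T') (hα : α ⊆ α') (hβ : β' ⊆ β) (J : Finset ι) :
    C.SK X T' α' β' J ⊆ C.SK X T α β J := off_DL2b (C.SJ_anti X hT hβ J) hα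

/-- the natural map -/
def kmap (hT : T ⊆ T') (hα : α ⊆ α') (hβ : β' ⊆ β) : C.K X T α β →ₗ[ℤ] C.K X T' α' β' :=
  Fam.map (okI (C.SK_anti X hT hα hβ))

end maps

variable (T α β : Finset ι) (i : ι)

abbrev f10 : C.K X T α (insert i β) →ₗ[ℤ] C.K X T α β :=
  C.kmap X subset_rfl subset_rfl (Finset.subset_insert i β)
abbrev f12 : C.K X T α (insert i β) →ₗ[ℤ] C.K X T (α ∪ β) {i} :=
  C.kmap X subset_rfl Finset.subset_union_left
    (Finset.singleton_subset_iff.2 (Finset.mem_insert_self i β))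
abbrev f03 : C.K X T α β →ₗ[ℤ] C.K X T (α ∪ β) ∅ :=
  C.kmap X subset_rfl Finset.subset_union_left (Finset.empty_subset β)
abbrev f43 : C.K X ∅ (α ∪ β) ∅ →ₗ[ℤ] C.K X T (α ∪ β) ∅ :=
  C.kmap X (Finset.empty_subset T) subset_rfl subset_rfl

/-- the image of the kernel of `H(K1) → H(K2)` -/
def kN (n : ℤ) : Submodule ℤ (C.K X T α β) :=
  ((C.kB X T (α ∪ β) {i} n).comap (C.f12 X T α β i) ⊓ C.kZ X T α (insert i β) n).map
    (C.f10 X T α β i) ⊔ C.kB X T α β n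

/-- the preimage of the image of `H(K4) → H(K3)` -/
def kP (n : ℤ) : Submodule ℤ (C.K X T α β) :=
  ((C.kZ X ∅ (α ∪ β) ∅ n).map (C.f43 X T α β) ⊔ C.kB X T (α ∪ β) ∅ n).comap (C.f03 X T α β) ⊓
    C.kZ X T α β n

variable {C X T α β i} {n : ℤ} {x : C.K X T α β}

theorem mem_kN : x ∈ C.kN X T α β i n ↔ ∃ z ∈ C.kZ X T α (insert i β) n,
    C.f12 X T α β i z ∈ C.kB X T (α ∪ β) {i} n ∧ x - C.f10 X T α β i z ∈ C.kB X T α β n := by
  constructor
  · intro h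
    obtain ⟨_, ⟨z, hz, rfl⟩, b, hb, rfl⟩ := Submodule.mem_sup.1 h
    exact ⟨z, hz.2, hz.1, by rwa [add_sub_cancel_left]⟩
  · rintro ⟨z, h1, h2, h3⟩
    exact Submodule.mem_sup.2 ⟨_, ⟨z, ⟨h2, h1⟩, rfl⟩, _, h3, add_sub_cancel _ _⟩

theorem mem_kP : x ∈ C.kP X T α β n ↔ x ∈ C.kZ X T α β n ∧ ∃ z ∈ C.kZ X ∅ (α ∪ β) ∅ n,
    C.f03 X T α β x - C.f43 X T α β z ∈ C.kB X T (α ∪ β) ∅ n := by
  constructor
  · rintro ⟨h, hx⟩
    obtain ⟨_, ⟨z, hz, rfl⟩, b, hb, e⟩ := Submodule.mem_sup.1 h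
    exact ⟨hx, z, hz, by rwa [← e, add_sub_cancel_left]⟩
  · rintro ⟨hx, z, h1, h2⟩
    exact ⟨Submodule.mem_sup.2 ⟨_, ⟨z, h1, rfl⟩, _, h2, add_sub_cancel _ _⟩, hx⟩

theorem kB_kN : C.kB X T α β n ≤ C.kN X T α β i n := le_sup_right

/-- an endomorphism of the mixed Hodge complex -/
structure Endo (ρ : C.K X T α β →ₗ[ℤ] C.K X T α β) : Prop where
  D : ∀ a, ρ (C.kD X T α β a) = C.kD X T α β (ρ a)
  κ : ∀ a, ρ (C.kκ X T α β a) = C.kκ X T α β (ρ a)
  deg : ∀ n, ∀ a ∈ C.kDg X T α β n, ρ a ∈ C.kDg X T α β n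
  W : ∀ q n, ∀ a ∈ G.Gam (C.kW X T α β q) n, ρ a ∈ G.Gam (C.kW X T α β q) n
  F : ∀ p n, ∀ a ∈ C.kF X T α β p n, ρ a ∈ C.kF X T α β p n

end Ctx

end Pool.Agent.PWD
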