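import Pool.Agent.P.MP_65ad7c_ag.NMain
import Pool.Agent.P.MP_65ad7c_ag.DQ

/-! The flow on the Betti moduli space, for an abstract coordinate ring. -/

open Set TopologicalSpace
open scoped Manifold ContDiff
open Pool.Agent.PW

noncomputable section
namespace Pool.Agent.PWF

theorem equiv_DFl {r : ℕ} {Γ : Type} [Group Γ] {G : Subgroup (GL (Fin r) ℂ)} {R : Type}
    [CommRing R] [Algebra ℂ R] {e : (Γ →* G) → R →ₐ[ℂ] ℂ} (he : IsInv e) :
    ∃ φ : R ≃ₐ[ℂ] Inv Γ G, ∀ f ρ, (φ f).1 ρ = e ρ f := by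
  let ψ : R →ₐ[ℂ] Inv Γ G :=
    (AlgHom.pi e).codRestrict (Inv Γ G) fun f => (he.2 _).1 ⟨f, fun _ => rfl⟩
  have hψ : ∀ f ρ, (ψ f).1 ρ = e ρ f := fun _ _ => rfl
  refine ⟨AlgEquiv.ofBijective ψ ⟨(injective_iff_map_eq_zero ψ).2 fun f hf => he.1 f fun ρ => ?_,
    fun F => ?_⟩, hψ⟩
  · rw [← hψ, hf]
    rfl
  · obtain ⟨f, hf⟩ := (he.2 F.1).2 F.2
    exact ⟨f, Subtype.ext (funext hf)⟩

theorem minimal_DFl {R S : Type} [CommRing R] [CommRing S] (φ : S ≃+* R) {P : Ideal R}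
    (hP : P ∈ minimalPrimes R) : P.comap φ ∈ minimalPrimes S := by
  have h := Ideal.minimalPrimes_comap_of_surjective (f := (φ : S →+* R)) φ.surjective hP
  rwa [Ideal.comap_bot_of_injective (φ : S →+* R) φ.injective] at h

/-- transport of points along an isomorphism of rings -/
def homeo_DFl {R S : Type} [CommRing R] [Algebra ℂ R] [CommRing S] [Algebra ℂ S] (φ : R ≃ₐ[ℂ] S)
    (P : Ideal R) : Pts P ≃ₜ Pts (P.comap φ.symm.toRingEquiv) where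
  toFun y := ⟨fun F => y.1 (φ.symm F), by
    obtain ⟨ψ, h⟩ := y.2.1
    exact ⟨ψ.comp φ.symm, funext fun F => congrFun h _⟩, fun F hF => y.2.2 _ hF⟩
  invFun y := ⟨fun f => y.1 (φ f), by
    obtain ⟨ψ, h⟩ := y.2.1
    exact ⟨ψ.comp φ, funext fun F => congrFun h _⟩, fun f hf => y.2.2 _ (by
      show φ.symm (φ f) ∈ P
      rwa [φ.symm_apply_apply])⟩
  left_inv y := Subtype.ext (funext fun f => congrArg y.1 (φ.symm_apply_apply f))
  right_inv y := Subtype.ext (funext fun F => congrArg y.1 (φ.apply_symm_apply F))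
  continuous_toFun := by
    refine Continuous.subtype_mk (continuous_pi fun F => ?_) _
    exact (continuous_apply (φ.symm F)).comp continuous_subtype_val
  continuous_invFun := by
    refine Continuous.subtype_mk (continuous_pi fun f => ?_) _
    exact (continuous_apply (φ f)).comp continuous_subtype_val

theorem conj_DFl {A B : Type} [TopologicalSpace A] [TopologicalSpace B] (τ : A ≃ₜ B)
    {S : A → A → Prop} {S' : B → B → Prop} (hS : ∀ y y', S y y' → S' (τ y) (τ y'))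
    (h : ∃ Φ Φ' : C(B × unitInterval, B), (∀ y, Φ (y, 0) = y) ∧
      (∀ y t, Φ' (Φ (y, t), t) = y) ∧ (∀ y t, Φ (Φ' (y, t), t) = y) ∧
      (∀ y, Φ (Φ (y, 1), 1) = y) ∧ ∀ y y', S' y y' → y' = Φ (y, 1)) :
    ∃ Φ Φ' : C(A × unitInterval, A), (∀ y, Φ (y, 0) = y) ∧
      (∀ y t, Φ' (Φ (y, t), t) = y) ∧ (∀ y t, Φ (Φ' (y, t), t) = y) ∧
      (∀ y, Φ (Φ (y, 1), 1) = y) ∧ ∀ y y', S y y' → y' = Φ (y, 1) := by
  obtain ⟨Φ, Φ', h1, h2, h3, h4, h5⟩ := h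
  refine ⟨⟨fun p => τ.symm (Φ (τ p.1, p.2)), by fun_prop⟩,
    ⟨fun p => τ.symm (Φ' (τ p.1, p.2)), by fun_prop⟩, fun y => ?_, fun y t => ?_, fun y t => ?_,
    fun y => ?_, fun y y' h => ?_⟩
  · simp [h1]
  · simp [h2]
  · simp [h3]
  · simp [h4]
  · simp [← h5 _ _ (hS y y' h)]

theorem exists_flow (n r : ℕ) (X : Type) [TopologicalSpace X] [T2Space X] [CompactSpace X]
    [ConnectedSpace X] [ChartedSpace (EC n) X] [IsManifold 𝓘(ℂ, EC n) ω X] (hK : IsKahler n X)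
    (x₀ : X) (G : Subgroup (GL (Fin r) ℂ)) (hG : Red G) (R : Type) [CommRing R] [Algebra ℂ R]
    (e : (FundamentalGroup X x₀ →* G) → R →ₐ[ℂ] ℂ) (he : IsInv e)
    (P : Ideal R) (hP : P ∈ minimalPrimes R) :
    ∃ Φ Φ' : C(Pts P × unitInterval, Pts P), (∀ y, Φ (y, 0) = y) ∧
      (∀ y t, Φ' (Φ (y, t), t) = y) ∧ (∀ y t, Φ (Φ' (y, t), t) = y) ∧
      (∀ y, Φ (Φ (y, 1), 1) = y) ∧ ∀ y y' : Pts P, Cnj e y.1 y'.1 → y' = Φ (y, 1) := by
  obtain ⟨φ, hφ⟩ := equiv_DFl he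
  refine conj_DFl (homeo_DFl φ P) (S := fun y y' => Cnj e y.1 y'.1)
    (S' := fun y y' => IsS y.1 y'.1) (fun y y' h F F' hF => ?_)
    (PW.exists_flow n r X hK x₀ G hG _ (minimal_DFl φ.symm.toRingEquiv hP))
  refine h (φ.symm F) (φ.symm F') fun ρ ρ' hρ => ?_
  rw [← hφ, ← hφ, φ.apply_symm_apply, φ.apply_symm_apply]
  exact hF ρ ρ' hρ

end Pool.Agent.PWF
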