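import Pool.Agent.P.MP_65ad7c_ag.DFk
import Pool.Agent.P.MP_65ad7c_ag.DFl

/-! The weight filtration of the statement has no odd weights. -/

open Set TopologicalSpace
open scoped Manifold ContDiff
open Pool.Agent.PW Pool.Agent.PWD
open Pool.Agent.HT (cj)

noncomputable section
namespace Pool.Agent.PWF

theorem bar_eq {N : ℕ} : (bar : HT.Amb N → HT.Amb N) = cj N := rfl

variable {R : Type} [CommRing R] [Algebra ℂ R] {Y : Set (R → ℂ)}

theorem model_iff {a d m : ℕ} {Q : Data Y a} {S : (R → ℂ) → (R → ℂ) → Prop} {U : ℕ → Opens Y} :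
    Model Q S d m (fun e => U e) ↔ Q.IsModel S d m U :=
  ⟨fun h => ⟨h.gen, h.dim, h.snc, h.cjX, h.cjD, h.disj, h.cont, h.surj, h.inj, h.exc, h.real, h.hol,
    h.ph_cont, h.ph_eq, h.ph_inf, h.ph_hyp⟩,
   fun h => ⟨h.gen, h.dim, h.snc, h.cjX, h.cjD, h.disj, h.cont, h.surj, h.inj, h.exc, h.real, h.hol,
    h.ph_cont, h.ph_eq, h.ph_inf, h.ph_hyp⟩⟩

theorem wt_iff {S : (R → ℂ) → (R → ℂ) → Prop} {d : ℕ} {I : Cx Y} {m k : ℕ} {α : Glo I m} :
    α ∈ Wt S d I m k ↔ ∃ (U : ℕ → Opens Y) (one : Sec I 0 (U 1)), IsStrat d U ∧ IsIC U I one ∧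
      α ∈ PWD.Wt S d one m k := by
  constructor
  · rintro ⟨U, one, Q, hU, hI, hQ, hα, u, O, η, j, t, hu, h1, h2, h3, h4, h5⟩
    exact ⟨U, one, hU, hI, hα, Q, fun n W => (hu.lin n W).mk' _, O, η, j, t, model_iff.1 hQ,
      ⟨hu.van, hu.res, hu.d, hu.one⟩, h1, h2, h3, h4, h5⟩
  · rintro ⟨U, one, hU, hI, hα, Q, u, O, η, j, t, hQ, hu, h1, h2, h3, h4, h5⟩
    exact ⟨U, one, Q, hU, hI, model_iff.2 hQ, hα, fun n W => u n W, O, η, j, t,
      ⟨fun n W => (u n W).isLinear, hu.van, hu.res, hu.d, hu.one⟩, h1, h2, h3, h4, h5⟩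

theorem fin (n r : ℕ) (X : Type) [TopologicalSpace X] [T2Space X] [CompactSpace X]
    [ConnectedSpace X] [ChartedSpace (EC n) X] [IsManifold 𝓘(ℂ, EC n) ω X] (hK : IsKahler n X)
    (x₀ : X) (G : Subgroup (GL (Fin r) ℂ)) (hG : Red G) (R : Type) [CommRing R] [Algebra ℂ R]
    (e : (FundamentalGroup X x₀ →* G) → R →ₐ[ℂ] ℂ) (he : IsInv e)
    (P : Ideal R) (hP : P ∈ minimalPrimes R) (d : ℕ) (I : Cx (Pts P)) (m k : ℕ) :
    Wt (Cnj e) d I m (2 * k + 1) = Wt (Cnj e) d I m (2 * k) := by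
  obtain ⟨Φ, Φ', h0, h1, h2, -, hS⟩ := exists_flow n r X hK x₀ G hG R e he P hP
  ext α
  rw [wt_iff, wt_iff]
  refine exists_congr fun U => exists_congr fun one => and_congr_right fun hU =>
    and_congr_right fun hI => ?_
  rw [wt_odd (Y := Pts P) ⟨P, rfl⟩ hU hI Φ Φ' h0 h1 h2 hS m k]

end Pool.Agent.PWF
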