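import Pool.Agent.P.MP_65ad7c_ag.DFa

/-! The weight filtration of the statement is the weight filtration of `K(T, α, β)`. -/

open Set Filter Topology
open scoped ContDiff
open Pool.Agent.HT (Form Amb)

noncomputable section
namespace Pool.Agent.PWD

section gen
variable {V : Type} [NormedAddCommGroup V] [NormedSpace ℝ V] {ι : Type} [LinearOrder ι]

theorem cob_DFc (c : Finset ι → GF V) (n : ℕ) (J : Finset ι) :
    cobG c J n = (-1 : ℂ) ^ n • cob (fun J => c J n) J := by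
  simp only [cobG, epsG, cob, Finset.sum_apply, Pi.smul_apply]

theorem dt_DFc (c : Finset ι → GF V) (n : ℕ) (J : Finset ι) :
    Dt (fun n J => c J n) n J = (dG (c J) + cobG c J) n := by
  rw [Pi.add_apply, cob_DFc]
  cases n with
  | zero =>
    show cob (fun J => c J 0) J = 0 + (-1 : ℂ) ^ 0 • cob (fun J => c J 0) J
    rw [pow_zero, one_smul, zero_add]
  | succ n => rfl

theorem single_DFc {m : ℕ} (η : Form V m) (n : ℕ) (J : Finset ι) :
    (Pi.single m (Pi.single ∅ η) : (n : ℕ) → Finset ι → Form V n) n J =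
      (Pi.single ∅ (Pi.single m η) : Finset ι → GF V) J n := by
  by_cases e : n = m
  · subst e
    rw [Pi.single_eq_same]
    by_cases e' : J = ∅
    · subst e'
      rw [Pi.single_eq_same, Pi.single_eq_same, Pi.single_eq_same]
    · rw [Pi.single_eq_of_ne e', Pi.single_eq_of_ne e']
      rfl
  · rw [Pi.single_eq_of_ne e]
    by_cases e' : J = ∅
    · subst e'
      rw [Pi.single_eq_same, Pi.single_eq_of_ne e]
      rfl
    · rw [Pi.single_eq_of_ne e']
      rfl

theorem lg_succ_DFc {G : Set (V → ℂ)} {O : Set V} {w n : ℕ} {β : Form V n} (h : Lg G O w n β) :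
    Lg G O (w + 1) n β := by
  induction h with
  | zero => exact Lg.zero
  | smooth h => exact Lg.smooth h
  | add _ _ h1 h2 => exact Lg.add h1 h2
  | log hh _ h1 => exact Lg.log hh h1

theorem lg_mono_DFc {G : Set (V → ℂ)} {O : Set V} {w w' n : ℕ} {β : Form V n} (h : Lg G O w n β)
    (hw : w ≤ w') : Lg G O w' n β := by
  induction hw with
  | refl => exact h
  | step _ ih => exact lg_succ_DFc ih

theorem wi_DFc {k m n : ℕ} {J : Finset ι} (h : n + J.card = m) :
    Ctx.wi ((k : ℤ) - m) J = k + 1 - n := by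
  unfold Ctx.wi
  omega

theorem prjF_DFc {m : ℕ} (η : Form V m) (J : Finset ι) :
    prjZ ((m : ℤ) - J.card) ((Pi.single ∅ (Pi.single m η) : Finset ι → GF V) J) =
      (Pi.single ∅ (Pi.single m η) : Finset ι → GF V) J := by
  by_cases e : J = ∅
  · subst e
    rw [Pi.single_eq_same, Finset.card_empty, Nat.cast_zero, sub_zero, prjZ_nat, prj_single]
  · rw [Pi.single_eq_of_ne e, prjZ_zero]

theorem key_DFc {m : ℕ} (η : Form V m) (b : Finset ι → GF V) (J : Finset ι) :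
    (Pi.single ∅ (Pi.single m η) : Finset ι → GF V) J -
      (dG (prjZ ((m : ℤ) - 1 - J.card) (b J)) +
        cobG (fun J => prjZ ((m : ℤ) - 1 - J.card) (b J)) J) =
      prjZ ((m : ℤ) - J.card)
        ((Pi.single ∅ (Pi.single m η) : Finset ι → GF V) J - (dG (b J) + cobG b J)) := by
  have e1 : (m : ℤ) - J.card = (m : ℤ) - 1 - J.card + 1 := by ring
  have e2 : (m : ℤ) - J.card = (m : ℤ) - 1 + 1 - J.card := by ring
  rw [prjZ_sub, prjZ_add, prjF_DFc, ← prjZ_dG, ← prjZ_cobG, ← e1, ← e2]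

end gen

variable {M d m k : ℕ} {ι : Type} [LinearOrder ι] {X : Set (Amb M)} {D : ι → Set (Amb M)}
  {T α β : Finset ι} {η : Form (Amb M) m}

theorem InW.succ (h : InW d X D T α β k η) : InW d X D T α β (k + 1) η := by
  obtain ⟨b, hb⟩ := h
  refine ⟨b, fun n J hJ => ⟨(hb n J hJ).1, fun e x hx => ?_⟩⟩
  obtain ⟨O, γ, hO, hxO, h1, h2⟩ := (hb n J hJ).2 e x hx
  exact ⟨O, γ, hO, hxO, lg_mono_DFc h1 (by omega), h2⟩

theorem InW.zero : InW d X D T α β k (0 : Form (Amb M) m) := by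
  refine ⟨fun n J => (0 : Finset ι → GF (Amb M)) J n, fun n J _ => ⟨Sm.zero, fun _ x _ => ?_⟩⟩
  refine ⟨univ, 0, isOpen_univ, trivial, Lg.zero, ?_⟩
  have e : cobG (0 : Finset ι → GF (Amb M)) J = 0 := by
    funext n y
    ext v
    simp [cobG, epsG]
  rw [dt_DFc, single_DFc, e, Pi.zero_apply, dG_zero, Pi.single_zero, Pi.single_zero]
  refine Van.of_zero fun y _ => ?_
  simp

variable [Fintype ι]

theorem InW.kWc (h : (Ctx.amb d X D).Tri X T α β) (hη : Sm (St X D T \ Off D α) η)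
    (hz : (Ctx.amb d X D).kf X T α β η hη ∈ (Ctx.amb d X D).kZ X T α β m)
    (hw : InW d X D T α β k η) :
    (Ctx.amb d X D).kf X T α β η hη ∈ (Ctx.amb d X D).kWc X T α β m k := by
  obtain ⟨b, hb⟩ := hw
  have hb0 : SmK ((Ctx.amb d X D).SK X T α β) fun J n => b n J := by
    intro J n
    by_cases hJ : J ⊆ β
    · rw [Ctx.SK, Ctx.SJ_of hJ]
      exact (hb n J hJ).1
    · rw [Ctx.SK, Ctx.SJ_of_not hJ, empty_diff]
      exact sm_iff.2 fun _ hx => hx.elim
  have hc : SmK ((Ctx.amb d X D).SK X T α β)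
      fun J => prjZ ((m : ℤ) - 1 - J.card) fun n => b n J := fun J => (hb0 J).prjZ _
  have hB : Fam.mk _ hc ∈ (Ctx.amb d X D).kDg X T α β ((m : ℤ) - 1) :=
    Fam.mem_deg_of fun J => prjZ_prjZ _ _
  have hF : SmK ((Ctx.amb d X D).SK X T α β)
      (Pi.single ∅ (Pi.single m η) : Finset ι → GF (Amb M)) :=
    SmK.single (by rw [Ctx.SK, Ctx.SJ_empty]; exact smS_single hη)
  have hY : SmK ((Ctx.amb d X D).SK X T α β) fun J => prjZ ((m : ℤ) - J.card)
      ((Pi.single ∅ (Pi.single m η) : Finset ι → GF (Amb M)) J -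
        (dG (fun n => b n J) + cobG (fun J n => b n J) J)) := fun J =>
    ((hF J).sub ((hb0 J).d.add (((Ctx.amb d X D).okδ X T α β).sm _ hb0 J))).prjZ _
  have ey : (Ctx.amb d X D).kf X T α β η hη - (Ctx.amb d X D).kD X T α β (Fam.mk _ hc) =
      Fam.mk _ hY := by
    rw [Ctx.kD_mk]
    refine (Fam.mk_sub hF _).trans (Fam.mk_eq.2 fun J => ?_)
    have := key_DFc η (fun J n => b n J) J
    rw [Pi.sub_apply, Pi.sub_apply, this, sub_self]
    exact VanG.zero
  have hyW : Fam.mk _ hY ∈ G.Gam ((Ctx.amb d X D).kW X T α β ((k : ℤ) - m)) m := by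
    refine G.mem_Gam.2 fun x => h.Wt_W _ _ x (h.g.mem_kWt.2 ⟨Fam.mem_deg_of fun J => prjZ_prjZ _ _,
      fun J => ?_⟩)
    by_cases hx : (x : Amb M) ∈ (Ctx.amb d X D).SJ X T β J
    · by_cases hJm : J.card ≤ m
      · have hJ : J ⊆ β := by
          by_contra hJ
          rw [Ctx.SJ_of_not hJ] at hx
          exact hx
        obtain ⟨n, hn⟩ : ∃ n, n + J.card = m := ⟨m - J.card, by omega⟩
        rw [Ctx.SJ_of hJ] at hx ⊢
        obtain ⟨O, γ, hO, hxO, h1, h2⟩ := (hb n J hJ).2 hn x hx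
        have e : (m : ℤ) - J.card = n := by omega
        rw [e, prjZ_nat, wi_DFc hn]
        refine ⟨O, Pi.single n γ, hO, hxO, h1.tw, ?_⟩
        rw [prj, ← single_subG]
        refine vanG_single.2 ?_
        rw [single_DFc, dt_DFc (fun J n => b n J)] at h2
        exact h2
      · rw [prjZ_neg (by omega)]
        exact Ctx.TN.of_nul Ctx.NulN.zero
    · exact Ctx.TN.of_nul (Ctx.NulN.of_notMem (h.g.clSJ J) hx _)
  refine Submodule.mem_sup.2 ⟨Fam.mk _ hY, ⟨hyW, ?_⟩, _, ⟨_, hB, rfl⟩, ?_⟩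
  · rw [← ey]
    show (Ctx.amb d X D).kD X T α β _ = 0
    rw [map_sub, Ctx.kD_kD, sub_zero]
    exact hz.2
  · rw [← ey, sub_add_cancel]

theorem InW.of_kWc (h : (Ctx.amb d X D).Tri X T α β) (hη : Sm (St X D T \ Off D α) η)
    (hw : (Ctx.amb d X D).kf X T α β η hη ∈ (Ctx.amb d X D).kWc X T α β m k) :
    InW d X D T α β k η := by
  haveI : CompactSpace X := isCompact_iff_compactSpace.1 h.g.cpt
  obtain ⟨y, hy, z, ⟨B, -, hB⟩, e⟩ := Submodule.mem_sup.1 (G.KH.Wc_le h.kh m k hw)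
  obtain ⟨c, hc, rfl⟩ := B.surj
  have hF : SmK ((Ctx.amb d X D).SK X T α β)
      (Pi.single ∅ (Pi.single m η) : Finset ι → GF (Amb M)) :=
    SmK.single (by rw [Ctx.SK, Ctx.SJ_empty]; exact smS_single hη)
  have hD : SmK ((Ctx.amb d X D).SK X T α β) fun J => dG (c J) + cobG c J :=
    fun J => (hc J).d.add (((Ctx.amb d X D).okδ X T α β).sm c hc J)
  have hz : z = Fam.mk _ hD := hB.symm.trans Ctx.kD_mk
  have ey : y = Fam.mk _ (hF.sub hD) := by
    rw [eq_sub_of_add_eq e, hz]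
    exact Fam.mk_sub hF hD
  have hy' : ∀ x : X, Fam.mk _ (hF.sub hD) ∈ (Ctx.amb d X D).kWt X T α β ((k : ℤ) - m) m x := by
    rw [← ey]
    exact G.mem_Gam.1 hy.1
  refine ⟨fun n J => c J n, fun n J hJ => ⟨?_, fun hn x hx => ?_⟩⟩
  · have := hc J n
    rw [Ctx.SK, Ctx.SJ_of hJ] at this
    exact this
  · have := (h.g.mem_kWt.1 (hy' ⟨x, hx.1⟩)).2 J
    rw [Ctx.SJ_of hJ, wi_DFc hn] at this
    obtain ⟨O, g, hO, hxO, h1, h2⟩ := this
    refine ⟨O, g n, hO, hxO, h1.lg n, ?_⟩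
    rw [single_DFc, dt_DFc]
    exact h2 n

end Pool.Agent.PWD
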