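import Pool.Agent.P.MP_65ad7c_ag.DFa

/-! Germs along a stratum, for single forms. -/

open Set Filter Topology
open scoped ContDiff
open Pool.Agent.HT (Form)

noncomputable section
namespace Pool.Agent.PWD.Ctx

variable {V : Type} [NormedAddCommGroup V] [NormedSpace ℝ V] [FiniteDimensional ℝ V] {ι : Type}
  [LinearOrder ι] [Fintype ι] {C : Ctx V ι} {X : Set V} {T α β : Finset ι} {m : ℕ}

omit [FiniteDimensional ℝ V] [LinearOrder ι] [Fintype ι] in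
theorem open_DFd {A : Set V} {f : GF V} (h : ∀ x ∈ A, C.NulN X α x f) :
    ∃ G, IsOpen G ∧ A ⊆ G ∧ VanG ((X ∩ G) \ Off C.D α) f := by
  choose! O h1 h2 h3 using h
  refine ⟨⋃ x ∈ A, O x, isOpen_biUnion h1, fun x hx => mem_biUnion hx (h2 x hx),
    VanG.loc fun y hy => ?_⟩
  obtain ⟨x, hx, hy2⟩ := mem_iUnion₂.1 hy.1.2
  exact ⟨O x, h1 x hx, hy2, (h3 x hx).anti fun z hz => ⟨⟨hz.1.1.1, hz.2⟩, hz.1.2⟩⟩

theorem Glob.surj (h : C.Glob X) (hT : Disjoint T α) (hβ : Disjoint β α) {a : C.K X T α β}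
    (ha : a ∈ C.kZ X T α β m) :
    ∃ (η : Form V m) (hs : Sm (St X C.D T \ Off C.D α) η) (G G' : Set V), IsOpen G ∧ IsOpen G' ∧
      St X C.D T ⊆ G ∧ St X C.D T ∩ Off C.D β ⊆ G' ∧ Sm (X \ Off C.D α) η ∧
      Van ((X ∩ G) \ Off C.D α) (extDeriv η) ∧ Van ((X ∩ G') \ Off C.D α) η ∧
      a - C.kf X T α β η hs ∈ C.kB X T α β m := by
  obtain ⟨f, hf, hm, hd, hv, b, hb, he⟩ := h.bc_surj hT hβ ha.1 ha.2
  obtain ⟨G, hG, h1, h2⟩ := open_DFd hd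
  obtain ⟨G', hG', h1', h2'⟩ := open_DFd hv
  refine ⟨f m, (hf m).anti (sdiff_subset_sdiff_left inter_subset_left), G, G', hG, hG', h1, h1',
    hf m, h2 (m + 1), h2' m, b, hb, ?_⟩
  rw [← he]
  congr 1
  unfold kf
  congr 1
  exact hm.symm

theorem Glob.inj (h : C.Glob X) (hT : Disjoint T α) (hβ : Disjoint β α) {η : Form V m}
    {G G' : Set V} (hG : IsOpen G) (hG' : IsOpen G') (h1 : St X C.D T ⊆ G)
    (h2 : St X C.D T ∩ Off C.D β ⊆ G') (h3 : Sm ((X ∩ G) \ Off C.D α) η)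
    (h4 : Van ((X ∩ G) \ Off C.D α) (extDeriv η)) (h5 : Van ((X ∩ G') \ Off C.D α) η)
    (hs : Sm (St X C.D T \ Off C.D α) η) (hb : C.kf X T α β η hs ∈ C.kB X T α β m) :
    ∃ G₁ G₁' : Set V, IsOpen G₁ ∧ IsOpen G₁' ∧ St X C.D T ⊆ G₁ ∧ St X C.D T ∩ Off C.D β ⊆ G₁' ∧
      ExF ((X ∩ G₁) \ Off C.D α) ((X ∩ G₁') \ Off C.D α) η := by
  obtain ⟨b, hb1, hb2⟩ := hb
  obtain ⟨g, hg, hv, hd⟩ := h.bc_inj hT hβ (m := m) (f := Pi.single m η)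
    (fun x hx => ⟨G, hG, h1 hx, smS_single h3⟩) (prj_single η)
    (fun x hx => ⟨G, hG, h1 hx, by rw [dG_single]; exact vanG_single.2 h4⟩)
    (fun x hx => ⟨G', hG', h2 hx, vanG_single.2 h5⟩) (smS_single hs) hb1 hb2.symm
  obtain ⟨G₁, hG₁, k1, k2⟩ := open_DFd hd
  obtain ⟨G₁', hG₁', k1', k2'⟩ := open_DFd hv
  refine ⟨G₁, G₁', hG₁, hG₁', k1, k1', ?_⟩
  have k3 : Van ((X ∩ G₁) \ Off C.D α) (η - dG g m) := by
    have := k2 m
    rwa [Pi.sub_apply, Pi.single_eq_same] at this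
  cases m with
  | zero =>
    have e : dG g 0 = 0 := rfl
    rw [e, sub_zero] at k3
    exact k3
  | succ n =>
    exact ⟨g n, (hg n).anti (sdiff_subset_sdiff_left inter_subset_left), k2' n, k3.symm⟩

end Pool.Agent.PWD.Ctx
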