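import Pool.Agent.P.MP_65ad7c_ag.DYH

/-! Supports, coboundaries with supports, flabby gluing. -/

open Set TopologicalSpace CategoryTheory

noncomputable section
namespace Pool.Agent.PWD.SY

variable {Y : Type} [TopologicalSpace Y] {I : Cx Y} {n k m : ℕ} {W W' : Opens Y} {C C' : Set Y}
  {s s' : Sec I n W}

theorem d_d (t : Sec I k W) : dd n m (dd k n t) = 0 :=
  congrArg (fun f : I.X k ⟶ I.X m => (f.hom.app (Opposite.op W)).hom t) (I.d_comp_d k n m)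

theorem d_ne (h : k + 1 ≠ n) (t : Sec I k W) : dd k n t = 0 :=
  congrArg (fun f : I.X k ⟶ I.X n => (f.hom.app (Opposite.op W)).hom t) (I.shape k n h)

theorem supp_iff {B : Set Y} : Supp Bᶜ s ↔ s ∈ (van (IP I n) B).sub W :=
  ⟨fun h y hy hB => h y hy (fun h' => h' hB), fun h y hy hB => h y hy (not_not.1 hB)⟩

theorem supp_univ (s : Sec I n W) : Supp univ s := fun _ _ h => (h trivial).elim

theorem supp_zero (C : Set Y) : Supp C (0 : Sec I n W) :=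
  fun _ hy _ => ⟨W, le_rfl, hy, map_zero _⟩

theorem supp_add (h : Supp C s) (h' : Supp C s') : Supp C (s + s') := by
  intro y hy hC
  obtain ⟨A, hA, yA, eA⟩ := h y hy hC
  obtain ⟨B, hB, yB, eB⟩ := h' y hy hC
  refine ⟨A ⊓ B, inf_le_left.trans hA, ⟨yA, yB⟩, ?_⟩
  rw [map_add, ← rs_comp hA (inf_le_left : A ⊓ B ≤ A), eA, map_zero, zero_add]
  have := rs_comp hB (inf_le_right : A ⊓ B ≤ B) s'
  rw [eB, map_zero] at this
  exact this.symm

theorem supp_neg (h : Supp C s) : Supp C (-s) := by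
  intro y hy hC
  obtain ⟨A, hA, yA, eA⟩ := h y hy hC
  exact ⟨A, hA, yA, by rw [map_neg, eA, neg_zero]⟩

theorem supp_sub (h : Supp C s) (h' : Supp C s') : Supp C (s - s') := by
  rw [sub_eq_add_neg]
  exact supp_add h (supp_neg h')

theorem supp_mono (h : Supp C s) (hC : ∀ y ∈ W, y ∈ C → y ∈ C') : Supp C' s :=
  fun y hy hy' => h y hy fun hc => hy' (hC y hy hc)

theorem supp_inter (h : Supp C s) (h' : Supp C' s) : Supp (C ∩ C') s := by
  intro y hy hC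
  by_cases hc : y ∈ C
  · exact h' y hy fun hc' => hC ⟨hc, hc'⟩
  · exact h y hy hc

theorem supp_rs (h : Supp C s) (hW : W' ≤ W) : Supp C (rs hW s) := by
  intro y hy hC
  obtain ⟨A, hA, yA, eA⟩ := h y (hW hy) hC
  refine ⟨A ⊓ W', inf_le_right, ⟨yA, hy⟩, ?_⟩
  have := rs_comp hA (inf_le_left : A ⊓ W' ≤ A) s
  rw [eA, map_zero] at this
  rw [rs_comp]
  exact this.symm

theorem supp_d (h : Supp C s) : Supp C (dd n m s) := by
  intro y hy hC
  obtain ⟨A, hA, yA, eA⟩ := h y hy hC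
  exact ⟨A, hA, yA, by rw [rs_d, eA, map_zero]⟩

theorem supp_of_rs (hW : W' ≤ W) (h0 : rs hW s = 0) (hC : ∀ y ∈ W, y ∉ C → y ∈ W') : Supp C s :=
  fun y hy hc => ⟨W', hW, hC y hy hc, h0⟩

theorem rs_eq_zero (h : Supp C s) (hW : W' ≤ W) (hC : ∀ y ∈ W', y ∉ C) : rs hW s = 0 :=
  (IP_sh I n).sep W' (rs hW s) fun y hy => supp_rs h hW y hy (hC y hy)

/-- `s` is the coboundary of a section with support in `C` -/
def Bd (C : Set Y) (s : Sec I n W) : Prop := ∃ (k : ℕ) (t : Sec I k W), Supp C t ∧ dd k n t = s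

theorem bd_zero_iff {s : Sec I 0 W} : Bd C s ↔ s = 0 :=
  ⟨fun ⟨k, t, _, e⟩ => e.symm.trans (d_ne (Nat.succ_ne_zero k) t),
    fun e => ⟨0, 0, supp_zero C, by rw [map_zero, e]⟩⟩

theorem bd_succ_iff {s : Sec I (n + 1) W} :
    Bd C s ↔ ∃ t : Sec I n W, Supp C t ∧ dd n (n + 1) t = s := by
  refine ⟨fun ⟨k, t, ht, e⟩ => ?_, fun ⟨t, ht, e⟩ => ⟨n, t, ht, e⟩⟩
  by_cases hk : k + 1 = n + 1
  · obtain rfl : k = n := Nat.succ_injective hk
    exact ⟨t, ht, e⟩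
  · exact ⟨0, supp_zero C, by rw [map_zero, ← e, d_ne hk]⟩

theorem bd_zero (C : Set Y) : Bd C (0 : Sec I n W) := ⟨0, 0, supp_zero C, map_zero _⟩

theorem bd_univ (t : Sec I k W) : Bd univ (dd k n t) := ⟨k, t, supp_univ t, rfl⟩

theorem Bd.add (h : Bd C s) (h' : Bd C s') : Bd C (s + s') := by
  cases n with
  | zero => rw [bd_zero_iff.1 h, bd_zero_iff.1 h', add_zero]; exact bd_zero C
  | succ n =>
    obtain ⟨t, ht, e⟩ := bd_succ_iff.1 h
    obtain ⟨t', ht', e'⟩ := bd_succ_iff.1 h'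
    exact ⟨n, t + t', supp_add ht ht', by rw [map_add, e, e']⟩

theorem Bd.neg (h : Bd C s) : Bd C (-s) := by
  obtain ⟨k, t, ht, e⟩ := h
  exact ⟨k, -t, supp_neg ht, by rw [map_neg, e]⟩

theorem Bd.sub (h : Bd C s) (h' : Bd C s') : Bd C (s - s') := by
  rw [sub_eq_add_neg]
  exact h.add h'.neg

theorem Bd.mono (h : Bd C s) (hC : ∀ y ∈ W, y ∈ C → y ∈ C') : Bd C' s := by
  obtain ⟨k, t, ht, e⟩ := h
  exact ⟨k, t, supp_mono ht hC, e⟩

theorem Bd.res (h : Bd C s) (hW : W' ≤ W) : Bd C (rs hW s) := by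
  obtain ⟨k, t, ht, e⟩ := h
  exact ⟨k, rs hW t, supp_rs ht hW, by rw [← rs_d, e]⟩

theorem Bd.closed (h : Bd C s) : dd n m s = 0 := by
  obtain ⟨k, t, -, e⟩ := h
  rw [← e, d_d]

theorem Bd.supp (h : Bd C s) : Supp C s := by
  obtain ⟨k, t, ht, e⟩ := h
  rw [← e]
  exact supp_d ht

theorem flab (hI : ∀ n, Injective (I.X n)) (h : W' ≤ W) (s : Sec I n W') :
    ∃ v : Sec I n W, rs h v = s := (ext_of_inj (hI n)).flabby h s

theorem IP_soft (hI : ∀ n, Injective (I.X n)) (n : ℕ) : (⊤ : Sub (IP I n)).Soft := by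
  intro K O O₁ _ hO hO₁ x _
  obtain ⟨v, hv⟩ := flab hI (inf_le_right : O ⊓ O₁ ≤ O₁) (rs (inf_le_left : O ⊓ O₁ ≤ O) x)
  exact ⟨v, trivial, O ⊓ O₁, inf_le_left, inf_le_right, fun y hy => ⟨hO hy, hO₁ hy⟩, hv⟩

/-- glue two sections and extend -/
theorem glue_ext (hI : ∀ n, Injective (I.X n)) {V : Opens Y} (h : W ≤ V) (h' : W' ≤ V)
    (s : Sec I n W) (s' : Sec I n W')
    (e : rs (inf_le_left : W ⊓ W' ≤ W) s = rs inf_le_right s') :
    ∃ v : Sec I n V, rs h v = s ∧ rs h' v = s' := by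
  obtain ⟨z, hz, hz'⟩ := sh_glue2 (IP_sh I n) (le_sup_left : W ≤ W ⊔ W') le_sup_right le_rfl s s' e
  obtain ⟨v, hv⟩ := flab hI (sup_le h h') z
  refine ⟨v, ?_, ?_⟩
  · have := rs_comp (sup_le h h') (le_sup_left : W ≤ W ⊔ W') v
    rw [hv] at this
    exact this.symm.trans hz
  · have := rs_comp (sup_le h h') (le_sup_right : W' ≤ W ⊔ W') v
    rw [hv] at this
    exact this.symm.trans hz'

theorem Bd.extend (hI : ∀ n, Injective (I.X n)) {V : Opens Y} (h : W ≤ V) (hs : Bd univ s) :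
    ∃ v : Sec I n V, Bd univ v ∧ rs h v = s := by
  obtain ⟨k, t, -, e⟩ := hs
  obtain ⟨u, hu⟩ := flab hI h t
  exact ⟨dd k n u, bd_univ u, by rw [rs_d, hu, e]⟩

theorem Bd.extend_zero (hI : ∀ n, Injective (I.X n)) {P : Opens Y} (hs : Bd (P : Set Y)ᶜ s) :
    ∃ v : Sec I n ⊤, Bd univ v ∧ rs le_top v = s ∧ rs (le_top : P ≤ ⊤) v = 0 := by
  obtain ⟨k, t, ht, e⟩ := hs
  obtain ⟨u, hu, hu'⟩ := glue_ext hI (le_top : W ≤ ⊤) (le_top : P ≤ ⊤) t 0
    (by rw [map_zero]; exact rs_eq_zero ht _ fun y hy hc => hc hy.2)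
  exact ⟨dd k n u, bd_univ u, by rw [rs_d, hu, e], by rw [rs_d, hu', map_zero]⟩

end Pool.Agent.PWD.SY
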