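import Pool.Agent.P.MP_65ad7c_ag.DYC0
import Pool.Agent.P.MP_65ad7c_ag.DYP

/-! Y2 and Y4. -/

open Set TopologicalSpace CategoryTheory

noncomputable section
namespace Pool.Agent.PWD
open SY

variable {R : Type} [CommRing R] [Algebra ℂ R] {Y : Set (R → ℂ)}
  {N d : ℕ} {f : Fin N → R} {U : ℕ → Opens Y} {I : Cx Y} {one : Sec I 0 (U 1)} (C : DR one)

/-- Y2 -/
theorem DR.y2 (hY : IsVar Y) (hf : Algebra.adjoin ℂ (range f) = ⊤) (hU : IsStrat d U)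
    (hI : IsIC U I one) {a m : ℕ} (ham : m + a ≤ d) (c : Fin (a + 1) → Fin (N + 1) → ℂ) {ε : ℝ}
    (hε : 0 < ε) {W : Opens Y} (hW : PN f (fun i : Fin a => c i.castSucc) ε ⊆ (W : Set Y))
    {x : (C.A m).obj W} (hx : (C.d m).app W x = 0) (hv : C.Van (PN f c ε) x)
    (he : C.Ex (PN f c ε) ((C.A m).res (inf_le_left : W ⊓ U 1 ≤ W) x)) :
    C.Rel {y | ∀ i : Fin a, c i.castSucc ⬝ᵥ vecf f y = 0} x 0 := by
  let P1 : Opens Y := ⟨PN f c ε, pn_open f c ε⟩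
  have hP1 : P1 ≤ W := (pn_cast f c ε).trans hW
  obtain ⟨v, hv1, hv2, hv3⟩ := Bd.extend_zero hI.inj (P := P1) (ex_bd C he)
  set q : Sec I m W := C.u m W x - rs le_top v with hq
  have hq0 : dd m (m + 1) q = 0 := by
    rw [hq, map_sub, u_closed C hx, ← rs_d, hv1.closed, map_zero, sub_zero]
  have hq1 : rs (inf_le_left : W ⊓ U 1 ≤ W) q = rs inf_le_right (0 : Sec I m (U 1)) := by
    rw [hq, map_sub, C.u_res, rs_comp, hv2, sub_self, map_zero]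
  have hq2 : rs hP1 q = 0 := by
    rw [hq, map_sub, rs_comp, hv3, sub_zero]
    exact rs_eq_zero (u_supp C hv) hP1 fun y hy h => h hy
  obtain ⟨Q, hQ1, hQ2⟩ := glue_ext hI.inj (le_top : W ≤ ⊤) le_top q 0 hq1
  obtain ⟨ε', hε', hb⟩ := wlp_bd hY hf hU hI (j := m + 1) (fun i : Fin a => c i.castSucc)
    (by omega) hε (s := dd m (m + 1) Q) (SY.d_d Q) (by rw [rs_d, hQ2, map_zero]) hW
    (by rw [rs_d, hQ1, hq0])
  obtain ⟨r, hr1, hr2⟩ := bd_succ_iff.1 hb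
  let P2 : Opens Y := ⟨PN f (fun i : Fin a => c i.castSucc) ε', pn_open f _ ε'⟩
  have hr3 : rs (le_top : P2 ≤ ⊤) r = 0 := rs_eq_zero hr1 _ fun y hy h => h.2 hy
  have hr4 : rs (le_top : U 1 ≤ ⊤) r = 0 := rs_eq_zero hr1 _ fun y hy h => h.1 hy
  obtain ⟨ε'', -, hb'⟩ := wlp_bd hY hf hU hI (j := m) c (by omega) (lt_min hε hε') (s := Q - r)
    (by rw [map_sub, hr2, sub_self]) (by rw [map_sub, hQ2, hr4, sub_self]) (P := P1 ⊓ P2)
    (fun y hy => ⟨pn_mono f c (min_le_left _ _) hy,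
      pn_cast f c ε' (pn_mono f c (min_le_right _ _) hy)⟩)
    (by
      rw [map_sub, ← rs_comp (le_top : W ≤ ⊤) (inf_le_left.trans hP1), hQ1,
        ← rs_comp hP1 inf_le_left, hq2, ← rs_comp (le_top : P2 ≤ ⊤) inf_le_right, hr3, map_zero,
        map_zero, sub_self])
  refine (rel_iff C).2 ⟨W ⊓ P2, inf_le_left,
    fun y hy => ⟨hW (pn_zero f _ hε hy), pn_zero f _ hε' hy⟩, ?_⟩
  have e : rs le_top (0 : Sec I m ⊤) - C.u m (W ⊓ P2) ((C.A m).res inf_le_left x) =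
      -rs le_top (Q - r + v) := by
    rw [map_add, map_sub, ← rs_comp (le_top : W ≤ ⊤) (inf_le_left : W ⊓ P2 ≤ W) Q, hQ1,
      ← rs_comp (le_top : P2 ≤ ⊤) inf_le_right r, hr3, hq, map_sub, C.u_res, rs_comp, map_zero,
      map_zero]
    abel
  rw [e]
  exact (((hb'.mono fun _ _ _ => mem_univ _).add hv1).res _).neg

/-- Y4 -/
theorem DR.y4 (hY : IsVar Y) (hf : Algebra.adjoin ℂ (range f) = ⊤) (hU : IsStrat d U)
    (hI : IsIC U I one) {a m : ℕ} (ham : m + a ≤ d) (c : Fin a → Fin (N + 1) → ℂ) {ε : ℝ}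
    (hε : 0 < ε) {W : Opens Y} (hW : PN f c ε ⊆ (W : Set Y)) {x : (C.A m).obj W}
    (hx : (C.d m).app W x = 0) {ψ : (C.A m).obj (U 1)} (hψ : (C.d m).app _ ψ = 0)
    (he : C.Ex ∅ ((C.A m).res (inf_le_left : W ⊓ U 1 ≤ W) x - (C.A m).res inf_le_right ψ)) :
    ∃ α : Sec I m ⊤, dd m (m + 1) α = 0 ∧ C.Rel {y | ∀ i, c i ⬝ᵥ vecf f y = 0} x α := by
  have hb0 := ex_bd C he
  rw [compl_empty] at hb0
  obtain ⟨v, hv1, hv2⟩ := Bd.extend hI.inj (le_top : W ⊓ U 1 ≤ ⊤) hb0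
  set q : Sec I m W := C.u m W x - rs le_top v with hq
  have hq0 : dd m (m + 1) q = 0 := by
    rw [hq, map_sub, u_closed C hx, ← rs_d, hv1.closed, map_zero, sub_zero]
  have hq1 : rs (inf_le_left : W ⊓ U 1 ≤ W) q = rs inf_le_right (C.u m (U 1) ψ) := by
    rw [hq, map_sub, C.u_res, rs_comp, hv2, map_sub, C.u_res, sub_sub_cancel]
  obtain ⟨β, hβ1, hβ2⟩ := glue_ext hI.inj (le_top : W ≤ ⊤) le_top q _ hq1
  obtain ⟨ε', hε', hb⟩ := wlp_bd hY hf hU hI (j := m + 1) c (by omega) hε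
    (s := dd m (m + 1) β) (SY.d_d β) (by rw [rs_d, hβ2, u_closed C hψ]) hW (by rw [rs_d, hβ1, hq0])
  obtain ⟨r, hr1, hr2⟩ := bd_succ_iff.1 hb
  let P2 : Opens Y := ⟨PN f c ε', pn_open f _ ε'⟩
  have hr3 : rs (le_top : P2 ≤ ⊤) r = 0 := rs_eq_zero hr1 _ fun y hy h => h.2 hy
  refine ⟨β - r, by rw [map_sub, hr2, sub_self], (rel_iff C).2 ⟨W ⊓ P2, inf_le_left,
    fun y hy => ⟨hW (pn_zero f _ hε hy), pn_zero f _ hε' hy⟩, ?_⟩⟩
  have e : rs le_top (β - r) - C.u m (W ⊓ P2) ((C.A m).res inf_le_left x) = -rs le_top v := by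
    rw [map_sub, ← rs_comp (le_top : W ≤ ⊤) (inf_le_left : W ⊓ P2 ≤ W) β, hβ1,
      ← rs_comp (le_top : P2 ≤ ⊤) inf_le_right r, hr3, hq, map_sub, C.u_res, rs_comp, map_zero]
    abel
  rw [e]
  exact (hv1.res _).neg

end Pool.Agent.PWD
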