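import Pool.Agent.P.MP_65ad7c_ag.DYC0

/-! Y5. -/

open Set TopologicalSpace CategoryTheory

noncomputable section
namespace Pool.Agent.PWD
open SY

variable {R : Type} [CommRing R] [Algebra ℂ R] {Y : Set (R → ℂ)}
  {N d : ℕ} {f : Fin N → R} {U : ℕ → Opens Y} {I : Cx Y} {one : Sec I 0 (U 1)} (C : DR one)

namespace SY

/-- the differential of the direct image -/
def dy5_delta (I : Cx Y) (s : C(Y, Y)) (n : ℕ) :
    Hom (push (IP I n) s) (push (IP I (n + 1)) s) :=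
  ⟨fun W => (dd n (n + 1) : Sec I n (Opens.comap s W) →ₗ[ℂ] Sec I (n + 1) (Opens.comap s W)),
    fun h x => rs_d (Opens.comap_mono s h) x⟩

/-- the difference of the two chain maps -/
def dy5_phi {s : C(Y, Y)} {θ} (hθ : IsTheta one s θ) {σ} (hσ : C.IsSig s σ) (n : ℕ) :
    Hom (C.A n) (push (IP I n) s) :=
  ⟨fun W => ((θ n W).comp (C.u n W) - (C.u n (Opens.comap s W)).comp (σ n W) :
      (C.A n).obj W →ₗ[ℂ] Sec I n (Opens.comap s W)), fun {W W'} h x => by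
    change rs (Opens.comap_mono s h) (θ n W (C.u n W x) - C.u n _ (σ n W x)) =
      θ n W' (C.u n W' ((C.A n).res h x)) - C.u n _ (σ n W' ((C.A n).res h x))
    rw [map_sub, hθ.res n W W' h, C.u_res, C.u_res, hσ.res n W W' h]⟩

theorem dy5_phi_app {s : C(Y, Y)} {θ} (hθ : IsTheta one s θ) {σ} (hσ : C.IsSig s σ) (n : ℕ)
    (W : Opens Y) (x : (C.A n).obj W) :
    (dy5_phi C hθ hσ n).app W x =
      (θ n W (C.u n W x) - C.u n _ (σ n W x) : Sec I n (Opens.comap s W)) := rfl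

theorem dy5_e {s : C(Y, Y)} (hsU : ∀ y, s y ∈ U 1 ↔ y ∈ U 1) {θ} (hθ : IsTheta one s θ) {σ}
    (hσ : C.IsSig s σ) : (dy5_phi C hθ hσ 0).app (U 1) C.e = 0 := by
  have h : Opens.comap s (U 1) ≤ U 1 := fun y hy => (hsU y).1 hy
  change (θ 0 (U 1) (C.u 0 _ C.e) - C.u 0 _ (σ 0 _ C.e) : Sec I 0 (Opens.comap s (U 1))) = 0
  rw [hσ.e h, ← C.u_res, C.u_e, hθ.one h, sub_self]

theorem dy5_h0 {s : C(Y, Y)} (hsU : ∀ y, s y ∈ U 1 ↔ y ∈ U 1) {θ} (hθ : IsTheta one s θ) {σ}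
    (hσ : C.IsSig s σ) (W : Opens Y) (x : (C.A 0).obj W) (hx : (C.d 0).app W x = 0) :
    (dy5_phi C hθ hσ 0).app W x = 0 := by
  refine push_sep (IP_sh I 0).sep s W _ fun y hy => ?_
  by_cases hU : y ∈ U 1
  · obtain ⟨c, O, h, hyO, e⟩ := C.poin0 (W ⊓ U 1) inf_le_right ((C.A 0).res inf_le_left x)
      (res_closed C hx _) y ⟨hy, hU⟩
    have e' : (C.A 0).res (h.trans inf_le_left) x =
        c • (C.A 0).res (h.trans inf_le_right) C.e := by
      have e1 : (C.A 0).res h ((C.A 0).res (inf_le_left : W ⊓ U 1 ≤ W) x -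
        c • (C.A 0).res (inf_le_right : W ⊓ U 1 ≤ U 1) C.e) = 0 := e
      rw [map_sub, map_smul, (C.A 0).res_res, (C.A 0).res_res, sub_eq_zero] at e1
      exact e1
    refine near_bot.2 ⟨O, h.trans inf_le_left, hyO, ?_⟩
    rw [(dy5_phi C hθ hσ 0).nat, e', map_smul, ← (dy5_phi C hθ hσ 0).nat, dy5_e C hsU hθ hσ,
      map_zero, smul_zero]
  · obtain ⟨O, h, hyO, e⟩ := near_bot.1 (C.zero 0 W x y hy hU)
    refine near_bot.2 ⟨O, h, hyO, ?_⟩
    rw [(dy5_phi C hθ hσ 0).nat, e, map_zero]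

theorem dy5_bd (hI : IsIC U I one) {s : Y ≃ₜ Y} (hsU : ∀ y, s y ∈ U 1 ↔ y ∈ U 1) {θ}
    (hθ : IsTheta one (s : C(Y, Y)) θ) {σ} (hσ : C.IsSig (s : C(Y, Y)) σ) {m : ℕ} {W : Opens Y}
    {x : (C.A m).obj W} (hx : (C.d m).app W x = 0) :
    Bd univ (θ m W (C.u m W x) - C.u m _ (σ m W x)) := by
  cases m with
  | zero =>
    have h := dy5_h0 C (s := (s : C(Y, Y))) hsU hθ hσ W x hx
    exact bd_zero_iff.2 h
  | succ n =>
    obtain ⟨t, ht⟩ := null_bd C.d (dy5_delta I (s : C(Y, Y)))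
      (fun n W x => d_d (I := I) (k := n) (n := n + 1) (m := n + 1 + 1) x)
      (fun n => Ext.push (ext_of_inj (hI.inj n)) s)
      (fun n => push_sep (IP_sh I n).sep (s : C(Y, Y))) (dy5_phi C hθ hσ)
      (fun n W x => by
        change dd n (n + 1) (θ n W (C.u n W x) - C.u n _ (σ n W x)) =
          θ (n + 1) W (C.u (n + 1) W ((C.d n).app W x)) -
            C.u (n + 1) _ (σ (n + 1) W ((C.d n).app W x))
        rw [map_sub, hθ.d, C.u_d, C.u_d, hσ.d])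
      (dy5_h0 C (s := (s : C(Y, Y))) hsU hθ hσ) C.poin n W x hx
    exact ⟨n, t, supp_univ _, ht⟩

end SY

/-- Y5 -/
theorem DR.y5 (hI : IsIC U I one) {s : Y ≃ₜ Y} (hsU : ∀ y, s y ∈ U 1 ↔ y ∈ U 1) {θ}
    (hθ : IsTheta one (s : C(Y, Y)) θ) {σ} (hσ : C.IsSig (s : C(Y, Y)) σ) {Z : Set Y}
    (hZ : MapsTo s Z Z) {m : ℕ} {W : Opens Y} {x : (C.A m).obj W} (hx : (C.d m).app W x = 0)
    {α : Sec I m ⊤} (hα : dd m (m + 1) α = 0) (hr : C.Rel Z x α) : C.Rel Z (σ m W x) α := by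
  obtain ⟨O, h, hZO, k, t, -, ht⟩ := (rel_iff C).1 hr
  refine (rel_iff C).2 ⟨Opens.comap (s : C(Y, Y)) O, Opens.comap_mono _ h,
    fun z hz => hZO (hZ hz), ?_⟩
  have b1 : Bd univ (θ m O (rs le_top α - C.u m O ((C.A m).res h x))) := by
    rw [← ht, ← hθ.d]
    exact bd_univ _
  have b2 : Bd univ (θ m O (rs le_top α) - rs le_top α) := by
    obtain ⟨k', t', ht'⟩ := hθ.triv m α hα
    have b : Bd univ (θ m ⊤ α - rs le_top α) := by
      rw [ht']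
      exact bd_univ _
    have b' := b.res (Opens.comap_mono (s : C(Y, Y)) (le_top : O ≤ ⊤))
    rw [map_sub, hθ.res m ⊤ O le_top, rs_comp] at b'
    exact b'
  have b3 := dy5_bd C hI hsU hθ hσ (res_closed C hx h)
  have b := (b1.sub b2).add b3
  rw [hσ.res m W O h]
  have e : θ m O (rs le_top α - C.u m O ((C.A m).res h x)) - (θ m O (rs le_top α) - rs le_top α) +
      (θ m O (C.u m O ((C.A m).res h x)) - C.u m _ (σ m O ((C.A m).res h x))) =
      rs le_top α - C.u m _ (σ m O ((C.A m).res h x)) := by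
    rw [map_sub]
    abel
  rw [e] at b
  exact b

end Pool.Agent.PWD
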