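import Pool.Agent.P.MP_65ad7c_ag.DY1
import Pool.Agent.P.MP_65ad7c_ag.DY2
import Pool.Agent.P.MP_65ad7c_ag.DY5

/-! Block Y: `DR.y1`, ..., `DR.y5`. -/
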