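import Pool.Agent.P.MP_65ad7c_ag.DFg
import Pool.Agent.P.MP_65ad7c_ag.DYI

/-! Forms that represent intersection cohomology classes near the section. -/

open Set Filter Topology TopologicalSpace
open scoped ContDiff
open Pool.Agent.HT (Form Amb cj pull)

noncomputable section
namespace Pool.Agent.PWD.Data

section gen
variable {V : Type} [NormedAddCommGroup V] [NormedSpace ℝ V] {ι : Type} [LinearOrder ι]
  {C : Ctx V ι} {X : Set V} {T α β : Finset ι} {m : ℕ} {η ζ : Form V m} {i : ι}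

theorem kP_DFi (h0 : Sm (St X C.D T \ Off C.D α) η) (h4 : Sm (St X C.D ∅ \ Off C.D (α ∪ β)) ζ)
    (h1 : Sm (St X C.D T \ Off C.D (α ∪ β)) η) (h2 : Sm (St X C.D T \ Off C.D (α ∪ β)) ζ)
    (z0 : C.kf X T α β η h0 ∈ C.kZ X T α β m)
    (z4 : C.kf X ∅ (α ∪ β) ∅ ζ h4 ∈ C.kZ X ∅ (α ∪ β) ∅ m)
    (b3 : C.kf X T (α ∪ β) ∅ (η - ζ) (h1.sub h2) ∈ C.kB X T (α ∪ β) ∅ m) :
    C.kf X T α β η h0 ∈ C.kP X T α β m := by
  refine Ctx.mem_kP.2 ⟨z0, _, z4, ?_⟩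
  rwa [Ctx.kmap_kf _ _ _ h0 h1, Ctx.kmap_kf _ _ _ h4 h2, Ctx.kf_sub]

theorem kN_DFi (h0 : Sm (St X C.D T \ Off C.D α) η) (h1 : Sm (St X C.D T \ Off C.D α) ζ)
    (h3 : Sm (St X C.D T \ Off C.D (α ∪ β)) ζ)
    (z1 : C.kf X T α (insert i β) ζ h1 ∈ C.kZ X T α (insert i β) m)
    (b2 : C.kf X T (α ∪ β) {i} ζ h3 ∈ C.kB X T (α ∪ β) {i} m)
    (b0 : C.kf X T α β (η - ζ) (h0.sub h1) ∈ C.kB X T α β m) :
    C.kf X T α β η h0 ∈ C.kN X T α β i m := by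
  refine Ctx.mem_kN.2 ⟨_, z1, ?_, ?_⟩
  · rwa [Ctx.kmap_kf _ _ _ h1 h3]
  · rwa [Ctx.kmap_kf _ _ _ h1 h1, Ctx.kf_sub]

end gen

variable {R : Type} {Y : Set (R → ℂ)} {a d m n : ℕ} {Q : Data Y a} {I : Cx Y}

/-- `η` is closed near `Z`, zero near the exceptional divisor, and `u η` is cohomologous to `α` -/
def Rp (u : ∀ n W, Form (Amb Q.M) n →ₗ[ℂ] Sec I n W) (η : Form (Amb Q.M) n) (α : Sec I n ⊤) :
    Prop :=
  ∃ (O : Opens Y) (j : ℕ) (t : Sec I j O), Q.Z ⊆ O ∧ Q.Adm O η ∧ Van (Q.pre O) (extDeriv η) ∧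
    rs le_top α - u n O η = dd j n t

variable [CommRing R] [Algebra ℂ R] {S : (R → ℂ) → (R → ℂ) → Prop} {U : ℕ → Opens Y}
  {one : Sec I 0 (U 1)} {u : ∀ n W, Form (Amb Q.M) n →ₗ[ℂ] Sec I n W}
  {η η' : Form (Amb Q.M) n} {α α' : Sec I n ⊤}

namespace IsModel
variable (hQ : Q.IsModel S d m U) (hY : IsVar Y) (hu : Q.IsNat one u)
include hQ

theorem rp_sm (h : Rp u η α) : Sm (St Q.X Q.D Q.T \ Off Q.D Q.al) η :=
  let ⟨_, _, _, h1, h2, _⟩ := h; hQ.sm0 h1 h2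

theorem rp_iff : Rp u η α ↔ ∃ (O : Opens Y) (h : Q.Adm O η), Q.Z ⊆ O ∧
    ((hQ.dr hY hu).d n).app O (cl η h) = 0 ∧ (hQ.dr hY hu).Rel Q.Z (cl η h) α := by
  constructor
  · rintro ⟨O, j, t, h1, h2, h3, h4⟩
    exact ⟨O, h2, h1, (hQ.dr_d hY hu h2).2 h3, (hQ.dr_rel hY hu h2).2 ⟨O, le_rfl, j, t, h1, h4⟩⟩
  · rintro ⟨O, h, -, h3, h4⟩
    obtain ⟨O', hO, j, t, h5, h6⟩ := (hQ.dr_rel hY hu h).1 h4
    exact ⟨O', j, t, h5, h.anti hO, ((hQ.dr_d hY hu h).1 h3).anti (pre_mono hO), h6⟩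

include hY hu

omit hQ hY [CommRing R] [Algebra ℂ R] in
theorem rp_res_DFi {O O' : Opens Y} {j : ℕ} {t : Sec I j O} (hO : O' ≤ O) (h : Q.Adm O η)
    (e : rs le_top α - u n O η = dd j n t) : SY.Bd univ (rs le_top α - u n O' η) := by
  have h1 : SY.Bd univ (rs hO (rs le_top α - u n O η)) := by
    rw [e]; exact (SY.bd_univ t).res hO
  rwa [map_sub, SY.rs_comp, hu.res n O O' hO η h] at h1

theorem rp_sub (h : Rp u η α) (h' : Rp u η' α') : Rp u (η - η') (α - α') := by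
  have _ := hQ
  have _ := hY
  obtain ⟨O, j, t, h1, h2, h3, h4⟩ := h
  obtain ⟨O', j', t', k1, k2, k3, k4⟩ := h'
  have a1 : Q.Adm (O ⊓ O' : Opens Y) η := h2.anti inf_le_left
  have a2 : Q.Adm (O ⊓ O' : Opens Y) η' := k2.anti inf_le_right
  obtain ⟨i, r, -, e⟩ := (rp_res_DFi hu (inf_le_left : O ⊓ O' ≤ O) h2 h4).sub
    (rp_res_DFi hu (inf_le_right : O ⊓ O' ≤ O') k2 k4)
  refine ⟨O ⊓ O', i, r, subset_inter h1 k1, a1.sub a2, ?_, ?_⟩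
  · exact ((h3.anti (pre_mono inf_le_left)).sub (k3.anti (pre_mono inf_le_right))).congr
      fun x hx => extDeriv_sub' (a1.1.diff hx) (a2.1.diff hx)
  · rw [e, map_sub, map_sub]
    abel

theorem rp_cj (hI : IsIC U I one) {s : Y ≃ₜ Y} (hS : ∀ y y' : Y, S y.1 y'.1 → y' = s y) {θ}
    (hθ : IsTheta one (s : C(Y, Y)) θ) (hα : dd n (n + 1) α = 0) (h : Rp u η α) :
    Rp u (pull (cj Q.M) η) α := by
  obtain ⟨O, h1, h2, h3, h4⟩ := (hQ.rp_iff hY hu).1 h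
  have hS' : ∀ y y' : Y, S y.1 y'.1 → y' = (s : C(Y, Y)) y := hS
  have hσ := hQ.isSig hY hu hS'
  have h5 := DR.y5 (hQ.dr hY hu) hI (hQ.s_U hS) hθ hσ (hQ.s_Z hS) h3 hα h4
  refine (hQ.rp_iff hY hu).2 ⟨Opens.comap (s : C(Y, Y)) O, hQ.adm_cj hS' h1,
    fun y hy => h2 (hQ.s_Z hS hy), ?_, h5⟩
  exact (hσ.d n O (cl η h1)).trans ((congrArg _ h3).trans (map_zero _))

theorem p1 (hI : IsIC U I one) (hα : dd n (n + 1) α = 0) (h : Rp u η α)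
    (hs : Sm (St Q.X Q.D Q.T \ Off Q.D Q.al) η) :
    (Q.C d).kf Q.X Q.T Q.al Q.be η hs ∈ (Q.C d).kP Q.X Q.T Q.al Q.be n := by
  obtain ⟨O, h1, h2, h3, h4⟩ := (hQ.rp_iff hY hu).1 h
  obtain ⟨ψ, O', hO, h5, h6, h7⟩ := DR.y3 (hQ.dr hY hu) hY hQ.gen hI h3 hα h4
  obtain ⟨ζ, hζ, rfl⟩ := cl_surj (Q := Q) ψ
  have a1 : Q.Adm (O' ⊓ U 1 : Opens Y) η := h1.anti (inf_le_left.trans hO : O' ⊓ U 1 ≤ O)
  have a2 : Q.Adm (O' ⊓ U 1 : Opens Y) ζ := hζ.anti (inf_le_right : O' ⊓ U 1 ≤ U 1)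
  have s1 := hQ.sm3 h5 a1
  have s2 := hQ.sm3 h5 a2
  have s4 := hQ.sm4 hζ
  have z0 := hQ.z0 h2 h1 ((hQ.dr_d hY hu h1).1 h3) hs
  have z4 := hQ.z4 ((hQ.dr_d hY hu hζ).1 h6) s4
  have b3 := hQ.b3 hY hu h5 (a1.sub a2) h7 (s1.sub s2)
  exact kP_DFi (C := Q.C d) hs s4 s1 s2 z0 z4 b3

omit hQ hY hu [CommRing R] [Algebra ℂ R] in
theorem ex_closed_DFi (C : DR one) {W : Opens Y} {B : Set Y} {x : (C.A n).obj W} (h : C.Ex B x) :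
    (C.d n).app W x = 0 := by
  cases n with
  | zero => exact (congrArg _ h).trans (map_zero _)
  | succ n =>
    obtain ⟨z, -, rfl⟩ := h
    exact C.d_d n W z

theorem n1 (hU : IsStrat d U) (hI : IsIC U I one) {η : Form (Amb Q.M) m} (h : Rp u η 0)
    (hs : Sm (St Q.X Q.D Q.T \ Off Q.D Q.al) η) :
    (Q.C d).kf Q.X Q.T Q.al Q.be η hs ∈ (Q.C d).kN Q.X Q.T Q.al Q.be Q.h0 m := by
  obtain ⟨O, h1, -, h3, h4⟩ := (hQ.rp_iff hY hu).1 h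
  obtain ⟨O', hO, x, h5, h6, h7, h8⟩ := DR.y1 (hQ.dr hY hu) hY hQ.gen hU hI (H_alg hY Q) Q.H_Z
    hQ.dim h3 h4
  have h9 : ((hQ.dr hY hu).d m).app O' x = 0 := by
    have := ex_closed_DFi _ h6
    rwa [map_sub, SY.res_closed _ h3, zero_sub, neg_eq_zero] at this
  obtain ⟨ζ, hζ, rfl⟩ := cl_surj (Q := Q) x
  have a1 : Q.Adm O' η := h1.anti hO
  have a2 : Q.Adm (O' ⊓ U 1 : Opens Y) ζ := hζ.anti (inf_le_left : O' ⊓ U 1 ≤ O')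
  have s0 := hQ.sm0 h5 hζ
  have s3 := hQ.sm3 h5 a2
  have z1 := hQ.z1 hY hu h5 hζ ((hQ.dr_d hY hu hζ).1 h9) h7 s0
  have b2 := hQ.b2 hY hu h5 a2 h8 s3
  have b0 := hQ.b0 hY hu h5 (a1.sub hζ) h6 (hs.sub s0)
  exact kN_DFi (C := Q.C d) hs s0 s3 z1 b2 b0

end IsModel

end Pool.Agent.PWD.Data
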