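import Pool.Agent.P.MP_65ad7c_ag.DFb
import Pool.Agent.P.MP_65ad7c_ag.DFc
import Pool.Agent.P.MP_65ad7c_ag.DFe
import Pool.Agent.P.MP_65ad7c_ag.DFj
import Pool.Agent.P.MP_65ad7c_ag.DHI

/-! The odd weights vanish. -/

open Set Filter Topology TopologicalSpace
open scoped ContDiff
open Pool.Agent.HT (Form Amb cj pull IsSNC)

noncomputable section
namespace Pool.Agent.PWD

theorem amb_glob {M d : ℕ} {ι : Type} [LinearOrder ι] [Finite ι] {X : Set (Amb M)}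
    {D : ι → Set (Amb M)} (h : IsSNC d X D) : (Ctx.amb d X D).Glob X where
  cpt := h.compact
  cl := h.geo'.closed
  ok := amb_ok h
  lt _ _ hT _ hx := amb_lt h hT hx
  ht _ _ _ hT hT' _ hx := amb_ht h hT hT' hx
  hdg := amb_hdg h

variable {R : Type} [CommRing R] [Algebra ℂ R] {Y : Set (R → ℂ)} {a d m k : ℕ} {Q : Data Y a}
  {S : (R → ℂ) → (R → ℂ) → Prop} {U : ℕ → Opens Y} {I : Cx Y} {one : Sec I 0 (U 1)}
  {u : ∀ n W, Form (Amb Q.M) n →ₗ[ℂ] Sec I n W}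

theorem alg1_DFk {A : Type} [AddCommGroup A] {N B : Submodule ℤ A} (hB : B ≤ N) {σ : A →ₗ[ℤ] A}
    (hσ : ∀ a ∈ B, σ a ∈ B) {x y : A} (h1 : x - y ∈ B) (h2 : y - σ y ∈ N) : x - σ x ∈ N := by
  have h := add_mem h2 (hB (sub_mem h1 (hσ _ h1)))
  rwa [map_sub, show y - σ y + (x - y - (σ x - σ y)) = x - σ x by abel] at h

theorem alg2_DFk {A : Type} [AddCommGroup A] {N W B : Submodule ℤ A} (hB : B ≤ W) {x : A}
    (h : x ∈ N ⊔ W) : ∃ v ∈ N, ∀ y, v - y ∈ B → x - y ∈ W := by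
  obtain ⟨v, hv, w, hw, rfl⟩ := Submodule.mem_sup.1 h
  refine ⟨v, hv, fun y hy => ?_⟩
  rw [show v + w - y = w + (v - y) by abel]
  exact add_mem hw (hB hy)

theorem Data.IsModel.sigma (hQ : Q.IsModel S d m U) (hG : (Q.C d).Glob Q.X) (hY : IsVar Y)
    (hu : Q.IsNat one u) (hU : IsStrat d U) (hI : IsIC U I one) (ha : m + a ≤ d) {s : Y ≃ₜ Y}
    (hS : ∀ y y' : Y, S y.1 y'.1 → y' = s y) {θ} (hθ : IsTheta one (s : C(Y, Y)) θ) :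
    ∃ ρ, Ctx.Endo ρ ∧ ∀ x ∈ (Q.C d).kP Q.X Q.T Q.al Q.be m,
      x - ρ ((Q.C d).kκ Q.X Q.T Q.al Q.be x) ∈ (Q.C d).kN Q.X Q.T Q.al Q.be Q.h0 m := by
  obtain ⟨ρ, hρ, hρ'⟩ := exists_rho (m := m) ⟨hG, hQ.disjT', hQ.disjB⟩ hQ.cjX hQ.cjD
  refine ⟨ρ, hρ, fun x hx => ?_⟩
  obtain ⟨ξ, β, hξ, hβ, h1, h2⟩ := hQ.p2 hG hY hu hU hI ha hx
  obtain ⟨hξ', e⟩ := hρ' ξ hξ
  have h3 := hQ.rp_sub hY hu h1 (hQ.rp_cj hY hu hI hS hθ hβ h1)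
  rw [sub_self β] at h3
  have h4 := hQ.n1 hY hu hU hI h3 (hξ.sub hξ')
  refine alg1_DFk (σ := ρ.comp ((Q.C d).kκ Q.X Q.T Q.al Q.be)) Ctx.kB_kN
    (fun a ha => hρ.kB _ _ (Ctx.kκ_kB _ _ ha)) h2 ?_
  rw [LinearMap.comp_apply, e, Ctx.kf_sub (C := Q.C d) hξ hξ']
  exact h4

theorem Data.IsModel.drop (hQ : Q.IsModel S d m U) (hY : IsVar Y) (hu : Q.IsNat one u)
    (hU : IsStrat d U) (hI : IsIC U I one) (ha : m + a ≤ d) {s : Y ≃ₜ Y}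
    (hS : ∀ y y' : Y, S y.1 y'.1 → y' = s y) {θ} (hθ : IsTheta one (s : C(Y, Y)) θ)
    {η : Form (Amb Q.M) m} {α : Sec I m ⊤} (hα : dd m (m + 1) α = 0) (h : Data.Rp u η α)
    (hw : InW d Q.X Q.D Q.T Q.al Q.be (2 * k + 1) η) :
    ∃ η', Data.Rp u η' α ∧ InW d Q.X Q.D Q.T Q.al Q.be (2 * k) η' := by
  have hG : (Q.C d).Glob Q.X := amb_glob hQ.snc
  have h0 : (Q.C d).Tri Q.X Q.T Q.al Q.be := ⟨hG, hQ.disjT', hQ.disjB⟩
  obtain ⟨ρ, hρ, hσ⟩ := hQ.sigma hG hY hu hU hI ha hS hθ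
  have hs := hQ.rp_sm h
  have hP := hQ.p1 hY hu hI hα h hs
  have hW := InW.kWc h0 hs (Ctx.mem_kP.1 hP).1 hw
  have e1 : ((2 * k + 1 : ℕ) : ℤ) = 2 * k + 1 := by omega
  have e2 : ((2 * k : ℕ) : ℤ) = 2 * k := by omega
  rw [e1] at hW
  have key := hG.odd hQ.disjT hQ.disjB hQ.h0_not hρ m hσ k (Submodule.mem_inf.2 ⟨hP, hW⟩)
  obtain ⟨v, hv, h4⟩ := alg2_DFk (B := (Q.C d).kB Q.X Q.T Q.al Q.be m) le_sup_right key
  obtain ⟨ν, hν, h1, h2⟩ := hQ.n2 hG hY hu hU hI ha hv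
  have h3 := hQ.rp_sub hY hu h h1
  rw [sub_zero α] at h3
  refine ⟨η - ν, h3, InW.of_kWc h0 (hs.sub hν) ?_⟩
  rw [e2, ← Ctx.kf_sub (C := Q.C d) hs hν]
  exact h4 _ h2

theorem wt_odd (hY : IsVar Y) (hU : IsStrat d U) (hI : IsIC U I one)
    (Φ Φ' : C(Y × unitInterval, Y)) (h0 : ∀ y, Φ (y, 0) = y) (h1 : ∀ y t, Φ' (Φ (y, t), t) = y)
    (h2 : ∀ y t, Φ (Φ' (y, t), t) = y) (hS : ∀ y y' : Y, S y.1 y'.1 → y' = Φ (y, 1)) (m k : ℕ) :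
    Wt S d one m (2 * k + 1) = Wt S d one m (2 * k) := by
  refine Subset.antisymm ?_ ?_
  · rintro α ⟨hα, Q, u, O, η, j, t, hQ, hu, h3, h4, h5, h6, h7⟩
    rcases le_or_gt m d with hm | hm
    · let s : Y ≃ₜ Y :=
        { toFun := fun y => Φ (y, 1)
          invFun := fun y => Φ' (y, 1)
          left_inv := fun y => h1 y 1
          right_inv := fun y => h2 y 1
          continuous_toFun := by fun_prop
          continuous_invFun := by fun_prop }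
      obtain ⟨θ, hθ⟩ := exists_theta hY hQ.gen hU hI Φ Φ' h0 h1 h2 (s : C(Y, Y)) (fun _ => rfl)
        (hQ.s_U (s := s) hS)
      obtain ⟨η', ⟨O', j', t', g1, g2, g3, g4⟩, g5⟩ := hQ.drop hY hu hU hI (by omega) (s := s) hS hθ
        hα ⟨O, j, t, h3, h4, h5, h6⟩ h7
      exact ⟨hα, Q, u, O', η', j', t', hQ, hu, g1, g2, g3, g4, g5⟩
    · obtain ⟨j', t', e⟩ := av3 hY hQ.gen hU hI hm hα
      refine ⟨hα, Q, u, ⊤, 0, j', t', hQ, hu, fun _ _ => trivial, Data.Adm.zero, ?_, ?_, InW.zero⟩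
      · rw [extDeriv_zeroDL1a]; exact Van.zero
      · rw [map_zero, sub_zero, e]; exact vf_rs_self α
  · rintro α ⟨hα, Q, u, O, η, j, t, hQ, hu, h3, h4, h5, h6, h7⟩
    exact ⟨hα, Q, u, O, η, j, t, hQ, hu, h3, h4, h5, h6, h7.succ⟩

end Pool.Agent.PWD
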