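import Pool.Agent.P.MP_65ad7c_ag.DS0

/-! Block G + MHC: definitions. Germ systems inside one module of global sections, the simplicial
Godement complex, and the algebraic data of a mixed Hodge complex. -/

open Set Filter Topology

noncomputable section
namespace Pool.Agent.PWD.G

/-- graded submodules -/
abbrev Gr (k A : Type) [Ring k] [AddCommGroup A] [Module k A] := ℤ → Submodule k A

/-- graded germ systems: `S n x` are the elements of degree `n` whose germ at `x` is in `S` -/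
abbrev Sys (k V A : Type) [Ring k] [AddCommGroup A] [Module k A] := ℤ → V → Submodule k A

variable {k V A A' : Type} [Ring k] [AddCommGroup A] [Module k A] [AddCommGroup A'] [Module k A']

/-- subcomplexes -/
def Cx (d : A →ₗ[k] A) (X : Gr k A) : Prop := ∀ m, ∀ a ∈ X m, d a ∈ X (m + 1)

/-- relative cocycles -/
def Zc (d : A →ₗ[k] A) (X Y : Gr k A) (m : ℤ) : Submodule k A := X m ⊓ (Y (m + 1)).comap d

/-- relative coboundaries -/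
def Bd (d : A →ₗ[k] A) (X Y : Gr k A) (m : ℤ) : Submodule k A := (X (m - 1)).map d ⊔ Y m

/-- `X' / X` is acyclic -/
def AC (d : A →ₗ[k] A) (X X' : Gr k A) : Prop :=
  ∀ m, ∀ a ∈ X' m, d a ∈ X (m + 1) → ∃ b ∈ X' (m - 1), a - d b ∈ X m

/-- `C` is the graph of an involution of `Z / B` -/
structure Inv (Z B : Submodule k A) (C : Submodule k (A × A)) : Prop where
  le : ∀ a b, (a, b) ∈ C → a ∈ Z
  symm : ∀ a b, (a, b) ∈ C → (b, a) ∈ C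
  total : ∀ a ∈ Z, ∃ b, (a, b) ∈ C
  func : ∀ a b, (a, b) ∈ C → a ∈ B → b ∈ B
  bb : ∀ b ∈ B, (0, b) ∈ C

/-- the image of `X` under the relation `C` -/
def cjg (C : Submodule k (A × A)) (X : Submodule k A) : Submodule k A :=
  (C ⊓ X.comap (LinearMap.fst k A A)).map (LinearMap.snd k A A)

/-- weight filtration on `H^m (L q)` -/
def hW (D : A →ₗ[k] A) (L : ℤ → Gr k A) (q m j : ℤ) : Submodule k A :=
  Zc D (L (min q (j - m))) ⊥ m ⊔ Bd D (L q) ⊥ m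

/-- Hodge filtration on `H^m (L q)` -/
def hF (D : A →ₗ[k] A) (L F : ℤ → Gr k A) (q m p : ℤ) : Submodule k A :=
  Zc D (F p ⊓ L q) ⊥ m ⊔ Bd D (L q) ⊥ m

/-- a bifiltered complex with conjugations `H q m` on `H^m (L q)` and `G q m` on
`H^m (L q / L (q - 1))`, the latter being pure of weight `m + q` -/
structure Alg (D : A →ₗ[k] A) (L F : ℤ → Gr k A) (H G : ℤ → ℤ → Submodule k (A × A)) : Prop where
  dd : ∀ a, D (D a) = 0
  L_cx : ∀ q, Cx D (L q)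
  L_mono : Monotone L
  L_bot : ∃ q₀, ∀ n, L q₀ n ≤ ⊥
  FL_cx : ∀ p q, Cx D (F p ⊓ L q)
  F_anti : Antitone F
  F_top : ∀ q n, L q n ≤ F 0 n
  F_bot : ∀ q n, F (n + 1) n ⊓ L q n ≤ ⊥
  H_inv : ∀ q m, Inv (Zc D (L q) ⊥ m) (Bd D (L q) ⊥ m) (H q m)
  G_inv : ∀ q m, Inv (Zc D (L q) (L (q - 1)) m) (Bd D (L q) (L (q - 1)) m) (G q m)
  HH : ∀ q q' m, q ≤ q' → H q m ≤ H q' m
  HG : ∀ q m, H q m ≤ G q m
  GH : ∀ q m a b, (a, b) ∈ G q m → (D a, D b) ∈ H (q - 1) (m + 1)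
  GI : ∀ p q m, ∀ x ∈ F p m ⊓ L q m, x ∈ Bd D (L q) (L (q - 1)) m →
    x ∈ Bd D (F p ⊓ L q) (F p ⊓ L (q - 1)) m
  GA : ∀ p q m, ∀ x ∈ Zc D (L q) (L (q - 1)) m, ∃ f ∈ Zc D (F p ⊓ L q) (L (q - 1)) m,
    ∃ g ∈ Zc D (F (m + q - p + 1) ⊓ L q) (L (q - 1)) m, ∃ h, (g, h) ∈ G q m ∧
      x - f - h ∈ Bd D (L q) (L (q - 1)) m
  GB : ∀ p q m, ∀ f ∈ Zc D (F p ⊓ L q) (L (q - 1)) m,
    ∀ g ∈ Zc D (F (m + q - p + 1) ⊓ L q) (L (q - 1)) m, ∀ h, (g, h) ∈ G q m →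
      f - h ∈ Bd D (L q) (L (q - 1)) m → f ∈ Bd D (L q) (L (q - 1)) m

/-- the complex `Dg` with conjugation `κ` is computed by the `L q` -/
structure Top (D κ : A →ₗ[k] A) (Dg : Gr k A) (L : ℤ → Gr k A)
    (H : ℤ → ℤ → Submodule k (A × A)) : Prop where
  κκ : ∀ a, κ (κ a) = a
  κD : ∀ a, κ (D a) = D (κ a)
  κ_Dg : ∀ n, ∀ a ∈ Dg n, κ a ∈ Dg n
  Dg_cx : Cx D Dg
  L_le : ∀ q n, L q n ≤ Dg n
  L_top : ∀ q n, n ≤ q → L q n ≤ L n n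
  surj : ∀ m, ∀ a ∈ Dg m, D a = 0 → ∃ b ∈ L (m + 1) m, a - b ∈ (Dg (m - 1)).map D
  inj : ∀ m, ∀ a ∈ L (m + 1) m, a ∈ (Dg (m - 1)).map D → a ∈ (L (m + 1) (m - 1)).map D
  conj : ∀ q m a b, (a, b) ∈ H q m → b - κ a ∈ (Dg (m - 1)).map D

section sys
variable [TopologicalSpace V]

/-- global sections -/
def Gam (S : Sys k V A) : Gr k A := fun n => ⨅ x, S n x

/-- membership is an open condition -/
def Opn (S : Sys k V A) : Prop := ∀ n x, ∀ a ∈ S n x, ∀ᶠ y in 𝓝 x, a ∈ S n y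

/-- `S' / S` is locally acyclic -/
def LA (d : A →ₗ[k] A) (S S' : Sys k V A) : Prop := ∀ x, AC d (fun n => S n x) fun n => S' n x

/-- a subcomplex of germs inside the degrees `Dg` -/
structure SubS (d : A →ₗ[k] A) (Dg : Gr k A) (S : Sys k V A) : Prop where
  le : ∀ n x, S n x ≤ Dg n
  opn : Opn S
  cx : ∀ n x, ∀ a ∈ S n x, d a ∈ S (n + 1) x

/-- `σ s = ∑ χ_i s_i` with `supp χ_i ⊆ F i` keeps `S` -/
def Glue (Dg : Gr k A) {ι : Type} (F : ι → Set V) (σ : (ι → A) →ₗ[k] A) (S : Sys k V A) : Prop :=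
  ∀ n z (s : ι → A), (∀ i, s i ∈ Dg n) → (∀ i, z ∈ F i → s i ∈ S n z) → σ s ∈ S n z

/-- there are arbitrarily fine partitions of unity that keep `S` and `S'` -/
def FineS (Dg : Gr k A) (S S' : Sys k V A) : Prop :=
  ∀ U : V → Set V, (∀ x, U x ∈ 𝓝 x) →
    ∃ (ι : Type) (pt : ι → V) (F : ι → Set V) (σ : (ι → A) →ₗ[k] A),
      (∀ z, {i | z ∈ F i}.Finite) ∧ (∀ z, ∀ᶠ w in 𝓝 z, ∀ i, w ∈ F i → z ∈ F i) ∧
      (∀ i, F i ⊆ U (pt i)) ∧ (∀ a, σ (fun _ => a) = a) ∧ Glue Dg F σ S ∧ Glue Dg F σ S'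

/-- a mixed Hodge complex of germ systems -/
structure GH (k V A : Type) [Ring k] [TopologicalSpace V] [AddCommGroup A] [Module k A] where
  d : A →ₗ[k] A
  κ : A →ₗ[k] A
  Dg : Gr k A
  Nul : Sys k V A
  W : ℤ → Sys k V A
  Wt : ℤ → Sys k V A
  Y : ℤ → Sys k V A
  τ : ℤ → Sys k V A
  Z : ℤ → Sys k V A
  Cj : ℤ → Sys k V (A × A)
  L : ℤ → Gr k A
  Lt : ℤ → Gr k A
  F : ℤ → Gr k A
  CjG : ℤ → ℤ → Submodule k (A × A)
  dd : ∀ a, d (d a) = 0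
  κκ : ∀ a, κ (κ a) = a
  κd : ∀ a, κ (d a) = d (κ a)
  Dg_cx : Cx d Dg
  Dg_neg : ∀ n < 0, Dg n ≤ ⊥
  κ_Dg : ∀ n, ∀ a ∈ Dg n, κ a ∈ Dg n
  Nul_sub : SubS d Dg Nul
  W_sub : ∀ q, SubS d Dg (W q)
  Wt_sub : ∀ q, SubS d Dg (Wt q)
  Y_sub : ∀ q, SubS d Dg (Y q)
  τ_sub : ∀ q, SubS d Dg (τ q)
  Z_sub : ∀ q, SubS d Dg (Z q)
  Nul_sep : ∀ n, Gam Nul n ≤ ⊥
  κ_Nul : ∀ n x, ∀ a ∈ Nul n x, κ a ∈ Nul n x
  κ_τ : ∀ q n x, ∀ a ∈ τ q n x, κ a ∈ τ q n x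
  Nul_W : ∀ q, Nul ≤ W q
  Nul_τ : ∀ q, Nul ≤ τ q
  W_mono : Monotone W
  τ_mono : Monotone τ
  bot : ∃ q₀, W q₀ ≤ Nul ∧ τ q₀ ≤ Nul
  τ_top : ∀ q n x, n < q → Dg n ≤ τ q n x
  τ_Wt : ∀ q, τ q ⊓ W q ≤ Wt q
  Wt_W : ∀ q, Wt q ≤ W q
  W_Y : ∀ q, W (q - 1) ≤ Y q
  Y_W : ∀ q, Y q ≤ W q
  fine_Dg : FineS Dg Nul fun n _ => Dg n
  fine_W : ∀ q, FineS Dg Nul (W q)
  fine_Wt : ∀ q, FineS Dg Nul (Wt q)
  la_τ : ∀ q, LA d (τ q) (W q ⊔ τ q)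
  la_W : ∀ q, LA d (W q) (W q ⊔ τ q)
  la_Y : ∀ q, LA d (Y q) (W q)
  la_Z : ∀ q, LA d (W (q - 1) ⊔ τ (q - 1)) (Z q)
  le_Z : ∀ q, W (q - 1) ⊔ τ (q - 1) ≤ Z q
  Z_le : ∀ q, Z q ≤ W q ⊔ τ q
  Z_W : ∀ q, Z q ⊓ W q ≤ W (q - 1)
  Cj_opn : ∀ q, Opn (Cj q)
  Cj_Y : ∀ q n x a b, (a, b) ∈ Cj q n x → a ∈ Y q n x ∧ b ∈ Y q n x
  Cj_d : ∀ q n x a b, (a, b) ∈ Cj q n x → (d a, d b) ∈ Cj q (n + 1) x
  Cj_W : ∀ q n x a b, (a, b) ∈ Cj q n x → a ∈ W (q - 1) n x → b ∈ W (q - 1) n x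
  Cj_ex : ∀ q n x, ∀ a ∈ Y q n x, ∃ b, (a, b) ∈ Cj q n x
  Cj_τ : ∀ q n x, ∀ t ∈ τ q n x, ∃ a b, (a, b) ∈ Cj q n x ∧ t - a ∈ Z q n x ∧ κ t - b ∈ Z q n x
  L_eq : ∀ q, L q = Gam (W q)
  Lt_eq : ∀ q, Lt q = Gam (Wt q)
  CjG_le : ∀ q n, CjG q n ≤ Gam (Cj q) n
  L_top : ∀ q n, n ≤ q → L q n ≤ L n n
  FL_cx : ∀ p q, Cx d (F p ⊓ L q)
  F_anti : Antitone F
  F_top : ∀ n, Dg n ≤ F 0 n
  F_bot : ∀ n, F (n + 1) n ⊓ Dg n ≤ ⊥
  strict : ∀ p q b, ∀ x ∈ F p b ⊓ L q b, ∀ z ∈ L q (b - 1), x - d z ∈ L (q - 1) b →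
    ∃ z' ∈ F p (b - 1) ⊓ L q (b - 1), x - d z' ∈ L (q - 1) b
  span : ∀ p q b, ∀ x ∈ L q b, d x ∈ L (q - 1) (b + 1) →
    ∃ f ∈ F p b ⊓ L q b, ∃ g ∈ CjG q b, ∃ z ∈ L q (b - 1),
      g.1 ∈ F (b + q - p + 1) b ∧ d f ∈ L (q - 1) (b + 1) ∧
      d g.1 ∈ L (q - 1) (b + 1) ∧ x - f - g.2 - d z ∈ L (q - 1) b
  conj : ∀ p q b, ∀ x ∈ F p b ⊓ L q b, d x ∈ L (q - 1) (b + 1) →
    ∃ g ∈ CjG q b, ∃ z ∈ L q (b - 1), g.1 ∈ F p b ∧ x - g.1 - d z ∈ L (q - 1) b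
  disj : ∀ p q b, ∀ f ∈ F p b ⊓ L q b, ∀ g ∈ CjG q b, ∀ z ∈ L q (b - 1),
    g.1 ∈ F (b + q - p + 1) b → d f ∈ L (q - 1) (b + 1) →
    d g.1 ∈ L (q - 1) (b + 1) → f - g.2 - d z ∈ L (q - 1) b →
    ∃ z' ∈ L q (b - 1), f - d z' ∈ L (q - 1) b

end sys

/-! ### the simplicial Godement complex -/

variable (k) in
/-- insert `x` as first point -/
def tl (x : V) : (List V → A) →ₗ[k] (List V → A) := LinearMap.funLeft k A (x :: ·)

variable (k) in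
/-- the alternating sum of the faces, evaluated at a list -/
def dl : List V → (List V → A) →ₗ[k] A
  | [] => 0
  | x :: l => LinearMap.proj l - (dl l).comp (tl k x)

theorem dl_realize : True := by have := @dl.eq_def; trivial

variable (k) in
/-- the simplicial differential -/
def dG : (List V → A) →ₗ[k] (List V → A) := LinearMap.pi (dl k)

/-- the total differential -/
def DD (d : A →ₗ[k] A) : (List V → A) →ₗ[k] (List V → A) :=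
  dG k - LinearMap.pi fun l => ((-1 : ℤ) ^ l.length) • d.comp (LinearMap.proj l)

variable (k) in
/-- the augmentation -/
def eps : A →ₗ[k] (List V → A) := LinearMap.pi fun l => if l.length = 1 then LinearMap.id else 0

/-- pointwise action -/
def pw (f : A →ₗ[k] A') : (List V → A) →ₗ[k] (List V → A') := f.compLeft (List V)

variable [TopologicalSpace V]

/-- lists of `a` points, each close to the previous one -/
def ev : ℕ → V → Filter (List V)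
  | 0, _ => pure []
  | a + 1, x => (𝓝 x).bind fun y => (ev a y).map (y :: ·)

theorem ev_realize : True := by have := @ev.eq_def; trivial

/-- `P (degree) (last point) (list)` holds for the lists of close points -/
def Ev (m : ℤ) (P : ℤ → V → List V → Prop) : Prop :=
  ∀ (a : ℕ) (y : V), ∀ᶠ l in ev a y, P (m - a) (l.getLastD y) (y :: l)

/-- the Godement complex of a germ system -/
def R (S : Sys k V A) : Gr k (List V → A) := fun m =>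
  { carrier := {r | r [] = 0 ∧ Ev m fun n z l => r l ∈ S n z}
    add_mem' := fun {r s} hr hs => ⟨by simp [hr.1, hs.1], fun a y =>
      ((hr.2 a y).and (hs.2 a y)).mono fun _ h => add_mem h.1 h.2⟩
    zero_mem' := ⟨rfl, fun _ _ => Eventually.of_forall fun _ => zero_mem _⟩
    smul_mem' := fun c r hr => ⟨by simp [hr.1], fun a y =>
      (hr.2 a y).mono fun _ h => Submodule.smul_mem _ c h⟩ }

/-- global sections of `S`, up to `N` -/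
def ME (N S : Sys k V A) : Gr k (List V → A) := fun m => (Gam S m).map (eps k) ⊔ R N m

/-- `b` is conjugate to `a` in `H^m (L q / L q')` -/
def GH.Rel (K : GH k V A) (q q' m : ℤ) : Submodule k (A × A) where
  carrier := {x | x.1 ∈ Zc K.d (K.L q) (K.L q') m ∧ x.2 ∈ Zc K.d (K.L q) (K.L q') m ∧
    ∃ t ∈ Zc (DD K.d) (R (K.τ q)) (R (K.τ q')) m,
      eps k x.1 - t ∈ Bd (DD K.d) (R (K.W q ⊔ K.τ q)) (R (K.W q' ⊔ K.τ q')) m ∧
      eps k x.2 - pw K.κ t ∈ Bd (DD K.d) (R (K.W q ⊔ K.τ q)) (R (K.W q' ⊔ K.τ q')) m}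
  add_mem' := by
    rintro x y ⟨h1, h2, t, ht, h3, h4⟩ ⟨g1, g2, s, hs, g3, g4⟩
    refine ⟨add_mem h1 g1, add_mem h2 g2, t + s, add_mem ht hs, ?_, ?_⟩
    · rw [Prod.fst_add, map_add, add_sub_add_comm]; exact add_mem h3 g3
    · rw [Prod.snd_add, map_add, map_add, add_sub_add_comm]; exact add_mem h4 g4
  zero_mem' := ⟨zero_mem _, zero_mem _, 0, zero_mem _, by simp, by simp⟩
  smul_mem' := by
    rintro c x ⟨h1, h2, t, ht, h3, h4⟩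
    refine ⟨Submodule.smul_mem _ c h1, Submodule.smul_mem _ c h2, c • t,
      Submodule.smul_mem _ c ht, ?_, ?_⟩
    · rw [Prod.smul_fst, map_smul, ← smul_sub]; exact Submodule.smul_mem _ c h3
    · rw [Prod.smul_snd, map_smul, map_smul, ← smul_sub]; exact Submodule.smul_mem _ c h4

end Pool.Agent.PWD.G
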