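import Pool.Agent.P.MP_65ad7c_ag.DS0

/-! Mixed Hodge structures on a subquotient. -/

open Set TopologicalSpace

noncomputable section
namespace Pool.Agent.PWD

section alg
variable {k : Type} [Ring k] {V V' : Type} [AddCommGroup V] [Module k V] [AddCommGroup V']
  [Module k V'] {Z B : Submodule k V} {W F Fb : ℤ → Submodule k V} {Z' B' : Submodule k V'}
  {W' F' Fb' : ℤ → Submodule k V'}

theorem dga_le_Spl (W Fb : ℤ → Submodule k V) (j p : ℤ) : Fb (j - p + 1) ⊓ W j ≤ Spl W Fb p :=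
  le_iSup (fun j => Fb (j - p + 1) ⊓ W j) j

theorem dga_B_Spl (h : MHS Z B W F Fb) (p : ℤ) : B ≤ Spl W Fb p :=
  (le_inf (h.B_Fb _) (h.B_W 0)).trans (dga_le_Spl W Fb 0 p)

theorem MHS.W_le (h : MHS Z B W F Fb) (j p : ℤ) : W j ≤ F p ⊓ W j ⊔ Spl W Fb p ⊓ W j := by
  obtain ⟨j0, hj0⟩ := h.W_bot
  have low : ∀ j ≤ j0, W j ≤ F p ⊓ W j ⊔ Spl W Fb p ⊓ W j := fun j hj =>
    le_sup_of_le_left (le_inf (((h.W_mono hj).trans hj0).trans (h.B_F p)) le_rfl)
  rcases le_total j j0 with hj | hj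
  · exact low j hj
  · induction j, hj using Int.leInduction with
    | base => exact low _ le_rfl
    | succ n _ ih =>
      have hm : W n ≤ W (n + 1) := h.W_mono (by omega)
      refine (h.span (n + 1) p).trans (sup_le (sup_le le_sup_left ?_) ?_)
      · exact le_sup_of_le_right (le_inf (dga_le_Spl W Fb _ p) inf_le_right)
      · rw [add_sub_cancel_right]
        exact ih.trans (sup_le_sup (inf_le_inf_left _ hm) (inf_le_inf_left _ hm))

/-- the part of the complement in weights at most `n` -/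
def dgaT (W Fb : ℤ → Submodule k V) (p n : ℤ) : Submodule k V :=
  ⨆ j, ⨆ _ : j ≤ n, Fb (j - p + 1) ⊓ W j

theorem dga_T_W (h : MHS Z B W F Fb) (p n : ℤ) : dgaT W Fb p n ≤ W n :=
  iSup₂_le fun _ hj => inf_le_right.trans (h.W_mono hj)

theorem dga_le_T (W Fb : ℤ → Submodule k V) (p : ℤ) {j n : ℤ} (hj : j ≤ n) :
    Fb (j - p + 1) ⊓ W j ≤ dgaT W Fb p n :=
  le_iSup₂ (f := fun j (_ : j ≤ n) => Fb (j - p + 1) ⊓ W j) j hj

theorem dga_T_succ (W Fb : ℤ → Submodule k V) (p n : ℤ) :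
    dgaT W Fb p (n + 1) ≤ Fb (n + 1 - p + 1) ⊓ W (n + 1) ⊔ dgaT W Fb p n := by
  refine iSup₂_le fun j hj => ?_
  rcases hj.eq_or_lt with rfl | hj
  · exact le_sup_left
  · exact le_sup_of_le_right (dga_le_T W Fb p (by omega))

theorem dga_inf_T (h : MHS Z B W F Fb) (p n : ℤ) : F p ⊓ dgaT W Fb p n ≤ B := by
  obtain ⟨j0, hj0⟩ := h.W_bot
  have low : ∀ j ≤ j0, F p ⊓ dgaT W Fb p j ≤ B := fun j hj =>
    inf_le_right.trans ((dga_T_W h p j).trans ((h.W_mono hj).trans hj0))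
  rcases le_total n j0 with hj | hj
  · exact low n hj
  · induction n, hj using Int.leInduction with
    | base => exact low _ le_rfl
    | succ n _ ih =>
      rintro x ⟨hxF, hxT⟩
      have hxW : x ∈ W (n + 1) := dga_T_W h p _ hxT
      obtain ⟨y, hy, t, ht, e⟩ := Submodule.mem_sup.1 (dga_T_succ W Fb p n hxT)
      have htW : t ∈ W n := dga_T_W h p _ ht
      have hx1 : x ∈ W (n + 1 - 1) := h.disj (n + 1) p x ⟨hxF, hxW⟩ y hy (by
        rw [add_sub_cancel_right, ← e, add_sub_cancel_left]; exact htW)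
      rw [add_sub_cancel_right] at hx1
      have hyW : y ∈ W n := by
        have : y = x - t := by rw [← e, add_sub_cancel_right]
        rw [this]; exact sub_mem hx1 htW
      have hyT : y ∈ dgaT W Fb p n :=
        dga_le_T W Fb p le_rfl ⟨h.Fb_anti (by omega) hy.1, hyW⟩
      exact ih ⟨hxF, e ▸ add_mem hyT ht⟩

theorem MHS.inf_le (h : MHS Z B W F Fb) (p : ℤ) : F p ⊓ Spl W Fb p ≤ B := by
  obtain ⟨j1, hj1⟩ := h.W_top
  refine le_trans (inf_le_inf_left _ ?_) (dga_inf_T h p j1)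
  refine iSup_le fun j => ?_
  rcases le_total j j1 with hj | hj
  · exact dga_le_T W Fb p hj
  · exact le_trans (inf_le_inf (h.Fb_anti (by omega)) ((h.W_Z j).trans hj1))
      (dga_le_T W Fb p (le_refl j1))

theorem MHS.good_B (h : MHS Z B W F Fb) : Good W F Fb B := by
  intro p a ha s hs hb
  refine h.inf_le p ⟨ha, ?_⟩
  have : a = a + s - s := (add_sub_cancel_right a s).symm
  rw [this]
  exact sub_mem (dga_B_Spl h p hb) hs

theorem MHS.good_Z (h : MHS Z B W F Fb) : Good W F Fb Z := fun p _ ha _ _ _ => h.F_Z p ha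

theorem dga_map_Spl (f : V →ₗ[k] V') (hW : ∀ j, (W j).map f ≤ W' j)
    (hFb : ∀ p, (Fb p).map f ≤ Fb' p) (p : ℤ) {s : V} (hs : s ∈ Spl W Fb p) :
    f s ∈ Spl W' Fb' p := by
  have : Spl W Fb p ≤ (Spl W' Fb' p).comap f := iSup_le fun j x hx =>
    dga_le_Spl W' Fb' j p ⟨hFb _ ⟨x, hx.1, rfl⟩, hW _ ⟨x, hx.2, rfl⟩⟩
  exact this hs

/-- preimage of a good subspace under a morphism -/
theorem Good.comap {N' : Submodule k V'} (hN : Good W' F' Fb' N') (h : MHS Z B W F Fb)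
    (f : V →ₗ[k] V') (hW : ∀ j, (W j).map f ≤ W' j) (hF : ∀ p, (F p).map f ≤ F' p)
    (hFb : ∀ p, (Fb p).map f ≤ Fb' p) : Good W F Fb (N'.comap f ⊓ Z) := by
  intro p a ha s hs hb
  refine ⟨hN p (f a) (hF p ⟨a, ha, rfl⟩) (f s) (dga_map_Spl f hW hFb p hs) ?_, h.F_Z p ha⟩
  rw [← map_add]
  exact hb.1

theorem dga_split (h : MHS Z B W F Fb) {j : ℤ} (p : ℤ) {x : V} (hx : x ∈ W j) :
    ∃ a s, a ∈ F p ∧ a ∈ W j ∧ s ∈ Spl W Fb p ∧ s ∈ W j ∧ a + s = x := by
  obtain ⟨a, ha, s, hs, e⟩ := Submodule.mem_sup.1 (h.W_le j p hx)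
  exact ⟨a, s, ha.1, ha.2, hs.1, hs.2, e⟩

/-- image of a good subspace under a morphism -/
theorem Good.map {N : Submodule k V} (hN : Good W F Fb N) (hZ : N ≤ Z) (h : MHS Z B W F Fb)
    (h' : MHS Z' B' W' F' Fb') (f : V →ₗ[k] V') (hW : ∀ j, (W j).map f ≤ W' j)
    (hF : ∀ p, (F p).map f ≤ F' p) (hFb : ∀ p, (Fb p).map f ≤ Fb' p) :
    Good W' F' Fb' (N.map f ⊔ B') := by
  intro p a' ha' s' hs' hb
  obtain ⟨_, ⟨x, hx, rfl⟩, b, hbB, e⟩ := Submodule.mem_sup.1 hb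
  obtain ⟨j1, hj1⟩ := h.W_top
  obtain ⟨a, s, ha, -, hs, -, rfl⟩ := dga_split h p (hj1 (hZ hx))
  have haN : a ∈ N := hN p a ha s hs hx
  have h1 : a' - f a ∈ B' := by
    refine h'.inf_le p ⟨sub_mem ha' (hF p ⟨a, ha, rfl⟩), ?_⟩
    have : a' - f a = f s + b - s' := by
      rw [map_add] at e
      rw [(eq_sub_of_add_eq e.symm : a' = _)]
      abel
    rw [this]
    exact sub_mem (add_mem (dga_map_Spl f hW hFb p hs) (dga_B_Spl h' p hbB)) hs'
  have : a' = f a + (a' - f a) := by abel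
  rw [this]
  exact Submodule.add_mem_sup ⟨a, haN, rfl⟩ h1

theorem dga_Spl_W (h : MHS Z B W F Fb) {n p : ℤ} {s : V} (hs : s ∈ Spl W Fb p) (hW : s ∈ W n) :
    ∃ b w, b ∈ Fb (n - p + 1) ∧ w ∈ W (n - 1) ∧ b + w = s := by
  obtain ⟨_, h1, w, hw, e⟩ := Submodule.mem_sup.1 (h.span n p hW)
  obtain ⟨a, ha, b, hb, rfl⟩ := Submodule.mem_sup.1 h1
  obtain ⟨a2, s2, ha2, ha2W, hs2, -, rfl⟩ := dga_split h p hw
  have h2 : a + a2 ∈ B := by
    refine h.inf_le p ⟨add_mem ha.1 ha2, ?_⟩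
    have : a + a2 = s - b - s2 := by rw [← e]; abel
    rw [this]
    exact sub_mem (sub_mem hs (dga_le_Spl W Fb n p hb)) hs2
  have h3 : a ∈ W (n - 1) := by
    have : a = a + a2 - a2 := (add_sub_cancel_right a a2).symm
    rw [this]
    exact sub_mem (h.B_W _ h2) ha2W
  exact ⟨b, a + (a2 + s2), hb.1, add_mem h3 hw, by rw [← e]; abel⟩

/-- the final argument -/
theorem MHS.odd (h : MHS Z B W F Fb) {N P : Submodule k V} (hN : Good W F Fb N)
    (hP : Good W F Fb P) (hB : B ≤ N) (σ : V →ₗ[k] V) (hW : ∀ j, (W j).map σ ≤ W j)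
    (hF : ∀ p, (F p).map σ ≤ Fb p) (hFb : ∀ p, (Fb p).map σ ≤ F p)
    (hσ : ∀ x ∈ P, x - σ x ∈ N) (j : ℤ) : P ⊓ W (2 * j + 1) ≤ N ⊔ W (2 * j) := by
  obtain ⟨p1, hp1⟩ := h.F_bot
  obtain ⟨p0, hp0⟩ := h.F_top
  have high : ∀ p, p1 ≤ p → P ⊓ W (2 * j + 1) ⊓ F p ≤ N ⊔ W (2 * j) := fun p hp =>
    le_sup_of_le_left (inf_le_right.trans (((h.F_anti hp).trans hp1).trans hB))
  have key : ∀ p, P ⊓ W (2 * j + 1) ⊓ F p ≤ N ⊔ W (2 * j) := by
    intro p
    rcases le_total p1 p with hp | hp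
    · exact high p hp
    induction p, hp using Int.leInductionDown with
    | base => exact high _ le_rfl
    | pred q _ ih =>
      obtain ⟨p, rfl⟩ : ∃ p, q = p + 1 := ⟨q - 1, by omega⟩
      rw [add_sub_cancel_right]
      rintro v ⟨⟨hvP, hvW⟩, hvF⟩
      obtain ⟨a, s, ha, haW, hs, hsW, rfl⟩ := dga_split h (p + 1) hvW
      have haP : a ∈ P := hP _ a ha s hs hvP
      have e1 : s = a + s - a := (add_sub_cancel_left a s).symm
      have hsP : s ∈ P := by rw [e1]; exact sub_mem hvP haP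
      have hsF : s ∈ F p := by rw [e1]; exact sub_mem hvF (h.F_anti (by omega) ha)
      refine add_mem (ih ⟨⟨haP, haW⟩, ha⟩) ?_
      have hd := hσ s hsP
      rcases le_or_gt p j with hpj | hpj
      · obtain ⟨b, w, hb, hw, e⟩ := dga_Spl_W h hs hsW
        rw [add_sub_cancel_right] at hw
        have hσb : σ b ∈ F (p + 1) := h.F_anti (by omega) (hFb _ ⟨b, hb, rfl⟩)
        obtain ⟨a3, s3, ha3, -, hs3, hs3W, e3⟩ := dga_split h (p + 1) (hW _ ⟨w, hw, rfl⟩)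
        have e4 : s - σ s = -(σ b + a3) + (s - s3) := by
          have : σ s = σ b + (a3 + s3) := by rw [e3, ← map_add, e]
          rw [this]; abel
        rw [e4] at hd
        have h5 := hN _ _ (neg_mem (add_mem hσb ha3)) _ (sub_mem hs hs3) hd
        have h6 : s - s3 ∈ N := by
          have := sub_mem hd h5
          rwa [add_sub_cancel_left] at this
        have : s = s - s3 + s3 := (sub_add_cancel s s3).symm
        rw [this]
        exact Submodule.add_mem_sup h6 hs3W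
      · refine Submodule.mem_sup_left (hN p s hsF (-σ s) (neg_mem ?_) (by
          rwa [← sub_eq_add_neg]))
        exact dga_le_Spl W Fb (2 * j + 1) p
          ⟨h.Fb_anti (by omega) (hF p ⟨s, hsF, rfl⟩), hW _ ⟨s, hsW, rfl⟩⟩
  exact fun x hx => key p0 ⟨hx, hp0 (h.W_Z _ hx.2)⟩

end alg

end Pool.Agent.PWD
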