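import Pool.Agent.P.MP_65ad7c_ag.DG0

/-! Pairs of subcomplexes. -/

open Set Filter Topology

noncomputable section
namespace Pool.Agent.PWD.G

variable {k V A A' : Type} [Ring k] [AddCommGroup A] [Module k A] [AddCommGroup A'] [Module k A']
  {d : A →ₗ[k] A} {X Y X' Y' X'' : Gr k A} {m : ℤ}

theorem Cx.pred (h : Cx d X) {a : A} (ha : a ∈ X (m - 1)) : d a ∈ X m := by
  have := h _ a ha
  rwa [sub_add_cancel] at this

theorem cx_bot : Cx d ⊥ := fun m a ha => by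
  have h : a = 0 := ha
  show d a = 0
  rw [h, map_zero]

theorem Cx.sup (h : Cx d X) (h' : Cx d Y) : Cx d (X ⊔ Y) := fun m a ha => by
  obtain ⟨x, hx, y, hy, rfl⟩ := Submodule.mem_sup.1 ha
  rw [map_add]
  exact Submodule.add_mem_sup (h m x hx) (h' m y hy)

theorem mem_Zc {a : A} : a ∈ Zc d X Y m ↔ a ∈ X m ∧ d a ∈ Y (m + 1) := Iff.rfl

theorem mem_Zc_bot {a : A} : a ∈ Zc d X ⊥ m ↔ a ∈ X m ∧ d a = 0 := Iff.rfl

theorem mem_Bd {a : A} : a ∈ Bd d X Y m ↔ ∃ b ∈ X (m - 1), a - d b ∈ Y m := by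
  constructor
  · intro h
    obtain ⟨_, ⟨b, hb, rfl⟩, y, hy, rfl⟩ := Submodule.mem_sup.1 h
    exact ⟨b, hb, by rwa [add_sub_cancel_left]⟩
  · rintro ⟨b, hb, h⟩
    exact Submodule.mem_sup.2 ⟨d b, ⟨b, hb, rfl⟩, a - d b, h, add_sub_cancel _ _⟩

theorem mem_Bd_bot {a : A} : a ∈ Bd d X ⊥ m ↔ ∃ b ∈ X (m - 1), d b = a :=
  mem_Bd.trans (exists_congr fun _ => and_congr_right fun _ =>
    (show a - _ = 0 ↔ _ from sub_eq_zero.trans eq_comm))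

theorem Bd_bot : Bd d X ⊥ m = (X (m - 1)).map d := sup_bot_eq _

theorem le_Bd : Y m ≤ Bd d X Y m := le_sup_right

theorem d_mem_Bd {b : A} (hb : b ∈ X (m - 1)) : d b ∈ Bd d X Y m :=
  mem_Bd.2 ⟨b, hb, by rw [sub_self]; exact zero_mem _⟩

theorem d_mem_Bd' {b : A} (hb : b ∈ X m) : d b ∈ Bd d X Y (m + 1) :=
  d_mem_Bd (by rwa [add_sub_cancel_right])

theorem Zc_mono (h : X ≤ X') (h' : Y ≤ Y') : Zc d X Y m ≤ Zc d X' Y' m :=
  fun _ ha => ⟨h m ha.1, h' (m + 1) ha.2⟩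

theorem Bd_mono (h : X ≤ X') (h' : Y ≤ Y') : Bd d X Y m ≤ Bd d X' Y' m :=
  sup_le_sup (Submodule.map_mono (h _)) (h' _)

theorem Bd_le_Zc (dd : ∀ a, d (d a) = 0) (hX : Cx d X) (hY : Cx d Y) (h : Y ≤ X) :
    Bd d X Y m ≤ Zc d X Y m := fun a ha => by
  obtain ⟨b, hb, h1⟩ := mem_Bd.1 ha
  refine ⟨?_, ?_⟩
  · have := add_mem (h m h1) (hX.pred hb)
    rwa [sub_add_cancel] at this
  · have := hY m _ h1
    rwa [map_sub, dd, sub_zero] at this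

theorem AC.refl (d : A →ₗ[k] A) (X : Gr k A) : AC d X X :=
  fun _ _ ha _ => ⟨0, zero_mem _, by rwa [map_zero, sub_zero]⟩

theorem AC.trans (dd : ∀ a, d (d a) = 0) (h : AC d X X') (h' : AC d X' X'') (e : X ≤ X')
    (e' : X' ≤ X'') : AC d X X'' := fun m a ha hd => by
  obtain ⟨b, hb, h1⟩ := h' m a ha (e _ hd)
  obtain ⟨c, hc, h2⟩ := h m _ h1 (by rwa [map_sub, dd, sub_zero])
  exact ⟨b + c, add_mem hb (e' _ hc), by rwa [map_add, ← sub_sub]⟩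

/-- `H (X, Y) → H (X', Y')` is onto -/
theorem AC.surj (dd : ∀ a, d (d a) = 0) (hX : AC d X X') (hY : AC d Y Y') (e : Y ≤ X)
    (e' : Y' ≤ X') {a : A} (ha : a ∈ Zc d X' Y' m) :
    ∃ b ∈ Zc d X Y m, a - b ∈ Bd d X' Y' m := by
  obtain ⟨y, hy, h1⟩ := hY (m + 1) (d a) ha.2 (by rw [dd]; exact zero_mem _)
  rw [add_sub_cancel_right] at hy
  rw [← map_sub] at h1
  obtain ⟨x, hx, h2⟩ := hX m (a - y) (sub_mem ha.1 (e' _ hy)) (e _ h1)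
  refine ⟨a - y - d x, ⟨h2, ?_⟩, mem_Bd.2 ⟨x, hx, ?_⟩⟩
  · show d (a - y - d x) ∈ Y (m + 1)
    rwa [map_sub, dd, sub_zero]
  · convert hy using 1
    abel

/-- `H (X, Y) → H (X', Y')` is injective -/
theorem AC.inj (dd : ∀ a, d (d a) = 0) (hX : AC d X X') (hY : AC d Y Y') (e : Y ≤ X)
    (e' : Y' ≤ X') {a : A} (ha : a ∈ Zc d X Y m) (hb : a ∈ Bd d X' Y' m) : a ∈ Bd d X Y m := by
  obtain ⟨x, hx, h1⟩ := mem_Bd.1 hb
  obtain ⟨y, hy, h2⟩ := hY m _ h1 (by rw [map_sub, dd, sub_zero]; exact ha.2)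
  have h3 : d (x + y) ∈ X (m - 1 + 1) := by
    rw [sub_add_cancel]
    have := sub_mem ha.1 (e _ h2)
    convert this using 1
    rw [map_add]; abel
  obtain ⟨w, -, h4⟩ := hX (m - 1) (x + y) (add_mem hx (e' _ hy)) h3
  refine mem_Bd.2 ⟨_, h4, ?_⟩
  rw [map_sub, dd, sub_zero, map_add, ← sub_sub]
  exact h2

theorem mem_cjg {C : Submodule k (A × A)} {N : Submodule k A} {b : A} :
    b ∈ cjg C N ↔ ∃ a ∈ N, (a, b) ∈ C :=
  ⟨fun ⟨x, hx, e⟩ => ⟨x.1, hx.2, e ▸ hx.1⟩, fun ⟨a, ha, h⟩ => ⟨(a, b), ⟨h, ha⟩, rfl⟩⟩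

theorem Inv.le' {Z B : Submodule k A} {C : Submodule k (A × A)} (h : Inv Z B C) {a b : A}
    (hab : (a, b) ∈ C) : b ∈ Z := h.le _ _ (h.symm _ _ hab)

theorem Inv.sub {Z B : Submodule k A} {C : Submodule k (A × A)} (h : Inv Z B C) {a b a' b' : A}
    (h1 : (a, b) ∈ C) (h2 : (a', b') ∈ C) (e : a - a' ∈ B) : b - b' ∈ B :=
  h.func _ _ (sub_mem h1 h2) e

end Pool.Agent.PWD.G
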