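import Pool.Agent.P.MP_65ad7c_ag.DGC1

/-! The induction on the weight. -/

open Set Filter Topology

noncomputable section
namespace Pool.Agent.PWD.G

variable {k V A A' : Type} [Ring k] [AddCommGroup A] [Module k A] [AddCommGroup A'] [Module k A']
  {D : A →ₗ[k] A} {L F : ℤ → Gr k A} {H G : ℤ → ℤ → Submodule k (A × A)}

theorem DGC_le_Spl (W Fb : ℤ → Submodule k A) (p j : ℤ) : Fb (j - p + 1) ⊓ W j ≤ Spl W Fb p :=
  le_iSup (fun j => Fb (j - p + 1) ⊓ W j) j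

theorem DGC_Spl_map {W Fb W' Fb' : ℤ → Submodule k A} (f : A →ₗ[k] A)
    (hW : ∀ j, (W j).map f ≤ W' j) (hFb : ∀ p, (Fb p).map f ≤ Fb' p) (p : ℤ) :
    (Spl W Fb p).map f ≤ Spl W' Fb' p := by
  rw [Spl, Submodule.map_iSup]
  refine iSup_le fun j => le_trans ?_ (DGC_le_Spl W' Fb' p j)
  exact le_inf ((Submodule.map_mono inf_le_left).trans (hFb _))
    ((Submodule.map_mono inf_le_right).trans (hW _))

theorem DGC_L (h : Alg D L F H G) (q : ℤ) : L (q - 1) ≤ L q := h.L_mono (by omega)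

theorem DGC_BZ (h : Alg D L F H G) (q m : ℤ) : Bd D (L q) ⊥ m ≤ Zc D (L q) ⊥ m :=
  Bd_le_Zc h.dd (h.L_cx q) cx_bot bot_le

theorem DGC_BB (h : Alg D L F H G) (q m : ℤ) : Bd D (L (q - 1)) ⊥ m ≤ Bd D (L q) ⊥ m :=
  Bd_mono (DGC_L h q) le_rfl

theorem DGC_BG (q m : ℤ) : Bd D (L q) ⊥ m ≤ Bd D (L q) (L (q - 1)) m := Bd_mono le_rfl bot_le

theorem DGC_dBG (h : Alg D L F H G) {q m : ℤ} {b : A} (hb : b ∈ Bd D (L q) (L (q - 1)) m) :
    D b ∈ Bd D (L (q - 1)) ⊥ (m + 1) := by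
  obtain ⟨c, -, hc⟩ := mem_Bd.1 hb
  have := d_mem_Bd' (d := D) (Y := ⊥) hc
  rwa [map_sub, h.dd, sub_zero] at this

theorem DGC_hW_top (h : Alg D L F H G) {q m j : ℤ} (hj : m + q ≤ j) :
    hW D L q m j = Zc D (L q) ⊥ m := by
  rw [hW, min_eq_left (by omega), sup_eq_left.2 (DGC_BZ h q m)]

theorem DGC_hW_low (h : Alg D L F H G) {q m j : ℤ} (hj : j < m + q) :
    hW D L q m j = hW D L (q - 1) m j ⊔ Bd D (L q) ⊥ m := by
  rw [hW, hW, min_eq_right (by omega), min_eq_right (by omega), sup_assoc,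
    sup_eq_right.2 (DGC_BB h q m)]

theorem DGC_hW_BG (h : Alg D L F H G) {q m j : ℤ} (hj : j < m + q) :
    hW D L q m j ≤ Bd D (L q) (L (q - 1)) m :=
  sup_le (fun _ ha => le_Bd (h.L_mono (show min q (j - m) ≤ q - 1 by omega) m ha.1)) (DGC_BG q m)

theorem DGC_mem_hW (h : Alg D L F H G) {q m : ℤ} {x : A} (hx : D x = 0)
    (hb : x ∈ Bd D (L q) (L (q - 1)) m) : x ∈ hW D L q m (m + q - 1) := by
  obtain ⟨b, hb, h1⟩ := mem_Bd.1 hb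
  refine Submodule.mem_sup.2 ⟨x - D b, mem_Zc_bot.2 ⟨?_, ?_⟩, D b, d_mem_Bd hb, sub_add_cancel _ _⟩
  · rwa [show min q (m + q - 1 - m) = q - 1 by omega]
  · rw [map_sub, h.dd, hx, sub_zero]

theorem DGC_hW_le (h : Alg D L F H G) (q m j : ℤ) : hW D L (q - 1) m j ≤ hW D L q m j :=
  sup_le_sup (Zc_mono (h.L_mono (by omega)) le_rfl) (DGC_BB h q m)

theorem DGC_hF_le (h : Alg D L F H G) (q m p : ℤ) : hF D L F (q - 1) m p ≤ hF D L F q m p :=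
  sup_le_sup (Zc_mono (inf_le_inf_left _ (DGC_L h q)) le_rfl) (DGC_BB h q m)

theorem DGC_hF_gF (q m p : ℤ) : hF D L F q m p ≤ gF D L F q m p :=
  sup_le_sup (Zc_mono le_rfl bot_le) (DGC_BG q m)

theorem DGC_ker_eq (h : Alg D L F H G) (q m : ℤ) :
    Zc D (L (q - 1)) ⊥ (m + 1) ⊓ Bd D (L q) ⊥ (m + 1) =
      (Zc D (L q) (L (q - 1)) m).map D ⊔ Bd D (L (q - 1)) ⊥ (m + 1) := by
  refine le_antisymm ?_ (sup_le ?_ (le_inf (DGC_BZ h _ _) (DGC_BB h _ _)))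
  · rintro x ⟨h1, h2⟩
    obtain ⟨b, hb, rfl⟩ := mem_Bd_bot.1 h2
    rw [add_sub_cancel_right] at hb
    exact Submodule.mem_sup_left ⟨b, ⟨hb, h1.1⟩, rfl⟩
  · rintro _ ⟨b, hb, rfl⟩
    exact ⟨mem_Zc_bot.2 ⟨hb.2, h.dd b⟩, d_mem_Bd' hb.1⟩

theorem DGC_ker (h : Alg D L F H G) {q : ℤ} (ih : Stp D L F H (q - 1)) (m : ℤ) :
    Good (hW D L (q - 1) m) (hF D L F (q - 1) m)
      (fun p => cjg (H (q - 1) m) (hF D L F (q - 1) m p))
      (Zc D (L (q - 1)) ⊥ m ⊓ Bd D (L q) ⊥ m) := by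
  obtain ⟨m, rfl⟩ : ∃ n, m = n + 1 := ⟨m - 1, by omega⟩
  rw [DGC_ker_eq h]
  exact (h.mhsG q m).good_Z.map le_rfl (h.mhsG q m) (ih.1 (m + 1)) D (h.δ_W q m) (h.δ_F q m)
    (h.δ_Fb q m)

theorem DGC_ker_F (h : Alg D L F H G) {q m p : ℤ} (ih : Stp D L F H (q - 1)) {x : A}
    (h1 : x ∈ L (q - 1) (m + 1)) (h2 : x ∈ Bd D (L q) ⊥ (m + 1))
    (h3 : x ∈ hF D L F (q - 1) (m + 1) p) :
    ∃ g ∈ Zc D (F p ⊓ L q) (L (q - 1)) m, x - D g ∈ Bd D (L (q - 1)) ⊥ (m + 1) := by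
  obtain ⟨b, hb, rfl⟩ := mem_Bd_bot.1 h2
  rw [add_sub_cancel_right] at hb
  have h4 : b ∈ pure (Zc D (L q) (L (q - 1)) m) (Bd D (L q) (L (q - 1)) m) (m + q) (m + q) := by
    rw [pure, if_pos le_rfl]; exact ⟨hb, h1⟩
  obtain ⟨a, ha, s, hs, rfl⟩ := Submodule.mem_sup.1 ((h.mhsG q m).W_le (m + q) p h4)
  have h5 : D s ∈ Bd D (L (q - 1)) ⊥ (m + 1) := by
    refine (ih.1 (m + 1)).inf_le p ⟨?_, DGC_Spl_map D (h.δ_W q m) (h.δ_Fb q m) p ⟨s, hs.1, rfl⟩⟩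
    have := sub_mem h3 (h.δ_F q m p ⟨a, ha.1, rfl⟩)
    rwa [map_add, add_sub_cancel_left] at this
  obtain ⟨g, hg, β, hβ, rfl⟩ := Submodule.mem_sup.1 ha.1
  refine ⟨g, hg, ?_⟩
  convert add_mem (DGC_dBG h hβ) h5 using 1
  rw [map_add, map_add]; abel

theorem DGC_inj (h : Alg D L F H G) {q : ℤ} (ih : Stp D L F H (q - 1)) (m p : ℤ) (x : A)
    (hx : x ∈ F p m ⊓ L q m) (hb : x ∈ Bd D (L q) ⊥ m) : x ∈ Bd D (F p ⊓ L q) ⊥ m := by
  obtain ⟨m, rfl⟩ : ∃ n, m = n + 1 := ⟨m - 1, by omega⟩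
  obtain ⟨z, hz, hy⟩ := mem_Bd.1 (h.GI p q _ x hx (DGC_BG q _ hb))
  have h1 : x - D z ∈ Bd D (L q) ⊥ (m + 1) := sub_mem hb (d_mem_Bd hz.2)
  obtain ⟨g, hg, h2⟩ := DGC_ker_F h ih hy.2 h1
    (Submodule.mem_sup_left (mem_Zc_bot.2 ⟨hy, (DGC_BZ h q _ h1).2⟩))
  have h3 := ih.2 (m + 1) p _ ⟨sub_mem hy.1 (h.FL_cx p q m g hg.1).1, sub_mem hy.2 hg.2⟩ h2
  have h4 : x - D z - D g ∈ Bd D (F p ⊓ L q) ⊥ (m + 1) :=
    Bd_mono (inf_le_inf_left _ (DGC_L h q)) le_rfl h3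
  convert add_mem (add_mem h4 (d_mem_Bd' hg.1)) (d_mem_Bd hz) using 1
  abel

theorem DGC_S2 (h : Alg D L F H G) {q m p : ℤ} (ih : Stp D L F H (q - 1)) {f : A}
    (hf : f ∈ gF D L F q m p) (hd : D f ∈ Bd D (L (q - 1)) ⊥ (m + 1)) :
    ∃ f' ∈ Zc D (F p ⊓ L q) ⊥ m, f - f' ∈ Bd D (L q) (L (q - 1)) m := by
  obtain ⟨g, hg, β, hβ, rfl⟩ := Submodule.mem_sup.1 hf
  have h1 : D g ∈ Bd D (L (q - 1)) ⊥ (m + 1) := by
    have := sub_mem hd (DGC_dBG h hβ)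
    rwa [map_add, add_sub_cancel_right] at this
  obtain ⟨u, hu, e⟩ := mem_Bd_bot.1 (ih.2 (m + 1) p _ ⟨(h.FL_cx p q m g hg.1).1, hg.2⟩ h1)
  rw [add_sub_cancel_right] at hu
  refine ⟨g - u, mem_Zc_bot.2 ⟨sub_mem hg.1 ⟨hu.1, DGC_L h q m hu.2⟩, ?_⟩, ?_⟩
  · rw [map_sub, e, sub_self]
  · convert add_mem hβ (le_Bd hu.2) using 1
    abel

theorem DGC_span (h : Alg D L F H G) {q : ℤ} (ih : Stp D L F H (q - 1)) (m p : ℤ) {x : A}
    (hx : x ∈ Zc D (L q) ⊥ m) : ∃ f ∈ hF D L F q m p ⊓ Zc D (L q) ⊥ m,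
      ∃ y ∈ cjg (H q m) (hF D L F q m (m + q - p + 1)) ⊓ Zc D (L q) ⊥ m,
        x - (f + y) ∈ hW D L q m (m + q - 1) := by
  have hxG : x ∈ Zc D (L q) (L (q - 1)) m := Zc_mono le_rfl bot_le hx
  have hx0 : D x = 0 := hx.2
  obtain ⟨f, hf, g, hg, y, hy, h1⟩ := h.GA p q m x hxG
  have hG := h.mhsG q m
  have hN := (ih.1 (m + 1)).good_B.comap hG D (h.δ_W q m) (h.δ_F q m) (h.δ_Fb q m)
  have hs : x - f ∈ Spl (pure (Zc D (L q) (L (q - 1)) m) (Bd D (L q) (L (q - 1)) m) (m + q))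
      (fun p => cjg (G q m) (gF D L F q m p)) p := by
    refine DGC_le_Spl _ _ p (m + q) ⟨?_, ?_⟩
    · have := add_mem (hG.B_Fb (m + q - p + 1) h1)
        (mem_cjg.2 ⟨g, Submodule.mem_sup_left hg, hy⟩)
      rwa [sub_add_cancel] at this
    · show _ ∈ pure _ _ _ _
      rw [pure, if_pos le_rfl]
      exact sub_mem hxG (Zc_mono inf_le_right le_rfl hf)
  have h2 : D f ∈ Bd D (L (q - 1)) ⊥ (m + 1) := by
    refine (hN p f (Submodule.mem_sup_left hf) _ hs ?_).1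
    rw [add_sub_cancel]
    exact Submodule.mem_inf.2 ⟨Submodule.mem_comap.2 (by rw [hx0]; exact zero_mem _), hxG⟩
  have h3 : D y ∈ Bd D (L (q - 1)) ⊥ (m + 1) := by
    convert neg_mem (add_mem h2 (DGC_dBG h h1)) using 1
    rw [map_sub, map_sub, hx0]; abel
  have hi := h.H_inv (q - 1) (m + 1)
  obtain ⟨f', hf', h4⟩ := DGC_S2 h ih (Submodule.mem_sup_left hf) h2
  obtain ⟨g', hg', h5⟩ := DGC_S2 h ih (Submodule.mem_sup_left hg)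
    (hi.func _ _ (hi.symm _ _ (h.GH q m g y hy)) h3)
  obtain ⟨y', hy'⟩ := (h.H_inv q m).total g' (Zc_mono inf_le_right le_rfl hg')
  have h6 := (h.G_inv q m).sub hy (h.HG q m hy') h5
  have h7 : f' ∈ Zc D (L q) ⊥ m := Zc_mono inf_le_right le_rfl hf'
  have h8 := (h.H_inv q m).le' hy'
  refine ⟨f', ⟨Submodule.mem_sup_left hf', h7⟩, y',
    ⟨mem_cjg.2 ⟨g', Submodule.mem_sup_left hg', hy'⟩, h8⟩,
    DGC_mem_hW h (sub_mem hx (add_mem h7 h8)).2 ?_⟩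
  convert add_mem (add_mem h1 h4) h6 using 1
  abel

theorem DGC_lift (h : Alg D L F H G) {q m p j : ℤ} (ih : Stp D L F H (q - 1)) (hj : j < m + q)
    {x : A} (hx : x ∈ hF D L F q m p) (hw : x ∈ hW D L q m j) :
    ∃ a ∈ hF D L F (q - 1) m p ⊓ hW D L (q - 1) m j, x - a ∈ Bd D (L q) ⊥ m := by
  have h0 := DGC_hW_BG h hj hw
  rw [DGC_hW_low h hj] at hw
  obtain ⟨a', ha', β', hβ', e⟩ := Submodule.mem_sup.1 hw
  obtain ⟨x₀, hx₀, β, hβ, rfl⟩ := Submodule.mem_sup.1 hx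
  have h1 := sub_mem h0 (DGC_BG q m hβ)
  rw [add_sub_cancel_right] at h1
  obtain ⟨z, hz, ha⟩ := mem_Bd.1 (h.GI p q m x₀ hx₀.1 h1)
  have h2 : x₀ - D z ∈ Zc D (F p ⊓ L (q - 1)) ⊥ m :=
    mem_Zc_bot.2 ⟨ha, by rw [map_sub, h.dd, sub_zero]; exact hx₀.2⟩
  have hz' : D z ∈ Bd D (L q) ⊥ m := d_mem_Bd hz.2
  have hZ := (ih.1 m).W_Z j ha'
  obtain ⟨a, ha, s, hs, rfl⟩ := Submodule.mem_sup.1 ((ih.1 m).W_le j p ha')
  have h3 := DGC_ker h ih m p (x₀ - D z - a) (sub_mem (Submodule.mem_sup_left h2) ha.1) (-s)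
    (neg_mem hs.1) (Submodule.mem_inf.2 ⟨by
      convert sub_mem (Zc_mono inf_le_right le_rfl h2) hZ using 1
      abel, by
      convert sub_mem (sub_mem hβ' hβ) hz' using 1
      rw [eq_sub_of_add_eq e.symm]; abel⟩)
  refine ⟨a, ha, ?_⟩
  convert add_mem (add_mem h3.2 hz') hβ using 1
  abel

theorem DGC_disj (h : Alg D L F H G) {q m p j : ℤ} (ih : Stp D L F H (q - 1)) (hj : j < m + q)
    {x y : A} (hx : x ∈ hF D L F q m p ⊓ hW D L q m j)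
    (hy : y ∈ cjg (H q m) (hF D L F q m (j - p + 1)) ⊓ hW D L q m j)
    (hxy : x - y ∈ hW D L q m (j - 1)) : x ∈ hW D L q m (j - 1) := by
  have hM := ih.1 m
  obtain ⟨a, ha, h1⟩ := DGC_lift h ih hj hx.1 hx.2
  obtain ⟨c, hc, hcy⟩ := mem_cjg.1 hy.1
  obtain ⟨c₁, hc₁, h2⟩ := DGC_lift h ih hj hc (h.relW ((h.H_inv q m).symm _ _ hcy) hy.2)
  obtain ⟨b, hb⟩ := (h.H_inv (q - 1) m).total c₁ (hM.W_Z j hc₁.2)
  have h3 := (h.H_inv q m).sub hcy (h.HH _ q m (by omega) hb) h2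
  have hbW := h.relW hb hc₁.2
  rw [DGC_hW_low h (show j - 1 < m + q by omega)] at hxy ⊢
  obtain ⟨e, he, β, hβ, h4⟩ := Submodule.mem_sup.1 hxy
  have hZ := hM.W_Z _ he
  obtain ⟨c₂, hc₂, s, hs, rfl⟩ := Submodule.mem_sup.1 (hM.W_le (j - 1) p he)
  have h5 := DGC_ker h ih m p (a - c₂) (sub_mem ha.1 hc₂.1) (-(b + s))
    (neg_mem (add_mem (DGC_le_Spl _ _ p j ⟨mem_cjg.2 ⟨c₁, hc₁.1, hb⟩, hbW⟩) hs.1))
    (Submodule.mem_inf.2 ⟨by
      convert sub_mem (sub_mem (hM.W_Z j ha.2) (hM.W_Z j hbW)) hZ using 1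
      abel, by
      convert add_mem (sub_mem hβ h1) h3 using 1
      rw [eq_sub_of_add_eq' h4]; abel⟩)
  refine Submodule.mem_sup.2 ⟨c₂, hc₂.2, _, add_mem h1 h5.2, ?_⟩
  abel

theorem Alg.stp_step (h : Alg D L F H G) {q : ℤ} (ih : Stp D L F H (q - 1)) : Stp D L F H q := by
  refine ⟨fun m => h.mhs_of q m (fun j p => ?_) fun j p x hx y hy hxy => ?_, DGC_inj h ih⟩
  · rcases lt_trichotomy j (m + q) with hj | rfl | hj
    · refine (DGC_hW_low h hj).le.trans (sup_le (((ih.1 m).span j p).trans ?_)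
        (le_sup_of_le_right le_sup_right))
      refine sup_le_sup (sup_le_sup (inf_le_inf (DGC_hF_le h q m p) (DGC_hW_le h q m j))
        (inf_le_inf (fun y hy => ?_) (DGC_hW_le h q m j))) (DGC_hW_le h q m _)
      obtain ⟨a, ha, hay⟩ := mem_cjg.1 hy
      exact mem_cjg.2 ⟨a, DGC_hF_le h q m _ ha, h.HH _ q m (by omega) hay⟩
    · rw [DGC_hW_top h le_rfl]
      intro x hx
      obtain ⟨f, hf, y, hy, h1⟩ := DGC_span h ih m p hx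
      exact Submodule.mem_sup.2 ⟨_, Submodule.add_mem_sup hf hy, _, h1, add_sub_cancel _ _⟩
    · rw [DGC_hW_top h hj.le, DGC_hW_top h (show m + q ≤ j - 1 by omega)]
      exact le_sup_right
  · rcases lt_trichotomy j (m + q) with hj | rfl | hj
    · exact DGC_disj h ih hj hx hy hxy
    · rw [DGC_hW_top h le_rfl] at hx hy
      obtain ⟨a, ha, hay⟩ := mem_cjg.1 hy.1
      have h1 := (h.mhsG q m).disj (m + q) p x ⟨DGC_hF_gF q m p hx.1, ?_⟩ y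
        ⟨mem_cjg.2 ⟨a, DGC_hF_gF q m _ ha, h.HG q m hay⟩, ?_⟩ ?_
      · rw [pure, if_neg (by omega)] at h1
        exact DGC_mem_hW h hx.2.2 h1
      · show _ ∈ pure _ _ _ _
        rw [pure, if_pos le_rfl]
        exact Zc_mono le_rfl bot_le hx.2
      · show _ ∈ pure _ _ _ _
        rw [pure, if_pos le_rfl]
        exact Zc_mono le_rfl bot_le hy.2
      · rw [pure, if_neg (by omega)]
        exact DGC_hW_BG h (by omega) hxy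
    · rw [DGC_hW_top h hj.le] at hx
      rw [DGC_hW_top h (show m + q ≤ j - 1 by omega)]
      exact hx.2

theorem Alg.stp (h : Alg D L F H G) (q : ℤ) : Stp D L F H q := by
  obtain ⟨q₀, h0⟩ := h.L_bot
  rcases le_total q q₀ with hq | hq
  · exact h.stp_bot fun n => (h.L_mono hq n).trans (h0 n)
  · induction q, hq using Int.leInduction with
    | base => exact h.stp_bot h0
    | succ n _ ih => exact h.stp_step (by rwa [add_sub_cancel_right])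

end Pool.Agent.PWD.G
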