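import Pool.Agent.P.MP_65ad7c_ag.DGB
import Pool.Agent.P.MP_65ad7c_ag.DGA

/-! The pure graded pieces of a mixed Hodge complex. -/

open Set Filter Topology

noncomputable section
namespace Pool.Agent.PWD.G

variable {k V A A' : Type} [Ring k] [AddCommGroup A] [Module k A] [AddCommGroup A'] [Module k A']
  {D : A →ₗ[k] A} {L F : ℤ → Gr k A} {H G : ℤ → ℤ → Submodule k (A × A)}

/-- the weight filtration of a pure structure of weight `w` -/
def pure (Z B : Submodule k A) (w j : ℤ) : Submodule k A := if w ≤ j then Z else B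

/-- Hodge filtration on `H^m (L q / L (q - 1))` -/
def gF (D : A →ₗ[k] A) (L F : ℤ → Gr k A) (q m p : ℤ) : Submodule k A :=
  Zc D (F p ⊓ L q) (L (q - 1)) m ⊔ Bd D (L q) (L (q - 1)) m

/-- the statement proved by induction on `q` -/
def Stp (D : A →ₗ[k] A) (L F : ℤ → Gr k A) (H : ℤ → ℤ → Submodule k (A × A)) (q : ℤ) : Prop :=
  (∀ m, MHS (Zc D (L q) ⊥ m) (Bd D (L q) ⊥ m) (hW D L q m) (hF D L F q m)
    fun p => cjg (H q m) (hF D L F q m p)) ∧
  ∀ m p, ∀ x ∈ F p m ⊓ L q m, x ∈ Bd D (L q) ⊥ m → x ∈ Bd D (F p ⊓ L q) ⊥ m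

theorem dgc1_cjg_mono {C : Submodule k (A × A)} {N N' : Submodule k A} (h : N ≤ N') :
    cjg C N ≤ cjg C N' := fun _ hb => by
  obtain ⟨a, ha, hab⟩ := mem_cjg.1 hb
  exact mem_cjg.2 ⟨a, h ha, hab⟩

theorem dgc1_B_cjg {Z B : Submodule k A} {C : Submodule k (A × A)} (h : Inv Z B C)
    (N : Submodule k A) : B ≤ cjg C N := fun b hb => mem_cjg.2 ⟨0, zero_mem _, h.bb b hb⟩

theorem dgc1_cjg_Z {Z B : Submodule k A} {C : Submodule k (A × A)} (h : Inv Z B C)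
    (N : Submodule k A) : cjg C N ≤ Z := fun _ hb => by
  obtain ⟨a, -, hab⟩ := mem_cjg.1 hb
  exact h.le' hab

theorem dgc1_pure_le {Z B : Submodule k A} {w j : ℤ} (h : w ≤ j) : pure Z B w j = Z := if_pos h

theorem dgc1_pure_lt {Z B : Submodule k A} {w j : ℤ} (h : j < w) : pure Z B w j = B :=
  if_neg (not_le.2 h)

theorem dgc1_BZ (h : Alg D L F H G) (q m : ℤ) : Bd D (L q) ⊥ m ≤ Zc D (L q) ⊥ m :=
  Bd_le_Zc h.dd (h.L_cx q) cx_bot bot_le

theorem dgc1_BZ' (h : Alg D L F H G) (q m : ℤ) :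
    Bd D (L q) (L (q - 1)) m ≤ Zc D (L q) (L (q - 1)) m :=
  Bd_le_Zc h.dd (h.L_cx q) (h.L_cx (q - 1)) (h.L_mono (by omega))

theorem dgc1_W_Z (h : Alg D L F H G) (q m j : ℤ) : hW D L q m j ≤ Zc D (L q) ⊥ m :=
  sup_le (Zc_mono (h.L_mono (min_le_left _ _)) le_rfl) (dgc1_BZ h q m)

theorem dgc1_D_B (h : Alg D L F H G) {q m : ℤ} {x : A} (hx : x ∈ Bd D (L q) (L (q - 1)) m) :
    D x ∈ Bd D (L (q - 1)) ⊥ (m + 1) := by
  obtain ⟨b, -, hb⟩ := mem_Bd.1 hx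
  have h1 : D (x - D b) ∈ Bd D (L (q - 1)) ⊥ (m + 1) := d_mem_Bd' hb
  rwa [map_sub, h.dd, sub_zero] at h1

/-- all conditions except `span` and `disj` -/
theorem Alg.mhs_of (h : Alg D L F H G) (q m : ℤ)
    (span : ∀ j p, hW D L q m j ≤ hF D L F q m p ⊓ hW D L q m j ⊔
      cjg (H q m) (hF D L F q m (j - p + 1)) ⊓ hW D L q m j ⊔ hW D L q m (j - 1))
    (disj : ∀ j p, ∀ x ∈ hF D L F q m p ⊓ hW D L q m j,
      ∀ y ∈ cjg (H q m) (hF D L F q m (j - p + 1)) ⊓ hW D L q m j, x - y ∈ hW D L q m (j - 1) →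
      x ∈ hW D L q m (j - 1)) :
    MHS (Zc D (L q) ⊥ m) (Bd D (L q) ⊥ m) (hW D L q m) (hF D L F q m)
      fun p => cjg (H q m) (hF D L F q m p) where
  W_mono _ _ hj :=
    sup_le_sup_right (Zc_mono (h.L_mono (min_le_min_left q (sub_le_sub_right hj m))) le_rfl) _
  F_anti _ _ hp := sup_le_sup_right (Zc_mono (inf_le_inf_right _ (h.F_anti hp)) le_rfl) _
  Fb_anti _ _ hp :=
    dgc1_cjg_mono (sup_le_sup_right (Zc_mono (inf_le_inf_right _ (h.F_anti hp)) le_rfl) _)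
  B_W _ := le_sup_right
  B_F _ := le_sup_right
  B_Fb _ := dgc1_B_cjg (h.H_inv q m) _
  W_Z := dgc1_W_Z h q m
  F_Z _ := sup_le (Zc_mono inf_le_right le_rfl) (dgc1_BZ h q m)
  Fb_Z _ := dgc1_cjg_Z (h.H_inv q m) _
  W_bot := by
    obtain ⟨q₀, h0⟩ := h.L_bot
    refine ⟨q₀ + m, sup_le (fun a ha => ?_) le_rfl⟩
    have h1 : a = 0 := h0 m (h.L_mono ((min_le_right _ _).trans (by omega)) m ha.1)
    rw [h1]
    exact zero_mem _
  W_top := ⟨q + m, le_sup_of_le_left (Zc_mono (h.L_mono (le_min le_rfl (by omega))) le_rfl)⟩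
  F_bot := by
    refine ⟨m + 1, sup_le (fun a ha => ?_) le_rfl⟩
    have h1 : a = 0 := h.F_bot q m ha.1
    rw [h1]
    exact zero_mem _
  F_top := ⟨0, le_sup_of_le_left fun _ ha => ⟨⟨h.F_top q m ha.1, ha.1⟩, ha.2⟩⟩
  span := span
  disj := disj

theorem Alg.mhsG (h : Alg D L F H G) (q m : ℤ) :
    MHS (Zc D (L q) (L (q - 1)) m) (Bd D (L q) (L (q - 1)) m)
      (pure (Zc D (L q) (L (q - 1)) m) (Bd D (L q) (L (q - 1)) m) (m + q)) (gF D L F q m)
      fun p => cjg (G q m) (gF D L F q m p) where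
  W_mono i j hij := by
    rcases le_or_gt (m + q) i with h1 | h1
    · rw [dgc1_pure_le h1, dgc1_pure_le (h1.trans hij)]
    · rw [dgc1_pure_lt h1]
      rcases le_or_gt (m + q) j with h2 | h2
      · rw [dgc1_pure_le h2]
        exact dgc1_BZ' h q m
      · rw [dgc1_pure_lt h2]
  F_anti _ _ hp := sup_le_sup_right (Zc_mono (inf_le_inf_right _ (h.F_anti hp)) le_rfl) _
  Fb_anti _ _ hp :=
    dgc1_cjg_mono (sup_le_sup_right (Zc_mono (inf_le_inf_right _ (h.F_anti hp)) le_rfl) _)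
  B_W j := by
    rcases le_or_gt (m + q) j with h2 | h2
    · rw [dgc1_pure_le h2]
      exact dgc1_BZ' h q m
    · rw [dgc1_pure_lt h2]
  B_F _ := le_sup_right
  B_Fb _ := dgc1_B_cjg (h.G_inv q m) _
  W_Z j := by
    rcases le_or_gt (m + q) j with h2 | h2
    · rw [dgc1_pure_le h2]
    · rw [dgc1_pure_lt h2]
      exact dgc1_BZ' h q m
  F_Z _ := sup_le (Zc_mono inf_le_right le_rfl) (dgc1_BZ' h q m)
  Fb_Z _ := dgc1_cjg_Z (h.G_inv q m) _
  W_bot := ⟨m + q - 1, (dgc1_pure_lt (by omega)).le⟩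
  W_top := ⟨m + q, (dgc1_pure_le le_rfl).ge⟩
  F_bot := by
    refine ⟨m + 1, sup_le (fun a ha => ?_) le_rfl⟩
    have h1 : a = 0 := h.F_bot q m ha.1
    rw [h1]
    exact zero_mem _
  F_top := ⟨0, le_sup_of_le_left fun _ ha => ⟨⟨h.F_top q m ha.1, ha.1⟩, ha.2⟩⟩
  span j p := by
    rcases lt_trichotomy j (m + q) with h1 | rfl | h1
    · rw [dgc1_pure_lt h1, dgc1_pure_lt (by omega : j - 1 < m + q)]
      exact le_sup_right
    · rw [dgc1_pure_le le_rfl, dgc1_pure_lt (by omega : m + q - 1 < m + q)]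
      intro x hx
      obtain ⟨f, hf, g, hg, y, hy, e⟩ := h.GA p q m x hx
      have h2 : x = f + y + (x - f - y) := by abel
      rw [h2]
      exact Submodule.add_mem_sup (Submodule.add_mem_sup
        ⟨Submodule.mem_sup_left hf, Zc_mono inf_le_right le_rfl hf⟩
        ⟨mem_cjg.2 ⟨g, Submodule.mem_sup_left hg, hy⟩, (h.G_inv q m).le' hy⟩) e
    · rw [dgc1_pure_le h1.le, dgc1_pure_le (by omega : m + q ≤ j - 1)]
      exact le_sup_right
  disj j p := by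
    rcases lt_trichotomy j (m + q) with h1 | rfl | h1
    · rw [dgc1_pure_lt h1, dgc1_pure_lt (by omega : j - 1 < m + q)]
      exact fun x hx _ _ _ => hx.2
    · rw [dgc1_pure_le le_rfl, dgc1_pure_lt (by omega : m + q - 1 < m + q)]
      intro x hx y hy e
      obtain ⟨f, hf, β, hβ, rfl⟩ := Submodule.mem_sup.1 hx.1
      obtain ⟨a, ha, hay⟩ := mem_cjg.1 hy.1
      obtain ⟨g, hg, γ, hγ, rfl⟩ := Submodule.mem_sup.1 ha
      obtain ⟨z, hz⟩ := (h.G_inv q m).total g (Zc_mono inf_le_right le_rfl hg)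
      have h2 := (h.G_inv q m).sub hay hz (by rwa [add_sub_cancel_left])
      have h3 : f - z = f + β - y - β + (y - z) := by abel
      exact add_mem (h.GB p q m f hf g hg z hz (h3 ▸ add_mem (sub_mem e hβ) h2)) hβ
    · rw [dgc1_pure_le h1.le, dgc1_pure_le (by omega : m + q ≤ j - 1)]
      exact fun x hx _ _ _ => hx.2

/-- the weight filtration is real -/
theorem Alg.relW (h : Alg D L F H G) {q m j : ℤ} {a b : A} (hab : (a, b) ∈ H q m)
    (ha : a ∈ hW D L q m j) : b ∈ hW D L q m j := by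
  obtain ⟨a₀, h0, β, hβ, rfl⟩ := Submodule.mem_sup.1 ha
  obtain ⟨b₀, h1⟩ := (h.H_inv _ m).total a₀ h0
  have h2 := (h.H_inv q m).sub hab (h.HH _ q m (min_le_left _ _) h1)
    (by rwa [add_sub_cancel_left])
  exact Submodule.mem_sup.2 ⟨b₀, (h.H_inv _ m).le' h1, b - b₀, h2, add_sub_cancel _ _⟩

/-- the connecting map keeps the three filtrations -/
theorem Alg.δ_W (h : Alg D L F H G) (q m j : ℤ) :
    (pure (Zc D (L q) (L (q - 1)) m) (Bd D (L q) (L (q - 1)) m) (m + q) j).map D ≤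
      hW D L (q - 1) (m + 1) j := by
  rintro _ ⟨x, hx, rfl⟩
  rcases le_or_gt (m + q) j with h1 | h1
  · rw [dgc1_pure_le h1] at hx
    exact Submodule.mem_sup_left
      (mem_Zc_bot.2 ⟨h.L_mono (le_min le_rfl (by omega)) (m + 1) hx.2, h.dd x⟩)
  · rw [dgc1_pure_lt h1] at hx
    exact Submodule.mem_sup_right (dgc1_D_B h hx)

theorem Alg.δ_F (h : Alg D L F H G) (q m p : ℤ) :
    (gF D L F q m p).map D ≤ hF D L F (q - 1) (m + 1) p := by
  rintro _ ⟨x, hx, rfl⟩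
  obtain ⟨f, hf, β, hβ, rfl⟩ := Submodule.mem_sup.1 hx
  rw [map_add]
  exact Submodule.add_mem_sup (mem_Zc_bot.2 ⟨⟨(h.FL_cx p q m f hf.1).1, hf.2⟩, h.dd f⟩)
    (dgc1_D_B h hβ)

theorem Alg.δ_Fb (h : Alg D L F H G) (q m p : ℤ) :
    (cjg (G q m) (gF D L F q m p)).map D ≤ cjg (H (q - 1) (m + 1)) (hF D L F (q - 1) (m + 1) p) := by
  rintro _ ⟨y, hy, rfl⟩
  obtain ⟨a, ha, hay⟩ := mem_cjg.1 hy
  exact mem_cjg.2 ⟨D a, h.δ_F q m p ⟨a, ha, rfl⟩, h.GH q m a y hay⟩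

theorem Alg.stp_bot (h : Alg D L F H G) {q : ℤ} (hq : ∀ n, L q n ≤ ⊥) : Stp D L F H q := by
  have h0 : ∀ m j, ∀ x ∈ hW D L q m j, x = 0 := fun m j x hx => hq m (dgc1_W_Z h q m j hx).1
  refine ⟨fun m => h.mhs_of q m (fun j p x hx => ?_) (fun j p x hx _ _ _ => ?_),
    fun m p x hx _ => ?_⟩
  · rw [h0 m j x hx]
    exact zero_mem _
  · rw [h0 m j x hx.2]
    exact zero_mem _
  · have h1 : x = 0 := hq m hx.2
    rw [h1]
    exact zero_mem _

end Pool.Agent.PWD.G
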