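import Pool.Agent.P.MP_65ad7c_ag.DGB

/-! The simplicial Godement complex. -/

open Set Filter Topology

noncomputable section
namespace Pool.Agent.PWD.G

variable {k V A A' : Type} [Ring k] [AddCommGroup A] [Module k A] [AddCommGroup A'] [Module k A']
  {d : A →ₗ[k] A}

@[simp] theorem tl_apply (x : V) (r : List V → A) (l : List V) : tl k x r l = r (x :: l) := rfl

@[simp] theorem pw_apply (f : A →ₗ[k] A') (r : List V → A) (l : List V) : pw f r l = f (r l) := rfl

@[simp] theorem dG_nil (r : List V → A) : dG k r [] = 0 := rfl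

theorem dG_cons (r : List V → A) (x : V) (l : List V) :
    dG k r (x :: l) = r l - dG k (tl k x r) l := rfl

theorem tl_dG (r : List V → A) (x : V) : tl k x (dG k r) = r - dG k (tl k x r) := rfl

theorem DD_apply (r : List V → A) (l : List V) :
    DD d r l = dG k r l - ((-1 : ℤ) ^ l.length) • d (r l) := rfl

theorem eps_apply (a : A) (l : List V) : eps k a l = if l.length = 1 then a else 0 := by
  show (if l.length = 1 then LinearMap.id else 0 : A →ₗ[k] A) a = _
  split_ifs <;> rfl

theorem dG_dG (r : List V → A) : dG k (dG k r) = 0 := by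
  funext l
  induction l generalizing r with
  | nil => rfl
  | cons x l ih =>
    rw [dG_cons, tl_dG, map_sub, Pi.sub_apply, ih (tl k x r)]
    simp

theorem dG_pw (f : A →ₗ[k] A') (r : List V → A) : dG k (pw f r) = pw f (dG k r) := by
  funext l
  induction l generalizing r with
  | nil => simp
  | cons x l ih =>
    rw [dG_cons, pw_apply, pw_apply, dG_cons, map_sub, ← pw_apply f (dG k (tl k x r)), ← ih]
    rfl

/-- the value at `l` lies in `N` if the values at all lists that are one shorter do -/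
theorem dG_mem (N : Submodule k A) {r : List V → A} {l : List V}
    (h : ∀ l' : List V, l'.length + 1 = l.length → r l' ∈ N) : dG k r l ∈ N := by
  induction l generalizing r with
  | nil => exact zero_mem _
  | cons x l ih =>
    exact sub_mem (h l rfl) (ih fun l' hl' => h (x :: l') (congrArg (· + 1) hl'))

theorem dG_congr {r r' : List V → A} {l : List V}
    (h : ∀ l' : List V, l'.length + 1 = l.length → r l' = r' l') : dG k r l = dG k r' l := by
  have := dG_mem (k := k) ⊥ (r := r - r') (l := l) fun l' hl' => sub_eq_zero.2 (h l' hl')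
  rwa [map_sub, Pi.sub_apply, Submodule.mem_bot, sub_eq_zero] at this

theorem DGD1_anti (r : List V → A) (l : List V) :
    dG k (fun l => ((-1 : ℤ) ^ l.length) • d (r l)) l =
      -(((-1 : ℤ) ^ l.length) • d (dG k r l)) := by
  induction l generalizing r with
  | nil => simp
  | cons x l ih =>
    have e : tl k x (fun l => ((-1 : ℤ) ^ l.length) • d (r l)) =
        -fun l => ((-1 : ℤ) ^ l.length) • d (tl k x r l) := by
      funext l
      simp [pow_succ]
    rw [dG_cons, e, map_neg, Pi.neg_apply, ih, dG_cons, List.length_cons, pow_succ, map_sub]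
    simp only [mul_neg, mul_one, neg_smul, neg_neg, smul_sub]
    abel

theorem DD_DD (dd : ∀ a, d (d a) = 0) (r : List V → A) : DD d (DD d r) = 0 := by
  funext l
  have e : DD d r = dG k r - fun l => ((-1 : ℤ) ^ l.length) • d (r l) := rfl
  rw [DD_apply, DD_apply, e, map_sub, dG_dG, Pi.sub_apply, DGD1_anti, map_sub, map_zsmul, dd]
  simp

theorem DD_eps (a : A) : DD d (eps k a : List V → A) = eps k (d a) := by
  have e : (eps k a : List V → A) = dG k fun l => if l.length = 0 then a else 0 := by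
    funext l
    cases l with
    | nil => simp [eps_apply]
    | cons x l =>
      rw [dG_cons, show tl k x (fun l : List V => if l.length = 0 then a else 0) = 0 from
        funext fun l => by simp, map_zero, eps_apply]
      simp
  have e' : dG k (eps k a : List V → A) = 0 := by rw [e, dG_dG]
  funext l
  rw [DD_apply, e', eps_apply, eps_apply]
  split_ifs with h <;> simp [h]

theorem pw_DD {d' : A' →ₗ[k] A'} {f : A →ₗ[k] A'} (h : ∀ a, f (d a) = d' (f a)) (r : List V → A) :
    pw f (DD d r) = DD d' (pw f r) := by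
  funext l
  rw [pw_apply, DD_apply, DD_apply, map_sub, map_zsmul, h, dG_pw, pw_apply, pw_apply]

theorem pw_eps (f : A →ₗ[k] A') (a : A) : pw f (eps k a : List V → A) = eps k (f a) := by
  funext l
  rw [pw_apply, eps_apply, eps_apply]
  split_ifs <;> simp

variable [TopologicalSpace V] {m : ℤ} {P Q : ℤ → V → List V → Prop} {S S' N : Sys k V A}

theorem ev_zero {x : V} {p : List V → Prop} : (∀ᶠ l in ev 0 x, p l) ↔ p [] := Iff.rfl

theorem ev_succ {a : ℕ} {x : V} {p : List V → Prop} :
    (∀ᶠ l in ev (a + 1) x, p l) ↔ ∀ᶠ y in 𝓝 x, ∀ᶠ l in ev a y, p (y :: l) :=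
  eventually_bind

theorem ev_length (a : ℕ) (x : V) : ∀ᶠ l in ev a x, l.length = a := by
  induction a generalizing x with
  | zero => exact ev_zero.2 rfl
  | succ a ih => exact ev_succ.2 (.of_forall fun y => (ih y).mono fun _ h => congrArg (· + 1) h)

theorem ev_last (a : ℕ) {x : V} {p : V → Prop} (h : ∀ᶠ y in 𝓝 x, p y) :
    ∀ᶠ l in ev a x, p (l.getLastD x) := by
  induction a generalizing x with
  | zero => exact ev_zero.2 h.self_of_nhds
  | succ a ih =>
    exact ev_succ.2 (h.eventually_nhds.mono fun y hy =>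
      (ih hy).mono fun l hl => by rwa [List.getLastD_cons])

theorem Ev.mono (h : Ev m P) (e : ∀ n z l, P n z l → Q n z l) : Ev m Q :=
  fun a y => (h a y).mono fun _ => e _ _ _

theorem Ev.and (h : Ev m P) (h' : Ev m Q) : Ev m fun n z l => P n z l ∧ Q n z l :=
  fun a y => (h a y).and (h' a y)

theorem Ev.of_forall (h : ∀ n ≤ m, ∀ z l, P n z l) : Ev m P :=
  fun a _ => Eventually.of_forall fun _ => h _ (by omega) _ _

/-- pointwise choice -/
theorem Ev.choice {B : Type} [Zero B] {P : ℤ → V → List V → B → Prop}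
    (h : Ev m fun n z l => ∃ b, P n z l b) :
    ∃ r : List V → B, r [] = 0 ∧ Ev m fun n z l => P n z l (r l) := by
  classical
  refine ⟨fun l => match l with
    | [] => 0
    | y :: l' => if h : ∃ b, P (m - l'.length) (l'.getLastD y) (y :: l') b then h.choose else 0,
    rfl, fun a y => ((h a y).and (ev_length a y)).mono ?_⟩
  rintro l ⟨h1, rfl⟩
  simp only [dif_pos h1]
  exact h1.choose_spec

theorem mem_R {r : List V → A} : r ∈ R S m ↔ r [] = 0 ∧ Ev m fun n z l => r l ∈ S n z := Iff.rfl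

theorem R_mono (h : S ≤ S') : R S ≤ R S' := fun _ _ hr => ⟨hr.1, hr.2.mono fun n z _ e => h n z e⟩

theorem R_mono' (h : ∀ n ≤ m, ∀ z, S n z ≤ S' n z) : R S m ≤ R S' m :=
  fun _ hr => ⟨hr.1, fun a y => (hr.2 a y).mono fun _ e => h _ (by omega) _ e⟩

theorem mem_R_inf {r : List V → A} (h : r ∈ R S m) (h' : r ∈ R S' m) : r ∈ R (S ⊓ S') m :=
  ⟨h.1, h.2.and h'.2⟩

theorem mem_R_sup {r : List V → A} (h : r ∈ R (S ⊔ S') m) : ∃ s ∈ R S m, r - s ∈ R S' m := by
  obtain ⟨s, h0, hs⟩ := Ev.choice (P := fun n z l b => b ∈ S n z ∧ r l - b ∈ S' n z)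
    (h.2.mono fun n z l e => by
      obtain ⟨x, hx, y, hy, e'⟩ := Submodule.mem_sup.1 e
      exact ⟨x, hx, by rwa [← e', add_sub_cancel_left]⟩)
  exact ⟨s, ⟨h0, hs.mono fun _ _ _ e => e.1⟩, by rw [Pi.sub_apply, h.1, h0, sub_zero],
    hs.mono fun _ _ _ e => e.2⟩

theorem pw_mem {T : Sys k V A'} {f : A →ₗ[k] A'} (h : ∀ n z, ∀ a ∈ S n z, f a ∈ T n z)
    {r : List V → A} (hr : r ∈ R S m) : pw f r ∈ R T m :=
  ⟨by rw [pw_apply, hr.1, map_zero], hr.2.mono fun n z _ e => h n z _ e⟩

theorem mem_Gam {a : A} : a ∈ Gam S m ↔ ∀ x, a ∈ S m x := Submodule.mem_iInf _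

theorem eps_mem {a : A} : (eps k a : List V → A) ∈ R S m ↔ a ∈ Gam S m := by
  rw [mem_Gam]
  refine ⟨fun h x => by simpa [eps_apply] using ev_zero.1 (h.2 0 x),
    fun h => ⟨by simp [eps_apply], fun b y => ?_⟩⟩
  cases b with
  | zero => exact ev_zero.2 (by simpa [eps_apply] using h y)
  | succ b => exact (ev_length _ y).mono fun l hl => by simp [eps_apply, hl]

/-- the simplicial differential keeps germs -/
theorem dG_ev (hS : Opn S) (n : ℤ) (a : ℕ) (x : V) (r : List V → A)
    (h : ∀ᶠ l in ev a x, r l ∈ S n (l.getLastD x)) :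
    ∀ᶠ l in ev (a + 1) x, dG k r l ∈ S n (l.getLastD x) := by
  induction a generalizing x r with
  | zero =>
    exact ev_succ.2 ((hS n x _ (ev_zero.1 h)).mono fun y hy =>
      ev_zero.2 (by simpa [dG_cons] using hy))
  | succ a ih =>
    have h1 := ev_succ.1 h
    simp only [List.getLastD_cons] at h1
    refine ev_succ.2 ((h1.and h1.eventually_nhds).mono fun y hy => ?_)
    have h2 : ∀ᶠ l in ev (a + 1) y, r l ∈ S n (l.getLastD y) :=
      ev_succ.2 (by simpa only [List.getLastD_cons] using hy.2)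
    exact (h2.and (ih y (tl k y r) hy.1)).mono fun l hl => by
      rw [dG_cons, List.getLastD_cons]
      exact sub_mem hl.1 hl.2

/-- the same for global sections -/
theorem dG_glob (hS : Opn S) (n : ℤ) (a : ℕ) (r : List V → A)
    (h : ∀ y, ∀ᶠ l in ev a y, r (y :: l) ∈ S n (l.getLastD y)) (y : V) :
    ∀ᶠ l in ev (a + 1) y, dG k r (y :: l) ∈ S n (l.getLastD y) := by
  have h2 : ∀ᶠ l in ev (a + 1) y, r l ∈ S n (l.getLastD y) :=
    ev_succ.2 (.of_forall fun z => by simpa only [List.getLastD_cons] using h z)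
  exact (h2.and (dG_ev hS n a y (tl k y r) (h y))).mono fun l hl => sub_mem hl.1 hl.2

theorem dG_mem_R (hS : Opn S) {r : List V → A} (h : r ∈ R S m) : dG k r ∈ R S (m + 1) := by
  refine ⟨rfl, fun a y => ?_⟩
  cases a with
  | zero => exact ev_zero.2 (by simp [dG_cons, h.1])
  | succ a =>
    rw [show m + 1 - (a + 1 : ℕ) = m - a by push_cast; ring]
    exact dG_glob hS _ a r (h.2 a) y

theorem R_cx (hS : Opn S) (hd : ∀ n x, ∀ a ∈ S n x, d a ∈ S (n + 1) x) : Cx (DD d) (R S) := by
  intro m r h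
  have h1 : (fun l => ((-1 : ℤ) ^ l.length) • d (r l)) ∈ R S (m + 1) := by
    refine ⟨by simp [h.1], fun a y => (h.2 a y).mono fun l hl => zsmul_mem ?_ _⟩
    rw [show m + 1 - a = m - a + 1 by ring]
    exact hd _ _ _ hl
  exact sub_mem (dG_mem_R hS h) h1

theorem SubS.R_cx {Dg : Gr k A} (h : SubS d Dg S) : Cx (DD d) (R S) := G.R_cx h.opn h.cx

theorem SubS.sup {Dg : Gr k A} (h : SubS d Dg S) (h' : SubS d Dg S') : SubS d Dg (S ⊔ S') := by
  refine ⟨fun n x => sup_le (h.le n x) (h'.le n x), fun n x a ha => ?_, fun n x a ha => ?_⟩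
  · obtain ⟨b, hb, c, hc, rfl⟩ := Submodule.mem_sup.1 ha
    exact ((h.opn n x b hb).and (h'.opn n x c hc)).mono fun y hy =>
      Submodule.add_mem_sup hy.1 hy.2
  · obtain ⟨b, hb, c, hc, rfl⟩ := Submodule.mem_sup.1 ha
    rw [map_add]
    exact Submodule.add_mem_sup (h.cx n x b hb) (h'.cx n x c hc)

theorem R_le_ME : R N ≤ ME N S := fun _ => le_sup_right

theorem ME_le (h : N ≤ S) : ME N S ≤ R S := fun m =>
  sup_le (Submodule.map_le_iff_le_comap.2 fun _ ha => eps_mem.2 ha) (R_mono h m)

theorem ME_mono (h : S ≤ S') : ME N S ≤ ME N S' := fun m =>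
  sup_le_sup_right (Submodule.map_mono (iInf_mono (h m))) _

theorem mem_ME {r : List V → A} : r ∈ ME N S m ↔ ∃ a ∈ Gam S m, r - eps k a ∈ R N m := by
  constructor
  · intro h
    obtain ⟨_, ⟨b, hb, rfl⟩, y, hy, rfl⟩ := Submodule.mem_sup.1 h
    exact ⟨b, hb, by rwa [add_sub_cancel_left]⟩
  · rintro ⟨b, hb, h⟩
    exact Submodule.mem_sup.2 ⟨_, ⟨b, hb, rfl⟩, _, h, add_sub_cancel _ _⟩

end Pool.Agent.PWD.G
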