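import Pool.Agent.P.MP_65ad7c_ag.DGD1

/-! G1: local acyclicity passes to the Godement complex. -/

open Set Filter Topology

noncomputable section
namespace Pool.Agent.PWD.G

variable {k V A A' : Type} [Ring k] [AddCommGroup A] [Module k A] [AddCommGroup A'] [Module k A']
  [TopologicalSpace V] {d : A →ₗ[k] A} {Dg : Gr k A} {S S' : Sys k V A}

theorem dgd2_step (hS : SubS d Dg S) (h : LA d S S') {m : ℤ} {x : List V → A} (hx : x ∈ R S' m)
    (hd : DD d x ∈ R S (m + 1)) (j : ℕ)
    (ih : ∀ a < j, ∀ y, ∀ᶠ l in ev a y, x (y :: l) ∈ S (m - a) (l.getLastD y)) :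
    ∃ u ∈ R S' (m - 1), ∀ a < j + 1, ∀ y,
      ∀ᶠ l in ev a y, (x - DD d u) (y :: l) ∈ S (m - a) (l.getLastD y) := by
  classical
  have h1 : ∀ y, ∀ᶠ l in ev j y, dG k x (y :: l) ∈ S (m + 1 - j) (l.getLastD y) := by
    intro y
    cases j with
    | zero =>
      refine ev_zero.2 ?_
      rw [dG_cons, dG_nil, hx.1, sub_zero]
      exact zero_mem _
    | succ a =>
      have := dG_glob hS.opn (m - a) a x (ih a (Nat.lt_succ_self a)) y
      rwa [show m + 1 - ((a + 1 : ℕ) : ℤ) = m - a by push_cast; ring]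
  have h2 : Ev (m - 1) fun n z l =>
      ∃ b, b ∈ S' n z ∧ (l.length = j + 1 → x l - d b ∈ S (n + 1) z) := by
    intro a y
    by_cases ha : a = j
    · subst ha
      filter_upwards [h1 y, hd.2 a y, hx.2 a y] with l e1 e2 e3
      have e4 : ((-1 : ℤ) ^ (y :: l).length) • d (x (y :: l)) ∈ S (m + 1 - a) (l.getLastD y) := by
        have := sub_mem e1 e2
        rwa [DD_apply, sub_sub_cancel] at this
      have e5 : d (x (y :: l)) ∈ S (m - a + 1) (l.getLastD y) := by
        rw [show m - a + 1 = m + 1 - a by ring]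
        rcases neg_one_pow_eq_or ℤ (y :: l).length with e | e
        · rwa [e, one_smul] at e4
        · rwa [e, neg_smul, one_smul, neg_mem_iff] at e4
      obtain ⟨b, hb, e6⟩ := h _ (m - a) _ e3 e5
      refine ⟨b, ?_, fun _ => ?_⟩
      · rwa [show m - 1 - a = m - a - 1 by ring]
      · rwa [show m - 1 - a + 1 = m - a by ring]
    · filter_upwards [ev_length a y] with l e
      exact ⟨0, zero_mem _, fun e' => absurd (by simpa [e] using e') ha⟩
  obtain ⟨u, -, hu⟩ := h2.choice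
  obtain ⟨w, hw⟩ : ∃ w : List V → A,
      ∀ l, w l = if l.length = j + 1 then -((-1 : ℤ) ^ (j + 1)) • u l else 0 := ⟨_, fun _ => rfl⟩
  have h3 : ∀ l : List V, l.length ≤ j + 1 → dG k w l = 0 := fun l hl =>
    dG_mem ⊥ fun l' hl' => by rw [hw, if_neg (by omega)]; rfl
  refine ⟨w, ⟨by rw [hw, if_neg (by simp)], hu.mono fun n z l e => ?_⟩, fun a ha y => ?_⟩
  · rw [hw]
    split_ifs
    · exact zsmul_mem e.1 _
    · exact zero_mem _
  · rcases Nat.lt_succ_iff_lt_or_eq.1 ha with ha' | rfl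
    · filter_upwards [ev_length a y, ih a ha' y] with l e1 e2
      rwa [Pi.sub_apply, DD_apply, h3 _ (by simp; omega), hw, if_neg (by simp; omega), map_zero,
        smul_zero, sub_zero, sub_zero]
    · filter_upwards [ev_length a y, hu a y] with l e1 e2
      have e3 : (y :: l).length = a + 1 := by simp [e1]
      have e4 := e2.2 e3
      rw [show m - 1 - a + 1 = m - a by ring] at e4
      rwa [Pi.sub_apply, DD_apply, h3 _ e3.le, hw, if_pos e3, e3, map_zsmul, smul_smul, mul_neg,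
        ← mul_pow, neg_mul_neg, one_mul, one_pow, neg_smul, one_smul, zero_sub, neg_neg]

theorem g1 (dd : ∀ a, d (d a) = 0) (h0 : ∀ n < 0, Dg n ≤ ⊥) (hS : SubS d Dg S) (hS' : SubS d Dg S')
    (h : LA d S S') : AC (DD d) (R S) (R S') := by
  intro m x hx hd
  have key : ∀ j : ℕ, ∃ u ∈ R S' (m - 1), ∀ a < j, ∀ y,
      ∀ᶠ l in ev a y, (x - DD d u) (y :: l) ∈ S (m - a) (l.getLastD y) := by
    intro j
    induction j with
    | zero => exact ⟨0, zero_mem _, fun a ha => absurd ha (Nat.not_lt_zero a)⟩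
    | succ j ih =>
      obtain ⟨u, hu, ih⟩ := ih
      obtain ⟨w, hw, e⟩ := dgd2_step hS h (sub_mem hx (hS'.R_cx.pred hu))
        (by rwa [map_sub, DD_DD dd, sub_zero]) j ih
      exact ⟨u + w, add_mem hu hw, by rwa [map_add, ← sub_sub]⟩
  obtain ⟨u, hu, e⟩ := key (m.toNat + 1)
  have hx' := sub_mem hx (hS'.R_cx.pred hu)
  refine ⟨u, hu, hx'.1, fun a y => ?_⟩
  rcases lt_or_ge a (m.toNat + 1) with ha | ha
  · exact e a ha y
  · filter_upwards [hx'.2 a y] with l e1
    have e2 : (x - DD d u) (y :: l) = 0 := h0 _ (by omega) (hS'.le _ _ e1)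
    rw [e2]
    exact zero_mem _

end Pool.Agent.PWD.G
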