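import Pool.Agent.P.MP_65ad7c_ag.DGD1

/-! G2: fine systems are computed by their global sections. -/

open Set Filter Topology

noncomputable section
namespace Pool.Agent.PWD.G

variable {k V A A' : Type} [Ring k] [AddCommGroup A] [Module k A] [AddCommGroup A'] [Module k A']
  [TopologicalSpace V] {d : A →ₗ[k] A} {Dg : Gr k A} {N S : Sys k V A}

theorem dgd3_glue {ι : Type} {F : ι → Set V} {σ : (ι → A) →ₗ[k] A} (hG : Glue Dg F σ S)
    (h1 : ∀ z, {i | z ∈ F i}.Finite) (h2 : ∀ z, ∀ᶠ w in 𝓝 z, ∀ i, w ∈ F i → z ∈ F i) {n : ℤ}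
    {s : ι → List V → A} (hs : ∀ i l, s i l ∈ Dg n) {b : ℕ} {y : V}
    (h : ∀ i, y ∈ F i → ∀ᶠ l in ev b y, s i l ∈ S n (l.getLastD y)) :
    ∀ᶠ l in ev b y, σ (fun i => s i l) ∈ S n (l.getLastD y) := by
  filter_upwards [(eventually_all_finite (h1 y)).2 h, ev_last b (h2 y)] with l h3 h4
  exact hG n _ _ (fun i => hs i l) fun i hi => h3 i (h4 i hi)

omit [TopologicalSpace V] in
theorem dgd3_eq {ι : Type} (pt : ι → V) {σ : (ι → A) →ₗ[k] A} (hσ : ∀ a, σ (fun _ => a) = a)
    (r : List V → A) (l : List V) :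
    r l - dG k (fun l => σ fun i => r (pt i :: l)) l = σ fun i => dG k r (pt i :: l) := by
  have e1 : dG k (fun l => σ fun i => r (pt i :: l)) l = σ (dG k (fun l i => r (pt i :: l)) l) :=
    congrFun (dG_pw σ fun l i => r (pt i :: l)) l
  have e2 : dG k (fun l i => r (pt i :: l)) l = fun i => dG k (tl k (pt i) r) l := funext fun i =>
    (congrFun (dG_pw (LinearMap.proj i : (ι → A) →ₗ[k] A) fun l i => r (pt i :: l)) l).symm
  rw [e1, e2]
  conv_lhs => rw [← hσ (r l), ← map_sub]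
  rfl

/-- exactness of a column -/
theorem col (hN : Opn N) (hS : Opn S) (hle : ∀ n x, S n x ≤ Dg n) (hf : FineS Dg N S) (n : ℤ) (a : ℕ)
    (r : List V → A) (hr : ∀ y, ∀ᶠ l in ev a y, r (y :: l) ∈ S n (l.getLastD y))
    (hd : ∀ y, ∀ᶠ l in ev (a + 1) y, dG k r (y :: l) ∈ N n (l.getLastD y)) :
    ∃ u : List V → A, (a = 0 → u [] ∈ Gam S n) ∧
      (∀ b, a = b + 1 → ∀ y, ∀ᶠ l in ev b y, u (y :: l) ∈ S n (l.getLastD y)) ∧
      ∀ y, ∀ᶠ l in ev a y, (r - dG k u) (y :: l) ∈ N n (l.getLastD y) := by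
  classical
  obtain ⟨r', h1, h2⟩ : ∃ r' : List V → A, (∀ l, r' l ∈ Dg n) ∧ ∀ l, r l ∈ Dg n → r' l = r l :=
    ⟨fun l => if r l ∈ Dg n then r l else 0, fun l => by
      by_cases h : r l ∈ Dg n
      · simpa only [if_pos h] using h
      · simp only [if_neg h, zero_mem], fun l h => if_pos h⟩
  have he : ∀ y, ∀ᶠ l in ev a y, r' (y :: l) = r (y :: l) := fun y =>
    (hr y).mono fun l h => h2 _ (hle _ _ h)
  have hr' : ∀ y, ∀ᶠ l in ev a y, r' (y :: l) ∈ S n (l.getLastD y) := fun y => by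
    filter_upwards [he y, hr y] with l e h using e ▸ h
  have hd' : ∀ y, ∀ᶠ l in ev (a + 1) y, dG k r' (y :: l) ∈ N n (l.getLastD y) := fun y => by
    have := dG_glob (S := (⊥ : Sys k V A)) (fun _ _ _ h => Eventually.of_forall fun _ => h) n a
      (r' - r) (fun y => (he y).mono fun l h => sub_eq_zero.2 h) y
    filter_upwards [this, hd y] with l e h
    rw [map_sub] at e
    exact (sub_eq_zero.1 e : dG k r' (y :: l) = dG k r (y :: l)) ▸ h
  obtain ⟨ι, pt, F, σ, f1, f2, f3, f4, gN, gS⟩ := hf (fun y => {z | (a = 0 → r' [y] ∈ S n z) ∧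
    (∀ b, a = b + 1 → ∀ᶠ l in ev b z, r' (y :: z :: l) ∈ S n (l.getLastD z)) ∧
    ∀ᶠ l in ev a z, dG k r' (y :: z :: l) ∈ N n (l.getLastD z)}) fun y => by
      have h3 := ev_succ.1 (hd' y)
      simp only [List.getLastD_cons] at h3
      cases a with
      | zero =>
        filter_upwards [h3, hS n y _ (ev_zero.1 (hr' y))] with z h4 h5
        exact ⟨fun _ => h5, fun b hb => absurd hb (by omega), h4⟩
      | succ c =>
        have h5 := ev_succ.1 (hr' y)
        simp only [List.getLastD_cons] at h5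
        filter_upwards [h3, h5] with z h4 h6
        exact ⟨fun h => absurd h (by omega), fun b hb => (Nat.succ_inj.1 hb : c = b) ▸ h6, h4⟩
  refine ⟨fun l => σ fun i => r' (pt i :: l), fun ha => mem_Gam.2 fun z =>
    gS n z _ (fun i => h1 _) fun i hi => (f3 i hi).1 ha, fun b hb y =>
    dgd3_glue gS f1 f2 (s := fun i l => r' (pt i :: y :: l)) (fun i l => h1 _)
      fun i hi => (f3 i hi).2.1 b hb, fun y => ?_⟩
  filter_upwards [he y, dgd3_glue gN f1 f2 (s := fun i l => dG k r' (pt i :: y :: l))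
    (fun i l => dG_mem _ fun l' _ => h1 l') fun i hi => (f3 i hi).2.2] with l e h
  rwa [Pi.sub_apply, ← e, dgd3_eq pt f4]

theorem dgd3_col (hN : SubS d Dg N) (hS : SubS d Dg S) (hf : FineS Dg N S) {m : ℤ}
    {x : List V → A} {a : A} (hx : x ∈ R S m) (ha : DD d x - eps k a ∈ R N (m + 1)) (j : ℕ)
    (hj : ∀ y, ∀ᶠ l in ev (j + 1) y, x (y :: l) ∈ N (m - (j + 1 : ℕ)) (l.getLastD y)) :
    ∃ u : List V → A, (j = 0 → u [] ∈ Gam S (m - j)) ∧
      (∀ b, j = b + 1 → ∀ y, ∀ᶠ l in ev b y, u (y :: l) ∈ S (m - j) (l.getLastD y)) ∧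
      ∀ y, ∀ᶠ l in ev j y, (x - dG k u) (y :: l) ∈ N (m - j) (l.getLastD y) := by
  refine col hN.opn hS.opn hS.le hf _ j x (hx.2 j) fun y => ?_
  filter_upwards [ha.2 (j + 1) y, hj y, ev_length (j + 1) y] with l h1 h2 h3
  have e1 : m + 1 - (j + 1 : ℕ) = m - j := by push_cast; ring
  have e2 : m - (j + 1 : ℕ) + 1 = m - j := by push_cast; ring
  have h4 := hN.cx _ _ _ h2
  rw [e2] at h4
  rw [e1, Pi.sub_apply, eps_apply, if_neg (by simp [h3]), sub_zero, DD_apply] at h1
  have := add_mem h1 (zsmul_mem h4 ((-1) ^ (y :: l).length))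
  rwa [sub_add_cancel] at this

theorem g2 (dd : ∀ a, d (d a) = 0) (h0 : ∀ n < 0, Dg n ≤ ⊥) (hN : SubS d Dg N) (hS : SubS d Dg S)
    (hle : N ≤ S) (hf : FineS Dg N S) : AC (DD d) (ME N S) (R S) := by
  intro m x hx hd
  obtain ⟨a, -, ha⟩ := mem_ME.1 hd
  have hx' : ∀ y ∈ R S (m - 1), x - DD d y ∈ R S m ∧
      DD d (x - DD d y) - eps k a ∈ R N (m + 1) := fun y hy =>
    ⟨sub_mem hx (hS.R_cx.pred hy), by rwa [map_sub, DD_DD dd, sub_zero]⟩
  have key : ∀ t j : ℕ, j + t = m.toNat → ∃ y ∈ R S (m - 1), ∀ b, j + 1 ≤ b → ∀ z,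
      ∀ᶠ l in ev b z, (x - DD d y) (z :: l) ∈ N (m - b) (l.getLastD z) := by
    intro t
    induction t with
    | zero =>
      refine fun j hj => ⟨0, zero_mem _, fun b hb z => (hx.2 b z).mono fun l h => ?_⟩
      have : x (z :: l) = 0 := h0 _ (by omega) (hS.le _ _ h)
      rw [map_zero, sub_zero, this]
      exact zero_mem _
    | succ t ih =>
      intro j hj
      obtain ⟨y, hy, h1⟩ := ih (j + 1) (by omega)
      obtain ⟨u, -, h2, h3⟩ := dgd3_col hN hS hf (hx' y hy).1 (hx' y hy).2 (j + 1) (h1 _ le_rfl)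
      obtain ⟨u', u1, u2⟩ : ∃ u' : List V → A, (∀ l, l.length = j + 1 → u' l = u l) ∧
          ∀ l, l.length ≠ j + 1 → u' l = 0 :=
        ⟨fun l => if l.length = j + 1 then u l else 0, fun l h => if_pos h, fun l h => if_neg h⟩
      refine ⟨y + u', add_mem hy ⟨u2 _ (by simp), fun c z => ?_⟩, fun b hb z => ?_⟩
      · by_cases hc : c = j
        · subst hc
          filter_upwards [h2 c rfl z, ev_length c z] with l h4 h5
          have e : m - 1 - c = m - (c + 1 : ℕ) := by push_cast; ring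
          rwa [u1 _ (by simp [h5]), e]
        · filter_upwards [ev_length c z] with l h5
          rw [u2 _ (by simpa [h5] using hc)]
          exact zero_mem _
      · have e : ∀ l : List V, l.length = b →
            (x - DD d (y + u')) (z :: l) = (x - DD d y) (z :: l) - dG k u' (z :: l) := fun l hl => by
          rw [map_add, ← sub_sub, Pi.sub_apply, DD_apply u', u2 _ (by simp; omega), map_zero,
            smul_zero, sub_zero]
        rcases hb.eq_or_lt with rfl | hb'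
        · filter_upwards [h3 z, ev_length (j + 1) z] with l h4 h5
          rwa [e l h5, dG_congr (r' := u) fun l' hl' => u1 l' (by simpa [h5] using hl')]
        · filter_upwards [h1 b hb' z, ev_length b z] with l h4 h5
          rwa [e l h5, dG_congr (r' := 0) fun l' hl' => u2 l' (by simp [h5] at hl'; omega),
            map_zero, Pi.zero_apply, sub_zero]
  obtain ⟨y, hy, h1⟩ := key m.toNat 0 (zero_add _)
  obtain ⟨u, h2, -, h3⟩ := dgd3_col hN hS hf (hx' y hy).1 (hx' y hy).2 0 (h1 _ le_rfl)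
  refine ⟨y, hy, mem_ME.2 ⟨u [], by simpa using h2 rfl, ?_, fun b z => ?_⟩⟩
  · rw [Pi.sub_apply, (hx' y hy).1.1, eps_apply, if_neg (by simp), sub_zero]
  · cases b with
    | zero =>
      have h4 := ev_zero.1 (h3 z)
      rw [Pi.sub_apply, dG_cons, dG_nil, sub_zero] at h4
      refine ev_zero.2 ?_
      beta_reduce
      rwa [Pi.sub_apply, eps_apply, if_pos (by simp)]
    | succ b =>
      filter_upwards [h1 (b + 1) (by omega) z, ev_length (b + 1) z] with l h4 h5
      rwa [Pi.sub_apply, eps_apply, if_neg (by simp [h5]), sub_zero]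

end Pool.Agent.PWD.G
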