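import Pool.Agent.P.MP_65ad7c_ag.DGC

/-! From the logarithmic complex to the full complex. -/

open Set Filter Topology

noncomputable section
namespace Pool.Agent.PWD.G

variable {k V A A' : Type} [Ring k] [AddCommGroup A] [Module k A] [AddCommGroup A'] [Module k A']
  {D κ : A →ₗ[k] A} {Dg : Gr k A} {L F : ℤ → Gr k A} {H G : ℤ → ℤ → Submodule k (A × A)}

theorem DGT_aux {Z' B' B X Y : Submodule k A} (hZ : Z' ⊓ B ≤ B') (hX : X ≤ Z') (hY : Y ≤ Z')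
    (hB : B' ≤ Y) {x : A} (h1 : x ∈ X ⊔ B) (h2 : x ∈ Y ⊔ B) : ∃ a ∈ X ⊓ Y, x - a ∈ B := by
  obtain ⟨a, ha, b, hb, rfl⟩ := Submodule.mem_sup.1 h1
  obtain ⟨a', ha', b', hb', e⟩ := Submodule.mem_sup.1 h2
  have e' : a - a' = b' - b := by rw [sub_eq_sub_iff_add_eq_add, ← e, add_comm]
  have h3 : a - a' ∈ B' := hZ ⟨sub_mem (hX ha) (hY ha'), by rw [e']; exact sub_mem hb' hb⟩
  refine ⟨a, ⟨ha, ?_⟩, by rwa [add_sub_cancel_left]⟩
  have := add_mem (hB h3) ha'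
  rwa [sub_add_cancel] at this

theorem DGT_ext {Z' B' B : Submodule k A} {W' F' Fb' : ℤ → Submodule k A}
    (h : MHS Z' B' W' F' Fb') (hZ : Z' ⊓ B ≤ B') (hB : B' ≤ B) :
    MHS (Z' ⊔ B) B (fun j => W' j ⊔ B) (fun p => F' p ⊔ B) fun p => Fb' p ⊔ B where
  W_mono _ _ e := sup_le_sup_right (h.W_mono e) _
  F_anti _ _ e := sup_le_sup_right (h.F_anti e) _
  Fb_anti _ _ e := sup_le_sup_right (h.Fb_anti e) _
  B_W _ := le_sup_right
  B_F _ := le_sup_right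
  B_Fb _ := le_sup_right
  W_Z j := sup_le_sup_right (h.W_Z j) _
  F_Z j := sup_le_sup_right (h.F_Z j) _
  Fb_Z j := sup_le_sup_right (h.Fb_Z j) _
  W_bot := h.W_bot.imp fun _ e => sup_le (e.trans hB) le_rfl
  W_top := h.W_top.imp fun _ e => sup_le_sup_right e _
  F_bot := h.F_bot.imp fun _ e => sup_le (e.trans hB) le_rfl
  F_top := h.F_top.imp fun _ e => sup_le_sup_right e _
  span j p := sup_le ((h.span j p).trans (sup_le_sup (sup_le_sup
    (inf_le_inf le_sup_left le_sup_left) (inf_le_inf le_sup_left le_sup_left)) le_sup_left))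
    (le_sup_of_le_right le_sup_right)
  disj j p x hx y hy hxy := by
    obtain ⟨a, ha, h1⟩ := DGT_aux hZ (h.F_Z p) (h.W_Z j) (h.B_W j) hx.1 hx.2
    obtain ⟨c, hc, h2⟩ := DGT_aux hZ (h.Fb_Z _) (h.W_Z j) (h.B_W j) hy.1 hy.2
    obtain ⟨w, hw, b, hb, e⟩ := Submodule.mem_sup.1 hxy
    have e' : a - c - w = b - (x - a) + (y - c) := by
      have : w = x - y - b := by rw [← e, add_sub_cancel_right]
      rw [this]; abel
    have h3 : a - c - w ∈ B' := hZ ⟨sub_mem (sub_mem (h.W_Z j ha.2) (h.W_Z j hc.2)) (h.W_Z _ hw),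
      by rw [e']; exact add_mem (sub_mem hb h1) h2⟩
    have h4 : a - c ∈ W' (j - 1) := by
      have := add_mem (h.B_W (j - 1) h3) hw
      rwa [sub_add_cancel] at this
    exact Submodule.mem_sup.2 ⟨a, h.disj j p a ha c hc h4, x - a, h1, add_sub_cancel _ _⟩

theorem DGT_κB (t : Top D κ Dg L H) (n : ℤ) {b : A} (hb : b ∈ (Dg (n - 1)).map D) :
    κ b ∈ (Dg (n - 1)).map D := by
  obtain ⟨c, hc, rfl⟩ := hb
  exact ⟨κ c, t.κ_Dg _ c hc, (t.κD c).symm⟩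

theorem DGT_Zc (X : Gr k A) (n : ℤ) : Zc D X ⊥ n = X n ⊓ LinearMap.ker D := rfl

theorem Top.mhs (h : Alg D L F H G) (t : Top D κ Dg L H) (n : ℤ) :
    MHS (Dg n ⊓ LinearMap.ker D) ((Dg (n - 1)).map D)
      (fun j => L (j - n) n ⊓ LinearMap.ker D ⊔ (Dg (n - 1)).map D)
      (fun p => (F p n ⊓ L n n) ⊓ LinearMap.ker D ⊔ (Dg (n - 1)).map D)
      (fun p => ((F p n ⊓ L n n) ⊓ LinearMap.ker D ⊔ (Dg (n - 1)).map D).map κ) := by
  have hB : Bd D (L (n + 1)) ⊥ n ≤ (Dg (n - 1)).map D := by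
    rw [Bd_bot]; exact Submodule.map_mono (t.L_le _ _)
  have hZ : Zc D (L (n + 1)) ⊥ n ⊓ (Dg (n - 1)).map D ≤ Bd D (L (n + 1)) ⊥ n := fun a ha => by
    rw [Bd_bot]; exact t.inj n a ha.1.1 ha.2
  have m0 := (h.stp (n + 1)).1 n
  have m := DGT_ext m0 hZ hB
  have hL : ∀ q, n ≤ q → L q n = L n n := fun q hq =>
    le_antisymm (t.L_top q n hq) (h.L_mono hq n)
  have eZ : Zc D (L (n + 1)) ⊥ n ⊔ (Dg (n - 1)).map D = Dg n ⊓ LinearMap.ker D := by
    refine le_antisymm (sup_le (fun a ha => ⟨t.L_le _ _ ha.1, ha.2⟩) ?_) fun a ha => ?_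
    · rintro _ ⟨c, hc, rfl⟩
      exact ⟨t.Dg_cx.pred hc, h.dd c⟩
    · obtain ⟨b, hb, h1⟩ := t.surj n a ha.1 ha.2
      refine Submodule.mem_sup.2 ⟨b, ⟨hb, ?_⟩, a - b, h1, add_sub_cancel _ _⟩
      obtain ⟨c, -, e⟩ := h1
      have e1 : b = a - D c := by rw [e, sub_sub_cancel]
      have e2 : D a = 0 := ha.2
      show D b = 0
      rw [e1, map_sub, e2, h.dd, sub_zero]
  have eW : (fun j => hW D L (n + 1) n j ⊔ (Dg (n - 1)).map D) =
      fun j => L (j - n) n ⊓ LinearMap.ker D ⊔ (Dg (n - 1)).map D := by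
    funext j
    have : L (min (n + 1) (j - n)) n = L (j - n) n := by
      rcases le_total (j - n) (n + 1) with e | e
      · rw [min_eq_right e]
      · rw [min_eq_left e, hL (n + 1) (by omega), hL (j - n) (by omega)]
    rw [hW, sup_assoc, sup_eq_right.2 hB, DGT_Zc, this]
  have eF : ∀ p, hF D L F (n + 1) n p ⊔ (Dg (n - 1)).map D =
      (F p n ⊓ L n n) ⊓ LinearMap.ker D ⊔ (Dg (n - 1)).map D := by
    intro p
    rw [hF, sup_assoc, sup_eq_right.2 hB, DGT_Zc, Pi.inf_apply, hL _ (by omega)]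
  have eFb : ∀ p, cjg (H (n + 1) n) (hF D L F (n + 1) n p) ⊔ (Dg (n - 1)).map D =
      ((F p n ⊓ L n n) ⊓ LinearMap.ker D ⊔ (Dg (n - 1)).map D).map κ := by
    intro p
    rw [← eF]
    refine le_antisymm (sup_le (fun b hb => ?_) fun b hb => ?_) ?_
    · obtain ⟨a, ha, hab⟩ := mem_cjg.1 hb
      refine ⟨a + κ (b - κ a), Submodule.add_mem_sup ha (DGT_κB t n (t.conj _ _ _ _ hab)), ?_⟩
      rw [map_add, t.κκ, add_sub_cancel]
    · exact ⟨κ b, Submodule.mem_sup_right (DGT_κB t n hb), t.κκ b⟩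
    · rintro _ ⟨x, hx, rfl⟩
      obtain ⟨a, ha, c, hc, rfl⟩ := Submodule.mem_sup.1 hx
      obtain ⟨b, hab⟩ := (h.H_inv (n + 1) n).total a (m0.F_Z p ha)
      refine Submodule.mem_sup.2 ⟨b, mem_cjg.2 ⟨a, ha, hab⟩, κ c - (b - κ a),
        sub_mem (DGT_κB t n hc) (t.conj _ _ _ _ hab), ?_⟩
      rw [map_add]; abel
  rw [eZ, eW, funext eF, funext eFb] at m
  exact m

theorem Top.κ_W (h : Alg D L F H G) (t : Top D κ Dg L H) (n q : ℤ) :
    (L q n ⊓ LinearMap.ker D ⊔ (Dg (n - 1)).map D).map κ ≤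
      L q n ⊓ LinearMap.ker D ⊔ (Dg (n - 1)).map D := by
  rintro _ ⟨x, hx, rfl⟩
  obtain ⟨a, ha, c, hc, rfl⟩ := Submodule.mem_sup.1 hx
  obtain ⟨b, hab⟩ := (h.H_inv q n).total a ha
  refine Submodule.mem_sup.2 ⟨b, (h.H_inv q n).le' hab, κ c - (b - κ a),
    sub_mem (DGT_κB t n hc) (t.conj _ _ _ _ hab), ?_⟩
  rw [map_add]; abel

end Pool.Agent.PWD.G
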