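import Pool.Agent.P.MP_65ad7c_ag.DGE2
import Pool.Agent.P.MP_65ad7c_ag.DGT

/-! A mixed Hodge complex of germ systems gives the algebraic data. -/

open Set Filter Topology

noncomputable section
namespace Pool.Agent.PWD.G

variable {k V A A' : Type} [Ring k] [AddCommGroup A] [Module k A] [AddCommGroup A'] [Module k A']
  [TopologicalSpace V] (K : GH k V A)

namespace GH

theorem DGE_bot {q : ℤ} (h : K.W q ≤ K.Nul) : K.L q = ⊥ := by
  funext n
  rw [K.L_eq]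
  exact le_bot_iff.1 (le_trans (iInf_mono fun x => h n x) (K.Nul_sep n))

theorem DGE_eps {q m : ℤ} (h : m < q) {a : A} (ha : a ∈ K.Dg m) :
    (eps k a : List V → A) ∈ R (K.W q ⊔ K.τ q) m :=
  R_mono' (S := fun n _ => K.Dg n)
    (fun n hn z => (K.τ_top q n z (hn.trans_lt h)).trans le_sup_right)
    (eps_mem.2 (mem_Gam.2 fun _ => ha))

theorem DGE_GB (p q m : ℤ) {f g h : A} (hf : f ∈ Zc K.d (K.F p ⊓ K.L q) (K.L (q - 1)) m)
    (hg : g ∈ Zc K.d (K.F (m + q - p + 1) ⊓ K.L q) (K.L (q - 1)) m)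
    (hgh : (g, h) ∈ K.Rel q (q - 1) m) (e : f - h ∈ Bd K.d (K.L q) (K.L (q - 1)) m) :
    f ∈ Bd K.d (K.L q) (K.L (q - 1)) m := by
  obtain ⟨g', hg', z, hz, h1, h2⟩ := K.conj _ q m g hg.1 hg.2
  have h3 : K.d g'.1 ∈ K.L (q - 1) (m + 1) := by
    have h4 := K.L_cx _ _ _ h2
    rw [map_sub, K.dd, sub_zero, map_sub] at h4
    have h5 := sub_mem (mem_Zc.1 hg).2 h4
    rwa [sub_sub_cancel] at h5
  have h4 := (K.rel_inv (by omega : q - 1 ≤ q) m).sub hgh (K.kc hg' h3) (mem_Bd.2 ⟨z, hz, h2⟩)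
  have h5 := add_mem e h4
  rw [sub_add_sub_cancel] at h5
  obtain ⟨z', hz', h6⟩ := mem_Bd.1 h5
  exact mem_Bd.2 (K.disj p q m f hf.1 g' hg' z' hz' h1 hf.2 h3 h6)

theorem exists_alg : ∃ H G, Alg K.d K.L K.F H G ∧ Top K.d K.κ K.Dg K.L H := by
  obtain ⟨q₀, h0, h1⟩ := K.bot
  have hW : ∀ q, K.W (min q q₀) ≤ K.Nul := fun q => (K.W_mono (min_le_right _ _)).trans h0
  have hτ : ∀ q, K.τ (min q q₀) ≤ K.Nul := fun q => (K.τ_mono (min_le_right _ _)).trans h1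
  refine ⟨fun q m => K.Rel q (min (q - 1) q₀) m, fun q m => K.Rel q (q - 1) m,
    ⟨K.dd, K.L_cx, K.L_mono, ⟨q₀, fun n => by rw [K.DGE_bot h0]; exact le_rfl⟩, K.FL_cx, K.F_anti,
      fun q n => (K.L_le q n).trans (K.F_top n),
      fun q n => (inf_le_inf_left _ (K.L_le q n)).trans (K.F_bot n), fun q m => ?_,
      fun q m => K.rel_inv (by omega) m, fun q q' m e => K.rel_mono e (by omega) m,
      fun q m => K.rel_mono le_rfl (min_le_left _ _) m, fun q m a b h => K.rel_d _ m h,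
      fun p q m x hx h => ?_, fun p q m x hx => ?_,
      fun p q m f hf g hg h hgh e => K.DGE_GB p q m hf hg hgh e⟩,
    ⟨K.κκ, K.κd, K.κ_Dg, K.Dg_cx, K.L_le, K.L_top, fun m a ha hd => ?_, fun m a ha hc => ?_,
      fun q m a b h => K.rel_conj (hW _) (hτ _) h⟩⟩
  · rw [← K.DGE_bot (hW (q - 1))]
    exact K.rel_inv (by omega) m
  · obtain ⟨z, hz, h2⟩ := mem_Bd.1 h
    obtain ⟨z', hz', h3⟩ := K.strict p q m x hx z hz h2
    exact mem_Bd.2 ⟨z', hz', sub_mem hx.1 ((K.FL_cx p q).pred hz').1, h3⟩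
  · obtain ⟨f, hf, g, hg, z, hz, h2, h3, h4, h5⟩ := K.span p q m x hx.1 hx.2
    have h6 := K.kc (a := g.1) (b := g.2) hg h4
    exact ⟨f, ⟨hf, h3⟩, g.1, ⟨⟨h2, h6.1.1⟩, h4⟩, g.2, h6, mem_Bd.2 ⟨z, hz, h5⟩⟩
  · obtain ⟨b, hb, h2⟩ := K.exists_eps (q := m + 1) (q' := min m q₀) (m := m) (by omega)
      (r := eps k a) (mem_Zc.2 ⟨K.DGE_eps (by omega) ha, by
        rw [DD_eps, hd, map_zero]
        exact zero_mem _⟩)
    refine ⟨b, hb.1, ?_⟩
    rw [← map_sub] at h2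
    rw [← neg_sub b a]
    refine neg_mem (K.bd_of_eps_Dg (sub_mem (K.L_le _ _ hb.1) ha) (Bd_mono (R_mono ?_)
      (R_mono (sup_le (hW m) (hτ m))) h2))
    exact sup_le (fun n x => (K.W_sub _).le n x) fun n x => (K.τ_sub _).le n x
  · obtain ⟨c, hc, rfl⟩ := hc
    have h2 := K.bd_of_eps (q := m + 1) (q' := min m q₀) (m := m) (by omega) (a := K.d c)
      (mem_Zc.2 ⟨ha, by
        rw [K.dd]
        exact zero_mem _⟩) (by
        rw [← DD_eps]
        exact d_mem_Bd (K.DGE_eps (by omega) hc))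
    rwa [K.DGE_bot (hW m), Bd_bot] at h2

end GH

end Pool.Agent.PWD.G
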