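import Pool.Agent.P.MP_65ad7c_ag.DGD2
import Pool.Agent.P.MP_65ad7c_ag.DGD3

/-! The conjugation on the cohomology of the logarithmic subcomplexes. -/

open Set Filter Topology

noncomputable section
namespace Pool.Agent.PWD.G

variable {k V A A' : Type} [Ring k] [AddCommGroup A] [Module k A] [AddCommGroup A'] [Module k A']
  [TopologicalSpace V] (K : GH k V A)

theorem dge1_d_Bd {d : A →ₗ[k] A} (dd : ∀ a, d (d a) = 0) {X Y : Gr k A} (Y₀ : Gr k A) {m : ℤ}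
    {a : A} (h : a ∈ Bd d X Y m) : d a ∈ Bd d Y Y₀ (m + 1) := by
  obtain ⟨b, -, h1⟩ := mem_Bd.1 h
  have h2 := d_mem_Bd' (d := d) (Y := Y₀) h1
  rwa [map_sub, dd, sub_zero] at h2

theorem dge1_eps_ME {N S : Sys k V A} {m : ℤ} {a : A} (h : a ∈ Gam S m) :
    (eps k a : List V → A) ∈ ME N S m :=
  mem_ME.2 ⟨a, h, by rw [sub_self]; exact zero_mem _⟩

namespace GH

theorem dge1_DD (r : List V → A) : DD K.d (DD K.d r) = 0 := DD_DD K.dd r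

theorem dge1_sub (q : ℤ) : SubS K.d K.Dg (K.W q ⊔ K.τ q) := (K.W_sub q).sup (K.τ_sub q)

theorem dge1_mono {q q' : ℤ} (e : q' ≤ q) : R (K.W q' ⊔ K.τ q') ≤ R (K.W q ⊔ K.τ q) :=
  R_mono (sup_le_sup (K.W_mono e) (K.τ_mono e))

theorem dge1_const : SubS K.d K.Dg (fun n (_ : V) => K.Dg n) :=
  ⟨fun _ _ => le_rfl, fun _ _ _ h => Eventually.of_forall fun _ => h,
    fun n _ a h => K.Dg_cx n a h⟩

theorem ac_T (q : ℤ) : AC (DD K.d) (R (K.τ q)) (R (K.W q ⊔ K.τ q)) :=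
  g1 K.dd K.Dg_neg (K.τ_sub q) (K.dge1_sub q) (K.la_τ q)

theorem ac_W (q : ℤ) : AC (DD K.d) (R (K.W q)) (R (K.W q ⊔ K.τ q)) :=
  g1 K.dd K.Dg_neg (K.W_sub q) (K.dge1_sub q) (K.la_W q)

theorem ac_M (q : ℤ) : AC (DD K.d) (ME K.Nul (K.W q)) (R (K.W q ⊔ K.τ q)) :=
  AC.trans K.dge1_DD (g2 K.dd K.Dg_neg K.Nul_sub (K.W_sub q) (K.Nul_W q) (K.fine_W q)) (K.ac_W q)
    (ME_le (K.Nul_W q)) (R_mono le_sup_left)

theorem eq_of_eps {m : ℤ} {a : A} (h : (eps k a : List V → A) ∈ R K.Nul m) : a = 0 :=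
  K.Nul_sep m (eps_mem.1 h)

theorem dge1_gam {S : Sys k V A} (h : ∀ n x, S n x ≤ K.Dg n) (n : ℤ) : Gam S n ≤ K.Dg n := by
  intro a ha
  rcases isEmpty_or_nonempty V with hV | ⟨⟨x⟩⟩
  · have h0 : a = 0 := K.Nul_sep n (mem_Gam.2 fun x => hV.elim x)
    rw [h0]
    exact zero_mem _
  · exact h n x (mem_Gam.1 ha x)

theorem dge1_of_ME {S : Sys k V A} {m : ℤ} {a : A} (h : (eps k a : List V → A) ∈ ME K.Nul S m) :
    a ∈ Gam S m := by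
  obtain ⟨b, hb, h1⟩ := mem_ME.1 h
  rw [← map_sub] at h1
  rwa [sub_eq_zero.1 (K.eq_of_eps h1)]

theorem dge1_of_Bd {S S' : Sys k V A} {m : ℤ} {a : A}
    (h : (eps k a : List V → A) ∈ Bd (DD K.d) (ME K.Nul S) (ME K.Nul S') m) :
    a ∈ Bd K.d (Gam S) (Gam S') m := by
  obtain ⟨b, hb, h1⟩ := mem_Bd.1 h
  obtain ⟨c, hc, h2⟩ := mem_ME.1 hb
  refine mem_Bd.2 ⟨c, hc, K.dge1_of_ME ?_⟩
  have h3 := add_mem h1 (R_le_ME (S := S') m (K.Nul_sub.R_cx.pred h2))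
  rwa [map_sub, DD_eps, sub_add_sub_cancel, ← map_sub] at h3

theorem L_cx (q : ℤ) : Cx K.d (K.L q) := by
  rw [K.L_eq]
  exact fun m a ha => mem_Gam.2 fun x => (K.W_sub q).cx m x a (mem_Gam.1 ha x)

theorem L_mono : Monotone K.L := fun q q' e m a ha => by
  rw [K.L_eq] at ha ⊢
  exact mem_Gam.2 fun x => K.W_mono e m x (mem_Gam.1 ha x)

theorem L_le (q n : ℤ) : K.L q n ≤ K.Dg n := by
  rw [K.L_eq]
  exact K.dge1_gam (K.W_sub q).le n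

theorem dge1_eps_R {q m : ℤ} {a : A} (h : a ∈ K.L q m) :
    (eps k a : List V → A) ∈ R (K.W q ⊔ K.τ q) m := by
  rw [K.L_eq] at h
  exact R_mono le_sup_left m (eps_mem.2 h)

theorem dge1_eps_Zc {q q' m : ℤ} {a : A} (h : a ∈ Zc K.d (K.L q) (K.L q') m) :
    (eps k a : List V → A) ∈ Zc (DD K.d) (R (K.W q ⊔ K.τ q)) (R (K.W q' ⊔ K.τ q')) m :=
  mem_Zc.2 ⟨K.dge1_eps_R h.1, by rw [DD_eps]; exact K.dge1_eps_R h.2⟩

theorem dge1_eps_Bd {q q' m : ℤ} {a : A} (h : a ∈ Bd K.d (K.L q) (K.L q') m) :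
    (eps k a : List V → A) ∈ Bd (DD K.d) (R (K.W q ⊔ K.τ q)) (R (K.W q' ⊔ K.τ q')) m := by
  obtain ⟨b, hb, h1⟩ := mem_Bd.1 h
  refine mem_Bd.2 ⟨eps k b, K.dge1_eps_R hb, ?_⟩
  rw [DD_eps, ← map_sub]
  exact K.dge1_eps_R h1

theorem dge1_pw_pw (r : List V → A) : pw K.κ (pw K.κ r) = r := funext fun l => K.κκ (r l)

theorem dge1_pw_Zc {q q' m : ℤ} {r : List V → A}
    (h : r ∈ Zc (DD K.d) (R (K.τ q)) (R (K.τ q')) m) :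
    pw K.κ r ∈ Zc (DD K.d) (R (K.τ q)) (R (K.τ q')) m :=
  mem_Zc.2 ⟨pw_mem (K.κ_τ q) h.1, by rw [← pw_DD K.κd]; exact pw_mem (K.κ_τ q') h.2⟩

theorem dge1_pw_Bd {S S' : Sys k V A} (hS : ∀ n z, ∀ a ∈ S n z, K.κ a ∈ S n z)
    (hS' : ∀ n z, ∀ a ∈ S' n z, K.κ a ∈ S' n z) {m : ℤ} {r : List V → A}
    (h : r ∈ Bd (DD K.d) (R S) (R S') m) : pw K.κ r ∈ Bd (DD K.d) (R S) (R S') m := by
  obtain ⟨b, hb, h1⟩ := mem_Bd.1 h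
  refine mem_Bd.2 ⟨pw K.κ b, pw_mem hS hb, ?_⟩
  rw [← pw_DD K.κd, ← map_sub]
  exact pw_mem hS' h1

/-- a global class that dies in the Godement complex dies -/
theorem bd_of_eps {q q' m : ℤ} (e : q' ≤ q) {a : A} (ha : a ∈ Zc K.d (K.L q) (K.L q') m)
    (h : (eps k a : List V → A) ∈ Bd (DD K.d) (R (K.W q ⊔ K.τ q)) (R (K.W q' ⊔ K.τ q')) m) :
    a ∈ Bd K.d (K.L q) (K.L q') m := by
  rw [K.L_eq, K.L_eq] at ha ⊢
  refine K.dge1_of_Bd (AC.inj K.dge1_DD (K.ac_M q) (K.ac_M q') (ME_mono (K.W_mono e))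
    (K.dge1_mono e) (mem_Zc.2 ⟨dge1_eps_ME ha.1, ?_⟩) h)
  rw [DD_eps]
  exact dge1_eps_ME ha.2

/-- every class of the Godement complex is global -/
theorem exists_eps {q q' m : ℤ} (e : q' ≤ q) {r : List V → A}
    (h : r ∈ Zc (DD K.d) (R (K.W q ⊔ K.τ q)) (R (K.W q' ⊔ K.τ q')) m) :
    ∃ a ∈ Zc K.d (K.L q) (K.L q') m,
      eps k a - r ∈ Bd (DD K.d) (R (K.W q ⊔ K.τ q)) (R (K.W q' ⊔ K.τ q')) m := by
  obtain ⟨b, hb, h1⟩ := AC.surj K.dge1_DD (K.ac_M q) (K.ac_M q') (ME_mono (K.W_mono e))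
    (K.dge1_mono e) h
  obtain ⟨a, ha, h2⟩ := mem_ME.1 hb.1
  rw [K.L_eq, K.L_eq]
  refine ⟨a, mem_Zc.2 ⟨ha, K.dge1_of_ME ?_⟩, ?_⟩
  · have h3 := sub_mem (mem_Zc.1 hb).2 (R_le_ME (S := K.W q') _ (K.Nul_sub.R_cx m _ h2))
    rwa [← map_sub, sub_sub_cancel, DD_eps] at h3
  · have h3 := neg_mem (add_mem h1 (le_Bd (R_mono ((K.Nul_W q').trans le_sup_left) m h2)))
    rwa [sub_add_sub_cancel, neg_sub] at h3

/-- the same for the full complex -/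
theorem bd_of_eps_Dg {m : ℤ} {a : A} (ha : a ∈ K.Dg m)
    (h : (eps k a : List V → A) ∈ Bd (DD K.d) (R fun n _ => K.Dg n) (R K.Nul) m) :
    a ∈ (K.Dg (m - 1)).map K.d := by
  have hle : K.Nul ≤ fun n _ => K.Dg n := K.Nul_sub.le
  have h1 := Bd_le_Zc K.dge1_DD K.dge1_const.R_cx K.Nul_sub.R_cx (R_mono hle) h
  have h2 := AC.inj K.dge1_DD (g2 K.dd K.Dg_neg K.Nul_sub K.dge1_const hle K.fine_Dg)
    (AC.refl _ (R K.Nul)) R_le_ME (R_mono hle)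
    (mem_Zc.2 ⟨dge1_eps_ME (mem_Gam.2 fun _ => ha), h1.2⟩) h
  obtain ⟨c, hc, h3⟩ := mem_Bd.1 (K.dge1_of_Bd (Bd_mono le_rfl (R_le_ME (S := K.Nul)) h2))
  exact ⟨c, K.dge1_gam (fun _ _ => le_rfl) _ hc, (sub_eq_zero.1 (K.Nul_sep m h3)).symm⟩

theorem rel_inv {q q' : ℤ} (e : q' ≤ q) (m : ℤ) :
    Inv (Zc K.d (K.L q) (K.L q') m) (Bd K.d (K.L q) (K.L q') m) (K.Rel q q' m) where
  le _ _ h := h.1
  symm := by
    rintro a b ⟨h1, h2, t, ht, h3, h4⟩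
    exact ⟨h2, h1, pw K.κ t, K.dge1_pw_Zc ht, h4, by rw [K.dge1_pw_pw]; exact h3⟩
  total := by
    intro a ha
    obtain ⟨t, ht, h1⟩ := AC.surj K.dge1_DD (K.ac_T q) (K.ac_T q') (R_mono (K.τ_mono e))
      (K.dge1_mono e) (K.dge1_eps_Zc ha)
    obtain ⟨b, hb, h2⟩ := K.exists_eps e
      (Zc_mono (R_mono le_sup_right) (R_mono le_sup_right) (K.dge1_pw_Zc ht))
    exact ⟨b, ha, hb, t, ht, h1, h2⟩
  func := by
    rintro a b ⟨-, h2, t, ht, h3, h4⟩ ha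
    have h5 := sub_mem (K.dge1_eps_Bd ha) h3
    rw [sub_sub_cancel] at h5
    have h6 := AC.inj K.dge1_DD (K.ac_T q) (K.ac_T q') (R_mono (K.τ_mono e)) (K.dge1_mono e) ht h5
    have h7 := add_mem h4 (Bd_mono (R_mono le_sup_right) (R_mono le_sup_right)
      (K.dge1_pw_Bd (K.κ_τ q) (K.κ_τ q') h6))
    rw [sub_add_cancel] at h7
    exact K.bd_of_eps e h2 h7
  bb := by
    intro b hb
    refine ⟨zero_mem _, Bd_le_Zc K.dd (K.L_cx q) (K.L_cx q') (K.L_mono e) hb, 0, zero_mem _, ?_, ?_⟩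
    · rw [map_zero, sub_zero]
      exact zero_mem _
    · rw [map_zero, sub_zero]
      exact K.dge1_eps_Bd hb

theorem rel_mono {q₁ q₁' q₂ q₂' : ℤ} (e : q₁ ≤ q₂) (e' : q₁' ≤ q₂') (m : ℤ) :
    K.Rel q₁ q₁' m ≤ K.Rel q₂ q₂' m := by
  rintro x ⟨h1, h2, t, ht, h3, h4⟩
  exact ⟨Zc_mono (K.L_mono e) (K.L_mono e') h1, Zc_mono (K.L_mono e) (K.L_mono e') h2, t,
    Zc_mono (R_mono (K.τ_mono e)) (R_mono (K.τ_mono e')) ht,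
    Bd_mono (K.dge1_mono e) (K.dge1_mono e') h3, Bd_mono (K.dge1_mono e) (K.dge1_mono e') h4⟩

theorem rel_d {q q' : ℤ} (q₀ m : ℤ) {a b : A} (h : (a, b) ∈ K.Rel q q' m) :
    (K.d a, K.d b) ∈ K.Rel q' q₀ (m + 1) := by
  obtain ⟨h1, h2, t, ht, h3, h4⟩ := h
  refine ⟨mem_Zc.2 ⟨h1.2, by rw [K.dd]; exact zero_mem _⟩,
    mem_Zc.2 ⟨h2.2, by rw [K.dd]; exact zero_mem _⟩, DD K.d t,
    mem_Zc.2 ⟨ht.2, by rw [K.dge1_DD]; exact zero_mem _⟩, ?_, ?_⟩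
  · have h5 := dge1_d_Bd K.dge1_DD (R (K.W q₀ ⊔ K.τ q₀)) h3
    rwa [map_sub, DD_eps] at h5
  · have h5 := dge1_d_Bd K.dge1_DD (R (K.W q₀ ⊔ K.τ q₀)) h4
    rwa [map_sub, DD_eps, ← pw_DD K.κd] at h5

theorem rel_conj {q q₀ m : ℤ} (h0 : K.W q₀ ≤ K.Nul) (h1 : K.τ q₀ ≤ K.Nul) {a b : A}
    (h : (a, b) ∈ K.Rel q q₀ m) : b - K.κ a ∈ (K.Dg (m - 1)).map K.d := by
  obtain ⟨g1, g2, t, -, g3, g4⟩ := h
  have e : Bd (DD K.d) (R (K.W q ⊔ K.τ q)) (R (K.W q₀ ⊔ K.τ q₀)) m ≤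
      Bd (DD K.d) (R fun n _ => K.Dg n) (R K.Nul) m :=
    Bd_mono (R_mono (K.dge1_sub q).le) (R_mono (sup_le h0 h1))
  have h2 := sub_mem (e g4) (K.dge1_pw_Bd (fun n _ => K.κ_Dg n) K.κ_Nul (e g3))
  rw [map_sub, pw_eps, sub_sub_sub_cancel_right, ← map_sub] at h2
  exact K.bd_of_eps_Dg (sub_mem (K.L_le q m g2.1) (K.κ_Dg m a (K.L_le q m g1.1))) h2

end GH

end Pool.Agent.PWD.G
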