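import Pool.Agent.P.MP_65ad7c_ag.DGE1

/-! Conjugate residues give conjugate classes; the weights of the textbooks. -/

open Set Filter Topology

noncomputable section
namespace Pool.Agent.PWD.G

variable {k V A A' : Type} [Ring k] [AddCommGroup A] [Module k A] [AddCommGroup A'] [Module k A']
  [TopologicalSpace V] (K : GH k V A)

namespace GH

theorem kc {q m : ℤ} {a b : A} (h : (a, b) ∈ K.CjG q m) (hd : K.d a ∈ K.L (q - 1) (m + 1)) :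
    (a, b) ∈ K.Rel q (q - 1) m := by
  have dd : ∀ r : List V → A, DD K.d (DD K.d r) = 0 := DD_DD K.dd
  have hG : ∀ x, (a, b) ∈ K.Cj q m x := mem_Gam.1 (K.CjG_le q m h)
  have hSS : K.W (q - 1) ⊔ K.τ (q - 1) ≤ K.W q ⊔ K.τ q :=
    sup_le_sup (K.W_mono (by omega)) (K.τ_mono (by omega))
  have hYS : K.Y q ≤ K.W q ⊔ K.τ q := (K.Y_W q).trans le_sup_left
  have hWZ : K.W (q - 1) ≤ K.Z q := le_sup_left.trans (K.le_Z q)
  have hTZ : K.τ (q - 1) ≤ K.Z q := le_sup_right.trans (K.le_Z q)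
  have haY : a ∈ Gam (K.Y q) m := mem_Gam.2 fun x => (K.Cj_Y q m x a b (hG x)).1
  have hbY : b ∈ Gam (K.Y q) m := mem_Gam.2 fun x => (K.Cj_Y q m x a b (hG x)).2
  have haL : a ∈ K.L q m := by
    rw [K.L_eq]
    exact mem_Gam.2 fun x => K.Y_W q m x (mem_Gam.1 haY x)
  have hbL : b ∈ K.L q m := by
    rw [K.L_eq]
    exact mem_Gam.2 fun x => K.Y_W q m x (mem_Gam.1 hbY x)
  have hda : K.d a ∈ Gam (K.W (q - 1)) (m + 1) := by rwa [K.L_eq] at hd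
  have hdb : K.d b ∈ Gam (K.W (q - 1)) (m + 1) := mem_Gam.2 fun x =>
    K.Cj_W q (m + 1) x _ _ (K.Cj_d q m x a b (hG x)) (mem_Gam.1 hda x)
  have ea : (eps k a : List V → A) ∈
      Zc (DD K.d) (R (K.W q ⊔ K.τ q)) (R (K.W (q - 1) ⊔ K.τ (q - 1))) m := by
    refine mem_Zc.2 ⟨R_mono hYS m (eps_mem.2 haY), ?_⟩
    rw [DD_eps]
    exact R_mono le_sup_left (m + 1) (eps_mem.2 hda)
  obtain ⟨t, ht, h1⟩ := AC.surj dd (K.ac_T q) (K.ac_T (q - 1))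
    (R_mono (K.τ_mono (by omega))) (R_mono hSS) ea
  obtain ⟨ht1, ht2⟩ := mem_Zc.1 ht
  refine ⟨mem_Zc.2 ⟨haL, hd⟩, mem_Zc.2 ⟨hbL, by rw [K.L_eq]; exact hdb⟩, t, ht, h1, ?_⟩
  obtain ⟨x, x0, hx⟩ := Ev.choice (m := m) (B := A × A)
    (P := fun n z l c => c ∈ K.Cj q n z ∧ t l - c.1 ∈ K.Z q n z ∧ K.κ (t l) - c.2 ∈ K.Z q n z)
    ((mem_R.1 ht1).2.mono fun n z l hl => by
      obtain ⟨c₁, c₂, hc⟩ := K.Cj_τ q n z _ hl
      exact ⟨(c₁, c₂), hc⟩)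
  have t0 : t [] = 0 := (mem_R.1 ht1).1
  have hxC : x ∈ R (K.Cj q) m := mem_R.2 ⟨x0, hx.mono fun _ _ _ hl => hl.1⟩
  have hx1 : t - pw (LinearMap.fst k A A) x ∈ R (K.Z q) m :=
    mem_R.2 ⟨by simp [x0, t0], hx.mono fun _ _ _ hl => hl.2.1⟩
  have hx2 : pw K.κ t - pw (LinearMap.snd k A A) x ∈ R (K.Z q) m :=
    mem_R.2 ⟨by simp [x0, t0], hx.mono fun _ _ _ hl => hl.2.2⟩
  have hx1Y : pw (LinearMap.fst k A A) x ∈ R (K.Y q) m :=
    pw_mem (fun n z c hc => (K.Cj_Y q n z c.1 c.2 hc).1) hxC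
  have hDx : DD K.d (pw (LinearMap.fst k A A) x) ∈ R (K.W (q - 1)) (m + 1) := by
    refine R_mono (K.Z_W q) (m + 1) (mem_R_inf ?_
      (R_mono (K.Y_W q) (m + 1) ((K.Y_sub q).R_cx m _ hx1Y)))
    have h2 := sub_mem (R_mono hTZ (m + 1) ht2) ((K.Z_sub q).R_cx m _ hx1)
    rwa [map_sub, sub_sub_cancel] at h2
  have acZ : AC (DD K.d) (R (K.W (q - 1) ⊔ K.τ (q - 1))) (R (K.Z q)) :=
    g1 K.dd K.Dg_neg ((K.W_sub (q - 1)).sup (K.τ_sub (q - 1))) (K.Z_sub q) (K.la_Z q)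
  have hu : eps k a - pw (LinearMap.fst k A A) x ∈
      Bd (DD K.d) (R (K.Y q)) (R (K.W (q - 1))) m := by
    refine AC.inj dd
      (AC.trans dd (g1 K.dd K.Dg_neg (K.Y_sub q) (K.W_sub q) (K.la_Y q)) (K.ac_W q)
        (R_mono (K.Y_W q)) (R_mono le_sup_left))
      (AC.trans dd (K.ac_W (q - 1)) acZ (R_mono le_sup_left) (R_mono (K.le_Z q)))
      (R_mono (K.W_Y q)) (R_mono (K.Z_le q)) (mem_Zc.2 ⟨sub_mem (eps_mem.2 haY) hx1Y, ?_⟩) ?_
    · rw [map_sub, DD_eps]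
      exact sub_mem (eps_mem.2 hda) hDx
    · have h2 := add_mem (Bd_mono le_rfl (R_mono (K.le_Z q)) h1) (le_Bd hx1)
      rwa [sub_add_sub_cancel] at h2
  obtain ⟨y₁, hy₁, h2⟩ := mem_Bd.1 hu
  obtain ⟨y₂, y0, hy⟩ := Ev.choice (m := m - 1) (B := A)
    (P := fun n z l c => (y₁ l, c) ∈ K.Cj q n z)
    ((mem_R.1 hy₁).2.mono fun n z l hl => K.Cj_ex q n z _ hl)
  have hyC : (fun l => (y₁ l, y₂ l)) ∈ R (K.Cj q) (m - 1) :=
    mem_R.2 ⟨Prod.ext (mem_R.1 hy₁).1 y0, hy⟩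
  have hy₂ : y₂ ∈ R (K.Y q) (m - 1) :=
    mem_R.2 ⟨y0, hy.mono fun n z l hl => (K.Cj_Y q n z _ _ hl).2⟩
  have he : eps k (a, b) - x - DD (K.d.prodMap K.d) (fun l => (y₁ l, y₂ l)) ∈ R (K.Cj q) m :=
    sub_mem (sub_mem (eps_mem.2 (mem_Gam.2 hG)) hxC)
      ((R_cx (d := K.d.prodMap K.d) (K.Cj_opn q)
        fun n z c hc => K.Cj_d q n z c.1 c.2 hc).pred hyC)
  have e1 : pw (LinearMap.fst k A A)
      (eps k (a, b) - x - DD (K.d.prodMap K.d) (fun l => (y₁ l, y₂ l))) =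
      eps k a - pw (LinearMap.fst k A A) x - DD K.d y₁ := by
    rw [map_sub, map_sub, pw_eps, pw_DD (d := K.d.prodMap K.d) (d' := K.d)
      (f := LinearMap.fst k A A) fun _ => rfl]
    rfl
  have e2 : pw (LinearMap.snd k A A)
      (eps k (a, b) - x - DD (K.d.prodMap K.d) (fun l => (y₁ l, y₂ l))) =
      eps k b - pw (LinearMap.snd k A A) x - DD K.d y₂ := by
    rw [map_sub, map_sub, pw_eps, pw_DD (d := K.d.prodMap K.d) (d' := K.d)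
      (f := LinearMap.snd k A A) fun _ => rfl]
    rfl
  have h3 : eps k b - pw (LinearMap.snd k A A) x - DD K.d y₂ ∈ R (K.W (q - 1)) m := by
    rw [← e1] at h2
    rw [← e2]
    refine mem_R.2 ⟨by rw [pw_apply, (mem_R.1 he).1, map_zero],
      ((mem_R.1 he).2.and (mem_R.1 h2).2).mono fun n z l hl => ?_⟩
    exact K.Cj_W q n z _ _ hl.1 hl.2
  refine AC.inj dd (AC.refl _ _) acZ (R_mono hSS) (R_mono (K.Z_le q)) (mem_Zc.2 ⟨?_, ?_⟩)
    (mem_Bd.2 ⟨y₂, R_mono hYS _ hy₂, ?_⟩)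
  · exact sub_mem (R_mono hYS m (eps_mem.2 hbY))
      (R_mono le_sup_right m (pw_mem (K.κ_τ q) ht1))
  · show DD K.d (eps k b - pw K.κ t) ∈ _
    rw [map_sub, DD_eps, ← pw_DD K.κd]
    exact sub_mem (R_mono le_sup_left (m + 1) (eps_mem.2 hdb))
      (R_mono le_sup_right (m + 1) (pw_mem (K.κ_τ (q - 1)) ht2))
  · have h4 := sub_mem (R_mono hWZ m h3) hx2
    have h5 : eps k b - pw (LinearMap.snd k A A) x - DD K.d y₂ -
        (pw K.κ t - pw (LinearMap.snd k A A) x) = eps k b - pw K.κ t - DD K.d y₂ := by abel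
    rw [h5] at h4
    exact h4

theorem txt (q m : ℤ) :
    K.L q m ⊓ LinearMap.ker K.d ≤ K.Lt q m ⊓ LinearMap.ker K.d ⊔ (K.Dg (m - 1)).map K.d := by
  rintro a ⟨ha, hd⟩
  have hd' : K.d a = 0 := hd
  have dd : ∀ r : List V → A, DD K.d (DD K.d r) = 0 := DD_DD K.dd
  have haL : a ∈ K.L q m := ha
  have haW : (eps k a : List V → A) ∈ R (K.W q) m := eps_mem.2 (by rwa [K.L_eq] at haL)
  have h0 : DD K.d (eps k a : List V → A) = 0 := by rw [DD_eps, hd', map_zero]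
  obtain ⟨s, hs, h1⟩ := K.ac_T q m (eps k a) (R_mono le_sup_left m haW)
    (by rw [h0]; exact zero_mem _)
  obtain ⟨w, hw, h2⟩ := mem_R_sup hs
  have hx : eps k a - DD K.d w ∈ R (K.Wt q) m := by
    refine R_mono (K.τ_Wt q) m (mem_R_inf ?_ (sub_mem haW ((K.W_sub q).R_cx.pred hw)))
    have h3 := add_mem h1 ((K.τ_sub q).R_cx.pred h2)
    rwa [map_sub, sub_add_sub_cancel] at h3
  have hDx : DD K.d (eps k a - DD K.d w) = 0 := by rw [map_sub, h0, dd, sub_zero]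
  obtain ⟨y, hy, h3⟩ := g2 K.dd K.Dg_neg K.Nul_sub (K.Wt_sub q)
    ((le_inf (K.Nul_τ q) (K.Nul_W q)).trans (K.τ_Wt q)) (K.fine_Wt q) m _ hx
    (by rw [hDx]; exact zero_mem _)
  obtain ⟨b, hb, h4⟩ := mem_ME.1 h3
  have hdb : K.d b = 0 := by
    have h5 := K.Nul_sub.R_cx m _ h4
    rw [map_sub, map_sub, hDx, dd, DD_eps, sub_zero, zero_sub] at h5
    exact K.eq_of_eps (neg_mem_iff.1 h5)
  have hbL : b ∈ K.L q m := by
    rw [K.L_eq]
    exact mem_Gam.2 fun x => K.Wt_W q m x (mem_Gam.1 hb x)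
  have hab : a - b ∈ (K.Dg (m - 1)).map K.d := by
    refine K.bd_of_eps_Dg (sub_mem (K.L_le q m haL) (K.L_le q m hbL))
      (mem_Bd.2 ⟨w + y, add_mem ?_ ?_, ?_⟩)
    · exact R_mono (fun n x => (K.W_sub q).le n x) _ hw
    · exact R_mono (fun n x => (K.Wt_sub q).le n x) _ hy
    · have h5 : eps k (a - b) - DD K.d (w + y) = eps k a - DD K.d w - DD K.d y - eps k b := by
        rw [map_sub, map_add]
        abel
      rw [h5]
      exact h4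
  have h6 := Submodule.add_mem_sup (S := K.Lt q m ⊓ LinearMap.ker K.d)
    ⟨by rw [K.Lt_eq]; exact hb, hdb⟩ hab
  rwa [add_sub_cancel] at h6

end GH

end Pool.Agent.PWD.G
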