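import Pool.Agent.P.MP_65ad7c_ag.DGK2
import Pool.Agent.P.MP_65ad7c_ag.DGD1

/-! The local statements for a mixed Hodge complex with columns. -/

open Set Filter Topology

noncomputable section
namespace Pool.Agent.PWD.G
namespace KH

variable {k V A : Type} [Ring k] [TopologicalSpace V] [AddCommGroup A] [Module k A]
  {K : KH k V A} {q q' n : ℤ} {x : V} {a : A} {c : ℕ} {T : Sys k V A}

theorem stab' (ha : a ∈ K.W q' n x) (hc : K.e c a = a) (h : n - q ≤ 2 * c) : a ∈ K.W q n x :=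
  K.Wt_W q n x (K.stab q q' c n x a ha hc h)

theorem PP' (ha : a ∈ K.Dg n) (hc : K.e c a = a) (hd : K.d a ∈ K.W q' (n + 1) x)
    (h : n - q ≤ 2 * c) : ∃ b ∈ K.Dg (n - 1), K.e c b = b ∧ a - K.d b ∈ K.W q n x := by
  obtain ⟨b, hb, h1⟩ := K.PP c n x a ha hc (stab' hd (K.toDC.ed' hc) (by omega))
  have h2 := K.W_e _ c _ _ _ h1
  have h3 := K.ee c (a - K.d b)
  rw [K.toDC.e_sub_d hc] at h2 h3
  exact ⟨K.e c b, K.e_mem c _ b hb, K.ee c b, stab' h2 h3 h⟩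

/-- a closed form in degree above `q'` is exact -/
theorem L4' (hc : K.e c a = a) (hd : K.d a ∈ K.W q (n + 1) x) (h : 2 * c < n + 1 - q) :
    ∃ v ∈ K.W q n x, K.e c v = v ∧ K.d (a - v) ∈ K.Nul (n + 1) x := by
  obtain ⟨v, hv, h1⟩ := K.L4 q c (n + 1) x _ hd (K.toDC.ed' hc) h (by rw [K.dd]; exact zero_mem _)
  have h2 := K.nul_e c _ _ _ h1
  rw [K.toDC.e_sub_d (K.toDC.ed' hc), ← map_sub] at h2
  exact ⟨K.e c v, K.W_e q c _ _ _ (by simpa using hv), K.ee c v, h2⟩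

theorem sup_col (ha : a ∈ (K.W q' ⊔ K.col q T) n x) (hc : K.e c a = a) :
    ∃ w ∈ K.W q' n x, a - w ∈ K.col q T n x ∧ K.e c (a - w) = a - w := by
  obtain ⟨w, hw, t, ht, rfl⟩ := Submodule.mem_sup.1 ha
  have h : w + t - K.e c w = K.e c t := by rw [sub_eq_iff_eq_add', ← map_add, hc]
  exact ⟨K.e c w, K.W_e _ c _ _ _ hw, h ▸ col_e c ht, h ▸ K.ee c t⟩

theorem sup_col_W (ha : a ∈ (K.W q' ⊔ K.col q T) n x) (hc : K.e c a = a) (h : 2 * c < n - q) :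
    a ∈ K.W q' n x := by
  obtain ⟨w, hw, h1, h2⟩ := sup_col ha hc
  have h3 := add_mem hw (nul_W q' n x (h2 ▸ (h1.2 c).2 h))
  rwa [add_sub_cancel] at h3

theorem sup_e (c : ℕ) (ha : a ∈ (K.W q' ⊔ K.col q T) n x) :
    K.e c a ∈ (K.W q' ⊔ K.col q T) n x := by
  obtain ⟨w, hw, t, ht, rfl⟩ := Submodule.mem_sup.1 ha
  rw [map_add]
  exact Submodule.add_mem_sup (K.W_e _ c _ _ _ hw) (col_e c ht)

theorem τ_sub (q : ℤ) : SubS K.toDC.D K.Dg (K.col q K.Cl) := col_sub opn_Cl Ex_Cl le_rfl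

theorem Z_sub (q : ℤ) : SubS K.toDC.D K.Dg (K.W (q - 1) ⊔ K.col q K.Ex) :=
  (W_sub _).sup (col_sub opn_Ex le_rfl Ex_Cl)

theorem W_δ' (ha : a ∈ K.W q n x) : K.δ a ∈ K.W q (n + 1) x := K.W_mono q _ x (K.W_δ q n x a ha)

theorem la_τ (q : ℤ) : LA K.toDC.D (K.col q K.Cl) (K.W q ⊔ K.col q K.Cl) := fun x => by
  refine K.toDC.ac_of_col (fun c n a => col_e c) (fun c n a => sup_e c)
    (fun n a => col_δ nul_Cl) (fun n => ((W_sub q).sup (τ_sub q)).cx n x) fun c n a ha hc hd => ?_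
  have h1 : 2 * c ≤ n - q → K.d a ∈ K.Nul (n + 1) x := fun e =>
    K.toDC.ed' hc ▸ (hd.2 c).2 (by omega)
  by_cases e : 2 * c < n - q
  · obtain ⟨b, hb, h2⟩ := K.L4 q c n x a (sup_col_W ha hc e) hc e (h1 e.le)
    exact ⟨b, Submodule.mem_sup_left hb, nul_col nul_Cl n x h2⟩
  · refine ⟨0, zero_mem _, ?_⟩
    rw [map_zero, sub_zero]
    exact mem_col_of (((W_sub q).sup (τ_sub q)).le n x ha) hc (fun e => h1 e.le) fun h => (e h).elim

theorem la_W (q : ℤ) : LA K.toDC.D (K.W q) (K.W q ⊔ K.col q K.Cl) := fun x => by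
  refine K.toDC.ac_of_col (fun c n a => K.W_e q c n x a) (fun c n a => sup_e c)
    (fun n a => W_δ') (fun n => ((W_sub q).sup (τ_sub q)).cx n x) fun c n a ha hc hd => ?_
  by_cases e : 2 * c < n - q
  · exact ⟨0, zero_mem _, by simpa using sup_col_W ha hc e⟩
  · obtain ⟨b, hb, h1, h2⟩ := PP' (q := q) (((W_sub q).sup (τ_sub q)).le n x ha) hc hd (by omega)
    exact ⟨b, Submodule.mem_sup_right (mem_col_of hb h1 (fun _ => by omega) fun _ => by omega), h2⟩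

theorem Y_e (c : ℕ) (ha : a ∈ K.Y q n x) : K.e c a ∈ K.Y q n x :=
  let ⟨b, h⟩ := mem_Y.1 ha; mem_Y.2 ⟨_, K.Cj_e q c n x a b h⟩

theorem la_Y (q : ℤ) : LA K.toDC.D (K.Y q) (K.W q) := fun x => by
  refine K.toDC.ac_of_col (fun c n a => Y_e c) (fun c n a => K.W_e q c n x a)
    (fun n a ha => W_Y q _ x (K.W_δ q n x a (Y_W q n x ha))) (fun n => (W_sub q).cx n x)
    fun c n a ha hc hd => ?_
  rcases lt_trichotomy (2 * c : ℤ) (n - q) with e | e | e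
  · obtain ⟨u, hu⟩ := mem_Y.1 hd
    obtain ⟨a', b', h1, h2⟩ := K.KCa q c (n + 1) x _ u hu (K.toDC.ed' hc) (by omega)
      (by rw [K.dd]; exact zero_mem _)
    rw [add_sub_cancel_right] at h1
    have h3 := K.W_e _ c _ _ _ h2
    rw [K.toDC.e_sub_d (K.toDC.ed' hc), ← map_sub] at h3
    have h4 : K.e c a' ∈ K.Y q n x := Y_e c (mem_Y.2 ⟨b', h1⟩)
    have h5 : K.e c (a - K.e c a') = a - K.e c a' := by rw [map_sub, hc, K.ee]
    obtain ⟨v, hv, h6, h7⟩ := L4' h5 h3 (by omega)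
    obtain ⟨b, hb, h8⟩ := K.L4 q c n x _ (sub_mem (sub_mem ha (Y_W q n x h4)) (K.W_mono q n x hv))
      (by rw [map_sub, h5, h6]) e h7
    refine ⟨b, hb, ?_⟩
    convert add_mem (add_mem h4 (W_Y q n x hv)) (W_Y q n x (nul_W _ n x h8)) using 1
    abel
  · exact ⟨0, zero_mem _, by simpa using mem_Y.2 (K.Cj_top q c n x a ha hc e)⟩
  · exact ⟨0, zero_mem _, by simpa using W_Y q n x (stab' ha hc (by omega))⟩

theorem col_Ex (ha : a ∈ K.col q K.Ex n x) (hc : K.e c a = a) (h : 2 * c = n - q) :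
    ∃ v ∈ K.Dg (n - 1), K.e c v = v ∧ a - K.d v ∈ K.Nul n x := by
  obtain ⟨v, hv, h1⟩ := mem_Ex.1 (hc ▸ (ha.2 c).1 h)
  have h2 := K.nul_e c _ _ _ h1
  rw [K.toDC.e_sub_d hc] at h2
  exact ⟨K.e c v, K.e_mem c _ v hv, K.ee c v, h2⟩

theorem la_Z (q : ℤ) :
    LA K.toDC.D (K.W (q - 1) ⊔ K.col (q - 1) K.Cl) (K.W (q - 1) ⊔ K.col q K.Ex) := fun x => by
  refine K.toDC.ac_of_col (fun c n a => sup_e c) (fun c n a => sup_e c) (fun n a ha => ?_)
    (fun n => (Z_sub q).cx n x) fun c n a ha hc hd => ?_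
  · obtain ⟨w, hw, t, ht, rfl⟩ := Submodule.mem_sup.1 ha
    rw [map_add]
    exact Submodule.add_mem_sup (W_δ' hw) (col_δ nul_Cl ht)
  have hD := (Z_sub q).le n x ha
  rcases (by omega : 2 * c < n - q ∨ 2 * c = n - q ∨ 2 * c = n - q + 1 ∨ n - q + 1 < 2 * c) with
    e | e | e | e
  · exact ⟨0, zero_mem _, Submodule.mem_sup_left (by simpa using sup_col_W ha hc e)⟩
  · obtain ⟨w, hw, h1, h2⟩ := sup_col ha hc
    obtain ⟨v, hv, h3, h4⟩ := col_Ex h1 h2 e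
    refine ⟨v, Submodule.mem_sup_right (mem_col_of hv h3 (fun _ => by omega) fun _ => by omega),
      Submodule.mem_sup_left ?_⟩
    convert add_mem hw (nul_W _ n x h4) using 1
    abel
  · obtain ⟨v, hv, h1, h2⟩ := L4' hc (sup_col_W hd (K.toDC.ed' hc) (by omega)) (by omega)
    refine ⟨0, zero_mem _, Submodule.mem_sup.2 ⟨v, hv, a - v, mem_col_of (c := c)
      (sub_mem hD (K.W_le _ n x hv)) (by rw [map_sub, hc, h1]) (fun _ => h2) fun _ => by omega, ?_⟩⟩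
    simp
  · exact ⟨0, zero_mem _, Submodule.mem_sup_right (by
      simpa using mem_col_of hD hc (fun _ => by omega) fun _ => by omega)⟩

theorem Z_W (q : ℤ) : (K.W (q - 1) ⊔ K.col q K.Ex) ⊓ K.W q ≤ K.W (q - 1) := by
  rintro n x a ⟨ha, hW⟩
  refine K.toDC.mem_of_e fun c => ?_
  have h0 := K.W_e q c n x a hW
  rcases lt_trichotomy (2 * c : ℤ) (n - q) with e | e | e
  · exact sup_col_W (sup_e c ha) (K.ee c a) e
  · obtain ⟨w, hw, h1, h2⟩ := sup_col (sup_e c ha) (K.ee c a)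
    obtain ⟨v, hv, h3, h4⟩ := col_Ex h1 h2 e
    have h5 : K.d v ∈ K.W q (n - 1 + 1) x := by
      simpa using sub_mem (sub_mem h0 (K.W_mono q n x hw)) (nul_W q n x h4)
    obtain ⟨b, -, -, h6⟩ := PP' (q := q - 1) hv h3 h5 (by omega)
    have h7 := K.W_d _ _ _ _ h6
    rw [map_sub, K.dd, sub_zero, sub_add_cancel] at h7
    simpa using add_mem (add_mem (nul_W _ n x h4) h7) hw
  · exact stab' h0 (K.ee c a) (by omega)

theorem Cj_col (ha : a ∈ K.col q K.Cl n x) (hc : K.e c a = a) : ∃ u : A × A, u ∈ K.Cj q n x ∧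
    a - u.1 ∈ (K.W (q - 1) ⊔ K.col q K.Ex) n x ∧
    K.κ a - u.2 ∈ (K.W (q - 1) ⊔ K.col q K.Ex) n x := by
  have hκ : K.e c (K.κ a) = K.κ a := by rw [← K.κe, hc]
  rcases lt_trichotomy (2 * c : ℤ) (n - q) with e | e | e
  · have h : a ∈ K.Nul n x := hc ▸ (ha.2 c).2 e
    exact ⟨0, zero_mem _, Submodule.mem_sup_left (by simpa using nul_W _ n x h),
      Submodule.mem_sup_left (by simpa using nul_W _ n x (K.nul_κ n x a h))⟩
  · have h1 : K.d a ∈ K.Nul (n + 1) x := by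
      have := (ha.2 c).1 e
      rwa [hc] at this
    obtain ⟨v, hv, h2, h3⟩ := PP' (q := q) ha.1 hc (nul_W 0 _ x h1) e.ge
    have h4 : K.e c (a - K.d v) = a - K.d v := by rw [K.toDC.e_sub_d hc, h2]
    have h5 : K.d (a - K.d v) ∈ K.Nul (n + 1) x := by rwa [map_sub, K.dd, sub_zero]
    obtain ⟨b, h6⟩ := K.Cj_top q c n x _ h3 h4 e
    have h7 := K.Cj_e q c n x _ _ h6
    rw [h4] at h7
    obtain ⟨u, hu, h8, h9⟩ := L4' (K.ee c b)
      (K.Cj_W q _ x _ _ (K.Cj_d q n x _ _ h7) (nul_W _ _ x h5)) (by omega)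
    have g1 : (a - K.d v, K.e c b - u) ∈ K.Cj q n x := by simpa using sub_mem h7 (Cj_zero hu)
    have g2 : K.e c (K.e c b - u) = K.e c b - u := by rw [map_sub, K.ee, h8]
    obtain ⟨w, hw, g3⟩ := K.KCb q c n x _ _ g1 h4 g2 e h5 h9
    refine ⟨_, g1, Submodule.mem_sup_right (mem_col_of (c := c) ?_ ?_
      (fun _ => mem_Ex.2 ⟨v, hv, by simp⟩) fun _ => by omega),
      Submodule.mem_sup_right (mem_col_of (c := c) (sub_mem (K.κ_mem n a ha.1)
        (K.W_le q n x (K.Cj_le q n x _ _ (K.Cj_symm q n x _ _ g1)))) (by rw [map_sub, hκ, g2])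
        (fun _ => mem_Ex.2 ⟨K.κ v - w, sub_mem (K.κ_mem _ v hv) hw, ?_⟩) fun _ => by omega)⟩
    · simpa using K.d_mem _ v hv
    · rw [map_sub, hc, h4]
    · show K.κ a - (K.e c b - u) - _ ∈ _
      convert neg_mem g3 using 1
      rw [map_sub, map_sub, K.κd]
      abel
  · exact ⟨0, zero_mem _, Submodule.mem_sup_right (by
      simpa using mem_col_of ha.1 hc (fun _ => by omega) fun _ => by omega),
      Submodule.mem_sup_right (by
        simpa using mem_col_of (K.κ_mem n a ha.1) hκ (fun _ => by omega) fun _ => by omega)⟩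

theorem Cj_τ (ha : a ∈ K.col q K.Cl n x) : ∃ u v, (u, v) ∈ K.Cj q n x ∧
    a - u ∈ (K.W (q - 1) ⊔ K.col q K.Ex) n x ∧ K.κ a - v ∈ (K.W (q - 1) ⊔ K.col q K.Ex) n x := by
  choose u h1 h2 h3 using fun c => Cj_col (col_e c ha) (K.ee c a)
  refine ⟨∑ c ∈ Finset.range K.C, (u c).1, ∑ c ∈ Finset.range K.C, (u c).2, ?_, ?_, ?_⟩
  · rw [← Prod.fst_sum, ← Prod.snd_sum, Prod.mk.eta]
    exact sum_mem fun c _ => h1 c
  · rw [← K.sum_e a, ← Finset.sum_sub_distrib]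
    exact sum_mem fun c _ => h2 c
  · rw [← K.sum_e a, map_sum, ← Finset.sum_sub_distrib]
    exact sum_mem fun c _ => h3 c

end KH
end Pool.Agent.PWD.G
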