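import Pool.Agent.P.MP_65ad7c_ag.DGK1
import Pool.Agent.P.MP_65ad7c_ag.DGK3
import Pool.Agent.P.MP_65ad7c_ag.DGA
import Pool.Agent.P.MP_65ad7c_ag.DGE

/-! Block G + MHC: the statements used by the other blocks (together with `DGA`, `DGK1`, `DGK2`). -/

open Set Filter Topology

noncomputable section
namespace Pool.Agent.PWD.G

variable {k V V' A A' : Type} [Ring k] [TopologicalSpace V] [TopologicalSpace V'] [AddCommGroup A]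
  [Module k A] [AddCommGroup A'] [Module k A']

namespace KH
variable [CompactSpace V] (K : KH k V A)

theorem fine {S : Sys k V A} (h : K.Nul ≤ S) (hk : ∀ m ∈ K.cuts, Keep m S) : FineS K.Dg K.Nul S := by
  rcases isEmpty_or_nonempty V with hV | hV
  · exact fineS_of_zero fun a => K.nul_sep 0 a fun x => hV.elim x
  · exact K.cut.fine le_rfl h K.cut.nul hk

/-- the germ systems of a mixed Hodge complex with columns -/
def toGH : GH k V A where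
  d := K.toDC.D
  κ := K.κ
  Dg := K.Dg
  Nul := K.Nul
  W := K.W
  Wt := K.Wt
  Y := K.Y
  τ q := K.col q K.Cl
  Z q := K.W (q - 1) ⊔ K.col q K.Ex
  Cj := K.Cj
  L q := Gam (K.W q)
  Lt q := Gam (K.Wt q)
  F := K.F
  CjG q := Gam (K.Cj q)
  dd := K.toDC.DD
  κκ := K.κκ
  κd a := by rw [DC.D_apply, DC.D_apply, map_add, K.κd, K.κδ]
  Dg_cx n a ha := add_mem (K.d_mem n a ha) (K.δ_mem n a ha)
  Dg_neg := K.toDC.Dg_neg
  κ_Dg := K.κ_mem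
  Nul_sub := ⟨fun _ _ _ => nul_Dg, K.nul_opn, fun n x a ha =>
    add_mem (K.nul_d n x a ha) (K.nul_δ n x a ha)⟩
  W_sub := W_sub
  Wt_sub q := ⟨fun n x => (K.Wt_W q n x).trans (K.W_le q n x), K.Wt_opn q, K.Wt_D q⟩
  Y_sub := Y_sub
  τ_sub := τ_sub
  Z_sub := Z_sub
  Nul_sep n a ha := K.nul_sep n a (mem_Gam.1 ha)
  κ_Nul := K.nul_κ
  κ_τ q n x a ha := ⟨K.κ_mem n a ha.1, fun c => by
    rw [← K.κe]
    refine ⟨fun h => ?_, fun h => K.nul_κ _ _ _ ((ha.2 c).2 h)⟩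
    show K.d _ ∈ K.Nul (n + 1) x
    rw [← K.κd]
    exact K.nul_κ _ _ _ ((ha.2 c).1 h)⟩
  Nul_W := nul_W
  Nul_τ _ := nul_col nul_Cl
  W_mono := W_monotone
  τ_mono _ _ h := col_mono h (fun _ => le_rfl) nul_Cl
  bot := by
    obtain ⟨q, h⟩ := K.W_bot
    refine ⟨min q (-K.C), (W_monotone (min_le_left _ _)).trans h, fun n x a ha =>
      K.toDC.mem_of_e fun c => ?_⟩
    rcases lt_or_ge c K.C with hc | hc
    · rcases lt_or_ge n c with hn | hn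
      · rw [K.neg c n hn a ha.1]; exact zero_mem _
      · exact (ha.2 c).2 (by omega)
    · rw [K.toDC.e_zero hc]; exact zero_mem _
  τ_top q n x h a ha := ⟨ha, fun c => ⟨fun _ => by omega, fun _ => by omega⟩⟩
  τ_Wt q n x a ha := K.toDC.mem_of_e fun c => by
    rcases lt_or_ge (2 * c : ℤ) (n - q) with e | e
    · exact K.nul_Wt q n x ((ha.1.2 c).2 e)
    · exact K.stab q q c n x _ (K.W_e q c n x a ha.2) (K.ee c a) e
  Wt_W := K.Wt_W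
  W_Y := W_Y
  Y_W := Y_W
  fine_Dg := K.fine (fun _ _ _ => nul_Dg) fun m hm n _ => K.cut.dg m hm n
  fine_W q := K.fine (nul_W q) (K.W_cut q)
  fine_Wt q := K.fine (K.nul_Wt q) (K.Wt_cut q)
  la_τ := la_τ
  la_W := la_W
  la_Y := la_Y
  la_Z := la_Z
  le_Z q := sup_le_sup_left (col_mono (by omega) (fun _ => by omega) nul_Ex) _
  Z_le q := sup_le_sup (K.W_mono q) (col_mono le_rfl (fun _ => Ex_Cl) nul_Cl)
  Z_W := Z_W
  Cj_opn := K.Cj_opn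
  Cj_Y q n x a b h := ⟨mem_Y.2 ⟨b, h⟩, mem_Y.2 ⟨a, K.Cj_symm q n x a b h⟩⟩
  Cj_d _ _ _ _ _ := Cj_D
  Cj_W := K.Cj_W
  Cj_ex _ _ _ _ := mem_Y.1
  Cj_τ _ _ _ _ := Cj_τ
  L_eq _ := rfl
  Lt_eq _ := rfl
  CjG_le _ _ := le_rfl
  L_top q n _ a ha := mem_Gam.2 fun x => K.toDC.mem_of_e fun c =>
    stab' (K.W_e q c n x a (mem_Gam.1 ha x)) (K.ee c a) (by omega)
  FL_cx := K.FL_cx
  F_anti := antitone_int_of_succ_le K.F_anti
  F_top := K.F_top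
  F_bot := K.F_bot
  strict := K.strict
  span := K.span
  conj := K.conj
  disj := K.disj

theorem mhs (n : ℤ) : MHS (K.Zc n) (K.Bd n) (K.Wc n) (K.Fc n) (K.Fbc n) :=
  let ⟨_, _, h, t⟩ := K.toGH.exists_alg; Top.mhs h t n

theorem κ_Wc (n j : ℤ) : (K.Wc n j).map K.κ ≤ K.Wc n j :=
  let ⟨_, _, h, t⟩ := K.toGH.exists_alg; Top.κ_W h t n (j - n)

theorem Wc_le (n j : ℤ) :
    K.Wc n j ≤ Gam (K.Wt (j - n)) n ⊓ LinearMap.ker K.toDC.D ⊔ K.Bd n :=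
  sup_le (K.toGH.txt (j - n) n) le_sup_right

/-- the final argument for `σ = ρ ∘ κ`, `ρ` an endomorphism -/
theorem odd (n : ℤ) {N P : Submodule k A} (hN : Good (K.Wc n) (K.Fc n) (K.Fbc n) N)
    (hP : Good (K.Wc n) (K.Fc n) (K.Fbc n) P) (hB : K.Bd n ≤ N) (ρ : A →ₗ[k] A)
    (hW : ∀ j, (K.Wc n j).map ρ ≤ K.Wc n j) (hF : ∀ p, (K.Fc n p).map ρ ≤ K.Fc n p)
    (hFb : ∀ p, (K.Fbc n p).map ρ ≤ K.Fbc n p) (hσ : ∀ x ∈ P, x - ρ (K.κ x) ∈ N) (j : ℤ) :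
    P ⊓ K.Wc n (2 * j + 1) ≤ N ⊔ K.Wc n (2 * j) := by
  refine (K.mhs n).odd hN hP hB (ρ.comp K.κ) (fun j => ?_) (fun p => ?_) (fun p => ?_) hσ j
  · rw [Submodule.map_comp]
    exact (Submodule.map_mono (K.κ_Wc n j)).trans (hW j)
  · rw [Submodule.map_comp]
    exact hFb p
  · rintro _ ⟨_, ⟨a, ha, rfl⟩, rfl⟩
    rw [LinearMap.comp_apply, K.κκ]
    exact hF p ⟨a, ha, rfl⟩

omit [CompactSpace V] in
/-- natural maps keep the filtrations -/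
theorem hom (K' : KH k V' A') (f : A →ₗ[k] A') (hD : ∀ a, f (K.toDC.D a) = K'.toDC.D (f a))
    (hκ : ∀ a, f (K.κ a) = K'.κ (f a)) (hg : ∀ n, ∀ a ∈ K.Dg n, f a ∈ K'.Dg n)
    (hW : ∀ q n, ∀ a ∈ Gam (K.W q) n, f a ∈ Gam (K'.W q) n)
    (hF : ∀ p n, ∀ a ∈ K.F p n ⊓ Gam (K.W n) n, f a ∈ K'.F p n) (n : ℤ) :
    (K.Zc n).map f ≤ K'.Zc n ∧ (K.Bd n).map f ≤ K'.Bd n ∧ (∀ j, (K.Wc n j).map f ≤ K'.Wc n j) ∧
      (∀ p, (K.Fc n p).map f ≤ K'.Fc n p) ∧ ∀ p, (K.Fbc n p).map f ≤ K'.Fbc n p := by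
  have hk : ∀ a ∈ LinearMap.ker K.toDC.D, f a ∈ LinearMap.ker K'.toDC.D := fun a ha => by
    rw [LinearMap.mem_ker, ← hD, LinearMap.mem_ker.1 ha, map_zero]
  have hB : (K.Bd n).map f ≤ K'.Bd n := by
    rintro _ ⟨_, ⟨a, ha, rfl⟩, rfl⟩
    exact ⟨f a, hg _ a ha, (hD a).symm⟩
  have h1 : ∀ p, (K.Fc n p).map f ≤ K'.Fc n p := fun p => by
    rw [Fc, Submodule.map_sup]
    refine sup_le_sup ?_ hB
    rintro _ ⟨a, ha, rfl⟩
    exact ⟨⟨hF p n a ha.1, hW n n a ha.1.2⟩, hk a ha.2⟩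
  refine ⟨?_, hB, fun j => ?_, h1, fun p => ?_⟩
  · rintro _ ⟨a, ha, rfl⟩
    exact ⟨hg n a ha.1, hk a ha.2⟩
  · rw [Wc, Submodule.map_sup]
    refine sup_le_sup ?_ hB
    rintro _ ⟨a, ha, rfl⟩
    exact ⟨hW _ n a ha.1, hk a ha.2⟩
  · rintro _ ⟨_, ⟨a, ha, rfl⟩, rfl⟩
    exact ⟨f a, h1 p ⟨a, ha, rfl⟩, (hκ a).symm⟩

end KH

end Pool.Agent.PWD.G
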