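import Pool.Agent.P.MP_65ad7c_ag.DG0

/-! Block G + MHC: the data of a mixed Hodge complex with columns. -/

open Set Filter Topology

noncomputable section
namespace Pool.Agent.PWD.G

section basic
variable {k V A : Type} [Ring k] [AddCommGroup A] [Module k A]

/-- `f` keeps `S` -/
def Keep (f : A →ₗ[k] A) (S : Sys k V A) : Prop := ∀ n x, ∀ a ∈ S n x, f a ∈ S n x

/-- `f` maps `S` to `S'` and raises the degree by one -/
def Up (f : A →ₗ[k] A) (S S' : Sys k V A) : Prop := ∀ n x, ∀ a ∈ S n x, f a ∈ S' (n + 1) x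

/-- cut-off operators: the identity near `y`, zero outside a closed subset of `U`
(`N n z` are the elements of degree `n` that vanish near `z`) -/
structure CutS [TopologicalSpace V] (Dg : Gr k A) (N : Sys k V A) (cuts : Set (A →ₗ[k] A)) :
    Prop where
  dg : ∀ m ∈ cuts, ∀ n, ∀ a ∈ Dg n, m a ∈ Dg n
  nul : ∀ m ∈ cuts, Keep m N
  ex : ∀ y : V, ∀ U ∈ 𝓝 y, ∃ m ∈ cuts, (∀ᶠ z in 𝓝 y, ∀ n, ∀ a ∈ Dg n, a - m a ∈ N n z) ∧
    ∃ F, IsClosed F ∧ F ⊆ U ∧ ∀ z ∉ F, ∀ n, ∀ a ∈ Dg n, m a ∈ N n z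

end basic

/-- a double complex with finitely many columns: `e c` is the projection on column `c`, `d` keeps
the columns, `δ` raises them by one, `Dg n` is the total degree `n` -/
structure DC (k A : Type) [Ring k] [AddCommGroup A] [Module k A] where
  d : A →ₗ[k] A
  δ : A →ₗ[k] A
  e : ℕ → A →ₗ[k] A
  C : ℕ
  Dg : Gr k A
  dd : ∀ a, d (d a) = 0
  dδ : ∀ a, d (δ a) + δ (d a) = 0
  δδ : ∀ a, δ (δ a) = 0
  sum_e : ∀ a, ∑ c ∈ Finset.range C, e c a = a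
  ee : ∀ c a, e c (e c a) = e c a
  ee' : ∀ c c' a, c ≠ c' → e c (e c' a) = 0
  ed : ∀ c a, e c (d a) = d (e c a)
  eδ : ∀ c a, e (c + 1) (δ a) = δ (e c a)
  eδ0 : ∀ a, e 0 (δ a) = 0
  d_mem : ∀ n, ∀ a ∈ Dg n, d a ∈ Dg (n + 1)
  δ_mem : ∀ n, ∀ a ∈ Dg n, δ a ∈ Dg (n + 1)
  e_mem : ∀ c n, ∀ a ∈ Dg n, e c a ∈ Dg n
  neg : ∀ (c : ℕ) (n : ℤ), n < c → ∀ a ∈ Dg n, e c a = 0

/-- the total differential -/
def DC.D {k A : Type} [Ring k] [AddCommGroup A] [Module k A] (K : DC k A) : A →ₗ[k] A := K.d + K.δ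

/-- A mixed Hodge complex on a compact space `V`. In column `c` and total degree `n` the form degree
is `n - c`, and `W q` is the filtration `W'_(q + c)` of logarithmic forms; `n - c ≤ q + c` reads
`n - q ≤ 2 c`. `Wt q` is the filtration of the textbooks, `Cj q` are the pairs with conjugate
residues, `F p` is the global filtration by types. -/
structure KH (k V A : Type) [Ring k] [TopologicalSpace V] [AddCommGroup A] [Module k A]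
    extends DC k A where
  κ : A →ₗ[k] A
  cuts : Set (A →ₗ[k] A)
  Nul : Sys k V A
  W : ℤ → Sys k V A
  Wt : ℤ → Sys k V A
  Cj : ℤ → Sys k V (A × A)
  F : ℤ → Gr k A
  κκ : ∀ a, κ (κ a) = a
  κd : ∀ a, κ (d a) = d (κ a)
  κδ : ∀ a, κ (δ a) = δ (κ a)
  κe : ∀ c a, κ (e c a) = e c (κ a)
  κ_mem : ∀ n, ∀ a ∈ Dg n, κ a ∈ Dg n
  cut : CutS Dg Nul cuts
  nul_opn : Opn Nul
  nul_d : Up d Nul Nul
  nul_δ : Up δ Nul Nul
  nul_e : ∀ c, Keep (e c) Nul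
  nul_κ : Keep κ Nul
  nul_sep : ∀ n a, (∀ x, a ∈ Nul n x) → a = 0
  W_le : ∀ q n x, W q n x ≤ Dg n
  W_mono : ∀ q n x, W (q - 1) n x ≤ W q n x
  W_bot : ∃ q, ∀ n x, W q n x ≤ Nul n x
  W_opn : ∀ q, Opn (W q)
  W_d : ∀ q, Up d (W q) (W q)
  W_δ : ∀ q, Up δ (W q) (W (q - 1))
  W_e : ∀ q c, Keep (e c) (W q)
  W_cut : ∀ q, ∀ m ∈ cuts, Keep m (W q)
  nul_Wt : ∀ q n x, Nul n x ≤ Wt q n x
  Wt_W : ∀ q n x, Wt q n x ≤ W q n x
  Wt_opn : ∀ q, Opn (Wt q)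
  Wt_D : ∀ q, Up (d + δ) (Wt q) (Wt q)
  Wt_cut : ∀ q, ∀ m ∈ cuts, Keep m (Wt q)
  /-- a logarithmic form of degree `≤ q'` has at most `q'` poles -/
  stab : ∀ q q' (c : ℕ) n x, ∀ a ∈ W q' n x, e c a = a → n - q ≤ 2 * c → a ∈ Wt q n x
  /-- logarithmic forms compute the local cohomology of the complement -/
  PP : ∀ (c : ℕ) n x, ∀ a ∈ Dg n, e c a = a → d a ∈ W (n + 1) (n + 1) x →
    ∃ b ∈ Dg (n - 1), a - d b ∈ W n n x
  /-- `W'_q'` has no local cohomology above degree `q'` -/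
  L4 : ∀ q (c : ℕ) n x, ∀ a ∈ W q n x, e c a = a → 2 * c < n - q → d a ∈ Nul (n + 1) x →
    ∃ b ∈ W q (n - 1) x, a - d b ∈ Nul n x
  Cj_le : ∀ q n x a b, (a, b) ∈ Cj q n x → a ∈ W q n x
  Cj_symm : ∀ q n x a b, (a, b) ∈ Cj q n x → (b, a) ∈ Cj q n x
  le_Cj : ∀ q n x, ∀ a ∈ W (q - 1) n x, (a, 0) ∈ Cj q n x
  Cj_opn : ∀ q, Opn (Cj q)
  Cj_d : ∀ q n x a b, (a, b) ∈ Cj q n x → (d a, d b) ∈ Cj q (n + 1) x
  Cj_e : ∀ q c n x a b, (a, b) ∈ Cj q n x → (e c a, e c b) ∈ Cj q n x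
  /-- zero residues have zero conjugates -/
  Cj_W : ∀ q n x a b, (a, b) ∈ Cj q n x → a ∈ W (q - 1) n x → b ∈ W (q - 1) n x
  /-- in form degree `q'` the residues are smooth functions -/
  Cj_top : ∀ q (c : ℕ) n x, ∀ a ∈ W q n x, e c a = a → 2 * c = n - q → ∃ b, (a, b) ∈ Cj q n x
  /-- Poincare lemma for the residues -/
  KCa : ∀ q (c : ℕ) n x a b, (a, b) ∈ Cj q n x → e c a = a → 2 * c < n - q →
    d a ∈ W (q - 1) (n + 1) x → ∃ a' b', (a', b') ∈ Cj q (n - 1) x ∧ a - d a' ∈ W (q - 1) n x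
  /-- closed forms with conjugate constant residues are conjugate in local cohomology -/
  KCb : ∀ q (c : ℕ) n x a b, (a, b) ∈ Cj q n x → e c a = a → e c b = b → 2 * c = n - q →
    d a ∈ Nul (n + 1) x → d b ∈ Nul (n + 1) x → ∃ w ∈ Dg (n - 1), b - κ a - d w ∈ Nul n x
  FL_cx : ∀ p q, Cx (d + δ) (F p ⊓ Gam (W q))
  F_anti : ∀ p n, F (p + 1) n ≤ F p n
  F_top : ∀ n, Dg n ≤ F 0 n
  F_bot : ∀ n, F (n + 1) n ⊓ Dg n ≤ ⊥
  /-- `H (F^p Gr) → H (Gr)` is injective -/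
  strict : ∀ p q b, ∀ x ∈ F p b ⊓ Gam (W q) b, ∀ z ∈ Gam (W q) (b - 1),
    x - (d + δ) z ∈ Gam (W (q - 1)) b →
    ∃ z' ∈ F p (b - 1) ⊓ Gam (W q) (b - 1), x - (d + δ) z' ∈ Gam (W (q - 1)) b
  /-- `H^b (Gr_q) = F^p + conj F^(b+q-p+1)` -/
  span : ∀ p q b, ∀ x ∈ Gam (W q) b, (d + δ) x ∈ Gam (W (q - 1)) (b + 1) →
    ∃ f ∈ F p b ⊓ Gam (W q) b, ∃ g ∈ Gam (Cj q) b, ∃ z ∈ Gam (W q) (b - 1),
      g.1 ∈ F (b + q - p + 1) b ∧ (d + δ) f ∈ Gam (W (q - 1)) (b + 1) ∧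
      (d + δ) g.1 ∈ Gam (W (q - 1)) (b + 1) ∧ x - f - g.2 - (d + δ) z ∈ Gam (W (q - 1)) b
  /-- every class has a representative with a conjugate partner -/
  conj : ∀ p q b, ∀ x ∈ F p b ⊓ Gam (W q) b, (d + δ) x ∈ Gam (W (q - 1)) (b + 1) →
    ∃ g ∈ Gam (Cj q) b, ∃ z ∈ Gam (W q) (b - 1), g.1 ∈ F p b ∧
      x - g.1 - (d + δ) z ∈ Gam (W (q - 1)) b
  /-- the sum is direct -/
  disj : ∀ p q b, ∀ f ∈ F p b ⊓ Gam (W q) b, ∀ g ∈ Gam (Cj q) b, ∀ z ∈ Gam (W q) (b - 1),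
    g.1 ∈ F (b + q - p + 1) b → (d + δ) f ∈ Gam (W (q - 1)) (b + 1) →
    (d + δ) g.1 ∈ Gam (W (q - 1)) (b + 1) → f - g.2 - (d + δ) z ∈ Gam (W (q - 1)) b →
    ∃ z' ∈ Gam (W q) (b - 1), f - (d + δ) z' ∈ Gam (W (q - 1)) b

namespace KH
variable {k V A : Type} [Ring k] [TopologicalSpace V] [AddCommGroup A] [Module k A] (K : KH k V A)

/-- cocycles -/
def Zc (n : ℤ) : Submodule k A := K.Dg n ⊓ LinearMap.ker K.toDC.D
/-- coboundaries -/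
def Bd (n : ℤ) : Submodule k A := (K.Dg (n - 1)).map K.toDC.D
/-- weight filtration -/
def Wc (n j : ℤ) : Submodule k A := Gam (K.W (j - n)) n ⊓ LinearMap.ker K.toDC.D ⊔ K.Bd n
/-- Hodge filtration -/
def Fc (n p : ℤ) : Submodule k A := (K.F p n ⊓ Gam (K.W n) n) ⊓ LinearMap.ker K.toDC.D ⊔ K.Bd n
/-- conjugate Hodge filtration -/
def Fbc (n p : ℤ) : Submodule k A := (K.Fc n p).map K.κ

end KH

end Pool.Agent.PWD.G
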