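import Pool.Agent.P.MP_65ad7c_ag.DGK0
import Pool.Agent.P.MP_65ad7c_ag.DGD2
import Pool.Agent.P.MP_65ad7c_ag.DGD3

/-! Cut-off operators and local to global statements. -/

open Set Filter Topology

noncomputable section
namespace Pool.Agent.PWD.G

variable {k V A A' : Type} [Ring k] [AddCommGroup A] [Module k A] [AddCommGroup A'] [Module k A']

/-- `s ↦ m_1 s_1 + m_2 (1 - m_1) s_2 + ...` -/
def cutSum (m : V → A →ₗ[k] A) : List V → (V → A) →ₗ[k] A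
  | [] => 0
  | y :: l => (m y).comp (LinearMap.proj y) + (cutSum m l).comp ((LinearMap.id - m y).compLeft V)

theorem cutSum_realize : True := by have := @cutSum.eq_def; trivial

theorem cutSum_cons (m : V → A →ₗ[k] A) (y : V) (l : List V) (s : V → A) :
    cutSum m (y :: l) s = m y (s y) + cutSum m l fun i => s i - m y (s i) := rfl

theorem cutSum_const {m : V → A →ₗ[k] A} {D N : Submodule k A} (hD : ∀ y, ∀ a ∈ D, m y a ∈ D)
    (hN : ∀ y, ∀ a ∈ N, m y a ∈ N) (l : List V) (a : A) (ha : a ∈ D)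
    (hz : a ∈ N ∨ ∃ y ∈ l, ∀ a ∈ D, a - m y a ∈ N) : a - cutSum m l (fun _ => a) ∈ N := by
  induction l generalizing a with
  | nil =>
    rcases hz with hz | ⟨y, hy, -⟩
    · show a - 0 ∈ N
      rwa [sub_zero]
    · cases hy
  | cons y l ih =>
    rw [cutSum_cons, ← sub_sub]
    refine ih _ (sub_mem ha (hD y a ha)) ?_
    rcases hz with hz | ⟨y', hy', hz⟩
    · exact Or.inl (sub_mem hz (hN y a hz))
    · rcases List.mem_cons.1 hy' with rfl | hy'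
      · exact Or.inl (hz a ha)
      · exact Or.inr ⟨y', hy', hz⟩

theorem cutSum_mem {m : V → A →ₗ[k] A} {D T : Submodule k A} (hD : ∀ y, ∀ a ∈ D, m y a ∈ D)
    (hT : ∀ y, ∀ a ∈ T, m y a ∈ T) (l : List V) (s : V → A) (h1 : ∀ i, s i ∈ D)
    (h2 : ∀ i ∈ l, s i ∈ T ∨ ∀ a ∈ D, m i a ∈ T) : cutSum m l s ∈ T := by
  induction l generalizing s with
  | nil => exact zero_mem _
  | cons y l ih =>
    rw [cutSum_cons]
    refine add_mem ((h2 y List.mem_cons_self).elim (hT y _) fun h => h _ (h1 y)) (ih _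
      (fun i => sub_mem (h1 i) (hD y _ (h1 i))) fun i hi => ?_)
    exact (h2 i (List.mem_cons_of_mem _ hi)).imp_left fun h => sub_mem h (hT y _ h)

variable [TopologicalSpace V]

theorem opn_restrict {S : Sys k V A} {M : Set V}
    (h : ∀ n, ∀ x ∈ M, ∀ a ∈ S n x, ∀ᶠ y in 𝓝 x, y ∈ M → a ∈ S n y) :
    Opn fun n (x : M) => S n x.1 := fun n x a ha =>
  ((continuous_subtype_val.tendsto x).eventually (h n x.1 x.2 a ha)).mono fun y hy => hy y.2

theorem cutS_restrict {Dg : Gr k A} {N : Sys k V A} {cuts : Set (A →ₗ[k] A)} {M : Set V}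
    (dg : ∀ m ∈ cuts, ∀ n, ∀ a ∈ Dg n, m a ∈ Dg n)
    (nul : ∀ m ∈ cuts, ∀ n, ∀ x ∈ M, ∀ a ∈ N n x, m a ∈ N n x)
    (ex : ∀ y ∈ M, ∀ U ∈ 𝓝 y, ∃ m ∈ cuts,
      (∀ᶠ z in 𝓝 y, z ∈ M → ∀ n, ∀ a ∈ Dg n, a - m a ∈ N n z) ∧
      ∃ F, IsClosed F ∧ F ⊆ U ∧ ∀ z ∈ M, z ∉ F → ∀ n, ∀ a ∈ Dg n, m a ∈ N n z) :
    CutS Dg (fun n (x : M) => N n x.1) cuts where
  dg := dg
  nul m hm n x := nul m hm n x.1 x.2
  ex y U hU := by
    obtain ⟨U', h1, h2⟩ := (mem_nhds_subtype M y U).1 hU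
    obtain ⟨m, hm, h3, F, h4, h5, h6⟩ := ex y.1 y.2 U' h1
    exact ⟨m, hm, ((continuous_subtype_val.tendsto y).eventually h3).mono fun z hz => hz z.2,
      Subtype.val ⁻¹' F, h4.preimage continuous_subtype_val, (preimage_mono h5).trans h2,
      fun z hz => h6 z.1 z.2 hz⟩

variable [CompactSpace V] {d : A →ₗ[k] A} {Dg : Gr k A} {cuts : Set (A →ₗ[k] A)}
  {N T S S' : Sys k V A}

theorem CutS.fine [Nonempty V] (hc : CutS Dg N cuts) (h1 : N ≤ S) (h2 : N ≤ S')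
    (k1 : ∀ m ∈ cuts, Keep m S) (k2 : ∀ m ∈ cuts, Keep m S') : FineS Dg S S' := by
  classical
  intro U hU
  choose m hm h3 F h4 h5 h6 using fun y => hc.ex y (U y) (hU y)
  obtain ⟨t, -, ht⟩ := isCompact_univ.elim_nhds_subcover
    (fun y => {z | ∀ n, ∀ a ∈ Dg n, a - m y a ∈ N n z}) fun y _ => h3 y
  let G : Option V → Set V := fun i => {w | ∃ y ∈ t, i = some y ∧ w ∈ F y}
  let σ : (Option V → A) →ₗ[k] A := (cutSum m t.toList).comp (LinearMap.funLeft k A some) +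
    (LinearMap.id - (cutSum m t.toList).comp (LinearMap.pi fun _ => LinearMap.id)).comp
      (LinearMap.proj none)
  have hσ : ∀ s, σ s = cutSum m t.toList (fun i => s (some i)) +
      (s none - cutSum m t.toList fun _ => s none) := fun s => rfl
  have glue : ∀ T : Sys k V A, N ≤ T → (∀ m ∈ cuts, Keep m T) → Glue Dg G σ T := by
    intro T hT hk n z s h7 h8
    rw [hσ]
    refine add_mem (cutSum_mem (fun y => hc.dg _ (hm y) n) (fun y => hk _ (hm y) n z) _ _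
      (fun i => h7 _) fun i hi => ?_) (hT n z (cutSum_const (fun y => hc.dg _ (hm y) n)
        (fun y => hc.nul _ (hm y) n z) _ _ (h7 _) (Or.inr ?_)))
    · by_cases hz : z ∈ F i
      · exact Or.inl (h8 _ ⟨i, Finset.mem_toList.1 hi, rfl, hz⟩)
      · exact Or.inr fun a ha => hT n z (h6 i z hz n a ha)
    · obtain ⟨y, hy, h9⟩ := mem_iUnion₂.1 (ht (mem_univ z))
      exact ⟨y, Finset.mem_toList.2 hy, h9 n⟩
  refine ⟨Option V, fun i => i.getD (Classical.arbitrary V), G, σ,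
    fun z => (t.finite_toSet.image some).subset ?_, fun z => ?_, ?_, fun a => ?_,
    glue S h1 k1, glue S' h2 k2⟩
  · rintro i ⟨y, hy, rfl, -⟩
    exact ⟨y, hy, rfl⟩
  · have : ∀ᶠ w in 𝓝 z, ∀ i ∈ t, w ∈ F i → z ∈ F i := by
      refine (eventually_all_finset t).2 fun i _ => ?_
      by_cases hz : z ∈ F i
      · exact Eventually.of_forall fun _ _ => hz
      · filter_upwards [(h4 i).isOpen_compl.mem_nhds hz] with w hw h using (hw h).elim
    filter_upwards [this] with w hw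
    rintro i ⟨y, hy, rfl, h⟩
    exact ⟨y, hy, rfl, hw y hy h⟩
  · rintro i w ⟨y, -, rfl, h⟩
    exact h5 y h
  · rw [hσ, add_sub_cancel]

omit [CompactSpace V] in
theorem fineS_of_zero (h : ∀ a : A, a = 0) : FineS Dg S S' := fun _ _ =>
  ⟨Empty, Empty.elim, Empty.elim, 0, fun _ => toFinite _,
    fun _ => Eventually.of_forall fun _ i => i.elim, fun i => i.elim, fun a => (h a).symm,
    fun _ _ _ _ _ => zero_mem _, fun _ _ _ _ _ => zero_mem _⟩

omit [CompactSpace V] in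
theorem SubS.gam_le [Nonempty V] (h : SubS d Dg S) (m : ℤ) : Gam S m ≤ Dg m :=
  fun _ ha => h.le m (Classical.arbitrary V) (mem_Gam.1 ha _)

/-- G3: local acyclicity of fine subcomplexes is global acyclicity (for germs along a compact set
`M` take `V = M`; `N` need not be separated) -/
theorem LA.global (dd : ∀ a, d (d a) = 0) (h0 : ∀ n < 0, Dg n ≤ ⊥) (hc : CutS Dg N cuts)
    (hS : SubS d Dg S) (hS' : SubS d Dg S') (h1 : N ≤ S) (h2 : S ≤ S') (k1 : ∀ m ∈ cuts, Keep m S)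
    (k2 : ∀ m ∈ cuts, Keep m S') (h : LA d S S') : AC d (Dg ⊓ Gam S) (Dg ⊓ Gam S') := by
  intro m a ha hd
  rcases isEmpty_or_nonempty V with hV | hV
  · exact ⟨0, zero_mem _, by rw [map_zero, sub_zero]; exact ha.1, mem_Gam.2 fun x => hV.elim x⟩
  obtain ⟨y, hy, h3⟩ := g1 dd h0 hS hS' h m (eps k a) (eps_mem.2 ha.2)
    (by rw [DD_eps]; exact eps_mem.2 hd.2)
  obtain ⟨y', -, h4⟩ := g2 dd h0 hS hS' h2 (hc.fine h1 (h1.trans h2) k1 k2) (m - 1) y hy (by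
    rw [sub_add_cancel]
    refine mem_ME.2 ⟨a, ha.2, ?_⟩
    rw [← neg_sub]
    exact neg_mem h3)
  obtain ⟨b, hb, h5⟩ := mem_ME.1 h4
  have h6 := add_mem h3 (hS.R_cx.pred h5)
  rw [map_sub, map_sub, DD_DD dd, DD_eps, sub_zero, sub_add_sub_cancel, ← map_sub] at h6
  exact ⟨b, ⟨hS'.gam_le _ hb, hb⟩, hS.gam_le _ (eps_mem.1 h6), eps_mem.1 h6⟩

/-- G6: `T ≤ S ≤ S'`, `S' / T` locally acyclic, `N ≤ S ≤ S'` fine: the classes of `S'` modulo `N`
come from `S` -/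
theorem LA.sandwich (dd : ∀ a, d (d a) = 0) (h0 : ∀ n < 0, Dg n ≤ ⊥) (hc : CutS Dg N cuts)
    (hN : SubS d Dg N) (hT : SubS d Dg T) (hS : SubS d Dg S) (hS' : SubS d Dg S') (h1 : N ≤ T)
    (h2 : T ≤ S) (h3 : S ≤ S') (k1 : ∀ m ∈ cuts, Keep m S) (k2 : ∀ m ∈ cuts, Keep m S')
    (h : LA d T S') (m : ℤ) : ∀ a ∈ Dg m ⊓ Gam S' m, d a ∈ Gam N (m + 1) →
      ∃ b ∈ Dg m ⊓ Gam S m, ∃ c ∈ Dg (m - 1) ⊓ Gam S' (m - 1), a - b - d c ∈ Gam N m := by
  intro a ha hd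
  rcases isEmpty_or_nonempty V with hV | hV
  · exact ⟨0, zero_mem _, 0, zero_mem _, mem_Gam.2 fun x => hV.elim x⟩
  have hd' : DD d (eps k a : List V → A) ∈ R N (m + 1) := by rw [DD_eps]; exact eps_mem.2 hd
  obtain ⟨y, hy, h4⟩ := g1 dd h0 hT hS' h m (eps k a) (eps_mem.2 ha.2) (R_mono h1 _ hd')
  obtain ⟨y', hy', h5⟩ := g2 dd h0 hN hS (h1.trans h2) (hc.fine le_rfl (h1.trans h2) hc.nul k1) m _
    (R_mono h2 _ h4) (R_le_ME _ (by rwa [map_sub, DD_DD dd, sub_zero]))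
  obtain ⟨b, hb, h6⟩ := mem_ME.1 h5
  have hb' : b ∈ Gam S' m := mem_Gam.2 fun x => h3 m x (mem_Gam.1 hb x)
  obtain ⟨w, -, h7⟩ := g2 dd h0 hN hS' ((h1.trans h2).trans h3)
    (hc.fine le_rfl ((h1.trans h2).trans h3) hc.nul k2) (m - 1) (y + y')
    (add_mem hy (R_mono h3 _ hy')) (by
      rw [sub_add_cancel]
      refine mem_ME.2 ⟨a - b, sub_mem ha.2 hb', ?_⟩
      convert neg_mem h6 using 1
      rw [map_add, map_sub]
      abel)
  obtain ⟨c, hc', h8⟩ := mem_ME.1 h7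
  have h9 := add_mem h6 (hN.R_cx.pred h8)
  refine ⟨b, ⟨hS.gam_le _ hb, hb⟩, c, ⟨hS'.gam_le _ hc', hc'⟩, eps_mem.1 ?_⟩
  convert h9 using 1
  rw [map_sub, map_sub, map_sub, map_sub, map_add, DD_DD dd, DD_eps]
  abel

/-- local solutions glue: if `f : A → A'` commutes with the cut-offs and `t` is locally in `f S`
modulo `N'`, then it is so globally -/
theorem lift_global {Dg' : Gr k A'} {N' : Sys k V A'} (f : A →ₗ[k] A')
    {cuts : Set ((A × A') →ₗ[k] (A × A'))}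
    (hc : CutS (fun n => (Dg n).prod (Dg' n)) (fun n x => (N n x).prod (N' n x)) cuts)
    (hN' : Opn N') (hS : Opn S) (hle : ∀ n x, S n x ≤ Dg n) (h1 : N ≤ S)
    (hf : ∀ n x, ∀ a ∈ N n x, f a ∈ N' n x)
    (k1 : ∀ m ∈ cuts, ∃ (m₁ : A →ₗ[k] A) (m₂ : A' →ₗ[k] A'), m = m₁.prodMap m₂ ∧ Keep m₁ S ∧
      ∀ a, f (m₁ a) = m₂ (f a)) (hD : ∀ n, ∀ a ∈ Dg n, f a ∈ Dg' n) {n : ℤ} {t : A'}
    (ht : t ∈ Dg' n) (h : ∀ x, ∃ a ∈ S n x, t - f a ∈ N' n x) :
    ∃ a ∈ Dg n ⊓ Gam S n, t - f a ∈ Gam N' n := by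
  rcases isEmpty_or_nonempty V with hV | hV
  · exact ⟨0, zero_mem _, mem_Gam.2 fun x => hV.elim x⟩
  choose a ha h2 using h
  let T : Sys k V (A × A') := fun n z => (S n z).comap (LinearMap.fst k A A') ⊓
    (N' n z).comap (LinearMap.snd k A A' - f.comp (LinearMap.fst k A A'))
  have hk : ∀ m ∈ cuts, ∀ (m₁ : A →ₗ[k] A) (m₂ : A' →ₗ[k] A'), m = m₁.prodMap m₂ → Keep m₂ N' := by
    rintro m hm m₁ m₂ rfl n z u hu
    exact (hc.nul _ hm n z (0, u) ⟨zero_mem _, hu⟩).2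
  obtain ⟨ι, pt, F, σ, -, -, f3, f4, g1, g2⟩ := hc.fine (S := T)
    (S' := fun n z => (⊤ : Submodule k A).prod (N' n z))
    (fun n z u hu => ⟨h1 n z hu.1, sub_mem hu.2 (hf n z _ hu.1)⟩) (fun n z u hu => ⟨trivial, hu.2⟩)
    (fun m hm n z u hu => by
      obtain ⟨m₁, m₂, e, h3, h4⟩ := k1 m hm
      have h5 := hk m hm m₁ m₂ e n z _ hu.2
      subst e
      refine ⟨h3 n z _ hu.1, ?_⟩
      show m₂ u.2 - f (m₁ u.1) ∈ N' n z
      rw [h4, ← map_sub]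
      exact h5)
    (fun m hm n z u hu => by
      obtain ⟨m₁, m₂, e, -, -⟩ := k1 m hm
      have h5 := hk m hm m₁ m₂ e n z _ hu.2
      subst e
      exact ⟨trivial, h5⟩)
    (fun x => {z | a x ∈ S n z ∧ t - f (a x) ∈ N' n z})
    fun x => (hS n x _ (ha x)).and (hN' n x _ (h2 x))
  have h3 : ∀ z, σ (fun i => (a (pt i), t)) ∈ T n z := fun z =>
    g1 n z _ (fun i => ⟨hle n _ (ha _), ht⟩) fun i hi => f3 i hi
  have h4 : ∀ z, (σ fun i => (a (pt i), t)).2 - t ∈ N' n z := fun z => by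
    have h5 := (g2 n z (fun i => (a (pt i), 0)) (fun i => ⟨hle n _ (ha _), zero_mem _⟩)
      fun i _ => ⟨trivial, zero_mem _⟩).2
    have h6 : (fun i => (a (pt i), (0 : A'))) = (fun i => (a (pt i), t)) - fun _ => (0, t) := by
      funext i; simp
    rwa [h6, map_sub, f4] at h5
  refine ⟨(σ fun i => (a (pt i), t)).1, ⟨hle n (Classical.arbitrary V) (h3 _).1,
    mem_Gam.2 fun z => (h3 z).1⟩, mem_Gam.2 fun z => ?_⟩
  have h6 : (σ fun i => (a (pt i), t)).2 - f (σ fun i => (a (pt i), t)).1 ∈ N' n z := (h3 z).2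
  convert sub_mem h6 (h4 z) using 1
  abel

end Pool.Agent.PWD.G
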