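import Pool.Agent.P.MP_65ad7c_ag.DGK0

/-! Double complexes: columnwise arguments, columnwise truncations. -/

open Set Filter Topology

noncomputable section
namespace Pool.Agent.PWD.G

variable {k V A : Type} [Ring k] [TopologicalSpace V] [AddCommGroup A] [Module k A]

theorem DC.D_apply (K : DC k A) (a : A) : K.D a = K.d a + K.δ a := rfl

theorem DC.DD (K : DC k A) (a : A) : K.D (K.D a) = 0 := by
  rw [K.D_apply, K.D_apply, map_add, map_add, K.dd, K.δδ, zero_add, add_zero, K.dδ]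

theorem DC.mem_of_e (K : DC k A) {X : Submodule k A} {a : A} (h : ∀ c, K.e c a ∈ X) : a ∈ X := by
  rw [← K.sum_e a]
  exact sum_mem fun c _ => h c

theorem DC.Dg_neg (K : DC k A) : ∀ n < 0, K.Dg n ≤ ⊥ := fun n _ a ha =>
  K.mem_of_e fun c => K.neg c n (by omega) a ha

theorem DC.e_zero (K : DC k A) {c : ℕ} (h : K.C ≤ c) (a : A) : K.e c a = 0 := by
  rw [← K.sum_e a, map_sum]
  exact Finset.sum_eq_zero fun c' hc' => K.ee' _ _ _ (by have := Finset.mem_range.1 hc'; omega)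

theorem DC.eδ_mem (K : DC k A) {X : Submodule k A} {a : A} {c : ℕ}
    (h : ∀ c', c = c' + 1 → K.δ (K.e c' a) ∈ X) : K.e c (K.δ a) ∈ X := by
  rcases c with _ | c
  · rw [K.eδ0]; exact zero_mem _
  · rw [K.eδ]; exact h c rfl

theorem DC.ee_mem (K : DC k A) {X : Submodule k A} {a : A} {c c' : ℕ}
    (h : c' = c → K.e c a ∈ X) : K.e c' (K.e c a) ∈ X := by
  by_cases e : c' = c
  · rw [e, K.ee]; exact h e
  · rw [K.ee' _ _ _ e]; exact zero_mem _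

theorem DC.ed' (K : DC k A) {a : A} {c : ℕ} (h : K.e c a = a) : K.e c (K.d a) = K.d a := by
  rw [K.ed, h]

theorem DC.e_sub_d (K : DC k A) {a : A} {c : ℕ} (h : K.e c a = a) (b : A) :
    K.e c (a - K.d b) = a - K.d (K.e c b) := by rw [map_sub, K.ed, h]

/-- columnwise acyclic implies acyclic -/
theorem DC.ac_of_col (K : DC k A) {X X' : Gr k A} (he : ∀ c n, ∀ a ∈ X n, K.e c a ∈ X n)
    (he' : ∀ c n, ∀ a ∈ X' n, K.e c a ∈ X' n) (hδ : ∀ n, ∀ a ∈ X n, K.δ a ∈ X (n + 1))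
    (hD' : Cx K.D X')
    (h : ∀ c n, ∀ a ∈ X' n, K.e c a = a → K.d a ∈ X (n + 1) → ∃ b ∈ X' (n - 1), a - K.d b ∈ X n) :
    AC K.D X X' := by
  intro n a ha hd
  have key : ∀ j : ℕ, ∃ b ∈ X' (n - 1), ∀ c < j, K.e c (a - K.D b) ∈ X n := by
    intro j
    induction j with
    | zero => exact ⟨0, zero_mem _, fun c hc => absurd hc (Nat.not_lt_zero c)⟩
    | succ j ih =>
      obtain ⟨b, hb, h1⟩ := ih
      have h2 : a - K.D b ∈ X' n := sub_mem ha (by simpa using hD' _ _ hb)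
      have h3 : K.e j (K.D (a - K.D b)) ∈ X (n + 1) := by
        rw [map_sub K.D, K.DD, sub_zero]; exact he _ _ _ hd
      have h4 : K.e j (K.δ (a - K.D b)) ∈ X (n + 1) :=
        K.eδ_mem fun c hc => hδ _ _ (h1 c (by omega))
      have h5 := sub_mem h3 h4
      rw [K.D_apply (a - K.D b), map_add, add_sub_cancel_right, K.ed] at h5
      obtain ⟨b', hb', h6⟩ := h j n _ (he' j n _ h2) (K.ee _ _) h5
      have h7 := he j _ _ h6
      rw [K.e_sub_d (K.ee _ _)] at h7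
      refine ⟨b + K.e j b', add_mem hb (he' _ _ _ hb'), fun c hc => ?_⟩
      have h8 : K.e c (K.δ (K.e j b')) ∈ X n := K.eδ_mem fun c' hc' => by
        rw [K.ee' _ _ _ (by omega), map_zero]; exact zero_mem _
      have h9 : K.e c (a - K.D b) - K.d (K.e c (K.e j b')) ∈ X n := by
        rcases Nat.lt_succ_iff_lt_or_eq.1 hc with hc | rfl
        · rw [K.ee' _ _ _ hc.ne, map_zero, sub_zero]; exact h1 c hc
        · rwa [K.ee]
      convert sub_mem h9 h8 using 1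
      rw [map_add, K.D_apply (K.e j b'), ← sub_sub, map_sub, map_add, K.ed, sub_sub]
  obtain ⟨b, hb, h1⟩ := key K.C
  refine ⟨b, hb, K.mem_of_e fun c => ?_⟩
  rcases lt_or_ge c K.C with hc | hc
  · exact h1 c hc
  · rw [K.e_zero hc]; exact zero_mem _

namespace KH
variable (K : KH k V A)

/-- the truncation: `T` in form degree `q'`, zero above -/
def col (q : ℤ) (T : Sys k V A) : Sys k V A := fun n x =>
  { carrier := {a | a ∈ K.Dg n ∧ ∀ c : ℕ, (2 * c = n - q → K.e c a ∈ T n x) ∧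
      (2 * c < n - q → K.e c a ∈ K.Nul n x)}
    add_mem' := fun {a b} ha hb => ⟨add_mem ha.1 hb.1, fun c => by
      rw [map_add]
      exact ⟨fun h => add_mem ((ha.2 c).1 h) ((hb.2 c).1 h),
        fun h => add_mem ((ha.2 c).2 h) ((hb.2 c).2 h)⟩⟩
    zero_mem' := ⟨zero_mem _, fun c => by
      rw [map_zero]; exact ⟨fun _ => zero_mem _, fun _ => zero_mem _⟩⟩
    smul_mem' := fun r a ha => ⟨Submodule.smul_mem _ r ha.1, fun c => by
      rw [map_smul]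
      exact ⟨fun h => Submodule.smul_mem _ r ((ha.2 c).1 h),
        fun h => Submodule.smul_mem _ r ((ha.2 c).2 h)⟩⟩ }

/-- closed germs -/
def Cl : Sys k V A := fun n x => (K.Nul (n + 1) x).comap K.d

/-- exact germs -/
def Ex : Sys k V A := fun n x => (K.Dg (n - 1)).map K.d ⊔ K.Nul n x

/-- first components of conjugate pairs -/
def Y (q : ℤ) : Sys k V A := fun n x => (K.Cj q n x).map (LinearMap.fst k A A)

variable {K} {q q' n : ℤ} {x : V} {a : A} {c : ℕ} {T T' : Sys k V A}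

theorem nul_W (q : ℤ) : K.Nul ≤ K.W q := fun n x => (K.nul_Wt q n x).trans (K.Wt_W q n x)

theorem nul_Dg (ha : a ∈ K.Nul n x) : a ∈ K.Dg n := K.W_le 0 n x (nul_W 0 n x ha)

theorem nul_Cl : K.Nul ≤ K.Cl := fun n x a ha => K.nul_d n x a ha

theorem nul_Ex : K.Nul ≤ K.Ex := fun _ _ => le_sup_right

theorem mem_Ex : a ∈ K.Ex n x ↔ ∃ v ∈ K.Dg (n - 1), a - K.d v ∈ K.Nul n x := by
  refine ⟨fun h => ?_, fun ⟨v, hv, h⟩ => Submodule.mem_sup.2 ⟨_, ⟨v, hv, rfl⟩, _, h, by abel⟩⟩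
  obtain ⟨_, ⟨v, hv, rfl⟩, u, hu, rfl⟩ := Submodule.mem_sup.1 h
  exact ⟨v, hv, by rwa [add_sub_cancel_left]⟩

theorem Ex_Cl : K.Ex ≤ K.Cl := fun n x a ha => by
  obtain ⟨v, -, h⟩ := mem_Ex.1 ha
  have := K.nul_d n x _ h
  rwa [map_sub, K.dd, sub_zero] at this

theorem opn_Cl : Opn K.Cl := fun _ x _ ha => K.nul_opn _ x _ ha

theorem opn_Ex : Opn K.Ex := fun _ x _ ha =>
  let ⟨v, hv, h⟩ := mem_Ex.1 ha
  (K.nul_opn _ x _ h).mono fun _ h => mem_Ex.2 ⟨v, hv, h⟩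

theorem mem_Y : a ∈ K.Y q n x ↔ ∃ b, (a, b) ∈ K.Cj q n x :=
  ⟨fun ⟨u, hu, e⟩ => ⟨u.2, e ▸ hu⟩, fun ⟨_, h⟩ => ⟨_, h, rfl⟩⟩

theorem W_monotone : Monotone K.W := monotone_int_of_le_succ fun q n x => by
  simpa using K.W_mono (q + 1) n x

theorem mem_col_of (ha : a ∈ K.Dg n) (hc : K.e c a = a) (h1 : 2 * c = n - q → a ∈ T n x)
    (h2 : 2 * c < n - q → a ∈ K.Nul n x) : a ∈ K.col q T n x := by
  refine ⟨ha, fun c' => ?_⟩
  rw [← hc]
  exact ⟨fun h => K.toDC.ee_mem fun e => by rw [hc]; exact h1 (e ▸ h),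
    fun h => K.toDC.ee_mem fun e => by rw [hc]; exact h2 (e ▸ h)⟩

theorem col_e (c : ℕ) (ha : a ∈ K.col q T n x) : K.e c a ∈ K.col q T n x :=
  mem_col_of (K.e_mem c n a ha.1) (K.ee c a) (ha.2 c).1 (ha.2 c).2

theorem col_mono (h : q ≤ q') (hT : q = q' → T ≤ T') (hN : K.Nul ≤ T') :
    K.col q T ≤ K.col q' T' := fun n x _ ha => ⟨ha.1, fun c => ⟨fun e => by
  rcases h.eq_or_lt with h | h
  · exact hT h n x ((ha.2 c).1 (h ▸ e))
  · exact hN n x ((ha.2 c).2 (by omega)), fun e => (ha.2 c).2 (by omega)⟩⟩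

theorem nul_col (hN : K.Nul ≤ T) : K.Nul ≤ K.col q T := fun n x a ha =>
  ⟨nul_Dg ha, fun c => ⟨fun _ => hN n x (K.nul_e c n x a ha), fun _ => K.nul_e c n x a ha⟩⟩

theorem col_δ (hN : K.Nul ≤ T) (ha : a ∈ K.col q T n x) : K.δ a ∈ K.col q T (n + 1) x := by
  have h : ∀ c : ℕ, 2 * c ≤ n + 1 - q → K.e c (K.δ a) ∈ K.Nul (n + 1) x := fun c hc =>
    K.toDC.eδ_mem fun c' e => K.nul_δ _ _ _ ((ha.2 c').2 (by omega))
  exact ⟨K.δ_mem n a ha.1, fun c => ⟨fun e => hN _ _ (h c e.le), fun e => h c e.le⟩⟩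

theorem col_sub (ho : Opn T) (h1 : K.Ex ≤ T) (h2 : T ≤ K.Cl) : SubS K.toDC.D K.Dg (K.col q T) := by
  refine ⟨fun n x a ha => ha.1, fun n x a ha => ?_, fun n x a ha =>
    add_mem ⟨K.d_mem n a ha.1, fun c => ?_⟩ (col_δ (nul_Ex.trans h1) ha)⟩
  · have h : ∀ᶠ y in 𝓝 x, ∀ c ∈ Finset.range K.C, ((2 * c : ℤ) = n - q → K.e c a ∈ T n y) ∧
        ((2 * c : ℤ) < n - q → K.e c a ∈ K.Nul n y) :=
      (eventually_all_finset _).2 fun c _ =>
        (eventually_imp_distrib_left.2 fun e => ho n x _ ((ha.2 c).1 e)).and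
          (eventually_imp_distrib_left.2 fun e => K.nul_opn n x _ ((ha.2 c).2 e))
    filter_upwards [h] with y hy
    refine ⟨ha.1, fun c => ?_⟩
    rcases lt_or_ge c K.C with hc | hc
    · exact hy c (Finset.mem_range.2 hc)
    · rw [K.toDC.e_zero hc]; exact ⟨fun _ => zero_mem _, fun _ => zero_mem _⟩
  · rw [K.ed]
    refine ⟨fun _ => h1 _ _ (mem_Ex.2 ⟨K.e c a, by simpa using K.e_mem c n a ha.1, by simp⟩),
      fun e => ?_⟩
    rcases (by omega : 2 * c = n - q ∨ 2 * c < n - q) with e | e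
    · exact h2 n x ((ha.2 c).1 e)
    · exact K.nul_d _ _ _ ((ha.2 c).2 e)

theorem W_sub (q : ℤ) : SubS K.toDC.D K.Dg (K.W q) :=
  ⟨K.W_le q, K.W_opn q, fun n x a ha =>
    add_mem (K.W_d q n x a ha) (K.W_mono q _ x (K.W_δ q n x a ha))⟩

theorem Cj_zero (ha : a ∈ K.W (q - 1) n x) : ((0 : A), a) ∈ K.Cj q n x :=
  K.Cj_symm q n x _ _ (K.le_Cj q n x a ha)

theorem Cj_D {b : A} (h : (a, b) ∈ K.Cj q n x) : (K.toDC.D a, K.toDC.D b) ∈ K.Cj q (n + 1) x := by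
  have h1 := add_mem (add_mem (K.Cj_d q n x a b h)
    (K.le_Cj q _ x _ (K.W_δ q n x a (K.Cj_le q n x a b h))))
    (Cj_zero (K.W_δ q n x b (K.Cj_le q n x b a (K.Cj_symm q n x a b h))))
  simpa [DC.D_apply] using h1

theorem W_Y (q : ℤ) : K.W (q - 1) ≤ K.Y q := fun n x a ha => mem_Y.2 ⟨0, K.le_Cj q n x a ha⟩

theorem Y_W (q : ℤ) : K.Y q ≤ K.W q := fun n x a ha =>
  let ⟨b, h⟩ := mem_Y.1 ha; K.Cj_le q n x a b h

theorem Y_sub (q : ℤ) : SubS K.toDC.D K.Dg (K.Y q) :=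
  ⟨fun n x => (Y_W q n x).trans (K.W_le q n x),
    fun n x _ ha => let ⟨b, h⟩ := mem_Y.1 ha; (K.Cj_opn q n x _ h).mono fun _ h => mem_Y.2 ⟨b, h⟩,
    fun _ _ _ ha => let ⟨_, h⟩ := mem_Y.1 ha; mem_Y.2 ⟨_, Cj_D h⟩⟩

end KH

end Pool.Agent.PWD.G
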