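import Pool.Agent.P.MP_65ad7c_ag.VDefs

open Set Filter Topology Metric

noncomputable section
namespace Pool.Agent.PWV

open MvPolynomial

variable {n : ℕ}

theorem vmonic_prod {R σ : Type} [CommRing R] {φ : σ → Polynomial R}
    (hφ : ∀ i, (φ i).natDegree ≤ 1) (a : σ → ℕ) (s : Finset σ) :
    (∏ i ∈ s, φ i ^ a i).natDegree ≤ ∑ i ∈ s, a i ∧
      (∏ i ∈ s, φ i ^ a i).coeff (∑ i ∈ s, a i) = ∏ i ∈ s, (φ i).coeff 1 ^ a i := by
  classical
  induction s using Finset.induction_on with
  | empty => simp
  | insert i s hi ih =>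
    have h1 : (φ i ^ a i).natDegree ≤ a i := by
      simpa using Polynomial.natDegree_pow_le_of_le (a i) (hφ i)
    have h2 : (φ i ^ a i).coeff (a i) = (φ i).coeff 1 ^ a i := by
      simpa using Polynomial.coeff_pow_of_natDegree_le (m := a i) (hφ i)
    rw [Finset.prod_insert hi, Finset.sum_insert hi, Finset.prod_insert hi]
    exact ⟨Polynomial.natDegree_mul_le_of_le h1 ih.1, by
      rw [Polynomial.coeff_mul_add_eq_of_natDegree_le h1 ih.1, h2, ih.2]⟩

/-- The substitution of the shear. -/
def vmonic_phi (v : Fin n → ℂ) : Fin (n + 1) → Polynomial (MvPolynomial (Fin n) ℂ) :=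
  Fin.cons Polynomial.X fun i => Polynomial.C (C (v i)) * Polynomial.X + Polynomial.C (X i)

theorem vmonic_deg (v : Fin n → ℂ) (i : Fin (n + 1)) : (vmonic_phi v i).natDegree ≤ 1 :=
  Fin.cases Polynomial.natDegree_X_le (fun _ => Polynomial.natDegree_linear_le) i

theorem vmonic_eval (v x : Fin n → ℂ) (t : ℂ) (g : MvPolynomial (Fin (n + 1)) ℂ) :
    ((aeval (vmonic_phi v) g).map (eval x)).eval t = eval (shear v x t) g := by
  induction g using MvPolynomial.induction_on with
  | C a => simp
  | add p q hp hq => rw [map_add, Polynomial.map_add, Polynomial.eval_add, hp, hq, map_add]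
  | mul_X p i hp =>
    rw [map_mul, Polynomial.map_mul, Polynomial.eval_mul, hp, map_mul, aeval_X, eval_X]
    refine congrArg _ (Fin.cases ?_ (fun i => ?_) i)
    · simp [vmonic_phi, shear]
    · simp only [vmonic_phi, shear, Fin.cons_succ, Polynomial.map_add, Polynomial.map_mul,
        Polynomial.map_C, Polynomial.map_X, Polynomial.eval_add, Polynomial.eval_mul,
        Polynomial.eval_C, Polynomial.eval_X, eval_C, eval_X]
      ring

/-- In a generic direction a polynomial is monic up to a constant. -/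
theorem monic_dir {g : MvPolynomial (Fin (n + 1)) ℂ} (hg : g ≠ 0) :
    ∃ h : MvPolynomial (Fin n) ℂ, h ≠ 0 ∧ ∀ v : Fin n → ℂ, eval v h ≠ 0 →
      ∃ G : Polynomial (MvPolynomial (Fin n) ℂ), G.Monic ∧
        ∀ x t, eval (shear v x t) g = 0 ↔ t ∈ rt G x := by
  classical
  obtain ⟨a₀, ha₀, hd⟩ := Finset.exists_mem_eq_sup g.support (support_nonempty.2 hg)
    fun s => s.sum fun _ e => e
  have hd' : g.totalDegree = ∑ i, a₀ i := hd.trans (Finsupp.sum_fintype _ _ fun _ => rfl)
  have hle : ∀ a ∈ g.support, ∑ i, a i ≤ g.totalDegree := fun a ha =>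
    (Finsupp.sum_fintype a (fun _ e => e) fun _ => rfl).symm.trans_le (le_totalDegree ha)
  refine ⟨∑ a ∈ g.support.filter (fun a => ∑ i, a i = g.totalDegree),
    monomial (Finsupp.tail a) (coeff a g), fun h0 => ?_, fun v hv => ?_⟩
  · have h1 := congrArg (coeff (Finsupp.tail a₀)) h0
    rw [coeff_sum, Finset.sum_eq_single a₀, coeff_monomial, if_pos rfl, coeff_zero] at h1
    · exact mem_support_iff.1 ha₀ h1
    · intro a ha hne
      rw [coeff_monomial, if_neg]
      intro e
      have e1 : ∀ i : Fin n, a i.succ = a₀ i.succ := fun i => DFunLike.congr_fun e i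
      have e2 := (Finset.mem_filter.1 ha).2
      rw [hd', Fin.sum_univ_succ, Fin.sum_univ_succ, Finset.sum_congr rfl fun i _ => e1 i] at e2
      refine hne (Finsupp.ext fun i => ?_)
      exact Fin.cases (Nat.add_right_cancel e2) e1 i
    · intro h
      exact absurd (Finset.mem_filter.2 ⟨ha₀, hd'.symm⟩) h
  · generalize hc : eval v (∑ a ∈ g.support.filter (fun a => ∑ i, a i = g.totalDegree),
      monomial (Finsupp.tail a) (coeff a g)) = c at hv
    have hφ := vmonic_deg v
    have hexp : aeval (vmonic_phi v) g = ∑ a ∈ g.support,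
        Polynomial.C (C (coeff a g)) * ∏ i, vmonic_phi v i ^ a i := by
      conv_lhs => rw [g.as_sum]
      rw [map_sum]
      refine Finset.sum_congr rfl fun a _ => ?_
      rw [aeval_monomial, Finsupp.prod_fintype _ _ fun _ => pow_zero _]
      rfl
    have hdeg : (aeval (vmonic_phi v) g).natDegree ≤ g.totalDegree := by
      rw [hexp]
      refine Polynomial.natDegree_sum_le_of_forall_le _ _ fun a ha => ?_
      exact (Polynomial.natDegree_C_mul_le _ _).trans
        ((vmonic_prod hφ a Finset.univ).1.trans (hle a ha))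
    have hco : (aeval (vmonic_phi v) g).coeff g.totalDegree = C c := by
      rw [hexp, ← hc, Polynomial.finsetSum_coeff, map_sum, map_sum, Finset.sum_filter]
      refine Finset.sum_congr rfl fun a ha => ?_
      rw [Polynomial.coeff_C_mul]
      split_ifs with h
      · rw [← h, (vmonic_prod hφ a Finset.univ).2, eval_monomial,
          Finsupp.prod_fintype _ _ fun _ => pow_zero _, Fin.prod_univ_succ, map_mul, map_prod]
        simp [vmonic_phi, Finsupp.tail_apply]
      · rw [Polynomial.coeff_eq_zero_of_natDegree_lt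
          ((vmonic_prod hφ a Finset.univ).1.trans_lt (lt_of_le_of_ne (hle a ha) h)), mul_zero]
    refine ⟨Polynomial.C (C c⁻¹) * aeval (vmonic_phi v) g,
      Polynomial.monic_of_natDegree_le_of_coeff_eq_one g.totalDegree
        ((Polynomial.natDegree_C_mul_le _ _).trans hdeg) ?_, fun x t => ?_⟩
    · rw [Polynomial.coeff_C_mul, hco, ← map_mul, inv_mul_cancel₀ hv, map_one]
    · rw [rt, mem_ofPred_eq, Polynomial.map_mul, Polynomial.map_C, Polynomial.eval_mul,
        Polynomial.eval_C, eval_C, vmonic_eval, mul_eq_zero, or_iff_right (inv_ne_zero hv)]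

theorem prj_shear (v x : Fin n → ℂ) (t : ℂ) : prj v (shear v x t) = x := by
  funext i
  simp [prj, shear]

theorem shear_prj (v : Fin n → ℂ) (x : Fin (n + 1) → ℂ) : shear v (prj v x) (x 0) = x := by
  funext i
  refine Fin.cases rfl (fun i => ?_) i
  simp [prj, shear]

theorem prj_poly (v : Fin n → ℂ) : ∃ f : Fin n → MvPolynomial (Fin (n + 1)) ℂ,
    ∀ x, prj v x = fun i => eval x (f i) := by
  refine ⟨fun i => X i.succ - X 0 * C (v i), fun x => ?_⟩
  funext i
  simp [prj]

theorem shear_poly (v : Fin n → ℂ) : ∃ f : Fin (n + 1) → MvPolynomial (Fin (n + 1)) ℂ,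
    ∀ x : Fin (n + 1) → ℂ, shear v (Fin.tail x) (x 0) = fun i => eval x (f i) := by
  refine ⟨Fin.cons (X 0) fun i => X i.succ + X 0 * C (v i), fun x => ?_⟩
  funext i
  refine Fin.cases ?_ (fun i => ?_) i <;> simp [shear, Fin.tail]

theorem isHomeomorph_sc (v : Fin n → ℂ) {R : (Fin n → ℂ) → ℝ} (hR : Continuous R)
    (h0 : ∀ x, 0 < R x) : IsHomeomorph (sc v R) := by
  have hne : ∀ x, (R x : ℂ) ≠ 0 := fun x => Complex.ofReal_ne_zero.2 (h0 x).ne'
  have hp : Continuous (prj v) := continuous_pi fun i =>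
    (continuous_apply _).sub ((continuous_apply _).mul continuous_const)
  have ht : Continuous fun p : (Fin n → ℂ) × ℂ => (R p.1 : ℂ) * p.2 :=
    (Complex.continuous_ofReal.comp (hR.comp continuous_fst)).mul continuous_snd
  refine isHomeomorph_iff_exists_inverse.2 ⟨continuous_pi fun i => ?_,
    fun x => (prj v x, x 0 / R (prj v x)), fun p => ?_, fun x => ?_, ?_⟩
  · refine Fin.cases ht (fun i => ?_) i
    exact ((continuous_apply i).comp continuous_fst).add (ht.mul continuous_const)
  · have e : prj v (sc v R p) = p.1 := prj_shear _ _ _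
    refine Prod.ext e ?_
    change (R p.1 : ℂ) * p.2 / R (prj v (sc v R p)) = p.2
    rw [e, mul_div_cancel_left₀ _ (hne _)]
  · change shear v (prj v x) (R (prj v x) * (x 0 / R (prj v x))) = x
    rw [mul_div_cancel₀ _ (hne _), shear_prj]
  · exact hp.prodMk ((continuous_apply 0).div (Complex.continuous_ofReal.comp (hR.comp hp))
      fun x => hne _)

theorem prj_sc (v : Fin n → ℂ) (R : (Fin n → ℂ) → ℝ) (p : (Fin n → ℂ) × ℂ) :
    prj v (sc v R p) = p.1 := by
  exact prj_shear _ _ _

end Pool.Agent.PWV
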