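import Pool.Agent.P.MP_65ad7c_ag.VDefs

open Set Filter Topology Metric

noncomputable section
namespace Pool.Agent.PWV

open MvPolynomial

variable {n : ℕ} {G : Polynomial (MvPolynomial (Fin n) ℂ)}

theorem vrootc_cont (G : Polynomial (MvPolynomial (Fin n) ℂ)) :
    Continuous fun p : (Fin n → ℂ) × ℂ => (G.map (MvPolynomial.eval p.1)).eval p.2 := by
  have e : (fun p : (Fin n → ℂ) × ℂ => (G.map (MvPolynomial.eval p.1)).eval p.2) =
      fun p => ∑ i ∈ Finset.range (G.natDegree + 1),
        MvPolynomial.eval p.1 (G.coeff i) * p.2 ^ i := by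
    funext p
    rw [Polynomial.eval_map, Polynomial.eval₂_eq_sum_range]
  rw [e]
  refine continuous_finsetSum _ fun i _ => ?_
  exact ((MvPolynomial.continuous_eval (G.coeff i)).comp continuous_fst).mul
    (continuous_snd.pow i)

theorem rt_finite (hG : G.Monic) (x : Fin n → ℂ) : (rt G x).Finite :=
  Polynomial.finite_setOfPred_isRoot (hG.map (MvPolynomial.eval x)).ne_zero

theorem isClosed_rt (G : Polynomial (MvPolynomial (Fin n) ℂ)) :
    IsClosed {p : (Fin n → ℂ) × ℂ | p.2 ∈ rt G p.1} :=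
  isClosed_eq (vrootc_cont G) continuous_const

theorem isClosed_Rt (G : Polynomial (MvPolynomial (Fin n) ℂ)) {R : (Fin n → ℂ) → ℝ}
    (hR : Continuous R) : IsClosed (Rt G R) := by
  have hc : Continuous fun p : (Fin n → ℂ) × ℂ => (p.1, (R p.1 : ℂ) * p.2) :=
    continuous_fst.prodMk
      ((Complex.continuous_ofReal.comp (hR.comp continuous_fst)).mul continuous_snd)
  exact (isClosed_rt G).preimage hc

theorem rootb (hG : G.Monic) : ∃ R : (Fin n → ℂ) → ℝ, Continuous R ∧ (∀ x, 0 < R x) ∧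
    ∀ x, ∀ t ∈ rt G x, ‖t‖ < R x := by
  refine ⟨fun x => ∑ i ∈ Finset.range G.natDegree, ‖MvPolynomial.eval x (G.coeff i)‖ + 1,
    ?_, fun x => ?_, fun x t ht => ?_⟩
  · exact (continuous_finsetSum _ fun i _ =>
      (MvPolynomial.continuous_eval (G.coeff i)).norm).add continuous_const
  · positivity
  · have hm := hG.map (MvPolynomial.eval x)
    have h1 := Polynomial.IsRoot.norm_lt_cauchyBound hm.ne_zero ht
    have h2 : (G.map (MvPolynomial.eval x)).cauchyBound ≤
        ∑ i ∈ Finset.range G.natDegree, ‖MvPolynomial.eval x (G.coeff i)‖₊ + 1 := by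
      rw [Polynomial.cauchyBound, hm.leadingCoeff, nnnorm_one, div_one, hG.natDegree_map]
      refine add_le_add_left (Finset.sup_le fun i hi => ?_) 1
      rw [Polynomial.coeff_map]
      exact Finset.single_le_sum (f := fun i => ‖MvPolynomial.eval x (G.coeff i)‖₊)
        (fun _ _ => zero_le) hi
    have h3 := NNReal.coe_lt_coe.2 (h1.trans_le h2)
    simpa using h3

theorem vrootc_lsc (hG : G.Monic) {x : Fin n → ℂ} {ρ : ℂ} (hρ : ρ ∈ rt G x) {U : Set ℂ}
    (hU : U ∈ 𝓝 ρ) : ∀ᶠ y in 𝓝 x, ∃ t ∈ rt G y, t ∈ U := by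
  obtain ⟨e, he, hb⟩ := Metric.mem_nhds_iff.1 hU
  have hc : Continuous fun y : Fin n → ℂ => ‖(G.map (MvPolynomial.eval y)).eval ρ‖ :=
    ((vrootc_cont G).comp (continuous_id.prodMk continuous_const)).norm
  have h0 : ‖(G.map (MvPolynomial.eval x)).eval ρ‖ < e ^ G.natDegree := by
    have : (G.map (MvPolynomial.eval x)).eval ρ = 0 := hρ
    rw [this, norm_zero]
    positivity
  filter_upwards [hc.continuousAt.eventually_lt continuousAt_const h0] with y hy
  by_contra hno
  push Not at hno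
  have hm := hG.map (MvPolynomial.eval y)
  have hs := IsAlgClosed.splits (G.map (MvPolynomial.eval y))
  have hcard : (G.map (MvPolynomial.eval y)).roots.card = G.natDegree := by
    rw [← hs.natDegree_eq_card_roots, hG.natDegree_map]
  have key : ∀ s : Multiset ℂ, (∀ t ∈ s, e ≤ ‖ρ - t‖) →
      e ^ s.card ≤ ‖(s.map (ρ - ·)).prod‖ := by
    intro s
    induction s using Multiset.induction_on with
    | empty => simp
    | cons a s ih =>
      intro h
      rw [Multiset.card_cons, Multiset.map_cons, Multiset.prod_cons, norm_mul, pow_succ']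
      exact mul_le_mul (h a (Multiset.mem_cons_self a s))
        (ih fun t ht => h t (Multiset.mem_cons_of_mem ht)) (by positivity) (norm_nonneg _)
  have := key (G.map (MvPolynomial.eval y)).roots fun t ht => by
    by_contra hlt
    refine hno t (Polynomial.isRoot_of_mem_roots ht) (hb ?_)
    rw [mem_ball, dist_comm, dist_eq_norm]
    exact not_le.1 hlt
  rw [hcard, ← hs.eval_eq_prod_roots_of_monic hm] at this
  exact absurd hy (not_lt.2 this)

/-- Where their number is constant, the roots are continuous functions. -/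
theorem rootc (hG : G.Monic) {W : Set (Fin n → ℂ)} {k : ℕ} (hk : ∀ y ∈ W, (rt G y).ncard = k)
    {x : Fin n → ℂ} (hx : x ∈ W) :
    ∃ W' ⊆ W, W' ∈ 𝓝[W] x ∧ ∃ r : Fin k → (Fin n → ℂ) → ℂ, (∀ i, ContinuousOn (r i) W') ∧
      ∀ y ∈ W', (Function.Injective fun i => r i y) ∧ rt G y = range fun i => r i y := by
  obtain ⟨m, ρ, hρ, hrg⟩ := (rt_finite hG x).fin_param
  have hm : m = k := by
    rw [← hk x hx, ← hrg, Set.ncard_range_of_injective hρ, Nat.card_eq_fintype_card,
      Fintype.card_fin]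
  subst hm
  obtain ⟨U, hU, hdisj⟩ := (rt_finite hG x).t2_separation
  have hmem : ∀ i, ρ i ∈ rt G x := fun i => hrg ▸ mem_range_self i
  have huniq : ∀ i j t, t ∈ U (ρ i) → t ∈ U (ρ j) → i = j := by
    intro i j t hi hj
    by_contra hij
    exact Set.disjoint_left.1 (hdisj (hmem i) (hmem j) fun e => hij (hρ e)) hi hj
  have hex : ∀ (i : Fin m) (y : Fin n → ℂ), ∃ t : ℂ,
      (∃ t ∈ rt G y, t ∈ U (ρ i)) → t ∈ rt G y ∧ t ∈ U (ρ i) := by
    intro i y
    by_cases h : ∃ t ∈ rt G y, t ∈ U (ρ i)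
    · obtain ⟨t, ht⟩ := h
      exact ⟨t, fun _ => ht⟩
    · exact ⟨0, fun h' => absurd h' h⟩
  choose r hr using hex
  have hmain : ∀ y ∈ W ∩ {y | ∀ i, ∃ t ∈ rt G y, t ∈ U (ρ i)},
      (Function.Injective fun i => r i y) ∧ rt G y = range fun i => r i y := by
    rintro y ⟨hy, hy'⟩
    have inj : Function.Injective fun i => r i y := by
      intro i j e
      have e' : r i y = r j y := e
      exact huniq i j (r i y) (hr i y (hy' i)).2 (e' ▸ (hr j y (hy' j)).2)
    refine ⟨inj, (Set.eq_of_subset_of_ncard_le ?_ ?_ (rt_finite hG y)).symm⟩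
    · rintro _ ⟨i, rfl⟩
      exact (hr i y (hy' i)).1
    · rw [hk y hy, Set.ncard_range_of_injective inj, Nat.card_eq_fintype_card, Fintype.card_fin]
  refine ⟨W ∩ {y | ∀ i, ∃ t ∈ rt G y, t ∈ U (ρ i)}, inter_subset_left, ?_, r, ?_, hmain⟩
  · refine inter_mem_nhdsWithin W (eventually_all.2 fun i => ?_)
    exact vrootc_lsc hG (hmem i) ((hU (ρ i)).2.mem_nhds (hU (ρ i)).1)
  · intro i y hy V hV
    have h1 := hr i y (hy.2 i)
    have h2 := vrootc_lsc hG h1.1 (inter_mem hV ((hU (ρ i)).2.mem_nhds h1.2))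
    rw [mem_map]
    filter_upwards [mem_nhdsWithin_of_mem_nhds h2, self_mem_nhdsWithin] with z hz hzW
    obtain ⟨t, ht, htV, htU⟩ := hz
    rw [(hmain z hzW).2] at ht
    obtain ⟨j, rfl⟩ := ht
    have := huniq i j (r j z) htU (hr j z (hzW.2 j)).2
    subst this
    exact htV

end Pool.Agent.PWV
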