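import Pool.Agent.P.MP_65ad7c_ag.VInt
import Pool.Agent.P.MP_65ad7c_ag.VMonic
import Pool.Agent.P.MP_65ad7c_ag.VRootC
import Pool.Agent.P.MP_65ad7c_ag.VTr

open Set Filter Topology Metric

noncomputable section
namespace Pool.Agent.PWV

open MvPolynomial

variable {X : Cx} {n : ℕ}

namespace FC

theorem vpre_core {g : MvPolynomial (Fin (n + 1)) ℂ} {v : Fin n → ℂ}
    {G : Polynomial (MvPolynomial (Fin n) ℂ)} (hG : G.Monic)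
    (hg : ∀ x t, eval (shear v x t) g = 0 ↔ t ∈ rt G x) (R : (Fin n → ℂ) → ℝ)
    {V : Set (Fin n → ℂ)} {e : ℕ} (hV : ZC V) (hd : Dim V (e + 1)) :
    ∃ W : Set (Fin (n + 1) → ℂ), ZC W ∧ Dim W (e + 1) ∧ sc v R ⁻¹' W = Rt G R ∩ V ×ˢ univ ∧
      ∀ V4 : Set (Fin (n + 1) → ℂ), Dim V4 e → ∃ V', ZC V' ∧ Dim V' e ∧
        sc v R '' (Rt G R ∩ (V \ V') ×ˢ univ) ⊆ W \ V4 := by
  obtain ⟨f, hf⟩ := prj_poly v
  obtain ⟨f', hf'⟩ := shear_poly v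
  have e1 : sc v R ⁻¹' ({x | eval x g = 0} ∩ {x | (fun i => eval x (f i)) ∈ V}) =
      Rt G R ∩ V ×ˢ univ := by
    ext p
    simp only [mem_preimage, mem_inter_iff, mem_ofPred_eq, mem_prod, mem_univ, and_true, ← hf,
      prj_sc]
    exact and_congr_left' (hg _ _)
  refine ⟨_, (zc_zero g).inter (hV.preimage f), ((dim_roots hG hd).image f').mono ?_, e1,
    fun V4 d4 => ⟨_, zc_zcl _, (d4.image f).zcl, ?_⟩⟩
  · rintro x ⟨h1, h2⟩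
    refine ⟨Fin.cons (x 0) (prj v x), ⟨?_, ?_⟩, ?_⟩
    · rw [Fin.tail_cons, hf]
      exact h2
    · rw [Fin.tail_cons, Fin.cons_zero, ← hg, shear_prj]
      exact h1
    · show (fun i => eval (Fin.cons (x 0) (prj v x) : Fin (n + 1) → ℂ) (f' i)) = x
      rw [← hf', Fin.tail_cons, Fin.cons_zero, shear_prj]
  · rintro _ ⟨p, ⟨h1, h2, -⟩, rfl⟩
    refine ⟨?_, fun h => h2.2 (subset_zcl _ ⟨_, h, ?_⟩)⟩
    · rw [← mem_preimage, e1]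
      exact ⟨h1, h2.1, trivial⟩
    · exact (hf _).symm.trans (prj_sc v R p)

theorem preW (Q : FC X (Fin (n + 1) → ℂ)) {a : ℤ} (h : GW Q a) {g : MvPolynomial (Fin (n + 1)) ℂ}
    {v : Fin n → ℂ} {G : Polynomial (MvPolynomial (Fin n) ℂ)} (hG : G.Monic)
    (hg : ∀ x t, eval (shear v x t) g = 0 ↔ t ∈ rt G x) {R : (Fin n → ℂ) → ℝ}
    (hs : IsHomeomorph (sc v R)) (V : Set (Fin n → ℂ)) (e : ℕ) (hV : ZC V) (hd : Dim V (e + 1)) :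
    ∃ V', ZC V' ∧ Dim V' e ∧
      ((Q.comap _ hs.isInducing).gam (Rt G R ∩ V ×ˢ univ)).PC (Rt G R ∩ (V \ V') ×ˢ univ) ∧
      ((Q.comap _ hs.isInducing).gam (Rt G R ∩ V ×ˢ univ)).Deg (Rt G R ∩ (V \ V') ×ˢ univ)
        (a - e) := by
  obtain ⟨W, h1, h2, h3, h4⟩ := vpre_core hG hg R hV hd
  obtain ⟨V4, -, d4, p4, q4⟩ := h W e h1 h2
  obtain ⟨V', z, d, s⟩ := h4 V4 d4
  have t := tr_gam_comap (supp_univ Q) hs.isInducing isOpen_univ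
    (by rw [hs.surjective.range_eq, inter_self]) h1.isClosed
  rw [h3] at t
  exact ⟨V', z, d, (t.pc hs.isEmbedding _).2 (p4.mono s), (t.deg _ _).2 (q4.mono s le_rfl)⟩

theorem preA (Q : FC X (Fin (n + 1) → ℂ)) {a : ℤ} (h : GA Q a) {g : MvPolynomial (Fin (n + 1)) ℂ}
    {v : Fin n → ℂ} {G : Polynomial (MvPolynomial (Fin n) ℂ)} (hG : G.Monic)
    (hg : ∀ x t, eval (shear v x t) g = 0 ↔ t ∈ rt G x) {R : (Fin n → ℂ) → ℝ}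
    (hs : IsHomeomorph (sc v R)) (V : Set (Fin n → ℂ)) (e : ℕ) (hV : ZC V) (hd : Dim V (e + 1)) :
    ∃ V', ZC V' ∧ Dim V' e ∧ (Q.comap _ hs.isInducing).PC (Rt G R ∩ (V \ V') ×ˢ univ) ∧
      (Q.comap _ hs.isInducing).DegLe (Rt G R ∩ (V \ V') ×ˢ univ) (a - e) := by
  obtain ⟨W, h1, h2, -, h4⟩ := vpre_core hG hg R hV hd
  obtain ⟨V4, -, d4, p4, q4⟩ := h W e h1 h2
  obtain ⟨V', z, d, s⟩ := h4 V4 d4
  have t := tr_comap Q hs.isInducing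
  exact ⟨V', z, d, (t.pc hs.isEmbedding _).2 (p4.mono s), (t.degLe _ _).2 (q4.mono s le_rfl)⟩

theorem topW {N : ℕ} (Q : FC X (Fin N → ℂ)) {a : ℤ} (h : GW Q a) :
    ∃ g : MvPolynomial (Fin N) ℂ, g ≠ 0 ∧ Q.PC {x | eval x g = 0}ᶜ ∧
      Q.Deg {x | eval x g = 0}ᶜ (a - N) := by
  obtain ⟨V', -, d, p, q⟩ := h univ N zc_univ (dim_univ N)
  obtain ⟨g, hg, h0⟩ := d.exists_poly
  rw [gam_univ] at p q
  have s : {x | eval x g = 0}ᶜ ⊆ univ \ V' := fun x hx => ⟨trivial, fun h' => hx (h0 x h')⟩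
  exact ⟨g, hg, p.mono s, q.mono s le_rfl⟩

theorem topA {N : ℕ} (Q : FC X (Fin N → ℂ)) {a : ℤ} (h : GA Q a) :
    ∃ g : MvPolynomial (Fin N) ℂ, g ≠ 0 ∧ Q.PC {x | eval x g = 0}ᶜ ∧
      Q.DegLe {x | eval x g = 0}ᶜ (a - N) := by
  obtain ⟨V', -, d, p, q⟩ := h univ N zc_univ (dim_univ N)
  obtain ⟨g, hg, h0⟩ := d.exists_poly
  have s : {x | eval x g = 0}ᶜ ⊆ univ \ V' := fun x hx => ⟨trivial, fun h' => hx (h0 x h')⟩
  exact ⟨g, hg, p.mono s, q.mono s le_rfl⟩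

end FC

end Pool.Agent.PWV
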