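import Pool.Agent.P.MP_65ad7c_ag.VTr

open Set Filter Topology Metric

noncomputable section
namespace Pool.Agent.PWV

variable {X : Cx} {T T' : Type} [MetricSpace T] [MetricSpace T']

namespace FC
variable {Q : FC X T} {n : ℤ}

theorem mem_Cc {v : X.V n} : v ∈ Q.Cc n ↔ ∃ K, IsCompact K ∧ v ∈ Q.ZT Kᶜ n := by
  have : Nonempty {K : Set T // IsCompact K} := ⟨⟨∅, isCompact_empty⟩⟩
  have hd : Directed (· ≤ ·) fun K : {K : Set T // IsCompact K} => Q.ZT K.1ᶜ n := by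
    intro K K'
    have h1 : Q.ZT K.1ᶜ ≤ Q.ZT (K.1 ∪ K'.1)ᶜ := ZT_anti (compl_subset_compl.2 subset_union_left)
    have h2 : Q.ZT K'.1ᶜ ≤ Q.ZT (K.1 ∪ K'.1)ᶜ := ZT_anti (compl_subset_compl.2 subset_union_right)
    exact ⟨⟨K.1 ∪ K'.1, K.2.union K'.2⟩, h1 n, h2 n⟩
  refine (Submodule.mem_iSup_of_directed _ hd).trans ?_
  exact ⟨fun ⟨K, h⟩ => ⟨K.1, K.2, h⟩, fun ⟨K, hK, h⟩ => ⟨⟨K, hK⟩, h⟩⟩

theorem Cc_stab (Q : FC X T) : X.Stab Q.Cc := by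
  intro n v hv
  obtain ⟨K, hK, h⟩ := mem_Cc.1 hv
  exact mem_Cc.2 ⟨K, hK, Q.ZT_stab _ n v h⟩

theorem cs_iff : Q.CS n ↔ ∀ K, IsCompact K → ∀ v ∈ Q.ZT Kᶜ (n + 1),
    X.d (n + 1) v ∈ Q.ZT univ (n + 1 + 1) → ∃ K', IsCompact K' ∧ Q.Good n v univ K'ᶜ := by
  constructor
  · intro h K hK v hv hd
    obtain ⟨w, hw, h1⟩ := h v (mem_Cc.2 ⟨K, hK, hv⟩) hd
    obtain ⟨K', hK', h2⟩ := mem_Cc.1 hw
    exact ⟨K', hK', w, h2, h1⟩
  · intro h v hv hd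
    obtain ⟨K, hK, h0⟩ := mem_Cc.1 hv
    obtain ⟨K', hK', w, h2, h1⟩ := h K hK v h0 hd
    exact ⟨w, mem_Cc.2 ⟨K', hK', h2⟩, h1⟩

theorem vcc_le (Q : FC X T) : Q.ZT univ ≤ Q.Cc := fun _ _ hv =>
  mem_Cc.2 ⟨∅, isCompact_empty, by rwa [compl_empty]⟩

theorem cs_tri {C : Set T} (hC : IsClosed C) (h1 : (Q.gam C).CS n) (h3 : (Q.loc Cᶜ).CS n) :
    Q.CS n := by
  have e1 : ∀ A, (Q.gam C).ZT A = Q.ZT A ⊓ Q.ZT Cᶜ := fun A => by rw [gam_ZT Q hC, ZT_union]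
  have e2 : (Q.gam C).Cc = Q.Cc ⊓ Q.ZT Cᶜ := by
    ext m v
    rw [mem_Cc]
    simp only [e1]
    exact ⟨fun ⟨K, hK, h⟩ => ⟨mem_Cc.2 ⟨K, hK, h.1⟩, h.2⟩,
      fun ⟨h, h'⟩ => (mem_Cc.1 h).imp fun K hK => ⟨hK.1, hK.2, h'⟩⟩
  have e3 : (Q.loc Cᶜ).Cc = Q.Cc ⊔ Q.ZT Cᶜ := by
    funext m
    simp only [Cc, loc_ZT_compl Q hC, Pi.sup_apply]
    exact le_antisymm (iSup_le fun K => sup_le_sup_right
      (le_iSup (fun K : {K : Set T // IsCompact K} => Q.ZT K.1ᶜ m) K) _)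
      (sup_le (iSup_mono fun K => le_sup_left)
        (le_iSup_of_le ⟨∅, isCompact_empty⟩ le_sup_right))
  rw [CS, e1, e2] at h1
  rw [CS, loc_ZT_compl Q hC, e3] at h3
  exact Cx.tri_mid Q.vcc_le (Q.ZT_stab _) Q.Cc_stab (Q.ZT_stab _) h1 h3

theorem cs_comap {φ : T' → T} (hφ : IsHomeomorph φ) : (Q.comap φ hφ.isInducing).CS n ↔ Q.CS n := by
  have e : (Q.comap φ hφ.isInducing).Cc = Q.Cc := by
    ext m v
    simp only [mem_Cc, comap_ZT, image_compl_eq hφ.bijective]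
    refine ⟨fun ⟨K, hK, h⟩ => ⟨_, hK.image hφ.continuous, h⟩, fun ⟨K, hK, h⟩ =>
      ⟨φ ⁻¹' K, hφ.isClosedEmbedding.isCompact_preimage hK, ?_⟩⟩
    rwa [image_preimage_eq K hφ.surjective]
  rw [CS, CS, e, comap_ZT, image_univ_of_surjective hφ.surjective]

theorem cs_map_fst {R : FC X (T × ℂ)} (h : R.Supp (univ ×ˢ Db)) :
    (R.map (fstC T ℂ)).CS n ↔ R.CS n := by
  have e : (R.map (fstC T ℂ)).Cc = R.Cc := by
    ext m v
    simp only [mem_Cc, h.map_fst_ZT]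
    constructor
    · rintro ⟨K, hK, h1⟩
      have h2 : (K ×ˢ Db)ᶜ ∩ univ ×ˢ Db ⊆ Kᶜ ×ˢ Db := fun p hp =>
        ⟨fun h2 => hp.1 ⟨h2, hp.2.2⟩, hp.2.2⟩
      refine ⟨K ×ˢ Db, hK.prod (isCompact_closedBall 0 1), ?_⟩
      rw [h.ZT_eq]
      exact ZT_anti h2 m h1
    · rintro ⟨K, hK, h1⟩
      have h2 : (Prod.fst '' K)ᶜ ×ˢ Db ⊆ Kᶜ := fun p hp hp' => hp.1 ⟨p, hp', rfl⟩
      exact ⟨Prod.fst '' K, hK.image continuous_fst, ZT_anti h2 m h1⟩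
  rw [CS, CS, e, h.map_fst_ZT, h.ZT_eq univ, univ_inter]

theorem mem_Cf {Φ : ℕ → Set T} (hm : Monotone Φ) {v : X.V n} :
    v ∈ Q.Cf Φ n ↔ ∃ k, v ∈ Q.ZT (Φ k)ᶜ n := by
  have h : Monotone fun k => Q.ZT (Φ k)ᶜ n := fun k l h =>
    ZT_anti (compl_subset_compl.2 (hm h)) n
  exact Submodule.mem_iSup_of_directed _ h.directed_le

theorem vcc_stab (Q : FC X T) {Φ : ℕ → Set T} (hm : Monotone Φ) : X.Stab (Q.Cf Φ) := by
  intro n v hv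
  obtain ⟨k, h⟩ := (mem_Cf hm).1 hv
  exact (mem_Cf hm).2 ⟨k, Q.ZT_stab _ n v h⟩

theorem vcc_le' (Q : FC X T) (Φ : ℕ → Set T) : Q.ZT univ ≤ Q.Cf Φ := fun n =>
  le_iSup_of_le 0 (ZT_anti (subset_univ _) n)

theorem vcc_mono (Q : FC X T) {P R : ℕ → Set T} (h : ∀ k, P k ⊆ R k) : Q.Cf P ≤ Q.Cf R := fun n =>
  iSup_mono fun k => ZT_anti (compl_subset_compl.2 (h k)) n

theorem vcc_union (Q : FC X T) {P R : ℕ → Set T} (hP : ∀ k, IsClosed (P k))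
    (hR : ∀ k, IsClosed (R k)) : (Q.Cf fun k => P k ∪ R k) = Q.Cf P ⊔ Q.Cf R := by
  refine le_antisymm (fun n => iSup_le fun k => ?_) (sup_le
    (Q.vcc_mono fun _ => subset_union_left) (Q.vcc_mono fun _ => subset_union_right))
  rw [compl_union, Q.ZT_inter (sep_of_isOpen (hP k).isOpen_compl (hR k).isOpen_compl)]
  exact sup_le_sup (le_iSup (fun k => Q.ZT (P k)ᶜ n) k) (le_iSup (fun k => Q.ZT (R k)ᶜ n) k)

theorem vcc_inter (Q : FC X T) {P R : ℕ → Set T} (hP : Monotone P) (hR : Monotone R) :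
    (Q.Cf fun k => P k ∩ R k) = Q.Cf P ⊓ Q.Cf R := by
  refine le_antisymm (le_inf (Q.vcc_mono fun _ => inter_subset_left)
    (Q.vcc_mono fun _ => inter_subset_right)) fun n v hv => ?_
  obtain ⟨k, hk⟩ := (mem_Cf hP).1 hv.1
  obtain ⟨l, hl⟩ := (mem_Cf hR).1 hv.2
  refine (mem_Cf (hP.inter hR)).2 ⟨max k l, ?_⟩
  rw [compl_inter, ZT_union]
  exact ⟨ZT_anti (compl_subset_compl.2 (hP (le_max_left k l))) n hk,
    ZT_anti (compl_subset_compl.2 (hR (le_max_right k l))) n hl⟩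

theorem vcc_fam {ι : Type} [DecidableEq ι] (Φ : ι → ℕ → Set T) (hc : ∀ i k, IsClosed (Φ i k))
    (hm : ∀ i, Monotone (Φ i)) {b : ℤ}
    (h : ∀ J : Finset ι, J.Nonempty → ∀ j, j + 1 < b →
      X.ExS j (Q.ZT univ) (Q.Cf fun k => ⋂ i ∈ J, Φ i k))
    (L : Finset ι) : ∀ (J : Finset ι) (j : ℤ), j + 1 + L.card ≤ b →
    X.ExS j (Q.ZT univ) (Q.Cf fun k => (⋂ i ∈ J, Φ i k) ∩ ⋃ i ∈ L, Φ i k) := by
  have mI : ∀ J : Finset ι, Monotone fun k => ⋂ i ∈ J, Φ i k := fun J k l hkl =>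
    iInter₂_mono fun i _ => hm i hkl
  have mU : ∀ J : Finset ι, Monotone fun k => ⋃ i ∈ J, Φ i k := fun J k l hkl =>
    iUnion₂_mono fun i _ => hm i hkl
  have cI : ∀ (J : Finset ι) k, IsClosed (⋂ i ∈ J, Φ i k) := fun J k =>
    isClosed_biInter fun i _ => hc i k
  induction L using Finset.induction_on with
  | empty =>
    intro J j _
    have e : (Q.Cf fun k => (⋂ i ∈ J, Φ i k) ∩ ⋃ i ∈ (∅ : Finset ι), Φ i k) = Q.ZT univ := by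
      funext m
      simp [Cf]
    rw [e]
    exact Q.ex_self j univ
  | insert a L ha ih =>
    intro J j hj
    rw [Finset.card_insert_of_notMem ha] at hj
    push_cast at hj
    have e1 : (fun k => (⋂ i ∈ J, Φ i k) ∩ ⋃ i ∈ insert a L, Φ i k) = fun k =>
        (⋂ i ∈ insert a J, Φ i k) ∪ ((⋂ i ∈ J, Φ i k) ∩ ⋃ i ∈ L, Φ i k) := by
      funext k
      rw [Finset.set_biUnion_insert, Finset.set_biInter_insert, inter_union_distrib_left,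
        inter_comm (Φ a k)]
    have e2 : (fun k => (⋂ i ∈ insert a J, Φ i k) ∩ ⋃ i ∈ L, Φ i k) = fun k =>
        (⋂ i ∈ insert a J, Φ i k) ∩ ((⋂ i ∈ J, Φ i k) ∩ ⋃ i ∈ L, Φ i k) := by
      funext k
      rw [Finset.set_biInter_insert, ← inter_assoc, inter_assoc (Φ a k) _ (⋂ i ∈ J, Φ i k),
        inter_self]
    have mB := (mI J).inter (mU L)
    have sA := Q.vcc_stab (mI (insert a J))
    have sB := Q.vcc_stab mB
    have h3 := ih (insert a J) (j + 1) (by omega)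
    rw [e2, Q.vcc_inter (mI _) mB] at h3
    rw [e1, Q.vcc_union (cI _) fun k =>
      (cI J k).inter (isClosed_biUnion_finset fun i _ => hc i k)]
    exact Cx.exs_mid le_sup_left (Q.vcc_le' _) sA
      (h _ (Finset.insert_nonempty a J) j (by omega))
      ((Cx.exs_exc sA sB).1 (Cx.exs_right (le_inf (Q.vcc_le' _) (Q.vcc_le' _)) inf_le_right sB
        (sA.inf sB) (ih J j (by omega)) h3))

/-- Mayer-Vietoris for families of supports. -/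
theorem mv_fam {ι : Type} [DecidableEq ι] (Φ : ι → ℕ → Set T) (hc : ∀ i k, IsClosed (Φ i k))
    (hm : ∀ i, Monotone (Φ i)) {b : ℤ}
    (h : ∀ J : Finset ι, J.Nonempty → ∀ j, j + 1 < b →
      X.ExS j (Q.ZT univ) (Q.Cf fun k => ⋂ i ∈ J, Φ i k))
    (L : Finset ι) (j : ℤ) (hj : j + 1 + L.card ≤ b) :
    X.ExS j (Q.ZT univ) (Q.Cf fun k => ⋃ i ∈ L, Φ i k) := by
  simpa using vcc_fam Φ hc hm h L ∅ j hj

end FC

end Pool.Agent.PWV
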