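import Pool.Agent.P.MP_65ad7c_ag.VLG

open Set Filter Topology Metric

noncomputable section
namespace Pool.Agent.PWV

variable {X : Cx} {E F : Type} [NormedAddCommGroup E] [NormedSpace ℝ E] [NormedAddCommGroup F]
  [NormedSpace ℝ F]

theorem vstar_seg (c t : E) {e s : ℝ} (h : e ≤ s) :
    segment ℝ (c + e • t) (c + s • t) = (fun m : ℝ => c + m • t) '' Icc e s := by
  have h1 := image_segment ℝ (AffineMap.lineMap c (c + t) : ℝ →ᵃ[ℝ] E) e s
  have h2 : ⇑(AffineMap.lineMap c (c + t) : ℝ →ᵃ[ℝ] E) = fun m : ℝ => c + m • t := by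
    funext m
    rw [AffineMap.lineMap_apply_module', add_sub_cancel_left, add_comm]
  rw [segment_eq_Icc h, h2] at h1
  exact h1.symm

theorem vstar_norm (c : E) {t : E} (ht : ‖t‖ = 1) {m : ℝ} (hm : 0 ≤ m) :
    ‖c + m • t - c‖ = m := by
  rw [add_sub_cancel_left, norm_smul, ht, mul_one, Real.norm_of_nonneg hm]

theorem vstar_fib (c : E) {t : E} (ht : ‖t‖ = 1) {e : ℝ} (he : 0 < e) (y : E) :
    (max e ‖y - c‖)⁻¹ • (y - c) = t ↔ ∃ m, e ≤ m ∧ y = c + m • t := by
  constructor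
  · intro h
    refine ⟨max e ‖y - c‖, le_max_left _ _, ?_⟩
    rw [← h, smul_inv_smul₀ (he.trans_le (le_max_left _ _)).ne', add_sub_cancel]
  · rintro ⟨m, hm, rfl⟩
    rw [vstar_norm c ht (he.le.trans hm), max_eq_right hm, add_sub_cancel_left,
      inv_smul_smul₀ (he.trans_le hm).ne']

namespace FC

theorem PC.segment {Q : FC X E} {S : Set E} (h : Q.PC S) {p q : E} (hs : segment ℝ p q ⊆ S) :
    Q.Acyc (segment ℝ p q) {p} := by
  rcases eq_or_ne p q with rfl | hpq
  · rw [segment_same]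
    exact fun n => Q.ex_self n _
  have h1 := h (AffineMap.lineMap p q : ℝ →ᵃ[ℝ] E) AffineMap.lineMap_continuous.continuousOn
    (AffineMap.lineMap_injective ℝ hpq).injOn
    fun t ht => hs (by rw [segment_eq_image_lineMap]; exact ⟨t, ht, rfl⟩)
  rwa [← segment_eq_image_lineMap, AffineMap.lineMap_apply_zero] at h1

theorem vstar_ball (Q : FC X E) {K : Set E} (hK : IsCompact K) {c : E} (hc : c ∈ K)
    (hs : StarConvex ℝ c K) (hP : Q.PC (K \ {c})) {e : ℝ} (he : 0 < e) (n : ℤ) :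
    Q.Ex n K (K ∩ closedBall c e) := by
  have hf : Continuous fun y : E => (max e ‖y - c‖)⁻¹ • (y - c) :=
    ((continuous_const.max (continuous_id.sub continuous_const).norm).inv₀
      fun y => (he.trans_le (le_max_left _ _)).ne').smul (continuous_id.sub continuous_const)
  refine Q.lg hK (hK.isClosed.inter isClosed_closedBall) inter_subset_left _ hf.continuousOn n
    fun t i _ => ?_
  set A := K ∩ (fun y : E => (max e ‖y - c‖)⁻¹ • (y - c)) ⁻¹' {t} with hA
  rw [inter_right_comm, ← hA]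
  by_cases h0 : A ⊆ closedBall c e
  · rw [inter_eq_left.2 h0]
    exact Q.ex_self i _
  obtain ⟨y₀, hy₀, h1⟩ := not_subset.1 h0
  rw [mem_closedBall_iff_norm, not_le] at h1
  have ht : ‖t‖ = 1 := by
    have h2 : (max e ‖y₀ - c‖)⁻¹ • (y₀ - c) = t := hy₀.2
    rw [← h2, max_eq_right h1.le, norm_smul, norm_inv, norm_norm,
      inv_mul_cancel₀ (he.trans h1).ne']
  obtain ⟨y, hy, hmax⟩ := (hK.inter_right (isClosed_singleton.preimage hf)).exists_isMaxOn
    ⟨y₀, hy₀⟩ (f := fun y : E => ‖y - c‖) (continuous_id.sub continuous_const).norm.continuousOn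
  obtain ⟨s, hes, rfl⟩ := (vstar_fib c ht he y).1 hy.2
  have hs0 : 0 < s := he.trans_le hes
  have h3 : A = (fun m : ℝ => c + m • t) '' Icc e s := by
    refine Subset.antisymm (fun z hz => ?_) ?_
    · obtain ⟨m, hm, rfl⟩ := (vstar_fib c ht he z).1 hz.2
      have h4 : ‖c + m • t - c‖ ≤ ‖c + s • t - c‖ := hmax hz
      rw [vstar_norm c ht (he.le.trans hm), vstar_norm c ht hs0.le] at h4
      exact ⟨m, ⟨hm, h4⟩, rfl⟩
    · rintro _ ⟨m, hm, rfl⟩
      refine ⟨hs.segment_subset hy.1 ?_, (vstar_fib c ht he _).2 ⟨m, hm.1, rfl⟩⟩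
      have h5 := vstar_seg c t hs0.le
      rw [zero_smul, add_zero] at h5
      rw [h5]
      exact ⟨m, ⟨he.le.trans hm.1, hm.2⟩, rfl⟩
  have h6 : A ∩ closedBall c e = {c + e • t} := by
    rw [h3]
    refine Subset.antisymm ?_ (singleton_subset_iff.2 ⟨⟨e, ⟨le_rfl, hes⟩, rfl⟩, ?_⟩)
    · rintro _ ⟨⟨m, hm, rfl⟩, h7⟩
      rw [mem_closedBall_iff_norm, vstar_norm c ht (he.le.trans hm.1)] at h7
      rw [le_antisymm h7 hm.1]
      rfl
    · rw [mem_closedBall_iff_norm, vstar_norm c ht he.le]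
  have h8 : segment ℝ (c + e • t) (c + s • t) = A := (vstar_seg c t hes).trans h3.symm
  rw [h6, ← h8]
  refine hP.segment (fun z hz => ⟨(h8 ▸ hz : z ∈ A).1, fun h9 => ?_⟩) i
  rw [vstar_seg c t hes] at hz
  obtain ⟨m, hm, rfl⟩ := hz
  have h10 := vstar_norm c ht (he.le.trans hm.1)
  rw [show c + m • t = c from h9, sub_self, norm_zero] at h10
  exact (he.trans_le hm.1).ne h10

/-- A compact star-shaped set has the cohomology of its centre. -/
theorem star (Q : FC X E) {K : Set E} (hK : IsCompact K) {c : E} (hc : c ∈ K)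
    (hs : StarConvex ℝ c K) (hP : Q.PC (K \ {c})) : Q.Acyc K {c} := by
  intro n v hv hd
  obtain ⟨e, he, h1⟩ := Metric.nhds_basis_closedBall.mem_iff.1
    ((Q.opn (n + 1) v).mem_nhds ((mem_ZT.1 hv).2 c rfl))
  exact Good.mono (Q.vstar_ball hK hc hs hP he n v
    (mem_ZT.2 ⟨(mem_ZT.1 hv).1, fun x hx => h1 hx.2⟩) hd) subset_rfl
    (singleton_subset_iff.2 ⟨hc, mem_closedBall_self he.le⟩)

end FC

end Pool.Agent.PWV
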