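import Pool.Agent.P.MP_65ad7c_ag.VTower
import Pool.Agent.P.MP_65ad7c_ag.VStar
import Pool.Agent.P.MP_65ad7c_ag.VCc

open Set Filter Topology Metric

noncomputable section
namespace Pool.Agent.PWV

variable {X : Cx} {E F : Type} [NormedAddCommGroup E] [NormedSpace ℝ E] [FiniteDimensional ℝ E]
  [NormedAddCommGroup F] [NormedSpace ℝ F] [FiniteDimensional ℝ F]

/-- a radial segment -/
def vradR (y : E) (u : ℂ) (s t : ℝ) : Set (E × ℂ) :=
  {p | p.1 = y ∧ s ≤ ‖p.2‖ ∧ ‖p.2‖ ≤ t ∧ ‖p.2‖⁻¹ • p.2 = u}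

omit [NormedAddCommGroup E] [NormedSpace ℝ E] [FiniteDimensional ℝ E] in
theorem vradR_mono (y : E) (u : ℂ) {s t s' t' : ℝ} (h1 : s ≤ s') (h2 : t' ≤ t) :
    vradR y u s' t' ⊆ vradR y u s t :=
  fun _ h => ⟨h.1, h1.trans h.2.1, h.2.2.1.trans h2, h.2.2.2⟩

omit [FiniteDimensional ℝ E] in
theorem vradR_seg (y : E) {u : ℂ} (hu : ‖u‖ = 1) {s t : ℝ} (h0 : 0 < s) (h : s ≤ t) :
    vradR y u s t = segment ℝ (y, s • u) (y, t • u) := by
  ext p
  constructor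
  · rintro ⟨h1, h2, h3, h4⟩
    have h5 : ‖p.2‖ ∈ segment ℝ s t := by
      rw [segment_eq_Icc h]
      exact ⟨h2, h3⟩
    obtain ⟨a, b, ha, hb, hab, e⟩ := h5
    refine ⟨a, b, ha, hb, hab, Prod.ext ?_ ?_⟩
    · change a • y + b • y = p.1
      rw [← add_smul, hab, one_smul, h1]
    · change a • s • u + b • t • u = p.2
      have h6 : a * s + b * t = ‖p.2‖ := e
      rw [smul_smul, smul_smul, ← add_smul, h6, ← h4, smul_smul,
        mul_inv_cancel₀ (h0.trans_le h2).ne', one_smul]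
  · rintro ⟨a, b, ha, hb, hab, rfl⟩
    have h5 : a * s + b * t ∈ Icc s t := by
      rw [← segment_eq_Icc h]
      exact ⟨a, b, ha, hb, hab, rfl⟩
    have h6 : (a • (y, s • u) + b • (y, t • u)).2 = (a * s + b * t) • u := by
      change a • s • u + b • t • u = _
      rw [smul_smul, smul_smul, ← add_smul]
    have h7 : 0 < a * s + b * t := h0.trans_le h5.1
    have h8 : ‖(a * s + b * t) • u‖ = a * s + b * t := by
      rw [norm_smul, hu, mul_one, Real.norm_of_nonneg h7.le]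
    refine ⟨?_, ?_, ?_, ?_⟩
    · change a • y + b • y = y
      rw [← add_smul, hab, one_smul]
    · rw [h6, h8]; exact h5.1
    · rw [h6, h8]; exact h5.2
    · rw [h6, h8, smul_smul, inv_mul_cancel₀ h7.ne', one_smul]

omit [NormedAddCommGroup E] [NormedSpace ℝ E] [FiniteDimensional ℝ E] in
theorem vradR_empty (y : E) {u : ℂ} (hu : ‖u‖ ≠ 1) {s : ℝ} (h0 : 0 < s) (t : ℝ) :
    vradR y u s t = ∅ := by
  refine eq_empty_of_forall_notMem fun p h => hu ?_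
  rw [← h.2.2.2, norm_smul, norm_inv, norm_norm, inv_mul_cancel₀ (h0.trans_le h.2.1).ne']

namespace FC

omit [FiniteDimensional ℝ E] in
theorem vrad_acyc (Q : FC X (E × ℂ)) {S : Set (E × ℂ)} (hP : Q.PC S) (y : E) (u : ℂ)
    {s t s' t' : ℝ} (h0 : 0 < s) (h1 : s ≤ s') (h2 : s' ≤ t') (h3 : t' ≤ t)
    (hS : vradR y u s t ⊆ S) : Q.Acyc (vradR y u s t) (vradR y u s' t') := by
  by_cases hu : ‖u‖ = 1
  swap
  · rw [vradR_empty y hu h0, vradR_empty y hu (h0.trans_le h1)]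
    exact fun n => Q.ex_self n _
  have kl : ∀ a b, s ≤ a → a ≤ b → b ≤ t → Q.Acyc (vradR y u a b) {(y, a • u)} ∧
      Q.Acyc (vradR y u a b) {(y, b • u)} ∧ {(y, a • u)} ⊆ vradR y u a b ∧
      {(y, b • u)} ⊆ vradR y u a b := by
    intro a b ha hab hb
    have e := (vradR_mono y u ha hb).trans hS
    rw [vradR_seg y hu (h0.trans_le ha) hab] at e ⊢
    refine ⟨hP.segment e, ?_, singleton_subset_iff.2 (left_mem_segment _ _ _),
      singleton_subset_iff.2 (right_mem_segment _ _ _)⟩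
    rw [segment_symm] at e ⊢
    exact hP.segment e
  have k1 := kl s t le_rfl (h1.trans (h2.trans h3)) le_rfl
  have k2 := kl s' t h1 (h2.trans h3) le_rfl
  have k3 := kl s' t' h1 h2 h3
  exact Acyc.mid (vradR_mono y u h1 le_rfl) (vradR_mono y u le_rfl h3)
    (Acyc.left (vradR_mono y u h1 le_rfl) k2.2.2.2 k1.2.1 k2.2.1)
    (Acyc.left (vradR_mono y u le_rfl h3) k3.2.2.1 k2.1 k3.1)

theorem vrad_tower (Q : FC X (E × ℂ)) {A B : Set (E × ℂ)} (hP : Q.PC A) (a b : ℕ → ℝ)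
    (ha : Antitone a) (hb : Monotone b) (h0 : ∀ i, 0 < a i) (hA : ∀ p ∈ A, p.2 ≠ 0)
    (hs : ∀ i (p : E × ℂ), a i ≤ ‖p.2‖ → p ∈ A) (hB : RelCl B A)
    (hcov : ∀ x ∈ A, ∃ i : ℕ, ‖x.1‖ < i ∧ ‖x.2‖ < b i ∧ ∀ᶠ p in 𝓝[A] x, a i ≤ ‖p.2‖)
    (h : ∀ i y, ∃ s t, a i ≤ s ∧ s ≤ t ∧ t ≤ b i ∧
      ∀ τ : ℂ, a i ≤ ‖τ‖ → ‖τ‖ ≤ b i → ((y, τ) ∈ B ↔ s ≤ ‖τ‖ ∧ ‖τ‖ ≤ t)) : Q.Acyc A B := by
  refine Q.vb_tower (fun i => closedBall (0 : E) i ×ˢ ({τ : ℂ | a i ≤ ‖τ‖} ∩ closedBall 0 (b i)))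
    (fun i j hij => prod_mono (closedBall_subset_closedBall (by exact_mod_cast hij))
      (inter_subset_inter (fun τ hτ => (ha hij).trans hτ) (closedBall_subset_closedBall (hb hij))))
    (fun i => (isCompact_closedBall _ _).prod ((isCompact_closedBall _ _).inter_left
      (isClosed_le continuous_const continuous_norm)))
    (fun i p hp => hs i p hp.2.1) hB (fun x hx => ?_)
    (fun p => (p.1, ‖p.2‖⁻¹ • p.2)) ?_ fun i q => ?_
  · obtain ⟨i, h1, h2, h3⟩ := hcov x hx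
    have h4 : ∀ᶠ p : E × ℂ in 𝓝 x, ‖p.1‖ < i :=
      (continuous_fst.norm.tendsto x).eventually (gt_mem_nhds h1)
    have h5 : ∀ᶠ p : E × ℂ in 𝓝 x, ‖p.2‖ < b i :=
      (continuous_snd.norm.tendsto x).eventually (gt_mem_nhds h2)
    refine ⟨i, ?_⟩
    filter_upwards [h3, nhdsWithin_le_nhds h4, nhdsWithin_le_nhds h5] with p k1 k2 k3
    exact ⟨mem_closedBall_zero_iff.2 k2.le, k1, mem_closedBall_zero_iff.2 k3.le⟩
  · exact continuousOn_fst.prodMk ((continuousOn_snd.norm.inv₀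
      fun p hp => norm_ne_zero_iff.2 (hA p hp)).smul continuousOn_snd)
  · obtain ⟨y, u⟩ := q
    by_cases hy : ‖y‖ ≤ i
    · obtain ⟨s, t, k1, k2, k3, k4⟩ := h i y
      have e := Q.vrad_acyc hP y u (h0 i) k1 k2 k3 fun p hp => hs i p hp.2.1
      refine (congrArg₂ Q.Acyc ?_ ?_).mp e
      · ext ⟨z, τ⟩
        simp only [vradR, mem_ofPred_eq, mem_inter_iff, mem_prod, mem_closedBall_zero_iff,
          mem_preimage, mem_singleton_iff, Prod.mk.injEq]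
        constructor
        · rintro ⟨rfl, m1, m2, m3⟩
          exact ⟨⟨hy, m1, m2⟩, rfl, m3⟩
        · rintro ⟨⟨-, m1, m2⟩, m0, m3⟩
          exact ⟨m0, m1, m2, m3⟩
      · ext ⟨z, τ⟩
        simp only [vradR, mem_ofPred_eq, mem_inter_iff, mem_prod, mem_closedBall_zero_iff,
          mem_preimage, mem_singleton_iff, Prod.mk.injEq]
        constructor
        · rintro ⟨rfl, m1, m2, m3⟩
          exact ⟨⟨(k4 τ (k1.trans m1) (m2.trans k3)).2 ⟨m1, m2⟩, hy, k1.trans m1, m2.trans k3⟩,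
            rfl, m3⟩
        · rintro ⟨⟨m, -, m1, m2⟩, rfl, m3⟩
          exact ⟨rfl, ((k4 τ m1 m2).1 m).1, ((k4 τ m1 m2).1 m).2, m3⟩
    · have e : ∀ p : E × ℂ, p.1 ∈ closedBall (0 : E) i → (p.1, ‖p.2‖⁻¹ • p.2) ≠ (y, u) :=
        fun p hp he => hy (by
          rw [← show p.1 = y from congrArg Prod.fst he]
          exact mem_closedBall_zero_iff.1 hp)
      refine (congrArg₂ Q.Acyc ?_ ?_).mp fun n => Q.ex_self n ∅
      · exact (eq_empty_of_forall_notMem fun p hp => e p hp.1.1 hp.2).symm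
      · exact (eq_empty_of_forall_notMem fun p hp => e p hp.1.2.1 hp.2).symm

theorem rad (Q : FC X (E × ℂ)) (hP : Q.PC (univ ×ˢ {τ | 1 ≤ ‖τ‖})) :
    Q.Acyc univ (univ ×ˢ Db) := by
  have hc : IsClosed ((univ : Set E) ×ˢ {τ : ℂ | 1 ≤ ‖τ‖}) :=
    isClosed_univ.prod (isClosed_le continuous_const continuous_norm)
  have hc' : IsClosed ((univ : Set E) ×ˢ Db) := isClosed_univ.prod isClosed_closedBall
  have e : (univ : Set E) ×ˢ {τ : ℂ | 1 ≤ ‖τ‖} ∪ univ ×ˢ Db = univ :=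
    eq_univ_of_forall fun p => (le_total 1 ‖p.2‖).imp (fun h => ⟨trivial, h⟩)
      fun h => ⟨trivial, mem_closedBall_zero_iff.2 h⟩
  intro n
  have key := Q.vrad_tower hP (fun _ => 1) (fun i => i + 1) antitone_const
    (fun i j hij => by have : (i : ℝ) ≤ j := (by exact_mod_cast hij); simpa using this)
    (fun _ => one_pos) (fun p hp => norm_pos_iff.1 (one_pos.trans_le hp.2))
    (fun _ _ h => ⟨trivial, h⟩) (relCl_inter hc') (fun x _ => by
      obtain ⟨i, hi⟩ := exists_nat_gt (max ‖x.1‖ ‖x.2‖)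
      refine ⟨i, (le_max_left _ _).trans_lt hi, ?_, ?_⟩
      · linarith [(le_max_right _ _).trans_lt hi]
      · filter_upwards [self_mem_nhdsWithin] with p hp using hp.2)
    (fun i y => ⟨1, 1, le_rfl, le_rfl, by simp, fun τ h1 _ =>
      ⟨fun h => ⟨h1, mem_closedBall_zero_iff.1 h.2.2⟩,
        fun h => ⟨⟨trivial, h1⟩, trivial, mem_closedBall_zero_iff.2 h.2⟩⟩⟩)
  have h := (Q.ex_exc (sep_of_isClosed hc hc')).2 (key n)
  rwa [e] at h

theorem radc (Q : FC X (E × ℂ)) (hP : Q.PC (univ ×ˢ Db)ᶜ) (n : ℤ) :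
    (Q.loc (univ ×ˢ Db)ᶜ).CS n := by
  have hc' : IsClosed ((univ : Set E) ×ˢ Db) := isClosed_univ.prod isClosed_closedBall
  have hW : ∀ p : E × ℂ, p ∈ ((univ : Set E) ×ˢ Db)ᶜ ↔ 1 < ‖p.2‖ := fun p => by
    simp [Db]
  generalize ((univ : Set E) ×ˢ Db) = G at hP hc' hW
  have ho := hc'.isOpen_compl
  refine cs_iff.2 fun K hK v hv hd => ?_
  obtain ⟨r, hr, hKr⟩ := hK.isBounded.subset_ball_lt 2 0
  have hpos : ∀ i : ℕ, (0 : ℝ) < 1 / (i + 1) := fun i => by positivity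
  have hle : ∀ i : ℕ, 1 + 1 / ((i : ℝ) + 1) ≤ r := fun i => by
    have : 1 / ((i : ℝ) + 1) ≤ 1 := by
      rw [div_le_one (by positivity)]
      simp
    linarith
  have hle' : ∀ i : ℕ, r ≤ r + i := fun i => by simp
  have key := Q.vrad_tower (B := Gᶜ ∩ (ball 0 r)ᶜ) hP (fun i => 1 + 1 / (i + 1))
    (fun i => r + i)
    (fun i j hij => by
      have : (i : ℝ) ≤ j := by exact_mod_cast hij
      change 1 + 1 / ((j : ℝ) + 1) ≤ 1 + 1 / ((i : ℝ) + 1)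
      gcongr)
    (fun i j hij => by have : (i : ℝ) ≤ j := (by exact_mod_cast hij); simpa using this)
    (fun i => by linarith [hpos i]) (fun p hp => norm_pos_iff.1 (one_pos.trans ((hW p).1 hp)))
    (fun i p h => (hW p).2 (by linarith [hpos i])) (relCl_inter isOpen_ball.isClosed_compl)
    (fun x hx => by
      obtain ⟨i, hi⟩ := exists_nat_gt (max ‖x.1‖ ‖x.2‖)
      obtain ⟨j, hj⟩ := exists_nat_one_div_lt (sub_pos.2 ((hW x).1 hx))
      have h1 : (i : ℝ) ≤ (max i j : ℕ) := by exact_mod_cast le_max_left i j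
      have h2 : (j : ℝ) ≤ (max i j : ℕ) := by exact_mod_cast le_max_right i j
      have h3 : 1 / (((max i j : ℕ) : ℝ) + 1) ≤ 1 / ((j : ℝ) + 1) := by gcongr
      refine ⟨max i j, ((le_max_left _ _).trans_lt hi).trans_le h1, ?_, ?_⟩
      · linarith [(le_max_right _ _).trans_lt hi]
      · have h4 : ∀ᶠ p : E × ℂ in 𝓝 x, 1 + 1 / (((max i j : ℕ) : ℝ) + 1) < ‖p.2‖ :=
          (continuous_snd.norm.tendsto x).eventually (lt_mem_nhds (by linarith))
        exact nhdsWithin_le_nhds (h4.mono fun p hp => hp.le))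
    (fun i y => by
      have hm : ∀ τ : ℂ, 1 + 1 / ((i : ℝ) + 1) ≤ ‖τ‖ →
          ((y, τ) ∈ Gᶜ ∩ (ball 0 r)ᶜ ↔ r ≤ ‖y‖ ∨ r ≤ ‖τ‖) := fun τ h => by
        rw [mem_inter_iff, hW, mem_compl_iff, mem_ball_zero_iff, not_lt, Prod.norm_def, le_max_iff]
        exact and_iff_right (by linarith [hpos i])
      by_cases hy : r ≤ ‖y‖
      · exact ⟨_, _, le_rfl, (hle i).trans (hle' i), le_rfl, fun τ h1 h2 =>
          ⟨fun _ => ⟨h1, h2⟩, fun _ => (hm τ h1).2 (Or.inl hy)⟩⟩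
      · exact ⟨r, _, hle i, hle' i, le_rfl, fun τ h1 h2 =>
          ⟨fun h => ⟨((hm τ h1).1 h).resolve_left hy, h2⟩, fun h => (hm τ h1).2 (Or.inr h.1)⟩⟩)
  rw [Q.loc_ZT_open ho hK.isClosed.isOpen_compl] at hv
  rw [Q.loc_ZT_open ho isOpen_univ, univ_inter] at hd
  obtain ⟨w, hw, hw'⟩ := key n v
    (ZT_anti (A := Kᶜ ∩ Gᶜ) (fun p hp => ⟨fun h => hp.2 (hKr h), hp.1⟩) _ hv) hd
  refine ⟨closedBall 0 r, isCompact_closedBall _ _, w, ?_, ?_⟩
  · rw [Q.loc_ZT_open ho isClosed_closedBall.isOpen_compl]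
    exact ZT_anti (A := Gᶜ ∩ (ball 0 r)ᶜ)
      (fun p hp => ⟨hp.2, fun h => hp.1 (ball_subset_closedBall h)⟩) _ hw
  · rw [Q.loc_ZT_open ho isOpen_univ, univ_inter]
    exact hw'

end FC

end Pool.Agent.PWV
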