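import Pool.Agent.P.MP_65ad7c_ag.VBas1

open Set Filter Topology Metric

noncomputable section
namespace Pool.Agent.PWV

variable {X : Cx} {T T' : Type} [MetricSpace T] [MetricSpace T']

/-- Induction along the unit interval. -/
theorem varc_ind (P : ℝ → ℝ → Prop)
    (loc : ∀ t ∈ Icc (0 : ℝ) 1, ∃ δ > 0, ∀ a b, 0 ≤ a → a ≤ b → b ≤ 1 →
      (∀ s ∈ Icc a b, dist s t < δ) → P a b)
    (ch : ∀ a b c, 0 ≤ a → a ≤ b → b ≤ c → c ≤ 1 → P a b → P b c → P a c) : P 0 1 := by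
  have h0 : (0 : ℝ) ∈ {s ∈ Icc (0 : ℝ) 1 | P 0 s} := by
    obtain ⟨δ, hδ, h⟩ := loc 0 ⟨le_rfl, zero_le_one⟩
    refine ⟨⟨le_rfl, zero_le_one⟩, h 0 0 le_rfl le_rfl zero_le_one fun s hs => ?_⟩
    rw [le_antisymm hs.2 hs.1, dist_self]
    exact hδ
  have hb : BddAbove {s ∈ Icc (0 : ℝ) 1 | P 0 s} := ⟨1, fun s hs => hs.1.2⟩
  set c := sSup {s ∈ Icc (0 : ℝ) 1 | P 0 s}
  have hc0 : 0 ≤ c := le_csSup hb h0
  have hc1 : c ≤ 1 := csSup_le ⟨0, h0⟩ fun s hs => hs.1.2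
  obtain ⟨δ, hδ, h⟩ := loc c ⟨hc0, hc1⟩
  obtain ⟨s, hs, hcs⟩ := exists_lt_of_lt_csSup ⟨0, h0⟩ (show c - δ < c by linarith)
  have hsc : s ≤ c := le_csSup hb hs
  have hsb : s ≤ min 1 (c + δ / 2) := le_min hs.1.2 (by linarith)
  have h1 : P 0 (min 1 (c + δ / 2)) := by
    refine ch 0 s _ le_rfl hs.1.1 hsb (min_le_left _ _) hs.2
      (h s _ hs.1.1 hsb (min_le_left _ _) fun u hu => ?_)
    have := hu.2.trans (min_le_right _ _)
    rw [Real.dist_eq, abs_lt]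
    constructor <;> linarith [hu.1]
  rcases le_total 1 (c + δ / 2) with h2 | h2
  · rwa [min_eq_left h2] at h1
  · rw [min_eq_right h2] at h1
    have : c + δ / 2 ≤ c := le_csSup hb ⟨⟨by linarith, h2⟩, h1⟩
    linarith

omit [MetricSpace T] in
theorem varc_inter {γ : ℝ → T} (hi : InjOn γ (Icc 0 1)) {a b c : ℝ} (ha : 0 ≤ a) (hab : a ≤ b)
    (hbc : b ≤ c) (hc : c ≤ 1) : γ '' Icc a b ∩ γ '' Icc b c = {γ b} := by
  rw [← hi.image_inter (Icc_subset_Icc ha (hbc.trans hc)) (Icc_subset_Icc (ha.trans hab) hc),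
    Icc_inter_Icc_eq_singleton hab hbc, image_singleton]

theorem varc_sep {γ : ℝ → T} (hγ : ContinuousOn γ (Icc 0 1)) {a b c d : ℝ} (ha : 0 ≤ a)
    (hb : b ≤ 1) (hc : 0 ≤ c) (hd : d ≤ 1) : Sep (γ '' Icc a b) (γ '' Icc c d) :=
  sep_of_isClosed (isCompact_Icc.image_of_continuousOn (hγ.mono (Icc_subset_Icc ha hb))).isClosed
    (isCompact_Icc.image_of_continuousOn (hγ.mono (Icc_subset_Icc hc hd))).isClosed

omit [MetricSpace T] in
theorem varc_union (γ : ℝ → T) {a b c : ℝ} (hab : a ≤ b) (hbc : b ≤ c) :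
    γ '' Icc a b ∪ γ '' Icc b c = γ '' Icc a c := by
  rw [← image_union, Icc_union_Icc_eq_Icc hab hbc]

namespace FC
variable {Q : FC X T}

theorem varc_sub {W : Set T} {n : ℤ} (h : Q.PCn n W) {γ : ℝ → T} (hγ : ContinuousOn γ (Icc 0 1))
    (hi : InjOn γ (Icc 0 1)) {a b : ℝ} (ha : 0 ≤ a) (hab : a ≤ b) (hb : b ≤ 1)
    (hW : MapsTo γ (Icc a b) W) : Q.Ex n (γ '' Icc a b) {γ a} := by
  rcases hab.eq_or_lt with rfl | hlt
  · rw [Icc_self, image_singleton]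
    exact Q.ex_self n _
  have him : (fun s : ℝ => (b - a) * s + a) '' Icc 0 1 = Icc a b := by
    rw [image_affine_Icc' (sub_pos.2 hlt)]
    congr 1 <;> ring
  have hm : MapsTo (fun s : ℝ => (b - a) * s + a) (Icc 0 1) (Icc a b) := him ▸ mapsTo_image _ _
  have hm' := hm.mono_right (Icc_subset_Icc ha hb)
  have := h (γ ∘ fun s => (b - a) * s + a) (hγ.comp (by fun_prop) hm')
    (hi.comp (fun s _ t _ e => mul_left_cancel₀ (sub_pos.2 hlt).ne' (add_right_cancel e)) hm')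
    (hW.comp hm)
  rw [image_comp, him] at this
  simpa using this

theorem pcn_local {S : Set T} {n : ℤ} (h : ∀ y ∈ S, ∃ W ∈ 𝓝[S] y, Q.PCn n W) : Q.PCn n S := by
  intro γ hγ hi hS
  refine varc_ind (fun a b => Q.Ex n (γ '' Icc a b) {γ a}) (fun t ht => ?_)
    fun a b c ha hab hbc hc h1 h2 => ?_
  · obtain ⟨W, hW, hP⟩ := h (γ t) (hS ht)
    obtain ⟨δ, hδ, hb⟩ := Metric.mem_nhdsWithin_iff.1
      ((hγ t ht).tendsto_nhdsWithin hS hW)
    exact ⟨δ, hδ, fun a b ha hab hb1 hd => varc_sub hP hγ hi ha hab hb1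
      fun s hs => hb ⟨hd s hs, ha.trans hs.1, hs.2.trans hb1⟩⟩
  · rw [← varc_union γ hab hbc, union_comm]
    refine Ex.mid subset_union_right (singleton_subset_iff.2 ⟨a, ⟨le_rfl, hab⟩, rfl⟩) ?_ h1
    rw [Q.ex_exc (varc_sep hγ (ha.trans hab) hc ha (hbc.trans hc)), inter_comm,
      varc_inter hi ha hab hbc hc]
    exact h2

/-- Constancy along arcs is a local property. -/
theorem pc_local {S : Set T} (h : ∀ y ∈ S, ∃ W ∈ 𝓝[S] y, Q.PC W) : Q.PC S :=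
  fun γ hγ hi hS n => pcn_local (fun y hy => (h y hy).imp fun _ hW =>
    ⟨hW.1, fun γ' h1 h2 h3 => hW.2 γ' h1 h2 h3 n⟩) γ hγ hi hS

theorem pc_of_acyc {W : Set T} (h : ∀ x ∈ W, Q.Acyc W {x}) : Q.PC W := by
  intro γ hγ hi hW
  have h0 : (0 : ℝ) ∈ Icc (0 : ℝ) 1 := ⟨le_rfl, zero_le_one⟩
  refine Acyc.right hW.image_subset (singleton_subset_iff.2 ⟨0, h0, rfl⟩) (h _ (hW h0)) fun n => ?_
  obtain ⟨m, rfl⟩ : ∃ m, n = m + 1 := ⟨n - 1, by ring⟩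
  intro v hv hd
  refine varc_ind (fun a b => Q.Good (m + 1) v W (γ '' Icc a b)) (fun t ht => ?_)
    fun a b c ha hab hbc hc h1 h2 => ?_
  · obtain ⟨w, hw, hvw⟩ := h _ (hW ht) (m + 1) v
      (ZT_anti (singleton_subset_iff.2 (mem_image_of_mem γ ht)) _ hv) hd
    obtain ⟨δ, hδ, hb⟩ := Metric.mem_nhdsWithin_iff.1
      (hγ t ht ((Q.opn _ w).mem_nhds ((mem_ZT.1 hw).2 _ rfl)))
    refine ⟨δ, hδ, fun a b ha hab hb1 hd' => ⟨w, mem_ZT.2 ⟨(mem_ZT.1 hw).1, ?_⟩, hvw⟩⟩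
    rintro _ ⟨s, hs, rfl⟩
    exact hb ⟨hd' s hs, ha.trans hs.1, hs.2.trans hb1⟩
  · have hs : ∀ {a b : ℝ}, 0 ≤ a → b ≤ 1 → γ '' Icc a b ⊆ W := fun h1 h2 =>
      (hW.mono_left (Icc_subset_Icc h1 h2)).image_subset
    have := mv_good (hs ha (hbc.trans hc)) (hs (ha.trans hab) hc) (sep_of_subset Subset.rfl)
      (varc_sep hγ ha (hbc.trans hc) (ha.trans hab) hc) (by
        rw [inter_self, varc_inter hi ha hab hbc hc]
        exact h _ (hW ⟨ha.trans hab, hbc.trans hc⟩) m) h1 h2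
    rwa [union_self, varc_union γ hab hbc] at this

theorem LC.pc {S : Set T} (h : Q.LC S) : Q.PC S :=
  pc_local fun y hy => (h y hy).imp fun _ hW => ⟨hW.2.1, pc_of_acyc hW.2.2⟩

end FC

end Pool.Agent.PWV
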