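import Pool.Agent.P.MP_65ad7c_ag.VPrime
import Pool.Agent.P.MP_65ad7c_ag.VArc
import Pool.Agent.P.MP_65ad7c_ag.VBas2

open Set Filter Topology Metric

noncomputable section
namespace Pool.Agent.PWV

variable {X : Cx} {N : ℕ}

theorem vstrata_not_mem {σ : Type} {W : Set (σ → ℂ)} (hW : ZC W) {p : Ideal (MvPolynomial σ ℂ)}
    (h : ¬ ZI p ⊆ W) : ∃ δ ∉ p, ∀ x, MvPolynomial.eval x δ ≠ 0 → x ∉ W := by
  obtain ⟨S, rfl⟩ := hW
  obtain ⟨x, hx, hx'⟩ := not_subset.1 h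
  by_contra hc
  refine hx' fun f hf => ?_
  by_contra h0
  exact hc ⟨f, fun hp => h0 (hx f hp), fun y hy hy' => hy (hy' f hf)⟩

/-- An irreducible variety lies generically in one stratum. -/
theorem exists_stratum (Y : ℕ → Set (Fin N → ℂ)) (hY : ∀ k, ZC (Y k)) (h0 : Y 0 = ∅) (D : ℕ)
    {p : Ideal (MvPolynomial (Fin N) ℂ)} (hp : p.IsPrime) :
    ∃ δ ∉ p, (∀ x, MvPolynomial.eval x δ ≠ 0 → x ∉ Y D) ∨
      ∃ k, ZI p ⊆ Y (k + 1) ∧ ∀ x, MvPolynomial.eval x δ ≠ 0 → x ∉ Y k := by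
  classical
  by_cases h : ZI p ⊆ Y D
  · have hex : ∃ k, ZI p ⊆ Y k := ⟨D, h⟩
    have h1 := Nat.find_spec hex
    have h2 : Nat.find hex ≠ 0 := fun e => by
      rw [e, h0] at h1
      exact hp.ne_top ((Ideal.eq_top_iff_one p).2 (null hp fun x hx => (h1 hx).elim))
    obtain ⟨k, hk⟩ := Nat.exists_eq_succ_of_ne_zero h2
    obtain ⟨δ, g1, g2⟩ := vstrata_not_mem (hY k) (Nat.find_min hex (show k < Nat.find hex by omega))
    rw [hk] at h1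
    exact ⟨δ, g1, Or.inr ⟨k, h1, g2⟩⟩
  · obtain ⟨δ, g1, g2⟩ := vstrata_not_mem (hY D) h
    exact ⟨δ, g1, Or.inl g2⟩

namespace FC

theorem stratA (Q : FC X (Fin N → ℂ)) (Y : ℕ → Set (Fin N → ℂ)) (hY : ∀ k, ZC (Y k))
    (hd : ∀ k, Dim (Y k) k) {D : ℕ} (hs : Q.Supp (Y D)) {a : ℤ}
    (hP : ∀ k, Q.PC (Y (k + 1) \ Y k)) (hD : ∀ k : ℕ, Q.DegLe (Y (k + 1) \ Y k) (a - k)) :
    GA Q a := by
  intro V e hV hVd
  choose! δ h1 h2 using fun (p : Ideal (MvPolynomial (Fin N) ℂ)) (hp : p.IsPrime) =>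
    exists_stratum Y hY (dim_zero.1 (hd 0)) D hp
  obtain ⟨V', g1, g2, g3⟩ := comp hV hVd δ h1
  have key : ∀ x ∈ V \ V', ∃ W ∈ 𝓝[V \ V'] x, Q.PC W ∧ Q.DegLe W (a - e) := by
    intro x hx
    obtain ⟨p, hp, -, hpe, -, hxδ, hev⟩ := g3 x hx
    have hne : ∀ᶠ y in 𝓝 x, MvPolynomial.eval y (δ p) ≠ 0 :=
      (MvPolynomial.continuous_eval (δ p)).continuousAt.eventually_ne hxδ
    rcases h2 p hp with h | ⟨k, hk, h⟩
    · exact ⟨(Y D)ᶜ, mem_nhdsWithin_of_mem_nhds (hne.mono h), hs.pc_off, (hs.deg_off _).2⟩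
    · have hek : e ≤ k := by
        by_contra hc
        exact hpe (((hd (k + 1)).mono hk).mono_nat (by omega))
      refine ⟨Y (k + 1) \ Y k, ?_, hP k, (hD k).mono Subset.rfl (by omega)⟩
      filter_upwards [mem_nhdsWithin_of_mem_nhds hne, mem_nhdsWithin_of_mem_nhds hev,
        self_mem_nhdsWithin] with y a1 a2 a3
      exact ⟨hk (a2 a3.1), h y a1⟩
  refine ⟨V', g1, g2, pc_local fun x hx => ?_, fun x hx => ?_⟩
  · obtain ⟨W, a1, a2, -⟩ := key x hx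
    exact ⟨W, a1, a2⟩
  · obtain ⟨W, a1, -, a3⟩ := key x hx
    exact a3 x (mem_of_mem_nhdsWithin hx a1)

end FC

end Pool.Agent.PWV
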