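import Pool.Agent.P.MP_65ad7c_ag.VStepA
import Pool.Agent.P.MP_65ad7c_ag.VPre
import Pool.Agent.P.MP_65ad7c_ag.VRad
import Pool.Agent.P.MP_65ad7c_ag.VStratA

open Set Filter Topology Metric

noncomputable section
namespace Pool.Agent.PWV

variable {X : Cx}

namespace FC

theorem vav_ex {T : Type} [MetricSpace T] {Q : FC X T} {H A B : Set T} (hH : IsClosed H)
    (hA : A ⊆ H) (hB : B ⊆ H) {n : ℤ} : (Q.res H).Ex n A B ↔ Q.Ex n A B := by
  rw [Ex, res_ZT _ hH, res_ZT _ hH, inter_eq_left.2 hA, inter_eq_left.2 hB, Ex]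

theorem vav_pc {T : Type} [MetricSpace T] {Q : FC X T} {H S : Set T} (hH : IsClosed H)
    (h : Q.PC S) (hS : S ⊆ H) : (Q.res H).PC S := fun γ h1 h2 h3 n =>
  (vav_ex hH (h3.image_subset.trans hS)
    (singleton_subset_iff.2 (hS (h3 ⟨le_rfl, zero_le_one⟩)))).2 (h γ h1 h2 h3 n)

/-- Artin vanishing. -/
theorem av (n : ℕ) : ∀ (Q : FC X (Fin n → ℂ)) (a : ℤ), GA Q a →
    ∀ j : ℤ, a < j + 1 → Q.Ex j univ ∅ := by
  induction n with
  | zero =>
    intro Q a h j hj
    obtain ⟨V', -, hd, -, hD⟩ := h univ 0 zc_univ (dim_univ 0)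
    rw [dim_zero.1 hd] at hD
    have e : (univ : Set (Fin 0 → ℂ)) = {0} := by
      ext x
      simp only [mem_univ, mem_singleton_iff, true_iff]
      exact Subsingleton.elim _ _
    have := hD 0 ⟨mem_univ _, notMem_empty _⟩ j (by simpa using hj)
    rwa [e]
  | succ n ih =>
    intro Q a h j hj
    obtain ⟨g, hg, hP, hD⟩ := topA Q h
    obtain ⟨h₀, hh, hv⟩ := monic_dir hg
    obtain ⟨v, hv0⟩ : ∃ v, MvPolynomial.eval v h₀ ≠ 0 := by
      by_contra hc
      push Not at hc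
      exact hh (MvPolynomial.funext fun x => by rw [hc x, map_zero])
    obtain ⟨G, hG, hgG⟩ := hv v hv0
    obtain ⟨R, hR, h0, hb⟩ := rootb hG
    have hs := isHomeomorph_sc v hR h0
    have tr := tr_comap Q hs.isInducing
    have hsub : sc v R '' (Rt G R)ᶜ ⊆ {x | MvPolynomial.eval x g = 0}ᶜ := by
      rintro _ ⟨p, hp, rfl⟩ hx
      exact hp ((hgG p.1 _).1 hx)
    have p0 : (Q.comap _ hs.isInducing).PC (Rt G R)ᶜ :=
      (tr.pc hs.isEmbedding _).2 (hP.mono hsub)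
    have d0 : (Q.comap _ hs.isInducing).DegLe (Rt G R)ᶜ (a - (n + 1)) :=
      (tr.degLe _ _).2 (hD.mono hsub (by push_cast; exact le_rfl))
    have h1 := ih _ a (stepA hG hR h0 hb _ p0 d0 (preA Q h hG hgG hs)) j hj
    have hF : IsClosed (univ ×ˢ Db : Set ((Fin n → ℂ) × ℂ)) := isClosed_univ.prod isClosed_closedBall
    have hsup := supp_res (Q.comap _ hs.isInducing) hF
    rw [Ex, hsup.map_fst_ZT, hsup.map_fst_ZT, res_ZT _ hF, res_ZT _ hF, inter_self, empty_prod,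
      empty_inter] at h1
    have h2 : (Q.comap _ hs.isInducing).Acyc univ (univ ×ˢ Db) := by
      refine rad _ (p0.mono fun p hp hr => ?_)
      have h3 := hb p.1 _ hr
      have h4 : 1 ≤ ‖p.2‖ := hp.2
      rw [norm_mul, Complex.norm_real, Real.norm_of_nonneg (h0 _).le] at h3
      exact absurd h3 (not_lt.2 (le_mul_of_one_le_right (h0 _).le h4))
    have h5 := (tr j univ ∅ (empty_subset _)).1
      (Ex.mid (subset_univ _) (empty_subset _) (h2 j) h1)
    rwa [image_univ, hs.surjective.range_eq, image_empty] at h5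

/-- Artin vanishing on an algebraic subset of a stratified set. -/
theorem av_strat {N : ℕ} (Q : FC X (Fin N → ℂ)) (F : ℕ → Set (Fin N → ℂ)) (hF : ∀ c, ZC (F c))
    (hP : ∀ c, Q.PC (F c \ F (c + 1))) {H : Set (Fin N → ℂ)} (hH : ZC H) (h0 : H ⊆ F 0) {m : ℕ}
    (hd : ∀ c, Dim (F c ∩ H) (m - c)) {a : ℤ}
    (hD : ∀ c : ℕ, Q.DegLe ((F c \ F (c + 1)) ∩ H) (a + c + 1 - m)) {j : ℤ} (hj : a < j + 1) :
    Q.Ex j H ∅ := by
  have hc := hH.isClosed
  have hsub : ∀ k, ∃ c, (F (m - (k + 1)) ∩ H) \ (F (m - k) ∩ H) ⊆ (F c \ F (c + 1)) ∩ H ∧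
      ((F (m - (k + 1)) ∩ H) \ (F (m - k) ∩ H) = ∅ ∨ c + k + 1 = m) := by
    intro k
    by_cases hk : k < m
    · refine ⟨m - (k + 1), fun x hx => ⟨⟨hx.1.1, fun h => hx.2 ⟨?_, hx.1.2⟩⟩, hx.1.2⟩,
        Or.inr (by omega)⟩
      rwa [show m - k = m - (k + 1) + 1 by omega]
    · have e : (F (m - (k + 1)) ∩ H) \ (F (m - k) ∩ H) = ∅ := by
        rw [show m - (k + 1) = m - k by omega, sdiff_self]
      exact ⟨0, e ▸ empty_subset _, Or.inl e⟩
  have hGA : GA (Q.res H) a := by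
    refine stratA (Q.res H) (fun k => F (m - k) ∩ H) (fun k => (hF _).inter hH)
      (fun k => (hd _).mono_nat (by omega)) (D := m) ((supp_res Q hc).mono fun x hx => ?_)
      (fun k => ?_) fun k => ?_
    · exact ⟨by rw [Nat.sub_self]; exact h0 hx, hx⟩
    · obtain ⟨c, h1, -⟩ := hsub k
      exact vav_pc hc (((hP c).mono inter_subset_left).mono h1) (h1.trans inter_subset_right)
    · obtain ⟨c, h1, h2 | h2⟩ := hsub k
      · intro x hx
        exact absurd (h2 ▸ hx) (notMem_empty x)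
      · intro x hx i hi
        refine (vav_ex hc (singleton_subset_iff.2 (h1 hx).2) (empty_subset _)).2
          (hD c x (h1 hx) i ?_)
        omega
  have h1 := av N _ a hGA j hj
  rwa [Ex, res_ZT _ hc, res_ZT _ hc, univ_inter, empty_inter] at h1

end FC

end Pool.Agent.PWV
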