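import Pool.Agent.P.MP_65ad7c_ag.VArc

open Set Filter Topology Metric

noncomputable section
namespace Pool.Agent.PWV

variable {X : Cx} {T T' : Type} [MetricSpace T] [MetricSpace T']

namespace FC

theorem vlcn_good {Q : FC X T} {n : ℤ} {v : X.V (n + 1)} {A : Set T} (hv : v ∈ Q.top (n + 1)) :
    Q.Good n v A ∅ ↔ ∃ w ∈ Q.top n, ∀ x ∈ A, v - X.d n w ∈ Q.z (n + 1) x := by
  constructor
  · rintro ⟨w, hw, h⟩
    exact ⟨w, (mem_ZT.1 hw).1, (mem_ZT.1 h).2⟩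
  · rintro ⟨w, hw, h⟩
    exact ⟨w, mem_ZT.2 ⟨hw, fun _ hx => hx.elim⟩, mem_ZT.2 ⟨sub_mem hv (Q.d_top _ _ hw), h⟩⟩

theorem vlcn_pt {Q : FC X T} {n : ℤ} {v : X.V (n + 1)} {y : T} (hv : v ∈ Q.top (n + 1)) :
    Q.Good n v {y} ∅ ↔ ∃ w ∈ Q.top n, v - X.d n w ∈ Q.z (n + 1) y := by
  simp only [vlcn_good hv, mem_singleton_iff, forall_eq]

theorem vlcn_const {P : ℝ → Prop} (h : ∀ s ∈ Icc (0 : ℝ) 1, ∀ᶠ t in 𝓝[Icc 0 1] s, (P s ↔ P t))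
    (h0 : P 0) {s : ℝ} (hs : s ∈ Icc (0 : ℝ) 1) : P s :=
  isPreconnected_Icc.induction₂' (fun a b => P a → P b)
    (fun x hx => (h x hx).mono fun _ hy => ⟨hy.1, hy.2⟩) (fun _ _ _ _ _ _ h1 h2 => h2 ∘ h1)
    (left_mem_Icc.2 zero_le_one) hs h0

/-- a closed element near a point is corrected to vanish there -/
theorem vlcn_fix {Q : FC X T} {W : Set T} {m : ℤ} {B : Submodule ℂ (X.V (m + 1))}
    (h0 : ∀ b ∈ B, b ∈ Q.top (m + 1) ∧ X.d (m + 1) b ∈ Q.Z W (m + 1 + 1)) {y : T}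
    (h0' : ∀ v ∈ Q.top (m + 1), X.d (m + 1) v ∈ Q.z (m + 1 + 1) y →
      ∃ b ∈ B, Q.Good m (v - b) {y} ∅) {u : X.V (m + 1)} (hu : u ∈ Q.top (m + 1))
    (hd : X.d (m + 1) u ∈ Q.z (m + 1 + 1) y) :
    ∃ c ∈ Q.top (m + 1), u - c ∈ Q.z (m + 1) y ∧ ∀ x ∈ W, X.d (m + 1) c ∈ Q.z (m + 1 + 1) x := by
  obtain ⟨b, hb, hg⟩ := h0' u hu hd
  obtain ⟨r, hr, h⟩ := (vlcn_pt (sub_mem hu (h0 b hb).1)).1 hg
  refine ⟨b + X.d m r, add_mem (h0 b hb).1 (Q.d_top _ _ hr), by rwa [← sub_sub], fun x hx => ?_⟩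
  rw [map_add, X.dd, add_zero]
  exact mem_Z.1 (h0 b hb).2 x hx

theorem vlcn_glue {Q : FC X T} {W A₁ A₂ : Set T} {m : ℤ} {y : T} (hs : Sep A₁ A₂)
    (hi : A₁ ∩ A₂ = {y}) (hW : A₂ ⊆ W)
    (fix : ∀ u ∈ Q.top (m + 1), X.d (m + 1) u ∈ Q.z (m + 1 + 1) y → ∃ c ∈ Q.top (m + 1),
      u - c ∈ Q.z (m + 1) y ∧ ∀ x ∈ W, X.d (m + 1) c ∈ Q.z (m + 1 + 1) x)
    {v : X.V (m + 1 + 1)} (hv : v ∈ Q.top (m + 1 + 1)) (g1 : Q.Good (m + 1) v A₁ ∅)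
    (g2 : Q.Good (m + 1) v A₂ ∅) : Q.Good (m + 1) v (A₁ ∪ A₂) ∅ := by
  obtain ⟨w1, hw1, h1⟩ := (vlcn_good hv).1 g1
  obtain ⟨w2, hw2, h2⟩ := (vlcn_good hv).1 g2
  have hy : y ∈ A₁ ∩ A₂ := hi ▸ mem_singleton y
  obtain ⟨c, hc, h3, h4⟩ := fix (w1 - w2) (sub_mem hw1 hw2) (by
    have := sub_mem (h2 y hy.2) (h1 y hy.1)
    rwa [sub_sub_sub_cancel_left, ← map_sub] at this)
  have h5 : w1 - w2 - c ∈ Q.ZT (A₁ ∩ A₂) (m + 1) := by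
    rw [hi]
    exact mem_ZT.2 ⟨sub_mem (sub_mem hw1 hw2) hc, fun x hx => hx ▸ h3⟩
  rw [Q.ZT_inter hs] at h5
  obtain ⟨a1, ha1, a2, ha2, e⟩ := Submodule.mem_sup.1 h5
  refine (vlcn_good hv).2 ⟨w1 - a1, sub_mem hw1 (mem_ZT.1 ha1).1, fun x hx => ?_⟩
  rcases hx with hx | hx
  · have := add_mem (h1 x hx) (Q.d_z x _ _ ((mem_ZT.1 ha1).2 x hx))
    convert this using 1
    rw [map_sub]
    abel
  · have := sub_mem (sub_mem (h2 x hx) (h4 x (hW hx))) (Q.d_z x _ _ ((mem_ZT.1 ha2).2 x hx))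
    convert this using 1
    rw [show w1 - a1 = w2 + c + a2 by rw [← sub_eq_iff_eq_add'.2 e.symm]; abel, map_add, map_add]
    abel

theorem vlcn_key {Q : FC X T} {W : Set T} {m : ℤ} {B : Submodule ℂ (X.V (m + 1 + 1))}
    (fix : ∀ y ∈ W, ∀ u ∈ Q.top (m + 1), X.d (m + 1) u ∈ Q.z (m + 1 + 1) y → ∃ c ∈ Q.top (m + 1),
      u - c ∈ Q.z (m + 1) y ∧ ∀ x ∈ W, X.d (m + 1) c ∈ Q.z (m + 1 + 1) x)
    (h1 : ∀ b ∈ B, b ∈ Q.top (m + 1 + 1))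
    (h2 : ∀ y ∈ W, ∀ b ∈ B, Q.Good (m + 1) b {y} ∅ → ∀ x ∈ W, b ∈ Q.z (m + 1 + 1) x)
    (h3 : ∀ y ∈ W, ∀ v ∈ Q.top (m + 1 + 1), X.d (m + 1 + 1) v ∈ Q.z (m + 1 + 1 + 1) y →
      ∃ b ∈ B, Q.Good (m + 1) (v - b) {y} ∅) : Q.PCn (m + 1) W := by
  intro γ hc hi hm v hv hd
  obtain ⟨hv, hv0⟩ := mem_ZT.1 hv
  have hv0 := hv0 _ (mem_singleton _)
  have hnear : ∀ s ∈ Icc (0 : ℝ) 1, ∀ u : X.V (m + 1 + 1), u ∈ Q.z _ (γ s) →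
      ∀ᶠ t in 𝓝[Icc 0 1] s, u ∈ Q.z _ (γ t) := fun s hs u hu =>
    (hc s hs).eventually ((Q.opn _ u).mem_nhds hu)
  have s1 : ∀ s ∈ Icc (0 : ℝ) 1, Q.Good (m + 1) v {γ s} ∅ := fun s hs => by
    refine vlcn_const (P := fun s => Q.Good (m + 1) v {γ s} ∅) (fun s hs => ?_)
      ((vlcn_pt hv).2 ⟨0, zero_mem _, by simpa using hv0⟩) hs
    obtain ⟨b, hb, hg⟩ := h3 _ (hm hs) v hv ((mem_ZT.1 hd).2 _ (mem_image_of_mem γ hs))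
    obtain ⟨w0, hw0, e0⟩ := (vlcn_pt (sub_mem hv (h1 b hb))).1 hg
    have key : ∀ t ∈ Icc (0 : ℝ) 1, v - b - X.d _ w0 ∈ Q.z _ (γ t) →
        (Q.Good (m + 1) v {γ t} ∅ ↔ ∀ x ∈ W, b ∈ Q.z (m + 1 + 1) x) := fun t ht e => by
      constructor
      · intro hg
        obtain ⟨w, hw, e1⟩ := (vlcn_pt hv).1 hg
        refine h2 _ (hm ht) b hb ((vlcn_pt (h1 b hb)).2 ⟨w - w0, sub_mem hw hw0, ?_⟩)
        convert sub_mem e1 e using 1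
        rw [map_sub]
        abel
      · intro hb'
        refine (vlcn_pt hv).2 ⟨w0, hw0, ?_⟩
        convert add_mem e (hb' _ (hm ht)) using 1
        abel
    filter_upwards [hnear s hs _ e0, self_mem_nhdsWithin] with t e ht
    rw [key s hs e0, key t ht e]
  have s2 : Q.Good (m + 1) v (γ '' Icc 0 1) ∅ := by
    refine vlcn_const (P := fun s => Q.Good (m + 1) v (γ '' Icc 0 s) ∅) (fun s hs => ?_)
      (by simpa using s1 0 (left_mem_Icc.2 zero_le_one)) (right_mem_Icc.2 zero_le_one)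
    obtain ⟨w0, hw0, e0⟩ := (vlcn_pt hv).1 (s1 s hs)
    obtain ⟨ε, hε, hb⟩ := Metric.mem_nhdsWithin_iff.1 (hnear s hs _ e0)
    have key : ∀ a ∈ ball s ε ∩ Icc (0 : ℝ) 1, ∀ b ∈ ball s ε ∩ Icc (0 : ℝ) 1, a ≤ b →
        (Q.Good (m + 1) v (γ '' Icc 0 a) ∅ ↔ Q.Good (m + 1) v (γ '' Icc 0 b) ∅) := by
      intro a ha b hb' hab
      refine ⟨fun hg => ?_, fun hg => hg.mono (image_mono (Icc_subset_Icc_right hab)) subset_rfl⟩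
      have i1 : Icc 0 a ⊆ Icc (0 : ℝ) 1 := Icc_subset_Icc_right ha.2.2
      have i2 : Icc a b ⊆ Icc (0 : ℝ) 1 := Icc_subset_Icc ha.2.1 hb'.2.2
      rw [← Icc_union_Icc_eq_Icc ha.2.1 hab, image_union]
      refine vlcn_glue (y := γ a) (sep_of_isClosed
        (isCompact_Icc.image_of_continuousOn (hc.mono i1)).isClosed
        (isCompact_Icc.image_of_continuousOn (hc.mono i2)).isClosed) ?_
        (image_subset_iff.2 fun t ht => hm (i2 ht)) (fix _ (hm ha.2)) hv hg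
        ((vlcn_good hv).2 ⟨w0, hw0, ?_⟩)
      · rw [← hi.image_inter i1 i2, Icc_inter_Icc_eq_singleton ha.2.1 hab, image_singleton]
      · rintro _ ⟨t, ht, rfl⟩
        exact hb ⟨(convex_ball s ε).ordConnected.out ha.1 hb'.1 ht, i2 ht⟩
    filter_upwards [inter_mem_nhdsWithin _ (ball_mem_nhds s hε)] with t ht
    rcases le_total s t with h | h
    · exact key s ⟨mem_ball_self hε, hs⟩ t ⟨ht.2, ht.1⟩ h
    · exact (key t ⟨ht.2, ht.1⟩ s ⟨mem_ball_self hε, hs⟩ h).symm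
  obtain ⟨w, hw, e⟩ := (vlcn_good hv).1 s2
  have z0 : (0 : ℝ) ∈ Icc (0 : ℝ) 1 := left_mem_Icc.2 zero_le_one
  obtain ⟨c, hc', e1, e2⟩ := fix _ (hm z0) w hw (by
    simpa using sub_mem hv0 (e _ (mem_image_of_mem γ z0)))
  refine ⟨w - c, mem_ZT.2 ⟨sub_mem hw hc', fun x hx => hx ▸ e1⟩,
    mem_ZT.2 ⟨sub_mem hv (Q.d_top _ _ (sub_mem hw hc')), fun x hx => ?_⟩⟩
  convert add_mem (e x hx) (e2 x (image_subset_iff.2 hm hx)) using 1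
  rw [map_sub]
  abel

theorem pc_of_lcn {Q : FC X T} {S : Set T} (h : ∀ n, Q.LCn S n) : Q.PC S := by
  intro γ hc hi hm n
  obtain ⟨m, rfl⟩ : ∃ m, n = m + 1 := ⟨n - 1, by ring⟩
  refine pcn_local (fun y hy => ?_) γ hc hi hm
  obtain ⟨W₀, B₀, o0, y0, a0, b0⟩ := h m y hy
  obtain ⟨W₁, B₁, o1, y1, a1, b1⟩ := h (m + 1) y hy
  refine ⟨S ∩ (W₀ ∩ W₁), inter_mem_nhdsWithin _ ((o0.inter o1).mem_nhds ⟨y0, y1⟩),
    vlcn_key (B := B₁) (fun x hx u hu hd => ?_) (fun b hb => (a1 b hb).1)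
      (fun x hx b hb hg x' hx' => mem_Z.1 ((b1 x ⟨hx.1, hx.2.2⟩).1 b hb hg) x' hx'.2.2)
      fun x hx => (b1 x ⟨hx.1, hx.2.2⟩).2⟩
  obtain ⟨c, hc, e1, e2⟩ := vlcn_fix a0 (b0 x ⟨hx.1, hx.2.1⟩).2 hu hd
  exact ⟨c, hc, e1, fun x' hx' => e2 x' hx'.2.1⟩

end FC

end Pool.Agent.PWV
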