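import Pool.Agent.P.MP_65ad7c_ag.VFlab
import Pool.Agent.P.MP_65ad7c_ag.VBas2

/-! A complex of injective sheaves as a flabby complex. -/

open Set Filter Topology CategoryTheory TopologicalSpace
open Pool.Agent.PWD

noncomputable section
namespace Pool.Agent.PWV

variable {Y : Type} [TopologicalSpace Y]

/-- The complex of global sections. -/
@[reducible] def cxI (I : PWD.Cx Y) : Cx where
  V n := Sec I n.toNat ⊤
  d n := dd n.toNat (n + 1).toNat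
  dd _ v := vf_dd_dd _ _ _ v

/-- Global sections with zero germ. -/
def zI (I : PWD.Cx Y) (n : ℕ) (y : Y) : Submodule ℂ (Sec I n ⊤) where
  carrier := {s | ∃ W : Opens Y, y ∈ W ∧ rs (le_top : W ≤ ⊤) s = 0}
  add_mem' := by
    rintro a b ⟨W, hW, ha⟩ ⟨W', hW', hb⟩
    refine ⟨W ⊓ W', ⟨hW, hW'⟩, ?_⟩
    rw [map_add, ← vf_rs_rs le_top inf_le_left, ha, ← vf_rs_rs le_top inf_le_right b, hb]
    simp
  zero_mem' := ⟨⊤, trivial, map_zero _⟩
  smul_mem' := by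
    rintro c a ⟨W, hW, ha⟩
    exact ⟨W, hW, by rw [map_smul, ha, smul_zero]⟩

variable {I : PWD.Cx Y} {n : ℕ} {W : Opens Y} {C : Set Y}

theorem mem_zI {y : Y} {s : Sec I n ⊤} :
    s ∈ zI I n y ↔ ∃ W : Opens Y, y ∈ W ∧ rs (le_top : W ≤ ⊤) s = 0 := Iff.rfl

theorem zI_le {y : Y} {s : Sec I n ⊤} (h : s ∈ zI I n y) (hy : y ∈ W) :
    ∃ (W' : Opens Y) (_ : W' ≤ W), y ∈ W' ∧ rs (le_top : W' ≤ ⊤) s = 0 := by
  obtain ⟨W', h1, h2⟩ := h
  exact ⟨W ⊓ W', inf_le_left, ⟨hy, h1⟩, by rw [← vf_rs_rs le_top inf_le_right, h2, map_zero]⟩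

theorem rs_eq_zero {s : Sec I n ⊤} (h : ∀ y ∈ W, s ∈ zI I n y) : rs (le_top : W ≤ ⊤) s = 0 :=
  vf_sep _ fun y hy => by
    obtain ⟨W', h1, h2, h3⟩ := zI_le (h y hy) hy
    exact ⟨W', h1, h2, by rw [vf_rs_rs, h3]⟩

theorem dd_zI {y : Y} {s : Sec I n ⊤} (h : s ∈ zI I n y) (k : ℕ) : dd n k s ∈ zI I k y := by
  obtain ⟨W, h1, h2⟩ := h
  exact ⟨W, h1, by rw [vf_rs_dd, h2, map_zero]⟩

theorem supp_rs {s : Sec I n ⊤} :
    PWD.Supp C (rs (le_top : W ≤ ⊤) s) ↔ ∀ y ∈ W, y ∉ C → s ∈ zI I n y := by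
  refine forall₃_congr fun y hy _ => ⟨?_, fun h => ?_⟩
  · rintro ⟨W', h1, h2, h3⟩
    exact ⟨W', h2, by rw [← h3, vf_rs_rs]⟩
  · obtain ⟨W', h1, h2, h3⟩ := zI_le h hy
    exact ⟨W', h1, h2, by rw [vf_rs_rs, h3]⟩

theorem supp_top {s : Sec I n ⊤} : PWD.Supp C s ↔ ∀ y ∉ C, s ∈ zI I n y := by
  have := supp_rs (C := C) (W := ⊤) (s := s)
  rw [vf_rs_self] at this
  rw [this]
  exact ⟨fun h y hy => h y trivial hy, fun h y _ hy => h y hy⟩

theorem glue_top (hI : Injective (I.X n)) {ι : Type} (O : ι → Set Y) (v : ι → Sec I n ⊤)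
    (hO : ∀ i, IsOpen (O i)) (h : ∀ i j, ∀ x ∈ O i ∩ O j, v i - v j ∈ zI I n x) :
    ∃ w : Sec I n ⊤, ∀ i, ∀ x ∈ O i, w - v i ∈ zI I n x := by
  obtain ⟨t, ht⟩ := vf_glue (fun i => (⟨O i, hO i⟩ : Opens Y)) (fun i => rs le_top (v i))
    fun i j => by
      rw [vf_rs_rs, vf_rs_rs, ← sub_eq_zero, ← map_sub]
      exact rs_eq_zero (h i j)
  obtain ⟨w, rfl⟩ := vf_flabby hI t
  refine ⟨w, fun i x hx => ⟨⟨O i, hO i⟩, hx, ?_⟩⟩
  rw [map_sub, ← ht i, vf_rs_rs, sub_self]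

theorem extend_supp (hI : Injective (I.X n)) (hC : IsClosed C) {s : Sec I n W}
    (hs : PWD.Supp C s) : ∃ v : Sec I n ⊤, rs le_top v = s ∧ ∀ y ∉ C, v ∈ zI I n y := by
  obtain ⟨v, rfl⟩ := vf_flabby hI s
  have hs' := supp_rs.1 hs
  obtain ⟨w, hw⟩ := glue_top hI (fun b : Bool => cond b (W : Set Y) Cᶜ) (fun b => cond b v 0)
    (fun b => by cases b; exacts [hC.isOpen_compl, W.2]) (by
      rintro (_ | _) (_ | _) x hx
      · simp
      · simpa using hs' x hx.2 hx.1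
      · simpa using hs' x hx.1 hx.2
      · simp)
  refine ⟨w, ?_, fun y hy => by simpa using hw false y hy⟩
  rw [← sub_eq_zero, ← map_sub]
  exact rs_eq_zero (hw true)

theorem dd_cast {j k k' : ℕ} (h : k = k') {s : Sec I j W} : dd j k s = 0 ↔ dd j k' s = 0 := by
  subst h
  rfl

/-- The flabby complex of a complex of injective sheaves. -/
def fcI (hI : ∀ n, Injective (I.X n)) : FC (cxI I) Y where
  top n := if n < 0 then ⊥ else ⊤
  z n y := zI I n.toNat y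
  d_top n v hv := by
    beta_reduce at hv ⊢
    by_cases h : n < 0
    · rw [if_pos h, Submodule.mem_bot] at hv
      rw [hv, map_zero]
      exact zero_mem _
    · rw [if_neg (by omega)]
      trivial
  d_z y n v hv := dd_zI hv _
  opn n v := isOpen_iff_forall_mem_open.2 fun y ⟨W, h1, h2⟩ => ⟨W, fun _ h => ⟨W, h, h2⟩, W.2, h1⟩
  glue n ι O v hO hv h := by
    by_cases hn : n < 0
    · simp only [if_pos hn, Submodule.mem_bot] at hv
      exact ⟨0, zero_mem _, fun i x _ => by rw [hv i, sub_self]; exact zero_mem _⟩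
    · obtain ⟨w, hw⟩ := glue_top (hI _) O v hO h
      exact ⟨w, by rw [if_neg hn]; trivial, hw⟩
  neg n hn y := by
    rw [if_pos hn]
    exact bot_le

variable {T : Type} [MetricSpace T] {e : C(Y, T)} (hI : ∀ n, Injective (I.X n))

theorem qz_emb (he : IsClosedEmbedding e) {m : ℤ} {v : (cxI I).V m} {y : Y} :
    v ∈ ((fcI hI).map e).z m (e y) ↔ v ∈ zI I m.toNat y := by
  change (∀ᶠ x in comap e (𝓝 (e y)), v ∈ zI I m.toNat x) ↔ _
  rw [← he.isInducing.nhds_eq_comap]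
  exact ⟨fun h => h.self_of_nhds, fun h => ((fcI hI).opn m v).mem_nhds h⟩

theorem q_supp (he : IsClosedEmbedding e) : ((fcI hI).map e).Supp (range e) := fun m v _ x hx =>
  eventually_comap.2 (by
    filter_upwards [he.isClosed_range.isOpen_compl.mem_nhds hx] with x' hx' y hy
    exact (hx' ⟨y, hy⟩).elim)

theorem q_top {m : ℤ} (hm : 0 ≤ m) (v : (cxI I).V m) : v ∈ ((fcI hI).map e).top m := by
  change v ∈ (if m < 0 then ⊥ else ⊤ : Submodule ℂ _)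
  rw [if_neg (by omega)]
  trivial

theorem q_Z (he : IsClosedEmbedding e) {m : ℤ} {v : (cxI I).V m} {A : Set T} :
    v ∈ ((fcI hI).map e).Z A m ↔ ∀ y, e y ∈ A → v ∈ zI I m.toNat y := by
  rw [FC.mem_Z]
  refine ⟨fun h y hy => (qz_emb hI he).1 (h _ hy), fun h x hx => ?_⟩
  by_cases hr : x ∈ range e
  · obtain ⟨y, rfl⟩ := hr
    exact (qz_emb hI he).2 (h y hx)
  · exact eventually_comap.2 (by
      filter_upwards [he.isClosed_range.isOpen_compl.mem_nhds hr] with x' hx' y hy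
      exact (hx' ⟨y, hy⟩).elim)

theorem q_ZT (he : IsClosedEmbedding e) {m : ℤ} (hm : 0 ≤ m) {v : (cxI I).V m} {A : Set T} :
    v ∈ ((fcI hI).map e).ZT A m ↔ ∀ y, e y ∈ A → v ∈ zI I m.toNat y :=
  ⟨fun h => (q_Z hI he).1 h.2, fun h => ⟨q_top hI hm v, (q_Z hI he).2 h⟩⟩

theorem qg_ZT (he : IsClosedEmbedding e) (hC : IsClosed C) {m : ℤ} (hm : 0 ≤ m)
    {v : (cxI I).V m} {A : Set T} : v ∈ (((fcI hI).map e).gam (e '' C)).ZT A m ↔
      (∀ y ∉ C, v ∈ zI I m.toNat y) ∧ ∀ y, e y ∈ A → v ∈ zI I m.toNat y := by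
  rw [FC.gam_ZT _ (he.isClosedMap _ hC), q_ZT hI he hm]
  refine ⟨fun h => ⟨fun y hy => h y (Or.inr ?_), fun y hy => h y (Or.inl hy)⟩,
    fun h y hy => hy.elim (h.2 y) fun hy => h.1 y fun hy' => hy ⟨y, hy', rfl⟩⟩
  rwa [mem_compl_iff, he.injective.mem_set_image]

theorem good_iff_cob (he : IsClosedEmbedding e) (hC : IsClosed C) {m : ℤ} (hm : 0 ≤ m + 1)
    {v : (cxI I).V (m + 1)} (hv : ∀ y ∉ C, v ∈ zI I (m + 1).toNat y) {y : Y} (hy : y ∈ W) :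
    (((fcI hI).map e).gam (e '' C)).Good m v {e y} ∅ ↔
      Cob C y (rs (le_top : W ≤ ⊤) (v : Sec I (m + 1).toNat ⊤)) := by
  constructor
  · rintro ⟨w, hw, hd⟩
    obtain ⟨W', h1, h2, h3⟩ := zI_le (((qg_ZT hI he hC hm).1 hd).2 y rfl) hy
    refine ⟨W', h1, m.toNat, rs le_top (w : Sec I m.toNat ⊤), h2, supp_rs.2 fun y' _ hy' => ?_, ?_⟩
    · refine (qz_emb hI he).1 (FC.supp_gam _ (he.isClosedMap _ hC) m w hw.1 _ ?_)
      rwa [he.injective.mem_set_image]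
    · rw [vf_rs_rs, ← vf_rs_dd]
      exact (sub_eq_zero.1 ((map_sub _ _ _).symm.trans h3)).symm
  · rintro ⟨W', h1, k, t, h2, h3, h4⟩
    rw [vf_rs_rs] at h4
    by_cases hk : k + 1 = (m + 1).toNat
    · obtain rfl : k = m.toNat := by omega
      obtain ⟨w, rfl, hw⟩ := extend_supp (hI _) hC h3
      refine ⟨w, (qg_ZT hI he hC (by omega)).2 ⟨hw, fun _ h => h.elim⟩,
        (qg_ZT hI he hC hm).2 ⟨fun y' hy' => sub_mem (hv y' hy') (dd_zI (hw y' hy') _),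
          fun y' hy' => ?_⟩⟩
      obtain rfl := he.injective hy'
      rw [← vf_rs_dd] at h4
      exact ⟨W', h2, (map_sub _ _ _).trans (sub_eq_zero.2 h4.symm)⟩
    · rw [vf_dd_ne hk] at h4
      refine ⟨0, zero_mem _, ?_⟩
      rw [map_zero, sub_zero]
      refine (qg_ZT hI he hC hm).2 ⟨hv, fun y' hy' => ?_⟩
      obtain rfl := he.injective hy'
      exact ⟨W', h2, h4.symm⟩

theorem coc_near {m : ℤ} (hm : 0 ≤ m + 1) {v : (cxI I).V (m + 1)}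
    (hv : ∀ y ∉ C, v ∈ zI I (m + 1).toNat y) {y : Y} (hy : y ∈ W)
    (hd : (cxI I).d (m + 1) v ∈ zI I (m + 1 + 1).toNat y) : ∃ (W' : Opens Y) (_ : W' ≤ W), y ∈ W' ∧
      Coc C (rs (le_top : W' ≤ ⊤) (v : Sec I (m + 1).toNat ⊤)) := by
  obtain ⟨W', h1, h2, h3⟩ := zI_le hd hy
  refine ⟨W', h1, h2, supp_rs.2 fun y' _ hy' => hv y' hy', ?_⟩
  rw [dd_cast (k' := (m + 1 + 1).toNat) (by omega), ← vf_rs_dd]
  exact h3

theorem ex_pt (he : IsClosedEmbedding e) (hC : IsClosed C) {m : ℤ} {y : Y}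
    (h : 0 ≤ m + 1 → ∀ (W : Opens Y) (s : Sec I (m + 1).toNat W), Coc C s → y ∈ W → Cob C y s) :
    (((fcI hI).map e).gam (e '' C)).Ex m {e y} ∅ := by
  by_cases hm : m + 1 < 0
  · exact FC.ex_neg _ hm _ _
  intro v hv hd
  have hv' := ((qg_ZT hI he hC (by omega)).1 hv).1
  obtain ⟨W', -, h2, h3⟩ := coc_near (W := ⊤) (by omega) hv' trivial
    (((qg_ZT hI he hC (by omega)).1 hd).2 y rfl)
  exact (good_iff_cob hI he hC (by omega) hv' h2).2 (h (by omega) _ _ h3 h2)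

theorem lcn_of_lc (he : IsClosedEmbedding e) (hC : IsClosed C) {S : Set Y}
    (h : ∀ n, PWD.LC I C S n) (m : ℤ) : (((fcI hI).map e).gam (e '' C)).LCn (e '' S) m := by
  rintro _ ⟨x, hx, rfl⟩
  by_cases hm : m + 1 < 0
  · refine ⟨univ, ⊥, isOpen_univ, trivial, fun b hb => ?_, fun y _ => ⟨fun b hb _ => ?_,
      fun v hv _ => ⟨0, zero_mem _, 0, zero_mem _, ?_⟩⟩⟩
    · rw [(Submodule.mem_bot _).1 hb, map_zero]
      exact ⟨zero_mem _, zero_mem _⟩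
    · rw [(Submodule.mem_bot _).1 hb]
      exact zero_mem _
    · rw [map_zero, sub_zero, sub_zero]
      exact FC.mem_ZT.2 ⟨hv, fun x _ => FC.neg _ _ hm x hv⟩
  have hm' : 0 ≤ m + 1 := by omega
  obtain ⟨W, B, hW, hB, hS⟩ := h (m + 1).toNat x hx
  obtain ⟨W₁, hW₁, hWW⟩ := he.isInducing.isOpen_iff.1 W.2
  have hmem : ∀ y, e y ∈ W₁ ↔ y ∈ W := fun y => Set.ext_iff.1 hWW y
  have htop : ∀ v : (cxI I).V (m + 1), v ∈ (((fcI hI).map e).gam (e '' C)).top (m + 1) ↔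
      ∀ y ∉ C, v ∈ zI I (m + 1).toNat y := fun v => by
    rw [← FC.ZT_empty, qg_ZT hI he hC hm']
    exact ⟨fun h => h.1, fun h => ⟨h, fun _ h => h.elim⟩⟩
  refine ⟨W₁, (((fcI hI).map e).gam (e '' C)).top (m + 1) ⊓ B.comap (rs le_top), hW₁,
    (hmem x).2 hW, fun b hb => ⟨hb.1, (q_Z hI he).2 fun y hy => ⟨W, (hmem y).1 hy, ?_⟩⟩, ?_⟩
  · have := (dd_cast (k' := (m + 1 + 1).toNat) (by omega)).1 (hB _ hb.2).2
    rw [← vf_rs_dd] at this
    exact this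
  rintro _ ⟨⟨y, hy, rfl⟩, hyW⟩
  have hyW' := (hmem y).1 hyW
  obtain ⟨h1, h2⟩ := hS y hy hyW'
  refine ⟨fun b hb hg => (q_Z hI he).2 fun y' hy' => ⟨W, (hmem y').1 hy',
    h1 _ hb.2 ((good_iff_cob hI he hC hm' ((htop b).1 hb.1) hyW').1 hg)⟩, fun v hv hd => ?_⟩
  obtain ⟨W', h3, h4, h5⟩ := coc_near hm' ((htop v).1 hv) hyW' ((qz_emb hI he).1 hd)
  obtain ⟨b, hb, h6⟩ := h2 W' h3 _ h4 h5
  obtain ⟨b', rfl, hb'⟩ := extend_supp (hI _) hC (hB b hb).1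
  refine ⟨b', ⟨(htop b').2 hb', hb⟩, (good_iff_cob hI he hC hm'
    (fun y' hy' => sub_mem ((htop v).1 hv y' hy') (hb' y' hy')) h4).2 ?_⟩
  rw [vf_rs_rs] at h6
  exact (map_sub (rs (le_top : W' ≤ ⊤)) _ _).symm ▸ h6

end Pool.Agent.PWV
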