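import Pool.Agent.P.MP_65ad7c_ag.VCod1

open Set Filter Topology Metric

noncomputable section
namespace Pool.Agent.PWV

variable {X : Cx} {T : Type} [MetricSpace T]

/-- Splitting off the first coordinate. -/
def vcod_h (E : Type) [TopologicalSpace E] (m : ℕ) :
    (E × ℂ) × (Fin m → ℂ) ≃ₜ E × (Fin (m + 1) → ℂ) where
  toFun p := (p.1.1, Fin.cons p.1.2 p.2)
  invFun q := ((q.1, q.2 0), fun i => q.2 i.succ)
  left_inv p := by simp
  right_inv q := by
    refine Prod.ext rfl ?_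
    funext i
    refine Fin.cases ?_ (fun j => ?_) i <;> simp
  continuous_toFun := by
    refine (continuous_fst.comp continuous_fst).prodMk (continuous_pi fun i => ?_)
    refine Fin.cases ?_ (fun j => ?_) i
    · simp only [Fin.cons_zero]
      exact continuous_snd.comp continuous_fst
    · simp only [Fin.cons_succ]
      exact (continuous_apply j).comp continuous_snd
  continuous_invFun := by
    refine (continuous_fst.prodMk ((continuous_apply 0).comp continuous_snd)).prodMk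
      (continuous_pi fun i => (continuous_apply i.succ).comp continuous_snd)

theorem vcod_h_zero {E : Type} [TopologicalSpace E] {m : ℕ} (p : (E × ℂ) × (Fin m → ℂ)) :
    (vcod_h E m p).2 = 0 ↔ p.1.2 = 0 ∧ p.2 = 0 := by
  change (Fin.cons p.1.2 p.2 : Fin (m + 1) → ℂ) = 0 ↔ _
  constructor
  · intro h
    refine ⟨by simpa using congrFun h 0, funext fun i => ?_⟩
    simpa using congrFun h i.succ
  · rintro ⟨h1, h2⟩
    rw [h1, h2]
    funext i
    refine Fin.cases ?_ (fun j => ?_) i <;> simp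

namespace FC

theorem cod (m : ℕ) : ∀ (E : Type) [NormedAddCommGroup E] [NormedSpace ℝ E] [FiniteDimensional ℝ E]
    (Q : FC X (E × (Fin m → ℂ))) (b : ℤ), Q.PC univ → Q.Deg univ b →
    (Q.gam (univ ×ˢ {0})).PC (univ ×ˢ {0}) ∧ (Q.gam (univ ×ˢ {0})).Deg (univ ×ˢ {0}) (b + m) := by
  induction m with
  | zero =>
    intro E _ _ _ Q b hP hD
    have e : (univ ×ˢ {0} : Set (E × (Fin 0 → ℂ))) = univ :=
      eq_univ_of_forall fun p => ⟨mem_univ _, Subsingleton.elim _ _⟩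
    rw [e, gam_univ]
    exact ⟨hP, by simpa using hD⟩
  | succ m ih =>
    intro E _ _ _ Q b hP hD
    have hh : IsEmbedding (vcod_h E m) := (vcod_h E m).isEmbedding
    have t1 := tr_comap Q hh.isInducing
    have P1 : (Q.comap _ hh.isInducing).PC univ := (t1.pc hh univ).2 (hP.mono (subset_univ _))
    have D1 : (Q.comap _ hh.isInducing).Deg univ b :=
      (t1.deg univ b).2 (hD.mono (subset_univ _) le_rfl)
    obtain ⟨P2, D2⟩ := ih (E × ℂ) (Q.comap _ hh.isInducing) b P1 D1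
    have hY : IsClosed (univ ×ˢ {0} : Set ((E × ℂ) × (Fin m → ℂ))) :=
      isClosed_univ.prod isClosed_singleton
    have hι : IsEmbedding (fun p : E × ℂ => (p, (0 : Fin m → ℂ))) := isEmbedding_prodMkLeft _
    have t2 := tr_comap ((Q.comap _ hh.isInducing).gam (univ ×ˢ {0})) hι.isInducing
    have sub : (fun p : E × ℂ => (p, (0 : Fin m → ℂ))) '' univ ⊆ univ ×ˢ {0} := by
      rintro _ ⟨p, -, rfl⟩
      exact ⟨mem_univ _, rfl⟩
    have P3 := (t2.pc hι univ).2 (P2.mono sub)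
    have D3 := (t2.deg univ (b + m)).2 (D2.mono sub le_rfl)
    obtain ⟨P4, D4⟩ := cod1 _ P3 D3
    have hC0 : IsClosed {p : (E × ℂ) × (Fin m → ℂ) | p.1.2 = 0} :=
      isClosed_eq (continuous_snd.comp continuous_fst) continuous_const
    have t3 := tr_gam_comap (supp_gam (Q.comap _ hh.isInducing) hY) hι.isInducing isOpen_univ
      (by
        ext p
        constructor
        · rintro ⟨q, rfl⟩
          exact ⟨⟨mem_univ _, rfl⟩, mem_univ _⟩
        · rintro ⟨⟨-, h⟩, -⟩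
          exact ⟨p.1, Prod.ext rfl (mem_singleton_iff.1 h).symm⟩) hC0
    have e3 : (fun p : E × ℂ => (p, (0 : Fin m → ℂ))) ⁻¹' {p | p.1.2 = 0} = univ ×ˢ {0} := by
      ext p
      simp
    have hC : IsClosed (univ ×ˢ {0} : Set (E × (Fin (m + 1) → ℂ))) :=
      isClosed_univ.prod isClosed_singleton
    have e4 : (univ ×ˢ {0} : Set ((E × ℂ) × (Fin m → ℂ))) ∩ {p | p.1.2 = 0} =
        vcod_h E m ⁻¹' (univ ×ˢ {0}) := by
      ext p
      simp only [mem_inter_iff, mem_prod, mem_univ, mem_singleton_iff, true_and, mem_preimage,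
        vcod_h_zero]
      exact and_comm
    rw [e3, gam_gam _ hY hC0, e4] at t3
    have t4 := tr_gam_comap (supp_univ Q) hh.isInducing isOpen_univ
      (by rw [(vcod_h E m).surjective.range_eq, univ_inter]) hC
    have sub2 : (univ ×ˢ {0} : Set (E × (Fin (m + 1) → ℂ))) ⊆
        vcod_h E m '' ((fun p : E × ℂ => (p, (0 : Fin m → ℂ))) '' (univ ×ˢ {0})) := by
      rintro q ⟨-, hq⟩
      refine ⟨((q.1, 0), 0), ⟨(q.1, 0), ⟨mem_univ _, rfl⟩, rfl⟩, Prod.ext rfl ?_⟩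
      rw [mem_singleton_iff.1 hq]
      exact (vcod_h_zero _).2 ⟨rfl, rfl⟩
    refine ⟨((t4.pc hh _).1 ((t3.pc hι _).1 P4)).mono sub2,
      ((t4.deg _ _).1 ((t3.deg _ _).1 D4)).mono sub2 ?_⟩
    push_cast
    omega

theorem vcod_loc {E : Type} [NormedAddCommGroup E] [NormedSpace ℝ E] [FiniteDimensional ℝ E] {m : ℕ}
    {Q : FC X T} {Y O C S : Set T} (h : Q.Supp Y) {χ : E × (Fin m → ℂ) → T} (hχ : IsEmbedding χ)
    (hO : IsOpen O) (hr : range χ = Y ∩ O) (hC : IsClosed C) (hχC : ∀ u, χ u ∈ C ↔ u.2 = 0)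
    (hS : IsOpen (χ ⁻¹' S)) {b : ℤ} (hP : Q.PC S) (hD : Q.Deg S b) {y : T}
    (hy : y ∈ C ∩ range χ ∩ S) :
    ∃ W ∈ 𝓝[C ∩ range χ ∩ S] y, (Q.gam C).PC W ∧ (Q.gam C).Deg W (b + m) := by
  obtain ⟨⟨hyC, u, rfl⟩, hyS⟩ := hy
  obtain ⟨u0, u1⟩ := u
  obtain rfl : u1 = 0 := (hχC _).1 hyC
  obtain ⟨χ0, h0, h00, hN, hz⟩ := exists_chart u0 (hS.mem_nhds hyS)
  have h2 : IsEmbedding (χ ∘ χ0) := hχ.comp h0.isEmbedding
  obtain ⟨O2, hO2, e2⟩ := hχ.isInducing.isOpen_iff.1 h0.isOpen_range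
  have hr2 : range (χ ∘ χ0) = Y ∩ (O ∩ O2) := by
    rw [range_comp, ← e2, image_preimage_eq_range_inter, hr, inter_assoc]
  have sub : (χ ∘ χ0) '' univ ⊆ S := by
    rintro _ ⟨w, -, rfl⟩
    exact hN ⟨w, rfl⟩
  have t1 := tr_comap Q h2.isInducing
  obtain ⟨P2, D2⟩ := cod m E (Q.comap _ h2.isInducing) b ((t1.pc h2 univ).2 (hP.mono sub))
    ((t1.deg univ b).2 (hD.mono sub le_rfl))
  have t2 := tr_gam_comap h h2.isInducing (hO.inter hO2) hr2 hC
  have e3 : (χ ∘ χ0) ⁻¹' C = univ ×ˢ {0} := by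
    ext w
    simp only [mem_preimage, Function.comp_apply, hχC, hz, mem_prod, mem_univ, true_and,
      mem_singleton_iff]
  rw [e3] at t2
  refine ⟨_, ?_, (t2.pc h2 _).1 P2, (t2.deg _ _).1 D2⟩
  refine mem_nhdsWithin.2 ⟨O2, hO2, ?_, ?_⟩
  · have : (u0, (0 : Fin m → ℂ)) ∈ χ ⁻¹' O2 := by
      rw [e2]
      exact ⟨0, h00⟩
    exact this
  · rintro _ ⟨hz2, ⟨hzC, v, rfl⟩, -⟩
    have : v ∈ range χ0 := by
      rw [← e2]
      exact hz2
    obtain ⟨w, rfl⟩ := this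
    exact ⟨w, ⟨mem_univ _, (hz w).1 ((hχC _).1 hzC)⟩, rfl⟩

/-- Local cohomology along a flat subset of a piece of the support. -/
theorem cod_gen {E : Type} [NormedAddCommGroup E] [NormedSpace ℝ E] [FiniteDimensional ℝ E] {m : ℕ}
    {Q : FC X T} {Y O C S : Set T} (h : Q.Supp Y) {χ : E × (Fin m → ℂ) → T} (hχ : IsEmbedding χ)
    (hO : IsOpen O) (hr : range χ = Y ∩ O) (hC : IsClosed C) (hχC : ∀ u, χ u ∈ C ↔ u.2 = 0)
    (hS : IsOpen (χ ⁻¹' S)) {b : ℤ} (hP : Q.PC S) (hD : Q.Deg S b) :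
    (Q.gam C).PC (C ∩ range χ ∩ S) ∧ (Q.gam C).Deg (C ∩ range χ ∩ S) (b + m) := by
  refine ⟨pc_local fun y hy => ?_, fun y hy => ?_⟩
  · obtain ⟨W, hW, h1, -⟩ := vcod_loc h hχ hO hr hC hχC hS hP hD hy
    exact ⟨W, hW, h1⟩
  · obtain ⟨W, hW, -, h2⟩ := vcod_loc h hχ hO hr hC hχC hS hP hD hy
    exact h2 y (mem_of_mem_nhdsWithin hy hW)

end FC

end Pool.Agent.PWV
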