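import Pool.Agent.P.MP_65ad7c_ag.VSmooth
import Pool.Agent.P.MP_65ad7c_ag.VOpen

open Set Filter Topology Metric

noncomputable section
namespace Pool.Agent.PWV

open MvPolynomial

theorem vpair_eval {σ τ : Type} (G : τ → MvPolynomial σ ℂ) (x : σ → ℂ) (f : MvPolynomial τ ℂ) :
    eval x (aeval G f) = eval (pm G x) f := by
  induction f using MvPolynomial.induction_on with
  | C a => simp
  | add f g hf hg => simp only [map_add, hf, hg]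
  | mul_X f i hf => simp only [map_mul, hf, aeval_X, eval_X, pm]

theorem vpair_cont {σ τ : Type} (G : τ → MvPolynomial σ ℂ) : Continuous (pm G) :=
  continuous_pi fun i => MvPolynomial.continuous_eval (G i)

theorem vpair_mem {σ τ : Type} (G : τ → MvPolynomial σ ℂ) {p : Ideal (MvPolynomial σ ℂ)}
    {x : σ → ℂ} (hx : x ∈ ZI p) : pm G x ∈ ZI (p.comap (aeval G).toRingHom) := fun f hf => by
  rw [← vpair_eval]
  exact hx _ hf

/-- An irreducible subvariety is generically flat in local coordinates of a larger set. -/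
theorem pair {N k : ℕ} (G : Fin k → MvPolynomial (Fin N) ℂ) {p : Ideal (MvPolynomial (Fin N) ℂ)}
    (hp : p.IsPrime) : ∃ δ ∉ p, ∃ e, ¬ Dim (ZI p) e ∧ ∀ x ∈ ZI p, eval x δ ≠ 0 →
      ∀ Y V : Set (Fin N → ℂ), ZI p ⊆ Y → Chart Y G x → (∀ᶠ y in 𝓝 x, y ∈ V ↔ y ∈ ZI p) →
      ∀ U ∈ 𝓝 x, ∃ m, e + m = k ∧ ∃ (χ : (Fin e → ℂ) × (Fin m → ℂ) → Fin N → ℂ)
        (O : Set (Fin N → ℂ)), IsEmbedding χ ∧ IsOpen O ∧ x ∈ O ∧ O ⊆ U ∧ range χ = Y ∩ O ∧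
        ∀ u, χ u ∈ V ↔ u.2 = 0 := by
  have hp2 : (p.comap (aeval (R := ℂ) G).toRingHom).IsPrime := Ideal.comap_isPrime _ p
  obtain ⟨δo, ho, hopen⟩ := proj_open G hp
  obtain ⟨δs, hs, e, he, hflat⟩ := smooth k _ hp2
  refine ⟨δo * aeval G δs, fun h => (hp.mem_or_mem h).elim ho hs, e, fun hd => he ?_, ?_⟩
  · refine (hd.image G).zcl.mono fun y hy f hf => hy f ?_
    refine null hp fun x hx => ?_
    exact (vpair_eval G x f).trans (hf _ ⟨x, hx, rfl⟩)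
  intro x hx hδ Y V hY hch hV U hU
  obtain ⟨O, W, ψ, oO, oW, xW, cψ, hψ, hinv⟩ := hch
  rw [map_mul, vpair_eval] at hδ
  obtain ⟨y0, hy0, rfl⟩ : x ∈ ψ '' O := hψ ▸ ⟨hY hx, xW⟩
  have e0 : pm G (ψ y0) = y0 := hinv y0 hy0
  have nO : O ∈ 𝓝 y0 := oO.mem_nhds hy0
  have cy : ContinuousAt ψ y0 := cψ.continuousAt nO
  have h1 := hopen _ hx (left_ne_zero_of_mul hδ)
    (image_mem_map (m := pm G) (inter_mem_nhdsWithin (ZI p) (oW.mem_nhds xW)))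
  have h2 := hflat _ (vpair_mem G hx) (right_ne_zero_of_mul hδ)
  rw [e0] at h1 h2
  have h3 : ∀ᶠ y in 𝓝 y0, y ∈ {y | ψ y ∈ V} ↔ y ∈ ZI (p.comap (aeval (R := ℂ) G).toRingHom) := by
    filter_upwards [nO, cy.eventually hV, eventually_nhdsWithin_iff.1 h1] with y a b c
    refine b.trans ⟨fun h => hinv y a ▸ vpair_mem G h, fun h => ?_⟩
    obtain ⟨z, hz, rfl⟩ := c h
    obtain ⟨y', hy', rfl⟩ : z ∈ ψ '' O := hψ ▸ ⟨hY hz.1, hz.2⟩
    rw [hinv y' hy']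
    exact hz.1
  obtain ⟨m, hm, φ, oφ, φ0, rφ, hφ⟩ := h2.shrink h3
    (inter_mem nO (cy.preimage_mem_nhds (interior_mem_nhds.2 hU)))
  have r1 : ∀ u, φ u ∈ O := fun u => (rφ ⟨u, rfl⟩).1
  have r2 : pm G ∘ (ψ ∘ φ) = φ := funext fun u => hinv _ (r1 u)
  refine ⟨m, hm, ψ ∘ φ, W ∩ interior U ∩ pm G ⁻¹' range φ, ?_, ?_, ?_, ?_, ?_, hφ⟩
  · refine IsEmbedding.of_comp (cψ.comp_continuous oφ.continuous r1) (vpair_cont G) ?_
    rw [r2]
    exact oφ.isEmbedding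
  · exact (oW.inter isOpen_interior).inter (oφ.isOpen_range.preimage (vpair_cont G))
  · exact ⟨⟨xW, mem_interior_iff_mem_nhds.2 hU⟩, 0, φ0.trans e0.symm⟩
  · exact fun z hz => interior_subset hz.1.2
  · ext z
    constructor
    · rintro ⟨u, rfl⟩
      have : ψ (φ u) ∈ Y ∩ W := hψ.symm ▸ mem_image_of_mem ψ (r1 u)
      exact ⟨this.1, ⟨this.2, (rφ ⟨u, rfl⟩).2⟩, u, (hinv _ (r1 u)).symm⟩
    · rintro ⟨hz, ⟨hW, -⟩, u, hu⟩
      obtain ⟨y', hy', rfl⟩ : z ∈ ψ '' O := hψ ▸ ⟨hz, hW⟩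
      exact ⟨u, congrArg ψ (hu.trans (hinv y' hy'))⟩

end Pool.Agent.PWV
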