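import Pool.Agent.P.MP_65ad7c_ag.VStratA
import Pool.Agent.P.MP_65ad7c_ag.VPair
import Pool.Agent.P.MP_65ad7c_ag.VCod

open Set Filter Topology Metric

noncomputable section
namespace Pool.Agent.PWV

variable {X : Cx} {N : ℕ}

/-- One polynomial that works for a finite family of coordinate systems. -/
theorem vsw_pair {k : ℕ} {𝒢 : Set (Fin k → MvPolynomial (Fin N) ℂ)} (h𝒢 : 𝒢.Finite)
    {p : Ideal (MvPolynomial (Fin N) ℂ)} (hp : p.IsPrime) :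
    ∃ δ ∉ p, ∀ G ∈ 𝒢, ∃ e, ¬ Dim (ZI p) e ∧ ∀ x ∈ ZI p, MvPolynomial.eval x δ ≠ 0 →
      ∀ Y V : Set (Fin N → ℂ), ZI p ⊆ Y → Chart Y G x → (∀ᶠ y in 𝓝 x, y ∈ V ↔ y ∈ ZI p) →
      ∀ U ∈ 𝓝 x, ∃ m, e + m = k ∧ ∃ (χ : (Fin e → ℂ) × (Fin m → ℂ) → Fin N → ℂ)
        (O : Set (Fin N → ℂ)), IsEmbedding χ ∧ IsOpen O ∧ x ∈ O ∧ O ⊆ U ∧ range χ = Y ∩ O ∧
        ∀ u, χ u ∈ V ↔ u.2 = 0 := by
  choose δ hδ e he H using fun G : Fin k → MvPolynomial (Fin N) ℂ => pair G hp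
  refine ⟨∏ G ∈ h𝒢.toFinset, δ G, fun h => ?_, fun G hG => ⟨e G, he G, fun x hx h0 => ?_⟩⟩
  · obtain ⟨G, -, hG⟩ := (Ideal.IsPrime.prod_mem_iff (hp := hp)).1 h
    exact hδ G hG
  · refine H G x hx fun h1 => h0 ?_
    rw [map_prod]
    exact Finset.prod_eq_zero (h𝒢.mem_toFinset.2 hG) h1

namespace FC

/-- Transfer along equal germs of supports. -/
theorem vsw_congr (Q : FC X (Fin N → ℂ)) {U C D W : Set (Fin N → ℂ)} (hU : IsOpen U)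
    (hC : IsClosed C) (hD : IsClosed D) (h : C ∩ U = D ∩ U) (hW : W ⊆ U) {b : ℤ}
    (h1 : (Q.gam D).PC W) (h2 : (Q.gam D).Deg W b) : (Q.gam C).PC W ∧ (Q.gam C).Deg W b := by
  refine ⟨fun γ g1 g2 g3 n => ?_, fun x hx j hj => ?_⟩
  · refine (Q.ex_gam_congr hU hC hD h ((mapsTo_iff_image_subset.1 g3).trans hW) ?_ n).2
      (h1 γ g1 g2 g3 n)
    exact singleton_subset_iff.2 (mem_image_of_mem γ ⟨le_rfl, zero_le_one⟩)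
  · exact (Q.ex_gam_congr hU hC hD h (singleton_subset_iff.2 (hW hx)) (empty_subset _) j).2
      (h2 x hx j hj)

theorem vsw_key (Q : FC X (Fin N → ℂ)) (Y : ℕ → Set (Fin N → ℂ)) (hY : ∀ k, ZC (Y k))
    (hd : ∀ k, Dim (Y k) k)
    (hg : ∀ k, ∃ 𝒢 : Set (Fin k → MvPolynomial (Fin N) ℂ), 𝒢.Finite ∧
      ∀ x ∈ Y (k + 1) \ Y k, ∃ G ∈ 𝒢, Chart (Y (k + 1)) G x) {D : ℕ}
    (hs : Q.Supp (Y D)) {a : ℤ} (hP : ∀ k, (Q.gam (Y (k + 1))).PC (Y (k + 1) \ Y k))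
    (hD : ∀ k : ℕ, (Q.gam (Y (k + 1))).Deg (Y (k + 1) \ Y k) (a - k))
    (p : Ideal (MvPolynomial (Fin N) ℂ)) (hp : p.IsPrime) :
    ∃ δ ∉ p, ∀ x ∈ ZI p, MvPolynomial.eval x δ ≠ 0 → ∀ V : Set (Fin N → ℂ), IsClosed V →
      ZI p ⊆ V → (∀ᶠ y in 𝓝 x, y ∈ V → y ∈ ZI p) → ∀ e : ℕ, Dim (ZI p) (e + 1) →
      ∃ W ∈ 𝓝[V] x, (Q.gam V).PC W ∧ (Q.gam V).Deg W (a - e) := by
  obtain ⟨δ, hδ, h | ⟨k, hk, h⟩⟩ := exists_stratum Y hY (dim_zero.1 (hd 0)) D hp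
  · refine ⟨δ, hδ, fun x _ hx V _ _ _ e _ => ⟨(Y D)ᶜ, mem_nhdsWithin_of_mem_nhds
      ((hY D).isClosed.isOpen_compl.mem_nhds (h x hx)), (hs.gam V).pc_off,
      ((hs.gam V).deg_off _).1⟩⟩
  obtain ⟨𝒢, h𝒢, hG⟩ := hg k
  obtain ⟨δ', hδ', H⟩ := vsw_pair h𝒢 hp
  refine ⟨δ * δ', fun h1 => (hp.mem_or_mem h1).elim hδ hδ', fun x hx h0 V hV hpV hev e he => ?_⟩
  rw [map_mul] at h0
  have hxk : x ∉ Y k := h x (left_ne_zero_of_mul h0)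
  obtain ⟨G, hG𝒢, hch⟩ := hG x ⟨hk hx, hxk⟩
  obtain ⟨e', he', H'⟩ := H G hG𝒢
  have hU : (Y k)ᶜ ∩ {y | y ∈ V → y ∈ ZI p} ∈ 𝓝 x :=
    inter_mem ((hY k).isClosed.isOpen_compl.mem_nhds hxk) hev
  obtain ⟨m, hm, χ, O, hχ, hO, hxO, hOU, hr, hχV⟩ := H' x hx (right_ne_zero_of_mul h0)
    (Y (k + 1)) V hk hch (hev.mono fun y hy => ⟨hy, fun h2 => hpV h2⟩) _ hU
  have hY1 := (hY (k + 1)).isClosed
  have hrS : range χ ⊆ Y (k + 1) \ Y k := by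
    rw [hr]
    exact fun y hy => ⟨hy.1, (hOU hy.2).1⟩
  have hS : IsOpen (χ ⁻¹' (Y (k + 1) \ Y k)) := by
    rw [preimage_eq_univ_iff.2 hrS]
    exact isOpen_univ
  obtain ⟨c1, c2⟩ := cod_gen (Q.supp_gam hY1) hχ hO hr hV hχV hS (hP k) (hD k)
  rw [Q.gam_gam hY1 hV] at c1 c2
  have hVO : V ∩ O ⊆ Y (k + 1) := fun y hy => hk ((hOU hy.2).2 hy.1)
  have hW : V ∩ O ⊆ V ∩ range χ ∩ (Y (k + 1) \ Y k) := fun y hy => by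
    have h3 : y ∈ range χ := by
      rw [hr]
      exact ⟨hVO hy, hy.2⟩
    exact ⟨⟨hy.1, h3⟩, hrS h3⟩
  have hee : e' ≤ e := by
    by_contra h4
    exact he' (he.mono_nat (by omega))
  refine ⟨V ∩ O, inter_mem_nhdsWithin V (hO.mem_nhds hxO),
    Q.vsw_congr hO hV (hY1.inter hV) ?_ inter_subset_right (c1.mono hW) (c2.mono hW ?_)⟩
  · ext y
    exact ⟨fun hy => ⟨⟨hVO hy, hy.1⟩, hy.2⟩, fun hy => ⟨hy.1.2, hy.2⟩⟩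
  · omega

theorem stratW (Q : FC X (Fin N → ℂ)) (Y : ℕ → Set (Fin N → ℂ)) (hY : ∀ k, ZC (Y k))
    (hd : ∀ k, Dim (Y k) k)
    (hg : ∀ k, ∃ 𝒢 : Set (Fin k → MvPolynomial (Fin N) ℂ), 𝒢.Finite ∧
      ∀ x ∈ Y (k + 1) \ Y k, ∃ G ∈ 𝒢, Chart (Y (k + 1)) G x) {D : ℕ}
    (hs : Q.Supp (Y D)) {a : ℤ} (hP : ∀ k, (Q.gam (Y (k + 1))).PC (Y (k + 1) \ Y k))
    (hD : ∀ k : ℕ, (Q.gam (Y (k + 1))).Deg (Y (k + 1) \ Y k) (a - k)) : GW Q a := by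
  intro V e hV hdV
  choose! δ hδ H using Q.vsw_key Y hY hd hg hs hP hD
  obtain ⟨V', hV', hdV', h⟩ := comp hV hdV δ hδ
  have key : ∀ x ∈ V \ V', ∃ W ∈ 𝓝[V] x, (Q.gam V).PC W ∧ (Q.gam V).Deg W (a - e) := by
    intro x hx
    obtain ⟨p, hp, hpV, -, hxp, h0, hev⟩ := h x hx
    exact H p hp x hxp h0 V hV.isClosed hpV hev e (hdV.mono hpV)
  refine ⟨V', hV', hdV', pc_local fun x hx => ?_, fun x hx => ?_⟩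
  · obtain ⟨W, hW, h1, -⟩ := key x hx
    exact ⟨W, nhdsWithin_mono x sdiff_subset hW, h1⟩
  · obtain ⟨W, hW, -, h2⟩ := key x hx
    exact h2 x (mem_of_mem_nhdsWithin hx.1 hW)

end FC

end Pool.Agent.PWV
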