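import Pool.Agent.P.MP_65ad7c_ag.VEmb
import Pool.Agent.P.MP_65ad7c_ag.VSh
import Pool.Agent.P.MP_65ad7c_ag.VLCn
import Pool.Agent.P.MP_65ad7c_ag.VAV
import Pool.Agent.P.MP_65ad7c_ag.VStratW

/-! The intersection complex satisfies the hypotheses of the vanishing theorems. -/

open Set Filter Topology TopologicalSpace
open Pool.Agent.PWD

noncomputable section
namespace Pool.Agent.PWV

variable {R : Type} [CommRing R] [Algebra ℂ R] {Y : Set (R → ℂ)} {N d : ℕ} {f : Fin N → R}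
  {U : ℕ → Opens Y} {I : PWD.Cx Y} {one : Sec I 0 (U 1)}

/-- The intersection complex on affine space. -/
abbrev icQ (f : Fin N → R) (hI : IsIC U I one) : FC (cxI I) (Fin N → ℂ) :=
  (fcI hI.inj).map (emb f)

/-- The closed strata in affine space. -/
abbrev icF (f : Fin N → R) (U : ℕ → Opens Y) (c : ℕ) : Set (Fin N → ℂ) := emb f '' (U c : Set Y)ᶜ

variable (hY : IsVar Y) (hf : Algebra.adjoin ℂ (range f) = ⊤) (hU : IsStrat d U)
  (hI : IsIC U I one)
include hY hf

theorem ic_emb : IsClosedEmbedding (emb (Y := Y) f) := hY.closedEmb hf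

theorem ic_diff (c : ℕ) :
    icF f U c \ icF f U (c + 1) = emb f '' ((U (c + 1) : Set Y) \ U c) := by
  rw [← image_sdiff (ic_emb hY hf).injective]
  congr 1
  ext y
  simp [and_comm]

theorem ic_gam_univ : (icQ f hI).gam (emb f '' (univ : Set Y)) = icQ f hI := by
  rw [image_univ]
  exact (q_supp hI.inj (ic_emb hY hf)).gam_eq (ic_emb hY hf).isClosed_range

theorem ic_pc (c : ℕ) : (icQ f hI).PC (icF f U c \ icF f U (c + 1)) := by
  rw [ic_diff hY hf, ← ic_gam_univ hY hf hI]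
  exact FC.pc_of_lcn (lcn_of_lc hI.inj (ic_emb hY hf) isClosed_univ fun n => (hI.lc c n).1)

theorem ic_degLe (c : ℕ) {b : ℤ} (h0 : 0 ≤ b) (hb : (c : ℤ) ≤ b + 1) :
    (icQ f hI).DegLe (icF f U c \ icF f U (c + 1)) b := by
  rw [ic_diff hY hf, ← ic_gam_univ hY hf hI]
  rintro _ ⟨y, hy, rfl⟩ j hj
  exact ex_pt hI.inj (ic_emb hY hf) isClosed_univ fun _ W s hs hW =>
    hI.supp c _ W s (by omega) (by omega) hs y hW hy.1

theorem ic_gam_pc (c : ℕ) : ((icQ f hI).gam (icF f U c)).PC (icF f U c \ icF f U (c + 1)) := by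
  rw [ic_diff hY hf]
  exact FC.pc_of_lcn (lcn_of_lc hI.inj (ic_emb hY hf) (U c).2.isClosed_compl
    fun n => (hI.lc c n).2)

theorem ic_gam_deg {c : ℕ} (hc : 0 < c) :
    ((icQ f hI).gam (icF f U c)).Deg (icF f U c \ icF f U (c + 1)) (c + 1) := by
  rw [ic_diff hY hf]
  rintro _ ⟨y, hy, rfl⟩ j hj
  exact ex_pt hI.inj (ic_emb hY hf) (U c).2.isClosed_compl fun _ W s hs hW =>
    hI.cosupp c _ W s hc (by omega) hs y hW hy.1

include hU

theorem ic_zc (c : ℕ) : ZC (icF f U c) := zc_image hY hf (hU.alg c)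

theorem ic_gw : GW ((icQ f hI).gam (icF f U 1)) (d + 1) := by
  have hz := ic_zc hY hf hU
  have key : ∀ k : ℕ, (∃ c, 0 < c ∧ d = k + c) ∨ d ≤ k := fun k => by
    rcases Nat.lt_or_ge k d with h | h
    exacts [Or.inl ⟨d - k, by omega, by omega⟩, Or.inr h]
  have hsub : ∀ c, 0 < c → icF f U 1 ∩ icF f U c = icF f U c := fun c hc =>
    inter_eq_right.2 (image_mono (compl_subset_compl.2 (hU.mono hc)))
  have hoff : ∀ k, d ≤ k → icF f U (d + 1 - (k + 1)) \ icF f U (d + 1 - k) ⊆ (icF f U 1)ᶜ :=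
    fun k hk x hx h1 => hx.2 (image_mono (compl_subset_compl.2 (hU.mono (by omega))) h1)
  have hs := FC.supp_gam (icQ f hI) (hz 1).isClosed
  refine FC.stratW _ (fun k => icF f U (d + 1 - k)) (fun k => hz _)
    (fun k => (dim_image hY (hU.dim _)).mono_nat (by omega)) (fun k => ?_) (D := d)
    (by simpa using hs) (fun k => ?_) (fun k => ?_)
  · rcases Nat.lt_or_ge d k with h | h
    · refine ⟨∅, finite_empty, fun x hx => (hx.2 ?_).elim⟩
      have := hx.1
      rwa [show d + 1 - (k + 1) = d + 1 - k by omega] at this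
    · obtain ⟨𝒢, h1, h2⟩ := strat_chart hY hf hU (c := d - k) (k := k) (by omega)
      refine ⟨𝒢, h1, ?_⟩
      rw [show d + 1 - (k + 1) = d - k by omega, show d + 1 - k = d - k + 1 by omega,
        ic_diff hY hf]
      rintro _ ⟨y, hy, rfl⟩
      exact h2 y hy
  · rcases key k with ⟨c, hc, rfl⟩ | h
    · rw [show k + c + 1 - (k + 1) = c by omega, show k + c + 1 - k = c + 1 by omega,
        FC.gam_gam _ (hz 1).isClosed (hz c).isClosed, hsub c hc]
      exact ic_gam_pc hY hf hI c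
    · exact (hs.gam _).pc_off.mono (hoff k h)
  · rcases key k with ⟨c, hc, rfl⟩ | h
    · rw [show k + c + 1 - (k + 1) = c by omega, show k + c + 1 - k = c + 1 by omega,
        FC.gam_gam _ (hz 1).isClosed (hz c).isClosed, hsub c hc]
      exact (ic_gam_deg hY hf hI hc).mono subset_rfl (by push_cast; omega)
    · exact ((hs.gam _).deg_off _).1.mono (hoff k h) le_rfl

theorem ic_av {H : Set Y} (hH : ∃ T : Set R, ∀ y, y ∈ H ↔ ∀ g ∈ T, y.1 g = 0) {m : ℕ}
    (hd : ∀ e, DimLT ((U e : Set Y)ᶜ ∩ H) (m - e)) {j : ℤ} (hj : (m : ℤ) ≤ j + 1) :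
    (icQ f hI).Ex j (emb f '' H) ∅ := by
  refine FC.av_strat _ (icF f U) (ic_zc hY hf hU) (ic_pc hY hf hI) (zc_image hY hf hH)
    (image_mono fun y _ => by simp [hU.zero]) (m := m) (a := m - 1) (fun c => ?_) (fun c => ?_)
    (by omega)
  · rw [← image_inter (ic_emb hY hf).injective]
    exact dim_image hY (hd c)
  · exact (ic_degLe hY hf hI c (by omega) (by omega)).mono inter_subset_left le_rfl

theorem ic_av' {H : Set Y} (hH : ∃ T : Set R, ∀ y, y ∈ H ↔ ∀ g ∈ T, y.1 g = 0) {m : ℕ}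
    (hd : ∀ e, DimLT ((U e : Set Y)ᶜ ∩ H) (m - e)) {j : ℤ} (hj : (m : ℤ) ≤ j + 2) :
    (icQ f hI).Ex j (emb f '' (H \ U 1)) ∅ := by
  have he : emb f '' (H \ U 1) = emb f '' H ∩ icF f U 1 :=
    image_inter (ic_emb hY hf).injective
  rw [he]
  refine FC.av_strat _ (icF f U) (ic_zc hY hf hU) (ic_pc hY hf hI)
    ((zc_image hY hf hH).inter (ic_zc hY hf hU 1))
    (inter_subset_left.trans (image_mono fun y _ => by simp [hU.zero])) (m := m) (a := m - 2)
    (fun c => ?_) (fun c => ?_) (by omega)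
  · refine (dim_image (f := f) hY (hd c)).mono ?_
    rw [image_inter (ic_emb hY hf).injective]
    exact inter_subset_inter_right _ inter_subset_left
  · cases c with
    | zero => exact fun x hx => (hx.1.2 hx.2.2).elim
    | succ c =>
      exact (ic_degLe hY hf hI (c + 1) (by omega) (by omega)).mono inter_subset_left le_rfl

end Pool.Agent.PWV
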