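import Pool.Agent.P.MP_65ad7c_ag.VStepW
import Pool.Agent.P.MP_65ad7c_ag.VPre
import Pool.Agent.P.MP_65ad7c_ag.VRad

open Set Filter Topology Metric

noncomputable section
namespace Pool.Agent.PWV

variable {X : Cx}

namespace FC

theorem vcs_ne {N : ℕ} {g : MvPolynomial (Fin N) ℂ} (hg : g ≠ 0) :
    ∃ x, MvPolynomial.eval x g ≠ 0 := by
  by_contra h
  push Not at h
  exact hg (MvPolynomial.funext fun x => by rw [h x, map_zero])

theorem vcs_zero (Q : FC X (Fin 0 → ℂ)) (a : ℤ) (h : GW Q a) (j : ℤ) (hj : j + 1 < a) : Q.CS j := by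
  obtain ⟨g, hg, -, hd⟩ := topW Q h
  obtain ⟨x, hx⟩ := vcs_ne hg
  have h1 := hd x hx j (by simpa using hj)
  have hu : ({x} : Set (Fin 0 → ℂ)) = univ := eq_univ_of_forall fun y => Subsingleton.elim y x
  rw [hu] at h1
  refine cs_iff.2 fun K _ v hv hdv => ⟨univ, ?_, ?_⟩
  · rw [← hu]; exact isCompact_singleton
  · rw [compl_univ]
    exact h1 v (ZT_anti (empty_subset _) _ hv) hdv

/-- Artin vanishing with compact supports. -/
theorem cs (n : ℕ) : ∀ (Q : FC X (Fin n → ℂ)) (a : ℤ), GW Q a → ∀ j : ℤ, j + 1 < a → Q.CS j := by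
  induction n with
  | zero => exact vcs_zero
  | succ n ih =>
    intro Q a h j hj
    obtain ⟨g, hg, hp, hd⟩ := topW Q h
    obtain ⟨k, hk, hk'⟩ := monic_dir hg
    obtain ⟨v, hv⟩ := vcs_ne hk
    obtain ⟨G, hG, hgG⟩ := hk' v hv
    obtain ⟨R, hR, h0, hb⟩ := rootb hG
    have hs := isHomeomorph_sc v hR h0
    have tr := tr_comap Q hs.isInducing
    have him : sc v R '' (Rt G R)ᶜ ⊆ {x | MvPolynomial.eval x g = 0}ᶜ := by
      rintro _ ⟨p, hp, rfl⟩ e
      exact hp ((hgG p.1 _).1 e)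
    have p0 : (Q.comap _ hs.isInducing).PC (Rt G R)ᶜ := (tr.pc hs.isEmbedding _).2 (hp.mono him)
    have d0 : (Q.comap _ hs.isInducing).Deg (Rt G R)ᶜ (a - (n + 1)) :=
      (tr.deg _ _).2 (hd.mono him (by push_cast; exact le_rfl))
    have hW := stepW hG hR h0 hb _ p0 d0 (preW Q h hG hgG hs)
    have hF : IsClosed ((univ : Set (Fin n → ℂ)) ×ˢ Db) := isClosed_univ.prod isClosed_closedBall
    refine (cs_comap hs).1 (cs_tri hF ((cs_map_fst (supp_gam _ hF)).1 (ih _ a hW j hj))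
      (radc _ (p0.mono (compl_subset_compl.2 fun p hp => ⟨trivial, ?_⟩)) j))
    have h1 := hb p.1 _ hp
    rw [norm_mul, Complex.norm_real, Real.norm_eq_abs, abs_of_pos (h0 p.1)] at h1
    exact mem_closedBall_zero_iff.2 ((mul_lt_iff_lt_one_right (h0 p.1)).1 h1).le

end FC

end Pool.Agent.PWV
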