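import Pool.Agent.P.MP_65ad7c_ag.VKap
import Pool.Agent.P.MP_65ad7c_ag.VCS

open Set Filter Topology Metric

noncomputable section
namespace Pool.Agent.PWV

variable {X : Cx} {N : ℕ}

namespace FC

theorem vwlp_push (Q : FC X (Fin N → ℂ)) {M : ℕ} (f : Fin M → MvPolynomial (Fin N) ℂ)
    (h : MvPolynomial (Fin N) ℂ) {A : Set (Fin M → ℂ)} (hA : IsOpen A) :
    (Q.pushR f h).ZT A = Q.ZT {x | MvPolynomial.eval x h ≠ 0 ∧ ratm f h x ∈ A} := by
  unfold pushR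
  rw [map_ZT_open _ _ hA, comap_ZT]
  congr 1
  ext x
  constructor
  · rintro ⟨y, hy, rfl⟩
    exact ⟨y.2, hy⟩
  · rintro ⟨h1, h2⟩
    exact ⟨⟨x, h1⟩, h2, rfl⟩

theorem vwlp_mono (c : Fin (N + 1) → ℂ) : Monotone fun k : ℕ => Far c (1 / ((k : ℝ) + 1)) :=
  fun k l hkl => Far_anti c (one_div_le_one_div_of_le (by positivity)
    (by have : (k : ℝ) ≤ l := by exact_mod_cast hkl
        linarith))

theorem vwlp_cut {T : Type} [TopologicalSpace T] (Q : FC X T) {n : ℤ} {O O' : Set T}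
    (hO : IsOpen O) (hO' : IsOpen O') {w : X.V n} (hw : w ∈ Q.ZT (O ∩ O') n) :
    ∃ u ∈ Q.ZT O' n, ∀ x ∈ O, u - w ∈ Q.z n x := by
  obtain ⟨h1, h2⟩ := mem_ZT.1 hw
  obtain ⟨u, hu, hu'⟩ := Q.glue n Bool (fun i => cond i O O') (fun i => cond i w 0)
    (fun i => by cases i <;> assumption) (fun i => by cases i; exacts [zero_mem _, h1]) (by
      rintro (_ | _) (_ | _) x hx
      · simp
      · simpa using h2 x ⟨hx.2, hx.1⟩
      · simpa using h2 x hx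
      · simp)
  exact ⟨u, mem_ZT.2 ⟨hu, fun x hx => by simpa using hu' false x hx⟩, hu' true⟩

theorem wlp_all (Q : FC X (Fin N → ℂ)) {b : ℤ} (hQ : GW Q b) {a : ℕ}
    (c : Fin (a + 1) → Fin (N + 1) → ℂ) {j : ℤ} (hj : j + 1 < b) :
    X.ExS j (Q.ZT univ) (Q.Cf fun k => ⋂ i, Far (c i) (1 / ((k : ℝ) + 1))) := by
  obtain ⟨M, f, h, g, t, W, hW, h1, h2, hF⟩ := exists_kappa c
  have hcs := cs_iff.1 (cs M _ b (gwt Q hQ f h g t hW h1 h2) j hj)
  have hm : Monotone fun k : ℕ => ⋂ i, Far (c i) (1 / ((k : ℝ) + 1)) :=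
    fun k l hkl => iInter_mono fun i => vwlp_mono (c i) hkl
  have hΦ : ∀ (k : ℕ) x, x ∈ ⋂ i, Far (c i) (1 / ((k : ℝ) + 1)) ↔
      MvPolynomial.eval x h ≠ 0 ∧ ratm f h x ∈ closedBall 0 ((k : ℝ) + 1) := by
    intro k x
    rw [hF _ (by positivity), one_div, inv_inv, mem_closedBall_zero_iff]
  intro v hv hd
  obtain ⟨k, hk⟩ := (mem_Cf hm).1 hv
  obtain ⟨K, hK, w, hw, hvw⟩ := hcs (closedBall 0 ((k : ℝ) + 1)) (isCompact_closedBall _ _) v
    (by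
      rw [vwlp_push _ _ _ isClosed_closedBall.isOpen_compl]
      exact ZT_anti (fun x hx hx' => hx.2 ((hΦ k x).1 hx').2) _ hk)
    (by
      rw [vwlp_push _ _ _ isOpen_univ]
      exact ZT_anti (subset_univ _) _ hd)
  rw [vwlp_push _ _ _ hK.isClosed.isOpen_compl] at hw
  rw [vwlp_push _ _ _ isOpen_univ] at hvw
  obtain ⟨r, hr⟩ := hK.isBounded.subset_closedBall 0
  obtain ⟨l, hl⟩ := exists_nat_ge r
  have hO : IsOpen {x : Fin N → ℂ | MvPolynomial.eval x h ≠ 0} :=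
    isOpen_ne_fun (MvPolynomial.continuous_eval h) continuous_const
  have hO' : IsOpen (⋂ i, Far (c i) (1 / ((l : ℝ) + 1)))ᶜ :=
    (isClosed_iInter fun i => isClosed_Far _ _).isOpen_compl
  obtain ⟨u, hu, hu'⟩ := vwlp_cut Q hO hO' (w := w) (by
    refine ZT_anti ?_ _ hw
    exact fun x hx => ⟨hx.1, fun hx' =>
      hx.2 ((hΦ l x).2 ⟨hx.1, closedBall_subset_closedBall (by linarith) (hr hx')⟩)⟩)
  refine ⟨u, (mem_Cf hm).2 ⟨l, hu⟩, mem_ZT.2 ⟨sub_mem (mem_ZT.1 hk).1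
    (Q.d_top _ _ (mem_ZT.1 hu).1), fun x _ => ?_⟩⟩
  by_cases hx : MvPolynomial.eval x h = 0
  · exact sub_mem ((mem_ZT.1 hk).2 x fun hx' => ((hΦ k x).1 hx').1 hx)
      (Q.d_z x _ _ ((mem_ZT.1 hu).2 x fun hx' => ((hΦ l x).1 hx').1 hx))
  · have := sub_mem ((mem_ZT.1 hvw).2 x ⟨hx, trivial⟩) (Q.d_z x _ _ (hu' x hx))
    have e : v - X.d j u = v - X.d j w - X.d j (u - w) := by rw [map_sub]; abel
    rwa [e]

/-- Weak Lefschetz for projective germs. -/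
theorem wlpF (Q : FC X (Fin N → ℂ)) {b : ℤ} (hQ : GW Q b) {a : ℕ} (c : Fin a → Fin (N + 1) → ℂ)
    {j : ℤ} (hj : j + 1 + a ≤ b) {ε : ℝ} (hε : 0 < ε) {v : X.V (j + 1)}
    (hv : v ∈ Q.ZT (⋃ i, Far (c i) ε)ᶜ (j + 1)) (hd : X.d (j + 1) v ∈ Q.ZT univ (j + 1 + 1)) :
    ∃ ε' > 0, Q.Good j v univ (⋃ i, Far (c i) ε')ᶜ := by
  have h := mv_fam (Q := Q) (fun i (k : ℕ) => Far (c i) (1 / ((k : ℝ) + 1)))
    (fun i k => isClosed_Far _ _) (fun i => vwlp_mono (c i)) (b := b) (fun J hJ j hj => by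
      obtain ⟨m, hm⟩ : ∃ m, J.card = m + 1 := ⟨J.card - 1, by have := hJ.card_pos; omega⟩
      have e : (fun k : ℕ => ⋂ i ∈ J, Far (c i) (1 / ((k : ℝ) + 1))) =
          fun k : ℕ => ⋂ i, Far (c (J.orderEmbOfFin hm i)) (1 / ((k : ℝ) + 1)) := by
        funext k
        ext x
        simp only [mem_iInter]
        refine ⟨fun h i => h _ (J.orderEmbOfFin_mem hm i), fun h i hi => ?_⟩
        have : i ∈ range (J.orderEmbOfFin hm) := by rw [J.range_orderEmbOfFin]; exact hi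
        obtain ⟨i', rfl⟩ := this
        exact h i'
      rw [e]
      exact wlp_all Q hQ (fun i => c (J.orderEmbOfFin hm i)) hj) Finset.univ j (by simpa using hj)
  simp only [Finset.mem_univ, iUnion_true] at h
  have hm : Monotone fun k : ℕ => ⋃ i, Far (c i) (1 / ((k : ℝ) + 1)) :=
    fun k l hkl => iUnion_mono fun i => vwlp_mono (c i) hkl
  obtain ⟨k, hk⟩ := exists_nat_one_div_lt hε
  obtain ⟨w, hw, hvw⟩ := h v ((mem_Cf hm).2 ⟨k, ZT_anti (compl_subset_compl.2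
    (iUnion_mono fun i => Far_anti (c i) hk.le)) _ hv⟩) hd
  obtain ⟨l, hl⟩ := (mem_Cf hm).1 hw
  exact ⟨1 / ((l : ℝ) + 1), by positivity, w, hl, hvw⟩

end FC

end Pool.Agent.PWV
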