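import Pool.Agent.P.MP_65ad7c_ag.DVar
import Pool.Agent.P.MP_65ad7c_ag.VIC
import Pool.Agent.P.MP_65ad7c_ag.VWLP

/-! Block V (vanishing theorems). -/

open Set TopologicalSpace

noncomputable section
namespace Pool.Agent.PWD

variable {R : Type} [CommRing R] [Algebra ℂ R] {Y : Set (R → ℂ)}

/-- homogeneous coordinates -/
def vecf {N : ℕ} (f : Fin N → R) (y : Y) : Fin (N + 1) → ℂ := Fin.cons 1 fun j => y.1 (f j)

omit [CommRing R] [Algebra ℂ R] in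
theorem Data.vec_eq {a : ℕ} (Q : Data Y a) (y : Y) : Q.vec y = vecf Q.f y := rfl

/-- projective neighbourhood of a linear section -/
def PN {N a : ℕ} (f : Fin N → R) (c : Fin a → Fin (N + 1) → ℂ) (ε : ℝ) : Set Y :=
  {y | ∀ i, ‖c i ⬝ᵥ vecf f y‖ < ε * ‖vecf f y‖}

variable {N d : ℕ} {f : Fin N → R} {U : ℕ → Opens Y} {I : Cx Y} {one : Sec I 0 (U 1)}

open PWV

omit [CommRing R] [Algebra ℂ R] in
theorem dv_far {a : ℕ} (c : Fin a → Fin (N + 1) → ℂ) (ε : ℝ) (y : Y) :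
    emb f y ∈ (⋃ i, Far (c i) ε)ᶜ ↔ y ∈ PN f c ε := by
  simp only [mem_compl_iff, mem_iUnion, not_exists, Far, mem_ofPred_eq, not_le]
  rfl

theorem dv_nat (j : ℕ) : ∃ n : ℤ, 0 ≤ n + 1 ∧ j = (n + 1).toNat := ⟨j - 1, by omega, by omega⟩

omit [CommRing R] [Algebra ℂ R] in
theorem dv_closed {n : ℤ} (hn : 0 ≤ n + 1) {O : Opens Y} {v : Sec I (n + 1).toNat ⊤}
    (h : dd (n + 1).toNat ((n + 1).toNat + 1) (rs (le_top : O ≤ ⊤) v) = 0) {y : Y} (hy : y ∈ O) :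
    (cxI I).d (n + 1) v ∈ zI I (n + 1 + 1).toNat y := by
  rw [dd_cast (k' := (n + 1 + 1).toNat) (by omega), ← vf_rs_dd] at h
  exact ⟨O, hy, h⟩

/-- from germs along a subset to sections over an open neighbourhood -/
theorem dv_near (hY : IsVar Y) (hf : Algebra.adjoin ℂ (range f) = ⊤) (hI : IsIC U I one)
    {A B : Set Y} {j : ℕ} (h : (icQ f hI).Ex (j - 1) (emb f '' A) (emb f '' B)) {O : Opens Y}
    (hO : A ⊆ O) (hB : B ⊆ A) {s : Sec I j O} (hs : Coc Bᶜ s) :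
    ∃ (O' : Opens Y) (h : O' ≤ O) (k : ℕ) (t : Sec I k O'), A ⊆ O' ∧ Supp Bᶜ t ∧
      dd k j t = rs h s := by
  obtain ⟨n, hn, rfl⟩ := dv_nat j
  rw [show (((n + 1).toNat : ℕ) : ℤ) - 1 = n by omega] at h
  have he := ic_emb hY hf
  obtain ⟨v, rfl⟩ := vf_flabby (hI.inj _) s
  obtain ⟨w, hw, hd⟩ := h v
    ((q_ZT hI.inj he hn).2 fun y hy => supp_rs.1 hs.1 y (hO (hB (he.injective.mem_set_image.1 hy)))
      (not_not.2 (he.injective.mem_set_image.1 hy)))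
    ((q_ZT hI.inj he (by omega)).2 fun y hy =>
      dv_closed hn hs.2 (hO (he.injective.mem_set_image.1 hy)))
  let O₁ : Opens Y := ⟨_, (fcI hI.inj).opn (n + 1) (v - (cxI I).d n w)⟩
  refine ⟨O ⊓ O₁, inf_le_left, n.toNat, rs le_top w,
    fun y hy => ⟨hO hy, (q_Z hI.inj he).1 hd.2 y ⟨y, hy, rfl⟩⟩,
    supp_rs.2 fun y _ hy => (q_Z hI.inj he).1 hw.2 y ⟨y, not_not.1 hy, rfl⟩, ?_⟩
  rw [vf_rs_rs, ← vf_rs_dd, eq_comm, ← sub_eq_zero, ← map_sub]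
  exact rs_eq_zero fun y hy => hy.2

/-- WLP: weak Lefschetz for projective germs of an arbitrary linear section -/
theorem wlp (hY : IsVar Y) (hf : Algebra.adjoin ℂ (range f) = ⊤) (hU : IsStrat d U)
    (hI : IsIC U I one) {a j : ℕ} (c : Fin a → Fin (N + 1) → ℂ) (hj : j + a ≤ d + 1) {ε : ℝ}
    (hε : 0 < ε) {s : Sec I j ⊤} (hs : Coc ((U 1 : Set Y)ᶜ ∩ (PN f c ε)ᶜ) s) :
    ∃ ε' > 0, ∃ (k : ℕ) (t : Sec I k ⊤), Supp ((U 1 : Set Y)ᶜ ∩ (PN f c ε')ᶜ) t ∧ dd k j t = s := by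
  obtain ⟨n, hn, rfl⟩ := dv_nat j
  have he := ic_emb hY hf
  have hC : IsClosed (U 1 : Set Y)ᶜ := (U 1).2.isClosed_compl
  have h1 := supp_top.1 hs.1
  have h2 : ∀ y, (cxI I).d (n + 1) s ∈ zI I (n + 1 + 1).toNat y := fun y =>
    dv_closed (O := ⊤) hn (by rw [vf_rs_self]; exact hs.2) trivial
  obtain ⟨ε', hε', w, hw, hd⟩ := FC.wlpF _ (ic_gw hY hf hU hI) c (j := n) (by omega) hε (v := s)
    ((qg_ZT hI.inj he hC hn).2 ⟨fun y hy => h1 y fun h => hy h.1,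
      fun y hy => h1 y fun h => h.2 ((dv_far c ε y).1 hy)⟩)
    ((qg_ZT hI.inj he hC (by omega)).2 ⟨fun y _ => h2 y, fun y _ => h2 y⟩)
  refine ⟨ε', hε', n.toNat, w, supp_top.2 fun y hy => (qz_emb hI.inj he).1 ?_, ?_⟩
  · by_cases h : y ∈ (U 1 : Set Y)ᶜ
    · exact (FC.mem_ZT.1 hw).2 _ ((dv_far c ε' y).2 (not_not.1 fun h' => hy ⟨h, h'⟩))
    · exact FC.supp_gam _ (he.isClosedMap _ hC) n w hw.1 _ (he.injective.mem_set_image.not.2 h)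
  · have := rs_eq_zero (W := ⊤) fun y _ => ((qg_ZT hI.inj he hC hn).1 hd).2 y trivial
    rw [vf_rs_self, sub_eq_zero] at this
    exact this.symm

/-- AV1: `H^j(H, H ∩ Σ) = 0` for `j ≥ m`, germs along an algebraic subset of dimension `< m` -/
theorem av1 (hY : IsVar Y) (hf : Algebra.adjoin ℂ (range f) = ⊤) (hU : IsStrat d U)
    (hI : IsIC U I one) {H : Set Y} (hH : ∃ T : Set R, ∀ y, y ∈ H ↔ ∀ g ∈ T, y.1 g = 0) {m j : ℕ}
    (hd : ∀ e, DimLT ((U e : Set Y)ᶜ ∩ H) (m - e)) (hj : m ≤ j) {O : Opens Y} (hO : H ⊆ O)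
    {s : Sec I j O} (hs : Coc (H \ U 1)ᶜ s) :
    ∃ (O' : Opens Y) (h : O' ≤ O) (k : ℕ) (t : Sec I k O'), H ⊆ O' ∧ Supp (H \ U 1)ᶜ t ∧
      dd k j t = rs h s := by
  refine dv_near hY hf hI ?_ hO sdiff_subset hs
  rw [show (j : ℤ) - 1 = j - 2 + 1 by ring]
  exact FC.Ex.left (image_mono sdiff_subset) (empty_subset _) (ic_av hY hf hU hI hH hd (by omega))
    (ic_av' hY hf hU hI hH hd (by omega))

/-- AV2: `H^j(H ∩ Σ, I) = 0` for `j ≥ m - 1` -/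
theorem av2 (hY : IsVar Y) (hf : Algebra.adjoin ℂ (range f) = ⊤) (hU : IsStrat d U)
    (hI : IsIC U I one) {H : Set Y} (hH : ∃ T : Set R, ∀ y, y ∈ H ↔ ∀ g ∈ T, y.1 g = 0) {m j : ℕ}
    (hd : ∀ e, DimLT ((U e : Set Y)ᶜ ∩ H) (m - e)) (hj : m ≤ j + 1) {O : Opens Y}
    (hO : H \ U 1 ⊆ O) {s : Sec I j O} (hs : dd j (j + 1) s = 0) :
    ∃ (O' : Opens Y) (h : O' ≤ O) (k : ℕ) (t : Sec I k O'), H \ U 1 ⊆ O' ∧ dd k j t = rs h s := by
  obtain ⟨O', h, k, t, h1, -, h2⟩ := dv_near (B := ∅) hY hf hI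
    (by rw [image_empty]; exact ic_av' hY hf hU hI hH hd (by omega)) hO (empty_subset _)
    ⟨fun y _ hy => (hy (by simp)).elim, hs⟩
  exact ⟨O', h, k, t, h1, h2⟩

/-- AV3: `IH^j(Y) = 0` for `j > d` -/
theorem av3 (hY : IsVar Y) (hf : Algebra.adjoin ℂ (range f) = ⊤) (hU : IsStrat d U)
    (hI : IsIC U I one) {j : ℕ} (hj : d < j) {s : Sec I j ⊤} (hs : dd j (j + 1) s = 0) :
    ∃ (k : ℕ) (t : Sec I k ⊤), dd k j t = s := by
  obtain ⟨O', h, k, t, h1, -, h2⟩ := dv_near (A := univ) (B := ∅) (O := ⊤) hY hf hI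
    (by
      rw [image_empty]
      exact ic_av (m := d + 1) hY hf hU hI ⟨∅, by simp⟩
        (fun e => by rw [inter_univ]; exact hU.dim e) (by push_cast; omega))
    subset_rfl (empty_subset _) ⟨fun y _ hy => (hy (by simp)).elim, hs⟩
  obtain rfl : O' = ⊤ := top_le_iff.1 h1
  exact ⟨k, t, h2.trans (vf_rs_self s)⟩

end Pool.Agent.PWD
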