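import Pool.Agent.P.MP_65ad7c_ag.DTI
import Pool.Agent.P.MP_65ad7c_ag.DS0

/-! An abstract de Rham complex extended by zero, with its map to `I`. -/

open Set TopologicalSpace

noncomputable section
namespace Pool.Agent.PWD

variable {Y : Type} [TopologicalSpace Y] {U : ℕ → Opens Y} {I : Cx Y}

/-- a soft resolution of the constant sheaf on `U 1`, extended by zero, with a map to `I` -/
structure DR (one : Sec I 0 (U 1)) where
  A : ℕ → PSh ℂ Y
  d : ∀ n, Hom (A n) (A (n + 1))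
  e : (A 0).obj (U 1)
  u : ∀ n W, (A n).obj W →ₗ[ℂ] Sec I n W
  d_d : ∀ n W x, (d (n + 1)).app W ((d n).app W x) = 0
  sh : ∀ n, (A n).IsSh
  soft : ∀ n, (⊤ : Sub (A n)).Soft
  zero : ∀ n W (x : (A n).obj W), ∀ y ∈ W, y ∉ U 1 → (⊥ : Sub (A n)).Near x y
  de : (d 0).app _ e = 0
  poin0 : ∀ (W : Opens Y) (h : W ≤ U 1) (x : (A 0).obj W), (d 0).app W x = 0 → ∀ y ∈ W,
    ∃ c : ℂ, (⊥ : Sub (A 0)).Near (x - c • (A 0).res h e) y
  poin : ∀ n (W : Opens Y) (x : (A (n + 1)).obj W), (d (n + 1)).app W x = 0 → ∀ y ∈ W,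
    (Sub.map (d n) ⊤).Near x y
  u_res : ∀ n (W W' : Opens Y) (h : W' ≤ W) x, rs h (u n W x) = u n W' ((A n).res h x)
  u_d : ∀ n W x, dd n (n + 1) (u n W x) = u (n + 1) W ((d n).app W x)
  u_e : u 0 _ e = one

namespace DR
variable {one : Sec I 0 (U 1)} (C : DR one) {n : ℕ} {W : Opens Y}

/-- `x` vanishes near the points of `B` -/
def Van (B : Set Y) (x : (C.A n).obj W) : Prop := ∀ y ∈ W, y ∈ B → (⊥ : Sub (C.A n)).Near x y

/-- `x` is the differential of a section that vanishes near `B` -/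
def Ex (B : Set Y) : {n : ℕ} → (C.A n).obj W → Prop
  | 0, x => x = 0
  | n + 1, x => ∃ z, C.Van B z ∧ (C.d n).app W z = x

/-- `u x` is cohomologous to `α` near `Z` -/
def Rel (Z : Set Y) (x : (C.A n).obj W) (α : Sec I n ⊤) : Prop :=
  ∃ (O : Opens Y) (h : O ≤ W) (k : ℕ) (t : Sec I k O), Z ⊆ O ∧
    rs le_top α - C.u n O ((C.A n).res h x) = dd k n t

/-- a chain map `A → s_* A` that fixes the unit -/
structure IsSig (s : C(Y, Y)) (σ : ∀ n W, (C.A n).obj W →ₗ[ℂ] (C.A n).obj (Opens.comap s W)) :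
    Prop where
  res : ∀ n (W W' : Opens Y) (h : W' ≤ W) x,
    (C.A n).res (Opens.comap_mono s h) (σ n W x) = σ n W' ((C.A n).res h x)
  d : ∀ n W x, (C.d n).app _ (σ n W x) = σ (n + 1) W ((C.d n).app W x)
  e : ∀ h : Opens.comap s (U 1) ≤ U 1, σ 0 _ C.e = (C.A 0).res h C.e

end DR

end Pool.Agent.PWD
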