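import Pool.Agent.P.MP_65ad7c_ag.DIb
import Pool.Agent.P.MP_65ad7c_ag.DY0

/-! The presheaf of forms on the model that vanish near the exceptional divisor. -/

open Set Filter Topology TopologicalSpace
open scoped ContDiff
open Pool.Agent.HT

noncomputable section
namespace Pool.Agent.PWD

variable {R : Type} {Y : Set (R → ℂ)} {a n : ℕ} {Q : Data Y a}

namespace Data
section adm
variable {W W' : Set Y} {η η' : Form (Amb Q.M) n}

theorem adm_iff : Q.Adm W η ↔ Sm (Q.pre W) η ∧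
    ∀ x ∈ Q.pre W, x ∈ ⋃ i ∈ Q.be, Q.D i → ∃ G ∈ 𝓝 x, Van (Q.pre W ∩ G) η := by
  refine and_congr_right fun _ => ⟨fun ⟨O, hO, h1, h2⟩ x hx hE => ⟨O, hO.mem_nhds (h1 ⟨hx, hE⟩), h2⟩,
    fun h => ⟨interior {x | ∃ G ∈ 𝓝 x, Van (Q.pre W ∩ G) η}, isOpen_interior, fun x hx => ?_,
      Van.loc fun x hx => ?_⟩⟩
  · obtain ⟨G, hG, h1⟩ := h x hx.1 hx.2
    exact mem_interior_iff_mem_nhds.2 (mem_of_superset (eventually_mem_nhds_iff.2 hG)
      fun y hy => ⟨G, hy, h1⟩)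
  · obtain ⟨G, hG, h1⟩ := interior_subset hx.2
    exact ⟨G, hG, h1.anti fun y hy => ⟨hy.1.1, hy.2⟩⟩

theorem Adm.sm (h : Q.Adm W η) : Sm (Q.pre W) η := h.1

theorem Adm.near (h : Q.Adm W η) {x : Amb Q.M} (hx : x ∈ Q.pre W) (hE : x ∈ ⋃ i ∈ Q.be, Q.D i) :
    ∃ G ∈ 𝓝 x, Van (Q.pre W ∩ G) η := (adm_iff.1 h).2 x hx hE

theorem Adm.anti (h : Q.Adm W η) (hW : W' ⊆ W) : Q.Adm W' η :=
  adm_iff.2 ⟨h.1.anti (pre_mono hW), fun _ hx hE => (h.near (pre_mono hW hx) hE).imp fun _ hG =>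
    ⟨hG.1, hG.2.anti (inter_subset_inter_left _ (pre_mono hW))⟩⟩

theorem Adm.of_van (hs : Sm (Q.pre W) η) (h : Van (Q.pre W) η) : Q.Adm W η :=
  ⟨hs, univ, isOpen_univ, subset_univ _, h.anti inter_subset_left⟩

theorem Adm.zero : Q.Adm W (0 : Form (Amb Q.M) n) := .of_van .zero .zero

theorem Adm.add (h : Q.Adm W η) (h' : Q.Adm W η') : Q.Adm W (η + η') := by
  obtain ⟨h1, O, hO, h2, h3⟩ := h
  obtain ⟨k1, O', hO', k2, k3⟩ := h'
  exact ⟨h1.add k1, O ∩ O', hO.inter hO', subset_inter h2 k2,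
    (h3.anti (inter_subset_inter_right _ inter_subset_left)).add
      (k3.anti (inter_subset_inter_right _ inter_subset_right))⟩

theorem Adm.smul (c : ℂ) (h : Q.Adm W η) : Q.Adm W (c • η) :=
  ⟨h.1.smul c, h.2.imp fun _ hO => ⟨hO.1, hO.2.1, hO.2.2.smul c⟩⟩

theorem Adm.neg (h : Q.Adm W η) : Q.Adm W (-η) :=
  ⟨h.1.neg, h.2.imp fun _ hO => ⟨hO.1, hO.2.1, hO.2.2.neg⟩⟩

theorem Adm.sub (h : Q.Adm W η) (h' : Q.Adm W η') : Q.Adm W (η - η') := by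
  rw [sub_eq_add_neg]; exact h.add h'.neg

theorem Adm.fsmul (h : Q.Adm W η) {χ : Amb Q.M → ℝ} (hχ : ContDiff ℝ ∞ χ) :
    Q.Adm W fun x => χ x • η x :=
  ⟨h.1.fsmul hχ, h.2.imp fun _ hO => ⟨hO.1, hO.2.1, hO.2.2.fsmul χ⟩⟩

theorem Adm.d (h : Q.Adm W η) : Q.Adm W (extDeriv η) :=
  ⟨h.1.d, h.2.imp fun _ hO => ⟨hO.1, hO.2.1, hO.2.2.d (h.1.anti inter_subset_left)⟩⟩

theorem Adm.of_sub (h : Q.Adm W η) (hs : Sm (Q.pre W) η') (e : Van (Q.pre W) (η' - η)) :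
    Q.Adm W η' :=
  ⟨hs, h.2.imp fun _ hO => ⟨hO.1, hO.2.1, (e.anti inter_subset_left).of_sub hO.2.2⟩⟩

end adm

variable (Q) in
/-- admissible forms -/
def admS (W : Set Y) (n : ℕ) : Submodule ℂ (Form (Amb Q.M) n) where
  carrier := {η | Q.Adm W η}
  add_mem' := Adm.add
  zero_mem' := Adm.zero
  smul_mem' c _ h := Adm.smul c h

variable (Q) in
/-- admissible forms, as a type -/
def AdmT (W : Set Y) (n : ℕ) : Type := Q.admS W n

instance (W : Set Y) : AddCommGroup (Q.AdmT W n) := inferInstanceAs (AddCommGroup (Q.admS W n))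
instance (W : Set Y) : Module ℂ (Q.AdmT W n) := inferInstanceAs (Module ℂ (Q.admS W n))

variable (Q) in
/-- admissible forms with zero restriction -/
def vanS (W : Set Y) (n : ℕ) : Submodule ℂ (Q.AdmT W n) where
  carrier := {η | Van (Q.pre W) η.1}
  add_mem' := Van.add
  zero_mem' := Van.zero
  smul_mem' c _ h := Van.smul c h

variable (Q) in
/-- the presheaf of forms of degree `n` -/
def A (n : ℕ) : PSh ℂ Y where
  obj W := Q.AdmT W n ⧸ Q.vanS W n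
  res h := Submodule.mapQ _ _
    { toFun := fun η => ⟨η.1, Adm.anti η.2 h⟩
      map_add' := fun _ _ => rfl
      map_smul' := fun _ _ => rfl } fun _ hη => Van.anti hη (pre_mono h)
  res_id _ x := by obtain ⟨x, rfl⟩ := Submodule.Quotient.mk_surjective _ x; rfl
  res_res _ _ x := by obtain ⟨x, rfl⟩ := Submodule.Quotient.mk_surjective _ x; rfl

variable {W W' : Opens Y} {η η' : Form (Amb Q.M) n}

/-- the section given by an admissible form -/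
def cl (η : Form (Amb Q.M) n) (h : Q.Adm W η) : (Q.A n).obj W :=
  (Submodule.Quotient.mk ⟨η, h⟩ : Q.AdmT W n ⧸ Q.vanS W n)

theorem cl_surj (x : (Q.A n).obj W) : ∃ η h, cl η h = x := by
  obtain ⟨x, rfl⟩ := Submodule.Quotient.mk_surjective _ x
  exact ⟨x.1, x.2, rfl⟩

theorem cl_eq {h : Q.Adm W η} {h' : Q.Adm W η'} : cl η h = cl η' h' ↔ Van (Q.pre W) (η - η') :=
  Submodule.Quotient.eq _

theorem cl_eq_zero {h : Q.Adm W η} : cl η h = 0 ↔ Van (Q.pre W) η :=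
  Submodule.Quotient.mk_eq_zero _

theorem cl_add (h : Q.Adm W η) (h' : Q.Adm W η') : cl η h + cl η' h' = cl (η + η') (h.add h') := rfl

theorem cl_sub (h : Q.Adm W η) (h' : Q.Adm W η') : cl η h - cl η' h' = cl (η - η') (h.sub h') := rfl

theorem cl_smul (c : ℂ) (h : Q.Adm W η) : c • cl η h = cl (c • η) (h.smul c) := rfl

theorem res_cl (hW : W' ≤ W) (h : Q.Adm W η) : (Q.A n).res hW (cl η h) = cl η (h.anti hW) := rfl

/-- linear maps out of the space of sections -/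
def lift {B : Type} [AddCommGroup B] [Module ℂ B] (f : ∀ η : Form (Amb Q.M) n, Q.Adm W η → B)
    (ha : ∀ η η' h h', f (η + η') (Adm.add h h') = f η h + f η' h')
    (hs : ∀ (c : ℂ) η h, f (c • η) (Adm.smul c h) = c • f η h)
    (h0 : ∀ η h, Van (Q.pre W) η → f η h = 0) : (Q.A n).obj W →ₗ[ℂ] B :=
  (Q.vanS W n).liftQ
    { toFun := fun η => f η.1 η.2
      map_add' := fun η η' => ha _ _ η.2 η'.2
      map_smul' := fun c η => hs c _ η.2 } fun η hη => h0 _ η.2 hη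

variable (Q) in
/-- the exterior derivative -/
def dA (n : ℕ) : Hom (Q.A n) (Q.A (n + 1)) where
  app W := lift (fun η h => cl (extDeriv η) h.d)
    (fun _ _ h h' => cl_eq.2 (.of_eq fun _ hx => extDeriv_add (h.1.diff hx) (h'.1.diff hx)))
    (fun c _ h => cl_eq.2 (.of_eq fun _ hx => extDeriv_csmul c (h.1.diff hx)))
    fun _ h h0 => cl_eq_zero.2 (h0.d h.1)
  nat _ x := by obtain ⟨η, h, rfl⟩ := cl_surj x; rfl

theorem dA_cl (h : Q.Adm W η) : (Q.dA n).app W (cl η h) = cl (extDeriv η) h.d := rfl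

theorem near_cl {h : Q.Adm W η} {y : Y} : (⊥ : Sub (Q.A n)).Near (cl η h) y ↔
    ∃ O : Opens Y, O ≤ W ∧ y ∈ O ∧ Van (Q.pre O) η :=
  ⟨fun ⟨O, h1, h2, h3⟩ => ⟨O, h1, h2, cl_eq_zero.1 h3⟩,
    fun ⟨O, h1, h2, h3⟩ => ⟨O, h1, h2, cl_eq_zero.2 h3⟩⟩

variable [CommRing R] [Algebra ℂ R] {S : (R → ℂ) → (R → ℂ) → Prop} {d m : ℕ} {U : ℕ → Opens Y}
  {I : Cx Y} {one : Sec I 0 (U 1)} {u : ∀ n W, Form (Amb Q.M) n →ₗ[ℂ] Sec I n W}

/-- the map to `I` -/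
def IsNat.uA (hu : Q.IsNat one u) (n : ℕ) (W : Opens Y) : (Q.A n).obj W →ₗ[ℂ] Sec I n W :=
  lift (fun η _ => u n W η) (fun _ _ _ _ => map_add _ _ _) (fun _ _ _ => map_smul _ _ _)
    (hu.van n W)

omit [CommRing R] [Algebra ℂ R] in
theorem IsNat.uA_cl (hu : Q.IsNat one u) (h : Q.Adm W η) : hu.uA n W (cl η h) = u n W η := rfl

namespace IsModel
variable (hQ : Q.IsModel S d m U)
include hQ

theorem adm_of_le {W : Set Y} (hW : W ⊆ U 1) (h : Sm (Q.pre W) η) : Q.Adm W η :=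
  adm_iff.2 ⟨h, fun _ hx hE => (hQ.pre_disj hW hx hE).elim⟩

theorem adm_one {W : Set Y} (hW : W ⊆ U 1) : Q.Adm W (one0 (Amb Q.M)) :=
  hQ.adm_of_le hW (.of_contDiff contDiff_const)

variable {s : C(Y, Y)} (hS : ∀ y y' : Y, S y.1 y'.1 → y' = s y)
include hS

theorem adm_cj {W : Set Y} (h : Q.Adm W η) : Q.Adm (s ⁻¹' W) (pull (cj Q.M) η) := by
  obtain ⟨h1, O, hO, h2, h3⟩ := h
  exact ⟨h1.pull (fun _ _ => Eventually.of_forall fun _ => (cj Q.M).contDiff.contDiffAt)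
    (hQ.cj_pre hS), cj Q.M ⁻¹' O, hO.preimage (cj Q.M).continuous,
    fun x hx => h2 ⟨hQ.cj_pre hS hx.1, (hQ.cj_mem _).2 hx.2⟩,
    h3.pull (fun _ _ => (cj Q.M).contDiff.contDiffAt) fun x hx => ⟨hQ.cj_pre hS hx.1, hx.2⟩⟩

/-- pull-back under complex conjugation -/
def sig (n : ℕ) (W : Opens Y) : (Q.A n).obj W →ₗ[ℂ] (Q.A n).obj (Opens.comap s W) :=
  lift (fun η h => cl (pull (cj Q.M) η) (hQ.adm_cj hS h)) (fun _ _ _ _ => rfl) (fun _ _ _ => rfl)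
    fun _ _ h0 => cl_eq_zero.2 (h0.pull (fun _ _ => (cj Q.M).contDiff.contDiffAt) (hQ.cj_pre hS))

theorem sig_cl (h : Q.Adm W η) :
    hQ.sig hS n W (cl η h) = cl (W := Opens.comap s W) (pull (cj Q.M) η) (hQ.adm_cj hS h) := rfl

end IsModel

end Data

end Pool.Agent.PWD
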