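import Pool.Agent.P.MP_65ad7c_ag.DL2
import Pool.Agent.P.MP_65ad7c_ag.DGK

/-! Families of forms modulo the forms that vanish; the complexes `K(T, α, β)`. -/

open Set Filter Topology
open scoped ContDiff

noncomputable section
namespace Pool.Agent.PWD

section fam
variable {V V' : Type} [NormedAddCommGroup V] [NormedSpace ℝ V] [NormedAddCommGroup V']
  [NormedSpace ℝ V'] {κ κ' : Type}

/-- the part of degree `z` -/
def prjZ (z : ℤ) (f : GF V) : GF V := fun n => if (n : ℤ) = z then f n else 0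

/-- all members are smooth -/
def SmK (S : κ → Set V) (c : κ → GF V) : Prop := ∀ j, SmS (S j) (c j)

/-- all members vanish -/
def VanK (S : κ → Set V) (c : κ → GF V) : Prop := ∀ j, VanG (S j) (c j)

/-- smooth families -/
def smK (S : κ → Set V) : AddSubgroup (κ → GF V) where
  carrier := {c | SmK S c}
  add_mem' h h' j := (h j).add (h' j)
  zero_mem' _ := SmS.zero
  neg_mem' {c} h j := by
    have := SmS.zero.sub (h j)
    rwa [zero_sub] at this

/-- vanishing families -/
def vanK (S : κ → Set V) : AddSubgroup (κ → GF V) where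
  carrier := {c | VanK S c}
  add_mem' h h' j := (h j).add (h' j)
  zero_mem' _ := VanG.zero
  neg_mem' h j := (h j).neg

/-- smooth families modulo vanishing families -/
def Fam (S : κ → Set V) : Type := smK S ⧸ (vanK S).addSubgroupOf (smK S)

instance (S : κ → Set V) : AddCommGroup (Fam S) :=
  inferInstanceAs (AddCommGroup (smK S ⧸ (vanK S).addSubgroupOf (smK S)))

/-- the class of a smooth family -/
def Fam.mk {S : κ → Set V} (c : κ → GF V) (h : SmK S c) : Fam S :=
  (QuotientAddGroup.mk (⟨c, h⟩ : smK S) : smK S ⧸ (vanK S).addSubgroupOf (smK S))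

/-- `φ` induces an additive map -/
structure Ok (S : κ → Set V) (S' : κ' → Set V') (φ : (κ → GF V) → κ' → GF V') : Prop where
  sm : ∀ c, SmK S c → SmK S' (φ c)
  add : ∀ c c', SmK S c → SmK S c' → VanK S' (φ (c + c') - (φ c + φ c'))
  van : ∀ c, SmK S c → VanK S c → VanK S' (φ c)

theorem Fam.mk_eq {S : κ → Set V} {c c' : κ → GF V} {h : SmK S c} {h' : SmK S c'} :
    Fam.mk c h = Fam.mk c' h' ↔ VanK S (c - c') :=
  QuotientAddGroup.eq_iff_sub_mem

/-- the induced map -/
def Fam.map {S : κ → Set V} {S' : κ' → Set V'} {φ : (κ → GF V) → κ' → GF V'} (h : Ok S S' φ) :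
    Fam S →ₗ[ℤ] Fam S' :=
  AddMonoidHom.toIntLinearMap (QuotientAddGroup.lift ((vanK S).addSubgroupOf (smK S))
    (AddMonoidHom.mk' (fun c : smK S => Fam.mk (φ c.1) (h.sm _ c.2)) fun c c' =>
      (Fam.mk_eq (c' := φ c.1 + φ c'.1)
        (h' := fun j => (h.sm _ c.2 j).add (h.sm _ c'.2 j))).2 (h.add _ _ c.2 c'.2))
    fun c hc => (Fam.mk_eq (c' := 0) (h' := fun _ => SmS.zero)).2 (by
      rw [sub_zero]; exact h.van _ c.2 hc))

/-- the classes of the families with property `P` -/
def Fam.sub (S : κ → Set V) (P : (κ → GF V) → Prop) : Submodule ℤ (Fam S) :=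
  Submodule.span ℤ {a | ∃ c h, Fam.mk c h = a ∧ P c}

/-- the same for a condition on the members -/
def Fam.col (S : κ → Set V) (P : κ → GF V → Prop) : Submodule ℤ (Fam S) :=
  Fam.sub S fun c => ∀ j, P j (c j)

/-- the same for pairs -/
def Fam.rel (S : κ → Set V) (S' : κ' → Set V') (P : (κ → GF V) → (κ' → GF V') → Prop) :
    Submodule ℤ (Fam S × Fam S') :=
  Submodule.span ℤ {a | ∃ c h c' h', (Fam.mk c h, Fam.mk c' h') = a ∧ P c c'}

/-- total degree `n`, the member `j` being shifted by `s j` -/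
def Fam.deg (S : κ → Set V) (s : κ → ℤ) (n : ℤ) : Submodule ℤ (Fam S) :=
  Fam.col S fun j f => VanG (S j) (f - prjZ (n - s j) f)

/-- an additive condition that does not see vanishing forms -/
structure Cond (S : Set V) (P : GF V → Prop) : Prop where
  add : ∀ f g, P f → P g → P (f + g)
  neg : ∀ f, P f → P (-f)
  van : ∀ f, VanG S f → P f

/-- the same for pairs of families -/
structure Cond2 (S : κ → Set V) (S' : κ' → Set V') (P : (κ → GF V) → (κ' → GF V') → Prop) :
    Prop where
  add : ∀ f f' g g', P f f' → P g g' → P (f + g) (f' + g')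
  neg : ∀ f f', P f f' → P (-f) (-f')
  van : ∀ f f', VanK S f → VanK S' f' → P f f'

theorem okD (S : κ → Set V) (s : κ → ℂ) : Ok S S fun c j => s j • dG (c j) where
  sm _ h j := (h j).d.smul _
  add c c' h h' j := by
    have := (VanG.d_add (h j) (h' j)).smul (s j)
    rwa [smul_sub, smul_add] at this
  van _ h h' j := ((h' j).d (h j)).smul _

theorem okC (S : κ → Set V) (s : κ → ℂ) : Ok S S fun c j => s j • conjG (c j) where
  sm _ h j := (h j).conj.smul _
  add c c' h h' j := by
    show VanG _ (s j • conjG (c j + c' j) - (s j • conjG (c j) + s j • conjG (c' j)))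
    rw [conjG_add, smul_add, sub_self]; exact VanG.zero
  van _ _ h' j := (h' j).conj.smul _

theorem okM (S : κ → Set V) {χ : V → ℂ} (hχ : ContDiff ℝ ∞ χ) : Ok S S fun c j => mulG χ (c j) where
  sm _ h j := (h j).mul isOpen_univ (subset_univ _) hχ.contDiffOn
  add c c' h h' j := VanG.of_zero fun n x _ => by
    show χ x • (c j n x + c' j n x) - (χ x • c j n x + χ x • c' j n x) = 0
    rw [smul_add, sub_self]
  van _ _ h' j := (h' j).mul _

theorem okE (S : κ → Set V) (p : κ → Prop) [DecidablePred p] :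
    Ok S S fun c j => if p j then c j else 0 where
  sm c h j := by
    show SmS _ (if p j then c j else 0)
    split_ifs
    exacts [h j, SmS.zero]
  add c c' h h' j := by
    show VanG _ ((if p j then c j + c' j else 0) - ((if p j then c j else 0) + if p j then c' j else 0))
    split_ifs
    · rw [sub_self]; exact VanG.zero
    · rw [add_zero, sub_self]; exact VanG.zero
  van c _ h j := by
    show VanG _ (if p j then c j else 0)
    split_ifs
    exacts [h j, VanG.zero]

theorem okI {S S' : κ → Set V} (h : ∀ j, S' j ⊆ S j) : Ok S S' id where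
  sm _ hc j := (hc j).anti (h j)
  add c c' _ _ j := by
    show VanG _ (c j + c' j - (c j + c' j))
    rw [sub_self]; exact VanG.zero
  van _ _ hc j := (hc j).anti (h j)

/-- the cut-off operators -/
def Fam.cuts (S : κ → Set V) : Set (Fam S →ₗ[ℤ] Fam S) :=
  {m | ∃ (χ : V → ℂ) (h : ContDiff ℝ ∞ χ), m = Fam.map (okM S h)}

end fam

variable {V : Type} [NormedAddCommGroup V] [NormedSpace ℝ V] {ι : Type} [LinearOrder ι]

/-- the alternating sum of the faces, with the sign of the degree -/
def cobG (c : Finset ι → GF V) (J : Finset ι) : GF V :=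
  epsG (∑ i ∈ J, (-1 : ℂ) ^ (J.filter (· < i)).card • c (J.erase i))

/-- Hodge theory on the compact manifold `S` -/
structure Hdg (J : V → V →L[ℝ] V) (S : Set V) : Prop where
  h1 : ∀ p f g, SmS S f → SmS S g → TyV J S p f → VanG S (f - dG g) →
    ∃ g', SmS S g' ∧ TyV J S p g' ∧ VanG S (f - dG g')
  h2 : ∀ m p p' f, p + p' = m + 1 → SmS S f → VanG S (dG f) →
    ∃ u v g, SmS S u ∧ SmS S v ∧ SmS S g ∧ TyV J S p u ∧ TyV J S p' v ∧ VanG S (dG u) ∧
      VanG S (dG v) ∧ VanG S (prj m f - u - conjG v - dG g)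
  h3 : ∀ m p p' u v g, m + 1 ≤ p + p' → SmS S u → SmS S v → SmS S g → TyV J S p u → TyV J S p' v →
    VanG S (dG u) → VanG S (dG v) → VanG S (u - conjG v - dG g) →
    ∃ g', SmS S g' ∧ VanG S (prj m u - dG g')

namespace Ctx
variable (C : Ctx V ι) (X : Set V)

/-- the geometric input -/
structure Glob : Prop where
  cpt : IsCompact X
  cl : ∀ i, IsClosed (C.D i)
  ok : C.OK X
  lt : ∀ T α, Disjoint T α → ∀ x ∈ St X C.D T, ∃ e, C.LT (St X C.D T) α x e
  ht : ∀ T T' α, T ⊆ T' → Disjoint T' α → ∀ x ∈ St X C.D T',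
    C.HT (St X C.D T) α (St X C.D T') x
  hdg : ∀ T, Hdg C.J (St X C.D T)

variable (T α β : Finset ι)

/-- the closed stratum of column `J` -/
def SJ (J : Finset ι) : Set V := if J ⊆ β then St X C.D (T ∪ J) else ∅

/-- the open stratum of column `J` -/
def SK (J : Finset ι) : Set V := C.SJ X T β J \ Off C.D α

/-- the complex `K(T, α, β)` -/
abbrev K : Type := Fam (C.SK X T α β)

/-- the index of the weight filtration in column `J` -/
def wi (q : ℤ) (J : Finset ι) : ℕ := (q + J.card + 1).toNat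

/-- `f` and `g` have conjugate residues -/
def CJ (S : Set V) (α : Finset ι) (w : ℕ) (x : V) (f g : GF V) : Prop :=
  ∃ r, C.RN S α w x f r ∧ C.RN S α w x g fun I => (-1 : ℂ) ^ (w + 1) • conjG (r I)

/-- total degree -/
def kDg (n : ℤ) : Submodule ℤ (C.K X T α β) := Fam.deg _ (fun J => J.card) n

/-- a germ system given by a condition on the columns -/
def kSys (P : Finset ι → V → GF V → Prop) : G.Sys ℤ X (C.K X T α β) :=
  fun n x => C.kDg X T α β n ⊓ Fam.col _ fun J => P J x

def kNul := C.kSys X T α β fun J => C.NulN (C.SJ X T β J) α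
def kW (q : ℤ) := C.kSys X T α β fun J => C.WN (C.SJ X T β J) α (wi q J)
def kWt (q : ℤ) := C.kSys X T α β fun J => C.TN (C.SJ X T β J) α (wi q J)
def kY (q : ℤ) := C.kSys X T α β fun J x f => ∃ r, C.RN (C.SJ X T β J) α (wi q J) x f r
def kFL (p : ℤ) := C.kSys X T α β fun J => C.FN (C.SJ X T β J) α p.toNat

def kCj (q : ℤ) : G.Sys ℤ X (C.K X T α β × C.K X T α β) := fun n x =>
  (C.kDg X T α β n).prod (C.kDg X T α β n) ⊓
    Fam.rel _ _ fun c c' => ∀ J, C.CJ (C.SJ X T β J) α (wi q J) x (c J) (c' J)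

def kF (p : ℤ) : G.Gr ℤ (C.K X T α β) := fun n =>
  C.kDg X T α β n ⊓ Fam.col _ fun J => TyV C.J (C.SK X T α β J) p.toNat

theorem SJ_erase {J : Finset ι} (i : ι) : C.SJ X T β J ⊆ C.SJ X T β (J.erase i) := by
  unfold SJ
  split_ifs with h1 h2 h2
  · refine inter_subset_inter_right _ fun y hy => mem_iInter₂.2 fun j hj => mem_iInter₂.1 hy j ?_
    exact Finset.union_subset_union_right (J.erase_subset i) hj
  · exact absurd ((J.erase_subset i).trans h1) h2
  · exact empty_subset _
  · exact empty_subset _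

theorem okδ : Ok (C.SK X T α β) (C.SK X T α β) cobG where
  sm c h J := (SmS.sum _ fun i _ =>
    ((h _).anti (diff_subset_diff_left (C.SJ_erase X T β i))).smul _).eps
  add c c' _ _ J := by
    have : cobG (c + c') J = cobG c J + cobG c' J := by
      funext n
      simp only [cobG, epsG, Pi.add_apply, smul_add, Finset.sum_add_distrib]
    show VanG _ (cobG (c + c') J - (cobG c J + cobG c' J))
    rw [this, sub_self]; exact VanG.zero
  van c _ h J := (VanG.sum _ fun i _ =>
    ((h _).anti (diff_subset_diff_left (C.SJ_erase X T β i))).smul _).eps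

def kd : C.K X T α β →ₗ[ℤ] C.K X T α β := Fam.map (okD _ fun _ => 1)
def kδ : C.K X T α β →ₗ[ℤ] C.K X T α β := Fam.map (C.okδ X T α β)
def ke (c : ℕ) : C.K X T α β →ₗ[ℤ] C.K X T α β := Fam.map (okE _ fun J => J.card = c)
def kκ : C.K X T α β →ₗ[ℤ] C.K X T α β := Fam.map (okC _ fun _ => 1)

/-! ### residues -/

/-- the compact strata that carry the residues of `Gr_q` -/
def SB (q : ℤ) (j : Finset ι × Finset ι) : Set V :=
  if j.2 ⊆ α ∧ j.2.card + 1 = wi q j.1 then St (C.SJ X T β j.1) C.D j.2 else ∅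

abbrev B (q : ℤ) : Type := Fam (C.SB X T α β q)

def bDg (q n : ℤ) : Submodule ℤ (C.B X T α β q) := Fam.deg _ (fun j => j.1.card + j.2.card) n
def bd (q : ℤ) : C.B X T α β q →ₗ[ℤ] C.B X T α β q := Fam.map (okD _ fun j => (-1) ^ j.2.card)
def bκ (q : ℤ) : C.B X T α β q →ₗ[ℤ] C.B X T α β q := Fam.map (okC _ fun j => (-1) ^ j.2.card)
def bF (q p : ℤ) : G.Gr ℤ (C.B X T α β q) := fun n =>
  C.bDg X T α β q n ⊓ Fam.col _ fun j => TyV C.J (C.SB X T α β q j) (p.toNat - j.2.card)

/-- the graph of the global residue -/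
def Res (q n : ℤ) : Submodule ℤ (C.K X T α β × C.B X T α β q) :=
  (C.kDg X T α β n).prod (C.bDg X T α β q n) ⊓
    Fam.rel _ _ fun c r => ∀ x ∈ X, ∀ J, C.RN (C.SJ X T β J) α (wi q J) x (c J) fun I => r (J, I)

end Ctx

end Pool.Agent.PWD
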