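import Pool.Agent.P.MP_65ad7c_ag.DK0

/-! Basic calculus of `Fam` and of the germ systems on `K(T, α, β)`. -/

open Set Filter Topology
open scoped ContDiff

noncomputable section
namespace Pool.Agent.PWD

section fam
variable {V V' : Type} [NormedAddCommGroup V] [NormedSpace ℝ V] [NormedAddCommGroup V']
  [NormedSpace ℝ V'] {κ κ' : Type} {S : κ → Set V} {S' : κ' → Set V'} {c c' : κ → GF V}

theorem SmK.zero : SmK S 0 := fun _ => SmS.zero
theorem SmK.add (h : SmK S c) (h' : SmK S c') : SmK S (c + c') := fun j => (h j).add (h' j)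
theorem SmK.sub (h : SmK S c) (h' : SmK S c') : SmK S (c - c') := fun j => (h j).sub (h' j)
theorem SmK.neg (h : SmK S c) : SmK S (-c) := (smK S).neg_mem h
theorem SmK.single [DecidableEq κ] {j : κ} {f : GF V} (h : SmS (S j) f) : SmK S (Pi.single j f) :=
  fun i => by
    by_cases e : i = j
    · subst e; rwa [Pi.single_eq_same]
    · rw [Pi.single_eq_of_ne e]; exact SmS.zero

namespace Fam
theorem surj (a : Fam S) : ∃ c h, mk c h = a := by
  obtain ⟨⟨c, h⟩, rfl⟩ := QuotientAddGroup.mk_surjective a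
  exact ⟨c, h, rfl⟩
theorem mk_add (h : SmK S c) (h' : SmK S c') : mk c h + mk c' h' = mk (c + c') (h.add h') := rfl
theorem mk_sub (h : SmK S c) (h' : SmK S c') : mk c h - mk c' h' = mk (c - c') (h.sub h') := rfl
theorem mk_neg (h : SmK S c) : -mk c h = mk (-c) h.neg := rfl
theorem mk_zero : mk (0 : κ → GF V) (SmK.zero : SmK S 0) = 0 := rfl
theorem mk_eq_zero {h : SmK S c} : mk c h = 0 ↔ VanK S c := by
  rw [← mk_zero, mk_eq, sub_zero]
theorem map_mk {φ : (κ → GF V) → κ' → GF V'} (hφ : Ok S S' φ) (h : SmK S c) :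
    map hφ (mk c h) = mk (φ c) (hφ.sm c h) := rfl

theorem mem_rel {P : (κ → GF V) → (κ' → GF V') → Prop} (hP : Cond2 S S' P) {r : κ' → GF V'}
    {h : SmK S c} {h' : SmK S' r} : (mk c h, mk r h') ∈ rel S S' P ↔ P c r := by
  refine ⟨fun hm => ?_, fun hp => Submodule.subset_span ⟨c, h, r, h', rfl, hp⟩⟩
  have key : ∀ a ∈ rel S S' P, ∃ c h r h', (mk c h, mk r h') = a ∧ P c r := fun a ha => by
    induction ha using Submodule.span_induction with
    | mem x hx => exact hx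
    | zero => exact ⟨0, SmK.zero, 0, SmK.zero, rfl, hP.van _ _ (fun _ => VanG.zero) fun _ => VanG.zero⟩
    | add x y _ _ hx hy =>
      obtain ⟨c, h, r, h', rfl, hp⟩ := hx
      obtain ⟨c₁, h₁, r₁, h₁', rfl, hp₁⟩ := hy
      exact ⟨c + c₁, h.add h₁, r + r₁, h'.add h₁', rfl, hP.add _ _ _ _ hp hp₁⟩
    | smul z x _ hx =>
      obtain ⟨c, h, r, h', rfl, hp⟩ := hx
      induction z using Int.induction_on with
      | zero => exact ⟨0, SmK.zero, 0, SmK.zero, (zero_smul _ _).symm,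
          hP.van _ _ (fun _ => VanG.zero) fun _ => VanG.zero⟩
      | succ i ih =>
        obtain ⟨c₁, h₁, r₁, h₁', e, hp₁⟩ := ih
        exact ⟨c₁ + c, h₁.add h, r₁ + r, h₁'.add h', by rw [add_smul, one_smul, ← e]; rfl,
          hP.add _ _ _ _ hp₁ hp⟩
      | pred i ih =>
        obtain ⟨c₁, h₁, r₁, h₁', e, hp₁⟩ := ih
        exact ⟨c₁ + -c, h₁.add h.neg, r₁ + -r, h₁'.add h'.neg,
          by rw [sub_smul, one_smul, ← e, sub_eq_add_neg]; rfl, hP.add _ _ _ _ hp₁ (hP.neg _ _ hp)⟩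
  obtain ⟨c₁, h₁, r₁, h₁', e, hp⟩ := key _ hm
  obtain ⟨e1, e2⟩ := Prod.ext_iff.1 e
  have := hP.add _ _ _ _ hp (hP.van _ _ (mk_eq.1 e1.symm) (mk_eq.1 e2.symm))
  rwa [add_sub_cancel, add_sub_cancel] at this

theorem mem_col {P : κ → GF V → Prop} (hP : ∀ j, Cond (S j) (P j)) {h : SmK S c} :
    mk c h ∈ col S P ↔ ∀ j, P j (c j) := by
  refine ⟨fun hm => ?_, fun hp => Submodule.subset_span ⟨c, h, rfl, hp⟩⟩
  have h2 : Cond2 S S fun c _ => ∀ j, P j (c j) :=
    ⟨fun _ _ _ _ a b j => (hP j).add _ _ (a j) (b j), fun _ _ a j => (hP j).neg _ (a j),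
      fun _ _ a _ j => (hP j).van _ (a j)⟩
  refine (mem_rel h2 (h := h) (h' := SmK.zero)).1 ?_
  have : col S P ≤ (rel S S fun c _ => ∀ j, P j (c j)).comap (LinearMap.inl ℤ _ _) :=
    Submodule.span_le.2 fun _ ⟨c, h, e, hp⟩ =>
      Submodule.subset_span ⟨c, h, 0, SmK.zero, e ▸ rfl, hp⟩
  exact this hm
end Fam

theorem negG (f : GF V) : (-1 : ℂ) • f = -f := by
  funext n x; ext v; simp
theorem zeroG (a : ℂ) : a • (0 : GF V) = 0 := by
  funext n x; ext v; simp
theorem oneG_smul (f : GF V) : (1 : ℂ) • f = f := one_smul _ _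

theorem prjZ_nat (m : ℕ) (f : GF V) : prjZ m f = prj m f := by
  funext n
  by_cases h : n = m
  · subst h; simp [prjZ, prj]
  · simp [prjZ, prj, h]
theorem prjZ_neg {z : ℤ} (hz : z < 0) (f : GF V) : prjZ z f = 0 := by
  funext n
  exact if_neg (by omega)
theorem prjZ_cases (z : ℤ) (f : GF V) : prjZ z f = 0 ∨ ∃ m : ℕ, z = m ∧ prjZ z f = prj m f := by
  rcases lt_or_ge z 0 with h | h
  · exact .inl (prjZ_neg h f)
  · lift z to ℕ using h
    exact .inr ⟨z, rfl, prjZ_nat z f⟩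
theorem prjZ_add (z : ℤ) (f g : GF V) : prjZ z (f + g) = prjZ z f + prjZ z g := by
  funext n; by_cases h : (n : ℤ) = z <;> simp [prjZ, h]
theorem prjZ_sub (z : ℤ) (f g : GF V) : prjZ z (f - g) = prjZ z f - prjZ z g := by
  funext n; by_cases h : (n : ℤ) = z <;> simp [prjZ, h]
theorem prjZ_neg' (z : ℤ) (f : GF V) : prjZ z (-f) = -prjZ z f := by
  funext n; by_cases h : (n : ℤ) = z <;> simp [prjZ, h]
theorem prjZ_smul (z : ℤ) (a : ℂ) (f : GF V) : prjZ z (a • f) = a • prjZ z f := by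
  funext n x; ext v; by_cases h : (n : ℤ) = z <;> simp [prjZ, h]
theorem prjZ_zero (z : ℤ) : prjZ z (0 : GF V) = 0 := by
  funext n; simp [prjZ]
theorem prjZ_prjZ (z : ℤ) (f : GF V) : prjZ z (prjZ z f) = prjZ z f := by
  funext n; by_cases h : (n : ℤ) = z <;> simp [prjZ, h]
theorem prjZ_conjG (z : ℤ) (f : GF V) : prjZ z (conjG f) = conjG (prjZ z f) := by
  funext n x; ext v; by_cases h : (n : ℤ) = z <;> simp [prjZ, conjG, h]
theorem prjZ_epsG (z : ℤ) (f : GF V) : prjZ z (epsG f) = epsG (prjZ z f) := by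
  funext n x; ext v; by_cases h : (n : ℤ) = z <;> simp [prjZ, epsG, h]
theorem prjZ_mulG (z : ℤ) (χ : V → ℂ) (f : GF V) : prjZ z (mulG χ f) = mulG χ (prjZ z f) := by
  funext n x; ext v; by_cases h : (n : ℤ) = z <;> simp [prjZ, mulG, h]
theorem prjZ_pullG (z : ℤ) (γ : V' → V) (f : GF V) : prjZ z (pullG γ f) = pullG γ (prjZ z f) := by
  funext n; by_cases h : (n : ℤ) = z <;> simp [prjZ, pullG, h]; rfl
theorem prjZ_dG (z : ℤ) (f : GF V) : prjZ (z + 1) (dG f) = dG (prjZ z f) := by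
  rcases lt_trichotomy z (-1) with h | h | h
  · rw [prjZ_neg (by omega), prjZ_neg (by omega), dG_zero]
  · subst h
    rw [prjZ_neg (z := -1) (by omega), dG_zero]
    exact (prjZ_nat 0 _).trans (prj_zero_dG f)
  · lift z to ℕ using by omega
    rw [prjZ_nat, ← prj_dG, ← prjZ_nat]; rfl
theorem SmS.prjZ {T : Set V} {f : GF V} (z : ℤ) (h : SmS T f) : SmS T (prjZ z f) := by
  rcases prjZ_cases z f with e | ⟨m, -, e⟩ <;> rw [e]
  exacts [SmS.zero, h.prj m]
theorem VanG.prjZ {T : Set V} {f : GF V} (z : ℤ) (h : VanG T f) : VanG T (prjZ z f) := by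
  rcases prjZ_cases z f with e | ⟨m, -, e⟩ <;> rw [e]
  exacts [VanG.zero, h.prj m]

theorem cond_deg (T : Set V) (z : ℤ) : Cond T fun f => VanG T (f - prjZ z f) where
  add f g h h' := by
    have := h.add h'
    rwa [sub_add_sub_comm, ← prjZ_add] at this
  neg f h := by
    have := h.neg
    rwa [neg_sub', ← prjZ_neg'] at this
  van f h := h.sub (h.prjZ z)

theorem Fam.mem_deg {s : κ → ℤ} {n : ℤ} {h : SmK S c} :
    Fam.mk c h ∈ Fam.deg S s n ↔ ∀ j, VanG (S j) (c j - prjZ (n - s j) (c j)) :=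
  Fam.mem_col fun _ => cond_deg _ _

/-- homogeneous representatives -/
theorem Fam.deg_surj {s : κ → ℤ} {n : ℤ} {a : Fam S} (ha : a ∈ Fam.deg S s n) :
    ∃ c h, Fam.mk c h = a ∧ ∀ j, prjZ (n - s j) (c j) = c j := by
  obtain ⟨c, h, rfl⟩ := a.surj
  exact ⟨fun j => prjZ (n - s j) (c j), fun j => (h j).prjZ _,
    (Fam.mk_eq.2 (Fam.mem_deg.1 ha)).symm, fun j => prjZ_prjZ _ _⟩

theorem Fam.mem_deg_of {s : κ → ℤ} {n : ℤ} {h : SmK S c} (e : ∀ j, prjZ (n - s j) (c j) = c j) :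
    Fam.mk c h ∈ Fam.deg S s n :=
  Fam.mem_deg.2 fun j => by rw [e, sub_self]; exact VanG.zero

end fam

variable {V : Type} [NormedAddCommGroup V] [NormedSpace ℝ V] {ι : Type} [LinearOrder ι]
  {C : Ctx V ι} {X : Set V} {T α β : Finset ι}

omit [NormedAddCommGroup V] [NormedSpace ℝ V] in
theorem St_St (S : Set V) (D : ι → Set V) (T I : Finset ι) : St (St S D T) D I = St S D (T ∪ I) := by
  simp only [St, Finset.set_biInter_inter, inter_assoc]

omit [NormedAddCommGroup V] [NormedSpace ℝ V] [LinearOrder ι] in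
theorem St_empty (S : Set V) (D : ι → Set V) : St S D ∅ = S := by simp [St]

omit [NormedAddCommGroup V] [NormedSpace ℝ V] [LinearOrder ι] in
theorem Off_empty (D : ι → Set V) : Off D ∅ = ∅ := by simp [Off]

namespace Ctx

theorem SJ_of {J : Finset ι} (h : J ⊆ β) : C.SJ X T β J = St X C.D (T ∪ J) := if_pos h
theorem SJ_of_not {J : Finset ι} (h : ¬J ⊆ β) : C.SJ X T β J = ∅ := if_neg h
theorem SJ_empty : C.SJ X T β ∅ = St X C.D T := by
  rw [SJ_of (Finset.empty_subset _), Finset.union_empty]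
theorem SJ_sub (J : Finset ι) : C.SJ X T β J ⊆ St X C.D T :=
  SJ_empty (C := C) (β := β) ▸ by
    induction J using Finset.induction_on with
    | empty => exact subset_rfl
    | insert i J hi ih => exact (C.SJ_erase X T β i).trans (by rwa [Finset.erase_insert hi])
theorem SJ_X (J : Finset ι) : C.SJ X T β J ⊆ X := (SJ_sub J).trans inter_subset_left

namespace Glob
variable (h : C.Glob X)
include h

theorem clSt (T : Finset ι) : IsClosed (St X C.D T) :=
  h.cpt.isClosed.inter (isClosed_biInter fun i _ => h.cl i)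
theorem cptSt (T : Finset ι) : IsCompact (St X C.D T) :=
  h.cpt.of_isClosed_subset (h.clSt T) inter_subset_left
theorem clOff (α : Finset ι) : IsClosed (Off C.D α) := α.finite_toSet.isClosed_biUnion fun i _ => h.cl i
theorem clSJ (J : Finset ι) : IsClosed (C.SJ X T β J) := by
  unfold SJ; split_ifs
  exacts [h.clSt _, isClosed_empty]
theorem okSJ (J : Finset ι) : C.OK (C.SJ X T β J) := h.ok.anti (SJ_X J)
/-- the local theory in column `J` -/
theorem ltSJ (hT : Disjoint T α) (hβ : Disjoint β α) {J : Finset ι} {x : V}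
    (hx : x ∈ C.SJ X T β J) : ∃ e, C.LT (C.SJ X T β J) α x e := by
  by_cases hJ : J ⊆ β
  · rw [SJ_of hJ] at hx ⊢
    exact h.lt _ _ (Finset.disjoint_union_left.2 ⟨hT, hβ.mono_left hJ⟩) x hx
  · rw [SJ_of_not hJ] at hx; exact hx.elim
/-- the local theory on the strata that carry the residues -/
theorem ltSt {J I : Finset ι} {x : V} (hx : x ∈ St (C.SJ X T β J) C.D I) :
    ∃ e, C.LT (St (C.SJ X T β J) C.D I) ∅ x e := by
  by_cases hJ : J ⊆ β
  · rw [SJ_of hJ, St_St] at hx ⊢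
    exact h.lt _ _ (Finset.disjoint_empty_right _) x hx
  · rw [SJ_of_not hJ] at hx; exact hx.1.elim
theorem eqs (α : Finset ι) {x : V} (hx : x ∈ X) : ∃ e, C.Eqs α x e := by
  obtain ⟨e, he⟩ := h.lt ∅ α (Finset.disjoint_empty_left _) x (by rwa [St_empty])
  exact ⟨e, he.eqs⟩

end Glob

/-! ### the maps on representatives -/
variable {c : Finset ι → GF V} {hc : SmK (C.SK X T α β) c}

theorem kd_mk : C.kd X T α β (Fam.mk c hc) = Fam.mk (fun J => dG (c J)) fun J => (hc J).d :=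
  Fam.mk_eq.2 fun J => by
    show VanG _ ((1 : ℂ) • dG (c J) - dG (c J))
    rw [one_smul, sub_self]; exact VanG.zero
theorem kκ_mk : C.kκ X T α β (Fam.mk c hc) = Fam.mk (fun J => conjG (c J)) fun J => (hc J).conj :=
  Fam.mk_eq.2 fun J => by
    show VanG _ ((1 : ℂ) • conjG (c J) - conjG (c J))
    rw [one_smul, sub_self]; exact VanG.zero
theorem kδ_mk : C.kδ X T α β (Fam.mk c hc) = Fam.mk (cobG c) ((C.okδ X T α β).sm c hc) := rfl
theorem ke_mk (k : ℕ) : C.ke X T α β k (Fam.mk c hc) =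
    Fam.mk (fun J => if J.card = k then c J else 0) ((okE _ fun J => J.card = k).sm c hc) := rfl
theorem mem_kDg {n : ℤ} : Fam.mk c hc ∈ C.kDg X T α β n ↔
    ∀ J, VanG (C.SK X T α β J) (c J - prjZ (n - J.card) (c J)) := Fam.mem_deg
theorem mem_kSys {P : Finset ι → V → GF V → Prop} {n : ℤ} {x : X}
    (hP : ∀ J, Cond (C.SK X T α β J) (P J x)) : Fam.mk c hc ∈ C.kSys X T α β P n x ↔
      Fam.mk c hc ∈ C.kDg X T α β n ∧ ∀ J, P J x (c J) :=
  and_congr_right fun _ => Fam.mem_col hP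

theorem cond_nul (S : Set V) (x : V) : Cond (S \ Off C.D α) (C.NulN S α x) :=
  ⟨fun _ _ => NulN.add, fun _ => NulN.neg, fun _ => NulN.of_van⟩
theorem cond_wn {S : Set V} (h : C.OK S) (w : ℕ) (x : V) : Cond (S \ Off C.D α) (C.WN S α w x) :=
  ⟨fun _ _ a b => a.add h b, fun f a => negG f ▸ a.smul (-1), fun _ a => .of_nul (.of_van a)⟩
theorem cond_tn {S : Set V} (h : C.OK S) (w : ℕ) (x : V) : Cond (S \ Off C.D α) (C.TN S α w x) :=
  ⟨fun _ _ a b => a.add h b, fun f a => negG f ▸ a.smul (-1), fun _ a => .of_nul (.of_van a)⟩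

theorem mem_kNul {n : ℤ} {x : X} : Fam.mk c hc ∈ C.kNul X T α β n x ↔
    Fam.mk c hc ∈ C.kDg X T α β n ∧ ∀ J, C.NulN (C.SJ X T β J) α x (c J) :=
  mem_kSys fun _ => cond_nul _ _
theorem Glob.mem_kW (h : C.Glob X) {q n : ℤ} {x : X} : Fam.mk c hc ∈ C.kW X T α β q n x ↔
    Fam.mk c hc ∈ C.kDg X T α β n ∧ ∀ J, C.WN (C.SJ X T β J) α (wi q J) x (c J) :=
  mem_kSys fun J => cond_wn (h.okSJ J) _ _
theorem Glob.mem_kWt (h : C.Glob X) {q n : ℤ} {x : X} : Fam.mk c hc ∈ C.kWt X T α β q n x ↔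
    Fam.mk c hc ∈ C.kDg X T α β n ∧ ∀ J, C.TN (C.SJ X T β J) α (wi q J) x (c J) :=
  mem_kSys fun J => cond_tn (h.okSJ J) _ _

/-- the total differential -/
abbrev kD (C : Ctx V ι) (X : Set V) (T α β : Finset ι) : C.K X T α β →ₗ[ℤ] C.K X T α β :=
  C.kd X T α β + C.kδ X T α β

theorem kD_mk : C.kD X T α β (Fam.mk c hc) = Fam.mk (fun J => dG (c J) + cobG c J)
    fun J => (hc J).d.add ((C.okδ X T α β).sm c hc J) := by
  rw [LinearMap.add_apply, kd_mk, kδ_mk]; rfl

/-- a form placed in column `∅` -/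
def k0 (C : Ctx V ι) (X : Set V) (T α β : Finset ι) (f : GF V)
    (hf : SmS (St X C.D T \ Off C.D α) f) : C.K X T α β :=
  Fam.mk (Pi.single ∅ f) (SmK.single (by rwa [SK, SJ_empty]))

/-- local solutions come from global elements -/
theorem exists_loc [FiniteDimensional ℝ V] (n : ℤ) {x : V} {g : Finset ι → GF V}
    (hg : ∀ J, C.SmN (C.SJ X T β J) α x (g J)) : ∃ c hc, Fam.mk c hc ∈ C.kDg X T α β n ∧
      ∀ J, C.NulN (C.SJ X T β J) α x (prjZ (n - J.card) (g J) - c J) := by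
  choose g' h1 h2 using fun J => (hg J).glob
  refine ⟨fun J => prjZ (n - J.card) (g' J), fun J => (h1 J).prjZ _,
    Fam.mem_deg_of fun J => prjZ_prjZ _ _, fun J => ?_⟩
  rw [← prjZ_sub]
  rcases prjZ_cases (n - J.card) (g J - g' J) with e | ⟨m, -, e⟩ <;> rw [e]
  exacts [NulN.zero, (h2 J).prj m]

end Ctx

end Pool.Agent.PWD
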