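import Pool.Agent.P.MP_65ad7c_ag.DK2a

/-! The double complex `K(T, α, β)` and the cut-off operators. -/

open Set Filter Topology
open scoped ContDiff

noncomputable section
namespace Pool.Agent.PWD

variable {V : Type} [NormedAddCommGroup V] [NormedSpace ℝ V] {ι : Type} [LinearOrder ι]

namespace Ctx
variable (C : Ctx V ι) (X : Set V) (T α β : Finset ι)

theorem mul_dg_DK2 {χ : V → ℂ} (h : ContDiff ℝ ∞ χ) {n : ℤ} {a : C.K X T α β}
    (ha : a ∈ C.kDg X T α β n) : Fam.map (okM _ h) a ∈ C.kDg X T α β n := by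
  obtain ⟨c, hc, rfl, e⟩ := Fam.deg_surj ha
  rw [Fam.map_mk]
  exact Fam.mem_deg_of fun J => by rw [prjZ_mulG, e]

theorem k_cut [FiniteDimensional ℝ V] :
    G.CutS (C.kDg X T α β) (C.kNul X T α β) (Fam.cuts _) where
  dg := by
    rintro _ ⟨χ, h, rfl⟩ n a ha
    exact C.mul_dg_DK2 X T α β h ha
  nul := by
    rintro _ ⟨χ, h, rfl⟩ n x a ha
    have h0 := C.mul_dg_DK2 X T α β h ha.1
    obtain ⟨c, hc, rfl⟩ := a.surj
    rw [Fam.map_mk] at h0 ⊢
    exact mem_kNul.2 ⟨h0, fun J => ((mem_kNul.1 ha).2 J).mul χ⟩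
  ex y U hU := by
    obtain ⟨U', hU', hs⟩ := (mem_nhds_subtype _ _ _).1 hU
    obtain ⟨O, h0, h1, h2⟩ := mem_nhds_iff.1 hU'
    obtain ⟨χ, k1, -, k2, -, k3⟩ :=
      Wein.exists_bump {y.1} O isCompact_singleton h1 (singleton_subset_iff.2 h2)
    rw [nhdsSet_singleton] at k3
    have hχ : ContDiff ℝ ∞ fun y => (χ y : ℂ) := Complex.ofRealCLM.contDiff.comp k1
    refine ⟨_, ⟨_, hχ, rfl⟩, ?_, Subtype.val ⁻¹' tsupport fun y => (χ y : ℂ),
      (isClosed_tsupport _).preimage continuous_subtype_val, fun z hz => hs (h0 (k2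
        (tsupport_comp_subset (g := fun r : ℝ => (r : ℂ)) rfl χ hz))), fun z hz n a ha => ?_⟩
    · filter_upwards [continuous_subtype_val.continuousAt.eventually k3.eventually_nhds] with z hz
        n a ha
      have h0 := sub_mem ha (C.mul_dg_DK2 X T α β hχ ha)
      obtain ⟨c, hc, rfl⟩ := a.surj
      rw [Fam.map_mk, Fam.mk_sub] at h0 ⊢
      exact mem_kNul.2 ⟨h0, fun J => NulN.mul_of_one (hz.mono fun w hw => by
        rw [hw, Complex.ofReal_one]) (c J)⟩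
    · have h0 := C.mul_dg_DK2 X T α β hχ ha
      obtain ⟨c, hc, rfl⟩ := a.surj
      rw [Fam.map_mk] at h0 ⊢
      exact mem_kNul.2 ⟨h0, fun J => NulN.mul_of_zero hz (c J)⟩

theorem kNul_opn : G.Opn (C.kNul X T α β) := by
  intro n x a ha
  obtain ⟨c, hc, rfl⟩ := a.surj
  obtain ⟨h0, h1⟩ := mem_kNul.1 ha
  have : ∀ᶠ y in 𝓝 x.1, ∀ J ∈ β.powerset, C.NulN (C.SJ X T β J) α y (c J) :=
    (eventually_all_finset _).2 fun J _ => (h1 J).ev
  filter_upwards [continuous_subtype_val.continuousAt.eventually this] with y hy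
  refine mem_kNul.2 ⟨h0, fun J => ?_⟩
  by_cases hJ : J ⊆ β
  · exact hy J (Finset.mem_powerset.2 hJ)
  · rw [SJ_of_not hJ]
    exact NulN.of_notMem isClosed_empty (notMem_empty _) _

theorem kNul_d : G.Up (C.kd X T α β) (C.kNul X T α β) (C.kNul X T α β) := by
  intro n x a ha
  have h0 := C.kd_mem X T α β n a ha.1
  obtain ⟨c, hc, rfl⟩ := a.surj
  rw [kd_mk] at h0 ⊢
  exact mem_kNul.2 ⟨h0, fun J => ((mem_kNul.1 ha).2 J).d (SmN.of_smS (hc J))⟩

theorem kNul_δ : G.Up (C.kδ X T α β) (C.kNul X T α β) (C.kNul X T α β) := by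
  intro n x a ha
  have h0 := C.kδ_mem X T α β n a ha.1
  obtain ⟨c, hc, rfl⟩ := a.surj
  rw [kδ_mk] at h0 ⊢
  exact mem_kNul.2 ⟨h0, fun J => (NulN.sum _ fun i _ =>
    (((mem_kNul.1 ha).2 _).anti (C.SJ_erase X T β i) subset_rfl).smul _).eps⟩

theorem kNul_e (c : ℕ) : G.Keep (C.ke X T α β c) (C.kNul X T α β) := by
  intro n x a ha
  have h0 := C.ke_mem X T α β c n a ha.1
  obtain ⟨f, hf, rfl⟩ := a.surj
  rw [ke_mk] at h0 ⊢
  refine mem_kNul.2 ⟨h0, fun J => ?_⟩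
  split_ifs
  exacts [(mem_kNul.1 ha).2 J, NulN.zero]

theorem kNul_κ : G.Keep (C.kκ X T α β) (C.kNul X T α β) := by
  intro n x a ha
  have h0 := C.kκ_mem X T α β n a ha.1
  obtain ⟨c, hc, rfl⟩ := a.surj
  rw [kκ_mk] at h0 ⊢
  exact mem_kNul.2 ⟨h0, fun J => ((mem_kNul.1 ha).2 J).conj⟩

/-- separation along the stratum -/
theorem kNul_sep' {a : C.K X T α β} {n : ℤ}
    (h : ∀ x : X, x.1 ∈ St X C.D T → a ∈ C.kNul X T α β n x) : a = 0 := by
  obtain ⟨c, hc, rfl⟩ := a.surj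
  exact Fam.mk_eq_zero.2 fun J => NulN.glob fun x hx =>
    (mem_kNul.1 (h ⟨x, SJ_X J hx⟩ (SJ_sub J hx))).2 J

theorem kNul_sep (n : ℤ) (a : C.K X T α β) (h : ∀ x, a ∈ C.kNul X T α β n x) : a = 0 :=
  C.kNul_sep' X T α β fun x _ => h x

/-- the double complex -/
def kdc [Fintype ι] : G.DC ℤ (C.K X T α β) where
  d := C.kd X T α β
  δ := C.kδ X T α β
  e := C.ke X T α β
  C := Fintype.card ι + 1
  Dg := C.kDg X T α β
  dd := C.kd_kd X T α β
  dδ := C.kd_kδ X T α β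
  δδ := C.kδ_kδ X T α β
  sum_e := C.sum_ke X T α β
  ee := C.ke_ke X T α β
  ee' := C.ke_ke' X T α β
  ed := C.ke_kd X T α β
  eδ := C.ke_kδ X T α β
  eδ0 := C.ke_kδ0 X T α β
  d_mem := C.kd_mem X T α β
  δ_mem := C.kδ_mem X T α β
  e_mem := C.ke_mem X T α β
  neg := C.ke_neg X T α β

end Ctx

end Pool.Agent.PWD
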