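import Pool.Agent.P.MP_65ad7c_ag.DK1

/-! The double complex `K(T, α, β)` and the cut-off operators. -/

open Set Filter Topology
open scoped ContDiff

noncomputable section
namespace Pool.Agent.PWD

variable {V : Type} [NormedAddCommGroup V] [NormedSpace ℝ V] {ι : Type} [LinearOrder ι]

theorem cobG_apply_DK2a (c : Finset ι → GF V) (J : Finset ι) (n : ℕ) (x : V) (v : Fin n → V) :
    cobG c J n x v = (-1 : ℂ) ^ n *
      ∑ i ∈ J, (-1 : ℂ) ^ (J.filter (· < i)).card * c (J.erase i) n x v := by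
  simp [cobG, epsG, Finset.sum_apply, ContinuousAlternatingMap.sum_apply]

theorem sign_DK2a {J : Finset ι} {i j : ι} (hi : i ∈ J) (h : i < j) :
    (-1 : ℂ) ^ (J.filter (· < i)).card * (-1 : ℂ) ^ ((J.erase i).filter (· < j)).card =
      -((-1 : ℂ) ^ (J.filter (· < j)).card * (-1 : ℂ) ^ ((J.erase j).filter (· < i)).card) := by
  rw [Finset.filter_erase, Finset.filter_erase,
    Finset.erase_eq_of_notMem (s := J.filter (· < i)) (a := j)
      (fun hj => lt_asymm h (Finset.mem_filter.1 hj).2),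
    ← Finset.card_erase_add_one (s := J.filter (· < j)) (a := i) (Finset.mem_filter.2 ⟨hi, h⟩)]
  ring

theorem sum_DK2a (J : Finset ι) (F : Finset ι → ℂ) :
    ∑ i ∈ J, (-1 : ℂ) ^ (J.filter (· < i)).card * ∑ j ∈ J.erase i,
      (-1 : ℂ) ^ ((J.erase i).filter (· < j)).card * F ((J.erase i).erase j) = 0 := by
  set a : ι → ι → ℂ := fun i j => (-1 : ℂ) ^ (J.filter (· < i)).card *
    ((-1 : ℂ) ^ ((J.erase i).filter (· < j)).card * F ((J.erase i).erase j)) with ha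
  have h1 : ∀ i ∈ J, ∀ j ∈ J.erase i, a j i = -a i j := by
    intro i hi j hj
    obtain ⟨hne, hj'⟩ := Finset.mem_erase.1 hj
    simp only [ha]
    rw [Finset.erase_right_comm (a := j) (b := i), ← mul_assoc, ← mul_assoc]
    rcases lt_or_gt_of_ne hne with h | h
    · rw [sign_DK2a hj' h]; ring
    · rw [sign_DK2a hi h]; ring
  have h2 : ∑ i ∈ J, ∑ j ∈ J.erase i, a i j = ∑ j ∈ J, ∑ i ∈ J.erase j, a i j :=
    Finset.sum_comm' fun i j => by
      simp only [Finset.mem_erase]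
      exact ⟨fun h => ⟨⟨h.2.1.symm, h.1⟩, h.2.2⟩, fun h => ⟨h.1.2, h.1.1.symm, h.2⟩⟩
  have h3 : ∑ j ∈ J, ∑ i ∈ J.erase j, a i j = -∑ i ∈ J, ∑ j ∈ J.erase i, a i j := by
    rw [← Finset.sum_neg_distrib]
    refine Finset.sum_congr rfl fun i hi => ?_
    rw [← Finset.sum_neg_distrib]
    exact Finset.sum_congr rfl fun j hj => h1 i hi j hj
  have h4 : ∑ i ∈ J, ∑ j ∈ J.erase i, a i j = 0 := by
    rw [← h2] at h3
    linear_combination h3 / 2
  rw [← h4]
  exact Finset.sum_congr rfl fun i _ => Finset.mul_sum _ _ _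

theorem cobG_cobG (c : Finset ι → GF V) : cobG (cobG c) = 0 := by
  funext J n x
  ext v
  have h := sum_DK2a J fun K => c K n x v
  rw [cobG_apply_DK2a]
  simp only [cobG_apply_DK2a]
  have h2 : ∀ i ∈ J, (-1 : ℂ) ^ (J.filter (· < i)).card * ((-1 : ℂ) ^ n * ∑ j ∈ J.erase i,
      (-1 : ℂ) ^ ((J.erase i).filter (· < j)).card * c ((J.erase i).erase j) n x v) =
      (-1 : ℂ) ^ n * ((-1 : ℂ) ^ (J.filter (· < i)).card * ∑ j ∈ J.erase i,
      (-1 : ℂ) ^ ((J.erase i).filter (· < j)).card * c ((J.erase i).erase j) n x v) :=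
    fun i _ => by ring
  rw [Finset.sum_congr rfl h2, ← Finset.mul_sum, h]
  simp

theorem prjZ_cobG (n : ℤ) (c : Finset ι → GF V) (J : Finset ι) :
    prjZ (n + 1 - J.card) (cobG c J) = cobG (fun J => prjZ (n - J.card) (c J)) J := by
  funext m x
  ext v
  have h1 : ∀ i ∈ J, (n - ((J.erase i).card : ℤ)) = n + 1 - J.card := fun i hi => by
    have := Finset.card_erase_add_one hi
    omega
  rw [cobG_apply_DK2a]
  by_cases h : (m : ℤ) = n + 1 - J.card
  · have h2 : prjZ (n + 1 - J.card) (cobG c J) m = cobG c J m := if_pos h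
    rw [h2, cobG_apply_DK2a]
    congr 1
    refine Finset.sum_congr rfl fun i hi => ?_
    have h3 : prjZ (n - (J.erase i).card) (c (J.erase i)) m = c (J.erase i) m :=
      if_pos (h.trans (h1 i hi).symm)
    rw [h3]
  · have h2 : prjZ (n + 1 - J.card) (cobG c J) m = 0 := if_neg h
    rw [h2, Finset.sum_eq_zero fun i hi => ?_]
    · simp
    · have h3 : prjZ (n - (J.erase i).card) (c (J.erase i)) m = 0 :=
        if_neg fun e => h (e.trans (h1 i hi))
      rw [h3]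
      simp

theorem conjG_cobG_DK2a (c : Finset ι → GF V) (J : Finset ι) :
    conjG (cobG c J) = cobG (fun J => conjG (c J)) J := by
  funext n x
  ext v
  have h : ∀ f : GF V, conjG f n x v = starRingEnd ℂ (f n x v) := fun f => rfl
  rw [h, cobG_apply_DK2a, cobG_apply_DK2a]
  simp [h]

theorem cobG_ite_DK2a (c : Finset ι → GF V) (k : ℕ) (J : Finset ι) :
    cobG (fun J => if J.card = k then c J else 0) J = if J.card = k + 1 then cobG c J else 0 := by
  funext n x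
  ext v
  rw [cobG_apply_DK2a]
  split_ifs with h
  · rw [cobG_apply_DK2a]
    congr 1
    refine Finset.sum_congr rfl fun i hi => ?_
    have := Finset.card_erase_add_one hi
    rw [if_pos (by omega)]
  · rw [Finset.sum_eq_zero fun i hi => ?_]
    · simp
    · have := Finset.card_erase_add_one hi
      rw [if_neg (by omega)]
      simp

omit [LinearOrder ι] in
theorem van_eq_DK2a {S : Finset ι → Set V} {c c' : Finset ι → GF V} (h : ∀ J, c J = c' J) :
    VanK S (c - c') := fun J => by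
  show VanG _ (c J - c' J)
  rw [h J, sub_self]
  exact VanG.zero

omit [LinearOrder ι] in
theorem mk_sum_DK2a {S : Finset ι → Set V} (s : Finset ℕ) (c : ℕ → Finset ι → GF V)
    (h : ∀ k, SmK S (c k)) :
    ∑ k ∈ s, Fam.mk (c k) (h k) = Fam.mk (∑ k ∈ s, c k)
      (Finset.sum_induction c (SmK S) (fun _ _ => SmK.add) SmK.zero fun k _ => h k) := by
  induction s using Finset.induction_on with
  | empty => rfl
  | insert k s hk ih =>
    rw [Finset.sum_insert hk, ih, Fam.mk_add]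
    exact Fam.mk_eq.2 (van_eq_DK2a fun J => by rw [Finset.sum_insert hk])

namespace Ctx
section
variable {C : Ctx V ι} {X : Set V} {T α β : Finset ι} {c : Finset ι → GF V}

theorem smd_DK2a (hc : SmK (C.SK X T α β) c) : SmK (C.SK X T α β) fun J => dG (c J) :=
  fun J => (hc J).d
theorem smc_DK2a (hc : SmK (C.SK X T α β) c) : SmK (C.SK X T α β) fun J => conjG (c J) :=
  fun J => (hc J).conj
theorem kd_mk_DK2a {hc : SmK (C.SK X T α β) c} :
    C.kd X T α β (Fam.mk c hc) = Fam.mk (fun J => dG (c J)) (smd_DK2a hc) := kd_mk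
theorem kκ_mk_DK2a {hc : SmK (C.SK X T α β) c} :
    C.kκ X T α β (Fam.mk c hc) = Fam.mk (fun J => conjG (c J)) (smc_DK2a hc) := kκ_mk
end

variable (C : Ctx V ι) (X : Set V) (T α β : Finset ι)

theorem kd_kd (a : C.K X T α β) : C.kd X T α β (C.kd X T α β a) = 0 := by
  obtain ⟨c, hc, rfl⟩ := a.surj
  rw [kd_mk_DK2a, kd_mk_DK2a]
  exact Fam.mk_eq_zero.2 fun J => VanG.dd (hc J)
theorem kd_kδ (a : C.K X T α β) :
    C.kd X T α β (C.kδ X T α β a) + C.kδ X T α β (C.kd X T α β a) = 0 := by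
  obtain ⟨c, hc, rfl⟩ := a.surj
  rw [kδ_mk, kd_mk_DK2a, kd_mk_DK2a, kδ_mk, Fam.mk_add]
  refine Fam.mk_eq_zero.2 fun J => ?_
  have h := (VanG.d_sum J (f := fun i => (-1 : ℂ) ^ (J.filter (· < i)).card • c (J.erase i))
    fun i _ => ((hc _).anti (sdiff_subset_sdiff_left (C.SJ_erase X T β i))).smul _).eps.neg
  refine h.congr fun n x _ => ?_
  show (dG (cobG c J) + cobG (fun J => dG (c J)) J) n x = _
  simp only [cobG, dG_epsG, dG_smul]
  ext v
  simp [epsG]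
  ring
theorem kδ_kδ (a : C.K X T α β) : C.kδ X T α β (C.kδ X T α β a) = 0 := by
  obtain ⟨c, hc, rfl⟩ := a.surj
  rw [kδ_mk, kδ_mk]
  refine Fam.mk_eq_zero.2 fun J => ?_
  rw [cobG_cobG]
  exact VanG.zero
theorem kD_kD (a : C.K X T α β) : C.kD X T α β (C.kD X T α β a) = 0 := by
  have h := C.kd_kδ X T α β a
  simp only [kD, LinearMap.add_apply, map_add, kd_kd, kδ_kδ, zero_add, add_zero]
  first | exact h | (rw [add_comm]; exact h)
theorem sum_ke [Fintype ι] (a : C.K X T α β) :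
    ∑ c ∈ Finset.range (Fintype.card ι + 1), C.ke X T α β c a = a := by
  obtain ⟨c, hc, rfl⟩ := a.surj
  simp only [ke_mk]
  rw [mk_sum_DK2a]
  refine Fam.mk_eq.2 (van_eq_DK2a fun J => ?_)
  rw [Finset.sum_apply, Finset.sum_ite_eq,
    if_pos (Finset.mem_range.2 (Nat.lt_succ_of_le (Finset.card_le_univ J)))]
theorem ke_ke (c : ℕ) (a : C.K X T α β) : C.ke X T α β c (C.ke X T α β c a) = C.ke X T α β c a := by
  obtain ⟨g, hg, rfl⟩ := a.surj
  rw [ke_mk, ke_mk]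
  refine Fam.mk_eq.2 (van_eq_DK2a fun J => ?_)
  split_ifs <;> rfl
theorem ke_ke' (c c' : ℕ) (a : C.K X T α β) (h : c ≠ c') :
    C.ke X T α β c (C.ke X T α β c' a) = 0 := by
  obtain ⟨g, hg, rfl⟩ := a.surj
  rw [ke_mk, ke_mk]
  refine Fam.mk_eq_zero.2 fun J => ?_
  show VanG _ (if J.card = c then (if J.card = c' then g J else 0) else 0)
  split_ifs with h1 h2
  · exact absurd (h1.symm.trans h2) h
  · exact VanG.zero
  · exact VanG.zero
theorem ke_kd (c : ℕ) (a : C.K X T α β) :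
    C.ke X T α β c (C.kd X T α β a) = C.kd X T α β (C.ke X T α β c a) := by
  obtain ⟨g, hg, rfl⟩ := a.surj
  rw [kd_mk_DK2a, ke_mk, ke_mk, kd_mk_DK2a]
  refine Fam.mk_eq.2 (van_eq_DK2a fun J => ?_)
  split_ifs
  · rfl
  · exact dG_zero.symm
theorem ke_kδ (c : ℕ) (a : C.K X T α β) :
    C.ke X T α β (c + 1) (C.kδ X T α β a) = C.kδ X T α β (C.ke X T α β c a) := by
  obtain ⟨g, hg, rfl⟩ := a.surj
  rw [kδ_mk, ke_mk, ke_mk, kδ_mk]
  exact Fam.mk_eq.2 (van_eq_DK2a fun J => (cobG_ite_DK2a g c J).symm)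
theorem ke_kδ0 (a : C.K X T α β) : C.ke X T α β 0 (C.kδ X T α β a) = 0 := by
  obtain ⟨g, hg, rfl⟩ := a.surj
  rw [kδ_mk, ke_mk]
  refine Fam.mk_eq_zero.2 fun J => ?_
  show VanG _ (if J.card = 0 then cobG g J else 0)
  split_ifs with h1
  · rw [Finset.card_eq_zero.1 h1, cobG, Finset.sum_empty]
    exact VanG.zero.eps
  · exact VanG.zero
theorem kd_mem (n : ℤ) : ∀ a ∈ C.kDg X T α β n, C.kd X T α β a ∈ C.kDg X T α β (n + 1) := by
  intro a ha
  obtain ⟨g, hg, rfl, e⟩ := Fam.deg_surj ha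
  rw [kd_mk_DK2a]
  refine Fam.mem_deg_of fun J => ?_
  rw [show n + 1 - (J.card : ℤ) = n - J.card + 1 by ring, prjZ_dG, e]
theorem kδ_mem (n : ℤ) : ∀ a ∈ C.kDg X T α β n, C.kδ X T α β a ∈ C.kDg X T α β (n + 1) := by
  intro a ha
  obtain ⟨g, hg, rfl, e⟩ := Fam.deg_surj ha
  rw [kδ_mk]
  refine Fam.mem_deg_of fun J => ?_
  rw [prjZ_cobG, funext e]
theorem ke_mem (c : ℕ) (n : ℤ) : ∀ a ∈ C.kDg X T α β n, C.ke X T α β c a ∈ C.kDg X T α β n := by
  intro a ha
  obtain ⟨g, hg, rfl, e⟩ := Fam.deg_surj ha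
  rw [ke_mk]
  refine Fam.mem_deg_of fun J => ?_
  split_ifs
  · exact e J
  · exact prjZ_zero _
theorem ke_neg (c : ℕ) (n : ℤ) (h : n < c) : ∀ a ∈ C.kDg X T α β n, C.ke X T α β c a = 0 := by
  intro a ha
  obtain ⟨g, hg, rfl, e⟩ := Fam.deg_surj ha
  rw [ke_mk]
  refine Fam.mk_eq_zero.2 fun J => ?_
  show VanG _ (if J.card = c then g J else 0)
  split_ifs with h1
  · rw [← e J, prjZ_neg (by omega)]
    exact VanG.zero
  · exact VanG.zero
theorem kDg_neg : ∀ n < 0, C.kDg X T α β n ≤ ⊥ := by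
  intro n hn a ha
  obtain ⟨g, hg, rfl, e⟩ := Fam.deg_surj ha
  refine (Submodule.mem_bot ℤ).2 (Fam.mk_eq_zero.2 fun J => ?_)
  rw [← e J, prjZ_neg (by omega)]
  exact VanG.zero
theorem kκ_kκ (a : C.K X T α β) : C.kκ X T α β (C.kκ X T α β a) = a := by
  obtain ⟨g, hg, rfl⟩ := a.surj
  rw [kκ_mk_DK2a, kκ_mk_DK2a]
  exact Fam.mk_eq.2 (van_eq_DK2a fun J => conjG_conjG _)
theorem kκ_kd (a : C.K X T α β) :
    C.kκ X T α β (C.kd X T α β a) = C.kd X T α β (C.kκ X T α β a) := by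
  obtain ⟨g, hg, rfl⟩ := a.surj
  rw [kd_mk_DK2a, kκ_mk_DK2a, kκ_mk_DK2a, kd_mk_DK2a]
  exact Fam.mk_eq.2 (van_eq_DK2a fun J => (dG_conjG _).symm)
theorem kκ_kδ (a : C.K X T α β) :
    C.kκ X T α β (C.kδ X T α β a) = C.kδ X T α β (C.kκ X T α β a) := by
  obtain ⟨g, hg, rfl⟩ := a.surj
  rw [kδ_mk, kκ_mk_DK2a, kκ_mk_DK2a, kδ_mk]
  exact Fam.mk_eq.2 (van_eq_DK2a fun J => conjG_cobG_DK2a g J)
theorem kκ_ke (c : ℕ) (a : C.K X T α β) :
    C.kκ X T α β (C.ke X T α β c a) = C.ke X T α β c (C.kκ X T α β a) := by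
  obtain ⟨g, hg, rfl⟩ := a.surj
  rw [ke_mk, kκ_mk_DK2a, kκ_mk_DK2a, ke_mk]
  refine Fam.mk_eq.2 (van_eq_DK2a fun J => ?_)
  split_ifs
  · rfl
  · funext n x
    ext v
    simp [conjG]
theorem kκ_mem (n : ℤ) : ∀ a ∈ C.kDg X T α β n, C.kκ X T α β a ∈ C.kDg X T α β n := by
  intro a ha
  obtain ⟨g, hg, rfl, e⟩ := Fam.deg_surj ha
  rw [kκ_mk_DK2a]
  refine Fam.mem_deg_of fun J => ?_
  rw [prjZ_conjG, e]
/-- an element of column `k` has a homogeneous representative in column `k` -/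
theorem col_surj {k : ℕ} {n : ℤ} {a : C.K X T α β} (ha : a ∈ C.kDg X T α β n)
    (he : C.ke X T α β k a = a) : ∃ c hc, Fam.mk c hc = a ∧ (∀ J, prjZ (n - k) (c J) = c J) ∧
      ∀ J : Finset ι, J.card ≠ k → c J = 0 := by
  obtain ⟨g, hg, rfl, e⟩ := Fam.deg_surj ha
  rw [ke_mk] at he
  refine ⟨_, _, he, fun J => ?_, fun J hJ => if_neg hJ⟩
  split_ifs with h1
  · rw [← h1]; exact e J
  · exact prjZ_zero _

end Ctx

end Pool.Agent.PWD
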