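import Pool.Agent.P.MP_65ad7c_ag.DK3a

/-! The weight and type filtrations on `K(T, α, β)`. -/

open Set Filter Topology
open scoped ContDiff

noncomputable section
namespace Pool.Agent.PWD.Ctx

variable {V : Type} [NormedAddCommGroup V] [NormedSpace ℝ V] {ι : Type} [LinearOrder ι]
  {C : Ctx V ι} {X : Set V} {T α β : Finset ι}

namespace Tri
variable (h : C.Tri X T α β)
include h

omit h in
theorem fn_iff_DK3 {p : ℕ} {J : Finset ι} {f : GF V} :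
    TyV C.J (C.SK X T α β J) p f ↔ ∀ x : X, C.FN (C.SJ X T β J) α p x f :=
  ⟨fun k _ => FN.of_ty k, fun k => FN.glob fun x hx => k ⟨x, SJ_X J hx⟩⟩

theorem gam_FL (p n : ℤ) : C.kDg X T α β n ⊓ G.Gam (C.kFL X T α β p) n = C.kF X T α β p n := by
  ext a
  obtain ⟨c, hc, rfl⟩ := a.surj
  rw [Submodule.mem_inf, h.mem_kF, G.Gam, Submodule.mem_iInf]
  refine and_congr_right fun hd => ⟨fun k J => fn_iff_DK3.2 fun x => (h.mem_kFL.1 (k x)).2 J,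
    fun k x => h.mem_kFL.2 ⟨hd, fun J => fn_iff_DK3.1 (k J) x⟩⟩
theorem FL_opn (p : ℤ) : G.Opn (C.kFL X T α β p) := by
  intro n x a ha
  obtain ⟨c, hc, rfl⟩ := a.surj
  obtain ⟨hd, k⟩ := h.mem_kFL.1 ha
  have e : ∀ᶠ y in 𝓝 x.1, ∀ J ∈ β.powerset, C.FN (C.SJ X T β J) α p.toNat y (c J) :=
    (eventually_all_finset _).2 fun J _ => (k J).ev
  filter_upwards [continuous_subtype_val.continuousAt.eventually e] with y hy
  refine h.mem_kFL.2 ⟨hd, fun J => ?_⟩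
  by_cases hJ : J ⊆ β
  · exact hy J (Finset.mem_powerset.2 hJ)
  · rw [SJ_of_not hJ]
    exact FN.of_notMem isClosed_empty (notMem_empty _) _
theorem FL_d (p : ℤ) : G.Up (C.kd X T α β) (C.kFL X T α β p) (C.kFL X T α β p) := by
  intro n x a ha
  obtain ⟨c, hc, rfl⟩ := a.surj
  obtain ⟨hd, k⟩ := h.mem_kFL.1 ha
  have hd' := C.kd_mem X T α β n _ hd
  rw [kd_mk] at hd' ⊢
  exact h.mem_kFL.2 ⟨hd', fun J => (h.loc J x).fn_d (SmN.of_smS (hc J)) (k J)⟩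
theorem FL_cut (p : ℤ) : ∀ m ∈ Fam.cuts _, G.Keep m (C.kFL X T α β p) := by
  rintro _ ⟨χ, hχ, rfl⟩ n x a ha
  obtain ⟨c, hc, rfl⟩ := a.surj
  obtain ⟨hd, k⟩ := h.mem_kFL.1 ha
  rw [Fam.map_mk]
  refine h.mem_kFL.2 ⟨mem_kDg.2 fun J => ?_, fun J => (k J).mul χ⟩
  have := (mem_kDg.1 hd J).mul χ
  refine this.congr fun m y _ => ?_
  rw [prjZ_mulG]
  exact (smul_sub (χ y) _ _).symm
theorem nul_FL (p n : ℤ) (x : X) : C.kNul X T α β n x ≤ C.kFL X T α β p n x := by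
  intro a ha
  obtain ⟨c, hc, rfl⟩ := a.surj
  obtain ⟨hd, k⟩ := mem_kNul.1 ha
  exact h.mem_kFL.2 ⟨hd, fun J => (h.loc J x).fn_nul (k J)⟩
theorem F_d (p : ℤ) : G.Cx (C.kd X T α β) (C.kF X T α β p) := by
  intro n a ha
  rw [← h.gam_FL] at ha ⊢
  exact ⟨C.kd_mem X T α β n _ ha.1, (Submodule.mem_iInf _).2 fun x =>
    h.FL_d p n x a ((Submodule.mem_iInf _).1 ha.2 x)⟩
theorem F_δ (p : ℤ) : G.Cx (C.kδ X T α β) (C.kF X T α β p) := by
  intro n a ha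
  obtain ⟨c, hc, rfl⟩ := a.surj
  obtain ⟨hd, k⟩ := h.mem_kF.1 ha
  have hd' := C.kδ_mem X T α β n _ hd
  rw [kδ_mk] at hd' ⊢
  refine h.mem_kF.2 ⟨hd', fun J => fn_iff_DK3.2 fun x => ?_⟩
  exact (FN.sum _ fun i _ => ((fn_iff_DK3.1 (k _) x).anti (C.SJ_erase X T β i)
    subset_rfl).smul _).eps
theorem FL_cx (p q : ℤ) : G.Cx (C.kD X T α β) (C.kF X T α β p ⊓ G.Gam (C.kW X T α β q)) := by
  intro n a ha
  have hw := (Submodule.mem_iInf _).1 ha.2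
  exact ⟨add_mem (h.F_d p n a ha.1) (h.F_δ p n a ha.1), (Submodule.mem_iInf _).2 fun x =>
    add_mem (h.W_d q n x a (hw x)) (h.W_mono q _ x (h.W_δ q n x a (hw x)))⟩
theorem F_anti (p n : ℤ) : C.kF X T α β (p + 1) n ≤ C.kF X T α β p n := by
  intro a ha
  obtain ⟨c, hc, rfl⟩ := a.surj
  obtain ⟨hd, k⟩ := h.mem_kF.1 ha
  exact h.mem_kF.2 ⟨hd, fun J => fn_iff_DK3.2 fun x =>
    (h.loc J x).fn_mono (by omega) (fn_iff_DK3.1 (k J) x)⟩
theorem F_top (n : ℤ) : C.kDg X T α β n ≤ C.kF X T α β 0 n := by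
  intro a ha
  obtain ⟨c, hc, rfl⟩ := a.surj
  exact h.mem_kF.2 ⟨ha, fun J => fn_iff_DK3.2 fun x => (h.loc J x).fn_zero _⟩
theorem F_bot (n : ℤ) : C.kF X T α β (n + 1) n ⊓ C.kDg X T α β n ≤ ⊥ := by
  intro a ha
  obtain ⟨c, hc, rfl, e⟩ := Fam.deg_surj ha.2
  obtain ⟨-, k⟩ := h.mem_kF.1 ha.1
  refine (Submodule.mem_bot _).2 (Fam.mk_eq_zero.2 fun J m => ?_)
  by_cases hm : (m : ℤ) = n - J.card
  · have := k J m
    simp only [tyA_big _ (show m < (n + 1).toNat by omega)] at this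
    exact this
  · have : c J m = 0 := by
      rw [← e J]
      exact if_neg hm
    rw [this]
    exact VanG.zero m

end Tri

end Pool.Agent.PWD.Ctx
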