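import Pool.Agent.P.MP_65ad7c_ag.DM0

/-! Residues and types at one point of one stratum. -/

open Set Filter Topology
open scoped ContDiff

noncomputable section
namespace Pool.Agent.PWD.Ctx

variable {V : Type} [NormedAddCommGroup V] [NormedSpace ℝ V] {ι : Type} [LinearOrder ι]
  {C : Ctx V ι} {X S O : Set V} {T α β : Finset ι} {x : V} {f g : GF V} {w p : ℕ}
  {r r' : Finset ι → GF V}

omit [NormedAddCommGroup V] [NormedSpace ℝ V] [LinearOrder ι] in
theorem pc_DM1 {q : ℕ} {P : Finset ι → Prop} :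
    (∀ I ⊆ α, I.card + 1 = q + 1 → P I) ↔ ∀ I ∈ α.powersetCard q, P I :=
  ⟨fun k I hI => k I (Finset.mem_powersetCard.1 hI).1 (by rw [(Finset.mem_powersetCard.1 hI).2]),
    fun k I h1 h2 => k I (Finset.mem_powersetCard.2 ⟨h1, by omega⟩)⟩

namespace Loc
variable (h : C.Loc S α x)
include h

theorem clSt_DM1 (I : Finset ι) : IsClosed (St S C.D I) :=
  h.cl.inter (isClosed_biInter fun i _ => h.clD i)

theorem rh_out_DM1 (hx : x ∉ S) (e : ι → V → ℂ) (q : ℕ) (f : GF V) (r : Finset ι → GF V) :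
    C.RH S α e q x f r :=
  RH.of_wn (WN.of_nul (NulN.of_notMem h.cl hx f))
    fun I _ => NulN.of_notMem (h.clSt_DM1 I) (fun k => hx k.1) _

theorem rn_out_DM1 (hx : x ∉ S) (w : ℕ) (f : GF V) (r : Finset ι → GF V) :
    C.RN S α w x f r := by
  cases w with
  | zero => exact NulN.of_notMem h.cl hx f
  | succ q =>
    obtain ⟨e, he⟩ := h.eqs
    exact ⟨e, he, h.rh_out_DM1 hx e q f r⟩

theorem common_DM1 : ∃ e, C.Eqs α x e ∧
    ∀ q f r, C.RN S α (q + 1) x f r → C.RH S α e q x f r := by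
  by_cases hx : x ∈ S
  · obtain ⟨e, he⟩ := h.lt hx
    exact ⟨e, he.eqs, fun q f r ⟨e', k1, k2⟩ => he.ind e' q f r k1 k2⟩
  · obtain ⟨e, he⟩ := h.eqs
    exact ⟨e, he, fun q f r _ => h.rh_out_DM1 hx e q f r⟩

theorem rn_wn (hf : C.RN S α w x f r) : C.WN S α w x f := by
  cases w with
  | zero => exact WN.of_nul hf
  | succ q =>
    obtain ⟨e, k1, k2⟩ := hf
    exact k2.wn h.ok k1
theorem rn_of_wn (hf : C.WN S α (w - 1) x f)
    (hr : ∀ I ⊆ α, I.card + 1 = w → C.NulN (St S C.D I) ∅ x (r I)) : C.RN S α w x f r := by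
  cases w with
  | zero => exact WN.nul hf
  | succ q =>
    obtain ⟨e, he⟩ := h.eqs
    exact ⟨e, he, RH.of_wn hf (pc_DM1.1 hr)⟩
theorem rn_add (hf : C.RN S α w x f r) (hg : C.RN S α w x g r') :
    C.RN S α w x (f + g) (r + r') := by
  cases w with
  | zero => exact NulN.add hf hg
  | succ q =>
    obtain ⟨e, he, k⟩ := h.common_DM1
    exact ⟨e, he, (k q f r hf).add h.ok (k q g r' hg)⟩
theorem rn_smul (c : ℂ) (hf : C.RN S α w x f r) : C.RN S α w x (c • f) (c • r) := by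
  have := h.ok
  cases w with
  | zero => exact NulN.smul c hf
  | succ q =>
    obtain ⟨e, k1, k2⟩ := hf
    exact ⟨e, k1, k2.smul c⟩
theorem rn_neg (hf : C.RN S α w x f r) : C.RN S α w x (-f) (-r) := by
  have k := h.rn_smul (-1) hf
  rwa [negG, show (-1 : ℂ) • r = -r from funext fun I => negG (r I)] at k
theorem rn_sub (hf : C.RN S α w x f r) (hg : C.RN S α w x g r') :
    C.RN S α w x (f - g) (r - r') := by
  rw [sub_eq_add_neg, sub_eq_add_neg]
  exact h.rn_add hf (h.rn_neg hg)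
theorem rn_congr (hf : C.RN S α w x f r) (h1 : C.WN S α (w - 1) x (g - f))
    (h2 : ∀ I ⊆ α, I.card + 1 = w → C.NulN (St S C.D I) ∅ x (r' I - r I)) :
    C.RN S α w x g r' := by
  cases w with
  | zero => exact NulN.of_sub (WN.nul h1) hf
  | succ q =>
    obtain ⟨e, k1, k2⟩ := hf
    exact ⟨e, k1, k2.congr h.ok h1 (pc_DM1.1 h2)⟩
theorem rn_sm (hf : C.RN S α w x f r) : ∃ r' : Finset ι → GF V, (∀ I, C.SmN univ ∅ x (r' I)) ∧
    ∀ I ⊆ α, I.card + 1 = w → C.NulN (St S C.D I) ∅ x (r I - r' I) := by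
  have := h.ok
  cases w with
  | zero => exact ⟨0, fun _ => SmN.zero, fun I _ k => by omega⟩
  | succ q =>
    obtain ⟨e, -, k2⟩ := hf
    obtain ⟨r', k3, k4⟩ := k2.sm
    exact ⟨r', k3, pc_DM1.2 k4⟩
theorem rn_d (hf : C.RN S α w x f r) (h1 : C.SmN S α x f)
    (h2 : ∀ I ⊆ α, I.card + 1 = w → C.SmN (St S C.D I) ∅ x (r I)) :
    C.RN S α w x (dG f) fun I => (-1 : ℂ) ^ I.card • dG (r I) := by
  cases w with
  | zero => exact NulN.d hf h1
  | succ q =>
    obtain ⟨e, k1, k2⟩ := hf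
    refine ⟨e, k1, (k2.d h.ok k1 h1 (pc_DM1.1 h2)).congr h.ok ?_ fun I hI => ?_⟩
    · rw [sub_self]
      exact WN.of_nul NulN.zero
    · rw [(Finset.mem_powersetCard.1 hI).2, sub_self]
      exact NulN.zero
theorem rn_mul {χ : V → ℂ} (hχ : ContDiff ℝ ∞ χ) (hf : C.RN S α w x f r) :
    C.RN S α w x (mulG χ f) fun I => mulG χ (r I) := by
  cases w with
  | zero => exact NulN.mul χ hf
  | succ q =>
    obtain ⟨e, k1, k2⟩ := hf
    exact ⟨e, k1, k2.mul h.ok isOpen_univ (mem_univ x) hχ.contDiffOn⟩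
theorem rn_prjZ (z : ℤ) (hf : C.RN S α w x f r) :
    C.RN S α w x (prjZ z f) fun I => prjZ (z - I.card) (r I) := by
  cases w with
  | zero => exact NulN.prjZ z hf
  | succ q =>
    obtain ⟨e, k1, k2⟩ := hf
    refine ⟨e, k1, ?_⟩
    rcases lt_or_ge z q with hz | hz
    · refine RH.of_wn ?_ fun I hI => ?_
      · rcases prjZ_cases z f with e1 | ⟨m, e1, e2⟩
        · rw [e1]
          exact WN.of_nul NulN.zero
        · rw [e2]
          exact k2.prj_lt (by omega)
      · rw [(Finset.mem_powersetCard.1 hI).2, prjZ_neg (by omega)]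
        exact NulN.zero
    · obtain ⟨n, hn⟩ : ∃ n : ℕ, z = ((n + q : ℕ) : ℤ) := ⟨(z - q).toNat, by omega⟩
      refine (k2.prj n).congr h.ok ?_ fun I hI => ?_
      · rw [hn, prjZ_nat, sub_self]
        exact WN.of_nul NulN.zero
      · rw [(Finset.mem_powersetCard.1 hI).2, show z - q = (n : ℤ) by omega, prjZ_nat, sub_self]
        exact NulN.zero
/-- the kernel of the residue -/
theorem rn_ker (hf : C.RN S α w x f r) : C.WN S α (w - 1) x f ↔
    ∀ I ⊆ α, I.card + 1 = w → C.NulN (St S C.D I) ∅ x (r I) := by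
  cases w with
  | zero => exact ⟨fun _ I _ k => by omega, fun _ => WN.of_nul hf⟩
  | succ q =>
    by_cases hx : x ∈ S
    · obtain ⟨e, he⟩ := h.lt hx
      obtain ⟨e', k1, k2⟩ := hf
      have k := he.ind e' q f r k1 k2
      refine ⟨fun hw => pc_DM1.2 (he.resU q f r k hw), fun hr => ?_⟩
      obtain ⟨O, b, hO, hxO, hb, hw, hv⟩ := k
      have k3 : C.WN S α q x (∑ I ∈ α.powersetCard q, lgI e I (b I)) := by
        refine WN.sum h.ok _ fun I hI => ?_
        obtain ⟨O', hO', hxO', hv'⟩ := pc_DM1.1 hr I hI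
        rw [Off_empty, Set.sdiff_empty] at hv'
        obtain ⟨hI1, hI2⟩ := Finset.mem_powersetCard.1 hI
        rw [← hI2]
        refine he.resV I hI1 (O ∩ O') (b I) (hO.inter hO') ⟨hxO, hxO'⟩
          ((hb I).anti_DL2 inter_subset_left) ?_
        have k4 := (hv'.anti (inter_subset_inter_right _ inter_subset_right)).sub
          ((hv I hI).anti (inter_subset_inter_right _ (inter_subset_left (s := O) (t := O'))))
        rwa [sub_sub_cancel] at k4
      have k5 := hw.add h.ok k3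
      rwa [sub_add_cancel] at k5
    · exact ⟨fun _ I _ _ => NulN.of_notMem (h.clSt_DM1 I) (fun k => hx k.1) _,
        fun _ => WN.of_nul (NulN.of_notMem h.cl hx f)⟩
theorem rn_fn (hf : C.RN S α w x f r) (hp : C.FN S α p x f) :
    ∀ I ⊆ α, I.card + 1 = w → C.FN (St S C.D I) ∅ (p - I.card) x (r I) := by
  cases w with
  | zero => exact fun I _ k => by omega
  | succ q =>
    by_cases hx : x ∈ S
    · obtain ⟨e, he⟩ := h.lt hx
      obtain ⟨e', k1, k2⟩ := hf
      refine pc_DM1.2 fun I hI => ?_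
      rw [(Finset.mem_powersetCard.1 hI).2]
      exact he.resF q p f r (he.ind e' q f r k1 k2) hp I hI
    · exact fun I _ _ => FN.of_notMem (h.clSt_DM1 I) (fun k => hx k.1) _
/-- forms with given residues -/
theorem rn_lift (h1 : ∀ I ⊆ α, I.card + 1 = w → C.SmN (St S C.D I) ∅ x (r I))
    (h2 : ∀ I ⊆ α, I.card + 1 = w → C.FN (St S C.D I) ∅ (p - I.card) x (r I)) :
    ∃ f, C.SmN S α x f ∧ C.FN S α p x f ∧ C.RN S α w x f r := by
  cases w with
  | zero => exact ⟨0, SmN.zero, FN.zero, NulN.zero⟩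
  | succ q =>
    by_cases hx : x ∈ S
    · obtain ⟨e, he⟩ := h.lt hx
      have k : ∀ I : Finset ι, ∃ (O : Set V) (b : GF V), IsOpen O ∧ x ∈ O ∧ SmG O b ∧
          (I ∈ α.powersetCard q → VanG (St S C.D I ∩ O) (r I - b) ∧
            C.FN S α (p - I.card + I.card) x (lgI e I b)) ∧
          (I ∉ α.powersetCard q → b = 0) := fun I => by
        by_cases hI : I ∈ α.powersetCard q
        · obtain ⟨O, b, k1, k2, k3, k4⟩ := he.ext I (Finset.mem_powersetCard.1 hI).1 _ _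
            (pc_DM1.1 h1 I hI) (pc_DM1.1 h2 I hI)
          exact ⟨O, b, k1, k2, k3, fun _ => k4, fun k => absurd hI k⟩
        · exact ⟨univ, 0, isOpen_univ, mem_univ x, fun _ => contDiffOn_const,
            fun k => absurd k hI, fun _ => rfl⟩
      choose O b k1 k2 k3 k4 k5 using k
      refine ⟨∑ I ∈ α.powersetCard q, lgI e I (b I), SmN.sum _ fun I hI => ?_,
        FN.sum _ fun I hI => h.fn_mono (by omega) (k4 I hI).2, e, he.eqs,
        RH.mk_DL2 (O := ⋂ I ∈ α.powersetCard q, O I) (β := b)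
          (isOpen_biInter_finset fun I _ => k1 I) (mem_iInter₂.2 fun I _ => k2 I)
          (fun I => ?_) ?_ fun I hI => NulN.of_open_DL2 (k1 I) (k2 I) (k4 I hI).1⟩
      · exact (SmN.of_smG (k1 I) (k2 I) (k3 I)).lgI h.ok he.eqs (Finset.mem_powersetCard.1 hI).1
      · by_cases hI : I ∈ α.powersetCard q
        · exact (k3 I).anti_DL2 (biInter_subset_of_mem hI)
        · rw [k5 I hI]
          exact fun _ => contDiffOn_const
      · rw [sub_self]
        exact WN.of_nul NulN.zero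
    · exact ⟨0, SmN.zero, FN.zero, h.rn_out_DM1 hx _ _ _⟩
theorem rn_top {z : ℤ} (hf : C.WN S α w x f) (hz : z + 1 = w ∨ z < 0) :
    ∃ r, C.RN S α w x (prjZ z f) r := by
  rcases lt_or_ge z 0 with h0 | h0
  · rw [prjZ_neg h0]
    exact ⟨0, h.rn_of_wn (WN.of_nul NulN.zero) fun _ _ _ => NulN.zero⟩
  · have hz' : z + 1 = w := hz.resolve_right (not_lt.2 h0)
    lift z to ℕ using h0
    obtain rfl : w = z + 1 := by omega
    by_cases hx : x ∈ S
    · obtain ⟨e, he⟩ := h.lt hx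
      obtain ⟨r, hr⟩ := he.top z f hf
      rw [prjZ_nat]
      exact ⟨r, e, he.eqs, hr⟩
    · exact ⟨0, h.rn_out_DM1 hx _ _ _⟩
theorem l3 (h1 : C.SmN S α x f) (h2 : C.WN S α w x f) (h3 : C.FN S α p x f)
    (h4 : C.RN S α w x (dG f) r) : ∃ g r', C.SmN S α x g ∧ C.WN S α w x g ∧ C.FN S α p x g ∧
      C.RN S α w x (f - dG g) r' := by
  by_cases hx : x ∈ S
  · obtain ⟨e, he⟩ := h.lt hx
    exact he.l3 w p f r h1 h2 h3 h4
  · exact ⟨0, 0, SmN.zero, WN.of_nul NulN.zero, FN.zero, h.rn_out_DM1 hx _ _ _⟩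

theorem cond_y (w : ℕ) : Cond (S \ Off C.D α) fun f => ∃ r, C.RN S α w x f r where
  add _ _ := fun ⟨_, k⟩ ⟨_, k'⟩ => ⟨_, h.rn_add k k'⟩
  neg _ := fun ⟨_, k⟩ => ⟨_, h.rn_neg k⟩
  van _ k := ⟨0, h.rn_of_wn (WN.of_nul (NulN.of_van k)) fun _ _ _ => NulN.zero⟩

end Loc

end Pool.Agent.PWD.Ctx
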