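import Pool.Agent.P.MP_65ad7c_ag.DK4a

/-! Local cohomology of `K(T, α, β)` and pairs with conjugate residues. -/

open Set Filter Topology
open scoped ContDiff

noncomputable section
namespace Pool.Agent.PWD.Ctx.Tri

variable {V : Type} [NormedAddCommGroup V] [NormedSpace ℝ V] {ι : Type} [LinearOrder ι]
  {C : Ctx V ι} {X : Set V} {T α β : Finset ι} (h : C.Tri X T α β)
include h

omit h in
theorem sub_kd_DK4 {n : ℤ} {a b : C.K X T α β} (ha : a ∈ C.kDg X T α β n)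
    (hb : b ∈ C.kDg X T α β (n - 1)) : a - C.kd X T α β b ∈ C.kDg X T α β n := by
  have := C.kd_mem X T α β (n - 1) b hb
  rw [sub_add_cancel] at this
  exact sub_mem ha this

omit h in
theorem wi_pred_DK4 (q : ℤ) (J : Finset ι) : wi (q - 1) J = wi q J - 1 := by
  unfold wi; omega

omit h in
theorem nul_of_DK4 {S : Set V} {x : V} {f g : GF V} (h1 : C.NulN S α x (f - g))
    (h2 : C.NulN S α x g) : C.NulN S α x f := by
  have := h1.add h2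
  rwa [sub_add_cancel] at this

omit h in
theorem nul_symm_DK4 {S : Set V} {x : V} {f g : GF V} (h1 : C.NulN S α x (f - g)) :
    C.NulN S α x (g - f) := by
  have := h1.neg
  rwa [neg_sub] at this

variable [FiniteDimensional ℝ V]

theorem PP (c : ℕ) (n : ℤ) (x : X) : ∀ a ∈ C.kDg X T α β n, C.ke X T α β c a = a →
    C.kd X T α β a ∈ C.kW X T α β (n + 1) (n + 1) x →
    ∃ b ∈ C.kDg X T α β (n - 1), a - C.kd X T α β b ∈ C.kW X T α β n n x := by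
  intro a ha _ hd
  obtain ⟨f, hf, rfl⟩ := a.surj
  rw [kd_mk, h.g.mem_kW] at hd
  choose g w h1 h2 using fun J => (h.loc J x).pp (SmN.of_smS (hf J)) (hd.2 J)
  obtain ⟨b, hb, hbn, -, h4⟩ := exists_sol ha h1
  refine ⟨_, hbn, ?_⟩
  have e := sub_kd_DK4 ha hbn
  rw [kd_mk, Fam.mk_sub] at e ⊢
  exact h.g.mem_kW.2 ⟨e, fun J =>
    ((h2 J).topZ (by unfold wi; omega)).congr (h.g.okSJ J) (h4 J)⟩
theorem L4 (q : ℤ) (c : ℕ) (n : ℤ) (x : X) : ∀ a ∈ C.kW X T α β q n x, C.ke X T α β c a = a →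
    2 * c < n - q → C.kd X T α β a ∈ C.kNul X T α β (n + 1) x →
    ∃ b ∈ C.kW X T α β q (n - 1) x, a - C.kd X T α β b ∈ C.kNul X T α β n x := by
  intro a ha he hn hd
  obtain ⟨f, hf, rfl, -, h0⟩ := C.col_surj X T α β ha.1 he
  rw [kd_mk, mem_kNul] at hd
  rw [h.g.mem_kW] at ha
  have key : ∀ J, ∃ g, C.SmN (C.SJ X T β J) α x g ∧ C.WN (C.SJ X T β J) α (wi q J) x g ∧
      C.NulN (C.SJ X T β J) α x (prjZ (n - J.card) (f J - dG g)) := fun J => by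
    by_cases e : J.card = c
    · exact (h.loc J x).l4 (SmN.of_smS (hf J)) (ha.2 J) (hd.2 J) (by unfold wi; omega)
    · refine ⟨0, SmN.zero, WN.of_nul NulN.zero, ?_⟩
      rw [h0 J e, dG_zero, sub_self, prjZ_zero]
      exact NulN.zero
  choose g h1 h2 h3 using key
  obtain ⟨b, hb, hbn, h4, h5⟩ := exists_sol ha.1 h1
  refine ⟨_, h.g.mem_kW.2 ⟨hbn, fun J => ((h2 J).prjZ _).congr (h.g.okSJ J) (h4 J)⟩, ?_⟩
  have e := sub_kd_DK4 ha.1 hbn
  rw [kd_mk, Fam.mk_sub] at e ⊢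
  exact mem_kNul.2 ⟨e, fun J => nul_of_DK4 (h5 J) (h3 J)⟩
theorem Cj_top (q : ℤ) (c : ℕ) (n : ℤ) (x : X) : ∀ a ∈ C.kW X T α β q n x,
    C.ke X T α β c a = a → 2 * c = n - q → ∃ b, (a, b) ∈ C.kCj X T α β q n x := by
  intro a ha he hn
  obtain ⟨f, hf, rfl, h1, h0⟩ := C.col_surj X T α β ha.1 he
  rw [h.g.mem_kW] at ha
  have key : ∀ J, ∃ g, C.SmN (C.SJ X T β J) α x g ∧
      C.CJ (C.SJ X T β J) α (wi q J) x (f J) g := fun J => by
    by_cases e : J.card = c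
    · obtain ⟨r, hr⟩ := (h.loc J x).rn_top (z := n - c) (ha.2 J) (by unfold wi; omega)
      rw [h1 J] at hr
      exact (h.loc J x).cj_ex hr
    · rw [h0 J e]
      exact ⟨0, SmN.zero, (h.loc J x).cj_of_wn (WN.of_nul NulN.zero) (WN.of_nul NulN.zero)⟩
  choose g h2 h3 using key
  obtain ⟨b, hb, hbn, h4⟩ := exists_loc n h2
  exact ⟨_, h.mem_kCj.2 ⟨⟨ha.1, hbn⟩, fun J => (h.loc J x).cj_congr
    ((h.loc J x).cj_prjZ _ (h3 J)) (NulN.of_van (mem_kDg.1 ha.1 J)) (nul_symm_DK4 (h4 J))⟩⟩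
theorem KCa (q : ℤ) (c : ℕ) (n : ℤ) (x : X) (a b) (hab : (a, b) ∈ C.kCj X T α β q n x)
    (he : C.ke X T α β c a = a) (hn : 2 * c < n - q)
    (hd : C.kd X T α β a ∈ C.kW X T α β (q - 1) (n + 1) x) :
    ∃ a' b', (a', b') ∈ C.kCj X T α β q (n - 1) x ∧
      a - C.kd X T α β a' ∈ C.kW X T α β (q - 1) n x := by
  obtain ⟨f, hf, rfl, -, h0⟩ := C.col_surj X T α β (a := a) hab.1.1 he
  obtain ⟨g, hg, rfl⟩ := b.surj
  rw [h.mem_kCj] at hab
  rw [kd_mk, h.g.mem_kW] at hd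
  have key : ∀ J, ∃ f' g', C.SmN (C.SJ X T β J) α x f' ∧ C.SmN (C.SJ X T β J) α x g' ∧
      C.CJ (C.SJ X T β J) α (wi q J) x f' g' ∧
      C.WN (C.SJ X T β J) α (wi q J - 1) x (prjZ (n - J.card) (f J - dG f')) := fun J => by
    by_cases e : J.card = c
    · exact (h.loc J x).kca (hab.2 J) (SmN.of_smS (hf J)) (wi_pred_DK4 q J ▸ hd.2 J)
        (by unfold wi; omega)
    · refine ⟨0, 0, SmN.zero, SmN.zero,
        (h.loc J x).cj_of_wn (WN.of_nul NulN.zero) (WN.of_nul NulN.zero), ?_⟩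
      rw [h0 J e, dG_zero, sub_self, prjZ_zero]
      exact WN.of_nul NulN.zero
  choose f' g' h1 h2 h3 h4 using key
  obtain ⟨a', ha', han, h5, h6⟩ := exists_sol hab.1.1 h1
  obtain ⟨b', hb', hbn, h7⟩ := exists_loc (n - 1) h2
  refine ⟨_, _, h.mem_kCj.2 ⟨⟨han, hbn⟩, fun J => (h.loc J x).cj_congr
    ((h.loc J x).cj_prjZ _ (h3 J)) (h5 J) (nul_symm_DK4 (h7 J))⟩, ?_⟩
  have e := sub_kd_DK4 hab.1.1 han
  rw [kd_mk, Fam.mk_sub] at e ⊢
  refine h.g.mem_kW.2 ⟨e, fun J => ?_⟩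
  rw [wi_pred_DK4]
  exact (h4 J).congr (h.g.okSJ J) (h6 J)
theorem KCb (q : ℤ) (c : ℕ) (n : ℤ) (x : X) (a b) (hab : (a, b) ∈ C.kCj X T α β q n x)
    (he : C.ke X T α β c a = a) (he' : C.ke X T α β c b = b) (hn : 2 * c = n - q)
    (hd : C.kd X T α β a ∈ C.kNul X T α β (n + 1) x)
    (hd' : C.kd X T α β b ∈ C.kNul X T α β (n + 1) x) :
    ∃ w ∈ C.kDg X T α β (n - 1), b - C.kκ X T α β a - C.kd X T α β w ∈ C.kNul X T α β n x := by
  obtain ⟨f, hf, rfl, -, h0⟩ := C.col_surj X T α β (a := a) hab.1.1 he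
  obtain ⟨g, hg, rfl, -, h0'⟩ := C.col_surj X T α β (a := b) hab.1.2 he'
  rw [h.mem_kCj] at hab
  rw [kd_mk, mem_kNul] at hd hd'
  have key : ∀ J, ∃ u, C.SmN (C.SJ X T β J) α x u ∧
      C.NulN (C.SJ X T β J) α x (prjZ (n - J.card) (g J - conjG (f J) - dG u)) := fun J => by
    by_cases e : J.card = c
    · exact (h.loc J x).kcb (hab.2 J) (SmN.of_smS (hf J)) (SmN.of_smS (hg J)) (hd.2 J) (hd'.2 J)
        (by unfold wi; omega)
    · refine ⟨0, SmN.zero, NulN.prjZ _ ?_⟩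
      rw [h0 J e, h0' J e, dG_zero, sub_zero]
      exact NulN.zero.sub NulN.zero.conj
  choose u h1 h2 using key
  have e0 := sub_mem hab.1.2 (C.kκ_mem X T α β n _ hab.1.1)
  rw [kκ_mk, Fam.mk_sub] at e0 ⊢
  obtain ⟨w, hw, hwn, -, h3⟩ := exists_sol e0 h1
  refine ⟨_, hwn, ?_⟩
  have e := sub_kd_DK4 e0 hwn
  rw [kd_mk, Fam.mk_sub] at e ⊢
  exact mem_kNul.2 ⟨e, fun J => nul_of_DK4 (h3 J) (h2 J)⟩

end Pool.Agent.PWD.Ctx.Tri
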