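import Pool.Agent.P.MP_65ad7c_ag.DR4
import Pool.Agent.P.MP_65ad7c_ag.DK4

/-! `K(T, α, β)` is a mixed Hodge complex. -/

open Set Filter Topology
open scoped ContDiff

noncomputable section
namespace Pool.Agent.PWD.Ctx

variable {V : Type} [NormedAddCommGroup V] [NormedSpace ℝ V] [FiniteDimensional ℝ V] {ι : Type}
  [LinearOrder ι] [Fintype ι] {C : Ctx V ι} {X : Set V} {T α β : Finset ι}

/-- the mixed Hodge complex -/
def Tri.kh (h : C.Tri X T α β) : G.KH ℤ X (C.K X T α β) where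
  toDC := C.kdc X T α β
  κ := C.kκ X T α β
  cuts := Fam.cuts _
  Nul := C.kNul X T α β
  W := C.kW X T α β
  Wt := C.kWt X T α β
  Cj := C.kCj X T α β
  F := C.kF X T α β
  κκ := C.kκ_kκ X T α β
  κd := C.kκ_kd X T α β
  κδ := C.kκ_kδ X T α β
  κe := C.kκ_ke X T α β
  κ_mem := C.kκ_mem X T α β
  cut := C.k_cut X T α β
  nul_opn := C.kNul_opn X T α β
  nul_d := C.kNul_d X T α β
  nul_δ := C.kNul_δ X T α β
  nul_e := C.kNul_e X T α β
  nul_κ := C.kNul_κ X T α β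
  nul_sep := C.kNul_sep X T α β
  W_le _ _ _ := inf_le_left
  W_mono := h.W_mono
  W_bot := h.W_bot
  W_opn := h.W_opn
  W_d := h.W_d
  W_δ := h.W_δ
  W_e := h.W_e
  W_cut := h.W_cut
  nul_Wt := h.nul_Wt
  Wt_W := h.Wt_W
  Wt_opn := h.Wt_opn
  Wt_D := h.Wt_D
  Wt_cut := h.Wt_cut
  stab := h.stab
  PP := h.PP
  L4 := h.L4
  Cj_le := h.Cj_le
  Cj_symm := h.Cj_symm
  le_Cj := h.le_Cj
  Cj_opn := h.Cj_opn
  Cj_d := h.Cj_d
  Cj_e := h.Cj_e
  Cj_W := h.Cj_W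
  Cj_top := h.Cj_top
  KCa := h.KCa
  KCb := h.KCb
  FL_cx := h.FL_cx
  F_anti := h.F_anti
  F_top := h.F_top
  F_bot := h.F_bot
  strict := h.strict
  span := h.span
  conj := h.conj
  disj := h.disj

end Pool.Agent.PWD.Ctx
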