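import Pool.Agent.P.MP_65ad7c_ag.DDefs
import Pool.Agent.P.MP_65ad7c_ag.HBase

/-! Families of forms of all degrees, logarithmic forms and their germs. -/

open Set
open scoped ContDiff
open Pool.Agent.HT (Form Alt pull der Amb JP kill)

noncomputable section
namespace Pool.Agent.PWD

/-- one form in each degree -/
abbrev GF (V : Type) [NormedAddCommGroup V] [NormedSpace ℝ V] := (n : ℕ) → Form V n

section ops
variable {V V' : Type} [NormedAddCommGroup V] [NormedSpace ℝ V] [NormedAddCommGroup V']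
  [NormedSpace ℝ V'] {ι : Type}

/-- exterior derivative -/
def dG (f : GF V) : GF V
  | 0 => 0
  | n + 1 => extDeriv (f n)

/-- wedge product with a one-form -/
def wG (ξ : V → V →L[ℝ] ℂ) (f : GF V) : GF V
  | 0 => 0
  | n + 1 => fun x => ContinuousAlternatingMap.alternatizeUncurryFin ((ξ x).smulRight (f n x))

/-- wedge product with `dh / h` -/
def lg (h : V → ℂ) (f : GF V) : GF V := wG (fun x => (h x)⁻¹ • fderiv ℝ h x) f

/-- wedge product with the `dh_i / h_i`, `i ∈ I`, in increasing order -/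
def lgI [LinearOrder ι] (h : ι → V → ℂ) (I : Finset ι) (f : GF V) : GF V :=
  (I.sort (· ≤ ·)).foldr (fun i g => lg (h i) g) f

/-- complex conjugation -/
def conjG (f : GF V) : GF V := fun n x =>
  (Complex.conjCLE : ℂ →L[ℝ] ℂ).compContinuousAlternatingMap (f n x)

/-- pull-back -/
def pullG (γ : V' → V) (f : GF V) : GF V' := fun n => pull γ (f n)

/-- multiplication by a function -/
def mulG (χ : V → ℂ) (f : GF V) : GF V := fun n x => χ x • f n x

/-- the sign `(-1)^n` -/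
def epsG (f : GF V) : GF V := fun n => (-1 : ℂ) ^ n • f n

/-- the part of degree `m` -/
def prj (m : ℕ) (f : GF V) : GF V := Pi.single m (f m)

/-- the constant function `1` -/
def oneG : GF V := Pi.single 0 fun _ => ContinuousAlternatingMap.constOfIsEmpty ℝ V (Fin 0) (1 : ℂ)

/-- `∏_{p ≤ b ≤ n} (der J - i (2 b - n))`: its kernel is `F^p` -/
def tyA (J : V →L[ℝ] V) (p n : ℕ) (a : Alt V n) : Alt V n :=
  (List.range' p (n + 1 - p)).foldr
    (fun (b : ℕ) (x : Alt V n) => der J x - (Complex.I * (2 * (b : ℂ) - n)) • x) a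

/-- smooth on `O` -/
def SmG (O : Set V) (f : GF V) : Prop := ∀ n, ContDiffOn ℝ ∞ (f n) O

/-- smooth near `S` -/
def SmS (S : Set V) (f : GF V) : Prop := ∀ n, Sm S (f n)

/-- zero on `S` -/
def VanG (S : Set V) (f : GF V) : Prop := ∀ n, Van S (f n)

/-- in `F^p` on `S` -/
def TyV (J : V → V →L[ℝ] V) (S : Set V) (p : ℕ) (f : GF V) : Prop :=
  VanG S fun n x => tyA (J x) p n (f n x)

/-- the union of the `D i`, `i ∈ α` -/
def Off (D : ι → Set V) (α : Finset ι) : Set V := ⋃ i ∈ α, D i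

/-- the intersection of `S` with the `D i`, `i ∈ I` -/
def St (S : Set V) (D : ι → Set V) (I : Finset ι) : Set V := S ∩ ⋂ i ∈ I, D i

/-- `W'_(w-1)`: logarithmic forms on `S ∩ O` whose `w`-fold residues vanish -/
inductive LW [DecidableEq ι] (G : ι → Set (V → ℂ)) (D : ι → Set V) (S O : Set V) :
    Finset ι → ℕ → GF V → Prop
  | zero {α w} : LW G D S O α w 0
  | smooth {α w f} : SmG O f → LW G D S O α (w + 1) f
  | add {α w f g} : LW G D S O α w f → LW G D S O α w g → LW G D S O α w (f + g)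
  | mono {α w f} (i : ι) : LW G D S O (α.erase i) w f → LW G D S O α w f
  | up {α w f i h} : i ∈ α → h ∈ G i → LW G D S O (α.erase i) w f → LW G D S O α (w + 1) (lg h f)
  | van {α w f i h} : i ∈ α → h ∈ G i → LW G D S O (α.erase i) w f →
      VanG ((S ∩ D i ∩ O) \ Off D (α.erase i)) f → LW G D S O α w (lg h f)

/-- the filtration of the textbooks: fewer than `w` poles -/
inductive TW (G : Set (V → ℂ)) (O : Set V) : ℕ → GF V → Prop
  | zero {w} : TW G O w 0
  | smooth {w f} : SmG O f → TW G O (w + 1) f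
  | add {w f g} : TW G O w f → TW G O w g → TW G O w (f + g)
  | log {w f h} : h ∈ G → TW G O w f → TW G O (w + 1) (lg h f)

end ops

/-- divisors, their local equations and the complex structure -/
structure Ctx (V : Type) [NormedAddCommGroup V] [NormedSpace ℝ V] (ι : Type) where
  G : Set V → ι → Set (V → ℂ)
  D : ι → Set V
  J : V → V →L[ℝ] V

namespace Ctx
variable {V : Type} [NormedAddCommGroup V] [NormedSpace ℝ V] {ι : Type} [LinearOrder ι]
  (C : Ctx V ι) (S : Set V) (α : Finset ι)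

/-- zero near `x` -/
def NulN (x : V) (f : GF V) : Prop := ∃ O, IsOpen O ∧ x ∈ O ∧ VanG ((S ∩ O) \ Off C.D α) f

/-- smooth near `x`, off the poles -/
def SmN (x : V) (f : GF V) : Prop := ∃ O, IsOpen O ∧ x ∈ O ∧ SmS ((S ∩ O) \ Off C.D α) f

/-- in `F^p` near `x` -/
def FN (p : ℕ) (x : V) (f : GF V) : Prop :=
  ∃ O, IsOpen O ∧ x ∈ O ∧ TyV C.J ((S ∩ O) \ Off C.D α) p f

/-- in `W'_(w-1)` near `x` -/
def WN (w : ℕ) (x : V) (f : GF V) : Prop :=
  ∃ O g, IsOpen O ∧ x ∈ O ∧ LW (C.G O) C.D S O α w g ∧ VanG ((S ∩ O) \ Off C.D α) (f - g)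

/-- in `W_(w-1)` near `x` -/
def TN (w : ℕ) (x : V) (f : GF V) : Prop :=
  ∃ O g, IsOpen O ∧ x ∈ O ∧ TW {h | ∃ i ∈ α, h ∈ C.G O i} O w g ∧
    VanG ((S ∩ O) \ Off C.D α) (f - g)

/-- `f` has the smooth `q`-fold residues `r`, computed with the equations `h` -/
def RH (h : ι → V → ℂ) (q : ℕ) (x : V) (f : GF V) (r : Finset ι → GF V) : Prop :=
  ∃ (O : Set V) (β : Finset ι → GF V), IsOpen O ∧ x ∈ O ∧ (∀ I, SmG O (β I)) ∧
    C.WN S α q x (f - ∑ I ∈ α.powersetCard q, lgI h I (β I)) ∧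
    ∀ I ∈ α.powersetCard q, VanG (St S C.D I ∩ O) (r I - β I)

/-- `h` is a system of equations near `x` -/
def Eqs (x : V) (h : ι → V → ℂ) : Prop :=
  ∃ O, IsOpen O ∧ x ∈ O ∧ ∀ O' ⊆ O, ∀ i ∈ α, h i ∈ C.G O' i

/-- `f ∈ W'_(w-1)` has the smooth top residues `r` near `x` -/
def RN : ℕ → V → GF V → (Finset ι → GF V) → Prop
  | 0, x, f, _ => C.NulN S α x f
  | q + 1, x, f, r => ∃ h, C.Eqs α x h ∧ C.RH S α h q x f r

/-- equations are smooth, do not vanish off their divisor, and restrict to smaller sets -/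
structure OK : Prop where
  smooth : ∀ O i, ∀ h ∈ C.G O i, ContDiffOn ℝ ∞ h O
  ne : ∀ O i, ∀ h ∈ C.G O i, ∀ y ∈ S ∩ O, y ∉ C.D i → h y ≠ 0
  mono : ∀ O O' i, O' ⊆ O → C.G O i ⊆ C.G O' i

/-- The local theory at a point `x` of the stratum `S`, with poles along `α`. -/
structure LT (x : V) (h : ι → V → ℂ) : Prop where
  eqs : C.Eqs α x h
  /-- cohomology of the punctured polydisc -/
  pp1 : ∀ f, C.SmN S α x f → C.NulN S α x (dG f) → ∃ (γ : Finset ι → ℂ) (g : GF V),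
    C.SmN S α x g ∧ C.NulN S α x (f - ∑ I ∈ α.powerset, γ I • lgI h I oneG - dG g)
  pp2 : ∀ (γ : Finset ι → ℂ) (g : GF V), C.SmN S α x g →
    C.NulN S α x (∑ I ∈ α.powerset, γ I • lgI h I oneG - dG g) →
    ∀ I ⊆ α, x ∈ St S C.D I → γ I = 0
  l4 : ∀ w f, C.SmN S α x f → C.WN S α w x f → C.NulN S α x (dG f) →
    ∃ (γ : Finset ι → ℂ) (g : GF V), C.SmN S α x g ∧ C.WN S α w x g ∧
    (∀ I, w ≤ I.card → γ I = 0) ∧
    C.NulN S α x (f - ∑ I ∈ α.powerset, γ I • lgI h I oneG - dG g)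
  l3 : ∀ w p f r, C.SmN S α x f → C.WN S α w x f → C.FN S α p x f → C.RN S α w x (dG f) r →
    ∃ g r', C.SmN S α x g ∧ C.WN S α w x g ∧ C.FN S α p x g ∧ C.RN S α w x (f - dG g) r'
  off : ∀ I ⊆ α, x ∉ St S C.D I → ∀ f, C.NulN S α x (lgI h I f)
  ind : ∀ h' q f r, C.Eqs α x h' → C.RH S α h' q x f r → C.RH S α h q x f r
  resU : ∀ q f r, C.RH S α h q x f r → C.WN S α q x f →
    ∀ I ∈ α.powersetCard q, C.NulN (St S C.D I) ∅ x (r I)
  resF : ∀ q p f r, C.RH S α h q x f r → C.FN S α p x f →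
    ∀ I ∈ α.powersetCard q, C.FN (St S C.D I) ∅ (p - q) x (r I)
  resV : ∀ I ⊆ α, ∀ O β, IsOpen O → x ∈ O → SmG O β → VanG (St S C.D I ∩ O) β →
    C.WN S α I.card x (lgI h I β)
  ext : ∀ I ⊆ α, ∀ p r, C.SmN (St S C.D I) ∅ x r → C.FN (St S C.D I) ∅ p x r →
    ∃ O β, IsOpen O ∧ x ∈ O ∧ SmG O β ∧ VanG (St S C.D I ∩ O) (r - β) ∧
      C.FN S α (p + I.card) x (lgI h I β)
  txt : ∀ w f, C.TN S α w x f → C.WN S α w x f
  conj : ∀ I ⊆ α, ∃ g, C.SmN S α x g ∧
    C.NulN S α x (conjG (lgI h I oneG) - (-1 : ℂ) ^ I.card • lgI h I oneG - dG g)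
  ty0 : ∀ f, C.FN S α 0 x f
  tyN : ∀ p f, C.NulN S α x f → C.FN S α p x f
  tyA : ∀ p f, C.FN S α (p + 1) x f → C.FN S α p x f
  tyd : ∀ p f, C.SmN S α x f → C.FN S α p x f → C.FN S α p x (dG f)
  top : ∀ q f, C.WN S α (q + 1) x f → ∃ r, C.RH S α h q x (prj q f) r

/-- restriction from `S` to the smaller stratum `S'` is a local quasi-isomorphism -/
def HT (S' : Set V) (x : V) : Prop :=
  ∀ f c, C.SmN S α x f → C.SmN S' α x c → C.NulN S α x (dG f) → C.NulN S' α x (f - dG c) →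
    ∃ g, C.SmN S α x g ∧ C.NulN S α x (f - dG g) ∧ C.NulN S' α x (c - g)

end Ctx

/-- the coordinate that belongs to `i`, or `1` -/
def zc {d : ℕ} {ι : Type} (κ : ι → Option (Fin d)) (i : ι) (z : Fin d → ℂ) : ℂ := (κ i).elim 1 z

/-- coordinate hyperplanes in `ℂ^d` -/
def Ctx.std {d : ℕ} {ι : Type} (κ : ι → Option (Fin d)) : Ctx (Fin d → ℂ) ι where
  G _ i := {zc κ i}
  D i := {z | zc κ i z = 0}
  J _ := Complex.I • ContinuousLinearMap.id ℝ _

/-- a normal crossing divisor in a projective manifold -/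
def Ctx.amb {M : ℕ} {ι : Type} (d : ℕ) (X : Set (Amb M)) (D : ι → Set (Amb M)) :
    Ctx (Amb M) ι where
  G O i := {h | Eqn d X (D i) O h}
  D := D
  J := JP M

end Pool.Agent.PWD
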