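import Pool.Agent.P.MP_65ad7c_ag.DL0
import Pool.Agent.P.MP_65ad7c_ag.HSPull

/-! Formal calculus of families of forms. -/

open Set Filter Topology
open scoped ContDiff
open Pool.Agent.HT (Form Alt pull der)

noncomputable section
namespace Pool.Agent.PWD

variable {V V' : Type} [NormedAddCommGroup V] [NormedSpace ℝ V] [NormedAddCommGroup V']
  [NormedSpace ℝ V'] {ι : Type} {S S' O : Set V} {f g : GF V} {x : V}

/-! ### pointwise identities -/

theorem wG_applyDL1a (ξ : V → V →L[ℝ] ℂ) (f : GF V) (n : ℕ) (x : V) (v : Fin (n + 1) → V) :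
    wG ξ f (n + 1) x v = ∑ i : Fin (n + 1), (-1 : ℂ) ^ (i : ℕ) *
      (ξ x (v i) * f n x (i.removeNth v)) := by
  simp [wG, ContinuousAlternatingMap.alternatizeUncurryFin_apply]

theorem wG_zeroDL1a (ξ : V → V →L[ℝ] ℂ) (f : GF V) : wG ξ f 0 = 0 := rfl
theorem dG_zeroDL1a (f : GF V) : dG f 0 = 0 := rfl
theorem dG_succDL1a (f : GF V) (n : ℕ) : dG f (n + 1) = extDeriv (f n) := rfl

theorem wG_add (ξ : V → V →L[ℝ] ℂ) (f g : GF V) : wG ξ (f + g) = wG ξ f + wG ξ g := by
  funext n; cases n with
  | zero => simp [wG]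
  | succ n => ext x v; simp [wG_applyDL1a, mul_add, Finset.sum_add_distrib]
theorem wG_smul (ξ : V → V →L[ℝ] ℂ) (c : ℂ) (f : GF V) : wG ξ (c • f) = c • wG ξ f := by
  funext n; cases n with
  | zero => ext x v; simp [wG]
  | succ n => ext x v; simp [wG_applyDL1a, Finset.mul_sum, mul_left_comm]
theorem wG_zero (ξ : V → V →L[ℝ] ℂ) : wG ξ (0 : GF V) = 0 := by
  funext n; cases n with
  | zero => simp [wG]
  | succ n => ext x v; simp [wG_applyDL1a]
theorem wG_sub (ξ : V → V →L[ℝ] ℂ) (f g : GF V) : wG ξ (f - g) = wG ξ f - wG ξ g := by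
  funext n; cases n with
  | zero => simp [wG]
  | succ n => ext x v; simp [wG_applyDL1a, mul_sub, Finset.sum_sub_distrib]
theorem wG_add_left (ξ η : V → V →L[ℝ] ℂ) (f : GF V) : wG (ξ + η) f = wG ξ f + wG η f := by
  funext n; cases n with
  | zero => simp [wG]
  | succ n => ext x v; simp [wG_applyDL1a, mul_add, add_mul, Finset.sum_add_distrib]

/-- the bilinear map `(u, v) ↦ a u b v c` -/
def bilDL1a {n : ℕ} (a b : V →L[ℝ] ℂ) (c : Alt V n) : V →L[ℝ] V →L[ℝ] Alt V n :=
  ContinuousLinearMap.compL ℝ V ℂ (Alt V n) ((ContinuousLinearMap.id ℝ ℂ).smulRight c) ∘L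
    (ContinuousLinearMap.mul ℝ ℂ).bilinearComp a b

theorem bilDL1a_apply {n : ℕ} (a b : V →L[ℝ] ℂ) (c : Alt V n) (u v : V) (w : Fin n → V) :
    bilDL1a a b c u v w = a u * (b v * c w) := by
  simp [bilDL1a, mul_assoc]

theorem wG_wGDL1a (ξ η : V → V →L[ℝ] ℂ) (f : GF V) (n : ℕ) (x : V) :
    wG ξ (wG η f) (n + 2) x = ContinuousAlternatingMap.alternatizeUncurryFin
      (ContinuousAlternatingMap.alternatizeUncurryFinCLM ℝ V ℂ ∘L
        bilDL1a (ξ x) (η x) (f n x)) := by
  change ContinuousAlternatingMap.alternatizeUncurryFin _ = _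
  congr 1
  ext u w
  simp [wG, ContinuousAlternatingMap.alternatizeUncurryFin_apply, bilDL1a_apply, Finset.mul_sum,
    mul_left_comm]

theorem wG_wG (ξ η : V → V →L[ℝ] ℂ) (f : GF V) : wG ξ (wG η f) = -wG η (wG ξ f) := by
  funext n
  rcases n with _ | _ | n
  · simp [wG]
  · ext x v; simp [wG_applyDL1a, wG_zeroDL1a]
  · ext x v
    simp only [Pi.neg_apply, wG_wGDL1a, ContinuousAlternatingMap.neg_apply,
      ContinuousAlternatingMap.alternatizeUncurryFin_alternatizeUncurryFinCLM_comp_apply,
      bilDL1a_apply, ← Finset.sum_neg_distrib, ← smul_neg]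
    refine Finset.sum_congr rfl fun i _ => Finset.sum_congr rfl fun j _ => ?_
    congr 1
    ring
theorem wG_self (ξ : V → V →L[ℝ] ℂ) (f : GF V) : wG ξ (wG ξ f) = 0 := by
  ext n x v
  have h : wG ξ (wG ξ f) n x v = -wG ξ (wG ξ f) n x v := by
    conv_lhs => rw [wG_wG ξ ξ f]
    rfl
  exact self_eq_neg.1 h
theorem wG_mulG (ξ : V → V →L[ℝ] ℂ) (χ : V → ℂ) (f : GF V) :
    wG ξ (mulG χ f) = mulG χ (wG ξ f) := by
  funext n; cases n with
  | zero => ext x v; simp [wG, mulG]
  | succ n => ext x v; simp [wG_applyDL1a, mulG, Finset.mul_sum, mul_left_comm]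
theorem wG_epsG (ξ : V → V →L[ℝ] ℂ) (f : GF V) : wG ξ (epsG f) = -epsG (wG ξ f) := by
  funext n; cases n with
  | zero => simp [wG, epsG]
  | succ n =>
    ext x v
    simp [wG_applyDL1a, epsG, Finset.mul_sum, mul_left_comm, pow_succ]
theorem prj_wG (ξ : V → V →L[ℝ] ℂ) (n : ℕ) (f : GF V) :
    prj (n + 1) (wG ξ f) = wG ξ (prj n f) := by
  funext m; cases m with
  | zero => simp [prj, wG]
  | succ m =>
    by_cases h : m = n
    · subst h; simp [prj, wG]
    · ext x v
      simp [prj, wG_applyDL1a, Pi.single_eq_of_ne h, Pi.single_eq_of_ne (Nat.succ_ne_succ_iff.2 h)]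
theorem prj_zero_wG (ξ : V → V →L[ℝ] ℂ) (f : GF V) : prj 0 (wG ξ f) = 0 := by
  simp [prj, wG]
theorem wG_congr {ξ η : V → V →L[ℝ] ℂ} (h : ξ x = η x) (h' : ∀ n, f n x = g n x) (n : ℕ) :
    wG ξ f n x = wG η g n x := by
  cases n with
  | zero => rfl
  | succ n => simp [wG, h, h']
theorem conjG_wG (ξ : V → V →L[ℝ] ℂ) (f : GF V) : conjG (wG ξ f) =
    wG (fun x => (Complex.conjCLE : ℂ →L[ℝ] ℂ).comp (ξ x)) (conjG f) := by
  funext n; cases n with
  | zero => ext x v; simp [wG, conjG]
  | succ n => ext x v; simp [wG_applyDL1a, conjG]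
theorem pullG_wG (γ : V' → V) (ξ : V → V →L[ℝ] ℂ) (f : GF V) : pullG γ (wG ξ f) =
    wG (fun z => (ξ (γ z)).comp (fderiv ℝ γ z)) (pullG γ f) := by
  funext n; cases n with
  | zero => ext x v; simp [wG, pullG, Pool.Agent.HT.pull_apply]
  | succ n =>
    ext x v
    simp only [wG_applyDL1a, pullG, Pool.Agent.HT.pull_apply]
    rfl

theorem extDeriv_zeroDL1a {n : ℕ} : extDeriv (0 : Form V n) = 0 := by
  ext x v
  simp [extDeriv, ContinuousAlternatingMap.alternatizeUncurryFin_apply]

theorem fderiv_const_smul_of_isUnitDL1a {n : ℕ} (a : Form V n) {c : ℂ} (hc : c ≠ 0) :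
    fderiv ℝ (c • a) = fun x => c • fderiv ℝ a x := by
  funext x
  by_cases h : DifferentiableAt ℝ a x
  · exact fderiv_const_smul h c
  · have h' : ¬ DifferentiableAt ℝ (c • a) x := fun h' => h (by
      have := h'.const_smul c⁻¹
      simpa [smul_smul, inv_mul_cancel₀ hc] using this)
    rw [fderiv_zero_of_not_differentiableAt h, fderiv_zero_of_not_differentiableAt h', smul_zero]

theorem extDeriv_smulDL1a {n : ℕ} (c : ℂ) (a : Form V n) : extDeriv (c • a) = c • extDeriv a := by
  funext x
  have : fderiv ℝ (c • a) x = c • fderiv ℝ a x := by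
    rcases eq_or_ne c 0 with rfl | hc
    · have e : (0 : ℂ) • a = 0 := by ext y v; simp
      rw [e]; ext u v; simp
    · exact congrFun (fderiv_const_smul_of_isUnitDL1a a hc) x
  simp [extDeriv, this]

theorem prj_dG (n : ℕ) (f : GF V) : prj (n + 1) (dG f) = dG (prj n f) := by
  funext m; cases m with
  | zero => simp [prj, dG]
  | succ m =>
    by_cases h : m = n
    · subst h; simp [prj, dG]
    · simp [prj, dG, Pi.single_eq_of_ne h, Pi.single_eq_of_ne (Nat.succ_ne_succ_iff.2 h),
        extDeriv_zeroDL1a]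
theorem prj_zero_dG (f : GF V) : prj 0 (dG f) = 0 := by
  simp [prj, dG]
theorem dG_zero : dG (0 : GF V) = 0 := by
  funext n; cases n with
  | zero => rfl
  | succ n => exact extDeriv_zeroDL1a
theorem dG_smul (c : ℂ) (f : GF V) : dG (c • f) = c • dG f := by
  funext n; cases n with
  | zero => ext x v; simp [dG]
  | succ n => exact extDeriv_smulDL1a c (f n)
theorem dG_epsG (f : GF V) : dG (epsG f) = -epsG (dG f) := by
  funext n; cases n with
  | zero => simp [dG, epsG]
  | succ n => ext x v; simp [dG, epsG, extDeriv_smulDL1a, pow_succ]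

variable (V) in
/-- conjugation as a continuous linear map -/
def cjLDL1a (n : ℕ) : Alt V n →L[ℝ] Alt V n :=
  ContinuousLinearMap.compContinuousAlternatingMapCLM ℝ V ℂ ℂ (Fin n)
    (Complex.conjCLE : ℂ →L[ℝ] ℂ)

variable (V) in
/-- conjugation as a continuous linear equivalence -/
def cjDL1a (n : ℕ) : Alt V n ≃L[ℝ] Alt V n :=
  ContinuousLinearEquiv.equivOfInverse (cjLDL1a V n) (cjLDL1a V n)
    (fun a => by ext v; simp [cjLDL1a]) (fun a => by ext v; simp [cjLDL1a])

theorem cjDL1a_apply {n : ℕ} (a : Alt V n) (v : Fin n → V) :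
    cjDL1a V n a v = starRingEnd ℂ (a v) := rfl

theorem dG_conjG (f : GF V) : dG (conjG f) = conjG (dG f) := by
  funext n; cases n with
  | zero => ext x v; simp [dG, conjG]
  | succ n =>
    ext x v
    have h := (cjDL1a V n).comp_fderiv (f := f n) (x := x)
    have e : conjG f n = cjDL1a V n ∘ f n := rfl
    simp only [dG_succDL1a, extDeriv, e, h, ContinuousAlternatingMap.alternatizeUncurryFin_apply]
    simp [conjG, dG_succDL1a, extDeriv, ContinuousAlternatingMap.alternatizeUncurryFin_apply,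
      cjDL1a_apply]
theorem dG_oneG : dG (oneG : GF V) = 0 := by
  funext n
  rcases n with _ | _ | n
  · rfl
  · ext x v
    simp [dG, oneG, extDeriv, ContinuousAlternatingMap.alternatizeUncurryFin_apply]
  · simp [dG, oneG, extDeriv_zeroDL1a]
theorem conjG_add (f g : GF V) : conjG (f + g) = conjG f + conjG g := by
  ext n x v; simp [conjG]
theorem conjG_smul (c : ℂ) (f : GF V) : conjG (c • f) = starRingEnd ℂ c • conjG f := by
  ext n x v; simp [conjG]
theorem conjG_conjG (f : GF V) : conjG (conjG f) = f := by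
  ext n x v; simp [conjG]
theorem conjG_oneG : conjG (oneG : GF V) = oneG := by
  ext n x v
  cases n with
  | zero => simp [conjG, oneG]
  | succ n => simp [conjG, oneG]
theorem conjG_pullG (γ : V' → V) (f : GF V) : conjG (pullG γ f) = pullG γ (conjG f) := rfl
theorem pullG_oneG (γ : V' → V) : pullG γ (oneG : GF V) = oneG := by
  ext n x v
  cases n with
  | zero => simp [pullG, oneG, Pool.Agent.HT.pull_apply]
  | succ n => simp [pullG, oneG, Pool.Agent.HT.pull_apply]
theorem tyA_add (J : V →L[ℝ] V) (p n : ℕ) (a b : Alt V n) :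
    tyA J p n (a + b) = tyA J p n a + tyA J p n b := by
  unfold tyA
  induction List.range' p (n + 1 - p) with
  | nil => rfl
  | cons c l ih =>
    simp only [List.foldr_cons, ih]
    ext v
    simp [Pool.Agent.HT.der_apply, Finset.sum_add_distrib]
    ring
theorem tyA_smul (J : V →L[ℝ] V) (p n : ℕ) (c : ℂ) (a : Alt V n) :
    tyA J p n (c • a) = c • tyA J p n a := by
  unfold tyA
  induction List.range' p (n + 1 - p) with
  | nil => rfl
  | cons d l ih =>
    simp only [List.foldr_cons, ih]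
    ext v
    simp [Pool.Agent.HT.der_apply, Finset.mul_sum, mul_sub]
    ring
theorem tyA_big (J : V →L[ℝ] V) {p n : ℕ} (h : n < p) (a : Alt V n) : tyA J p n a = a := by
  simp [tyA, Nat.sub_eq_zero_of_le (Nat.succ_le_of_lt h)]
/-- compatibility with complex linear maps -/
theorem tyA_comp {J : V →L[ℝ] V} {J' : V' →L[ℝ] V'} {L : V' →L[ℝ] V}
    (h : ∀ v, L (J' v) = J (L v)) (p n : ℕ) (a : Alt V n) :
    (tyA J p n a).compContinuousLinearMap L = tyA J' p n (a.compContinuousLinearMap L) := by
  unfold tyA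
  induction List.range' p (n + 1 - p) with
  | nil => rfl
  | cons d l ih =>
    simp only [List.foldr_cons, ← ih]
    ext v
    simp [Pool.Agent.HT.der_apply, Function.comp_update, h]
theorem map_update_negDL1a {n : ℕ} (a : Alt V n) (v : Fin n → V) (i : Fin n) (w : V) :
    a (Function.update v i (-w)) = -a (Function.update v i w) :=
  a.toAlternatingMap.map_update_neg v i w
/-- compatibility with antilinear maps and conjugation -/
theorem tyA_conj {J : V →L[ℝ] V} {J' : V' →L[ℝ] V'} {L : V' →L[ℝ] V}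
    (h : ∀ v, L (J' v) = -J (L v)) (p n : ℕ) (a : Alt V n) :
    tyA J' p n ((Complex.conjCLE : ℂ →L[ℝ] ℂ).compContinuousAlternatingMap
      (a.compContinuousLinearMap L)) = (-1 : ℂ) ^ (n + 1 - p) •
    (Complex.conjCLE : ℂ →L[ℝ] ℂ).compContinuousAlternatingMap
      ((tyA J p n a).compContinuousLinearMap L) := by
  unfold tyA
  rw [← List.length_range' (s := p) (n := n + 1 - p) (step := 1)]
  simp only [List.length_range']
  have key : ∀ l : List ℕ, l.foldr
      (fun (b : ℕ) (x : Alt V' n) => der J' x - (Complex.I * (2 * (b : ℂ) - n)) • x)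
      ((Complex.conjCLE : ℂ →L[ℝ] ℂ).compContinuousAlternatingMap
        (a.compContinuousLinearMap L)) = (-1 : ℂ) ^ l.length •
      (Complex.conjCLE : ℂ →L[ℝ] ℂ).compContinuousAlternatingMap
        ((l.foldr (fun (b : ℕ) (x : Alt V n) =>
          der J x - (Complex.I * (2 * (b : ℂ) - n)) • x) a).compContinuousLinearMap L) := by
    intro l
    induction l with
    | nil => simp
    | cons d l ih =>
      simp only [List.foldr_cons, ih]
      generalize l.foldr (fun (b : ℕ) (x : Alt V n) =>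
          der J x - (Complex.I * (2 * (b : ℂ) - n)) • x) a = y
      ext v
      have h2 : starRingEnd ℂ 2 = 2 := map_ofNat _ 2
      simp [Pool.Agent.HT.der_apply, Function.comp_update, h, map_update_negDL1a, pow_succ,
        Finset.mul_sum, mul_sub, h2]
      ring
  simpa using key (List.range' p (n + 1 - p))

section lgI
variable [LinearOrder ι] (h : ι → V → ℂ) (I : Finset ι)
theorem lgI_empty (f : GF V) : lgI h ∅ f = f := by
  simp [lgI]
theorem lgI_add (f g : GF V) : lgI h I (f + g) = lgI h I f + lgI h I g := by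
  unfold lgI
  induction I.sort (· ≤ ·) with
  | nil => rfl
  | cons i l ih => simp only [List.foldr_cons, ih]; exact wG_add _ _ _
theorem lgI_sub (f g : GF V) : lgI h I (f - g) = lgI h I f - lgI h I g := by
  unfold lgI
  induction I.sort (· ≤ ·) with
  | nil => rfl
  | cons i l ih => simp only [List.foldr_cons, ih]; exact wG_sub _ _ _
theorem lgI_smul (c : ℂ) (f : GF V) : lgI h I (c • f) = c • lgI h I f := by
  unfold lgI
  induction I.sort (· ≤ ·) with
  | nil => rfl
  | cons i l ih => simp only [List.foldr_cons, ih]; exact wG_smul _ _ _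
theorem lgI_zero : lgI h I (0 : GF V) = 0 := by
  unfold lgI
  induction I.sort (· ≤ ·) with
  | nil => rfl
  | cons i l ih => simp only [List.foldr_cons, ih]; exact wG_zero _
theorem lgI_mulG (χ : V → ℂ) (f : GF V) : lgI h I (mulG χ f) = mulG χ (lgI h I f) := by
  unfold lgI
  induction I.sort (· ≤ ·) with
  | nil => rfl
  | cons i l ih => simp only [List.foldr_cons, ih]; exact wG_mulG _ _ _
theorem prj_lgI (n : ℕ) (f : GF V) : prj (n + I.card) (lgI h I f) = lgI h I (prj n f) := by
  unfold lgI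
  rw [← Finset.length_sort (· ≤ ·)]
  induction I.sort (· ≤ ·) with
  | nil => rfl
  | cons i l ih =>
    simp only [List.foldr_cons, List.length_cons, ← add_assoc, ← ih]
    exact prj_wG _ _ _
theorem prj_lgI_lt {n : ℕ} (hn : n < I.card) (f : GF V) : prj n (lgI h I f) = 0 := by
  unfold lgI
  rw [← Finset.length_sort (· ≤ ·)] at hn
  revert hn
  induction I.sort (· ≤ ·) generalizing n with
  | nil => simp
  | cons i l ih =>
    intro hn
    cases n with
    | zero => exact prj_zero_wG _ _
    | succ n =>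
      simp only [List.foldr_cons]
      refine (prj_wG _ _ _).trans ?_
      rw [ih (by simpa using hn), wG_zero]
end lgI

end Pool.Agent.PWD
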