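import Pool.Agent.P.MP_65ad7c_ag.DL2b

/-! Formal properties of the germ conditions. -/

open Set Filter Topology
open scoped ContDiff

noncomputable section
namespace Pool.Agent.PWD

variable {V : Type} [NormedAddCommGroup V] [NormedSpace ℝ V] {ι : Type} [LinearOrder ι]
  {C : Ctx V ι} {S S' O : Set V} {α α' : Finset ι} {f g : GF V} {x : V} {w p q : ℕ}
  {r r' : Finset ι → GF V}

theorem SmG.anti_DL2 {O' : Set V} (h : SmG O f) (hO : O' ⊆ O) : SmG O' f := fun n => (h n).mono hO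

theorem SmS.smG_DL2 (h : SmS O f) : SmG O f := fun n => by
  obtain ⟨_, _, h1, h2⟩ := h n
  exact h2.mono h1

theorem mulG_sub_DL2 (χ : V → ℂ) (f g : GF V) : mulG χ (f - g) = mulG χ f - mulG χ g := by
  funext n y
  simp only [mulG, Pi.sub_apply, smul_sub]

theorem mulG_sum_DL2 {κ : Type} (χ : V → ℂ) (s : Finset κ) (f : κ → GF V) :
    mulG χ (∑ i ∈ s, f i) = ∑ i ∈ s, mulG χ (f i) := by
  funext n y
  simp only [mulG, Finset.sum_apply, Finset.smul_sum]

theorem prj_sub_DL2 (n : ℕ) (f g : GF V) : prj n (f - g) = prj n f - prj n g := by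
  simp only [prj, Pi.sub_apply, Pi.single_sub]

theorem prj_sum_DL2 {κ : Type} (n : ℕ) (s : Finset κ) (f : κ → GF V) :
    prj n (∑ i ∈ s, f i) = ∑ i ∈ s, prj n (f i) := by
  classical
  induction s using Finset.induction_on with
  | empty => simp only [prj, Finset.sum_empty, Pi.zero_apply, Pi.single_zero]
  | insert a s ha ih =>
    rw [Finset.sum_insert ha, Finset.sum_insert ha, ← ih]
    simp only [prj, Pi.add_apply, Pi.single_add]

namespace Ctx

theorem NulN.of_open_DL2 (hO : IsOpen O) (hx : x ∈ O) (h : VanG (S ∩ O) f) : C.NulN S α x f :=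
  ⟨O, hO, hx, h.anti sdiff_subset⟩

theorem NulN.d_sum_DL2 {κ : Type} (s : Finset κ) {f : κ → GF V}
    (h : ∀ i ∈ s, C.SmN S α x (f i)) :
    C.NulN S α x (dG (∑ i ∈ s, f i) - ∑ i ∈ s, dG (f i)) := by
  classical
  induction s using Finset.induction_on with
  | empty =>
    simp only [Finset.sum_empty, dG_zero, sub_zero]
    exact NulN.zero
  | insert a s ha ih =>
    rw [Finset.sum_insert ha, Finset.sum_insert ha]
    have h1 := NulN.d_add (h a (Finset.mem_insert_self a s))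
      (SmN.sum s fun i hi => h i (Finset.mem_insert_of_mem hi))
    have h2 := h1.add (ih fun i hi => h i (Finset.mem_insert_of_mem hi))
    convert h2 using 1
    abel

theorem RH.mk_DL2 {h : ι → V → ℂ} {β : Finset ι → GF V} (hO : IsOpen O) (hx : x ∈ O)
    (hβ : ∀ I, SmG O (β I)) (hw : C.WN S α q x (f - ∑ I ∈ α.powersetCard q, lgI h I (β I)))
    (hr : ∀ I ∈ α.powersetCard q, C.NulN (St S C.D I) ∅ x (r I - β I)) :
    C.RH S α h q x f r := by
  choose! U hU hxU hV using hr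
  refine ⟨O ∩ ⋂ I ∈ α.powersetCard q, U I, β, hO.inter (isOpen_biInter_finset hU),
    ⟨hx, mem_iInter₂.2 hxU⟩, fun I => (hβ I).anti_DL2 inter_subset_left, hw,
    fun I hI => (hV I hI).anti ?_⟩
  rintro y ⟨hy, -, hy'⟩
  exact ⟨⟨hy, mem_iInter₂.1 hy' I hI⟩, by simp [Off]⟩

/-! ### residues -/
theorem Eqs.ev {h : ι → V → ℂ} (hh : C.Eqs α x h) : ∀ᶠ y in 𝓝 x, C.Eqs α y h := by
  obtain ⟨O, hO, hx, H⟩ := hh
  filter_upwards [hO.mem_nhds hx] with y hy using ⟨O, hO, hy, H⟩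

theorem RH.of_wn {h : ι → V → ℂ} (hf : C.WN S α q x f)
    (hr : ∀ I ∈ α.powersetCard q, C.NulN (St S C.D I) ∅ x (r I)) : C.RH S α h q x f r := by
  refine RH.mk_DL2 (β := fun _ => 0) isOpen_univ (mem_univ x) (fun _ _ => contDiffOn_const) ?_ ?_
  · simpa only [lgI_zero, Finset.sum_const_zero, sub_zero] using hf
  · simpa only [sub_zero] using hr

theorem RH.ev {h : ι → V → ℂ} (hf : C.RH S α h q x f r) : ∀ᶠ y in 𝓝 x, C.RH S α h q y f r := by
  obtain ⟨O, β, hO, hx, hβ, hw, hr⟩ := hf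
  filter_upwards [hO.mem_nhds hx, hw.ev] with y hy hw' using ⟨O, β, hO, hy, hβ, hw', hr⟩

theorem RH.add (hC : C.OK S) {h : ι → V → ℂ} (hf : C.RH S α h q x f r) (hg : C.RH S α h q x g r') :
    C.RH S α h q x (f + g) (r + r') := by
  obtain ⟨O, β, hO, hx, hβ, hw, hr⟩ := hf
  obtain ⟨O', β', hO', hx', hβ', hw', hr'⟩ := hg
  refine RH.mk_DL2 (β := fun I => β I + β' I) (hO.inter hO') ⟨hx, hx'⟩
    (fun I n => ((hβ I n).mono inter_subset_left).add ((hβ' I n).mono inter_subset_right)) ?_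
    fun I hI => ?_
  · convert hw.add hC hw' using 1
    simp only [lgI_add, Finset.sum_add_distrib]
    abel
  · convert (NulN.of_open_DL2 (C := C) (α := ∅) hO hx (hr I hI)).add
      (NulN.of_open_DL2 hO' hx' (hr' I hI)) using 1
    simp only [Pi.add_apply]
    abel

theorem RH.smul (c : ℂ) {h : ι → V → ℂ} (hf : C.RH S α h q x f r) :
    C.RH S α h q x (c • f) (c • r) := by
  obtain ⟨O, β, hO, hx, hβ, hw, hr⟩ := hf
  refine ⟨O, fun I => c • β I, hO, hx, fun I n => (hβ I n).const_smul c, ?_, fun I hI => ?_⟩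
  · convert hw.smul c using 1
    simp only [lgI_smul, smul_sub, Finset.smul_sum]
  · convert (hr I hI).smul c using 1
    simp only [Pi.smul_apply, smul_sub]

theorem RH.congr (hC : C.OK S) {h : ι → V → ℂ} (hf : C.RH S α h q x f r)
    (h1 : C.WN S α q x (g - f))
    (h2 : ∀ I ∈ α.powersetCard q, C.NulN (St S C.D I) ∅ x (r' I - r I)) :
    C.RH S α h q x g r' := by
  obtain ⟨O, β, hO, hx, hβ, hw, hr⟩ := hf
  refine RH.mk_DL2 hO hx hβ ?_ fun I hI => ?_
  · convert h1.add hC hw using 1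
    abel
  · convert (h2 I hI).add (NulN.of_open_DL2 hO hx (hr I hI)) using 1
    abel

theorem RH.wn (hC : C.OK S) {h : ι → V → ℂ} (hh : C.Eqs α x h) (hf : C.RH S α h q x f r) :
    C.WN S α (q + 1) x f := by
  obtain ⟨O, β, hO, hx, hβ, hw, -⟩ := hf
  have h1 : C.WN S α (q + 1) x (∑ I ∈ α.powersetCard q, lgI h I (β I)) :=
    WN.sum hC _ fun I hI => by
      obtain ⟨h2, h3⟩ := Finset.mem_powersetCard.1 hI
      exact h3 ▸ WN.lgI hC hh h2 hO hx (hβ I)
  simpa only [sub_add_cancel] using (hw.mono (Nat.le_succ q)).add hC h1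

theorem RH.sm {h : ι → V → ℂ} (hf : C.RH S α h q x f r) : ∃ r' : Finset ι → GF V,
    (∀ I, C.SmN univ ∅ x (r' I)) ∧
    ∀ I ∈ α.powersetCard q, C.NulN (St S C.D I) ∅ x (r I - r' I) := by
  obtain ⟨O, β, hO, hx, hβ, -, hr⟩ := hf
  exact ⟨β, fun I => SmN.of_smG hO hx (hβ I), fun I hI => NulN.of_open_DL2 hO hx (hr I hI)⟩

theorem RH.d (hC : C.OK S) {h : ι → V → ℂ} (hh : C.Eqs α x h) (hf : C.RH S α h q x f r)
    (h1 : C.SmN S α x f) (h2 : ∀ I ∈ α.powersetCard q, C.SmN (St S C.D I) ∅ x (r I)) :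
    C.RH S α h q x (dG f) fun I => (-1 : ℂ) ^ q • dG (r I) := by
  obtain ⟨O, β, hO, hx, hβ, hw, hr⟩ := hf
  have hl : ∀ I ∈ α.powersetCard q, C.SmN S α x (lgI h I (β I)) := fun I hI =>
    SmN.lgI hC hh (Finset.mem_powersetCard.1 hI).1 (SmN.of_smG hO hx (hβ I))
  refine RH.mk_DL2 (β := fun I => (-1 : ℂ) ^ q • dG (β I)) hO hx
    (fun I => (((hβ I).smS hO subset_rfl).d.smul _).smG_DL2) ?_ fun I hI => ?_
  · refine (hw.d hC (h1.sub (SmN.sum _ hl))).congr hC ?_
    have h3 := (NulN.d_sub h1 (SmN.sum _ hl)).neg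
    have h4 := NulN.d_sum_DL2 _ hl
    have h5 : C.NulN S α x (∑ I ∈ α.powersetCard q,
        (dG (lgI h I (β I)) - (-1 : ℂ) ^ q • lgI h I (dG (β I)))) :=
      NulN.sum _ fun I hI => by
        obtain ⟨h6, h7⟩ := Finset.mem_powersetCard.1 hI
        exact h7 ▸ NulN.d_lgI hC hh h6 (SmN.of_smG hO hx (hβ I))
    convert (h3.add h4).add h5 using 1
    simp only [lgI_smul, Finset.sum_sub_distrib]
    abel
  · have h3 : C.SmN (St S C.D I) ∅ x (β I) := SmN.of_smG hO hx (hβ I)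
    have h4 := (NulN.of_open_DL2 hO hx (hr I hI)).d ((h2 I hI).sub h3)
    convert (h4.sub (NulN.d_sub (h2 I hI) h3)).smul ((-1 : ℂ) ^ q) using 1
    rw [sub_sub_cancel, smul_sub]

theorem RH.mul (hC : C.OK S) {h : ι → V → ℂ} {χ : V → ℂ} (hO : IsOpen O) (hx : x ∈ O)
    (hχ : ContDiffOn ℝ ∞ χ O) (hf : C.RH S α h q x f r) :
    C.RH S α h q x (mulG χ f) fun I => mulG χ (r I) := by
  obtain ⟨O', β, hO', hx', hβ, hw, hr⟩ := hf
  refine RH.mk_DL2 (β := fun I => mulG χ (β I)) (hO.inter hO') ⟨hx, hx'⟩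
    (fun I => (SmS.mul hO inter_subset_left hχ ((hβ I).smS hO' inter_subset_right)).smG_DL2) ?_
    fun I hI => ?_
  · convert hw.mul hC hO hx hχ using 1
    simp only [mulG_sub_DL2, mulG_sum_DL2, lgI_mulG]
  · convert (NulN.of_open_DL2 (C := C) (α := ∅) hO' hx' (hr I hI)).mul χ using 1
    rw [mulG_sub_DL2]

theorem RH.prj (n : ℕ) {h : ι → V → ℂ} (hf : C.RH S α h q x f r) :
    C.RH S α h q x (prj (n + q) f) fun I => PWD.prj n (r I) := by
  obtain ⟨O, β, hO, hx, hβ, hw, hr⟩ := hf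
  refine ⟨O, fun I => PWD.prj n (β I), hO, hx,
    fun I => (((hβ I).smS hO subset_rfl).prj n).smG_DL2, ?_, fun I hI => ?_⟩
  · convert hw.prj (n + q) using 1
    rw [prj_sub_DL2, prj_sum_DL2]
    congr 1
    refine Finset.sum_congr rfl fun I hI => ?_
    rw [← prj_lgI, (Finset.mem_powersetCard.1 hI).2]
  · convert (hr I hI).prj n using 1
    rw [prj_sub_DL2]

theorem RH.prj_lt {n : ℕ} (hn : n < q) {h : ι → V → ℂ} (hf : C.RH S α h q x f r) :
    C.WN S α q x (PWD.prj n f) := by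
  obtain ⟨O, β, -, -, -, hw, -⟩ := hf
  convert hw.prj n using 1
  rw [prj_sub_DL2, prj_sum_DL2, Finset.sum_eq_zero, sub_zero]
  intro I hI
  exact prj_lgI_lt h I ((Finset.mem_powersetCard.1 hI).2.symm ▸ hn) _


end Ctx

end Pool.Agent.PWD
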