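import Pool.Agent.P.MP_65ad7c_ag.DL1

/-! Formal properties of the germ conditions. -/

open Set Filter Topology
open scoped ContDiff

noncomputable section
namespace Pool.Agent.PWD

variable {V : Type} [NormedAddCommGroup V] [NormedSpace ℝ V] {ι : Type} [LinearOrder ι]
  {C : Ctx V ι} {S S' O : Set V} {α α' : Finset ι} {f g : GF V} {x : V} {w p q : ℕ}
  {r r' : Finset ι → GF V}

theorem smS_lg_DL2a {h : V → ℂ} (hO : IsOpen O) (hS : S ⊆ O) (hh : ContDiffOn ℝ ∞ h O)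
    (h0 : ∀ y ∈ S, h y ≠ 0) (hf : SmS S f) : SmS S (lg h f) := by
  have hO' : IsOpen (O ∩ h ⁻¹' {0}ᶜ) :=
    hh.continuousOn.isOpen_inter_preimage hO isClosed_singleton.isOpen_compl
  refine SmS.wG hO' (fun y hy => ⟨hS hy, h0 y hy⟩) ?_ hf
  exact ((hh.mono inter_subset_left).inv fun y hy => hy.2).smul
    ((hh.fderiv_of_isOpen hO (by simp)).mono inter_subset_left)

omit [LinearOrder ι] [NormedAddCommGroup V] [NormedSpace ℝ V] in
theorem off_mono_DL2a (D : ι → Set V) (h : α ⊆ α') : Off D α ⊆ Off D α' :=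
  biUnion_subset_biUnion_left h

omit [LinearOrder ι] [NormedAddCommGroup V] [NormedSpace ℝ V] in
theorem off_notMem_DL2a {D : ι → Set V} {i : ι} (hi : i ∈ α) (hx : x ∉ Off D α) : x ∉ D i :=
  fun h => hx (mem_biUnion hi h)

omit [LinearOrder ι] [NormedSpace ℝ V] in
theorem two_DL2a {P Q R : Set V → Prop} {A : Set V} (hP : ∀ T T', T' ⊆ T → P T → P T')
    (hQ : ∀ T T', T' ⊆ T → Q T → Q T') (hR : ∀ T, P T → Q T → R T)
    (h : ∃ O, IsOpen O ∧ x ∈ O ∧ P ((S ∩ O) \ A)) (h' : ∃ O, IsOpen O ∧ x ∈ O ∧ Q ((S ∩ O) \ A)) :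
    ∃ O, IsOpen O ∧ x ∈ O ∧ R ((S ∩ O) \ A) := by
  obtain ⟨O, h1, h2, h3⟩ := h
  obtain ⟨O', k1, k2, k3⟩ := h'
  exact ⟨O ∩ O', h1.inter k1, ⟨h2, k2⟩,
    hR _ (hP _ _ (sdiff_subset_sdiff_left (inter_subset_inter_right _ inter_subset_left)) h3)
      (hQ _ _ (sdiff_subset_sdiff_left (inter_subset_inter_right _ inter_subset_right)) k3)⟩

omit [LinearOrder ι] in
theorem list_DL2a {h : ι → V → ℂ} (hO : IsOpen O) (hS : S ⊆ O) (hf : SmS S f) (L : List ι)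
    (hh : ∀ i ∈ L, ContDiffOn ℝ ∞ (h i) O ∧ ∀ y ∈ S, h i y ≠ 0) :
    SmS S (L.foldr (fun i g => lg (h i) g) f) ∧
      VanG S (dG (L.foldr (fun i g => lg (h i) g) f) -
        (-1 : ℂ) ^ L.length • L.foldr (fun i g => lg (h i) g) (dG f)) := by
  induction L with
  | nil => exact ⟨hf, by simpa using VanG.zero⟩
  | cons i L ih =>
    obtain ⟨h1, h2⟩ := ih fun j hj => hh j (List.mem_cons_of_mem _ hj)
    obtain ⟨k1, k2⟩ := hh i List.mem_cons_self
    refine ⟨smS_lg_DL2a hO hS k1 k2 h1, ?_⟩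
    have h3 := (VanG.d_lg hO hS k1 k2 h1).sub (h2.wG fun x => (h i x)⁻¹ • fderiv ℝ (h i) x)
    rw [wG_sub, wG_smul] at h3
    have e : ∀ (c : ℂ) (a : GF V), (-c) • a = -(c • a) := fun c a => neg_smul c a
    rw [List.foldr_cons, List.foldr_cons, List.length_cons, pow_succ, mul_neg_one, e,
      sub_neg_eq_add]
    rwa [add_sub_assoc, lg, lg, sub_sub_cancel] at h3

theorem LW.smS (hC : C.OK S) (hO : IsOpen O) (h : LW (C.G O) C.D S O α w f) :
    SmS ((S ∩ O) \ Off C.D α) f := by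
  induction h with
  | zero => exact .zero
  | smooth h => exact h.smS hO fun y hy => hy.1.2
  | add _ _ h1 h2 => exact h1.add h2
  | mono i _ h1 => exact h1.anti (sdiff_subset_sdiff_right (off_mono_DL2a _ (Finset.erase_subset _ _)))
  | up hi hh _ h1 =>
    exact smS_lg_DL2a hO (fun y hy => hy.1.2) (hC.smooth _ _ _ hh)
      (fun y hy => hC.ne _ _ _ hh y hy.1 (off_notMem_DL2a hi hy.2))
      (h1.anti (sdiff_subset_sdiff_right (off_mono_DL2a _ (Finset.erase_subset _ _))))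
  | van hi hh _ _ h1 =>
    exact smS_lg_DL2a hO (fun y hy => hy.1.2) (hC.smooth _ _ _ hh)
      (fun y hy => hC.ne _ _ _ hh y hy.1 (off_notMem_DL2a hi hy.2))
      (h1.anti (sdiff_subset_sdiff_right (off_mono_DL2a _ (Finset.erase_subset _ _))))
theorem TW.smS (hC : C.OK S) (hO : IsOpen O) (h : TW {h | ∃ i ∈ α, h ∈ C.G O i} O w f) :
    SmS ((S ∩ O) \ Off C.D α) f := by
  induction h with
  | zero => exact .zero
  | smooth h => exact h.smS hO fun y hy => hy.1.2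
  | add _ _ h1 h2 => exact h1.add h2
  | log hh _ h1 =>
    obtain ⟨i, hi, hh⟩ := hh
    exact smS_lg_DL2a hO (fun y hy => hy.1.2) (hC.smooth _ _ _ hh)
      (fun y hy => hC.ne _ _ _ hh y hy.1 (off_notMem_DL2a hi hy.2)) h1
theorem TW.lg {G : Set (V → ℂ)} (h : TW G O w f) (n : ℕ) : Lg G O w n (f n) := by
  induction h generalizing n with
  | zero => exact .zero
  | smooth h => exact .smooth (h n)
  | add _ _ h1 h2 => exact (h1 n).add (h2 n)
  | log hh _ h1 =>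
    cases n with
    | zero => exact .zero
    | succ n => exact .log hh (h1 n)
theorem Lg.tw {G : Set (V → ℂ)} {n : ℕ} {β : HT.Form V n} (h : Lg G O w n β) :
    TW G O w (Pi.single n β) := by
  induction h with
  | zero => rw [Pi.single_zero]; exact .zero
  | @smooth w n β h =>
    refine .smooth fun m => ?_
    by_cases e : m = n
    · subst e
      rwa [Pi.single_eq_same]
    · rw [Pi.single_eq_of_ne e]
      exact contDiffOn_const
  | add _ _ h1 h2 => rw [Pi.single_add]; exact h1.add h2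
  | @log w n β h hh _ h1 =>
    have e := prj_wG (fun x => (h x)⁻¹ • fderiv ℝ h x) n (Pi.single n β)
    simp only [prj, wG, Pi.single_eq_same] at e
    rw [e]
    exact .log hh h1

namespace Ctx

theorem OK.anti (h : C.OK S) (hS : S' ⊆ S) : C.OK S' :=
  ⟨h.smooth, fun O i k hk y hy => h.ne O i k hk y ⟨hS hy.1, hy.2⟩, h.mono⟩

/-! ### `NulN`, `SmN`, `FN` -/
theorem NulN.of_van (h : VanG (S \ Off C.D α) f) : C.NulN S α x f :=
  ⟨univ, isOpen_univ, trivial, by rwa [inter_univ]⟩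
theorem NulN.of_notMem (hS : IsClosed S) (hx : x ∉ S) (f : GF V) : C.NulN S α x f :=
  ⟨Sᶜ, hS.isOpen_compl, hx, by rw [inter_compl_self, empty_sdiff]; exact .empty⟩
theorem NulN.glob (h : ∀ x ∈ S, C.NulN S α x f) : VanG (S \ Off C.D α) f :=
  VanG.loc fun y hy => by
    obtain ⟨O, h1, h2, h3⟩ := h y hy.1
    exact ⟨O, h1, h2, h3.anti fun z hz => ⟨⟨hz.1.1, hz.2⟩, hz.1.2⟩⟩
theorem NulN.ev (h : C.NulN S α x f) : ∀ᶠ y in 𝓝 x, C.NulN S α y f := by
  obtain ⟨O, h1, h2, h3⟩ := h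
  filter_upwards [h1.mem_nhds h2] with y hy using ⟨O, h1, hy, h3⟩
theorem NulN.anti (h : C.NulN S α x f) (hS : S' ⊆ S) (hα : α ⊆ α') : C.NulN S' α' x f := by
  obtain ⟨O, h1, h2, h3⟩ := h
  exact ⟨O, h1, h2, h3.anti (sdiff_subset_sdiff (inter_subset_inter_left _ hS) (off_mono_DL2a _ hα))⟩
theorem NulN.zero : C.NulN S α x 0 := ⟨univ, isOpen_univ, trivial, .zero⟩
theorem NulN.add (h : C.NulN S α x f) (h' : C.NulN S α x g) : C.NulN S α x (f + g) :=
  two_DL2a (fun _ _ e k => VanG.anti k e) (fun _ _ e k => VanG.anti k e) (fun _ k k' => k.add k') h h'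
theorem NulN.smul (c : ℂ) (h : C.NulN S α x f) : C.NulN S α x (c • f) :=
  h.imp fun _ k => ⟨k.1, k.2.1, k.2.2.smul c⟩
theorem NulN.neg (h : C.NulN S α x f) : C.NulN S α x (-f) :=
  h.imp fun _ k => ⟨k.1, k.2.1, k.2.2.neg⟩
theorem NulN.sub (h : C.NulN S α x f) (h' : C.NulN S α x g) : C.NulN S α x (f - g) :=
  two_DL2a (fun _ _ e k => VanG.anti k e) (fun _ _ e k => VanG.anti k e) (fun _ k k' => k.sub k') h h'
theorem NulN.sum {κ : Type} (s : Finset κ) {f : κ → GF V} (h : ∀ i ∈ s, C.NulN S α x (f i)) :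
    C.NulN S α x (∑ i ∈ s, f i) :=
  Finset.sum_induction f _ (fun _ _ => NulN.add) NulN.zero h
theorem NulN.d (h : C.NulN S α x f) (h' : C.SmN S α x f) : C.NulN S α x (dG f) :=
  two_DL2a (fun _ _ e k => VanG.anti k e) (fun _ _ e k => SmS.anti k e) (fun _ k k' => k.d k') h h'
theorem NulN.conj (h : C.NulN S α x f) : C.NulN S α x (conjG f) :=
  h.imp fun _ k => ⟨k.1, k.2.1, k.2.2.conj⟩
theorem NulN.eps (h : C.NulN S α x f) : C.NulN S α x (epsG f) :=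
  h.imp fun _ k => ⟨k.1, k.2.1, k.2.2.eps⟩
theorem NulN.prj (n : ℕ) (h : C.NulN S α x f) : C.NulN S α x (prj n f) :=
  h.imp fun _ k => ⟨k.1, k.2.1, k.2.2.prj n⟩
theorem NulN.mul (χ : V → ℂ) (h : C.NulN S α x f) : C.NulN S α x (mulG χ f) :=
  h.imp fun _ k => ⟨k.1, k.2.1, k.2.2.mul χ⟩
theorem NulN.mul_of_zero {χ : V → ℂ} (h : x ∉ tsupport χ) (f : GF V) :
    C.NulN S α x (mulG χ f) :=
  ⟨(tsupport χ)ᶜ, (isClosed_tsupport χ).isOpen_compl, h, .of_zero fun n y hy => by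
    show χ y • f n y = 0
    rw [image_eq_zero_of_notMem_tsupport hy.1.2]
    exact zero_smul ℂ (f n y)⟩
theorem NulN.mul_of_one {χ : V → ℂ} (h : ∀ᶠ y in 𝓝 x, χ y = 1) (f : GF V) :
    C.NulN S α x (f - mulG χ f) := by
  obtain ⟨O, h1, h2, h3⟩ := eventually_nhds_iff.1 h
  refine ⟨O, h2, h3, .of_zero fun n y hy => ?_⟩
  show f n y - χ y • f n y = 0
  rw [h1 y hy.1.2, one_smul, sub_self]
theorem NulN.dd (h : C.SmN S α x f) : C.NulN S α x (dG (dG f)) :=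
  h.imp fun _ k => ⟨k.1, k.2.1, VanG.dd k.2.2⟩
theorem NulN.d_add (h : C.SmN S α x f) (h' : C.SmN S α x g) :
    C.NulN S α x (dG (f + g) - (dG f + dG g)) :=
  two_DL2a (fun _ _ e k => SmS.anti k e) (fun _ _ e k => SmS.anti k e) (fun _ k k' => VanG.d_add k k') h h'
theorem NulN.d_sub (h : C.SmN S α x f) (h' : C.SmN S α x g) :
    C.NulN S α x (dG (f - g) - (dG f - dG g)) :=
  two_DL2a (fun _ _ e k => SmS.anti k e) (fun _ _ e k => SmS.anti k e) (fun _ k k' => VanG.d_sub k k') h h'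
theorem lgI_DL2a (hC : C.OK S) {h : ι → V → ℂ} (hh : C.Eqs α x h) {I : Finset ι} (hI : I ⊆ α)
    (hf : C.SmN S α x f) : C.SmN S α x (lgI h I f) ∧
    C.NulN S α x (dG (lgI h I f) - (-1 : ℂ) ^ I.card • lgI h I (dG f)) := by
  obtain ⟨O, h1, h2, h3⟩ := hh
  obtain ⟨O', k1, k2, k3⟩ := hf
  have := list_DL2a (S := (S ∩ (O ∩ O')) \ Off C.D α) (h := h) (h1.inter k1) (fun y hy => hy.1.2)
    (k3.anti fun y hy => ⟨⟨hy.1.1, hy.1.2.2⟩, hy.2⟩) (I.sort (· ≤ ·)) fun i hi => by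
      have hi' := hI ((Finset.mem_sort _).1 hi)
      have hk := h3 _ (inter_subset_left (t := O')) i hi'
      exact ⟨hC.smooth _ _ _ hk, fun y hy => hC.ne _ _ _ hk y hy.1 (off_notMem_DL2a hi' hy.2)⟩
  rw [Finset.length_sort] at this
  exact ⟨⟨_, h1.inter k1, ⟨h2, k2⟩, this.1⟩, ⟨_, h1.inter k1, ⟨h2, k2⟩, this.2⟩⟩
theorem NulN.d_lgI (hC : C.OK S) {h : ι → V → ℂ} (hh : C.Eqs α x h) {I : Finset ι} (hI : I ⊆ α)
    (hf : C.SmN S α x f) :
    C.NulN S α x (dG (lgI h I f) - (-1 : ℂ) ^ I.card • lgI h I (dG f)) :=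
  (lgI_DL2a hC hh hI hf).2

theorem SmN.of_smS (h : SmS (S \ Off C.D α) f) : C.SmN S α x f :=
  ⟨univ, isOpen_univ, trivial, by rwa [inter_univ]⟩
theorem SmN.of_smG (hO : IsOpen O) (hx : x ∈ O) (h : SmG O f) : C.SmN S α x f :=
  ⟨O, hO, hx, h.smS hO fun _ hy => hy.1.2⟩
theorem SmN.ev (h : C.SmN S α x f) : ∀ᶠ y in 𝓝 x, C.SmN S α y f := by
  obtain ⟨O, h1, h2, h3⟩ := h
  filter_upwards [h1.mem_nhds h2] with y hy using ⟨O, h1, hy, h3⟩
theorem SmN.anti (h : C.SmN S α x f) (hS : S' ⊆ S) (hα : α ⊆ α') : C.SmN S' α' x f := by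
  obtain ⟨O, h1, h2, h3⟩ := h
  exact ⟨O, h1, h2, h3.anti (sdiff_subset_sdiff (inter_subset_inter_left _ hS) (off_mono_DL2a _ hα))⟩
theorem SmN.zero : C.SmN S α x 0 := ⟨univ, isOpen_univ, trivial, .zero⟩
theorem SmN.add (h : C.SmN S α x f) (h' : C.SmN S α x g) : C.SmN S α x (f + g) :=
  two_DL2a (fun _ _ e k => SmS.anti k e) (fun _ _ e k => SmS.anti k e) (fun _ k k' => k.add k') h h'
theorem SmN.smul (c : ℂ) (h : C.SmN S α x f) : C.SmN S α x (c • f) :=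
  h.imp fun _ k => ⟨k.1, k.2.1, k.2.2.smul c⟩
theorem SmN.sub (h : C.SmN S α x f) (h' : C.SmN S α x g) : C.SmN S α x (f - g) :=
  two_DL2a (fun _ _ e k => SmS.anti k e) (fun _ _ e k => SmS.anti k e) (fun _ k k' => k.sub k') h h'
theorem SmN.sum {κ : Type} (s : Finset κ) {f : κ → GF V} (h : ∀ i ∈ s, C.SmN S α x (f i)) :
    C.SmN S α x (∑ i ∈ s, f i) :=
  Finset.sum_induction f _ (fun _ _ => SmN.add) SmN.zero h
theorem SmN.d (h : C.SmN S α x f) : C.SmN S α x (dG f) :=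
  h.imp fun _ k => ⟨k.1, k.2.1, k.2.2.d⟩
theorem SmN.conj (h : C.SmN S α x f) : C.SmN S α x (conjG f) :=
  h.imp fun _ k => ⟨k.1, k.2.1, k.2.2.conj⟩
theorem SmN.eps (h : C.SmN S α x f) : C.SmN S α x (epsG f) :=
  h.imp fun _ k => ⟨k.1, k.2.1, k.2.2.eps⟩
theorem SmN.prj (n : ℕ) (h : C.SmN S α x f) : C.SmN S α x (prj n f) :=
  h.imp fun _ k => ⟨k.1, k.2.1, k.2.2.prj n⟩
theorem SmN.lgI (hC : C.OK S) {h : ι → V → ℂ} (hh : C.Eqs α x h) {I : Finset ι} (hI : I ⊆ α)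
    (hf : C.SmN S α x f) : C.SmN S α x (lgI h I f) :=
  (lgI_DL2a hC hh hI hf).1
/-- every smooth germ is the germ of a global smooth family -/
theorem SmN.glob [FiniteDimensional ℝ V] (h : C.SmN S α x f) :
    ∃ g, SmS (S \ Off C.D α) g ∧ C.NulN S α x (f - g) := by
  obtain ⟨O, h1, h2, h3⟩ := h
  obtain ⟨χ, k1, -, k2, -, k3⟩ :=
    Wein.exists_bump {x} O isCompact_singleton h1 (singleton_subset_iff.2 h2)
  rw [nhdsSet_singleton] at k3
  refine ⟨mulG (fun y => (χ y : ℂ)) f, SmS.cut (Complex.ofRealCLM.contDiff.comp k1) h1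
    ((tsupport_comp_subset (g := fun r : ℝ => (r : ℂ)) rfl χ).trans k2)
    (h3.anti fun y hy => ⟨⟨hy.1.1, hy.2⟩, hy.1.2⟩), NulN.mul_of_one (k3.mono fun y hy => ?_) f⟩
  rw [hy, Complex.ofReal_one]

/-- the type defect -/
def ty_DL2a (C : Ctx V ι) (p : ℕ) (f : GF V) : GF V := fun n x => tyA (C.J x) p n (f n x)

omit [LinearOrder ι] in
theorem fn_DL2a {g : GF V} (h : C.NulN S α x g) (e : C.ty_DL2a p f = g) : C.FN S α p x f := by
  subst e
  exact h

omit [LinearOrder ι] in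
theorem tyz_DL2a (J : V →L[ℝ] V) (p n : ℕ) : tyA J p n 0 = 0 :=
  (congrArg _ (zero_smul ℂ (0 : HT.Alt V n)).symm).trans
    ((tyA_smul J p n 0 0).trans (zero_smul ℂ (tyA J p n 0)))

theorem FN.ev (h : C.FN S α p x f) : ∀ᶠ y in 𝓝 x, C.FN S α p y f := NulN.ev (f := C.ty_DL2a p f) h
theorem FN.of_notMem (hS : IsClosed S) (hx : x ∉ S) (f : GF V) : C.FN S α p x f :=
  NulN.of_notMem hS hx (C.ty_DL2a p f)
theorem FN.anti (h : C.FN S α p x f) (hS : S' ⊆ S) (hα : α ⊆ α') : C.FN S' α' p x f :=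
  NulN.anti (f := C.ty_DL2a p f) h hS hα
theorem FN.glob (h : ∀ x ∈ S, C.FN S α p x f) : TyV C.J (S \ Off C.D α) p f :=
  NulN.glob (f := C.ty_DL2a p f) h
theorem FN.zero : C.FN S α p x 0 :=
  fn_DL2a NulN.zero (funext fun n => funext fun y => tyz_DL2a (C.J y) p n)
theorem FN.add (h : C.FN S α p x f) (h' : C.FN S α p x g) : C.FN S α p x (f + g) :=
  fn_DL2a (NulN.add (f := C.ty_DL2a p f) (g := C.ty_DL2a p g) h h')
    (funext fun n => funext fun y => tyA_add (C.J y) p n _ _)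
theorem FN.smul (c : ℂ) (h : C.FN S α p x f) : C.FN S α p x (c • f) :=
  fn_DL2a (NulN.smul (f := C.ty_DL2a p f) c h)
    (funext fun n => funext fun y => tyA_smul (C.J y) p n c _)
theorem FN.sub (h : C.FN S α p x f) (h' : C.FN S α p x g) : C.FN S α p x (f - g) := by
  have := h.add (h'.smul (-1))
  rwa [show (-1 : ℂ) • g = -g from neg_one_smul ℂ g, ← sub_eq_add_neg] at this
theorem FN.sum {κ : Type} (s : Finset κ) {f : κ → GF V} (h : ∀ i ∈ s, C.FN S α p x (f i)) :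
    C.FN S α p x (∑ i ∈ s, f i) :=
  Finset.sum_induction f _ (fun _ _ => FN.add) FN.zero h
theorem FN.eps (h : C.FN S α p x f) : C.FN S α p x (epsG f) :=
  fn_DL2a (NulN.eps (f := C.ty_DL2a p f) h)
    (funext fun n => funext fun y => tyA_smul (C.J y) p n _ _)
theorem FN.prj (n : ℕ) (h : C.FN S α p x f) : C.FN S α p x (prj n f) :=
  fn_DL2a (NulN.prj (f := C.ty_DL2a p f) n h) (funext fun m => funext fun y => by
    by_cases e : m = n
    · subst e
      simp only [ty_DL2a, PWD.prj, Pi.single_eq_same]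
    · simp only [ty_DL2a, PWD.prj, Pi.single_eq_of_ne e]
      exact tyz_DL2a (C.J y) p m)
theorem FN.mul (χ : V → ℂ) (h : C.FN S α p x f) : C.FN S α p x (mulG χ f) :=
  fn_DL2a (NulN.mul (f := C.ty_DL2a p f) χ h)
    (funext fun n => funext fun y => tyA_smul (C.J y) p n _ _)
theorem FN.mul_of_zero {χ : V → ℂ} (h : x ∉ tsupport χ) (f : GF V) :
    C.FN S α p x (mulG χ f) :=
  fn_DL2a (NulN.mul_of_zero h (C.ty_DL2a p f))
    (funext fun n => funext fun y => tyA_smul (C.J y) p n _ _)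

end Ctx

end Pool.Agent.PWD
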