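import Pool.Agent.P.MP_65ad7c_ag.DL2a

/-! Formal properties of the germ conditions. -/

open Set Filter Topology
open scoped ContDiff

noncomputable section
namespace Pool.Agent.PWD

variable {V : Type} [NormedAddCommGroup V] [NormedSpace ℝ V] {ι : Type} [LinearOrder ι]
  {C : Ctx V ι} {S S' O : Set V} {α α' : Finset ι} {f g : GF V} {x : V} {w p q : ℕ}
  {r r' : Finset ι → GF V}

section aux
variable {G G' : ι → Set (V → ℂ)} {H H' : Set (V → ℂ)} {D : ι → Set V} {O' : Set V}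

theorem smG_DL2b (h : SmS O f) : SmG O f := fun n => by
  obtain ⟨U, -, hU, h⟩ := h n
  exact h.mono hU

theorem off_DL2b (hS : S' ⊆ S) (hα : α ⊆ α') : S' \ Off D α' ⊆ S \ Off D α := by
  rintro y ⟨hy, hy'⟩
  refine ⟨hS hy, fun h => hy' ?_⟩
  simp only [Off, mem_iUnion] at h ⊢
  obtain ⟨i, hi, h⟩ := h
  exact ⟨i, hα hi, h⟩

theorem nD_DL2b {i : ι} {y : V} (hi : i ∈ α) (hy : y ∈ S \ Off D α) : y ∉ D i := fun h =>
  hy.2 (by simp only [Off, mem_iUnion]; exact ⟨i, hi, h⟩)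

theorem sz_DL2b (c : ℂ) : c • (0 : GF V) = 0 := by
  funext n y; ext v; simp
theorem ss_DL2b (c : ℂ) (f g : GF V) : c • f - c • g = c • (f - g) := by
  funext n y; ext v; simp [mul_sub]
theorem n1_DL2b (f : GF V) : (-1 : ℂ) • f = -f := by
  funext n y; ext v; simp
theorem eps_add_DL2b (f g : GF V) : epsG (f + g) = epsG f + epsG g := by
  funext n; simp [epsG, smul_add]
theorem eps_zero_DL2b : epsG (0 : GF V) = 0 := by
  funext n y; ext v; simp [epsG]
theorem mul_add_DL2b (χ : V → ℂ) (f g : GF V) : mulG χ (f + g) = mulG χ f + mulG χ g := by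
  funext n y; simp [mulG, smul_add]
theorem mul_zero_DL2b (χ : V → ℂ) : mulG χ (0 : GF V) = 0 := by
  funext n y; ext v; simp [mulG]
theorem prj_add_DL2b (n : ℕ) (f g : GF V) : prj n (f + g) = prj n f + prj n g := by
  simp only [prj, Pi.add_apply]; exact Pi.single_add n _ _
theorem prj_zero_DL2b (n : ℕ) : prj n (0 : GF V) = 0 := by
  simp only [prj, Pi.zero_apply]; exact Pi.single_zero n
theorem sub_DL2b {T : GF V → GF V} (hadd : ∀ f g, T (f + g) = T f + T g) (f g : GF V) :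
    T f - T g = T (f - g) := by
  have := hadd (f - g) g
  rw [sub_add_cancel] at this
  rw [this]; abel
theorem lg_smul_DL2b (h : V → ℂ) (c : ℂ) (f : GF V) : c • lg h f = lg h (c • f) :=
  (wG_smul _ c f).symm
theorem eps_lg_DL2b (h : V → ℂ) (f : GF V) : epsG (lg h f) = lg h ((-1 : ℂ) • epsG f) := by
  rw [← lg_smul_DL2b, lg, lg, wG_epsG, n1_DL2b, neg_neg]
theorem mul_lg_DL2b (χ h : V → ℂ) (f : GF V) : mulG χ (lg h f) = lg h ((1 : ℂ) • mulG χ f) := by
  rw [one_smul, lg, lg, wG_mulG]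
theorem wG_lg_DL2b (ξ : V → V →L[ℝ] ℂ) (h : V → ℂ) (f : GF V) :
    wG ξ (lg h f) = lg h ((-1 : ℂ) • wG ξ f) := by
  rw [← lg_smul_DL2b, lg, lg, wG_wG, n1_DL2b]
theorem prj_lg_DL2b (n : ℕ) (h : V → ℂ) (f : GF V) : prj (n + 1) (lg h f) = lg h (prj n f) :=
  prj_wG _ n f
theorem prj0_lg_DL2b (h : V → ℂ) (f : GF V) : prj 0 (lg h f) = 0 := prj_zero_wG _ f
theorem dlg_DL2b (h : V → ℂ) (f f2 : GF V) : dG (lg h f) - lg h ((-1 : ℂ) • f2) =
    (dG (lg h f) + lg h (dG f)) - lg h (dG f - f2) := by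
  rw [← lg_smul_DL2b, n1_DL2b]
  simp only [lg, wG_sub]
  abel

/-! ### `LW` -/

theorem LW.anti_DL2b (h : LW G D S O α w f) (hG : ∀ i, G i ⊆ G' i) (hS : S' ⊆ S) (hO : O' ⊆ O) :
    LW G' D S' O' α w f := by
  induction h with
  | zero => exact .zero
  | smooth h => exact .smooth fun n => (h n).mono hO
  | add _ _ h1 h2 => exact .add h1 h2
  | mono i _ h => exact .mono i h
  | up hi hh _ h => exact .up hi (hG _ hh) h
  | van hi hh _ hv h =>
    exact .van hi (hG _ hh) h (hv.anti (off_DL2b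
      (inter_subset_inter (inter_subset_inter_left _ hS) hO) subset_rfl))

theorem LW.monoA_DL2b (h : LW G D S O α w f) (hα : α ⊆ α') : LW G D S O α' w f := by
  have key : ∀ t : Finset ι, LW G D S O (α ∪ t) w f := by
    intro t
    induction t using Finset.induction_on with
    | empty => rwa [Finset.union_empty]
    | insert i t _ ih =>
      rw [Finset.union_insert]
      by_cases hi : i ∈ α ∪ t
      · rwa [Finset.insert_eq_of_mem hi]
      · exact .mono i (by rwa [Finset.erase_insert hi])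
  have := key α'
  rwa [Finset.union_eq_right.2 hα] at this

theorem LW.succ_DL2b (h : LW G D S O α w f) : LW G D S O α (w + 1) f := by
  induction h with
  | zero => exact .zero
  | smooth h => exact .smooth h
  | add _ _ h1 h2 => exact .add h1 h2
  | mono i _ h => exact .mono i h
  | up hi hh _ h => exact .up hi hh h
  | van hi hh h _ _ => exact .up hi hh h

theorem LW.monoW_DL2b (h : LW G D S O α w f) {w' : ℕ} (hw : w ≤ w') : LW G D S O α w' f := by
  induction hw with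
  | refl => exact h
  | step _ ih => exact ih.succ_DL2b

theorem LW.smul_DL2b (c : ℂ) (h : LW G D S O α w f) : LW G D S O α w (c • f) := by
  induction h with
  | zero => rw [sz_DL2b]; exact .zero
  | smooth h => exact .smooth fun n => (h n).const_smul c
  | add _ _ h1 h2 => rw [smul_add]; exact .add h1 h2
  | mono i _ h => exact .mono i h
  | up hi hh _ h => rw [lg_smul_DL2b]; exact .up hi hh h
  | van hi hh _ hv h => rw [lg_smul_DL2b]; exact .van hi hh h (hv.smul c)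

theorem LW.op_DL2b {T : GF V → GF V} {c : ℂ} (h0 : T 0 = 0)
    (hadd : ∀ f g, T (f + g) = T f + T g) (hsm : ∀ f, SmG O f → SmG O (T f))
    (hlg : ∀ h f, T (lg h f) = lg h (c • T f)) (hv : ∀ A f, VanG A f → VanG A (T f))
    (h : LW G D S O α w f) : LW G D S O α w (T f) := by
  induction h with
  | zero => rw [h0]; exact .zero
  | smooth h => exact .smooth (hsm _ h)
  | add _ _ h1 h2 => rw [hadd]; exact .add h1 h2
  | mono i _ h => exact .mono i h
  | up hi hh _ h => rw [hlg]; exact .up hi hh (h.smul_DL2b c)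
  | van hi hh _ hv' h => rw [hlg]; exact .van hi hh (h.smul_DL2b c) ((hv _ _ hv').smul c)

theorem smG_prj_DL2b (hO : IsOpen O) (n : ℕ) (h : SmG O f) : SmG O (prj n f) :=
  smG_DL2b ((h.smS hO subset_rfl).prj n)

theorem LW.prj_DL2b (hO : IsOpen O) (h : LW G D S O α w f) (n : ℕ) :
    LW G D S O α w (prj n f) := by
  induction h generalizing n with
  | zero => rw [prj_zero_DL2b]; exact .zero
  | smooth h => exact .smooth (smG_prj_DL2b hO n h)
  | add _ _ h1 h2 => rw [prj_add_DL2b]; exact .add (h1 n) (h2 n)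
  | mono i _ h => exact .mono i (h n)
  | up hi hh _ h =>
    cases n with
    | zero => rw [prj0_lg_DL2b]; exact .zero
    | succ n => rw [prj_lg_DL2b]; exact .up hi hh (h n)
  | van hi hh _ hv h =>
    cases n with
    | zero => rw [prj0_lg_DL2b]; exact .zero
    | succ n => rw [prj_lg_DL2b]; exact .van hi hh (h n) (hv.prj n)

theorem LW.top_DL2b (hO : IsOpen O) (h : LW G D S O α w f) (n : ℕ) :
    LW G D S O α (n + 1) (prj n f) := by
  induction h generalizing n with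
  | zero => rw [prj_zero_DL2b]; exact .zero
  | smooth h => exact .smooth (smG_prj_DL2b hO n h)
  | add _ _ h1 h2 => rw [prj_add_DL2b]; exact .add (h1 n) (h2 n)
  | mono i _ h => exact .mono i (h n)
  | up hi hh _ h =>
    cases n with
    | zero => rw [prj0_lg_DL2b]; exact .zero
    | succ n => rw [prj_lg_DL2b]; exact .up hi hh (h n)
  | van hi hh _ _ h =>
    cases n with
    | zero => rw [prj0_lg_DL2b]; exact .zero
    | succ n => rw [prj_lg_DL2b]; exact .up hi hh (h n)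

theorem LW.nul_DL2b (h : LW G D S O α w f) (hw : w = 0) : VanG ((S ∩ O) \ Off D α) f := by
  induction h with
  | zero => exact .zero
  | smooth h => omega
  | add _ _ h1 h2 => exact (h1 hw).add (h2 hw)
  | mono i _ h => exact (h hw).anti (off_DL2b subset_rfl (Finset.erase_subset _ _))
  | up hi hh _ h => omega
  | van hi hh _ _ h =>
    exact ((h hw).anti (off_DL2b subset_rfl (Finset.erase_subset _ _))).wG _

theorem LW.list_DL2b {h : ι → V → ℂ} (hf : SmG O f) (l : List ι) (hl : l.Nodup)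
    (hα : ∀ i ∈ l, i ∈ α) (hG : ∀ i ∈ l, h i ∈ G i) :
    LW G D S O α (l.length + 1) (l.foldr (fun i g => lg (h i) g) f) := by
  induction l generalizing α with
  | nil => exact .smooth hf
  | cons i l ih =>
    rw [List.nodup_cons] at hl
    refine .up (hα i (by simp)) (hG i (by simp)) (ih hl.2 (fun j hj => ?_)
      fun j hj => hG j (by simp [hj]))
    exact Finset.mem_erase.2 ⟨fun e => hl.1 (e ▸ hj), hα j (by simp [hj])⟩

theorem dlg'_DL2b (hC : C.OK S) (hO : IsOpen O) {i : ι} {h : V → ℂ} (hi : i ∈ α)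
    (hh : h ∈ C.G O i) {f2 : GF V} (hf : SmS ((S ∩ O) \ Off C.D α) f)
    (h2 : VanG ((S ∩ O) \ Off C.D α) (dG f - f2)) :
    VanG ((S ∩ O) \ Off C.D α) (dG (lg h f) - lg h ((-1 : ℂ) • f2)) := by
  rw [dlg_DL2b]
  exact (VanG.d_lg hO (fun y hy => hy.1.2) (hC.smooth O i h hh)
    (fun y hy => hC.ne O i h hh y hy.1 (nD_DL2b hi hy)) hf).sub (h2.wG _)

theorem dadd_DL2b {A : Set V} {f2 g2 : GF V} (hf : SmS A f) (hg : SmS A g)
    (h1 : VanG A (dG f - f2)) (h2 : VanG A (dG g - g2)) : VanG A (dG (f + g) - (f2 + g2)) := by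
  have e : dG (f + g) - (f2 + g2) = (dG (f + g) - (dG f + dG g)) + ((dG f - f2) + (dG g - g2)) := by
    abel
  rw [e]
  exact (VanG.d_add hf hg).add (h1.add h2)

theorem LW.d_DL2b (hC : C.OK S) (hO : IsOpen O) (h : LW (C.G O) C.D S O α w f) :
    ∃ g, LW (C.G O) C.D S O α w g ∧ VanG ((S ∩ O) \ Off C.D α) (dG f - g) := by
  induction h with
  | zero => exact ⟨0, .zero, by rw [dG_zero, sub_zero]; exact .zero⟩
  | smooth h =>
    exact ⟨_, .smooth (smG_DL2b (h.smS hO subset_rfl).d), by rw [sub_self]; exact .zero⟩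
  | add a b h1 h2 =>
    obtain ⟨f2, h1, h1'⟩ := h1
    obtain ⟨g2, h2, h2'⟩ := h2
    exact ⟨f2 + g2, .add h1 h2, dadd_DL2b (a.smS hC hO) (b.smS hC hO) h1' h2'⟩
  | mono i _ h =>
    obtain ⟨f2, h1, h2⟩ := h
    exact ⟨f2, .mono i h1, h2.anti (off_DL2b subset_rfl (Finset.erase_subset _ _))⟩
  | up hi hh a h =>
    obtain ⟨f2, h1, h2⟩ := h
    have hs := fun (A : Set V) (e : A ⊆ _) => And.intro ((a.smS hC hO).anti e) (h2.anti e)
    replace hs := hs _ (off_DL2b subset_rfl (Finset.erase_subset _ _))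
    exact ⟨_, .up hi hh (h1.smul_DL2b (-1)), dlg'_DL2b hC hO hi hh hs.1 hs.2⟩
  | van hi hh a hv h =>
    obtain ⟨f2, h1, h2⟩ := h
    have hs := fun (A : Set V) (e : A ⊆ _) => And.intro ((a.smS hC hO).anti e) (h2.anti e)
    replace hs := hs _ (off_DL2b subset_rfl (Finset.erase_subset _ _))
    refine ⟨_, .van hi hh (h1.smul_DL2b (-1)) (VanG.smul _ ?_), dlg'_DL2b hC hO hi hh hs.1 hs.2⟩
    have e := off_DL2b (D := C.D) (inter_subset_inter_left O (inter_subset_left (s := S)))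
      (subset_refl _) |> fun e => (hv.d ((a.smS hC hO).anti e)).sub (h2.anti e)
    rwa [sub_sub_cancel] at e

/-! ### `TW` -/

theorem TW.anti_DL2b (h : TW H O w f) (hG : H ⊆ H') (hO : O' ⊆ O) : TW H' O' w f := by
  induction h with
  | zero => exact .zero
  | smooth h => exact .smooth fun n => (h n).mono hO
  | add _ _ h1 h2 => exact .add h1 h2
  | log hh _ h => exact .log (hG hh) h

theorem TW.succ_DL2b (h : TW H O w f) : TW H O (w + 1) f := by
  induction h with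
  | zero => exact .zero
  | smooth h => exact .smooth h
  | add _ _ h1 h2 => exact .add h1 h2
  | log hh _ h => exact .log hh h

theorem TW.monoW_DL2b (h : TW H O w f) {w' : ℕ} (hw : w ≤ w') : TW H O w' f := by
  induction hw with
  | refl => exact h
  | step _ ih => exact ih.succ_DL2b

theorem TW.smul_DL2b (c : ℂ) (h : TW H O w f) : TW H O w (c • f) := by
  induction h with
  | zero => rw [sz_DL2b]; exact .zero
  | smooth h => exact .smooth fun n => (h n).const_smul c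
  | add _ _ h1 h2 => rw [smul_add]; exact .add h1 h2
  | log hh _ h => rw [lg_smul_DL2b]; exact .log hh h

theorem TW.op_DL2b {T : GF V → GF V} {c : ℂ} (h0 : T 0 = 0)
    (hadd : ∀ f g, T (f + g) = T f + T g) (hsm : ∀ f, SmG O f → SmG O (T f))
    (hlg : ∀ h f, T (PWD.lg h f) = PWD.lg h (c • T f)) (h : TW H O w f) : TW H O w (T f) := by
  induction h with
  | zero => rw [h0]; exact .zero
  | smooth h => exact .smooth (hsm _ h)
  | add _ _ h1 h2 => rw [hadd]; exact .add h1 h2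
  | log hh _ h => rw [hlg]; exact .log hh (h.smul_DL2b c)

theorem TW.prj_DL2b (hO : IsOpen O) (h : TW H O w f) (n : ℕ) : TW H O w (prj n f) := by
  induction h generalizing n with
  | zero => rw [prj_zero_DL2b]; exact .zero
  | smooth h => exact .smooth (smG_prj_DL2b hO n h)
  | add _ _ h1 h2 => rw [prj_add_DL2b]; exact .add (h1 n) (h2 n)
  | log hh _ h =>
    cases n with
    | zero => rw [prj0_lg_DL2b]; exact .zero
    | succ n => rw [prj_lg_DL2b]; exact .log hh (h n)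

theorem set_DL2b (hα : α ⊆ α') (hG : ∀ i, G i ⊆ G' i) :
    {h | ∃ i ∈ α, h ∈ G i} ⊆ {h | ∃ i ∈ α', h ∈ G' i} :=
  fun _ ⟨i, hi, hh⟩ => ⟨i, hα hi, hG i hh⟩

theorem LW.txt_DL2b (hO : IsOpen O) (h : LW G D S O α w f) (n : ℕ) :
    TW {h | ∃ i ∈ α, h ∈ G i} O (n + 1) (prj n f) := by
  induction h generalizing n with
  | zero => rw [prj_zero_DL2b]; exact .zero
  | smooth h => exact .smooth (smG_prj_DL2b hO n h)
  | add _ _ h1 h2 => rw [prj_add_DL2b]; exact .add (h1 n) (h2 n)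
  | mono i _ h =>
    exact (h n).anti_DL2b (set_DL2b (Finset.erase_subset _ _) fun _ => subset_rfl) subset_rfl
  | up hi hh _ h =>
    cases n with
    | zero => rw [prj0_lg_DL2b]; exact .zero
    | succ n =>
      rw [prj_lg_DL2b]
      exact .log ⟨_, hi, hh⟩
        ((h n).anti_DL2b (set_DL2b (Finset.erase_subset _ _) fun _ => subset_rfl) subset_rfl)
  | van hi hh _ _ h =>
    cases n with
    | zero => rw [prj0_lg_DL2b]; exact .zero
    | succ n =>
      rw [prj_lg_DL2b]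
      exact .log ⟨_, hi, hh⟩
        ((h n).anti_DL2b (set_DL2b (Finset.erase_subset _ _) fun _ => subset_rfl) subset_rfl)

theorem TW.d_DL2b (hC : C.OK S) (hO : IsOpen O) (h : TW {h | ∃ i ∈ α, h ∈ C.G O i} O w f) :
    ∃ g, TW {h | ∃ i ∈ α, h ∈ C.G O i} O w g ∧ VanG ((S ∩ O) \ Off C.D α) (dG f - g) := by
  induction h with
  | zero => exact ⟨0, .zero, by rw [dG_zero, sub_zero]; exact .zero⟩
  | smooth h =>
    exact ⟨_, .smooth (smG_DL2b (h.smS hO subset_rfl).d), by rw [sub_self]; exact .zero⟩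
  | add a b h1 h2 =>
    obtain ⟨f2, h1, h1'⟩ := h1
    obtain ⟨g2, h2, h2'⟩ := h2
    exact ⟨f2 + g2, .add h1 h2, dadd_DL2b (a.smS hC hO) (b.smS hC hO) h1' h2'⟩
  | log hh a h =>
    obtain ⟨f2, h1, h2⟩ := h
    obtain ⟨i, hi, hh'⟩ := hh
    exact ⟨_, .log ⟨i, hi, hh'⟩ (h1.smul_DL2b (-1)), dlg'_DL2b hC hO hi hh' (a.smS hC hO) h2⟩

theorem vanO_DL2b (h : VanG ((S ∩ O) \ Off D α) f) (hO : O' ⊆ O) :
    VanG ((S ∩ O') \ Off D α) f :=
  h.anti (off_DL2b (inter_subset_inter_right _ hO) subset_rfl)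

theorem dnul_DL2b {g2 : GF V} (h' : C.SmN S α x f) (hg : C.SmN S α x g)
    (h1 : C.NulN S α x (f - g)) (h2 : C.NulN S α x (dG g - g2)) : C.NulN S α x (dG f - g2) := by
  have e : dG f - g2 = (dG (f - g) - (dG (f - g) - (dG f - dG g))) + (dG g - g2) := by abel
  rw [e]
  exact ((h1.d (h'.sub hg)).sub (Ctx.NulN.d_sub h' hg)).add h2

end aux

namespace Ctx

theorem WN.shr_DL2b (hC : C.OK S) (h : C.WN S α w x f) (hO : IsOpen O) (hx : x ∈ O) :
    ∃ U g, IsOpen U ∧ x ∈ U ∧ U ⊆ O ∧ LW (C.G U) C.D S U α w g ∧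
      VanG ((S ∩ U) \ Off C.D α) (f - g) := by
  obtain ⟨U, g, hU, hx', h1, h2⟩ := h
  exact ⟨U ∩ O, g, hU.inter hO, ⟨hx', hx⟩, inter_subset_right,
    h1.anti_DL2b (fun i => hC.mono _ _ i inter_subset_left) subset_rfl inter_subset_left,
    vanO_DL2b h2 inter_subset_left⟩

theorem TN.shr_DL2b (hC : C.OK S) (h : C.TN S α w x f) (hO : IsOpen O) (hx : x ∈ O) :
    ∃ U g, IsOpen U ∧ x ∈ U ∧ U ⊆ O ∧ TW {h | ∃ i ∈ α, h ∈ C.G U i} U w g ∧
      VanG ((S ∩ U) \ Off C.D α) (f - g) := by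
  obtain ⟨U, g, hU, hx', h1, h2⟩ := h
  exact ⟨U ∩ O, g, hU.inter hO, ⟨hx', hx⟩, inter_subset_right,
    h1.anti_DL2b (set_DL2b subset_rfl fun i => hC.mono _ _ i inter_subset_left) inter_subset_left,
    vanO_DL2b h2 inter_subset_left⟩

/-! ### `WN`, `TN` -/
theorem WN.of_nul (h : C.NulN S α x f) : C.WN S α w x f := by
  obtain ⟨U, hU, hx, h⟩ := h
  exact ⟨U, 0, hU, hx, .zero, by rwa [sub_zero]⟩
theorem WN.nul (h : C.WN S α 0 x f) : C.NulN S α x f := by
  obtain ⟨U, g, hU, hx, h1, h2⟩ := h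
  have := h2.add (h1.nul_DL2b rfl)
  rw [sub_add_cancel] at this
  exact ⟨U, hU, hx, this⟩
theorem WN.of_smG (hO : IsOpen O) (hx : x ∈ O) (h : SmG O f) : C.WN S α (w + 1) x f :=
  ⟨O, f, hO, hx, .smooth h, by rw [sub_self]; exact .zero⟩
theorem WN.ev (h : C.WN S α w x f) : ∀ᶠ y in 𝓝 x, C.WN S α w y f := by
  obtain ⟨U, g, hU, hx, h1, h2⟩ := h
  filter_upwards [hU.mem_nhds hx] with y hy using ⟨U, g, hU, hy, h1, h2⟩
theorem WN.anti (h : C.WN S α w x f) (hS : S' ⊆ S) (hα : α ⊆ α') : C.WN S' α' w x f := by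
  obtain ⟨U, g, hU, hx, h1, h2⟩ := h
  exact ⟨U, g, hU, hx, (h1.anti_DL2b (fun _ => subset_rfl) hS subset_rfl).monoA_DL2b hα,
    h2.anti (off_DL2b (inter_subset_inter_left _ hS) hα)⟩
theorem WN.mono (h : C.WN S α w x f) {w' : ℕ} (hw : w ≤ w') : C.WN S α w' x f := by
  obtain ⟨U, g, hU, hx, h1, h2⟩ := h
  exact ⟨U, g, hU, hx, h1.monoW_DL2b hw, h2⟩
theorem WN.add (hC : C.OK S) (h : C.WN S α w x f) (h' : C.WN S α w x g) :
    C.WN S α w x (f + g) := by
  obtain ⟨U, f2, hU, hx, h1, h2⟩ := h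
  obtain ⟨U', g2, hU', hx', hs, h3, h4⟩ := h'.shr_DL2b hC hU hx
  refine ⟨U', f2 + g2, hU', hx',
    .add (h1.anti_DL2b (fun i => hC.mono _ _ i hs) subset_rfl hs) h3, ?_⟩
  rw [add_sub_add_comm]
  exact (vanO_DL2b h2 hs).add h4
theorem WN.smul (c : ℂ) (h : C.WN S α w x f) : C.WN S α w x (c • f) := by
  obtain ⟨U, g, hU, hx, h1, h2⟩ := h
  exact ⟨U, c • g, hU, hx, h1.smul_DL2b c, by rw [ss_DL2b]; exact h2.smul c⟩
theorem WN.sub (hC : C.OK S) (h : C.WN S α w x f) (h' : C.WN S α w x g) :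
    C.WN S α w x (f - g) := by
  rw [sub_eq_add_neg, ← n1_DL2b g]
  exact h.add hC (h'.smul _)
theorem WN.sum (hC : C.OK S) {κ : Type} (s : Finset κ) {f : κ → GF V}
    (h : ∀ i ∈ s, C.WN S α w x (f i)) : C.WN S α w x (∑ i ∈ s, f i) :=
  Finset.sum_induction f (C.WN S α w x) (fun _ _ a b => a.add hC b) (WN.of_nul NulN.zero) h
theorem WN.congr (hC : C.OK S) (h : C.WN S α w x f) (h' : C.NulN S α x (g - f)) :
    C.WN S α w x g := by
  have := h.add hC (WN.of_nul h')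
  rwa [add_sub_cancel] at this
theorem WN.sm (hC : C.OK S) (h : C.WN S α w x f) : ∃ g, C.SmN S α x g ∧ C.NulN S α x (f - g) := by
  obtain ⟨U, g, hU, hx, h1, h2⟩ := h
  exact ⟨g, ⟨U, hU, hx, h1.smS hC hU⟩, U, hU, hx, h2⟩
theorem WN.d (hC : C.OK S) (h : C.WN S α w x f) (h' : C.SmN S α x f) : C.WN S α w x (dG f) := by
  obtain ⟨U, g, hU, hx, h1, h2⟩ := h
  obtain ⟨g2, h3, h4⟩ := h1.d_DL2b hC hU
  have h5 : C.WN S α w x g2 := ⟨U, g2, hU, hx, h3, by rw [sub_self]; exact .zero⟩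
  exact h5.congr hC (dnul_DL2b h' ⟨U, hU, hx, h1.smS hC hU⟩ ⟨U, hU, hx, h2⟩ ⟨U, hU, hx, h4⟩)
theorem WN.eps (h : C.WN S α w x f) : C.WN S α w x (epsG f) := by
  obtain ⟨U, g, hU, hx, h1, h2⟩ := h
  exact ⟨U, epsG g, hU, hx, h1.op_DL2b eps_zero_DL2b eps_add_DL2b
    (fun f hf => smG_DL2b (hf.smS hU subset_rfl).eps) eps_lg_DL2b fun _ _ h => h.eps,
    by rw [sub_DL2b eps_add_DL2b]; exact h2.eps⟩
theorem WN.prj (n : ℕ) (h : C.WN S α w x f) : C.WN S α w x (prj n f) := by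
  obtain ⟨U, g, hU, hx, h1, h2⟩ := h
  exact ⟨U, _, hU, hx, h1.prj_DL2b hU n, by rw [sub_DL2b (prj_add_DL2b n)]; exact h2.prj n⟩
theorem WN.top (n : ℕ) (h : C.WN S α w x f) : C.WN S α (n + 1) x (PWD.prj n f) := by
  obtain ⟨U, g, hU, hx, h1, h2⟩ := h
  exact ⟨U, _, hU, hx, h1.top_DL2b hU n, by rw [sub_DL2b (prj_add_DL2b n)]; exact h2.prj n⟩
theorem WN.txt (n : ℕ) (h : C.WN S α w x f) : C.TN S α (n + 1) x (PWD.prj n f) := by
  obtain ⟨U, g, hU, hx, h1, h2⟩ := h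
  exact ⟨U, _, hU, hx, h1.txt_DL2b hU n, by rw [sub_DL2b (prj_add_DL2b n)]; exact h2.prj n⟩
theorem WN.mul (hC : C.OK S) {χ : V → ℂ} (hO : IsOpen O) (hx : x ∈ O) (hχ : ContDiffOn ℝ ∞ χ O)
    (h : C.WN S α w x f) : C.WN S α w x (mulG χ f) := by
  obtain ⟨U, g, hU, hx, hs, h1, h2⟩ := h.shr_DL2b hC hO hx
  exact ⟨U, mulG χ g, hU, hx, h1.op_DL2b (mul_zero_DL2b χ) (mul_add_DL2b χ)
    (fun f hf => smG_DL2b ((hf.smS hU subset_rfl).mul hO hs hχ)) (mul_lg_DL2b χ)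
    fun _ _ h => h.mul χ, by rw [sub_DL2b (mul_add_DL2b χ)]; exact h2.mul χ⟩
theorem WN.wG (hC : C.OK S) {ξ : V → V →L[ℝ] ℂ} (hO : IsOpen O) (hx : x ∈ O)
    (hξ : ContDiffOn ℝ ∞ ξ O) (h : C.WN S α w x f) : C.WN S α w x (wG ξ f) := by
  obtain ⟨U, g, hU, hx, hs, h1, h2⟩ := h.shr_DL2b hC hO hx
  exact ⟨U, PWD.wG ξ g, hU, hx, h1.op_DL2b (wG_zero ξ) (wG_add ξ)
    (fun f hf => smG_DL2b ((hf.smS hU subset_rfl).wG hO hs hξ)) (wG_lg_DL2b ξ)
    fun _ _ h => h.wG ξ, by rw [← wG_sub]; exact h2.wG ξ⟩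
theorem WN.lgI (hC : C.OK S) {h : ι → V → ℂ} (hh : C.Eqs α x h) {I : Finset ι} (hI : I ⊆ α)
    (hO : IsOpen O) (hx : x ∈ O) (hf : SmG O f) : C.WN S α (I.card + 1) x (lgI h I f) := by
  obtain ⟨U, hU, hx', hh⟩ := hh
  have _ := hC
  refine ⟨U ∩ O, _, hU.inter hO, ⟨hx', hx⟩, ?_, by rw [sub_self]; exact .zero⟩
  rw [← Finset.length_sort (s := I) (· ≤ ·)]
  exact LW.list_DL2b (fun n => (hf n).mono inter_subset_right) _ (Finset.sort_nodup _ _)
    (fun i hi => hI ((Finset.mem_sort _).1 hi))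
    fun i hi => hh _ inter_subset_left i (hI ((Finset.mem_sort _).1 hi))

theorem TN.of_nul (h : C.NulN S α x f) : C.TN S α w x f := by
  obtain ⟨U, hU, hx, h⟩ := h
  exact ⟨U, 0, hU, hx, .zero, by rwa [sub_zero]⟩
theorem TN.ev (h : C.TN S α w x f) : ∀ᶠ y in 𝓝 x, C.TN S α w y f := by
  obtain ⟨U, g, hU, hx, h1, h2⟩ := h
  filter_upwards [hU.mem_nhds hx] with y hy using ⟨U, g, hU, hy, h1, h2⟩
theorem TN.anti (h : C.TN S α w x f) (hS : S' ⊆ S) (hα : α ⊆ α') : C.TN S' α' w x f := by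
  obtain ⟨U, g, hU, hx, h1, h2⟩ := h
  exact ⟨U, g, hU, hx, h1.anti_DL2b (set_DL2b hα fun _ => subset_rfl) subset_rfl,
    h2.anti (off_DL2b (inter_subset_inter_left _ hS) hα)⟩
theorem TN.mono (h : C.TN S α w x f) {w' : ℕ} (hw : w ≤ w') : C.TN S α w' x f := by
  obtain ⟨U, g, hU, hx, h1, h2⟩ := h
  exact ⟨U, g, hU, hx, h1.monoW_DL2b hw, h2⟩
theorem TN.add (hC : C.OK S) (h : C.TN S α w x f) (h' : C.TN S α w x g) :
    C.TN S α w x (f + g) := by
  obtain ⟨U, f2, hU, hx, h1, h2⟩ := h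
  obtain ⟨U', g2, hU', hx', hs, h3, h4⟩ := h'.shr_DL2b hC hU hx
  refine ⟨U', f2 + g2, hU', hx',
    .add (h1.anti_DL2b (set_DL2b subset_rfl fun i => hC.mono _ _ i hs) hs) h3, ?_⟩
  rw [add_sub_add_comm]
  exact (vanO_DL2b h2 hs).add h4
theorem TN.smul (c : ℂ) (h : C.TN S α w x f) : C.TN S α w x (c • f) := by
  obtain ⟨U, g, hU, hx, h1, h2⟩ := h
  exact ⟨U, c • g, hU, hx, h1.smul_DL2b c, by rw [ss_DL2b]; exact h2.smul c⟩
theorem TN.sum (hC : C.OK S) {κ : Type} (s : Finset κ) {f : κ → GF V}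
    (h : ∀ i ∈ s, C.TN S α w x (f i)) : C.TN S α w x (∑ i ∈ s, f i) :=
  Finset.sum_induction f (C.TN S α w x) (fun _ _ a b => a.add hC b) (TN.of_nul NulN.zero) h
theorem TN.congr (hC : C.OK S) (h : C.TN S α w x f) (h' : C.NulN S α x (g - f)) :
    C.TN S α w x g := by
  have := h.add hC (TN.of_nul h')
  rwa [add_sub_cancel] at this
theorem TN.d (hC : C.OK S) (h : C.TN S α w x f) (h' : C.SmN S α x f) : C.TN S α w x (dG f) := by
  obtain ⟨U, g, hU, hx, h1, h2⟩ := h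
  obtain ⟨g2, h3, h4⟩ := h1.d_DL2b hC hU
  have h5 : C.TN S α w x g2 := ⟨U, g2, hU, hx, h3, by rw [sub_self]; exact .zero⟩
  exact h5.congr hC (dnul_DL2b h' ⟨U, hU, hx, h1.smS hC hU⟩ ⟨U, hU, hx, h2⟩ ⟨U, hU, hx, h4⟩)
theorem TN.eps (h : C.TN S α w x f) : C.TN S α w x (epsG f) := by
  obtain ⟨U, g, hU, hx, h1, h2⟩ := h
  exact ⟨U, epsG g, hU, hx, h1.op_DL2b eps_zero_DL2b eps_add_DL2b
    (fun f hf => smG_DL2b (hf.smS hU subset_rfl).eps) eps_lg_DL2b,
    by rw [sub_DL2b eps_add_DL2b]; exact h2.eps⟩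
theorem TN.prj (n : ℕ) (h : C.TN S α w x f) : C.TN S α w x (prj n f) := by
  obtain ⟨U, g, hU, hx, h1, h2⟩ := h
  exact ⟨U, _, hU, hx, h1.prj_DL2b hU n, by rw [sub_DL2b (prj_add_DL2b n)]; exact h2.prj n⟩
theorem TN.mul (hC : C.OK S) {χ : V → ℂ} (hO : IsOpen O) (hx : x ∈ O) (hχ : ContDiffOn ℝ ∞ χ O)
    (h : C.TN S α w x f) : C.TN S α w x (mulG χ f) := by
  obtain ⟨U, g, hU, hx, hs, h1, h2⟩ := h.shr_DL2b hC hO hx
  exact ⟨U, mulG χ g, hU, hx, h1.op_DL2b (mul_zero_DL2b χ) (mul_add_DL2b χ)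
    (fun f hf => smG_DL2b ((hf.smS hU subset_rfl).mul hO hs hχ)) (mul_lg_DL2b χ),
    by rw [sub_DL2b (mul_add_DL2b χ)]; exact h2.mul χ⟩

end Ctx

end Pool.Agent.PWD
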