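import Pool.Agent.P.MP_65ad7c_ag.DPA0

/-! Existence of a Fock space. -/

open Set Filter Topology TopologicalSpace Metric
open scoped ContDiff ComplexConjugate
open Pool.Agent.HT (Form Alt pull der kill)

noncomputable section
namespace Pool.Agent.PWD.Loc

section gen
variable {V : Type} [NormedAddCommGroup V] [NormedSpace ℝ V]

/-- one alternating form in each degree -/
abbrev G_DPF1 (V : Type) [NormedAddCommGroup V] [NormedSpace ℝ V] := (n : ℕ) → Alt V n

/-- contraction -/
def io_DPF1 (v : V) : Module.End ℂ (G_DPF1 V) where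
  toFun u n := (u (n + 1)).curryLeft v
  map_add' u u' := by funext n; ext w; simp
  map_smul' c u := by funext n; ext w; simp

/-- exterior multiplication, as a function -/
def ep0_DPF1 (l : V →L[ℝ] ℂ) (u : G_DPF1 V) : G_DPF1 V
  | 0 => 0
  | n + 1 => ContinuousAlternatingMap.alternatizeUncurryFin (l.smulRight (u n))

theorem ep0_succ_DPF1 (l : V →L[ℝ] ℂ) (u : G_DPF1 V) (n : ℕ) (w : Fin (n + 1) → V) :
    ep0_DPF1 l u (n + 1) w =
      ∑ i : Fin (n + 1), (-1 : ℂ) ^ (i : ℕ) * (l (w i) * u n (i.removeNth w)) := by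
  simp [ep0_DPF1, ContinuousAlternatingMap.alternatizeUncurryFin_apply]

theorem ep0_zero_DPF1 (l : V →L[ℝ] ℂ) (u : G_DPF1 V) : ep0_DPF1 l u 0 = 0 := rfl

/-- exterior multiplication -/
def ep_DPF1 : (V →L[ℝ] ℂ) →ₗ[ℂ] Module.End ℂ (G_DPF1 V) :=
  LinearMap.mk₂ ℂ ep0_DPF1
    (fun l l' u => by
      funext n; cases n <;> ext w
      · simp [ep0_zero_DPF1]
      · simp [ep0_succ_DPF1, add_mul, mul_add, Finset.sum_add_distrib])
    (fun c l u => by
      funext n; cases n <;> ext w
      · simp [ep0_zero_DPF1]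
      · simp [ep0_succ_DPF1, Finset.mul_sum, mul_left_comm, mul_assoc])
    (fun l u u' => by
      funext n; cases n <;> ext w
      · simp [ep0_zero_DPF1]
      · simp [ep0_succ_DPF1, mul_add, Finset.sum_add_distrib])
    (fun c l u => by
      funext n; cases n <;> ext w
      · simp [ep0_zero_DPF1]
      · simp [ep0_succ_DPF1, Finset.mul_sum, mul_left_comm])

theorem io_apply_DPF1 (v : V) (u : G_DPF1 V) (n : ℕ) (w : Fin n → V) :
    io_DPF1 v u n w = u (n + 1) (Matrix.vecCons v w) := rfl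

theorem ep_apply_DPF1 (l : V →L[ℝ] ℂ) (u : G_DPF1 V) : ep_DPF1 l u = ep0_DPF1 l u := rfl

theorem car_DPF1 (v : V) (l : V →L[ℝ] ℂ) :
    io_DPF1 v * ep_DPF1 l + ep_DPF1 l * io_DPF1 v = l v • 1 := by
  refine LinearMap.ext fun u => funext fun n => ContinuousAlternatingMap.ext fun w => ?_
  show io_DPF1 v (ep_DPF1 l u) n w + ep_DPF1 l (io_DPF1 v u) n w = l v * u n w
  rw [io_apply_DPF1, ep_apply_DPF1, ep_apply_DPF1, ep0_succ_DPF1]
  cases n with
  | zero => simp [ep0_zero_DPF1, Subsingleton.elim (Fin.removeNth 0 (Matrix.vecCons v w)) w]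
  | succ n =>
    rw [ep0_succ_DPF1, Fin.sum_univ_succ (n := n + 1), add_assoc, ← Finset.sum_add_distrib,
      Finset.sum_eq_zero, add_zero]
    · simp
    · intro i _
      have h1 : (i.succ).removeNth (Matrix.vecCons v w) = Matrix.vecCons v (i.removeNth w) :=
        Fin.cons_comp_succ_succAbove _ _ _
      rw [h1, io_apply_DPF1, Fin.val_succ, pow_succ, Matrix.cons_val_succ]
      ring

theorem io_add_DPF1 (v w : V) : io_DPF1 (v + w) = io_DPF1 v + io_DPF1 w :=
  LinearMap.ext fun u => funext fun n => map_add (u (n + 1)).curryLeft v w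

theorem io_smul_DPF1 (c : ℝ) (v : V) : io_DPF1 (c • v) = (c : ℂ) • io_DPF1 v := by
  refine LinearMap.ext fun u => funext fun n => ContinuousAlternatingMap.ext fun w => ?_
  show (u (n + 1)).curryLeft (c • v) w = (c : ℂ) * (u (n + 1)).curryLeft v w
  rw [map_smul, ContinuousAlternatingMap.smul_apply, Complex.real_smul]

theorem io_sq_DPF1 (v : V) : io_DPF1 v * io_DPF1 v = 0 :=
  LinearMap.ext fun u => funext fun n => (u (n + 2)).curryLeft_same v

theorem anti_io_DPF1 (v w : V) : io_DPF1 v * io_DPF1 w + io_DPF1 w * io_DPF1 v = 0 := by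
  have h := io_sq_DPF1 (v + w)
  rwa [io_add_DPF1, add_mul, mul_add, mul_add, io_sq_DPF1, io_sq_DPF1, zero_add, add_zero] at h

theorem comm_DPF1 {R : Type} [Ring R] [Algebra ℂ R] {i a b : R} {s t : ℂ}
    (h1 : i * a + a * i = s • 1) (h2 : i * b + b * i = t • 1) :
    i * (a * b + b * a) = (a * b + b * a) * i := by
  have e1 : i * a = s • 1 - a * i := eq_sub_of_add_eq h1
  have e2 : i * b = t • 1 - b * i := eq_sub_of_add_eq h2
  rw [mul_add, ← mul_assoc, ← mul_assoc, e1, e2, sub_mul, sub_mul, mul_assoc a, mul_assoc b, e1, e2]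
  simp only [smul_mul_assoc, one_mul, mul_sub, mul_smul_comm, mul_one, add_mul, mul_assoc]
  abel

theorem anti_ep_DPF1 (l l' : V →L[ℝ] ℂ) :
    ep_DPF1 l * ep_DPF1 l' + ep_DPF1 l' * ep_DPF1 l = 0 := by
  refine LinearMap.ext fun u => funext fun n => ?_
  induction n generalizing u with
  | zero => exact add_zero _
  | succ n ih =>
    ext w
    have h := congrArg (fun T : Module.End ℂ (G_DPF1 V) => T u n (Fin.tail w))
      (comm_DPF1 (car_DPF1 (w 0) l) (car_DPF1 (w 0) l'))
    simp only [Module.End.mul_apply] at h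
    rw [ih, io_apply_DPF1] at h
    rw [← Fin.cons_self_tail w]
    exact h

theorem fin_DPF1 [FiniteDimensional ℝ V] : FiniteDimensional ℂ (G_DPF1 V) := by
  let b := Module.finBasis ℝ V
  let L : G_DPF1 V →ₗ[ℂ] ((Σ n : Fin (Module.finrank ℝ V + 1),
      (Fin n → Fin (Module.finrank ℝ V))) → ℂ) :=
    { toFun := fun u s => u s.1 fun i => b (s.2 i)
      map_add' := fun _ _ => rfl
      map_smul' := fun _ _ => rfl }
  refine Module.Finite.of_injective L ((injective_iff_map_eq_zero L).2 fun u hu => ?_)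
  funext n
  refine ContinuousAlternatingMap.toAlternatingMap_injective (b.ext_alternating fun s hs => ?_)
  have hn : n < Module.finrank ℝ V + 1 := by
    simpa [Nat.lt_succ_iff] using Fintype.card_le_of_injective s hs
  exact congrFun hu ⟨⟨n, hn⟩, s⟩

theorem finA_DPF1 [FiniteDimensional ℝ V] (n : ℕ) : FiniteDimensional ℂ (Alt V n) := by
  have := fin_DPF1 (V := V)
  exact Module.Finite.of_surjective
    (LinearMap.proj (R := ℂ) (φ := fun n : ℕ => Alt V n) n) (Function.surjective_eval n)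

end gen

theorem of_equiv_DPF1 {d : ℕ} {F : Type} [NormedAddCommGroup F] [NormedSpace ℂ F]
    [FiniteDimensional ℂ F] (e : G_DPF1 (E d) ≃ₗ[ℂ] F) : Nonempty (FK d F) := by
  let Φ : Module.End ℂ (G_DPF1 (E d)) ≃ₐ[ℂ] (F →L[ℂ] F) :=
    (e.conjAlgEquiv ℂ).trans (Module.End.toContinuousLinearMap F)
  have hΦ : ∀ T u, e.symm (Φ T u) = T (e.symm u) := fun T u => e.symm_apply_apply _
  have := fun n => finA_DPF1 (V := E d) n
  exact ⟨{
    io := LinearMap.toContinuousLinearMap
      { toFun := fun v => Φ (io_DPF1 v)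
        map_add' := fun v w => by rw [io_add_DPF1, map_add]
        map_smul' := fun c v => by rw [io_smul_DPF1, map_smul, Complex.coe_smul]; rfl }
    ep := Φ.toLinearMap ∘ₗ ep_DPF1
    psi := fun n => LinearMap.toContinuousLinearMap
      (LinearMap.proj (R := ℂ) (φ := fun n : ℕ => Alt (E d) n) n ∘ₗ e.symm.toLinearMap)
    phi := fun n => LinearMap.toContinuousLinearMap
      (e.toLinearMap ∘ₗ LinearMap.single ℂ (fun n : ℕ => Alt (E d) n) n)
    car := fun v l => by
      show Φ _ * Φ _ + Φ _ * Φ _ = _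
      rw [← map_mul Φ, ← map_mul Φ, ← map_add Φ, car_DPF1, map_smul, map_one]
    anti_io := fun v w => by
      show Φ _ * Φ _ + Φ _ * Φ _ = _
      rw [← map_mul Φ, ← map_mul Φ, ← map_add Φ, anti_io_DPF1, map_zero]
    anti_ep := fun l l' => by
      show Φ _ * Φ _ + Φ _ * Φ _ = _
      rw [← map_mul Φ, ← map_mul Φ, ← map_add Φ, anti_ep_DPF1, map_zero]
    psi_io := fun n v u => congrFun (hΦ (io_DPF1 v) u) n
    psi_ep0 := fun l u => congrFun (hΦ (ep_DPF1 l) u) 0
    psi_ep := fun n l u => congrFun (hΦ (ep_DPF1 l) u) (n + 1)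
    psi_phi := fun n a => (congrFun (e.symm_apply_apply (Pi.single n a)) n).trans
      (Pi.single_eq_same n a)
    psi_phi_ne := fun n m a h => (congrFun (e.symm_apply_apply (Pi.single n a)) m).trans
      (Pi.single_eq_of_ne h a)
    ext := fun u hu => (map_eq_zero_iff e.symm e.symm.injective).1 (funext hu) }⟩

theorem exists_FK (d : ℕ) : ∃ (F : Type) (_ : NormedAddCommGroup F) (_ : NormedSpace ℂ F)
    (_ : FiniteDimensional ℂ F), Nonempty (FK d F) := by
  have := fin_DPF1 (V := E d)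
  exact ⟨Fin (Module.finrank ℂ (G_DPF1 (E d))) → ℂ, inferInstance, inferInstance, inferInstance,
    of_equiv_DPF1 (Module.finBasis ℂ _).equivFun⟩

end Pool.Agent.PWD.Loc
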