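import Pool.Agent.P.MP_65ad7c_ag.DPS4
import Pool.Agent.P.MP_65ad7c_ag.DPF1

/-! Residues. -/

open Set Filter Topology TopologicalSpace Metric
open scoped ContDiff ComplexConjugate
open Pool.Agent.HT (Form Alt pull der kill)

noncomputable section
namespace Pool.Agent.PWD.Loc

theorem ZZ_Fl_DPM3 {K M : Type} [DecidableEq K] [AddCommGroup M] [Module ℂ M] (s : LogM K M)
    (J : Finset K) (p : ℕ) : s.ZZ J ∈ Stb (s.Fl p) :=
  cp_mem fun _ _ => (Stb (s.Fl p)).add_mem (one_mem _)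
    ((Stb (s.Fl p)).mul_mem ((Stb (s.Fl p)).sub_mem (s.Fl_x p _) (one_mem _)) (s.n_Fl _ p))

theorem aL_Fl_DPM3 {K M : Type} [DecidableEq K] [AddCommGroup M] [Module ℂ M] (s : LogM K M)
    (L : List K) {p : ℕ} {u : M} (hu : u ∈ s.Fl p) : s.aL L u ∈ s.Fl (p + L.length) := by
  induction L with
  | nil => simpa [CAR.aL] using hu
  | cons k L ih =>
    have e : s.aL (k :: L) u = s.a (k, false) (s.aL L u) := by simp [CAR.aL]
    rw [e, List.length_cons, ← add_assoc]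
    exact s.Fl_a _ k _ ih

variable {d : ℕ} {ι : Type} [LinearOrder ι] {κ : ι → Option (Fin d)} {c : E d} {α : Finset ι}

omit [LinearOrder ι] in
theorem nul_bad_DPM3 {I : Finset ι} (hI : ¬Gd κ I) (f : GF (E d)) :
    (Ctx.std κ).NulN (St univ (Ctx.std κ).D I) ∅ c f :=
  ⟨univ, isOpen_univ, trivial, by
    rw [St_bad hI, empty_inter, empty_sdiff]
    exact VanG.empty⟩

theorem len_DPM3 {q : ℕ} : ∀ t ∈ sgq κ α q, (wdK κ t).length = q := fun _ ht =>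
  (wdK_length (mem_sgq.1 ht).2.2).trans (mem_sgq.1 ht).2.1

theorem Std.resU (h : Std κ c) : ∀ q f r, (Ctx.std κ).RH univ α (zc κ) q c f r →
    (Ctx.std κ).WN univ α q c f →
    ∀ I ∈ α.powersetCard q, (Ctx.std κ).NulN (St univ (Ctx.std κ).D I) ∅ c (r I) := by
  intro q f r hf hw I hI
  by_cases hG : Gd κ I
  swap
  · exact nul_bad_DPM3 hG _
  obtain ⟨F, _, _, _, ⟨Φ⟩⟩ := exists_FK d
  obtain ⟨g, b, hg, hW, hP⟩ := h.rh_hat Φ hf
  obtain ⟨g', hg', hg''⟩ := h.wn_hat Φ hw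
  have hI' : I ∈ sgq κ α q :=
    mem_sgq.2 ⟨(Finset.mem_powersetCard.1 hI).1, (Finset.mem_powersetCard.1 hI).2, hG⟩
  have h1 : g ∈ (Φ.logM c).W (alK κ α) q := by
    have := Submodule.add_mem _ ((Φ.logM c).N_le_W (alK κ α) q (hg.unique hg'')) hg'
    rwa [sub_add_cancel] at this
  have h2 := Submodule.sub_mem _ h1 hW
  rw [sub_sub_cancel] at h2
  have h3 := (Φ.logM c).resU (h.wordsq α q) len_DPM3 h2 I hI'
  rw [wdK_toFinset] at h3
  rw [h.nulSt_iff hG (Finset.disjoint_empty_left I), alK_empty]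
  exact (hP I hI').mem_N.1 h3

theorem Std.resF (h : Std κ c) : ∀ q p f r, (Ctx.std κ).RH univ α (zc κ) q c f r →
    (Ctx.std κ).FN univ α p c f →
    ∀ I ∈ α.powersetCard q, (Ctx.std κ).FN (St univ (Ctx.std κ).D I) ∅ (p - q) c (r I) := by
  intro q p f r hf hw I hI
  by_cases hG : Gd κ I
  swap
  · exact Ctx.fn_iff.2 (nul_bad_DPM3 hG _)
  obtain ⟨F, _, _, _, ⟨Φ⟩⟩ := exists_FK d
  obtain ⟨g, b, hg, hW, hP⟩ := h.rh_hat Φ hf
  have hI' : I ∈ sgq κ α q :=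
    mem_sgq.2 ⟨(Finset.mem_powersetCard.1 hI).1, (Finset.mem_powersetCard.1 hI).2, hG⟩
  have h3 := (Φ.logM c).resF (h.wordsq α q) len_DPM3 hW (hg.fn.2 hw) I hI'
  rw [wdK_toFinset] at h3
  rw [h.fnSt_iff hG (Finset.disjoint_empty_left I), alK_empty]
  exact (hP I hI').mem_Fl.1 h3

theorem Std.resV (h : Std κ c) : ∀ I ⊆ α, ∀ O β, IsOpen O → c ∈ O → SmG O β →
    VanG (St univ (Ctx.std κ).D I ∩ O) β → (Ctx.std κ).WN univ α I.card c (lgI (zc κ) I β) := by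
  intro I hI O β hO hc hβ hv
  by_cases hG : Gd κ I
  swap
  · rw [lgI_bad hG]
    exact Ctx.WN.of_nul Ctx.NulN.zero
  obtain ⟨F, _, _, _, ⟨Φ⟩⟩ := exists_FK d
  obtain ⟨b, hb⟩ := FK.Hat.of_smG (Φ := Φ) hO hc hβ
  have hL : (wdK κ I).toFinset ⊆ alK κ α := by
    rw [wdK_toFinset]
    exact alK_mono hI
  have h1 := FK.Hat.wr hL h.alK_c hb
  have h2 : (Ctx.std κ).NulN (St univ (Ctx.std κ).D I) ∅ c β := Ctx.NulN.of_open_DL2 hO hc hv
  rw [h.nulSt_iff hG (Finset.disjoint_empty_left I), alK_empty] at h2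
  have h3 := (FK.Hat.PP (J := alK κ I) h.alK_c (Finset.disjoint_empty_left _) hb).mem_N.2 h2
  rw [← wdK_toFinset] at h3
  have h4 := (Φ.logM c).resV (al := alK κ α) (h.nodup I) h3
  rw [wdK_length hG] at h4
  rw [lgI_gd hG]
  exact h.hat_wn h4 h1

theorem Std.ext (h : Std κ c) : ∀ I ⊆ α, ∀ p r, (Ctx.std κ).SmN (St univ (Ctx.std κ).D I) ∅ c r →
    (Ctx.std κ).FN (St univ (Ctx.std κ).D I) ∅ p c r →
    ∃ O β, IsOpen O ∧ c ∈ O ∧ SmG O β ∧ VanG (St univ (Ctx.std κ).D I ∩ O) (r - β) ∧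
      (Ctx.std κ).FN univ α (p + I.card) c (lgI (zc κ) I β) := by
  intro I hI p r hs hF
  by_cases hG : Gd κ I
  swap
  · refine ⟨univ, 0, isOpen_univ, trivial, fun n => contDiffOn_const, ?_, ?_⟩
    · rw [St_bad hG, empty_inter]
      exact VanG.empty
    · rw [lgI_bad hG]
      exact Ctx.FN.zero
  obtain ⟨F, _, _, _, ⟨Φ⟩⟩ := exists_FK d
  obtain ⟨O, hO, hc, hβ⟩ := smG_of_smN (h.smSt hG (Finset.disjoint_empty_left I) hs)
  refine ⟨O, _, hO, hc, hβ, ?_, ?_⟩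
  · refine VanG.pull_sub isOpen_univ (subset_univ _) (kR (alK κ I)).contDiff.contDiffOn ?_ r
    intro y hy
    rw [St_gd hG] at hy
    funext k
    rw [kR_apply]
    split_ifs with hk
    · exact (hy.1 k hk).symm
    · rfl
  · obtain ⟨b, hb⟩ := FK.Hat.of_smG (Φ := Φ) hO hc hβ
    have hL : (wdK κ I).toFinset ⊆ alK κ α := by
      rw [wdK_toFinset]
      exact alK_mono hI
    have h1 := FK.Hat.wr hL h.alK_c hb
    rw [h.fnSt_iff hG (Finset.disjoint_empty_left I), alK_empty] at hF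
    have h2 := hb.mem_Fl.2 hF
    have h3 := aL_Fl_DPM3 (Φ.logM c) (wdK κ I)
      (ZZ_Fl_DPM3 (Φ.logM c) (alK κ α \ (wdK κ I).toFinset) p b h2)
    rw [wdK_length hG] at h3
    rw [lgI_gd hG]
    exact h1.fn.1 h3

end Pool.Agent.PWD.Loc
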