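import Pool.Agent.P.MP_65ad7c_ag.DPS1
import Pool.Agent.P.MP_65ad7c_ag.DPF1

/-! Conjugation and types. -/

open Set Filter Topology TopologicalSpace Metric
open scoped ContDiff ComplexConjugate
open Pool.Agent.HT (Form Alt pull der kill)

noncomputable section
namespace Pool.Agent.PWD.Loc

variable {d : ℕ} {ι : Type} [LinearOrder ι] {κ : ι → Option (Fin d)} {c : E d} {α : Finset ι}

theorem Std.off (h : Std κ c) : ∀ I ⊆ α, c ∉ St univ (Ctx.std κ).D I →
    ∀ f, (Ctx.std κ).NulN univ α c (lgI (zc κ) I f) := by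
  intro I _ hc f
  rw [lgI_bad (fun hI => hc (h.mem_St.2 hI))]
  exact Ctx.NulN.zero

section general
variable {V : Type} [NormedAddCommGroup V] [NormedSpace ℝ V] {O : Set V}

theorem slit_DPM4 {w : ℂ} (hw : w ≠ 0) : w * conj w ∈ Complex.slitPlane := by
  rw [Complex.mul_conj]
  exact Complex.ofReal_mem_slitPlane.2 (Complex.normSq_pos.2 hw)

theorem log_DPM4 {h : V → ℂ} (hO : IsOpen O) (hh : ContDiffOn ℝ ∞ h O) (h0 : ∀ y ∈ O, h y ≠ 0) :
    ∃ l : V → ℂ, ContDiffOn ℝ ∞ l O ∧ ∀ x ∈ O,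
      (Complex.conjCLE : ℂ →L[ℝ] ℂ).comp ((h x)⁻¹ • fderiv ℝ h x) + (h x)⁻¹ • fderiv ℝ h x =
        fderiv ℝ l x := by
  refine ⟨fun x => Complex.log (h x * conj (h x)), fun x hx => ?_, fun x hx => ?_⟩
  · have h1 : ContDiffWithinAt ℝ ∞ (fun x => h x * conj (h x)) O x :=
      (hh x hx).mul ((Complex.conjCLE : ℂ →L[ℝ] ℂ).contDiff.contDiffAt.comp_contDiffWithinAt x
        (hh x hx))
    exact ((Complex.contDiffAt_log (slit_DPM4 (h0 x hx))).restrict_scalars ℝ
      ).comp_contDiffWithinAt x h1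
  · have h1 : HasFDerivAt h (fderiv ℝ h x) x :=
      ((hh.contDiffAt (hO.mem_nhds hx)).differentiableAt (by simp)).hasFDerivAt
    have h2 : HasFDerivAt (fun x => conj (h x))
        ((Complex.conjCLE : ℂ →L[ℝ] ℂ).comp (fderiv ℝ h x)) x :=
      (Complex.conjCLE : ℂ →L[ℝ] ℂ).hasFDerivAt.comp x h1
    have h3 := (Complex.hasStrictFDerivAt_log_real (slit_DPM4 (h0 x hx))).hasFDerivAt.comp x
      (h1.mul h2)
    refine Eq.trans ?_ h3.fderiv.symm
    ext v
    have h4 := h0 x hx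
    have h5 : conj (h x) ≠ 0 := (map_ne_zero _).2 h4
    simp only [add_apply, ContinuousLinearMap.comp_apply,
      smul_apply, ContinuousLinearEquiv.coe_coe, Complex.conjCLE_apply,
      smul_eq_mul, map_mul, map_inv₀, one_apply_eq_self]
    field_simp

omit [LinearOrder ι] in
theorem foldr_zero_DPM4 (h : ι → V → ℂ) (L : List ι) :
    L.foldr (fun i g => lg (h i) g) (0 : GF V) = 0 := by
  induction L with
  | nil => rfl
  | cons i L ih =>
    rw [List.foldr_cons, ih]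
    exact wG_zero _

omit [LinearOrder ι] in
theorem list_DPM4 {h : ι → V → ℂ} (hO : IsOpen O) (L : List ι)
    (hh : ∀ i ∈ L, ContDiffOn ℝ ∞ (h i) O ∧ ∀ y ∈ O, h i y ≠ 0) :
    ∃ g, SmS O g ∧ VanG O (conjG (L.foldr (fun i g => lg (h i) g) oneG) -
      (-1 : ℂ) ^ L.length • L.foldr (fun i g => lg (h i) g) oneG - dG g) := by
  induction L with
  | nil =>
    refine ⟨0, SmS.zero, ?_⟩
    rw [List.foldr_nil, conjG_oneG, dG_zero, List.length_nil, pow_zero, one_smul, sub_self,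
      sub_self]
    exact VanG.zero
  | cons i L ih =>
    have hL : ∀ j ∈ L, ContDiffOn ℝ ∞ (h j) O ∧ ∀ y ∈ O, h j y ≠ 0 :=
      fun j hj => hh j (List.mem_cons_of_mem _ hj)
    obtain ⟨g, hg, A2⟩ := ih hL
    obtain ⟨hi, hi0⟩ := hh i List.mem_cons_self
    obtain ⟨hF, hdF⟩ := list_DL2a hO Subset.rfl SmS.one L hL
    have e0 : (-1 : ℂ) ^ L.length • (0 : GF V) = 0 := by
      funext n x
      exact smul0DL1 n _
    rw [dG_oneG, foldr_zero_DPM4, e0, sub_zero] at hdF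
    rw [List.foldr_cons, List.length_cons]
    generalize L.foldr (fun i g => lg (h i) g) (oneG : GF V) = F at *
    obtain ⟨l, hl, hle⟩ := log_DPM4 hO hi hi0
    have ha := smS_lg_DL2a hO Subset.rfl hi hi0 hg
    have hb := SmS.mul hO Subset.rfl hl hF.conj
    have A1 : VanG O (conjG (lg (h i) F) + lg (h i) (conjG F) - wG (fderiv ℝ l) (conjG F)) := by
      refine VanG.of_zero fun n x hx => ?_
      unfold lg
      rw [conjG_wG, ← wG_add_left]
      exact sub_eq_zero.2 (wG_congr (hle x hx) (fun _ => rfl) n)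
    have A2' : VanG O (lg (h i) (conjG F) - (-1 : ℂ) ^ L.length • lg (h i) F - lg (h i) (dG g)) := by
      have := A2.wG fun x => (h i x)⁻¹ • fderiv ℝ (h i) x
      rwa [wG_sub, wG_sub, wG_smul] at this
    have A3 := VanG.d_lg hO Subset.rfl hi hi0 hg
    have A4 := VanG.d_mul hO Subset.rfl hl hF.conj
    have A5 : VanG O (mulG l (dG (conjG F))) := by
      rw [dG_conjG]
      exact hdF.conj.mul l
    have A6 := VanG.d_add ha hb
    refine ⟨_, ha.add hb, ?_⟩
    have e : conjG (lg (h i) F) - (-1 : ℂ) ^ (L.length + 1) • lg (h i) F -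
        dG (lg (h i) g + mulG l (conjG F)) =
        conjG (lg (h i) F) + lg (h i) (conjG F) - wG (fderiv ℝ l) (conjG F) -
        (lg (h i) (conjG F) - (-1 : ℂ) ^ L.length • lg (h i) F - lg (h i) (dG g)) -
        (dG (lg (h i) g) + lg (h i) (dG g)) -
        (dG (mulG l (conjG F)) - (mulG l (dG (conjG F)) + wG (fderiv ℝ l) (conjG F))) -
        mulG l (dG (conjG F)) -
        (dG (lg (h i) g + mulG l (conjG F)) - (dG (lg (h i) g) + dG (mulG l (conjG F)))) := by
      have e1 : (-1 : ℂ) ^ (L.length + 1) • lg (h i) F = -((-1 : ℂ) ^ L.length • lg (h i) F) := by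
        funext n x
        ext v
        simp [pow_succ]
      rw [e1]
      abel
    rw [e]
    exact ((((A1.sub A2').sub A3).sub A4).sub A5).sub A6

end general

theorem Std.conj : ∀ I ⊆ α, ∃ g, (Ctx.std κ).SmN univ α c g ∧ (Ctx.std κ).NulN univ α c
    (conjG (lgI (zc κ) I oneG) - (-1 : ℂ) ^ I.card • lgI (zc κ) I oneG - dG g) := by
  intro I hI
  have hO : IsOpen (univ \ Off (Ctx.std κ).D α) := by
    rw [off_eq, ← compl_eq_univ_sdiff, compl_compl]
    exact (Rg _).isOpen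
  obtain ⟨g, h1, h2⟩ := list_DPM4 (h := zc κ) hO (I.sort (· ≤ ·)) fun i hi =>
    ⟨(std_ok' (κ := κ) univ).smooth _ i _ rfl,
      fun y hy => off_notMem_DL2a (D := (Ctx.std κ).D) (i := i) (hI ((Finset.mem_sort _).1 hi)) hy.2⟩
  rw [Finset.length_sort] at h2
  exact ⟨g, Ctx.SmN.of_smS h1, Ctx.NulN.of_van h2⟩

omit [LinearOrder ι] in
theorem Std.ty0 : ∀ f, (Ctx.std κ).FN univ α 0 c f := by
  intro f
  obtain ⟨F, _, _, _, ⟨Φ⟩⟩ := exists_FK d
  refine fn_iff.2 (Eventually.of_forall fun z n => ?_)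
  have h := (Φ.ty_iff 0 (Φ.all fun n => f n z)).2 (by rw [Φ.HF_zero]; trivial) n
  rwa [Φ.psi_all] at h

omit [LinearOrder ι] in
theorem Std.tyN : ∀ p f, (Ctx.std κ).NulN univ α c f → (Ctx.std κ).FN univ α p c f := by
  intro p f h
  refine fn_iff.2 ((nul_iff.1 h).mono fun z hz n => ?_)
  rw [hz n]
  exact Ctx.tyz_DL2a _ _ _

omit [LinearOrder ι] in
theorem Std.tyA : ∀ p f, (Ctx.std κ).FN univ α (p + 1) c f → (Ctx.std κ).FN univ α p c f := by
  intro p f h
  obtain ⟨F, _, _, _, ⟨Φ⟩⟩ := exists_FK d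
  refine fn_iff.2 ((fn_iff.1 h).mono fun z hz n => ?_)
  have h1 := (Φ.ty_iff (p + 1) (Φ.all fun n => f n z)).1 fun m => by
    rw [Φ.psi_all]
    exact hz m
  have h2 := (Φ.ty_iff p _).2 (Φ.HF_anti p h1) n
  rwa [Φ.psi_all] at h2

end Pool.Agent.PWD.Loc
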