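import Pool.Agent.P.MP_65ad7c_ag.DPM2
import Pool.Agent.P.MP_65ad7c_ag.DPM3
import Pool.Agent.P.MP_65ad7c_ag.DPM4
import Pool.Agent.P.MP_65ad7c_ag.DPM5

/-! The local theory for coordinate hyperplanes. -/

open Set

noncomputable section
namespace Pool.Agent.PWD

variable {d : ℕ} {ι : Type} [LinearOrder ι] {κ : ι → Option (Fin d)} {c : Fin d → ℂ}

omit [LinearOrder ι] in
theorem std_ok (S : Set (Fin d → ℂ)) : (Ctx.std κ).OK S := Loc.std_ok' S

theorem std_lt (hκ : ∀ i j k, κ i = some k → κ j = some k → i = j)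
    (hc : ∀ i k, κ i = some k → c k = 0) (α : Finset ι) :
    (Ctx.std κ).LT univ α c (zc κ) :=
  have h : Loc.Std κ c := ⟨hκ, hc⟩
  { eqs := Loc.eqs_std
    pp1 := h.pp1
    pp2 := h.pp2
    l4 := h.l4
    l3 := h.l3
    off := h.off
    ind := fun _ _ _ _ => Loc.RH_ind
    resU := h.resU
    resF := h.resF
    resV := h.resV
    ext := h.ext
    txt := h.txt
    conj := Loc.Std.conj
    ty0 := Loc.Std.ty0
    tyN := Loc.Std.tyN
    tyA := Loc.Std.tyA
    tyd := Loc.Std.tyd
    top := h.top }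

omit [LinearOrder ι] in
theorem std_ht (hκ : ∀ i j k, κ i = some k → κ j = some k → i = j)
    (hc : ∀ i k, κ i = some k → c k = 0) {α t : Finset ι} (h : Disjoint α t)
    (ht : c ∈ St univ (Ctx.std κ).D t) :
    (Ctx.std κ).HT univ α (St univ (Ctx.std κ).D t) c := by
  classical
  let _ : LinearOrder ι := linearOrderOfSTO WellOrderingRel
  exact Loc.Std.ht ⟨hκ, hc⟩ h ht

end Pool.Agent.PWD
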