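import Pool.Agent.P.MP_65ad7c_ag.DPG0
import Pool.Agent.P.MP_65ad7c_ag.HBase

/-! Smooth functions on an open subset of `ℂ^d` and the operators that act on them. -/

open Set Filter Topology TopologicalSpace MeasureTheory
open scoped ContDiff
open Pool.Agent.HT (Alt)

noncomputable section
namespace Pool.Agent.PWD.Loc

/-- the model space -/
abbrev E (d : ℕ) := Fin d → ℂ

variable {d : ℕ} {F : Type} [NormedAddCommGroup F] [NormedSpace ℂ F]

/-- smooth functions on `Ω`, extended by zero -/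
def Fn (Ω : Opens (E d)) (F : Type) [NormedAddCommGroup F] [NormedSpace ℂ F] :
    Submodule ℂ (E d → F) where
  carrier := {f | ContDiffOn ℝ ∞ f Ω ∧ ∀ z ∉ Ω, f z = 0}
  add_mem' ha hb := ⟨ha.1.add hb.1, fun z hz => by simp [ha.2 z hz, hb.2 z hz]⟩
  zero_mem' := ⟨contDiffOn_const, fun _ _ => rfl⟩
  smul_mem' c _ ha := ⟨ha.1.const_smul c, fun z hz => by simp [ha.2 z hz]⟩

variable {Ω : Opens (E d)} {z : E d}

theorem Fn.smooth (f : Fn Ω F) : ContDiffOn ℝ ∞ f.1 Ω := f.2.1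

theorem Fn.cda (f : Fn Ω F) (hz : z ∈ Ω) : ContDiffAt ℝ ∞ f.1 z :=
  (Fn.smooth f).contDiffAt (Ω.isOpen.mem_nhds hz)

theorem Fn.diff (f : Fn Ω F) (hz : z ∈ Ω) : DifferentiableAt ℝ f.1 z :=
  (Fn.cda f hz).differentiableAt (by simp)

theorem Fn.zero (f : Fn Ω F) (hz : z ∉ Ω) : f.1 z = 0 := f.2.2 z hz

theorem Fn.ext {f g : Fn Ω F} (h : ∀ z ∈ Ω, f.1 z = g.1 z) : f = g :=
  Subtype.ext (funext fun z => by
    by_cases hz : z ∈ Ω
    · exact h z hz
    · rw [Fn.zero f hz, Fn.zero g hz])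

/-- a smooth function, cut off outside `Ω` -/
def Fn.mk (f : E d → F) (hf : ContDiffOn ℝ ∞ f Ω) : Fn Ω F :=
  ⟨indicator Ω f, hf.congr fun _ hz => indicator_of_mem hz f, fun _ hz => indicator_of_notMem hz f⟩

theorem Fn.mk_apply {f : E d → F} (hf : ContDiffOn ℝ ∞ f Ω) (hz : z ∈ Ω) :
    (Fn.mk f hf).1 z = f z := indicator_of_mem hz f

/-- `T` induces a linear operator on `Fn Ω F` -/
structure Good (Ω : Opens (E d)) (T : (E d → F) → E d → F) : Prop where
  smooth : ∀ f : Fn Ω F, ContDiffOn ℝ ∞ (T f.1) Ω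
  add : ∀ f g : Fn Ω F, ∀ z ∈ Ω, T (f.1 + g.1) z = T f.1 z + T g.1 z
  smul : ∀ (c : ℂ) (f : Fn Ω F), ∀ z ∈ Ω, T (c • f.1) z = c • T f.1 z

open Classical in
/-- the operator induced by `T` (the identity if there is none) -/
def op (Ω : Opens (E d)) (T : (E d → F) → E d → F) : Module.End ℂ (Fn Ω F) :=
  if h : Good Ω T then
    { toFun := fun f => Fn.mk (T f.1) (h.smooth f)
      map_add' := fun f g => Fn.ext fun z hz => by
        simp only [Submodule.coe_add, Pi.add_apply, Fn.mk_apply _ hz, h.add f g z hz]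
      map_smul' := fun c f => Fn.ext fun z hz => by
        simp only [Submodule.coe_smul, Pi.smul_apply, RingHom.id_apply, Fn.mk_apply _ hz,
          h.smul c f z hz] }
  else 1

theorem op_apply {T : (E d → F) → E d → F} (h : Good Ω T) (f : Fn Ω F) (hz : z ∈ Ω) :
    (op Ω T f).1 z = T f.1 z := by
  rw [op, dif_pos h]
  exact Fn.mk_apply (h.smooth f) hz

theorem op_ev {T : (E d → F) → E d → F} (h : Good Ω T) (f : Fn Ω F) (hz : z ∈ Ω) :
    (op Ω T f).1 =ᶠ[𝓝 z] T f.1 := by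
  filter_upwards [Ω.isOpen.mem_nhds hz] with y hy using op_apply h f hy

theorem op_fderiv {T : (E d → F) → E d → F} (h : Good Ω T) (f : Fn Ω F) (hz : z ∈ Ω) :
    fderiv ℝ (op Ω T f).1 z = fderiv ℝ (T f.1) z := (op_ev h f hz).fderiv_eq

theorem op_bad {T : (E d → F) → E d → F} (h : ¬Good Ω T) : op Ω T = 1 := by rw [op, dif_neg h]

theorem end_ext {A B : Module.End ℂ (Fn Ω F)} (h : ∀ f, ∀ z ∈ Ω, (A f).1 z = (B f).1 z) : A = B :=
  LinearMap.ext fun f => Fn.ext (h f)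

/-- the coordinate `z_k` or its conjugate -/
def cov (i : Fin d × Bool) : E d →L[ℝ] ℂ :=
  if i.2 then (Complex.conjCLE : ℂ →L[ℝ] ℂ).comp (ContinuousLinearMap.proj i.1)
  else ContinuousLinearMap.proj i.1

/-- the value of a real linear map on the Wirtinger vector dual to `cov i` -/
def wv {G : Type} [NormedAddCommGroup G] [NormedSpace ℂ G] (i : Fin d × Bool) (L : E d →L[ℝ] G) :
    G := (2⁻¹ : ℂ) • (L (Pi.single i.1 1) +
      (if i.2 then Complex.I else -Complex.I) • L (Pi.single i.1 Complex.I))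

/-- a constant operator -/
def cst (Ω : Opens (E d)) (L : F →L[ℂ] F) : Module.End ℂ (Fn Ω F) := op Ω fun f z => L (f z)

/-- multiplication by a function -/
def mul (Ω : Opens (E d)) (F : Type) [NormedAddCommGroup F] [NormedSpace ℂ F] (g : E d → ℂ) :
    Module.End ℂ (Fn Ω F) := op Ω fun f z => g z • f z

/-- Wirtinger derivative -/
def dw (Ω : Opens (E d)) (F : Type) [NormedAddCommGroup F] [NormedSpace ℂ F] (i : Fin d × Bool) :
    Module.End ℂ (Fn Ω F) := op Ω fun f z => wv i (fderiv ℝ f z)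

open Classical in
/-- composition with a self-map of `Ω` -/
def cmp (Ω : Opens (E d)) (F : Type) [NormedAddCommGroup F] [NormedSpace ℂ F] (ψ : E d → E d) :
    Module.End ℂ (Fn Ω F) := if MapsTo ψ Ω Ω then op Ω fun f z => f (ψ z) else 1

/-- a weighted average of compositions -/
def intg (Ω : Opens (E d)) (F : Type) [NormedAddCommGroup F] [NormedSpace ℂ F] {P : Type}
    [MeasureSpace P] (A : Set P) (w : P → ℂ) (φ : P → E d → E d) : Module.End ℂ (Fn Ω F) :=
  op Ω fun f z => ∫ u in A, w u • f (φ u z)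

/-- the centred coordinates -/
def xc (Ω : Opens (E d)) (F : Type) [NormedAddCommGroup F] [NormedSpace ℂ F] (c : E d)
    (i : Fin d × Bool) : Module.End ℂ (Fn Ω F) := mul Ω F fun z => cov i (z - c)

/-- evaluation on the hyperplane `z_k = c_k` -/
def evc (Ω : Opens (E d)) (F : Type) [NormedAddCommGroup F] [NormedSpace ℂ F] (c : E d)
    (k : Fin d) : Module.End ℂ (Fn Ω F) := cmp Ω F fun z => Function.update z k (c k)

/-- the Euler field -/
def eu (Ω : Opens (E d)) (F : Type) [NormedAddCommGroup F] [NormedSpace ℂ F] (c : E d)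
    (k : Fin d) : Module.End ℂ (Fn Ω F) :=
  xc Ω F c (k, false) * dw Ω F (k, false) + xc Ω F c (k, true) * dw Ω F (k, true)

/-- the rotation field -/
def th (Ω : Opens (E d)) (F : Type) [NormedAddCommGroup F] [NormedSpace ℂ F] (c : E d)
    (k : Fin d) : Module.End ℂ (Fn Ω F) :=
  Complex.I • (xc Ω F c (k, false) * dw Ω F (k, false) - xc Ω F c (k, true) * dw Ω F (k, true))

/-- functions with values in `C` on `U` -/
def Nb (Ω : Opens (E d)) (C : Submodule ℂ F) (U : Set (E d)) : Submodule ℂ (Fn Ω F) where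
  carrier := {f | ∀ z ∈ U, f.1 z ∈ C}
  add_mem' ha hb z hz := C.add_mem (ha z hz) (hb z hz)
  zero_mem' _ _ := C.zero_mem
  smul_mem' c _ ha z hz := C.smul_mem c (ha z hz)

/-- functions with values in `C` near `c` -/
def Ng (Ω : Opens (E d)) (C : Submodule ℂ F) (c : E d) : Submodule ℂ (Fn Ω F) where
  carrier := {f | ∀ᶠ z in 𝓝 c, f.1 z ∈ C}
  add_mem' ha hb := by
    filter_upwards [ha, hb] with z h h' using C.add_mem h h'
  zero_mem' := Eventually.of_forall fun _ => C.zero_mem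
  smul_mem' a _ ha := by
    filter_upwards [ha] with z h using C.smul_mem a h

theorem mem_Nb {C : Submodule ℂ F} {U : Set (E d)} {f : Fn Ω F} :
    f ∈ Nb Ω C U ↔ ∀ z ∈ U, f.1 z ∈ C := Iff.rfl

theorem mem_Ng {C : Submodule ℂ F} {c : E d} {f : Fn Ω F} :
    f ∈ Ng Ω C c ↔ ∀ᶠ z in 𝓝 c, f.1 z ∈ C := Iff.rfl

theorem mem_Ng_iff {C : Submodule ℂ F} {c : E d} {f : Fn Ω F} :
    f ∈ Ng Ω C c ↔ ∃ r > 0, f ∈ Nb Ω C (Metric.ball c r) := by
  rw [mem_Ng, Metric.eventually_nhds_iff_ball]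
  rfl

theorem Stb_Ng {C : Submodule ℂ F} {c : E d} {T : Module.End ℂ (Fn Ω F)}
    (h : ∀ r > 0, T ∈ Stb (Nb Ω C (Metric.ball c r))) : T ∈ Stb (Ng Ω C c) := fun f hf => by
  obtain ⟨r, hr, hf⟩ := mem_Ng_iff.1 hf
  exact mem_Ng_iff.2 ⟨r, hr, h r hr f hf⟩

/-- the complement of the coordinate hyperplanes -/
def Rg (al : Finset (Fin d)) : Opens (E d) :=
  ⟨{z | ∀ k ∈ al, z k ≠ 0}, by
    simp only [Set.ofPred_forall]
    exact isOpen_biInter_finset fun k _ => isOpen_ne_fun (continuous_apply k) continuous_const⟩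

theorem mem_Rg {al : Finset (Fin d)} : z ∈ Rg al ↔ ∀ k ∈ al, z k ≠ 0 := Iff.rfl

/-- A Fock space: the sum of the spaces of alternating forms. -/
structure FK (d : ℕ) (F : Type) [NormedAddCommGroup F] [NormedSpace ℂ F] where
  io : E d →L[ℝ] F →L[ℂ] F
  ep : (E d →L[ℝ] ℂ) →ₗ[ℂ] F →L[ℂ] F
  psi : ∀ n, F →L[ℂ] Alt (E d) n
  phi : ∀ n, Alt (E d) n →L[ℂ] F
  car : ∀ v l, io v * ep l + ep l * io v = l v • 1
  anti_io : ∀ v w, io v * io w + io w * io v = 0
  anti_ep : ∀ l l', ep l * ep l' + ep l' * ep l = 0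
  psi_io : ∀ n v u, psi n (io v u) = (psi (n + 1) u).curryLeft v
  psi_ep0 : ∀ l u, psi 0 (ep l u) = 0
  psi_ep : ∀ n l u, psi (n + 1) (ep l u) =
    ContinuousAlternatingMap.alternatizeUncurryFin (l.smulRight (psi n u))
  psi_phi : ∀ n a, psi n (phi n a) = a
  psi_phi_ne : ∀ n m a, m ≠ n → psi m (phi n a) = 0
  ext : ∀ u, (∀ n, psi n u = 0) → u = 0

end Pool.Agent.PWD.Loc
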