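import Pool.Agent.P.MP_65ad7c_ag.DPA1

/-! Commutation relations. -/

open Set Filter Topology TopologicalSpace MeasureTheory Metric
open scoped ContDiff ComplexConjugate

noncomputable section
namespace Pool.Agent.PWD.Loc

variable {d : ℕ} {F : Type} [NormedAddCommGroup F] [NormedSpace ℂ F] {Ω : Opens (E d)}
  {z c : E d} {k l : Fin d} {i j : Fin d × Bool}

theorem mul_cases_DPA2 (g : E d → ℂ) : mul Ω F g = 1 ∨
    ∀ f : Fn Ω F, ∀ z ∈ Ω, (mul Ω F g f).1 z = g z • f.1 z := by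
  by_cases h : Good Ω fun (f : E d → F) z => g z • f z
  · exact Or.inr fun f z hz => op_apply h f hz
  · exact Or.inl (op_bad h)

theorem cmp_cases_DPA2 (ψ : E d → E d) : cmp Ω F ψ = 1 ∨ (MapsTo ψ Ω Ω ∧
    ∀ f : Fn Ω F, ∀ z ∈ Ω, (cmp Ω F ψ f).1 z = f.1 (ψ z)) := by
  by_cases hm : MapsTo ψ Ω Ω
  · by_cases h : Good Ω fun (f : E d → F) z => f (ψ z)
    · exact Or.inr ⟨hm, fun f z hz => by rw [cmp, if_pos hm]; exact op_apply h f hz⟩
    · exact Or.inl (by rw [cmp, if_pos hm]; exact op_bad h)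
  · exact Or.inl (cmp_bad hm)

theorem cst_comm_mul (L : F →L[ℂ] F) (g : E d → ℂ) : Commute (mul Ω F g) (cst Ω L) := by
  rcases mul_cases_DPA2 (Ω := Ω) (F := F) g with h | h
  · rw [h]; exact Commute.one_left _
  · refine end_ext fun f z hz => ?_
    simp only [Module.End.mul_apply, h _ z hz, cst_val, map_smul]

theorem fderiv_cst_DPA2 (L : F →L[ℂ] F) (f : Fn Ω F) (hz : z ∈ Ω) :
    fderiv ℝ (cst Ω L f).1 z = (L.restrictScalars ℝ).comp (fderiv ℝ f.1 z) := by
  rw [cst_val]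
  exact ((L.restrictScalars ℝ).hasFDerivAt.comp z (Fn.diff f hz).hasFDerivAt).fderiv

theorem cst_comm_dw (L : F →L[ℂ] F) (i : Fin d × Bool) : Commute (dw Ω F i) (cst Ω L) := by
  refine end_ext fun f z hz => ?_
  rw [Module.End.mul_apply, Module.End.mul_apply, dw_apply _ _ hz, fderiv_cst_DPA2 _ _ hz, wv_comp,
    cst_val]
  simp only [dw_apply _ _ hz]

theorem cst_comm_cmp (L : F →L[ℂ] F) (ψ : E d → E d) : Commute (cmp Ω F ψ) (cst Ω L) := by
  rcases cmp_cases_DPA2 (Ω := Ω) (F := F) ψ with h | ⟨_, h⟩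
  · rw [h]; exact Commute.one_left _
  · refine end_ext fun f z hz => ?_
    simp only [Module.End.mul_apply, h _ z hz, cst_val]

theorem mul_comm_mul (g g' : E d → ℂ) : Commute (mul Ω F g) (mul Ω F g') := by
  rcases mul_cases_DPA2 (Ω := Ω) (F := F) g with h | h
  · rw [h]; exact Commute.one_left _
  rcases mul_cases_DPA2 (Ω := Ω) (F := F) g' with h' | h'
  · rw [h']; exact Commute.one_right _
  refine end_ext fun f z hz => ?_
  simp only [Module.End.mul_apply, h _ z hz, h' _ z hz, smul_comm (g z)]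

theorem fderiv_dw_DPA2 (i : Fin d × Bool) (f : Fn Ω F) (hz : z ∈ Ω) (v : E d) :
    fderiv ℝ (dw Ω F i f).1 z v = wv i (fderiv ℝ (fderiv ℝ f.1) z v) := by
  have hd : DifferentiableAt ℝ (fderiv ℝ f.1) z :=
    ((Fn.cda f hz).fderiv_right (m := 1) (by norm_cast)).differentiableAt (by simp)
  rw [dw, op_fderiv (good_dw_DPA1 i) f hz]
  have h1 := (hd.hasFDerivAt.clm_apply (hasFDerivAt_const (Pi.single i.1 (1 : ℂ) : E d) z))
  have h2 := (hd.hasFDerivAt.clm_apply (hasFDerivAt_const (Pi.single i.1 Complex.I : E d) z))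
  have h3 := (h1.add (h2.const_smul (if i.2 then Complex.I else -Complex.I))).const_smul (2⁻¹ : ℂ)
  have h4 := h3.fderiv
  refine (DFunLike.congr_fun h4 v).trans ?_
  cases hi : i.2 <;> simp [wv, hi]

theorem dw_comm_dw (i j : Fin d × Bool) : Commute (dw Ω F i) (dw Ω F j) := by
  refine end_ext fun f z hz => ?_
  have hs : ∀ v w, fderiv ℝ (fderiv ℝ f.1) z v w = fderiv ℝ (fderiv ℝ f.1) z w v :=
    ((Fn.cda f hz).isSymmSndFDerivAt (by simp; decide)).eq
  simp only [Module.End.mul_apply, dw_apply _ _ hz]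
  simp only [wv, fderiv_dw_DPA2 _ _ hz]
  rw [hs (Pi.single i.1 1) (Pi.single j.1 1), hs (Pi.single i.1 1) (Pi.single j.1 Complex.I),
    hs (Pi.single i.1 Complex.I) (Pi.single j.1 1),
    hs (Pi.single i.1 Complex.I) (Pi.single j.1 Complex.I)]
  module

theorem dw_mul_DPA2 {g : E d → ℂ} (hg : ContDiffOn ℝ ∞ g Ω) (i : Fin d × Bool) (f : Fn Ω F)
    (hz : z ∈ Ω) : (dw Ω F i (mul Ω F g f)).1 z =
      g z • (dw Ω F i f).1 z + wv i (fderiv ℝ g z) • f.1 z := by
  have hd : DifferentiableAt ℝ g z :=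
    (hg.contDiffAt (Ω.isOpen.mem_nhds hz)).differentiableAt (by simp)
  rw [dw_apply _ _ hz, dw_apply _ _ hz, mul_val hg,
    (hd.hasFDerivAt.fun_smul (Fn.diff f hz).hasFDerivAt).fderiv, wv_add, wv_smul, wv_smulRight]

theorem xc_smooth_DPA2 (c : E d) (j : Fin d × Bool) :
    ContDiff ℝ ∞ fun z : E d => cov j (z - c) := (cov j).contDiff.comp (contDiff_id.sub contDiff_const)

theorem dw_xc (c : E d) (i j : Fin d × Bool) :
    dw Ω F i * xc Ω F c j - xc Ω F c j * dw Ω F i = if i = j then 1 else 0 := by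
  refine end_ext fun f z hz => ?_
  have hf : fderiv ℝ (fun z : E d => cov j (z - c)) z = cov j := by
    have := ((cov j).hasFDerivAt.comp z ((hasFDerivAt_id z).sub_const c)).fderiv
    simpa [Function.comp_def] using this
  have h := dw_mul_DPA2 (xc_smooth_DPA2 c j).contDiffOn i f hz
  rw [hf, wv_cov] at h
  simp only [LinearMap.sub_apply, Module.End.mul_apply, Submodule.coe_sub, Pi.sub_apply, xc_val]
  rw [xc, h]
  split_ifs <;> simp

theorem mul_comm_dw {g : E d → ℂ} (hg : ContDiffOn ℝ ∞ g Ω)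
    (h : ∀ z ∈ Ω, wv i (fderiv ℝ g z) = 0) : Commute (mul Ω F g) (dw Ω F i) := by
  refine end_ext fun f z hz => ?_
  rw [Module.End.mul_apply, Module.End.mul_apply, dw_mul_DPA2 hg i f hz, h z hz, mul_val hg]
  simp

theorem cmp_comm_mul {ψ : E d → E d} (hψ : ContDiffOn ℝ ∞ ψ Ω) {g : E d → ℂ}
    (hg : ContDiffOn ℝ ∞ g Ω) (h : ∀ z ∈ Ω, g (ψ z) = g z) :
    Commute (cmp Ω F ψ) (mul Ω F g) := by
  by_cases hm : MapsTo ψ Ω Ω
  · refine end_ext fun f z hz => ?_
    simp only [Module.End.mul_apply, cmp_apply hψ hm _ hz, mul_val hg, h z hz]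
  · rw [cmp_bad hm]; exact Commute.one_left _

theorem cmp_comm_dw {ψ : E d → E d} (hψ : ContDiffOn ℝ ∞ ψ Ω)
    (h : ∀ z ∈ Ω, ∀ t, fderiv ℝ ψ z (Pi.single i.1 t) = Pi.single i.1 t) :
    Commute (cmp Ω F ψ) (dw Ω F i) := by
  by_cases hm : MapsTo ψ Ω Ω
  · refine end_ext fun f z hz => ?_
    rw [Module.End.mul_apply, Module.End.mul_apply, cmp_apply hψ hm _ hz, dw_apply _ _ (hm hz),
      dw_apply _ _ hz, cmp_fderiv hψ hm _ hz]
    exact wv_congr fun t => by rw [ContinuousLinearMap.comp_apply, h z hz]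
  · rw [cmp_bad hm]; exact Commute.one_left _

theorem cmp_comm_cmp {ψ ψ' : E d → E d} (hψ : ContDiffOn ℝ ∞ ψ Ω) (hψ' : ContDiffOn ℝ ∞ ψ' Ω)
    (h : ∀ z ∈ Ω, ψ (ψ' z) = ψ' (ψ z)) : Commute (cmp Ω F ψ) (cmp Ω F ψ') := by
  by_cases hm : MapsTo ψ Ω Ω
  · by_cases hm' : MapsTo ψ' Ω Ω
    · refine end_ext fun f z hz => ?_
      simp only [Module.End.mul_apply, cmp_apply hψ hm _ hz, cmp_apply hψ' hm' _ hz,
        cmp_apply hψ hm _ (hm' hz), cmp_apply hψ' hm' _ (hm hz), h z hz]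
    · rw [cmp_bad hm']; exact Commute.one_right _
  · rw [cmp_bad hm]; exact Commute.one_left _

/-- composition commutes with the derivative along an invariant vector field -/
theorem cmp_comm_field {ψ : E d → E d} (hψ : ContDiffOn ℝ ∞ ψ Ω) {X : E d → E d}
    {A : Module.End ℂ (Fn Ω F)} (hA : ∀ f, ∀ z ∈ Ω, (A f).1 z = fderiv ℝ f.1 z (X z))
    (h : ∀ z ∈ Ω, fderiv ℝ ψ z (X z) = X (ψ z)) : Commute (cmp Ω F ψ) A := by
  by_cases hm : MapsTo ψ Ω Ω
  · refine end_ext fun f z hz => ?_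
    rw [Module.End.mul_apply, Module.End.mul_apply, cmp_apply hψ hm _ hz, hA _ _ (hm hz),
      hA _ _ hz, cmp_fderiv hψ hm _ hz, ContinuousLinearMap.comp_apply, h z hz]
  · rw [cmp_bad hm]; exact Commute.one_left _

theorem cov_update_DPA2 (h : i.1 ≠ k) (z c : E d) (t : ℂ) :
    cov i (Function.update z k t - c) = cov i (z - c) := by
  obtain ⟨l, b⟩ := i
  cases b <;> simp [Function.update_of_ne h]

theorem evc_comm_xc (h : i.1 ≠ k) : Commute (evc Ω F c k) (xc Ω F c i) :=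
  cmp_comm_mul (update_contDiff k _).contDiffOn (xc_smooth_DPA2 c i).contDiffOn
    fun z _ => cov_update_DPA2 h z c _

theorem evc_comm_dw (h : i.1 ≠ k) : Commute (evc Ω F c k) (dw Ω F i) :=
  cmp_comm_dw (update_contDiff k _).contDiffOn fun z _ t => by
    rw [update_fderiv, Function.update_eq_self_iff, Pi.single_eq_of_ne' h]

theorem evc_comm_evc (k l : Fin d) : Commute (evc Ω F c k) (evc Ω F c l) := by
  by_cases h : k = l
  · rw [h]
  · exact cmp_comm_cmp (update_contDiff k _).contDiffOn (update_contDiff l _).contDiffOn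
      fun z _ => (Function.update_comm h _ _ _).symm

theorem evc_xc (hm : MapsTo (fun z : E d => Function.update z k (c k)) Ω Ω) (t : Bool) :
    evc Ω F c k * xc Ω F c (k, t) = 0 := by
  refine end_ext fun f z hz => ?_
  rw [Module.End.mul_apply, evc_apply hm _ hz, xc_val]
  cases t <;> simp

theorem dw_evc (hm : MapsTo (fun z : E d => Function.update z k (c k)) Ω Ω) (t : Bool) :
    dw Ω F (k, t) * evc Ω F c k = 0 := by
  refine end_ext fun f z hz => ?_
  rw [Module.End.mul_apply, dw_apply _ _ hz, evc, cmp_fderiv (update_contDiff k _).contDiffOn hm _ hz,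
    wv_congr (L' := 0) fun s => ?_, wv_zero]
  · rfl
  · rw [ContinuousLinearMap.comp_apply, update_fderiv]
    simp [Pi.single, Function.update_idem]

end Pool.Agent.PWD.Loc
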