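import Pool.Agent.P.MP_65ad7c_ag.DPA2
import Pool.Agent.P.MP_65ad7c_ag.DPA3

/-! Integrals that depend on a parameter. -/

open Set Filter Topology TopologicalSpace MeasureTheory Metric
open scoped ContDiff ComplexConjugate

noncomputable section
namespace Pool.Agent.PWD.Loc

variable {d : ℕ} {F : Type} [NormedAddCommGroup F] [NormedSpace ℂ F] {Ω : Opens (E d)}
  {z c : E d} {k l : Fin d} {i j : Fin d × Bool}

variable {P : Type} [NormedAddCommGroup P] [NormedSpace ℝ P] [FiniteDimensional ℝ P]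
  [MeasureSpace P] [BorelSpace P] {A : Set P} {w : P → ℂ} {φ : P → E d → E d}

/-- admissible data for `intg` -/
structure IOK (Ω : Opens (E d)) (A : Set P) (w : P → ℂ) (φ : P → E d → E d) : Prop where
  compact : IsCompact A
  int : IntegrableOn w A
  smooth : ContDiffOn ℝ ∞ (fun p : P × E d => φ p.1 p.2) (univ ×ˢ Ω)
  maps : ∀ u, MapsTo (φ u) Ω Ω

section aux
variable {G : Type} [NormedAddCommGroup G] [NormedSpace ℂ G]

theorem integrable_DPA4 (hA : IsCompact A) (hw : IntegrableOn w A) {g : P → G}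
    (hg : ContinuousOn g A) : IntegrableOn (fun u => w u • g u) A :=
  hw.smul_continuousOn hg hA

theorem smooth_DPA4 (hA : IsCompact A) (hw : IntegrableOn w A) {g : P × E d → G}
    (hg : ContDiffOn ℝ ∞ g (univ ×ˢ Ω)) : ContDiffOn ℝ ∞ (fun z => ∫ u in A, w u • g (u, z)) Ω := by
  obtain ⟨R, hR, hAR⟩ := hA.isBounded.subset_closedBall_lt 0 (0 : P)
  let χ : ContDiffBump (0 : P) := ⟨R, R + 1, hR, by linarith⟩
  have h1 : ContDiffOn ℝ ∞ (fun q : E d × P => χ q.2 • g (-q.2, q.1)) ((Ω : Set (E d)) ×ˢ univ) :=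
    (χ.contDiff.comp contDiff_snd).contDiffOn.smul
      (hg.comp (contDiff_snd.neg.prodMk contDiff_fst).contDiffOn fun q hq => ⟨trivial, hq.1⟩)
  have h2 := contDiffOn_convolution_right_with_param_comp (n := ⊤) (μ := (volume : Measure P))
    (ContinuousLinearMap.lsmul ℝ ℂ : ℂ →L[ℝ] G →L[ℝ] G) (v := fun _ : E d => (0 : P))
    contDiffOn_const (f := indicator A w) (g := fun z x => χ x • g (-x, z))
    (k := closedBall 0 (R + 1)) Ω.isOpen (isCompact_closedBall _ _)
    (fun z x _ hx => by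
      rw [χ.zero_of_le_dist (not_le.1 (mt mem_closedBall.2 hx)).le, zero_smul])
    ((integrable_indicator_iff hA.measurableSet).2 hw).locallyIntegrable h1
  refine h2.congr fun z _ => ?_
  rw [convolution_def, ← integral_indicator hA.measurableSet]
  congr 1
  funext t
  by_cases ht : t ∈ A
  · have h3 : χ (0 - t) = 1 := χ.one_of_mem_closedBall (by simpa using hAR ht)
    rw [indicator_of_mem ht, indicator_of_mem ht, h3]
    simp
  · rw [indicator_of_notMem ht, indicator_of_notMem ht]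
    simp

theorem slice_DPA4 {G : Type} [NormedAddCommGroup G] [NormedSpace ℝ G] {g : P × E d → G}
    (hg : ContDiffOn ℝ ∞ g (univ ×ˢ Ω)) (u : P) (hz : z ∈ Ω) :
    HasFDerivAt (fun x => g (u, x))
      ((fderiv ℝ g (u, z)).comp (ContinuousLinearMap.inr ℝ P (E d))) z :=
  ((hg.contDiffAt ((isOpen_univ.prod Ω.isOpen).mem_nhds ⟨trivial, hz⟩)).differentiableAt
    (by simp)).hasFDerivAt.comp z (hasFDerivAt_prodMk_right u z)

theorem cont_DPA4 {G : Type} [TopologicalSpace G] {g : P × E d → G}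
    (hg : ContinuousOn g (univ ×ˢ Ω)) (hz : z ∈ Ω) : Continuous fun u => g (u, z) :=
  hg.comp_continuous (continuous_id.prodMk continuous_const) fun _ => ⟨trivial, hz⟩

theorem deriv_DPA4 (hA : IsCompact A) (hw : IntegrableOn w A) {g : P × E d → G}
    (hg : ContDiffOn ℝ ∞ g (univ ×ˢ Ω)) (hz : z ∈ Ω) :
    IntegrableOn (fun u => w u • (fderiv ℝ g (u, z)).comp (ContinuousLinearMap.inr ℝ P (E d))) A ∧
    HasFDerivAt (fun z => ∫ u in A, w u • g (u, z))
      (∫ u in A, w u • (fderiv ℝ g (u, z)).comp (ContinuousLinearMap.inr ℝ P (E d))) z := by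
  have c1 : ContinuousOn (fun p => (fderiv ℝ g p).comp (ContinuousLinearMap.inr ℝ P (E d)))
      (univ ×ˢ Ω) :=
    (hg.continuousOn_fderiv_of_isOpen (isOpen_univ.prod Ω.isOpen) (by simp)).clm_comp
      continuousOn_const
  have i1 := integrable_DPA4 hA hw (cont_DPA4 c1 hz).continuousOn
  have i0 : ∀ x ∈ Ω, IntegrableOn (fun u => w u • g (u, x)) A := fun x hx =>
    integrable_DPA4 hA hw (cont_DPA4 hg.continuousOn hx).continuousOn
  obtain ⟨ε, hε, hs⟩ := nhds_basis_closedBall.mem_iff.1 (Ω.isOpen.mem_nhds hz)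
  obtain ⟨M, hM⟩ := (hA.prod (isCompact_closedBall z ε)).exists_bound_of_continuousOn
    (c1.mono (prod_mono (subset_univ _) hs))
  refine ⟨i1, hasFDerivAt_integral_of_dominated_of_fderiv_le (bound := fun u => ‖w u‖ * M)
    (F' := fun x u => w u • (fderiv ℝ g (u, x)).comp (ContinuousLinearMap.inr ℝ P (E d)))
    (closedBall_mem_nhds z hε) ?_ (i0 z hz) i1.aestronglyMeasurable ?_ (hw.norm.mul_const M) ?_⟩
  · filter_upwards [Ω.isOpen.mem_nhds hz] with x hx using (i0 x hx).aestronglyMeasurable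
  · filter_upwards [ae_restrict_mem hA.measurableSet] with u hu x hx
    rw [norm_smul]
    exact mul_le_mul_of_nonneg_left (hM (u, x) ⟨hu, hx⟩) (norm_nonneg _)
  · exact Eventually.of_forall fun u x hx => (slice_DPA4 hg u (hs hx)).const_smul (w u)

theorem comp_DPA4 (h : IOK Ω A w φ) (f : Fn Ω F) :
    ContDiffOn ℝ ∞ (fun p : P × E d => f.1 (φ p.1 p.2)) (univ ×ˢ Ω) :=
  (Fn.smooth f).comp h.smooth fun p hp => h.maps p.1 hp.2

theorem int_DPA4 (h : IOK Ω A w φ) (f : Fn Ω F) (hz : z ∈ Ω) :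
    IntegrableOn (fun u => w u • f.1 (φ u z)) A :=
  integrable_DPA4 h.compact h.int (cont_DPA4 (comp_DPA4 h f).continuousOn hz).continuousOn

end aux

variable [CompleteSpace F]

theorem IOK.good (h : IOK Ω A w φ) :
    Good Ω fun (f : E d → F) z => ∫ u in A, w u • f (φ u z) :=
  ⟨fun f => smooth_DPA4 h.compact h.int (comp_DPA4 h f), fun f g z hz => by
    simp only [Pi.add_apply, smul_add]
    exact integral_add (int_DPA4 h f hz) (int_DPA4 h g hz), fun t f z _ => by
    simp only [Pi.smul_apply, smul_comm _ t]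
    exact integral_smul t _⟩
theorem IOK.apply (h : IOK Ω A w φ) (f : Fn Ω F) (hz : z ∈ Ω) :
    (intg Ω F A w φ f).1 z = ∫ u in A, w u • f.1 (φ u z) := op_apply h.good f hz
/-- integrability of a continuous family against the weight -/
theorem IOK.integrable (h : IOK Ω A w φ) {g : P → F} (hg : ContinuousOn g A) :
    IntegrableOn (fun u => w u • g u) A := integrable_DPA4 h.compact h.int hg
theorem IOK.cont (h : IOK Ω A w φ) (hz : z ∈ Ω) : Continuous fun u => φ u z :=
  cont_DPA4 h.smooth.continuousOn hz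
theorem IOK.fderiv (h : IOK Ω A w φ) (f : Fn Ω F) (hz : z ∈ Ω) (v : E d) :
    fderiv ℝ (intg Ω F A w φ f).1 z v =
      ∫ u in A, w u • fderiv ℝ f.1 (φ u z) (fderiv ℝ (φ u) z v) := by
  obtain ⟨h1, h2⟩ := deriv_DPA4 h.compact h.int (comp_DPA4 h f) hz
  rw [intg, op_fderiv h.good f hz, h2.fderiv, ContinuousLinearMap.integral_apply h1]
  congr 1
  funext u
  have h3 := (Fn.diff f (h.maps u hz)).hasFDerivAt.comp z
    (slice_DPA4 h.smooth u hz).differentiableAt.hasFDerivAt
  rw [smul_apply, (slice_DPA4 (comp_DPA4 h f) u hz).unique h3]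
  rfl
theorem IOK.comm_cst (h : IOK Ω A w φ) (L : F →L[ℂ] F) : Commute (intg Ω F A w φ) (cst Ω L) :=
  end_ext fun f z hz => by
    simp only [Module.End.mul_apply, cst_val, h.apply _ hz]
    rw [← L.integral_comp_comm (int_DPA4 h f hz)]
    simp only [map_smul]
theorem IOK.comm_mul (h : IOK Ω A w φ) {g : E d → ℂ} (hg : ContDiffOn ℝ ∞ g Ω)
    (h' : ∀ u, ∀ z ∈ Ω, g (φ u z) = g z) : Commute (intg Ω F A w φ) (mul Ω F g) :=
  end_ext fun f z hz => by
    simp only [Module.End.mul_apply, mul_val hg, h.apply _ hz, h' _ z hz, smul_comm _ (g z)]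
    exact integral_smul (g z) _
theorem IOK.comm_cmp (h : IOK Ω A w φ) {ψ : E d → E d} (hψ : ContDiffOn ℝ ∞ ψ Ω)
    (h' : ∀ u, ∀ z ∈ Ω, ψ (φ u z) = φ u (ψ z)) : Commute (intg Ω F A w φ) (cmp Ω F ψ) := by
  by_cases hm : MapsTo ψ Ω Ω
  · refine end_ext fun f z hz => ?_
    simp only [Module.End.mul_apply, h.apply _ hz, cmp_apply hψ hm _ hz, h.apply _ (hm hz),
      fun u => cmp_apply hψ hm f (h.maps u hz), h' _ z hz]
  · rw [cmp_bad hm]
    exact Commute.one_right _
theorem IOK.comm_field (h : IOK Ω A w φ) {X : E d → E d} {B : Module.End ℂ (Fn Ω F)}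
    (hB : ∀ f, ∀ z ∈ Ω, (B f).1 z = _root_.fderiv ℝ f.1 z (X z))
    (h' : ∀ u, ∀ z ∈ Ω, _root_.fderiv ℝ (φ u) z (X z) = X (φ u z)) :
    Commute (intg Ω F A w φ) B :=
  end_ext fun f z hz => by
    simp only [Module.End.mul_apply, h.apply _ hz, hB _ z hz, h.fderiv _ hz,
      fun u => hB f _ (h.maps u hz), h' _ z hz]
theorem IOK.comm_dw (h : IOK Ω A w φ)
    (h' : ∀ u, ∀ z ∈ Ω, ∀ t, _root_.fderiv ℝ (φ u) z (Pi.single i.1 t) = Pi.single i.1 t) :
    Commute (intg Ω F A w φ) (dw Ω F i) :=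
  end_ext fun f z hz => by
    have c1 : Continuous fun u => _root_.fderiv ℝ f.1 (φ u z) :=
      ((Fn.smooth f).continuousOn_fderiv_of_isOpen Ω.isOpen (by simp)).comp_continuous (h.cont hz)
        fun u => h.maps u hz
    have i1 : ∀ v, IntegrableOn (fun u => w u • _root_.fderiv ℝ f.1 (φ u z) v) A := fun v =>
      h.integrable (c1.clm_apply continuous_const).continuousOn
    have i2 : ∀ (t : ℂ) v, IntegrableOn (fun u => t • w u • _root_.fderiv ℝ f.1 (φ u z) v) A :=
      fun t v => (i1 v).smul t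
    simp only [Module.End.mul_apply, h.apply _ hz, dw_apply i _ hz,
      fun u => dw_apply i f (h.maps u hz), wv, h.fderiv _ hz, h' _ z hz]
    rw [← integral_smul, ← integral_add (i1 _) (i2 _ _), ← integral_smul]
    congr 1
    funext u
    rw [smul_comm (w u), smul_add (w u), smul_comm (w u)]
theorem IOK.mem (h : IOK Ω A w φ) {C : Submodule ℂ F} (hC : IsClosed (C : Set F)) (f : Fn Ω F)
    (hf : ∀ u ∈ A, f.1 (φ u z) ∈ C) : (intg Ω F A w φ f).1 z ∈ C := by
  classical
  by_cases hz : z ∈ Ω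
  · have := hC.completeSpace_coe
    let g : P → C := fun u => if hu : u ∈ A then ⟨w u • f.1 (φ u z), C.smul_mem _ (hf u hu)⟩ else 0
    have e : ∫ u in A, w u • f.1 (φ u z) = ∫ u in A, C.subtypeₗᵢ (g u) :=
      setIntegral_congr_fun h.compact.measurableSet fun u hu => by simp [g, hu]
    rw [h.apply f hz, e, LinearIsometry.integral_comp_comm]
    exact Subtype.property _
  · rw [Fn.zero _ hz]
    exact C.zero_mem

end Pool.Agent.PWD.Loc
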