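import Pool.Agent.P.MP_65ad7c_ag.DPA4

/-! Scaling of one coordinate. -/

open Set Filter Topology TopologicalSpace MeasureTheory Metric
open scoped ContDiff ComplexConjugate

noncomputable section
namespace Pool.Agent.PWD.Loc

variable {d : ℕ} {F : Type} [NormedAddCommGroup F] [NormedSpace ℂ F] {Ω : Opens (E d)}
  {z c : E d} {k l : Fin d} {i j : Fin d × Bool}

/-- the inclusion of one coordinate -/
def sg_DPA5 (k : Fin d) : ℂ →L[ℝ] E d := ContinuousLinearMap.single ℝ (fun _ : Fin d => ℂ) k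

theorem sg_apply_DPA5 (k : Fin d) (t : ℂ) : sg_DPA5 k t = Pi.single k t := rfl

/-- scaling of the coordinate `k` about `c k` -/
def sc_DPA5 (c : E d) (k : Fin d) (s : ℝ) (z : E d) : E d :=
  z + (s - 1) • sg_DPA5 k (z k - c k)

theorem sc_eq_DPA5 (c : E d) (k : Fin d) (s : ℝ) (z : E d) :
    sc_DPA5 c k s z = Function.update z k (c k + s * (z k - c k)) := by
  funext j
  by_cases hj : j = k
  · subst hj
    simp [sc_DPA5, sg_apply_DPA5]
    ring
  · simp [sc_DPA5, sg_apply_DPA5, hj]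

theorem sc_k_DPA5 (c : E d) (k : Fin d) (s : ℝ) (z : E d) :
    sc_DPA5 c k s z k - c k = s • (z k - c k) := by
  rw [sc_eq_DPA5]
  simp

theorem sc_one_DPA5 (c : E d) (k : Fin d) (z : E d) : sc_DPA5 c k 1 z = z := by
  simp [sc_DPA5]

theorem sc_zero_DPA5 (c : E d) (k : Fin d) (z : E d) :
    sc_DPA5 c k 0 z = Function.update z k (c k) := by
  rw [sc_eq_DPA5]
  simp

theorem sc_deriv_DPA5 (c : E d) (k : Fin d) (s : ℝ) (z : E d) :
    HasDerivAt (fun s => sc_DPA5 c k s z) (Pi.single k (z k - c k)) s := by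
  have h := (((hasDerivAt_id s).sub_const 1).smul_const (sg_DPA5 k (z k - c k))).const_add z
  rw [one_smul] at h
  exact h

theorem sc_fderiv_DPA5 (c : E d) (k : Fin d) (s : ℝ) (z : E d) :
    fderiv ℝ (sc_DPA5 c k s) z (Pi.single k (z k - c k)) =
      Pi.single k (sc_DPA5 c k s z k - c k) := by
  have h1 : HasFDerivAt (fun z : E d => z k - c k)
      (ContinuousLinearMap.proj k : E d →L[ℝ] ℂ) z :=
    (ContinuousLinearMap.proj k : E d →L[ℝ] ℂ).hasFDerivAt.sub_const (c k)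
  have h2 := (hasFDerivAt_id z).add
    (((sg_DPA5 k).hasFDerivAt.comp z h1).const_smul (s - 1))
  have h3 : fderiv ℝ (sc_DPA5 c k s) z = _ := h2.fderiv
  rw [h3, sc_k_DPA5, ← sg_apply_DPA5, ← sg_apply_DPA5, map_smul]
  simp only [add_apply, ContinuousLinearMap.id_apply,
    smul_apply, ContinuousLinearMap.comp_apply,
    ContinuousLinearMap.proj_apply, sg_apply_DPA5, Pi.single_eq_same]
  rw [sub_smul, one_smul]
  abel

theorem iok_DPA5 (h : ∀ z ∈ Ω, ∀ t, Function.update z k t ∈ Ω) (c : E d) (m : ℕ) :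
    IOK Ω (Icc (0 : ℝ) 1) (fun s => (s : ℂ) ^ m) (sc_DPA5 c k) where
  compact := isCompact_Icc
  int := (by fun_prop : Continuous fun s : ℝ => (s : ℂ) ^ m).integrableOn_Icc
  smooth := by
    refine ContDiff.contDiffOn ?_
    have h1 : ContDiff ℝ ∞ fun p : ℝ × E d => sg_DPA5 k (p.2 k - c k) :=
      (sg_DPA5 k).contDiff.comp
        (((contDiff_apply ℝ ℂ k).comp contDiff_snd).sub contDiff_const)
    exact contDiff_snd.add ((contDiff_fst.sub contDiff_const).smul h1)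
  maps s z hz := by
    rw [sc_eq_DPA5]
    exact h z hz _

theorem f_deriv_DPA5 (h : ∀ z ∈ Ω, ∀ t, Function.update z k t ∈ Ω) (c : E d) (f : Fn Ω F)
    (hz : z ∈ Ω) (s : ℝ) :
    HasDerivAt (fun s => f.1 (sc_DPA5 c k s z))
      (fderiv ℝ f.1 (sc_DPA5 c k s z) (Pi.single k (z k - c k))) s :=
  (Fn.diff f ((iok_DPA5 h c 0).maps s hz)).hasFDerivAt.comp_hasDerivAt s (sc_deriv_DPA5 c k s z)

theorem f_cont_DPA5 (h : ∀ z ∈ Ω, ∀ t, Function.update z k t ∈ Ω) (c : E d) (f : Fn Ω F)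
    (hz : z ∈ Ω) : Continuous fun s => f.1 (sc_DPA5 c k s z) :=
  continuous_iff_continuousAt.2 fun s => (f_deriv_DPA5 h c f hz s).continuousAt

variable [CompleteSpace F]

theorem ftc_DPA5 {g g' : ℝ → F} (hg : ∀ s, HasDerivAt g (g' s) s) (hc : Continuous g') :
    ∫ s in Icc (0 : ℝ) 1, g' s = g 1 - g 0 := by
  rw [integral_Icc_eq_integral_Ioc, ← intervalIntegral.integral_of_le zero_le_one]
  exact intervalIntegral.integral_eq_sub_of_hasDerivAt (fun s _ => hg s)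
    (hc.intervalIntegrable _ _)

theorem left_DPA5 (h : ∀ z ∈ Ω, ∀ t, Function.update z k t ∈ Ω) (c : E d) (m : ℕ) :
    intg Ω F (Icc (0 : ℝ) 1) (fun s => (s : ℂ) ^ m) (sc_DPA5 c k) *
      (eu Ω F c k + ((m + 1 : ℕ) : Module.End ℂ (Fn Ω F))) = 1 := by
  refine end_ext fun f z hz => ?_
  rw [Module.End.mul_apply, (iok_DPA5 h c m).apply _ hz, Module.End.one_apply]
  set u := (eu Ω F c k + ((m + 1 : ℕ) : Module.End ℂ (Fn Ω F))) f with hu
  have hd : ∀ s : ℝ, HasDerivAt (fun s : ℝ => s ^ (m + 1) • f.1 (sc_DPA5 c k s z))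
      ((s : ℂ) ^ m • u.1 (sc_DPA5 c k s z)) s := by
    intro s
    have h1 := (hasDerivAt_pow (m + 1) s).smul (f_deriv_DPA5 h c f hz s)
    refine h1.congr_deriv ?_
    rw [hu, LinearMap.add_apply, Module.End.natCast_apply, Submodule.coe_add, Pi.add_apply,
      eu_apply c k f ((iok_DPA5 h c 0).maps s hz), sc_k_DPA5, ← sg_apply_DPA5, ← sg_apply_DPA5,
      map_smul, map_smul, ← Complex.ofReal_pow, Complex.coe_smul, Submodule.coe_smul_of_tower,
      Pi.smul_apply, ← Nat.cast_smul_eq_nsmul ℝ, smul_add, smul_smul, smul_smul,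
      Nat.add_sub_cancel, pow_succ, mul_comm (s ^ m) ((m + 1 : ℕ) : ℝ)]
  have hc : Continuous fun s : ℝ => (s : ℂ) ^ m • u.1 (sc_DPA5 c k s z) :=
    (by fun_prop : Continuous fun s : ℝ => (s : ℂ) ^ m).smul (f_cont_DPA5 h c u hz)
  rw [ftc_DPA5 hd hc, sc_one_DPA5]
  simp

theorem comm_DPA5 (h : ∀ z ∈ Ω, ∀ t, Function.update z k t ∈ Ω) (c : E d) (m : ℕ) :
    Commute (intg Ω F (Icc (0 : ℝ) 1) (fun s => (s : ℂ) ^ m) (sc_DPA5 c k))
      (eu Ω F c k + ((m + 1 : ℕ) : Module.End ℂ (Fn Ω F))) :=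
  ((iok_DPA5 h c m).comm_field (X := fun z => Pi.single k (z k - c k))
    (fun f _ hz => eu_apply c k f hz) fun s z _ => sc_fderiv_DPA5 c k s z).add_right
    (Nat.commute_cast _ _)

theorem had_DPA5 (h : ∀ z ∈ Ω, ∀ t, Function.update z k t ∈ Ω) (c : E d) :
    1 - evc Ω F c k =
      xc Ω F c (k, false) * intg Ω F (Icc (0 : ℝ) 1) (fun s => (s : ℂ) ^ 0) (sc_DPA5 c k) *
        dw Ω F (k, false) +
      xc Ω F c (k, true) * intg Ω F (Icc (0 : ℝ) 1) (fun s => (s : ℂ) ^ 0) (sc_DPA5 c k) *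
        dw Ω F (k, true) := by
  refine end_ext fun f z hz => ?_
  have hm := (iok_DPA5 h c 0).maps
  have c0 := f_cont_DPA5 h c (dw Ω F (k, false) f) hz
  have c1 := f_cont_DPA5 h c (dw Ω F (k, true) f) hz
  have hd : ∀ s : ℝ, HasDerivAt (fun s : ℝ => f.1 (sc_DPA5 c k s z))
      ((z k - c k) • (dw Ω F (k, false) f).1 (sc_DPA5 c k s z) +
        conj (z k - c k) • (dw Ω F (k, true) f).1 (sc_DPA5 c k s z)) s := by
    intro s
    refine (f_deriv_DPA5 h c f hz s).congr_deriv ?_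
    rw [map_single, dw_apply _ _ (hm s hz), dw_apply _ _ (hm s hz)]
  have d0 : Continuous fun s : ℝ =>
      (z k - c k) • (dw Ω F (k, false) f).1 (sc_DPA5 c k s z) := c0.const_smul _
  have d1 : Continuous fun s : ℝ =>
      conj (z k - c k) • (dw Ω F (k, true) f).1 (sc_DPA5 c k s z) := c1.const_smul _
  have key := ftc_DPA5 hd (d0.add d1)
  rw [integral_add d0.integrableOn_Icc d1.integrableOn_Icc,
    integral_smul, integral_smul, sc_one_DPA5, sc_zero_DPA5] at key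
  rw [LinearMap.sub_apply, Module.End.one_apply, Submodule.coe_sub, Pi.sub_apply,
    evc_apply (fun z hz => h z hz _) f hz, LinearMap.add_apply, Submodule.coe_add, Pi.add_apply,
    Module.End.mul_apply, Module.End.mul_apply, Module.End.mul_apply, Module.End.mul_apply,
    xc_val, xc_val]
  simp only [(iok_DPA5 h c 0).apply _ hz]
  simp only [pow_zero, one_smul, cov_false, cov_true, Pi.sub_apply]
  exact key.symm

theorem stb_DPA5 (h : ∀ z ∈ Ω, ∀ t, Function.update z k t ∈ Ω) (c : E d) (m : ℕ) (r : ℝ) :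
    intg Ω F (Icc (0 : ℝ) 1) (fun s => (s : ℂ) ^ m) (sc_DPA5 c k) ∈
      Stb (Nb Ω ⊥ (ball c r)) := by
  intro f hf z hz
  refine (iok_DPA5 h c m).mem (by simp) f fun s hs => hf _ ?_
  rw [sc_eq_DPA5]
  refine update_mem_ball hz ?_
  have h1 : ‖z k - c k‖ < r := by
    have := norm_le_pi_norm (z - c) k
    rw [mem_ball, dist_eq_norm] at hz
    exact lt_of_le_of_lt this hz
  rw [add_sub_cancel_left, norm_mul, Complex.norm_real, Real.norm_of_nonneg hs.1]
  exact lt_of_le_of_lt (mul_le_of_le_one_left (norm_nonneg _) hs.2) h1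

theorem exists_scal (h : ∀ z ∈ Ω, ∀ t, Function.update z k t ∈ Ω) (c : E d) :
    ∃ I0 I1 : Module.End ℂ (Fn Ω F),
      I0 * (eu Ω F c k + 1) = 1 ∧ (eu Ω F c k + 1) * I0 = 1 ∧
      I1 * (eu Ω F c k + 2) = 1 ∧ (eu Ω F c k + 2) * I1 = 1 ∧
      1 - evc Ω F c k = xc Ω F c (k, false) * I0 * dw Ω F (k, false) +
        xc Ω F c (k, true) * I0 * dw Ω F (k, true) ∧
      ∀ r, I0 ∈ Stb (Nb Ω ⊥ (ball c r)) ∧ I1 ∈ Stb (Nb Ω ⊥ (ball c r)) := by
  have l0 := left_DPA5 (F := F) h c 0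
  have l1 := left_DPA5 (F := F) h c 1
  have r0 := (comm_DPA5 (F := F) h c 0).eq.symm.trans l0
  have r1 := (comm_DPA5 (F := F) h c 1).eq.symm.trans l1
  have e0 : ((0 + 1 : ℕ) : Module.End ℂ (Fn Ω F)) = 1 := by norm_num
  have e1 : ((1 + 1 : ℕ) : Module.End ℂ (Fn Ω F)) = 2 := by norm_num
  rw [e0] at l0 r0
  rw [e1] at l1 r1
  exact ⟨_, _, l0, r0, l1, r1, had_DPA5 h c, fun r => ⟨stb_DPA5 h c 0 r, stb_DPA5 h c 1 r⟩⟩

end Pool.Agent.PWD.Loc
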