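import Pool.Agent.P.MP_65ad7c_ag.DPA4

/-! Rotation of one coordinate. -/

open Set Filter Topology TopologicalSpace MeasureTheory Metric
open scoped ContDiff ComplexConjugate

noncomputable section
namespace Pool.Agent.PWD.Loc

variable {d : ℕ} {F : Type} [NormedAddCommGroup F] [NormedSpace ℂ F] {Ω : Opens (E d)}
  {z c : E d} {k l : Fin d} {i j : Fin d × Bool}

/-- rotation of the coordinate `k` -/
def rot_DPA6 (k : Fin d) (θ : ℝ) (z : E d) : E d :=
  fun j => (if j = k then Complex.exp (θ * Complex.I) else 1) * z j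

theorem rot_smooth_DPA6 (k : Fin d) : ContDiff ℝ ∞ fun p : ℝ × E d => rot_DPA6 k p.1 p.2 := by
  refine contDiff_pi.2 fun j => ?_
  have h2 : ContDiff ℝ ∞ fun p : ℝ × E d => p.2 j := (contDiff_apply ℝ ℂ j).comp contDiff_snd
  unfold rot_DPA6
  split_ifs
  · have h1 : ContDiff ℝ ∞ fun p : ℝ × E d => ((p.1 : ℝ) : ℂ) :=
      Complex.ofRealCLM.contDiff.comp contDiff_fst
    exact (Complex.contDiff_exp.comp (h1.mul contDiff_const)).mul h2
  · exact contDiff_const.mul h2

theorem rot_fderiv_DPA6 (k : Fin d) (θ : ℝ) (z v : E d) :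
    fderiv ℝ (rot_DPA6 k θ) z v = rot_DPA6 k θ v := by
  let L : E d →L[ℝ] E d := ContinuousLinearMap.pi fun j =>
    (if j = k then Complex.exp (θ * Complex.I) else 1) • ContinuousLinearMap.proj j
  have h : rot_DPA6 k θ = L := rfl
  rw [h, L.fderiv]

theorem rot_single_DPA6 (k : Fin d) (θ : ℝ) (z : E d) :
    rot_DPA6 k θ (Pi.single k (Complex.I * z k)) = Pi.single k (Complex.I * rot_DPA6 k θ z k) := by
  funext j
  by_cases h : j = k
  · subst h
    simp only [rot_DPA6, if_true, Pi.single_eq_same]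
    ring
  · simp [rot_DPA6, h]

theorem rot_deriv_DPA6 (k : Fin d) (θ : ℝ) (z : E d) :
    HasDerivAt (fun t => rot_DPA6 k t z) (Pi.single k (Complex.I * rot_DPA6 k θ z k)) θ := by
  refine hasDerivAt_pi.2 fun j => ?_
  by_cases h : j = k
  · subst h
    simp only [rot_DPA6, if_true, Pi.single_eq_same]
    have h1 : HasDerivAt (fun t : ℝ => (t : ℂ) * Complex.I) (1 * Complex.I) θ :=
      Complex.ofRealCLM.hasDerivAt.mul_const Complex.I
    refine (h1.cexp.mul_const (z j)).congr_deriv ?_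
    ring
  · simp only [rot_DPA6, if_neg h, Pi.single_eq_of_ne h]
    exact hasDerivAt_const _ _

theorem rot_zero_DPA6 (k : Fin d) (z : E d) : rot_DPA6 k 0 z = z := by
  funext j
  simp [rot_DPA6]

theorem rot_two_pi_DPA6 (k : Fin d) (z : E d) : rot_DPA6 k (2 * Real.pi) z = z := by
  funext j
  simp [rot_DPA6]

theorem rot_ball_DPA6 (hc : c k = 0) (θ : ℝ) {r : ℝ} (hz : z ∈ ball c r) :
    rot_DPA6 k θ z ∈ ball c r := by
  refine lt_of_le_of_lt ?_ (mem_ball.1 hz)
  refine (dist_pi_le_iff dist_nonneg).2 fun j => le_trans (le_of_eq ?_) (dist_le_pi_dist z c j)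
  by_cases h : j = k
  · subst h
    simp [rot_DPA6, hc]
  · simp [rot_DPA6, h]

variable [CompleteSpace F] {al : Finset (Fin d)}

theorem iok_DPA6 (al : Finset (Fin d)) (k : Fin d) {w : ℝ → ℂ} (hw : Continuous w) :
    IOK (Rg al) (Icc 0 (2 * Real.pi)) w (rot_DPA6 k) where
  compact := isCompact_Icc
  int := hw.integrableOn_Icc
  smooth := (rot_smooth_DPA6 k).contDiffOn
  maps θ z hz := fun j hj => by
    refine mul_ne_zero ?_ (hz j hj)
    split_ifs
    · exact Complex.exp_ne_zero _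
    · exact one_ne_zero

omit [CompleteSpace F] in
theorem th_deriv_DPA6 (hc : c k = 0) (f : Fn (Rg al) F) (hz : z ∈ Rg al) (θ : ℝ) :
    HasDerivAt (fun t => f.1 (rot_DPA6 k t z)) ((th _ F c k f).1 (rot_DPA6 k θ z)) θ := by
  have hm : rot_DPA6 k θ z ∈ Rg al := (iok_DPA6 al k (w := 0) continuous_zero).maps θ hz
  rw [th_apply c k f hm, hc, sub_zero]
  exact (Fn.diff f hm).hasFDerivAt.comp_hasDerivAt θ (rot_deriv_DPA6 k θ z)

omit [CompleteSpace F] in
theorem cont_DPA6 (k : Fin d) (f : Fn (Rg al) F) (hz : z ∈ Rg al) :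
    Continuous fun t => f.1 (rot_DPA6 k t z) :=
  continuous_iff_continuousAt.2 fun θ =>
    ContinuousAt.comp (f := fun t => rot_DPA6 k t z)
      (Fn.cda f ((iok_DPA6 al k (w := 0) continuous_zero).maps θ hz)).continuousAt
      (rot_deriv_DPA6 k θ z).continuousAt

/-- integration by parts along the orbit -/
theorem parts_DPA6 (hc : c k = 0) (f : Fn (Rg al) F) (hz : z ∈ Rg al) {w w' : ℝ → ℂ}
    (hw : ∀ t, HasDerivAt w (w' t) t) (hw' : Continuous w') :
    ∫ t in Icc 0 (2 * Real.pi), w t • (th _ F c k f).1 (rot_DPA6 k t z) =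
      (w (2 * Real.pi) - w 0) • f.1 z - ∫ t in Icc 0 (2 * Real.pi), w' t • f.1 (rot_DPA6 k t z) := by
  have hp : (0 : ℝ) ≤ 2 * Real.pi := by positivity
  have hw0 : Continuous w := continuous_iff_continuousAt.2 fun t => (hw t).continuousAt
  have c1 : Continuous fun t => w t • (th _ F c k f).1 (rot_DPA6 k t z) :=
    hw0.smul (cont_DPA6 k (th _ F c k f) hz)
  have c2 : Continuous fun t => w' t • f.1 (rot_DPA6 k t z) := hw'.smul (cont_DPA6 k f hz)
  have h := intervalIntegral.integral_eq_sub_of_hasDerivAt (a := 0) (b := 2 * Real.pi)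
    (fun t _ => (hw t).smul (th_deriv_DPA6 hc f hz t)) ((c1.add c2).intervalIntegrable _ _)
  rw [intervalIntegral.integral_add (c1.intervalIntegrable _ _) (c2.intervalIntegrable _ _),
    intervalIntegral.integral_of_le hp, intervalIntegral.integral_of_le hp] at h
  rw [integral_Icc_eq_integral_Ioc, integral_Icc_eq_integral_Ioc, eq_sub_iff_add_eq, h]
  simp only [Pi.smul_apply', rot_zero_DPA6, rot_two_pi_DPA6, sub_smul]

theorem exists_rot (hc : c k = 0) : ∃ T Av : Module.End ℂ (Fn (Rg al) F),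
    T * th _ F c k = 1 - Av ∧ th _ F c k * T = 1 - Av ∧ Av * th _ F c k = 0 ∧
    ∀ r, T ∈ Stb (Nb _ ⊥ (ball c r)) := by
  have hpi : (Real.pi : ℂ) ≠ 0 := Complex.ofReal_ne_zero.2 Real.pi_ne_zero
  have hw : ∀ t : ℝ, HasDerivAt (fun t : ℝ => ((t : ℂ) - Real.pi) / (2 * Real.pi))
      (1 / (2 * Real.pi)) t := fun t =>
    (Complex.ofRealCLM.hasDerivAt.sub_const (Real.pi : ℂ)).div_const _
  have hT := iok_DPA6 al k (continuous_iff_continuousAt.2 fun t => (hw t).continuousAt)
  have hA := iok_DPA6 al k (w := fun _ => 1 / (2 * Real.pi)) continuous_const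
  have h1 : intg (Rg al) F (Icc 0 (2 * Real.pi)) (fun t : ℝ => ((t : ℂ) - Real.pi) / (2 * Real.pi))
      (rot_DPA6 k) * th _ F c k =
      1 - intg (Rg al) F (Icc 0 (2 * Real.pi)) (fun _ => 1 / (2 * Real.pi)) (rot_DPA6 k) := by
    refine end_ext fun f z hz => ?_
    rw [Module.End.mul_apply, hT.apply _ hz, parts_DPA6 hc f hz hw continuous_const,
      LinearMap.sub_apply, Submodule.coe_sub, Pi.sub_apply, hA.apply _ hz, Module.End.one_apply]
    have e : (((2 * Real.pi : ℝ) : ℂ) - Real.pi) / (2 * Real.pi) -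
        (((0 : ℝ) : ℂ) - Real.pi) / (2 * Real.pi) = 1 := by
      push_cast
      field_simp
      ring
    rw [e, one_smul]
  refine ⟨_, _, h1, ?_, ?_, fun r f hf z hz => ?_⟩
  · rw [← h1]
    refine (hT.comm_field (X := fun z => Pi.single k (Complex.I * z k)) (fun f z hz => ?_)
      fun u z _ => ?_).eq.symm
    · rw [th_apply c k f hz, hc, sub_zero]
    · rw [rot_fderiv_DPA6, rot_single_DPA6]
  · refine end_ext fun f z hz => ?_
    rw [Module.End.mul_apply, hA.apply _ hz,
      parts_DPA6 hc f hz (fun t => hasDerivAt_const t _) continuous_const]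
    simp
  · exact hT.mem (by simp) f fun u _ => hf _ (rot_ball_DPA6 hc u hz)

end Pool.Agent.PWD.Loc
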