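import Pool.Agent.P.MP_65ad7c_ag.DPA4

/-! Integration along rays in the punctured plane. -/

open Set Filter Topology TopologicalSpace MeasureTheory Metric
open scoped ContDiff ComplexConjugate

noncomputable section
namespace Pool.Agent.PWD.Loc

variable {d : ℕ} {F : Type} [NormedAddCommGroup F] [NormedSpace ℂ F] {Ω : Opens (E d)}
  {z c : E d} {k l : Fin d} {i j : Fin d × Bool}

/-- the radial flow -/
def fl_DPA7 (k : Fin d) (t : ℝ) (z : E d) : E d :=
  Function.update z k (((Real.exp t : ℝ) : ℂ) * z k)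

/-- the logarithmic radius -/
def lg_DPA7 (k : Fin d) (ρ : ℝ) (z : E d) : ℝ := Real.log (‖z k‖ / ρ)

theorem fl_self_DPA7 (t : ℝ) (z : E d) : fl_DPA7 k t z k = ((Real.exp t : ℝ) : ℂ) * z k :=
  Function.update_self _ _ _

theorem fl_ne_DPA7 (h : l ≠ k) (t : ℝ) (z : E d) : fl_DPA7 k t z l = z l :=
  Function.update_of_ne h _ _

theorem fl_zero_DPA7 (z : E d) : fl_DPA7 k 0 z = z := by
  simp [fl_DPA7]

theorem fl_fl_DPA7 (s t : ℝ) (z : E d) : fl_DPA7 k s (fl_DPA7 k t z) = fl_DPA7 k (s + t) z := by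
  funext l
  by_cases h : l = k
  · subst h
    rw [fl_self_DPA7, fl_self_DPA7, fl_self_DPA7, Real.exp_add]
    push_cast
    ring
  · rw [fl_ne_DPA7 h, fl_ne_DPA7 h, fl_ne_DPA7 h]

theorem fl_norm_DPA7 (t : ℝ) (z : E d) : ‖fl_DPA7 k t z k‖ = Real.exp t * ‖z k‖ := by
  rw [fl_self_DPA7, norm_mul, Complex.norm_real, Real.norm_of_nonneg (Real.exp_pos t).le]

theorem lg_fl_DPA7 {ρ : ℝ} (hρ : 0 < ρ) (hz : z k ≠ 0) (t : ℝ) :
    lg_DPA7 k ρ (fl_DPA7 k t z) = t + lg_DPA7 k ρ z := by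
  have h0 : 0 < ‖z k‖ := norm_pos_iff.2 hz
  rw [lg_DPA7, lg_DPA7, fl_norm_DPA7, mul_div_assoc,
    Real.log_mul (Real.exp_pos t).ne' (by positivity), Real.log_exp]

theorem fl_smooth_DPA7 (k : Fin d) : ContDiff ℝ ∞ fun p : ℝ × E d => fl_DPA7 k p.1 p.2 := by
  refine contDiff_pi.2 fun l => ?_
  by_cases h : l = k
  · subst h
    simp only [fl_self_DPA7]
    exact (Complex.ofRealCLM.contDiff.comp (Real.contDiff_exp.comp contDiff_fst)).mul
      ((contDiff_apply ℝ ℂ l).comp contDiff_snd)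
  · simp only [fl_ne_DPA7 h]
    exact (contDiff_apply ℝ ℂ l).comp contDiff_snd

theorem upd_deriv_DPA7 (z : E d) {a : ℝ → ℂ} {a' : ℂ} {t : ℝ} (h : HasDerivAt a a' t) :
    HasDerivAt (fun τ => Function.update z k (a τ)) (Pi.single k a' : E d) t := by
  refine hasDerivAt_pi.2 fun l => ?_
  by_cases hl : l = k
  · subst hl
    simpa using h
  · simp only [Function.update_of_ne hl, Pi.single_eq_of_ne hl]
    exact hasDerivAt_const _ _

theorem fl_deriv_DPA7 (z : E d) (t : ℝ) :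
    HasDerivAt (fun τ => fl_DPA7 k τ z) (Pi.single k (fl_DPA7 k t z k) : E d) t := by
  rw [fl_self_DPA7]
  exact upd_deriv_DPA7 z ((Real.hasDerivAt_exp t).ofReal_comp.mul_const (z k))

theorem curve_DPA7 {G : Type} [NormedAddCommGroup G] [NormedSpace ℝ G] {ψ : E d → G}
    (hψ : DifferentiableAt ℝ ψ z) {γ : ℝ → E d} {v : E d} {v' : G} (h0 : γ 0 = z)
    (hγ : HasDerivAt γ v 0) (h : HasDerivAt (fun τ => ψ (γ τ)) v' 0) : fderiv ℝ ψ z v = v' := by
  have h1 : HasFDerivAt ψ (fderiv ℝ ψ z) (γ 0) := by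
    rw [h0]
    exact hψ.hasFDerivAt
  exact (h1.comp_hasDerivAt 0 hγ).unique h

variable {al : Finset (Fin d)}

theorem fl_mem_DPA7 (hk : k ∈ al) (hz : z ∈ Rg al) (t : ℝ) : fl_DPA7 k t z ∈ Rg al :=
  Rg_update_ne hz (mul_ne_zero (by exact_mod_cast (Real.exp_pos t).ne') (mem_Rg.1 hz k hk))

theorem lg_smooth_DPA7 (hk : k ∈ al) {ρ : ℝ} (hρ : 0 < ρ) :
    ContDiffOn ℝ ∞ (lg_DPA7 k ρ) (Rg al) := fun z hz => by
  have h0 : z k ≠ 0 := mem_Rg.1 hz k hk
  have h1 : 0 < ‖z k‖ := norm_pos_iff.2 h0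
  have h2 : ContDiffAt ℝ ∞ (fun y : E d => ‖y k‖) z :=
    ContDiffAt.norm ℂ (contDiff_apply ℝ ℂ k).contDiffAt h0
  exact ((h2.div_const ρ).log (by positivity)).contDiffWithinAt

theorem iok_DPA7 (hk : k ∈ al) {ρ : ℝ} (hρ : 0 < ρ) :
    IOK (Rg al) (Icc (0 : ℝ) 1) (fun _ => 1)
      (fun u z => fl_DPA7 k (0 - lg_DPA7 k ρ z * u) z) where
  compact := isCompact_Icc
  int := continuous_const.integrableOn_Icc
  smooth := by
    have h1 : ContDiffOn ℝ ∞ (fun p : ℝ × E d => lg_DPA7 k ρ p.2) (univ ×ˢ (Rg al : Set (E d))) :=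
      (lg_smooth_DPA7 hk hρ).comp contDiff_snd.contDiffOn fun p hp => hp.2
    exact (fl_smooth_DPA7 k).comp_contDiffOn
      ((contDiffOn_const.sub (h1.mul contDiff_fst.contDiffOn)).prodMk contDiff_snd.contDiffOn)
  maps := fun _ _ hz => fl_mem_DPA7 hk hz _

theorem ret_smooth_DPA7 (hk : k ∈ al) {ρ : ℝ} (hρ : 0 < ρ) :
    ContDiffOn ℝ ∞ (fun z => fl_DPA7 k (-lg_DPA7 k ρ z) z) (Rg al) :=
  (fl_smooth_DPA7 k).comp_contDiffOn ((lg_smooth_DPA7 hk hρ).neg.prodMk contDiffOn_id)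

theorem orbit_deriv_DPA7 (hk : k ∈ al) (hc : c k = 0) (f : Fn (Rg al) F) (hz : z ∈ Rg al)
    (t : ℝ) :
    HasDerivAt (fun τ => f.1 (fl_DPA7 k τ z)) ((eu _ F c k f).1 (fl_DPA7 k t z)) t := by
  rw [eu_apply c k f (fl_mem_DPA7 hk hz t), hc, sub_zero]
  exact (Fn.diff f (fl_mem_DPA7 hk hz t)).hasFDerivAt.comp_hasDerivAt t (fl_deriv_DPA7 z t)

theorem orbit_cont_DPA7 (hk : k ∈ al) (f : Fn (Rg al) F) (hz : z ∈ Rg al) :
    Continuous fun τ => f.1 (fl_DPA7 k τ z) :=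
  continuous_iff_continuousAt.2 fun t =>
    (orbit_deriv_DPA7 (c := 0) hk rfl f hz t).continuousAt

variable [CompleteSpace F]

/-- the integral along the ray -/
def ray_DPA7 (al : Finset (Fin d)) (F : Type) [NormedAddCommGroup F] [NormedSpace ℂ F]
    (k : Fin d) (ρ : ℝ) : Module.End ℂ (Fn (Rg al) F) :=
  mul _ F (fun z => ((lg_DPA7 k ρ z : ℝ) : ℂ)) *
    intg _ F (Icc (0 : ℝ) 1) (fun _ => 1) (fun u z => fl_DPA7 k (0 - lg_DPA7 k ρ z * u) z)

theorem ray_apply_DPA7 (hk : k ∈ al) {ρ : ℝ} (hρ : 0 < ρ) (f : Fn (Rg al) F) (hz : z ∈ Rg al) :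
    (ray_DPA7 al F k ρ f).1 z = ∫ t in (-lg_DPA7 k ρ z)..0, f.1 (fl_DPA7 k t z) := by
  have hg : ContDiffOn ℝ ∞ (fun z => ((lg_DPA7 k ρ z : ℝ) : ℂ)) (Rg al) :=
    Complex.ofRealCLM.contDiff.comp_contDiffOn (lg_smooth_DPA7 hk hρ)
  rw [ray_DPA7, Module.End.mul_apply, mul_val hg]
  beta_reduce
  rw [(iok_DPA7 hk hρ).apply f hz]
  simp only [one_smul]
  rw [integral_Icc_eq_integral_Ioc, ← intervalIntegral.integral_of_le zero_le_one,
    Complex.coe_smul,
    intervalIntegral.smul_integral_comp_sub_mul (fun t => f.1 (fl_DPA7 k t z))]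
  simp

theorem ray_fl_DPA7 (hk : k ∈ al) {ρ : ℝ} (hρ : 0 < ρ) (f : Fn (Rg al) F) (hz : z ∈ Rg al)
    (τ : ℝ) : (ray_DPA7 al F k ρ f).1 (fl_DPA7 k τ z) =
      ∫ t in (-lg_DPA7 k ρ z)..τ, f.1 (fl_DPA7 k t z) := by
  rw [ray_apply_DPA7 hk hρ f (fl_mem_DPA7 hk hz τ), lg_fl_DPA7 hρ (mem_Rg.1 hz k hk)]
  simp only [fl_fl_DPA7]
  rw [intervalIntegral.integral_comp_add_right (fun t => f.1 (fl_DPA7 k t z))]
  congr 1 <;> ring

theorem exists_ray (hk : k ∈ al) (hc : c k = 0) {r : ℝ} (hr : 0 < r) :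
    ∃ S C : Module.End ℂ (Fn (Rg al) F),
      S * eu _ F c k = 1 - C ∧ eu _ F c k * S = 1 ∧ (∀ L, Commute C (cst _ L)) ∧
      (∀ i : Fin d × Bool, i.1 ≠ k → Commute C (xc _ F c i) ∧ Commute C (dw _ F i)) ∧
      (∀ l, l ≠ k → Commute C (evc _ F c l)) ∧ Commute C (th _ F c k) ∧
      S ∈ Stb (Nb _ ⊥ (ball c r)) := by
  have hρ : 0 < r / 2 := by positivity
  have hψ := ret_smooth_DPA7 hk hρ
  have hm : MapsTo (fun z => fl_DPA7 k (-lg_DPA7 k (r / 2) z) z) (Rg al) (Rg al) :=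
    fun z hz => fl_mem_DPA7 hk hz _
  have hd : ∀ z ∈ Rg al, DifferentiableAt ℝ (fun z => fl_DPA7 k (-lg_DPA7 k (r / 2) z) z) z :=
    fun z hz => (hψ.contDiffAt ((Rg al).isOpen.mem_nhds hz)).differentiableAt (by simp)
  refine ⟨ray_DPA7 al F k (r / 2), cmp _ F fun z => fl_DPA7 k (-lg_DPA7 k (r / 2) z) z,
    ?_, ?_, fun L => cst_comm_cmp L _, fun i hi => ⟨?_, ?_⟩, fun l hl => ?_, ?_, ?_⟩
  · refine end_ext fun f z hz => ?_
    rw [Module.End.mul_apply, ray_apply_DPA7 hk hρ _ hz,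
      intervalIntegral.integral_eq_sub_of_hasDerivAt
        (fun t _ => orbit_deriv_DPA7 hk hc f hz t)
        ((orbit_cont_DPA7 hk _ hz).intervalIntegrable _ _), fl_zero_DPA7,
      LinearMap.sub_apply, Submodule.coe_sub, Pi.sub_apply, cmp_apply hψ hm f hz]
    rfl
  · refine end_ext fun f z hz => ?_
    have h1 := orbit_deriv_DPA7 hk hc (ray_DPA7 al F k (r / 2) f) hz 0
    simp only [ray_fl_DPA7 hk hρ f hz] at h1
    have h2 := intervalIntegral.integral_hasDerivAt_right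
      ((orbit_cont_DPA7 hk f hz).intervalIntegrable (-lg_DPA7 k (r / 2) z) 0)
      ((orbit_cont_DPA7 hk f hz).stronglyMeasurableAtFilter _ _)
      (orbit_cont_DPA7 hk f hz).continuousAt
    have h3 := h1.unique h2
    rw [fl_zero_DPA7] at h3
    exact h3
  · refine cmp_comm_mul hψ ?_ fun z _ => ?_
    · exact ((cov i).contDiff.comp (contDiff_id.sub contDiff_const)).contDiffOn
    · obtain ⟨l, b⟩ := i
      cases b
      · rw [cov_false, cov_false, Pi.sub_apply, Pi.sub_apply, fl_ne_DPA7 hi]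
      · rw [cov_true, cov_true, Pi.sub_apply, Pi.sub_apply, fl_ne_DPA7 hi]
  · refine cmp_comm_dw hψ fun z hz t => ?_
    have ha : HasDerivAt (fun τ : ℝ => z i.1 + (τ : ℂ) * t) t 0 := by
      simpa using ((hasDerivAt_id (0 : ℝ)).ofReal_comp.mul_const t).const_add (z i.1)
    refine curve_DPA7 (hd z hz) (γ := fun τ : ℝ => Function.update z i.1 (z i.1 + (τ : ℂ) * t))
      (by simp) (upd_deriv_DPA7 z ha) ?_
    refine (upd_deriv_DPA7 (k := i.1) (fl_DPA7 k (-lg_DPA7 k (r / 2) z) z) ha).congr_of_eventuallyEq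
      (Eventually.of_forall fun τ => ?_)
    simp only [fl_DPA7, lg_DPA7, Function.update_of_ne (Ne.symm hi)]
    exact Function.update_comm hi _ _ _
  · refine cmp_comm_cmp hψ (update_contDiff l (c l)).contDiffOn fun z _ => ?_
    simp only [fl_DPA7, lg_DPA7, Function.update_of_ne (Ne.symm hl)]
    exact Function.update_comm hl _ _ _
  · refine cmp_comm_field hψ (X := fun z => Pi.single k (Complex.I * (z k - c k)))
      (fun f z hz => th_apply c k f hz) fun z hz => ?_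
    have ha : HasDerivAt (fun τ : ℝ => Complex.exp ((τ : ℂ) * Complex.I) * z k)
        (Complex.I * z k) 0 := by
      simpa using (((hasDerivAt_id (0 : ℝ)).ofReal_comp.mul_const Complex.I).cexp).mul_const (z k)
    simp only [hc, sub_zero]
    refine curve_DPA7 (hd z hz)
      (γ := fun τ : ℝ => Function.update z k (Complex.exp ((τ : ℂ) * Complex.I) * z k))
      (by simp) (upd_deriv_DPA7 z ha) ?_
    have hb := upd_deriv_DPA7 (k := k) z
      (ha.const_mul ((Real.exp (-lg_DPA7 k (r / 2) z) : ℝ) : ℂ))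
    rw [fl_self_DPA7, mul_left_comm]
    refine hb.congr_of_eventuallyEq (Eventually.of_forall fun τ => ?_)
    simp only [fl_DPA7, lg_DPA7, Function.update_self, Function.update_idem, norm_mul,
      Complex.norm_exp_ofReal_mul_I, one_mul]
  · intro f hf z hzb
    by_cases hz : z ∈ Rg al
    · rw [ray_apply_DPA7 hk hρ f hz, Submodule.mem_bot]
      have h0 : 0 < ‖z k‖ := norm_pos_iff.2 (mem_Rg.1 hz k hk)
      have h1 : ‖z k‖ < r := by
        have h2 : dist (z k) (c k) < r := (dist_le_pi_dist z c k).trans_lt (mem_ball.1 hzb)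
        rwa [hc, dist_zero_right] at h2
      rw [intervalIntegral.integral_congr (g := fun _ => (0 : F)) fun t ht => ?_]
      · simp
      · refine (Submodule.mem_bot ℂ).1 (hf _ (update_mem_ball hzb ?_))
        rw [hc, sub_zero, ← fl_self_DPA7, fl_norm_DPA7]
        rcases mem_uIcc.1 ht with h | h
        · have h3 : Real.exp t ≤ 1 := Real.exp_le_one_iff.2 h.2
          nlinarith
        · have h3 : Real.exp t ≤ Real.exp (-lg_DPA7 k (r / 2) z) := Real.exp_le_exp.2 h.2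
          rw [lg_DPA7, Real.exp_neg, Real.exp_log (by positivity), inv_div,
            le_div_iff₀ h0] at h3
          linarith
    · rw [Fn.zero _ hz]
      exact Submodule.zero_mem _

end Pool.Agent.PWD.Loc
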