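import Pool.Agent.P.MP_65ad7c_ag.DPA4
import Pool.Agent.Lib.Mergelyan.Pompeiu

/-! Solution of the Cauchy-Riemann equation in one variable. -/

open Set Filter Topology TopologicalSpace MeasureTheory Metric
open scoped ContDiff ComplexConjugate

noncomputable section
namespace Pool.Agent.PWD.Loc

variable {d : ℕ} {F : Type} [NormedAddCommGroup F] [NormedSpace ℂ F] {Ω : Opens (E d)}
  {z c : E d} {k l : Fin d} {i j : Fin d × Bool}

/-- a fixed bump function -/
def chi_DPA8 : ContDiffBump (0 : ℂ) := ⟨1, 2, one_pos, one_lt_two⟩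

/-- the rescaled bump function -/
def cut_DPA8 (a : ℂ) (ρ : ℝ) (t : ℂ) : ℂ := (chi_DPA8 (ρ⁻¹ • (t - a)) : ℝ)

theorem cut_smooth_DPA8 (a : ℂ) (ρ : ℝ) : ContDiff ℝ ∞ (cut_DPA8 a ρ) :=
  Complex.ofRealCLM.contDiff.comp
    (chi_DPA8.contDiff.comp ((contDiff_id.sub contDiff_const).const_smul ρ⁻¹))

theorem cut_one_DPA8 {a t : ℂ} {ρ : ℝ} (hρ : 0 < ρ) (h : ‖t - a‖ ≤ ρ) : cut_DPA8 a ρ t = 1 := by
  rw [cut_DPA8, chi_DPA8.one_of_mem_closedBall, Complex.ofReal_one]
  rw [mem_closedBall_zero_iff, norm_smul, norm_inv, Real.norm_of_nonneg hρ.le,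
    inv_mul_le_iff₀ hρ]
  simpa [chi_DPA8] using h

theorem cut_zero_DPA8 {a t : ℂ} {ρ : ℝ} (hρ : 0 < ρ) (h : 2 * ρ ≤ ‖t - a‖) :
    cut_DPA8 a ρ t = 0 := by
  rw [cut_DPA8, chi_DPA8.zero_of_le_dist, Complex.ofReal_zero]
  rw [dist_zero_right, norm_smul, norm_inv, Real.norm_of_nonneg hρ.le, le_inv_mul_iff₀ hρ]
  simpa [chi_DPA8, mul_comm] using h

theorem g_smooth_DPA8 (a : ℂ) (ρ : ℝ) (k : Fin d) :
    ContDiff ℝ ∞ fun z : E d => cut_DPA8 a ρ (z k) :=
  (cut_smooth_DPA8 a ρ).comp (contDiff_apply ℝ ℂ k)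

theorem g_fderiv_DPA8 (a : ℂ) (ρ : ℝ) (h : i.1 ≠ k) (z : E d) :
    wv i (fderiv ℝ (fun z : E d => cut_DPA8 a ρ (z k)) z) = 0 := by
  rw [← wv_zero (G := ℂ) i]
  refine wv_congr fun t => ?_
  have h1 : HasFDerivAt (fun z : E d => z k) (ContinuousLinearMap.proj k : E d →L[ℝ] ℂ) z :=
    (ContinuousLinearMap.proj k : E d →L[ℝ] ℂ).hasFDerivAt
  have h2 := ((cut_smooth_DPA8 a ρ).differentiable (by simp) (z k)).hasFDerivAt.comp z h1
  have h3 : fderiv ℝ (fun z : E d => cut_DPA8 a ρ (z k)) z = _ := h2.fderiv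
  rw [h3]
  simp [Pi.single_eq_of_ne h.symm]

theorem iok_DPA8 (k : Fin d) : IOK (⊤ : Opens (E d)) (closedBall (0 : ℂ) 1)
    (fun w => ((Real.pi : ℂ) * w)⁻¹) (fun w z => z - Pi.single k w) where
  compact := isCompact_closedBall _ _
  int := by
    have h : IntegrableOn (fun w : ℂ => w⁻¹) (ball 0 2) := by
      refine integrableOn_ball_of_norm_le_rpow (C := 1) (α := 1) (by simp) (by simp) ?_ ?_
      · exact ae_of_all _ fun w => by simp [Real.rpow_neg_one]
      · exact measurable_inv.aestronglyMeasurable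
    simp only [mul_inv]
    exact (h.mono_set (closedBall_subset_ball one_lt_two)).const_mul _
  smooth := (contDiff_snd.sub
    ((ContinuousLinearMap.single ℝ (fun _ : Fin d => ℂ) k).contDiff.comp contDiff_fst)).contDiffOn
  maps _ _ _ := trivial

variable [CompleteSpace F]

theorem key_DPA8 (G : Fn (⊤ : Opens (E d)) F) (z : E d) (k : Fin d)
    (h0 : ∀ w : ℂ, 3 / 4 ≤ ‖w‖ → G.1 (z - Pi.single k w) = 0) :
    ∫ w in closedBall (0 : ℂ) 1, ((Real.pi : ℂ) * w)⁻¹ •
      (dw ⊤ F (k, true) G).1 (z - Pi.single k w) = G.1 z := by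
  have hs : ∀ H : Fn (⊤ : Opens (E d)) F, ContDiff ℝ ∞ H.1 := fun H =>
    contDiff_iff_contDiffAt.2 fun y => Fn.cda H trivial
  let σ : ℂ →L[ℝ] E d := ContinuousLinearMap.single ℝ (fun _ : Fin d => ℂ) k
  have hφ : ContDiff ℝ ∞ fun w : ℂ => z - Pi.single k w := contDiff_const.sub σ.contDiff
  rw [SeparatingDual.eq_iff_forall_dual_eq (R := ℂ)]
  intro ℓ
  have hc : Continuous fun w : ℂ => (dw ⊤ F (k, true) G).1 (z - Pi.single k w) :=
    (hs _).continuous.comp hφ.continuous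
  rw [← ContinuousLinearMap.integral_comp_comm _ ((iok_DPA8 k).integrable hc.continuousOn)]
  let h : ℂ → ℂ := fun w => ℓ (G.1 (z - Pi.single k w))
  have h1 : ContDiff ℝ 1 h :=
    ((ℓ.restrictScalars ℝ).contDiff.comp ((hs G).comp hφ)).of_le (by exact_mod_cast le_top)
  have h2 : HasCompactSupport h := by
    refine HasCompactSupport.intro (isCompact_closedBall (0 : ℂ) 1) fun w hw => ?_
    rw [mem_closedBall_zero_iff, not_le] at hw
    simp only [h, h0 w (by linarith), map_zero]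
  have h3 : ∀ w, Pool.Agent.Lib.Mergelyan.dbar h w =
      -ℓ ((dw ⊤ F (k, true) G).1 (z - Pi.single k w)) := by
    intro w
    have a1 : HasFDerivAt (fun w : ℂ => z - Pi.single k w) (-σ) w := σ.hasFDerivAt.const_sub z
    have a2 := (ℓ.restrictScalars ℝ).hasFDerivAt.comp w
      ((Fn.diff G (z := z - Pi.single k w) trivial).hasFDerivAt.comp w a1)
    have a3 : fderiv ℝ h w = _ := a2.fderiv
    have a4 : ∀ y : E d, (dw ⊤ F (k, true) G).1 y = wv (k, true) (fderiv ℝ G.1 y) :=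
      fun y => dw_apply _ G trivial
    rw [a4, Pool.Agent.Lib.Mergelyan.dbar, a3]
    simp [wv, σ]
    ring
  have h4 := Pool.Agent.Lib.Mergelyan.pompeiu_zero h1 h2
  have hpi : (Real.pi : ℂ) ≠ 0 := by exact_mod_cast Real.pi_ne_zero
  have h5 : ∀ w, ℓ (((Real.pi : ℂ) * w)⁻¹ • (dw ⊤ F (k, true) G).1 (z - Pi.single k w)) =
      -(Real.pi : ℂ)⁻¹ * (Pool.Agent.Lib.Mergelyan.dbar h w * w⁻¹) := by
    intro w
    rw [h3, map_smul, smul_eq_mul, mul_inv]
    ring
  simp only [h5]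
  rw [setIntegral_eq_integral_of_forall_compl_eq_zero, integral_const_mul, h4]
  · simp only [h, Pi.single_zero, sub_zero]
    field_simp
  · intro w hw
    rw [mem_closedBall_zero_iff, not_le] at hw
    have : h =ᶠ[𝓝 w] fun _ => 0 := by
      have ho : IsOpen {u : ℂ | 3 / 4 < ‖u‖} := isOpen_lt continuous_const continuous_norm
      filter_upwards [ho.mem_nhds (show 3 / 4 < ‖w‖ by linarith)] with u hu
      simp only [h, h0 u (le_of_lt hu), map_zero]
    rw [Pool.Agent.Lib.Mergelyan.dbar_eq_zero_of_eventuallyEq this, zero_mul, mul_zero]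

theorem exists_db (c : E d) (k : Fin d) : ∃ S : ℝ → Module.End ℂ (Fn (⊤ : Opens (E d)) F),
    (∀ ρ L, Commute (S ρ) (cst _ L)) ∧
    (∀ ρ (i : Fin d × Bool), i.1 ≠ k → Commute (S ρ) (xc _ F c i) ∧ Commute (S ρ) (dw _ F i)) ∧
    (∀ ρ l, l ≠ k → Commute (S ρ) (evc _ F c l)) ∧
    (∀ f, ∀ᶠ ρ in 𝓝[>] (0 : ℝ), dw _ F (k, true) (S ρ f) - f ∈ Ng _ ⊥ c) ∧
    ∀ C : Submodule ℂ F, IsClosed (C : Set F) → Stab S (Ng _ C c) (Ng _ C c) := by
  have hI := iok_DPA8 k
  have hg := fun ρ => (g_smooth_DPA8 (c k) ρ k).contDiffOn (s := ((⊤ : Opens (E d)) : Set (E d)))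
  have hdw : ∀ i : Fin d × Bool, Commute (intg ⊤ F (closedBall (0 : ℂ) 1)
      (fun w => ((Real.pi : ℂ) * w)⁻¹) (fun w z => z - Pi.single k w)) (dw ⊤ F i) := fun i =>
    hI.comm_dw fun u z _ t => by
      rw [fderiv_sub_const]
      simp
  refine ⟨fun ρ => intg ⊤ F (closedBall (0 : ℂ) 1) (fun w => ((Real.pi : ℂ) * w)⁻¹)
    (fun w z => z - Pi.single k w) * mul ⊤ F fun z => cut_DPA8 (c k) ρ (z k), fun ρ L => ?_,
    fun ρ i hi => ⟨?_, ?_⟩, fun ρ l hl => ?_, fun f => ?_, fun C hC f hf => ?_⟩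
  · exact (hI.comm_cst L).mul_left (cst_comm_mul L _)
  · refine Commute.mul_left (hI.comm_mul ?_ fun u z _ => ?_) (mul_comm_mul _ _)
    · exact ((cov i).contDiff.comp (contDiff_id.sub contDiff_const)).contDiffOn
    · rw [sub_right_comm, map_sub (cov i) (z - c), cov_single_ne hi, sub_zero]
  · exact (hdw i).mul_left (mul_comm_dw (hg ρ) fun z _ => g_fderiv_DPA8 _ _ hi z)
  · refine Commute.mul_left (hI.comm_cmp (update_contDiff l (c l)).contDiffOn fun u z _ => ?_)
      (cmp_comm_mul (update_contDiff l (c l)).contDiffOn (hg ρ) fun z _ => ?_).symm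
    · funext m
      by_cases hm : m = l
      · subst hm
        simp [Pi.single_eq_of_ne hl]
      · simp [Function.update_of_ne hm]
    · rw [Function.update_of_ne hl.symm]
  · filter_upwards [Ioo_mem_nhdsGT (show (0 : ℝ) < 1 / 4 by norm_num)] with ρ hρ
    rw [mem_Ng]
    filter_upwards [ball_mem_nhds c hρ.1] with z hz
    have hzk : ‖z k - c k‖ ≤ ρ :=
      (norm_le_pi_norm (z - c) k).trans (mem_ball_iff_norm.1 hz).le
    rw [Submodule.mem_bot, Submodule.coe_sub, Pi.sub_apply, sub_eq_zero, Module.End.mul_apply,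
      ← Module.End.mul_apply, ← (hdw (k, true)).eq, Module.End.mul_apply, hI.apply _ trivial,
      key_DPA8, mul_val (hg ρ)]
    · simp only [cut_one_DPA8 hρ.1 hzk, one_smul]
    · intro w hw
      rw [mul_val (hg ρ)]
      simp only
      rw [cut_zero_DPA8 hρ.1, zero_smul]
      have h1 := norm_sub_norm_le w (z k - c k)
      have h2 : (z - Pi.single k w : E d) k - c k = -(w - (z k - c k)) := by
        simp only [Pi.sub_apply, Pi.single_eq_same]; ring
      rw [h2, norm_neg]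
      linarith [hρ.2]
  · obtain ⟨r, hr, hf⟩ := mem_Ng_iff.1 hf
    filter_upwards [Ioo_mem_nhdsGT (half_pos hr)] with ρ hρ
    refine mem_Ng_iff.2 ⟨r, hr, fun z hz => ?_⟩
    rw [Module.End.mul_apply]
    refine hI.mem hC _ fun u _ => ?_
    rw [mul_val (hg ρ)]
    simp only
    by_cases h : 2 * ρ ≤ ‖(z - Pi.single k u : E d) k - c k‖
    · rw [cut_zero_DPA8 hρ.1 h, zero_smul]
      exact C.zero_mem
    · refine C.smul_mem _ (hf _ ?_)
      have e : (z - Pi.single k u : E d) = Function.update z k ((z - Pi.single k u : E d) k) := by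
        funext m
        by_cases hm : m = k
        · subst hm
          simp
        · simp [Function.update_of_ne hm, Pi.single_eq_of_ne hm]
      rw [e]
      exact update_mem_ball hz (by linarith [not_le.1 h, hρ.2])

end Pool.Agent.PWD.Loc
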