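import Pool.Agent.P.MP_65ad7c_ag.DPG2

/-! The exterior derivative in a logarithmic frame. -/

noncomputable section
namespace Pool.Agent.PWD.Loc

variable {K R : Type} [DecidableEq K] [Ring R] [Algebra ℂ R]

theorem half_DPG3 {y : R} (h : y + y = 0) : y = 0 := by
  have e : y = (2 : ℂ)⁻¹ • (y + y) := by rw [← two_smul ℂ y, smul_smul]; simp
  rw [e, h, smul_zero]

omit [Algebra ℂ R] in
theorem eux_DPG3 {x D x' D' : R} (h1 : D * x - x * D = 1) (h2 : D' * x - x * D' = 0)
    (h3 : Commute x x') : (x * D + x' * D') * x = x * (x * D + x' * D' + 1) := by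
  linear_combination (norm := noncomm_ring) x * h1 + x' * h2 - h3.eq * D'

omit [Algebra ℂ R] in
theorem deu_DPG3 {x D x' D' : R} (h1 : D * x - x * D = 1) (h2 : D * x' - x' * D = 0)
    (h3 : Commute D D') : D * (x * D + x' * D') = (x * D + x' * D' + 1) * D := by
  linear_combination (norm := noncomm_ring) h1 * D + h2 * D' + x' * h3.eq

namespace Site
variable (s : Site K R) {i j : K × Bool} {k l : K} {T T' : R} {po : Finset (K × Bool)}

omit [Algebra ℂ R] in
theorem xn_DPG3 (i j : K × Bool) : Commute (s.x i) (s.n j) := (s.xa i j).mul_right (s.xb i j)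

omit [Algebra ℂ R] in
theorem Dn_DPG3 (i j : K × Bool) : Commute (s.D i) (s.n j) := (s.Da i j).mul_right (s.Db i j)

omit [Algebra ℂ R] in
theorem evn_DPG3 (k : K) (j : K × Bool) : Commute (s.ev k) (s.n j) :=
  (s.eva k j).mul_right (s.evb k j)

theorem Xn_DPG3 (i j : K × Bool) : Commute (s.X po i) (s.n j) :=
  (s.X_a i j).mul_right (s.X_b i j)

theorem Qa_DPG3 (k : K) : Commute (s.Q k) (s.a (k, false)) :=
  (s.eva k _).mul_left ((Commute.one_left _).sub_left (s.n_a_ne (by simp)))

theorem Qb_DPG3 (k : K) : Commute (s.Q k) (s.b (k, false)) :=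
  (s.evb k _).mul_left ((Commute.one_left _).sub_left (s.n_b_ne (by simp)))

theorem Qn_DPG3 (k : K) : Commute (s.Q k) (s.n (k, false)) :=
  (s.Qa_DPG3 k).mul_right (s.Qb_DPG3 k)

theorem Za_DPG3 (i : K × Bool) : s.Z i * s.a i = s.x i * s.a i := by
  have h := s.n_a i
  unfold Z
  linear_combination (norm := noncomm_ring) (s.x i - 1) * h

theorem aX_DPG3 (i j : K × Bool) :
    s.a i * (s.a j * s.X po j) + s.a j * s.X po j * s.a i = 0 := by
  have h1 := s.aa i j
  have h2 := (s.X_a (po := po) j i).eq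
  linear_combination (norm := noncomm_ring) h1 * s.X po j + s.a j * h2

theorem bX_DPG3 (i j : K × Bool) : s.b i * (s.a j * s.X po j) + s.a j * s.X po j * s.b i =
    if i = j then s.X po j else 0 := by
  have h1 := s.car i j
  have h2 := (s.X_b (po := po) j i).eq
  split_ifs at h1 ⊢
  · linear_combination (norm := noncomm_ring) h1 * s.X po j + s.a j * h2
  · linear_combination (norm := noncomm_ring) h1 * s.X po j + s.a j * h2

end Site

namespace Site
variable (s : Site K R) {i j : K × Bool} {k l : K} {T T' : R} {po : Finset (K × Bool)}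
section fin
variable [Fintype K]

theorem δ_split (po : Finset (K × Bool)) (k : K) : s.δ po =
    s.a (k, false) * s.X po (k, false) + s.a (k, true) * s.X po (k, true) + s.δo po k := by
  have h : (Finset.univ.filter fun i : K × Bool => i.1 = k) = {(k, false), (k, true)} := by
    ext ⟨l, t⟩
    cases t <;> simp
  rw [δ, δo, ← Finset.sum_filter_add_sum_filter_not Finset.univ (fun i : K × Bool => i.1 = k), h,
    Finset.sum_pair (by simp)]
theorem δ_δ (po : Finset (K × Bool)) : s.δ po * s.δ po = 0 := by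
  refine half_DPG3 ?_
  rw [δ, Finset.sum_mul_sum]
  nth_rewrite 2 [Finset.sum_comm]
  rw [← Finset.sum_add_distrib]
  refine Finset.sum_eq_zero fun i _ => ?_
  rw [← Finset.sum_add_distrib]
  refine Finset.sum_eq_zero fun j _ => ?_
  have h1 := s.aa i j
  have h2 := (s.X_a (po := po) i j).eq
  have h3 := (s.X_a (po := po) j i).eq
  have h4 := (s.X_comm (po := po) j i).eq
  linear_combination (norm := noncomm_ring) h1 * (s.X po i * s.X po j) + s.a i * h2 * s.X po j +
    s.a j * h3 * s.X po i + s.a j * s.a i * h4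
theorem a_δ (po : Finset (K × Bool)) (i : K × Bool) : s.a i * s.δ po + s.δ po * s.a i = 0 := by
  rw [δ, Finset.mul_sum, Finset.sum_mul, ← Finset.sum_add_distrib]
  exact Finset.sum_eq_zero fun j _ => s.aX_DPG3 i j
theorem b_δ (po : Finset (K × Bool)) (i : K × Bool) :
    s.b i * s.δ po + s.δ po * s.b i = s.X po i := by
  rw [δ, Finset.mul_sum, Finset.sum_mul, ← Finset.sum_add_distrib,
    Finset.sum_congr rfl fun j _ => s.bX_DPG3 i j]
  simp
theorem X_δ (po : Finset (K × Bool)) (i : K × Bool) : Commute (s.X po i) (s.δ po) :=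
  Commute.sum_right _ _ _ fun j _ => (s.X_a i j).mul_right (s.X_comm i j)
theorem a_δo (po : Finset (K × Bool)) (k : K) (t : Bool) :
    s.a (k, t) * s.δo po k + s.δo po k * s.a (k, t) = 0 := by
  rw [δo, Finset.mul_sum, Finset.sum_mul, ← Finset.sum_add_distrib]
  exact Finset.sum_eq_zero fun j _ => s.aX_DPG3 _ j
theorem b_δo (po : Finset (K × Bool)) (k : K) (t : Bool) :
    s.b (k, t) * s.δo po k + s.δo po k * s.b (k, t) = 0 := by
  rw [δo, Finset.mul_sum, Finset.sum_mul, ← Finset.sum_add_distrib]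
  refine Finset.sum_eq_zero fun j hj => ?_
  rw [s.bX_DPG3, if_neg]
  rintro rfl
  exact (Finset.mem_filter.1 hj).2 rfl
theorem Out_δo (h : T ∈ s.Out k) (po : Finset (K × Bool)) : Commute T (s.δo po k) :=
  Commute.sum_right _ _ _ fun j hj =>
    s.commute_of_Out h (mul_mem (s.a_In j) (s.X_In j)) (Finset.mem_filter.1 hj).2
theorem δ_mem {A : Subalgebra ℂ R} (ha : ∀ i, s.a i ∈ A) (hx : ∀ i, s.x i ∈ A)
    (hD : ∀ i, s.D i ∈ A) (po : Finset (K × Bool)) : s.δ po ∈ A := by
  refine sum_mem fun i _ => mul_mem (ha i) ?_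
  unfold X
  split_ifs
  · exact mul_mem (hx i) (hD i)
  · exact hD i
/-- change of frame -/
theorem δ_Z (h : i ∉ po) : s.δ (insert i po) * s.Z i = s.Z i * s.δ po := by
  rw [δ, δ, Finset.mul_sum, Finset.sum_mul]
  refine Finset.sum_congr rfl fun j _ => ?_
  by_cases hj : j = i
  · subst hj
    have h1 := s.Za_DPG3 j
    have h2 := s.a_n j
    have h3 := (s.xa j j).eq
    have h4 : Commute (s.x j * s.D j * (s.x j - 1)) (s.n j) :=
      ((s.xn_DPG3 j j).mul_left (s.Dn_DPG3 j j)).mul_left
        ((s.xn_DPG3 j j).sub_left (Commute.one_left _))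
    rw [X, X, if_pos (Finset.mem_insert_self _ _), if_neg h, ← mul_assoc (s.Z j), h1, Z]
    linear_combination (norm := noncomm_ring) s.a j * h4.eq +
      h2 * (s.x j * s.D j * (s.x j - 1)) - h3 * s.D j
  · have e : s.X (insert i po) j = s.X po j := by simp [X, hj]
    have hD : Commute (s.x i) (s.D j) := by
      have h1 := s.Dx j i
      rw [if_neg hj, sub_eq_zero] at h1
      exact h1.symm
    have hX : Commute (s.x i) (s.X po j) := by
      unfold X
      split_ifs
      · exact (s.xx i j).mul_right hD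
      · exact hD
    have h1 : Commute (s.x i) (s.a j * s.X po j) := (s.xa i j).mul_right hX
    have h2 : Commute (s.n i) (s.a j * s.X po j) :=
      (s.n_a_ne (Ne.symm hj)).mul_right (s.Xn_DPG3 j i).symm
    rw [e]
    exact (((Commute.one_left _).add_left
      ((h1.sub_left (Commute.one_left _)).mul_left h2)).eq).symm


end fin

/-! ### sites that can be scaled -/

theorem Eu_x (k : K) (t : Bool) : s.Eu k * s.x (k, t) = s.x (k, t) * (s.Eu k + 1) := by
  cases t
  · exact eux_DPG3 (by simpa using s.Dx (k, false) (k, false))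
      (by simpa using s.Dx (k, true) (k, false)) (s.xx _ _)
  · rw [Eu, add_comm (s.x (k, false) * s.D (k, false))]
    exact eux_DPG3 (by simpa using s.Dx (k, true) (k, true))
      (by simpa using s.Dx (k, false) (k, true)) (s.xx _ _)
theorem D_Eu (k : K) (t : Bool) : s.D (k, t) * s.Eu k = (s.Eu k + 1) * s.D (k, t) := by
  cases t
  · exact deu_DPG3 (by simpa using s.Dx (k, false) (k, false))
      (by simpa using s.Dx (k, false) (k, true)) (s.DD _ _)
  · rw [Eu, add_comm (s.x (k, false) * s.D (k, false))]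
    exact deu_DPG3 (by simpa using s.Dx (k, true) (k, true))
      (by simpa using s.Dx (k, true) (k, false)) (s.DD _ _)
theorem Q_eq (k : K) : s.Q k = s.P k + s.Rs k := by
  unfold Q P Rs
  noncomm_ring
theorem Rs_a (k : K) : s.Rs k * s.a (k, false) = s.a (k, false) * s.P k := by
  have h1 := (s.Qa_DPG3 k).eq
  have h2 := s.n_a (k, false)
  have h3 := s.a_n (k, false)
  change s.Q k * s.n (k, false) * _ = _ * (s.Q k * (1 - s.n (k, false)))
  linear_combination (norm := noncomm_ring) s.Q k * h2 + h1 * (1 - s.n (k, false)) + s.Q k * h3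
theorem a_Rs (k : K) : s.a (k, false) * s.Rs k = 0 := by
  have h1 := (s.Qa_DPG3 k).eq
  have h3 := s.a_n (k, false)
  change _ * (s.Q k * s.n (k, false)) = 0
  linear_combination (norm := noncomm_ring) s.Q k * h3 - h1 * s.n (k, false)
theorem P_a (k : K) (t : Bool) : s.P k * s.a (k, t) = 0 := by
  have h2 := s.n_a (k, t)
  have h3 := (s.n_comm (k, true) (k, false)).eq
  unfold P
  cases t
  · linear_combination (norm := noncomm_ring) -(s.ev k * (1 - s.n (k, true)) * h2)
  · linear_combination (norm := noncomm_ring) s.ev k * h3 * s.a (k, true) -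
      s.ev k * (1 - s.n (k, false)) * h2
theorem b_P (k : K) (t : Bool) : s.b (k, t) * s.P k = 0 := by
  have h2 := s.b_n (k, t)
  cases t
  · have h1 := (s.Qb_DPG3 k).eq
    change _ * (s.Q k * (1 - s.n (k, false))) = 0
    linear_combination (norm := noncomm_ring) -(h1 * (1 - s.n (k, false))) - s.Q k * h2
  · have h1 := (s.evb k (k, true)).eq
    unfold P
    linear_combination (norm := noncomm_ring)
      -(h1 * ((1 - s.n (k, true)) * (1 - s.n (k, false)))) - s.ev k * h2 * (1 - s.n (k, false))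
theorem a_P_b (k : K) : s.a (k, false) * s.P k * s.b (k, false) = s.Rs k := by
  have h1 := (s.Qa_DPG3 k).eq
  have h2 := s.n_b (k, false)
  change _ * (s.Q k * (1 - s.n (k, false))) * _ = s.Q k * (s.a (k, false) * s.b (k, false))
  linear_combination (norm := noncomm_ring) -(h1 * s.b (k, false)) - s.a (k, false) * s.Q k * h2
theorem b_a_P (k : K) : s.b (k, false) * s.a (k, false) * s.P k = s.P k := by
  have h1 := (s.Qn_DPG3 k).eq
  have h2 := s.n_n (k, false)
  rw [s.b_a]
  change _ * (s.Q k * (1 - s.n (k, false))) = s.Q k * (1 - s.n (k, false))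
  linear_combination (norm := noncomm_ring) h1 * (1 - s.n (k, false)) + s.Q k * h2
theorem Rs_n (k : K) : s.Rs k * s.n (k, true) = 0 := by
  have h2 := s.n_n (k, true)
  have h3 := (s.n_comm (k, false) (k, true)).eq
  unfold Rs
  linear_combination (norm := noncomm_ring) s.ev k * (1 - s.n (k, true)) * h3 -
    s.ev k * h2 * s.n (k, false)
theorem n_Rs (k : K) : s.n (k, true) * s.Rs k = 0 := by
  have h2 := s.n_n (k, true)
  have h3 := (s.evn_DPG3 k (k, true)).eq
  unfold Rs
  linear_combination (norm := noncomm_ring) -(h3 * ((1 - s.n (k, true)) * s.n (k, false))) -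
    s.ev k * h2 * s.n (k, false)
theorem Ee_eq (k : K) : s.Ee k = s.Rs k + s.Ee k * s.n (k, true) := by
  have h3 := (s.n_comm (k, true) (k, false)).eq
  unfold Rs Ee
  linear_combination (norm := noncomm_ring) s.ev k * h3
theorem a_Z (i : K × Bool) : s.a i * s.Z i = s.a i := by
  have h1 := (s.xa i i).eq
  have h2 := s.a_n i
  unfold Z
  linear_combination (norm := noncomm_ring) (s.x i - 1) * h2 - h1 * s.n i
theorem Z_a (i : K × Bool) : s.Z i * s.a i = s.x i * s.a i := s.Za_DPG3 i
theorem Z_n (i : K × Bool) : s.Z i * s.n i = s.x i * s.n i := by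
  have h2 := s.n_n i
  unfold Z
  linear_combination (norm := noncomm_ring) (s.x i - 1) * h2
theorem n_Z (i : K × Bool) : s.n i * s.Z i = s.x i * s.n i := by
  have h1 := (s.xn_DPG3 i i).eq
  have h2 := s.n_n i
  unfold Z
  linear_combination (norm := noncomm_ring) (s.x i - 1) * h2 - h1 * s.n i
theorem Z_one_sub (i : K × Bool) : s.Z i * (1 - s.n i) = 1 - s.n i := by
  have h2 := s.n_n i
  unfold Z
  linear_combination (norm := noncomm_ring) -((s.x i - 1) * h2)
theorem one_sub_Z (i : K × Bool) : (1 - s.n i) * s.Z i = 1 - s.n i := by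
  have h1 := (s.xn_DPG3 i i).eq
  have h2 := s.n_n i
  unfold Z
  linear_combination (norm := noncomm_ring) h1 * s.n i - (s.x i - 1) * h2

variable {s}

theorem Fr.ev_ev (h : s.Fr k) : s.ev k * s.ev k = s.ev k := by
  have h1 := h.had
  have h2 := h.ev_x false
  have h3 := h.ev_x true
  linear_combination (norm := noncomm_ring) -(s.ev k * h1) - h2 * (h.I0 * s.D (k, false)) -
    h3 * (h.I0 * s.D (k, true))
theorem inv_FOut_DPG3 {A I : R} (hA : A ∈ s.FOut k) (hl : I * A = 1) (hr : A * I = 1) :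
    I ∈ s.FOut k := by
  obtain ⟨h1, h2, h3⟩ := s.mem_FOut.1 hA
  have c : ∀ {T : R}, Commute A T → Commute I T := fun hT => (commute_inv hl hr hT.symm).symm
  exact s.mem_FOut.2 ⟨fun i => ⟨c (h1 i).1, c (h1 i).2⟩,
    fun i hi => ⟨c (h2 i hi).1, c (h2 i hi).2⟩, fun l hl => c (h3 l hl)⟩
theorem Fr.Q_idem_DPG3 (h : s.Fr k) : IsIdempotentElem (s.Q k) :=
  IsIdempotentElem.mul_of_commute ((Commute.one_right _).sub_right (s.evn_DPG3 k _)) h.ev_ev
    (IsIdempotentElem.one_sub (s.n_n (k, true)))
theorem Fr.I0_FOut (h : s.Fr k) : h.I0 ∈ s.FOut k :=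
  inv_FOut_DPG3 (add_mem (s.Eu_FOut k) (one_mem _)) h.l0 h.r0
theorem Fr.I1_FOut (h : s.Fr k) : h.I1 ∈ s.FOut k :=
  inv_FOut_DPG3 (add_mem (s.Eu_FOut k) (ofNat_mem _ 2)) h.l1 h.r1
theorem Fr.P_P (h : s.Fr k) : s.P k * s.P k = s.P k :=
  (h.Q_idem_DPG3.mul_of_commute ((Commute.one_right _).sub_right (s.Qn_DPG3 k))
    (IsIdempotentElem.one_sub (s.n_n (k, false)))).eq
theorem Fr.Rs_Rs (h : s.Fr k) : s.Rs k * s.Rs k = s.Rs k :=
  (h.Q_idem_DPG3.mul_of_commute (s.Qn_DPG3 k) (s.n_n (k, false))).eq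
theorem Fr.Rs_Ee (h : s.Fr k) : s.Rs k * s.Ee k = s.Rs k := by
  have h1 := h.ev_ev
  have h2 := s.n_n (k, false)
  have h3 : Commute (s.ev k) ((1 - s.n (k, true)) * s.n (k, false)) :=
    ((Commute.one_right _).sub_right (s.evn_DPG3 k _)).mul_right (s.evn_DPG3 k _)
  unfold Rs Ee
  linear_combination (norm := noncomm_ring) -(s.ev k * h3.eq * s.n (k, false)) +
    h1 * ((1 - s.n (k, true)) * s.n (k, false) * s.n (k, false)) +
    s.ev k * (1 - s.n (k, true)) * h2
theorem Fr.Rs_Z (h : s.Fr k) : s.Rs k * s.Z (k, false) = 0 := by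
  have h1 := h.ev_x false
  have h2 := (s.xn_DPG3 (k, false) (k, true)).eq
  rw [Rs, mul_assoc, s.n_Z]
  linear_combination (norm := noncomm_ring) s.ev k * h2 * s.n (k, false) +
    h1 * ((1 - s.n (k, true)) * s.n (k, false))
theorem Fr.Ee_Z (h : s.Fr k) : s.Ee k * s.Z (k, false) = 0 := by
  rw [Ee, mul_assoc, s.n_Z, ← mul_assoc, h.ev_x, zero_mul]
theorem Fr.X_ev (h : s.Fr k) (t : Bool) : s.X po (k, t) * s.ev k = 0 := by
  unfold X
  split_ifs
  · rw [mul_assoc, h.D_ev, mul_zero]
  · exact h.D_ev t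
theorem Fr.Rs_δ [Fintype K] (h : s.Fr k) (hf : (k, false) ∈ po) (ht : (k, true) ∉ po) :
    Commute (s.Rs k) (s.δ po) := by
  have r : ∀ t, s.a (k, t) * s.X po (k, t) * s.Rs k = 0 := fun t => by
    have h1 := h.X_ev (po := po) t
    unfold Rs
    linear_combination (norm := noncomm_ring)
      s.a (k, t) * h1 * ((1 - s.n (k, true)) * s.n (k, false))
  have l0 : s.Rs k * (s.a (k, false) * s.X po (k, false)) = 0 := by
    have h1 := h.ev_x false
    have h2 : Commute (s.x (k, false)) ((1 - s.n (k, true)) * s.n (k, false) * s.a (k, false)) :=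
      (((Commute.one_right _).sub_right (s.xn_DPG3 _ _)).mul_right (s.xn_DPG3 _ _)).mul_right
        (s.xa _ _)
    rw [X, if_pos hf, Rs]
    linear_combination (norm := noncomm_ring)
      h1 * ((1 - s.n (k, true)) * s.n (k, false) * s.a (k, false) * s.D (k, false)) -
        s.ev k * h2.eq * s.D (k, false)
  have l1 : s.Rs k * (s.a (k, true) * s.X po (k, true)) = 0 := by
    have h1 := s.Rs_n k
    have h2 := s.n_a (k, true)
    linear_combination (norm := noncomm_ring) h1 * (s.a (k, true) * s.X po (k, true)) -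
      s.Rs k * h2 * s.X po (k, true)
  rw [s.δ_split po k]
  exact (Commute.add_right (l0.trans (r false).symm) (l1.trans (r true).symm)).add_right
    (s.Out_δo (s.Rs_Out k) po)
theorem Fr.P_δ [Fintype K] (h : s.Fr k) (po : Finset (K × Bool)) : Commute (s.P k) (s.δ po) := by
  have r : ∀ t, Commute (s.P k) (s.a (k, t) * s.X po (k, t)) := fun t => by
    have h1 := h.X_ev (po := po) t
    have h2 : s.a (k, t) * s.X po (k, t) * s.P k = 0 := by
      unfold P
      linear_combination (norm := noncomm_ring)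
        s.a (k, t) * h1 * ((1 - s.n (k, true)) * (1 - s.n (k, false)))
    have h3 : s.P k * (s.a (k, t) * s.X po (k, t)) = 0 := by
      rw [← mul_assoc, s.P_a, zero_mul]
    exact h3.trans h2.symm
  rw [s.δ_split po k]
  exact ((r false).add_right (r true)).add_right (s.Out_δo (s.P_Out k) po)

end Site

end Pool.Agent.PWD.Loc
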