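import Pool.Agent.P.MP_65ad7c_ag.DPF3
import Pool.Agent.P.MP_65ad7c_ag.DPA5
import Pool.Agent.P.MP_65ad7c_ag.DPA6
import Pool.Agent.P.MP_65ad7c_ag.DPA7
import Pool.Agent.P.MP_65ad7c_ag.DPA8
import Pool.Agent.P.MP_65ad7c_ag.DPG3

/-! The two models. -/

open Set Filter Topology TopologicalSpace Metric
open scoped ContDiff ComplexConjugate
open Pool.Agent.HT (Form Alt pull der kill)

noncomputable section
namespace Pool.Agent.PWD.Loc

variable {d : ℕ} {F : Type} [NormedAddCommGroup F] [NormedSpace ℂ F] [FiniteDimensional ℂ F]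
  (Φ : FK d F)

namespace FK

/-- the operators on functions with values in the Fock space -/
def site (Ω : Opens (E d)) (c : E d) : Site (Fin d) (Module.End ℂ (Fn Ω F)) where
  a i := cst Ω (Φ.C.a i)
  b i := cst Ω (Φ.C.b i)
  car i j := by
    rw [← cst_mul, ← cst_mul, ← cst_add, Φ.C.car]
    split_ifs
    exacts [cst_one, cst_zero]
  aa i j := by rw [← cst_mul, ← cst_mul, ← cst_add, Φ.C.aa, cst_zero]
  bb i j := by rw [← cst_mul, ← cst_mul, ← cst_add, Φ.C.bb, cst_zero]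
  x := xc Ω F c
  D := dw Ω F
  ev := evc Ω F c
  xa _ _ := cst_comm_mul _ _
  xb _ _ := cst_comm_mul _ _
  Da _ _ := cst_comm_dw _ _
  Db _ _ := cst_comm_dw _ _
  eva _ _ := cst_comm_cmp _ _
  evb _ _ := cst_comm_cmp _ _
  xx _ _ := mul_comm_mul _ _
  DD := dw_comm_dw
  Dx := dw_xc c
  evx _ _ h := evc_comm_xc h
  evD _ _ h := evc_comm_dw h
  evev := evc_comm_evc

/-- the constant function `vac` -/
def vacF (Ω : Opens (E d)) : Fn Ω F := Fn.mk (fun _ => Φ.vac) contDiffOn_const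

omit [FiniteDimensional ℂ F] in
theorem vacF_b (Ω : Opens (E d)) (i : Fin d × Bool) : cst Ω (Φ.C.b i) (Φ.vacF Ω) = 0 :=
  Fn.ext fun z hz => by simp [cst_val, vacF, Fn.mk_apply _ hz, Φ.b_vac]

omit [FiniteDimensional ℂ F] in
theorem ker_F {Ω : Opens (E d)} (hΩ : IsPreconnected (Ω : Set (E d))) (u : Fn Ω F)
    (hD : ∀ i, dw Ω F i u = 0) (hb : ∀ i, cst Ω (Φ.C.b i) u = 0) : ∃ c : ℂ, u = c • Φ.vacF Ω := by
  obtain ⟨v, hv⟩ := const_of_dw hΩ hD
  by_cases h : ∃ z, z ∈ Ω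
  · obtain ⟨z, hz⟩ := h
    obtain ⟨t, ht⟩ := Φ.ker_b (u := v) fun i => by
      have := congrFun (cst_val (Φ.C.b i) u) z
      rw [hb i, hv z hz] at this
      exact this.symm
    exact ⟨t, Fn.ext fun y hy => by simp [hv y hy, ht, vacF, Fn.mk_apply _ hy]⟩
  · exact ⟨0, Fn.ext fun y hy => (h ⟨y, hy⟩).elim⟩

/-- a site that can be scaled -/
def fr {Ω : Opens (E d)} {k : Fin d} (h : ∀ z ∈ Ω, ∀ t, Function.update z k t ∈ Ω) (c : E d) :
    (Φ.site Ω c).Fr k :=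
  have : CompleteSpace F := FiniteDimensional.complete ℂ F
  have H := (exists_scal (F := F) h c).choose_spec.choose_spec
  { I0 := (exists_scal (F := F) h c).choose
    I1 := (exists_scal (F := F) h c).choose_spec.choose
    ev_x := evc_xc fun z hz => h z hz _
    D_ev := dw_evc fun z hz => h z hz _
    l0 := H.1
    r0 := H.2.1
    l1 := H.2.2.1
    r1 := H.2.2.2.1
    had := H.2.2.2.2.1 }

theorem fr_Nb {Ω : Opens (E d)} {k : Fin d} (h : ∀ z ∈ Ω, ∀ t, Function.update z k t ∈ Ω)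
    (c : E d) (r : ℝ) : (Φ.fr h c).I0 ∈ Stb (Nb Ω ⊥ (ball c r)) ∧
      (Φ.fr h c).I1 ∈ Stb (Nb Ω ⊥ (ball c r)) :=
  have : CompleteSpace F := FiniteDimensional.complete ℂ F
  (exists_scal (F := F) h c).choose_spec.choose_spec.2.2.2.2.2 r

theorem exists_po {al : Finset (Fin d)} {k : Fin d} (hk : k ∈ al) {c : E d} (hc : c k = 0) {r : ℝ}
    (hr : 0 < r) : ∃ h : (Φ.site (Rg al) c).Po k, h.T ∈ Stb (Nb _ ⊥ (ball c r)) ∧
      h.S ∈ Stb (Nb _ ⊥ (ball c r)) := by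
  have : CompleteSpace F := FiniteDimensional.complete ℂ F
  obtain ⟨T, Av, h1, h2, h3, h4⟩ := exists_rot (F := F) (al := al) hc
  obtain ⟨S, C, g1, g2, g3, g4, g5, g6, g7⟩ := exists_ray (F := F) hk hc hr
  exact ⟨⟨T, Av, S, C, h1, h2, h3, g1, g2,
    (Site.mem_FOut _).2 ⟨fun _ => ⟨g3 _, g3 _⟩, g4, g5⟩, g6⟩, h4 r, g7⟩

omit [FiniteDimensional ℂ F] in
theorem cst_bot {Ω : Opens (E d)} (L : F →L[ℂ] F) (U : Set (E d)) : cst Ω L ∈ Stb (Nb Ω ⊥ U) :=
  fun _ hf => cst_Nb (fun u hu => by rw [(Submodule.mem_bot ℂ).1 hu]; simp) hf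

omit [FiniteDimensional ℂ F] in
theorem bot_closed : IsClosed ((⊥ : Submodule ℂ F) : Set F) := isClosed_singleton

/-- the model of the punctured polydisc of radius `r` -/
def ppM (al : Finset (Fin d)) (c : E d) (hc : ∀ k ∈ al, c k = 0) (r : ℝ) (hr : 0 < r) :
    PPM (Fin d) (Fn (Rg al) F) where
  toSite := Φ.site (Rg al) c
  N := Nb _ ⊥ (ball c r)
  vac := Φ.vacF _
  N_a _ := cst_bot _ _
  N_b _ := cst_bot _ _
  N_x _ := mul_Nb _
  N_D := dw_Nb bot_closed isOpen_ball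
  N_ev := evc_Nb r
  vac_D := dw_const _
  vac_b := Φ.vacF_b _
  vac_N t ht := by
    obtain ⟨z, hz, hz'⟩ := (Rg_dense al).inter_open_nonempty _ isOpen_ball ⟨c, mem_ball_self hr⟩
    have := (Submodule.mem_bot ℂ).1 (ht z hz)
    simpa [vacF, Fn.mk_apply _ hz', Φ.vac_ne] using this
  ker := Φ.ker_F (Rg_preconnected al)
  al := al
  fr k hk := Φ.fr (fun _ hz t => Rg_update hk hz t) c
  po k hk := (Φ.exists_po hk (hc k hk) hr).choose
  N_I0 _ _ := (Φ.fr_Nb _ c r).1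
  N_I1 _ _ := (Φ.fr_Nb _ c r).2
  N_T k hk := (Φ.exists_po hk (hc k hk) hr).choose_spec.1
  N_S k hk := (Φ.exists_po hk (hc k hk) hr).choose_spec.2
  x_inj i u hu := Fn.ext fun z _ =>
    (Submodule.mem_bot ℂ).1 (xc_inj (c := c) (i := i) (f := u) bot_closed isOpen_univ
      (by rw [show xc _ F c i u = 0 from hu]; exact Submodule.zero_mem _) z trivial)

omit [FiniteDimensional ℂ F] in
theorem Ng_inj {C : Submodule ℂ F} (hC : IsClosed (C : Set F)) {c : E d} (i : Fin d × Bool)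
    (u : Fn ⊤ F) (h : xc ⊤ F c i u ∈ Ng ⊤ C c) : u ∈ Ng ⊤ C c := by
  obtain ⟨r, hr, h⟩ := mem_Ng_iff.1 h
  exact mem_Ng_iff.2 ⟨r, hr, xc_inj hC isOpen_ball h⟩

/-- the model of the logarithmic complex at `c` -/
def logM (c : E d) : LogM (Fin d) (Fn (⊤ : Opens (E d)) F) :=
  have : CompleteSpace F := FiniteDimensional.complete ℂ F
  { toSite := Φ.site ⊤ c
    N := Ng ⊤ ⊥ c
    vac := Φ.vacF _
    N_a := fun _ => Stb_Ng fun _ _ => cst_bot _ _
    N_b := fun _ => Stb_Ng fun _ _ => cst_bot _ _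
    N_x := fun _ => Stb_Ng fun _ _ => mul_Nb _
    N_D := fun i => Stb_Ng fun _ _ => dw_Nb bot_closed isOpen_ball i
    N_ev := fun k => Stb_Ng fun r _ => evc_Nb r k
    vac_D := dw_const _
    vac_b := Φ.vacF_b _
    vac_N := fun t ht => by
      have := (Submodule.mem_bot ℂ).1 (mem_Ng.1 ht).self_of_nhds
      simpa [vacF, Fn.mk_apply _ (show c ∈ (⊤ : Opens (E d)) from trivial), Φ.vac_ne] using this
    ker := Φ.ker_F isPreconnected_univ
    fr := fun _ => Φ.fr (Ω := ⊤) (fun _ _ _ => Opens.mem_top _) c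
    S := fun k => (exists_db (F := F) c k).choose
    Fl := fun p => Ng ⊤ (Φ.HF p) c
    N_I0 := fun _ => Stb_Ng fun r _ => (Φ.fr_Nb _ c r).1
    N_I1 := fun _ => Stb_Ng fun r _ => (Φ.fr_Nb _ c r).2
    N_inj := Ng_inj bot_closed
    S_out := fun k ρ =>
      have H := (exists_db (F := F) c k).choose_spec
      (Site.mem_FOut _).2 ⟨fun _ => ⟨H.1 _ _, H.1 _ _⟩, H.2.1 ρ, H.2.2.1 ρ⟩
    S_D := fun k => (exists_db (F := F) c k).choose_spec.2.2.2.1
    S_N := fun k => (exists_db (F := F) c k).choose_spec.2.2.2.2 _ bot_closed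
    Fl_N := fun p f hf => (mem_Ng.1 hf).mono fun _ h => bot_le (a := Φ.HF p) h
    Fl_zero := by
      rw [Φ.HF_zero]
      exact eq_top_iff.2 fun _ _ => Eventually.of_forall fun _ => trivial
    Fl_anti := fun p f hf => (mem_Ng.1 hf).mono fun _ h => Φ.HF_anti p h
    Fl_a := fun p k _ hu => cst_Ng (Φ.HF_a p k) hu
    Fl_b := fun p k _ hu => cst_Ng (Φ.HF_b p k) hu
    Fl_a' := fun p k _ hu => cst_Ng (Φ.HF_a' p k) hu
    Fl_b' := fun p k _ hu => cst_Ng (Φ.HF_b' p k) hu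
    Fl_x := fun _ _ => Stb_Ng fun _ _ => mul_Nb _
    Fl_D := fun p i => Stb_Ng fun _ _ =>
      dw_Nb (Submodule.closed_of_finiteDimensional _) isOpen_ball i
    Fl_ev := fun _ k => Stb_Ng fun r _ => evc_Nb r k
    Fl_inj := fun p => Ng_inj (Submodule.closed_of_finiteDimensional _)
    Fl_S := fun p k => (exists_db (F := F) c k).choose_spec.2.2.2.2 _
      (Submodule.closed_of_finiteDimensional _) }

theorem logM_site (c : E d) : (Φ.logM c).toSite = Φ.site ⊤ c := rfl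
theorem logM_N (c : E d) : (Φ.logM c).N = Ng ⊤ ⊥ c := rfl
theorem logM_vac (c : E d) : (Φ.logM c).vac = Φ.vacF ⊤ := rfl
theorem logM_Fl (c : E d) (p : ℕ) : (Φ.logM c).Fl p = Ng ⊤ (Φ.HF p) c := rfl

/-- the change from the logarithmic frame to the standard frame -/
def U (po : Finset (Fin d × Bool)) (z : E d) : F →L[ℂ] F :=
  cp po fun i => 1 + ((cov i z)⁻¹ - 1) • Φ.C.n i

/-- the form whose coefficients in the logarithmic frame are `g` -/
def ren (po : Finset (Fin d × Bool)) : (E d → F) →ₗ[ℂ] GF (E d) where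
  toFun g := fun n z => Φ.psi n (Φ.U po z (g z))
  map_add' g g' := by ext n z v; simp
  map_smul' t g := by ext n z v; simp

omit [FiniteDimensional ℂ F] in
theorem ren_apply (po : Finset (Fin d × Bool)) (g : E d → F) (n : ℕ) (z : E d) :
    Φ.ren po g n z = Φ.psi n (Φ.U po z (g z)) := rfl

/-- near `c`, the form `f` has the coefficients `g` in the frame with poles along `al` -/
def Hat (al : Finset (Fin d)) (c : E d) (g : Fn (⊤ : Opens (E d)) F) (f : GF (E d)) : Prop :=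
  ∀ᶠ z in 𝓝[Rg al] c, ∀ n, f n z = Φ.ren (pf al) g.1 n z

end FK

/-- wedge product with the `dz_k / z_k`, `k ∈ L` -/
def lgL (L : List (Fin d)) (f : GF (E d)) : GF (E d) := L.foldr (fun k g => lg (fun z => z k) g) f

end Pool.Agent.PWD.Loc
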