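import Pool.Agent.P.MP_65ad7c_ag.DPD0
import Pool.Agent.P.MP_65ad7c_ag.DCa

/-! Pointwise dictionary: algebraic operators. -/

open Set Filter Topology TopologicalSpace Metric
open scoped ContDiff ComplexConjugate
open Pool.Agent.HT (Form Alt pull der kill)

noncomputable section
namespace Pool.Agent.PWD.Loc

section abs
variable {K R : Type} [DecidableEq K] [Ring R] [Algebra ℂ R]

/-- product of the factors `1 + t i • n i` -/
def CAR.G_DPD1 (s : CAR K R) (po : Finset (K × Bool)) (t : K × Bool → ℂ) : R :=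
  cp po fun i => 1 + t i • s.n i

variable (s : CAR K R) {po : Finset (K × Bool)} {t t' : K × Bool → ℂ} {i : K × Bool}

theorem CAR.fc_DPD1 (i j : K × Bool) (x y : ℂ) :
    Commute (1 + x • s.n i) (1 + y • s.n j) :=
  (Commute.one_left _).add_left ((Commute.one_right _).add_right
    (((s.n_comm i j).smul_left x).smul_right y))

theorem CAR.G_empty_DPD1 (t : K × Bool → ℂ) : s.G_DPD1 ∅ t = 1 := cp_empty _

theorem CAR.G_insert_DPD1 (h : i ∉ po) (t : K × Bool → ℂ) :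
    s.G_DPD1 (insert i po) t = (1 + t i • s.n i) * s.G_DPD1 po t :=
  cp_insert (fun i j => s.fc_DPD1 i j _ _) h

theorem CAR.G_fc_DPD1 (i : K × Bool) (x : ℂ) : Commute (1 + x • s.n i) (s.G_DPD1 po t) :=
  commute_cp fun j _ => s.fc_DPD1 i j _ _

theorem CAR.fi_DPD1 (i : K × Bool) {x y : ℂ} (h : (1 + x) * (1 + y) = 1) :
    (1 + x • s.n i) * (1 + y • s.n i) = 1 := by
  have e : x + y + x * y = 0 := by linear_combination h
  have e2 : (1 + x • s.n i) * (1 + y • s.n i) = 1 + (x + y + x * y) • s.n i := by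
    rw [mul_add, add_mul, add_mul, smul_mul_smul_comm, s.n_n, add_smul, add_smul, mul_one, mul_one,
      one_mul]
    abel
  rw [e2, e, zero_smul, add_zero]

theorem CAR.G_inv_DPD1 (h : ∀ i ∈ po, (1 + t i) * (1 + t' i) = 1) :
    s.G_DPD1 po t * s.G_DPD1 po t' = 1 := by
  induction po using Finset.induction_on with
  | empty => rw [s.G_empty_DPD1, s.G_empty_DPD1, mul_one]
  | insert i po hi ih =>
    rw [s.G_insert_DPD1 hi, s.G_insert_DPD1 hi, mul_assoc, ← mul_assoc (s.G_DPD1 po t),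
      ← (s.G_fc_DPD1 i (t' i)).eq, mul_assoc, ih fun j hj => h j (Finset.mem_insert_of_mem hj),
      mul_one, s.fi_DPD1 i (h i (Finset.mem_insert_self _ _))]

theorem CAR.G_a_ins_DPD1 (h : i ∉ po) (t : K × Bool → ℂ) :
    s.G_DPD1 (insert i po) t * s.a i = (1 + t i) • (s.a i * s.G_DPD1 po t) := by
  have hc : Commute (s.a i) (s.G_DPD1 po t) := commute_cp fun j hj =>
    (Commute.one_right _).add_right
      ((s.n_a_ne (fun e : j = i => h (e ▸ hj))).symm.smul_right _)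
  rw [s.G_insert_DPD1 h, mul_assoc, ← hc.eq, ← mul_assoc, add_mul, one_mul, smul_mul_assoc, s.n_a,
    ← smul_mul_assoc, add_smul, one_smul]

theorem CAR.G_a_DPD1 (h : i ∈ po) (t : K × Bool → ℂ) :
    s.G_DPD1 po t * s.a i = (1 + t i) • (s.a i * s.G_DPD1 po t) := by
  have h1 := s.G_a_ins_DPD1 (Finset.notMem_erase i po) t
  have h2 := s.G_insert_DPD1 (Finset.notMem_erase i po) t
  rw [Finset.insert_erase h] at h1 h2
  rw [h1, h2, ← mul_assoc, mul_add, mul_one, mul_smul_comm, s.a_n, smul_zero, add_zero]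

theorem Site.aL_Z_DPD1 (s : Site K R) {L : List K} {k : K} (h : k ∈ L) :
    s.aL L * s.Z (k, false) = s.aL L := by
  have h1 : s.a (k, false) * s.aL L = 0 := by
    rw [← s.n_aL_of_mem h, ← mul_assoc, s.a_n, zero_mul]
  have h2 : s.aL L * s.a (k, false) = 0 := by
    rw [s.a_aL] at h1
    exact (smul_eq_zero_iff_right (pow_ne_zero _ (by norm_num))).1 h1
  have h3 : Commute (s.x (k, false) - 1) (s.n (k, false)) :=
    ((s.xa _ _).mul_right (s.xb _ _)).sub_left (Commute.one_left _)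
  rw [Site.Z, h3.eq, mul_add, mul_one, CAR.n, ← mul_assoc, ← mul_assoc, h2, zero_mul, zero_mul,
    add_zero]

theorem Site.aL_ZZ_DPD1 (s : Site K R) {L : List K} {J : Finset K} (h : J ⊆ L.toFinset) :
    s.aL L * s.ZZ J = s.aL L := by
  induction J using Finset.induction_on with
  | empty => rw [Site.ZZ, cp_empty, mul_one]
  | insert k J hk ih =>
    rw [Site.ZZ, cp_insert (fun _ _ => s.Z_comm _ _) hk, ← mul_assoc,
      s.aL_Z_DPD1 (List.mem_toFinset.1 (h (Finset.mem_insert_self _ _)))]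
    exact ih ((Finset.subset_insert _ _).trans h)

theorem Site.aL_ZZ'_DPD1 (s : Site K R) {L : List K} {al : Finset K} (h : L.toFinset ⊆ al) :
    s.aL L * s.ZZ al = s.aL L * s.ZZ (al \ L.toFinset) := by
  have e : s.ZZ al = s.ZZ L.toFinset * s.ZZ (al \ L.toFinset) := by
    rw [Site.ZZ, Site.ZZ, Site.ZZ, ← cp_union (fun _ _ => s.Z_comm _ _) Finset.disjoint_sdiff,
      Finset.union_sdiff_of_subset h]
  rw [e, ← mul_assoc, s.aL_ZZ_DPD1 subset_rfl]

end abs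

variable {d : ℕ} {F : Type} [NormedAddCommGroup F] [NormedSpace ℂ F] (Φ : FK d F)
  {Ω : Opens (E d)} {z c : E d} {po : Finset (Fin d × Bool)} {al J : Finset (Fin d)} {k : Fin d}
  {i : Fin d × Bool}

namespace FK

theorem U_eq_DPD1 (po : Finset (Fin d × Bool)) (z : E d) :
    Φ.U po z = Φ.C.G_DPD1 po fun i => (cov i z)⁻¹ - 1 := rfl

theorem G_HF_DPD1 (p : ℕ) (po : Finset (Fin d × Bool)) (t : Fin d × Bool → ℂ) :
    ∀ u ∈ Φ.HF p, Φ.C.G_DPD1 po t u ∈ Φ.HF p := by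
  induction po using Finset.induction_on with
  | empty => exact fun u hu => by rwa [Φ.C.G_empty_DPD1]
  | insert i po hi ih =>
    intro u hu
    rw [Φ.C.G_insert_DPD1 hi]
    exact add_mem (ih u hu) (Submodule.smul_mem _ _ (Φ.HF_n p i _ (ih u hu)))

theorem G_vac_DPD1 (po : Finset (Fin d × Bool)) (t : Fin d × Bool → ℂ) :
    Φ.C.G_DPD1 po t Φ.vac = Φ.vac := by
  induction po using Finset.induction_on with
  | empty => rw [Φ.C.G_empty_DPD1]; rfl
  | insert i po hi ih =>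
    rw [Φ.C.G_insert_DPD1 hi]
    change Φ.C.G_DPD1 po t Φ.vac + t i • Φ.C.a i (Φ.C.b i (Φ.C.G_DPD1 po t Φ.vac)) = _
    rw [ih, Φ.b_vac, map_zero, smul_zero, add_zero]

theorem G_cda_DPD1 {t : Fin d × Bool → E d → ℂ} (ht : ∀ i ∈ po, ContDiffAt ℝ ∞ (t i) z)
    {g : E d → F} (hg : ContDiffAt ℝ ∞ g z) :
    ContDiffAt ℝ ∞ (fun y => Φ.C.G_DPD1 po (fun i => t i y) (g y)) z := by
  induction po using Finset.induction_on with
  | empty =>
    simp only [Φ.C.G_empty_DPD1]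
    exact hg
  | insert i po hi ih =>
    have h := ih fun j hj => ht j (Finset.mem_insert_of_mem hj)
    simp only [Φ.C.G_insert_DPD1 hi]
    exact h.add ((ht i (Finset.mem_insert_self _ _)).smul
      (((Φ.C.n i).restrictScalars ℝ).contDiff.contDiffAt.comp z h))

theorem inv_cda_DPD1 (hz : z i.1 ≠ 0) : ContDiffAt ℝ ∞ (fun y : E d => (cov i y)⁻¹ - 1) z :=
  ((cov i).contDiff.contDiffAt.inv (cov_ne_zero.2 hz)).sub contDiffAt_const

theorem UV_DPD1 (hz : ∀ i ∈ po, z i.1 ≠ 0) :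
    Φ.U po z * Φ.C.G_DPD1 po (fun i => cov i z - 1) = 1 :=
  Φ.C.G_inv_DPD1 fun i hi => by
    have := cov_ne_zero.2 (hz i hi)
    field_simp
    ring

theorem lg_ren_DPD1 (k : Fin d) (g : E d → F) (n : ℕ) (z : E d) :
    lg (fun z => z k) (Φ.ren po g) n z =
      Φ.psi n ((z k)⁻¹ • Φ.C.a (k, false) (Φ.U po z (g z))) := by
  have e : fderiv ℝ (fun z : E d => z k) z = cov (k, false) :=
    (ContinuousLinearMap.proj (R := ℝ) (φ := fun _ : Fin d => ℂ) k).fderiv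
  have e2 : (z k)⁻¹ • Φ.C.a (k, false) (Φ.U po z (g z)) =
      Φ.ep ((z k)⁻¹ • cov (k, false)) (Φ.U po z (g z)) := by
    rw [map_smul]
    rfl
  rw [e2]
  cases n with
  | zero => exact (Φ.psi_ep0 _ _).symm
  | succ n =>
    rw [Φ.psi_ep, ← e]
    rfl

theorem a_val_DPD1 (i : Fin d × Bool) (g : Fn Ω F) (z : E d) :
    ((Φ.site Ω c).a i g).1 z = Φ.C.a i (g.1 z) := congrFun (cst_val (Φ.C.a i) g) z

theorem Z_val_DPD1 (hc : c i.1 = 0) (g : Fn Ω F) (z : E d) :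
    ((Φ.site Ω c).Z i g).1 z = (1 + (cov i z - 1) • Φ.C.n i) (g.1 z) := by
  have h0 : cov i c = 0 := by
    by_contra h
    exact cov_ne_zero.1 h hc
  have h1 : ((Φ.site Ω c).n i g).1 z = Φ.C.n i (g.1 z) := by
    have h2 := congrFun (cst_val (Φ.C.a i) (cst Ω (Φ.C.b i) g)) z
    rw [cst_val (Φ.C.b i) g] at h2
    exact h2
  have h3 := congrFun (xc_val c i ((Φ.site Ω c).n i g)) z
  change g.1 z + ((xc Ω F c i ((Φ.site Ω c).n i g)).1 z - ((Φ.site Ω c).n i g).1 z) =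
    g.1 z + (cov i z - 1) • Φ.C.n i (g.1 z)
  rw [h3, h1, map_sub, h0, sub_zero, sub_smul, one_smul]

theorem U_empty (z : E d) : Φ.U ∅ z = 1 := Φ.C.G_empty_DPD1 _
theorem U_insert (h : i ∉ po) (z : E d) :
    Φ.U (insert i po) z = (1 + ((cov i z)⁻¹ - 1) • Φ.C.n i) * Φ.U po z :=
  Φ.C.G_insert_DPD1 h _
theorem U_inv (hz : ∀ i ∈ po, z i.1 ≠ 0) : ∃ V : F →L[ℂ] F, V * Φ.U po z = 1 ∧ Φ.U po z * V = 1 ∧
    ∀ p, ∀ u ∈ Φ.HF p, V u ∈ Φ.HF p := by
  refine ⟨Φ.C.G_DPD1 po fun i => cov i z - 1, Φ.C.G_inv_DPD1 fun i hi => ?_, Φ.UV_DPD1 hz,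
    fun p => Φ.G_HF_DPD1 p po _⟩
  have := cov_ne_zero.2 (hz i hi)
  field_simp
  ring
theorem U_HF (p : ℕ) (po : Finset (Fin d × Bool)) (z : E d) :
    ∀ u ∈ Φ.HF p, Φ.U po z u ∈ Φ.HF p := Φ.G_HF_DPD1 p po _
theorem U_cda (hz : ∀ i ∈ po, z i.1 ≠ 0) : ContDiffAt ℝ ∞ (Φ.U po) z := by
  induction po using Finset.induction_on with
  | empty =>
    rw [show Φ.U ∅ = fun _ => 1 from funext Φ.U_empty]
    exact contDiffAt_const
  | insert i po hi ih =>
    rw [show Φ.U (insert i po) = _ from funext (Φ.U_insert hi)]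
    exact (contDiffAt_const.add ((inv_cda_DPD1 (hz i (Finset.mem_insert_self _ _))).smul
      contDiffAt_const)).mul (ih fun j hj => hz j (Finset.mem_insert_of_mem hj))
theorem ren_congr {g g' : E d → F} (h : g z = g' z) (n : ℕ) :
    Φ.ren po g n z = Φ.ren po g' n z := by
  rw [ren_apply, ren_apply, h]
theorem ren_eq_zero (hz : ∀ i ∈ po, z i.1 ≠ 0) {g : E d → F} :
    (∀ n, Φ.ren po g n z = 0) ↔ g z = 0 := by
  refine ⟨fun h => ?_, fun h n => by rw [ren_apply, h, map_zero, map_zero]⟩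
  obtain ⟨V, h1, -, -⟩ := Φ.U_inv hz
  have h2 : Φ.U po z (g z) = 0 := Φ.ext _ h
  have h3 : (V * Φ.U po z) (g z) = V (Φ.U po z (g z)) := rfl
  rw [h1, h2, map_zero] at h3
  exact h3
theorem ren_ty (hz : ∀ i ∈ po, z i.1 ≠ 0) {g : E d → F} (p : ℕ) :
    (∀ n, tyA (Jc d) p n (Φ.ren po g n z) = 0) ↔ g z ∈ Φ.HF p := by
  refine (Φ.ty_iff p (Φ.U po z (g z))).trans ⟨fun h => ?_, Φ.U_HF p po z _⟩
  obtain ⟨V, h1, -, h2⟩ := Φ.U_inv hz
  have h3 : (V * Φ.U po z) (g z) ∈ Φ.HF p := h2 p _ h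
  rw [h1] at h3
  exact h3
theorem ren_cda (hz : ∀ i ∈ po, z i.1 ≠ 0) {g : E d → F} (hg : ContDiffAt ℝ ∞ g z) (n : ℕ) :
    ContDiffAt ℝ ∞ (Φ.ren po g n) z :=
  ((Φ.psi n).restrictScalars ℝ).contDiff.contDiffAt.comp z
    (Φ.G_cda_DPD1 (t := fun i y => (cov i y)⁻¹ - 1) (fun i hi => inv_cda_DPD1 (hz i hi)) hg)
theorem ren_vac (hz : z ∈ Ω) (n : ℕ) : Φ.ren po (Φ.vacF Ω).1 n z = (oneG : GF (E d)) n z := by
  rw [ren_apply, vacF, Fn.mk_apply _ hz, U_eq_DPD1, G_vac_DPD1, Φ.psi_vac n z]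
theorem ren_a (hk : (k, false) ∈ po) (g : Fn Ω F) (n : ℕ) (z : E d) :
    lg (fun z => z k) (Φ.ren po g.1) n z = Φ.ren po ((Φ.site Ω c).a (k, false) g).1 n z := by
  have h := Φ.C.G_a_DPD1 hk fun i => (cov i z)⁻¹ - 1
  rw [cov_false, add_sub_cancel] at h
  rw [lg_ren_DPD1, ren_apply, a_val_DPD1]
  exact congrArg (Φ.psi n) (DFunLike.congr_fun h (g.1 z)).symm
theorem ren_a_ins (hk : (k, false) ∉ po) (g : Fn Ω F) (n : ℕ) (z : E d) :
    lg (fun z => z k) (Φ.ren po g.1) n z =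
      Φ.ren (insert (k, false) po) ((Φ.site Ω c).a (k, false) g).1 n z := by
  have h := Φ.C.G_a_ins_DPD1 hk fun i => (cov i z)⁻¹ - 1
  rw [cov_false, add_sub_cancel] at h
  rw [lg_ren_DPD1, ren_apply, a_val_DPD1]
  exact congrArg (Φ.psi n) (DFunLike.congr_fun h (g.1 z)).symm
theorem ren_Z (h : i ∉ po) (hc : c i.1 = 0) (hz : z i.1 ≠ 0) (g : Fn Ω F) (n : ℕ) :
    Φ.ren (insert i po) ((Φ.site Ω c).Z i g).1 n z = Φ.ren po g.1 n z := by
  have h1 : Φ.U (insert i po) z * (1 + (cov i z - 1) • Φ.C.n i) = Φ.U po z := by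
    have := cov_ne_zero.2 hz
    rw [Φ.U_insert h, U_eq_DPD1, (Φ.C.G_fc_DPD1 i _).eq, mul_assoc, Φ.C.fi_DPD1, mul_one]
    field_simp
    ring
  rw [ren_apply, ren_apply, Φ.Z_val_DPD1 hc, ← h1]
  rfl
theorem ren_ZZ (hd : Disjoint al J) (hc : ∀ k ∈ J, c k = 0) (hz : z ∈ Rg J) (g : Fn Ω F) (n : ℕ) :
    Φ.ren (pf (al ∪ J)) ((Φ.site Ω c).ZZ J g).1 n z = Φ.ren (pf al) g.1 n z := by
  induction J using Finset.induction_on with
  | empty =>
    rw [Finset.union_empty, Site.ZZ, cp_empty]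
    rfl
  | insert k J hk ih =>
    rw [Finset.disjoint_insert_right] at hd
    have e : pf (al ∪ insert k J) = insert (k, false) (pf (al ∪ J)) := by
      ext ⟨l, t⟩
      cases t <;> simp
    rw [e, Site.ZZ, cp_insert (fun _ _ => Site.Z_comm _ _ _) hk, Module.End.mul_apply,
      Φ.ren_Z (by simp [hk, hd.1]) (hc k (Finset.mem_insert_self _ _))
        (hz k (Finset.mem_insert_self _ _))]
    exact ih hd.2 (fun l hl => hc l (Finset.mem_insert_of_mem hl))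
      fun l hl => hz l (Finset.mem_insert_of_mem hl)
theorem lgL_congr {f g : GF (E d)} (h : ∀ n, f n z = g n z) (L : List (Fin d)) (n : ℕ) :
    lgL L f n z = lgL L g n z := by
  induction L generalizing n with
  | nil => exact h n
  | cons k L ih => exact wG_congr rfl ih n
theorem ren_aL {L : List (Fin d)} (hL : ∀ k ∈ L, (k, false) ∈ po) (g : Fn Ω F) (n : ℕ) (z : E d) :
    lgL L (Φ.ren po g.1) n z = Φ.ren po ((Φ.site Ω c).aL L g).1 n z := by
  induction L generalizing n with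
  | nil =>
    rw [CAR.aL_nil]
    rfl
  | cons k L ih =>
    rw [CAR.aL_cons, Module.End.mul_apply, ← Φ.ren_a (hL k List.mem_cons_self)]
    exact wG_congr rfl (ih fun l hl => hL l (List.mem_cons_of_mem _ hl)) n
theorem ren_wr {L : List (Fin d)} (hL : L.toFinset ⊆ al) (hc : ∀ k ∈ al, c k = 0) (hz : z ∈ Rg al)
    (g : Fn Ω F) (n : ℕ) : lgL L (Φ.ren ∅ g.1) n z =
      Φ.ren (pf al) ((Φ.site Ω c).aL L ((Φ.site Ω c).ZZ (al \ L.toFinset) g)).1 n z := by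
  have h1 : ∀ n, Φ.ren ∅ g.1 n z = Φ.ren (pf al) ((Φ.site Ω c).ZZ al g).1 n z := fun n => by
    have h := Φ.ren_ZZ (Finset.disjoint_empty_left al) hc hz g n
    rw [Finset.empty_union, show pf (∅ : Finset (Fin d)) = ∅ by simp [pf]] at h
    exact h.symm
  rw [lgL_congr h1, Φ.ren_aL (c := c)
    (fun k hk => mem_pf.2 ⟨hL (List.mem_toFinset.2 hk), rfl⟩), ← Module.End.mul_apply,
    (Φ.site Ω c).aL_ZZ'_DPD1 hL, Module.End.mul_apply]
theorem ren_exists (hΩ : ∀ z ∈ Ω, ∀ i ∈ po, z i.1 ≠ 0) {r : ℝ} (hr : 0 < r) {f : GF (E d)}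
    (hf : ∀ n, ContDiffOn ℝ ∞ (f n) (ball c r ∩ Ω)) :
    ∃ g : Fn Ω F, ∀ z ∈ ball c (r / 2) ∩ Ω, ∀ n, f n z = Φ.ren po g.1 n z := by
  have hO : IsOpen (ball c r ∩ (Ω : Set (E d))) := isOpen_ball.inter Ω.isOpen
  have h1 : ContDiffOn ℝ ∞ (fun y => Φ.C.G_DPD1 po (fun i => cov i y - 1)
      (Φ.all fun n => f n y)) (ball c r ∩ Ω) := fun y hy => by
    refine (Φ.G_cda_DPD1 (t := fun i y => cov i y - 1)
      (fun i _ => (cov i).contDiff.contDiffAt.sub contDiffAt_const) ?_).contDiffWithinAt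
    exact ContDiffAt.sum fun n _ => ((Φ.phi n).restrictScalars ℝ).contDiff.contDiffAt.comp y
      ((hf n).contDiffAt (hO.mem_nhds hy))
  obtain ⟨g, hg⟩ := exists_cut hr h1
  refine ⟨g, fun y hy n => ?_⟩
  have h2 := DFunLike.congr_fun (Φ.UV_DPD1 (hΩ y hy.2)) (Φ.all fun n => f n y)
  rw [ren_apply, hg y hy]
  exact ((congrArg (Φ.psi n) h2).trans (Φ.psi_all _ n)).symm

end FK

end Pool.Agent.PWD.Loc
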