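import Pool.Agent.P.MP_65ad7c_ag.DPD1

/-! Pointwise dictionary: the exterior derivative and restriction to strata. -/

open Set Filter Topology TopologicalSpace Metric
open scoped ContDiff ComplexConjugate
open Pool.Agent.HT (Form Alt pull der kill)

noncomputable section
namespace Pool.Agent.PWD.Loc

variable {d : ℕ} {F : Type} [NormedAddCommGroup F] [NormedSpace ℂ F] (Φ : FK d F)
  {Ω : Opens (E d)} {z c : E d} {po : Finset (Fin d × Bool)} {al J : Finset (Fin d)} {k : Fin d}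
  {i : Fin d × Bool}

namespace FK

theorem step_DPD2 (hz : z i.1 ≠ 0) {h : E d → F} (hh : DifferentiableAt ℝ h z)
    (wt : Fin d × Bool → ℂ) :
    ∑ j, wt j • Φ.C.a j (wv j (fderiv ℝ
      (fun y => ((1 : F →L[ℂ] F) + ((cov i y)⁻¹ - 1) • Φ.C.n i) (h y)) z)) =
    ((1 : F →L[ℂ] F) + ((cov i z)⁻¹ - 1) • Φ.C.n i)
      (∑ j, (wt j * if j = i then cov i z else 1) • Φ.C.a j (wv j (fderiv ℝ h z))) := by
  have h0 : cov i z ≠ 0 := cov_ne_zero.2 hz
  have h1 : HasFDerivAt (fun y => (cov i y)⁻¹ - 1) ((-((cov i z) ^ 2)⁻¹) • cov i) z :=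
    ((hasDerivAt_inv h0).comp_hasFDerivAt z (cov i).hasFDerivAt).sub_const 1
  have h2 : HasFDerivAt (fun y => Φ.C.n i (h y))
      (((Φ.C.n i).restrictScalars ℝ).comp (fderiv ℝ h z)) z :=
    ((Φ.C.n i).restrictScalars ℝ).hasFDerivAt.comp z hh.hasFDerivAt
  have h3 : fderiv ℝ (fun y => ((1 : F →L[ℂ] F) + ((cov i y)⁻¹ - 1) • Φ.C.n i) (h y)) z = _ :=
    (hh.hasFDerivAt.fun_add (h1.fun_smul h2)).fderiv
  rw [h3, map_sum]
  refine Finset.sum_congr rfl fun j _ => ?_
  rw [wv_add, wv_add, wv_smul, wv_comp, wv_smulRight, wv_smul, wv_cov]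
  generalize wv j (fderiv ℝ h z) = v
  by_cases hj : j = i
  · subst hj
    have e1 : ∀ u, Φ.C.a j (Φ.C.n j u) = 0 := fun u => congrArg (fun T => T u) (Φ.C.a_n j)
    have e2 : Φ.C.n j (Φ.C.a j v) = Φ.C.a j v := congrArg (fun T => T v) (Φ.C.n_a j)
    simp only [map_add, map_smul, e1, smul_zero, add_zero, if_true, add_apply, smul_apply,
      one_apply_eq_self, e2]
    rw [sub_smul, one_smul, add_sub_cancel, smul_smul, mul_inv_cancel_right₀ h0]
  · have e1 : Φ.C.n i (Φ.C.a j v) = Φ.C.a j (Φ.C.n i v) :=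
      congrArg (fun T => T v) (Φ.C.n_a_ne (Ne.symm hj)).eq
    simp only [map_add, map_smul, if_neg hj, smul_zero, zero_smul, add_zero, mul_one, add_apply,
      smul_apply, one_apply_eq_self, e1]

theorem diff_DPD2 (hp : ∀ i ∈ po, z i.1 ≠ 0) {g : E d → F} (hg : DifferentiableAt ℝ g z) :
    DifferentiableAt ℝ (fun y => Φ.U po y (g y)) z := by
  have h1 := (Φ.U_cda hp).differentiableAt (by simp)
  have h2 : DifferentiableAt ℝ (fun y => (Φ.U po y).restrictScalars ℝ) z :=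
    (ContinuousLinearMap.restrictScalarsL ℂ F F ℝ ℝ).differentiableAt.comp z h1
  exact h2.clm_apply hg

theorem key_DPD2 (hp : ∀ i ∈ po, z i.1 ≠ 0) {g : E d → F} (hg : DifferentiableAt ℝ g z)
    (wt : Fin d × Bool → ℂ) :
    ∑ j, wt j • Φ.C.a j (wv j (fderiv ℝ (fun y => Φ.U po y (g y)) z)) =
      Φ.U po z (∑ j, (wt j * if j ∈ po then cov j z else 1) • Φ.C.a j (wv j (fderiv ℝ g z))) := by
  induction po using Finset.induction_on generalizing wt with
  | empty => simp [U_empty]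
  | insert i po hi ih =>
    have hp' : ∀ j ∈ po, z j.1 ≠ 0 := fun j hj => hp j (Finset.mem_insert_of_mem hj)
    simp only [Φ.U_insert hi, mul_apply_eq_comp]
    rw [Φ.step_DPD2 (hp i (Finset.mem_insert_self _ _)) (Φ.diff_DPD2 hp' hg), ih hp']
    congr 2
    refine Finset.sum_congr rfl fun j _ => ?_
    congr 1
    by_cases hj : j = i
    · subst hj
      simp [hi]
    · simp [hj]

theorem delta_DPD2 (hz : z ∈ Ω) (hc : ∀ i ∈ po, c i.1 = 0) (g : Fn Ω F) :
    ((Φ.site Ω c).δ po g).1 z =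
      ∑ j, (1 * if j ∈ po then cov j z else 1) • Φ.C.a j (wv j (fderiv ℝ g.1 z)) := by
  rw [Site.δ, LinearMap.sum_apply, Submodule.coe_sum, Finset.sum_apply]
  refine Finset.sum_congr rfl fun j _ => ?_
  show (cst Ω (Φ.C.a j) ((Φ.site Ω c).X po j g)).1 z = _
  rw [cst_val, Site.X]
  by_cases hj : j ∈ po
  · have h0 : cov j c = 0 := not_not.1 fun h => cov_ne_zero.1 h (hc j hj)
    rw [if_pos hj, if_pos hj]
    show Φ.C.a j ((xc Ω F c j (dw Ω F j g)).1 z) = _
    rw [xc_val]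
    simp only [dw_apply j g hz, map_sub, h0, sub_zero, map_smul, one_mul]
  · rw [if_neg hj, if_neg hj]
    show Φ.C.a j ((dw Ω F j g).1 z) = _
    rw [dw_apply j g hz, one_mul, one_smul]

theorem ren_δ (hz : z ∈ Ω) (hp : ∀ i ∈ po, z i.1 ≠ 0) (hc : ∀ i ∈ po, c i.1 = 0) (g : Fn Ω F)
    (n : ℕ) : dG (Φ.ren po g.1) n z = Φ.ren po ((Φ.site Ω c).δ po g).1 n z := by
  have h1 := Φ.key_DPD2 hp (Fn.diff g hz) fun _ => 1
  rw [ren_apply, Φ.delta_DPD2 hz hc, ← h1]
  simp only [one_smul]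
  cases n with
  | zero =>
    rw [map_sum]
    exact (Finset.sum_eq_zero fun j _ => Φ.psi_ep0 _ _).symm
  | succ n =>
    rw [psi_d]
    exact congrArg ContinuousAlternatingMap.alternatizeUncurryFin
      (((Φ.psi n).restrictScalars ℝ).hasFDerivAt.comp z
        (Φ.diff_DPD2 hp (Fn.diff g hz)).hasFDerivAt).fderiv

theorem n_DPD2 (i : Fin d × Bool) : 1 - (Φ.site Ω c).n i = cst Ω (1 - Φ.C.n i) := by
  rw [cst_sub, cst_one, CAR.n, CAR.n, cst_mul]
  rfl

theorem comm_DPD2 {T : F →L[ℂ] F} (h : ∀ i, Commute T (Φ.C.n i)) (k : Fin d) :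
    Commute T ((1 - Φ.C.n (k, true)) * (1 - Φ.C.n (k, false))) :=
  ((Commute.one_right _).sub_right (h _)).mul_right ((Commute.one_right _).sub_right (h _))

theorem kR_DPD2 (J : Finset (Fin d)) (z : E d) (l : Fin d) :
    kR J z l = if l ∈ J then 0 else z l := by
  split_ifs with h
  · exact HT.kill_of_mem (Finset.mem_coe.2 h) z
  · exact HT.kill_of_notMem (mt Finset.mem_coe.1 h) z

theorem PP_apply (hc : ∀ k ∈ J, c k = 0) (g : Fn (⊤ : Opens (E d)) F) (z : E d) :
    ((Φ.site ⊤ c).PP J g).1 z =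
      cp J (fun k => (1 - Φ.C.n (k, true)) * (1 - Φ.C.n (k, false))) (g.1 (kR J z)) := by
  induction J using Finset.induction_on generalizing z with
  | empty =>
    have e : kR ∅ z = z := funext fun l => by simp [kR_DPD2]
    simp [Site.PP, e]
  | insert k J hk ih =>
    have e : kR (insert k J) z = kR J (Function.update z k (c k)) := funext fun l => by
      rw [kR_DPD2, kR_DPD2]
      by_cases hl : l = k
      · subst hl
        simp [hc l (Finset.mem_insert_self _ _)]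
      · simp [hl]
    rw [Site.PP, cp_insert (Site.P_comm _) hk, cp_insert (fun k l => Φ.comm_DPD2
      (fun i => (Φ.comm_DPD2 (Φ.C.n_comm i) k).symm) l) hk, Site.P, n_DPD2, n_DPD2, e]
    show (evc ⊤ F c k (cst ⊤ _ (cst ⊤ _ ((Φ.site ⊤ c).PP J g)))).1 z = _
    rw [evc_apply (Ω := ⊤) (fun _ _ => Opens.mem_top _) _ (Opens.mem_top z), cst_val, cst_val]
    simp only [ih fun l hl => hc l (Finset.mem_insert_of_mem hl)]
    rfl

theorem ren_PP (hc : ∀ k ∈ J, c k = 0) (hp : ∀ i ∈ po, i.1 ∉ J) (g : Fn (⊤ : Opens (E d)) F)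
    (n : ℕ) (z : E d) :
    pullG (kR J) (Φ.ren po g.1) n z = Φ.ren po ((Φ.site ⊤ c).PP J g).1 n z := by
  have e : Φ.U po (kR J z) = Φ.U po z := by
    unfold U cp
    refine congrArg List.prod (List.map_congr_left fun i hi => ?_)
    have h1 : kR J z i.1 = z i.1 := by rw [kR_DPD2, if_neg (hp i (Finset.mem_toList.1 hi))]
    have h2 : cov i (kR J z) = cov i z := by
      unfold cov
      split_ifs <;> simp [h1]
    rw [h2]
  have hcm : Commute (Φ.U po z)
      (cp J fun k => (1 - Φ.C.n (k, true)) * (1 - Φ.C.n (k, false))) :=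
    commute_cp fun k _ => Φ.comm_DPD2 (fun i => (commute_cp fun j _ =>
      (Commute.one_right _).add_right ((Φ.C.n_comm i j).smul_right _)).symm) k
  rw [ren_apply, Φ.PP_apply hc]
  show (Φ.psi n (Φ.U po (kR J z) (g.1 (kR J z)))).compContinuousLinearMap
    (fderiv ℝ (kR J) z) = _
  rw [ContinuousLinearMap.fderiv, ← psi_kill, e]
  exact congrArg (fun T : F →L[ℂ] F => Φ.psi n (T (g.1 (kR J z)))) hcm.eq.symm

end FK

end Pool.Agent.PWD.Loc
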