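import Pool.Agent.P.MP_65ad7c_ag.DPG0

/-! Consequences of the anticommutation relations. -/

noncomputable section
namespace Pool.Agent.PWD.Loc

variable {K R : Type} [DecidableEq K] [Ring R] [Algebra ℂ R]

theorem half_DPG1 {y : R} (h : y + y = 0) : y = 0 := by
  have h2 : y = (2 : ℂ)⁻¹ • (y + y) := by
    rw [← two_smul ℂ y, smul_smul, inv_mul_cancel₀ two_ne_zero, one_smul]
  rw [h2, h, smul_zero]

namespace CAR
variable (s : CAR K R) {i j : K × Bool}

theorem a_a (i : K × Bool) : s.a i * s.a i = 0 := half_DPG1 (s.aa i i)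
theorem b_b (i : K × Bool) : s.b i * s.b i = 0 := half_DPG1 (s.bb i i)
theorem b_a (i : K × Bool) : s.b i * s.a i = 1 - s.n i := 
  eq_sub_of_add_eq (by simpa [n] using s.car i i)
theorem b_a_ne (h : i ≠ j) : s.b i * s.a j = -(s.a j * s.b i) := eq_neg_of_add_eq_zero_left (by simpa [h] using s.car i j)
theorem a_swap (i j : K × Bool) : s.a i * s.a j = -(s.a j * s.a i) := eq_neg_of_add_eq_zero_left (s.aa i j)
theorem b_swap (i j : K × Bool) : s.b i * s.b j = -(s.b j * s.b i) := eq_neg_of_add_eq_zero_left (s.bb i j)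
theorem a_n (i : K × Bool) : s.a i * s.n i = 0 := by rw [n, ← mul_assoc, a_a, zero_mul]
theorem n_a (i : K × Bool) : s.n i * s.a i = s.a i := by
  have h := s.a_n i
  rw [n, mul_assoc, b_a, mul_sub, h, sub_zero, mul_one]
theorem n_n (i : K × Bool) : s.n i * s.n i = s.n i := by
  have h := s.n_a i
  rw [n] at h ⊢
  rw [← mul_assoc, h]
theorem b_n (i : K × Bool) : s.b i * s.n i = s.b i := by
  rw [n, ← mul_assoc, b_a, sub_mul, one_mul, n, mul_assoc, b_b, mul_zero, sub_zero]
theorem n_b (i : K × Bool) : s.n i * s.b i = 0 := by rw [n, mul_assoc, b_b, mul_zero]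
theorem n_a_ne (h : i ≠ j) : Commute (s.n i) (s.a j) := by
  rw [Commute, SemiconjBy, n, mul_assoc, s.b_a_ne h, mul_neg, ← mul_assoc, s.a_swap i j, neg_mul,
    neg_neg, mul_assoc]
theorem n_b_ne (h : i ≠ j) : Commute (s.n i) (s.b j) := by
  rw [Commute, SemiconjBy, n, mul_assoc, s.b_swap i j, ← mul_assoc, s.b_a_ne h.symm, mul_neg,
    neg_mul, mul_assoc]
theorem n_comm (i j : K × Bool) : Commute (s.n i) (s.n j) := by
  by_cases h : i = j
  · rw [h]
  · exact (s.n_a_ne h).mul_right (s.n_b_ne h)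
omit [Algebra ℂ R] in
@[simp] theorem aL_nil : s.aL [] = 1 := rfl
omit [Algebra ℂ R] in
@[simp] theorem aL_cons (k : K) (L : List K) : s.aL (k :: L) = s.a (k, false) * s.aL L := rfl
theorem aL_perm {L L' : List K} (h : L.Perm L') : s.aL L = s.aL L' ∨ s.aL L = -s.aL L' := by
  induction h with
  | nil => exact Or.inl rfl
  | cons k _ ih =>
    rcases ih with h | h
    · exact Or.inl (by rw [aL_cons, aL_cons, h])
    · exact Or.inr (by rw [aL_cons, aL_cons, h, mul_neg])
  | swap k l L =>
    exact Or.inr (by simp only [aL_cons, ← mul_assoc]; rw [s.a_swap (l, false), neg_mul])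
  | trans _ _ h1 h2 =>
    rcases h1 with h1 | h1 <;> rcases h2 with h2 | h2 <;> rw [h1, h2] <;> simp
theorem a_aL (i : K × Bool) (L : List K) :
    s.a i * s.aL L = (-1 : ℂ) ^ L.length • (s.aL L * s.a i) := by
  induction L with
  | nil => simp
  | cons k L ih =>
    rw [aL_cons, ← mul_assoc, s.a_swap, neg_mul, mul_assoc, ih, List.length_cons, pow_succ,
      mul_smul_comm, mul_neg_one, neg_smul, mul_assoc]
theorem b_aL {L : List K} (h : i.2 = true ∨ i.1 ∉ L) :
    s.b i * s.aL L = (-1 : ℂ) ^ L.length • (s.aL L * s.b i) := by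
  induction L with
  | nil => simp
  | cons k L ih =>
    have h1 : i ≠ (k, false) := by
      rintro rfl
      simp at h
    rw [aL_cons, ← mul_assoc, s.b_a_ne h1, neg_mul, mul_assoc,
      ih (h.imp_right fun h hm => h (List.mem_cons_of_mem _ hm)), List.length_cons, pow_succ,
      mul_smul_comm, mul_neg_one, neg_smul, mul_assoc]
theorem n_aL_of_mem {L : List K} {k : K} (h : k ∈ L) : s.n (k, false) * s.aL L = s.aL L := by
  induction L with
  | nil => simp at h
  | cons l L ih =>
    by_cases e : k = l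
    · rw [aL_cons, ← mul_assoc, e, n_a]
    · rw [aL_cons, ← mul_assoc, (s.n_a_ne (by simpa using e)).eq, mul_assoc,
        ih ((List.mem_cons.1 h).resolve_left e)]
omit [Algebra ℂ R] in
theorem commute_aL {T : R} {L : List K} (h : ∀ k ∈ L, Commute T (s.a (k, false))) :
    Commute T (s.aL L) := Commute.list_prod_right _ _ fun y hy => by
  obtain ⟨k, hk, rfl⟩ := List.mem_map.1 hy
  exact h k hk
theorem n_aL {L : List K} (h : i.2 = true ∨ i.1 ∉ L) : Commute (s.n i) (s.aL L) := s.commute_aL fun k hk => s.n_a_ne (by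
  rintro rfl
  simp [hk] at h)
theorem Nh_a [Fintype K] (k : K) : s.Nh * s.a (k, false) = s.a (k, false) * (s.Nh + 1) := by
  have h : Commute (∑ l ∈ Finset.univ.erase k, s.n (l, false)) (s.a (k, false)) :=
    Commute.sum_left _ _ _ fun l hl => s.n_a_ne (by simpa using hl)
  rw [Nh, ← Finset.add_sum_erase _ _ (Finset.mem_univ k), add_mul, h.eq, n_a, mul_add, mul_add, a_n,
    zero_add, mul_one, add_comm]
theorem Nh_b [Fintype K] (k : K) : s.Nh * s.b (k, false) = s.b (k, false) * (s.Nh - 1) := by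
  have h : Commute (∑ l ∈ Finset.univ.erase k, s.n (l, false)) (s.b (k, false)) :=
    Commute.sum_left _ _ _ fun l hl => s.n_b_ne (by simpa using hl)
  rw [Nh, ← Finset.add_sum_erase _ _ (Finset.mem_univ k), add_mul, h.eq, n_b, mul_sub, mul_add, b_n,
    zero_add, mul_one, add_sub_cancel_left]
theorem Nh_a' [Fintype K] (k : K) : Commute s.Nh (s.a (k, true)) := Commute.sum_left _ _ _ fun l _ => s.n_a_ne (by simp)
theorem Nh_b' [Fintype K] (k : K) : Commute s.Nh (s.b (k, true)) := Commute.sum_left _ _ _ fun l _ => s.n_b_ne (by simp)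

end CAR

end Pool.Agent.PWD.Loc
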