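import Pool.Agent.P.MP_65ad7c_ag.DPA1
import Pool.Agent.P.MP_65ad7c_ag.DPG1
import Pool.Agent.P.MP_65ad7c_ag.DL1

/-! Creation and annihilation operators of a Fock space. -/

open Set Filter Topology TopologicalSpace Metric
open scoped ContDiff ComplexConjugate
open Pool.Agent.HT (Form Alt pull der kill)

noncomputable section
namespace Pool.Agent.PWD.Loc

variable {d : ℕ} {F : Type} [NormedAddCommGroup F] [NormedSpace ℂ F] (Φ : FK d F)

/-- the complex structure -/
abbrev Jc (d : ℕ) : E d →L[ℝ] E d := Complex.I • ContinuousLinearMap.id ℝ _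

/-- the projection that kills the coordinates in `J` -/
def kR (J : Finset (Fin d)) : E d →L[ℝ] E d := (kill (J : Set (Fin d))).restrictScalars ℝ

namespace FK

theorem wv_anti_DPF2 (i : Fin d × Bool) (T : F →L[ℂ] F) :
    wv i Φ.io * T + T * wv i Φ.io =
      (2⁻¹ : ℂ) • ((Φ.io (Pi.single i.1 1) * T + T * Φ.io (Pi.single i.1 1)) +
        (if i.2 then Complex.I else -Complex.I) •
          (Φ.io (Pi.single i.1 Complex.I) * T + T * Φ.io (Pi.single i.1 Complex.I))) := by
  simp only [wv, smul_mul_assoc, mul_smul_comm, add_mul, mul_add, smul_add]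
  abel

theorem car_aux (i j : Fin d × Bool) :
    wv i Φ.io * Φ.ep (cov j) + Φ.ep (cov j) * wv i Φ.io = if i = j then 1 else 0 := by
  have h : wv i Φ.io * Φ.ep (cov j) + Φ.ep (cov j) * wv i Φ.io = wv i (cov j) • 1 := by
    rw [wv_anti_DPF2, Φ.car, Φ.car, wv, smul_assoc, add_smul, smul_assoc]
  rw [h, wv_cov, ite_smul, one_smul, zero_smul]

theorem bb_aux (i j : Fin d × Bool) : wv i Φ.io * wv j Φ.io + wv j Φ.io * wv i Φ.io = 0 := by
  have h : ∀ v, Φ.io v * wv j Φ.io + wv j Φ.io * Φ.io v = 0 := fun v => by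
    rw [add_comm, wv_anti_DPF2, Φ.anti_io, Φ.anti_io, smul_zero, add_zero, smul_zero]
  rw [wv_anti_DPF2, h, h, smul_zero, add_zero, smul_zero]

/-- the operators `dz_k ∧` and their duals -/
def C : CAR (Fin d) (F →L[ℂ] F) where
  a i := Φ.ep (cov i)
  b i := wv i Φ.io
  car := Φ.car_aux
  aa _ _ := Φ.anti_ep _ _
  bb := Φ.bb_aux

/-- the vacuum -/
def vac : F := Φ.phi 0 (ContinuousAlternatingMap.constOfIsEmpty ℝ (E d) (Fin 0) (1 : ℂ))

/-- the vector with given components -/
def all (u : ∀ n, Alt (E d) n) : F := ∑ n ∈ Finset.range (2 * d + 1), Φ.phi n (u n)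

/-- holomorphic degree at least `p` -/
def HF (p : ℕ) : Submodule ℂ F :=
  ⨆ (b : ℕ) (_ : p ≤ b), Module.End.eigenspace (Φ.C.Nh : F →L[ℂ] F).toLinearMap (b : ℂ)

theorem ep_eq (l : E d →L[ℝ] ℂ) : Φ.ep l = ∑ i, wv i l • Φ.C.a i := by
  have h : l = ∑ i, wv i l • cov i := by
    ext1 v
    rw [← sum_cov_wv l v, sum_apply]
    exact Finset.sum_congr rfl fun i _ => mul_comm _ _
  refine (congrArg Φ.ep h).trans ?_
  rw [map_sum]
  exact Finset.sum_congr rfl fun i _ => map_smul _ _ _

theorem io_eq (v : E d) : Φ.io v = ∑ i, cov i v • Φ.C.b i := (sum_cov_wv Φ.io v).symm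

theorem alt_eq_zero {n : ℕ} (h : 2 * d < n) (a : Alt (E d) n) : a = 0 := by
  ext v
  refine a.toAlternatingMap.map_linearDependent v fun hv => ?_
  have h1 := hv.fintype_card_le_finrank
  rw [Fintype.card_fin, Module.finrank_pi_fintype] at h1
  simp only [Complex.finrank_real_complex, Finset.sum_const, Finset.card_univ, Fintype.card_fin,
    smul_eq_mul] at h1
  omega

theorem psi_all (u : ∀ n, Alt (E d) n) (n : ℕ) : Φ.psi n (Φ.all u) = u n := by
  rw [all, map_sum, Finset.sum_eq_single n, Φ.psi_phi]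
  · exact fun m _ hm => Φ.psi_phi_ne m n _ hm.symm
  · intro hn
    exact alt_eq_zero (by rw [Finset.mem_range] at hn; omega) _

theorem all_psi (u : F) : Φ.all (fun n => Φ.psi n u) = u :=
  sub_eq_zero.1 (Φ.ext _ fun n => by rw [map_sub, psi_all, sub_self])

theorem psi_vac (n : ℕ) (z : E d) : Φ.psi n Φ.vac = (oneG : GF (E d)) n z := by
  cases n with
  | zero => rw [vac, Φ.psi_phi, oneG, Pi.single_eq_same]
  | succ n =>
    rw [vac, Φ.psi_phi_ne 0 (n + 1) _ (Nat.succ_ne_zero n), oneG,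
      Pi.single_eq_of_ne (Nat.succ_ne_zero n)]
    rfl

theorem psi_vac_zero_DPF2 (v : Fin 0 → E d) : Φ.psi 0 Φ.vac v = 1 := by
  rw [vac, Φ.psi_phi]
  rfl

theorem psi_vac_succ_DPF2 (n : ℕ) : Φ.psi (n + 1) Φ.vac = 0 :=
  Φ.psi_phi_ne 0 (n + 1) _ (Nat.succ_ne_zero n)

theorem psi_cons_DPF2 (n : ℕ) (u : F) (w : Fin (n + 1) → E d) :
    Φ.psi (n + 1) u w = Φ.psi n (Φ.io (w 0) u) (Fin.tail w) := by
  rw [Φ.psi_io, ContinuousAlternatingMap.curryLeft_apply_apply]
  exact congrArg _ (Fin.cons_self_tail w).symm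

theorem vac_ne : Φ.vac ≠ 0 := fun h => by
  have h1 := Φ.psi_vac_zero_DPF2 Fin.elim0
  rw [h, map_zero] at h1
  exact zero_ne_one h1

theorem b_vac (i : Fin d × Bool) : Φ.C.b i Φ.vac = 0 := by
  have h : ∀ v, Φ.io v Φ.vac = 0 := fun v => Φ.ext _ fun n => by
    rw [Φ.psi_io, psi_vac_succ_DPF2]
    ext w
    rw [ContinuousAlternatingMap.curryLeft_apply_apply]
    rfl
  show wv i Φ.io Φ.vac = 0
  rw [wv, smul_apply, add_apply, smul_apply, h, h, smul_zero, add_zero, smul_zero]

theorem ker_b {u : F} (h : ∀ i, Φ.C.b i u = 0) : ∃ c : ℂ, u = c • Φ.vac := by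
  have h1 : ∀ v, Φ.io v u = 0 := fun v => by
    rw [io_eq, sum_apply]
    exact Finset.sum_eq_zero fun i _ => by
      rw [smul_apply, h, smul_zero]
  refine ⟨Φ.psi 0 u Fin.elim0, sub_eq_zero.1 (Φ.ext _ fun n => ?_)⟩
  rw [map_sub, map_smul, sub_eq_zero]
  ext w
  cases n with
  | zero =>
    rw [ContinuousAlternatingMap.smul_apply, psi_vac_zero_DPF2, smul_eq_mul, mul_one]
    exact congrArg _ (Subsingleton.elim _ _)
  | succ n =>
    rw [psi_vac_succ_DPF2, ContinuousAlternatingMap.smul_apply, psi_cons_DPF2, h1, map_zero]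
    exact (smul_zero _).symm

/-- an operator that intertwines the contractions is a pull-back -/
theorem psi_comp {T : F →L[ℂ] F} {M : E d →L[ℝ] E d} (h : ∀ v, Φ.io v * T = T * Φ.io (M v))
    (h0 : ∀ u, Φ.psi 0 (T u) = Φ.psi 0 u) (n : ℕ) (u : F) :
    Φ.psi n (T u) = (Φ.psi n u).compContinuousLinearMap M := by
  induction n generalizing u with
  | zero =>
    ext w
    rw [h0, ContinuousAlternatingMap.compContinuousLinearMap_apply]
    exact congrArg _ (Subsingleton.elim _ _)
  | succ n ih =>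
    ext w
    have e : Φ.io (w 0) (T u) = T (Φ.io (M (w 0)) u) := DFunLike.congr_fun (h (w 0)) u
    rw [psi_cons_DPF2, e, ih, ContinuousAlternatingMap.compContinuousLinearMap_apply,
      ContinuousAlternatingMap.compContinuousLinearMap_apply, psi_cons_DPF2]
    rfl

theorem cov_kR_DPF2 (J : Finset (Fin d)) (i : Fin d × Bool) (v : E d) :
    cov i (kR J v) = if i.1 ∈ J then 0 else cov i v := by
  obtain ⟨k, t⟩ := i
  have h : kR J v k = if k ∈ J then 0 else v k := by
    split_ifs with hk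
    · exact Pool.Agent.HT.kill_of_mem (Finset.mem_coe.2 hk) v
    · exact Pool.Agent.HT.kill_of_notMem (fun h => hk (Finset.mem_coe.1 h)) v
  cases t
  · rw [cov_false, cov_false, h]
  · rw [cov_true, cov_true, h, apply_ite (starRingEnd ℂ), map_zero]

theorem b_proj_DPF2 {K R : Type} [DecidableEq K] [Ring R] [Algebra ℂ R] (s : CAR K R)
    (i : K × Bool) : s.b i * ((1 - s.n (i.1, true)) * (1 - s.n (i.1, false))) = 0 := by
  have h : ∀ j, s.b j * (1 - s.n j) = 0 := fun j => by rw [mul_sub, mul_one, s.b_n, sub_self]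
  obtain ⟨k, t⟩ := i
  cases t
  · have c : Commute (1 - s.n (k, true)) (1 - s.n (k, false)) :=
      (Commute.one_left _).sub_left ((Commute.one_right _).sub_right (s.n_comm _ _))
    rw [c.eq, ← mul_assoc, h, zero_mul]
  · rw [← mul_assoc, h, zero_mul]

theorem psi_kill (J : Finset (Fin d)) (n : ℕ) (u : F) :
    Φ.psi n (cp J (fun k => (1 - Φ.C.n (k, true)) * (1 - Φ.C.n (k, false))) u) =
      (Φ.psi n u).compContinuousLinearMap (kR J) := by
  have c1 : ∀ i j, Commute (1 - Φ.C.n i) (1 - Φ.C.n j) := fun i j =>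
    (Commute.one_left _).sub_left ((Commute.one_right _).sub_right (Φ.C.n_comm i j))
  have c2 : ∀ k l : Fin d, Commute ((1 - Φ.C.n (k, true)) * (1 - Φ.C.n (k, false)))
      ((1 - Φ.C.n (l, true)) * (1 - Φ.C.n (l, false))) := fun k l =>
    ((c1 _ _).mul_right (c1 _ _)).mul_left ((c1 _ _).mul_right (c1 _ _))
  refine Φ.psi_comp (fun v => ?_) (fun u => ?_) n u
  · rw [io_eq, io_eq, Finset.sum_mul, Finset.mul_sum]
    refine Finset.sum_congr rfl fun i _ => ?_
    rw [smul_mul_assoc, mul_smul_comm, cov_kR_DPF2]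
    split_ifs with hi
    · rw [cp_erase c2 hi, ← mul_assoc, b_proj_DPF2, zero_mul, smul_zero, zero_smul]
    · refine congrArg _ (commute_cp fun k hk => ?_).eq
      have c3 : ∀ t, Commute (Φ.C.b i) (1 - Φ.C.n (k, t)) := fun t =>
        (Commute.one_right _).sub_right
          (Φ.C.n_b_ne fun e => hi (by rw [← e]; exact hk)).symm
      exact (c3 _).mul_right (c3 _)
  · have h1 : ∀ i u, Φ.psi 0 ((1 - Φ.C.n i) u) = Φ.psi 0 u := fun i u => by
      have e : Φ.psi 0 (Φ.C.n i u) = 0 := Φ.psi_ep0 (cov i) (Φ.C.b i u)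
      rw [sub_apply, map_sub, e, sub_zero]
      rfl
    induction J using Finset.induction_on with
    | empty =>
      rw [cp_empty]
      rfl
    | insert k J hk ih =>
      rw [cp_insert c2 hk]
      exact (h1 _ _).trans ((h1 _ _).trans ih)

/-- the exterior derivative in terms of creation operators -/
theorem psi_d (L : E d →L[ℝ] F) (n : ℕ) :
    Φ.psi (n + 1) (∑ i, Φ.C.a i (wv i L)) = ContinuousAlternatingMap.alternatizeUncurryFin
      (((Φ.psi n).restrictScalars ℝ).comp L) := by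
  have h : ((Φ.psi n).restrictScalars ℝ).comp L =
      ∑ i, (cov i).smulRight (Φ.psi n (wv i L)) := by
    ext1 v
    have e : Φ.psi n (L v) = ∑ i, cov i v • Φ.psi n (wv i L) := by
      rw [← sum_cov_wv L v, map_sum]
      exact Finset.sum_congr rfl fun i _ => map_smul _ _ _
    rw [sum_apply]
    exact e
  rw [h, map_sum, ← ContinuousAlternatingMap.alternatizeUncurryFinCLM_apply, map_sum]
  exact Finset.sum_congr rfl fun i _ => Φ.psi_ep n (cov i) (wv i L)

end FK

end Pool.Agent.PWD.Loc
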