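import Pool.Agent.P.MP_65ad7c_ag.DPF2

/-! The filtration by holomorphic degree. -/

open Set Filter Topology TopologicalSpace Metric
open scoped ContDiff ComplexConjugate
open Pool.Agent.HT (Form Alt pull der kill)

noncomputable section
namespace Pool.Agent.PWD.Loc

variable {d : ℕ} {F : Type} [NormedAddCommGroup F] [NormedSpace ℂ F] (Φ : FK d F)

namespace FK

theorem smul_zero_DPF3 {n : ℕ} (c : ℂ) : c • (0 : Alt (E d) n) = 0 := by ext; simp

theorem zero_smul_DPF3 {n : ℕ} (a : Alt (E d) n) : (0 : ℂ) • a = 0 := by ext; simp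

theorem cancel_DPF3 {n : ℕ} {c : ℂ} (hc : c ≠ 0) {a : Alt (E d) n} (h : c • a = 0) : a = 0 := by
  ext v
  have := congrArg (fun b : Alt (E d) n => b v) h
  simpa [hc] using this

theorem mem_HF_DPF3 {p b : ℕ} (h : p ≤ b) {u : F} (hu : Φ.C.Nh u = (b : ℂ) • u) : u ∈ Φ.HF p :=
  Submodule.mem_iSup_of_mem b (Submodule.mem_iSup_of_mem h (Module.End.mem_eigenspace_iff.2 hu))

theorem HF_le_DPF3 {p : ℕ} {Q : Submodule ℂ F}
    (h : ∀ b, p ≤ b → ∀ u, Φ.C.Nh u = (b : ℂ) • u → u ∈ Q) : Φ.HF p ≤ Q :=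
  iSup₂_le fun b hb u hu => h b hb u (Module.End.mem_eigenspace_iff.1 hu)

theorem HF_map_DPF3 {p : ℕ} {Q : Submodule ℂ F} (T : F →L[ℂ] F)
    (h : ∀ b, p ≤ b → ∀ u, Φ.C.Nh u = (b : ℂ) • u → T u ∈ Q) : ∀ u ∈ Φ.HF p, T u ∈ Q :=
  fun _ hu => Φ.HF_le_DPF3 (Q := Q.comap T.toLinearMap) h hu

theorem sum_eig_DPF3 {K : Type} [DecidableEq K] (e : K → F →L[ℂ] F) (h1 : ∀ k, e k * e k = e k)
    (h2 : ∀ k l, Commute (e k) (e l)) (J : Finset K) :
    ⨆ b : ℕ, Module.End.eigenspace (∑ k ∈ J, e k).toLinearMap (b : ℂ) = ⊤ := by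
  induction J using Finset.induction_on with
  | empty =>
    refine top_unique fun u _ => Submodule.mem_iSup_of_mem 0 (Module.End.mem_eigenspace_iff.2 ?_)
    simp
  | insert k J hk ih =>
    refine top_unique (ih.symm.le.trans (iSup_le fun b u hu => ?_))
    have hu' : (∑ l ∈ J, e l) u = (b : ℂ) • u := Module.End.mem_eigenspace_iff.1 hu
    have hc : Commute (∑ l ∈ J, e l) (e k) := Commute.sum_left _ _ _ fun l _ => h2 l k
    have a1 : (∑ l ∈ J, e l) (e k u) = (b : ℂ) • e k u := by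
      rw [← mul_apply_eq_comp, hc.eq, mul_apply_eq_comp, hu', map_smul]
    have a2 : e k (e k u) = e k u := by rw [← mul_apply_eq_comp, h1]
    rw [← add_sub_cancel (e k u) u, Finset.sum_insert hk]
    refine Submodule.add_mem _
      (Submodule.mem_iSup_of_mem (b + 1) (Module.End.mem_eigenspace_iff.2 ?_))
      (Submodule.mem_iSup_of_mem b (Module.End.mem_eigenspace_iff.2 ?_))
    · change e k (e k u) + (∑ l ∈ J, e l) (e k u) = _
      rw [a1, a2, Nat.cast_succ, add_smul, one_smul, add_comm]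
    · change e k (u - e k u) + (∑ l ∈ J, e l) (u - e k u) = _
      rw [map_sub, map_sub, a1, a2, hu', sub_self, zero_add, smul_sub]

theorem comm_HF_DPF3 {T : F →L[ℂ] F} (h : Commute Φ.C.Nh T) (p : ℕ) :
    ∀ u ∈ Φ.HF p, T u ∈ Φ.HF p :=
  Φ.HF_map_DPF3 T fun b hb u hu => Φ.mem_HF_DPF3 hb (by
    rw [← mul_apply_eq_comp, h.eq, mul_apply_eq_comp, hu, map_smul])

theorem eig_b_DPF3 (k : Fin d) {e : ℕ} {u : F} (hu : Φ.C.Nh u = ((e + 1 : ℕ) : ℂ) • u) :
    Φ.C.Nh (Φ.C.b (k, false) u) = (e : ℂ) • Φ.C.b (k, false) u := by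
  rw [← mul_apply_eq_comp, Φ.C.Nh_b, mul_apply_eq_comp,
    _root_.sub_apply, hu, one_apply_eq_self, Nat.cast_succ, add_smul,
    one_smul, add_sub_cancel_right, map_smul]

theorem HF_zero : Φ.HF 0 = ⊤ := by
  refine top_unique ((sum_eig_DPF3 (fun k => Φ.C.n (k, false)) (fun _ => Φ.C.n_n _)
    (fun _ _ => Φ.C.n_comm _ _) Finset.univ).symm.le.trans (iSup_le fun b u hu => ?_))
  exact Φ.mem_HF_DPF3 (Nat.zero_le b) (Module.End.mem_eigenspace_iff.1 hu)
theorem HF_anti (p : ℕ) : Φ.HF (p + 1) ≤ Φ.HF p :=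
  Φ.HF_le_DPF3 fun _ hb _ hu => Φ.mem_HF_DPF3 (Nat.le_of_succ_le hb) hu
theorem HF_a (p : ℕ) (k : Fin d) : ∀ u ∈ Φ.HF p, Φ.C.a (k, false) u ∈ Φ.HF (p + 1) :=
  Φ.HF_map_DPF3 _ fun b hb u hu => Φ.mem_HF_DPF3 (Nat.succ_le_succ hb) (by
    rw [← mul_apply_eq_comp, Φ.C.Nh_a, mul_apply_eq_comp,
      _root_.add_apply, hu, one_apply_eq_self, Nat.cast_succ, add_smul,
      one_smul, map_add, map_smul])
theorem HF_b (p : ℕ) (k : Fin d) : ∀ u ∈ Φ.HF (p + 1), Φ.C.b (k, false) u ∈ Φ.HF p :=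
  Φ.HF_map_DPF3 _ fun b hb u hu => by
    obtain ⟨e, rfl⟩ : ∃ e, b = e + 1 := ⟨b - 1, by omega⟩
    exact Φ.mem_HF_DPF3 (Nat.le_of_succ_le_succ hb) (Φ.eig_b_DPF3 k hu)
theorem HF_a' (p : ℕ) (k : Fin d) : ∀ u ∈ Φ.HF p, Φ.C.a (k, true) u ∈ Φ.HF p :=
  Φ.comm_HF_DPF3 (Φ.C.Nh_a' k) p
theorem HF_b' (p : ℕ) (k : Fin d) : ∀ u ∈ Φ.HF p, Φ.C.b (k, true) u ∈ Φ.HF p :=
  Φ.comm_HF_DPF3 (Φ.C.Nh_b' k) p
theorem HF_n (p : ℕ) (i : Fin d × Bool) : ∀ u ∈ Φ.HF p, Φ.C.n i u ∈ Φ.HF p :=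
  Φ.comm_HF_DPF3 (Commute.sum_left _ _ _ fun _ _ => Φ.C.n_comm _ _) p

theorem psi0_DPF3 (u : F) : Φ.psi 0 (Φ.C.Nh u) = 0 := by
  rw [CAR.Nh, _root_.sum_apply, map_sum]
  exact Finset.sum_eq_zero fun k _ => Φ.psi_ep0 _ _

theorem alt_ext_DPF3 {n : ℕ} {a a' : Alt (E d) (n + 1)}
    (h : ∀ v, a.curryLeft v = a'.curryLeft v) : a = a' := by
  ext w
  have := congrArg (fun c : Alt (E d) n => c (Fin.tail w)) (h (w 0))
  simpa [Matrix.vecCons] using this

theorem der_curry_DPF3 {n : ℕ} (J : E d →L[ℝ] E d) (a : Alt (E d) (n + 1)) (v : E d) :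
    (der J a).curryLeft v = a.curryLeft (J v) + der J (a.curryLeft v) := by
  ext w
  simp [Pool.Agent.HT.der_apply, Fin.sum_univ_succ, Matrix.vecCons, Fin.cons_update]

theorem io_I_DPF3 (v : E d) : Φ.io (Jc d v) + (2 * Complex.I) • (Φ.C.Nh * Φ.io v) =
    (2 * Complex.I) • (Φ.io v * Φ.C.Nh) - Complex.I • Φ.io v := by
  simp only [Φ.io_eq, Finset.mul_sum, Finset.sum_mul, Finset.smul_sum, ← Finset.sum_add_distrib,
    ← Finset.sum_sub_distrib]
  refine Finset.sum_congr rfl fun i _ => ?_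
  obtain ⟨k, _ | _⟩ := i
  · have e : cov (k, false) (Jc d v) = Complex.I * cov (k, false) v := by simp
    rw [e, mul_smul_comm, smul_mul_assoc, Φ.C.Nh_b, mul_sub, mul_one]
    module
  · have e : cov (k, true) (Jc d v) = -Complex.I * cov (k, true) v := by simp
    rw [e, mul_smul_comm, smul_mul_assoc, (Φ.C.Nh_b' k).eq]
    module

/-- the type operator -/
theorem psi_der (n : ℕ) (u : F) :
    der (Jc d) (Φ.psi n u) = Complex.I • Φ.psi n ((2 : ℂ) • Φ.C.Nh u - (n : ℂ) • u) := by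
  induction n generalizing u with
  | zero =>
    rw [Nat.cast_zero, zero_smul, sub_zero, map_smul, psi0_DPF3, smul_zero_DPF3, smul_zero_DPF3]
    ext v
    simp [Pool.Agent.HT.der_apply]
  | succ n ih =>
    refine alt_ext_DPF3 fun v => ?_
    rw [← map_smul, der_curry_DPF3, ← Φ.psi_io, ← Φ.psi_io, ← Φ.psi_io, ih, ← map_smul, ← map_add]
    refine congrArg _ ?_
    have h := congrArg (fun T : F →L[ℂ] F => T u) (Φ.io_I_DPF3 v)
    simp only [_root_.add_apply, _root_.sub_apply,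
      _root_.smul_apply, mul_apply_eq_comp] at h
    rw [map_smul, map_sub, map_smul, map_smul, Nat.cast_succ]
    linear_combination (norm := module) h

theorem psi_eig_DPF3 (n : ℕ) : ∀ (e : ℕ) (u : F), n < e → Φ.C.Nh u = (e : ℂ) • u →
    Φ.psi n u = 0 := by
  induction n with
  | zero =>
    intro e u he hu
    have h := Φ.psi0_DPF3 u
    rw [hu, map_smul] at h
    exact cancel_DPF3 (Nat.cast_ne_zero.2 he.ne') h
  | succ n ih =>
    intro e u he hu
    refine alt_ext_DPF3 fun v => ?_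
    have z : (0 : Alt (E d) (n + 1)).curryLeft v = 0 := by ext w; simp
    rw [z, ← Φ.psi_io, Φ.io_eq, _root_.sum_apply, map_sum]
    refine Finset.sum_eq_zero fun i _ => ?_
    rw [_root_.smul_apply, map_smul]
    refine (congrArg (cov i v • ·) ?_).trans (smul_zero_DPF3 _)
    obtain ⟨k, _ | _⟩ := i
    · obtain ⟨e, rfl⟩ : ∃ c, e = c + 1 := ⟨e - 1, by omega⟩
      exact ih e _ (by omega) (Φ.eig_b_DPF3 k hu)
    · refine ih e _ (by omega) ?_
      rw [← mul_apply_eq_comp, (Φ.C.Nh_b' k).eq, mul_apply_eq_comp, hu,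
        map_smul]

theorem ty_eig_DPF3 (p n : ℕ) {e : ℕ} {u : F} (hu : Φ.C.Nh u = (e : ℂ) • u) :
    tyA (Jc d) p n (Φ.psi n u) =
      ((List.range' p (n + 1 - p)).map fun b : ℕ => 2 * Complex.I * (e - b)).prod • Φ.psi n u := by
  unfold tyA
  induction List.range' p (n + 1 - p) with
  | nil => simp
  | cons b l ih =>
    rw [List.foldr_cons, ih, List.map_cons, List.prod_cons, ← map_smul (Φ.psi n), psi_der,
      map_smul Φ.C.Nh, hu]
    simp only [map_sub, map_smul]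
    module

theorem ty_of_HF_DPF3 (p n : ℕ) {u : F} (hu : u ∈ Φ.HF p) : tyA (Jc d) p n (Φ.psi n u) = 0 := by
  let Q : Submodule ℂ F :=
    { carrier := {u | tyA (Jc d) p n (Φ.psi n u) = 0}
      add_mem' := fun {a b} ha hb => by
        change tyA (Jc d) p n (Φ.psi n (a + b)) = 0
        rw [map_add, tyA_add, ha, hb, add_zero]
      zero_mem' := by
        change tyA (Jc d) p n (Φ.psi n 0) = 0
        rw [← zero_smul ℂ (0 : F), map_smul, tyA_smul, zero_smul_DPF3]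
      smul_mem' := fun c a ha => by
        change tyA (Jc d) p n (Φ.psi n (c • a)) = 0
        rw [map_smul, tyA_smul, ha, smul_zero_DPF3] }
  refine Φ.HF_le_DPF3 (Q := Q) (fun e he w hw => ?_) hu
  change tyA (Jc d) p n (Φ.psi n w) = 0
  rw [Φ.ty_eig_DPF3 p n hw]
  by_cases h : n < e
  · rw [Φ.psi_eig_DPF3 n e w h hw, smul_zero_DPF3]
  · rw [List.prod_eq_zero (List.mem_map.2 ⟨e, ?_, by simp⟩), zero_smul_DPF3]
    rw [List.mem_range'_1]
    omega

theorem ty_anti_DPF3 (J : E d →L[ℝ] E d) (p n : ℕ) {a : Alt (E d) n} (h : tyA J (p + 1) n a = 0) :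
    tyA J p n a = 0 := by
  by_cases hp : n < p
  · rw [tyA_big J (by omega)] at h
    rwa [tyA_big J hp]
  · have e : n + 1 - p = n + 1 - (p + 1) + 1 := by omega
    unfold tyA at h ⊢
    rw [e, List.range'_succ, List.foldr_cons, h]
    ext v
    simp [Pool.Agent.HT.der_apply]

theorem ty_iff (p : ℕ) (u : F) : (∀ n, tyA (Jc d) p n (Φ.psi n u) = 0) ↔ u ∈ Φ.HF p := by
  refine ⟨fun h => ?_, fun hu n => Φ.ty_of_HF_DPF3 p n hu⟩
  induction p with
  | zero => rw [HF_zero]; trivial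
  | succ p ih =>
    have h1 : Φ.HF p ≤ Module.End.eigenspace (Φ.C.Nh : F →L[ℂ] F).toLinearMap (p : ℂ) ⊔
        Φ.HF (p + 1) := Φ.HF_le_DPF3 fun b hb w hw => by
      rcases hb.eq_or_lt with rfl | hb
      · exact Submodule.mem_sup_left (Module.End.mem_eigenspace_iff.2 hw)
      · exact Submodule.mem_sup_right (Φ.mem_HF_DPF3 hb hw)
    obtain ⟨v, hv, w, hw, rfl⟩ := Submodule.mem_sup.1 (h1 (ih fun n => ty_anti_DPF3 _ p n (h n)))
    have hv' : Φ.C.Nh v = (p : ℂ) • v := Module.End.mem_eigenspace_iff.1 hv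
    have h0 : v = 0 := Φ.ext v fun n => by
      have h2 := h n
      rw [map_add, tyA_add, Φ.ty_of_HF_DPF3 (p + 1) n hw, add_zero, Φ.ty_eig_DPF3 (p + 1) n hv'] at h2
      refine cancel_DPF3 (List.prod_ne_zero fun h3 => ?_) h2
      obtain ⟨b, hb, h4⟩ := List.mem_map.1 h3
      rw [List.mem_range'_1] at hb
      have h5 : (p : ℂ) - b ≠ 0 := sub_ne_zero.2 (Nat.cast_injective.ne (by omega))
      exact mul_ne_zero (mul_ne_zero two_ne_zero Complex.I_ne_zero) h5 h4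
    rwa [h0, zero_add]

end FK

end Pool.Agent.PWD.Loc
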