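import Pool.Agent.P.MP_65ad7c_ag.DPG9

/-! The filtered Dolbeault lemma. -/

open Filter Topology

noncomputable section
namespace Pool.Agent.PWD.Loc

variable {K M τ : Type} [DecidableEq K] [AddCommGroup M] [Module ℂ M]
  {al J : Finset K} {σ : Finset τ} {wd : τ → List K} {k : K} {w p q : ℕ} {f g : M}

theorem app_DPG10 {A B : Module.End ℂ M} (h : Commute A B) (v : M) : A (B v) = B (A v) :=
  congrArg (fun T : Module.End ℂ M => T v) h.eq

namespace LogM
variable [Fintype K] (s : LogM K M)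

theorem Sm_DPG10 {T : Module.End ℂ M} (hN : T ∈ Stb s.N) (hx : ∀ i, Commute T (s.x i))
    (hn : ∀ l, Commute T (s.n (l, false))) (J : Finset K) : T ∈ Stb (s.Sm J) := by
  have hZ : Commute T (s.ZZ J) := commute_cp fun l _ =>
    (Commute.one_right T).add_right (((hx _).sub_right (Commute.one_right T)).mul_right (hn l))
  intro v hv
  obtain ⟨g, hg⟩ := s.mem_Sm.1 hv
  refine s.mem_Sm.2 ⟨T g, ?_⟩
  rw [← app_DPG10 hZ, ← map_sub]
  exact hN _ hg

theorem nRR_DPG10 (k : K) (J : Finset K) : Commute (s.n (k, true)) (s.RR J) :=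
  commute_cp fun l _ => by
    by_cases h : l = k
    · subst h
      exact (s.n_Rs l).trans (s.Rs_n l).symm
    · exact s.commute_of_Out (s.n_Out (k, true)) (s.Rs_In l) h

theorem bδ_DPG10 (al : Finset K) (k : K) (v : M) :
    s.b (k, true) (s.δ (pf al) v) = s.D (k, true) v - s.δ (pf al) (s.b (k, true) v) := by
  have h := s.b_δ (pf al) (k, true)
  rw [Site.X, if_neg (by simp)] at h
  exact eq_sub_of_add_eq (congrArg (fun T : Module.End ℂ M => T v) h)

theorem nδ_DPG10 (al : Finset K) (k : K) (v : M) :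
    s.n (k, true) (s.δ (pf al) v) =
      s.a (k, true) (s.D (k, true) v) + s.δ (pf al) (s.n (k, true) v) := by
  have h : s.a (k, true) (s.δ (pf al) (s.b (k, true) v)) + s.δ (pf al) (s.n (k, true) v) = 0 :=
    congrArg (fun T : Module.End ℂ M => T (s.b (k, true) v)) (s.a_δ (pf al) (k, true))
  show s.a (k, true) (s.b (k, true) (s.δ (pf al) v)) = _
  rw [bδ_DPG10, map_sub, eq_neg_of_add_eq_zero_left h, sub_neg_eq_add]

theorem δδ_DPG10 (al : Finset K) (f g : M) :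
    s.δ (pf al) (f - s.δ (pf al) g) = s.δ (pf al) f := by
  have h : s.δ (pf al) (s.δ (pf al) g) = 0 :=
    congrArg (fun T : Module.End ℂ M => T g) (s.δ_δ (pf al))
  rw [map_sub, h, sub_zero]

theorem N_le_Y (al : Finset K) (q : ℕ) : s.N ≤ s.Y al q := fun v hv =>
  s.mem_Y.2 ⟨s.N_le_W al _ hv, fun J _ _ => by
    have h := s.W_RR (al := al) (w := 0) J
    rw [s.W_zero] at h
    exact Submodule.mem_sup_right (h v hv)⟩

theorem Y_n (k : K) : s.n (k, true) ∈ Stb (s.Y al q) := fun v hv => by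
  obtain ⟨h1, h2⟩ := s.mem_Y.1 hv
  refine s.mem_Y.2 ⟨s.W_n k v h1, fun J hJ hc => ?_⟩
  rw [← app_DPG10 (s.nRR_DPG10 k J)]
  exact s.Sm_DPG10 (mul_mem (s.N_a _) (s.N_b _))
    (fun i => ((s.xa i _).mul_right (s.xb i _)).symm) (fun l => s.n_comm _ _) _ _ (h2 J hJ hc)

theorem l3_step (h : f ∈ s.W al (q + 1)) (hF : f ∈ s.Fl p) (hd : s.δ (pf al) f ∈ s.Y al q)
    (J : Finset K) : ∃ g ∈ s.W al (q + 1), g ∈ s.Fl p ∧
      ∀ k ∈ J, s.n (k, true) (f - s.δ (pf al) g) ∈ s.Y al q := by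
  induction J using Finset.induction_on with
  | empty => exact ⟨0, zero_mem _, zero_mem _, by simp⟩
  | insert m J hm ih =>
    obtain ⟨g, g1, g2, g3⟩ := ih
    have f1 : f - s.δ (pf al) g ∈ s.W al (q + 1) := sub_mem h (s.δ_W al _ g g1)
    have f2 : f - s.δ (pf al) g ∈ s.Fl p := sub_mem hF (s.δ_Fl _ p g g2)
    have f3 : s.δ (pf al) (f - s.δ (pf al) g) ∈ s.Y al q := by rwa [δδ_DPG10]
    have e : ∀ η, f - s.δ (pf al) (g + η) = f - s.δ (pf al) g - s.δ (pf al) η := fun η => by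
      rw [map_add, sub_add_eq_sub_sub]
    generalize f - s.δ (pf al) g = u at g3 f1 f2 f3 e
    have f4 : ∀ j ∈ J, s.a (j, true) (s.D (j, true) u) ∈ s.Y al q := fun j hj => by
      rw [← eq_sub_iff_add_eq.2 (s.nδ_DPG10 al j u).symm |>.symm]
      exact sub_mem (s.Y_n j _ f3) (s.δ_Y al q _ (g3 j hj))
    obtain ⟨ρ, ⟨⟨r1, r2⟩, r3⟩, r4, r5⟩ := ((((s.Kb_W al m _ u f1).and (s.Kb_Fl al m p u f2)).and
      (s.D_Kb al m u)).and (((eventually_all_finset J).2 fun j hj => s.Kb_Y al m q _ (g3 j hj)).and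
        ((eventually_all_finset J).2 fun j hj => s.Kb_Y al m q _ (f4 j hj)))).exists
    refine ⟨g + s.Kb al m ρ u, add_mem g1 r1, add_mem g2 r2, fun k hk => ?_⟩
    rw [e]
    rcases Finset.mem_insert.1 hk with rfl | hk
    · have b0 : s.b (k, true) (s.Kb al k ρ u) = 0 :=
        congrArg (fun T : Module.End ℂ M => T u) (s.b_Kb al k ρ)
      refine s.N_le_Y al q (s.N_a (k, true) _ ?_)
      rw [map_sub, bδ_DPG10, b0, map_zero, sub_zero, ← neg_sub]
      exact neg_mem r3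
    · have hne : k ≠ m := fun e => hm (e ▸ hk)
      have a1 : s.a (k, true) (s.D (k, true) (s.Kb al m ρ u)) =
          -s.Kb al m ρ (s.a (k, true) (s.D (k, true) u)) :=
        congrArg (fun T : Module.End ℂ M => T u) (s.Kb_aD al m ρ hne)
      rw [map_sub, nδ_DPG10, a1,
        app_DPG10 (s.Kb_Out_even al m ρ hne (s.n_In (k, true)) (s.n_Out (k, true)))]
      exact sub_mem (g3 k hk) (add_mem (neg_mem (r5 k hk)) (s.δ_Y al q _ (r4 k hk)))

theorem red_DPG10 (hn : ∀ k, s.n (k, true) f ∈ s.Y al q) (J : Finset K) :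
    ∃ u, f - u ∈ s.Y al q ∧ (∀ k, s.n (k, true) u ∈ s.Y al q) ∧ ∀ k ∈ J, s.b (k, true) u = 0 := by
  induction J using Finset.induction_on with
  | empty => exact ⟨f, by simp, hn, by simp⟩
  | insert m J hm ih =>
    obtain ⟨u, u1, u2, u3⟩ := ih
    refine ⟨u - s.n (m, true) u, ?_, fun k => ?_, fun k hk => ?_⟩
    · rw [← sub_add]
      exact add_mem u1 (u2 m)
    · rw [map_sub]
      exact sub_mem (u2 k) (s.Y_n k _ (u2 m))
    · rw [map_sub]
      rcases Finset.mem_insert.1 hk with rfl | hk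
      · exact sub_eq_zero.2 (congrArg (fun T : Module.End ℂ M => T u) (s.b_n (k, true))).symm
      · have hne : ((m, true) : K × Bool) ≠ (k, true) := fun e => hm ((Prod.mk.inj e).1 ▸ hk)
        rw [← app_DPG10 (s.n_b_ne hne), u3 k hk, map_zero, sub_zero]

theorem l3_end (h : f ∈ s.W al (q + 1)) (hd : s.δ (pf al) f ∈ s.Y al q)
    (hn : ∀ k, s.n (k, true) f ∈ s.Y al q) : f ∈ s.Y al q := by
  obtain ⟨u, u1, -, u3⟩ := s.red_DPG10 hn Finset.univ
  have u4 : u ∈ s.W al (q + 1) := by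
    simpa using sub_mem h (s.mem_Y.1 u1).1
  have u5 : s.δ (pf al) u ∈ s.Y al q := by
    simpa using sub_mem hd (s.δ_Y al q _ u1)
  have u6 : u ∈ s.Y al q := by
    refine s.mem_Y.2 ⟨u4, fun I hI hc => s.hol (fun k hk => ?_) fun k hk => ?_⟩
    · obtain ⟨k1, k2⟩ := Finset.mem_sdiff.1 hk
      have e1 : s.Ee k (s.RR I u) = s.Rs k (s.RR I u) + s.Ee k (s.n (k, true) (s.RR I u)) :=
        congrArg (fun T : Module.End ℂ M => T (s.RR I u)) (s.Ee_eq k)
      have e2 : s.n (k, true) u = 0 := by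
        show s.a (k, true) (s.b (k, true) u) = 0
        rw [u3 k (Finset.mem_univ k), map_zero]
      have e3 : s.RR (insert k I) u = s.Rs k (s.RR I u) :=
        congrArg (fun T : Module.End ℂ M => T u) (s.RR_insert k2)
      rw [e1, app_DPG10 (s.nRR_DPG10 k I), e2, map_zero, map_zero, add_zero, ← e3]
      exact s.mem_W.1 u4 _ (Finset.insert_subset k1 hI) (by rw [Finset.card_insert_of_notMem k2, hc])
    · obtain ⟨-, k2⟩ := Finset.mem_sdiff.1 hk
      have e1 := s.bδ_DPG10 al k u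
      rw [u3 k (Finset.mem_univ k), map_zero, sub_zero] at e1
      rw [app_DPG10 (s.In_RR (s.D_In (k, true)) k2), ← e1,
        ← app_DPG10 (s.In_RR (s.b_In (k, true)) k2)]
      exact s.Sm_DPG10 (s.N_b _) (fun i => (s.xb i _).symm)
        (fun l => (s.n_b_ne (by simp)).symm) _ _ ((s.mem_Y.1 u5).2 I hI hc)
  simpa using add_mem u1 u6

theorem l3 (h : f ∈ s.W al (q + 1)) (hF : f ∈ s.Fl p) (hd : s.δ (pf al) f ∈ s.Y al q) :
    ∃ g ∈ s.W al (q + 1), g ∈ s.Fl p ∧ f - s.δ (pf al) g ∈ s.Y al q := by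
  obtain ⟨g, g1, g2, g3⟩ := s.l3_step h hF hd Finset.univ
  exact ⟨g, g1, g2, s.l3_end (sub_mem h (s.δ_W al _ g g1)) (by rwa [δδ_DPG10])
    fun k => g3 k (Finset.mem_univ k)⟩

end LogM

end Pool.Agent.PWD.Loc
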