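import Pool.Agent.P.MP_65ad7c_ag.DPG1

/-! Operators that live at one site. -/

noncomputable section
namespace Pool.Agent.PWD.Loc

variable {K R : Type} [DecidableEq K] [Ring R] [Algebra ℂ R]

namespace Site
variable (s : Site K R) {i j : K × Bool} {k l : K} {T T' : R} {po : Finset (K × Bool)}

theorem mem_Out : T ∈ s.Out k ↔ (∀ i : K × Bool, i.1 ≠ k → Commute T (s.a i) ∧
    Commute T (s.b i) ∧ Commute T (s.x i) ∧ Commute T (s.D i)) ∧
    ∀ l, l ≠ k → Commute T (s.ev l) := by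
  rw [Out, Subalgebra.mem_centralizer_iff]
  constructor
  · intro h
    refine ⟨fun i hi => ⟨?_, ?_, ?_, ?_⟩, fun l hl => ?_⟩
    · exact (h _ ⟨i.1, hi, Or.inl ⟨i.2, Or.inl rfl⟩⟩).symm
    · exact (h _ ⟨i.1, hi, Or.inl ⟨i.2, Or.inr (Or.inl rfl)⟩⟩).symm
    · exact (h _ ⟨i.1, hi, Or.inl ⟨i.2, Or.inr (Or.inr (Or.inl rfl))⟩⟩).symm
    · exact (h _ ⟨i.1, hi, Or.inl ⟨i.2, Or.inr (Or.inr (Or.inr rfl))⟩⟩).symm
    · exact (h _ ⟨l, hl, Or.inr rfl⟩).symm
  · rintro ⟨h, h'⟩ g ⟨l, hl, ⟨t, rfl | rfl | rfl | rfl⟩ | rfl⟩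
    · exact (h (l, t) hl).1.symm
    · exact (h (l, t) hl).2.1.symm
    · exact (h (l, t) hl).2.2.1.symm
    · exact (h (l, t) hl).2.2.2.symm
    · exact (h' l hl).symm

theorem mem_FOut : T ∈ s.FOut k ↔ (∀ i, Commute T (s.a i) ∧ Commute T (s.b i)) ∧
    (∀ i : K × Bool, i.1 ≠ k → Commute T (s.x i) ∧ Commute T (s.D i)) ∧
    ∀ l, l ≠ k → Commute T (s.ev l) := by
  rw [FOut, Algebra.mem_inf, mem_Out, Subalgebra.mem_centralizer_iff]
  constructor
  · rintro ⟨⟨h, h'⟩, h''⟩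
    exact ⟨fun i => ⟨(h'' _ (Or.inl ⟨i, rfl⟩)).symm, (h'' _ (Or.inr ⟨i, rfl⟩)).symm⟩,
      fun i hi => (h i hi).2.2, h'⟩
  · rintro ⟨h, h', h''⟩
    refine ⟨⟨fun i hi => ⟨(h i).1, (h i).2, h' i hi⟩, h''⟩, ?_⟩
    rintro g (⟨i, rfl⟩ | ⟨i, rfl⟩)
    · exact (h i).1.symm
    · exact (h i).2.symm

theorem FOut_le (k : K) : s.FOut k ≤ s.Out k := inf_le_left

/-- a subalgebra that contains the generators contains `In k` -/
theorem In_le {A : Subalgebra ℂ R} (ha : ∀ t, s.a (k, t) ∈ A) (hb : ∀ t, s.b (k, t) ∈ A)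
    (hx : ∀ t, s.x (k, t) ∈ A) (hD : ∀ t, s.D (k, t) ∈ A) (he : s.ev k ∈ A) : s.In k ≤ A := by
  refine Algebra.adjoin_le ?_
  rintro g (⟨t, rfl | rfl | rfl | rfl⟩ | rfl)
  · exact ha t
  · exact hb t
  · exact hx t
  · exact hD t
  · exact he

omit [DecidableEq K] in
theorem mem_cent_DPG2 {g : R} (h : Commute T g) : g ∈ Subalgebra.centralizer ℂ {T} := by
  rw [Subalgebra.mem_centralizer_iff]
  rintro _ rfl
  exact h

theorem commute_of_Out (h : T ∈ s.Out k) (h' : T' ∈ s.In l) (hl : l ≠ k) : Commute T T' := by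
  obtain ⟨h1, h2⟩ := s.mem_Out.1 h
  have h3 : s.In l ≤ Subalgebra.centralizer ℂ {T} :=
    s.In_le (fun t => mem_cent_DPG2 (h1 (l, t) hl).1) (fun t => mem_cent_DPG2 (h1 (l, t) hl).2.1)
      (fun t => mem_cent_DPG2 (h1 (l, t) hl).2.2.1) (fun t => mem_cent_DPG2 (h1 (l, t) hl).2.2.2)
      (mem_cent_DPG2 (h2 l hl))
  exact (Subalgebra.mem_centralizer_iff ℂ).1 (h3 h') T rfl

theorem a_In (i : K × Bool) : s.a i ∈ s.In i.1 :=
  Algebra.subset_adjoin (Or.inl ⟨i.2, Or.inl rfl⟩)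
theorem b_In (i : K × Bool) : s.b i ∈ s.In i.1 :=
  Algebra.subset_adjoin (Or.inl ⟨i.2, Or.inr (Or.inl rfl)⟩)
theorem x_In (i : K × Bool) : s.x i ∈ s.In i.1 :=
  Algebra.subset_adjoin (Or.inl ⟨i.2, Or.inr (Or.inr (Or.inl rfl))⟩)
theorem D_In (i : K × Bool) : s.D i ∈ s.In i.1 :=
  Algebra.subset_adjoin (Or.inl ⟨i.2, Or.inr (Or.inr (Or.inr rfl))⟩)
theorem ev_In (k : K) : s.ev k ∈ s.In k := Algebra.subset_adjoin (Or.inr rfl)
theorem n_In (i : K × Bool) : s.n i ∈ s.In i.1 := mul_mem (s.a_In i) (s.b_In i)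
theorem X_In (i : K × Bool) : s.X po i ∈ s.In i.1 := by
  unfold X
  split_ifs
  · exact mul_mem (s.x_In i) (s.D_In i)
  · exact s.D_In i
theorem Z_In (i : K × Bool) : s.Z i ∈ s.In i.1 :=
  add_mem (one_mem _) (mul_mem (sub_mem (s.x_In i) (one_mem _)) (s.n_In i))
theorem Eu_In (k : K) : s.Eu k ∈ s.In k :=
  add_mem (mul_mem (s.x_In (k, false)) (s.D_In (k, false)))
    (mul_mem (s.x_In (k, true)) (s.D_In (k, true)))
theorem Th_In (k : K) : s.Th k ∈ s.In k :=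
  Subalgebra.smul_mem _ (sub_mem (mul_mem (s.x_In (k, false)) (s.D_In (k, false)))
    (mul_mem (s.x_In (k, true)) (s.D_In (k, true)))) _
theorem Q_In (k : K) : s.Q k ∈ s.In k :=
  mul_mem (s.ev_In k) (sub_mem (one_mem _) (s.n_In (k, true)))
theorem P_In (k : K) : s.P k ∈ s.In k :=
  mul_mem (s.Q_In k) (sub_mem (one_mem _) (s.n_In (k, false)))
theorem Rs_In (k : K) : s.Rs k ∈ s.In k := mul_mem (s.Q_In k) (s.n_In (k, false))
theorem Ee_In (k : K) : s.Ee k ∈ s.In k := mul_mem (s.ev_In k) (s.n_In (k, false))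

omit [Algebra ℂ R] in
theorem D_x_DPG2 (h : i ≠ j) : Commute (s.D i) (s.x j) := by
  have := s.Dx i j
  rw [if_neg h, sub_eq_zero] at this
  exact this

omit [DecidableEq K] in
theorem ne_DPG2 (h : j.1 ≠ i.1) : i ≠ j := fun e => h (e ▸ rfl)

theorem x_FOut (i : K × Bool) : s.x i ∈ s.FOut i.1 :=
  s.mem_FOut.2 ⟨fun j => ⟨s.xa i j, s.xb i j⟩,
    fun j hj => ⟨s.xx i j, (s.D_x_DPG2 (ne_DPG2 hj).symm).symm⟩,
    fun l hl => (s.evx l i hl.symm).symm⟩
theorem D_FOut (i : K × Bool) : s.D i ∈ s.FOut i.1 :=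
  s.mem_FOut.2 ⟨fun j => ⟨s.Da i j, s.Db i j⟩,
    fun j hj => ⟨s.D_x_DPG2 (ne_DPG2 hj), s.DD i j⟩,
    fun l hl => (s.evD l i hl.symm).symm⟩
theorem ev_FOut (k : K) : s.ev k ∈ s.FOut k :=
  s.mem_FOut.2 ⟨fun j => ⟨s.eva k j, s.evb k j⟩,
    fun j hj => ⟨s.evx k j hj, s.evD k j hj⟩, fun l _ => s.evev k l⟩
theorem X_FOut (i : K × Bool) : s.X po i ∈ s.FOut i.1 := by
  unfold X
  split_ifs
  · exact mul_mem (s.x_FOut i) (s.D_FOut i)
  · exact s.D_FOut i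
theorem Eu_FOut (k : K) : s.Eu k ∈ s.FOut k :=
  add_mem (mul_mem (s.x_FOut (k, false)) (s.D_FOut (k, false)))
    (mul_mem (s.x_FOut (k, true)) (s.D_FOut (k, true)))
theorem Th_FOut (k : K) : s.Th k ∈ s.FOut k :=
  Subalgebra.smul_mem _ (sub_mem (mul_mem (s.x_FOut (k, false)) (s.D_FOut (k, false)))
    (mul_mem (s.x_FOut (k, true)) (s.D_FOut (k, true)))) _

omit [Algebra ℂ R] in
theorem even_DPG2 {u v w : R} (hu : u * w = -(w * u)) (hv : v * w = -(w * v)) :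
    Commute (u * v) w := by
  show u * v * w = w * (u * v)
  rw [mul_assoc, hv, mul_neg, ← mul_assoc, hu, neg_mul, neg_neg, mul_assoc]

theorem ab_Out (k : K) (t t' : Bool) : s.a (k, t) * s.b (k, t') ∈ s.Out k := by
  refine s.mem_Out.2 ⟨fun i hi => ⟨?_, ?_, ?_, ?_⟩, fun l _ => ?_⟩
  · exact even_DPG2 (s.toCAR.a_swap _ _) (s.toCAR.b_a_ne (ne_DPG2 (i := (k, t')) hi))
  · refine even_DPG2 ?_ (s.toCAR.b_swap _ _)
    rw [s.toCAR.b_a_ne (ne_DPG2 (i := (k, t)) hi).symm, neg_neg]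
  · exact ((s.xa i _).mul_right (s.xb i _)).symm
  · exact ((s.Da i _).mul_right (s.Db i _)).symm
  · exact ((s.eva l _).mul_right (s.evb l _)).symm
theorem n_Out (i : K × Bool) : s.n i ∈ s.Out i.1 := s.ab_Out i.1 i.2 i.2
theorem Z_Out (i : K × Bool) : s.Z i ∈ s.Out i.1 :=
  add_mem (one_mem _) (mul_mem (sub_mem (s.FOut_le _ (s.x_FOut i)) (one_mem _)) (s.n_Out i))
theorem Q_Out (k : K) : s.Q k ∈ s.Out k :=
  mul_mem (s.FOut_le _ (s.ev_FOut k)) (sub_mem (one_mem _) (s.n_Out (k, true)))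
theorem P_Out (k : K) : s.P k ∈ s.Out k :=
  mul_mem (s.Q_Out k) (sub_mem (one_mem _) (s.n_Out (k, false)))
theorem Rs_Out (k : K) : s.Rs k ∈ s.Out k := mul_mem (s.Q_Out k) (s.n_Out (k, false))
theorem Ee_Out (k : K) : s.Ee k ∈ s.Out k :=
  mul_mem (s.FOut_le _ (s.ev_FOut k)) (s.n_Out (k, false))
theorem FOut_n (h : T ∈ s.FOut k) (i : K × Bool) : Commute T (s.n i) :=
  ((s.mem_FOut.1 h).1 i).1.mul_right ((s.mem_FOut.1 h).1 i).2
theorem Z_comm (i j : K × Bool) : Commute (s.Z i) (s.Z j) := by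
  have h1 : Commute (s.x i - 1) (s.x j - 1) :=
    ((s.xx i j).sub_right (Commute.one_right _)).sub_left (Commute.one_left _)
  have h2 : ∀ i j, Commute (s.x i - 1) (s.n j) := fun i j =>
    (s.FOut_n (s.x_FOut i) j).sub_left (Commute.one_left _)
  have h3 : Commute ((s.x i - 1) * s.n i) ((s.x j - 1) * s.n j) :=
    (h1.mul_right (h2 i j)).mul_left ((h2 j i).symm.mul_right (s.toCAR.n_comm i j))
  exact (Commute.one_left _).add_left ((Commute.one_right _).add_right h3)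
theorem P_comm (k l : K) : Commute (s.P k) (s.P l) := by
  by_cases h : l = k
  · rw [h]
  · exact s.commute_of_Out (s.P_Out k) (s.P_In l) h
theorem Rs_comm (k l : K) : Commute (s.Rs k) (s.Rs l) := by
  by_cases h : l = k
  · rw [h]
  · exact s.commute_of_Out (s.Rs_Out k) (s.Rs_In l) h
theorem X_comm (i j : K × Bool) : Commute (s.X po i) (s.X po j) := by
  by_cases h : i = j
  · rw [h]
  · have h1 := s.D_x_DPG2 h
    have h2 := (s.D_x_DPG2 (Ne.symm h)).symm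
    have h3 := s.xx i j
    have h4 := s.DD i j
    unfold X
    split_ifs
    · exact (h3.mul_right h2).mul_left (h1.mul_right h4)
    · exact h2.mul_left h4
    · exact h1.mul_right h4
    · exact h4
theorem X_a (i j : K × Bool) : Commute (s.X po i) (s.a j) :=
  ((s.mem_FOut.1 (s.X_FOut i)).1 j).1
theorem X_b (i j : K × Bool) : Commute (s.X po i) (s.b j) :=
  ((s.mem_FOut.1 (s.X_FOut i)).1 j).2
/-- an inverse commutes with everything the element commutes with -/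
theorem commute_inv {A I : R} (hl : I * A = 1) (hr : A * I = 1) (h : Commute T A) :
    Commute T I := by
  show T * I = I * T
  calc T * I = I * A * T * I := by rw [hl, one_mul]
    _ = I * T * (A * I) := by rw [mul_assoc I A, ← h.eq, ← mul_assoc, ← mul_assoc]
    _ = I * T := by rw [hr, mul_one]

end Site

end Pool.Agent.PWD.Loc
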