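import Pool.Agent.P.MP_65ad7c_ag.DPG3

/-! Homotopy formulas at one site. -/

noncomputable section
namespace Pool.Agent.PWD.Loc

section abstract
variable {R : Type} [Ring R]

theorem can_DPG4 {L G B Y : R} (h1 : L * G = 1 - B) (h2 : G * L = 1 - B) (h3 : B * G = 0)
    (h4 : G * B = 0) (hL : Commute Y L) (hB : Commute Y B) : Commute Y G := by
  have e1 : L * G + B = 1 := by rw [h1, sub_add_cancel]
  have e2 : G * Y = (G * L) * (Y * G) + (G * B) * Y := by
    calc G * Y = G * Y * (L * G + B) := by rw [e1, mul_one]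
      _ = G * (Y * L) * G + G * (Y * B) := by noncomm_ring
      _ = _ := by
        rw [hL.eq, hB.eq]
        noncomm_ring
  have e3 : B * (Y * G) = 0 := by rw [← mul_assoc, ← hB.eq, mul_assoc, h3, mul_zero]
  rw [h2, h4, zero_mul, add_zero, sub_mul, one_mul, e3, sub_zero] at e2
  exact e2.symm

theorem inv0_DPG4 {E G0 I0 I1 ev N p0 p1 p2 : R} (hs : p0 + p1 + p2 = 1)
    (n0 : N * p0 = 0) (n1 : N * p1 = p1) (n2 : N * p2 = 2 * p2)
    (m0 : p0 * N = 0) (m1 : p1 * N = p1) (m2 : p2 * N = 2 * p2)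
    (o01 : p0 * p1 = 0) (o02 : p0 * p2 = 0) (o10 : p1 * p0 = 0) (o20 : p2 * p0 = 0)
    (cG : Commute N G0) (c0 : Commute N I0) (c1 : Commute N I1)
    (e0 : Commute p0 E) (e1 : Commute p1 E) (e2 : Commute p2 E)
    (g0 : Commute p0 G0) (g1 : Commute p0 I0) (g2 : Commute p0 I1)
    (v0 : Commute p0 ev) (v1 : Commute p1 ev) (v2 : Commute p2 ev)
    (EG : E * G0 = 1 - ev) (GE : G0 * E = 1 - ev) (vG : ev * G0 = 0) (Gv : G0 * ev = 0)
    (l0 : I0 * (E + 1) = 1) (r0 : (E + 1) * I0 = 1) (l1 : I1 * (E + 2) = 1)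
    (r1 : (E + 2) * I1 = 1) :
    (E + N) * (G0 * p0 + I0 * p1 + I1 * p2) = 1 - ev * p0 ∧
    (G0 * p0 + I0 * p1 + I1 * p2) * (E + N) = 1 - ev * p0 ∧
    (ev * p0) * (G0 * p0 + I0 * p1 + I1 * p2) = 0 ∧
    (G0 * p0 + I0 * p1 + I1 * p2) * (ev * p0) = 0 := by
  have a0 : (E + N) * (G0 * p0) = (1 - ev) * p0 := by
    rw [add_mul, ← mul_assoc, EG, ← mul_assoc, cG.eq, mul_assoc G0, n0, mul_zero, add_zero]
  have a1 : (E + N) * (I0 * p1) = p1 := by
    rw [add_mul, ← mul_assoc N, c0.eq, mul_assoc I0, n1]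
    calc E * (I0 * p1) + I0 * p1 = ((E + 1) * I0) * p1 := by noncomm_ring
      _ = p1 := by rw [r0, one_mul]
  have a2 : (E + N) * (I1 * p2) = p2 := by
    rw [add_mul, ← mul_assoc N, c1.eq, mul_assoc I1, n2]
    calc E * (I1 * p2) + I1 * (2 * p2) = ((E + 2) * I1) * p2 := by noncomm_ring
      _ = p2 := by rw [r1, one_mul]
  have b0 : G0 * p0 * (E + N) = (1 - ev) * p0 := by
    rw [mul_assoc, mul_add, m0, add_zero, e0.eq, ← mul_assoc, GE]
  have b1 : I0 * p1 * (E + N) = p1 := by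
    rw [mul_assoc, mul_add, m1, e1.eq]
    calc I0 * (E * p1 + p1) = (I0 * (E + 1)) * p1 := by noncomm_ring
      _ = p1 := by rw [l0, one_mul]
  have b2 : I1 * p2 * (E + N) = p2 := by
    rw [mul_assoc, mul_add, m2, e2.eq]
    calc I1 * (E * p2 + 2 * p2) = (I1 * (E + 2)) * p2 := by noncomm_ring
      _ = p2 := by rw [l1, one_mul]
  have hs' : (1 - ev) * p0 + p1 + p2 = 1 - ev * p0 := by
    rw [sub_mul, one_mul, ← hs]
    abel
  refine ⟨?_, ?_, ?_, ?_⟩
  · rw [mul_add, mul_add, a0, a1, a2, hs']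
  · rw [add_mul, add_mul, b0, b1, b2, hs']
  · have t0 : ev * p0 * (G0 * p0) = 0 := by
      rw [mul_assoc, ← mul_assoc p0, g0.eq, ← mul_assoc, ← mul_assoc, vG, zero_mul, zero_mul]
    have t1 : ev * p0 * (I0 * p1) = 0 := by
      rw [mul_assoc, ← mul_assoc p0, g1.eq, mul_assoc, o01, mul_zero, mul_zero]
    have t2 : ev * p0 * (I1 * p2) = 0 := by
      rw [mul_assoc, ← mul_assoc p0, g2.eq, mul_assoc, o02, mul_zero, mul_zero]
    rw [mul_add, mul_add, t0, t1, t2, add_zero, add_zero]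
  · have t0 : G0 * p0 * (ev * p0) = 0 := by
      rw [mul_assoc, ← mul_assoc p0, v0.eq, ← mul_assoc, ← mul_assoc, Gv, zero_mul, zero_mul]
    have t1 : I0 * p1 * (ev * p0) = 0 := by
      rw [mul_assoc, ← mul_assoc p1, v1.eq, mul_assoc, o10, mul_zero, mul_zero]
    have t2 : I1 * p2 * (ev * p0) = 0 := by
      rw [mul_assoc, ← mul_assoc p2, v2.eq, mul_assoc, o20, mul_zero, mul_zero]
    rw [add_mul, add_mul, t0, t1, t2, add_zero, add_zero]

theorem inv_DPG4 {E G0 I0 I1 ev m m' : R} (hm : m * m = m) (hm' : m' * m' = m')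
    (c : Commute m m') (hc : ∀ Y ∈ [E, G0, I0, I1, ev], Commute m Y ∧ Commute m' Y)
    (EG : E * G0 = 1 - ev) (GE : G0 * E = 1 - ev) (vG : ev * G0 = 0) (Gv : G0 * ev = 0)
    (l0 : I0 * (E + 1) = 1) (r0 : (E + 1) * I0 = 1) (l1 : I1 * (E + 2) = 1)
    (r1 : (E + 2) * I1 = 1) {G B : R}
    (hG : G = G0 * ((1 - m') * (1 - m)) + I0 * (m * (1 - m') + m' * (1 - m)) + I1 * (m * m'))
    (hB : B = ev * ((1 - m') * (1 - m))) :
    (E + (m + m')) * G = 1 - B ∧ G * (E + (m + m')) = 1 - B ∧ B * G = 0 ∧ G * B = 0 := by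
  have q1 : ∀ z, m * (m * z) = m * z := fun z => by rw [← mul_assoc, hm]
  have q3 : m' * m = m * m' := c.eq.symm
  have q4 : ∀ z, m' * (m * z) = m * (m' * z) := fun z => by rw [← mul_assoc, q3, mul_assoc]
  have cN : ∀ Y ∈ [E, G0, I0, I1, ev], Commute (m + m') Y := fun Y hY =>
    (hc Y hY).1.add_left (hc Y hY).2
  have u : ∀ Y ∈ [E, G0, I0, I1, ev], Commute (1 - m) Y ∧ Commute (1 - m') Y := fun Y hY =>
    ⟨(Commute.one_left Y).sub_left (hc Y hY).1, (Commute.one_left Y).sub_left (hc Y hY).2⟩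
  have c0 : ∀ Y ∈ [E, G0, I0, I1, ev], Commute ((1 - m') * (1 - m)) Y := fun Y hY =>
    (u Y hY).2.mul_left (u Y hY).1
  have c1 : ∀ Y ∈ [E, G0, I0, I1, ev], Commute (m * (1 - m') + m' * (1 - m)) Y := fun Y hY =>
    ((hc Y hY).1.mul_left (u Y hY).2).add_left ((hc Y hY).2.mul_left (u Y hY).1)
  have c2 : ∀ Y ∈ [E, G0, I0, I1, ev], Commute (m * m') Y := fun Y hY =>
    (hc Y hY).1.mul_left (hc Y hY).2
  subst hG hB
  refine inv0_DPG4 ?_ ?_ ?_ ?_ ?_ ?_ ?_ ?_ ?_ ?_ ?_ (cN _ (by simp)) (cN _ (by simp))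
    (cN _ (by simp)) (c0 _ (by simp)) (c1 _ (by simp)) (c2 _ (by simp)) (c0 _ (by simp))
    (c0 _ (by simp)) (c0 _ (by simp)) (c0 _ (by simp)) (c1 _ (by simp)) (c2 _ (by simp))
    EG GE vG Gv l0 r0 l1 r1
  all_goals
    simp only [mul_add, add_mul, mul_sub, sub_mul, mul_assoc, mul_one, one_mul, two_mul, hm, hm',
      q1, q3, q4]
    try abel

theorem av_DPG4 {Th T Av : R} (lT : T * Th = 1 - Av) (rT : Th * T = 1 - Av) (hA : Av * Th = 0) :
    Th * Av = 0 ∧ Av * Av = Av ∧ (∀ Y, Commute Y Th → Commute Y Av) ∧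
    (1 - Av) * T * (1 - Av) * Th = 1 - Av ∧
    ∀ Y, Commute Y Th → Commute Y ((1 - Av) * T * (1 - Av)) := by
  have h1 : Th * Av = 0 := by
    have e : Th * (1 - Av) = (1 - Av) * Th := by
      calc Th * (1 - Av) = Th * (T * Th) := by rw [lT]
        _ = (1 - Av) * Th := by rw [← mul_assoc, rT]
    rw [mul_sub, sub_mul, hA, mul_one, one_mul, sub_zero] at e
    exact sub_eq_self.1 e
  have h2 : Av * (1 - Av) = 0 := by rw [← rT, ← mul_assoc, hA, zero_mul]
  have h3 : Av * Av = Av := by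
    rw [mul_sub, mul_one] at h2
    exact (sub_eq_zero.1 h2).symm
  have h4 : (1 - Av) * Av = 0 := by rw [sub_mul, one_mul, h3, sub_self]
  have h5 : (1 - Av) * (1 - Av) = 1 - Av := by rw [mul_sub, mul_one, h4, sub_zero]
  have h6 : ∀ Y, Commute Y Th → Commute Y Av := fun Y hY => by
    have e1 : Av * Y * (1 - Av) = 0 := by
      rw [← rT, mul_assoc, ← mul_assoc Y, hY.eq, ← mul_assoc, ← mul_assoc, hA, zero_mul, zero_mul]
    have e2 : (1 - Av) * Y * Av = 0 := by
      rw [← lT, mul_assoc T, ← hY.eq, mul_assoc, mul_assoc, h1, mul_zero, mul_zero]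
    rw [mul_sub, mul_one] at e1
    rw [sub_mul, sub_mul, one_mul] at e2
    exact (sub_eq_zero.1 e2).trans (sub_eq_zero.1 e1).symm
  have h7 : (1 - Av) * T * (1 - Av) * Th = 1 - Av := by
    rw [mul_assoc, sub_mul 1 Av Th, hA, one_mul, sub_zero, mul_assoc, lT, h5]
  have h8 : Th * ((1 - Av) * T * (1 - Av)) = 1 - Av := by
    rw [← mul_assoc, ← mul_assoc, mul_sub Th, h1, mul_one, sub_zero, rT, h5]
  refine ⟨h1, h3, h6, h7, fun Y hY => can_DPG4 h8 h7 ?_ ?_ hY (h6 Y hY)⟩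
  · rw [← mul_assoc, ← mul_assoc, h2, zero_mul, zero_mul]
  · rw [mul_assoc, h4, mul_zero]

theorem sol_DPG4 {E S C Y : R} (lS : S * E = 1 - C) (rS : E * S = 1) (hE : Commute Y E)
    (hC : Commute Y C) : Commute Y S := by
  have h1 : C * S = 0 := by
    have e : (1 - C) * S = S := by rw [← lS, mul_assoc, rS, mul_one]
    rw [sub_mul, one_mul] at e
    exact sub_eq_self.1 e
  have h2 : S * Y = Y * S := by
    calc S * Y = S * Y * (E * S) := by rw [rS, mul_one]
      _ = S * (Y * E) * S := by noncomm_ring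
      _ = (1 - C) * Y * S := by rw [hE.eq, ← mul_assoc, lS]
      _ = Y * S - Y * (C * S) := by rw [sub_mul, one_mul, ← hC.eq, sub_mul, mul_assoc]
      _ = Y * S := by rw [h1, mul_zero, sub_zero]
  exact h2.symm

end abstract

variable {K R : Type} [DecidableEq K] [Ring R] [Algebra ℂ R]

namespace Site
variable [Fintype K] {s : Site K R} {k : K} {po : Finset (K × Bool)}

omit [Fintype K] in
theorem FOut_DPG4 {T T' : R} (hT : T ∈ s.FOut k) (h : ∀ Y, Commute Y T → Commute Y T') :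
    T' ∈ s.FOut k := by
  rw [mem_FOut] at hT ⊢
  exact ⟨fun i => ⟨(h _ (hT.1 i).1.symm).symm, (h _ (hT.1 i).2.symm).symm⟩,
    fun i hi => ⟨(h _ (hT.2.1 i hi).1.symm).symm, (h _ (hT.2.1 i hi).2.symm).symm⟩,
    fun l hl => (h _ (hT.2.2 l hl).symm).symm⟩

omit [Algebra ℂ R] in
theorem δx_DPG4 {i : K × Bool} (h : i ∉ po) : s.δ po * s.x i = s.x i * s.δ po + s.a i := by
  have e : ∀ j, s.a j * s.X po j * s.x i =
      s.x i * (s.a j * s.X po j) + if j = i then s.a i else 0 := by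
    intro j
    have h1 := s.Dx j i
    have h2 := (s.xa i j).eq
    by_cases hj : j = i
    · subst hj
      rw [if_pos rfl] at h1 ⊢
      rw [X, if_neg h, mul_assoc, eq_add_of_sub_eq h1, mul_add, mul_one, ← mul_assoc, ← h2,
        mul_assoc, add_comm]
    · rw [if_neg hj] at h1 ⊢
      have h3 : Commute (s.D j) (s.x i) := sub_eq_zero.1 h1
      have h4 : Commute (s.X po j) (s.x i) := by
        unfold X
        split_ifs
        · exact (s.xx j i).mul_left h3
        · exact h3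
      rw [add_zero, ((s.xa i j).symm.mul_left h4).eq]
  rw [δ, Finset.sum_mul, Finset.mul_sum, Finset.sum_congr rfl fun j _ => e j,
    Finset.sum_add_distrib, Finset.sum_ite_eq', if_pos (Finset.mem_univ _)]

theorem xb_DPG4 {i : K × Bool} (h : i ∉ po) :
    s.x i * s.b i * s.δ po + s.δ po * (s.x i * s.b i) = s.x i * s.D i + s.n i := by
  have h1 := s.b_δ po i
  rw [X, if_neg h] at h1
  rw [← mul_assoc (s.δ po), δx_DPG4 h, ← h1, CAR.n]
  noncomm_ring

theorem Fr.aux_DPG4 (h : s.Fr k) {i m B : R} (hm : m * m = m) (c : Commute m (s.n (k, true)))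
    (hc : ∀ Y ∈ s.FOut k, Commute m Y) (hi : i ∈ s.In k) (hm2 : m ∈ s.In k)
    (hL : i * s.δ po + s.δ po * i = s.Eu k + (m + s.n (k, true)))
    (hB : B = s.ev k * ((1 - s.n (k, true)) * (1 - m))) (hδ : Commute B (s.δ po)) : ∃ G : R,
    1 - B = s.δ po * (i * G) + i * G * s.δ po ∧
    ∀ A : Subalgebra ℂ R, s.In k ≤ A → h.I0 ∈ A → h.I1 ∈ A → i * G ∈ A := by
  obtain ⟨G0, hG0⟩ : ∃ G0, G0 = s.x (k, false) * h.I0 * h.I0 * s.D (k, false)
    + s.x (k, true) * h.I0 * h.I0 * s.D (k, true) := ⟨_, rfl⟩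
  have e1 : ∀ t, s.Eu k * (s.x (k, t) * h.I0 * h.I0 * s.D (k, t)) =
      s.x (k, t) * h.I0 * s.D (k, t) := fun t => by
    rw [← mul_assoc, ← mul_assoc, ← mul_assoc, s.Eu_x, mul_assoc (s.x (k, t)), h.r0, mul_one]
  have e2 : ∀ t, (s.x (k, t) * h.I0 * h.I0 * s.D (k, t)) * s.Eu k =
      s.x (k, t) * h.I0 * s.D (k, t) := fun t => by
    rw [mul_assoc, s.D_Eu, ← mul_assoc, mul_assoc _ h.I0 (s.Eu k + 1), h.l0, mul_one]
  have e3 : ∀ t, s.ev k * (s.x (k, t) * h.I0 * h.I0 * s.D (k, t)) = 0 := fun t => by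
    rw [← mul_assoc, ← mul_assoc, ← mul_assoc, h.ev_x, zero_mul, zero_mul, zero_mul]
  have e4 : ∀ t, (s.x (k, t) * h.I0 * h.I0 * s.D (k, t)) * s.ev k = 0 := fun t => by
    rw [mul_assoc, h.D_ev, mul_zero]
  have f0 : ∀ t, s.x (k, t) * h.I0 * h.I0 * s.D (k, t) ∈ s.FOut k := fun t =>
    mul_mem (mul_mem (mul_mem (s.x_FOut (k, t)) h.I0_FOut) h.I0_FOut) (s.D_FOut (k, t))
  have hF : ∀ Y ∈ [s.Eu k, G0, h.I0, h.I1, s.ev k], Y ∈ s.FOut k := by
    simp only [List.mem_cons, List.not_mem_nil, or_false, forall_eq_or_imp, forall_eq]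
    exact ⟨s.Eu_FOut k, hG0 ▸ add_mem (f0 _) (f0 _), h.I0_FOut, h.I1_FOut, s.ev_FOut k⟩
  obtain ⟨G, hG⟩ : ∃ G, G = G0 * ((1 - s.n (k, true)) * (1 - m))
    + h.I0 * (m * (1 - s.n (k, true)) + s.n (k, true) * (1 - m)) + h.I1 * (m * s.n (k, true)) :=
    ⟨_, rfl⟩
  obtain ⟨g1, g2, g3, g4⟩ := inv_DPG4 hm (s.n_n (k, true)) c
    (fun Y hY => ⟨hc Y (hF Y hY), (s.FOut_n (hF Y hY) _).symm⟩)
    (by rw [hG0, mul_add, e1, e1, h.had]) (by rw [hG0, add_mul, e2, e2, h.had])
    (by rw [hG0, mul_add, e3, e3, add_zero]) (by rw [hG0, add_mul, e4, e4, add_zero])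
    h.l0 h.r0 h.l1 h.r1 hG hB
  have hd := s.δ_δ po
  have cL : Commute (s.δ po) (s.Eu k + (m + s.n (k, true))) := by
    rw [← hL]
    change _ * _ = _ * _
    rw [mul_add, add_mul, ← mul_assoc (s.δ po) (s.δ po), hd, mul_assoc i, hd, zero_mul, mul_zero,
      add_zero, zero_add, mul_assoc]
  have cG := can_DPG4 g1 g2 g3 g4 cL hδ.symm
  refine ⟨G, ?_, fun A hA h0 h1 => mul_mem (hA hi) ?_⟩
  · rw [mul_assoc i, ← cG.eq, ← g1, ← hL]
    noncomm_ring
  · have n1 : s.n (k, true) ∈ A := hA (s.n_In (k, true))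
    have n2 : m ∈ A := hA hm2
    have f1 : ∀ t, s.x (k, t) * h.I0 * h.I0 * s.D (k, t) ∈ A := fun t =>
      mul_mem (mul_mem (mul_mem (hA (s.x_In (k, t))) h0) h0) (hA (s.D_In (k, t)))
    have n3 := sub_mem (one_mem A) n1
    have n4 := sub_mem (one_mem A) n2
    rw [hG]
    exact add_mem (add_mem (mul_mem (hG0 ▸ add_mem (f1 _) (f1 _)) (mul_mem n3 n4))
      (mul_mem h0 (add_mem (mul_mem n2 n3) (mul_mem n1 n4)))) (mul_mem h1 (mul_mem n2 n1))

/-- the radial homotopy -/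
theorem Fr.hty (h : s.Fr k) (ht : (k, true) ∉ po) : ∃ H : R,
    1 - (if (k, false) ∈ po then s.Q k else s.P k) = s.δ po * H + H * s.δ po ∧
    (∀ A : Subalgebra ℂ R, s.In k ≤ A → h.I0 ∈ A → h.I1 ∈ A → H ∈ A) ∧
    ((k, false) ∈ po → s.Rs k * H = 0) := by
  have i1 : s.x (k, true) * s.b (k, true) ∈ s.In k :=
    mul_mem (s.x_In (k, true)) (s.b_In (k, true))
  by_cases hf : (k, false) ∈ po
  · rw [if_pos hf]
    obtain ⟨G, h1, h2⟩ := h.aux_DPG4 (po := po) (m := 0) (B := s.Q k)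
      (i := s.b (k, false) + s.x (k, true) * s.b (k, true)) (mul_zero 0) (Commute.zero_left _)
      (fun Y _ => Commute.zero_left Y) (add_mem (s.b_In (k, false)) i1) (zero_mem _)
      (by
        have e1 := s.b_δ po (k, false)
        rw [X, if_pos hf] at e1
        rw [Eu, zero_add, add_assoc, ← xb_DPG4 ht, ← e1]
        noncomm_ring)
      (by rw [Q, sub_zero, mul_one])
      (by
        rw [s.Q_eq]
        exact (h.P_δ po).add_left (h.Rs_δ hf ht))
    refine ⟨_, h1, h2, fun _ => ?_⟩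
    have c : Commute (s.x (k, true)) ((1 - s.n (k, true)) * s.n (k, false)) :=
      ((Commute.one_right _).sub_right (s.FOut_n (s.x_FOut (k, true)) _)).mul_right
        (s.FOut_n (s.x_FOut (k, true)) _)
    have e1 : s.Rs k * s.b (k, false) = 0 := by rw [Rs, mul_assoc, s.n_b, mul_zero]
    have e2 : s.Rs k * s.x (k, true) = 0 := by
      rw [Rs, mul_assoc (s.ev k), mul_assoc, ← c.eq, ← mul_assoc, h.ev_x, zero_mul]
    rw [← mul_assoc, mul_add, e1, ← mul_assoc, e2, zero_mul, add_zero, zero_mul]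
  · rw [if_neg hf]
    obtain ⟨G, h1, h2⟩ := h.aux_DPG4 (po := po) (m := s.n (k, false)) (B := s.P k)
      (i := s.x (k, false) * s.b (k, false) + s.x (k, true) * s.b (k, true)) (s.n_n _)
      (s.n_comm _ _) (fun Y hY => (s.FOut_n hY _).symm)
      (add_mem (mul_mem (s.x_In (k, false)) (s.b_In (k, false))) i1) (s.n_In (k, false))
      (by
        have e1 := xb_DPG4 (s := s) hf
        have e2 := xb_DPG4 (s := s) ht
        rw [Eu, add_add_add_comm, ← e1, ← e2]
        noncomm_ring)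
      (by rw [P, mul_assoc]) (h.P_δ po)
    exact ⟨_, h1, h2, fun hf' => absurd hf' hf⟩

theorem Po.δS_DPG4 (h : s.Po k) (hf : (k, false) ∈ po) (ht : (k, true) ∈ po) {ar : R}
    (har : ar = (2⁻¹ : ℂ) • (s.a (k, false) + s.a (k, true))) :
    Commute ar h.S ∧ Commute (s.δ po - ar * s.Eu k) h.S := by
  have x0 : s.X po (k, false) = s.x (k, false) * s.D (k, false) := if_pos hf
  have x1 : s.X po (k, true) = s.x (k, true) * s.D (k, true) := if_pos ht
  have ca : ∀ t, Commute (s.a (k, t)) h.S := fun t => sol_DPG4 h.lS h.rS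
    ((s.mem_FOut.1 (s.Eu_FOut k)).1 _).1.symm ((s.mem_FOut.1 h.C_out).1 _).1.symm
  have cT : Commute (s.Th k) h.S := by
    refine sol_DPG4 h.lS h.rS ?_ h.C_Th.symm
    rw [Th, Eu, ← x0, ← x1]
    exact (((s.X_comm _ _).add_right (s.X_comm _ _)).sub_left
      ((s.X_comm _ _).add_right (s.X_comm _ _))).smul_left _
  have co : Commute (s.δo po k) h.S := sol_DPG4 h.lS h.rS
    (s.Out_δo (s.FOut_le k (s.Eu_FOut k)) po).symm (s.Out_δo (s.FOut_le k h.C_out) po).symm
  have e : s.δ po - ar * s.Eu k =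
      ((-Complex.I * 2⁻¹) • (s.a (k, false) - s.a (k, true))) * s.Th k + s.δo po k := by
    rw [s.δ_split po k, har, Th, Eu, ← x0, ← x1, smul_mul_smul_comm, smul_mul_assoc]
    have e1 : -Complex.I * 2⁻¹ * Complex.I = 2⁻¹ := by
      linear_combination (-2⁻¹ : ℂ) * Complex.I_mul_I
    rw [e1]
    simp only [mul_add, add_mul, mul_sub, sub_mul]
    module
  refine ⟨har ▸ ((ca _).add_left (ca _)).smul_left _, ?_⟩
  rw [e]
  exact ((((ca _).sub_left (ca _)).smul_left _).mul_left cT).add_left co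

/-- averaging over rotations, followed by the retraction onto a circle -/
theorem Po.hty (h : s.Po k) (hf : (k, false) ∈ po) (ht : (k, true) ∈ po) : ∃ H B : R,
    1 - B = s.δ po * H + H * s.δ po ∧
    (∀ A : Subalgebra ℂ R, s.In k ≤ A → h.T ∈ A → h.S ∈ A → H ∈ A ∧ B ∈ A) ∧
    B ∈ s.Out k ∧ (∀ t, s.X po (k, t) * B = 0) ∧ (s.b (k, false) + s.b (k, true)) * B = 0 ∧
    Commute B (s.b (k, false) - s.b (k, true)) ∧
    ∃ G₁ G₂ G₃ : R, 1 - B = G₁ * s.X po (k, false) + G₂ * s.X po (k, true) +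
      G₃ * (s.b (k, false) + s.b (k, true)) := by
  obtain ⟨ar, har⟩ : ∃ ar, ar = (2⁻¹ : ℂ) • (s.a (k, false) + s.a (k, true)) := ⟨_, rfl⟩
  obtain ⟨br, hbr⟩ : ∃ br, br = s.b (k, false) + s.b (k, true) := ⟨_, rfl⟩
  obtain ⟨bm, hbm⟩ : ∃ bm, bm = s.b (k, false) - s.b (k, true) := ⟨_, rfl⟩
  have x0 : s.X po (k, false) = s.x (k, false) * s.D (k, false) := if_pos hf
  have x1 : s.X po (k, true) = s.x (k, true) * s.D (k, true) := if_pos ht
  have hE : s.Eu k = s.X po (k, false) + s.X po (k, true) := by rw [Eu, x0, x1]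
  have hT : s.Th k = Complex.I • (s.X po (k, false) - s.X po (k, true)) := by rw [Th, x0, x1]
  obtain ⟨v1, v2, v3, v4, v5⟩ := av_DPG4 h.lT h.rT h.Av_Th
  obtain ⟨T', hT'⟩ : ∃ T', T' = (1 - h.Av) * h.T * (1 - h.Av) := ⟨_, rfl⟩
  rw [← hT'] at v4 v5
  obtain ⟨c1, c2⟩ := h.δS_DPG4 hf ht har
  have fa : ∀ Y ∈ s.FOut k, Commute Y ar := fun Y hY =>
    har ▸ (((s.mem_FOut.1 hY).1 _).1.add_right ((s.mem_FOut.1 hY).1 _).1).smul_right _
  have fb : ∀ Y ∈ s.FOut k, Commute Y br := fun Y hY =>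
    hbr ▸ ((s.mem_FOut.1 hY).1 _).2.add_right ((s.mem_FOut.1 hY).1 _).2
  have fm : ∀ Y ∈ s.FOut k, Commute Y bm := fun Y hY =>
    hbm ▸ ((s.mem_FOut.1 hY).1 _).2.sub_right ((s.mem_FOut.1 hY).1 _).2
  have hAv : h.Av ∈ s.FOut k := FOut_DPG4 (s.Th_FOut k) v3
  have hne : ((k, false) : K × Bool) ≠ (k, true) := by simp
  have k00 := s.car (k, false) (k, false)
  have k11 := s.car (k, true) (k, true)
  have k01 := s.car (k, false) (k, true)
  have k10 := s.car (k, true) (k, false)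
  rw [if_pos rfl] at k00 k11
  rw [if_neg hne] at k01
  rw [if_neg hne.symm] at k10
  have r1 : br * ar + ar * br = 1 := by
    rw [har, mul_smul_comm, smul_mul_assoc, ← smul_add]
    have e : br * (s.a (k, false) + s.a (k, true)) + (s.a (k, false) + s.a (k, true)) * br
        = (2 : ℂ) • (1 : R) := by
      rw [hbr, two_smul]
      linear_combination (norm := noncomm_ring) k00 + k11 + k01 + k10
    rw [e, smul_smul, inv_mul_cancel₀ two_ne_zero, one_smul]
  have r2 : bm * ar + ar * bm = 0 := by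
    rw [har, mul_smul_comm, smul_mul_assoc, ← smul_add]
    have e : bm * (s.a (k, false) + s.a (k, true)) + (s.a (k, false) + s.a (k, true)) * bm
        = 0 := by
      rw [hbm]
      linear_combination (norm := noncomm_ring) k00 - k11 + k01 - k10
    rw [e, smul_zero]
  have r3 : br * br = 0 := by
    rw [hbr]
    linear_combination (norm := noncomm_ring)
      s.b_b (k, false) + s.b_b (k, true) + s.bb (k, false) (k, true)
  have r4 : bm * br + br * bm = 0 := by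
    rw [hbr, hbm]
    linear_combination (norm := noncomm_ring) s.bb (k, false) (k, false) - s.bb (k, true) (k, true)
  have d1 : br * s.δ po + s.δ po * br = s.Eu k := by
    rw [hE, hbr]
    linear_combination (norm := noncomm_ring) s.b_δ po (k, false) + s.b_δ po (k, true)
  have d2 : (Complex.I • bm) * s.δ po + s.δ po * (Complex.I • bm) = s.Th k := by
    rw [hT, mul_smul_comm, smul_mul_assoc, ← smul_add, hbm]
    congr 1
    linear_combination (norm := noncomm_ring) s.b_δ po (k, false) - s.b_δ po (k, true)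
  have dT : Commute (s.δ po) (s.Th k) :=
    hT ▸ ((s.X_δ po _).symm.sub_right (s.X_δ po _).symm).smul_right _
  have dA := (v3 _ dT).eq
  have dT' := (v5 _ dT).eq
  have cC := (fa _ h.C_out).eq
  have cCb := (fb _ h.C_out).eq
  have d3 : s.δ po * h.S = h.S * s.δ po + h.C * ar := by
    linear_combination (norm := noncomm_ring)
      c2.eq + ar * h.rS - ar * h.lS + c1.eq * s.Eu k - cC
  have d4 : s.δ po * (h.S * br) + h.S * br * s.δ po = 1 - h.C * (br * ar) := by
    linear_combination (norm := noncomm_ring) d3 * br + h.S * d1 + h.lS + h.C * r1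
  have eC : s.Eu k * h.C = 0 := by
    linear_combination (norm := noncomm_ring) s.Eu k * h.lS - h.rS * s.Eu k
  have eB : s.Eu k * (h.C * (br * ar) * h.Av) = 0 := by
    rw [← mul_assoc, ← mul_assoc, eC, zero_mul, zero_mul]
  have tB : s.Th k * (h.C * (br * ar) * h.Av) = 0 := by
    have c : Commute (s.Th k) (h.C * (br * ar)) :=
      h.C_Th.symm.mul_right ((fb _ (s.Th_FOut k)).mul_right (fa _ (s.Th_FOut k)))
    rw [← mul_assoc, c.eq, mul_assoc, v1, mul_zero]
  have cA : Commute (h.C * (br * ar)) h.Av :=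
    (v3 _ h.C_Th).mul_left ((fb _ hAv).symm.mul_left (fa _ hAv).symm)
  refine ⟨T' * (Complex.I • bm) + h.S * br * h.Av, h.C * (br * ar) * h.Av, ?_, ?_, ?_, ?_, ?_, ?_,
    Complex.I • h.T + h.Av * br * ar * h.S, h.Av * br * ar * h.S - Complex.I • h.T, h.Av * ar, ?_⟩
  · generalize Complex.I • bm = bt at d2 ⊢
    linear_combination (norm := noncomm_ring)
      -(dT' * bt) - T' * d2 - v4 - d4 * h.Av + h.S * br * dA
  · intro A hA a1 a2
    have m1 : h.Av ∈ A := by
      rw [show h.Av = 1 - h.T * s.Th k by rw [h.lT, sub_sub_cancel]]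
      exact sub_mem (one_mem A) (mul_mem a1 (hA (s.Th_In k)))
    have m2 : h.C ∈ A := by
      rw [show h.C = 1 - h.S * s.Eu k by rw [h.lS, sub_sub_cancel]]
      exact sub_mem (one_mem A) (mul_mem a2 (hA (s.Eu_In k)))
    have m3 : ar ∈ A :=
      har ▸ A.smul_mem (add_mem (hA (s.a_In (k, false))) (hA (s.a_In (k, true)))) _
    have m4 : br ∈ A := hbr ▸ add_mem (hA (s.b_In (k, false))) (hA (s.b_In (k, true)))
    have m5 : bm ∈ A := hbm ▸ sub_mem (hA (s.b_In (k, false))) (hA (s.b_In (k, true)))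
    have m6 := sub_mem (one_mem A) m1
    exact ⟨add_mem (mul_mem (hT' ▸ mul_mem (mul_mem m6 a1) m6) (A.smul_mem m5 _))
      (mul_mem (mul_mem a2 m4) m1), mul_mem (mul_mem m2 (mul_mem m4 m3)) m1⟩
  · refine mul_mem (mul_mem (s.FOut_le k h.C_out) ?_) (s.FOut_le k hAv)
    rw [eq_sub_of_add_eq r1, har, hbr, smul_mul_assoc, add_mul, mul_add, mul_add]
    exact sub_mem (one_mem _) ((s.Out k).smul_mem (add_mem (add_mem (s.ab_Out k _ _)
      (s.ab_Out k _ _)) (add_mem (s.ab_Out k _ _) (s.ab_Out k _ _))) _)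
  · generalize h.C * (br * ar) * h.Av = B at eB tB
    rw [hT, smul_mul_assoc, smul_eq_zero_iff_right Complex.I_ne_zero, sub_mul, sub_eq_zero] at tB
    rw [hE, add_mul, tB, ← two_smul ℂ, smul_eq_zero_iff_right two_ne_zero] at eB
    rintro (_ | _)
    · rw [tB, eB]
    · exact eB
  · rw [← hbr, ← mul_assoc, ← mul_assoc, ← cCb, mul_assoc h.C, ← mul_assoc br, r3, zero_mul,
      mul_zero, zero_mul]
  · rw [← hbm]
    refine ((fm _ h.C_out).mul_left ?_).mul_left (fm _ hAv)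
    change _ * _ = _ * _
    linear_combination (norm := noncomm_ring) br * r2 - r4 * ar
  · have e1 : h.T * s.Th k =
        Complex.I • h.T * s.X po (k, false) - Complex.I • h.T * s.X po (k, true) := by
      rw [hT, mul_smul_comm, smul_mul_assoc, smul_mul_assoc, mul_sub, smul_sub]
    have e2 := h.lS
    rw [hE] at e2
    rw [← hbr]
    generalize Complex.I • h.T = T1 at e1 ⊢
    linear_combination (norm := noncomm_ring) e1 - h.lT - cA.eq - h.Av * br * ar * e2
      - h.Av * r1 - h.Av * cCb * ar - h.Av * br * cC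

/-- the radial one-form times a constant form is exact -/
theorem Po.rad (h : s.Po k) (hf : (k, false) ∈ po) (ht : (k, true) ∈ po) :
    ∃ G : K × Bool → R, s.δ po * h.S =
      (2⁻¹ : ℂ) • (s.a (k, false) + s.a (k, true)) + ∑ i, G i * s.X po i := by
  obtain ⟨ar, har⟩ : ∃ ar, ar = (2⁻¹ : ℂ) • (s.a (k, false) + s.a (k, true)) := ⟨_, rfl⟩
  have x0 : s.X po (k, false) = s.x (k, false) * s.D (k, false) := if_pos hf
  have x1 : s.X po (k, true) = s.x (k, true) * s.D (k, true) := if_pos ht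
  have c := (h.δS_DPG4 hf ht har).2.eq
  refine ⟨fun i => h.S * s.a i - (if i = (k, false) then h.S * ar else 0)
    - (if i = (k, true) then h.S * ar else 0), ?_⟩
  simp only [sub_mul, ite_mul, zero_mul, Finset.sum_sub_distrib, Finset.sum_ite_eq',
    Finset.mem_univ, if_true, mul_assoc]
  rw [← Finset.mul_sum, ← har, ← δ]
  rw [sub_mul, mul_assoc, h.rS, mul_one, Eu, ← x0, ← x1] at c
  rw [eq_add_of_sub_eq c]
  noncomm_ring

end Site

end Pool.Agent.PWD.Loc
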