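import Pool.Agent.P.MP_65ad7c_ag.DPG4

/-! Words applied to the vacuum; iterated homotopies. -/

open Filter Topology

noncomputable section
namespace Pool.Agent.PWD.Loc

variable {K M τ : Type} [DecidableEq K] [AddCommGroup M] [Module ℂ M]
  {al J : Finset K} {σ : Finset τ} {wd : τ → List K} {k : K} {w p q : ℕ} {f g : M}

theorem anti_DPG5 {A B : Module.End ℂ M} (h : A * B + B * A = 0) (u : M) : A (B u) = -B (A u) := by
  have := congrArg (fun T : Module.End ℂ M => T u) h
  simpa [eq_neg_iff_add_eq_zero] using this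

theorem sq_DPG5 {A : Module.End ℂ M} (h : A * A + A * A = 0) (u : M) : A (A u) = 0 := by
  have h1 : A (A u) + A (A u) = 0 := eq_neg_iff_add_eq_zero.1 (anti_DPG5 h u)
  have h2 : A (A u) = (2 : ℂ)⁻¹ • (A (A u) + A (A u)) := by
    rw [← two_smul ℂ, smul_smul]
    norm_num
  rw [h2, h1, smul_zero]

theorem one_DPG5 {A B : Module.End ℂ M} (h : A * B + B * A = 1) (u : M) :
    A (B u) + B (A u) = u := by
  have := congrArg (fun T : Module.End ℂ M => T u) h
  simpa using this

/-- the words span -/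
theorem span_words {α β : K → Module.End ℂ M} {C : Submodule ℂ M} {v : M}
    (hα : ∀ k ∈ al, α k ∈ Stb C) (hβ : ∀ k ∈ al, β k ∈ Stb C)
    (car : ∀ k ∈ al, ∀ l ∈ al, β k * α l + α l * β k = if k = l then 1 else 0)
    (bb : ∀ k ∈ al, ∀ l ∈ al, β k * β l + β l * β k = 0)
    (h0 : ∀ u ∈ C, (∀ k ∈ al, β k u = 0) → ∃ c : ℂ, u = c • v) :
    C ≤ Submodule.span ℂ {u | ∃ L : List K, L.Nodup ∧ L.toFinset ⊆ al ∧ u = (L.map α).prod v} := by
  have key : ∀ J : Finset K, J ⊆ al → ∀ u ∈ C, (∀ k ∈ al, k ∉ J → β k u = 0) →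
      u ∈ Submodule.span ℂ
        {u | ∃ L : List K, L.Nodup ∧ L.toFinset ⊆ J ∧ u = (L.map α).prod v} := by
    intro J
    induction J using Finset.induction_on with
    | empty =>
      intro _ u hu h
      obtain ⟨c, rfl⟩ := h0 u hu fun k hk => h k hk (Finset.notMem_empty k)
      exact Submodule.smul_mem _ _ (Submodule.subset_span ⟨[], List.nodup_nil, by simp, by simp⟩)
    | insert m J hm ih =>
      intro hJ u hu h
      have hma : m ∈ al := hJ (Finset.mem_insert_self m J)
      have hJ' : J ⊆ al := (Finset.subset_insert m J).trans hJ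
      have h1 := ih hJ' (β m u) (hβ m hma u hu) fun k hk hkJ => by
        by_cases hkm : k = m
        · rw [hkm]
          exact sq_DPG5 (bb m hma m hma) u
        · rw [anti_DPG5 (bb k hk m hma), h k hk (by simp [hkm, hkJ]), map_zero, neg_zero]
      have h2 := ih hJ' (β m (α m u)) (hβ m hma _ (hα m hma u hu)) fun k hk hkJ => by
        by_cases hkm : k = m
        · rw [hkm]
          exact sq_DPG5 (bb m hma m hma) _
        · have hc := car k hk m hma
          rw [if_neg hkm] at hc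
          rw [anti_DPG5 (bb k hk m hma), anti_DPG5 hc, h k hk (by simp [hkm, hkJ])]
          simp
      have hc := car m hma m hma
      rw [if_pos rfl] at hc
      rw [← one_DPG5 hc u]
      refine Submodule.add_mem _ (Submodule.span_mono ?_ h2) ?_
      · rintro _ ⟨L, a, b, rfl⟩
        exact ⟨L, a, b.trans (Finset.subset_insert m J), rfl⟩
      · refine Submodule.mem_comap.1 (Submodule.span_le.2 ?_ h1)
        rintro _ ⟨L, a, b, rfl⟩
        refine Submodule.subset_span ⟨m :: L, List.nodup_cons.2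
          ⟨fun hL => hm (b (List.mem_toFinset.2 hL)), a⟩, ?_, by simp⟩
        rw [List.toFinset_cons]
        exact Finset.insert_subset_insert m b
  exact fun u hu => key al le_rfl u hu fun k hk hk' => absurd hk hk'

/-- iterated homotopies -/
theorem iter_hty {δ : Module.End ℂ M} {B H : K → Module.End ℂ M} {N C : Submodule ℂ M}
    (hδ : δ * δ = 0) (h : ∀ k, 1 - B k = δ * H k + H k * δ) (hN : ∀ k, H k ∈ Stb N)
    (hδN : δ ∈ Stb N) (hC : ∀ k, H k ∈ Stb C) (hδC : δ ∈ Stb C) (L : List K) :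
    (L.map B).prod ∈ Stb N ∧ (L.map B).prod ∈ Stb C ∧ Commute (L.map B).prod δ ∧
      ∀ f ∈ C, δ f ∈ N → ∃ g ∈ C, f - (L.map B).prod f - δ g ∈ N := by
  have hB : ∀ k, B k = 1 - (δ * H k + H k * δ) := fun k => by
    rw [← h k, sub_sub_cancel]
  induction L with
  | nil =>
    refine ⟨one_mem _, one_mem _, Commute.one_left _, fun f _ _ => ⟨0, zero_mem _, ?_⟩⟩
    simp
  | cons k L ih =>
    obtain ⟨h1, h2, h3, h4⟩ := ih
    have b1 : B k ∈ Stb N := by
      rw [hB]
      exact sub_mem (one_mem _) (add_mem (mul_mem hδN (hN k)) (mul_mem (hN k) hδN))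
    have b2 : B k ∈ Stb C := by
      rw [hB]
      exact sub_mem (one_mem _) (add_mem (mul_mem hδC (hC k)) (mul_mem (hC k) hδC))
    have b3 : Commute (B k) δ := by
      rw [hB]
      refine Commute.sub_left (Commute.one_left _) ?_
      rw [Commute, SemiconjBy, add_mul, mul_add, mul_assoc (H k), hδ, ← mul_assoc δ δ, hδ,
        mul_zero, zero_mul, add_zero, zero_add, mul_assoc]
    rw [List.map_cons, List.prod_cons]
    refine ⟨mul_mem b1 h1, mul_mem b2 h2, b3.mul_left h3, fun f hf hδf => ?_⟩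
    obtain ⟨g, hg, hfg⟩ := h4 f hf hδf
    refine ⟨g + H k ((L.map B).prod f), add_mem hg (hC k _ (h2 f hf)), ?_⟩
    have e1 : δ ((L.map B).prod f) = (L.map B).prod (δ f) :=
      (congrArg (fun T : Module.End ℂ M => T f) h3.eq).symm
    have e2 : H k (δ ((L.map B).prod f)) ∈ N := by
      rw [e1]
      exact hN k _ (h1 _ hδf)
    have e3 : f - (B k * (L.map B).prod) f - δ (g + H k ((L.map B).prod f)) =
        (f - (L.map B).prod f - δ g) + H k (δ ((L.map B).prod f)) := by
      rw [Module.End.mul_apply]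
      generalize (L.map B).prod f = u
      rw [hB k]
      simp only [LinearMap.sub_apply, LinearMap.add_apply, Module.End.mul_apply,
        Module.End.one_apply, map_add]
      abel
    rw [e3]
    exact add_mem hfg e2

namespace Vac
variable (s : Vac K M)

theorem In_N (k : K) : s.In k ≤ Stb s.N := by
  refine Algebra.adjoin_le ?_
  rintro T (⟨t, rfl | rfl | rfl | rfl⟩ | rfl)
  exacts [s.N_a _, s.N_b _, s.N_x _, s.N_D _, s.N_ev _]

theorem δ_N [Fintype K] (po : Finset (K × Bool)) : s.δ po ∈ Stb s.N := by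
  refine sum_mem fun i _ => mul_mem (s.N_a i) ?_
  unfold Site.X
  split_ifs
  · exact mul_mem (s.N_x i) (s.N_D i)
  · exact s.N_D i

theorem aL_N (L : List K) : s.aL L ∈ Stb s.N :=
  list_prod_mem fun y hy => by
    obtain ⟨i, _, rfl⟩ := List.mem_map.1 hy
    exact s.N_a _

theorem n_N_DPG5 (i : K × Bool) : s.n i ∈ Stb s.N := mul_mem (s.N_a i) (s.N_b i)

theorem ZZ_N (J : Finset K) : s.ZZ J ∈ Stb s.N :=
  cp_mem fun _ _ =>
    add_mem (one_mem _) (mul_mem (sub_mem (s.N_x _) (one_mem _)) (s.n_N_DPG5 _))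

theorem PP_N (J : Finset K) : s.PP J ∈ Stb s.N :=
  cp_mem fun _ _ => mul_mem (mul_mem (s.N_ev _) (sub_mem (one_mem _) (s.n_N_DPG5 _)))
    (sub_mem (one_mem _) (s.n_N_DPG5 _))

theorem RR_N (J : Finset K) : s.RR J ∈ Stb s.N :=
  cp_mem fun _ _ => mul_mem (mul_mem (s.N_ev _) (sub_mem (one_mem _) (s.n_N_DPG5 _)))
    (s.n_N_DPG5 _)

theorem D_word (i : K × Bool) (L : List K) : s.D i (s.aL L s.vac) = 0 := by
  have h : Commute (s.D i) (s.aL L) := s.commute_aL fun k _ => s.Da i _
  rw [← Module.End.mul_apply, h.eq, Module.End.mul_apply, s.vac_D, map_zero]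

theorem ev_vac (h : s.toSite.Fr k) : s.ev k s.vac = s.vac := by
  have h1 := congrArg (fun T : Module.End ℂ M => T s.vac) h.had
  simp only [LinearMap.sub_apply, LinearMap.add_apply, Module.End.mul_apply,
    Module.End.one_apply, s.vac_D, map_zero, add_zero] at h1
  exact (sub_eq_zero.1 h1).symm

/-- span of the words with letters in a set -/
def U_DPG5 (S : Finset K) : Submodule ℂ M :=
  Submodule.span ℂ {u | ∃ L : List K, L.toFinset ⊆ S ∧ u = s.aL L s.vac}

theorem a_U_DPG5 {S : Finset K} (hk : k ∈ S) : s.a (k, false) ∈ Stb (s.U_DPG5 S) := by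
  refine fun u hu => Submodule.mem_comap.1 (Submodule.span_le.2 ?_ hu)
  rintro _ ⟨L, b, rfl⟩
  refine Submodule.subset_span ⟨k :: L, ?_, by simp⟩
  rw [List.toFinset_cons]
  exact Finset.insert_subset hk b

theorem kill_DPG5 {β : K → Module.End ℂ M} (h0 : ∀ k ∈ al, β k s.vac = 0)
    (car : ∀ k ∈ al, ∀ l ∈ al,
      β k * s.a (l, false) + s.a (l, false) * β k = if k = l then 1 else 0)
    (hk : k ∈ al) (L : List K) (hL : L.toFinset ⊆ al) (hkL : k ∉ L) :
    β k (s.aL L s.vac) = 0 := by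
  induction L with
  | nil => simpa using h0 k hk
  | cons m L ih =>
    rw [List.toFinset_cons, Finset.insert_subset_iff] at hL
    rw [List.mem_cons, not_or] at hkL
    have hc := car k hk m hL.1
    rw [if_neg hkL.1] at hc
    rw [CAR.aL_cons, Module.End.mul_apply, anti_DPG5 hc, ih hL.2 hkL.2, map_zero, neg_zero]

theorem b_U_DPG5 {β : K → Module.End ℂ M} (h0 : ∀ k ∈ al, β k s.vac = 0)
    (car : ∀ k ∈ al, ∀ l ∈ al,
      β k * s.a (l, false) + s.a (l, false) * β k = if k = l then 1 else 0)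
    (hk : k ∈ al) {S : Finset K} (hS : S ⊆ al) : β k ∈ Stb (s.U_DPG5 S) := by
  refine fun u hu => Submodule.mem_comap.1 (Submodule.span_le.2 ?_ hu)
  rintro _ ⟨L, b, rfl⟩
  change β k (s.aL L s.vac) ∈ s.U_DPG5 S
  induction L with
  | nil =>
    rw [CAR.aL_nil, Module.End.one_apply, h0 k hk]
    exact zero_mem _
  | cons m L ih =>
    rw [List.toFinset_cons, Finset.insert_subset_iff] at b
    have hc := congrArg (fun T : Module.End ℂ M => T (s.aL L s.vac)) (car k hk m (hS b.1))
    simp only [LinearMap.add_apply, Module.End.mul_apply] at hc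
    rw [CAR.aL_cons, Module.End.mul_apply, eq_sub_of_add_eq hc]
    refine sub_mem ?_ (s.a_U_DPG5 b.1 _ (ih b.2))
    split_ifs
    · exact Submodule.subset_span ⟨L, b.2, rfl⟩
    · exact zero_mem _

theorem off_DPG5 {β : K → Module.End ℂ M} (h0 : ∀ k ∈ al, β k s.vac = 0)
    (car : ∀ k ∈ al, ∀ l ∈ al,
      β k * s.a (l, false) + s.a (l, false) * β k = if k = l then 1 else 0)
    {S : Finset K} (hS : S ⊆ al) (L : List K) (hL : L.toFinset ⊆ al) (h : ¬ L.toFinset ⊆ S) :
    ∀ u ∈ s.U_DPG5 S, (L.map β).reverse.prod u = 0 := by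
  induction L with
  | nil => simp at h
  | cons m L ih =>
    rw [List.toFinset_cons, Finset.insert_subset_iff] at hL h
    intro u hu
    rw [List.map_cons, List.reverse_cons, List.prod_append, List.prod_singleton,
      Module.End.mul_apply]
    by_cases hm : m ∈ S
    · exact ih hL.2 (fun h' => h ⟨hm, h'⟩) _ (s.b_U_DPG5 h0 car hL.1 hS u hu)
    · have : β m u = 0 := by
        refine (Submodule.span_le (p := LinearMap.ker (β m))).2 ?_ hu
        rintro _ ⟨L', b, rfl⟩
        exact s.kill_DPG5 h0 car hL.1 L' (b.trans hS) fun h' => hm (b (List.mem_toFinset.2 h'))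
      rw [this, map_zero]

theorem diag_DPG5 {β : K → Module.End ℂ M} (h0 : ∀ k ∈ al, β k s.vac = 0)
    (car : ∀ k ∈ al, ∀ l ∈ al,
      β k * s.a (l, false) + s.a (l, false) * β k = if k = l then 1 else 0)
    (L : List K) (hL : L.toFinset ⊆ al) (hn : L.Nodup) :
    (L.map β).reverse.prod (s.aL L s.vac) = s.vac := by
  induction L with
  | nil => simp
  | cons m L ih =>
    rw [List.toFinset_cons, Finset.insert_subset_iff] at hL
    rw [List.nodup_cons] at hn
    have hc := car m hL.1 m hL.1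
    rw [if_pos rfl] at hc
    have h1 := one_DPG5 hc (s.aL L s.vac)
    rw [s.kill_DPG5 h0 car hL.1 L hL.2 hn.1, map_zero, add_zero] at h1
    rw [List.map_cons, List.reverse_cons, List.prod_append, List.prod_singleton,
      Module.End.mul_apply, CAR.aL_cons, Module.End.mul_apply, h1, ih hL.2 hn.2]

/-- the words are independent -/
theorem indep (hw : Words al σ wd) {β : K → Module.End ℂ M} {T : Module.End ℂ M}
    (hβ : ∀ k ∈ al, β k ∈ Stb s.N) (h0 : ∀ k ∈ al, β k s.vac = 0)
    (car : ∀ k ∈ al, ∀ l ∈ al,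
      β k * s.a (l, false) + s.a (l, false) * β k = if k = l then 1 else 0)
    (hT : ∀ k ∈ al, Commute T (β k)) (hv : T s.vac = s.vac) {γ : τ → ℂ}
    (h : T (∑ t ∈ σ, γ t • s.aL (wd t) s.vac) ∈ s.N) : ∀ t ∈ σ, γ t = 0 := by
  classical
  by_contra hne
  push Not at hne
  obtain ⟨t0, ht0, hγ0⟩ := hne
  obtain ⟨t, ht, hmax⟩ := (σ.filter fun t => γ t ≠ 0).exists_max_image
    (fun t => (wd t).toFinset.card) ⟨t0, Finset.mem_filter.2 ⟨ht0, hγ0⟩⟩
  rw [Finset.mem_filter] at ht
  have hmem : ∀ y ∈ ((wd t).map β).reverse, ∃ k ∈ al, y = β k := fun y hy => by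
    obtain ⟨i, hi, rfl⟩ := List.mem_map.1 (List.mem_reverse.1 hy)
    exact ⟨i, hw.sub t ht.1 (List.mem_toFinset.2 hi), rfl⟩
  have hBN : ((wd t).map β).reverse.prod ∈ Stb s.N := list_prod_mem fun y hy => by
    obtain ⟨k, hk, rfl⟩ := hmem y hy
    exact hβ k hk
  have hBT : Commute T ((wd t).map β).reverse.prod := Commute.list_prod_right _ _ fun y hy => by
    obtain ⟨k, hk, rfl⟩ := hmem y hy
    exact hT k hk
  have h1 := hBN _ h
  rw [← Module.End.mul_apply, ← hBT.eq, Module.End.mul_apply, map_sum,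
    Finset.sum_eq_single_of_mem t ht.1, map_smul,
    s.diag_DPG5 h0 car _ (hw.sub t ht.1) (hw.nodup t ht.1), map_smul, hv] at h1
  · exact ht.2 (s.vac_N _ h1)
  · intro t' ht' hne
    by_cases hγ : γ t' = 0
    · rw [hγ, zero_smul, map_zero]
    · rw [map_smul, s.off_DPG5 h0 car (hw.sub t' ht') _ (hw.sub t ht.1) (fun hs => hne ?_) _
        (Submodule.subset_span ⟨wd t', le_rfl, rfl⟩), smul_zero]
      exact (hw.inj t ht.1 t' ht' (Finset.eq_of_subset_of_card_le hs
        (hmax t' (Finset.mem_filter.2 ⟨ht', hγ⟩)))).symm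

/-- coefficients of a constant logarithmic form -/
theorem Cst_coeff (hw : Words al σ wd) (hs : ∀ J ⊆ al, ∃ t ∈ σ, (wd t).toFinset = J)
    (h : f ∈ s.Cst al) : ∃ γ : τ → ℂ, f = ∑ t ∈ σ, γ t • s.aL (wd t) s.vac := by
  classical
  induction h using Submodule.span_induction with
  | mem u hu =>
    obtain ⟨L, hn, hL, rfl⟩ := hu
    obtain ⟨t, ht, he⟩ := hs _ hL
    have hp : L.Perm (wd t) := List.perm_of_nodup_nodup_toFinset_eq hn (hw.nodup t ht) he.symm
    have key : ∀ c : ℂ, ∑ t' ∈ σ, (if t' = t then c else 0) • s.aL (wd t') s.vac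
        = c • s.aL (wd t) s.vac := fun c => by
      rw [Finset.sum_eq_single_of_mem t ht, if_pos rfl]
      intro t' _ h'
      rw [if_neg h', zero_smul]
    rcases s.aL_perm hp with h | h
    · exact ⟨fun t' => if t' = t then 1 else 0, by rw [key, h, one_smul]⟩
    · exact ⟨fun t' => if t' = t then -1 else 0, by rw [key, h, neg_one_smul, LinearMap.neg_apply]⟩
  | zero => exact ⟨0, by simp⟩
  | add u v _ _ hu hv =>
    obtain ⟨γ, rfl⟩ := hu
    obtain ⟨γ', rfl⟩ := hv
    exact ⟨γ + γ', by simp [add_smul, Finset.sum_add_distrib]⟩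
  | smul c u _ hu =>
    obtain ⟨γ, rfl⟩ := hu
    exact ⟨c • γ, by simp [Finset.smul_sum, smul_smul]⟩

end Vac

end Pool.Agent.PWD.Loc
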