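import Pool.Agent.P.MP_65ad7c_ag.DPG5

/-! The cohomology of the punctured polydisc. -/

open Filter Topology

noncomputable section
namespace Pool.Agent.PWD.Loc

variable {K M τ : Type} [DecidableEq K] [AddCommGroup M] [Module ℂ M]
  {al J : Finset K} {σ : Finset τ} {wd : τ → List K} {k : K} {w p q : ℕ} {f g : M}

section alg
variable {R : Type} [Ring R] [Algebra ℂ R]

theorem car1_DPG6 (s : CAR K R) (l k : K) :
    (s.b (l, false) + s.b (l, true)) * ((2⁻¹ : ℂ) • (s.a (k, false) - s.a (k, true))) +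
      ((2⁻¹ : ℂ) • (s.a (k, false) - s.a (k, true))) * (s.b (l, false) + s.b (l, true)) = 0 := by
  have h1 := s.car (l, false) (k, false)
  have h2 := s.car (l, false) (k, true)
  have h3 := s.car (l, true) (k, false)
  have h4 := s.car (l, true) (k, true)
  rw [mul_smul_comm, smul_mul_assoc, ← smul_add]
  refine smul_eq_zero_of_right _ ?_
  by_cases h : l = k
  · simp only [h, if_true, Prod.mk.injEq, true_and, Bool.false_eq_true, Bool.true_eq_false,
      if_false] at h1 h2 h3 h4 ⊢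
    linear_combination (norm := noncomm_ring) h1 - h2 + h3 - h4
  · simp only [h, Prod.mk.injEq, false_and, if_false] at h1 h2 h3 h4
    linear_combination (norm := noncomm_ring) h1 - h2 + h3 - h4

theorem car2_DPG6 (s : CAR K R) (l k : K) :
    (s.b (l, false) - s.b (l, true)) * ((2⁻¹ : ℂ) • (s.a (k, false) - s.a (k, true))) +
      ((2⁻¹ : ℂ) • (s.a (k, false) - s.a (k, true))) * (s.b (l, false) - s.b (l, true)) =
      if l = k then 1 else 0 := by
  have h1 := s.car (l, false) (k, false)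
  have h2 := s.car (l, false) (k, true)
  have h3 := s.car (l, true) (k, false)
  have h4 := s.car (l, true) (k, true)
  rw [mul_smul_comm, smul_mul_assoc, ← smul_add]
  by_cases h : l = k
  · simp only [h, if_true, Prod.mk.injEq, true_and, Bool.false_eq_true, Bool.true_eq_false,
      if_false] at h1 h2 h3 h4 ⊢
    have e : (s.b (k, false) - s.b (k, true)) * (s.a (k, false) - s.a (k, true)) +
        (s.a (k, false) - s.a (k, true)) * (s.b (k, false) - s.b (k, true)) = 1 + 1 := by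
      linear_combination (norm := noncomm_ring) h1 - h2 - h3 + h4
    rw [e, ← two_smul ℂ, smul_smul, inv_mul_cancel₀ two_ne_zero, one_smul]
  · simp only [h, Prod.mk.injEq, false_and, if_false] at h1 h2 h3 h4 ⊢
    refine smul_eq_zero_of_right _ ?_
    linear_combination (norm := noncomm_ring) h1 - h2 - h3 + h4

omit [Algebra ℂ R] in
theorem car3_DPG6 (s : CAR K R) (l k : K) :
    (s.b (l, false) - s.b (l, true)) * s.a (k, false) +
      s.a (k, false) * (s.b (l, false) - s.b (l, true)) = if l = k then 1 else 0 := by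
  have h1 := s.car (l, false) (k, false)
  have h3 := s.car (l, true) (k, false)
  by_cases h : l = k
  · simp only [h, if_true, Prod.mk.injEq, true_and, Bool.true_eq_false, if_false] at h1 h3 ⊢
    linear_combination (norm := noncomm_ring) h1 - h3
  · simp only [h, Prod.mk.injEq, false_and, if_false] at h1 h3 ⊢
    linear_combination (norm := noncomm_ring) h1 - h3

theorem car4_DPG6 (s : CAR K R) {i : K × Bool} {k : K} (h : i.1 ≠ k) :
    s.b i * ((2⁻¹ : ℂ) • (s.a (k, false) - s.a (k, true))) +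
      ((2⁻¹ : ℂ) • (s.a (k, false) - s.a (k, true))) * s.b i = 0 := by
  have h1 := s.car i (k, false)
  have h2 := s.car i (k, true)
  rw [if_neg fun e => h (congrArg Prod.fst e)] at h1 h2
  rw [mul_smul_comm, smul_mul_assoc, ← smul_add]
  refine smul_eq_zero_of_right _ ?_
  linear_combination (norm := noncomm_ring) h1 - h2

omit [Algebra ℂ R] in
theorem bb_DPG6 (s : CAR K R) (i : K × Bool) (k : K) :
    s.b i * (s.b (k, false) - s.b (k, true)) + (s.b (k, false) - s.b (k, true)) * s.b i = 0 := by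
  linear_combination (norm := noncomm_ring) s.bb i (k, false) - s.bb i (k, true)

theorem kill_DPG6 (s : Site K R) {B : K → R} (hB : ∀ l, B l ∈ s.Out l) {Y : R} (hY : Y ∈ s.In k)
    (h : Y * B k = 0) {L : List K} (hk : k ∈ L) : Y * (L.map B).prod = 0 := by
  induction L with
  | nil => simp at hk
  | cons l L ih =>
    rw [List.map_cons, List.prod_cons, ← mul_assoc]
    by_cases e : k = l
    · rw [← e, h, zero_mul]
    · rw [← (s.commute_of_Out (hB l) hY e).eq, mul_assoc,
        ih ((List.mem_cons.1 hk).resolve_left e), mul_zero]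

end alg

theorem anti_DPG6 {Y W : Module.End ℂ M} (h : Y * W + W * Y = 0) {u : M} (hu : Y u = 0) :
    Y (W u) = 0 := by
  have := congrArg (fun A : Module.End ℂ M => A u) h
  simpa [hu] using this

theorem comm_DPG6 {Y W : Module.End ℂ M} (h : Commute Y W) {u : M} (hu : Y u = 0) :
    Y (W u) = 0 := by
  have := congrArg (fun A : Module.End ℂ M => A u) h.eq
  simpa [hu] using this

theorem X_zero_DPG6 (s : Site K (Module.End ℂ M)) (po : Finset (K × Bool)) {u : M}
    {i : K × Bool} (h : s.D i u = 0) : s.X po i u = 0 := by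
  unfold Site.X
  split_ifs
  · rw [Module.End.mul_apply, h, map_zero]
  · exact h

namespace PPM
variable [Fintype K] (s : PPM K M)

theorem site_DPG6 (k : K) : ∃ H B : Module.End ℂ M,
    1 - B = s.δ (pb s.al) * H + H * s.δ (pb s.al) ∧ H ∈ Stb s.N ∧ B ∈ s.Out k ∧
    (∀ t, s.X (pb s.al) (k, t) * B = 0) ∧
    (k ∈ s.al → (s.b (k, false) + s.b (k, true)) * B = 0 ∧
      Commute B (s.b (k, false) - s.b (k, true))) ∧
    (k ∉ s.al → ∀ t, s.b (k, t) * B = 0) ∧ B s.vac = s.vac := by
  by_cases hk : k ∈ s.al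
  · obtain ⟨H, B, h1, h2, h3, h4, h5, h6, G₁, G₂, G₃, h7⟩ :=
      (s.po k hk).hty (po := pb s.al) (mem_pb.2 hk) (mem_pb.2 hk)
    refine ⟨H, B, h1, (h2 _ (s.In_N k) (s.N_T k hk) (s.N_S k hk)).1, h3, h4, fun _ => ⟨h5, h6⟩,
      fun h => absurd hk h, ?_⟩
    have := congrArg (fun A : Module.End ℂ M => A s.vac) h7
    simp only [LinearMap.sub_apply, LinearMap.add_apply, Module.End.mul_apply,
      Module.End.one_apply, X_zero_DPG6 s.toSite _ (s.vac_D _), s.vac_b, map_zero,
      add_zero] at this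
    exact (sub_eq_zero.1 this).symm
  · obtain ⟨H, h1, h2, -⟩ := (s.fr k hk).hty (po := pb s.al) fun h => hk (mem_pb.1 h)
    rw [if_neg fun h => hk (mem_pb.1 h)] at h1
    refine ⟨H, s.P k, h1, h2 _ (s.In_N k) (s.N_I0 k hk) (s.N_I1 k hk), s.P_Out k, fun t => ?_,
      fun h => absurd h hk, fun _ t => s.b_P k t, ?_⟩
    · rw [Site.P, ← mul_assoc, ← mul_assoc, (s.fr k hk).X_ev, zero_mul, zero_mul]
    · simp only [Site.P, CAR.n, LinearMap.sub_apply, Module.End.mul_apply, Module.End.one_apply,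
        s.vac_b, map_zero, sub_zero]
      exact s.ev_vac (s.fr k hk)

theorem proj_DPG6 : ∃ T : Module.End ℂ M, T ∈ Stb s.N ∧ Commute T (s.δ (pb s.al)) ∧
    (∀ f, s.δ (pb s.al) f ∈ s.N → ∃ g, f - T f - s.δ (pb s.al) g ∈ s.N) ∧
    (∀ i, s.X (pb s.al) i * T = 0) ∧
    (∀ k ∈ s.al, (s.b (k, false) + s.b (k, true)) * T = 0) ∧
    (∀ k ∉ s.al, ∀ t, s.b (k, t) * T = 0) ∧
    (∀ k ∈ s.al, Commute T (s.b (k, false) - s.b (k, true))) ∧ T s.vac = s.vac := by
  choose H B h1 h2 h3 h4 h5 h6 h7 using s.site_DPG6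
  obtain ⟨g1, -, g3, g4⟩ := iter_hty (C := ⊤) (s.δ_δ (pb s.al)) h1 h2 (s.δ_N _)
    (fun _ _ _ => Submodule.mem_top) (fun _ _ => Submodule.mem_top) Finset.univ.toList
  have hm : ∀ k : K, k ∈ (Finset.univ : Finset K).toList := fun k =>
    Finset.mem_toList.2 (Finset.mem_univ k)
  refine ⟨_, g1, g3, fun f hf => ?_, fun i => ?_, fun k hk => ?_, fun k hk t => ?_,
    fun k hk => ?_, ?_⟩
  · obtain ⟨g, -, hg⟩ := g4 f Submodule.mem_top hf
    exact ⟨g, hg⟩
  · exact kill_DPG6 s.toSite h3 (s.X_In i) (h4 i.1 i.2) (hm _)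
  · exact kill_DPG6 s.toSite h3 (add_mem (s.b_In (k, false)) (s.b_In (k, true))) (h5 k hk).1 (hm _)
  · exact kill_DPG6 s.toSite h3 (s.b_In (k, t)) (h6 k hk t) (hm _)
  · refine Commute.list_prod_left _ _ fun y hy => ?_
    obtain ⟨l, -, rfl⟩ := List.mem_map.1 hy
    by_cases e : k = l
    · exact e ▸ (h5 k hk).2
    · exact s.commute_of_Out (h3 l) (sub_mem (s.b_In (k, false)) (s.b_In (k, true))) e
  · generalize (Finset.univ : Finset K).toList = L
    induction L with
    | nil => rfl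
    | cons l L ih => rw [List.map_cons, List.prod_cons, Module.End.mul_apply, ih, h7]

theorem word_DPG6 {L : List K} (hL : L.toFinset ⊆ s.al) : ∃ y,
    (L.map fun k => (2⁻¹ : ℂ) • (s.a (k, false) - s.a (k, true))).prod s.vac =
      s.aL L s.vac + s.δ (pb s.al) y := by
  induction L with
  | nil => exact ⟨0, by simp⟩
  | cons k L ih =>
    rw [List.toFinset_cons, Finset.insert_subset_iff] at hL
    obtain ⟨y, hy⟩ := ih hL.2
    obtain ⟨G, hG⟩ := (s.po k hL.1).rad (po := pb s.al) (mem_pb.2 hL.1) (mem_pb.2 hL.1)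
    have h1 := congrArg (fun A : Module.End ℂ M => A (s.aL L s.vac)) hG
    simp only [LinearMap.add_apply, LinearMap.sum_apply, LinearMap.smul_apply,
      Module.End.mul_apply, X_zero_DPG6 s.toSite _ (s.D_word _ L), map_zero,
      Finset.sum_const_zero, add_zero] at h1
    have h2 := congrArg (fun A : Module.End ℂ M => A y) (s.a_δ (pb s.al) (k, false))
    have h3 := congrArg (fun A : Module.End ℂ M => A y) (s.a_δ (pb s.al) (k, true))
    simp only [LinearMap.add_apply, Module.End.mul_apply, LinearMap.zero_apply] at h2 h3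
    refine ⟨-(s.po k hL.1).S (s.aL L s.vac) -
      (2⁻¹ : ℂ) • (s.a (k, false) y - s.a (k, true) y), ?_⟩
    rw [List.map_cons, List.prod_cons, Module.End.mul_apply, hy, CAR.aL_cons]
    simp only [LinearMap.sub_apply, LinearMap.smul_apply, Module.End.mul_apply, map_add, map_sub,
      map_neg, map_smul, h1]
    linear_combination (norm := module) (2⁻¹ : ℂ) • h2 - (2⁻¹ : ℂ) • h3

theorem pp1 (h : s.δ (pb s.al) f ∈ s.N) :
    ∃ u ∈ s.Cst s.al, ∃ g, f - u - s.δ (pb s.al) g ∈ s.N := by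
  obtain ⟨T, -, -, h3, h4, h5, h6, -⟩ := s.proj_DPG6
  obtain ⟨g, hg⟩ := h3 f h
  let C : Submodule ℂ M :=
    { carrier := {u | (∀ i, s.D i u = 0) ∧
        (∀ k ∈ s.al, (s.b (k, false) + s.b (k, true)) u = 0) ∧ ∀ k ∉ s.al, ∀ t, s.b (k, t) u = 0}
      add_mem' := fun hu hv => ⟨fun i => by rw [map_add, hu.1, hv.1, add_zero],
        fun k hk => by rw [map_add, hu.2.1 k hk, hv.2.1 k hk, add_zero],
        fun k hk t => by rw [map_add, hu.2.2 k hk, hv.2.2 k hk, add_zero]⟩
      zero_mem' := ⟨fun _ => map_zero _, fun _ _ => map_zero _, fun _ _ _ => map_zero _⟩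
      smul_mem' := fun c u hu => ⟨fun i => by rw [map_smul, hu.1, smul_zero],
        fun k hk => by rw [map_smul, hu.2.1 k hk, smul_zero],
        fun k hk t => by rw [map_smul, hu.2.2 k hk, smul_zero]⟩ }
  have hC : T f ∈ C := by
    refine ⟨fun i => ?_, fun k hk => ?_, fun k hk t => ?_⟩
    · have e : s.X (pb s.al) i (T f) = 0 := by
        rw [← Module.End.mul_apply, h4, LinearMap.zero_apply]
      unfold Site.X at e
      split_ifs at e
      · exact s.x_inj i _ e
      · exact e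
    · rw [← Module.End.mul_apply, h5 k hk, LinearMap.zero_apply]
    · rw [← Module.End.mul_apply, h6 k hk, LinearMap.zero_apply]
  have hs := span_words (al := s.al) (C := C) (v := s.vac)
    (α := fun k => (2⁻¹ : ℂ) • (s.a (k, false) - s.a (k, true)))
    (β := fun k => s.b (k, false) - s.b (k, true))
    (fun k hk u hu => ⟨fun i => comm_DPG6 (((s.Da i _).sub_right (s.Da i _)).smul_right _) (hu.1 i),
      fun l hl => anti_DPG6 (car1_DPG6 s.toCAR l k) (hu.2.1 l hl),
      fun l hl t => anti_DPG6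
        (car4_DPG6 s.toCAR (i := (l, t)) (k := k) fun e : l = k => hl (e ▸ hk)) (hu.2.2 l hl t)⟩)
    (fun k hk u hu => ⟨fun i => comm_DPG6 ((s.Db i _).sub_right (s.Db i _)) (hu.1 i),
      fun l hl => anti_DPG6 (by
        rw [add_mul, mul_add, add_add_add_comm, bb_DPG6 s.toCAR, bb_DPG6 s.toCAR, add_zero])
        (hu.2.1 l hl),
      fun l hl t => anti_DPG6 (bb_DPG6 s.toCAR (l, t) k) (hu.2.2 l hl t)⟩)
    (fun k _ l _ => car2_DPG6 s.toCAR k l)
    (fun k _ l _ => by
      rw [sub_mul (s.b (k, false)), mul_sub _ (s.b (k, false)), sub_add_sub_comm, bb_DPG6 s.toCAR,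
        bb_DPG6 s.toCAR, sub_zero])
    (fun u hu h0 => s.ker u hu.1 fun i => by
      obtain ⟨k, t⟩ := i
      by_cases hk : k ∈ s.al
      · have e1 := hu.2.1 k hk
        have e2 := h0 k hk
        rw [LinearMap.add_apply] at e1
        rw [LinearMap.sub_apply] at e2
        cases t
        · linear_combination (norm := module) (2⁻¹ : ℂ) • e1 + (2⁻¹ : ℂ) • e2
        · linear_combination (norm := module) (2⁻¹ : ℂ) • e1 - (2⁻¹ : ℂ) • e2
      · exact hu.2.2 k hk t)
  have hle : C ≤ s.Cst s.al ⊔ LinearMap.range (s.δ (pb s.al)) := by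
    refine hs.trans (Submodule.span_le.2 ?_)
    rintro _ ⟨L, h1, h2, rfl⟩
    obtain ⟨y, hy⟩ := s.word_DPG6 h2
    rw [hy]
    exact Submodule.add_mem_sup (Submodule.subset_span ⟨L, h1, h2, rfl⟩) ⟨y, rfl⟩
  obtain ⟨u, hu, _, ⟨y, rfl⟩, e⟩ := Submodule.mem_sup.1 (hle hC)
  refine ⟨u, hu, g + y, ?_⟩
  rw [← e] at hg
  rw [map_add]
  have e2 : f - u - (s.δ (pb s.al) g + s.δ (pb s.al) y) =
      f - (u + s.δ (pb s.al) y) - s.δ (pb s.al) g := by abel
  rw [e2]
  exact hg

theorem pp2 (hw : Words s.al σ wd) {γ : τ → ℂ}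
    (h : ∑ t ∈ σ, γ t • s.aL (wd t) s.vac - s.δ (pb s.al) g ∈ s.N) : ∀ t ∈ σ, γ t = 0 := by
  obtain ⟨T, h1, h2, -, h4, -, -, h7, h8⟩ := s.proj_DPG6
  have e : T * s.δ (pb s.al) = 0 := by
    rw [h2.eq, Site.δ, Finset.sum_mul]
    exact Finset.sum_eq_zero fun i _ => by rw [mul_assoc, h4, mul_zero]
  have h3 := h1 _ h
  rw [map_sub, ← Module.End.mul_apply T (s.δ (pb s.al)), e, LinearMap.zero_apply, sub_zero] at h3
  exact s.indep hw (β := fun k => s.b (k, false) - s.b (k, true))
    (fun k _ => sub_mem (s.N_b _) (s.N_b _))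
    (fun k _ => by rw [LinearMap.sub_apply, s.vac_b, s.vac_b, sub_zero])
    (fun k _ l _ => car3_DPG6 s.toCAR k l) h7 h8 h3

end PPM

end Pool.Agent.PWD.Loc
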