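import Pool.Agent.P.MP_65ad7c_ag.DPG5

/-! The filtration by vanishing of residues. -/

open Filter Topology

noncomputable section
namespace Pool.Agent.PWD.Loc

section ring
variable {K R : Type} [DecidableEq K] [Ring R] [Algebra ℂ R] (s : Site K R) {k : K}

omit [Algebra ℂ R] in
theorem ev_n_DPG7 (k : K) (i : K × Bool) : Commute (s.ev k) (s.n i) :=
  (s.eva k i).mul_right (s.evb k i)

omit [Algebra ℂ R] in
theorem x_n_DPG7 (i j : K × Bool) : Commute (s.x i) (s.n j) := (s.xa i j).mul_right (s.xb i j)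

theorem n_Rs_DPG7 (i : K × Bool) (k : K) : Commute (s.n i) (s.Rs k) :=
  ((ev_n_DPG7 s k i).symm.mul_right ((Commute.one_right _).sub_right (s.n_comm _ _))).mul_right
    (s.n_comm _ _)

theorem n_Z_DPG7 (i : K × Bool) : s.n i * s.Z i = s.x i * s.n i := by
  have h1 := (x_n_DPG7 s i i).eq
  have h2 := s.n_n i
  unfold Site.Z
  linear_combination (norm := noncomm_ring) -(h1 * s.n i) + s.x i * h2 - h2

theorem one_sub_Z_DPG7 (i : K × Bool) : (1 - s.n i) * s.Z i = 1 - s.n i := by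
  have h := n_Z_DPG7 s i
  rw [sub_mul, h]
  unfold Site.Z
  noncomm_ring

theorem Z_one_sub_DPG7 (i : K × Bool) : s.Z i * (1 - s.n i) = 1 - s.n i := by
  have h2 := s.n_n i
  unfold Site.Z
  linear_combination (norm := noncomm_ring) -(s.x i * h2) + h2

theorem a_P_DPG7 (k : K) :
    s.a (k, false) * s.P k = s.ev k * (1 - s.n (k, true)) * s.a (k, false) := by
  have h1 : Commute (s.a (k, false)) (s.ev k * (1 - s.n (k, true))) :=
    (s.eva k _).symm.mul_right ((Commute.one_right _).sub_right (s.n_a_ne (by simp)).symm)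
  unfold Site.P
  rw [← mul_assoc, h1.eq, mul_assoc, mul_sub (s.a (k, false)), mul_one, s.a_n, sub_zero]

theorem Rs_a_DPG7 (k : K) : s.Rs k * s.a (k, false) = s.a (k, false) * s.P k := by
  rw [a_P_DPG7, Site.Rs, mul_assoc, s.n_a]

theorem P_b_DPG7 (k : K) : s.P k * s.b (k, false) = s.b (k, false) * s.Rs k := by
  have h1 : Commute (s.b (k, false)) (s.ev k * (1 - s.n (k, true))) :=
    (s.evb k _).symm.mul_right ((Commute.one_right _).sub_right (s.n_b_ne (by simp)).symm)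
  unfold Site.P Site.Rs
  rw [← mul_assoc (s.b (k, false)), h1.eq, mul_assoc, mul_assoc _ (s.b (k, false)), s.b_n, sub_mul,
    one_mul, s.n_b, sub_zero]

variable {s}

theorem ev_ev_DPG7 (h : s.Fr k) : s.ev k * s.ev k = s.ev k := by
  have h1 := h.had
  have h2 := h.ev_x false
  have h3 := h.ev_x true
  linear_combination (norm := noncomm_ring) -(s.ev k * h1) - h2 * h.I0 * s.D (k, false)
    - h3 * h.I0 * s.D (k, true)

omit [Algebra ℂ R] in
theorem idem_DPG7 {e u v : R} (he : e * e = e) (hu : u * u = u) (hv : v * v = v)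
    (h1 : Commute e u) (h2 : Commute e v) (h3 : Commute u v) :
    e * u * v * (e * u * v) = e * u * v := by
  rw [Commute.mul_mul_mul_comm (h2.mul_left h3).symm, Commute.mul_mul_mul_comm h1.symm, he, hu, hv]

theorem nn_DPG7 (i : K × Bool) : (1 - s.n i) * (1 - s.n i) = 1 - s.n i := by
  have h2 := s.n_n i
  linear_combination (norm := noncomm_ring) h2

theorem Rs_Rs_DPG7 (h : s.Fr k) : s.Rs k * s.Rs k = s.Rs k :=
  idem_DPG7 (ev_ev_DPG7 h) (nn_DPG7 _) (s.n_n _)
    ((Commute.one_right _).sub_right (ev_n_DPG7 s _ _)) (ev_n_DPG7 s _ _)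
    ((Commute.one_left _).sub_left (s.n_comm _ _))

theorem P_P_DPG7 (h : s.Fr k) : s.P k * s.P k = s.P k :=
  idem_DPG7 (ev_ev_DPG7 h) (nn_DPG7 _) (nn_DPG7 _)
    ((Commute.one_right _).sub_right (ev_n_DPG7 s _ _))
    ((Commute.one_right _).sub_right (ev_n_DPG7 s _ _))
    ((Commute.one_left _).sub_left ((Commute.one_right _).sub_right (s.n_comm _ _)))

theorem Rs_Z_DPG7 (h : s.Fr k) : s.Rs k * s.Z (k, false) = 0 := by
  have h1 : Commute (1 - s.n (k, true)) (s.x (k, false)) :=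
    (Commute.one_left _).sub_left (x_n_DPG7 s _ _).symm
  rw [Site.Rs, mul_assoc, n_Z_DPG7, ← mul_assoc, mul_assoc (s.ev k), h1.eq, ← mul_assoc,
    h.ev_x false, zero_mul, zero_mul]

end ring

variable {K M τ : Type} [DecidableEq K] [AddCommGroup M] [Module ℂ M]
  {al J : Finset K} {σ : Finset τ} {wd : τ → List K} {k : K} {w p q : ℕ} {f g : M}

namespace LogM
variable (s : LogM K M)

theorem RR_insert (hk : k ∉ J) : s.RR (insert k J) = s.Rs k * s.RR J :=
  cp_insert s.Rs_comm hk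
theorem ZZ_insert (hk : k ∉ J) : s.ZZ (insert k J) = s.Z (k, false) * s.ZZ J :=
  cp_insert (f := fun k => s.Z (k, false)) (fun _ _ => s.Z_comm _ _) hk
theorem PP_insert (hk : k ∉ J) : s.PP (insert k J) = s.P k * s.PP J :=
  cp_insert s.P_comm hk
theorem RR_union (I J : Finset K) : s.RR I * s.RR J = s.RR (I ∪ J) := by
  induction I using Finset.induction_on with
  | empty => simp [Site.RR]
  | insert k I hk ih =>
    rw [s.RR_insert hk, mul_assoc, ih, Finset.insert_union]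
    by_cases h : k ∈ I ∪ J
    · rw [Finset.insert_eq_of_mem h, Site.RR, cp_erase s.Rs_comm h, ← mul_assoc,
        Rs_Rs_DPG7 (s.fr k)]
    · rw [s.RR_insert h]
/-- an operator at the site `k` commutes with the products over sets that avoid `k` -/
theorem Out_RR {T : Module.End ℂ M} (h : T ∈ s.Out k) (hk : k ∉ J) : Commute T (s.RR J) :=
  commute_cp fun l hl => s.commute_of_Out h (s.Rs_In l) fun e => hk (e ▸ hl)
theorem Out_ZZ {T : Module.End ℂ M} (h : T ∈ s.Out k) (hk : k ∉ J) : Commute T (s.ZZ J) :=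
  commute_cp fun l hl => s.commute_of_Out h (s.Z_In (l, false)) fun e => hk (e ▸ hl)
theorem Out_PP {T : Module.End ℂ M} (h : T ∈ s.Out k) (hk : k ∉ J) : Commute T (s.PP J) :=
  commute_cp fun l hl => s.commute_of_Out h (s.P_In l) fun e => hk (e ▸ hl)
theorem In_RR {T : Module.End ℂ M} (h : T ∈ s.In k) (hk : k ∉ J) : Commute T (s.RR J) :=
  commute_cp fun l hl => (s.commute_of_Out (s.Rs_Out l) h fun e => hk (e ▸ hl)).symm
theorem In_ZZ {T : Module.End ℂ M} (h : T ∈ s.In k) (hk : k ∉ J) : Commute T (s.ZZ J) :=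
  commute_cp fun l hl => (s.commute_of_Out (s.Z_Out (l, false)) h fun e => hk (e ▸ hl)).symm
theorem In_PP {T : Module.End ℂ M} (h : T ∈ s.In k) (hk : k ∉ J) : Commute T (s.PP J) :=
  commute_cp fun l hl => (s.commute_of_Out (s.P_Out l) h fun e => hk (e ▸ hl)).symm
theorem RR_erase_DPG7 (hk : k ∈ J) : s.RR J = s.RR (J.erase k) * s.Rs k := by
  rw [← (s.In_RR (s.Rs_In k) (Finset.notMem_erase k J)).eq, ← s.RR_insert (Finset.notMem_erase k J),
    Finset.insert_erase hk]
theorem RR_Z_DPG7 (hk : k ∈ J) : s.RR J * s.Z (k, false) = 0 := by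
  rw [s.RR_erase_DPG7 hk, mul_assoc, Rs_Z_DPG7 (s.fr k), mul_zero]
theorem RR_a_DPG7 (hk : k ∈ J) (f : M) : s.RR J (s.a (k, false) f) =
    (s.RR (J.erase k) * (s.a (k, false) * s.P k)) f := by
  rw [← Rs_a_DPG7, ← mul_assoc, ← s.RR_erase_DPG7 hk]
  rfl
theorem inj_DPG7 {C : Submodule ℂ M} (hn : ∀ i, s.n i ∈ Stb C)
    (hx : ∀ i u, s.x i u ∈ C → u ∈ C) (h : s.ZZ J f ∈ C) : f ∈ C := by
  induction J using Finset.induction_on with
  | empty => simpa [Site.ZZ] using h
  | insert k J hk ih =>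
    apply ih
    rw [s.ZZ_insert hk, Module.End.mul_apply] at h
    generalize s.ZZ J f = u at h
    have h1 : ((1 - s.n (k, false)) * s.Z (k, false)) u ∈ C :=
      (Stb C).sub_mem (Stb C).one_mem (hn _) _ h
    have h2 : (s.n (k, false) * s.Z (k, false)) u ∈ C := hn _ _ h
    rw [one_sub_Z_DPG7] at h1
    rw [n_Z_DPG7] at h2
    simpa using C.add_mem h1 (hx _ _ h2)
theorem n_Fl_DPG7 (i : K × Bool) (p : ℕ) : s.n i ∈ Stb (s.Fl p) := by
  obtain ⟨k, t⟩ := i
  cases t
  · cases p with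
    | zero => intro v _; rw [s.Fl_zero]; trivial
    | succ p => exact fun v hv => s.Fl_a p k _ (s.Fl_b p k v hv)
  · exact (Stb _).mul_mem (s.Fl_a' p k) (s.Fl_b' p k)
theorem RR_ZZ {I : Finset K} (hI : k ∈ I) (hJ : k ∈ J) : s.RR I * s.ZZ J = 0 := by
  rw [← Finset.insert_erase hJ, s.ZZ_insert (Finset.notMem_erase k J), ← mul_assoc,
    s.RR_Z_DPG7 hI, zero_mul]
theorem ZZ_inj (h : s.ZZ J f ∈ s.N) : f ∈ s.N :=
  s.inj_DPG7 (fun i => s.In_N _ (s.n_In i)) s.N_inj h
theorem ZZ_inj_Fl (h : s.ZZ J f ∈ s.Fl p) : f ∈ s.Fl p :=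
  s.inj_DPG7 (fun i => s.n_Fl_DPG7 i p) (s.Fl_inj p) h
theorem RR_Fl (J : Finset K) (p : ℕ) : s.RR J ∈ Stb (s.Fl p) :=
  cp_mem fun k _ => (Stb _).mul_mem ((Stb _).mul_mem (s.Fl_ev p k)
    ((Stb _).sub_mem (Stb _).one_mem (s.n_Fl_DPG7 _ p))) (s.n_Fl_DPG7 _ p)
theorem n_Fl (i : K × Bool) (p : ℕ) : s.n i ∈ Stb (s.Fl p) := s.n_Fl_DPG7 i p

theorem W_zero (al : Finset K) : s.W al 0 = s.N := by
  ext f
  rw [Vac.mem_W]
  constructor
  · intro h
    simpa [Site.RR] using h ∅ (Finset.empty_subset _) rfl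
  · intro h J _ _
    exact s.RR_N J f h
theorem N_le_W (al : Finset K) (w : ℕ) : s.N ≤ s.W al w :=
  fun f hf => s.mem_W.2 fun J _ _ => s.RR_N J f hf
theorem W_mono {w' : ℕ} (h : w ≤ w') : s.W al w ≤ s.W al w' := by
  intro f hf
  refine s.mem_W.2 fun J hJ hc => ?_
  obtain ⟨I, hI, hIc⟩ := Finset.exists_subset_card_eq (s := J) (n := w) (hc ▸ h)
  rw [← Finset.sdiff_union_of_subset hI, ← s.RR_union]
  exact s.RR_N _ _ (s.mem_W.1 hf I (hI.trans hJ) hIc)
theorem W_ZZ (al : Finset K) (w : ℕ) (g : M) : s.ZZ al g ∈ s.W al (w + 1) := by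
  refine s.mem_W.2 fun J hJ hc => ?_
  obtain ⟨k, hk⟩ := Finset.card_pos.1 (by omega : 0 < J.card)
  rw [← Module.End.mul_apply, s.RR_ZZ hk (hJ hk)]
  exact s.N.zero_mem
theorem In_app_DPG7 {T : Module.End ℂ M} (hT : T ∈ s.In k) (hk : k ∉ J) (h : s.RR J f ∈ s.N) :
    s.RR J (T f) ∈ s.N := by
  rw [← Module.End.mul_apply, ← (s.In_RR hT hk).eq]
  exact s.In_N k hT _ h
theorem up_DPG7 (hk : k ∈ J) (h : s.RR (J.erase k) f ∈ s.N) :
    s.RR J (s.a (k, false) f) ∈ s.N := by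
  rw [s.RR_a_DPG7 hk]
  exact s.In_app_DPG7 ((s.In k).mul_mem (s.a_In (k, false)) (s.P_In k)) (Finset.notMem_erase k J) h
theorem W_Z (hk : k ∉ J) (h : f ∈ s.W J w) : s.Z (k, false) f ∈ s.W (insert k J) w := by
  refine s.mem_W.2 fun I hI hc => ?_
  by_cases hkI : k ∈ I
  · rw [← Module.End.mul_apply, s.RR_Z_DPG7 hkI]
    exact s.N.zero_mem
  · exact s.In_app_DPG7 (s.Z_In (k, false)) hkI
      (s.mem_W.1 h I ((Finset.subset_insert_iff_of_notMem hkI).1 hI) hc)
theorem W_a (h : f ∈ s.W al w) (k : K) : s.a (k, false) f ∈ s.W al (w + 1) := by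
  refine s.mem_W.2 fun I hI hc => ?_
  by_cases hkI : k ∈ I
  · exact s.up_DPG7 hkI (s.mem_W.1 h _ ((Finset.erase_subset k I).trans hI)
      (by rw [Finset.card_erase_of_mem hkI, hc]; rfl))
  · exact s.In_app_DPG7 (s.a_In (k, false)) hkI (s.mem_W.1 (s.W_mono (Nat.le_succ w) h) I hI hc)
theorem W_up (hk : k ∉ J) (h : f ∈ s.W J w) : s.a (k, false) f ∈ s.W (insert k J) (w + 1) := by
  refine s.mem_W.2 fun I hI hc => ?_
  by_cases hkI : k ∈ I
  · exact s.up_DPG7 hkI (s.mem_W.1 h _ (Finset.subset_insert_iff.1 hI)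
      (by rw [Finset.card_erase_of_mem hkI, hc]; rfl))
  · exact s.In_app_DPG7 (s.a_In (k, false)) hkI (s.mem_W.1 (s.W_mono (Nat.le_succ w) h) I
      ((Finset.subset_insert_iff_of_notMem hkI).1 hI) hc)
theorem W_van (hk : k ∉ J) (h : f ∈ s.W J w) (hP : s.P k f ∈ s.N) :
    s.a (k, false) f ∈ s.W (insert k J) w := by
  refine s.mem_W.2 fun I hI hc => ?_
  by_cases hkI : k ∈ I
  · rw [s.RR_a_DPG7 hkI]
    exact s.RR_N _ _ (s.N_a _ _ hP)
  · exact s.In_app_DPG7 (s.a_In (k, false)) hkI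
      (s.mem_W.1 h I ((Finset.subset_insert_iff_of_notMem hkI).1 hI) hc)
theorem W_RR (J : Finset K) : s.RR J ∈ Stb (s.W al w) := by
  intro f hf
  refine s.mem_W.2 fun I hI hc => ?_
  rw [← Module.End.mul_apply, s.RR_union, Finset.union_comm, ← s.RR_union]
  exact s.RR_N _ _ (s.mem_W.1 hf I hI hc)
theorem W_n (k : K) : s.n (k, true) ∈ Stb (s.W al w) := by
  intro f hf
  refine s.mem_W.2 fun I hI hc => ?_
  have h : Commute (s.n (k, true)) (s.RR I) := commute_cp fun l _ => n_Rs_DPG7 s.toSite _ l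
  rw [← Module.End.mul_apply, ← h.eq]
  exact s.In_N k (s.n_In (k, true)) _ (s.mem_W.1 hf I hI hc)

/-- the filtration is generated by the elementary rules -/
theorem W_ind {A : Finset K → ℕ → M → Prop} (nul : ∀ J w, ∀ f ∈ s.N, A J w f)
    (smooth : ∀ w f, A ∅ (w + 1) f) (add : ∀ J w f g, A J w f → A J w g → A J w (f + g))
    (mono : ∀ J w f k, k ∉ J → A J w f → A (insert k J) w (s.Z (k, false) f))
    (up : ∀ J w f k, k ∉ J → A J w f → A (insert k J) (w + 1) (s.a (k, false) f))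
    (van : ∀ J w f k, k ∉ J → A J w f → s.P k f ∈ s.N → A (insert k J) w (s.a (k, false) f))
    (h : f ∈ s.W al w) : A al w f := by
  induction al using Finset.induction_on generalizing w f with
  | empty =>
    cases w with
    | zero => exact nul _ _ f (s.W_zero ∅ ▸ h)
    | succ w => exact smooth w f
  | insert k J hk ih =>
    cases w with
    | zero => exact nul _ _ f (s.W_zero (insert k J) ▸ h)
    | succ w =>
      have hT : ∀ T ∈ s.In k, T f ∈ s.W J (w + 1) := fun T hT => s.mem_W.2 fun I hI hc =>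
        s.In_app_DPG7 hT (fun e => hk (hI e))
          (s.mem_W.1 h I (hI.trans (Finset.subset_insert k J)) hc)
      have h1 := mono J _ _ k hk (ih (hT (1 - s.n (k, false))
        ((s.In k).sub_mem (s.In k).one_mem (s.n_In (k, false)))))
      have h2 : (s.P k * s.b (k, false)) f ∈ s.W J w := by
        refine s.mem_W.2 fun I hI hc => ?_
        have hkI : k ∉ I := fun e => hk (hI e)
        rw [← Module.End.mul_apply,
          ← (s.In_RR ((s.In k).mul_mem (s.P_In k) (s.b_In (k, false))) hkI).eq, P_b_DPG7,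
          mul_assoc, ← s.RR_insert hkI]
        exact s.N_b _ _ (s.mem_W.1 h _ (Finset.insert_subset_insert k hI)
          (by rw [Finset.card_insert_of_notMem hkI, hc]))
      have h3 := up J _ _ k hk (ih h2)
      have h4 := van J _ _ k hk (ih (hT ((1 - s.P k) * s.b (k, false)) ((s.In k).mul_mem
        ((s.In k).sub_mem (s.In k).one_mem (s.P_In k)) (s.b_In (k, false))))) (by
          rw [← Module.End.mul_apply, ← mul_assoc, mul_sub, mul_one, P_P_DPG7 (s.fr k), sub_self,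
            zero_mul]
          exact s.N.zero_mem)
      have h5 := add _ _ _ _ h1 (add _ _ _ _ h3 h4)
      have e : s.Z (k, false) * (1 - s.n (k, false)) + (s.a (k, false) * (s.P k * s.b (k, false))
          + s.a (k, false) * ((1 - s.P k) * s.b (k, false))) = 1 := by
        rw [Z_one_sub_DPG7, CAR.n]
        noncomm_ring
      have e2 := congrArg (fun T : Module.End ℂ M => T f) e
      simp only [LinearMap.add_apply, Module.End.one_apply] at e2
      rw [← e2]
      exact h5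

section fin
variable [Fintype K]

theorem RR_δ (h : J ⊆ al) : Commute (s.RR J) (s.δ (pf al)) :=
  (commute_cp fun k hk => ((s.fr k).Rs_δ (by simp [h hk]) (by simp)).symm).symm
theorem δ_ZZ (h : J ⊆ al) : s.δ (pf al) * s.ZZ J = s.ZZ J * s.δ (pf (al \ J)) := by
  induction J using Finset.induction_on with
  | empty => simp [Site.ZZ]
  | insert k J hk ih =>
    have hka : k ∈ al := h (Finset.mem_insert_self k J)
    have e : pf (al \ J) = insert (k, false) (pf (al \ insert k J)) := by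
      ext ⟨l, t⟩
      by_cases hl : l = k
      · subst hl
        simp [hka, hk]
      · simp [hl]
    rw [s.ZZ_insert hk, (s.In_ZZ (s.Z_In (k, false)) hk).eq, ← mul_assoc,
      ih ((Finset.subset_insert k J).trans h), mul_assoc, e, s.δ_Z (by simp), mul_assoc]
theorem δ_W (al : Finset K) (w : ℕ) : s.δ (pf al) ∈ Stb (s.W al w) := by
  intro f hf
  refine s.mem_W.2 fun I hI hc => ?_
  rw [← Module.End.mul_apply, (s.RR_δ hI).eq]
  exact s.δ_N _ _ (s.mem_W.1 hf I hI hc)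
theorem δ_Sm (h : J ⊆ al) : s.δ (pf al) ∈ Stb (s.Sm J) := by
  intro f hf
  obtain ⟨g, hg⟩ := s.mem_Sm.1 hf
  refine s.mem_Sm.2 ⟨s.δ (pf (al \ J)) g, ?_⟩
  rw [← Module.End.mul_apply, ← s.δ_ZZ h, Module.End.mul_apply, ← map_sub]
  exact s.δ_N _ _ hg
theorem δ_Y (al : Finset K) (q : ℕ) : s.δ (pf al) ∈ Stb (s.Y al q) := by
  intro f hf
  obtain ⟨h1, h2⟩ := s.mem_Y.1 hf
  refine s.mem_Y.2 ⟨s.δ_W al _ f h1, fun I hI hc => ?_⟩
  rw [← Module.End.mul_apply, (s.RR_δ hI).eq]
  exact s.δ_Sm Finset.sdiff_subset _ (h2 I hI hc)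
theorem δ_Fl (po : Finset (K × Bool)) (p : ℕ) : s.δ po ∈ Stb (s.Fl p) := by
  refine s.δ_mem (fun ⟨k, t⟩ => ?_) (s.Fl_x p) (s.Fl_D p) po
  cases t
  · exact fun v hv => s.Fl_anti p (s.Fl_a p k v hv)
  · exact s.Fl_a' p k

end fin

end LogM

end Pool.Agent.PWD.Loc
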