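import Pool.Agent.P.MP_65ad7c_ag.DPG7

/-! The logarithmic Poincare lemma; residues. -/

open Filter Topology

noncomputable section
namespace Pool.Agent.PWD.Loc

variable {K M τ : Type} [DecidableEq K] [AddCommGroup M] [Module ℂ M]
  {al J : Finset K} {σ : Finset τ} {wd : τ → List K} {k : K} {w p q : ℕ} {f g : M}

namespace Site
variable {R : Type} [Ring R] [Algebra ℂ R] (s : Site K R)

theorem Q_a_DPG8 (k : K) : Commute (s.Q k) (s.a (k, false)) :=
  (s.eva k _).mul_left ((Commute.one_left _).sub_left (s.n_a_ne (by simp)))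

theorem Q_b_DPG8 (k : K) : Commute (s.Q k) (s.b (k, false)) :=
  (s.evb k _).mul_left ((Commute.one_left _).sub_left (s.n_b_ne (by simp)))

theorem Rs_a_DPG8 (k : K) : s.Rs k * s.a (k, false) = s.a (k, false) * s.P k := by
  change s.Q k * s.n (k, false) * s.a (k, false) = s.a (k, false) * (s.Q k * (1 - s.n (k, false)))
  rw [mul_assoc, s.n_a, ← mul_assoc, ← (s.Q_a_DPG8 k).eq, mul_assoc, mul_sub, s.a_n, mul_one,
    sub_zero]

theorem Rs_eq_DPG8 (k : K) : s.Rs k = s.a (k, false) * (s.Q k * s.b (k, false)) := by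
  rw [← mul_assoc, ← (s.Q_a_DPG8 k).eq, mul_assoc]
  rfl

theorem b_P_DPG8 (k : K) : s.b (k, false) * s.P k = 0 := by
  change s.b (k, false) * (s.Q k * (1 - s.n (k, false))) = 0
  rw [← mul_assoc, ← (s.Q_b_DPG8 k).eq, mul_assoc, mul_sub, s.b_n, mul_one, sub_self, mul_zero]

theorem b_Q_DPG8 (k : K) : s.b (k, true) * s.Q k = 0 := by
  rw [Q, ← mul_assoc, ← (s.evb k _).eq, mul_assoc, mul_sub, s.b_n, mul_one, sub_self, mul_zero]

theorem Out_aL_DPG8 {T : R} (h : T ∈ s.Out k) {L : List K} (hk : k ∉ L) : Commute T (s.aL L) :=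
  s.commute_aL fun l hl => s.commute_of_Out h (s.a_In (l, false)) fun e => hk (e ▸ hl)

omit [Algebra ℂ R] in
theorem car_DPG8 (k l : K) : s.b (k, false) * s.a (l, false) + s.a (l, false) * s.b (k, false) =
    if k = l then 1 else 0 := by
  rw [s.car]
  simp

end Site

namespace LogM
variable (s : LogM K M)

theorem RR_erase_DPG8 (hk : k ∈ J) : s.RR J = s.RR (J.erase k) * s.Rs k := by
  rw [← (s.Out_RR (s.Rs_Out k) (Finset.notMem_erase k J)).eq,
    ← s.RR_insert (Finset.notMem_erase k J), Finset.insert_erase hk]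

theorem aL_ZZ_DPG8 (al : Finset K) (L : List K) : Commute (s.ZZ (al \ L.toFinset)) (s.aL L) :=
  s.commute_aL fun k hk => (s.In_ZZ (s.a_In (k, false)) (by simp [hk])).symm

theorem lp [Fintype K] (h : f ∈ s.W al w) (hd : s.δ (pf al) f ∈ s.N) :
    ∃ u ∈ s.Cst al, u ∈ s.W al w ∧ ∃ g ∈ s.W al w, f - u - s.δ (pf al) g ∈ s.N := by
  choose H h1 h2 h3 using fun k => (s.fr k).hty (po := pf al) (by simp)
  have hN : ∀ k, H k ∈ Stb s.N := fun k => h2 k _ (s.In_N k) (s.N_I0 k) (s.N_I1 k)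
  have hC : ∀ k, H k ∈ Stb (s.W al w) := fun k v hv => s.mem_W.2 fun J hJ hc => by
    by_cases hk : k ∈ J
    · rw [← Module.End.mul_apply, s.RR_erase_DPG8 hk, mul_assoc, h3 k (by simp [hJ hk]), mul_zero]
      exact zero_mem _
    · have h4 := h2 k (Subalgebra.centralizer ℂ {s.RR J})
        (fun T hT => by
          rw [Subalgebra.mem_centralizer_iff]
          rintro _ rfl
          exact (s.In_RR hT hk).symm.eq)
        (by
          rw [Subalgebra.mem_centralizer_iff]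
          rintro _ rfl
          exact (s.Out_RR (s.FOut_le k (s.fr k).I0_FOut) hk).symm.eq)
        (by
          rw [Subalgebra.mem_centralizer_iff]
          rintro _ rfl
          exact (s.Out_RR (s.FOut_le k (s.fr k).I1_FOut) hk).symm.eq)
      rw [← Module.End.mul_apply, (Subalgebra.mem_centralizer_iff ℂ).1 h4 _ rfl]
      exact hN k _ (s.mem_W.1 hv J hJ hc)
  set B : K → Module.End ℂ M := fun k => if (k, false) ∈ pf al then s.Q k else s.P k with hB
  obtain ⟨-, h4, -, h5⟩ := iter_hty (B := B) (s.δ_δ (pf al)) h1 hN (s.δ_N _) hC (s.δ_W al w)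
    Finset.univ.toList
  refine ⟨_, ?_, h4 f h, h5 f h hd⟩
  have hc : ∀ k l, Commute (B k) (B l) := fun k l => by
    by_cases e : l = k
    · rw [e]
    · refine s.commute_of_Out (k := k) (l := l) ?_ ?_ e
      · simp only [hB]
        split_ifs
        exacts [s.Q_Out k, s.P_Out k]
      · simp only [hB]
        split_ifs
        exacts [s.Q_In l, s.P_In l]
  have hz : ∀ (T : Module.End ℂ M) k, T * B k = 0 → T ((Finset.univ.toList.map B).prod f) = 0 :=
    fun T k e => by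
    rw [← Module.End.mul_apply, show (Finset.univ.toList.map B).prod = cp Finset.univ B from rfl,
      cp_erase hc (Finset.mem_univ k), ← mul_assoc, e, zero_mul]
    rfl
  have hm : ∀ u, u ∈ (⨅ i, LinearMap.ker (s.D i)) ⊓ (⨅ (i) (_ : i ∉ pf al), LinearMap.ker (s.b i))
      ↔ (∀ i, s.D i u = 0) ∧ ∀ i ∉ pf al, s.b i u = 0 := fun u => by
    simp only [Submodule.mem_inf, Submodule.mem_iInf, LinearMap.mem_ker]
  refine span_words (al := al) (α := fun k => s.a (k, false)) (β := fun k => s.b (k, false))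
    (C := (⨅ i, LinearMap.ker (s.D i)) ⊓ (⨅ (i) (_ : i ∉ pf al), LinearMap.ker (s.b i)))
    (fun k hk u hu => ?_) (fun k hk u hu => ?_) (fun k _ l _ => s.car_DPG8 k l)
    (fun k _ l _ => s.bb _ _) (fun u hu h0 => ?_) ((hm _).2 ⟨fun i => ?_, fun i hi => ?_⟩)
  · obtain ⟨u1, u2⟩ := (hm u).1 hu
    refine (hm _).2 ⟨fun i => ?_, fun i hi => ?_⟩
    · rw [← Module.End.mul_apply, (s.Da i _).eq, Module.End.mul_apply, u1, map_zero]
    · rw [← Module.End.mul_apply, s.b_a_ne (fun e => hi (by simp [e, hk])), LinearMap.neg_apply,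
        Module.End.mul_apply, u2 i hi, map_zero, neg_zero]
  · obtain ⟨u1, u2⟩ := (hm u).1 hu
    refine (hm _).2 ⟨fun i => ?_, fun i hi => ?_⟩
    · rw [← Module.End.mul_apply, (s.Db i _).eq, Module.End.mul_apply, u1, map_zero]
    · rw [← Module.End.mul_apply, s.b_swap, LinearMap.neg_apply, Module.End.mul_apply, u2 i hi,
        map_zero, neg_zero]
  · obtain ⟨u1, u2⟩ := (hm u).1 hu
    refine s.ker u u1 fun i => ?_
    by_cases hi : i ∈ pf al
    · obtain ⟨k, t⟩ := i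
      obtain ⟨e1, rfl⟩ := mem_pf.1 hi
      exact h0 k e1
    · exact u2 i hi
  · obtain ⟨k, t⟩ := i
    refine hz _ k ?_
    simp only [hB, Site.Q, Site.P]
    split_ifs
    · rw [← mul_assoc, (s.fr k).D_ev, zero_mul]
    · rw [← mul_assoc, ← mul_assoc, (s.fr k).D_ev, zero_mul, zero_mul]
  · obtain ⟨k, t⟩ := i
    refine hz _ k ?_
    simp only [hB]
    split_ifs with e
    · cases t
      · exact absurd e hi
      · exact s.b_Q_DPG8 k
    · exact s.b_P k t

theorem Rs_word_DPG8 (k : K) (L : List K) :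
    s.Rs k (s.aL L s.vac) = if k ∈ L then s.aL L s.vac else 0 := by
  have h0 : ∀ i : K × Bool, i.2 = true ∨ i.1 ∉ L → s.n i (s.aL L s.vac) = 0 := fun i hi => by
    rw [← Module.End.mul_apply, (s.n_aL hi).eq, Module.End.mul_apply, CAR.n, Module.End.mul_apply,
      s.vac_b, map_zero, map_zero]
  rw [Site.Rs, Module.End.mul_apply, Module.End.mul_apply]
  split_ifs with hk
  · rw [← Module.End.mul_apply (s.n _), s.n_aL_of_mem hk, LinearMap.sub_apply, h0 _ (Or.inl rfl),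
      sub_zero, Module.End.one_apply, ← Module.End.mul_apply,
      (s.commute_aL fun l _ => s.eva k _).eq, Module.End.mul_apply, s.ev_vac (s.fr k)]
  · rw [h0 (k, false) (Or.inr hk), map_zero, map_zero]

theorem RR_word_DPG8 (J : Finset K) (L : List K) :
    s.RR J (s.aL L s.vac) = if J ⊆ L.toFinset then s.aL L s.vac else 0 := by
  induction J using Finset.induction_on with
  | empty => simp [Site.RR]
  | insert k J hk ih =>
    rw [s.RR_insert hk, Module.End.mul_apply, ih]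
    by_cases h : J ⊆ L.toFinset
    · simp [h, s.Rs_word_DPG8, Finset.insert_subset_iff]
    · simp [h, Finset.insert_subset_iff]

theorem W_coeff (hw : Words al σ wd) {γ : τ → ℂ}
    (h : ∑ t ∈ σ, γ t • s.aL (wd t) s.vac ∈ s.W al w) :
    ∀ t ∈ σ, w ≤ (wd t).length → γ t = 0 := by
  intro t ht hl
  have h1 := s.mem_W.1 (s.W_mono hl h) _ (hw.sub t ht) (List.toFinset_card_of_nodup (hw.nodup t ht))
  have h2 := s.indep hw (β := fun k => s.b (k, false)) (T := 1)
    (γ := fun t' => if (wd t).toFinset ⊆ (wd t').toFinset then γ t' else 0)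
    (fun k _ => s.N_b _) (fun k _ => s.vac_b _) (fun k _ l _ => s.car_DPG8 k l)
    (fun k _ => Commute.one_left _) rfl (by
      simpa only [map_sum, map_smul, s.RR_word_DPG8, Module.End.one_apply, smul_ite, ite_smul,
        smul_zero, zero_smul] using h1) t ht
  simpa using h2

/-- the form `dz_L / z_L` times the smooth form `g` -/
def wr (al : Finset K) (L : List K) (g : M) : M := s.aL L (s.ZZ (al \ L.toFinset) g)

theorem RR_aL_DPG8 {L : List K} (hL : L.Nodup) :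
    s.RR L.toFinset * s.aL L = s.aL L * s.PP L.toFinset := by
  induction L with
  | nil => simp [Site.RR, Site.PP]
  | cons k L ih =>
    obtain ⟨h1, h2⟩ := List.nodup_cons.1 hL
    have hk : k ∉ L.toFinset := by simpa using h1
    rw [List.toFinset_cons, s.RR_insert hk, s.PP_insert hk, s.aL_cons, mul_assoc,
      ← mul_assoc (s.RR _), ← (s.In_RR (s.a_In (k, false)) hk).eq, mul_assoc, ih h2, ← mul_assoc,
      s.Rs_a_DPG8, mul_assoc, ← mul_assoc (s.P k), (s.Out_aL_DPG8 (s.P_Out k) h1).eq]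
    simp only [mul_assoc]

theorem RR_wr_self {L : List K} (hL : L.Nodup) (g : M) :
    s.RR L.toFinset (s.wr al L g) = s.wr al L (s.PP L.toFinset g) := by
  have h : Commute (s.ZZ (al \ L.toFinset)) (s.PP L.toFinset) :=
    commute_cp fun k hk => (s.Out_ZZ (s.P_Out k) (by simp [hk])).symm
  rw [wr, wr, ← Module.End.mul_apply, s.RR_aL_DPG8 hL, Module.End.mul_apply,
    ← Module.End.mul_apply (s.PP _), ← h.eq, Module.End.mul_apply]

theorem RR_wr_ne {L : List K} (hJ : J ⊆ al) (h : ¬J ⊆ L.toFinset) (g : M) :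
    s.RR J (s.wr al L g) = 0 := by
  obtain ⟨k, h1, h2⟩ := Finset.not_subset.1 h
  have h3 := s.RR_ZZ (I := {k}) (J := al \ L.toFinset) (Finset.mem_singleton_self k)
    (Finset.mem_sdiff.2 ⟨hJ h1, h2⟩)
  rw [Site.RR, cp_single] at h3
  rw [wr, s.RR_erase_DPG8 h1, Module.End.mul_apply, ← Module.End.mul_apply (s.Rs k),
    (s.Out_aL_DPG8 (s.Rs_Out k) (by simpa using h2)).eq, Module.End.mul_apply,
    ← Module.End.mul_apply (s.Rs k), h3, LinearMap.zero_apply, map_zero, map_zero]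

theorem kill_DPG8 {F : ℕ → Submodule ℂ M}
    (hF : ∀ p k, ∀ u ∈ F p, s.b (k, false) u ∈ F (p - 1)) {L : List K} (hL : L.Nodup) {v : M}
    (hv : ∀ k ∈ L, s.b (k, false) v = 0) (h : s.aL L v ∈ F p) : v ∈ F (p - L.length) := by
  induction L generalizing p with
  | nil => simpa using h
  | cons k L ih =>
    obtain ⟨h1, h2⟩ := List.nodup_cons.1 hL
    have h3 : s.b (k, false) (s.aL L v) = 0 := by
      rw [← Module.End.mul_apply, s.b_aL (Or.inr h1), LinearMap.smul_apply, Module.End.mul_apply,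
        hv k List.mem_cons_self, map_zero, smul_zero]
    have h4 := hF p k _ h
    rw [s.aL_cons, Module.End.mul_apply, ← Module.End.mul_apply (s.b _), s.b_a,
      LinearMap.sub_apply, CAR.n, Module.End.mul_apply, h3, map_zero, sub_zero,
      Module.End.one_apply] at h4
    have h5 := ih h2 (fun l hl => hv l (List.mem_cons_of_mem _ hl)) h4
    rwa [List.length_cons, Nat.add_comm, ← Nat.sub_sub]

theorem b_ZZ_DPG8 {L : List K} (g : M) :
    ∀ k ∈ L, s.b (k, false) (s.ZZ (al \ L.toFinset) (s.PP L.toFinset g)) = 0 := fun k hk => by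
  rw [← Module.End.mul_apply, (s.In_ZZ (s.b_In (k, false)) (by simp [hk])).eq,
    Module.End.mul_apply, ← Module.End.mul_apply (s.b _), Site.PP,
    cp_erase s.P_comm (List.mem_toFinset.2 hk), ← mul_assoc, s.b_P_DPG8, zero_mul,
    LinearMap.zero_apply, map_zero]

theorem wr_N {L : List K} (hL : L.Nodup) (h : s.wr al L (s.PP L.toFinset g) ∈ s.N) :
    s.PP L.toFinset g ∈ s.N :=
  s.ZZ_inj (s.kill_DPG8 (F := fun _ => s.N) (p := 0) (fun _ _ => s.N_b _) hL (s.b_ZZ_DPG8 g) h)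

theorem wr_Fl {L : List K} (hL : L.Nodup) (h : s.wr al L (s.PP L.toFinset g) ∈ s.Fl p) :
    s.PP L.toFinset g ∈ s.Fl (p - L.length) := by
  refine s.ZZ_inj_Fl (s.kill_DPG8 (fun p k u hu => ?_) hL (s.b_ZZ_DPG8 g) h)
  cases p with
  | zero => rw [Nat.zero_sub, s.Fl_zero]; trivial
  | succ p => exact s.Fl_b p k u hu

theorem eq_DPG8 {L : List K} (hL : L.Nodup) (hc : J.card = L.length) (h : J ⊆ L.toFinset) :
    J = L.toFinset :=
  Finset.eq_of_subset_of_card_le h (by rw [hc, List.toFinset_card_of_nodup hL])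

theorem resV {L : List K} (hL : L.Nodup) (h : s.PP L.toFinset g ∈ s.N) :
    s.wr al L g ∈ s.W al L.length := s.mem_W.2 fun J hJ hc => by
  by_cases e : J ⊆ L.toFinset
  · rw [eq_DPG8 hL hc e, s.RR_wr_self hL]
    exact s.aL_N L _ (s.ZZ_N _ _ h)
  · rw [s.RR_wr_ne hJ e]
    exact zero_mem _

theorem RR_sum_DPG8 (hw : Words al σ wd) (hq : ∀ t ∈ σ, (wd t).length = q) (β : τ → M) {t : τ}
    (ht : t ∈ σ) : s.RR (wd t).toFinset (∑ t ∈ σ, s.wr al (wd t) (β t)) =
      s.wr al (wd t) (s.PP (wd t).toFinset (β t)) := by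
  rw [map_sum, Finset.sum_eq_single_of_mem t ht fun t' ht' e => s.RR_wr_ne (hw.sub t ht)
    (fun h => e (hw.inj t ht t' ht' (eq_DPG8 (hw.nodup t' ht') (by
      rw [List.toFinset_card_of_nodup (hw.nodup t ht), hq t ht, hq t' ht']) h)).symm) _,
    s.RR_wr_self (hw.nodup t ht)]

theorem resU (hw : Words al σ wd) (hq : ∀ t ∈ σ, (wd t).length = q) {β : τ → M}
    (h : ∑ t ∈ σ, s.wr al (wd t) (β t) ∈ s.W al q) :
    ∀ t ∈ σ, s.PP (wd t).toFinset (β t) ∈ s.N := fun t ht => by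
  have h1 := s.mem_W.1 h _ (hw.sub t ht)
    ((List.toFinset_card_of_nodup (hw.nodup t ht)).trans (hq t ht))
  rw [s.RR_sum_DPG8 hw hq β ht] at h1
  exact s.wr_N (hw.nodup t ht) h1

theorem resF (hw : Words al σ wd) (hq : ∀ t ∈ σ, (wd t).length = q) {β : τ → M}
    (h : f - ∑ t ∈ σ, s.wr al (wd t) (β t) ∈ s.W al q) (hf : f ∈ s.Fl p) :
    ∀ t ∈ σ, s.PP (wd t).toFinset (β t) ∈ s.Fl (p - q) := fun t ht => by
  have h1 := s.mem_W.1 h _ (hw.sub t ht)
    ((List.toFinset_card_of_nodup (hw.nodup t ht)).trans (hq t ht))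
  rw [map_sub, s.RR_sum_DPG8 hw hq β ht] at h1
  have h2 := sub_mem (s.RR_Fl (wd t).toFinset p f hf) (s.Fl_N p h1)
  rw [sub_sub_cancel] at h2
  rw [← hq t ht]
  exact s.wr_Fl (hw.nodup t ht) h2

theorem W_Y_DPG8 (h : f ∈ s.W al q) : f ∈ s.Y al q :=
  s.mem_Y.2 ⟨s.W_mono (Nat.le_succ q) h, fun J hJ hc =>
    Submodule.mem_sup_right (s.mem_W.1 h J hJ hc)⟩

theorem wr_Y_DPG8 {L : List K} (hL : L.Nodup) (g : M) : s.wr al L g ∈ s.Y al L.length := by
  refine s.mem_Y.2 ⟨s.mem_W.2 fun J hJ hc => ?_, fun J hJ hc => ?_⟩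
  · rw [s.RR_wr_ne hJ fun e => by
      have := (Finset.card_le_card e).trans (List.toFinset_card_le L)
      omega]
    exact zero_mem _
  · by_cases e : J ⊆ L.toFinset
    · rw [eq_DPG8 hL hc e, s.RR_wr_self hL, wr, ← Module.End.mul_apply, ← (s.aL_ZZ_DPG8 al L).eq]
      exact Submodule.mem_sup_left ⟨_, rfl⟩
    · rw [s.RR_wr_ne hJ e]
      exact zero_mem _

theorem Y_of (hw : Words al σ wd) (hq : ∀ t ∈ σ, (wd t).length = q) {β : τ → M}
    (h : f - ∑ t ∈ σ, s.wr al (wd t) (β t) ∈ s.W al q) : f ∈ s.Y al q := by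
  have h1 := add_mem (s.W_Y_DPG8 h) (sum_mem (S := s.Y al q) (t := σ)
    (f := fun t => s.wr al (wd t) (β t)) fun t ht => hq t ht ▸ s.wr_Y_DPG8 (hw.nodup t ht) _)
  rwa [sub_add_cancel] at h1

theorem RR_eq_DPG8 {L : List K} (hL : L.Nodup) : ∃ B, s.RR L.toFinset = s.aL L * B := by
  induction L with
  | nil => exact ⟨1, by simp [Site.RR]⟩
  | cons k L ih =>
    obtain ⟨h1, h2⟩ := List.nodup_cons.1 hL
    have hk : k ∉ L.toFinset := by simpa using h1
    obtain ⟨B, hB⟩ := ih h2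
    refine ⟨B * (s.Q k * s.b (k, false)), ?_⟩
    rw [List.toFinset_cons, s.RR_insert hk, (s.Out_RR (s.Rs_Out k) hk).eq, s.Rs_eq_DPG8,
      ← mul_assoc, ← (s.In_RR (s.a_In (k, false)) hk).eq, hB, s.aL_cons]
    simp only [mul_assoc]

theorem Y_elim (hw : Words al σ wd) (hq : ∀ t ∈ σ, (wd t).length = q)
    (hs : ∀ J ⊆ al, J.card = q → ∃ t ∈ σ, (wd t).toFinset = J) (h : f ∈ s.Y al q) :
    ∃ β : τ → M, f - ∑ t ∈ σ, s.wr al (wd t) (β t) ∈ s.W al q := by
  have h1 : ∀ t, ∃ b, t ∈ σ → s.RR (wd t).toFinset f - s.wr al (wd t) b ∈ s.N := fun t => by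
    by_cases ht : t ∈ σ
    · obtain ⟨v, hv⟩ := s.mem_Sm.1 ((s.mem_Y.1 h).2 _ (hw.sub t ht)
        ((List.toFinset_card_of_nodup (hw.nodup t ht)).trans (hq t ht)))
      obtain ⟨B, hB⟩ := s.RR_eq_DPG8 (hw.nodup t ht)
      have h2 : Commute (s.ZZ (al \ (wd t).toFinset)) (s.RR (wd t).toFinset) :=
        commute_cp fun k hk => (s.Out_ZZ (s.Rs_Out k) (by simp [hk])).symm
      have h3 := s.RR_N (wd t).toFinset _ hv
      rw [map_sub, ← Module.End.mul_apply, s.RR_union, Finset.union_self,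
        ← Module.End.mul_apply _ (s.ZZ _), ← h2.eq] at h3
      refine ⟨B v, fun _ => ?_⟩
      rwa [wr, ← Module.End.mul_apply (s.aL _), ← (s.aL_ZZ_DPG8 al _).eq,
        ← Module.End.mul_apply _ B, mul_assoc, ← hB]
    · exact ⟨0, fun e => absurd e ht⟩
  choose β hβ using h1
  refine ⟨β, s.mem_W.2 fun J hJ hc => ?_⟩
  obtain ⟨t, ht, rfl⟩ := hs J hJ hc
  have h2 := s.RR_N (wd t).toFinset _ (hβ t ht)
  rw [map_sub, ← Module.End.mul_apply, s.RR_union, Finset.union_self,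
    s.RR_wr_self (hw.nodup t ht)] at h2
  rwa [map_sub, s.RR_sum_DPG8 hw hq β ht]

theorem W_le_Y (al : Finset K) (q : ℕ) : s.W al q ≤ s.Y al q := fun _ h => s.W_Y_DPG8 h

theorem Y_ZZ (al : Finset K) (q : ℕ) (g : M) : s.ZZ al g ∈ s.Y al q := by
  refine s.mem_Y.2 ⟨s.W_ZZ al q g, fun J hJ _ => ?_⟩
  rcases J.eq_empty_or_nonempty with rfl | ⟨k, hk⟩
  · rw [Site.RR, cp_empty, Finset.sdiff_empty]
    exact Submodule.mem_sup_left ⟨g, rfl⟩
  · rw [← Module.End.mul_apply, s.RR_ZZ hk (hJ hk)]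
    exact zero_mem _

theorem Y_a (h : f ∈ s.Y al q) (k : K) : s.a (k, false) f ∈ s.Y al (q + 1) := by
  obtain ⟨h1, h2⟩ := s.mem_Y.1 h
  refine s.mem_Y.2 ⟨s.W_a h1 k, fun J hJ hc => ?_⟩
  by_cases hk : k ∈ J
  · have hi : s.a (k, false) * s.P k ∈ s.In k := mul_mem (s.a_In (k, false)) (s.P_In k)
    have hk' : k ∉ al \ J := by simp [hk]
    obtain ⟨v, hv⟩ := s.mem_Sm.1 (h2 (J.erase k) ((Finset.erase_subset k J).trans hJ)
      (by rw [Finset.card_erase_of_mem hk, hc, Nat.add_sub_cancel]))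
    rw [Finset.sdiff_erase (hJ hk), s.ZZ_insert hk', (s.Out_ZZ (s.Z_Out (k, false)) hk').eq] at hv
    have h3 := s.In_N k hi _ hv
    rw [map_sub, ← Module.End.mul_apply, ← Module.End.mul_apply _ (_ * _), ← mul_assoc,
      (s.In_ZZ hi hk').eq, (s.In_RR hi (Finset.notMem_erase k J)).eq, ← s.Rs_a_DPG8, ← mul_assoc,
      ← s.RR_erase_DPG8 hk, mul_assoc] at h3
    exact s.mem_Sm.2 ⟨_, h3⟩
  · rw [← Module.End.mul_apply, ← (s.In_RR (s.a_In (k, false)) hk).eq]
    exact Submodule.mem_sup_right (s.N_a _ _ (s.mem_W.1 h1 J hJ hc))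

end LogM

end Pool.Agent.PWD.Loc
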