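import Pool.Agent.P.MP_65ad7c_ag.DPG7

/-! Division by a coordinate; the modified solver. -/

open Filter Topology

noncomputable section
namespace Pool.Agent.PWD.Loc

section ring
variable {K R : Type} [DecidableEq K] [Ring R] [Algebra ℂ R]

namespace Site
variable (s : Site K R) {k : K}

theorem Z_n_DPG9 (i : K × Bool) : s.Z i * s.n i = s.x i * s.n i := by
  have h := s.n_n i
  unfold Z
  rw [add_mul, mul_assoc, h]
  noncomm_ring

theorem Z_one_sub_DPG9 (i : K × Bool) : s.Z i * (1 - s.n i) = 1 - s.n i := by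
  have h : s.n i * (1 - s.n i) = 0 := by rw [mul_sub, s.n_n i, mul_one, sub_self]
  unfold Z
  rw [add_mul, mul_assoc, h, mul_zero, add_zero, one_mul]

theorem D_Z_DPG9 (k : K) : Commute (s.D (k, true)) (s.Z (k, false)) := by
  have h1 : Commute (s.D (k, true)) (s.x (k, false)) := by
    have h := s.Dx (k, true) (k, false)
    rw [if_neg (by simp)] at h
    exact sub_eq_zero.1 h
  exact (Commute.one_right _).add_right
    ((h1.sub_right (Commute.one_right _)).mul_right (s.FOut_n (s.D_FOut (k, true)) _))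

theorem b_Z_DPG9 (k : K) : Commute (s.b (k, true)) (s.Z (k, false)) :=
  (Commute.one_right _).add_right
    (((s.xb _ _).symm.sub_right (Commute.one_right _)).mul_right (s.n_b_ne (by simp)).symm)

theorem b_Ee_DPG9 (k : K) : Commute (s.b (k, true)) (s.Ee k) :=
  (s.evb _ _).symm.mul_right (s.n_b_ne (by simp)).symm

variable {s}

omit [Algebra ℂ R] in
theorem Fr.ev_ev_DPG9 (h : s.Fr k) : s.ev k * s.ev k = s.ev k := by
  have h1 : s.ev k * (1 - s.ev k) = 0 := by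
    rw [h.had, mul_add, ← mul_assoc, ← mul_assoc, ← mul_assoc, ← mul_assoc, h.ev_x, h.ev_x]
    simp
  rw [mul_sub, mul_one, sub_eq_zero] at h1
  exact h1.symm

theorem Fr.I0_FOut_DPG9 (h : s.Fr k) : h.I0 ∈ s.FOut k := by
  have key : ∀ T : R, Commute (s.Eu k) T → Commute h.I0 T := fun T hT =>
    (commute_inv h.l0 h.r0 (hT.symm.add_right (Commute.one_right T))).symm
  obtain ⟨h1, h2, h3⟩ := s.mem_FOut.1 (s.Eu_FOut k)
  exact s.mem_FOut.2 ⟨fun i => ⟨key _ (h1 i).1, key _ (h1 i).2⟩,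
    fun i hi => ⟨key _ (h2 i hi).1, key _ (h2 i hi).2⟩, fun l hl => key _ (h3 l hl)⟩

theorem Fr.Ee_Z_DPG9 (h : s.Fr k) : s.Ee k * s.Z (k, false) = 0 := by
  have h1 : s.n (k, false) * s.Z (k, false) = s.x (k, false) * s.n (k, false) := by
    have h2 : Commute (s.Z (k, false)) (s.n (k, false)) :=
      (Commute.one_left _).add_left
        (((s.FOut_n (s.x_FOut (k, false)) _).sub_left (Commute.one_left _)).mul_left
          (Commute.refl _))
    rw [← h2.eq, Z_n_DPG9]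
  unfold Ee
  rw [mul_assoc, h1, ← mul_assoc, h.ev_x, zero_mul]

theorem Fr.n_Ee_DPG9 (h : s.Fr k) {T : R} (hT : Commute T (s.ev k)) :
    s.ev k * T * s.n (k, false) * s.Ee k = s.ev k * T * s.n (k, false) := by
  have h1 := (s.FOut_n (s.ev_FOut k) (k, false)).eq
  unfold Ee
  calc s.ev k * T * s.n (k, false) * (s.ev k * s.n (k, false))
      = s.ev k * T * (s.n (k, false) * s.ev k) * s.n (k, false) := by noncomm_ring
    _ = s.ev k * (T * s.ev k) * (s.n (k, false) * s.n (k, false)) := by rw [← h1]; noncomm_ring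
    _ = (s.ev k * s.ev k) * T * s.n (k, false) := by rw [hT.eq, s.n_n]; noncomm_ring
    _ = _ := by rw [h.ev_ev_DPG9]

theorem Fr.Ee_Ee_DPG9 (h : s.Fr k) : s.Ee k * (1 - s.Ee k) = 0 := by
  have h1 := h.n_Ee_DPG9 (Commute.one_left _)
  rw [mul_one] at h1
  rw [mul_sub, mul_one, sub_eq_zero]
  exact h1.symm

theorem Fr.Rs_Ee_DPG9 (h : s.Fr k) : s.Rs k * (1 - s.Ee k) = 0 := by
  have h1 := h.n_Ee_DPG9 (T := 1 - s.n (k, true))
    ((Commute.one_left _).sub_left (s.FOut_n (s.ev_FOut k) _).symm)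
  rw [mul_sub, mul_one, sub_eq_zero]
  exact h1.symm

omit [Algebra ℂ R] in
theorem Fr.D_Ee_DPG9 (h : s.Fr k) : s.D (k, true) * (1 - s.Ee k) = s.D (k, true) := by
  unfold Ee
  rw [mul_sub, ← mul_assoc, h.D_ev, zero_mul, mul_one, sub_zero]

theorem Fr.split_DPG9 (h : s.Fr k) :
    (1 : R) - s.Z (k, false) * ((1 - s.n (k, false)) + s.n (k, false) * h.I0 * s.D (k, false)) =
      s.Ee k + s.x (k, true) * h.I0 * s.n (k, false) * s.D (k, true) := by
  have h1 := (s.FOut_n h.I0_FOut_DPG9 (k, false)).eq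
  have h2 := (s.FOut_n (s.D_FOut (k, false)) (k, false)).eq
  have h3 := (s.FOut_n (s.D_FOut (k, true)) (k, false)).eq
  have h4 : s.Z (k, false) * (s.n (k, false) * h.I0 * s.D (k, false)) =
      s.x (k, false) * h.I0 * s.D (k, false) * s.n (k, false) := by
    calc _ = (s.Z (k, false) * s.n (k, false)) * h.I0 * s.D (k, false) := by noncomm_ring
      _ = s.x (k, false) * (s.n (k, false) * h.I0) * s.D (k, false) := by
        rw [Z_n_DPG9]; noncomm_ring
      _ = s.x (k, false) * h.I0 * (s.n (k, false) * s.D (k, false)) := by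
        rw [← h1]; noncomm_ring
      _ = _ := by rw [← h2]; noncomm_ring
  have h5 : s.x (k, true) * h.I0 * s.n (k, false) * s.D (k, true) =
      s.x (k, true) * h.I0 * s.D (k, true) * s.n (k, false) := by
    rw [mul_assoc _ (s.n _), ← h3, ← mul_assoc]
  have h6 : (1 - s.ev k) * s.n (k, false) =
      s.x (k, false) * h.I0 * s.D (k, false) * s.n (k, false) +
        s.x (k, true) * h.I0 * s.D (k, true) * s.n (k, false) := by rw [h.had, add_mul]
  rw [mul_add, Z_one_sub_DPG9, h4, h5]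
  unfold Ee
  rw [sub_mul, one_mul] at h6
  linear_combination (norm := noncomm_ring) h6

end Site

end ring

variable {K M τ : Type} [DecidableEq K] [AddCommGroup M] [Module ℂ M]
  {al J : Finset K} {σ : Finset τ} {wd : τ → List K} {k : K} {w p q : ℕ} {f g : M}

namespace LogM
variable (s : LogM K M)

theorem n_N_DPG9 (i : K × Bool) : s.n i ∈ Stb s.N := mul_mem (s.N_a i) (s.N_b i)

theorem Z_N_DPG9 (i : K × Bool) : s.Z i ∈ Stb s.N :=
  add_mem (one_mem _) (mul_mem (sub_mem (s.N_x i) (one_mem _)) (s.n_N_DPG9 i))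

theorem ZZ_N_DPG9 (J : Finset K) : s.ZZ J ∈ Stb s.N := cp_mem fun _ _ => s.Z_N_DPG9 _

theorem Ee_N_DPG9 (k : K) : s.Ee k ∈ Stb s.N := mul_mem (s.N_ev k) (s.n_N_DPG9 _)

theorem ZZ_erase_DPG9 (hk : k ∈ J) : s.ZZ J = s.ZZ (J.erase k) * s.Z (k, false) := by
  rw [← (s.Out_ZZ (s.Z_Out (k, false)) (Finset.notMem_erase k J)).eq,
    ← s.ZZ_insert (Finset.notMem_erase k J), Finset.insert_erase hk]

/-- holomorphic in `z_k` with vanishing polar value: no pole -/
theorem hol_one (hE : s.Ee k f ∈ s.N) (hD : s.D (k, true) f ∈ s.N) :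
    ∃ g, f - s.Z (k, false) g ∈ s.N := by
  refine ⟨((1 - s.n (k, false)) + s.n (k, false) * (s.fr k).I0 * s.D (k, false)) f, ?_⟩
  have h1 : f - s.Z (k, false)
      (((1 - s.n (k, false)) + s.n (k, false) * (s.fr k).I0 * s.D (k, false)) f) =
      s.Ee k f + (s.x (k, true) * (s.fr k).I0 * s.n (k, false)) (s.D (k, true) f) :=
    LinearMap.congr_fun (s.fr k).split_DPG9 f
  rw [h1]
  exact add_mem hE (mul_mem (mul_mem (s.N_x _) (s.N_I0 k)) (s.n_N_DPG9 _) _ hD)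

theorem hol_step_DPG9 {h : M} (hE : s.Ee k g ∈ s.N)
    (hD : s.D (k, true) g - s.Z (k, false) h ∈ s.N) : ∃ g', g - s.Z (k, false) g' ∈ s.N := by
  obtain ⟨ρ, hρ⟩ := (s.S_D k h).exists
  have h1 : s.Ee k (g - s.Z (k, false) (s.S k ρ h)) ∈ s.N := by
    have h2 : s.Ee k (s.Z (k, false) (s.S k ρ h)) = 0 :=
      LinearMap.congr_fun (s.fr k).Ee_Z_DPG9 _
    rwa [map_sub, h2, sub_zero]
  have h3 : s.D (k, true) (g - s.Z (k, false) (s.S k ρ h)) ∈ s.N := by
    have h4 : s.D (k, true) (s.Z (k, false) (s.S k ρ h)) =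
        s.Z (k, false) (s.D (k, true) (s.S k ρ h)) := LinearMap.congr_fun (s.D_Z_DPG9 k).eq _
    have h5 := sub_mem hD (s.Z_N_DPG9 (k, false) _ hρ)
    rw [map_sub, ← h4] at h5
    rw [map_sub]
    simpa using h5
  obtain ⟨g', hg'⟩ := s.hol_one h1 h3
  refine ⟨s.S k ρ h + g', ?_⟩
  rwa [map_add, ← sub_sub]

theorem hol (hE : ∀ k ∈ J, s.Ee k f ∈ s.N) (hD : ∀ k ∈ J, s.D (k, true) f ∈ s.Sm J) :
    f ∈ s.Sm J := by
  have key : ∀ J' : Finset K, J' ⊆ J → ∃ g, f - s.ZZ J' g ∈ s.N := by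
    intro J'
    induction J' using Finset.induction_on with
    | empty => exact fun _ => ⟨f, by simp [Site.ZZ]⟩
    | insert j J' hj ih =>
      intro hs
      have hjJ : j ∈ J := hs (Finset.mem_insert_self _ _)
      have hs' : J' ⊆ J := (Finset.subset_insert _ _).trans hs
      obtain ⟨g, hg⟩ := ih hs'
      have e1 : s.Ee j g ∈ s.N := by
        have a1 := sub_mem (hE j hjJ) (s.Ee_N_DPG9 j _ hg)
        have a2 : s.Ee j (s.ZZ J' g) = s.ZZ J' (s.Ee j g) :=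
          LinearMap.congr_fun (s.Out_ZZ (s.Ee_Out j) hj).eq g
        rw [map_sub, sub_sub_cancel, a2] at a1
        exact s.ZZ_inj a1
      obtain ⟨h0, hh⟩ := s.mem_Sm.1 (hD j hjJ)
      have e2 : s.ZZ J = s.ZZ J' * (s.Z (j, false) * s.ZZ (J \ insert j J')) := by
        rw [← mul_assoc, ← (s.Out_ZZ (s.Z_Out (j, false)) hj).eq, ← s.ZZ_insert hj]
        have a1 := cp_union (f := fun k => s.Z (k, false)) (fun _ _ => s.Z_comm _ _)
          (Finset.disjoint_sdiff (s := insert j J') (t := J))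
        rw [Finset.union_sdiff_of_subset hs] at a1
        exact a1
      have e3 : s.D (j, true) g - s.Z (j, false) (s.ZZ (J \ insert j J') h0) ∈ s.N := by
        have a1 := sub_mem hh (s.N_D (j, true) _ hg)
        have a2 : s.D (j, true) (s.ZZ J' g) = s.ZZ J' (s.D (j, true) g) :=
          LinearMap.congr_fun (s.Out_ZZ (s.FOut_le j (s.D_FOut (j, true))) hj).eq g
        have a3 : s.ZZ J h0 = s.ZZ J' (s.Z (j, false) (s.ZZ (J \ insert j J') h0)) :=
          LinearMap.congr_fun e2 h0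
        rw [map_sub, a2, a3] at a1
        refine s.ZZ_inj (J := J') ?_
        rw [map_sub]
        simpa using a1
      obtain ⟨g', hg'⟩ := s.hol_step_DPG9 e1 e3
      refine ⟨g', ?_⟩
      have a1 := add_mem hg (s.ZZ_N_DPG9 J' _ hg')
      have a2 : s.ZZ (insert j J') g' = s.ZZ J' (s.Z (j, false) g') := by
        rw [s.ZZ_insert hj, (s.Out_ZZ (s.Z_Out (j, false)) hj).eq]
        rfl
      rw [map_sub] at a1
      rw [a2]
      simpa using a1
  exact s.mem_Sm.2 (key J (subset_refl J))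

/-- the homotopy operator in the direction of the conjugate of `dz_k` -/
def Kb (al : Finset K) (k : K) (ρ : ℝ) : Module.End ℂ M :=
  (if k ∈ al then 1 - s.Ee k else 1) * s.S k ρ * s.b (k, true)

theorem comm_ite_DPG9 (al : Finset K) {T : Module.End ℂ M} (h : Commute T (s.Ee k)) :
    Commute T (if k ∈ al then 1 - s.Ee k else 1) := by
  split_ifs
  · exact (Commute.one_right T).sub_right h
  · exact Commute.one_right T

theorem ite_mem_DPG9 (al : Finset K) {A : Subalgebra ℂ (Module.End ℂ M)} (h : s.Ee k ∈ A) :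
    (if k ∈ al then 1 - s.Ee k else 1) ∈ A := by
  split_ifs
  · exact sub_mem (one_mem _) h
  · exact one_mem _

theorem Kb_Out_even (al : Finset K) (k : K) (ρ : ℝ) {T : Module.End ℂ M} {l : K} (hl : l ≠ k)
    (h : T ∈ s.In l) (h' : T ∈ s.Out l) : Commute T (s.Kb al k ρ) :=
  ((s.comm_ite_DPG9 al (s.commute_of_Out h' (s.Ee_In k) hl.symm)).mul_right
    (s.commute_of_Out (s.FOut_le k (s.S_out k ρ)) h hl).symm).mul_right
    (s.commute_of_Out h' (s.b_In (k, true)) hl.symm)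

theorem Kb_aD (al : Finset K) (k : K) (ρ : ℝ) {l : K} (hl : l ≠ k) :
    s.a (l, true) * s.D (l, true) * s.Kb al k ρ =
      -(s.Kb al k ρ * (s.a (l, true) * s.D (l, true))) := by
  have h1 : (if k ∈ al then 1 - s.Ee k else 1) * s.S k ρ ∈ s.Out k :=
    mul_mem (s.ite_mem_DPG9 al (s.Ee_Out k)) (s.FOut_le k (s.S_out k ρ))
  have h2 := (s.commute_of_Out h1 (mul_mem (s.a_In (l, true)) (s.D_In (l, true))) hl).eq
  have h3 := s.b_a_ne (i := (k, true)) (j := (l, true)) (by simpa using hl.symm)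
  have h4 := (s.Db (l, true) (k, true)).eq
  unfold Kb
  generalize (if k ∈ al then 1 - s.Ee k else 1) * s.S k ρ = E at h2 ⊢
  calc s.a (l, true) * s.D (l, true) * (E * s.b (k, true))
      = (s.a (l, true) * s.D (l, true) * E) * s.b (k, true) := by noncomm_ring
    _ = E * s.a (l, true) * (s.D (l, true) * s.b (k, true)) := by rw [← h2]; noncomm_ring
    _ = -(E * (-(s.a (l, true) * s.b (k, true))) * s.D (l, true)) := by rw [h4]; noncomm_ring
    _ = _ := by rw [← h3]; noncomm_ring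

theorem b_Kb (al : Finset K) (k : K) (ρ : ℝ) : s.b (k, true) * s.Kb al k ρ = 0 := by
  have h1 : Commute (s.b (k, true)) ((if k ∈ al then 1 - s.Ee k else 1) * s.S k ρ) :=
    (s.comm_ite_DPG9 al (s.b_Ee_DPG9 k)).mul_right ((s.mem_FOut.1 (s.S_out k ρ)).1 _).2.symm
  unfold Kb
  rw [← mul_assoc, h1.eq, mul_assoc, s.b_b, mul_zero]

theorem D_Kb (al : Finset K) (k : K) (f : M) :
    ∀ᶠ ρ in 𝓝[>] (0 : ℝ), s.D (k, true) (s.Kb al k ρ f) - s.b (k, true) f ∈ s.N := by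
  have h1 : s.D (k, true) * (if k ∈ al then 1 - s.Ee k else 1) = s.D (k, true) := by
    split_ifs
    · exact (s.fr k).D_Ee_DPG9
    · exact mul_one _
  filter_upwards [s.S_D k (s.b (k, true) f)] with ρ hρ
  have h2 : s.D (k, true) (s.Kb al k ρ f) = s.D (k, true) (s.S k ρ (s.b (k, true) f)) :=
    LinearMap.congr_fun h1 _
  rwa [h2]

theorem Kb_N (al : Finset K) (k : K) : Stab (s.Kb al k) s.N s.N := by
  intro f hf
  filter_upwards [s.S_N k _ (s.N_b (k, true) f hf)] with ρ hρ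
  exact s.ite_mem_DPG9 al (s.Ee_N_DPG9 k) _ hρ

theorem Kb_Fl (al : Finset K) (k : K) (p : ℕ) : Stab (s.Kb al k) (s.Fl p) (s.Fl p) := by
  intro f hf
  filter_upwards [s.Fl_S p k _ (s.Fl_b' p k f hf)] with ρ hρ
  exact s.ite_mem_DPG9 al (A := Stb (s.Fl p)) (mul_mem (s.Fl_ev p k) (s.n_Fl _ p)) _ hρ

theorem Kb_ZZ_DPG9 (al : Finset K) (ρ : ℝ) (hk : k ∉ J) : Commute (s.Kb al k ρ) (s.ZZ J) :=
  commute_cp fun j hj => (s.Kb_Out_even al k ρ (l := j) (fun h => hk (h ▸ hj))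
    (s.Z_In (j, false)) (s.Z_Out (j, false))).symm

theorem Kb_Z_DPG9 (hk : k ∈ al) (g : M) : ∀ᶠ ρ in 𝓝[>] (0 : ℝ),
    ∃ g', s.Kb al k ρ (s.Z (k, false) g) - s.Z (k, false) g' ∈ s.N := by
  filter_upwards [s.S_D k (s.b (k, true) g), s.S_D k (s.Z (k, false) (s.b (k, true) g))]
    with ρ h1 h2
  have e0 : s.b (k, true) (s.Z (k, false) g) = s.Z (k, false) (s.b (k, true) g) :=
    LinearMap.congr_fun (s.b_Z_DPG9 k).eq g
  have e1 : s.Kb al k ρ (s.Z (k, false) g) =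
      (1 - s.Ee k) (s.S k ρ (s.Z (k, false) (s.b (k, true) g))) := by
    unfold Kb
    rw [if_pos hk, ← e0]
    rfl
  have e2 : s.Ee k ((1 - s.Ee k) (s.S k ρ (s.Z (k, false) (s.b (k, true) g)))) = 0 :=
    LinearMap.congr_fun (s.fr k).Ee_Ee_DPG9 _
  have e3 : s.D (k, true) ((1 - s.Ee k) (s.S k ρ (s.Z (k, false) (s.b (k, true) g)))) =
      s.D (k, true) (s.S k ρ (s.Z (k, false) (s.b (k, true) g))) :=
    LinearMap.congr_fun (s.fr k).D_Ee_DPG9 _
  rw [e1]
  exact s.hol_step_DPG9 (h := s.b (k, true) g) (e2 ▸ zero_mem _) (e3 ▸ h2)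

theorem Kb_Sm (k : K) (h : J ⊆ al) : Stab (s.Kb al k) (s.Sm J) (s.Sm J) := by
  intro f hf
  obtain ⟨g, hg⟩ := s.mem_Sm.1 hf
  by_cases hk : k ∈ J
  · filter_upwards [s.Kb_N al k _ hg, s.Kb_Z_DPG9 (h hk) g] with ρ h1 ⟨g', h2⟩
    refine s.mem_Sm.2 ⟨g', ?_⟩
    have e1 : ∀ u, s.ZZ J u = s.ZZ (J.erase k) (s.Z (k, false) u) := fun u =>
      LinearMap.congr_fun (s.ZZ_erase_DPG9 hk) u
    have e2 : s.Kb al k ρ (s.ZZ (J.erase k) (s.Z (k, false) g)) =
        s.ZZ (J.erase k) (s.Kb al k ρ (s.Z (k, false) g)) :=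
      LinearMap.congr_fun (s.Kb_ZZ_DPG9 al ρ (Finset.notMem_erase k J)).eq _
    have h3 := add_mem h1 (s.ZZ_N_DPG9 (J.erase k) _ h2)
    rw [map_sub, map_sub, e1, e2] at h3
    rw [e1]
    simpa using h3
  · filter_upwards [s.Kb_N al k _ hg] with ρ h1
    refine s.mem_Sm.2 ⟨s.Kb al k ρ g, ?_⟩
    have e2 : s.Kb al k ρ (s.ZZ J g) = s.ZZ J (s.Kb al k ρ g) :=
      LinearMap.congr_fun (s.Kb_ZZ_DPG9 al ρ hk).eq _
    rwa [map_sub, e2] at h1

theorem RR_Kb_DPG9 (k : K) (h : J ⊆ al) {C : Submodule ℂ M} (hC : Stab (s.Kb al k) C C)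
    (hf : s.RR J f ∈ C) : ∀ᶠ ρ in 𝓝[>] (0 : ℝ), s.RR J (s.Kb al k ρ f) ∈ C := by
  by_cases hk : k ∈ J
  · refine Eventually.of_forall fun ρ => ?_
    have e1 : s.RR J = s.RR (J.erase k) * s.Rs k := by
      rw [← (s.Out_RR (s.Rs_Out k) (Finset.notMem_erase k J)).eq,
        ← s.RR_insert (Finset.notMem_erase k J), Finset.insert_erase hk]
    have e2 : s.RR J * s.Kb al k ρ = 0 := by
      unfold Kb
      rw [if_pos (h hk), e1, ← mul_assoc, ← mul_assoc, mul_assoc _ (s.Rs k),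
        (s.fr k).Rs_Ee_DPG9]
      simp
    have e3 : s.RR J (s.Kb al k ρ f) = 0 := LinearMap.congr_fun e2 f
    rw [e3]
    exact zero_mem _
  · filter_upwards [hC _ hf] with ρ h1
    have e1 : Commute (s.Kb al k ρ) (s.RR J) :=
      commute_cp fun j hj => (s.Kb_Out_even al k ρ (l := j) (fun h => hk (h ▸ hj))
        (s.Rs_In j) (s.Rs_Out j)).symm
    have e2 : s.Kb al k ρ (s.RR J f) = s.RR J (s.Kb al k ρ f) := LinearMap.congr_fun e1.eq f
    rwa [e2] at h1

theorem Kb_W (al : Finset K) (k : K) (w : ℕ) : Stab (s.Kb al k) (s.W al w) (s.W al w) := by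
  intro f hf
  have h1 : ∀ᶠ ρ in 𝓝[>] (0 : ℝ), ∀ J ∈ al.powersetCard w, s.RR J (s.Kb al k ρ f) ∈ s.N := by
    refine (eventually_all_finset _).2 fun J hJ => ?_
    obtain ⟨a1, a2⟩ := Finset.mem_powersetCard.1 hJ
    exact s.RR_Kb_DPG9 k a1 (s.Kb_N al k) (s.mem_W.1 hf J a1 a2)
  filter_upwards [h1] with ρ hρ
  exact s.mem_W.2 fun J a1 a2 => hρ J (Finset.mem_powersetCard.2 ⟨a1, a2⟩)

theorem Kb_Y (al : Finset K) (k : K) (q : ℕ) : Stab (s.Kb al k) (s.Y al q) (s.Y al q) := by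
  intro f hf
  obtain ⟨hf1, hf2⟩ := s.mem_Y.1 hf
  have h1 : ∀ᶠ ρ in 𝓝[>] (0 : ℝ), ∀ J ∈ al.powersetCard q,
      s.RR J (s.Kb al k ρ f) ∈ s.Sm (al \ J) := by
    refine (eventually_all_finset _).2 fun J hJ => ?_
    obtain ⟨a1, a2⟩ := Finset.mem_powersetCard.1 hJ
    exact s.RR_Kb_DPG9 k a1 (s.Kb_Sm k Finset.sdiff_subset) (hf2 J a1 a2)
  filter_upwards [h1, s.Kb_W al k (q + 1) f hf1] with ρ hρ h2
  exact s.mem_Y.2 ⟨h2, fun J a1 a2 => hρ J (Finset.mem_powersetCard.2 ⟨a1, a2⟩)⟩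

end LogM

end Pool.Agent.PWD.Loc
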