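import Pool.Agent.P.MP_65ad7c_ag.DPS4
import Pool.Agent.P.MP_65ad7c_ag.DPG10
import Pool.Agent.P.MP_65ad7c_ag.DPF1

/-! Local exactness for logarithmic forms. -/

open Set Filter Topology TopologicalSpace Metric
open scoped ContDiff ComplexConjugate
open Pool.Agent.HT (Form Alt pull der kill)

noncomputable section
namespace Pool.Agent.PWD.Loc

variable {d : ℕ} {ι : Type} [LinearOrder ι] {κ : ι → Option (Fin d)} {c : E d} {α : Finset ι}

theorem Std.l4 (h : Std κ c) : ∀ w f, (Ctx.std κ).SmN univ α c f → (Ctx.std κ).WN univ α w c f →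
    (Ctx.std κ).NulN univ α c (dG f) →
    ∃ (γ : Finset ι → ℂ) (g : GF (E d)), (Ctx.std κ).SmN univ α c g ∧ (Ctx.std κ).WN univ α w c g ∧
    (∀ I, w ≤ I.card → γ I = 0) ∧
    (Ctx.std κ).NulN univ α c (f - ∑ I ∈ α.powerset, γ I • lgI (zc κ) I oneG - dG g) := by
  classical
  intro w f _ hw hd
  obtain ⟨F, _, _, _, ⟨Φ⟩⟩ := exists_FK d
  obtain ⟨g, hg, hf⟩ := h.wn_hat Φ hw
  have hδ := (hf.dif h.alK_c).nul.2 hd
  obtain ⟨u, hu, huW, g1, hg1, hN⟩ := (Φ.logM c).lp hg hδ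
  obtain ⟨γ, rfl⟩ := (Φ.logM c).toVac.Cst_coeff (h.words α) h.surj hu
  have hγ := (Φ.logM c).W_coeff (h.words α) huW
  have h1 := FK.Hat.self (Φ := Φ) (alK κ α) c g1
  refine ⟨fun I => if I ∈ sg κ α then γ I else 0, _, FK.Hat.smN α c g1, h.hat_wn hg1 h1, ?_, ?_⟩
  · intro I hI
    by_cases hs : I ∈ sg κ α
    · exact (if_pos hs).trans (hγ I hs (by rw [wdK_length (mem_sg.1 hs).2]; exact hI))
    · exact if_neg hs
  · rw [sum_sg (fun I => if I ∈ sg κ α then γ I else 0) fun _ => oneG,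
      Finset.sum_congr rfl fun I hI => by rw [if_pos hI]]
    refine ((hf.sub (FK.Hat.sum (sg κ α) fun I hI => FK.Hat.smul (γ I) ?_)).sub
      (h1.dif h.alK_c)).nul.1 hN
    exact (FK.Hat.vac (alK κ α) c).aL ((h.words α).sub I hI)

theorem Std.l3 (h : Std κ c) : ∀ w p f r, (Ctx.std κ).SmN univ α c f → (Ctx.std κ).WN univ α w c f →
    (Ctx.std κ).FN univ α p c f → (Ctx.std κ).RN univ α w c (dG f) r →
    ∃ g r', (Ctx.std κ).SmN univ α c g ∧ (Ctx.std κ).WN univ α w c g ∧ (Ctx.std κ).FN univ α p c g ∧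
      (Ctx.std κ).RN univ α w c (f - dG g) r' := by
  intro w p f r _ hw hF hR
  obtain ⟨F, _, _, _, ⟨Φ⟩⟩ := exists_FK d
  obtain ⟨g, hg, hf⟩ := h.wn_hat Φ hw
  cases w with
  | zero =>
    have h0 := FK.Hat.self (Φ := Φ) (alK κ α) c 0
    refine ⟨_, r, FK.Hat.smN α c 0, h.hat_wn (Submodule.zero_mem _) h0,
      h0.fn.1 (Submodule.zero_mem _), ?_⟩
    refine (hf.sub (h0.dif h.alK_c)).nul.1 ?_
    rw [map_zero, sub_zero]
    exact hf.nul.2 hw.nul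
  | succ q =>
    obtain ⟨e, he, hr⟩ := hR
    have hY := h.rh_Y (RH_ind he hr) (hf.dif h.alK_c)
    obtain ⟨g1, hg1, hF1, hY1⟩ := (Φ.logM c).l3 hg (hf.fn.2 hF) hY
    have h1 := FK.Hat.self (Φ := Φ) (alK κ α) c g1
    obtain ⟨r', hr'⟩ := h.Y_rh hY1 (hf.sub (h1.dif h.alK_c))
    exact ⟨_, r', FK.Hat.smN α c g1, h.hat_wn hg1 h1, h1.fn.1 hF1, zc κ, eqs_std, hr'⟩

theorem Std.txt (h : Std κ c) : ∀ w f, (Ctx.std κ).TN univ α w c f → (Ctx.std κ).WN univ α w c f := by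
  have _ := h
  rintro w f ⟨O, g, hO, hc, h1, h2⟩
  have key : (Ctx.std κ).WN univ α w c g := by
    clear h2
    induction h1 with
    | zero => exact .of_nul .zero
    | smooth hs => exact .of_smG hO hc hs
    | add _ _ a b => exact a.add (std_ok' _) b
    | log hh _ a =>
      obtain ⟨i, hi, rfl⟩ := hh
      exact Ctx.WN.lg (std_ok' _) (fun _ _ => rfl) hi a
  exact key.congr (std_ok' _) ⟨O, hO, hc, h2⟩

theorem Std.top (h : Std κ c) : ∀ q f, (Ctx.std κ).WN univ α (q + 1) c f →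
    ∃ r, (Ctx.std κ).RH univ α (zc κ) q c (prj q f) r := by
  intro q f hf
  obtain ⟨F, _, _, _, ⟨Φ⟩⟩ := exists_FK d
  obtain ⟨g, hY, hg⟩ := h.tn_hat Φ (hf.txt q)
  exact h.Y_rh hY hg

end Pool.Agent.PWD.Loc
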