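import Pool.Agent.P.MP_65ad7c_ag.DPD0
import Pool.Agent.P.MP_65ad7c_ag.DCa

/-! Index bookkeeping for the standard chart. -/

open Set Filter Topology TopologicalSpace Metric
open scoped ContDiff ComplexConjugate
open Pool.Agent.HT (Form Alt pull der kill)

noncomputable section
namespace Pool.Agent.PWD.Loc

variable {d : ℕ} {ι : Type} [LinearOrder ι] {κ : ι → Option (Fin d)} {c z : E d}
  {α I t : Finset ι} {i : ι} {k : Fin d} {f : GF (E d)} {p q : ℕ}

open Classical in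
/-- the coordinates that belong to the indices in `α` -/
def alK (κ : ι → Option (Fin d)) (α : Finset ι) : Finset (Fin d) :=
  Finset.univ.filter fun k => ∃ i ∈ α, κ i = some k

/-- the coordinates that belong to `I`, in the order of `I` -/
def wdK (κ : ι → Option (Fin d)) (I : Finset ι) : List (Fin d) := (I.sort (· ≤ ·)).filterMap κ

/-- every index in `I` has a coordinate -/
def Gd (κ : ι → Option (Fin d)) (I : Finset ι) : Prop := ∀ i ∈ I, ∃ k, κ i = some k

open Classical in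
/-- subsets of `α` all of whose indices have a coordinate -/
def sg (κ : ι → Option (Fin d)) (α : Finset ι) : Finset (Finset ι) := α.powerset.filter (Gd κ)

open Classical in
/-- the same with `q` elements -/
def sgq (κ : ι → Option (Fin d)) (α : Finset ι) (q : ℕ) : Finset (Finset ι) :=
  (α.powersetCard q).filter (Gd κ)

/-- the hypotheses on a standard chart -/
structure Std (κ : ι → Option (Fin d)) (c : E d) : Prop where
  inj : ∀ i j k, κ i = some k → κ j = some k → i = j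
  cen : ∀ i k, κ i = some k → c k = 0

omit [LinearOrder ι] in
theorem std_ok' (S : Set (E d)) : (Ctx.std κ).OK S := by
  refine ⟨fun O i h hh => ?_, fun O i h hh y _ hy => ?_, fun _ _ _ _ => Subset.rfl⟩
  · obtain rfl : h = zc κ i := hh
    unfold zc
    cases κ i with
    | none => exact contDiffOn_const
    | some k => exact (contDiff_apply ℝ ℂ k).contDiffOn
  · obtain rfl : h = zc κ i := hh
    exact hy
omit [LinearOrder ι] in
theorem zc_some (h : κ i = some k) : zc κ i = fun z => z k := by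
  funext z
  rw [zc, h]
  rfl
omit [LinearOrder ι] in
theorem zc_none (h : κ i = none) : zc κ i = fun _ => 1 := by
  funext z
  rw [zc, h]
  rfl
omit [LinearOrder ι] in
theorem mem_alK : k ∈ alK κ α ↔ ∃ i ∈ α, κ i = some k := by simp [alK]
omit [LinearOrder ι] in
theorem alK_empty : alK κ (∅ : Finset ι) = ∅ := by simp [alK]
omit [LinearOrder ι] in
theorem alK_mono (h : I ⊆ α) : alK κ I ⊆ alK κ α := fun _ hk =>
  (mem_alK.1 hk).elim fun i hi => mem_alK.2 ⟨i, h hi.1, hi.2⟩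
omit [LinearOrder ι] in
theorem alK_single (h : κ i = some k) : alK κ {i} = {k} := by
  ext l
  simp [mem_alK, h, eq_comm]
omit [LinearOrder ι] in
theorem mem_sg : I ∈ sg κ α ↔ I ⊆ α ∧ Gd κ I := by simp [sg]
omit [LinearOrder ι] in
theorem mem_sgq : I ∈ sgq κ α q ↔ I ⊆ α ∧ I.card = q ∧ Gd κ I := by
  simp [sgq, Finset.mem_powersetCard, and_assoc]
omit [LinearOrder ι] in
theorem Std.alK_c (h : Std κ c) : ∀ k ∈ alK κ α, c k = 0 := fun k hk =>
  (mem_alK.1 hk).elim fun i hi => h.cen i k hi.2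
omit [LinearOrder ι] in
theorem Std.alK_disj (h : Std κ c) (hd : Disjoint α t) : Disjoint (alK κ α) (alK κ t) :=
  Finset.disjoint_left.2 fun k h1 h2 => by
    obtain ⟨i, hi, e⟩ := mem_alK.1 h1
    obtain ⟨j, hj, e'⟩ := mem_alK.1 h2
    exact Finset.disjoint_left.1 hd hi (h.inj j i k e' e ▸ hj)
theorem Std.alK_erase (h : Std κ c) (hk : κ i = some k) :
    alK κ (α.erase i) = (alK κ α).erase k := by
  ext l
  simp only [mem_alK, Finset.mem_erase]
  constructor
  · rintro ⟨j, ⟨h1, h2⟩, e⟩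
    exact ⟨fun hl => h1 (h.inj j i k (hl ▸ e) hk), j, h2, e⟩
  · rintro ⟨h1, j, h2, e⟩
    refine ⟨j, ⟨fun hj => h1 ?_, h2⟩, e⟩
    rw [hj, hk] at e
    exact (Option.some_injective _ e).symm
theorem alK_erase_none (hk : κ i = none) : alK κ (α.erase i) = alK κ α := by
  refine (alK_mono (Finset.erase_subset i α)).antisymm fun l hl => ?_
  obtain ⟨j, hj, e⟩ := mem_alK.1 hl
  refine mem_alK.2 ⟨j, Finset.mem_erase.2 ⟨fun h => ?_, hj⟩, e⟩
  rw [h, hk] at e
  cases e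
theorem wdK_toFinset : (wdK κ I).toFinset = alK κ I := by
  ext l
  simp [wdK, mem_alK, List.mem_filterMap]
theorem wdK_length (h : Gd κ I) : (wdK κ I).length = I.card := by
  rw [wdK, ← Finset.length_sort (· ≤ ·), List.filterMap_length_eq_length]
  exact fun j hj => Option.isSome_iff_exists.2 (h j ((Finset.mem_sort _).1 hj))
theorem Std.nodup (h : Std κ c) (I : Finset ι) : (wdK κ I).Nodup :=
  (Finset.sort_nodup I _).filterMap fun a a' b h1 h2 => h.inj a a' b h1 h2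
omit [LinearOrder ι] in
theorem sub_DPS0 (h : Std κ c) (hI : Gd κ I) (e : alK κ I ⊆ alK κ t) : I ⊆ t := fun j hj => by
  obtain ⟨l, hl⟩ := hI j hj
  obtain ⟨j', h1, h2⟩ := mem_alK.1 (e (mem_alK.2 ⟨j, hj, hl⟩))
  exact h.inj j' j l h2 hl ▸ h1
theorem Std.words (h : Std κ c) (α : Finset ι) : Words (alK κ α) (sg κ α) (wdK κ) :=
  ⟨fun I _ => h.nodup I, fun _ hI => wdK_toFinset.trans_subset (alK_mono (mem_sg.1 hI).1),
    fun _ hI _ hI' e => by
      rw [wdK_toFinset, wdK_toFinset] at e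
      exact (sub_DPS0 h (mem_sg.1 hI).2 e.subset).antisymm (sub_DPS0 h (mem_sg.1 hI').2 e.superset)⟩
theorem Std.wordsq (h : Std κ c) (α : Finset ι) (q : ℕ) :
    Words (alK κ α) (sgq κ α q) (wdK κ) :=
  have e : ∀ I ∈ sgq κ α q, I ∈ sg κ α := fun _ hI =>
    mem_sg.2 ⟨(mem_sgq.1 hI).1, (mem_sgq.1 hI).2.2⟩
  ⟨fun I hI => (h.words α).nodup I (e I hI), fun I hI => (h.words α).sub I (e I hI),
    fun I hI I' hI' => (h.words α).inj I (e I hI) I' (e I' hI')⟩
theorem Std.surj (h : Std κ c) : ∀ J ⊆ alK κ α, ∃ I ∈ sg κ α, (wdK κ I).toFinset = J := by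
  classical
  have _ := h
  intro J hJ
  refine ⟨α.filter fun i => ∃ k ∈ J, κ i = some k, mem_sg.2 ⟨Finset.filter_subset _ _,
    fun i hi => (Finset.mem_filter.1 hi).2.imp fun _ hk => hk.2⟩, ?_⟩
  rw [wdK_toFinset]
  ext l
  rw [mem_alK]
  constructor
  · rintro ⟨j, hj, e⟩
    obtain ⟨l', h1, h2⟩ := (Finset.mem_filter.1 hj).2
    rw [e] at h2
    exact Option.some_injective _ h2 ▸ h1
  · intro hl
    obtain ⟨j, hj, e⟩ := mem_alK.1 (hJ hl)
    exact ⟨j, Finset.mem_filter.2 ⟨hj, l, hl, e⟩, e⟩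
theorem Std.surjq (h : Std κ c) :
    ∀ J ⊆ alK κ α, J.card = q → ∃ I ∈ sgq κ α q, (wdK κ I).toFinset = J := fun J hJ hq => by
  obtain ⟨I, hI, e⟩ := h.surj J hJ
  refine ⟨I, mem_sgq.2 ⟨(mem_sg.1 hI).1, ?_, (mem_sg.1 hI).2⟩, e⟩
  rw [← wdK_length (mem_sg.1 hI).2, ← List.toFinset_card_of_nodup (h.nodup I), e, hq]
theorem lgI_gd (h : Gd κ I) (f : GF (E d)) : lgI (zc κ) I f = lgL (wdK κ I) f := by
  have h' : ∀ j ∈ I.sort (· ≤ ·), ∃ k, κ j = some k := fun j hj => h j ((Finset.mem_sort _).1 hj)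
  unfold lgI lgL wdK
  generalize I.sort (· ≤ ·) = L at h'
  induction L with
  | nil => rfl
  | cons j L ih =>
    obtain ⟨l, hl⟩ := h' j List.mem_cons_self
    rw [List.filterMap_cons_some hl, List.foldr_cons, List.foldr_cons, zc_some hl,
      ih fun j hj => h' j (List.mem_cons_of_mem _ hj)]
theorem lg_one_DPS0 (f : GF (E d)) : lg (fun _ => 1) f = 0 := by
  funext n
  cases n with
  | zero => rfl
  | succ n =>
    ext x v
    simp [lg, wG_applyDL1a]
theorem lgI_bad (h : ¬Gd κ I) (f : GF (E d)) : lgI (zc κ) I f = 0 := by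
  have h' : ∃ j ∈ I.sort (· ≤ ·), κ j = none := by
    by_contra hc
    exact h fun j hj => Option.ne_none_iff_exists'.1 fun e => hc ⟨j, (Finset.mem_sort _).2 hj, e⟩
  unfold lgI
  generalize I.sort (· ≤ ·) = L at h'
  induction L with
  | nil => simp at h'
  | cons j L ih =>
    obtain ⟨j', h1, h2⟩ := h'
    rw [List.foldr_cons]
    rcases List.mem_cons.1 h1 with rfl | h1
    · rw [zc_none h2, lg_one_DPS0]
    · rw [ih ⟨j', h1, h2⟩]
      exact wG_zero _
theorem sum_sg (γ : Finset ι → ℂ) (β : Finset ι → GF (E d)) :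
    ∑ I ∈ α.powerset, γ I • lgI (zc κ) I (β I) = ∑ I ∈ sg κ α, γ I • lgL (wdK κ I) (β I) := by
  rw [sg, Finset.sum_filter]
  refine Finset.sum_congr rfl fun I _ => ?_
  split_ifs with h
  · rw [lgI_gd h]
  · rw [lgI_bad h]
    ext n x v
    simp
theorem sum_sgq (β : Finset ι → GF (E d)) :
    ∑ I ∈ α.powersetCard q, lgI (zc κ) I (β I) = ∑ I ∈ sgq κ α q, lgL (wdK κ I) (β I) := by
  rw [sgq, Finset.sum_filter]
  refine Finset.sum_congr rfl fun I _ => ?_
  split_ifs with h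
  · rw [lgI_gd h]
  · rw [lgI_bad h]
omit [LinearOrder ι] in
theorem zc_zero_DPS0 : zc κ i z = 0 ↔ ∃ k, κ i = some k ∧ z k = 0 := by
  unfold zc
  cases κ i <;> simp
omit [LinearOrder ι] in
theorem mem_St_DPS0 : z ∈ St univ (Ctx.std κ).D I ↔ ∀ i ∈ I, ∃ k, κ i = some k ∧ z k = 0 := by
  simp only [St, univ_inter, mem_iInter, Ctx.std, mem_ofPred_eq, zc_zero_DPS0]
omit [LinearOrder ι] in
theorem off_eq : Off (Ctx.std κ).D α = (Rg (alK κ α) : Set (E d))ᶜ := by
  ext z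
  simp only [Off, mem_iUnion, Ctx.std, mem_ofPred_eq, zc_zero_DPS0, mem_compl_iff,
    SetLike.mem_coe, mem_Rg, mem_alK, not_forall, not_not]
  exact ⟨fun ⟨i, hi, k, h1, h2⟩ => ⟨k, ⟨i, hi, h1⟩, h2⟩,
    fun ⟨k, ⟨i, hi, h1⟩, h2⟩ => ⟨i, hi, k, h1, h2⟩⟩
omit [LinearOrder ι] in
theorem St_gd (h : Gd κ I) : St univ (Ctx.std κ).D I = {z | ∀ k ∈ alK κ I, z k = 0} := by
  ext z
  rw [mem_St_DPS0]
  refine ⟨fun h1 k hk => ?_, fun h1 i hi => (h i hi).imp fun k hk =>
    ⟨hk, h1 k (mem_alK.2 ⟨i, hi, hk⟩)⟩⟩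
  obtain ⟨i, hi, e⟩ := mem_alK.1 hk
  obtain ⟨k', e', h2⟩ := h1 i hi
  rw [e] at e'
  exact Option.some_injective _ e' ▸ h2
omit [LinearOrder ι] in
theorem St_bad (h : ¬Gd κ I) : St univ (Ctx.std κ).D I = ∅ :=
  eq_empty_of_forall_notMem fun _ hz => h fun i hi => (mem_St_DPS0.1 hz i hi).imp fun _ hk => hk.1
omit [LinearOrder ι] in
theorem Std.mem_St (h : Std κ c) : c ∈ St univ (Ctx.std κ).D I ↔ Gd κ I :=
  mem_St_DPS0.trans (forall₂_congr fun i _ => exists_congr fun k =>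
    and_iff_left_of_imp (h.cen i k))
theorem lgI_congr {h h' : ι → E d → ℂ} (e : ∀ i ∈ I, h i = h' i) (f : GF (E d)) :
    lgI h I f = lgI h' I f :=
  List.foldr_ext _ _ _ fun j hj _ => by rw [e j ((Finset.mem_sort _).1 hj)]
omit [LinearOrder ι] in
theorem eqs_std : (Ctx.std κ).Eqs α c (zc κ) :=
  ⟨univ, isOpen_univ, trivial, fun _ _ _ _ => rfl⟩
omit [LinearOrder ι] in
theorem eqs_eq {h : ι → E d → ℂ} (hh : (Ctx.std κ).Eqs α c h) : ∀ i ∈ α, h i = zc κ i :=
  hh.elim fun O hO => hO.2.2 O Subset.rfl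
theorem RH_ind {h : ι → E d → ℂ} {r : Finset ι → GF (E d)} (hh : (Ctx.std κ).Eqs α c h)
    (hf : (Ctx.std κ).RH univ α h q c f r) : (Ctx.std κ).RH univ α (zc κ) q c f r := by
  obtain ⟨O, β, h1, h2, h3, h4, h5⟩ := hf
  refine ⟨O, β, h1, h2, h3, ?_, h5⟩
  rwa [Finset.sum_congr rfl fun I hI => lgI_congr (h' := zc κ)
    (fun i hi => eqs_eq hh i ((Finset.mem_powersetCard.1 hI).1 hi)) (β I)] at h4

end Pool.Agent.PWD.Loc
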