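import Pool.Agent.P.MP_65ad7c_ag.DPS0
import Pool.Agent.P.MP_65ad7c_ag.DPA3

/-! The germ conditions in the standard chart. -/

open Set Filter Topology TopologicalSpace Metric
open scoped ContDiff ComplexConjugate
open Pool.Agent.HT (Form Alt pull der kill)

noncomputable section
namespace Pool.Agent.PWD.Loc

variable {d : ℕ} {ι : Type} [LinearOrder ι] {κ : ι → Option (Fin d)} {c z : E d}
  {α I t : Finset ι} {i : ι} {k : Fin d} {f : GF (E d)} {p q : ℕ}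
  {J al : Finset (Fin d)} {O : Set (E d)}

omit [LinearOrder ι]

theorem kR_apply (J : Finset (Fin d)) (z : E d) (k : Fin d) :
    kR J z k = if k ∈ J then 0 else z k := by
  split_ifs with h
  · exact HT.kill_of_mem (T := (J : Set (Fin d))) h z
  · exact HT.kill_of_notMem (T := (J : Set (Fin d))) h z
theorem kR_fix_DPS1 (hz : ∀ k ∈ J, z k = 0) : kR J z = z := by
  funext k
  rw [kR_apply]
  split_ifs with h
  · exact (hz k h).symm
  · rfl
theorem kR_mem_DPS1 (J : Finset (Fin d)) (z : E d) : ∀ k ∈ J, kR J z k = 0 := fun k hk => by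
  rw [kR_apply, if_pos hk]
theorem kR_Rg_DPS1 (hd : Disjoint al J) (hz : z ∈ Rg al) : kR J z ∈ Rg al := fun k hk => by
  rw [kR_apply, if_neg (Finset.disjoint_left.1 hd hk)]
  exact hz k hk
theorem set_univ_DPS1 : (univ ∩ O) \ Off (Ctx.std κ).D α = O ∩ Rg (alK κ α) := by
  rw [off_eq, univ_inter, Set.sdiff_compl]
theorem set_St_DPS1 (hI : Gd κ I) : (St univ (Ctx.std κ).D I ∩ O) \ Off (Ctx.std κ).D α =
    {z | ∀ k ∈ alK κ I, z k = 0} ∩ (O ∩ Rg (alK κ α)) := by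
  rw [off_eq, St_gd hI, Set.sdiff_compl, inter_assoc]
theorem kR_kR (J : Finset (Fin d)) (z : E d) : kR J (kR J z) = kR J z := by
  funext k
  rw [kR_apply, kR_apply]
  split_ifs <;> rfl
theorem kR_Jc (J : Finset (Fin d)) (v : E d) : kR J (Jc d v) = Jc d (kR J v) :=
  (kill (J : Set (Fin d))).map_smul Complex.I v
theorem pullG_kR (J : Finset (Fin d)) (f : GF (E d)) (n : ℕ) (z : E d) :
    pullG (kR J) f n z = (f n (kR J z)).compContinuousLinearMap (kR J) := by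
  unfold pullG pull
  rw [ContinuousLinearMap.fderiv]
theorem pullG_kR_kR (J : Finset (Fin d)) (f : GF (E d)) :
    pullG (kR J) (pullG (kR J) f) = pullG (kR J) f := by
  funext n z
  rw [pullG_kR, pullG_kR, pullG_kR, kR_kR]
  ext v
  simp only [ContinuousAlternatingMap.compContinuousLinearMap_apply]
  congr 1
  funext j
  exact kR_kR J (v j)
theorem kR_tendsto (hc : ∀ k ∈ J, c k = 0) (hd : Disjoint al J) :
    Tendsto (kR J) (𝓝[Rg al] c) (𝓝[Rg al] c) := by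
  refine tendsto_nhdsWithin_iff.2 ⟨?_, ?_⟩
  · have h := (kR J).continuous.tendsto c
    rw [kR_fix_DPS1 hc] at h
    exact h.mono_left nhdsWithin_le_nhds
  · filter_upwards [self_mem_nhdsWithin] with z hz using kR_Rg_DPS1 hd hz
theorem ev_nhds {P : E d → Prop} (h : ∀ᶠ z in 𝓝[Rg al] c, P z) :
    ∀ᶠ z in 𝓝[Rg al] c, z ∈ Rg al ∧ ∀ᶠ y in 𝓝 z, P y := by
  have h1 := (eventually_nhdsWithin_iff.1 h).eventually_nhds
  filter_upwards [self_mem_nhdsWithin, nhdsWithin_le_nhds h1] with z hz h2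
  refine ⟨hz, ?_⟩
  filter_upwards [h2, (Rg al).isOpen.mem_nhds hz] with y h3 h4 using h3 h4
theorem ev_ball {P : E d → Prop} :
    (∀ᶠ z in 𝓝[Rg al] c, P z) ↔ ∃ r > 0, ∀ z ∈ ball c r ∩ Rg al, P z :=
  Metric.mem_nhdsWithin_iff
theorem nhds_Rg_empty : 𝓝[Rg (∅ : Finset (Fin d))] c = 𝓝 c := by
  rw [Rg_empty, Opens.coe_top, nhdsWithin_univ]
theorem van_lin (hO : IsOpen O) : VanG ({z | ∀ k ∈ J, z k = 0} ∩ O) f ↔
    ∀ z ∈ {z : E d | ∀ k ∈ J, z k = 0} ∩ O, ∀ n, (f n z).compContinuousLinearMap (kR J) = 0 := by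
  constructor
  · intro h z hz n
    have e := kR_fix_DPS1 hz.1
    have h1 : ∀ᶠ y in 𝓝 z, kR J y ∈ O :=
      (kR J).continuous.continuousAt.eventually (hO.mem_nhds (e.symm ▸ hz.2))
    have h2 := h.gen (γ := kR J) (z := z)
      (h1.mono fun y hy => ⟨(kR J).contDiff.contDiffAt, kR_mem_DPS1 J y, hy⟩) n
    rwa [pullG_kR, e] at h2
  · intro h n γ O' hO' hγ hm z hz
    have hd : DifferentiableAt ℝ γ z :=
      (hγ.contDiffAt (hO'.mem_nhds hz)).differentiableAt (by simp)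
    have e : γ =ᶠ[𝓝 z] kR J ∘ γ := by
      filter_upwards [hO'.mem_nhds hz] with y hy using (kR_fix_DPS1 (hm hy).1).symm
    have e2 : fderiv ℝ γ z = (kR J).comp (fderiv ℝ γ z) :=
      e.fderiv_eq.trans ((kR J).hasFDerivAt.comp z hd.hasFDerivAt).fderiv
    unfold pull
    rw [e2]
    ext v
    exact DFunLike.congr_fun (h (γ z) (hm hz) n) (fderiv ℝ γ z ∘ v)
theorem nul_iff : (Ctx.std κ).NulN univ α c f ↔ ∀ᶠ z in 𝓝[Rg (alK κ α)] c, ∀ n, f n z = 0 := by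
  constructor
  · rintro ⟨O, hO, hc, h⟩
    rw [set_univ_DPS1] at h
    exact mem_nhdsWithin.2 ⟨O, hO, hc, fun z hz n =>
      h.eq_zero (hO.inter (Rg _).isOpen) n z hz⟩
  · intro h
    obtain ⟨O, hO, hc, h⟩ := mem_nhdsWithin.1 h
    refine ⟨O, hO, hc, ?_⟩
    rw [set_univ_DPS1]
    exact .of_zero fun n z hz => h hz n
theorem sm_iff : (Ctx.std κ).SmN univ α c f ↔
    ∃ r > 0, ∀ n, ContDiffOn ℝ ∞ (f n) (ball c r ∩ Rg (alK κ α)) := by
  constructor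
  · rintro ⟨O, hO, hc, h⟩
    rw [set_univ_DPS1] at h
    obtain ⟨r, hr, hb⟩ := Metric.isOpen_iff.1 hO c hc
    exact ⟨r, hr, fun n => (h.smG_DL2 n).mono (inter_subset_inter_left _ hb)⟩
  · rintro ⟨r, hr, h⟩
    refine ⟨ball c r, isOpen_ball, mem_ball_self hr, ?_⟩
    rw [set_univ_DPS1]
    exact SmG.smS (isOpen_ball.inter (Rg _).isOpen) subset_rfl h
theorem fn_iff : (Ctx.std κ).FN univ α p c f ↔
    ∀ᶠ z in 𝓝[Rg (alK κ α)] c, ∀ n, tyA (Jc d) p n (f n z) = 0 :=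
  nul_iff (f := tyG (Ctx.std κ).J p f)
theorem Std.nulSt_iff (h : Std κ c) (hI : Gd κ I) (hd : Disjoint α I) :
    (Ctx.std κ).NulN (St univ (Ctx.std κ).D I) α c f ↔
      ∀ᶠ z in 𝓝[Rg (alK κ α)] c, ∀ n, pullG (kR (alK κ I)) f n z = 0 := by
  constructor
  · rintro ⟨O, hO, hc, hv⟩
    rw [set_St_DPS1 hI, van_lin (hO.inter (Rg _).isOpen)] at hv
    have h1 : ∀ᶠ z in 𝓝[Rg (alK κ α)] c, z ∈ O ∩ Rg (alK κ α) :=
      mem_nhdsWithin.2 ⟨O, hO, hc, subset_rfl⟩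
    filter_upwards [(kR_tendsto h.alK_c (h.alK_disj hd)).eventually h1] with z hz n
    rw [pullG_kR]
    exact hv _ ⟨kR_mem_DPS1 _ z, hz⟩ n
  · intro hv
    obtain ⟨O, hO, hc, hv⟩ := mem_nhdsWithin.1 hv
    refine ⟨O, hO, hc, ?_⟩
    rw [set_St_DPS1 hI, van_lin (hO.inter (Rg _).isOpen)]
    intro z hz n
    have h1 := hv hz.2 n
    rwa [pullG_kR, kR_fix_DPS1 hz.1] at h1
theorem Std.fnSt_iff (h : Std κ c) (hI : Gd κ I) (hd : Disjoint α I) :
    (Ctx.std κ).FN (St univ (Ctx.std κ).D I) α p c f ↔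
      ∀ᶠ z in 𝓝[Rg (alK κ α)] c, ∀ n, tyA (Jc d) p n (pullG (kR (alK κ I)) f n z) = 0 := by
  refine (h.nulSt_iff (f := tyG (Ctx.std κ).J p f) hI hd).trans ?_
  have e : ∀ n z, pullG (kR (alK κ I)) (tyG (Ctx.std κ).J p f) n z =
      tyA (Jc d) p n (pullG (kR (alK κ I)) f n z) := fun n z => by
    rw [pullG_kR, pullG_kR]
    exact tyA_comp (kR_Jc _) p n _
  simp only [e]
theorem Std.smSt (h : Std κ c) (hI : Gd κ I) (hd : Disjoint α I)
    (hf : (Ctx.std κ).SmN (St univ (Ctx.std κ).D I) α c f) :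
    (Ctx.std κ).SmN univ α c (pullG (kR (alK κ I)) f) := by
  obtain ⟨O, hO, hc, hs⟩ := hf
  rw [set_St_DPS1 hI] at hs
  refine ⟨kR (alK κ I) ⁻¹' O, hO.preimage (kR _).continuous, ?_, ?_⟩
  · rw [mem_preimage, kR_fix_DPS1 h.alK_c]
    exact hc
  · rw [set_univ_DPS1]
    refine hs.pull isOpen_univ (subset_univ _) (kR _).contDiff.contDiffOn fun z hz => ?_
    exact mem_inter (kR_mem_DPS1 _ z) (mem_inter hz.1 (kR_Rg_DPS1 (h.alK_disj hd) hz.2))
theorem smG_of_smN (hf : (Ctx.std κ).SmN univ ∅ c f) : ∃ O, IsOpen O ∧ c ∈ O ∧ SmG O f := by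
  obtain ⟨O, hO, hc, hs⟩ := hf
  rw [set_univ_DPS1, alK_empty, Rg_empty, Opens.coe_top, inter_univ] at hs
  exact ⟨O, hO, hc, hs.smG_DL2⟩

end Pool.Agent.PWD.Loc
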