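import Pool.Agent.P.MP_65ad7c_ag.DPS2

/-! The weight filtrations in terms of coefficients. -/

open Set Filter Topology TopologicalSpace Metric
open scoped ContDiff ComplexConjugate
open Pool.Agent.HT (Form Alt pull der kill)

noncomputable section
namespace Pool.Agent.PWD.Loc

variable {d : ℕ} {F : Type} [NormedAddCommGroup F] [NormedSpace ℂ F] [FiniteDimensional ℂ F]
  {Φ : FK d F} {ι : Type} [LinearOrder ι] {κ : ι → Option (Fin d)} {c : E d} {α I : Finset ι}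
  {al J : Finset (Fin d)} {k : Fin d} {f f' : GF (E d)} {g g' : Fn (⊤ : Opens (E d)) F}
  {w p q : ℕ} {O : Set (E d)}

theorem lg_one_DPS3 (f : GF (E d)) : lg (fun _ : E d => (1 : ℂ)) f = 0 := by
  funext n
  cases n with
  | zero => rfl
  | succ n => ext x v; simp [lg, wG_applyDL1a]

omit [LinearOrder ι] in
theorem St_single_DPS3 (i : ι) : St univ (Ctx.std κ).D {i} = univ ∩ (Ctx.std κ).D i := by
  simp [St]

omit [LinearOrder ι] in
theorem hat_nul_DPS3 (h : Φ.Hat (alK κ α) c g f) (h' : Φ.Hat (alK κ α) c g f') :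
    (Ctx.std κ).NulN univ α c (f - f') :=
  (h.sub h').nul.1 (by rw [sub_self]; exact Submodule.zero_mem _)

theorem P_iff_DPS3 {i : ι} (h : Std κ c) (hk : κ i = some k)
    (hg : Φ.Hat (alK κ (α.erase i)) c g f) :
    (Φ.logM c).P k g ∈ (Φ.logM c).N ↔
      (Ctx.std κ).NulN (univ ∩ (Ctx.std κ).D i) (α.erase i) c f := by
  have hd : Disjoint (α.erase i) {i} := by simp
  have hI : Gd κ {i} := fun j hj => ⟨k, by rw [Finset.mem_singleton.1 hj, hk]⟩
  have h1 := (hg.PP h.alK_c (h.alK_disj hd)).mem_N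
  rw [← St_single_DPS3, h.nulSt_iff hI hd, ← h1, alK_single hk, Site.PP, cp_single]

theorem lw_hat_DPS3 (Φ : FK d F) (h : Std κ c) (hO : IsOpen O) (hc : c ∈ O)
    (hf : LW ((Ctx.std κ).G O) (Ctx.std κ).D univ O α w f) :
    ∃ g ∈ (Φ.logM c).W (alK κ α) w, Φ.Hat (alK κ α) c g f := by
  induction hf with
  | zero => exact ⟨0, Submodule.zero_mem _, .zero⟩
  | smooth hs =>
    obtain ⟨g, hg⟩ := FK.Hat.of_smG (Φ := Φ) hO hc hs
    exact ⟨_, (Φ.logM c).W_ZZ _ _ g, hg.ZZ h.alK_c⟩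
  | add _ _ h1 h2 =>
    obtain ⟨g1, a1, b1⟩ := h1
    obtain ⟨g2, a2, b2⟩ := h2
    exact ⟨g1 + g2, Submodule.add_mem _ a1 a2, b1.add b2⟩
  | @mono α w f i _ ih =>
    obtain ⟨g, a, b⟩ := ih
    by_cases hi : i ∈ α
    · cases hk : κ i with
      | none => rw [alK_erase_none hk] at a b; exact ⟨g, a, b⟩
      | some k =>
        rw [h.alK_erase hk] at a b
        have hm : k ∈ alK κ α := mem_alK.2 ⟨i, hi, hk⟩
        rw [← Finset.insert_erase hm]
        exact ⟨_, (Φ.logM c).W_Z (Finset.notMem_erase _ _) a,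
          b.Z (Finset.notMem_erase _ _) (h.cen i k hk)⟩
    · rw [Finset.erase_eq_of_notMem hi] at a b
      exact ⟨g, a, b⟩
  | @up α w f i u hi hu _ ih =>
    obtain ⟨g, a, b⟩ := ih
    obtain rfl : u = zc κ i := hu
    cases hk : κ i with
    | none => rw [zc_none hk, lg_one_DPS3]; exact ⟨0, Submodule.zero_mem _, .zero⟩
    | some k =>
      rw [h.alK_erase hk] at a b
      have hm : k ∈ alK κ α := mem_alK.2 ⟨i, hi, hk⟩
      rw [← Finset.insert_erase hm, zc_some hk]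
      exact ⟨_, (Φ.logM c).W_up (Finset.notMem_erase _ _) a, b.a_ins (Finset.notMem_erase _ _)⟩
  | @van α w f i u hi hu _ hv ih =>
    obtain ⟨g, a, b⟩ := ih
    obtain rfl : u = zc κ i := hu
    cases hk : κ i with
    | none => rw [zc_none hk, lg_one_DPS3]; exact ⟨0, Submodule.zero_mem _, .zero⟩
    | some k =>
      have hP := (P_iff_DPS3 h hk b).2 ⟨O, hO, hc, hv⟩
      rw [h.alK_erase hk] at a b
      have hm : k ∈ alK κ α := mem_alK.2 ⟨i, hi, hk⟩
      rw [← Finset.insert_erase hm, zc_some hk]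
      exact ⟨_, (Φ.logM c).W_van (Finset.notMem_erase _ _) a hP,
        b.a_ins (Finset.notMem_erase _ _)⟩

theorem Std.wn_hat (Φ : FK d F) (h : Std κ c) (hf : (Ctx.std κ).WN univ α w c f) :
    ∃ g ∈ (Φ.logM c).W (alK κ α) w, Φ.Hat (alK κ α) c g f := by
  obtain ⟨O, f', hO, hc, h1, h2⟩ := hf
  obtain ⟨g, a, b⟩ := lw_hat_DPS3 Φ h hO hc h1
  exact ⟨g, a, b.congr ⟨O, hO, hc, h2⟩⟩

theorem split_DPS3 (h : Std κ c) (hk : k ∉ J) (e : alK κ α = insert k J) :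
    ∃ i ∈ α, κ i = some k ∧ alK κ (α.erase i) = J := by
  obtain ⟨i, hi, hi'⟩ := mem_alK.1 (e ▸ Finset.mem_insert_self k J : k ∈ alK κ α)
  exact ⟨i, hi, hi', by rw [h.alK_erase hi', e, Finset.erase_insert hk]⟩

theorem Std.hat_wn (h : Std κ c) (hg : g ∈ (Φ.logM c).W (alK κ α) w)
    (hf : Φ.Hat (alK κ α) c g f) : (Ctx.std κ).WN univ α w c f := by
  have hC : (Ctx.std κ).OK univ := std_ok' _
  refine (Φ.logM c).W_ind (A := fun J w g => ∀ α : Finset ι, alK κ α = J → ∀ f,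
    Φ.Hat J c g f → (Ctx.std κ).WN univ α w c f) ?_ ?_ ?_ ?_ ?_ ?_ hg α rfl f hf
  · rintro _ w g hg α rfl f hf
    exact .of_nul (hf.nul.1 hg)
  · intro w g α e f hf
    have h1 := FK.Hat.self (Φ := Φ) ∅ c g
    have h2 := FK.Hat.smG (Φ := Φ) g
    rw [← e] at hf h1 h2
    exact (Ctx.WN.of_smG isOpen_univ (mem_univ c) h2).congr hC (hat_nul_DPS3 hf h1)
  · rintro _ w g g' h1 h2 α rfl f hf
    exact ((h1 α rfl _ (.self _ c g)).add hC (h2 α rfl _ (.self _ c g'))).congr hC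
      (hat_nul_DPS3 hf ((FK.Hat.self _ c g).add (.self _ c g')))
  · intro J w g k hk h1 α e f hf
    obtain ⟨i, hi, hi', e'⟩ := split_DPS3 h hk e
    have h2 := (FK.Hat.self (Φ := Φ) J c g).Z hk (h.cen i k hi')
    rw [← e] at hf h2
    exact ((h1 _ e' _ (.self J c g)).anti subset_rfl (Finset.erase_subset _ _)).congr hC
      (hat_nul_DPS3 hf h2)
  · intro J w g k hk h1 α e f hf
    obtain ⟨i, hi, hi', e'⟩ := split_DPS3 h hk e
    have h2 := (FK.Hat.self (Φ := Φ) J c g).a_ins hk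
    rw [← e, ← zc_some hi'] at h2
    rw [← e] at hf
    exact (Ctx.WN.up hC hi isOpen_univ (mem_univ c) (h := zc κ i) rfl
      (h1 _ e' _ (.self J c g))).congr hC (hat_nul_DPS3 hf h2)
  · intro J w g k hk h1 hP α e f hf
    obtain ⟨i, hi, hi', e'⟩ := split_DPS3 h hk e
    have h0 := FK.Hat.self (Φ := Φ) J c g
    have h2 := h0.a_ins hk
    rw [← e, ← zc_some hi'] at h2
    rw [← e] at hf
    have h3 := h1 _ e' _ h0
    generalize Φ.ren (pf J) g.1 = f0 at h0 h2 h3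
    rw [← e'] at h0
    exact (Ctx.WN.van hC hi isOpen_univ (mem_univ c) (h := zc κ i) rfl h3
      ((P_iff_DPS3 h hi' h0).1 hP)).congr hC (hat_nul_DPS3 hf h2)

omit [LinearOrder ι] in
theorem tw_hat_DPS3 (Φ : FK d F) (h : Std κ c) (hO : IsOpen O) (hc : c ∈ O)
    (hf : TW {u | ∃ i ∈ α, u ∈ (Ctx.std κ).G O i} O w f) :
    ∃ g, Φ.Hat (alK κ α) c g f ∧ (w = 0 → g ∈ (Φ.logM c).N) ∧
      ∀ q, w ≤ q + 1 → g ∈ (Φ.logM c).Y (alK κ α) q := by
  induction hf with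
  | zero => exact ⟨0, .zero, fun _ => Submodule.zero_mem _, fun _ _ => Submodule.zero_mem _⟩
  | smooth hs =>
    obtain ⟨g, hg⟩ := FK.Hat.of_smG (Φ := Φ) hO hc hs
    exact ⟨_, hg.ZZ h.alK_c, fun e => absurd e (Nat.succ_ne_zero _),
      fun q _ => (Φ.logM c).Y_ZZ _ q g⟩
  | add _ _ h1 h2 =>
    obtain ⟨g1, a1, b1, c1⟩ := h1
    obtain ⟨g2, a2, b2, c2⟩ := h2
    exact ⟨g1 + g2, a1.add a2, fun e => Submodule.add_mem _ (b1 e) (b2 e),
      fun q e => Submodule.add_mem _ (c1 q e) (c2 q e)⟩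
  | @log w f u hu _ ih =>
    obtain ⟨g, a1, b1, c1⟩ := ih
    obtain ⟨i, hi, hu⟩ := hu
    obtain rfl : u = zc κ i := hu
    cases hk : κ i with
    | none =>
      rw [zc_none hk, lg_one_DPS3]
      exact ⟨0, .zero, fun _ => Submodule.zero_mem _, fun _ _ => Submodule.zero_mem _⟩
    | some k =>
      rw [zc_some hk]
      refine ⟨_, a1.a (mem_alK.2 ⟨i, hi, hk⟩), fun e => absurd e (Nat.succ_ne_zero _),
        fun q e => ?_⟩
      cases q with
      | zero =>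
        exact (Φ.logM c).W_le_Y _ 0 ((Φ.logM c).N_le_W _ 0
          ((Φ.logM c).N_a _ _ (b1 (by omega))))
      | succ q => exact (Φ.logM c).Y_a (c1 q (by omega)) k

theorem Std.tn_hat (Φ : FK d F) (h : Std κ c) (hf : (Ctx.std κ).TN univ α (q + 1) c f) :
    ∃ g ∈ (Φ.logM c).Y (alK κ α) q, Φ.Hat (alK κ α) c g f := by
  obtain ⟨O, f', hO, hc, h1, h2⟩ := hf
  obtain ⟨g, a, -, b⟩ := tw_hat_DPS3 Φ h hO hc h1
  exact ⟨g, b q le_rfl, a.congr ⟨O, hO, hc, h2⟩⟩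

end Pool.Agent.PWD.Loc
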