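import Pool.Agent.P.MP_65ad7c_ag.DPS3

/-! Residues in terms of coefficients. -/

open Set Filter Topology TopologicalSpace Metric
open scoped ContDiff ComplexConjugate
open Pool.Agent.HT (Form Alt pull der kill)

noncomputable section
namespace Pool.Agent.PWD.Loc

variable {d : ℕ} {F : Type} [NormedAddCommGroup F] [NormedSpace ℂ F] [FiniteDimensional ℂ F]
  {Φ : FK d F} {ι : Type} [LinearOrder ι] {κ : ι → Option (Fin d)} {c : E d} {α I : Finset ι}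
  {al J : Finset (Fin d)} {k : Fin d} {f f' : GF (E d)} {g g' : Fn (⊤ : Opens (E d)) F}
  {w p q : ℕ} {O : Set (E d)}
  {r : Finset ι → GF (E d)}

theorem len_DPS4 : ∀ I ∈ sgq κ α q, (wdK κ I).length = q := fun _ hI =>
  (wdK_length (mem_sgq.1 hI).2.2).trans (mem_sgq.1 hI).2.1

theorem Std.sum_DPS4 (h : Std κ c) {b : Finset ι → Fn (⊤ : Opens (E d)) F}
    {β : Finset ι → GF (E d)} (hb : ∀ I, Φ.Hat ∅ c (b I) (β I)) :
    Φ.Hat (alK κ α) c (∑ I ∈ sgq κ α q, (Φ.logM c).wr (alK κ α) (wdK κ I) (b I))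
      (∑ I ∈ α.powersetCard q, lgI (zc κ) I (β I)) := by
  rw [sum_sgq]
  refine FK.Hat.sum _ fun I hI => FK.Hat.wr ?_ h.alK_c (hb I)
  rw [wdK_toFinset]
  exact alK_mono (mem_sgq.1 hI).1

theorem Std.rh_hat (Φ : FK d F) (h : Std κ c) (hf : (Ctx.std κ).RH univ α (zc κ) q c f r) :
    ∃ (g : Fn (⊤ : Opens (E d)) F) (b : Finset ι → Fn (⊤ : Opens (E d)) F),
      Φ.Hat (alK κ α) c g f ∧
      g - ∑ I ∈ sgq κ α q, (Φ.logM c).wr (alK κ α) (wdK κ I) (b I) ∈ (Φ.logM c).W (alK κ α) q ∧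
      ∀ I ∈ sgq κ α q, Φ.Hat ∅ c ((Φ.logM c).PP (alK κ I) (b I)) (pullG (kR (alK κ I)) (r I)) := by
  obtain ⟨O, β, hO, hc, hβ, hW, hV⟩ := hf
  choose b hb using fun I => FK.Hat.of_smG (Φ := Φ) hO hc (hβ I)
  obtain ⟨g0, hg0, hH⟩ := h.wn_hat Φ hW
  have h1 := hH.add (h.sum_DPS4 (α := α) (q := q) hb)
  rw [sub_add_cancel] at h1
  refine ⟨_, b, h1, by rwa [add_sub_cancel_right], fun I hI => ?_⟩
  obtain ⟨hIα, hIq, hG⟩ := mem_sgq.1 hI
  have h2 := FK.Hat.PP (J := alK κ I) h.alK_c (Finset.disjoint_empty_left _) (hb I)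
  have h3 := (h.nulSt_iff (α := ∅) hG (Finset.disjoint_empty_left _)).1
    (Ctx.NulN.of_open_DL2 hO hc (hV I (Finset.mem_powersetCard.2 ⟨hIα, hIq⟩)))
  rw [alK_empty, pullG_sub] at h3
  filter_upwards [h2, h3] with z e2 e3 n
  rw [← e2 n]
  exact sub_eq_zero.1 (e3 n)

theorem Std.rh_Y (h : Std κ c) (hf : (Ctx.std κ).RH univ α (zc κ) q c f r)
    (hg : Φ.Hat (alK κ α) c g f) : g ∈ (Φ.logM c).Y (alK κ α) q := by
  obtain ⟨g', b, h1, h2, -⟩ := h.rh_hat Φ hf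
  have h3 := (Φ.logM c).Y_of (h.wordsq α q) len_DPS4 h2
  have h4 := (Φ.logM c).W_le_Y (alK κ α) q ((Φ.logM c).N_le_W (alK κ α) q (hg.unique h1))
  have h5 := Submodule.add_mem _ h4 h3
  rwa [sub_add_cancel] at h5

theorem Std.Y_rh (h : Std κ c) (hY : g ∈ (Φ.logM c).Y (alK κ α) q)
    (hg : Φ.Hat (alK κ α) c g f) : ∃ r, (Ctx.std κ).RH univ α (zc κ) q c f r := by
  obtain ⟨b, hb⟩ := (Φ.logM c).Y_elim (h.wordsq α q) len_DPS4 h.surjq hY
  refine ⟨fun I => Φ.ren (pf ∅) (b I).1, univ, fun I => Φ.ren (pf ∅) (b I).1, isOpen_univ, trivial,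
    fun I => FK.Hat.smG (b I),
    h.hat_wn hb (hg.sub (h.sum_DPS4 fun I => FK.Hat.self ∅ c (b I))), fun I _ => ?_⟩
  rw [sub_self]
  exact .zero

end Pool.Agent.PWD.Loc
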