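import Pool.Agent.P.MP_65ad7c_ag.DK4a
import Pool.Agent.P.MP_65ad7c_ag.DK3

/-! Global residues. -/

open Set Filter Topology
open scoped ContDiff

noncomputable section
namespace Pool.Agent.PWD.Ctx.Tri

variable {V : Type} [NormedAddCommGroup V] [NormedSpace ℝ V] {ι : Type}
  [LinearOrder ι] {C : Ctx V ι} {X : Set V} {T α β : Finset ι} (h : C.Tri X T α β) {p q n : ℤ}
  {a a' : C.K X T α β} {b : C.B X T α β q}

theorem SB_of_DR1 {J I : Finset ι} (hI : I ⊆ α) (hc : I.card + 1 = wi q J) :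
    C.SB X T α β q (J, I) = St (C.SJ X T β J) C.D I := if_pos ⟨hI, hc⟩

theorem SB_cases_DR1 (j : Finset ι × Finset ι) : C.SB X T α β q j = ∅ ∨
    (j.2 ⊆ α ∧ j.2.card + 1 = wi q j.1 ∧ C.SB X T α β q j = St (C.SJ X T β j.1) C.D j.2) := by
  by_cases hj : j.2 ⊆ α ∧ j.2.card + 1 = wi q j.1
  · exact .inr ⟨hj.1, hj.2, if_pos hj⟩
  · exact .inl (if_neg hj)

theorem diff_DR1 (S : Set V) : S \ Off C.D ∅ = S := by rw [Off_empty, sdiff_empty]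

theorem nul_DR1 {r : Finset ι × Finset ι → GF V} (hr : VanK (C.SB X T α β q) r) (x : V)
    (J : Finset ι) : ∀ I ⊆ α, I.card + 1 = wi q J →
      C.NulN (St (C.SJ X T β J) C.D I) ∅ x (r (J, I)) := fun I hI hc =>
  NulN.of_van (by rw [diff_DR1, ← SB_of_DR1 hI hc]; exact hr _)

theorem sm_DR1 {r : Finset ι × Finset ι → GF V} (hr : SmK (C.SB X T α β q) r) (x : V)
    (J : Finset ι) : ∀ I ⊆ α, I.card + 1 = wi q J →
      C.SmN (St (C.SJ X T β J) C.D I) ∅ x (r (J, I)) := fun I hI hc =>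
  SmN.of_smS (by rw [diff_DR1, ← SB_of_DR1 hI hc]; exact hr _)

theorem wi_DR1 (q : ℤ) (J : Finset ι) : wi (q - 1) J = wi q J - 1 := by
  unfold wi; omega

theorem dg_DR1 (ha : ∀ _ : X, a ∈ C.kDg X T α β n) : a ∈ C.kDg X T α β n := by
  rcases X.eq_empty_or_nonempty with e | ⟨x, hx⟩
  · obtain ⟨c, hc, rfl⟩ := a.surj
    exact mem_kDg.2 fun J => VanG.empty.anti (e ▸ sdiff_subset.trans (SJ_X J))
  · exact ha ⟨x, hx⟩

theorem bd_mk_DR1 {r : Finset ι × Finset ι → GF V} {hr : SmK (C.SB X T α β q) r} :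
    C.bd X T α β q (Fam.mk r hr) = Fam.mk (fun j => (-1 : ℂ) ^ j.2.card • dG (r j))
      fun j => (hr j).d.smul _ := rfl

theorem bκ_mk_DR1 {r : Finset ι × Finset ι → GF V} {hr : SmK (C.SB X T α β q) r} :
    C.bκ X T α β q (Fam.mk r hr) = Fam.mk (fun j => (-1 : ℂ) ^ j.2.card • conjG (r j))
      fun j => (hr j).conj.smul _ := rfl

theorem bd_mem_DR1 (hb : b ∈ C.bDg X T α β q n) :
    C.bd X T α β q b ∈ C.bDg X T α β q (n + 1) := by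
  obtain ⟨r, hr, rfl, e⟩ := Fam.deg_surj hb
  rw [bd_mk_DR1]
  refine Fam.mem_deg_of fun j => ?_
  rw [prjZ_smul, add_sub_right_comm, prjZ_dG, e]

theorem bκ_mem_DR1 (hb : b ∈ C.bDg X T α β q n) : C.bκ X T α β q b ∈ C.bDg X T α β q n := by
  obtain ⟨r, hr, rfl, e⟩ := Fam.deg_surj hb
  rw [bκ_mk_DR1]
  refine Fam.mem_deg_of fun j => ?_
  rw [prjZ_smul, prjZ_conjG, e]

theorem conj_sub_DR1 (s : ℂ) (f g : GF V) : s • conjG f - s • conjG g = s • conjG (f - g) := by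
  have := conjG_add (f - g) g
  rw [sub_add_cancel] at this
  rw [this, smul_add, add_sub_cancel_right]

theorem sign_DR1 {k w : ℕ} (e : k + 1 = w) : (-1 : ℂ) ^ (w + 1) = (-1) ^ k := by
  rw [← e, pow_succ, pow_succ]; ring

theorem wn0_DR1 {S : Set V} {w : ℕ} {x : V} (f : GF V) : C.WN S α w x (f - f) := by
  rw [sub_self]; exact WN.of_nul NulN.zero

include h

theorem locB_DR1 (J I : Finset ι) {x : V} (hx : x ∈ St (C.SJ X T β J) C.D I) :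
    C.Loc (St (C.SJ X T β J) C.D I) ∅ x where
  ok := (h.g.okSJ J).anti inter_subset_left
  cl := (h.g.clSJ J).inter (isClosed_biInter fun i _ => h.g.cl i)
  clD := h.g.cl
  eqs := h.g.eqs ∅ (SJ_X J hx.1)
  lt := h.g.ltSt
  lt' I' hx' := by
    rw [St_St] at hx' ⊢
    exact h.g.ltSt hx'

theorem mem_Res {c : Finset ι → GF V} {hc : SmK (C.SK X T α β) c} {r : Finset ι × Finset ι → GF V}
    {hr : SmK (C.SB X T α β q) r} : (Fam.mk c hc, Fam.mk r hr) ∈ C.Res X T α β q n ↔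
      (Fam.mk c hc ∈ C.kDg X T α β n ∧ Fam.mk r hr ∈ C.bDg X T α β q n) ∧
      ∀ x ∈ X, ∀ J, C.RN (C.SJ X T β J) α (wi q J) x (c J) fun I => r (J, I) :=
  and_congr_right fun _ => Fam.mem_rel
    ⟨fun _ _ _ _ h1 h2 x hx J => (h.loc J ⟨x, hx⟩).rn_add (h1 x hx J) (h2 x hx J),
      fun _ _ h1 x hx J => (h.loc J ⟨x, hx⟩).rn_neg (h1 x hx J),
      fun _ _ h1 h2 x hx J => (h.loc J ⟨x, hx⟩).rn_of_wn (WN.of_nul (NulN.of_van (h1 J)))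
        (nul_DR1 h2 x J)⟩

theorem mem_bF {r : Finset ι × Finset ι → GF V} {hr : SmK (C.SB X T α β q) r} :
    Fam.mk r hr ∈ C.bF X T α β q p n ↔ Fam.mk r hr ∈ C.bDg X T α β q n ∧
      ∀ j, TyV C.J (C.SB X T α β q j) (p.toNat - j.2.card) (r j) := by
  refine and_congr_right fun _ => Fam.mem_col fun j => ?_
  rcases SB_cases_DR1 (C := C) (X := X) (T := T) (α := α) (β := β) (q := q) j with e | ⟨-, -, e⟩
  · rw [e]
    exact ⟨fun _ _ _ _ => VanG.empty, fun _ _ => VanG.empty, fun _ _ => VanG.empty⟩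
  · have := cond_ty (fun x hx => h.locB_DR1 j.1 j.2 hx) (p.toNat - j.2.card)
    rwa [diff_DR1, ← e] at this

theorem res_Y (hab : (a, b) ∈ C.Res X T α β q n) : a ∈ G.Gam (C.kY X T α β q) n := by
  obtain ⟨c, hc, rfl⟩ := a.surj
  obtain ⟨r, hr, rfl⟩ := b.surj
  obtain ⟨h1, h2⟩ := h.mem_Res.1 hab
  exact G.mem_Gam.2 fun x => h.mem_kY.2 ⟨h1.1, fun J => ⟨_, h2 x x.2 J⟩⟩
theorem res_ker (hab : (a, b) ∈ C.Res X T α β q n) :
    a ∈ G.Gam (C.kW X T α β (q - 1)) n ↔ b = 0 := by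
  obtain ⟨c, hc, rfl⟩ := a.surj
  obtain ⟨r, hr, rfl⟩ := b.surj
  obtain ⟨h1, h2⟩ := h.mem_Res.1 hab
  rw [Fam.mk_eq_zero, G.mem_Gam]
  refine ⟨fun ha j => ?_, fun hb x => h.g.mem_kW.2 ⟨h1.1, fun J => ?_⟩⟩
  · rcases SB_cases_DR1 (C := C) (X := X) (T := T) (α := α) (β := β) (q := q) j with
      e | ⟨e1, e2, e⟩
    · rw [e]; exact VanG.empty
    · rw [e, ← diff_DR1 (C := C) (St _ _ _)]
      refine NulN.glob fun x hx => ?_
      have hX : x ∈ X := SJ_X j.1 hx.1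
      have h3 := (h.g.mem_kW.1 (ha ⟨x, hX⟩)).2 j.1
      rw [wi_DR1] at h3
      exact ((h.loc j.1 ⟨x, hX⟩).rn_ker (h2 x hX j.1)).1 h3 j.2 e1 e2
  · rw [wi_DR1]
    exact ((h.loc J x).rn_ker (h2 x x.2 J)).2 (nul_DR1 hb x J)
theorem res_d (hab : (a, b) ∈ C.Res X T α β q n) :
    (C.kd X T α β a, C.bd X T α β q b) ∈ C.Res X T α β q (n + 1) := by
  obtain ⟨c, hc, rfl⟩ := a.surj
  obtain ⟨r, hr, rfl⟩ := b.surj
  obtain ⟨h1, h2⟩ := h.mem_Res.1 hab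
  have h3 := C.kd_mem X T α β n _ h1.1
  have h4 := bd_mem_DR1 h1.2
  rw [kd_mk] at h3 ⊢
  rw [bd_mk_DR1] at h4 ⊢
  exact h.mem_Res.2 ⟨⟨h3, h4⟩, fun x hx J =>
    (h.loc J ⟨x, hx⟩).rn_d (h2 x hx J) (SmN.of_smS (hc J)) (sm_DR1 hr x J)⟩
theorem res_F (hab : (a, b) ∈ C.Res X T α β q n) (ha : a ∈ C.kF X T α β p n) :
    b ∈ C.bF X T α β q p n := by
  obtain ⟨c, hc, rfl⟩ := a.surj
  obtain ⟨r, hr, rfl⟩ := b.surj
  obtain ⟨h1, h2⟩ := h.mem_Res.1 hab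
  refine h.mem_bF.2 ⟨h1.2, fun j => ?_⟩
  rcases SB_cases_DR1 (C := C) (X := X) (T := T) (α := α) (β := β) (q := q) j with
    e | ⟨e1, e2, e⟩
  · rw [e]; exact VanG.empty
  · rw [e, ← diff_DR1 (C := C) (St _ _ _)]
    refine FN.glob fun x hx => ?_
    have hX : x ∈ X := SJ_X j.1 hx.1
    exact (h.loc j.1 ⟨x, hX⟩).rn_fn (h2 x hX j.1) (FN.of_ty ((h.mem_kF.1 ha).2 j.1)) j.2 e1 e2
theorem res_cj (hab : (a, b) ∈ C.Res X T α β q n) :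
    (a, a') ∈ G.Gam (C.kCj X T α β q) n ↔ (a', C.bκ X T α β q b) ∈ C.Res X T α β q n := by
  obtain ⟨c, hc, rfl⟩ := a.surj
  obtain ⟨c', hc', rfl⟩ := a'.surj
  obtain ⟨r, hr, rfl⟩ := b.surj
  obtain ⟨h1, h2⟩ := h.mem_Res.1 hab
  have h4 := bκ_mem_DR1 h1.2
  rw [bκ_mk_DR1] at h4 ⊢
  refine G.mem_Gam.trans (Iff.trans ?_ h.mem_Res.symm)
  refine ⟨fun ha => ⟨⟨dg_DR1 fun x => (h.mem_kCj.1 (ha x)).1.2, h4⟩, fun x hx J => ?_⟩,
    fun hb x => h.mem_kCj.2 ⟨⟨h1.1, hb.1.1⟩, fun J => ⟨_, h2 x x.2 J, ?_⟩⟩⟩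
  · obtain ⟨r2, h5, h6⟩ := (h.mem_kCj.1 (ha ⟨x, hx⟩)).2 J
    have L := h.loc J ⟨x, hx⟩
    have h7 := (L.rn_ker (L.rn_sub (h2 x hx J) h5)).1 (wn0_DR1 _)
    refine L.rn_congr h6 (wn0_DR1 _) fun I hI e => ?_
    rw [sign_DR1 e, conj_sub_DR1]
    exact (h7 I hI e).conj.smul _
  · refine (h.loc J x).rn_congr (hb.2 x x.2 J) (wn0_DR1 _) fun I _ e => ?_
    rw [sign_DR1 e, sub_self]
    exact NulN.zero
theorem Cj_Y {x : X} (hab : (a, a') ∈ C.kCj X T α β q n x) : a ∈ C.kY X T α β q n x := by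
  obtain ⟨c, hc, rfl⟩ := a.surj
  obtain ⟨c', hc', rfl⟩ := a'.surj
  obtain ⟨h1, h2⟩ := h.mem_kCj.1 hab
  exact h.mem_kY.2 ⟨h1.1, fun J => (h2 J).imp fun _ e => e.1⟩

end Pool.Agent.PWD.Ctx.Tri
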