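import Pool.Agent.P.MP_65ad7c_ag.DK3

/-! Smooth residues suffice; Hodge theory for the residues. -/

open Set Filter Topology
open scoped ContDiff

noncomputable section
namespace Pool.Agent.PWD.Ctx.Tri

variable {V : Type} [NormedAddCommGroup V] [NormedSpace ℝ V] {ι : Type}
  [LinearOrder ι] {C : Ctx V ι} {X : Set V} {T α β : Finset ι} (h : C.Tri X T α β)
include h

theorem W_Y (q n : ℤ) (x : X) : C.kW X T α β (q - 1) n x ≤ C.kY X T α β q n x := by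
  intro a ha
  obtain ⟨c, hc, rfl⟩ := a.surj
  obtain ⟨h1, h2⟩ := h.g.mem_kW.1 ha
  refine h.mem_kY.2 ⟨h1, fun J => ⟨0, (h.loc J x).rn_of_wn ?_ fun _ _ _ => NulN.zero⟩⟩
  have e : wi q J - 1 = wi (q - 1) J := by unfold wi; omega
  rw [e]; exact h2 J

theorem Y_W (q n : ℤ) (x : X) : C.kY X T α β q n x ≤ C.kW X T α β q n x := by
  intro a ha
  obtain ⟨c, hc, rfl⟩ := a.surj
  obtain ⟨h1, h2⟩ := h.mem_kY.1 ha
  exact h.g.mem_kW.2 ⟨h1, fun J => let ⟨_, hr⟩ := h2 J; (h.loc J x).rn_wn hr⟩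

theorem Y_opn (q : ℤ) : G.Opn (C.kY X T α β q) := by
  intro n x a ha
  obtain ⟨c, hc, rfl⟩ := a.surj
  obtain ⟨h1, h2⟩ := h.mem_kY.1 ha
  choose r hr using h2
  have h3 : ∀ᶠ y : X in 𝓝 x, ∀ J ∈ β.powerset,
      C.RN (C.SJ X T β J) α (wi q J) y (c J) (r J) :=
    (eventually_all_finset _).2 fun J _ =>
      continuous_subtype_val.continuousAt.eventually (hr J).ev
  filter_upwards [h3] with y hy
  refine h.mem_kY.2 ⟨h1, fun J => ?_⟩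
  by_cases hJ : J ⊆ β
  · exact ⟨_, hy J (Finset.mem_powerset.2 hJ)⟩
  · refine ⟨0, (h.loc J y).rn_of_wn (WN.of_nul (NulN.of_notMem (h.g.clSJ J) ?_ _))
      fun _ _ _ => NulN.zero⟩
    rw [SJ_of_not hJ]; exact fun k => k

theorem Y_d (q : ℤ) : G.Up (C.kd X T α β) (C.kY X T α β q) (C.kY X T α β q) := by
  intro n x a ha
  obtain ⟨c, hc, rfl⟩ := a.surj
  obtain ⟨h1, h2⟩ := h.mem_kY.1 ha
  have h3 := C.kd_mem X T α β n _ h1
  rw [kd_mk] at h3 ⊢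
  refine h.mem_kY.2 ⟨h3, fun J => ?_⟩
  obtain ⟨r, hr⟩ := h2 J
  obtain ⟨r', k1, k2⟩ := (h.loc J x).rn_sm hr
  have k3 : C.RN (C.SJ X T β J) α (wi q J) x (c J) r' := by
    refine (h.loc J x).rn_congr hr (WN.of_nul ?_) fun I hI e => ?_
    · rw [sub_self]; exact NulN.zero
    · have := (k2 I hI e).neg
      rwa [neg_sub] at this
  exact ⟨_, (h.loc J x).rn_d k3 (SmN.of_smS (hc J)) fun I _ _ =>
    (k1 I).anti (subset_univ _) subset_rfl⟩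

theorem Y_cut (q : ℤ) : ∀ m ∈ Fam.cuts _, G.Keep m (C.kY X T α β q) := by
  intro m hm n x a ha
  have h0 := (h.W_cut q m hm n x a (h.Y_W q n x ha)).1
  obtain ⟨χ, hχ, rfl⟩ := hm
  obtain ⟨c, hc, rfl⟩ := a.surj
  obtain ⟨-, h2⟩ := h.mem_kY.1 ha
  rw [Fam.map_mk] at h0 ⊢
  exact h.mem_kY.2 ⟨h0, fun J => let ⟨_, hr⟩ := h2 J; ⟨_, (h.loc J x).rn_mul hχ hr⟩⟩

theorem la_Y [FiniteDimensional ℝ V] (p q : ℤ) : G.LA (C.kd X T α β)
    (C.kFL X T α β p ⊓ C.kY X T α β q) (C.kFL X T α β p ⊓ C.kW X T α β q) := by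
  intro x n a ha hd
  obtain ⟨c, hc, rfl⟩ := a.surj
  obtain ⟨h1, h2⟩ := h.mem_kFL.1 ha.1
  obtain ⟨-, h3⟩ := h.g.mem_kW.1 ha.2
  have hd2 := hd.2
  rw [kd_mk] at hd2
  obtain ⟨-, h4⟩ := h.mem_kY.1 hd2
  choose r hr using h4
  choose g r' g1 g2 g3 g4 using fun J =>
    (h.loc J x).l3 (SmN.of_smS (hc J)) (h3 J) (h2 J) (hr J)
  obtain ⟨b, hb, b1, b2, b3⟩ := exists_sol h1 g1
  have f1 : ∀ J, C.FN (C.SJ X T β J) α p.toNat x (b J) := fun J =>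
    (h.loc J x).fn_congr ((g3 J).prjZ _) (b2 J)
  have dg : Fam.mk c hc - C.kd X T α β (Fam.mk b hb) ∈ C.kDg X T α β n := by
    have := C.kd_mem X T α β (n - 1) _ b1
    rw [sub_add_cancel] at this
    exact sub_mem h1 this
  refine ⟨Fam.mk b hb, ⟨h.mem_kFL.2 ⟨b1, f1⟩, h.g.mem_kW.2 ⟨b1, fun J =>
    ((g2 J).prjZ _).congr (h.g.okSJ J) (b2 J)⟩⟩, ?_⟩
  have e : Fam.mk c hc - C.kd X T α β (Fam.mk b hb) =
      Fam.mk (fun J => c J - dG (b J)) fun J => (hc J).sub (hb J).d := by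
    rw [kd_mk]; rfl
  rw [e] at dg ⊢
  refine ⟨h.mem_kFL.2 ⟨dg, fun J => (h2 J).sub ((h.loc J x).fn_d (SmN.of_smS (hb J)) (f1 J))⟩,
    h.mem_kY.2 ⟨dg, fun J => ⟨fun I => prjZ (n - J.card - I.card) (r' J I),
      (h.loc J x).rn_congr ((h.loc J x).rn_prjZ (n - J.card) (g4 J))
      (WN.of_nul (b3 J)) fun I _ _ => ?_⟩⟩⟩
  rw [sub_self]; exact NulN.zero

theorem gam_inf_DR2 (p : ℤ) (S : G.Sys ℤ X (C.K X T α β)) :
    (fun n => C.kDg X T α β n) ⊓ G.Gam (C.kFL X T α β p ⊓ S) = C.kF X T α β p ⊓ G.Gam S := by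
  funext n
  rw [Pi.inf_apply, Pi.inf_apply, ← h.gam_FL p n, inf_assoc]
  congr 1
  exact iInf_inf_eq

theorem ac_Y [FiniteDimensional ℝ V] (p q : ℤ) : G.AC (C.kd X T α β)
    (C.kF X T α β p ⊓ G.Gam (C.kY X T α β q)) (C.kF X T α β p ⊓ G.Gam (C.kW X T α β q)) := by
  have : CompactSpace X := isCompact_iff_compactSpace.1 h.g.cpt
  rw [← h.gam_inf_DR2, ← h.gam_inf_DR2]
  refine G.LA.global (C.kd_kd X T α β) (C.kDg_neg X T α β) (C.k_cut X T α β)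
    ⟨fun n x a ha => ha.1.1, fun n x a ha => (h.FL_opn p n x a ha.1).and (h.Y_opn q n x a ha.2),
      fun n x a ha => ⟨h.FL_d p n x a ha.1, h.Y_d q n x a ha.2⟩⟩
    ⟨fun n x a ha => ha.1.1, fun n x a ha => (h.FL_opn p n x a ha.1).and (h.W_opn q n x a ha.2),
      fun n x a ha => ⟨h.FL_d p n x a ha.1, h.W_d q n x a ha.2⟩⟩
    (fun n x a ha => ⟨h.nul_FL p n x ha, h.W_Y q n x (h.nul_W (q - 1) n x ha)⟩)
    (fun n x a ha => ⟨ha.1, h.Y_W q n x ha.2⟩)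
    (fun m hm n x a ha => ⟨h.FL_cut p m hm n x a ha.1, h.Y_cut q m hm n x a ha.2⟩)
    (fun m hm n x a ha => ⟨h.FL_cut p m hm n x a ha.1, h.W_cut q m hm n x a ha.2⟩)
    (h.la_Y p q)

theorem gam_le (q n : ℤ) : G.Gam (C.kW X T α β q) n ≤ C.kF X T α β 0 n := by
  intro a ha
  rcases isEmpty_or_nonempty X with hX | ⟨⟨x⟩⟩
  · rw [C.kNul_sep X T α β n a fun x => hX.elim x]; exact zero_mem _
  · exact h.F_top n ((Submodule.mem_iInf _).1 ha x).1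

end Pool.Agent.PWD.Ctx.Tri
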