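import Pool.Agent.P.MP_65ad7c_ag.DS0

/-! Basic facts on elementary sheaves. -/

open Set TopologicalSpace

noncomputable section
namespace Pool.Agent.PWD.SY

variable {k : Type} [Ring k] {X : Type} [TopologicalSpace X] {P Q : PSh k X}

/-- sections near a compact subset of `M` extend -/
def SoftOn (M : Set X) (S : Sub P) : Prop :=
  ∀ (K : Set X) (O O₁ : Opens X), IsCompact K → K ⊆ M → K ⊆ O → K ⊆ O₁ → ∀ x ∈ S.sub O,
    ∃ x' ∈ S.sub O₁, ∃ (O₂ : Opens X) (h : O₂ ≤ O) (h₁ : O₂ ≤ O₁), K ⊆ O₂ ∧ P.res h₁ x' = P.res h x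

/-- the kernel of `f` on `S` -/
def ker (f : Hom P Q) (S : Sub P) : Sub P := S ⊓ Sub.comap f ⊥

theorem mem_ker {f : Hom P Q} {S : Sub P} {O : Opens X} {x : P.obj O} :
    x ∈ (ker f S).sub O ↔ x ∈ S.sub O ∧ f.app O x = 0 := Iff.rfl

theorem near_bot {O : Opens X} {x : P.obj O} {y : X} :
    (⊥ : Sub P).Near x y ↔ ∃ (O' : Opens X) (h : O' ≤ O), y ∈ O' ∧ P.res h x = 0 := Iff.rfl

theorem near_map {f : Hom P Q} {S : Sub P} {O : Opens X} {t : Q.obj O} {y : X} :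
    (S.map f).Near t y ↔ ∃ (O' : Opens X) (h : O' ≤ O), y ∈ O' ∧
      ∃ z ∈ S.sub O', f.app O' z = Q.res h t := Iff.rfl

theorem near_zero (S : Sub P) {O : Opens X} {y : X} (hy : y ∈ O) : S.Near (0 : P.obj O) y :=
  ⟨O, le_rfl, hy, by rw [map_zero]; exact zero_mem _⟩

theorem near_add {S : Sub P} {O : Opens X} {x x' : P.obj O} {y : X} (h : S.Near x y)
    (h' : S.Near x' y) : S.Near (x + x') y := by
  obtain ⟨A, hA, hy, h1⟩ := h
  obtain ⟨B, hB, hy', h2⟩ := h'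
  refine ⟨A ⊓ B, inf_le_left.trans hA, ⟨hy, hy'⟩, ?_⟩
  have h3 := S.res_mem (inf_le_left : A ⊓ B ≤ A) h1
  have h4 := S.res_mem (inf_le_right : A ⊓ B ≤ B) h2
  rw [P.res_res] at h3 h4
  rw [map_add]
  exact add_mem h3 h4

theorem near_smul {S : Sub P} {O : Opens X} {x : P.obj O} {y : X} (c : k) (h : S.Near x y) :
    S.Near (c • x) y := by
  obtain ⟨A, hA, hy, h1⟩ := h
  exact ⟨A, hA, hy, by rw [map_smul]; exact Submodule.smul_mem _ c h1⟩

theorem near_res {S : Sub P} {O O' : Opens X} (h : O' ≤ O) {x : P.obj O} {y : X} (hy : y ∈ O') :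
    S.Near (P.res h x) y ↔ S.Near x y := by
  constructor
  · rintro ⟨A, hA, hy', h1⟩
    rw [P.res_res] at h1
    exact ⟨A, hA.trans h, hy', h1⟩
  · rintro ⟨A, hA, hy', h1⟩
    have h2 := S.res_mem (inf_le_left : A ⊓ O' ≤ A) h1
    rw [P.res_res] at h2
    exact ⟨A ⊓ O', inf_le_right, ⟨hy', hy⟩, by rw [P.res_res]; exact h2⟩

/-- sections that vanish near the points of `B` -/
def van (P : PSh k X) (B : Set X) : Sub P where
  sub O :=
    { carrier := {x | ∀ y ∈ O, y ∈ B → (⊥ : Sub P).Near x y}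
      add_mem' := fun h h' y hy hB => near_add (h y hy hB) (h' y hy hB)
      zero_mem' := fun _ hy _ => near_zero _ hy
      smul_mem' := fun c _ h y hy hB => near_smul c (h y hy hB) }
  res_mem h _ hx y hy hB := (near_res h hy).2 (hx y (h hy) hB)

theorem mem_van {B : Set X} {O : Opens X} {x : P.obj O} :
    x ∈ (van P B).sub O ↔ ∀ y ∈ O, y ∈ B → (⊥ : Sub P).Near x y := Iff.rfl

theorem van_loc (P : PSh k X) (B : Set X) : (van P B).Loc := fun O x h y hy hB => by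
  obtain ⟨A, hA, hy', h1⟩ := h y hy
  exact (near_res hA hy').1 (h1 y hy' hB)

theorem van_maps (f : Hom P Q) (B : Set X) : Sub.Maps f (van P B) (van Q B) := fun O x h y hy hB => by
  obtain ⟨A, hA, hy', h1⟩ := near_bot.1 (h y hy hB)
  exact near_bot.2 ⟨A, hA, hy', by rw [f.nat, h1, map_zero]⟩

theorem van_prod {B : Set X} {O : Opens X} {x : (P.prod Q).obj O} :
    x ∈ (van (P.prod Q) B).sub O ↔ x.1 ∈ (van P B).sub O ∧ x.2 ∈ (van Q B).sub O := by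
  constructor
  · refine fun h => ⟨fun y hy hB => ?_, fun y hy hB => ?_⟩
    · obtain ⟨A, hA, hy', h1⟩ := near_bot.1 (h y hy hB)
      exact near_bot.2 ⟨A, hA, hy', congrArg Prod.fst h1⟩
    · obtain ⟨A, hA, hy', h1⟩ := near_bot.1 (h y hy hB)
      exact near_bot.2 ⟨A, hA, hy', congrArg Prod.snd h1⟩
  · rintro ⟨h, h'⟩ y hy hB
    obtain ⟨A, hA, hy1, h1⟩ := near_bot.1 (h y hy hB)
    obtain ⟨A', hA', hy2, h2⟩ := near_bot.1 (h' y hy hB)
    refine near_bot.2 ⟨A ⊓ A', inf_le_left.trans hA, ⟨hy1, hy2⟩, Prod.ext ?_ ?_⟩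
    · have h3 := congrArg (P.res (inf_le_left : A ⊓ A' ≤ A)) h1
      rw [P.res_res, map_zero] at h3
      exact h3
    · have h3 := congrArg (Q.res (inf_le_right : A ⊓ A' ≤ A')) h2
      rw [Q.res_res, map_zero] at h3
      exact h3

theorem softOn_of_soft {S : Sub P} (h : S.Soft) (M : Set X) : SoftOn M S :=
  fun K O O₁ hK _ => h K O O₁ hK

theorem sh_ext (hP : P.IsSh) {O : Opens X} {x x' : P.obj O}
    (h : ∀ y ∈ O, ∃ (O' : Opens X) (h : O' ≤ O), y ∈ O' ∧ P.res h x = P.res h x') : x = x' := by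
  refine sub_eq_zero.1 (hP.sep O (x - x') fun y hy => ?_)
  obtain ⟨A, hA, hy', h1⟩ := h y hy
  exact near_bot.2 ⟨A, hA, hy', by rw [map_sub, h1, sub_self]⟩

/-- the largest open set on which `x` vanishes -/
theorem exists_zero_set (hP : P.IsSh) {O : Opens X} (x : P.obj O) :
    ∃ (Z : Opens X) (h : Z ≤ O), P.res h x = 0 ∧ ∀ y, (⊥ : Sub P).Near x y → y ∈ Z := by
  have h1 : sSup {A : Opens X | ∃ h : A ≤ O, P.res h x = 0} ≤ O := sSup_le fun A hA => hA.1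
  refine ⟨_, h1, hP.sep _ _ fun y hy => (near_res h1 hy).2 ?_, fun y hy => ?_⟩
  · obtain ⟨A, ⟨hA, h2⟩, hy'⟩ := Opens.mem_sSup.1 hy
    exact near_bot.2 ⟨A, hA, hy', h2⟩
  · obtain ⟨A, hA, hy', h2⟩ := near_bot.1 hy
    exact Opens.mem_sSup.2 ⟨A, ⟨hA, h2⟩, hy'⟩

theorem sh_glue (hP : P.IsSh) {ι : Type} {W : Opens X} (O : ι → Opens X) (hO : ∀ i, O i ≤ W)
    (hc : ∀ y ∈ W, ∃ i, y ∈ O i) (x : ∀ i, P.obj (O i))
    (hx : ∀ i j, P.res (inf_le_left : O i ⊓ O j ≤ O i) (x i) = P.res inf_le_right (x j)) :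
    ∃ z : P.obj W, ∀ i, P.res (hO i) z = x i := by
  obtain ⟨z, hz⟩ := hP.glue O x hx
  have h1 : W ≤ ⨆ i, O i := fun y hy => Opens.mem_iSup.2 (hc y hy)
  exact ⟨P.res h1 z, fun i => by rw [P.res_res]; exact hz i⟩

theorem sh_glue2 (hP : P.IsSh) {V V' W : Opens X} (h : V ≤ W) (h' : V' ≤ W) (hc : W ≤ V ⊔ V')
    (x : P.obj V) (x' : P.obj V')
    (hx : P.res (inf_le_left : V ⊓ V' ≤ V) x = P.res inf_le_right x') :
    ∃ z : P.obj W, P.res h z = x ∧ P.res h' z = x' := by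
  obtain ⟨z, hz⟩ := sh_glue hP (W := W) (fun b : Bool => cond b V V')
    (fun b => match b with
      | true => h
      | false => h')
    (fun y hy => (Opens.mem_sup.1 (hc hy)).elim (fun h1 => ⟨true, h1⟩) fun h1 => ⟨false, h1⟩)
    (fun b => match b with
      | true => x
      | false => x')
    (by
      rintro (_ | _) (_ | _)
      · rfl
      · have h1 := congrArg (P.res (le_inf inf_le_right inf_le_left : V' ⊓ V ≤ V ⊓ V')) hx
        rw [P.res_res, P.res_res] at h1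
        exact h1.symm
      · exact hx
      · rfl)
  exact ⟨z, hz true, hz false⟩

theorem sh_prod (hP : P.IsSh) (hQ : Q.IsSh) : (P.prod Q).IsSh := by
  refine ⟨fun O x h => Prod.ext (hP.sep O x.1 fun y hy => ?_) (hQ.sep O x.2 fun y hy => ?_),
    fun O x hx => ?_⟩
  · obtain ⟨A, hA, hy', h1⟩ := near_bot.1 (h y hy)
    exact near_bot.2 ⟨A, hA, hy', congrArg Prod.fst h1⟩
  · obtain ⟨A, hA, hy', h1⟩ := near_bot.1 (h y hy)
    exact near_bot.2 ⟨A, hA, hy', congrArg Prod.snd h1⟩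
  · obtain ⟨z, hz⟩ := hP.glue O (fun i => (x i).1) fun i j => congrArg Prod.fst (hx i j)
    obtain ⟨z', hz'⟩ := hQ.glue O (fun i => (x i).2) fun i j => congrArg Prod.snd (hx i j)
    exact ⟨(z, z'), fun i => Prod.ext (hz i) (hz' i)⟩

theorem soft_prod (hP : (⊤ : Sub P).Soft) (hQ : (⊤ : Sub Q).Soft) : (⊤ : Sub (P.prod Q)).Soft :=
  fun K O O₁ hK h1 h2 x _ => by
  obtain ⟨a, -, A, hA, hA', hKA, ha⟩ := hP K O O₁ hK h1 h2 x.1 trivial
  obtain ⟨b, -, B, hB, hB', hKB, hb⟩ := hQ K O O₁ hK h1 h2 x.2 trivial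
  refine ⟨(a, b), trivial, A ⊓ B, inf_le_left.trans hA, inf_le_left.trans hA',
    fun y hy => ⟨hKA hy, hKB hy⟩, Prod.ext ?_ ?_⟩
  · have h3 := congrArg (P.res (inf_le_left : A ⊓ B ≤ A)) ha
    rw [P.res_res, P.res_res] at h3
    exact h3
  · have h3 := congrArg (Q.res (inf_le_right : A ⊓ B ≤ B)) hb
    rw [Q.res_res, Q.res_res] at h3
    exact h3

theorem ds1_sep {K L : Set X} {G : Opens X} (h : SeparatedNhds (K \ G) (L \ G)) :
    ∃ V V' : Opens X, K ⊆ V ∧ L ⊆ V' ∧ V ⊓ V' ≤ G := by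
  obtain ⟨A, B, hA, hB, h1, h2, h3⟩ := h
  refine ⟨⟨A, hA⟩ ⊔ G, ⟨B, hB⟩ ⊔ G, fun y hy => ?_, fun y hy => ?_, fun y hy => ?_⟩
  · by_cases hG : y ∈ G
    · exact Or.inr hG
    · exact Or.inl (h1 ⟨hy, hG⟩)
  · by_cases hG : y ∈ G
    · exact Or.inr hG
    · exact Or.inl (h2 ⟨hy, hG⟩)
  · by_contra hG
    exact disjoint_left.1 h3 (hy.1.resolve_right hG) (hy.2.resolve_right hG)

omit [TopologicalSpace X] in
theorem ds1_disj {K L G : Set X} (h : K ∩ L ⊆ G) : Disjoint (K \ G) (L \ G) :=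
  disjoint_left.2 fun _ h1 h2 => h1.2 (h ⟨h1.1, h2.1⟩)

theorem sep_compact [T2Space X] {K L : Set X} (hK : IsCompact K) (hL : IsCompact L) {G : Opens X}
    (h : K ∩ L ⊆ G) : ∃ V V' : Opens X, K ⊆ V ∧ L ⊆ V' ∧ V ⊓ V' ≤ G :=
  ds1_sep (SeparatedNhds.of_isCompact_isCompact (hK.diff G.isOpen) (hL.diff G.isOpen)
    (ds1_disj h))

theorem sep_closed [NormalSpace X] {K L : Set X} (hK : IsClosed K) (hL : IsClosed L) {G : Opens X}
    (h : K ∩ L ⊆ G) : ∃ V V' : Opens X, K ⊆ V ∧ L ⊆ V' ∧ V ⊓ V' ≤ G :=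
  ds1_sep (normal_separation (hK.sdiff G.isOpen) (hL.sdiff G.isOpen) (ds1_disj h))

end Pool.Agent.PWD.SY
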