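import Pool.Agent.P.MP_65ad7c_ag.DS1

/-! Local lifts glue near a compact set if the kernel is soft. -/

open Set TopologicalSpace

noncomputable section
namespace Pool.Agent.PWD.SY

variable {k : Type} [Ring k] {X : Type} [TopologicalSpace X] {P Q : PSh k X}

theorem lift_union [T2Space X] (hP : P.IsSh) (hQ : Q.IsSh) (f : Hom P Q) {S : Sub P} (loc : S.Loc)
    {M : Set X} (soft : SoftOn M (ker f S)) {K L : Set X} (hK : IsCompact K) (hL : IsCompact L)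
    (hM : K ⊆ M) {O : Opens X} {t : Q.obj O}
    (h1 : ∃ (O' : Opens X) (h : O' ≤ O), K ⊆ O' ∧ ∃ z ∈ S.sub O', f.app O' z = Q.res h t)
    (h2 : ∃ (O' : Opens X) (h : O' ≤ O), L ⊆ O' ∧ ∃ z ∈ S.sub O', f.app O' z = Q.res h t) :
    ∃ (O' : Opens X) (h : O' ≤ O), K ∪ L ⊆ O' ∧ ∃ z ∈ S.sub O', f.app O' z = Q.res h t := by
  obtain ⟨O1, g1, k1, z1, s1, e1⟩ := h1
  obtain ⟨O2, g2, k2, z2, s2, e2⟩ := h2
  have hd : P.res (inf_le_left : O1 ⊓ O2 ≤ O1) z1 - P.res inf_le_right z2 ∈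
      (ker f S).sub (O1 ⊓ O2) := by
    refine mem_ker.2 ⟨sub_mem (S.res_mem _ s1) (S.res_mem _ s2), ?_⟩
    rw [map_sub, ← f.nat, ← f.nat, e1, e2, Q.res_res, Q.res_res, sub_self]
  obtain ⟨w, hw, O3, g3, g3', k3, e3⟩ := soft (K ∩ L) (O1 ⊓ O2) O2 (hK.inter_right hL.isClosed)
    (inter_subset_left.trans hM) (fun y hy => ⟨k1 hy.1, k2 hy.2⟩) (inter_subset_right.trans k2) _ hd
  obtain ⟨hw1, hw2⟩ := mem_ker.1 hw
  obtain ⟨V, V', kV, kV', hV⟩ := sep_compact hK hL k3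
  have s2' : z2 + w ∈ S.sub O2 := add_mem s2 hw1
  have e2' : f.app O2 (z2 + w) = Q.res g2 t := by rw [map_add, hw2, add_zero, e2]
  have e4 : P.res (g3.trans inf_le_left) z1 = P.res g3' (z2 + w) := by
    rw [map_add, e3, map_sub, P.res_res, P.res_res, add_sub_cancel]
  have g5 : V ⊓ O1 ⊓ (V' ⊓ O2) ≤ O3 := (inf_le_inf inf_le_left inf_le_left).trans hV
  obtain ⟨z, a1, a2⟩ := sh_glue2 hP (V := V ⊓ O1) (V' := V' ⊓ O2) le_sup_left le_sup_right le_rfl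
    (P.res inf_le_right z1) (P.res inf_le_right (z2 + w)) (by
      have e5 := congrArg (P.res g5) e4
      rw [P.res_res, P.res_res] at e5
      rw [P.res_res, P.res_res]
      exact e5)
  have g : V ⊓ O1 ⊔ V' ⊓ O2 ≤ O := sup_le (inf_le_right.trans g1) (inf_le_right.trans g2)
  refine ⟨V ⊓ O1 ⊔ V' ⊓ O2, g, ?_, z, loc _ _ fun y hy => ?_, sh_ext hQ fun y hy => ?_⟩
  · rintro y (hy | hy)
    · exact Opens.mem_sup.2 (Or.inl ⟨kV hy, k1 hy⟩)
    · exact Opens.mem_sup.2 (Or.inr ⟨kV' hy, k2 hy⟩)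
  · rcases Opens.mem_sup.1 hy with hy | hy
    · exact ⟨_, le_sup_left, hy, a1 ▸ S.res_mem _ s1⟩
    · exact ⟨_, le_sup_right, hy, a2 ▸ S.res_mem _ s2'⟩
  · rcases Opens.mem_sup.1 hy with hy | hy
    · refine ⟨_, le_sup_left, hy, ?_⟩
      rw [f.nat, a1, ← f.nat, e1, Q.res_res, Q.res_res]
    · refine ⟨_, le_sup_right, hy, ?_⟩
      rw [f.nat, a2, ← f.nat, e2', Q.res_res, Q.res_res]

theorem lift_cpt [T2Space X] (hP : P.IsSh) (hQ : Q.IsSh) (f : Hom P Q) {S : Sub P} (loc : S.Loc)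
    {M : Set X} (soft : SoftOn M (ker f S)) {K : Set X} (hK : IsCompact K) (hM : K ⊆ M)
    {O : Opens X} {t : Q.obj O} (ht : ∀ y ∈ K, (S.map f).Near t y) :
    ∃ (O' : Opens X) (h : O' ≤ O), K ⊆ O' ∧ ∃ z ∈ S.sub O', f.app O' z = Q.res h t := by
  classical
  choose V hV hy z hz e using fun y : K => near_map.1 (ht y y.2)
  obtain ⟨T, hT⟩ := hK.elim_finite_subcover (fun y : K => (V y : Set X)) (fun y => (V y).isOpen)
    fun y hy' => mem_iUnion.2 ⟨⟨y, hy'⟩, hy _⟩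
  obtain ⟨C, c1, c2, c3⟩ := hK.finite_compact_cover T (fun y : K => (V y : Set X))
    (fun y _ => (V y).isOpen) hT
  have key : ∀ T' : Finset K, T' ⊆ T → ∃ (O' : Opens X) (h : O' ≤ O), (⋃ i ∈ T', C i) ⊆ O' ∧
      ∃ z ∈ S.sub O', f.app O' z = Q.res h t := by
    intro T'
    induction T' using Finset.induction_on with
    | empty =>
      exact fun _ => ⟨⊥, bot_le, by simp, 0, zero_mem _, sh_ext hQ fun y hy => absurd hy (by simp)⟩
    | insert a T' _ ih =>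
      intro h
      rw [Finset.set_biUnion_insert]
      refine lift_union hP hQ f loc soft (c1 a) (T'.isCompact_biUnion fun i _ => c1 i) ?_
        ⟨V a, hV a, c2 a, z a, hz a, e a⟩ (ih ((Finset.subset_insert _ _).trans h))
      refine subset_trans ?_ hM
      rw [c3]
      exact subset_biUnion_of_mem (u := C) (h (Finset.mem_insert_self a T'))
  obtain ⟨O', h, h1, h2⟩ := key T subset_rfl
  exact ⟨O', h, c3 ▸ h1, h2⟩

end Pool.Agent.PWD.SY
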