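import Pool.Agent.P.MP_65ad7c_ag.DS2

/-! Local lifts glue on an open set if the kernel is soft. -/

open Set TopologicalSpace

noncomputable section
namespace Pool.Agent.PWD.SY

variable {k : Type} [Ring k] {X : Type} [TopologicalSpace X] {P Q : PSh k X}

theorem exists_exh [T2Space X] [LocallyCompactSpace X] [SecondCountableTopology X] (W : Opens X) :
    ∃ K : ℕ → Set X, (∀ n, IsCompact (K n)) ∧ (∀ n, K n ⊆ W) ∧
      (∀ n, K n ⊆ interior (K (n + 1))) ∧ ∀ y ∈ W, ∃ n, y ∈ K n := by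
  have := W.isOpen.locallyCompactSpace
  let E := CompactExhaustion.choice (W : Set X)
  refine ⟨fun n => Subtype.val '' E n, fun n => (E.isCompact n).image continuous_subtype_val,
    fun n => Subtype.coe_image_subset _ _, fun n => (image_mono (E.subset_interior_succ n)).trans
      (W.isOpen.isOpenMap_subtype_val.image_interior_subset _), fun y hy => ?_⟩
  obtain ⟨n, hn⟩ := E.exists_mem ⟨y, hy⟩
  exact ⟨n, _, hn, rfl⟩

/-- lifts of `t` near `K` -/
def ds3T (f : Hom P Q) (S : Sub P) {W : Opens X} (t : Q.obj W) (K : Set X) : Type :=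
  {p : Σ O : Opens X, P.obj O // ∃ h : p.1 ≤ W, K ⊆ p.1 ∧ p.2 ∈ S.sub p.1 ∧
    f.app p.1 p.2 = Q.res h t}

theorem ds3_step [T2Space X] (hP : P.IsSh) (hQ : Q.IsSh) (f : Hom P Q) {S : Sub P} (loc : S.Loc)
    {W : Opens X} (soft : SoftOn W (ker f S)) {t : Q.obj W} (ht : ∀ y ∈ W, (S.map f).Near t y)
    {K L : Set X} (hK : IsCompact K) (hL : IsCompact L) (hKL : K ⊆ L) (hW : L ⊆ W)
    (p : ds3T f S t K) : ∃ q : ds3T f S t L, ∀ (G : Opens X) (_ : (G : Set X) ⊆ K) (h : G ≤ p.1.1)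
      (h' : G ≤ q.1.1), P.res h' q.1.2 = P.res h p.1.2 := by
  obtain ⟨⟨O, z⟩, h, k1, k2, k3⟩ := p
  obtain ⟨O', h', l1, z', l2, l3⟩ := lift_cpt hP hQ f loc soft hL hW fun y hy => ht y (hW hy)
  obtain ⟨w, hw, O₂, m1, m2, m3, m4⟩ := soft K (O ⊓ O') O' hK (hKL.trans hW)
    (subset_inter k1 (hKL.trans l1)) (hKL.trans l1)
    (P.res inf_le_left z - P.res inf_le_right z')
    ⟨sub_mem (S.res_mem _ k2) (S.res_mem _ l2), by
      change f.app _ _ = 0
      rw [map_sub, ← f.nat, ← f.nat, k3, l3, Q.res_res, Q.res_res, sub_self]⟩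
  refine ⟨⟨⟨O', z' + w⟩, h', l1, add_mem l2 hw.1, ?_⟩, fun G hG g g' => ?_⟩
  · rw [map_add, (mem_ker.1 hw).2, add_zero, l3]
  · have h1 := congrArg (P.res (show G ≤ O₂ from hG.trans m3)) m4
    simp only [map_sub, P.res_res] at h1
    change P.res g' (z' + w) = P.res g z
    rw [map_add, h1, add_sub_cancel]

theorem lift_opn [T2Space X] [LocallyCompactSpace X] [SecondCountableTopology X] (hP : P.IsSh)
    (hQ : Q.IsSh) (f : Hom P Q) {S : Sub P} (loc : S.Loc) {W : Opens X}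
    (soft : SoftOn W (ker f S)) {t : Q.obj W} (ht : ∀ y ∈ W, (S.map f).Near t y) :
    ∃ z ∈ S.sub W, f.app W z = t := by
  obtain ⟨K, k1, k2, k3, k4⟩ := exists_exh W
  choose nx hnx using fun n => ds3_step hP hQ f loc soft ht (k1 n) (k1 (n + 1))
    ((k3 n).trans interior_subset) (k2 (n + 1))
  obtain ⟨O₀, h₀, l1, z₀, l2, l3⟩ := lift_cpt hP hQ f loc soft (k1 0) (k2 0)
    fun y hy => ht y (k2 0 hy)
  let q : ∀ n, ds3T f S t (K n) := fun n => Nat.rec ⟨⟨O₀, z₀⟩, h₀, l1, l2, l3⟩ nx n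
  let G : ℕ → Opens X := fun n => ⟨interior (K n), isOpen_interior⟩
  have g1 : ∀ n, G n ≤ (q n).1.1 := fun n => interior_subset.trans (q n).2.2.1
  have g2 : Monotone G := monotone_nat_of_le_succ fun n => interior_subset.trans (k3 n)
  have g3 : ∀ n m (h : n ≤ m), P.res (g2 h) (P.res (g1 m) (q m).1.2) = P.res (g1 n) (q n).1.2 := by
    intro n m h
    induction m, h using Nat.le_induction with
    | base => exact P.res_id _ _
    | succ m h ih =>
      rw [← ih, ← hnx m (q m) (G m) interior_subset (g1 m) ((g2 m.le_succ).trans (g1 (m + 1))),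
        P.res_res, P.res_res]
  have g4 : ∀ y ∈ W, ∃ n, y ∈ G n := fun y hy => (k4 y hy).elim fun n hn => ⟨n + 1, k3 n hn⟩
  have g5 : ∀ n, G n ≤ W := fun n => interior_subset.trans (k2 n)
  obtain ⟨z, hz⟩ := sh_glue hP G g5 g4 (fun n => P.res (g1 n) (q n).1.2) fun i j => by
    rcases le_total i j with h | h
    · rw [← g3 i j h]
      simp only [P.res_res]
    · rw [← g3 j i h]
      simp only [P.res_res]
  refine ⟨z, loc W z fun y hy => ?_, sh_ext hQ fun y hy => ?_⟩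
  · obtain ⟨n, hn⟩ := g4 y hy
    exact ⟨G n, g5 n, hn, hz n ▸ S.res_mem _ (q n).2.2.2.1⟩
  · obtain ⟨n, hn⟩ := g4 y hy
    refine ⟨G n, g5 n, hn, ?_⟩
    rw [f.nat, hz, ← f.nat, (q n).2.2.2.2, Q.res_res]

end Pool.Agent.PWD.SY
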