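import Pool.Agent.P.MP_65ad7c_ag.DS3

/-! Locally exact soft complexes are exact; sections vanishing near a closed set. -/

open Set TopologicalSpace

noncomputable section
namespace Pool.Agent.PWD.SY

variable {k : Type} [Ring k] {X : Type} [TopologicalSpace X]

theorem exact_of_soft [T2Space X] [LocallyCompactSpace X] [SecondCountableTopology X]
    {P : ℕ → PSh k X} (hP : ∀ n, (P n).IsSh) (D : ∀ n, Hom (P n) (P (n + 1)))
    (DD : ∀ n O x, (D (n + 1)).app O ((D n).app O x) = 0) (S : ∀ n, Sub (P n))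
    (loc : ∀ n, (S n).Loc) (maps : ∀ n, Sub.Maps (D n) (S n) (S (n + 1))) (W : Opens X)
    (soft : ∀ n, SoftOn W (S n))
    (ex0 : ∀ O : Opens X, ∀ x ∈ (S 0).sub O, (D 0).app O x = 0 → ∀ y ∈ O, y ∈ W →
      (⊥ : Sub (P 0)).Near x y)
    (ex : ∀ n (O : Opens X), ∀ x ∈ (S (n + 1)).sub O, (D (n + 1)).app O x = 0 → ∀ y ∈ O, y ∈ W →
      ((S n).map (D n)).Near x y) :
    (∀ x ∈ (S 0).sub W, (D 0).app W x = 0 → x = 0) ∧
      ∀ n, ∀ x ∈ (S (n + 1)).sub W, (D (n + 1)).app W x = 0 →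
        ∃ z ∈ (S n).sub W, (D n).app W z = x := by
  have key : ∀ n, SoftOn W (ker (D n) (S n)) := by
    intro n
    induction n with
    | zero =>
      intro K O O₁ _ hKW hKO hKO1 x hx
      have h1 : O ⊓ O₁ ⊓ W ≤ O := inf_le_left.trans inf_le_left
      refine ⟨0, Submodule.zero_mem _, O ⊓ O₁ ⊓ W, h1, inf_le_left.trans inf_le_right,
        fun y hy => ⟨⟨hKO hy, hKO1 hy⟩, hKW hy⟩, ?_⟩
      rw [map_zero]
      have := (hP 0).sep _ ((P 0).res h1 x) fun y hy =>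
        (near_res h1 hy).2 (ex0 O x (mem_ker.1 hx).1 (mem_ker.1 hx).2 y (h1 hy) hy.2)
      exact ((Submodule.mem_bot k).1 this).symm
    | succ n ih =>
      intro K O O₁ hK hKW hKO hKO1 x hx
      obtain ⟨O', h, hKO', z, hz, e⟩ := lift_cpt (hP n) (hP (n + 1)) (D n) (loc n) ih hK hKW
        (t := x) fun y hy => ex n O x (mem_ker.1 hx).1 (mem_ker.1 hx).2 y (hKO hy) (hKW hy)
      obtain ⟨z', hz', O₂, h2, h21, hK2, e2⟩ := soft n K O' O₁ hK hKW hKO' hKO1 z hz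
      refine ⟨(D n).app O₁ z', mem_ker.2 ⟨maps n O₁ z' hz', DD n O₁ z'⟩, O₂, h2.trans h, h21, hK2, ?_⟩
      rw [(D n).nat, e2, ← (D n).nat, e, (P (n + 1)).res_res]
  refine ⟨fun x hx hd => ?_, fun n x hx hd => ?_⟩
  · exact (Submodule.mem_bot k).1 ((hP 0).sep _ x fun y hy => ex0 W x hx hd y hy hy)
  · exact lift_opn (hP n) (hP (n + 1)) (D n) (loc n) (key n) fun y hy => ex n W x hx hd y hy hy

theorem soft_van [T2Space X] [LocallyCompactSpace X] {P : PSh k X} (hP : P.IsSh)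
    (soft : (⊤ : Sub P).Soft) {B : Set X} (hB : IsClosed B) : (van P B).Soft := by
  intro K O O₁ hK hKO hKO1 x hx
  obtain ⟨Z, hZO, hZ, hZn⟩ := exists_zero_set hP x
  obtain ⟨N, hN, hKN, hNO⟩ := exists_compact_between hK (O ⊓ O₁).isOpen
    (fun y hy => ⟨hKO hy, hKO1 hy⟩ : K ⊆ ((O ⊓ O₁ : Opens X) : Set X))
  have hL : IsCompact ((N \ interior N) ∪ (B ∩ N)) :=
    (hN.diff isOpen_interior).union (hN.inter_left hB)
  have hLN : (N \ interior N) ∪ (B ∩ N) ⊆ N := by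
    rintro y (hy | hy)
    · exact hy.1
    · exact hy.2
  have hKL : K ∩ ((N \ interior N) ∪ (B ∩ N)) ⊆ Z := by
    rintro y ⟨hy, hy' | hy'⟩
    · exact absurd (hKN hy) hy'.2
    · exact hZn y (mem_van.1 hx y (hKO hy) hy'.1)
  obtain ⟨V, V', hKV, hLV, hVV⟩ := sep_compact hK hL hKL
  have hz : ∀ {A : Opens X} (h : A ≤ O), A ≤ Z → P.res h x = 0 := fun {A} h hA => by
    have := P.res_res hZO hA x
    rw [hZ, map_zero] at this
    exact this.symm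
  obtain ⟨w, hw1, hw2⟩ := sh_glue2 hP (V := V ⊓ O) (V' := V') (W := (V ⊓ O) ⊔ V') le_sup_left
    le_sup_right le_rfl (P.res inf_le_right x) 0 (by
      rw [map_zero, P.res_res]
      exact hz _ ((inf_le_inf_right V' inf_le_left).trans hVV))
  obtain ⟨w', -, O₂, h2, h21, hK2, e2⟩ := soft (K ∪ ((N \ interior N) ∪ (B ∩ N))) ((V ⊓ O) ⊔ V') O₁
    (hK.union hL) (by
      rintro y (hy | hy)
      · exact (le_sup_left : V ⊓ O ≤ (V ⊓ O) ⊔ V') ⟨hKV hy, hKO hy⟩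
      · exact (le_sup_right : V' ≤ (V ⊓ O) ⊔ V') (hLV hy)) (by
      rintro y (hy | hy)
      · exact hKO1 hy
      · exact (hNO (hLN hy)).2) w trivial
  let G1 : Opens X := ⟨interior N, isOpen_interior⟩
  let Nc : Opens X := ⟨Nᶜ, hN.isClosed.isOpen_compl⟩
  let G2 : Opens X := O₁ ⊓ (Nc ⊔ (O₂ ⊓ V'))
  have hG1 : G1 ≤ O₁ := fun y hy => (hNO (interior_subset hy)).2
  have hG2 : G2 ≤ O₁ := inf_le_left
  have hLG : ∀ y ∈ O₁, (y ∈ N → y ∈ (N \ interior N) ∪ (B ∩ N)) → y ∈ G2 := by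
    intro y hy h
    refine ⟨hy, ?_⟩
    by_cases hyN : y ∈ N
    · exact (le_sup_right : O₂ ⊓ V' ≤ Nc ⊔ (O₂ ⊓ V')) ⟨hK2 (Or.inr (h hyN)), hLV (h hyN)⟩
    · exact (le_sup_left : Nc ≤ Nc ⊔ (O₂ ⊓ V')) hyN
  have hcov : O₁ ≤ G1 ⊔ G2 := by
    intro y hy
    by_cases hyi : y ∈ interior N
    · exact (le_sup_left : G1 ≤ G1 ⊔ G2) hyi
    · exact (le_sup_right : G2 ≤ G1 ⊔ G2) (hLG y hy fun hyN => Or.inl ⟨hyN, hyi⟩)
  have h12 : G1 ⊓ G2 ≤ O₂ ⊓ V' := by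
    rintro y ⟨hy1, -, hy2⟩
    rcases Opens.mem_sup.1 hy2 with h | h
    · exact absurd (interior_subset hy1) h
    · exact h
  have hww : ∀ {A : Opens X} (h : A ≤ O₂), P.res (h.trans h21) w' = P.res (h.trans h2) w :=
    fun {A} h => by rw [← P.res_res h21 h, e2, P.res_res]
  obtain ⟨x', hx1, hx2⟩ := sh_glue2 hP hG1 hG2 hcov (P.res hG1 w') 0 (by
    rw [map_zero, P.res_res]
    have h3 := hww (h12.trans inf_le_left)
    have h4 := P.res_res (le_sup_right : V' ≤ (V ⊓ O) ⊔ V') (h12.trans inf_le_right) w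
    rw [hw2, map_zero] at h4
    exact h3.trans h4.symm)
  refine ⟨x', mem_van.2 fun y hy hyB => near_bot.2 ⟨G2, hG2, hLG y hy fun hyN => Or.inr ⟨hyB, hyN⟩,
    hx2⟩, G1 ⊓ O₂ ⊓ (V ⊓ O), inf_le_right.trans inf_le_right,
    (inf_le_left.trans inf_le_left).trans hG1,
    fun y hy => ⟨⟨hKN hy, hK2 (Or.inl hy)⟩, hKV hy, hKO hy⟩, ?_⟩
  have a1 : G1 ⊓ O₂ ⊓ (V ⊓ O) ≤ G1 := inf_le_left.trans inf_le_left
  have a2 : G1 ⊓ O₂ ⊓ (V ⊓ O) ≤ O₂ := inf_le_left.trans inf_le_right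
  have a3 : G1 ⊓ O₂ ⊓ (V ⊓ O) ≤ V ⊓ O := inf_le_right
  have b1 := P.res_res hG1 a1 x'
  rw [hx1, P.res_res] at b1
  have b2 := hww a2
  have b3 := P.res_res (le_sup_left : V ⊓ O ≤ (V ⊓ O) ⊔ V') a3 w
  rw [hw1, P.res_res] at b3
  exact b1.symm.trans (b2.trans b3.symm)

end Pool.Agent.PWD.SY
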