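import Pool.Agent.P.MP_65ad7c_ag.DTS

open Set Filter Topology

noncomputable section
namespace Pool.Agent.PWD.TI

variable {T : Type} [TopologicalSpace T] {V : Type} [AddCommGroup V] {Q : FC T V}

theorem FC.LC.const {n₀ : ℤ} {B : ℤ → AddSubgroup V} (h : Q.LC n₀ B) {n : ℤ} (hn : n < n₀)
    {A : Set T} (hA : IsPreconnected A) {a : V} (ha : a ∈ Q.G n) (hd : Q.d a ∈ Q.van A) :
    ∃ b ∈ B n, ∀ x ∈ A, ∃ c ∈ Q.G (n - 1), a - b - Q.d c ∈ Q.z x := by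
  rcases A.eq_empty_or_nonempty with rfl | ⟨x₀, hx₀⟩
  · exact ⟨0, (B n).zero_mem, fun _ hx => hx.elim⟩
  obtain ⟨S, hS⟩ : ∃ S : V → Set T,
      ∀ b x, x ∈ S b ↔ ∃ c ∈ Q.G (n - 1), a - b - Q.d c ∈ Q.z x :=
    ⟨fun b => {x | ∃ c ∈ Q.G (n - 1), a - b - Q.d c ∈ Q.z x}, fun _ _ => Iff.rfl⟩
  have hO : ∀ b, IsOpen (S b) := fun b => isOpen_iff_forall_mem_open.2 fun x hx => by
    obtain ⟨c, c1, c2⟩ := (hS b x).1 hx
    exact ⟨_, fun y hy => (hS b y).2 ⟨c, c1, hy⟩, Q.opn (a - b - Q.d c), c2⟩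
  have hs : ∀ x ∈ A, ∃ b ∈ B n, x ∈ S b := fun x hx => by
    obtain ⟨b, b1, b2⟩ := h.sur n hn x a ha (FC.mem_van.1 hd x hx)
    exact ⟨b, b1, (hS b x).2 b2⟩
  obtain ⟨b₀, hb₀, h0⟩ := hs x₀ hx₀
  refine ⟨b₀, hb₀, fun x hx => (hS b₀ x).1 (hA.subset_left_of_subset_union (hO b₀)
    (v := ⋃ b ∈ {b | Disjoint (S b₀) (S b)}, S b) (isOpen_biUnion fun b _ => hO b)
    (disjoint_iUnion₂_right.2 fun b hb => hb) (fun y hy => ?_) ⟨x₀, hx₀, h0⟩ hx)⟩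
  obtain ⟨b, b1, b2⟩ := hs y hy
  by_cases hb : Disjoint (S b₀) (S b)
  · exact Or.inr (mem_biUnion (s := {b | Disjoint (S b₀) (S b)}) hb b2)
  obtain ⟨w, w1, w2⟩ := not_disjoint_iff.1 hb
  obtain ⟨c₀, c1, c2⟩ := (hS _ _).1 w1
  obtain ⟨c, c3, c4⟩ := (hS _ _).1 w2
  obtain ⟨e, e1, e2⟩ := (hS _ _).1 b2
  have h1 := sub_mem c2 c4
  have h2 : a - b₀ - Q.d c₀ - (a - b - Q.d c) = b - b₀ - Q.d (c₀ - c) := by
    rw [map_sub]
    abel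
  rw [h2] at h1
  have h3 := add_mem e2 (FC.mem_van.1
    (h.inj n hn w _ (sub_mem b1 hb₀) _ (sub_mem c1 c3) h1) y (mem_univ _))
  have h4 : a - b - Q.d e + (b - b₀) = a - b₀ - Q.d e := by abel
  rw [h4] at h3
  exact Or.inl ((hS _ _).2 ⟨e, e1, h3⟩)

theorem dtb_ind {N : ℕ} {Q : FC (Fin N → ℝ) V} {n₀ : ℤ} {B : ℤ → AddSubgroup V}
    (h : Q.LC n₀ B) (m : ℕ) : ∀ K : Set (Fin N → ℝ), IsCompact K → Convex ℝ K →
    (∀ x ∈ K, ∀ y ∈ K, ∀ i : Fin N, m ≤ i.val → x i = y i) → ∀ n < n₀, ∀ a ∈ Q.G n,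
    (∀ x ∈ K, ∃ c ∈ Q.G (n - 1), a - Q.d c ∈ Q.z x) →
    ∃ c ∈ Q.G (n - 1), a - Q.d c ∈ Q.van K := by
  induction m with
  | zero =>
    intro K _ _ hm n _ a _ hl
    rcases K.eq_empty_or_nonempty with rfl | ⟨x, hx⟩
    · exact ⟨0, (Q.G _).zero_mem, FC.van_empty _⟩
    · obtain ⟨c, hc, h1⟩ := hl x hx
      refine ⟨c, hc, FC.mem_van.2 fun y hy => ?_⟩
      have e : y = x := funext fun i => hm y hy x hx i (Nat.zero_le _)
      rw [e]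
      exact h1
  | succ m ih =>
    intro K hK hc hm n hn a ha hl
    by_cases hN : m < N
    swap
    · exact ih K hK hc (fun x _ y _ i hi => absurd i.2 (by omega)) n hn a ha hl
    obtain ⟨g, hg⟩ : ∃ g : (Fin N → ℝ) → ℝ, g = fun x => x ⟨m, hN⟩ := ⟨_, rfl⟩
    have g1 : Continuous g := hg ▸ continuous_apply _
    have k1 : ∀ {F : Set ℝ}, IsClosed F → IsCompact (K ∩ g ⁻¹' F) := fun hF =>
      hK.inter_right (hF.preimage g1)
    have k2 : ∀ t, Convex ℝ (K ∩ g ⁻¹' {t}) := fun t => by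
      rw [hg]
      exact hc.inter ((convex_singleton t).linear_preimage
        (LinearMap.proj (R := ℝ) (φ := fun _ : Fin N => ℝ) ⟨m, hN⟩))
    have k3 : ∀ t, ∀ x ∈ K ∩ g ⁻¹' {t}, ∀ y ∈ K ∩ g ⁻¹' {t}, ∀ i : Fin N, m ≤ i.val →
        x i = y i := by
      intro t x hx y hy i hi
      rcases hi.eq_or_lt with e | e
      · have e1 : i = ⟨m, hN⟩ := Fin.ext e.symm
        have e2 : g x = g y := hx.2.trans hy.2.symm
        rw [hg] at e2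
        rw [e1]
        exact e2
      · exact hm x hx.1 y hy.1 i e
    refine slice_ind hK g1.continuousOn (fun A => ∃ c ∈ Q.G (n - 1), a - Q.d c ∈ Q.van A)
      ⟨0, (Q.G _).zero_mem, FC.van_empty _⟩
      (fun A A' e ⟨c, hc, h1⟩ => ⟨c, hc, FC.van_anti e h1⟩) (fun t => ?_) ?_
    · obtain ⟨c, c1, c2⟩ := ih _ (k1 isClosed_singleton) (k2 t) (k3 t) n hn a ha
        fun x hx => hl x hx.1
      exact ⟨_, Q.opn (a - Q.d c), FC.mem_van.1 c2, c, c1, FC.van_self _⟩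
    · rintro t t' htt ⟨c, c1, c2⟩ ⟨c', c1', c2'⟩
      have s1 : K ∩ g ⁻¹' {t} ⊆ K ∩ g ⁻¹' Iic t := fun x hx => ⟨hx.1, le_of_eq hx.2⟩
      have s2 : K ∩ g ⁻¹' {t} ⊆ K ∩ g ⁻¹' Icc t t' := fun x hx =>
        ⟨hx.1, ge_of_eq hx.2, (le_of_eq hx.2).trans htt⟩
      have s3 : K ∩ g ⁻¹' Iic t ∩ (K ∩ g ⁻¹' Icc t t') ⊆ K ∩ g ⁻¹' {t} := fun x hx =>
        ⟨hx.1.1, le_antisymm hx.1.2 hx.2.2.1⟩
      have s4 : K ∩ g ⁻¹' Iic t' ⊆ K ∩ g ⁻¹' Iic t ∪ K ∩ g ⁻¹' Icc t t' := fun x hx =>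
        (le_total (g x) t).imp (fun e => ⟨hx.1, e⟩) fun e => ⟨hx.1, e, hx.2⟩
      have hn' : n - 1 < n₀ := by omega
      have e1 : Q.d (c - c') ∈ Q.van (K ∩ g ⁻¹' {t}) := by
        have h1 := sub_mem (FC.van_anti s2 c2') (FC.van_anti s1 c2)
        have h2 : a - Q.d c' - (a - Q.d c) = Q.d (c - c') := by
          rw [map_sub]
          abel
        rwa [h2] at h1
      obtain ⟨b, b1, b2⟩ := h.const hn' (k2 t).isPreconnected (sub_mem c1 c1') e1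
      obtain ⟨e, e2, e3⟩ := ih _ (k1 isClosed_singleton) (k2 t) (k3 t) (n - 1) hn' _
        (sub_mem (sub_mem c1 c1') (h.mem _ hn' b b1)) b2
      have e4 : c - (c' + b + Q.d e) ∈ Q.van (K ∩ g ⁻¹' Iic t ∩ (K ∩ g ⁻¹' Icc t t')) := by
        have h2 : c - c' - b - Q.d e = c - (c' + b + Q.d e) := by abel
        rw [← h2]
        exact FC.van_anti s3 e3
      obtain ⟨u, u1, u2, u3⟩ := FC.glueK (k1 isClosed_Iic) (k1 isClosed_Icc) c1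
        (add_mem (add_mem c1' (h.mem _ hn' b b1)) (FC.dG' e2)) e4
      refine ⟨u, u1, FC.van_anti s4 (FC.van_union.2 ⟨?_, ?_⟩)⟩
      · have h1 := sub_mem c2 (FC.d_van u2)
        have h2 : a - Q.d c - Q.d (u - c) = a - Q.d u := by
          rw [map_sub]
          abel
        rwa [h2] at h1
      · have h1 := sub_mem (sub_mem c2' (FC.van_anti (subset_univ _) (h.cl _ hn' b b1)))
          (FC.d_van u3)
        have h2 : a - Q.d c' - Q.d b - Q.d (u - (c' + b + Q.d e)) = a - Q.d u := by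
          rw [map_sub, map_add, map_add, Q.dd]
          abel
        rwa [h2] at h1

/-- compact convex sets are acyclic -/
theorem FC.LC.exact_compact {N : ℕ} {Q : FC (Fin N → ℝ) V} {n₀ : ℤ} {B : ℤ → AddSubgroup V}
    (h : Q.LC n₀ B) {K : Set (Fin N → ℝ)} (hK : IsCompact K) (hc : Convex ℝ K) {n : ℤ}
    (hn : n < n₀) {a : V} (ha : a ∈ Q.G n)
    (hl : ∀ x ∈ K, ∃ c ∈ Q.G (n - 1), a - Q.d c ∈ Q.z x) :
    ∃ c ∈ Q.G (n - 1), a - Q.d c ∈ Q.van K := by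
  exact dtb_ind h N K hK hc (fun x _ y _ i hi => absurd i.2 (by omega)) n hn a ha hl

theorem FC.LC.ac_compact {N : ℕ} {Q : FC (Fin N → ℝ) V} {n₀ : ℤ} {B : ℤ → AddSubgroup V}
    (h : Q.LC n₀ B) {K : Set (Fin N → ℝ)} (hK : IsCompact K) (hc : Convex ℝ K) {n : ℤ}
    (hn : n < n₀) : Q.AC B n K := by
  intro a ha hd
  obtain ⟨b, b1, b2⟩ := h.const hn hc.isPreconnected ha hd
  exact ⟨b, b1, h.exact_compact hK hc hn (sub_mem ha (h.mem n hn b b1)) b2⟩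

end Pool.Agent.PWD.TI
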