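import Pool.Agent.P.MP_65ad7c_ag.DTB

open Set Filter Topology

noncomputable section
namespace Pool.Agent.PWD.TI

variable {T : Type} [TopologicalSpace T] {V : Type} [AddCommGroup V] {Q : FC T V}

theorem exists_convex_exhaustion {N : ℕ} {O : Set (Fin N → ℝ)} (hO : IsOpen O) (hc : Convex ℝ O) :
    ∃ K : ℕ → Set (Fin N → ℝ), (∀ i, IsCompact (K i) ∧ Convex ℝ (K i) ∧ K i ⊆ O) ∧ Monotone K ∧
      ∀ x ∈ O, ∃ i, x ∈ interior (K i) := by
  refine ⟨fun i => {x | ∀ y ∉ O, 1 / ((i : ℝ) + 1) ≤ dist y x} ∩ Metric.closedBall 0 i,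
    fun i => ⟨?_, ?_, ?_⟩, ?_, ?_⟩
  · refine (isCompact_closedBall _ _).inter_left ?_
    have e : {x : Fin N → ℝ | ∀ y ∉ O, 1 / ((i : ℝ) + 1) ≤ dist y x} =
        ⋂ y ∈ Oᶜ, {x | 1 / ((i : ℝ) + 1) ≤ dist y x} := by
      ext x; simp only [mem_iInter, mem_compl_iff]; rfl
    rw [e]
    exact isClosed_biInter fun y _ => isClosed_le continuous_const (by fun_prop)
  · refine Convex.inter ?_ (convex_closedBall _ _)
    intro x1 h1 x2 h2 s t hs ht hst y hy
    by_contra hlt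
    have k : ∀ x, (∀ y ∉ O, 1 / ((i : ℝ) + 1) ≤ dist y x) → x + (y - (s • x1 + t • x2)) ∈ O := by
      intro x hx
      by_contra hn
      have := hx _ hn
      rw [dist_eq_norm, add_sub_cancel_left, ← dist_eq_norm] at this
      exact hlt this
    have := hc (k x1 h1) (k x2 h2) hs ht hst
    have e : s • (x1 + (y - (s • x1 + t • x2))) + t • (x2 + (y - (s • x1 + t • x2))) = y := by
      rw [smul_add, smul_add, add_add_add_comm, ← add_smul, hst, one_smul, add_sub_cancel]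
    exact hy (e ▸ this)
  · rintro x ⟨hx, -⟩
    by_contra hn
    have := hx x hn
    rw [dist_self] at this
    have h0 : (0 : ℝ) < 1 / ((i : ℝ) + 1) := by positivity
    linarith
  · rintro i j hij x ⟨h1, h2⟩
    have hij' : (i : ℝ) ≤ j := by exact_mod_cast hij
    refine ⟨fun y hy => le_trans ?_ (h1 y hy), Metric.closedBall_subset_closedBall hij' h2⟩
    exact one_div_le_one_div_of_le (by positivity) (by linarith)
  · intro x hx
    obtain ⟨ε, hε, hb⟩ := Metric.isOpen_iff.1 hO x hx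
    obtain ⟨i, hi⟩ := exists_nat_gt (max (2 / ε) (‖x‖ + ε / 2))
    have i1 : 2 / ε < i := (le_max_left _ _).trans_lt hi
    have i2 : ‖x‖ + ε / 2 < i := (le_max_right _ _).trans_lt hi
    refine ⟨i, mem_interior.2 ⟨Metric.ball x (ε / 2), fun x' hx' => ⟨fun y hy => ?_, ?_⟩,
      Metric.isOpen_ball, Metric.mem_ball_self (by positivity)⟩⟩
    · have a1 : ε ≤ dist y x := not_lt.1 fun hl => hy (hb hl)
      have a2 := dist_triangle y x' x
      have a3 : dist x' x < ε / 2 := hx'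
      have a4 : 1 / ((i : ℝ) + 1) ≤ ε / 2 := by
        rw [div_le_iff₀ (by positivity)]
        rw [div_lt_iff₀ hε] at i1
        nlinarith
      linarith
    · have a3 : dist x' x < ε / 2 := hx'
      have a2 := dist_triangle x' x 0
      rw [dist_zero_right x] at a2
      exact Metric.mem_closedBall.2 (by linarith)

/-- open convex sets are acyclic -/
theorem FC.LC.ac_open {N : ℕ} {Q : FC (Fin N → ℝ) V} {n₀ : ℤ} {B : ℤ → AddSubgroup V}
    (h : Q.LC n₀ B) {O : Set (Fin N → ℝ)} (hO : IsOpen O) (hc : Convex ℝ O) {n : ℤ}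
    (hn : n < n₀) : Q.AC B n O := by
  intro a ha hd
  obtain ⟨K, hK, hm, hi⟩ := exists_convex_exhaustion hO hc
  obtain ⟨b, hb, hl⟩ := h.const hn hc.isPreconnected ha hd
  have he : ∀ i, ∃ c ∈ Q.G (n - 1), a - b - Q.d c ∈ Q.van (K i) := fun i =>
    h.exact_compact (hK i).1 (hK i).2.1 hn (sub_mem ha (h.mem n hn b hb))
      fun x hx => hl x ((hK i).2.2 hx)
  have step : ∀ i, ∀ c : {c // c ∈ Q.G (n - 1) ∧ a - b - Q.d c ∈ Q.van (K i)},
      ∃ c' : {c // c ∈ Q.G (n - 1) ∧ a - b - Q.d c ∈ Q.van (K (i + 1))},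
        c'.1 - c.1 ∈ Q.van (K i) := by
    rintro i ⟨c, hc1, hc2⟩
    obtain ⟨e, he1, he2⟩ := he (i + 1)
    have hde : Q.d (e - c) ∈ Q.van (K i) := by
      have := sub_mem hc2 (FC.van_anti (hm (Nat.le_succ i)) he2)
      have e1 : Q.d (e - c) = a - b - Q.d c - (a - b - Q.d e) := by
        rw [map_sub]; abel
      rwa [e1]
    obtain ⟨b2, hb2, g, hg, hs⟩ := h.ac_compact (hK i).1 (hK i).2.1 (n := n - 1) (by omega)
      (e - c) (sub_mem he1 hc1) hde
    refine ⟨⟨e - b2 - Q.d g, sub_mem (sub_mem he1 (h.mem _ (by omega) _ hb2)) (FC.dG' hg), ?_⟩, ?_⟩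
    · have := add_mem he2 (FC.van_anti (subset_univ _) (h.cl (n - 1) (by omega) _ hb2))
      have e1 : a - b - Q.d (e - b2 - Q.d g) = a - b - Q.d e + Q.d b2 := by
        rw [map_sub, map_sub, Q.dd]; abel
      rwa [e1]
    · have e1 : e - b2 - Q.d g - c = e - c - b2 - Q.d g := by abel
      simp only
      rwa [e1]
  choose f hf using step
  obtain ⟨c0, hc0⟩ := he 0
  let c : ∀ i, {c // c ∈ Q.G (n - 1) ∧ a - b - Q.d c ∈ Q.van (K i)} := fun i =>
    Nat.rec ⟨c0, hc0⟩ (fun i ci => f i ci) i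
  have hc1 : ∀ i, (c (i + 1)).1 - (c i).1 ∈ Q.van (K i) := fun i => hf i (c i)
  have hc2 : ∀ i j, i ≤ j → (c j).1 - (c i).1 ∈ Q.van (K i) := by
    intro i j hij
    induction j, hij using Nat.le_induction with
    | base => rw [sub_self]; exact zero_mem _
    | succ j hij ih =>
      have := add_mem (FC.van_anti (hm hij) (hc1 j)) ih
      rwa [sub_add_sub_cancel] at this
  obtain ⟨g, hg, hgl⟩ := Q.glue (n - 1) ℕ (fun i => interior (K i)) (fun i => (c i).1)
    (fun _ => isOpen_interior) (fun i => (c i).2.1) (by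
      intro i j x hx
      rcases le_total i j with hij | hij
      · have := neg_mem (FC.mem_van.1 (hc2 i j hij) x (interior_subset hx.1))
        rwa [neg_sub] at this
      · exact FC.mem_van.1 (hc2 j i hij) x (interior_subset hx.2))
  refine ⟨b, hb, g, hg, FC.mem_van.2 fun x hx => ?_⟩
  obtain ⟨i, hxi⟩ := hi x hx
  have := sub_mem (FC.mem_van.1 (c i).2.2 x (interior_subset hxi)) (Q.dz x _ (hgl i x hxi))
  have e1 : a - b - Q.d g = a - b - Q.d (c i).1 - Q.d (g - (c i).1) := by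
    rw [map_sub]; abel
  rwa [e1]

theorem FC.LC.zs_univ {N : ℕ} {Q : FC (Fin N → ℝ) V} {n₀ : ℤ} {B : ℤ → AddSubgroup V}
    (h : Q.LC n₀ B) {n : ℤ} (hn : n < n₀) (hB : B n = ⊥) : Q.Zs n univ := by
  intro a ha _ hd
  obtain ⟨b, hb, c, hc, hs⟩ := h.ac_open isOpen_univ convex_univ hn a ha hd
  rw [hB, AddSubgroup.mem_bot] at hb
  rw [hb, sub_zero] at hs
  exact ⟨c, hc, by rw [compl_univ]; exact FC.van_empty c, hs⟩

theorem FC.LC.zs_compl {N : ℕ} {Q : FC (Fin N → ℝ) V} {n₀ : ℤ} {B : ℤ → AddSubgroup V}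
    (h : Q.LC n₀ B) {A : Set (Fin N → ℝ)} (hO : IsOpen A) (hc : Convex ℝ A) (hne : A.Nonempty)
    {n : ℤ} (hn : n < n₀) : Q.Zs n Aᶜ := by
  intro a ha h0 hd
  rw [compl_compl] at h0 ⊢
  obtain ⟨b, hb, c, hc1, hs⟩ := h.ac_open isOpen_univ convex_univ hn a ha hd
  obtain ⟨x, hx⟩ := hne
  have hb0 : b ∈ Q.van univ := by
    refine h.inj n hn x b hb (-c) (neg_mem hc1) ?_
    have := sub_mem (FC.mem_van.1 h0 x hx) (FC.mem_van.1 hs x trivial)
    have e1 : b - Q.d (-c) = a - (a - b - Q.d c) := by rw [map_neg]; abel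
    rwa [e1]
  have hs' : a - Q.d c ∈ Q.van univ := by
    have := add_mem hs hb0
    have e1 : a - Q.d c = a - b - Q.d c + b := by abel
    rwa [e1]
  have hdc : Q.d c ∈ Q.van A := by
    have := sub_mem h0 (FC.van_anti (subset_univ A) hs')
    rwa [sub_sub_cancel] at this
  obtain ⟨b2, hb2, g, hg, hs2⟩ := h.ac_open hO hc (n := n - 1) (by omega) c hc1 hdc
  refine ⟨c - b2 - Q.d g, sub_mem (sub_mem hc1 (h.mem _ (by omega) _ hb2)) (FC.dG' hg), hs2, ?_⟩
  have := add_mem hs' (h.cl (n - 1) (by omega) _ hb2)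
  have e1 : a - Q.d (c - b2 - Q.d g) = a - Q.d c + Q.d b2 := by
    rw [map_sub, map_sub, Q.dd]; abel
  rwa [e1]

end Pool.Agent.PWD.TI
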