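import Pool.Agent.P.MP_65ad7c_ag.DTB2

open Set Filter Topology

noncomputable section
namespace Pool.Agent.PWD.TI

variable {T : Type} [TopologicalSpace T] {V : Type} [AddCommGroup V] {Q : FC T V}

theorem dtc_mv {j : ℤ} {K A A' : Set T} (hK : IsClosed K) (hA : IsOpen A) (hA' : IsOpen A')
    (hu : Q.Zs (j - 1) (K ∩ (A ∩ A')ᶜ)) (h : Q.Zs j (K ∩ Aᶜ)) (h' : Q.Zs j (K ∩ A'ᶜ)) :
    Q.Zs j (K ∩ (A ∪ A')ᶜ) := by
  have := FC.Zs.inter (hK.inter hA.isClosed_compl) (hK.inter hA'.isClosed_compl)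
    (by rwa [← inter_union_distrib_left, ← compl_inter]) h h'
  rwa [← inter_inter_distrib_left, ← compl_union] at this

/-- the box in the first `m` coordinates -/
def dtc_K {N : ℕ} (p : Fin N → ℝ) (r : ℝ) (m : ℕ) : Set (Fin N → ℝ) :=
  {x | ∀ i : Fin N, i.val < m → |x i - p i| ≤ r}

/-- open convex sets that do not depend on the first `m` coordinates -/
def dtc_G {N : ℕ} (m : ℕ) (A : Set (Fin N → ℝ)) : Prop :=
  IsOpen A ∧ Convex ℝ A ∧ A.Nonempty ∧ ∀ x ∈ A, ∀ y, (∀ i : Fin N, m ≤ i.val → y i = x i) → y ∈ A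

theorem dtc_closed {N : ℕ} (p : Fin N → ℝ) (r : ℝ) (m : ℕ) : IsClosed (dtc_K p r m) := by
  simp only [dtc_K, ofPred_forall]
  exact isClosed_iInter fun i => isClosed_iInter fun _ =>
    isClosed_le (by fun_prop) continuous_const

theorem dtc_half {N : ℕ} (i : Fin N) {S : Set ℝ} (ho : IsOpen S) (hc : Convex ℝ S)
    (hn : S.Nonempty) : dtc_G i.val {x : Fin N → ℝ | x i ∈ S} :=
  ⟨ho.preimage (continuous_apply i), fun _ hx _ hy _ _ ha hb hab => hc hx hy ha hb hab,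
    hn.elim fun t ht => ⟨fun _ => t, ht⟩, fun x hx y h => by
      show y i ∈ S
      rw [h i le_rfl]
      exact hx⟩

theorem dtc_mono {N m : ℕ} {A : Set (Fin N → ℝ)} (h : dtc_G (m + 1) A) : dtc_G m A :=
  ⟨h.1, h.2.1, h.2.2.1, fun x hx y e => h.2.2.2 x hx y fun i hi => e i (by omega)⟩

theorem dtc_inter {N : ℕ} (i : Fin N) {S : Set ℝ} (ho : IsOpen S) (hc : Convex ℝ S)
    (hn : S.Nonempty) {A : Set (Fin N → ℝ)} (h : dtc_G (i.val + 1) A) :
    dtc_G i.val (A ∩ {x : Fin N → ℝ | x i ∈ S}) := by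
  have g := dtc_half i ho hc hn
  obtain ⟨x, hx⟩ := h.2.2.1
  obtain ⟨t, ht⟩ := hn
  refine ⟨h.1.inter g.1, h.2.1.inter g.2.1, ⟨Function.update x i t,
    h.2.2.2 x hx _ fun k hk => Function.update_of_ne (by rintro rfl; omega) _ _, ?_⟩,
    fun x hx y e => ⟨(dtc_mono h).2.2.2 x hx.1 y e, g.2.2.2 x hx.2 y e⟩⟩
  show Function.update x i t i ∈ S
  rwa [Function.update_self]

theorem dtc_ind {N : ℕ} {Q : FC (Fin N → ℝ) V} {n₀ e : ℤ} {B : ℤ → AddSubgroup V}
    (h : Q.LC n₀ B) (he : ∀ n < e, B n = ⊥) (hn : e + N ≤ n₀) (p : Fin N → ℝ) {r : ℝ} (hr : 0 ≤ r)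
    (m : ℕ) (hm : m ≤ N) : (∀ j < e + m, Q.Zs j (dtc_K p r m)) ∧
      ∀ A, dtc_G m A → ∀ j < n₀, Q.Zs j (dtc_K p r m ∩ Aᶜ) := by
  induction m with
  | zero =>
    have e0 : dtc_K p r 0 = univ := eq_univ_of_forall fun x i hi => absurd hi (Nat.not_lt_zero _)
    rw [e0]
    refine ⟨fun j hj => h.zs_univ (by omega) (he j (by omega)), fun A hA j hj => ?_⟩
    rw [univ_inter]
    exact h.zs_compl hA.1 hA.2.1 hA.2.2.1 hj
  | succ m ih =>
    obtain ⟨ia, ib⟩ := ih (by omega)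
    set i : Fin N := ⟨m, hm⟩ with hi
    have hK := dtc_closed p r m
    have g1 : dtc_G m _ := dtc_half i isOpen_Ioi (convex_Ioi (p i + r)) nonempty_Ioi
    have g2 : dtc_G m _ := dtc_half i isOpen_Iio (convex_Iio (p i - r)) nonempty_Iio
    have e0 : {x : Fin N → ℝ | x i ∈ Ioi (p i + r)} ∩ {x : Fin N → ℝ | x i ∈ Iio (p i - r)} = ∅ :=
      eq_empty_of_forall_notMem fun x hx => by
        have h1 : p i + r < x i := hx.1
        have h2 : x i < p i - r := hx.2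
        linarith
    have e1 : dtc_K p r (m + 1) = dtc_K p r m ∩
        ({x : Fin N → ℝ | x i ∈ Ioi (p i + r)} ∪ {x : Fin N → ℝ | x i ∈ Iio (p i - r)})ᶜ := by
      ext x
      simp only [dtc_K, mem_inter_iff, mem_compl_iff, mem_union, mem_ofPred_eq, mem_Ioi, mem_Iio,
        not_or, not_lt]
      constructor
      · intro hx
        have := abs_le.1 (hx i (Nat.lt_succ_self m))
        exact ⟨fun k hk => hx k (by omega), by linarith [this.2], by linarith [this.1]⟩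
      · rintro ⟨h1, h2, h3⟩ k hk
        rcases Nat.lt_succ_iff_lt_or_eq.1 hk with h4 | h4
        · exact h1 k h4
        · rw [show k = i from Fin.ext h4]
          exact abs_le.2 ⟨by linarith, by linarith⟩
    rw [e1]
    refine ⟨fun j hj => dtc_mv hK g1.1 g2.1 ?_ (ib _ g1 j (by push_cast at hj; omega))
      (ib _ g2 j (by push_cast at hj; omega)), fun A hA j hj => ?_⟩
    · rw [e0, compl_empty, inter_univ]
      exact ia _ (by push_cast at hj; omega)
    · have hA' := dtc_mono hA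
      have k1 := dtc_mv hK hA.1 g1.1 (ib _ (dtc_inter i isOpen_Ioi (convex_Ioi (p i + r))
        nonempty_Ioi hA) _ (by omega)) (ib _ hA' j hj) (ib _ g1 j hj)
      have k2 := dtc_mv hK hA.1 g2.1 (ib _ (dtc_inter i isOpen_Iio (convex_Iio (p i - r))
        nonempty_Iio hA) _ (by omega)) (ib _ hA' j hj) (ib _ g2 j hj)
      have := dtc_mv hK (hA.1.union g1.1) (hA.1.union g2.1) (by
        rw [← union_inter_distrib_left, e0, union_empty]
        exact ib _ hA' _ (by omega)) k1 k2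
      rwa [← union_union_distrib_left, union_comm, compl_union, ← inter_assoc] at this

/-- cohomology with supports in a closed box -/
theorem FC.LC.zs_box {N : ℕ} {Q : FC (Fin N → ℝ) V} {n₀ e : ℤ} {B : ℤ → AddSubgroup V}
    (h : Q.LC n₀ B) (he : ∀ n < e, B n = ⊥) (hn : e + N ≤ n₀) (p : Fin N → ℝ) {r : ℝ} (hr : 0 ≤ r)
    {j : ℤ} (hj : j < e + N) : Q.Zs j (Metric.closedBall p r) := by
  have e1 : Metric.closedBall p r = dtc_K p r N := by
    ext x
    simp only [Metric.mem_closedBall, dist_pi_le_iff hr, Real.dist_eq, dtc_K, mem_ofPred_eq]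
    exact ⟨fun hx i _ => hx i, fun hx i => hx i i.2⟩
  rw [e1]
  exact (dtc_ind h he hn p hr N le_rfl).1 j hj

theorem FC.LC.pza_point {N : ℕ} {Q : FC (Fin N → ℝ) V} {n₀ e : ℤ} {B : ℤ → AddSubgroup V}
    (h : Q.LC n₀ B) (he : ∀ n < e, B n = ⊥) (hn : e + N ≤ n₀) (p : Fin N → ℝ) :
    Q.PZA (e + N) {p} := by
  intro j hj K _ hK
  rw [nhdsSet_singleton] at hK
  obtain ⟨r, hr, h1⟩ := Metric.nhds_basis_closedBall.mem_iff.1 hK
  refine ⟨Metric.closedBall p r, Metric.isClosed_closedBall, ?_, fun a ha h2 h3 => ?_⟩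
  · rw [nhdsSet_singleton]
    exact Metric.closedBall_mem_nhds p hr
  · obtain ⟨c, c1, c2, c3⟩ := h.zs_box he hn p hr.le hj a ha h2 h3
    exact ⟨c, c1, FC.van_anti (compl_subset_compl.2 h1) c2, c3⟩

end Pool.Agent.PWD.TI
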