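import Pool.Agent.P.MP_65ad7c_ag.DTS

open Set Filter Topology

noncomputable section
namespace Pool.Agent.PWD.TI

variable {T : Type} [TopologicalSpace T] {V : Type} [AddCommGroup V] {Q : FC T V}

theorem FC.PZ.mono {j : ℤ} {C C' K : Set T} (h : Q.PZ j C K) (hs : C' ⊆ C) : Q.PZ j C' K := by
  obtain ⟨K', h1, h2, h3⟩ := h
  exact ⟨K', h1, nhdsSet_mono hs h2, h3⟩

theorem FC.pz_empty (j : ℤ) (K : Set T) : Q.PZ j ∅ K := by
  refine ⟨∅, isClosed_empty, by simp, fun a _ ha _ => ⟨0, zero_mem _, zero_mem _, ?_⟩⟩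
  simpa using ha

theorem FC.PZ.union [T2Space T] [RegularSpace T] {j : ℤ} {C C' K : Set T} (hC : IsCompact C)
    (hC' : IsCompact C') (h : Q.PZ j C K) (h' : Q.PZ j C' K)
    (hi : ∀ M, IsClosed M → M ∈ 𝓝ˢ (C ∩ C') → Q.PZ (j + 1) (C ∩ C') M) : Q.PZ j (C ∪ C') K := by
  obtain ⟨K1, k1, n1, p1⟩ := h
  obtain ⟨K2, k2, n2, p2⟩ := h'
  obtain ⟨M, -, nM, pM⟩ := hi (K1 ∩ K2) (k1.inter k2)
    (inter_mem (nhdsSet_mono inter_subset_left n1) (nhdsSet_mono inter_subset_right n2))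
  obtain ⟨L, L', l1, l2, m1, m2, s1, s2, s3⟩ := exists_closed_inter hC hC' n1 n2 nM
  refine ⟨L ∪ L', l1.union l2, union_mem_nhdsSet m1 m2, fun a ha hv hd => ?_⟩
  obtain ⟨b, hb, b1, b2⟩ := FC.split l1 l2 ha hv
  have e1 : Q.d b = Q.d a - Q.d (a - b) := by rw [map_sub, sub_sub_cancel]
  have d1 : Q.d b ∈ Q.van Mᶜ := by
    refine FC.van_anti (compl_subset_compl.2 s3) ?_
    rw [compl_inter, FC.van_union]
    refine ⟨FC.d_van b1, ?_⟩
    rw [e1]
    exact sub_mem (FC.van_anti (subset_univ _) hd) (FC.d_van b2)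
  obtain ⟨β, hβ, β1, β2⟩ := pM (Q.d b) (Q.dG j b hb) d1 (by rw [Q.dd]; exact zero_mem _)
  rw [add_sub_cancel_right] at hβ
  obtain ⟨c1, g1, v1, w1⟩ := p1 (b - β) (sub_mem hb hβ)
    (sub_mem (FC.van_anti (compl_subset_compl.2 s1) b1)
      (FC.van_anti (compl_subset_compl.2 inter_subset_left) β1)) (by rw [map_sub]; exact β2)
  obtain ⟨c2, g2, v2, w2⟩ := p2 (a - b + β) (add_mem (sub_mem ha hb) hβ)
    (add_mem (FC.van_anti (compl_subset_compl.2 s2) b2)
      (FC.van_anti (compl_subset_compl.2 inter_subset_right) β1)) (by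
      have e : Q.d (a - b + β) = Q.d a - (Q.d b - Q.d β) := by
        rw [map_add, map_sub]; abel
      rw [e]
      exact sub_mem hd β2)
  refine ⟨c1 + c2, add_mem g1 g2, add_mem v1 v2, ?_⟩
  have e : a - Q.d (c1 + c2) = (b - β - Q.d c1) + (a - b + β - Q.d c2) := by
    rw [map_add]; abel
  rw [e]
  exact add_mem w1 w2

theorem FC.pza_finite [T2Space T] [RegularSpace T] {j₁ : ℤ} (hp : ∀ p, Q.PZA j₁ {p}) {C : Set T}
    (hC : C.Finite) : Q.PZA j₁ C := by
  intro j hj K hK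
  induction C, hC using Set.Finite.induction_on with
  | empty => exact fun _ => FC.pz_empty j K
  | @insert p s hp' hs ih =>
    intro hn
    rw [insert_eq] at hn ⊢
    refine FC.PZ.union isCompact_singleton hs.isCompact
      (hp p j hj K hK (nhdsSet_mono subset_union_left hn))
      (ih (nhdsSet_mono subset_union_right hn)) fun M _ _ => ?_
    rw [singleton_inter_eq_empty.2 hp']
    exact FC.pz_empty _ _

/-- a compact set with a finite-to-one map to `ℝ^m` -/
theorem FC.pza_dim [T2Space T] [RegularSpace T] {j₁ : ℤ} (hp : ∀ p, Q.PZA j₁ {p}) (m : ℕ)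
    {C : Set T} (hC : IsCompact C) {f : T → Fin m → ℝ} (hf : ContinuousOn f C)
    (hfin : ∀ v, (C ∩ f ⁻¹' {v}).Finite) : Q.PZA (j₁ - m) C := by
  induction m generalizing C with
  | zero =>
    have h : C.Finite := (hfin 0).subset fun x hx => ⟨hx, Subsingleton.elim (f x) 0⟩
    simpa using FC.pza_finite hp h
  | succ m ih =>
    intro j hj K hK hn
    have hg : ContinuousOn (fun x => f x 0) C := continuousOn_pi.1 hf 0
    have hc : ∀ S : Set ℝ, IsClosed S → IsCompact (C ∩ (fun x => f x 0) ⁻¹' S) := fun S hS =>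
      hC.of_isClosed_subset (hg.preimage_isClosed_of_isClosed hC.isClosed hS) inter_subset_left
    have hsl : ∀ t : ℝ, Q.PZA (j₁ - m) (C ∩ (fun x => f x 0) ⁻¹' {t}) := fun t =>
      ih (hc _ isClosed_singleton) (f := fun x => Fin.tail (f x))
        (continuousOn_pi.2 fun i => (continuousOn_pi.1 hf i.succ).mono inter_subset_left)
        fun v => (hfin (Fin.cons t v)).subset fun x hx => ⟨hx.1.1, by
          have h1 : f x 0 = t := hx.1.2
          have h2 : Fin.tail (f x) = v := hx.2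
          rw [mem_preimage, mem_singleton_iff, ← h1, ← h2, Fin.cons_self_tail]⟩
    push_cast at hj
    refine slice_ind hC hg (fun A => Q.PZ j A K) (FC.pz_empty j K) (fun A A' h1 h2 => h2.mono h1)
      (fun t => ?_) fun t t' _ h1 h2 => ?_
    · obtain ⟨K', h1, h2, h3⟩ := hsl t j (by omega) K hK (nhdsSet_mono inter_subset_left hn)
      exact ⟨interior K', isOpen_interior, subset_interior_iff_mem_nhdsSet.2 h2, K', h1,
        subset_interior_iff_mem_nhdsSet.1 Subset.rfl, h3⟩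
    · have e : C ∩ (fun x => f x 0) ⁻¹' Iic t ∩ (C ∩ (fun x => f x 0) ⁻¹' Icc t t') =
          C ∩ (fun x => f x 0) ⁻¹' {t} := by
        ext x
        simp only [mem_inter_iff, mem_preimage, mem_Iic, mem_Icc, mem_singleton_iff]
        exact ⟨fun h => ⟨h.1.1, le_antisymm h.1.2 h.2.2.1⟩, fun h =>
          ⟨⟨h.1, h.2.le⟩, h.1, h.2.ge, by rwa [h.2]⟩⟩
      refine (FC.PZ.union (hc _ isClosed_Iic) (hc _ isClosed_Icc) h1 h2 fun M hM hM' => ?_).mono
        fun x hx => ?_
      · rw [e] at hM' ⊢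
        exact hsl t (j + 1) (by omega) M hM hM'
      · exact (le_total (f x 0) t).imp (fun h => ⟨hx.1, h⟩) fun h => ⟨hx.1, h, hx.2⟩

end Pool.Agent.PWD.TI
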