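import Pool.Agent.P.MP_65ad7c_ag.DTS

open Set Filter Topology

noncomputable section
namespace Pool.Agent.PWD.TI

variable {T : Type} [TopologicalSpace T] {V : Type} [AddCommGroup V] {Q : FC T V}

/-- cocycles supported in `K'` bound with support in `K` -/
def dte_Bd (Q : FC T V) (n : ℤ) (K' K : Set T) : Prop :=
  ∀ a ∈ Q.G n, a ∈ Q.van K'ᶜ → Q.d a ∈ Q.van univ →
    ∃ c ∈ Q.G (n - 1), c ∈ Q.van Kᶜ ∧ a - Q.d c ∈ Q.van univ

theorem dte_mono {n : ℤ} {K' K'' K : Set T} (h : dte_Bd Q n K' K) (e : K'' ⊆ K') :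
    dte_Bd Q n K'' K := fun a ha h1 h2 => h a ha (FC.van_anti (compl_subset_compl.2 e) h1) h2

theorem dte_seq {T : Type} [MetricSpace T] {Q : FC T V} {j₀ : ℤ} {C : Set T}
    (h : Q.PZA j₀ C) {j : ℤ} (hj : j < j₀) : ∃ K : ℕ → Set T, (∀ i, IsClosed (K i)) ∧
      (∀ i, C ⊆ K i) ∧ (∀ i, K (i + 1) ⊆ K i) ∧
      (∀ i : ℕ, K (i + 1) ⊆ Metric.cthickening (1 / ((i : ℝ) + 1)) C) ∧
      (∀ i, dte_Bd Q j (K (i + 1)) (K i)) ∧ ∀ i, dte_Bd Q (j - 1) (K (i + 1)) (K i) := by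
  have step : ∀ (i : ℕ) (K : {K : Set T // IsClosed K ∧ K ∈ 𝓝ˢ C}),
      ∃ K' : {K : Set T // IsClosed K ∧ K ∈ 𝓝ˢ C}, K'.1 ⊆ K.1 ∧
        K'.1 ⊆ Metric.cthickening (1 / ((i : ℝ) + 1)) C ∧ dte_Bd Q j K'.1 K.1 ∧
        dte_Bd Q (j - 1) K'.1 K.1 := by
    intro i K
    obtain ⟨K1, c1, n1, b1⟩ := h j hj K.1 K.2.1 K.2.2
    obtain ⟨K2, c2, n2, b2⟩ := h (j - 1) (by omega) K.1 K.2.1 K.2.2
    refine ⟨⟨(K1 ∩ K2) ∩ (K.1 ∩ Metric.cthickening (1 / ((i : ℝ) + 1)) C),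
      (c1.inter c2).inter (K.2.1.inter Metric.isClosed_cthickening),
      inter_mem (inter_mem n1 n2) (inter_mem K.2.2
        (Metric.cthickening_mem_nhdsSet C (by positivity)))⟩,
      fun x hx => hx.2.1, fun x hx => hx.2.2, dte_mono b1 fun x hx => hx.1.1,
      dte_mono b2 fun x hx => hx.1.2⟩
  choose f hf using step
  let K : ℕ → {K : Set T // IsClosed K ∧ K ∈ 𝓝ˢ C} :=
    fun n => Nat.rec ⟨univ, isClosed_univ, univ_mem⟩ (fun i K => f i K) n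
  exact ⟨fun i => (K i).1, fun i => (K i).2.1, fun i => subset_of_mem_nhdsSet (K i).2.2,
    fun i => (hf i (K i)).1, fun i => (hf i (K i)).2.1, fun i => (hf i (K i)).2.2.1,
    fun i => (hf i (K i)).2.2.2⟩

/-- pro-zero implies zero -/
theorem FC.PZA.zs {T : Type} [MetricSpace T] {Q : FC T V} {j₀ : ℤ} {C : Set T} (hC : IsCompact C)
    (h : Q.PZA j₀ C) {j : ℤ} (hj : j < j₀) : Q.Zs j C := by
  obtain ⟨K, hc, hs, hm, ht, b1, b2⟩ := dte_seq h hj
  have anti : Antitone K := antitone_nat_of_succ_le hm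
  intro a ha h1 h2
  choose β hβ1 hβ2 hβ3 using fun i =>
    b1 i a ha (FC.van_anti (compl_subset_compl.2 (hs (i + 1))) h1) h2
  have hγ : ∀ i, ∃ c ∈ Q.G (j - 1 - 1), c ∈ Q.van (K i)ᶜ ∧
      β (i + 1) - β (i + 2) - Q.d c ∈ Q.van univ := fun i =>
    b2 i _ (sub_mem (hβ1 _) (hβ1 _))
      (sub_mem (hβ2 _) (FC.van_anti (compl_subset_compl.2 (hm (i + 1))) (hβ2 _))) (by
        have := sub_mem (hβ3 (i + 2)) (hβ3 (i + 1))
        rwa [show a - Q.d (β (i + 2)) - (a - Q.d (β (i + 1))) = Q.d (β (i + 1) - β (i + 2)) by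
          rw [map_sub]; abel] at this)
  choose γ hγ1 hγ2 hγ3 using hγ
  have hle : ∀ M M', M ≤ M' → ∑ i ∈ Finset.range M', γ i - ∑ i ∈ Finset.range M, γ i ∈
      Q.van (K M)ᶜ := by
    intro M M' e
    rw [← Finset.sum_Ico_eq_sub _ e]
    exact sum_mem fun i hi =>
      FC.van_anti (compl_subset_compl.2 (anti (Finset.mem_Ico.1 hi).1)) (hγ2 i)
  obtain ⟨g, hg1, hg2⟩ := Q.glue (j - 1 - 1) ℕ (fun M => (K M)ᶜ)
    (fun M => ∑ i ∈ Finset.range M, γ i) (fun M => (hc M).isOpen_compl)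
    (fun M => sum_mem fun i _ => hγ1 i) (fun M M' x hx => by
      rcases le_total M M' with e | e
      · simpa using (Q.z x).neg_mem (FC.mem_van.1 (hle M M' e) x hx.1)
      · exact FC.mem_van.1 (hle M' M e) x hx.2)
  have tel : ∀ M, β 1 - β (M + 1) - Q.d (∑ i ∈ Finset.range M, γ i) ∈ Q.van univ := by
    intro M
    induction M with
    | zero => simp
    | succ M ih =>
      have := add_mem ih (hγ3 M)
      rwa [show β 1 - β (M + 1) - Q.d (∑ i ∈ Finset.range M, γ i) +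
          (β (M + 1) - β (M + 2) - Q.d (γ M)) =
          β 1 - β (M + 1 + 1) - Q.d (∑ i ∈ Finset.range (M + 1), γ i) by
        rw [Finset.sum_range_succ, map_add]; abel] at this
  refine ⟨β 1 - Q.d g, sub_mem (hβ1 1) (FC.dG' hg1), FC.mem_van.2 fun x hx => ?_, ?_⟩
  · obtain ⟨M, hM⟩ : ∃ M, x ∉ K M := by
      by_contra h0
      push Not at h0
      refine hx (hC.isClosed.closure_subset ?_)
      rw [Metric.closure_eq_iInter_cthickening]
      refine mem_iInter₂.2 fun δ hδ => ?_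
      obtain ⟨i, hi⟩ := exists_nat_one_div_lt hδ
      exact Metric.cthickening_mono hi.le C (ht i (h0 (i + 1)))
    have := sub_mem (add_mem (FC.mem_van.1 (tel M) x trivial)
      (FC.mem_van.1 (hβ2 (M + 1)) x fun h' => hM (hm M h'))) (Q.dz x _ (hg2 M x hM))
    rwa [show β 1 - β (M + 1) - Q.d (∑ i ∈ Finset.range M, γ i) + β (M + 1) -
        Q.d (g - ∑ i ∈ Finset.range M, γ i) = β 1 - Q.d g by rw [map_sub]; abel] at this
  · rw [map_sub, Q.dd, sub_zero]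
    exact hβ3 1

end Pool.Agent.PWD.TI
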