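import Pool.Agent.P.MP_65ad7c_ag.DTD
import Pool.Agent.P.MP_65ad7c_ag.DTE

open Set Filter Topology

noncomputable section
namespace Pool.Agent.PWD.TI

variable {T : Type} [TopologicalSpace T] {V : Type} [AddCommGroup V] {Q : FC T V}

theorem sphere_proj_finite {m : ℕ} (c : Fin (m + 1) → ℝ) (ρ : ℝ) (v : Fin m → ℝ) :
    {w : Fin (m + 1) → ℝ | ∑ i, (w i - c i) ^ 2 = ρ ∧ Fin.tail w = v}.Finite := by
  obtain ⟨s, hs⟩ : ∃ s, s = ρ - ∑ i : Fin m, (v i - c i.succ) ^ 2 := ⟨_, rfl⟩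
  refine ((toFinite ({c 0 + √s, c 0 - √s} : Set ℝ)).image
    fun t => (Fin.cons t v : Fin (m + 1) → ℝ)).subset ?_
  rintro w ⟨h1, rfl⟩
  refine ⟨w 0, ?_, Fin.cons_self_tail w⟩
  rw [Fin.sum_univ_succ] at h1
  have h2 : (w 0 - c 0) ^ 2 = s := by
    rw [hs, ← h1]
    exact (add_sub_cancel_right _ _).symm
  rw [← h2, Real.sqrt_sq_eq_abs]
  rcases abs_cases (w 0 - c 0) with ⟨h, -⟩ | ⟨h, -⟩
  · exact Or.inl (by rw [h]; ring)
  · exact Or.inr (by rw [h]; show w 0 = _; ring)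

theorem dte2_zs_empty (j : ℤ) : Q.Zs j ∅ := fun a _ h _ =>
  ⟨0, zero_mem _, zero_mem _, by simpa using h⟩

theorem dte2_sphere {T : Type} [MetricSpace T] {Q : FC T V} {j₁ : ℤ} (hp : ∀ p, Q.PZA j₁ {p})
    {m : ℕ} {C : Set T} (hC : IsCompact C) {f : T → Fin m → ℝ} (hf : ContinuousOn f C)
    (hi : InjOn f C) {c : Fin m → ℝ} {ρ : ℝ} (hρ : 0 < ρ) (hq : ∀ y ∈ C, ∑ i, (f y i - c i) ^ 2 = ρ)
    {j : ℤ} (hj : j < j₁ - m) : Q.Zs (j + 1) C := by
  rcases m with _ | m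
  · obtain rfl : C = ∅ := eq_empty_of_forall_notMem fun y hy => hρ.ne (by simpa using hq y hy)
    exact dte2_zs_empty _
  · refine (FC.pza_dim hp m hC (f := fun y => Fin.tail (f y))
      (continuousOn_pi.2 fun i => continuousOn_pi.1 hf i.succ) fun v => ?_).zs hC
      (by push_cast at hj; omega)
    exact Finite.of_injOn (f := f) (fun y hy => And.intro (hq y hy.1) hy.2)
      (hi.mono inter_subset_left) (sphere_proj_finite c ρ v)

/-- the local form: costalks along a closed set of dimension `≤ m` -/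
theorem FC.cos_dim {T : Type} [MetricSpace T] [LocallyCompactSpace T] {Q : FC T V} {j₁ : ℤ}
    (hp : ∀ p, Q.PZA j₁ {p}) {m : ℕ} {O W : Set T} (hO : IsOpen O) (hW : IsOpen W) {x : T}
    (hx : x ∈ W) {f : T → Fin m → ℝ} (hf : ContinuousOn f (W \ O)) (hi : InjOn f (W \ O)) {j : ℤ}
    (hj : j < j₁ - m) : Q.Cos j O x := by
  intro a ha h0 hd
  by_cases hxO : x ∈ O
  · exact ⟨0, zero_mem _, zero_mem _, by simpa using FC.mem_van.1 h0 x hxO⟩
  obtain ⟨D, hD, hxD, hDW⟩ := exists_compact_subset (hW.inter (Q.opn (Q.d a))) ⟨hx, hd⟩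
  have hR : IsCompact (D \ O) := hD.diff hO
  have hRW : D \ O ⊆ W \ O := fun y hy => ⟨(hDW hy.1).1, hy.2⟩
  obtain ⟨q, hq⟩ : ∃ q : T → ℝ, q = fun y => ∑ i, (f y i - f x i) ^ 2 := ⟨_, rfl⟩
  have hqc : ContinuousOn q (D \ O) := by
    rw [hq]
    exact continuousOn_finsetSum _ fun i _ =>
      ((continuousOn_pi.1 (hf.mono hRW) i).sub continuousOn_const).pow 2
  have hqx : q x = 0 := by simp [hq]
  obtain ⟨ρ', hρ', h1⟩ := (hR.diff isOpen_interior : IsCompact ((D \ O) \ interior D)).exists_forall_le'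
    (hqc.mono sdiff_subset) (a := 0) fun y hy => by
      have h2 : 0 ≤ q y := by
        rw [hq]
        exact Finset.sum_nonneg fun i _ => sq_nonneg _
      refine h2.lt_of_ne fun h3 => hy.2 ?_
      rw [hq] at h3
      have h4 := (Finset.sum_eq_zero_iff_of_nonneg fun i _ => sq_nonneg _).1 h3.symm
      have h5 : f y = f x := funext fun i =>
        sub_eq_zero.1 (pow_eq_zero_iff two_ne_zero |>.1 (h4 i (Finset.mem_univ i)))
      rwa [hi (hRW hy.1) ⟨hx, hxO⟩ h5]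
  have hρ : 0 < ρ' / 2 := half_pos hρ'
  have hc : ∀ S : Set ℝ, IsClosed S → IsCompact ((D \ O) ∩ q ⁻¹' S) := fun S hS =>
    hR.of_isClosed_subset (hqc.preimage_isClosed_of_isClosed hR.isClosed hS) inter_subset_left
  have hC := hc _ (isClosed_Iic (a := ρ' / 2))
  have hC1 := hc _ (isClosed_singleton (x := ρ' / 2))
  have hC2 := hc _ (isClosed_Ici (a := ρ' / 2))
  obtain ⟨a1, ha1, e1, e2⟩ := FC.cut (isOpen_interior.sdiff hC2.isClosed : IsOpen (interior D \ _))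
    hC.isClosed.isOpen_compl ha (FC.van_anti (fun y hy => by
      by_contra h2
      have h3 : y ∈ D \ O := ⟨interior_subset hy.1.1, h2⟩
      rcases le_total (q y) (ρ' / 2) with h4 | h4
      · exact hy.2 ⟨h3, h4⟩
      · exact hy.1.2 ⟨h3, h4⟩) h0)
  have e3 : Q.d a1 ∈ Q.van ((D \ O) ∩ q ⁻¹' {ρ' / 2})ᶜ := FC.mem_van.2 fun y hy => by
    by_cases h2 : y ∈ (D \ O) ∩ q ⁻¹' Iic (ρ' / 2)
    · have h3 : q y < ρ' / 2 := lt_of_le_of_ne h2.2 fun h => hy ⟨h2.1, h⟩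
      have h4 : y ∈ interior D := by
        by_contra h
        linarith [h1 y ⟨h2.1, h⟩]
      have h5 := add_mem (Q.dz y _ (FC.mem_van.1 e1 y ⟨h4, fun h => h3.not_ge h.2⟩))
        (hDW h2.1.1).2
      simpa using h5
    · exact Q.dz y _ (FC.mem_van.1 e2 y h2)
  obtain ⟨β, hβ, b1, b2⟩ := dte2_sphere hp hC1 (hf.mono (inter_subset_left.trans hRW))
    (hi.mono (inter_subset_left.trans hRW)) (c := f x) hρ (fun y hy => by
      have := hy.2
      rwa [hq] at this) hj _ (Q.dG _ _ ha1) e3 (by rw [Q.dd]; exact zero_mem _)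
  rw [add_sub_cancel_right] at hβ
  have hfin : ∀ v, (((D \ O) ∩ q ⁻¹' Iic (ρ' / 2)) ∩ f ⁻¹' {v}).Finite := fun v =>
    Finite.of_injOn (f := f) (t := {v}) (fun y hy => hy.2)
      (hi.mono (inter_subset_left.trans (inter_subset_left.trans hRW))) (finite_singleton v)
  have hz : Q.Zs j ((D \ O) ∩ q ⁻¹' Iic (ρ' / 2)) :=
    (FC.pza_dim hp m hC (hf.mono (inter_subset_left.trans hRW)) hfin).zs hC hj
  have hs : ((D \ O) ∩ q ⁻¹' Iic (ρ' / 2))ᶜ ⊆ ((D \ O) ∩ q ⁻¹' {ρ' / 2})ᶜ :=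
    fun y hy h => hy ⟨h.1, le_of_eq h.2⟩
  obtain ⟨c, hc1, c1, c2⟩ := hz (a1 - β) (sub_mem ha1 hβ) (sub_mem e2 (FC.van_anti hs b1))
    (by rwa [map_sub])
  refine ⟨c, hc1, FC.van_anti (fun y hy h => h.1.2 hy) c1, ?_⟩
  have h6 := add_mem (sub_mem (FC.mem_van.1 c2 x trivial)
    (FC.mem_van.1 e1 x ⟨hxD, fun h => by
      have h7 : ρ' / 2 ≤ q x := h.2
      linarith⟩)) (FC.mem_van.1 b1 x fun h => by
      have h7 : q x = ρ' / 2 := h.2
      linarith)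
  rwa [show a1 - β - Q.d c - (a1 - a) + β = a - Q.d c by abel] at h6

end Pool.Agent.PWD.TI
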