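import Pool.Agent.P.MP_65ad7c_ag.DTA

open Set Filter Topology

noncomputable section
namespace Pool.Agent.PWD.TI

variable {T : Type} [TopologicalSpace T] {V : Type} [AddCommGroup V] {Q : FC T V}

theorem dth_fix {A : Set T} {a b c : V} (h : a - Q.d c ∈ Q.van A) (h' : b - c ∈ Q.van A) :
    a - Q.d b ∈ Q.van A := by
  have e : a - Q.d b = (a - Q.d c) - Q.d (b - c) := by
    rw [map_sub]; abel
  rw [e]
  exact (Q.van A).sub_mem h (FC.d_van h')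

theorem dth_neg {A : Set T} {b c : V} (h' : b - c ∈ Q.van A) : c - b ∈ Q.van A := by
  have := (Q.van A).neg_mem h'
  rwa [neg_sub] at this

theorem dth_step {n : ℤ} {O : Set T} (hO : IsOpen O) (h : ∀ x ∈ O, Q.Ex n {x})
    (ih : ∀ O', IsOpen O' → O' ⊆ O → Q.Ex (n - 1) O') : Q.Ex n O := by
  intro a ha hda
  let P : Type := {p : Set T × V //
    IsOpen p.1 ∧ p.1 ⊆ O ∧ p.2 ∈ Q.G (n - 1) ∧ a - Q.d p.2 ∈ Q.van p.1}
  let r : P → P → Prop := fun p q => p.1.1 ⊆ q.1.1 ∧ p.1.2 - q.1.2 ∈ Q.van p.1.1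
  have htr : ∀ {p q s : P}, r p q → r q s → r p s := by
    intro p q s h1 h2
    refine ⟨h1.1.trans h2.1, ?_⟩
    have := (Q.van p.1.1).add_mem h1.2 (FC.van_anti h1.1 h2.2)
    rwa [sub_add_sub_cancel] at this
  have hch : ∀ c : Set P, IsChain r c → ∃ ub, ∀ p ∈ c, r p ub := by
    intro c hc
    obtain ⟨b, hb, hb'⟩ := Q.glue (n - 1) c (fun i => i.1.1.1) (fun i => i.1.1.2)
      (fun i => i.1.2.1) (fun i => i.1.2.2.2.1) (by
        intro i j x hx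
        by_cases e : i.1 = j.1
        · rw [e, sub_self]; exact (Q.z x).zero_mem
        · rcases hc i.2 j.2 e with h1 | h1
          · exact FC.mem_van.1 h1.2 x hx.1
          · exact FC.mem_van.1 (dth_neg h1.2) x hx.2)
    refine ⟨⟨(⋃ i : c, i.1.1.1, b), isOpen_iUnion fun i => i.1.2.1,
      iUnion_subset fun i => i.1.2.2.1, hb, ?_⟩, ?_⟩
    · refine FC.mem_van.2 fun x hx => ?_
      obtain ⟨i, hi⟩ := mem_iUnion.1 hx
      exact FC.mem_van.1 (dth_fix i.1.2.2.2.2 (FC.mem_van.2 (hb' i))) x hi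
    · intro p hp
      exact ⟨subset_iUnion (fun i : c => i.1.1.1) ⟨p, hp⟩, dth_neg (FC.mem_van.2 (hb' ⟨p, hp⟩))⟩
  obtain ⟨⟨⟨W, c⟩, hW, hWO, hc, hac⟩, hm⟩ := exists_maximal_of_chains_bounded hch htr
  refine ⟨c, hc, FC.van_anti (fun x hx => ?_) hac⟩
  obtain ⟨cx, hcx, hx'⟩ := h x hx a ha (FC.van_single.2 (FC.mem_van.1 hda x hx))
  have hWx : IsOpen (O ∩ {y | a - Q.d cx ∈ Q.z y}) := hO.inter (Q.opn _)
  have hax : a - Q.d cx ∈ Q.van (O ∩ {y | a - Q.d cx ∈ Q.z y}) :=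
    FC.van_anti inter_subset_right (FC.van_self _)
  obtain ⟨g, hg, hg'⟩ := ih (W ∩ (O ∩ {y | a - Q.d cx ∈ Q.z y})) (hW.inter hWx)
    (inter_subset_left.trans hWO) (c - cx) ((Q.G _).sub_mem hc hcx) (by
      have e : Q.d (c - cx) = (a - Q.d cx) - (a - Q.d c) := by rw [map_sub]; abel
      rw [e]
      exact (Q.van _).sub_mem (FC.van_anti inter_subset_right hax)
        (FC.van_anti inter_subset_left hac))
  obtain ⟨b, hb, b1, b2⟩ := FC.glue2 hW hWx hc ((Q.G _).add_mem hcx (FC.dG' hg)) (by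
    rw [← sub_sub]; exact hg')
  have hq : a - Q.d b ∈ Q.van (W ∪ (O ∩ {y | a - Q.d cx ∈ Q.z y})) := by
    refine FC.van_union.2 ⟨dth_fix hac b1, dth_fix ?_ b2⟩
    rw [map_add, Q.dd, add_zero]
    exact hax
  have := hm ⟨(W ∪ (O ∩ {y | a - Q.d cx ∈ Q.z y}), b), hW.union hWx,
    union_subset hWO inter_subset_left, hb, hq⟩ ⟨subset_union_left, dth_neg b1⟩
  exact this.1 (Or.inr ⟨hx, FC.van_single.1 hx'⟩)

/-- locally exact in degrees `≤ a` implies exact -/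
theorem FC.Ex.of_loc {O : Set T} (hO : IsOpen O) {a : ℤ} (h : ∀ n ≤ a, ∀ x ∈ O, Q.Ex n {x}) :
    ∀ n ≤ a, Q.Ex n O := by
  have key : ∀ k : ℕ, ∀ n ≤ a, n < k → ∀ O', IsOpen O' → O' ⊆ O → Q.Ex n O' := by
    intro k
    induction k with
    | zero =>
      intro n _ hn O' _ _ s hs _
      refine ⟨0, (Q.G _).zero_mem, ?_⟩
      rw [Q.neg n (by simpa using hn) s hs, map_zero, sub_zero]
      exact (Q.van _).zero_mem
    | succ k ih =>
      intro n hna hn O' hO' hs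
      refine dth_step hO' (fun x hx => h n hna x (hs hx)) fun O'' hO'' hs' => ?_
      exact ih (n - 1) (by omega) (by push_cast at hn; omega) O'' hO'' (hs'.trans hs)
  intro n hn
  exact key (n.toNat + 1) n hn (by push_cast; omega) O hO subset_rfl

theorem FC.cos_iff_sub {n : ℤ} {O : Set T} (hO : IsOpen O) {x : T} :
    Q.Cos n O x ↔ (Q.sub O hO).Ex n {x} := by
  constructor
  · intro h a ha hd
    obtain ⟨c, hc, hc', h'⟩ := h a ha.1 ha.2 (FC.van_single.1 hd)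
    exact ⟨c, ⟨hc, hc'⟩, FC.van_single.2 h'⟩
  · intro h a ha ha' hd
    obtain ⟨c, hc, h'⟩ := h a ⟨ha, ha'⟩ (FC.van_single.2 hd)
    exact ⟨c, hc.1, hc.2, FC.van_single.1 h'⟩

theorem FC.cos_of_mem {n : ℤ} {O : Set T} {x : T} (hx : x ∈ O) : Q.Cos n O x := by
  intro a _ ha _
  refine ⟨0, (Q.G _).zero_mem, (Q.van _).zero_mem, ?_⟩
  rw [map_zero, sub_zero]
  exact FC.mem_van.1 ha x hx

theorem FC.Cos.loc {n : ℤ} {O W : Set T} {x : T} (h : Q.Cos n O x) (hO : IsOpen O)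
    (hW : IsOpen W) (hx : x ∈ W) {a : V} (ha : a ∈ Q.G n) (h0 : a ∈ Q.van (W ∩ O))
    (hd : Q.d a ∈ Q.z x) : ∃ c ∈ Q.G (n - 1), c ∈ Q.van O ∧ a - Q.d c ∈ Q.z x := by
  obtain ⟨b, hb, b1, b2⟩ := FC.cut hW hO ha h0
  have b3 : b - a ∈ Q.z x := FC.mem_van.1 b1 x hx
  obtain ⟨c, hc, c1, c2⟩ := h b hb b2 (by
    have e : Q.d b = Q.d a + Q.d (b - a) := by rw [map_sub]; abel
    rw [e]
    exact (Q.z x).add_mem hd (Q.dz x _ b3))
  refine ⟨c, hc, c1, ?_⟩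
  have e : a - Q.d c = (b - Q.d c) - (b - a) := by abel
  rw [e]
  exact (Q.z x).sub_mem c2 b3

theorem FC.Cos.congr {n : ℤ} {O O' W : Set T} {x : T} (h : Q.Cos n O x) (hO : IsOpen O)
    (hO' : IsOpen O') (hW : IsOpen W) (hx : x ∈ W) (he : W ∩ O = W ∩ O') : Q.Cos n O' x := by
  intro a ha ha' hd
  obtain ⟨c, hc, c1, c2⟩ := h.loc hO hW hx ha
    (by rw [he]; exact FC.van_anti inter_subset_right ha') hd
  obtain ⟨b, hb, b1, b2⟩ := FC.cut hW hO' hc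
    (by rw [← he]; exact FC.van_anti inter_subset_right c1)
  refine ⟨b, hb, b2, ?_⟩
  exact FC.van_single.1
    (dth_fix (FC.van_single.2 c2) (FC.van_single.2 (FC.mem_van.1 b1 x hx)))

theorem FC.Cos.add {a : ℤ} {O' O'' W : Set T} {x : T} (hO' : IsOpen O') (hO'' : IsOpen O'')
    (hs : O' ⊆ O'') (hW : IsOpen W) (hx : x ∈ W) (h1 : ∀ y ∈ W ∩ O'', ∀ n ≤ a, Q.Cos n O' y)
    (h2 : Q.Cos a O'' x) : Q.Cos a O' x := by
  intro s hsG hsv hd
  have hW2 : IsOpen (W ∩ {y | Q.d s ∈ Q.z y}) := hW.inter (Q.opn _)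
  have hE : (Q.sub O' hO').Ex a ((W ∩ {y | Q.d s ∈ Q.z y}) ∩ O'') :=
    FC.Ex.of_loc (hW2.inter hO'')
      (fun n hn y hy => (FC.cos_iff_sub hO').1 (h1 y ⟨hy.1.1, hy.2⟩ n hn)) a le_rfl
  obtain ⟨β, hβ, hβ'⟩ := hE s ⟨hsG, hsv⟩ (FC.mem_van.2 fun y hy => hy.1.2)
  have hβ2 : s - Q.d β ∈ Q.van ((W ∩ {y | Q.d s ∈ Q.z y}) ∩ O'') :=
    FC.mem_van.2 fun y hy => FC.mem_van.1 hβ' y hy
  obtain ⟨c, hc, c1, c2⟩ := h2.loc hO'' hW2 ⟨hx, hd⟩ ((Q.G a).sub_mem hsG (FC.dG' hβ.1)) hβ2 (by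
    rw [map_sub, Q.dd, sub_zero]; exact hd)
  refine ⟨β + c, (Q.G _).add_mem hβ.1 hc, (Q.van _).add_mem hβ.2 (FC.van_anti hs c1), ?_⟩
  rw [map_add, ← sub_sub]
  exact c2

end Pool.Agent.PWD.TI
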