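import Pool.Agent.P.MP_65ad7c_ag.DTC
import Pool.Agent.P.MP_65ad7c_ag.DTE2
import Pool.Agent.P.MP_65ad7c_ag.DTH

open Set Filter Topology

noncomputable section
namespace Pool.Agent.PWD.TI

variable {T : Type} [TopologicalSpace T] {V : Type} [AddCommGroup V] {Q : FC T V}

/-- sections vanishing on `A`, seen on a chart `ψ` of the complement of `A` in `W` -/
def dtfPull (Q : FC T V) {S : Type} [TopologicalSpace S] {ψ : S → T} (hψ : IsInducing ψ)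
    {A W : Set T} (hA : IsOpen A) (hW : IsOpen W) (h1 : ∀ t, ψ t ∈ W)
    (h2 : ∀ y ∈ W, y ∉ A → y ∈ range ψ) : FC S V where
  d := Q.d
  G n := Q.G n ⊓ Q.van A
  z t := Q.z (ψ t)
  dd := Q.dd
  dG n a ha := ⟨Q.dG n a ha.1, FC.d_van ha.2⟩
  dz t := Q.dz (ψ t)
  opn a := (Q.opn a).preimage hψ.continuous
  neg n hn a ha := Q.neg n hn a ha.1
  glue n ι O a hO ha hc := by
    choose P hP hPO using fun i => hψ.isOpen_iff.1 (hO i)
    obtain ⟨b, hb, h'⟩ := (Q.sub A hA).glue n ι (fun i => P i ∩ W) a (fun i => (hP i).inter hW) ha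
      fun i j y hy => by
        by_cases hy' : y ∈ A
        · exact (Q.z y).sub_mem (FC.mem_van.1 (ha i).2 y hy') (FC.mem_van.1 (ha j).2 y hy')
        · obtain ⟨t, rfl⟩ := h2 y hy.1.2 hy'
          exact hc i j t ⟨hPO i ▸ hy.1.1, hPO j ▸ hy.2.1⟩
    exact ⟨b, hb, fun i t ht => h' i (ψ t) ⟨(hPO i).ge ht, h1 t⟩⟩

/-- costalks along a subset of dimension `≤ m` of a stratum -/
theorem SAX.cos_piece {d : ℕ} {U : ℕ → Set T} (h : SAX Q d U) {c : ℕ} {x : T}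
    (hx : x ∈ U (c + 1) \ U c) {O W : Set T} (hO : IsOpen O) (hW : IsOpen W) (hxW : x ∈ W) {m : ℕ}
    {f : T → Fin m → ℝ} (hf : ContinuousOn f (W \ O)) (hi : InjOn f (W \ O)) {j : ℤ}
    (hj : j < eC c + (2 * (d - c) : ℕ) - m) : Q.Cos j (O ∪ U c) x := by
  choose W' B hW' hxW' hB hS using h.lc c x hx
  obtain ⟨W₁, ψ, hW₁, hx₁, hs, hψ, hr⟩ := h.chart c x hx
    (W ∩ U (c + 1) ∩ ⋂ n ∈ Finset.Ico (eC c) (eC c + (2 * (d - c) : ℕ)), W' n)
    ((hW.inter (h.opn _)).inter (isOpen_biInter_finset fun n _ => hW' n))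
    ⟨⟨hxW, hx.1⟩, mem_iInter₂.2 fun n _ => hxW' n⟩
  have h0 : ∀ t, ψ t ∈ W₁ ∩ (U (c + 1) \ U c) := fun t => hr.le (mem_range_self t)
  have h2 : ∀ y ∈ W₁, y ∉ U c → y ∈ range ψ := fun y hy hy' => hr.ge ⟨hy, (hs hy).1.2, hy'⟩
  have h3 : ∀ n, eC c ≤ n → n < eC c + (2 * (d - c) : ℕ) → ∀ t, ψ t ∈ W' n := fun n h1 h2 t =>
    mem_iInter₂.1 (hs (h0 t).1).2 n (Finset.mem_Ico.2 ⟨h1, h2⟩)
  have hL : (dtfPull Q hψ.isInducing (h.opn c) hW₁ (fun t => (h0 t).1) h2).LC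
      (eC c + (2 * (d - c) : ℕ)) fun n => if eC c ≤ n then B n else ⊥ := by
    refine ⟨fun n _ b hb => ?_, fun n hn b hb => ?_, fun n hn t a ha hd => ?_,
      fun n hn t b hb e he hd => ?_⟩
    · split_ifs at hb with h1
      · exact ⟨(hB n b hb).1, (hB n b hb).2.1⟩
      · rw [AddSubgroup.mem_bot.1 hb]
        exact zero_mem _
    · split_ifs at hb with h1
      · exact FC.mem_van.2 fun t _ => FC.mem_van.1 (hB n b hb).2.2 _ (h3 n h1 hn t)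
      · rw [AddSubgroup.mem_bot.1 hb, map_zero]
        exact zero_mem _
    · split_ifs with h1
      · obtain ⟨b, hb, e, he, he', h4⟩ := (hS n (ψ t) ⟨h3 n h1 hn t, (h0 t).2⟩).1 a ha.1 ha.2 hd
        exact ⟨b, hb, e, ⟨he, he'⟩, h4⟩
      · obtain ⟨e, he, he', h4⟩ := h.cos c (ψ t) (h0 t).2 n (not_le.1 h1) a ha.1 ha.2 hd
        exact ⟨0, zero_mem _, e, ⟨he, he'⟩, by rw [sub_zero]; exact h4⟩
    · split_ifs at hb with h1
      · exact FC.mem_van.2 fun s _ => FC.mem_van.1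
          ((hS n (ψ t) ⟨h3 n h1 hn t, (h0 t).2⟩).2 b hb e he.1 he.2 hd) _ (h3 n h1 hn s)
      · rw [AddSubgroup.mem_bot.1 hb]
        exact zero_mem _
  obtain ⟨t₀, rfl⟩ := h2 x hx₁ hx.2
  have hm : MapsTo ψ (univ \ ψ ⁻¹' O) (W \ O) := fun t ht => ⟨(hs (h0 t).1).1.1, ht.2⟩
  have hC := FC.cos_dim (hL.pza_point (fun n hn => if_neg (not_le.2 hn)) le_rfl)
    (hO.preimage hψ.continuous) isOpen_univ (mem_univ t₀)
    (hf.comp hψ.continuous.continuousOn hm) (hi.comp hψ.injective.injOn hm) hj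
  intro a ha h4 hd
  obtain ⟨h5, h6⟩ := FC.van_union.1 h4
  obtain ⟨e, he, he', h7⟩ := hC a ⟨ha, h6⟩ (FC.mem_van.2 fun t ht => FC.mem_van.1 h5 _ ht) hd
  obtain ⟨b, hb, h8, h9⟩ := FC.cut hW₁ (hO.union (h.opn c)) he.1 (FC.mem_van.2 fun y hy => by
    by_cases hy' : y ∈ U c
    · exact FC.mem_van.1 he.2 y hy'
    · obtain ⟨t, rfl⟩ := h2 y hy.1 hy'
      exact FC.mem_van.1 he' t (hy.2.resolve_right hy'))
  refine ⟨b, hb, h9, ?_⟩
  have := (Q.z _).sub_mem (show a - Q.d e ∈ Q.z (ψ t₀) from h7)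
    (Q.dz _ _ (FC.mem_van.1 h8 _ hx₁))
  convert this using 1
  rw [map_sub]
  abel

end Pool.Agent.PWD.TI
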