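import Pool.Agent.P.MP_65ad7c_ag.DTF

open Set Filter Topology

noncomputable section
namespace Pool.Agent.PWD.TI

variable {T : Type} [TopologicalSpace T] {V : Type} [AddCommGroup V] {Q : FC T V}

theorem dtg_ld {d : ℕ} {U : ℕ → Set T} (h : SAX Q d U) (c : ℕ) :
    LD (2 * (d - c)) (U (c + 1) \ U c) := by
  intro x hx
  obtain ⟨W, ψ, hW, hxW, -, hψ, hr⟩ := h.chart c x hx univ isOpen_univ (mem_univ x)
  have key : ∀ y ∈ W ∩ (U (c + 1) \ U c), ψ (Function.invFun ψ y) = y := fun y hy =>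
    Function.invFun_eq (show y ∈ range ψ from hr ▸ hy)
  refine ⟨W, Function.invFun ψ, hW, hxW, ?_, fun y hy y' hy' e => ?_⟩
  · exact hψ.isInducing.continuousOn_iff.2 (continuousOn_id.congr key)
  · rw [← key y hy, e, key y' hy']

theorem SAX.cos_low {d : ℕ} {U : ℕ → Set T} (h : SAX Q d U) {c : ℕ} {x : T}
    (hx : x ∈ U (c + 1) \ U c) {O : Set T} (hO : IsOpen O) {j : ℤ} (hj : j < eC c) :
    Q.Cos j (O ∪ U c) x := by
  obtain ⟨W, f, hW, hxW, hf, hi⟩ := dtg_ld h c x hx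
  have hs : (W ∩ U (c + 1)) \ (O ∪ U c) ⊆ W ∩ (U (c + 1) \ U c) := fun y hy =>
    ⟨hy.1.1, hy.1.2, fun h' => hy.2 (Or.inr h')⟩
  have := h.cos_piece hx (hO.union (h.opn c)) (hW.inter (h.opn (c + 1))) ⟨hxW, hx.1⟩ (hf.mono hs)
    (hi.mono hs) (j := j) (by rwa [add_sub_cancel_right])
  rwa [union_assoc, union_self] at this

/-- COS: the cosupport condition along any locally closed set of dimension `≤ 2 (d - k)` -/
theorem SAX.cos_dim {d : ℕ} {U : ℕ → Set T} (h : SAX Q d U) {k : ℕ} (hk : 1 ≤ k) (hkd : k ≤ d)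
    {O O' : Set T} (hO : IsOpen O) (hO' : IsOpen O') (hd : LD (2 * (d - k)) (O' \ O)) {x : T}
    (hx : x ∈ O') {j : ℤ} (hj : j ≤ k) : Q.Cos j O x := by
  have key : ∀ t i, i + t = d + 1 → Q.Cos j (O ∪ U i) x := by
    intro t
    induction t with
    | zero =>
      intro i hi
      refine FC.cos_of_mem (Or.inr ?_)
      rw [show i = d + 1 from hi, h.top]; trivial
    | succ t ih =>
      intro i hi
      refine FC.Cos.add (hO.union (h.opn i)) (hO.union (h.opn (i + 1)))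
        (union_subset_union_right _ (h.mono (Nat.le_succ i))) hO' hx (fun y hy n hn => ?_)
        (ih (i + 1) (by omega))
      by_cases hm : y ∈ O ∪ U i
      · exact FC.cos_of_mem hm
      have hyO : y ∉ O := fun h' => hm (Or.inl h')
      have hyU : y ∈ U (i + 1) \ U i := ⟨hy.2.resolve_left hyO, fun h' => hm (Or.inr h')⟩
      rcases le_or_gt k i with hki | hki
      · refine h.cos_low hyU hO ?_
        rw [eC, if_neg (by omega)]
        omega
      · obtain ⟨W, f, hW, hyW, hf, hi'⟩ := hd y ⟨hy.1, hyO⟩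
        have hs : (W ∩ O') \ O ⊆ W ∩ (O' \ O) := fun w hw => ⟨hw.1.1, hw.1.2, hw.2⟩
        refine h.cos_piece hyU hO (hW.inter hO') ⟨hyW, hy.1⟩ (hf.mono hs) (hi'.mono hs) ?_
        unfold eC
        split_ifs <;> omega
  have := key (d + 1) 0 (by omega)
  rwa [h.zero, union_empty] at this

theorem SAX.ld {d : ℕ} {U : ℕ → Set T} (h : SAX Q d U) (c : ℕ) :
    LD (2 * (d - c)) (U (c + 1) \ U c) := dtg_ld h c

theorem LD.mono {m : ℕ} {R R' : Set T} (h : LD m R) (hs : R' ⊆ R) : LD m R' := by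
  intro x hx
  obtain ⟨W, f, hW, hxW, hf, hi⟩ := h x (hs hx)
  exact ⟨W, f, hW, hxW, hf.mono (inter_subset_inter_right _ hs),
    hi.mono (inter_subset_inter_right _ hs)⟩

theorem LD.image {T' : Type} [TopologicalSpace T'] {m : ℕ} {R : Set T} (h : LD m R)
    (g : T ≃ₜ T') : LD m (g '' R) := by
  rintro _ ⟨x, hx, rfl⟩
  obtain ⟨W, f, hW, hxW, hf, hi⟩ := h x hx
  have hm : MapsTo g.symm (g.symm ⁻¹' W ∩ g '' R) (W ∩ R) := by
    rintro _ ⟨h1, y, hy, rfl⟩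
    exact ⟨h1, by simpa using hy⟩
  exact ⟨g.symm ⁻¹' W, f ∘ g.symm, hW.preimage g.symm.continuous, by simpa using hxW,
    hf.comp g.symm.continuous.continuousOn hm, hi.comp g.symm.injective.injOn hm⟩

theorem LD.of_loc {m : ℕ} {R : Set T}
    (h : ∀ x ∈ R, ∃ W R', IsOpen W ∧ x ∈ W ∧ LD m R' ∧ W ∩ R ⊆ R') : LD m R := by
  intro x hx
  obtain ⟨W, R', hW, hxW, hR, hs⟩ := h x hx
  obtain ⟨W', f, hW', hxW', hf, hi⟩ := hR x (hs ⟨hxW, hx⟩)
  have hs' : W' ∩ W ∩ R ⊆ W' ∩ R' := fun y hy => ⟨hy.1.1, hs ⟨hy.1.2, hy.2⟩⟩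
  exact ⟨W' ∩ W, f, hW'.inter hW, ⟨hxW', hxW⟩, hf.mono hs', hi.mono hs'⟩

end Pool.Agent.PWD.TI
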