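import Pool.Agent.P.MP_65ad7c_ag.DDefs

/-! Elementary properties of complexes of sheaves; injective sheaves are flabby. -/

open Set CategoryTheory TopologicalSpace Opposite

noncomputable section
namespace Pool.Agent.PWD

variable {Y : Type} [TopologicalSpace Y] {I : Cx Y} {n : ℕ} {W W' W'' : Opens Y}

theorem vf_rs_rs (h : W' ≤ W) (h' : W'' ≤ W') (s : Sec I n W) :
    rs h' (rs h s) = rs (h'.trans h) s := by
  unfold rs
  rw [← ModuleCat.comp_apply, ← Functor.map_comp]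
  rfl

theorem vf_rs_self (s : Sec I n W) : rs le_rfl s = s := by
  unfold rs
  rw [show (homOfLE (le_rfl : W ≤ W)).op = 𝟙 _ from rfl, CategoryTheory.Functor.map_id]
  rfl

theorem vf_rs_dd (h : W' ≤ W) (k n : ℕ) (s : Sec I k W) :
    rs h (dd k n s) = dd k n (rs h s) := by
  unfold rs dd
  rw [← ModuleCat.comp_apply, ← ModuleCat.comp_apply, (I.d k n).hom.naturality]

theorem vf_dd_dd (i j k : ℕ) (s : Sec I i W) : dd j k (dd i j s) = 0 := by
  unfold dd
  rw [← ModuleCat.comp_apply, ← NatTrans.comp_app]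
  have : (I.d i j).hom ≫ (I.d j k).hom = 0 := congrArg (fun f => f.hom) (I.d_comp_d i j k)
  rw [this]
  rfl

theorem vf_dd_ne {k n : ℕ} (h : k + 1 ≠ n) (s : Sec I k W) : dd k n s = 0 := by
  unfold dd
  rw [I.shape k n h]
  rfl

/-- The sheaf in degree `n`. -/
abbrev vfSh (I : Cx Y) (n : ℕ) : TopCat.Sheaf (ModuleCat.{0} ℂ) (TopCat.of Y) := I.X n

theorem vf_sep (s : Sec I n W) (h : ∀ y ∈ W, ∃ (W' : Opens Y) (h : W' ≤ W), y ∈ W' ∧ rs h s = 0) :
    s = 0 := by
  choose! V hV hy h0 using h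
  refine (vfSh I n).eq_of_locally_eq' (fun y : W => V y.1) W (fun y => homOfLE (hV y.1 y.2))
    (fun y hy' => Opens.mem_iSup.2 ⟨⟨y, hy'⟩, hy y hy'⟩) s 0 fun y => ?_
  rw [map_zero]
  exact h0 y.1 y.2

theorem vf_glue {ι : Type} (O : ι → Opens Y) (s : ∀ i, Sec I n (O i))
    (h : ∀ i j, rs (inf_le_left : O i ⊓ O j ≤ O i) (s i) = rs inf_le_right (s j)) :
    ∃ t : Sec I n (iSup O), ∀ i, rs (le_iSup O i) t = s i := by
  obtain ⟨t, ht, -⟩ := (vfSh I n).existsUnique_gluing O s h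
  exact ⟨t, ht⟩

/-- The presheaf of discontinuous sections. -/
def vfGod (M : Y → ModuleCat.{0} ℂ) : TopCat.Presheaf (ModuleCat.{0} ℂ) (TopCat.of Y) where
  obj W := ModuleCat.of ℂ (∀ y : W.unop, M y.1)
  map {W W'} i := ModuleCat.ofHom
    (LinearMap.pi fun y => LinearMap.proj (⟨y.1, leOfHom i.unop y.2⟩ : W.unop))

theorem vfGod_isSheaf (M : Y → ModuleCat.{0} ℂ) : (vfGod M).IsSheaf := by
  rw [TopCat.Presheaf.isSheaf_iff_isSheafUniqueGluing]
  intro ι O s hs
  have hi : ∀ y : (iSup O : Opens Y), ∃ i, y.1 ∈ O i := fun y => Opens.mem_iSup.1 y.2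
  choose i hi using hi
  refine ⟨fun y => s (i y) ⟨y.1, hi y⟩, fun j => funext fun y => ?_, fun t ht => funext fun y => ?_⟩
  · exact congrFun (hs (i ⟨y.1, le_iSup O j y.2⟩) j) ⟨y.1, hi ⟨y.1, le_iSup O j y.2⟩, y.2⟩
  · exact congrFun (ht (i y)) ⟨y.1, hi y⟩

theorem vf_flabby (hI : Injective (I.X n)) (s : Sec I n W) :
    ∃ v : Sec I n ⊤, rs le_top v = s := by
  classical
  let F := vfSh I n
  let M : Y → ModuleCat.{0} ℂ := fun y => F.presheaf.stalk y
  let G : TopCat.Sheaf (ModuleCat.{0} ℂ) (TopCat.of Y) := ⟨vfGod M, vfGod_isSheaf M⟩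
  let η₀ : F.obj ⟶ G.obj :=
    { app := fun W => ModuleCat.ofHom
        (LinearMap.pi fun y => (F.presheaf.germ W.unop y.1 y.2).hom)
      naturality := fun W W' i => by
        ext t
        funext y
        exact F.presheaf.germ_res_apply i.unop y.1 y.2 t }
  let η : F ⟶ G := ⟨η₀⟩
  have : ∀ W, Mono (η₀.app W) := fun W => (ModuleCat.mono_iff_injective _).2 fun a b hab =>
    TopCat.Presheaf.section_ext F W.unop a b fun y hy => congrFun hab ⟨y, hy⟩
  have : Mono η₀ := NatTrans.mono_of_mono_app η₀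
  have : Mono η := Sheaf.Hom.mono_of_presheaf_mono _ _ η
  have : Injective F := hI
  let r := Injective.factorThru (𝟙 F) η
  have hr : η ≫ r = 𝟙 F := Injective.comp_factorThru _ _
  let g : G.obj.obj (op ⊤) := fun y =>
    if h : y.1 ∈ W then F.presheaf.germ W y.1 h s else 0
  refine ⟨r.hom.app (op ⊤) g, ?_⟩
  have h1 := ConcreteCategory.congr_hom (r.hom.naturality (homOfLE (le_top : W ≤ ⊤)).op) g
  have h2 : G.obj.map (homOfLE (le_top : W ≤ ⊤)).op g = η₀.app (op W) s := by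
    funext y
    exact dif_pos y.2
  have h3 := ConcreteCategory.congr_hom (congrArg (fun f => f.hom.app (op W)) hr) s
  rw [ConcreteCategory.comp_apply, ConcreteCategory.comp_apply, h2] at h1
  exact h1.symm.trans h3

end Pool.Agent.PWD
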