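import Pool.Agent.P.MP_65ad7c_ag.SBase
import Pool.Agent.P.MP_65ad7c_ag.DTA

open Set Filter Topology TopologicalSpace Pool.Agent.PW.S

set_option backward.isDefEq.respectTransparency false

noncomputable section
namespace Pool.Agent.PWD.TI

variable {Y : Type} [TopologicalSpace Y]

/-- sections which vanish near a point -/
def dtp0_LZ (F : PS Y) {x : Y} {V : Opens Y} (hx : x ∈ V) : Submodule ℂ (F.obj V) where
  carrier := {s | F.LocZero x s}
  zero_mem' := ⟨V, le_rfl, hx, map_zero _⟩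
  add_mem' := by
    rintro a b ⟨W, h, hW, e⟩ ⟨W', h', hW', e'⟩
    refine ⟨W ⊓ W', inf_le_left.trans h, ⟨hW, hW'⟩, ?_⟩
    rw [map_add, ← F.res_res h inf_le_left, e, ← F.res_res h' inf_le_right, e', map_zero, map_zero,
      add_zero]
  smul_mem' := by
    rintro c a ⟨W, h, hW, e⟩
    exact ⟨W, h, hW, by rw [map_smul, e, smul_zero]⟩

/-- the sum of the constant presheaves on the members of a family of open sets -/
def dtp0_A {ι : Type} (O : ι → Opens Y) : PS Y where
  obj W := Finsupp.supported ℂ ℂ {i | W ≤ O i}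
  acg _ := inferInstance
  mod _ := inferInstance
  res h := Submodule.inclusion (Finsupp.supported_mono fun _ hi => h.trans hi)
  res_self _ _ _ := rfl
  res_res _ _ _ := rfl

open Classical in
/-- restriction of a member of the family -/
def dtp0_e (F : PS Y) {ι : Type} {O : ι → Opens Y} (s : ∀ i, F.obj (O i)) (W : Opens Y) (i : ι) :
    F.obj W := if h : W ≤ O i then F.res h (s i) else 0

theorem dtp0_e_eq (F : PS Y) {ι : Type} {O : ι → Opens Y} (s : ∀ i, F.obj (O i)) {W : Opens Y}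
    {i : ι} (h : W ≤ O i) : dtp0_e F s W i = F.res h (s i) := dif_pos h

theorem dtp0_glue {F : PS Y} (h : Inj univ F) {ι : Type} (O : ι → Opens Y) (s : ∀ i, F.obj (O i))
    (hs : ∀ i j, ∀ x ∈ O i, x ∈ O j → F.LocZero x
      (F.res (inf_le_left : O i ⊓ O j ≤ O i) (s i) - F.res inf_le_right (s j))) :
    ∃ t : F.obj ⊤, ∀ i, F.res le_top t = s i := by
  let f : Mor (dtp0_A O) PS.const :=
    ⟨fun W => (Finsupp.linearCombination ℂ fun _ : ι => (1 : ℂ)).comp (Submodule.subtype _),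
      fun _ _ => rfl⟩
  let g : Mor (dtp0_A O) F :=
    ⟨fun W => (Finsupp.linearCombination ℂ (dtp0_e F s W)).comp (Submodule.subtype _),
      fun {V W} hW a => by
        show F.res hW (Finsupp.linearCombination ℂ (dtp0_e F s V) a.1) =
          Finsupp.linearCombination ℂ (dtp0_e F s W) a.1
        rw [Finsupp.linearCombination_apply, Finsupp.linearCombination_apply, Finsupp.sum,
          Finsupp.sum, map_sum]
        refine Finset.sum_congr rfl fun i hi => ?_
        have h1 : V ≤ O i := a.2 hi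
        rw [map_smul, dtp0_e_eq F s h1, dtp0_e_eq F s (hW.trans h1), F.res_res]⟩
  obtain ⟨k, hk⟩ := h _ _ f g (by
    rintro x - V hx a ⟨W, hW, -, e⟩
    have e1 : ∑ i ∈ a.1.support, a.1 i • (1 : ℂ) = 0 := e
    show ∑ i ∈ a.1.support, a.1 i • dtp0_e F s V i ∈ dtp0_LZ F hx
    rcases a.1.support.eq_empty_or_nonempty with e2 | ⟨j, hj⟩
    · rw [e2, Finset.sum_empty]
      exact zero_mem _
    · have e3 : ∑ i ∈ a.1.support, a.1 i • dtp0_e F s V i =
          ∑ i ∈ a.1.support, a.1 i • (dtp0_e F s V i - dtp0_e F s V j) := by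
        simp only [smul_eq_mul, mul_one] at e1
        simp only [smul_sub, Finset.sum_sub_distrib, ← Finset.sum_smul, e1, zero_smul, sub_zero]
      rw [e3]
      refine Submodule.sum_mem _ fun i hi => Submodule.smul_mem _ _ ?_
      have h1 : V ≤ O i := a.2 hi
      have h2 : V ≤ O j := a.2 hj
      obtain ⟨W', hW', hx', e4⟩ := hs i j x (h1 hx) (h2 hx)
      refine ⟨W' ⊓ V, inf_le_right, ⟨hx', hx⟩, ?_⟩
      have e5 := congrArg (F.res (inf_le_left : W' ⊓ V ≤ W')) e4
      simp only [map_sub, F.res_res, map_zero] at e5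
      rw [dtp0_e_eq F s h1, dtp0_e_eq F s h2, map_sub, F.res_res, F.res_res, e5])
  refine ⟨k.app ⊤ (1 : ℂ), fun i => ?_⟩
  have e := hk (O i) ⟨Finsupp.single i 1, Finsupp.single_mem_supported ℂ 1 (le_refl (O i))⟩
  have e1 : f.app (O i) ⟨Finsupp.single i 1, Finsupp.single_mem_supported ℂ 1 (le_refl (O i))⟩ =
      (1 : ℂ) := (Finsupp.linearCombination_single ℂ (1 : ℂ) i).trans (one_smul _ _)
  have e2 : g.app (O i) ⟨Finsupp.single i 1, Finsupp.single_mem_supported ℂ 1 (le_refl (O i))⟩ =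
      s i := (Finsupp.linearCombination_single ℂ (1 : ℂ) i).trans
        (by rw [one_smul, dtp0_e_eq F s le_rfl, F.res_self])
  rw [e1, e2] at e
  rw [k.nat, ← e]
  rfl

theorem inj_sep {F : PS Y} (h : Inj univ F) {V : Opens Y} (s : F.obj V)
    (hs : ∀ x ∈ V, F.LocZero x s) : s = 0 := by
  have hm : ∀ x (hx : x ∈ V) (b : Bool), (if b then s else 0) ∈ dtp0_LZ F hx := fun x hx b => by
    cases b
    · exact zero_mem _
    · exact hs x hx
  obtain ⟨t, ht⟩ := dtp0_glue h (fun _ : Bool => V) (fun b => if b then s else 0)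
    fun i j x hx _ => by
      obtain ⟨W, hW, hx', e⟩ := sub_mem (hm x hx i) (hm x hx j)
      exact ⟨W, le_inf hW hW, hx', by rw [← map_sub, F.res_res, e]⟩
  exact (ht true).symm.trans (ht false)

theorem inj_glue' {F : PS Y} (h : Inj univ F) {ι : Type} (O : ι → Opens Y) (s : ∀ i, F.obj (O i))
    (hs : ∀ i j, F.res (inf_le_left : O i ⊓ O j ≤ O i) (s i) = F.res inf_le_right (s j)) :
    ∃ t : F.obj ⊤, ∀ i, F.res le_top t = s i :=
  dtp0_glue h O s fun i j _ hx hx' =>
    ⟨O i ⊓ O j, le_rfl, ⟨hx, hx'⟩, by rw [hs i j, sub_self, map_zero]⟩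

theorem inj_flabby {F : PS Y} (h : Inj univ F) {V : Opens Y} (s : F.obj V) :
    ∃ t : F.obj ⊤, F.res le_top t = s :=
  (inj_glue' h (fun _ : Unit => V) (fun _ => s) fun _ _ => rfl).imp fun _ ht => ht ()

theorem inj_glue {F : PS Y} (h : Inj univ F) {ι : Type} (O : ι → Opens Y) (s : ι → F.obj ⊤)
    (hs : ∀ i j, ∀ x ∈ O i, x ∈ O j → F.LocZero x (s i - s j)) :
    ∃ t : F.obj ⊤, ∀ i, ∀ x ∈ O i, F.LocZero x (t - s i) := by
  obtain ⟨t, ht⟩ := dtp0_glue h O (fun i => F.res le_top (s i)) fun i j x hx hx' => by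
    obtain ⟨W, hW, hx'', e⟩ := hs i j x hx hx'
    refine ⟨W ⊓ (O i ⊓ O j), inf_le_right, ⟨hx'', hx, hx'⟩, ?_⟩
    rw [F.res_res, F.res_res, ← map_sub, F.res_res, ← F.res_res hW inf_le_left, e, map_zero]
  exact ⟨t, fun i x hx => ⟨O i, le_top, hx, by rw [map_sub, ht i, sub_self]⟩⟩

theorem inj_push {F : PS Y} (h : Inj univ F) (g : Y ≃ₜ Y) : Inj univ (F.push (g : C(Y, Y))) := by
  intro A B f k hk
  have h1 : ∀ V : Opens Y, V ≤ pre (g : C(Y, Y)) (pre (g.symm : C(Y, Y)) V) := fun V x hx => by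
    show g.symm (g x) ∈ V
    rwa [g.symm_apply_apply]
  have h2 : ∀ V : Opens Y, pre (g.symm : C(Y, Y)) (pre (g : C(Y, Y)) V) ≤ V := fun V x hx => by
    have : g (g.symm x) ∈ V := hx
    rwa [g.apply_symm_apply] at this
  let k2 : Mor (A.push (g.symm : C(Y, Y))) F :=
    ⟨fun V => (F.res (h1 V)).comp (k.app (pre (g.symm : C(Y, Y)) V)), fun {V W} hW a => by
      show F.res hW (F.res (h1 V) (k.app _ a)) =
        F.res (h1 W) (k.app _ (A.res (pre_mono _ hW) a))
      rw [← k.nat]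
      exact (F.res_res _ _ _).trans (F.res_res _ _ _).symm⟩
  obtain ⟨l, hl⟩ := h _ _ (f.comap _ (pre_mono (g.symm : C(Y, Y)))) k2 (by
    rintro x - V hx a ⟨W, hW, hx', e⟩
    obtain ⟨W', hW', hx'', e'⟩ := hk (g x) trivial (pre (g.symm : C(Y, Y)) V) (h1 V hx) a
      ⟨pre (g.symm : C(Y, Y)) W, pre_mono _ hW, h1 W hx', e⟩
    refine ⟨pre (g : C(Y, Y)) W' ⊓ V, inf_le_right, ⟨hx'', hx⟩, ?_⟩
    have e2 : F.res (pre_mono _ hW') (k.app _ a) = 0 := e'
    show F.res _ (F.res (h1 V) (k.app _ a)) = 0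
    rw [F.res_res, ← F.res_res (pre_mono _ hW') inf_le_left, e2, map_zero])
  refine ⟨⟨fun W => (l.app (pre (g : C(Y, Y)) W)).comp (B.res (h2 W)), fun {V W} hW b => ?_⟩,
    fun V a => ?_⟩
  · show F.res (pre_mono _ hW) (l.app _ (B.res (h2 V) b)) = l.app _ (B.res (h2 W) (B.res hW b))
    rw [l.nat]
    exact congrArg _ ((B.res_res _ _ _).trans (B.res_res _ _ _).symm)
  · show l.app _ (B.res (h2 V) (f.app V a)) = k.app V a
    rw [f.nat]
    refine (hl _ (A.res (h2 V) a)).trans ?_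
    show F.res (h1 _) (k.app _ (A.res (h2 V) a)) = _
    rw [← k.nat]
    exact (F.res_res _ _ _).trans (F.res_self _ _ _)

/-- exactness at a point passes to homotopy retracts -/
theorem exAt_of_retract {A B : Cx Y} (a : CMap A B) (b : CMap B A)
    (h : (b.comp a - CMap.id A).Null) {x : Y} {n : ℕ} (hB : B.ExAt x n) : A.ExAt x n := by
  intro V hx c hc
  obtain ⟨k, k0, k1⟩ := h
  obtain ⟨W, hW, hx', e⟩ := hB V hx ((a.f n).app V c) (by rw [a.comm, hc, map_zero])
  refine ⟨W, hW, hx', ?_⟩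
  have hc' : (A.d n).app W ((A.X n).res hW c) = 0 := by rw [← (A.d n).nat, hc, map_zero]
  rw [(a.f n).nat] at e
  generalize (A.X n).res hW c = c' at e hc'
  rcases n with _ | n
  · have e1 : (a.f 0).app W c' = 0 := e
    have e2 := k0 W c'
    rw [CMap.sub_app, CMap.comp_app, CMap.id_app, e1, hc', map_zero, map_zero, zero_sub,
      neg_eq_zero] at e2
    exact e2
  · obtain ⟨β, e1⟩ := e
    have e2 := k1 n W c'
    rw [CMap.sub_app, CMap.comp_app, CMap.id_app, ← e1, hc', map_zero, add_zero, ← b.comm] at e2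
    exact ⟨(b.f n).app W β - (k n).app W c', by rw [map_sub, ← e2, sub_sub_cancel]⟩

end Pool.Agent.PWD.TI
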