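import Pool.Agent.P.MP_65ad7c_ag.DTP0

open Set Filter Topology TopologicalSpace Pool.Agent.PW.S

noncomputable section
namespace Pool.Agent.PWD.TI

variable {Y : Type} [TopologicalSpace Y]

/-- the differential on the product of the groups of global sections -/
def dTot (I : Cx Y) : (∀ n, (I.X n).obj ⊤) →+ (∀ n, (I.X n).obj ⊤) where
  toFun a n := match n with
    | 0 => 0
    | n + 1 => (I.d n).app ⊤ (a n)
  map_zero' := by
    funext n
    cases n <;> simp
  map_add' a b := by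
    funext n
    cases n <;> simp

/-- sections of degree `n` -/
def gTot (I : Cx Y) (n : ℤ) : AddSubgroup (∀ n, (I.X n).obj ⊤) where
  carrier := {a | ∀ m : ℕ, (m : ℤ) ≠ n → a m = 0}
  add_mem' ha hb m hm := by simp [ha m hm, hb m hm]
  zero_mem' _ _ := rfl
  neg_mem' ha m hm := by simp [ha m hm]

/-- sections vanishing near `x` -/
def zTot (I : Cx Y) (x : Y) : AddSubgroup (∀ n, (I.X n).obj ⊤) where
  carrier := {a | ∃ W : Opens Y, x ∈ W ∧ ∀ m, (I.X m).res (le_top : W ≤ ⊤) (a m) = 0}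
  add_mem' := by
    rintro a b ⟨W, hW, ha⟩ ⟨W', hW', hb⟩
    refine ⟨W ⊓ W', ⟨hW, hW'⟩, fun m => ?_⟩
    rw [Pi.add_apply, map_add, ← (I.X m).res_res le_top (inf_le_left : W ⊓ W' ≤ W), ha,
      ← (I.X m).res_res le_top (inf_le_right : W ⊓ W' ≤ W'), hb]
    simp
  zero_mem' := ⟨⊤, trivial, fun m => by simp⟩
  neg_mem' := by
    rintro a ⟨W, hW, ha⟩
    exact ⟨W, hW, fun m => by rw [Pi.neg_apply, map_neg, ha, neg_zero]⟩

theorem dTot_dTot (I : Cx Y) (a) : dTot I (dTot I a) = 0 := by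
  funext n
  rcases n with _ | _ | n
  · rfl
  · exact map_zero ((I.d 0).app ⊤)
  · exact I.dd n ⊤ (a n)

theorem dTot_gTot (I : Cx Y) (n : ℤ) : ∀ a ∈ gTot I n, dTot I a ∈ gTot I (n + 1) := by
  intro a ha m hm
  rcases m with _ | m
  · rfl
  · change (I.d m).app ⊤ (a m) = 0
    rw [ha m fun h => hm (by rw [← h]; push_cast; rfl), map_zero]

theorem dTot_zTot (I : Cx Y) (x : Y) : ∀ a ∈ zTot I x, dTot I a ∈ zTot I x := by
  rintro a ⟨W, hW, ha⟩
  refine ⟨W, hW, fun m => ?_⟩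
  rcases m with _ | m
  · exact map_zero _
  · change (I.X (m + 1)).res _ ((I.d m).app ⊤ (a m)) = 0
    rw [(I.d m).nat, ha, map_zero]

theorem zTot_open (I : Cx Y) (a) : IsOpen {x | a ∈ zTot I x} := by
  refine isOpen_iff_forall_mem_open.2 ?_
  rintro x ⟨W, hW, ha⟩
  exact ⟨W, fun y hy => ⟨W, hy, ha⟩, W.2, hW⟩

theorem gTot_neg (I : Cx Y) : ∀ n < 0, ∀ a ∈ gTot I n, a = 0 := by
  intro n hn a ha
  funext m
  exact ha m (by omega)

theorem single_mem_gTot (I : Cx Y) (n : ℕ) (s : (I.X n).obj ⊤) : Pi.single n s ∈ gTot I n := by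
  intro m hm
  have h : m ≠ n := fun h => hm (by rw [h])
  exact Pi.single_eq_of_ne (M := fun n => (I.X n).obj ⊤) h s

theorem eq_single_of_mem {I : Cx Y} {n : ℕ} {a} (h : a ∈ gTot I n) : a = Pi.single n (a n) := by
  funext m
  by_cases hm : m = n
  · subst hm
    rw [Pi.single_eq_same]
  · rw [Pi.single_eq_of_ne hm]
    exact h m (by exact_mod_cast hm)

theorem single_mem_zTot {I : Cx Y} {n : ℕ} {s : (I.X n).obj ⊤} {x : Y} :
    Pi.single n s ∈ zTot I x ↔ (I.X n).LocZero x s := by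
  constructor
  · rintro ⟨W, hW, ha⟩
    refine ⟨W, le_top, hW, ?_⟩
    have := ha n
    rwa [Pi.single_eq_same] at this
  · rintro ⟨W, h, hW, ha⟩
    refine ⟨W, hW, fun m => ?_⟩
    by_cases hm : m = n
    · subst hm
      rw [Pi.single_eq_same]
      exact ha
    · rw [Pi.single_eq_of_ne hm, map_zero]

theorem dTot_single (I : Cx Y) (n : ℕ) (s : (I.X n).obj ⊤) :
    dTot I (Pi.single n s) = Pi.single (n + 1) ((I.d n).app ⊤ s) := by
  funext m
  rcases m with _ | m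
  · rw [Pi.single_eq_of_ne (Nat.succ_ne_zero n).symm]
    rfl
  · change (I.d m).app ⊤ (Pi.single (M := fun n => (I.X n).obj ⊤) n s m) = _
    by_cases hm : m = n
    · subst hm
      rw [Pi.single_eq_same, Pi.single_eq_same]
    · rw [Pi.single_eq_of_ne hm, Pi.single_eq_of_ne (by omega), map_zero]

theorem tot_glue {I : Cx Y} (hI : CInj univ I) (n : ℤ) (ι : Type) (O : ι → Set Y)
    (a : ι → ∀ n, (I.X n).obj ⊤) (hO : ∀ i, IsOpen (O i)) (ha : ∀ i, a i ∈ gTot I n)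
    (h : ∀ i j, ∀ x ∈ O i ∩ O j, a i - a j ∈ zTot I x) :
    ∃ b ∈ gTot I n, ∀ i, ∀ x ∈ O i, b - a i ∈ zTot I x := by
  rcases lt_or_ge n 0 with hn | hn
  · refine ⟨0, zero_mem _, fun i x _ => ?_⟩
    rw [gTot_neg I n hn _ (ha i), sub_zero]
    exact zero_mem _
  obtain ⟨k, rfl⟩ := Int.eq_ofNat_of_zero_le hn
  obtain ⟨t, ht⟩ := inj_glue (hI k) (fun i => ⟨O i, hO i⟩) (fun i => a i k) fun i j x hi hj => by
    obtain ⟨W, hW, hW'⟩ := h i j x ⟨hi, hj⟩
    exact ⟨W, le_top, hW, hW' k⟩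
  refine ⟨Pi.single k t, single_mem_gTot I k t, fun i x hx => ?_⟩
  rw [eq_single_of_mem (ha i), ← Pi.single_sub]
  exact single_mem_zTot.2 (ht i x hx)

/-- the global sections of a complex of injective sheaves -/
def toFC (I : Cx Y) (hI : CInj univ I) : FC Y (∀ n, (I.X n).obj ⊤) where
  d := dTot I
  G := gTot I
  z := zTot I
  dd := dTot_dTot I
  dG := dTot_gTot I
  dz := dTot_zTot I
  opn := zTot_open I
  neg := gTot_neg I
  glue := tot_glue hI

theorem single_mem_van {I : Cx Y} (hI : CInj univ I) {n : ℕ} {s : (I.X n).obj ⊤} {O : Opens Y} :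
    Pi.single n s ∈ (toFC I hI).van O ↔ (I.X n).res (le_top : O ≤ ⊤) s = 0 := by
  rw [FC.mem_van]
  constructor
  · intro h
    refine inj_sep (hI n) _ fun x hx => ?_
    obtain ⟨W, h1, hW, h2⟩ := single_mem_zTot.1 (h x hx)
    refine ⟨W ⊓ O, inf_le_right, ⟨hW, hx⟩, ?_⟩
    rw [(I.X n).res_res, ← (I.X n).res_res h1 (inf_le_left : W ⊓ O ≤ W), h2, map_zero]
  · intro h x hx
    exact single_mem_zTot.2 ⟨O, le_top, hx, h⟩

end Pool.Agent.PWD.TI
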