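import Pool.Agent.P.MP_65ad7c_ag.DTP1

open Set Filter Topology TopologicalSpace Pool.Agent.PW.S

set_option backward.isDefEq.respectTransparency false

noncomputable section
namespace Pool.Agent.PWD.TI

variable {Y : Type} [TopologicalSpace Y]

/-- a section vanishing on `V ⊓ O` extends to a global section vanishing on `O` -/
theorem gam_extend {F : PS Y} (h : Inj univ F) (O : Opens Y) {V : Opens Y} (s : (F.gam O).obj V) :
    ∃ t : F.obj ⊤, F.res (le_top : V ≤ ⊤) t = s.1 ∧ F.res (le_top : O ≤ ⊤) t = 0 := by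
  have hs : F.res (inf_le_left : V ⊓ O ≤ V) s.1 = 0 := s.2
  have hs' : F.res (inf_le_right : O ⊓ V ≤ V) s.1 = 0 := by
    rw [← F.res_res (inf_le_left : V ⊓ O ≤ V) (le_inf inf_le_right inf_le_left), hs, map_zero]
  obtain ⟨t, ht⟩ := inj_glue' h (ι := Bool) (fun b => Bool.rec O V b)
    (fun b => Bool.rec (motive := fun b => F.obj (Bool.rec O V b)) 0 s.1 b) (by
      rintro (_ | _) (_ | _)
      · rfl
      · exact (map_zero _).trans hs'.symm
      · exact hs.trans (map_zero _).symm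
      · rfl)
  exact ⟨t, ht true, ht false⟩

/-- the restriction of a global section vanishing on `O` -/
def dtp2_sec {F : PS Y} {O : Opens Y} {t : F.obj ⊤} (ht : F.res (le_top : O ≤ ⊤) t = 0)
    (W : Opens Y) : (F.gam O).obj W :=
  ⟨F.res le_top t, LinearMap.mem_ker.2 (by
    rw [F.res_res, ← F.res_res (le_top : O ≤ ⊤) (inf_le_right : W ⊓ O ≤ O), ht, map_zero])⟩

/-- being a boundary near `y`, in terms of global sections -/
theorem locBd_iff {I : Cx Y} (hI : CInj univ I) (O : Opens Y) {n : ℕ} {V : Opens Y} {y : Y}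
    (hy : y ∈ V) (s : ((I.gam O).X n).obj V) (t : (I.X n).obj ⊤)
    (ht : (I.X n).res (le_top : V ≤ ⊤) t = s.1) :
    (I.gam O).LocBd y s ↔ ∃ e ∈ (toFC I hI).G ((n : ℤ) - 1), e ∈ (toFC I hI).van O ∧
      Pi.single n t - (toFC I hI).d e ∈ (toFC I hI).z y := by
  have hr : ∀ {W : Opens Y} (h : W ≤ V),
      (((I.gam O).X n).res h s).1 = (I.X n).res (le_top : W ≤ ⊤) t := fun h => by
    rw [← (I.X n).res_res le_top h, ht]
    rfl
  cases n with
  | zero =>
    constructor
    · rintro ⟨W, h, hW, h0⟩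
      refine ⟨0, zero_mem _, zero_mem _, ?_⟩
      rw [map_zero, sub_zero]
      refine single_mem_zTot.2 ⟨W, le_top, hW, ?_⟩
      rw [← hr h, (Submodule.mem_bot ℂ).1 h0]
      rfl
    · rintro ⟨e, he, -, h0⟩
      rw [(toFC I hI).neg _ (by simp) e he, map_zero, sub_zero] at h0
      obtain ⟨W, h, hW, h1⟩ := single_mem_zTot.1 h0
      refine ⟨W ⊓ V, inf_le_right, ⟨hW, hy⟩, (Submodule.mem_bot ℂ).2 (Subtype.ext ?_)⟩
      rw [hr, ← (I.X 0).res_res h inf_le_left, h1, map_zero]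
      rfl
  | succ n =>
    have e1 : ((n + 1 : ℕ) : ℤ) - 1 = n := by
      push_cast
      ring
    have e2 : ∀ u : (I.X n).obj ⊤, Pi.single (n + 1) t - (toFC I hI).d (Pi.single n u) =
        Pi.single (n + 1) (t - (I.d n).app ⊤ u) := fun u => by
      rw [Pi.single_sub, ← dTot_single]
      rfl
    rw [e1]
    constructor
    · rintro ⟨W, h, hW, b, hb⟩
      obtain ⟨u, h1, h2⟩ := gam_extend (hI n) O b
      refine ⟨Pi.single n u, single_mem_gTot I n u, (single_mem_van hI).2 h2, ?_⟩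
      rw [e2]
      refine single_mem_zTot.2 ⟨W, le_top, hW, ?_⟩
      rw [map_sub, ← hr h, ← hb, (I.d n).nat, h1]
      exact sub_self _
    · rintro ⟨e, he, h1, h2⟩
      rw [eq_single_of_mem he] at h1 h2
      rw [e2] at h2
      obtain ⟨W, h, hW, h3⟩ := single_mem_zTot.1 h2
      refine ⟨W ⊓ V, inf_le_right, ⟨hW, hy⟩, dtp2_sec ((single_mem_van hI).1 h1) _,
        Subtype.ext ?_⟩
      have h4 := congrArg ((I.X (n + 1)).res (inf_le_left : W ⊓ V ≤ W)) h3
      rw [(I.X (n + 1)).res_res, map_zero, map_sub, (I.d n).nat, sub_eq_zero] at h4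
      rw [hr, h4]
      rfl

theorem cos_iff {I : Cx Y} (hI : CInj univ I) (O : Opens Y) (n : ℕ) (x : Y) :
    (toFC I hI).Cos n O x ↔ (I.gam O).ExAt x n := by
  have e : ∀ u : (I.X n).obj ⊤, (toFC I hI).d (Pi.single n u) ∈ (toFC I hI).z x ↔
      (I.X (n + 1)).LocZero x ((I.d n).app ⊤ u) := fun u => by
    rw [← single_mem_zTot, ← dTot_single]
    rfl
  constructor
  · intro h V hx c hc
    obtain ⟨t, h1, h2⟩ := gam_extend (hI n) O c
    refine (locBd_iff hI O hx c t h1).2 (h _ (single_mem_gTot I n t) ((single_mem_van hI).2 h2)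
      ((e t).2 ⟨V, le_top, hx, ?_⟩))
    rw [(I.d n).nat, h1]
    exact congrArg Subtype.val hc
  · intro h a ha h1 h2
    rw [eq_single_of_mem ha] at h1 h2 ⊢
    obtain ⟨W, hW, hx, h3⟩ := (e _).1 h2
    refine (locBd_iff hI O hx (dtp2_sec ((single_mem_van hI).1 h1) W) _ rfl).1
      (h W hx _ (Subtype.ext ?_))
    rw [(I.d n).nat] at h3
    exact h3

theorem cos_neg {V : Type} [AddCommGroup V] (Q : FC Y V) {n : ℤ} (hn : n < 0) (O : Set Y) (x : Y) :
    Q.Cos n O x := by
  intro a ha _ _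
  refine ⟨0, zero_mem _, zero_mem _, ?_⟩
  rw [Q.neg n hn a ha, map_zero, sub_zero]
  exact zero_mem _

end Pool.Agent.PWD.TI
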