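import Pool.Agent.P.MP_65ad7c_ag.SBase
import Pool.Agent.P.MP_65ad7c_ag.DTA

open Set Filter Topology TopologicalSpace Pool.Agent.PW.S

noncomputable section
namespace Pool.Agent.PWD.TI

variable {Y : Type} [TopologicalSpace Y]

/-- the axioms for a filtration indexed by the complex codimension -/
structure CAX (U : ℕ → Opens Y) (I : Cx Y) (one : (I.X 0).obj (U 1)) : Prop where
  mono : Monotone U
  top : ∃ m, U m = ⊤
  inj : CInj univ I
  closed : (I.d 0).app _ one = 0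
  ne : ∀ (V : Opens Y) (h : V ≤ U 1), V ≠ ⊥ → (I.X 0).res h one ≠ 0
  gen : ∀ (x : Y) (V : Opens Y) (h : V ≤ U 1), x ∈ V → ∀ c : (I.X 0).obj V,
    (I.d 0).app V c = 0 →
      ∃ (W : Opens Y) (hW : W ≤ V) (a : ℂ), x ∈ W ∧
        (I.X 0).res hW c = a • (I.X 0).res (hW.trans h) one
  supp : ∀ c, ∀ x ∈ U (c + 1), ∀ n, 0 < n → c ≤ n → I.ExAt x n
  cosupp : ∀ c, 0 < c → ∀ x ∈ U (c + 1), ∀ n ≤ c, (I.gam (U c)).ExAt x n

/-- the cohomology sheaf `H^n` of `A` is locally constant on `S` -/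
def LCon (A : Cx Y) (S : Set Y) (n : ℕ) : Prop :=
  ∀ x ∈ S, ∃ (W : Opens Y) (B : Submodule ℂ ((A.X n).obj W)), x ∈ W ∧
    (∀ b ∈ B, (A.d n).app W b = 0) ∧ ∀ y ∈ S, y ∈ W → (∀ b ∈ B, A.LocBd y b → b = 0) ∧
      ∀ (W' : Opens Y) (h : W' ≤ W) (s : (A.X n).obj W'), y ∈ W' → (A.d n).app W' s = 0 →
        ∃ b ∈ B, A.LocBd y (s - (A.X n).res h b)

/-- the textbook axioms: the strata are topological manifolds and the costalks are locally
constant along them -/
structure SX (d : ℕ) (U : ℕ → Opens Y) (I : Cx Y) (one : (I.X 0).obj (U 1)) : Prop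
    extends CAX U I one where
  zero : U 0 = ⊥
  top' : U (d + 1) = ⊤
  chart : ∀ c, ∀ x ∈ (U (c + 1) \ U c : Set Y), ∃ (W : Opens Y)
    (φ : ↥((W : Set Y) ∩ (U (c + 1) \ U c)) → Fin (d - c) → ℂ), x ∈ W ∧ IsOpenEmbedding φ
  lc : ∀ c n, LCon (I.gam (U c)) (U (c + 1) \ U c) n

/-- the filtration indexed by the real codimension -/
def realF (U : ℕ → Opens Y) (k : ℕ) : Opens Y := U ((k + 1) / 2 + 1)

/-- the image of an open set under a homeomorphism -/
def img (g : Y ≃ₜ Y) (O : Opens Y) : Opens Y := pre (g.symm : C(Y, Y)) O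

theorem pre_img_le (g : Y ≃ₜ Y) (O : Opens Y) : pre (g : C(Y, Y)) (img g O) ≤ O := fun x hx => by
  simpa [img] using hx

/-- the section `one` of the direct image -/
def onePush (g : Y ≃ₜ Y) {O : Opens Y} {I : Cx Y} (one : (I.X 0).obj O) :
    ((I.push (g : C(Y, Y))).X 0).obj (img g O) := (I.X 0).res (pre_img_le g O) one

/-- the saturation of an open set -/
def sat (O : Opens Y) : Opens Y := ⨆ g : Y ≃ₜ Y, img g O

end Pool.Agent.PWD.TI
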