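import Pool.Agent.P.MP_65ad7c_ag.DTQ0

open Set Filter Topology TopologicalSpace Pool.Agent.PW.S

noncomputable section
namespace Pool.Agent.PWD.TI

variable {Y : Type} [TopologicalSpace Y]

/-- arbitrarily small charts with domain the whole of `ℝ^(2 k)` -/
theorem exists_chart_univ {S : Set Y} {W : Opens Y} {k : ℕ} {φ : ↥((W : Set Y) ∩ S) → Fin k → ℂ}
    (hφ : IsOpenEmbedding φ) {x : Y} (hx : x ∈ S) (hxW : x ∈ W) {W₀ : Set Y} (h₀ : IsOpen W₀)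
    (hx₀ : x ∈ W₀) : ∃ (W' : Set Y) (ψ : (Fin (2 * k) → ℝ) → Y), IsOpen W' ∧ x ∈ W' ∧ W' ⊆ W₀ ∧
      IsEmbedding ψ ∧ range ψ = W' ∩ S := by
  have e : (Fin k → ℂ) ≃L[ℝ] (Fin (2 * k) → ℝ) := ContinuousLinearEquiv.ofFinrankEq (by
    simp [Module.finrank_pi_fintype, mul_comm])
  have hχ : IsOpenEmbedding (e ∘ φ) := e.toHomeomorph.isOpenEmbedding.comp hφ
  have hN : IsOpen ((e ∘ φ) '' (Subtype.val ⁻¹' W₀)) :=
    hχ.isOpenMap _ (h₀.preimage continuous_subtype_val)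
  obtain ⟨r, hr, hb⟩ := Metric.isOpen_iff.1 hN ((e ∘ φ) ⟨x, hxW, hx⟩) ⟨_, hx₀, rfl⟩
  let u : OpenPartialHomeomorph (Fin (2 * k) → ℝ) (Fin (2 * k) → ℝ) :=
    OpenPartialHomeomorph.univBall ((e ∘ φ) ⟨x, hxW, hx⟩) r
  have h1 : u.source = univ := OpenPartialHomeomorph.univBall_source _ _
  have h2 : range u = Metric.ball ((e ∘ φ) ⟨x, hxW, hx⟩) r := by
    rw [← image_univ, ← h1, u.image_source_eq_target]
    exact OpenPartialHomeomorph.univBall_target _ hr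
  choose ψ h3 h4 using fun t => hb (h2 ▸ mem_range_self t : u t ∈ _)
  have h5 : IsOpenEmbedding ψ :=
    IsOpenEmbedding.of_comp ψ hχ ((funext h4 : (e ∘ φ) ∘ ψ = u) ▸ u.isOpenEmbedding h1)
  obtain ⟨T, hT, h6⟩ := isOpen_induced_iff.1 h5.isOpen_range
  refine ⟨T ∩ W ∩ W₀, Subtype.val ∘ ψ, (hT.inter W.isOpen).inter h₀, ⟨⟨?_, hxW⟩, hx₀⟩,
    inter_subset_right, IsEmbedding.subtypeVal.comp h5.isEmbedding, ?_⟩
  · obtain ⟨t, ht⟩ : (e ∘ φ) ⟨x, hxW, hx⟩ ∈ range u := h2 ▸ Metric.mem_ball_self hr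
    have : (⟨x, hxW, hx⟩ : ↥((W : Set Y) ∩ S)) ∈ range ψ := ⟨t, hχ.injective ((h4 t).trans ht)⟩
    rwa [← h6] at this
  · ext y
    constructor
    · rintro ⟨t, rfl⟩
      have : ψ t ∈ range ψ := mem_range_self t
      rw [← h6] at this
      exact ⟨⟨⟨this, (ψ t).2.1⟩, h3 t⟩, (ψ t).2.2⟩
    · rintro ⟨⟨⟨k1, k2⟩, -⟩, k3⟩
      have : (⟨y, k2, k3⟩ : ↥((W : Set Y) ∩ S)) ∈ range ψ := by
        rw [← h6]; exact k1
      obtain ⟨t, ht⟩ := this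
      exact ⟨t, congrArg Subtype.val ht⟩

theorem dtq1_exAt (I : Cx Y) {O : Opens Y} {x : Y} (hx : x ∈ O) (n : ℕ) : (I.gam O).ExAt x n := by
  intro V hV c _
  refine ⟨V ⊓ O, inf_le_left, ⟨hV, hx⟩, ?_⟩
  have : ((I.gam O).X n).res (inf_le_left : V ⊓ O ≤ V) c = 0 := Subtype.ext c.2
  rw [this]
  exact Submodule.zero_mem _

theorem CAX.toAX {U : ℕ → Opens Y} {I : Cx Y} {one : (I.X 0).obj (U 1)} (h : CAX U I one) :
    Monotone (realF U) ∧ (∃ m, realF U m = ⊤) ∧ AX (realF U) I one := by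
  refine ⟨fun a b hab => h.mono (by omega), ?_, h.inj, h.closed, h.ne, h.gen,
    fun k x hx n hn => h.supp (k / 2 + 1) x (h.mono (by omega) hx) n (by omega) hn,
    fun k x hx n hn => ?_⟩
  · obtain ⟨m, hm⟩ := h.top
    exact ⟨2 * m, top_unique (hm ▸ h.mono (by omega))⟩
  · by_cases hk : k % 2 = 0
    · exact h.cosupp ((k + 1) / 2 + 1) (by omega) x (h.mono (by omega) hx) n (by omega)
    · exact dtq1_exAt I (h.mono (by omega) hx) n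

theorem coe_img (g : Y ≃ₜ Y) (O : Opens Y) : (img g O : Set Y) = g '' O := by
  exact (g.image_eq_preimage_symm O).symm

theorem le_sat (O : Opens Y) : O ≤ sat O := by
  exact le_iSup (fun g : Y ≃ₜ Y => img g O) (Homeomorph.refl Y)

theorem mem_sat {O : Opens Y} {x : Y} : x ∈ sat O ↔ ∃ g : Y ≃ₜ Y, g x ∈ O := by
  rw [sat, Opens.mem_iSup]
  exact ⟨fun ⟨g, hg⟩ => ⟨g.symm, hg⟩, fun ⟨g, hg⟩ => ⟨g.symm, hg⟩⟩

theorem sat_inv {O : Opens Y} (g : Y ≃ₜ Y) {x : Y} : g x ∈ sat O ↔ x ∈ sat O := by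
  rw [mem_sat, mem_sat]
  exact ⟨fun ⟨f, hf⟩ => ⟨g.trans f, hf⟩, fun ⟨f, hf⟩ => ⟨g.symm.trans f, by simpa using hf⟩⟩

theorem sat_mono : Monotone (sat (Y := Y)) := by
  intro O O' h x hx
  obtain ⟨g, hg⟩ := mem_sat.1 hx
  exact mem_sat.2 ⟨g, h hg⟩

end Pool.Agent.PWD.TI
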