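import Pool.Agent.P.MP_65ad7c_ag.DTQ1
import Pool.Agent.P.MP_65ad7c_ag.DTP2
import Pool.Agent.P.MP_65ad7c_ag.DTG

open Set Filter Topology TopologicalSpace Pool.Agent.PW.S

noncomputable section
namespace Pool.Agent.PWD.TI

variable {Y : Type} [TopologicalSpace Y]

variable {d : ℕ} {U : ℕ → Opens Y} {I : Cx Y} {one : (I.X 0).obj (U 1)}

/-- the global sections of degree `k` vanishing on `O` whose restriction to `W` lies in `B` -/
def dtq2B (I : Cx Y) (O W : Opens Y) (k : ℕ) (B : Submodule ℂ (((I.gam O).X k).obj W)) :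
    AddSubgroup (∀ n, (I.X n).obj ⊤) where
  carrier := {a | ∃ t : (I.X k).obj ⊤, a = Pi.single k t ∧ (I.X k).res (le_top : O ≤ ⊤) t = 0 ∧
    ∃ b ∈ B, (I.X k).res (le_top : W ≤ ⊤) t = b.1}
  add_mem' := by
    rintro _ _ ⟨t, rfl, h1, b, hb, e⟩ ⟨t', rfl, h1', b', hb', e'⟩
    refine ⟨t + t', (Pi.single_add _ _ _).symm, by rw [map_add, h1, h1', add_zero], b + b',
      B.add_mem hb hb', ?_⟩
    rw [map_add, e, e']
    rfl
  zero_mem' := ⟨0, (Pi.single_zero _).symm, map_zero _, 0, B.zero_mem, map_zero _⟩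
  neg_mem' := by
    rintro _ ⟨t, rfl, h1, b, hb, e⟩
    refine ⟨-t, (Pi.single_neg _ _).symm, by rw [map_neg, h1, neg_zero], -b, B.neg_mem hb, ?_⟩
    rw [map_neg, e]
    rfl

theorem dtq2_lc (hI : CInj univ I) (O : Opens Y) {S : Set Y} {k : ℕ} (h : LCon (I.gam O) S k)
    {x : Y} (hx : x ∈ S) : ∃ (W : Set Y) (B : AddSubgroup (∀ n, (I.X n).obj ⊤)), IsOpen W ∧ x ∈ W ∧
    (∀ b ∈ B, b ∈ (toFC I hI).G k ∧ b ∈ (toFC I hI).van O ∧
      (toFC I hI).d b ∈ (toFC I hI).van W) ∧ ∀ y ∈ W ∩ S,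
      (∀ a ∈ (toFC I hI).G k, a ∈ (toFC I hI).van O → (toFC I hI).d a ∈ (toFC I hI).z y →
        ∃ b ∈ B, ∃ e ∈ (toFC I hI).G ((k : ℤ) - 1), e ∈ (toFC I hI).van O ∧
          a - b - (toFC I hI).d e ∈ (toFC I hI).z y) ∧
      ∀ b ∈ B, ∀ e ∈ (toFC I hI).G ((k : ℤ) - 1), e ∈ (toFC I hI).van O →
        b - (toFC I hI).d e ∈ (toFC I hI).z y → b ∈ (toFC I hI).van W := by
  obtain ⟨W, B, hxW, hcl, H⟩ := h x hx
  refine ⟨W, dtq2B I O W k B, W.2, hxW, ?_, fun y hy => ⟨fun a ha haO hda => ?_, ?_⟩⟩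
  · rintro _ ⟨t, rfl, h1, b, hb, e⟩
    refine ⟨single_mem_gTot I k t, (single_mem_van hI).2 h1, ?_⟩
    change dTot I _ ∈ _
    rw [dTot_single, single_mem_van, (I.d k).nat, e]
    exact congrArg Subtype.val (hcl b hb)
  · have ea : a = Pi.single k (a k) := eq_single_of_mem ha
    generalize a k = t at ea
    subst ea
    have h1 := (single_mem_van hI).1 haO
    have h2 : dTot I (Pi.single k t) ∈ zTot I y := hda
    rw [dTot_single, single_mem_zTot] at h2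
    obtain ⟨W₁, hW₁, hy₁, h2⟩ := h2
    let s : ((I.gam O).X k).obj (W ⊓ W₁) := ⟨(I.X k).res le_top t, by
      change (I.X k).res _ _ = 0
      rw [(I.X k).res_res, ← (I.X k).res_res le_top (inf_le_right : (W ⊓ W₁) ⊓ O ≤ O), h1,
        map_zero]⟩
    have hs : ((I.gam O).d k).app _ s = 0 := by
      refine Subtype.ext ?_
      change (I.d k).app _ ((I.X k).res le_top t) = 0
      rw [← (I.d k).nat, ← (I.X (k + 1)).res_res hW₁ (inf_le_right : W ⊓ W₁ ≤ W₁), h2, map_zero]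
    obtain ⟨b, hb, hbd⟩ := (H y hy.2 hy.1).2 (W ⊓ W₁) inf_le_left s ⟨hy.1, hy₁⟩ hs
    obtain ⟨tb, e1, e2⟩ := gam_extend (hI k) O b
    obtain ⟨e, he, heO, hz⟩ := (locBd_iff hI O (V := W ⊓ W₁) ⟨hy.1, hy₁⟩ _ (t - tb) (by
      rw [map_sub, ← (I.X k).res_res le_top (inf_le_left : W ⊓ W₁ ≤ W) tb, e1]
      rfl)).1 hbd
    refine ⟨Pi.single k tb, ⟨tb, rfl, e2, b, hb, e1⟩, e, he, heO, ?_⟩
    rwa [Pi.single_sub] at hz
  · rintro _ ⟨t, rfl, h1, b, hb, e1⟩ e he heO hz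
    have h2 := (H y hy.2 hy.1).1 b hb ((locBd_iff hI O hy.1 b t e1).2 ⟨e, he, heO, hz⟩)
    rw [single_mem_van, e1, h2]
    rfl

theorem SX.toSAX (h : SX d U I one) : SAX (toFC I h.inj) d fun c => (U c : Set Y) := by
  refine ⟨fun c => (U c).2, fun a b hab => h.mono hab, by rw [h.zero]; rfl, by rw [h.top']; rfl,
    fun c x hx W₀ h₀ hx₀ => ?_, fun c x hx n hn => ?_, fun c x hx n => ?_⟩
  · obtain ⟨W, φ, hxW, hφ⟩ := h.chart c x hx
    exact exists_chart_univ hφ hx hxW h₀ hx₀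
  · rcases lt_or_ge n 0 with h0 | h0
    · exact cos_neg _ h0 _ _
    · lift n to ℕ using h0
      unfold eC at hn
      split_ifs at hn with hc
      · omega
      · exact (cos_iff h.inj (U c) n x).2 (h.cosupp c (by omega) x hx.1 n (by omega))
  · rcases lt_or_ge n 0 with h0 | h0
    · refine ⟨univ, ⊥, isOpen_univ, trivial, fun b hb => ?_, fun y _ => ⟨fun a ha _ _ => ?_,
        fun b hb _ _ _ _ => ?_⟩⟩
      · rw [AddSubgroup.mem_bot.1 hb, map_zero]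
        exact ⟨zero_mem _, zero_mem _, zero_mem _⟩
      · refine ⟨0, zero_mem _, 0, zero_mem _, zero_mem _, ?_⟩
        rw [(toFC I h.inj).neg n h0 a ha, map_zero, sub_zero, sub_zero]
        exact zero_mem _
      · rw [AddSubgroup.mem_bot.1 hb]
        exact zero_mem _
    · lift n to ℕ using h0
      exact dtq2_lc h.inj (U c) (h.lc c n) hx

theorem SX.ld (h : SX d U I one) (c : ℕ) : LD (2 * (d - c)) (U (c + 1) \ U c : Set Y) :=
  h.toSAX.ld c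

theorem SX.cos (h : SX d U I one) {k : ℕ} (hk : 1 ≤ k) (hkd : k ≤ d) {O O' : Opens Y}
    (hd : LD (2 * (d - k)) (O' \ O : Set Y)) {x : Y} (hx : x ∈ O') {n : ℕ} (hn : n ≤ k) :
    (I.gam O).ExAt x n :=
  (cos_iff h.inj O n x).1 (h.toSAX.cos_dim hk hkd O.2 O'.2 hd hx (by exact_mod_cast hn))

theorem SX.cos2 (h : SX d U I one) {k : ℕ} (hk : 1 ≤ k) (hkd : k ≤ d) {O O₁ O' : Opens Y}
    (h1 : O ≤ O₁) (hd : LD (2 * (d - k)) (O₁ \ O : Set Y))
    (hd' : LD (2 * (d - k)) (O' \ O₁ : Set Y)) {x : Y} (hx : x ∈ O') {n : ℕ} (hn : n ≤ k) :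
    (I.gam O).ExAt x n :=
  (cos_iff h.inj O n x).1 (FC.Cos.add O.2 O₁.2 h1 isOpen_univ (mem_univ x)
    (fun _ hy _ hm => h.toSAX.cos_dim hk hkd O.2 O₁.2 hd hy.2 (hm.trans (by exact_mod_cast hn)))
    (h.toSAX.cos_dim hk hkd O₁.2 O'.2 hd' hx (by exact_mod_cast hn)))

end Pool.Agent.PWD.TI
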