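import Pool.Agent.P.MP_65ad7c_ag.DTA

open Set Filter Topology

noncomputable section
namespace Pool.Agent.PWD.TI

variable {T : Type} [TopologicalSpace T] {V : Type} [AddCommGroup V] {Q : FC T V}

/-- slicing a compact set along a continuous function -/
theorem slice_ind {K : Set T} (hK : IsCompact K) {g : T → ℝ} (hg : ContinuousOn g K)
    (P : Set T → Prop) (h0 : P ∅) (hm : ∀ A A', A' ⊆ A → P A → P A')
    (hs : ∀ t, ∃ W, IsOpen W ∧ K ∩ g ⁻¹' {t} ⊆ W ∧ P W)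
    (hu : ∀ t t', t ≤ t' → P (K ∩ g ⁻¹' Iic t) → P (K ∩ g ⁻¹' Icc t t') → P (K ∩ g ⁻¹' Iic t')) :
    P K := by
  have hloc : IsLocallyConstant fun t : ℝ => P (K ∩ g ⁻¹' Iic t) := by
    refine (IsLocallyConstant.iff_eventually_eq _).2 fun t => ?_
    obtain ⟨W, hW, h1, h2⟩ := hs t
    have hc : IsClosed (g '' (K \ W)) :=
      ((hK.diff hW).image_of_continuousOn (hg.mono sdiff_subset)).isClosed
    have ht : t ∈ (g '' (K \ W))ᶜ := by
      rintro ⟨x, hx, e⟩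
      exact hx.2 (h1 ⟨hx.1, e⟩)
    obtain ⟨ε, hε, h3⟩ := Metric.nhds_basis_closedBall.mem_iff.1 (hc.isOpen_compl.mem_nhds ht)
    rw [Real.closedBall_eq_Icc] at h3
    have key : ∀ s ∈ Icc (t - ε) (t + ε), ∀ s' ∈ Icc (t - ε) (t + ε),
        P (K ∩ g ⁻¹' Iic s) → P (K ∩ g ⁻¹' Iic s') := by
      intro s h4 s' h5 h6
      rcases le_total s' s with h | h
      · exact hm _ _ (inter_subset_inter_right _ (preimage_mono (Iic_subset_Iic.2 h))) h6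
      · refine hu s s' h h6 (hm _ _ (fun x hx => ?_) h2)
        by_contra hxW
        exact h3 ⟨h4.1.trans hx.2.1, hx.2.2.trans h5.2⟩ ⟨x, ⟨hx.1, hxW⟩, rfl⟩
    have h7 : t ∈ Icc (t - ε) (t + ε) := ⟨by linarith, by linarith⟩
    filter_upwards [Icc_mem_nhds (by linarith : t - ε < t) (by linarith : t < t + ε)] with s h8
    exact propext ⟨key s h8 t h7, key t h7 s h8⟩
  obtain ⟨a, ha⟩ := (hK.image_of_continuousOn hg).bddBelow
  obtain ⟨b, hb⟩ := (hK.image_of_continuousOn hg).bddAbove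
  have e := hloc.apply_eq_of_preconnectedSpace (a - 1) b
  have h1 : P (K ∩ g ⁻¹' Iic (a - 1)) := by
    refine hm _ _ (fun x hx => ?_) h0
    have h2 : a ≤ g x := ha ⟨x, hx.1, rfl⟩
    have h3 : g x ≤ a - 1 := hx.2
    exact absurd h3 (by linarith)
  exact hm (K ∩ g ⁻¹' Iic b) K (fun x hx => ⟨hx, hb ⟨x, hx, rfl⟩⟩) (e ▸ h1)

theorem exists_open_inter [T2Space T] {A A' M : Set T} (hA : IsCompact A) (hA' : IsCompact A')
    (hM : IsOpen M) (h : A ∩ A' ⊆ M) :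
    ∃ O O', IsOpen O ∧ IsOpen O' ∧ A ⊆ O ∧ A' ⊆ O' ∧ O ∩ O' ⊆ M := by
  obtain ⟨N, N', h1, h2, h3, h4, h5⟩ := SeparatedNhds.of_isCompact_isCompact (hA.diff hM)
    (hA'.diff hM) (disjoint_left.2 fun x hx hx' => hx.2 (h ⟨hx.1, hx'.1⟩))
  refine ⟨N ∪ M, N' ∪ M, h1.union hM, h2.union hM, fun x hx => ?_, fun x hx => ?_, ?_⟩
  · by_cases hxM : x ∈ M
    · exact Or.inr hxM
    · exact Or.inl (h3 ⟨hx, hxM⟩)
  · by_cases hxM : x ∈ M
    · exact Or.inr hxM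
    · exact Or.inl (h4 ⟨hx, hxM⟩)
  · rintro x ⟨k1 | k1, k2 | k2⟩
    · exact (disjoint_left.1 h5 k1 k2).elim
    all_goals assumption

theorem exists_closed_inter [T2Space T] [RegularSpace T] {A A' K K' M : Set T} (hA : IsCompact A)
    (hA' : IsCompact A') (hK : K ∈ 𝓝ˢ A) (hK' : K' ∈ 𝓝ˢ A') (hM : M ∈ 𝓝ˢ (A ∩ A')) :
    ∃ L L', IsClosed L ∧ IsClosed L' ∧ L ∈ 𝓝ˢ A ∧ L' ∈ 𝓝ˢ A' ∧ L ⊆ K ∧ L' ⊆ K' ∧ L ∩ L' ⊆ M := by
  obtain ⟨O, O', h1, h2, h3, h4, h5⟩ := exists_open_inter hA hA' isOpen_interior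
    (subset_interior_iff_mem_nhdsSet.2 hM)
  obtain ⟨N, k1, k2, k3⟩ := hA.exists_isOpen_closure_subset (inter_mem hK (h1.mem_nhdsSet.2 h3))
  obtain ⟨N', l1, l2, l3⟩ :=
    hA'.exists_isOpen_closure_subset (inter_mem hK' (h2.mem_nhdsSet.2 h4))
  exact ⟨closure N, closure N', isClosed_closure, isClosed_closure,
    mem_of_superset (k1.mem_nhdsSet.2 k2) subset_closure,
    mem_of_superset (l1.mem_nhdsSet.2 l2) subset_closure, fun x hx => (k3 hx).1,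
    fun x hx => (l3 hx).1, fun x hx => interior_subset (h5 ⟨(k3 hx.1).2, (l3 hx.2).2⟩)⟩

/-- gluing along compact sets -/
theorem FC.glueK [T2Space T] {n : ℤ} {A A' : Set T} (hA : IsCompact A) (hA' : IsCompact A')
    {a a' : V} (ha : a ∈ Q.G n) (ha' : a' ∈ Q.G n) (h : a - a' ∈ Q.van (A ∩ A')) :
    ∃ b ∈ Q.G n, b - a ∈ Q.van A ∧ b - a' ∈ Q.van A' := by
  obtain ⟨O, O', h1, h2, h3, h4, h5⟩ := exists_open_inter hA hA' (Q.opn (a - a')) (FC.mem_van.1 h)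
  obtain ⟨b, hb, k1, k2⟩ := FC.glue2 h1 h2 ha ha' (FC.mem_van.2 h5)
  exact ⟨b, hb, FC.van_anti h3 k1, FC.van_anti h4 k2⟩

/-- splitting along supports -/
theorem FC.split {n : ℤ} {F F' : Set T} (hF : IsClosed F) (hF' : IsClosed F') {a : V}
    (ha : a ∈ Q.G n) (h : a ∈ Q.van (F ∪ F')ᶜ) :
    ∃ b ∈ Q.G n, b ∈ Q.van Fᶜ ∧ a - b ∈ Q.van F'ᶜ := by
  obtain ⟨b, hb, k1, k2⟩ := FC.cut hF'.isOpen_compl hF.isOpen_compl ha
    (by rwa [inter_comm, ← compl_union])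
  exact ⟨b, hb, k2, by simpa using neg_mem k1⟩

/-- Mayer-Vietoris for an intersection of supports -/
theorem FC.Zs.inter {j : ℤ} {F F' : Set T} (hF : IsClosed F) (hF' : IsClosed F')
    (hu : Q.Zs (j - 1) (F ∪ F')) (h : Q.Zs j F) (h' : Q.Zs j F') : Q.Zs j (F ∩ F') := by
  intro a ha h1 h2
  rw [compl_inter, FC.van_union] at h1
  obtain ⟨b, hb, k1, k2⟩ := h a ha h1.1 h2
  obtain ⟨b', hb', l1, l2⟩ := h' a ha h1.2 h2
  obtain ⟨g, hg, m1, m2⟩ := hu (b - b') (sub_mem hb hb')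
    (sub_mem (FC.van_anti (compl_subset_compl.2 subset_union_left) k1)
      (FC.van_anti (compl_subset_compl.2 subset_union_right) l1))
    (by
      have e : Q.d (b - b') = (a - Q.d b') - (a - Q.d b) := by rw [map_sub]; abel
      rw [e]
      exact sub_mem l2 k2)
  obtain ⟨g₁, hg₁, n1, n2⟩ := FC.split hF hF' hg m1
  refine ⟨b - Q.d g₁, sub_mem hb (FC.dG' hg₁), ?_, ?_⟩
  · rw [compl_inter, FC.van_union]
    refine ⟨sub_mem k1 (FC.d_van n1), ?_⟩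
    have e : b - Q.d g₁ = (b - b' - Q.d g) + b' + Q.d (g - g₁) := by rw [map_sub]; abel
    rw [e]
    exact add_mem (add_mem (FC.van_anti (subset_univ _) m2) l1) (FC.d_van n2)
  · rwa [map_sub, Q.dd, sub_zero]

end Pool.Agent.PWD.TI
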