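import Pool.Agent.P.MP_65ad7c_ag.DTQ2
import Pool.Agent.P.MP_65ad7c_ag.DTR1
import Pool.Agent.P.MP_65ad7c_ag.SRig1
import Pool.Agent.P.MP_65ad7c_ag.SRig2
import Pool.Agent.P.MP_65ad7c_ag.SAX

/-! Topological invariance: `I` and `g_* I` are homotopy equivalent. -/

open Set Filter Topology TopologicalSpace Pool.Agent.PW.S

set_option backward.isDefEq.respectTransparency false

noncomputable section
namespace Pool.Agent.PWD.TI

variable {Y : Type} [TopologicalSpace Y]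
  {d : ℕ} {U U' V : ℕ → Opens Y} {I J : Cx Y} {one : (I.X 0).obj (U 1)}

theorem exAt_gam_of_mem (I : Cx Y) {O : Opens Y} {x : Y} (hx : x ∈ O) (n : ℕ) :
    (I.gam O).ExAt x n := fun W hW c _ =>
  ⟨W ⊓ O, inf_le_left, ⟨hW, hx⟩, by
    have : ((I.gam O).X n).res (inf_le_left : W ⊓ O ≤ W) c = 0 := Subtype.ext c.2
    rw [this]
    exact Submodule.zero_mem _⟩

theorem CAX.rig_exists {one' : (J.X 0).obj (U 1)} (hI : CAX U I one) (hJ : CAX U J one') :
    ∃ u : CMap I J, (u.f 0).app (U 1) one = one' :=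
  PW.S.rig_exists hI.toAX.1 hI.toAX.2.1 hI.toAX.2.2 hJ.toAX.2.2

theorem CAX.rig_null {one' : (J.X 0).obj (U 1)} (hI : CAX U I one) (hJ : CAX U J one')
    (u : CMap I J) (hu : (u.f 0).app (U 1) one = 0) : u.Null :=
  PW.S.rig_null hI.toAX.1 hI.toAX.2.1 hI.toAX.2.2 hJ.toAX.2.2 u hu

/-- the axioms hold for the intersection with a second filtration of the same dimensions -/
theorem SX.cax_inf (h : SX d U I one) (hm : Monotone U') (ht : U' (d + 1) = ⊤)
    (hd : ∀ c, LD (2 * (d - c)) (U' (c + 1) \ U' c : Set Y)) (hV : ∀ c, V c = U c ⊓ U' c)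
    (h1 : V 1 ≤ U 1) : CAX V I ((I.X 0).res h1 one) := by
  have hVU : ∀ c, V c ≤ U c := fun c => (hV c).le.trans inf_le_left
  have hmono : Monotone V := fun a b hab => by
    rw [hV, hV]; exact inf_le_inf (h.mono hab) (hm hab)
  have htop : V (d + 1) = ⊤ := by rw [hV, h.top', ht, inf_idem]
  refine ⟨hmono, ⟨_, htop⟩, h.inj, I.res_cocycle h1 h.closed, fun W hW hne => ?_,
    fun x W hW hx c hc => ?_, fun c x hx n h0 hn => h.supp c x (hVU _ hx) n h0 hn,
    fun c hc x hx n hn => ?_⟩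
  · rw [PS.res_res]
    exact h.ne W _ hne
  · obtain ⟨W', hW', a, hx', e⟩ := h.gen x W (hW.trans h1) hx c hc
    exact ⟨W', hW', a, hx', by rw [e, PS.res_res]⟩
  · rcases le_or_gt c d with hcd | hcd
    · refine h.cos2 hc hcd (O₁ := U c ⊓ U' (c + 1)) (O' := V (c + 1)) ?_
        ((hd c).mono ?_) ((h.ld c).mono ?_) hx hn
      · rw [hV]; exact inf_le_inf le_rfl (hm c.le_succ)
      · rintro y ⟨hy, hy'⟩
        refine ⟨hy.2, fun h' => hy' ?_⟩
        rw [hV]; exact ⟨hy.1, h'⟩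
      · rintro y ⟨hy, hy'⟩
        rw [hV] at hy
        exact ⟨hy.1, fun h' => hy' ⟨h', hy.2⟩⟩
    · exact exAt_gam_of_mem I (hmono hcd (htop ▸ trivial)) n

/-- two complexes with the textbook axioms are homotopy equivalent -/
theorem SX.heq {one' : (J.X 0).obj (U' 1)} (h : SX d U I one) (h' : SX d U' J one') :
    ∃ (a : CMap I J) (b : CMap J I), PW.S.HEq a b ∧
      (I.X 0).res (inf_le_right : U 1 ⊓ U' 1 ≤ U' 1) ((b.f 0).app _ one') =
        (I.X 0).res inf_le_left one := by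
  have c1 := h.cax_inf (V := fun c => U c ⊓ U' c) h'.mono h'.top' h'.ld (fun _ => rfl) inf_le_left
  have c2 := h'.cax_inf (V := fun c => U c ⊓ U' c) h.mono h.top' h.ld (fun _ => inf_comm _ _)
    inf_le_right
  obtain ⟨a, ha⟩ := c1.rig_exists c2
  obtain ⟨b, hb⟩ := c2.rig_exists c1
  refine ⟨a, b, ⟨c1.rig_null c1 _ ?_, c2.rig_null c2 _ ?_⟩, ?_⟩
  · rw [CMap.sub_app, CMap.comp_app, ha, hb, CMap.id_app, sub_self]
  · rw [CMap.sub_app, CMap.comp_app, hb, ha, CMap.id_app, sub_self]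
  · rw [(b.f 0).nat, hb]

theorem heq_zero_left {A B : Cx Y} {a : CMap A B} {b : CMap B A} (h : PW.S.HEq a b) {W : Opens Y}
    {s : (A.X 0).obj W} (hs : (A.d 0).app W s = 0) : (b.f 0).app W ((a.f 0).app W s) = s := by
  have := h.left.bd s hs
  rw [CMap.sub_app, CMap.comp_app, CMap.id_app] at this
  exact sub_eq_zero.1 ((Submodule.mem_bot ℂ).1 this)

/-- the data carried by a homeomorphism -/
theorem SX.transport (h : SX d U I one) (g : Y ≃ₜ Y) :
    (∀ c, ∀ x ∈ img g (U (c + 1)), ∀ n, 0 < n → c ≤ n → I.ExAt x n) ∧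
    ∃ e : (I.X 0).obj (img g (U 1)), (I.d 0).app _ e = 0 ∧
      (I.X 0).res (inf_le_right : U 1 ⊓ img g (U 1) ≤ _) e = (I.X 0).res inf_le_left one ∧
      (∀ (W : Opens Y) (hW : W ≤ img g (U 1)), W ≠ ⊥ → (I.X 0).res hW e ≠ 0) ∧
      ∀ (x : Y) (W : Opens Y) (hW : W ≤ img g (U 1)), x ∈ W → ∀ c : (I.X 0).obj W,
        (I.d 0).app W c = 0 → ∃ (W' : Opens Y) (hW' : W' ≤ W) (a : ℂ), x ∈ W' ∧
          (I.X 0).res hW' c = a • (I.X 0).res (hW'.trans hW) e := by
  have h' := h.push g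
  obtain ⟨a, b, hab, he⟩ := h.heq h'
  have hba : PW.S.HEq b a := ⟨hab.right, hab.left⟩
  refine ⟨fun c x hx n h0 hn => hba.exAt (h'.supp c x hx n h0 hn), (b.f 0).app _ (onePush g one),
    b.map_cocycle h'.closed, he, fun W hW hne h0 => h'.ne W hW hne ?_, fun x W hW hx c hc => ?_⟩
  · rw [(b.f 0).nat] at h0
    rw [← heq_zero_left hba (Cx.res_cocycle _ hW h'.closed), h0, map_zero]
  · obtain ⟨W', hW', t, hx', e⟩ := h'.gen x W hW hx _ (a.map_cocycle hc)
    refine ⟨W', hW', t, hx', ?_⟩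
    rw [(a.f 0).nat] at e
    rw [← heq_zero_left hab (I.res_cocycle hW' hc), e, map_smul, (b.f 0).nat]

/-- the axioms hold for the saturated filtration -/
theorem SX.exists_sat (h : SX d U I one) : ∃ one' : (I.X 0).obj (sat (U 1)),
    CAX (fun c => sat (U c)) I one' ∧ (I.X 0).res (le_sat _) one' = one := by
  choose hs e hc he hne hgen using h.transport
  have hcomp : ∀ g g' : Y ≃ₜ Y,
      (I.X 0).res (inf_le_left : img g (U 1) ⊓ img g' (U 1) ≤ _) (e g) =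
        (I.X 0).res inf_le_right (e g') := by
    intro g g'
    refine sub_eq_zero.1 (h.toCAX.eq_zero ?_ ?_)
    · rw [map_sub, I.res_cocycle _ (hc g), I.res_cocycle _ (hc g'), sub_self]
    · have l1 : img g (U 1) ⊓ img g' (U 1) ⊓ U 1 ≤ U 1 ⊓ img g (U 1) :=
        le_inf inf_le_right (inf_le_left.trans inf_le_left)
      have l2 : img g (U 1) ⊓ img g' (U 1) ⊓ U 1 ≤ U 1 ⊓ img g' (U 1) :=
        le_inf inf_le_right (inf_le_left.trans inf_le_right)
      have e1 := congrArg ((I.X 0).res l1) (he g)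
      have e2 := congrArg ((I.X 0).res l2) (he g')
      simp only [PS.res_res] at e1 e2
      rw [map_sub, PS.res_res, PS.res_res, e1, e2, sub_self]
  obtain ⟨t, ht⟩ := inj_glue' (h.inj 0) (fun g : Y ≃ₜ Y => img g (U 1)) e hcomp
  have hmem : ∀ {O : Opens Y} {x : Y}, x ∈ sat O → ∃ g, x ∈ img g O := fun hx =>
    Opens.mem_iSup.1 hx
  have hres : ∀ g (W : Opens Y) (hW : W ≤ img g (U 1)) (hW' : W ≤ sat (U 1)),
      (I.X 0).res hW' ((I.X 0).res le_top t) = (I.X 0).res hW (e g) := fun g W hW hW' => by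
    rw [← ht g, PS.res_res, PS.res_res]
  have htop : sat (U (d + 1)) = ⊤ := top_le_iff.1 (h.top' ▸ le_sat _)
  have hmono : Monotone fun c => sat (U c) := sat_mono.comp h.mono
  refine ⟨(I.X 0).res le_top t, ⟨hmono, ⟨_, htop⟩, h.inj, ?_, fun W hW hW0 h0 => ?_,
    fun x W hW hx c hc' => ?_, fun c x hx n h0 hn => ?_, fun c hc' x hx n hn => ?_⟩, ?_⟩
  · refine inj_sep (h.inj 1) _ fun x hx => ?_
    obtain ⟨g, hg⟩ := hmem hx
    have l : img g (U 1) ≤ sat (U 1) := le_iSup (fun g : Y ≃ₜ Y => img g (U 1)) g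
    refine ⟨_, l, hg, ?_⟩
    rw [(I.d 0).nat, hres g _ le_rfl, PS.res_self, hc]
  · obtain ⟨x, hx⟩ := (Opens.ne_bot_iff_nonempty _).1 hW0
    obtain ⟨g, hg⟩ := hmem (hW hx)
    refine hne g (W ⊓ img g (U 1)) inf_le_right
      ((Opens.ne_bot_iff_nonempty _).2 ⟨x, hx, hg⟩) ?_
    rw [← hres g _ _ (inf_le_left.trans hW), ← PS.res_res _ hW inf_le_left, h0, map_zero]
  · obtain ⟨g, hg⟩ := hmem (hW hx)
    obtain ⟨W', hW', a, hx', e'⟩ := hgen g x (W ⊓ img g (U 1)) inf_le_right ⟨hx, hg⟩ _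
      (I.res_cocycle inf_le_left hc')
    refine ⟨W', hW'.trans inf_le_left, a, hx', ?_⟩
    rw [PS.res_res] at e'
    rw [e', hres g _ (hW'.trans inf_le_right)]
  · obtain ⟨g, hg⟩ := hmem hx
    exact hs g c x hg n h0 hn
  · rcases le_or_gt c d with hcd | hcd
    · refine h.cos hc' hcd (O' := sat (U (c + 1))) (LD.of_loc fun y hy => ?_) hx hn
      obtain ⟨g, hg⟩ := hmem hy.1
      refine ⟨_, _, (img g (U (c + 1))).2, hg, (h.push g).ld c, fun z hz => ⟨hz.1, fun hz' => ?_⟩⟩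
      exact hz.2.2 (le_iSup (fun g : Y ≃ₜ Y => img g (U c)) g hz')
    · exact exAt_gam_of_mem I (hmono hcd (htop.ge trivial)) n
  · have l : U 1 ≤ img (Homeomorph.refl Y) (U 1) := fun _ hx => hx
    have e1 := congrArg ((I.X 0).res (le_inf le_rfl l)) (he (Homeomorph.refl Y))
    simp only [PS.res_res, PS.res_self] at e1
    rw [hres _ _ l, e1]

end Pool.Agent.PWD.TI
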