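import Pool.Agent.P.MP_65ad7c_ag.DDefs

/-! An affine variety is a closed subset of complex affine space. -/

open Set TopologicalSpace Topology Filter

noncomputable section
namespace Pool.Agent.PWD

variable {R : Type} [CommRing R] [Algebra ℂ R] {Y : Set (R → ℂ)}

/-- `Y` is the set of complex points of a closed subvariety of `Spec R` -/
def IsVar (Y : Set (R → ℂ)) : Prop :=
  ∃ P : Set R, Y = {y | (∃ φ : R →ₐ[ℂ] ℂ, ⇑φ = y) ∧ ∀ f ∈ P, y f = 0}

variable {N : ℕ} {f : Fin N → R}

theorem dvar_surj (hf : Algebra.adjoin ℂ (range f) = ⊤) :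
    Function.Surjective (MvPolynomial.aeval f : MvPolynomial (Fin N) ℂ →ₐ[ℂ] R) := by
  rw [Algebra.adjoin_range_eq_range_aeval] at hf
  exact (AlgHom.range_eq_top _).1 hf

theorem dvar_eval (φ : R →ₐ[ℂ] ℂ) (p : MvPolynomial (Fin N) ℂ) :
    φ (MvPolynomial.aeval f p) = MvPolynomial.eval (fun j => φ (f j)) p := by
  rw [MvPolynomial.comp_aeval_apply]
  rfl

/-- regular functions are polynomials in the coordinates -/
theorem IsVar.exists_poly (hY : IsVar Y) (hf : Algebra.adjoin ℂ (range f) = ⊤) (g : R) :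
    ∃ p : MvPolynomial (Fin N) ℂ, ∀ y : Y, y.1 g = MvPolynomial.eval (fun j => y.1 (f j)) p := by
  obtain ⟨p, rfl⟩ := dvar_surj hf g
  obtain ⟨P, rfl⟩ := hY
  refine ⟨p, fun y => ?_⟩
  obtain ⟨φ, hφ⟩ := y.2.1
  rw [← hφ, dvar_eval]

/-- the coordinates embed `Y` as a closed subset of `ℂ^N` -/
theorem IsVar.closedEmb (hY : IsVar Y) (hf : Algebra.adjoin ℂ (range f) = ⊤) :
    Topology.IsClosedEmbedding fun (y : Y) j => y.1 (f j) := by
  choose p hp using hY.exists_poly hf
  have hc : Continuous fun (y : Y) j => y.1 (f j) :=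
    continuous_pi fun j => (continuous_apply (f j)).comp continuous_subtype_val
  have hr : Continuous fun (z : Fin N → ℂ) (g : R) => MvPolynomial.eval z (p g) :=
    continuous_pi fun g => MvPolynomial.continuous_eval (p g)
  have he : (fun (z : Fin N → ℂ) (g : R) => MvPolynomial.eval z (p g)) ∘
      (fun (y : Y) j => y.1 (f j)) = Subtype.val := funext fun y => funext fun g => (hp g y).symm
  refine ⟨IsEmbedding.of_comp hc hr (by rw [he]; exact IsEmbedding.subtypeVal), ?_⟩
  obtain ⟨P, hP⟩ := hY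
  have : range (fun (y : Y) j => y.1 (f j)) = ⋂ q ∈ {q : MvPolynomial (Fin N) ℂ |
      MvPolynomial.aeval f q = 0 ∨ MvPolynomial.aeval f q ∈ P},
      {z | MvPolynomial.eval z q = 0} := by
    ext z
    simp only [mem_iInter, mem_ofPred_eq, mem_range]
    constructor
    · rintro ⟨y, rfl⟩ q hq
      obtain ⟨⟨φ, hφ⟩, hy⟩ : (∃ φ : R →ₐ[ℂ] ℂ, ⇑φ = y.1) ∧ ∀ g ∈ P, y.1 g = 0 :=
        hP.le y.2
      rw [← hφ, ← dvar_eval]
      rcases hq with h | h
      · rw [h, map_zero]
      · rw [hφ]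
        exact hy _ h
    · intro hz
      let φ : R →ₐ[ℂ] ℂ := AlgHom.liftOfSurjective _ (dvar_surj hf) (MvPolynomial.aeval z)
        fun q hq => hz q (Or.inl hq)
      have hφ : ∀ q, φ (MvPolynomial.aeval f q) = MvPolynomial.eval z q := fun q =>
        AlgHom.liftOfSurjective_apply _ _ _ _ q
      refine ⟨⟨φ, ?_⟩, funext fun j => ?_⟩
      · rw [hP]
        refine ⟨⟨φ, rfl⟩, fun g hg => ?_⟩
        obtain ⟨q, rfl⟩ := dvar_surj hf g
        rw [hφ]
        exact hz q (Or.inr hg)
      · simpa using hφ (MvPolynomial.X j)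
  rw [this]
  exact isClosed_biInter fun q _ => isClosed_eq (MvPolynomial.continuous_eval q) continuous_const

theorem IsVar.locallyCompact (hY : IsVar Y) (hf : Algebra.adjoin ℂ (range f) = ⊤) :
    LocallyCompactSpace Y := (hY.closedEmb hf).locallyCompactSpace

theorem IsVar.secondCountable (hY : IsVar Y) (hf : Algebra.adjoin ℂ (range f) = ⊤) :
    SecondCountableTopology Y := (hY.closedEmb hf).isEmbedding.secondCountableTopology

theorem IsVar.metrizable (hY : IsVar Y) (hf : Algebra.adjoin ℂ (range f) = ⊤) :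
    MetrizableSpace Y := (hY.closedEmb hf).isEmbedding.metrizableSpace

end Pool.Agent.PWD
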