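import Pool.Agent.P.MP_65ad7c_ag.DYC
import Pool.Agent.P.MP_65ad7c_ag.DYP

/-! Y1 and Y3. -/

open Set TopologicalSpace CategoryTheory

noncomputable section
namespace Pool.Agent.PWD
open SY

variable {R : Type} [CommRing R] [Algebra ℂ R] {Y : Set (R → ℂ)}
  {N d : ℕ} {f : Fin N → R} {U : ℕ → Opens Y} {I : Cx Y} {one : Sec I 0 (U 1)} (C : DR one)

/-- Y1 -/
theorem DR.y1 (hY : IsVar Y) (hf : Algebra.adjoin ℂ (range f) = ⊤) (hU : IsStrat d U)
    (hI : IsIC U I one) {H Z : Set Y} (hH : ∃ T : Set R, ∀ y, y ∈ H ↔ ∀ g ∈ T, y.1 g = 0)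
    (hZ : H ⊆ Z) {m : ℕ} (hd : ∀ e, DimLT ((U e : Set Y)ᶜ ∩ H) (m - e)) {W : Opens Y}
    {x : (C.A m).obj W} (hx : (C.d m).app W x = 0) (hr : C.Rel Z x 0) :
    ∃ (O : Opens Y) (h : O ≤ W) (x' : (C.A m).obj O), Z ⊆ O ∧ C.Ex ∅ ((C.A m).res h x - x') ∧
      C.Van H x' ∧ C.Ex H ((C.A m).res (inf_le_left : O ⊓ U 1 ≤ O) x') := by
  have := hY.locallyCompact hf
  have := hY.secondCountable hf
  obtain ⟨O, h, hZO, hb⟩ := (rel_iff C).1 hr
  have hb1 : Bd univ (C.u m O ((C.A m).res h x)) := by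
    have e := hb.neg
    rwa [map_zero, zero_sub, neg_neg] at e
  have hs : Supp (U 1 : Set Y) (C.u m O ((C.A m).res h x)) := by
    have e := u_supp C (van_sing C ((C.A m).res h x))
    rwa [compl_compl] at e
  have hcH : IsClosed H := alg_closed hH
  have hcU : IsClosed (U 1 : Set Y)ᶜ := (U 1).isOpen.isClosed_compl
  obtain ⟨s', h1, h2, h3⟩ := y1_sheaf hY hf hI hcH (hZ.trans hZO) hs
    (y1_prim hY hf hU hI hH hd (hZ.trans hZO) hs hb1)
  obtain ⟨x', hv, hx', h4⟩ := cmp_surj C hI (hcH.union hcU) (fun _ _ hy => Or.inr hy) h2 h3.closed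
  have hvH : C.Van H x' := fun y hy hyH => hv y hy (Or.inl hyH)
  refine ⟨O, h, x', hZO, ?_, hvH, ?_⟩
  · refine ex_mono C (cmp_inj C hI hcU (fun _ _ hy => hy) (van_sing C _) ?_ ?_) (empty_subset _)
    · rw [map_sub, res_closed C hx h, hx', sub_zero]
    · have e := (h1.mono (C' := (U 1 : Set Y)ᶜᶜ) fun _ _ hy hy' => hy' hy).add
        (h4.mono fun _ _ hy hy' => hy (Or.inr hy'))
      rwa [sub_add_sub_cancel, ← map_sub] at e
  · refine cmp_inj C hI (W := O ⊓ U 1) hcH (fun _ hy hy' => absurd hy.2 hy')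
      ((van_iff C).2 ((van (C.A m) H).res_mem _ ((van_iff C).1 hvH))) (res_closed C hx' _) ?_
    have e := (h3.sub (h4.mono fun _ _ hy hy' => hy (Or.inl hy'))).res
      (inf_le_left : O ⊓ U 1 ≤ O)
    rwa [sub_sub_cancel, C.u_res] at e

/-- Y3 -/
theorem DR.y3 (hY : IsVar Y) (hf : Algebra.adjoin ℂ (range f) = ⊤) (hI : IsIC U I one)
    {Z : Set Y} {m : ℕ} {W : Opens Y} {x : (C.A m).obj W} (hx : (C.d m).app W x = 0)
    {α : Sec I m ⊤} (hα : dd m (m + 1) α = 0) (hr : C.Rel Z x α) :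
    ∃ (ψ : (C.A m).obj (U 1)) (O : Opens Y) (h : O ≤ W), Z ⊆ O ∧ (C.d m).app _ ψ = 0 ∧
      C.Ex ∅ ((C.A m).res ((inf_le_left : O ⊓ U 1 ≤ O).trans h) x -
        (C.A m).res inf_le_right ψ) := by
  have := hY.locallyCompact hf
  have := hY.secondCountable hf
  obtain ⟨O, h, hZO, hb⟩ := (rel_iff C).1 hr
  obtain ⟨ψ, -, hψ, h1⟩ := cmp_surj C hI (W := U 1) isClosed_empty (fun _ hy hy' => absurd hy hy')
    (s := rs le_top α) (by rw [compl_empty]; exact supp_univ _) (by rw [← rs_d, hα, map_zero])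
  refine ⟨ψ, O, h, hZO, hψ, cmp_inj C hI (W := O ⊓ U 1) isClosed_empty
    (fun _ hy hy' => absurd hy.2 hy') (fun _ _ hy => hy.elim) ?_ ?_⟩
  · rw [map_sub, res_closed C hx, res_closed C hψ, sub_zero]
  · rw [compl_empty] at h1 ⊢
    have e := (h1.res (inf_le_right : O ⊓ U 1 ≤ U 1)).sub (hb.res (inf_le_left : O ⊓ U 1 ≤ O))
    rwa [map_sub, map_sub, rs_comp, rs_comp, sub_sub_sub_cancel_left, C.u_res, C.u_res,
      (C.A m).res_res, ← map_sub] at e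

end Pool.Agent.PWD
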