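import Pool.Agent.P.MP_65ad7c_ag.DDefs
import Pool.Agent.P.MP_65ad7c_ag.DS1

/-! The terms of `I` as elementary sheaves; the extension property of injective sheaves. -/

open Set TopologicalSpace CategoryTheory

set_option backward.isDefEq.respectTransparency false

noncomputable section
namespace Pool.Agent.PWD.SY

variable {Y : Type} [TopologicalSpace Y] {I : Cx Y} {n k : ℕ} {W W' W'' : Opens Y}

@[simp] theorem rs_self (h : W ≤ W) (s : Sec I n W) : rs h s = s :=
  congrArg (fun f => ModuleCat.Hom.hom f s) ((I.X n).obj.map_id (Opposite.op W))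

@[simp] theorem rs_comp (h : W' ≤ W) (h' : W'' ≤ W') (s : Sec I n W) :
    rs h' (rs h s) = rs (h'.trans h) s :=
  congrArg (fun f => ModuleCat.Hom.hom f s)
    ((I.X n).obj.map_comp (homOfLE h).op (homOfLE h').op).symm

theorem rs_d (h : W' ≤ W) (t : Sec I k W) : rs h (dd k n t) = dd k n (rs h t) :=
  congrArg (fun f => ModuleCat.Hom.hom f t) ((I.d k n).hom.naturality (homOfLE h).op).symm

/-- the term `I^n` -/
def IP (I : Cx Y) (n : ℕ) : PSh ℂ Y where
  obj W := Sec I n W
  res h := rs h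
  res_id _ x := rs_self _ x
  res_res h h' x := rs_comp h h' x

theorem IP_sh (I : Cx Y) (n : ℕ) : (IP I n).IsSh := by
  let F : TopCat.Sheaf (ModuleCat.{0} ℂ) (TopCat.of Y) := I.X n
  refine ⟨fun O x hx => ?_, fun O x hx => ?_⟩
  · choose V hV hy h0 using fun y : O => hx y.1 y.2
    exact F.eq_of_locally_eq' V O (fun y => homOfLE (hV y))
      (fun y h => Opens.mem_iSup.2 ⟨⟨y, h⟩, hy ⟨y, h⟩⟩) x (0 : Sec I n O)
      fun y => (h0 y).trans (map_zero (rs (hV y))).symm
  · exact (F.existsUnique_gluing O (fun i => (x i : Sec I n (O i))) fun i j => hx i j).exists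

/-- the extension property -/
def Ext (J : PSh ℂ Y) : Prop :=
  ∀ (A B : PSh ℂ Y) (f : Hom A B) (g : Hom A J), (∀ V a, f.app V a = 0 → g.app V a = 0) →
    ∃ h : Hom B J, ∀ V a, h.app V (f.app V a) = g.app V a

/-- an elementary presheaf as a functor -/
def dybF (A : PSh ℂ Y) : (Opens Y)ᵒᵖ ⥤ ModuleCat.{0} ℂ where
  obj V := ModuleCat.of ℂ (A.obj V.unop)
  map h := ModuleCat.ofHom (A.res (leOfHom h.unop))
  map_id V := ModuleCat.hom_ext (LinearMap.ext fun x => A.res_id V.unop x)
  map_comp _ _ := ModuleCat.hom_ext (LinearMap.ext fun x => (A.res_res _ _ x).symm)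

/-- the coimage -/
def dybQ {A B : PSh ℂ Y} (f : Hom A B) : (Opens Y)ᵒᵖ ⥤ ModuleCat.{0} ℂ where
  obj V := ModuleCat.of ℂ (A.obj V.unop ⧸ LinearMap.ker (f.app V.unop))
  map h := ModuleCat.ofHom (Submodule.mapQ _ _ (A.res (leOfHom h.unop)) fun x hx => by
    rw [Submodule.mem_comap, LinearMap.mem_ker, ← f.nat, LinearMap.mem_ker.1 hx, map_zero])
  map_id V := ModuleCat.hom_ext (Submodule.linearMap_qext _ (LinearMap.ext fun x =>
    congrArg Submodule.Quotient.mk (A.res_id V.unop x)))
  map_comp _ _ := ModuleCat.hom_ext (Submodule.linearMap_qext _ (LinearMap.ext fun x =>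
    congrArg Submodule.Quotient.mk (A.res_res _ _ x).symm))

theorem ext_of_inj (hI : Injective (I.X n)) : Ext (IP I n) := by
  intro A B f g hfg
  have hP : Injective (I.X n).obj :=
    Injective.injective_of_adjoint (sheafificationAdjunction _ (ModuleCat.{0} ℂ)) (I.X n)
  let f' : dybQ f ⟶ dybF B :=
    { app := fun V => ModuleCat.ofHom ((LinearMap.ker (f.app V.unop)).liftQ (f.app V.unop) le_rfl)
      naturality := fun _ _ h => ModuleCat.hom_ext (Submodule.linearMap_qext _
        (LinearMap.ext fun x => (f.nat (leOfHom h.unop) x).symm)) }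
  let g' : dybQ f ⟶ (I.X n).obj :=
    { app := fun V => ModuleCat.ofHom ((LinearMap.ker (f.app V.unop)).liftQ (g.app V.unop)
        fun x hx => hfg _ x hx)
      naturality := fun _ _ h => ModuleCat.hom_ext (Submodule.linearMap_qext _
        (LinearMap.ext fun x => (g.nat (leOfHom h.unop) x).symm)) }
  have : ∀ V, Mono (f'.app V) := fun V => (ModuleCat.mono_iff_injective _).2
    (LinearMap.ker_eq_bot.1 (Submodule.ker_liftQ_eq_bot _ _ _ le_rfl))
  have : Mono f' := NatTrans.mono_of_mono_app f'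
  obtain ⟨h, hh⟩ := hP.factors g' f'
  refine ⟨⟨fun V => (h.app (Opposite.op V)).hom, fun hV x => ?_⟩, fun V a => ?_⟩
  · exact congrArg (fun f => ModuleCat.Hom.hom f x) (h.naturality (homOfLE hV).op).symm
  · exact congrArg (fun f : dybQ f ⟶ (I.X n).obj =>
      ModuleCat.Hom.hom (f.app (Opposite.op V)) (Submodule.Quotient.mk a)) hh

end Pool.Agent.PWD.SY
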