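import Pool.Agent.P.MP_65ad7c_ag.DYB

/-! Consequences of the extension property. -/

open Set TopologicalSpace CategoryTheory

noncomputable section
namespace Pool.Agent.PWD.SY

variable {Y : Type} [TopologicalSpace Y] {J : PSh ℂ Y}

/-- constants, only zero outside `W` -/
def dyhSub (W O : Opens Y) : Submodule ℂ ℂ where
  carrier := {c | O ≤ W ∨ c = 0}
  add_mem' := by
    rintro a b (ha | ha) (hb | hb)
    · exact Or.inl ha
    · exact Or.inl ha
    · exact Or.inl hb
    · exact Or.inr (by rw [ha, hb, add_zero])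
  zero_mem' := Or.inr rfl
  smul_mem' := by
    rintro c a (ha | ha)
    · exact Or.inl ha
    · exact Or.inr (by rw [ha, smul_zero])

theorem dyhSub_le (W : Opens Y) {O O' : Opens Y} (h : O' ≤ O) : dyhSub W O ≤ dyhSub W O' := by
  rintro c (hc | hc)
  · exact Or.inl (h.trans hc)
  · exact Or.inr hc

/-- the constant presheaf extended by zero -/
def dyhA (W : Opens Y) : PSh ℂ Y where
  obj O := dyhSub W O
  res h := Submodule.inclusion (dyhSub_le W h)
  res_id _ _ := rfl
  res_res _ _ _ := rfl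

/-- the constant presheaf -/
def dyhB (Y : Type) [TopologicalSpace Y] : PSh ℂ Y where
  obj _ := ℂ
  res _ := LinearMap.id
  res_id _ _ := rfl
  res_res _ _ _ := rfl

/-- the inclusion -/
def dyhF (W : Opens Y) : Hom (dyhA W) (dyhB Y) where
  app O := (dyhSub W O).subtype
  nat _ _ := rfl

open Classical in
/-- the restriction of `s`, or zero -/
def dyhV {W : Opens Y} (s : J.obj W) (O : Opens Y) : J.obj O :=
  if h : O ≤ W then J.res h s else 0

theorem dyhV_of_le {W : Opens Y} (s : J.obj W) {O : Opens Y} (h : O ≤ W) :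
    dyhV s O = J.res h s := dif_pos h

/-- the map given by a section -/
def dyhG {W : Opens Y} (s : J.obj W) : Hom (dyhA W) J where
  app O := (LinearMap.toSpanSingleton ℂ (J.obj O) (dyhV s O)).comp (dyhSub W O).subtype
  nat {O O'} h x := by
    obtain ⟨c, hc⟩ := x
    change J.res h (c • dyhV s O) = c • dyhV s O'
    rcases hc with hc | hc
    · rw [dyhV_of_le s hc, dyhV_of_le s (h.trans hc), map_smul, J.res_res]
    · rw [hc, zero_smul, zero_smul, map_zero]

theorem Ext.flabby (hJ : Ext J) {V W : Opens Y} (h : W ≤ V) (s : J.obj W) :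
    ∃ t : J.obj V, J.res h t = s := by
  obtain ⟨k, hk⟩ := hJ (dyhA W) (dyhB Y) (dyhF W) (dyhG s) (by
    rintro O ⟨c, hc⟩ h0
    have h1 : c = 0 := h0
    change c • dyhV s O = 0
    rw [h1, zero_smul])
  refine ⟨k.app V (1 : ℂ), ?_⟩
  rw [k.nat]
  have h2 := hk W (⟨1, Or.inl le_rfl⟩ : dyhSub W W)
  refine Eq.trans h2 ?_
  change (1 : ℂ) • dyhV s W = s
  rw [one_smul, dyhV_of_le s le_rfl, J.res_id]

/-- direct image -/
def push (J : PSh ℂ Y) (s : C(Y, Y)) : PSh ℂ Y where
  obj W := J.obj (Opens.comap s W)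
  res h := J.res (Opens.comap_mono s h)
  res_id _ x := J.res_id _ x
  res_res _ _ x := J.res_res _ _ x

theorem dyh_le1 (s : Y ≃ₜ Y) (V : Opens Y) :
    V ≤ Opens.comap (s : C(Y, Y)) (Opens.comap (s.symm : C(Y, Y)) V) := by
  intro y hy
  change s.symm (s y) ∈ V
  rwa [s.symm_apply_apply]

theorem dyh_le2 (s : Y ≃ₜ Y) (V : Opens Y) :
    Opens.comap (s.symm : C(Y, Y)) (Opens.comap (s : C(Y, Y)) V) ≤ V := by
  intro y hy
  have h : s (s.symm y) ∈ V := hy
  rwa [s.apply_symm_apply] at h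

/-- direct image of a map -/
def dyhPush {A B : PSh ℂ Y} (f : Hom A B) (s : C(Y, Y)) : Hom (push A s) (push B s) where
  app W := f.app (Opens.comap s W)
  nat h x := f.nat (Opens.comap_mono s h) x

/-- first transposition -/
def dyhL {A : PSh ℂ Y} (s : Y ≃ₜ Y) (g : Hom A (push J (s : C(Y, Y)))) :
    Hom (push A (s.symm : C(Y, Y))) J where
  app V := (J.res (dyh_le1 s V)).comp (g.app (Opens.comap (s.symm : C(Y, Y)) V))
  nat {O O'} h x := by
    have h1 := g.nat (Opens.comap_mono (s.symm : C(Y, Y)) h) x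
    change J.res h (J.res (dyh_le1 s O) (g.app _ x)) = J.res (dyh_le1 s O') (g.app _ (A.res _ x))
    erw [← h1]
    exact (J.res_res _ _ _).trans (J.res_res _ _ _).symm

/-- second transposition -/
def dyhR {B : PSh ℂ Y} (s : Y ≃ₜ Y) (k : Hom (push B (s.symm : C(Y, Y))) J) :
    Hom B (push J (s : C(Y, Y))) where
  app W := (k.app (Opens.comap (s : C(Y, Y)) W)).comp (B.res (dyh_le2 s W))
  nat {O O'} h x := by
    have h1 := k.nat (Opens.comap_mono (s : C(Y, Y)) h) (B.res (dyh_le2 s O) x)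
    refine Eq.trans h1 ?_
    exact congrArg (k.app _) ((B.res_res _ _ _).trans (B.res_res _ _ _).symm)

theorem Ext.push (hJ : Ext J) (s : Y ≃ₜ Y) : Ext (push J (s : C(Y, Y))) := by
  intro A B f g hfg
  obtain ⟨k, hk⟩ := hJ _ _ (dyhPush f (s.symm : C(Y, Y))) (dyhL s g) (by
    intro V a ha
    have h1 := hfg _ a ha
    exact (congrArg (J.res (dyh_le1 s V)) h1).trans (map_zero _))
  refine ⟨dyhR s k, fun V a => ?_⟩
  have h1 := hk (Opens.comap (s : C(Y, Y)) V) (A.res (dyh_le2 s V) a)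
  have h2 := f.nat (dyh_le2 s V) a
  have h3 := g.nat (dyh_le2 s V) a
  refine (congrArg (k.app _) h2).trans (h1.trans ?_)
  refine (congrArg (J.res (dyh_le1 s _)) h3.symm).trans ?_
  exact (J.res_res _ _ _).trans (J.res_id _ _)

theorem push_sep (hJ : (⊥ : Sub J).Loc) (s : C(Y, Y)) : (⊥ : Sub (push J s)).Loc := by
  intro O x hx
  refine hJ (Opens.comap s O) x fun y hy => ?_
  obtain ⟨O', h, hy', h0⟩ := hx (s y) hy
  exact ⟨Opens.comap s O', Opens.comap_mono s h, hy', h0⟩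

theorem dyh_step {A B J J' : PSh ℂ Y} (f : Hom A B) (k : Hom B J) (δ : Hom J J') (φ : Hom B J')
    (sep : (⊥ : Sub J').Loc) (h : ∀ W z, δ.app W (k.app W (f.app W z)) = φ.app W (f.app W z))
    (W : Opens Y) (x : B.obj W) (hx : ∀ y ∈ W, (Sub.map f ⊤).Near x y) :
    δ.app W (k.app W x) = φ.app W x := by
  refine sub_eq_zero.1 ((Submodule.mem_bot ℂ).1 (sep W _ fun y hy => ?_))
  obtain ⟨O, hO, hyO, z, -, hz⟩ := near_map.1 (hx y hy)
  refine near_bot.2 ⟨O, hO, hyO, ?_⟩
  rw [map_sub, δ.nat, k.nat, φ.nat, ← hz, h, sub_self]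

/-- the corrected map -/
def dyhC {A J J' : PSh ℂ Y} (φ : Hom A J') (k : Hom A J) (δ : Hom J J') : Hom A J' where
  app W := φ.app W - (δ.app W).comp (k.app W)
  nat {O O'} h x := by
    change J'.res h (φ.app O x - δ.app O (k.app O x)) = φ.app O' _ - δ.app O' (k.app O' _)
    rw [map_sub, φ.nat, δ.nat, k.nat]

theorem dyhC_app {A J J' : PSh ℂ Y} (φ : Hom A J') (k : Hom A J) (δ : Hom J J') (W : Opens Y)
    (x : A.obj W) : (dyhC φ k δ).app W x = φ.app W x - δ.app W (k.app W x) := rfl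

/-- a chain map from a locally exact complex that kills the cocycles of degree zero sends
cocycles to coboundaries -/
theorem null_bd {A J : ℕ → PSh ℂ Y} (d : ∀ n, Hom (A n) (A (n + 1)))
    (δ : ∀ n, Hom (J n) (J (n + 1))) (δδ : ∀ n W x, (δ (n + 1)).app W ((δ n).app W x) = 0)
    (hJ : ∀ n, Ext (J n)) (sep : ∀ n, (⊥ : Sub (J n)).Loc) (φ : ∀ n, Hom (A n) (J n))
    (comm : ∀ n W x, (δ n).app W ((φ n).app W x) = (φ (n + 1)).app W ((d n).app W x))
    (h0 : ∀ W x, (d 0).app W x = 0 → (φ 0).app W x = 0)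
    (poin : ∀ n (W : Opens Y) (x : (A (n + 1)).obj W), (d (n + 1)).app W x = 0 → ∀ y ∈ W,
      (Sub.map (d n) ⊤).Near x y)
    (n : ℕ) (W : Opens Y) (x : (A (n + 1)).obj W) (hx : (d (n + 1)).app W x = 0) :
    ∃ t, (δ n).app W t = (φ (n + 1)).app W x := by
  have key : ∀ n, ∃ k : Hom (A (n + 1)) (J n), ∀ W x, (d (n + 1)).app W x = 0 →
      (δ n).app W (k.app W x) = (φ (n + 1)).app W x := by
    intro n
    induction n with
    | zero =>
      obtain ⟨k, hk⟩ := hJ 0 _ _ (d 0) (φ 0) h0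
      refine ⟨k, fun W x hx => dyh_step (d 0) k (δ 0) (φ 1) (sep 1) ?_ W x (poin 0 W x hx)⟩
      intro W z
      rw [hk, comm]
    | succ n ih =>
      obtain ⟨k, hk⟩ := ih
      obtain ⟨k', hk'⟩ := hJ (n + 1) _ _ (d (n + 1)) (dyhC (φ (n + 1)) k (δ n)) (by
        intro V a ha
        rw [dyhC_app, hk V a ha, sub_self])
      refine ⟨k', fun W x hx => dyh_step (d (n + 1)) k' (δ (n + 1)) (φ (n + 1 + 1))
        (sep (n + 1 + 1)) ?_ W x (poin (n + 1) W x hx)⟩
      intro W z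
      rw [hk', dyhC_app, map_sub, δδ, comm, sub_zero]
  obtain ⟨k, hk⟩ := key n
  exact ⟨k.app W x, hk W x hx⟩

end Pool.Agent.PWD.SY
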