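import Mathlib

/-! Compact Kaehler manifolds, Betti moduli spaces of `GL_r`, abelian varieties. -/

open scoped ComplexOrder ContDiff

noncomputable section
namespace Pool.Agent.PW

/-- The model space `ℂ^n`. -/
abbrev EC (n : ℕ) := EuclideanSpace ℂ (Fin n)

/-- Wirtinger derivative `∂f/∂z_j = (∂f/∂x_j - i ∂f/∂y_j) / 2`. -/
def dz {n : ℕ} (j : Fin n) (f : EC n → ℂ) (z : EC n) : ℂ :=
  (fderiv ℝ f z (EuclideanSpace.single j 1) -
    Complex.I * fderiv ℝ f z (EuclideanSpace.single j Complex.I)) / 2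

/-- The Hermitian form `∑ g_{j kbar} u_j conj (v_k)`. -/
def herm {n : ℕ} (g : Matrix (Fin n) (Fin n) ℂ) (u v : EC n) : ℂ :=
  ∑ j, ∑ k, g j k * u j * (starRingEnd ℂ) (v k)

/-- `g z j k = g_{j kbar}(z)` are the coefficients of a Kaehler metric on the open set `U`:
smooth, Hermitian positive definite, with closed fundamental form. -/
def IsKahlerOn {n : ℕ} (U : Set (EC n)) (g : EC n → Matrix (Fin n) (Fin n) ℂ) : Prop :=
  (∀ j k, ContDiffOn ℝ ∞ (fun z => g z j k) U) ∧ (∀ z ∈ U, (g z).PosDef) ∧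
    ∀ z ∈ U, ∀ j k l, dz l (fun w => g w j k) z = dz j (fun w => g w l k) z

/-- A Kaehler metric on a complex manifold, given by its coefficients `g x` in the chart at `x`;
the Hermitian forms agree under the chart transitions. -/
def IsKahler (n : ℕ) (X : Type) [TopologicalSpace X] [ChartedSpace (EC n) X] : Prop :=
  ∃ g : X → EC n → Matrix (Fin n) (Fin n) ℂ,
    (∀ x, IsKahlerOn (chartAt (EC n) x).target (g x)) ∧
    ∀ x y, ∀ z ∈ (chartAt (EC n) x).target,
      (chartAt (EC n) x).symm z ∈ (chartAt (EC n) y).source → ∀ u v : EC n,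
        herm (g x z) u v = herm (g y (chartAt (EC n) y ((chartAt (EC n) x).symm z)))
          (fderiv ℂ (fun w => chartAt (EC n) y ((chartAt (EC n) x).symm w)) z u)
          (fderiv ℂ (fun w => chartAt (EC n) y ((chartAt (EC n) x).symm w)) z v)

/-- The `GL_r` character variety of `Γ`: the set of characters of representations
`Γ → GL_r(ℂ)`, inside `ℂ^Γ`. -/
def charVar (Γ : Type) [Group Γ] (r : ℕ) : Set (Γ → ℂ) :=
  {χ | ∃ ρ : Γ →* GL (Fin r) ℂ, ∀ γ, χ γ = (ρ γ : Matrix (Fin r) (Fin r) ℂ).trace}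

/-- `Θ` induces a holomorphic embedding of the torus `ℂ^g / Λ` into `ℙ^M`. -/
structure IsAbelianEmb {g M : ℕ} (Λ : Submodule ℤ (EC g)) (Θ : EC g → Fin (M + 1) → ℂ) :
    Prop where
  hol : Differentiable ℂ Θ
  ne : ∀ z, Θ z ≠ 0
  inj : ∀ z w, (∃ c : ℂ, Θ w = c • Θ z) ↔ w - z ∈ Λ
  imm : ∀ z v, (∃ c : ℂ, fderiv ℂ Θ z v = c • Θ z) → v = 0

end Pool.Agent.PW
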