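import Pool.Agent.P.MP_65ad7c_ag.BDc
import Pool.Agent.P.MP_65ad7c_ag.BInt

open MeasureTheory Set Filter Topology Metric Matrix
open scoped ComplexOrder ContDiff Matrix.Norms.Frobenius RealInnerProductSpace ENNReal
open Pool.Agent.Lib.Sob

noncomputable section
namespace Pool.Agent.PW

variable {E : Type} [NormedAddCommGroup E] [InnerProductSpace ℝ E] [FiniteDimensional ℝ E]
  [MeasurableSpace E] [BorelSpace E] {r : ℕ} {U : Set E} {Γ : Type} [Group Γ]
  {V : Type} [NormedAddCommGroup V] [NormedSpace ℝ V]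
  {A : Atlas E Γ} {χ : A.ι → E → ℝ} {ρ : Γ →* Mat r} {H h : A.ι → E → Mat r}
  {D : A.ι → E → E →L[ℝ] Mat r} {C : ℝ}

theorem Atlas.Ref.lbd (hH : A.Ref ρ H) (a : A.ι) : LBd (ball 0 6) (H a) :=
  LBd.of_continuousOn (hH.sm a).continuousOn (hH.pos a)

theorem Atlas.Adm.lbd (hH : A.Ref ρ H) (hC : 1 ≤ C) (hh : A.Adm ρ H C h D) (a : A.ι) :
    LBd (ball 0 6) (h a) := (hH.lbd a).of_obst hC (hh.ob a)

theorem Atlas.Ref.adm (hH : A.Ref ρ H) (hC : 1 ≤ C) :
    A.Adm ρ H C H fun a => fderiv ℝ (H a) :=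
  ⟨fun a => WD.of_contDiffOn (by norm_num) isOpen_ball ((hH.sm a).of_le (by simp)),
    fun a x hx => Obst.refl (hH.pos a x hx).posSemidef hC, hH.mc⟩

/-- the energy density is locally integrable and nonnegative -/
theorem en_loc (hU : IsOpen U) {α : E → E →L[ℝ] E} (hα : Coef U α) {u : E → Mat r}
    {D : E → E →L[ℝ] Mat r} (hw : WD 2 U u D) (hb : LBd U u) :
    LocLp 1 U (fun x => en (α x) (u x) (D x)) ∧ ∀ᵐ x, x ∈ U → 0 ≤ en (α x) (u x) (D x) := by
  refine ⟨locLp_pair hα.1.continuousOn (locLp_mc hU hw hb) (locLp_mc hU hw hb), ?_⟩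
  filter_upwards [wd_herm (by norm_num) hU hw fun x hx => (hb.posDef x hx).isHermitian.eq]
    with x hx hxU
  rw [en_eq_npair (hb.posDef x hxU) (hx hxU)]
  refine npair_nonneg (hb.posDef x hxU) (hb.posDef x hxU) (hα.2 x hxU).1 (fun v => ?_) _
  rcases eq_or_ne v 0 with rfl | hv
  · simp
  · exact ((hα.2 x hxU).2 v hv).le

theorem een_term (hχ : A.Pou (ball 0 6) χ) (hH : A.Ref ρ H) (hC : 1 ≤ C)
    (hh : A.Adm ρ H C h D) (a : A.ι) :
    Integrable (fun x => χ a x * en (A.α a x) (h a x) (D a x)) ∧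
      ∀ᵐ x, 0 ≤ χ a x * en (A.α a x) (h a x) (D a x) := by
  obtain ⟨h1, h2⟩ := en_loc isOpen_ball (A.coef a) (hh.wd a) (hh.lbd hH hC a)
  refine ⟨h1.integrable_test le_rfl (hχ.1 a).1, ?_⟩
  filter_upwards [h2] with x hx
  by_cases hxU : x ∈ ball (0 : E) 6
  · exact mul_nonneg ((hχ.1 a).2 x) (hx hxU)
  · rw [(hχ.1 a).1.zero_of_notMem hxU, zero_mul]

theorem Atlas.Adm.energy_nonneg (hχ : A.Pou (ball 0 6) χ) (hH : A.Ref ρ H) (hC : 1 ≤ C)
    (hh : A.Adm ρ H C h D) : 0 ≤ A.energy χ h D :=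
  Finset.sum_nonneg fun a _ => integral_nonneg_of_ae (een_term hχ hH hC hh a).2

/-- the energy controls the energy density in every chart -/
theorem Atlas.energy_ctrl (A : Atlas E Γ) {χ : A.ι → E → ℝ} (hχ : A.Pou (ball 0 6) χ)
    (hp : ∀ a, ∀ x ∈ closedBall (0 : E) 1, 0 < χ a x) : ∃ L : ℝ, 0 ≤ L ∧
    ∀ (ρ : Γ →* Mat r) H C h D, A.Ref ρ H → 1 ≤ C → A.Adm ρ H C h D → ∀ a,
      ∫⁻ x in ball (0 : E) 6, ENNReal.ofReal (en (A.α a x) (h a x) (D a x)) ≤
        ENNReal.ofReal (L * A.energy χ h D) := by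
  have hc : ∀ b, ∃ c : ℝ, 0 < c ∧ ∀ x ∈ closedBall (0 : E) 1, c ≤ χ b x := fun b =>
    (isCompact_closedBall (0 : E) 1).exists_forall_le' (hχ.1 b).1.continuous.continuousOn (hp b)
  choose c hc0 hc using hc
  refine ⟨∑ b, (c b)⁻¹, Finset.sum_nonneg fun b _ => (inv_pos.2 (hc0 b)).le,
    fun ρ H C h D hH hC hh a => ?_⟩
  have hE := hh.energy_nonneg hχ hH hC
  refine (A.cov_dens (F := fun a x => ENNReal.ofReal (en (A.α a x) (h a x) (D a x))) a
    fun b => ?_).trans ?_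
  · filter_upwards [A.en_inv isOpen_ball hh.wd hh.mc (fun a => (hh.lbd hH hC a).posDef) a b]
      with x hx hxO
    rw [hx (by rw [A.ov_six]; exact hxO), ENNReal.ofReal_mul (p := A.jac a b x) (abs_nonneg _)]
  rw [Finset.sum_mul, ENNReal.ofReal_sum_of_nonneg fun b _ =>
    mul_nonneg (inv_pos.2 (hc0 b)).le hE]
  refine Finset.sum_le_sum fun b _ => ?_
  obtain ⟨i1, i2⟩ := een_term hχ hH hC hh b
  have h1 : ∫ x, χ b x * en (A.α b x) (h b x) (D b x) ≤ A.energy χ h D :=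
    Finset.single_le_sum (f := fun a => ∫ x, χ a x * en (A.α a x) (h a x) (D a x))
      (fun a _ => integral_nonneg_of_ae (een_term hχ hH hC hh a).2) (Finset.mem_univ b)
  calc ∫⁻ x in ball (0 : E) 1, ENNReal.ofReal (en (A.α b x) (h b x) (D b x))
      ≤ ∫⁻ x in ball (0 : E) 1, ENNReal.ofReal (c b)⁻¹ *
          ENNReal.ofReal (χ b x * en (A.α b x) (h b x) (D b x)) := by
        refine setLIntegral_mono' measurableSet_ball fun x hx => ?_
        rw [← ENNReal.ofReal_mul (inv_pos.2 (hc0 b)).le]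
        rcases le_total (en (A.α b x) (h b x) (D b x)) 0 with h0 | h0
        · rw [ENNReal.ofReal_of_nonpos h0]; exact zero_le
        · refine ENNReal.ofReal_le_ofReal ?_
          rw [le_inv_mul_iff₀ (hc0 b)]
          exact mul_le_mul_of_nonneg_right (hc b x (ball_subset_closedBall hx)) h0
    _ ≤ ∫⁻ x, ENNReal.ofReal (c b)⁻¹ * ENNReal.ofReal (χ b x * en (A.α b x) (h b x) (D b x)) :=
        setLIntegral_le_lintegral _ _
    _ = ENNReal.ofReal ((c b)⁻¹ * ∫ x, χ b x * en (A.α b x) (h b x) (D b x)) := by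
        rw [lintegral_const_mul' _ _ ENNReal.ofReal_ne_top,
          ← ofReal_integral_eq_lintegral_ofReal i1 i2, ENNReal.ofReal_mul (inv_pos.2 (hc0 b)).le]
    _ ≤ _ := ENNReal.ofReal_le_ofReal (mul_le_mul_of_nonneg_left h1 (inv_pos.2 (hc0 b)).le)

/-- the energy density controls the gradient -/
theorem n2_le_of_en {α : E → E →L[ℝ] E} (hα : Coef U α) {K : Set E} (hK : IsCompact K)
    (hKU : K ⊆ U) {B : ℝ} (hB : 1 ≤ B) : ∃ L : ℝ, 0 ≤ L ∧
    ∀ (u : E → Mat r) (D : E → E →L[ℝ] Mat r) (M : ℝ), 0 ≤ M → (∀ x ∈ K, Bd B (u x)) →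
      (∀ᵐ x, x ∈ K → HermF (D x)) →
      ∫⁻ x in K, ENNReal.ofReal (en (α x) (u x) (D x)) ≤ ENNReal.ofReal M →
      N2 K D ≤ ENNReal.ofReal (L * (1 + M)) := by
  obtain ⟨l, L0, hl, hE⟩ := hα.ell hK hKU
  have hB0 : 0 < B := by linarith
  set c : ℝ := (r * B) ^ 2 * (B ^ 2 / l) with hc
  have hc0 : 0 ≤ c := by positivity
  refine ⟨c + 1, by positivity, fun u D M hM hu hD hI => ?_⟩
  refine (ENNReal.pow_le_pow_left_iff (n := 2) (by norm_num)).1 ?_
  have e : N2 K D ^ 2 = ∫⁻ x in K, ‖D x‖ₑ ^ 2 := by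
    rw [lintegral_pow_eq (n := 2) (by norm_num) D]
    simp [N2]
  rw [e, ← ENNReal.ofReal_pow (by positivity)]
  calc ∫⁻ x in K, ‖D x‖ₑ ^ 2
      ≤ ∫⁻ x in K, ENNReal.ofReal c * ENNReal.ofReal (en (α x) (u x) (D x)) := by
        refine lintegral_mono_ae ?_
        filter_upwards [ae_restrict_of_ae hD, ae_restrict_mem hK.measurableSet] with x hx hxK
        have hp := (hu x hxK).posDef hB0
        rw [← ENNReal.ofReal_mul hc0, ← ofReal_norm, ← ENNReal.ofReal_pow (norm_nonneg _)]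
        refine ENNReal.ofReal_le_ofReal ?_
        have h1 := norm_sq_le_npair hB0 (hu x hxK) (hu x hxK) hl.le (hE x hxK) (mc (u x) (D x))
        rw [← en_eq_npair hp (hx hxK)] at h1
        have h2 : ‖D x‖ ≤ r * B * ‖mc (u x) (D x)‖ := by
          conv_lhs => rw [← lmul_mc hp (D x)]
          exact (norm_lmul_le _ _).trans
            (mul_le_mul_of_nonneg_right ((hu x hxK).norm_le hB0) (norm_nonneg _))
        have h3 : ‖mc (u x) (D x)‖ ^ 2 ≤ B ^ 2 / l * en (α x) (u x) (D x) := by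
          rw [div_mul_eq_mul_div, le_div_iff₀ hl]
          linarith
        calc ‖D x‖ ^ 2 ≤ (r * B * ‖mc (u x) (D x)‖) ^ 2 := by gcongr
          _ = (r * B) ^ 2 * ‖mc (u x) (D x)‖ ^ 2 := by ring
          _ ≤ (r * B) ^ 2 * (B ^ 2 / l * en (α x) (u x) (D x)) := by gcongr
          _ = _ := by rw [hc]; ring
    _ ≤ ENNReal.ofReal c * ENNReal.ofReal M := by
        rw [lintegral_const_mul' _ _ ENNReal.ofReal_ne_top]
        gcongr
    _ ≤ _ := by
        rw [← ENNReal.ofReal_mul hc0]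
        refine ENNReal.ofReal_le_ofReal ?_
        have h1 : c ≤ (c + 1) ^ 2 := by nlinarith
        have h2 : M ≤ (1 + M) ^ 2 := by nlinarith
        rw [mul_pow]
        exact mul_le_mul h1 h2 hM (by positivity)

theorem Atlas.energy_ref_le (A : Atlas E Γ) {χ : A.ι → E → ℝ}
    (hχ : A.Pou (closedBall 0 (9 / 2)) χ) {B : ℝ} (hB : 1 ≤ B) : ∃ M : ℝ, 0 ≤ M ∧
    ∀ H : A.ι → E → Mat r, A.RefBd B H → A.energy χ H (fun a => fderiv ℝ (H a)) ≤ M := by
  have hs : closedBall (0 : E) (9 / 2) ⊆ ball 0 6 := closedBall_subset_ball (by norm_num)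
  have hB0 : 0 < B := by linarith
  choose l L hl hE using fun a => (A.coef a).ell (isCompact_closedBall (0 : E) (9 / 2)) hs
  refine ⟨∑ a, ∫ x, χ a x * (Module.finrank ℝ E * |L a| * (r * B * B) * (r * B * B)),
    Finset.sum_nonneg fun a _ => integral_nonneg fun x =>
      mul_nonneg ((hχ.1 a).2 x) (by positivity), fun H hH => Finset.sum_le_sum fun a _ => ?_⟩
  refine (Real.le_norm_self _).trans (norm_integral_le_of_norm_le
    (((hχ.1 a).1.continuous.integrable_of_hasCompactSupport (hχ.1 a).1.2.1).mul_const _)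
    (Eventually.of_forall fun x => ?_))
  by_cases hx : x ∈ closedBall (0 : E) (9 / 2)
  · rw [norm_mul, Real.norm_of_nonneg ((hχ.1 a).2 x)]
    refine mul_le_mul_of_nonneg_left ((abs_pair_le _ _ _).trans ?_) ((hχ.1 a).2 x)
    obtain ⟨b1, b2, -⟩ := hH a x hx
    have h1 : ‖mc (H a x) (fderiv ℝ (H a) x)‖ ≤ r * B * B :=
      (norm_lmul_le _ _).trans (mul_le_mul (b1.norm_inv_le hB0) b2 (norm_nonneg _) (by positivity))
    have h2 : ‖A.α a x‖ ≤ |L a| := (hE a x hx).2.2.trans (le_abs_self _)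
    gcongr
  · rw [(hχ.1 a).1.zero_of_notMem hx]
    simp

end Pool.Agent.PW
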