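import Pool.Agent.P.MP_65ad7c_ag.EDp2
import Pool.Agent.P.MP_65ad7c_ag.EEn
import Pool.Agent.P.MP_65ad7c_ag.BPick

open MeasureTheory Set Filter Topology Metric Matrix
open scoped ComplexOrder ContDiff Matrix.Norms.Frobenius RealInnerProductSpace ENNReal
open Pool.Agent.Lib.Sob

noncomputable section
namespace Pool.Agent.PW

variable {E : Type} [NormedAddCommGroup E] [InnerProductSpace ℝ E] [FiniteDimensional ℝ E]
  [MeasurableSpace E] [BorelSpace E] {r : ℕ} {U : Set E} {Γ : Type} [Group Γ]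
  {V : Type} [NormedAddCommGroup V] [NormedSpace ℝ V]
  {A : Atlas E Γ} {χ : A.ι → E → ℝ} {ρ : Γ →* Mat r} {H h : A.ι → E → Mat r}
  {D : A.ι → E → E →L[ℝ] Mat r} {C : ℝ}

/-- measurability of `log sg (Q, u x)` -/
theorem aesm_log_sg (hU : IsOpen U) {u : E → Mat r} {D : E → E →L[ℝ] Mat r} (hw : WD 2 U u D)
    (hb : LBd U u) {Q : Mat r} (hQ : Q.PosDef) {K : Set E} (hK : IsCompact K) (hKU : K ⊆ U) :
    AEStronglyMeasurable (fun x => Real.log (sg Q (u x))) (volume.restrict K) := by
  have hc : LBd U fun _ : E => Q := LBd.of_continuousOn continuousOn_const fun _ _ => hQ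
  have h1 := ((wd_sg hU (WD.const (by norm_num) Q) hw hc hb).1.1 K hK hKU).1
  exact (Real.measurable_log.comp_aemeasurable h1.aemeasurable).aestronglyMeasurable

/-- centres in every chart -/
theorem Atlas.exists_centres (A : Atlas E Γ) (hr : 0 < r) {M : ℝ} (hM : 0 ≤ M) : ∃ η : ℝ, 1 ≤ η ∧
    ∀ (h : A.ι → E → Mat r) (D : A.ι → E → E →L[ℝ] Mat r), (∀ a, WD 2 (ball 0 6) (h a) (D a)) →
      (∀ a, LBd (ball 0 6) (h a)) →
      (∀ a, ∫⁻ x in ball (0 : E) 6, ENNReal.ofReal (en (A.α a x) (h a x) (D a x)) ≤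
        ENNReal.ofReal M) →
      ∃ y : A.ι → E, ∀ a, y a ∈ closedBall (0 : E) 2 ∧
        N2 (closedBall 0 2) (fun x => Real.log (sg (h a (y a)) (h a x))) ≤ ENNReal.ofReal η := by
  obtain ⟨L, hL, hc⟩ := exists_centre (E := E) hr
  have hs : closedBall (0 : E) 2 ⊆ ball 0 6 := closedBall_subset_ball (by norm_num)
  choose l L' hl he using fun a => (A.coef a).ell (isCompact_closedBall (0 : E) 2) hs
  have hnn : ∀ a, 0 ≤ L * (1 + (l a)⁻¹ * M) := fun a => by have := hl a; positivity
  refine ⟨1 + ∑ a, L * (1 + (l a)⁻¹ * M),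
    le_add_of_nonneg_right (Finset.sum_nonneg fun a _ => hnn a), fun h D hw hb hE => ?_⟩
  have key : ∀ a, ∃ y ∈ closedBall (0 : E) 2,
      N2 (closedBall 0 2) (fun x => Real.log (sg (h a y) (h a x))) ≤
        ENNReal.ofReal (L * (1 + (l a)⁻¹ * M)) := by
    intro a
    have hla := hl a
    refine hc (h a) (D a) ((l a)⁻¹ * M) (hw a) (hb a) (by positivity) ?_
    have hH := wd_herm (by norm_num) isOpen_ball (hw a) fun x hx => ((hb a).posDef x hx).1.eq
    calc ∫⁻ x in closedBall (0 : E) 2,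
          ENNReal.ofReal (en (ContinuousLinearMap.id ℝ E) (h a x) (D a x))
        ≤ ∫⁻ x in closedBall (0 : E) 2,
          ENNReal.ofReal (l a)⁻¹ * ENNReal.ofReal (en (A.α a x) (h a x) (D a x)) := by
          refine lintegral_mono_ae ?_
          filter_upwards [ae_restrict_mem measurableSet_closedBall, ae_restrict_of_ae hH]
            with x hx hD
          have hp := (hb a).posDef x (hs hx)
          rw [← ENNReal.ofReal_mul (by positivity), en_eq_npair hp (hD (hs hx)),
            en_eq_npair hp (hD (hs hx))]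
          refine ENNReal.ofReal_le_ofReal ?_
          rw [le_inv_mul_iff₀ hla]
          exact npair_ge hp hp (he a x hx).1 (he a x hx).2.1 _
      _ = ENNReal.ofReal (l a)⁻¹ * ∫⁻ x in closedBall (0 : E) 2,
          ENNReal.ofReal (en (A.α a x) (h a x) (D a x)) :=
          lintegral_const_mul' _ _ ENNReal.ofReal_ne_top
      _ ≤ ENNReal.ofReal (l a)⁻¹ * ENNReal.ofReal M := by
          gcongr
          exact (lintegral_mono_set hs).trans (hE a)
      _ = ENNReal.ofReal ((l a)⁻¹ * M) := (ENNReal.ofReal_mul (by positivity)).symm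
  choose y hy1 hy2 using key
  refine ⟨y, fun a => ⟨hy1 a, (hy2 a).trans (ENNReal.ofReal_le_ofReal ?_)⟩⟩
  have := Finset.single_le_sum (f := fun a => L * (1 + (l a)⁻¹ * M)) (fun a _ => hnn a)
    (Finset.mem_univ a)
  linarith

end Pool.Agent.PW
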