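import Pool.Agent.P.MP_65ad7c_ag.ECen

open MeasureTheory Set Filter Topology Metric Matrix
open scoped ComplexOrder ContDiff Matrix.Norms.Frobenius RealInnerProductSpace ENNReal
open Pool.Agent.Lib.Sob

noncomputable section
namespace Pool.Agent.PW

variable {E : Type} [NormedAddCommGroup E] [InnerProductSpace ℝ E] [FiniteDimensional ℝ E]
  [MeasurableSpace E] [BorelSpace E] {r : ℕ} {U : Set E} {Γ : Type} [Group Γ]
  {V : Type} [NormedAddCommGroup V] [NormedSpace ℝ V]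
  {A : Atlas E Γ} {χ : A.ι → E → ℝ} {ρ : Γ →* Mat r} {H h : A.ι → E → Mat r}
  {D : A.ι → E → E →L[ℝ] Mat r} {C : ℝ}

omit [NormedSpace ℝ V] in
theorem ecoer_n2_mono {K K' : Set E} (hK : K ⊆ K') (u : E → V) : N2 K u ≤ N2 K' u :=
  eLpNorm_mono_measure u (Measure.restrict_mono hK le_rfl)

/-- the `L²` norm of a constant on the ball of radius 2 -/
theorem ecoer_n2_const : ∃ κ : ℝ, 0 ≤ κ ∧ ∀ c : ℝ, 0 ≤ c →
    N2 (closedBall (0 : E) 2) (fun _ => c) ≤ ENNReal.ofReal (c * κ) := by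
  have hfin : (volume.restrict (closedBall (0 : E) 2)) univ ^ (2 : ℝ≥0∞).toReal⁻¹ ≠ ⊤ :=
    ENNReal.rpow_ne_top_of_nonneg (by positivity)
      (by simpa using (isCompact_closedBall (0 : E) 2).measure_lt_top.ne)
  refine ⟨((volume.restrict (closedBall (0 : E) 2)) univ ^ (2 : ℝ≥0∞).toReal⁻¹).toReal,
    ENNReal.toReal_nonneg, fun c hc => ?_⟩
  refine (eLpNorm_le_of_ae_bound (C := c) (Eventually.of_forall fun _ => ?_)).trans (le_of_eq ?_)
  · rw [Real.norm_of_nonneg hc]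
  · rw [ENNReal.ofReal_mul hc, ENNReal.ofReal_toReal hfin, mul_comm]

theorem ecoer_n2_le {K : Set E} (hK : MeasurableSet K) {f g : E → ℝ}
    (hfg : ∀ x ∈ K, 0 ≤ f x ∧ f x ≤ g x) : N2 K f ≤ N2 K g := by
  refine eLpNorm_mono_ae ((ae_restrict_mem hK).mono fun x hx => ?_)
  rw [Real.norm_of_nonneg (hfg x hx).1]
  exact (hfg x hx).2.trans (le_abs_self _)

theorem ecoer_sg_pos (hr : 0 < r) {P Q : Mat r} (hP : P.PosDef) (hQ : Q.PosDef) : 0 < sg P Q := by
  have h1 : (0 : ℝ) < r := by exact_mod_cast hr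
  exact lt_of_lt_of_le (by positivity) (le_sg hP hQ)

theorem ecoer_log_bd (hr : 0 < r) {B : ℝ} (hB : 0 < B) {P Q : Mat r} (hP : Bd B P) (hQ : Bd B Q) :
    Real.log (sg P Q) ≤ 2 * r * (B * B) := by
  have h1 : Obst (B * B) P Q := Obst.trans hB hB (Obst.symm hB hP) hQ
  have h2 := sg_le_of_obst (hP.posDef hB) (mul_pos hB hB) h1
  have h3 := Real.log_le_sub_one_of_pos (ecoer_sg_pos hr (hP.posDef hB) (hQ.posDef hB))
  linarith

theorem ecoer_gm_smul (t : ℝ) (P u : Mat r) : gm (t • P) u = t • gm P u := by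
  simp [gm]

theorem ecoer_smul_posDef {t : ℝ} (ht : 0 < t) {P : Mat r} (hP : P.PosDef) : (t • P).PosDef :=
  hP.smul ht

/-- coercivity, with a constant independent of the obstacle -/
theorem Atlas.coercive (A : Atlas E Γ) (hr : 0 < r) {m : ℕ} (γs : Fin m → Γ) (β : ℝ) {B M : ℝ}
    (hB : 1 ≤ B) (hM : 0 ≤ M) : ∃ C₂ : ℝ, 0 ≤ C₂ ∧
    ∀ (ρ : Γ →* Mat r) H C h D, Burn γs β ρ → A.Ref ρ H → A.RefBd B H → 1 ≤ C →
      A.Adm ρ H C h D →
      (∀ a, ∫⁻ x in ball (0 : E) 6, ENNReal.ofReal (en (A.α a x) (h a x) (D a x)) ≤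
        ENNReal.ofReal M) →
      ∃ t : ℝ, C⁻¹ ≤ t ∧ t ≤ C ∧ ∀ a,
        N2 (closedBall 0 2) (fun x => Real.log (sg (h a x) (t • H a x))) ≤ ENNReal.ofReal C₂ := by
  obtain ⟨η, hη, hcen⟩ := A.exists_centres (r := r) hr hM
  obtain ⟨κ, hκ, hconst⟩ := ecoer_n2_const (E := E)
  choose L1 hL1 hc1 using fun l : Fin m => A.toPre.chain_sg (r := r) hr (A.chain (γs l))
  choose γa hγa using A.reach
  choose L2 hL2 hc2 using fun a : A.ι => A.toPre.chain_sg (r := r) hr (hγa a)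
  have hB0 : 0 < B := one_pos.trans_le hB
  have hη0 : 0 ≤ η := zero_le_one.trans hη
  set ℓ : ℝ := 2 * r * (B * B) with hℓ
  have hℓ0 : 0 ≤ ℓ := by positivity
  set η' : ℝ := 1 + ℓ * κ with hη'
  have hη'1 : 1 ≤ η' := le_add_of_nonneg_right (by positivity)
  set S1 : ℝ := ∑ l, L1 l with hS1
  set S2 : ℝ := ∑ a, L2 a with hS2
  have hS20 : 0 ≤ S2 := Finset.sum_nonneg fun a _ => hL2 a
  set L3 : ℝ := r ^ 2 * m ^ 2 * β ^ 2 * Real.exp (S1 * η) with hL3
  have hL30 : 0 ≤ L3 := by positivity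
  set L4 : ℝ := r + r * B ^ 2 * L3 with hL4
  have hL40 : 0 ≤ L4 := by positivity
  set c : ℝ := S2 * η + L4 + S2 * η' + ℓ with hc
  have hc0 : 0 ≤ c := by positivity
  refine ⟨η + c * κ, by positivity, fun ρ H C h D hburn hH hHB hC hh hen => ?_⟩
  have hC0 : 0 < C := one_pos.trans_le hC
  have hlb : ∀ a, LBd (ball 0 6) (h a) := hh.lbd hH hC
  obtain ⟨y, hy⟩ := hcen h D hh.wd hlb hen
  have s26 : closedBall (0 : E) 2 ⊆ ball 0 6 := closedBall_subset_ball (by norm_num)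
  have s16 : closedBall (0 : E) 1 ⊆ ball 0 6 := closedBall_subset_ball (by norm_num)
  have b16 : ball (0 : E) 1 ⊆ ball 0 6 := ball_subset_ball (by norm_num)
  have s12 : closedBall (0 : E) 1 ⊆ closedBall 0 2 := closedBall_subset_closedBall (by norm_num)
  have s29 : closedBall (0 : E) 2 ⊆ closedBall 0 (9 / 2) :=
    closedBall_subset_closedBall (by norm_num)
  have hpos : ∀ a, ∀ x ∈ ball (0 : E) 6, (h a x).PosDef := fun a => (hlb a).posDef
  have hQ : ∀ a, (h a (y a)).PosDef := fun a => hpos a _ (s26 (hy a).1)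
  have hP : ∀ a, (H a (y a)).PosDef := fun a => hH.pos a _ (s26 (hy a).1)
  have hHb : ∀ a, ∀ x ∈ closedBall (0 : E) 2, Bd B (H a x) := fun a x hx => (hHB a x (s29 hx)).1
  have hHl : ∀ a, ∀ x ∈ closedBall (0 : E) 2, Real.log (sg (H a (y a)) (H a x)) ≤ ℓ :=
    fun a x hx => ecoer_log_bd hr hB0 (hHb a _ (hy a).1) (hHb a x hx)
  have m1 : ∀ d, AEStronglyMeasurable (fun x => Real.log (sg (h d (y d)) (h d x)))
      (volume.restrict (closedBall 0 1)) := fun d =>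
    aesm_log_sg isOpen_ball (hh.wd d) (hlb d) (hQ d) (isCompact_closedBall _ _) s16
  have m2 : ∀ d, AEStronglyMeasurable (fun x => Real.log (sg (H d (y d)) (H d x)))
      (volume.restrict (closedBall 0 1)) := fun d =>
    aesm_log_sg isOpen_ball ((hH.adm hC).wd d) (hH.lbd d) (hP d) (isCompact_closedBall _ _) s16
  have n1 : ∀ d, N2 (closedBall 0 1) (fun x => Real.log (sg (h d (y d)) (h d x))) ≤
      ENNReal.ofReal η := fun d => (ecoer_n2_mono s12 _).trans (hy d).2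
  have n2 : ∀ d, N2 (closedBall 0 1) (fun x => Real.log (sg (H d (y d)) (H d x))) ≤
      ENNReal.ofReal η' := by
    intro d
    refine (ecoer_n2_mono s12 _).trans ((ecoer_n2_le (g := fun _ => ℓ) measurableSet_closedBall
      fun x hx => ⟨log_sg_nonneg hr (hP d) (hH.pos d x (s26 hx)), hHl d x hx⟩).trans
        ((hconst ℓ hℓ0).trans (ENNReal.ofReal_le_ofReal ?_)))
    exact le_add_of_nonneg_left zero_le_one
  have k1 : ∀ l, sg (gm (h A.a0 (y A.a0)) (ρ (γs l))) (h A.a0 (y A.a0)) ≤ Real.exp (S1 * η) := by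
    intro l
    have h1 := hc1 l ρ h (fun d => h d (y d)) η hη (hh.mc.mono b16)
      (fun d x hx => hpos d x (b16 hx)) hQ m1 n1
    have h2 : L1 l ≤ S1 := Finset.single_le_sum (fun j _ => hL1 j) (Finset.mem_univ l)
    rw [← Real.log_le_iff_le_exp (ecoer_sg_pos hr (gm_posDef (hQ _) (rep_mul_inv ρ _)) (hQ _))]
    exact h1.trans (mul_le_mul_of_nonneg_right h2 hη0)
  obtain ⟨t, ht1, ht2, ht3⟩ := exists_scale hr (hP A.a0) hC0 (hh.ob A.a0 _ (s26 (hy _).1)) hB0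
    (hHb _ _ (hy _).1) (burn_cond hburn (hQ A.a0) (Real.exp_pos _).le k1)
  have ht0 : 0 < t := (inv_pos.2 hC0).trans_le ht1
  refine ⟨t, ht1, ht2, fun a => ?_⟩
  have hLa : L2 a ≤ S2 := Finset.single_le_sum (fun j _ => hL2 j) (Finset.mem_univ a)
  have hu := rep_mul_inv ρ (γa a)
  have p1 : (gm (h A.a0 (y A.a0)) (ρ (γa a))).PosDef := gm_posDef (hQ _) hu
  have p2 : (gm (H A.a0 (y A.a0)) (ρ (γa a))).PosDef := gm_posDef (hP _) hu
  have p3 : (t • gm (H A.a0 (y A.a0)) (ρ (γa a))).PosDef := ecoer_smul_posDef ht0 p2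
  have p4 : (t • H a (y a)).PosDef := ecoer_smul_posDef ht0 (hP a)
  have p5 : (t • H A.a0 (y A.a0)).PosDef := ecoer_smul_posDef ht0 (hP _)
  have q2 : Real.log (sg (h a (y a)) (gm (h A.a0 (y A.a0)) (ρ (γa a)))) ≤ S2 * η := by
    rw [sg_comm]
    exact (hc2 a ρ h (fun d => h d (y d)) η hη (hh.mc.mono b16)
      (fun d x hx => hpos d x (b16 hx)) hQ m1 n1).trans (mul_le_mul_of_nonneg_right hLa hη0)
  have q3 : Real.log (sg (gm (h A.a0 (y A.a0)) (ρ (γa a)))
      (t • gm (H A.a0 (y A.a0)) (ρ (γa a)))) ≤ L4 := by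
    rw [← ecoer_gm_smul, sg_gm (hQ _) p5 hu, sg_comm]
    have h3 := Real.log_le_sub_one_of_pos (ecoer_sg_pos hr p5 (hQ A.a0))
    linarith
  have q4 : Real.log (sg (t • gm (H A.a0 (y A.a0)) (ρ (γa a))) (t • H a (y a))) ≤ S2 * η' := by
    rw [sg_smul ht0 p2 (hP a)]
    exact (hc2 a ρ H (fun d => H d (y d)) η' hη'1 (hH.mc.mono b16)
      (fun d x hx => hH.pos d x (b16 hx)) hP m2 n2).trans
        (mul_le_mul_of_nonneg_right hLa (zero_le_one.trans hη'1))
  have key : ∀ x ∈ closedBall (0 : E) 2, 0 ≤ Real.log (sg (h a x) (t • H a x)) ∧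
      Real.log (sg (h a x) (t • H a x)) ≤ Real.log (sg (h a (y a)) (h a x)) + c := by
    intro x hx
    have r1 : (h a x).PosDef := hpos a x (s26 hx)
    have r2 : (t • H a x).PosDef := ecoer_smul_posDef ht0 (hH.pos a x (s26 hx))
    refine ⟨log_sg_nonneg hr r1 r2, ?_⟩
    have q5 : Real.log (sg (t • H a (y a)) (t • H a x)) ≤ ℓ := by
      rw [sg_smul ht0 (hP a) (hH.pos a x (s26 hx))]
      exact hHl a x hx
    have e1 := log_sg_le hr r1 (hQ a) r2
    have e2 := log_sg_le hr (hQ a) p1 r2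
    have e3 := log_sg_le hr p1 p3 r2
    have e4 := log_sg_le hr p3 p4 r2
    rw [sg_comm (h a x) (h a (y a))] at e1
    linarith
  refine (ecoer_n2_le measurableSet_closedBall key).trans ?_
  have m3 : AEStronglyMeasurable (fun x => Real.log (sg (h a (y a)) (h a x)))
      (volume.restrict (closedBall 0 2)) :=
    aesm_log_sg isOpen_ball (hh.wd a) (hlb a) (hQ a) (isCompact_closedBall _ _) s26
  refine (eLpNorm_add_le m3 aestronglyMeasurable_const (by norm_num)).trans ?_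
  rw [ENNReal.ofReal_add hη0 (by positivity)]
  exact add_le_add (hy a).2 (hconst c hc0)

end Pool.Agent.PW
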