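import Pool.Agent.P.MP_65ad7c_ag.TMul
import Pool.Agent.P.MP_65ad7c_ag.ANf

open MeasureTheory Set Filter Topology Metric Matrix
open scoped ComplexOrder ContDiff Matrix.Norms.Frobenius RealInnerProductSpace ENNReal
open Pool.Agent.Lib.Sob

noncomputable section
namespace Pool.Agent.PW

variable {E : Type} [NormedAddCommGroup E] [InnerProductSpace ℝ E] [FiniteDimensional ℝ E]
  [MeasurableSpace E] [BorelSpace E] {r : ℕ} {U : Set E} {Γ : Type} [Group Γ]
  {V : Type} [NormedAddCommGroup V] [NormedSpace ℝ V]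

theorem edp_inv {Q : ℝ → Mat r} {B : Mat r} {t : ℝ} (h : HasDerivAt Q B t) (hp : (Q t).PosDef) :
    HasDerivAt (fun s => (Q s)⁻¹) (-((Q t)⁻¹ * B * (Q t)⁻¹)) t := by
  obtain ⟨u, hu⟩ := hp.isUnit
  have h1 := (hasFDerivAt_ringInverse (𝕜 := ℝ) u).comp_hasDerivAt_of_eq t h hu
  have e : ((u⁻¹ : (Mat r)ˣ) : Mat r) = (Q t)⁻¹ := by
    rw [← hu, Matrix.coe_units_inv]
  simp only [Matrix.nonsing_inv_eq_ringInverse] at e ⊢
  rw [← e]
  exact h1

theorem edp_sq {P Q : Mat r} (hP : P.PosDef) (hQ : Q.PosDef) :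
    (P⁻¹ * Q * (P⁻¹ * Q)).trace.re ≤ (P⁻¹ * Q).trace.re ^ 2 := by
  have hq : IsUnit Q.det := (Matrix.isUnit_iff_isUnit_det _).1 hQ.isUnit
  have hR : (gm P⁻¹ Q).PosDef := gm_posDef hP.inv (Matrix.mul_nonsing_inv Q hq)
  have h := trace_inv_mul_le hP hQ hR
  have e1 : P⁻¹ * gm P⁻¹ Q = P⁻¹ * Q * (P⁻¹ * Q) := by
    simp only [gm, hQ.isHermitian.eq, Matrix.mul_assoc]
  have e2 : Q⁻¹ * gm P⁻¹ Q = P⁻¹ * Q := by
    simp only [gm, hQ.isHermitian.eq, Matrix.mul_assoc]
    rw [← Matrix.mul_assoc, Matrix.nonsing_inv_mul Q hq, Matrix.one_mul]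
  rw [e1, e2] at h
  rw [sq]; exact h

theorem edp_abs {a b c n : ℝ} (hc : 0 ≤ c) (hn : 0 ≤ n) (h1 : a ^ 2 ≤ n * b) (h2 : b ≤ c ^ 2) :
    |a| ≤ c * √n := by
  refine abs_le_of_sq_le_sq' ?_ (by positivity) |> abs_le.2
  rw [mul_pow, Real.sq_sqrt hn]
  nlinarith [mul_le_mul_of_nonneg_left h2 hn]

theorem edp_one {P Q B : Mat r} (hP : P.PosDef) (hQ : Q.PosDef) :
    |(P⁻¹ * B).trace.re - (Q⁻¹ * B * Q⁻¹ * P).trace.re| ≤
      sg P Q * √(nf Q Q (Q⁻¹ * B) (Q⁻¹ * B)) := by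
  have hq : IsUnit Q.det := (Matrix.isUnit_iff_isUnit_det _).1 hQ.isUnit
  have i1 := Matrix.mul_nonsing_inv Q hq
  have i2 := Matrix.nonsing_inv_mul Q hq
  have c1 : ∀ X : Mat r, Q * (Q⁻¹ * X) = X := fun X => by rw [← Matrix.mul_assoc, i1, Matrix.one_mul]
  have c2 : ∀ X : Mat r, Q⁻¹ * (Q * X) = X := fun X => by rw [← Matrix.mul_assoc, i2, Matrix.one_mul]
  have hn := nf_nonneg hQ hQ (Q⁻¹ * B)
  have a1 := nf_sq_le hQ hQ (Q⁻¹ * B) (P⁻¹ * Q)
  have a2 := nf_sq_le hQ hQ (Q⁻¹ * B) (Q⁻¹ * P)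
  have e1 : nf Q Q (Q⁻¹ * B) (P⁻¹ * Q) = (P⁻¹ * B).trace.re := by
    unfold nf
    rw [Matrix.trace_mul_comm, conjTranspose_mul, hQ.isHermitian.eq, hP.inv.isHermitian.eq,
      Matrix.trace_mul_comm P⁻¹]
    simp only [Matrix.mul_assoc, c1, c2]
  have e2 : nf Q Q (P⁻¹ * Q) (P⁻¹ * Q) = (P⁻¹ * Q * (P⁻¹ * Q)).trace.re := by
    unfold nf
    rw [conjTranspose_mul, hQ.isHermitian.eq, hP.inv.isHermitian.eq]
    simp only [Matrix.mul_assoc, c1, c2]
  have e3 : nf Q Q (Q⁻¹ * B) (Q⁻¹ * P) = (Q⁻¹ * B * Q⁻¹ * P).trace.re := by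
    unfold nf
    rw [conjTranspose_mul, hP.isHermitian.eq, hQ.inv.isHermitian.eq]
    simp only [Matrix.mul_assoc, i2, Matrix.mul_one]
  have e4 : nf Q Q (Q⁻¹ * P) (Q⁻¹ * P) = (Q⁻¹ * P * (Q⁻¹ * P)).trace.re := by
    unfold nf
    rw [conjTranspose_mul, hP.isHermitian.eq, hQ.inv.isHermitian.eq]
    simp only [Matrix.mul_assoc, i2, Matrix.mul_one]
  rw [e1, e2] at a1
  rw [e3, e4] at a2
  have b1 := edp_abs (trace_mul_nonneg hP.inv.posSemidef hQ.posSemidef) hn a1 (edp_sq hP hQ)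
  have b2 := edp_abs (trace_mul_nonneg hQ.inv.posSemidef hP.posSemidef) hn a2 (edp_sq hQ hP)
  refine (abs_sub _ _).trans ?_
  unfold sg
  linarith

omit [MeasurableSpace E] [BorelSpace E] in
theorem edp_pt {P Q : Mat r} (hP : P.PosDef) (hQ : Q.PosDef) {D : E →L[ℝ] Mat r} (hD : HermF D)
    (w : E) : (P⁻¹ * D w).trace.re - (Q⁻¹ * D w * Q⁻¹ * P).trace.re ≤
      sg P Q * (‖w‖ * √(en (ContinuousLinearMap.id ℝ E) Q D)) := by
  set p : E →L[ℝ] ℝ := (trL r).comp (lmul P⁻¹ D) - (trL r).comp (rmul (rmul (lmul Q⁻¹ D) Q⁻¹) P)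
    with hp
  have hv : ∀ v, p v = (P⁻¹ * D v).trace.re - (Q⁻¹ * D v * Q⁻¹ * P).trace.re := fun v => rfl
  have hs : 0 ≤ sg P Q := le_trans (by positivity) (le_sg hP hQ)
  have h1 : ‖p‖ ^ 2 ≤ en (ContinuousLinearMap.id ℝ E) Q D * sg P Q ^ 2 := by
    refine (norm_sq_le_sum p).trans ?_
    rw [en_eq_npair hQ hD, npair, Finset.sum_mul]
    refine Finset.sum_le_sum fun i _ => ?_
    have h2 := edp_one (B := D (ob E i)) hP hQ
    rw [← hv] at h2
    have h3 := nf_nonneg hQ hQ (Q⁻¹ * D (ob E i))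
    have h4 := pow_le_pow_left₀ (abs_nonneg _) h2 2
    rw [mul_pow, Real.sq_sqrt h3, mul_comm] at h4
    exact h4
  have hn : 0 ≤ en (ContinuousLinearMap.id ℝ E) Q D := by
    rw [en_eq_npair hQ hD, npair]
    exact Finset.sum_nonneg fun i _ => nf_nonneg hQ hQ _
  have h5 := edp_abs hs hn h1 le_rfl
  rw [abs_of_nonneg (norm_nonneg _)] at h5
  rw [← hv]
  calc p w ≤ ‖p‖ * ‖w‖ := (le_abs_self _).trans (p.le_opNorm w)
    _ ≤ (sg P Q * √(en (ContinuousLinearMap.id ℝ E) Q D)) * ‖w‖ := by gcongr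
    _ = _ := by ring

theorem edp_moll_mem [CompleteSpace V] {S : Set V} (hS : Convex ℝ S) (hc : IsClosed S) {g : E → V}
    (hg : LocallyIntegrable g) (k : ℕ) (x : E)
    (h : ∀ t, ‖t‖ < 1 / ((k : ℝ) + 1) → g (x - t) ∈ S) : moll k g x ∈ S := by
  set ρ := (bump E k).normed volume with hρ
  have cρ : Continuous ρ := (bump E k).continuous_normed
  have nρ : ∀ t, 0 ≤ ρ t := (bump E k).nonneg_normed
  have mρ : Measurable fun t => ENNReal.ofReal (ρ t) := cρ.measurable.ennreal_ofReal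
  have fρ : ∀ᵐ t, ENNReal.ofReal (ρ t) < ⊤ := Eventually.of_forall fun _ => ENNReal.ofReal_lt_top
  have hi : Integrable fun t => ρ t • g (x - t) :=
    (bump E k).hasCompactSupport_normed.convolutionExists_left (ContinuousLinearMap.lsmul ℝ ℝ)
      cρ hg x
  have : IsProbabilityMeasure (volume.withDensity fun t => ENNReal.ofReal (ρ t)) := ⟨by
    rw [withDensity_apply _ MeasurableSet.univ, Measure.restrict_univ,
      ← ofReal_integral_eq_lintegral_ofReal (bump E k).integrable_normed (Eventually.of_forall nρ),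
      (bump E k).integral_normed, ENNReal.ofReal_one]⟩
  have key := hS.integral_mem (μ := volume.withDensity fun t => ENNReal.ofReal (ρ t))
    (f := fun t => g (x - t)) hc
    ((ae_withDensity_iff mρ).2 (Eventually.of_forall fun t ht => h t (by
      have h' : t ∈ Function.support ρ := fun h0 => ht (by simp [h0])
      rw [hρ, (bump E k).support_normed_eq, mem_ball, dist_zero_right] at h'
      exact h')))
    ((integrable_withDensity_iff_integrable_smul' mρ fρ).2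
      (by simpa only [ENNReal.toReal_ofReal (nρ _)] using hi))
  rw [integral_withDensity_eq_integral_toReal_smul mρ fρ] at key
  simp only [ENNReal.toReal_ofReal (nρ _)] at key
  exact key

omit [MeasurableSpace E] [BorelSpace E] [FiniteDimensional ℝ E] in
theorem edp_herm {v : E → Mat r} {x : E} (hv : DifferentiableAt ℝ v x)
    (h : ∀ᶠ y in 𝓝 x, (v y)ᴴ = v y) : HermF (fderiv ℝ v x) := by
  have h1 := (adjL r).hasFDerivAt.comp x hv.hasFDerivAt
  have h2 : HasFDerivAt v ((adjL r).comp (fderiv ℝ v x)) x :=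
    h1.congr_of_eventuallyEq (h.mono fun y hy => hy.symm)
  intro w
  have := DFunLike.congr_fun (h2.unique hv.hasFDerivAt) w
  exact this

/-- the segment inequality for a smooth positive function -/
theorem log_sg_segment (hr : 0 < r) {v : E → Mat r} (hv : ContDiff ℝ 1 v) {x y : E}
    (hp : ∀ z ∈ segment ℝ y x, (v z).PosDef) (hh : ∀ z ∈ segment ℝ y x, HermF (fderiv ℝ v z)) :
    Real.log (sg (v y) (v x)) ≤ Real.log (2 * r) + ‖x - y‖ * ∫ t in (0 : ℝ)..1,
      √(en (ContinuousLinearMap.id ℝ E) (v (y + t • (x - y))) (fderiv ℝ v (y + t • (x - y)))) := by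
  set w := x - y with hw
  set γ : ℝ → E := fun t => y + t • w with hγ
  have mem : ∀ t ∈ Icc (0 : ℝ) 1, γ t ∈ segment ℝ y x := fun t ht => by
    rw [segment_eq_image']
    exact ⟨t, ht, rfl⟩
  have hd : Differentiable ℝ v := hv.differentiable one_ne_zero
  have dγ : ∀ t, HasDerivAt γ w t := fun t => by
    have := ((hasDerivAt_id t).smul_const w).const_add y
    rw [one_smul] at this
    exact this
  have cγ : Continuous γ := by fun_prop
  have dQ : ∀ t, HasDerivAt (fun s => v (γ s)) (fderiv ℝ v (γ t) w) t := fun t =>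
    (hd (γ t)).hasFDerivAt.comp_hasDerivAt t (dγ t)
  have dI := fun t (ht : t ∈ Icc (0 : ℝ) 1) => edp_inv (dQ t) (hp _ (mem t ht))
  have hP : (v y).PosDef := hp y (left_mem_segment ℝ y x)
  have ds : ∀ t ∈ Icc (0 : ℝ) 1, HasDerivAt (fun s => sg (v y) (v (γ s)))
      (((v y)⁻¹ * fderiv ℝ v (γ t) w).trace.re -
        ((v (γ t))⁻¹ * fderiv ℝ v (γ t) w * (v (γ t))⁻¹ * v y).trace.re) t := fun t ht => by
    have a1 := (trL r).hasFDerivAt.comp_hasDerivAt t ((dQ t).const_mul (v y)⁻¹)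
    have a2 := (trL r).hasFDerivAt.comp_hasDerivAt t ((dI t ht).mul_const (v y))
    have a3 := a1.add a2
    rw [neg_mul, map_neg, ← sub_eq_add_neg] at a3
    exact a3
  have hr' : (0 : ℝ) < 2 * r := by positivity
  have pos : ∀ t ∈ Icc (0 : ℝ) 1, 0 < sg (v y) (v (γ t)) := fun t ht =>
    hr'.trans_le (le_sg hP (hp _ (mem t ht)))
  have dl := fun t (ht : t ∈ Icc (0 : ℝ) 1) => (ds t ht).log (pos t ht).ne'
  have cI : ContinuousOn (fun s => (v (γ s))⁻¹) (Icc (0 : ℝ) 1) := fun t ht =>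
    (dI t ht).continuousAt.continuousWithinAt
  have cD : Continuous fun s => fderiv ℝ v (γ s) := (hv.continuous_fderiv one_ne_zero).comp cγ
  have cE : ContinuousOn (fun t => en (ContinuousLinearMap.id ℝ E) (v (γ t)) (fderiv ℝ v (γ t)))
      (Icc (0 : ℝ) 1) := by
    unfold en pair
    refine continuousOn_finsetSum _ fun i _ => ?_
    have c1 : ContinuousOn (fun t => (v (γ t))⁻¹ * fderiv ℝ v (γ t) (ob E i)) (Icc (0 : ℝ) 1) :=
      cI.mul (cD.clm_apply continuous_const).continuousOn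
    exact (trL r).continuous.comp_continuousOn (c1.mul c1)
  have key := intervalIntegral.sub_le_integral_of_hasDeriv_right_of_le zero_le_one
    (g := fun s => Real.log (sg (v y) (v (γ s))))
    (φ := fun t => ‖w‖ * √(en (ContinuousLinearMap.id ℝ E) (v (γ t)) (fderiv ℝ v (γ t))))
    (fun t ht => (dl t ht).continuousAt.continuousWithinAt)
    (fun t ht => (dl t (Ioo_subset_Icc_self ht)).hasDerivWithinAt)
    ((continuousOn_const.mul cE.sqrt).integrableOn_compact isCompact_Icc)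
    (fun t ht => by
      have ht' := Ioo_subset_Icc_self ht
      rw [div_le_iff₀ (pos t ht'), mul_comm]
      exact edp_pt hP (hp _ (mem t ht')) (hh _ (mem t ht')) w)
  have e0 : γ 0 = y := by simp [hγ]
  have e1 : γ 1 = x := by simp [hγ, hw]
  simp only [e0, e1, sg_self hP] at key
  rw [intervalIntegral.integral_const_mul] at key
  linarith

/-- approximation by smooth functions that keep the bounds -/
theorem approx_bd (hU : IsOpen U) {u : E → Mat r} {D : E → E →L[ℝ] Mat r} (hw : WD 2 U u D)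
    (hb : LBd U u) {K : Set E} (hK : IsCompact K) (hKU : K ⊆ U) :
    ∃ (C : ℝ) (v : ℕ → E → Mat r), 1 ≤ C ∧ (∀ x ∈ K, Bd C (u x)) ∧ (∀ k, ContDiff ℝ ∞ (v k)) ∧
      (∀ k, ∀ x ∈ K, Bd C (v k x) ∧ HermF (fderiv ℝ (v k) x)) ∧
      (∀ᵐ x, x ∈ K → Tendsto (fun k => v k x) atTop (𝓝 (u x))) ∧
      Tendsto (fun k => ∫⁻ x in K, ‖fderiv ℝ (v k) x - D x‖ₑ ^ 2) atTop (𝓝 0) := by
  obtain ⟨u', D', K', O, hg, m1, m2, hK', hK'U, hO, hKO, hOK', -, -, e1, e2, -⟩ :=
    hw.exists_global (by norm_num) hU hK hKU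
  obtain ⟨C, hC, hCb⟩ := hb K' hK' hK'U
  obtain ⟨δ, hδ, hδO⟩ := hK.exists_thickening_subset_open hO hKO
  obtain ⟨k0, hk0⟩ := exists_nat_one_div_lt (half_pos hδ)
  have lu := hg.1.locallyIntegrable (by norm_num)
  have hC0 : 0 < C := by linarith
  have bd : ∀ k, ∀ x ∈ thickening (δ / 2) K, Bd C (moll (k + k0) u' x) := fun k x hx => by
    refine edp_moll_mem (convex_obst C 1) (isClosed_obst C 1) lu _ x fun t ht => ?_
    have h1 : 1 / (((k + k0 : ℕ) : ℝ) + 1) ≤ 1 / ((k0 : ℝ) + 1) := by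
      gcongr
      exact Nat.le_add_left _ _
    obtain ⟨z, hz, hxz⟩ := mem_thickening_iff.1 hx
    have h2 : x - t ∈ O := hδO (mem_thickening_iff.2 ⟨z, hz, by
      have := dist_triangle (x - t) x z
      rw [dist_eq_norm (x - t) x, sub_sub_cancel_left, norm_neg] at this
      linarith⟩)
    rw [mem_ofPred_eq, e1 _ h2]
    exact hCb _ (hOK' h2)
  have sub : K ⊆ thickening (δ / 2) K := self_subset_thickening (half_pos hδ) K
  refine ⟨C, fun k => moll (k + k0) u', hC, fun x hx => hCb x (hOK' (hKO hx)),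
    fun k => contDiff_moll _ lu, fun k x hx => ⟨bd k x (sub hx), ?_⟩, ?_, ?_⟩
  · refine edp_herm ((contDiff_moll _ lu).differentiable (by simp) x) ?_
    filter_upwards [isOpen_thickening.mem_nhds (sub hx)] with y hy
    exact ((bd k y hy).posDef hC0).isHermitian.eq
  · filter_upwards [ae_tendsto_moll lu] with x hx hxK
    rw [e1 x (hKO hxK)] at hx
    exact hx.comp (tendsto_add_atTop_nat k0)
  · refine tendsto_of_tendsto_of_tendsto_of_le_of_le tendsto_const_nhds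
      ((tendsto_lintegral_moll (by norm_num) m2).comp (tendsto_add_atTop_nat k0))
      (fun _ => zero_le) fun k => ?_
    refine le_trans (le_of_eq ?_) (setLIntegral_le_lintegral K _)
    exact setLIntegral_congr_fun hK.measurableSet fun x hx => by
      rw [e2 x (hKO hx), hg.fderiv_moll (by norm_num)]

end Pool.Agent.PW
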