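import Pool.Agent.P.MP_65ad7c_ag.EDp

open MeasureTheory Set Filter Topology Metric Matrix
open scoped ComplexOrder ContDiff Matrix.Norms.Frobenius RealInnerProductSpace ENNReal
open Pool.Agent.Lib.Sob

noncomputable section
namespace Pool.Agent.PW

variable {E : Type} [NormedAddCommGroup E] [InnerProductSpace ℝ E] [FiniteDimensional ℝ E]
  [MeasurableSpace E] [BorelSpace E] {r : ℕ} {U : Set E} {Γ : Type} [Group Γ]
  {V : Type} [NormedAddCommGroup V] [NormedSpace ℝ V]

theorem edp2_sm_inv {α : Type} [MeasurableSpace α] {f : α → Mat r} (hf : StronglyMeasurable f) :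
    StronglyMeasurable fun x => (f x)⁻¹ := by
  simp only [Matrix.inv_def, Ring.inverse_eq_inv']
  have c1 : Continuous fun A : Mat r => A.det := continuous_id.matrix_det
  have c2 : Continuous fun A : Mat r => A.adjugate := continuous_id.matrix_adjugate
  exact (c1.comp_stronglyMeasurable hf).measurable.inv.stronglyMeasurable.smul
    (c2.comp_stronglyMeasurable hf)

theorem edp2_asm_inv {α : Type} [MeasurableSpace α] {μ : Measure α} {f : α → Mat r}
    (hf : AEStronglyMeasurable f μ) : AEStronglyMeasurable (fun x => (f x)⁻¹) μ := by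
  refine ⟨_, edp2_sm_inv hf.stronglyMeasurable_mk, ?_⟩
  filter_upwards [hf.ae_eq_mk] with x hx
  rw [hx]

theorem edp2_tendsto_inv {f : ℕ → Mat r} {P : Mat r} (hP : P.PosDef)
    (hf : Tendsto f atTop (𝓝 P)) : Tendsto (fun k => (f k)⁻¹) atTop (𝓝 P⁻¹) := by
  have h : ContinuousAt (fun A : Mat r => A⁻¹) P := by
    refine continuousAt_matrix_inv P ?_
    rw [Ring.inverse_eq_inv']
    exact continuousAt_inv₀ ((isUnit_iff_isUnit_det P).1 hP.isUnit).ne_zero
  exact h.tendsto.comp hf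

theorem edp2_cont_tr : Continuous fun p : Mat r × Mat r => (p.1 * p.2).trace.re :=
  (trL r).continuous.comp (continuous_fst.mul continuous_snd)

theorem edp2_am_sg {α : Type} [MeasurableSpace α] {μ : Measure α} {f g : α → Mat r}
    (hf : AEStronglyMeasurable f μ) (hg : AEStronglyMeasurable g μ) :
    AEMeasurable (fun x => ‖Real.log (sg (f x) (g x))‖ₑ ^ 2) μ := by
  have h1 := edp2_cont_tr.comp_aestronglyMeasurable ((edp2_asm_inv hf).prodMk hg)
  have h2 := edp2_cont_tr.comp_aestronglyMeasurable ((edp2_asm_inv hg).prodMk hf)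
  have h3 : AEMeasurable (fun x => sg (f x) (g x)) μ := (h1.add h2).aemeasurable
  exact h3.log.enorm.pow_const 2

theorem edp2_tendsto_sg (hr : 0 < r) {f g : ℕ → Mat r} {P Q : Mat r} (hP : P.PosDef)
    (hQ : Q.PosDef) (hf : Tendsto f atTop (𝓝 P)) (hg : Tendsto g atTop (𝓝 Q)) :
    Tendsto (fun k => ‖Real.log (sg (f k) (g k))‖ₑ ^ 2) atTop (𝓝 (‖Real.log (sg P Q)‖ₑ ^ 2)) := by
  have h1 := (edp2_cont_tr.tendsto (P⁻¹, Q)).comp ((edp2_tendsto_inv hP hf).prodMk_nhds hg)
  have h2 := (edp2_cont_tr.tendsto (Q⁻¹, P)).comp ((edp2_tendsto_inv hQ hg).prodMk_nhds hf)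
  have h3 : Tendsto (fun k => sg (f k) (g k)) atTop (𝓝 (sg P Q)) := h1.add h2
  have h4 : sg P Q ≠ 0 := by
    have := le_sg hP hQ
    have h5 : (0 : ℝ) < r := by exact_mod_cast hr
    linarith
  exact ENNReal.Tendsto.pow (h3.log h4).enorm

/-- the energy density as a function of the inverse metric -/
def edp2F (p : Mat r × (E →L[ℝ] Mat r)) : ℝ :=
  ∑ i, trL r (p.1 * p.2 (ob E i) * (p.1 * p.2 (ob E i)))

omit [MeasurableSpace E] [BorelSpace E] in
theorem edp2_en_eq (h : Mat r) (X : E →L[ℝ] Mat r) :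
    en (ContinuousLinearMap.id ℝ E) h X = edp2F (h⁻¹, X) := by
  simp only [en, pair, mc, lmul_apply, ContinuousLinearMap.id_apply, edp2F, trL_apply]

omit [MeasurableSpace E] [BorelSpace E] in
theorem edp2_cont_en : Continuous (edp2F : Mat r × (E →L[ℝ] Mat r) → ℝ) := by
  refine continuous_finsetSum _ fun i _ => ?_
  have h : Continuous fun p : Mat r × (E →L[ℝ] Mat r) => p.1 * p.2 (ob E i) :=
    continuous_fst.mul (continuous_snd.clm_apply continuous_const)
  exact (trL r).continuous.comp (h.mul h)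

omit [MeasurableSpace E] [BorelSpace E] in
theorem edp2_en_le {C : ℝ} (hC : 0 < C) {h : Mat r} (hh : Bd C h) (X : E →L[ℝ] Mat r) :
    en (ContinuousLinearMap.id ℝ E) h X ≤ Module.finrank ℝ E * (r * C) ^ 2 * ‖X‖ ^ 2 := by
  have h1 := abs_pair_le (ContinuousLinearMap.id ℝ E) (mc h X) (mc h X)
  have h2 : ‖mc h X‖ ≤ r * C * ‖X‖ := (norm_lmul_le _ _).trans
    (mul_le_mul_of_nonneg_right (hh.norm_inv_le hC) (norm_nonneg _))
  have h3 : ‖ContinuousLinearMap.id ℝ E‖ ≤ 1 := ContinuousLinearMap.norm_id_le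
  refine (le_abs_self _).trans (h1.trans ?_)
  calc _ ≤ (Module.finrank ℝ E : ℝ) * 1 * (r * C * ‖X‖) * (r * C * ‖X‖) := by gcongr
    _ = _ := by ring

omit [MeasurableSpace E] [BorelSpace E] in
theorem edp2_en_split {h : Mat r} (hh : h.PosDef) {X Y : E →L[ℝ] Mat r} (hX : HermF X)
    (hY : HermF Y) : en (ContinuousLinearMap.id ℝ E) h X ≤
      2 * en (ContinuousLinearMap.id ℝ E) h Y + 2 * en (ContinuousLinearMap.id ℝ E) h (X - Y) := by
  have hZ : HermF (Y - (X - Y)) := fun v => by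
    simp only [_root_.sub_apply, conjTranspose_sub, hX v, hY v]
  have h0 : 0 ≤ en (ContinuousLinearMap.id ℝ E) h (Y - (X - Y)) := by
    rw [en_eq_npair hh hZ]
    exact npair_nonneg hh hh (fun _ _ => rfl) (fun v => real_inner_self_nonneg) _
  have key : en (ContinuousLinearMap.id ℝ E) h X + en (ContinuousLinearMap.id ℝ E) h (Y - (X - Y))
      = 2 * en (ContinuousLinearMap.id ℝ E) h Y +
        2 * en (ContinuousLinearMap.id ℝ E) h (X - Y) := by
    simp only [en, pair, mc, lmul_apply, ContinuousLinearMap.id_apply,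
      _root_.sub_apply, Finset.mul_sum, ← Finset.sum_add_distrib]
    refine Finset.sum_congr rfl fun p _ => ?_
    simp only [Matrix.mul_sub, Matrix.sub_mul, trace_sub, Complex.sub_re]
    ring
  linarith

theorem edp2_meas_en {v : E → Mat r} (hv : ContDiff ℝ 1 v) : Measurable fun x =>
    en (ContinuousLinearMap.id ℝ E) (v x) (fderiv ℝ v x) := by
  simp only [edp2_en_eq]
  exact (edp2_cont_en.comp_stronglyMeasurable ((edp2_sm_inv hv.continuous.stronglyMeasurable).prodMk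
    (hv.continuous_fderiv one_ne_zero).stronglyMeasurable)).measurable

theorem edp2_enorm_sq (a : ℝ) : ‖a‖ₑ ^ 2 = ENNReal.ofReal (a ^ 2) := by
  rw [Real.enorm_eq_ofReal_abs, ← ENNReal.ofReal_pow (abs_nonneg a), sq_abs]

theorem edp2_point (hr : 0 < r) {v : E → Mat r} (hv : ContDiff ℝ 1 v) {x y : E}
    (hp : ∀ z ∈ segment ℝ y x, (v z).PosDef) (hh : ∀ z ∈ segment ℝ y x, HermF (fderiv ℝ v z))
    (hd : ‖x - y‖ ≤ 4) :
    ‖Real.log (sg (v y) (v x))‖ₑ ^ 2 ≤ ENNReal.ofReal (2 * Real.log (2 * r) ^ 2) +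
      32 * ∫⁻ t in Ioc (0 : ℝ) 1, ENNReal.ofReal (en (ContinuousLinearMap.id ℝ E)
        (v (y + t • (x - y))) (fderiv ℝ v (y + t • (x - y)))) := by
  have h1 := log_sg_segment hr hv hp hh
  have h0 := log_sg_nonneg hr (hp y (left_mem_segment ℝ y x)) (hp x (right_mem_segment ℝ y x))
  set e : ℝ → ℝ := fun t => en (ContinuousLinearMap.id ℝ E) (v (y + t • (x - y)))
    (fderiv ℝ v (y + t • (x - y))) with he
  have me : Measurable e := (edp2_meas_en hv).comp (by fun_prop)
  have hI0 : 0 ≤ ∫ t in (0 : ℝ)..1, √(e t) :=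
    intervalIntegral.integral_nonneg zero_le_one fun t _ => Real.sqrt_nonneg _
  have : IsProbabilityMeasure (volume.restrict (Ioc (0 : ℝ) 1)) := ⟨by simp⟩
  have h2 : ‖∫ t in (0 : ℝ)..1, √(e t)‖ₑ ^ 2 ≤ ∫⁻ t in Ioc (0 : ℝ) 1, ENNReal.ofReal (e t) := by
    rw [intervalIntegral.integral_of_le zero_le_one]
    refine (pow_le_pow_left' (enorm_integral_le_lintegral_enorm _) 2).trans
      ((lintegral_pow_jensen one_le_two me.sqrt.enorm.aemeasurable).trans
        (lintegral_mono fun t => ?_))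
    rw [edp2_enorm_sq, Real.sq_sqrt', ENNReal.ofReal_max, ENNReal.ofReal_zero, max_zero]
  refine le_trans ?_ (add_le_add_right (mul_le_mul_right h2 32) _)
  rw [edp2_enorm_sq, edp2_enorm_sq, show (32 : ℝ≥0∞) = ENNReal.ofReal 32 by simp,
    ← ENNReal.ofReal_mul (by norm_num), ← ENNReal.ofReal_add (by positivity) (by positivity)]
  refine ENNReal.ofReal_le_ofReal ?_
  have h3 := mul_le_mul_of_nonneg_right hd hI0
  have h4 := pow_le_pow_left₀ h0 (h1.trans (add_le_add_right h3 _)) 2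
  nlinarith [sq_nonneg (Real.log (2 * r) - 4 * ∫ t in (0 : ℝ)..1, √(e t))]

theorem edp2_smooth (hr : 0 < r) {v : E → Mat r} (hv : ContDiff ℝ 1 v) {K : Set E}
    (hK : MeasurableSet K) (hc : Convex ℝ K) (hd : ∀ x ∈ K, ∀ y ∈ K, ‖x - y‖ ≤ 4)
    (hp : ∀ z ∈ K, (v z).PosDef) (hh : ∀ z ∈ K, HermF (fderiv ℝ v z)) :
    ∫⁻ y in K, ∫⁻ x in K, ‖Real.log (sg (v y) (v x))‖ₑ ^ 2 ≤
      ENNReal.ofReal (2 * Real.log (2 * r) ^ 2) * volume K * volume K +
        32 * (2 ^ Module.finrank ℝ E * volume K * ∫⁻ x in K,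
          ENNReal.ofReal (en (ContinuousLinearMap.id ℝ E) (v x) (fderiv ℝ v x))) := by
  set G : E → ℝ≥0∞ := fun x =>
    ENNReal.ofReal (en (ContinuousLinearMap.id ℝ E) (v x) (fderiv ℝ v x)) with hGdef
  have hG : Measurable G := (edp2_meas_en hv).ennreal_ofReal
  calc ∫⁻ y in K, ∫⁻ x in K, ‖Real.log (sg (v y) (v x))‖ₑ ^ 2
      ≤ ∫⁻ y in K, ∫⁻ x in K, (ENNReal.ofReal (2 * Real.log (2 * r) ^ 2) +
          32 * ∫⁻ t in Ioc (0 : ℝ) 1, G (y + t • (x - y))) := by
        refine setLIntegral_mono' hK fun y hy => setLIntegral_mono' hK fun x hx => ?_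
        have hs := hc.segment_subset hy hx
        exact edp2_point hr hv (fun z hz => hp z (hs hz)) (fun z hz => hh z (hs hz)) (hd x hx y hy)
    _ = ENNReal.ofReal (2 * Real.log (2 * r) ^ 2) * volume K * volume K +
          32 * ∫⁻ y in K, ∫⁻ t in Ioc (0 : ℝ) 1, ∫⁻ x in K, G (y + t • (x - y)) := by
        rw [← lintegral_const_mul' _ _ (by simp), ← setLIntegral_const K (_ * volume K),
          ← lintegral_add_left measurable_const]
        refine lintegral_congr fun y => ?_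
        rw [lintegral_add_left measurable_const, setLIntegral_const,
          lintegral_const_mul' _ _ (by simp),
          lintegral_lintegral_swap (f := fun x (t : ℝ) => G (y + t • (x - y)))
            (hG.comp (show Measurable fun z : E × ℝ =>
            y + z.2 • (z.1 - y) by fun_prop)).aemeasurable]
    _ = ENNReal.ofReal (2 * Real.log (2 * r) ^ 2) * volume K * volume K +
          32 * ∫⁻ t in Ioc (0 : ℝ) 1, ∫⁻ y in K, ∫⁻ x in K, G (y + t • (x - y)) := by
        rw [lintegral_lintegral_swap]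
        refine (Measurable.lintegral_prod_right' (f := fun z : (E × ℝ) × E =>
          G (z.1.1 + z.1.2 • (z.2 - z.1.1))) (hG.comp (by fun_prop))).aemeasurable
    _ ≤ _ := by
        gcongr
        refine (setLIntegral_mono' measurableSet_Ioc fun t ht =>
          lintegral_segment₂_le hG hK hc ht.1.le ht.2).trans ?_
        simp [hGdef]

/-- the energies of the smooth approximations -/
theorem edp2_energy {u : E → Mat r} {D : E → E →L[ℝ] Mat r} {K : Set E} (hK : MeasurableSet K)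
    (hD : MemLp D (2 : ℕ) (volume.restrict K)) (hH : ∀ᵐ x, x ∈ K → HermF (D x)) {C : ℝ}
    (hC : 0 < C) {v : ℕ → E → Mat r} (hu : ∀ x ∈ K, Bd C (u x)) (hv : ∀ k, ContDiff ℝ 1 (v k))
    (hb : ∀ k, ∀ x ∈ K, Bd C (v k x) ∧ HermF (fderiv ℝ (v k) x))
    (t0 : ∀ᵐ x, x ∈ K → Tendsto (fun k => v k x) atTop (𝓝 (u x)))
    (t2 : Tendsto (fun k => ∫⁻ x in K, ‖fderiv ℝ (v k) x - D x‖ₑ ^ 2) atTop (𝓝 0)) :
    ∃ B : ℕ → ℝ≥0∞, (∀ k, ∫⁻ x in K, ENNReal.ofReal (en (ContinuousLinearMap.id ℝ E) (v k x)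
      (fderiv ℝ (v k) x)) ≤ B k) ∧ Tendsto B atTop (𝓝 (2 * ∫⁻ x in K,
        ENNReal.ofReal (en (ContinuousLinearMap.id ℝ E) (u x) (D x)))) := by
  obtain ⟨c, hc, hc0⟩ : ∃ c : ℝ, c = Module.finrank ℝ E * (r * C) ^ 2 ∧ 0 ≤ c :=
    ⟨_, rfl, by positivity⟩
  have hle : ∀ {h : Mat r}, Bd C h → ∀ X : E →L[ℝ] Mat r,
      ENNReal.ofReal (en (ContinuousLinearMap.id ℝ E) h X) ≤ ENNReal.ofReal c * ‖X‖ₑ ^ 2 := by
    intro h hh X
    rw [← ofReal_norm, ← ENNReal.ofReal_pow (norm_nonneg _), ← ENNReal.ofReal_mul hc0, hc]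
    exact ENNReal.ofReal_le_ofReal (edp2_en_le hC hh X)
  have m1 : ∀ k, AEMeasurable (fun x => ENNReal.ofReal (en (ContinuousLinearMap.id ℝ E) (v k x)
      (D x))) (volume.restrict K) := fun k => by
    simp only [edp2_en_eq]
    exact (edp2_cont_en.comp_aestronglyMeasurable
      ((edp2_asm_inv (hv k).continuous.aestronglyMeasurable).prodMk
        hD.1)).aemeasurable.ennreal_ofReal
  have t1 : Tendsto (fun k => ∫⁻ x in K, ENNReal.ofReal (en (ContinuousLinearMap.id ℝ E) (v k x)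
      (D x))) atTop (𝓝 (∫⁻ x in K,
        ENNReal.ofReal (en (ContinuousLinearMap.id ℝ E) (u x) (D x)))) := by
    refine tendsto_lintegral_of_dominated_convergence'
      (fun x => ENNReal.ofReal c * ‖D x‖ₑ ^ 2) m1 (fun k => ?_) ?_ ?_
    · filter_upwards [ae_restrict_mem hK] with x hx using hle (hb k x hx).1 _
    · rw [lintegral_const_mul' _ _ ENNReal.ofReal_ne_top]
      exact ENNReal.mul_ne_top ENNReal.ofReal_ne_top (lintegral_pow_lt_top one_le_two hD).ne
    · filter_upwards [ae_restrict_mem hK, ae_restrict_of_ae t0] with x hx h1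
      simp only [edp2_en_eq]
      exact ENNReal.tendsto_ofReal ((edp2_cont_en.tendsto ((u x)⁻¹, D x)).comp
        ((edp2_tendsto_inv ((hu x hx).posDef hC) (h1 hx)).prodMk_nhds tendsto_const_nhds))
  refine ⟨fun k => 2 * (∫⁻ x in K, ENNReal.ofReal (en (ContinuousLinearMap.id ℝ E) (v k x) (D x)))
    + 2 * ENNReal.ofReal c * ∫⁻ x in K, ‖fderiv ℝ (v k) x - D x‖ₑ ^ 2, fun k => ?_, ?_⟩
  · beta_reduce
    rw [← lintegral_const_mul' _ _ (by simp),
      ← lintegral_const_mul' _ _ (ENNReal.mul_ne_top (by simp) ENNReal.ofReal_ne_top),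
      ← lintegral_add_left' ((m1 k).const_mul 2)]
    refine lintegral_mono_ae ?_
    filter_upwards [ae_restrict_mem hK, ae_restrict_of_ae hH] with x hx h1
    refine (ENNReal.ofReal_le_ofReal
      (edp2_en_split ((hb k x hx).1.posDef hC) (hb k x hx).2 (h1 hx))).trans
        (ENNReal.ofReal_add_le.trans ?_)
    rw [ENNReal.ofReal_mul zero_le_two, ENNReal.ofReal_mul zero_le_two, ENNReal.ofReal_ofNat,
      mul_assoc]
    gcongr
    exact hle (hb k x hx).1 _
  · have h1 := ENNReal.Tendsto.const_mul (a := 2) t1 (Or.inr (by simp))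
    have h2 := ENNReal.Tendsto.const_mul (a := 2 * ENNReal.ofReal c) t2
      (Or.inr (ENNReal.mul_ne_top (by simp) ENNReal.ofReal_ne_top))
    simpa using h1.add h2

theorem edp2_double (hr : 0 < r) (hU : IsOpen U) {u : E → Mat r} {D : E → E →L[ℝ] Mat r}
    (hw : WD 2 U u D) (hb : LBd U u) {K : Set E} (hK : IsCompact K) (hc : Convex ℝ K)
    (hKU : K ⊆ U) (hd : ∀ x ∈ K, ∀ y ∈ K, ‖x - y‖ ≤ 4) :
    ∫⁻ y in K, ∫⁻ x in K, ‖Real.log (sg (u y) (u x))‖ₑ ^ 2 ≤
      ENNReal.ofReal (2 * Real.log (2 * r) ^ 2) * volume K * volume K +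
        32 * (2 ^ Module.finrank ℝ E * volume K * (2 * ∫⁻ x in K,
          ENNReal.ofReal (en (ContinuousLinearMap.id ℝ E) (u x) (D x)))) := by
  obtain ⟨C, v, hC, hu, sv, hv, t0, t2⟩ := approx_bd hU hw hb hK hKU
  have hC0 : 0 < C := by linarith
  have sv1 : ∀ k, ContDiff ℝ 1 (v k) := fun k => (sv k).of_le (by simp)
  have hH : ∀ᵐ x, x ∈ K → HermF (D x) := by
    filter_upwards [wd_herm one_le_two hU hw fun x hx => (hb.posDef x hx).isHermitian.eq]
      with x h1 hx using h1 (hKU hx)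
  obtain ⟨B, hB, tB⟩ := edp2_energy hK.measurableSet (hw.2.1 K hK hKU) hH hC0 hu sv1 hv t0 t2
  have t0' : ∀ᵐ x ∂(volume.restrict K), (u x).PosDef ∧
      Tendsto (fun k => v k x) atTop (𝓝 (u x)) := by
    filter_upwards [ae_restrict_of_ae t0, ae_restrict_mem hK.measurableSet] with x h1 h2
      using ⟨(hu x h2).posDef hC0, h1 h2⟩
  have cv := fun k => (sv k).continuous
  have t3 := (ENNReal.Tendsto.const_mul (a := 32) (ENNReal.Tendsto.const_mul
    (a := 2 ^ Module.finrank ℝ E * volume K) tB (Or.inr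
      (ENNReal.mul_ne_top (by simp) hK.measure_lt_top.ne))) (Or.inr (by simp))).const_add
        (ENNReal.ofReal (2 * Real.log (2 * r) ^ 2) * volume K * volume K)
  calc ∫⁻ y in K, ∫⁻ x in K, ‖Real.log (sg (u y) (u x))‖ₑ ^ 2
      ≤ ∫⁻ y in K, liminf (fun k => ∫⁻ x in K, ‖Real.log (sg (v k y) (v k x))‖ₑ ^ 2) atTop := by
        refine lintegral_mono_ae ?_
        filter_upwards [t0'] with y hy
        refine le_trans (le_of_eq (lintegral_congr_ae ?_)) (lintegral_liminf_le' fun k =>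
          edp2_am_sg aestronglyMeasurable_const (cv k).aestronglyMeasurable)
        filter_upwards [t0'] with x hx
        exact (edp2_tendsto_sg hr hy.1 hx.1 hy.2 hx.2).liminf_eq.symm
    _ ≤ liminf (fun k => ∫⁻ y in K, ∫⁻ x in K, ‖Real.log (sg (v k y) (v k x))‖ₑ ^ 2) atTop := by
        refine lintegral_liminf_le' fun k => ?_
        exact AEMeasurable.lintegral_prod_right' (f := fun z : E × E =>
          ‖Real.log (sg (v k z.1) (v k z.2))‖ₑ ^ 2) (edp2_am_sg
            ((cv k).comp continuous_fst).aestronglyMeasurable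
            ((cv k).comp continuous_snd).aestronglyMeasurable)
    _ ≤ _ := by
        rw [← t3.liminf_eq]
        refine liminf_le_liminf (Eventually.of_forall fun k => ?_)
        refine (edp2_smooth hr (sv1 k) hK.measurableSet hc hd
          (fun z hz => (hv k z hz).1.posDef hC0) fun z hz => (hv k z hz).2).trans ?_
        gcongr
        exact hB k

/-- double Poincare inequality: a centre -/
theorem exists_centre (hr : 0 < r) : ∃ L : ℝ, 0 ≤ L ∧
    ∀ (u : E → Mat r) (D : E → E →L[ℝ] Mat r) (M : ℝ), WD 2 (ball 0 6) u D → LBd (ball 0 6) u →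
      0 ≤ M → ∫⁻ x in closedBall (0 : E) 2,
        ENNReal.ofReal (en (ContinuousLinearMap.id ℝ E) (u x) (D x)) ≤ ENNReal.ofReal M →
      ∃ y ∈ closedBall (0 : E) 2,
        N2 (closedBall 0 2) (fun x => Real.log (sg (u y) (u x))) ≤ ENNReal.ofReal (L * (1 + M)) := by
  have hK : IsCompact (closedBall (0 : E) 2) := isCompact_closedBall _ _
  have h0 : volume (closedBall (0 : E) 2) ≠ 0 := (measure_closedBall_pos _ _ two_pos).ne'
  have h1 : volume (closedBall (0 : E) 2) ≠ ⊤ := hK.measure_lt_top.ne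
  obtain ⟨A, hA, hA0⟩ : ∃ A : ℝ, ENNReal.ofReal (2 * Real.log (2 * r) ^ 2) *
      volume (closedBall (0 : E) 2) = ENNReal.ofReal A ∧ 0 ≤ A :=
    ⟨_, (ENNReal.ofReal_toReal (ENNReal.mul_ne_top ENNReal.ofReal_ne_top h1)).symm,
      ENNReal.toReal_nonneg⟩
  obtain ⟨B, hB, hB0⟩ : ∃ B : ℝ, (64 * 2 ^ Module.finrank ℝ E : ℝ≥0∞) = ENNReal.ofReal B ∧
      0 ≤ B := ⟨_, (ENNReal.ofReal_toReal (ENNReal.mul_ne_top (by simp) (by simp))).symm,
        ENNReal.toReal_nonneg⟩
  refine ⟨A + B + 1, by linarith, fun u D M hw hb hM hE => ?_⟩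
  have hKU : closedBall (0 : E) 2 ⊆ ball 0 6 := closedBall_subset_ball (by norm_num)
  have h2 := edp2_double hr isOpen_ball hw hb hK (convex_closedBall _ _) hKU fun x hx y hy => by
    have := norm_sub_le x y
    rw [mem_closedBall_zero_iff] at hx hy
    linarith
  have mu := (hw.1 _ hK hKU).1
  have m : AEMeasurable (fun y => ∫⁻ x in closedBall (0 : E) 2,
      ‖Real.log (sg (u y) (u x))‖ₑ ^ 2) (volume.restrict (closedBall (0 : E) 2)) :=
    AEMeasurable.lintegral_prod_right' (f := fun z : E × E =>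
      ‖Real.log (sg (u z.1) (u z.2))‖ₑ ^ 2) (edp2_am_sg mu.comp_fst mu.comp_snd)
  obtain ⟨y, hy, hy'⟩ := exists_le_setLAverage h0 h1 m
  refine ⟨y, hy, ?_⟩
  have h3 : ∫⁻ x in closedBall (0 : E) 2, ‖Real.log (sg (u y) (u x))‖ₑ ^ 2 ≤
      ENNReal.ofReal A + ENNReal.ofReal B * ENNReal.ofReal M := by
    refine hy'.trans ?_
    rw [setLAverage_eq]
    refine ENNReal.div_le_of_le_mul (h2.trans ?_)
    rw [hA, ← hB, add_mul]
    refine add_le_add_right ?_ _
    calc _ ≤ 32 * (2 ^ Module.finrank ℝ E * volume (closedBall (0 : E) 2) *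
          (2 * ENNReal.ofReal M)) := by gcongr
      _ = _ := by ring
  rw [lintegral_pow_eq one_le_two, ← ENNReal.ofReal_mul hB0,
    ← ENNReal.ofReal_add hA0 (mul_nonneg hB0 hM)] at h3
  refine (ENNReal.pow_le_pow_left_iff two_ne_zero).1 (h3.trans ?_)
  rw [← ENNReal.ofReal_pow (by positivity)]
  refine ENNReal.ofReal_le_ofReal ?_
  have e1 : A + B * M ≤ (A + B + 1) * (1 + M) := by nlinarith [mul_nonneg hA0 hM]
  have e2 : 1 ≤ (A + B + 1) * (1 + M) := by nlinarith [mul_nonneg hA0 hM, mul_nonneg hB0 hM]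
  nlinarith

end Pool.Agent.PW
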