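import Pool.Agent.P.MP_65ad7c_ag.TCacc
import Pool.Agent.P.MP_65ad7c_ag.TMul
import Pool.Agent.P.MP_65ad7c_ag.AKey

open MeasureTheory Set Filter Topology Metric Matrix
open scoped ComplexOrder ContDiff Matrix.Norms.Frobenius RealInnerProductSpace ENNReal
open Pool.Agent.Lib.Sob

noncomputable section
namespace Pool.Agent.PW

variable {E : Type} [NormedAddCommGroup E] [InnerProductSpace ℝ E] [FiniteDimensional ℝ E]
  [MeasurableSpace E] [BorelSpace E] {r : ℕ} {U : Set E} {Γ : Type} [Group Γ]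
  {V : Type} [NormedAddCommGroup V] [NormedSpace ℝ V]

theorem elog_chain (hU : IsOpen U) {s : E → ℝ} {Ds : E → E →L[ℝ] ℝ} (hs : WD 2 U s Ds)
    (bs : LB U s) (h1 : ∀ x ∈ U, 1 ≤ s x) {F F' : ℝ → ℝ} (hF : ContDiffOn ℝ 1 F (Ioi 0))
    (hF' : ∀ t, 0 < t → HasDerivAt F (F' t) t) :
    WD 2 U (fun x => F (s x)) (fun x => F' (s x) • Ds x) ∧ LB U fun x => F (s x) := by
  have key : ∀ K, IsCompact K → K ⊆ U → ∃ C : ℝ, ∀ x ∈ K, s x ∈ Icc 1 C := fun K hK hKU => by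
    obtain ⟨C, hC⟩ := bs K hK hKU
    exact ⟨C, fun x hx => ⟨h1 x (hKU hx), (le_abs_self _).trans (hC x hx)⟩⟩
  have hsub : ∀ C : ℝ, Icc 1 C ⊆ Ioi (0 : ℝ) := fun C t ht => lt_of_lt_of_le one_pos ht.1
  constructor
  · refine (wd_chain one_le_two hU hs isOpen_Ioi hF fun K hK hKU => ?_).congr' (fun _ _ => rfl)
      fun x hx => ?_
    · obtain ⟨C, hC⟩ := key K hK hKU
      exact ⟨Icc 1 C, isCompact_Icc, hsub C, Eventually.of_forall hC⟩
    · rw [(hF' (s x) (lt_of_lt_of_le one_pos (h1 x hx))).hasFDerivAt.fderiv]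
      ext e
      simp [mul_comm]
  · intro K hK hKU
    obtain ⟨C, hC⟩ := key K hK hKU
    obtain ⟨B, hB⟩ := isCompact_Icc.exists_bound_of_continuousOn (hF.continuousOn.mono (hsub C))
    exact ⟨B, fun x hx => hB _ (hC x hx)⟩

theorem elog_mul (hU : IsOpen U) {a b : E → ℝ} {Da Db : E → E →L[ℝ] ℝ} (ha : WD 2 U a Da)
    (hb : WD 2 U b Db) (ba : LB U a) (bb : LB U b) :
    WD 2 U (fun x => a x * b x) (fun x => b x • Da x + a x • Db x) ∧ LB U fun x => a x * b x := by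
  refine ⟨(wd_bilin one_le_two hU (ContinuousLinearMap.mul ℝ ℝ) ha hb ba bb).congr'
    (fun _ _ => rfl) fun x _ => ?_, ba.bilin (ContinuousLinearMap.mul ℝ ℝ) bb⟩
  ext e
  simp

omit [MeasurableSpace E] [BorelSpace E] in
theorem elog_point {α : E →L[ℝ] E} {p q : E →L[ℝ] ℝ} {s φ Q : ℝ} (hs : 0 < s) (hφ : 0 ≤ φ)
    (h : spair α p p ≤ s * Q) :
    spair α (s⁻¹ • p) q ≤ φ * s⁻¹ * Q + spair α p (s⁻¹ • q + φ • (-(s ^ 2)⁻¹ • p)) := by
  have e1 : spair α (s⁻¹ • p) q = s⁻¹ * spair α p q := by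
    simp only [spair, _root_.smul_apply, smul_eq_mul, Finset.mul_sum, mul_assoc]
  have e2 : spair α p (s⁻¹ • q + φ • (-(s ^ 2)⁻¹ • p)) =
      s⁻¹ * spair α p q - φ * (s ^ 2)⁻¹ * spair α p p := by
    simp only [spair, _root_.smul_apply, _root_.add_apply, smul_eq_mul, Finset.mul_sum,
      ← Finset.sum_sub_distrib]
    exact Finset.sum_congr rfl fun i _ => by ring
  have e3 : φ * (s ^ 2)⁻¹ * spair α p p ≤ φ * (s ^ 2)⁻¹ * (s * Q) :=
    mul_le_mul_of_nonneg_left h (by positivity)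
  have e4 : φ * (s ^ 2)⁻¹ * (s * Q) = φ * s⁻¹ * Q := by field_simp
  rw [e1, e2]
  linarith

/-- from the differential inequality for `sg` to the one for `log sg` -/
theorem sub_log_local (hr : 0 < r) (hU : IsOpen U) {K : Set E} (hK : IsCompact K) (hKU : K ⊆ U)
    {α : E → E →L[ℝ] E} (hα : Coef U α) {u v : E → Mat r} {D D' : E → E →L[ℝ] Mat r}
    (hu : WD 2 U u D) (hv : WD 2 U v D') (bu : LBd U u) (bv : LBd U v) {c : ℝ}
    (h : ∀ (η : E → ℝ) (Dη : E → E →L[ℝ] ℝ), WD 2 U η Dη → LB U η → (∀ x ∈ U, 0 ≤ η x) →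
      (∀ x ∈ U, x ∉ K → η x = 0) →
      ∫ x in U, (η x * qq (α x) (u x) (v x) (D x) (D' x) +
        spair (α x) (dsg (u x) (v x) (D x) (D' x)) (Dη x)) ≤
        c * ∫ x in U, η x * sg (u x) (v x)) :
    ∃ Df, WD 2 U (fun x => Real.log (sg (u x) (v x))) Df ∧
      LB U (fun x => Real.log (sg (u x) (v x))) ∧ SubSol U K α Df c := by
  obtain ⟨hs, bs⟩ := wd_sg hU hu hv bu bv
  have h1 : ∀ x ∈ U, 1 ≤ sg (u x) (v x) := fun x hx => by
    have h2 := le_sg (bu.posDef x hx) (bv.posDef x hx)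
    have h3 : (1 : ℝ) ≤ r := by exact_mod_cast hr
    linarith
  have h0 : ∀ x ∈ U, 0 < sg (u x) (v x) := fun x hx => lt_of_lt_of_le one_pos (h1 x hx)
  obtain ⟨hf, bf⟩ := elog_chain hU hs bs h1 (F := Real.log) (F' := fun t => t⁻¹)
    (Real.contDiffOn_log.mono fun t ht => ne_of_gt ht) fun t ht => Real.hasDerivAt_log ht.ne'
  obtain ⟨hw, bw⟩ := elog_chain hU hs bs h1 (F := fun t => t⁻¹) (F' := fun t => -(t ^ 2)⁻¹)
    ((contDiffOn_inv ℝ).mono fun t ht => ne_of_gt ht) fun t ht => hasDerivAt_inv ht.ne'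
  refine ⟨_, hf, bf, fun φ Dφ hφ bφ pφ zφ => ?_⟩
  obtain ⟨hη, bη⟩ := elog_mul hU hφ hw bφ bw
  have zη : ∀ x ∈ U, x ∉ K → φ x * (sg (u x) (v x))⁻¹ = 0 := fun x hx hx' => by
    rw [zφ x hx hx', zero_mul]
  have h2 := h _ _ hη bη (fun x hx => mul_nonneg (pφ x hx) (inv_nonneg.2 (h0 x hx).le)) zη
  have h3 : ∫ x in U, φ x * (sg (u x) (v x))⁻¹ * sg (u x) (v x) = ∫ x in U, φ x :=
    setIntegral_congr_fun hU.measurableSet fun x hx => by
      simp only [mul_assoc, inv_mul_cancel₀ (h0 x hx).ne', mul_one]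
  rw [h3] at h2
  have cα : ContinuousOn α U := hα.1.continuousOn
  refine le_trans (setIntegral_mono_on ?_ ?_ hU.measurableSet fun x hx => ?_) h2
  · refine (integrableOn_of_cs hU (locLp_spair cα hf.2.1 hφ.2.1) hK hKU ?_).1
    filter_upwards [wd_cs_ae one_le_two hU hφ hK.isClosed zφ] with x h4 hx hx'
    simp [spair, h4 hx hx']
  · refine (integrableOn_of_cs hU ((locLp_bilin_lb (ContinuousLinearMap.mul ℝ ℝ) hη.1 bη
      (locLp_qq hU cα hu hv bu bv)).add (locLp_spair cα hs.2.1 hη.2.1)) hK hKU ?_).1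
    filter_upwards [wd_cs_ae one_le_two hU hη hK.isClosed zη] with x h4 hx hx'
    rw [h4 hx hx', zη x hx hx']
    simp [spair]
  · refine elog_point (h0 x hx) (pφ x hx) (spair_dsg_le (bu.posDef x hx) (bv.posDef x hx)
      (hα.2 x hx).1 fun w => ?_)
    rcases eq_or_ne w 0 with rfl | hw0
    · simp
    · exact ((hα.2 x hx).2 w hw0).le

end Pool.Agent.PW
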