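import Pool.Agent.P.MP_65ad7c_ag.EEn

open MeasureTheory Set Filter Topology Metric Matrix
open scoped ComplexOrder ContDiff Matrix.Norms.Frobenius RealInnerProductSpace ENNReal
open Pool.Agent.Lib.Sob

noncomputable section
namespace Pool.Agent.PW

variable {E : Type} [NormedAddCommGroup E] [InnerProductSpace ℝ E] [FiniteDimensional ℝ E]
  [MeasurableSpace E] [BorelSpace E] {r : ℕ} {U : Set E} {Γ : Type} [Group Γ]
  {V : Type} [NormedAddCommGroup V] [NormedSpace ℝ V]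

/-- abstract lower semicontinuity for a convex quadratic integrand -/
theorem elsc_abs {X : Type} [MeasurableSpace X] {μ : Measure X} {F : Type} [NormedAddCommGroup F]
    [NormedSpace ℝ F] {D : ℕ → X → F} {D' : X → F} {W : ℕ → X → F →L[ℝ] ℝ} {w : X → F →L[ℝ] ℝ}
    {e : ℕ → X → ℝ} {C M : ℝ} (hD : ∀ m, MemLp (D m) 2 μ) (hD' : MemLp D' 2 μ) (hC0 : 0 < C)
    (hC : ∀ m, eLpNorm (D m) 2 μ ≤ ENNReal.ofReal C)
    (hW : ∀ m, AEStronglyMeasurable (W m) μ) (hw : AEStronglyMeasurable w μ)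
    (hWb : ∀ m, ∀ᵐ x ∂μ, ‖W m x‖ ≤ M * ‖D' x‖) (hwb : ∀ᵐ x ∂μ, ‖w x‖ ≤ M * ‖D' x‖)
    (hlim : ∀ᵐ x ∂μ, Tendsto (fun m => W m x) atTop (𝓝 (w x)))
    (hweak : Tendsto (fun m => ∫ x, w x (D m x) ∂μ) atTop (𝓝 (∫ x, w x (D' x) ∂μ)))
    (he : ∀ m, Integrable (e m) μ)
    (hle : ∀ m, ∀ᵐ x ∂μ, 2 * W m x (D m x) - W m x (D' x) ≤ e m x) {ε : ℝ} (hε : 0 < ε) :
    ∀ᶠ m in atTop, (∫ x, w x (D' x) ∂μ) - ε ≤ ∫ x, e m x ∂μ := by
  have happ : ∀ {a : X → F →L[ℝ] ℝ} {b : X → F}, AEStronglyMeasurable a μ →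
      AEStronglyMeasurable b μ → AEStronglyMeasurable (fun x => a x (b x)) μ := fun ha hb =>
    (isBoundedBilinearMap_apply (𝕜 := ℝ) (E := F) (F := ℝ)).continuous.comp_aestronglyMeasurable
      (ha.prodMk hb)
  have hsq : ∀ m, Integrable (fun x => ‖D m x‖ ^ 2) μ := fun m =>
    (memLp_two_iff_integrable_sq_norm (hD m).1).1 (hD m)
  have hsq' : Integrable (fun x => ‖D' x‖ ^ 2) μ :=
    (memLp_two_iff_integrable_sq_norm hD'.1).1 hD'
  have hI : ∀ m, ∫ x, ‖D m x‖ ^ 2 ∂μ ≤ C ^ 2 := by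
    intro m
    have h1 := lintegral_pow_eq (μ := μ) (n := 2) (by norm_num) (D m)
    have h2 : ENNReal.ofReal (∫ x, ‖D m x‖ ^ 2 ∂μ) = ∫⁻ x, ‖D m x‖ₑ ^ 2 ∂μ := by
      rw [ofReal_integral_eq_lintegral_ofReal (hsq m)
        (Eventually.of_forall fun x => by positivity)]
      refine lintegral_congr fun x => ?_
      rw [ENNReal.ofReal_pow (norm_nonneg _), ofReal_norm]
    have h3 : ENNReal.ofReal (∫ x, ‖D m x‖ ^ 2 ∂μ) ≤ ENNReal.ofReal (C ^ 2) := by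
      rw [h2, h1, ENNReal.ofReal_pow hC0.le]
      exact pow_le_pow_left' (by exact_mod_cast hC m) 2
    exact (ENNReal.ofReal_le_ofReal_iff (by positivity)).1 h3
  set δ : ℝ := ε / (4 * C ^ 2) with hδ
  have hδ0 : 0 < δ := by positivity
  have hδC : δ * C ^ 2 = ε / 4 := by rw [hδ]; field_simp
  set G : ℕ → X → ℝ := fun m x => W m x (D' x) + δ⁻¹ * ‖W m x - w x‖ ^ 2 with hG
  have hGm : ∀ m, AEStronglyMeasurable (G m) μ := fun m =>
    (happ (hW m) hD'.1).add ((((hW m).sub hw).norm.pow 2).const_mul _)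
  have hGb : ∀ m, ∀ᵐ x ∂μ, ‖G m x‖ ≤ (M + δ⁻¹ * (2 * M) ^ 2) * ‖D' x‖ ^ 2 := by
    intro m
    filter_upwards [hWb m, hwb] with x h1 h2
    have h3 : ‖W m x (D' x)‖ ≤ M * ‖D' x‖ ^ 2 := by
      refine ((W m x).le_opNorm _).trans ?_
      have := mul_le_mul_of_nonneg_right h1 (norm_nonneg (D' x))
      nlinarith
    have h4 : ‖W m x - w x‖ ≤ 2 * M * ‖D' x‖ := (norm_sub_le _ _).trans (by linarith)
    have h5 : ‖W m x - w x‖ ^ 2 ≤ (2 * M * ‖D' x‖) ^ 2 := pow_le_pow_left₀ (norm_nonneg _) h4 2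
    have h6 : ‖δ⁻¹ * ‖W m x - w x‖ ^ 2‖ ≤ δ⁻¹ * (2 * M * ‖D' x‖) ^ 2 := by
      rw [Real.norm_of_nonneg (by positivity)]
      exact mul_le_mul_of_nonneg_left h5 (by positivity)
    refine (norm_add_le _ _).trans ((add_le_add h3 h6).trans (le_of_eq ?_))
    ring
  have hGi : ∀ m, Integrable (G m) μ := fun m => (hsq'.const_mul _).mono' (hGm m) (hGb m)
  have hGt : Tendsto (fun m => ∫ x, G m x ∂μ) atTop (𝓝 (∫ x, w x (D' x) ∂μ)) := by
    refine tendsto_integral_of_dominated_convergence _ hGm (hsq'.const_mul _) hGb ?_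
    filter_upwards [hlim] with x hx
    have h1 : Tendsto (fun m => W m x (D' x)) atTop (𝓝 (w x (D' x))) :=
      ((ContinuousLinearMap.apply ℝ ℝ (D' x)).continuous.tendsto _).comp hx
    have h2 : Tendsto (fun m => δ⁻¹ * ‖W m x - w x‖ ^ 2) atTop (𝓝 (δ⁻¹ * ‖w x - w x‖ ^ 2)) :=
      (((hx.sub_const _).norm).pow 2).const_mul _
    have := h1.add h2
    simpa using this
  have hwi : ∀ m, Integrable (fun x => w x (D m x)) μ := by
    intro m
    refine (((hsq'.const_mul (M ^ 2)).add (hsq m))).mono' (happ hw (hD m).1) ?_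
    filter_upwards [hwb] with x h1
    refine ((w x).le_opNorm _).trans ?_
    have := mul_le_mul_of_nonneg_right h1 (norm_nonneg (D m x))
    have h2 := sq_nonneg (M * ‖D' x‖ - ‖D m x‖)
    have h3 := sq_nonneg (M * ‖D' x‖)
    have h4 := sq_nonneg (‖D m x‖)
    simp only [Pi.add_apply]
    nlinarith
  have hmain : ∀ m, 2 * (∫ x, w x (D m x) ∂μ) - ε / 4 - ∫ x, G m x ∂μ ≤ ∫ x, e m x ∂μ := by
    intro m
    have h1 : ∫ x, (2 * w x (D m x) - δ * ‖D m x‖ ^ 2 - G m x) ∂μ ≤ ∫ x, e m x ∂μ := by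
      refine integral_mono_ae
        ((((hwi m).const_mul 2).sub ((hsq m).const_mul δ)).sub (hGi m)) (he m) ?_
      filter_upwards [hle m] with x hx
      have h2 : ‖(W m x - w x) (D m x)‖ ≤ ‖W m x - w x‖ * ‖D m x‖ := (W m x - w x).le_opNorm _
      have h3 : -(‖W m x - w x‖ * ‖D m x‖) ≤ W m x (D m x) - w x (D m x) := by
        have := (abs_le.1 h2).1
        simpa using this
      have h4 : 2 * (‖W m x - w x‖ * ‖D m x‖) ≤
          δ * ‖D m x‖ ^ 2 + δ⁻¹ * ‖W m x - w x‖ ^ 2 := by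
        have h5 : 0 ≤ δ⁻¹ * (δ * ‖D m x‖ - ‖W m x - w x‖) ^ 2 := by positivity
        have h6 : δ⁻¹ * (δ * ‖D m x‖ - ‖W m x - w x‖) ^ 2 = δ * ‖D m x‖ ^ 2 +
            δ⁻¹ * ‖W m x - w x‖ ^ 2 - 2 * (‖W m x - w x‖ * ‖D m x‖) := by
          field_simp
          ring
        linarith
      simp only [hG]
      linarith
    have h8 : Integrable (fun x => 2 * w x (D m x) - δ * ‖D m x‖ ^ 2) μ :=
      ((hwi m).const_mul 2).sub ((hsq m).const_mul δ)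
    rw [integral_sub h8 (hGi m),
      integral_sub ((hwi m).const_mul 2) ((hsq m).const_mul δ), integral_const_mul,
      integral_const_mul] at h1
    have h7 := mul_le_mul_of_nonneg_left (hI m) hδ0.le
    linarith
  have e1 := hweak.eventually (lt_mem_nhds (show (∫ x, w x (D' x) ∂μ) - ε / 4 <
    ∫ x, w x (D' x) ∂μ by linarith))
  have e2 := hGt.eventually (gt_mem_nhds (show (∫ x, w x (D' x) ∂μ) <
    (∫ x, w x (D' x) ∂μ) + ε / 4 by linarith))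
  filter_upwards [e1, e2] with m h1 h2
  have := hmain m
  linarith

section gen
omit [MeasurableSpace E] [BorelSpace E]
variable {R : Type} [NormedRing R] [NormedAlgebra ℝ R]

/-- the form `(X, Y) ↦ ∑ τ (Q X Q Y)` -/
def elsc_q (τ : R →L[ℝ] ℝ) (α : E →L[ℝ] E) (Q : R) (Y X : E →L[ℝ] R) : ℝ :=
  ∑ p, τ (Q * X (ob E p) * (Q * Y (α (ob E p))))

/-- the same as a functional -/
def elsc_b (τ : R →L[ℝ] ℝ) (α : E →L[ℝ] E) (Q : R) (Y : E →L[ℝ] R) : (E →L[ℝ] R) →L[ℝ] ℝ :=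
  ∑ p, τ.comp (((ContinuousLinearMap.mul ℝ R).flip (Q * Y (α (ob E p)))).comp
    ((ContinuousLinearMap.mul ℝ R Q).comp (ContinuousLinearMap.apply ℝ R (ob E p))))

theorem elsc_b_apply (τ : R →L[ℝ] ℝ) (α : E →L[ℝ] E) (Q : R) (Y X : E →L[ℝ] R) :
    elsc_b τ α Q Y X = elsc_q τ α Q Y X := by
  simp [elsc_b, elsc_q]

set_option maxSynthPendingDepth 3 in
theorem elsc_b_cont (τ : R →L[ℝ] ℝ) :
    Continuous fun z : ℝ × (E →L[ℝ] E) × R × (E →L[ℝ] R) =>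
      z.1 • elsc_b τ z.2.1 z.2.2.1 z.2.2.2 := by
  refine continuous_fst.smul ?_
  unfold elsc_b
  refine continuous_finsetSum _ fun p _ => continuous_const.clm_comp ?_
  have hQ : Continuous fun z : ℝ × (E →L[ℝ] E) × R × (E →L[ℝ] R) => z.2.2.1 :=
    continuous_fst.comp (continuous_snd.comp continuous_snd)
  have hY : Continuous fun z : ℝ × (E →L[ℝ] E) × R × (E →L[ℝ] R) =>
      z.2.2.2 (z.2.1 (ob E p)) :=
    (continuous_snd.comp (continuous_snd.comp continuous_snd)).clm_apply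
      ((continuous_fst.comp continuous_snd).clm_apply continuous_const)
  refine Continuous.clm_comp ?_ (Continuous.clm_comp ?_ continuous_const)
  · exact (ContinuousLinearMap.mul ℝ R).flip.continuous.comp (hQ.mul hY)
  · exact (ContinuousLinearMap.mul ℝ R).continuous.comp hQ

theorem elsc_b_norm (τ : R →L[ℝ] ℝ) (α : E →L[ℝ] E) (Q : R) (Y : E →L[ℝ] R) :
    ‖elsc_b τ α Q Y‖ ≤ Module.finrank ℝ E * (‖τ‖ * ‖α‖ * ‖Q‖ ^ 2) * ‖Y‖ := by
  refine ContinuousLinearMap.opNorm_le_bound _ (by positivity) fun X => ?_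
  rw [elsc_b_apply, elsc_q]
  refine (norm_sum_le _ _).trans ?_
  have h : ∀ p, ‖τ (Q * X (ob E p) * (Q * Y (α (ob E p))))‖ ≤
      ‖τ‖ * ‖α‖ * ‖Q‖ ^ 2 * ‖Y‖ * ‖X‖ := by
    intro p
    have h0 : ‖ob E p‖ = 1 := (ob E).orthonormal.1 p
    have h1 : ‖X (ob E p)‖ ≤ ‖X‖ := by simpa [h0] using X.le_opNorm (ob E p)
    have h2 : ‖α (ob E p)‖ ≤ ‖α‖ := by simpa [h0] using α.le_opNorm (ob E p)
    have h3 : ‖Y (α (ob E p))‖ ≤ ‖Y‖ * ‖α‖ :=
      (Y.le_opNorm _).trans (mul_le_mul_of_nonneg_left h2 (norm_nonneg _))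
    calc ‖τ (Q * X (ob E p) * (Q * Y (α (ob E p))))‖
        ≤ ‖τ‖ * ‖Q * X (ob E p) * (Q * Y (α (ob E p)))‖ := τ.le_opNorm _
      _ ≤ ‖τ‖ * ((‖Q‖ * ‖X (ob E p)‖) * (‖Q‖ * ‖Y (α (ob E p))‖)) := by
          gcongr
          refine (norm_mul_le _ _).trans ?_
          gcongr <;> exact norm_mul_le _ _
      _ ≤ ‖τ‖ * ((‖Q‖ * ‖X‖) * (‖Q‖ * (‖Y‖ * ‖α‖))) := by gcongr
      _ = _ := by ring
  refine (Finset.sum_le_sum fun p _ => h p).trans (le_of_eq ?_)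
  simp only [Finset.sum_const, Finset.card_univ, Fintype.card_fin, nsmul_eq_mul]
  ring

set_option maxSynthPendingDepth 3 in
theorem elsc_gen {X : Type} [MeasurableSpace X] {μ : Measure X} (τ : R →L[ℝ] ℝ) {χ : X → ℝ}
    {α : X → E →L[ℝ] E} {Q : ℕ → X → R} {Q' : X → R} {D : ℕ → X → E →L[ℝ] R}
    {D' : X → E →L[ℝ] R} {e : ℕ → X → ℝ} {C c L B : ℝ}
    (hD : ∀ m, MemLp (D m) 2 μ) (hD' : MemLp D' 2 μ) (hC0 : 0 < C)
    (hC : ∀ m, eLpNorm (D m) 2 μ ≤ ENNReal.ofReal C)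
    (mχ : AEStronglyMeasurable χ μ) (mα : AEStronglyMeasurable α μ)
    (mQ : ∀ m, AEStronglyMeasurable (Q m) μ) (mQ' : AEStronglyMeasurable Q' μ)
    (bχ : ∀ᵐ x ∂μ, ‖χ x‖ ≤ c) (bα : ∀ᵐ x ∂μ, ‖α x‖ ≤ L) (bQ : ∀ m, ∀ᵐ x ∂μ, ‖Q m x‖ ≤ B)
    (bQ' : ∀ᵐ x ∂μ, ‖Q' x‖ ≤ B)
    (hlim : ∀ᵐ x ∂μ, Tendsto (fun m => Q m x) atTop (𝓝 (Q' x)))
    (hweak : ∀ w : X → (E →L[ℝ] R) →L[ℝ] ℝ, MemLp w 2 μ →
      Tendsto (fun m => ∫ x, w x (D m x) ∂μ) atTop (𝓝 (∫ x, w x (D' x) ∂μ)))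
    (he : ∀ m, Integrable (e m) μ)
    (hle : ∀ m, ∀ᵐ x ∂μ, 2 * (χ x * elsc_q τ (α x) (Q m x) (D' x) (D m x)) -
      χ x * elsc_q τ (α x) (Q m x) (D' x) (D' x) ≤ e m x) {ε : ℝ} (hε : 0 < ε) :
    ∀ᶠ m in atTop, (∫ x, χ x * elsc_q τ (α x) (Q' x) (D' x) (D' x) ∂μ) - ε ≤ ∫ x, e m x ∂μ := by
  have hmeas : ∀ {P : X → R}, AEStronglyMeasurable P μ →
      AEStronglyMeasurable (fun x => χ x • elsc_b τ (α x) (P x) (D' x)) μ :=
    fun hP => (elsc_b_cont τ).comp_aestronglyMeasurable (mχ.prodMk (mα.prodMk (hP.prodMk hD'.1)))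
  have hbd : ∀ {P : X → R}, (∀ᵐ x ∂μ, ‖P x‖ ≤ B) → ∀ᵐ x ∂μ,
      ‖χ x • elsc_b τ (α x) (P x) (D' x)‖ ≤
        c * (Module.finrank ℝ E * (‖τ‖ * L * B ^ 2)) * ‖D' x‖ := by
    intro P hP
    filter_upwards [hP, bα, bχ] with x h1 h2 h3
    have h4 : 0 ≤ L := (norm_nonneg _).trans h2
    have h5 : 0 ≤ c := (norm_nonneg _).trans h3
    rw [norm_smul]
    calc ‖χ x‖ * ‖elsc_b τ (α x) (P x) (D' x)‖
        ≤ c * (Module.finrank ℝ E * (‖τ‖ * ‖α x‖ * ‖P x‖ ^ 2) * ‖D' x‖) :=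
          mul_le_mul h3 (elsc_b_norm _ _ _ _) (norm_nonneg _) h5
      _ ≤ c * (Module.finrank ℝ E * (‖τ‖ * L * B ^ 2) * ‖D' x‖) := by gcongr
      _ = _ := by ring
  have key := elsc_abs (μ := μ) (D := D) (D' := D')
    (W := fun m x => χ x • elsc_b τ (α x) (Q m x) (D' x))
    (w := fun x => χ x • elsc_b τ (α x) (Q' x) (D' x)) (e := e) hD hD' hC0 hC
    (fun m => hmeas (mQ m)) (hmeas mQ') (fun m => hbd (bQ m)) (hbd bQ') ?_
    (hweak _ (hD'.of_le_mul (hmeas mQ') (hbd bQ'))) he ?_ hε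
  · simpa only [_root_.smul_apply, smul_eq_mul, elsc_b_apply] using key
  · filter_upwards [hlim] with x h2
    exact ((elsc_b_cont τ).tendsto (χ x, α x, Q' x, D' x)).comp
      (tendsto_const_nhds.prodMk_nhds (tendsto_const_nhds.prodMk_nhds
        (h2.prodMk_nhds tendsto_const_nhds)))
  · simpa only [_root_.smul_apply, smul_eq_mul, elsc_b_apply] using hle

theorem elsc_pt {α : E →L[ℝ] E} {h : Mat r} (hh : h.PosDef) (hα : ∀ v w, ⟪α v, w⟫ = ⟪v, α w⟫)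
    (hp : ∀ v, 0 ≤ ⟪v, α v⟫) {D D' : E →L[ℝ] Mat r} (hD : HermF D) (hD' : HermF D') :
    2 * pair α (mc h D) (mc h D') - pair α (mc h D') (mc h D') ≤ en α h D := by
  have hs : HermF (D - D') := fun v => by
    simp only [_root_.sub_apply, conjTranspose_sub, hD v, hD' v]
  have h0 : 0 ≤ en α h (D - D') := by
    rw [en_eq_npair hh hs]
    exact npair_nonneg hh hh hα hp _
  have h1 : en α h (D - D') = en α h D - pair α (mc h D) (mc h D') -
      (pair α (mc h D') (mc h D) - pair α (mc h D') (mc h D')) := by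
    simp only [en, pair, mc, lmul_apply, _root_.sub_apply, Matrix.mul_sub,
      Matrix.sub_mul, trace_sub, Complex.sub_re, Finset.sum_sub_distrib]
    ring
  rw [pair_comm hα (mc h D') (mc h D)] at h1
  linarith

end gen

theorem elsc_inv (hU : IsOpen U) {u : E → Mat r} {D : E → E →L[ℝ] Mat r} (hw : WD 2 U u D)
    (hb : LBd U u) : LocLp 2 U fun x => (u x)⁻¹ := by
  refine (wd_inv hU hw fun K hK hKU => ?_).1
  obtain ⟨C, hC, hx⟩ := hb K hK hKU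
  have hC0 : 0 < C := by linarith
  exact ⟨r * C, fun x h => ⟨(isUnit_iff_isUnit_det _).1 ((hx x h).posDef hC0).isUnit,
    (hx x h).norm_le hC0, (hx x h).norm_inv_le hC0⟩⟩

/-- lower semicontinuity of the local energy -/
theorem lsc_local (hU : IsOpen U) {χ : E → ℝ} (hχ : IsTest U χ) (h0 : ∀ x, 0 ≤ χ x)
    {α : E → E →L[ℝ] E} (hα : Coef U α) {u : ℕ → E → Mat r} {D : ℕ → E → E →L[ℝ] Mat r}
    {v : E → Mat r} {D' : E → E →L[ℝ] Mat r} (hw : ∀ m, WD 2 U (u m) (D m)) (hv : WD 2 U v D')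
    (hb : ∀ K, IsCompact K → K ⊆ U → ∃ C : ℝ, 1 ≤ C ∧ (∀ x ∈ K, Bd C (v x)) ∧
      ∀ m, (∀ x ∈ K, Bd C (u m x)) ∧ N2 K (D m) ≤ ENNReal.ofReal C)
    (hae : ∀ᵐ x, x ∈ U → Tendsto (fun m => u m x) atTop (𝓝 (v x)))
    (hweak : ∀ K, IsCompact K → K ⊆ U → ∀ w : E → (E →L[ℝ] Mat r) →L[ℝ] ℝ,
      MemLp w 2 (volume.restrict K) →
      Tendsto (fun m => ∫ x in K, w x (D m x)) atTop (𝓝 (∫ x in K, w x (D' x))))
    {ε : ℝ} (hε : 0 < ε) :
    ∀ᶠ m in atTop, (∫ x, χ x * en (α x) (v x) (D' x)) - ε ≤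
      ∫ x, χ x * en (α x) (u m x) (D m x) := by
  have hK : IsCompact (tsupport χ) := hχ.2.1
  have hKU : tsupport χ ⊆ U := hχ.2.2
  set K := tsupport χ with hKdef
  have hKm : MeasurableSet K := hK.measurableSet
  have hres : ∀ f : E → ℝ, ∫ x, χ x * f x = ∫ x in K, χ x * f x := fun f =>
    (setIntegral_eq_integral_of_forall_compl_eq_zero fun x hx => by
      rw [image_eq_zero_of_notMem_tsupport hx, zero_mul]).symm
  have bu : ∀ m, LBd U (u m) := fun m K' h1 h2 => by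
    obtain ⟨C, hC, -, h⟩ := hb K' h1 h2
    exact ⟨C, hC, (h m).1⟩
  have bv : LBd U v := fun K' h1 h2 => by
    obtain ⟨C, hC, h, -⟩ := hb K' h1 h2
    exact ⟨C, hC, h⟩
  obtain ⟨C, hC, hCv, hCu⟩ := hb K hK hKU
  have hC0 : 0 < C := by linarith
  have hαK : ContinuousOn α K := hα.1.continuousOn.mono hKU
  obtain ⟨L, hL⟩ := hK.exists_bound_of_continuousOn hαK
  obtain ⟨c, hc⟩ := hK.exists_bound_of_continuousOn hχ.continuous.continuousOn
  have hD' : MemLp D' 2 (volume.restrict K) := by exact_mod_cast hv.2.1 K hK hKU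
  have hD : ∀ m, MemLp (D m) 2 (volume.restrict K) := fun m => by
    exact_mod_cast (hw m).2.1 K hK hKU
  have key := elsc_gen (μ := volume.restrict K) (R := Mat r) (trL r) (χ := χ) (α := α)
    (Q := fun m x => (u m x)⁻¹) (Q' := fun x => (v x)⁻¹) (D := D) (D' := D')
    (e := fun m x => χ x * en (α x) (u m x) (D m x)) (c := c) (L := L) (B := r * C)
    hD hD' hC0 (fun m => (hCu m).2) hχ.continuous.aestronglyMeasurable
    (hαK.aestronglyMeasurable_of_isCompact hK hKm)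
    (fun m => (elsc_inv hU (hw m) (bu m) K hK hKU).1) (elsc_inv hU hv bv K hK hKU).1
    ((ae_restrict_mem hKm).mono hc) ((ae_restrict_mem hKm).mono hL)
    (fun m => (ae_restrict_mem hKm).mono fun x hx => ((hCu m).1 x hx).norm_inv_le hC0)
    ((ae_restrict_mem hKm).mono fun x hx => (hCv x hx).norm_inv_le hC0) ?_
    (hweak K hK hKU) ?_ ?_ hε
  · filter_upwards [key] with m hm
    rw [hres, hres]
    exact hm
  · filter_upwards [ae_restrict_mem hKm, ae_restrict_of_ae hae] with x hx h1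
    have hu : IsUnit (v x).det := (isUnit_iff_isUnit_det _).1 ((hCv x hx).posDef hC0).isUnit
    have hi : ContinuousAt (fun A : Mat r => A⁻¹) (v x) := by
      refine continuousAt_matrix_inv _ ?_
      obtain ⟨a, ha⟩ := hu
      rw [← ha]
      exact NormedRing.inverse_continuousAt a
    exact hi.tendsto.comp (h1 (hKU hx))
  · intro m
    have h1 := ((en_loc hU hα (hw m) (bu m)).1.integrableOn le_rfl hK hKU)
    refine Integrable.bdd_mul (c := c) h1 hχ.continuous.aestronglyMeasurable ?_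
    filter_upwards [ae_restrict_mem hKm] with x hx using hc x hx
  · intro m
    have a1 := wd_herm (by norm_num) hU (hw m) fun x hx => ((bu m).posDef x hx).isHermitian
    have a2 := wd_herm (by norm_num) hU hv fun x hx => (bv.posDef x hx).isHermitian
    filter_upwards [ae_restrict_mem hKm, ae_restrict_of_ae a1, ae_restrict_of_ae a2] with
      x hx h1 h2
    have hxU := hKU hx
    have hp : ∀ w, 0 ≤ ⟪w, α x w⟫ := fun w => by
      by_cases hw0 : w = 0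
      · simp [hw0]
      · exact ((hα.2 x hxU).2 w hw0).le
    have := elsc_pt ((bu m).posDef x hxU) (hα.2 x hxU).1 hp (h1 hxU) (h2 hxU)
    have h3 := mul_le_mul_of_nonneg_left this (h0 x)
    change 2 * (χ x * pair (α x) (mc (u m x) (D m x)) (mc (u m x) (D' x))) -
      χ x * pair (α x) (mc (u m x) (D' x)) (mc (u m x) (D' x)) ≤ χ x * en (α x) (u m x) (D m x)
    linarith

end Pool.Agent.PW
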