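import Pool.Agent.P.MP_65ad7c_ag.TDq

open MeasureTheory Set Filter Topology Metric Matrix
open scoped ComplexOrder ContDiff Matrix.Norms.Frobenius RealInnerProductSpace ENNReal
open Pool.Agent.Lib.Sob

noncomputable section
namespace Pool.Agent.PW

variable {E : Type} [NormedAddCommGroup E] [InnerProductSpace ℝ E] [FiniteDimensional ℝ E]
  [MeasurableSpace E] [BorelSpace E] {r : ℕ} {U : Set E}
  {V W : Type} [NormedAddCommGroup V] [NormedSpace ℝ V] [NormedAddCommGroup W] [NormedSpace ℝ W]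

theorem trell_norm_le (k : ℕ) {g : E → V} {C : ℝ} (hg : ∀ x, ‖g x‖ ≤ C) (x : E) :
    ‖moll k g x‖ ≤ C := by
  unfold moll
  rw [convolution_lsmul]
  have hi : Integrable (fun t => (bump E k).normed volume t * C) :=
    (bump E k).integrable_normed.mul_const C
  refine (norm_integral_le_of_norm_le hi (Eventually.of_forall fun t => ?_)).trans ?_
  · rw [norm_smul, Real.norm_of_nonneg ((bump E k).nonneg_normed t)]
    exact mul_le_mul_of_nonneg_left (hg _) ((bump E k).nonneg_normed t)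
  · rw [integral_mul_const, (bump E k).integral_normed, one_mul]

theorem trell_lip (k : ℕ) : ∃ L : ℝ, 0 ≤ L ∧ ∀ g : E → V, Integrable g → ∀ x y : E,
    ‖moll k g x - moll k g y‖ ≤ L * ‖x - y‖ * ∫ t, ‖g t‖ := by
  have sρ : ContDiff ℝ ∞ ((bump E k).normed volume) := (bump E k).contDiff_normed
  have cρ : HasCompactSupport ((bump E k).normed volume) := (bump E k).hasCompactSupport_normed
  obtain ⟨L, hL⟩ := sρ.lipschitzWith_of_hasCompactSupport cρ (by simp)
  refine ⟨L, L.2, fun g hg x y => ?_⟩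
  have hi : ∀ z : E, Integrable (fun t => (bump E k).normed volume (z - t) • g t) := fun z =>
    (cρ.convolutionExists_left (ContinuousLinearMap.lsmul ℝ ℝ) sρ.continuous
      hg.locallyIntegrable z).integrable_swap
  unfold moll
  rw [convolution_lsmul_swap, convolution_lsmul_swap, ← integral_sub (hi x) (hi y),
    ← integral_const_mul]
  refine norm_integral_le_of_norm_le (hg.norm.const_mul _) (Eventually.of_forall fun t => ?_)
  rw [← sub_smul, norm_smul]
  refine mul_le_mul_of_nonneg_right ?_ (norm_nonneg _)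
  have := hL.dist_le_mul (x - t) (y - t)
  rwa [dist_eq_norm, dist_eq_norm, sub_sub_sub_cancel_right] at this

theorem trell_approx [CompleteSpace V] (k : ℕ) {g : E → V} (hg : Integrable g) {K : Set E}
    {A : ℝ≥0∞}
    (hA : ∀ t : E, ‖t‖ < 1 / ((k : ℝ) + 1) → ∫⁻ x in K, ‖g (x - t) - g x‖ₑ ≤ A) :
    ∫⁻ x in K, ‖moll k g x - g x‖ₑ ≤ A := by
  set ρ := (bump E k).normed volume with hρ
  have sρ : Continuous ρ := (bump E k).continuous_normed
  have cρ : HasCompactSupport ρ := (bump E k).hasCompactSupport_normed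
  have mρ : Measurable fun t => ENNReal.ofReal (ρ t) := sρ.measurable.ennreal_ofReal
  have h1 : ∀ x, ‖moll k g x - g x‖ₑ ≤ ∫⁻ t, ENNReal.ofReal (ρ t) * ‖g (x - t) - g x‖ₑ := by
    intro x
    have i1 : Integrable (fun t => ρ t • g (x - t)) :=
      (cρ.convolutionExists_left (ContinuousLinearMap.lsmul ℝ ℝ) sρ hg.locallyIntegrable
        x).integrable
    have i2 : Integrable (fun t => ρ t • g x) := (bump E k).integrable_normed.smul_const _
    have e1 : moll k g x - g x = ∫ t, ρ t • (g (x - t) - g x) := by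
      simp only [smul_sub]
      rw [integral_sub i1 i2, integral_smul_const, (bump E k).integral_normed, one_smul]
      unfold moll
      rw [convolution_lsmul]
    rw [e1]
    refine (enorm_integral_le_lintegral_enorm _).trans (le_of_eq (lintegral_congr fun t => ?_))
    rw [enorm_smul, Real.enorm_eq_ofReal ((bump E k).nonneg_normed t)]
  refine (lintegral_mono h1).trans ?_
  have hm0 : AEStronglyMeasurable (fun p : E × E => g (p.1 - p.2) - g p.1)
      ((volume : Measure E).prod volume) :=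
    (hg.1.comp_quasiMeasurePreserving
      (quasiMeasurePreserving_sub_of_right_invariant volume volume)).sub hg.1.comp_fst
  have hm : AEMeasurable (fun p : E × E => ENNReal.ofReal (ρ p.2) * ‖g (p.1 - p.2) - g p.1‖ₑ)
      (((volume : Measure E).restrict K).prod volume) :=
    ((mρ.comp measurable_snd).aemeasurable.mul hm0.enorm).mono_ac
      (Measure.AbsolutelyContinuous.prod Measure.absolutelyContinuous_restrict
        Measure.AbsolutelyContinuous.rfl)
  rw [lintegral_lintegral_swap hm]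
  have h2 : ∀ t, ∫⁻ x in K, ENNReal.ofReal (ρ t) * ‖g (x - t) - g x‖ₑ
      ≤ ENNReal.ofReal (ρ t) * A := by
    intro t
    rw [lintegral_const_mul' _ _ ENNReal.ofReal_ne_top]
    by_cases ht : ρ t = 0
    · simp [ht]
    · have h' : t ∈ Function.support ρ := ht
      rw [hρ, (bump E k).support_normed_eq, mem_ball, dist_zero_right] at h'
      exact mul_le_mul_right (hA t h') _
  refine (lintegral_mono h2).trans ?_
  rw [lintegral_mul_const _ mρ, ← ofReal_integral_eq_lintegral_ofReal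
    (bump E k).integrable_normed (Eventually.of_forall (bump E k).nonneg_normed),
    (bump E k).integral_normed]
  simp

omit [InnerProductSpace ℝ E] [FiniteDimensional ℝ E] [MeasurableSpace E] [BorelSpace E] in
theorem trell_diag [TopologicalSpace.SeparableSpace E] [FiniteDimensional ℝ V]
    {w : ℕ → ℕ → E → V} {C : ℝ} (hC : ∀ k m x, ‖w k m x‖ ≤ C)
    (hL : ∀ k, ∃ L : ℝ, 0 ≤ L ∧ ∀ m x y, ‖w k m x - w k m y‖ ≤ L * ‖x - y‖) :
    ∃ φ : ℕ → ℕ, StrictMono φ ∧ ∀ k x, CauchySeq fun m => w k (φ m) x := by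
  have : ProperSpace V := FiniteDimensional.proper_real V
  set q := TopologicalSpace.denseSeq E
  have hq : DenseRange q := TopologicalSpace.denseRange_denseSeq E
  have hc : IsCompact (Set.pi univ fun _ : ℕ × ℕ => closedBall (0 : V) C) :=
    isCompact_univ_pi fun _ => isCompact_closedBall _ _
  obtain ⟨a, -, φ, hφ, ha⟩ := hc.tendsto_subseq
    (x := fun m (p : ℕ × ℕ) => w p.1 m (q p.2)) fun m p _ => by simpa using hC p.1 m (q p.2)
  refine ⟨φ, hφ, fun k x => ?_⟩
  obtain ⟨L, hL0, hL⟩ := hL k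
  rw [Metric.cauchySeq_iff]
  intro ε hε
  obtain ⟨j, hj⟩ := hq.exists_dist_lt x (ε := ε / 3 / (L + 1)) (by positivity)
  have h1 : CauchySeq fun m => w k (φ m) (q j) := (tendsto_pi_nhds.1 ha (k, j)).cauchySeq
  obtain ⟨N, hN⟩ := Metric.cauchySeq_iff.1 h1 (ε / 3) (by positivity)
  have h2 : ∀ m, dist (w k m x) (w k m (q j)) ≤ ε / 3 := by
    intro m
    rw [dist_eq_norm] at hj ⊢
    refine (hL m x (q j)).trans ?_
    rw [lt_div_iff₀ (by positivity)] at hj
    nlinarith [norm_nonneg (x - q j)]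
  refine ⟨N, fun m hm n hn => ?_⟩
  have h3 := hN m hm n hn
  have h4 := dist_triangle4 (w k (φ m) x) (w k (φ m) (q j)) (w k (φ n) (q j)) (w k (φ n) x)
  have h5 := h2 (φ m)
  have h6 := h2 (φ n)
  rw [dist_comm] at h6
  linarith

omit [NormedSpace ℝ V] in
theorem trell_dct {α : Type} [MeasurableSpace α] {μ : Measure α} [IsFiniteMeasure μ]
    {f : ℕ → α → V} (hf : ∀ m, AEStronglyMeasurable (f m) μ) {C : ℝ} (hC : ∀ m x, ‖f m x‖ ≤ C)
    (hc : ∀ x, CauchySeq fun m => f m x) :
    Tendsto (fun p : ℕ × ℕ => ∫⁻ x, ‖f p.1 x - f p.2 x‖ₑ ∂μ) atTop (𝓝 0) := by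
  have h := tendsto_lintegral_filter_of_dominated_convergence' (μ := μ) (l := atTop)
    (F := fun (p : ℕ × ℕ) x => ‖f p.1 x - f p.2 x‖ₑ) (f := fun _ => 0)
    (fun _ => ENNReal.ofReal (C + C))
    (Eventually.of_forall fun p => ((hf p.1).sub (hf p.2)).enorm)
    (Eventually.of_forall fun p => Eventually.of_forall fun x =>
      enorm_le_ofReal ((norm_sub_le _ _).trans (add_le_add (hC _ _) (hC _ _))))
    (by
      rw [lintegral_const]
      exact ENNReal.mul_ne_top ENNReal.ofReal_ne_top (measure_ne_top _ _))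
    (Eventually.of_forall fun x => by
      have h1 := cauchySeq_iff_tendsto_dist_atTop_0.1 (hc x)
      have h2 := ENNReal.tendsto_ofReal h1
      simpa only [dist_eq_norm, ofReal_norm, ENNReal.ofReal_zero] using h2)
  simpa using h

omit [NormedSpace ℝ V] in
theorem trell_ae [CompleteSpace V] {α : Type} [MeasurableSpace α] {μ : Measure α}
    {f : ℕ → α → V} (hf : ∀ m, AEStronglyMeasurable (f m) μ)
    (hc : Tendsto (fun p : ℕ × ℕ => ∫⁻ x, ‖f p.1 x - f p.2 x‖ₑ ∂μ) atTop (𝓝 0)) :
    ∃ ψ : ℕ → ℕ, StrictMono ψ ∧ ∀ᵐ x ∂μ, ∃ y, Tendsto (fun m => f (ψ m) x) atTop (𝓝 y) := by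
  have h1 : ∀ N : ℕ, ∃ M : ℕ, ∀ n m, M ≤ n → M ≤ m →
      ∫⁻ x, ‖f n x - f m x‖ₑ ∂μ < (2⁻¹ : ℝ≥0∞) ^ N := by
    intro N
    have hpos : (0 : ℝ≥0∞) < 2⁻¹ ^ N := ENNReal.pow_pos (by simp) N
    obtain ⟨p, hp⟩ := eventually_atTop.1 (hc.eventually (gt_mem_nhds hpos))
    exact ⟨max p.1 p.2, fun n m hn hm =>
      hp (n, m) ⟨(le_max_left _ _).trans hn, (le_max_right _ _).trans hm⟩⟩
  choose M hM using h1
  obtain ⟨ψ, hψ, hψM⟩ := extraction_forall_of_eventually (P := fun N k => M N ≤ k)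
    fun N => eventually_ge_atTop _
  refine ⟨ψ, hψ, Lp.ae_tendsto_of_cauchy_eLpNorm (p := 1) (fun m => hf (ψ m)) le_rfl
    (B := fun N => (2⁻¹ : ℝ≥0∞) ^ N) (by simp) fun N n m hn hm => ?_⟩
  rw [eLpNorm_one_eq_lintegral_enorm]
  exact hM N _ _ ((hψM N).trans (hψ.monotone hn)) ((hψM N).trans (hψ.monotone hm))

/-- Rellich: an almost everywhere convergent subsequence on a compact set -/
theorem rellich [FiniteDimensional ℝ V] (hU : IsOpen U) {u : ℕ → E → V}
    {D : ℕ → E → E →L[ℝ] V} (hw : ∀ m, WD 2 U (u m) (D m))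
    (hb : ∀ K, IsCompact K → K ⊆ U →
      ∃ C : ℝ, ∀ m, (∀ x ∈ K, ‖u m x‖ ≤ C) ∧ N2 K (D m) ≤ ENNReal.ofReal C)
    {K : Set E} (hK : IsCompact K) (hKU : K ⊆ U) :
    ∃ φ : ℕ → ℕ, StrictMono φ ∧
      ∀ᵐ x, x ∈ K → ∃ y, Tendsto (fun m => u (φ m) x) atTop (𝓝 y) := by
  have : CompleteSpace V := FiniteDimensional.complete ℝ V
  obtain ⟨δ, hδ, hδU⟩ := hK.exists_cthickening_subset_open hU hKU
  have hK' : IsCompact (cthickening δ K) := hK.cthickening
  have mK' : MeasurableSet (cthickening δ K) := hK'.measurableSet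
  have mK : MeasurableSet K := hK.measurableSet
  have fK : IsFiniteMeasure ((volume : Measure E).restrict K) :=
    isFiniteMeasure_restrict.2 hK.measure_lt_top.ne
  obtain ⟨C₀, hC₀⟩ := hb _ hK' hδU
  set C := max C₀ 0 with hC
  set g : ℕ → E → V := fun m => (cthickening δ K).indicator (u m) with hg
  have gi : ∀ m, Integrable (g m) := fun m =>
    (integrable_indicator_iff mK').2 ((hw m).1.integrableOn (by norm_num) hK' hδU)
  have gC : ∀ m x, ‖g m x‖ ≤ C := by
    intro m x
    by_cases hx : x ∈ cthickening δ K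
    · simp only [hg, indicator_of_mem hx]
      exact ((hC₀ m).1 x hx).trans (le_max_left _ _)
    · simp only [hg, indicator_of_notMem hx, norm_zero]
      exact le_max_right _ _
  have gI : ∀ m, ∫ t, ‖g m t‖ ≤ C * (volume : Measure E).real (cthickening δ K) := by
    intro m
    have h1 : ∫ t, ‖g m t‖ = ∫ t in cthickening δ K, ‖g m t‖ := by
      refine (setIntegral_eq_integral_of_forall_compl_eq_zero fun x hx => ?_).symm
      simp only [hg, indicator_of_notMem hx, norm_zero]
    rw [h1]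
    refine (le_abs_self _).trans ?_
    rw [← Real.norm_eq_abs]
    exact norm_setIntegral_le_of_norm_le_const hK'.measure_lt_top fun x _ => by
      simpa using gC m x
  obtain ⟨φ, hφ, hcau⟩ := trell_diag (w := fun k m => moll k (g m)) (C := C)
    (fun k m x => trell_norm_le k (gC m) x) fun k => by
      obtain ⟨L, hL0, hL⟩ := trell_lip (E := E) (V := V) k
      refine ⟨L * (C * (volume : Measure E).real (cthickening δ K)), by positivity,
        fun m x y => (hL _ (gi m) x y).trans ?_⟩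
      rw [mul_right_comm]
      exact mul_le_mul_of_nonneg_right (mul_le_mul_of_nonneg_left (gI m) hL0) (norm_nonneg _)
  set B : ℝ≥0∞ := ENNReal.ofReal C₀ * volume K ^ (1 / 2 : ℝ) with hB
  have hBt : B ≠ ⊤ := ENNReal.mul_ne_top ENNReal.ofReal_ne_top
    (ENNReal.rpow_ne_top_of_nonneg (by norm_num) hK.measure_lt_top.ne)
  have happ : ∀ k : ℕ, 1 / ((k : ℝ) + 1) ≤ δ → ∀ m,
      ∫⁻ x in K, ‖moll k (g m) x - g m x‖ₑ ≤ ENNReal.ofReal (1 / ((k : ℝ) + 1)) * B := by
    intro k hk m
    refine trell_approx k (gi m) fun t ht => ?_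
    have ht' : ‖-t‖ ≤ δ := by rw [norm_neg]; exact ht.le.trans hk
    have h1 := dq_le hU (hw m) hK hδU ht'
    have h2 : (fun x => g m (x - t) - g m x) =ᵐ[volume.restrict K]
        fun x => u m (x + -t) - u m x := by
      filter_upwards [ae_restrict_mem mK] with x hx
      have a1 : x ∈ cthickening δ K := self_subset_cthickening _ hx
      have a2 : x - t ∈ cthickening δ K :=
        mem_cthickening_of_dist_le _ x _ K hx (by simpa [dist_eq_norm] using ht')
      simp only [hg, indicator_of_mem a1, indicator_of_mem a2]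
      rw [sub_eq_add_neg x t]
    have h3 : AEStronglyMeasurable (fun x => g m (x - t) - g m x) (volume.restrict K) :=
      (((gi m).comp_sub_right t).1.sub (gi m).1).restrict
    have h4 := eLpNorm_le_eLpNorm_mul_rpow_measure_univ (p := 1) (q := 2) (by norm_num) h3
    rw [eLpNorm_one_eq_lintegral_enorm, eLpNorm_congr_ae h2, Measure.restrict_apply_univ] at h4
    refine h4.trans ?_
    have h5 : (1 / (1 : ℝ≥0∞).toReal - 1 / (2 : ℝ≥0∞).toReal : ℝ) = 1 / 2 := by norm_num
    rw [h5, hB, ← mul_assoc]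
    refine mul_le_mul_left (le_trans h1 (mul_le_mul' ?_ (hC₀ m).2)) _
    rw [norm_neg]
    exact ENNReal.ofReal_le_ofReal ht.le
  have hsmall : Tendsto (fun k : ℕ => ENNReal.ofReal (1 / ((k : ℝ) + 1)) * B) atTop (𝓝 0) := by
    have h1 := ENNReal.tendsto_ofReal (tendsto_one_div_add_atTop_nhds_zero_nat (𝕜 := ℝ))
    rw [ENNReal.ofReal_zero] at h1
    simpa using ENNReal.Tendsto.mul_const h1 (Or.inr hBt)
  have hmm : ∀ k m, AEStronglyMeasurable (moll k (g m)) (volume.restrict K) := fun k m =>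
    (contDiff_moll k (gi m).locallyIntegrable).continuous.aestronglyMeasurable
  have hgm : ∀ m, AEStronglyMeasurable (g m) (volume.restrict K) := fun m => (gi m).1.restrict
  have hL1 : Tendsto (fun p : ℕ × ℕ => ∫⁻ x in K, ‖g (φ p.1) x - g (φ p.2) x‖ₑ) atTop (𝓝 0) := by
    rw [ENNReal.tendsto_nhds_zero]
    intro ε hε
    have hε3 : 0 < ε / 3 := ENNReal.div_pos hε.ne' (by norm_num)
    obtain ⟨k, hk1, hk2⟩ := ((ENNReal.tendsto_nhds_zero.1 hsmall _ hε3).and
      ((tendsto_one_div_add_atTop_nhds_zero_nat (𝕜 := ℝ)).eventually (ge_mem_nhds hδ))).exists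
    have h1 := trell_dct (μ := volume.restrict K) (f := fun m => moll k (g (φ m)))
      (fun m => hmm k _) (fun m x => trell_norm_le k (gC _) x) (hcau k)
    filter_upwards [ENNReal.tendsto_nhds_zero.1 h1 _ hε3] with p hp
    have h2 := (happ k hk2 (φ p.1)).trans hk1
    have h3 := (happ k hk2 (φ p.2)).trans hk1
    calc ∫⁻ x in K, ‖g (φ p.1) x - g (φ p.2) x‖ₑ
        ≤ ∫⁻ x in K, (‖moll k (g (φ p.1)) x - g (φ p.1) x‖ₑ
            + ‖moll k (g (φ p.1)) x - moll k (g (φ p.2)) x‖ₑ
            + ‖moll k (g (φ p.2)) x - g (φ p.2) x‖ₑ) := by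
          refine lintegral_mono fun x => ?_
          simp only [← edist_eq_enorm_sub]
          rw [edist_comm (moll k (g (φ p.1)) x) (g (φ p.1) x)]
          exact edist_triangle4 _ _ _ _
      _ = (∫⁻ x in K, ‖moll k (g (φ p.1)) x - g (φ p.1) x‖ₑ)
            + (∫⁻ x in K, ‖moll k (g (φ p.1)) x - moll k (g (φ p.2)) x‖ₑ)
            + ∫⁻ x in K, ‖moll k (g (φ p.2)) x - g (φ p.2) x‖ₑ := by
          have m1 : AEMeasurable (fun x => ‖moll k (g (φ p.2)) x - g (φ p.2) x‖ₑ)
              (volume.restrict K) := ((hmm k _).sub (hgm _)).enorm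
          have m2 : AEMeasurable (fun x => ‖moll k (g (φ p.1)) x - moll k (g (φ p.2)) x‖ₑ)
              (volume.restrict K) := ((hmm k _).sub (hmm k _)).enorm
          rw [lintegral_add_right' _ m1, lintegral_add_right' _ m2]
      _ ≤ ε / 3 + ε / 3 + ε / 3 := add_le_add (add_le_add h2 hp) h3
      _ = ε := ENNReal.add_thirds ε
  obtain ⟨ψ, hψ, hae⟩ := trell_ae (f := fun m => g (φ m)) (fun m => hgm _) hL1
  refine ⟨φ ∘ ψ, hφ.comp hψ, ?_⟩
  filter_upwards [(ae_restrict_iff' mK).1 hae] with x hx hxK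
  obtain ⟨y, hy⟩ := hx hxK
  refine ⟨y, ?_⟩
  simpa only [hg, indicator_of_mem (self_subset_cthickening _ hxK), Function.comp] using hy

end Pool.Agent.PW
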