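import Pool.Agent.P.MP_65ad7c_ag.EEn
import Pool.Agent.P.MP_65ad7c_ag.TRell

open MeasureTheory Set Filter Topology Metric Matrix
open scoped ComplexOrder ContDiff Matrix.Norms.Frobenius RealInnerProductSpace ENNReal
open Pool.Agent.Lib.Sob

noncomputable section
namespace Pool.Agent.PW

variable {E : Type} [NormedAddCommGroup E] [InnerProductSpace ℝ E] [FiniteDimensional ℝ E]
  [MeasurableSpace E] [BorelSpace E] {r : ℕ} {U : Set E} {Γ : Type} [Group Γ]
  {V : Type} [NormedAddCommGroup V] [NormedSpace ℝ V]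
  {A : Atlas E Γ} {χ : A.ι → E → ℝ} {ρ : Γ →* Mat r} {H h : A.ι → E → Mat r}
  {D : A.ι → E → E →L[ℝ] Mat r} {C : ℝ}

/-- uniform local bounds in the obstacle class under an energy bound -/
theorem Atlas.adm_bounds (hχ : A.Pou (ball 0 6) χ)
    (hp : ∀ a, ∀ x ∈ closedBall (0 : E) 1, 0 < χ a x) (hH : A.Ref ρ H) (hC : 1 ≤ C) (M : ℝ)
    (a : A.ι) {K : Set E} (hK : IsCompact K) (hK6 : K ⊆ ball 0 6) : ∃ B : ℝ, 1 ≤ B ∧
      ∀ h D, A.Adm ρ H C h D → (∀ x ∈ K, Bd B (h a x)) ∧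
        (A.energy χ h D ≤ M → N2 K (D a) ≤ ENNReal.ofReal B) := by
  obtain ⟨C0, hC0, hb⟩ := hH.lbd a K hK hK6
  have hB : 1 ≤ C0 * C := one_le_mul_of_one_le_of_one_le hC0 hC
  obtain ⟨L, hL, hE⟩ := A.energy_ctrl hχ hp
  obtain ⟨L', hL', hN⟩ := n2_le_of_en (r := r) (A.coef a) hK hK6 hB
  have hbd : ∀ h D, A.Adm ρ H C h D → ∀ x ∈ K, Bd (C0 * C) (h a x) := fun h D hh x hx =>
    Obst.trans (by linarith) (by linarith) (hb x hx) (hh.ob a x (hK6 hx))
  refine ⟨max (C0 * C) (L' * (1 + L * max M 0)), le_max_of_le_left hB, fun h D hh =>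
    ⟨fun x hx => (hbd h D hh x hx).mono (by linarith) (le_max_left _ _), fun hM => ?_⟩⟩
  refine (hN (h a) (D a) (L * max M 0) (mul_nonneg hL (le_max_right _ _)) (hbd h D hh) ?_
    ?_).trans (ENNReal.ofReal_le_ofReal (le_max_right _ _))
  · filter_upwards [wd_herm (by norm_num) isOpen_ball (hh.wd a)
      fun x hx => ((hh.lbd hH hC a).posDef x hx).isHermitian] with x hx hxK
    exact hx (hK6 hxK)
  · refine (lintegral_mono_set hK6).trans ((hE ρ H C h D hH hC hh a).trans ?_)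
    exact ENNReal.ofReal_le_ofReal (mul_le_mul_of_nonneg_left (hM.trans (le_max_left _ _)) hL)

/-- an a.e. convergent subsequence, with a compatible limit inside the obstacles -/
theorem Atlas.adm_subseq (hχ : A.Pou (ball 0 6) χ)
    (hp : ∀ a, ∀ x ∈ closedBall (0 : E) 1, 0 < χ a x) (hH : A.Ref ρ H) (hC : 1 ≤ C)
    {u : ℕ → A.ι → E → Mat r} {Du : ℕ → A.ι → E → E →L[ℝ] Mat r}
    (hu : ∀ m, A.Adm ρ H C (u m) (Du m)) {M : ℝ} (hM : ∀ m, A.energy χ (u m) (Du m) ≤ M) :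
    ∃ (φ : ℕ → ℕ) (h : A.ι → E → Mat r), StrictMono φ ∧ A.MC (ball 0 6) ρ h ∧
      (∀ a, ∀ x ∈ ball (0 : E) 6, Obst C (H a x) (h a x)) ∧
      ∀ a, ∀ᵐ x, x ∈ ball (0 : E) 6 → Tendsto (fun m => u (φ m) a x) atTop (𝓝 (h a x)) := by
  classical
  have h16 : closedBall (0 : E) 1 ⊆ ball 0 6 := closedBall_subset_ball (by norm_num)
  have step : ∀ (a : A.ι) (ψ : ℕ → ℕ), ∃ φ : ℕ → ℕ, StrictMono φ ∧ ∀ᵐ x, x ∈ closedBall (0 : E) 1 →
      ∃ y, Tendsto (fun m => u (ψ (φ m)) a x) atTop (𝓝 y) := fun a ψ => by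
    refine rellich (u := fun m => u (ψ m) a) (D := fun m => Du (ψ m) a) isOpen_ball
      (fun m => (hu _).wd a) (fun K hK hK6 => ?_) (isCompact_closedBall _ _) h16
    obtain ⟨B, hB, hb⟩ := Atlas.adm_bounds hχ hp hH hC M a hK hK6
    refine ⟨max (r * B) B, fun m => ⟨fun x hx => ?_, ?_⟩⟩
    · exact (((hb _ _ (hu _)).1 x hx).norm_le (by linarith)).trans (le_max_left _ _)
    · exact ((hb _ _ (hu _)).2 (hM _)).trans (ENNReal.ofReal_le_ofReal (le_max_right _ _))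
  have all : ∀ s : Finset A.ι, ∃ φ : ℕ → ℕ, StrictMono φ ∧ ∀ a ∈ s, ∀ᵐ x,
      x ∈ closedBall (0 : E) 1 → ∃ y, Tendsto (fun m => u (φ m) a x) atTop (𝓝 y) := fun s => by
    induction s using Finset.induction_on with
    | empty => exact ⟨id, strictMono_id, by simp⟩
    | insert a s _ ih =>
      obtain ⟨ψ, hψ, h1⟩ := ih
      obtain ⟨φ, hφ, h2⟩ := step a ψ
      refine ⟨ψ ∘ φ, hψ.comp hφ, fun b hb => ?_⟩
      rcases Finset.mem_insert.1 hb with rfl | hb
      · exact h2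
      · filter_upwards [h1 b hb] with x hx hx1
        obtain ⟨y, hy⟩ := hx hx1
        exact ⟨y, hy.comp hφ.tendsto_atTop⟩
  obtain ⟨φ, hφ, hall⟩ := all Finset.univ
  have cg : ∀ g : Mat r, Continuous fun X : Mat r => gm X g := fun g =>
    (continuous_const.mul continuous_id).mul continuous_const
  have fwd : ∀ a b, ∀ x ∈ A.O a b, ∀ y, Tendsto (fun m => u (φ m) a x) atTop (𝓝 y) →
      Tendsto (fun m => u (φ m) b (A.T a b x)) atTop (𝓝 (gm y (ρ (A.c a b x)))) :=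
    fun a b x hx y hy => by
      refine (((cg _).tendsto y).comp hy).congr fun m => ?_
      exact ((hu (φ m)).mc a b x ⟨hx, A.O_sub a b hx, A.O_sub b a (A.T_mem a b x hx)⟩).symm
  have bwd : ∀ a b, ∀ x ∈ A.O a b, (∃ y, Tendsto (fun m => u (φ m) b (A.T a b x)) atTop (𝓝 y)) →
      ∃ y, Tendsto (fun m => u (φ m) a x) atTop (𝓝 y) := fun a b x hx ⟨y, hy⟩ => by
    have := fwd b a _ (A.T_mem a b x hx) y hy
    rw [A.T_inv a b x hx] at this
    exact ⟨_, this⟩
  refine ⟨φ, fun a x => if hx : ∃ y, Tendsto (fun m => u (φ m) a x) atTop (𝓝 y) then hx.choose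
    else H a x, hφ, fun a b x hx => ?_, fun a x hx => ?_, fun a => ?_⟩
  · by_cases h1 : ∃ y, Tendsto (fun m => u (φ m) a x) atTop (𝓝 y)
    · have h2 := fwd a b x hx.1 _ h1.choose_spec
      have h3 : ∃ y, Tendsto (fun m => u (φ m) b (A.T a b x)) atTop (𝓝 y) := ⟨_, h2⟩
      simp only [dif_pos h1, dif_pos h3]
      exact tendsto_nhds_unique h3.choose_spec h2
    · simp only [dif_neg h1, dif_neg (mt (bwd a b x hx.1) h1)]
      exact hH.mc a b x hx
  · by_cases h1 : ∃ y, Tendsto (fun m => u (φ m) a x) atTop (𝓝 y)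
    · simp only [dif_pos h1]
      exact (isClosed_obst C (H a x)).mem_of_tendsto h1.choose_spec
        (Eventually.of_forall fun m => (hu (φ m)).ob a x hx)
    · simp only [dif_neg h1]
      exact Obst.refl (hH.pos a x hx).posSemidef hC
  · have hc := A.toPre.ae_cover
      (p := fun b y => ∃ z, Tendsto (fun m => u (φ m) b y) atTop (𝓝 z))
      (fun b => (hall b (Finset.mem_univ b)).mono fun y hy hy1 =>
        hy (ball_subset_closedBall hy1)) a
    filter_upwards [hc] with x hx hx6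
    obtain ⟨b, h1, -, h2⟩ := hx hx6
    have h3 := bwd a b x h1 h2
    simp only [dif_pos h3]
    exact h3.choose_spec

end Pool.Agent.PW
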