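import Pool.Agent.P.MP_65ad7c_ag.TWeak

open MeasureTheory Set Filter Topology Metric Matrix
open scoped ComplexOrder ContDiff Matrix.Norms.Frobenius RealInnerProductSpace ENNReal
open Pool.Agent.Lib.Sob

noncomputable section
namespace Pool.Agent.PW

variable {E : Type} [NormedAddCommGroup E] [InnerProductSpace ℝ E] [FiniteDimensional ℝ E]
  [MeasurableSpace E] [BorelSpace E] {r : ℕ} {U : Set E}
  {V W : Type} [NormedAddCommGroup V] [NormedSpace ℝ V] [NormedAddCommGroup W] [NormedSpace ℝ W]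

/-- `L¹_loc` convergence gives convergence against continuous compactly supported functions -/
theorem tweak2_l1 {u : ℕ → E → V} {v : E → V} (hu : ∀ m, LocLp 2 U (u m)) (hv : LocLp 2 U v)
    (hc : ∀ K, IsCompact K → K ⊆ U →
      Tendsto (fun m => ∫⁻ x in K, ‖u m x - v x‖ₑ) atTop (𝓝 0))
    {ψ : E → ℝ} (cψ : Continuous ψ) (cs : HasCompactSupport ψ) (sψ : tsupport ψ ⊆ U) :
    Tendsto (fun k => ∫ x, ψ x • u k x) atTop (𝓝 (∫ x, ψ x • v x)) := by
  have hn : 1 ≤ 2 := by norm_num
  obtain ⟨C, hC⟩ := cs.exists_bound_of_continuous cψ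
  refine tendsto_integral_of_L1 _ (hv.integrable_smul hn cψ cs sψ).1
    (Eventually.of_forall fun k => (hu k).integrable_smul hn cψ cs sψ) ?_
  have t := ENNReal.Tendsto.const_mul (a := ENNReal.ofReal C) (hc _ cs sψ)
    (Or.inr ENNReal.ofReal_ne_top)
  rw [mul_zero] at t
  refine tendsto_of_tendsto_of_tendsto_of_le_of_le tendsto_const_nhds t (fun _ => zero_le)
    fun k => ?_
  rw [← lintegral_const_mul' _ _ ENNReal.ofReal_ne_top,
    ← lintegral_indicator (isClosed_tsupport ψ).measurableSet]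
  refine lintegral_mono fun x => ?_
  by_cases hx : x ∈ tsupport ψ
  · rw [indicator_of_mem hx, ← smul_sub, enorm_smul]
    gcongr
    rw [← ofReal_norm]; exact ENNReal.ofReal_le_ofReal (hC x)
  · simp [image_eq_zero_of_notMem_tsupport hx]

/-- weak limits of vector valued functions -/
theorem tweak2_vec [FiniteDimensional ℝ W] (hU : IsOpen U) {D : ℕ → E → W}
    (hD : ∀ m, LocLp 2 U (D m))
    (hb : ∀ K, IsCompact K → K ⊆ U → ∃ C : ℝ, ∀ m, N2 K (D m) ≤ ENNReal.ofReal C)
    (hc : ∀ φ, IsTest U φ → ∃ l, Tendsto (fun m => ∫ x, φ x • D m x) atTop (𝓝 l)) :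
    ∃ D' : E → W, LocLp 2 U D' ∧ ∀ K, IsCompact K → K ⊆ U →
      ∀ w : E → W →L[ℝ] ℝ, MemLp w 2 (volume.restrict K) →
        Tendsto (fun m => ∫ x in K, w x (D m x)) atTop (𝓝 (∫ x in K, w x (D' x))) := by
  have hn : 1 ≤ 2 := by norm_num
  haveI : CompleteSpace W := FiniteDimensional.complete ℝ W
  let b := Module.finBasis ℝ W
  let c : Fin (Module.finrank ℝ W) → W →L[ℝ] ℝ := fun i =>
    LinearMap.toContinuousLinearMap (b.coord i)
  have hsum : ∀ y : W, y = ∑ i, c i y • b i := fun y => (b.sum_repr y).symm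
  have key : ∀ i, ∃ g : E → ℝ, LocLp 2 U g ∧ ∀ K, IsCompact K → K ⊆ U → ∀ w : E → ℝ,
      MemLp w 2 (volume.restrict K) →
      Tendsto (fun m => ∫ x in K, w x * c i (D m x)) atTop (𝓝 (∫ x in K, w x * g x)) := by
    intro i
    refine exists_weak_limit_loc hU (f := fun m x => c i (D m x)) (fun m => (hD m).clm (c i))
      (fun K hK hKU => ?_) (fun φ hφ => ?_)
    · obtain ⟨C, hC⟩ := hb K hK hKU
      refine ⟨‖c i‖ * C, fun m => ?_⟩
      rw [ENNReal.ofReal_mul (norm_nonneg _)]
      refine le_trans (eLpNorm_le_mul_eLpNorm_of_ae_le_mul (g := D m) (c := ‖c i‖)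
        (Eventually.of_forall fun x => (c i).le_opNorm _) 2) ?_
      exact mul_le_mul_right (hC m) _
    · obtain ⟨l, hl⟩ := hc φ hφ
      refine ⟨c i l, ?_⟩
      refine (((c i).continuous.tendsto l).comp hl).congr fun m => ?_
      simp only [Function.comp]
      rw [← (c i).integral_comp_comm ((hD m).integrable_test hn hφ)]
      simp only [map_smul, smul_eq_mul]
  choose g hg1 hg2 using key
  refine ⟨fun x => ∑ i, g i x • b i, fun K hK hKU => ?_, fun K hK hKU w hw => ?_⟩
  · refine memLp_finsetSum _ fun i _ => ?_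
    exact ((hg1 i).clm (ContinuousLinearMap.toSpanSingleton ℝ (b i))) K hK hKU
  · have hwi : ∀ i, MemLp (fun x => w x (b i)) 2 (volume.restrict K) := fun i =>
      (ContinuousLinearMap.apply ℝ ℝ (b i)).comp_memLp' hw
    have e1 : ∀ m, ∫ x in K, w x (D m x) = ∑ i, ∫ x in K, w x (b i) * c i (D m x) := by
      intro m
      rw [← integral_finsetSum (f := fun i x => w x (b i) * c i (D m x)) _ fun i _ =>
        (hwi i).integrable_mul (q := 2) (((hD m).clm (c i)) K hK hKU)]
      refine integral_congr_ae (Eventually.of_forall fun x => ?_)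
      beta_reduce
      conv_lhs => rw [hsum (D m x)]
      simp only [map_sum, map_smul, smul_eq_mul, mul_comm]
    have e2 : ∫ x in K, w x (∑ i, g i x • b i) = ∑ i, ∫ x in K, w x (b i) * g i x := by
      rw [← integral_finsetSum (f := fun i x => w x (b i) * g i x) _ fun i _ =>
        (hwi i).integrable_mul (q := 2) (hg1 i K hK hKU)]
      refine integral_congr_ae (Eventually.of_forall fun x => ?_)
      simp only [map_sum, map_smul, smul_eq_mul, mul_comm]
    simp only [e1, e2]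
    exact tendsto_finsetSum _ fun i _ => hg2 i K hK hKU _ (hwi i)

omit [MeasurableSpace E] [BorelSpace E] in
/-- pointwise convergence of linear maps on a finite dimensional space is convergence -/
theorem tweak2_clm {A : ℕ → E →L[ℝ] V} (h : ∀ e, ∃ l, Tendsto (fun m => A m e) atTop (𝓝 l)) :
    ∃ l, Tendsto A atTop (𝓝 l) := by
  choose l hl using h
  refine ⟨∑ p, ContinuousLinearMap.smulRightL ℝ E V (innerSL ℝ (ob E p)) (l (ob E p)), ?_⟩
  have e : ∀ m, A m =
      ∑ p, ContinuousLinearMap.smulRightL ℝ E V (innerSL ℝ (ob E p)) (A m (ob E p)) := by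
    intro m
    ext e
    conv_lhs => rw [← (ob E).sum_repr' e]
    simp [map_sum, ContinuousLinearMap.sum_apply]
  have := tendsto_finsetSum (f := fun p m =>
      ContinuousLinearMap.smulRightL ℝ E V (innerSL ℝ (ob E p)) (A m (ob E p))) Finset.univ
    fun p _ => ((ContinuousLinearMap.smulRightL ℝ E V
      (innerSL ℝ (ob E p))).continuous.tendsto _).comp (hl (ob E p))
  exact this.congr fun m => (e m).symm

/-- a limit of functions with bounded gradients has a weak derivative, the weak limit of the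
gradients -/
theorem wd_weak [FiniteDimensional ℝ V] (hU : IsOpen U) {u : ℕ → E → V}
    {D : ℕ → E → E →L[ℝ] V} {v : E → V} (hw : ∀ m, WD 2 U (u m) (D m)) (hv : LocLp 2 U v)
    (hc : ∀ K, IsCompact K → K ⊆ U →
      Tendsto (fun m => ∫⁻ x in K, ‖u m x - v x‖ₑ) atTop (𝓝 0))
    (hb : ∀ K, IsCompact K → K ⊆ U → ∃ C : ℝ, ∀ m, N2 K (D m) ≤ ENNReal.ofReal C) :
    ∃ D' : E → E →L[ℝ] V, WD 2 U v D' ∧ ∀ K, IsCompact K → K ⊆ U →
      ∀ w : E → (E →L[ℝ] V) →L[ℝ] ℝ, MemLp w 2 (volume.restrict K) →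
        Tendsto (fun m => ∫ x in K, w x (D m x)) atTop (𝓝 (∫ x in K, w x (D' x))) := by
  have hn : 1 ≤ 2 := by norm_num
  haveI : CompleteSpace V := FiniteDimensional.complete ℝ V
  have h1 : ∀ φ, IsTest U φ → ∀ e : E, Tendsto (fun m => ∫ x, φ x • D m x e) atTop
      (𝓝 (-∫ x, fderiv ℝ φ x e • v x)) := by
    intro φ hφ e
    have a1 := tweak2_l1 (fun m => (hw m).1) hv hc (hφ.continuous_fderiv_apply e)
      (hφ.2.1.fderiv_apply ℝ e) ((tsupport_fderiv_apply_subset ℝ e).trans hφ.2.2)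
    refine a1.neg.congr fun m => ?_
    rw [(hw m).2.2 φ hφ e, neg_neg]
  obtain ⟨D', l2, hD'⟩ := tweak2_vec (W := E →L[ℝ] V) hU (fun m => (hw m).2.1) hb
    (fun φ hφ => tweak2_clm fun e => ⟨_, (h1 φ hφ e).congr fun m => by
      rw [ContinuousLinearMap.integral_apply ((hw m).2.1.integrable_test hn hφ)]
      rfl⟩)
  refine ⟨D', ⟨hv, l2, fun φ hφ e => ?_⟩, hD'⟩
  rw [← neg_eq_iff_eq_neg, SeparatingDual.eq_iff_forall_dual_eq (R := ℝ)]
  intro l
  let L : (E →L[ℝ] V) →L[ℝ] ℝ := l.comp (ContinuousLinearMap.apply ℝ V e)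
  have hwm : MemLp (fun x => φ x • L) 2 (volume.restrict (tsupport φ)) :=
    (LocLp.of_continuousOn (V := (E →L[ℝ] V) →L[ℝ] ℝ) (n := 2) (U := U) (u := fun x => φ x • L)
      (hφ.continuous.smul continuous_const).continuousOn) _ hφ.2.1 hφ.2.2
  have e1 : ∀ X : E → E →L[ℝ] V, LocLp 2 U X →
      ∫ x in tsupport φ, (φ x • L) (X x) = l (∫ x, φ x • X x e) := by
    intro X hX
    rw [setIntegral_eq_integral_of_forall_compl_eq_zero
      (fun x hx => by simp [image_eq_zero_of_notMem_tsupport hx]),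
      ← l.integral_comp_comm ((hX.apply e).integrable_test hn hφ)]
    refine integral_congr_ae (Eventually.of_forall fun x => ?_)
    simp [L]
  have a2 := hD' _ hφ.2.1 hφ.2.2 _ hwm
  rw [e1 D' l2] at a2
  simp only [fun m => e1 (D m) (hw m).2.1] at a2
  exact tendsto_nhds_unique ((l.continuous.tendsto _).comp (h1 φ hφ e)) a2

end Pool.Agent.PW
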