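import Pool.Agent.P.MP_65ad7c_ag.ELsc
import Pool.Agent.P.MP_65ad7c_ag.EMin0
import Pool.Agent.P.MP_65ad7c_ag.TWeak2

open MeasureTheory Set Filter Topology Metric Matrix
open scoped ComplexOrder ContDiff Matrix.Norms.Frobenius RealInnerProductSpace ENNReal
open Pool.Agent.Lib.Sob

noncomputable section
namespace Pool.Agent.PW

variable {E : Type} [NormedAddCommGroup E] [InnerProductSpace ℝ E] [FiniteDimensional ℝ E]
  [MeasurableSpace E] [BorelSpace E] {r : ℕ} {U : Set E} {Γ : Type} [Group Γ]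
  {V : Type} [NormedAddCommGroup V] [NormedSpace ℝ V]
  {A : Atlas E Γ} {χ : A.ι → E → ℝ} {ρ : Γ →* Mat r} {H h : A.ι → E → Mat r}
  {D : A.ι → E → E →L[ℝ] Mat r} {C : ℝ}

/-- bounded a.e. convergence gives local `L²` membership and local `L¹` convergence -/
theorem emin_loc {u : ℕ → E → V} {v : E → V} (hu : ∀ m, LocLp 2 U (u m))
    (hb : ∀ K, IsCompact K → K ⊆ U → ∃ B : ℝ, ∀ m, ∀ x ∈ K, ‖u m x‖ ≤ B)
    (hae : ∀ᵐ x, x ∈ U → Tendsto (fun m => u m x) atTop (𝓝 (v x))) :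
    LocLp 2 U v ∧ ∀ K, IsCompact K → K ⊆ U →
      Tendsto (fun m => ∫⁻ x in K, ‖u m x - v x‖ₑ) atTop (𝓝 0) := by
  have hK : ∀ K, IsCompact K → K ⊆ U →
      ∀ᵐ x ∂(volume.restrict K), Tendsto (fun m => u m x) atTop (𝓝 (v x)) := by
    intro K hK hKU
    filter_upwards [ae_restrict_mem hK.measurableSet, ae_restrict_of_ae hae] with x hx h'
      using h' (hKU hx)
  refine ⟨fun K hc hKU => ?_, fun K hc hKU => ?_⟩
  · have : IsFiniteMeasure (volume.restrict K) := ⟨by simpa using hc.measure_lt_top⟩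
    obtain ⟨B, hB⟩ := hb K hc hKU
    refine MemLp.of_bound (aestronglyMeasurable_of_tendsto_ae atTop
      (fun m => (hu m K hc hKU).1) (hK K hc hKU)) B ?_
    filter_upwards [ae_restrict_mem hc.measurableSet, hK K hc hKU] with x hx h'
    exact le_of_tendsto' h'.norm fun m => hB m x hx
  · have : IsFiniteMeasure (volume.restrict K) := ⟨by simpa using hc.measure_lt_top⟩
    obtain ⟨B, hB⟩ := hb K hc hKU
    have := tendsto_lintegral_norm_of_dominated_convergence (μ := volume.restrict K)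
      (F := u) (f := v) (bound := fun _ => B) (fun m => (hu m K hc hKU).1)
      (integrable_const B).2
      (fun m => (ae_restrict_mem hc.measurableSet).mono fun x hx => hB m x hx) (hK K hc hKU)
    simpa only [ofReal_norm] using this

/-- compactness of the obstacle class under an energy bound -/
theorem Atlas.adm_compact (hχ : A.Pou (ball 0 6) χ)
    (hp : ∀ a, ∀ x ∈ closedBall (0 : E) 1, 0 < χ a x) (hH : A.Ref ρ H) (hC : 1 ≤ C)
    {u : ℕ → A.ι → E → Mat r} {Du : ℕ → A.ι → E → E →L[ℝ] Mat r}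
    (hu : ∀ m, A.Adm ρ H C (u m) (Du m)) {M : ℝ} (hM : ∀ m, A.energy χ (u m) (Du m) ≤ M) :
    ∃ (φ : ℕ → ℕ) (h : A.ι → E → Mat r) (D : A.ι → E → E →L[ℝ] Mat r), StrictMono φ ∧
      A.Adm ρ H C h D ∧ ∀ ε : ℝ, 0 < ε →
        ∀ᶠ m in atTop, A.energy χ h D - ε ≤ A.energy χ (u (φ m)) (Du (φ m)) := by
  obtain ⟨φ, h, hφ, hmc, hob, hae⟩ := Atlas.adm_subseq hχ hp hH hC hu hM
  have hbd : ∀ a K, IsCompact K → K ⊆ ball (0 : E) 6 → ∃ B : ℝ, 1 ≤ B ∧
      ∀ m, (∀ x ∈ K, Bd B (u (φ m) a x)) ∧ N2 K (Du (φ m) a) ≤ ENNReal.ofReal B := by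
    intro a K hK hK6
    obtain ⟨B, hB, hB'⟩ := Atlas.adm_bounds hχ hp hH hC M a hK hK6
    exact ⟨B, hB, fun m => ⟨(hB' _ _ (hu (φ m))).1, (hB' _ _ (hu (φ m))).2 (hM _)⟩⟩
  have key : ∀ a, ∃ D' : E → E →L[ℝ] Mat r, WD 2 (ball 0 6) (h a) D' ∧
      ∀ K, IsCompact K → K ⊆ ball (0 : E) 6 → ∀ w : E → (E →L[ℝ] Mat r) →L[ℝ] ℝ,
        MemLp w 2 (volume.restrict K) →
        Tendsto (fun m => ∫ x in K, w x (Du (φ m) a x)) atTop (𝓝 (∫ x in K, w x (D' x))) := by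
    intro a
    obtain ⟨h1, h2⟩ := emin_loc (U := ball (0 : E) 6) (u := fun m => u (φ m) a) (v := h a)
      (fun m => ((hu (φ m)).wd a).1) (fun K hK hK6 => by
        obtain ⟨B, hB, hB'⟩ := hbd a K hK hK6
        exact ⟨r * B, fun m x hx => ((hB' m).1 x hx).norm_le (by linarith)⟩) (hae a)
    exact wd_weak isOpen_ball (fun m => (hu (φ m)).wd a) h1 h2 fun K hK hK6 => by
      obtain ⟨B, -, hB'⟩ := hbd a K hK hK6
      exact ⟨B, fun m => (hB' m).2⟩
  choose D hD hw using key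
  refine ⟨φ, h, D, hφ, ⟨hD, hob, hmc⟩, fun ε hε => ?_⟩
  have hN : (0 : ℝ) < Fintype.card A.ι := by
    have : Nonempty A.ι := ⟨A.a0⟩
    exact_mod_cast Fintype.card_pos
  have hl : ∀ a, ∀ᶠ m in atTop, (∫ x, χ a x * en (A.α a x) (h a x) (D a x)) -
      ε / Fintype.card A.ι ≤ ∫ x, χ a x * en (A.α a x) (u (φ m) a x) (Du (φ m) a x) := by
    intro a
    refine lsc_local isOpen_ball (hχ.1 a).1 (hχ.1 a).2 (A.coef a) (u := fun m => u (φ m) a)
      (D := fun m => Du (φ m) a) (fun m => (hu (φ m)).wd a) (hD a) (fun K hK hK6 => ?_) (hae a)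
      (hw a) (div_pos hε hN)
    obtain ⟨B, hB, hB'⟩ := hbd a K hK hK6
    obtain ⟨B', hB1, hB2⟩ := (hH.lbd a).of_obst hC (hob a) K hK hK6
    refine ⟨max B B', le_max_of_le_left hB, fun x hx => (hB2 x hx).mono (by linarith)
      (le_max_right _ _), fun m => ⟨fun x hx => ((hB' m).1 x hx).mono (by linarith)
        (le_max_left _ _), (hB' m).2.trans (ENNReal.ofReal_le_ofReal (le_max_left _ _))⟩⟩
  filter_upwards [eventually_all.2 hl] with m hm
  have := Finset.sum_le_sum fun a (_ : a ∈ Finset.univ) => hm a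
  rw [Finset.sum_sub_distrib, Finset.sum_const, Finset.card_univ, nsmul_eq_mul,
    mul_div_cancel₀ _ hN.ne'] at this
  exact this

theorem Atlas.exists_min (hχ : A.Pou (ball 0 6) χ)
    (hp : ∀ a, ∀ x ∈ closedBall (0 : E) 1, 0 < χ a x) (hH : A.Ref ρ H) (hC : 1 ≤ C) :
    ∃ h D, A.IsMin χ ρ H C h D := by
  let S : Set ℝ := {t | ∃ h D, A.Adm ρ H C h D ∧ A.energy χ h D = t}
  have hne : S.Nonempty := ⟨_, H, _, hH.adm hC, rfl⟩
  have hbd : BddBelow S := ⟨0, by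
    rintro t ⟨h, D, hh, rfl⟩
    exact hh.energy_nonneg hχ hH hC⟩
  obtain ⟨t, hanti, hlim, hmem⟩ := exists_seq_tendsto_sInf hne hbd
  choose u Du hu hE using hmem
  obtain ⟨φ, h, D, hφ, hadm, hle⟩ := Atlas.adm_compact hχ hp hH hC hu (M := t 0)
    (fun m => (hE m).le.trans (hanti (Nat.zero_le m)))
  refine ⟨h, D, hadm, fun h' D' hh' => ?_⟩
  have h1 : sInf S ≤ A.energy χ h' D' := csInf_le hbd ⟨h', D', hh', rfl⟩
  refine le_trans (le_of_forall_pos_le_add fun ε hε => ?_) h1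
  have h2 : A.energy χ h D - ε ≤ sInf S := by
    refine ge_of_tendsto (hlim.comp hφ.tendsto_atTop) ?_
    filter_upwards [hle ε hε] with m hm
    exact hm.trans (hE (φ m)).le
  linarith

end Pool.Agent.PW
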