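import Pool.Agent.P.MP_65ad7c_ag.EEn

open MeasureTheory Set Filter Topology Metric Matrix
open scoped ComplexOrder ContDiff Matrix.Norms.Frobenius RealInnerProductSpace ENNReal
open Pool.Agent.Lib.Sob

noncomputable section
namespace Pool.Agent.PW

variable {E : Type} [NormedAddCommGroup E] [InnerProductSpace ℝ E] [FiniteDimensional ℝ E]
  [MeasurableSpace E] [BorelSpace E] {r : ℕ} {U : Set E} {Γ : Type} [Group Γ]
  {V : Type} [NormedAddCommGroup V] [NormedSpace ℝ V]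
  {A : Atlas E Γ} {χ : A.ι → E → ℝ} {ρ : Γ →* Mat r} {H h : A.ι → E → Mat r}
  {D : A.ι → E → E →L[ℝ] Mat r} {C : ℝ}

/-- `X ↦ τᴴ X τ` as a continuous linear map -/
def emod_gmL (τ : Mat r) : Mat r →L[ℝ] Mat r :=
  ((ContinuousLinearMap.mul ℝ (Mat r)).flip τ).comp (ContinuousLinearMap.mul ℝ (Mat r) τᴴ)

theorem emod_gmL_apply (τ X : Mat r) : emod_gmL τ X = gm X τ := rfl

/-- gluing of weak derivatives on two open sets -/
theorem emod_glue [CompleteSpace V] {O₁ O₂ : Set E} (h₁ : IsOpen O₁) (h₂ : IsOpen O₂) {u : E → V}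
    {D₁ D₂ : E → E →L[ℝ] V} (a : WD 2 O₁ u D₁) (b : WD 2 O₂ u D₂) :
    ∃ D', WD 2 (O₁ ∪ O₂) u D' := by
  classical
  refine ⟨fun x => if x ∈ O₁ then D₁ x else D₂ x, WD.union (by norm_num) h₁ h₂ ?_ ?_⟩
  · exact a.congr' (fun _ _ => rfl) fun x hx => by simp [hx]
  · refine b.congr (Eventually.of_forall fun _ _ => rfl) ?_
    filter_upwards [WD.unique (by norm_num) (h₁.inter h₂) (a.mono inter_subset_left)
      (b.mono inter_subset_right)] with x hx hx2
    by_cases hx1 : x ∈ O₁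
    · simp [hx1, hx ⟨hx1, hx2⟩]
    · simp [hx1]

omit [MeasurableSpace E] [BorelSpace E] in
theorem emod_back {g : A.ι → E → Mat r} (hm : A.MC (ball 0 6) ρ g) {a b : A.ι} {x : E}
    (hx : x ∈ A.O a b) : gm (g b (A.T a b x)) (ρ (A.c a b x)⁻¹) = g a x := by
  have hx' : x ∈ A.ov (ball 0 6) a b :=
    ⟨hx, A.O_sub a b hx, A.O_sub b a (A.T_mem a b x hx)⟩
  rw [hm a b x hx', gm_gm, rep_mul_inv, gm_one]

open Classical in
/-- the modified metric -/
def emod_h (A : Atlas E Γ) (ρ : Γ →* Mat r) (h : A.ι → E → Mat r) (b : A.ι) (u : E → Mat r)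
    (a : A.ι) (x : E) : Mat r :=
  if x ∈ A.O a b then gm (u (A.T a b x)) (ρ (A.c a b x)⁻¹) else h a x

omit [MeasurableSpace E] [BorelSpace E] in
theorem emod_h_in {b : A.ι} {u : E → Mat r} {a : A.ι} {x : E} (hx : x ∈ A.O a b) :
    emod_h A ρ h b u a x = gm (u (A.T a b x)) (ρ (A.c a b x)⁻¹) := by
  simp [emod_h, hx]

omit [MeasurableSpace E] [BorelSpace E] in
theorem emod_h_out {b : A.ι} {u : E → Mat r} {a : A.ι} {x : E} (hx : x ∉ A.O a b) :
    emod_h A ρ h b u a x = h a x := by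
  simp [emod_h, hx]

omit [MeasurableSpace E] [BorelSpace E] in
theorem emod_h_off (hm : A.MC (ball 0 6) ρ h) {b : A.ι} {K : Set E} {u : E → Mat r}
    (he : ∀ x ∈ ball (0 : E) 6, x ∉ K → u x = h b x) {a : A.ι} {x : E}
    (hx : ¬(x ∈ A.O a b ∧ A.T a b x ∈ K)) : emod_h A ρ h b u a x = h a x := by
  by_cases hO : x ∈ A.O a b
  · rw [emod_h_in hO, he _ (A.O_sub b a (A.T_mem a b x hO)) fun hk => hx ⟨hO, hk⟩,
      emod_back hm hO]
  · exact emod_h_out hO

omit [MeasurableSpace E] [BorelSpace E] in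
theorem emod_h_self {b : A.ι} {u : E → Mat r} {x : E} (hx : x ∈ ball (0 : E) 6) :
    emod_h A ρ h b u b x = u x := by
  rw [emod_h_in (by rw [A.O_self]; exact hx), A.T_self b x hx, A.c_self b x hx, inv_one, map_one,
    gm_one]

omit [MeasurableSpace E] [BorelSpace E] in
theorem emod_h_mc (hm : A.MC (ball 0 6) ρ h) (b : A.ι) (u : E → Mat r) :
    A.MC (ball 0 6) ρ (emod_h A ρ h b u) := by
  intro a d x hx
  by_cases hO : x ∈ A.O a b
  · have hy : A.T a d x ∈ A.O d a := A.T_mem a d x hx.1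
    have hi : A.T d a (A.T a d x) = x := A.T_inv a d x hx.1
    obtain ⟨h1, -, -⟩ := A.cocycle d a b _ hy (by rw [hi]; exact hO)
    obtain ⟨-, h2, h3⟩ := A.cocycle a d b x hx.1 h1
    rw [emod_h_in h1, emod_h_in hO, gm_gm, ← h2, ← map_mul, h3]
    congr 2
    group
  · have h1 : A.T a d x ∉ A.O d b := fun h1 => hO (A.cocycle a d b x hx.1 h1).1
    rw [emod_h_out h1, emod_h_out hO]
    exact hm a d x hx

theorem emod_h_wd (hm : A.MC (ball 0 6) ρ h) (hw : ∀ a, WD 2 (ball 0 6) (h a) (D a)) {b : A.ι}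
    {K : Set E} (hK : IsCompact K) (hK6 : K ⊆ ball 0 6) {u : E → Mat r}
    {Du : E → E →L[ℝ] Mat r} (hu : WD 2 (ball 0 6) u Du)
    (he : ∀ x ∈ ball (0 : E) 6, x ∉ K → u x = h b x) (a : A.ι) :
    ∃ D', WD 2 (ball 0 6) (emod_h A ρ h b u a) D' := by
  have hd := A.toPre.diffeo (U := ball 0 6) isOpen_ball a b
  rw [A.toPre.ov_six, A.toPre.ov_six] at hd
  have w1 := hd.wd_comp (n := 2) (by norm_num) (hu.mono (A.O_sub b a))
  have w2 : WD 2 (A.O a b) (emod_h A ρ h b u a) fun x => (emod_gmL (ρ (A.c a b x)⁻¹)).comp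
      ((Du (A.T a b x)).comp (fderiv ℝ (A.T a b) x)) := by
    refine WD.of_local (by norm_num) fun x hx => ?_
    obtain ⟨N, hN, hNo, hxN⟩ := _root_.eventually_nhds_iff.1 (A.c_loc a b x hx)
    refine ⟨N ∩ A.O a b, hNo.inter (A.O_open a b), ⟨hxN, hx⟩, ?_⟩
    refine ((w1.mono inter_subset_right).clm (by norm_num)
      (emod_gmL (ρ (A.c a b x)⁻¹))).congr' (fun y hy => ?_) fun y hy => ?_
    · rw [emod_h_in hy.2, hN y hy.1, emod_gmL_apply]
    · rw [hN y hy.1]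
  have ho := A.toPre.isOpen_off b a hK hK6
  have w3 : WD 2 {x | x ∈ ball (0 : E) 6 ∧ ¬(x ∈ A.O a b ∧ A.T a b x ∈ K)}
      (emod_h A ρ h b u a) (D a) :=
    ((hw a).mono fun x hx => hx.1).congr' (fun x hx => (emod_h_off hm he hx.2).symm) fun _ _ => rfl
  obtain ⟨D', hD'⟩ := emod_glue (A.O_open a b) ho w2 w3
  refine ⟨D', hD'.mono fun x hx => ?_⟩
  by_cases hO : x ∈ A.O a b
  · exact Or.inl hO
  · exact Or.inr ⟨hx, fun h' => hO h'.1⟩

/-- a modification inside one chart -/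
theorem Atlas.adm_modify (hχ : A.Pou (ball 0 6) χ) (hH : A.Ref ρ H) (hC : 1 ≤ C)
    (hh : A.Adm ρ H C h D) (b : A.ι) {K : Set E} (hK : IsCompact K) (hK6 : K ⊆ ball 0 6)
    {u : E → Mat r} {Du : E → E →L[ℝ] Mat r} (hu : WD 2 (ball 0 6) u Du)
    (ho : ∀ x ∈ ball (0 : E) 6, Obst C (H b x) (u x))
    (he : ∀ x ∈ ball (0 : E) 6, x ∉ K → u x = h b x) :
    ∃ h' D', A.Adm ρ H C h' D' ∧ A.energy χ h' D' - A.energy χ h D =
      ∫ x in ball (0 : E) 6, (en (A.α b x) (u x) (Du x) - en (A.α b x) (h b x) (D b x)) := by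
  choose D' hD' using emod_h_wd hh.mc hh.wd hK hK6 hu he
  have hA : A.Adm ρ H C (emod_h A ρ h b u) D' := by
    refine ⟨hD', fun a x hx => ?_, emod_h_mc hh.mc b u⟩
    by_cases hO : x ∈ A.O a b
    · rw [emod_h_in hO, ← emod_back hH.mc hO]
      exact (ho _ (A.O_sub b a (A.T_mem a b x hO))).gm _
    · rw [emod_h_out hO]
      exact hh.ob a x hx
  refine ⟨_, D', hA, ?_⟩
  have l1 := fun a => (en_loc isOpen_ball (A.coef a) (hD' a) (hA.lbd hH hC a)).1
  have l2 := fun a => (en_loc isOpen_ball (A.coef a) (hh.wd a) (hh.lbd hH hC a)).1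
  have off : ∀ a, ∀ᵐ x, x ∈ ball (0 : E) 6 → ¬(x ∈ A.O a b ∧ A.T a b x ∈ K) →
      en (A.α a x) (emod_h A ρ h b u a x) (D' a x) - en (A.α a x) (h a x) (D a x) = 0 := by
    intro a
    have ho := A.toPre.isOpen_off b a hK hK6
    have w3 : WD 2 {x | x ∈ ball (0 : E) 6 ∧ ¬(x ∈ A.O a b ∧ A.T a b x ∈ K)}
        (emod_h A ρ h b u a) (D a) :=
      ((hh.wd a).mono fun x hx => hx.1).congr' (fun x hx => (emod_h_off hh.mc he hx.2).symm)
        fun _ _ => rfl
    filter_upwards [WD.unique (by norm_num) ho ((hD' a).mono fun x hx => hx.1) w3] with x hx h1 h2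
    rw [hx ⟨h1, h2⟩, emod_h_off hh.mc he h2, sub_self]
  have key := A.toPre.int_dens (U := ball 0 6) isOpen_ball Subset.rfl hχ
    (F := fun a x => en (A.α a x) (emod_h A ρ h b u a x) (D' a x) - en (A.α a x) (h a x) (D a x))
    b hK hK6 ((l1 b).sub (l2 b)) (fun a => ?_) ?_ (fun a => ?_)
  · have e1 : A.energy χ (emod_h A ρ h b u) D' - A.energy χ h D = ∑ a, ∫ x, χ a x •
        (en (A.α a x) (emod_h A ρ h b u a x) (D' a x) - en (A.α a x) (h a x) (D a x)) := by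
      unfold Atlas.energy
      rw [← Finset.sum_sub_distrib]
      refine Finset.sum_congr rfl fun a _ => ?_
      have i1 := (l1 a).integrable_test le_rfl (hχ.1 a).1
      have i2 := (l2 a).integrable_test le_rfl (hχ.1 a).1
      simp only [smul_eq_mul] at i1 i2 ⊢
      rw [← integral_sub i1 i2]
      simp only [mul_sub]
    rw [e1, key]
    have w : WD 2 (ball 0 6) u (D' b) := (hD' b).congr' (fun x hx => emod_h_self hx) fun _ _ => rfl
    refine setIntegral_congr_ae measurableSet_ball ?_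
    filter_upwards [WD.unique (by norm_num) isOpen_ball w hu] with x hx h1
    rw [hx h1, emod_h_self h1]
  · filter_upwards [A.en_inv isOpen_ball hD' hA.mc (fun a => (hA.lbd hH hC a).posDef) a b,
      A.en_inv isOpen_ball hh.wd hh.mc (fun a => (hh.lbd hH hC a).posDef) a b] with x h1 h2 hx
    rw [h1 hx, h2 hx, smul_eq_mul, mul_sub]
  · filter_upwards [off b] with x hx h1 h2
    exact hx h1 fun h' => h2 (by rw [← A.T_self b x h1]; exact h'.2)
  · filter_upwards [off a] with x hx h1 h2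
    exact hx h1 fun h' => h2 ⟨h'.1, h1, A.O_sub b a (A.T_mem a b x h'.1)⟩

end Pool.Agent.PW
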