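import Pool.Agent.P.MP_65ad7c_ag.TTest
import Pool.Agent.P.MP_65ad7c_ag.TMul

open MeasureTheory Set Filter Topology Metric Matrix
open scoped ComplexOrder ContDiff Matrix.Norms.Frobenius RealInnerProductSpace ENNReal
open Pool.Agent.Lib.Sob

noncomputable section
namespace Pool.Agent.PW

variable {E : Type} [NormedAddCommGroup E] [InnerProductSpace ℝ E] [FiniteDimensional ℝ E]
  [MeasurableSpace E] [BorelSpace E] {r : ℕ} {U : Set E} {Γ : Type} [Group Γ]
  {V : Type} [NormedAddCommGroup V] [NormedSpace ℝ V]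

omit [FiniteDimensional ℝ E] [MeasurableSpace E] [BorelSpace E] in
theorem eref_inv_hasFDerivAt {H : E → Mat r} {x : E} {D : E →L[ℝ] Mat r}
    (hH : HasFDerivAt H D x) (hu : IsUnit (H x)) :
    HasFDerivAt (fun y => (H y)⁻¹)
      ((-ContinuousLinearMap.mulLeftRight ℝ (Mat r) (H x)⁻¹ (H x)⁻¹).comp D) x := by
  obtain ⟨w, hw⟩ := hu
  have h1 := hasFDerivAt_ringInverse (𝕜 := ℝ) w
  rw [Matrix.coe_units_inv, hw] at h1
  simp only [nonsing_inv_eq_ringInverse] at h1 ⊢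
  exact h1.comp x hH

omit [FiniteDimensional ℝ E] [MeasurableSpace E] [BorelSpace E] in
theorem eref_inv_contDiffOn {H : E → Mat r} (hH : ContDiffOn ℝ ∞ H U)
    (hu : ∀ x ∈ U, IsUnit (H x)) : ContDiffOn ℝ ∞ (fun y => (H y)⁻¹) U := by
  intro x hx
  obtain ⟨w, hw⟩ := hu x hx
  have h1 := contDiffAt_ringInverse ℝ (n := ∞) w
  rw [hw] at h1
  simp only [nonsing_inv_eq_ringInverse]
  exact h1.comp_contDiffWithinAt x (hH x hx)

omit [FiniteDimensional ℝ E] [MeasurableSpace E] [BorelSpace E] in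
theorem eref_bound {H : E → Mat r} {a : E → ℝ} {x v w : E} {M B N : ℝ}
    (ha : DifferentiableAt ℝ a x) (hH : DifferentiableAt ℝ H x)
    (hH2 : DifferentiableAt ℝ (fderiv ℝ H) x) (hu : IsUnit (H x)) (hv : ‖v‖ = 1) (hw : ‖w‖ = 1)
    (h1 : |a x| ≤ M) (h2 : ‖fderiv ℝ a x‖ ≤ M) (h3 : ‖(H x)⁻¹‖ ≤ N) (h4 : ‖fderiv ℝ H x‖ ≤ B)
    (h5 : ‖fderiv ℝ (fderiv ℝ H) x‖ ≤ B) :
    ‖fderiv ℝ (fun y => a y • ((H y)⁻¹ * fderiv ℝ H y v)) x w‖ ≤
      M * (N * B + N * B * N * B) + M * (N * B) := by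
  have d1 := eref_inv_hasFDerivAt hH.hasFDerivAt hu
  have d2 : HasFDerivAt (fun y => fderiv ℝ H y v)
      ((ContinuousLinearMap.apply ℝ (Mat r) v).comp (fderiv ℝ (fderiv ℝ H) x)) x :=
    (ContinuousLinearMap.apply ℝ (Mat r) v).hasFDerivAt.comp x hH2.hasFDerivAt
  have d3 := ha.hasFDerivAt.smul (d1.mul' d2)
  have e : fderiv ℝ (fun y => a y • ((H y)⁻¹ * fderiv ℝ H y v)) x w =
      a x • ((H x)⁻¹ * fderiv ℝ (fderiv ℝ H) x w v +
        -((H x)⁻¹ * fderiv ℝ H x w * (H x)⁻¹) * fderiv ℝ H x v) +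
        fderiv ℝ a x w • ((H x)⁻¹ * fderiv ℝ H x v) := by
    have := d3.fderiv
    rw [show (fun y => a y • ((H y)⁻¹ * fderiv ℝ H y v)) =
      a • ((fun y => (H y)⁻¹) * fun y => fderiv ℝ H y v) from rfl, this]
    rfl
  have hM : 0 ≤ M := (abs_nonneg _).trans h1
  have hN : 0 ≤ N := (norm_nonneg _).trans h3
  have hB : 0 ≤ B := (norm_nonneg _).trans h4
  have b1 : ‖fderiv ℝ H x v‖ ≤ B := by
    simpa [hv] using (fderiv ℝ H x).le_of_opNorm_le h4 v
  have b2 : ‖fderiv ℝ H x w‖ ≤ B := by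
    simpa [hw] using (fderiv ℝ H x).le_of_opNorm_le h4 w
  have b3 : ‖fderiv ℝ (fderiv ℝ H) x w‖ ≤ B := by
    simpa [hw] using (fderiv ℝ (fderiv ℝ H) x).le_of_opNorm_le h5 w
  have b4 : ‖fderiv ℝ (fderiv ℝ H) x w v‖ ≤ B := by
    simpa [hv] using (fderiv ℝ (fderiv ℝ H) x w).le_of_opNorm_le b3 v
  have b5 : ‖fderiv ℝ a x w‖ ≤ M := by
    simpa [hw] using (fderiv ℝ a x).le_of_opNorm_le h2 w
  have b6 : ‖(H x)⁻¹ * fderiv ℝ H x v‖ ≤ N * B :=
    (norm_mul_le _ _).trans (mul_le_mul h3 b1 (norm_nonneg _) hN)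
  have b7 : ‖(H x)⁻¹ * fderiv ℝ (fderiv ℝ H) x w v‖ ≤ N * B :=
    (norm_mul_le _ _).trans (mul_le_mul h3 b4 (norm_nonneg _) hN)
  have b8 : ‖(H x)⁻¹ * fderiv ℝ H x w‖ ≤ N * B :=
    (norm_mul_le _ _).trans (mul_le_mul h3 b2 (norm_nonneg _) hN)
  have b9 : ‖(H x)⁻¹ * fderiv ℝ H x w * (H x)⁻¹‖ ≤ N * B * N :=
    (norm_mul_le _ _).trans (mul_le_mul b8 h3 (norm_nonneg _) (by positivity))
  have b10 : ‖-((H x)⁻¹ * fderiv ℝ H x w * (H x)⁻¹) * fderiv ℝ H x v‖ ≤ N * B * N * B :=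
    (norm_mul_le _ _).trans (mul_le_mul (by rwa [norm_neg]) b1 (norm_nonneg _) (by positivity))
  rw [e]
  refine (norm_add_le _ _).trans (add_le_add ?_ ?_)
  · rw [norm_smul]
    exact mul_le_mul h1 ((norm_add_le _ _).trans (add_le_add b7 b10)) (norm_nonneg _) hM
  · rw [norm_smul]
    exact mul_le_mul b5 b6 (norm_nonneg _) hM

/-- a smooth metric is almost harmonic -/
theorem ref_test {α : E → E →L[ℝ] E} (hα : Coef (ball 0 6) α) {B : ℝ} (hB : 1 ≤ B) :
    ∃ C₁ : ℝ, 0 ≤ C₁ ∧ ∀ H : E → Mat r, ContDiffOn ℝ ∞ H (ball 0 6) →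
      (∀ x ∈ ball (0 : E) 6, (H x).PosDef) →
      (∀ x ∈ closedBall (0 : E) (9 / 2), Bd B (H x) ∧ ‖fderiv ℝ H x‖ ≤ B ∧
        ‖fderiv ℝ (fderiv ℝ H) x‖ ≤ B) →
      ∀ (ζ : E → Mat r) (Dζ : E → E →L[ℝ] Mat r), WD 2 (ball 0 6) ζ Dζ →
        (∀ x ∈ ball (0 : E) 6, x ∉ closedBall (0 : E) 2 → ζ x = 0) →
        ∫ x in ball (0 : E) 6, pair (α x) (mc (H x) (fderiv ℝ H x)) (Dζ x) ≤
          C₁ * ∫ x in ball (0 : E) 6, ‖ζ x‖ := by
  have hU : IsOpen (ball (0 : E) 6) := isOpen_ball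
  have hK : IsCompact (closedBall (0 : E) 2) := isCompact_closedBall _ _
  have hKU : closedBall (0 : E) 2 ⊆ ball 0 6 := closedBall_subset_ball (by norm_num)
  set a : Fin (Module.finrank ℝ E) → Fin (Module.finrank ℝ E) → E → ℝ :=
    fun p q x => ⟪ob E q, α x (ob E p)⟫ with ha
  have hac : ∀ p q, ContDiffOn ℝ ∞ (a p q) (ball 0 6) := fun p q =>
    contDiffOn_const.inner ℝ (hα.1.clm_apply contDiffOn_const)
  have hM : ∀ p q, ∃ M : ℝ, ∀ x ∈ closedBall (0 : E) 2,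
      |a p q x| ≤ M ∧ ‖fderiv ℝ (a p q) x‖ ≤ M := fun p q => by
    obtain ⟨M₁, h1⟩ := hK.exists_bound_of_continuousOn ((hac p q).continuousOn.mono hKU)
    obtain ⟨M₂, h2⟩ := hK.exists_bound_of_continuousOn
      (((hac p q).continuousOn_fderiv_of_isOpen hU (by simp)).mono hKU)
    exact ⟨max M₁ M₂, fun x hx => ⟨(h1 x hx).trans (le_max_left _ _),
      (h2 x hx).trans (le_max_right _ _)⟩⟩
  choose M hM using hM
  have hM0 : ∀ p q, 0 ≤ M p q := fun p q =>
    (abs_nonneg _).trans (hM p q 0 (mem_closedBall_self (by norm_num))).1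
  have hB0 : 0 < B := by linarith
  set N : ℝ := r * B with hN
  have hN0 : 0 ≤ N := by positivity
  set C₁ : ℝ := ∑ p, ∑ q, (M p q * (N * B + N * B * N * B) + M p q * (N * B)) with hC₁
  have hC0 : 0 ≤ C₁ := Finset.sum_nonneg fun p _ => Finset.sum_nonneg fun q _ => by
    have := hM0 p q
    positivity
  refine ⟨C₁, hC0, fun H hH hpos hbd ζ Dζ hζ h0 => ?_⟩
  have hD : ContDiffOn ℝ ∞ (fderiv ℝ H) (ball 0 6) := hH.fderiv_of_isOpen hU (by simp)
  have hI : ContDiffOn ℝ ∞ (fun y => (H y)⁻¹) (ball 0 6) :=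
    eref_inv_contDiffOn hH fun x hx => (hpos x hx).isUnit
  set W : Fin (Module.finrank ℝ E) → Fin (Module.finrank ℝ E) → E → Mat r :=
    fun p q y => a p q y • ((H y)⁻¹ * fderiv ℝ H y (ob E p)) with hW
  have hWc : ∀ p q, ContDiffOn ℝ ∞ (W p q) (ball 0 6) := fun p q =>
    (hac p q).smul (hI.mul (hD.clm_apply contDiffOn_const))
  have hWd : ∀ p q, WD 2 (ball 0 6) (W p q) (fderiv ℝ (W p q)) := fun p q =>
    WD.of_contDiffOn (by norm_num) hU ((hWc p q).of_le (by simp))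
  set Z : E → Mat r := fun x => -∑ p, ∑ q, fderiv ℝ (W p q) x (ob E q) with hZ
  have hZc : ContinuousOn Z (ball 0 6) :=
    (continuousOn_finsetSum _ fun p _ => continuousOn_finsetSum _ fun q _ =>
      ((hWc p q).continuousOn_fderiv_of_isOpen hU (by simp)).clm_apply continuousOn_const).neg
  have hYc : ContinuousOn (fun x => mc (H x) (fderiv ℝ H x)) (ball 0 6) :=
    ((ContinuousLinearMap.mul ℝ (Mat r)).continuous.comp_continuousOn hI.continuousOn).clm_comp
      hD.continuousOn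
  have hZb : ∀ x ∈ closedBall (0 : E) 2, ‖Z x‖ ≤ C₁ := fun x hx => by
    have hx' : x ∈ closedBall (0 : E) (9 / 2) := closedBall_subset_closedBall (by norm_num) hx
    have hn := hU.mem_nhds (hKU hx)
    rw [hZ, norm_neg]
    refine (norm_sum_le _ _).trans (Finset.sum_le_sum fun p _ =>
      (norm_sum_le _ _).trans (Finset.sum_le_sum fun q _ => ?_))
    exact eref_bound (((hac p q).contDiffAt hn).differentiableAt (by simp))
      ((hH.contDiffAt hn).differentiableAt (by simp))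
      ((hD.contDiffAt hn).differentiableAt (by simp)) (hpos x (hKU hx)).isUnit
      ((ob E).orthonormal.1 p) ((ob E).orthonormal.1 q) (hM p q x hx).1 (hM p q x hx).2
      ((hbd x hx').1.norm_inv_le hB0) (hbd x hx').2.1 (hbd x hx').2.2
  have key := div_test hU hα.1.continuousOn (LocLp.of_continuousOn hYc) (LocLp.of_continuousOn hZc)
    (fun φ hφ => by
      have e1 : ∀ x, ∑ p, fderiv ℝ φ x (α x (ob E p)) • mc (H x) (fderiv ℝ H x) (ob E p) =
          ∑ p, ∑ q, fderiv ℝ φ x (ob E q) • W p q x := fun x => by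
        refine Finset.sum_congr rfl fun p _ => ?_
        conv_lhs => rw [← (ob E).sum_repr' (α x (ob E p))]
        rw [map_sum, Finset.sum_smul]
        refine Finset.sum_congr rfl fun q _ => ?_
        rw [map_smul, smul_eq_mul, mul_comm, mul_smul]
        rfl
      have e2 : ∀ x, φ x • Z x = -∑ p, ∑ q, φ x • fderiv ℝ (W p q) x (ob E q) := fun x => by
        simp only [hZ, smul_neg, Finset.smul_sum]
      simp only [e1, e2]
      have i1 : ∀ p q, Integrable fun x => fderiv ℝ φ x (ob E q) • W p q x := fun p q =>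
        (hWd p q).1.integrable_dtest (by norm_num) hφ _
      have i2 : ∀ p q, Integrable fun x => φ x • fderiv ℝ (W p q) x (ob E q) := fun p q =>
        ((hWd p q).2.1.apply _).integrable_test (by norm_num) hφ
      rw [integral_neg, integral_finsetSum _ fun p _ => integrable_finsetSum _ fun q _ => i1 p q,
        integral_finsetSum _ fun p _ => integrable_finsetSum _ fun q _ => i2 p q,
        ← Finset.sum_neg_distrib]
      refine Finset.sum_congr rfl fun p _ => ?_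
      rw [integral_finsetSum _ fun q _ => i1 p q, integral_finsetSum _ fun q _ => i2 p q,
        ← Finset.sum_neg_distrib]
      exact Finset.sum_congr rfl fun q _ => (hWd p q).2.2 φ hφ _)
    hζ ⟨_, hK, hKU, h0⟩
  rw [key, ← integral_const_mul]
  have hint : IntegrableOn ζ (ball 0 6) :=
    (integrableOn_of_cs hU (locLp_one_of_two hζ.1) hK hKU (Eventually.of_forall h0)).1
  refine (le_abs_self _).trans ?_
  rw [← Real.norm_eq_abs]
  refine norm_integral_le_of_norm_le (hint.norm.const_mul C₁) ?_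
  filter_upwards [ae_restrict_mem hU.measurableSet] with x hx
  by_cases hx2 : x ∈ closedBall (0 : E) 2
  · exact (Complex.abs_re_le_norm _).trans ((abs_trace_mul_le _ _).trans
      (mul_le_mul_of_nonneg_right (hZb x hx2) (norm_nonneg _)))
  · simp [h0 x hx hx2]

end Pool.Agent.PW
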