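import Pool.Agent.P.MP_65ad7c_ag.EVar
import Pool.Agent.P.MP_65ad7c_ag.AVar

open MeasureTheory Set Filter Topology Metric Matrix
open scoped ComplexOrder ContDiff Matrix.Norms.Frobenius RealInnerProductSpace ENNReal
open Pool.Agent.Lib.Sob

noncomputable section
namespace Pool.Agent.PW

variable {E : Type} [NormedAddCommGroup E] [InnerProductSpace ℝ E] [FiniteDimensional ℝ E]
  [MeasurableSpace E] [BorelSpace E] {r : ℕ} {U : Set E} {Γ : Type} [Group Γ]
  {V : Type} [NormedAddCommGroup V] [NormedSpace ℝ V]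
  {A : Atlas E Γ} {χ : A.ι → E → ℝ} {ρ : Γ →* Mat r} {H h : A.ι → E → Mat r}
  {D : A.ι → E → E →L[ℝ] Mat r} {C : ℝ}

theorem eres_gm_smul (t : ℝ) (P u : Mat r) : gm (t • P) u = t • gm P u := by
  simp only [gm, Matrix.mul_smul, Matrix.smul_mul]

theorem eres_posDef_smul {t : ℝ} (ht : 0 < t) {P : Mat r} (hP : P.PosDef) : (t • P).PosDef :=
  hP.smul ht

omit [MeasurableSpace E] [BorelSpace E] in
theorem eres_pair (α : E →L[ℝ] E) (Y : E →L[ℝ] Mat r) (p : E →L[ℝ] ℝ) (X : Mat r) :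
    pair α Y (p.smulRight X) = ((∑ i, p (α (ob E i)) • Y (ob E i)) * X).trace.re := by
  simp only [pair, ContinuousLinearMap.smulRight_apply, Finset.sum_mul, trace_sum, Complex.re_sum,
    Matrix.mul_smul, Matrix.smul_mul]

theorem eres_eq_zero {M : Mat r} (h : 0 ≤ (M * -Mᴴ).trace.re) : M = 0 := by
  have b : Bd 1 (1 : Mat r) := Obst.refl PosSemidef.one le_rfl
  have h1 := le_nf one_pos b b M
  simp only [nf, inv_one, Matrix.mul_one, one_pow, one_mul] at h1
  rw [Matrix.mul_neg, trace_neg, Complex.neg_re] at h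
  have h2 : ‖M‖ ^ 2 = 0 := le_antisymm (by linarith) (sq_nonneg _)
  exact norm_eq_zero.1 (pow_eq_zero_iff two_ne_zero |>.1 h2)

/-- rescaling a minimiser into the interior of the obstacle class -/
theorem Atlas.min_rescale (hH : A.Ref ρ H) (hC : 1 ≤ C) (hχ : A.Pou (ball 0 6) χ)
    (hh : A.IsMin χ ρ H C h D) {t C' : ℝ} (ht : 0 < t) (h1 : 1 ≤ C') (h2 : C' ≤ C)
    (hs : ∀ a, ∀ᵐ x, x ∈ ball (0 : E) 1 → sg (h a x) (t • H a x) ≤ C') :
    ∃ h' D', A.IsMin χ ρ H C h' D' ∧ ∀ a, ∀ x ∈ ball (0 : E) 6, Obst C' (H a x) (h' a x) := by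
  classical
  have hC0 : 0 < C := lt_of_lt_of_le one_pos hC
  have hC0' : 0 < C' := lt_of_lt_of_le one_pos h1
  have ht' : 0 < t⁻¹ := inv_pos.2 ht
  have hp : ∀ a, ∀ x ∈ ball (0 : E) 6, (h a x).PosDef := fun a x hx =>
    (hh.1.ob a x hx).posDef (hH.pos a x hx) hC0
  have hinv : ∀ a b, ∀ x ∈ A.ov (ball 0 6) a b,
      sg (h b (A.T a b x)) (t • H b (A.T a b x)) = sg (h a x) (t • H a x) := by
    intro a b x hx
    rw [hh.1.mc a b x hx, hH.mc a b x hx, ← eres_gm_smul]
    exact sg_gm (hp a x hx.2.1) (eres_posDef_smul ht (hH.pos a x hx.2.1)) (rep_mul_inv ρ _)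
  have hae : ∀ a, ∀ᵐ x, x ∈ ball (0 : E) 6 → sg (h a x) (t • H a x) ≤ C' := by
    intro a
    filter_upwards [A.ae_cover (p := fun b y => sg (h b y) (t • H b y) ≤ C') hs a] with x hx hx6
    obtain ⟨b, hb, hb1, hb2⟩ := hx hx6
    rw [← hinv a b x ⟨hb, hx6, ball_subset_ball (by norm_num) hb1⟩]
    exact hb2
  set h' : A.ι → E → Mat r :=
    fun a x => if sg (h a x) (t • H a x) ≤ C' then t⁻¹ • h a x else H a x with hh'
  have hae' : ∀ a, ∀ᵐ x, x ∈ ball (0 : E) 6 → t⁻¹ • h a x = h' a x := by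
    intro a
    filter_upwards [hae a] with x hx hx6
    simp only [hh', if_pos (hx hx6)]
  have hob : ∀ a, ∀ x ∈ ball (0 : E) 6, Obst C' (H a x) (h' a x) := by
    intro a x hx
    by_cases hc : sg (h a x) (t • H a x) ≤ C'
    · simp only [hh', if_pos hc]
      refine obst_of_sg (hH.pos a x hx) (eres_posDef_smul ht' (hp a x hx)) hC0' ?_
      rw [← sg_smul ht' (hp a x hx) (eres_posDef_smul ht (hH.pos a x hx)), smul_smul,
        inv_mul_cancel₀ ht.ne', one_smul, sg_comm] at hc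
      exact hc
    · simp only [hh', if_neg hc]
      exact Obst.refl (hH.pos a x hx).posSemidef h1
  have hen : A.energy χ h' (fun a x => t⁻¹ • D a x) = A.energy χ h D := by
    refine Finset.sum_congr rfl fun a _ => integral_congr_ae ?_
    filter_upwards [hae' a] with x hx
    by_cases hx6 : x ∈ ball (0 : E) 6
    · rw [← hx hx6]
      simp only [en, mc_smul (hp a x hx6) ht']
    · simp only [(hχ.1 a).1.zero_of_notMem hx6, zero_mul]
  refine ⟨h', fun a x => t⁻¹ • D a x, ⟨⟨fun a => ?_, fun a x hx => ?_, fun a b x hx => ?_⟩,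
    fun h'' D'' hA => ?_⟩, hob⟩
  · exact ((hh.1.wd a).const_smul t⁻¹).congr (hae' a) (Eventually.of_forall fun _ _ => rfl)
  · exact (hob a x hx).mono (hH.pos a x hx).posSemidef hC0' h2
  · simp only [hh', hinv a b x hx]
    by_cases hc : sg (h a x) (t • H a x) ≤ C'
    · rw [if_pos hc, if_pos hc, hh.1.mc a b x hx, eres_gm_smul]
    · rw [if_neg hc, if_neg hc, hH.mc a b x hx]
  · rw [hen]
    exact hh.2 h'' D'' hA

/-- an interior minimiser is weakly harmonic -/
theorem Atlas.harm_of_min (hχ : A.Pou (ball 0 6) χ) (hH : A.Ref ρ H)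
    (hh : A.IsMin χ ρ H C h D) {C' : ℝ} (h1 : 1 ≤ C') (h2 : C' * 2 ≤ C)
    (ho : ∀ a, ∀ x ∈ ball (0 : E) 6, Obst C' (H a x) (h a x)) (a : A.ι) :
    Harm (ball 0 6) (A.α a) fun x => mc (h a x) (D a x) := by
  intro φ hφ
  have hC : 1 ≤ C := by linarith
  have hC0' : 0 < C' := lt_of_lt_of_le one_pos h1
  set F : E → Mat r :=
    fun x => ∑ p, fderiv ℝ φ x (A.α a x (ob E p)) • mc (h a x) (D a x) (ob E p) with hF
  by_cases hI : Integrable F
  swap
  · exact integral_undef hI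
  obtain ⟨B, hB, hBd⟩ := Atlas.Adm.lbd hH hC hh.1 a (tsupport φ) hφ.2.1 hφ.2.2
  obtain ⟨δ, hδ, hfree⟩ := obst_free r hB
  obtain ⟨L, hL⟩ := hφ.2.1.exists_bound_of_continuous hφ.continuous
  have hL0 : 0 ≤ L := (norm_nonneg _).trans (hL 0)
  have key : ∀ X : Mat r, 0 ≤ ((∫ x, F x) * X).trace.re := by
    intro X
    have hw : WD 2 (ball (0 : E) 6) (fun x => φ x • X) fun x => (fderiv ℝ φ x).smulRight X :=
      ((WD.const (U := ball (0 : E) 6) (by norm_num) X).smul (by norm_num) hφ.1).congr'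
        (fun _ _ => rfl) fun _ _ => by simp
    have hn : ∀ x, ‖φ x • X‖ ≤ L * ‖X‖ := fun x => by
      rw [norm_smul]; exact mul_le_mul_of_nonneg_right (hL x) (norm_nonneg _)
    have hd : 0 < L * ‖X‖ + 1 := by positivity
    have hv := Atlas.min_var hχ hH hC hh a hw (fun K _ _ => ⟨_, fun x _ => hn x⟩)
      ⟨tsupport φ, hφ.2.1, hφ.2.2, fun x _ hx => by
        simp [image_eq_zero_of_notMem_tsupport hx]⟩ (t₀ := δ / (L * ‖X‖ + 1)) (div_pos hδ hd) (by
        intro t ht x hx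
        by_cases hxK : x ∈ tsupport φ
        · have hz : ‖t • φ x • X‖ ≤ δ := by
            rw [norm_smul, Real.norm_of_nonneg ht.1]
            calc t * ‖φ x • X‖ ≤ δ / (L * ‖X‖ + 1) * (L * ‖X‖ + 1) :=
                  mul_le_mul ht.2 ((hn x).trans (by linarith)) (norm_nonneg _) (by positivity)
              _ = δ := div_mul_cancel₀ _ hd.ne'
          exact (Obst.trans hC0' two_pos (ho a x hx) (hfree _ _ (hBd x hxK) hz)).mono
            (hH.pos a x hx).posSemidef (by positivity) h2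
        · simp only [image_eq_zero_of_notMem_tsupport hxK, zero_smul, smul_zero, add_zero, gm_one]
          exact hh.1.ob a x hx)
    set T : Mat r →L[ℝ] ℝ := (trL r).comp ((ContinuousLinearMap.mul ℝ (Mat r)).flip X) with hT
    have hTa : ∀ Y, T Y = (Y * X).trace.re := fun _ => rfl
    rw [← hTa, ← T.integral_comp_comm hI]
    rw [setIntegral_eq_integral_of_forall_compl_eq_zero] at hv
    · simpa only [eres_pair, hTa] using hv
    · intro x hx
      simp [pair, hφ.fderiv_zero_of_notMem hx]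
  exact eres_eq_zero (key _)

end Pool.Agent.PW
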