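import Pool.Agent.P.MP_65ad7c_ag.EVar
import Pool.Agent.P.MP_65ad7c_ag.ERef
import Pool.Agent.P.MP_65ad7c_ag.ELog
import Pool.Agent.P.MP_65ad7c_ag.AVar

open MeasureTheory Set Filter Topology Metric Matrix
open scoped ComplexOrder ContDiff Matrix.Norms.Frobenius RealInnerProductSpace ENNReal
open Pool.Agent.Lib.Sob

noncomputable section
namespace Pool.Agent.PW

variable {E : Type} [NormedAddCommGroup E] [InnerProductSpace ℝ E] [FiniteDimensional ℝ E]
  [MeasurableSpace E] [BorelSpace E] {r : ℕ} {U : Set E} {Γ : Type} [Group Γ]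
  {V : Type} [NormedAddCommGroup V] [NormedSpace ℝ V]
  {A : Atlas E Γ} {χ : A.ι → E → ℝ} {ρ : Γ →* Mat r} {H h : A.ι → E → Mat r}
  {D : A.ι → E → E →L[ℝ] Mat r} {C : ℝ}

/-- `log sg (h, t H)` is a subsolution -/
theorem Atlas.sub_log (A : Atlas E Γ) (hr : 0 < r) {χ : A.ι → E → ℝ} (hχ : A.Pou (ball 0 6) χ)
    {B : ℝ} (hB : 1 ≤ B) : ∃ C₁ : ℝ, 0 ≤ C₁ ∧
    ∀ (ρ : Γ →* Mat r) H C h D (t : ℝ), A.Ref ρ H → A.RefBd B H → 1 ≤ C → A.IsMin χ ρ H C h D →
      C⁻¹ ≤ t → t ≤ C → ∀ b, ∃ Df,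
        WD 2 (ball 0 6) (fun x => Real.log (sg (h b x) (t • H b x))) Df ∧
        LB (ball 0 6) (fun x => Real.log (sg (h b x) (t • H b x))) ∧
        SubSol (ball 0 6) (closedBall 0 2) (A.α b) Df C₁ := by
  choose C₁ hC₁ href using fun b => ref_test (r := r) (A.coef b) hB
  refine ⟨(∑ b, C₁ b) * (r * B ^ 2), mul_nonneg (Finset.sum_nonneg fun b _ => hC₁ b)
    (by positivity), ?_⟩
  intro ρ H C h D t hH hRB hC hmin ht1 ht2 b
  have hC0 : 0 < C := by linarith
  have hB0 : 0 < B := by linarith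
  have ht : 0 < t := (inv_pos.2 hC0).trans_le ht1
  have hU : IsOpen (ball (0 : E) 6) := isOpen_ball
  have hK : IsCompact (closedBall (0 : E) 2) := isCompact_closedBall _ _
  have hKU : closedBall (0 : E) 2 ⊆ ball 0 6 := closedBall_subset_ball (by norm_num)
  have hα := A.coef b
  have hu : WD 2 (ball 0 6) (h b) (D b) := hmin.1.wd b
  have bu : LBd (ball 0 6) (h b) := hmin.1.lbd hH hC b
  have hv : WD 2 (ball 0 6) (fun x => t • H b x) fun x => t • fderiv ℝ (H b) x :=
    (WD.of_contDiffOn (by norm_num) hU ((hH.sm b).of_le (by simp))).const_smul t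
  have bv : LBd (ball 0 6) fun x => t • H b x :=
    LBd.of_continuousOn ((hH.sm b).continuousOn.const_smul t) fun x hx => (hH.pos b x hx).smul ht
  refine sub_log_local hr hU hK hKU hα hu hv bu bv fun η Dη hη lη pη zη => ?_
  obtain ⟨wk, lk⟩ := wd_kz hU hu hv bu bv
  obtain ⟨ws, -⟩ := wd_sg hU hu hv bu bv
  have hζ := wd_smul hU hη wk lη lk
  have lζ : LB (ball 0 6) fun x => η x • kz (h b x) (t • H b x) :=
    lη.bilin (ContinuousLinearMap.lsmul ℝ ℝ) lk
  have zζ : ∀ x ∈ ball (0 : E) 6, x ∉ closedBall (0 : E) 2 →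
      η x • kz (h b x) (t • H b x) = 0 := fun x hx hx' => by rw [zη x hx hx', zero_smul]
  obtain ⟨M, hM⟩ := lη _ hK hKU
  have hM' : ∀ x ∈ ball (0 : E) 6, η x ≤ |M| + 1 := fun x hx => by
    by_cases h' : x ∈ closedBall (0 : E) 2
    · linarith [le_abs_self (η x), hM x h', le_abs_self M, Real.norm_eq_abs (η x)]
    · rw [zη x hx h']; positivity
  have h1 := Atlas.min_var hχ hH hC hmin b hζ lζ ⟨_, hK, hKU, zζ⟩
    (t₀ := (8 * C ^ 2)⁻¹ * (|M| + 1)⁻¹) (by positivity) fun s hs x hx => by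
      rw [smul_smul]
      refine obst_var hC (hH.pos b x hx) (hmin.1.ob b x hx) ht1 ht2
        (mul_nonneg hs.1 (pη x hx)) ?_
      calc s * η x ≤ (8 * C ^ 2)⁻¹ * (|M| + 1)⁻¹ * (|M| + 1) :=
            mul_le_mul hs.2 (hM' x hx) (pη x hx) (by positivity)
        _ = _ := by rw [mul_assoc, inv_mul_cancel₀ (by positivity), mul_one]
  have h2 := href b (H b) (hH.sm b) (hH.pos b) (hRB b) _ _ hζ zζ
  have hz := wd_cs_ae (by norm_num) hU hζ isClosed_closedBall zζ
  have hi : ∀ Y : E → E →L[ℝ] Mat r, LocLp 2 (ball 0 6) Y → IntegrableOn (fun x => pair (A.α b x)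
      (Y x) (η x • dkz (h b x) (t • H b x) (D b x) (t • fderiv ℝ (H b) x) +
        (Dη x).smulRight (kz (h b x) (t • H b x)))) (ball 0 6) := fun Y hY => by
    refine (integrableOn_of_cs hU (locLp_pair hα.1.continuousOn hY hζ.2.1) hK hKU ?_).1
    filter_upwards [hz] with x hx hx1 hx2
    rw [hx hx1 hx2]; simp [pair]
  have i1 := hi _ (locLp_mc hU hu bu)
  have i2 := hi _ (locLp_mc hU hv bv)
  have hm : MeasurableSet (ball (0 : E) 6) := measurableSet_ball
  have e1 : ∫ x in ball (0 : E) 6, (η x * qq (A.α b x) (h b x) (t • H b x) (D b x)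
        (t • fderiv ℝ (H b) x) + spair (A.α b x) (dsg (h b x) (t • H b x) (D b x)
        (t • fderiv ℝ (H b) x)) (Dη x)) =
      ∫ x in ball (0 : E) 6, (pair (A.α b x) (mc (t • H b x) (t • fderiv ℝ (H b) x))
        (η x • dkz (h b x) (t • H b x) (D b x) (t • fderiv ℝ (H b) x) +
        (Dη x).smulRight (kz (h b x) (t • H b x))) - pair (A.α b x) (mc (h b x) (D b x))
        (η x • dkz (h b x) (t • H b x) (D b x) (t • fderiv ℝ (H b) x) +
        (Dη x).smulRight (kz (h b x) (t • H b x)))) := by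
    refine setIntegral_congr_ae hm ?_
    filter_upwards [wd_herm (by norm_num) hU hu fun x hx => (bu.posDef x hx).isHermitian.eq,
      wd_herm (by norm_num) hU hv fun x hx => (bv.posDef x hx).isHermitian.eq] with x a1 a2 hx
    exact (pair_key (bu.posDef x hx) (bv.posDef x hx) (a1 hx) (a2 hx) (hα.2 x hx).1 _ _).symm
  have e2 : ∫ x in ball (0 : E) 6, pair (A.α b x) (mc (t • H b x) (t • fderiv ℝ (H b) x))
        (η x • dkz (h b x) (t • H b x) (D b x) (t • fderiv ℝ (H b) x) +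
        (Dη x).smulRight (kz (h b x) (t • H b x))) =
      ∫ x in ball (0 : E) 6, pair (A.α b x) (mc (H b x) (fderiv ℝ (H b) x))
        (η x • dkz (h b x) (t • H b x) (D b x) (t • fderiv ℝ (H b) x) +
        (Dη x).smulRight (kz (h b x) (t • H b x))) :=
    setIntegral_congr_fun hm fun x hx => by
      rw [mc_smul (hH.pos b x hx) ht]
  have i3 : IntegrableOn (fun x => η x * sg (h b x) (t • H b x)) (ball 0 6) := by
    refine (integrableOn_of_cs hU (locLp_bilin_one (ContinuousLinearMap.mul ℝ ℝ) hη.1 ws.1)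
      hK hKU (Eventually.of_forall fun x hx hx' => ?_)).1
    simp [zη x hx hx']
  have h3 : ∫ x in ball (0 : E) 6, ‖η x • kz (h b x) (t • H b x)‖ ≤
      r * B ^ 2 * ∫ x in ball (0 : E) 6, η x * sg (h b x) (t • H b x) := by
    rw [← integral_const_mul]
    refine integral_mono_of_nonneg (Eventually.of_forall fun x => norm_nonneg _)
      (i3.const_mul _) ((ae_restrict_iff' hm).2 (Eventually.of_forall fun x hx => ?_))
    dsimp only
    by_cases h' : x ∈ closedBall (0 : E) 2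
    · have hp : (t⁻¹ • h b x).PosDef := (bu.posDef x hx).smul (inv_pos.2 ht)
      have e : h b x = t • t⁻¹ • h b x := by rw [smul_smul, mul_inv_cancel₀ ht.ne', one_smul]
      have h4 := norm_kz_le hp hB0 (hRB b x (closedBall_subset_closedBall (by norm_num) h')).1
      rw [← kz_smul ht hp (hH.pos b x hx), ← sg_smul ht hp (hH.pos b x hx), ← e] at h4
      rw [norm_smul, Real.norm_eq_abs, abs_of_nonneg (pη x hx)]
      calc _ ≤ η x * (r * B ^ 2 * sg (h b x) (t • H b x)) :=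
            mul_le_mul_of_nonneg_left h4 (pη x hx)
        _ = _ := by ring
    · simp [zη x hx h']
  have h5 : 0 ≤ ∫ x in ball (0 : E) 6, η x * sg (h b x) (t • H b x) :=
    setIntegral_nonneg hm fun x hx => mul_nonneg (pη x hx)
      ((by positivity : (0 : ℝ) ≤ 2 * r).trans (le_sg (bu.posDef x hx) (bv.posDef x hx)))
  have h6 : C₁ b ≤ ∑ b, C₁ b :=
    Finset.single_le_sum (fun b _ => hC₁ b) (Finset.mem_univ b)
  rw [e1, integral_sub i2 i1, e2]
  calc _ ≤ C₁ b * ∫ x in ball (0 : E) 6, ‖η x • kz (h b x) (t • H b x)‖ := by linarith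
    _ ≤ C₁ b * (r * B ^ 2 * ∫ x in ball (0 : E) 6, η x * sg (h b x) (t • H b x)) :=
        mul_le_mul_of_nonneg_left h3 (hC₁ b)
    _ ≤ (∑ b, C₁ b) * (r * B ^ 2 * ∫ x in ball (0 : E) 6, η x * sg (h b x) (t • H b x)) :=
        mul_le_mul_of_nonneg_right h6 (by positivity)
    _ = _ := by ring

end Pool.Agent.PW
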