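import Pool.Agent.P.MP_65ad7c_ag.EMod
import Pool.Agent.P.MP_65ad7c_ag.AEn

open MeasureTheory Set Filter Topology Metric Matrix
open scoped ComplexOrder ContDiff Matrix.Norms.Frobenius RealInnerProductSpace ENNReal
open Pool.Agent.Lib.Sob

noncomputable section
namespace Pool.Agent.PW

variable {E : Type} [NormedAddCommGroup E] [InnerProductSpace ℝ E] [FiniteDimensional ℝ E]
  [MeasurableSpace E] [BorelSpace E] {r : ℕ} {U : Set E} {Γ : Type} [Group Γ]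
  {V : Type} [NormedAddCommGroup V] [NormedSpace ℝ V]
  {A : Atlas E Γ} {χ : A.ι → E → ℝ} {ρ : Γ →* Mat r} {H h : A.ι → E → Mat r}
  {D : A.ι → E → E →L[ℝ] Mat r} {C : ℝ}

omit [MeasurableSpace E] [BorelSpace E] [FiniteDimensional ℝ E] in
theorem evar_dgm (h : Mat r) (D : E →L[ℝ] Mat r) : dgm h 1 D 0 = D := by
  ext1 v
  simp [dgm]

omit [MeasurableSpace E] [BorelSpace E] in
theorem evar_pair (α : E →L[ℝ] E) (X : E →L[ℝ] Mat r) : pair α X 0 = 0 := by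
  simp [pair]

theorem evar_lim {I J t₀ : ℝ} (ht : 0 < t₀)
    (h : ∀ t, 0 < t → t ≤ t₀ → 0 ≤ 4 * t * I + t ^ 2 * J) : 0 ≤ I := by
  have h1 : Tendsto (fun t : ℝ => 4 * I + t * J) (𝓝[>] 0) (𝓝 (4 * I + 0 * J)) :=
    tendsto_nhdsWithin_of_tendsto_nhds (Continuous.tendsto (by fun_prop) 0)
  have h2 : ∀ᶠ t : ℝ in 𝓝[>] 0, 0 ≤ 4 * I + t * J := by
    filter_upwards [Ioc_mem_nhdsGT ht] with t h2
    refine nonneg_of_mul_nonneg_right ((h t h2.1 h2.2).trans_eq (by ring)) h2.1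
  have := ge_of_tendsto h1 h2
  linarith

/-- first variation inequality -/
theorem Atlas.min_var (hχ : A.Pou (ball 0 6) χ) (hH : A.Ref ρ H) (hC : 1 ≤ C)
    (hh : A.IsMin χ ρ H C h D) (b : A.ι) {ζ : E → Mat r} {Dζ : E → E →L[ℝ] Mat r}
    (hζ : WD 2 (ball 0 6) ζ Dζ) (hb : LB (ball 0 6) ζ) (hc : CS (ball 0 6) ζ) {t₀ : ℝ}
    (ht : 0 < t₀) (ho : ∀ t ∈ Icc 0 t₀, ∀ x ∈ ball (0 : E) 6,
      Obst C (H b x) (gm (h b x) (1 + t • ζ x))) :
    0 ≤ ∫ x in ball (0 : E) 6, pair (A.α b x) (mc (h b x) (D b x)) (Dζ x) := by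
  obtain ⟨K, hK, hKU, h0⟩ := hc
  have hU : IsOpen (ball (0 : E) 6) := isOpen_ball
  have hl := hh.1.lbd hH hC b
  have hw := hh.1.wd b
  obtain ⟨B, hB, hBd⟩ := hl K hK hKU
  obtain ⟨M, hM⟩ := hb K hK hKU
  obtain ⟨l, L, -, hL⟩ := (A.coef b).ell hK hKU
  obtain ⟨K₀, t₁, hK₀, ht₁, hv⟩ := en_var (E := E) r hB (le_max_right M 0)
  have hz := wd_cs_ae (by norm_num) hU hζ hK.isClosed h0
  have hP : LocLp 1 (ball (0 : E) 6) fun x => pair (A.α b x) (mc (h b x) (D b x)) (Dζ x) :=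
    locLp_pair (A.coef b).1.continuousOn (locLp_mc hU hw hl) hζ.2.1
  have hI := (integrableOn_of_cs hU hP hK hKU (by
    filter_upwards [hz] with x hx h1 h2
    rw [hx h1 h2, evar_pair])).2
  have iP := hP.integrableOn le_rfl hK hKU
  have iG : IntegrableOn (fun x => ‖D b x‖ ^ 2 + ‖Dζ x‖ ^ 2) K :=
    ((memLp_two_iff_integrable_sq_norm (hw.2.1 K hK hKU).1).1 (hw.2.1 K hK hKU)).add
      ((memLp_two_iff_integrable_sq_norm (hζ.2.1 K hK hKU).1).1 (hζ.2.1 K hK hKU))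
  have hherm := wd_herm (by norm_num) hU hw fun x hx => (hl.posDef x hx).1
  rw [hI]
  refine evar_lim (J := K₀ * L * ∫ x in K, (‖D b x‖ ^ 2 + ‖Dζ x‖ ^ 2)) (lt_min ht ht₁)
    fun t t0 t1 => ?_
  have ho' := ho t ⟨t0.le, t1.trans (min_le_left _ _)⟩
  have w1 : WD 2 (ball (0 : E) 6) (fun x => 1 + t • ζ x) fun x => t • Dζ x :=
    ((hζ.const_smul t).add_const (by norm_num) 1).congr' (fun x _ => add_comm _ _) fun _ _ => rfl
  have b1 : LB (ball (0 : E) 6) fun x => 1 + t • ζ x :=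
    (LB.of_continuousOn continuousOn_const).add
      ((LB.of_continuousOn (u := fun _ => t) continuousOn_const).bilin
        (ContinuousLinearMap.lsmul ℝ ℝ) hb)
  have w2 := wd_gm hU hw w1 hl.lb b1
  obtain ⟨h', D', ha, he⟩ := A.adm_modify hχ hH hC hh.1 b hK hKU w2 ho' fun x hx hx' => by
    rw [h0 x hx hx', smul_zero, add_zero, gm_one]
  have hF : LocLp 1 (ball (0 : E) 6) fun x => en (A.α b x) (gm (h b x) (1 + t • ζ x))
      (dgm (h b x) (1 + t • ζ x) (D b x) (t • Dζ x)) - en (A.α b x) (h b x) (D b x) :=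
    (en_loc hU (A.coef b) w2 ((hH.lbd b).of_obst hC ho')).1.sub (en_loc hU (A.coef b) hw hl).1
  rw [(integrableOn_of_cs hU hF hK hKU (by
    filter_upwards [hz] with x hx h1 h2
    rw [hx h1 h2, h0 x h1 h2, smul_zero, smul_zero, add_zero, gm_one, evar_dgm, sub_self])).2] at he
  have h1 := sub_nonneg.2 (hh.2 h' D' ha)
  rw [he] at h1
  refine h1.trans ((integral_mono_ae (hF.integrableOn le_rfl hK hKU)
    ((iP.const_mul (4 * t)).add (iG.const_mul (t ^ 2 * (K₀ * L)))) ?_).trans_eq ?_)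
  · filter_upwards [ae_restrict_mem hK.measurableSet, ae_restrict_of_ae hherm] with x hx h2
    have h3 := (abs_le.1 (hv (h b x) (ζ x) (D b x) (Dζ x) (A.α b x) t (hBd x hx) (h2 (hKU hx))
      ((hM x hx).trans (le_max_left _ _)) (hL x hx).1
      (by rw [abs_of_pos t0]; exact t1.trans (min_le_right _ _)))).2
    have h4 : K₀ * t ^ 2 * ‖A.α b x‖ * (‖D b x‖ ^ 2 + ‖Dζ x‖ ^ 2) ≤
        K₀ * t ^ 2 * L * (‖D b x‖ ^ 2 + ‖Dζ x‖ ^ 2) :=
      mul_le_mul_of_nonneg_right (mul_le_mul_of_nonneg_left (hL x hx).2.2 (by positivity))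
        (by positivity)
    simp only [Pi.add_apply]
    linarith
  · simp only [Pi.add_apply]
    rw [integral_add (iP.const_mul (4 * t)) (iG.const_mul (t ^ 2 * (K₀ * L))), integral_const_mul,
      integral_const_mul]
    ring

end Pool.Agent.PW
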