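import Pool.Agent.P.MP_65ad7c_ag.FDefs
import Pool.Agent.P.MP_65ad7c_ag.TTest

open MeasureTheory Set Filter Topology Metric Matrix
open scoped ComplexOrder ContDiff Matrix.Norms.Frobenius RealInnerProductSpace ENNReal
open Pool.Agent.Lib.Sob

noncomputable section
namespace Pool.Agent.PW

variable {E : Type} [NormedAddCommGroup E] [InnerProductSpace ℝ E] [FiniteDimensional ℝ E]
  [MeasurableSpace E] [BorelSpace E] {r : ℕ} {U : Set E}

variable {om om' : E → E →L[ℝ] Mat r} {Φ Φ' : E → E → E → Mat r}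

theorem WCurl.mono {U' : Set E} (h : WCurl U om Φ) (hU : U' ⊆ U) : WCurl U' om Φ :=
  fun φ hφ => h φ (hφ.mono hU)

theorem WCurl.congr (h : WCurl U om Φ) (h1 : ∀ᵐ x, x ∈ U → om x = om' x)
    (h2 : ∀ᵐ x, x ∈ U → ∀ v w, Φ x v w = Φ' x v w) : WCurl U om' Φ' := by
  intro φ hφ v w
  have := h φ hφ v w
  rw [← integral_congr_ae (f := fun x => fderiv ℝ φ x v • om x w - fderiv ℝ φ x w • om x v), this,
    integral_congr_ae (f := fun x => φ x • Φ x v w)]
  · filter_upwards [h2] with x hx
    by_cases hxU : x ∈ U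
    · rw [hx hxU]
    · simp [hφ.zero_of_notMem hxU]
  · filter_upwards [h1] with x hx
    by_cases hxU : x ∈ U
    · rw [hx hxU]
    · simp [hφ.fderiv_zero_of_notMem hxU]

theorem WCurl.lin (h : WCurl U om Φ) (h' : WCurl U om' Φ') (l : LocLp 1 U om) (l' : LocLp 1 U om')
    (m : ∀ v w, LocLp 1 U fun x => Φ x v w) (m' : ∀ v w, LocLp 1 U fun x => Φ' x v w) (p q : ℂ) :
    WCurl U (fun x => p • om x + q • om' x) fun x v w => p • Φ x v w + q • Φ' x v w := by
  intro φ hφ v w
  have i1 := ((l.apply w).integrable_dtest le_rfl hφ v).sub' ((l.apply v).integrable_dtest le_rfl hφ w)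
  have i2 := ((l'.apply w).integrable_dtest le_rfl hφ v).sub'
    ((l'.apply v).integrable_dtest le_rfl hφ w)
  have i3 := (m v w).integrable_test le_rfl hφ
  have i4 := (m' v w).integrable_test le_rfl hφ
  have e1 : ∀ x, fderiv ℝ φ x v • (p • om x + q • om' x) w - fderiv ℝ φ x w • (p • om x + q • om' x) v
      = p • (fderiv ℝ φ x v • om x w - fderiv ℝ φ x w • om x v)
        + q • (fderiv ℝ φ x v • om' x w - fderiv ℝ φ x w • om' x v) := by
    intro x
    simp only [_root_.add_apply, _root_.smul_apply, smul_add, smul_sub,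
      smul_comm _ p, smul_comm _ q]
    abel
  have e2 : ∀ x, φ x • (p • Φ x v w + q • Φ' x v w) = p • (φ x • Φ x v w) + q • (φ x • Φ' x v w) := by
    intro x
    simp only [smul_add, smul_comm _ p, smul_comm _ q]
  simp only [e1, e2]
  rw [integral_add (i1.fun_smul p) (i2.fun_smul q), integral_add (i3.fun_smul p) (i4.fun_smul q), integral_smul,
    integral_smul, integral_smul, integral_smul, h φ hφ v w, h' φ hφ v w, smul_neg, smul_neg, neg_add]

/-- weak gradients are weakly closed -/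
theorem wcurl_of_wd {n : ℕ} (hn : 1 ≤ n) {u : E → Mat r} {D : E → E →L[ℝ] Mat r}
    (h : WD n U u D) : WCurl U D fun _ _ _ => 0 := by
  intro φ hφ v w
  have ht : ∀ e : E, IsTest U fun x => fderiv ℝ φ x e := fun e =>
    ⟨(hφ.1.fderiv_right (m := ∞) le_rfl).clm_apply contDiff_const, hφ.2.1.fderiv_apply ℝ e,
      (tsupport_fderiv_apply_subset ℝ e).trans hφ.2.2⟩
  have hs : ∀ x, fderiv ℝ (fun x => fderiv ℝ φ x v) x w = fderiv ℝ (fun x => fderiv ℝ φ x w) x v := by
    intro x
    have hd : DifferentiableAt ℝ (fderiv ℝ φ) x :=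
      (hφ.1.fderiv_right (m := ∞) le_rfl).differentiable (by simp) x
    rw [fderiv_clm_apply hd (differentiableAt_const _), fderiv_clm_apply hd (differentiableAt_const _)]
    have := (hφ.1.contDiffAt (x := x)).isSymmSndFDerivAt (by simp; exact WithTop.coe_le_coe.2 le_top)
    simp [this.eq v w]
  rw [integral_sub ((h.2.1.apply w).integrable_test hn (ht v))
    ((h.2.1.apply v).integrable_test hn (ht w))]
  have a1 := h.2.2 _ (ht v) w
  have a2 := h.2.2 _ (ht w) v
  simp only [hs] at a1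
  rw [a1, neg_inj] at a2
  simp [a2]

theorem fcurl_scal {V : Type} [NormedAddCommGroup V] [NormedSpace ℝ V] [CompleteSpace V]
    {om : E → E →L[ℝ] V} {Φ : E → V} {v w : E}
    (hU : IsOpen U) {a : E → ℝ} {Da : E → E →L[ℝ] ℝ} (ha : WD 2 U a Da)
    (ho : LocLp 2 U om) (hΦ : LocLp 2 U Φ) (h : ∀ φ, IsTest U φ →
      ∫ x, (fderiv ℝ φ x v • om x w - fderiv ℝ φ x w • om x v) = -∫ x, φ x • Φ x)
    {φ : E → ℝ} (hφ : IsTest U φ) :
    ∫ x, (fderiv ℝ φ x v • a x • om x w - fderiv ℝ φ x w • a x • om x v) =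
      -∫ x, φ x • (Da x v • om x w - Da x w • om x v + a x • Φ x) := by
  set A : E → V →L[ℝ] (E →L[ℝ] ℝ) →L[ℝ] V := fun e =>
    ContinuousLinearMap.smulRightL ℝ (E →L[ℝ] ℝ) V (ContinuousLinearMap.apply ℝ ℝ e) with hA
  have hAa : ∀ e y ξ, A e y ξ = ξ e • y := fun e y ξ => rfl
  clear_value A
  have h1 := LocLp.clm (W := (E →L[ℝ] ℝ) →L[ℝ] V) (ho.apply w) (A v)
  have h2 := LocLp.clm (W := (E →L[ℝ] ℝ) →L[ℝ] V) (ho.apply v) (A w)
  have hX := h1.sub h2
  have hη := ha.smul (by norm_num) hφ.1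
  have key := test_ext hU hX hΦ.neg (fun ψ hψ => by
      simp only [_root_.sub_apply, hAa, smul_neg, integral_neg]
      exact h ψ hψ) hη
    ⟨tsupport φ, hφ.2.1, hφ.2.2, fun x _ hx => by simp [image_eq_zero_of_notMem_tsupport hx]⟩
  rw [setIntegral_eq_integral_of_forall_compl_eq_zero, setIntegral_eq_integral_of_forall_compl_eq_zero]
    at key
  rotate_left
  · intro x hx
    simp [hφ.zero_of_notMem hx]
  · intro x hx
    simp [hφ.zero_of_notMem hx, hφ.fderiv_zero_of_notMem hx]
  have B := fun {f : E → ℝ} {g : E → V} (hf : LocLp 2 U f) (hg : LocLp 2 U g) =>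
    locLp_bilin_one (ContinuousLinearMap.lsmul ℝ ℝ) hf hg
  simp only [ContinuousLinearMap.lsmul_apply] at B
  have i1 := ((B ha.1 (ho.apply w)).integrable_dtest le_rfl hφ v).sub'
    ((B ha.1 (ho.apply v)).integrable_dtest le_rfl hφ w)
  have i2 := ((B (ha.2.1.apply v) (ho.apply w)).sub (B (ha.2.1.apply w) (ho.apply v))).integrable_test
    le_rfl hφ
  have i3 := (B ha.1 hΦ).integrable_test le_rfl hφ
  have e1 : ∀ x, (A v (om x w) - A w (om x v)) (φ x • Da x + (fderiv ℝ φ x).smulRight (a x))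
      = (fderiv ℝ φ x v • a x • om x w - fderiv ℝ φ x w • a x • om x v)
        + φ x • (Da x v • om x w - Da x w • om x v) := by
    intro x
    simp only [_root_.sub_apply, hAa, _root_.add_apply,
      _root_.smul_apply, ContinuousLinearMap.smulRight_apply, smul_eq_mul, add_smul,
      mul_smul, smul_sub]
    abel
  have e2 : ∀ x, (φ x • a x) • -Φ x = -(φ x • a x • Φ x) := by
    intro x
    rw [smul_neg, smul_eq_mul, mul_smul]
  simp only [e1, e2] at key
  rw [integral_add i1 i2, integral_neg] at key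
  simp only [smul_add]
  rw [integral_add i2 i3, neg_add, ← key]
  abel

/-- product rule for the weak curl; `L = mul` gives `lmul`, `L = mul.flip` gives `rmul` -/
theorem wcurl_bilin (L : Mat r →L[ℝ] Mat r →L[ℝ] Mat r) (hU : IsOpen U) {u : E → Mat r}
    {D : E → E →L[ℝ] Mat r} (hu : WD 2 U u D) (ho : LocLp 2 U om)
    (hΦ : ∀ v w, LocLp 2 U fun x => Φ x v w) (h : WCurl U om Φ) :
    WCurl U (fun x => (L (u x)).comp (om x))
      fun x v w => L (D x v) (om x w) - L (D x w) (om x v) + L (u x) (Φ x v w) := by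
  intro φ hφ v w
  set b := Module.finBasis ℝ (Mat r) with hb
  set c : Fin (Module.finrank ℝ (Mat r)) → Mat r →L[ℝ] ℝ := fun i =>
    LinearMap.toContinuousLinearMap (b.coord i) with hc
  have hL : ∀ y z : Mat r, L y z = ∑ i, c i y • L (b i) z := by
    intro y z
    conv_lhs => rw [← b.sum_repr y, map_sum, _root_.sum_apply]
    refine Finset.sum_congr rfl fun i _ => ?_
    rw [map_smul]
    rfl
  have B := fun {f : E → ℝ} {g : E → Mat r} (hf : LocLp 2 U f) (hg : LocLp 2 U g) =>
    locLp_bilin_one (ContinuousLinearMap.lsmul ℝ ℝ) hf hg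
  simp only [ContinuousLinearMap.lsmul_apply] at B
  have hw := fun i => hu.clm (by norm_num) (c i)
  have key := fun i => fcurl_scal hU (hw i) ho (hΦ v w) (fun ψ hψ => h ψ hψ v w) hφ
  have i1 := fun i => ((B (hw i).1 (ho.apply w)).integrable_dtest le_rfl hφ v).sub'
    ((B (hw i).1 (ho.apply v)).integrable_dtest le_rfl hφ w)
  have i2 := fun i => (((B ((hw i).2.1.apply v) (ho.apply w)).sub
    (B ((hw i).2.1.apply w) (ho.apply v))).add (B (hw i).1 (hΦ v w))).integrable_test le_rfl hφ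
  have e1 : ∀ x, fderiv ℝ φ x v • (L (u x)).comp (om x) w - fderiv ℝ φ x w • (L (u x)).comp (om x) v
      = ∑ i, L (b i) (fderiv ℝ φ x v • c i (u x) • om x w - fderiv ℝ φ x w • c i (u x) • om x v) := by
    intro x
    simp only [ContinuousLinearMap.comp_apply, map_sub, map_smul, Finset.sum_sub_distrib,
      ← Finset.smul_sum, ← hL]
  have e2 : ∀ x, φ x • (L (D x v) (om x w) - L (D x w) (om x v) + L (u x) (Φ x v w))
      = ∑ i, L (b i) (φ x • ((c i).comp (D x) v • om x w - (c i).comp (D x) w • om x v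
        + c i (u x) • Φ x v w)) := by
    intro x
    simp only [ContinuousLinearMap.comp_apply, map_sub, map_add, map_smul, Finset.sum_sub_distrib,
      Finset.sum_add_distrib, ← Finset.smul_sum, ← hL]
  simp only [e1, e2]
  rw [integral_finsetSum _ fun i _ => (L (b i)).integrable_comp (i1 i),
    integral_finsetSum _ fun i _ => (L (b i)).integrable_comp (i2 i), ← Finset.sum_neg_distrib]
  refine Finset.sum_congr rfl fun i _ => ?_
  rw [(L (b i)).integral_comp_comm (i1 i), (L (b i)).integral_comp_comm (i2 i), ← map_neg, ← key i]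

end Pool.Agent.PW
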