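import Pool.Agent.P.MP_65ad7c_ag.FMoll

open MeasureTheory Set Filter Topology Metric Matrix
open scoped ComplexOrder ContDiff Matrix.Norms.Frobenius RealInnerProductSpace ENNReal
open Pool.Agent.Lib.Sob

noncomputable section
namespace Pool.Agent.PW

variable {E : Type} [NormedAddCommGroup E] [InnerProductSpace ℝ E] [FiniteDimensional ℝ E]
  [MeasurableSpace E] [BorelSpace E] {r : ℕ} {U : Set E}

section aux
variable {V : Type} [NormedAddCommGroup V] [NormedSpace ℝ V] [CompleteSpace V] {R K : ℝ}
  {u : E → V}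

/-- the translated bump -/
def fcurvPhi (k : ℕ) (x : E) : E → ℝ := fun t => (bump E k).normed volume (x - t)

theorem fcurv_test {R' : ℝ} {k : ℕ} (hk : 1 / ((k : ℝ) + 1) < R - R') {x : E}
    (hx : x ∈ closedBall (0 : E) R') : IsTest (ball (0 : E) R) (fcurvPhi k x) := by
  refine ⟨(bump E k).contDiff_normed.comp (contDiff_const.sub contDiff_id),
    (bump E k).hasCompactSupport_normed.comp_homeomorph (Homeomorph.subLeft x), ?_⟩
  have h1 : Function.support (fcurvPhi k x) ⊆ closedBall x (1 / ((k : ℝ) + 1)) := by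
    intro t ht
    have h' : x - t ∈ Function.support ((bump E k).normed volume) := ht
    rw [(bump E k).support_normed_eq, mem_ball, dist_zero_right] at h'
    rw [mem_closedBall, dist_comm, dist_eq_norm]
    exact h'.le
  refine (closure_minimal h1 isClosed_closedBall).trans fun t ht => ?_
  rw [mem_closedBall] at ht hx
  rw [mem_ball]
  have := dist_triangle t x 0
  linarith

omit [CompleteSpace V] in
theorem fcurv_moll {k : ℕ} {x : E} (hφ : IsTest (ball (0 : E) R) (fcurvPhi k x)) (u : E → V) :
    mB R k u x = ∫ t, fcurvPhi k x t • u t := by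
  unfold mB moll
  rw [convolution_lsmul_swap]
  refine integral_congr_ae (Eventually.of_forall fun t => ?_)
  by_cases ht : t ∈ ball (0 : E) R
  · simp only [indicator_of_mem ht, fcurvPhi]
  · have := hφ.zero_of_notMem ht
    simp only [indicator_of_notMem ht, smul_zero, this, zero_smul]

theorem fcurv_fderiv (h : BM (ball 0 R) K u) {k : ℕ} {x : E}
    (hφ : IsTest (ball (0 : E) R) (fcurvPhi k x)) (e : E) :
    fderiv ℝ (mB R k u) x e = -∫ t, fderiv ℝ (fcurvPhi k x) t e • u t := by
  have sρ : ContDiff ℝ ∞ ((bump E k).normed volume) := (bump E k).contDiff_normed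
  have cρ : HasCompactSupport ((bump E k).normed volume) := (bump E k).hasCompactSupport_normed
  have lu := h.integrable.locallyIntegrable
  have h1 := (cρ.hasFDerivAt_convolution_left (ContinuousLinearMap.lsmul ℝ ℝ)
    (sρ.of_le (by simp)) lu x).fderiv
  unfold mB moll
  rw [h1]
  have i1 := ((cρ.fderiv ℝ).convolutionExists_left
    ((ContinuousLinearMap.lsmul ℝ ℝ : ℝ →L[ℝ] V →L[ℝ] V).precompL E)
    (sρ.continuous_fderiv (by simp)) lu x).integrable_swap
  rw [convolution_eq_swap, ContinuousLinearMap.integral_apply i1, ← integral_neg]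
  have hd : ∀ t, fderiv ℝ (fcurvPhi k x) t e =
      -fderiv ℝ ((bump E k).normed volume) (x - t) e := by
    intro t
    have := ((sρ.differentiable (by simp) (x - t)).hasFDerivAt.comp t
      ((hasFDerivAt_id t).const_sub x)).fderiv
    rw [show fcurvPhi k x = (bump E k).normed volume ∘ HSub.hSub x from rfl, this]
    simp
  refine integral_congr_ae (Eventually.of_forall fun t => ?_)
  by_cases ht : t ∈ ball (0 : E) R
  · simp [indicator_of_mem ht, hd]
  · have := hφ.fderiv_zero_of_notMem ht
    simp [indicator_of_notMem ht, this]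

omit [NormedSpace ℝ V] [CompleteSpace V] in
theorem fcurv_sub {f g : ℕ → V} {a : V} (h1 : Tendsto f atTop (𝓝 a)) (h2 : Tendsto g atTop (𝓝 a)) :
    Tendsto (fun k => f k - g k) atTop (𝓝 0) := by
  simpa using h1.sub h2

end aux

variable {R K : ℝ} {B : E → E →L[ℝ] Mat r}

/-- the curvature of the mollified connection -/
theorem curv_mB (h : BM (ball 0 R) K B) (hf : Flat (ball 0 R) B) {R' : ℝ} (hR : R' < R) :
    ∀ᶠ k in atTop, ∀ x ∈ closedBall (0 : E) R',
      curv (mB R k B) x = cmF (mB R k B x) - mB R k (fun y => cmF (B y)) x := by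
  filter_upwards [(tendsto_one_div_add_atTop_nhds_zero_nat (𝕜 := ℝ)).eventually
    (gt_mem_nhds (sub_pos.2 hR))] with k hk x hx
  have hφ := fcurv_test hk hx
  refine ContinuousLinearMap.ext fun v => ContinuousLinearMap.ext fun w => ?_
  have l1 : LocLp 1 (ball (0 : E) R) B := h.locLp 1
  have l2 : LocLp 1 (ball (0 : E) R) fun y => cmF (B y) := h.cmF.locLp 1
  have e1 : ∀ a b : E, fderiv ℝ (mB R k B) x a b =
      -∫ t, fderiv ℝ (fcurvPhi k x) t a • B t b := by
    intro a b
    rw [fcurv_fderiv h hφ a, _root_.neg_apply,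
      ContinuousLinearMap.integral_apply (l1.integrable_dtest le_rfl hφ a)]
    rfl
  have e2 : mB R k (fun y => cmF (B y)) x v w =
      ∫ t, fcurvPhi k x t • cm (B t v) (B t w) := by
    have i1 := l2.integrable_test le_rfl hφ
    have i2 := (l2.apply v).integrable_test le_rfl hφ
    rw [fcurv_moll hφ, ContinuousLinearMap.integral_apply i1]
    exact ContinuousLinearMap.integral_apply i2 w
  have key := hf _ hφ v w
  rw [integral_sub ((l1.apply w).integrable_dtest le_rfl hφ v)
    ((l1.apply v).integrable_dtest le_rfl hφ w)] at key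
  simp only [smul_neg, integral_neg, neg_neg] at key
  rw [curv_apply, _root_.sub_apply, _root_.sub_apply, cmF_apply, e1, e1,
    e2, ← key]
  abel

theorem curv_mB_le (hK : 0 ≤ K) (h : BM (ball 0 R) K B) (hf : Flat (ball 0 R) B) {R' : ℝ}
    (hR : R' < R) : ∀ᶠ k in atTop, ∀ x ∈ closedBall (0 : E) R', ‖curv (mB R k B) x‖ ≤ 4 * K ^ 2 := by
  filter_upwards [curv_mB h hf hR] with k hk x hx
  rw [hk x hx]
  have h1 := norm_cmF_le (mB R k B x)
  have h2 := mB_norm_le (by positivity) h.cmF k x
  have h3 := pow_le_pow_left₀ (norm_nonneg _) (mB_norm_le hK h k x) 2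
  have h4 := norm_sub_le (cmF (mB R k B x)) (mB R k (fun y => cmF (B y)) x)
  linarith

theorem curv_mB_tendsto (h : BM (ball 0 R) K B) (hf : Flat (ball 0 R) B) :
    ∀ᵐ x, x ∈ ball (0 : E) R → Tendsto (fun k => curv (mB R k B) x) atTop (𝓝 0) := by
  filter_upwards [mB_tendsto h, mB_tendsto h.cmF] with x h1 h2 hx
  have h3 := fcurv_sub (V := E →L[ℝ] E →L[ℝ] Mat r)
    ((continuous_cmF.tendsto _).comp (h1 hx)) (h2 hx)
  refine h3.congr' ?_
  filter_upwards [curv_mB h hf (mem_ball.1 hx)] with k hk
  exact (hk x (mem_closedBall.2 le_rfl)).symm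

end Pool.Agent.PW
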