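import Pool.Agent.P.MP_65ad7c_ag.Base
import Pool.Agent.Lib.Flow.Smooth

open MeasureTheory Set Filter Topology Metric Matrix
open scoped ComplexOrder ContDiff Matrix.Norms.Frobenius RealInnerProductSpace ENNReal
open Pool.Agent.Lib.Sob

noncomputable section
namespace Pool.Agent.PW

open Pool.Agent.Lib.Flow

section pointwise
variable {E : Type} [NormedAddCommGroup E] [InnerProductSpace ℝ E] [FiniteDimensional ℝ E] {r : ℕ}

/-- two-sided bound for left multiplication by `g` -/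
def Bil (L : ℝ) (g : Mat r) : Prop := ∀ Y : Mat r, ‖g * Y‖ ≤ L * ‖Y‖ ∧ ‖Y‖ ≤ L * ‖g * Y‖

/-- the bilinear map `(v, w) ↦ [X v, X w]` -/
def cmF (X : E →L[ℝ] Mat r) : E →L[ℝ] E →L[ℝ] Mat r :=
  (ContinuousLinearMap.mul ℝ (Mat r)).bilinearComp X X -
    ((ContinuousLinearMap.mul ℝ (Mat r)).bilinearComp X X).flip

omit [FiniteDimensional ℝ E] in
@[simp] theorem cmF_apply (X : E →L[ℝ] Mat r) (v w : E) : cmF X v w = cm (X v) (X w) := rfl

/-- curvature of a smooth connection form -/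
def curv (B : E → E →L[ℝ] Mat r) (x : E) : E →L[ℝ] E →L[ℝ] Mat r :=
  fderiv ℝ B x - (fderiv ℝ B x).flip + cmF (B x)

omit [FiniteDimensional ℝ E] in
theorem curv_apply (B : E → E →L[ℝ] Mat r) (x v w : E) :
    curv B x v w = fderiv ℝ B x v w - fderiv ℝ B x w v + cm (B x v) (B x w) := rfl

/-- the connection form along the segment from `0` to `x` -/
def ray (B : C(E, E →L[ℝ] Mat r)) (x : E) : C(J, Mat r) :=
  ⟨fun s => B ((s : ℝ) • x) x, by fun_prop⟩

omit [FiniteDimensional ℝ E] in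
@[simp] theorem ray_apply (B : C(E, E →L[ℝ] Mat r)) (x : E) (s : J) :
    ray B x s = B ((s : ℝ) • x) x := rfl

/-- `P β` solves `u' = -β u`, `u 0 = 1`, and depends holomorphically on `β` -/
def IsPexp (P : C(J, Mat r) → C(J, Mat r)) : Prop :=
  ContDiff ℂ ∞ P ∧ ∀ β, P β + prim (β * P β) = 1

/-- the radial frame -/
def radial (P : C(J, Mat r) → C(J, Mat r)) (B : C(E, E →L[ℝ] Mat r)) (x : E) : Mat r :=
  P (ray B x) 1

/-- solutions of `u' = -β u`, `u 0 = 1` with `β` in `L` stay in the closed set `G` -/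
def OdeInv (L : Submodule ℂ (Mat r)) (G : Set (Mat r)) : Prop :=
  IsClosed G ∧ ∀ β u : ℝ → Mat r, Continuous β → (∀ s, β s ∈ L) → u 0 = 1 →
    (∀ s ∈ Icc (0 : ℝ) 1, HasDerivAt u (-(β s * u s)) s) → u 1 ∈ G

end pointwise

section loc
variable {E : Type} [NormedAddCommGroup E] [InnerProductSpace ℝ E] [FiniteDimensional ℝ E]
  [MeasurableSpace E] [BorelSpace E] {r : ℕ} {V : Type} [NormedAddCommGroup V] [NormedSpace ℝ V]

/-- bounded and measurable on `U` -/
def BM (U : Set E) (K : ℝ) (B : E → V) : Prop :=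
  AEStronglyMeasurable B (volume.restrict U) ∧ ∀ᵐ x, x ∈ U → ‖B x‖ ≤ K

/-- weakly flat -/
def Flat (U : Set E) (B : E → E →L[ℝ] Mat r) : Prop :=
  WCurl U B fun x v w => -cm (B x v) (B x w)

/-- a parallel frame: `dg = -B g` -/
structure Frame (U : Set E) (B : E → E →L[ℝ] Mat r) (g : E → Mat r) : Prop where
  cont : ContinuousOn g U
  unit : ∀ x ∈ U, IsUnit (g x).det
  wd : WD 2 U g fun x => -rmul (B x) (g x)

/-- cut off at the ball and mollify -/
def mB (R : ℝ) (k : ℕ) (B : E → V) : E → V := moll k ((ball (0 : E) R).indicator B)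

end loc

section rot
variable {n r : ℕ} {Γ : Type} [Group Γ]

/-- the rotated connection form of a metric -/
def rotA (p q : ℂ) (h : EC n → Mat r) (D : EC n → EC n →L[ℝ] Mat r) (x : EC n) :
    EC n →L[ℝ] Mat r := rotB p q (mc (h x) (D x))

/-- `ρ'` is the holonomy of the rotated connection, with the global gauge `g` -/
structure KAtlas.Rot (A : KAtlas n Γ) (U : Set (EC n)) (ρ : Γ →* Mat r) (h : A.ι → EC n → Mat r)
    (D : A.ι → EC n → EC n →L[ℝ] Mat r) (p q : ℂ) (ρ' : Γ →* Mat r) (g : A.ι → EC n → Mat r) :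
    Prop where
  fr : ∀ a, Frame U (rotA p q (h a) (D a)) (g a)
  rel : ∀ a b, ∀ x ∈ A.ov U a b, ρ (A.c a b x) * g b (A.T a b x) = g a x * ρ' (A.c a b x)

end rot

end Pool.Agent.PW
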