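import Pool.Agent.P.MP_65ad7c_ag.FRad

open MeasureTheory Set Filter Topology Metric Matrix
open scoped ComplexOrder ContDiff Matrix.Norms.Frobenius RealInnerProductSpace ENNReal
open Pool.Agent.Lib.Sob

noncomputable section
namespace Pool.Agent.PW

open Pool.Agent.Lib.Flow

variable {E : Type} [NormedAddCommGroup E] [InnerProductSpace ℝ E] [FiniteDimensional ℝ E] {r : ℕ}
  {P : C(J, Mat r) → C(J, Mat r)} {B : C(E, E →L[ℝ] Mat r)} {K : ℝ}

omit [FiniteDimensional ℝ E] in
theorem ferr_cont_abs {R : Type} [NormedRing R] [NormedAlgebra ℝ R] :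
    Continuous fun X : E →L[ℝ] R => (ContinuousLinearMap.mul ℝ R).bilinearComp X X -
      ((ContinuousLinearMap.mul ℝ R).bilinearComp X X).flip := by
  have h1 : Continuous fun X : E →L[ℝ] R => (ContinuousLinearMap.mul ℝ R).bilinearComp X X := by
    have e : (fun X : E →L[ℝ] R => (ContinuousLinearMap.mul ℝ R).bilinearComp X X) =
        fun X => (((ContinuousLinearMap.compL ℝ E R R).flip X).comp
          (ContinuousLinearMap.mul ℝ R)).comp X := by
      funext X; ext v w; rfl
    rw [e]
    exact ((((ContinuousLinearMap.compL ℝ E R R).flip).continuous).clm_comp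
      continuous_const).clm_comp continuous_id
  exact h1.sub ((ContinuousLinearMap.flipₗᵢ ℝ E E R).continuous.comp h1)

omit [FiniteDimensional ℝ E] in
theorem ferr_cont_norm {R : Type} [NormedAddCommGroup R] [NormedSpace ℝ R]
    {f : E → E →L[ℝ] E →L[ℝ] R} (hf : Continuous f) (x : E) :
    Continuous fun s : ℝ => ‖f (s • x)‖ :=
  (continuous_norm (E := E →L[ℝ] E →L[ℝ] R)).comp (hf.comp (continuous_id.smul continuous_const))

omit [FiniteDimensional ℝ E] in
theorem ferr_cont_comb {R : Type} [NormedAddCommGroup R] [NormedSpace ℝ R]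
    {f g : E → E →L[ℝ] E →L[ℝ] R} (hf : Continuous f) (hg : Continuous g) :
    Continuous fun x => f x - (f x).flip + g x :=
  (hf.sub ((ContinuousLinearMap.flipₗᵢ ℝ E E R).continuous.comp hf)).add hg

omit [FiniteDimensional ℝ E] in
theorem ferr_cont_cmF : Continuous fun X : E →L[ℝ] Mat r => cmF X := ferr_cont_abs

omit [FiniteDimensional ℝ E] in
theorem continuous_curv (hB : ContDiff ℝ ∞ B) : Continuous (curv B) := by
  have h1 : Continuous (fderiv ℝ B) := hB.continuous_fderiv (by simp)
  exact ferr_cont_comb h1 (ferr_cont_cmF.comp B.continuous)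

omit [FiniteDimensional ℝ E] in
/-- differentiating the integral equation in the parameter -/
theorem ferr_lin {F G : E → C(J, Mat r)} {F' G' : E →L[ℝ] C(J, Mat r)} {x : E}
    (hF : HasFDerivAt F F' x) (hG : HasFDerivAt G G' x) (h : ∀ y, G y + prim (F y * G y) = 1)
    (v : E) : G' v + prim (F x * G' v + F' v * G x) = 0 := by
  have h1 := hG.add ((prim (E := Mat r)).hasFDerivAt.comp x (hF.mul' hG))
  have h2 : HasFDerivAt (G + (prim (E := Mat r)) ∘ (F * G)) (0 : E →L[ℝ] C(J, Mat r)) x := by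
    have e : (G + (prim (E := Mat r)) ∘ (F * G)) = fun _ => 1 := funext h
    rw [e]; exact hasFDerivAt_const _ _
  have h3 := congrArg (fun L : E →L[ℝ] C(J, Mat r) => L v) (h1.unique h2)
  simpa using h3

/-- a product with the solution is the primitive of its derivative -/
theorem ferr_prim {β u : C(J, Mat r)} (h : u + prim (β * u) = 1) {g g' : ℝ → Mat r}
    (hg : ∀ t, HasDerivAt g (g' t) t) (h0 : g 0 = 0) (W W' : C(J, Mat r))
    (hW : ∀ s : J, W s = g s * u s) (hW' : ∀ s : J, W' s = g' s * u s - g s * (β s * u s)) :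
    W = prim W' := by
  let U : ℝ → Mat r := fun t => 1 - ∫ a in (0 : ℝ)..t, ext (β * u) a
  have hU : ∀ t, HasDerivAt U (-ext (β * u) t) t := fun t =>
    ((continuous_ext (β * u)).integral_hasStrictDerivAt 0 t).hasDerivAt.const_sub 1
  have hUu : ∀ s : J, U s = u s := fun s => by
    have := congrArg (fun γ : C(J, Mat r) => γ s) h
    simp only [ContinuousMap.add_apply, prim_apply, ContinuousMap.one_apply] at this
    simp only [U]
    rw [← this]; abel
  refine ContinuousMap.ext fun s => ?_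
  rw [prim_apply, intervalIntegral.integral_eq_sub_of_hasDerivAt (f := fun t => g t * U t)
    (fun t ht => ?_) ((continuous_ext W').intervalIntegrable _ _), hW, h0, hUu, zero_mul, sub_zero]
  rw [uIcc_of_le s.2.1] at ht
  have ht' : t ∈ Icc (0 : ℝ) 1 := ⟨ht.1, ht.2.trans s.2.2⟩
  have h1 := (hg t).mul (hU t)
  rw [ext_of_mem _ ht'] at h1
  rw [ext_of_mem _ ht', hW']
  have e := hUu ⟨t, ht'⟩
  simp only at e
  refine h1.congr_deriv ?_
  rw [e, ContinuousMap.mul_apply, mul_neg, sub_eq_add_neg]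

/-- the defect of the radial frame is controlled by the curvature along the ray -/
theorem radial_err (hP : IsPexp P) (hB : ContDiff ℝ ∞ B) (hK : ∀ x, ‖B x‖ ≤ K) (x : E) :
    ‖fderiv ℝ (radial P B) x + rmul (B x) (radial P B x)‖ ≤
      Real.exp (K * ‖x‖) ^ 2 * ‖(1 : Mat r)‖ * ‖x‖ * ∫ s in (0 : ℝ)..1, ‖curv B (s • x)‖ := by
  have hcc : Continuous fun s : ℝ => ‖curv B (s • x)‖ :=
    ferr_cont_norm (continuous_curv hB) x
  have hI : 0 ≤ ∫ s in (0 : ℝ)..1, ‖curv B (s • x)‖ :=
    intervalIntegral.integral_nonneg zero_le_one fun _ _ => ContinuousLinearMap.opNorm_nonneg _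
  refine ContinuousLinearMap.opNorm_le_bound _ (by positivity) fun v => ?_
  have hF : HasFDerivAt (ray B) (fderiv ℝ (ray B) x) x :=
    ((ray_contDiff hB).differentiable (by simp) x).hasFDerivAt
  have hPd : Differentiable ℝ P := (hP.1.differentiable (by simp)).restrictScalars ℝ
  have hG : HasFDerivAt (fun y => P (ray B y)) (fderiv ℝ (fun y => P (ray B y)) x) x :=
    ((hPd _).comp x hF.differentiableAt).hasFDerivAt
  set Y := fderiv ℝ (fun y => P (ray B y)) x v with hY
  set β := ray B x with hβ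
  set u := P β with hu
  have hlin : Y + prim (β * Y + fderiv ℝ (ray B) x v * u) = 0 :=
    ferr_lin hF hG (fun y => hP.2 _) v
  have hY1 : fderiv ℝ (radial P B) x v = Y 1 := by
    have := ((ContinuousMap.evalCLM ℝ (1 : J) : C(J, Mat r) →L[ℝ] Mat r).hasFDerivAt.comp x
      hG).fderiv
    exact congrArg (fun L : E →L[ℝ] Mat r => L v) this
  have hBd : Differentiable ℝ B := hB.differentiable (by simp)
  have hB' : Continuous (fderiv ℝ B) := hB.continuous_fderiv (by simp)
  have hg : ∀ t : ℝ, HasDerivAt (fun t : ℝ => t • B (t • x) v)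
      (t • fderiv ℝ B (t • x) x v + B (t • x) v) t := fun t => by
    have h1 : HasDerivAt (fun t : ℝ => t • x) x t := by
      simpa using (hasDerivAt_id t).smul_const x
    have h2 := ((hBd (t • x)).hasFDerivAt.comp_hasDerivAt t h1).clm_apply
      (hasDerivAt_const t v)
    have h3 := (hasDerivAt_id t).smul h2
    refine HasDerivAt.congr_deriv h3 ?_
    simp
  let W : C(J, Mat r) := ⟨fun s => ((s : ℝ) • B ((s : ℝ) • x) v) * u s, by fun_prop⟩
  let W' : C(J, Mat r) :=
    ⟨fun s => ((s : ℝ) • fderiv ℝ B ((s : ℝ) • x) x v + B ((s : ℝ) • x) v) * u s -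
      ((s : ℝ) • B ((s : ℝ) • x) v) * (β s * u s), by fun_prop⟩
  have hW : W = prim W' := ferr_prim (hP.2 β) hg (by simp) W W' (fun _ => rfl) (fun _ => rfl)
  let f : C(J, Mat r) := W' - fderiv ℝ (ray B) x v * u + β * W
  have hZ : (Y + W) + prim (β * (Y + W)) = prim f := by
    have e : Y = -prim (β * Y + fderiv ℝ (ray B) x v * u) := eq_neg_of_add_eq_zero_left hlin
    simp only [f, mul_add, map_add, map_sub, ← hW] at e ⊢
    rw [← sub_eq_zero]
    have e2 : Y + W + (prim (β * Y) + prim (β * W)) -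
        (W - prim (fderiv ℝ (ray B) x v * u) + prim (β * W)) =
        Y - -(prim (β * Y) + prim (fderiv ℝ (ray B) x v * u)) := by abel
    rw [e2, ← e, sub_self]
  have hf : ∀ s : J, f s = ((s : ℝ) • curv B ((s : ℝ) • x) x v) * u s := fun s => by
    simp only [f, W, W', ContinuousMap.add_apply, ContinuousMap.sub_apply, ContinuousMap.mul_apply,
      ContinuousMap.coe_mk, ray_fderiv hB, curv_apply, hβ, ray_apply, cm, smul_add, smul_sub,
      add_mul, sub_mul, smul_mul_assoc, mul_smul_comm, mul_assoc]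
    abel
  have hb := gron (norm_ray_le hK x) hZ
  have hu1 : ∀ s : J, ‖u s‖ ≤ Real.exp (K * ‖x‖) * ‖(1 : Mat r)‖ := fun s =>
    (pexp_bil (norm_ray_le hK x) (hP.2 _) s).norm_le
  have hint : ∫ s in (0 : ℝ)..1, ‖ext f s‖ ≤ ∫ s in (0 : ℝ)..1,
      (‖x‖ * ‖v‖ * (Real.exp (K * ‖x‖) * ‖(1 : Mat r)‖)) * ‖curv B (s • x)‖ := by
    refine intervalIntegral.integral_mono_on zero_le_one
      ((continuous_ext f).norm.intervalIntegrable _ _)
      ((continuous_const.mul hcc).intervalIntegrable _ _) fun s hs => ?_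
    rw [ext_of_mem _ hs, hf]
    have h1 : ‖s • curv B (s • x) x v‖ ≤ ‖curv B (s • x)‖ * ‖x‖ * ‖v‖ := by
      rw [norm_smul, Real.norm_eq_abs, abs_of_nonneg hs.1]
      exact (mul_le_of_le_one_left (norm_nonneg _) hs.2).trans
        (ContinuousLinearMap.le_opNorm₂ _ _ _)
    refine (norm_mul_le _ _).trans ((mul_le_mul h1 (hu1 _) (norm_nonneg _) (by positivity)).trans
      (le_of_eq (by ring)))
  rw [intervalIntegral.integral_const_mul] at hint
  have e : (fderiv ℝ (radial P B) x + rmul (B x) (radial P B x)) v = (Y + W) 1 := by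
    rw [_root_.add_apply, hY1, rmul_apply, ContinuousMap.add_apply]
    simp [W, radial, hu, hβ]
  rw [e]
  refine hb.trans ((mul_le_mul_of_nonneg_left hint (Real.exp_pos _).le).trans (le_of_eq ?_))
  ring

end Pool.Agent.PW
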