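import Pool.Agent.P.MP_65ad7c_ag.FDefs

open MeasureTheory Set Filter Topology Metric Matrix
open scoped ComplexOrder ContDiff Matrix.Norms.Frobenius RealInnerProductSpace ENNReal
open Pool.Agent.Lib.Sob

noncomputable section
namespace Pool.Agent.PW

variable {E : Type} [NormedAddCommGroup E] [InnerProductSpace ℝ E] [FiniteDimensional ℝ E]
  [MeasurableSpace E] [BorelSpace E] {r : ℕ} {U : Set E}

variable {V : Type} [NormedAddCommGroup V] [NormedSpace ℝ V] [CompleteSpace V] {R K : ℝ}
  {u : E → V} {B A1 A2 : E → E →L[ℝ] Mat r}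

theorem BM.integrable (h : BM (ball 0 R) K u) : Integrable ((ball (0 : E) R).indicator u) := by
  have : IsFiniteMeasure (volume.restrict (ball (0 : E) R)) :=
    ⟨by simpa using measure_ball_lt_top⟩
  refine (integrable_indicator_iff measurableSet_ball).2 (Integrable.of_bound h.1 K ?_)
  filter_upwards [ae_restrict_mem measurableSet_ball, ae_restrict_of_ae h.2] with x hx h' using h' hx

theorem BM.locLp (n : ℕ) (h : BM U K u) : LocLp n U u := by
  intro K' hK hKU
  have : IsFiniteMeasure (volume.restrict K') := ⟨by simpa using hK.measure_lt_top⟩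
  refine MemLp.of_bound (h.1.mono_measure (Measure.restrict_mono hKU le_rfl)) K ?_
  filter_upwards [ae_restrict_mem hK.measurableSet, ae_restrict_of_ae h.2] with x hx h'
    using h' (hKU hx)

theorem BM.lin (h1 : BM U K A1) (h2 : BM U K A2) (p q : ℂ) :
    BM U (K * (‖p‖ + ‖q‖)) fun x => p • A1 x + q • A2 x := by
  refine ⟨(h1.1.const_smul p).add (h2.1.const_smul q), ?_⟩
  filter_upwards [h1.2, h2.2] with x a b hx
  calc ‖p • A1 x + q • A2 x‖ ≤ ‖p‖ * ‖A1 x‖ + ‖q‖ * ‖A2 x‖ :=
        (norm_add_le _ _).trans (add_le_add (ContinuousLinearMap.opNorm_smul_le p (A1 x))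
          (ContinuousLinearMap.opNorm_smul_le q (A2 x)))
    _ ≤ ‖p‖ * K + ‖q‖ * K := add_le_add (mul_le_mul_of_nonneg_left (a hx) (norm_nonneg _))
        (mul_le_mul_of_nonneg_left (b hx) (norm_nonneg _))
    _ = K * (‖p‖ + ‖q‖) := by ring

omit [FiniteDimensional ℝ E] [MeasurableSpace E] [BorelSpace E] in
theorem norm_cmF_le (X : E →L[ℝ] Mat r) : ‖cmF X‖ ≤ 2 * ‖X‖ ^ 2 := by
  refine ContinuousLinearMap.opNorm_le_bound₂ _ (by positivity) fun v w => ?_
  have a := X.le_opNorm v
  have b := X.le_opNorm w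
  have c : ‖X v‖ * ‖X w‖ ≤ (‖X‖ * ‖v‖) * (‖X‖ * ‖w‖) :=
    mul_le_mul a b (norm_nonneg _) (by positivity)
  rw [cmF_apply, cm]
  have d := norm_mul_le (X v) (X w)
  have e := norm_mul_le (X w) (X v)
  have f := norm_sub_le (X v * X w) (X w * X v)
  nlinarith

omit [FiniteDimensional ℝ E] [MeasurableSpace E] [BorelSpace E] [CompleteSpace V] in
theorem fmoll_cont (f : V →L[ℝ] V →L[ℝ] V) :
    (Continuous fun X : E →L[ℝ] V => f.bilinearComp X X) ∧
      Continuous fun X : E →L[ℝ] V => (f.bilinearComp X X).flip := by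
  have a : Continuous fun X : E →L[ℝ] V => f.comp X := continuous_const.clm_comp continuous_id
  have b : Continuous fun X : E →L[ℝ] V => (f.comp X).flip :=
    (ContinuousLinearMap.flipₗᵢ ℝ E V V).continuous.comp a
  have c : Continuous fun X : E →L[ℝ] V => (f.comp X).flip.comp X := b.clm_comp continuous_id
  have d : Continuous fun X : E →L[ℝ] V => f.bilinearComp X X :=
    (ContinuousLinearMap.flipₗᵢ ℝ E E V).continuous.comp c
  exact ⟨d, (ContinuousLinearMap.flipₗᵢ ℝ E E V).continuous.comp d⟩

omit [FiniteDimensional ℝ E] [MeasurableSpace E] [BorelSpace E] in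
theorem continuous_cmF : Continuous (cmF : (E →L[ℝ] Mat r) → _) := by
  have a := fmoll_cont (E := E) (ContinuousLinearMap.mul ℝ (Mat r))
  exact a.1.sub a.2

theorem BM.cmF (h : BM U K B) : BM U (2 * K ^ 2) fun x => cmF (B x) := by
  refine ⟨continuous_cmF.comp_aestronglyMeasurable h.1, ?_⟩
  filter_upwards [h.2] with x a hx
  refine (norm_cmF_le _).trans ?_
  have := pow_le_pow_left₀ (norm_nonneg _) (a hx) 2
  linarith

theorem mB_contDiff (h : BM (ball 0 R) K u) (k : ℕ) : ContDiff ℝ ∞ (mB R k u) := by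
  exact contDiff_moll k h.integrable.locallyIntegrable

theorem mB_norm_le (hK : 0 ≤ K) (h : BM (ball 0 R) K u) (k : ℕ) (x : E) : ‖mB R k u x‖ ≤ K := by
  have h0 : ∀ᵐ y, ‖(ball (0 : E) R).indicator u y‖ ≤ K := by
    filter_upwards [h.2] with y hy
    by_cases hb : y ∈ ball (0 : E) R
    · rw [indicator_of_mem hb]; exact hy hb
    · rw [indicator_of_notMem hb, norm_zero]; exact hK
  unfold mB moll
  rw [convolution_lsmul_swap]
  have hi : Integrable fun t => (bump E k).normed volume (x - t) * K :=
    ((bump E k).integrable_normed.comp_sub_left x).mul_const K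
  refine (norm_integral_le_of_norm_le hi ?_).trans (le_of_eq ?_)
  · filter_upwards [h0] with y hy
    rw [norm_smul, Real.norm_of_nonneg ((bump E k).nonneg_normed _)]
    exact mul_le_mul_of_nonneg_left hy ((bump E k).nonneg_normed _)
  · rw [integral_mul_const, integral_sub_left_eq_self, (bump E k).integral_normed, one_mul]

theorem mB_tendsto (h : BM (ball 0 R) K u) :
    ∀ᵐ x, x ∈ ball (0 : E) R → Tendsto (fun k => mB R k u x) atTop (𝓝 (u x)) := by
  filter_upwards [ae_tendsto_moll h.integrable.locallyIntegrable] with x hx hb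
  rwa [indicator_of_mem hb] at hx

theorem fmoll_int (h : BM (ball 0 R) K u) (k : ℕ) (x : E) :
    Integrable fun t => (bump E k).normed volume (x - t) • (ball (0 : E) R).indicator u t :=
  ((bump E k).hasCompactSupport_normed.convolutionExists_left (ContinuousLinearMap.lsmul ℝ ℝ)
    (bump E k).continuous_normed h.integrable.locallyIntegrable x).integrable_swap

theorem mB_lin (h1 : BM (ball 0 R) K A1) (h2 : BM (ball 0 R) K A2) (p q : ℂ) (k : ℕ) (x : E) :
    mB R k (fun y => p • A1 y + q • A2 y) x = p • mB R k A1 x + q • mB R k A2 x := by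
  have i1 := fmoll_int h1 k x
  have i2 := fmoll_int h2 k x
  unfold mB moll
  rw [convolution_lsmul_swap, convolution_lsmul_swap, convolution_lsmul_swap, ← integral_smul,
    ← integral_smul]
  refine Eq.trans ?_ (integral_add (i1.smul p) (i2.smul q))
  refine integral_congr_ae (Eventually.of_forall fun t => ?_)
  by_cases hb : t ∈ ball (0 : E) R
  · simp only [indicator_of_mem hb, smul_add, smul_comm _ p, smul_comm _ q]
  · simp only [indicator_of_notMem hb, smul_zero, add_zero]

theorem mB_mem (h : BM (ball 0 R) K B) {S : Submodule ℂ (Mat r)}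
    (hS : ∀ᵐ x, x ∈ ball (0 : E) R → ∀ v, B x v ∈ S) (k : ℕ) (x v : E) : mB R k B x v ∈ S := by
  have i1 := fmoll_int h k x
  unfold mB moll
  rw [convolution_lsmul_swap, ContinuousLinearMap.integral_apply i1]
  by_contra hn
  obtain ⟨f, hf, hf0⟩ := Submodule.exists_dual_map_eq_bot_of_notMem hn inferInstance
  have hz : ∀ y ∈ S, f y = 0 := fun y hy => by
    have : f y ∈ S.map f := Submodule.mem_map_of_mem hy
    rwa [hf0, Submodule.mem_bot] at this
  have i2 := (ContinuousLinearMap.apply ℝ (Mat r) v).integrable_comp i1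
  have key := (LinearMap.toContinuousLinearMap f).integral_comp_comm i2
  refine hf (key.symm.trans (integral_eq_zero_of_ae ?_))
  filter_upwards [hS] with y hy
  refine hz _ ?_
  by_cases hb : y ∈ ball (0 : E) R
  · simp only [indicator_of_mem hb, ContinuousLinearMap.apply_apply, _root_.smul_apply]
    exact S.smul_of_tower_mem _ (hy hb v)
  · simp only [indicator_of_notMem hb, smul_zero, map_zero, S.zero_mem]

end Pool.Agent.PW
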