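import Pool.Agent.P.MP_65ad7c_ag.FCurl
import Pool.Agent.P.MP_65ad7c_ag.FMoll
import Pool.Agent.P.MP_65ad7c_ag.TMul

open MeasureTheory Set Filter Topology Metric Matrix
open scoped ComplexOrder ContDiff Matrix.Norms.Frobenius RealInnerProductSpace ENNReal
open Pool.Agent.Lib.Sob

noncomputable section
namespace Pool.Agent.PW

variable {E : Type} [NormedAddCommGroup E] [InnerProductSpace ℝ E] [FiniteDimensional ℝ E]
  [MeasurableSpace E] [BorelSpace E] {r : ℕ} {U : Set E}

/-- the Maurer-Cartan form is weakly flat -/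
theorem flat_mc (hU : IsOpen U) {h : E → Mat r} {D : E → E →L[ℝ] Mat r} (hw : WD 2 U h D)
    (hb : LBd U h) : Flat U fun x => mc (h x) (D x) := by
  have hi := wd_inv hU hw fun K hK hKU => by
    obtain ⟨C, hC, hx⟩ := hb K hK hKU
    have h0 : 0 < C := by linarith
    exact ⟨r * C, fun x hxK => ⟨((hx x hxK).posDef h0).isUnit.map detMonoidHom,
      (hx x hxK).norm_le h0, (hx x hxK).norm_inv_le h0⟩⟩
  have := wcurl_bilin (ContinuousLinearMap.mul ℝ (Mat r)) hU hi hw.2.1
    (fun _ _ => LocLp.of_continuousOn continuousOn_const) (wcurl_of_wd (by norm_num) hw)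
  refine this.congr (Eventually.of_forall fun _ _ => rfl)
    (Eventually.of_forall fun x _ v w => ?_)
  simp [mc, cm, Matrix.mul_assoc]
  abel

section
variable {n : ℕ} {O : Set (EC n)} {C : ℝ} {h : EC n → Mat r} {D : EC n → EC n →L[ℝ] Mat r}

theorem PHL.lbd (hC : 1 ≤ C) (hp : PHL O C h D) : LBd O h :=
  fun _ _ hK => ⟨C, hC, fun x hx => hp.bd x (hK hx)⟩

theorem PHL.bm (hO : IsOpen O) (hC : 1 ≤ C) (hp : PHL O C h D) :
    BM O (r * C * C) (fun x => mc (h x) (D x)) ∧
      BM O (r * C * C) fun x => (mc (h x) (D x)).comp (IL n) := by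
  have h0 : 0 < C := by linarith
  have m := (locLp_mc hO hp.wd (hp.lbd hC)).aestronglyMeasurable (by norm_num) hO
  have b : ∀ᵐ x, x ∈ O → ‖mc (h x) (D x)‖ ≤ r * C * C := by
    filter_upwards [hp.dbd] with x hx hxO
    refine (ContinuousLinearMap.opNorm_comp_le _ _).trans ?_
    exact mul_le_mul ((ContinuousLinearMap.opNorm_mul_apply_le _ _ _).trans
      ((hp.bd x hxO).norm_inv_le h0)) (hx hxO) (norm_nonneg _) (by positivity)
  have hI : ‖IL n‖ ≤ 1 := ContinuousLinearMap.opNorm_le_bound _ zero_le_one fun v => by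
    simp [norm_smul]
  refine ⟨⟨m, b⟩, ((ContinuousLinearMap.compL ℝ (EC n) (EC n) (Mat r)).flip
    (IL n)).continuous.comp_aestronglyMeasurable m, ?_⟩
  filter_upwards [b] with x hx hxO
  exact (ContinuousLinearMap.opNorm_comp_le _ _).trans
    ((mul_le_of_le_one_right (norm_nonneg _) hI).trans (hx hxO))

/-- the commutator of the rotated form -/
theorem PH1.cm_rotB {A : EC n →L[ℝ] Mat r} (hA : PH1 A) (p q : ℂ) (v w : EC n) :
    cm (rotB p q A v) (rotB p q A w) = (p ^ 2 + q ^ 2) • cm (A v) (A w) := by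
  have h1 := hA v w
  have h2 := hA v (Complex.I • w)
  rw [smul_smul, Complex.I_mul_I, neg_one_smul, map_neg] at h2
  have e : ∀ X Y X' Y' : Mat r, cm (p • X + q • X') (p • Y + q • Y') =
      p ^ 2 • cm X Y + (p * q) • (cm X Y' - cm X' (-Y)) + q ^ 2 • cm X' Y' := fun X Y X' Y' => by
    simp only [cm, Matrix.add_mul, Matrix.mul_add, Matrix.smul_mul, Matrix.mul_smul,
      Matrix.mul_neg, Matrix.neg_mul]
    module
  change cm (p • A v + q • A (Complex.I • v)) (p • A w + q • A (Complex.I • w)) = _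
  rw [e, h1, h2, sub_self, smul_zero, add_zero, add_smul]

/-- the rotated connection is weakly flat on the conic -/
theorem PHL.flat (hO : IsOpen O) (hC : 1 ≤ C) (hp : PHL O C h D) {p q : ℂ}
    (hpq : p ^ 2 - p + q ^ 2 = 0) : Flat O (rotA p q h D) := by
  obtain ⟨b1, b2⟩ := hp.bm hO hC
  have := (flat_mc hO hp.wd (hp.lbd hC)).lin hp.ph2 (b1.locLp 1) (b2.locLp 1)
    (fun v w => (((b1.cmF.locLp 1).apply v).apply w).clm (-ContinuousLinearMap.id ℝ _))
    (fun _ _ => LocLp.of_continuousOn continuousOn_const) p q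
  refine this.congr (Eventually.of_forall fun _ _ => rfl) ?_
  filter_upwards [hp.ph1] with x hx hxO v w
  rw [rotA, (hx hxO).cm_rotB, show p ^ 2 + q ^ 2 = p by linear_combination hpq]
  simp

end

end Pool.Agent.PW
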