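import Pool.Agent.P.MP_65ad7c_ag.Base

open MeasureTheory Set Filter Topology Metric Matrix
open scoped ComplexOrder ContDiff Matrix.Norms.Frobenius RealInnerProductSpace ENNReal
open Pool.Agent.Lib.Sob

noncomputable section
namespace Pool.Agent.PW

open scoped NNReal

theorem flim_unif {X V ι : Type} [PseudoMetricSpace X] [PseudoMetricSpace V] {K : Set X}
    (hK : IsCompact K) {f : ι → X → V} {F : X → V} {L : ℝ≥0} {l : Filter ι} [l.NeBot]
    (hL : ∀ᶠ k in l, LipschitzOnWith L (f k) K)
    (hc : ∀ x ∈ K, Tendsto (fun k => f k x) l (𝓝 (F x))) : TendstoUniformlyOn f F l K := by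
  have hF : ∀ x ∈ K, ∀ y ∈ K, dist (F x) (F y) ≤ L * dist x y := by
    intro x hx y hy
    refine le_of_tendsto ((hc x hx).dist (hc y hy)) ?_
    filter_upwards [hL] with k hk using hk.dist_le_mul x hx y hy
  rw [Metric.tendstoUniformlyOn_iff]
  intro ε hε
  have hδ : 0 < ε / (3 * (L + 1)) := by positivity
  obtain ⟨t, htK, ht, hcov⟩ := finite_cover_balls_of_compact hK hδ
  have h1 : ∀ᶠ k in l, ∀ y ∈ t, dist (f k y) (F y) < ε / 3 := by
    rw [Filter.eventually_all_finite ht]
    intro y hy
    exact (Metric.tendsto_nhds.1 (hc y (htK hy))) _ (by positivity)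
  filter_upwards [h1, hL] with k hk hLk x hx
  obtain ⟨y, hy, hxy⟩ := mem_iUnion₂.1 (hcov hx)
  have hxy' : dist x y < ε / (3 * (L + 1)) := hxy
  have hb : (L : ℝ) * dist x y ≤ ε / 3 := by
    have h2 : (L : ℝ) * dist x y ≤ (L + 1) * (ε / (3 * (L + 1))) :=
      mul_le_mul (by linarith) hxy'.le dist_nonneg (by positivity)
    have h3 : ((L : ℝ) + 1) * (ε / (3 * (L + 1))) = ε / 3 := by field_simp
    linarith
  have e1 := hF x hx y (htK hy)
  have e2 := hLk.dist_le_mul x hx y (htK hy)
  have e3 := hk y hy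
  have e4 := dist_triangle4 (F x) (F y) (f k y) (f k x)
  rw [dist_comm (F y) (f k y), dist_comm (f k y) (f k x)] at e4
  linarith

/-- equi-Lipschitz functions converging along a filter finer than `atTop` -/
theorem filter_subseq {X V : Type} [PseudoMetricSpace X] [PseudoMetricSpace V] {K : Set X}
    (hK : IsCompact K) {f : ℕ → X → V} {F : X → V} {L : ℝ≥0} {l : Filter ℕ} [l.NeBot]
    (hl : l ≤ atTop) (hL : ∀ᶠ k in atTop, LipschitzOnWith L (f k) K)
    (hc : ∀ x ∈ K, Tendsto (fun k => f k x) l (𝓝 (F x))) :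
    ∃ φ : ℕ → ℕ, StrictMono φ ∧ TendstoUniformlyOn (fun j => f (φ j)) F atTop K := by
  have hu := Metric.tendstoUniformlyOn_iff.1 (flim_unif hK (hL.filter_mono hl) hc)
  have hfr : ∀ j : ℕ, ∃ᶠ k in atTop, ∀ x ∈ K, dist (F x) (f k x) < 1 / ((j : ℝ) + 1) := fun j =>
    (hu _ (by positivity)).frequently.filter_mono hl
  obtain ⟨φ, hφ, hφ'⟩ := Filter.extraction_forall_of_frequently hfr
  refine ⟨φ, hφ, Metric.tendstoUniformlyOn_iff.2 fun ε hε => ?_⟩
  filter_upwards [(tendsto_one_div_add_atTop_nhds_zero_nat (𝕜 := ℝ)).eventually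
    (gt_mem_nhds hε)] with j hj x hx
  exact (hφ' j x hx).trans hj

/-- pointwise limits of locally bounded entire functions are entire -/
theorem filter_hol {V : Type} [NormedAddCommGroup V] [NormedSpace ℂ V] [CompleteSpace V]
    {f : ℕ → ℂ → V} {F : ℂ → V} {M : ℂ → ℝ} {l : Filter ℕ} [l.NeBot] (hl : l ≤ atTop)
    (hM : Continuous M) (hf : ∀ k, Differentiable ℂ (f k)) (hb : ∀ k w, ‖f k w‖ ≤ M w)
    (hc : ∀ w, Tendsto (fun k => f k w) l (𝓝 (F w))) : Differentiable ℂ F := by
  intro w
  obtain ⟨B, hB⟩ := (isCompact_closedBall w 2).exists_bound_of_continuousOn hM.continuousOn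
  have hB0 : 0 ≤ B := (norm_nonneg _).trans (hB w (mem_closedBall_self (by norm_num)))
  have hLip : ∀ k, LipschitzOnWith ⟨B, hB0⟩ (f k) (closedBall w 1) := by
    intro k
    refine (convex_closedBall w 1).lipschitzOnWith_of_nnnorm_deriv_le (𝕜 := ℂ)
      (fun x _ => hf k x) fun x hx => ?_
    have h := Complex.norm_deriv_le_of_forall_mem_sphere_norm_le (f := f k) (c := x) (R := 1)
      (C := B) one_pos (hf k).diffContOnCl fun z hz => by
        have hz2 : z ∈ closedBall w 2 := by
          have := dist_triangle z x w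
          rw [mem_sphere] at hz
          rw [mem_closedBall] at hx ⊢
          linarith
        exact (hb k z).trans ((le_abs_self _).trans (hB z hz2))
    rw [div_one] at h
    exact_mod_cast h
  have hu := flim_unif (isCompact_closedBall w 1) (l := l) (Eventually.of_forall hLip)
    fun x _ => hc x
  have hd : DifferentiableOn ℂ F (ball w 1) :=
    (hu.mono ball_subset_closedBall).tendstoLocallyUniformlyOn.differentiableOn
      (Eventually.of_forall fun k => (hf k).differentiableOn) isOpen_ball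
  exact hd.differentiableAt (ball_mem_nhds w one_pos)

end Pool.Agent.PW
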