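import Pool.Agent.P.MP_65ad7c_ag.Base

open MeasureTheory Set Filter Topology Metric Matrix
open scoped ComplexOrder ContDiff Matrix.Norms.Frobenius RealInnerProductSpace ENNReal
open Pool.Agent.Lib.Sob

noncomputable section
namespace Pool.Agent.PW

variable {E : Type} [NormedAddCommGroup E] [InnerProductSpace ℝ E] [FiniteDimensional ℝ E]
  [MeasurableSpace E] [BorelSpace E] {r : ℕ} {U : Set E}

variable {V : Type} [NormedAddCommGroup V]

/-- integrals along rays of bounded functions that tend to zero almost everywhere -/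
theorem ray_tendsto {F : ℕ → E → V} (hF : ∀ k, Continuous (F k)) {R M : ℝ}
    (hb : ∀ᶠ k in atTop, ∀ x ∈ closedBall (0 : E) R, ‖F k x‖ ≤ M)
    (h0 : ∀ᵐ x, x ∈ closedBall (0 : E) R → Tendsto (fun k => F k x) atTop (𝓝 0)) :
    Tendsto (fun k => ∫⁻ x in closedBall (0 : E) R,
      ENNReal.ofReal (∫ s in (0 : ℝ)..1, ‖F k (s • x)‖)) atTop (𝓝 0) := by
  obtain ⟨N, hN, mN, zN⟩ := exists_measurable_superset_of_null (ae_iff.1 h0)
  have h1 : ∀ᵐ s : ℝ, ∀ᵐ x : E, s • x ∉ N := by
    filter_upwards [compl_mem_ae_iff.2 (measure_singleton (0 : ℝ))] with s hs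
    have : volume ((fun x : E => s • x) ⁻¹' N) = 0 := by
      rw [Measure.addHaar_preimage_smul volume hs, zN, mul_zero]
    exact compl_mem_ae_iff.2 this
  have h2 : ∀ᵐ x : E, ∀ᵐ s : ℝ, s • x ∉ N :=
    (Measure.ae_ae_comm (p := fun (x : E) (s : ℝ) => s • x ∉ N)
      ((measurable_snd.smul measurable_fst) mN).compl).2 h1
  have mem : ∀ x ∈ closedBall (0 : E) R, ∀ s ∈ uIoc (0 : ℝ) 1, s • x ∈ closedBall (0 : E) R := by
    intro x hx s hs
    rw [uIoc_of_le zero_le_one] at hs
    rw [mem_closedBall_zero_iff] at hx ⊢
    rw [norm_smul, Real.norm_of_nonneg hs.1.le]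
    exact (mul_le_of_le_one_left (norm_nonneg _) hs.2).trans hx
  have key := tendsto_lintegral_filter_of_dominated_convergence
    (μ := volume.restrict (closedBall (0 : E) R)) (l := atTop)
    (F := fun k x => ENNReal.ofReal (∫ s in (0 : ℝ)..1, ‖F k (s • x)‖)) (f := fun _ => 0)
    (fun _ => ENNReal.ofReal M) (Eventually.of_forall fun k => ?_) ?_ ?_ ?_
  · simpa using key
  · have hk := hF k
    exact (intervalIntegral.continuous_parametric_intervalIntegral_of_continuous'
      (f := fun (x : E) (s : ℝ) => ‖F k (s • x)‖) (by fun_prop) 0 1).measurable.ennreal_ofReal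
  · filter_upwards [hb] with k hk
    filter_upwards [ae_restrict_mem measurableSet_closedBall] with x hx
    refine ENNReal.ofReal_le_ofReal ((le_abs_self _).trans ?_)
    have := intervalIntegral.norm_integral_le_of_norm_le_const (a := 0) (b := 1) (C := M)
      (f := fun s => ‖F k (s • x)‖) fun s hs => by
        rw [norm_norm]; exact hk _ (mem x hx s hs)
    simpa using this
  · rw [setLIntegral_const]
    exact ENNReal.mul_ne_top ENNReal.ofReal_ne_top measure_closedBall_lt_top.ne
  · filter_upwards [ae_restrict_mem measurableSet_closedBall, ae_restrict_of_ae h2] with x hx hx2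
    have := intervalIntegral.tendsto_integral_filter_of_dominated_convergence (l := atTop)
      (μ := volume) (a := 0) (b := 1) (F := fun k s => ‖F k (s • x)‖) (f := fun _ => (0 : ℝ))
      (fun _ => M) (Eventually.of_forall fun k => ?_) ?_ intervalIntegrable_const ?_
    · simpa using ENNReal.tendsto_ofReal this
    · have hk := hF k
      exact Continuous.aestronglyMeasurable (by fun_prop)
    · filter_upwards [hb] with k hk
      exact Eventually.of_forall fun s hs => by
        rw [norm_norm]; exact hk _ (mem x hx s hs)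
    · filter_upwards [hx2] with s hs hs'
      by_contra h
      exact hs (hN fun h' => h (by simpa using (h' (mem x hx s hs')).norm))

end Pool.Agent.PW
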