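import Pool.Agent.P.MP_65ad7c_ag.FMoll

open MeasureTheory Set Filter Topology Metric Matrix
open scoped ComplexOrder ContDiff Matrix.Norms.Frobenius RealInnerProductSpace ENNReal
open Pool.Agent.Lib.Sob

noncomputable section
namespace Pool.Agent.PW

variable {E : Type} [NormedAddCommGroup E] [InnerProductSpace ℝ E] [FiniteDimensional ℝ E]
  [MeasurableSpace E] [BorelSpace E] {r : ℕ} {U : Set E}

omit [FiniteDimensional ℝ E] [MeasurableSpace E] [BorelSpace E] in
theorem fwd_cont : Continuous fun p : (E →L[ℝ] Mat r) × Mat r => rmul p.1 p.2 :=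
  (((ContinuousLinearMap.mul ℝ (Mat r)).flip.continuous).comp continuous_snd).clm_comp
    continuous_fst

omit [FiniteDimensional ℝ E] [MeasurableSpace E] [BorelSpace E] in
theorem fwd_norm {X : E →L[ℝ] Mat r} {P : Mat r} {K M : ℝ} (hX : ‖X‖ ≤ K) (hP : ‖P‖ ≤ M) :
    ‖rmul X P‖ ≤ K * M := by
  have hK := (norm_nonneg _).trans hX
  have hM := (norm_nonneg _).trans hP
  refine ContinuousLinearMap.opNorm_le_bound _ (mul_nonneg hK hM) fun v => ?_
  rw [rmul_apply]
  calc ‖X v * P‖ ≤ ‖X v‖ * ‖P‖ := norm_mul_le _ _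
    _ ≤ K * ‖v‖ * M := mul_le_mul ((X.le_opNorm v).trans
        (mul_le_mul_of_nonneg_right hX (norm_nonneg _))) hP (norm_nonneg _) (by positivity)
    _ = K * M * ‖v‖ := by ring

omit [FiniteDimensional ℝ E] [MeasurableSpace E] [BorelSpace E] in
theorem fwd_tendsto {X : ℕ → E →L[ℝ] Mat r} {P : ℕ → Mat r} {X0 : E →L[ℝ] Mat r} {P0 : Mat r}
    (h1 : Tendsto X atTop (𝓝 X0)) (h2 : Tendsto P atTop (𝓝 P0)) :
    Tendsto (fun j => rmul X0 P0 - rmul (X j) (P j)) atTop (𝓝 0) := by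
  have h5 := (fwd_cont.tendsto (X0, P0)).comp (h1.prodMk_nhds h2)
  rw [Function.comp_def] at h5
  dsimp only at h5
  have h6 := (tendsto_const_nhds (x := rmul X0 P0)).sub h5
  rwa [sub_self] at h6

omit [FiniteDimensional ℝ E] [BorelSpace E] in
theorem fwd_meas {μ : Measure E} {X : E → E →L[ℝ] Mat r} {P : E → Mat r}
    (h1 : AEStronglyMeasurable X μ) (h2 : AEStronglyMeasurable P μ) :
    AEStronglyMeasurable (fun x => rmul (X x) (P x)) μ :=
  fwd_cont.comp_aestronglyMeasurable (f := fun x => (X x, P x)) (h1.prodMk h2)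

theorem fwd_dom {V : Type} [NormedAddCommGroup V] {K : Set E} (hK : IsCompact K)
    {f : ℕ → E → V} {c : ℝ} (hm : ∀ k, AEStronglyMeasurable (f k) (volume.restrict K))
    (hb : ∀ k, ∀ᵐ x, x ∈ K → ‖f k x‖ ≤ c)
    (ht : ∀ᵐ x, x ∈ K → Tendsto (fun k => f k x) atTop (𝓝 0)) :
    Tendsto (fun k => ∫⁻ x in K, ‖f k x‖ₑ) atTop (𝓝 0) := by
  have h := tendsto_lintegral_of_dominated_convergence' (μ := volume.restrict K)
    (F := fun k x => ‖f k x‖ₑ) (f := fun _ => 0) (fun _ => ENNReal.ofReal c)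
    (fun k => (hm k).enorm)
    (fun k => ((ae_restrict_iff' hK.measurableSet).2 (hb k)).mono fun x hx => enorm_le_ofReal hx)
    (by
      rw [lintegral_const, Measure.restrict_apply_univ]
      exact ENNReal.mul_ne_top ENNReal.ofReal_ne_top hK.measure_lt_top.ne)
    (((ae_restrict_iff' hK.measurableSet).2 ht).mono fun x hx => by simpa using hx.enorm)
  simpa using h

/-- passing to the limit in `dg = -B g` -/
theorem wd_limit {R K M : ℝ} {B : E → E →L[ℝ] Mat r} (hB : BM (ball 0 R) K B)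
    {Bk : ℕ → E → E →L[ℝ] Mat r} {gk : ℕ → E → Mat r} {g : E → Mat r}
    (hBc : ∀ k, Continuous (Bk k)) (hBb : ∀ k x, ‖Bk k x‖ ≤ K)
    (hBt : ∀ᵐ x, x ∈ ball (0 : E) R → Tendsto (fun k => Bk k x) atTop (𝓝 (B x)))
    (hg : ∀ k, ContDiff ℝ 1 (gk k)) (hgb : ∀ k, ∀ x ∈ ball (0 : E) R, ‖gk k x‖ ≤ M)
    (herr : ∀ R' < R, Tendsto (fun k => ∫⁻ x in closedBall (0 : E) R',
      ‖fderiv ℝ (gk k) x + rmul (Bk k x) (gk k x)‖ₑ) atTop (𝓝 0))
    (hu : ∀ R' < R, ∃ φ : ℕ → ℕ, StrictMono φ ∧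
      TendstoUniformlyOn (fun j => gk (φ j)) g atTop (closedBall 0 R')) :
    ContinuousOn g (ball 0 R) ∧ WD 2 (ball 0 R) g fun x => -rmul (B x) (g x) := by
  have hpt : ∀ R' < R, ∃ φ : ℕ → ℕ, StrictMono φ ∧ ∀ x ∈ closedBall (0 : E) R',
      Tendsto (fun j => gk (φ j) x) atTop (𝓝 (g x)) := fun R' h => by
    obtain ⟨φ, h1, h2⟩ := hu R' h
    exact ⟨φ, h1, fun x hx => h2.tendsto_at hx⟩
  have hc : ContinuousOn g (ball 0 R) := fun x hx => by
    obtain ⟨R', h1, h2⟩ := exists_between (mem_ball_zero_iff.1 hx)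
    obtain ⟨φ, -, h3⟩ := hu R' h2
    have h4 : ContinuousOn g (closedBall 0 R') :=
      h3.continuousOn (Frequently.of_forall fun j => (hg _).continuous.continuousOn)
    exact (h4.continuousAt (closedBall_mem_nhds_of_mem (mem_ball_zero_iff.2 h1))).continuousWithinAt
  have hM : ∀ x ∈ ball (0 : E) R, ‖g x‖ ≤ M := fun x hx => by
    obtain ⟨φ, -, h3⟩ := hpt ‖x‖ (mem_ball_zero_iff.1 hx)
    exact le_of_tendsto' (h3 x (mem_closedBall_zero_iff.2 le_rfl)).norm fun j => hgb _ x hx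
  have hgm : AEStronglyMeasurable g (volume.restrict (ball (0 : E) R)) :=
    hc.aestronglyMeasurable measurableSet_ball
  have hD : BM (ball 0 R) (K * M) fun x => rmul (B x) (g x) :=
    ⟨fwd_meas hB.1 hgm,
      hB.2.mono fun x hx hxR => fwd_norm (hx hxR) (hM x hxR)⟩
  refine ⟨hc, WD.of_tendsto_one (by norm_num) (LocLp.of_continuousOn hc) (hD.locLp 2).neg
    fun L hL hLR => ?_⟩
  obtain ⟨R', h1, h2⟩ := exists_lt_subset_ball hL.isClosed hLR
  have h3 : L ⊆ closedBall 0 R' := h2.trans ball_subset_closedBall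
  obtain ⟨φ, hφ, h4⟩ := hpt R' h1
  have hle : volume.restrict L ≤ volume.restrict (ball (0 : E) R) :=
    Measure.restrict_mono hLR le_rfl
  refine ⟨univ, subset_univ _, fun j => gk (φ j), fun j => fderiv ℝ (gk (φ j)),
    fun j => WD.of_contDiff (by norm_num) (hg _), ?_, ?_⟩
  · refine fwd_dom (c := M + M) hL
      (fun j => (hg _).continuous.aestronglyMeasurable.sub (hgm.mono_measure hle))
      (fun j => Eventually.of_forall fun x hx =>
        (norm_sub_le _ _).trans (add_le_add (hgb _ x (hLR hx)) (hM x (hLR hx))))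
      (Eventually.of_forall fun x hx => tendsto_sub_nhds_zero_iff.2 (h4 x (h3 hx)))
  · have hk : ∀ j, Continuous fun x => rmul (Bk (φ j) x) (gk (φ j) x) := fun j =>
      fwd_cont.comp (f := fun x => (Bk (φ j) x, gk (φ j) x)) ((hBc _).prodMk (hg _).continuous)
    have t1 := (herr R' h1).comp hφ.tendsto_atTop
    have t2 := fwd_dom (c := K * M + K * M) hL
      (f := fun j x => rmul (B x) (g x) - rmul (Bk (φ j) x) (gk (φ j) x))
      (fun j => (hD.1.mono_measure hle).sub (hk j).aestronglyMeasurable)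
      (fun j => hD.2.mono fun x hx hxL => (norm_sub_le _ _).trans
        (add_le_add (hx (hLR hxL)) (fwd_norm (hBb _ x) (hgb _ x (hLR hxL)))))
      (hBt.mono fun x hx hxL =>
        fwd_tendsto ((hx (hLR hxL)).comp hφ.tendsto_atTop) (h4 x (h3 hxL)))
    have t3 := t1.add t2
    rw [add_zero] at t3
    refine tendsto_of_tendsto_of_tendsto_of_le_of_le tendsto_const_nhds t3
      (fun _ => zero_le) fun j => ?_
    have hm : AEMeasurable (fun x => ‖fderiv ℝ (gk (φ j)) x + rmul (Bk (φ j) x) (gk (φ j) x)‖ₑ)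
        (volume.restrict L) :=
      ((((hg _).continuous_fderiv (by norm_num)).add (hk j)).aestronglyMeasurable).enorm
    refine le_trans ?_ (add_le_add (lintegral_mono_set h3) le_rfl)
    rw [← lintegral_add_left' hm]
    refine lintegral_mono fun x => ?_
    have e : fderiv ℝ (gk (φ j)) x - -rmul (B x) (g x) =
        (fderiv ℝ (gk (φ j)) x + rmul (Bk (φ j) x) (gk (φ j) x)) +
          (rmul (B x) (g x) - rmul (Bk (φ j) x) (gk (φ j) x)) := by abel
    simp only [e, ← ofReal_norm]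
    rw [← ENNReal.ofReal_add (norm_nonneg _) (norm_nonneg _)]
    exact ENNReal.ofReal_le_ofReal (norm_add_le _ _)

end Pool.Agent.PW
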