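import Pool.Agent.P.MP_65ad7c_ag.FOde
import Pool.Agent.P.MP_65ad7c_ag.FErr
import Pool.Agent.P.MP_65ad7c_ag.FCurv
import Pool.Agent.P.MP_65ad7c_ag.FRay
import Pool.Agent.P.MP_65ad7c_ag.FLim
import Pool.Agent.P.MP_65ad7c_ag.FWd

open MeasureTheory Set Filter Topology Metric Matrix
open scoped ComplexOrder ContDiff Matrix.Norms.Frobenius RealInnerProductSpace ENNReal
open Pool.Agent.Lib.Sob

noncomputable section
namespace Pool.Agent.PW

variable {E : Type} [NormedAddCommGroup E] [InnerProductSpace ℝ E] [FiniteDimensional ℝ E]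
  [MeasurableSpace E] [BorelSpace E] {r : ℕ} {U : Set E}

open Pool.Agent.Lib.Flow

theorem fgauge_frame {R K : ℝ} (hK : 0 ≤ K) {B : E → E →L[ℝ] Mat r} (hB : BM (ball 0 R) K B)
    (hf : Flat (ball 0 R) B) {P : C(J, Mat r) → C(J, Mat r)} (hP : IsPexp P)
    {M : ℕ → C(E, E →L[ℝ] Mat r)} (hM : ∀ k x, M k x = mB R k B x) {l : Filter ℕ} [l.NeBot]
    (hl : l ≤ atTop) {g : E → Mat r}
    (hg : ∀ x, Tendsto (fun k => radial P (M k) x) l (𝓝 (g x))) :
    ContinuousOn g (ball 0 R) ∧ WD 2 (ball 0 R) g fun x => -rmul (B x) (g x) := by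
  have hM' : ∀ k, (M k : E → E →L[ℝ] Mat r) = mB R k B := fun k => funext (hM k)
  have hs : ∀ k, ContDiff ℝ ∞ (M k) := fun k => by rw [hM']; exact mB_contDiff hB k
  have hb : ∀ k x, ‖M k x‖ ≤ K := fun k x => by rw [hM]; exact mB_norm_le hK hB k x
  set N : ℝ := ‖(1 : Mat r)‖ with hN
  have hN0 : 0 ≤ N := norm_nonneg _
  have hgb : ∀ k (x : E) (ρ : ℝ), ‖x‖ ≤ ρ → ‖radial P (M k) x‖ ≤ Real.exp (K * ρ) * N :=
    fun k x ρ hx => (radial_bil hP (hb k) x).norm_le.trans
      (mul_le_mul_of_nonneg_right (Real.exp_le_exp.2 (mul_le_mul_of_nonneg_left hx hK)) hN0)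
  have herr : ∀ k (x : E) (ρ : ℝ), ‖x‖ ≤ ρ →
      ‖fderiv ℝ (radial P (M k)) x + rmul (M k x) (radial P (M k) x)‖ ≤
        Real.exp (K * ρ) ^ 2 * N * ρ * ∫ s in (0 : ℝ)..1, ‖curv (M k) (s • x)‖ := by
    intro k x ρ hx
    refine (radial_err hP (hs k) (hb k) x).trans ?_
    have h0 : 0 ≤ ∫ s in (0 : ℝ)..1, ‖curv (M k) (s • x)‖ :=
      intervalIntegral.integral_nonneg zero_le_one fun s _ => norm_nonneg (curv (M k) (s • x))
    have h1 : Real.exp (K * ‖x‖) ≤ Real.exp (K * ρ) :=
      Real.exp_le_exp.2 (mul_le_mul_of_nonneg_left hx hK)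
    gcongr
  refine wd_limit (K := K) (M := Real.exp (K * R) * N) (Bk := fun k => M k)
    (gk := fun k => radial P (M k)) hB (fun k => (M k).continuous) hb ?_
    (fun k => radial_contDiff hP (hs k))
    (fun k x hx => hgb k x R (mem_ball_zero_iff.1 hx).le) ?_ ?_
  · simpa only [hM] using mB_tendsto hB
  · intro R' hR'
    have h1 := ray_tendsto (F := fun k => curv (M k)) (fun k => continuous_curv (hs k))
      (R := R') (M := 4 * K ^ 2) (by simpa only [hM'] using curv_mB_le hK hB hf hR') (by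
        filter_upwards [curv_mB_tendsto hB hf] with x hx hx'
        simpa only [hM'] using hx (closedBall_subset_ball hR' hx'))
    have h2 := ENNReal.Tendsto.const_mul
      (a := ENNReal.ofReal (Real.exp (K * R') ^ 2 * N * R')) h1 (Or.inr ENNReal.ofReal_ne_top)
    rw [mul_zero] at h2
    refine tendsto_of_tendsto_of_tendsto_of_le_of_le tendsto_const_nhds h2
      (fun _ => zero_le) fun k => ?_
    dsimp only
    rw [← lintegral_const_mul' _ _ ENNReal.ofReal_ne_top]
    refine setLIntegral_mono' measurableSet_closedBall fun x hx => ?_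
    have hx' := mem_closedBall_zero_iff.1 hx
    have hR0 : 0 ≤ R' := (norm_nonneg x).trans hx'
    rw [← ENNReal.ofReal_mul (by positivity)]
    exact enorm_le_ofReal (herr k x R' hx')
  · intro R' hR'
    set L : ℝ := Real.exp (K * R') ^ 2 * N * |R'| * (4 * K ^ 2) + K * (Real.exp (K * R') * N)
      with hL
    have hL0 : 0 ≤ L := by positivity
    refine filter_subseq (isCompact_closedBall 0 R') (L := ⟨L, hL0⟩) hl ?_ fun x _ => hg x
    filter_upwards [curv_mB_le hK hB hf hR'] with k hk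
    refine (convex_closedBall (0 : E) R').lipschitzOnWith_of_nnnorm_fderiv_le (𝕜 := ℝ)
      (fun x _ => (radial_contDiff hP (hs k)).differentiable one_ne_zero x) fun x hx => ?_
    have hx' := mem_closedBall_zero_iff.1 hx
    have hR0 : 0 ≤ R' := (norm_nonneg x).trans hx'
    change ‖fderiv ℝ (radial P (M k)) x‖ ≤ L
    have h1 : ∫ s in (0 : ℝ)..1, ‖curv (M k) (s • x)‖ ≤ 4 * K ^ 2 := by
      have : ∫ s in (0 : ℝ)..1, ‖curv (M k) (s • x)‖ ≤ ∫ _ in (0 : ℝ)..1, 4 * K ^ 2 := by
        have hc : Continuous fun s : ℝ => curv (M k) (s • x) :=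
          (continuous_curv (hs k)).comp (by fun_prop)
        have hc' := Continuous.norm (E := E →L[ℝ] E →L[ℝ] Mat r) hc
        refine intervalIntegral.integral_mono_on zero_le_one (hc'.intervalIntegrable _ _)
          (continuous_const.intervalIntegrable _ _) fun s hs' => ?_
        rw [hM']
        refine hk _ (mem_closedBall_zero_iff.2 ?_)
        rw [norm_smul, Real.norm_of_nonneg hs'.1]
        exact (mul_le_of_le_one_left (norm_nonneg _) hs'.2).trans hx'
      simpa using this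
    have h2 : ‖rmul (M k x) (radial P (M k) x)‖ ≤ K * (Real.exp (K * R') * N) := by
      refine ContinuousLinearMap.opNorm_le_bound _ (by positivity) fun v => ?_
      rw [rmul_apply]
      calc ‖M k x v * radial P (M k) x‖ ≤ ‖M k x v‖ * ‖radial P (M k) x‖ := norm_mul_le _ _
        _ ≤ K * ‖v‖ * (Real.exp (K * R') * N) :=
          mul_le_mul (((M k x).le_opNorm v).trans
            (mul_le_mul_of_nonneg_right (hb k x) (norm_nonneg _))) (hgb k x R' hx')
            (norm_nonneg _) (by positivity)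
        _ = _ := by ring
    have h3 := (herr k x R' hx').trans (mul_le_mul_of_nonneg_left h1 (by positivity))
    calc ‖fderiv ℝ (radial P (M k)) x‖
        = ‖(fderiv ℝ (radial P (M k)) x + rmul (M k x) (radial P (M k) x)) -
            rmul (M k x) (radial P (M k) x)‖ := by rw [add_sub_cancel_right]
      _ ≤ _ := (norm_sub_le _ _).trans (add_le_add h3 h2)
      _ = L := by rw [hL, abs_of_nonneg hR0]

/-- parallel frames of `p A1 + q A2`, holomorphic in the parameters -/
theorem exists_frames {R K : ℝ} (hK : 0 ≤ K) {A1 A2 : E → E →L[ℝ] Mat r}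
    (h1 : BM (ball 0 R) K A1) (h2 : BM (ball 0 R) K A2) :
    ∃ g : ℂ → ℂ → E → Mat r, (∀ p q, g p q 0 = 1) ∧
      (∀ p q, ∀ x ∈ ball (0 : E) R, Bil (Real.exp (K * (‖p‖ + ‖q‖) * R)) (g p q x)) ∧
      (∀ p q : ℂ → ℂ, Differentiable ℂ p → Differentiable ℂ q → ∀ x,
        Differentiable ℂ fun w => g (p w) (q w) x) ∧
      (∀ p q, Flat (ball 0 R) (fun x => p • A1 x + q • A2 x) →
        Frame (ball 0 R) (fun x => p • A1 x + q • A2 x) (g p q)) ∧
      ∀ (S : Submodule ℂ (Mat r)) (G : Set (Mat r)), OdeInv S G →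
        (∀ᵐ x, x ∈ ball (0 : E) R → ∀ v, A1 x v ∈ S ∧ A2 x v ∈ S) → ∀ p q x, g p q x ∈ G := by
  obtain ⟨P, hP⟩ := exists_pexp r
  let l : Ultrafilter ℕ := hyperfilter ℕ
  have hl : (l : Filter ℕ) ≤ atTop := Nat.hyperfilter_le_atTop
  let M1 : ℕ → C(E, E →L[ℝ] Mat r) := fun k => ⟨mB R k A1, (mB_contDiff h1 k).continuous⟩
  let M2 : ℕ → C(E, E →L[ℝ] Mat r) := fun k => ⟨mB R k A2, (mB_contDiff h2 k).continuous⟩
  have hM : ∀ (p q : ℂ) k x, (p • M1 k + q • M2 k) x = mB R k (fun y => p • A1 y + q • A2 y) x :=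
    fun p q k x => (mB_lin h1 h2 p q k x).symm
  have hb : ∀ (p q : ℂ) k x, ‖(p • M1 k + q • M2 k) x‖ ≤ K * (‖p‖ + ‖q‖) := fun p q k x => by
    rw [hM]; exact mB_norm_le (by positivity) (h1.lin h2 p q) k x
  have hbil : ∀ (p q : ℂ) k x,
      Bil (Real.exp (K * (‖p‖ + ‖q‖) * ‖x‖)) (radial P (p • M1 k + q • M2 k) x) :=
    fun p q k x => radial_bil hP (hb p q k) x
  have hlim : ∀ (p q : ℂ) x, ∃ y,
      Tendsto (fun k => radial P (p • M1 k + q • M2 k) x) l (𝓝 y) := by
    intro p q x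
    have : ProperSpace (Mat r) := FiniteDimensional.proper ℝ (Mat r)
    obtain ⟨y, -, hy⟩ := (isCompact_closedBall (0 : Mat r)
      (Real.exp (K * (‖p‖ + ‖q‖) * ‖x‖) * ‖(1 : Mat r)‖)).ultrafilter_le_nhds
      (l.map fun k => radial P (p • M1 k + q • M2 k) x) (by
        rw [Ultrafilter.coe_map, le_principal_iff, mem_map]
        exact Eventually.of_forall fun k => mem_closedBall_zero_iff.2 (hbil p q k x).norm_le)
    exact ⟨y, hy⟩
  choose g hg using hlim
  have hgb : ∀ p q, ∀ x ∈ ball (0 : E) R, Bil (Real.exp (K * (‖p‖ + ‖q‖) * R)) (g p q x) :=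
    fun p q x hx => (isClosed_bil _).mem_of_tendsto (hg p q x) (Eventually.of_forall fun k =>
      (hbil p q k x).mono (Real.exp_le_exp.2
        (mul_le_mul_of_nonneg_left (mem_ball_zero_iff.1 hx).le (by positivity))))
  refine ⟨g, fun p q => ?_, hgb, fun p q hp hq x => ?_, fun p q hf => ?_,
    fun S G hG hS p q x => ?_⟩
  · have := hg p q 0
    simp only [radial_zero hP] at this
    exact tendsto_nhds_unique this tendsto_const_nhds
  · refine filter_hol (f := fun k w => radial P (p w • M1 k + q w • M2 k) x)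
      (M := fun w => Real.exp (K * (‖p w‖ + ‖q w‖) * ‖x‖) * ‖(1 : Mat r)‖) hl ?_
      (fun k => radial_hol hP _ _ hp hq x) (fun k w => (hbil _ _ k x).norm_le) fun w => hg _ _ x
    have := hp.continuous
    have := hq.continuous
    fun_prop
  · obtain ⟨hc, hw⟩ := fgauge_frame (by positivity) (h1.lin h2 p q) hf hP (hM p q) hl (hg p q)
    exact ⟨hc, fun x hx => (hgb p q x hx).isUnit, hw⟩
  · refine hG.1.mem_of_tendsto (hg p q x) (Eventually.of_forall fun k =>
      radial_mem hP hG (fun y v => ?_) x)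
    exact S.add_mem
      (S.smul_mem p (mB_mem h1 (by filter_upwards [hS] with z hz hz' v using (hz hz' v).1) k y v))
      (S.smul_mem q (mB_mem h2 (by filter_upwards [hS] with z hz hz' v using (hz hz' v).2) k y v))

end Pool.Agent.PW
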