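import Pool.Agent.P.MP_65ad7c_ag.FDefs

open MeasureTheory Set Filter Topology Metric Matrix
open scoped ComplexOrder ContDiff Matrix.Norms.Frobenius RealInnerProductSpace ENNReal
open Pool.Agent.Lib.Sob

noncomputable section
namespace Pool.Agent.PW

open Pool.Agent.Lib.Flow

variable {r : ℕ} {β u Z f : C(J, Mat r)} {g g' : Mat r} {K L L' : ℝ}

theorem Bil.mono (h : Bil L g) (hL : L ≤ L') : Bil L' g := fun Y =>
  ⟨(h Y).1.trans (mul_le_mul_of_nonneg_right hL (norm_nonneg _)),
    (h Y).2.trans (mul_le_mul_of_nonneg_right hL (norm_nonneg _))⟩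

theorem bil_one (hL : 1 ≤ L) : Bil L (1 : Mat r) := by
  intro Y
  rw [Matrix.one_mul]
  exact ⟨le_mul_of_one_le_left (norm_nonneg _) hL, le_mul_of_one_le_left (norm_nonneg _) hL⟩

theorem Bil.mul (h : Bil L g) (h' : Bil L' g') (hL : 0 ≤ L) (hL' : 0 ≤ L') :
    Bil (L * L') (g * g') := by
  intro Y
  rw [Matrix.mul_assoc]
  constructor
  · refine (h (g' * Y)).1.trans ?_
    rw [mul_assoc]
    exact mul_le_mul_of_nonneg_left (h' Y).1 hL
  · refine (h' Y).2.trans ?_
    rw [mul_comm L L', mul_assoc]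
    exact mul_le_mul_of_nonneg_left (h (g' * Y)).2 hL'

theorem Bil.isUnit (h : Bil L g) : IsUnit g.det := by
  have hi : Function.Injective (LinearMap.mulLeft ℂ g) := by
    rw [← LinearMap.ker_eq_bot, LinearMap.ker_eq_bot']
    intro Y hY
    have h1 := (h Y).2
    rw [LinearMap.mulLeft_apply] at hY
    rw [hY, norm_zero, mul_zero] at h1
    exact norm_le_zero_iff.1 h1
  obtain ⟨Y, hY⟩ := LinearMap.injective_iff_surjective.1 hi 1
  exact Matrix.isUnit_det_of_right_inverse hY

theorem Bil.inv (h : Bil L g) : Bil L g⁻¹ := by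
  intro Y
  have h1 := h (g⁻¹ * Y)
  rw [← Matrix.mul_assoc, Matrix.mul_nonsing_inv _ h.isUnit, Matrix.one_mul] at h1
  exact ⟨h1.2, h1.1⟩

theorem Bil.norm_le (h : Bil L g) : ‖g‖ ≤ L * ‖(1 : Mat r)‖ := by
  simpa using (h 1).1

theorem bil_of_norm (hg : g' * g = 1) (h : ‖g‖ ≤ L) (h' : ‖g'‖ ≤ L) : Bil L g := by
  intro Y
  refine ⟨(norm_mul_le _ _).trans (mul_le_mul_of_nonneg_right h (norm_nonneg _)), ?_⟩
  have h1 : Y = g' * (g * Y) := by rw [← Matrix.mul_assoc, hg, Matrix.one_mul]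
  calc ‖Y‖ = ‖g' * (g * Y)‖ := by rw [← h1]
    _ ≤ ‖g'‖ * ‖g * Y‖ := norm_mul_le _ _
    _ ≤ L * ‖g * Y‖ := mul_le_mul_of_nonneg_right h' (norm_nonneg _)

theorem isClosed_bil (L : ℝ) : IsClosed {g : Mat r | Bil L g} := by
  unfold Bil
  rw [Set.ofPred_forall]
  refine isClosed_iInter fun Y => ?_
  have hc : Continuous fun g : Mat r => ‖g * Y‖ := (continuous_id.mul continuous_const).norm
  rw [Set.ofPred_and]
  exact (isClosed_le hc continuous_const).inter
    (isClosed_le continuous_const (continuous_const.mul hc))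

theorem fgron_ext (γ : C(J, Mat r)) (s : J) : ext γ s = γ s := ext_of_mem γ s.2

/-- integral form of the Gronwall inequality -/
theorem gron (hK : ∀ s, ‖β s‖ ≤ K) (h : Z + prim (β * Z) = prim f) :
    ‖Z 1‖ ≤ Real.exp K * ∫ s in (0 : ℝ)..1, ‖ext f s‖ := by
  have hK0 : 0 ≤ K := (norm_nonneg _).trans (hK 0)
  have cf : Continuous fun s => ‖ext f s‖ := (continuous_ext f).norm
  have cZ : Continuous fun s => ‖ext Z s‖ := (continuous_ext Z).norm
  obtain ⟨M, hM⟩ : ∃ M, M = ∫ s in (0 : ℝ)..1, ‖ext f s‖ := ⟨_, rfl⟩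
  obtain ⟨y, hy⟩ : ∃ y : ℝ → ℝ, y = fun t => M + K * ∫ s in (0 : ℝ)..t, ‖ext Z s‖ := ⟨_, rfl⟩
  have hd : ∀ t, HasDerivAt y (K * ‖ext Z t‖) t := fun t => by
    rw [hy]
    exact ((cZ.integral_hasStrictDerivAt 0 t).hasDerivAt.const_mul K).const_add M
  have hZ : ∀ s : J, ‖Z s‖ ≤ y s := by
    intro s
    have e : Z s = prim f s - prim (β * Z) s := by
      rw [← h, ContinuousMap.add_apply, add_sub_cancel_right]
    have h1 : ‖prim f s‖ ≤ M := by
      rw [prim_apply, hM]
      refine (norm_int_le f s _ cf fun t => (congrArg norm (fgron_ext f t)).ge).trans ?_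
      exact intervalIntegral.integral_mono_interval le_rfl s.2.1 s.2.2
        (Eventually.of_forall fun _ => norm_nonneg _) (cf.intervalIntegrable _ _)
    have h2 : ‖prim (β * Z) s‖ ≤ K * ∫ t in (0 : ℝ)..s, ‖ext Z t‖ := by
      rw [prim_apply, ← intervalIntegral.integral_const_mul]
      refine norm_int_le (β * Z) s _ (continuous_const.mul cZ) fun t => ?_
      rw [fgron_ext, ContinuousMap.mul_apply]
      exact (norm_mul_le _ _).trans (mul_le_mul_of_nonneg_right (hK t) (norm_nonneg _))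
    rw [e, hy]
    exact (norm_sub_le _ _).trans (add_le_add h1 h2)
  have hM0 : 0 ≤ M := by
    rw [hM]
    exact intervalIntegral.integral_nonneg zero_le_one fun _ _ => norm_nonneg _
  have key := norm_le_gronwallBound_of_norm_deriv_right_le (f := y)
    (f' := fun t => K * ‖ext Z t‖) (δ := M) (K := K) (ε := 0) (a := 0) (b := 1)
    (fun t _ => (hd t).continuousAt.continuousWithinAt)
    (fun t _ => (hd t).hasDerivWithinAt)
    (by simp [hy, abs_of_nonneg hM0])
    (fun t ht => by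
      have ht' : t ∈ Icc (0 : ℝ) 1 := Ico_subset_Icc_self ht
      rw [add_zero, Real.norm_of_nonneg (mul_nonneg hK0 (norm_nonneg _)), ext_of_mem Z ht']
      exact mul_le_mul_of_nonneg_left ((hZ ⟨t, ht'⟩).trans (le_abs_self _)) hK0)
    1 ⟨zero_le_one, le_rfl⟩
  rw [gronwallBound_ε0, sub_zero, mul_one] at key
  rw [← hM, mul_comm]
  exact (hZ 1).trans ((le_abs_self _).trans key)

/-- the differentiable extension of a solution -/
theorem fgron_sol (h : u + prim (β * u) = 1) : ∃ W : ℝ → Mat r, (∀ s : J, W s = u s) ∧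
    W 0 = 1 ∧ Continuous W ∧ ∀ t ∈ Icc (0 : ℝ) 1, HasDerivAt W (-(ext β t * W t)) t := by
  have hd : ∀ t, HasDerivAt (fun t => 1 - ∫ s in (0 : ℝ)..t, ext (β * u) s)
      (-ext (β * u) t) t := fun t =>
    ((continuous_ext (β * u)).integral_hasStrictDerivAt 0 t).hasDerivAt.const_sub 1
  have he : ∀ s : J, 1 - ∫ t in (0 : ℝ)..s, ext (β * u) t = u s := by
    intro s
    have := congrArg (fun γ : C(J, Mat r) => γ s) h
    simp only [ContinuousMap.add_apply, ContinuousMap.one_apply, prim_apply] at this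
    rw [← this, add_sub_cancel_right]
  refine ⟨_, he, by simp, continuous_iff_continuousAt.2 fun t => (hd t).continuousAt,
    fun t ht => ?_⟩
  have h1 := hd t
  have h2 := he ⟨t, ht⟩
  rw [ext_of_mem _ ht, ContinuousMap.mul_apply, ← h2, ← ext_of_mem β ht] at h1
  exact h1

theorem pexp_bil (hK : ∀ s, ‖β s‖ ≤ K) (h : u + prim (β * u) = 1) (s : J) :
    Bil (Real.exp K) (u s) := by
  have hK0 : 0 ≤ K := (norm_nonneg _).trans (hK 0)
  obtain ⟨W, h1, h0, hc, hd⟩ := fgron_sol h
  have hb : ∀ t ∈ Icc (0 : ℝ) 1, ∀ X : Mat r, ‖ext β t * X‖ ≤ K * ‖X‖ + 0 := by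
    intro t ht X
    rw [add_zero, ext_of_mem β ht]
    exact (norm_mul_le _ _).trans (mul_le_mul_of_nonneg_right (hK _) (norm_nonneg _))
  have he : Real.exp (K * (s - 0)) ≤ Real.exp K := by
    rw [sub_zero]
    exact Real.exp_le_exp.2 (mul_le_of_le_one_right hK0 s.2.2)
  intro Y
  rw [← h1 s]
  constructor
  · have key := norm_le_gronwallBound_of_norm_deriv_right_le (f := fun t => W t * Y)
      (f' := fun t => -(ext β t * W t) * Y) (δ := ‖Y‖) (K := K) (ε := 0) (a := 0) (b := s)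
      (hc.mul continuous_const).continuousOn
      (fun t ht => ((hd t ⟨ht.1, ht.2.le.trans s.2.2⟩).mul_const Y).hasDerivWithinAt)
      (by rw [h0, Matrix.one_mul])
      (fun t ht => by
        rw [neg_mul, norm_neg, Matrix.mul_assoc]
        exact hb t ⟨ht.1, ht.2.le.trans s.2.2⟩ _)
      s ⟨s.2.1, le_rfl⟩
    rw [gronwallBound_ε0] at key
    rw [mul_comm]
    exact key.trans (mul_le_mul_of_nonneg_left he (norm_nonneg _))
  · have hm : ∀ t ∈ Ico (0 : ℝ) s, (s : ℝ) - t ∈ Icc (0 : ℝ) 1 := fun t ht =>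
      ⟨by linarith [ht.2], by linarith [ht.1, s.2.2]⟩
    have key := norm_le_gronwallBound_of_norm_deriv_right_le (f := fun t => W (s - t) * Y)
      (f' := fun t => (ext β (s - t) * W (s - t)) * Y) (δ := ‖W s * Y‖) (K := K) (ε := 0)
      (a := 0) (b := s)
      ((hc.comp (continuous_const.sub continuous_id)).mul continuous_const).continuousOn
      (fun t ht => by
        have h3 := (HasDerivAt.comp_const_sub (s : ℝ) t (hd _ (hm t ht))).mul_const Y
        rw [neg_neg] at h3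
        exact h3.hasDerivWithinAt)
      (by rw [sub_zero])
      (fun t ht => by
        rw [Matrix.mul_assoc]
        exact hb _ (hm t ht) _)
      s ⟨s.2.1, le_rfl⟩
    rw [gronwallBound_ε0, sub_self, h0, Matrix.one_mul] at key
    rw [mul_comm]
    exact key.trans (mul_le_mul_of_nonneg_left he (norm_nonneg _))

theorem pexp_mem {S : Submodule ℂ (Mat r)} {G : Set (Mat r)} (hG : OdeInv S G) (hβ : ∀ s, β s ∈ S)
    (h : u + prim (β * u) = 1) : u 1 ∈ G := by
  obtain ⟨W, h1, h0, -, hd⟩ := fgron_sol h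
  rw [← h1 1]
  exact hG.2 (ext β) W (continuous_ext β) (fun s => hβ _) h0 hd

end Pool.Agent.PW
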