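import Pool.Agent.P.MP_65ad7c_ag.RCof

open MeasureTheory Set Filter Topology Metric Matrix
open scoped ComplexOrder ContDiff Matrix.Norms.Frobenius RealInnerProductSpace ENNReal
open Pool.Agent.Lib.Sob

noncomputable section
namespace Pool.Agent.PW

variable {n r : ℕ} {V : Type} [NormedAddCommGroup V] [NormedSpace ℝ V]

theorem div_decomp (v : EC n) :
    v = ∑ k, ((v k).re • (EuclideanSpace.single k 1 : EC n) +
      (v k).im • (EuclideanSpace.single k Complex.I : EC n)) := by
  ext j
  simp only [WithLp.ofLp_sum, WithLp.ofLp_add, WithLp.ofLp_smul, Finset.sum_apply, Pi.add_apply,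
    Pi.smul_apply, PiLp.single_apply]
  rw [Finset.sum_eq_single j]
  · simp only [if_true]
    apply Complex.ext <;> simp
  · intro b _ hb
    simp [Ne.symm hb]
  · simp

theorem div_inner1 (v : EC n) (k : Fin n) :
    ⟪v, (EuclideanSpace.single k 1 : EC n)⟫ = (v k).re := by
  rw [PiLp.inner_apply, Finset.sum_eq_single k]
  · simp
  · intro b _ hb
    simp [hb]
  · simp

theorem div_innerI (v : EC n) (k : Fin n) :
    ⟪v, (EuclideanSpace.single k Complex.I : EC n)⟫ = (v k).im := by
  rw [PiLp.inner_apply, Finset.sum_eq_single k]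
  · simp
  · intro b _ hb
    simp [hb]
  · simp

theorem div_clm (X : EC n →L[ℝ] V) (v : EC n) :
    X v = ∑ k, ((v k).re • X (EuclideanSpace.single k 1) +
      (v k).im • X (EuclideanSpace.single k Complex.I)) := by
  conv_lhs => rw [div_decomp v]
  simp only [map_sum, map_add, map_smul]

theorem div_ob (X : EC n →L[ℝ] V) (w : EC n) :
    ∑ p, ⟪ob (EC n) p, w⟫ • X (ob (EC n) p) = X w := by
  conv_rhs => rw [← (ob (EC n)).sum_repr' w]
  simp only [map_sum, map_smul]

/-- the trace of a bilinear map in the complex coordinates -/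
theorem sum_ob_EC (B : EC n →L[ℝ] EC n →L[ℝ] V) :
    ∑ p, B (ob (EC n) p) (ob (EC n) p) =
      ∑ k, (B (EuclideanSpace.single k 1) (EuclideanSpace.single k 1) +
        B (EuclideanSpace.single k Complex.I) (EuclideanSpace.single k Complex.I)) := by
  have h : ∀ p, B (ob (EC n) p) (ob (EC n) p) =
      ∑ k, (⟪ob (EC n) p, (EuclideanSpace.single k 1 : EC n)⟫ •
          B (EuclideanSpace.single k 1) (ob (EC n) p) +
        ⟪ob (EC n) p, (EuclideanSpace.single k Complex.I : EC n)⟫ •
          B (EuclideanSpace.single k Complex.I) (ob (EC n) p)) := by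
    intro p
    have := div_clm (B.flip (ob (EC n) p)) (ob (EC n) p)
    simp only [ContinuousLinearMap.flip_apply] at this
    rw [this]
    simp only [div_inner1, div_innerI]
  simp only [h]
  rw [Finset.sum_comm]
  refine Finset.sum_congr rfl fun k _ => ?_
  rw [Finset.sum_add_distrib, div_ob, div_ob]

theorem div_kα_apply (g : Mat n) (v : EC n) (j : Fin n) :
    kα g v j = ∑ k, kH g j k * v k := rfl

/-- elementary maps -/
def divE (j k : Fin n) : EC n →L[ℝ] EC n :=
  ((EuclideanSpace.proj k : EC n →L[ℂ] ℂ).smulRight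
    (EuclideanSpace.single j 1 : EC n)).restrictScalars ℝ

theorem divE_apply (j k : Fin n) (v : EC n) :
    divE j k v = v k • (EuclideanSpace.single j 1 : EC n) := rfl

theorem div_kα_eq (g : Mat n) : kα g = ∑ j, ∑ k, kH g j k • divE j k := by
  ext v i
  simp only [div_kα_apply, _root_.sum_apply, _root_.smul_apply,
    divE_apply, WithLp.ofLp_sum, WithLp.ofLp_smul, Finset.sum_apply, Pi.smul_apply,
    PiLp.single_apply, smul_eq_mul]
  symm
  rw [Finset.sum_eq_single i]
  · simp
  · intro b _ hb
    simp [Ne.symm hb]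
  · simp

/-- the Riemannian coefficient of a Kaehler metric is divergence free -/
theorem divFree_kα {U : Set (EC n)} {g : EC n → Mat n} (hU : IsOpen U) (hg : IsKahlerOn U g) :
    DivFree U fun x => kα (g x) := by
  intro x hx v
  have hd : ∀ j k, HasFDerivAt (fun y => kH (g y) j k) (fderiv ℝ (fun y => kH (g y) j k) x) x :=
    fun j k => (((kH_contDiffOn hg j k).contDiffAt (hU.mem_nhds hx)).differentiableAt
      (by simp)).hasFDerivAt
  have hF : HasFDerivAt (fun y => kα (g y))
      (∑ j, ∑ k, (fderiv ℝ (fun y => kH (g y) j k) x).smulRight (divE j k)) x := by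
    simp only [div_kα_eq]
    exact HasFDerivAt.fun_sum fun j _ => HasFDerivAt.fun_sum fun k _ => (hd j k).smul_const (divE j k)
  have hc : ∀ (u : EC n) (i : Fin n), fderiv ℝ (fun y => kα (g y)) x u v i =
      ∑ k, fderiv ℝ (fun y => kH (g y) i k) x u * v k := by
    intro u i
    rw [hF.fderiv]
    simp only [_root_.sum_apply, _root_.smul_apply,
      ContinuousLinearMap.smulRight_apply,
      divE_apply, WithLp.ofLp_sum, WithLp.ofLp_smul, Finset.sum_apply, Pi.smul_apply,
      PiLp.single_apply, smul_eq_mul]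
    rw [Finset.sum_eq_single i]
    · simp
    · intro b _ hb
      simp [Ne.symm hb]
    · simp
  have h := sum_ob_EC ((innerSL ℝ : EC n →L[ℝ] EC n →L[ℝ] ℝ).comp
    ((fderiv ℝ (fun y => kα (g y)) x).flip v))
  simp only [ContinuousLinearMap.comp_apply, ContinuousLinearMap.flip_apply] at h
  have h' : ∀ a b : EC n, (innerSL ℝ : EC n →L[ℝ] EC n →L[ℝ] ℝ) a b = ⟪a, b⟫ := fun _ _ => rfl
  simp only [h', div_inner1, div_innerI, hc] at h
  simp only [real_inner_comm (fderiv ℝ (fun y => kα (g y)) x _ v)]
  rw [h]
  have h2 : (2 * ∑ k, (∑ j, d1 (fderiv ℝ (fun y => kH (g y) j k) x) j) * v k).re = 0 := by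
    simp [kH_div hU hg hx]
  rw [← h2]
  simp only [Finset.sum_mul, Finset.mul_sum, Complex.re_sum, Complex.im_sum,
    ← Finset.sum_add_distrib]
  rw [Finset.sum_comm]
  refine Finset.sum_congr rfl fun k _ => Finset.sum_congr rfl fun j _ => ?_
  simp only [d1, smul_eq_mul]
  generalize fderiv ℝ (fun y => kH (g y) j k) x (EuclideanSpace.single j 1) = a
  generalize fderiv ℝ (fun y => kH (g y) j k) x (EuclideanSpace.single j Complex.I) = b
  have e : 2 * ((2 : ℂ)⁻¹ * (a - Complex.I * b) * v k) = a * v k - Complex.I * (b * v k) := by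
    ring
  rw [e]
  simp
  ring

theorem div_kH_herm {g : Mat n} (hg : g.PosDef) (j k : Fin n) :
    kH g k j = (starRingEnd ℂ) (kH g j k) := by
  have h1 : (kW g).IsHermitian := hg.isHermitian.transpose.inv
  have h2 : (starRingEnd ℂ) g.det = g.det := by
    have := Matrix.det_conjTranspose g
    rw [hg.isHermitian.eq] at this
    exact this.symm
  have h3 : kW g k j = (starRingEnd ℂ) (kW g j k) := (h1.apply k j).symm
  simp only [kH, Matrix.smul_apply, smul_eq_mul, map_mul, h2, h3]

theorem div_kα_single (g : Mat n) (k : Fin n) (c : ℂ) (j : Fin n) :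
    kα g (EuclideanSpace.single k c) j = kH g j k * c := by
  rw [div_kα_apply, Finset.sum_eq_single k]
  · simp
  · intro b _ hb
    simp [hb]
  · simp

/-- the tension field is the trace of `N` -/
theorem trace_formula {g : Mat n} (hg : g.PosDef) (β : EC n →L[ℝ] EC n →L[ℝ] Mat r) :
    ∑ p, β (kα g (ob (EC n) p)) (ob (EC n) p) = (4 : ℂ) • ∑ j, ∑ k, kH g j k • SN β j k := by
  have h := sum_ob_EC (β.comp (kα g))
  simp only [ContinuousLinearMap.comp_apply] at h
  rw [h]
  have hb : ∀ v w : EC n, β v w = ∑ j, ((v j).re • β (EuclideanSpace.single j 1) w +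
      (v j).im • β (EuclideanSpace.single j Complex.I) w) := fun v w => by
    simpa only [ContinuousLinearMap.flip_apply] using div_clm (β.flip w) v
  have hs : ∑ j, ∑ k, kH g j k • SN β j k =
      ∑ k, ∑ j, (2 : ℂ)⁻¹ • ((starRingEnd ℂ) (kH g j k) • d21 β j k + kH g j k • d12 β j k) := by
    have e1 : ∑ j, ∑ k, kH g j k • d21 β k j =
        ∑ k, ∑ j, (starRingEnd ℂ) (kH g j k) • d21 β j k :=
      Finset.sum_congr rfl fun k _ => Finset.sum_congr rfl fun j _ => by rw [div_kH_herm hg j k]
    have e2 : ∑ j, ∑ k, kH g j k • d12 β j k = ∑ k, ∑ j, kH g j k • d12 β j k :=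
      Finset.sum_comm
    simp only [SN, smul_comm (kH g _ _) (2 : ℂ)⁻¹, smul_add, Finset.sum_add_distrib,
      ← Finset.smul_sum]
    rw [e1, e2]
  rw [hs, Finset.smul_sum]
  refine Finset.sum_congr rfl fun k _ => ?_
  rw [hb (kα g (EuclideanSpace.single k 1)), hb (kα g (EuclideanSpace.single k Complex.I)),
    ← Finset.sum_add_distrib, Finset.smul_sum]
  refine Finset.sum_congr rfl fun j _ => ?_
  simp only [div_kα_single, d21, d12, d1, d2]
  generalize β (EuclideanSpace.single j 1) (EuclideanSpace.single k 1) = a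
  generalize β (EuclideanSpace.single j 1) (EuclideanSpace.single k Complex.I) = b
  generalize β (EuclideanSpace.single j Complex.I) (EuclideanSpace.single k 1) = c
  generalize β (EuclideanSpace.single j Complex.I) (EuclideanSpace.single k Complex.I) = d
  generalize kH g j k = z
  ext s t
  simp only [Matrix.add_apply, Matrix.smul_apply, Matrix.sub_apply, smul_eq_mul,
    Complex.real_smul]
  obtain ⟨x, y, rfl⟩ : ∃ x y : ℝ, z = x + y * Complex.I := ⟨z.re, z.im, (Complex.re_add_im z).symm⟩
  simp
  linear_combination ((x : ℂ) * d s t + y * c s t - y * b s t) * Complex.I_mul_I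

/-- a form with `A (i ·)` weakly closed is weakly coclosed for the flat metric -/
theorem harm_of_wcurl {U : Set (EC n)} {A : EC n → EC n →L[ℝ] Mat r} (hA : LocLp 2 U A)
    (h : WCurl U (fun x => (A x).comp (IL n)) fun _ _ _ => 0) :
    Harm U (fun _ => ContinuousLinearMap.id ℝ (EC n)) A := by
  intro φ hφ
  have hp : ∀ x, ∑ p, fderiv ℝ φ x (ContinuousLinearMap.id ℝ (EC n) (ob (EC n) p)) •
      A x (ob (EC n) p) = ∑ k, (fderiv ℝ φ x (EuclideanSpace.single k 1) •
        A x (EuclideanSpace.single k 1) + fderiv ℝ φ x (EuclideanSpace.single k Complex.I) •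
          A x (EuclideanSpace.single k Complex.I)) := fun x => by
    simpa only [ContinuousLinearMap.smulRight_apply, _root_.smul_apply,
      ContinuousLinearMap.id_apply] using sum_ob_EC ((fderiv ℝ φ x).smulRight (A x))
  simp only [hp]
  rw [integral_finsetSum]
  · refine Finset.sum_eq_zero fun k _ => ?_
    have h1 := h φ hφ (EuclideanSpace.single k Complex.I) (EuclideanSpace.single k 1)
    have e1 : Complex.I • (EuclideanSpace.single k 1 : EC n) =
        EuclideanSpace.single k Complex.I := by
      ext i; simp [PiLp.single_apply]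
    have e2 : Complex.I • (EuclideanSpace.single k Complex.I : EC n) =
        -EuclideanSpace.single k 1 := by
      ext i
      by_cases hi : i = k <;> simp [hi]
    simp only [ContinuousLinearMap.comp_apply, IL_apply, e1, e2, map_neg, smul_neg, sub_neg_eq_add,
      smul_zero, integral_zero, neg_zero] at h1
    simpa only [add_comm] using h1
  · intro k _
    exact ((hA.apply _).integrable_dtest (by norm_num) hφ _).add
      ((hA.apply _).integrable_dtest (by norm_num) hφ _)

end Pool.Agent.PW
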