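import Pool.Agent.P.MP_65ad7c_ag.TChain

open MeasureTheory Set Filter Topology Metric Matrix
open scoped ComplexOrder ContDiff Matrix.Norms.Frobenius RealInnerProductSpace ENNReal
open Pool.Agent.Lib.Sob

noncomputable section
namespace Pool.Agent.PW

variable {E : Type} [NormedAddCommGroup E] [InnerProductSpace ℝ E] [FiniteDimensional ℝ E]
  [MeasurableSpace E] [BorelSpace E] {r : ℕ} {U : Set E}
  {V W : Type} [NormedAddCommGroup V] [NormedSpace ℝ V] [NormedAddCommGroup W] [NormedSpace ℝ W]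
  {Z : Type} [NormedAddCommGroup Z] [NormedSpace ℝ Z]

section general
variable {α : Type} [MeasurableSpace α] {μ : Measure α}

theorem tbil_tendsto_eLp {n : ℕ} (hn : 1 ≤ n) {f : ℕ → α → V}
    (h : Tendsto (fun k => ∫⁻ x, ‖f k x‖ₑ ^ n ∂μ) atTop (𝓝 0)) :
    Tendsto (fun k => eLpNorm (f k) n μ) atTop (𝓝 0) := by
  simp only [lintegral_pow_eq hn] at h
  have := h.ennrpow_const ((n : ℝ)⁻¹)
  have hn' : (0 : ℝ) < n := by exact_mod_cast hn
  rw [ENNReal.zero_rpow_of_pos (inv_pos.2 hn')] at this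
  refine this.congr fun k => ?_
  rw [← ENNReal.rpow_natCast, ← ENNReal.rpow_mul, mul_inv_cancel₀ hn'.ne', ENNReal.rpow_one]

theorem tbil_holder (B : V →L[ℝ] W →L[ℝ] Z) {f : α → V} {g : α → W}
    (hf : AEStronglyMeasurable f μ) (hg : AEStronglyMeasurable g μ) :
    ∫⁻ x, ‖B (f x) (g x)‖ₑ ∂μ ≤ ‖B‖₊ * eLpNorm f 2 μ * eLpNorm g 2 μ := by
  rw [← eLpNorm_one_eq_lintegral_enorm]
  exact eLpNorm_le_eLpNorm_mul_eLpNorm'_of_norm hf hg (fun a b => B a b) ‖B‖₊
    (Eventually.of_forall fun x => B.le_opNorm₂ _ _)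

theorem tbil_tendsto_add {a b : ℕ → α → Z} (ha : ∀ k, AEStronglyMeasurable (a k) μ)
    (h1 : Tendsto (fun k => ∫⁻ x, ‖a k x‖ₑ ∂μ) atTop (𝓝 0))
    (h2 : Tendsto (fun k => ∫⁻ x, ‖b k x‖ₑ ∂μ) atTop (𝓝 0)) :
    Tendsto (fun k => ∫⁻ x, ‖a k x + b k x‖ₑ ∂μ) atTop (𝓝 0) := by
  have t := h1.add h2
  rw [add_zero] at t
  refine tendsto_of_tendsto_of_tendsto_of_le_of_le tendsto_const_nhds t (fun _ => zero_le)
    fun k => ?_
  rw [← lintegral_add_left' (ha k).enorm]
  exact lintegral_mono fun x => enorm_add_le _ _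

/-- continuity of the product `L² × L² → L¹` -/
theorem tbil_tendsto_two (B : V →L[ℝ] W →L[ℝ] Z) {f : α → V} {g : α → W} {fk : ℕ → α → V}
    {gk : ℕ → α → W} (hf : MemLp f (2 : ℕ) μ) (hg : MemLp g (2 : ℕ) μ)
    (mf : ∀ k, AEStronglyMeasurable (fk k) μ) (mg : ∀ k, AEStronglyMeasurable (gk k) μ)
    (t1 : Tendsto (fun k => ∫⁻ x, ‖fk k x - f x‖ₑ ^ 2 ∂μ) atTop (𝓝 0))
    (t2 : Tendsto (fun k => ∫⁻ x, ‖gk k x - g x‖ₑ ^ 2 ∂μ) atTop (𝓝 0)) :
    Tendsto (fun k => ∫⁻ x, ‖B (fk k x) (gk k x) - B (f x) (g x)‖ₑ ∂μ) atTop (𝓝 0) := by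
  have s1 := tbil_tendsto_eLp (n := 2) (by norm_num) t1
  have s2 := tbil_tendsto_eLp (n := 2) (by norm_num) t2
  simp only [Nat.cast_ofNat] at s1 s2 hf hg
  have m1 : ∀ k, AEStronglyMeasurable (fun x => fk k x - f x) μ := fun k => (mf k).sub hf.1
  have m2 : ∀ k, AEStronglyMeasurable (fun x => gk k x - g x) μ := fun k => (mg k).sub hg.1
  have c1 := ENNReal.Tendsto.const_mul (a := (‖B‖₊ : ℝ≥0∞)) s1 (Or.inr ENNReal.coe_ne_top)
  rw [mul_zero] at c1
  have a1 : Tendsto (fun k => ∫⁻ x, ‖B (fk k x - f x) (gk k x - g x)‖ₑ ∂μ) atTop (𝓝 0) := by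
    have t := ENNReal.Tendsto.mul c1 (Or.inr ENNReal.zero_ne_top) s2 (Or.inr ENNReal.zero_ne_top)
    rw [mul_zero] at t
    exact tendsto_of_tendsto_of_tendsto_of_le_of_le tendsto_const_nhds t (fun _ => zero_le)
      fun k => tbil_holder B (m1 k) (m2 k)
  have a2 : Tendsto (fun k => ∫⁻ x, ‖B (fk k x - f x) (g x)‖ₑ ∂μ) atTop (𝓝 0) := by
    have t := ENNReal.Tendsto.mul_const (b := eLpNorm g 2 μ) c1 (Or.inr hg.2.ne)
    rw [zero_mul] at t
    exact tendsto_of_tendsto_of_tendsto_of_le_of_le tendsto_const_nhds t (fun _ => zero_le)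
      fun k => tbil_holder B (m1 k) hg.1
  have a3 : Tendsto (fun k => ∫⁻ x, ‖B (f x) (gk k x - g x)‖ₑ ∂μ) atTop (𝓝 0) := by
    have t := ENNReal.Tendsto.const_mul (a := (‖B‖₊ : ℝ≥0∞) * eLpNorm f 2 μ) s2
      (Or.inr (ENNReal.mul_ne_top ENNReal.coe_ne_top hf.2.ne))
    rw [mul_zero] at t
    exact tendsto_of_tendsto_of_tendsto_of_le_of_le tendsto_const_nhds t (fun _ => zero_le)
      fun k => tbil_holder B hf.1 (m2 k)
  refine (tbil_tendsto_add (fun k => B.aestronglyMeasurable_comp₂ (m1 k) (m2 k)) a1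
    (tbil_tendsto_add (fun k => B.aestronglyMeasurable_comp₂ (m1 k) hg.1) a2 a3)).congr
    fun k => lintegral_congr fun x => ?_
  congr 1
  simp only [map_sub, _root_.sub_apply]
  abel

/-- continuity of the product with a bounded function in `L¹` -/
theorem tbil_tendsto_bd (B : V →L[ℝ] W →L[ℝ] Z) {f : α → V} {g : α → W} {gk : ℕ → α → W} {C : ℝ}
    (hf : ∀ᵐ x ∂μ, ‖f x‖ ≤ C)
    (t : Tendsto (fun k => ∫⁻ x, ‖gk k x - g x‖ₑ ∂μ) atTop (𝓝 0)) :
    Tendsto (fun k => ∫⁻ x, ‖B (f x) (gk k x) - B (f x) (g x)‖ₑ ∂μ) atTop (𝓝 0) := by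
  have hc : ‖B‖ₑ * ENNReal.ofReal C ≠ ⊤ := ENNReal.mul_ne_top enorm_ne_top ENNReal.ofReal_ne_top
  have t' := ENNReal.Tendsto.const_mul (a := ‖B‖ₑ * ENNReal.ofReal C) t (Or.inr hc)
  rw [mul_zero] at t'
  refine tendsto_of_tendsto_of_tendsto_of_le_of_le tendsto_const_nhds t' (fun _ => zero_le)
    fun k => ?_
  rw [← lintegral_const_mul' _ _ hc]
  refine lintegral_mono_ae ?_
  filter_upwards [hf] with x hx
  rw [← map_sub]
  refine (B.le_opENorm₂ _ _).trans ?_
  gcongr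
  exact enorm_le_ofReal hx

end general

theorem tbil_locLp_one (B : V →L[ℝ] W →L[ℝ] Z) {u : E → V} {v : E → W} (h : LocLp 2 U u)
    (h' : LocLp 2 U v) : LocLp 1 U fun x => B (u x) (v x) := by
  intro K hK hKU
  have h1 := h K hK hKU
  have h2 := h' K hK hKU
  simp only [Nat.cast_ofNat] at h1 h2
  simp only [Nat.cast_one]
  exact B.memLp_of_bilin 1 h1 h2

theorem tbil_locLp_lb {n m : ℕ} (B : V →L[ℝ] W →L[ℝ] Z) {u : E → V} {v : E → W}
    (h : LocLp m U u) (hu : LB U u) (h' : LocLp n U v) : LocLp n U fun x => B (u x) (v x) := by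
  intro K hK hKU
  obtain ⟨C, hC⟩ := hu K hK hKU
  exact B.memLp_of_bilin n (memLp_top_of_bound (h K hK hKU).1 C
    ((ae_restrict_mem hK.measurableSet).mono hC)) (h' K hK hKU)

omit [InnerProductSpace ℝ E] [FiniteDimensional ℝ E] [MeasurableSpace E] [BorelSpace E]
  [NormedSpace ℝ V] in
theorem tbil_lb_cont {u : E → V} (h : ContinuousOn u U) : LB U u :=
  fun _ hK hKU => hK.exists_bound_of_continuousOn (h.mono hKU)

/-- product of two locally bounded Sobolev functions -/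
theorem wd_bilin [FiniteDimensional ℝ V] [FiniteDimensional ℝ W] [CompleteSpace Z] {n : ℕ}
    (hn : 1 ≤ n) (hU : IsOpen U) (B : V →L[ℝ] W →L[ℝ] Z) {u : E → V} {v : E → W}
    {D : E → E →L[ℝ] V} {D' : E → E →L[ℝ] W} (h : WD n U u D) (h' : WD n U v D') (hu : LB U u)
    (hv : LB U v) : WD n U (fun x => B (u x) (v x))
      fun x => (B.flip (v x)).comp (D x) + (B (u x)).comp (D' x) := by
  have cV : CompleteSpace V := FiniteDimensional.complete ℝ V
  have cW : CompleteSpace W := FiniteDimensional.complete ℝ W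
  have pV : ProperSpace V := FiniteDimensional.proper ℝ V
  have pW : ProperSpace W := FiniteDimensional.proper ℝ W
  have key := wd_chain hn hU (wd_prodMk hn h h') (F := fun p : V × W => B p.1 p.2) isOpen_univ
    B.isBoundedBilinearMap.contDiff.contDiffOn fun K hK hKU => by
      obtain ⟨C, hC⟩ := hu K hK hKU
      obtain ⟨C', hC'⟩ := hv K hK hKU
      exact ⟨closedBall 0 C ×ˢ closedBall 0 C', (isCompact_closedBall _ _).prod
        (isCompact_closedBall _ _), subset_univ _, Eventually.of_forall fun x hx =>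
          ⟨mem_closedBall_zero_iff.2 (hC x hx), mem_closedBall_zero_iff.2 (hC' x hx)⟩⟩
  refine key.congr' (fun _ _ => rfl) fun x _ => ?_
  ext e
  rw [(B.isBoundedBilinearMap.hasFDerivAt (u x, v x)).fderiv]
  simp [IsBoundedBilinearMap.deriv_apply, add_comm]

/-- product `W^{1,2} × W^{1,2} → W^{1,1}` -/
theorem wd_bilin_one [CompleteSpace V] [CompleteSpace W] [CompleteSpace Z] (hU : IsOpen U)
    (B : V →L[ℝ] W →L[ℝ] Z) {u : E → V} {v : E → W}
    {D : E → E →L[ℝ] V} {D' : E → E →L[ℝ] W} (h : WD 2 U u D) (h' : WD 2 U v D') :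
    WD 1 U (fun x => B (u x) (v x))
      fun x => (B.flip (v x)).comp (D x) + (B (u x)).comp (D' x) := by
  refine WD.of_tendsto_one le_rfl (tbil_locLp_one B h.1 h'.1)
    ((tbil_locLp_one (B.precompL E) h.2.1 h'.1).add (tbil_locLp_one (B.precompR E) h.1 h'.2.1))
    fun K hK hKU => ?_
  obtain ⟨a, sa, -, a1, a2⟩ := h.approx (by norm_num) hU hK hKU
  obtain ⟨b, sb, -, b1, b2⟩ := h'.approx (by norm_num) hU hK hKU
  have ma : ∀ k, AEStronglyMeasurable (a k) (volume.restrict K) := fun k =>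
    (sa k).continuous.aestronglyMeasurable
  have mb : ∀ k, AEStronglyMeasurable (b k) (volume.restrict K) := fun k =>
    (sb k).continuous.aestronglyMeasurable
  have ma' : ∀ k, AEStronglyMeasurable (fderiv ℝ (a k)) (volume.restrict K) := fun k =>
    ((sa k).continuous_fderiv (by simp)).aestronglyMeasurable
  have mb' : ∀ k, AEStronglyMeasurable (fderiv ℝ (b k)) (volume.restrict K) := fun k =>
    ((sb k).continuous_fderiv (by simp)).aestronglyMeasurable
  refine ⟨univ, subset_univ _, fun k x => B (a k x) (b k x), fun k x =>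
    B.precompL E (fderiv ℝ (a k) x) (b k x) + B.precompR E (a k x) (fderiv ℝ (b k) x),
    fun k => ?_, tbil_tendsto_two B (h.1 K hK hKU) (h'.1 K hK hKU) ma mb a1 b1, ?_⟩
  · refine (WD.of_contDiff le_rfl ((B.contDiff.comp ((sa k).of_le (by simp))).clm_apply
      ((sb k).of_le (by simp)))).congr' (fun _ _ => rfl) fun x _ => ?_
    exact (B.fderiv_of_bilinear ((sa k).differentiable (by simp) x)
      ((sb k).differentiable (by simp) x)).trans (add_comm _ _)
  · refine (tbil_tendsto_add (fun k => ((B.precompL E).aestronglyMeasurable_comp₂ (ma' k)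
      (mb k)).sub ((B.precompL E).aestronglyMeasurable_comp₂ (h.2.1 K hK hKU).1
        (h'.1 K hK hKU).1))
      (tbil_tendsto_two (B.precompL E) (h.2.1 K hK hKU) (h'.1 K hK hKU) ma' mb a2 b1)
      (tbil_tendsto_two (B.precompR E) (h.1 K hK hKU) (h'.2.1 K hK hKU) ma mb' a1 b2)).congr
      fun k => lintegral_congr fun x => ?_
    rw [Pi.sub_apply, sub_add_sub_comm]
    rfl

/-- product of a `C¹` function with a Sobolev function -/
theorem wd_bilin_cd [CompleteSpace V] [CompleteSpace W] [CompleteSpace Z] {n : ℕ} (hn : 1 ≤ n)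
    (hU : IsOpen U) (B : V →L[ℝ] W →L[ℝ] Z) {u : E → V} {v : E → W} {D' : E → E →L[ℝ] W}
    (h : ContDiffOn ℝ 1 u U) (h' : WD n U v D') : WD n U (fun x => B (u x) (v x))
      fun x => (B.flip (v x)).comp (fderiv ℝ u x) + (B (u x)).comp (D' x) := by
  have c1 : ContinuousOn u U := h.continuousOn
  have c2 : ContinuousOn (fderiv ℝ u) U := h.continuousOn_fderiv_of_isOpen hU le_rfl
  have l1 : LocLp n U u := .of_continuousOn c1
  have l2 : LocLp n U (fderiv ℝ u) := .of_continuousOn c2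
  refine WD.of_tendsto_one hn (tbil_locLp_lb B l1 (tbil_lb_cont c1) h'.1)
    ((tbil_locLp_lb (B.precompL E) l2 (tbil_lb_cont c2) h'.1).add
      (tbil_locLp_lb (B.precompR E) l1 (tbil_lb_cont c1) h'.2.1)) fun K hK hKU => ?_
  obtain ⟨b, sb, -, b1, b2⟩ := h'.approx hn hU hK hKU
  have : IsFiniteMeasure (volume.restrict K) := ⟨by simpa using hK.measure_lt_top⟩
  have mb : ∀ k, AEStronglyMeasurable (b k) (volume.restrict K) := fun k =>
    (sb k).continuous.aestronglyMeasurable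
  have mb' : ∀ k, AEStronglyMeasurable (fderiv ℝ (b k)) (volume.restrict K) := fun k =>
    ((sb k).continuous_fderiv (by simp)).aestronglyMeasurable
  have b3 := tendsto_lintegral_one_of_pow hn (fun k => (mb k).sub (h'.1 K hK hKU).1) b1
  have b4 := tendsto_lintegral_one_of_pow hn (fun k => (mb' k).sub (h'.2.1 K hK hKU).1) b2
  obtain ⟨C1, hC1⟩ := tbil_lb_cont c1 K hK hKU
  obtain ⟨C2, hC2⟩ := tbil_lb_cont c2 K hK hKU
  have e1 := (ae_restrict_mem (μ := volume) hK.measurableSet).mono hC1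
  have e2 := (ae_restrict_mem (μ := volume) hK.measurableSet).mono hC2
  refine ⟨U, hKU, fun k x => B (u x) (b k x), fun k x =>
    B.precompL E (fderiv ℝ u x) (b k x) + B.precompR E (u x) (fderiv ℝ (b k) x),
    fun k => ?_, tbil_tendsto_bd B e1 b3, ?_⟩
  · refine (WD.of_contDiffOn hn hU ((B.contDiff.comp_contDiffOn h).clm_apply
      ((sb k).of_le (by simp)).contDiffOn)).congr' (fun _ _ => rfl) fun x hx => ?_
    exact (B.fderiv_of_bilinear
      ((h.differentiableOn one_ne_zero).differentiableAt (hU.mem_nhds hx))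
      ((sb k).differentiable (by simp) x)).trans (add_comm _ _)
  · refine (tbil_tendsto_add (fun k => ((B.precompL E).aestronglyMeasurable_comp₂
      (l2 K hK hKU).1 (mb k)).sub ((B.precompL E).aestronglyMeasurable_comp₂ (l2 K hK hKU).1
        (h'.1 K hK hKU).1))
      (tbil_tendsto_bd (B.precompL E) e2 b3) (tbil_tendsto_bd (B.precompR E) e1 b4)).congr
      fun k => lintegral_congr fun x => ?_
    rw [Pi.sub_apply, sub_add_sub_comm]
    rfl

/-- the product of two `L²_loc` functions is in `L¹_loc` -/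
theorem locLp_bilin_one (B : V →L[ℝ] W →L[ℝ] Z) {u : E → V} {v : E → W} (h : LocLp 2 U u)
    (h' : LocLp 2 U v) : LocLp 1 U fun x => B (u x) (v x) := by
  exact tbil_locLp_one B h h'

/-- the product of a locally bounded function with an `L^n_loc` function -/
theorem locLp_bilin_lb {n m : ℕ} (B : V →L[ℝ] W →L[ℝ] Z) {u : E → V} {v : E → W}
    (h : LocLp m U u) (hu : LB U u) (h' : LocLp n U v) : LocLp n U fun x => B (u x) (v x) := by
  exact tbil_locLp_lb B h hu h'

theorem locLp_one_of_two {u : E → V} (h : LocLp 2 U u) : LocLp 1 U u := by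
  intro K hK hKU
  have : IsFiniteMeasure (volume.restrict K) := ⟨by simpa using hK.measure_lt_top⟩
  exact (h K hK hKU).mono_exponent (by norm_num)

theorem wd_one_of_two {u : E → V} {D : E → E →L[ℝ] V} (h : WD 2 U u D) : WD 1 U u D :=
  ⟨locLp_one_of_two h.1, locLp_one_of_two h.2.1, h.2.2⟩

theorem LB.of_continuousOn {u : E → V} (h : ContinuousOn u U) : LB U u := by
  exact tbil_lb_cont h

theorem LB.mono {U' : Set E} {u : E → V} (h : LB U u) (hU : U' ⊆ U) : LB U' u :=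
  fun K hK hKU => h K hK (hKU.trans hU)

theorem LB.add {u v : E → V} (h : LB U u) (h' : LB U v) : LB U fun x => u x + v x := by
  intro K hK hKU
  obtain ⟨C, hC⟩ := h K hK hKU
  obtain ⟨C', hC'⟩ := h' K hK hKU
  exact ⟨C + C', fun x hx => (norm_add_le _ _).trans (add_le_add (hC x hx) (hC' x hx))⟩

theorem LB.sub {u v : E → V} (h : LB U u) (h' : LB U v) : LB U fun x => u x - v x := by
  intro K hK hKU
  obtain ⟨C, hC⟩ := h K hK hKU
  obtain ⟨C', hC'⟩ := h' K hK hKU
  exact ⟨C + C', fun x hx => (norm_sub_le _ _).trans (add_le_add (hC x hx) (hC' x hx))⟩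

theorem LB.bilin (B : V →L[ℝ] W →L[ℝ] Z) {u : E → V} {v : E → W} (h : LB U u) (h' : LB U v) :
    LB U fun x => B (u x) (v x) := by
  intro K hK hKU
  obtain ⟨C, hC⟩ := h K hK hKU
  obtain ⟨C', hC'⟩ := h' K hK hKU
  refine ⟨‖B‖ * C * C', fun x hx => (B.le_opNorm₂ _ _).trans ?_⟩
  have h0 : 0 ≤ C := (norm_nonneg _).trans (hC x hx)
  gcongr
  · exact hC x hx
  · exact hC' x hx

end Pool.Agent.PW
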