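import Pool.Agent.P.MP_65ad7c_ag.RBase
import Pool.Agent.P.MP_65ad7c_ag.TBil

open MeasureTheory Set Filter Topology Metric Matrix
open scoped ComplexOrder ContDiff Matrix.Norms.Frobenius RealInnerProductSpace ENNReal
open Pool.Agent.Lib.Sob

noncomputable section
namespace Pool.Agent.PW

variable {E : Type} [NormedAddCommGroup E] [InnerProductSpace ℝ E] [FiniteDimensional ℝ E]
  [MeasurableSpace E] [BorelSpace E] {r : ℕ} {U : Set E}
  {V : Type} [NormedAddCommGroup V] [NormedSpace ℝ V]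

omit [FiniteDimensional ℝ E] [MeasurableSpace E] [BorelSpace E] in
theorem rharm_glue (hU : IsOpen U) {f : E → V} {K : Set E} (hK : IsClosed K) (hKU : K ⊆ U)
    (hf : ContDiffOn ℝ ∞ f U) (h0 : ∀ x ∉ K, f x = 0) : ContDiff ℝ ∞ f := by
  refine contDiff_iff_contDiffAt.2 fun x => ?_
  by_cases hx : x ∈ U
  · exact hf.contDiffAt (hU.mem_nhds hx)
  · have : f =ᶠ[𝓝 x] fun _ => 0 := by
      filter_upwards [hK.isOpen_compl.mem_nhds fun h => hx (hKU h)] with y hy using h0 y hy
    exact contDiffAt_const.congr_of_eventuallyEq this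

omit [FiniteDimensional ℝ E] [MeasurableSpace E] [BorelSpace E] in
theorem rharm_dtest {φ : E → ℝ} (hφ : IsTest U φ) (v : E) :
    IsTest U fun x => fderiv ℝ φ x v :=
  ⟨(hφ.1.fderiv_right (m := ∞) le_rfl).clm_apply contDiff_const, hφ.2.1.fderiv_apply ℝ v,
    (tsupport_fderiv_apply_subset ℝ v).trans hφ.2.2⟩

omit [NormedSpace ℝ V] in
theorem rharm_sum {ι : Type} (s : Finset ι) {n : ℕ} {f : ι → E → V} (h : ∀ i, LocLp n U (f i)) :
    LocLp n U fun x => ∑ i ∈ s, f i x := fun K hK hKU =>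
  memLp_finsetSum s fun i _ => h i K hK hKU

omit [FiniteDimensional ℝ E] [MeasurableSpace E] [BorelSpace E] in
/-- a test function times a function smooth on `U` -/
theorem isTest_mul_of_contDiffOn (hU : IsOpen U) {φ ζ : E → ℝ} (hφ : IsTest U φ)
    (hζ : ContDiffOn ℝ ∞ ζ U) : IsTest U fun x => φ x * ζ x := by
  refine ⟨rharm_glue hU (isClosed_tsupport φ) hφ.2.2 (hφ.1.contDiffOn.mul hζ) fun x hx => ?_,
    hφ.2.1.mul_right, (tsupport_mul_subset_left).trans hφ.2.2⟩
  rw [image_eq_zero_of_notMem_tsupport hx, zero_mul]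

omit [FiniteDimensional ℝ E] [MeasurableSpace E] [BorelSpace E] in
/-- complex version -/
theorem isTestC_mul_of_contDiffOn (hU : IsOpen U) {φ : E → ℝ} {ζ : E → ℂ} (hφ : IsTest U φ)
    (hζ : ContDiffOn ℝ ∞ ζ U) : IsTestC U fun x => (φ x : ℂ) * ζ x := by
  have h0 : ∀ x ∉ tsupport φ, (φ x : ℂ) * ζ x = 0 := fun x hx => by
    rw [image_eq_zero_of_notMem_tsupport hx, Complex.ofReal_zero, zero_mul]
  have hs : tsupport (fun x => (φ x : ℂ) * ζ x) ⊆ tsupport φ :=
    closure_minimal (fun x hx => by by_contra h; exact hx (h0 x h)) (isClosed_tsupport φ)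
  exact ⟨rharm_glue hU (isClosed_tsupport φ) hφ.2.2
    ((Complex.ofRealCLM.contDiff.comp hφ.1).contDiffOn.mul hζ) h0,
    hφ.2.1.of_isClosed_subset (isClosed_tsupport _) hs, hs.trans hφ.2.2⟩

omit [FiniteDimensional ℝ E] [MeasurableSpace E] [BorelSpace E] in
/-- complex version -/
theorem IsTestC.mul_contDiffOn (hU : IsOpen U) {ψ ζ : E → ℂ} (hψ : IsTestC U ψ)
    (hζ : ContDiffOn ℝ ∞ ζ U) : IsTestC U fun x => ψ x * ζ x := by
  refine ⟨rharm_glue hU (isClosed_tsupport ψ) hψ.2.2 (hψ.1.contDiffOn.mul hζ) fun x hx => ?_,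
    hψ.2.1.mul_right, (tsupport_mul_subset_left).trans hψ.2.2⟩
  rw [image_eq_zero_of_notMem_tsupport hx, zero_mul]

/-- fundamental lemma of the calculus of variations -/
theorem ae_zero_of_tests [CompleteSpace V] (hU : IsOpen U) {F : E → V} (hF : LocLp 1 U F)
    (h : ∀ φ, IsTest U φ → ∫ x, φ x • F x = 0) : ∀ᵐ x, x ∈ U → F x = 0 := by
  exact hU.ae_eq_zero_of_integral_contDiff_smul_eq_zero (hF.locallyIntegrableOn le_rfl hU)
    fun g a b c => h g ⟨a, b, c⟩

/-- weak second derivatives are symmetric -/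
theorem second_symm [CompleteSpace V] (hU : IsOpen U) {u : E → V} {D : E → E →L[ℝ] V}
    (hu : WD 1 U u D) {v w : E} {γv γw : E → E →L[ℝ] V} (hv : WD 1 U (fun x => D x v) γv)
    (hw : WD 1 U (fun x => D x w) γw) : ∀ᵐ x, x ∈ U → γw x v = γv x w := by
  have l1 := hw.2.1.apply v
  have l2 := hv.2.1.apply w
  have key := ae_zero_of_tests hU (l1.sub l2) fun φ hφ => ?_
  · filter_upwards [key] with x hx hxU using sub_eq_zero.1 (hx hxU)
  simp only [smul_sub]
  rw [integral_sub (l1.integrable_test le_rfl hφ) (l2.integrable_test le_rfl hφ), sub_eq_zero,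
    ← neg_inj, ← hw.2.2 φ hφ v, ← hv.2.2 φ hφ w, ← neg_inj, ← hu.2.2 _ (rharm_dtest hφ v) w,
    ← hu.2.2 _ (rharm_dtest hφ w) v]
  refine integral_congr_ae (Eventually.of_forall fun x => ?_)
  have hd : DifferentiableAt ℝ (fderiv ℝ φ) x :=
    (hφ.1.fderiv_right (m := 1) (by norm_cast)).differentiable one_ne_zero x
  have e : ∀ a b : E, fderiv ℝ (fun y => fderiv ℝ φ y a) x b = fderiv ℝ (fderiv ℝ φ) x b a := by
    intro a b
    rw [fderiv_clm_apply hd (differentiableAt_const a)]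
    simp
  have hs : IsSymmSndFDerivAt ℝ φ x :=
    hφ.1.contDiffAt.isSymmSndFDerivAt (by simp only [minSmoothness_of_isRCLikeNormedField]; norm_cast)
  simp only [e]
  rw [hs.eq w v]

/-- the strong form of the harmonic map equation -/
theorem harm_ae (hU : IsOpen U) {α : E → E →L[ℝ] E} (hα : ContDiffOn ℝ ∞ α U) (hd : DivFree U α)
    {A : E → E →L[ℝ] Mat r} {β : E → E →L[ℝ] E →L[ℝ] Mat r} (hA : WD 2 U A β)
    (hh : Harm U α A) : ∀ᵐ x, x ∈ U → ∑ p, β x (α x (ob E p)) (ob E p) = 0 := by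
  set a : Fin (Module.finrank ℝ E) → Fin (Module.finrank ℝ E) → E → ℝ :=
    fun p q x => ⟪ob E q, α x (ob E p)⟫ with ha
  have sa : ∀ p q, ContDiffOn ℝ ∞ (a p q) U := fun p q =>
    contDiffOn_const.inner ℝ (hα.clm_apply contDiffOn_const)
  have ex : ∀ p x, α x (ob E p) = ∑ q, a p q x • ob E q := fun p x =>
    ((ob E).sum_repr' _).symm
  have hp : ∀ p, WD 2 U (fun x => A x (ob E p))
      fun x => (ContinuousLinearMap.apply ℝ (Mat r) (ob E p)).comp (β x) := fun p =>
    hA.clm (by norm_num) (ContinuousLinearMap.apply ℝ (Mat r) (ob E p))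
  have lβ : ∀ p q, LocLp 2 U fun x => β x (ob E q) (ob E p) := fun p q => (hp p).2.1.apply _
  have eF : ∀ x, ∑ p, β x (α x (ob E p)) (ob E p) =
      ∑ p, ∑ q, a p q x • β x (ob E q) (ob E p) := by
    intro x
    refine Finset.sum_congr rfl fun p _ => ?_
    rw [ex p x, map_sum, _root_.sum_apply]
    refine Finset.sum_congr rfl fun q _ => ?_
    rw [map_smul, _root_.smul_apply]
  simp only [eF]
  refine ae_zero_of_tests hU (locLp_one_of_two (rharm_sum _ fun p => rharm_sum _ fun q =>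
    (lβ p q).smul (sa p q).continuousOn)) fun φ hφ => ?_
  have hψ : ∀ p q, IsTest U fun x => φ x * a p q x := fun p q =>
    isTest_mul_of_contDiffOn hU hφ (sa p q)
  have hdiv : ∀ p x, ∑ q, fderiv ℝ (fun y => φ y * a p q y) x (ob E q) =
      fderiv ℝ φ x (α x (ob E p)) := by
    intro p x
    by_cases hx : x ∈ U
    · have dα : HasFDerivAt α (fderiv ℝ α x) x :=
        ((hα.contDiffAt (hU.mem_nhds hx)).differentiableAt (by simp)).hasFDerivAt
      have da : ∀ q, fderiv ℝ (fun y => φ y * a p q y) x (ob E q) =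
          φ x * ⟪ob E q, fderiv ℝ α x (ob E q) (ob E p)⟫ + a p q x * fderiv ℝ φ x (ob E q) := by
        intro q
        have h1 : HasFDerivAt (a p q) (((innerSL ℝ (ob E q)).comp
            (ContinuousLinearMap.apply ℝ E (ob E p))).comp (fderiv ℝ α x)) x :=
          ((innerSL ℝ (ob E q)).comp
            (ContinuousLinearMap.apply ℝ E (ob E p))).hasFDerivAt.comp x dα
        rw [fderiv_fun_mul (hφ.differentiable x) h1.differentiableAt, h1.fderiv]
        simp
      simp only [da]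
      rw [Finset.sum_add_distrib, ← Finset.mul_sum, hd x hx, mul_zero, zero_add, ex p x, map_sum]
      simp only [map_smul, smul_eq_mul]
    · simp [hφ.fderiv_zero_of_notMem hx, (hψ p _).fderiv_zero_of_notMem hx]
  have i1 : ∀ p q, Integrable fun x => (φ x * a p q x) • β x (ob E q) (ob E p) := fun p q =>
    (lβ p q).integrable_test (by norm_num) (hψ p q)
  have i2 : ∀ p q, Integrable fun x =>
      fderiv ℝ (fun y => φ y * a p q y) x (ob E q) • A x (ob E p) := fun p q =>
    (hp p).1.integrable_dtest (by norm_num) (hψ p q) _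
  have e1 : ∫ x, ∑ p, fderiv ℝ φ x (α x (ob E p)) • A x (ob E p) =
      ∑ p, ∑ q, ∫ x, fderiv ℝ (fun y => φ y * a p q y) x (ob E q) • A x (ob E p) := by
    simp only [← hdiv, Finset.sum_smul]
    rw [integral_finsetSum _ fun p _ => integrable_finsetSum _ fun q _ => i2 p q]
    exact Finset.sum_congr rfl fun p _ => integral_finsetSum _ fun q _ => i2 p q
  have e2 : ∫ x, φ x • ∑ p, ∑ q, a p q x • β x (ob E q) (ob E p) =
      ∑ p, ∑ q, ∫ x, (φ x * a p q x) • β x (ob E q) (ob E p) := by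
    simp only [Finset.smul_sum, smul_smul]
    rw [integral_finsetSum _ fun p _ => integrable_finsetSum _ fun q _ => i1 p q]
    exact Finset.sum_congr rfl fun p _ => integral_finsetSum _ fun q _ => i1 p q
  rw [e2, ← neg_eq_zero, ← hh φ hφ, e1, ← Finset.sum_neg_distrib]
  refine Finset.sum_congr rfl fun p _ => ?_
  rw [← Finset.sum_neg_distrib]
  exact Finset.sum_congr rfl fun q _ => ((hp p).2.2 _ (hψ p q) (ob E q)).symm

/-- from the strong to the weak form of closedness -/
theorem wcurl_of_ae {A : E → E →L[ℝ] Mat r} {β : E → E →L[ℝ] E →L[ℝ] Mat r} (hA : WD 2 U A β)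
    (L : E →L[ℝ] E) (h : ∀ᵐ x, x ∈ U → ∀ v w, β x v (L w) = β x w (L v)) :
    WCurl U (fun x => (A x).comp L) fun _ _ _ => 0 := by
  intro φ hφ v w
  have hp : ∀ z, WD 2 U (fun x => A x z)
      fun x => (ContinuousLinearMap.apply ℝ (Mat r) z).comp (β x) := fun z =>
    hA.clm (by norm_num) (ContinuousLinearMap.apply ℝ (Mat r) z)
  simp only [ContinuousLinearMap.comp_apply, smul_zero, integral_zero, neg_zero]
  rw [integral_sub ((hp (L w)).1.integrable_dtest (by norm_num) hφ v)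
    ((hp (L v)).1.integrable_dtest (by norm_num) hφ w), (hp (L w)).2.2 φ hφ v,
    (hp (L v)).2.2 φ hφ w, sub_eq_zero, neg_inj]
  refine integral_congr_ae ?_
  filter_upwards [h] with x hx
  by_cases hxU : x ∈ U
  · change φ x • β x v (L w) = φ x • β x w (L v)
    rw [hx hxU]
  · simp [hφ.zero_of_notMem hxU]

end Pool.Agent.PW
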