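import Pool.Agent.P.MP_65ad7c_ag.FFlat
import Pool.Agent.P.MP_65ad7c_ag.BDc
import Pool.Agent.P.MP_65ad7c_ag.RDiv
import Pool.Agent.P.MP_65ad7c_ag.RHarm

open MeasureTheory Set Filter Topology Metric Matrix
open scoped ComplexOrder ContDiff Matrix.Norms.Frobenius RealInnerProductSpace ENNReal
open Pool.Agent.Lib.Sob

noncomputable section
namespace Pool.Agent.PW

variable {E : Type} [NormedAddCommGroup E] [InnerProductSpace ℝ E] [FiniteDimensional ℝ E]
  [MeasurableSpace E] [BorelSpace E] {r : ℕ} {U : Set E}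

/-- a weakly closed form is weakly coclosed for a skew, divergence free coefficient field -/
theorem fharm_skew (hU : IsOpen U) {β : E → E →L[ℝ] E} (hβ : ContDiffOn ℝ ∞ β U)
    (hs : ∀ x ∈ U, ∀ v w, ⟪β x v, w⟫ = -⟪v, β x w⟫) (hd : DivFree U β)
    {om : E → E →L[ℝ] Mat r} (ho : LocLp 1 U om) (h : WCurl U om fun _ _ _ => 0) :
    Harm U β om := by
  intro φ hφ
  let ψ : _ → _ → E → ℝ := fun q p x => φ x * ⟪ob E q, β x (ob E p)⟫
  have hψ : ∀ q p, IsTest U (ψ q p) := fun q p =>
    isTest_mul_of_contDiffOn hU hφ (contDiffOn_const.inner ℝ (hβ.clm_apply contDiffOn_const))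
  have hanti : ∀ q p, ψ p q = fun x => -ψ q p x := fun q p => by
    funext x
    by_cases hx : x ∈ U
    · simp only [ψ]
      rw [real_inner_comm, hs x hx, mul_neg]
    · simp only [ψ, hφ.zero_of_notMem hx, zero_mul, neg_zero]
  have hint : ∀ q p v w, Integrable fun x => fderiv ℝ (ψ q p) x v • om x w := fun q p v w =>
    (ho.apply w).integrable_dtest le_rfl (hψ q p) v
  set I : _ → _ → Mat r := fun q p => ∫ x, fderiv ℝ (ψ q p) x (ob E q) • om x (ob E p) with hI
  have h1 : ∀ q p, I q p + I p q = 0 := fun q p => by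
    have := h (ψ q p) (hψ q p) (ob E q) (ob E p)
    rw [integral_sub (hint _ _ _ _) (hint _ _ _ _)] at this
    simp only [smul_zero, integral_zero, neg_zero] at this
    simp only [hI]
    rw [hanti q p]
    simp only [fderiv_fun_neg, _root_.neg_apply, neg_smul, integral_neg]
    rw [← sub_eq_add_neg, this]
  have h2 : ∑ p, ∑ q, I q p = 0 := by
    have h3 : ∑ p, ∑ q, (I q p + I p q) = 0 := by simp only [h1, Finset.sum_const_zero]
    simp only [Finset.sum_add_distrib] at h3
    rw [Finset.sum_comm (f := fun p q => I p q), ← two_smul ℝ] at h3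
    exact (smul_eq_zero.1 h3).resolve_left two_ne_zero
  rw [← h2]
  simp only [hI]
  simp_rw [← integral_finsetSum _ fun q _ => hint q _ _ _]
  rw [← integral_finsetSum _ fun p _ => integrable_finsetSum _ fun q _ => hint q _ _ _]
  refine integral_congr_ae (Eventually.of_forall fun x => Finset.sum_congr rfl fun p _ => ?_)
  rw [← Finset.sum_smul]
  congr 1
  by_cases hx : x ∈ U
  · have hb : DifferentiableAt ℝ β x :=
      (hβ.contDiffAt (hU.mem_nhds hx)).differentiableAt (by simp)
    have h4 : ∀ q, fderiv ℝ (ψ q p) x (ob E q) = φ x * ⟪ob E q, fderiv ℝ β x (ob E q) (ob E p)⟫ +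
        ⟪ob E q, β x (ob E p)⟫ * fderiv ℝ φ x (ob E q) := fun q => by
      have h5 : HasFDerivAt (fun y => ⟪ob E q, β y (ob E p)⟫) ((innerSL ℝ (ob E q)).comp
          ((ContinuousLinearMap.apply ℝ E (ob E p)).comp (fderiv ℝ β x))) x :=
        (innerSL ℝ (ob E q)).hasFDerivAt.comp x
          ((ContinuousLinearMap.apply ℝ E (ob E p)).hasFDerivAt.comp x hb.hasFDerivAt)
      rw [((hφ.differentiable x).hasFDerivAt.fun_mul h5).fderiv]
      simp
    simp only [h4, Finset.sum_add_distrib, ← Finset.mul_sum, hd x hx (ob E p), mul_zero, zero_add]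
    conv_lhs => rw [← (ob E).sum_repr' (β x (ob E p))]
    simp only [map_sum, map_smul, smul_eq_mul]
  · simp only [hφ.fderiv_zero_of_notMem hx, fun q => (hψ q p).fderiv_zero_of_notMem hx,
      _root_.zero_apply, Finset.sum_const_zero]

theorem fharm_inner {n : ℕ} (v w : EC n) : ⟪Complex.I • v, w⟫ = -⟪v, Complex.I • w⟫ := by
  simp only [PiLp.inner_apply, PiLp.smul_apply, smul_eq_mul, Complex.inner, ← Finset.sum_neg_distrib]
  refine Finset.sum_congr rfl fun i _ => ?_
  simp
  ring

theorem fharm_adj (n : ℕ) : (IL n).adjoint = -IL n := by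
  symm
  rw [ContinuousLinearMap.eq_adjoint_iff]
  intro v w
  simp only [_root_.neg_apply, IL_apply, inner_neg_left, fharm_inner, neg_neg]

/-- pluriharmonic metrics are harmonic -/
theorem KAtlas.PH.harm {n : ℕ} {Γ : Type} [Group Γ] {A : KAtlas n Γ} {U : Set (EC n)} {C : ℝ}
    {ρ : Γ →* Mat r} {h : A.ι → EC n → Mat r} {D : A.ι → EC n → EC n →L[ℝ] Mat r}
    (hU : IsOpen U) (hU6 : U ⊆ ball 0 6) (hC : 1 ≤ C) (hp : A.PH U ρ C h D) (a : A.ι) :
    Harm U (A.α a) fun x => PW.mc (h a x) (D a x) := by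
  have hα : A.α a = fun x => kα (A.g a x) := funext (A.α_eq a)
  have hI : ∀ x v, A.α a x (Complex.I • v) = Complex.I • A.α a x v := fun x v => by
    rw [A.α_eq]
    exact (Matrix.toEuclideanCLM (𝕜 := ℂ) (n := Fin n) (kH (A.g a x))).map_smul _ _
  have hc := A.coef a
  have hdf := divFree_kα isOpen_ball (A.kae a)
  rw [← hα] at hdf
  let L := (ContinuousLinearMap.compL ℝ (EC n) (EC n) (EC n)).flip (IL n)
  have h1 := fharm_skew hU (β := fun x => (A.α a x).comp (IL n))
    (L.contDiff.comp_contDiffOn (hc.1.mono hU6))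
    (fun x hx v w => by
      simp only [ContinuousLinearMap.comp_apply, IL_apply]
      rw [(hc.2 x (hU6 hx)).1, fharm_inner, hI])
    (fun x hx v => by
      have hb : DifferentiableAt ℝ (A.α a) x :=
        (hc.1.contDiffAt (isOpen_ball.mem_nhds (hU6 hx))).differentiableAt (by simp)
      have h5 := (L.hasFDerivAt.comp x hb.hasFDerivAt).fderiv
      rw [show (fun x => (A.α a x).comp (IL n)) = L ∘ A.α a from rfl, h5]
      exact hdf x (hU6 hx) _)
    (((hp.loc a).bm hU hC).2.locLp 1) (hp.loc a).ph2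
  intro φ hφ
  rw [← h1 φ hφ]
  refine integral_congr_ae (Eventually.of_forall fun x => ?_)
  have := bdc_contr (V := Mat r) (LinearMap.mk₂ ℝ
    (fun v w => fderiv ℝ φ x w • PW.mc (h a x) (D a x) v) (by simp) (fun c v w => by
      simp [smul_comm c]) (by simp [add_smul]) (by simp [mul_smul]))
    (IL n) ((A.α a x).comp (IL n))
  simp only [LinearMap.mk₂_apply, fharm_adj, ContinuousLinearMap.comp_apply, IL_apply,
    _root_.neg_apply, smul_neg, smul_smul, Complex.I_mul_I, neg_smul, one_smul,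
    neg_neg] at this
  simp only [ContinuousLinearMap.comp_apply, IL_apply]
  exact this.symm

end Pool.Agent.PW
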