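import Pool.Agent.P.MP_65ad7c_ag.FRot2

open MeasureTheory Set Filter Topology Metric Matrix
open scoped ComplexOrder ContDiff Matrix.Norms.Frobenius RealInnerProductSpace ENNReal
open Pool.Agent.Lib.Sob

noncomputable section
namespace Pool.Agent.PW

section be
variable {E : Type} [NormedAddCommGroup E] [InnerProductSpace ℝ E] [FiniteDimensional ℝ E]
  [MeasurableSpace E] [BorelSpace E] {r : ℕ} {U : Set E}
  {V W Z : Type} [NormedAddCommGroup V] [NormedSpace ℝ V] [NormedAddCommGroup W] [NormedSpace ℝ W]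
  [NormedAddCommGroup Z] [NormedSpace ℝ Z]

/-- bounded and measurable, with some bound -/
def BE (U : Set E) (u : E → V) : Prop := ∃ K, 0 ≤ K ∧ BM U K u

theorem BE.locLp [CompleteSpace V] {u : E → V} (h : BE U u) (n : ℕ) : LocLp n U u :=
  h.choose_spec.2.locLp n

theorem BE.bilin (B : V →L[ℝ] W →L[ℝ] Z) {u : E → V} {v : E → W} (h : BE U u) (h' : BE U v) :
    BE U fun x => B (u x) (v x) := by
  obtain ⟨K, hK, h1, h2⟩ := h
  obtain ⟨K', hK', h1', h2'⟩ := h'
  refine ⟨‖B‖ * K * K', by positivity, B.aestronglyMeasurable_comp₂ h1 h1', ?_⟩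
  filter_upwards [h2, h2'] with x a b hx
  exact (B.le_opNorm₂ _ _).trans (by gcongr; exacts [a hx, b hx])

theorem BE.add {u v : E → V} (h : BE U u) (h' : BE U v) : BE U fun x => u x + v x := by
  obtain ⟨K, hK, h1, h2⟩ := h
  obtain ⟨K', hK', h1', h2'⟩ := h'
  refine ⟨K + K', by positivity, h1.add h1', ?_⟩
  filter_upwards [h2, h2'] with x a b hx
  exact (norm_add_le _ _).trans (add_le_add (a hx) (b hx))

theorem BE.clm (L : V →L[ℝ] W) {u : E → V} (h : BE U u) : BE U fun x => L (u x) := by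
  obtain ⟨K, hK, h1, h2⟩ := h
  refine ⟨‖L‖ * K, by positivity, L.continuous.comp_aestronglyMeasurable h1, ?_⟩
  filter_upwards [h2] with x a hx
  exact (L.le_opNorm _).trans (by gcongr; exact a hx)

theorem BE.neg {u : E → V} (h : BE U u) : BE U fun x => -u x :=
  h.clm (-ContinuousLinearMap.id ℝ V)

theorem BE.sub {u v : E → V} (h : BE U u) (h' : BE U v) : BE U fun x => u x - v x := by
  simpa only [sub_eq_add_neg] using h.add h'.neg

theorem BE.apply {u : E → E →L[ℝ] V} (h : BE U u) (v : E) : BE U fun x => u x v :=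
  h.clm (ContinuousLinearMap.apply ℝ V v)

theorem BE.of_cont (hU : IsOpen U) {u : E → V} [SecondCountableTopology V] (h : ContinuousOn u U)
    {M : ℝ} (hb : ∀ x ∈ U, ‖u x‖ ≤ M) : BE U u :=
  ⟨|M|, abs_nonneg _, h.aestronglyMeasurable hU.measurableSet,
    Eventually.of_forall fun x hx => (hb x hx).trans (le_abs_self _)⟩

theorem BE.mul {u v : E → Mat r} (h : BE U u) (h' : BE U v) : BE U fun x => u x * v x :=
  h.bilin (ContinuousLinearMap.mul ℝ (Mat r)) h'

theorem BE.lmul {u : E → Mat r} {X : E → E →L[ℝ] Mat r} (h : BE U u) (h' : BE U X) :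
    BE U fun x => lmul (u x) (X x) :=
  h.bilin ((ContinuousLinearMap.compL ℝ E (Mat r) (Mat r)).comp
    (ContinuousLinearMap.mul ℝ (Mat r))) h'

theorem BE.rmul {u : E → Mat r} {X : E → E →L[ℝ] Mat r} (h' : BE U X) (h : BE U u) :
    BE U fun x => rmul (X x) (u x) :=
  h.bilin ((ContinuousLinearMap.compL ℝ E (Mat r) (Mat r)).comp
    (ContinuousLinearMap.mul ℝ (Mat r)).flip) h'

/-- the weak curl in the gauge of a frame -/
theorem Frame.wcurl (hU : IsOpen U) {B om : E → E →L[ℝ] Mat r} {g : E → Mat r}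
    {Φ : E → E → E → Mat r} (hg : Frame U B g) (b1 : BE U g) (hB : BE U B) (ho : BE U om)
    (hΦ : ∀ v w, BE U fun x => Φ x v w) (h : WCurl U om Φ) :
    WCurl U (fun x => lmul (g x)⁻¹ (rmul (om x) (g x))) fun x v w =>
      (g x)⁻¹ * (cm (B x v) (om x w) - cm (B x w) (om x v) + Φ x v w) * g x := by
  have h1 := wcurl_bilin (ContinuousLinearMap.mul ℝ (Mat r)).flip hU hg.wd (ho.locLp 2)
    (fun v w => (hΦ v w).locLp 2) h
  have h2 := wcurl_bilin (ContinuousLinearMap.mul ℝ (Mat r)) hU (hg.wd_inv hU).2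
    ((ho.rmul b1).locLp 2) (fun v w => (((((ho.apply w).mul ((hB.rmul b1).neg.apply v)).sub
      ((ho.apply v).mul ((hB.rmul b1).neg.apply w))).add ((hΦ v w).mul b1))).locLp 2) h1
  refine h2.congr (Eventually.of_forall fun _ _ => rfl) (Eventually.of_forall fun x _ v w => ?_)
  simp only [ContinuousLinearMap.mul_apply', lmul_apply, rmul_apply, _root_.neg_apply, cm]
  noncomm_ring

end be

section loc
variable {n r : ℕ} {U : Set (EC n)} {C : ℝ} {h g : EC n → Mat r} {D : EC n → EC n →L[ℝ] Mat r}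

theorem finv_rotB (p q : ℂ) (A : EC n →L[ℝ] Mat r) (v : EC n) :
    rotB p q A v = p • A v + q • A (Complex.I • v) := rfl

theorem finv_II (A : EC n →L[ℝ] Mat r) (v : EC n) : A (Complex.I • Complex.I • v) = -A v := by
  rw [smul_smul, Complex.I_mul_I, neg_smul, one_smul, map_neg]

theorem PH1.cm_rotB₂ {A : EC n →L[ℝ] Mat r} (hA : PH1 A) (p q p' q' : ℂ) (v w : EC n) :
    cm (rotB p q A v) (rotB p' q' A w) - cm (rotB p q A w) (rotB p' q' A v) =
      (2 * (p * p' + q * q')) • cm (A v) (A w) := by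
  have h1 := hA v w
  have h2 := hA v (Complex.I • w)
  rw [finv_II] at h2
  simp only [finv_rotB, cm, Matrix.add_mul, Matrix.mul_add, Matrix.smul_mul, Matrix.mul_smul,
    Matrix.mul_neg, Matrix.neg_mul] at h1 h2 ⊢
  linear_combination (norm := module) (2 * q * q') • h1 - (p * q' + q * p') • h2

/-- the Maurer-Cartan form of the transported metric -/
theorem finv_mc {P u : Mat r} {X : EC n →L[ℝ] Mat r} (hP : P.PosDef) (hu : IsUnit u.det)
    (hX : HermF X) (p q : ℝ) (v : EC n) :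
    mc (gm P u) (dgm P u X (-rmul (rotB p q (mc P X)) u)) v =
      u⁻¹ * rotB (1 - 2 * p) (-2 * q) (mc P X) v * u := by
  have hd : IsUnit P.det := (Matrix.isUnit_iff_isUnit_det _).1 hP.isUnit
  have h1 : P⁻¹ᴴ = P⁻¹ := hP.inv.isHermitian
  have h2 : u⁻¹ᴴ * uᴴ = 1 := by rw [← conjTranspose_mul, Matrix.mul_nonsing_inv _ hu]; simp
  have h3 : ∀ Y : Mat r, u⁻¹ᴴ * (uᴴ * Y) = Y := fun Y => by
    rw [← Matrix.mul_assoc, h2, Matrix.one_mul]
  simp only [mc, dgm, gm_inv hP (Matrix.mul_nonsing_inv _ hu), lmul_apply, rmul_apply,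
    _root_.add_apply, _root_.neg_apply, ContinuousLinearMap.comp_apply, adjL_apply, finv_rotB,
    conjTranspose_neg, conjTranspose_mul, conjTranspose_add, conjTranspose_smul, hX _, h1,
    Complex.star_def, Complex.conj_ofReal, Matrix.mul_assoc, Matrix.add_mul, Matrix.mul_add,
    Matrix.smul_mul, Matrix.mul_smul, Matrix.mul_neg, Matrix.neg_mul, h3,
    Matrix.nonsing_inv_mul_cancel_left _ _ hd, Matrix.mul_nonsing_inv_cancel_left _ _ hd]
  module

theorem PHL.rot_inv (hU : IsOpen U) (hC : 1 ≤ C) (hp : PHL U C h D) {p q : ℝ}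
    (hpq : p ^ 2 - p + q ^ 2 = 0) (hg : Frame U (rotA p q h D) g) {M : ℝ}
    (hM : ∀ x ∈ U, ‖g x‖ ≤ M ∧ ‖(g x)⁻¹‖ ≤ M) :
    ∃ (C2 : ℝ) (D2 : EC n → EC n →L[ℝ] Mat r), (∀ C3, C2 ≤ C3 →
      PHL U C3 (fun x => gm (h x) (g x)) D2) ∧
      Frame U (rotA p (-q) (fun x => gm (h x) (g x)) D2) fun x => (g x)⁻¹ := by
  have hC0 : 0 < C := by linarith
  have hpq' : (p : ℂ) ^ 2 - p + q ^ 2 = 0 := by exact_mod_cast hpq
  have hpos : ∀ x ∈ U, (h x).PosDef := fun x hx => (hp.bd x hx).posDef hC0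
  obtain ⟨m1, m2⟩ := hp.bm hU hC
  have hK : (0 : ℝ) ≤ r * C * C := by positivity
  have bR : ∀ p q : ℂ, BE U (rotA p q h D) := fun p q => ⟨_, by positivity, m1.lin m2 p q⟩
  have bg : BE U g := BE.of_cont hU hg.cont fun x hx => (hM x hx).1
  have bh : BE U h := BE.of_cont hU hp.cont fun x hx => (hp.bd x hx).norm_le hC0
  have bD : BE U D := ⟨C, hC0.le, hp.wd.2.1.aestronglyMeasurable (by norm_num) hU, hp.dbd⟩
  set D2 : EC n → EC n →L[ℝ] Mat r :=
    fun x => dgm (h x) (g x) (D x) (-rmul (rotA p q h D x) (g x)) with hD2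
  have bW := ((bR p q).rmul bg).neg
  have bD2 : BE U D2 :=
    (((bW.clm (ContinuousLinearMap.compL ℝ (EC n) (Mat r) (Mat r) (adjL r))).rmul
      (bh.mul bg)).add ((bg.clm (adjL r)).lmul (bD.rmul bg))).add
      (((bg.clm (adjL r)).mul bh).lmul bW)
  have hmc : ∀ᵐ x, x ∈ U → ∀ v, mc (gm (h x) (g x)) (D2 x) v =
      (g x)⁻¹ * rotA (1 - 2 * p) (-2 * q) h D x v * g x := by
    filter_upwards [wd_herm (by norm_num) hU hp.wd fun x hx => (hpos x hx).isHermitian]
      with x hx hx' v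
    exact finv_mc (hpos x hx') (hg.unit x hx') (hx hx') p q v
  obtain ⟨K2, hK2, -, hb2⟩ := bD2
  refine ⟨max (max 1 K2) (M * (r * C) * M), D2, fun C3 h3 => ⟨?_, fun x hx => ?_,
    wd_gm hU hp.wd hg.wd (LB.of_continuousOn hp.cont) (LB.of_continuousOn hg.cont), ?_, ?_, ?_⟩,
    (hg.wd_inv hU).1, fun x hx => Matrix.isUnit_nonsing_inv_det _ (hg.unit x hx),
    (hg.wd_inv hU).2.congr (Eventually.of_forall fun _ _ => rfl) ?_⟩
  · exact (((adjL r).continuous.comp_continuousOn hg.cont).mul hp.cont).mul hg.cont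
  · have hM0 : 0 ≤ M := (norm_nonneg _).trans (hM x hx).1
    have hi := Matrix.mul_nonsing_inv _ (hg.unit x hx)
    have a3 : M * (r * C) * M ≤ C3 := (le_max_right _ _).trans h3
    refine bd_of_norm (one_pos.trans_le ((le_max_left _ _).trans ((le_max_left _ _).trans h3)))
      (gm_posDef (hpos x hx) hi) (le_trans ?_ a3) (le_trans ?_ a3)
    · refine (norm_mul_le _ _).trans (mul_le_mul ((norm_mul_le _ _).trans (mul_le_mul ?_
        ((hp.bd x hx).norm_le hC0) (norm_nonneg _) hM0)) (hM x hx).1 (norm_nonneg _)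
        (by positivity))
      rw [Matrix.frobenius_norm_conjTranspose]; exact (hM x hx).1
    · rw [gm_inv (hpos x hx) hi]
      refine (norm_mul_le _ _).trans (mul_le_mul ((norm_mul_le _ _).trans (mul_le_mul (hM x hx).2
        ((hp.bd x hx).norm_inv_le hC0) (norm_nonneg _) hM0)) ?_ (norm_nonneg _) (by positivity))
      rw [Matrix.frobenius_norm_conjTranspose]; exact (hM x hx).2
  · filter_upwards [hb2] with x hx hx'
    exact (hx hx').trans ((le_max_right _ _).trans ((le_max_left _ _).trans h3))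
  · filter_upwards [hmc, hp.ph1] with x hx h1 hx' v w
    have hc : ∀ X Y : Mat r, cm ((g x)⁻¹ * X * g x) ((g x)⁻¹ * Y * g x) =
        (g x)⁻¹ * cm X Y * g x := fun X Y => by
      simp only [cm, Matrix.mul_assoc, Matrix.mul_nonsing_inv_cancel_left _ _ (hg.unit x hx'),
        Matrix.mul_sub, Matrix.sub_mul]
    simp only [hx hx', hc, rotA, (h1 hx').cm_rotB, h1 hx' v w]
  · have bA : BE U fun x => mc (h x) (D x) := ⟨_, hK, m1⟩
    have bc : ∀ v w, BE U fun x => -cm (mc (h x) (D x) v) (mc (h x) (D x) w) := fun v w =>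
      (((bA.apply v).mul (bA.apply w)).sub ((bA.apply w).mul (bA.apply v))).neg
    have b0 : BE U fun _ => (0 : Mat r) := BE.of_cont hU continuousOn_const fun _ _ => le_rfl
    have h1 := (flat_mc hU hp.wd (hp.lbd hC)).lin hp.ph2 (m1.locLp 1) (m2.locLp 1)
      (fun v w => (bc v w).locLp 1) (fun _ _ => b0.locLp 1) (2 * q) (1 - 2 * p)
    have h2 := hg.wcurl hU bg (bR p q) (bR (2 * q) (1 - 2 * p))
      (fun v w => ((bc v w).clm (((2 * q : ℂ) • ContinuousLinearMap.id ℂ (Mat r)).restrictScalars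
        ℝ)).add (b0.clm ((((1 - 2 * p : ℂ)) • ContinuousLinearMap.id ℂ (Mat r)).restrictScalars
        ℝ))) h1
    refine h2.congr ?_ ?_
    · filter_upwards [hmc] with x hx hx'
      ext1 v
      simp only [ContinuousLinearMap.comp_apply, IL_apply, hx hx', lmul_apply, rmul_apply, rotA,
        finv_rotB, finv_II, Matrix.mul_assoc]
      congr 2
      module
    · filter_upwards [hp.ph1] with x h1 hx' v w
      simp only [rotA, (h1 hx').cm_rotB₂]
      have : (2 * ((p : ℂ) * (2 * q) + q * (1 - 2 * p))) = 2 * q := by ring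
      simp [this]
  · filter_upwards [hmc] with x hx hx'
    ext1 v
    simp only [lmul_apply, rmul_apply, _root_.neg_apply, rotA, finv_rotB, finv_II, hx hx',
      Matrix.add_mul, Matrix.mul_add, Matrix.smul_mul, Matrix.mul_smul, Matrix.mul_neg,
      Matrix.neg_mul, Matrix.mul_assoc, Matrix.mul_nonsing_inv _ (hg.unit x hx'), Matrix.mul_one]
    linear_combination (norm := module) (-2 * hpq') • ((g x)⁻¹ * mc (h x) (D x) v)

end loc

/-- the transported metric is pluriharmonic and the inverse frames rotate back -/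
theorem KAtlas.PH.rot_inv {n r : ℕ} {Γ : Type} [Group Γ] {A : KAtlas n Γ} {R C : ℝ}
    {ρ ρ2 : Γ →* Mat r} {h g : A.ι → EC n → Mat r} {D : A.ι → EC n → EC n →L[ℝ] Mat r}
    (h1 : 1 ≤ R) (_h6 : R ≤ 6) (hC : 1 ≤ C) (hp : A.PH (ball 0 R) ρ C h D) {p q : ℝ}
    (hpq : p ^ 2 - p + q ^ 2 = 0) (hr : A.Rot (ball 0 R) ρ h D p q ρ2 g) (h0 : g A.a0 0 = 1) :
    ∃ (C2 : ℝ) (D2 : A.ι → EC n → EC n →L[ℝ] Mat r), 1 ≤ C2 ∧
      A.PH (ball 0 R) ρ2 C2 (fun a x => gm (h a x) (g a x)) D2 ∧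
      A.Rot (ball 0 R) ρ2 (fun a x => gm (h a x) (g a x)) D2 p ((-q : ℝ) : ℂ) ρ
        fun a x => (g a x)⁻¹ := by
  rw [Complex.ofReal_neg]
  obtain ⟨c, c', hb⟩ := A.rot_bound r h1 hC
  have hb' := (hb ρ ρ2 h g D p q hp (by exact_mod_cast hpq) hr h0).2
  choose C2 D2 h2 h3 using fun a => (hp.loc a).rot_inv isOpen_ball hC hpq (hr.fr a)
    fun x hx => ⟨(hb' a x hx).norm_le, (hb' a x hx).inv.norm_le⟩
  refine ⟨1 + ∑ a, |C2 a|, D2, le_add_of_nonneg_right (by positivity), ⟨fun a => h2 a _ ?_,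
    fun a b x hx => ?_⟩, h3, fun a b x hx => ?_⟩
  · have := Finset.single_le_sum (f := fun a => |C2 a|) (fun _ _ => abs_nonneg _)
      (Finset.mem_univ a)
    linarith [le_abs_self (C2 a)]
  · simp only [hp.mc a b x hx, gm_gm, hr.rel a b x hx]
  · have u1 := (hr.fr a).unit x hx.2.1
    have u2 := (hr.fr b).unit _ hx.2.2
    rw [← Matrix.nonsing_inv_mul_cancel_left _ (ρ2 _ * _) u1, ← Matrix.mul_assoc (g a x),
      ← hr.rel a b x hx, Matrix.mul_nonsing_inv_cancel_right _ _ u2]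

end Pool.Agent.PW
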