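import Pool.Agent.P.MP_65ad7c_ag.BExt

open MeasureTheory Set Filter Topology Metric Matrix
open scoped ComplexOrder ContDiff Matrix.Norms.Frobenius RealInnerProductSpace ENNReal
open Pool.Agent.Lib.Sob

noncomputable section
namespace Pool.Agent.PW

variable {E : Type} [NormedAddCommGroup E] [InnerProductSpace ℝ E] [FiniteDimensional ℝ E]
  {Γ : Type} [Group Γ]

theorem flift_tri (A : Pre E Γ) {a b e : A.ι} {x : E} (hb : x ∈ A.O a b) (he : x ∈ A.O a e) :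
    A.T a b x ∈ A.O b e ∧ A.T b e (A.T a b x) = A.T a e x ∧
      A.c a e x = A.c a b x * A.c b e (A.T a b x) := by
  have h1 := A.T_mem a b x hb
  have h2 := A.T_inv a b x hb
  have h3 := A.cocycle b a e _ h1 (by rw [h2]; exact he)
  have h4 := A.cocycle a b e x hb h3.1
  exact ⟨h3.1, h4.2.1.symm, h4.2.2⟩

/-- the lifting property on larger balls -/
theorem Atlas.lift_ball (A : Atlas E Γ) {R : ℝ} (h2 : 2 ≤ R) (h6 : R ≤ 6) (G : Type) [Group G]
    (τ : A.ι → A.ι → E → G)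
    (hl : ∀ a b, ∀ x ∈ A.ov (ball 0 R) a b, ∀ᶠ y in 𝓝 x, τ a b y = τ a b x)
    (hc : ∀ a b d, ∀ x ∈ A.ov (ball 0 R) a b, A.T a b x ∈ A.ov (ball 0 R) b d →
      τ a d x = τ a b x * τ b d (A.T a b x)) :
    ∃ (ρ : Γ →* G) (u : A.ι → G), u A.a0 = 1 ∧
      ∀ a b, ∀ x ∈ A.ov (ball 0 R) a b, τ a b x = (u a)⁻¹ * ρ (A.c a b x) * u b := by
  have s12 : ball (0 : E) 1 ⊆ ball 0 2 := ball_subset_ball (by norm_num)
  have s2R : ball (0 : E) 2 ⊆ ball 0 R := ball_subset_ball h2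
  have sR6 : ball (0 : E) R ⊆ ball 0 6 := ball_subset_ball h6
  have mono : ∀ {a b : A.ι} {x : E}, x ∈ A.ov (ball 0 2) a b → x ∈ A.ov (ball 0 R) a b :=
    fun hx => ⟨hx.1, s2R hx.2.1, s2R hx.2.2⟩
  obtain ⟨ρ, u, hu, hρ⟩ := A.lift G τ (fun a b x hx => hl a b x (mono hx))
    (fun a b d x hx hx' => hc a b d x (mono hx) (mono hx'))
  have hcov : ∀ a, ∀ x : E, ∃ e, x ∈ ball (0 : E) 6 → x ∈ A.O a e ∧ A.T a e x ∈ ball (0 : E) 1 := by
    intro a x
    by_cases hx : x ∈ ball (0 : E) 6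
    · obtain ⟨e, he⟩ := A.cover a x hx
      exact ⟨e, fun _ => he⟩
    · exact ⟨a, fun h => absurd h hx⟩
  choose e he using hcov
  let F : A.ι → A.ι → E → G := fun a d x => u a * τ a d x * (u d)⁻¹ * (ρ (A.c a d x))⁻¹
  have indep : ∀ a, ∀ x ∈ ball (0 : E) R, ∀ d d', x ∈ A.O a d → A.T a d x ∈ ball (0 : E) 1 →
      x ∈ A.O a d' → A.T a d' x ∈ ball (0 : E) 1 → F a d' x = F a d x := by
    intro a x hx d d' h1 h2 h3 h4
    obtain ⟨t1, t2, t3⟩ := flift_tri A.toPre h1 h3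
    have hz : A.T a d x ∈ A.ov (ball 0 2) d d' := ⟨t1, s12 h2, by rw [t2]; exact s12 h4⟩
    have t4 := hc a d d' x ⟨h1, hx, s2R (s12 h2)⟩ (mono hz)
    simp only [F]
    rw [t4, hρ d d' _ hz, t3, map_mul]
    group
  have loc : ∀ a, ∀ x ∈ ball (0 : E) R, ∀ᶠ y in 𝓝 x, F a (e a y) y = F a (e a x) x := by
    intro a x hx
    obtain ⟨h1, h2⟩ := he a x (sR6 hx)
    have o1 := (A.O_open a (e a x)).mem_nhds h1
    have o2 : ∀ᶠ y in 𝓝 x, A.T a (e a x) y ∈ ball (0 : E) 1 :=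
      ((A.T_smooth a (e a x)).continuousOn.continuousAt o1).eventually (isOpen_ball.mem_nhds h2)
    filter_upwards [o1, o2, isOpen_ball.mem_nhds hx, hl a (e a x) x ⟨h1, hx, s2R (s12 h2)⟩,
      A.c_loc a (e a x) x h1] with y y1 y2 y3 y4 y5
    obtain ⟨h3, h4⟩ := he a y (sR6 y3)
    rw [indep a y y3 (e a x) (e a y) y1 y2 h3 h4]
    simp only [F]
    rw [y4, y5]
  have key : ∀ a, ∀ x ∈ ball (0 : E) R, ∀ d, x ∈ A.O a d → A.T a d x ∈ ball (0 : E) 1 →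
      τ a d x = (u a)⁻¹ * ρ (A.c a d x) * u d := by
    intro a x hx d h1 h2
    letI : TopologicalSpace G := ⊥
    haveI : DiscreteTopology G := ⟨rfl⟩
    have h0 : (0 : E) ∈ ball (0 : E) 2 := mem_ball_self (by norm_num)
    have h3 : F a (e a x) x = F a (e a 0) 0 :=
      (convex_ball (0 : E) R).isPreconnected.constant (f := fun y => F a (e a y) y)
        (fun y hy => (continuousAt_const.congr (EventuallyEq.symm (loc a y hy))).continuousWithinAt)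
        hx (s2R h0)
    obtain ⟨h4, h5⟩ := he a 0 (sR6 (s2R h0))
    obtain ⟨h6, h7⟩ := he a x (sR6 hx)
    have h8 : F a (e a 0) 0 = 1 := by
      simp only [F]
      rw [hρ a (e a 0) 0 ⟨h4, h0, s12 h5⟩]
      group
    have h9 : F a d x = 1 := by rw [indep a x hx (e a x) d h6 h7 h1 h2, h3, h8]
    calc τ a d x = (u a)⁻¹ * F a d x * ρ (A.c a d x) * u d := by simp only [F]; group
      _ = _ := by rw [h9, mul_one]
  refine ⟨ρ, u, hu, fun a b x hx => ?_⟩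
  obtain ⟨h1, h3⟩ := he a x (sR6 hx.2.1)
  obtain ⟨t1, t2, t3⟩ := flift_tri A.toPre hx.1 h1
  have h4 : A.T b (e a x) (A.T a b x) ∈ ball (0 : E) 1 := by rw [t2]; exact h3
  have t4 := hc a b (e a x) x hx ⟨t1, hx.2.2, s2R (s12 h4)⟩
  rw [key a x hx.2.1 _ h1 h3, key b _ hx.2.2 _ t1 h4, t3, map_mul] at t4
  calc τ a b x = τ a b x * ((u b)⁻¹ * ρ (A.c b (e a x) (A.T a b x)) * u (e a x)) *
        ((u b)⁻¹ * ρ (A.c b (e a x) (A.T a b x)) * u (e a x))⁻¹ := by group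
    _ = _ := by rw [← t4]; group

/-- induction along chains -/
theorem Pre.chain_mem (A : Pre E Γ) {W G : Type} [Group G] (S : Submonoid (W → G))
    (ρ : W → Γ →* G) (u : W → A.ι → G)
    (hS : ∀ a b, ∀ x ∈ A.ov (ball 0 1) a b, (fun w => (u w a)⁻¹ * ρ w (A.c a b x) * u w b) ∈ S)
    {a b : A.ι} {γ : Γ} (h : A.Chain a b γ) : (fun w => (u w a)⁻¹ * ρ w γ * u w b) ∈ S := by
  induction h with
  | nil a =>
    have e : (fun w => (u w a)⁻¹ * ρ w 1 * u w a) = 1 := by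
      funext w; simp
    rw [e]; exact S.one_mem
  | cons a b d x γ hx _ ih =>
    have e : (fun w => (u w a)⁻¹ * ρ w (A.c a b x * γ) * u w d) =
        (fun w => (u w a)⁻¹ * ρ w (A.c a b x) * u w b) * fun w => (u w b)⁻¹ * ρ w γ * u w d := by
      funext w
      simp only [Pi.mul_apply, map_mul]
      group
    rw [e]; exact S.mul_mem (hS a b x hx) ih

theorem Atlas.rep_mem (A : Atlas E Γ) {W G : Type} [Group G] (S : Submonoid (W → G))
    (ρ : W → Γ →* G) (u : W → A.ι → G) (hu : ∀ w, u w A.a0 = 1)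
    (hS : ∀ a b, ∀ x ∈ A.ov (ball 0 1) a b, (fun w => (u w a)⁻¹ * ρ w (A.c a b x) * u w b) ∈ S) :
    (∀ γ, (fun w => ρ w γ) ∈ S) ∧ ∀ a, (fun w => u w a) ∈ S ∧ (fun w => (u w a)⁻¹) ∈ S := by
  borelize E
  have h1 : ∀ γ, (fun w => ρ w γ) ∈ S := fun γ => by
    simpa only [hu, inv_one, one_mul, mul_one] using A.toPre.chain_mem S ρ u hS (A.chain γ)
  refine ⟨h1, fun a => ?_⟩
  obtain ⟨γ, hγ⟩ := A.reach a
  have h2 := S.mul_mem (h1 γ⁻¹) (A.toPre.chain_mem S ρ u hS hγ)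
  have h3 := S.mul_mem (A.toPre.chain_mem S ρ u hS hγ.symm) (h1 γ)
  have e2 : ((fun w => ρ w γ⁻¹) * fun w => (u w A.a0)⁻¹ * ρ w γ * u w a) = fun w => u w a := by
    funext w
    simp only [Pi.mul_apply, map_inv, hu]
    group
  have e3 : ((fun w => (u w a)⁻¹ * ρ w γ⁻¹ * u w A.a0) * fun w => ρ w γ) =
      fun w => (u w a)⁻¹ := by
    funext w
    simp only [Pi.mul_apply, map_inv, hu]
    group
  rw [e2] at h2
  rw [e3] at h3
  exact ⟨h2, h3⟩

/-- a constant gauge between two representations -/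
theorem Pre.chain_conj (A : Pre E Γ) {M : Type} [Monoid M] (ρ ρ' : Γ →* M) (κ : A.ι → M)
    (hκ : ∀ a b, ∀ x ∈ A.ov (ball 0 1) a b, ρ (A.c a b x) * κ b = κ a * ρ' (A.c a b x))
    {a b : A.ι} {γ : Γ} (h : A.Chain a b γ) : ρ γ * κ b = κ a * ρ' γ := by
  induction h with
  | nil a => simp
  | cons a b d x γ hx _ ih =>
    rw [map_mul, map_mul, mul_assoc, ih, ← mul_assoc, hκ a b x hx, mul_assoc]

end Pool.Agent.PW
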