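import Pool.Agent.P.MP_65ad7c_ag.FDefs

open MeasureTheory Set Filter Topology Metric Matrix
open scoped ComplexOrder ContDiff Matrix.Norms.Frobenius RealInnerProductSpace ENNReal
open Pool.Agent.Lib.Sob

noncomputable section
namespace Pool.Agent.PW

open Pool.Agent.Lib.Flow

theorem fode_inv {X : Type} [NormedAddCommGroup X] [NormedSpace ℂ X] [CompleteSpace X]
    (K : X →L[ℂ] X →L[ℂ] X) (hK : ∀ b y, ∃! u, u + K b u = y) (y : X) :
    ∃ P : X → X, ContDiff ℂ ∞ P ∧ ∀ b, P b + K b (P b) = y := by
  have hu : ∀ b, IsUnit (1 + K b) := by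
    intro b
    rw [ContinuousLinearMap.isUnit_iff_bijective, Function.bijective_iff_existsUnique]
    exact hK b
  refine ⟨fun b => Ring.inverse (1 + K b) y, ?_, fun b => ?_⟩
  · refine ContDiff.clm_apply (contDiff_iff_contDiffAt.2 fun b => ?_) contDiff_const
    obtain ⟨w, hw⟩ := hu b
    have h1 : ContDiffAt ℂ ∞ (Ring.inverse : (X →L[ℂ] X) → _) (1 + K b) := by
      rw [← hw]; exact contDiffAt_ringInverse ℂ (R := X →L[ℂ] X) w
    exact h1.comp b (contDiff_const.add K.contDiff).contDiffAt
  · exact congrArg (fun T : X →L[ℂ] X => T y) (Ring.mul_inverse_cancel _ (hu b))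

section abs
variable {A : Type} [NormedRing A] [NormedAlgebra ℂ A] [NormedSpace ℝ A]
  [CompleteSpace A]

omit [CompleteSpace A] in
theorem fode_smul (c : ℂ) (γ : C(J, A)) : prim (c • γ) = c • prim γ := by
  ext s
  exact intervalIntegral.integral_smul c (ext γ)

omit [CompleteSpace A] in
/-- the primitive as a complex linear map -/
def fode_prim : C(J, A) →L[ℂ] C(J, A) where
  toFun := prim
  map_add' := map_add _
  map_smul' := fode_smul
  cont := (prim (E := A)).continuous

theorem fode_abs : ∃ P : C(J, A) → C(J, A), ContDiff ℂ ∞ P ∧ ∀ β, P β + prim (β * P β) = 1 := by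
  let K : C(J, A) →L[ℂ] C(J, A) →L[ℂ] C(J, A) :=
    ((ContinuousLinearMap.compL ℂ C(J, A) C(J, A) C(J, A)) fode_prim).comp
      (ContinuousLinearMap.mul ℂ C(J, A))
  have hK : ∀ b u, K b u = prim (b * u) := fun b u => rfl
  have := fode_inv K (fun b y => ?_) 1
  · simpa only [hK] using this
  · have := volterra (fun u : C(J, A) => b * u) ‖b‖ (norm_nonneg _) (fun γ η s => by
      rw [ContinuousMap.mul_apply, ContinuousMap.mul_apply, ← mul_sub]
      exact (norm_mul_le _ _).trans
        (mul_le_mul_of_nonneg_right (b.norm_coe_le_norm s) (norm_nonneg _))) (-1) y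
    simpa only [hK, neg_smul, one_smul, sub_neg_eq_add] using this

end abs

/-- the path ordered exponential -/
theorem exists_pexp (r : ℕ) : ∃ P : C(J, Mat r) → C(J, Mat r), IsPexp P := by
  exact fode_abs

end Pool.Agent.PW
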