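import Pool.Agent.P.MP_65ad7c_ag.FGron

open MeasureTheory Set Filter Topology Metric Matrix
open scoped ComplexOrder ContDiff Matrix.Norms.Frobenius RealInnerProductSpace ENNReal
open Pool.Agent.Lib.Sob

noncomputable section
namespace Pool.Agent.PW

open Pool.Agent.Lib.Flow

variable {E : Type} [NormedAddCommGroup E] [InnerProductSpace ℝ E] [FiniteDimensional ℝ E] {r : ℕ}
  {P : C(J, Mat r) → C(J, Mat r)} {B : C(E, E →L[ℝ] Mat r)} {K : ℝ}

/-- the path `s ↦ (s x, x)` as a linear function of `x` -/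
def frad_eta (E : Type) [NormedAddCommGroup E] [InnerProductSpace ℝ E] [FiniteDimensional ℝ E] :
    E →L[ℝ] C(J, E × E) :=
  LinearMap.toContinuousLinearMap
    { toFun := fun x => ⟨fun s => ((s : ℝ) • x, x), by fun_prop⟩
      map_add' := fun x y => by
        ext s
        · simp
        · simp
      map_smul' := fun c x => by
        ext s
        · simp [smul_smul, mul_comm]
        · simp }

theorem ray_contDiff (hB : ContDiff ℝ ∞ B) : ContDiff ℝ ∞ (ray B) := by
  let F : C(E × E, Mat r) := ⟨fun z => B z.1 z.2, by fun_prop⟩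
  have hF : ContDiff ℝ ∞ F := (hB.comp contDiff_fst).clm_apply contDiff_snd
  exact (contDiff_postcomp (X := J) (n := ⊤) F hF).comp (frad_eta E).contDiff

theorem ray_fderiv (hB : ContDiff ℝ ∞ B) (x v : E) (s : J) :
    fderiv ℝ (ray B) x v s = (s : ℝ) • fderiv ℝ B ((s : ℝ) • x) v x + B ((s : ℝ) • x) v := by
  have h1 : HasFDerivAt (ray B) (fderiv ℝ (ray B) x) x :=
    ((ray_contDiff hB).differentiable (by simp) x).hasFDerivAt
  have h2 := (ContinuousMap.evalCLM ℝ (M := Mat r) s).hasFDerivAt.comp x h1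
  have h3 : HasFDerivAt (fun y : E => (s : ℝ) • y) ((s : ℝ) • ContinuousLinearMap.id ℝ E) x :=
    (hasFDerivAt_id x).const_smul (s : ℝ)
  have h4 := (((hB.differentiable (by simp) _).hasFDerivAt).comp x h3).clm_apply (hasFDerivAt_id x)
  have h5 := congrArg (fun L => L v) (h2.unique h4)
  simpa [add_comm] using h5

theorem norm_ray_le (hK : ∀ x, ‖B x‖ ≤ K) (x : E) (s : J) : ‖ray B x s‖ ≤ K * ‖x‖ := by
  exact ((B _).le_opNorm x).trans (mul_le_mul_of_nonneg_right (hK _) (norm_nonneg x))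

theorem radial_contDiff (hP : IsPexp P) (hB : ContDiff ℝ ∞ B) : ContDiff ℝ 1 (radial P B) := by
  exact ((ContinuousMap.evalCLM ℝ (M := Mat r) (1 : J)).contDiff.comp
    ((hP.1.restrict_scalars ℝ).comp (ray_contDiff hB))).of_le (by simp)

theorem radial_zero (hP : IsPexp P) : radial P B 0 = 1 := by
  have h0 : ray B 0 = 0 := by
    ext1 s
    simp
  have h1 := hP.2 0
  rw [zero_mul, map_zero, add_zero] at h1
  rw [radial, h0, h1]
  rfl

theorem radial_bil (hP : IsPexp P) (hK : ∀ x, ‖B x‖ ≤ K) (x : E) :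
    Bil (Real.exp (K * ‖x‖)) (radial P B x) :=
  pexp_bil (norm_ray_le hK x) (hP.2 _) 1

theorem radial_mem (hP : IsPexp P) {S : Submodule ℂ (Mat r)} {G : Set (Mat r)} (hG : OdeInv S G)
    (hB : ∀ x v, B x v ∈ S) (x : E) : radial P B x ∈ G :=
  pexp_mem hG (fun _ => hB _ _) (hP.2 _)

theorem radial_hol (hP : IsPexp P) (B1 B2 : C(E, E →L[ℝ] Mat r)) {p q : ℂ → ℂ}
    (hp : Differentiable ℂ p) (hq : Differentiable ℂ q) (x : E) :
    Differentiable ℂ fun w => radial P (p w • B1 + q w • B2) x := by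
  have h0 : ∀ w, ray (p w • B1 + q w • B2) x = p w • ray B1 x + q w • ray B2 x := fun w => by
    ext1 s
    rfl
  simp only [radial, h0]
  exact (ContinuousMap.evalCLM ℂ (M := Mat r) (1 : J)).differentiable.comp
    ((hP.1.differentiable (by simp)).comp ((hp.smul_const _).add (hq.smul_const _)))

end Pool.Agent.PW
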