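import Pool.Agent.P.MP_65ad7c_ag.FUniq

open MeasureTheory Set Filter Topology Metric Matrix
open scoped ComplexOrder ContDiff Matrix.Norms.Frobenius RealInnerProductSpace ENNReal
open Pool.Agent.Lib.Sob

noncomputable section
namespace Pool.Agent.PW

variable {n r : ℕ} {Γ : Type} [Group Γ]

theorem ftrans_restrict {O O' W : Set (EC n)} {T T' : EC n → EC n} (h : Diffeo O O' T T')
    (hW : IsOpen W) : Diffeo (O ∩ W) (O' ∩ T' ⁻¹' W) T T' where
  o := h.o.inter hW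
  o' := h.s'.continuousOn.isOpen_inter_preimage h.o' hW
  m := fun x hx => ⟨h.m hx.1, by rw [mem_preimage, h.l x hx.1]; exact hx.2⟩
  m' := fun y hy => ⟨h.m' hy.1, hy.2⟩
  l := fun x hx => h.l x hx.1
  r := fun y hy => h.r y hy.1
  s := h.s.mono inter_subset_left
  s' := h.s'.mono inter_subset_left

theorem ftrans_hol (A : KAtlas n Γ) {a b : A.ι} {y : EC n} (hy : y ∈ A.O a b) (v : EC n) :
    fderiv ℝ (A.T a b) y (Complex.I • v) = Complex.I • fderiv ℝ (A.T a b) y v := by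
  have hd : DifferentiableAt ℂ (A.T a b) y :=
    (A.hol a b).differentiableAt ((A.O_open a b).mem_nhds hy)
  rw [hd.fderiv_restrictScalars ℝ]
  exact (fderiv ℂ (A.T a b) y).map_smul Complex.I v

/-- the transition matrices of two families of frames are locally constant -/
theorem KAtlas.trans_locConst (A : KAtlas n Γ) {U : Set (EC n)} (hU : IsOpen U) {C : ℝ}
    (hC : 1 ≤ C) {ρ : Γ →* Mat r} {h : A.ι → EC n → Mat r} {D : A.ι → EC n → EC n →L[ℝ] Mat r}
    (hp : A.PH U ρ C h D) {p q : ℂ} {g : A.ι → EC n → Mat r}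
    (hg : ∀ a, Frame U (rotA p q (h a) (D a)) (g a)) (a b : A.ι) :
    ∀ x ∈ A.ov U a b, ∀ᶠ y in 𝓝 x, (g a y)⁻¹ * ρ (A.c a b y) * g b (A.T a b y) =
      (g a x)⁻¹ * ρ (A.c a b x) * g b (A.T a b x) := by
  intro x hx
  obtain ⟨W, hWc, hWo, hxW⟩ := _root_.eventually_nhds_iff.mp (A.c_loc a b x hx.1)
  have hT := ftrans_restrict (A.diffeo hU a b) hWo
  have hm := A.mc_compat hU (fun a => (hp.loc a).wd) hp.mc
    (fun a y hy => ((hp.loc a).bd y hy).posDef (by linarith)) a b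
  have h1 : Frame (A.ov U a b ∩ W) (rotA p q (h a) (D a))
      fun y => ρ (A.c a b x) * g b (A.T a b y) := by
    refine Frame.comp hT ((hg b).mono fun y hy => hy.1.2.1) (rep_inv_mul ρ (A.c a b x)) ?_
    filter_upwards [hm] with y hy hy' v
    have e1 := hy hy'.1 v
    have e2 := hy hy'.1 (Complex.I • v)
    rw [hWc y hy'.2] at e1 e2
    rw [ftrans_hol A hy'.1.1] at e2
    simp only [rotA, rotB, ContinuousLinearMap.add_apply, ContinuousLinearMap.smul_apply,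
      ContinuousLinearMap.comp_apply, IL_apply]
    rw [e1, e2, Matrix.mul_add, Matrix.add_mul, Matrix.mul_smul, Matrix.mul_smul, Matrix.smul_mul,
      Matrix.smul_mul]
  have h2 := Frame.locConst hT.o ((hg a).mono fun y hy => hy.1.2.1) h1 x ⟨hx, hxW⟩
  filter_upwards [h2, hWo.mem_nhds hxW] with y hy hyW
  rw [hWc y hyW, Matrix.mul_assoc, Matrix.mul_assoc]
  exact hy

theorem ftrans_sq (t : Mat r) : ‖t‖ ^ 2 = (tᴴ * t).trace.re := by
  have h0 : (0 : ℝ) ≤ ∑ i, ∑ j, ‖t i j‖ ^ (2 : ℝ) :=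
    Finset.sum_nonneg fun _ _ => Finset.sum_nonneg fun _ _ => by positivity
  rw [Matrix.frobenius_norm_def, ← Real.rpow_natCast, ← Real.rpow_mul h0]
  norm_num
  rw [Finset.sum_comm]
  simp only [trace, diag, mul_apply, conjTranspose_apply, Complex.re_sum]
  refine Finset.sum_congr rfl fun j _ => Finset.sum_congr rfl fun i _ => ?_
  rw [Complex.star_def, ← Complex.normSq_eq_conj_mul_self, Complex.ofReal_re,
    Complex.normSq_eq_norm_sq]

theorem ftrans_norm {C : ℝ} (hC : 1 ≤ C) {P t : Mat r} (hP : Bd C P) (hQ : Bd C (gm P t)) :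
    ‖t‖ ≤ r * C := by
  have h1 := ((Obst.gm hP t).1.add hQ.2).trace_nonneg
  have e : gm P t - C⁻¹ • gm 1 t + (C • (1 : Mat r) - gm P t) = C • (1 : Mat r) - C⁻¹ • (tᴴ * t) := by
    rw [show gm (1 : Mat r) t = tᴴ * t by simp [gm]]
    abel
  rw [e] at h1
  have h2 := (Complex.le_def.mp h1).1
  have h3 : (C • (1 : Mat r) - C⁻¹ • (tᴴ * t)).trace.re = C * r - C⁻¹ * ‖t‖ ^ 2 := by
    rw [ftrans_sq]
    simp [trace_sub, trace_smul]
  rw [h3, Complex.zero_re] at h2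
  have hC0 : 0 < C := by linarith
  have h4 : ‖t‖ ^ 2 ≤ C * (C * r) := by
    rw [← inv_mul_le_iff₀ hC0]; linarith
  have h5 : (r : ℝ) ≤ (r : ℝ) ^ 2 := by exact_mod_cast Nat.le_self_pow two_ne_zero r
  refine le_of_sq_le_sq (le_trans h4 ?_) (by positivity)
  nlinarith [mul_le_mul_of_nonneg_left h5 (mul_pos hC0 hC0).le]

/-- the links of a representation with a bounded metric are bounded -/
theorem KAtlas.PH.norm_link {A : KAtlas n Γ} {U : Set (EC n)} {C : ℝ} (hC : 1 ≤ C)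
    {ρ : Γ →* Mat r} {h : A.ι → EC n → Mat r} {D : A.ι → EC n → EC n →L[ℝ] Mat r}
    (hp : A.PH U ρ C h D) {a b : A.ι} {x : EC n} (hx : x ∈ A.ov U a b) :
    ‖ρ (A.c a b x)‖ ≤ r * C ∧ ‖ρ (A.c a b x)⁻¹‖ ≤ r * C := by
  have key : ∀ a b x, x ∈ A.ov U a b → ‖ρ (A.c a b x)‖ ≤ r * C := fun a b x hx =>
    ftrans_norm hC ((hp.loc a).bd x hx.2.1) (hp.mc a b x hx ▸ (hp.loc b).bd _ hx.2.2)
  refine ⟨key a b x hx, ?_⟩
  rw [← A.c_symm hx.1]
  refine key b a _ ⟨A.T_mem a b x hx.1, hx.2.2, ?_⟩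
  rw [A.T_inv a b x hx.1]
  exact hx.2.1

end Pool.Agent.PW
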