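import Pool.Agent.P.MP_65ad7c_ag.FGauge
import Pool.Agent.P.MP_65ad7c_ag.FFlat
import Pool.Agent.P.MP_65ad7c_ag.FTrans
import Pool.Agent.P.MP_65ad7c_ag.FLift

open MeasureTheory Set Filter Topology Metric Matrix
open scoped ComplexOrder ContDiff Matrix.Norms.Frobenius RealInnerProductSpace ENNReal
open Pool.Agent.Lib.Sob

noncomputable section
namespace Pool.Agent.PW

variable {n r : ℕ} {Γ : Type} [Group Γ]

open Classical in
/-- a matrix as a unit -/
def frotUn (m : Mat r) : GL (Fin r) ℂ := if h : IsUnit m then h.unit else 1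

theorem frotUn_coe {m : Mat r} (h : IsUnit m) : (frotUn m : Mat r) = m := by
  simp [frotUn, h]

theorem frot_inv_hol {f : ℂ → Mat r} (hf : Differentiable ℂ f) (hu : ∀ w, IsUnit (f w).det) :
    Differentiable ℂ fun w => (f w)⁻¹ := by
  intro w
  simp only [Matrix.nonsing_inv_eq_ringInverse]
  obtain ⟨u, hu'⟩ := (Matrix.isUnit_iff_isUnit_det _).2 (hu w)
  have h1 : DifferentiableAt ℂ (Ring.inverse : Mat r → Mat r) (f w) := by
    rw [← hu']; exact (hasFDerivAt_ringInverse (𝕜 := ℂ) u).differentiableAt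
  exact h1.comp w (hf w)

/-- the global gauge attached to a family of frames -/
theorem frot_lift (A : KAtlas n Γ) {R C : ℝ} (h2 : 2 ≤ R) (h6 : R ≤ 6) (hC : 1 ≤ C)
    {ρ : Γ →* Mat r} {h : A.ι → EC n → Mat r} {D : A.ι → EC n → EC n →L[ℝ] Mat r}
    (hp : A.PH (ball 0 R) ρ C h D) {p q : ℂ} {g : A.ι → EC n → Mat r}
    (hg : ∀ a, Frame (ball 0 R) (rotA p q (h a) (D a)) (g a)) :
    ∃ (ρ' : Γ →* GL (Fin r) ℂ) (u : A.ι → GL (Fin r) ℂ), u A.a0 = 1 ∧
      ∀ a b, ∀ x ∈ A.ov (ball 0 R) a b, (((u a)⁻¹ * ρ' (A.c a b x) * u b : GL (Fin r) ℂ) : Mat r) =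
        (g a x)⁻¹ * ρ (A.c a b x) * g b (A.T a b x) := by
  have hun : ∀ a b, ∀ x ∈ A.ov (ball 0 R) a b,
      IsUnit ((g a x)⁻¹ * ρ (A.c a b x) * g b (A.T a b x)) := fun a b x hx =>
    (((Matrix.isUnit_iff_isUnit_det _).2
      (Matrix.isUnit_nonsing_inv_det _ ((hg a).unit x hx.2.1))).mul
      ((Group.isUnit _).map ρ)).mul ((Matrix.isUnit_iff_isUnit_det _).2 ((hg b).unit _ hx.2.2))
  obtain ⟨ρ', u, hu, hr⟩ := A.toAtlas.lift_ball h2 h6 (GL (Fin r) ℂ)
    (fun a b x => frotUn ((g a x)⁻¹ * ρ (A.c a b x) * g b (A.T a b x)))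
    (fun a b x hx => by
      filter_upwards [A.trans_locConst isOpen_ball hC hp hg a b x hx] with y hy
      rw [hy])
    (fun a b d x hx hx' => by
      obtain ⟨h1, h2, h3⟩ := A.cocycle a b d x hx.1 hx'.1
      have hd : x ∈ A.ov (ball 0 R) a d := ⟨h1, hx.2.1, h2 ▸ hx'.2.2⟩
      ext1
      rw [Units.val_mul, frotUn_coe (hun a d x hd), frotUn_coe (hun a b x hx),
        frotUn_coe (hun b d _ hx'), h2, h3, map_mul]
      simp only [Matrix.mul_assoc]
      rw [Matrix.mul_nonsing_inv_cancel_left _ _ ((hg b).unit _ hx.2.2)])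
  exact ⟨ρ', u, hu, fun a b x hx => by rw [← hr a b x hx, frotUn_coe (hun a b x hx)]⟩

/-- the rotated representations exist and depend holomorphically on the parameters -/
theorem KAtlas.exists_rot (A : KAtlas n Γ) {R C : ℝ} (h2 : 2 ≤ R) (h6 : R ≤ 6) (hC : 1 ≤ C)
    {ρ : Γ →* Mat r} {h : A.ι → EC n → Mat r} {D : A.ι → EC n → EC n →L[ℝ] Mat r}
    (hp : A.PH (ball 0 R) ρ C h D) :
    ∃ (ρ' : ℂ → ℂ → Γ →* Mat r) (g : ℂ → ℂ → A.ι → EC n → Mat r),
      (∀ p q, p ^ 2 - p + q ^ 2 = 0 →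
        A.Rot (ball 0 R) ρ h D p q (ρ' p q) (g p q) ∧ g p q A.a0 0 = 1) ∧
      (∀ p q : ℂ → ℂ, Differentiable ℂ p → Differentiable ℂ q →
        (∀ w, p w ^ 2 - p w + q w ^ 2 = 0) → ∀ γ, Differentiable ℂ fun w => ρ' (p w) (q w) γ) ∧
      ∀ (S : Submodule ℂ (Mat r)) (G : Submonoid (Mat r)), OdeInv S G →
        (∀ m ∈ G, IsUnit m.det → m⁻¹ ∈ G) → (∀ γ, ρ γ ∈ G) →
        (∀ a, ∀ᵐ x, x ∈ ball (0 : EC n) R → ∀ v, mc (h a x) (D a x) v ∈ S) →
        ∀ p q, p ^ 2 - p + q ^ 2 = 0 →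
          (∀ γ, ρ' p q γ ∈ G) ∧ ∀ a, ∀ x ∈ ball (0 : EC n) R, g p q a x ∈ G := by
  have hK : (0 : ℝ) ≤ r * C * C := by positivity
  choose gt h0 hbil hhol hfr hG using fun a =>
    exists_frames hK ((hp.loc a).bm isOpen_ball hC).1 ((hp.loc a).bm isOpen_ball hC).2
  have hF : ∀ p q : ℂ, p ^ 2 - p + q ^ 2 = 0 →
      ∀ a, Frame (ball 0 R) (rotA p q (h a) (D a)) (gt a p q) :=
    fun p q hpq a => hfr a p q ((hp.loc a).flat isOpen_ball hC hpq)
  have hex : ∀ p q : ℂ, ∃ (ρ' : Γ →* GL (Fin r) ℂ) (u : A.ι → GL (Fin r) ℂ), u A.a0 = 1 ∧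
      (p ^ 2 - p + q ^ 2 = 0 → ∀ a b, ∀ x ∈ A.ov (ball 0 R) a b,
        (((u a)⁻¹ * ρ' (A.c a b x) * u b : GL (Fin r) ℂ) : Mat r) =
          (gt a p q x)⁻¹ * ρ (A.c a b x) * gt b p q (A.T a b x)) := by
    intro p q
    by_cases hpq : p ^ 2 - p + q ^ 2 = 0
    · obtain ⟨ρ', u, hu, hr⟩ := frot_lift A h2 h6 hC hp (hF p q hpq)
      exact ⟨ρ', u, hu, fun _ => hr⟩
    · exact ⟨1, 1, rfl, fun h => absurd h hpq⟩
  choose ρ' u hu hr using hex
  have hov : ∀ a b, A.ov (ball 0 1) a b ⊆ A.ov (ball 0 R) a b := fun a b x hx =>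
    ⟨hx.1, ball_subset_ball (by linarith) hx.2.1, ball_subset_ball (by linarith) hx.2.2⟩
  refine ⟨fun p q => (Units.coeHom _).comp (ρ' p q),
    fun p q a x => gt a p q x * ((u p q a)⁻¹ : GL (Fin r) ℂ), fun p q hpq => ⟨⟨fun a => ?_,
      fun a b x hx => ?_⟩, by simp [h0, hu]⟩, fun p q hp' hq' hpq γ => ?_,
    fun S G hS hi hρ hm p q hpq => ?_⟩
  · exact (hF p q hpq a).mul_const ((Matrix.isUnit_iff_isUnit_det _).1 (Units.isUnit _))
  · have h1 := hr p q hpq a b x hx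
    have h3 := (hF p q hpq a).unit x hx.2.1
    simp only [Units.val_mul] at h1
    simp only [MonoidHom.comp_apply, Units.coeHom_apply]
    calc ρ (A.c a b x) * (gt b p q (A.T a b x) * ((u p q b)⁻¹ : GL (Fin r) ℂ))
        = gt a p q x * ((gt a p q x)⁻¹ * ρ (A.c a b x) * gt b p q (A.T a b x)) *
            ((u p q b)⁻¹ : GL (Fin r) ℂ) := by
          simp only [Matrix.mul_assoc]
          rw [Matrix.mul_nonsing_inv_cancel_left _ _ h3]
      _ = _ := by
          rw [← h1]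
          simp only [Matrix.mul_assoc, Units.mul_inv, Matrix.mul_one]
  · let S : Submonoid (ℂ → GL (Fin r) ℂ) :=
      { carrier := {f | Differentiable ℂ fun w => (f w : Mat r)}
        one_mem' := differentiable_const _
        mul_mem' := fun {f f'} hf hf' => Differentiable.mul hf hf' }
    refine (A.toAtlas.rep_mem S (fun w => ρ' (p w) (q w)) (fun w => u (p w) (q w))
      (fun w => hu _ _) fun a b x hx => ?_).1 γ
    change Differentiable ℂ fun w => _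
    simp only [fun w => hr (p w) (q w) (hpq w) a b x (hov a b hx)]
    exact ((frot_inv_hol (hhol a p q hp' hq' x) fun w =>
      (hbil a _ _ x (hov a b hx).2.1).isUnit).mul_const _).mul (hhol b p q hp' hq' _)
  · have hg : ∀ a x, gt a p q x ∈ G := fun a x => hG a S G hS
      (by filter_upwards [hm a] with y hy hy' v using ⟨hy hy' v, hy hy' _⟩) p q x
    let S' : Submonoid (Unit → GL (Fin r) ℂ) :=
      { carrier := {f | (f () : Mat r) ∈ G}
        one_mem' := G.one_mem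
        mul_mem' := fun {f f'} hf hf' => G.mul_mem hf hf' }
    have h1 := A.toAtlas.rep_mem S' (fun _ => ρ' p q) (fun _ => u p q) (fun _ => hu _ _)
      fun a b x hx => by
        change _ ∈ G
        rw [hr p q hpq a b x (hov a b hx)]
        exact G.mul_mem (G.mul_mem (hi _ (hg a x) (hbil a _ _ x (hov a b hx).2.1).isUnit) (hρ _))
          (hg b _)
    exact ⟨h1.1, fun a x _ => G.mul_mem (hg a x) (h1.2 a).2⟩

end Pool.Agent.PW
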