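import Pool.Agent.P.MP_65ad7c_ag.FGauge
import Pool.Agent.P.MP_65ad7c_ag.FFlat
import Pool.Agent.P.MP_65ad7c_ag.FTrans
import Pool.Agent.P.MP_65ad7c_ag.FLift

open MeasureTheory Set Filter Topology Metric Matrix
open scoped ComplexOrder ContDiff Matrix.Norms.Frobenius RealInnerProductSpace ENNReal
open Pool.Agent.Lib.Sob

noncomputable section
namespace Pool.Agent.PW

variable {n r : ℕ} {Γ : Type} [Group Γ] {A : KAtlas n Γ} {R C : ℝ} {ρ ρ1 ρ2 : Γ →* Mat r}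
  {h : A.ι → EC n → Mat r} {D : A.ι → EC n → EC n →L[ℝ] Mat r} {p q : ℂ}
  {g1 g2 : A.ι → EC n → Mat r}

theorem frot2_ov (hR : 1 ≤ R) {a b : A.ι} {x : EC n} (hx : x ∈ A.ov (ball 0 1) a b) :
    x ∈ A.ov (ball 0 R) a b := ⟨hx.1, ball_subset_ball hR hx.2.1, ball_subset_ball hR hx.2.2⟩

/-- uniqueness up to a constant conjugation -/
theorem KAtlas.Rot.unique (hR : 1 ≤ R) (h1 : A.Rot (ball 0 R) ρ h D p q ρ1 g1)
    (h2 : A.Rot (ball 0 R) ρ h D p q ρ2 g2) (γ : Γ) :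
    ρ1 γ * ((g1 A.a0 0)⁻¹ * g2 A.a0 0) = (g1 A.a0 0)⁻¹ * g2 A.a0 0 * ρ2 γ := by
  refine A.toPre.chain_conj ρ1 ρ2 (fun a => (g1 a 0)⁻¹ * g2 a 0) (fun a b x hx => ?_) (A.chain γ)
  have hx' := frot2_ov hR hx
  have e1 := h1.rel a b x hx'
  have e2 := h2.rel a b x hx'
  rw [(h1.fr a).eq_ball (h2.fr a) x hx'.2.1, (h1.fr b).eq_ball (h2.fr b) _ hx'.2.2,
    ← Matrix.mul_assoc, e1, Matrix.mul_assoc, Matrix.mul_assoc] at e2
  have e3 := congrArg (fun M => (g1 a x)⁻¹ * M) e2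
  simpa only [Matrix.nonsing_inv_mul_cancel_left _ _ ((h1.fr a).unit x hx'.2.1)] using e3

theorem KAtlas.rot_zero (A : KAtlas n Γ) (U : Set (EC n)) (ρ : Γ →* Mat r)
    (h : A.ι → EC n → Mat r) (D : A.ι → EC n → EC n →L[ℝ] Mat r) :
    A.Rot U ρ h D 0 0 ρ fun _ _ => 1 := by
  refine ⟨fun a => frame_one.congr (Eventually.of_forall fun x _ => ?_), fun a b x _ => by simp⟩
  simp [rotA, rotB]

/-- the dual representation `γ ↦ ρ(γ⁻¹)ᴴ` -/
def dualRep (ρ : Γ →* Mat r) : Γ →* Mat r where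
  toFun γ := (ρ γ⁻¹)ᴴ
  map_one' := by simp
  map_mul' a b := by simp [conjTranspose_mul]

theorem KAtlas.PH.rot_one {U : Set (EC n)} (hU : IsOpen U) (hC : 1 ≤ C) (hp : A.PH U ρ C h D) :
    A.Rot U ρ h D 1 0 (dualRep ρ) fun a x => (h a x)⁻¹ := by
  refine ⟨fun a => (frame_inv hU (hp.loc a).wd (hp.loc a).cont ((hp.loc a).lbd hC)).congr
    (Eventually.of_forall fun x _ => ?_), fun a b x hx => ?_⟩
  · simp [rotA, rotB]
  · have e : ρ (A.c a b x) * ρ (A.c a b x)⁻¹ = 1 := by rw [← map_mul, mul_inv_cancel, map_one]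
    rw [hp.mc a b x hx, gm_inv (((hp.loc a).bd x hx.2.1).posDef (by linarith)) e,
      ← Matrix.mul_assoc, ← Matrix.mul_assoc, e, Matrix.one_mul]
    rfl

theorem frot2_chain {a b : A.ι} {γ : Γ} (hc : A.Chain a b γ) :
    ∃ m : ℕ, ∀ (ρ' : Γ →* Mat r) (k : A.ι → Mat r) (L : ℝ), 0 ≤ L → (∀ a, IsUnit (k a).det) →
      (∀ a b, ∀ x ∈ A.ov (ball 0 1) a b, Bil L (k a * ρ' (A.c a b x) * (k b)⁻¹)) →
      Bil (L ^ m) (k a * ρ' γ * (k b)⁻¹) := by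
  induction hc with
  | nil a =>
    refine ⟨0, fun ρ' k L _ hk _ => ?_⟩
    rw [map_one, Matrix.mul_one, Matrix.mul_nonsing_inv _ (hk a), pow_zero]
    exact bil_one le_rfl
  | cons a b d x γ hx _ ih =>
    obtain ⟨m, hm⟩ := ih
    refine ⟨m + 1, fun ρ' k L hL hk hl => ?_⟩
    have h1 := (hl a b x hx).mul (hm ρ' k L hL hk hl) hL (pow_nonneg hL m)
    have e : k a * ρ' (A.c a b x) * (k b)⁻¹ * (k b * ρ' γ * (k d)⁻¹) =
        k a * ρ' (A.c a b x * γ) * (k d)⁻¹ := by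
      simp only [map_mul, Matrix.mul_assoc, Matrix.nonsing_inv_mul_cancel_left _ _ (hk b)]
    rwa [e, ← pow_succ'] at h1

theorem frot2_link (h1 : 1 ≤ R) (hC : 1 ≤ C) {ρ' : Γ →* Mat r} {g : A.ι → EC n → Mat r}
    (hp : A.PH (ball 0 R) ρ C h D) (hpq : p ^ 2 - p + q ^ 2 = 0)
    (hr : A.Rot (ball 0 R) ρ h D p q ρ' g) :
    (∀ a b, ∀ x ∈ A.ov (ball 0 1) a b,
      Bil (Real.exp ((2 * (r * C * C) * R + r * C) * (1 + ‖p‖ + ‖q‖)))
        (g a 0 * ρ' (A.c a b x) * (g b 0)⁻¹)) ∧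
    ∀ a, ∀ x ∈ ball (0 : EC n) R,
      Bil (Real.exp ((2 * (r * C * C) * R + r * C) * (1 + ‖p‖ + ‖q‖))) (g a x * (g a 0)⁻¹) := by
  have hK : (0 : ℝ) ≤ r * C * C := by positivity
  have hK' : (0 : ℝ) ≤ r * C := by positivity
  have hR : (0 : ℝ) ≤ R := by linarith
  have hs : 0 ≤ ‖p‖ + ‖q‖ := by positivity
  have h0 : (0 : EC n) ∈ ball (0 : EC n) R := mem_ball_self (by linarith)
  have key : ∀ a, ∀ x ∈ ball (0 : EC n) R,
      Bil (Real.exp (r * C * C * (‖p‖ + ‖q‖) * R)) (g a x * (g a 0)⁻¹) := fun a x hx => by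
    obtain ⟨b1, b2⟩ := (hp.loc a).bm isOpen_ball hC
    obtain ⟨G, G0, Gb, -, Gf, -⟩ := exists_frames hK b1 b2
    have hF : Frame (ball 0 R) (rotA p q (h a) (D a)) (G p q) :=
      Gf p q ((hp.loc a).flat isOpen_ball hC hpq)
    have e := hF.eq_ball (hr.fr a) x hx
    rw [G0, inv_one, Matrix.one_mul] at e
    rw [e, Matrix.mul_nonsing_inv_cancel_right _ _ ((hr.fr a).unit 0 h0)]
    exact Gb p q x hx
  have hP := mul_nonneg (mul_nonneg hK hs) hR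
  refine ⟨fun a b x hx => ?_, fun a x hx => (key a x hx).mono (Real.exp_le_exp.2 ?_)⟩
  · have hx' := frot2_ov h1 hx
    obtain ⟨n1, n2⟩ := hp.norm_link hC hx'
    have b1 : Bil (r * C) (ρ (A.c a b x)) := bil_of_norm (rep_inv_mul ρ _) n1 n2
    have b2 := ((key a x hx'.2.1).inv.mul b1 (Real.exp_pos _).le hK').mul (key b _ hx'.2.2)
      (by positivity) (Real.exp_pos _).le
    have e : (g a x * (g a 0)⁻¹)⁻¹ * ρ (A.c a b x) * (g b (A.T a b x) * (g b 0)⁻¹) =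
        g a 0 * ρ' (A.c a b x) * (g b 0)⁻¹ := by
      rw [Matrix.mul_inv_rev, Matrix.nonsing_inv_nonsing_inv _ ((hr.fr a).unit 0 h0),
        ← Matrix.mul_assoc, Matrix.mul_assoc _ (ρ _), hr.rel a b x hx', Matrix.mul_assoc (g a 0),
        Matrix.nonsing_inv_mul_cancel_left _ _ ((hr.fr a).unit x hx'.2.1)]
    rw [e] at b2
    refine b2.mono ?_
    have e1 : (r * C : ℝ) ≤ Real.exp (r * C) := by linarith [Real.add_one_le_exp (r * C : ℝ)]
    calc _ ≤ Real.exp (r * C * C * (‖p‖ + ‖q‖) * R) * Real.exp (r * C) *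
          Real.exp (r * C * C * (‖p‖ + ‖q‖) * R) := by gcongr
      _ ≤ _ := by
        rw [← Real.exp_add, ← Real.exp_add]
        refine Real.exp_le_exp.2 ?_
        nlinarith [mul_nonneg hK hR, mul_nonneg hK' hs]
  · nlinarith [mul_nonneg hK hR, mul_nonneg hK' hs]

/-- bounds that depend only on the atlas and on `C` -/
theorem KAtlas.rot_bound (A : KAtlas n Γ) (r : ℕ) {R C : ℝ} (h1 : 1 ≤ R) (hC : 1 ≤ C) :
    ∃ (c : Γ → ℝ) (c' : ℝ), ∀ (ρ ρ' : Γ →* Mat r) (h g : A.ι → EC n → Mat r)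
      (D : A.ι → EC n → EC n →L[ℝ] Mat r) (p q : ℂ), A.PH (ball 0 R) ρ C h D →
      p ^ 2 - p + q ^ 2 = 0 → A.Rot (ball 0 R) ρ h D p q ρ' g → g A.a0 0 = 1 →
      (∀ γ, Bil (Real.exp (c γ * (1 + ‖p‖ + ‖q‖))) (ρ' γ)) ∧
        ∀ a, ∀ x ∈ ball (0 : EC n) R, Bil (Real.exp (c' * (1 + ‖p‖ + ‖q‖))) (g a x) := by
  choose m hm using fun γ => frot2_chain (r := r) (A.chain γ)
  have hb : ∀ a, A.Chain a A.a0 1 := fun a => by
    obtain ⟨γ, hγ⟩ := A.reach a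
    simpa using hγ.symm.trans (A.chain γ)
  choose m' hm' using fun a => frot2_chain (r := r) (hb a)
  set c0 : ℝ := 2 * (r * C * C) * R + r * C with hc0
  have hc : 0 ≤ c0 := by rw [hc0]; positivity
  refine ⟨fun γ => m γ * c0, ((∑ a, m' a : ℕ) + 1) * c0, fun ρ ρ' h g D p q hp hpq hr h0 => ?_⟩
  obtain ⟨l1, l2⟩ := frot2_link h1 hC hp hpq hr
  have hu : ∀ a, IsUnit (g a 0).det := fun a => (hr.fr a).unit 0 (mem_ball_self (by linarith))
  refine ⟨fun γ => ?_, fun a x hx => ?_⟩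
  · have b := hm γ ρ' (fun a => g a 0) _ (Real.exp_pos _).le hu l1
    rwa [h0, inv_one, Matrix.one_mul, Matrix.mul_one, ← Real.exp_nat_mul, ← mul_assoc] at b
  · have b := hm' a ρ' (fun a => g a 0) _ (Real.exp_pos _).le hu l1
    rw [h0, inv_one, map_one, Matrix.mul_one, Matrix.mul_one, ← Real.exp_nat_mul] at b
    have b2 := (l2 a x hx).mul b (Real.exp_pos _).le (Real.exp_pos _).le
    rw [Matrix.nonsing_inv_mul_cancel_right _ _ (hu a), ← Real.exp_add] at b2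
    refine b2.mono (Real.exp_le_exp.2 ?_)
    have e : (m' a : ℝ) ≤ (∑ a, m' a : ℕ) := by
      exact_mod_cast Finset.single_le_sum (fun i _ => Nat.zero_le (m' i)) (Finset.mem_univ a)
    have hs : 0 ≤ c0 * (1 + ‖p‖ + ‖q‖) := by positivity
    nlinarith

end Pool.Agent.PW
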