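import Pool.Agent.P.MP_65ad7c_ag.Base

open MeasureTheory Set Filter Topology Metric Matrix
open scoped ComplexOrder ContDiff Matrix.Norms.Frobenius RealInnerProductSpace ENNReal
open Pool.Agent.Lib.Sob

noncomputable section
namespace Pool.Agent.PW

variable {E : Type} [NormedAddCommGroup E] [InnerProductSpace ℝ E] [FiniteDimensional ℝ E]
  [MeasurableSpace E] [BorelSpace E] {r : ℕ} {U : Set E}
  {V W : Type} [NormedAddCommGroup V] [NormedSpace ℝ V] [NormedAddCommGroup W] [NormedSpace ℝ W]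

theorem tlip_int (k : ℕ) {g : E → V} {L : ℝ}
    (h : ∀ᵐ t : E, ‖t‖ < 1 / ((k : ℝ) + 1) → ‖g t‖ ≤ L) :
    ‖∫ t, (bump E k).normed volume t • g t‖ ≤ L := by
  have h1 : ∫ t, (bump E k).normed volume t * L = L := by
    rw [integral_mul_const, (bump E k).integral_normed, one_mul]
  rw [← h1]
  refine norm_integral_le_of_norm_le ((bump E k).integrable_normed.mul_const L) ?_
  filter_upwards [h] with t ht
  by_cases h0 : (bump E k).normed volume t = 0
  · simp [h0]
  · have h' : t ∈ Function.support ((bump E k).normed volume) := h0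
    rw [(bump E k).support_normed_eq, mem_ball, dist_zero_right] at h'
    rw [norm_smul, Real.norm_of_nonneg ((bump E k).nonneg_normed t)]
    exact mul_le_mul_of_nonneg_left (ht h') ((bump E k).nonneg_normed t)

theorem tlip_moll_le (k : ℕ) {g : E → V} {L : ℝ} {x : E}
    (h : ∀ᵐ t : E, t ∈ ball x (1 / ((k : ℝ) + 1)) → ‖g t‖ ≤ L) : ‖moll k g x‖ ≤ L := by
  unfold moll
  rw [convolution_lsmul]
  refine tlip_int k ?_
  filter_upwards [(Measure.measurePreserving_sub_left volume x).quasiMeasurePreserving.ae h]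
    with t ht h1
  exact ht (by simpa [mem_ball, dist_eq_norm] using h1)

theorem tlip_small {δ : ℝ} (hδ : 0 < δ) : ∀ᶠ k : ℕ in atTop, 1 / ((k : ℝ) + 1) < δ :=
  tendsto_one_div_add_atTop_nhds_zero_nat.eventually (gt_mem_nhds hδ)

theorem lipschitz_of_wd [CompleteSpace V] {n : ℕ} (hn : 1 ≤ n) (hU : IsOpen U) (hc : Convex ℝ U)
    {u : E → V} {D : E → E →L[ℝ] V} (h : WD n U u D) (hu : ContinuousOn u U) {L : ℝ}
    (hL : ∀ᵐ x, x ∈ U → ‖D x‖ ≤ L) : ∀ x ∈ U, ∀ y ∈ U, ‖u x - u y‖ ≤ L * ‖x - y‖ := by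
  intro x hx y hy
  have hK : IsCompact (segment ℝ x y) := by
    rw [segment_eq_image]
    exact isCompact_Icc.image (by fun_prop)
  obtain ⟨u', D', K', O, hg, -, -, -, hK'U, hO, hKO, hOK, -, -, e1, e2, hcu⟩ :=
    h.exists_global hn hU hK (hc.segment_subset hx hy)
  obtain ⟨δ, hδ, hth⟩ := hK.exists_thickening_subset_open hO hKO
  have lu := hg.1.locallyIntegrable hn
  have t := ((tendsto_moll_of_continuous (hcu hu) x).sub
    (tendsto_moll_of_continuous (hcu hu) y)).norm
  rw [e1 x (hKO (left_mem_segment ℝ x y)), e1 y (hKO (right_mem_segment ℝ x y))] at t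
  refine le_of_tendsto t ?_
  filter_upwards [tlip_small hδ] with k hk
  refine (convex_segment x y).norm_image_sub_le_of_norm_fderiv_le (𝕜 := ℝ)
    (fun z _ => (contDiff_moll k lu).differentiable (by simp) z) (fun z hz => ?_)
    (right_mem_segment ℝ x y) (left_mem_segment ℝ x y)
  rw [hg.fderiv_moll hn]
  refine tlip_moll_le k ?_
  filter_upwards [hL] with t ht h1
  have h2 : t ∈ O := hth (mem_thickening_iff.2 ⟨z, hz, (mem_ball.1 h1).trans hk⟩)
  rw [e2 t h2]
  exact ht (hK'U (hOK h2))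

theorem wd_norm_le [CompleteSpace V] {n : ℕ} (hn : 1 ≤ n) (hU : IsOpen U)
    {u : E → V} {D : E → E →L[ℝ] V} (h : WD n U u D) {L : ℝ} (hL0 : 0 ≤ L)
    (hL : ∀ x ∈ U, ∀ y ∈ U, ‖u x - u y‖ ≤ L * ‖x - y‖) : ∀ᵐ x, x ∈ U → ‖D x‖ ≤ L := by
  have key : ∀ x ∈ U, ∃ O, IsOpen O ∧ x ∈ O ∧ ∀ᵐ z, z ∈ O → ‖D z‖ ≤ L := by
    intro x hx
    obtain ⟨u', D', K', O, hg, -, -, -, hK'U, hO, hKO, hOK, -, -, e1, e2, -⟩ :=
      h.exists_global hn hU isCompact_singleton (singleton_subset_iff.2 hx)
    refine ⟨O, hO, hKO rfl, ?_⟩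
    have lu := hg.1.locallyIntegrable hn
    filter_upwards [ae_tendsto_moll (hg.2.1.locallyIntegrable hn)] with z hz hzO
    rw [← e2 z hzO]
    obtain ⟨ε, hε, hb⟩ := Metric.isOpen_iff.1 hO z hzO
    refine le_of_tendsto hz.norm ?_
    filter_upwards [tlip_small (half_pos hε)] with k hk
    rw [← hg.fderiv_moll hn]
    refine norm_fderiv_le_of_lip' ℝ hL0 ?_
    filter_upwards [ball_mem_nhds z (half_pos hε)] with a ha
    have ex := (bump E k).hasCompactSupport_normed.convolutionExists_left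
      (ContinuousLinearMap.lsmul ℝ ℝ) (μ := volume) ((bump E k).continuous_normed (μ := volume)) lu
    have i1 : Integrable fun t => (bump E k).normed volume t • u' (a - t) := ex a
    have i2 : Integrable fun t => (bump E k).normed volume t • u' (z - t) := ex z
    unfold moll
    rw [convolution_lsmul, convolution_lsmul, ← integral_sub i1 i2]
    simp only [← smul_sub]
    refine tlip_int k (Eventually.of_forall fun t ht => ?_)
    have m : ∀ b ∈ ball z (ε / 2), b - t ∈ O := fun b hb' => hb (by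
      rw [mem_ball, dist_eq_norm] at hb' ⊢
      have : b - t - z = (b - z) - t := by abel
      rw [this]
      linarith [norm_sub_le (b - z) t])
    have m1 := m a ha
    have m2 := m z (mem_ball_self (half_pos hε))
    rw [e1 _ m1, e1 _ m2]
    simpa using hL _ (hK'U (hOK m1)) _ (hK'U (hOK m2))
  rw [ae_iff]
  refine measure_null_of_locally_null _ fun x hx => ?_
  simp only [mem_ofPred_eq, Classical.not_imp] at hx
  obtain ⟨O, hO, hxO, hae⟩ := key x hx.1
  refine ⟨_, inter_mem_nhdsWithin _ (hO.mem_nhds hxO), measure_mono_null ?_ (ae_iff.1 hae)⟩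
  intro z hz h1
  exact hz.1 fun _ => h1 hz.2

/-- a continuous function with zero weak derivative is locally constant -/
theorem locConst_of_wd [CompleteSpace V] {n : ℕ} (hn : 1 ≤ n) (hU : IsOpen U)
    {u : E → V} {D : E → E →L[ℝ] V} (h : WD n U u D) (hu : ContinuousOn u U)
    (h0 : ∀ᵐ x, x ∈ U → D x = 0) : ∀ x ∈ U, ∀ᶠ y in 𝓝 x, u y = u x := by
  intro x hx
  obtain ⟨ε, hε, hb⟩ := Metric.isOpen_iff.1 hU x hx
  have := lipschitz_of_wd hn isOpen_ball (convex_ball x ε) (h.mono hb) (hu.mono hb) (L := 0)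
    (by filter_upwards [h0] with y hy h1 using by rw [hy (hb h1), norm_zero])
  filter_upwards [ball_mem_nhds x hε] with y hy
  have h1 := this y hy x (mem_ball_self hε)
  rwa [zero_mul, norm_le_zero_iff, sub_eq_zero] at h1

/-- two continuous functions that agree a.e. on an open set agree -/
theorem eqOn_of_ae (hU : IsOpen U) {u v : E → V} (hu : ContinuousOn u U) (hv : ContinuousOn v U)
    (h : ∀ᵐ x, x ∈ U → u x = v x) : ∀ x ∈ U, u x = v x :=
  Measure.eqOn_open_of_ae_eq (μ := volume) ((ae_restrict_iff' hU.measurableSet).2 h) hU hu hv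

end Pool.Agent.PW
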