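import Pool.Agent.P.MP_65ad7c_ag.FDefs
import Pool.Agent.P.MP_65ad7c_ag.BDc
import Pool.Agent.P.MP_65ad7c_ag.TLip

open MeasureTheory Set Filter Topology Metric Matrix
open scoped ComplexOrder ContDiff Matrix.Norms.Frobenius RealInnerProductSpace ENNReal
open Pool.Agent.Lib.Sob

noncomputable section
namespace Pool.Agent.PW

variable {E : Type} [NormedAddCommGroup E] [InnerProductSpace ℝ E] [FiniteDimensional ℝ E]
  [MeasurableSpace E] [BorelSpace E] {r : ℕ} {U : Set E}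

variable {B B' : E → E →L[ℝ] Mat r} {g g' : E → Mat r}

theorem Frame.mono {U' : Set E} (h : Frame U B g) (hU : U' ⊆ U) : Frame U' B g :=
  ⟨h.cont.mono hU, fun x hx => h.unit x (hU hx), h.wd.mono hU⟩

theorem Frame.congr (h : Frame U B g) (hB : ∀ᵐ x, x ∈ U → B x = B' x) : Frame U B' g :=
  ⟨h.cont, h.unit, h.wd.congr (Eventually.of_forall fun _ _ => rfl)
    (hB.mono fun x hx hU => by rw [hx hU])⟩

theorem Frame.mul_const (h : Frame U B g) {κ : Mat r} (hκ : IsUnit κ.det) :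
    Frame U B fun x => g x * κ := by
  refine ⟨h.cont.mul continuousOn_const, fun x hx => by
    rw [det_mul]; exact (h.unit x hx).mul hκ, ?_⟩
  refine (h.wd.clm (by norm_num) ((ContinuousLinearMap.mul ℝ (Mat r)).flip κ)).congr'
    (fun _ _ => rfl) fun x _ => ?_
  ext1 v
  simp [Matrix.mul_assoc]

omit [InnerProductSpace ℝ E] [FiniteDimensional ℝ E] [MeasurableSpace E] [BorelSpace E] in
theorem funiq_cont (hc : ContinuousOn g U) (hu : ∀ x ∈ U, IsUnit (g x).det) :
    ContinuousOn (fun x => (g x)⁻¹) U := fun x hx => by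
  have h1 : ContinuousAt Ring.inverse (g x).det := by
    obtain ⟨u, hu⟩ := hu x hx
    rw [← hu]
    exact NormedRing.inverse_continuousAt u
  exact (continuousAt_matrix_inv (g x) h1).comp_continuousWithinAt (hc x hx)

omit [InnerProductSpace ℝ E] [FiniteDimensional ℝ E] [MeasurableSpace E] [BorelSpace E] in
theorem funiq_bd (hc : ContinuousOn g U) (hu : ∀ x ∈ U, IsUnit (g x).det) (K : Set E)
    (hK : IsCompact K) (hKU : K ⊆ U) :
    ∃ C : ℝ, ∀ x ∈ K, IsUnit (g x).det ∧ ‖g x‖ ≤ C ∧ ‖(g x)⁻¹‖ ≤ C := by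
  obtain ⟨C, hC⟩ := hK.exists_bound_of_continuousOn (hc.mono hKU)
  obtain ⟨C', hC'⟩ := hK.exists_bound_of_continuousOn ((funiq_cont hc hu).mono hKU)
  exact ⟨max C C', fun x hx => ⟨hu x (hKU hx), (hC x hx).trans (le_max_left _ _),
    (hC' x hx).trans (le_max_right _ _)⟩⟩

theorem Frame.wd_inv (hU : IsOpen U) (h : Frame U B g) :
    ContinuousOn (fun x => (g x)⁻¹) U ∧ WD 2 U (fun x => (g x)⁻¹) fun x => lmul (g x)⁻¹ (B x) := by
  refine ⟨funiq_cont h.cont h.unit, (PW.wd_inv hU h.wd (funiq_bd h.cont h.unit)).congr'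
    (fun _ _ => rfl) fun x hx => ?_⟩
  ext1 v
  simp [Matrix.mul_assoc, Matrix.mul_nonsing_inv _ (h.unit x hx)]

theorem funiq_wd (hU : IsOpen U) (h : Frame U B g) (h' : Frame U B g') :
    ContinuousOn (fun y => (g y)⁻¹ * g' y) U ∧
      WD 2 U (fun y => (g y)⁻¹ * g' y) fun _ => (0 : E →L[ℝ] Mat r) := by
  obtain ⟨c, w⟩ := h.wd_inv hU
  refine ⟨c.mul h'.cont, (wd_mul hU w h'.wd (LB.of_continuousOn c)
    (LB.of_continuousOn h'.cont)).congr' (fun _ _ => rfl) fun x _ => ?_⟩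
  ext1 v
  simp [Matrix.mul_assoc]

/-- two frames differ by a locally constant matrix -/
theorem Frame.locConst (hU : IsOpen U) (h : Frame U B g) (h' : Frame U B g') :
    ∀ x ∈ U, ∀ᶠ y in 𝓝 x, (g y)⁻¹ * g' y = (g x)⁻¹ * g' x :=
  locConst_of_wd (by norm_num) hU (funiq_wd hU h h').2 (funiq_wd hU h h').1
    (Eventually.of_forall fun _ _ => rfl)

theorem Frame.eq_ball {R : ℝ} (h : Frame (ball 0 R) B g) (h' : Frame (ball 0 R) B g') :
    ∀ x ∈ ball (0 : E) R, g' x = g x * ((g 0)⁻¹ * g' 0) := by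
  intro x hx
  obtain ⟨c, w⟩ := funiq_wd isOpen_ball h h'
  have h1 := lipschitz_of_wd (by norm_num) isOpen_ball (convex_ball 0 R) w c (L := 0)
    (Eventually.of_forall fun _ _ => by simp) x hx 0 (mem_ball_self (pos_of_mem_ball hx))
  rw [zero_mul, norm_le_zero_iff, sub_eq_zero] at h1
  rw [← h1, ← Matrix.mul_assoc, Matrix.mul_nonsing_inv _ (h.unit x hx), Matrix.one_mul]

theorem frame_one : Frame U (fun _ => 0) fun _ => (1 : Mat r) := by
  refine ⟨continuousOn_const, fun _ _ => by simp, (WD.const (by norm_num) _).congr'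
    (fun _ _ => rfl) fun x _ => ?_⟩
  ext1 v
  simp

theorem frame_inv (hU : IsOpen U) {h : E → Mat r} {D : E → E →L[ℝ] Mat r} (hw : WD 2 U h D)
    (hc : ContinuousOn h U) (hb : LBd U h) :
    Frame U (fun x => mc (h x) (D x)) fun x => (h x)⁻¹ := by
  have hu : ∀ x ∈ U, IsUnit (h x).det := fun x hx =>
    (Matrix.isUnit_iff_isUnit_det _).1 (hb.posDef x hx).isUnit
  refine ⟨funiq_cont hc hu, fun x hx => Matrix.isUnit_nonsing_inv_det _ (hu x hx),
    (wd_inv hU hw (funiq_bd hc hu)).congr' (fun _ _ => rfl) fun x _ => ?_⟩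
  ext1 v
  simp [mc, Matrix.mul_assoc]

/-- a frame seen in another chart and another constant gauge -/
theorem Frame.comp {O O' : Set E} {T T' : E → E} (hT : Diffeo O O' T T') (h : Frame O' B' g)
    {τ τ' : Mat r} (hτ : τ' * τ = 1)
    (hB : ∀ᵐ x, x ∈ O → ∀ v, B x v = τ * B' (T x) (fderiv ℝ T x v) * τ') :
    Frame O B fun x => τ * g (T x) := by
  have hu : IsUnit τ.det := Matrix.isUnit_det_of_left_inverse hτ
  refine ⟨continuousOn_const.mul (h.cont.comp hT.s.continuousOn hT.m), fun x hx => by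
    rw [det_mul]; exact hu.mul (h.unit _ (hT.m hx)), ?_⟩
  refine ((hT.wd_comp (by norm_num) h.wd).clm (by norm_num)
    (ContinuousLinearMap.mul ℝ (Mat r) τ)).congr (Eventually.of_forall fun _ _ => rfl) ?_
  filter_upwards [hB] with x hx hO
  ext1 v
  have e : τ' * (τ * g (T x)) = g (T x) := by rw [← Matrix.mul_assoc, hτ, Matrix.one_mul]
  simp [hx hO v, Matrix.mul_assoc, e]

end Pool.Agent.PW
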