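import Pool.Agent.P.MP_65ad7c_ag.GLap

/-! Local theory of an embedded complex torus and the growth theorem. -/

namespace Pool.Agent.PW.G

open Complex Filter Topology Set Metric
open scoped InnerProductSpace Real

variable {E W : Type*} [NormedAddCommGroup E] [NormedSpace ℂ E] [FiniteDimensional ℂ E]
  [NormedAddCommGroup W] [InnerProductSpace ℂ W] [FiniteDimensional ℂ W]

/-- An embedded complex torus. -/
structure Ab (L : AddSubgroup E) (Θ : E → W) : Prop where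
  hol : ContDiff ℂ 1 Θ
  ne : ∀ z, Θ z ≠ 0
  inj : ∀ z w, (∃ c : ℂ, Θ w = c • Θ z) ↔ w - z ∈ L
  imm : ∀ z v, (∃ c : ℂ, fderiv ℂ Θ z v = c • Θ z) → v = 0
  disc : ∃ ε > 0, ∀ l ∈ L, ‖l‖ < ε → l = 0
  cpt : ∃ K, IsCompact K ∧ ∀ z, ∃ l ∈ L, z - l ∈ K

/-- The cone over a set of parameters. -/
def cone (Θ : E → W) (K : Set E) : Set W := {x | ∃ c : ℂ, ∃ z ∈ K, x = c • Θ z}

variable {L : AddSubgroup E} {Θ : E → W}

omit [FiniteDimensional ℂ E] [FiniteDimensional ℂ W] in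
lemma Ab.closed_cpt (h : Ab L Θ) {K : Set E} (hK : IsCompact K) : IsClosed (cone Θ K) := by
  have hc := h.hol.continuous
  rcases K.eq_empty_or_nonempty with rfl | hne
  · have : cone Θ ∅ = ∅ := by ext; simp [cone]
    rw [this]; exact isClosed_empty
  obtain ⟨z0, -, hz0⟩ := hK.exists_isMinOn hne (f := fun z => ‖Θ z‖) (by fun_prop)
  have hδ : 0 < ‖Θ z0‖ := norm_pos_iff.2 (h.ne z0)
  refine isClosed_of_closure_subset fun x hx => ?_
  have hS : IsCompact ((fun p : ℂ × E => p.1 • Θ p.2) ''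
      (closedBall 0 ((‖x‖ + 1) / ‖Θ z0‖) ×ˢ K)) :=
    ((isCompact_closedBall _ _).prod hK).image (by fun_prop)
  have h1 := isOpen_ball.inter_closure ⟨mem_ball_self (x := x) zero_lt_one, hx⟩
  have h2 : ball x 1 ∩ cone Θ K ⊆ (fun p : ℂ × E => p.1 • Θ p.2) ''
      (closedBall 0 ((‖x‖ + 1) / ‖Θ z0‖) ×ˢ K) := by
    rintro y ⟨hy, c, z, hz, rfl⟩
    refine ⟨(c, z), ⟨?_, hz⟩, rfl⟩
    rw [mem_closedBall_zero_iff, le_div_iff₀ hδ]
    have h3 : ‖c • Θ z‖ ≤ ‖x‖ + 1 := (norm_le_of_mem_closedBall (ball_subset_closedBall hy))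
    rw [norm_smul] at h3
    exact le_trans (mul_le_mul_of_nonneg_left (hz0 hz) (norm_nonneg c)) h3
  obtain ⟨p, hp, rfl⟩ := hS.isClosed.closure_subset_iff.2 h2 h1
  exact ⟨p.1, p.2, hp.2, rfl⟩

omit [FiniteDimensional ℂ E] [FiniteDimensional ℂ W] in
lemma Ab.shift (h : Ab L Θ) (z : E) {l : E} (hl : l ∈ L) : ∃ c : ℂ, Θ z = c • Θ (z - l) :=
  (h.inj _ _).2 (by simpa using hl)

omit [FiniteDimensional ℂ E] [FiniteDimensional ℂ W] in
lemma Ab.closed (h : Ab L Θ) : IsClosed (cone Θ univ) := by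
  obtain ⟨K, hK, hL⟩ := h.cpt
  convert h.closed_cpt hK using 1
  refine Subset.antisymm ?_ ?_
  · rintro _ ⟨c, z, -, rfl⟩
    obtain ⟨l, hl, hz⟩ := hL z
    obtain ⟨c', hc'⟩ := h.shift z hl
    exact ⟨c * c', z - l, hz, by rw [hc', smul_smul]⟩
  · rintro _ ⟨c, z, -, rfl⟩
    exact ⟨c, z, trivial, rfl⟩

omit [FiniteDimensional ℂ E] [FiniteDimensional ℂ W] in
lemma Ab.sub_mem (h : Ab L Θ) {c c' : ℂ} {z z' : E} (he : c • Θ z = c' • Θ z')
    (hne : c • Θ z ≠ 0) : z - z' ∈ L := by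
  have hc : c ≠ 0 := fun h0 => hne (by simp [h0])
  exact (h.inj _ _).1 ⟨c⁻¹ * c', by rw [← smul_smul, ← he, smul_smul, inv_mul_cancel₀ hc, one_smul]⟩

omit [FiniteDimensional ℂ E] [FiniteDimensional ℂ W] in
lemma Ab.near (h : Ab L Θ) {u : ℂ} {z0 : E} (hu : u • Θ z0 ≠ 0) {U : Set E} (hU : IsOpen U)
    (hz : z0 ∈ U) : ∀ᶠ x in 𝓝 (u • Θ z0), x ∈ cone Θ univ → x ∈ cone Θ U := by
  obtain ⟨K, hK, hL⟩ := h.cpt
  have hO : IsOpen (⋃ l ∈ L, (fun z => z - l) ⁻¹' U) :=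
    isOpen_biUnion fun l _ => hU.preimage (by fun_prop)
  have hcl := h.closed_cpt (hK.diff hO)
  have hn : u • Θ z0 ∉ cone Θ (K \ ⋃ l ∈ L, (fun z => z - l) ⁻¹' U) := by
    rintro ⟨c, z, hz', he⟩
    refine hz'.2 (mem_iUnion₂.2 ⟨z - z0, ?_, by simpa using hz⟩)
    simpa using L.neg_mem (h.sub_mem he hu)
  filter_upwards [hcl.isOpen_compl.mem_nhds hn] with x hx
  rintro ⟨c, z, -, rfl⟩
  obtain ⟨l, hl, hz⟩ := hL z
  obtain ⟨c', hc'⟩ := h.shift z hl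
  by_cases hm : z - l ∈ ⋃ l ∈ L, (fun z => z - l) ⁻¹' U
  · obtain ⟨l', hl', hm⟩ := mem_iUnion₂.1 hm
    obtain ⟨c'', hc''⟩ := h.shift (z - l) hl'
    exact ⟨c * c' * c'', z - l - l', hm, by rw [hc', hc'', smul_smul, smul_smul]⟩
  · exact (hx ⟨c * c', z - l, ⟨hz, hm⟩, by rw [hc', smul_smul]⟩).elim

/-- A holomorphic local inverse of the embedding. -/
lemma Ab.lift (h : Ab L Θ) {u : ℂ} {z0 : E} (hu : u • Θ z0 ≠ 0) :
    ∃ Φ : W → E, ContDiffAt ℂ 1 Φ (u • Θ z0) ∧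
      ∀ᶠ x in 𝓝 (u • Θ z0), x ∈ cone Θ univ → x ≠ 0 → ∃ c : ℂ, x = c • Θ (Φ x) := by
  have : CompleteSpace E := FiniteDimensional.complete ℂ E
  have hu0 : u ≠ 0 := fun h0 => hu (by simp [h0])
  let T : (E × ℂ) →ₗ[ℂ] W := (fderiv ℂ Θ z0 : E →ₗ[ℂ] W).coprod (LinearMap.toSpanSingleton ℂ W (Θ z0))
  have hT : LinearMap.ker T = ⊥ := by
    rw [LinearMap.ker_eq_bot']
    rintro ⟨v, c⟩ hv
    have hv' : fderiv ℂ Θ z0 v + c • Θ z0 = 0 := hv
    have h1 : v = 0 := h.imm z0 v ⟨-c, by rw [neg_smul]; exact eq_neg_of_add_eq_zero_left hv'⟩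
    rw [h1, map_zero, zero_add, smul_eq_zero] at hv'
    rw [h1, hv'.resolve_right (h.ne z0)]; rfl
  obtain ⟨S, hS⟩ := T.exists_leftInverse_of_injective hT
  let P : W →L[ℂ] E := LinearMap.toContinuousLinearMap ((LinearMap.fst ℂ E ℂ).comp S)
  let ℓ : W →L[ℂ] ℂ := LinearMap.toContinuousLinearMap ((LinearMap.snd ℂ E ℂ).comp S)
  have s1 : ∀ v, S (fderiv ℂ Θ z0 v) = (v, 0) := fun v => by
    have := LinearMap.congr_fun hS (v, 0)
    simpa [T] using this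
  have s2 : S (Θ z0) = (0, 1) := by
    have := LinearMap.congr_fun hS (0, 1)
    simpa [T] using this
  have p1 : ∀ v, P (fderiv ℂ Θ z0 v) = v := fun v => congrArg Prod.fst (s1 v)
  have p2 : P (Θ z0) = 0 := congrArg Prod.fst s2
  have l2 : ℓ (Θ z0) = 1 := congrArg Prod.snd s2
  let pr : W → E := fun x => (ℓ x)⁻¹ • P x
  have hpr : ∀ x, ℓ x ≠ 0 → ContDiffAt ℂ 1 pr x := fun x hx =>
    (ℓ.contDiff.contDiffAt.inv hx).smul P.contDiff.contDiffAt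
  have hps : ∀ (c : ℂ) x, c ≠ 0 → pr (c • x) = pr x := fun c x hc => by
    simp only [pr, map_smul, smul_eq_mul, smul_smul]
    congr 1
    rw [mul_inv, mul_right_comm, inv_mul_cancel₀ hc, one_mul]
  have hψ : ContDiffAt ℂ 1 (pr ∘ Θ) z0 := (hpr _ (by rw [l2]; exact one_ne_zero)).comp _
    h.hol.contDiffAt
  have hd : HasFDerivAt Θ (fderiv ℂ Θ z0) z0 := (h.hol.differentiable one_ne_zero z0).hasFDerivAt
  have hψ' : HasFDerivAt (pr ∘ Θ) ((ContinuousLinearEquiv.refl ℂ E : E ≃L[ℂ] E) : E →L[ℂ] E) z0 := by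
    have a1 : DifferentiableAt ℂ (fun z => (ℓ (Θ z))⁻¹) z0 :=
      (ℓ.differentiableAt.comp z0 hd.differentiableAt).inv (by simp [l2])
    have a2 := a1.hasFDerivAt.smul (P.hasFDerivAt.comp z0 hd)
    refine a2.congr_fderiv ?_
    ext v
    simp [p1, p2, l2]
  have hinv := hψ.to_localInverse hψ' one_ne_zero
  have hleft := (hψ.hasStrictFDerivAt' hψ' one_ne_zero).eventually_left_inverse
  obtain ⟨U, hU, hUo, hz⟩ := _root_.eventually_nhds_iff.1 hleft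
  refine ⟨hψ.localInverse hψ' one_ne_zero ∘ pr, ?_, ?_⟩
  · refine ContDiffAt.comp _ ?_ (hpr _ (by simp [l2, hu0]))
    rw [hps _ _ hu0]; exact hinv
  · filter_upwards [h.near hu hUo hz] with x hx hc hx0
    obtain ⟨c, z, hzU, rfl⟩ := hx hc
    have hc0 : c ≠ 0 := fun h0 => hx0 (by simp [h0])
    refine ⟨c, ?_⟩
    have := hU z hzU
    simp only [Function.comp, hps _ _ hc0] at this ⊢
    rw [show hψ.localInverse hψ' one_ne_zero (pr (Θ z)) = z from this]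

omit [FiniteDimensional ℂ W] in
lemma QF_pos {a b : W} (ha : a ≠ 0) (h : ¬ ∃ c : ℂ, b = c • a) : 0 < QF a b := by
  have hb : b ≠ 0 := fun h0 => h ⟨0, by simp [h0]⟩
  have h1 : ‖⟪a, b⟫_ℂ‖ ≠ ‖a‖ * ‖b‖ := fun he => by
    obtain ⟨r, -, hr⟩ := (norm_inner_eq_norm_iff ha hb).1 he
    exact h ⟨r, hr⟩
  have h2 := lt_of_le_of_ne (norm_inner_le_norm (𝕜 := ℂ) a b) h1
  rw [QF, ← mul_pow, sub_pos]
  gcongr

omit [FiniteDimensional ℂ W] in
lemma QF_smul (e μ : ℂ) (a b : W) : QF (e • a) (e • b + μ • a) = ‖e‖ ^ 4 * QF a b := by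
  have key : ∀ x y : W, (QF x y : ℂ) = ⟪x, x⟫_ℂ * ⟪y, y⟫_ℂ - ⟪x, y⟫_ℂ * ⟪y, x⟫_ℂ := fun x y => by
    rw [QF, inner_self_eq_norm_sq_to_K, inner_self_eq_norm_sq_to_K, ← inner_conj_symm y x,
      Complex.mul_conj']
    push_cast; rfl
  have e1 : ((‖e‖ ^ 4 : ℝ) : ℂ) = (e * (starRingEnd ℂ) e) ^ 2 := by
    rw [Complex.mul_conj']; push_cast; ring
  apply ofReal_injective
  rw [ofReal_mul, key, key, e1]
  simp only [inner_add_left, inner_add_right, inner_smul_left, inner_smul_right]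
  ring

omit [FiniteDimensional ℂ W] in
lemma Ab.fs (h : Ab L Θ) {K : Set E} (hK : IsCompact K) : ∃ c > 0, ∀ z ∈ K, ∀ v,
    c * ‖Θ z‖ ^ 4 * ‖v‖ ^ 2 ≤ QF (Θ z) (fderiv ℂ Θ z v) := by
  have : ProperSpace E := FiniteDimensional.proper ℂ E
  have hc := h.hol.continuous
  have hc' := h.hol.continuous_fderiv one_ne_zero
  have hne : ∀ z, ‖Θ z‖ ^ 4 ≠ 0 := fun z => pow_ne_zero _ (norm_ne_zero_iff.2 (h.ne z))
  have hF : Continuous fun p : E × E => QF (Θ p.1) (fderiv ℂ Θ p.1 p.2) / ‖Θ p.1‖ ^ 4 := by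
    unfold QF; fun_prop (disch := exact fun p => hne _)
  obtain ⟨c, hc0, hcb⟩ := (hK.prod (isCompact_sphere (0 : E) 1)).exists_forall_le' (a := 0)
    hF.continuousOn fun p hp => by
      refine div_pos (QF_pos (h.ne _) fun he => ?_) (lt_of_le_of_ne (by positivity) (hne _).symm)
      have := hp.2
      rw [h.imm _ _ he] at this
      simp at this
  refine ⟨c, hc0, fun z hz v => ?_⟩
  rcases eq_or_ne v 0 with rfl | hv
  · simp [QF]
  have hv' : (‖v‖ : ℂ) ≠ 0 := by exact_mod_cast norm_ne_zero_iff.2 hv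
  have h1 := hcb (z, (‖v‖ : ℂ)⁻¹ • v) ⟨hz, by simp [norm_smul, norm_ne_zero_iff.2 hv]⟩
  rw [le_div_iff₀ (lt_of_le_of_ne (by positivity) (hne _).symm)] at h1
  have h2 : QF (Θ z) (fderiv ℂ Θ z v) =
      QF (Θ z) (fderiv ℂ Θ z ((‖v‖ : ℂ)⁻¹ • v)) * ‖v‖ ^ 2 := by
    have := norm_ne_zero_iff.2 hv
    simp only [QF, map_smul, inner_smul_right, norm_smul, norm_mul, norm_inv, Complex.norm_real,
      norm_norm]
    field_simp
  rw [h2]
  gcongr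

end Pool.Agent.PW.G
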