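import Mathlib

/-! One variable growth lemma: an entire periodic function whose square is dominated by the
Fubini-Study density of an entire periodic curve of exponential type is constant. -/

namespace Pool.Agent.PW.G

open Complex MeasureTheory Filter Topology Set
open scoped InnerProductSpace Real

section Fourier

lemma In_indep {g : ℂ → ℂ} (hg : Differentiable ℂ g) (hp : ∀ w, g (w + 2 * π * I) = g w)
    (n : ℤ) (s : ℝ) :
    ∫ t in (0:ℝ)..2 * π, g (s + t * I) * exp (-(n * (s + t * I))) =
      ∫ t in (0:ℝ)..2 * π, g (t * I) * exp (-(n * (t * I))) := by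
  have hF : Differentiable ℂ fun w => g w * exp (-(n * w)) := by fun_prop
  have h := integral_boundary_rect_eq_zero_of_differentiableOn (fun w => g w * exp (-(n * w)))
    0 (s + (2 * π : ℝ) * I) hF.differentiableOn
  have e1 : (s + (2 * π : ℝ) * I : ℂ).re = s := by simp
  have e2 : (s + (2 * π : ℝ) * I : ℂ).im = 2 * π := by simp
  rw [e1, e2] at h
  have e3 : ∀ x : ℝ, g (x + ((2 * π : ℝ) : ℂ) * I) * exp (-(n * (x + ((2 * π : ℝ) : ℂ) * I))) =
      g (x + ((0 : ℂ).im : ℂ) * I) * exp (-(n * (x + ((0 : ℂ).im : ℂ) * I))) := by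
    intro x
    have : exp (-(n * (x + ((2 * π : ℝ) : ℂ) * I))) = exp (-(n * x)) := by
      rw [Complex.exp_eq_exp_iff_exists_int]
      exact ⟨-n, by push_cast; ring⟩
    rw [this]
    have h2 := hp x
    push_cast
    rw [h2]; simp
  simp only [e3, sub_self, zero_add] at h
  rw [sub_eq_zero] at h
  have h' := smul_right_injective ℂ I_ne_zero h
  simpa using h'

lemma In_zero {g : ℂ → ℂ} (hg : Differentiable ℂ g) (hp : ∀ w, g (w + 2 * π * I) = g w)
    {C : ℝ} (hb : ∀ K : ℝ, ∫ s in K..K + 1, ∫ t in (0:ℝ)..2 * π, ‖g (s + t * I)‖ ^ 2 ≤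
      C * Real.exp |K|) {n : ℤ} (hn : n ≠ 0) :
    ∫ t in (0:ℝ)..2 * π, g (t * I) * exp (-(n * (t * I))) = 0 := by
  set J := ∫ t in (0:ℝ)..2 * π, g (t * I) * exp (-(n * (t * I))) with hJ
  have hgc : Continuous g := hg.continuous
  have hh : Continuous fun s : ℝ => ∫ t in (0:ℝ)..2 * π, ‖g (s + t * I)‖ ^ 2 :=
    intervalIntegral.continuous_parametric_intervalIntegral_of_continuous' (by
      unfold Function.uncurry; fun_prop) _ _
  have hpi : (0:ℝ) ≤ 2 * π := by positivity
  have key : ∀ T : ℝ, 0 ≤ T → ‖J‖ ≤ Real.exp (-(T / 2)) * ((|C| * Real.exp 1 + 2 * π) / 2) := by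
    intro T hT
    obtain ⟨K, hK, hKs⟩ : ∃ K : ℝ, |K| ≤ T + 1 ∧ ∀ s ∈ Icc K (K + 1), -(n * s) ≤ -T := by
      rcases lt_or_gt_of_ne hn with h | h
      · refine ⟨-T - 1, by rw [abs_le]; constructor <;> linarith, fun s hs => ?_⟩
        have h1 : (n : ℝ) ≤ -1 := by exact_mod_cast (by omega : n ≤ -1)
        have := hs.2
        nlinarith
      · refine ⟨T, by rw [abs_le]; constructor <;> linarith, fun s hs => ?_⟩
        have h1 : (1 : ℝ) ≤ n := by exact_mod_cast (by omega : 1 ≤ n)
        have := hs.1
        nlinarith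
    set l := Real.exp (T / 2) with hl
    have hl0 : 0 < l := Real.exp_pos _
    have h1 : ∀ s ∈ Icc K (K + 1), ‖J‖ ≤ Real.exp (-T) *
        (((∫ t in (0:ℝ)..2 * π, ‖g (s + t * I)‖ ^ 2) / l + 2 * π * l) / 2) := by
      intro s hs
      rw [hJ, ← In_indep hg hp n s]
      refine (intervalIntegral.norm_integral_le_integral_norm hpi).trans ?_
      have e : Real.exp (-T) * (((∫ t in (0:ℝ)..2 * π, ‖g (s + t * I)‖ ^ 2) / l + 2 * π * l) / 2)
          = ∫ t in (0:ℝ)..2 * π, Real.exp (-T) * ((‖g (s + t * I)‖ ^ 2 / l + l) / 2) := by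
        rw [intervalIntegral.integral_const_mul, intervalIntegral.integral_div,
          intervalIntegral.integral_add, intervalIntegral.integral_div]
        · simp
        · exact Continuous.intervalIntegrable (by fun_prop) _ _
        · exact Continuous.intervalIntegrable (by fun_prop) _ _
      rw [e]
      refine intervalIntegral.integral_mono_on hpi
        (Continuous.intervalIntegrable (by fun_prop) _ _)
        (Continuous.intervalIntegrable (by fun_prop) _ _) fun t _ => ?_
      rw [norm_mul, Complex.norm_exp, mul_comm]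
      have e2 : (-(n * (s + t * I)) : ℂ).re = -(n * s) := by simp
      rw [e2]
      refine mul_le_mul (Real.exp_le_exp.2 (hKs s hs)) ?_ (norm_nonneg _) (Real.exp_pos _).le
      rw [le_div_iff₀ (by norm_num : (0:ℝ) < 2), div_add' _ _ _ hl0.ne', le_div_iff₀ hl0]
      nlinarith [sq_nonneg (‖g (s + t * I)‖ - l)]
    have h2 : ‖J‖ ≤ Real.exp (-T) * ((C * Real.exp |K| / l + 2 * π * l) / 2) := by
      have a1 : ∫ _ in K..K + 1, ‖J‖ ≤ ∫ s in K..K + 1, Real.exp (-T) *
          (((∫ t in (0:ℝ)..2 * π, ‖g (s + t * I)‖ ^ 2) / l + 2 * π * l) / 2) :=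
        intervalIntegral.integral_mono_on (by linarith)
          (Continuous.intervalIntegrable (by fun_prop) _ _)
          (Continuous.intervalIntegrable (by fun_prop) _ _) h1
      rw [intervalIntegral.integral_const_mul, intervalIntegral.integral_div,
        intervalIntegral.integral_add (Continuous.intervalIntegrable (by fun_prop) _ _)
          (Continuous.intervalIntegrable (by fun_prop) _ _), intervalIntegral.integral_div] at a1
      simp only [intervalIntegral.integral_const, add_sub_cancel_left, smul_eq_mul, one_mul] at a1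
      refine a1.trans ?_
      have := hb K
      gcongr
    refine h2.trans ?_
    have e3 : Real.exp (-T) = l⁻¹ * l⁻¹ := by
      rw [hl, ← Real.exp_neg, ← Real.exp_add]; congr 1; ring
    have e4 : Real.exp (-(T / 2)) = l⁻¹ := by rw [hl, Real.exp_neg]
    have e5 : C * Real.exp |K| ≤ |C| * Real.exp 1 * (l * l) := by
      have : Real.exp |K| ≤ Real.exp 1 * (l * l) := by
        rw [hl, ← Real.exp_add, ← Real.exp_add]; exact Real.exp_le_exp.2 (by linarith)
      calc C * Real.exp |K| ≤ |C| * Real.exp |K| := by gcongr; exact le_abs_self C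
        _ ≤ |C| * (Real.exp 1 * (l * l)) := by gcongr
        _ = _ := by ring
    rw [e3, e4]
    calc l⁻¹ * l⁻¹ * ((C * Real.exp |K| / l + 2 * π * l) / 2)
        ≤ l⁻¹ * l⁻¹ * ((|C| * Real.exp 1 * (l * l) / l + 2 * π * l) / 2) := by gcongr
      _ = _ := by field_simp
  have lim : Tendsto (fun T : ℝ => Real.exp (-(T / 2)) * ((|C| * Real.exp 1 + 2 * π) / 2))
      atTop (𝓝 (0 * ((|C| * Real.exp 1 + 2 * π) / 2))) := by
    refine Tendsto.mul_const _ ?_
    exact Real.tendsto_exp_neg_atTop_nhds_zero.comp (tendsto_id.atTop_div_const (by norm_num))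
  rw [zero_mul] at lim
  exact norm_le_zero_iff.1 (ge_of_tendsto lim ((eventually_ge_atTop 0).mono key))

lemma const_of_strip {g : ℂ → ℂ} (hg : Differentiable ℂ g) (hp : ∀ w, g (w + 2 * π * I) = g w)
    {C : ℝ} (hb : ∀ K : ℝ, ∫ s in K..K + 1, ∫ t in (0:ℝ)..2 * π, ‖g (s + t * I)‖ ^ 2 ≤
      C * Real.exp |K|) (w : ℂ) : g w = g 0 := by
  have : Fact (0 < 2 * π) := ⟨by positivity⟩
  have hper : Function.Periodic (fun t : ℝ => g (t * I)) (2 * π) := fun t => by
    have := hp (t * I)
    simp only []
    rw [← this]; congr 1; push_cast; ring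
  have hgc := hg.continuous
  let F : C(AddCircle (2 * π), ℂ) := ⟨hper.lift, by
    refine Continuous.quotient_lift ?_ _
    fun_prop⟩
  have hF : ∀ t : ℝ, F (t : AddCircle (2 * π)) = g (t * I) := fun t => hper.lift_coe t
  have hc : ∀ n : ℤ, n ≠ 0 → fourierCoeff F n = 0 := by
    intro n hn
    rw [fourierCoeff_eq_intervalIntegral _ _ 0, zero_add]
    have : ∀ x : ℝ, @fourier (2 * π) (-n) x • F x = g (x * I) * exp (-(n * (x * I))) := by
      intro x
      rw [hF, fourier_coe_apply, smul_eq_mul, mul_comm]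
      congr 2
      have : (π : ℂ) ≠ 0 := by exact_mod_cast Real.pi_ne_zero
      push_cast
      field_simp
    simp only [this]
    rw [In_zero hg hp hb hn, smul_zero]
  have hs : Summable (fourierCoeff F) :=
    summable_of_ne_finset_zero (s := {0}) fun n hn => hc n (by simpa using hn)
  have hall : ∀ t : ℝ, g (t * I) = fourierCoeff F 0 := by
    intro t
    have h1 := has_pointwise_sum_fourier_series_of_summable hs (t : AddCircle (2 * π))
    have h2 : HasSum (fun i => fourierCoeff F i • fourier i (t : AddCircle (2 * π)))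
        (fourierCoeff F 0 • fourier 0 (t : AddCircle (2 * π))) :=
      hasSum_single 0 fun i hi => by rw [hc i hi, zero_smul]
    rw [← hF, h1.unique h2]; simp
  have h0 : g 0 = fourierCoeff F 0 := by simpa using hall 0
  have : g = fun _ => g 0 := by
    refine AnalyticOnNhd.eq_of_frequently_eq (z₀ := 0) (fun z _ => hg.analyticAt z)
      (fun z _ => analyticAt_const) ?_
    have ht : Tendsto (fun t : ℝ => (t : ℂ) * I) (𝓝[≠] 0) (𝓝[≠] 0) := by
      refine tendsto_nhdsWithin_iff.2 ⟨?_, ?_⟩
      · have : Continuous fun t : ℝ => (t : ℂ) * I := by fun_prop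
        have := this.tendsto 0
        simp only [ofReal_zero, zero_mul] at this
        exact this.mono_left nhdsWithin_le_nhds
      · filter_upwards [self_mem_nhdsWithin] with t ht
        simpa using ht
    exact ht.frequently (Eventually.of_forall fun t => by rw [hall, h0]).frequently
  exact congrFun this w

end Fourier

end Pool.Agent.PW.G
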