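import Mathlib

/-! An irreducible affine variety contains a Zariski dense holomorphic ball. -/

namespace Pool.Agent.PW.G

open Filter Topology Set Polynomial
open scoped nonZeroDivisors IntermediateField

lemma prim {S A : Type*} [CommRing S] [IsDomain S] [CharZero S] [CommRing A] [IsDomain A]
    [Algebra S A] [FaithfulSMul S A] [Module.Finite S A] :
    ∃ θ : A, ∀ a : A, ∃ Δ : S, Δ ≠ 0 ∧ ∃ Q : S[X], algebraMap S A Δ * a = aeval θ Q := by
  let K := FractionRing S
  let F := FractionRing A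
  let _ : Algebra K F := FractionRing.liftAlgebra S F
  have : IsScalarTower S K F := FractionRing.isScalarTower_liftAlgebra S F
  have : IsLocalization (Algebra.algebraMapSubmonoid A S⁰) F := inferInstance
  have : FiniteDimensional K F := .of_isLocalization S A S⁰
  obtain ⟨θ', hθ⟩ := Field.exists_primitive_element K F
  obtain ⟨a, b, hb, rfl⟩ := IsFractionRing.div_surjective (A := A) θ'
  obtain ⟨r, hr, b', hb'⟩ := (Algebra.IsAlgebraic.isAlgebraic (R := S) b).exists_nonzero_dvd hb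
  refine ⟨a * b', fun x => ?_⟩
  have h1 : algebraMap A F x ∈ (K⟮algebraMap A F a / algebraMap A F b⟯).toSubalgebra := by
    rw [hθ]; trivial
  rw [IntermediateField.adjoin_simple_toSubalgebra_of_isAlgebraic (IsAlgebraic.of_finite K _),
    Algebra.adjoin_singleton_eq_range_aeval] at h1
  obtain ⟨p, hp⟩ := h1
  obtain ⟨c, hc, hQ⟩ := IsLocalization.integerNormalization_spec S⁰
    (p.comp (C (algebraMap S K r)⁻¹ * X))
  refine ⟨c, nonZeroDivisors.ne_zero hc,
    IsLocalization.integerNormalization S⁰ (p.comp (C (algebraMap S K r)⁻¹ * X)), ?_⟩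
  apply IsFractionRing.injective A F
  have hbF : algebraMap A F b ≠ 0 := IsFractionRing.to_map_ne_zero_of_mem_nonZeroDivisors hb
  have hrF : algebraMap S F r ≠ 0 := by
    rw [IsScalarTower.algebraMap_apply S K F, _root_.map_ne_zero]
    exact IsFractionRing.to_map_ne_zero_of_mem_nonZeroDivisors (mem_nonZeroDivisors_of_ne_zero hr)
  have e : (algebraMap S F r)⁻¹ * algebraMap A F (a * b') =
      algebraMap A F a / algebraMap A F b := by
    have e1 : algebraMap S F r = algebraMap A F b * algebraMap A F b' := by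
      rw [IsScalarTower.algebraMap_apply S A F, hb', map_mul]
    have : algebraMap A F b' ≠ 0 := fun h => hrF (by rw [e1, h, mul_zero])
    rw [e1, map_mul, mul_inv, div_eq_mul_inv]
    calc _ = algebraMap A F a * (algebraMap A F b)⁻¹ *
          ((algebraMap A F b')⁻¹ * algebraMap A F b') := by ring
      _ = _ := by rw [inv_mul_cancel₀ this, mul_one]
  rw [← aeval_algebraMap_apply, ← aeval_map_algebraMap K, hQ, ← algebraMap_smul K, map_smul,
    aeval_comp, map_mul, map_mul (aeval _), aeval_C, aeval_X, map_inv₀,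
    ← IsScalarTower.algebraMap_apply, ← IsScalarTower.algebraMap_apply, e, Algebra.smul_def,
    ← IsScalarTower.algebraMap_apply]
  exact congrArg _ hp.symm

/-- Evaluation of a polynomial in `(y, t)`. -/
noncomputable def ev {d : ℕ} (y : Fin d → ℂ) (t : ℂ) : (MvPolynomial (Fin d) ℂ)[X] →+* ℂ :=
  eval₂RingHom (MvPolynomial.eval y) t

lemma mv_contDiff {d : ℕ} (c : MvPolynomial (Fin d) ℂ) :
    ContDiff ℂ 1 fun y : Fin d → ℂ => MvPolynomial.eval y c :=
  contDiff_iff_contDiffAt.2 fun y => (AnalyticOnNhd.eval_mvPolynomial c y trivial).contDiffAt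

lemma ev_contDiff {d : ℕ} (p : (MvPolynomial (Fin d) ℂ)[X]) :
    ContDiff ℂ 1 fun u : (Fin d → ℂ) × ℂ => ev u.1 u.2 p := by
  induction p using Polynomial.induction_on' with
  | add p q hp hq => simpa only [map_add] using hp.add hq
  | monomial n a =>
    simp only [ev, coe_eval₂RingHom, eval₂_monomial]
    exact ((mv_contDiff a).comp contDiff_fst).mul (contDiff_snd.pow n)

lemma ev_deriv {d : ℕ} (p : (MvPolynomial (Fin d) ℂ)[X]) (y : Fin d → ℂ) (t : ℂ) :
    HasDerivAt (fun t => ev y t p) (ev y t (derivative p)) t := by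
  simpa only [ev, coe_eval₂RingHom, eval₂_eq_eval_map, derivative_map] using
    (p.map (MvPolynomial.eval y)).hasDerivAt t

lemma mv_zero {d : ℕ} {c : MvPolynomial (Fin d) ℂ} {y : Fin d → ℂ}
    (h : ∀ᶠ x in 𝓝 y, MvPolynomial.eval x c = 0) : c = 0 :=
  MvPolynomial.funext fun x => by
    simpa using (AnalyticOnNhd.eval_mvPolynomial c).eqOn_zero_of_preconnected_of_eventuallyEq_zero
      isPreconnected_univ (mem_univ y) h (mem_univ x)

lemma ev_comp {d : ℕ} (p : (MvPolynomial (Fin d) ℂ)[X]) {ψ : (Fin d → ℂ) → ℂ} {y : Fin d → ℂ}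
    (h : DifferentiableAt ℂ ψ y) : DifferentiableAt ℂ (fun y => ev y (ψ y) p) y :=
  DifferentiableAt.comp (g := fun u : (Fin d → ℂ) × ℂ => ev u.1 u.2 p) (f := fun y => (y, ψ y)) y
    ((ev_contDiff p).differentiable one_ne_zero _) (differentiableAt_id.prodMk h)

lemma exists_root_fun {d : ℕ} {m : (MvPolynomial (Fin d) ℂ)[X]} {y0 : Fin d → ℂ} {t0 : ℂ}
    (ht0 : ev y0 t0 m = 0) (hμ : ev y0 t0 (derivative m) ≠ 0) : ∃ ψ : (Fin d → ℂ) → ℂ,
      (∀ᶠ y in 𝓝 y0, DifferentiableAt ℂ ψ y) ∧ ∀ᶠ y in 𝓝 y0, ev y (ψ y) m = 0 := by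
  have cdf := (ev_contDiff m).contDiffAt (x := (y0, t0))
  have hinv : (fderiv ℂ (fun u : (Fin d → ℂ) × ℂ => ev u.1 u.2 m) (y0, t0) ∘L
      .inr ℂ (Fin d → ℂ) ℂ).IsInvertible := by
    refine ⟨ContinuousLinearEquiv.unitsEquivAut ℂ (Units.mk0 _ hμ), ?_⟩
    have h1 := (cdf.differentiableAt one_ne_zero).hasFDerivAt.comp t0
      (hasFDerivAt_prodMk_right y0 t0)
    rw [h1.unique (ev_deriv m y0 t0).hasFDerivAt]
    ext; simp
  exact ⟨_, ((cdf.contDiffAt_implicitFunction one_ne_zero hinv).eventually (by simp)).mono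
    fun y hy => hy.differentiableAt one_ne_zero,
    (cdf.eventually_apply_implicitFunction one_ne_zero hinv).mono fun y hy => hy.trans ht0⟩

theorem dense_ball {σ : Type} [Finite σ] (q : Ideal (MvPolynomial σ ℂ)) [hq : q.IsPrime] :
    ∃ (d : ℕ) (U : Set (Fin d → ℂ)) (v : (Fin d → ℂ) → σ → ℂ), IsOpen U ∧ U.Nonempty ∧
      (∀ i, ∀ y ∈ U, DifferentiableAt ℂ (fun y => v y i) y) ∧
      (∀ y ∈ U, ∀ F ∈ q, MvPolynomial.eval (v y) F = 0) ∧
      ∀ F, ∀ y ∈ U, (∀ᶠ x in 𝓝 y, MvPolynomial.eval (v x) F = 0) → F ∈ q := by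
  classical
  have := Fintype.ofFinite σ
  let A := MvPolynomial σ ℂ ⧸ q
  obtain ⟨d, g, ginj, gfin⟩ := exists_finite_inj_algHom_of_fg ℂ A
  let S := MvPolynomial (Fin d) ℂ
  let _ : Algebra S A := g.toRingHom.toAlgebra
  have : Module.Finite S A := gfin
  have : FaithfulSMul S A := (faithfulSMul_iff_algebraMap_injective S A).2 ginj
  obtain ⟨θ, hθ⟩ := prim (S := S) (A := A)
  have hint : IsIntegral S θ := Algebra.IsIntegral.isIntegral θ
  set m := minpoly S θ with hm
  have hdvd : ∀ (R : S[X]) y t, aeval θ R = 0 → ev y t m = 0 → ev y t R = 0 := by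
    intro R y t hR h0
    obtain ⟨T, rfl⟩ := minpoly.isIntegrallyClosed_dvd hint hR
    rw [map_mul, h0, zero_mul]
  have hnz : ∀ R : S[X], aeval θ R ≠ 0 → ∃ c : S, c ≠ 0 ∧ ∀ y t, ev y t m = 0 → ev y t R = 0 →
      MvPolynomial.eval y c = 0 := by
    intro R hR
    obtain ⟨p, hp0, hp⟩ := (Algebra.IsAlgebraic.isAlgebraic (R := S)
      (aeval θ R)).exists_nonzero_coeff_and_aeval_eq_zero (mem_nonZeroDivisors_of_ne_zero hR)
    refine ⟨p.coeff 0, hp0, fun y t h1 h2 => ?_⟩
    have h3 := hdvd (p.comp R) y t (by rw [aeval_comp, hp]) h1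
    simp only [ev, coe_eval₂RingHom] at h2 h3
    rwa [eval₂_comp, h2, eval₂_at_zero] at h3
  choose Δ hΔ Q hQ using fun i : σ => hθ (Ideal.Quotient.mk q (MvPolynomial.X i))
  let v : (Fin d → ℂ) → ℂ → σ → ℂ := fun y t i => ev y t (Q i) / MvPolynomial.eval y (Δ i)
  set D : S := ∏ i, Δ i with hD
  have hD0 : D ≠ 0 := Finset.prod_ne_zero_iff.2 fun i _ => hΔ i
  have hDi : ∀ y, MvPolynomial.eval y D ≠ 0 → ∀ i, MvPolynomial.eval y (Δ i) ≠ 0 := by
    intro y hy i
    rw [hD, map_prod] at hy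
    exact Finset.prod_ne_zero_iff.1 hy i (Finset.mem_univ i)
  have star : ∀ F : MvPolynomial σ ℂ, ∃ c : S, c ≠ 0 ∧ ∃ R : S[X],
      algebraMap S A c * Ideal.Quotient.mk q F = aeval θ R ∧ ∀ y t, MvPolynomial.eval y D ≠ 0 →
        MvPolynomial.eval y c ≠ 0 ∧
          ev y t R = MvPolynomial.eval y c * MvPolynomial.eval (v y t) F := by
    intro F
    induction F using MvPolynomial.induction_on with
    | C a =>
      refine ⟨1, one_ne_zero, C (MvPolynomial.C a), ?_, fun y t _ => ?_⟩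
      · rw [map_one, one_mul, aeval_C]
        exact (g.commutes a).symm
      · simp [ev]
    | add F G hF hG =>
      obtain ⟨c, hc, R, h1, h2⟩ := hF
      obtain ⟨c', hc', R', h1', h2'⟩ := hG
      refine ⟨c * c', mul_ne_zero hc hc', C c' * R + C c * R', ?_, fun y t hy => ?_⟩
      · simp only [map_add, map_mul, aeval_C, ← h1, ← h1']; ring
      · refine ⟨by rw [map_mul]; exact mul_ne_zero (h2 y t hy).1 (h2' y t hy).1, ?_⟩
        simp only [map_add, map_mul, (h2 y t hy).2, (h2' y t hy).2]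
        simp only [ev, coe_eval₂RingHom, eval₂_C]; ring
    | mul_X F i hF =>
      obtain ⟨c, hc, R, h1, h2⟩ := hF
      refine ⟨c * Δ i, mul_ne_zero hc (hΔ i), R * Q i, ?_, fun y t hy => ?_⟩
      · simp only [map_mul, ← h1, ← hQ]; ring
      · have := hDi y hy i
        refine ⟨by rw [map_mul]; exact mul_ne_zero (h2 y t hy).1 this, ?_⟩
        simp only [map_mul, (h2 y t hy).2, MvPolynomial.eval_X, v]
        field_simp
  have hmon : m.Monic := minpoly.monic hint
  have hdeg : 0 < m.natDegree := minpoly.natDegree_pos hint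
  have hder : aeval θ (derivative m) ≠ 0 := fun h => by
    have h1 := minpoly.isIntegrallyClosed_dvd hint h
    have h2 : derivative m = 0 :=
      eq_zero_of_dvd_of_natDegree_lt h1 (natDegree_derivative_lt hdeg.ne')
    exact hdeg.ne' (derivative_eq_zero.1 h2)
  obtain ⟨c', hc', hsep⟩ := hnz _ hder
  obtain ⟨y0, hy0⟩ : ∃ y0, MvPolynomial.eval y0 (D * c') ≠ 0 := by
    by_contra! h
    exact mul_ne_zero hD0 hc' (MvPolynomial.funext fun x => by rw [h, map_zero])
  rw [map_mul, mul_ne_zero_iff] at hy0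
  obtain ⟨t0, ht0⟩ : ∃ t0, ev y0 t0 m = 0 := by
    obtain ⟨t0, h⟩ := IsAlgClosed.exists_root (m.map (MvPolynomial.eval y0)) (by
      rw [hmon.degree_map]; exact (natDegree_pos_iff_degree_pos.1 hdeg).ne')
    exact ⟨t0, by simpa only [ev, coe_eval₂RingHom, eval₂_eq_eval_map] using h.eq_zero⟩
  have hμ : ev y0 t0 (derivative m) ≠ 0 := fun h => hy0.2 (hsep _ _ ht0 h)
  obtain ⟨ψ, e1, e2⟩ := exists_root_fun ht0 hμ
  have e3 := (MvPolynomial.continuous_eval D).continuousAt.eventually_ne hy0.1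
  obtain ⟨U, hU, hUo, hy⟩ := eventually_nhds_iff.1 (e1.and (e2.and e3))
  refine ⟨d, U, fun y => v y (ψ y), hUo, ⟨_, hy⟩, fun i y hy => ?_, fun y hy F hF => ?_,
    fun F y hy hF => ?_⟩
  · have a2 := ev_comp (Q i) (hU y hy).1
    have a3 : DifferentiableAt ℂ (fun y => MvPolynomial.eval y (Δ i)) y :=
      (mv_contDiff _).differentiable one_ne_zero _
    simp only [v, div_eq_mul_inv]
    exact a2.fun_mul (a3.fun_inv (hDi y (hU y hy).2.2 i))
  · obtain ⟨c, -, R, h1, h2⟩ := star F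
    rw [Ideal.Quotient.eq_zero_iff_mem.2 hF, mul_zero] at h1
    obtain ⟨h3, h4⟩ := h2 y (ψ y) (hU y hy).2.2
    rw [hdvd R y _ h1.symm (hU y hy).2.1] at h4
    exact (mul_eq_zero.1 h4.symm).resolve_left h3
  · by_contra hFq
    obtain ⟨c, hc, R, h1, h2⟩ := star F
    obtain ⟨e, he, h3⟩ := hnz R (h1 ▸ mul_ne_zero (fun h => hc (ginj (h.trans (map_zero g).symm)))
      (fun h => hFq (Ideal.Quotient.eq_zero_iff_mem.1 h)))
    refine he (mv_zero (y := y) ?_)
    filter_upwards [hF, hUo.mem_nhds hy] with x hx hxU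
    refine h3 x (ψ x) (hU x hxU).2.1 ?_
    rw [(h2 x (ψ x) (hU x hxU).2.2).2, hx, mul_zero]

end Pool.Agent.PW.G
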