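import Pool.Agent.P.MP_65ad7c_ag.GGrow
import Pool.Agent.P.MP_65ad7c_ag.GBall

/-! From twistor lines to the triviality of rational maps to embedded tori. -/

namespace Pool.Agent.PW.G

open Complex Filter Topology Set MvPolynomial
open scoped Real ComplexConjugate

/-- Exponential type in `exp |re w|`. -/
def ET {V : Type*} [NormedAddCommGroup V] (u : ℂ → V) : Prop :=
  ∃ C : ℝ, ∀ w, ‖u w‖ ≤ Real.exp (C * Real.exp |w.re|)

lemma ET.const {V : Type*} [NormedAddCommGroup V] (a : V) : ET fun _ => a := by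
  refine ⟨‖a‖, fun w => ?_⟩
  have h1 : 1 ≤ Real.exp |w.re| := Real.one_le_exp (abs_nonneg _)
  have h2 := Real.add_one_le_exp (‖a‖ * Real.exp |w.re|)
  nlinarith [norm_nonneg a]

lemma ET.add {V : Type*} [NormedAddCommGroup V] {u v : ℂ → V} (hu : ET u) (hv : ET v) :
    ET fun w => u w + v w := by
  obtain ⟨C, hC⟩ := hu
  obtain ⟨D, hD⟩ := hv
  refine ⟨|C| + |D| + 1, fun w => (norm_add_le _ _).trans ((add_le_add (hC w) (hD w)).trans ?_)⟩
  set x := Real.exp |w.re|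
  have h1 : 1 ≤ x := Real.one_le_exp (abs_nonneg _)
  have hC := le_abs_self C
  have hD := le_abs_self D
  have hC0 := abs_nonneg C
  have hD0 := abs_nonneg D
  have a1 : Real.exp (C * x) ≤ Real.exp ((|C| + |D|) * x) := by gcongr; linarith
  have a2 : Real.exp (D * x) ≤ Real.exp ((|C| + |D|) * x) := by gcongr; linarith
  have a3 : 2 ≤ Real.exp x := by linarith [Real.add_one_le_exp x]
  rw [add_mul _ 1, one_mul, Real.exp_add]
  nlinarith [Real.exp_pos ((|C| + |D|) * x)]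

lemma ET.smul {V : Type*} [NormedAddCommGroup V] [NormedSpace ℂ V] {u : ℂ → ℂ} {v : ℂ → V}
    (hu : ET u) (hv : ET v) : ET fun w => u w • v w := by
  obtain ⟨C, hC⟩ := hu
  obtain ⟨D, hD⟩ := hv
  refine ⟨C + D, fun w => ?_⟩
  rw [norm_smul, add_mul, Real.exp_add]
  exact mul_le_mul (hC w) (hD w) (norm_nonneg _) (Real.exp_pos _).le

lemma ET.sum {V κ : Type*} [NormedAddCommGroup V] (s : Finset κ) {u : κ → ℂ → V}
    (hu : ∀ i, ET (u i)) : ET fun w => ∑ i ∈ s, u i w := by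
  classical
  induction s using Finset.induction_on with
  | empty => simpa using ET.const (0 : V)
  | insert a s ha ih => simpa only [Finset.sum_insert ha] using (hu a).add ih

lemma ET.eval {ι : Type*} {F : ℂ → ι → ℂ} (hF : ∀ i, ET fun w => F w i) (p : MvPolynomial ι ℂ) :
    ET fun w => eval (F w) p := by
  induction p using MvPolynomial.induction_on with
  | C a => simpa using ET.const a
  | add p q hp hq => simpa only [map_add] using hp.add hq
  | mul_X p i hp => simpa only [map_mul, eval_X, smul_eq_mul] using hp.smul (hF i)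

lemma diff_eval {ι X : Type*} [NormedAddCommGroup X] [NormedSpace ℂ X] {F : X → ι → ℂ} {x : X}
    (hF : ∀ i, DifferentiableAt ℂ (fun w => F w i) x) (p : MvPolynomial ι ℂ) :
    DifferentiableAt ℂ (fun w => eval (F w) p) x := by
  induction p using MvPolynomial.induction_on with
  | C a => simp
  | add p q hp hq => simpa only [map_add] using hp.fun_add hq
  | mul_X p i hp => simpa only [map_mul, eval_X] using hp.fun_mul (hF i)

lemma anti_const {d : ℕ} {E : Type*} [NormedAddCommGroup E] [NormedSpace ℂ E]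
    {F G : (Fin d → ℂ) → E} {z1 : Fin d → ℂ} {k : E}
    (h : ∀ᶠ z in 𝓝 z1, DifferentiableAt ℂ F z ∧ DifferentiableAt ℂ G (star z) ∧
      F z = G (star z) - k) : ∀ᶠ z in 𝓝 z1, F z = F z1 := by
  obtain ⟨r, hr, hb⟩ := Metric.eventually_nhds_iff_ball.1 h.eventually_nhds
  filter_upwards [Metric.ball_mem_nhds z1 hr] with z hz
  refine Metric.isOpen_ball.is_const_of_fderiv_eq_zero (𝕜 := ℂ)
    (convex_ball z1 r).isPreconnected
    (fun x hx => (hb x hx).self_of_nhds.1.differentiableWithinAt) (fun x hx => ?_) hz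
    (Metric.mem_ball_self hr)
  obtain ⟨h1, h2, -⟩ := (hb x hx).self_of_nhds
  have a1 := h1.hasFDerivAt.restrictScalars ℝ
  have a2 := ((h2.hasFDerivAt.restrictScalars ℝ).comp x
    ((starL' ℝ : (Fin d → ℂ) ≃L[ℝ] (Fin d → ℂ)).hasFDerivAt (x := x))).sub_const k
  have a3 := a1.unique (a2.congr_of_eventuallyEq ((hb x hx).mono fun y hy => hy.2.2))
  have a4 : ∀ v, fderiv ℂ F x v = fderiv ℂ G (star x) (star v) := fun v =>
    ContinuousLinearMap.ext_iff.1 a3 v
  refine ContinuousLinearMap.ext fun v => ?_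
  have a5 := a4 (I • v)
  rw [star_smul, map_smul, map_smul, ← a4, star_def, conj_I, neg_smul, eq_neg_iff_add_eq_zero,
    ← add_smul, smul_eq_zero] at a5
  exact a5.resolve_left (by rw [← two_mul]; exact mul_ne_zero two_ne_zero I_ne_zero)

/-- The conjugate polynomial. -/
noncomputable def cj {ι : Type*} (τ : ι → ι) (p : MvPolynomial ι ℂ) : MvPolynomial ι ℂ :=
  map (starRingEnd ℂ) (rename τ p)

lemma eval_cj {ι : Type*} (τ : ι → ι) (p : MvPolynomial ι ℂ) (y : ι → ℂ) :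
    eval (fun i => conj (y (τ i))) p = conj (eval y (cj τ p)) := by
  induction p using MvPolynomial.induction_on with
  | C a => simp [cj]
  | add p q hp hq => simp only [cj, map_add] at *; rw [hp, hq]
  | mul_X p i hp => simp only [cj, map_mul, eval_X, rename_X, map_X] at *; rw [hp]

lemma cj_cj {ι : Type*} {τ : ι → ι} (hτ : ∀ i, τ (τ i) = i) (p : MvPolynomial ι ℂ) :
    cj τ (cj τ p) = p := by
  induction p using MvPolynomial.induction_on with
  | C a => simp [cj]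
  | add p q hp hq => simp only [cj, map_add] at *; rw [hp, hq]
  | mul_X p i hp => simp only [cj, map_mul, rename_X, map_X, hτ] at *; rw [hp]

lemma exists_sep {ι : Type*} {M : Set (ι → ℂ)} (hfin : (vanishingIdeal ℂ M).minimalPrimes.Finite)
    {P : Ideal (MvPolynomial ι ℂ)} (hP : P ∈ (vanishingIdeal ℂ M).minimalPrimes) :
    ∃ e ∉ P, ∀ p ∈ P, ∀ y ∈ M, eval y e * eval y p = 0 := by
  classical
  have hp := hP.isPrime
  have : ∀ Q ∈ (vanishingIdeal ℂ M).minimalPrimes, Q ≠ P → ∃ e ∈ Q, e ∉ P := fun Q hQ hne => by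
    by_contra! h
    exact hne (le_antisymm h (hP.2 hQ.1 h))
  choose! e he he' using this
  refine ⟨∏ Q ∈ hfin.toFinset.erase P, e Q, fun h => ?_, fun p hp y hy => ?_⟩
  · obtain ⟨Q, hQ, hQP⟩ := Ideal.IsPrime.prod_mem_iff.1 h
    rw [Finset.mem_erase, Finite.mem_toFinset] at hQ
    exact he' Q hQ.2 hQ.1 hQP
  · have : (∏ Q ∈ hfin.toFinset.erase P, e Q) * p ∈ (vanishingIdeal ℂ M).radical := by
      rw [← Ideal.sInf_minimalPrimes, Ideal.mem_sInf]
      intro Q hQ
      by_cases hQP : Q = P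
      · rw [hQP]; exact P.mul_mem_left _ hp
      · exact Q.mul_mem_right _ (Ideal.prod_mem Q (Finset.mem_erase.2 ⟨hQP, hfin.mem_toFinset.2 hQ⟩)
          (he Q hQ hQP))
    obtain ⟨n, hn⟩ := this
    have h1 : eval y (_ ^ n) = 0 := hn y hy
    rw [map_pow, map_mul] at h1
    exact (pow_eq_zero_iff'.1 h1).1

theorem alb_abstract {ι σ : Type} [Finite σ] {M : Set (ι → ℂ)} {τ : ι → ι} (hτ : ∀ i, τ (τ i) = i)
    (T : ι → MvPolynomial σ ℂ) (R : Set (σ → ℂ))
    (hR : ∀ x ∈ zeroLocus ℂ (vanishingIdeal ℂ R), (fun i => eval x (T i)) ∈ M)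
    (hM : ∀ y ∈ M, ∃ x ∈ R, y = fun i => eval x (T i))
    (htw : ∀ y ∈ M, ∃ F : ℂ → ι → ℂ, (∀ w, F w ∈ M) ∧ (∀ i, Differentiable ℂ fun w => F w i) ∧
      (∀ w, F (w + 2 * π * I) = F w) ∧ (∀ i, ET fun w => F w i) ∧ F 0 = y ∧
      ∀ i, F (π * I) i = conj (y (τ i)))
    {P : Ideal (MvPolynomial ι ℂ)} (hP : P ∈ (vanishingIdeal ℂ M).minimalPrimes)
    {E : Type*} [NormedAddCommGroup E] [NormedSpace ℂ E] [FiniteDimensional ℂ E] {m : ℕ}
    {L : AddSubgroup E} {Θ : E → Fin m → ℂ} (h : Ab L fun z => (WithLp.toLp 2 (Θ z)))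
    (f : Fin m → MvPolynomial ι ℂ)
    (hf : ∀ y ∈ M ∩ zeroLocus ℂ P, (fun i => eval y (f i)) ≠ 0 →
      ∃ (c : ℂ) (z : E), (fun i => eval y (f i)) = c • Θ z) {i0 : Fin m} (hi0 : f i0 ∉ P) :
    ∃ a, ∀ j k, C (Θ a k) * f j - C (Θ a j) * f k ∈ P := by
  classical
  have hp := hP.isPrime
  let t : MvPolynomial ι ℂ →+* MvPolynomial σ ℂ := (aeval T : _ →ₐ[ℂ] _)
  have ht : ∀ x p, eval x (t p) = eval (fun i => eval x (T i)) p := fun x p => by
    induction p using MvPolynomial.induction_on with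
    | C a => simp [t]
    | add p q hp hq => simp only [map_add, hp, hq]
    | mul_X p i hp => simp only [map_mul, hp]; simp [t]
  have hI : vanishingIdeal ℂ M = (vanishingIdeal ℂ R).comap t := by
    ext p
    refine ⟨fun hp x hx => ?_, fun hp y hy => ?_⟩
    · exact (ht x p).trans (hp _ (hR x (zeroLocus_vanishingIdeal_le R hx)))
    · obtain ⟨x, hx, rfl⟩ := hM y hy
      exact (ht x p).symm.trans (hp x hx)
  have hfin : (vanishingIdeal ℂ M).minimalPrimes.Finite := by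
    rw [hI]
    exact ((Ideal.finite_minimalPrimes_of_isNoetherianRing _ _).image _).subset
      (Ideal.minimalPrimes_comap_subset t _)
  obtain ⟨e, heP, he⟩ := exists_sep hfin hP
  obtain ⟨q, hq, hRq, hqP⟩ := Ideal.exists_comap_eq_of_mem_minimalPrimes t P (hI ▸ hP)
  let φ : (ι → ℂ) → EuclideanSpace ℂ (Fin m) := fun y => WithLp.toLp 2 fun i => eval y (f i)
  have hφ : ∀ y ∈ M ∩ zeroLocus ℂ P, φ y ∈ cone (fun z => (WithLp.toLp 2 (Θ z))) univ := by
    intro y hy
    by_cases h0 : (fun i => eval y (f i)) = 0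
    · exact ⟨0, 0, trivial, by simp [φ, h0]⟩
    · obtain ⟨c, z, hz⟩ := hf y hy h0
      exact ⟨c, z, trivial, by simp [φ, hz]⟩
  have hφ0 : ∀ y, eval y (f i0) ≠ 0 → φ y ≠ 0 := fun y hy h0 => hy (by
    simpa [φ] using congrArg (fun x : EuclideanSpace ℂ (Fin m) => x i0) h0)
  have main : ∀ y ∈ M, eval y e ≠ 0 → y ∈ M ∩ zeroLocus ℂ P ∧
      (fun i => conj (y (τ i))) ∈ M ∩ zeroLocus ℂ P ∧ ∀ (u0 u1 : ℂ) (z0 z1 : E),
        φ y = u0 • WithLp.toLp 2 (Θ z0) → φ y ≠ 0 →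
        φ (fun i => conj (y (τ i))) = u1 • WithLp.toLp 2 (Θ z1) →
        φ (fun i => conj (y (τ i))) ≠ 0 → (z1 - z0) + (z1 - z0) ∈ L := by
    intro y hy hey
    obtain ⟨F, a1, a2, a3, a4, a5, a6⟩ := htw y hy
    have hd : ∀ p, Differentiable ℂ fun w => eval (F w) p := fun p w =>
      diff_eval (fun i => a2 i w) p
    have hZ : ∀ w, F w ∈ M ∩ zeroLocus ℂ P := fun w => ⟨a1 w, fun p hp => by
      have e1 : ∀ᶠ x in 𝓝 (0 : ℂ), eval (F x) e ≠ 0 :=
        (hd e).continuous.continuousAt.eventually_ne (by rwa [a5])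
      exact AnalyticOnNhd.eqOn_zero_of_preconnected_of_eventuallyEq_zero (U := univ)
        (fun z _ => (hd p).analyticAt z) isPreconnected_univ trivial
        (e1.mono fun x hx => (mul_eq_zero.1 (he p hp _ (a1 x))).resolve_left hx) (mem_univ w)⟩
    have a7 : F (π * I) = fun i => conj (y (τ i)) := funext a6
    refine ⟨a5 ▸ hZ 0, a7 ▸ hZ _, fun u0 u1 z0 z1 e0 n0 e1 n1 => ?_⟩
    have hs : ∀ w, φ (F w) = ∑ i, eval (F w) (f i) • EuclideanSpace.single i (1 : ℂ) := fun w => by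
      ext j; simp [φ, Pi.single_apply]
    obtain ⟨C, hC⟩ : ET fun w => φ (F w) := by
      simp only [hs]
      exact ET.sum _ fun i => (ET.eval a4 _).smul (ET.const _)
    refine h.growth (f := fun w => φ (F w)) ?_ (fun w => by rw [a3]) hC (fun w => hφ _ (hZ w))
      (by rw [a5]; exact e0) (by rwa [a5]) (by rw [a7]; exact e1) (by rwa [a7])
    simp only [hs]
    exact Differentiable.fun_sum fun i _ => (hd _).smul_const _
  have hcj : ∀ p ∈ P, cj τ p ∈ P := fun p hp' => by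
    refine (hp.mem_or_mem (hP.1.2 (show e * cj τ p ∈ _ from fun y hy => ?_))).resolve_left heP
    change eval y _ = 0
    rw [map_mul]
    by_cases hey : eval y e = 0
    · rw [hey, zero_mul]
    · have : eval _ p = 0 := (main y hy hey).2.1.2 p hp'
      rw [eval_cj, map_eq_zero] at this
      rw [this, mul_zero]
  have hi0' : cj τ (f i0) ∉ P := fun h => hi0 (cj_cj hτ (f i0) ▸ hcj _ h)
  obtain ⟨d, U, v, hU, ⟨y0, hy0⟩, hv, hvq, hden⟩ := dense_ball q
  let Y : (Fin d → ℂ) → ι → ℂ := fun z i => eval (v z) (T i)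
  have hYM : ∀ z ∈ U, Y z ∈ M := fun z hz => hR _ fun p hp => hvq z hz p (hRq hp)
  have hYd : ∀ z ∈ U, ∀ p, DifferentiableAt ℂ (fun z => eval (Y z) p) z := fun z hz p =>
    diff_eval (fun i => diff_eval (fun j => hv j z hz) (T i)) p
  have hden' : ∀ p, ∀ z ∈ U, (∀ᶠ x in 𝓝 z, eval (Y x) p = 0) → p ∈ P := fun p z hz h0 => by
    rw [← hqP]
    exact hden _ z hz (h0.mono fun x hx => (ht _ _).trans hx)
  obtain ⟨z1, hz1, hn⟩ : ∃ z1 ∈ U, eval (Y z1) (e * (f i0 * cj τ (f i0))) ≠ 0 := by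
    by_contra! h0
    rcases hp.mem_or_mem (hden' _ y0 hy0 (mem_of_superset (hU.mem_nhds hy0) h0)) with h1 | h1
    · exact heP h1
    · exact (hp.mem_or_mem h1).elim hi0 hi0'
  have hev : ∀ᶠ z in 𝓝 z1, z ∈ U ∧ eval (Y z) e ≠ 0 ∧ φ (Y z) ≠ 0 ∧
      φ (fun i => conj (Y z (τ i))) ≠ 0 := by
    filter_upwards [hU.mem_nhds hz1, (hYd z1 hz1 _).continuousAt.eventually_ne hn] with z hz hne
    simp only [map_mul, mul_ne_zero_iff] at hne
    exact ⟨hz, hne.1, hφ0 _ hne.2.1, hφ0 _ (by rw [eval_cj]; simpa using hne.2.2)⟩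
  let a : (Fin d → ℂ) → EuclideanSpace ℂ (Fin m) := fun z => φ (Y z)
  let b : (Fin d → ℂ) → EuclideanSpace ℂ (Fin m) := fun z => φ fun i => conj (Y (star z) (τ i))
  have ha : ∀ z ∈ U, DifferentiableAt ℂ a z := fun z hz =>
    differentiableAt_euclidean.2 fun i => hYd z hz _
  have hb : ∀ z ∈ U, DifferentiableAt ℂ b (star z) := fun z hz =>
    differentiableAt_euclidean.2 fun i => by
      simp only [b, φ, eval_cj]
      exact (hYd z hz (cj τ (f i))).star_star
  obtain ⟨h1, h2, h3, h4⟩ := hev.self_of_nhds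
  obtain ⟨u0, w0, -, e0⟩ := hφ _ (main _ (hYM z1 h1) h2).1
  obtain ⟨u1, w1, -, e1⟩ := hφ _ (main _ (hYM z1 h1) h2).2.1
  obtain ⟨Φ, hΦ, hl⟩ := h.lift (e0 ▸ h3)
  obtain ⟨Ψ, hΨ, hl'⟩ := h.lift (e1 ▸ h4)
  rw [← e0] at hΦ hl
  rw [← e1] at hΨ hl'
  have ca : Tendsto a (𝓝 z1) (𝓝 (φ (Y z1))) := (ha z1 h1).continuousAt
  have cb : Tendsto (fun z => b (star z)) (𝓝 z1) (𝓝 (φ fun i => conj (Y z1 (τ i)))) := by
    have := ((hb z1 h1).continuousAt.comp (f := star) continuous_star.continuousAt).tendsto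
    simpa [Function.comp_def, b] using this
  have hall : ∀ᶠ z in 𝓝 z1, DifferentiableAt ℂ (Φ ∘ a) z ∧ DifferentiableAt ℂ (Ψ ∘ b) (star z) ∧
      (∃ c : ℂ, a z = c • WithLp.toLp 2 (Θ (Φ (a z)))) ∧
      (Ψ (b (star z)) - Φ (a z)) + (Ψ (b (star z)) - Φ (a z)) ∈ L := by
    filter_upwards [hev, ca.eventually hl, cb.eventually hl',
      ca.eventually (hΦ.eventually (by simp)), cb.eventually (hΨ.eventually (by simp))]
      with z ⟨k1, k2, k3, k4⟩ k5 k6 k7 k8
    obtain ⟨m1, m2, m3⟩ := main _ (hYM z k1) k2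
    have eb : b (star z) = φ fun i => conj (Y z (τ i)) := by simp [b]
    obtain ⟨c, hc⟩ := k5 (hφ _ m1) k3
    obtain ⟨c', hc'⟩ := k6 (eb ▸ hφ _ m2) (eb ▸ k4)
    exact ⟨(k7.differentiableAt one_ne_zero).comp z (ha z k1),
      (k8.differentiableAt one_ne_zero).comp _ (hb z k1), ⟨c, hc⟩,
      m3 c c' _ _ hc k3 (eb ▸ hc') k4⟩
  have cD : ContinuousAt (fun z => Ψ (b (star z)) - Φ (a z)) z1 :=
    (hall.self_of_nhds.2.1.continuousAt.comp (f := star) continuous_star.continuousAt).sub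
      hall.self_of_nhds.1.continuousAt
  obtain ⟨V, hV, hVc⟩ := h.disc_const (cD.add cD)
  have hconst := anti_const (F := Φ ∘ a) (G := Ψ ∘ b) (k := Ψ (b (star z1)) - Φ (a z1)) (z1 := z1) (by
    filter_upwards [hall, hV] with z hz hzV
    refine ⟨hz.1, hz.2.1, ?_⟩
    have := hVc z hzV z1 (mem_of_mem_nhds hV) hz.2.2.2 hall.self_of_nhds.2.2.2
    simp only [Pi.add_apply, ← two_smul ℂ] at this
    rw [← smul_right_injective E two_ne_zero this]
    simp)
  refine ⟨Φ (a z1), fun j k => hden' _ z1 h1 ?_⟩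
  filter_upwards [hall, hconst] with z ⟨_, _, ⟨c, hc⟩, _⟩ hz
  rw [show Φ (a z) = Φ (a z1) from hz] at hc
  have hc' : ∀ i, eval (Y z) (f i) = c * Θ (Φ (a z1)) i := fun i => by
    simpa [a, φ] using congrArg (fun x : EuclideanSpace ℂ (Fin m) => x i) hc
  simp only [map_sub, map_mul, eval_C, hc']
  ring

end Pool.Agent.PW.G
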