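import Pool.Agent.P.MP_65ad7c_ag.GAb

/-! Entire periodic curves of exponential type in an embedded torus are one parameter cosets. -/

namespace Pool.Agent.PW.G

open Complex Filter Topology Set Metric
open scoped InnerProductSpace Real

variable {E W : Type*} [NormedAddCommGroup E] [NormedSpace ℂ E] [FiniteDimensional ℂ E]
  [NormedAddCommGroup W] [InnerProductSpace ℂ W] [FiniteDimensional ℂ W]
  {L : AddSubgroup E} {Θ : E → W}

/-- A local holomorphic lift of a curve. -/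
def IsLift (Θ : E → W) (f : ℂ → W) (w : ℂ) (G : ℂ → E) : Prop :=
  AnalyticAt ℂ G w ∧ ∀ᶠ x in 𝓝 w, ∃ c : ℂ, f x = c • Θ (G x)

omit [FiniteDimensional ℂ E] [FiniteDimensional ℂ W] in
lemma Ab.disc_const (h : Ab L Θ) {X : Type*} [TopologicalSpace X] {D : X → E} {x0 : X}
    (hD : ContinuousAt D x0) : ∃ U ∈ 𝓝 x0, ∀ x ∈ U, ∀ y ∈ U, D x ∈ L → D y ∈ L → D x = D y := by
  obtain ⟨ε, hε, hd⟩ := h.disc
  refine ⟨_, hD (ball_mem_nhds (D x0) (half_pos hε)), fun x hx y hy h1 h2 => ?_⟩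
  refine sub_eq_zero.1 (hd _ (L.sub_mem h1 h2) ?_)
  rw [← dist_eq_norm]
  have a1 : dist (D x) (D x0) < ε / 2 := hx
  have a2 : dist (D y) (D x0) < ε / 2 := hy
  linarith [dist_triangle_right (D x) (D y) (D x0)]

lemma ev_ne {f : ℂ → W} (hf : Differentiable ℂ f) {w0 : ℂ} (h0 : f w0 ≠ 0) (w : ℂ) :
    ∀ᶠ x in 𝓝[≠] w, f x ≠ 0 := by
  have : CompleteSpace W := FiniteDimensional.complete ℂ W
  refine (hf.analyticAt w).eventually_eq_zero_or_eventually_ne_zero.resolve_left fun h => h0 ?_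
  exact AnalyticOnNhd.eqOn_zero_of_preconnected_of_eventuallyEq_zero (U := univ)
    (fun z _ => hf.analyticAt z) isPreconnected_univ trivial h trivial

lemma Ab.exists_lift (h : Ab L Θ) {f : ℂ → W} (hf : Differentiable ℂ f)
    (hc : ∀ w, f w ∈ cone Θ univ) {w0 : ℂ} (h0 : f w0 ≠ 0) (w : ℂ) : ∃ G, IsLift Θ f w G := by
  have : CompleteSpace W := FiniteDimensional.complete ℂ W
  have : CompleteSpace E := FiniteDimensional.complete ℂ E
  obtain ⟨n, F, hF, hF0, he⟩ := (hf.analyticAt w).exists_eventuallyEq_pow_smul_nonzero_iff.2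
    fun hz => by
      obtain ⟨x, h1, h2⟩ := ((ev_ne hf h0 w).and (hz.filter_mono nhdsWithin_le_nhds)).exists
      exact h1 h2
  have h1 : ∀ᶠ x in 𝓝[≠] w, F x ∈ cone Θ univ := by
    filter_upwards [he.filter_mono nhdsWithin_le_nhds, self_mem_nhdsWithin] with x hx hxw
    obtain ⟨c, z, -, hz⟩ := hc x
    have : (x - w) ^ n ≠ 0 := pow_ne_zero _ (sub_ne_zero.2 hxw)
    exact ⟨((x - w) ^ n)⁻¹ * c, z, trivial, by
      rw [← smul_smul, ← hz, hx, smul_smul, inv_mul_cancel₀ this, one_smul]⟩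
  have h2 : F w ∈ cone Θ univ :=
    h.closed.mem_of_tendsto (hF.continuousAt.tendsto.mono_left nhdsWithin_le_nhds) h1
  have h3 : ∀ᶠ x in 𝓝 w, F x ∈ cone Θ univ := by
    rw [← nhdsNE_sup_pure, eventually_sup]; exact ⟨h1, h2⟩
  obtain ⟨u, z0, -, hz0⟩ := h2
  obtain ⟨Φ, hΦ, hl⟩ := h.lift (hz0 ▸ hF0)
  rw [← hz0] at hΦ hl
  refine ⟨Φ ∘ F, ?_, ?_⟩
  · rw [analyticAt_iff_eventually_differentiableAt]
    filter_upwards [(hΦ.comp w hF.contDiffAt).eventually (by simp)] with x hx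
    exact hx.differentiableAt one_ne_zero
  · filter_upwards [he, h3, hF.continuousAt.eventually hl, hF.continuousAt.eventually_ne hF0]
      with x e1 e2 e3 e4
    obtain ⟨c, hc⟩ := e3 e2 e4
    exact ⟨(x - w) ^ n * c, by rw [e1, ← smul_smul]; exact congrArg _ hc⟩

omit [FiniteDimensional ℂ E] in
lemma Ab.lift_unique (h : Ab L Θ) {f : ℂ → W} (hf : Differentiable ℂ f) {w0 : ℂ} (h0 : f w0 ≠ 0)
    {w : ℂ} {G G' : ℂ → E} (hG : IsLift Θ f w G) (hG' : IsLift Θ f w G') :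
    ∃ l ∈ L, ∀ᶠ x in 𝓝 w, G x = G' x + l := by
  have hD : ContinuousAt (fun x => G x - G' x) w := hG.1.continuousAt.sub hG'.1.continuousAt
  obtain ⟨U, hU, hu⟩ := h.disc_const hD
  have h1 : ∀ᶠ x in 𝓝[≠] w, x ∈ U ∧ G x - G' x ∈ L := by
    filter_upwards [ev_ne hf h0 w, mem_nhdsWithin_of_mem_nhds hU,
      hG.2.filter_mono nhdsWithin_le_nhds, hG'.2.filter_mono nhdsWithin_le_nhds]
      with x e1 e2 ⟨c, e3⟩ ⟨c', e4⟩
    exact ⟨e2, h.sub_mem (e3.symm.trans e4) (e3 ▸ e1)⟩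
  obtain ⟨y, hy, hyL⟩ := h1.exists
  have h2 : ∀ᶠ x in 𝓝[≠] w, G x - G' x = G y - G' y :=
    h1.mono fun x hx => hu x hx.1 y hy hx.2 hyL
  have h3 : G w - G' w = G y - G' y :=
    tendsto_nhds_unique (hD.tendsto.mono_left nhdsWithin_le_nhds) (tendsto_const_nhds.congr'
      (h2.mono fun _ hx => hx.symm))
  refine ⟨_, hyL, ?_⟩
  rw [← nhdsNE_sup_pure, eventually_sup]
  exact ⟨h2.mono fun x hx => by rw [← hx]; abel, by rw [eventually_pure, ← h3]; abel⟩

omit [FiniteDimensional ℂ W] in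
lemma IsLift.ev {f : ℂ → W} {w : ℂ} {G : ℂ → E} (hG : IsLift Θ f w G) :
    ∀ᶠ x in 𝓝 w, IsLift Θ f x G := by
  have : CompleteSpace E := FiniteDimensional.complete ℂ E
  exact hG.1.eventually_analyticAt.and hG.2.eventually_nhds

omit [FiniteDimensional ℂ W] in
lemma Ab.fs_lift (h : Ab L Θ) : ∃ c > 0, ∀ (f : ℂ → W) (w : ℂ) (G : ℂ → E), IsLift Θ f w G →
    DifferentiableAt ℂ f w →
    c * ‖f w‖ ^ 4 * ‖deriv G w‖ ^ 2 ≤ QF (f w) (deriv f w) := by
  obtain ⟨K, hK, hL⟩ := h.cpt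
  obtain ⟨c, hc, hb⟩ := h.fs hK
  refine ⟨c, hc, fun f w G hG hf => ?_⟩
  obtain ⟨l, hl, hz⟩ := hL (G w)
  set G' : ℂ → E := fun x => G x - l with hG'
  have hd : HasDerivAt G' (deriv G w) w := hG.1.differentiableAt.hasDerivAt.sub_const l
  have hT : HasDerivAt (fun x => Θ (G' x)) (fderiv ℂ Θ (G' w) (deriv G w)) w :=
    (h.hol.differentiable one_ne_zero _).hasFDerivAt.comp_hasDerivAt w hd
  let ℓ : W →L[ℂ] ℂ := innerSL ℂ (Θ (G' w))
  have hℓ : ℓ (Θ (G' w)) ≠ 0 := by simpa [ℓ] using h.ne _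
  let u : ℂ → ℂ := fun x => ℓ (f x) / ℓ (Θ (G' x))
  have hu : DifferentiableAt ℂ u w :=
    (ℓ.differentiableAt.comp w hf).div (ℓ.differentiableAt.comp w hT.differentiableAt) hℓ
  have he : f =ᶠ[𝓝 w] fun x => u x • Θ (G' x) := by
    filter_upwards [hG.2, (ℓ.continuous.continuousAt.comp hT.continuousAt).eventually_ne hℓ]
      with x ⟨a, ha⟩ hx
    obtain ⟨b, hb⟩ := h.shift (G x) hl
    have e : f x = (a * b) • Θ (G' x) := by rw [ha, hb, smul_smul]
    have hx' : ℓ (Θ (G' x)) ≠ 0 := hx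
    simp only [u]
    rw [e, map_smul, smul_eq_mul, mul_div_cancel_right₀ _ hx']
  rw [he.deriv_eq, he.self_of_nhds, (hu.hasDerivAt.fun_smul hT).deriv, QF_smul, norm_smul, mul_pow]
  have := mul_le_mul_of_nonneg_left (hb _ hz (deriv G w)) (pow_nonneg (norm_nonneg (u w)) 4)
  linarith

/-- The growth theorem. -/
theorem Ab.growth (h : Ab L Θ) {f : ℂ → W} (hf : Differentiable ℂ f)
    (hp : ∀ w, f (w + 2 * π * I) = f w) {C : ℝ}
    (hC : ∀ w, ‖f w‖ ≤ Real.exp (C * Real.exp |w.re|)) (hc : ∀ w, f w ∈ cone Θ univ)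
    {u0 u1 : ℂ} {z0 z1 : E} (e0 : f 0 = u0 • Θ z0) (n0 : f 0 ≠ 0) (e1 : f (π * I) = u1 • Θ z1)
    (n1 : f (π * I) ≠ 0) : (z1 - z0) + (z1 - z0) ∈ L := by
  have : CompleteSpace W := FiniteDimensional.complete ℂ W
  have : CompleteSpace E := FiniteDimensional.complete ℂ E
  choose G hG using h.exists_lift hf hc n0
  set g : ℂ → E := fun w => deriv (G w) w with hg
  have hpt : ∀ w G', IsLift Θ f w G' → g w = deriv G' w := fun w G' hG' => by
    obtain ⟨l, -, hl⟩ := h.lift_unique hf n0 (hG w) hG'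
    exact (EventuallyEq.deriv_eq hl).trans (deriv_add_const l)
  have hloc : ∀ w, g =ᶠ[𝓝 w] deriv (G w) := fun w => (hG w).ev.mono fun x hx => hpt x _ hx
  have hgd : Differentiable ℂ g := fun w =>
    (hG w).1.deriv.differentiableAt.congr_of_eventuallyEq (hloc w)
  have hgp : ∀ w, g (w + 2 * π * I) = g w := fun w => by
    have hs : Tendsto (fun x : ℂ => x + 2 * π * I) (𝓝 w) (𝓝 (w + 2 * π * I)) :=
      (continuous_add_const _).tendsto w
    have : IsLift Θ f w fun x => G (w + 2 * π * I) (x + 2 * π * I) :=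
      ⟨(hG _).1.comp_of_eq (by fun_prop) rfl,
        (hs.eventually (hG _).2).mono fun x hx => by rwa [hp] at hx⟩
    rw [hpt w _ this, deriv_comp_add_const]
  obtain ⟨c, hc0, hb⟩ := h.fs_lift
  have hconst : ∀ w, g w = g 0 := fun w => by
    rw [SeparatingDual.eq_iff_forall_dual_eq (R := ℂ)]
    intro φ
    refine growth_const hf hp hC n0 (g := fun w => φ (g w)) (φ.differentiable.comp hgd)
      (fun w => by simp only [hgp]) (c := c / (‖φ‖ ^ 2 + 1)) (by positivity) (fun w => ?_) w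
    refine le_trans ?_ (hb f w _ (hG w) (hf w))
    have h1 : ‖φ (g w)‖ ^ 2 ≤ (‖φ‖ ^ 2 + 1) * ‖g w‖ ^ 2 := by
      have := pow_le_pow_left₀ (norm_nonneg _) (φ.le_opNorm (g w)) 2
      nlinarith [sq_nonneg ‖g w‖]
    calc c / (‖φ‖ ^ 2 + 1) * ‖f w‖ ^ 4 * ‖φ (g w)‖ ^ 2
        ≤ c / (‖φ‖ ^ 2 + 1) * ‖f w‖ ^ 4 * ((‖φ‖ ^ 2 + 1) * ‖g w‖ ^ 2) := by gcongr
      _ = c * ‖f w‖ ^ 4 * ‖g w‖ ^ 2 := by field_simp
  have hlc : IsLocallyConstant fun w : ℂ => G w w - w • g 0 - z0 ∈ L := by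
    rw [IsLocallyConstant.iff_eventually_eq]
    intro w
    obtain ⟨r, hr, hball⟩ := Metric.eventually_nhds_iff_ball.1 (hG w).ev
    have hd : ∀ x ∈ ball w r, HasDerivAt (fun x => G w x - x • g 0) 0 x := fun x hx => by
      have a1 := (hball x hx).1.differentiableAt.hasDerivAt
      rw [← hpt x _ (hball x hx), hconst] at a1
      simpa using a1.fun_sub ((hasDerivAt_id x).smul_const (g 0))
    filter_upwards [ball_mem_nhds w hr] with x hx
    have a2 := isOpen_ball.is_const_of_deriv_eq_zero (convex_ball w r).isPreconnected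
      (fun x hx => (hd x hx).differentiableAt.differentiableWithinAt)
      (fun x hx => (hd x hx).deriv) hx (mem_ball_self hr)
    obtain ⟨l, hl, hl'⟩ := h.lift_unique hf n0 (hG x) (hball x hx)
    have a3 : G x x - x • g 0 - z0 = (G w w - w • g 0 - z0) + l := by
      rw [hl'.self_of_nhds, ← a2]; abel
    rw [a3, eq_iff_iff]
    exact L.add_mem_cancel_right hl
  have hall : ∀ w (u : ℂ) z, f w = u • Θ z → f w ≠ 0 → z - w • g 0 - z0 ∈ L := by
    have key : ∀ w (u : ℂ) z, f w = u • Θ z → f w ≠ 0 → z - G w w ∈ L := fun w u z e n => by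
      obtain ⟨a, ha⟩ := (hG w).2.self_of_nhds
      exact h.sub_mem (e.symm.trans ha) (e ▸ n)
    have b0 : G 0 0 - (0 : ℂ) • g 0 - z0 ∈ L := by
      simpa using L.neg_mem (key 0 u0 z0 e0 n0)
    intro w u z e n
    have b1 : G w w - w • g 0 - z0 ∈ L := (hlc.apply_eq_of_preconnectedSpace w 0).mpr b0
    convert L.add_mem (key w u z e n) b1 using 1
    abel
  have a1 := hall _ _ _ e1 n1
  have a2 := hall (0 + 2 * π * I) u0 z0 (by rw [hp, e0]) (by rw [hp]; exact n0)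
  convert L.sub_mem (L.add_mem a1 a1) a2 using 1
  rw [zero_add, mul_assoc, two_mul, add_smul]
  abel

end Pool.Agent.PW.G
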