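import Pool.Agent.P.MP_65ad7c_ag.GAn

/-! The Laplacian of `log (|f|^2 + ε)` on strips. -/

namespace Pool.Agent.PW.G

open Complex MeasureTheory Filter Topology Set
open scoped InnerProductSpace Real

variable {W : Type*} [NormedAddCommGroup W] [InnerProductSpace ℂ W] [CompleteSpace W]

/-- Numerator of the Fubini-Study form. -/
noncomputable def QF (a b : W) : ℝ := ‖a‖ ^ 2 * ‖b‖ ^ 2 - ‖⟪a, b⟫_ℂ‖ ^ 2

noncomputable def V0 (f : ℂ → W) (ε : ℝ) (w : ℂ) : ℝ := Real.log (‖f w‖ ^ 2 + ε)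

noncomputable def V1 (f : ℂ → W) (ε : ℝ) (u w : ℂ) : ℝ :=
  2 * (u * ⟪f w, deriv f w⟫_ℂ).re / (‖f w‖ ^ 2 + ε)

noncomputable def V2 (f : ℂ → W) (ε : ℝ) (u w : ℂ) : ℝ :=
  (2 * ‖u‖ ^ 2 * ‖deriv f w‖ ^ 2 + 2 * (u ^ 2 * ⟪f w, deriv (deriv f) w⟫_ℂ).re) / (‖f w‖ ^ 2 + ε)
    - (2 * (u * ⟪f w, deriv f w⟫_ℂ).re) ^ 2 / (‖f w‖ ^ 2 + ε) ^ 2

omit [CompleteSpace W] in
lemma line_deriv {f : ℂ → W} (hf : Differentiable ℂ f) (w u : ℂ) (τ : ℝ) :
    HasDerivAt (fun τ : ℝ => f (w + τ * u)) (u • deriv f (w + τ * u)) τ := by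
  have h1 : HasDerivAt (fun z : ℂ => w + z * u) u τ := by
    simpa using ((hasDerivAt_id (τ : ℂ)).mul_const u).const_add w
  have h2 := ((hf (w + τ * u)).hasDerivAt.hasFDerivAt.restrictScalars ℝ).comp_hasDerivAt τ
    h1.comp_ofReal
  simpa [Function.comp_def] using h2

omit [CompleteSpace W] in
lemma normsq_deriv {f : ℂ → W} (hf : Differentiable ℂ f) (w u : ℂ) (τ : ℝ) :
    HasDerivAt (fun τ : ℝ => ‖f (w + τ * u)‖ ^ 2)
      (2 * (u * ⟪f (w + τ * u), deriv f (w + τ * u)⟫_ℂ).re) τ := by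
  have h := (line_deriv hf w u τ).inner ℂ (line_deriv hf w u τ)
  have h2 := Complex.reCLM.hasFDerivAt.comp_hasDerivAt τ h
  refine (h2.congr_deriv ?_).congr_of_eventuallyEq (Eventually.of_forall fun x => ?_)
  · rw [← inner_conj_symm (u • deriv f (w + τ * u)), inner_smul_right]
    simp only [reCLM_apply, add_re, conj_re]; ring
  · simp only [Function.comp, reCLM_apply]
    rw [← inner_self_eq_norm_sq (𝕜 := ℂ)]; rfl

omit [CompleteSpace W] in
lemma V0_deriv {f : ℂ → W} (hf : Differentiable ℂ f) {ε : ℝ} (hε : 0 < ε) (w u : ℂ) (τ : ℝ) :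
    HasDerivAt (fun τ : ℝ => V0 f ε (w + τ * u)) (V1 f ε u (w + τ * u)) τ :=
  ((normsq_deriv hf w u τ).add_const ε).log (by positivity)

lemma V1_deriv {f : ℂ → W} (hf : Differentiable ℂ f) {ε : ℝ} (hε : 0 < ε) (w u : ℂ) (τ : ℝ) :
    HasDerivAt (fun τ : ℝ => V1 f ε u (w + τ * u)) (V2 f ε u (w + τ * u)) τ := by
  have h := ((line_deriv hf w u τ).inner ℂ (line_deriv hf.deriv w u τ)).const_mul u
  have h2 := (Complex.reCLM.hasFDerivAt.comp_hasDerivAt τ h).const_mul 2
  have h3 := h2.div ((normsq_deriv hf w u τ).add_const ε) (by positivity)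
  refine h3.congr_deriv ?_
  have hp : (‖f (w + τ * u)‖ ^ 2 + ε) ≠ 0 := by positivity
  have e : (u * (⟪f (w + τ * u), u • deriv (deriv f) (w + τ * u)⟫_ℂ +
      ⟪u • deriv f (w + τ * u), deriv f (w + τ * u)⟫_ℂ)).re =
      ‖u‖ ^ 2 * ‖deriv f (w + τ * u)‖ ^ 2 +
        (u ^ 2 * ⟪f (w + τ * u), deriv (deriv f) (w + τ * u)⟫_ℂ).re := by
    rw [inner_smul_right, inner_smul_left, inner_self_eq_norm_sq_to_K, mul_add, add_re, add_comm,
      ← mul_assoc, ← mul_assoc, Complex.mul_conj', ← pow_two]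
    congr 1
    norm_cast
    exact (congrArg re (ofReal_mul _ _).symm).trans (ofReal_re _)
  simp only [V2, Function.comp, reCLM_apply, e]
  field_simp

omit [CompleteSpace W] in
lemma lap_ge {f : ℂ → W} {ε : ℝ} (hε : 0 < ε) (w : ℂ) :
    4 * QF (f w) (deriv f w) / (‖f w‖ ^ 2 + ε) ^ 2 ≤ V2 f ε 1 w + V2 f ε I w := by
  have hp : 0 < (‖f w‖ ^ 2 + ε) := by positivity
  set a := ⟪f w, deriv f w⟫_ℂ
  set b := ⟪f w, deriv (deriv f) w⟫_ℂ
  have e : V2 f ε 1 w + V2 f ε I w =
      (4 * ‖deriv f w‖ ^ 2 * (‖f w‖ ^ 2 + ε) - 4 * ‖a‖ ^ 2) / (‖f w‖ ^ 2 + ε) ^ 2 := by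
    simp only [V2, norm_one, norm_I, one_pow, I_sq, one_mul, neg_mul, neg_re, I_mul_re]
    rw [Complex.sq_norm a, normSq_apply]
    field_simp
    ring
  rw [e, QF]
  gcongr
  nlinarith [sq_nonneg ‖deriv f w‖]

lemma swap_int {P P' : ℂ → ℝ} (hP : Continuous P) (hP' : Continuous P')
    (h : ∀ (w : ℂ) (τ : ℝ), HasDerivAt (fun τ : ℝ => P (w + τ * 1)) (P' (w + τ * 1)) τ)
    (a b : ℝ) : (∫ t in (0:ℝ)..2 * π, P (b + t * I)) - ∫ t in (0:ℝ)..2 * π, P (a + t * I) =
      ∫ s in a..b, ∫ t in (0:ℝ)..2 * π, P' (s + t * I) := by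
  rw [intervalIntegral_intervalIntegral_swap, ← intervalIntegral.integral_sub
    (Continuous.intervalIntegrable (by fun_prop) _ _)
    (Continuous.intervalIntegrable (by fun_prop) _ _)]
  · refine intervalIntegral.integral_congr fun t _ => ?_
    have := intervalIntegral.integral_eq_sub_of_hasDerivAt (a := a) (b := b)
      (fun τ _ => h (t * I) τ) (Continuous.intervalIntegrable (by fun_prop) _ _)
    simp only [mul_one, add_comm ((t : ℂ) * I)] at this
    exact this.symm
  · have hc : Continuous (Function.uncurry fun s t : ℝ => P' (s + t * I)) := by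
      unfold Function.uncurry; fun_prop
    exact (hc.continuousOn.integrableOn_compact (isCompact_uIcc.prod isCompact_uIcc)).mono_set
      (prod_mono uIoc_subset_uIcc uIoc_subset_uIcc)

lemma convex_bound {m m1 m2 : ℝ → ℝ} (h1 : Continuous m1)
    (hp : ∀ s, 0 ≤ m2 s) (ha : ∀ a b, m b - m a = ∫ s in a..b, m1 s)
    (hb : ∀ a b, m1 b - m1 a = ∫ s in a..b, m2 s) {U D s0 : ℝ} (hU : 0 ≤ U)
    (hu : ∀ s, m s ≤ U * Real.exp |s|) (hD : -D ≤ m s0) (hs0 : |s0| ≤ 1) (K : ℝ) :
    ∫ s in K..K + 1, m2 s ≤ (2 * U * Real.exp 2 + 2 * |D| + 5 * (U * Real.exp 2 + |D|)) *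
      Real.exp |K| := by
  have mono : Monotone m1 := fun a b hab => by
    have := hb a b
    have h0 := intervalIntegral.integral_nonneg (μ := volume) hab fun s _ => hp s
    linarith
  have supp : ∀ x y, m1 y * (x - y) ≤ m x - m y := by
    intro x y
    rcases le_total y x with h | h
    · rw [ha]
      have := intervalIntegral.integral_mono_on (μ := volume) (f := fun _ => m1 y) h
        (by simp) (h1.intervalIntegrable _ _) fun s hs => mono hs.1
      simpa [mul_comm] using this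
    · have := intervalIntegral.integral_mono_on (μ := volume) (g := fun _ => m1 y) h
        (h1.intervalIntegrable _ _) (by simp) fun s hs => mono hs.2
      rw [← ha] at this
      simp only [intervalIntegral.integral_const, smul_eq_mul] at this
      linarith
  have ub : ∀ x y : ℝ, |x| ≤ y + 2 → m x ≤ U * Real.exp 2 * Real.exp y := by
    intro x y h
    refine (hu x).trans ?_
    rw [mul_assoc, ← Real.exp_add]
    gcongr
    linarith
  have hD' : -|D| ≤ m s0 := by linarith [le_abs_self D]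
  set B := U * Real.exp 2 + |D| with hB
  have hB0 : 0 ≤ B := by positivity
  have hs := abs_le.1 hs0
  have b1 : |m1 s0| ≤ B := by
    have u1 := ub (s0 + 1) 0 (by rw [abs_le]; constructor <;> linarith)
    have u2 := ub (s0 - 1) 0 (by rw [abs_le]; constructor <;> linarith)
    have := supp (s0 + 1) s0
    have := supp (s0 - 1) s0
    rw [Real.exp_zero, mul_one] at u1 u2
    rw [abs_le]; constructor <;> linarith
  have lb : ∀ x, -|D| - B * |x - s0| ≤ m x := by
    intro x
    have := supp x s0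
    have h3 : |m1 s0 * (x - s0)| ≤ B * |x - s0| := by rw [abs_mul]; gcongr
    linarith [neg_abs_le (m1 s0 * (x - s0))]
  have hK := le_abs_self K
  have hK' := neg_abs_le K
  have u1 := ub (K + 2) |K| (by rw [abs_le]; constructor <;> linarith)
  have u2 := ub (K - 1) |K| (by rw [abs_le]; constructor <;> linarith)
  have l1 := lb (K + 1)
  have l2 := lb K
  have s1 := supp (K + 2) (K + 1)
  have s2 := supp (K - 1) K
  have a1 : |K + 1 - s0| ≤ |K| + 2 := by rw [abs_le]; constructor <;> linarith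
  have a2 : |K - s0| ≤ |K| + 1 := by rw [abs_le]; constructor <;> linarith
  have e1 : |K| + 1 ≤ Real.exp |K| := Real.add_one_le_exp _
  have e0 : 0 ≤ |K| := abs_nonneg K
  have c1 : B * |K + 1 - s0| ≤ B * (2 * Real.exp |K|) := by gcongr; linarith
  have c2 : B * |K - s0| ≤ B * Real.exp |K| := by gcongr; linarith
  have c3 : |D| ≤ |D| * Real.exp |K| := le_mul_of_one_le_right (abs_nonneg D) (by linarith)
  have c4 : 0 ≤ B * Real.exp |K| := by positivity
  rw [← hb]
  nlinarith

lemma countable_zeros {f : ℂ → W} (hf : Differentiable ℂ f) {w0 : ℂ} (h0 : f w0 ≠ 0) :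
    {w | f w = 0}.Countable := by
  have h := AnalyticOnNhd.preimage_zero_mem_codiscrete (fun z _ => hf.analyticAt z) h0
  rw [mem_codiscrete'] at h
  have hd : DiscreteTopology ↥((f ⁻¹' {0}ᶜ)ᶜ) := h.2.to_subtype
  have : ((f ⁻¹' {0}ᶜ)ᶜ).Countable := by
    rw [← Set.countable_coe_iff]
    exact TopologicalSpace.separableSpace_iff_countable.1 inferInstance
  convert this using 1
  ext; simp

lemma strip_bound {f : ℂ → W} (hf : Differentiable ℂ f) (hp : ∀ w, f (w + 2 * π * I) = f w)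
    {C : ℝ} (hC : ∀ w, ‖f w‖ ≤ Real.exp (C * Real.exp |w.re|)) {w0 : ℂ} (h0 : f w0 ≠ 0) :
    ∃ B : ℝ, ∀ ε : ℝ, 0 < ε → ε ≤ 1 → ∀ K : ℝ, ∫ s in K..K + 1, ∫ t in (0:ℝ)..2 * π,
      4 * QF (f (s + t * I)) (deriv f (s + t * I)) / (‖f (s + t * I)‖ ^ 2 + ε) ^ 2 ≤
        B * Real.exp |K| := by
  have hpi : (0:ℝ) ≤ 2 * π := by positivity
  have c0 := hf.continuous
  have c1 := hf.deriv.continuous
  have c2 := hf.deriv.deriv.continuous
  obtain ⟨s0, hs0, hz⟩ : ∃ s0 : ℝ, |s0| ≤ 1 ∧ ∀ t : ℝ, f (s0 + t * I) ≠ 0 := by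
    have hc := (countable_zeros hf h0).image re
    obtain ⟨s0, h1, h2⟩ := (hc.dense_compl ℝ).inter_open_nonempty (Ioo (-1) 1) isOpen_Ioo
      ⟨0, by norm_num⟩
    refine ⟨s0, abs_le.2 ⟨h1.1.le, h1.2.le⟩, fun t ht => h2 ⟨_, ht, by simp⟩⟩
  obtain ⟨t0, -, ht0⟩ := (isCompact_Icc (a := (0:ℝ)) (b := 2 * π)).exists_isMinOn
    ⟨0, le_rfl, hpi⟩ (f := fun t : ℝ => ‖f (s0 + t * I)‖ ^ 2) (by fun_prop)
  set δ := ‖f (s0 + t0 * I)‖ ^ 2 with hδ
  have hδ0 : 0 < δ := pow_pos (norm_pos_iff.2 (hz t0)) 2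
  set U := 2 * π * (2 * |C| + 1) with hU
  set D := -(2 * π * Real.log δ) with hD
  refine ⟨2 * U * Real.exp 2 + 2 * |D| + 5 * (U * Real.exp 2 + |D|), fun ε hε hε1 K => ?_⟩
  have hne : ∀ w, ‖f w‖ ^ 2 + ε ≠ 0 := fun w => by positivity
  have hne2 : ∀ w, (‖f w‖ ^ 2 + ε) ^ 2 ≠ 0 := fun w => by positivity
  have k0 : Continuous (V0 f ε) := by unfold V0; fun_prop (disch := exact hne _)
  have k1 : ∀ u, Continuous (V1 f ε u) := fun u => by unfold V1; fun_prop (disch := exact hne _)
  have k2 : ∀ u, Continuous (V2 f ε u) := fun u => by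
    unfold V2; fun_prop (disch := first | exact hne _ | exact hne2 _)
  have kQ : Continuous fun w => 4 * QF (f w) (deriv f w) / (‖f w‖ ^ 2 + ε) ^ 2 := by
    unfold QF; fun_prop (disch := exact hne2 _)
  have hp1 : ∀ w, deriv f (w + 2 * π * I) = deriv f w := fun w => by
    rw [← deriv_comp_add_const f (2 * π * I) w]; simp only [hp]
  have hI : ∀ s : ℝ, ∫ t in (0:ℝ)..2 * π, V2 f ε I (s + t * I) = 0 := by
    intro s
    have k := k2 I
    rw [intervalIntegral.integral_eq_sub_of_hasDerivAt (fun τ _ => V1_deriv hf hε s I τ)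
      (Continuous.intervalIntegrable (by fun_prop) _ _)]
    push_cast
    simp only [V1, hp, hp1, zero_mul, add_zero, sub_self]
  have hge : ∀ s : ℝ, ∫ t in (0:ℝ)..2 * π,
      4 * QF (f (s + t * I)) (deriv f (s + t * I)) / (‖f (s + t * I)‖ ^ 2 + ε) ^ 2 ≤
      ∫ t in (0:ℝ)..2 * π, V2 f ε 1 (s + t * I) := by
    intro s
    have k := k2 I
    have k' := k2 1
    have e : ∫ t in (0:ℝ)..2 * π, V2 f ε 1 (s + t * I) =
        ∫ t in (0:ℝ)..2 * π, (V2 f ε 1 (s + t * I) + V2 f ε I (s + t * I)) := by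
      rw [intervalIntegral.integral_add (Continuous.intervalIntegrable (by fun_prop) _ _)
        (Continuous.intervalIntegrable (by fun_prop) _ _), hI, add_zero]
    rw [e]
    exact intervalIntegral.integral_mono_on hpi
      ((kQ.comp (f := fun t : ℝ => (s : ℂ) + t * I) (by fun_prop)).intervalIntegrable _ _)
      (Continuous.intervalIntegrable (by fun_prop) _ _) fun t _ => lap_ge hε _
  have hQ : ∀ a b : W, 0 ≤ QF a b := fun a b => by
    have := norm_inner_le_norm (𝕜 := ℂ) a b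
    rw [QF, ← mul_pow, sub_nonneg]
    gcongr
  have main := convex_bound (m := fun s : ℝ => ∫ t in (0:ℝ)..2 * π, V0 f ε (s + t * I))
    (m1 := fun s : ℝ => ∫ t in (0:ℝ)..2 * π, V1 f ε 1 (s + t * I))
    (m2 := fun s : ℝ => ∫ t in (0:ℝ)..2 * π, V2 f ε 1 (s + t * I))
    (intervalIntegral.continuous_parametric_intervalIntegral_of_continuous' (by
      have := k1 1
      unfold Function.uncurry; fun_prop) _ _)
    (fun s => le_trans (intervalIntegral.integral_nonneg hpi fun t _ => by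
      have := hQ (f (s + t * I)) (deriv f (s + t * I)); positivity) (hge s))
    (swap_int k0 (k1 1) fun w τ => V0_deriv hf hε w 1 τ)
    (swap_int (k1 1) (k2 1) fun w τ => V1_deriv hf hε w 1 τ) (U := U) (D := D) (s0 := s0)
    (by positivity) (fun s => by
      have : ∫ t in (0:ℝ)..2 * π, V0 f ε (s + t * I) ≤
          ∫ _ in (0:ℝ)..2 * π, (2 * |C| + 1) * Real.exp |s| := by
        refine intervalIntegral.integral_mono_on hpi
          (Continuous.intervalIntegrable (by fun_prop) _ _) (by simp) fun t _ => ?_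
        have h1 := hC (s + t * I)
        have e : (s + t * I : ℂ).re = s := by simp
        rw [e] at h1
        set x := |C| * Real.exp |s| with hx
        have hx0 : 0 ≤ x := by positivity
        have h2 : ‖f (s + t * I)‖ ≤ Real.exp x := h1.trans (Real.exp_le_exp.2 (by
          rw [hx]; gcongr; exact le_abs_self C))
        have h3 : ‖f (s + t * I)‖ ^ 2 ≤ Real.exp (2 * x) := by
          rw [two_mul, Real.exp_add, ← pow_two]; gcongr
        have h4 : 1 ≤ Real.exp (2 * x) := Real.one_le_exp (by positivity)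
        have h5 : 1 ≤ Real.exp |s| := Real.one_le_exp (abs_nonneg s)
        have h6 : ‖f (s + t * I)‖ ^ 2 + ε ≤ Real.exp (2 * x + 1) := by
          rw [Real.exp_add]
          have := Real.add_one_le_exp 1
          nlinarith
        rw [V0, Real.log_le_iff_le_exp (by positivity)]
        refine h6.trans (Real.exp_le_exp.2 ?_)
        rw [hx]; nlinarith
      rw [intervalIntegral.integral_const, sub_zero, smul_eq_mul, ← mul_assoc] at this
      exact this)
    (by
      have : ∫ _ in (0:ℝ)..2 * π, Real.log δ ≤ ∫ t in (0:ℝ)..2 * π, V0 f ε (s0 + t * I) := by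
        refine intervalIntegral.integral_mono_on hpi (by simp)
          (Continuous.intervalIntegrable (by fun_prop) _ _) fun t ht => ?_
        have := ht0 ht
        exact Real.log_le_log hδ0 (le_trans this (by linarith))
      simpa [hD] using this) hs0 K
  refine le_trans (intervalIntegral.integral_mono_on (by linarith) ?_ ?_ fun s _ => hge s) main
  · refine Continuous.intervalIntegrable
      (intervalIntegral.continuous_parametric_intervalIntegral_of_continuous' ?_ _ _) _ _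
    exact kQ.comp (f := fun p : ℝ × ℝ => (p.1 : ℂ) + p.2 * I) (by fun_prop)
  · refine Continuous.intervalIntegrable
      (intervalIntegral.continuous_parametric_intervalIntegral_of_continuous' ?_ _ _) _ _
    exact (k2 1).comp (f := fun p : ℝ × ℝ => (p.1 : ℂ) + p.2 * I) (by fun_prop)

/-- The growth lemma. -/
theorem growth_const {f : ℂ → W} (hf : Differentiable ℂ f) (hp : ∀ w, f (w + 2 * π * I) = f w)
    {C : ℝ} (hC : ∀ w, ‖f w‖ ≤ Real.exp (C * Real.exp |w.re|)) {w0 : ℂ} (h0 : f w0 ≠ 0)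
    {g : ℂ → ℂ} (hg : Differentiable ℂ g) (hgp : ∀ w, g (w + 2 * π * I) = g w) {c : ℝ}
    (hc : 0 < c) (hb : ∀ w, c * ‖f w‖ ^ 4 * ‖g w‖ ^ 2 ≤ QF (f w) (deriv f w)) (w : ℂ) :
    g w = g 0 := by
  obtain ⟨B, hB⟩ := strip_bound hf hp hC h0
  have hpi : (0:ℝ) ≤ 2 * π := by positivity
  have c0 := hf.continuous
  have c1 := hf.deriv.continuous
  have cg := hg.continuous
  refine const_of_strip hg hgp (C := B / (4 * c)) (fun K => ?_) w
  let F : ℝ → ℂ → ℝ := fun ε w => ‖g w‖ ^ 2 * (‖f w‖ ^ 2 / (‖f w‖ ^ 2 + ε)) ^ 2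
  have hF : ∀ ε, 0 < ε → Continuous (F ε) := fun ε hε => by
    have hne : ∀ w, ‖f w‖ ^ 2 + ε ≠ 0 := fun w => by positivity
    simp only [F]; fun_prop (disch := exact hne _)
  have hF0 : ∀ ε w, 0 ≤ F ε w := fun ε w => by simp only [F]; positivity
  have hF1 : ∀ ε, 0 < ε → ∀ w, F ε w ≤ ‖g w‖ ^ 2 := fun ε hε w => by
    refine mul_le_of_le_one_right (by positivity) (pow_le_one₀ (by positivity) ?_)
    rw [div_le_one (by positivity)]; linarith
  have hin : ∀ ε, 0 < ε → Continuous fun s : ℝ => ∫ t in (0:ℝ)..2 * π, F ε (s + t * I) :=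
    fun ε hε => by
      refine intervalIntegral.continuous_parametric_intervalIntegral_of_continuous' ?_ _ _
      exact (hF ε hε).comp (f := fun p : ℝ × ℝ => (p.1 : ℂ) + p.2 * I) (by fun_prop)
  have hh : Continuous fun s : ℝ => ∫ t in (0:ℝ)..2 * π, ‖g (s + t * I)‖ ^ 2 :=
    intervalIntegral.continuous_parametric_intervalIntegral_of_continuous' (by
      unfold Function.uncurry; fun_prop) _ _
  have lim1 : ∀ s : ℝ, Tendsto (fun ε => ∫ t in (0:ℝ)..2 * π, F ε (s + t * I)) (𝓝[>] 0)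
      (𝓝 (∫ t in (0:ℝ)..2 * π, ‖g (s + t * I)‖ ^ 2)) := by
    intro s
    refine intervalIntegral.tendsto_integral_filter_of_dominated_convergence
      (fun t => ‖g (s + t * I)‖ ^ 2) ?_ ?_ (Continuous.intervalIntegrable (by fun_prop) _ _) ?_
    · filter_upwards [self_mem_nhdsWithin] with ε hε
      exact ((hF ε hε).comp (f := fun t : ℝ => (s : ℂ) + t * I) (by fun_prop)).aestronglyMeasurable
    · filter_upwards [self_mem_nhdsWithin] with ε hε
      refine Eventually.of_forall fun t _ => ?_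
      rw [Real.norm_of_nonneg (hF0 _ _)]; exact hF1 ε hε _
    · have hn : volume (im '' {w | f w = 0}) = 0 :=
        ((countable_zeros hf h0).image im).measure_zero _
      filter_upwards [measure_eq_zero_iff_ae_notMem.1 hn] with t ht _
      have hne : ‖f (s + t * I)‖ ^ 2 ≠ 0 :=
        pow_ne_zero 2 (norm_ne_zero_iff.2 fun h => ht ⟨_, h, by simp⟩)
      have hc : ContinuousAt (fun ε : ℝ => F ε (s + t * I)) 0 := by
        simp only [F]; fun_prop (disch := simpa using hne)
      have := hc.tendsto.mono_left (nhdsWithin_le_nhds (s := Ioi 0))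
      simpa [F, div_self hne] using this
  have lim2 : Tendsto (fun ε => ∫ s in K..K + 1, ∫ t in (0:ℝ)..2 * π, F ε (s + t * I)) (𝓝[>] 0)
      (𝓝 (∫ s in K..K + 1, ∫ t in (0:ℝ)..2 * π, ‖g (s + t * I)‖ ^ 2)) := by
    refine intervalIntegral.tendsto_integral_filter_of_dominated_convergence
      (fun s => ∫ t in (0:ℝ)..2 * π, ‖g (s + t * I)‖ ^ 2) ?_ ?_ (hh.intervalIntegrable _ _)
      (Eventually.of_forall fun s _ => lim1 s)
    · filter_upwards [self_mem_nhdsWithin] with ε hε
      exact (hin ε hε).aestronglyMeasurable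
    · filter_upwards [self_mem_nhdsWithin] with ε hε
      refine Eventually.of_forall fun s _ => ?_
      rw [Real.norm_of_nonneg (intervalIntegral.integral_nonneg hpi fun t _ => hF0 _ _)]
      exact intervalIntegral.integral_mono_on hpi
        (((hF ε hε).comp (f := fun t : ℝ => (s : ℂ) + t * I) (by fun_prop)).intervalIntegrable _ _)
        (Continuous.intervalIntegrable (by fun_prop) _ _) fun t _ => hF1 ε hε _
  refine le_of_tendsto lim2 ?_
  filter_upwards [Ioc_mem_nhdsGT (zero_lt_one' ℝ)] with ε hε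
  have hε0 := hε.1
  have hne2 : ∀ w, (‖f w‖ ^ 2 + ε) ^ 2 ≠ 0 := fun w => by positivity
  have kQ : Continuous fun w => 4 * QF (f w) (deriv f w) / (‖f w‖ ^ 2 + ε) ^ 2 := by
    unfold QF; fun_prop (disch := exact hne2 _)
  rw [div_mul_eq_mul_div, le_div_iff₀' (by positivity), ← intervalIntegral.integral_const_mul]
  refine le_trans (intervalIntegral.integral_mono_on (by linarith)
    (((hin ε hε0).const_mul _).intervalIntegrable _ _) ?_ fun s _ => ?_) (hB ε hε0 hε.2 K)
  · refine Continuous.intervalIntegrable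
      (intervalIntegral.continuous_parametric_intervalIntegral_of_continuous' ?_ _ _) _ _
    exact kQ.comp (f := fun p : ℝ × ℝ => (p.1 : ℂ) + p.2 * I) (by fun_prop)
  · rw [← intervalIntegral.integral_const_mul]
    refine intervalIntegral.integral_mono_on hpi
      ((((hF ε hε0).comp (f := fun t : ℝ => (s : ℂ) + t * I)
        (by fun_prop)).const_mul _).intervalIntegrable _ _)
      ((kQ.comp (f := fun t : ℝ => (s : ℂ) + t * I) (by fun_prop)).intervalIntegrable _ _)
      fun t _ => ?_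
    have := hb (s + t * I)
    rw [le_div_iff₀ (by positivity)]
    simp only [F]
    have hne : ‖f (s + t * I)‖ ^ 2 + ε ≠ 0 := by positivity
    field_simp
    nlinarith

end Pool.Agent.PW.G
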