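import Pool.Agent.P.MP_65ad7c_ag.GRep
import Pool.Agent.P.MP_65ad7c_ag.GEnd
import Pool.Agent.Lib.SCV.Smooth

/-! Embedded tori and the parametrisation of the character variety. -/

open Set Filter Topology MvPolynomial

namespace Pool.Agent.PW.G

lemma ab_of {g M : ℕ} {Λ : Submodule ℤ (EC g)} [DiscreteTopology Λ] [IsZLattice ℝ Λ]
    {Θ : EC g → Fin (M + 1) → ℂ} (h : IsAbelianEmb Λ Θ) :
    Ab Λ.toAddSubgroup fun z => (WithLp.toLp 2 (Θ z) : EuclideanSpace ℂ (Fin (M + 1))) := by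
  let e := (EuclideanSpace.equiv (Fin (M + 1)) ℂ).symm
  have he : (fun z => (WithLp.toLp 2 (Θ z) : EuclideanSpace ℂ (Fin (M + 1)))) = e ∘ Θ := rfl
  refine ⟨?_, fun z h0 => h.ne z (e.map_eq_zero_iff.1 h0), fun z w => ?_, fun z v ⟨c, hc⟩ => ?_,
    ?_, ?_⟩
  · rw [he]
    refine e.contDiff.comp (contDiff_pi.2 fun i => contDiffOn_univ.1 ?_)
    exact_mod_cast Lib.SCV.contDiffOn_nat isOpen_univ 1 _
      (differentiable_pi.1 h.hol i).differentiableOn
  · refine Iff.trans (exists_congr fun c => ?_) (h.inj z w)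
    change e (Θ w) = c • e (Θ z) ↔ _
    rw [← map_smul, e.injective.eq_iff]
  · refine h.imm z v ⟨c, e.injective ?_⟩
    rw [he, e.comp_fderiv] at hc
    rw [map_smul]; exact hc
  · obtain ⟨ε, hε, hb⟩ := Metric.isOpen_singleton_iff.1 (isOpen_discrete ({0} : Set Λ))
    exact ⟨ε, hε, fun l hl hn => congrArg Subtype.val (hb ⟨l, hl⟩ (by simpa using hn))⟩
  · let b := (Module.Free.chooseBasis ℤ Λ).ofZLatticeBasis ℝ Λ
    refine ⟨Metric.closedBall 0 (∑ i, ‖b i‖), isCompact_closedBall _ _, fun z =>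
      ⟨ZSpan.floor b z, ?_, ?_⟩⟩
    · exact (Module.Basis.ofZLatticeBasis_span ℝ Λ _).le (ZSpan.floor b z).2
    · simpa [ZSpan.fract_apply] using ZSpan.norm_fract_le b z

lemma exists_par {Γ : Type} [Group Γ] (hfg : Group.FG Γ) (r : ℕ) :
    ∃ (σ : Type) (_ : Finite σ) (T : Γ → MvPolynomial σ ℂ) (R : Set (σ → ℂ)),
      (∀ x ∈ zeroLocus ℂ (vanishingIdeal ℂ R), (fun i => eval x (T i)) ∈ charVar Γ r) ∧
      ∀ y ∈ charVar Γ r, ∃ x ∈ R, y = fun i => eval x (T i) := by
  obtain ⟨S, hS, hfin⟩ := Monoid.fg_iff.1 (Group.fg_iff_monoid_fg.1 hfg)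
  have := hfin.to_subtype
  let σ := S × Fin r × Fin r
  let pt : (Γ →* Mat r) → σ → ℂ := fun ρ s => ρ s.1 s.2.1 s.2.2
  have : ∀ γ : Γ, ∃ N : Matrix (Fin r) (Fin r) (MvPolynomial σ ℂ),
      ∀ ρ, (eval (pt ρ)).mapMatrix N = ρ γ := fun γ => by
    have hγ : γ ∈ Submonoid.closure S := hS ▸ trivial
    induction hγ using Submonoid.closure_induction with
    | mem s hs => exact ⟨Matrix.of fun i j => X (⟨s, hs⟩, i, j), fun ρ => by ext i j; simp [pt]⟩
    | one => exact ⟨1, fun ρ => by simp⟩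
    | mul a b _ _ ha hb =>
      obtain ⟨A, hA⟩ := ha
      obtain ⟨B, hB⟩ := hb
      exact ⟨A * B, fun ρ => by rw [map_mul, map_mul, hA, hB]⟩
  choose N hN using this
  have htr : ∀ x γ, eval x (N γ).trace = ((eval x).mapMatrix (N γ)).trace := fun x γ => by
    simp [Matrix.trace]
  refine ⟨σ, inferInstance, fun γ => (N γ).trace, range pt, fun x hx => ?_, ?_⟩
  · have key : ∀ A B : Matrix (Fin r) (Fin r) (MvPolynomial σ ℂ),
        (∀ ρ, (eval (pt ρ)).mapMatrix A = (eval (pt ρ)).mapMatrix B) →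
          (eval x).mapMatrix A = (eval x).mapMatrix B := fun A B h => by
      ext i j
      have : eval x (A i j - B i j) = 0 := hx _ (by
        rintro _ ⟨ρ, rfl⟩
        change eval _ _ = 0
        rw [map_sub, sub_eq_zero]
        exact congrFun (congrFun (h ρ) i) j)
      rw [map_sub, sub_eq_zero] at this
      exact this
    simp only [htr]
    exact mem_charVar
      { toFun := fun γ => (eval x).mapMatrix (N γ)
        map_one' := (key _ 1 fun ρ => by rw [hN, map_one, map_one]).trans (map_one _)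
        map_mul' := fun a b =>
          (key _ (N a * N b) fun ρ => by rw [map_mul, hN, hN, hN, map_mul]).trans (map_mul _ _ _) }
  · rintro y ⟨ρ, hρ⟩
    refine ⟨_, ⟨(Units.coeHom _).comp ρ, rfl⟩, funext fun γ => ?_⟩
    rw [htr, hN, hρ]; rfl

end Pool.Agent.PW.G
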