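import Pool.Agent.P.MP_65ad7c_ag.Base

/-! Every character is a sum of irreducible characters, so it lies on a twistor line. -/

open Set Module

namespace Pool.Agent.PW.G

variable {Γ : Type} [Group Γ]

lemma burnside {R W : Type*} [Ring R] [Algebra ℂ R] [AddCommGroup W] [Module ℂ W] [Module R W]
    [IsScalarTower ℂ R W] [IsSimpleModule R W] [FiniteDimensional ℂ W] (f : Module.End ℂ W) :
    ∃ x : R, Algebra.lsmul ℂ ℂ W x = f := by
  classical
  let f' : Module.End (Module.End R W) W :=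
    { toFun := f
      map_add' := f.map_add
      map_smul' := fun φ w => by
        obtain ⟨c, rfl⟩ := (IsSimpleModule.algebraMap_end_bijective_of_isAlgClosed ℂ).2 φ
        simp }
  let b := Module.finBasis ℂ W
  obtain ⟨x, hx⟩ := jacobson_density f' (Finset.univ.image b)
  refine ⟨x, b.ext fun i => ?_⟩
  exact (hx (b i) (Finset.mem_image_of_mem _ (Finset.mem_univ i))).symm

lemma trace_split {V : Type*} [AddCommGroup V] [Module ℂ V] [FiniteDimensional ℂ V]
    (U : Submodule ℂ V) (f : V →ₗ[ℂ] V) (hf : ∀ x ∈ U, f x ∈ U) :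
    LinearMap.trace ℂ V f = LinearMap.trace ℂ U (f.restrict hf) +
      LinearMap.trace ℂ (V ⧸ U) (U.mapQ U f hf) := by
  obtain ⟨s, hs⟩ := U.mkQ.exists_rightInverse_of_surjective U.range_mkQ
  have hs' : ∀ y, U.mkQ (s y) = y := fun y => LinearMap.congr_fun hs y
  let p : V →ₗ[ℂ] U := (LinearMap.id - s ∘ₗ U.mkQ).codRestrict U fun x => by
    rw [← Submodule.Quotient.mk_eq_zero, ← Submodule.mkQ_apply]
    simp only [LinearMap.sub_apply, LinearMap.id_apply, LinearMap.comp_apply, map_sub, hs',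
      sub_self]
  have e : f = (f ∘ₗ U.subtype) ∘ₗ p + (f ∘ₗ s) ∘ₗ U.mkQ := by
    ext x; simp [p]
  conv_lhs => rw [e]
  rw [map_add, LinearMap.trace_comp_comm' p, LinearMap.trace_comp_comm' U.mkQ]
  congr 2
  · ext x
    have := (Submodule.Quotient.mk_eq_zero U).2 (hf x x.2)
    simp [p, this]
  · refine LinearMap.ext fun y => ?_
    conv_rhs => rw [← hs' y]
    rfl

lemma mem_charVar {r : ℕ} (ρ : Γ →* Mat r) : (fun γ => (ρ γ).trace) ∈ charVar Γ r :=
  ⟨ρ.toHomUnits, fun _ => rfl⟩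

lemma exists_mat {V : Type*} [AddCommGroup V] [Module ℂ V] [FiniteDimensional ℂ V]
    (ρ : Γ →* Module.End ℂ V) : ∃ ρ' : Γ →* Mat (finrank ℂ V),
      (∀ γ, (ρ' γ).trace = LinearMap.trace ℂ V (ρ γ)) ∧
        (Submodule.span ℂ (range ρ) = ⊤ → Irr ρ') := by
  let e := LinearMap.toMatrixAlgEquiv (Module.finBasis ℂ V)
  refine ⟨(e : Module.End ℂ V →* _).comp ρ, fun γ =>
    (LinearMap.trace_eq_matrix_trace ℂ (Module.finBasis ℂ V) (ρ γ)).symm, fun h => ?_⟩
  refine eq_top_iff.2 fun M _ => ?_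
  have := Submodule.apply_mem_span_image_of_mem_span e.toLinearMap
    (h ▸ Submodule.mem_top : e.symm M ∈ Submodule.span ℂ (range ρ))
  rw [← Set.range_comp] at this
  simpa using this

lemma add_mem_charVar {s t : ℕ} {χ ψ : Γ → ℂ} (hχ : χ ∈ charVar Γ s) (hψ : ψ ∈ charVar Γ t) :
    χ + ψ ∈ charVar Γ (s + t) := by
  obtain ⟨ρ, hρ⟩ := hχ
  obtain ⟨τ, hτ⟩ := hψ
  let m : Γ →* Module.End ℂ ((Fin s → ℂ) × (Fin t → ℂ)) :=
    { toFun := fun γ => (Matrix.toLin' (ρ γ).val).prodMap (Matrix.toLin' (τ γ).val)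
      map_one' := by simp [Module.End.one_eq_id]
      map_mul' := fun a b => by
        simp [Matrix.toLin'_mul, Module.End.mul_eq_comp, LinearMap.prodMap_comp] }
  obtain ⟨ρ', h, -⟩ := exists_mat m
  have h1 := mem_charVar ρ'
  have e : finrank ℂ ((Fin s → ℂ) × (Fin t → ℂ)) = s + t := by simp
  convert h1 using 1
  · rw [e]
  · funext γ
    rw [h, Pi.add_apply, hρ, hτ]
    simp [m, LinearMap.trace_prodMap']

lemma exp_add_le (C D x : ℝ) : Real.exp (C * Real.exp |x|) + Real.exp (D * Real.exp |x|) ≤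
    Real.exp ((|C| + |D| + 1) * Real.exp |x|) := by
  have h1 : 1 ≤ Real.exp |x| := Real.one_le_exp (abs_nonneg x)
  have hC := le_abs_self C
  have hD := le_abs_self D
  have hC0 := abs_nonneg C
  have hD0 := abs_nonneg D
  have a1 : Real.exp (C * Real.exp |x|) ≤ Real.exp ((|C| + |D|) * Real.exp |x|) := by
    gcongr; linarith
  have a2 : Real.exp (D * Real.exp |x|) ≤ Real.exp ((|C| + |D|) * Real.exp |x|) := by
    gcongr; linarith
  have a3 : 2 ≤ Real.exp (Real.exp |x|) := by linarith [Real.add_one_le_exp (Real.exp |x|)]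
  rw [add_mul _ 1, one_mul, Real.exp_add]
  nlinarith [Real.exp_pos ((|C| + |D|) * Real.exp |x|)]

lemma TWc.add {s t : ℕ} {χ ψ : Γ → ℂ} (hχ : TWc Γ s χ) (hψ : TWc Γ t ψ) :
    TWc Γ (s + t) (χ + ψ) := by
  obtain ⟨F, a1, a2, a3, a4, a5, a6⟩ := hχ
  obtain ⟨H, b1, b2, b3, b4, b5, b6⟩ := hψ
  refine ⟨F + H, fun w => add_mem_charVar (a1 w) (b1 w), fun γ => (a2 γ).add (b2 γ),
    fun w => by simp only [Pi.add_apply, a3, b3], fun γ => ?_, by simp [a5, b5],
    fun γ => by simp [a6, b6]⟩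
  obtain ⟨C, hC⟩ := a4 γ
  obtain ⟨D, hD⟩ := b4 γ
  exact ⟨_, fun w => (norm_add_le _ _).trans ((add_le_add (hC w) (hD w)).trans (exp_add_le C D _))⟩

lemma tw_trivial (r : ℕ) : TWc Γ r fun _ => r := by
  refine ⟨fun _ _ => r, fun _ => ⟨1, fun _ => by simp⟩, fun _ => differentiable_const _,
    fun _ => rfl, fun _ => ⟨r, fun w => ?_⟩, rfl, fun _ => by simp⟩
  have h1 : 1 ≤ Real.exp |w.re| := Real.one_le_exp (abs_nonneg _)
  have h2 := Real.add_one_le_exp (r * Real.exp |w.re|)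
  rw [Complex.norm_natCast]
  nlinarith [Nat.cast_nonneg (α := ℝ) r]

lemma tw_rep (htw : ∀ s : ℕ, 0 < s → ∀ ρ : Γ →* Mat s, Irr ρ → TWc Γ s fun γ => (ρ γ).trace)
    (n : ℕ) : ∀ (V : Type) [AddCommGroup V] [Module ℂ V] [FiniteDimensional ℂ V]
      (ρ : Γ →* Module.End ℂ V), finrank ℂ V = n →
        TWc Γ n fun γ => LinearMap.trace ℂ V (ρ γ) := by
  induction n using Nat.strong_induction_on with
  | _ n ih =>
  intro V _ _ _ ρ hn
  rcases Nat.eq_zero_or_pos n with rfl | hpos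
  · have : Subsingleton V := Module.finrank_zero_iff.1 hn
    convert tw_trivial (Γ := Γ) 0 using 2 with γ
    rw [Subsingleton.elim (ρ γ) 0]; simp
  by_cases h : ∃ U : Submodule ℂ V, U ≠ ⊥ ∧ U ≠ ⊤ ∧ ∀ γ, ∀ x ∈ U, ρ γ x ∈ U
  · obtain ⟨U, h0, h1, hU⟩ := h
    let ρ1 : Γ →* Module.End ℂ U :=
      { toFun := fun γ => (ρ γ).restrict (hU γ)
        map_one' := by ext x; simp
        map_mul' := fun a b => by ext x; simp }
    let ρ2 : Γ →* Module.End ℂ (V ⧸ U) :=
      { toFun := fun γ => U.mapQ U (ρ γ) (hU γ)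
        map_one' := by ext x; simp
        map_mul' := fun a b => by ext x; simp }
    have e := U.finrank_quotient_add_finrank
    have l1 : finrank ℂ U < n := hn ▸ Submodule.finrank_lt h1
    have l2 : 0 < finrank ℂ U := Nat.pos_of_ne_zero fun h => h0 (Submodule.finrank_eq_zero.1 h)
    have := TWc.add (ih _ l1 U ρ1 rfl) (ih _ (by omega) (V ⧸ U) ρ2 rfl)
    convert this using 1
    · omega
    · funext γ; exact trace_split U _ (hU γ)
  · push Not at h
    obtain ⟨ρ', h1, h2⟩ := exists_mat ρ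
    have : Nontrivial V := Module.finrank_pos_iff.1 (hn ▸ hpos)
    let R := Algebra.adjoin ℂ (range ρ)
    have : IsSimpleModule R V := by
      refine { exists_pair_ne := exists_pair_ne _, eq_bot_or_eq_top := fun U => ?_ }
      by_contra! hU
      obtain ⟨γ, x, hx, hγ⟩ := h (U.restrictScalars ℂ) (by simpa using hU.1) (by simpa using hU.2)
      exact hγ (U.smul_mem (⟨ρ γ, Algebra.subset_adjoin ⟨γ, rfl⟩⟩ : R) hx)
    have hs : Submodule.span ℂ (range ρ) = ⊤ := by
      refine eq_top_iff.2 fun f _ => ?_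
      obtain ⟨x, hx⟩ := burnside (R := R) f
      have h3 : x.1 ∈ Subalgebra.toSubmodule R := x.2
      rw [Algebra.adjoin_eq_span, ← MonoidHom.coe_mrange, Submonoid.closure_eq] at h3
      have e : f = x.1 := by rw [← hx]; rfl
      rw [e]; exact h3
    subst hn
    simpa only [h1] using htw _ hpos ρ' (h2 hs)

theorem tw_all (htw : ∀ s : ℕ, 0 < s → ∀ ρ : Γ →* Mat s, Irr ρ → TWc Γ s fun γ => (ρ γ).trace)
    {r : ℕ} {χ : Γ → ℂ} (hχ : χ ∈ charVar Γ r) : TWc Γ r χ := by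
  obtain ⟨ρ, hρ⟩ := hχ
  let m : Γ →* Module.End ℂ (Fin r → ℂ) :=
    { toFun := fun γ => Matrix.toLin' (ρ γ).val
      map_one' := by simp [Module.End.one_eq_id]
      map_mul' := fun a b => by simp [Matrix.toLin'_mul, Module.End.mul_eq_comp] }
  convert tw_rep htw r (Fin r → ℂ) m (by simp) using 2 with γ
  rw [hρ]; simp [m]

end Pool.Agent.PW.G
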