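import Pool.Agent.P.MP_65ad7c_ag.HAlgD

/-! Sums of eigenspaces; the formal properties of abstract double complexes. -/

noncomputable section
namespace Pool.Agent.HT

section eig
variable {T : Type} [AddCommGroup T] [Module ℂ T] {g : Module.End ℂ T} {S S' : Set ℂ}
  {p q : Submodule ℂ T} {x y : T} {lam : ℂ}

/-- the sum of the eigenspaces of `g` in `p` with eigenvalue in `S` -/
def Sp (g : Module.End ℂ T) (S : Set ℂ) (p : Submodule ℂ T) : Submodule ℂ T :=
  ⨆ lam ∈ S, p ⊓ g.eigenspace lam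

/-- invariant submodules -/
def GInv (g : Module.End ℂ T) (p : Submodule ℂ T) : Prop := ∀ x ∈ p, g x ∈ p

theorem Sp.mem (hl : lam ∈ S) (hp : x ∈ p) (hx : g x = lam • x) : x ∈ Sp g S p :=
  (le_iSup₂_of_le (f := fun lam (_ : lam ∈ S) => p ⊓ g.eigenspace lam) lam hl le_rfl)
    ⟨hp, Module.End.mem_eigenspace_iff.2 hx⟩

theorem Sp.le (h : ∀ lam ∈ S, ∀ x ∈ p, g x = lam • x → x ∈ q) : Sp g S p ≤ q :=
  iSup₂_le fun lam hl x hx => h lam hl x hx.1 (Module.End.mem_eigenspace_iff.1 hx.2)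

theorem Sp.le_self : Sp g S p ≤ p := Sp.le fun _ _ _ hx _ => hx

theorem Sp.mono (h : S ⊆ S') (h' : p ≤ q) : Sp g S p ≤ Sp g S' q :=
  Sp.le fun _ hl _ hx hg => Sp.mem (h hl) (h' hx) hg

/-- complex numbers with imaginary part at least `t` -/
def GE (t : ℝ) : Set ℂ := {lam | t ≤ lam.im}

theorem mem_GE {t : ℝ} : lam ∈ GE t ↔ t ≤ lam.im := Iff.rfl

theorem GE_mono {t t' : ℝ} (h : t' ≤ t) : GE t ⊆ GE t' := fun _ hl => le_trans h hl

theorem EGe_eq (t : ℝ) : EGe g t = Sp g (GE t) ⊤ := by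
  simp [EGe, Sp, GE]

theorem Sp.ge {t t' : ℝ} (hx : x ∈ Sp g (GE t) p) (h : t' ≤ t) : x ∈ Sp g (GE t') p :=
  Sp.mono (GE_mono h) le_rfl hx

theorem GInv.inf (h : GInv g p) (h' : GInv g q) : GInv g (p ⊓ q) :=
  fun x hx => ⟨h x hx.1, h' x hx.2⟩

theorem GInv.top : GInv g ⊤ := fun _ _ => trivial

theorem GInv.sp : GInv g (Sp g S p) := fun _ hx =>
  (Sp.le (q := (Sp g S p).comap g) fun lam hl x hx hg => by
    rw [Submodule.mem_comap, hg]
    exact Submodule.smul_mem _ _ (Sp.mem hl hx hg)) hx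

theorem GInv.range {φ : Module.End ℂ T} {κ : ℂ} (h : ∀ x, g (φ x) = φ (g x) + κ • φ x) :
    GInv g (LinearMap.range φ) := by
  rintro _ ⟨x, rfl⟩
  rw [h]
  exact Submodule.add_mem _ ⟨_, rfl⟩ (Submodule.smul_mem _ _ ⟨_, rfl⟩)

theorem GInv.comap {φ : Module.End ℂ T} (h : ∀ x, g (φ x) = φ (g x)) (hp : GInv g p) :
    GInv g (p.comap φ) := fun x hx => by
  rw [Submodule.mem_comap, ← h]
  exact hp _ hx

theorem Sp.dec_finset (hp : GInv g p) (s : Finset ℂ) :
    ∀ x ∈ p, x ∈ Sp g s ⊤ → x ∈ Sp g s p := by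
  classical
  induction s using Finset.induction_on with
  | empty =>
    intro x _ hx
    exact (Sp.le fun lam hl => absurd hl (by simp)) hx
  | insert ν s hν ih =>
    intro x hxp hx
    have h1 : g x - ν • x ∈ Sp g s ⊤ := by
      refine (Sp.le (q := (Sp g s ⊤).comap (g - ν • 1)) fun lam hl y _ hg => ?_) hx
      rw [Submodule.mem_comap]
      simp only [LinearMap.sub_apply, LinearMap.smul_apply, Module.End.one_apply, hg]
      rcases Finset.mem_insert.1 (Finset.mem_coe.1 hl) with rfl | hl'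
      · simp
      · exact Submodule.sub_mem _ (Submodule.smul_mem _ _ (Sp.mem hl' trivial hg))
          (Submodule.smul_mem _ _ (Sp.mem hl' trivial hg))
    have h2 := ih _ (p.sub_mem (hp x hxp) (p.smul_mem ν hxp)) h1
    have h3 : Sp g s p ≤ (Sp g s p).map (g - ν • 1) := by
      refine Sp.le fun lam hl y hy hg => ?_
      have hne : lam - ν ≠ 0 := sub_ne_zero.2 fun e => hν (e ▸ hl)
      refine ⟨(lam - ν)⁻¹ • y, Submodule.smul_mem _ _ (Sp.mem hl hy hg), ?_⟩
      simp only [map_smul, LinearMap.sub_apply, LinearMap.smul_apply, Module.End.one_apply, hg]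
      rw [← sub_smul, smul_smul, inv_mul_cancel₀ hne, one_smul]
    obtain ⟨y, hy, hy'⟩ := h3 h2
    simp only [LinearMap.sub_apply, LinearMap.smul_apply, Module.End.one_apply] at hy'
    have h4 : x = (x - y) + y := by abel
    rw [h4]
    refine Submodule.add_mem _ (Sp.mem (lam := ν) (by simp) (p.sub_mem hxp (Sp.le_self hy)) ?_)
      (Sp.mono (by simp) le_rfl hy)
    rw [map_sub, smul_sub, sub_eq_sub_iff_sub_eq_sub, sub_eq_iff_eq_add.1 hy']
    abel

/-- the eigencomponents of an element of an invariant submodule lie in the submodule -/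
theorem Sp.dec (hp : GInv g p) (hxp : x ∈ p) (hx : x ∈ Sp g S ⊤) : x ∈ Sp g S p := by
  classical
  have h1 : ∃ s : Finset ℂ, ↑s ⊆ S ∧ x ∈ Sp g s ⊤ := by
    let P : Submodule ℂ T :=
      { carrier := {x | ∃ s : Finset ℂ, ↑s ⊆ S ∧ x ∈ Sp g s ⊤}
        add_mem' := by
          rintro a b ⟨s, hs, ha⟩ ⟨t, ht, hb⟩
          exact ⟨s ∪ t, by simp [hs, ht], Submodule.add_mem _ (Sp.mono (by simp) le_rfl ha)
            (Sp.mono (by simp) le_rfl hb)⟩
        zero_mem' := ⟨∅, by simp, Submodule.zero_mem _⟩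
        smul_mem' := by
          rintro c a ⟨s, hs, ha⟩
          exact ⟨s, hs, Submodule.smul_mem _ _ ha⟩ }
    exact (Sp.le (q := P) fun lam hl y _ hg =>
      ⟨{lam}, by simpa using hl, Sp.mem (lam := lam) (by simp) trivial hg⟩) hx
  obtain ⟨s, hs, h2⟩ := h1
  exact Sp.mono hs le_rfl (Sp.dec_finset hp s x hxp h2)

theorem Sp.split (S' : Set ℂ) (hx : x ∈ Sp g S p) :
    ∃ y ∈ Sp g (S ∩ S') p, ∃ z ∈ Sp g (S ∩ S'ᶜ) p, y + z = x := by
  refine Submodule.mem_sup.1 ((Sp.le fun lam hl y hy hg => ?_) hx)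
  by_cases h : lam ∈ S'
  · exact Submodule.mem_sup_left (Sp.mem ⟨hl, h⟩ hy hg)
  · exact Submodule.mem_sup_right (Sp.mem ⟨hl, h⟩ hy hg)

theorem Sp.eq_zero (h : Disjoint S S') (hx : x ∈ Sp g S ⊤) (hx' : x ∈ Sp g S' ⊤) : x = 0 := by
  have h1 := (Module.End.eigenspaces_iSupIndep g).disjoint_biSup_biSup h
  rw [Submodule.disjoint_def] at h1
  exact h1 x (by simpa [Sp] using hx) (by simpa [Sp] using hx')

/-- parts of an element of an invariant submodule -/
theorem Sp.part (hp : GInv g p) (hx : x ∈ Sp g S ⊤) (hy : y ∈ Sp g Sᶜ ⊤) (h : x + y ∈ p) :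
    x ∈ p := by
  have h1 : x + y ∈ Sp g Set.univ p := Sp.dec hp h (Submodule.add_mem _
    (Sp.mono (Set.subset_univ _) le_rfl hx) (Sp.mono (Set.subset_univ _) le_rfl hy))
  obtain ⟨a, ha, b, hb, hab⟩ := Sp.split S h1
  have h2 : x - a = 0 := by
    refine Sp.eq_zero (g := g) (disjoint_compl_right (a := S))
      (Submodule.sub_mem _ hx (Sp.mono Set.inter_subset_right le_top ha)) ?_
    have : x - a = b - y := by rw [sub_eq_sub_iff_add_eq_add, ← hab, add_comm]
    rw [this]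
    exact Submodule.sub_mem _ (Sp.mono Set.inter_subset_right le_top hb) hy
  rw [sub_eq_zero.1 h2]
  exact Sp.le_self ha

theorem Sp.eig (hx : x ∈ Sp g {lam} p) : g x = lam • x :=
  Module.End.mem_eigenspace_iff.1 ((Sp.le (q := g.eigenspace lam) fun _ hl _ _ hg => by
    rw [Module.End.mem_eigenspace_iff, hg, Set.mem_singleton_iff.1 hl]) hx)

theorem eig_map {φ : Module.End ℂ T} {κ : ℂ} (h : ∀ x, g (φ x) = φ (g x) + κ • φ x)
    (hx : g x = lam • x) : g (φ x) = (lam + κ) • φ x := by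
  rw [h, hx, map_smul, add_smul]

theorem Sp.map {φ : Module.End ℂ T} {κ : ℂ} (h : ∀ x, g (φ x) = φ (g x) + κ • φ x)
    (hS : ∀ lam ∈ S, lam + κ ∈ S') (hx : x ∈ Sp g S p) : φ x ∈ Sp g S' ⊤ :=
  (Sp.le (q := (Sp g S' ⊤).comap φ) fun lam hl _ _ hg =>
    Sp.mem (hS lam hl) trivial (eig_map h hg)) hx

/-- an eigenvector in the image has an eigenvector as a preimage -/
theorem Sp.pre {φ : Module.End ℂ T} (h : ∀ x, g (φ x) = φ (g x)) (hx : x ∈ Sp g S p)
    (hy : g (φ x) = lam • φ x) : ∃ u ∈ p, g u = lam • u ∧ φ u = φ x := by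
  obtain ⟨a, ha, b, hb, rfl⟩ := Sp.split {lam} hx
  have ha' : g a = lam • a := Sp.eig (Sp.mono Set.inter_subset_right le_rfl ha)
  refine ⟨a, Sp.le_self ha, ha', ?_⟩
  have h0 : ∀ x, g (φ x) = φ (g x) + (0 : ℂ) • φ x := fun x => by rw [h, zero_smul, add_zero]
  have h1 : φ b = 0 := by
    refine Sp.eq_zero (g := g) (disjoint_compl_right (a := ({lam} : Set ℂ))) ?_
      (Sp.map h0 (fun l hl => by simpa using hl.2) hb)
    refine Sp.mem (Set.mem_singleton lam) trivial ?_
    have h2 : g (φ a) = lam • φ a := by rw [h, ha', map_smul]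
    rw [map_add, map_add, smul_add, h2] at hy
    exact add_left_cancel hy
  rw [map_add, h1, add_zero]

theorem Sp.neg (hx : x ∈ Sp (-g) S p) : x ∈ Sp g {lam | -lam ∈ S} p :=
  (Sp.le fun lam hl y hy hg => Sp.mem (lam := -lam) (by simpa using hl) hy (by
    rw [neg_smul, ← hg]; simp)) hx

end eig

namespace BG
variable {T : Type} [AddCommGroup T] [Module ℂ T] (B : BG T)

theorem δd (x : T) : B.δ (B.d x) = -B.d (B.δ x) := by rw [B.dδ, neg_neg]

theorem DD (x : T) : B.D (B.D x) = 0 := by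
  simp only [D_apply, map_add, B.dd, B.δδ, B.dδ]
  abel

theorem e_e (p n p' n' : ℕ) (x : T) :
    B.e p n (B.e p' n' x) = if p = p' ∧ n = n' then B.e p n x else 0 := by
  split_ifs with h
  · obtain ⟨rfl, rfl⟩ := h
    exact B.ee _ _ _
  · exact B.ee' _ _ _ _ _ h

theorem ext' {x y : T} (h : ∀ p n, B.e p n x = B.e p n y) : x = y :=
  sub_eq_zero.1 (B.ext _ fun p n => by rw [map_sub, h, sub_self])

theorem e_tr (N p n : ℕ) (x : T) :
    B.e p n (B.tr N x) = if p + n = N then B.e p n x else 0 := by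
  simp only [tr, LinearMap.coe_sum, Finset.sum_apply, map_sum]
  split_ifs with h
  · rw [Finset.sum_eq_single p]
    · rw [show N - p = n by omega, B.ee]
    · intro b _ hb
      exact B.ee' _ _ _ _ _ fun e => hb e.1.symm
    · intro hp
      exact absurd (Finset.mem_range.2 (by omega)) hp
  · refine Finset.sum_eq_zero fun b hb => B.ee' _ _ _ _ _ fun e => h ?_
    have := Finset.mem_range.1 hb
    omega

theorem tr_mem (N : ℕ) (x : T) : B.tr N x ∈ B.Deg N :=
  B.mem_Deg.2 fun p n h => by rw [e_tr, if_neg h]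

theorem tr_of_mem {N : ℕ} {x : T} (h : x ∈ B.Deg N) : B.tr N x = x :=
  B.ext' fun p n => by
    rw [e_tr]
    split_ifs with h'
    · rfl
    · exact (B.mem_Deg.1 h p n h').symm

theorem tr_D (N : ℕ) (x : T) : B.tr (N + 1) (B.D x) = B.D (B.tr N x) := by
  refine B.ext' fun p n => ?_
  rw [e_tr]
  rcases p with _ | p <;> rcases n with _ | n <;>
    simp only [D_apply, map_add, B.ed, B.ed0, B.eδ, B.eδ0, e_tr]
  · simp
  · have e : (0 + (n + 1) = N + 1) = (0 + n = N) := propext (by omega)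
    simp only [e]
    split_ifs <;> simp
  · have e : (p + 1 + 0 = N + 1) = (p + 0 = N) := propext (by omega)
    simp only [e]
    split_ifs <;> simp
  · have e : (p + 1 + (n + 1) = N + 1) = (p + 1 + n = N) := propext (by omega)
    have e' : (p + (n + 1) = N) = (p + 1 + n = N) := propext (by omega)
    simp only [e, e']
    split_ifs <;> simp

theorem tr_D_zero (x : T) : B.tr 0 (B.D x) = 0 := by
  simp [tr, D_apply, B.ed0, B.eδ0]

theorem tr_D_ex (N : ℕ) (z : T) : ∃ z', B.tr N (B.D z) = B.D z' := by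
  cases N with
  | zero => exact ⟨0, by rw [tr_D_zero, map_zero]⟩
  | succ N => exact ⟨_, B.tr_D N z⟩

theorem e_mem (p n : ℕ) (x : T) : B.e p n x ∈ B.H p n := ⟨x, rfl⟩

variable {B} {p n c N : ℕ} {x : T}

theorem e_of_H (h : x ∈ B.H p n) {p' n' : ℕ} (h' : ¬(p' = p ∧ n' = n)) : B.e p' n' x = 0 := by
  rw [← B.mem_H.1 h]
  exact B.ee' _ _ _ _ _ h'

theorem col_of_H (h : x ∈ B.H p n) (hc : c ≤ p) : x ∈ B.Col c :=
  B.mem_Col.2 fun _ _ _ => e_of_H h (by omega)

theorem deg_of_H (h : x ∈ B.H p n) (hN : p + n = N) : x ∈ B.Deg N :=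
  B.mem_Deg.2 fun _ _ _ => e_of_H h (by omega)

theorem d_mem_H (h : x ∈ B.H p n) : B.d x ∈ B.H p (n + 1) :=
  B.mem_H.2 (by rw [B.ed, B.mem_H.1 h])

theorem δ_mem_H (h : x ∈ B.H p n) : B.δ x ∈ B.H (p + 1) n :=
  B.mem_H.2 (by rw [B.eδ, B.mem_H.1 h])

theorem col_mono {c' : ℕ} (hc : c ≤ c') (h : x ∈ B.Col c') : x ∈ B.Col c :=
  B.mem_Col.2 fun p hp n => B.mem_Col.1 h p (by omega) n

theorem col_zero (x : T) : x ∈ B.Col 0 := B.mem_Col.2 fun _ hp => absurd hp (by omega)

theorem d_mem_col (h : x ∈ B.Col c) : B.d x ∈ B.Col c :=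
  B.mem_Col.2 fun p hp n => by
    cases n with
    | zero => exact B.ed0 _ _
    | succ n => rw [B.ed, B.mem_Col.1 h p hp, map_zero]

theorem δ_mem_col (h : x ∈ B.Col c) : B.δ x ∈ B.Col (c + 1) :=
  B.mem_Col.2 fun p hp n => by
    cases p with
    | zero => exact B.eδ0 _ _
    | succ p => rw [B.eδ, B.mem_Col.1 h p (by omega), map_zero]

theorem D_mem_col (h : x ∈ B.Col c) : B.D x ∈ B.Col c :=
  Submodule.add_mem _ (d_mem_col h) (col_mono (by omega) (δ_mem_col h))

theorem tr_mem_col (h : x ∈ B.Col c) (N : ℕ) : B.tr N x ∈ B.Col c :=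
  B.mem_Col.2 fun p hp n => by rw [e_tr, B.mem_Col.1 h p hp, ite_self]

theorem D_mem_deg (h : x ∈ B.Deg N) : B.D x ∈ B.Deg (N + 1) := by
  rw [← B.tr_of_mem h, ← tr_D]
  exact B.tr_mem _ _

theorem sub_e_mem (h : x ∈ B.Deg N) (hc : x ∈ B.Col c) (hN : c + n = N) :
    x - B.e c n x ∈ B.Col (c + 1) :=
  B.mem_Col.2 fun p hp m => by
    rw [map_sub, e_e]
    split_ifs with h'
    · exact sub_self _
    · rw [sub_zero]
      by_cases hpc : p = c
      · exact B.mem_Deg.1 h p m (by omega)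
      · exact B.mem_Col.1 hc p (by omega) m

theorem eq_zero_of_lt (h : x ∈ B.Deg N) (hc : x ∈ B.Col c) (hN : N < c) : x = 0 :=
  B.ext x fun p m => by
    by_cases hp : p < c
    · exact B.mem_Col.1 hc p hp m
    · exact B.mem_Deg.1 h p m (by omega)

theorem d_e_low (hc : x ∈ B.Col c) (n : ℕ) : B.d (B.e c n x) = B.e c (n + 1) (B.D x) := by
  rw [D_apply, map_add, B.ed, B.mem_Col.1 (δ_mem_col hc) c (by omega), add_zero]

theorem e_d_ex (B : BG T) (p n : ℕ) (x : T) : ∃ b ∈ B.Col p, B.e p n (B.d x) = B.d b := by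
  cases n with
  | zero => exact ⟨0, Submodule.zero_mem _, by rw [B.ed0, map_zero]⟩
  | succ n => exact ⟨_, col_of_H (B.e_mem p n x) le_rfl, B.ed _ _ _⟩

variable (B)

/-- if the rows are exact, every cocycle is cohomologous to one in column `0` -/
theorem to_col0 (row : ∀ p n x, B.δ (B.e (p + 1) n x) = 0 → ∃ b, B.e (p + 1) n x = B.δ b)
    {N : ℕ} {y : T} (hy : y ∈ B.Deg N) (hD : B.D y = 0) : ∃ z, y - B.D z ∈ B.H 0 N := by
  have key : ∀ k, ∀ y ∈ B.Deg N, B.D y = 0 → (∀ p n, k < p → B.e p n y = 0) →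
      ∃ z, y - B.D z ∈ B.H 0 N := by
    intro k
    induction k with
    | zero =>
      intro y hy _ h
      refine ⟨0, B.mem_H.2 (B.ext' fun p n => ?_)⟩
      rw [map_zero, sub_zero, e_e]
      split_ifs with h'
      · rfl
      · by_cases hp : p = 0
        · exact (B.mem_Deg.1 hy p n (by omega)).symm
        · exact (h p n (by omega)).symm
    | succ k ih =>
      intro y hy hD h
      by_cases hk : N < k + 1
      · exact ih y hy hD fun p n hp => B.mem_Deg.1 hy p n (by omega)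
      obtain ⟨n, hn⟩ : ∃ n, k + 1 + n = N := ⟨N - (k + 1), by omega⟩
      have h1 : B.δ (B.e (k + 1) n y) = 0 := by
        have h2 : B.e (k + 2) n (B.D y) = 0 := by rw [hD, map_zero]
        rw [D_apply, map_add, B.eδ] at h2
        cases n with
        | zero => rwa [B.ed0, zero_add] at h2
        | succ n => rwa [B.ed, h _ _ (by omega), map_zero, zero_add] at h2
      obtain ⟨b, hb⟩ := row k n y h1
      have hb' : B.δ (B.e k n b) = B.e (k + 1) n y := by rw [← B.eδ, ← hb, B.ee]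
      have hdeg : B.D (B.e k n b) ∈ B.Deg N :=
        (by omega : k + n + 1 = N) ▸ D_mem_deg (deg_of_H (B.e_mem k n b) rfl)
      obtain ⟨z, hz⟩ := ih (y - B.D (B.e k n b)) (Submodule.sub_mem _ hy hdeg)
        (by rw [map_sub, hD, DD, sub_zero]) fun p m hp => by
          rw [map_sub, D_apply, map_add, hb', e_of_H (d_mem_H (B.e_mem k n b)) (by omega),
            zero_add, e_e]
          split_ifs with h'
          · exact sub_self _
          · rw [sub_zero]
            by_cases hpk : p = k + 1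
            · exact B.mem_Deg.1 hy p m (by omega)
            · exact h p m (by omega)
      refine ⟨B.e k n b + z, ?_⟩
      rwa [map_add, ← sub_sub]
  exact key N y hy hD fun p n hp => B.mem_Deg.1 hy p n (by omega)

end BG

end Pool.Agent.HT
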