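import Pool.Agent.P.MP_65ad7c_ag.HAlgA

/-! Consequences of the `d d^c` lemma in the columns of a double complex. -/

open Complex (I)

noncomputable section
namespace Pool.Agent.HT
namespace KD
variable {T : Type} [AddCommGroup T] [Module ℂ T] (K : KD T)

/-- `-2 i ∂bar` -/
def Q : Module.End ℂ T := K.c - I • K.d

/-- `d d^c` -/
def dc : Module.End ℂ T := K.d * K.c

theorem c_apply (x : T) : K.c x = K.g (K.d x) - K.d (K.g x) := rfl
theorem P_apply (x : T) : K.P x = K.c x + I • K.d x := rfl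
theorem Q_apply (x : T) : K.Q x = K.c x - I • K.d x := rfl
theorem dc_apply (x : T) : K.dc x = K.d (K.c x) := rfl
theorem mem_B {x : T} : x ∈ K.B ↔ K.d x = 0 ∧ K.c x = 0 := Iff.rfl

theorem II_smul (x : T) : I • I • x = -x := by rw [smul_smul, Complex.I_mul_I, neg_one_smul]

theorem g_d (x : T) : K.g (K.d x) = K.c x + K.d (K.g x) := by rw [c_apply, sub_add_cancel]

theorem g_c (x : T) : K.g (K.c x) = K.c (K.g x) - K.d x := by
  have h : K.g (K.c x) - K.c (K.g x) = -K.d x := K.hB x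
  rw [sub_eq_iff_eq_add.1 h]
  abel

theorem c_d (x : T) : K.c (K.d x) = -K.d (K.c x) := by
  simp only [c_apply, map_sub, K.dd, map_zero]
  abel

theorem c_c (x : T) : K.c (K.c x) = 0 := by
  have h2 := congrArg K.g (K.c_d x)
  rw [map_neg, g_c, g_d, g_d, g_c, K.dd, map_add, map_sub, K.dd, c_d] at h2
  have h3 : (2 : ℂ) • K.c (K.c x) = 0 := by
    linear_combination (norm := module) h2
  exact (smul_eq_zero.1 h3).resolve_left two_ne_zero

theorem g_P (x : T) : K.g (K.P x) = K.P (K.g x) + I • K.P x := by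
  simp only [P_apply, map_add, map_smul, g_c, g_d, smul_add, II_smul]
  abel

theorem g_Q (x : T) : K.g (K.Q x) = K.Q (K.g x) + (-I) • K.Q x := by
  simp only [Q_apply, map_sub, map_smul, g_c, g_d, smul_add, smul_sub, neg_smul, II_smul]
  abel

theorem g_dc (x : T) : K.g (K.dc x) = K.dc (K.g x) := by
  simp only [dc_apply, g_d, g_c, c_c, map_sub, K.dd, zero_add, sub_zero]

theorem d_P (x : T) : K.d (K.P x) = K.dc x := by
  simp only [P_apply, dc_apply, map_add, map_smul, K.dd, smul_zero, add_zero]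

theorem P_Q (x : T) : K.P (K.Q x) = (2 * I) • K.dc x := by
  simp only [P_apply, Q_apply, dc_apply, map_sub, map_smul, K.dd, c_c, c_d, smul_zero]
  module

theorem Q_Q (x : T) : K.Q (K.Q x) = 0 := by
  simp only [Q_apply, map_sub, map_smul, K.dd, c_c, c_d, smul_zero, sub_zero]
  module

theorem P_sub_Q (x : T) : K.P x - K.Q x = (2 * I) • K.d x := by
  simp only [P_apply, Q_apply]
  module

theorem P_add_Q (x : T) : K.P x + K.Q x = (2 : ℂ) • K.c x := by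
  simp only [P_apply, Q_apply]
  module

theorem mem_B_of {x : T} (h1 : K.P x = 0) (h2 : K.Q x = 0) : x ∈ K.B := by
  have h3 := K.P_sub_Q x
  have h4 := K.P_add_Q x
  rw [h1, h2] at h3 h4
  exact ⟨(smul_eq_zero.1 (h3.symm.trans (sub_zero _))).resolve_left
      (mul_ne_zero two_ne_zero Complex.I_ne_zero),
    (smul_eq_zero.1 (h4.symm.trans (add_zero _))).resolve_left two_ne_zero⟩

theorem c_δ (x : T) : K.c (K.δ x) = -K.δ (K.c x) := by
  simp only [c_apply, K.dδ, K.gδ, map_neg, map_sub]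
  abel

theorem P_δ (x : T) : K.P (K.δ x) = -K.δ (K.P x) := by
  simp only [P_apply, c_δ, K.dδ, map_add, map_smul, smul_neg]
  abel

theorem e_c (p n : ℕ) (x : T) : K.e p (n + 1) (K.c x) = K.c (K.e p n x) := by
  simp only [c_apply, map_sub, K.eg, K.ed]

theorem e_c0 (p : ℕ) (x : T) : K.e p 0 (K.c x) = 0 := by
  simp only [c_apply, map_sub, K.eg, K.ed0, map_zero, sub_zero]

variable {K} {p n c N a : ℕ} {x y : T} {lam : ℂ}

theorem c_mem_H (h : x ∈ K.H p n) : K.c x ∈ K.H p (n + 1) :=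
  K.mem_H.2 (by rw [e_c, K.mem_H.1 h])

theorem P_mem_H (h : x ∈ K.H p n) : K.P x ∈ K.H p (n + 1) :=
  Submodule.add_mem _ (c_mem_H h) (Submodule.smul_mem _ _ (BG.d_mem_H h))

theorem Q_mem_H (h : x ∈ K.H p n) : K.Q x ∈ K.H p (n + 1) :=
  Submodule.sub_mem _ (c_mem_H h) (Submodule.smul_mem _ _ (BG.d_mem_H h))

theorem inv_H : GInv K.g (K.H p n) := fun x h => K.mem_H.2 (by rw [K.eg, K.mem_H.1 h])

theorem inv_B : GInv K.g K.B := fun x h => by
  have h1 := K.g_d x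
  have h2 := K.g_c x
  rw [h.1, map_zero] at h1
  rw [h.1, h.2, map_zero, sub_zero] at h2
  rw [h.2, zero_add] at h1
  exact ⟨h1.symm, h2.symm⟩

theorem inv_dc : GInv K.g (LinearMap.range K.dc) :=
  GInv.range (κ := 0) fun x => by rw [g_dc, zero_smul, add_zero]

theorem e_mem_B (h : x ∈ K.B) (p n : ℕ) : K.e p n x ∈ K.B :=
  ⟨show K.d _ = 0 by rw [← K.ed, h.1, map_zero], show K.c _ = 0 by rw [← e_c, h.2, map_zero]⟩

theorem δ_mem_B (h : x ∈ K.B) : K.δ x ∈ K.B :=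
  ⟨show K.d _ = 0 by rw [K.dδ, h.1, map_zero, neg_zero],
    show K.c _ = 0 by rw [c_δ, h.2, map_zero, neg_zero]⟩

theorem mem_B_of_eig (hg : K.g x = lam • x) (hd : K.d x = 0) : x ∈ K.B :=
  ⟨hd, show K.c x = 0 by rw [c_apply, hd, hg, map_smul, hd, map_zero, smul_zero, sub_zero]⟩

theorem dc_of_d {u : T} (hy : K.c y = 0) (hu : y = K.d u) : y ∈ LinearMap.range K.dc := by
  obtain ⟨b, hb⟩ := K.hC u (by rw [← hu]; exact hy)
  exact ⟨b, (hu.trans hb).symm⟩

theorem dc_of_P {u : T} (hy : y ∈ K.B) (hu : y = K.P u) : y ∈ LinearMap.range K.dc := by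
  have h1 : K.d (K.c u) = 0 := by rw [← dc_apply, ← d_P, ← hu, hy.1]
  obtain ⟨b, hb⟩ := K.hD u h1
  have hb' : K.c u = K.dc b := hb
  have h2 : K.c (K.d u) = 0 := by rw [c_d, h1, neg_zero]
  rw [hu, P_apply, hb']
  exact Submodule.add_mem _ ⟨b, rfl⟩ (Submodule.smul_mem _ _ (dc_of_d h2 rfl))

/-- the eigenvalues in row `n` -/
def sv (n : ℕ) : Set ℂ := {lam | ∃ b : ℕ, b ≤ n ∧ lam = I * (2 * (b : ℂ) - n)}

theorem im_sv (b n : ℕ) : (I * (2 * (b : ℂ) - n)).im = 2 * (b : ℝ) - n := by simp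

theorem sp_of_H (h : x ∈ K.H p n) : x ∈ Sp K.g (sv n) ⊤ := by
  have h1 := K.poly p n x
  rw [K.mem_H.1 h] at h1
  refine (iSup₂_le fun b hb y hy => ?_ : _ ≤ Sp K.g (sv n) ⊤) h1
  exact Sp.mem ⟨b, Nat.lt_succ_iff.1 (Finset.mem_range.1 hb), rfl⟩ trivial
    (Module.End.mem_eigenspace_iff.1 hy)

variable (K) in
/-- the conjugate structure -/
def neg : KD T where
  toBG := K.toBG
  g := -K.g
  eg p n x := by simp [K.eg]
  gδ x := by simp [K.gδ]
  poly p n x := by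
    refine (Sp.le fun lam hl y _ hg => ?_) (sp_of_H (K.e_mem p n x))
    obtain ⟨b, hb, hl⟩ := hl
    refine (le_iSup₂_of_le (f := fun (b : ℕ) (_ : b ∈ Finset.range (n + 1)) =>
      (-K.g).eigenspace (I * (2 * (b : ℂ) - n))) (n - b) (Finset.mem_range.2 (by omega)) le_rfl) ?_
    rw [Module.End.mem_eigenspace_iff, LinearMap.neg_apply, hg, ← neg_smul, hl, Nat.cast_sub hb]
    congr 1
    ring
  hA x hx := by
    obtain ⟨b, hb⟩ := K.hA x hx
    exact ⟨b, by rw [LinearMap.neg_apply, map_neg, hb, neg_zero]⟩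
  hB x := by
    have h := K.hB x
    simp only [LinearMap.sub_apply, Module.End.mul_apply, LinearMap.neg_apply, map_neg,
      map_sub] at h ⊢
    rw [← h]
    abel
  hC y hy := by
    have e : -K.g * K.d - K.d * -K.g = -(K.g * K.d - K.d * K.g) := by noncomm_ring
    rw [e] at hy ⊢
    obtain ⟨b, hb⟩ := K.hC y (neg_eq_zero.1 hy)
    exact ⟨-b, by rw [hb, LinearMap.neg_apply, map_neg, map_neg, map_neg, neg_neg]⟩
  hD y hy := by
    have e : -K.g * K.d - K.d * -K.g = -(K.g * K.d - K.d * K.g) := by noncomm_ring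
    rw [e] at hy ⊢
    rw [LinearMap.neg_apply, map_neg, neg_eq_zero] at hy
    obtain ⟨b, hb⟩ := K.hD y hy
    exact ⟨b, by rw [LinearMap.neg_apply, hb, LinearMap.neg_apply, map_neg]⟩

theorem neg_c (x : T) : K.neg.c x = -K.c x := by
  change (-K.g) (K.d x) - K.d ((-K.g) x) = _
  simp only [c_apply, LinearMap.neg_apply, map_neg]
  abel

theorem neg_B : x ∈ K.neg.B ↔ x ∈ K.B := by
  rw [mem_B, mem_B, neg_c, neg_eq_zero]
  rfl

theorem neg_dc : x ∈ LinearMap.range K.neg.dc ↔ x ∈ LinearMap.range K.dc := by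
  have h : ∀ b, K.neg.dc b = K.dc (-b) := fun b => by
    rw [dc_apply, dc_apply, neg_c, map_neg K.c]
    rfl
  exact ⟨fun ⟨b, hb⟩ => ⟨-b, (h b).symm.trans hb⟩,
    fun ⟨b, hb⟩ => ⟨-b, by rw [h, neg_neg, hb]⟩⟩

theorem neg_F : K.neg.F a = K.Fb a := rfl

theorem mem_F' : x ∈ K.F a ↔
    ∀ p n : ℕ, K.e p n x ∈ Sp K.g (GE (2 * (a : ℝ) - n)) ⊤ := by
  simp only [mem_F, EGe_eq]

theorem F_of_H (h : x ∈ K.H p n) (h' : x ∈ Sp K.g (GE (2 * (a : ℝ) - n)) ⊤) :
    x ∈ K.F a := mem_F'.2 fun p' n' => by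
  by_cases e : p' = p ∧ n' = n
  · rw [e.1, e.2, K.mem_H.1 h]
    exact h'
  · rw [BG.e_of_H h e]
    exact Submodule.zero_mem _

theorem F_mono {a' : ℕ} (ha : a ≤ a') (h : x ∈ K.F a') : x ∈ K.F a := mem_F'.2 fun p n =>
  Sp.ge (mem_F'.1 h p n) (by
    have : (a : ℝ) ≤ a' := by exact_mod_cast ha
    linarith)

theorem tr_mem_F (h : x ∈ K.F a) (N : ℕ) : K.tr N x ∈ K.F a := mem_F'.2 fun p n => by
  rw [BG.e_tr]
  split_ifs
  · exact mem_F'.1 h p n
  · exact Submodule.zero_mem _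

theorem P_mem_sp {t : ℝ} (h : x ∈ Sp K.g (GE t) ⊤) : K.P x ∈ Sp K.g (GE (t + 1)) ⊤ :=
  Sp.map K.g_P (fun lam hl => by simpa [mem_GE] using hl) h

theorem Q_mem_sp {t : ℝ} (h : x ∈ Sp K.g (GE t) ⊤) : K.Q x ∈ Sp K.g (GE (t - 1)) ⊤ :=
  Sp.map K.g_Q (fun lam hl => by simpa [mem_GE] using hl) h

theorem δ_mem_sp {S : Set ℂ} {q : Submodule ℂ T} (h : x ∈ Sp K.g S q) : K.δ x ∈ Sp K.g S ⊤ :=
  Sp.map (κ := 0) (fun x => by rw [K.gδ, zero_smul, add_zero]) (fun _ hl => by simpa using hl) h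

theorem D_mem_F (h : x ∈ K.F a) : K.D x ∈ K.F a := by
  refine Submodule.add_mem _ (mem_F'.2 fun p n => ?_) (mem_F'.2 fun p n => ?_)
  · cases n with
    | zero =>
      rw [K.ed0]
      exact Submodule.zero_mem _
    | succ n =>
      rw [K.ed]
      have h1 := mem_F'.1 h p n
      have h2 : K.d (K.e p n x) = (2 * I)⁻¹ • (K.P (K.e p n x) - K.Q (K.e p n x)) := by
        rw [P_sub_Q, smul_smul, inv_mul_cancel₀ (mul_ne_zero two_ne_zero Complex.I_ne_zero),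
          one_smul]
      rw [h2]
      refine Submodule.smul_mem _ _ (Submodule.sub_mem _
        (Sp.ge (P_mem_sp h1) ?_) (Sp.ge (Q_mem_sp h1) ?_)) <;> push_cast <;> linarith
  · cases p with
    | zero =>
      rw [K.eδ0]
      exact Submodule.zero_mem _
    | succ p =>
      rw [K.eδ]
      exact δ_mem_sp (mem_F'.1 h p n)

/-- homogeneous preimages under `d d^c` -/
theorem L2 (hy : y ∈ K.H p n) (hg : K.g y = lam • y) (h : y ∈ LinearMap.range K.dc) :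
    ∃ m b, b ∈ K.H p m ∧ K.g b = lam • b ∧ y = K.dc b ∧ (m + 2 = n ∨ b = 0) := by
  obtain ⟨b, hb⟩ := h
  have h0 : y = 0 → ∃ m b, b ∈ K.H p m ∧ K.g b = lam • b ∧ y = K.dc b ∧ (m + 2 = n ∨ b = 0) :=
    fun e => ⟨0, 0, Submodule.zero_mem _, by simp, by simp [e], Or.inr rfl⟩
  have h1 : y = K.e p n (K.d (K.c b)) := by rw [← dc_apply, hb, K.mem_H.1 hy]
  rcases n with _ | _ | m
  · exact h0 (by rw [h1, K.ed0])
  · exact h0 (by rw [h1, K.ed, e_c0, map_zero])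
  · rw [K.ed, e_c, ← dc_apply] at h1
    obtain ⟨u, hu, hu', hu''⟩ := Sp.pre K.g_dc
      (Sp.dec inv_H (K.e_mem p m b) (sp_of_H (K.e_mem p m b))) (lam := lam) (by rw [← h1, hg])
    exact ⟨m, u, hu, hu', h1.trans hu''.symm, Or.inl rfl⟩

/-- closed elements are harmonic up to exact ones -/
theorem HA (hx : x ∈ K.H p n) (hd : K.d x = 0) :
    ∃ h ∈ K.B ⊓ K.H p n, ∃ β ∈ K.Col p, x = h + K.d β := by
  obtain ⟨b, hb⟩ := K.hA x hd
  have h1 : K.d (x - K.d b) = 0 := by rw [map_sub, hd, K.dd, sub_zero]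
  have h2 : x - K.d b ∈ K.B :=
    ⟨h1, show K.c _ = 0 by rw [c_apply, h1, hb, map_zero, sub_zero]⟩
  obtain ⟨β, hβ, e⟩ := K.e_d_ex p n b
  refine ⟨_, ⟨e_mem_B h2 p n, K.e_mem _ _ _⟩, β, hβ, ?_⟩
  rw [map_sub, K.mem_H.1 hx, e, sub_add_cancel]

end KD
end Pool.Agent.HT
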