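import Pool.Agent.P.MP_65ad7c_ag.HBase

/-! Abstract double complexes, written on one module with projections to the bidegrees. -/

noncomputable section
namespace Pool.Agent.HT

/-- A double complex: `e p n` is the projection to column `p` and row `n`. -/
structure BG (T : Type) [AddCommGroup T] [Module ℂ T] where
  d : Module.End ℂ T
  δ : Module.End ℂ T
  e : ℕ → ℕ → Module.End ℂ T
  ee : ∀ p n x, e p n (e p n x) = e p n x
  ee' : ∀ p n p' n' x, ¬(p = p' ∧ n = n') → e p n (e p' n' x) = 0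
  ext : ∀ x, (∀ p n, e p n x = 0) → x = 0
  ed : ∀ p n x, e p (n + 1) (d x) = d (e p n x)
  ed0 : ∀ p x, e p 0 (d x) = 0
  eδ : ∀ p n x, e (p + 1) n (δ x) = δ (e p n x)
  eδ0 : ∀ n x, e 0 n (δ x) = 0
  dd : ∀ x, d (d x) = 0
  δδ : ∀ x, δ (δ x) = 0
  dδ : ∀ x, d (δ x) = -δ (d x)

namespace BG
variable {T : Type} [AddCommGroup T] [Module ℂ T] (B : BG T)

/-- total differential -/
def D : Module.End ℂ T := B.d + B.δ

/-- column `p` and row `n` -/
def H (p n : ℕ) : Submodule ℂ T := LinearMap.range (B.e p n)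

/-- columns `≥ c` -/
def Col (c : ℕ) : Submodule ℂ T := ⨅ p ∈ {p | p < c}, ⨅ n, LinearMap.ker (B.e p n)

/-- total degree `N` -/
def Deg (N : ℕ) : Submodule ℂ T := ⨅ p, ⨅ n, ⨅ _ : p + n ≠ N, LinearMap.ker (B.e p n)

/-- the part of total degree `N` -/
def tr (N : ℕ) : Module.End ℂ T := ∑ p ∈ Finset.range (N + 1), B.e p (N - p)

theorem D_apply (x : T) : B.D x = B.d x + B.δ x := rfl

theorem mem_H {p n : ℕ} {x : T} : x ∈ B.H p n ↔ B.e p n x = x :=
  ⟨fun ⟨y, hy⟩ => by rw [← hy, B.ee], fun h => ⟨x, h⟩⟩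

theorem mem_Col {c : ℕ} {x : T} : x ∈ B.Col c ↔ ∀ p < c, ∀ n, B.e p n x = 0 := by
  simp [Col]

theorem mem_Deg {N : ℕ} {x : T} : x ∈ B.Deg N ↔ ∀ p n, p + n ≠ N → B.e p n x = 0 := by
  simp [Deg]

end BG

/-- A double complex whose columns satisfy the `d d^c` lemma. -/
structure KD (T : Type) [AddCommGroup T] [Module ℂ T] extends BG T where
  g : Module.End ℂ T
  eg : ∀ p n x, e p n (g x) = g (e p n x)
  gδ : ∀ x, g (δ x) = δ (g x)
  poly : ∀ p n x, e p n x ∈ ⨆ b ∈ Finset.range (n + 1),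
    g.eigenspace (Complex.I * (2 * (b : ℂ) - n))
  hA : ∀ x, d x = 0 → ∃ b, d (g (x - d b)) = 0
  hB : ∀ x, g ((g * d - d * g) x) - (g * d - d * g) (g x) = -d x
  hC : ∀ y, (g * d - d * g) (d y) = 0 → ∃ b, d y = d ((g * d - d * g) b)
  hD : ∀ y, d ((g * d - d * g) y) = 0 → ∃ b, (g * d - d * g) y = d ((g * d - d * g) b)

namespace KD
variable {T : Type} [AddCommGroup T] [Module ℂ T] (K : KD T)

/-- `d^c` -/
def c : Module.End ℂ T := K.g * K.d - K.d * K.g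

/-- `2 i ∂` -/
def P : Module.End ℂ T := K.c + Complex.I • K.d

/-- `d`-closed and `d^c`-closed elements -/
def B : Submodule ℂ T := LinearMap.ker K.d ⊓ LinearMap.ker K.c

/-- Hodge filtration -/
def F (a : ℕ) : Submodule ℂ T := ⨅ p, ⨅ n : ℕ, (EGe K.g (2 * (a : ℝ) - n)).comap (K.e p n)

/-- conjugate Hodge filtration -/
def Fb (a : ℕ) : Submodule ℂ T := ⨅ p, ⨅ n : ℕ, (EGe (-K.g) (2 * (a : ℝ) - n)).comap (K.e p n)

theorem mem_F {a : ℕ} {x : T} : x ∈ K.F a ↔ ∀ p n : ℕ, K.e p n x ∈ EGe K.g (2 * (a : ℝ) - n) := by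
  simp [F]

theorem mem_Fb {a : ℕ} {x : T} :
    x ∈ K.Fb a ↔ ∀ p n : ℕ, K.e p n x ∈ EGe (-K.g) (2 * (a : ℝ) - n) := by
  simp [Fb]

end KD

end Pool.Agent.HT
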