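import Pool.Agent.P.MP_65ad7c_ag.HEDefs

/-! The functional analysis behind the Hodge decomposition. -/

open Set Filter Topology MeasureTheory
open scoped ContDiff InnerProductSpace FourierTransform

noncomputable section
namespace Pool.Agent.HT
open Pool.Agent.Wein (Ret Tan)

variable {H D : Type} [NormedAddCommGroup H] [InnerProductSpace ℂ H] [CompleteSpace H]
  [AddCommGroup D] [Module ℂ D]

omit [CompleteSpace H] in
theorem heabs_sq_le (j : D →ₗ[ℂ] H) (L : D →ₗ[ℂ] D) (pos : ∀ u, 0 ≤ (⟪j (L u), j u⟫_ℂ).re)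
    (φ : D) : ‖j φ‖ ^ 2 ≤ (⟪j (φ + L φ), j φ⟫_ℂ).re := by
  have h1 : (⟪j φ, j φ⟫_ℂ).re = ‖j φ‖ ^ 2 := inner_self_eq_norm_sq (𝕜 := ℂ) (j φ)
  rw [map_add, inner_add_left, Complex.add_re, h1]
  linarith [pos φ]

omit [CompleteSpace H] in
theorem heabs_norm_le {a b : H} (h : ‖b‖ ^ 2 ≤ (⟪a, b⟫_ℂ).re) : ‖b‖ ≤ ‖a‖ := by
  have h1 : (⟪a, b⟫_ℂ).re ≤ ‖a‖ * ‖b‖ := re_inner_le_norm (𝕜 := ℂ) a b
  rcases (norm_nonneg b).eq_or_lt with h0 | h0
  · rw [← h0]; exact norm_nonneg a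
  · refine le_of_mul_le_mul_right ?_ h0
    rw [← sq]
    exact h.trans h1

omit [CompleteSpace H] in
theorem heabs_eq_of_le {a b : H} (h : ‖b‖ ^ 2 ≤ (⟪a, b⟫_ℂ).re) (h' : ‖a‖ ≤ ‖b‖) : b = a := by
  have h1 : ‖a - b‖ ^ 2 = ‖a‖ ^ 2 - 2 * (⟪a, b⟫_ℂ).re + ‖b‖ ^ 2 := norm_sub_sq (𝕜 := ℂ) a b
  have h2 : ‖a‖ ^ 2 ≤ ‖b‖ ^ 2 := pow_le_pow_left₀ (norm_nonneg a) h' 2
  have h3 : ‖a - b‖ ^ 2 = 0 := le_antisymm (by linarith) (sq_nonneg _)
  exact (sub_eq_zero.1 (norm_eq_zero.1 (pow_eq_zero_iff two_ne_zero |>.1 h3))).symm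

/-- the resolvent -/
theorem exists_green (j : D →ₗ[ℂ] H) (L : D →ₗ[ℂ] D)
    (sym : ∀ u w, ⟪j (L u), j w⟫_ℂ = ⟪j u, j (L w)⟫_ℂ) (pos : ∀ u, 0 ≤ (⟪j (L u), j u⟫_ℂ).re)
    (dense : ∀ u : H, (∀ φ, ⟪u, j (φ + L φ)⟫_ℂ = 0) → u = 0) :
    ∃ G : H →L[ℂ] H, (∀ v φ, ⟪G v, j (φ + L φ)⟫_ℂ = ⟪v, j φ⟫_ℂ) ∧
      ∀ v, ‖G v‖ ^ 2 ≤ (⟪v, G v⟫_ℂ).re := by
  let e : D →ₗ[ℂ] H := j ∘ₗ (LinearMap.id + L)
  have he : ∀ φ, e φ = j (φ + L φ) := fun φ => rfl
  have hb : ∀ φ, ‖j φ‖ ≤ 1 * ‖e φ‖ := fun φ => by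
    rw [one_mul, he]; exact heabs_norm_le (heabs_sq_le j L pos φ)
  have hd : DenseRange e := by
    have h1 : Dense ((LinearMap.range e : Submodule ℂ H) : Set H) := by
      rw [Submodule.dense_iff_topologicalClosure_eq_top, Submodule.topologicalClosure_eq_top_iff,
        Submodule.eq_bot_iff]
      intro u hu
      exact dense u fun φ => (Submodule.mem_orthogonal' _ _).1 hu _ ⟨φ, rfl⟩
    exact h1
  have hG : ∀ ψ, j.extendOfNorm e (e ψ) = j ψ := LinearMap.extendOfNorm_eq hd ⟨1, hb⟩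
  refine ⟨j.extendOfNorm e, fun v φ => ?_, fun v => ?_⟩
  · refine hd.induction_on v (isClosed_eq (by fun_prop) (by fun_prop)) fun ψ => ?_
    rw [hG, he, map_add, map_add, inner_add_right, inner_add_left, sym]
  · refine hd.induction_on v (isClosed_le (by fun_prop) (by fun_prop)) fun ψ => ?_
    rw [hG, he]
    exact heabs_sq_le j L pos ψ

/-- the Fredholm alternative for a firm contraction with a compact power -/
theorem fredholm_green (G : H →L[ℂ] H) (hG : ∀ v, ‖G v‖ ^ 2 ≤ (⟪v, G v⟫_ℂ).re) {k : ℕ}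
    (hc : IsCompactOperator (G ^ (k + 1))) (v : H) : ∃ x z, G x = x ∧ v = x + (z - G z) := by
  have hn : ∀ y, ‖G y‖ ≤ ‖y‖ := fun y => heabs_norm_le (hG y)
  have hp : ∀ (n : ℕ) y, ‖(G ^ n) y‖ ≤ ‖y‖ := fun n => by
    induction n with
    | zero => intro y; simp
    | succ n ih => intro y; rw [pow_succ, mul_apply_eq_comp]; exact (ih _).trans (hn y)
  let K : Submodule ℂ H := LinearMap.ker ((1 - G : H →L[ℂ] H) : H →ₗ[ℂ] H)
  have hK : ∀ y, y ∈ K ↔ G y = y := fun y => by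
    show (1 - G : H →L[ℂ] H) y = 0 ↔ _
    rw [sub_apply, one_apply_eq_self, sub_eq_zero, eq_comm]
  have hcl : IsClosed (K : Set H) := ContinuousLinearMap.isClosed_ker (1 - G : H →L[ℂ] H)
  have : CompleteSpace K := hcl.completeSpace_coe
  let S : H →L[ℂ] H := G ^ (k + 1) * Kᗮ.starProjection
  have hS : IsCompactOperator S := hc.comp_clm Kᗮ.starProjection
  have hSa : ∀ y, S y = (G ^ (k + 1)) (Kᗮ.starProjection y) := fun y => rfl
  rcases hS.hasEigenvalue_or_mem_resolventSet (μ := 1) one_ne_zero with h1 | h1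
  · exfalso
    obtain ⟨x, hx⟩ := h1.exists_hasEigenvector
    have h2 : S x = x := by simpa using hx.apply_eq_smul
    have h3 : ‖Kᗮ.starProjection x‖ ≤ ‖x‖ := Submodule.norm_starProjection_apply_le _ x
    have h4 : ‖x‖ ≤ ‖G (Kᗮ.starProjection x)‖ := by
      have := hp k (G (Kᗮ.starProjection x))
      rwa [← mul_apply_eq_comp, ← pow_succ, ← hSa, h2] at this
    have h5 : Kᗮ.starProjection x ∈ K := (hK _).2 (heabs_eq_of_le (hG _) (h3.trans h4))
    have h6 : Kᗮ.starProjection x = 0 :=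
      inner_self_eq_zero (𝕜 := ℂ) |>.1
        ((Submodule.mem_orthogonal _ _).1 (Kᗮ.starProjection_apply_mem x) _ h5)
    rw [hSa, h6, map_zero] at h2
    exact hx.2 h2.symm
  · rw [spectrum.mem_resolventSet_iff, ContinuousLinearMap.isUnit_iff_bijective] at h1
    obtain ⟨y, hy⟩ := h1.2 v
    rw [map_one, sub_apply, one_apply_eq_self, hSa] at hy
    refine ⟨K.starProjection y, (∑ n ∈ Finset.range (k + 1), G ^ n) (Kᗮ.starProjection y),
      (hK _).1 (K.starProjection_apply_mem y), ?_⟩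
    have h2 := congrArg (fun T : H →L[ℂ] H => T (Kᗮ.starProjection y)) (mul_neg_geom_sum G (k + 1))
    simp only [mul_apply_eq_comp, sub_apply,
      one_apply_eq_self] at h2
    rw [h2, ← hy, ← add_sub_assoc, K.starProjection_add_starProjection_orthogonal]

/-- an operator with values in the range of `i` factors through `i` -/
theorem heabs_factor {C : Type} [NormedAddCommGroup C] [NormedSpace ℂ C] [CompleteSpace C]
    (i : C →L[ℂ] H) (hi : Function.Injective i) (A : H →L[ℂ] H) (h : ∀ v, ∃ c, i c = A v) :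
    ∃ T : H →L[ℂ] C, i.comp T = A := by
  choose t ht using h
  let T : H →ₗ[ℂ] C :=
    { toFun := t
      map_add' := fun a b => hi (by rw [map_add, ht, ht, ht, map_add])
      map_smul' := fun a b => hi (by rw [RingHom.id_apply, map_smul, ht, ht, map_smul]) }
  have hT : Continuous T := T.continuous_of_seq_closed_graph fun u x y hu hy => by
    have h1 : Tendsto (fun n => i (t (u n))) atTop (𝓝 (i y)) := (i.continuous.tendsto y).comp hy
    have h2 : Tendsto (fun n => A (u n)) atTop (𝓝 (A x)) := (A.continuous.tendsto x).comp hu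
    simp only [ht] at h1
    exact hi ((tendsto_nhds_unique h1 h2).trans (ht x).symm)
  exact ⟨⟨T, hT⟩, ContinuousLinearMap.ext ht⟩

theorem ell_abs {C : Type} [NormedAddCommGroup C] [NormedSpace ℂ C] [CompleteSpace C]
    (j : D →ₗ[ℂ] H) (hj : Function.Injective j) (L : D →ₗ[ℂ] D) (i : C →L[ℂ] H)
    (hi : Function.Injective i) (hc : ∀ T : H →L[ℂ] C, IsCompactOperator (i.comp T))
    (sym : ∀ u w, ⟪j (L u), j w⟫_ℂ = ⟪j u, j (L w)⟫_ℂ) (pos : ∀ u, 0 ≤ (⟪j (L u), j u⟫_ℂ).re)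
    (R : ℕ → Submodule ℂ H) (R0 : ∀ u, u ∈ R 0) (Rj : ∀ s f, j f ∈ R s)
    (gain : ∀ s u f, (∀ φ, ⟪u, j (L φ)⟫_ℂ = ⟪f, j φ⟫_ℂ) → u ∈ R s → f ∈ R s → u ∈ R (s + 1))
    (anti : ∀ s, R (s + 1) ≤ R s) (Rinf : ∀ u, (∀ s, u ∈ R s) → ∃ f, j f = u)
    (k : ℕ) (Rk : ∀ u ∈ R k, ∃ c, i c = u) (u : D) : ∃ h w, L h = 0 ∧ u = h + L w := by
  have am : Antitone R := antitone_nat_of_succ_le anti
  have dense : ∀ u : H, (∀ φ, ⟪u, j (φ + L φ)⟫_ℂ = 0) → u = 0 := fun v hv => by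
    have h1 : ∀ φ, ⟪v, j (L φ)⟫_ℂ = ⟪-v, j φ⟫_ℂ := fun φ => by
      have := hv φ
      rw [map_add, inner_add_right] at this
      rw [inner_neg_left]
      exact eq_neg_of_add_eq_zero_right this
    have h2 : ∀ s, v ∈ R s := fun s => by
      induction s with
      | zero => exact R0 v
      | succ s ih => exact gain s v (-v) h1 ih ((R s).neg_mem ih)
    obtain ⟨f, rfl⟩ := Rinf v h2
    have h3 := heabs_sq_le j L pos f
    rw [← inner_conj_symm, hv f, map_zero, Complex.zero_re] at h3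
    exact norm_eq_zero.1 (pow_eq_zero_iff two_ne_zero |>.1 (le_antisymm h3 (sq_nonneg _)))
  obtain ⟨G, hG1, hG2⟩ := exists_green j L sym pos dense
  have weak : ∀ v φ, ⟪G v, j (L φ)⟫_ℂ = ⟪v - G v, j φ⟫_ℂ := fun v φ => by
    have := hG1 v φ
    rw [map_add, inner_add_right] at this
    rw [inner_sub_left, ← this, add_sub_cancel_left]
  have up : ∀ s v, v ∈ R s → G v ∈ R (s + 1) := fun s v hv => by
    have h1 : ∀ t, t ≤ s + 1 → G v ∈ R t := fun t => by
      induction t with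
      | zero => exact fun _ => R0 _
      | succ t ih =>
        intro ht
        have h2 := ih (Nat.le_of_succ_le ht)
        exact gain t _ _ (weak v) h2 ((R t).sub_mem (am (Nat.le_of_succ_le_succ ht) hv) h2)
    exact h1 _ le_rfl
  have pw : ∀ n v, (G ^ n) v ∈ R n := fun n v => by
    induction n with
    | zero => exact R0 _
    | succ n ih => rw [pow_succ', mul_apply_eq_comp]; exact up n _ ih
  obtain ⟨T, hT⟩ := heabs_factor i hi (G ^ (k + 1)) fun v => Rk _ (anti k (pw (k + 1) v))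
  have hcG : IsCompactOperator (G ^ (k + 1)) := hT ▸ hc T
  obtain ⟨x, z, hx, hz⟩ := fredholm_green G hG2 hcG (j u)
  have hxR : ∀ s, x ∈ R s := fun s => by
    induction s with
    | zero => exact R0 x
    | succ s ih => exact hx ▸ up s x ih
  obtain ⟨h, rfl⟩ := Rinf x hxR
  have hL : L h = 0 := by
    have h1 := weak (j h) (L h)
    rw [hx, sub_self, inner_zero_left, ← sym] at h1
    exact hj ((inner_self_eq_zero.1 h1).trans (map_zero j).symm)
  have hz' : z = j (u - h) + G z := by rw [map_sub, hz]; abel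
  have hzR : ∀ s, z ∈ R s := fun s => by
    induction s with
    | zero => exact R0 z
    | succ s ih => rw [hz']; exact (R _).add_mem (Rj _ _) (up s z ih)
  obtain ⟨w, hw⟩ := Rinf (G z) fun s => anti s (up s z (hzR s))
  have h2 : j (L w) - (z - G z) = 0 := dense _ fun φ => by
    rw [inner_sub_left, sym, hw, weak, sub_self]
  refine ⟨h, w, hL, hj ?_⟩
  rw [map_add, sub_eq_zero.1 h2, hz]

end Pool.Agent.HT
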