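import Pool.Agent.P.MP_65ad7c_ag.HEF0

/-! Differential operators in a chart. -/

open Set Filter Topology MeasureTheory
open scoped ContDiff InnerProductSpace FourierTransform

noncomputable section
namespace Pool.Agent.HT
open Pool.Agent.Wein (Ret Tan)

variable {m : ℕ} {V : Type} [NormedAddCommGroup V] [InnerProductSpace ℝ V]
  {F : Type} [NormedAddCommGroup F] [InnerProductSpace ℂ F] {R : Ret V}

theorem RC.X_smooth (A : RC R.S m) (v : V) : ContDiff ℝ ∞ (A.X R v) :=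
  ((A.φ_smooth.fderiv_right (m := ∞) (by simp)).comp A.ψ_smooth).clm_apply
    ((R.P_smooth.comp A.ψ_smooth).clm_apply contDiff_const)

theorem RC.X_ell (A : RC R.S m) {ι : Type} [Fintype ι] (b : OrthonormalBasis ι ℝ V) {y : EE m}
    (hy : y ∈ A.O) (ξ : EE m) (h : ∀ a, ⟪ξ, A.X R (b a) y⟫_ℝ = 0) : ξ = 0 := by
  have dψ : DifferentiableAt ℝ A.ψ y := A.ψ_smooth.differentiable (by simp) y
  have dφ : DifferentiableAt ℝ A.φ (A.ψ y) := A.φ_smooth.differentiable (by simp) _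
  have dr : DifferentiableAt ℝ R.r (A.ψ y) := R.smooth.differentiable (by simp) _
  have h1 : (R.r ∘ A.ψ) =ᶠ[𝓝 y] A.ψ := by
    filter_upwards [A.O_open.mem_nhds hy] with z hz using R.fix _ (A.ψ_mem z hz).1
  have h2 : (A.φ ∘ A.ψ) =ᶠ[𝓝 y] id := by
    filter_upwards [A.O_open.mem_nhds hy] with z hz using A.φψ z hz
  have e1 : R.P (A.ψ y) (fderiv ℝ A.ψ y ξ) = fderiv ℝ A.ψ y ξ := by
    have := DFunLike.congr_fun (h1.fderiv_eq (𝕜 := ℝ)) ξ
    rwa [fderiv_comp y dr dψ] at this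
  have e2 : fderiv ℝ A.φ (A.ψ y) (fderiv ℝ A.ψ y ξ) = ξ := by
    have := DFunLike.congr_fun (h2.fderiv_eq (𝕜 := ℝ)) ξ
    rwa [fderiv_comp y dφ dψ, fderiv_id] at this
  have e3 : ∑ a, ⟪b a, fderiv ℝ A.ψ y ξ⟫_ℝ • A.X R (b a) y = ξ := by
    have := congrArg (fun w => fderiv ℝ A.φ (A.ψ y) (R.P (A.ψ y) w))
      (b.sum_repr' (fderiv ℝ A.ψ y ξ))
    simp only [map_sum, map_smul] at this
    rw [e1, e2] at this
    exact this
  have e4 : ⟪ξ, ∑ a, ⟪b a, fderiv ℝ A.ψ y ξ⟫_ℝ • A.X R (b a) y⟫_ℝ = 0 := by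
    rw [inner_sum]
    refine Finset.sum_eq_zero fun a _ => ?_
    rw [real_inner_smul_right, h a, mul_zero]
  rw [e3] at e4
  exact inner_self_eq_zero.1 e4

theorem Rep.pd {A : RC R.S m} {K : Set (EE m)} (hK : IsCompact K) {Φ : CF V F} {φ : EE m → F}
    (hφ : ContDiff ℝ ∞ φ) (h : Rep A K Φ.1 φ) (v : V) :
    Rep A K (CF.pd R v Φ).1 (vd (A.X R v) φ) := by
  constructor
  · intro y hy
    have hx := A.ψ_mem y hy
    have dφ : DifferentiableAt ℝ A.φ (A.ψ y) := A.φ_smooth.differentiable (by simp) _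
    have dg : DifferentiableAt ℝ φ (A.φ (A.ψ y)) := hφ.differentiable (by simp) _
    have e := Tan.fderiv_congr ((R.mem_tan hx.1 _).2 (R.P_idem hx.1 v)) (f := Φ.1)
      (g := φ ∘ A.φ) (Φ.diff _) (dg.comp _ dφ) (by
        filter_upwards [A.W_open.mem_nhds hx.2] with x hW hS
        have e1 := h.1 _ (A.φ_mem x ⟨hS, hW⟩)
        rw [A.ψφ x ⟨hS, hW⟩] at e1
        exact e1)
    rw [fderiv_comp _ dg dφ, A.φψ y hy] at e
    exact e
  · intro x hx hn
    have hc : IsClosed (A.ψ '' K) := (hK.image A.ψ_smooth.continuous).isClosed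
    have e := Tan.fderiv_congr ((R.mem_tan hx _).2 (R.P_idem hx v)) (f := Φ.1)
      (g := fun _ => 0) (Φ.diff _) (differentiableAt_const _) (by
        filter_upwards [hc.isOpen_compl.mem_nhds hn] with z hz hS using h.2 z hS hz)
    simpa using e

theorem Rep.op {A : RC R.S m} {K : Set (EE m)} (hK : IsCompact K) {Φ : CF V F} {φ : EE m → F}
    (hφ : ContDiff ℝ ∞ φ) (h : Rep A K Φ.1 φ) {ι : Type} [Fintype ι] (b : OrthonormalBasis ι ℝ V)
    (B : ι → V → F →L[ℂ] F) (C : V → F →L[ℂ] F) :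
    Rep A K (opV R b B C Φ)
      (opP (fun a => A.X R (b a)) (fun a y => B a (A.ψ y)) (fun y => C (A.ψ y)) φ) := by
  have h1 : ∀ a, Rep A K (CF.pd R (b a) Φ).1 (vd (A.X R (b a)) φ) := fun a => h.pd hK hφ _
  have s1 : ∀ a, ContDiff ℝ ∞ (vd (A.X R (b a)) φ) := fun a =>
    (hφ.fderiv_right (m := ∞) (by simp)).clm_apply (A.X_smooth _)
  have h2 : ∀ a, Rep A K (CF.pd R (b a) (CF.pd R (b a) Φ)).1
      (vd (A.X R (b a)) (vd (A.X R (b a)) φ)) := fun a => (h1 a).pd hK (s1 a) _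
  constructor
  · intro y hy
    unfold opV opP
    rw [h.1 y hy, Finset.sum_congr rfl fun a _ => (h2 a).1 y hy,
      Finset.sum_congr rfl fun a _ => congrArg (B a (A.ψ y)) ((h1 a).1 y hy)]
  · intro x hx hn
    unfold opV
    rw [h.2 x hx hn, Finset.sum_eq_zero fun a _ => (h2 a).2 x hx hn,
      Finset.sum_eq_zero fun a _ => by rw [(h1 a).2 x hx hn, map_zero]]
    simp

theorem exists_rep [FiniteDimensional ℝ V] {S : Set V} (A : RC S m) {φ : EE m → F}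
    (hφ : Test A.O φ) : ∃ Φ : CF V F, Rep A (tsupport φ) Φ.1 φ := by
  have hK : IsCompact (A.ψ '' tsupport φ) := IsCompact.image hφ.2.1 A.ψ_smooth.continuous
  have hW : A.ψ '' tsupport φ ⊆ A.W := by
    rintro _ ⟨y, hy, rfl⟩
    exact (A.ψ_mem y (hφ.2.2 hy)).2
  obtain ⟨β, b1, -, b3, -, b5⟩ := Pool.Agent.Wein.exists_bump _ _ hK A.W_open hW
  refine ⟨CF.mk (fun x => β x • φ (A.φ x)) (b1.smul (hφ.1.comp A.φ_smooth)), ?_, ?_⟩
  · intro y hy
    show β (A.ψ y) • φ (A.φ (A.ψ y)) = φ y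
    rw [A.φψ y hy]
    by_cases hm : y ∈ tsupport φ
    · rw [b5.self_of_nhdsSet _ (mem_image_of_mem _ hm), one_smul]
    · rw [image_eq_zero_of_notMem_tsupport hm, smul_zero]
  · intro x hx hn
    show β x • φ (A.φ x) = 0
    by_cases hw : x ∈ A.W
    · have hm : A.φ x ∉ tsupport φ := fun h' => hn ⟨_, h', A.ψφ x ⟨hx, hw⟩⟩
      rw [image_eq_zero_of_notMem_tsupport hm, smul_zero]
    · rw [image_eq_zero_of_notMem_tsupport fun h' => hw (b3 h'), zero_smul]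

theorem hech_val_sum {ι : Type} (s : Finset ι) (f : ι → CF V F) (x : V) :
    (∑ i ∈ s, f i).1 x = ∑ i ∈ s, (f i).1 x := by
  classical
  induction s using Finset.induction_on with
  | empty => rfl
  | insert a s ha ih =>
    rw [Finset.sum_insert ha, Finset.sum_insert ha, CF.val_add, Pi.add_apply, ih]

theorem hech_mk_sum {S : Set V} {ι : Type} (s : Finset ι) (f : ι → CF V F) :
    Sec.mk S (∑ i ∈ s, f i) = ∑ i ∈ s, Sec.mk S (f i) := map_sum (Z0 S F).mkQ f s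

theorem hech_mk_add {S : Set V} (f g : CF V F) :
    Sec.mk S (f + g) = Sec.mk S f + Sec.mk S g := rfl

theorem hech_mk_sub {S : Set V} (f g : CF V F) :
    Sec.mk S (f - g) = Sec.mk S f - Sec.mk S g := rfl

theorem op_mk {ι : Type} [Fintype ι] {b : OrthonormalBasis ι ℝ V} {B : ι → V → F →L[ℂ] F}
    {C : V → F →L[ℂ] F} (hB : ∀ a, ContDiff ℝ ∞ (B a)) (hC : ContDiff ℝ ∞ C)
    {L : Module.End ℂ (Sec R.S F)}
    (hL : L + ∑ a, Sec.pd R F (b a) * Sec.pd R F (b a) =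
      ∑ a, Sec.mul R.S (B a) * Sec.pd R F (b a) + Sec.mul R.S C) (Φ : CF V F) :
    ∃ Φ' : CF V F, L (Sec.mk R.S Φ) = Sec.mk R.S Φ' ∧ Φ'.1 = opV R b B C Φ := by
  refine ⟨∑ a, CF.mul (B a) (hB a) (CF.pd R (b a) Φ) + CF.mul C hC Φ -
    ∑ a, CF.pd R (b a) (CF.pd R (b a) Φ), ?_, ?_⟩
  · rw [eq_sub_of_add_eq hL, hech_mk_sub, hech_mk_add]
    rw [LinearMap.sub_apply, LinearMap.add_apply, LinearMap.sum_apply, LinearMap.sum_apply]
    have e1 := hech_mk_sum (S := R.S) Finset.univ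
      fun a => CF.mul (B a) (hB a) (CF.pd R (b a) Φ)
    have e2 := hech_mk_sum (S := R.S) Finset.univ fun a => CF.pd R (b a) (CF.pd R (b a) Φ)
    have e3 : Sec.mul R.S C (Sec.mk R.S Φ) = Sec.mk R.S (CF.mul C hC Φ) := Sec.mul_mk hC Φ
    have e4 : ∑ a, (Sec.mul R.S (B a) * Sec.pd R F (b a)) (Sec.mk R.S Φ) =
        ∑ a, Sec.mk R.S (CF.mul (B a) (hB a) (CF.pd R (b a) Φ)) :=
      Finset.sum_congr rfl fun a _ => Sec.mul_mk (hB a) (CF.pd R (b a) Φ)
    have e5 : ∑ a, (Sec.pd R F (b a) * Sec.pd R F (b a)) (Sec.mk R.S Φ) =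
        ∑ a, Sec.mk R.S (CF.pd R (b a) (CF.pd R (b a) Φ)) := rfl
    rw [e3, e4, e5, ← e1, ← e2]
  · funext x
    rw [CF.val_sub, CF.val_add, Pi.sub_apply, Pi.add_apply, hech_val_sum, hech_val_sum]
    show ∑ a, B a x ((CF.pd R (b a) Φ).1 x) + C x (Φ.1 x) -
      ∑ a, (CF.pd R (b a) (CF.pd R (b a) Φ)).1 x = _
    unfold opV
    abel

end Pool.Agent.HT
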