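import Pool.Agent.P.MP_65ad7c_ag.HEDefs

/-! Operators with bounded evaluations are compact on `L^2`. -/

open Set Filter Topology MeasureTheory
open scoped ContDiff InnerProductSpace FourierTransform

noncomputable section
namespace Pool.Agent.HT
open Pool.Agent.Wein (Ret Tan)

variable {H : Type} [NormedAddCommGroup H] [InnerProductSpace ℂ H] [CompleteSpace H]

omit [CompleteSpace H] in
theorem hecpt_small {H' : Type} [NormedAddCommGroup H'] [NormedSpace ℂ H'] (T : H →L[ℂ] H') {K : ℝ}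
    (h : ∀ (n : ℕ) (u : Fin n → H), Orthonormal ℂ u → ∑ i, ‖T (u i)‖ ^ 2 ≤ K) {ε : ℝ}
    (hε : 0 < ε) : ∃ (n : ℕ) (u : Fin n → H),
      ∀ x : H, (∀ i, ⟪x, u i⟫_ℂ = 0) → ‖T x‖ ≤ ε * ‖x‖ := by
  by_contra h1
  push Not at h1
  have h2 : ∀ n : ℕ, ∃ u : Fin n → H, Orthonormal ℂ u ∧ ∀ i, ε ≤ ‖T (u i)‖ := by
    intro n
    induction n with
    | zero => exact ⟨Fin.elim0, ⟨fun i => i.elim0, fun i => i.elim0⟩, fun i => i.elim0⟩
    | succ n ih =>
      obtain ⟨u, hu, hu'⟩ := ih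
      obtain ⟨x, hx, hx'⟩ := h1 n u
      have h3 : x ≠ 0 := by
        rintro rfl
        simp at hx'
      have h4 : 0 < ‖x‖ := norm_pos_iff.2 h3
      refine ⟨Matrix.vecCons (((‖x‖⁻¹ : ℝ) : ℂ) • x) u, orthonormal_vecCons_iff.2 ⟨?_, fun i => ?_, hu⟩,
        Fin.forall_fin_succ.2 ⟨?_, hu'⟩⟩
      · rw [norm_smul, Complex.norm_real, norm_inv, norm_norm, inv_mul_cancel₀ h4.ne']
      · rw [inner_smul_left, hx i, mul_zero]
      · rw [Matrix.cons_val_zero, map_smul, norm_smul, Complex.norm_real, norm_inv, norm_norm,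
          le_inv_mul_iff₀ h4, mul_comm]
        exact hx'.le
  obtain ⟨n, hn⟩ := exists_nat_gt (K / ε ^ 2)
  obtain ⟨u, hu, hu'⟩ := h2 n
  have h3 : ∑ _i : Fin n, ε ^ 2 ≤ ∑ i, ‖T (u i)‖ ^ 2 :=
    Finset.sum_le_sum fun i _ => pow_le_pow_left₀ hε.le (hu' i) 2
  rw [Finset.sum_const, Finset.card_univ, Fintype.card_fin, nsmul_eq_mul] at h3
  rw [div_lt_iff₀ (by positivity)] at hn
  linarith [h n u hu]

omit [CompleteSpace H] in
theorem compact_of_bessel {H' : Type} [NormedAddCommGroup H'] [NormedSpace ℂ H'] [CompleteSpace H']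
    (T : H →L[ℂ] H') {K : ℝ}
    (h : ∀ (n : ℕ) (u : Fin n → H), Orthonormal ℂ u → ∑ i, ‖T (u i)‖ ^ 2 ≤ K) :
    IsCompactOperator T := by
  refine isClosed_setOfPred_isCompactOperator.closure_subset
    (Metric.mem_closure_iff.2 fun ε hε => ?_)
  obtain ⟨n, u, hu⟩ := hecpt_small T h (half_pos hε)
  let E : Submodule ℂ H := Submodule.span ℂ (range u)
  have : FiniteDimensional ℂ E := FiniteDimensional.span_of_finite ℂ (finite_range u)
  have : ProperSpace E := FiniteDimensional.proper_rclike ℂ E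
  refine ⟨T.comp E.starProjection, ?_, ?_⟩
  · exact (isCompactOperator_of_locallyCompactSpace_dom E.orthogonalProjectionOnto).clm_comp
      (T.comp E.subtypeL)
  · rw [dist_eq_norm]
    refine lt_of_le_of_lt (ContinuousLinearMap.opNorm_le_bound _ (half_pos hε).le fun x => ?_)
      (half_lt_self hε)
    have h1 : (T - T.comp E.starProjection) x = T (x - E.starProjection x) := by simp
    rw [h1]
    refine (hu _ fun i => E.starProjection_inner_eq_zero x _
      (Submodule.subset_span (mem_range_self i))).trans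
      (mul_le_mul_of_nonneg_left ?_ (half_pos hε).le)
    rw [← Submodule.starProjection_orthogonal_val]
    exact Submodule.norm_starProjection_apply_le _ x

theorem hecpt_hs {F : Type} [NormedAddCommGroup F] [InnerProductSpace ℂ F] [FiniteDimensional ℂ F]
    (A : H →L[ℂ] F) {n : ℕ} {u : Fin n → H} (hu : Orthonormal ℂ u) :
    ∑ i, ‖A (u i)‖ ^ 2 ≤ Module.finrank ℂ F * ‖A‖ ^ 2 := by
  have : CompleteSpace F := FiniteDimensional.complete ℂ F
  let b := stdOrthonormalBasis ℂ F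
  calc ∑ i, ‖A (u i)‖ ^ 2 = ∑ i, ∑ e, ‖⟪u i, ContinuousLinearMap.adjoint A (b e)⟫_ℂ‖ ^ 2 :=
        Finset.sum_congr rfl fun i _ => by
          simp only [ContinuousLinearMap.adjoint_inner_right]
          exact (b.sum_sq_norm_inner_left _).symm
    _ = ∑ e, ∑ i, ‖⟪u i, ContinuousLinearMap.adjoint A (b e)⟫_ℂ‖ ^ 2 := Finset.sum_comm
    _ ≤ ∑ _e : Fin (Module.finrank ℂ F), ‖A‖ ^ 2 := Finset.sum_le_sum fun e _ => by
        refine (hu.sum_inner_products_le _).trans (pow_le_pow_left₀ (norm_nonneg _) ?_ 2)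
        have h1 := (ContinuousLinearMap.adjoint A).le_opNorm (b e)
        rwa [b.orthonormal.1 e, mul_one, LinearIsometryEquiv.norm_map] at h1
    _ = _ := by simp

theorem compact_of_eval {X : Type} [MeasurableSpace X] (μ : Measure X) [IsFiniteMeasure μ]
    {F C : Type} [NormedAddCommGroup F] [InnerProductSpace ℂ F] [FiniteDimensional ℂ F]
    [NormedAddCommGroup C] [NormedSpace ℂ C] (i : C →L[ℂ] Lp F 2 μ) (ev : X → C →L[ℂ] F)
    (hev : ∀ x, ‖ev x‖ ≤ 1) (hi : ∀ c, i c =ᵐ[μ] fun x => ev x c) (T : H →L[ℂ] C) :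
    IsCompactOperator (i.comp T) := by
  refine compact_of_bessel (i.comp T) (K := Module.finrank ℂ F * ‖T‖ ^ 2 * μ.real univ)
    fun n u hu => ?_
  have h1 : ∀ f : Lp F 2 μ, Integrable (fun x => ‖f x‖ ^ 2) μ := fun f =>
    (Lp.memLp f).integrable_norm_pow two_ne_zero
  have h2 : ∀ f : Lp F 2 μ, ‖f‖ ^ 2 = ∫ x, ‖f x‖ ^ 2 ∂μ := fun f => by
    rw [← inner_self_eq_norm_sq (𝕜 := ℂ), L2.inner_def, ← integral_re (L2.integrable_inner f f)]
    simp only [inner_self_eq_norm_sq]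
  simp only [h2]
  rw [← integral_finsetSum _ fun j _ => h1 _]
  refine (integral_mono_ae (integrable_finsetSum _ fun j _ => h1 _)
    (integrable_const (Module.finrank ℂ F * ‖T‖ ^ 2 : ℝ)) ?_).trans (le_of_eq ?_)
  · filter_upwards [ae_all_iff.2 fun j => hi (T (u j))] with x hx
    simp only [ContinuousLinearMap.comp_apply, hx]
    refine (hecpt_hs ((ev x).comp T) hu).trans (mul_le_mul_of_nonneg_left
      (pow_le_pow_left₀ (norm_nonneg _) ?_ 2) (Nat.cast_nonneg _))
    exact (ContinuousLinearMap.opNorm_comp_le _ _).trans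
      (mul_le_of_le_one_left (norm_nonneg _) (hev x))
  · rw [integral_const, smul_eq_mul, mul_comm]

end Pool.Agent.HT
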