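import Pool.Agent.P.MP_65ad7c_ag.HOps

/-! Definitions for the elliptic theorem. -/

open Set Filter Topology MeasureTheory
open scoped ContDiff InnerProductSpace FourierTransform

noncomputable section
namespace Pool.Agent.HT
open Pool.Agent.Wein (Ret Tan)

variable {m : ℕ} {V : Type} [NormedAddCommGroup V] [InnerProductSpace ℝ V]
  {F : Type} [NormedAddCommGroup F] [InnerProductSpace ℂ F] {S : Set V}

/-- the plane wave -/
def pw (ξ y : EE m) : ℂ := Complex.exp (((2 * Real.pi * ⟪y, ξ⟫_ℝ : ℝ) : ℂ) * Complex.I)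

/-- the tangential part of a constant vector field, seen in a chart -/
def RC.X (R : Ret V) (A : RC R.S m) (v : V) (y : EE m) : EE m :=
  fderiv ℝ A.φ (A.ψ y) (R.P (A.ψ y) v)

/-- `φ` is the chart expression of `Φ`, which vanishes on `S` outside the image of `K` -/
def Rep (A : RC S m) (K : Set (EE m)) (Φ : V → F) (φ : EE m → F) : Prop :=
  (∀ y ∈ A.O, Φ (A.ψ y) = φ y) ∧ ∀ x ∈ S, x ∉ A.ψ '' K → Φ x = 0

/-- the operator `- ∑ ∂_a ∂_a + ∑ B_a ∂_a + C` on smooth functions -/
def opV (R : Ret V) {A : Type} [Fintype A] (b : OrthonormalBasis A ℝ V)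
    (B : A → V → F →L[ℂ] F) (C : V → F →L[ℂ] F) (Φ : CF V F) : V → F := fun x =>
  -∑ a, (CF.pd R (b a) (CF.pd R (b a) Φ)).1 x + ∑ a, B a x ((CF.pd R (b a) Φ).1 x) + C x (Φ.1 x)

/-- regularity of order `s` in a chart -/
def Reg (A : RC S m) (O : Set (EE m)) (s : ℕ) (u : V → F) : Prop :=
  FL s O fun y => rho A.ψ y • u (A.ψ y)

open Classical in
/-- evaluation of a continuous function on `S` (zero outside `S`) -/
def evS (S : Set V) (F : Type) [NormedAddCommGroup F] [InnerProductSpace ℂ F] [CompactSpace S]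
    (x : V) : C(S, F) →L[ℂ] F :=
  if h : x ∈ S then ContinuousMap.evalCLM ℂ (⟨x, h⟩ : S) else 0

end Pool.Agent.HT
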