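import Pool.Agent.P.MP_65ad7c_ag.HEDefs

/-! Test functions. -/

open Set Filter Topology MeasureTheory
open scoped ContDiff InnerProductSpace FourierTransform

noncomputable section
namespace Pool.Agent.HT
open Pool.Agent.Wein (Ret Tan)

variable {m : ℕ} {G G' G'' : Type} [NormedAddCommGroup G] [NormedSpace ℝ G]
  [NormedAddCommGroup G'] [NormedSpace ℝ G'] [NormedAddCommGroup G''] [NormedSpace ℝ G'']
  {O O' : Set (EE m)} {χ χ' : EE m → G}

theorem Test.mono (h : Test O χ) (hO : O ⊆ O') : Test O' χ := ⟨h.1, h.2.1, h.2.2.trans hO⟩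

theorem Test.univ (h : Test O χ) : Test univ χ := h.mono (subset_univ _)

theorem Test.eq_zero (h : Test O χ) {y : EE m} (hy : y ∉ O) : χ y = 0 :=
  image_eq_zero_of_notMem_tsupport fun h' => hy (h.2.2 h')

theorem Test.continuous (h : Test O χ) : Continuous χ := h.1.continuous

theorem Test.integrable (h : Test O χ) : Integrable χ :=
  h.continuous.integrable_of_hasCompactSupport h.2.1

theorem Test.bound (h : Test O χ) : ∃ K : ℝ, ∀ y, ‖χ y‖ ≤ K :=
  h.continuous.bounded_above_of_compact_support h.2.1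

/-- a smooth function that vanishes outside the support of a test function -/
theorem Test.of_supp (h : Test O χ) {f : EE m → G'} (hf : ContDiff ℝ ∞ f)
    (h0 : ∀ y, y ∉ tsupport χ → f y = 0) : Test O f := by
  have hs : tsupport f ⊆ tsupport χ :=
    closure_minimal (fun y hy => by_contra fun h' => hy (h0 y h')) (isClosed_tsupport _)
  exact ⟨hf, IsCompact.of_isClosed_subset h.2.1 (isClosed_tsupport _) hs, hs.trans h.2.2⟩

theorem test_zero : Test O fun _ => (0 : G) := by
  refine ⟨contDiff_const, HasCompactSupport.zero, ?_⟩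
  exact (tsupport_eq_empty_iff.2 rfl).subset.trans (empty_subset _)

theorem Test.add (h : Test O χ) (h' : Test O χ') : Test O fun y => χ y + χ' y := by
  exact ⟨h.1.add h'.1, h.2.1.add h'.2.1,
    (tsupport_add χ χ').trans (union_subset h.2.2 h'.2.2)⟩

theorem Test.neg (h : Test O χ) : Test O fun y => -χ y := by
  exact h.of_supp h.1.neg fun y hy => by rw [image_eq_zero_of_notMem_tsupport hy, neg_zero]

theorem Test.sum {ι : Type} (s : Finset ι) {f : ι → EE m → G} (h : ∀ i ∈ s, Test O (f i)) :
    Test O fun y => ∑ i ∈ s, f i y := by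
  classical
  induction s using Finset.induction_on with
  | empty => simpa using test_zero
  | insert a s ha ih =>
    simp only [Finset.sum_insert ha]
    exact (h a (Finset.mem_insert_self a s)).add
      (ih fun i hi => h i (Finset.mem_insert_of_mem hi))

theorem Test.clm (T : G →L[ℝ] G') (h : Test O χ) : Test O fun y => T (χ y) := by
  exact h.of_supp (T.contDiff.comp h.1) fun y hy => by
    rw [image_eq_zero_of_notMem_tsupport hy, map_zero]

theorem Test.bil (B : G →L[ℝ] G' →L[ℝ] G'') (hO : IsOpen O) (h : Test O χ) {f : EE m → G'}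
    (hf : ContDiffOn ℝ ∞ f O) : Test O fun y => B (χ y) (f y) := by
  refine h.of_supp ?_ fun y hy => by simp [image_eq_zero_of_notMem_tsupport hy]
  rw [contDiff_iff_contDiffAt]
  intro x
  by_cases hx : x ∈ O
  · exact (B.contDiff.contDiffAt.comp x h.1.contDiffAt).clm_apply
      (hf.contDiffAt (hO.mem_nhds hx))
  · have h1 : χ =ᶠ[𝓝 x] 0 := notMem_tsupport_iff_eventuallyEq.1 fun h' => hx (h.2.2 h')
    refine (contDiffAt_const (c := (0 : G''))).congr_of_eventuallyEq ?_
    filter_upwards [h1] with y hy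
    simp [hy]

theorem Test.smul (hO : IsOpen O) {χ : EE m → ℝ} (h : Test O χ) {f : EE m → G'}
    (hf : ContDiffOn ℝ ∞ f O) : Test O fun y => χ y • f y :=
  h.bil (ContinuousLinearMap.lsmul ℝ ℝ) hO hf

/-- derivative along a smooth vector field -/
theorem Test.deriv (h : Test O χ) {X : EE m → EE m} (hX : ContDiff ℝ ∞ X) :
    Test O fun y => fderiv ℝ χ y (X y) := by
  refine h.of_supp ((h.1.fderiv_right (m := ∞) le_rfl).clm_apply hX) fun y hy => ?_
  have h1 : fderiv ℝ χ y = 0 := by_contra fun h' => hy (support_fderiv_subset ℝ h')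
  simp [h1]

theorem exists_test {K : Set (EE m)} (hK : IsCompact K) (hO : IsOpen O) (hKO : K ⊆ O) :
    ∃ χ : EE m → ℝ, Test O χ ∧ ∀ y ∈ K, χ y = 1 := by
  obtain ⟨χ, h1, h2, h3, -, h5⟩ := Pool.Agent.Wein.exists_bump K O hK hO hKO
  exact ⟨χ, ⟨h1, h2, h3⟩, h5.self_of_nhdsSet⟩

/-- adjoints -/
theorem Test.adjoint {F : Type} [NormedAddCommGroup F] [InnerProductSpace ℂ F]
    [FiniteDimensional ℂ F] {M : EE m → F →L[ℂ] F} (h : Test O M) :
    Test O fun y => ContinuousLinearMap.adjoint (M y) := by
  let T : (F →L[ℂ] F) →ₗ[ℝ] (F →L[ℂ] F) :=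
    { toFun := fun A => ContinuousLinearMap.adjoint A
      map_add' := fun A B => map_add _ A B
      map_smul' := fun c A => by
        have h1 := (ContinuousLinearMap.adjoint (𝕜 := ℂ) (E := F) (F := F)).map_smulₛₗ (c : ℂ) A
        rw [Complex.conj_ofReal, Complex.coe_smul, Complex.coe_smul] at h1
        exact h1 }
  exact h.clm (T.mkContinuous 1 fun A => by
    rw [one_mul]
    exact (ContinuousLinearMap.adjoint.norm_map A).le)

end Pool.Agent.HT
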