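import Pool.Agent.P.MP_65ad7c_ag.HEF0

/-! The classes `FH` and `FL`. -/

open Set Filter Topology MeasureTheory
open scoped ContDiff InnerProductSpace FourierTransform

noncomputable section
namespace Pool.Agent.HT
open Pool.Agent.Wein (Ret Tan)

variable {m : ℕ} {O : Set (EE m)}

section general
variable {G : Type} [NormedAddCommGroup G] [NormedSpace ℂ G] {v w : EE m → G}

theorem fourier_cont (hv : Integrable v) : Continuous (𝓕 v) := by
  exact VectorFourier.fourierIntegral_continuous Real.continuous_fourierChar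
    (innerSL ℝ (E := EE m)).continuous₂ hv

theorem norm_fourier_le (v : EE m → G) (ξ : EE m) : ‖𝓕 v ξ‖ ≤ ∫ y, ‖v y‖ := by
  exact VectorFourier.norm_fourierIntegral_le_integral_norm _ _ _ _ _

theorem fourier_add' (hv : Integrable v) (hw : Integrable w) (ξ : EE m) :
    𝓕 (fun y => v y + w y) ξ = 𝓕 v ξ + 𝓕 w ξ := by
  simp only [Real.fourier_eq, smul_add]
  exact integral_add ((Real.fourierIntegral_convergent_iff ξ).2 hv)
    ((Real.fourierIntegral_convergent_iff ξ).2 hw)

theorem fourier_smul' (c : ℂ) (v : EE m → G) (ξ : EE m) :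
    𝓕 (fun y => c • v y) ξ = c • 𝓕 v ξ := by
  simp only [Real.fourier_eq, smul_comm _ c, integral_smul]

theorem fourier_sum' {ι : Type} (s : Finset ι) {f : ι → EE m → G}
    (h : ∀ i ∈ s, Integrable (f i)) (ξ : EE m) :
    𝓕 (fun y => ∑ i ∈ s, f i y) ξ = ∑ i ∈ s, 𝓕 (f i) ξ := by
  simp only [Real.fourier_eq, Finset.smul_sum]
  exact integral_finsetSum s fun i hi => (Real.fourierIntegral_convergent_iff ξ).2 (h i hi)

theorem fourier_pw (v : EE m → G) (ξ : EE m) :
    𝓕 v ξ = ∫ y, (starRingEnd ℂ) (pw ξ y) • v y := by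
  rw [Real.fourier_eq']
  refine integral_congr_ae (Eventually.of_forall fun y => ?_)
  beta_reduce
  rw [pw, ← Complex.exp_conj, map_mul, Complex.conj_ofReal, Complex.conj_I]
  congr 2
  push_cast
  ring

theorem norm_pw (ξ y : EE m) : ‖pw ξ y‖ = 1 := by
  exact Complex.norm_exp_ofReal_mul_I _

theorem pw_smooth (ξ : EE m) : ContDiff ℝ ∞ (pw ξ) := by
  have h1 : ContDiff ℝ ∞ fun y : EE m => (2 * Real.pi * ⟪y, ξ⟫_ℝ : ℝ) :=
    contDiff_const.mul (contDiff_id.inner ℝ contDiff_const)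
  exact ((Complex.ofRealCLM.contDiff.comp h1).mul contDiff_const).cexp

theorem Test.fourier_bound (h : Test O v) (n : ℕ) : ∃ K : ℝ, ∀ ξ, (1 + ‖ξ‖) ^ n * ‖𝓕 v ξ‖ ≤ K := by
  refine ⟨_, fun ξ => le_trans (le_of_eq ?_) (SchwartzMap.one_add_le_sup_seminorm_apply (𝕜 := ℝ)
    (m := (n, 0)) (k := n) (n := 0) le_rfl le_rfl (𝓕 (h.2.1.toSchwartzMap h.1)) ξ)⟩
  rw [norm_iteratedFDeriv_zero, SchwartzMap.fourier_coe]
  rfl

/-- decay of order `n + m + 1` gives integrability with weight of order `n` -/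
theorem integrable_of_decay {f : EE m → G} (hf : Continuous f) {n : ℕ} {K : ℝ}
    (h : ∀ ξ, (1 + ‖ξ‖) ^ (n + (m + 1)) * ‖f ξ‖ ≤ K) :
    Integrable fun ξ => (1 + ‖ξ‖) ^ n * ‖f ξ‖ := by
  have h1 : Integrable fun ξ : EE m => (1 + ‖ξ‖) ^ (-((m + 1 : ℕ) : ℝ)) :=
    integrable_one_add_norm (by rw [finrank_euclideanSpace_fin]; push_cast; linarith)
  refine (h1.const_mul K).mono' (by fun_prop : Continuous _).aestronglyMeasurable
    (Eventually.of_forall fun ξ => ?_)
  have h2 : 0 < 1 + ‖ξ‖ := by positivity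
  rw [Real.norm_of_nonneg (by positivity), Real.rpow_neg h2.le, Real.rpow_natCast,
    ← div_eq_mul_inv, le_div_iff₀ (by positivity)]
  refine le_trans (le_of_eq ?_) (h ξ)
  ring

theorem Test.fourier_int (h : Test O v) (n : ℕ) :
    Integrable fun η => (1 + ‖η‖) ^ n * ‖𝓕 v η‖ := by
  obtain ⟨K, hK⟩ := h.fourier_bound (n + (m + 1))
  exact integrable_of_decay (fourier_cont h.integrable) hK

theorem Test.fourier_integrable (h : Test O v) : Integrable (𝓕 v) := by
  have := h.fourier_int 0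
  simp only [pow_zero, one_mul] at this
  exact (integrable_norm_iff (fourier_cont h.integrable).aestronglyMeasurable).1 this

end general

variable {F : Type} [NormedAddCommGroup F] [InnerProductSpace ℂ F] {s t : ℕ} {u v w : EE m → F}

theorem FH.congr (hv : FH s v) (h : v =ᵐ[volume] w) : FH s w := by
  obtain ⟨h1, C, hC⟩ := hv
  exact ⟨h1.congr h, C, fun ξ => by rw [← Real.fourier_congr_ae h ξ]; exact hC ξ⟩

theorem FH.add (hv : FH s v) (hw : FH s w) : FH s fun y => v y + w y := by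
  obtain ⟨h1, C, hC⟩ := hv
  obtain ⟨h2, C', hC'⟩ := hw
  refine ⟨h1.add h2, C + C', fun ξ => ?_⟩
  rw [fourier_add' h1 h2]
  refine le_trans ?_ (add_le_add (hC ξ) (hC' ξ))
  rw [← mul_add]
  exact mul_le_mul_of_nonneg_left (norm_add_le _ _) (by positivity)

theorem FH.smul (c : ℂ) (hv : FH s v) : FH s fun y => c • v y := by
  obtain ⟨h1, C, hC⟩ := hv
  refine ⟨h1.smul c, ‖c‖ * C, fun ξ => ?_⟩
  rw [fourier_smul', norm_smul, mul_left_comm]
  exact mul_le_mul_of_nonneg_left (hC ξ) (norm_nonneg _)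

theorem FH.mono (h : s ≤ t) (hv : FH t v) : FH s v := by
  obtain ⟨h1, C, hC⟩ := hv
  refine ⟨h1, C, fun ξ => le_trans ?_ (hC ξ)⟩
  exact mul_le_mul_of_nonneg_right
    (pow_le_pow_right₀ (le_add_of_nonneg_right (norm_nonneg _)) h) (norm_nonneg _)

theorem fh_of_integrable (hv : Integrable v) : FH 0 v := by
  exact ⟨hv, _, fun ξ => by rw [pow_zero, one_mul]; exact norm_fourier_le v ξ⟩

theorem Test.fh (h : Test O v) (s : ℕ) : FH s v := ⟨h.integrable, h.fourier_bound s⟩

theorem FL.congr (hu : FL s O u) (h : ∀ᵐ y, y ∈ O → u y = v y) : FL s O v := by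
  intro χ hχ
  refine (hu χ hχ).congr ?_
  filter_upwards [h] with y hy
  by_cases hO : y ∈ O
  · rw [hy hO]
  · rw [hχ.eq_zero hO, zero_smul, zero_smul]

theorem FL.add (hu : FL s O u) (hv : FL s O v) : FL s O fun y => u y + v y := by
  intro χ hχ
  simp only [smul_add]
  exact (hu χ hχ).add (hv χ hχ)

theorem FL.smul (c : ℂ) (hu : FL s O u) : FL s O fun y => c • u y := by
  intro χ hχ
  simp only [smul_comm (χ _) c]
  exact (hu χ hχ).smul c

theorem FL.mono (h : s ≤ t) (hu : FL t O u) : FL s O u := fun χ hχ => (hu χ hχ).mono h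

theorem fl_of_integrableOn (hO : MeasurableSet O) (hu : IntegrableOn u O) : FL 0 O u := by
  intro χ hχ
  obtain ⟨K, hK⟩ := hχ.bound
  refine fh_of_integrable ?_
  have h1 : IntegrableOn (fun y => χ y • u y) O :=
    Integrable.bdd_smul (φ := χ) hu K hχ.continuous.aestronglyMeasurable (Eventually.of_forall hK)
  refine (integrableOn_iff_integrable_of_support_subset fun y hy => ?_).1 h1
  by_contra h'
  exact hy (by simp only [hχ.eq_zero h', zero_smul])

theorem fl_of_contDiffOn (hO : IsOpen O) (hu : ContDiffOn ℝ ∞ u O) (s : ℕ) : FL s O u :=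
  fun _ hχ => (hχ.smul hO hu).fh s

end Pool.Agent.HT
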