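import Pool.Agent.P.MP_65ad7c_ag.HEF1

/-! Multiplication by test functions. -/

open Set Filter Topology MeasureTheory
open scoped ContDiff InnerProductSpace FourierTransform

noncomputable section
namespace Pool.Agent.HT
open Pool.Agent.Wein (Ret Tan)

variable {m : ℕ} {O : Set (EE m)}
  {F : Type} [NormedAddCommGroup F] [InnerProductSpace ℂ F] [FiniteDimensional ℂ F]

theorem hef2_pw_sub (ξ η y : EE m) :
    (starRingEnd ℂ) (pw ξ y) * pw η y = (starRingEnd ℂ) (pw (ξ - η) y) := by
  unfold pw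
  rw [← Complex.exp_conj, ← Complex.exp_conj, ← Complex.exp_add, inner_sub_right]
  simp only [map_mul, Complex.conj_ofReal, Complex.conj_I]
  congr 1
  push_cast
  ring

theorem hef2_pw_cont (ξ : EE m) :
    Continuous fun z : EE m × EE m => (starRingEnd ℂ) (pw (ξ - z.2) z.1) := by
  unfold pw
  refine Complex.continuous_conj.comp (Complex.continuous_exp.comp ?_)
  refine Continuous.mul (Complex.continuous_ofReal.comp ?_) continuous_const
  exact continuous_const.mul (continuous_fst.inner (continuous_const.sub continuous_snd))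

theorem hef2_inv {G : Type} [NormedAddCommGroup G] [NormedSpace ℂ G] [CompleteSpace G]
    {M : EE m → G} (hM : Test O M) (y : EE m) : M y = ∫ η, pw η y • 𝓕 M η := by
  have h := congrFun (hM.continuous.fourierInv_fourier_eq hM.integrable hM.fourier_integrable) y
  rw [← h, Real.fourierInv_eq']
  refine integral_congr_ae (Eventually.of_forall fun η => ?_)
  simp only [pw]
  rw [real_inner_comm]

theorem hef2_int_pw {G : Type} [NormedAddCommGroup G] [NormedSpace ℂ G] {f : EE m → G}
    (hf : Integrable f) {e : EE m → ℂ} (he : Continuous e) (h1 : ∀ y, ‖e y‖ = 1) :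
    Integrable fun y => e y • f y := by
  refine hf.norm.mono' (he.aestronglyMeasurable.smul hf.1) (Eventually.of_forall fun y => ?_)
  rw [norm_smul, h1, one_mul]

theorem fourier_bil {G : Type} [NormedAddCommGroup G] [NormedSpace ℂ G] [CompleteSpace G]
    (B : G →L[ℂ] F →L[ℂ] F) {M : EE m → G} (hM : Test O M) {v : EE m → F} (hv : Integrable v)
    (ξ : EE m) : 𝓕 (fun y => B (M y) (v y)) ξ = ∫ η, B (𝓕 M η) (𝓕 v (ξ - η)) := by
  have : CompleteSpace F := FiniteDimensional.complete ℂ F
  have hF := hM.fourier_integrable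
  have hprod : Integrable (fun z : EE m × EE m => B (𝓕 M z.2) (v z.1)) (volume.prod volume) := by
    refine Integrable.op_fst_snd (op := fun (a : F) (b : G) => B b a) ?_ ⟨‖B‖, fun a b => ?_⟩ hv hF
    · exact (B.continuous.comp continuous_snd).clm_apply continuous_fst
    · rw [mul_right_comm]
      exact B.le_opNorm₂ b a
  have hint : Integrable (Function.uncurry fun y η : EE m =>
      (starRingEnd ℂ) (pw (ξ - η) y) • B (𝓕 M η) (v y)) (volume.prod volume) := by
    refine hprod.norm.mono' ((hef2_pw_cont ξ).aestronglyMeasurable.smul hprod.1)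
      (Eventually.of_forall fun z => ?_)
    simp only [Function.uncurry]
    rw [norm_smul, RCLike.norm_conj, norm_pw, one_mul]
  have h1 : ∀ y, (starRingEnd ℂ) (pw ξ y) • B (M y) (v y) =
      ∫ η, (starRingEnd ℂ) (pw (ξ - η) y) • B (𝓕 M η) (v y) := by
    intro y
    have hc : Continuous fun η : EE m => pw η y := by
      unfold pw
      refine Complex.continuous_exp.comp ?_
      refine Continuous.mul (Complex.continuous_ofReal.comp ?_) continuous_const
      exact continuous_const.mul (continuous_const.inner continuous_id)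
    have h2 := (B.flip (v y)).integral_comp_comm (hef2_int_pw hF hc fun η => norm_pw η y)
    rw [← hef2_inv hM y, ContinuousLinearMap.flip_apply] at h2
    rw [← h2, ← integral_smul]
    refine integral_congr_ae (Eventually.of_forall fun η => ?_)
    simp only [ContinuousLinearMap.flip_apply, map_smul, smul_smul,
      hef2_pw_sub]
  have h3 : ∀ η, ∫ y, (starRingEnd ℂ) (pw (ξ - η) y) • B (𝓕 M η) (v y) =
      B (𝓕 M η) (𝓕 v (ξ - η)) := by
    intro η
    have hc : Continuous fun y : EE m => (starRingEnd ℂ) (pw (ξ - η) y) :=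
      Complex.continuous_conj.comp (pw_smooth _).continuous
    have h2 := (B (𝓕 M η)).integral_comp_comm
      (hef2_int_pw hv hc fun y => by rw [RCLike.norm_conj, norm_pw])
    rw [fourier_pw v, ← h2]
    simp only [map_smul]
  rw [fourier_pw]
  simp only [h1]
  rw [integral_integral_swap hint]
  simp only [h3]

theorem norm_fourier_smul_le {a : EE m → ℂ} (ha : Test O a) {v : EE m → F} (hv : Integrable v)
    (ξ : EE m) : ‖𝓕 (fun y => a y • v y) ξ‖ ≤ ∫ η, ‖𝓕 a η‖ * ‖𝓕 v (ξ - η)‖ := by
  have h := fourier_bil (ContinuousLinearMap.lsmul ℂ ℂ) ha hv ξ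
  simp only [ContinuousLinearMap.lsmul_apply] at h
  rw [h]
  refine (norm_integral_le_integral_norm _).trans (le_of_eq ?_)
  simp only [norm_smul]

theorem FH.mul {M : EE m → F →L[ℂ] F} (hM : Test O M) {s : ℕ} {v : EE m → F} (hv : FH s v) :
    FH s fun y => M y (v y) := by
  have : CompleteSpace F := FiniteDimensional.complete ℂ F
  obtain ⟨hv, C, hC⟩ := hv
  obtain ⟨K, hK⟩ := hM.bound
  refine ⟨?_, (∫ η, (1 + ‖η‖) ^ s * ‖𝓕 M η‖) * C, fun ξ => ?_⟩
  · refine (hv.norm.const_mul K).mono' ?_ (Eventually.of_forall fun y => ?_)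
    · exact (isBoundedBilinearMap_apply.continuous.comp_aestronglyMeasurable
        (hM.continuous.aestronglyMeasurable.prodMk hv.1) :)
    · exact ((M y).le_opNorm _).trans (mul_le_mul_of_nonneg_right (hK y) (norm_nonneg _))
  · have h := fourier_bil (ContinuousLinearMap.id ℂ (F →L[ℂ] F)) hM hv ξ
    simp only [ContinuousLinearMap.id_apply] at h
    rw [h, ← integral_mul_const]
    have hw : 0 ≤ (1 + ‖ξ‖) ^ s := by positivity
    refine (mul_le_mul_of_nonneg_left (norm_integral_le_integral_norm _) hw).trans ?_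
    rw [← integral_const_mul]
    refine integral_mono_of_nonneg (Eventually.of_forall fun η => by positivity)
      ((hM.fourier_int s).mul_const C) (Eventually.of_forall fun η => ?_)
    have h1 : 1 + ‖ξ‖ ≤ (1 + ‖η‖) * (1 + ‖ξ - η‖) := by
      have h2 : ‖ξ‖ ≤ ‖η‖ + ‖ξ - η‖ := by
        simpa using norm_add_le η (ξ - η)
      nlinarith [norm_nonneg η, norm_nonneg (ξ - η), mul_nonneg (norm_nonneg η) (norm_nonneg (ξ - η))]
    have h3 : (1 + ‖ξ‖) ^ s ≤ (1 + ‖η‖) ^ s * (1 + ‖ξ - η‖) ^ s := by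
      rw [← mul_pow]
      exact pow_le_pow_left₀ (by positivity) h1 s
    calc (1 + ‖ξ‖) ^ s * ‖(𝓕 M η) (𝓕 v (ξ - η))‖
        ≤ ((1 + ‖η‖) ^ s * (1 + ‖ξ - η‖) ^ s) * (‖𝓕 M η‖ * ‖𝓕 v (ξ - η)‖) :=
          mul_le_mul h3 ((𝓕 M η).le_opNorm _) (norm_nonneg _) (by positivity)
      _ = (1 + ‖η‖) ^ s * ‖𝓕 M η‖ * ((1 + ‖ξ - η‖) ^ s * ‖𝓕 v (ξ - η)‖) := by ring
      _ ≤ (1 + ‖η‖) ^ s * ‖𝓕 M η‖ * C :=
          mul_le_mul_of_nonneg_left (hC _) (by positivity)

theorem FL.mul (hO : IsOpen O) {M : EE m → F →L[ℂ] F} (hM : Test O M) {s : ℕ} {u : EE m → F}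
    (hu : FL s O u) : FH s fun y => M y (u y) := by
  obtain ⟨χ, hχ, h1⟩ := exists_test hM.2.1.isCompact hO hM.2.2
  have h := FH.mul hM (hu χ hχ)
  have he : (fun y => M y (χ y • u y)) = fun y => M y (u y) := by
    funext y
    by_cases hy : y ∈ tsupport M
    · rw [h1 y hy, one_smul]
    · rw [image_eq_zero_of_notMem_tsupport hy]
      rfl
  rwa [he] at h

end Pool.Agent.HT
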