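import Pool.Agent.P.MP_65ad7c_ag.HEF2

/-! Small Fourier norm after localisation. -/

open Set Filter Topology MeasureTheory
open scoped ContDiff InnerProductSpace FourierTransform

noncomputable section
namespace Pool.Agent.HT
open Pool.Agent.Wein (Ret Tan)

variable {m : ℕ}

theorem hef3_cont {φ : EE m → ℂ} (hc : Continuous φ) (hi : Integrable φ) :
    Continuous fun t => ∫ ξ, ‖φ (ξ - t) - φ ξ‖ := by
  have h1 : Continuous fun t : EE m => ∫ ξ, (‖φ (ξ - t) - φ ξ‖ - ‖φ (ξ - t)‖) := by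
    refine continuous_of_dominated (bound := fun ξ => ‖φ ξ‖) (fun t => ?_)
      (fun t => Eventually.of_forall fun ξ => ?_) hi.norm
      (Eventually.of_forall fun ξ => by fun_prop)
    · exact Continuous.aestronglyMeasurable (by fun_prop)
    · refine (abs_norm_sub_norm_le _ _).trans_eq ?_
      rw [sub_sub_cancel_left, norm_neg]
  refine (h1.add (continuous_const (y := ∫ ξ, ‖φ ξ‖))).congr fun t => ?_
  have h2 := hi.comp_sub_right t
  have h3 : Integrable fun ξ => ‖φ (ξ - t) - φ ξ‖ := (h2.sub hi).norm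
  show (∫ ξ, (‖φ (ξ - t) - φ ξ‖ - ‖φ (ξ - t)‖)) + _ = _
  rw [integral_sub h3 h2.norm, integral_sub_right_eq_self (fun ξ => ‖φ ξ‖) t, sub_add_cancel]

theorem hef3_bound {φ : EE m → ℂ} (hi : Integrable φ) (t : EE m) :
    ∫ ξ, ‖φ (ξ - t) - φ ξ‖ ≤ 2 * ∫ ξ, ‖φ ξ‖ := by
  have h2 := hi.comp_sub_right t
  have h3 : Integrable fun ξ => ‖φ (ξ - t)‖ + ‖φ ξ‖ := h2.norm.add hi.norm
  refine (integral_mono_of_nonneg (Eventually.of_forall fun _ => norm_nonneg _) h3
    (Eventually.of_forall fun ξ => norm_sub_le _ _)).trans_eq ?_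
  rw [integral_add h2.norm hi.norm, integral_sub_right_eq_self (fun ξ => ‖φ ξ‖) t, two_mul]

theorem hef3_conv {k ψ : EE m → ℂ} (hk : Integrable k) (hψ : Integrable ψ)
    (h0 : ∫ η, k η = 0) :
    ∫ ξ, ‖∫ η, k η * ψ (ξ - η)‖ ≤ ∫ η, ‖k η‖ * ∫ ξ, ‖ψ (ξ - η) - ψ ξ‖ := by
  have h1 : Integrable (fun p : EE m × EE m => k p.2 * ψ (p.1 - p.2)) (volume.prod volume) :=
    hk.convolution_integrand (ContinuousLinearMap.mul ℂ ℂ) hψ
  have h2 : Integrable (fun p : EE m × EE m => ψ p.1 * k p.2) (volume.prod volume) :=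
    hψ.mul_prod hk
  have h3 : Integrable (fun p : EE m × EE m => ‖k p.2‖ * ‖ψ (p.1 - p.2) - ψ p.1‖)
      (volume.prod volume) := (h1.sub h2).norm.congr (Eventually.of_forall fun p => by
    show ‖k p.2 * ψ (p.1 - p.2) - ψ p.1 * k p.2‖ = _
    rw [mul_comm (ψ p.1), ← mul_sub, norm_mul])
  calc _ ≤ ∫ ξ, ∫ η, ‖k η‖ * ‖ψ (ξ - η) - ψ ξ‖ := by
        refine integral_mono_of_nonneg (Eventually.of_forall fun _ => norm_nonneg _)
          h3.integral_prod_left ?_
        filter_upwards [h1.prod_right_ae] with ξ h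
        have e : ∫ η, k η * ψ (ξ - η) = ∫ η, k η * (ψ (ξ - η) - ψ ξ) := by
          simp only [mul_sub]
          rw [integral_sub h (hk.mul_const _), integral_mul_const, h0, zero_mul, sub_zero]
        rw [e]
        refine (norm_integral_le_integral_norm _).trans_eq ?_
        simp only [norm_mul]
    _ = ∫ η, ∫ ξ, ‖k η‖ * ‖ψ (ξ - η) - ψ ξ‖ := integral_integral_swap h3
    _ = _ := by simp only [integral_const_mul]

theorem hef3_scale (χ : EE m → ℂ) {r : ℝ} (hr : 0 < r) (ξ : EE m) :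
    𝓕 (fun y => χ (r⁻¹ • y)) ξ = r ^ Module.finrank ℝ (EE m) • 𝓕 χ (r • ξ) := by
  rw [Real.fourier_eq, Real.fourier_eq, ← Measure.integral_comp_inv_smul_of_nonneg _ _ hr.le]
  refine integral_congr_ae (Eventually.of_forall fun y => ?_)
  simp only [inner_smul_left, inner_smul_right, conj_trivial]
  rw [mul_inv_cancel_left₀ hr.ne']

theorem hef3_scale' (χ : EE m → ℂ) {r : ℝ} (hr : 0 < r) (η : EE m) :
    ∫ ξ, ‖𝓕 (fun y => χ (r⁻¹ • y)) (ξ - η) - 𝓕 (fun y => χ (r⁻¹ • y)) ξ‖ =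
      ∫ ξ, ‖𝓕 χ (ξ - r • η) - 𝓕 χ ξ‖ := by
  have h := Measure.integral_comp_smul_of_nonneg volume
    (fun ξ : EE m => ‖𝓕 χ (ξ - r • η) - 𝓕 χ ξ‖) r (hR := hr.le)
  have h1 := pow_pos hr (Module.finrank ℝ (EE m))
  simp only [hef3_scale χ hr, ← smul_sub, norm_smul, Real.norm_of_nonneg h1.le,
    integral_const_mul] at h ⊢
  rw [h, smul_eq_mul, mul_inv_cancel_left₀ h1.ne']

theorem hef3_shift (a : EE m → ℂ) (y₀ ξ : EE m) : ‖𝓕 (fun y => a (y + y₀)) ξ‖ = ‖𝓕 a ξ‖ := by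
  have h := congrFun (VectorFourier.fourierIntegral_comp_add_right Real.fourierChar volume
    (innerₗ (EE m)) a y₀) ξ
  exact (congrArg norm h).trans (Circle.norm_smul _ _)

theorem hef3_zero {g : EE m → ℂ} (hg : ContDiff ℝ ∞ g) (h0 : g 0 = 0) {ε : ℝ}
    (hε : 0 < ε) : ∃ r > (0 : ℝ), ∃ a : EE m → ℂ, Test univ a ∧
      (∀ y ∈ Metric.ball (0 : EE m) r, a y = g y) ∧ ∫ η, ‖𝓕 a η‖ ≤ ε := by
  obtain ⟨c, hc, hc1⟩ := exists_test (isCompact_closedBall (0 : EE m) 1) isOpen_univ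
    (subset_univ _)
  have hk : Test univ fun y => c y • g y := hc.smul isOpen_univ hg.contDiffOn
  have hχ : Test univ fun y => (c y : ℂ) := hc.clm Complex.ofRealCLM
  have hk0 : ∫ η, 𝓕 (fun y => c y • g y) η = 0 := by
    have h := congrFun (hk.continuous.fourierInv_fourier_eq hk.integrable hk.fourier_integrable) 0
    rw [Real.fourierInv_eq] at h
    simpa [h0] using h
  have hT := hef3_cont (fourier_cont hχ.integrable) hχ.fourier_integrable
  have hG : Continuous fun r : ℝ => ∫ η, ‖𝓕 (fun y => c y • g y) η‖ *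
      ∫ ξ, ‖𝓕 (fun y => (c y : ℂ)) (ξ - r • η) - 𝓕 (fun y => (c y : ℂ)) ξ‖ := by
    refine continuous_of_dominated (bound := fun η => ‖𝓕 (fun y => c y • g y) η‖ *
      (2 * ∫ ξ, ‖𝓕 (fun y => (c y : ℂ)) ξ‖)) (fun r => ?_)
      (fun r => Eventually.of_forall fun η => ?_) (hk.fourier_integrable.norm.mul_const _)
      (Eventually.of_forall fun η => continuous_const.mul (hT.comp (by fun_prop)))
    · exact ((fourier_cont hk.integrable).norm.mul
        (hT.comp (continuous_const_smul r))).aestronglyMeasurable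
    · rw [Real.norm_of_nonneg (mul_nonneg (norm_nonneg _) (integral_nonneg fun _ => norm_nonneg _))]
      exact mul_le_mul_of_nonneg_left (hef3_bound hχ.fourier_integrable _) (norm_nonneg _)
  have h1 := ((hG.tendsto' 0 0 (by simp)).eventually_lt_const hε).filter_mono
    (nhdsWithin_le_nhds (s := Ioi 0))
  obtain ⟨r, h2, hr, hr1⟩ := (h1.and (Ioo_mem_nhdsGT one_pos)).exists
  have hχr : Test univ fun y => (c (r⁻¹ • y) : ℂ) :=
    ⟨hχ.1.comp (contDiff_const_smul _), hχ.2.1.comp_smul (inv_ne_zero hr.ne'), subset_univ _⟩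
  refine ⟨r, hr, fun y => ContinuousLinearMap.mul ℂ ℂ (c y • g y) (c (r⁻¹ • y) : ℂ),
    hk.bil (ContinuousLinearMap.mul ℝ ℂ) isOpen_univ hχr.1.contDiffOn, fun y hy => ?_, ?_⟩
  · rw [mem_ball_zero_iff] at hy
    have h3 : ‖r⁻¹ • y‖ ≤ 1 := by
      rw [norm_smul, Real.norm_of_nonneg (inv_pos.2 hr).le, inv_mul_le_iff₀ hr, mul_one]
      exact hy.le
    simp [hc1 y (mem_closedBall_zero_iff.2 (hy.le.trans hr1.le)),
      hc1 _ (mem_closedBall_zero_iff.2 h3)]
  · simp only [fourier_bil (ContinuousLinearMap.mul ℂ ℂ) hk hχr.integrable]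
    refine (hef3_conv hk.fourier_integrable hχr.fourier_integrable hk0).trans ?_
    simp only [hef3_scale' (fun y => (c y : ℂ)) hr]
    exact h2.le

theorem small_fourier {g : EE m → ℂ} (hg : ContDiff ℝ ∞ g) {y₀ : EE m} (h0 : g y₀ = 0) {ε : ℝ}
    (hε : 0 < ε) : ∀ᶠ r in 𝓝[>] (0 : ℝ), ∃ a : EE m → ℂ, Test univ a ∧
      (∀ y ∈ Metric.ball y₀ r, a y = g y) ∧ ∫ η, ‖𝓕 a η‖ ≤ ε := by
  obtain ⟨r, hr, a, ha, h1, h2⟩ := hef3_zero (g := fun y => g (y + y₀))
    (hg.comp (contDiff_id.add contDiff_const)) (by simpa using h0) hε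
  filter_upwards [Ioo_mem_nhdsGT hr] with t ht
  refine ⟨fun y => a (y + -y₀), ⟨ha.1.comp (contDiff_id.add contDiff_const),
    ha.2.1.comp_homeomorph (Homeomorph.addRight (-y₀)), subset_univ _⟩, fun y hy => ?_, ?_⟩
  · rw [mem_ball_iff_norm, sub_eq_add_neg] at hy
    exact (h1 _ (mem_ball_zero_iff.2 (hy.trans ht.2))).trans (by rw [neg_add_cancel_right])
  · simp only [hef3_shift]
    exact h2

end Pool.Agent.HT
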