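import Pool.Agent.P.MP_65ad7c_ag.HEF0

/-! The Riemannian measure in a chart. -/

open Set Filter Topology MeasureTheory
open scoped ContDiff InnerProductSpace FourierTransform

noncomputable section
namespace Pool.Agent.HT
open Pool.Agent.Wein (Ret Tan)

variable {m : ℕ} {V : Type} [NormedAddCommGroup V] [InnerProductSpace ℝ V] [FiniteDimensional ℝ V]
  [MeasurableSpace V] [BorelSpace V] {S : Set V} {μ : Measure V}

omit [FiniteDimensional ℝ V] [MeasurableSpace V] [BorelSpace V] in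
theorem heme_rho_cont (A : RC S m) : Continuous (rho A.ψ) := by
  have h1 : Continuous (fderiv ℝ A.ψ) := A.ψ_smooth.continuous_fderiv (by simp)
  refine Real.continuous_sqrt.comp (Continuous.matrix_det (continuous_matrix fun j k => ?_))
  exact (h1.clm_apply continuous_const).inner (h1.clm_apply continuous_const)

omit [FiniteDimensional ℝ V] [MeasurableSpace V] [BorelSpace V] in
theorem heme_meas (A : RC S m) : Measurable fun y => ENNReal.ofReal (rho A.ψ y) :=
  ENNReal.measurable_ofReal.comp (heme_rho_cont A).measurable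

omit [FiniteDimensional ℝ V] [MeasurableSpace V] [BorelSpace V] in
theorem heme_toReal (A : RC S m) (y : EE m) : (ENNReal.ofReal (rho A.ψ y)).toReal = rho A.ψ y :=
  ENNReal.toReal_ofReal (Real.sqrt_nonneg _)

theorem IsVol.ae_pull (hμ : IsVol S m μ) (A : RC S m) {p : V → Prop} (h : ∀ᵐ x ∂μ, p x) :
    ∀ᵐ y, y ∈ A.O → p (A.ψ y) := by
  have h1 : ∀ᵐ x ∂μ.restrict A.W, p x := ae_restrict_of_ae h
  rw [hμ.loc A] at h1
  have h2 := ae_of_ae_map A.ψ_smooth.continuous.measurable.aemeasurable h1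
  rw [ae_withDensity_iff (heme_meas A), ae_restrict_iff' A.O_open.measurableSet] at h2
  filter_upwards [h2] with y hy hO
  exact hy hO (ENNReal.ofReal_pos.2 (rho_pos A y hO)).ne'

theorem IsVol.ae_push (hμ : IsVol S m μ) (A : RC S m) {p : V → Prop}
    (hp : MeasurableSet {x | p x}) (h : ∀ᵐ y, y ∈ A.O → p (A.ψ y)) :
    ∀ᵐ x ∂μ, x ∈ A.W → p x := by
  rw [← ae_restrict_iff' A.W_open.measurableSet, hμ.loc A,
    ae_map_iff A.ψ_smooth.continuous.measurable.aemeasurable hp]
  exact (withDensity_absolutelyContinuous _ _).ae_le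
    ((ae_restrict_iff' A.O_open.measurableSet).2 h)

variable {G : Type} [NormedAddCommGroup G] [NormedSpace ℝ G]

theorem IsVol.integrableOn_chart (hμ : IsVol S m μ) (A : RC S m) {u : V → G}
    (hu : Integrable u μ) : IntegrableOn (fun y => rho A.ψ y • u (A.ψ y)) A.O := by
  have h1 : Integrable u (μ.restrict A.W) := hu.restrict
  rw [hμ.loc A] at h1
  have h2 := (integrable_map_measure h1.aestronglyMeasurable
    A.ψ_smooth.continuous.measurable.aemeasurable).1 h1
  rw [integrable_withDensity_iff_integrable_smul' (heme_meas A)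
    (Eventually.of_forall fun _ => ENNReal.ofReal_lt_top)] at h2
  simp only [heme_toReal, Function.comp_apply] at h2
  exact h2

theorem IsVol.integral_chart (hμ : IsVol S m μ) (A : RC S m) {g : V → G}
    (hg : AEStronglyMeasurable g μ) (h0 : ∀ x ∈ S, x ∉ A.W → g x = 0) :
    ∫ x, g x ∂μ = ∫ y in A.O, rho A.ψ y • g (A.ψ y) := by
  have h1 : AEStronglyMeasurable g (μ.restrict A.W) := hg.restrict
  rw [← setIntegral_eq_integral_of_ae_compl_eq_zero (s := A.W)
    (hμ.ae_mem.mono fun x hx hW => h0 x hx hW)]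
  rw [hμ.loc A] at h1 ⊢
  rw [integral_map A.ψ_smooth.continuous.measurable.aemeasurable h1,
    integral_withDensity_eq_integral_toReal_smul (heme_meas A)
      (Eventually.of_forall fun _ => ENNReal.ofReal_lt_top)]
  simp only [heme_toReal]

/-- pairing with a function that lives in one chart -/
theorem IsVol.inner_rep {F : Type} [NormedAddCommGroup F] [InnerProductSpace ℂ F]
    [FiniteDimensional ℂ F] (hμ : IsVol S m μ) (A : RC S m) {K O : Set (EE m)} (hO : IsOpen O)
    (hKO : K ⊆ O) (hOA : O ⊆ A.O) {u Φ : V → F} {φ : EE m → F} (hu : AEStronglyMeasurable u μ)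
    (hΦ : Continuous Φ) (h : Rep A K Φ φ) :
    ∫ x, ⟪u x, Φ x⟫_ℂ ∂μ = ∫ y in O, ⟪rho A.ψ y • u (A.ψ y), φ y⟫_ℂ := by
  have hKA : K ⊆ A.O := hKO.trans hOA
  rw [hμ.integral_chart A (g := fun x => ⟪u x, Φ x⟫_ℂ) (hu.inner hΦ.aestronglyMeasurable)
    fun x hx hW => ?_]
  · have e : ∀ y ∈ A.O, rho A.ψ y • ⟪u (A.ψ y), Φ (A.ψ y)⟫_ℂ =
        ⟪rho A.ψ y • u (A.ψ y), φ y⟫_ℂ := by
      intro y hy
      rw [h.1 y hy, ← Complex.coe_smul (rho A.ψ y) (u (A.ψ y)), inner_smul_left,
        Complex.conj_ofReal, Complex.real_smul]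
    rw [setIntegral_congr_fun A.O_open.measurableSet e]
    refine setIntegral_eq_of_subset_of_forall_sdiff_eq_zero A.O_open.measurableSet hOA ?_
    intro y hy
    have h1 : A.ψ y ∉ A.ψ '' K := by
      rintro ⟨z, hz, e⟩
      have : z = y := by rw [← A.φψ z (hKA hz), e, A.φψ y hy.1]
      exact hy.2 (hKO (this ▸ hz))
    rw [← h.1 y hy.1, h.2 _ (A.ψ_mem y hy.1).1 h1, inner_zero_right]
  · have h1 : x ∉ A.ψ '' K := by
      rintro ⟨z, hz, rfl⟩
      exact hW (A.ψ_mem z (hKA hz)).2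
    simp only [h.2 x hx h1, inner_zero_right]

/-- gluing of local representatives -/
theorem glue_ae (hS : IsCompact S) (hc : ∀ᵐ x ∂μ, x ∈ S) {n : WithTop ℕ∞} (hn : n ≤ ∞) {u : V → G}
    (h : ∀ x ∈ S, ∃ U, IsOpen U ∧ x ∈ U ∧ ∃ g : V → G, ContDiff ℝ n g ∧
      ∀ᵐ z ∂μ, z ∈ U → u z = g z) : ∃ g : V → G, ContDiff ℝ n g ∧ u =ᵐ[μ] g := by
  classical
  choose! U hU hxU g hg hae using h
  obtain ⟨t, htS, ht⟩ := hS.elim_nhds_subcover U fun x hx => (hU x hx).mem_nhds (hxU x hx)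
  obtain ⟨θ, hθ⟩ := SmoothPartitionOfUnity.exists_isSubordinate (modelWithCornersSelf ℝ V)
    hS.isClosed (fun i : t => U i.1) (fun i => hU i.1 (htS i.1 i.2)) fun x hx => by
      obtain ⟨i, hi, hxi⟩ := mem_iUnion₂.1 (ht hx)
      exact mem_iUnion.2 ⟨⟨i, hi⟩, hxi⟩
  refine ⟨fun z => ∑ i : t, θ i z • g i.1 z, ContDiff.sum fun i _ =>
    ((θ i).contMDiff.contDiff.of_le hn).smul (hg i.1 (htS i.1 i.2)), ?_⟩
  have h1 : ∀ᵐ z ∂μ, ∀ i : t, z ∈ U i.1 → u z = g i.1 z :=
    ae_all_iff.2 fun i => hae i.1 (htS i.1 i.2)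
  filter_upwards [hc, h1] with z hz h2
  have h3 : ∑ i : t, θ i z = 1 := by
    rw [← finsum_eq_sum_of_fintype]
    exact θ.sum_eq_one hz
  have h4 : ∀ i : t, θ i z • g i.1 z = θ i z • u z := by
    intro i
    by_cases hi : z ∈ U i.1
    · rw [h2 i hi]
    · have : θ i z = 0 := image_eq_zero_of_notMem_tsupport fun hh => hi (hθ i hh)
      rw [this, zero_smul, zero_smul]
  simp only [h4]
  rw [← Finset.sum_smul, h3, one_smul]

end Pool.Agent.HT
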