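import Pool.Agent.P.MP_65ad7c_ag.HEF1
import Pool.Agent.P.MP_65ad7c_ag.HEMe
import Pool.Agent.P.MP_65ad7c_ag.HECh

/-! The regularity classes in a chart. -/

open Set Filter Topology MeasureTheory
open scoped ContDiff InnerProductSpace FourierTransform

noncomputable section
namespace Pool.Agent.HT
open Pool.Agent.Wein (Ret Tan)

variable {m : ℕ} {V : Type} [NormedAddCommGroup V] [InnerProductSpace ℝ V] [FiniteDimensional ℝ V]
  [MeasurableSpace V] [BorelSpace V] {S : Set V} {μ : Measure V}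
  {F : Type} [NormedAddCommGroup F] [InnerProductSpace ℂ F] [FiniteDimensional ℂ F]
  {A : RC S m} {O : Set (EE m)} {s : ℕ} {u u' : V → F}

theorem Reg.congr (hμ : IsVol S m μ) (hO : O ⊆ A.O) (h : Reg A O s u) (he : u =ᵐ[μ] u') :
    Reg A O s u' := by
  refine FL.congr h ?_
  filter_upwards [hμ.ae_pull A he] with y hy hyO
  rw [hy (hO hyO)]

omit [FiniteDimensional ℝ V] [MeasurableSpace V] [BorelSpace V] [FiniteDimensional ℂ F] in
theorem Reg.add (h : Reg A O s u) (h' : Reg A O s u') : Reg A O s (u + u') := by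
  have h1 := FL.add h h'
  unfold Reg
  simpa only [Pi.add_apply, smul_add] using h1

omit [FiniteDimensional ℝ V] [MeasurableSpace V] [BorelSpace V] [FiniteDimensional ℂ F] in
theorem Reg.smul (c : ℂ) (h : Reg A O s u) : Reg A O s (c • u) := by
  have h1 := FL.smul c h
  unfold Reg
  simpa only [Pi.smul_apply, smul_comm c] using h1

theorem reg_zero (hμ : IsVol S m μ) (ho : IsOpen O) (hO : O ⊆ A.O) (hu : Integrable u μ) :
    Reg A O 0 u := by
  exact fl_of_integrableOn ho.measurableSet ((hμ.integrableOn_chart A hu).mono_set hO)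

theorem reg_smooth (ho : IsOpen O) (hO : O ⊆ A.O) (hu : ContDiff ℝ ∞ u) (s : ℕ) :
    Reg A O s u := by
  exact fl_of_contDiffOn ho (((rho_smooth A).mono hO).smul (hu.comp A.ψ_smooth).contDiffOn) s

/-- local representatives on the manifold from representatives in the chart -/
theorem local_rep (hμ : IsVol S m μ) (ho : IsOpen O) (hO : O ⊆ A.O) {x : V} (hx : x ∈ A.W)
    (hxO : A.φ x ∈ O) (hu : StronglyMeasurable u) {n : WithTop ℕ∞} (hn : n ≤ ∞)
    (h : ∀ χ : EE m → ℝ, Test O χ → ∃ w : EE m → F, ContDiff ℝ n w ∧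
      (fun y => χ y • rho A.ψ y • u (A.ψ y)) =ᵐ[volume] w) :
    ∃ U, IsOpen U ∧ x ∈ U ∧ ∃ g : V → F, ContDiff ℝ n g ∧ ∀ᵐ z ∂μ, z ∈ U → u z = g z := by
  obtain ⟨d, hd, hdO⟩ := Metric.nhds_basis_closedBall.mem_iff.1 (ho.mem_nhds hxO)
  obtain ⟨χ0, h0, h1⟩ := exists_test (isCompact_closedBall (A.φ x) d) ho hdO
  have h2 : Test O fun y => χ0 y • (rho A.ψ y)⁻¹ :=
    h0.smul ho (((rho_smooth A).mono hO).inv fun y hy => (rho_pos A y (hO hy)).ne')
  obtain ⟨w, hw, hw'⟩ := h _ h2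
  have hg : ContDiff ℝ n fun z => w (A.φ z) := hw.comp (A.φ_smooth.of_le hn)
  have hb : IsOpen (A.φ ⁻¹' Metric.ball (A.φ x) d) :=
    Metric.isOpen_ball.preimage A.φ_smooth.continuous
  refine ⟨A.W ∩ A.φ ⁻¹' Metric.ball (A.φ x) d, A.W_open.inter hb, ⟨hx, Metric.mem_ball_self hd⟩,
    _, hg, ?_⟩
  have h3 := hμ.ae_push A
    (p := fun z => z ∈ A.φ ⁻¹' Metric.ball (A.φ x) d → u z = w (A.φ z))
    (hb.measurableSet.imp (hu.measurableSet_eq_fun hg.continuous.stronglyMeasurable)) (by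
      filter_upwards [hw'] with y hy hyO hyb
      rw [mem_preimage, A.φψ y hyO] at hyb
      rw [A.φψ y hyO, ← hy, h1 y (Metric.ball_subset_closedBall hyb), one_smul, smul_smul,
        inv_mul_cancel₀ (rho_pos A y hyO).ne', one_smul])
  filter_upwards [h3] with z hz hzU
  exact hz hzU.1 hzU.2

/-- the weak equation in a chart -/
theorem weak_chart {R : Ret V} (hμ : IsVol R.S m μ) {ι : Type} [Fintype ι]
    {b : OrthonormalBasis ι ℝ V} {B : ι → V → F →L[ℂ] F} {C : V → F →L[ℂ] F}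
    (hB : ∀ a, ContDiff ℝ ∞ (B a)) (hC : ContDiff ℝ ∞ C) {L : Module.End ℂ (Sec R.S F)}
    (hL : L + ∑ a, Sec.pd R F (b a) * Sec.pd R F (b a) =
      ∑ a, Sec.mul R.S (B a) * Sec.pd R F (b a) + Sec.mul R.S C)
    {u f : V → F} (hu : AEStronglyMeasurable u μ) (hf : AEStronglyMeasurable f μ)
    (hw : ∀ Φ Φ' : CF V F, L (Sec.mk R.S Φ) = Sec.mk R.S Φ' →
      ∫ x, ⟪u x, Φ'.1 x⟫_ℂ ∂μ = ∫ x, ⟪f x, Φ.1 x⟫_ℂ ∂μ)
    (A : RC R.S m) (ho : IsOpen O) (hO : O ⊆ A.O) (φ : EE m → F) (hφ : Test O φ) :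
    ∫ y in O, ⟪rho A.ψ y • u (A.ψ y),
      opP (fun a => A.X R (b a)) (fun a y => B a (A.ψ y)) (fun y => C (A.ψ y)) φ y⟫_ℂ =
      ∫ y in O, ⟪rho A.ψ y • f (A.ψ y), φ y⟫_ℂ := by
  obtain ⟨Φ, hΦ⟩ := exists_rep A (hφ.mono hO)
  obtain ⟨Φ', h1, h2⟩ := op_mk hB hC hL Φ
  have h3 := hΦ.op hφ.2.1 hφ.1 b B C
  rw [← h2] at h3
  rw [← hμ.inner_rep A ho hφ.2.2 hO hu Φ'.smooth.continuous h3,
    ← hμ.inner_rep A ho hφ.2.2 hO hf Φ.smooth.continuous hΦ]
  exact hw Φ Φ' h1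

end Pool.Agent.HT
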