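import Pool.Agent.P.MP_65ad7c_ag.HEMe
import Pool.Agent.P.MP_65ad7c_ag.HECpt

/-! Smooth and continuous sections inside `L^2`. -/

open Set Filter Topology MeasureTheory
open scoped ContDiff InnerProductSpace FourierTransform

noncomputable section
namespace Pool.Agent.HT
open Pool.Agent.Wein (Ret Tan)

variable {m : ℕ} {V : Type} [NormedAddCommGroup V] [InnerProductSpace ℝ V] [FiniteDimensional ℝ V]
  [MeasurableSpace V] [BorelSpace V] {S : Set V} {μ : Measure V}
  {F : Type} [NormedAddCommGroup F] [InnerProductSpace ℂ F] [FiniteDimensional ℂ F]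

omit [FiniteDimensional ℝ V] [MeasurableSpace V] [BorelSpace V] [InnerProductSpace ℝ V]
  [FiniteDimensional ℂ F] in
theorem hesp_mem [CompactSpace S] {x : V} (hx : x ∈ S) (c : C(S, F)) :
    evS S F x c = c ⟨x, hx⟩ := by
  unfold evS
  rw [dif_pos hx]
  rfl

omit [FiniteDimensional ℝ V] [MeasurableSpace V] [BorelSpace V] [InnerProductSpace ℝ V]
  [FiniteDimensional ℂ F] in
theorem hesp_le [CompactSpace S] (x : V) (c : C(S, F)) : ‖evS S F x c‖ ≤ ‖c‖ := by
  by_cases hx : x ∈ S
  · rw [hesp_mem hx]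
    exact c.norm_coe_le_norm _
  · unfold evS
    rw [dif_neg hx]
    simp

omit [FiniteDimensional ℝ V] [MeasurableSpace V] [BorelSpace V] [InnerProductSpace ℝ V]
  [FiniteDimensional ℂ F] in
theorem hesp_cont [CompactSpace S] (c : C(S, F)) : ContinuousOn (fun x => evS S F x c) S := by
  rw [continuousOn_iff_continuous_domRestrict]
  exact c.continuous.congr fun x => (hesp_mem x.2 c).symm

theorem hesp_memLp [CompactSpace S] (hμ : IsVol S m μ) (c : C(S, F)) :
    MemLp (fun x => evS S F x c) 2 μ := by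
  have := hμ.fin
  have hS : IsCompact S := isCompact_iff_compactSpace.2 inferInstance
  refine MemLp.of_bound ?_ ‖c‖ (Eventually.of_forall fun x => hesp_le x c)
  have h := (hesp_cont c).aestronglyMeasurable (μ := μ) hS.measurableSet
  rwa [Measure.restrict_eq_self_of_ae_mem hμ.ae_mem] at h

theorem hesp_i [CompactSpace S] (hμ : IsVol S m μ) :
    ∃ i : C(S, F) →L[ℂ] Lp F 2 μ, ∀ c, i c =ᵐ[μ] fun x => evS S F x c := by
  have := hμ.fin
  let i₀ : C(S, F) →ₗ[ℂ] Lp F 2 μ :=
    { toFun := fun c => (hesp_memLp hμ c).toLp _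
      map_add' := fun c c' => by
        rw [← MemLp.toLp_add]
        exact MemLp.toLp_congr _ _ (Eventually.of_forall fun x => map_add _ c c')
      map_smul' := fun a c => by
        rw [RingHom.id_apply, ← MemLp.toLp_const_smul]
        exact MemLp.toLp_congr _ _ (Eventually.of_forall fun x => map_smul _ a c) }
  have h0 : ∀ c, i₀ c =ᵐ[μ] fun x => evS S F x c := fun c =>
    (hesp_memLp hμ c).coeFn_toLp
  refine ⟨i₀.mkContinuous (measureUnivNNReal μ ^ (2 : ENNReal).toReal⁻¹) fun c => ?_, h0⟩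
  refine Lp.norm_le_of_ae_bound (norm_nonneg c) ?_
  filter_upwards [h0 c] with x hx
  rw [hx]
  exact hesp_le x c

theorem exists_spaces [CompactSpace S] (hμ : IsVol S m μ) :
    ∃ (i : C(S, F) →L[ℂ] Lp F 2 μ) (j : Sec S F →ₗ[ℂ] Lp F 2 μ), Function.Injective i ∧
      Function.Injective j ∧ (∀ T : Lp F 2 μ →L[ℂ] C(S, F), IsCompactOperator (i.comp T)) ∧
      (∀ f : CF V F, j (Sec.mk S f) =ᵐ[μ] f.1) ∧
      ∀ (u : Lp F 2 μ) (g : V → F), Continuous g → u =ᵐ[μ] g → ∃ c, i c = u := by
  have := hμ.fin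
  obtain ⟨i, hi⟩ := hesp_i (F := F) hμ
  have hinj : Function.Injective i := by
    refine (injective_iff_map_eq_zero i).2 fun c hc => ?_
    have h1 : (fun x => evS S F x c) =ᵐ[μ] 0 := by
      refine (hi c).symm.trans ?_
      rw [hc]
      exact Lp.coeFn_zero F 2 μ
    ext x
    rw [← hesp_mem x.2 c]
    exact hμ.eq_zero (hesp_cont c) h1 x x.2
  have hres : ∀ (g : V → F) (c : C(S, F)), (∀ x : S, c x = g x) → i c =ᵐ[μ] g := by
    intro g c h
    filter_upwards [hi c, hμ.ae_mem] with x h1 h2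
    rw [h1, hesp_mem h2, h]
  let ρ : CF V F →ₗ[ℂ] C(S, F) :=
    { toFun := fun f => ⟨fun x => f.1 x, f.smooth.continuous.comp continuous_subtype_val⟩
      map_add' := fun _ _ => rfl
      map_smul' := fun _ _ => rfl }
  have hρ : Z0 S F ≤ LinearMap.ker ρ := fun f hf =>
    LinearMap.mem_ker.2 (ContinuousMap.ext fun x => hf x x.2)
  refine ⟨i, i.toLinearMap.comp ((Z0 S F).liftQ ρ hρ), hinj, fun u w h => ?_, fun T => ?_,
    fun f => hres f.1 (ρ f) fun _ => rfl, fun u g hg h => ?_⟩
  · obtain ⟨f, rfl⟩ := Submodule.Quotient.mk_surjective _ u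
    obtain ⟨f', rfl⟩ := Submodule.Quotient.mk_surjective _ w
    have h1 : ρ f = ρ f' := hinj h
    exact Sec.mk_eq_iff.2 fun x hx => congrArg (fun c : C(S, F) => c ⟨x, hx⟩) h1
  · exact compact_of_eval μ i (evS S F)
      (fun x => ContinuousLinearMap.opNorm_le_bound _ zero_le_one fun c => by
        rw [one_mul]
        exact hesp_le x c) hi T
  · exact ⟨⟨fun x => g x, hg.comp continuous_subtype_val⟩,
      Lp.ext ((hres g _ fun _ => rfl).trans h.symm)⟩

end Pool.Agent.HT
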