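import Pool.Agent.P.MP_65ad7c_ag.HEF4
import Pool.Agent.P.MP_65ad7c_ag.HEReg
import Pool.Agent.P.MP_65ad7c_ag.HEAbs
import Pool.Agent.P.MP_65ad7c_ag.HELoc
import Pool.Agent.P.MP_65ad7c_ag.HESp

/-! The Hodge decomposition for a non-negative symmetric operator of Laplace type. -/

open Set Filter Topology MeasureTheory
open scoped ContDiff InnerProductSpace FourierTransform

noncomputable section
namespace Pool.Agent.HT
open Pool.Agent.Wein (Ret Tan)

section aux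
variable {m : ℕ} {V : Type} [NormedAddCommGroup V] [InnerProductSpace ℝ V] [FiniteDimensional ℝ V]
  [MeasurableSpace V] [BorelSpace V] {S : Set V} {μ : Measure V}
  {F : Type} [NormedAddCommGroup F] [InnerProductSpace ℂ F] [FiniteDimensional ℂ F]

/-- the elements of `L^2` of regularity `s` in a family of charts -/
def hell_R (hμ : IsVol S m μ) (F : Type) [NormedAddCommGroup F] [InnerProductSpace ℂ F]
    [FiniteDimensional ℂ F] (A : S → RC S m) (O : S → Set (EE m)) (ho : ∀ x, IsOpen (O x))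
    (hO : ∀ x, O x ⊆ (A x).O) (s : ℕ) : Submodule ℂ (Lp F 2 μ) where
  carrier := {u | ∀ x, Reg (A x) (O x) s u}
  add_mem' := fun {a b} ha hb x =>
    ((ha x).add (hb x)).congr hμ (hO x) (Lp.coeFn_add a b).symm
  zero_mem' := fun x =>
    (reg_smooth (u := fun _ => (0 : F)) (ho x) (hO x) contDiff_const s).congr hμ (hO x)
      (Lp.coeFn_zero F 2 μ).symm
  smul_mem' := fun c a ha x => ((ha x).smul c).congr hμ (hO x) (Lp.coeFn_smul c a).symm

theorem hell_glob (hμ : IsVol S m μ) (hS : IsCompact S) (A : S → RC S m) (O : S → Set (EE m))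
    (ho : ∀ x, IsOpen (O x)) (hO : ∀ x, O x ⊆ (A x).O) (hW : ∀ x : S, x.1 ∈ (A x).W)
    (hx : ∀ x : S, (A x).φ x ∈ O x) (u : Lp F 2 μ) {n : WithTop ℕ∞} (hn : n ≤ ∞)
    (h : ∀ x, ∀ χ : EE m → ℝ, Test (O x) χ → ∃ w : EE m → F, ContDiff ℝ n w ∧
      (fun y => χ y • rho (A x).ψ y • u ((A x).ψ y)) =ᵐ[volume] w) :
    ∃ g : V → F, ContDiff ℝ n g ∧ u =ᵐ[μ] g :=
  glue_ae hS hμ.ae_mem hn fun x hxS => local_rep hμ (ho ⟨x, hxS⟩) (hO ⟨x, hxS⟩) (hW ⟨x, hxS⟩)
    (hx ⟨x, hxS⟩) (Lp.stronglyMeasurable u) hn (h ⟨x, hxS⟩)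

end aux

/-- the Hodge decomposition -/
theorem ell {V : Type} [NormedAddCommGroup V] [InnerProductSpace ℝ V] [FiniteDimensional ℝ V]
    [MeasurableSpace V] [BorelSpace V] {F : Type} [NormedAddCommGroup F] [InnerProductSpace ℂ F]
    [FiniteDimensional ℂ F] (R : Ret V) {m : ℕ} {μ : Measure V} (hμ : IsVol R.S m μ)
    {A : Type} [Fintype A] (b : OrthonormalBasis A ℝ V) (L : Module.End ℂ (Sec R.S F))
    (sym : ∀ u w, Sec.ip μ (L u) w = Sec.ip μ u (L w)) (pos : ∀ u, 0 ≤ (Sec.ip μ (L u) u).re)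
    (hL : IsD1 R b (L + ∑ a, Sec.pd R F (b a) * Sec.pd R F (b a))) (u : Sec R.S F) :
    ∃ h w, L h = 0 ∧ u = h + L w := by
  have : CompactSpace R.S := isCompact_iff_compactSpace.1 R.compact
  have := hμ.fin
  obtain ⟨i, j, hi, hj, hc, hjm, hic⟩ := exists_spaces (F := F) hμ
  obtain ⟨B, C, hB, hC, hL⟩ := hL
  have hin : ∀ (v : Lp F 2 μ) (f : CF V F),
      ⟪v, j (Sec.mk R.S f)⟫_ℂ = ∫ x, ⟪v x, f.1 x⟫_ℂ ∂μ := fun v f => by
    rw [L2.inner_def]
    refine integral_congr_ae ?_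
    filter_upwards [hjm f] with x hx
    rw [hx]
  have hip : ∀ v w : Sec R.S F, ⟪j v, j w⟫_ℂ = Sec.ip μ v w := fun v w => by
    obtain ⟨f, rfl⟩ := Submodule.Quotient.mk_surjective _ v
    obtain ⟨g, rfl⟩ := Submodule.Quotient.mk_surjective _ w
    rw [hin, Sec.ip_mk hμ]
    refine integral_congr_ae ?_
    filter_upwards [hjm f] with x hx
    rw [hx]
  have hch : ∀ x : R.S, ∃ (Ac : RC R.S m) (O : Set (EE m)), IsOpen O ∧ O ⊆ Ac.O ∧ x.1 ∈ Ac.W ∧
      Ac.φ x ∈ O ∧ ∀ (u f : EE m → F) (s : ℕ),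
      (∀ φ : EE m → F, Test O φ →
        ∫ y in O, ⟪u y, opP (fun a => Ac.X R (b a)) (fun a y => B a (Ac.ψ y))
          (fun y => C (Ac.ψ y)) φ y⟫_ℂ = ∫ y in O, ⟪f y, φ y⟫_ℂ) →
      FL s O u → FL s O f → FL (s + 1) O u := fun x => by
    obtain ⟨Ac, hx⟩ := hμ.chart x x.2
    have hy : Ac.φ x ∈ Ac.O := Ac.φ_mem x ⟨x.2, hx⟩
    have h1 := regloc (F := F) (X := fun a => Ac.X R (b a)) (B := fun a y => B a (Ac.ψ y))
      (C := fun y => C (Ac.ψ y)) (fun a => Ac.X_smooth (b a))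
      (fun a => (hB a).comp Ac.ψ_smooth) (hC.comp Ac.ψ_smooth) (Ac.X_ell b hy)
    have h2 : ∀ᶠ r in 𝓝[>] (0 : ℝ), Metric.ball (Ac.φ x) r ⊆ Ac.O := by
      obtain ⟨ε, hε, h⟩ := Metric.isOpen_iff.1 Ac.O_open _ hy
      filter_upwards [Ioo_mem_nhdsGT hε] with r hr
      exact (Metric.ball_subset_ball hr.2.le).trans h
    obtain ⟨r, ⟨h3, h4⟩, h5⟩ := ((h1.and h2).and self_mem_nhdsWithin).exists
    exact ⟨Ac, _, Metric.isOpen_ball, h4, hx, Metric.mem_ball_self h5, h3⟩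
  choose Ac O ho hO hW hx hreg using hch
  refine ell_abs j hj L i hi hc (fun v w => by rw [hip, hip, sym]) (fun v => by rw [hip]; exact pos v)
    (hell_R hμ F Ac O ho hO) (fun v x => ?_) (fun s f x => ?_) (fun s v f hw hv hf x => ?_)
    (fun s v hv x => FL.mono (Nat.le_succ s) (hv x)) (fun v hv => ?_) (m + 1) (fun v hv => ?_) u
  · exact reg_zero hμ (ho x) (hO x) ((Lp.memLp v).integrable (by norm_num))
  · obtain ⟨g, rfl⟩ := Submodule.Quotient.mk_surjective _ f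
    exact (reg_smooth (ho x) (hO x) g.smooth s).congr hμ (hO x) (hjm g).symm
  · refine hreg x _ _ s (weak_chart hμ hB hC hL (Lp.aestronglyMeasurable v)
      (Lp.aestronglyMeasurable f) (fun Φ Φ' h => ?_) (Ac x) (ho x) (hO x)) (hv x) (hf x)
    rw [← hin, ← hin, ← h, hw]
  · obtain ⟨g, hg, he⟩ := hell_glob hμ R.compact Ac O ho hO hW hx v le_rfl
      fun x χ hχ => FH.smooth fun s => hv s x χ hχ
    exact ⟨Sec.mk R.S (CF.mk g hg), Lp.ext ((hjm _).trans he.symm)⟩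
  · obtain ⟨g, hg, he⟩ := hell_glob hμ R.compact Ac O ho hO hW hx v (n := 0) (by simp)
      fun x χ hχ => FH.cont (hv x χ hχ)
    exact hic v g hg.continuous he

end Pool.Agent.HT
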