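import Pool.Agent.P.MP_65ad7c_ag.HFock0

/-! The fermionic Fock space of a Euclidean space and its second quantisation. -/

open scoped ContDiff InnerProductSpace

noncomputable section
namespace Pool.Agent.HT

theorem exists_fock (V : Type) [NormedAddCommGroup V] [InnerProductSpace ℝ V]
    [FiniteDimensional ℝ V] : ∃ (F : Type) (_ : NormedAddCommGroup F) (_ : InnerProductSpace ℂ F)
      (_ : FiniteDimensional ℂ F), Nonempty (Fock V F) := fk_exists V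

namespace Fock
variable {V : Type} [NormedAddCommGroup V] [InnerProductSpace ℝ V]
  {F : Type} [NormedAddCommGroup F] [InnerProductSpace ℂ F] (Φ : Fock V F)
  {A : Type} [Fintype A] (b : OrthonormalBasis A ℝ V)

/-- second quantisation, normalised so that `psi (dG M y) = der M (psi y)` -/
def dG (M : V →L[ℝ] V) : F →L[ℂ] F := ∑ a, Φ.ep (b a) * Φ.io (M (b a))

theorem anti_ep (v w : V) : Φ.ep v * Φ.ep w + Φ.ep w * Φ.ep v = 0 := by
  ext x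
  refine ext_inner_right ℂ fun y => ?_
  have h := congrArg (fun T : F →L[ℂ] F => ⟪x, T y⟫_ℂ) (Φ.anti w v)
  simp only [add_apply, mul_apply_eq_comp, inner_add_right,
    zero_apply, inner_zero_right] at h
  simp only [add_apply, mul_apply_eq_comp, inner_add_left,
    zero_apply, inner_zero_left, Φ.adj]
  exact h

theorem expand (f : V →L[ℝ] F →L[ℂ] F) (v : V) :
    ∑ a, ((⟪b a, v⟫_ℝ : ℝ) : ℂ) • f (b a) = f v := by
  conv_rhs => rw [← b.sum_repr' v, map_sum]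
  refine Finset.sum_congr rfl fun a _ => ?_
  rw [map_smul, Complex.coe_smul]

theorem swap (f g : V →L[ℝ] F →L[ℂ] F) {M M' : V →L[ℝ] V}
    (h : ∀ v w, ⟪M v, w⟫_ℝ = ⟪v, M' w⟫_ℝ) :
    ∑ a, f (M (b a)) * g (b a) = ∑ a, f (b a) * g (M' (b a)) := by
  have h1 : ∀ a, f (M (b a)) * g (b a) =
      ∑ c, ((⟪b a, M' (b c)⟫_ℝ : ℝ) : ℂ) • (f (b c) * g (b a)) := fun a => by
    rw [← expand b f (M (b a)), Finset.sum_mul]
    refine Finset.sum_congr rfl fun c _ => ?_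
    rw [smul_mul_assoc, real_inner_comm, h]
  simp only [h1]
  rw [Finset.sum_comm]
  refine Finset.sum_congr rfl fun c _ => ?_
  rw [← expand b g (M' (b c)), Finset.mul_sum]
  exact Finset.sum_congr rfl fun a _ => (mul_smul_comm _ _ _).symm

theorem dG_io (M : V →L[ℝ] V) (v : V) :
    Φ.dG b M * Φ.io v - Φ.io v * Φ.dG b M = -Φ.io (M v) := by
  have h := expand b (Φ.io.comp M) v
  simp only [ContinuousLinearMap.comp_apply] at h
  rw [← h, dG, Finset.sum_mul, Finset.mul_sum, ← Finset.sum_sub_distrib, ← Finset.sum_neg_distrib]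
  refine Finset.sum_congr rfl fun a _ => ?_
  have h1 : Φ.io v * Φ.ep (b a) = ((⟪b a, v⟫_ℝ : ℝ) : ℂ) • 1 - Φ.ep (b a) * Φ.io v := by
    rw [real_inner_comm, ← Φ.car, add_sub_cancel_right]
  have h2 : Φ.io (M (b a)) * Φ.io v = -(Φ.io v * Φ.io (M (b a))) :=
    eq_neg_of_add_eq_zero_left (Φ.anti _ _)
  rw [mul_assoc, h2, ← mul_assoc (Φ.io v), h1, sub_mul, smul_mul_assoc, one_mul, mul_neg, mul_assoc]
  abel

theorem dG_ep {M M' : V →L[ℝ] V} (h : ∀ v w, ⟪M v, w⟫_ℝ = ⟪v, M' w⟫_ℝ) (v : V) :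
    Φ.dG b M * Φ.ep v - Φ.ep v * Φ.dG b M = Φ.ep (M' v) := by
  rw [← expand b Φ.ep (M' v), dG, Finset.sum_mul, Finset.mul_sum, ← Finset.sum_sub_distrib]
  refine Finset.sum_congr rfl fun a _ => ?_
  have h1 : Φ.io (M (b a)) * Φ.ep v =
      ((⟪b a, M' v⟫_ℝ : ℝ) : ℂ) • 1 - Φ.ep v * Φ.io (M (b a)) := by
    rw [← h, ← Φ.car, add_sub_cancel_right]
  have h2 : Φ.ep v * Φ.ep (b a) = -(Φ.ep (b a) * Φ.ep v) :=
    eq_neg_of_add_eq_zero_left (Φ.anti_ep _ _)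
  rw [mul_assoc, h1, ← mul_assoc (Φ.ep v), h2, mul_sub, mul_smul_comm, mul_one, neg_mul, mul_assoc]
  abel

theorem adj' (v : V) (x y : F) : ⟪Φ.io v x, y⟫_ℂ = ⟪x, Φ.ep v y⟫_ℂ := by
  rw [← inner_conj_symm, ← Φ.adj, inner_conj_symm]

theorem dG_adj {M M' : V →L[ℝ] V} (h : ∀ v w, ⟪M v, w⟫_ℝ = ⟪v, M' w⟫_ℝ) (x y : F) :
    ⟪Φ.dG b M x, y⟫_ℂ = ⟪x, Φ.dG b M' y⟫_ℂ := by
  rw [dG, dG, ← swap b Φ.ep Φ.io h]
  simp only [sum_apply, mul_apply_eq_comp, sum_inner, inner_sum,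
    Φ.adj, Φ.adj']

include b in
theorem exists_transpose (M : V →L[ℝ] V) :
    ∃ M' : V →L[ℝ] V, ∀ v w, ⟪M v, w⟫_ℝ = ⟪v, M' w⟫_ℝ := by
  refine ⟨∑ a, (innerSL ℝ (M (b a))).smulRight (b a), fun v w => ?_⟩
  conv_lhs => rw [← b.sum_repr' v]
  simp only [map_sum, map_smul, sum_inner, sum_apply, inner_sum,
    ContinuousLinearMap.smulRight_apply, innerSL_apply_apply, real_inner_smul_left,
    real_inner_smul_right]
  exact Finset.sum_congr rfl fun a _ => by rw [mul_comm, real_inner_comm v]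

theorem dG_comm (M M' : V →L[ℝ] V) :
    Φ.dG b M * Φ.dG b M' - Φ.dG b M' * Φ.dG b M = Φ.dG b (M' * M - M * M') := by
  obtain ⟨T, hT⟩ := exists_transpose b M
  have hT' : ∀ v w, ⟪T v, w⟫_ℝ = ⟪v, M w⟫_ℝ := fun v w => by
    rw [real_inner_comm, ← hT, real_inner_comm]
  have h1 := swap b Φ.ep (Φ.io.comp M') hT'
  simp only [ContinuousLinearMap.comp_apply] at h1
  have h2 : Φ.dG b (M' * M - M * M') = ∑ a, Φ.ep (b a) * Φ.io (M' (M (b a))) -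
      ∑ a, Φ.ep (b a) * Φ.io (M (M' (b a))) := by
    rw [dG, ← Finset.sum_sub_distrib]
    refine Finset.sum_congr rfl fun a _ => ?_
    rw [sub_apply, map_sub, mul_sub]
    rfl
  rw [h2, ← h1, ← Finset.sum_sub_distrib]
  conv_lhs => rw [dG.eq_1 Φ b M', Finset.sum_mul, Finset.mul_sum, ← Finset.sum_sub_distrib]
  refine Finset.sum_congr rfl fun a _ => ?_
  rw [← Φ.dG_ep b hT, ← neg_neg (Φ.io (M (M' (b a)))), ← Φ.dG_io b M]
  noncomm_ring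

theorem dG_smooth {X : Type} [NormedAddCommGroup X] [NormedSpace ℝ X] {M : X → V →L[ℝ] V}
    (h : ContDiff ℝ ∞ M) : ContDiff ℝ ∞ fun x => Φ.dG b (M x) := by
  unfold dG
  refine ContDiff.sum fun a _ => ?_
  exact contDiff_const.mul (Φ.io.contDiff.comp (h.clm_apply contDiff_const))

theorem psi_dG (M : V →L[ℝ] V) (q : ℕ) (y : F) :
    Φ.psi q (Φ.dG b M y) = der M (Φ.psi q y) := by
  induction q generalizing y with
  | zero =>
    ext v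
    simp [der_apply, dG, Φ.psi_ep]
  | succ q ih =>
    ext v
    have h := congrArg (fun T : F →L[ℂ] F => T y) (Φ.dG_io b M (v 0))
    simp only [sub_apply, mul_apply_eq_comp,
      neg_apply] at h
    have h1 : Φ.io (v 0) (Φ.dG b M y) = Φ.io (M (v 0)) y + Φ.dG b M (Φ.io (v 0) y) := by
      rw [← sub_eq_zero, ← neg_neg (Φ.io (M (v 0)) y), ← h]
      abel
    rw [der_apply, Fin.sum_univ_succ]
    conv_lhs => rw [← Fin.cons_self_tail v, Φ.psi_succ, h1, map_add, ih,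
      ContinuousAlternatingMap.add_apply, der_apply]
    congr 1
    · rw [← Φ.psi_succ]
      conv_rhs => rw [← Fin.cons_self_tail v, Fin.update_cons_zero]
      rfl
    · refine Finset.sum_congr rfl fun i _ => ?_
      rw [← Φ.psi_succ, Fin.cons_update, Fin.cons_self_tail]
      rfl

theorem psi_succ_ep (q : ℕ) (z : V) (y : F) (v : Fin (q + 1) → V) :
    Φ.psi (q + 1) (Φ.ep z y) v =
      ∑ i : Fin (q + 1), (-1 : ℂ) ^ (i : ℕ) * ((⟪z, v i⟫_ℝ : ℝ) : ℂ) * Φ.psi q y (i.removeNth v) :=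
  fk_succ_ep Φ.car Φ.psi_smul Φ.psi_succ Φ.psi_ep q z y v

/-- `psi q y` vanishes as soon as one argument is killed -/
theorem psi_eq_zero {q : ℕ} {y : F} {v : Fin q → V} {i : Fin q} (h : Φ.io (v i) y = 0) :
    Φ.psi q y v = 0 :=
  fk_eq_zero (T := fun q y v => Φ.psi q y v) Φ.anti (fun q v => by simp) Φ.psi_succ h

theorem dG_proj {Q : V →L[ℝ] V} (hs : ∀ v w, ⟪Q v, w⟫_ℝ = ⟪v, Q w⟫_ℝ)
    (hi : ∀ v, Q (Q v) = Q v) : Φ.dG b Q = ∑ a, Φ.ep (Q (b a)) * Φ.io (Q (b a)) := by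
  have h1 := swap b Φ.ep (Φ.io.comp Q) hs
  simp only [ContinuousLinearMap.comp_apply, hi] at h1
  exact h1.symm

theorem dG_re {Q : V →L[ℝ] V} (hs : ∀ v w, ⟪Q v, w⟫_ℝ = ⟪v, Q w⟫_ℝ)
    (hi : ∀ v, Q (Q v) = Q v) (y : F) :
    (⟪Φ.dG b Q y, y⟫_ℂ).re = ∑ a, ‖Φ.io (Q (b a)) y‖ ^ 2 := by
  rw [Φ.dG_proj b hs hi]
  simp only [sum_apply, mul_apply_eq_comp, sum_inner, Φ.adj,
    Complex.re_sum]
  exact Finset.sum_congr rfl fun a _ => inner_self_eq_norm_sq (𝕜 := ℂ) _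

theorem io_eq_zero {Q : V →L[ℝ] V} (hs : ∀ v w, ⟪Q v, w⟫_ℝ = ⟪v, Q w⟫_ℝ)
    (hi : ∀ v, Q (Q v) = Q v) {y : F} (h : (⟪Φ.dG b Q y, y⟫_ℂ).re = 0) (v : V) :
    Φ.io (Q v) y = 0 := by
  rw [Φ.dG_re b hs hi, Finset.sum_eq_zero_iff_of_nonneg fun a _ => sq_nonneg _] at h
  have h1 := expand b (Φ.io.comp Q) v
  simp only [ContinuousLinearMap.comp_apply] at h1
  rw [← h1, sum_apply]
  refine Finset.sum_eq_zero fun a ha => ?_
  rw [smul_apply, norm_eq_zero.1 (pow_eq_zero_iff two_ne_zero |>.1 (h a ha)),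
    smul_zero]

/-- the kernel of the number operator of an orthogonal projection -/
theorem dG_eq_zero_iff {Q : V →L[ℝ] V} (hs : ∀ v w, ⟪Q v, w⟫_ℝ = ⟪v, Q w⟫_ℝ)
    (hi : ∀ v, Q (Q v) = Q v) (y : F) : Φ.dG b Q y = 0 ↔ ∀ v, Φ.io (Q v) y = 0 := by
  refine ⟨fun h => Φ.io_eq_zero b hs hi (by simp [h]), fun h => ?_⟩
  simp [dG, h]

theorem dG_nonneg {Q : V →L[ℝ] V} (hs : ∀ v w, ⟪Q v, w⟫_ℝ = ⟪v, Q w⟫_ℝ)
    (hi : ∀ v, Q (Q v) = Q v) (y : F) : 0 ≤ (⟪Φ.dG b Q y, y⟫_ℂ).re ∧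
      ((⟪Φ.dG b Q y, y⟫_ℂ).re = 0 → Φ.dG b Q y = 0) := by
  refine ⟨?_, fun h => (Φ.dG_eq_zero_iff b hs hi y).2 (Φ.io_eq_zero b hs hi h)⟩
  rw [Φ.dG_re b hs hi]
  exact Finset.sum_nonneg fun a _ => sq_nonneg _

end Fock

end Pool.Agent.HT
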