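import Pool.Agent.P.MP_65ad7c_ag.HSec

/-! Construction of the fermionic Fock space. -/

open scoped ContDiff InnerProductSpace Matrix

noncomputable section
namespace Pool.Agent.HT

section gen
variable {V : Type} [NormedAddCommGroup V] [InnerProductSpace ℝ V]
  {F : Type} [NormedAddCommGroup F] [InnerProductSpace ℂ F]

theorem fk_anti {a a' : F →L[ℂ] F} (h : a * a' + a' * a = 0) {y : F} (hy : a' y = 0) :
    a' (a y) = 0 := by
  have h1 := congrArg (fun T : F →L[ℂ] F => T y) h
  simpa [hy] using h1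

theorem fk_sq {a : F →L[ℂ] F} (h : a * a + a * a = 0) (y : F) : a (a y) = 0 := by
  have h1 := congrArg (fun T : F →L[ℂ] F => T y) h
  simp only [add_apply, mul_apply_eq_comp, zero_apply] at h1
  rw [← two_smul ℂ] at h1
  exact (smul_eq_zero.1 h1).resolve_left two_ne_zero

theorem fk_eq_zero {io : V →L[ℝ] F →L[ℂ] F} {T : ∀ q, F → (Fin q → V) → ℂ}
    (anti : ∀ v w, io v * io w + io w * io v = 0) (h0 : ∀ q v, T q 0 v = 0)
    (hs : ∀ q x v (w : Fin q → V), T (q + 1) x (Fin.cons v w) = T q (io v x) w)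
    {q : ℕ} {y : F} {v : Fin q → V} {i : Fin q} (h : io (v i) y = 0) : T q y v = 0 := by
  induction q generalizing y with
  | zero => exact i.elim0
  | succ q ih =>
    rw [← Fin.cons_self_tail v, hs]
    induction i using Fin.cases with
    | zero => rw [h, h0]
    | succ i => exact ih (i := i) (fk_anti (anti _ _) h)

theorem fk_alt {io : V →L[ℝ] F →L[ℂ] F} {T : ∀ q, F → (Fin q → V) → ℂ}
    (anti : ∀ v w, io v * io w + io w * io v = 0) (h0 : ∀ q v, T q 0 v = 0)
    (hs : ∀ q x v (w : Fin q → V), T (q + 1) x (Fin.cons v w) = T q (io v x) w)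
    {q : ℕ} (y : F) (v : Fin q → V) (i j : Fin q) (h : v i = v j) (hij : i ≠ j) :
    T q y v = 0 := by
  induction q generalizing y with
  | zero => exact i.elim0
  | succ q ih =>
    rw [← Fin.cons_self_tail v, hs]
    induction i using Fin.cases with
    | zero =>
      induction j using Fin.cases with
      | zero => exact absurd rfl hij
      | succ j =>
        refine fk_eq_zero anti h0 hs (i := j) ?_
        rw [show Fin.tail v j = v 0 from h.symm]
        exact fk_sq (anti _ _) y
    | succ i =>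
      induction j using Fin.cases with
      | zero =>
        refine fk_eq_zero anti h0 hs (i := i) ?_
        rw [show Fin.tail v i = v 0 from h]
        exact fk_sq (anti _ _) y
      | succ j => exact ih _ _ i j h fun e => hij (congrArg _ e)

theorem fk_succ_ep {io ep : V →L[ℝ] F →L[ℂ] F} {psi : ∀ q, F →L[ℝ] Alt V q}
    (car : ∀ v w, io v * ep w + ep w * io v = ((⟪v, w⟫_ℝ : ℝ) : ℂ) • 1)
    (psi_smul : ∀ q (c : ℂ) x, psi q (c • x) = c • psi q x)
    (psi_succ : ∀ q x v (w : Fin q → V), psi (q + 1) x (Fin.cons v w) = psi q (io v x) w)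
    (psi_ep : ∀ v x, psi 0 (ep v x) = 0) (q : ℕ) (z : V) (y : F) (v : Fin (q + 1) → V) :
    psi (q + 1) (ep z y) v =
      ∑ i : Fin (q + 1), (-1 : ℂ) ^ (i : ℕ) * ((⟪z, v i⟫_ℝ : ℝ) : ℂ) * psi q y (i.removeNth v) := by
  have key : ∀ v y, io v (ep z y) = ((⟪z, v⟫_ℝ : ℝ) : ℂ) • y - ep z (io v y) := fun v y => by
    have h1 := congrArg (fun T : F →L[ℂ] F => T y) (car v z)
    simp only [add_apply, mul_apply_eq_comp, smul_apply, one_apply_eq_self] at h1
    rw [real_inner_comm, ← h1, add_sub_cancel_right]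
  induction q generalizing y with
  | zero =>
    conv_lhs => rw [← Fin.cons_self_tail v, psi_succ, key, map_sub, psi_ep, psi_smul]
    simp
  | succ q ih =>
    conv_lhs => rw [← Fin.cons_self_tail v, psi_succ, key, map_sub, psi_smul,
      ContinuousAlternatingMap.sub_apply, ih]
    rw [Fin.sum_univ_succ (n := q + 1), sub_eq_add_neg, ← Finset.sum_neg_distrib]
    congr 1
    · simp
    · refine Finset.sum_congr rfl fun i _ => ?_
      have h1 : (i.succ).removeNth v = Fin.cons (v 0) (i.removeNth (Fin.tail v)) := by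
        conv_lhs => rw [← Fin.cons_self_tail v]
        exact Fin.cons_comp_succ_succAbove _ _ _
      rw [h1, psi_succ, Fin.val_succ, pow_succ]
      simp only [Fin.tail]
      ring

/-- the multilinear form `v ↦ ⟪vac, io v_(q-1) ... io v_0 x⟫` -/
def fkM [FiniteDimensional ℂ F] (io : V →L[ℝ] F →L[ℂ] F) (vac : F) :
    ∀ q, F →L[ℝ] ContinuousMultilinearMap ℝ (fun _ : Fin q => V) ℂ
  | 0 => LinearMap.toContinuousLinearMap
    { toFun := fun x => ContinuousMultilinearMap.constOfIsEmpty ℝ _ ⟪vac, x⟫_ℂ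
      map_add' := fun x y => by ext; simp
      map_smul' := fun c x => by
        ext
        rw [← Complex.coe_smul, inner_smul_right]
        simp }
  | q + 1 => LinearMap.toContinuousLinearMap
    { toFun := fun x => ((fkM io vac q).comp (((evC F).flip x).comp io)).uncurryLeft
      map_add' := fun x y => by ext; simp
      map_smul' := fun c x => by ext; simp }

theorem fkM_zero [FiniteDimensional ℂ F] (io : V →L[ℝ] F →L[ℂ] F) (vac x : F) (w : Fin 0 → V) :
    fkM io vac 0 x w = ⟪vac, x⟫_ℂ := rfl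

theorem fkM_succ [FiniteDimensional ℂ F] (io : V →L[ℝ] F →L[ℂ] F) (vac : F) (q : ℕ) (x : F)
    (v : V) (w : Fin q → V) : fkM io vac (q + 1) x (Fin.cons v w) = fkM io vac q (io v x) w := rfl

theorem fkM_smul [FiniteDimensional ℂ F] (io : V →L[ℝ] F →L[ℂ] F) (vac : F) (q : ℕ) (c : ℂ)
    (x : F) (w : Fin q → V) : fkM io vac q (c • x) w = c * fkM io vac q x w := by
  induction q generalizing x with
  | zero => rw [fkM_zero, fkM_zero, inner_smul_right]
  | succ q ih => rw [← Fin.cons_self_tail w, fkM_succ, fkM_succ, map_smul, ih]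

/-- the alternating form attached to a vector of the Fock space -/
def fkP [FiniteDimensional ℂ F] {io : V →L[ℝ] F →L[ℂ] F}
    (anti : ∀ v w, io v * io w + io w * io v = 0) (vac : F) (q : ℕ) : F →L[ℝ] Alt V q :=
  LinearMap.toContinuousLinearMap
    { toFun := fun x =>
        { fkM io vac q x with
          map_eq_zero_of_eq' := fk_alt (T := fun q x v => fkM io vac q x v) anti
            (fun q v => by simp) (fkM_succ io vac) x }
      map_add' := fun x y => by
        ext w
        exact DFunLike.congr_fun (map_add (fkM io vac q) x y) w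
      map_smul' := fun c x => by
        ext w
        exact DFunLike.congr_fun (map_smul (fkM io vac q) c x) w }

theorem fkP_apply [FiniteDimensional ℂ F] {io : V →L[ℝ] F →L[ℂ] F}
    (anti : ∀ v w, io v * io w + io w * io v = 0) (vac : F) (q : ℕ) (x : F) (w : Fin q → V) :
    fkP anti vac q x w = fkM io vac q x w := rfl

theorem fk_surj {A : Type} [Fintype A] (b : OrthonormalBasis A ℝ V)
    {io ep : V →L[ℝ] F →L[ℂ] F} {psi : ∀ q, F →L[ℝ] Alt V q}
    (car : ∀ v w, io v * ep w + ep w * io v = ((⟪v, w⟫_ℝ : ℝ) : ℂ) • 1)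
    (psi_smul : ∀ q (c : ℂ) x, psi q (c • x) = c • psi q x)
    (psi_succ : ∀ q x v (w : Fin q → V), psi (q + 1) x (Fin.cons v w) = psi q (io v x) w)
    (psi_ep : ∀ v x, psi 0 (ep v x) = 0) {vac : F} (h1 : ∀ w, psi 0 vac w = 1)
    (h0 : ∀ v, io v vac = 0) (q : ℕ) (a : Alt V q) :
    ∃ x, psi q x = a ∧ ∀ q', q' ≠ q → psi q' x = 0 := by
  induction q with
  | zero =>
    refine ⟨a ![] • vac, ?_, fun q' hq => ?_⟩
    · ext w
      rw [psi_smul, ContinuousAlternatingMap.smul_apply, h1, Subsingleton.elim w ![], smul_eq_mul,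
        mul_one]
    · obtain ⟨q', rfl⟩ := Nat.exists_eq_succ_of_ne_zero hq
      ext w
      rw [psi_smul, ContinuousAlternatingMap.smul_apply, ← Fin.cons_self_tail w, psi_succ, h0]
      simp
  | succ q ih =>
    choose x hx hx' using fun k => ih (a.curryLeft (b k))
    refine ⟨((q : ℂ) + 1)⁻¹ • ∑ k, ep (b k) (x k), ?_, fun q' hq => ?_⟩
    · ext w
      have h2 : (q : ℂ) + 1 ≠ 0 := Nat.cast_add_one_ne_zero q
      have h3 := DFunLike.congr_fun (ContinuousAlternatingMap.alternatizeUncurryFin_curryLeft a) w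
      rw [ContinuousAlternatingMap.alternatizeUncurryFin_apply,
        ContinuousAlternatingMap.smul_apply, nsmul_eq_mul] at h3
      rw [psi_smul, ContinuousAlternatingMap.smul_apply, smul_eq_mul, inv_mul_eq_iff_eq_mul₀ h2,
        map_sum, ContinuousAlternatingMap.sum_apply]
      simp only [fk_succ_ep car psi_smul psi_succ psi_ep, hx]
      push_cast at h3
      rw [← h3, Finset.sum_comm]
      refine Finset.sum_congr rfl fun i _ => ?_
      conv_rhs => rw [← b.sum_repr' (w i), map_sum, ContinuousAlternatingMap.sum_apply,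
        Finset.smul_sum]
      refine Finset.sum_congr rfl fun k _ => ?_
      rw [map_smul, ContinuousAlternatingMap.smul_apply, Complex.real_smul, mul_assoc]
      simp
    · rw [psi_smul, map_sum, Finset.sum_eq_zero, smul_zero]
      intro k _
      rcases q' with _ | q'
      · exact psi_ep _ _
      · ext w
        rw [fk_succ_ep car psi_smul psi_succ psi_ep, hx' k q' fun e => hq (by rw [e])]
        simp

theorem fk_ext {A : Type} [Fintype A] (b : A → V)
    {io : V →L[ℝ] F →L[ℂ] F} {psi : ∀ q, F →L[ℝ] Alt V q}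
    (anti : ∀ v w, io v * io w + io w * io v = 0)
    (psi_succ : ∀ q x v (w : Fin q → V), psi (q + 1) x (Fin.cons v w) = psi q (io v x) w)
    (h0 : ∀ x, (∀ k, io (b k) x = 0) → psi 0 x = 0 → x = 0) (x : F) (hx : ∀ q, psi q x = 0) :
    x = 0 := by
  classical
  suffices H : ∀ (s : Finset A) (x : F), (∀ k ∉ s, io (b k) x = 0) → (∀ q, psi q x = 0) → x = 0 from
    H Finset.univ x (fun k hk => absurd (Finset.mem_univ k) hk) hx
  intro s
  induction s using Finset.strongInduction with
  | H s ih =>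
    intro x hs hx
    refine h0 x (fun k => ?_) (hx 0)
    by_cases hk : k ∈ s
    · refine ih (s.erase k) (Finset.erase_ssubset hk) _ (fun j hj => ?_) fun q => ?_
      · by_cases hjk : j = k
        · rw [hjk]
          exact fk_sq (anti _ _) x
        · exact fk_anti (anti _ _) (hs j fun h => hj (Finset.mem_erase.2 ⟨hjk, h⟩))
      · ext w
        rw [← psi_succ, hx]
        rfl
    · exact hs k hk

theorem fk_of_car [FiniteDimensional ℂ F] {A : Type} [Fintype A] (b : OrthonormalBasis A ℝ V)
    (io ep : V →L[ℝ] F →L[ℂ] F) (adj : ∀ v x y, ⟪ep v x, y⟫_ℂ = ⟪x, io v y⟫_ℂ)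
    (car : ∀ v w, io v * ep w + ep w * io v = ((⟪v, w⟫_ℝ : ℝ) : ℂ) • 1)
    (anti : ∀ v w, io v * io w + io w * io v = 0) (vac : F) (h1 : ⟪vac, vac⟫_ℂ = 1)
    (h0 : ∀ v, io v vac = 0)
    (h2 : ∀ x, (∀ k, io (b k) x = 0) → ⟪vac, x⟫_ℂ = 0 → x = 0) : Nonempty (Fock V F) := by
  have psi_smul : ∀ q (c : ℂ) x, fkP anti vac q (c • x) = c • fkP anti vac q x := fun q c x => by
    ext w
    exact fkM_smul io vac q c x w
  have psi_succ : ∀ q x v (w : Fin q → V),
      fkP anti vac (q + 1) x (Fin.cons v w) = fkP anti vac q (io v x) w := fun _ _ _ _ => rfl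
  have psi_ep : ∀ v x, fkP anti vac 0 (ep v x) = 0 := fun v x => by
    ext w
    rw [fkP_apply, fkM_zero, ← inner_conj_symm, adj, h0]
    simp
  have ext := fk_ext b anti psi_succ fun x hx h => h2 x hx (DFunLike.congr_fun h ![])
  choose φ hφ hφ' using fk_surj b car psi_smul psi_succ psi_ep (vac := vac) (fun _ => h1) h0
  have uniq : ∀ q a x, fkP anti vac q x = a → (∀ q', q' ≠ q → fkP anti vac q' x = 0) →
      φ q a = x := fun q a x hx hx' => by
    refine sub_eq_zero.1 (ext _ fun q' => ?_)
    by_cases h : q' = q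
    · subst h
      rw [map_sub, hφ, hx, sub_self]
    · rw [map_sub, hφ' _ _ _ h, hx' _ h, sub_self]
  have fin : ∀ q, FiniteDimensional ℝ (Alt V q) := fun q =>
    Module.Finite.of_surjective (fkP anti vac q).toLinearMap fun a => ⟨φ q a, hφ q a⟩
  exact ⟨{
    io := io
    ep := ep
    psi := fkP anti vac
    phi := fun q => LinearMap.toContinuousLinearMap
      { toFun := φ q
        map_add' := fun a a' => uniq _ _ _ (by rw [map_add, hφ, hφ]) fun q' h => by
          rw [map_add, hφ' _ _ _ h, hφ' _ _ _ h, add_zero]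
        map_smul' := fun c a => uniq _ _ _ (by rw [map_smul, hφ]; rfl) fun q' h => by
          rw [map_smul, hφ' _ _ _ h]
          ext w
          simp }
    adj := adj
    car := car
    anti := anti
    psi_smul := psi_smul
    psi_succ := psi_succ
    psi_ep := psi_ep
    psi_phi := hφ
    psi_phi_ne := fun q q' a h => hφ' q a q' h
    ext := ext }⟩

theorem fk_of_fam [FiniteDimensional ℂ F] {A : Type} [Fintype A] [DecidableEq A]
    (b : OrthonormalBasis A ℝ V) (c e : A → F →L[ℂ] F)
    (adj : ∀ k x y, ⟪e k x, y⟫_ℂ = ⟪x, c k y⟫_ℂ) (h1 : ∀ i j, c i * c j + c j * c i = 0)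
    (h2 : ∀ i j, c i * e j + e j * c i = if i = j then 1 else 0) (vac : F)
    (hv : ⟪vac, vac⟫_ℂ = 1) (h3 : ∀ k, c k vac = 0)
    (h4 : ∀ x, (∀ k, c k x = 0) → ⟪vac, x⟫_ℂ = 0 → x = 0) : Nonempty (Fock V F) := by
  let L : (A → F →L[ℂ] F) → V →L[ℝ] F →L[ℂ] F :=
    fun c => ∑ k, (innerSL ℝ (b k)).smulRight (c k)
  have hL : ∀ c v, L c v = ∑ k, ((⟪b k, v⟫_ℝ : ℝ) : ℂ) • c k := fun c v => by
    simp only [L, sum_apply, ContinuousLinearMap.smulRight_apply, innerSL_apply_apply,
      Complex.coe_smul]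
  have hm : ∀ c c' v w, L c v * L c' w + L c' w * L c v = ∑ i, ∑ j,
      (((⟪b i, v⟫_ℝ : ℝ) : ℂ) * ((⟪b j, w⟫_ℝ : ℝ) : ℂ)) • (c i * c' j + c' j * c i) :=
    fun c c' v w => by
      rw [hL, hL, Finset.sum_mul_sum, Finset.sum_mul_sum, Finset.sum_comm (f := fun j i =>
        (_ • c' j) * (_ • c i)), ← Finset.sum_add_distrib]
      refine Finset.sum_congr rfl fun i _ => ?_
      rw [← Finset.sum_add_distrib]
      refine Finset.sum_congr rfl fun j _ => ?_
      rw [smul_add, smul_mul_smul_comm, smul_mul_smul_comm, mul_comm (((⟪b j, w⟫_ℝ : ℝ) : ℂ))]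
  refine fk_of_car b (L c) (L e) (fun v x y => ?_) (fun v w => ?_) (fun v w => ?_)
      vac hv (fun v => ?_) fun x hx => h4 x fun k => ?_
  · simp only [hL, sum_apply, smul_apply, sum_inner, inner_sum, inner_smul_left, inner_smul_right,
      Complex.conj_ofReal, adj]
  · rw [hm, ← b.sum_inner_mul_inner v w, Complex.ofReal_sum, Finset.sum_smul]
    refine Finset.sum_congr rfl fun i _ => ?_
    simp only [h2, smul_ite, smul_zero, Finset.sum_ite_eq, Finset.mem_univ, if_true]
    rw [real_inner_comm v, Complex.ofReal_mul]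
  · simp [hm, h1]
  · simp [hL, h3]
  · have h6 := hx k
    rw [hL] at h6
    simpa only [b.inner_eq_ite, apply_ite Complex.ofReal, Complex.ofReal_one, Complex.ofReal_zero,
      ite_smul, one_smul, zero_smul, Finset.sum_ite_eq', Finset.mem_univ, if_true] using h6

end gen

/-- the Jordan-Wigner matrices -/
theorem fk_mat (M : ℕ) : ∃ (n : Type) (_ : Fintype n) (_ : DecidableEq n)
    (c : Fin M → Matrix n n ℂ) (o : n), (∀ i j, c i * c j + c j * c i = 0) ∧
    (∀ i j, c i * (c j)ᴴ + (c j)ᴴ * c i = if i = j then 1 else 0) ∧ (∀ i k, c i k o = 0) ∧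
    ∀ x : n → ℂ, (∀ i, c i *ᵥ x = 0) → x o = 0 → x = 0 := by
  induction M with
  | zero =>
    refine ⟨Unit, inferInstance, inferInstance, Fin.elim0, (), fun i => i.elim0, fun i => i.elim0,
      fun i => i.elim0, fun x _ h => funext fun _ => h⟩
  | succ M ih =>
    obtain ⟨n, _, _, c, o, h1, h2, h3, h4⟩ := ih
    refine ⟨n ⊕ n, inferInstance, inferInstance, Fin.cons (Matrix.fromBlocks 0 1 0 0)
      fun i => Matrix.fromBlocks (c i) 0 0 (-c i), Sum.inl o, fun i j => ?_, fun i j => ?_,
      fun i k => ?_, fun x hx ho => ?_⟩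
    · induction i using Fin.cases <;> induction j using Fin.cases <;>
        simp [Matrix.fromBlocks_multiply, Matrix.fromBlocks_add, h1]
    · induction i using Fin.cases <;> induction j using Fin.cases <;>
        simp [Matrix.fromBlocks_multiply, Matrix.fromBlocks_add, h2,
          Matrix.fromBlocks_conjTranspose, (Fin.succ_ne_zero _).symm]
      split_ifs <;> simp
    · induction i using Fin.cases <;> rcases k with k | k <;> simp [h3]
    · have h5 := hx 0
      simp only [Fin.cons_zero, Matrix.fromBlocks_mulVec, Matrix.zero_mulVec, Matrix.one_mulVec,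
        zero_add] at h5
      have h6 : x ∘ Sum.inl = 0 := h4 _ (fun i => by
        have h7 := hx i.succ
        simp only [Fin.cons_succ, Matrix.fromBlocks_mulVec, Matrix.zero_mulVec, add_zero] at h7
        exact funext fun k => congrFun h7 (Sum.inl k)) ho
      funext k
      rcases k with k | k
      · exact congrFun h6 k
      · exact congrFun h5 (Sum.inl k)

theorem fk_exists (V : Type) [NormedAddCommGroup V] [InnerProductSpace ℝ V]
    [FiniteDimensional ℝ V] : ∃ (F : Type) (_ : NormedAddCommGroup F) (_ : InnerProductSpace ℂ F)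
      (_ : FiniteDimensional ℂ F), Nonempty (Fock V F) := by
  obtain ⟨n, _, _, c, o, h1, h2, h3, h4⟩ := fk_mat (Module.finrank ℝ V)
  set E := Matrix.toEuclideanCLM (n := n) (𝕜 := ℂ)
  refine ⟨EuclideanSpace ℂ n, inferInstance, inferInstance, inferInstance,
    fk_of_fam (stdOrthonormalBasis ℝ V) (fun k => E (c k)) (fun k => E (c k)ᴴ) (fun k x y => ?_)
      (fun i j => ?_) (fun i j => ?_) (EuclideanSpace.single o 1) (by simp) (fun k => ?_)
      fun x hx ho => ?_⟩
  · rw [← Matrix.star_eq_conjTranspose, map_star, ContinuousLinearMap.star_eq_adjoint,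
      ContinuousLinearMap.adjoint_inner_left]
  · rw [← map_mul, ← map_mul, ← map_add, h1, map_zero]
  · rw [← map_mul, ← map_mul, ← map_add, h2, apply_ite E, map_one, map_zero]
  · ext j
    simp [E, Matrix.ofLp_toEuclideanCLM, h3]
  · rw [EuclideanSpace.inner_single_left] at ho
    exact (WithLp.ofLp_eq_zero 2).1 (h4 _ (fun k => congrArg WithLp.ofLp (hx k)) (by simpa using ho))

end Pool.Agent.HT
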