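import Pool.Agent.P.MP_65ad7c_ag.HSPull

/-! Forms vanishing on a smooth retract. -/

open Set Filter Topology
open scoped ContDiff

noncomputable section
namespace Pool.Agent.HT
open Pool.Agent.Wein (Ret Tan)

lemma tan_univ {X : Type} [NormedAddCommGroup X] [NormedSpace ℝ X] (x v : X) : v ∈ Tan univ x :=
  ⟨fun t => x + t • v, by simp, by simp,
    by simpa using ((hasDerivAt_id (0 : ℝ)).smul_const v).const_add x⟩

variable {V : Type} [NormedAddCommGroup V] [InnerProductSpace ℝ V] {R : Ret V}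
  {J : V → V →L[ℝ] V} {m n : ℕ}

/-- local form of `nul_iff` -/
theorem nul_inter_iff (R : Ret V) {G : Set V} (hG : IsOpen G) {α : SF V n} :
    α ∈ Nul (R.S ∩ G) n ↔ ∀ x ∈ R.S ∩ G, ∀ v : Fin n → V, α.1 x (fun i => R.P x (v i)) = 0 := by
  refine ⟨fun h x hx v => ?_, fun h => mem_Nul.2 fun γ z hz => ?_⟩
  · have := mem_Nul.1 h R.r x (by
      filter_upwards [R.isOpen.mem_nhds (R.sub hx.1), R.smooth.continuous.continuousAt.eventually_mem
        (hG.mem_nhds ((R.fix x hx.1).symm ▸ hx.2))] with y h1 h2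
      exact ⟨R.smooth.contDiffAt, R.maps h1, h2⟩)
    have h2 := DFunLike.congr_fun this v
    rwa [pull_apply, R.fix x hx.1] at h2
  · ext v
    refine Eq.trans (congrArg (α.1 (γ z)) (funext fun i => ?_))
      (h _ hz.self_of_nhds.2 (fderiv ℝ γ z ∘ v))
    exact ((R.mem_tan hz.self_of_nhds.2.1 _).1 (Tan.map (tan_univ z (v i))
      (cda_diff hz.self_of_nhds.1) (hz.mono fun y hy _ => hy.2.1))).symm

theorem nul_iff (R : Ret V) {α : SF V n} :
    α ∈ Nul R.S n ↔ ∀ x ∈ R.S, ∀ v : Fin n → V, α.1 x (fun i => R.P x (v i)) = 0 := by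
  simpa only [inter_univ] using nul_inter_iff R isOpen_univ (α := α)

theorem IsKR.gamOK (h : IsKR R J m) : GamOK J R.S :=
  ⟨h.smooth, fun n α hα => (nul_iff R).2 fun x hx v => by
    rw [SF.gam_val, der_apply]
    refine Finset.sum_eq_zero fun i _ => Eq.trans (congrArg _ (funext fun j => ?_))
      ((nul_iff R).1 hα x hx (Function.update v i (J x (R.P x (v i)))))
    rcases eq_or_ne j i with rfl | hj <;> simp [h.inv x hx, *]⟩

end Pool.Agent.HT
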