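import Pool.Agent.P.MP_65ad7c_ag.HS3
import Pool.Agent.P.MP_65ad7c_ag.HNul

/-! The complex structure of projective space. -/

open Set Filter Topology Matrix
open scoped ContDiff ComplexConjugate InnerProductSpace

noncomputable section
namespace Pool.Agent.HT
open Pool.Agent.Wein (Ret Tan)

variable {N : ℕ}

/-- a point of the ambient space as a matrix -/
def amat (X : Amb N) : Matrix (Fin N) (Fin N) ℂ := Matrix.of fun i j => X (i, j)

lemma amat_inj {X Y : Amb N} (h : amat X = amat Y) : X = Y := by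
  ext p; exact congrFun (congrFun h p.1) p.2

lemma amat_JP (p X : Amb N) : amat (JP N p X) = Complex.I • (amat X * amat p - amat p * amat X) := by
  ext i j; simp [amat, JP_apply, Matrix.mul_apply, Finset.sum_sub_distrib]

lemma inner_amat (X Y : Amb N) : ⟪X, Y⟫_ℝ = ((amat X)ᴴ * amat Y).trace.re := by
  simp [amat, Matrix.trace, Matrix.mul_apply, PiLp.inner_apply, Fintype.sum_prod_type,
    Complex.inner, mul_comm]
  exact Finset.sum_comm

/-- `JP` is linear in the base point -/
def JL (N : ℕ) : Amb N →L[ℝ] Amb N →L[ℝ] Amb N :=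
  LinearMap.toContinuousLinearMap
    { toFun := JP N
      map_add' := fun p q => by
        ext X r
        simp only [_root_.add_apply, PiLp.add_apply, JP_apply, ← mul_add,
          ← Finset.sum_add_distrib]
        exact congrArg _ (Finset.sum_congr rfl fun k _ => by ring)
      map_smul' := fun c p => by
        ext X r
        simp only [_root_.smul_apply, PiLp.smul_apply, RingHom.id_apply, JP_apply,
          Complex.real_smul, Finset.mul_sum]
        exact Finset.sum_congr rfl fun k _ => by ring }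

theorem JP_smooth : ContDiff ℝ ∞ (JP N) := (JL N).contDiff

lemma fderiv_JP (p u : Amb N) : fderiv ℝ (JP N) p u = JP N u :=
  congrArg (· u) (JL N).fderiv

/-- projective space -/
def PP (N : ℕ) : Set (Amb N) := proj '' {v | v ≠ 0}

lemma amat_proj (u : Fin N → ℂ) :
    amat (proj u) = (∑ k, u k * conj (u k))⁻¹ • vecMulVec u (star u) := by
  ext i j; simp [amat, proj, vecMulVec_apply, div_eq_inv_mul]

lemma proj_mulVec {u : Fin N → ℂ} (hu : u ≠ 0) : amat (proj u) *ᵥ u = u := by
  rw [amat_proj, smul_mulVec, vecMulVec_mulVec, dotProduct_comm, op_smul_eq_smul, smul_smul]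
  exact (congrArg (· • u) (inv_mul_cancel₀ (sum_mul_conj_ne hu))).trans (one_smul _ _)

lemma PP.herm {p : Amb N} (h : p ∈ PP N) : (amat p)ᴴ = amat p := by
  obtain ⟨u, -, rfl⟩ := h
  ext i j; simp [amat, proj, mul_comm]

lemma PP.idem {p : Amb N} (h : p ∈ PP N) : amat p * amat p = amat p := by
  obtain ⟨u, hu, rfl⟩ := h
  conv_lhs => rw [amat_proj u, Matrix.mul_smul, ← amat_proj, mul_vecMulVec, proj_mulVec hu, ← amat_proj]

lemma hasDerivAt_entry {γ : ℝ → Amb N} {X : Amb N} (h : HasDerivAt γ X 0) (i j : Fin N) :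
    HasDerivAt (fun t => amat (γ t) i j) (amat X i j) 0 :=
  ((EuclideanSpace.proj (𝕜 := ℂ) (i, j)).restrictScalars ℝ).hasFDerivAt.comp_hasDerivAt 0 h

lemma PP.tan {p X : Amb N} (h : X ∈ Tan (PP N) p) :
    (amat X)ᴴ = amat X ∧ amat X * amat p + amat p * amat X = amat X := by
  obtain ⟨γ, rfl, h1, h2⟩ := h
  constructor <;> ext i j
  · exact (hasDerivAt_entry h2 j i).star.unique ((hasDerivAt_entry h2 i j).congr_of_eventuallyEq
      (h1.mono fun t ht => congrFun (congrFun (PP.herm ht) i) j))
  · have := (HasDerivAt.fun_sum (u := Finset.univ) fun k _ =>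
      (hasDerivAt_entry h2 i k).fun_mul (hasDerivAt_entry h2 k j)).unique
      ((hasDerivAt_entry h2 i j).congr_of_eventuallyEq
        (h1.mono fun t ht => congrFun (congrFun (PP.idem ht) i) j))
    rwa [Finset.sum_add_distrib] at this

lemma JP_proj {u : Fin N → ℂ} (hu : u ≠ 0) (a : Fin N → ℂ) :
    JP N (proj u) (fderiv ℝ proj u a) = fderiv ℝ proj u (Complex.I • a) := by
  have hd := cda_diff (proj_contDiffAt hu)
  have h1 : ∀ a, fderiv ℝ proj u a ∈ Tan (PP N) (proj u) := fun a => Tan.map (tan_univ u a) hd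
    ((isOpen_ne.eventually_mem hu).mono fun y hy _ => ⟨y, hy, rfl⟩)
  have h2 : ∀ a, amat (fderiv ℝ proj u a) *ᵥ u = a - amat (proj u) *ᵥ a := fun a => by
    have hl : HasDerivAt (fun t : ℝ => u + t • a) a 0 := by
      simpa using ((hasDerivAt_id (0 : ℝ)).smul_const a).const_add u
    have h3 := hd.hasFDerivAt.comp_hasDerivAt_of_eq 0 hl (by simp)
    ext i
    have := (HasDerivAt.fun_sum (u := Finset.univ) fun k _ =>
      (hasDerivAt_entry h3 i k).fun_mul (hasDerivAt_pi.1 hl k)).unique
      ((hasDerivAt_pi.1 hl i).congr_of_eventuallyEq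
        ((hl.continuousAt.eventually_ne (y := 0) (by simpa)).mono fun t ht =>
          congrFun (proj_mulVec ht) i))
    rw [Finset.sum_add_distrib, ← eq_sub_iff_add_eq] at this
    simpa [mulVec, dotProduct] using this
  have h3 : amat (fderiv ℝ proj u (Complex.I • a)) * amat (proj u) =
      Complex.I • (amat (fderiv ℝ proj u a) * amat (proj u)) := by
    rw [amat_proj, Matrix.mul_smul, Matrix.mul_smul, mul_vecMulVec, mul_vecMulVec, h2, h2,
      mulVec_smul, ← smul_sub, smul_vecMulVec, smul_comm]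
  have h4 := congrArg conjTranspose h3
  rw [conjTranspose_smul, conjTranspose_mul, conjTranspose_mul, (PP.tan (h1 _)).1,
    (PP.tan (h1 _)).1, PP.herm ⟨u, hu, rfl⟩] at h4
  refine amat_inj ?_
  rw [amat_JP, ← (PP.tan (h1 (Complex.I • a))).2, h3, h4, smul_sub]
  simp [sub_eq_add_neg]

/-- holomorphic maps to projective space commute with the complex structures -/
lemma JP_hol {e : ℕ} {g : (Fin e → ℂ) → Fin N → ℂ} {z : Fin e → ℂ} (hg : DifferentiableAt ℂ g z)
    (h0 : g z ≠ 0) (v : Fin e → ℂ) : JP N (proj (g z)) (fderiv ℝ (proj ∘ g) z v) =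
      fderiv ℝ (proj ∘ g) z (Complex.I • v) := by
  rw [((cda_diff (proj_contDiffAt h0)).hasFDerivAt.comp z
    (hg.hasFDerivAt.restrictScalars ℝ)).fderiv]
  simp [JP_proj h0]

lemma JP_skew {p : Amb N} (h : p ∈ PP N) (v w : Amb N) :
    ⟪JP N p v, w⟫_ℝ = -⟪v, JP N p w⟫_ℝ := by
  simp only [inner_amat, amat_JP, conjTranspose_smul, conjTranspose_sub, conjTranspose_mul, PP.herm h,
    Matrix.smul_mul, Matrix.mul_smul, trace_smul, Matrix.sub_mul, Matrix.mul_sub, trace_sub,
    Matrix.mul_assoc, trace_mul_comm (amat p)]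
  simp

lemma JP_par {p u v w : Amb N} (h : p ∈ PP N) (hu : u ∈ Tan (PP N) p) (hv : v ∈ Tan (PP N) p)
    (hw : w ∈ Tan (PP N) p) : ⟪JP N u v, w⟫_ℝ = 0 := by
  have key : ∀ {A B C : Matrix (Fin N) (Fin N) ℂ}, A * amat p + amat p * A = A →
      B * amat p + amat p * B = B → C * amat p + amat p * C = C → (A * B * C).trace = 0 := by
    intro A B C hA hB hC
    have a1 : amat p * (A * B) = A * B * amat p := by
      rw [← Matrix.mul_assoc, eq_sub_of_add_eq' hA, Matrix.mul_assoc, eq_sub_of_add_eq hB]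
      simp only [Matrix.sub_mul, Matrix.mul_sub, Matrix.mul_assoc]
    have a2 : amat p * C * amat p = 0 := by
      have := congrArg (amat p * ·) hC
      simpa [Matrix.mul_add, ← Matrix.mul_assoc, PP.idem h] using this
    have a3 : (A * B * (amat p * C)).trace = 0 := by
      rw [← PP.idem h, Matrix.mul_assoc (amat p), ← Matrix.mul_assoc, ← a1, Matrix.mul_assoc,
        trace_mul_comm, Matrix.mul_assoc, a2]
      simp
    rw [← hC, Matrix.mul_add, trace_add, a3, ← Matrix.mul_assoc, trace_mul_comm,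
      ← Matrix.mul_assoc, a1, Matrix.mul_assoc, a3, add_zero]
  simp only [inner_amat, amat_JP, conjTranspose_smul, conjTranspose_sub, conjTranspose_mul,
    (PP.tan hu).1, (PP.tan hv).1, Matrix.smul_mul, trace_smul, Matrix.sub_mul, trace_sub,
    key (PP.tan hu).2 (PP.tan hv).2 (PP.tan hw).2, key (PP.tan hv).2 (PP.tan hu).2 (PP.tan hw).2]
  simp

end Pool.Agent.HT
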