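import Pool.Agent.P.MP_65ad7c_ag.HKaeD

/-! Kaehler identities. -/

open MeasureTheory
open scoped ContDiff InnerProductSpace

noncomputable section
namespace Pool.Agent.HT
open Pool.Agent.Wein (Ret)

variable {V : Type} [NormedAddCommGroup V] [InnerProductSpace ℝ V]
  {F : Type} [NormedAddCommGroup F] [InnerProductSpace ℂ F] (Φ : Fock V F) (R : Ret V)
  {A : Type} [Fintype A] (b : OrthonormalBasis A ℝ V) {J T T' : V → V →L[ℝ] V} {m : ℕ}

/-- reindexing a contraction -/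
theorem sum_reindex {G : Type} [AddCommGroup G] [Module ℝ G] (B : V →ₗ[ℝ] V →ₗ[ℝ] G)
    {M M' : V →L[ℝ] V} (h : ∀ v w, ⟪M v, w⟫_ℝ = ⟪v, M' w⟫_ℝ) :
    ∑ a, B (b a) (M (b a)) = ∑ a, B (M' (b a)) (b a) := by
  have h1 : ∀ a, B (b a) (M (b a)) = ∑ c, ⟪b a, M' (b c)⟫_ℝ • B (b a) (b c) := fun a => by
    conv_lhs => rw [← b.sum_repr' (M (b a))]
    simp only [map_sum, map_smul, ← h, real_inner_comm]
  have h2 : ∀ c, B (M' (b c)) (b c) = ∑ a, ⟪b a, M' (b c)⟫_ℝ • B (b a) (b c) := fun c => by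
    conv_lhs => rw [← b.sum_repr' (M' (b c))]
    simp only [map_sum, map_smul, LinearMap.sum_apply, LinearMap.smul_apply]
  simp only [h1, h2]
  exact Finset.sum_comm

theorem IsKR.Jt_skew (h : IsKR R J m) {x : V} (hx : x ∈ R.S) (v w : V) :
    ⟪Jt R J x v, w⟫_ℝ = ⟪v, (-Jt R J x) w⟫_ℝ := by
  change ⟪J x (R.P x v), w⟫_ℝ = ⟪v, -J x (R.P x w)⟫_ℝ
  rw [← h.inv x hx v, R.P_symm hx, h.skew x hx, inner_neg_right, ← h.inv x hx w, ← R.P_symm hx,
    ← R.P_symm hx, R.P_idem hx]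

theorem IsKR.Jt_sq (h : IsKR R J m) {x : V} (hx : x ∈ R.S) (v : V) :
    Jt R J x (Jt R J x v) = -R.P x v := by
  change J x (R.P x (J x (R.P x v))) = _
  rw [h.inv x hx, h.sq x hx]

theorem Kc_smooth (v : V) : ContDiff ℝ ∞ (Kc R v) :=
  ((R.P_smooth.const_smul (2 : ℝ)).sub contDiff_const).mul
    ((R.P_smooth.fderiv_right (m := ∞) (by simp)).clm_apply (R.P_smooth.clm_apply contDiff_const))

theorem hka1_PP {x : V} (hx : x ∈ R.S) : R.P x * R.P x = R.P x := by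
  ext v; exact R.P_idem hx v

/-- differentiating an identity `M = M₁ M₂` that holds on `S` -/
theorem hka1_diff {x : V} (hx : x ∈ R.S) (v : V) {M M₁ M₂ : V → V →L[ℝ] V} (h : ContDiff ℝ ∞ M)
    (h₁ : ContDiff ℝ ∞ M₁) (h₂ : ContDiff ℝ ∞ M₂) (he : ∀ y ∈ R.S, M₁ y * M₂ y = M y) :
    fderiv ℝ M x (R.P x v) =
      M₁ x * fderiv ℝ M₂ x (R.P x v) + fderiv ℝ M₁ x (R.P x v) * M₂ x := by
  have d₁ := h₁.differentiable (by simp) x
  have d₂ := h₂.differentiable (by simp) x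
  rw [← Pool.Agent.Wein.Tan.fderiv_congr ((R.mem_tan hx _).2 (R.P_idem hx v)) (d₁.mul d₂)
    (h.differentiable (by simp) x) (Filter.Eventually.of_forall he), fderiv_mul' d₁ d₂]
  simp

theorem hka1_DP {x : V} (hx : x ∈ R.S) (v : V) : fderiv ℝ R.P x (R.P x v) =
    R.P x * fderiv ℝ R.P x (R.P x v) + fderiv ℝ R.P x (R.P x v) * R.P x :=
  hka1_diff R hx v R.P_smooth R.P_smooth R.P_smooth fun _ hy => hka1_PP R hy

theorem hka1_PDP {x : V} (hx : x ∈ R.S) (v : V) :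
    R.P x * fderiv ℝ R.P x (R.P x v) * R.P x = 0 := by
  ext w; exact R.P_DP hx (R.P_idem hx v) (R.P_idem hx w)

theorem hka1_K {x : V} (hx : x ∈ R.S) (v : V) : Kc R v x =
    R.P x * fderiv ℝ R.P x (R.P x v) - fderiv ℝ R.P x (R.P x v) * R.P x := by
  have := hka1_DP R hx v
  rw [Kc, two_smul]
  linear_combination (norm := noncomm_ring) -this

theorem Kc_skew (v : V) {x : V} (hx : x ∈ R.S) (u w : V) :
    ⟪Kc R v x u, w⟫_ℝ = -⟪u, Kc R v x w⟫_ℝ := by
  simp only [hka1_K R hx, sub_apply, mul_apply_eq_comp,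
    inner_sub_left, inner_sub_right, R.P_symm hx, R.DP_symm hx (R.P_idem hx v), neg_sub]

/-- `K` sends tangent vectors to normal vectors -/
theorem P_Kc_P (v : V) {x : V} (hx : x ∈ R.S) : R.P x * Kc R v x * R.P x = 0 := by
  have h1 := hka1_PDP R hx v
  rw [hka1_K R hx, mul_sub, sub_mul, ← mul_assoc, ← mul_assoc, hka1_PP R hx, h1, zero_mul, sub_zero]

/-- only the tangential block of the derivative has to vanish -/
theorem hka1_par (hs : ContDiff ℝ ∞ T) (hl : ∀ x ∈ R.S, R.P x * T x = T x)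
    (hr : ∀ x ∈ R.S, T x * R.P x = T x)
    (hp : ∀ x ∈ R.S, ∀ v, R.P x * fderiv ℝ T x (R.P x v) * R.P x = 0) : IsPar R T := by
  refine ⟨hs, hl, hr, fun x hx v => ?_⟩
  have h1 := hka1_diff R hx v hs R.P_smooth hs hl
  have h2 := hka1_diff R hx v hs hs R.P_smooth hr
  have h3 := hka1_PDP R hx v
  have h4 := hp x hx v
  have h5 := hl x hx
  have h6 := hr x hx
  rw [hka1_K R hx]
  generalize fderiv ℝ T x (R.P x v) = dT at *
  generalize fderiv ℝ R.P x (R.P x v) = dP at *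
  generalize R.P x = p at *
  generalize T x = t at *
  have e1 : p * dP * t = 0 := by rw [← h5, ← mul_assoc, h3, zero_mul]
  have e2 : t * (dP * p) = 0 := by rw [← h6, mul_assoc, ← mul_assoc p, h3, mul_zero]
  have e3 : dP * p * t = dP * t := by rw [mul_assoc, h5]
  have e4 : t * (p * dP) = t * dP := by rw [← mul_assoc, h6]
  have e5 : dT * p = dP * t := by
    rw [h1, add_mul, h4, zero_add, mul_assoc, h6]
  rw [sub_mul, mul_sub, e1, e2, e3, e4, ← e5]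
  linear_combination (norm := noncomm_ring) h2

theorem isPar_P : IsPar R R.P :=
  hka1_par R R.P_smooth (fun _ hx => hka1_PP R hx) (fun _ hx => hka1_PP R hx)
    fun _ hx v => hka1_PDP R hx v

theorem IsKR.isPar (h : IsKR R J m) : IsPar R (Jt R J) := by
  have hs : ContDiff ℝ ∞ (Jt R J) := h.smooth.mul R.P_smooth
  refine hka1_par R hs (fun x hx => by ext v; exact h.inv x hx v)
    (fun x hx => by rw [Jt, mul_assoc, hka1_PP R hx]) fun x hx v => ?_
  rw [hka1_diff R hx v hs h.smooth R.P_smooth fun _ _ => rfl]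
  ext w
  have h1 := h.par x hx v w
  have h2 : R.P x (J x (fderiv ℝ R.P x (R.P x v) (R.P x w))) = 0 := by
    refine ext_inner_right ℝ fun z => ?_
    rw [R.P_symm hx, h.skew x hx, inner_zero_left, neg_eq_zero]
    exact R.DP_normal hx (R.P_idem hx v) (R.P_idem hx w) (h.inv x hx z)
  simp [h1, h2, R.P_idem hx]

theorem hka1_nab (v : V) {M : V → F →L[ℂ] F} (hM : ContDiff ℝ ∞ M) :
    nab Φ R b v * Sec.mul R.S M - Sec.mul R.S M * nab Φ R b v = Sec.mul R.S fun x =>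
      fderiv ℝ M x (R.P x v) - (Φ.dG b (Kc R v x) * M x - M x * Φ.dG b (Kc R v x)) := by
  have hK := Φ.dG_smooth b (Kc_smooth R v)
  rw [Sec.mul_sub' ((hM.fderiv_right (m := ∞) (by simp)).clm_apply
    (R.P_smooth.clm_apply contDiff_const)) ((hK.mul hM).sub (hM.mul hK)),
    Sec.mul_sub' (hK.mul hM) (hM.mul hK), Sec.mul_mul' hK hM, Sec.mul_mul' hM hK, nab, sub_mul,
    mul_sub, Sec.pd_mul R v hM]
  abel

theorem hka1_fd {G : Type} [NormedAddCommGroup G] [NormedSpace ℝ G] (L : G →L[ℝ] F →L[ℂ] F)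
    {w : V → G} (hw : ContDiff ℝ ∞ w) (x u : V) :
    fderiv ℝ (fun x => L (w x)) x u = L (fderiv ℝ w x u) := by
  exact DFunLike.congr_fun
    (L.hasFDerivAt.comp x (hw.differentiable (by simp) x).hasFDerivAt).fderiv u

theorem hka1_sm (v : V) {w : V → V} (hw : ContDiff ℝ ∞ w) :
    ContDiff ℝ ∞ fun x => fderiv ℝ w x (R.P x v) + Kc R v x (w x) :=
  ((hw.fderiv_right (m := ∞) (by simp)).clm_apply (R.P_smooth.clm_apply contDiff_const)).add
    ((Kc_smooth R v).clm_apply hw)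

theorem hka1_sm' (v : V) {M : V → F →L[ℂ] F} (hM : ContDiff ℝ ∞ M) : ContDiff ℝ ∞ fun x =>
    fderiv ℝ M x (R.P x v) - (Φ.dG b (Kc R v x) * M x - M x * Φ.dG b (Kc R v x)) :=
  have hK := Φ.dG_smooth b (Kc_smooth R v)
  ((hM.fderiv_right (m := ∞) (by simp)).clm_apply (R.P_smooth.clm_apply contDiff_const)).sub
    ((hK.mul hM).sub (hM.mul hK))

theorem nab_ep (v : V) {w : V → V} (hw : ContDiff ℝ ∞ w) :
    nab Φ R b v * Sec.mul R.S (fun x => Φ.ep (w x)) - Sec.mul R.S (fun x => Φ.ep (w x)) * nab Φ R b v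
      = Sec.mul R.S fun x => Φ.ep (fderiv ℝ w x (R.P x v) + Kc R v x (w x)) := by
  have h : ContDiff ℝ ∞ fun x => Φ.ep (w x) := Φ.ep.contDiff.comp hw
  rw [hka1_nab Φ R b v h]
  refine Sec.mul_congr (hka1_sm' Φ R b v h) (Φ.ep.contDiff.comp (hka1_sm R v hw)) fun x hx => ?_
  rw [hka1_fd _ hw, Φ.dG_ep b (M' := -Kc R v x) fun u z => by simp [Kc_skew R v hx]]
  simp

theorem nab_io (v : V) {w : V → V} (hw : ContDiff ℝ ∞ w) :
    nab Φ R b v * Sec.mul R.S (fun x => Φ.io (w x)) - Sec.mul R.S (fun x => Φ.io (w x)) * nab Φ R b v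
      = Sec.mul R.S fun x => Φ.io (fderiv ℝ w x (R.P x v) + Kc R v x (w x)) := by
  have h : ContDiff ℝ ∞ fun x => Φ.io (w x) := Φ.io.contDiff.comp hw
  rw [hka1_nab Φ R b v h]
  refine Sec.mul_congr (hka1_sm' Φ R b v h) (Φ.io.contDiff.comp (hka1_sm R v hw)) fun x hx => ?_
  rw [hka1_fd _ hw, Φ.dG_io b]
  simp

/-- second quantisation as a linear map -/
def hka1_dGL : (V →L[ℝ] V) →L[ℝ] F →L[ℂ] F :=
  ∑ a, ((ContinuousLinearMap.mul ℝ (F →L[ℂ] F)) (Φ.ep (b a))).comp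
    (Φ.io.comp (ContinuousLinearMap.apply ℝ V (b a)))

theorem hka1_dGL_apply (M : V →L[ℝ] V) : hka1_dGL Φ b M = Φ.dG b M := by
  simp [hka1_dGL, Fock.dG]

theorem hka1_nab_mG (hs : ContDiff ℝ ∞ T) (v : V)
    (hp : ∀ x ∈ R.S, fderiv ℝ T x (R.P x v) + (Kc R v x * T x - T x * Kc R v x) = 0) :
    nab Φ R b v * mG Φ R b T = mG Φ R b T * nab Φ R b v := by
  rw [← sub_eq_zero, mG, hka1_nab Φ R b v (Φ.dG_smooth b hs)]
  refine Sec.mul_zero' fun x hx => ?_
  rw [Φ.dG_comm b]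
  simp only [← hka1_dGL_apply, hka1_fd _ hs]
  rw [← map_sub, ← map_zero (hka1_dGL Φ b), ← hp x hx]
  congr 1
  abel

theorem nab_mG (hT : IsPar R T) (v : V) : nab Φ R b v * mG Φ R b T = mG Φ R b T * nab Φ R b v :=
  hka1_nab_mG Φ R b hT.smooth v fun x hx => hT.par x hx v

theorem nab_nN (v : V) : nab Φ R b v * nN Φ R b = nN Φ R b * nab Φ R b v := by
  refine hka1_nab_mG Φ R b (contDiff_const.sub R.P_smooth) v fun x hx => ?_
  have := (isPar_P R).par x hx v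
  rw [fderiv_const_sub, neg_apply]
  linear_combination (norm := noncomm_ring) -this

theorem hka1_nN_mul {M : V → F →L[ℂ] F} (hM : ContDiff ℝ ∞ M)
    (h : ∀ x ∈ R.S, Φ.dG b (1 - R.P x) * M x - M x * Φ.dG b (1 - R.P x) = 0) :
    nN Φ R b * Sec.mul R.S M = Sec.mul R.S M * nN Φ R b := by
  have hQ := Φ.dG_smooth b (contDiff_const.sub R.P_smooth : ContDiff ℝ ∞ fun x => 1 - R.P x)
  rw [nN, mG, ← Sec.mul_mul' hQ hM, ← Sec.mul_mul' hM hQ]
  exact Sec.mul_congr (hQ.mul hM) (hM.mul hQ) fun x hx => sub_eq_zero.1 (h x hx)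

theorem hka1_Q_symm {x : V} (hx : x ∈ R.S) (v w : V) :
    ⟪(1 - R.P x) v, w⟫_ℝ = ⟪v, (1 - R.P x) w⟫_ℝ := by
  simp [inner_sub_left, inner_sub_right, R.P_symm hx]

theorem hka1_QT (hT : IsPar R T) {x : V} (hx : x ∈ R.S) (v : V) : (1 - R.P x) (T x v) = 0 := by
  have := DFunLike.congr_fun (hT.left x hx) v
  simp only [mul_apply_eq_comp] at this
  simp [this]

theorem nN_dT (hT : IsPar R T) : nN Φ R b * dT Φ R b T = dT Φ R b T * nN Φ R b := by
  rw [dT, Finset.mul_sum, Finset.sum_mul]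
  refine Finset.sum_congr rfl fun a _ => ?_
  rw [← mul_assoc, hka1_nN_mul Φ R b (M := fun x => Φ.ep (T x (b a)))
    (Φ.ep.contDiff.comp (hT.smooth.clm_apply contDiff_const)) fun x hx => by
      rw [Φ.dG_ep b (hka1_Q_symm R hx), hka1_QT R hT hx, map_zero], mul_assoc, ← nab_nN, mul_assoc]

theorem hka1_neg {X Y : Module.End ℂ (Sec R.S F)} (h : X * Y = Y * X) : X * -Y = -Y * X :=
  (mul_neg X Y).trans ((congrArg Neg.neg h).trans (neg_mul Y X).symm)

theorem nN_sT (hT : IsPar R T) : nN Φ R b * sT Φ R b T = sT Φ R b T * nN Φ R b := by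
  refine hka1_neg R ?_
  rw [Finset.mul_sum, Finset.sum_mul]
  refine Finset.sum_congr rfl fun a _ => ?_
  rw [← mul_assoc, hka1_nN_mul Φ R b (M := fun x => Φ.io (T x (b a)))
    (Φ.io.contDiff.comp (hT.smooth.clm_apply contDiff_const)) fun x hx => by
      rw [Φ.dG_io b, hka1_QT R hT hx, map_zero, neg_zero], mul_assoc, ← nab_nN, mul_assoc]

theorem nN_mG (hT : IsPar R T) : nN Φ R b * mG Φ R b T = mG Φ R b T * nN Φ R b := by
  refine hka1_nN_mul Φ R b (Φ.dG_smooth b hT.smooth) fun x hx => ?_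
  rw [Φ.dG_comm b, mul_sub, sub_mul, hT.left x hx, hT.right x hx, mul_one, one_mul, sub_self,
    ← hka1_dGL_apply, map_zero]

end Pool.Agent.HT
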