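import Pool.Agent.P.MP_65ad7c_ag.HKa1

/-! Kaehler identities. -/

open MeasureTheory
open scoped ContDiff InnerProductSpace

noncomputable section
namespace Pool.Agent.HT
open Pool.Agent.Wein (Ret)

variable {V : Type} [NormedAddCommGroup V] [InnerProductSpace ℝ V]
  {F : Type} [NormedAddCommGroup F] [InnerProductSpace ℂ F] (Φ : Fock V F) (R : Ret V)
  {A : Type} [Fintype A] (b : OrthonormalBasis A ℝ V) {J T T' : V → V →L[ℝ] V} {m : ℕ}

theorem hka2_comm {E : Type} [Ring E] (G : E) (e e' n : A → E) (h1 : ∀ a, n a * G = G * n a)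
    (h2 : ∀ a, G * e a - e a * G = e' a) :
    G * ∑ a, e a * n a - (∑ a, e a * n a) * G = ∑ a, e' a * n a := by
  rw [Finset.mul_sum, Finset.sum_mul, ← Finset.sum_sub_distrib]
  refine Finset.sum_congr rfl fun a _ => ?_
  rw [← h2, mul_assoc (e a), h1]
  noncomm_ring

theorem hka2_comm' {E : Type} [Ring E] (G : E) (e e' n : A → E) (h1 : ∀ a, n a * G = G * n a)
    (h2 : ∀ a, G * e a - e a * G = -e' a) :
    G * ∑ a, e a * n a - (∑ a, e a * n a) * G = -∑ a, e' a * n a := by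
  rw [hka2_comm G e (fun a => -e' a) n h1 h2, ← Finset.sum_neg_distrib]
  simp only [neg_mul]

theorem hka2_mul {S : Set V} {M M' N : V → F →L[ℂ] F} (h : ContDiff ℝ ∞ M) (h' : ContDiff ℝ ∞ M')
    (hN : ContDiff ℝ ∞ N) (e : ∀ x ∈ S, M x * M' x - M' x * M x = N x) :
    Sec.mul S M * Sec.mul S M' - Sec.mul S M' * Sec.mul S M = Sec.mul S N := by
  rw [← Sec.mul_mul' h h', ← Sec.mul_mul' h' h, ← Sec.mul_sub' (h.mul h') (h'.mul h)]
  exact Sec.mul_congr ((h.mul h').sub (h'.mul h)) hN e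

theorem hka2_ep (hT : ContDiff ℝ ∞ T) (v : V) : ContDiff ℝ ∞ fun x => Φ.ep (T x v) :=
  Φ.ep.contDiff.comp (hT.clm_apply contDiff_const)

theorem hka2_io (hT : ContDiff ℝ ∞ T) (v : V) : ContDiff ℝ ∞ fun x => Φ.io (T x v) :=
  Φ.io.contDiff.comp (hT.clm_apply contDiff_const)

theorem hka2_JP (h : IsKR R J m) {x : V} (hx : x ∈ R.S) (v : V) :
    Jt R J x (R.P x v) = Jt R J x v :=
  congrArg (fun M : V →L[ℝ] V => M v) ((IsKR.isPar R h).right x hx)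

/-- `[Γ, d] = - ∑ ε(J b_a) ∇_a` -/
theorem IsKR.gam_d (h : IsKR R J m) :
    mG Φ R b (Jt R J) * dT Φ R b R.P - dT Φ R b R.P * mG Φ R b (Jt R J) = -dT Φ R b (Jt R J) := by
  have hJ := IsKR.isPar R h
  refine hka2_comm' _ _ _ _ (fun a => nab_mG Φ R b hJ _) fun a => ?_
  rw [← Sec.mul_neg']
  refine hka2_mul (Φ.dG_smooth b hJ.smooth) (hka2_ep Φ R.P_smooth _)
    (hka2_ep Φ hJ.smooth _).neg fun x hx => ?_
  rw [Φ.dG_ep b (IsKR.Jt_skew R h hx), neg_apply, hka2_JP R h hx, map_neg]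

theorem IsKR.gam_dc (h : IsKR R J m) :
    mG Φ R b (Jt R J) * dT Φ R b (Jt R J) - dT Φ R b (Jt R J) * mG Φ R b (Jt R J) =
      dT Φ R b R.P := by
  have hJ := IsKR.isPar R h
  refine hka2_comm _ _ _ _ (fun a => nab_mG Φ R b hJ _) fun a => ?_
  refine hka2_mul (Φ.dG_smooth b hJ.smooth) (hka2_ep Φ hJ.smooth _)
    (hka2_ep Φ R.P_smooth _) fun x hx => ?_
  rw [Φ.dG_ep b (IsKR.Jt_skew R h hx), neg_apply, IsKR.Jt_sq R h hx, neg_neg]

/-- contraction with the bilinear form of an endomorphism -/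
def hka2L : (V →L[ℝ] V) →L[ℝ] F →L[ℂ] F :=
  ∑ c, ((ContinuousLinearMap.mul ℝ (F →L[ℂ] F)).flip (Φ.io (b c))).comp
    (Φ.io.comp (ContinuousLinearMap.apply ℝ V (b c)))

theorem hka2L_apply (M : V →L[ℝ] V) : hka2L Φ b M = ∑ c, Φ.io (M (b c)) * Φ.io (b c) := by
  simp [hka2L]

theorem hka2L_dG {K K' : V →L[ℝ] V} (h : ∀ v w, ⟪K v, w⟫_ℝ = ⟪v, K' w⟫_ℝ) (M : V →L[ℝ] V) :
    Φ.dG b K * hka2L Φ b M - hka2L Φ b M * Φ.dG b K = -hka2L Φ b (K * M + M * K') := by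
  have h1 : ∑ a, Φ.io (M (b a)) * Φ.io (K (b a)) = ∑ a, Φ.io (M (K' (b a))) * Φ.io (b a) :=
    sum_reindex b (((ContinuousLinearMap.mul ℝ (F →L[ℂ] F)).bilinearComp
      (Φ.io.comp M) Φ.io).toLinearMap₁₂) h
  rw [map_add, hka2L_apply, hka2L_apply, hka2L_apply]
  simp only [mul_apply_eq_comp]
  rw [← h1, ← Finset.sum_add_distrib, ← Finset.sum_neg_distrib, Finset.mul_sum, Finset.sum_mul,
    ← Finset.sum_sub_distrib]
  refine Finset.sum_congr rfl fun c _ => ?_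
  rw [← neg_neg (Φ.io (K (M (b c)))), ← neg_neg (Φ.io (K (b c))), ← Φ.dG_io b K, ← Φ.dG_io b K]
  noncomm_ring

theorem hka2_sum (L : V →L[ℝ] F →L[ℂ] F) (z : V) :
    ∑ c, ((⟪b c, z⟫_ℝ : ℝ) : ℂ) • L (b c) = L z := by
  conv_rhs => rw [← b.sum_repr' z, map_sum]
  refine Finset.sum_congr rfl fun c _ => ?_
  rw [map_smul, Complex.coe_smul]

theorem hka2L_ep {M : V →L[ℝ] V} (h : ∀ v w, ⟪M v, w⟫_ℝ = ⟪v, (-M) w⟫_ℝ) (z : V) :
    hka2L Φ b M * Φ.ep z - Φ.ep z * hka2L Φ b M = (2 : ℂ) • Φ.io (M z) := by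
  have h1 : ∀ u v, Φ.io u * Φ.io v * Φ.ep z - Φ.ep z * (Φ.io u * Φ.io v) =
      ((⟪v, z⟫_ℝ : ℝ) : ℂ) • Φ.io u - ((⟪u, z⟫_ℝ : ℝ) : ℂ) • Φ.io v := by
    intro u v
    have e1 : ((⟪v, z⟫_ℝ : ℝ) : ℂ) • Φ.io u = Φ.io u * (Φ.io v * Φ.ep z + Φ.ep z * Φ.io v) := by
      rw [Φ.car, mul_smul_comm, mul_one]
    have e2 : ((⟪u, z⟫_ℝ : ℝ) : ℂ) • Φ.io v = (Φ.io u * Φ.ep z + Φ.ep z * Φ.io u) * Φ.io v := by
      rw [Φ.car, smul_mul_assoc, one_mul]
    rw [e1, e2]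
    noncomm_ring
  rw [hka2L_apply, Finset.mul_sum, Finset.sum_mul, ← Finset.sum_sub_distrib]
  simp only [h1, h]
  have e3 := hka2_sum b (Φ.io.comp M) z
  simp only [ContinuousLinearMap.comp_apply] at e3
  rw [Finset.sum_sub_distrib, e3, hka2_sum b Φ.io, neg_apply, map_neg,
    sub_neg_eq_add, two_smul]

theorem hka2_nab (hT : IsPar R T) (v : V) :
    nab Φ R b v * Sec.mul R.S (fun x => hka2L Φ b (T x)) =
      Sec.mul R.S (fun x => hka2L Φ b (T x)) * nab Φ R b v := by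
  have hL : ContDiff ℝ ∞ fun x => hka2L Φ b (T x) := (hka2L Φ b).contDiff.comp hT.smooth
  have hD : ContDiff ℝ ∞ fun x => fderiv ℝ (fun x => hka2L Φ b (T x)) x (R.P x v) :=
    (hL.fderiv_right (m := ∞) (by simp)).clm_apply (R.P_smooth.clm_apply contDiff_const)
  have h1 := hka2_mul (S := R.S) (Φ.dG_smooth b (Kc_smooth R v)) hL hD fun x hx => by
    have e1 : fderiv ℝ (fun x => hka2L Φ b (T x)) x (R.P x v) =
        hka2L Φ b (fderiv ℝ T x (R.P x v)) := by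
      have := (hka2L Φ b).hasFDerivAt.comp x (hT.smooth.differentiable (by simp) x).hasFDerivAt
      exact congrArg (fun D : V →L[ℝ] F →L[ℂ] F => D (R.P x v)) this.fderiv
    rw [hka2L_dG Φ b (K' := -Kc R v x) fun u w => by
      rw [Kc_skew R v hx, neg_apply, inner_neg_right], e1, ← map_neg,
      eq_neg_of_add_eq_zero_left (hT.par x hx v), mul_neg, sub_eq_add_neg]
  rw [nab, sub_mul, mul_sub, Sec.pd_mul R v hL, ← h1]
  abel

/-- the operator `Λ` -/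
theorem IsKR.exists_lam (h : IsKR R J m) : ∃ Λ : Module.End ℂ (Sec R.S F),
    nN Φ R b * Λ = Λ * nN Φ R b ∧
    Λ * dT Φ R b R.P - dT Φ R b R.P * Λ = -sT Φ R b (Jt R J) ∧
    Λ * dT Φ R b (Jt R J) - dT Φ R b (Jt R J) * Λ = sT Φ R b R.P := by
  have hJ := IsKR.isPar R h
  have hL : ContDiff ℝ ∞ fun x => hka2L Φ b (Jt R J x) := (hka2L Φ b).contDiff.comp hJ.smooth
  have hL' : ContDiff ℝ ∞ fun x => (2⁻¹ : ℂ) • hka2L Φ b (Jt R J x) := hL.const_smul _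
  have hn : ∀ a, nab Φ R b (b a) * Sec.mul R.S (fun x => (2⁻¹ : ℂ) • hka2L Φ b (Jt R J x)) =
      Sec.mul R.S (fun x => (2⁻¹ : ℂ) • hka2L Φ b (Jt R J x)) * nab Φ R b (b a) := fun a => by
    rw [Sec.mul_smul' _ hL, mul_smul_comm, smul_mul_assoc, hka2_nab Φ R b hJ]
  have he : ∀ x ∈ R.S, ∀ z, (2⁻¹ : ℂ) • hka2L Φ b (Jt R J x) * Φ.ep z -
      Φ.ep z * (2⁻¹ : ℂ) • hka2L Φ b (Jt R J x) = Φ.io (Jt R J x z) := fun x hx z => by
    rw [smul_mul_assoc, mul_smul_comm, ← smul_sub, hka2L_ep Φ b (IsKR.Jt_skew R h hx), smul_smul,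
      inv_mul_cancel₀ two_ne_zero, one_smul]
  refine ⟨Sec.mul R.S fun x => (2⁻¹ : ℂ) • hka2L Φ b (Jt R J x), ?_, ?_, ?_⟩
  · rw [← sub_eq_zero, ← Sec.mul_zero' (S := R.S) (M := fun _ => (0 : F →L[ℂ] F)) fun _ _ => rfl]
    refine hka2_mul (Φ.dG_smooth b (contDiff_const.sub R.P_smooth)) hL' contDiff_const
      fun x hx => ?_
    rw [smul_mul_assoc, mul_smul_comm, ← smul_sub, hka2L_dG Φ b (K' := 1 - R.P x) fun u w => by
      simp only [sub_apply, one_apply_eq_self, inner_sub_left,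
        inner_sub_right, R.P_symm hx], sub_mul, mul_sub, hJ.left x hx, hJ.right x hx]
    simp
  · rw [sT, neg_neg]
    refine hka2_comm _ _ _ _ hn fun a => ?_
    refine hka2_mul hL' (hka2_ep Φ R.P_smooth _) (hka2_io Φ hJ.smooth _) fun x hx => ?_
    rw [he x hx, hka2_JP R h hx]
  · refine hka2_comm' _ _ _ _ hn fun a => ?_
    rw [← Sec.mul_neg']
    refine hka2_mul hL' (hka2_ep Φ hJ.smooth _) (hka2_io Φ R.P_smooth _).neg fun x hx => ?_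
    rw [he x hx, IsKR.Jt_sq R h hx, map_neg]

end Pool.Agent.HT
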