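import Pool.Agent.P.MP_65ad7c_ag.HSec
import Pool.Agent.P.MP_e3ee0c_gt.WIF

/-! Globally smooth charts of a compact retract. -/

open Set Filter Topology
open scoped ContDiff InnerProductSpace

noncomputable section
namespace Pool.Agent.HT
open Pool.Agent.Wein (Ret inverse_compact exists_bump contDiff_smul_cut)

variable {V : Type} [NormedAddCommGroup V] [InnerProductSpace ℝ V] [FiniteDimensional ℝ V] {m : ℕ}

/-- an idempotent of rank `m` factors through the model space -/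
theorem exists_factor (P : V →L[ℝ] V) (hP : ∀ v, P (P v) = P v)
    (hr : Module.finrank ℝ (LinearMap.range (P : V →ₗ[ℝ] V)) = m) :
    ∃ (i : EE m →L[ℝ] V) (p : V →L[ℝ] EE m), (∀ y, p (i y) = y) ∧ (∀ v, i (p v) = P v) ∧
      ∀ y, P (i y) = i y := by
  let e : LinearMap.range (P : V →ₗ[ℝ] V) ≃ₗ[ℝ] EE m :=
    LinearEquiv.ofFinrankEq _ _ (by rw [hr]; simp)
  have h3 : ∀ t : LinearMap.range (P : V →ₗ[ℝ] V), P (t : V) = t := by
    rintro ⟨_, v, rfl⟩
    exact hP v
  refine ⟨LinearMap.toContinuousLinearMap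
      ((LinearMap.range (P : V →ₗ[ℝ] V)).subtype ∘ₗ e.symm.toLinearMap),
    LinearMap.toContinuousLinearMap (e.toLinearMap ∘ₗ (P : V →ₗ[ℝ] V).rangeRestrict),
    fun y => ?_, fun v => ?_, fun y => h3 _⟩
  · show e ((P : V →ₗ[ℝ] V).rangeRestrict (e.symm y : V)) = y
    have : (P : V →ₗ[ℝ] V).rangeRestrict (e.symm y : V) = e.symm y := Subtype.ext (h3 _)
    rw [this, e.apply_symm_apply]
  · show ((e.symm (e ((P : V →ₗ[ℝ] V).rangeRestrict v)) : _) : V) = P v
    rw [e.symm_apply_apply]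
    rfl

theorem exists_chart (R : Ret V)
    (hr : ∀ x ∈ R.S, Module.finrank ℝ (LinearMap.range (R.P x : V →ₗ[ℝ] V)) = m) :
    ∀ x ∈ R.S, ∃ A : RC R.S m, x ∈ A.W := by
  intro x0 hx0
  obtain ⟨i, p, hpi, hip, hPi⟩ := exists_factor (R.P x0) (R.P_idem hx0) (hr x0 hx0)
  have hrs : ContDiff ℝ ∞ R.r := R.smooth
  have hrd : HasFDerivAt R.r (R.P x0) x0 := (hrs.differentiable (by simp) x0).hasFDerivAt
  have hr0 : R.r x0 = x0 := R.fix x0 hx0
  -- the map that straightens `S`
  set G : V → V := fun z => R.P x0 (R.r z - x0) + (z - R.r z) with hG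
  have hGs : ContDiff ℝ ∞ G :=
    ((R.P x0).contDiff.comp (hrs.sub contDiff_const)).add (contDiff_id.sub hrs)
  have hGd : HasFDerivAt G ((R.P x0).comp (R.P x0) + (ContinuousLinearMap.id ℝ V - R.P x0)) x0 :=
    ((R.P x0).hasFDerivAt.comp x0 (hrd.sub_const x0)).add ((hasFDerivAt_id x0).sub hrd)
  obtain ⟨W2, -, hW2, hxW2, -, hi2, -⟩ := inverse_compact G univ isOpen_univ hGs.contDiffOn {x0}
    isCompact_singleton (subset_univ _) (injOn_singleton _ _) (by
      rintro k rfl u v huv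
      rw [hGd.fderiv] at huv
      simpa [R.P_idem hx0] using huv)
  -- the parametrisation
  set q : EE m → V := fun y => R.r (x0 + i y) with hq
  have hqs : ContDiff ℝ ∞ q := hrs.comp (contDiff_const.add i.contDiff)
  have hq0 : q 0 = x0 := by simp [hq, hr0]
  set φ : V → EE m := fun x => p (x - x0) with hφ
  have hφs : ContDiff ℝ ∞ φ := p.contDiff.comp (contDiff_id.sub contDiff_const)
  have hhd : HasFDerivAt (fun y => φ (q y)) (p.comp ((R.P x0).comp i)) 0 := by
    have h1 : HasFDerivAt (fun y : EE m => x0 + i y) i 0 := i.hasFDerivAt.const_add x0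
    have h2 : HasFDerivAt R.r (R.P x0) (x0 + i 0) := by simpa using hrd
    exact p.hasFDerivAt.comp 0 ((h2.comp 0 h1).sub_const x0)
  have hO1 : IsOpen ((fun y : EE m => x0 + i y) ⁻¹' R.W ∩ q ⁻¹' W2) :=
    (R.isOpen.preimage (by fun_prop)).inter (hW2.preimage hqs.continuous)
  obtain ⟨W1, g, -, h0W1, hW1, -, ho, hg, hl⟩ := inverse_compact (fun y => φ (q y)) _ hO1
    (hφs.comp hqs).contDiffOn {0} isCompact_singleton
    (by
      rintro k rfl
      exact ⟨by simpa using R.sub hx0, by simpa [hq0] using hxW2 rfl⟩)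
    (injOn_singleton _ _) (by
      rintro k rfl u v huv
      rw [hhd.fderiv] at huv
      simpa [hPi, hpi] using huv)
  have h00 : (0 : EE m) ∈ (fun y => φ (q y)) '' W1 := ⟨0, h0W1 rfl, by simp [hq0, hφ]⟩
  obtain ⟨χ, hχ, -, hsupp, -, h1⟩ := exists_bump {(0 : EE m)} _ isCompact_singleton ho
    (singleton_subset_iff.2 h00)
  rw [nhdsSet_singleton] at h1
  set O : Set (EE m) := interior {y | χ y = 1} with hO
  have key : ∀ y ∈ O, q (χ y • g y) ∈ R.S ∧ q (χ y • g y) ∈ W2 ∧ φ (q (χ y • g y)) = y := by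
    intro y hy
    have hy1 : χ y = 1 := interior_subset (s := {y | χ y = 1}) hy
    obtain ⟨w, hw, rfl⟩ := hsupp (subset_tsupport _ (show χ y ≠ 0 by simp [hy1]))
    rw [hy1, one_smul, hl w hw]
    exact ⟨R.maps (hW1 hw).1, (hW1 hw).2, rfl⟩
  have hGS : ∀ z ∈ R.S, G z = i (φ z) := fun z hz => by
    simp only [hG, hφ, hip, R.fix z hz, sub_self, add_zero]
  refine ⟨{ O := O, W := W2 ∩ φ ⁻¹' O, ψ := fun y => q (χ y • g y), φ := φ,
            O_open := isOpen_interior, W_open := hW2.inter (isOpen_interior.preimage hφs.continuous),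
            ψ_smooth := hqs.comp (contDiff_smul_cut _ ho χ hχ hsupp g hg), φ_smooth := hφs,
            ψ_mem := fun y hy => ⟨(key y hy).1, (key y hy).2.1, ?_⟩,
            φ_mem := fun x hx => hx.2.2, φψ := fun y hy => (key y hy).2.2,
            ψφ := fun x hx => ?_ }, hxW2 rfl, ?_⟩
  · show φ (q (χ y • g y)) ∈ O
    rw [(key y hy).2.2]
    exact hy
  · obtain ⟨k1, k2, k3⟩ := key (φ x) hx.2.2
    exact hi2 k2 hx.2.1 (by rw [hGS _ k1, hGS _ hx.1, k3])
  · show φ x0 ∈ O
    have : φ x0 = 0 := by simp [hφ]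
    rw [this]
    exact mem_interior_iff_mem_nhds.2 h1

end Pool.Agent.HT
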