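import Pool.Agent.P.MP_65ad7c_ag.HVolB
import Pool.Agent.P.MP_65ad7c_ag.HVolC

/-! The Riemannian measure of a compact retract and the divergence theorem. -/

open Set Filter Topology MeasureTheory
open scoped ContDiff InnerProductSpace

noncomputable section
namespace Pool.Agent.HT
open Pool.Agent.Wein (Ret)

variable {V : Type} [NormedAddCommGroup V] [InnerProductSpace ℝ V] [FiniteDimensional ℝ V] {m : ℕ}

variable [MeasurableSpace V] [BorelSpace V]

theorem exists_vol {S : Set V} (hS : IsCompact S) (hc : ∀ x ∈ S, ∃ A : RC S m, x ∈ A.W) :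
    ∃ μ : Measure V, IsVol S m μ := exists_vol' hS hc

/-- divergence theorem for the (complex) tangent vector field `∑ f_a b_a` -/
theorem IsVol.div (R : Ret V) {μ : Measure V} (hμ : IsVol R.S m μ) {A : Type} [Fintype A]
    (b : OrthonormalBasis A ℝ V) (f : A → V → ℂ) (hf : ∀ a, ContDiff ℝ ∞ (f a))
    (ht : ∀ x ∈ R.S, ∀ a, ∑ a', ((⟪R.P x (b a), b a'⟫_ℝ : ℝ) : ℂ) * f a' x = f a x) :
    ∫ x, ∑ a, fderiv ℝ (f a) x (R.P x (b a)) ∂μ = 0 := hμ.div' R b f hf ht

end Pool.Agent.HT
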