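import Pool.Agent.P.MP_65ad7c_ag.HKa2
import Pool.Agent.P.MP_65ad7c_ag.HVol
import Pool.Agent.P.MP_65ad7c_ag.HEll

/-! Kaehler identities: the Laplacian, adjoints, and the Hodge package. -/

open MeasureTheory
open scoped ContDiff InnerProductSpace ComplexConjugate

noncomputable section
namespace Pool.Agent.HT
open Pool.Agent.Wein (Ret)

variable {V : Type} [NormedAddCommGroup V] [InnerProductSpace ℝ V]
  {F : Type} [NormedAddCommGroup F] [InnerProductSpace ℂ F] (Φ : Fock V F) (R : Ret V)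
  {A : Type} [Fintype A] (b : OrthonormalBasis A ℝ V) {J T T' : V → V →L[ℝ] V} {m : ℕ}

section ring
variable {E : Type} [Ring E]

lemma kp_r1 (p q g h : E) : (p - g) * (q - h) - p * q = -(p * h) - g * (q - h) := by noncomm_ring

lemma kp_r2 (e i n n' p p' : E) : -(e * n * (i * n')) - i * n' * (e * n) + (i * e + e * i) * p * p' =
    -(e * ((n * i - i * n) * n')) - i * ((n' * e - e * n') * n) - e * (i * (n * n' - p * p')) -
      i * (e * (n' * n - p' * p)) + i * (e * (p * p' - p' * p)) := by noncomm_ring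

lemma kp_r3 {A : Type} [Fintype A] (x y : A → E) :
    (∑ a, x a) * (-∑ a, y a) + (-∑ a, y a) * ∑ a, x a =
      -∑ a, ∑ c, x a * y c - ∑ a, ∑ c, y c * x a := by
  rw [mul_neg, neg_mul, Finset.sum_mul_sum, Finset.sum_mul_sum, sub_eq_add_neg,
    Finset.sum_comm (f := fun a c => y c * x a)]

end ring

lemma kp_ep_smooth {w : V → V} (hw : ContDiff ℝ ∞ w) : ContDiff ℝ ∞ fun x => Φ.ep (w x) :=
  Φ.ep.contDiff.comp hw

lemma kp_io_smooth {w : V → V} (hw : ContDiff ℝ ∞ w) : ContDiff ℝ ∞ fun x => Φ.io (w x) :=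
  Φ.io.contDiff.comp hw

lemma kp_G_smooth (v : V) : ContDiff ℝ ∞ fun x => Φ.dG b (Kc R v x) :=
  Φ.dG_smooth b (Kc_smooth R v)

lemma kp_cov_smooth (v : V) {w : V → V} (hw : ContDiff ℝ ∞ w) :
    ContDiff ℝ ∞ fun x => fderiv ℝ w x (R.P x v) + Kc R v x (w x) :=
  ((hw.fderiv_right (m := ∞) (by simp)).clm_apply (R.P_smooth.clm_apply contDiff_const)).add
    ((Kc_smooth R v).clm_apply hw)

lemma kp_nab_D1 (v : V) : IsD1 R b (nab Φ R b v) :=
  (IsD1.pd v).sub (IsD1.mul (kp_G_smooth Φ R b v))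

lemma kp_nab2_D1 (v w : V) :
    IsD1 R b (nab Φ R b v * nab Φ R b w - Sec.pd R F v * Sec.pd R F w) := by
  have h1 := ((IsD1.pd (R := R) (b := b) (F := F) v).mul_right (kp_G_smooth Φ R b w)).neg
  have h2 := (kp_nab_D1 Φ R b w).mul_left (kp_G_smooth Φ R b v)
  exact (kp_r1 (E := Module.End ℂ (Sec R.S F)) _ _ _ _).symm ▸ h1.sub h2

/-- principal part of the Laplacian -/
theorem lap_D1 : IsD1 R b (dT Φ R b R.P * sT Φ R b R.P + sT Φ R b R.P * dT Φ R b R.P +
    ∑ a, Sec.pd R F (b a) * Sec.pd R F (b a)) := by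
  have hP : ∀ a, ContDiff ℝ ∞ fun x => R.P x (b a) := fun a => R.P_smooth.clm_apply contDiff_const
  have hE := fun a => kp_ep_smooth Φ (hP a)
  have hI := fun a => kp_io_smooth Φ (hP a)
  set E : A → Module.End ℂ (Sec R.S F) := fun a => Sec.mul R.S fun x => Φ.ep (R.P x (b a)) with hEd
  set I : A → Module.End ℂ (Sec R.S F) := fun a => Sec.mul R.S fun x => Φ.io (R.P x (b a)) with hId
  have hg : ∀ a c, Sec.mul R.S (fun x => ((⟪R.P x (b a), b c⟫_ℝ : ℝ) : ℂ) • (1 : F →L[ℂ] F)) =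
      I c * E a + E a * I c := fun a c => by
    rw [hEd, hId, ← Sec.mul_mul' (hI c) (hE a), ← Sec.mul_mul' (hE a) (hI c),
      ← Sec.mul_add' ((hI c).mul (hE a)) ((hE a).mul (hI c))]
    refine Sec.mul_congr ?_ (((hI c).mul (hE a)).add ((hE a).mul (hI c))) fun x hx => ?_
    · exact (Complex.ofRealCLM.contDiff.comp ((hP a).inner ℝ contDiff_const)).smul contDiff_const
    · rw [Φ.car, R.P_symm hx (b c), R.P_idem hx, real_inner_comm]
  have key : dT Φ R b R.P * sT Φ R b R.P + sT Φ R b R.P * dT Φ R b R.P +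
      ∑ a, Sec.pd R F (b a) * Sec.pd R F (b a) = ∑ a, ∑ c,
        (-(E a * nab Φ R b (b a) * (I c * nab Φ R b (b c))) -
          I c * nab Φ R b (b c) * (E a * nab Φ R b (b a)) +
          (I c * E a + E a * I c) * Sec.pd R F (b a) * Sec.pd R F (b c)) := by
    simp only [Finset.sum_add_distrib, Finset.sum_sub_distrib, Finset.sum_neg_distrib]
    congr 1
    · exact kp_r3 (E := Module.End ℂ (Sec R.S F)) _ _
    · rw [Finset.sum_comm]
      refine Finset.sum_congr rfl fun c _ => ?_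
      rw [← Finset.sum_mul]
      simp only [← hg]
      rw [Sec.sum_pd]
  rw [key]
  refine IsD1.sum _ fun a _ => IsD1.sum _ fun c _ => ?_
  have e1 := nab_io Φ R b (b a) (hP c)
  have e2 := nab_ep Φ R b (b c) (hP a)
  have d1 := ((kp_nab_D1 Φ R b (b c)).mul_left (kp_io_smooth Φ (kp_cov_smooth R (b a) (hP c)))).mul_left
    (hE a)
  have d2 := ((kp_nab_D1 Φ R b (b a)).mul_left (kp_ep_smooth Φ (kp_cov_smooth R (b c) (hP a)))).mul_left
    (hI c)
  have d3 := ((kp_nab2_D1 Φ R b (b a) (b c)).mul_left (hI c)).mul_left (hE a)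
  have d4 := ((kp_nab2_D1 Φ R b (b c) (b a)).mul_left (hE a)).mul_left (hI c)
  have d5 := ((IsD1.comm (R := R) (b := b) (F := F) (b a) (b c)).mul_left (hE a)).mul_left (hI c)
  rw [← e1] at d1
  rw [← e2] at d2
  exact (kp_r2 (E := Module.End ℂ (Sec R.S F)) _ _ _ _ _ _).symm ▸
    (((d1.neg.sub d2).sub d3).sub d4).add d5

variable [FiniteDimensional ℝ V] [MeasurableSpace V] [BorelSpace V] {μ : Measure V}

/-- the inner product as a map that is additive in both arguments -/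
def kpIp (hμ : IsVol R.S m μ) : Sec R.S F →+ Sec R.S F →+ ℂ :=
  AddMonoidHom.mk' (fun u => AddMonoidHom.mk' (fun w => Sec.ip μ u w)
    (Sec.ip_add_right hμ R.compact u)) fun u u' => by
      ext w
      show Sec.ip μ (u + u') w = Sec.ip μ u w + Sec.ip μ u' w
      rw [← Sec.ip_conj w (u + u'), Sec.ip_add_right hμ R.compact, map_add, Sec.ip_conj,
        Sec.ip_conj]

lemma kpIp_apply (hμ : IsVol R.S m μ) (u w : Sec R.S F) : kpIp R hμ u w = Sec.ip μ u w := rfl

lemma kp_div (hμ : IsVol R.S m μ) {M : A → V → F →L[ℂ] F} (hM : ∀ a, ContDiff ℝ ∞ (M a))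
    (ht : ∀ x ∈ R.S, ∀ a, ∑ a', ((⟪R.P x (b a), b a'⟫_ℝ : ℝ) : ℂ) • M a' x = M a x)
    (u w : Sec R.S F) :
    ∑ a, (Sec.ip μ (Sec.pd R F (b a) (Sec.mul R.S (M a) u)) w +
      Sec.ip μ (Sec.mul R.S (M a) u) (Sec.pd R F (b a) w)) = 0 := by
  obtain ⟨f, rfl⟩ := Submodule.Quotient.mk_surjective _ u
  obtain ⟨g, rfl⟩ := Submodule.Quotient.mk_surjective _ w
  have hs : ∀ a, ContDiff ℝ ∞ fun x => M a x (f.1 x) := fun a => contDiff_evC (hM a) f.smooth
  have h := hμ.div R b (fun a x => ⟪M a x (f.1 x), g.1 x⟫_ℂ) (fun a => (hs a).inner ℂ g.smooth)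
    (fun x hx a => by
      rw [← ht x hx a, _root_.sum_apply, sum_inner]
      refine Finset.sum_congr rfl fun a' _ => ?_
      rw [_root_.smul_apply, inner_smul_left, Complex.conj_ofReal])
  have hi : ∀ p q : CF V F, Integrable (fun x => ⟪p.1 x, q.1 x⟫_ℂ) μ := fun p q =>
    hμ.integrable R.compact (p.smooth.inner ℂ q.smooth).continuous
  have e : ∀ a, Sec.ip μ (Sec.pd R F (b a) (Sec.mul R.S (M a) (Sec.mk R.S f))) (Sec.mk R.S g) +
      Sec.ip μ (Sec.mul R.S (M a) (Sec.mk R.S f)) (Sec.pd R F (b a) (Sec.mk R.S g)) =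
      ∫ x, fderiv ℝ (fun x => ⟪M a x (f.1 x), g.1 x⟫_ℂ) x (R.P x (b a)) ∂μ := fun a => by
    rw [Sec.mul_mk (hM a), Sec.pd_mk, Sec.pd_mk, Sec.ip_mk hμ, Sec.ip_mk hμ,
      ← integral_add (hi _ _) (hi _ _)]
    refine integral_congr_ae (Filter.Eventually.of_forall fun x => ?_)
    beta_reduce
    rw [fderiv_inner_apply ℂ ((hs a).differentiable (by simp) x) (g.diff x), add_comm]
    rfl
  rw [Finset.sum_congr rfl fun a _ => e a, ← integral_finsetSum, h]
  intro a _
  refine hμ.integrable R.compact ?_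
  exact ((((hs a).inner ℂ g.smooth).fderiv_right (m := ∞) (by simp)).clm_apply
    (R.P_smooth.clm_apply contDiff_const)).continuous

omit [FiniteDimensional ℝ V] [MeasurableSpace V] [BorelSpace V] in
lemma kp_trace {x : V} (hx : x ∈ R.S) : ∑ a, R.P x (Kc R (b a) x (b a)) = 0 := by
  let B : V →L[ℝ] V →L[ℝ] V :=
    (ContinuousLinearMap.compL ℝ V V V (R.P x * ((2 : ℝ) • R.P x - 1))).comp (fderiv ℝ R.P x)
  have hB : ∀ v w, R.P x (Kc R v x w) = B (R.P x v) w := fun v w => rfl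
  have h1 : ∀ v w, B (R.P x v) (R.P x w) = 0 := fun v w =>
    (hB v _).symm.trans (congrArg (fun L => L w) (P_Kc_P R v hx))
  have h2 : ∀ a, R.P x (Kc R (b a) x (b a)) =
      ∑ c, ⟪b a, R.P x (b c)⟫_ℝ • B (b c) (b a - R.P x (b a)) := fun a => by
    rw [hB, ← sub_zero (B _ _), ← h1 (b a) (b a), ← map_sub]
    rw [← congrArg B (b.sum_repr' (R.P x (b a))), map_sum, _root_.sum_apply]
    refine Finset.sum_congr rfl fun c _ => ?_
    rw [map_smul, _root_.smul_apply, ← R.P_symm hx (b a), real_inner_comm]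
  rw [Finset.sum_congr rfl fun a _ => h2 a, Finset.sum_comm]
  refine Finset.sum_eq_zero fun c _ => ?_
  have h3 : ∑ a, ⟪b a, R.P x (b c)⟫_ℝ • (b a - R.P x (b a)) = 0 := by
    simp only [smul_sub, Finset.sum_sub_distrib, ← map_smul, ← map_sum, b.sum_repr']
    rw [R.P_idem hx, sub_self]
  simp only [← map_smul, ← map_sum, h3, map_zero]

theorem dT_adj (hμ : IsVol R.S m μ) (hT : IsPar R T) (u w : Sec R.S F) :
    Sec.ip μ (dT Φ R b T u) w = Sec.ip μ u (sT Φ R b T w) := by
  have hP : ∀ a, ContDiff ℝ ∞ fun x => T x (b a) := fun a => hT.smooth.clm_apply contDiff_const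
  have hE := fun a => kp_ep_smooth Φ (hP a)
  have hI := fun a => kp_io_smooth Φ (hP a)
  have h1 := kp_div R b hμ hE (fun x hx a => by
    have e : T x (b a) = T x (∑ a', ⟪b a', R.P x (b a)⟫_ℝ • b a') := by
      rw [b.sum_repr']
      exact (congrArg (fun L => L (b a)) (hT.right x hx)).symm
    rw [e, map_sum, map_sum]
    refine Finset.sum_congr rfl fun a' _ => ?_
    rw [map_smul, map_smul, real_inner_comm, Complex.coe_smul]) u w
  have hG : ∀ (v : V) (p q : Sec R.S F),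
      Sec.ip μ (Sec.mul R.S (fun x => Φ.dG b (Kc R v x)) p) q =
        -Sec.ip μ p (Sec.mul R.S (fun x => Φ.dG b (Kc R v x)) q) := fun v p q => by
    rw [Sec.ip_mul hμ (kp_G_smooth Φ R b v) (kp_G_smooth Φ R b v).neg (fun x hx y z => ?_),
      Sec.mul_neg', LinearMap.neg_apply, ← kpIp_apply R hμ, map_neg, kpIp_apply]
    rw [Φ.dG_adj b (M' := -Kc R v x) (fun p q => by simp [Kc_skew R v hx, inner_neg_right])]
    simp [Fock.dG]
  have h2 : ∑ a, Sec.mul R.S (fun x => Φ.ep (fderiv ℝ (fun x => T x (b a)) x (R.P x (b a)) +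
      Kc R (b a) x (T x (b a)))) = (0 : Module.End ℂ (Sec R.S F)) := by
    rw [← Sec.mul_sum' _ fun a _ => kp_ep_smooth Φ (kp_cov_smooth R (b a) (hP a))]
    refine Sec.mul_zero' fun x hx => ?_
    have e : ∀ a, fderiv ℝ (fun x => T x (b a)) x (R.P x (b a)) + Kc R (b a) x (T x (b a)) =
        T x (R.P x (Kc R (b a) x (b a))) := fun a => by
      have e1 := congrArg (fun L => L (b a)) (hT.par x hx (b a))
      have e2 := congrArg (fun L => L (Kc R (b a) x (b a))) (hT.right x hx)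
      have e3 : fderiv ℝ (fun x => T x (b a)) x (R.P x (b a)) =
          fderiv ℝ T x (R.P x (b a)) (b a) := by
        rw [fderiv_clm_apply (hT.smooth.differentiable (by simp) x) (differentiableAt_const _)]
        simp
      simp only [_root_.add_apply, _root_.sub_apply,
        mul_apply_eq_comp, _root_.zero_apply] at e1 e2
      rw [e3, e2, ← sub_eq_zero, ← e1]
      abel
    simp only [e, ← map_sum, kp_trace R b hx, map_zero]
  have h3 := congrArg (fun L : Module.End ℂ (Sec R.S F) => kpIp R hμ (L u) w) h2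
  simp only [← fun a => nab_ep Φ R b (b a) (hP a), LinearMap.sum_apply, map_sum,
    LinearMap.zero_apply, map_zero, AddMonoidHom.zero_apply, AddMonoidHom.finsetSum_apply,
    LinearMap.sub_apply, Module.End.mul_apply, map_sub, AddMonoidHom.sub_apply] at h3
  simp only [dT, sT, ← kpIp_apply R hμ, LinearMap.sum_apply, LinearMap.neg_apply, map_sum, map_neg,
    AddMonoidHom.finsetSum_apply, Module.End.mul_apply]
  rw [Finset.sum_sub_distrib, sub_eq_zero] at h3
  rw [← h3, eq_neg_iff_add_eq_zero, ← Finset.sum_add_distrib, ← h1]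
  refine Finset.sum_congr rfl fun a _ => ?_
  rw [kpIp_apply R hμ u, ← Sec.ip_mul hμ (hE a) (hI a) fun x _ y z => Φ.adj _ y z,
    ← kpIp_apply R hμ]
  simp only [nab, LinearMap.sub_apply, map_sub, AddMonoidHom.sub_apply, kpIp_apply, hG]
  ring

section ring
variable {M : Type} [AddCommGroup M] [Module ℂ M] {N G L d ds c cs : Module.End ℂ M}

lemma kp_mem {X : Module.End ℂ M} (h : N * X = X * N) {u : M} (hu : u ∈ LinearMap.ker N) :
    X u ∈ LinearMap.ker N := by
  have := congrArg (fun Y : Module.End ℂ M => Y u) h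
  simp only [Module.End.mul_apply, LinearMap.mem_ker.1 hu, map_zero] at this
  exact this

lemma kp_van {X Y : Module.End ℂ M} (h : N * X = X * N) (hY : ∀ u ∈ LinearMap.ker N, Y u = 0) :
    ∀ u ∈ LinearMap.ker N, (X * Y - Y * X) u = 0 := fun u hu => by
  rw [LinearMap.sub_apply, Module.End.mul_apply, Module.End.mul_apply, hY u hu,
    hY _ (kp_mem h hu), map_zero, sub_zero]

lemma kp_alg (hG : N * G = G * N) (hL : N * L = L * N) (h1 : G * d - d * G = -c)
    (h2 : G * c - c * G = d) (h3 : L * d - d * L = -cs) (h4 : L * c - c * L = ds)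
    (hdd : ∀ u ∈ LinearMap.ker N, d (d u) = 0) : ∀ u ∈ LinearMap.ker N,
      (-c) ((-c) u) = 0 ∧ d ((-c) u) + (-c) (d u) = 0 ∧ d ((-cs) u) + (-cs) (d u) = 0 ∧
      (-c) (ds u) + ds ((-c) u) = 0 ∧
      d (ds u) + ds (d u) = (-c) ((-cs) u) + (-cs) ((-c) u) := by
  have e1 : G * (d * d) - d * d * G = -(c * d + d * c) := by
    have : G * (d * d) - d * d * G = (G * d - d * G) * d + d * (G * d - d * G) := by noncomm_ring
    rw [this, h1]; noncomm_ring
  have e2 : G * (c * d + d * c) - (c * d + d * c) * G = (2 : ℂ) • (d * d - c * c) := by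
    have : G * (c * d + d * c) - (c * d + d * c) * G = (G * c - c * G) * d + c * (G * d - d * G) +
      (G * d - d * G) * c + d * (G * c - c * G) := by noncomm_ring
    rw [this, h1, h2, two_smul]; noncomm_ring
  have e3 : L * (d * d) - d * d * L = -(cs * d + d * cs) := by
    have : L * (d * d) - d * d * L = (L * d - d * L) * d + d * (L * d - d * L) := by noncomm_ring
    rw [this, h3]; noncomm_ring
  have e4 : L * (c * c) - c * c * L = ds * c + c * ds := by
    have : L * (c * c) - c * c * L = (L * c - c * L) * c + c * (L * c - c * L) := by noncomm_ring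
    rw [this, h4]
  have e5 : L * (c * d + d * c) - (c * d + d * c) * L = d * ds + ds * d - (c * cs + cs * c) := by
    have : L * (c * d + d * c) - (c * d + d * c) * L = (L * c - c * L) * d + c * (L * d - d * L) +
      (L * d - d * L) * c + d * (L * c - c * L) := by noncomm_ring
    rw [this, h3, h4]; noncomm_ring
  have v0 : ∀ u ∈ LinearMap.ker N, (d * d) u = 0 := hdd
  have v1 : ∀ u ∈ LinearMap.ker N, (c * d + d * c) u = 0 := fun u hu => by
    have := kp_van hG v0 u hu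
    rwa [e1, LinearMap.neg_apply, neg_eq_zero] at this
  have v2 : ∀ u ∈ LinearMap.ker N, (c * c) u = 0 := fun u hu => by
    have := kp_van hG v1 u hu
    rw [e2, LinearMap.smul_apply, LinearMap.sub_apply, v0 u hu, zero_sub] at this
    simpa using this
  intro u hu
  have w1 := v1 u hu
  have w2 := v2 u hu
  have w3 := kp_van hL v0 u hu
  have w4 := kp_van hL v2 u hu
  have w5 := kp_van hL v1 u hu
  rw [e3] at w3
  rw [e4] at w4
  rw [e5] at w5
  simp only [LinearMap.neg_apply, LinearMap.add_apply, LinearMap.sub_apply, Module.End.mul_apply,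
    map_neg, neg_neg] at w1 w2 w3 w4 w5 ⊢
  refine ⟨w2, ?_, ?_, ?_, sub_eq_zero.1 w5⟩
  · rw [← neg_add, add_comm, w1, neg_zero]
  · rw [← neg_add, add_comm, w3]
  · rw [← neg_add, add_comm, w4, neg_zero]

lemma kp_hodge (ip : M →+ M →+ ℂ) (hconj : ∀ u w, conj (ip u w) = ip w u)
    (nonneg : ∀ u, 0 ≤ (ip u u).re) (defn : ∀ u, (ip u u).re = 0 → u = 0)
    (adj : ∀ u w, ip (d u) w = ip u (ds w)) (adjN : ∀ u w, ip (N u) w = ip u (N w))
    (posN : ∀ u, 0 ≤ (ip (N u) u).re) (hd : N * d = d * N) (hds : N * ds = ds * N)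
    (H : ∀ L : Module.End ℂ M, (∀ u w, ip (L u) w = ip u (L w)) → (∀ u, 0 ≤ (ip (L u) u).re) →
      L = d * ds + ds * d + N → ∀ u, ∃ h w, L h = 0 ∧ u = h + L w) :
    ∀ u ∈ LinearMap.ker N, ∃ h ∈ LinearMap.ker N, ∃ w ∈ LinearMap.ker N,
      d (ds h) + ds (d h) = 0 ∧ u = h + (d (ds w) + ds (d w)) := by
  have adj' : ∀ u w, ip (ds u) w = ip u (d w) := fun u w => by
    rw [← hconj, ← adj, hconj]
  have hL : ∀ u, (d * ds + ds * d + N) u = d (ds u) + ds (d u) + N u := fun _ => rfl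
  have hq : ∀ u, (ip ((d * ds + ds * d + N) u) u).re =
      (ip (ds u) (ds u)).re + (ip (d u) (d u)).re + (ip (N u) u).re := fun u => by
    rw [hL, map_add, map_add, AddMonoidHom.add_apply, AddMonoidHom.add_apply, adj (ds u),
      adj' (d u), Complex.add_re, Complex.add_re]
  have hk : ∀ u, (d * ds + ds * d + N) u = 0 → d (ds u) + ds (d u) = 0 ∧ N u = 0 := fun u hu => by
    have h1 := hq u
    rw [hu, map_zero, AddMonoidHom.zero_apply, Complex.zero_re] at h1
    have a1 := nonneg (ds u)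
    have a2 := nonneg (d u)
    have a3 := posN u
    have b1 : ds u = 0 := defn _ (by linarith)
    have b2 : d u = 0 := defn _ (by linarith)
    rw [hL, b1, b2, map_zero, map_zero, add_zero, zero_add] at hu
    rw [b1, b2, map_zero, map_zero, add_zero]
    exact ⟨rfl, hu⟩
  intro u hu
  obtain ⟨h, w, h1, h2⟩ := H _ (fun u w => by
      simp only [hL, map_add, AddMonoidHom.add_apply, adj, adj', adjN]) (fun u => by
      rw [hq]
      exact add_nonneg (add_nonneg (nonneg _) (nonneg _)) (posN u)) rfl u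
  have hc : N * (d * ds + ds * d + N) = (d * ds + ds * d + N) * N := by
    rw [mul_add, mul_add, add_mul, add_mul, ← mul_assoc, ← mul_assoc, hd, hds, mul_assoc, mul_assoc,
      hd, hds, mul_assoc, mul_assoc]
  have h3 : (d * ds + ds * d + N) (N w) = 0 := by
    have e := congrArg N h2
    rw [LinearMap.mem_ker.1 hu, map_add, (hk h h1).2, zero_add] at e
    exact (congrArg (fun Y : Module.End ℂ M => Y w) hc).symm.trans e.symm
  have h4 : N w = 0 := defn _ (by rw [adjN, (hk _ h3).2, map_zero, Complex.zero_re])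
  refine ⟨h, (hk h h1).2, w, h4, (hk h h1).1, ?_⟩
  rw [hL, h4, add_zero] at h2
  exact h2

end ring

theorem IsKR.pack [FiniteDimensional ℂ F] (h : IsKR R J m) (hμ : IsVol R.S m μ)
    (hdd : ∀ u ∈ LinearMap.ker (nN Φ R b), dT Φ R b R.P (dT Φ R b R.P u) = 0) :
    Pack (Sec.ip μ) (LinearMap.ker (nN Φ R b)) (dT Φ R b R.P) (sT Φ R b R.P)
      (-dT Φ R b (Jt R J)) (-sT Φ R b (Jt R J)) := by
  obtain ⟨Λ, l0, l1, l2⟩ := h.exists_lam Φ R b
  have hP := isPar_P R
  have hJ := h.isPar R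
  have alg := kp_alg (nN_mG Φ R b hJ) l0 (h.gam_d Φ R b) (h.gam_dc Φ R b) l1 l2 hdd
  have hQ : ContDiff ℝ ∞ fun x => Φ.dG b (1 - R.P x) :=
    Φ.dG_smooth b (contDiff_const.sub R.P_smooth)
  have hQs : ∀ x ∈ R.S, ∀ v w, ⟪(1 - R.P x) v, w⟫_ℝ = ⟪v, (1 - R.P x) w⟫_ℝ := fun x hx v w => by
    simp [inner_sub_left, inner_sub_right, R.P_symm hx]
  refine ⟨Sec.ip_add_right hμ R.compact, Sec.ip_smul_right hμ, Sec.ip_conj, Sec.ip_nonneg,
    fun u => Sec.ip_eq_zero hμ R.compact, fun u => kp_mem (nN_dT Φ R b hP),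
    fun u => kp_mem (nN_sT Φ R b hP), fun u hu => neg_mem (kp_mem (nN_dT Φ R b hJ) hu),
    fun u hu => neg_mem (kp_mem (nN_sT Φ R b hJ) hu), dT_adj Φ R b hμ hP, fun u w => ?_, hdd,
    fun u hu => (alg u hu).1, fun u hu => (alg u hu).2.1, fun u hu => (alg u hu).2.2.1,
    fun u hu => (alg u hu).2.2.2.1, fun u hu => (alg u hu).2.2.2.2, ?_⟩
  · rw [LinearMap.neg_apply, LinearMap.neg_apply, ← kpIp_apply R hμ, ← kpIp_apply R hμ, map_neg,
      map_neg, AddMonoidHom.neg_apply, kpIp_apply, kpIp_apply, dT_adj Φ R b hμ hJ]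
  · refine kp_hodge (kpIp R hμ) Sec.ip_conj Sec.ip_nonneg (fun u => Sec.ip_eq_zero hμ R.compact)
      (dT_adj Φ R b hμ hP) (Sec.ip_mul hμ hQ hQ fun x hx => Φ.dG_adj b (hQs x hx)) (fun u => ?_)
      (nN_dT Φ R b hP) (nN_sT Φ R b hP) fun L h1 h2 h3 => ell R hμ b L h1 h2 ?_
    · obtain ⟨f, rfl⟩ := Submodule.Quotient.mk_surjective _ u
      rw [kpIp_apply, nN, mG, Sec.mul_mk hQ, Sec.ip_mk hμ]
      refine le_of_le_of_eq (integral_nonneg_of_ae ?_) (integral_re (𝕜 := ℂ) (hμ.integrable R.compact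
        ((contDiff_evC hQ f.smooth).inner ℂ f.smooth).continuous))
      have hae : ∀ᵐ x ∂μ, x ∈ R.S := hμ.conc
      filter_upwards [hae] with x hx
      exact (Φ.dG_nonneg b (hQs x hx) (fun v => by simp [R.P_idem hx]) _).1
    · rw [h3, add_right_comm]
      exact (lap_D1 Φ R b).add (IsD1.mul hQ)

end Pool.Agent.HT
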