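import Pool.Agent.P.MP_65ad7c_ag.HSec

/-! Calculus of multiplication operators, tangential derivatives and the `L^2` product. -/

open Set Filter Topology MeasureTheory
open scoped ContDiff InnerProductSpace ComplexConjugate

noncomputable section
namespace Pool.Agent.HT
open Pool.Agent.Wein (Ret)

variable {V : Type} [NormedAddCommGroup V] [InnerProductSpace ℝ V]
  {F : Type} [NormedAddCommGroup F] [InnerProductSpace ℂ F] {S : Set V}
  {M M' : V → F →L[ℂ] F} {A : Type} [Fintype A]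

theorem Sec.exists_mk (u : Sec S F) : ∃ f, Sec.mk S f = u := Submodule.Quotient.mk_surjective _ u

/-- operators on sections agree if they agree on classes of smooth functions -/
theorem Sec.ext_mk {L L' : Module.End ℂ (Sec S F)} (h : ∀ f, L (Sec.mk S f) = L' (Sec.mk S f)) :
    L = L' := LinearMap.ext fun u => by
  obtain ⟨f, rfl⟩ := u.exists_mk
  exact h f

theorem Sec.mk_add (f g : CF V F) : Sec.mk S f + Sec.mk S g = Sec.mk S (f + g) := rfl
theorem Sec.mk_sub (f g : CF V F) : Sec.mk S f - Sec.mk S g = Sec.mk S (f - g) := rfl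
theorem Sec.mk_neg (f : CF V F) : -Sec.mk S f = Sec.mk S (-f) := rfl
theorem Sec.mk_smul (c : ℂ) (f : CF V F) : c • Sec.mk S f = Sec.mk S (c • f) := rfl
theorem Sec.mk_zero : (0 : Sec S F) = Sec.mk S 0 := rfl

theorem Sec.mk_sum {B : Type} (s : Finset B) (f : B → CF V F) :
    ∑ i ∈ s, Sec.mk S (f i) = Sec.mk S (∑ i ∈ s, f i) :=
  (map_sum (Submodule.mkQ (Z0 S F)) f s).symm

theorem CF.val_sum {B : Type} (s : Finset B) (f : B → CF V F) (x : V) :
    (∑ i ∈ s, f i).1 x = ∑ i ∈ s, (f i).1 x := by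
  classical
  induction s using Finset.induction_on with
  | empty => simp
  | insert a s ha ih => simp [Finset.sum_insert ha, ih]

theorem Sec.mul_of_not (h : ¬ ContDiff ℝ ∞ M) : Sec.mul S M = 0 := by
  simp only [Sec.mul, dif_neg h]

theorem contDiff_mulC (h : ContDiff ℝ ∞ M) (h' : ContDiff ℝ ∞ M') :
    ContDiff ℝ ∞ fun x => M x * M' x := h.mul h'

/-- a smooth real function times the identity -/
theorem contDiff_re_one {g : V → ℝ} (h : ContDiff ℝ ∞ g) :
    ContDiff ℝ ∞ fun x => ((g x : ℝ) : ℂ) • (1 : F →L[ℂ] F) :=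
  (Complex.ofRealCLM.contDiff.comp h).smul contDiff_const

theorem Sec.mul_congr (h : ContDiff ℝ ∞ M) (h' : ContDiff ℝ ∞ M') (hS : ∀ x ∈ S, M x = M' x) :
    Sec.mul S M = Sec.mul S M' := Sec.ext_mk fun f => by
  rw [Sec.mul_mk h, Sec.mul_mk h', Sec.mk_eq_iff]
  intro x hx
  simp [hS x hx]

theorem Sec.mul_zero' (hS : ∀ x ∈ S, M x = 0) : Sec.mul S M = 0 := by
  by_cases h : ContDiff ℝ ∞ M
  · refine Sec.ext_mk fun f => ?_
    rw [Sec.mul_mk h, LinearMap.zero_apply, Sec.mk_zero, Sec.mk_eq_iff]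
    intro x hx
    simp [hS x hx]
  · exact Sec.mul_of_not h

theorem Sec.mul_one' : Sec.mul S (fun _ => (1 : F →L[ℂ] F)) = 1 := Sec.ext_mk fun f => by
  rw [Sec.mul_mk contDiff_const, Module.End.one_apply, Sec.mk_eq_iff]
  intro x _
  simp

theorem Sec.mul_add' (h : ContDiff ℝ ∞ M) (h' : ContDiff ℝ ∞ M') :
    Sec.mul S (fun x => M x + M' x) = Sec.mul S M + Sec.mul S M' := Sec.ext_mk fun f => by
  rw [Sec.mul_mk (h.add h'), LinearMap.add_apply, Sec.mul_mk h, Sec.mul_mk h', Sec.mk_add,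
    Sec.mk_eq_iff]
  intro x _
  simp

theorem Sec.mul_sub' (h : ContDiff ℝ ∞ M) (h' : ContDiff ℝ ∞ M') :
    Sec.mul S (fun x => M x - M' x) = Sec.mul S M - Sec.mul S M' := Sec.ext_mk fun f => by
  rw [Sec.mul_mk (h.sub h'), LinearMap.sub_apply, Sec.mul_mk h, Sec.mul_mk h', Sec.mk_sub,
    Sec.mk_eq_iff]
  intro x _
  simp

theorem Sec.mul_neg' : Sec.mul S (fun x => -M x) = -Sec.mul S M := by
  by_cases h : ContDiff ℝ ∞ M
  · refine Sec.ext_mk fun f => ?_
    rw [Sec.mul_mk h.neg, LinearMap.neg_apply, Sec.mul_mk h, Sec.mk_neg, Sec.mk_eq_iff]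
    intro x _
    simp
  · have h' : ¬ ContDiff ℝ ∞ fun x => -M x := fun h' => h (by simpa using h'.neg)
    rw [Sec.mul_of_not h, Sec.mul_of_not h', neg_zero]

theorem Sec.mul_smul' (c : ℂ) (h : ContDiff ℝ ∞ M) :
    Sec.mul S (fun x => c • M x) = c • Sec.mul S M := Sec.ext_mk fun f => by
  rw [Sec.mul_mk (h.const_smul c), LinearMap.smul_apply, Sec.mul_mk h, Sec.mk_smul, Sec.mk_eq_iff]
  intro x _
  simp

theorem Sec.mul_mul' (h : ContDiff ℝ ∞ M) (h' : ContDiff ℝ ∞ M') :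
    Sec.mul S (fun x => M x * M' x) = Sec.mul S M * Sec.mul S M' := Sec.ext_mk fun f => by
  rw [Sec.mul_mk (contDiff_mulC h h'), Module.End.mul_apply, Sec.mul_mk h', Sec.mul_mk h,
    Sec.mk_eq_iff]
  intro x _
  simp

theorem Sec.mul_sum' {B : Type} (s : Finset B) {N : B → V → F →L[ℂ] F}
    (h : ∀ i ∈ s, ContDiff ℝ ∞ (N i)) :
    Sec.mul S (fun x => ∑ i ∈ s, N i x) = ∑ i ∈ s, Sec.mul S (N i) := by
  classical
  induction s using Finset.induction_on with
  | empty => simpa using Sec.mul_zero' (S := S) (M := fun _ => (0 : F →L[ℂ] F)) fun _ _ => rfl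
  | insert a s ha ih =>
    have h' : ∀ i ∈ s, ContDiff ℝ ∞ (N i) := fun i hi => h i (Finset.mem_insert_of_mem hi)
    simp only [Finset.sum_insert ha]
    rw [Sec.mul_add' (h a (Finset.mem_insert_self a s)) (ContDiff.sum h'), ih h']

theorem fderiv_evC {f : V → F} {x : V} (hM : DifferentiableAt ℝ M x) (hf : DifferentiableAt ℝ f x)
    (v : V) : fderiv ℝ (fun y => M y (f y)) x v = M x (fderiv ℝ f x v) + fderiv ℝ M x v (f x) := by
  have h := (((evC F).hasFDerivAt.comp x hM.hasFDerivAt).clm_apply hf.hasFDerivAt).fderiv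
  have h2 : fderiv ℝ (fun y => M y (f y)) x = _ := h
  rw [h2]
  simp

theorem contDiff_dM (R : Ret V) (v : V) (h : ContDiff ℝ ∞ M) :
    ContDiff ℝ ∞ fun x => fderiv ℝ M x (R.P x v) :=
  (h.fderiv_right (m := ∞) (by simp)).clm_apply (R.P_smooth.clm_apply contDiff_const)

/-- Leibniz rule -/
theorem Sec.pd_mul (R : Ret V) (v : V) (h : ContDiff ℝ ∞ M) :
    Sec.pd R F v * Sec.mul R.S M =
      Sec.mul R.S M * Sec.pd R F v + Sec.mul R.S (fun x => fderiv ℝ M x (R.P x v)) :=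
  Sec.ext_mk fun f => by
    rw [LinearMap.add_apply, Module.End.mul_apply, Module.End.mul_apply, Sec.mul_mk h, Sec.pd_mk,
      Sec.pd_mk, Sec.mul_mk h, Sec.mul_mk (contDiff_dM R v h), Sec.mk_add, Sec.mk_eq_iff]
    intro x _
    exact fderiv_evC (h.differentiable (by simp) x) (f.diff x) _

/-- a combination of tangential derivatives with real coefficients -/
theorem Sec.sum_re_pd (R : Ret V) (b : A → V) {g : A → V → ℝ} (hg : ∀ a, ContDiff ℝ ∞ (g a))
    (f f' : CF V F) (h : ∀ x ∈ R.S, fderiv ℝ f.1 x (R.P x (∑ a, g a x • b a)) = f'.1 x) :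
    (∑ a, Sec.mul R.S (fun x => ((g a x : ℝ) : ℂ) • (1 : F →L[ℂ] F)) * Sec.pd R F (b a))
      (Sec.mk R.S f) = Sec.mk R.S f' := by
  rw [LinearMap.sum_apply]
  simp only [Module.End.mul_apply, Sec.pd_mk, fun a => Sec.mul_mk (S := R.S)
    (contDiff_re_one (F := F) (hg a))]
  rw [Sec.mk_sum, Sec.mk_eq_iff]
  intro x hx
  rw [CF.val_sum, ← h x hx]
  simp

/-- `∑_a ⟪P b_a, w⟫ ∂_a = ∂_w` -/
theorem Sec.sum_pd (R : Ret V) (b : OrthonormalBasis A ℝ V) (w : V) :
    ∑ a, Sec.mul R.S (fun x => ((⟪R.P x (b a), w⟫_ℝ : ℝ) : ℂ) • (1 : F →L[ℂ] F)) *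
      Sec.pd R F (b a) = Sec.pd R F w := Sec.ext_mk fun f => by
  rw [Sec.pd_mk]
  refine Sec.sum_re_pd R b (g := fun a x => ⟪R.P x (b a), w⟫_ℝ)
    (fun a => (R.P_smooth.clm_apply contDiff_const).inner ℝ contDiff_const) f _ fun x hx => ?_
  simp only [R.P_symm hx, b.sum_repr', R.P_idem hx, CF.pd_val]

section D1
variable {R : Ret V} {b : OrthonormalBasis A ℝ V} {L L' : Module.End ℂ (Sec R.S F)}

theorem Sec.mul_zero'' : Sec.mul S (fun _ => (0 : F →L[ℂ] F)) = 0 := Sec.mul_zero' fun _ _ => rfl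

theorem IsD1.mul (h : ContDiff ℝ ∞ M) : IsD1 R b (Sec.mul R.S M) :=
  ⟨fun _ _ => 0, M, fun _ => contDiff_const, h, by simp [Sec.mul_zero'']⟩

theorem IsD1.zero : IsD1 (F := F) R b 0 := by
  simpa [Sec.mul_zero''] using
    IsD1.mul (R := R) (b := b) (M := fun _ => (0 : F →L[ℂ] F)) contDiff_const

theorem IsD1.pd (v : V) : IsD1 R b (Sec.pd R F v) :=
  ⟨fun a x => ((⟪R.P x (b a), v⟫_ℝ : ℝ) : ℂ) • (1 : F →L[ℂ] F), fun _ => 0,
    fun _ => contDiff_re_one ((R.P_smooth.clm_apply contDiff_const).inner ℝ contDiff_const),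
    contDiff_const, by rw [Sec.sum_pd, Sec.mul_zero'', add_zero]⟩

theorem IsD1.add (h : IsD1 R b L) (h' : IsD1 R b L') : IsD1 R b (L + L') := by
  obtain ⟨B, C, hB, hC, rfl⟩ := h
  obtain ⟨B', C', hB', hC', rfl⟩ := h'
  refine ⟨fun a x => B a x + B' a x, fun x => C x + C' x, fun a => (hB a).add (hB' a), hC.add hC',
    ?_⟩
  simp only [fun a => Sec.mul_add' (S := R.S) (hB a) (hB' a), Sec.mul_add' hC hC', add_mul,
    Finset.sum_add_distrib]
  abel

theorem IsD1.neg (h : IsD1 R b L) : IsD1 R b (-L) := by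
  obtain ⟨B, C, hB, hC, rfl⟩ := h
  refine ⟨fun a x => -B a x, fun x => -C x, fun a => (hB a).neg, hC.neg, ?_⟩
  have hn : ∀ X Y : Module.End ℂ (Sec R.S F), -X * Y = -(X * Y) := fun X Y => neg_mul X Y
  simp only [Sec.mul_neg', hn, Finset.sum_neg_distrib]
  abel

theorem IsD1.sub (h : IsD1 R b L) (h' : IsD1 R b L') : IsD1 R b (L - L') := by
  rw [sub_eq_add_neg]
  exact h.add h'.neg

theorem IsD1.sum {B : Type} (s : Finset B) {N : B → Module.End ℂ (Sec R.S F)}
    (h : ∀ i ∈ s, IsD1 R b (N i)) : IsD1 R b (∑ i ∈ s, N i) :=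
  Finset.sum_induction N (IsD1 R b) (fun _ _ => IsD1.add) IsD1.zero h

theorem IsD1.mul_left (hM : ContDiff ℝ ∞ M) (h : IsD1 R b L) :
    IsD1 R b (Sec.mul R.S M * L) := by
  obtain ⟨B, C, hB, hC, rfl⟩ := h
  refine ⟨fun a x => M x * B a x, fun x => M x * C x, fun a => contDiff_mulC hM (hB a),
    contDiff_mulC hM hC, ?_⟩
  simp only [fun a => Sec.mul_mul' (S := R.S) hM (hB a), Sec.mul_mul' hM hC, mul_add,
    Finset.mul_sum, mul_assoc]

theorem IsD1.mul_right (hM : ContDiff ℝ ∞ M) (h : IsD1 R b L) :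
    IsD1 R b (L * Sec.mul R.S M) := by
  obtain ⟨B, C, hB, hC, rfl⟩ := h
  rw [add_mul, Finset.sum_mul]
  refine IsD1.add (IsD1.sum _ fun a _ => ?_) ((IsD1.mul hM).mul_left hC)
  rw [mul_assoc, Sec.pd_mul R _ hM]
  exact (((IsD1.pd _).mul_left hM).add (IsD1.mul (contDiff_dM R _ hM))).mul_left (hB a)

/-- the normal part of the derivative of the projection -/
theorem DP_split (R : Ret V) {x : V} (hx : x ∈ R.S) {u : V} (hu : R.P x u = u) (a : V) :
    fderiv ℝ R.P x u (R.P x a) + R.P x (fderiv ℝ R.P x u a) = fderiv ℝ R.P x u a := by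
  have hP : Differentiable ℝ R.P := R.P_smooth.differentiable (by simp)
  have h1 := (hP x).hasFDerivAt.clm_apply (R.hasFDerivAt_P_apply x a)
  have h2 := R.hasFDerivAt_P_apply x a
  have h3 := Wein.Tan.fderiv_congr ((R.mem_tan hx u).2 hu) h1.differentiableAt h2.differentiableAt
    (Eventually.of_forall fun y hy => R.P_idem hy a)
  rw [h1.fderiv, h2.fderiv] at h3
  simpa [add_comm] using h3

/-- the bracket of two tangent fields is tangent -/
theorem P_bracket (R : Ret V) {x : V} (hx : x ∈ R.S) (v w : V) :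
    R.P x (fderiv ℝ R.P x (R.P x v) w - fderiv ℝ R.P x (R.P x w) v) =
      fderiv ℝ R.P x (R.P x v) w - fderiv ℝ R.P x (R.P x w) v := by
  have h1 := DP_split R hx (R.P_idem hx v) w
  have h2 := DP_split R hx (R.P_idem hx w) v
  rw [R.DP_comm x (R.P x w) (R.P x v)] at h2
  rw [map_sub, eq_sub_of_add_eq' h1, eq_sub_of_add_eq' h2]
  abel

theorem fderiv_pd (R : Ret V) (f : CF V F) (w x u : V) :
    fderiv ℝ (CF.pd R w f).1 x u =
      fderiv ℝ (fderiv ℝ f.1) x u (R.P x w) + fderiv ℝ f.1 x (fderiv ℝ R.P x u w) := by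
  have hD : Differentiable ℝ (fderiv ℝ f.1) :=
    (f.smooth.fderiv_right (m := ∞) (by simp)).differentiable (by simp)
  have h := ((hD x).hasFDerivAt.clm_apply (R.hasFDerivAt_P_apply x w)).fderiv
  have h2 : fderiv ℝ (CF.pd R w f).1 x = _ := h
  rw [h2]
  simp [add_comm]

/-- the commutator of two tangential derivatives has order one -/
theorem IsD1.comm (v w : V) :
    IsD1 R b (Sec.pd R F v * Sec.pd R F w - Sec.pd R F w * Sec.pd R F v) := by
  have hd : ∀ v w : V, ContDiff ℝ ∞ fun x => fderiv ℝ R.P x (R.P x v) w := fun v w =>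
    ((R.P_smooth.fderiv_right (m := ∞) (by simp)).clm_apply
      (R.P_smooth.clm_apply contDiff_const)).clm_apply contDiff_const
  have hg : ∀ a, ContDiff ℝ ∞ fun x =>
      ⟪b a, fderiv ℝ R.P x (R.P x v) w - fderiv ℝ R.P x (R.P x w) v⟫_ℝ := fun a =>
    contDiff_const.inner ℝ ((hd v w).sub (hd w v))
  refine ⟨_, fun _ => 0, fun a => contDiff_re_one (hg a), contDiff_const, ?_⟩
  rw [Sec.mul_zero'', add_zero]
  refine Sec.ext_mk fun f => ?_
  rw [LinearMap.sub_apply, Module.End.mul_apply, Module.End.mul_apply, Sec.pd_mk, Sec.pd_mk,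
    Sec.pd_mk, Sec.pd_mk, Sec.mk_sub]
  refine (Sec.sum_re_pd R b hg f _ fun x hx => ?_).symm
  have hsym : IsSymmSndFDerivAt ℝ f.1 x :=
    f.smooth.contDiffAt.isSymmSndFDerivAt (by
      rw [minSmoothness_of_isRCLikeNormedField]; exact ENat.LEInfty.out)
  rw [b.sum_repr', P_bracket R hx, CF.val_sub, Pi.sub_apply, CF.pd_val, CF.pd_val, fderiv_pd,
    fderiv_pd, hsym.eq (R.P x v) (R.P x w), map_sub]
  abel

end D1

section ip
variable [MeasurableSpace V] [BorelSpace V] [FiniteDimensional ℝ V] {μ : Measure V} {m : ℕ}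

omit [BorelSpace V] [FiniteDimensional ℝ V] in
theorem IsVol.ae_mem (hμ : IsVol S m μ) : ∀ᵐ x ∂μ, x ∈ S := hμ.conc

omit [MeasurableSpace V] [BorelSpace V] [FiniteDimensional ℝ V] in
theorem Sec.out_mk (f : CF V F) : ∀ x ∈ S, (Quotient.out (Sec.mk S f)).1 x = f.1 x :=
  Sec.mk_eq_iff.1 (Submodule.Quotient.mk_out _)

theorem Sec.ip_mk (hμ : IsVol S m μ) (f g : CF V F) :
    Sec.ip μ (Sec.mk S f) (Sec.mk S g) = ∫ x, ⟪f.1 x, g.1 x⟫_ℂ ∂μ :=
  integral_congr_ae (hμ.ae_mem.mono fun x hx => by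
    simp only [Sec.out_mk f x hx, Sec.out_mk g x hx])

theorem IsVol.integrable {G : Type} [NormedAddCommGroup G] (hμ : IsVol S m μ) (hS : IsCompact S)
    {f : V → G} (hf : Continuous f) : Integrable f μ := by
  have := hμ.fin
  have h := hf.continuousOn.integrableOn_compact (μ := μ) hS
  rwa [IntegrableOn, Measure.restrict_eq_self_of_ae_mem hμ.ae_mem] at h

theorem Sec.ip_add_right (hμ : IsVol S m μ) (hS : IsCompact S) (u w w' : Sec S F) :
    Sec.ip μ u (w + w') = Sec.ip μ u w + Sec.ip μ u w' := by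
  obtain ⟨f, rfl⟩ := u.exists_mk
  obtain ⟨g, rfl⟩ := w.exists_mk
  obtain ⟨g', rfl⟩ := w'.exists_mk
  rw [Sec.mk_add, Sec.ip_mk hμ, Sec.ip_mk hμ, Sec.ip_mk hμ, ← integral_add
    (hμ.integrable hS (f.smooth.continuous.inner g.smooth.continuous))
    (hμ.integrable hS (f.smooth.continuous.inner g'.smooth.continuous))]
  simp only [CF.val_add, Pi.add_apply, inner_add_right]

theorem Sec.ip_smul_right (hμ : IsVol S m μ) (c : ℂ) (u w : Sec S F) :
    Sec.ip μ u (c • w) = c * Sec.ip μ u w := by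
  obtain ⟨f, rfl⟩ := u.exists_mk
  obtain ⟨g, rfl⟩ := w.exists_mk
  rw [Sec.mk_smul, Sec.ip_mk hμ, Sec.ip_mk hμ, ← integral_const_mul]
  simp only [CF.val_smul, Pi.smul_apply, inner_smul_right]

theorem Sec.ip_conj (u w : Sec S F) : conj (Sec.ip μ u w) = Sec.ip μ w u := by
  rw [Sec.ip, Sec.ip, ← integral_conj]
  simp only [inner_conj_symm]

omit [BorelSpace V] [FiniteDimensional ℝ V] in
theorem integral_inner_self (f : V → F) :
    (∫ x, ⟪f x, f x⟫_ℂ ∂μ).re = ∫ x, ‖f x‖ ^ 2 ∂μ := by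
  have h : ∀ x, ⟪f x, f x⟫_ℂ = ((‖f x‖ ^ 2 : ℝ) : ℂ) := fun x => by
    rw [inner_self_eq_norm_sq_to_K]
    simp
  simp only [h]
  rw [integral_complex_ofReal, Complex.ofReal_re]

theorem Sec.ip_nonneg (u : Sec S F) : 0 ≤ (Sec.ip μ u u).re := by
  rw [Sec.ip, integral_inner_self]
  exact integral_nonneg fun x => by positivity

omit [MeasurableSpace V] [BorelSpace V] [FiniteDimensional ℝ V] in
theorem RC.dφ_dψ (A : RC S m) {y : EE m} (hy : y ∈ A.O) (v : EE m) :
    fderiv ℝ A.φ (A.ψ y) (fderiv ℝ A.ψ y v) = v := by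
  have h1 := (A.φ_smooth.differentiable (by simp) (A.ψ y)).hasFDerivAt.comp y
    (A.ψ_smooth.differentiable (by simp) y).hasFDerivAt
  have h2 : HasFDerivAt (A.φ ∘ A.ψ) (ContinuousLinearMap.id ℝ (EE m)) y :=
    (hasFDerivAt_id y).congr_of_eventuallyEq
      (Filter.mem_of_superset (A.O_open.mem_nhds hy) fun z hz => A.φψ z hz)
  exact congrArg (fun L => L v) (h1.unique h2)

omit [MeasurableSpace V] [BorelSpace V] [FiniteDimensional ℝ V] in
theorem RC.gram_pos (A : RC S m) {y : EE m} (hy : y ∈ A.O) :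
    0 < Matrix.det (Matrix.of fun j k : Fin m => ⟪fderiv ℝ A.ψ y (EuclideanSpace.single j 1),
      fderiv ℝ A.ψ y (EuclideanSpace.single k 1)⟫_ℝ) := by
  have h1 : LinearIndependent ℝ fun j : Fin m => (EuclideanSpace.single j 1 : EE m) := by
    simpa using (EuclideanSpace.orthonormal_single (𝕜 := ℝ) (ι := Fin m)).linearIndependent
  have h2 : LinearIndependent ℝ fun j : Fin m => fderiv ℝ A.ψ y (EuclideanSpace.single j 1) :=
    h1.map' (fderiv ℝ A.ψ y : EE m →ₗ[ℝ] V) (LinearMap.ker_eq_bot.2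
      (Function.LeftInverse.injective (g := fderiv ℝ A.φ (A.ψ y)) (A.dφ_dψ hy)))
  exact (Matrix.posDef_gram_of_linearIndependent h2).det_pos

theorem rho_pos (A : RC S m) : ∀ y ∈ A.O, 0 < rho A.ψ y := fun _ hy =>
  Real.sqrt_pos.2 (A.gram_pos hy)

theorem rho_smooth (A : RC S m) : ContDiffOn ℝ ∞ (rho A.ψ) A.O := by
  refine ContDiffOn.sqrt (ContDiff.contDiffOn ?_) fun y hy => (A.gram_pos hy).ne'
  have hD : ∀ v, ContDiff ℝ ∞ fun y => fderiv ℝ A.ψ y v := fun v =>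
    (A.ψ_smooth.fderiv_right (m := ∞) (by simp)).clm_apply contDiff_const
  simp only [Matrix.det_apply', Matrix.of_apply]
  exact ContDiff.sum fun σ _ => contDiff_const.mul
    (contDiff_prod fun i _ => (hD _).inner ℝ (hD _))

/-- a continuous function that vanishes almost everywhere vanishes on `S` -/
theorem IsVol.eq_zero {G : Type} [NormedAddCommGroup G] (hμ : IsVol S m μ) {f : V → G}
    (hf : ContinuousOn f S) (h0 : f =ᵐ[μ] 0) : ∀ x ∈ S, f x = 0 := by
  intro x hx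
  obtain ⟨A, hA⟩ := hμ.chart x hx
  have h1 : ∀ᵐ z ∂μ.restrict A.W, f z = 0 := ae_restrict_of_ae h0
  rw [hμ.loc A] at h1
  have h2 := ae_of_ae_map A.ψ_smooth.continuous.measurable.aemeasurable h1
  have hac : volume.restrict A.O ≪
      (volume.restrict A.O).withDensity fun y => ENNReal.ofReal (rho A.ψ y) := by
    refine withDensity_absolutelyContinuous'
      ((rho_smooth A).continuousOn.aemeasurable A.O_open.measurableSet).ennreal_ofReal ?_
    refine (ae_restrict_mem A.O_open.measurableSet).mono fun y hy => ?_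
    exact (ENNReal.ofReal_pos.2 (rho_pos A y hy)).ne'
  have h3 : (fun y => f (A.ψ y)) =ᵐ[volume.restrict A.O] fun _ => 0 := hac.ae_le h2
  have h4 := Measure.eqOn_open_of_ae_eq h3 A.O_open
    (hf.comp A.ψ_smooth.continuous.continuousOn fun y hy => (A.ψ_mem y hy).1) continuousOn_const
    (A.φ_mem x ⟨hx, hA⟩)
  simpa [A.ψφ x ⟨hx, hA⟩] using h4

theorem Sec.ip_eq_zero (hμ : IsVol S m μ) (hS : IsCompact S) {u : Sec S F}
    (h : (Sec.ip μ u u).re = 0) : u = 0 := by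
  obtain ⟨f, rfl⟩ := u.exists_mk
  rw [Sec.ip_mk hμ, integral_inner_self] at h
  have hc : Continuous fun x => ‖f.1 x‖ ^ 2 := f.smooth.continuous.norm.pow 2
  have h1 := (integral_eq_zero_iff_of_nonneg (fun x => by positivity) (hμ.integrable hS hc)).1 h
  rw [Sec.mk_zero, Sec.mk_eq_iff]
  intro x hx
  simpa using hμ.eq_zero hc.continuousOn h1 x hx

theorem Sec.ip_mul (hμ : IsVol S m μ) (h : ContDiff ℝ ∞ M) (h' : ContDiff ℝ ∞ M')
    (hadj : ∀ x ∈ S, ∀ y z, ⟪M x y, z⟫_ℂ = ⟪y, M' x z⟫_ℂ) (u w : Sec S F) :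
    Sec.ip μ (Sec.mul S M u) w = Sec.ip μ u (Sec.mul S M' w) := by
  obtain ⟨f, rfl⟩ := u.exists_mk
  obtain ⟨g, rfl⟩ := w.exists_mk
  rw [Sec.mul_mk h, Sec.mul_mk h', Sec.ip_mk hμ, Sec.ip_mk hμ]
  exact integral_congr_ae (hμ.ae_mem.mono fun x hx => hadj x hx _ _)

end ip

end Pool.Agent.HT
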