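import Pool.Agent.P.MP_65ad7c_ag.HFock
import Pool.Agent.P.MP_65ad7c_ag.HOps

/-! The operators of Kaehler geometry on sections of the Fock bundle. -/

open scoped ContDiff InnerProductSpace

noncomputable section
namespace Pool.Agent.HT
open Pool.Agent.Wein (Ret)

variable {V : Type} [NormedAddCommGroup V] [InnerProductSpace ℝ V]
  {F : Type} [NormedAddCommGroup F] [InnerProductSpace ℂ F] (Φ : Fock V F) (R : Ret V)
  {A : Type} [Fintype A] (b : OrthonormalBasis A ℝ V)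

/-- the connection form: `D + K` preserves the tangent and the normal bundle -/
def Kc (v x : V) : V →L[ℝ] V := ((2 : ℝ) • R.P x - 1) * fderiv ℝ R.P x (R.P x v)

/-- covariant derivative -/
def nab (v : V) : Module.End ℂ (Sec R.S F) :=
  Sec.pd R F v - Sec.mul R.S fun x => Φ.dG b (Kc R v x)

/-- `∑ ε(T b_a) ∇_a` -/
def dT (T : V → V →L[ℝ] V) : Module.End ℂ (Sec R.S F) :=
  ∑ a, Sec.mul R.S (fun x => Φ.ep (T x (b a))) * nab Φ R b (b a)

/-- `- ∑ ι(T b_a) ∇_a` -/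
def sT (T : V → V →L[ℝ] V) : Module.End ℂ (Sec R.S F) :=
  -∑ a, Sec.mul R.S (fun x => Φ.io (T x (b a))) * nab Φ R b (b a)

/-- the second quantisation of a field of endomorphisms -/
def mG (T : V → V →L[ℝ] V) : Module.End ℂ (Sec R.S F) := Sec.mul R.S fun x => Φ.dG b (T x)

/-- the normal number operator -/
def nN : Module.End ℂ (Sec R.S F) := mG Φ R b fun x => 1 - R.P x

/-- the tangential complex structure -/
def Jt (J : V → V →L[ℝ] V) (x : V) : V →L[ℝ] V := J x * R.P x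

/-- a parallel field of tangential endomorphisms -/
structure IsPar (T : V → V →L[ℝ] V) : Prop where
  smooth : ContDiff ℝ ∞ T
  left : ∀ x ∈ R.S, R.P x * T x = T x
  right : ∀ x ∈ R.S, T x * R.P x = T x
  par : ∀ x ∈ R.S, ∀ v, fderiv ℝ T x (R.P x v) + (Kc R v x * T x - T x * Kc R v x) = 0

/-- Operators `d, d^*, d^c, d^{c*}` on a submodule `T` of a module with an inner product. -/
structure Pack {M : Type} [AddCommGroup M] [Module ℂ M] (ip : M → M → ℂ) (T : Submodule ℂ M)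
    (d ds c cs : Module.End ℂ M) : Prop where
  add : ∀ u w w', ip u (w + w') = ip u w + ip u w'
  smul : ∀ (a : ℂ) u w, ip u (a • w) = a * ip u w
  conj : ∀ u w, starRingEnd ℂ (ip u w) = ip w u
  nonneg : ∀ u, 0 ≤ (ip u u).re
  defn : ∀ u, (ip u u).re = 0 → u = 0
  d_mem : ∀ u ∈ T, d u ∈ T
  ds_mem : ∀ u ∈ T, ds u ∈ T
  c_mem : ∀ u ∈ T, c u ∈ T
  cs_mem : ∀ u ∈ T, cs u ∈ T
  adj_d : ∀ u w, ip (d u) w = ip u (ds w)
  adj_c : ∀ u w, ip (c u) w = ip u (cs w)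
  dd : ∀ u ∈ T, d (d u) = 0
  cc : ∀ u ∈ T, c (c u) = 0
  dc : ∀ u ∈ T, d (c u) + c (d u) = 0
  dcs : ∀ u ∈ T, d (cs u) + cs (d u) = 0
  cds : ∀ u ∈ T, c (ds u) + ds (c u) = 0
  lap : ∀ u ∈ T, d (ds u) + ds (d u) = c (cs u) + cs (c u)
  hodge : ∀ u ∈ T, ∃ h ∈ T, ∃ w ∈ T, d (ds h) + ds (d h) = 0 ∧ u = h + (d (ds w) + ds (d w))

end Pool.Agent.HT
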