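import Pool.Agent.P.MP_65ad7c_ag.HBase

/-! Sections of a trivial Hermitian bundle over a smooth retract, volume, Fourier classes. -/

open Set Filter Topology MeasureTheory
open scoped ContDiff InnerProductSpace FourierTransform

noncomputable section
namespace Pool.Agent.HT
open Pool.Agent.Wein (Ret Tan)

section sec
variable {V : Type} [NormedAddCommGroup V] [InnerProductSpace ℝ V]
  {F : Type} [NormedAddCommGroup F] [InnerProductSpace ℂ F]

/-- evaluation of a complex linear operator as a real bilinear map -/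
def evC (F : Type) [NormedAddCommGroup F] [InnerProductSpace ℂ F] :
    (F →L[ℂ] F) →L[ℝ] F →L[ℝ] F :=
  ContinuousLinearMap.restrictScalarsL ℂ F F ℝ ℝ

@[simp] theorem evC_apply (M : F →L[ℂ] F) (y : F) : evC F M y = M y := rfl

theorem contDiff_evC {X : Type} [NormedAddCommGroup X] [NormedSpace ℝ X] {M : X → F →L[ℂ] F}
    {f : X → F} (hM : ContDiff ℝ ∞ M) (hf : ContDiff ℝ ∞ f) : ContDiff ℝ ∞ fun x => M x (f x) :=
  ((evC F).contDiff.comp hM).clm_apply hf

/-- smooth functions, as a submodule -/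
def cf (V F : Type) [NormedAddCommGroup V] [InnerProductSpace ℝ V] [NormedAddCommGroup F]
    [InnerProductSpace ℂ F] : Submodule ℂ (V → F) where
  carrier := {f | ContDiff ℝ ∞ f}
  add_mem' := fun {a b} (ha : ContDiff ℝ ∞ a) (hb : ContDiff ℝ ∞ b) => ha.add hb
  zero_mem' := (contDiff_const : ContDiff ℝ ∞ fun _ : V => (0 : F))
  smul_mem' := fun c a (ha : ContDiff ℝ ∞ a) => ha.const_smul c

/-- smooth functions -/
def CF (V F : Type) [NormedAddCommGroup V] [InnerProductSpace ℝ V] [NormedAddCommGroup F]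
    [InnerProductSpace ℂ F] : Type := cf V F

instance : AddCommGroup (CF V F) := inferInstanceAs (AddCommGroup (cf V F))
instance : Module ℂ (CF V F) := inferInstanceAs (Module ℂ (cf V F))

/-- a smooth function from a function and a proof -/
def CF.mk (f : V → F) (h : ContDiff ℝ ∞ f) : CF V F := ⟨f, h⟩

theorem CF.smooth (f : CF V F) : ContDiff ℝ ∞ f.1 := f.2
theorem CF.diff (f : CF V F) (x : V) : DifferentiableAt ℝ f.1 x :=
  f.smooth.differentiable (by simp) x
@[simp] theorem CF.mk_val (f : V → F) (h : ContDiff ℝ ∞ f) : (CF.mk f h).1 = f := rfl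
@[ext] theorem CF.ext {a b : CF V F} (h : a.1 = b.1) : a = b := Subtype.ext h
@[simp] theorem CF.val_add (a b : CF V F) : (a + b).1 = a.1 + b.1 := rfl
@[simp] theorem CF.val_sub (a b : CF V F) : (a - b).1 = a.1 - b.1 := rfl
@[simp] theorem CF.val_neg (a : CF V F) : (-a).1 = -a.1 := rfl
@[simp] theorem CF.val_smul (c : ℂ) (a : CF V F) : (c • a).1 = c • a.1 := rfl
@[simp] theorem CF.val_zero : (0 : CF V F).1 = 0 := rfl

/-- smooth functions that vanish on `S` -/
def Z0 (S : Set V) (F : Type) [NormedAddCommGroup F] [InnerProductSpace ℂ F] :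
    Submodule ℂ (CF V F) where
  carrier := {f | ∀ x ∈ S, f.1 x = 0}
  add_mem' := fun {a b} ha hb x hx => by simp [ha x hx, hb x hx]
  zero_mem' := fun _ _ => rfl
  smul_mem' := fun c a ha x hx => by simp [ha x hx]

/-- smooth sections over `S` -/
abbrev Sec (S : Set V) (F : Type) [NormedAddCommGroup F] [InnerProductSpace ℂ F] :=
  CF V F ⧸ Z0 S F

/-- the additive structure used by the ring of operators on sections -/
instance (priority := high) Sec.addCommMonoid (S : Set V) : AddCommMonoid (Sec S F) :=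
  (Submodule.Quotient.addCommGroup (Z0 S F)).toAddCommMonoid

instance (priority := high) Sec.module (S : Set V) : Module ℂ (Sec S F) :=
  Submodule.Quotient.module (Z0 S F)

/-- the class of a smooth function -/
abbrev Sec.mk (S : Set V) (f : CF V F) : Sec S F := Submodule.Quotient.mk f

theorem Sec.mk_eq_iff {S : Set V} {f g : CF V F} :
    Sec.mk S f = Sec.mk S g ↔ ∀ x ∈ S, f.1 x = g.1 x := by
  rw [Submodule.Quotient.eq]
  exact forall₂_congr fun x _ => sub_eq_zero

/-- multiplication of smooth functions by a smooth operator valued function -/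
def CF.mul (M : V → F →L[ℂ] F) (h : ContDiff ℝ ∞ M) : CF V F →ₗ[ℂ] CF V F where
  toFun f := CF.mk (fun x => M x (f.1 x)) (contDiff_evC h f.smooth)
  map_add' a b := CF.ext (by ext x; simp)
  map_smul' c a := CF.ext (by ext x; simp)

/-- multiplication operator (zero if `M` is not smooth) -/
def Sec.mul (S : Set V) (M : V → F →L[ℂ] F) : Module.End ℂ (Sec S F) := by
  classical exact if h : ContDiff ℝ ∞ M then
    Submodule.mapQ _ _ (CF.mul M h) (fun f hf x hx => by
      show M x (f.1 x) = 0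
      rw [hf x hx, map_zero]) else 0

theorem Sec.mul_mk {S : Set V} {M : V → F →L[ℂ] F} (h : ContDiff ℝ ∞ M) (f : CF V F) :
    Sec.mul S M (Sec.mk S f) = Sec.mk S (CF.mk (fun x => M x (f.1 x)) (contDiff_evC h f.smooth)) := by
  simp only [Sec.mul, dif_pos h]; rfl

/-- tangential derivative of smooth functions -/
def CF.pd (R : Ret V) (v : V) : CF V F →ₗ[ℂ] CF V F where
  toFun f := CF.mk (fun x => fderiv ℝ f.1 x (R.P x v))
    ((f.smooth.fderiv_right (m := ∞) (by simp)).clm_apply (R.P_smooth.clm_apply contDiff_const))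
  map_add' a b := CF.ext (by ext x; simp [fderiv_add (a.diff x) (b.diff x)])
  map_smul' c a := CF.ext (by ext x; simp [fderiv_const_smul (a.diff x)])

@[simp] theorem CF.pd_val (R : Ret V) (v : V) (f : CF V F) (x : V) :
    (CF.pd R v f).1 x = fderiv ℝ f.1 x (R.P x v) := rfl

/-- derivative in the direction of the tangential part of `v` -/
def Sec.pd (R : Ret V) (F : Type) [NormedAddCommGroup F] [InnerProductSpace ℂ F] (v : V) :
    Module.End ℂ (Sec R.S F) :=
  Submodule.mapQ _ _ (CF.pd R v) fun f hf x hx => by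
    have := Tan.fderiv_congr ((R.mem_tan hx _).2 (R.P_idem hx v)) (f := f.1) (g := fun _ => 0)
      (f.diff x) (differentiableAt_const _) (Eventually.of_forall fun y hy => hf y hy)
    simpa using this

theorem Sec.pd_mk (R : Ret V) (v : V) (f : CF V F) :
    Sec.pd R F v (Sec.mk R.S f) = Sec.mk R.S (CF.pd R v f) := rfl

/-- the `L^2` product -/
def Sec.ip [MeasurableSpace V] (μ : Measure V) {S : Set V} (u w : Sec S F) : ℂ :=
  ∫ x, ⟪(Quotient.out u).1 x, (Quotient.out w).1 x⟫_ℂ ∂μ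

/-- first order operators -/
def IsD1 (R : Ret V) {A : Type} [Fintype A] (b : OrthonormalBasis A ℝ V)
    (L : Module.End ℂ (Sec R.S F)) : Prop :=
  ∃ (B : A → V → F →L[ℂ] F) (C : V → F →L[ℂ] F), (∀ a, ContDiff ℝ ∞ (B a)) ∧ ContDiff ℝ ∞ C ∧
    L = ∑ a, Sec.mul R.S (B a) * Sec.pd R F (b a) + Sec.mul R.S C

/-- Canonical anticommutation relations, with a dictionary to alternating forms. -/
structure Fock (V F : Type) [NormedAddCommGroup V] [InnerProductSpace ℝ V] [NormedAddCommGroup F]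
    [InnerProductSpace ℂ F] where
  io : V →L[ℝ] F →L[ℂ] F
  ep : V →L[ℝ] F →L[ℂ] F
  psi : ∀ q, F →L[ℝ] Alt V q
  phi : ∀ q, Alt V q →L[ℝ] F
  adj : ∀ v x y, ⟪ep v x, y⟫_ℂ = ⟪x, io v y⟫_ℂ
  car : ∀ v w, io v * ep w + ep w * io v = ((⟪v, w⟫_ℝ : ℝ) : ℂ) • 1
  anti : ∀ v w, io v * io w + io w * io v = 0
  psi_smul : ∀ q (c : ℂ) x, psi q (c • x) = c • psi q x
  psi_succ : ∀ q x v (w : Fin q → V), psi (q + 1) x (Fin.cons v w) = psi q (io v x) w
  psi_ep : ∀ v x, psi 0 (ep v x) = 0
  psi_phi : ∀ q a, psi q (phi q a) = a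
  psi_phi_ne : ∀ q q' a, q' ≠ q → psi q' (phi q a) = 0
  ext : ∀ x, (∀ q, psi q x = 0) → x = 0

end sec

section vol
variable {V : Type} [NormedAddCommGroup V] [InnerProductSpace ℝ V]

/-- the model space -/
abbrev EE (m : ℕ) := EuclideanSpace ℝ (Fin m)

/-- a globally smooth chart of `S` -/
structure RC (S : Set V) (m : ℕ) where
  O : Set (EE m)
  W : Set V
  ψ : EE m → V
  φ : V → EE m
  O_open : IsOpen O
  W_open : IsOpen W
  ψ_smooth : ContDiff ℝ ∞ ψ
  φ_smooth : ContDiff ℝ ∞ φ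
  ψ_mem : ∀ y ∈ O, ψ y ∈ S ∩ W
  φ_mem : ∀ x ∈ S ∩ W, φ x ∈ O
  φψ : ∀ y ∈ O, φ (ψ y) = y
  ψφ : ∀ x ∈ S ∩ W, ψ (φ x) = x

/-- the Riemannian density in a chart -/
def rho {m : ℕ} (ψ : EE m → V) (y : EE m) : ℝ :=
  √(Matrix.det (Matrix.of fun j k : Fin m =>
    ⟪fderiv ℝ ψ y (EuclideanSpace.single j 1), fderiv ℝ ψ y (EuclideanSpace.single k 1)⟫_ℝ))

/-- the Riemannian measure of `S` -/
structure IsVol [MeasurableSpace V] (S : Set V) (m : ℕ) (μ : Measure V) : Prop where
  fin : IsFiniteMeasure μ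
  conc : μ Sᶜ = 0
  chart : ∀ x ∈ S, ∃ A : RC S m, x ∈ A.W
  loc : ∀ A : RC S m, μ.restrict A.W =
    Measure.map A.ψ ((volume.restrict A.O).withDensity fun y => ENNReal.ofReal (rho A.ψ y))

end vol

section fourier
variable {m : ℕ} {F : Type} [NormedAddCommGroup F] [InnerProductSpace ℂ F]

/-- integrable functions whose Fourier transform decays to order `s` -/
def FH (s : ℕ) (v : EE m → F) : Prop :=
  Integrable v ∧ ∃ C : ℝ, ∀ ξ, (1 + ‖ξ‖) ^ s * ‖𝓕 v ξ‖ ≤ C

/-- smooth functions with compact support in `O` -/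
def Test {G : Type} [NormedAddCommGroup G] [NormedSpace ℝ G] (O : Set (EE m)) (χ : EE m → G) :
    Prop := ContDiff ℝ ∞ χ ∧ HasCompactSupport χ ∧ tsupport χ ⊆ O

/-- `u` is in `FH s` locally on `O` -/
def FL (s : ℕ) (O : Set (EE m)) (u : EE m → F) : Prop :=
  ∀ χ : EE m → ℝ, Test O χ → FH s fun y => χ y • u y

/-- derivative along a vector field -/
def vd (X : EE m → EE m) (φ : EE m → F) : EE m → F := fun y => fderiv ℝ φ y (X y)

/-- the operator `- ∑ X_a X_a + ∑ B_a X_a + C` -/
def opP {A : Type} [Fintype A] (X : A → EE m → EE m) (B : A → EE m → F →L[ℂ] F)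
    (C : EE m → F →L[ℂ] F) (φ : EE m → F) : EE m → F := fun y =>
  -∑ a, vd (X a) (vd (X a) φ) y + ∑ a, B a y (vd (X a) φ y) + C y (φ y)

end fourier

end Pool.Agent.HT
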