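import Pool.Agent.P.MP_65ad7c_ag.HGeo0
import Pool.Agent.P.MP_65ad7c_ag.HPoly

/-! The Hodge filtration in terms of the type operator. -/

open Set Metric Filter Topology
open scoped ContDiff InnerProductSpace ComplexConjugate

noncomputable section
namespace Pool.Agent.HT
open Pool.Agent.Wein (Ret IsSubmanifold Tan)

variable {N m n e : ℕ} {R : Ret (Amb N)} {O : Set (Fin e → ℂ)} {g : (Fin e → ℂ) → Fin N → ℂ}
  {z : Fin e → ℂ}

theorem htype_hol (hO : IsOpen O) (hg : DifferentiableOn ℂ g O)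
    (hS : ∀ z ∈ O, g z ≠ 0 ∧ proj (g z) ∈ R.S) (hz : z ∈ O) :
    DifferentiableAt ℝ (proj ∘ g) z ∧ ∀ v, fderiv ℝ (proj ∘ g) z (Complex.I • v) =
      JP N (proj (g z)) (fderiv ℝ (proj ∘ g) z v) := by
  obtain ⟨h1, h2⟩ := proj_hol (g := id) (z := g z) analyticAt_id (hS z hz).1
  have h3 := (hg.differentiableAt (hO.mem_nhds hz)).hasFDerivAt.restrictScalars ℝ
  have h4 := (cda_diff h1).hasFDerivAt.comp z h3
  refine ⟨h4.differentiableAt, fun v => ?_⟩
  have h5 : fderiv ℝ (proj ∘ g) z = _ := h4.fderiv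
  rw [h5, ContinuousLinearMap.comp_apply, ContinuousLinearMap.comp_apply,
    ContinuousLinearMap.coe_restrictScalars', map_smul, h2]
  rfl

theorem htype_tan (hO : IsOpen O) (hg : DifferentiableOn ℂ g O)
    (hS : ∀ z ∈ O, g z ≠ 0 ∧ proj (g z) ∈ R.S) (hz : z ∈ O) (w : Fin e → ℂ) :
    R.P (proj (g z)) (fderiv ℝ (proj ∘ g) z w) = fderiv ℝ (proj ∘ g) z w := by
  have h1 : w ∈ Tan univ z := ⟨fun t => z + t • w, by simp, Eventually.of_forall fun _ => trivial,
    by simpa using ((hasDerivAt_id (0 : ℝ)).smul_const w).const_add z⟩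
  refine (R.mem_tan (hS z hz).2 _).1 (Wein.Tan.map h1 (htype_hol hO hg hS hz).1 ?_)
  filter_upwards [hO.mem_nhds hz] with y hy _ using (hS y hy).2

theorem htype_nul {α : SF (Amb N) n} (hα : α ∈ Nul R.S n) {x : Amb N} (hx : x ∈ R.S)
    {v : Fin n → Amb N} (hv : ∀ i, R.P x (v i) = v i) : α.1 x v = 0 := by
  have h := (nul_iff R).1 hα x hx v
  rwa [funext hv] at h

theorem htype_pure (hK : IsKR R (JP N) m) {α : SF (Amb N) n} {b : ℕ} (hb : b ≤ n)
    (hα : Om.mk R.S α ∈
      Module.End.eigenspace (Om.gam hK.gamOK n) (Complex.I * (2 * (b : ℂ) - n)))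
    (hO : IsOpen O) (hg : DifferentiableOn ℂ g O) (hS : ∀ z ∈ O, g z ≠ 0 ∧ proj (g z) ∈ R.S)
    (hz : z ∈ O) (v : Fin n → Fin e → ℂ) (c : ℂ) :
    pull (proj ∘ g) α.1 z (fun i => c • v i) =
      pull (proj ∘ g) α.1 z v * c ^ b * conj c ^ (n - b) := by
  have hx := (hS z hz).2
  have h1 : SF.gam (JP N) hK.smooth n α - (Complex.I * (2 * (b : ℂ) - n)) • α ∈ Nul R.S n :=
    (Submodule.Quotient.eq _).1 (Module.End.mem_eigenspace_iff.1 hα)
  have hT : ∀ u, u ∈ LinearMap.range (R.P (proj (g z)) : Amb N →ₗ[ℝ] Amb N) ↔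
      R.P (proj (g z)) u = u :=
    fun u => ⟨by rintro ⟨w, rfl⟩; exact R.P_idem hx w, fun h => ⟨u, h⟩⟩
  have h2 := der_eigen (JP N (proj (g z))) (LinearMap.range (R.P (proj (g z)) : Amb N →ₗ[ℝ] Amb N))
    (by rintro _ ⟨w, rfl⟩; exact ⟨_, hK.inv _ hx w⟩) (by rintro _ ⟨w, rfl⟩; exact hK.sq _ hx w) hb
    (α.1 (proj (g z))) (fun u hu => by
      simpa [sub_eq_zero] using htype_nul h1 hx fun i => (hT _).1 (hu i))
    (fun i => fderiv ℝ (proj ∘ g) z (v i)) (fun i => (hT _).2 (htype_tan hO hg hS hz _)) c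
  refine Eq.trans (congrArg (α.1 (proj (g z))) (funext fun i => ?_)) h2
  have h3 : c • v i = c.re • v i + c.im • Complex.I • v i := by
    ext k
    simp only [Pi.smul_apply, Pi.add_apply, smul_eq_mul, Complex.real_smul]
    linear_combination (-v i k) * Complex.re_add_im c
  rw [← (htype_hol hO hg hS hz).2, ← map_smul, ← map_smul, ← map_add, ← h3]
  rfl

theorem htype_zero (S : Set (Amb N)) (a : ℕ) : (0 : Om S n) ∈ TypeGe S a n :=
  ⟨0, fun _ _ _ _ _ _ _ _ _ => ⟨0, fun c => by simp [pull_apply]⟩, rfl⟩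

theorem htype_add {S : Set (Amb N)} {a : ℕ} {x y : Om S n} (hx : x ∈ TypeGe S a n)
    (hy : y ∈ TypeGe S a n) : x + y ∈ TypeGe S a n := by
  obtain ⟨α, h1, rfl⟩ := hx
  obtain ⟨α', h2, rfl⟩ := hy
  refine ⟨α + α', fun e O g hO hg hS z hz v => ?_, rfl⟩
  obtain ⟨β, hβ⟩ := h1 e O g hO hg hS z hz v
  obtain ⟨β', hβ'⟩ := h2 e O g hO hg hS z hz v
  refine ⟨β + β', fun c => ?_⟩
  simp only [Pi.add_apply, add_mul, Finset.sum_add_distrib, ← hβ c, ← hβ' c]
  rfl

theorem htype_im (b : ℕ) : (Complex.I * (2 * (b : ℂ) - n)).im = 2 * (b : ℝ) - n := by simp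

theorem HasPlots.typeGe_iff {R : Ret (Amb N)} (h : HasPlots R) {m : ℕ} (hK : IsKR R (JP N) m)
    (a n : ℕ) (x : Om R.S n) :
    x ∈ TypeGe R.S a n ↔ x ∈ EGe (Om.gam hK.gamOK n) (2 * (a : ℝ) - n) := by
  constructor
  · rintro ⟨α, hα, rfl⟩
    obtain ⟨μ, hμ⟩ := (Submodule.mem_iSup_finset_iff_exists_sum _ _).1 (hK.poly n (Om.mk R.S α))
    choose A hA using fun b => Submodule.Quotient.mk_surjective _ (μ b).1
    have h0 : ∑ b ∈ Finset.range (n + 1), A b - α ∈ Nul R.S n := by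
      refine (Submodule.Quotient.eq _).1 (Eq.trans ?_ hμ)
      exact (map_sum (Nul R.S n).mkQ _ _).trans (Finset.sum_congr rfl fun b _ => hA b)
    refine (congrArg (· ∈ EGe _ _) hμ).mp (Submodule.sum_mem _ fun b hb => ?_)
    have hb' : b ≤ n := Nat.lt_succ_iff.1 (Finset.mem_range.1 hb)
    rcases le_or_gt a b with hab | hab
    · refine Submodule.mem_iSup_of_mem _ (Submodule.mem_iSup_of_mem ?_ (μ b).2)
      have : (a : ℝ) ≤ b := by exact_mod_cast hab
      rw [mem_ofPred_eq, htype_im]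
      linarith
    have h1 : A b ∈ Nul R.S n := by
      refine (nul_iff R).2 fun y hy v => ?_
      obtain ⟨e, O, g, hO, hg, hS, z, hz, rfl, hw⟩ := h y hy
      choose w hw using hw
      obtain ⟨β, hβ⟩ := hα e O g hO hg hS z hz fun i => w (v i)
      have h2 := mono_indep (n := n) (fun k => pull (proj ∘ g) (A k).1 z (fun i => w (v i)) -
        if a ≤ k then β k else 0) (fun c => ?_) b hb'
      · rw [if_neg hab.not_ge, sub_zero] at h2
        exact Eq.trans (congrArg ((A b).1 (proj (g z))) (funext fun i => (hw _).symm)) h2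
      have h3 := htype_nul h0 hy fun i => htype_tan hO hg hS hz (c • w (v i))
      have h4 : ∀ s : Finset ℕ, (∑ k ∈ s, A k).1 = ∑ k ∈ s, (A k).1 := fun s =>
        map_sum (sf (Amb N) n).subtype _ _
      rw [SF.val_sub, h4, Pi.sub_apply, Finset.sum_apply, ContinuousAlternatingMap.sub_apply,
        ContinuousAlternatingMap.sum_apply, sub_eq_zero] at h3
      have h5 : Finset.Icc a n = (Finset.range (n + 1)).filter (a ≤ ·) := by
        ext k
        simp only [Finset.mem_Icc, Finset.mem_filter, Finset.mem_range]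
        omega
      have h6 := hβ c
      rw [h5, Finset.sum_filter] at h6
      simp only [sub_mul, ite_mul, zero_mul, Finset.sum_sub_distrib, ← h6, sub_eq_zero]
      refine Eq.trans (Finset.sum_congr rfl fun k hk => ?_) h3
      exact (htype_pure hK (Nat.lt_succ_iff.1 (Finset.mem_range.1 hk))
        ((hA k).symm ▸ (μ k).2 : Submodule.Quotient.mk (A k) ∈ _)
        hO hg hS hz _ c).symm
    rw [← hA b, (Submodule.Quotient.mk_eq_zero _).2 h1]
    exact zero_mem _
  · intro hx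
    refine Submodule.iSup_induction _ (motive := (· ∈ TypeGe R.S a n)) hx (fun lam y hy => ?_)
      (htype_zero _ _) fun _ _ => htype_add
    by_cases hl : 2 * (a : ℝ) - n ≤ lam.im
    swap
    · rw [iSup_neg (by exact hl), Submodule.mem_bot] at hy
      exact hy ▸ htype_zero _ _
    rw [iSup_pos (by exact hl)] at hy
    by_cases hb : ∃ b ≤ n, lam = Complex.I * (2 * (b : ℂ) - n)
    · obtain ⟨b, hb, rfl⟩ := hb
      obtain ⟨α, rfl⟩ := Submodule.Quotient.mk_surjective _ y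
      have hab : a ≤ b := by
        rw [htype_im] at hl
        exact_mod_cast (by linarith : (a : ℝ) ≤ b)
      refine ⟨α, fun e O g hO hg hS z hz v =>
        ⟨Pi.single b (pull (proj ∘ g) α.1 z v), fun c => ?_⟩, rfl⟩
      rw [htype_pure hK hb hy hO hg hS hz, Finset.sum_eq_single_of_mem b
        (Finset.mem_Icc.2 ⟨hab, hb⟩) fun k _ hk => by simp [Pi.single_eq_of_ne hk],
        Pi.single_eq_same]
    · have h1 := Submodule.disjoint_def.1
        (Module.End.eigenspaces_iSupIndep (Om.gam hK.gamOK n) lam) y hy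
        ((iSup₂_le fun b hb' => le_iSup₂_of_le (f := fun (j : ℂ) (_ : j ≠ lam) =>
          Module.End.eigenspace (Om.gam hK.gamOK n) j) _ (fun e =>
            hb ⟨b, Nat.lt_succ_iff.1 (Finset.mem_range.1 hb'), e.symm⟩) le_rfl :
          _ ≤ _) (hK.poly n y))
      exact h1 ▸ htype_zero _ _

end Pool.Agent.HT
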