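import Pool.Agent.P.MP_65ad7c_ag.HOps

/-! Existence of the Riemannian measure. -/

open Set Filter Topology MeasureTheory
open scoped ContDiff InnerProductSpace

noncomputable section
namespace Pool.Agent.HT

variable {V : Type} [NormedAddCommGroup V] [InnerProductSpace ℝ V] {m : ℕ}

/-- the Gram matrix of a linear map on the model space -/
def gram (L : EE m →L[ℝ] V) : Matrix (Fin m) (Fin m) ℝ :=
  Matrix.of fun j k : Fin m => ⟪L (EuclideanSpace.single j 1), L (EuclideanSpace.single k 1)⟫_ℝ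

theorem rho_eq (ψ : EE m → V) (y : EE m) : rho ψ y = √((gram (fderiv ℝ ψ y)).det) := rfl

/-- the matrix of an endomorphism of the model space -/
def mat (T : EE m →L[ℝ] EE m) : Matrix (Fin m) (Fin m) ℝ :=
  Matrix.of fun j k : Fin m => T (EuclideanSpace.single k 1) j

theorem EE_expand (v : EE m) : v = ∑ j, v j • EuclideanSpace.single j (1 : ℝ) := by
  ext i
  simp [Finset.sum_apply, Pi.single_apply]

theorem det_mat (T : EE m →L[ℝ] EE m) : (mat T).det = T.det := by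
  have : mat T = LinearMap.toMatrix (EuclideanSpace.basisFun (Fin m) ℝ).toBasis
      (EuclideanSpace.basisFun (Fin m) ℝ).toBasis (T : EE m →ₗ[ℝ] EE m) := by
    ext j k
    simp [mat, LinearMap.toMatrix_apply]
  rw [this, LinearMap.det_toMatrix]

theorem gram_comp (L : EE m →L[ℝ] V) (T : EE m →L[ℝ] EE m) :
    gram (L.comp T) = (mat T).transpose * gram L * mat T := by
  ext j k
  have h : ∀ i, L (T (EuclideanSpace.single i 1)) =
      ∑ p, mat T p i • L (EuclideanSpace.single p 1) := fun i => by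
    conv_lhs => rw [EE_expand (T (EuclideanSpace.single i 1))]
    simp [mat]
  simp only [gram, Matrix.of_apply, ContinuousLinearMap.comp_apply, h, sum_inner, inner_sum,
    real_inner_smul_left, real_inner_smul_right, Matrix.mul_apply, Matrix.transpose_apply,
    Finset.sum_mul]
  refine Finset.sum_congr rfl fun q _ => Finset.sum_congr rfl fun p _ => by ring

theorem sqrt_gram_comp (L : EE m →L[ℝ] V) (T : EE m →L[ℝ] EE m) :
    √((gram (L.comp T)).det) = |T.det| * √((gram L).det) := by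
  rw [gram_comp, Matrix.det_mul, Matrix.det_mul, Matrix.det_transpose, det_mat,
    show T.det * (gram L).det * T.det = T.det ^ 2 * (gram L).det by ring,
    Real.sqrt_mul (sq_nonneg _), Real.sqrt_sq_eq_abs]

theorem continuous_rho {ψ : EE m → V} (h : ContDiff ℝ ∞ ψ) : Continuous (rho ψ) := by
  have hD : Continuous (fderiv ℝ ψ) := h.continuous_fderiv (by simp)
  refine Real.continuous_sqrt.comp (Continuous.matrix_det ?_)
  refine continuous_pi fun j => continuous_pi fun k => ?_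
  exact (hD.clm_apply continuous_const).inner (hD.clm_apply continuous_const)

variable {S : Set V}

theorem RC.ψ_diff (A : RC S m) : Differentiable ℝ A.ψ := A.ψ_smooth.differentiable (by simp)
theorem RC.φ_diff (A : RC S m) : Differentiable ℝ A.φ := A.φ_smooth.differentiable (by simp)

theorem RC.rho_trans (A B : RC S m) {y : EE m} (hy : y ∈ A.O) (hB : A.ψ y ∈ B.W) :
    rho A.ψ y = |(fderiv ℝ (B.φ ∘ A.ψ) y).det| * rho B.ψ (B.φ (A.ψ y)) := by
  have h1 : A.ψ =ᶠ[𝓝 y] B.ψ ∘ (B.φ ∘ A.ψ) := by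
    have e1 : ∀ᶠ z in 𝓝 y, z ∈ A.O := A.O_open.mem_nhds hy
    have e2 : ∀ᶠ z in 𝓝 y, A.ψ z ∈ B.W :=
      A.ψ_smooth.continuous.continuousAt.eventually (B.W_open.mem_nhds hB)
    filter_upwards [e1, e2] with z h1 h2
    exact (B.ψφ _ ⟨(A.ψ_mem z h1).1, h2⟩).symm
  have h2 : fderiv ℝ A.ψ y =
      (fderiv ℝ B.ψ (B.φ (A.ψ y))).comp (fderiv ℝ (B.φ ∘ A.ψ) y) := by
    rw [h1.fderiv_eq]
    exact fderiv_comp y (B.ψ_diff _) ((B.φ_diff _).comp y (A.ψ_diff _))
  rw [rho_eq, rho_eq, h2, sqrt_gram_comp]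

variable [MeasurableSpace V] [BorelSpace V]

/-- the measure of a chart -/
def RC.nu (A : RC S m) : Measure V :=
  Measure.map A.ψ ((volume.restrict A.O).withDensity fun y => ENNReal.ofReal (rho A.ψ y))

theorem RC.nu_apply (A : RC S m) {E : Set V} (hE : MeasurableSet E) :
    A.nu E = ∫⁻ y in A.ψ ⁻¹' E ∩ A.O, ENNReal.ofReal (rho A.ψ y) := by
  have hm : Measurable A.ψ := A.ψ_smooth.continuous.measurable
  rw [RC.nu, Measure.map_apply hm hE, withDensity_apply _ (hm hE), Measure.restrict_restrict (hm hE)]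

theorem RC.nu_compl (A : RC S m) {E : Set V} (hE : MeasurableSet E) (h : S ∩ A.W ⊆ E) :
    A.nu Eᶜ = 0 := by
  rw [A.nu_apply hE.compl]
  have : A.ψ ⁻¹' Eᶜ ∩ A.O = ∅ :=
    eq_empty_of_forall_notMem fun y hy => hy.1 (h (A.ψ_mem y hy.2))
  rw [this, Measure.restrict_empty, lintegral_zero_measure]

theorem RC.nu_compat (A B : RC S m) : A.nu.restrict B.W = B.nu.restrict A.W := by
  ext E hE
  have hA := A.W_open.measurableSet
  have hB := B.W_open.measurableSet
  have hm : Measurable A.ψ := A.ψ_smooth.continuous.measurable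
  rw [Measure.restrict_apply hE, Measure.restrict_apply hE, A.nu_apply (hE.inter hB),
    B.nu_apply (hE.inter hA)]
  have hs : MeasurableSet (A.ψ ⁻¹' (E ∩ B.W) ∩ A.O) :=
    (hm (hE.inter hB)).inter A.O_open.measurableSet
  have him : (B.φ ∘ A.ψ) '' (A.ψ ⁻¹' (E ∩ B.W) ∩ A.O) = B.ψ ⁻¹' (E ∩ A.W) ∩ B.O := by
    ext z
    constructor
    · rintro ⟨y, ⟨⟨h1, h2⟩, h3⟩, rfl⟩
      have h4 := A.ψ_mem y h3
      have h5 : B.ψ (B.φ (A.ψ y)) = A.ψ y := B.ψφ _ ⟨h4.1, h2⟩
      refine ⟨?_, B.φ_mem _ ⟨h4.1, h2⟩⟩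
      show B.ψ (B.φ (A.ψ y)) ∈ E ∩ A.W
      rw [h5]; exact ⟨h1, h4.2⟩
    · rintro ⟨⟨h1, h2⟩, h3⟩
      have h4 := B.ψ_mem z h3
      have h5 : A.ψ (A.φ (B.ψ z)) = B.ψ z := A.ψφ _ ⟨h4.1, h2⟩
      refine ⟨A.φ (B.ψ z), ⟨?_, A.φ_mem _ ⟨h4.1, h2⟩⟩, ?_⟩
      · show A.ψ (A.φ (B.ψ z)) ∈ E ∩ B.W
        rw [h5]; exact ⟨h1, h4.2⟩
      · show B.φ (A.ψ (A.φ (B.ψ z))) = z
        rw [h5, B.φψ z h3]
  have hinj : InjOn (B.φ ∘ A.ψ) (A.ψ ⁻¹' (E ∩ B.W) ∩ A.O) := by
    rintro y ⟨⟨-, h2⟩, h3⟩ y' ⟨⟨-, h2'⟩, h3'⟩ h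
    have h4 : B.ψ (B.φ (A.ψ y)) = B.ψ (B.φ (A.ψ y')) := congrArg B.ψ h
    rw [B.ψφ _ ⟨(A.ψ_mem y h3).1, h2⟩, B.ψφ _ ⟨(A.ψ_mem y' h3').1, h2'⟩] at h4
    rw [← A.φψ y h3, h4, A.φψ y' h3']
  rw [← him, lintegral_image_eq_lintegral_abs_det_fderiv_mul volume hs
    (f' := fun y => fderiv ℝ (B.φ ∘ A.ψ) y)
    (fun y _ => ((B.φ_diff _).comp y (A.ψ_diff _)).hasFDerivAt.hasFDerivWithinAt) hinj]
  refine setLIntegral_congr_fun hs fun y hy => ?_
  show ENNReal.ofReal (rho A.ψ y) = _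
  rw [A.rho_trans B hy.2 hy.1.2, ENNReal.ofReal_mul (abs_nonneg _)]
  rfl

theorem RC.nu_fin (A : RC S m) (x : V) :
    A.nu (A.W ∩ A.φ ⁻¹' Metric.ball (A.φ x) 1) < ⊤ := by
  have hmφ : Measurable A.φ := A.φ_smooth.continuous.measurable
  rw [A.nu_apply (A.W_open.measurableSet.inter (hmφ measurableSet_ball))]
  have hsub : A.ψ ⁻¹' (A.W ∩ A.φ ⁻¹' Metric.ball (A.φ x) 1) ∩ A.O ⊆
      Metric.closedBall (A.φ x) 1 := by
    rintro y ⟨⟨-, h2⟩, h3⟩
    have h4 : A.φ (A.ψ y) ∈ Metric.ball (A.φ x) 1 := h2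
    rw [A.φψ y h3] at h4
    exact Metric.ball_subset_closedBall h4
  refine (lintegral_mono_set hsub).trans_lt ?_
  exact ((continuous_rho A.ψ_smooth).continuousOn.integrableOn_compact
    (isCompact_closedBall _ _)).lintegral_lt_top

theorem exists_vol' (hS : IsCompact S) (hc : ∀ x ∈ S, ∃ A : RC S m, x ∈ A.W) :
    ∃ μ : Measure V, IsVol S m μ := by
  classical
  choose A hA using hc
  let U : S → Set V := fun x => (A x x.2).W ∩ (A x x.2).φ ⁻¹' Metric.ball ((A x x.2).φ x) 1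
  have hU : ∀ x, IsOpen (U x) := fun x =>
    (A x x.2).W_open.inter (Metric.isOpen_ball.preimage (A x x.2).φ_smooth.continuous)
  obtain ⟨t, ht⟩ := hS.elim_finite_subcover U hU fun x hx =>
    mem_iUnion.2 ⟨⟨x, hx⟩, hA x hx, Metric.mem_ball_self one_pos⟩
  obtain ⟨n, ⟨e⟩⟩ := Finite.exists_equiv_fin t
  let B : Fin n → RC S m := fun i => A (e.symm i).1 (e.symm i).1.2
  let U' : Fin n → Set V := fun i => U (e.symm i).1
  let D : Fin n → Set V := disjointed U'
  have hD : ∀ i, MeasurableSet (D i) := fun i => by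
    simp only [D, disjointed_apply]
    refine (hU _).measurableSet.diff ?_
    rw [Finset.sup_eq_iSup]
    simp only [iSup_eq_iUnion]
    exact Finset.measurableSet_biUnion _ fun j _ => (hU _).measurableSet
  have hDU : ∀ i, D i ⊆ U' i := fun i => disjointed_subset U' i
  have hcov : S ⊆ ⋃ i, D i := by
    rw [show (⋃ i, D i) = ⋃ i, U' i from iUnion_disjointed]
    intro x hx
    obtain ⟨y, hy, hxy⟩ := mem_iUnion₂.1 (ht hx)
    exact mem_iUnion.2 ⟨e ⟨y, hy⟩, by simpa [U'] using hxy⟩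
  have hSm : MeasurableSet S := hS.isClosed.measurableSet
  refine ⟨Measure.sum fun i => (B i).nu.restrict (D i), ⟨⟨?_⟩, ?_, fun x hx => ⟨A x hx, hA x hx⟩, ?_⟩⟩
  · rw [Measure.sum_apply _ MeasurableSet.univ, tsum_fintype]
    refine ENNReal.sum_lt_top.2 fun i _ => ?_
    rw [Measure.restrict_apply_univ]
    exact (measure_mono (hDU i)).trans_lt ((B i).nu_fin _)
  · rw [Measure.sum_apply _ hSm.compl, tsum_fintype]
    refine Finset.sum_eq_zero fun i _ => ?_
    rw [Measure.restrict_apply hSm.compl]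
    exact measure_mono_null inter_subset_left ((B i).nu_compl hSm inter_subset_left)
  · intro C
    show _ = C.nu
    rw [Measure.restrict_sum _ C.W_open.measurableSet]
    have h1 : ∀ i, ((B i).nu.restrict (D i)).restrict C.W = C.nu.restrict (D i) := fun i => by
      rw [Measure.restrict_comm C.W_open.measurableSet, (B i).nu_compat C,
        Measure.restrict_restrict (hD i), inter_eq_left.2 fun x hx => (hDU i hx).1]
    simp only [h1]
    rw [← Measure.restrict_iUnion (disjoint_disjointed U') hD]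
    refine Measure.restrict_eq_self_of_ae_mem ?_
    exact C.nu_compl (MeasurableSet.iUnion hD) (inter_subset_left.trans hcov)

end Pool.Agent.HT
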