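import Pool.Agent.P.MP_65ad7c_ag.HVolA
import Pool.Agent.P.MP_e3ee0c_gt.WIF

/-! The divergence theorem on a compact retract. -/

open Set Filter Topology MeasureTheory
open scoped ContDiff InnerProductSpace

noncomputable section
namespace Pool.Agent.HT
open Pool.Agent.Wein (Ret Tan)

/-- The derivative of the determinant along a curve of matrices. -/
theorem hasDerivAt_det {k : ℕ} {S : ℝ → Matrix (Fin k) (Fin k) ℝ} {T : Matrix (Fin k) (Fin k) ℝ}
    {t : ℝ} (h : ∀ i j, HasDerivAt (fun u => S u i j) (T i j) t) :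
    HasDerivAt (fun u => (S u).det) ((S t).adjugate * T).trace t := by
  have h1 : HasDerivAt (fun u => ∑ σ : Equiv.Perm (Fin k),
      ((Equiv.Perm.sign σ : ℤ) : ℝ) * ∏ i, S u (σ i) i) (∑ σ : Equiv.Perm (Fin k),
      ((Equiv.Perm.sign σ : ℤ) : ℝ) * ∑ i, (∏ j ∈ Finset.univ.erase i, S t (σ j) j) • T (σ i) i)
      t :=
    HasDerivAt.fun_sum fun σ _ => (HasDerivAt.fun_finsetProd fun i _ => h (σ i) i).const_mul _
  simp only [Matrix.det_apply']
  refine h1.congr_deriv ?_
  simp only [Finset.mul_sum]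
  rw [Finset.sum_comm, Matrix.trace]
  refine Finset.sum_congr rfl fun i _ => ?_
  have : ((S t).adjugate * T).diag i = Matrix.cramer (S t) (fun j => T j i) i := by
    rw [Matrix.cramer_eq_adjugate_mulVec]; rfl
  rw [this, Matrix.cramer_apply, Matrix.det_apply']
  refine Finset.sum_congr rfl fun σ _ => ?_
  rw [← Finset.prod_erase_mul _ _ (Finset.mem_univ i), Matrix.updateCol_self, smul_eq_mul]
  congr 2
  exact Finset.prod_congr rfl fun j hj => (Matrix.updateCol_ne (Finset.ne_of_mem_erase hj)).symm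

variable {V : Type} [NormedAddCommGroup V] [InnerProductSpace ℝ V] {m : ℕ}

theorem mem_tan_of_open {G : Type} [NormedAddCommGroup G] [NormedSpace ℝ G] {O : Set G}
    (hO : IsOpen O) {y : G} (hy : y ∈ O) (v : G) : v ∈ Tan O y := by
  have h1 : HasDerivAt (fun t : ℝ => y + t • v) v 0 := by
    simpa using ((hasDerivAt_id (0 : ℝ)).smul_const v).const_add y
  refine ⟨fun t : ℝ => y + t • v, by simp, ?_, h1⟩
  apply h1.continuousAt.eventually
  simpa using hO.mem_nhds hy

section chart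
variable (R : Ret V) (A : RC R.S m)

theorem RC.P_dψ {y : EE m} (hy : y ∈ A.O) (v : EE m) :
    R.P (A.ψ y) (fderiv ℝ A.ψ y v) = fderiv ℝ A.ψ y v :=
  (R.mem_tan (A.ψ_mem y hy).1 _).1 (Tan.map (mem_tan_of_open A.O_open hy v) (A.ψ_diff y)
    (Eventually.of_forall fun z hz => (A.ψ_mem z hz).1))

theorem RC.dψ_dφ {y : EE m} (hy : y ∈ A.O) {w : V} (hw : R.P (A.ψ y) w = w) :
    fderiv ℝ A.ψ y (fderiv ℝ A.φ (A.ψ y) w) = w := by
  have hx := A.ψ_mem y hy
  have h1 := Tan.fderiv_congr ((R.mem_tan hx.1 w).2 hw) (f := A.ψ ∘ A.φ) (g := id)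
    ((A.ψ_diff _).comp _ (A.φ_diff _)) differentiableAt_id (by
      filter_upwards [A.W_open.mem_nhds hx.2] with z hz hS using A.ψφ z ⟨hS, hz⟩)
  rw [fderiv_comp _ (A.ψ_diff _) (A.φ_diff _), A.φψ y hy] at h1
  simpa using h1

/-- the left inverse of the differential of the chart -/
def RC.N (y : EE m) : V →L[ℝ] EE m := (fderiv ℝ A.φ (A.ψ y)).comp (R.P (A.ψ y))

theorem RC.N_dψ {y : EE m} (hy : y ∈ A.O) (v : EE m) : RC.N R A y (fderiv ℝ A.ψ y v) = v := by
  simp only [RC.N, ContinuousLinearMap.comp_apply, RC.P_dψ R A hy, A.dφ_dψ hy]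

theorem RC.dψ_N {y : EE m} (hy : y ∈ A.O) (w : V) :
    fderiv ℝ A.ψ y (RC.N R A y w) = R.P (A.ψ y) w :=
  RC.dψ_dφ R A hy (R.P_idem (A.ψ_mem y hy).1 w)

theorem RC.inner_dψ {y : EE m} (hy : y ∈ A.O) (T : EE m →L[ℝ] V) (j k : Fin m) :
    ⟪fderiv ℝ A.ψ y (EuclideanSpace.single j 1), T (EuclideanSpace.single k 1)⟫_ℝ =
      (gram (fderiv ℝ A.ψ y) * mat ((RC.N R A y).comp T)) j k := by
  rw [← RC.P_dψ R A hy, R.P_symm (A.ψ_mem y hy).1, ← RC.dψ_N R A hy,
    EE_expand (RC.N R A y (T (EuclideanSpace.single k 1)))]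
  simp only [map_sum, map_smul, inner_sum, real_inner_smul_right, Matrix.mul_apply, gram, mat,
    Matrix.of_apply, ContinuousLinearMap.comp_apply]
  exact Finset.sum_congr rfl fun p _ => mul_comm _ _

variable [FiniteDimensional ℝ V] [MeasurableSpace V] [BorelSpace V]

/-- the derivative of the density -/
theorem RC.fderiv_rho {y : EE m} (hy : y ∈ A.O) (v : EE m) :
    fderiv ℝ (rho A.ψ) y v =
      rho A.ψ y * (mat ((RC.N R A y).comp (fderiv ℝ (fderiv ℝ A.ψ) y v))).trace := by
  set L := fderiv ℝ A.ψ y with hL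
  set H := fderiv ℝ (fderiv ℝ A.ψ) y v with hH
  set M := mat ((RC.N R A y).comp H) with hM
  have h1 : HasDerivAt (fun t : ℝ => y + t • v) v 0 := by
    simpa using ((hasDerivAt_id (0 : ℝ)).smul_const v).const_add y
  have hD : Differentiable ℝ (fderiv ℝ A.ψ) :=
    (A.ψ_smooth.fderiv_right (m := ∞) (by simp)).differentiable (by simp)
  have h2 : HasDerivAt (fun t : ℝ => fderiv ℝ A.ψ (y + t • v)) H 0 :=
    (hD y).hasFDerivAt.comp_hasDerivAt_of_eq 0 h1 (by simp)
  have h3 : ∀ w, HasDerivAt (fun t : ℝ => fderiv ℝ A.ψ (y + t • v) w) (H w) 0 := fun w => by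
    simpa using h2.clm_apply (hasDerivAt_const (0 : ℝ) w)
  have hsym : (gram L).transpose = gram L := by
    ext j k; exact real_inner_comm _ _
  have h4 : ∀ j k, HasDerivAt (fun t : ℝ => gram (fderiv ℝ A.ψ (y + t • v)) j k)
      ((gram L * M + M.transpose * gram L) j k) 0 := fun j k => by
    have := (h3 (EuclideanSpace.single j 1)).inner ℝ (h3 (EuclideanSpace.single k 1))
    refine this.congr_deriv ?_
    have e : M.transpose * gram L = (gram L * M).transpose := by
      rw [Matrix.transpose_mul, hsym]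
    rw [e, Matrix.add_apply, Matrix.transpose_apply, ← RC.inner_dψ R A hy H,
      ← RC.inner_dψ R A hy H]
    simp only [zero_smul, add_zero]
    rw [real_inner_comm (H (EuclideanSpace.single j 1))]
  have h5 := hasDerivAt_det h4
  simp only [zero_smul, add_zero, ← hL] at h5
  have h6 : ((gram L).adjugate * (gram L * M + M.transpose * gram L)).trace =
      2 * (gram L).det * M.trace := by
    rw [Matrix.mul_add, Matrix.trace_add, ← Matrix.mul_assoc, Matrix.adjugate_mul,
      ← Matrix.mul_assoc, Matrix.trace_mul_comm _ (gram L), ← Matrix.mul_assoc,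
      Matrix.mul_adjugate]
    simp only [Matrix.smul_mul, Matrix.one_mul, Matrix.trace_smul, Matrix.trace_transpose,
      smul_eq_mul]
    ring
  have hpos : 0 < √((gram L).det) := rho_pos A y hy
  have hdet : 0 < (gram L).det := Real.sqrt_pos.1 hpos
  have h7 := h5.sqrt (by simpa using hdet.ne')
  have hρ : DifferentiableAt ℝ (rho A.ψ) y :=
    ((rho_smooth A).contDiffAt (A.O_open.mem_nhds hy)).differentiableAt (by simp)
  have h8 : HasDerivAt (fun t : ℝ => rho A.ψ (y + t • v)) (fderiv ℝ (rho A.ψ) y v) 0 :=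
    hρ.hasFDerivAt.comp_hasDerivAt_of_eq 0 h1 (by simp)
  rw [h8.unique h7, h6, rho_eq]
  simp only [zero_smul, add_zero, ← hL]
  have h9 := Real.mul_self_sqrt hdet.le
  field_simp
  rw [sq, h9, mul_comm]

omit [MeasurableSpace V] [BorelSpace V] in
theorem trace_mat (T : EE m →L[ℝ] EE m) :
    (mat T).trace = LinearMap.trace ℝ _ (T : EE m →ₗ[ℝ] EE m) := by
  rw [LinearMap.trace_eq_sum_inner _ (EuclideanSpace.basisFun (Fin m) ℝ)]
  simp [Matrix.trace, mat, EuclideanSpace.inner_single_left]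

/-- the tangential divergence -/
def dv (X : V → V) (x : V) : ℝ :=
  LinearMap.trace ℝ V ((fderiv ℝ X x).comp (R.P x) : V →L[ℝ] V)

omit [FiniteDimensional ℝ V] [MeasurableSpace V] [BorelSpace V] in
theorem dv_eq {B : Type} [Fintype B] (b : OrthonormalBasis B ℝ V) (X : V → V) (x : V) :
    dv R X x = ∑ a, ⟪b a, fderiv ℝ X x (R.P x (b a))⟫_ℝ :=
  LinearMap.trace_eq_sum_inner _ b

omit [MeasurableSpace V] [BorelSpace V] in
theorem dv_cont {X : V → V} (hX : ContDiff ℝ ∞ X) : Continuous (dv R X) := by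
  have : dv R X = fun x => ∑ a, ⟪stdOrthonormalBasis ℝ V a,
      fderiv ℝ X x (R.P x (stdOrthonormalBasis ℝ V a))⟫_ℝ := funext (dv_eq R _ X)
  rw [this]
  exact continuous_finsetSum _ fun a _ => continuous_const.inner
    ((hX.continuous_fderiv (by simp)).clm_apply (R.P_smooth.continuous.clm_apply continuous_const))

/-- the field in the chart -/
def RC.Y (X : V → V) (y : EE m) : EE m := fderiv ℝ A.φ (A.ψ y) (X (A.ψ y))

omit [FiniteDimensional ℝ V] [MeasurableSpace V] [BorelSpace V] in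
theorem RC.Y_smooth {X : V → V} (hX : ContDiff ℝ ∞ X) : ContDiff ℝ ∞ (RC.Y R A X) :=
  ((A.φ_smooth.fderiv_right (m := ∞) (by simp)).comp A.ψ_smooth).clm_apply (hX.comp A.ψ_smooth)

theorem RC.dv_chart {X : V → V} (hX : ContDiff ℝ ∞ X) (ht : ∀ x ∈ R.S, R.P x (X x) = X x)
    {y : EE m} (hy : y ∈ A.O) :
    (mat (fderiv ℝ (fun z => rho A.ψ z • RC.Y R A X z) y)).trace =
      rho A.ψ y * dv R X (A.ψ y) := by
  have hD : Differentiable ℝ (fderiv ℝ A.ψ) :=
    (A.ψ_smooth.fderiv_right (m := ∞) (by simp)).differentiable (by simp)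
  have hY : Differentiable ℝ (RC.Y R A X) := (RC.Y_smooth R A hX).differentiable (by simp)
  have hXd : Differentiable ℝ X := hX.differentiable (by simp)
  have hρ : DifferentiableAt ℝ (rho A.ψ) y :=
    ((rho_smooth A).contDiffAt (A.O_open.mem_nhds hy)).differentiableAt (by simp)
  have h1 : (X ∘ A.ψ) =ᶠ[𝓝 y] fun z => fderiv ℝ A.ψ z (RC.Y R A X z) := by
    filter_upwards [A.O_open.mem_nhds hy] with z hz
    exact (RC.dψ_dφ R A hz (ht _ (A.ψ_mem z hz).1)).symm
  have h2 := h1.fderiv_eq (𝕜 := ℝ)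
  rw [fderiv_comp _ (hXd _) (A.ψ_diff _), fderiv_clm_apply (hD y) (hY y)] at h2
  have hsym : IsSymmSndFDerivAt ℝ A.ψ y :=
    A.ψ_smooth.contDiffAt.isSymmSndFDerivAt (by
      rw [minSmoothness_of_isRCLikeNormedField]; exact ENat.LEInfty.out)
  have h3 : (RC.N R A y).comp ((fderiv ℝ X (A.ψ y)).comp (fderiv ℝ A.ψ y)) =
      fderiv ℝ (RC.Y R A X) y +
        (RC.N R A y).comp (fderiv ℝ (fderiv ℝ A.ψ) y (RC.Y R A X y)) := by
    rw [h2]
    refine ContinuousLinearMap.ext fun v => ?_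
    simp only [ContinuousLinearMap.comp_apply, add_apply, map_add,
      RC.N_dψ R A hy, ContinuousLinearMap.flip_apply, hsym.eq v]
  have h4 : dv R X (A.ψ y) = (mat (fderiv ℝ (RC.Y R A X) y)).trace +
      (mat ((RC.N R A y).comp (fderiv ℝ (fderiv ℝ A.ψ) y (RC.Y R A X y)))).trace := by
    have e1 : (((fderiv ℝ X (A.ψ y)).comp (R.P (A.ψ y)) : V →L[ℝ] V) : V →ₗ[ℝ] V) =
        (((fderiv ℝ X (A.ψ y)).comp (fderiv ℝ A.ψ y) : EE m →L[ℝ] V) : EE m →ₗ[ℝ] V) ∘ₗ
          (RC.N R A y : V →ₗ[ℝ] EE m) := by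
      refine LinearMap.ext fun w => ?_
      simp [RC.dψ_N R A hy]
    rw [trace_mat, trace_mat, ← map_add, ← ContinuousLinearMap.toLinearMap_add, ← h3, dv, e1,
      LinearMap.trace_comp_comm']
    rfl
  rw [h4, mul_add, ← RC.fderiv_rho R A hy, fderiv_fun_smul hρ (hY y)]
  conv_rhs => rw [EE_expand (RC.Y R A X y)]
  simp only [Matrix.trace, Matrix.diag_apply, mat, Matrix.of_apply, map_sum, map_smul,
    add_apply, smul_apply, PiLp.add_apply, PiLp.smul_apply,
    ContinuousLinearMap.smulRight_apply, smul_eq_mul, Finset.sum_add_distrib, Finset.mul_sum]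
  congr 1
  exact Finset.sum_congr rfl fun j _ => mul_comm _ _

omit [FiniteDimensional ℝ V] [MeasurableSpace V] [BorelSpace V] in
theorem integral_trace_zero {Z : EE m → EE m} (hZ : ContDiff ℝ ∞ Z) (hc : HasCompactSupport Z) :
    ∫ y, (mat (fderiv ℝ Z y)).trace = 0 := by
  have hd : Differentiable ℝ Z := hZ.differentiable (by simp)
  have hi : ∀ v, Integrable fun y => fderiv ℝ Z y v := fun v =>
    ((hZ.continuous_fderiv (by simp)).clm_apply continuous_const).integrable_of_hasCompactSupport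
      (hc.fderiv_apply ℝ v)
  have h0 : ∀ v, ∫ y, fderiv ℝ Z y v = 0 := fun v => by
    have := integral_smul_fderiv_eq_neg_fderiv_smul_of_integrable (μ := volume) (𝕜 := ℝ)
      (f := fun _ => (1 : ℝ)) (g := Z) (v := v) (by simp) (by simpa using hi v)
      (by simpa using hZ.continuous.integrable_of_hasCompactSupport hc)
      (fun _ _ => differentiableAt_const _) (fun y _ => hd y)
    simpa using this
  simp only [Matrix.trace, Matrix.diag_apply, mat, Matrix.of_apply]
  refine (integral_finsetSum _ fun j _ => (EuclideanSpace.proj (𝕜 := ℝ) j).integrable_comp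
    (hi (EuclideanSpace.single j 1))).trans ?_
  refine Finset.sum_eq_zero fun j _ => ?_
  have := (EuclideanSpace.proj (𝕜 := ℝ) j).integral_comp_comm (hi (EuclideanSpace.single j 1))
  rw [h0, map_zero] at this
  exact this

omit [FiniteDimensional ℝ V] [MeasurableSpace V] [BorelSpace V] in
theorem dv_zero {X : V → V} {x : V} (hx : x ∉ tsupport X) : dv R X x = 0 := by
  have h : X =ᶠ[𝓝 x] 0 := notMem_tsupport_iff_eventuallyEq.1 hx
  rw [dv, h.fderiv_eq]
  simp

theorem RC.div_chart {μ : Measure V} (hμ : IsVol R.S m μ) {X : V → V} (hX : ContDiff ℝ ∞ X)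
    (ht : ∀ x ∈ R.S, R.P x (X x) = X x) (hs : tsupport X ∩ R.S ⊆ A.W) :
    ∫ x, dv R X x ∂μ = 0 := by
  classical
  have hm : Measurable A.ψ := A.ψ_smooth.continuous.measurable
  have hρc := continuous_rho A.ψ_smooth
  have h1 : ∫ x in A.W, dv R X x ∂μ = ∫ x, dv R X x ∂μ := by
    refine setIntegral_eq_integral_of_ae_compl_eq_zero ?_
    have : ∀ᵐ x ∂μ, x ∈ R.S := hμ.conc
    filter_upwards [this] with x hx hW using dv_zero R fun h => hW (hs ⟨h, hx⟩)
  rw [← h1, hμ.loc A, integral_map hm.aemeasurable (dv_cont R hX).aestronglyMeasurable,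
    integral_withDensity_eq_integral_toReal_smul hρc.measurable.ennreal_ofReal
      (Eventually.of_forall fun _ => ENNReal.ofReal_lt_top)]
  set K := A.φ '' (tsupport X ∩ R.S) with hK
  have hKc : IsCompact K :=
    (R.compact.inter_left (isClosed_tsupport X)).image A.φ_smooth.continuous
  have hKO : K ⊆ A.O := by
    rintro _ ⟨x, hx, rfl⟩
    exact A.φ_mem x ⟨hx.2, hs hx⟩
  set Z : EE m → EE m := A.O.indicator fun z => rho A.ψ z • RC.Y R A X z with hZ
  have hZ0 : ∀ z ∉ K, Z z = 0 := fun z hz => by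
    by_cases hO : z ∈ A.O
    · have : X (A.ψ z) = 0 := image_eq_zero_of_notMem_tsupport fun h =>
        hz ⟨A.ψ z, ⟨h, (A.ψ_mem z hO).1⟩, A.φψ z hO⟩
      simp [hZ, hO, RC.Y, this]
    · simp [hZ, hO]
  have hZO : ∀ y ∈ A.O, Z =ᶠ[𝓝 y] fun z => rho A.ψ z • RC.Y R A X z := fun y hy => by
    filter_upwards [A.O_open.mem_nhds hy] with z hz using indicator_of_mem hz _
  have hZn : ∀ y ∉ A.O, Z =ᶠ[𝓝 y] fun _ => 0 := fun y hy => by
    filter_upwards [hKc.isClosed.isOpen_compl.mem_nhds fun h => hy (hKO h)] with z hz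
      using hZ0 z hz
  have hZs : ContDiff ℝ ∞ Z := by
    rw [contDiff_iff_contDiffAt]
    intro y
    by_cases hy : y ∈ A.O
    · exact (((rho_smooth A).contDiffAt (A.O_open.mem_nhds hy)).smul
        (RC.Y_smooth R A hX).contDiffAt).congr_of_eventuallyEq (hZO y hy)
    · exact contDiffAt_const.congr_of_eventuallyEq (hZn y hy)
  rw [← integral_trace_zero hZs (HasCompactSupport.intro hKc hZ0),
    ← setIntegral_eq_integral_of_forall_compl_eq_zero (s := A.O)
      (f := fun y => (mat (fderiv ℝ Z y)).trace) (fun y hy => by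
      rw [(hZn y hy).fderiv_eq]; simp [mat, Matrix.trace])]
  refine setIntegral_congr_fun A.O_open.measurableSet fun y hy => ?_
  rw [(hZO y hy).fderiv_eq, RC.dv_chart R A hX ht hy, ENNReal.toReal_ofReal (rho_pos A y hy).le,
    smul_eq_mul]

end chart

variable [FiniteDimensional ℝ V] [MeasurableSpace V] [BorelSpace V]

theorem IsVol.div_real (R : Ret V) {μ : Measure V} (hμ : IsVol R.S m μ) {X : V → V}
    (hX : ContDiff ℝ ∞ X) (ht : ∀ x ∈ R.S, R.P x (X x) = X x) : ∫ x, dv R X x ∂μ = 0 := by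
  have key : ∃ U, IsOpen U ∧ R.S ⊆ U ∧ ∀ X : V → V, ContDiff ℝ ∞ X →
      (∀ x ∈ R.S, R.P x (X x) = X x) → tsupport X ∩ R.S ⊆ U → ∫ x, dv R X x ∂μ = 0 := by
    refine R.compact.induction_on (p := fun s => ∃ U, IsOpen U ∧ s ⊆ U ∧ ∀ X : V → V,
      ContDiff ℝ ∞ X → (∀ x ∈ R.S, R.P x (X x) = X x) → tsupport X ∩ R.S ⊆ U →
        ∫ x, dv R X x ∂μ = 0) ?_ ?_ ?_ ?_
    · refine ⟨∅, isOpen_empty, le_rfl, fun X _ _ hs => integral_eq_zero_of_ae ?_⟩
      have : ∀ᵐ x ∂μ, x ∈ R.S := hμ.conc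
      filter_upwards [this] with x hx using dv_zero R fun h => hs ⟨h, hx⟩
    · rintro s t hst ⟨U, h1, h2, h3⟩
      exact ⟨U, h1, hst.trans h2, h3⟩
    · rintro s t ⟨U, h1, h2, h3⟩ ⟨U', h1', h2', h3'⟩
      refine ⟨U ∪ U', h1.union h1', union_subset_union h2 h2', fun X hX ht hs => ?_⟩
      obtain ⟨χ, hχ, -, hχU, -, hχ1⟩ := Wein.exists_bump ((tsupport X ∩ R.S) \ U') U
        ((R.compact.inter_left (isClosed_tsupport X)).diff h1') h1
        fun x hx => (hs hx.1).resolve_right hx.2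
      have hχ' : ContDiff ℝ ∞ fun x => 1 - χ x := contDiff_const.sub hχ
      have e1 := h3 (fun x => χ x • X x) (hχ.smul hX)
        (fun x hx => by simp only [map_smul, ht x hx])
        (fun x hx => hχU (tsupport_smul_subset_left χ X hx.1))
      have e2 := h3' (fun x => (1 - χ x) • X x) (hχ'.smul hX)
        (fun x hx => by simp only [map_smul, ht x hx]) (fun x hx => by
          by_contra hn
          have h4 : x ∈ (tsupport X ∩ R.S) \ U' :=
            ⟨⟨tsupport_smul_subset_right (fun x => 1 - χ x) X hx.1, hx.2⟩, hn⟩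
          refine notMem_tsupport_iff_eventuallyEq.2 ?_ hx.1
          filter_upwards [hχ1.filter_mono (nhds_le_nhdsSet h4)] with z hz
          simp [hz])
      have e3 : ∀ x, dv R X x = dv R (fun x => χ x • X x) x + dv R (fun x => (1 - χ x) • X x) x :=
        fun x => by
          have e4 : X = fun x => χ x • X x + (1 - χ x) • X x := by
            funext z; rw [← add_smul]; simp
          have e5 := fderiv_fun_add (((hχ.smul hX).differentiable (by simp)) x)
            (((hχ'.smul hX).differentiable (by simp)) x)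
          rw [dv, dv, dv, ← map_add, ← ContinuousLinearMap.toLinearMap_add, ← ContinuousLinearMap.add_comp]
          conv_lhs => rw [e4]
          exact congrArg _ (congrArg _ (congrArg (fun T : V →L[ℝ] V => T.comp (R.P x)) e5))
      simp only [e3]
      exact (integral_add (hμ.integrable R.compact (dv_cont R (hχ.smul hX)))
        (hμ.integrable R.compact (dv_cont R (hχ'.smul hX)))).trans
        ((congrArg₂ (· + ·) e1 e2).trans (add_zero 0))
    · intro x hx
      obtain ⟨A, hA⟩ := hμ.chart x hx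
      exact ⟨A.W, mem_nhdsWithin_of_mem_nhds (A.W_open.mem_nhds hA), A.W, A.W_open, le_rfl,
        fun X hX ht hs => RC.div_chart R A hμ hX ht hs⟩
  obtain ⟨U, -, h2, h3⟩ := key
  exact h3 X hX ht (inter_subset_right.trans h2)

theorem IsVol.div' (R : Ret V) {μ : Measure V} (hμ : IsVol R.S m μ) {A : Type} [Fintype A]
    (b : OrthonormalBasis A ℝ V) (f : A → V → ℂ) (hf : ∀ a, ContDiff ℝ ∞ (f a))
    (ht : ∀ x ∈ R.S, ∀ a, ∑ a', ((⟪R.P x (b a), b a'⟫_ℝ : ℝ) : ℂ) * f a' x = f a x) :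
    ∫ x, ∑ a, fderiv ℝ (f a) x (R.P x (b a)) ∂μ = 0 := by
  classical
  have hi : Integrable (fun x => ∑ a, fderiv ℝ (f a) x (R.P x (b a))) μ :=
    hμ.integrable R.compact (continuous_finsetSum _ fun a _ =>
      ((hf a).continuous_fderiv (by simp)).clm_apply
        (R.P_smooth.continuous.clm_apply continuous_const))
  have key : ∀ l : ℂ →L[ℝ] ℝ, l (∫ x, ∑ a, fderiv ℝ (f a) x (R.P x (b a)) ∂μ) = 0 := fun l => by
    have hb : ∀ (c : A → ℝ) (a : A), ⟪b a, ∑ a', c a' • b a'⟫_ℝ = c a := fun c a => by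
      simp [inner_sum, inner_smul_right, orthonormal_iff_ite.1 b.orthonormal]
    have hX : ContDiff ℝ ∞ fun x => ∑ a, l (f a x) • b a :=
      ContDiff.sum fun a _ => (l.contDiff.comp (hf a)).smul contDiff_const
    have h1 := hμ.div_real R hX fun x hx => by
      refine b.repr.injective ?_
      ext a
      rw [b.repr_apply_apply, b.repr_apply_apply, hb, ← R.P_symm hx, ← ht x hx a]
      simp only [inner_sum, inner_smul_right, map_sum]
      refine Finset.sum_congr rfl fun a' _ => ?_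
      rw [← Complex.real_smul, map_smul, smul_eq_mul, mul_comm]
    rw [← l.integral_comp_comm hi, ← h1]
    refine integral_congr_ae (Eventually.of_forall fun x => ?_)
    have h2 : HasFDerivAt (fun x => ∑ a, l (f a x) • b a)
        (∑ a, (l.comp (fderiv ℝ (f a) x)).smulRight (b a)) x :=
      HasFDerivAt.fun_sum fun a _ => (l.hasFDerivAt.comp x
        ((hf a).differentiable (by simp) x).hasFDerivAt).smul_const (b a)
    simp only
    rw [dv_eq R b, h2.fderiv, map_sum]
    refine Finset.sum_congr rfl fun a _ => ?_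
    simp only [sum_apply, ContinuousLinearMap.smulRight_apply,
      ContinuousLinearMap.comp_apply]
    rw [hb]
  exact Complex.ext (key Complex.reCLM) (key Complex.imCLM)

end Pool.Agent.HT
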