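import Pool.Agent.P.MP_65ad7c_ag.Base

/-! Linear algebra of the Riemannian coefficient of a Hermitian metric. -/

open Set Filter Topology Metric Matrix
open scoped ComplexOrder ContDiff Matrix.Norms.Frobenius RealInnerProductSpace

noncomputable section
namespace Pool.Agent.PW

variable {n : ℕ}

/-- a complex matrix as a real linear map -/
def rc (M : Mat n) : EC n →L[ℝ] EC n :=
  (Matrix.toEuclideanCLM (𝕜 := ℂ) (n := Fin n) M).restrictScalars ℝ

theorem kα_eq (g : Mat n) : kα g = rc (kH g) := rfl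

theorem kl_inner (u v : EC n) : ⟪u, v⟫ = (inner ℂ u v).re := by
  simp [PiLp.inner_apply, Complex.inner, mul_comm]

theorem rc_apply (M : Mat n) (v : EC n) :
    rc M v = Matrix.toEuclideanCLM (𝕜 := ℂ) (n := Fin n) M v := rfl

theorem rc_mul (M N : Mat n) (v : EC n) : rc (M * N) v = rc M (rc N v) := by
  simp [rc_apply]

theorem rc_smul (c : ℝ) (M : Mat n) (v : EC n) : rc ((c : ℂ) • M) v = c • rc M v := by
  rw [rc_apply, map_smul, _root_.smul_apply, Complex.coe_smul, rc_apply]

theorem rc_inner (M : Mat n) (v w : EC n) : ⟪rc M v, w⟫ = ⟪v, rc Mᴴ w⟫ := by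
  rw [kl_inner, kl_inner, rc_apply, rc_apply, ← Matrix.star_eq_conjTranspose, map_star,
    ContinuousLinearMap.star_eq_adjoint, ContinuousLinearMap.adjoint_inner_right]

theorem rc_adjoint (M : Mat n) : (rc M).adjoint = rc Mᴴ := by
  symm
  rw [ContinuousLinearMap.eq_adjoint_iff]
  intro v w
  rw [rc_inner, conjTranspose_conjTranspose]

theorem rc_det (M : Mat n) : (rc M).det = Complex.normSq M.det := by
  have h1 : (rc M : EC n →ₗ[ℝ] EC n) = (Matrix.toLpLin 2 2 M).restrictScalars ℝ := rfl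
  rw [ContinuousLinearMap.det, h1, LinearMap.det_restrictScalars, Algebra.norm_complex_apply,
    Matrix.toLpLin_eq_toLin, LinearMap.det_toLin]

theorem rc_pos {M : Mat n} (h : M.PosDef) (v : EC n) (hv : v ≠ 0) : 0 < ⟪v, rc M v⟫ := by
  rw [kl_inner, rc_apply, EuclideanSpace.inner_eq_star_dotProduct, Matrix.ofLp_toEuclideanCLM,
    dotProduct_comm]
  exact h.re_dotProduct_pos (by simpa using hv)

theorem kH_pos {g : Mat n} (h : g.PosDef) : (kH g).PosDef :=
  h.transpose.inv.smul h.det_pos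

theorem kH_eq {g : Mat n} (h : g.det ≠ 0) : kH g = adjugate gᵀ := by
  rw [kH, kW, Matrix.inv_def, det_transpose, smul_smul, Ring.inverse_eq_inv',
    mul_inv_cancel₀ h, one_smul]

theorem kl_det_smooth {U : Set (EC n)} {M : EC n → Mat n}
    (h : ∀ j k, ContDiffOn ℝ ∞ (fun z => M z j k) U) : ContDiffOn ℝ ∞ (fun z => (M z).det) U := by
  simp only [Matrix.det_apply']
  exact ContDiffOn.sum fun σ _ => contDiffOn_const.mul (contDiffOn_prod fun i _ => h _ _)

theorem rc_sum (M : Mat n) : rc M = ∑ j, ∑ k, ((M j k).re • rc (single j k 1) +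
    (M j k).im • rc (single j k Complex.I)) := by
  ext1 v
  simp only [_root_.sum_apply, _root_.add_apply,
    _root_.smul_apply, ← rc_smul]
  simp only [rc_apply, ← _root_.add_apply, ← map_add, ← _root_.sum_apply,
    ← map_sum]
  congr 2
  conv_lhs => rw [matrix_eq_sum_single M]
  refine Finset.sum_congr rfl fun j _ => Finset.sum_congr rfl fun k _ => ?_
  rw [smul_single, smul_single, ← single_add]
  simp

theorem kl_coef {U : Set (EC n)} {g : EC n → Mat n} (h : IsKahlerOn U g) :
    Coef U fun x => kα (g x) := by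
  refine ⟨?_, fun x hx => ⟨fun v w => ?_, fun v hv => rc_pos (kH_pos (h.2.1 x hx)) v hv⟩⟩
  · have h1 : ∀ j k, ContDiffOn ℝ ∞ (fun z => adjugate (g z)ᵀ j k) U := fun j k => by
      simp only [adjugate_apply]
      refine kl_det_smooth fun p q => ?_
      simp only [updateRow_apply, transpose_apply]
      split_ifs
      · exact contDiffOn_const
      · exact h.1 _ _
    refine ContDiffOn.congr (f := fun z => rc (adjugate (g z)ᵀ)) ?_ fun x hx => ?_
    · simp only [fun z => rc_sum (adjugate (g z)ᵀ)]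
      refine ContDiffOn.sum fun j _ => ContDiffOn.sum fun k _ => ?_
      exact ((Complex.reCLM.contDiff.comp_contDiffOn (h1 j k)).smul contDiffOn_const).add
        ((Complex.imCLM.contDiff.comp_contDiffOn (h1 j k)).smul contDiffOn_const)
    · rw [kα_eq, kH_eq (h.2.1 x hx).det_pos.ne']
  · simp only
    rw [kα_eq, rc_inner, (kH_pos (h.2.1 x hx)).isHermitian.eq]

theorem kl_herm {g g' L : Mat n} (h : ∀ u v, herm g u v =
    herm g' (Matrix.toEuclideanCLM (𝕜 := ℂ) (n := Fin n) L u)
      (Matrix.toEuclideanCLM (𝕜 := ℂ) (n := Fin n) L v)) : gᵀ = Lᴴ * g'ᵀ * L := by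
  ext k j
  have := h (EuclideanSpace.single j 1) (EuclideanSpace.single k 1)
  simp only [herm, Matrix.ofLp_toEuclideanCLM, PiLp.ofLp_single, mulVec_single_one, col_apply,
    PiLp.single_apply] at this
  simp only [mul_ite, mul_one, mul_zero, apply_ite (starRingEnd ℂ), map_one, map_zero,
    Finset.sum_ite_eq', Finset.mem_univ, if_true] at this
  rw [transpose_apply, this]
  simp only [mul_apply, conjTranspose_apply, transpose_apply, Finset.sum_mul]
  refine Finset.sum_congr rfl fun p _ => Finset.sum_congr rfl fun q _ => ?_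
  rw [← Complex.star_def]
  ring

theorem kl_kH {g g' L : Mat n} (hg : g.det ≠ 0) (h : gᵀ = Lᴴ * g'ᵀ * L) :
    L * kH g * Lᴴ = ((Complex.normSq L.det : ℝ) : ℂ) • kH g' := by
  have hd : g.det = (Complex.normSq L.det : ℝ) * g'.det := by
    rw [← det_transpose g, h, det_mul, det_mul, det_conjTranspose, det_transpose,
      Complex.normSq_eq_conj_mul_self, Complex.star_def]
    ring
  have hL : L.det ≠ 0 := by
    rintro h0
    rw [h0] at hd
    simp at hd
    exact hg hd
  have hL' : Lᴴ.det ≠ 0 := by rw [det_conjTranspose]; exact star_ne_zero.2 hL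
  rw [kH, kH, kW, kW, h, Matrix.mul_inv_rev, Matrix.mul_inv_rev, smul_smul, ← hd, mul_smul_comm,
    smul_mul_assoc, ← mul_assoc, mul_nonsing_inv _ (Ne.isUnit hL), one_mul, mul_assoc,
    nonsing_inv_mul _ (Ne.isUnit hL'), mul_one]

theorem kl_inv {g g' : Mat n} (hg : g.PosDef) (L : EC n →L[ℂ] EC n)
    (h : ∀ u v, herm g u v = herm g' (L u) (L v)) (v w : EC n) :
    ⟪(L.restrictScalars ℝ).adjoint v, kα g ((L.restrictScalars ℝ).adjoint w)⟫ =
      |(L.restrictScalars ℝ).det| * ⟪v, kα g' w⟫ := by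
  obtain ⟨M, rfl⟩ := (Matrix.toEuclideanCLM (𝕜 := ℂ) (n := Fin n)).surjective L
  change ⟪(rc M).adjoint v, kα g ((rc M).adjoint w)⟫ = |(rc M).det| * ⟪v, kα g' w⟫
  rw [rc_adjoint, rc_det, abs_of_nonneg (Complex.normSq_nonneg _), rc_inner,
    conjTranspose_conjTranspose, kα_eq, kα_eq, ← rc_mul, ← rc_mul,
    kl_kH hg.det_pos.ne' (kl_herm h), rc_smul, real_inner_smul_right]

end Pool.Agent.PW
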