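import Mathlib

/-! Induction over path classes, and the monodromy of a locally constant cocycle. -/

open Set Filter Topology

noncomputable section
namespace Pool.Agent.PW

/-- homotopy classes of paths -/
abbrev HQ {X : Type} [TopologicalSpace X] (x y : X) := Path.Homotopic.Quotient x y

variable {X ι : Type} [TopologicalSpace X]

theorem kp_ind (V : ι → Set X) (hV : ∀ a, IsOpen (V a)) (hc : ∀ p, ∃ a, p ∈ V a) {x₀ : X}
    (Pr : ∀ p, HQ x₀ p → Prop) (h0 : Pr x₀ (.refl x₀))
    (hs : ∀ a p p' (m : HQ x₀ p) (δ : Path p p'), (∀ t, δ t ∈ V a) → Pr p m →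
      Pr p' (m.trans (.mk δ))) (p : X) (m : HQ x₀ p) : Pr p m := by
  induction m using Path.Homotopic.Quotient.ind with
  | _ γ =>
  obtain ⟨f, rfl, rfl⟩ := γ
  set γ : Path (f 0) (f 1) := ⟨f, rfl, rfl⟩ with hγ
  obtain ⟨t, t0, tm, ⟨n, hn⟩, ht⟩ := exists_monotone_Icc_subset_open_cover_unitInterval
    (c := fun a => f ⁻¹' V a) (fun a => (hV a).preimage f.continuous)
    (fun s _ => by obtain ⟨a, ha⟩ := hc (f s); exact mem_iUnion.2 ⟨a, ha⟩)
  have key : ∀ s : unitInterval, (∃ k, t k = s) → Pr (f s) (.mk (γ.subpath 0 s)) := by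
    rintro s ⟨k, rfl⟩
    induction k with
    | zero =>
      have : ∀ s : unitInterval, s = 0 → Pr (f s) (.mk (γ.subpath 0 s)) := by
        rintro s rfl
        rw [Path.subpath_self]
        exact h0
      exact this _ t0
    | succ k ih =>
      obtain ⟨a, ha⟩ := ht k
      have h1 := hs a _ _ _ (γ.subpath (t k) (t (k + 1))) (fun s => by
        have : γ.subpath (t k) (t (k + 1)) s ∈ range (γ.subpath (t k) (t (k + 1))) := ⟨s, rfl⟩
        rw [Path.range_subpath_of_le _ _ _ (tm k.le_succ)] at this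
        obtain ⟨u, hu, hu'⟩ := this
        rw [← hu']
        exact ha hu) ih
      have h2 : (Path.Homotopic.Quotient.mk (γ.subpath 0 (t k))).trans
          (.mk (γ.subpath (t k) (t (k + 1)))) = .mk (γ.subpath 0 (t (k + 1))) := by
        rw [← Path.Homotopic.Quotient.mk_trans, Path.Homotopic.Quotient.eq]
        exact ⟨Path.Homotopy.subpathTransSubpath γ _ _ _⟩
      exact h2 ▸ h1
  have := key 1 ⟨n, hn n le_rfl⟩
  rw [Path.subpath_zero_one] at this
  exact this

/-- The monodromy of a locally constant cocycle, read in the trivialisations. -/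
theorem kp_mono (V : ι → Set X) (hV : ∀ a, IsOpen (V a)) (hc : ∀ p, ∃ a, p ∈ V a) {x₀ : X}
    {a0 : ι} (h0 : x₀ ∈ V a0) {G : Type} [Group G] (τ : ι → ι → X → G)
    (hl : ∀ a b, ∀ p ∈ V a ∩ V b, ∀ᶠ q in 𝓝 p, τ a b q = τ a b p)
    (hco : ∀ a b d p, p ∈ V a → p ∈ V b → p ∈ V d → τ a d p = τ a b p * τ b d p) :
    ∃ Φ : ∀ p, HQ x₀ p → ι → G,
      (∀ p m a b, p ∈ V a → p ∈ V b → Φ p m b = Φ p m a * τ a b p) ∧
      (∀ a p p' (m : HQ x₀ p) (δ : Path p p'), (∀ t, δ t ∈ V a) →
        Φ p' (m.trans (.mk δ)) a = Φ p m a) ∧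
      (∀ p (γ : HQ x₀ x₀) (m : HQ x₀ p) a, Φ p (γ.trans m) a = Φ x₀ γ a0 * Φ p m a) ∧
      Φ x₀ (.refl x₀) a0 = 1 := by
  classical
  let _ : TopologicalSpace G := ⊥
  have : DiscreteTopology G := ⟨rfl⟩
  choose ix hix using hc
  have hself : ∀ a p, p ∈ V a → τ a a p = 1 := fun a p hp => by
    have := hco a a a p hp hp hp
    exact (left_eq_mul.1 this)
  let Z : FiberBundleCore ι X G :=
    { baseSet := V
      isOpen_baseSet := hV
      indexAt := ix
      mem_baseSet_at := hix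
      coordChange := fun a b p g => g * τ a b p
      coordChange_self := fun a p hp g => by rw [hself a p hp, mul_one]
      continuousOn_coordChange := fun a b => by
        rintro ⟨p, g⟩ ⟨hp, -⟩
        apply ContinuousAt.continuousWithinAt
        have h1 : ∀ᶠ z : X × G in 𝓝 (p, g), z.2 * τ a b z.1 = g * τ a b p := by
          have e1 : ∀ᶠ z : X × G in 𝓝 (p, g), τ a b z.1 = τ a b p :=
            (continuous_fst.tendsto (p, g)).eventually (hl a b p hp)
          have e2 : ∀ᶠ z : X × G in 𝓝 (p, g), z.2 = g :=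
            continuous_snd.continuousAt.eventually (p := fun y => y = g)
              ((isOpen_discrete {g}).mem_nhds rfl)
          filter_upwards [e1, e2] with z h1 h2
          rw [h1, h2]
        exact (continuousAt_const.congr (EventuallyEq.symm h1))
      coordChange_comp := fun a b d p hp g => by
        rw [hco a b d p hp.1.1 hp.1.2 hp.2, mul_assoc] }
  have cov : IsCoveringMap Z.proj := IsFiberBundle.isCoveringMap fun x =>
    ⟨Z.localTriv (ix x), hix x⟩
  let sn : Z.TotalSpace → G := fun e => e.2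
  let val : ι → Z.TotalSpace → G := fun a e => sn e * τ (ix e.1) a e.1
  have hloc : ∀ a p p' (δ : Path p p'), (∀ t, δ t ∈ V a) → ∀ e : Z.proj ⁻¹' {p},
      val a (cov.monodromy (.mk δ) e) = val a e := by
    intro a p p' δ hδ e
    have hp : p ∈ V a := δ.source ▸ hδ 0
    have hp' : p' ∈ V a := δ.target ▸ hδ 1
    obtain ⟨⟨q, g⟩, he⟩ := e
    obtain rfl : q = p := he
    let Γ : unitInterval → Z.TotalSpace := fun s =>
      (Z.localTriv a).toOpenPartialHomeomorph.symm (δ s, val a ⟨q, g⟩)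
    have hΓ : ∀ s, Γ s = ⟨δ s, val a ⟨q, g⟩ * τ a (ix (δ s)) (δ s)⟩ := fun s => rfl
    have hcont : Continuous Γ := by
      refine (Z.localTriv a).toOpenPartialHomeomorph.continuousOn_symm.comp_continuous
        (δ.continuous.prodMk continuous_const) fun s => ?_
      exact (Z.mem_localTriv_target a _).2 (hδ s)
    have hE : Γ = cov.liftPath δ ⟨q, g⟩ δ.source := by
      refine (cov.eq_liftPath_iff _).2 ⟨hcont, funext fun s => rfl, ?_⟩
      rw [hΓ]
      have : ∀ y, y = q → (⟨y, val a ⟨q, g⟩ * τ a (ix y) y⟩ : Z.TotalSpace) = ⟨q, g⟩ := by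
        rintro y rfl
        congr 1
        change sn ⟨y, g⟩ * τ (ix y) a y * τ a (ix y) y = sn ⟨y, g⟩
        rw [mul_assoc, ← hco _ _ _ _ (hix y) hp (hix y), hself _ _ (hix y), mul_one]
      exact this _ δ.source
    change val a (cov.liftPath δ ⟨q, g⟩ δ.source 1) = _
    rw [← hE, hΓ]
    change val a ⟨q, g⟩ * τ a (ix (δ 1)) (δ 1) * τ (ix (δ 1)) a (δ 1) = _
    rw [mul_assoc, ← hco _ _ _ _ (hδ 1) (hix _) (hδ 1), hself _ _ (hδ 1), mul_one]
  have hrat : ∀ a {p} (e e' : Z.proj ⁻¹' {p}), val a e * (val a e')⁻¹ =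
      sn e * (sn e')⁻¹ := by
    intro a p e e'
    have he : e.1.1 = p := e.2
    have he' : e'.1.1 = p := e'.2
    simp only [val, he, he']
    group
  have hinv : ∀ p (m : HQ x₀ p) (e e' : Z.proj ⁻¹' {x₀}) a,
      val a (cov.monodromy m e) * (val a (cov.monodromy m e'))⁻¹ = val a0 e * (val a0 e')⁻¹ := by
    refine kp_ind V hV (fun p => ⟨_, hix p⟩) _ ?_ ?_
    · intro e e' a
      rw [cov.monodromy_refl, hrat, hrat]
      rfl
    · intro b p p' m δ hδ ih e e' a
      rw [cov.monodromy_trans_apply, cov.monodromy_trans_apply, hrat, ← hrat b, hloc b _ _ δ hδ,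
        hloc b _ _ δ hδ, ih]
  let e0 : Z.proj ⁻¹' {x₀} := ⟨⟨x₀, τ a0 (ix x₀) x₀⟩, rfl⟩
  have he0 : val a0 e0 = 1 := by
    change τ a0 (ix x₀) x₀ * τ (ix x₀) a0 x₀ = 1
    rw [← hco _ _ _ _ h0 (hix _) h0, hself _ _ h0]
  refine ⟨fun p m a => val a (cov.monodromy m e0), ?_, ?_, ?_, ?_⟩
  · intro p m a b ha hb
    have he : (cov.monodromy m e0).1.1 = p := (cov.monodromy m e0).2
    simp only [val, he]
    rw [mul_assoc, ← hco _ _ _ _ (hix p) ha hb]
  · intro a p p' m δ hδ
    simp only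
    rw [cov.monodromy_trans_apply, hloc a _ _ δ hδ]
  · intro p γ m a
    simp only
    have := hinv p m (cov.monodromy γ e0) e0 a
    rw [he0, inv_one, mul_one, mul_inv_eq_iff_eq_mul] at this
    rw [cov.monodromy_trans_apply, this]
  · simp only
    rw [cov.monodromy_refl]
    exact he0

end Pool.Agent.PW
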