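import Pool.Agent.P.MP_65ad7c_ag.Base
import Pool.Agent.P.MP_65ad7c_ag.KPath

/-! The cocycle of a finite family of charts onto the ball of radius 6. -/

open Set Filter Topology Metric
open scoped ContDiff

noncomputable section
namespace Pool.Agent.PW

variable (E : Type) [NormedAddCommGroup E] [InnerProductSpace ℝ E]
  (X : Type) [TopologicalSpace X]

/-- charts onto the ball of radius 6 whose unit balls cover -/
structure KCh where
  ι : Type
  fin : Fintype ι
  e : ι → OpenPartialHomeomorph X E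
  tgt : ∀ a, (e a).target = ball 0 6
  cover : ∀ p, ∃ a, p ∈ (e a).source ∧ e a p ∈ ball (0 : E) 1
  smooth : ∀ a b, ContDiffOn ℝ ∞ (fun u => e b ((e a).symm u))
    {u | u ∈ ball (0 : E) 6 ∧ (e a).symm u ∈ (e b).source}

variable {E X}

namespace KCh
variable (K : KCh E X)

/-- the ball of radius `R` of a chart -/
def U (R : ℝ) (a : K.ι) : Set X := {p | p ∈ (K.e a).source ∧ K.e a p ∈ ball (0 : E) R}

theorem U_open (R : ℝ) (a : K.ι) : IsOpen (K.U R a) :=
  (K.e a).isOpen_inter_preimage isOpen_ball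

theorem map_mem {a : K.ι} {p : X} (hp : p ∈ (K.e a).source) : K.e a p ∈ ball (0 : E) 6 :=
  K.tgt a ▸ (K.e a).map_source hp

theorem symm_mem (a : K.ι) {u : E} (hu : u ∈ ball (0 : E) 6) :
    (K.e a).symm u ∈ (K.e a).source := (K.e a).map_target (by rw [K.tgt]; exact hu)

theorem right_inv (a : K.ι) {u : E} (hu : u ∈ ball (0 : E) 6) :
    K.e a ((K.e a).symm u) = u := (K.e a).right_inv (by rw [K.tgt]; exact hu)

theorem symm_cont (a : K.ι) : ContinuousOn (K.e a).symm (ball (0 : E) 6) :=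
  K.tgt a ▸ (K.e a).continuousOn_symm

theorem line_mem {R : ℝ} {u v : E} (hu : u ∈ ball (0 : E) R) (hv : v ∈ ball (0 : E) R)
    (t : unitInterval) : AffineMap.lineMap u v (t : ℝ) ∈ ball (0 : E) R :=
  (convex_ball (0 : E) R).lineMap_mem hu hv t.2

theorem exists_path {R : ℝ} (hR : R ≤ 6) {a : K.ι} {p p' : X} (hp : p ∈ K.U R a)
    (hp' : p' ∈ K.U R a) : ∃ δ : Path p p', ∀ t, δ t ∈ K.U R a := by
  have hm : ∀ t : unitInterval, AffineMap.lineMap (K.e a p) (K.e a p') (t : ℝ) ∈ ball (0 : E) 6 :=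
    fun t => ball_subset_ball hR (line_mem hp.2 hp'.2 t)
  refine ⟨⟨⟨fun t => (K.e a).symm (AffineMap.lineMap (K.e a p) (K.e a p') (t : ℝ)), ?_⟩, ?_, ?_⟩,
    fun t => ⟨K.symm_mem a (hm t), ?_⟩⟩
  · exact (K.symm_cont a).comp_continuous
      (AffineMap.lineMap_continuous.comp continuous_subtype_val) hm
  · simp [(K.e a).left_inv hp.1]
  · simp [(K.e a).left_inv hp'.1]
  · change K.e a ((K.e a).symm _) ∈ _
    rw [K.right_inv a (hm t)]
    exact line_mem hp.2 hp'.2 t

theorem homotopic {a : K.ι} {p p' : X} (δ δ' : Path p p') (h : ∀ t, δ t ∈ (K.e a).source)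
    (h' : ∀ t, δ' t ∈ (K.e a).source) :
    Path.Homotopic.Quotient.mk δ = Path.Homotopic.Quotient.mk δ' := by
  rw [Path.Homotopic.Quotient.eq]
  have hm : ∀ z : unitInterval × unitInterval,
      AffineMap.lineMap (K.e a (δ z.2)) (K.e a (δ' z.2)) (z.1 : ℝ) ∈ ball (0 : E) 6 :=
    fun z => line_mem (K.map_mem (h _)) (K.map_mem (h' _)) _
  have c1 : Continuous fun t => K.e a (δ t) :=
    (K.e a).continuousOn.comp_continuous δ.continuous h
  have c2 : Continuous fun t => K.e a (δ' t) :=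
    (K.e a).continuousOn.comp_continuous δ'.continuous h'
  refine ⟨⟨⟨⟨fun z => (K.e a).symm
    (AffineMap.lineMap (K.e a (δ z.2)) (K.e a (δ' z.2)) (z.1 : ℝ)), ?_⟩, ?_, ?_⟩, ?_⟩⟩
  · refine (K.symm_cont a).comp_continuous ?_ hm
    simp only [AffineMap.lineMap_apply, vsub_eq_sub, vadd_eq_add]
    exact ((continuous_subtype_val.comp continuous_fst).smul
      ((c2.comp continuous_snd).sub (c1.comp continuous_snd))).add (c1.comp continuous_snd)
  · intro t; simp [(K.e a).left_inv (h t)]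
  · intro t; simp [(K.e a).left_inv (h' t)]
  · intro s t ht
    rcases ht with rfl | rfl
    · have := h 0
      simp only [Path.source] at this
      simp [(K.e a).left_inv this]
    · have := h 1
      simp only [Path.target] at this
      simp [(K.e a).left_inv this]

theorem U_six (a : K.ι) : K.U 6 a = (K.e a).source :=
  Set.ext fun _ => ⟨fun h => h.1, fun h => ⟨h, K.map_mem h⟩⟩

theorem exists_Q [PathConnectedSpace X] (x₀ : X) (a0 : K.ι) :
    ∃ Q : K.ι → ∀ p, HQ x₀ p, Q a0 x₀ = .refl x₀ ∧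
      ∀ a p p' (δ : Path p p'), (∀ t, δ t ∈ (K.e a).source) →
        (Q a p).trans (.mk δ) = Q a p' := by
  classical
  have h06 : (0 : E) ∈ ball (0 : E) 6 := mem_ball_self (by norm_num)
  have hs : ∀ a p, p ∈ (K.e a).source → ∃ δ : Path ((K.e a).symm 0) p,
      ∀ t, δ t ∈ (K.e a).source := fun a p hp => by
    have := K.exists_path le_rfl (a := a) (p := (K.e a).symm 0) (p' := p)
      (by rw [U_six]; exact K.symm_mem a h06) (by rw [U_six]; exact hp)
    simpa only [U_six] using this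
  choose sg hsg using hs
  let Q0 : K.ι → ∀ p, HQ x₀ p := fun a p =>
    if h : p ∈ (K.e a).source then
      (Path.Homotopic.Quotient.mk (PathConnectedSpace.somePath x₀ ((K.e a).symm 0))).trans
        (.mk (sg a p h))
    else .mk (PathConnectedSpace.somePath x₀ p)
  refine ⟨fun a p => (Q0 a0 x₀).symm.trans (Q0 a p), by simp, fun a p p' δ hδ => ?_⟩
  have hp : p ∈ (K.e a).source := δ.source ▸ hδ 0
  have hp' : p' ∈ (K.e a).source := δ.target ▸ hδ 1
  simp only [Q0, dif_pos hp, dif_pos hp', Path.Homotopic.Quotient.trans_assoc]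
  congr 2
  rw [← Path.Homotopic.Quotient.mk_trans]
  refine K.homotopic (a := a) _ _ (fun t => ?_) (hsg a p' hp')
  have : ((sg a p hp).trans δ) t ∈ range ((sg a p hp).trans δ) := ⟨t, rfl⟩
  rw [Path.trans_range] at this
  rcases this with ⟨s, hs⟩ | ⟨s, hs⟩
  · exact hs ▸ hsg a p hp s
  · exact hs ▸ hδ s

end KCh

variable (E) in
/-- charts with a choice of path classes from the base point -/
structure KQ (x₀ : X) extends KCh E X where
  a0 : ι
  mem0 : x₀ ∈ toKCh.U 1 a0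
  Q : ι → ∀ p, HQ x₀ p
  Q0 : Q a0 x₀ = .refl x₀
  step : ∀ a p p' (δ : Path p p'), (∀ t, δ t ∈ (e a).source) → (Q a p).trans (.mk δ) = Q a p'

namespace KQ
variable {x₀ : X} (K : KQ E x₀)

/-- the cocycle -/
def C (a b : K.ι) (p : X) : FundamentalGroup X x₀ := (K.Q b p).trans (K.Q a p).symm

theorem C_self (a : K.ι) (p : X) : K.C a a p = 1 := by
  rw [C, Path.Homotopic.Quotient.trans_symm]
  rfl

theorem C_mul (a b d : K.ι) (p : X) : K.C a d p = K.C a b p * K.C b d p := by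
  rw [FundamentalGroup.mul_def]
  simp only [C, Path.Homotopic.Quotient.trans_assoc]
  rw [← Path.Homotopic.Quotient.trans_assoc (K.Q b p).symm]
  simp

theorem C_path (a b : K.ι) {p p' : X} (δ : Path p p') (ha : ∀ t, δ t ∈ (K.e a).source)
    (hb : ∀ t, δ t ∈ (K.e b).source) : K.C a b p' = K.C a b p := by
  have h1 : (K.Q a p').symm = (Path.Homotopic.Quotient.mk δ).symm.trans (K.Q a p).symm := by
    rw [← K.step a p p' δ ha]
    generalize K.Q a p = m
    induction m using Path.Homotopic.Quotient.ind with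
    | _ m =>
    rw [← Path.Homotopic.Quotient.mk_trans, ← Path.Homotopic.Quotient.mk_symm, Path.trans_symm]
    rfl
  simp only [C]
  rw [h1, ← K.step b p p' δ hb, Path.Homotopic.Quotient.trans_assoc,
    ← Path.Homotopic.Quotient.trans_assoc (Path.Homotopic.Quotient.mk δ)]
  simp

theorem C_loc (a b : K.ι) {p : X} (ha : p ∈ (K.e a).source) (hb : p ∈ (K.e b).source) :
    ∀ᶠ q in 𝓝 p, K.C a b q = K.C a b p := by
  have hu := K.map_mem ha
  have h1 : ∀ᶠ u in 𝓝 (K.e a p), u ∈ ball (0 : E) 6 ∧ (K.e a).symm u ∈ (K.e b).source := by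
    refine Filter.Eventually.and (isOpen_ball.mem_nhds hu) ?_
    refine ((K.symm_cont a).continuousAt (isOpen_ball.mem_nhds hu)).eventually
      ((K.e b).open_source.mem_nhds ?_)
    rwa [(K.e a).left_inv ha]
  obtain ⟨r, hr, hb'⟩ := Metric.eventually_nhds_iff_ball.1 h1
  have h2 : ∀ᶠ q in 𝓝 p, K.e a q ∈ ball (K.e a p) r :=
    ((K.e a).continuousAt ha).eventually (isOpen_ball.mem_nhds (mem_ball_self hr))
  filter_upwards [h2, (K.e a).open_source.mem_nhds ha] with q hq hqa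
  have hm : ∀ t : unitInterval, AffineMap.lineMap (K.e a p) (K.e a q) (t : ℝ) ∈ ball (K.e a p) r :=
    fun t => (convex_ball _ r).lineMap_mem (mem_ball_self hr) hq t.2
  refine K.C_path a b ⟨⟨fun t => (K.e a).symm (AffineMap.lineMap (K.e a p) (K.e a q) (t : ℝ)),
    ?_⟩, ?_, ?_⟩ (fun t => K.symm_mem a (hb' _ (hm t)).1) fun t => (hb' _ (hm t)).2
  · exact (K.symm_cont a).comp_continuous
      (AffineMap.lineMap_continuous.comp continuous_subtype_val) fun t => (hb' _ (hm t)).1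
  · simp [(K.e a).left_inv ha]
  · simp [(K.e a).left_inv hqa]

theorem cpt (a : K.ι) {L : Set E} (hL : IsCompact L) (h : L ⊆ ball 0 6) :
    IsCompact ((K.e a).symm '' L) := hL.image_of_continuousOn ((K.symm_cont a).mono h)

theorem finite_vals [T2Space X] [FiniteDimensional ℝ E] (a b : K.ι) :
    (K.C a b '' ((K.e a).symm '' closedBall 0 5 ∩ (K.e b).symm '' closedBall 0 5)).Finite := by
  have h56 : closedBall (0 : E) 5 ⊆ ball 0 6 := closedBall_subset_ball (by norm_num)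
  have hc := (K.cpt a (isCompact_closedBall 0 5) h56).inter (K.cpt b (isCompact_closedBall 0 5) h56)
  obtain ⟨t, ht, hcov⟩ := hc.elim_nhds_subcover (fun p => {q | K.C a b q = K.C a b p}) (by
    rintro p ⟨⟨u, hu, rfl⟩, v, hv, hv'⟩
    exact K.C_loc a b (K.symm_mem a (h56 hu)) (hv' ▸ K.symm_mem b (h56 hv)))
  refine (t.finite_toSet.image (K.C a b)).subset ?_
  rintro _ ⟨q, hq, rfl⟩
  obtain ⟨p, hp, hpq⟩ := mem_iUnion₂.1 (hcov hq)
  exact ⟨p, hp, (show K.C a b q = K.C a b p from hpq).symm⟩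

theorem exists_S [T2Space X] [FiniteDimensional ℝ E] : ∃ S : Finset (FundamentalGroup X x₀),
    (∀ a b u v, ‖u‖ ≤ 5 → ‖v‖ ≤ 5 → (K.e b).symm v = (K.e a).symm u →
      K.C a b ((K.e a).symm u) ∈ S) ∧ ∀ s ∈ S, s⁻¹ ∈ S := by
  have := K.fin
  have hf : (⋃ a, ⋃ b, K.C a b '' ((K.e a).symm '' closedBall 0 5 ∩
      (K.e b).symm '' closedBall 0 5)).Finite :=
    finite_iUnion fun a => finite_iUnion fun b => K.finite_vals a b
  refine ⟨(hf.union hf.inv).toFinset, fun a b u v hu hv h => ?_, fun s hs => ?_⟩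
  · rw [Finite.mem_toFinset]
    refine Or.inl (mem_iUnion₂.2 ⟨a, b, _, ⟨⟨u, by simpa using hu, rfl⟩, v, by simpa using hv, h⟩,
      rfl⟩)
  · rw [Finite.mem_toFinset] at hs ⊢
    rcases hs with hs | hs
    · exact Or.inr (by simpa only [Set.mem_inv, inv_inv] using hs)
    · exact Or.inl (Set.mem_inv.1 hs)

variable [T2Space X] [FiniteDimensional ℝ E]

/-- the atlas with its cocycle -/
def pre : Pre E (FundamentalGroup X x₀) where
  ι := K.ι
  fin := K.fin
  a0 := K.a0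
  O := fun a b => {u | u ∈ ball (0 : E) 6 ∧ (K.e a).symm u ∈ (K.e b).source}
  T := fun a b u => K.e b ((K.e a).symm u)
  c := fun a b u => K.C a b ((K.e a).symm u)
  S := K.exists_S.choose
  O_open := fun a b => (K.symm_cont a).isOpen_inter_preimage isOpen_ball (K.e b).open_source
  O_sub := fun _ _ _ h => h.1
  O_self := fun a => Set.ext fun _ => ⟨fun h => h.1, fun h => ⟨h, K.symm_mem a h⟩⟩
  T_self := fun a _ hx => K.right_inv a hx
  c_self := fun a _ _ => K.C_self a _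
  T_mem := fun a b x hx => ⟨K.map_mem hx.2, by
    rw [(K.e b).left_inv hx.2]; exact K.symm_mem a hx.1⟩
  T_inv := fun a b x hx => by rw [(K.e b).left_inv hx.2, K.right_inv a hx.1]
  T_smooth := K.smooth
  cocycle := fun a b d x hx hy => by
    have h2 := hy.2
    rw [(K.e b).left_inv hx.2] at h2 ⊢
    exact ⟨⟨hx.1, h2⟩, rfl, K.C_mul a b d _⟩
  c_loc := fun a b x hx => ((K.symm_cont a).continuousAt (isOpen_ball.mem_nhds hx.1)).eventually
    (K.C_loc a b (K.symm_mem a hx.1) hx.2)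
  sep := fun a b L hL hL6 x hx hxO => by
    have h1 : (K.e a).symm x ∈ ((K.e b).symm '' L)ᶜ := by
      rintro ⟨v, hv, hv'⟩
      exact hxO ⟨hx, hv' ▸ K.symm_mem b (hL6 hv)⟩
    filter_upwards [((K.symm_cont a).continuousAt (isOpen_ball.mem_nhds hx)).eventually
      ((K.cpt b hL hL6).isClosed.isOpen_compl.mem_nhds h1)] with y hy hyO hT
    exact hy ⟨_, hT, (K.e b).left_inv hyO.2⟩
  cover := fun a x hx => by
    obtain ⟨b, hb, hb'⟩ := K.cover ((K.e a).symm x)
    exact ⟨b, ⟨hx, hb⟩, hb'⟩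
  S_mem := fun a b x hx h1 h2 => K.exists_S.choose_spec.1 a b x _ h1 h2 ((K.e b).left_inv hx.2)
  S_inv := K.exists_S.choose_spec.2

theorem mem_ov {R : ℝ} (hR : R ≤ 6) {a b : K.ι} {p : X} (ha : p ∈ K.U R a) (hb : p ∈ K.U R b) :
    K.e a p ∈ K.pre.ov (ball 0 R) a b := by
  refine ⟨⟨ball_subset_ball hR ha.2, ?_⟩, ha.2, ?_⟩
  · rw [(K.e a).left_inv ha.1]; exact hb.1
  · change K.e b ((K.e a).symm (K.e a p)) ∈ _
    rw [(K.e a).left_inv ha.1]; exact hb.2

theorem of_ov {R : ℝ} {a b : K.ι} {x : E} (hx : x ∈ K.pre.ov (ball 0 R) a b) :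
    (K.e a).symm x ∈ K.U R a ∧ (K.e a).symm x ∈ K.U R b :=
  ⟨⟨K.symm_mem a hx.1.1, by rw [K.right_inv a hx.1.1]; exact hx.2.1⟩, hx.1.2, hx.2.2⟩

end KQ

theorem Pre.Chain.append {Γ : Type} [Group Γ] [FiniteDimensional ℝ E] {A : Pre E Γ}
    {a b d : A.ι} {γ γ' : Γ} (h : A.Chain a b γ) (h' : A.Chain b d γ') : A.Chain a d (γ * γ') := by
  induction h with
  | nil a => simpa using h'
  | cons a b d x γ hx _ ih => rw [mul_assoc]; exact .cons _ _ _ _ _ hx (ih h')

namespace KQ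
variable {x₀ : X} (K : KQ E x₀) [T2Space X] [FiniteDimensional ℝ E]

theorem chain_one {a b : K.ι} {p : X} (ha : p ∈ K.U 1 a) (hb : p ∈ K.U 1 b) :
    K.pre.Chain a b (K.C a b p) := by
  have := Pre.Chain.cons (A := K.pre) a b b _ 1 (K.mem_ov (by norm_num) ha hb)
    (Pre.Chain.nil (A := K.pre) b)
  rw [mul_one] at this
  change K.pre.Chain a b (K.C a b ((K.e a).symm (K.e a p))) at this
  rwa [(K.e a).left_inv ha.1] at this

theorem chain_all (p : X) (m : HQ x₀ p) : ∀ a, p ∈ K.U 1 a →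
    K.pre.Chain K.a0 a (show FundamentalGroup X x₀ from (K.Q a p).trans m.symm) := by
  refine kp_ind (K.U 1) (K.U_open 1) K.cover
    (fun p m => ∀ a, p ∈ K.U 1 a →
      K.pre.Chain K.a0 a (show FundamentalGroup X x₀ from (K.Q a p).trans m.symm)) ?_ ?_ p m
  · intro a ha
    have := K.chain_one K.mem0 ha
    rw [C, K.Q0] at this
    exact this
  · intro b p p' m δ hδ ih a ha
    have hp : p ∈ K.U 1 b := δ.source ▸ hδ 0
    have hp' : p' ∈ K.U 1 b := δ.target ▸ hδ 1
    have h1 := (ih b hp).append (K.chain_one hp' ha)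
    have h2 : (m.trans (Path.Homotopic.Quotient.mk δ)).symm =
        (Path.Homotopic.Quotient.mk δ).symm.trans m.symm := by
      induction m using Path.Homotopic.Quotient.ind with
      | _ m =>
      rw [← Path.Homotopic.Quotient.mk_trans, ← Path.Homotopic.Quotient.mk_symm, Path.trans_symm]
      rfl
    have h3 : (K.Q b p').symm.trans (K.Q b p) = (Path.Homotopic.Quotient.mk δ).symm := by
      have h4 : K.Q b p = (K.Q b p').trans (Path.Homotopic.Quotient.mk δ).symm := by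
        rw [← K.step b p p' δ fun t => (hδ t).1]
        simp
      rw [h4, ← Path.Homotopic.Quotient.trans_assoc]
      simp
    rw [FundamentalGroup.mul_def, C] at h1
    rw [h2, ← h3]
    simpa only [Path.Homotopic.Quotient.trans_assoc] using h1

theorem chain (γ : FundamentalGroup X x₀) : K.pre.Chain K.a0 K.a0 γ := by
  have := K.chain_all x₀ (γ⁻¹ : FundamentalGroup X x₀) K.a0 K.mem0
  rw [K.Q0, Path.Homotopic.Quotient.refl_trans] at this
  change K.pre.Chain K.a0 K.a0 (γ⁻¹⁻¹) at this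
  rwa [inv_inv] at this

theorem reach (a : K.ι) : ∃ γ, K.pre.Chain K.a0 a γ := by
  have h06 : (0 : E) ∈ ball (0 : E) 6 := mem_ball_self (by norm_num)
  exact ⟨_, K.chain_all ((K.e a).symm 0) (K.Q a _) a
    ⟨K.symm_mem a h06, by rw [K.right_inv a h06]; exact mem_ball_self one_pos⟩⟩

theorem lift (G : Type) [Group G] (τ : K.ι → K.ι → E → G)
    (hl : ∀ a b, ∀ x ∈ K.pre.ov (ball 0 2) a b, ∀ᶠ y in 𝓝 x, τ a b y = τ a b x)
    (hc : ∀ a b d, ∀ x ∈ K.pre.ov (ball 0 2) a b, K.pre.T a b x ∈ K.pre.ov (ball 0 2) b d →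
      τ a d x = τ a b x * τ b d (K.pre.T a b x)) :
    ∃ (ρ : FundamentalGroup X x₀ →* G) (u : K.ι → G), u K.a0 = 1 ∧
      ∀ a b, ∀ x ∈ K.pre.ov (ball 0 2) a b, τ a b x = (u a)⁻¹ * ρ (K.pre.c a b x) * u b := by
  have h12 : ∀ {a p}, p ∈ K.U 1 a → p ∈ K.U 2 a := fun h =>
    ⟨h.1, ball_subset_ball (by norm_num) h.2⟩
  have h26 : (2 : ℝ) ≤ 6 := by norm_num
  obtain ⟨Φ, h1, h2, h3, h4⟩ := kp_mono (K.U 2) (K.U_open 2)
    (fun p => by obtain ⟨a, ha⟩ := K.cover p; exact ⟨a, h12 ha⟩) (h12 K.mem0)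
    (fun a b p => τ a b (K.e a p))
    (fun a b p hp => ((K.e a).continuousAt hp.1.1).eventually (hl a b _ (K.mem_ov h26 hp.1 hp.2)))
    (fun a b d p ha hb hd => by
      have e1 : K.pre.T a b (K.e a p) = K.e b p := by
        change K.e b ((K.e a).symm (K.e a p)) = _
        rw [(K.e a).left_inv ha.1]
      have := hc a b d _ (K.mem_ov h26 ha hb) (by rw [e1]; exact K.mem_ov h26 hb hd)
      rwa [e1] at this)
  have h06 : (0 : E) ∈ ball (0 : E) 6 := mem_ball_self (by norm_num)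
  have hcen : ∀ a, (K.e a).symm 0 ∈ K.U 2 a := fun a =>
    ⟨K.symm_mem a h06, by rw [K.right_inv a h06]; exact mem_ball_self two_pos⟩
  have hu : ∀ a p, p ∈ K.U 2 a → Φ p (K.Q a p) a = Φ _ (K.Q a ((K.e a).symm 0)) a := by
    intro a p hp
    obtain ⟨δ, hδ⟩ := K.exists_path h26 (hcen a) hp
    rw [← K.step a _ _ δ fun t => (hδ t).1, h2 a _ _ _ δ hδ]
  refine ⟨MonoidHom.mk' (fun γ => (Φ x₀ γ K.a0)⁻¹) fun γ γ' => ?_,
    fun a => Φ _ (K.Q a ((K.e a).symm 0)) a, ?_, fun a b x hx => ?_⟩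
  · rw [FundamentalGroup.mul_def, h3, mul_inv_rev]
  · simp only
    rw [← hu _ _ (h12 K.mem0), K.Q0, h4]
  · obtain ⟨ha, hb⟩ := K.of_ov hx
    have e1 : K.Q b ((K.e a).symm x) =
        Path.Homotopic.Quotient.trans (K.C a b ((K.e a).symm x)) (K.Q a ((K.e a).symm x)) := by
      simp [C]
    have e2 := h1 _ (K.Q b ((K.e a).symm x)) a b ha hb
    rw [hu b _ hb, K.right_inv a hx.1.1] at e2
    have e3 := h3 _ (K.C a b ((K.e a).symm x)) (K.Q a ((K.e a).symm x)) a
    rw [e1, e3, hu a _ ha] at e2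
    change τ a b x = _ * (Φ x₀ (K.C a b ((K.e a).symm x)) K.a0)⁻¹ * _
    simp only
    rw [e2]
    group

end KQ

end Pool.Agent.PW
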