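import Pool.Agent.P.MP_65ad7c_ag.LCH0

open Matrix Filter Topology Set
open scoped ComplexOrder Kronecker

noncomputable section
namespace Pool.Agent.PW.L

variable {n m : Type} [Fintype n] [DecidableEq n] [Fintype m] [DecidableEq m]
  {r : ℕ} {G : Subgroup (GL (Fin r) ℂ)} {Γ : Type}

section
variable {R : Type} [Ring R] [Algebra ℂ R]

/-- column vectors as a module along an algebra map -/
def lchV (_φ : R →ₐ[ℂ] Matrix n n ℂ) : Type := n → ℂ

variable (φ : R →ₐ[ℂ] Matrix n n ℂ)

instance : AddCommGroup (lchV φ) := inferInstanceAs (AddCommGroup (n → ℂ))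

instance : Module ℂ (lchV φ) := inferInstanceAs (Module ℂ (n → ℂ))

instance : FiniteDimensional ℂ (lchV φ) := inferInstanceAs (FiniteDimensional ℂ (n → ℂ))

/-- the identification with column vectors -/
def lchE : lchV φ ≃ₗ[ℂ] (n → ℂ) := LinearEquiv.refl ℂ (n → ℂ)

instance : Module R (lchV φ) where
  smul x v := (lchE φ).symm (φ x *ᵥ lchE φ v)
  one_smul v := by
    change (lchE φ).symm (φ 1 *ᵥ lchE φ v) = v
    rw [map_one, one_mulVec, LinearEquiv.symm_apply_apply]
  mul_smul x y v := by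
    change (lchE φ).symm (φ (x * y) *ᵥ lchE φ v) =
      (lchE φ).symm (φ x *ᵥ lchE φ ((lchE φ).symm (φ y *ᵥ lchE φ v)))
    rw [map_mul, LinearEquiv.apply_symm_apply, mulVec_mulVec]
  smul_zero x := by
    change (lchE φ).symm (φ x *ᵥ lchE φ 0) = 0
    rw [map_zero, mulVec_zero, map_zero]
  smul_add x v w := by
    change (lchE φ).symm (φ x *ᵥ lchE φ (v + w)) =
      (lchE φ).symm (φ x *ᵥ lchE φ v) + (lchE φ).symm (φ x *ᵥ lchE φ w)
    rw [map_add, mulVec_add, map_add]
  add_smul x y v := by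
    change (lchE φ).symm (φ (x + y) *ᵥ lchE φ v) =
      (lchE φ).symm (φ x *ᵥ lchE φ v) + (lchE φ).symm (φ y *ᵥ lchE φ v)
    rw [map_add, add_mulVec, map_add]
  zero_smul v := by
    change (lchE φ).symm (φ 0 *ᵥ lchE φ v) = 0
    rw [map_zero, zero_mulVec, map_zero]

theorem lch_smul (x : R) (v : lchV φ) : lchE φ (x • v) = φ x *ᵥ lchE φ v := rfl

instance : IsScalarTower ℂ R (lchV φ) where
  smul_assoc c x v := by
    apply (lchE φ).injective
    rw [lch_smul, map_smul, map_smul, lch_smul, smul_mulVec]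

instance : SMulCommClass R ℂ (lchV φ) where
  smul_comm x c v := by
    apply (lchE φ).injective
    rw [lch_smul, map_smul, map_smul, lch_smul, mulVec_smul]

theorem lch_trace (x : R) :
    LinearMap.trace ℂ (lchV φ) (DistribSMul.toLinearMap ℂ (lchV φ) x) = (φ x).trace := by
  rw [← Matrix.trace_toLin'_eq]
  rfl

theorem lch_ss (h : SSm fun x : R => φ x) : IsSemisimpleModule R (lchV φ) := by
  refine { exists_isCompl := fun W => ?_ }
  let W1 : Submodule ℂ (n → ℂ) := (W.restrictScalars ℂ).comap (lchE φ).symm.toLinearMap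
  obtain ⟨W', h1, h2⟩ := h W1 fun x v hv => W.smul_mem x hv
  let W2 : Submodule R (lchV φ) :=
    { carrier := {v | lchE φ v ∈ W'}
      add_mem' := fun ha hb => W'.add_mem ha hb
      zero_mem' := W'.zero_mem
      smul_mem' := fun x v hv => h1 x _ hv }
  refine ⟨W2, ?_, ?_⟩
  · rw [Submodule.disjoint_def]
    exact fun v hv hv' => Submodule.disjoint_def.1 h2.disjoint (lchE φ v) hv hv'
  · rw [codisjoint_iff, Submodule.eq_top_iff']
    intro v
    have hv : (lchE φ v) ∈ W1 ⊔ W' := by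
      rw [codisjoint_iff.1 h2.codisjoint]
      trivial
    obtain ⟨y, hy, z, hz, e⟩ := Submodule.mem_sup.1 hv
    exact Submodule.mem_sup.2 ⟨(lchE φ).symm y, hy, (lchE φ).symm z, hz, e⟩

end

theorem lch_lift [Monoid Γ] {a : Γ →* Matrix n n ℂ} (ha : SSm a) :
    SSm fun x : MonoidAlgebra ℂ Γ => MonoidAlgebra.lift ℂ (Matrix n n ℂ) Γ a x := by
  intro W hW
  obtain ⟨W', h1, h2⟩ := ha W fun γ v hv => by
    have := hW (MonoidAlgebra.of ℂ Γ γ) v hv
    simp only [MonoidAlgebra.lift_of] at this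
    exact this
  refine ⟨W', fun x v hv => ?_, h2⟩
  induction x using MonoidAlgebra.induction_on with
  | of γ =>
    simp only [MonoidAlgebra.lift_of]
    exact h1 γ v hv
  | add x y hx hy =>
    simp only [map_add, add_mulVec]
    exact W'.add_mem hx hy
  | smul c x hx =>
    simp only [map_smul, smul_mulVec]
    exact W'.smul_mem c hx

theorem ch [Monoid Γ] (a b : Γ →* Matrix n n ℂ) (ha : SSm a) (hb : SSm b)
    (h : ∀ x, (a x).trace = (b x).trace) : ∃ T : Matrix n n ℂ, IsUnit T ∧ ∀ x, T * a x = b x * T := by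
  set φ := MonoidAlgebra.lift ℂ (Matrix n n ℂ) Γ a with hφ
  set ψ := MonoidAlgebra.lift ℂ (Matrix n n ℂ) Γ b with hψ
  have := lch_ss φ (lch_lift ha)
  have := lch_ss ψ (lch_lift hb)
  have ea : ∀ x, φ (MonoidAlgebra.of ℂ Γ x) = a x := fun x => MonoidAlgebra.lift_of _ x
  have eb : ∀ x, ψ (MonoidAlgebra.of ℂ Γ x) = b x := fun x => MonoidAlgebra.lift_of _ x
  have ht : ∀ x, (φ x).trace = (ψ x).trace := by
    intro x
    induction x using MonoidAlgebra.induction_on with
    | of γ => rw [ea, eb, h]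
    | add x y hx hy => simp only [map_add, trace_add, hx, hy]
    | smul c x hx => simp only [map_smul, trace_smul, hx]
  obtain ⟨e⟩ := ch_mod (MonoidAlgebra ℂ Γ) _ (lchV φ) (lchV ψ) rfl fun x => by
    rw [lch_trace, lch_trace, ht]
  let f : (n → ℂ) ≃ₗ[ℂ] (n → ℂ) := ((lchE φ).symm.trans (e.restrictScalars ℂ)).trans (lchE ψ)
  have hf : ∀ x v, f (a x *ᵥ v) = b x *ᵥ f v := by
    intro x v
    have h1 := e.map_smul (MonoidAlgebra.of ℂ Γ x) ((lchE φ).symm v)
    have h2 := congrArg (lchE ψ) h1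
    rw [lch_smul, eb] at h2
    have h3 : MonoidAlgebra.of ℂ Γ x • (lchE φ).symm v = (lchE φ).symm (a x *ᵥ v) := by
      apply (lchE φ).injective
      rw [lch_smul, ea]
      rfl
    rw [h3] at h2
    exact h2
  refine ⟨LinearMap.toMatrix' f.toLinearMap, ?_, fun x => ?_⟩
  · refine IsUnit.of_mul_eq_one (LinearMap.toMatrix' f.symm.toLinearMap) ?_
    rw [← LinearMap.toMatrix'_comp, LinearEquiv.comp_symm, LinearMap.toMatrix'_id]
  · apply Matrix.toLin'.injective
    refine LinearMap.ext fun v => ?_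
    rw [Matrix.toLin'_mul, Matrix.toLin'_mul, Matrix.toLin'_toMatrix']
    simp only [LinearMap.comp_apply, Matrix.toLin'_apply, LinearEquiv.coe_coe]
    exact hf x v

end Pool.Agent.PW.L
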