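import Pool.Agent.P.MP_65ad7c_ag.LDefs

open Matrix Filter Topology Set
open scoped ComplexOrder Kronecker

noncomputable section
namespace Pool.Agent.PW.L

variable {n m : Type} [Fintype n] [DecidableEq n] [Fintype m] [DecidableEq m]
  {r : ℕ} {G : Subgroup (GL (Fin r) ℂ)} {Γ : Type}

section lch0

variable {R : Type} [Ring R] [Algebra ℂ R]
  {V : Type} [AddCommGroup V] [Module ℂ V] [Module R V] [IsScalarTower ℂ R V] [SMulCommClass R ℂ V]
  {W : Type} [AddCommGroup W] [Module ℂ W] [Module R W] [IsScalarTower ℂ R W] [SMulCommClass R ℂ W]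
  {K : Type} [AddCommGroup K] [Module ℂ K] [Module R K] [IsScalarTower ℂ R K] [SMulCommClass R ℂ K]
  {S : Type} [AddCommGroup S] [Module ℂ S] [Module R S] [IsScalarTower ℂ R S] [SMulCommClass R ℂ S]

theorem lch0_tr [FiniteDimensional ℂ K] [FiniteDimensional ℂ S] (e : V ≃ₗ[R] K × S) (x : R) :
    LinearMap.trace ℂ V (DistribSMul.toLinearMap ℂ V x) =
      LinearMap.trace ℂ K (DistribSMul.toLinearMap ℂ K x) +
        LinearMap.trace ℂ S (DistribSMul.toLinearMap ℂ S x) := by
  rw [← LinearMap.trace_prodMap', ← LinearMap.trace_conj' _ (e.restrictScalars ℂ)]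
  congr 1
  refine LinearMap.ext fun v => ?_
  change e (x • e.symm v) = x • v
  rw [map_smul, e.apply_symm_apply]

omit [SMulCommClass R ℂ V] in
theorem lch0_fd [FiniteDimensional ℂ V] (A : Submodule R V) : FiniteDimensional ℂ A :=
  Module.Finite.of_injective (A.subtype.restrictScalars ℂ) A.injective_subtype

omit [Algebra ℂ R] [Module ℂ V] [IsScalarTower ℂ R V] [SMulCommClass R ℂ V] [Module ℂ W]
  [IsScalarTower ℂ R W] [SMulCommClass R ℂ W] in
theorem lch0_split [IsSemisimpleModule R V] [IsSemisimpleModule R W] (f : V →ₗ[R] W)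
    (hf : f ≠ 0) : ∃ (A B : Submodule R V) (A' : Submodule R W), Nontrivial B ∧
      Nonempty (V ≃ₗ[R] A × B) ∧ Nonempty (W ≃ₗ[R] A' × B) := by
  obtain ⟨B, hB⟩ := exists_isCompl (LinearMap.ker f)
  obtain ⟨A', hA'⟩ := exists_isCompl (LinearMap.range f)
  refine ⟨LinearMap.ker f, B, A', ?_, ⟨(Submodule.prodEquivOfIsCompl _ _ hB).symm⟩,
    ⟨(Submodule.prodEquivOfIsCompl _ _ hA'.symm).symm.trans ((LinearEquiv.refl R A').prodCongr
      (f.quotKerEquivRange.symm.trans (Submodule.quotientEquivOfIsCompl _ _ hB)))⟩⟩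
  rw [Submodule.nontrivial_iff_ne_bot]
  rintro rfl
  exact hf (LinearMap.ker_eq_top.1 (eq_top_of_isCompl_bot hB))

omit [Algebra ℂ R] [IsScalarTower ℂ R V] [IsScalarTower ℂ R W] in
theorem lch0_zero [FiniteDimensional ℂ V] [FiniteDimensional ℂ W] [IsSemisimpleModule R V]
    [IsSemisimpleModule R W] (hf : ∀ f : V →ₗ[R] W, f = 0) (hg : ∀ g : W →ₗ[R] V, g = 0)
    (h : ∀ x : R, LinearMap.trace ℂ V (DistribSMul.toLinearMap ℂ V x) =
      LinearMap.trace ℂ W (DistribSMul.toLinearMap ℂ W x)) : Module.finrank ℂ V = 0 := by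
  classical
  let p : Module.End (Module.End R (V × W)) (V × W) :=
    { toFun := fun z => (z.1, 0)
      map_add' := fun z z' => by simp
      map_smul' := fun φ z => by
        have h1 : ∀ v : V, (φ (v, 0)).2 = 0 := fun v =>
          LinearMap.congr_fun (hf ((LinearMap.snd R V W).comp (φ.comp (LinearMap.inl R V W)))) v
        have h2 : ∀ w : W, (φ (0, w)).1 = 0 := fun w =>
          LinearMap.congr_fun (hg ((LinearMap.fst R V W).comp (φ.comp (LinearMap.inr R V W)))) w
        have h3 : z = (z.1, 0) + (0, z.2) := by simp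
        change ((φ z).1, (0 : W)) = φ (z.1, 0)
        refine Prod.ext ?_ (h1 _).symm
        conv_lhs => rw [h3, map_add, Prod.fst_add, h2, add_zero] }
  have : IsSemisimpleModule R (V × W) := by
    have h1 := IsSemisimpleModule.sup (IsSemisimpleModule.range (LinearMap.inl R V W))
      (IsSemisimpleModule.range (LinearMap.inr R V W))
    rw [LinearMap.sup_range_inl_inr] at h1
    exact IsSemisimpleModule.congr Submodule.topEquiv.symm
  let bV := Module.finBasis ℂ V
  let bW := Module.finBasis ℂ W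
  obtain ⟨x, hx⟩ := jacobson_density p
    (Finset.univ.image (fun i => ((bV i, 0) : V × W)) ∪
      Finset.univ.image fun i => ((0, bW i) : V × W))
  have h1 : DistribSMul.toLinearMap ℂ V x = LinearMap.id := bV.ext fun i =>
    (congrArg Prod.fst (hx _ (Finset.mem_union_left _
      (Finset.mem_image_of_mem _ (Finset.mem_univ i))))).symm
  have h2 : DistribSMul.toLinearMap ℂ W x = 0 := bW.ext fun i =>
    (congrArg Prod.snd (hx _ (Finset.mem_union_right _
      (Finset.mem_image_of_mem _ (Finset.mem_univ i))))).symm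
  have h3 := h x
  rw [h1, h2, LinearMap.trace_id, map_zero] at h3
  exact_mod_cast h3

omit [Algebra ℂ R] [IsScalarTower ℂ R V] [IsScalarTower ℂ R W] in
theorem lch0_rank [FiniteDimensional ℂ V] [FiniteDimensional ℂ W]
    (h : ∀ x : R, LinearMap.trace ℂ V (DistribSMul.toLinearMap ℂ V x) =
      LinearMap.trace ℂ W (DistribSMul.toLinearMap ℂ W x)) :
    Module.finrank ℂ V = Module.finrank ℂ W := by
  have h1 : DistribSMul.toLinearMap ℂ V (1 : R) = LinearMap.id := LinearMap.ext fun v => one_smul R v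
  have h2 : DistribSMul.toLinearMap ℂ W (1 : R) = LinearMap.id := LinearMap.ext fun v => one_smul R v
  have h3 := h 1
  rw [h1, h2, LinearMap.trace_id, LinearMap.trace_id] at h3
  exact_mod_cast h3

omit [SMulCommClass R ℂ V] [SMulCommClass R ℂ K] [SMulCommClass R ℂ S] in
theorem lch0_lt [FiniteDimensional ℂ K] [FiniteDimensional ℂ S] [Nontrivial S]
    (e : V ≃ₗ[R] K × S) : Module.finrank ℂ K < Module.finrank ℂ V := by
  rw [(e.restrictScalars ℂ).finrank_eq, Module.finrank_prod]
  exact Nat.lt_add_of_pos_right Module.finrank_pos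

end lch0

/-- semisimple modules of finite dimension are determined by their characters -/
theorem ch_mod (R : Type) [Ring R] [Algebra ℂ R] (d : ℕ) : ∀ (V W : Type) [AddCommGroup V]
    [Module ℂ V] [Module R V] [IsScalarTower ℂ R V] [SMulCommClass R ℂ V] [FiniteDimensional ℂ V]
    [IsSemisimpleModule R V] [AddCommGroup W] [Module ℂ W] [Module R W] [IsScalarTower ℂ R W]
    [SMulCommClass R ℂ W] [FiniteDimensional ℂ W] [IsSemisimpleModule R W],
    Module.finrank ℂ V = d →
    (∀ x : R, LinearMap.trace ℂ V (DistribSMul.toLinearMap ℂ V x) =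
      LinearMap.trace ℂ W (DistribSMul.toLinearMap ℂ W x)) → Nonempty (V ≃ₗ[R] W) := by
  induction d using Nat.strong_induction_on with
  | _ d IH =>
    intro V W _ _ _ _ _ _ _ _ _ _ _ _ _ _ hd h
    by_cases hf : ∀ f : V →ₗ[R] W, f = 0
    · by_cases hg : ∀ g : W →ₗ[R] V, g = 0
      · have h1 := lch0_zero hf hg h
        have h2 := (lch0_rank h).symm.trans h1
        have := (Module.finrank_zero_iff (R := ℂ) (M := V)).1 h1
        have := (Module.finrank_zero_iff (R := ℂ) (M := W)).1 h2
        exact ⟨LinearEquiv.ofSubsingleton V W⟩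
      · push Not at hg
        obtain ⟨g, hg⟩ := hg
        obtain ⟨A, B, A', hB, ⟨e⟩, ⟨e'⟩⟩ := lch0_split g hg
        have := lch0_fd A
        have := lch0_fd B
        have := lch0_fd A'
        obtain ⟨u⟩ := IH _ (hd ▸ lch0_lt e') A' A rfl fun x => by
          have h1 := h x
          rw [lch0_tr e x, lch0_tr e' x] at h1
          exact add_right_cancel h1
        exact ⟨e'.trans ((u.prodCongr (LinearEquiv.refl R B)).trans e.symm)⟩
    · push Not at hf
      obtain ⟨f, hf⟩ := hf
      obtain ⟨A, B, A', hB, ⟨e⟩, ⟨e'⟩⟩ := lch0_split f hf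
      have := lch0_fd A
      have := lch0_fd B
      have := lch0_fd A'
      obtain ⟨u⟩ := IH _ (hd ▸ lch0_lt e) A A' rfl fun x => by
        have h1 := h x
        rw [lch0_tr e x, lch0_tr e' x] at h1
        exact add_right_cancel h1
      exact ⟨e.trans ((u.prodCongr (LinearEquiv.refl R B)).trans e'.symm)⟩

end Pool.Agent.PW.L
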