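import Pool.Agent.P.MP_65ad7c_ag.LDC0

open Matrix Filter Topology Set
open scoped ComplexOrder Kronecker

noncomputable section
namespace Pool.Agent.PW.L

variable {n m : Type} [Fintype n] [DecidableEq n] [Fintype m] [DecidableEq m]
  {r : ℕ} {G : Subgroup (GL (Fin r) ℂ)} {Γ : Type}

theorem ldc_ext {A B : Matrix n n ℂ} (h : ∀ v, A *ᵥ v = B *ᵥ v) : A = B := by
  ext i j
  have h1 := congrFun (h (Pi.single j 1)) i
  simpa using h1

omit [Fintype n] [DecidableEq n] in
theorem ldc_ox_star (a : Matrix n n ℂ) : (ox 1 a)ᴴ = ox 1 aᴴ := by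
  ext x y
  rcases x with _ | i <;> rcases y with _ | j <;> simp [conjTranspose_apply]

omit [Fintype n] [DecidableEq n] in
theorem ldc_ox_sum (c : Γ →₀ ℂ) (a : Γ → Matrix n n ℂ) :
    (c.sum fun h x => x • ox 1 (a h)) = ox (c.sum fun _ x => x) (c.sum fun h x => x • a h) := by
  ext x y
  rcases x with _ | i <;> rcases y with _ | j <;> simp [Finsupp.sum, Matrix.sum_apply]

/-- the representation with one more trivial summand -/
def ldcExt [Group Γ] (π : Γ →* Matrix n n ℂ) : Γ →* Matrix (Option n) (Option n) ℂ where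
  toFun g := ox 1 (π g)
  map_one' := by rw [map_one, ox_one]
  map_mul' a b := by rw [ox_mul, one_mul, map_mul]

/-- fixed vectors -/
def ldcFix (p : Γ → Matrix n n ℂ) : Submodule ℂ (n → ℂ) where
  carrier := {v | ∀ g, p g *ᵥ v = v}
  add_mem' := fun {u v} hu hv g => by rw [mulVec_add, hu g, hv g]
  zero_mem' := fun g => mulVec_zero _
  smul_mem' := fun c v hv g => by rw [mulVec_smul, hv g]

theorem ldc_proj [Group Γ] (p : Γ →* Matrix n n ℂ) (hp : ∀ g, ∃ g', p g' = (p g)ᴴ) :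
    ∃ c : Γ →₀ ℂ, (∀ v, (∀ g, p g *ᵥ v = v) → (c.sum fun h x => x • p h) *ᵥ v = v) ∧
      ∀ g, (c.sum fun h x => x • p h) * p g = c.sum fun h x => x • p h := by
  have hs : SpanC p := fun g => Submodule.subset_span (hp g)
  obtain ⟨Q, h1, -, h3, h4⟩ := exists_proj (ldcFix p)
  have h5 : ∀ c ∈ Com p, Q * (c * Q) = c * Q := fun c hc => ldc_ext fun v => by
    rw [← mulVec_mulVec]
    refine h4 _ fun g => ?_
    rw [mulVec_mulVec, ← Matrix.mul_assoc, ← hc g, Matrix.mul_assoc, ← mulVec_mulVec,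
      ← mulVec_mulVec, h3 v g, mulVec_mulVec]
  have h6 : ∀ c ∈ Com p, c * Q = Q * c := fun c hc => by
    have h7 := congrArg conjTranspose (h5 _ (hs.com_star hc))
    rw [conjTranspose_mul, conjTranspose_mul, conjTranspose_conjTranspose, h1,
      Matrix.mul_assoc] at h7
    rw [← h7, h5 c hc]
  obtain ⟨c, hc⟩ := Finsupp.mem_span_range_iff_exists_finsupp.1 (dc_span p hs Q h6)
  refine ⟨c, fun v hv => hc ▸ h4 v hv, fun g => ?_⟩
  obtain ⟨g', hg'⟩ := hp g
  have h7 : p g' * Q = Q := ldc_ext fun v => by rw [← mulVec_mulVec, h3 v g']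
  have h8 := congrArg conjTranspose h7
  rw [conjTranspose_mul, hg', conjTranspose_conjTranspose, h1] at h8
  rw [hc, h8]

/-- finite averaging -/
theorem avg [Group Γ] (π : Γ →* Matrix n n ℂ) (hπ : ∀ g, ∃ g', π g' = (π g)ᴴ) :
    ∃ c : Γ →₀ ℂ, (c.sum fun _ x => x) = 1 ∧
      ∀ g, (c.sum fun h x => x • π h) * π g = c.sum fun h x => x • π h := by
  obtain ⟨c, h1, h2⟩ := ldc_proj (ldcExt π) fun g => by
    obtain ⟨g', hg'⟩ := hπ g
    exact ⟨g', (congrArg (ox 1) hg').trans (ldc_ox_star _).symm⟩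
  have h3 : (c.sum fun h x => x • ldcExt π h) =
      ox (c.sum fun _ x => x) (c.sum fun h x => x • π h) := ldc_ox_sum c π
  rw [h3] at h1 h2
  refine ⟨c, ?_, fun g => ?_⟩
  · have h4 := h1 (Pi.single none 1) fun g => by
      funext x
      show (ox 1 (π g) *ᵥ Pi.single none 1) x = _
      rcases x with _ | i <;> simp
    simpa using congrFun h4 none
  · have h4 := (ox_mul _ 1 _ (π g)).symm.trans (h2 g)
    ext i j
    exact congrFun (congrFun h4 (some i)) (some j)

end Pool.Agent.PW.L
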