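import Pool.Agent.P.MP_65ad7c_ag.LProj

open Matrix Filter Topology Set
open scoped ComplexOrder Kronecker

noncomputable section
namespace Pool.Agent.PW.L

variable {n m : Type} [Fintype n] [DecidableEq n] [Fintype m] [DecidableEq m]
  {r : ℕ} {G : Subgroup (GL (Fin r) ℂ)} {Γ : Type}

/-- a matrix as a vector -/
def ldc0_vec : Matrix n n ℂ →ₗ[ℂ] (n × n → ℂ) where
  toFun X p := X p.1 p.2
  map_add' _ _ := rfl
  map_smul' _ _ := rfl

theorem ldc0_mulVec (a X : Matrix n n ℂ) :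
    (a ⊗ₖ (1 : Matrix n n ℂ)) *ᵥ ldc0_vec X = ldc0_vec (a * X) := by
  funext p
  simp [ldc0_vec, mulVec, dotProduct, Fintype.sum_prod_type, Matrix.mul_apply, Matrix.one_apply]

theorem ldc0_left (Q : Matrix (n × n) (n × n) ℂ) (a : Matrix n n ℂ) (i j k l : n) :
    (Q * a ⊗ₖ (1 : Matrix n n ℂ)) (i, k) (j, l) =
      (Matrix.of (fun i j => Q (i, k) (j, l)) * a) i j := by
  simp [Matrix.mul_apply, Fintype.sum_prod_type, Matrix.one_apply]

theorem ldc0_right (Q : Matrix (n × n) (n × n) ℂ) (a : Matrix n n ℂ) (i j k l : n) :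
    (a ⊗ₖ (1 : Matrix n n ℂ) * Q) (i, k) (j, l) =
      (a * Matrix.of (fun i j => Q (i, k) (j, l))) i j := by
  simp [Matrix.mul_apply, Fintype.sum_prod_type, Matrix.one_apply]

/-- double commutant theorem -/
theorem dc (A : Submodule ℂ (Matrix n n ℂ)) (h1 : 1 ∈ A) (hm : ∀ a ∈ A, ∀ b ∈ A, a * b ∈ A)
    (hs : ∀ a ∈ A, aᴴ ∈ A) (T : Matrix n n ℂ)
    (hT : ∀ c : Matrix n n ℂ, (∀ a ∈ A, c * a = a * c) → c * T = T * c) : T ∈ A := by
  obtain ⟨Q, hQ, -, hW, hfix⟩ := exists_proj (A.map ldc0_vec)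
  have h2 : ∀ a ∈ A, Q * (a ⊗ₖ (1 : Matrix n n ℂ) * Q) = a ⊗ₖ (1 : Matrix n n ℂ) * Q := by
    intro a ha
    refine Matrix.toLin'.injective (LinearMap.ext fun v => ?_)
    obtain ⟨b, hb, e⟩ := hW v
    simp only [Matrix.toLin'_apply, ← Matrix.mulVec_mulVec, ← e, ldc0_mulVec]
    exact hfix _ ⟨a * b, hm a ha b hb, rfl⟩
  have h3 : ∀ a ∈ A, Q * a ⊗ₖ (1 : Matrix n n ℂ) = a ⊗ₖ (1 : Matrix n n ℂ) * Q := by
    intro a ha
    have h4 := congrArg conjTranspose (h2 _ (hs a ha))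
    simp only [conjTranspose_mul, hQ, conjTranspose_kronecker, conjTranspose_conjTranspose,
      conjTranspose_one] at h4
    rw [← h4, Matrix.mul_assoc, h2 a ha]
  have h5 : Q * T ⊗ₖ (1 : Matrix n n ℂ) = T ⊗ₖ (1 : Matrix n n ℂ) * Q := by
    ext ⟨i, k⟩ ⟨j, l⟩
    rw [ldc0_left, ldc0_right, hT]
    intro a ha
    ext i' j'
    rw [← ldc0_left, ← ldc0_right, h3 a ha]
  have h6 : Q *ᵥ ldc0_vec T = ldc0_vec T := by
    have h7 := congrArg (fun M => M *ᵥ ldc0_vec (1 : Matrix n n ℂ)) h5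
    simp only [← Matrix.mulVec_mulVec, hfix _ (Submodule.mem_map_of_mem h1), ldc0_mulVec, Matrix.mul_one] at h7
    exact h7
  obtain ⟨b, hb, e⟩ := hW (ldc0_vec T)
  rw [h6] at e
  have h8 : b = T := by
    ext i j
    exact congrFun e (i, j)
  exact h8 ▸ hb

theorem dc_span [Monoid Γ] (a : Γ →* Matrix n n ℂ) (h : SpanC a) (T : Matrix n n ℂ)
    (hT : ∀ c ∈ Com a, c * T = T * c) : T ∈ Submodule.span ℂ (range a) := by
  refine dc (Submodule.span ℂ (range a)) (Submodule.subset_span ⟨1, map_one a⟩)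
    (fun x hx y hy => ?_) (fun x hx => ?_) T
    fun c hc => hT c fun γ => hc _ (Submodule.subset_span ⟨γ, rfl⟩)
  · refine Submodule.span_induction₂ (p := fun x y _ _ => x * y ∈ Submodule.span ℂ (range a))
      ?_ ?_ ?_ ?_ ?_ ?_ ?_ hx hy
    · rintro _ _ ⟨g, rfl⟩ ⟨g', rfl⟩
      exact Submodule.subset_span ⟨g * g', map_mul a g g'⟩
    · intro y _; simp
    · intro y _; simp
    · intro x y z _ _ _ h1 h2
      rw [add_mul]; exact add_mem h1 h2
    · intro x y z _ _ _ h1 h2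
      rw [mul_add]; exact add_mem h1 h2
    · intro t x y _ _ h1
      rw [smul_mul_assoc]; exact Submodule.smul_mem _ _ h1
    · intro t x y _ _ h1
      rw [mul_smul_comm]; exact Submodule.smul_mem _ _ h1
  · induction hx using Submodule.span_induction with
    | mem x hx => obtain ⟨g, rfl⟩ := hx; exact h g
    | zero => simp
    | add x y _ _ h1 h2 => rw [conjTranspose_add]; exact add_mem h1 h2
    | smul t x _ h1 => rw [conjTranspose_smul]; exact Submodule.smul_mem _ _ h1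

end Pool.Agent.PW.L
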