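import Pool.Agent.P.MP_65ad7c_ag.LSys

/-! Definitions for the algebraic part of the flow. -/

open Matrix Filter Topology Set
open scoped ComplexOrder

noncomputable section
namespace Pool.Agent.PW.L

/-- complex `r × r` matrices -/
abbrev Mx (r : ℕ) := Matrix (Fin r) (Fin r) ℂ

section calculus
variable {n : Type} [Fintype n] [DecidableEq n]

/-- unitary matrices -/
def Uni (U : Matrix n n ℂ) : Prop := Uᴴ * U = 1

/-- `U diag(d) Uᴴ` -/
def Dg (U : Matrix n n ℂ) (d : n → ℝ) : Matrix n n ℂ := U * diagonal (fun i => (d i : ℂ)) * Uᴴ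

open Classical in
/-- functional calculus of Hermitian matrices -/
def fc (f : ℝ → ℝ) (P : Matrix n n ℂ) : Matrix n n ℂ :=
  if h : P.IsHermitian then Dg (h.eigenvectorUnitary : Matrix n n ℂ) (f ∘ h.eigenvalues) else 0

/-- logarithm -/
def lg (P : Matrix n n ℂ) : Matrix n n ℂ := fc Real.log P

/-- `exp (t X)` -/
def ex (t : ℝ) (X : Matrix n n ℂ) : Matrix n n ℂ := fc (fun x => Real.exp (t * x)) X

/-- `tr (log P) ^ 2` -/
def l2 (P : Matrix n n ℂ) : ℝ := (lg P * lg P).trace.re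

/-- squared distance of `aᴴ a` to the identity -/
def ph (a : Matrix n n ℂ) : ℝ := l2 (aᴴ * a)

/-- squared Frobenius norm -/
def fro (X : Matrix n n ℂ) : ℝ := ∑ i, ∑ j, ‖X i j‖ ^ 2

/-- derivative at `0` of a curve of matrices -/
def MD (c : ℝ → Matrix n n ℂ) (D : Matrix n n ℂ) : Prop :=
  ∀ i j, HasDerivAt (fun t => c t i j) (D i j) 0

/-- the span of the family is closed under conjugate transposition -/
def SpanC {Γ : Type} (a : Γ → Matrix n n ℂ) : Prop := ∀ γ, (a γ)ᴴ ∈ Submodule.span ℂ (range a)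

/-- semisimple family -/
def SSm {Γ : Type} (a : Γ → Matrix n n ℂ) : Prop :=
  ∀ W : Submodule ℂ (n → ℂ), (∀ γ, ∀ v ∈ W, a γ *ᵥ v ∈ W) →
    ∃ W' : Submodule ℂ (n → ℂ), (∀ γ, ∀ v ∈ W', a γ *ᵥ v ∈ W') ∧ IsCompl W W'

/-- commutant of a family -/
def Com {Γ : Type} (a : Γ → Matrix n n ℂ) : Set (Matrix n n ℂ) := {c | ∀ γ, c * a γ = a γ * c}

/-- moment map -/
def mu {ι : Type} [Fintype ι] (v : ι → Matrix n n ℂ) : Matrix n n ℂ :=
  ∑ i, ((v i)ᴴ * v i - v i * (v i)ᴴ)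

/-- entrywise convergence of representations -/
def RT {ι Γ : Type} [Monoid Γ] (U : Filter ι) (ρ : ι → Γ →* Matrix n n ℂ)
    (ρ₀ : Γ →* Matrix n n ℂ) : Prop :=
  ∀ γ i j, Tendsto (fun k => ρ k γ i j) U (𝓝 (ρ₀ γ i j))

/-- value of a polynomial at a matrix -/
def pev (m : Matrix n n ℂ) (p : MvPolynomial (n × n) ℂ) : ℂ :=
  MvPolynomial.eval (fun x => m x.1 x.2) p

end calculus

section tensor
variable {n : Type} [Fintype n] [DecidableEq n]

/-- `m ⊕ c` -/
def ox (c : ℂ) (m : Matrix n n ℂ) : Matrix (Option n) (Option n) ℂ :=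
  Matrix.of fun x y => match x, y with
    | some i, some j => m i j
    | none, none => c
    | some _, none => 0
    | none, some _ => 0

omit [Fintype n] [DecidableEq n] in
@[simp] theorem ox_ss (c : ℂ) (m : Matrix n n ℂ) (i j : n) : ox c m (some i) (some j) = m i j :=
  rfl
omit [Fintype n] [DecidableEq n] in
@[simp] theorem ox_nn (c : ℂ) (m : Matrix n n ℂ) : ox c m none none = c := rfl
omit [Fintype n] [DecidableEq n] in
@[simp] theorem ox_sn (c : ℂ) (m : Matrix n n ℂ) (i : n) : ox c m (some i) none = 0 := rfl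
omit [Fintype n] [DecidableEq n] in
@[simp] theorem ox_ns (c : ℂ) (m : Matrix n n ℂ) (i : n) : ox c m none (some i) = 0 := rfl

omit [DecidableEq n] in
theorem ox_mul (c c' : ℂ) (m m' : Matrix n n ℂ) :
    ox c m * ox c' m' = ox (c * c') (m * m') := by
  ext x y
  rcases x with _ | i <;> rcases y with _ | j <;> simp [Matrix.mul_apply, Fintype.sum_option]

omit [Fintype n] in
theorem ox_one : ox 1 (1 : Matrix n n ℂ) = 1 := by
  ext x y
  rcases x with _ | i <;> rcases y with _ | j <;> simp [Matrix.one_apply]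

/-- tensor product of `J` matrices -/
def tp {J : ℕ} (m : Fin J → Matrix n n ℂ) : Matrix (Fin J → n) (Fin J → n) ℂ :=
  Matrix.of fun x y => ∏ i, m i (x i) (y i)

omit [Fintype n] [DecidableEq n] in
theorem tp_apply {J : ℕ} (m : Fin J → Matrix n n ℂ) (x y : Fin J → n) :
    tp m x y = ∏ i, m i (x i) (y i) := rfl

omit [DecidableEq n] in
theorem tp_mul {J : ℕ} (m m' : Fin J → Matrix n n ℂ) :
    tp m * tp m' = tp fun i => m i * m' i := by
  ext x y
  simp only [Matrix.mul_apply, tp_apply, ← Finset.prod_mul_distrib]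
  rw [Finset.prod_univ_sum, Fintype.piFinset_univ]

omit [Fintype n] in
theorem tp_one {J : ℕ} : tp (fun _ : Fin J => (1 : Matrix n n ℂ)) = 1 := by
  ext x y
  simp only [tp_apply, Matrix.one_apply, Finset.prod_boole, Finset.mem_univ, forall_const,
    funext_iff]

/-- the tensor power of `m ⊕ 1` -/
def RJ (J : ℕ) : Matrix n n ℂ →* Matrix (Fin J → Option n) (Fin J → Option n) ℂ where
  toFun m := tp fun _ => ox 1 m
  map_one' := by rw [ox_one, tp_one]
  map_mul' a b := by rw [tp_mul, ox_mul, one_mul]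

theorem RJ_apply (J : ℕ) (m : Matrix n n ℂ) : RJ J m = tp fun _ => ox 1 m := rfl

/-- `X ⊕ 0` in the slot `k` -/
def sl {J : ℕ} (k : Fin J) (X : Matrix n n ℂ) : Matrix (Fin J → Option n) (Fin J → Option n) ℂ :=
  tp (Function.update (fun _ => 1) k (ox 0 X))

/-- the derivative of `RJ J` at the identity -/
def dR (J : ℕ) (X : Matrix n n ℂ) : Matrix (Fin J → Option n) (Fin J → Option n) ℂ :=
  ∑ k : Fin J, sl k X

end tensor

section group
variable {r : ℕ} (G : Subgroup (GL (Fin r) ℂ))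

/-- the group as a set of matrices -/
def Gs : Set (Mx r) := {m | ∃ g ∈ G, g.1 = m}

/-- commutant of `RJ J G` -/
def Cm (J : ℕ) : Set (Matrix (Fin J → Option (Fin r)) (Fin J → Option (Fin r)) ℂ) :=
  {c | ∀ g ∈ Gs G, c * RJ J g = RJ J g * c}

/-- tensor characterisation of the group -/
def InG (g : Mx r) : Prop := ∀ J, ∀ c ∈ Cm G J, c * RJ J g = RJ J g * c

/-- tensor characterisation of the Lie algebra -/
def LieG (X : Mx r) : Prop := ∀ J, ∀ c ∈ Cm G J, c * dR J X = dR J X * c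

variable (Γ : Type) [Group Γ]

/-- regular functions on `Hom(Γ, G)` -/
def OO : Subalgebra ℂ ((Γ →* G) → ℂ) :=
  Algebra.adjoin ℂ {e : (Γ →* G) → ℂ | ∃ γ i j, e = fun ρ => (ρ γ).1.1 i j}

/-- complex points of the moduli space -/
def MB : Set (Inv Γ G → ℂ) := {y | ∃ φ : Inv Γ G →ₐ[ℂ] ℂ, ⇑φ = y}

variable {G Γ}

/-- the underlying matrix representation -/
def mat (ρ : Γ →* G) : Γ →* Mx r := (Units.coeHom (Mx r)).comp (G.subtype.comp ρ)

@[simp] theorem mat_apply (ρ : Γ →* G) (γ : Γ) : mat ρ γ = (ρ γ).1.1 := rfl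

/-- conjugation of a representation -/
def cjG (g : G) (ρ : Γ →* G) : Γ →* G := (MulAut.conj g).toMonoidHom.comp ρ

/-- the point of the moduli space defined by a representation -/
def ev (ρ : Γ →* G) : Inv Γ G → ℂ := fun f => f.1 ρ

theorem mem_Inv {f : (Γ →* G) → ℂ} :
    f ∈ Inv Γ G ↔ f ∈ OO G Γ ∧ ∀ (g : G) ρ, f (cjG g ρ) = f ρ := Iff.rfl

/-- entrywise convergence gives convergence of the values of regular functions -/
def GT {ι : Type} (U : Filter ι) (ρ : ι → Γ →* G) (ρ₀ : Γ →* G) : Prop :=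
  RT U (fun k => mat (ρ k)) (mat ρ₀)

/-- finite average -/
def av (c : G →₀ ℂ) (f : (Γ →* G) → ℂ) : (Γ →* G) → ℂ :=
  fun ρ => c.sum fun h x => x * f (cjG h ρ)

/-- a family of matrix coefficients of one finite dimensional representation of `G` -/
def Good {κ : Type} (f : κ → (Γ →* G) → ℂ) : Prop :=
  ∃ (n : Type) (_ : Fintype n) (_ : DecidableEq n) (π : G →* Matrix n n ℂ)
    (v : (Γ →* G) → n → ℂ) (l : κ → n → ℂ),
    (∀ g g' : G, g'.1.1 = g.1.1ᴴ → π g' = (π g)ᴴ) ∧ (∀ g ρ, v (cjG g ρ) = π g *ᵥ v ρ) ∧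
      ∀ k ρ, f k ρ = l k ⬝ᵥ v ρ

/-- `Rel` up to a unitary change of basis -/
def URel (K : RotSys Γ) (C t : ℝ) (ρ ρ' : Γ →* Mx r) : Prop :=
  ∃ (k : Mx r) (σ σ' : Γ →* Mx r), Uni k ∧ K.Rel C t σ σ' ∧ (∀ γ, ρ γ = kᴴ * σ γ * k) ∧
    ∀ γ, ρ' γ = kᴴ * σ' γ * k

/-- rotation of representations in `G` -/
def Rot (K : RotSys Γ) (t : ℝ) (τ τ' : Γ →* G) : Prop := ∃ C, K.Rel C t (mat τ) (mat τ')

/-- `y` has a representative conjugate to a representation of size `N` -/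
def Sml (S : Finset Γ) (N : ℝ) (y : Inv Γ G → ℂ) : Prop :=
  ∃ (ρ : Γ →* G) (σ : Γ →* Mx r) (u : Mx r), ev ρ = y ∧ SSm σ ∧ IsUnit u ∧
    (∀ γ, u * σ γ = mat ρ γ * u) ∧ ∀ s ∈ S, ∀ i j, ‖σ s i j‖ ≤ N

/-- real analytic curves of representations -/
def AnR (F : ℝ → Γ →* Mx r) : Prop := ∀ γ i j, AnalyticOnNhd ℝ (fun t => F t γ i j) univ

/-- the properties of the flow on the whole moduli space -/
structure Flow (K : RotSys Γ) (Ψ : (Inv Γ G → ℂ) → ℝ → Inv Γ G → ℂ) : Prop where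
  rot : ∀ t (τ τ' : Γ →* G), Rot K t τ τ' → Ψ (ev τ) t = ev τ'
  exi : ∀ y ∈ MB G Γ, ∃ (τ : Γ →* G) (F : ℝ → Γ →* G), ev τ = y ∧ (AnR fun t => mat (F t)) ∧
    ∀ t, Rot K t τ (F t) ∧ Rot K (-t) (F t) τ
  cont : ContinuousOn (fun p : (Inv Γ G → ℂ) × ℝ => Ψ p.1 p.2) (MB G Γ ×ˢ univ)

end group

/-- the letters of the words used to compare two representations -/
def wd {r J : ℕ} {Γ : Type} (G : Subgroup (GL (Fin r) ℂ)) (a : Γ → Mx r) :
    FreeMonoid ((Fin J × Γ) ⊕ Cm G J) →*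
      Matrix (Fin J → Option (Fin r)) (Fin J → Option (Fin r)) ℂ :=
  FreeMonoid.lift fun x => Sum.elim (fun p : Fin J × Γ => sl p.1 (a p.2)) (fun c => c.1) x

end Pool.Agent.PW.L
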