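import Pool.Agent.P.MP_65ad7c_ag.LDenA0

open Matrix Filter Topology Set
open scoped ComplexOrder Kronecker

noncomputable section
namespace Pool.Agent.PW.L

variable {n m : Type} [Fintype n] [DecidableEq n] [Fintype m] [DecidableEq m]
  {r : ℕ} {G : Subgroup (GL (Fin r) ℂ)} {Γ : Type}

variable {B A : Type} [CommRing B] [CommRing A] [Algebra ℂ B] [Algebra ℂ A] [Algebra B A]
  [IsScalarTower ℂ B A]

theorem exists_ext [Algebra.IsIntegral B A] (hi : Function.Injective (algebraMap B A))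
    (χ : B →ₐ[ℂ] ℂ) : ∃ ψ : A →ₐ[ℂ] ℂ, ∀ x, ψ (algebraMap B A x) = χ x := by
  have hmax : (RingHom.ker χ).IsMaximal :=
    RingHom.ker_isMaximal_of_surjective χ fun c => ⟨algebraMap ℂ B c, by simp⟩
  obtain ⟨M, hM, hc⟩ := Ideal.exists_ideal_over_maximal_of_isIntegral (S := A) (RingHom.ker χ)
    (by rw [(RingHom.injective_iff_ker_eq_bot _).1 hi]; exact bot_le)
  have key : ∀ x : B, Ideal.Quotient.mk M (algebraMap B A x) = algebraMap ℂ (A ⧸ M) (χ x) :=
    fun x => by
      have : x - algebraMap ℂ B (χ x) ∈ M.comap (algebraMap B A) := by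
        rw [hc, RingHom.mem_ker]; simp
      rw [Ideal.mem_comap, map_sub, ← IsScalarTower.algebraMap_apply] at this
      exact (Ideal.Quotient.eq).2 this
  have : Algebra.IsIntegral ℂ (A ⧸ M) := ⟨fun a => by
    obtain ⟨a, rfl⟩ := Ideal.Quotient.mk_surjective a
    obtain ⟨p, hp, h0⟩ := Algebra.IsIntegral.isIntegral (R := B) a
    refine ⟨p.map (χ : B →+* ℂ), hp.map _, ?_⟩
    have := congrArg (Ideal.Quotient.mk M) h0
    rw [Polynomial.hom_eval₂, map_zero] at this
    rw [Polynomial.eval₂_map, ← this]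
    congr 1
    exact RingHom.ext fun x => (key x).symm⟩
  let e := AlgEquiv.ofBijective (Algebra.ofId ℂ (A ⧸ M))
    IsAlgClosed.algebraMap_bijective_of_isIntegral
  exact ⟨e.symm.toAlgHom.comp (Ideal.Quotient.mkₐ ℂ M), fun x =>
    e.symm_apply_eq.2 (key x)⟩

theorem exists_over [IsDomain A] [IsDomain B] [IsIntegrallyClosed B] [Algebra.IsIntegral B A]
    (hi : Function.Injective (algebraMap B A)) (b : A) (χ : B →ₐ[ℂ] ℂ) (β : ℂ)
    (h : ((minpoly B b).map (χ : B →+* ℂ)).IsRoot β) :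
    ∃ ψ : A →ₐ[ℂ] ℂ, (∀ x, ψ (algebraMap B A x) = χ x) ∧ ψ b = β := by
  have : FaithfulSMul B A := (faithfulSMul_iff_algebraMap_injective B A).2 hi
  let e := minpoly.equivAdjoin (Algebra.IsIntegral.isIntegral (R := B) b)
  let l := AdjoinRoot.lift (χ : B →+* ℂ) β (by rw [Polynomial.eval₂_eq_eval_map]; exact h)
  have hl : ∀ x, l (e.symm (algebraMap B _ x)) = χ x := fun x => by
    rw [e.symm.commutes]; exact AdjoinRoot.lift_of _
  let χ' : Algebra.adjoin B {b} →ₐ[ℂ] ℂ :=
    { l.comp (e.symm : _ →+* _) with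
      commutes' := fun c => by
        rw [IsScalarTower.algebraMap_apply ℂ B]
        exact (hl (algebraMap ℂ B c)).trans (χ.commutes c) }
  have : Algebra.IsIntegral (Algebra.adjoin B {b}) A := Algebra.IsIntegral.tower_top B
  obtain ⟨ψ, hψ⟩ := exists_ext (B := Algebra.adjoin B {b}) (A := A) Subtype.val_injective χ'
  refine ⟨ψ, fun x => (hψ (algebraMap B _ x)).trans (hl x),
    (hψ ⟨b, Algebra.self_mem_adjoin_singleton B b⟩).trans ?_⟩
  have : e.symm ⟨b, Algebra.self_mem_adjoin_singleton B b⟩ = AdjoinRoot.root _ :=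
    e.symm_apply_eq.2 (Subtype.ext (by simp [e]))
  exact (congrArg l this).trans (AdjoinRoot.lift_root _)

theorem exists_norm [IsDomain A] [Algebra.IsIntegral B A] {e : A} (he : e ≠ 0) :
    ∃ N : B, N ≠ 0 ∧ e ∣ algebraMap B A N := by
  have := (algebraMap B A).domain_nontrivial
  obtain ⟨N, h1, h2⟩ := Submodule.exists_mem_ne_zero_of_ne_bot (Ideal.comap_ne_bot_of_integral_mem
    (R := B) he (Ideal.mem_span_singleton_self e) (Algebra.IsIntegral.isIntegral e))
  exact ⟨N, h2, Ideal.mem_span_singleton.1 h1⟩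

end Pool.Agent.PW.L
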