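import Pool.Agent.P.MP_65ad7c_ag.LDefs

open Matrix Filter Topology Set
open scoped ComplexOrder Kronecker

noncomputable section
namespace Pool.Agent.PW.L

variable {n m : Type} [Fintype n] [DecidableEq n] [Fintype m] [DecidableEq m]
  {r : ℕ} {G : Subgroup (GL (Fin r) ℂ)} {Γ : Type}

variable {B A : Type} [CommRing B] [CommRing A] [Algebra ℂ B] [Algebra ℂ A] [Algebra B A]
  [IsScalarTower ℂ B A]

theorem fibre_finite [Module.Finite B A] (φ : A →ₐ[ℂ] ℂ) :
    {ψ : A →ₐ[ℂ] ℂ | ∀ x : B, ψ (algebraMap B A x) = φ (algebraMap B A x)}.Finite := by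
  classical
  obtain ⟨k, y, hy⟩ := Module.Finite.exists_fin (R := B) (M := A)
  have hint : ∀ j, ∃ p : Polynomial B, p.Monic ∧ Polynomial.eval₂ (algebraMap B A) (y j) p = 0 :=
    fun j => Algebra.IsIntegral.isIntegral (R := B) (y j)
  choose p hp hp0 using hint
  let χ : B →+* ℂ := (φ : A →+* ℂ).comp (algebraMap B A)
  refine Set.Finite.of_finite_image (f := fun ψ j => ψ (y j)) ?_ ?_
  · refine (Set.Finite.pi' fun j => ((p j).map χ).roots.toFinset.finite_toSet).subset ?_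
    rintro _ ⟨ψ, hψ, rfl⟩ j
    have e : (ψ : A →+* ℂ).comp (algebraMap B A) = χ := RingHom.ext hψ
    have h := congrArg (ψ : A →+* ℂ) (hp0 j)
    rw [Polynomial.hom_eval₂, e, map_zero] at h
    refine Finset.mem_coe.2 (Multiset.mem_toFinset.2 ?_)
    rw [Polynomial.mem_roots ((hp j).map χ).ne_zero, Polynomial.IsRoot, Polynomial.eval_map]
    exact h
  · intro ψ hψ ψ' hψ' h
    ext x
    have hx : x ∈ Submodule.span B (Set.range y) := by rw [hy]; trivial
    induction hx using Submodule.span_induction with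
    | mem x hx =>
      obtain ⟨j, rfl⟩ := hx
      exact congrFun h j
    | zero => simp
    | add a b _ _ ha hb => rw [map_add, map_add, ha, hb]
    | smul c a _ ha => rw [Algebra.smul_def, map_mul, map_mul, ha, hψ c, hψ' c]

theorem exists_sep [Module.Finite B A] (φ : A →ₐ[ℂ] ℂ) : ∃ b : A, ∀ ψ : A →ₐ[ℂ] ℂ,
    (∀ x : B, ψ (algebraMap B A x) = φ (algebraMap B A x)) → ψ b = φ b → ψ = φ := by
  have hf : {ψ : A →ₐ[ℂ] ℂ | (∀ x : B, ψ (algebraMap B A x) = φ (algebraMap B A x)) ∧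
      ψ ≠ φ}.Finite := (fibre_finite (B := B) φ).subset fun ψ h => h.1
  have := hf.to_subtype
  obtain ⟨b, hb⟩ := Submodule.exists_forall_notMem_of_forall_ne_top (K := ℂ) (M := A)
    (ι := {ψ : A →ₐ[ℂ] ℂ | (∀ x : B, ψ (algebraMap B A x) = φ (algebraMap B A x)) ∧ ψ ≠ φ})
    (fun ψ => LinearMap.ker (ψ.1.toLinearMap - φ.toLinearMap)) fun ψ h => by
      refine ψ.2.2 (AlgHom.ext fun x => ?_)
      have hx : x ∈ LinearMap.ker (ψ.1.toLinearMap - φ.toLinearMap) := by rw [h]; trivial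
      exact sub_eq_zero.1 (LinearMap.mem_ker.1 hx)
  refine ⟨b, fun ψ h1 h2 => ?_⟩
  by_contra hne
  exact hb ⟨ψ, h1, hne⟩ (LinearMap.mem_ker.2 (sub_eq_zero.2 h2))

end Pool.Agent.PW.L
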