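import Pool.Agent.P.MP_65ad7c_ag.LDefs

open Matrix Filter Topology Set
open scoped ComplexOrder Kronecker

noncomputable section
namespace Pool.Agent.PW.L

variable {n m : Type} [Fintype n] [DecidableEq n] [Fintype m] [DecidableEq m]
  {r : ℕ} {G : Subgroup (GL (Fin r) ℂ)} {Γ : Type}

variable {B : Type} [CommRing B] [Algebra ℂ B]

theorem ldenb_small_root {q : Polynomial ℂ} (hq : q.Monic) (β : ℂ) {ε : ℝ} (hε : 0 < ε)
    (h : ‖q.eval β‖ < ε ^ q.natDegree) : ∃ r, q.IsRoot r ∧ ‖β - r‖ < ε := by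
  by_contra hcon
  push Not at hcon
  have hs := IsAlgClosed.splits q
  have h1 := hs.eval_eq_prod_roots_of_monic hq β
  have hc : q.roots.card = q.natDegree := hs.natDegree_eq_card_roots.symm
  have key : ∀ s : Multiset ℂ, (∀ r ∈ s, ε ≤ ‖β - r‖) →
      ε ^ s.card ≤ ‖(s.map (fun a => β - a)).prod‖ := by
    intro s
    induction s using Multiset.induction_on with
    | empty => simp
    | cons a s ih =>
      intro hs
      rw [Multiset.map_cons, Multiset.prod_cons, norm_mul, Multiset.card_cons, pow_succ']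
      exact mul_le_mul (hs a (Multiset.mem_cons_self _ _))
        (ih fun r hr => hs r (Multiset.mem_cons_of_mem hr)) (by positivity) (norm_nonneg _)
  have h2 := key q.roots (fun r hr => hcon r (Polynomial.isRoot_of_mem_roots hr))
  rw [hc, ← h1] at h2
  linarith

theorem ldenb_root_bound {q : Polynomial ℂ} (hq : q.Monic) {r : ℂ} (hr : q.IsRoot r) {M : ℝ}
    (hB : ∀ i, ‖q.coeff i‖ ≤ M) : ‖r‖ ≤ M + 1 := by
  have h := hr.norm_lt_cauchyBound hq.ne_zero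
  have hB0 : 0 ≤ M := (norm_nonneg _).trans (hB 0)
  obtain ⟨B', rfl⟩ : ∃ B' : NNReal, (B' : ℝ) = M := ⟨⟨M, hB0⟩, rfl⟩
  have h2 : q.cauchyBound ≤ B' + 1 := by
    unfold Polynomial.cauchyBound
    rw [hq.leadingCoeff, nnnorm_one, div_one]
    gcongr
    exact Finset.sup_le fun i _ => hB i
  exact_mod_cast (h.le.trans h2)

theorem ldenb_nearest {q : Polynomial ℂ} (hq : q.Monic) (hd : q.natDegree ≠ 0) (β : ℂ) :
    ∃ b, q.IsRoot b ∧ ∀ r, q.IsRoot r → ‖β - b‖ ≤ ‖β - r‖ := by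
  obtain ⟨r0, hr0⟩ := IsAlgClosed.exists_root q (fun h => hd (Polynomial.natDegree_eq_of_degree_eq_some h))
  have hm : ∀ r, r ∈ q.roots.toFinset ↔ q.IsRoot r := fun r => by
    rw [Multiset.mem_toFinset, Polynomial.mem_roots hq.ne_zero]
  obtain ⟨b, hb, hmin⟩ := q.roots.toFinset.exists_min_image (fun r => ‖β - r‖) ⟨r0, (hm r0).2 hr0⟩
  exact ⟨b, (hm b).1 hb, fun r hr => hmin r ((hm r).2 hr)⟩

theorem ldenb_eval {ι : Type} (U : Filter ι) (F : Polynomial B)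
    (χ : ι → B →ₐ[ℂ] ℂ) (χ₀ : B →ₐ[ℂ] ℂ) (h : ∀ x, Tendsto (fun k => χ k x) U (𝓝 (χ₀ x))) (β : ℂ) :
    Tendsto (fun k => (F.map (χ k : B →+* ℂ)).eval β) U (𝓝 ((F.map (χ₀ : B →+* ℂ)).eval β)) := by
  simp only [Polynomial.eval_map, Polynomial.eval₂_eq_sum_range]
  exact tendsto_finsetSum _ fun i _ => (h _).mul_const _

theorem roots_near {ι : Type} (U : Filter ι) {F : Polynomial B} (hF : F.Monic)
    (χ : ι → B →ₐ[ℂ] ℂ) (χ₀ : B →ₐ[ℂ] ℂ) (h : ∀ x, Tendsto (fun k => χ k x) U (𝓝 (χ₀ x))) {β : ℂ}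
    (hβ : (F.map (χ₀ : B →+* ℂ)).IsRoot β) :
    ∃ b : ι → ℂ, (∀ k, (F.map (χ k : B →+* ℂ)).IsRoot (b k)) ∧ Tendsto b U (𝓝 β) := by
  have hd : F.natDegree ≠ 0 := fun h0 => by
    have h1 : F = 1 := hF.natDegree_eq_zero.1 h0
    rw [h1, Polynomial.map_one] at hβ
    simp at hβ
  have hn : ∀ k, (F.map (χ k : B →+* ℂ)).natDegree = F.natDegree := fun k => hF.natDegree_map _
  choose b hb hmin using fun k => ldenb_nearest (hF.map (χ k : B →+* ℂ)) (by rw [hn]; exact hd) β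
  refine ⟨b, hb, Metric.tendsto_nhds.2 fun ε hε => ?_⟩
  have ht := (ldenb_eval U F χ χ₀ h β).norm
  rw [hβ.eq_zero, norm_zero] at ht
  filter_upwards [ht.eventually (gt_mem_nhds (pow_pos hε F.natDegree))] with k hk
  obtain ⟨r, hr, hr'⟩ := ldenb_small_root (hF.map (χ k : B →+* ℂ)) β hε (by rw [hn]; exact hk)
  rw [dist_comm, dist_eq_norm]
  exact (hmin k r hr).trans_lt hr'

theorem roots_bdd {ι : Type} (U : Filter ι) {F : Polynomial B} (hF : F.Monic)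
    (χ : ι → B →ₐ[ℂ] ℂ) (χ₀ : B →ₐ[ℂ] ℂ) (h : ∀ x, Tendsto (fun k => χ k x) U (𝓝 (χ₀ x))) :
    ∃ M : ℝ, ∀ᶠ k in U, ∀ β : ℂ, (F.map (χ k : B →+* ℂ)).IsRoot β → ‖β‖ ≤ M := by
  refine ⟨∑ i ∈ F.support, (‖χ₀ (F.coeff i)‖ + 1) + 1, ?_⟩
  have he : ∀ᶠ k in U, ∀ i ∈ F.support, ‖χ k (F.coeff i)‖ < ‖χ₀ (F.coeff i)‖ + 1 :=
    (eventually_all_finset _).2 fun i _ => (h _).norm.eventually (gt_mem_nhds (lt_add_one _))
  filter_upwards [he] with k hk β hβ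
  refine ldenb_root_bound (hF.map _) hβ fun i => ?_
  rw [Polynomial.coeff_map]
  by_cases hi : i ∈ F.support
  · exact (hk i hi).le.trans (Finset.single_le_sum
      (f := fun i => ‖χ₀ (F.coeff i)‖ + 1) (fun j _ => by positivity) hi)
  · rw [Polynomial.notMem_support_iff.1 hi, map_zero, norm_zero]
    exact Finset.sum_nonneg fun j _ => by positivity

theorem exists_seq_ne {d : ℕ} {N : MvPolynomial (Fin d) ℂ} (hN : N ≠ 0)
    (χ₀ : MvPolynomial (Fin d) ℂ →ₐ[ℂ] ℂ) : ∃ χ : ℕ → MvPolynomial (Fin d) ℂ →ₐ[ℂ] ℂ,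
      (∀ k, χ k N ≠ 0) ∧ ∀ x, Tendsto (fun k => χ k x) atTop (𝓝 (χ₀ x)) := by
  obtain ⟨w, hw⟩ : ∃ w, MvPolynomial.eval w N ≠ 0 := by
    by_contra hc
    push Not at hc
    exact hN (MvPolynomial.funext fun w => by rw [hc w, map_zero])
  let Φ : MvPolynomial (Fin d) ℂ →ₐ[ℂ] Polynomial ℂ := MvPolynomial.aeval fun i =>
    Polynomial.C (χ₀ (MvPolynomial.X i)) + Polynomial.C (w i - χ₀ (MvPolynomial.X i)) * Polynomial.X
  have h0 : (Polynomial.aeval (0 : ℂ)).comp Φ = χ₀ := MvPolynomial.algHom_ext fun i => by simp [Φ]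
  have h1 : (Polynomial.aeval (1 : ℂ)).comp Φ = MvPolynomial.aeval w :=
    MvPolynomial.algHom_ext fun i => by simp [Φ]
  have hp : Φ N ≠ 0 := fun hp => by
    have := DFunLike.congr_fun h1 N
    rw [AlgHom.comp_apply, hp, map_zero] at this
    exact hw this.symm
  have hcf : ∀ᶠ t in cofinite, ¬ (Φ N).IsRoot t :=
    (Polynomial.finite_setOfPred_isRoot hp).compl_mem_cofinite
  have hf : ∃ᶠ t in 𝓝 (0 : ℂ), ¬ (Φ N).IsRoot t :=
    (hcf.filter_mono (nhdsNE_le_cofinite 0)).frequently.filter_mono nhdsWithin_le_nhds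
  obtain ⟨t, ht, hr⟩ := exists_seq_forall_of_frequently hf
  refine ⟨fun k => (Polynomial.aeval (t k)).comp Φ, fun k => ?_, fun x => ?_⟩
  · rw [AlgHom.comp_apply, Polynomial.coe_aeval_eq_eval]
    exact hr k
  · rw [← h0]
    exact (((Φ x).continuous_aeval (A := ℂ)).tendsto 0).comp ht

theorem algHom_limit {ι : Type} (U : Ultrafilter ι) (ψ : ι → B →ₐ[ℂ] ℂ)
    (h : ∀ x, ∃ M : ℝ, ∀ᶠ k in U, ‖ψ k x‖ ≤ M) :
    ∃ ψ₀ : B →ₐ[ℂ] ℂ, ∀ x, Tendsto (fun k => ψ k x) U (𝓝 (ψ₀ x)) := by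
  have hl : ∀ x, ∃ a : ℂ, Tendsto (fun k => ψ k x) U (𝓝 a) := fun x => by
    obtain ⟨M, hM⟩ := h x
    obtain ⟨a, -, ha⟩ := (isCompact_closedBall (0 : ℂ) M).ultrafilter_le_nhds'
      (U.map fun k => ψ k x) (by
        rw [Ultrafilter.mem_map]
        exact hM.mono fun k hk => mem_closedBall_zero_iff.2 hk)
    exact ⟨a, ha⟩
  choose f hf using hl
  have hc : ∀ c : ℂ, f (algebraMap ℂ B c) = c := fun c =>
    tendsto_nhds_unique (hf _) (by simp)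
  refine ⟨⟨⟨⟨⟨f, ?_⟩, fun x y => ?_⟩, ?_, fun x y => ?_⟩, hc⟩, hf⟩
  · simpa using hc 1
  · exact tendsto_nhds_unique (hf _) (by simpa using (hf x).mul (hf y))
  · simpa using hc 0
  · exact tendsto_nhds_unique (hf _) (by simpa using (hf x).add (hf y))

end Pool.Agent.PW.L
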