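import Pool.Agent.P.MP_65ad7c_ag.LDenA
import Pool.Agent.P.MP_65ad7c_ag.LDenB

open Matrix Filter Topology Set
open scoped ComplexOrder Kronecker

noncomputable section
namespace Pool.Agent.PW.L

variable {n m : Type} [Fintype n] [DecidableEq n] [Fintype m] [DecidableEq m]
  {r : ℕ} {G : Subgroup (GL (Fin r) ℂ)} {Γ : Type}

theorem dens_prime (A : Type) [CommRing A] [IsDomain A] [Algebra ℂ A] [Algebra.FiniteType ℂ A]
    {e : A} (he : e ≠ 0) (φ : A →ₐ[ℂ] ℂ) : ∃ (U : Ultrafilter ℕ) (ψ : ℕ → A →ₐ[ℂ] ℂ),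
      (∀ k, ψ k e ≠ 0) ∧ ∀ x, Tendsto (fun k => ψ k x) U (𝓝 (φ x)) := by
  obtain ⟨d, g, hg, hf⟩ := exists_finite_inj_algHom_of_fg ℂ A
  let _ : Algebra (MvPolynomial (Fin d) ℂ) A := g.toRingHom.toAlgebra
  have : IsScalarTower ℂ (MvPolynomial (Fin d) ℂ) A :=
    IsScalarTower.of_algebraMap_eq fun c => (g.commutes c).symm
  have : Module.Finite (MvPolynomial (Fin d) ℂ) A := hf
  have hi : Function.Injective (algebraMap (MvPolynomial (Fin d) ℂ) A) := hg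
  obtain ⟨N, hN, c, hc⟩ := exists_norm (B := MvPolynomial (Fin d) ℂ) he
  obtain ⟨b, hb⟩ := exists_sep (B := MvPolynomial (Fin d) ℂ) φ
  set χ₀ : MvPolynomial (Fin d) ℂ →ₐ[ℂ] ℂ :=
    φ.comp (IsScalarTower.toAlgHom ℂ (MvPolynomial (Fin d) ℂ) A) with hχ₀
  have root : ∀ (ψ : A →ₐ[ℂ] ℂ) (χ : MvPolynomial (Fin d) ℂ →ₐ[ℂ] ℂ),
      (∀ x, ψ (algebraMap _ A x) = χ x) → ∀ x : A,
      ((minpoly (MvPolynomial (Fin d) ℂ) x).map (χ : MvPolynomial (Fin d) ℂ →+* ℂ)).IsRoot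
        (ψ x) := by
    intro ψ χ h x
    have e1 : (χ : MvPolynomial (Fin d) ℂ →+* ℂ) =
        (ψ : A →+* ℂ).comp (algebraMap (MvPolynomial (Fin d) ℂ) A) := by
      refine RingHom.ext fun y => ?_
      exact (h y).symm
    have e2 := minpoly.aeval (MvPolynomial (Fin d) ℂ) x
    rw [Polynomial.IsRoot.def, Polynomial.eval_map, e1]
    have e3 := Polynomial.hom_eval₂ (minpoly (MvPolynomial (Fin d) ℂ) x)
      (algebraMap (MvPolynomial (Fin d) ℂ) A) (ψ : A →+* ℂ) x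
    rw [Polynomial.aeval_def] at e2
    rw [e2, map_zero] at e3
    exact e3.symm
  have mon : ∀ x : A, (minpoly (MvPolynomial (Fin d) ℂ) x).Monic := fun x =>
    minpoly.monic (Algebra.IsIntegral.isIntegral x)
  obtain ⟨χ, hχ, hlim⟩ := exists_seq_ne hN χ₀
  obtain ⟨β, hβ, hβl⟩ := roots_near atTop (mon b) χ χ₀ hlim (root φ χ₀ (fun _ => rfl) b)
  choose ψ hψ hψb using fun k => exists_over hi b (χ k) (β k) (hβ k)
  set U : Ultrafilter ℕ := Ultrafilter.of atTop with hU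
  have hle : (U : Filter ℕ) ≤ atTop := Ultrafilter.of_le _
  obtain ⟨ψ₀, h₀⟩ := algHom_limit U ψ fun x => by
    obtain ⟨M, hM⟩ := roots_bdd atTop (mon x) χ χ₀ hlim
    exact ⟨M, (hM.filter_mono hle).mono fun k hk => hk _ (root (ψ k) (χ k) (hψ k) x)⟩
  have heq : ψ₀ = φ := by
    refine hb ψ₀ (fun x => ?_) ?_
    · refine tendsto_nhds_unique (h₀ _) ?_
      simp only [hψ]
      exact (hlim x).mono_left hle
    · refine tendsto_nhds_unique (h₀ _) ?_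
      simp only [hψb]
      exact hβl.mono_left hle
  refine ⟨U, ψ, fun k h => hχ k ?_, heq ▸ h₀⟩
  rw [← hψ k, hc, map_mul, h, zero_mul]

end Pool.Agent.PW.L
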