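import Pool.Agent.P.MP_65ad7c_ag.LRey

open Matrix Filter Topology Set
open scoped ComplexOrder Kronecker

noncomputable section
namespace Pool.Agent.PW.L

variable {n m : Type} [Fintype n] [DecidableEq n] [Fintype m] [DecidableEq m]
  {r : ℕ} {G : Subgroup (GL (Fin r) ℂ)} {Γ : Type}

variable [Group Γ]

theorem lpt_mul (γ δ : Γ) (i j : Fin r) : (fun ρ : Γ →* G => (ρ (γ * δ)).1.1 i j) =
    ∑ k, (fun ρ : Γ →* G => (ρ γ).1.1 i k) * fun ρ : Γ →* G => (ρ δ).1.1 k j := by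
  funext ρ
  rw [map_mul, Finset.sum_apply]
  exact Matrix.mul_apply

theorem lpt_one (i j : Fin r) : (fun ρ : Γ →* G => (ρ 1).1.1 i j) =
    algebraMap ℂ ((Γ →* G) → ℂ) ((1 : Mx r) i j) := by
  funext ρ
  rw [map_one]
  rfl

theorem OO_finiteType (S : Finset Γ) (hS : Submonoid.closure (S : Set Γ) = ⊤) :
    Algebra.FiniteType ℂ (OO G Γ) := by
  classical
  rw [← Subalgebra.fg_iff_finiteType]
  let F : Γ × Fin r × Fin r → (Γ →* G) → ℂ := fun x ρ => (ρ x.1).1.1 x.2.1 x.2.2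
  refine ⟨(S ×ˢ Finset.univ).image F, le_antisymm (Algebra.adjoin_mono ?_) (Algebra.adjoin_le ?_)⟩
  · intro f hf
    obtain ⟨x, -, rfl⟩ := Finset.mem_image.1 (Finset.mem_coe.1 hf)
    exact ⟨x.1, x.2.1, x.2.2, rfl⟩
  · rintro f ⟨γ, i, j, rfl⟩
    have hγ : γ ∈ Submonoid.closure (S : Set Γ) := hS ▸ Submonoid.mem_top γ
    induction hγ using Submonoid.closure_induction generalizing i j with
    | mem s hs =>
      exact Algebra.subset_adjoin (Finset.mem_coe.2 (Finset.mem_image.2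
        ⟨(s, i, j), Finset.mem_product.2 ⟨hs, Finset.mem_univ _⟩, rfl⟩))
    | one =>
      rw [lpt_one]
      exact Subalgebra.algebraMap_mem _ _
    | mul γ δ _ _ h1 h2 =>
      rw [lpt_mul]
      exact Subalgebra.sum_mem _ fun k _ => Subalgebra.mul_mem _ (h1 i k) (h2 k j)

/-- the entries as regular functions -/
def lptEnt (γ : Γ) (i j : Fin r) : OO G Γ :=
  ⟨fun ρ => (ρ γ).1.1 i j, Algebra.subset_adjoin ⟨γ, i, j, rfl⟩⟩

/-- evaluation at a representation -/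
def lptEv (ρ : Γ →* G) : OO G Γ →ₐ[ℂ] ℂ := (Pi.evalAlgHom ℂ (fun _ => ℂ) ρ).comp (OO G Γ).val

/-- the matrix representation defined by a point -/
def lptRep (ψ : OO G Γ →ₐ[ℂ] ℂ) : Γ →* Mx r where
  toFun γ := Matrix.of fun i j => ψ (lptEnt γ i j)
  map_one' := by
    ext i j
    have h : (lptEnt 1 i j : OO G Γ) = algebraMap ℂ _ ((1 : Mx r) i j) :=
      Subtype.ext (lpt_one i j)
    rw [Matrix.of_apply, h, AlgHom.commutes]
    rfl
  map_mul' γ δ := by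
    ext i j
    have h : (lptEnt (γ * δ) i j : OO G Γ) = ∑ k, lptEnt γ i k * lptEnt δ k j :=
      Subtype.ext (by
        rw [AddSubmonoidClass.coe_finsetSum]
        exact lpt_mul γ δ i j)
    rw [Matrix.of_apply, h, map_sum, Matrix.mul_apply]
    exact Finset.sum_congr rfl fun k _ => map_mul ψ _ _

theorem lpt_aeval (ψ : OO G Γ →ₐ[ℂ] ℂ) (x : Fin r × Fin r → OO G Γ)
    (p : MvPolynomial (Fin r × Fin r) ℂ) :
    MvPolynomial.eval (fun ij => ψ (x ij)) p = ψ (MvPolynomial.aeval x p) := by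
  rw [← AlgHom.comp_apply, MvPolynomial.comp_aeval, MvPolynomial.aeval_eq_eval]

theorem lpt_mem (hG : IsRed G) (ψ : OO G Γ →ₐ[ℂ] ℂ) (γ : Γ) : lptRep ψ γ ∈ Gs G := by
  obtain ⟨S, hS⟩ := hG.1
  refine ⟨(lptRep ψ).toHomUnits γ, (hS _).2 fun p hp => ?_, rfl⟩
  have h0 : MvPolynomial.aeval (fun ij : Fin r × Fin r => (lptEnt γ ij.1 ij.2 : OO G Γ)) p = 0 := by
    refine Subtype.ext (funext fun ρ => ?_)
    exact (lpt_aeval (lptEv ρ) _ p).symm.trans ((hS _).1 (ρ γ).2 p hp)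
  exact (lpt_aeval ψ (fun ij => lptEnt γ ij.1 ij.2) p).trans (by rw [h0, map_zero])

theorem algHom_OO (hG : IsRed G) (ψ : OO G Γ →ₐ[ℂ] ℂ) : ∃ ρ : Γ →* G, ∀ f, ψ f = f.1 ρ := by
  obtain ⟨ρ, hρ⟩ := exists_lift (lptRep ψ) (lpt_mem hG ψ)
  have h : ψ = lptEv ρ := by
    refine AlgHom.ext_of_eq_adjoin rfl ?_
    rintro _ ⟨γ, i, j, rfl⟩
    exact (congrFun₂ (DFunLike.congr_fun hρ γ) i j).symm
  exact ⟨ρ, fun f => by rw [h]; rfl⟩

theorem exists_algHom_of_ne_top {A : Type} [CommRing A] [Algebra ℂ A] [Algebra.FiniteType ℂ A]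
    {I : Ideal A} (hI : I ≠ ⊤) : ∃ ψ : A →ₐ[ℂ] ℂ, ∀ a ∈ I, ψ a = 0 := by
  obtain ⟨M, hM, hIM⟩ := Ideal.exists_le_maximal I hI
  let _ := Ideal.Quotient.field M
  have : Module.Finite ℂ (A ⧸ M) := finite_of_finite_type_of_isJacobsonRing ℂ (A ⧸ M)
  refine ⟨(IsAlgClosed.lift : (A ⧸ M) →ₐ[ℂ] ℂ).comp (Ideal.Quotient.mkₐ ℂ M), fun a ha => ?_⟩
  rw [AlgHom.comp_apply, Ideal.Quotient.mkₐ_eq_mk, Ideal.Quotient.eq_zero_iff_mem.2 (hIM ha),
    map_zero]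

/-- invariant functions are regular -/
def lptInc : Inv Γ G →ₐ[ℂ] OO G Γ := Subalgebra.inclusion fun _ hf => (mem_Inv.1 hf).1

theorem exists_point (hG : IsRed G) (S : Finset Γ) (hS : Submonoid.closure (S : Set Γ) = ⊤)
    (y : Inv Γ G →ₐ[ℂ] ℂ) (e : Inv Γ G) (h : ∀ o : Inv Γ G, o * e = 0 → y o = 0) :
    ∃ ρ : Γ →* G, ev ρ = y ∧ ∀ o ∈ OO G Γ, o * e.1 = 0 → o ρ = 0 := by
  have := OO_finiteType (G := G) S hS
  let I₁ : Ideal (OO G Γ) := LinearMap.ker (LinearMap.toSpanSingleton (OO G Γ) (OO G Γ) (lptInc e))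
  let I₂ : Ideal (OO G Γ) := Ideal.span (lptInc '' {a | y a = 0})
  have hI : I₁ ⊔ I₂ ≠ ⊤ := by
    intro hI
    obtain ⟨j, hj, b, hb, hjb⟩ := Submodule.mem_sup.1 ((Ideal.eq_top_iff_one _).1 hI)
    obtain ⟨N, o, g, rfl⟩ := Submodule.mem_span_set'.1 hb
    choose a ha hag using fun k => (g k).2
    refine one_ne_sum hG y e h a ha (fun k => (o k).1) (fun k => (o k).2) j.1
      (congrArg Subtype.val (LinearMap.mem_ker.1 hj)) ?_
    have h1 := congrArg Subtype.val hjb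
    rw [Subalgebra.coe_add, AddSubmonoidClass.coe_finsetSum] at h1
    refine Eq.trans ?_ h1
    refine congrArg (j.1 + ·) (Finset.sum_congr rfl fun k _ => ?_)
    rw [← hag k, mul_comm]
    rfl
  obtain ⟨ψ, hψ⟩ := exists_algHom_of_ne_top hI
  obtain ⟨ρ, hρ⟩ := algHom_OO hG ψ
  refine ⟨ρ, funext fun f => ?_, fun o ho hoe => ?_⟩
  · have h1 : y (f - algebraMap ℂ _ (y f)) = 0 := by
      rw [map_sub, AlgHom.commutes]
      exact sub_self _
    have h2 := hψ _ (Ideal.mem_sup_right (Ideal.subset_span ⟨_, h1, rfl⟩))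
    rw [map_sub, map_sub, AlgHom.commutes, AlgHom.commutes, hρ] at h2
    exact sub_eq_zero.1 h2
  · exact (hρ ⟨o, ho⟩).symm.trans
      (hψ _ (Ideal.mem_sup_left (LinearMap.mem_ker.2 (Subtype.ext hoe))))

theorem ev_surj (hG : IsRed G) (S : Finset Γ) (hS : Submonoid.closure (S : Set Γ) = ⊤)
    {y : Inv Γ G → ℂ} (hy : y ∈ MB G Γ) : ∃ ρ : Γ →* G, ev ρ = y := by
  obtain ⟨φ, rfl⟩ := hy
  obtain ⟨ρ, hρ, -⟩ := exists_point hG S hS φ 1 fun o ho => by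
    rw [mul_one] at ho
    rw [ho, map_zero]
  exact ⟨ρ, hρ⟩

end Pool.Agent.PW.L
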