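import Pool.Agent.P.MP_65ad7c_ag.LDenC
import Pool.Agent.P.MP_65ad7c_ag.LPt

open Matrix Filter Topology Set
open scoped ComplexOrder Kronecker

noncomputable section
namespace Pool.Agent.PW.L

variable {n m : Type} [Fintype n] [DecidableEq n] [Fintype m] [DecidableEq m]
  {r : ℕ} {G : Subgroup (GL (Fin r) ℂ)} {Γ : Type}

variable [Group Γ]

theorem comp_dens (hG : IsRed G) (S : Finset Γ) (hS : Submonoid.closure (S : Set Γ) = ⊤)
    {P : Ideal (Inv Γ G)} (hP : P.IsPrime) {e : Inv Γ G} (he : e ∉ P) {y : Inv Γ G → ℂ}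
    (hy : y ∈ Comp P) : ∃ (U : Ultrafilter ℕ) (ρ : ℕ → Γ →* G),
      (∀ k, e.1 (ρ k) ≠ 0) ∧ Tendsto (fun k => ev (ρ k)) U (𝓝 y) := by
  obtain ⟨⟨φ, rfl⟩, hy⟩ := hy
  obtain ⟨ρ, h1, h2⟩ := exists_point hG S hS φ e fun o ho =>
    hy o ((hP.mem_or_mem (ho ▸ P.zero_mem)).resolve_right he)
  have := OO_finiteType (G := G) S hS
  have : IsReduced (OO G Γ) := isReduced_of_injective (OO G Γ).val Subtype.val_injective
  obtain ⟨U, ψ, h3, h4⟩ := dens_red (OO G Γ) ⟨e.1, (mem_Inv.1 e.2).1⟩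
    ((Pi.evalAlgHom ℂ (fun _ : Γ →* G => ℂ) ρ).comp (OO G Γ).val)
    fun o ho => h2 o.1 o.2 (congrArg Subtype.val ho)
  choose σ hσ using fun k => algHom_OO hG (ψ k)
  refine ⟨U, σ, fun k => by simpa only [hσ] using h3 k, tendsto_pi_nhds.2 fun f => ?_⟩
  have h5 := h4 ⟨f.1, (mem_Inv.1 f.2).1⟩
  simp only [hσ] at h5
  rw [← h1]
  exact h5

theorem ldens_zero {K : RotSys Γ} {Ψ : (Inv Γ G → ℂ) → ℝ → Inv Γ G → ℂ} (h : Flow K Ψ)
    {f e : Inv Γ G} (hfe : f * e = 0) {ρ : Γ →* G} (he : e.1 ρ ≠ 0) (t : ℝ) :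
    Ψ (ev ρ) t f = 0 := by
  obtain ⟨τ, F, h1, h2, h3⟩ := h.exi _ (ev_mem ρ)
  have h0 : F 0 = τ := by
    obtain ⟨C, hC⟩ := (h3 0).1
    exact mat_injective (MonoidHom.ext (K.zero hC))
  have a1 := analytic_OO h2 (mem_Inv.1 f.2).1
  have a2 := analytic_OO h2 (mem_Inv.1 e.2).1
  have h4 : e.1 (F 0) ≠ 0 := by
    rw [h0]
    have : e.1 τ = e.1 ρ := congrFun h1 e
    rwa [this]
  have h5 : (fun t => f.1 (F t)) =ᶠ[𝓝 0] 0 := by
    filter_upwards [(a2 0 (mem_univ _)).continuousAt.eventually_ne h4] with s hs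
    have : f.1 (F s) * e.1 (F s) = 0 := congrFun (congrArg Subtype.val hfe) (F s)
    exact (mul_eq_zero.1 this).resolve_right hs
  rw [← h1, h.rot t τ (F t) (h3 t).1]
  exact a1.eqOn_zero_of_preconnected_of_eventuallyEq_zero isPreconnected_univ (mem_univ 0) h5
    (mem_univ t)

/-- the flow preserves the components -/
theorem Flow.mem_comp (hG : IsRed G) {K : RotSys Γ} {Ψ : (Inv Γ G → ℂ) → ℝ → Inv Γ G → ℂ}
    (h : Flow K Ψ) {P : Ideal (Inv Γ G)} (hP : P ∈ minimalPrimes (Inv Γ G)) {y : Inv Γ G → ℂ}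
    (hy : y ∈ Comp P) (t : ℝ) : Ψ y t ∈ Comp P := by
  refine ⟨?_, fun f hf => ?_⟩
  · obtain ⟨τ, F, h1, -, h3⟩ := h.exi y hy.1
    rw [← h1, h.rot t τ (F t) (h3 t).1]
    exact ev_mem _
  · obtain ⟨e, he, hfe⟩ := exists_ann hP hf
    obtain ⟨U, ρ, h1, h2⟩ := comp_dens hG K.S K.gen hP.1.1 he hy
    have h3 : Tendsto (fun k => (ev (ρ k), t)) U (𝓝[MB G Γ ×ˢ univ] (y, t)) :=
      tendsto_nhdsWithin_iff.2 ⟨h2.prodMk_nhds tendsto_const_nhds,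
        Eventually.of_forall fun k => ⟨ev_mem _, mem_univ _⟩⟩
    have h4 := tendsto_pi_nhds.1 ((h.cont (y, t) ⟨hy.1, mem_univ _⟩).tendsto.comp h3) f
    refine tendsto_nhds_unique h4 ?_
    simp only [Function.comp_apply, ldens_zero h hfe (h1 _) t]
    exact tendsto_const_nhds

end Pool.Agent.PW.L
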