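import Pool.Agent.P.MP_65ad7c_ag.LDer0

open Matrix Filter Topology Set
open scoped ComplexOrder Kronecker

noncomputable section
namespace Pool.Agent.PW.L

variable {n m : Type} [Fintype n] [DecidableEq n] [Fintype m] [DecidableEq m]
  {r : ℕ} {G : Subgroup (GL (Fin r) ℂ)} {Γ : Type}

theorem continuousOn_l2 : ContinuousOn (l2 : Matrix n n ℂ → ℝ) {P | P.PosDef} := by
  intro P hP
  obtain ⟨δ, K, hδ, h⟩ := l2_est (P := P) hP
  have hsub : Continuous fun Q : Matrix n n ℂ => Q - P := continuous_id.sub continuous_const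
  have hf : Continuous fun Q : Matrix n n ℂ => fro (Q - P) := continuous_fro.comp hsub
  have hg : Continuous fun Q : Matrix n n ℂ => (P⁻¹ * lg P * (Q - P)).trace.re :=
    Complex.continuous_re.comp (continuous_const.matrix_mul hsub).matrix_trace
  have f0 : fro (P - P) = 0 := by simp [fro]
  have g0 : (P⁻¹ * lg P * (P - P)).trace.re = 0 := by simp
  have t1 : Tendsto (fun Q : Matrix n n ℂ =>
      l2 P + 2 * (P⁻¹ * lg P * (Q - P)).trace.re - K * fro (Q - P)) (𝓝[{P | P.PosDef}] P)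
      (𝓝 (l2 P)) := by
    have hc : Continuous fun Q : Matrix n n ℂ =>
        l2 P + 2 * (P⁻¹ * lg P * (Q - P)).trace.re - K * fro (Q - P) :=
      (continuous_const.add (continuous_const.mul hg)).sub (continuous_const.mul hf)
    have := hc.tendsto P
    rw [f0, g0, mul_zero, mul_zero, add_zero, sub_zero] at this
    exact this.mono_left nhdsWithin_le_nhds
  have t2 : Tendsto (fun Q : Matrix n n ℂ =>
      l2 P + 2 * (P⁻¹ * lg P * (Q - P)).trace.re + K * fro (Q - P)) (𝓝[{P | P.PosDef}] P)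
      (𝓝 (l2 P)) := by
    have hc : Continuous fun Q : Matrix n n ℂ =>
        l2 P + 2 * (P⁻¹ * lg P * (Q - P)).trace.re + K * fro (Q - P) :=
      (continuous_const.add (continuous_const.mul hg)).add (continuous_const.mul hf)
    have := hc.tendsto P
    rw [f0, g0, mul_zero, mul_zero, add_zero, add_zero] at this
    exact this.mono_left nhdsWithin_le_nhds
  have ev : ∀ᶠ Q in 𝓝[{P : Matrix n n ℂ | P.PosDef}] P,
      |l2 Q - l2 P - 2 * (P⁻¹ * lg P * (Q - P)).trace.re| ≤ K * fro (Q - P) := by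
    have e1 : ∀ᶠ Q in 𝓝 P, fro (Q - P) < δ := by
      have := hf.tendsto P
      rw [f0] at this
      exact this.eventually (gt_mem_nhds hδ)
    filter_upwards [self_mem_nhdsWithin, e1.filter_mono nhdsWithin_le_nhds] with Q hQ hQ'
    exact h Q (Matrix.PosDef.isHermitian hQ) hQ'
  refine tendsto_of_tendsto_of_tendsto_of_le_of_le' t1 t2 ?_ ?_
  · filter_upwards [ev] with Q hQ
    have := (abs_le.1 hQ).1
    linarith
  · filter_upwards [ev] with Q hQ
    have := (abs_le.1 hQ).2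
    linarith

theorem continuousOn_ph : ContinuousOn (ph : Matrix n n ℂ → ℝ) {a | IsUnit a} := by
  have hc : Continuous fun a : Matrix n n ℂ => aᴴ * a :=
    continuous_id.matrix_conjTranspose.matrix_mul continuous_id
  exact continuousOn_l2.comp hc.continuousOn fun a ha => posDef_star_mul ha

theorem ph_coer (L : ℝ) : ∃ B δ : ℝ, 0 < δ ∧ ∀ a : Matrix n n ℂ, IsUnit a → ph a ≤ L →
    (∀ i j, ‖a i j‖ ≤ B) ∧ δ ≤ ‖a.det‖ := by
  refine ⟨1 + ∑ _i : n, Real.exp (Real.sqrt L), Real.sqrt (∏ _i : n, Real.exp (-Real.sqrt L)),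
    Real.sqrt_pos.2 (Finset.prod_pos fun _ _ => Real.exp_pos _), fun a ha hL => ?_⟩
  obtain ⟨U, d, hU, hd, e⟩ := exists_Dg_pos (posDef_star_mul ha)
  have hsum : ∑ i, Real.log (d i) ^ 2 ≤ L := by
    rw [← l2_Dg hU, ← e]
    exact hL
  have hlog : ∀ i, |Real.log (d i)| ≤ Real.sqrt L := by
    intro i
    apply Real.abs_le_sqrt
    exact (Finset.single_le_sum (f := fun i => Real.log (d i) ^ 2) (fun _ _ => sq_nonneg _)
      (Finset.mem_univ i)).trans hsum
  have hup : ∀ i, d i ≤ Real.exp (Real.sqrt L) := fun i =>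
    (Real.log_le_iff_le_exp (hd i)).1 (abs_le.1 (hlog i)).2
  have hlo : ∀ i, Real.exp (-Real.sqrt L) ≤ d i := fun i =>
    (Real.le_log_iff_exp_le (hd i)).1 (abs_le.1 (hlog i)).1
  constructor
  · intro i j
    have h1 := sq_le_fro a i j
    rw [fro_eq, e, trace_Dg hU, Complex.ofReal_re] at h1
    have h2 : ∑ i, d i ≤ ∑ _i : n, Real.exp (Real.sqrt L) := Finset.sum_le_sum fun i _ => hup i
    nlinarith [sq_nonneg (‖a i j‖ - 1), sq_nonneg ‖a i j‖]
  · have h1 : ‖a.det‖ ^ 2 = ∏ i, d i := by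
      have h2 := congrArg (fun X : Matrix n n ℂ => ‖X.det‖) e
      simp only [det_mul, det_conjTranspose, norm_mul, norm_star] at h2
      rw [det_Dg hU, Complex.norm_real, Real.norm_of_nonneg
        (Finset.prod_nonneg fun i _ => (hd i).le)] at h2
      rw [sq, h2]
    apply Real.sqrt_le_iff.2
    refine ⟨norm_nonneg _, ?_⟩
    rw [h1]
    exact Finset.prod_le_prod (fun _ _ => (Real.exp_pos _).le) fun i _ => hlo i

theorem exists_min_sub {Z : Set (Matrix n n ℂ)} (hZ : IsClosed Z) {a₀ : Matrix n n ℂ}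
    (h₀ : a₀ ∈ Z) (hu : IsUnit a₀) :
    ∃ a ∈ Z, IsUnit a ∧ ∀ b ∈ Z, IsUnit b → ph a ≤ ph b := by
  obtain ⟨B, δ, hδ, h⟩ := ph_coer (n := n) (ph a₀)
  have c1 : IsCompact (Set.pi univ fun _ : n => Set.pi univ fun _ : n =>
      Metric.closedBall (0 : ℂ) B) :=
    isCompact_univ_pi fun _ => isCompact_univ_pi fun _ => isCompact_closedBall _ _
  have c2 : IsCompact {a : Matrix n n ℂ | ∀ i j, ‖a i j‖ ≤ B} := by
    have e : {a : Matrix n n ℂ | ∀ i j, ‖a i j‖ ≤ B} = (Set.pi univ fun _ : n =>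
        Set.pi univ fun _ : n => Metric.closedBall (0 : ℂ) B) := by
      ext a
      constructor
      · intro ha i _ j _
        exact mem_closedBall_zero_iff.2 (ha i j)
      · intro ha i j
        exact mem_closedBall_zero_iff.1 (ha i (mem_univ _) j (mem_univ _))
    rw [e]
    exact c1
  have c3 : IsClosed {a : Matrix n n ℂ | δ ≤ ‖a.det‖} :=
    isClosed_le continuous_const continuous_id.matrix_det.norm
  have c4 : IsCompact (Z ∩ ({a : Matrix n n ℂ | ∀ i j, ‖a i j‖ ≤ B} ∩ {a | δ ≤ ‖a.det‖})) :=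
    (c2.inter_right c3).inter_left hZ
  have un : ∀ a : Matrix n n ℂ, δ ≤ ‖a.det‖ → IsUnit a := fun a ha =>
    (isUnit_iff_isUnit_det a).2 (isUnit_iff_ne_zero.2 (norm_pos_iff.1 (hδ.trans_le ha)))
  have m0 : a₀ ∈ Z ∩ ({a : Matrix n n ℂ | ∀ i j, ‖a i j‖ ≤ B} ∩ {a | δ ≤ ‖a.det‖}) :=
    ⟨h₀, h a₀ hu le_rfl⟩
  obtain ⟨a, ha, hmin⟩ := c4.exists_isMinOn ⟨a₀, m0⟩
    (continuousOn_ph.mono fun a ha => un a ha.2.2)
  refine ⟨a, ha.1, un a ha.2.2, fun b hb hbu => ?_⟩
  rcases le_total (ph b) (ph a₀) with h1 | h1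
  · exact hmin ⟨hb, h b hbu h1⟩
  · exact le_trans (hmin m0) h1

end Pool.Agent.PW.L
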