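import Pool.Agent.P.MP_65ad7c_ag.LKlein

open Matrix Filter Topology Set
open scoped ComplexOrder Kronecker

noncomputable section
namespace Pool.Agent.PW.L

variable {n m : Type} [Fintype n] [DecidableEq n] [Fintype m] [DecidableEq m]
  {r : ℕ} {G : Subgroup (GL (Fin r) ℂ)} {Γ : Type}

theorem lder0_squeeze {R g : ℝ → ℝ} {K : ℝ} (hg : HasDerivAt g 0 0) (h0 : g 0 = 0)
    (h : ∀ᶠ t in 𝓝 (0 : ℝ), |R t| ≤ K * g t) : HasDerivAt R 0 0 := by
  have hR : R 0 = 0 := by
    have := h.self_of_nhds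
    rw [h0, mul_zero] at this
    exact abs_nonpos_iff.1 this
  rw [hasDerivAt_iff_isLittleO] at hg ⊢
  simp only [h0, hR, sub_zero, smul_zero] at hg ⊢
  refine Asymptotics.IsBigO.trans_isLittleO (Asymptotics.IsBigO.of_bound |K| ?_) hg
  filter_upwards [h] with t ht
  rw [Real.norm_eq_abs, Real.norm_eq_abs, ← abs_mul]
  exact ht.trans (le_abs_self _)

theorem l2_hasDerivAt {P D : Matrix n n ℂ} {c : ℝ → Matrix n n ℂ} (hP : P.PosDef) (h0 : c 0 = P)
    (hc : ∀ t, (c t).IsHermitian) (hD : MD c D) :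
    HasDerivAt (fun t => l2 (c t)) (2 * (P⁻¹ * lg P * D).trace.re) 0 := by
  obtain ⟨δ, K, hδ, h⟩ := l2_est hP
  have hE : MD (fun t => c t - P) D := by
    have := hD.add (MD.const (-P))
    simpa only [add_zero, ← sub_eq_add_neg] using this
  have hg : HasDerivAt (fun t => fro (c t - P)) 0 0 := by
    have := (hE.star.mul hE).trace_re
    simp only [h0, sub_self, mul_zero, conjTranspose_zero, zero_mul, add_zero, trace_zero,
      Complex.zero_re] at this
    simpa only [fro_eq] using this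
  have hg0 : fro (c 0 - P) = 0 := by simp [h0, fro]
  have hsm : ∀ᶠ t in 𝓝 (0 : ℝ), fro (c t - P) < δ :=
    hg.continuousAt.eventually_lt continuousAt_const (by rw [hg0]; exact hδ)
  have hR : HasDerivAt
      (fun t => l2 (c t) - l2 P - 2 * (P⁻¹ * lg P * (c t - P)).trace.re) 0 0 := by
    refine lder0_squeeze (K := K) hg hg0 ?_
    filter_upwards [hsm] with t ht
    exact h (c t) (hc t) ht
  have hL : HasDerivAt (fun t => (P⁻¹ * lg P * (c t - P)).trace.re)
      (P⁻¹ * lg P * D).trace.re 0 := by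
    have := ((MD.const (P⁻¹ * lg P)).mul hE).trace_re
    simpa only [zero_mul, zero_add] using this
  have hS := (hR.add_const (l2 P)).add (hL.const_mul 2)
  rw [zero_add] at hS
  refine hS.congr_of_eventuallyEq (Eventually.of_forall fun t => ?_)
  simp only [Pi.add_apply]
  ring

theorem ph_hasDerivAt {a D : Matrix n n ℂ} {c : ℝ → Matrix n n ℂ} (ha : IsUnit a) (h0 : c 0 = a)
    (hD : MD c D) : HasDerivAt (fun t => ph (c t)) (4 * (lg (aᴴ * a) * a⁻¹ * D).trace.re) 0 := by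
  have hP := posDef_star_mul ha
  have hM := hD.star.mul hD
  simp only [h0] at hM
  have h := l2_hasDerivAt (c := fun t => (c t)ᴴ * c t) hP (by simp only [h0])
    (fun t => isHermitian_conjTranspose_mul_self _) hM
  have hdet : IsUnit a.det := (isUnit_iff_isUnit_det a).1 ha
  have hdet' : IsUnit aᴴ.det := by
    rw [det_conjTranspose]
    exact hdet.star
  have hPdet : IsUnit (aᴴ * a).det := by
    rw [det_mul]
    exact hdet'.mul hdet
  have hX : (lg (aᴴ * a))ᴴ = lg (aᴴ * a) := fc_herm _ _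
  have hcomm : (aᴴ * a)⁻¹ * lg (aᴴ * a) = lg (aᴴ * a) * (aᴴ * a)⁻¹ := by
    calc (aᴴ * a)⁻¹ * lg (aᴴ * a)
        = (aᴴ * a)⁻¹ * (lg (aᴴ * a) * (aᴴ * a)) * (aᴴ * a)⁻¹ := by
          rw [mul_assoc ((aᴴ * a)⁻¹), mul_assoc (lg (aᴴ * a)), mul_nonsing_inv _ hPdet, mul_one]
      _ = lg (aᴴ * a) * (aᴴ * a)⁻¹ := by
          rw [← lg_comm hP, ← mul_assoc, nonsing_inv_mul _ hPdet, one_mul]
  have h1 : (aᴴ * a)⁻¹ * aᴴ = a⁻¹ := by
    rw [Matrix.mul_inv_rev, mul_assoc, nonsing_inv_mul _ hdet', mul_one]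
  have h2 : a * (aᴴ * a)⁻¹ = (a⁻¹)ᴴ := by
    rw [Matrix.mul_inv_rev, ← mul_assoc, mul_nonsing_inv _ hdet, one_mul,
      conjTranspose_nonsing_inv]
  have h3 : (aᴴ * a)⁻¹ * lg (aᴴ * a) * (aᴴ * D) = lg (aᴴ * a) * a⁻¹ * D := by
    rw [hcomm, ← h1]
    simp only [mul_assoc]
  have h4 : ((aᴴ * a)⁻¹ * lg (aᴴ * a) * (Dᴴ * a)).trace =
      star (lg (aᴴ * a) * a⁻¹ * D).trace := by
    rw [← trace_conjTranspose, conjTranspose_mul, conjTranspose_mul, hX, ← h2, trace_mul_comm]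
    simp only [mul_assoc]
  have h5 : 2 * ((aᴴ * a)⁻¹ * lg (aᴴ * a) * (Dᴴ * a + aᴴ * D)).trace.re =
      4 * (lg (aᴴ * a) * a⁻¹ * D).trace.re := by
    rw [mul_add, trace_add, h3, h4, Complex.add_re, Complex.star_def, Complex.conj_re]
    ring
  rw [h5] at h
  exact h

end Pool.Agent.PW.L
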