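import Pool.Agent.P.MP_65ad7c_ag.LFc1

open Matrix Filter Topology Set
open scoped ComplexOrder Kronecker

noncomputable section
namespace Pool.Agent.PW.L

variable {n m : Type} [Fintype n] [DecidableEq n] [Fintype m] [DecidableEq m]
  {r : ℕ} {G : Subgroup (GL (Fin r) ℂ)} {Γ : Type}

theorem MD.const (A : Matrix n n ℂ) : MD (fun _ => A) 0 := by
  intro i j
  exact hasDerivAt_const _ _

theorem MD.add {c c' : ℝ → Matrix n n ℂ} {D D' : Matrix n n ℂ} (h : MD c D) (h' : MD c' D') :
    MD (fun t => c t + c' t) (D + D') := by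
  intro i j
  exact (h i j).add (h' i j)

theorem MD.mul {c c' : ℝ → Matrix n n ℂ} {D D' : Matrix n n ℂ} (h : MD c D) (h' : MD c' D') :
    MD (fun t => c t * c' t) (D * c' 0 + c 0 * D') := by
  intro i j
  have h1 := HasDerivAt.fun_sum (u := Finset.univ) fun k _ => (h i k).fun_mul (h' k j)
  simp only [Matrix.mul_apply, Matrix.add_apply, ← Finset.sum_add_distrib]
  exact h1

theorem MD.star {c : ℝ → Matrix n n ℂ} {D : Matrix n n ℂ} (h : MD c D) :
    MD (fun t => (c t)ᴴ) Dᴴ := by
  intro i j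
  simp only [conjTranspose_apply]
  exact (Complex.conjCLE.toContinuousLinearMap.hasFDerivAt.comp_hasDerivAt (0 : ℝ) (h j i))

theorem MD.trace_re {c : ℝ → Matrix n n ℂ} {D : Matrix n n ℂ} (h : MD c D) :
    HasDerivAt (fun t => (c t).trace.re) D.trace.re 0 := by
  have h1 : HasDerivAt (fun t => (c t).trace) D.trace 0 := by
    simp only [Matrix.trace, Matrix.diag_apply]
    exact HasDerivAt.fun_sum fun k _ => h k k
  exact Complex.reCLM.hasFDerivAt.comp_hasDerivAt (0 : ℝ) h1

theorem MD.eventually_isUnit {c : ℝ → Matrix n n ℂ} {D : Matrix n n ℂ} (h : MD c D)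
    (h0 : IsUnit (c 0)) : ∀ᶠ t in 𝓝 (0 : ℝ), IsUnit (c t) := by
  have h1 : ContinuousAt c 0 :=
    continuousAt_pi.2 fun i => continuousAt_pi.2 fun j => (h i j).continuousAt
  have h2 : ContinuousAt (fun t => (c t).det) 0 :=
    (continuous_id.matrix_det).continuousAt.comp h1
  have h3 : (c 0).det ≠ 0 := ((Matrix.isUnit_iff_isUnit_det _).1 h0).ne_zero
  filter_upwards [h2.eventually_ne h3] with t ht
  exact (Matrix.isUnit_iff_isUnit_det _).2 (Ne.isUnit ht)

theorem md_lin (z : Matrix n n ℂ) : MD (fun t => 1 + (t : ℂ) • z) z := by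
  intro i j
  simp only [Matrix.add_apply, Matrix.smul_apply, smul_eq_mul]
  have h1 := (((hasDerivAt_id' (0 : ℝ)).ofReal_comp).mul_const (z i j)).const_add
    ((1 : Matrix n n ℂ) i j)
  simpa using h1

theorem lfc_dg (U : Matrix n n ℂ) (d : n → ℝ) (s : ℝ) :
    MD (fun t => Dg U fun i => Real.exp (s * t * d i)) (Dg U fun i => s * d i) := by
  have h1 : MD (fun t => diagonal fun i => ((Real.exp (s * t * d i) : ℝ) : ℂ))
      (diagonal fun i => ((s * d i : ℝ) : ℂ)) := by
    intro i j
    by_cases hij : i = j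
    · subst hij
      simp only [diagonal_apply_eq]
      have h2 : HasDerivAt (fun t : ℝ => s * t * d i) (s * 1 * d i) 0 :=
        ((hasDerivAt_id' (0 : ℝ)).const_mul s).mul_const (d i)
      have h3 := h2.exp
      have h4 : Real.exp (s * 0 * d i) * (s * 1 * d i) = s * d i := by simp
      rw [h4] at h3
      exact h3.ofReal_comp
    · simp only [diagonal_apply_ne _ hij]
      exact hasDerivAt_const _ _
  have h5 := ((MD.const U).mul h1).mul (MD.const Uᴴ)
  simp only [Matrix.zero_mul, Matrix.mul_zero, zero_add, add_zero] at h5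
  exact h5

theorem md_ex {X : Matrix n n ℂ} (h : X.IsHermitian) : MD (fun t => ex t X) X := by
  obtain ⟨U, d, hU, rfl⟩ := exists_Dg h
  have h1 := lfc_dg U d 1
  simp only [one_mul] at h1
  simp only [ex, fc_Dg hU]
  exact h1

theorem md_ex_neg {X : Matrix n n ℂ} (h : X.IsHermitian) : MD (fun t => ex (-t) X) (-X) := by
  obtain ⟨U, d, hU, rfl⟩ := exists_Dg h
  have h1 := lfc_dg U d (-1)
  simp only [neg_mul, one_mul, Dg_neg] at h1
  simp only [ex, fc_Dg hU, neg_mul]
  exact h1

end Pool.Agent.PW.L
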