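import Pool.Agent.P.MP_65ad7c_ag.LFc0

open Matrix Filter Topology Set
open scoped ComplexOrder Kronecker

noncomputable section
namespace Pool.Agent.PW.L

variable {n m : Type} [Fintype n] [DecidableEq n] [Fintype m] [DecidableEq m]
  {r : ℕ} {G : Subgroup (GL (Fin r) ℂ)} {Γ : Type}

omit [DecidableEq m] in
theorem lfc1_left {U : Matrix n n ℂ} {V : Matrix m m ℂ} (hU : Uni U)
    (d : n → ℝ) (a : Matrix m n ℂ) :
    Vᴴ * (a * Dg U d) * U = Vᴴ * a * U * diagonal fun i => (d i : ℂ) := by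
  have h : Uᴴ * U = 1 := hU
  simp only [Dg, Matrix.mul_assoc, h, Matrix.mul_one]

omit [DecidableEq n] in
theorem lfc1_right {U : Matrix n n ℂ} {V : Matrix m m ℂ} (hV : Uni V)
    (e : m → ℝ) (a : Matrix m n ℂ) :
    Vᴴ * (Dg V e * a) * U = (diagonal fun j => (e j : ℂ)) * (Vᴴ * a * U) := by
  have h : Vᴴ * V = 1 := hV
  simp only [Dg, ← Matrix.mul_assoc, h, Matrix.one_mul]

theorem lfc1_cancel {U : Matrix n n ℂ} {V : Matrix m m ℂ} (hU : Uni U) (hV : Uni V)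
    {x y : Matrix m n ℂ} (h : Vᴴ * x * U = Vᴴ * y * U) : x = y := by
  have key : ∀ z : Matrix m n ℂ, V * (Vᴴ * z * U) * Uᴴ = z := fun z => by
    rw [← Matrix.mul_assoc, ← Matrix.mul_assoc, hV.mul_self, Matrix.one_mul, Matrix.mul_assoc,
      hU.mul_self, Matrix.mul_one]
  rw [← key x, h, key y]

theorem Dg_intertwine {U : Matrix n n ℂ} {V : Matrix m m ℂ} (hU : Uni U) (hV : Uni V)
    {d : n → ℝ} {e : m → ℝ} {a : Matrix m n ℂ} (h : a * Dg U d = Dg V e * a) (f : ℝ → ℝ) :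
    a * Dg U (fun i => f (d i)) = Dg V (fun j => f (e j)) * a := by
  have h1 : Vᴴ * a * U * (diagonal fun i => (d i : ℂ)) =
      (diagonal fun j => (e j : ℂ)) * (Vᴴ * a * U) := by
    rw [← lfc1_left hU, ← lfc1_right hV, h]
  refine lfc1_cancel hU hV ?_
  rw [lfc1_left hU, lfc1_right hV]
  ext j i
  have h2 := congrFun (congrFun h1 j) i
  rw [mul_diagonal, diagonal_mul] at h2 ⊢
  by_cases h3 : (Vᴴ * a * U) j i = 0
  · rw [h3, zero_mul, mul_zero]
  · rw [mul_comm] at h2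
    have h4 : d i = e j := by exact_mod_cast mul_right_cancel₀ h3 h2
    rw [h4, mul_comm]

theorem lfc1_spec {P : Matrix n n ℂ} (h : P.IsHermitian) :
    P = Dg (h.eigenvectorUnitary : Matrix n n ℂ) h.eigenvalues := by
  have := h.spectral_theorem
  rw [Unitary.conjStarAlgAut_apply, star_eq_conjTranspose] at this
  exact this

theorem lfc1_uni {P : Matrix n n ℂ} (h : P.IsHermitian) :
    Uni (h.eigenvectorUnitary : Matrix n n ℂ) :=
  (Unitary.mem_iff.1 h.eigenvectorUnitary.2).1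

theorem fc_Dg {U : Matrix n n ℂ} (hU : Uni U) (d : n → ℝ) (f : ℝ → ℝ) :
    fc f (Dg U d) = Dg U fun i => f (d i) := by
  have hP := Dg_herm U d
  have h1 : (1 : Matrix n n ℂ) * Dg (hP.eigenvectorUnitary : Matrix n n ℂ) hP.eigenvalues =
      Dg U d * 1 := by
    rw [Matrix.one_mul, Matrix.mul_one, ← lfc1_spec hP]
  have h2 := Dg_intertwine (lfc1_uni hP) hU h1 f
  rw [Matrix.one_mul, Matrix.mul_one] at h2
  rw [fc, dif_pos hP, ← h2]
  rfl

theorem fc_herm (f : ℝ → ℝ) (P : Matrix n n ℂ) : (fc f P).IsHermitian := by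
  unfold fc
  split_ifs
  · exact Dg_herm _ _
  · exact isHermitian_zero

theorem fc_intertwine {P : Matrix n n ℂ} {Q : Matrix m m ℂ} (hP : P.IsHermitian)
    (hQ : Q.IsHermitian) {a : Matrix m n ℂ} (h : a * P = Q * a) (f : ℝ → ℝ) :
    a * fc f P = fc f Q * a := by
  obtain ⟨U, d, hU, rfl⟩ := exists_Dg hP
  obtain ⟨V, e, hV, rfl⟩ := exists_Dg hQ
  rw [fc_Dg hU, fc_Dg hV]
  exact Dg_intertwine hU hV h f

theorem lg_inv {P : Matrix n n ℂ} (h : P.PosDef) : lg P⁻¹ = -lg P := by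
  obtain ⟨U, d, hU, hd, rfl⟩ := exists_Dg_pos h
  rw [Dg_inv hU fun i => (hd i).ne', lg, lg, fc_Dg hU, fc_Dg hU, ← Dg_neg]
  simp only [Real.log_inv]

theorem lg_comm {P : Matrix n n ℂ} (h : P.PosDef) : P * lg P = lg P * P :=
  fc_intertwine h.isHermitian h.isHermitian rfl _

/-- `a log (aᴴ a) a⁻¹ = log (a aᴴ) = - log (bᴴ b)` for `b = a⁻¹` -/
theorem lg_conj {a b : Matrix n n ℂ} (h : a * b = 1) : a * lg (aᴴ * a) * b = -lg (bᴴ * b) := by
  have hb : b * a = 1 := mul_eq_one_comm.1 h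
  have hbu : IsUnit b := IsUnit.of_mul_eq_one _ hb
  have h1 : a * (aᴴ * a) = (a * aᴴ) * a := (Matrix.mul_assoc _ _ _).symm
  have h2 := fc_intertwine (isHermitian_conjTranspose_mul_self a)
    (isHermitian_mul_conjTranspose_self a) h1 Real.log
  have h3 : (bᴴ * b)⁻¹ = a * aᴴ := by
    refine inv_eq_right_inv ?_
    rw [Matrix.mul_assoc, ← Matrix.mul_assoc b, hb, Matrix.one_mul, ← conjTranspose_mul, h,
      conjTranspose_one]
  rw [← lg_inv (posDef_star_mul hbu), h3, lg, lg, h2, Matrix.mul_assoc, h, Matrix.mul_one]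

theorem l2_Dg {U : Matrix n n ℂ} (hU : Uni U) (d : n → ℝ) :
    l2 (Dg U d) = ∑ i, Real.log (d i) ^ 2 := by
  rw [l2, lg, fc_Dg hU, Dg_mul hU, trace_Dg hU, Complex.ofReal_re]
  simp only [sq]

theorem ph_nonneg (a : Matrix n n ℂ) : 0 ≤ ph a := by
  obtain ⟨U, d, hU, h⟩ := exists_Dg (isHermitian_conjTranspose_mul_self a)
  rw [ph, h, l2_Dg hU]
  exact Finset.sum_nonneg fun i _ => sq_nonneg _

theorem ex_zero {X : Matrix n n ℂ} (h : X.IsHermitian) : ex 0 X = 1 := by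
  obtain ⟨U, d, hU, rfl⟩ := exists_Dg h
  rw [ex, fc_Dg hU, ← Dg_one hU]
  simp only [zero_mul, Real.exp_zero]

theorem ex_mul_neg {X : Matrix n n ℂ} (h : X.IsHermitian) (t : ℝ) : ex t X * ex (-t) X = 1 := by
  obtain ⟨U, d, hU, rfl⟩ := exists_Dg h
  rw [ex, ex, fc_Dg hU, fc_Dg hU, Dg_mul hU, ← Dg_one hU]
  simp only [← Real.exp_add, neg_mul, add_neg_cancel, Real.exp_zero]

theorem ex_herm (t : ℝ) (X : Matrix n n ℂ) : (ex t X).IsHermitian := fc_herm _ _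

/-- `exp (-(1/2) log P) = P ^ (-1/2)` -/
theorem ex_half {P : Matrix n n ℂ} (h : P.PosDef) :
    ex (-(1 / 2)) (lg P) * P * ex (-(1 / 2)) (lg P) = 1 := by
  obtain ⟨U, d, hU, hd, rfl⟩ := exists_Dg_pos h
  rw [lg, fc_Dg hU, ex, fc_Dg hU, Dg_mul hU, Dg_mul hU, ← Dg_one hU]
  refine congrArg (Dg U) (funext fun i => ?_)
  have h1 : d i = Real.exp (Real.log (d i)) := (Real.exp_log (hd i)).symm
  generalize Real.log (d i) = x at h1
  rw [h1, ← Real.exp_add, ← Real.exp_add, Real.exp_eq_one_iff]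
  ring

end Pool.Agent.PW.L
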