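import Pool.Agent.P.MP_65ad7c_ag.LInv0

open Matrix Filter Topology Set
open scoped ComplexOrder Kronecker

noncomputable section
namespace Pool.Agent.PW.L

variable {n m : Type} [Fintype n] [DecidableEq n] [Fintype m] [DecidableEq m]
  {r : ℕ} {G : Subgroup (GL (Fin r) ℂ)} {Γ : Type}

variable [Group Γ]

theorem exists_dual (hG : IsRed G) (ρ : Γ →* G) :
    ∃ ρ' : Γ →* G, ∀ γ, (ρ' γ).1.1 = (ρ γ⁻¹).1.1ᴴ := by
  choose g hg he using fun γ : Γ => hG.2 (ρ γ⁻¹).1 (ρ γ⁻¹).2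
  refine ⟨MonoidHom.mk' (fun γ => ⟨g γ, hg γ⟩) fun a b => ?_, he⟩
  refine Subtype.ext (Units.ext ?_)
  change (g (a * b)).1 = (g a).1 * (g b).1
  rw [he, he, he, _root_.mul_inv_rev, map_mul, ← conjTranspose_mul]
  rfl

theorem linv_unique {ρ ρ₁ ρ₂ : Γ →* G} (h₁ : ∀ γ, (ρ₁ γ).1.1 = (ρ γ⁻¹).1.1ᴴ)
    (h₂ : ∀ γ, (ρ₂ γ).1.1 = (ρ γ⁻¹).1.1ᴴ) : ρ₁ = ρ₂ :=
  MonoidHom.ext fun γ => Subtype.ext (Units.ext ((h₁ γ).trans (h₂ γ).symm))

theorem linv_symm {ρ ρ' : Γ →* G} (h : ∀ γ, (ρ' γ).1.1 = (ρ γ⁻¹).1.1ᴴ) (γ : Γ) :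
    (ρ γ).1.1 = (ρ' γ⁻¹).1.1ᴴ := by
  rw [h, inv_inv, conjTranspose_conjTranspose]

theorem linv_mem {th : (Γ →* G) → Γ →* G} (h : ∀ ρ γ, (th ρ γ).1.1 = (ρ γ⁻¹).1.1ᴴ)
    {f : (Γ →* G) → ℂ} (hf : f ∈ OO G Γ) :
    (fun ρ => starRingEnd ℂ (f (th ρ))) ∈ OO G Γ := by
  induction hf using Algebra.adjoin_induction with
  | mem x hx =>
    obtain ⟨γ, i, j, rfl⟩ := hx
    refine Algebra.subset_adjoin ⟨γ⁻¹, j, i, funext fun ρ => ?_⟩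
    have e : (th ρ γ).1.1 i j = star ((ρ γ⁻¹).1.1 j i) := congrFun (congrFun (h ρ γ) i) j
    exact (congrArg star e).trans (star_star _)
  | algebraMap c => exact Subalgebra.algebraMap_mem (OO G Γ) (starRingEnd ℂ c)
  | add x y _ _ hx hy =>
    simp only [Pi.add_apply, map_add]
    exact add_mem hx hy
  | mul x y _ _ hx hy =>
    simp only [Pi.mul_apply, map_mul]
    exact mul_mem hx hy

theorem exists_star (hG : IsRed G) (f : Inv Γ G) : ∃ f' : Inv Γ G, ∀ ρ ρ' : Γ →* G,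
    (∀ γ, (ρ' γ).1.1 = (ρ γ⁻¹).1.1ᴴ) → f'.1 ρ = starRingEnd ℂ (f.1 ρ') := by
  choose th hth using fun ρ : Γ →* G => exists_dual hG ρ
  refine ⟨⟨fun ρ => starRingEnd ℂ (f.1 (th ρ)), mem_Inv.2 ⟨linv_mem hth (mem_Inv.1 f.2).1,
    fun g ρ => ?_⟩⟩, fun ρ ρ' h => ?_⟩
  · obtain ⟨g₂, hg₂, he⟩ := hG.2 (g⁻¹).1 (g⁻¹).2
    have h1 : g₂.1 * g.1.1ᴴ = 1 := by
      rw [he, ← conjTranspose_mul]
      change (g.1 * g.1⁻¹).1ᴴ = 1
      rw [mul_inv_cancel, Units.val_one, conjTranspose_one]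
    have h2 : (g₂⁻¹).1 = g.1.1ᴴ := Units.inv_eq_of_mul_eq_one_right h1
    have h3 : th (cjG g ρ) = cjG ⟨g₂, hg₂⟩ (th ρ) := by
      refine linv_unique (hth _) fun γ => ?_
      have a1 := mat_cjG ⟨g₂, hg₂⟩ (th ρ) γ
      have a2 := mat_cjG g ρ γ⁻¹
      rw [mat_apply, mat_apply] at a1 a2
      rw [a1, a2, conjTranspose_mul, conjTranspose_mul, hth, ← he, ← h2, Matrix.mul_assoc]
      rfl
    change starRingEnd ℂ (f.1 (th (cjG g ρ))) = _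
    rw [h3, (mem_Inv.1 f.2).2]
  · change starRingEnd ℂ (f.1 (th ρ)) = _
    rw [linv_unique (hth ρ) h]

theorem isS_ev {τ τ' : Γ →* G} (h : ∀ γ, mat τ' γ = (mat τ γ⁻¹)ᴴ) : IsS (ev τ) (ev τ') := by
  intro f f' H
  change f.1 τ' = starRingEnd ℂ (f'.1 τ)
  rw [H τ τ' h]
  exact (star_star _).symm

theorem isS_unique (hG : IsRed G) {y y₁ y₂ : Inv Γ G → ℂ} (h₁ : IsS y y₁) (h₂ : IsS y y₂) :
    y₁ = y₂ := by
  funext f
  obtain ⟨f', hf⟩ := exists_star hG f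
  rw [h₁ f f' hf, h₂ f f' hf]

theorem isS_symm {y y' : Inv Γ G → ℂ} (h : IsS y y') : IsS y' y := by
  intro f f' H
  rw [h f' f fun ρ ρ' hρ => by rw [H ρ' ρ (linv_symm hρ)]; exact (star_star _).symm]
  exact (star_star _).symm

theorem linv_ann {R : Type} [CommRing R] [IsReduced R] {P : Ideal R} (hP : P ∈ minimalPrimes R)
    {f : R} (hf : f ∈ P) : ∃ e : R, e ∉ P ∧ f * e = 0 := by
  have := hP.isPrime
  have h1 := IsLocalization.AtPrime.radical_map_of_mem_minimalPrimes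
    (A := Localization.AtPrime P) P ⊥ hP
  have h2 : algebraMap R (Localization.AtPrime P) f ∈ P.map (algebraMap R _) :=
    Ideal.mem_map_of_mem _ hf
  rw [← h1, Ideal.map_bot] at h2
  obtain ⟨k, hk⟩ := h2
  rw [Ideal.mem_bot, ← map_pow, IsLocalization.map_eq_zero_iff P.primeCompl] at hk
  obtain ⟨s, hs⟩ := hk
  refine ⟨s.1, s.2, IsNilpotent.eq_zero ⟨k + 1, ?_⟩⟩
  calc (f * s.1) ^ (k + 1) = f * s.1 ^ k * (s.1 * f ^ k) := by ring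
    _ = 0 := by rw [hs, mul_zero]

theorem exists_ann {P : Ideal (Inv Γ G)} (hP : P ∈ minimalPrimes (Inv Γ G)) {f : Inv Γ G}
    (hf : f ∈ P) : ∃ e : Inv Γ G, e ∉ P ∧ f * e = 0 := by
  have : IsReduced (Inv Γ G) :=
    isReduced_of_injective (Inv Γ G).val Subtype.val_injective
  exact linv_ann hP hf

end Pool.Agent.PW.L
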