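import Pool.Agent.P.MP_65ad7c_ag.LJen0

open Matrix Filter Topology Set
open scoped ComplexOrder Kronecker

noncomputable section
namespace Pool.Agent.PW.L

variable {n m : Type} [Fintype n] [DecidableEq n] [Fintype m] [DecidableEq m]
  {r : ℕ} {G : Subgroup (GL (Fin r) ℂ)} {Γ : Type}

theorem ljen_det (b : Matrix m m ℂ) : (bᴴ * b).det.re = ‖b.det‖ ^ 2 := by
  rw [det_mul, det_conjTranspose, mul_comm, ← Complex.normSq_eq_norm_sq]
  have := Complex.mul_conj b.det
  rw [show star b.det = (starRingEnd ℂ) b.det from rfl, this, Complex.ofReal_re]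

theorem ljen_log {b c : Matrix m m ℂ} (h : b * c = 1) :
    Real.log (bᴴ * b).det.re + Real.log (cᴴ * c).det.re = 0 := by
  have h1 : ‖b.det‖ * ‖c.det‖ = 1 := by
    rw [← norm_mul, ← det_mul, h, det_one, norm_one]
  have hb : ‖b.det‖ ≠ 0 := left_ne_zero_of_mul_eq_one h1
  have hc : ‖c.det‖ ≠ 0 := right_ne_zero_of_mul_eq_one h1
  rw [ljen_det, ljen_det, ← Real.log_mul (pow_ne_zero _ hb) (pow_ne_zero _ hc), ← mul_pow, h1,
    one_pow, Real.log_one]

theorem ljen_step {a a' Q : Matrix n n ℂ} (hQ : Qᴴ = Q) (h : a * a' = 1)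
    (h1 : Q * a * Q = a * Q) (h2 : Q * a' * Q = a' * Q) (hc : aᴴ * a * Q = Q * (aᴴ * a)) :
    Q * a = a * Q := by
  have e1 : aᴴ * Q = Q * aᴴ * Q := by
    calc aᴴ * Q = aᴴ * (a * a') * Q := by rw [h, mul_one]
      _ = aᴴ * a * (a' * Q) := by simp only [mul_assoc]
      _ = aᴴ * a * Q * a' * Q := by rw [← h2]; simp only [mul_assoc]
      _ = Q * aᴴ * (a * a') * Q := by rw [hc]; simp only [mul_assoc]
      _ = Q * aᴴ * Q := by rw [h, mul_one]
  have e2 := congrArg conjTranspose e1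
  simp only [conjTranspose_mul, conjTranspose_conjTranspose, hQ] at e2
  rw [e2, ← mul_assoc, h1]

theorem perp_of_sum_lg [Group Γ] (S : Finset Γ) (hs : ∀ s ∈ S, s⁻¹ ∈ S)
    (hS : Submonoid.closure (S : Set Γ) = ⊤) (a : Γ →* Matrix n n ℂ)
    (h : ∑ s ∈ S, lg ((a s)ᴴ * a s) = 0) : Perp a := by
  intro Q hQ hQ2 hinv
  obtain ⟨k, _, _, J, hJ, hJQ⟩ := exists_isom hQ hQ2
  have hQJ : Q * J = J := by rw [← hJQ, Matrix.mul_assoc, hJ, Matrix.mul_one]
  have hinvm : ∀ s, a s * a s⁻¹ = 1 := fun s => by rw [← map_mul, mul_inv_cancel, map_one]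
  have hunit : ∀ s, IsUnit (a s) := fun s => (Group.isUnit s).map a
  set b : Γ → Matrix k k ℂ := fun s => Jᴴ * a s * J with hb
  have haJ : ∀ s, a s * J = J * b s := fun s => by
    calc a s * J = a s * Q * J := by rw [Matrix.mul_assoc, hQJ]
      _ = Q * a s * Q * J := by rw [hinv]
      _ = Q * a s * J := by rw [Matrix.mul_assoc (Q * a s), hQJ]
      _ = J * b s := by rw [← hJQ]; simp only [hb, Matrix.mul_assoc]
  have hP : ∀ s, Jᴴ * ((a s)ᴴ * a s) * J = (b s)ᴴ * b s := fun s => by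
    calc Jᴴ * ((a s)ᴴ * a s) * J = (a s * J)ᴴ * (a s * J) := by
          simp only [conjTranspose_mul, Matrix.mul_assoc]
      _ = (b s)ᴴ * (Jᴴ * J) * b s := by
          rw [haJ]; simp only [conjTranspose_mul, Matrix.mul_assoc]
      _ = (b s)ᴴ * b s := by rw [hJ, Matrix.mul_one]
  have hbb : ∀ s, b s * b s⁻¹ = 1 := fun s => by
    calc b s * b s⁻¹ = Jᴴ * a s * (J * b s⁻¹) := by simp only [hb, Matrix.mul_assoc]
      _ = Jᴴ * (a s * a s⁻¹) * J := by rw [← haJ]; simp only [Matrix.mul_assoc]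
      _ = 1 := by rw [hinvm, Matrix.mul_one, hJ]
  set L : Γ → ℝ := fun s => Real.log ((b s)ᴴ * b s).det.re with hL
  have hL0 : ∑ s ∈ S, L s = 0 := by
    have e1 : ∑ s ∈ S, L s = ∑ s ∈ S, L s⁻¹ :=
      Finset.sum_nbij' (fun s => s⁻¹) (fun s => s⁻¹) hs hs (fun s _ => inv_inv s)
        (fun s _ => inv_inv s) (fun s _ => by rw [inv_inv])
    have e2 : ∑ s ∈ S, L s + ∑ s ∈ S, L s⁻¹ = 0 := by
      rw [← Finset.sum_add_distrib]
      exact Finset.sum_eq_zero fun s _ => ljen_log (hbb s)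
    linarith
  have hT0 : ∑ s ∈ S, (J * Jᴴ * lg ((a s)ᴴ * a s)).trace.re = 0 := by
    rw [← Complex.re_sum, ← trace_sum, ← Finset.mul_sum, h, mul_zero, trace_zero, Complex.zero_re]
  have hle : ∀ s ∈ S, (J * Jᴴ * lg ((a s)ᴴ * a s)).trace.re ≤ L s := fun s _ => by
    have := (jensen (posDef_star_mul (hunit s)) hJ).1
    rwa [hP] at this
  have heq := (Finset.sum_eq_sum_iff_of_le hle).1 (hT0.trans hL0.symm)
  have hgen : ∀ s ∈ S, Q * a s = a s * Q := fun s hs' => by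
    have h1 := (jensen (posDef_star_mul (hunit s)) hJ).2 (by rw [hP]; exact heq s hs')
    rw [hJQ] at h1
    exact ljen_step hQ (hinvm s) (hinv s) (hinv s⁻¹) h1
  intro γ
  have hγ : γ ∈ Submonoid.closure (S : Set Γ) := by rw [hS]; trivial
  induction hγ using Submonoid.closure_induction with
  | mem s hs' => exact hgen s hs'
  | one => rw [map_one, mul_one, one_mul]
  | mul x y _ _ hx hy => rw [map_mul, ← mul_assoc, hx, mul_assoc, hy, mul_assoc]

end Pool.Agent.PW.L
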