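import Pool.Agent.P.MP_65ad7c_ag.LDefs

open Matrix Filter Topology Set
open scoped ComplexOrder Kronecker

noncomputable section
namespace Pool.Agent.PW.L

variable {n m : Type} [Fintype n] [DecidableEq n] [Fintype m] [DecidableEq m]
  {r : ℕ} {G : Subgroup (GL (Fin r) ℂ)} {Γ : Type}

theorem rep_isUnit [Group Γ] (ρ : Γ →* Matrix n n ℂ) (γ : Γ) : IsUnit (ρ γ) := by
  exact (Group.isUnit γ).map ρ

theorem rep_bdd [Monoid Γ] {S : Set Γ} (hS : Submonoid.closure S = ⊤) (N : ℝ) (γ : Γ) :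
    ∃ B : ℝ, ∀ ρ : Γ →* Matrix n n ℂ, (∀ s ∈ S, ∀ i j, ‖ρ s i j‖ ≤ N) → ∀ i j, ‖ρ γ i j‖ ≤ B := by
  have hγ : γ ∈ Submonoid.closure S := hS ▸ Submonoid.mem_top γ
  induction hγ using Submonoid.closure_induction with
  | mem s hs => exact ⟨N, fun ρ h => h s hs⟩
  | one =>
    refine ⟨1, fun ρ _ i j => ?_⟩
    rw [map_one, Matrix.one_apply]
    split_ifs <;> simp
  | mul x y _ _ hx hy =>
    obtain ⟨B, hB⟩ := hx
    obtain ⟨B', hB'⟩ := hy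
    refine ⟨∑ _k : n, B * B', fun ρ h i j => ?_⟩
    rw [map_mul, Matrix.mul_apply]
    refine (norm_sum_le _ _).trans (Finset.sum_le_sum fun k _ => ?_)
    rw [norm_mul]
    exact mul_le_mul (hB ρ h i k) (hB' ρ h k j) (norm_nonneg _)
      ((norm_nonneg _).trans (hB ρ h i k))

theorem mat_limit {ι : Type} (U : Ultrafilter ι) (a : ι → Matrix n m ℂ) {B : ℝ}
    (h : ∀ᶠ k in U, ∀ i j, ‖a k i j‖ ≤ B) :
    ∃ a₀ : Matrix n m ℂ, ∀ i j, Tendsto (fun k => a k i j) U (𝓝 (a₀ i j)) := by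
  have h1 : ∀ i j, ∃ z : ℂ, Tendsto (fun k => a k i j) U (𝓝 z) := fun i j => by
    obtain ⟨z, -, hz⟩ := (isCompact_closedBall (0 : ℂ) B).ultrafilter_le_nhds'
      (U.map fun k => a k i j) (h.mono fun k hk => by simpa using hk i j)
    exact ⟨z, hz⟩
  choose z hz using h1
  exact ⟨Matrix.of z, hz⟩

theorem rep_limit [Monoid Γ] {ι : Type} (U : Ultrafilter ι) (ρ : ι → Γ →* Matrix n n ℂ)
    (h : ∀ γ, ∃ B : ℝ, ∀ᶠ k in U, ∀ i j, ‖ρ k γ i j‖ ≤ B) : ∃ ρ₀, RT U ρ ρ₀ := by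
  have h1 : ∀ γ, ∃ a₀ : Matrix n n ℂ, ∀ i j, Tendsto (fun k => ρ k γ i j) U (𝓝 (a₀ i j)) :=
    fun γ => by
      obtain ⟨B, hB⟩ := h γ
      exact mat_limit U (fun k => ρ k γ) hB
  choose a ha using h1
  refine ⟨⟨⟨a, ?_⟩, fun x y => ?_⟩, ha⟩
  · ext i j
    refine tendsto_nhds_unique (ha 1 i j) ?_
    simp only [map_one]
    exact tendsto_const_nhds
  · ext i j
    refine tendsto_nhds_unique (ha (x * y) i j) ?_
    simp only [map_mul, Matrix.mul_apply]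
    exact tendsto_finsetSum _ fun k _ => (ha x i k).mul (ha y k j)

theorem exists_min_rep [Group Γ] (S : Finset Γ) (hS : Submonoid.closure (S : Set Γ) = ⊤)
    (Z : Set (Γ →* Matrix n n ℂ))
    (hZ : ∀ (U : Ultrafilter ℕ) (ρ : ℕ → Γ →* Matrix n n ℂ) ρ₀, (∀ k, ρ k ∈ Z) → RT U ρ ρ₀ → ρ₀ ∈ Z)
    (hne : Z.Nonempty) (φ : Matrix n n ℂ → ℝ) (h0 : ∀ a, 0 ≤ φ a)
    (hc : ContinuousOn φ {a | IsUnit a})
    (hL : ∀ L : ℝ, ∃ B : ℝ, ∀ a, IsUnit a → φ a ≤ L → ∀ i j, ‖a i j‖ ≤ B) :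
    ∃ ρ ∈ Z, ∀ ρ' ∈ Z, ∑ s ∈ S, φ (ρ s) ≤ ∑ s ∈ S, φ (ρ' s) := by
  let f : (Γ →* Matrix n n ℂ) → ℝ := fun ρ => ∑ s ∈ S, φ (ρ s)
  have hb : BddBelow (f '' Z) := ⟨0, by
    rintro _ ⟨ρ, -, rfl⟩
    exact Finset.sum_nonneg fun s _ => h0 _⟩
  obtain ⟨u, hu, hlim, hmem⟩ := exists_seq_tendsto_sInf (hne.image f) hb
  choose ρ hρZ hρ using hmem
  obtain ⟨B, hB⟩ := hL (u 0)
  have hbd : ∀ k, ∀ s ∈ (S : Set Γ), ∀ i j, ‖ρ k s i j‖ ≤ B := fun k s hs => by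
    refine hB _ (rep_isUnit _ _) ?_
    have h1 : φ (ρ k s) ≤ f (ρ k) :=
      Finset.single_le_sum (f := fun s => φ (ρ k s)) (fun s _ => h0 _) hs
    exact h1.trans ((hρ k).le.trans (hu (Nat.zero_le k)))
  let U : Ultrafilter ℕ := Ultrafilter.of atTop
  obtain ⟨ρ₀, hρ₀⟩ := rep_limit U ρ fun γ => by
    obtain ⟨B', hB'⟩ := rep_bdd (n := n) hS B γ
    exact ⟨B', Eventually.of_forall fun k => hB' _ (hbd k)⟩
  have h2 : Tendsto (fun k => f (ρ k)) U (𝓝 (f ρ₀)) := by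
    refine tendsto_finsetSum _ fun s _ => ?_
    refine (hc (ρ₀ s) (rep_isUnit _ _)).tendsto.comp (f := fun k => ρ k s) ?_
    exact tendsto_nhdsWithin_iff.2 ⟨tendsto_pi_nhds.2 fun i => tendsto_pi_nhds.2 fun j =>
      hρ₀ s i j, Eventually.of_forall fun k => rep_isUnit _ _⟩
  have h3 : Tendsto (fun k => f (ρ k)) U (𝓝 (sInf (f '' Z))) := by
    simp only [hρ]
    exact hlim.mono_left (Ultrafilter.of_le _)
  refine ⟨ρ₀, hZ U ρ ρ₀ hρZ hρ₀, fun ρ' hρ' => ?_⟩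
  exact (tendsto_nhds_unique h2 h3).le.trans (csInf_le hb ⟨ρ', hρ', rfl⟩)

/-- the conjugate of a representation -/
theorem exists_cj [Monoid Γ] (ρ : Γ →* Matrix n n ℂ) {u u' : Matrix n n ℂ} (h : u * u' = 1) :
    ∃ σ : Γ →* Matrix n n ℂ, ∀ γ, σ γ = u' * ρ γ * u := by
  refine ⟨⟨⟨fun γ => u' * ρ γ * u, ?_⟩, fun a b => ?_⟩, fun _ => rfl⟩
  · rw [map_one, Matrix.mul_one, mul_eq_one_comm.1 h]
  · show u' * ρ (a * b) * u = u' * ρ a * u * (u' * ρ b * u)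
    rw [map_mul]
    calc u' * (ρ a * ρ b) * u = u' * ρ a * (u * u') * ρ b * u := by
          rw [h]; simp only [Matrix.mul_one, Matrix.mul_assoc]
      _ = _ := by simp only [Matrix.mul_assoc]

theorem exists_unit_one_add (c : Matrix n n ℂ) : ∃ ε : ℂ, ε ≠ 0 ∧ IsUnit (1 + ε • c) := by
  have h1 : Continuous fun ε : ℂ => (1 + ε • c).det :=
    (continuous_const.add (continuous_id.smul continuous_const)).matrix_det
  have h2 : ∀ᶠ ε : ℂ in 𝓝 0, (1 + ε • c).det ≠ 0 :=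
    h1.continuousAt.eventually_ne (by simp)
  obtain ⟨ε, h3, h4⟩ := ((h2.filter_mono (nhdsWithin_le_nhds (s := {0}ᶜ))).and
    self_mem_nhdsWithin).exists
  exact ⟨ε, h4, (Matrix.isUnit_iff_isUnit_det _).2 h3.isUnit⟩

theorem SSm.cj {a b : Γ → Matrix n n ℂ} (h : SSm a) {u : Matrix n n ℂ} (hu : IsUnit u)
    (hb : ∀ γ, u * b γ = a γ * u) : SSm b := by
  intro W hW
  let e : (n → ℂ) ≃ₗ[ℂ] (n → ℂ) := u.toLinearEquiv' hu.invertible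
  have he : ∀ v, e v = u *ᵥ v := fun v => rfl
  have hk : ∀ γ v, e (b γ *ᵥ v) = a γ *ᵥ e v := fun γ v => by
    rw [he, he, mulVec_mulVec, mulVec_mulVec, hb]
  obtain ⟨W', h1, h2⟩ := h (Submodule.orderIsoMapComap e W) (by
    rintro γ _ ⟨v, hv, rfl⟩
    exact ⟨b γ *ᵥ v, hW γ v hv, hk γ v⟩)
  refine ⟨(Submodule.orderIsoMapComap e).symm W', fun γ v hv => ?_, ?_⟩
  · show e (b γ *ᵥ v) ∈ W'
    rw [hk]
    exact h1 γ _ hv
  · have h3 := (Submodule.orderIsoMapComap e).symm.isCompl h2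
    rwa [OrderIso.symm_apply_apply] at h3

end Pool.Agent.PW.L
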