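import Pool.Agent.P.MP_65ad7c_ag.LDer
import Pool.Agent.P.MP_65ad7c_ag.LRep
import Pool.Agent.P.MP_65ad7c_ag.LInv
import Pool.Agent.P.MP_65ad7c_ag.LJen

open Matrix Filter Topology Set
open scoped ComplexOrder Kronecker

noncomputable section
namespace Pool.Agent.PW.L

variable {n m : Type} [Fintype n] [DecidableEq n] [Fintype m] [DecidableEq m]
  {r : ℕ} {G : Subgroup (GL (Fin r) ℂ)} {Γ : Type}

theorem lg1_md {X : Matrix n n ℂ} (hX : X.IsHermitian) (a : Matrix n n ℂ) :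
    MD (fun t => ex t X * a * ex (-t) X) (X * a - a * X) := by
  have h1 := ((md_ex hX).mul (MD.const a)).mul (md_ex_neg hX)
  simp only [neg_zero, ex_zero hX, mul_zero, add_zero, mul_one, one_mul, mul_neg] at h1
  rw [sub_eq_add_neg]
  exact h1

theorem lg1_der {X : Matrix n n ℂ} (hX : X.IsHermitian) {a b : Matrix n n ℂ} (hab : a * b = 1) :
    HasDerivAt (fun t => ph (ex t X * a * ex (-t) X))
      (-4 * (lg (bᴴ * b) * X).trace.re - 4 * (lg (aᴴ * a) * X).trace.re) 0 := by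
  have hba : b * a = 1 := mul_eq_one_comm.1 hab
  have hu : IsUnit a := ⟨⟨a, b, hab, hba⟩, rfl⟩
  have h1 := ph_hasDerivAt hu (c := fun t => ex t X * a * ex (-t) X)
    (by simp only [neg_zero, ex_zero hX, mul_one, one_mul]) (lg1_md hX a)
  have hi : a⁻¹ = b := Matrix.inv_eq_right_inv hab
  have h2 : (lg (aᴴ * a) * a⁻¹ * (X * a - a * X)).trace
      = -(lg (bᴴ * b) * X).trace - (lg (aᴴ * a) * X).trace := by
    rw [hi, mul_sub, trace_sub]
    congr 1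
    · rw [← mul_assoc, trace_mul_comm, ← mul_assoc, ← mul_assoc, lg_conj hab, neg_mul, trace_neg]
    · rw [mul_assoc, ← mul_assoc b, hba, one_mul]
  rw [h2] at h1
  convert h1 using 1
  simp only [Complex.sub_re, Complex.neg_re]
  ring

variable [Group Γ]

theorem sum_lg_zero (hG : IsRed G) (S : Finset Γ) (hs : ∀ s ∈ S, s⁻¹ ∈ S) (τ : Γ →* G)
    (h : ∀ g : G, ∑ s ∈ S, ph (mat τ s) ≤ ∑ s ∈ S, ph (mat (cjG g τ) s)) :
    ∑ s ∈ S, lg ((mat τ s)ᴴ * mat τ s) = 0 := by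
  set X : Mx r := ∑ s ∈ S, lg ((mat τ s)ᴴ * mat τ s) with hXd
  have hX : X.IsHermitian := by
    rw [hXd]
    unfold Matrix.IsHermitian
    rw [conjTranspose_sum]
    exact Finset.sum_congr rfl fun s _ => fc_herm _ _
  have hL : LieG G X := lieG_sum S fun s _ =>
    lieG_lg (posDef_star_mul (rep_isUnit _ s)) fun J c hc =>
      hc _ (Gs_mul (Gs_star hG (mat_mem τ s)) (mat_mem τ s))
  have hmin : IsLocalMin (fun t : ℝ => ∑ s ∈ S, ph (ex t X * mat τ s * ex (-t) X)) 0 := by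
    refine Filter.Eventually.of_forall fun t => ?_
    obtain ⟨g, hg, hgt⟩ := hL.ex_mem hG hX t
    have h1 := h ⟨g, hg⟩
    have h2 : ((⟨g, hg⟩ : G)⁻¹).1.1 = ex (-t) X := by
      have h3 : ((⟨g, hg⟩ : G)⁻¹).1.1 * ex t X = 1 := by
        rw [← hgt]
        exact Units.inv_mul g
      exact left_inv_eq_right_inv h3 (ex_mul_neg hX t)
    simp only [mat_cjG, h2, hgt] at h1
    simpa only [neg_zero, ex_zero hX, mul_one, one_mul] using h1
  have hder : HasDerivAt (fun t : ℝ => ∑ s ∈ S, ph (ex t X * mat τ s * ex (-t) X))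
      (∑ s ∈ S, (-4 * (lg ((mat τ s⁻¹)ᴴ * mat τ s⁻¹) * X).trace.re
        - 4 * (lg ((mat τ s)ᴴ * mat τ s) * X).trace.re)) 0 :=
    HasDerivAt.fun_sum fun s _ => lg1_der hX (by rw [← map_mul, mul_inv_cancel, map_one])
  have h0 := hmin.hasDerivAt_eq_zero hder
  have h4 : ∑ s ∈ S, (lg ((mat τ s⁻¹)ᴴ * mat τ s⁻¹) * X).trace.re
      = ∑ s ∈ S, (lg ((mat τ s)ᴴ * mat τ s) * X).trace.re :=
    Finset.sum_nbij' (fun s => s⁻¹) (fun s => s⁻¹) hs hs (fun s _ => inv_inv s)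
      (fun s _ => inv_inv s) fun s _ => rfl
  have h5 : ∑ s ∈ S, (lg ((mat τ s)ᴴ * mat τ s) * X).trace.re = fro X := by
    rw [fro_eq, hX.eq, ← Complex.re_sum, ← trace_sum, ← Finset.sum_mul]
  rw [Finset.sum_sub_distrib, ← Finset.mul_sum, ← Finset.mul_sum, h4, h5] at h0
  exact fro_eq_zero (by linarith)

theorem g1 (hG : IsRed G) (S : Finset Γ) (hs : ∀ s ∈ S, s⁻¹ ∈ S)
    (hS : Submonoid.closure (S : Set Γ) = ⊤) (ρ : Γ →* G) :
    ∃ τ : Γ →* G, ev τ = ev ρ ∧ SSm (mat τ) := by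
  obtain ⟨σ, ⟨τ, rfl, hτ⟩, hmin⟩ := exists_min_rep S hS
    {σ : Γ →* Mx r | ∃ τ : Γ →* G, mat τ = σ ∧ ev τ = ev ρ} (by
      intro U σ σ₀ hσ hlim
      choose τ hτ hev using hσ
      obtain ⟨τ₀, rfl⟩ := exists_lift (G := G) σ₀ fun γ =>
        Gs_closed hG (U := (U : Filter ℕ)) (a := fun k => σ k γ)
          (Filter.Eventually.of_forall fun k => by rw [← hτ k]; exact mat_mem _ _)
          (hlim γ) (rep_isUnit _ _)
      have h1 : GT (U : Filter ℕ) τ τ₀ := by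
        intro γ i j
        simpa only [hτ] using hlim γ i j
      have h2 := h1.tendsto_ev
      simp only [hev] at h2
      exact ⟨τ₀, rfl, tendsto_nhds_unique h2 tendsto_const_nhds⟩)
    ⟨mat ρ, ρ, rfl, rfl⟩ ph ph_nonneg continuousOn_ph (fun L => by
      obtain ⟨B, δ, -, hB⟩ := ph_coer (n := Fin r) L
      exact ⟨B, fun a ha hL => (hB a ha hL).1⟩)
  refine ⟨τ, hτ, ssm_of_perp (perp_of_sum_lg S hs hS _ (sum_lg_zero hG S hs τ fun g => ?_))⟩
  exact hmin _ ⟨cjG g τ, rfl, by rw [ev_cjG, hτ]⟩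

end Pool.Agent.PW.L
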