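import Pool.Agent.P.MP_65ad7c_ag.LMu
import Pool.Agent.P.MP_65ad7c_ag.LRep

open Matrix Filter Topology Set
open scoped ComplexOrder Kronecker

noncomputable section
namespace Pool.Agent.PW.L

variable {n m : Type} [Fintype n] [DecidableEq n] [Fintype m] [DecidableEq m]
  {r : ℕ} {G : Subgroup (GL (Fin r) ℂ)} {Γ : Type}

omit [DecidableEq n] in
theorem lg3_fro_smul (c : ℝ) (X : Matrix n n ℂ) : fro ((c : ℂ) • X) = c ^ 2 * fro X := by
  simp only [fro, Matrix.smul_apply, smul_eq_mul, norm_mul, mul_pow, Complex.norm_real,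
    Real.norm_eq_abs, sq_abs, Finset.mul_sum]

theorem lg3_cont {α : Type} (w : FreeMonoid α) :
    Continuous fun v : α → Matrix n n ℂ => FreeMonoid.lift v w := by
  induction w using FreeMonoid.inductionOn' with
  | one => simpa using continuous_const
  | of_mul a w ih =>
    simp only [map_mul, FreeMonoid.lift_eval_of]
    exact (continuous_apply a).matrix_mul ih

theorem lg3_lift [Monoid Γ] {α : Type} (e : α → Γ) (ρ : Γ →* Matrix n n ℂ) (c : ℂ)
    {u u' : Matrix n n ℂ} (h : u * u' = 1) (w : FreeMonoid α) :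
    FreeMonoid.lift (fun s => c • (u' * ρ (e s) * u)) w =
      c ^ w.length • (u' * ρ (FreeMonoid.lift e w) * u) := by
  induction w using FreeMonoid.inductionOn' with
  | one => simp [mul_eq_one_comm.1 h]
  | of_mul a w ih =>
    simp only [map_mul, FreeMonoid.lift_eval_of, ih, FreeMonoid.length_mul, FreeMonoid.length_of,
      Matrix.smul_mul, Matrix.mul_smul, smul_smul]
    rw [pow_add, pow_one, mul_comm c]
    congr 1
    calc u' * ρ (e a) * u * (u' * ρ (FreeMonoid.lift e w) * u)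
        = u' * ρ (e a) * (u * u') * ρ (FreeMonoid.lift e w) * u := by simp only [Matrix.mul_assoc]
      _ = _ := by rw [h]; simp only [Matrix.mul_assoc, Matrix.one_mul]

/-- an almost minimising conjugate -/
theorem lg3_min {α : Type} [Fintype α] (a : α → Matrix n n ℂ) :
    ∃ u u' : Matrix n n ℂ, u * u' = 1 ∧ ∀ w w' : Matrix n n ℂ, w * w' = 1 →
      ∑ s, fro (u' * a s * u) ≤ ∑ s, fro (w' * a s * w) + 1 := by
  set T : Set ℝ := {x | ∃ u u' : Matrix n n ℂ, u * u' = 1 ∧ x = ∑ s, fro (u' * a s * u)} with hT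
  have hne : T.Nonempty := ⟨_, 1, 1, by simp, rfl⟩
  have hb : BddBelow T := ⟨0, by
    rintro x ⟨u, u', -, rfl⟩
    exact Finset.sum_nonneg fun s _ => fro_nonneg _⟩
  obtain ⟨x, ⟨u, u', h, rfl⟩, hx⟩ := exists_lt_of_csInf_lt hne (lt_add_one (sInf T))
  refine ⟨u, u', h, fun w w' hw => ?_⟩
  have := csInf_le hb (show _ ∈ T from ⟨w, w', hw, rfl⟩)
  linarith

/-- bounded traces give bounded conjugates -/
theorem bdd_conj [Monoid Γ] {ι : Type} (U : Ultrafilter ι) (S : Finset Γ)
    (ρ : ι → Γ →* Matrix n n ℂ) (h : ∀ γ, ∃ B : ℝ, ∀ᶠ k in U, ‖(ρ k γ).trace‖ ≤ B) :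
    ∃ N : ℝ, ∀ᶠ k in U, ∃ u u' : Matrix n n ℂ, u * u' = 1 ∧
      ∀ s ∈ S, ∀ i j, ‖(u' * ρ k s * u) i j‖ ≤ N := by
  classical
  by_contra hcon
  choose u u' huu hmin using fun k => lg3_min (fun s : S => ρ k s)
  set E : ι → ℝ := fun k => ∑ s : S, fro (u' k * ρ k s * u k) with hE
  have hE0 : ∀ k, 0 ≤ E k := fun k => Finset.sum_nonneg fun s _ => fro_nonneg _
  have hEle : ∀ k (s : S) i j, ‖(u' k * ρ k s * u k) i j‖ ^ 2 ≤ E k := fun k s i j =>
    (sq_le_fro _ i j).trans (Finset.single_le_sum (f := fun s : S => fro (u' k * ρ k s * u k))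
      (fun s _ => fro_nonneg _) (Finset.mem_univ s))
  have htop : Tendsto E U atTop := by
    rw [tendsto_atTop]
    intro M
    by_contra hM
    rw [← Ultrafilter.eventually_not] at hM
    refine hcon ⟨√M, hM.mono fun k hk => ⟨u k, u' k, huu k, fun s hs i j => ?_⟩⟩
    exact Real.le_sqrt_of_sq_le ((hEle k ⟨s, hs⟩ i j).trans (not_le.1 hk).le)
  set c : ι → ℝ := fun k => (√(E k))⁻¹ with hc
  have hc0 : Tendsto c U (𝓝 0) :=
    tendsto_inv_atTop_zero.comp (Real.tendsto_sqrt_atTop.comp htop)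
  have hc2 : ∀ k, c k ^ 2 = (E k)⁻¹ := fun k => by
    simp only [hc, inv_pow, Real.sq_sqrt (hE0 k)]
  have hpos : ∀ᶠ k in U, 0 < E k := htop.eventually_gt_atTop 0
  set v : ι → S → Matrix n n ℂ := fun k s => (c k : ℂ) • (u' k * ρ k s * u k) with hv
  have hlim : ∀ s : S, ∃ a₀ : Matrix n n ℂ, ∀ i j, Tendsto (fun k => v k s i j) U (𝓝 (a₀ i j)) := by
    intro s
    refine mat_limit U (fun k => v k s) (B := 1) (hpos.mono fun k hk i j => ?_)
    have h1 : ‖v k s i j‖ ^ 2 ≤ 1 := by
      have h2 : ‖v k s i j‖ ^ 2 = (E k)⁻¹ * ‖(u' k * ρ k s * u k) i j‖ ^ 2 := by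
        simp only [hv, Matrix.smul_apply, smul_eq_mul, norm_mul, mul_pow, Complex.norm_real,
          Real.norm_eq_abs, sq_abs, hc2]
      rw [h2, inv_mul_le_iff₀ hk, mul_one]
      exact hEle k s i j
    exact (sq_le_one_iff₀ (norm_nonneg _)).1 h1
  choose v₀ hv₀ using hlim
  have hvt : Tendsto v U (𝓝 v₀) :=
    tendsto_pi_nhds.2 fun s => tendsto_pi_nhds.2 fun i => tendsto_pi_nhds.2 fun j => hv₀ s i j
  have hcont : ∀ g g' : Matrix n n ℂ,
      Continuous fun x : S → Matrix n n ℂ => ∑ s, fro (g' * x s * g) := fun g g' =>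
    continuous_finsetSum _ fun s _ => continuous_fro.comp
      ((continuous_const.matrix_mul (continuous_apply s)).matrix_mul continuous_const)
  have hval : ∀ k (g g' : Matrix n n ℂ), ∑ s, fro (g' * v k s * g) =
      (E k)⁻¹ * ∑ s : S, fro (g' * u' k * ρ k s * (u k * g)) := fun k g g' => by
    rw [Finset.mul_sum]
    refine Finset.sum_congr rfl fun s _ => ?_
    simp only [hv, Matrix.mul_smul, Matrix.smul_mul, lg3_fro_smul, hc2, Matrix.mul_assoc]
  have hone : ∑ s, fro (v₀ s) = 1 := by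
    have h1 := ((hcont 1 1).tendsto v₀).comp hvt
    have h2 : (fun x : S → Matrix n n ℂ => ∑ s, fro (1 * x s * 1)) ∘ v =ᶠ[U] fun _ => (1 : ℝ) := by
      filter_upwards [hpos] with k hk
      rw [Function.comp_apply, hval]
      simp only [Matrix.one_mul, Matrix.mul_one]
      exact inv_mul_cancel₀ hk.ne'
    have h3 := tendsto_nhds_unique (h1.congr' h2) tendsto_const_nhds
    simpa using h3
  have hmu : mu v₀ = 0 := by
    refine mu_of_min v₀ fun g g' hg => ?_
    rw [hone]
    have h1 := ((hcont g g').tendsto v₀).comp hvt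
    have h2 : Tendsto (fun k => 1 - (E k)⁻¹) U (𝓝 (1 - 0)) :=
      tendsto_const_nhds.sub (tendsto_inv_atTop_zero.comp htop)
    rw [sub_zero] at h2
    refine le_of_tendsto_of_tendsto h2 h1 ?_
    filter_upwards [hpos] with k hk
    have h3 := hmin k (u k * g) (g' * u' k) (by
      rw [Matrix.mul_assoc, ← Matrix.mul_assoc g, hg, Matrix.one_mul, huu])
    rw [Function.comp_apply, hval, le_inv_mul_iff₀ hk, mul_sub, mul_one, mul_inv_cancel₀ hk.ne']
    exact sub_le_iff_le_add.2 h3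
  have hnil : v₀ = 0 := by
    refine nil_of_mu v₀ hmu fun w hw => ?_
    have h1 := (((lg3_cont w).matrix_trace).tendsto v₀).comp hvt
    obtain ⟨B, hB⟩ := h (FreeMonoid.lift (fun s : S => (s : Γ)) w)
    have hlen : w.length ≠ 0 := fun h0 => hw (FreeMonoid.length_eq_zero.1 h0)
    have h2 : Tendsto (fun k => ‖c k‖ ^ w.length * B) U (𝓝 0) := by
      have := (hc0.norm.pow w.length).mul_const B
      simpa [hlen] using this
    refine tendsto_nhds_unique h1 (squeeze_zero_norm' ?_ h2)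
    filter_upwards [hB] with k hk
    have h3 : (FreeMonoid.lift (v k) w).trace = (c k : ℂ) ^ w.length *
        (ρ k (FreeMonoid.lift (fun s : S => (s : Γ)) w)).trace := by
      rw [show v k = fun s : S => (c k : ℂ) • (u' k * ρ k ((fun s : S => (s : Γ)) s) * u k) from rfl,
        lg3_lift _ _ _ (huu k), trace_smul, smul_eq_mul, trace_mul_cycle, huu, Matrix.one_mul]
    rw [Function.comp_apply, h3, norm_mul, norm_pow, Complex.norm_real]
    exact mul_le_mul_of_nonneg_left hk (by positivity)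
  rw [hnil] at hone
  simp [fro] at hone

end Pool.Agent.PW.L
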