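import Pool.Agent.P.MP_65ad7c_ag.LRot
import Pool.Agent.P.MP_65ad7c_ag.LG1
import Pool.Agent.P.MP_65ad7c_ag.LG3
import Pool.Agent.P.MP_65ad7c_ag.LPt

open Matrix Filter Topology Set
open scoped ComplexOrder Kronecker

noncomputable section
namespace Pool.Agent.PW.L

variable {n m : Type} [Fintype n] [DecidableEq n] [Fintype m] [DecidableEq m]
  {r : ℕ} {G : Subgroup (GL (Fin r) ℂ)} {Γ : Type}

variable [Group Γ] (K : RotSys Γ)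

include K in
theorem lflow_rep (hG : IsRed G) {y : Inv Γ G → ℂ} (hy : y ∈ MB G Γ) :
    ∃ ρ : Γ →* G, ev ρ = y ∧ SSm (mat ρ) := by
  obtain ⟨ρ, hρ⟩ := ev_surj hG K.S K.gen hy
  obtain ⟨τ, h1, h2⟩ := g1 hG K.S K.symm K.gen ρ
  exact ⟨τ, h1.trans hρ, h2⟩

theorem sml_ev (hG : IsRed G) {ι : Type} (U : Ultrafilter ι) {y : ι → Inv Γ G → ℂ}
    {y₀ : Inv Γ G → ℂ} (hy : ∀ᶠ k in U, y k ∈ MB G Γ) (h : Tendsto y U (𝓝 y₀)) :
    ∃ N : ℝ, ∀ᶠ k in U, Sml K.S N (y k) := by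
  have hex : ∀ k, ∃ ρ : Γ →* G, y k ∈ MB G Γ → ev ρ = y k ∧ SSm (mat ρ) := by
    intro k
    by_cases hk : y k ∈ MB G Γ
    · obtain ⟨ρ, h⟩ := lflow_rep K hG hk
      exact ⟨ρ, fun _ => h⟩
    · exact ⟨1, fun h => absurd h hk⟩
  choose ρ hρ using hex
  have hb : ∀ γ, ∃ B : ℝ, ∀ᶠ k in U, ‖(mat (ρ k) γ).trace‖ ≤ B := by
    intro γ
    let f : Inv Γ G := ⟨_, trace_mem γ⟩
    have h1 : Tendsto (fun k => ‖y k f‖) U (𝓝 ‖y₀ f‖) := ((tendsto_pi_nhds.1 h) f).norm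
    refine ⟨‖y₀ f‖ + 1, ?_⟩
    filter_upwards [hy, h1.eventually (Iio_mem_nhds (lt_add_one _))] with k hk hk'
    have : y k f = (mat (ρ k) γ).trace := by rw [← (hρ k hk).1]; rfl
    rw [← this]
    exact le_of_lt hk'
  obtain ⟨N, hN⟩ := bdd_conj U K.S (fun k => mat (ρ k)) hb
  refine ⟨N, ?_⟩
  filter_upwards [hy, hN] with k hk ⟨u, u', huu, hs⟩
  obtain ⟨σ, hσ⟩ := exists_cj (mat (ρ k)) huu
  have hu : IsUnit u := IsUnit.of_mul_eq_one u' huu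
  have hi : ∀ γ, u * σ γ = mat (ρ k) γ * u := by
    intro γ
    rw [hσ, ← Matrix.mul_assoc, ← Matrix.mul_assoc, huu, Matrix.one_mul]
  refine ⟨ρ k, σ, u, (hρ k hk).1, (hρ k hk).2.cj hu hi, hu, hi, fun s hs' i j => ?_⟩
  rw [hσ]
  exact hs s hs' i j

theorem URel.rot {C t : ℝ} {τ τ' : Γ →* G} (h : URel K C t (mat τ) (mat τ')) : Rot K t τ τ' :=
  h.rel K

theorem lflow_exi (hG : IsRed G) (hr : 0 < r) {y : Inv Γ G → ℂ} (hy : y ∈ MB G Γ) :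
    ∃ (τ : Γ →* G) (F : ℝ → Γ →* G), ev τ = y ∧ (AnR fun t => mat (F t)) ∧
      ∀ t, Rot K t τ (F t) ∧ Rot K (-t) (F t) τ := by
  obtain ⟨N, hN⟩ := sml_ev K hG (pure () : Ultrafilter Unit) (y := fun _ => y) (y₀ := y)
    (Eventually.of_forall fun _ => hy) tendsto_const_nhds
  obtain ⟨C, hC⟩ := rot_exists K hG hr N
  obtain ⟨τ, F, h1, h2, h3⟩ := hC y hN.exists.choose_spec
  exact ⟨τ, F, h1, h2, fun t => ⟨(h3 t).1.rot K, (h3 t).2⟩⟩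

theorem exists_Flow (hG : IsRed G) (hr : 0 < r) :
    ∃ Ψ : (Inv Γ G → ℂ) → ℝ → Inv Γ G → ℂ, Flow K Ψ := by
  have hex : ∀ y : Inv Γ G → ℂ, ∃ (τ : Γ →* G) (F : ℝ → Γ →* G), y ∈ MB G Γ →
      ev τ = y ∧ ∀ t, Rot K t τ (F t) := by
    intro y
    by_cases hy : y ∈ MB G Γ
    · obtain ⟨τ, F, h1, -, h3⟩ := lflow_exi K hG hr hy
      exact ⟨τ, F, fun _ => ⟨h1, fun t => (h3 t).1⟩⟩
    · exact ⟨1, fun _ => 1, fun h => absurd h hy⟩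
  choose τ F hF using hex
  have hrot : ∀ t (σ σ' : Γ →* G), Rot K t σ σ' → ev (F (ev σ) t) = ev σ' := fun t σ σ' h =>
    rot_wd K hG ((hF _ (ev_mem σ)).2 t) h (hF _ (ev_mem σ)).1
  refine ⟨fun y t => ev (F y t), hrot, fun y hy => lflow_exi K hG hr hy, ?_⟩
  rintro ⟨y₀, t₀⟩ ⟨hy₀, -⟩
  refine tendsto_iff_ultrafilter _ _ _ |>.2 fun U hU => ?_
  have hU1 : (U : Filter _) ≤ 𝓝 (y₀, t₀) := hU.trans nhdsWithin_le_nhds
  have hmem : ∀ᶠ p in (U : Filter ((Inv Γ G → ℂ) × ℝ)), p.1 ∈ MB G Γ :=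
    mem_of_superset (hU self_mem_nhdsWithin) fun p hp => hp.1
  have hy : Tendsto (fun p : (Inv Γ G → ℂ) × ℝ => p.1) U (𝓝 y₀) :=
    (continuous_fst.tendsto _).mono_left hU1
  have ht : Tendsto (fun p : (Inv Γ G → ℂ) × ℝ => p.2) U (𝓝 t₀) :=
    (continuous_snd.tendsto _).mono_left hU1
  obtain ⟨N, hN⟩ := sml_ev K hG U hmem hy
  obtain ⟨C, hC⟩ := rot_exists K hG hr N
  have hex : ∀ p : (Inv Γ G → ℂ) × ℝ, ∃ σ σ' : Γ →* G, Sml K.S N p.1 →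
      ev σ = p.1 ∧ URel K C p.2 (mat σ) (mat σ') := by
    intro p
    by_cases hp : Sml K.S N p.1
    · obtain ⟨σ, F', h1, -, h3⟩ := hC p.1 hp
      exact ⟨σ, F' p.2, fun _ => ⟨h1, (h3 p.2).1⟩⟩
    · exact ⟨1, 1, fun h => absurd h hp⟩
  choose σ σ' hσ using hex
  obtain ⟨σ₀, σ₀', h0, h1, h2⟩ := rot_lim K hG U (τ := σ) (τ' := σ')
    (hN.mono fun p hp => (hσ p hp).2) ht
  have e0 : ev σ₀ = y₀ :=
    tendsto_nhds_unique (h1.tendsto_ev.congr' (hN.mono fun p hp => (hσ p hp).1)) hy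
  have e1 : ev (F y₀ t₀) = ev σ₀' := by rw [← e0]; exact hrot _ _ _ h0
  show Tendsto (fun p : (Inv Γ G → ℂ) × ℝ => ev (F p.1 p.2)) U (𝓝 (ev (F y₀ t₀)))
  rw [e1]
  refine h2.tendsto_ev.congr' (hN.mono fun p hp => ?_)
  have := hrot _ _ _ ((hσ p hp).2.rot K)
  rw [(hσ p hp).1] at this
  exact this.symm

end Pool.Agent.PW.L
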