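import Pool.Agent.P.MP_65ad7c_ag.LDefs

open Matrix Filter Topology Set
open scoped ComplexOrder Kronecker

noncomputable section
namespace Pool.Agent.PW.L

variable {n m : Type} [Fintype n] [DecidableEq n] [Fintype m] [DecidableEq m]
  {r : ℕ} {G : Subgroup (GL (Fin r) ℂ)} {Γ : Type}

/-- fixing the first slot of the row and of the column -/
def lfunCut {κ : Type} (J : ℕ) (u v : κ) :
    Matrix (Fin (J + 1) → κ) (Fin (J + 1) → κ) ℂ →ₗ[ℂ] Matrix (Fin J → κ) (Fin J → κ) ℂ where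
  toFun T := Matrix.of fun x y => T (Fin.cons u x) (Fin.cons v y)
  map_add' _ _ := rfl
  map_smul' _ _ := rfl

theorem lfun_cut_tp {κ : Type} (J : ℕ) (u v : κ) (M : Fin (J + 1) → Matrix κ κ ℂ) :
    lfunCut J u v (tp M) = M 0 u v • tp (fun i : Fin J => M i.succ) := by
  ext x y
  change tp M (Fin.cons u x) (Fin.cons v y) = M 0 u v * tp (fun i : Fin J => M i.succ) x y
  rw [tp_apply, tp_apply, Fin.prod_univ_succ]
  simp only [Fin.cons_zero, Fin.cons_succ]

/-- one entry of a matrix -/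
def lfunEntry {κ : Type} (u v : κ) : Matrix κ κ ℂ →ₗ[ℂ] ℂ where
  toFun T := T u v
  map_add' _ _ := rfl
  map_smul' _ _ := rfl

omit [Fintype n] [DecidableEq n] in
theorem lfun_pev_C (a : Matrix n n ℂ) (c : ℂ) : pev a (MvPolynomial.C c) = c := by
  simp [pev]

omit [Fintype n] [DecidableEq n] in
theorem lfun_pev_add (a : Matrix n n ℂ) (p q : MvPolynomial (n × n) ℂ) :
    pev a (p + q) = pev a p + pev a q := by
  simp [pev]

omit [Fintype n] [DecidableEq n] in
theorem lfun_pev_mul_X (a : Matrix n n ℂ) (p : MvPolynomial (n × n) ℂ) (x : n × n) :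
    pev a (p * MvPolynomial.X x) = pev a p * a x.1 x.2 := by
  simp [pev]

/-- polynomials are linear functionals of the tensor powers -/
theorem exists_fun (p : MvPolynomial (n × n) ℂ) : ∃ J₀ : ℕ, ∀ J, J₀ ≤ J →
    ∃ l : Matrix (Fin J → Option n) (Fin J → Option n) ℂ →ₗ[ℂ] ℂ, ∀ a, l (RJ J a) = pev a p := by
  induction p using MvPolynomial.induction_on with
  | C c =>
    refine ⟨0, fun J _ => ⟨c • lfunEntry (fun _ => none) (fun _ => none), fun a => ?_⟩⟩
    rw [lfun_pev_C, LinearMap.smul_apply]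
    change c * tp (fun _ : Fin J => ox 1 a) (fun _ => none) (fun _ => none) = c
    rw [tp_apply]
    simp
  | add p q hp hq =>
    obtain ⟨J₁, h₁⟩ := hp
    obtain ⟨J₂, h₂⟩ := hq
    refine ⟨max J₁ J₂, fun J hJ => ?_⟩
    obtain ⟨l₁, hl₁⟩ := h₁ J (le_trans (le_max_left _ _) hJ)
    obtain ⟨l₂, hl₂⟩ := h₂ J (le_trans (le_max_right _ _) hJ)
    refine ⟨l₁ + l₂, fun a => ?_⟩
    rw [LinearMap.add_apply, hl₁, hl₂, lfun_pev_add]
  | mul_X p x hp =>
    obtain ⟨J₁, h₁⟩ := hp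
    refine ⟨J₁ + 1, fun J hJ => ?_⟩
    obtain ⟨J', rfl⟩ : ∃ J', J = J' + 1 := ⟨J - 1, by omega⟩
    obtain ⟨l₁, hl₁⟩ := h₁ J' (by omega)
    refine ⟨l₁.comp (lfunCut J' (some x.1) (some x.2)), fun a => ?_⟩
    rw [LinearMap.comp_apply, RJ_apply, lfun_cut_tp, map_smul, ← RJ_apply, hl₁, lfun_pev_mul_X,
      ox_ss, smul_eq_mul, mul_comm]

theorem lfun_cut_right (J : ℕ) (g a : Matrix n n ℂ) (i j : n) :
    lfunCut J (some i) (some j) (RJ (J + 1) g * sl 0 a) = (g * a) i j • RJ J g := by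
  rw [RJ_apply, sl, tp_mul, lfun_cut_tp, RJ_apply]
  simp only [Function.update_self, ox_mul, ox_ss, ne_eq, Fin.succ_ne_zero, not_false_eq_true,
    Function.update_of_ne, mul_one]

theorem lfun_cut_left (J : ℕ) (g b : Matrix n n ℂ) (i j : n) :
    lfunCut J (some i) (some j) (sl 0 b * RJ (J + 1) g) = (b * g) i j • RJ J g := by
  rw [RJ_apply, sl, tp_mul, lfun_cut_tp, RJ_apply]
  simp only [Function.update_self, ox_mul, ox_ss, ne_eq, Fin.succ_ne_zero, not_false_eq_true,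
    Function.update_of_ne, one_mul]

theorem exists_fun_slice (q : MvPolynomial (n × n) ℂ) (a b : Matrix n n ℂ) (i j : n) :
    ∃ J₀ : ℕ, ∀ J, J₀ ≤ J → ∃ l : Matrix (Fin J → Option n) (Fin J → Option n) ℂ →ₗ[ℂ] ℂ,
      (∀ g, l (RJ J g) = pev g q * (g * a - b * g) i j) ∧
      ∀ T, (∀ k, T * sl k a = sl k b * T) → l T = 0 := by
  obtain ⟨J₁, h₁⟩ := exists_fun q
  refine ⟨J₁ + 1, fun J hJ => ?_⟩
  obtain ⟨J', rfl⟩ : ∃ J', J = J' + 1 := ⟨J - 1, by omega⟩
  obtain ⟨l₁, hl₁⟩ := h₁ J' (by omega)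
  refine ⟨l₁.comp ((lfunCut J' (some i) (some j)).comp
    (LinearMap.mulRight ℂ (sl 0 a) - LinearMap.mulLeft ℂ (sl 0 b))), fun g => ?_, fun T hT => ?_⟩
  · rw [LinearMap.comp_apply, LinearMap.comp_apply, LinearMap.sub_apply, LinearMap.mulRight_apply,
      LinearMap.mulLeft_apply, map_sub, lfun_cut_right, lfun_cut_left, map_sub, map_smul, map_smul,
      hl₁, Matrix.sub_apply, smul_eq_mul, smul_eq_mul]
    ring
  · rw [LinearMap.comp_apply, LinearMap.comp_apply, LinearMap.sub_apply, LinearMap.mulRight_apply,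
      LinearMap.mulLeft_apply, hT 0, sub_self, map_zero, map_zero]

theorem exists_det_poly : ∃ p : MvPolynomial (n × n) ℂ, ∀ a : Matrix n n ℂ, pev a p = a.det := by
  refine ⟨(Matrix.mvPolynomialX n n ℂ).det, fun a => ?_⟩
  unfold pev
  rw [RingHom.map_det]
  congr 1
  ext i j
  simp [Matrix.mvPolynomialX]

theorem tendsto_pev {ι : Type} {U : Filter ι} {a : ι → Matrix n n ℂ} {a₀ : Matrix n n ℂ}
    (h : ∀ i j, Tendsto (fun k => a k i j) U (𝓝 (a₀ i j))) (p : MvPolynomial (n × n) ℂ) :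
    Tendsto (fun k => pev (a k) p) U (𝓝 (pev a₀ p)) := by
  induction p using MvPolynomial.induction_on with
  | C c =>
    simp only [lfun_pev_C]
    exact tendsto_const_nhds
  | add p q hp hq =>
    simp only [lfun_pev_add]
    exact hp.add hq
  | mul_X p x hp =>
    simp only [lfun_pev_mul_X]
    exact hp.mul (h x.1 x.2)

end Pool.Agent.PW.L
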