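import Pool.Agent.P.MP_65ad7c_ag.LInv

open Matrix Filter Topology Set
open scoped ComplexOrder Kronecker

noncomputable section
namespace Pool.Agent.PW.L

variable {n m : Type} [Fintype n] [DecidableEq n] [Fintype m] [DecidableEq m]
  {r : ℕ} {G : Subgroup (GL (Fin r) ℂ)} {Γ : Type}

variable [Group Γ]

theorem lgood_mul (g h : G) : (g * h).1.1 = g.1.1 * h.1.1 := rfl

theorem lgood_one : (1 : G).1.1 = 1 := rfl

theorem lgood_inv_star {g g' : G} (h : g'.1.1 = g.1.1ᴴ) : (g'⁻¹).1.1 = (g⁻¹).1.1ᴴ := by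
  have h1 : (g'⁻¹).1.1 * g'.1.1 = 1 := by rw [← lgood_mul, inv_mul_cancel, lgood_one]
  have h2 : g'.1.1 * (g⁻¹).1.1ᴴ = 1 := by
    rw [h, ← conjTranspose_mul, ← lgood_mul, inv_mul_cancel, lgood_one, conjTranspose_one]
  exact left_inv_eq_right_inv h1 h2

/-- the conjugation action on matrices -/
def lgood_ad (G : Subgroup (GL (Fin r) ℂ)) : G →* Matrix (Fin r × Fin r) (Fin r × Fin r) ℂ where
  toFun g := g.1.1 ⊗ₖ (g⁻¹).1.1ᵀ
  map_one' := by rw [inv_one, lgood_one, transpose_one, one_kronecker_one]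
  map_mul' g h := by
    rw [_root_.mul_inv_rev, lgood_mul, lgood_mul, transpose_mul, mul_kronecker_mul]

theorem lgood_ad_apply (g : G) : lgood_ad G g = g.1.1 ⊗ₖ (g⁻¹).1.1ᵀ := rfl

theorem lgood_cj (g : G) (ρ : Γ →* G) (γ : Γ) :
    (cjG g ρ γ).1.1 = g.1.1 * (ρ γ).1.1 * (g⁻¹).1.1 := rfl

theorem good_entry (γ : Γ) (i j : Fin r) : Good fun (_ : Unit) (ρ : Γ →* G) => (ρ γ).1.1 i j := by
  refine ⟨Fin r × Fin r, inferInstance, inferInstance, lgood_ad G,
    fun ρ p => (ρ γ).1.1 p.1 p.2, fun _ => Pi.single (i, j) 1, fun g g' h => ?_, fun g ρ => ?_,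
    fun _ ρ => ?_⟩
  · rw [lgood_ad_apply, lgood_ad_apply, conjTranspose_kronecker, lgood_inv_star h, h]
    rfl
  · funext p
    beta_reduce
    rw [lgood_cj, lgood_ad_apply]
    simp only [Matrix.mul_apply, mulVec, dotProduct, Fintype.sum_prod_type, kroneckerMap_apply,
      transpose_apply, Finset.sum_mul]
    rw [Finset.sum_comm]
    exact Finset.sum_congr rfl fun a _ => Finset.sum_congr rfl fun b _ => by ring
  · rw [single_dotProduct, one_mul]

theorem good_const (c : ℂ) : Good fun (_ : Unit) (_ : Γ →* G) => c := by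
  refine ⟨Unit, inferInstance, inferInstance, 1, fun _ _ => c, fun _ _ => 1, fun g g' _ => ?_,
    fun g ρ => ?_, fun _ ρ => ?_⟩
  · rw [MonoidHom.one_apply, MonoidHom.one_apply, conjTranspose_one]
  · rw [MonoidHom.one_apply, one_mulVec]
  · simp [dotProduct]

/-- direct sum of two representations -/
def lgood_ds (π : G →* Matrix n n ℂ) (π' : G →* Matrix m m ℂ) :
    G →* Matrix (n ⊕ m) (n ⊕ m) ℂ where
  toFun g := fromBlocks (π g) 0 0 (π' g)
  map_one' := by rw [map_one, map_one, fromBlocks_one]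
  map_mul' g h := by simp [fromBlocks_multiply]

theorem lgood_ds_apply (π : G →* Matrix n n ℂ) (π' : G →* Matrix m m ℂ) (g : G) :
    lgood_ds π π' g = fromBlocks (π g) 0 0 (π' g) := rfl

/-- tensor product of two representations -/
def lgood_tn (π : G →* Matrix n n ℂ) (π' : G →* Matrix m m ℂ) :
    G →* Matrix (n × m) (n × m) ℂ where
  toFun g := π g ⊗ₖ π' g
  map_one' := by rw [map_one, map_one, one_kronecker_one]
  map_mul' g h := by rw [map_mul, map_mul, mul_kronecker_mul]

theorem lgood_tn_apply (π : G →* Matrix n n ℂ) (π' : G →* Matrix m m ℂ) (g : G) :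
    lgood_tn π π' g = π g ⊗ₖ π' g := rfl

theorem Good.sum {κ κ' : Type} {f : κ → (Γ →* G) → ℂ} {f' : κ' → (Γ →* G) → ℂ} (h : Good f)
    (h' : Good f') : Good (Sum.elim f f') := by
  obtain ⟨n, _, _, π, v, l, h1, h2, h3⟩ := h
  obtain ⟨m, _, _, π', v', l', h1', h2', h3'⟩ := h'
  refine ⟨n ⊕ m, inferInstance, inferInstance, lgood_ds π π', fun ρ => Sum.elim (v ρ) (v' ρ),
    Sum.elim (fun k => Sum.elim (l k) 0) fun k => Sum.elim 0 (l' k), fun g g' h => ?_,
    fun g ρ => ?_, fun k ρ => ?_⟩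
  · rw [lgood_ds_apply, lgood_ds_apply, fromBlocks_conjTranspose, conjTranspose_zero,
      conjTranspose_zero, h1 g g' h, h1' g g' h]
  · beta_reduce
    rw [lgood_ds_apply, fromBlocks_mulVec, h2, h2']
    simp
  · rcases k with k | k
    · simp [sumElim_dotProduct_sumElim, h3]
    · simp [sumElim_dotProduct_sumElim, h3']

theorem Good.mul {f f' : (Γ →* G) → ℂ} (h : Good fun _ : Unit => f) (h' : Good fun _ : Unit => f') :
    Good fun _ : Unit => f * f' := by
  obtain ⟨n, _, _, π, v, l, h1, h2, h3⟩ := h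
  obtain ⟨m, _, _, π', v', l', h1', h2', h3'⟩ := h'
  refine ⟨n × m, inferInstance, inferInstance, lgood_tn π π', fun ρ p => v ρ p.1 * v' ρ p.2,
    fun k p => l k p.1 * l' k p.2, fun g g' h => ?_, fun g ρ => ?_, fun k ρ => ?_⟩
  · rw [lgood_tn_apply, lgood_tn_apply, conjTranspose_kronecker, h1 g g' h, h1' g g' h]
  · funext p
    beta_reduce
    rw [lgood_tn_apply, h2, h2']
    simp only [mulVec, dotProduct, Fintype.sum_prod_type, kroneckerMap_apply,
      Finset.sum_mul_sum]
    exact Finset.sum_congr rfl fun a _ => Finset.sum_congr rfl fun b _ => by ring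
  · have e := h3 k ρ
    have e' := h3' k ρ
    beta_reduce at e e' ⊢
    rw [Pi.mul_apply, e, e']
    simp only [dotProduct, Fintype.sum_prod_type, Finset.sum_mul_sum]
    exact Finset.sum_congr rfl fun a _ => Finset.sum_congr rfl fun b _ => by ring

theorem Good.add {f f' : (Γ →* G) → ℂ} (h : Good fun _ : Unit => f) (h' : Good fun _ : Unit => f') :
    Good fun _ : Unit => f + f' := by
  obtain ⟨n, i1, i2, π, v, l, h1, h2, h3⟩ := h.sum h'
  refine ⟨n, i1, i2, π, v, fun k => l (Sum.inl k) + l (Sum.inr k), h1, h2, fun k ρ => ?_⟩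
  rw [add_dotProduct, ← h3, ← h3]
  rfl

theorem lgood_comp {κ κ' : Type} {f : κ → (Γ →* G) → ℂ} (h : Good f) (e : κ' → κ) :
    Good fun k => f (e k) := by
  obtain ⟨n, i1, i2, π, v, l, h1, h2, h3⟩ := h
  exact ⟨n, i1, i2, π, v, fun k => l (e k), h1, h2, fun k ρ => h3 (e k) ρ⟩

theorem lgood_one_mem {f : (Γ →* G) → ℂ} (h : f ∈ OO G Γ) : Good fun _ : Unit => f := by
  induction h using Algebra.adjoin_induction with
  | mem x hx =>
    obtain ⟨γ, i, j, rfl⟩ := hx
    exact good_entry γ i j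
  | algebraMap c => exact good_const c
  | add x y _ _ hx hy => exact hx.add hy
  | mul x y _ _ hx hy => exact hx.mul hy

theorem good_of_mem {κ : Type} [Finite κ] {f : κ → (Γ →* G) → ℂ} (h : ∀ k, f k ∈ OO G Γ) :
    Good f := by
  induction κ using Finite.induction_empty_option with
  | of_equiv e ih =>
    have := lgood_comp (ih (f := fun k => f (e k)) fun k => h (e k)) e.symm
    simpa only [Equiv.apply_symm_apply] using this
  | h_empty =>
    have := lgood_comp (good_const (Γ := Γ) (G := G) 0) fun _ : PEmpty => ()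
    exact (funext fun k => k.elim : (fun _ : PEmpty => fun _ : Γ →* G => (0 : ℂ)) = f) ▸ this
  | h_option ih =>
    have := lgood_comp ((lgood_one_mem (h none)).sum (ih (f := fun k => f (some k))
      fun k => h (some k))) fun k => Option.elim k (Sum.inl ()) Sum.inr
    refine (funext fun k => ?_ : _ = f) ▸ this
    cases k <;> rfl

end Pool.Agent.PW.L
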