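import Pool.Agent.P.MP_65ad7c_ag.LGA

open Matrix Filter Topology Set
open scoped ComplexOrder Kronecker

noncomputable section
namespace Pool.Agent.PW.L

variable {n m : Type} [Fintype n] [DecidableEq n] [Fintype m] [DecidableEq m]
  {r : ℕ} {G : Subgroup (GL (Fin r) ℂ)} {Γ : Type}

variable [Group Γ]

theorem ev_mem (ρ : Γ →* G) : ev ρ ∈ MB G Γ := by
  exact ⟨(Pi.evalAlgHom ℂ (fun _ : Γ →* G => ℂ) ρ).comp (Inv Γ G).val, rfl⟩

theorem ev_cjG (g : G) (ρ : Γ →* G) : ev (cjG g ρ) = ev ρ := by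
  funext f
  exact (mem_Inv.1 f.2).2 g ρ

theorem mat_cjG (g : G) (ρ : Γ →* G) (γ : Γ) :
    mat (cjG g ρ) γ = g.1.1 * mat ρ γ * (g⁻¹).1.1 := by
  rfl

theorem mat_injective : Function.Injective (mat : (Γ →* G) → Γ →* Mx r) := by
  intro ρ ρ' h
  ext1 γ
  have h1 : mat ρ γ = mat ρ' γ := by rw [h]
  exact Subtype.ext (Units.ext h1)

theorem GT.tendsto {ι : Type} {U : Filter ι} {ρ : ι → Γ →* G} {ρ₀ : Γ →* G} (h : GT U ρ ρ₀)
    {f : (Γ →* G) → ℂ} (hf : f ∈ OO G Γ) : Tendsto (fun k => f (ρ k)) U (𝓝 (f ρ₀)) := by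
  unfold OO at hf
  induction hf using Algebra.adjoin_induction with
  | mem e he =>
    obtain ⟨γ, i, j, rfl⟩ := he
    exact h γ i j
  | algebraMap c => exact tendsto_const_nhds
  | add a b _ _ ha hb => exact ha.add hb
  | mul a b _ _ ha hb => exact ha.mul hb

theorem GT.tendsto_ev {ι : Type} {U : Filter ι} {ρ : ι → Γ →* G} {ρ₀ : Γ →* G} (h : GT U ρ ρ₀) :
    Tendsto (fun k => ev (ρ k)) U (𝓝 (ev ρ₀)) := by
  exact tendsto_pi_nhds.2 fun f => h.tendsto (mem_Inv.1 f.2).1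

theorem analytic_OO {F : ℝ → Γ →* G} (hF : AnR fun t => mat (F t)) {f : (Γ →* G) → ℂ}
    (hf : f ∈ OO G Γ) : AnalyticOnNhd ℝ (fun t => f (F t)) univ := by
  unfold OO at hf
  induction hf using Algebra.adjoin_induction with
  | mem e he =>
    obtain ⟨γ, i, j, rfl⟩ := he
    exact hF γ i j
  | algebraMap c => exact analyticOnNhd_const
  | add a b _ _ ha hb => exact ha.add hb
  | mul a b _ _ ha hb => exact ha.mul hb

theorem trace_mem (γ : Γ) : (fun ρ : Γ →* G => (mat ρ γ).trace) ∈ Inv Γ G := by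
  refine mem_Inv.2 ⟨?_, fun g ρ => ?_⟩
  · have e : (fun ρ : Γ →* G => (mat ρ γ).trace)
        = ∑ i : Fin r, fun ρ : Γ →* G => (ρ γ).1.1 i i := by
      funext ρ
      rw [Finset.sum_apply]
      rfl
    rw [e]
    exact Subalgebra.sum_mem _ fun i _ => Algebra.subset_adjoin ⟨γ, i, i, rfl⟩
  · have e : (g⁻¹).1.1 * g.1.1 = (1 : Mx r) := by
      rw [Subgroup.coe_inv]
      exact Units.inv_mul _
    show (mat (cjG g ρ) γ).trace = (mat ρ γ).trace
    rw [mat_cjG, Matrix.trace_mul_cycle, e, Matrix.one_mul]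

end Pool.Agent.PW.L
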