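import Pool.Agent.P.MP_65ad7c_ag.LFc
import Pool.Agent.P.MP_65ad7c_ag.LProj

open Matrix Filter Topology Set
open scoped ComplexOrder Kronecker

noncomputable section
namespace Pool.Agent.PW.L

variable {n m : Type} [Fintype n] [DecidableEq n] [Fintype m] [DecidableEq m]
  {r : ℕ} {G : Subgroup (GL (Fin r) ℂ)} {Γ : Type}

omit [Fintype m] [DecidableEq m] in
theorem ljen0_diag (w : Matrix n m ℂ) (l : n → ℝ) (j : m) :
    (wᴴ * diagonal (fun i => (l i : ℂ)) * w) j j = ((∑ i, l i * ‖w i j‖ ^ 2 : ℝ) : ℂ) := by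
  rw [Matrix.mul_apply, Complex.ofReal_sum]
  refine Finset.sum_congr rfl fun i _ => ?_
  rw [Matrix.mul_diagonal, Matrix.conjTranspose_apply]
  have h := Complex.conj_mul' (w i j)
  have h2 : star (w i j) * (l i : ℂ) * w i j = (l i : ℂ) * ((starRingEnd ℂ) (w i j) * w i j) := by
    rw [Complex.star_def]; ring
  rw [h2, h]
  push_cast
  ring

omit [DecidableEq n] [DecidableEq m] in
theorem ljen0_scalar (w : n → m → ℝ) (hw : ∀ i j, 0 ≤ w i j) (l : n → ℝ) (hl : ∀ i, 0 < l i)
    (e : m → ℝ) (he : ∀ j, 0 < e j) (h1 : ∀ j, ∑ i, w i j = 1) (h2 : ∀ j, ∑ i, l i * w i j = e j) :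
    ∑ j, ∑ i, Real.log (l i) * w i j ≤ ∑ j, Real.log (e j) ∧
    (∑ j, ∑ i, Real.log (l i) * w i j = ∑ j, Real.log (e j) →
      ∀ i j, w i j = 0 ∨ l i = e j) := by
  have key : ∑ j, ∑ i, w i j * (l i / e j - 1 - Real.log (l i / e j)) =
      ∑ j, Real.log (e j) - ∑ j, ∑ i, Real.log (l i) * w i j := by
    rw [← Finset.sum_sub_distrib]
    refine Finset.sum_congr rfl fun j _ => ?_
    have h3 : ∀ i, w i j * (l i / e j - 1 - Real.log (l i / e j)) =
        (l i * w i j) * (e j)⁻¹ - w i j - Real.log (l i) * w i j + w i j * Real.log (e j) := by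
      intro i
      rw [Real.log_div (hl i).ne' (he j).ne', div_eq_mul_inv]
      ring
    simp only [h3, Finset.sum_add_distrib, Finset.sum_sub_distrib, ← Finset.sum_mul, h1, h2]
    rw [mul_inv_cancel₀ (he j).ne']
    ring
  have hnn : ∀ j i, 0 ≤ w i j * (l i / e j - 1 - Real.log (l i / e j)) := fun j i =>
    mul_nonneg (hw i j) (sub_nonneg.2 (Real.log_le_sub_one_of_pos (div_pos (hl i) (he j))))
  refine ⟨?_, fun h i j => ?_⟩
  · have : 0 ≤ ∑ j, ∑ i, w i j * (l i / e j - 1 - Real.log (l i / e j)) :=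
      Finset.sum_nonneg fun j _ => Finset.sum_nonneg fun i _ => hnn j i
    linarith
  · have h0 : ∑ j, ∑ i, w i j * (l i / e j - 1 - Real.log (l i / e j)) = 0 := by
      rw [key, h, sub_self]
    have h4 := (Finset.sum_eq_zero_iff_of_nonneg
      (fun j _ => Finset.sum_nonneg fun i _ => hnn j i)).1 h0 j (Finset.mem_univ _)
    have h5 := (Finset.sum_eq_zero_iff_of_nonneg (fun i _ => hnn j i)).1 h4 i (Finset.mem_univ _)
    rcases mul_eq_zero.1 h5 with h6 | h6
    · exact Or.inl h6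
    · right
      by_contra hne
      have hne' : l i / e j ≠ 1 := fun hh => hne ((div_eq_one_iff_eq (he j).ne').1 hh)
      have := Real.log_lt_sub_one_of_pos (div_pos (hl i) (he j)) hne'
      linarith

/-- Jensen's inequality for the compression to a subspace, with the case of equality -/
theorem jensen {P : Matrix n n ℂ} (hP : P.PosDef) {J : Matrix n m ℂ} (hJ : Jᴴ * J = 1) :
    (J * Jᴴ * lg P).trace.re ≤ Real.log (Jᴴ * P * J).det.re ∧
    ((J * Jᴴ * lg P).trace.re = Real.log (Jᴴ * P * J).det.re → P * (J * Jᴴ) = J * Jᴴ * P) := by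
  have hinj : Function.Injective J.mulVec := by
    intro x y hxy
    have h := congrArg (fun v => Jᴴ *ᵥ v) hxy
    simpa only [Matrix.mulVec_mulVec, hJ, Matrix.one_mulVec] using h
  have hQ : (Jᴴ * P * J).PosDef := hP.conjTranspose_mul_mul_same hinj
  have hPh := hP.isHermitian
  obtain ⟨V, e, hV, he, hQe⟩ := exists_Dg_pos hQ
  obtain ⟨U, l, hU, hl, hPl⟩ := exists_Dg_pos hP
  have hU1 : Uᴴ * U = 1 := hU
  have hV1 : Vᴴ * V = 1 := hV
  have hU2 := hU.mul_self
  have hV2 := hV.mul_self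
  obtain ⟨w, hw⟩ : ∃ w : Matrix n m ℂ, w = Uᴴ * J * V := ⟨_, rfl⟩
  have hwH : wᴴ = Vᴴ * Jᴴ * U := by
    rw [hw, Matrix.conjTranspose_mul, Matrix.conjTranspose_mul,
      Matrix.conjTranspose_conjTranspose, Matrix.mul_assoc]
  have hcomp : ∀ d : n → ℝ, wᴴ * diagonal (fun i => (d i : ℂ)) * w =
      Vᴴ * (Jᴴ * Dg U d * J) * V := by
    intro d
    rw [hwH, hw]
    simp only [Dg, Matrix.mul_assoc]
  have h1 : ∀ j, ∑ i, ‖w i j‖ ^ 2 = 1 := by
    intro j
    have h := ljen0_diag w (fun _ => 1) j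
    rw [hcomp, Dg_one hU, Matrix.mul_one, hJ, Matrix.mul_one, hV1, Matrix.one_apply_eq] at h
    have h' := congrArg Complex.re h
    simp only [Complex.one_re, Complex.ofReal_re, one_mul] at h'
    exact h'.symm
  have hdiag : wᴴ * diagonal (fun i => (l i : ℂ)) * w = diagonal (fun j => (e j : ℂ)) := by
    rw [hcomp, ← hPl, hQe]
    simp only [Dg, Matrix.mul_assoc, hV1, Matrix.mul_one]
    rw [← Matrix.mul_assoc, hV1, Matrix.one_mul]
  have h2 : ∀ j, ∑ i, l i * ‖w i j‖ ^ 2 = e j := by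
    intro j
    have h := ljen0_diag w l j
    rw [hdiag, Matrix.diagonal_apply_eq] at h
    exact (Complex.ofReal_injective h).symm
  have htr : (J * Jᴴ * lg P).trace.re = ∑ j, ∑ i, Real.log (l i) * ‖w i j‖ ^ 2 := by
    have hlg : lg P = Dg U fun i => Real.log (l i) := by
      rw [hPl, lg, fc_Dg hU]
    have h3 : (J * Jᴴ * lg P).trace =
        (wᴴ * diagonal (fun i => ((Real.log (l i) : ℝ) : ℂ)) * w).trace := by
      rw [hcomp, ← hlg, Matrix.trace_mul_comm (Vᴴ * _) V, ← Matrix.mul_assoc, hV2,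
        Matrix.one_mul, Matrix.trace_mul_comm (Jᴴ * _) J, Matrix.mul_assoc]
    rw [h3, Matrix.trace, Complex.re_sum]
    refine Finset.sum_congr rfl fun j _ => ?_
    rw [Matrix.diag_apply, ljen0_diag w (fun i => Real.log (l i)) j, Complex.ofReal_re]
  have hdet : Real.log (Jᴴ * P * J).det.re = ∑ j, Real.log (e j) := by
    rw [hQe, det_Dg hV, Complex.ofReal_re, Real.log_prod fun j _ => (he j).ne']
  obtain ⟨ha, hb⟩ := ljen0_scalar (fun i j => ‖w i j‖ ^ 2) (fun i j => by positivity) l hl e he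
    h1 h2
  rw [htr, hdet]
  refine ⟨ha, fun h => ?_⟩
  have hc := hb h
  have hint : diagonal (fun i => (l i : ℂ)) * w = w * diagonal (fun j => (e j : ℂ)) := by
    ext i j
    rw [Matrix.diagonal_mul, Matrix.mul_diagonal]
    rcases hc i j with h6 | h6
    · have h7 : w i j = 0 := by simpa using h6
      rw [h7, mul_zero, zero_mul]
    · rw [h6, mul_comm]
  have hPJ : P * J = J * Dg V e := by
    have h8 : U * (diagonal (fun i => (l i : ℂ)) * w) * Vᴴ = P * J := by
      rw [hw, hPl]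
      simp only [Dg, Matrix.mul_assoc, hV2, Matrix.mul_one]
    have h9 : U * (w * diagonal (fun j => (e j : ℂ))) * Vᴴ = J * Dg V e := by
      rw [hw]
      simp only [Dg, Matrix.mul_assoc]
      rw [← Matrix.mul_assoc U, hU2, Matrix.one_mul]
    rw [← h8, hint, h9]
  have hJP : Jᴴ * P = Dg V e * Jᴴ := by
    have h10 := congrArg Matrix.conjTranspose hPJ
    rw [Matrix.conjTranspose_mul, Matrix.conjTranspose_mul, hPh.eq, (Dg_herm V e).eq] at h10
    exact h10
  rw [← Matrix.mul_assoc, hPJ, Matrix.mul_assoc J Jᴴ P, hJP, Matrix.mul_assoc]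

end Pool.Agent.PW.L
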