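import Pool.Agent.P.MP_65ad7c_ag.LKlein0

open Matrix Filter Topology Set
open scoped ComplexOrder Kronecker

noncomputable section
namespace Pool.Agent.PW.L

variable {n m : Type} [Fintype n] [DecidableEq n] [Fintype m] [DecidableEq m]
  {r : ℕ} {G : Subgroup (GL (Fin r) ℂ)} {Γ : Type}

/-- second order Taylor bound for `log ^ 2` -/
theorem log_sq_taylor {a : ℝ} (ha : 0 < a) (b : ℝ) : ∃ K : ℝ, ∀ x ∈ Icc a b, ∀ y ∈ Icc a b,
    |Real.log y ^ 2 - Real.log x ^ 2 - 2 * (x⁻¹ * Real.log x) * (y - x)| ≤ K * (y - x) ^ 2 := by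
  refine ⟨(1 + 2 * (|Real.log a| + |Real.log b|)) / a ^ 2, fun x hx y hy => ?_⟩
  have hx0 : 0 < x := lt_of_lt_of_le ha hx.1
  have hy0 : 0 < y := lt_of_lt_of_le ha hy.1
  have h1 : Real.log y - Real.log x ≤ (y - x) / x := by
    have := Real.log_le_sub_one_of_pos (div_pos hy0 hx0)
    rw [Real.log_div hy0.ne' hx0.ne'] at this
    calc _ ≤ y / x - 1 := this
      _ = _ := by field_simp
  have h2 : (y - x) / y ≤ Real.log y - Real.log x := by
    have := Real.log_le_sub_one_of_pos (div_pos hx0 hy0)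
    rw [Real.log_div hx0.ne' hy0.ne'] at this
    have e : (y - x) / y = -(x / y - 1) := by field_simp; ring
    rw [e]; linarith
  have hxa : |(y - x) / x| ≤ |y - x| / a := by
    rw [abs_div, abs_of_pos hx0]
    exact div_le_div_of_nonneg_left (abs_nonneg _) ha hx.1
  have hya : |(y - x) / y| ≤ |y - x| / a := by
    rw [abs_div, abs_of_pos hy0]
    exact div_le_div_of_nonneg_left (abs_nonneg _) ha hy.1
  have hu : |Real.log y - Real.log x| ≤ |y - x| / a :=
    abs_le.2 ⟨(abs_le.1 hya).1.trans h2, h1.trans (abs_le.1 hxa).2⟩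
  have hu2 : (Real.log y - Real.log x) ^ 2 ≤ (y - x) ^ 2 / a ^ 2 := by
    have := pow_le_pow_left₀ (abs_nonneg _) hu 2
    rwa [sq_abs, div_pow, sq_abs] at this
  have hd : (y - x) / x - (y - x) / y ≤ (y - x) ^ 2 / a ^ 2 := by
    have e : (y - x) / x - (y - x) / y = (y - x) ^ 2 / (x * y) := by field_simp
    rw [e]
    refine div_le_div_of_nonneg_left (sq_nonneg _) (by positivity) ?_
    rw [sq]
    exact mul_le_mul hx.1 hy.1 ha.le hx0.le
  have hv : |Real.log y - Real.log x - (y - x) / x| ≤ (y - x) ^ 2 / a ^ 2 := by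
    rw [abs_le]
    constructor
    · linarith
    · have : 0 ≤ (y - x) ^ 2 / a ^ 2 := by positivity
      linarith
  have hl : |Real.log x| ≤ |Real.log a| + |Real.log b| := by
    have l1 : Real.log a ≤ Real.log x := Real.log_le_log ha hx.1
    have l2 : Real.log x ≤ Real.log b := Real.log_le_log hx0 hx.2
    have := neg_abs_le (Real.log a)
    have := le_abs_self (Real.log b)
    have := abs_nonneg (Real.log a)
    have := abs_nonneg (Real.log b)
    rw [abs_le]
    constructor <;> linarith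
  have e : Real.log y ^ 2 - Real.log x ^ 2 - 2 * (x⁻¹ * Real.log x) * (y - x) =
      (Real.log y - Real.log x) ^ 2 +
        2 * (Real.log x * (Real.log y - Real.log x - (y - x) / x)) := by
    field_simp
    ring
  have h3 : |Real.log x * (Real.log y - Real.log x - (y - x) / x)| ≤
      (|Real.log a| + |Real.log b|) * ((y - x) ^ 2 / a ^ 2) := by
    rw [abs_mul]
    exact mul_le_mul hl hv (abs_nonneg _) (by positivity)
  rw [e]
  refine (abs_add_le _ _).trans ?_
  rw [abs_of_nonneg (sq_nonneg _), abs_mul, abs_two]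
  calc _ ≤ (y - x) ^ 2 / a ^ 2 + 2 * ((|Real.log a| + |Real.log b|) * ((y - x) ^ 2 / a ^ 2)) := by
        linarith
    _ = _ := by ring

theorem l2_est {P : Matrix n n ℂ} (hP : P.PosDef) : ∃ δ K : ℝ, 0 < δ ∧
    ∀ Q : Matrix n n ℂ, Q.IsHermitian → fro (Q - P) < δ →
      |l2 Q - l2 P - 2 * (P⁻¹ * lg P * (Q - P)).trace.re| ≤ K * fro (Q - P) := by
  obtain ⟨U, d, hU, hd, rfl⟩ := exists_Dg_pos hP
  have hs : 0 ≤ ∑ i, (d i)⁻¹ := Finset.sum_nonneg fun i _ => (inv_pos.2 (hd i)).le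
  have ha : 0 < (1 + ∑ i, (d i)⁻¹)⁻¹ := inv_pos.2 (by linarith)
  have had : ∀ i, (1 + ∑ i, (d i)⁻¹)⁻¹ ≤ d i := by
    intro i
    have h1 : (d i)⁻¹ ≤ ∑ i, (d i)⁻¹ :=
      Finset.single_le_sum (f := fun i => (d i)⁻¹) (fun i _ => (inv_pos.2 (hd i)).le)
        (Finset.mem_univ i)
    exact inv_le_of_inv_le₀ (hd i) (by linarith)
  have hdb : ∀ i, d i ≤ ∑ i, d i := fun i =>
    Finset.single_le_sum (f := d) (fun i _ => (hd i).le) (Finset.mem_univ i)
  generalize (1 + ∑ i, (d i)⁻¹)⁻¹ = a at ha had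
  generalize ∑ i, d i = b at hdb
  obtain ⟨K, hK⟩ := log_sq_taylor (a := a / 2) (by positivity) (b + a)
  refine ⟨(a / 2) ^ 2, K, by positivity, fun Q hQ hδ => ?_⟩
  obtain ⟨V, e, hV, rfl⟩ := exists_Dg hQ
  have he : ∀ j, e j ∈ Icc (a / 2) (b + a) := by
    intro j
    obtain ⟨i, hi⟩ := near_eig hU hV d e j
    have h1 : |e j - d i| < a / 2 := abs_lt_of_sq_lt_sq (hi.trans_lt hδ) (by positivity)
    have h2 := abs_lt.1 h1
    have := had i
    have := hdb i
    constructor <;> linarith [h2.1, h2.2]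
  have hd' : ∀ i, d i ∈ Icc (a / 2) (b + a) := by
    intro i
    have := had i
    have := hdb i
    constructor <;> linarith
  have hk := klein hU hV d e (fun x => Real.log x ^ 2) (fun x => 2 * (x⁻¹ * Real.log x)) K
    fun i j => hK _ (hd' i) _ (he j)
  have e1 : (Dg U d)⁻¹ * lg (Dg U d) = Dg U fun i => (d i)⁻¹ * Real.log (d i) := by
    rw [Dg_inv hU fun i => (hd i).ne', lg, fc_Dg hU, Dg_mul hU]
  have e2 : Dg U (fun i => 2 * ((d i)⁻¹ * Real.log (d i))) =
      Dg U (fun i => (d i)⁻¹ * Real.log (d i)) + Dg U fun i => (d i)⁻¹ * Real.log (d i) := by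
    rw [← Dg_add]
    simp only [two_mul]
  rw [e2, Matrix.add_mul, trace_add, Complex.add_re, ← two_mul] at hk
  rw [e1, l2_Dg hU, l2_Dg hV]
  exact hk

end Pool.Agent.PW.L
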