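import Pool.Agent.P.MP_65ad7c_ag.LFc

open Matrix Filter Topology Set
open scoped ComplexOrder Kronecker

noncomputable section
namespace Pool.Agent.PW.L

variable {n m : Type} [Fintype n] [DecidableEq n] [Fintype m] [DecidableEq m]
  {r : ℕ} {G : Subgroup (GL (Fin r) ℂ)} {Γ : Type}

theorem lklein0_trace (U V : Matrix n n ℂ) (g e : n → ℝ) :
    (Dg U g * Dg V e).trace.re = ∑ i, ∑ j, g i * ‖(Uᴴ * V) i j‖ ^ 2 * e j := by
  have h1 : (Dg U g * Dg V e).trace = (diagonal (fun i => (g i : ℂ)) * (Uᴴ * V) *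
      diagonal (fun i => (e i : ℂ)) * (Uᴴ * V)ᴴ).trace := by
    simp only [Dg, conjTranspose_mul, conjTranspose_conjTranspose, Matrix.mul_assoc]
    rw [trace_mul_comm U]
    simp only [Matrix.mul_assoc]
  rw [h1]
  generalize Uᴴ * V = W
  simp only [trace, diag_apply, Matrix.mul_apply (M := _ * _ * _), mul_diagonal, diagonal_mul,
    conjTranspose_apply, Complex.re_sum]
  refine Finset.sum_congr rfl fun i _ => Finset.sum_congr rfl fun j _ => ?_
  have h2 : (g i : ℂ) * W i j * e j * star (W i j) = ((g i * ‖W i j‖ ^ 2 * e j : ℝ) : ℂ) := by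
    have h3 := Complex.mul_conj (W i j)
    rw [Complex.normSq_eq_norm_sq] at h3
    push_cast at h3 ⊢
    rw [← h3, Complex.star_def]
    ring
  rw [h2, Complex.ofReal_re]

theorem lklein0_fro {U V : Matrix n n ℂ} (hU : Uni U) (hV : Uni V) (d e : n → ℝ) :
    fro (Dg V e - Dg U d) = ∑ i, ∑ j, ‖(Uᴴ * V) i j‖ ^ 2 * (e j - d i) ^ 2 := by
  have h1 : Uᴴ * (Dg V e - Dg U d) * V = Uᴴ * V * diagonal (fun i => (e i : ℂ)) -
      diagonal (fun i => (d i : ℂ)) * (Uᴴ * V) := by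
    have e1 : Uᴴ * U = 1 := hU
    have e2 : Vᴴ * V = 1 := hV
    simp only [Dg, Matrix.mul_sub, Matrix.sub_mul, Matrix.mul_assoc, e2, Matrix.mul_one]
    rw [← Matrix.mul_assoc Uᴴ U, e1, Matrix.one_mul]
  rw [← fro_uni hU hV, h1, fro]
  refine Finset.sum_congr rfl fun i _ => Finset.sum_congr rfl fun j _ => ?_
  rw [Matrix.sub_apply, mul_diagonal, diagonal_mul, mul_comm (d i : ℂ), ← mul_sub, norm_mul,
    mul_pow, ← Complex.ofReal_sub, Complex.norm_real, Real.norm_eq_abs, sq_abs]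

/-- Klein's inequality with a quadratic remainder -/
theorem klein {U V : Matrix n n ℂ} (hU : Uni U) (hV : Uni V) (d e : n → ℝ) (f f' : ℝ → ℝ) (K : ℝ)
    (h : ∀ i j, |f (e j) - f (d i) - f' (d i) * (e j - d i)| ≤ K * (e j - d i) ^ 2) :
    |∑ j, f (e j) - ∑ i, f (d i) - (Dg U (fun i => f' (d i)) * (Dg V e - Dg U d)).trace.re| ≤
      K * fro (Dg V e - Dg U d) := by
  have hW : Uni (Uᴴ * V) := hU.star.mul hV
  have e1 : ∑ j, f (e j) = ∑ i, ∑ j, ‖(Uᴴ * V) i j‖ ^ 2 * f (e j) := by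
    rw [Finset.sum_comm]
    simp only [← Finset.sum_mul, hW.col, one_mul]
  have e2 : ∀ g : n → ℝ, ∑ i, g i = ∑ i, ∑ j, ‖(Uᴴ * V) i j‖ ^ 2 * g i := fun g => by
    simp only [← Finset.sum_mul, hW.row, one_mul]
  rw [Matrix.mul_sub, trace_sub, Complex.sub_re, lklein0_trace U V, Dg_mul hU, trace_Dg hU,
    Complex.ofReal_re, lklein0_fro hU hV, e1, e2 fun i => f (d i), e2 fun i => f' (d i) * d i,
    Finset.mul_sum]
  simp only [← Finset.sum_sub_distrib, Finset.mul_sum]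
  refine (Finset.abs_sum_le_sum_abs _ _).trans (Finset.sum_le_sum fun i _ =>
    (Finset.abs_sum_le_sum_abs _ _).trans (Finset.sum_le_sum fun j _ => ?_))
  have e3 : ‖(Uᴴ * V) i j‖ ^ 2 * f (e j) - ‖(Uᴴ * V) i j‖ ^ 2 * f (d i) -
      (f' (d i) * ‖(Uᴴ * V) i j‖ ^ 2 * e j - ‖(Uᴴ * V) i j‖ ^ 2 * (f' (d i) * d i)) =
      ‖(Uᴴ * V) i j‖ ^ 2 * (f (e j) - f (d i) - f' (d i) * (e j - d i)) := by ring
  rw [e3, abs_mul, abs_of_nonneg (sq_nonneg _), mul_left_comm]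
  exact mul_le_mul_of_nonneg_left (h i j) (sq_nonneg _)

/-- every eigenvalue of a perturbed matrix is close to an eigenvalue -/
theorem near_eig {U V : Matrix n n ℂ} (hU : Uni U) (hV : Uni V) (d e : n → ℝ) (j : n) :
    ∃ i, (e j - d i) ^ 2 ≤ fro (Dg V e - Dg U d) := by
  have hW : Uni (Uᴴ * V) := hU.star.mul hV
  obtain ⟨i, -, hi⟩ := Finset.exists_min_image Finset.univ (fun i => (e j - d i) ^ 2)
    ⟨j, Finset.mem_univ j⟩
  refine ⟨i, ?_⟩
  rw [lklein0_fro hU hV]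
  calc (e j - d i) ^ 2 = ∑ k, ‖(Uᴴ * V) k j‖ ^ 2 * (e j - d i) ^ 2 := by
        rw [← Finset.sum_mul, hW.col, one_mul]
    _ ≤ _ := Finset.sum_le_sum fun k _ =>
        (mul_le_mul_of_nonneg_left (hi k (Finset.mem_univ k)) (sq_nonneg _)).trans
          (Finset.single_le_sum (f := fun l => ‖(Uᴴ * V) k l‖ ^ 2 * (e l - d k) ^ 2)
            (fun l _ => by positivity) (Finset.mem_univ j))

end Pool.Agent.PW.L
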