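import Pool.Agent.P.MP_65ad7c_ag.LLem0

open Matrix Filter Topology Set
open scoped ComplexOrder Kronecker

noncomputable section
namespace Pool.Agent.PW.L

variable {n m : Type} [Fintype n] [DecidableEq n] [Fintype m] [DecidableEq m]
  {r : ℕ} {G : Subgroup (GL (Fin r) ℂ)} {Γ : Type}

theorem llem_dual (φ : Matrix n n ℂ →ₗ[ℂ] ℂ) :
    ∃ w : Matrix n n ℂ, ∀ Y, φ Y = (Y * w).trace := by
  refine ⟨Matrix.of fun j i => φ (Matrix.single i j 1), fun Y => ?_⟩
  conv_lhs => rw [Matrix.matrix_eq_sum_single Y]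
  simp only [map_sum, Matrix.trace, Matrix.diag_apply, Matrix.mul_apply, Matrix.of_apply]
  refine Finset.sum_congr rfl fun i _ => Finset.sum_congr rfl fun j _ => ?_
  rw [← smul_eq_mul, ← map_smul, Matrix.smul_single, smul_eq_mul, mul_one]

theorem llem_slot [Group Γ] (ρ : Γ →* Matrix n n ℂ) {J : ℕ} (k : Fin J)
    {z : Matrix (Fin J → Option n) (Fin J → Option n) ℂ} (hz : z ∈ Com fun γ => RJ J (ρ γ)) :
    ∃ w ∈ Com ρ, ∀ Y, (sl k Y * z).trace = (Y * w).trace := by
  obtain ⟨w, hw⟩ := llem_dual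
    { toFun := fun Y : Matrix n n ℂ => (sl k Y * z).trace
      map_add' := fun X Y => by rw [sl_add, Matrix.add_mul, Matrix.trace_add]
      map_smul' := fun c X => by rw [sl_smul, Matrix.smul_mul, Matrix.trace_smul]; rfl }
  have hw' : ∀ Y, (sl k Y * z).trace = (Y * w).trace := hw
  refine ⟨w, fun γ => ?_, hw'⟩
  have h1 : ρ γ * ρ γ⁻¹ = 1 := by rw [← map_mul, mul_inv_cancel, map_one]
  have h2 : ρ γ⁻¹ * ρ γ = 1 := by rw [← map_mul, inv_mul_cancel, map_one]
  have h3 : z * RJ J (ρ γ) = RJ J (ρ γ) * z := hz γ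
  generalize ρ γ⁻¹ = g' at h1 h2
  generalize ρ γ = g at h1 h2 h3
  have r1 : RJ J g * RJ J g' = 1 := by rw [← map_mul, h1, map_one]
  have r2 : RJ J g' * RJ J g = 1 := by rw [← map_mul, h2, map_one]
  have key : g' * w * g = w := by
    refine Matrix.ext_iff_trace_mul_left.2 fun Y => ?_
    have e1 : RJ J g * sl k Y = sl k (g * Y * g') * RJ J g :=
      RJ_sl k (by rw [Matrix.mul_assoc (g * Y), h2, Matrix.mul_one])
    have e2 : sl k (g * Y * g') = RJ J g * sl k Y * RJ J g' := by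
      rw [e1, Matrix.mul_assoc (sl k _), r1, Matrix.mul_one]
    calc (Y * (g' * w * g)).trace = (g * Y * g' * w).trace := by
          rw [← Matrix.mul_assoc, Matrix.trace_mul_comm]
          simp only [Matrix.mul_assoc]
      _ = (RJ J g * (sl k Y * RJ J g' * z)).trace := by
          rw [← hw', e2]
          simp only [Matrix.mul_assoc]
      _ = (sl k Y * z).trace := by
          rw [Matrix.trace_mul_comm, Matrix.mul_assoc, h3, Matrix.mul_assoc,
            ← Matrix.mul_assoc (RJ J g'), r2, Matrix.one_mul]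
      _ = (Y * w).trace := hw' Y
  calc w * g = g * (g' * w * g) := by
        rw [← Matrix.mul_assoc, ← Matrix.mul_assoc, h1, Matrix.one_mul]
    _ = g * w := by rw [key]

/-- trace over all slots but one -/
theorem trace_dR [Group Γ] (ρ : Γ →* Matrix n n ℂ) {X : Matrix n n ℂ}
    (hX : ∀ z ∈ Com ρ, (X * z).trace = 0) (J : ℕ) :
    ∀ z ∈ Com fun γ => RJ J (ρ γ), (dR J X * z).trace = 0 := by
  intro z hz
  rw [dR, Finset.sum_mul, Matrix.trace_sum]
  refine Finset.sum_eq_zero fun k _ => ?_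
  obtain ⟨w, hw, h⟩ := llem_slot ρ k hz
  rw [h, hX w hw]

end Pool.Agent.PW.L
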