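import Pool.Agent.P.MP_65ad7c_ag.LTens

open Matrix Filter Topology Set
open scoped ComplexOrder Kronecker

noncomputable section
namespace Pool.Agent.PW.L

variable {n m : Type} [Fintype n] [DecidableEq n] [Fintype m] [DecidableEq m]
  {r : ℕ} {G : Subgroup (GL (Fin r) ℂ)} {Γ : Type}

theorem llem0_diag (a b : n → ℝ) (y : Matrix n n ℂ) :
    (diagonal (fun i => (a i : ℂ)) * y * diagonal (fun i => (b i : ℂ)) * yᴴ).trace =
      ((∑ i, ∑ j, a i * b j * ‖y i j‖ ^ 2 : ℝ) : ℂ) := by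
  rw [Matrix.trace]
  push_cast
  refine Finset.sum_congr rfl fun i _ => ?_
  rw [diag_apply, Matrix.mul_apply]
  refine Finset.sum_congr rfl fun j _ => ?_
  rw [mul_diagonal, diagonal_mul, conjTranspose_apply, ← Complex.mul_conj', Complex.star_def]
  ring

theorem llem0_trace (U : Matrix n n ℂ) (a b : n → ℝ) (z : Matrix n n ℂ) :
    (Dg U a * z * Dg U b * zᴴ).trace =
      ((∑ i, ∑ j, a i * b j * ‖(Uᴴ * z * U) i j‖ ^ 2 : ℝ) : ℂ) := by
  rw [← llem0_diag]
  simp only [Dg, conjTranspose_mul, conjTranspose_conjTranspose, Matrix.mul_assoc]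
  rw [trace_mul_comm]
  simp only [Matrix.mul_assoc]

theorem llem0_term {s t : ℝ} (hs : 0 < s) (ht : 0 < t) :
    0 ≤ (Real.log s - Real.log t) * (s * t⁻¹ - 1) := by
  rcases le_total s t with h | h
  · apply mul_nonneg_of_nonpos_of_nonpos
    · exact sub_nonpos.2 (Real.log_le_log hs h)
    · rw [sub_nonpos, ← div_eq_mul_inv, div_le_one ht]
      exact h
  · apply mul_nonneg
    · exact sub_nonneg.2 (Real.log_le_log ht h)
    · rw [sub_nonneg, ← div_eq_mul_inv, one_le_div ht]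
      exact h

theorem llem0_term_eq {s t : ℝ} (hs : 0 < s) (ht : 0 < t)
    (h : (Real.log s - Real.log t) * (s * t⁻¹ - 1) = 0) : s = t := by
  rcases mul_eq_zero.1 h with h | h
  · exact Real.log_injOn_pos hs ht (sub_eq_zero.1 h)
  · rw [sub_eq_zero, ← div_eq_mul_inv, div_eq_one_iff_eq ht.ne'] at h
    exact h

theorem lemM {p : Matrix n n ℂ} (hp : p.PosDef) (Z : Set (Matrix n n ℂ))
    (hm : ∀ a ∈ Z, ∀ b ∈ Z, a * b ∈ Z) (hd : ∀ z ∈ Z, p⁻¹ * zᴴ * p ∈ Z)
    (ht : ∀ z ∈ Z, (lg p * z).trace = 0) {z : Matrix n n ℂ} (hz : z ∈ Z) (hz' : zᴴ ∈ Z) :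
    z * p = p * z := by
  obtain ⟨U, l, hU, hl, rfl⟩ := exists_Dg_pos hp
  have h1 := ht _ (hm _ hz _ (hd _ hz))
  have h2 := ht _ (hm _ (hd _ hz) _ hz)
  have h3 := ht _ (hm _ hz _ hz')
  have h4 := ht _ (hm _ hz' _ hz)
  rw [lg, fc_Dg hU] at h1 h2 h3 h4
  rw [Dg_inv hU fun i => (hl i).ne'] at h1 h2
  have e1 := llem0_trace U (fun i => l i * Real.log (l i)) (fun i => (l i)⁻¹) z
  have e2 := llem0_trace U l (fun i => Real.log (l i) * (l i)⁻¹) z
  have e3 := llem0_trace U (fun i => Real.log (l i)) (fun _ => 1) z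
  have e4 := llem0_trace U (fun _ => 1) (fun i => Real.log (l i)) z
  rw [← Dg_mul hU] at e1 e2
  rw [Dg_one hU] at e3 e4
  have f1 : (Dg U l * Dg U (fun i => Real.log (l i)) * z * Dg U (fun i => (l i)⁻¹) * zᴴ).trace
      = 0 := by
    rw [← h1]
    simp only [Matrix.mul_assoc]
    rw [trace_mul_comm]
    simp only [Matrix.mul_assoc]
  have f2 : (Dg U l * z * (Dg U (fun i => Real.log (l i)) * Dg U (fun i => (l i)⁻¹)) * zᴴ).trace
      = 0 := by
    rw [← h2, Matrix.mul_assoc (Dg U l * z), trace_mul_comm]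
    simp only [Matrix.mul_assoc]
  have f3 : (Dg U (fun i => Real.log (l i)) * z * 1 * zᴴ).trace = 0 := by
    rw [← h3]
    simp only [Matrix.mul_assoc, Matrix.one_mul]
  have f4 : (1 * z * Dg U (fun i => Real.log (l i)) * zᴴ).trace = 0 := by
    rw [← h4, Matrix.one_mul, Matrix.mul_assoc, trace_mul_comm]
    simp only [Matrix.mul_assoc]
  rw [f1] at e1
  rw [f2] at e2
  rw [f3] at e3
  rw [f4] at e4
  have g1 := Complex.ofReal_eq_zero.1 e1.symm
  have g2 := Complex.ofReal_eq_zero.1 e2.symm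
  have g3 := Complex.ofReal_eq_zero.1 e3.symm
  have g4 := Complex.ofReal_eq_zero.1 e4.symm
  set y := Uᴴ * z * U with hy
  have hs : ∑ i, ∑ j, (Real.log (l i) - Real.log (l j)) * (l i * (l j)⁻¹ - 1) * ‖y i j‖ ^ 2
      = 0 := by
    have : ∑ i, ∑ j, (Real.log (l i) - Real.log (l j)) * (l i * (l j)⁻¹ - 1) * ‖y i j‖ ^ 2 =
        ∑ i, ∑ j, l i * Real.log (l i) * (l j)⁻¹ * ‖y i j‖ ^ 2 -
        ∑ i, ∑ j, l i * (Real.log (l j) * (l j)⁻¹) * ‖y i j‖ ^ 2 -
        ∑ i, ∑ j, Real.log (l i) * 1 * ‖y i j‖ ^ 2 +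
        ∑ i, ∑ j, 1 * Real.log (l j) * ‖y i j‖ ^ 2 := by
      simp only [← Finset.sum_sub_distrib, ← Finset.sum_add_distrib]
      refine Finset.sum_congr rfl fun i _ => Finset.sum_congr rfl fun j _ => ?_
      ring
    rw [this, g1, g2, g3, g4]
    ring
  have hn : ∀ i j,
      0 ≤ (Real.log (l i) - Real.log (l j)) * (l i * (l j)⁻¹ - 1) * ‖y i j‖ ^ 2 :=
    fun i j => mul_nonneg (llem0_term (hl i) (hl j)) (sq_nonneg _)
  have h0 : ∀ i j, y i j * (l j : ℂ) = (l i : ℂ) * y i j := by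
    intro i j
    have k1 := (Finset.sum_eq_zero_iff_of_nonneg
      (fun i _ => Finset.sum_nonneg fun j _ => hn i j)).1 hs i (Finset.mem_univ _)
    have k2 := (Finset.sum_eq_zero_iff_of_nonneg (fun j _ => hn i j)).1 k1 j (Finset.mem_univ _)
    rcases mul_eq_zero.1 k2 with k | k
    · rw [llem0_term_eq (hl i) (hl j) k, mul_comm]
    · rw [norm_eq_zero.1 (pow_eq_zero_iff two_ne_zero |>.1 k)]
      simp
  have h5 : y * diagonal (fun i => (l i : ℂ)) = diagonal (fun i => (l i : ℂ)) * y := by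
    ext i j
    rw [mul_diagonal, diagonal_mul, h0]
  have h6 : U * Uᴴ = 1 := hU.mul_self
  calc z * Dg U l = (U * Uᴴ) * z * Dg U l := by rw [h6, Matrix.one_mul]
    _ = U * (y * diagonal (fun i => (l i : ℂ))) * Uᴴ := by
      simp only [hy, Dg, Matrix.mul_assoc]
    _ = Dg U l * z * (U * Uᴴ) := by
      rw [h5]
      simp only [hy, Dg, Matrix.mul_assoc]
    _ = Dg U l * z := by rw [h6, Matrix.mul_one]

end Pool.Agent.PW.L
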