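import Pool.Agent.P.MP_65ad7c_ag.LFlow
import Pool.Agent.P.MP_65ad7c_ag.LDens

open Matrix Filter Topology Set

noncomputable section
namespace Pool.Agent.PW

namespace L
variable {r : ℕ} {G : Subgroup (GL (Fin r) ℂ)} {Γ : Type} [Group Γ] {K : RotSys Γ}
  {Ψ : (Inv Γ G → ℂ) → ℝ → Inv Γ G → ℂ}

theorem Flow.zero (h : Flow K Ψ) {y : Inv Γ G → ℂ} (hy : y ∈ MB G Γ) : Ψ y 0 = y := by
  obtain ⟨τ, F, rfl, -, h3⟩ := h.exi y hy
  rw [h.rot 0 _ _ (h3 0).1]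
  obtain ⟨C, hC⟩ := (h3 0).1
  rw [mat_injective (MonoidHom.ext (K.zero hC))]

theorem Flow.neg (h : Flow K Ψ) {y : Inv Γ G → ℂ} (hy : y ∈ MB G Γ) (t : ℝ) :
    Ψ (Ψ y t) (-t) = y := by
  obtain ⟨τ, F, rfl, -, h3⟩ := h.exi y hy
  rw [h.rot t _ _ (h3 t).1, h.rot (-t) _ _ (h3 t).2]

theorem Flow.isS (h : Flow K Ψ) {y : Inv Γ G → ℂ} (hy : y ∈ MB G Γ) : IsS y (Ψ y Real.pi) := by
  obtain ⟨τ, F, rfl, -, h3⟩ := h.exi y hy
  rw [h.rot _ _ _ (h3 Real.pi).1]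
  obtain ⟨C, hC⟩ := (h3 Real.pi).1
  exact isS_ev (K.half hC)

theorem lmain_map (hG : IsRed G) (h : Flow K Ψ) {P : Ideal (Inv Γ G)}
    (hP : P ∈ minimalPrimes (Inv Γ G)) (c : ℝ) : ∃ Φ : C(Comp P × unitInterval, Comp P),
      ∀ y t, (Φ (y, t)).1 = Ψ y.1 (c * t.1) := by
  refine ⟨⟨fun p => ⟨Ψ p.1.1 (c * p.2.1), h.mem_comp hG hP p.1.2 _⟩, ?_⟩, fun _ _ => rfl⟩
  refine Continuous.subtype_mk ?_ _
  have hc : Continuous fun p : Comp P × unitInterval => (p.1.1, c * p.2.1) := by fun_prop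
  exact h.cont.comp_continuous hc fun p => ⟨p.1.2.1, trivial⟩

theorem lmain_sub {G : Subgroup (GL (Fin 0) ℂ)} (P : Ideal (Inv Γ G)) : Subsingleton (Comp P) := by
  refine ⟨fun y y' => Subtype.ext (funext fun f => ?_)⟩
  obtain ⟨φ, hφ⟩ := y.2.1
  obtain ⟨φ', hφ'⟩ := y'.2.1
  have hf : f = algebraMap ℂ (Inv Γ G) (f.1 1) := by
    refine Subtype.ext (funext fun ρ => ?_)
    have : ρ = 1 := MonoidHom.ext fun γ => Subtype.ext (Units.ext (Subsingleton.elim _ _))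
    rw [this]
    rfl
  rw [← hφ, ← hφ', hf, AlgHom.commutes, AlgHom.commutes]

end L

/-- N-algebra and assembly (captain h78). -/
theorem RotSys.exists_flow {Γ : Type} [Group Γ] (K : RotSys Γ) {r : ℕ}
    (G : Subgroup (GL (Fin r) ℂ)) (hG : IsRed G) (P : Ideal (Inv Γ G))
    (hP : P ∈ minimalPrimes _) :
    ∃ Φ Φ' : C(Comp P × unitInterval, Comp P), (∀ y, Φ (y, 0) = y) ∧
      (∀ y t, Φ' (Φ (y, t), t) = y) ∧ (∀ y t, Φ (Φ' (y, t), t) = y) ∧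
      (∀ y, Φ (Φ (y, 1), 1) = y) ∧ ∀ y y' : Comp P, IsS y.1 y'.1 → y' = Φ (y, 1) := by
  rcases Nat.eq_zero_or_pos r with rfl | hr
  · haveI := L.lmain_sub P
    exact ⟨ContinuousMap.fst, ContinuousMap.fst, fun _ => rfl, fun _ _ => rfl, fun _ _ => rfl,
      fun _ => rfl, fun _ _ _ => Subsingleton.elim _ _⟩
  obtain ⟨Ψ, h⟩ := L.exists_Flow K hG hr
  obtain ⟨Φ, hΦ⟩ := L.lmain_map hG h hP Real.pi
  obtain ⟨Φ', hΦ'⟩ := L.lmain_map hG h hP (-Real.pi)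
  have hS : ∀ y : Comp P, IsS y.1 (Φ (y, 1)).1 := by
    intro y
    rw [hΦ]
    simpa using h.isS y.2.1
  have hU : ∀ y y' : Comp P, IsS y.1 y'.1 → y' = Φ (y, 1) := fun y y' hy =>
    Subtype.ext (L.isS_unique hG hy (hS y))
  refine ⟨Φ, Φ', fun y => Subtype.ext ?_, fun y t => Subtype.ext ?_, fun y t => Subtype.ext ?_,
    fun y => (hU _ _ (L.isS_symm (hS y))).symm, hU⟩
  · rw [hΦ]
    simpa using h.zero y.2.1
  · rw [hΦ', hΦ, neg_mul]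
    exact h.neg y.2.1 _
  · rw [hΦ, hΦ', neg_mul]
    simpa using h.neg y.2.1 (-(Real.pi * t.1))

end Pool.Agent.PW
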