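import Pool.Agent.P.MP_65ad7c_ag.LFc
import Pool.Agent.P.MP_65ad7c_ag.LProj
import Pool.Agent.P.MP_65ad7c_ag.LCH

open Matrix Filter Topology Set
open scoped ComplexOrder Kronecker

noncomputable section
namespace Pool.Agent.PW.L

variable {n m : Type} [Fintype n] [DecidableEq n] [Fintype m] [DecidableEq m]
  {r : ℕ} {G : Subgroup (GL (Fin r) ℂ)} {Γ : Type}

omit [DecidableEq n] in
theorem lmu_key {Q a : Matrix n n ℂ} (h1 : Qᴴ = Q) (h2 : Q * Q = Q) (h3 : Q * a * Q = a * Q) :
    ((Q * a - a * Q)ᴴ * (Q * a - a * Q)).trace = -(Q * (aᴴ * a - a * aᴴ)).trace := by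
  have h4 : Q * aᴴ * Q = Q * aᴴ := by
    have := congrArg conjTranspose h3
    simpa only [conjTranspose_mul, h1, ← Matrix.mul_assoc] using this
  have e1 : (aᴴ * Q * (Q * a)).trace = (Q * (a * aᴴ)).trace := by
    rw [Matrix.mul_assoc, ← Matrix.mul_assoc Q Q, h2, trace_mul_comm, Matrix.mul_assoc]
  have e2 : (aᴴ * Q * (a * Q)).trace = (Q * (aᴴ * a)).trace := by
    rw [Matrix.mul_assoc, ← Matrix.mul_assoc Q a, h3, ← Matrix.mul_assoc, trace_mul_comm]
  have e3 : (Q * aᴴ * (Q * a)).trace = (Q * (aᴴ * a)).trace := by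
    rw [← Matrix.mul_assoc, h4, Matrix.mul_assoc]
  have e4 : (Q * aᴴ * (a * Q)).trace = (Q * (aᴴ * a)).trace := by
    rw [← Matrix.mul_assoc, trace_mul_comm, ← Matrix.mul_assoc, ← Matrix.mul_assoc, h2,
      Matrix.mul_assoc]
  rw [conjTranspose_sub, conjTranspose_mul, conjTranspose_mul, h1, Matrix.sub_mul,
    Matrix.mul_sub, Matrix.mul_sub, Matrix.mul_sub, trace_sub, trace_sub, trace_sub, trace_sub,
    e1, e2, e3, e4]
  ring

theorem perp_of_mu {ι : Type} [Fintype ι] (v : ι → Matrix n n ℂ) (h : mu v = 0) : Perp v := by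
  intro Q h1 h2 h3 i
  have hs : ∑ j, fro (Q * v j - v j * Q) = 0 := by
    have : ∑ j, fro (Q * v j - v j * Q) = -(Q * mu v).trace.re := by
      simp only [fro_eq, lmu_key h1 h2 (h3 _), mu, Matrix.mul_sum, trace_sum, Complex.re_sum,
        Complex.neg_re, Finset.sum_neg_distrib]
    rw [this, h]
    simp
  have h0 := (Finset.sum_eq_zero_iff_of_nonneg fun j _ => fro_nonneg _).1 hs i (Finset.mem_univ i)
  exact sub_eq_zero.1 (fro_eq_zero h0)

theorem lmu_ssm_lift {ι : Type} {v : ι → Matrix n n ℂ} (h : SSm v) : SSm (FreeMonoid.lift v) := by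
  intro W hW
  obtain ⟨W', hW', hc⟩ := h W fun i x hx => by simpa using hW (FreeMonoid.of i) x hx
  refine ⟨W', fun w => ?_, hc⟩
  induction w using FreeMonoid.inductionOn with
  | one => intro x hx; simpa using hx
  | of i => intro x hx; simpa using hW' i x hx
  | mul a b ha hb =>
    intro x hx
    rw [map_mul, ← mulVec_mulVec]
    exact ha _ (hb x hx)

theorem lmu_lift_zero {ι : Type} {w : FreeMonoid ι} (hw : w ≠ 1) :
    FreeMonoid.lift (0 : ι → Matrix n n ℂ) w = 0 := by
  induction w using FreeMonoid.inductionOn' with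
  | one => exact absurd rfl hw
  | of_mul i a _ => rw [map_mul]; simp

theorem nil_of_mu {ι : Type} [Fintype ι] (v : ι → Matrix n n ℂ) (h : mu v = 0)
    (ht : ∀ w : FreeMonoid ι, w ≠ 1 → (FreeMonoid.lift v w).trace = 0) : v = 0 := by
  have h0 : SSm (0 : ι → Matrix n n ℂ) := by
    intro W _
    obtain ⟨W', hc⟩ := Submodule.exists_isCompl W
    exact ⟨W', fun i x _ => by simp, hc⟩
  obtain ⟨T, hT, hx⟩ := ch (FreeMonoid.lift v) (FreeMonoid.lift (0 : ι → Matrix n n ℂ))
    (lmu_ssm_lift (ssm_of_perp (perp_of_mu v h))) (lmu_ssm_lift h0) fun w => by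
      by_cases hw : w = 1
      · rw [hw, map_one, map_one]
      · rw [ht w hw, lmu_lift_zero hw, trace_zero]
  funext i
  have h1 : T * v i = T * 0 := by simpa using hx (FreeMonoid.of i)
  exact hT.mul_left_cancel h1

omit [DecidableEq n] in
theorem lmu_herm {ι : Type} [Fintype ι] (v : ι → Matrix n n ℂ) : (mu v).IsHermitian := by
  unfold IsHermitian mu
  simp only [conjTranspose_sum, conjTranspose_sub, conjTranspose_mul, conjTranspose_conjTranspose]

theorem lmu_der {M : Matrix n n ℂ} (hM : M.IsHermitian) (a : Matrix n n ℂ) :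
    HasDerivAt (fun t => fro (ex (-t) M * a * ex t M))
      (2 * (M * (aᴴ * a - a * aᴴ)).trace.re) 0 := by
  have h1 : MD (fun t => ex (-t) M * a * ex t M) (-M * a + a * M) := by
    have := ((md_ex_neg hM).mul (MD.const a)).mul (md_ex hM)
    simpa only [neg_zero, ex_zero hM, Matrix.mul_zero, add_zero, Matrix.mul_one,
      Matrix.one_mul] using this
  have h2 := (h1.star.mul h1).trace_re
  simp only [neg_zero, ex_zero hM, Matrix.mul_one, Matrix.one_mul] at h2
  have e1 : (aᴴ * M * a).trace = (M * (a * aᴴ)).trace := by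
    rw [Matrix.mul_assoc, trace_mul_comm, Matrix.mul_assoc]
  have e2 : (aᴴ * (M * a)).trace = (M * (a * aᴴ)).trace := by
    rw [← Matrix.mul_assoc, e1]
  have e3 : (aᴴ * (a * M)).trace = (M * (aᴴ * a)).trace := by
    rw [← Matrix.mul_assoc, trace_mul_comm]
  have e4 : (M * aᴴ * a).trace = (M * (aᴴ * a)).trace := by
    rw [Matrix.mul_assoc]
  have e : ((-M * a + a * M)ᴴ * a + aᴴ * (-M * a + a * M)).trace =
      2 * (M * (aᴴ * a - a * aᴴ)).trace := by
    simp only [conjTranspose_add, conjTranspose_mul, conjTranspose_neg, hM.eq, Matrix.add_mul,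
      Matrix.mul_add, Matrix.neg_mul, Matrix.mul_neg, trace_add, trace_neg, Matrix.mul_sub,
      trace_sub, e1, e2, e3, e4]
    ring
  rw [e] at h2
  simp only [fro_eq]
  convert h2 using 1
  simp

theorem mu_of_min {ι : Type} [Fintype ι] (v : ι → Matrix n n ℂ)
    (h : ∀ g g' : Matrix n n ℂ, g * g' = 1 → ∑ i, fro (v i) ≤ ∑ i, fro (g' * v i * g)) :
    mu v = 0 := by
  have hM := lmu_herm v
  have hd : HasDerivAt (fun t => ∑ i, fro (ex (-t) (mu v) * v i * ex t (mu v)))
      (∑ i, 2 * (mu v * ((v i)ᴴ * v i - v i * (v i)ᴴ)).trace.re) 0 :=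
    HasDerivAt.fun_sum fun i _ => lmu_der hM (v i)
  have hmin : IsLocalMin (fun t => ∑ i, fro (ex (-t) (mu v) * v i * ex t (mu v))) 0 := by
    refine Filter.Eventually.of_forall fun t => ?_
    simp only [neg_zero, ex_zero hM, Matrix.mul_one, Matrix.one_mul]
    exact h _ _ (ex_mul_neg hM t)
  have h0 := hmin.hasDerivAt_eq_zero hd
  rw [← Finset.mul_sum, ← Complex.re_sum, ← trace_sum, ← Matrix.mul_sum] at h0
  apply fro_eq_zero
  rw [fro_eq, hM.eq]
  have h1 : (mu v * mu v).trace.re = 0 := by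
    have : (2 : ℝ) * (mu v * mu v).trace.re = 0 := h0
    linarith
  exact h1

end Pool.Agent.PW.L
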