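import Pool.Agent.P.MP_65ad7c_ag.LDer
import Pool.Agent.P.MP_65ad7c_ag.LGA
import Pool.Agent.P.MP_65ad7c_ag.LLem

open Matrix Filter Topology Set
open scoped ComplexOrder Kronecker

noncomputable section
namespace Pool.Agent.PW.L

variable {n m : Type} [Fintype n] [DecidableEq n] [Fintype m] [DecidableEq m]
  {r : ℕ} {G : Subgroup (GL (Fin r) ℂ)} {Γ : Type}

theorem exists_orth (ρ σ : Γ → Matrix n n ℂ) {a₀ : Matrix n n ℂ} (hu : IsUnit a₀)
    (h₀ : ∀ γ, σ γ * a₀ = a₀ * ρ γ) : ∃ a : Matrix n n ℂ, IsUnit a ∧ (∀ γ, σ γ * a = a * ρ γ) ∧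
      ∀ z ∈ Com ρ, (lg (aᴴ * a) * z).trace = 0 := by
  have hZ : IsClosed {a : Matrix n n ℂ | ∀ γ, σ γ * a = a * ρ γ} := by
    rw [Set.ofPred_forall]
    exact isClosed_iInter fun γ => isClosed_eq (continuous_const.matrix_mul continuous_id)
      (continuous_id.matrix_mul continuous_const)
  obtain ⟨a, haZ, ha, hmin⟩ := exists_min_sub hZ h₀ hu
  refine ⟨a, ha, haZ, ?_⟩
  have key : ∀ z ∈ Com ρ, (lg (aᴴ * a) * z).trace.re = 0 := by
    intro z hz
    have hD := (MD.const a).mul (md_lin z)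
    have h0 : (fun t : ℝ => a * (1 + (t : ℂ) • z)) 0 = a := by simp
    have hd := ph_hasDerivAt ha h0 hD
    have hev := hD.eventually_isUnit (by simpa using ha)
    have hloc : IsLocalMin (fun t : ℝ => ph (a * (1 + (t : ℂ) • z))) 0 := by
      filter_upwards [hev] with t ht
      have e0 : a * (1 + ((0 : ℝ) : ℂ) • z) = a := h0
      rw [e0]
      refine hmin _ (fun γ => ?_) ht
      rw [← Matrix.mul_assoc, haZ γ, Matrix.mul_assoc, Matrix.mul_assoc, Matrix.mul_add,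
        Matrix.add_mul, Matrix.mul_smul, Matrix.smul_mul, hz γ, Matrix.mul_one, Matrix.one_mul]
    have h1 := hloc.hasDerivAt_eq_zero hd
    rw [Matrix.zero_mul, zero_add, Matrix.mul_assoc, ← Matrix.mul_assoc a⁻¹,
      Matrix.nonsing_inv_mul _ ((Matrix.isUnit_iff_isUnit_det a).1 ha), Matrix.one_mul] at h1
    linarith
  intro z hz
  have h1 := key z hz
  have h2 := key (Complex.I • z) fun γ => by rw [Matrix.smul_mul, Matrix.mul_smul, hz γ]
  rw [Matrix.mul_smul, trace_smul, smul_eq_mul] at h2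
  apply Complex.ext
  · exact h1
  · simpa using h2

theorem lnorm_com {κ : Type} {R S : κ → Matrix n n ℂ} {A A' : Matrix n n ℂ} (h1 : A * A' = 1)
    (h : ∀ γ, S γ * A = A * R γ) {z : Matrix n n ℂ} (hz : z ∈ Com R) : A * z * A' ∈ Com S := by
  intro γ
  have h2 : A' * A = 1 := mul_eq_one_comm.1 h1
  have h3 : A' * S γ = R γ * A' := by
    calc A' * S γ = A' * (S γ * A) * A' := by
          rw [Matrix.mul_assoc, Matrix.mul_assoc, h1, Matrix.mul_one]
      _ = R γ * A' := by rw [h γ, ← Matrix.mul_assoc, h2, Matrix.one_mul]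
  calc A * z * A' * S γ = A * (z * R γ) * A' := by
        rw [Matrix.mul_assoc, h3]; simp only [Matrix.mul_assoc]
    _ = S γ * (A * z * A') := by
        rw [hz γ, ← Matrix.mul_assoc, ← h γ]; simp only [Matrix.mul_assoc]

theorem norm_conj [Group Γ] (hG : IsRed G) (ρ : Γ →* G) (σ : Γ →* Mx r) {a₀ : Mx r}
    (hu : IsUnit a₀) (h₀ : ∀ γ, σ γ * a₀ = a₀ * mat ρ γ)
    (hσ : ∀ J, ∀ c ∈ Com fun γ => RJ J (σ γ), cᴴ ∈ Com fun γ => RJ J (σ γ)) :
    ∃ (g : G) (k : Mx r), Uni k ∧ ∀ γ, mat (cjG g ρ) γ = kᴴ * σ γ * k := by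
  obtain ⟨a, ha, haσ, htr⟩ := exists_orth (mat ρ) σ hu h₀
  have hQ := posDef_star_mul ha
  obtain ⟨a', ha'⟩ := ha.exists_right_inv
  have hin : InG G (aᴴ * a) := by
    intro J c hc
    have hA : RJ J a * RJ J a' = 1 := by rw [← map_mul, ha', map_one]
    have hA' : RJ J a' * RJ J a = 1 := mul_eq_one_comm.1 hA
    have hS : ∀ γ, RJ J (σ γ) * RJ J a = RJ J a * RJ J (mat ρ γ) := fun γ => by
      rw [← map_mul, haσ γ, map_mul]
    have hS' : ∀ γ, RJ J (mat ρ γ) * RJ J a' = RJ J a' * RJ J (σ γ) := fun γ => by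
      calc RJ J (mat ρ γ) * RJ J a' = RJ J a' * (RJ J a * RJ J (mat ρ γ)) * RJ J a' := by
            rw [← Matrix.mul_assoc, hA', Matrix.one_mul]
        _ = RJ J a' * RJ J (σ γ) := by
            rw [← hS γ, Matrix.mul_assoc, Matrix.mul_assoc, hA, Matrix.mul_one]
    refine lemM (RJ_posDef J hQ) (Com fun γ => RJ J (mat ρ γ)) ?_ ?_ ?_
      (fun γ => hc _ (mat_mem ρ γ)) (fun γ => Cm_star hG hc _ (mat_mem ρ γ))
    · intro x hx y hy γ
      rw [Matrix.mul_assoc, hy γ, ← Matrix.mul_assoc, hx γ, Matrix.mul_assoc]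
    · intro z hz
      have hw := lnorm_com hA' hS' (hσ J _ (lnorm_com hA hS hz))
      have hp : RJ J (aᴴ * a) = (RJ J a)ᴴ * RJ J a := by rw [map_mul, RJ_star]
      have hpi : (RJ J (aᴴ * a))⁻¹ = RJ J a' * (RJ J a')ᴴ := by
        apply Matrix.inv_eq_left_inv
        rw [hp, Matrix.mul_assoc, ← Matrix.mul_assoc _ _ (RJ J a), ← conjTranspose_mul, hA,
          conjTranspose_one, Matrix.one_mul, hA']
      rw [hpi, hp]
      simpa only [conjTranspose_mul, Matrix.mul_assoc] using hw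
    · rw [lg_RJ J hQ]
      exact trace_dR (mat ρ) htr J
  have hL := lieG_lg hQ hin
  have hH : (lg (aᴴ * a)).IsHermitian := fc_herm _ _
  obtain ⟨g, hg, hg0⟩ := hL.ex_mem hG hH (1 / 2)
  have h1 := ex_mul_neg hH (1 / 2)
  have h2 := ex_half hQ
  have h3 := ex_herm (-(1 / 2)) (lg (aᴴ * a))
  generalize ex (-(1 / 2)) (lg (aᴴ * a)) = E at h1 h2 h3
  rw [← hg0] at h1
  have h4 : E * (aᴴ * a) = g.1 := by
    calc E * (aᴴ * a) = E * (aᴴ * a) * (E * g.1) := by
          rw [mul_eq_one_comm.1 h1, Matrix.mul_one]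
      _ = g.1 := by rw [← Matrix.mul_assoc, h2, Matrix.one_mul]
  have h5 : (g⁻¹).1 = E := Units.inv_eq_of_mul_eq_one_right h1
  refine ⟨⟨g, hg⟩, a * E, ?_, fun γ => ?_⟩
  · unfold Uni
    rw [conjTranspose_mul, h3.eq, ← h2]
    simp only [Matrix.mul_assoc]
  · have h6 : mat (cjG ⟨g, hg⟩ ρ) γ = g.1 * mat ρ γ * (g⁻¹).1 := by simp [mat, cjG]
    rw [h6, h5, ← h4, conjTranspose_mul, h3.eq]
    simp only [Matrix.mul_assoc]
    rw [← Matrix.mul_assoc (σ γ), haσ γ, Matrix.mul_assoc]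

end Pool.Agent.PW.L
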