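import Pool.Agent.P.MP_65ad7c_ag.LGA

open Matrix Filter Topology Set
open scoped ComplexOrder Kronecker

noncomputable section
namespace Pool.Agent.PW.L

variable {n m : Type} [Fintype n] [DecidableEq n] [Fintype m] [DecidableEq m]
  {r : ℕ} {G : Subgroup (GL (Fin r) ℂ)} {Γ : Type}

theorem lnull0_add (g : Matrix n n ℂ) (p q : MvPolynomial (n × n) ℂ) :
    pev g (p + q) = pev g p + pev g q := by
  simp only [pev, map_add]

theorem lnull0_mul (g : Matrix n n ℂ) (p q : MvPolynomial (n × n) ℂ) :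
    pev g (p * q) = pev g p * pev g q := by
  simp only [pev, map_mul]

theorem lnull0_pow (g : Matrix n n ℂ) (p : MvPolynomial (n × n) ℂ) (e : ℕ) :
    pev g (p ^ e) = pev g p ^ e := by
  simp only [pev, map_pow]

theorem lnull0_det : ∃ D : MvPolynomial (n × n) ℂ, ∀ g : Matrix n n ℂ, pev g D = g.det := by
  refine ⟨(Matrix.of fun i j => (MvPolynomial.X (i, j) : MvPolynomial (n × n) ℂ)).det, fun g => ?_⟩
  rw [pev, RingHom.map_det]
  congr 1
  ext i j
  simp

theorem lnull0_entry (a b : Matrix n n ℂ) (i j : n) :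
    ∃ P : MvPolynomial (n × n) ℂ, ∀ g : Matrix n n ℂ, pev g P = (g * a - b * g) i j := by
  refine ⟨∑ k, MvPolynomial.X (i, k) * MvPolynomial.C (a k j) -
    ∑ k, MvPolynomial.C (b i k) * MvPolynomial.X (k, j), fun g => ?_⟩
  simp [pev, Matrix.mul_apply]

/-- Nullstellensatz certificate for the absence of intertwiners in `G` -/
theorem null_sep (hG : IsRed G) (a b : Γ → Mx r) (h : ∀ g ∈ Gs G, ¬ ∀ γ, g * a γ = b γ * g) :
    ∃ (e : ℕ) (κ : Type) (_ : Fintype κ) (q : κ → MvPolynomial (Fin r × Fin r) ℂ) (γ : κ → Γ)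
      (i j : κ → Fin r), ∀ g ∈ Gs G,
        g.det ^ e = ∑ k, pev g (q k) * (g * a (γ k) - b (γ k) * g) (i k) (j k) := by
  obtain ⟨S, hS⟩ := hG.1
  obtain ⟨D, hD⟩ := lnull0_det (n := Fin r)
  choose P hP using fun (γ : Γ) (i j : Fin r) => lnull0_entry (a γ) (b γ) i j
  obtain ⟨T, hT⟩ : ∃ T : Set (MvPolynomial (Fin r × Fin r) ℂ),
      T = S ∪ {p | ∃ γ i j, p = P γ i j} := ⟨_, rfl⟩
  have hrad : D ∈ (Ideal.span T).radical := by
    rw [← MvPolynomial.vanishingIdeal_zeroLocus_eq_radical (K := ℂ),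
      MvPolynomial.mem_vanishingIdeal_iff]
    intro x hx
    rw [MvPolynomial.zeroLocus_span] at hx
    obtain ⟨g, hg⟩ : ∃ g : Mx r, g = Matrix.of fun i j => x (i, j) := ⟨_, rfl⟩
    have hgx : ∀ p : MvPolynomial (Fin r × Fin r) ℂ, MvPolynomial.aeval x p = pev g p := by
      intro p
      rw [pev, hg, MvPolynomial.aeval_eq_eval]
      rfl
    rw [hgx, hD]
    by_contra hdet
    have hu : IsUnit g := (Matrix.isUnit_iff_isUnit_det g).2 (isUnit_iff_ne_zero.2 hdet)
    refine h g ⟨hu.unit, (hS _).2 fun p hp => ?_, rfl⟩ fun γ => ?_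
    · have h1 := hx p (by rw [hT]; exact Or.inl hp)
      rw [hgx] at h1
      exact h1
    · rw [← sub_eq_zero]
      ext i j
      have h1 := hx (P γ i j) (by rw [hT]; exact Or.inr ⟨γ, i, j, rfl⟩)
      rw [hgx, hP] at h1
      exact h1
  obtain ⟨e, he⟩ := hrad
  have key : ∀ p ∈ Ideal.span T, ∃ (κ : Type) (_ : Fintype κ)
      (q : κ → MvPolynomial (Fin r × Fin r) ℂ) (γ : κ → Γ) (i j : κ → Fin r), ∀ g ∈ Gs G,
        pev g p = ∑ k, pev g (q k) * (g * a (γ k) - b (γ k) * g) (i k) (j k) := by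
    intro p hp
    induction hp using Submodule.span_induction with
    | mem p hp =>
      rw [hT] at hp
      rcases hp with hp | ⟨γ, i, j, rfl⟩
      · refine ⟨Empty, inferInstance, Empty.elim, Empty.elim, Empty.elim, Empty.elim, ?_⟩
        rintro g ⟨g', hg', rfl⟩
        rw [Finset.univ_eq_empty, Finset.sum_empty]
        exact (hS g').1 hg' p hp
      · refine ⟨Unit, inferInstance, fun _ => 1, fun _ => γ, fun _ => i, fun _ => j, ?_⟩
        intro g _
        rw [hP]
        simp [pev]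
    | zero =>
      refine ⟨Empty, inferInstance, Empty.elim, Empty.elim, Empty.elim, Empty.elim, ?_⟩
      intro g _
      rw [Finset.univ_eq_empty, Finset.sum_empty]
      simp [pev]
    | add p p' _ _ ih ih' =>
      obtain ⟨κ, _, q, γ, i, j, h1⟩ := ih
      obtain ⟨κ', _, q', γ', i', j', h2⟩ := ih'
      refine ⟨κ ⊕ κ', inferInstance, Sum.elim q q', Sum.elim γ γ', Sum.elim i i',
        Sum.elim j j', fun g hg => ?_⟩
      rw [lnull0_add, h1 g hg, h2 g hg, Fintype.sum_sum_type]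
      rfl
    | smul c p _ ih =>
      obtain ⟨κ, _, q, γ, i, j, h1⟩ := ih
      refine ⟨κ, inferInstance, fun k => c * q k, γ, i, j, fun g hg => ?_⟩
      rw [smul_eq_mul, lnull0_mul, h1 g hg, Finset.mul_sum]
      refine Finset.sum_congr rfl fun k _ => ?_
      rw [lnull0_mul, mul_assoc]
  obtain ⟨κ, _, q, γ, i, j, h1⟩ := key _ he
  refine ⟨e, κ, inferInstance, q, γ, i, j, fun g hg => ?_⟩
  rw [← h1 g hg, lnull0_pow, hD]

end Pool.Agent.PW.L
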