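import Pool.Agent.P.MP_65ad7c_ag.LPrep0

open Matrix Filter Topology Set
open scoped ComplexOrder Kronecker

noncomputable section
namespace Pool.Agent.PW.L

variable {n m : Type} [Fintype n] [DecidableEq n] [Fintype m] [DecidableEq m]
  {r : ℕ} {G : Subgroup (GL (Fin r) ℂ)} {Γ : Type}

/-- conjugation by a unitary matrix -/
def lprep_cj {k : Mx r} (hk : Uni k) : Mx r →* Mx r where
  toFun a := kᴴ * a * k
  map_one' := by
    rw [Matrix.mul_one]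
    exact hk
  map_mul' a b := by
    have h := hk.mul_self
    calc kᴴ * (a * b) * k = kᴴ * a * (k * kᴴ) * b * k := by
          rw [h, Matrix.mul_one, Matrix.mul_assoc kᴴ a b]
      _ = kᴴ * a * k * (kᴴ * b * k) := by simp only [Matrix.mul_assoc]

theorem lprep_cj_apply {k : Mx r} (hk : Uni k) (a : Mx r) : lprep_cj hk a = kᴴ * a * k := rfl

theorem lprep_poly {k : Mx r} (hk : Uni k) : IsPoly (lprep_cj hk) := by
  intro i j
  refine ⟨∑ q, (∑ p, MvPolynomial.C (kᴴ i p) * MvPolynomial.X (p, q)) * MvPolynomial.C (k q j),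
    fun a => ?_⟩
  simp only [lprep_cj_apply, Matrix.mul_apply, map_sum, map_mul, MvPolynomial.eval_C,
    MvPolynomial.eval_X]

theorem lprep_tendsto {ι : Type} {U : Filter ι} {k a : ι → Mx r} {k₀ a₀ : Mx r}
    (hk : ∀ i j, Tendsto (fun x => k x i j) U (𝓝 (k₀ i j)))
    (ha : ∀ i j, Tendsto (fun x => a x i j) U (𝓝 (a₀ i j))) (i j : Fin r) :
    Tendsto (fun x => ((k x)ᴴ * a x * k x) i j) U (𝓝 ((k₀ᴴ * a₀ * k₀) i j)) := by
  simp only [Matrix.mul_apply, Matrix.conjTranspose_apply]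
  refine tendsto_finsetSum _ fun q _ => Tendsto.mul ?_ (hk q j)
  exact tendsto_finsetSum _ fun p _ => Tendsto.mul (hk p i).star (ha p q)

variable [Group Γ] (K : RotSys Γ)

theorem rel_uni {C t : ℝ} {ρ ρ' σ σ' : Γ →* Mx r} {k : Mx r} (hk : Uni k) (h : K.Rel C t σ σ')
    (h₁ : ∀ γ, ρ γ = kᴴ * σ γ * k) (h₂ : ∀ γ, ρ' γ = kᴴ * σ' γ * k) : ∃ C', K.Rel C' t ρ ρ' := by
  obtain ⟨C', h'⟩ := K.prep (lprep_cj hk) (lprep_poly hk) (fun a => by
    simp only [lprep_cj_apply, Matrix.conjTranspose_mul, Matrix.conjTranspose_conjTranspose,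
      Matrix.mul_assoc]) h
  have e₁ : (lprep_cj hk).comp σ = ρ := MonoidHom.ext fun γ => (h₁ γ).symm
  have e₂ : (lprep_cj hk).comp σ' = ρ' := MonoidHom.ext fun γ => (h₂ γ).symm
  rw [e₁, e₂] at h'
  exact ⟨C', h'⟩

theorem URel.rel {C t : ℝ} {ρ ρ' : Γ →* Mx r} (h : URel K C t ρ ρ') : ∃ C', K.Rel C' t ρ ρ' := by
  obtain ⟨k, σ, σ', hk, h, h₁, h₂⟩ := h
  exact rel_uni K hk h h₁ h₂

theorem URel.lim {C t₀ : ℝ} {ι : Type} (U : Ultrafilter ι) {t : ι → ℝ} {ρ ρ' : ι → Γ →* Mx r}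
    (h : ∀ᶠ k in U, URel K C (t k) (ρ k) (ρ' k)) (ht : Tendsto t U (𝓝 t₀)) :
    ∃ (ρ₀ ρ₀' : Γ →* Mx r) (C' : ℝ), K.Rel C' t₀ ρ₀ ρ₀' ∧ RT U ρ ρ₀ ∧ RT U ρ' ρ₀' := by
  classical
  obtain ⟨x₀, hx₀⟩ := h.exists
  let f : ι → ι := fun x => if URel K C (t x) (ρ x) (ρ' x) then x else x₀
  have hf : ∀ x, URel K C (t (f x)) (ρ (f x)) (ρ' (f x)) := by
    intro x
    by_cases hx : URel K C (t x) (ρ x) (ρ' x)
    · have e : f x = x := if_pos hx
      rw [e]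
      exact hx
    · have e : f x = x₀ := if_neg hx
      rw [e]
      exact hx₀
  have hfe : ∀ᶠ x in U, f x = x := h.mono fun x hx => if_pos hx
  choose k σ σ' hk hR h₁ h₂ using hf
  obtain ⟨σ₀, hσ⟩ := rep_limit U σ fun γ => by
    obtain ⟨B, hB⟩ := K.bdd r C γ
    exact ⟨B, Eventually.of_forall fun x i j => (hB _ _ _ (hR x) i j).1⟩
  obtain ⟨σ₀', hσ'⟩ := rep_limit U σ' fun γ => by
    obtain ⟨B, hB⟩ := K.bdd r C γ
    exact ⟨B, Eventually.of_forall fun x i j => (hB _ _ _ (hR x) i j).2⟩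
  obtain ⟨k₀, hk₀⟩ := mat_limit U k (B := 1)
    (Eventually.of_forall fun x i j => (hk x).norm_le i j)
  have hu : Uni k₀ := by
    show k₀ᴴ * k₀ = 1
    ext i j
    have h1 := lprep_tendsto (a := fun _ => (1 : Mx r)) (a₀ := 1) hk₀
      (fun _ _ => tendsto_const_nhds) i j
    have h2 : ∀ x, ((k x)ᴴ * (1 : Mx r) * k x) i j = (1 : Mx r) i j := fun x => by
      rw [Matrix.mul_one, show (k x)ᴴ * k x = 1 from hk x]
    rw [funext h2, Matrix.mul_one] at h1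
    exact tendsto_nhds_unique h1 tendsto_const_nhds
  have ht' : Tendsto (fun x => t (f x)) U (𝓝 t₀) :=
    ht.congr' (hfe.mono fun x hx => by simp only [hx])
  obtain ⟨C₁, hC₁⟩ := K.lim ι U (fun x => t (f x)) t₀ σ σ' σ₀ σ₀' hR ht' hσ hσ'
  obtain ⟨ρ₀, e₀⟩ := exists_cj σ₀ hu.mul_self
  obtain ⟨ρ₀', e₀'⟩ := exists_cj σ₀' hu.mul_self
  obtain ⟨C', hC'⟩ := rel_uni K hu hC₁ e₀ e₀'
  refine ⟨ρ₀, ρ₀', C', hC', fun γ i j => ?_, fun γ i j => ?_⟩
  · rw [e₀]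
    refine (lprep_tendsto hk₀ (hσ γ) i j).congr' (hfe.mono fun x hx => ?_)
    have h3 := h₁ x γ
    rw [hx] at h3
    simp only [h3]
  · rw [e₀']
    refine (lprep_tendsto hk₀ (hσ' γ) i j).congr' (hfe.mono fun x hx => ?_)
    have h3 := h₂ x γ
    rw [hx] at h3
    simp only [h3]

end Pool.Agent.PW.L
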