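import Pool.Agent.P.MP_65ad7c_ag.LProj
import Pool.Agent.P.MP_65ad7c_ag.LRep

open Matrix Filter Topology Set
open scoped ComplexOrder Kronecker

noncomputable section
namespace Pool.Agent.PW.L

variable {n m : Type} [Fintype n] [DecidableEq n] [Fintype m] [DecidableEq m]
  {r : ℕ} {G : Subgroup (GL (Fin r) ℂ)} {Γ : Type}

/-- reindexing along `Fintype.equivFin` -/
def lprep0_rx (n : Type) [Fintype n] [DecidableEq n] :
    Matrix n n ℂ ≃ₐ[ℂ] Mx (Fintype.card n) :=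
  Matrix.reindexAlgEquiv ℂ ℂ (Fintype.equivFin n)

theorem lprep0_rx_apply (a : Matrix n n ℂ) (i j : Fin (Fintype.card n)) :
    lprep0_rx n a i j = a ((Fintype.equivFin n).symm i) ((Fintype.equivFin n).symm j) := rfl

theorem lprep0_rx_star (a : Matrix n n ℂ) : lprep0_rx n aᴴ = (lprep0_rx n a)ᴴ := by
  ext i j
  simp only [lprep0_rx_apply, conjTranspose_apply]

/-- the reindexed representation -/
def lprep0_R (R : Mx r →* Matrix n n ℂ) : Mx r →* Mx (Fintype.card n) where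
  toFun a := lprep0_rx n (R a)
  map_one' := by rw [map_one, map_one]
  map_mul' a b := by rw [map_mul, map_mul]

theorem lprep0_R_apply (R : Mx r →* Matrix n n ℂ) (a : Mx r) :
    lprep0_R R a = lprep0_rx n (R a) := rfl

variable [Group Γ] (K : RotSys Γ)

theorem lprep0_rel {C t : ℝ} {ρ ρ' : Γ →* Mx r} (R : Mx r →* Matrix n n ℂ) (hp : IsPoly R)
    (hs : ∀ a, R aᴴ = (R a)ᴴ) (h : K.Rel C t ρ ρ') :
    ∃ C' : ℝ, K.Rel C' t ((lprep0_R R).comp ρ) ((lprep0_R R).comp ρ') := by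
  refine K.prep (lprep0_R R) ?_ ?_ h
  · intro i j
    obtain ⟨p, hp⟩ := hp ((Fintype.equivFin n).symm i) ((Fintype.equivFin n).symm j)
    exact ⟨p, fun a => by rw [lprep0_R_apply, lprep0_rx_apply, hp]⟩
  · intro a
    rw [lprep0_R_apply, lprep0_R_apply, hs, lprep0_rx_star]

theorem prep_comm {C t : ℝ} {ρ ρ' : Γ →* Mx r} (R : Mx r →* Matrix n n ℂ) (hp : IsPoly R)
    (hs : ∀ a, R aᴴ = (R a)ᴴ) (h : K.Rel C t ρ ρ') {c : Matrix n n ℂ}
    (hc : c ∈ Com fun γ => R (ρ γ)) : c ∈ Com fun γ => R (ρ' γ) := by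
  obtain ⟨C', h'⟩ := lprep0_rel K R hp hs h
  obtain ⟨ε, hε, hu⟩ := exists_unit_one_add c
  have key := K.uniq (lprep0_rx n (1 + ε • c)) h' h' (hu.map (lprep0_rx n)) (by
    intro γ
    simp only [MonoidHom.comp_apply, lprep0_R_apply]
    rw [← map_mul, ← map_mul, add_mul, mul_add, one_mul, mul_one, smul_mul_assoc, mul_smul_comm,
      hc γ])
  intro γ
  have h1 := key γ
  simp only [MonoidHom.comp_apply, lprep0_R_apply] at h1
  rw [← map_mul, ← map_mul] at h1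
  have h2 := (lprep0_rx n).injective h1
  rw [add_mul, mul_add, one_mul, mul_one, smul_mul_assoc, mul_smul_comm] at h2
  exact smul_right_injective _ hε (add_left_cancel h2)

theorem prep_perp {C t : ℝ} {ρ ρ' : Γ →* Mx r} (R : Mx r →* Matrix n n ℂ) (hp : IsPoly R)
    (hs : ∀ a, R aᴴ = (R a)ᴴ) (h : K.Rel C t ρ ρ') : Perp fun γ => R (ρ γ) := by
  obtain ⟨C', h'⟩ := lprep0_rel K R hp hs h
  intro Q hQ hQ2 hinv γ
  have key := K.perp h' (lprep0_rx n Q) (by rw [← lprep0_rx_star, hQ])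
    (by rw [← map_mul, hQ2]) (by
      intro γ
      simp only [MonoidHom.comp_apply, lprep0_R_apply]
      rw [← map_mul, ← map_mul, ← map_mul, hinv γ]) γ
  simp only [MonoidHom.comp_apply, lprep0_R_apply] at key
  rw [← map_mul, ← map_mul] at key
  exact (lprep0_rx n).injective key

/-- `a ↦ R a ⊗ 1` -/
def lprep0_T (R : Mx r →* Matrix n n ℂ) : Mx r →* Matrix (n × n) (n × n) ℂ where
  toFun a := R a ⊗ₖ (1 : Matrix n n ℂ)
  map_one' := by rw [map_one, one_kronecker_one]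
  map_mul' a b := by rw [map_mul, ← mul_kronecker_mul, one_mul]

theorem prep_span {C t : ℝ} {ρ ρ' : Γ →* Mx r} (R : Mx r →* Matrix n n ℂ) (hp : IsPoly R)
    (hs : ∀ a, R aᴴ = (R a)ᴴ) (h : K.Rel C t ρ ρ') : SpanC fun γ => R (ρ γ) := by
  have h1 : Perp fun γ => lprep0_T R (ρ γ) := by
    refine prep_perp K (lprep0_T R) ?_ ?_ h
    · intro x y
      obtain ⟨p, hp⟩ := hp x.1 y.1
      refine ⟨p * MvPolynomial.C ((1 : Matrix n n ℂ) x.2 y.2), fun a => ?_⟩
      rw [map_mul, MvPolynomial.eval_C, ← hp]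
      rfl
    · intro a
      show R aᴴ ⊗ₖ (1 : Matrix n n ℂ) = (R a ⊗ₖ (1 : Matrix n n ℂ))ᴴ
      rw [conjTranspose_kronecker, conjTranspose_one, hs]
  exact spanC_of_perp (R.comp ρ) h1

theorem rel_span {C t : ℝ} {ρ ρ' : Γ →* Mx r} (h : K.Rel C t ρ ρ') : SpanC ρ := by
  refine prep_span K (MonoidHom.id (Mx r)) ?_ (fun _ => rfl) h
  intro i j
  exact ⟨MvPolynomial.X (i, j), fun a => by simp⟩

end Pool.Agent.PW.L
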