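import Pool.Agent.P.MP_65ad7c_ag.LGood

open Matrix Filter Topology Set
open scoped ComplexOrder Kronecker

noncomputable section
namespace Pool.Agent.PW.L

variable {n m : Type} [Fintype n] [DecidableEq n] [Fintype m] [DecidableEq m]
  {r : ℕ} {G : Subgroup (GL (Fin r) ℂ)} {Γ : Type}

variable [Group Γ]

theorem comp_cjG_mem (g : G) {f : (Γ →* G) → ℂ} (hf : f ∈ OO G Γ) :
    (fun ρ => f (cjG g ρ)) ∈ OO G Γ := by
  induction hf using Algebra.adjoin_induction with
  | mem x hx =>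
    obtain ⟨γ, i, j, rfl⟩ := hx
    have e : (fun ρ : Γ →* G => ((cjG g ρ) γ).1.1 i j) =
        ∑ b, ∑ a, (g.1.1 i a * (g⁻¹).1.1 b j) • fun ρ : Γ →* G => (ρ γ).1.1 a b := by
      funext ρ
      have := mat_cjG g ρ γ
      rw [mat_apply, mat_apply] at this
      rw [this]
      simp only [Matrix.mul_apply, Finset.sum_apply, Pi.smul_apply, smul_eq_mul, Finset.sum_mul]
      exact Finset.sum_congr rfl fun b _ => Finset.sum_congr rfl fun a _ => by ring
    rw [e]
    exact Subalgebra.sum_mem _ fun b _ => Subalgebra.sum_mem _ fun a _ =>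
      Subalgebra.smul_mem _ (Algebra.subset_adjoin (by exact ⟨γ, a, b, rfl⟩)) _
  | algebraMap c => exact Subalgebra.algebraMap_mem _ c
  | add x y _ _ hx hy => exact add_mem hx hy
  | mul x y _ _ hx hy => exact mul_mem hx hy

theorem av_mem (c : G →₀ ℂ) {f : (Γ →* G) → ℂ} (hf : f ∈ OO G Γ) : av c f ∈ OO G Γ := by
  have e : av c f = ∑ h ∈ c.support, c h • fun ρ => f (cjG h ρ) := by
    funext ρ
    simp only [av, Finsupp.sum, Finset.sum_apply, Pi.smul_apply, smul_eq_mul]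
  rw [e]
  exact Subalgebra.sum_mem _ fun h _ => Subalgebra.smul_mem _ (comp_cjG_mem h hf) _

/-- finite Reynolds averaging -/
theorem rey (hG : IsRed G) {κ : Type} [Finite κ] {f : κ → (Γ →* G) → ℂ}
    (h : ∀ k, f k ∈ OO G Γ) : ∃ c : G →₀ ℂ, (c.sum fun _ x => x) = 1 ∧ ∀ k, av c (f k) ∈ Inv Γ G := by
  obtain ⟨n, _, _, π, v, l, h1, h2, h3⟩ := good_of_mem h
  obtain ⟨c, c1, c2⟩ := avg π fun g => by
    obtain ⟨g', hg', e⟩ := hG.2 g.1 g.2
    exact ⟨⟨g', hg'⟩, h1 g ⟨g', hg'⟩ e⟩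
  have key : ∀ k ρ, av c (f k) ρ = l k ⬝ᵥ ((c.sum fun h x => x • π h) *ᵥ v ρ) := by
    intro k ρ
    simp only [av, Finsupp.sum, h3, h2, Matrix.sum_mulVec, dotProduct_sum, Matrix.smul_mulVec,
      dotProduct_smul, smul_eq_mul]
  refine ⟨c, c1, fun k => mem_Inv.2 ⟨av_mem c (h k), fun g ρ => ?_⟩⟩
  rw [key, key, h2, Matrix.mulVec_mulVec, c2]

/-- the ideal generated by the annihilator of `e` and the kernel of `y` is proper -/
theorem one_ne_sum (hG : IsRed G) (y : Inv Γ G →ₐ[ℂ] ℂ) (e : Inv Γ G)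
    (h : ∀ o : Inv Γ G, o * e = 0 → y o = 0) {κ : Type} [Fintype κ] (a : κ → Inv Γ G)
    (ha : ∀ k, y (a k) = 0) (o : κ → (Γ →* G) → ℂ) (ho : ∀ k, o k ∈ OO G Γ)
    (j : (Γ →* G) → ℂ) (hj : j * e.1 = 0) : j + ∑ k, (a k).1 * o k ≠ 1 := by
  intro hs
  obtain ⟨c, c1, c2⟩ := rey hG ho
  have hw : (1 - ∑ k, a k * ⟨av c (o k), c2 k⟩ : Inv Γ G) * e = 0 := by
    apply Subtype.ext
    funext ρ
    have e1 : ∀ g : G, 1 - ∑ k, (a k).1 ρ * o k (cjG g ρ) = j (cjG g ρ) := by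
      intro g
      have := congrFun hs (cjG g ρ)
      simp only [Pi.add_apply, Finset.sum_apply, Pi.mul_apply, Pi.one_apply] at this
      rw [← this]
      simp only [(mem_Inv.1 (a _).2).2 g ρ]
      ring
    have e2 : ∀ g : G, j (cjG g ρ) * e.1 ρ = 0 := by
      intro g
      have := congrFun hj (cjG g ρ)
      rwa [Pi.mul_apply, (mem_Inv.1 e.2).2 g ρ] at this
    have e3 : 1 - ∑ k, (a k).1 ρ * av c (o k) ρ = ∑ g ∈ c.support, c g * j (cjG g ρ) := by
      simp only [← e1, mul_sub, Finset.sum_sub_distrib, mul_one, av, Finsupp.sum, Finset.mul_sum]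
      rw [Finset.sum_comm]
      have : ∑ g ∈ c.support, c g = 1 := c1
      rw [this]
      congr 1
      exact Finset.sum_congr rfl fun g _ => Finset.sum_congr rfl fun k _ => by ring
    have e4 : ((1 - ∑ k, a k * ⟨av c (o k), c2 k⟩ : Inv Γ G) * e).1 ρ =
        (1 - ∑ k, (a k).1 ρ * av c (o k) ρ) * e.1 ρ := by
      simp only [MulMemClass.coe_mul, AddSubgroupClass.coe_sub, OneMemClass.coe_one,
        AddSubmonoidClass.coe_finsetSum, Pi.mul_apply, Pi.sub_apply, Pi.one_apply,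
        Finset.sum_apply]
    rw [e4, e3, Finset.sum_mul]
    exact Finset.sum_eq_zero fun g _ => by rw [mul_assoc, e2, mul_zero]
  have := h _ hw
  simp only [map_sub, map_one, map_sum, map_mul, ha, zero_mul, Finset.sum_const_zero,
    sub_zero] at this
  exact one_ne_zero this

end Pool.Agent.PW.L
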