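import Pool.Agent.P.MP_65ad7c_ag.LPrep
import Pool.Agent.P.MP_65ad7c_ag.LNorm
import Pool.Agent.P.MP_65ad7c_ag.LG2

open Matrix Filter Topology Set
open scoped ComplexOrder Kronecker

noncomputable section
namespace Pool.Agent.PW.L

variable {n m : Type} [Fintype n] [DecidableEq n] [Fintype m] [DecidableEq m]
  {r : ℕ} {G : Subgroup (GL (Fin r) ℂ)} {Γ : Type}

variable [Group Γ] (K : RotSys Γ)

theorem rel_mem (hG : IsRed G) {C t : ℝ} {ρ ρ' : Γ →* Mx r} (h : K.Rel C t ρ ρ')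
    (hρ : ∀ γ, ρ γ ∈ Gs G) (γ : Γ) : ρ' γ ∈ Gs G := by
  refine mem_of_inG hG (rep_isUnit ρ' γ) fun J c hc => ?_
  exact prep_comm K (RJ J) (RJ_poly J) (RJ_star J) h (fun γ' => hc _ (hρ γ')) γ

theorem rot_wd (hG : IsRed G) {t : ℝ} {τ₁ τ₁' τ₂ τ₂' : Γ →* G} (h₁ : Rot K t τ₁ τ₁')
    (h₂ : Rot K t τ₂ τ₂') (he : ev τ₁ = ev τ₂) : ev τ₁' = ev τ₂' := by
  obtain ⟨C₁, h₁⟩ := h₁
  obtain ⟨C₂, h₂⟩ := h₂
  obtain ⟨g, hg, hc⟩ := g2 hG (rel_span K h₁) (rel_span K h₂) he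
  have hc' := K.uniq g h₁ h₂ (Gs_unit hg) hc
  obtain ⟨g₀, hg₀, rfl⟩ := hg
  have e : τ₂' = cjG ⟨g₀, hg₀⟩ τ₁' := by
    refine mat_injective (MonoidHom.ext fun γ => ?_)
    rw [mat_cjG]
    have e1 : ((⟨g₀, hg₀⟩ : G)⁻¹).1.1 = (g₀⁻¹).1 := rfl
    rw [e1]
    change mat τ₂' γ = g₀.1 * mat τ₁' γ * (g₀⁻¹).1
    rw [hc' γ, Matrix.mul_assoc, ← Units.val_mul, mul_inv_cancel, Units.val_one, Matrix.mul_one]
  rw [e, ev_cjG]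

theorem rot_exists (hG : IsRed G) (hr : 0 < r) (N : ℝ) : ∃ C : ℝ, ∀ y : Inv Γ G → ℂ,
    Sml K.S N y → ∃ (τ : Γ →* G) (F : ℝ → Γ →* G), ev τ = y ∧ (AnR fun t => mat (F t)) ∧
      ∀ t, URel K C t (mat τ) (mat (F t)) ∧ Rot K (-t) (F t) τ := by
  obtain ⟨C, hC⟩ := K.exi r N hr
  refine ⟨C, fun y hy => ?_⟩
  obtain ⟨ρ, σ, u, hy, hss, hu, huσ, hN⟩ := hy
  obtain ⟨u₀, σ₀, F₀, hu₀, hσ₀, hF, hRel⟩ := hC σ hss hN
  obtain ⟨w, hw⟩ := hu.mul hu₀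
  have h1 : ∀ γ, w.1 * σ₀ γ = mat ρ γ * w.1 := by
    intro γ
    rw [hw, Matrix.mul_assoc, hσ₀, ← Matrix.mul_assoc, huσ, Matrix.mul_assoc]
  have h0 : ∀ γ, σ₀ γ * (w⁻¹).1 = (w⁻¹).1 * mat ρ γ := by
    intro γ
    have e : σ₀ γ * (w⁻¹).1 = (w⁻¹).1 * (w.1 * σ₀ γ) * (w⁻¹).1 := by
      rw [← Matrix.mul_assoc, ← Units.val_mul, inv_mul_cancel, Units.val_one, Matrix.one_mul]
    rw [e, h1, Matrix.mul_assoc, Matrix.mul_assoc, ← Units.val_mul, mul_inv_cancel, Units.val_one,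
      Matrix.mul_one]
  obtain ⟨g, k, hk, hτ⟩ := norm_conj hG ρ σ₀ (w⁻¹).isUnit h0 fun J c hc =>
    (prep_span K (RJ J) (RJ_poly J) (RJ_star J) (hRel 0).1).com_star hc
  have hex : ∀ t, ∃ F : Γ →* G, ∀ γ, mat F γ = kᴴ * F₀ t γ * k := by
    intro t
    obtain ⟨σ', hσ'⟩ := exists_cj (F₀ t) hk.mul_self
    obtain ⟨C', hC'⟩ := rel_uni K hk (hRel t).1 hτ hσ'
    obtain ⟨F, hF'⟩ := exists_lift σ' (rel_mem K hG hC' (mat_mem _))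
    exact ⟨F, fun γ => by rw [hF', hσ']⟩
  choose F hFe using hex
  refine ⟨cjG g ρ, F, by rw [ev_cjG, hy], fun γ i j => ?_, fun t => ⟨?_, ?_⟩⟩
  · have e : (fun t => mat (F t) γ i j) =
        fun t => ∑ b, (∑ a, kᴴ i a * F₀ t γ a b) * k b j := by
      funext t
      rw [hFe]
      simp only [Matrix.mul_apply]
    change AnalyticOnNhd ℝ (fun t => mat (F t) γ i j) univ
    rw [e]
    refine Finset.analyticOnNhd_fun_sum _ fun b _ => ?_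
    refine AnalyticOnNhd.mul ?_ analyticOnNhd_const
    refine Finset.analyticOnNhd_fun_sum _ fun a _ => ?_
    exact AnalyticOnNhd.mul analyticOnNhd_const (hF γ a b)
  · exact ⟨k, σ₀, F₀ t, hk, (hRel t).1, hτ, hFe t⟩
  · obtain ⟨C', hC'⟩ := (hRel t).2
    exact rel_uni K hk hC' (hFe t) hτ

theorem rot_lim (hG : IsRed G) {C t₀ : ℝ} {ι : Type} (U : Ultrafilter ι) {t : ι → ℝ}
    {τ τ' : ι → Γ →* G} (h : ∀ᶠ k in U, URel K C (t k) (mat (τ k)) (mat (τ' k)))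
    (ht : Tendsto t U (𝓝 t₀)) : ∃ τ₀ τ₀' : Γ →* G, Rot K t₀ τ₀ τ₀' ∧ GT U τ τ₀ ∧ GT U τ' τ₀' := by
  obtain ⟨ρ₀, ρ₀', C', hR, h₁, h₂⟩ := URel.lim K U h ht
  have m₁ : ∀ γ, ρ₀ γ ∈ Gs G := fun γ =>
    Gs_closed hG (U := (U : Filter ι)) (a := fun k => mat (τ k) γ)
      (Eventually.of_forall fun k => mat_mem _ γ) (h₁ γ) (rep_isUnit ρ₀ γ)
  have m₂ : ∀ γ, ρ₀' γ ∈ Gs G := fun γ =>
    Gs_closed hG (U := (U : Filter ι)) (a := fun k => mat (τ' k) γ)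
      (Eventually.of_forall fun k => mat_mem _ γ) (h₂ γ) (rep_isUnit ρ₀' γ)
  obtain ⟨τ₀, rfl⟩ := exists_lift ρ₀ m₁
  obtain ⟨τ₀', rfl⟩ := exists_lift ρ₀' m₂
  exact ⟨τ₀, τ₀', ⟨C', hR⟩, h₁, h₂⟩

end Pool.Agent.PW.L
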