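import Pool.Agent.P.MP_65ad7c_ag.LTens0

open Matrix Filter Topology Set
open scoped ComplexOrder Kronecker

noncomputable section
namespace Pool.Agent.PW.L

variable {n m : Type} [Fintype n] [DecidableEq n] [Fintype m] [DecidableEq m]
  {r : ℕ} {G : Subgroup (GL (Fin r) ℂ)} {Γ : Type}

omit [Fintype n] in
theorem ltens_tp_diag {J : ℕ} (e : Fin J → n → ℂ) :
    tp (fun i => diagonal (e i)) = diagonal fun x => ∏ i, e i (x i) := by
  ext x y
  rw [tp_apply]
  by_cases h : x = y
  · subst h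
    simp only [diagonal_apply_eq]
  · rw [diagonal_apply_ne _ h]
    obtain ⟨i, hi⟩ := Function.ne_iff.1 h
    exact Finset.prod_eq_zero (Finset.mem_univ i) (diagonal_apply_ne _ hi)

omit [Fintype n] in
theorem ltens_ox_diag (d : n → ℝ) :
    ox 0 (diagonal fun i => (d i : ℂ)) = diagonal fun o : Option n => ((o.elim 0 d : ℝ) : ℂ) := by
  ext x y
  rcases x with _ | i <;> rcases y with _ | j <;> simp [diagonal_apply]

omit [Fintype n] in
theorem ltens_sl_diag {J : ℕ} (k : Fin J) (d : n → ℝ) :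
    sl k (diagonal fun i => (d i : ℂ)) =
      diagonal fun x : Fin J → Option n => (((x k).elim 0 d : ℝ) : ℂ) := by
  have e : Function.update (fun _ : Fin J => (1 : Matrix (Option n) (Option n) ℂ)) k
      (ox 0 (diagonal fun i => (d i : ℂ))) = fun i => diagonal
        fun o : Option n => if i = k then ((o.elim 0 d : ℝ) : ℂ) else 1 := by
    funext i
    by_cases h : i = k
    · subst h
      rw [Function.update_self, ltens_ox_diag]
      simp only [if_true]
    · rw [Function.update_of_ne h]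
      simp only [if_neg h, diagonal_one]
  rw [sl, e, ltens_tp_diag]
  simp only [Finset.prod_ite_eq', Finset.mem_univ, if_true]

theorem ltens_sl_Dg {J : ℕ} (k : Fin J) {U : Matrix n n ℂ} (h : Uni U) (d : n → ℝ) :
    sl k (Dg U d) = Dg (RJ J U) fun x => (x k).elim 0 d := by
  have h1 : U * diagonal (fun i => (d i : ℂ)) = Dg U d * U := by
    rw [Dg, Matrix.mul_assoc _ Uᴴ, show Uᴴ * U = 1 from h, Matrix.mul_one]
  have h2 := RJ_sl k h1
  rw [ltens_sl_diag] at h2
  generalize Dg U d = Y at h2 ⊢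
  rw [Dg, h2, Matrix.mul_assoc, (RJ_uni J h).mul_self, Matrix.mul_one]

theorem dR_Dg (J : ℕ) {U : Matrix n n ℂ} (h : Uni U) (d : n → ℝ) :
    dR J (Dg U d) = Dg (RJ J U) fun x => ∑ i, (x i).elim 0 d := by
  have e : (diagonal fun x : Fin J → Option n => ((∑ i, (x i).elim 0 d : ℝ) : ℂ)) =
      ∑ k : Fin J, diagonal fun x : Fin J → Option n => (((x k).elim 0 d : ℝ) : ℂ) := by
    ext x y
    rw [Matrix.sum_apply]
    by_cases hxy : x = y
    · subst hxy
      simp only [diagonal_apply_eq, Complex.ofReal_sum]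
    · simp only [diagonal_apply_ne _ hxy, Finset.sum_const_zero]
  rw [dR, Finset.sum_congr rfl fun k _ => ltens_sl_Dg k h d]
  simp only [Dg]
  rw [e, Matrix.mul_sum, Matrix.sum_mul]

theorem dR_herm (J : ℕ) {X : Matrix n n ℂ} (h : X.IsHermitian) : (dR J X).IsHermitian := by
  obtain ⟨U, d, hU, rfl⟩ := exists_Dg h
  rw [dR_Dg J hU]
  exact Dg_herm _ _

omit [Fintype n] [DecidableEq n] in
theorem ltens_pos {d : n → ℝ} (hd : ∀ i, 0 < d i) (o : Option n) : 0 < o.elim 1 d := by
  rcases o with _ | i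
  · exact one_pos
  · exact hd i

theorem RJ_posDef (J : ℕ) {P : Matrix n n ℂ} (h : P.PosDef) : (RJ J P).PosDef := by
  obtain ⟨U, d, hU, hd, rfl⟩ := exists_Dg_pos h
  rw [RJ_Dg]
  exact Dg_posDef (RJ_uni J hU) fun x => Finset.prod_pos fun i _ => ltens_pos hd _

theorem lg_RJ (J : ℕ) {P : Matrix n n ℂ} (h : P.PosDef) : lg (RJ J P) = dR J (lg P) := by
  obtain ⟨U, d, hU, hd, rfl⟩ := exists_Dg_pos h
  rw [RJ_Dg, lg, lg, fc_Dg (RJ_uni J hU), fc_Dg hU, dR_Dg J hU]
  congr 1
  funext x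
  rw [Real.log_prod fun i _ => (ltens_pos hd _).ne']
  refine Finset.sum_congr rfl fun i _ => ?_
  rcases x i with _ | j
  · exact Real.log_one
  · rfl

theorem RJ_ex (J : ℕ) {X : Matrix n n ℂ} (h : X.IsHermitian) (t : ℝ) :
    RJ J (ex t X) = ex t (dR J X) := by
  obtain ⟨U, d, hU, rfl⟩ := exists_Dg h
  rw [dR_Dg J hU, ex, ex, fc_Dg (RJ_uni J hU), fc_Dg hU, RJ_Dg]
  congr 1
  funext x
  rw [Finset.mul_sum, Real.exp_sum]
  refine Finset.prod_congr rfl fun i _ => ?_
  rcases x i with _ | j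
  · simp
  · rfl

end Pool.Agent.PW.L
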