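import Pool.Agent.P.MP_65ad7c_ag.LFc

open Matrix Filter Topology Set
open scoped ComplexOrder Kronecker

noncomputable section
namespace Pool.Agent.PW.L

variable {n m : Type} [Fintype n] [DecidableEq n] [Fintype m] [DecidableEq m]
  {r : ℕ} {G : Subgroup (GL (Fin r) ℂ)} {Γ : Type}

theorem ox_star (c : ℂ) (a : Matrix n n ℂ) : (ox c a)ᴴ = ox (star c) aᴴ := by
  ext x y
  rcases x with _ | i <;> rcases y with _ | j <;> simp [conjTranspose_apply]

theorem tp_star {J : ℕ} (a : Fin J → Matrix n n ℂ) : (tp a)ᴴ = tp fun i => (a i)ᴴ := by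
  ext x y
  simp only [conjTranspose_apply, tp_apply, star_prod]

theorem RJ_star (J : ℕ) (a : Matrix n n ℂ) : RJ J aᴴ = (RJ J a)ᴴ := by
  rw [RJ_apply, RJ_apply, tp_star]
  simp only [ox_star, star_one]

theorem RJ_uni (J : ℕ) {U : Matrix n n ℂ} (h : Uni U) : Uni (RJ J U) := by
  unfold Uni at *
  rw [← RJ_star, ← map_mul, h, map_one]

theorem ltens0_diag (J : ℕ) (d : n → ℝ) :
    RJ J (diagonal fun i => (d i : ℂ)) =
      diagonal fun x : Fin J → Option n => ((∏ i, (x i).elim 1 d : ℝ) : ℂ) := by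
  have h1 : ox 1 (diagonal fun i => (d i : ℂ)) =
      diagonal fun o : Option n => ((o.elim 1 d : ℝ) : ℂ) := by
    ext x y
    rcases x with _ | i <;> rcases y with _ | j <;> simp [diagonal_apply]
  ext x y
  rw [RJ_apply, tp_apply, h1]
  by_cases hxy : x = y
  · subst hxy
    simp
  · obtain ⟨i, hi⟩ := Function.ne_iff.1 hxy
    rw [diagonal_apply_ne _ hxy]
    exact Finset.prod_eq_zero (Finset.mem_univ i) (diagonal_apply_ne _ hi)

theorem RJ_Dg (J : ℕ) (U : Matrix n n ℂ) (d : n → ℝ) :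
    RJ J (Dg U d) = Dg (RJ J U) fun x => ∏ i, (x i).elim 1 d := by
  unfold Dg
  rw [map_mul, map_mul, RJ_star, ltens0_diag]

omit [Fintype n] [DecidableEq n] in
theorem ltens0_upd {J : ℕ} (a : Fin J → Matrix n n ℂ) (k : Fin J) (X : Matrix n n ℂ)
    (x y : Fin J → n) : tp (Function.update a k X) x y =
      X (x k) (y k) * ∏ i ∈ Finset.univ.erase k, a i (x i) (y i) := by
  rw [tp_apply, ← Finset.mul_prod_erase _ _ (Finset.mem_univ k), Function.update_self]
  congr 1
  exact Finset.prod_congr rfl fun i hi => by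
    rw [Function.update_of_ne (Finset.ne_of_mem_erase hi)]

theorem sl_add {J : ℕ} (k : Fin J) (X Y : Matrix n n ℂ) : sl k (X + Y) = sl k X + sl k Y := by
  ext x y
  simp only [sl, Matrix.add_apply, ltens0_upd, ← add_mul]
  congr 1
  rcases x k with _ | i <;> rcases y k with _ | j <;> simp

theorem sl_smul {J : ℕ} (k : Fin J) (c : ℂ) (X : Matrix n n ℂ) : sl k (c • X) = c • sl k X := by
  ext x y
  simp only [sl, Matrix.smul_apply, ltens0_upd, smul_eq_mul, ← mul_assoc]
  congr 1
  rcases x k with _ | i <;> rcases y k with _ | j <;> simp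

theorem sl_star {J : ℕ} (k : Fin J) (X : Matrix n n ℂ) : sl k Xᴴ = (sl k X)ᴴ := by
  unfold sl
  rw [tp_star]
  congr 1
  funext i
  by_cases h : i = k
  · subst h
    simp [ox_star]
  · simp [Function.update_of_ne h]

theorem RJ_sl {J : ℕ} (k : Fin J) {g X Y : Matrix n n ℂ} (h : g * X = Y * g) :
    RJ J g * sl k X = sl k Y * RJ J g := by
  unfold sl
  rw [RJ_apply, tp_mul, tp_mul]
  congr 1
  funext i
  by_cases hi : i = k
  · subst hi
    simp [ox_mul, h]
  · simp [Function.update_of_ne hi]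

theorem dR_add (J : ℕ) (X Y : Matrix n n ℂ) : dR J (X + Y) = dR J X + dR J Y := by
  simp only [dR, sl_add, Finset.sum_add_distrib]

theorem dR_zero (J : ℕ) : dR J (0 : Matrix n n ℂ) = 0 := by
  have h := dR_add (n := n) J 0 0
  rw [add_zero] at h
  exact left_eq_add.1 h

theorem RJ_poly (J : ℕ) : IsPoly (RJ (n := n) J) := by
  intro x y
  have h : ∀ a b : Option n, ∃ p : MvPolynomial (n × n) ℂ, ∀ m : Matrix n n ℂ,
      ox 1 m a b = MvPolynomial.eval (fun x => m x.1 x.2) p := by
    rintro (_ | i) (_ | j)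
    · exact ⟨1, fun m => by simp⟩
    · exact ⟨0, fun m => by simp⟩
    · exact ⟨0, fun m => by simp⟩
    · exact ⟨MvPolynomial.X (i, j), fun m => by simp⟩
  choose p hp using h
  exact ⟨∏ i, p (x i) (y i), fun m => by
    rw [RJ_apply, tp_apply, map_prod]
    exact Finset.prod_congr rfl fun i _ => hp _ _ m⟩

end Pool.Agent.PW.L
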