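import Pool.Agent.P.MP_65ad7c_ag.TTest

open MeasureTheory Set Filter Topology Metric Matrix
open scoped ComplexOrder ContDiff Matrix.Norms.Frobenius RealInnerProductSpace ENNReal
open Pool.Agent.Lib.Sob

noncomputable section
namespace Pool.Agent.PW

variable {E : Type} [NormedAddCommGroup E] [InnerProductSpace ℝ E] [FiniteDimensional ℝ E]
  [MeasurableSpace E] [BorelSpace E] {r : ℕ} {U : Set E}
  {V W : Type} [NormedAddCommGroup V] [NormedSpace ℝ V] [NormedAddCommGroup W] [NormedSpace ℝ W]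

/-- weak subsolution of `- div (α ∇ f) ≤ c`, tested on `K` -/
def SubSol (U K : Set E) (α : E → E →L[ℝ] E) (Df : E → E →L[ℝ] ℝ) (c : ℝ) : Prop :=
  ∀ (η : E → ℝ) (Dη : E → E →L[ℝ] ℝ), WD 2 U η Dη → LB U η → (∀ x ∈ U, 0 ≤ η x) →
    (∀ x ∈ U, x ∉ K → η x = 0) → ∫ x in U, spair (α x) (Df x) (Dη x) ≤ c * ∫ x in U, η x

/-- derivative of the positive part -/
def caccPsi (k s : ℝ) : ℝ := if k < s then 1 else 0

theorem cacc_int (k s : ℝ) : ∫ t in k..s, caccPsi k t = max (s - k) 0 := by
  rcases le_or_gt k s with h | h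
  · rw [intervalIntegral.integral_of_le h, max_eq_left (sub_nonneg.2 h),
      setIntegral_congr_fun (g := fun _ => (1 : ℝ)) measurableSet_Ioc
        (fun t ht => by simp [caccPsi, ht.1])]
    simp [h]
  · rw [intervalIntegral.integral_of_ge h.le, max_eq_right (sub_nonpos.2 h.le),
      setIntegral_congr_fun (g := fun _ => (0 : ℝ)) measurableSet_Ioc
        (fun t ht => by simp [caccPsi, not_lt.2 ht.2])]
    simp

theorem cacc_wd (hU : IsOpen U) {f : E → ℝ} {Df : E → E →L[ℝ] ℝ} (h : WD 2 U f Df) (k : ℝ) :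
    WD 2 U (fun x => max (f x - k) 0) (fun x => caccPsi k (f x) • Df x) := by
  have := h.comp_primitive (by norm_num) hU (ψ := caccPsi k)
    (ψk := fun j s => min (max ((j : ℝ) * (s - k)) 0) 1) (fun j => by fun_prop) (L := 1)
    (fun j s => by
      rw [Real.norm_eq_abs, abs_le]
      refine ⟨?_, min_le_right _ _⟩
      have : (0 : ℝ) ≤ min (max ((j : ℝ) * (s - k)) 0) 1 := le_min (le_max_right _ _) zero_le_one
      linarith)
    (fun s => by
      rcases lt_or_ge k s with hs | hs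
      · have h1 : Tendsto (fun j : ℕ => (j : ℝ) * (s - k)) atTop atTop :=
          tendsto_natCast_atTop_atTop.atTop_mul_const (sub_pos.2 hs)
        refine tendsto_const_nhds.congr' ?_
        filter_upwards [h1.eventually_ge_atTop 1] with j hj
        simp only [caccPsi, hs, if_true]
        rw [min_eq_right (le_max_of_le_left hj)]
      · refine tendsto_const_nhds.congr' (Eventually.of_forall fun j => ?_)
        have : (j : ℝ) * (s - k) ≤ 0 :=
          mul_nonpos_of_nonneg_of_nonpos (Nat.cast_nonneg j) (sub_nonpos.2 hs)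
        simp only [caccPsi, not_lt.2 hs, if_false]
        rw [max_eq_right this, min_eq_left zero_le_one]) k
  simpa only [cacc_int] using this

theorem cacc_integrableOn {α : E → E →L[ℝ] E} (hα : ContinuousOn α U) {p q : E → E →L[ℝ] ℝ}
    (hp : LocLp 2 U p) (hq : LocLp 2 U q) {K : Set E} (hK : IsCompact K) (hKU : K ⊆ U) :
    IntegrableOn (fun x => spair (α x) (p x) (q x)) K := by
  unfold spair
  refine integrable_finsetSum _ fun i _ => ?_
  have h1 : LocLp 2 U fun x => p x (ob E i) := hp.apply _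
  have hc : ContinuousOn (fun x => α x (ob E i)) U := hα.clm_apply continuousOn_const
  have h2 : LocLp 2 U fun x => q x (α x (ob E i)) := by
    refine hq.of_le_mul hc.norm (fun K' hK' hKU' => ?_) (Eventually.of_forall fun x _ => ?_)
    · exact (ContinuousLinearMap.id ℝ (E →L[ℝ] ℝ)).aestronglyMeasurable_comp₂ (hq K' hK' hKU').1
        ((hc.mono hKU').aestronglyMeasurable hK'.measurableSet)
    · rw [mul_comm]; exact (q x).le_opNorm _
  have a1 : MemLp (fun x => p x (ob E i)) 2 (volume.restrict K) := by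
    simpa using h1 K hK hKU
  have a2 : MemLp (fun x => q x (α x (ob E i))) 2 (volume.restrict K) := by
    simpa using h2 K hK hKU
  exact a1.integrable_mul a2

omit [MeasurableSpace E] [BorelSpace E] in
theorem cacc_pt {l L G : ℝ} (hl : 0 < l) {α : E →L[ℝ] E} (hα : Ell l L α) (p q : E →L[ℝ] ℝ)
    (hq : ‖q‖ ≤ G) (z s k : ℝ) :
    l * ‖z • caccPsi k s • p + q.smulRight (max (s - k) 0)‖ ^ 2 ≤
      spair α p (z • (z • caccPsi k s • p + q.smulRight (max (s - k) 0)) +
        q.smulRight (z • max (s - k) 0)) +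
      Module.finrank ℝ E * |L| * G ^ 2 * max (s - k) 0 ^ 2 := by
  have h1 := le_spair hl.le hα (z • caccPsi k s • p + q.smulRight (max (s - k) 0))
  have h2 := spair_comm hα.1 p q
  have h3 : spair α q q ≤ Module.finrank ℝ E * |L| * G ^ 2 := by
    refine (le_abs_self _).trans ((abs_spair_le α q q).trans ?_)
    have a1 : ‖α‖ ≤ |L| := hα.2.2.trans (le_abs_self _)
    have a2 : ‖q‖ * ‖q‖ ≤ G ^ 2 := by
      rw [sq]; exact mul_self_le_mul_self (norm_nonneg _) hq
    rw [mul_assoc _ ‖q‖]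
    gcongr
  rcases lt_or_ge k s with hs | hs
  · have e : spair α (z • caccPsi k s • p + q.smulRight (max (s - k) 0))
        (z • caccPsi k s • p + q.smulRight (max (s - k) 0)) =
        spair α p (z • (z • caccPsi k s • p + q.smulRight (max (s - k) 0)) +
          q.smulRight (z • max (s - k) 0)) + max (s - k) 0 ^ 2 * spair α q q +
          z * max (s - k) 0 * (spair α q p - spair α p q) := by
      simp only [spair, caccPsi, hs, if_true, one_smul, _root_.add_apply,
        _root_.smul_apply, ContinuousLinearMap.smulRight_apply, smul_eq_mul,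
        Finset.mul_sum, ← Finset.sum_sub_distrib, ← Finset.sum_add_distrib]
      exact Finset.sum_congr rfl fun i _ => by ring
    rw [e, h2, sub_self, mul_zero, add_zero] at h1
    have := mul_le_mul_of_nonneg_left h3 (sq_nonneg (max (s - k) 0))
    linarith
  · have e1 : max (s - k) 0 = 0 := max_eq_right (sub_nonpos.2 hs)
    have e2 : caccPsi k s = 0 := by simp [caccPsi, not_lt.2 hs]
    have e3 : q.smulRight (0 : ℝ) = 0 := by ext v; simp
    simp [e1, e2, e3, spair]

/-- Caccioppoli inequality for the truncation `ζ (f - k)₊` -/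
theorem caccioppoli {l L : ℝ} (hl : 0 < l) : ∃ C : ℝ, 0 < C ∧
    ∀ (U K : Set E) (α : E → E →L[ℝ] E) (f : E → ℝ) (Df : E → E →L[ℝ] ℝ) (c k G : ℝ) (ζ : E → ℝ),
      IsOpen U → IsCompact K → K ⊆ U → (∀ x ∈ K, Ell l L (α x)) → ContinuousOn α U →
      WD 2 U f Df → LB U f → 0 ≤ c → SubSol U K α Df c → IsTest K ζ →
      (∀ x, ζ x ∈ Icc (0 : ℝ) 1) → (∀ x, ‖fderiv ℝ ζ x‖ ≤ G) →
      ∃ Dv, WD 2 univ (fun x => ζ x * max (f x - k) 0) Dv ∧ MemLp Dv 2 volume ∧
        ∫ x, ‖Dv x‖ ^ 2 ≤ C * (G ^ 2 * (∫ x in tsupport ζ, max (f x - k) 0 ^ 2) +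
          c * ∫ x in tsupport ζ, max (f x - k) 0) := by
  refine ⟨(Module.finrank ℝ E * |L| + 1) / l, by positivity, ?_⟩
  intro U K α f Df c k G ζ hU hK hKU hα hαc hf hfb hc hsub hζ hζ1 hG
  have hT : IsCompact (tsupport ζ) := hζ.2.1
  have hTK : tsupport ζ ⊆ K := hζ.2.2
  have hTU : tsupport ζ ⊆ U := hTK.trans hKU
  have hu := cacc_wd hU hf k
  have hv := hu.globalize (by norm_num) hU (hζ.mono hKU)
  have hη := (hv.mono (subset_univ U)).smul (by norm_num) hζ.1
  set u : E → ℝ := fun x => max (f x - k) 0 with hudef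
  set Dv : E → E →L[ℝ] ℝ := fun x => ζ x • caccPsi k (f x) • Df x +
    (fderiv ℝ ζ x).smulRight (max (f x - k) 0) with hDv
  set Dη : E → E →L[ℝ] ℝ := fun x => ζ x • Dv x +
    (fderiv ℝ ζ x).smulRight (ζ x • max (f x - k) 0) with hDη
  have u0 : ∀ x, 0 ≤ u x := fun x => le_max_right _ _
  have z0 : ∀ x ∉ tsupport ζ, ζ x = 0 := fun x hx => image_eq_zero_of_notMem_tsupport hx
  have z1 : ∀ x ∉ tsupport ζ, fderiv ℝ ζ x = 0 := fun x hx =>
    image_eq_zero_of_notMem_tsupport (fun h' => hx (tsupport_fderiv_subset ℝ h'))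
  have z2 : ∀ x ∉ tsupport ζ, Dv x = 0 := fun x hx => by simp [hDv, z0 x hx, z1 x hx]
  have z3 : ∀ x ∉ tsupport ζ, Dη x = 0 := fun x hx => by simp [hDη, z0 x hx, z1 x hx]
  have le1 : ∀ x, ζ x • ζ x • u x ≤ u x := fun x => by
    have a1 : ζ x * ζ x ≤ 1 := mul_le_one₀ (hζ1 x).2 (hζ1 x).1 (hζ1 x).2
    have := mul_le_mul_of_nonneg_right a1 (u0 x)
    simp only [smul_eq_mul]
    linarith
  have ge0 : ∀ x, 0 ≤ ζ x • ζ x • u x := fun x =>
    mul_nonneg (hζ1 x).1 (mul_nonneg (hζ1 x).1 (u0 x))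
  have hm : MemLp Dv 2 volume := by
    simpa using hv.2.1.memLp_of_support hT (subset_univ _) z2
  refine ⟨Dv, hv, hm, ?_⟩
  have key := hsub (fun x => ζ x • ζ x • u x) Dη hη
    (fun K' hK' hKU' => by
      obtain ⟨C, hC⟩ := hfb K' hK' hKU'
      refine ⟨C + |k|, fun x hx => ?_⟩
      rw [Real.norm_of_nonneg (ge0 x)]
      refine (le1 x).trans (max_le ?_ ?_)
      · have := (le_abs_self _).trans (hC x hx)
        have := neg_abs_le k
        linarith
      · have := (norm_nonneg _).trans (hC x hx)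
        positivity)
    (fun x _ => ge0 x) (fun x _ hx => by simp [z0 x (fun h => hx (hTK h))])
  rw [setIntegral_eq_of_subset_of_forall_sdiff_eq_zero hU.measurableSet hTU
      (fun x hx => by simp [z3 x hx.2, spair]),
    setIntegral_eq_of_subset_of_forall_sdiff_eq_zero hU.measurableSet hTU
      (fun x hx => by simp [z0 x hx.2])] at key
  have iu : IntegrableOn u (tsupport ζ) := hu.1.integrableOn (by norm_num) hT hTU
  have iu2 : IntegrableOn (fun x => u x ^ 2) (tsupport ζ) := by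
    have : MemLp u 2 (volume.restrict (tsupport ζ)) := by simpa using hu.1 _ hT hTU
    exact this.integrable_sq
  have iη : IntegrableOn (fun x => ζ x • ζ x • u x) (tsupport ζ) :=
    hη.1.integrableOn (by norm_num) hT hTU
  have is := cacc_integrableOn hαc hf.2.1 hη.2.1 hT hTU
  have iv : IntegrableOn (fun x => ‖Dv x‖ ^ 2) (tsupport ζ) :=
    (hm.norm.integrable_sq).integrableOn
  have b1 : ∫ x in tsupport ζ, ζ x • ζ x • u x ≤ ∫ x in tsupport ζ, u x :=
    setIntegral_mono_on iη iu hT.measurableSet fun x _ => le1 x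
  have b2 : ∫ x in tsupport ζ, l * ‖Dv x‖ ^ 2 ≤ ∫ x in tsupport ζ,
      (spair (α x) (Df x) (Dη x) + Module.finrank ℝ E * |L| * G ^ 2 * u x ^ 2) :=
    setIntegral_mono_on (iv.const_mul _) (is.add (iu2.const_mul _)) hT.measurableSet
      fun x hx => cacc_pt hl (hα x (hTK hx)) _ _ (hG x) _ _ _
  rw [integral_const_mul, integral_add is (iu2.const_mul _), integral_const_mul,
    setIntegral_eq_integral_of_forall_compl_eq_zero (fun x hx => by simp [z2 x hx])] at b2
  have p1 : 0 ≤ ∫ x in tsupport ζ, u x := integral_nonneg fun x => u0 x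
  have p2 : 0 ≤ ∫ x in tsupport ζ, u x ^ 2 := integral_nonneg fun x => sq_nonneg _
  have b3 := mul_le_mul_of_nonneg_left b1 hc
  have p3 : 0 ≤ G ^ 2 * ∫ x in tsupport ζ, u x ^ 2 := by positivity
  have p4 : 0 ≤ (Module.finrank ℝ E * |L|) * (c * ∫ x in tsupport ζ, u x) := by positivity
  rw [div_mul_eq_mul_div, le_div_iff₀ hl]
  change _ ≤ _ * (G ^ 2 * (∫ x in tsupport ζ, u x ^ 2) + c * ∫ x in tsupport ζ, u x)
  nlinarith

end Pool.Agent.PW
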