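import Pool.Agent.P.MP_65ad7c_ag.TSob
import Pool.Agent.P.MP_65ad7c_ag.TCacc

open MeasureTheory Set Filter Topology Metric Matrix
open scoped ComplexOrder ContDiff Matrix.Norms.Frobenius RealInnerProductSpace ENNReal
open Pool.Agent.Lib.Sob

noncomputable section
namespace Pool.Agent.PW

variable {E : Type} [NormedAddCommGroup E] [InnerProductSpace ℝ E] [FiniteDimensional ℝ E]
  [MeasurableSpace E] [BorelSpace E] {r : ℕ} {U : Set E}
  {V W : Type} [NormedAddCommGroup V] [NormedSpace ℝ V] [NormedAddCommGroup W] [NormedSpace ℝ W]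

theorem tdg_deriv_bound : ∃ B : ℝ, 0 < B ∧ ∀ u, |deriv Real.smoothTransition u| ≤ B := by
  have hc : Continuous (deriv Real.smoothTransition) :=
    (Real.smoothTransition.contDiff (n := 1)).continuous_deriv le_rfl
  obtain ⟨B, hB⟩ := (isCompact_Icc (a := (0 : ℝ)) (b := 1)).exists_bound_of_continuousOn
    hc.continuousOn
  refine ⟨|B| + 1, by positivity, fun u => ?_⟩
  by_cases h0 : u < 0
  · have : Real.smoothTransition =ᶠ[𝓝 u] fun _ => (0 : ℝ) := by
      filter_upwards [Iio_mem_nhds h0] with y hy using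
        Real.smoothTransition.zero_of_nonpos (le_of_lt hy)
    rw [this.deriv_eq]; simp; positivity
  by_cases h1 : 1 < u
  · have : Real.smoothTransition =ᶠ[𝓝 u] fun _ => (1 : ℝ) := by
      filter_upwards [Ioi_mem_nhds h1] with y hy using
        Real.smoothTransition.one_of_one_le (le_of_lt hy)
    rw [this.deriv_eq]; simp; positivity
  have := hB u ⟨not_lt.1 h0, not_lt.1 h1⟩
  rw [Real.norm_eq_abs] at this
  linarith [le_abs_self B]

/-- cutoff functions with a gradient bound -/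
theorem exists_cutoff_grad : ∃ G : ℝ, 0 < G ∧ ∀ (x₀ : E) (s t : ℝ), 0 < s → s < t →
    ∃ ζ : E → ℝ, IsTest (closedBall x₀ t) ζ ∧ (∀ x, ζ x ∈ Icc (0 : ℝ) 1) ∧
      (∀ x ∈ closedBall x₀ s, ζ x = 1) ∧ ∀ x, ‖fderiv ℝ ζ x‖ ≤ G * t / (s * (t - s)) := by
  obtain ⟨B, hB0, hB⟩ := tdg_deriv_bound
  refine ⟨2 * B, by positivity, fun x₀ s t hs hst => ?_⟩
  have ht : 0 < t := hs.trans hst
  have hd : 0 < t ^ 2 - s ^ 2 := by nlinarith
  set q : E → ℝ := fun x => (t ^ 2 - s ^ 2)⁻¹ * (‖x - x₀‖ ^ 2 - s ^ 2) with hq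
  have hqc : ContDiff ℝ ∞ q := by
    refine contDiff_const.mul (ContDiff.sub ?_ contDiff_const)
    exact (contDiff_id.sub contDiff_const).norm_sq ℝ
  set ζ : E → ℝ := fun x => 1 - Real.smoothTransition (q x) with hζ
  have hz : ∀ x, x ∉ closedBall x₀ t → ζ x = 0 := by
    intro x hx
    rw [mem_closedBall, dist_eq_norm, not_le] at hx
    have : 1 ≤ q x := by
      rw [hq]; dsimp only
      rw [inv_mul_eq_div, le_div_iff₀ hd]; nlinarith
    simp [hζ, Real.smoothTransition.one_of_one_le this]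
  have hts : tsupport ζ ⊆ closedBall x₀ t := by
    refine closure_minimal (fun x hx => ?_) isClosed_closedBall
    by_contra h; exact hx (hz x h)
  have htest : IsTest (closedBall x₀ t) ζ :=
    ⟨contDiff_const.sub (Real.smoothTransition.contDiff.comp hqc),
      (isCompact_closedBall x₀ t).of_isClosed_subset (isClosed_tsupport ζ) hts, hts⟩
  refine ⟨ζ, htest, fun x => ⟨?_, ?_⟩, fun x hx => ?_, fun x => ?_⟩
  · simp only [hζ]; linarith [Real.smoothTransition.le_one (q x)]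
  · simp only [hζ]; linarith [Real.smoothTransition.nonneg (q x)]
  · rw [mem_closedBall, dist_eq_norm] at hx
    have : q x ≤ 0 := by
      rw [hq]; dsimp only
      refine mul_nonpos_of_nonneg_of_nonpos (inv_nonneg.2 hd.le) ?_
      nlinarith [norm_nonneg (x - x₀)]
    simp [hζ, Real.smoothTransition.zero_of_nonpos this]
  · by_cases hx : x ∈ closedBall x₀ t
    · rw [mem_closedBall, dist_eq_norm] at hx
      have h1 : HasFDerivAt (fun y : E => ‖y - x₀‖ ^ 2) (2 • innerSL ℝ (x - x₀)) x := by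
        have := ((hasFDerivAt_id (𝕜 := ℝ) x).sub_const x₀).norm_sq
        simpa using this
      have h2 : HasFDerivAt q ((t ^ 2 - s ^ 2)⁻¹ • (2 • innerSL ℝ (x - x₀))) x :=
        (h1.sub_const (s ^ 2)).const_mul _
      have h3 : HasDerivAt Real.smoothTransition (deriv Real.smoothTransition (q x)) (q x) :=
        ((Real.smoothTransition.contDiff (n := 1)).differentiable (by simp) _).hasDerivAt
      have h4 := (h3.comp_hasFDerivAt x h2).const_sub 1
      have h5 : fderiv ℝ ζ x = -(deriv Real.smoothTransition (q x) •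
          (t ^ 2 - s ^ 2)⁻¹ • (2 • innerSL ℝ (x - x₀))) := h4.fderiv
      rw [h5, norm_neg, norm_smul, norm_smul, Real.norm_eq_abs, Real.norm_eq_abs,
        abs_of_pos (inv_pos.2 hd), two_smul]
      have h6 : ‖innerSL ℝ (x - x₀) + innerSL ℝ (x - x₀)‖ ≤ 2 * t := by
        refine (norm_add_le _ _).trans ?_
        rw [innerSL_apply_norm]; linarith
      have h7 : (t ^ 2 - s ^ 2)⁻¹ ≤ (s * (t - s))⁻¹ := by
        apply inv_anti₀ (mul_pos hs (sub_pos.2 hst)); nlinarith
      calc _ ≤ B * ((s * (t - s))⁻¹ * (2 * t)) := by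
            refine mul_le_mul (hB _) (mul_le_mul h7 h6 (norm_nonneg _) ?_) (by positivity) hB0.le
            exact inv_nonneg.2 (mul_pos hs (sub_pos.2 hst)).le
        _ = 2 * B * t / (s * (t - s)) := by rw [div_eq_mul_inv]; ring
    · rw [htest.fderiv_zero_of_notMem hx, norm_zero]
      have := sub_pos.2 hst
      positivity

theorem tdg_norm {X F : Type} [MeasurableSpace X] [NormedAddCommGroup F] {μ : Measure X}
    {v : X → F} (h : MemLp v 2 μ) :
    eLpNorm v 2 μ = ENNReal.ofReal (√(∫ x, ‖v x‖ ^ 2 ∂μ)) := by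
  rw [h.eLpNorm_eq_integral_rpow_norm two_ne_zero ENNReal.ofNat_ne_top, Real.sqrt_eq_rpow]
  simp

/-- the truncated energy -/
def tdgY (f : E → ℝ) (x₀ : E) (t k : ℝ) : ℝ := ∫ x in closedBall x₀ t, max (f x - k) 0 ^ 2

theorem tdg_memLp {f : E → ℝ} (h : LocLp 2 U f) (k : ℝ) {K : Set E} (hK : IsCompact K)
    (hKU : K ⊆ U) : MemLp (fun x => max (f x - k) 0) 2 (volume.restrict K) := by
  have := h.comp_of_le (H := fun s => max (s - k) 0) (a := k) (L := 1)
    (by fun_prop) (fun s => by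
      rw [one_mul, Real.norm_eq_abs, abs_of_nonneg (le_max_right _ _)]
      exact max_le (le_abs_self _) (abs_nonneg _))
  simpa using this K hK hKU

theorem tdgY_nonneg (f : E → ℝ) (x₀ : E) (t k : ℝ) : 0 ≤ tdgY f x₀ t k :=
  integral_nonneg fun _ => sq_nonneg _

/-- the real form of the Sobolev step -/
theorem tdg_sob (hE : 2 ≤ Module.finrank ℝ E) : ∃ C : ℝ, 0 < C ∧
    ∀ (v : E → ℝ) (D : E → E →L[ℝ] ℝ) (K S : Set E), WD 2 univ v D → MemLp D 2 volume →
      IsCompact K → (∀ x, x ∉ K → v x = 0) → S ⊆ K → (∀ x, x ∉ S → v x = 0) →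
      Integrable (fun x => v x ^ 2) ∧ ∫ x, v x ^ 2 ≤ C * (∫ x, ‖D x‖ ^ 2) *
        volume.real S ^ (2 * (Module.finrank ℝ E : ℝ)⁻¹) := by
  obtain ⟨C, hC, hs⟩ := sobolev_step hE
  refine ⟨C ^ 2, by positivity, fun v D K S hv hD hK h0 hSK hS => ?_⟩
  have hv2 : MemLp v 2 volume := by
    have h1 : MemLp v 2 (volume.restrict K) := by simpa using hv.1 K hK (subset_univ _)
    have h2 := (memLp_indicator_iff_restrict hK.measurableSet).2 h1
    have e : K.indicator v = v := by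
      ext x; by_cases hx : x ∈ K
      · simp [hx]
      · simp [hx, h0 x hx]
    rwa [e] at h2
  refine ⟨hv2.integrable_sq, ?_⟩
  have h := hs v D K (toMeasurable volume S) hv hK (measurableSet_toMeasurable _ _) h0
    (Eventually.of_forall fun x hx => hS x fun h' => hx (subset_toMeasurable _ _ h'))
  have hfin : volume S ≠ ⊤ := ((measure_mono hSK).trans_lt hK.measure_lt_top).ne
  rw [measure_toMeasurable, tdg_norm hv2, tdg_norm hD, ← ofReal_measureReal hfin,
    ENNReal.ofReal_rpow_of_nonneg measureReal_nonneg (by positivity),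
    ← ENNReal.ofReal_pow (Real.sqrt_nonneg _), ← ENNReal.ofReal_mul hC.le,
    ← ENNReal.ofReal_mul (by positivity), ← ENNReal.ofReal_mul (by positivity),
    ENNReal.ofReal_le_ofReal_iff (by positivity)] at h
  have e1 : ∫ x, ‖v x‖ ^ 2 = ∫ x, v x ^ 2 := by simp
  rw [e1] at h
  set a := √(∫ x, v x ^ 2) with ha
  set b := √(∫ x, ‖D x‖ ^ 2) with hb
  set m := volume.real S ^ ((Module.finrank ℝ E : ℝ)⁻¹) with hm
  have ea : ∫ x, v x ^ 2 = a ^ 2 := (Real.sq_sqrt (integral_nonneg fun _ => sq_nonneg _)).symm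
  have eb : ∫ x, ‖D x‖ ^ 2 = b ^ 2 :=
    (Real.sq_sqrt (integral_nonneg fun _ => sq_nonneg _)).symm
  have em : volume.real S ^ (2 * (Module.finrank ℝ E : ℝ)⁻¹) = m ^ 2 := by
    rw [hm, mul_comm, Real.rpow_mul measureReal_nonneg, Real.rpow_two]
  have a0 : 0 ≤ a := Real.sqrt_nonneg _
  have b0 : 0 ≤ b := Real.sqrt_nonneg _
  have m0 : 0 ≤ m := by positivity
  rw [ea, eb, em]
  have hle : a ≤ C * b * m := by
    rcases a0.eq_or_lt with h' | h'
    · rw [← h']; positivity
    · by_contra hcon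
      have := mul_lt_mul_of_pos_left (not_le.1 hcon) h'
      nlinarith
  calc a ^ 2 ≤ (C * b * m) ^ 2 := by gcongr
    _ = _ := by ring

/-- Chebyshev bounds at a higher level -/
theorem tdg_cheb {f : E → ℝ} (h : LocLp 2 U f) {x₀ : E} {t k k' : ℝ} (hk : k < k')
    (hU : closedBall x₀ t ⊆ U) :
    volume.real (closedBall x₀ t ∩ {x | k' < f x}) ≤ tdgY f x₀ t k / (k' - k) ^ 2 ∧
    (∀ T : Set E, T ⊆ closedBall x₀ t →
      ∫ x in T, max (f x - k') 0 ^ 2 ≤ tdgY f x₀ t k ∧
      ∫ x in T, max (f x - k') 0 ≤ tdgY f x₀ t k / (k' - k)) := by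
  have hc := isCompact_closedBall x₀ t
  have hd : 0 < k' - k := sub_pos.2 hk
  have m1 := tdg_memLp h k hc hU
  have m2 := tdg_memLp h k' hc hU
  have : IsFiniteMeasure (volume.restrict (closedBall x₀ t)) :=
    ⟨by simpa using hc.measure_lt_top⟩
  refine ⟨?_, fun T hT => ⟨?_, ?_⟩⟩
  · have h1 := mul_meas_ge_le_integral_of_nonneg
      (Eventually.of_forall fun x => sq_nonneg (max (f x - k) 0)) m1.integrable_sq ((k' - k) ^ 2)
    rw [le_div_iff₀ (by positivity), mul_comm]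
    refine le_trans (mul_le_mul_of_nonneg_left ?_ (by positivity)) h1
    rw [measureReal_restrict_apply' hc.measurableSet]
    refine measureReal_mono (fun x hx => ⟨?_, hx.1⟩)
      (((measure_mono inter_subset_right).trans_lt hc.measure_lt_top).ne)
    have h2 : k' - k ≤ max (f x - k) 0 := le_max_of_le_left (by linarith [hx.2.out])
    show (k' - k) ^ 2 ≤ _
    gcongr
  · refine (setIntegral_mono_set m2.integrable_sq
      (Eventually.of_forall fun x => sq_nonneg _) hT.eventuallyLE).trans ?_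
    refine integral_mono m2.integrable_sq m1.integrable_sq fun x => ?_
    have : max (f x - k') 0 ≤ max (f x - k) 0 := max_le_max (by linarith) le_rfl
    have h0 : 0 ≤ max (f x - k') 0 := le_max_right _ _
    dsimp only
    gcongr
  · refine (setIntegral_mono_set (m2.integrable (by norm_num))
      (Eventually.of_forall fun x => le_max_right _ _) hT.eventuallyLE).trans ?_
    rw [tdgY, ← integral_div]
    refine integral_mono (m2.integrable (by norm_num)) (m1.integrable_sq.div_const _) fun x => ?_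
    dsimp only
    rw [le_div_iff₀ hd]
    rcases le_total (f x - k') 0 with h' | h'
    · rw [max_eq_right h', zero_mul]; positivity
    · rw [max_eq_left h', max_eq_left (by linarith)]; nlinarith

/-- one step of the iteration -/
theorem tdg_step (hE : 2 ≤ Module.finrank ℝ E) {l L : ℝ} (hl : 0 < l) : ∃ A G : ℝ, 0 < A ∧
    0 < G ∧ ∀ (x₀ : E) (U : Set E) (α : E → E →L[ℝ] E) (f : E → ℝ) (Df : E → E →L[ℝ] ℝ)
      (c R' s t k k' : ℝ), IsOpen U → closedBall x₀ R' ⊆ U →
      (∀ x ∈ closedBall x₀ R', Ell l L (α x)) → ContinuousOn α U → WD 2 U f Df → LB U f →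
      0 ≤ c → SubSol U (closedBall x₀ R') α Df c → 0 < s → s < t → t ≤ R' → k < k' →
      tdgY f x₀ s k' ≤ A * ((G * t / (s * (t - s))) ^ 2 + c / (k' - k)) * tdgY f x₀ t k *
        (tdgY f x₀ t k / (k' - k) ^ 2) ^ (2 * (Module.finrank ℝ E : ℝ)⁻¹) := by
  obtain ⟨C1, hC1, hsob⟩ := tdg_sob hE
  obtain ⟨C2, hC2, hcac⟩ := caccioppoli (E := E) (L := L) hl
  obtain ⟨G, hG, hcut⟩ := exists_cutoff_grad (E := E)
  refine ⟨C1 * C2, G, by positivity, hG, ?_⟩
  intro x₀ U α f Df c R' s t k k' hU hRU hell hα hf hlb hc hsub hs hst htR hk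
  obtain ⟨ζ, hζ, hζ01, hζ1, hζd⟩ := hcut x₀ s t hs hst
  have hsubt : closedBall x₀ t ⊆ closedBall x₀ R' := closedBall_subset_closedBall htR
  obtain ⟨Dv, hv, hDv, hint⟩ := hcac U (closedBall x₀ R') α f Df c k' _ ζ hU
    (isCompact_closedBall _ _) hRU hell hα hf hlb hc hsub (hζ.mono hsubt) hζ01 hζd
  obtain ⟨hS, hT⟩ := tdg_cheb hf.1 hk (hsubt.trans hRU)
  obtain ⟨hT1, hT2⟩ := hT _ hζ.2.2
  obtain ⟨hi, hle⟩ := hsob _ Dv (closedBall x₀ t) (closedBall x₀ t ∩ {x | k' < f x}) hv hDv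
    (isCompact_closedBall _ _) (fun x hx => by rw [hζ.zero_of_notMem hx, zero_mul])
    inter_subset_left (fun x hx => by
      by_cases h1 : x ∈ closedBall x₀ t
      · have : f x ≤ k' := not_lt.1 fun h2 => hx ⟨h1, h2⟩
        rw [max_eq_right (by linarith), mul_zero]
      · rw [hζ.zero_of_notMem h1, zero_mul])
  have hY := tdgY_nonneg f x₀ t k
  have hd : 0 < k' - k := sub_pos.2 hk
  have h1 : tdgY f x₀ s k' ≤ ∫ x, (ζ x * max (f x - k') 0) ^ 2 := by
    have e : tdgY f x₀ s k' = ∫ x in closedBall x₀ s, (ζ x * max (f x - k') 0) ^ 2 :=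
      setIntegral_congr_fun measurableSet_closedBall fun x hx => by simp [hζ1 x hx]
    rw [e]
    exact setIntegral_le_integral hi (Eventually.of_forall fun x => sq_nonneg _)
  have h2 : ∫ x, ‖Dv x‖ ^ 2 ≤
      C2 * (((G * t / (s * (t - s))) ^ 2 + c / (k' - k)) * tdgY f x₀ t k) := by
    refine hint.trans (mul_le_mul_of_nonneg_left ?_ hC2.le)
    have e : ((G * t / (s * (t - s))) ^ 2 + c / (k' - k)) * tdgY f x₀ t k =
        (G * t / (s * (t - s))) ^ 2 * tdgY f x₀ t k + c * (tdgY f x₀ t k / (k' - k)) := by ring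
    rw [e]
    gcongr
  have h3 : volume.real (closedBall x₀ t ∩ {x | k' < f x}) ^ (2 * (Module.finrank ℝ E : ℝ)⁻¹) ≤
      (tdgY f x₀ t k / (k' - k) ^ 2) ^ (2 * (Module.finrank ℝ E : ℝ)⁻¹) :=
    Real.rpow_le_rpow measureReal_nonneg hS (by positivity)
  refine h1.trans (hle.trans ?_)
  calc _ ≤ C1 * (C2 * (((G * t / (s * (t - s))) ^ 2 + c / (k' - k)) * tdgY f x₀ t k)) *
        (tdgY f x₀ t k / (k' - k) ^ 2) ^ (2 * (Module.finrank ℝ E : ℝ)⁻¹) := by
        gcongr
    _ = _ := by ring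

theorem tdg_arith {A G R R' c K δ y z : ℝ} (hA : 0 < A) (hG : 0 < G) (hR : 0 < R) (hRR : R < R')
    (hc : 0 ≤ c) (hcK : c ≤ K) (hK : 0 < K) (hδ : 0 < δ) (hδ1 : δ ≤ 1) (hy : 0 ≤ y) (j : ℕ)
    (hz : z ≤ A * ((G * (R + (R' - R) / 2 ^ j) / ((R + (R' - R) / 2 ^ (j + 1)) *
      ((R + (R' - R) / 2 ^ j) - (R + (R' - R) / 2 ^ (j + 1))))) ^ 2 +
      c / ((K - K / 2 ^ (j + 1)) - (K - K / 2 ^ j))) * y *
      (y / ((K - K / 2 ^ (j + 1)) - (K - K / 2 ^ j)) ^ 2) ^ δ) :
    z / K ^ 2 ≤ 16 * A * ((G * R' / (R * (R' - R))) ^ 2 + 1) * 16 ^ j * (y / K ^ 2) ^ (1 + δ) := by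
  have hD : 0 < R' - R := sub_pos.2 hRR
  set p : ℝ := 2 ^ (j + 1) with hp
  have hp1 : 1 ≤ p := one_le_pow₀ (by norm_num)
  have hp0 : 0 < p := by positivity
  have hpj : (2 : ℝ) ^ j = p / 2 := by rw [hp, pow_succ]; ring
  have hp2 : 2 ≤ p := by
    have : (1 : ℝ) ≤ 2 ^ j := one_le_pow₀ (by norm_num)
    rw [hpj] at this; linarith
  have e1 : (K - K / p) - (K - K / 2 ^ j) = K / p := by rw [hpj]; field_simp; ring
  have e2 : (R + (R' - R) / 2 ^ j) - (R + (R' - R) / p) = (R' - R) / p := by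
    rw [hpj]; field_simp; ring
  rw [e1, e2] at hz
  set G0 := G * R' / (R * (R' - R)) with hG0
  have hG0p : 0 < G0 := by have := hR.trans hRR; positivity
  have b1 : G * (R + (R' - R) / 2 ^ j) / ((R + (R' - R) / p) * ((R' - R) / p)) ≤ G0 * p := by
    have t1 : R + (R' - R) / 2 ^ j ≤ R' := by
      have : (R' - R) / 2 ^ j ≤ R' - R := div_le_self hD.le (one_le_pow₀ (by norm_num))
      linarith
    have t2 : R ≤ R + (R' - R) / p := le_add_of_nonneg_right (by positivity)
    calc _ ≤ G * R' / (R * ((R' - R) / p)) := by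
          have := hR.trans hRR
          gcongr
      _ = G0 * p := by rw [hG0]; field_simp
  have b1' : 0 ≤ G * (R + (R' - R) / 2 ^ j) / ((R + (R' - R) / p) * ((R' - R) / p)) := by
    positivity
  have b2 : c / (K / p) ≤ p ^ 2 := by
    rw [div_div_eq_mul_div, div_le_iff₀ hK]
    calc c * p ≤ K * p := by gcongr
      _ = 1 * p * K := by ring
      _ ≤ p * p * K := by gcongr
      _ = p ^ 2 * K := by ring
  have e3 : y / (K / p) ^ 2 = p ^ 2 * (y / K ^ 2) := by field_simp
  have hw : 0 ≤ y / K ^ 2 := by positivity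
  have b3 : (y / (K / p) ^ 2) ^ δ ≤ p ^ 2 * (y / K ^ 2) ^ δ := by
    rw [e3, Real.mul_rpow (by positivity) hw]
    refine mul_le_mul_of_nonneg_right ?_ (by positivity)
    have : (1 : ℝ) ≤ p ^ 2 := one_le_pow₀ hp1
    simpa using Real.rpow_le_rpow_of_exponent_le this hδ1
  have e4 : p ^ 4 = 16 * 16 ^ j := by
    rw [hp, ← pow_mul, mul_comm, pow_mul, pow_succ]; norm_num; ring
  have e5 : (y / K ^ 2) ^ (1 + δ) = y / K ^ 2 * (y / K ^ 2) ^ δ := by
    rw [Real.rpow_add' hw (by linarith), Real.rpow_one]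
  have hz2 : z ≤ A * ((G0 * p) ^ 2 + p ^ 2) * y * (p ^ 2 * (y / K ^ 2) ^ δ) := by
    refine hz.trans ?_
    gcongr
  rw [e5, div_le_iff₀ (by positivity)]
  refine hz2.trans (le_of_eq ?_)
  have : 16 * A * (G0 ^ 2 + 1) * 16 ^ j = A * (G0 ^ 2 + 1) * p ^ 4 := by rw [e4]; ring
  rw [this]; field_simp

/-- De Giorgi: local boundedness of subsolutions -/
theorem degiorgi (hE : 2 ≤ Module.finrank ℝ E) {l L R R' : ℝ} (hl : 0 < l) (hR : 0 < R)
    (hRR : R < R') : ∃ C : ℝ, 0 < C ∧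
    ∀ (x₀ : E) (U : Set E) (α : E → E →L[ℝ] E) (f : E → ℝ) (Df : E → E →L[ℝ] ℝ) (c M : ℝ),
      IsOpen U → closedBall x₀ R' ⊆ U → (∀ x ∈ closedBall x₀ R', Ell l L (α x)) →
      ContinuousOn α U → WD 2 U f Df → LB U f → 0 ≤ c → 0 ≤ M →
      SubSol U (closedBall x₀ R') α Df c → N2 (closedBall x₀ R') f ≤ ENNReal.ofReal M →
      ∀ᵐ x, x ∈ closedBall x₀ R → f x ≤ C * (M + c) := by
  obtain ⟨A, G, hA, hG, hstep⟩ := tdg_step hE (L := L) hl
  set δ : ℝ := 2 * (Module.finrank ℝ E : ℝ)⁻¹ with hδ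
  have hE' : (2 : ℝ) ≤ (Module.finrank ℝ E : ℝ) := by exact_mod_cast hE
  have hδ0 : 0 < δ := by rw [hδ]; have : (0 : ℝ) < Module.finrank ℝ E := by linarith
                         positivity
  have hδ1 : δ ≤ 1 := by
    rw [hδ, ← div_eq_mul_inv, div_le_one (by linarith)]; exact hE'
  set C0 := 16 * A * ((G * R' / (R * (R' - R))) ^ 2 + 1) with hC0
  have hC0p : 0 < C0 := by positivity
  set ε := C0 ^ (-δ⁻¹) * (16 : ℝ) ^ (-(δ ^ 2)⁻¹) with hε
  have hεp : 0 < ε := by positivity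
  refine ⟨1 + (√ε)⁻¹, by positivity, ?_⟩
  intro x₀ U α f Df c M hU hRU hell hα hf hlb hc hM hsub hN
  have hD : 0 < R' - R := sub_pos.2 hRR
  have hcR := isCompact_closedBall x₀ R'
  have hsq : 0 < √ε := Real.sqrt_pos.2 hεp
  have key : ∀ K : ℝ, (1 + (√ε)⁻¹) * (M + c) < K → ∀ᵐ x, x ∈ closedBall x₀ R → f x ≤ K := by
    intro K hK
    have i0 : 0 < (√ε)⁻¹ := inv_pos.2 hsq
    have hK0 : 0 < K := lt_of_le_of_lt (by positivity) hK
    have hcK : c ≤ K := by nlinarith [mul_nonneg i0.le hM, mul_nonneg i0.le hc]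
    have hMK : M ≤ √ε * K := by
      have h1 : (√ε)⁻¹ * M ≤ K := by nlinarith [mul_nonneg i0.le hc]
      have := mul_le_mul_of_nonneg_left h1 hsq.le
      rwa [← mul_assoc, mul_inv_cancel₀ hsq.ne', one_mul] at this
    have hr : ∀ j : ℕ, R + (R' - R) / 2 ^ j ≤ R' := fun j => by
      have : (R' - R) / 2 ^ j ≤ R' - R := div_le_self hD.le (one_le_pow₀ (by norm_num))
      linarith
    set Z : ℕ → ℝ := fun j => tdgY f x₀ (R + (R' - R) / 2 ^ j) (K - K / 2 ^ j) / K ^ 2 with hZ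
    have hlim : Tendsto Z atTop (𝓝 0) := by
      refine iter_tendsto (C := C0) (b := 16) (δ := δ) hC0p (by norm_num) hδ0
        (fun j => div_nonneg (tdgY_nonneg _ _ _ _) (sq_nonneg _)) (fun j => ?_) ?_ (by norm_num)
      · refine tdg_arith hA hG hR hRR hc hcK hK0 hδ0 hδ1 (tdgY_nonneg _ _ _ _) j ?_
        refine hstep x₀ U α f Df c R' _ _ _ _ hU hRU hell hα hf hlb hc hsub (by positivity) ?_
          (hr j) ?_
        · have : (R' - R) / 2 ^ (j + 1) < (R' - R) / 2 ^ j :=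
            div_lt_div_of_pos_left hD (by positivity) (pow_lt_pow_right₀ (by norm_num) (by omega))
          linarith
        · have : K / 2 ^ (j + 1) < K / 2 ^ j :=
            div_lt_div_of_pos_left hK0 (by positivity) (pow_lt_pow_right₀ (by norm_num) (by omega))
          linarith
      · have m0 : MemLp f 2 (volume.restrict (closedBall x₀ R')) := by
          simpa using hf.1 _ hcR hRU
        have h1 : tdgY f x₀ R' 0 ≤ ∫ x in closedBall x₀ R', ‖f x‖ ^ 2 := by
          refine integral_mono (tdg_memLp hf.1 0 hcR hRU).integrable_sq m0.norm.integrable_sq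
            fun x => ?_
          have h0 : 0 ≤ max (f x - 0) 0 := le_max_right _ _
          have : max (f x - 0) 0 ≤ ‖f x‖ :=
            max_le (by rw [sub_zero]; exact le_abs_self _) (norm_nonneg _)
          dsimp only
          gcongr
        rw [N2, tdg_norm m0, ENNReal.ofReal_le_ofReal_iff hM, Real.sqrt_le_left hM] at hN
        have h2 : M ^ 2 ≤ ε * K ^ 2 := by
          calc M ^ 2 ≤ (√ε * K) ^ 2 := by gcongr
            _ = ε * K ^ 2 := by rw [mul_pow, Real.sq_sqrt hεp.le]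
        show Z 0 ≤ ε
        simp only [hZ, pow_zero, div_one, add_sub_cancel, sub_self]
        rw [div_le_iff₀ (by positivity)]
        linarith
    have hRU' : closedBall x₀ R ⊆ U := (closedBall_subset_closedBall hRR.le).trans hRU
    have hle : ∀ j, tdgY f x₀ R K / K ^ 2 ≤ Z j := fun j => by
      refine div_le_div_of_nonneg_right ?_ (sq_nonneg _)
      have hk : K - K / 2 ^ j < K := sub_lt_self _ (by positivity)
      exact ((tdg_cheb hf.1 hk ((closedBall_subset_closedBall (hr j)).trans hRU)).2 _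
        (closedBall_subset_closedBall (le_add_of_nonneg_right (by positivity)))).1
    have h0 : tdgY f x₀ R K / K ^ 2 ≤ 0 := ge_of_tendsto' hlim hle
    have h1 : tdgY f x₀ R K = 0 := by
      refine le_antisymm ?_ (tdgY_nonneg _ _ _ _)
      rwa [div_le_iff₀ (by positivity), zero_mul] at h0
    rw [tdgY, integral_eq_zero_iff_of_nonneg (fun x => sq_nonneg _)
      (tdg_memLp hf.1 K (isCompact_closedBall _ _) hRU').integrable_sq] at h1
    have h2 := (ae_restrict_iff' measurableSet_closedBall).1 h1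
    filter_upwards [h2] with x hx hx'
    have h3 : max (f x - K) 0 = 0 := by simpa using hx hx'
    linarith [le_max_left (f x - K) 0]
  have hall := ae_all_iff.2 fun n : ℕ =>
    key ((1 + (√ε)⁻¹) * (M + c) + 1 / ((n : ℝ) + 1)) (lt_add_of_pos_right _ (by positivity))
  filter_upwards [hall] with x hx hx'
  have ht : Tendsto (fun n : ℕ => (1 + (√ε)⁻¹) * (M + c) + 1 / ((n : ℝ) + 1)) atTop
      (𝓝 ((1 + (√ε)⁻¹) * (M + c) + 0)) :=
    tendsto_const_nhds.add tendsto_one_div_add_atTop_nhds_zero_nat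
  rw [add_zero] at ht
  exact ge_of_tendsto' ht fun n => hx n hx'

end Pool.Agent.PW
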