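import Pool.Agent.P.MP_65ad7c_ag.BGau
import Pool.Agent.P.MP_65ad7c_ag.EMin
import Pool.Agent.P.MP_65ad7c_ag.ESub
import Pool.Agent.P.MP_65ad7c_ag.ECoer
import Pool.Agent.P.MP_65ad7c_ag.ERes
import Pool.Agent.P.MP_65ad7c_ag.TDG

open MeasureTheory Set Filter Topology Metric Matrix
open scoped ComplexOrder ContDiff Matrix.Norms.Frobenius RealInnerProductSpace ENNReal
open Pool.Agent.Lib.Sob

noncomputable section
namespace Pool.Agent.PW

/-- SEC 1: bounded weakly harmonic metrics, uniformly, with an energy bound that depends only on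
the size of the representation. -/
theorem exists_hm_en {E : Type} [NormedAddCommGroup E] [InnerProductSpace ℝ E]
    [FiniteDimensional ℝ E] [MeasurableSpace E] [BorelSpace E] {Γ : Type} [Group Γ] (A : Atlas E Γ)
    (hE : 2 ≤ Module.finrank ℝ E) {r : ℕ} (hr : 0 < r) (N : ℝ) : ∃ M : ℝ, 0 ≤ M ∧
    ∀ (m : ℕ) (γs : Fin m → Γ) (β : ℝ), ∃ C : ℝ, 1 ≤ C ∧ ∀ ρ : Γ →* Mat r, Burn γs β ρ →
      A.Sz N ρ → ∃ h D, A.HM ρ C h D ∧ ∀ a,
        ∫⁻ x in ball (0 : E) 6, ENNReal.ofReal (en (A.α a x) (h a x) (D a x)) ≤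
          ENNReal.ofReal M := by
  obtain ⟨χ, hχ', hpos⟩ := A.toPre.exists_pou (R := 4) (R' := 9 / 2) (by norm_num) (by norm_num)
    (by norm_num)
  have s96 : closedBall (0 : E) (9 / 2) ⊆ ball 0 6 := closedBall_subset_ball (by norm_num)
  have s26 : closedBall (0 : E) 2 ⊆ ball 0 6 := closedBall_subset_ball (by norm_num)
  have s46 : closedBall (0 : E) 4 ⊆ ball 0 6 := closedBall_subset_ball (by norm_num)
  have hχ : A.Pou (ball 0 6) χ := hχ'.mono s96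
  have hp1 : ∀ a, ∀ x ∈ closedBall (0 : E) 1, 0 < χ a x := fun a x hx =>
    hpos a x (closedBall_subset_closedBall (by norm_num) hx)
  obtain ⟨B, hB, hBd⟩ := A.h0_bd (r := r) hχ' N
  obtain ⟨M₀, hM₀, hMe⟩ := A.energy_ref_le (r := r) hχ' hB
  obtain ⟨L, hL, hLe⟩ := A.energy_ctrl (r := r) hχ hp1
  have hLM : 0 ≤ L * M₀ := mul_nonneg hL hM₀
  refine ⟨L * M₀, hLM, fun m γs β => ?_⟩
  obtain ⟨C₂, hC₂, hco⟩ := A.coercive hr γs β hB hLM
  obtain ⟨C₁, hC₁, hsub⟩ := A.sub_log hr hχ hB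
  have hdg : ∀ a : A.ι, ∃ G : ℝ, 0 < G ∧ ∀ (f : E → ℝ) (Df : E → E →L[ℝ] ℝ),
      WD 2 (ball 0 6) f Df → LB (ball 0 6) f → SubSol (ball 0 6) (closedBall 0 2) (A.α a) Df C₁ →
      N2 (closedBall 0 2) f ≤ ENNReal.ofReal C₂ →
      ∀ᵐ x, x ∈ closedBall (0 : E) 1 → f x ≤ G * (C₂ + C₁) := by
    intro a
    obtain ⟨l, L', hl, he⟩ := (A.coef a).ell (isCompact_closedBall 0 2) s26
    obtain ⟨G, hG, h⟩ := degiorgi hE (L := L') (R := 1) (R' := 2) hl one_pos one_lt_two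
    exact ⟨G, hG, fun f Df h1 h2 h3 h4 => h 0 (ball 0 6) (A.α a) f Df C₁ C₂ isOpen_ball s26 he
      (A.coef a).1.continuousOn h1 h2 hC₁ hC₂ h3 h4⟩
  choose G hG hdg using hdg
  set C' : ℝ := Real.exp ((∑ a, G a) * (C₂ + C₁)) with hC'
  have hGs : ∀ a, G a ≤ ∑ a, G a := fun a =>
    Finset.single_le_sum (f := G) (fun a _ => (hG a).le) (Finset.mem_univ a)
  have h1C' : 1 ≤ C' := Real.one_le_exp
    (mul_nonneg (Finset.sum_nonneg fun a _ => (hG a).le) (add_nonneg hC₂ hC₁))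
  have hBC : 1 ≤ B * C' := one_le_mul_of_one_le_of_one_le hB h1C'
  have hn2 := fun a : A.ι => n2_le_of_en (r := r) (A.coef a) (isCompact_closedBall 0 4) s46 hBC
  choose L₂ hL₂ hn2 using hn2
  have hLs : ∀ a, L₂ a ≤ ∑ a, L₂ a := fun a =>
    Finset.single_le_sum (f := L₂) (fun a _ => hL₂ a) (Finset.mem_univ a)
  have hS0 : 0 ≤ (∑ a, L₂ a) * (1 + L * M₀) :=
    mul_nonneg (Finset.sum_nonneg fun a _ => hL₂ a) (by linarith)
  refine ⟨B * C' + (∑ a, L₂ a) * (1 + L * M₀), by linarith, fun ρ hb hz => ?_⟩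
  have hH := A.h0_ref hχ ρ
  have hHb := hBd ρ hz
  have hC : 1 ≤ C' * 2 := by linarith
  have hen : ∀ h D, A.IsMin χ ρ (A.h0 χ ρ) (C' * 2) h D → ∀ a,
      ∫⁻ x in ball (0 : E) 6, ENNReal.ofReal (en (A.α a x) (h a x) (D a x)) ≤
        ENNReal.ofReal (L * M₀) := fun h D hh a =>
    (hLe ρ _ _ h D hH hC hh.1 a).trans (ENNReal.ofReal_le_ofReal (mul_le_mul_of_nonneg_left
      ((hh.2 _ _ (hH.adm hC)).trans (hMe _ hHb)) hL))
  obtain ⟨h, D, hh⟩ := A.exists_min hχ hp1 hH hC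
  obtain ⟨t, t1, t2, ht⟩ := hco ρ _ _ h D hb hH hHb hC hh.1 (hen h D hh)
  have t0 : 0 < t := lt_of_lt_of_le (by positivity) t1
  have hs : ∀ a, ∀ᵐ x, x ∈ ball (0 : E) 1 → sg (h a x) (t • A.h0 χ ρ a x) ≤ C' := by
    intro a
    obtain ⟨Df, w1, w2, w3⟩ := hsub ρ _ _ h D t hH hHb hC hh t1 t2 a
    filter_upwards [hdg a _ Df w1 w2 w3 (ht a)] with x hx hx1
    have e1 := hx (ball_subset_closedBall hx1)
    have e2 : G a * (C₂ + C₁) ≤ (∑ a, G a) * (C₂ + C₁) :=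
      mul_le_mul_of_nonneg_right (hGs a) (add_nonneg hC₂ hC₁)
    exact (Real.le_exp_log _).trans (Real.exp_le_exp.2 (e1.trans e2))
  obtain ⟨h', D', hm, ho⟩ := Atlas.min_rescale hH hC hχ hh t0 h1C' (by linarith) hs
  have hbd : ∀ a, ∀ x ∈ closedBall (0 : E) 4, Bd (B * C') (h' a x) := fun a x hx =>
    Obst.trans (by linarith) (by linarith)
      (hHb a x (closedBall_subset_closedBall (by norm_num) hx)).1 (ho a x (s46 hx))
  have hl := hm.1.lbd hH hC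
  refine ⟨h', D', ⟨hm.1.wd, hl, hm.1.mc, Atlas.harm_of_min hχ hH hm h1C' le_rfl ho,
    fun a x hx => (hbd a x hx).mono (by linarith) (by linarith), fun a => ?_⟩, hen h' D' hm⟩
  have hher : ∀ᵐ x, x ∈ closedBall (0 : E) 4 → HermF (D' a x) := by
    filter_upwards [wd_herm (by norm_num) isOpen_ball (hm.1.wd a)
      fun x hx => ((hl a).posDef x hx).isHermitian] with x hx hx4 using hx (s46 hx4)
  refine (hn2 a (h' a) (D' a) (L * M₀) hLM (hbd a) hher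
    ((lintegral_mono_set s46).trans (hen h' D' hm a))).trans (ENNReal.ofReal_le_ofReal ?_)
  have := mul_le_mul_of_nonneg_right (hLs a) (show 0 ≤ 1 + L * M₀ by linarith)
  linarith

/-- SEC 1: bounded weakly harmonic metrics, uniformly. -/
theorem exists_hm {E : Type} [NormedAddCommGroup E] [InnerProductSpace ℝ E] [FiniteDimensional ℝ E]
    [MeasurableSpace E] [BorelSpace E] {Γ : Type} [Group Γ] (A : Atlas E Γ)
    (hE : 2 ≤ Module.finrank ℝ E) {r m : ℕ} (hr : 0 < r) (γs : Fin m → Γ) (β N : ℝ) :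
    ∃ C : ℝ, 1 ≤ C ∧ ∀ ρ : Γ →* Mat r, Burn γs β ρ → A.Sz N ρ → ∃ h D, A.HM ρ C h D := by
  obtain ⟨M, -, h⟩ := exists_hm_en A hE hr N
  obtain ⟨C, hC, h⟩ := h m γs β
  refine ⟨C, hC, fun ρ h1 h2 => ?_⟩
  obtain ⟨h, D, h3, -⟩ := h ρ h1 h2
  exact ⟨h, D, h3⟩

end Pool.Agent.PW
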