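import Pool.Agent.P.MP_65ad7c_ag.RBase
import Pool.Agent.P.MP_65ad7c_ag.AKey

open MeasureTheory Set Filter Topology Metric Matrix
open scoped ComplexOrder ContDiff Matrix.Norms.Frobenius RealInnerProductSpace ENNReal
open Pool.Agent.Lib.Sob

noncomputable section
namespace Pool.Agent.PW

variable {E : Type} [NormedAddCommGroup E] [InnerProductSpace ℝ E] [FiniteDimensional ℝ E] {r : ℕ}
  {P Q : Mat r} {C : ℝ}

theorem rpt_inv_mul (hP : P.PosDef) : P⁻¹ * P = 1 :=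
  Matrix.nonsing_inv_mul P ((Matrix.isUnit_iff_isUnit_det P).1 hP.isUnit)

theorem rpt_mul_inv (hP : P.PosDef) : P * P⁻¹ = 1 :=
  Matrix.mul_nonsing_inv P ((Matrix.isUnit_iff_isUnit_det P).1 hP.isUnit)

theorem rpt_young {t X Y : ℝ} (hX : 0 ≤ X) (hY : 0 ≤ Y) (h : t ^ 2 ≤ 4 * X * Y) : t ≤ X + Y := by
  refine le_trans (le_abs_self t) (abs_le_of_sq_le_sq' ?_ (add_nonneg hX hY) |> abs_le.2)
  nlinarith [sq_nonneg (X - Y)]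

omit [FiniteDimensional ℝ E] in
theorem rpt_pos {l L : ℝ} (hl : 0 ≤ l) {α : E →L[ℝ] E} (hα : Ell l L α) (v : E) :
    0 ≤ ⟪v, α v⟫ := (mul_nonneg hl (sq_nonneg _)).trans (hα.2.1 v)

theorem sg_sub_le (hC : 0 < C) (hP : Bd C P) (hQ : Bd C Q) :
    sg P Q - 2 * r ≤ r ^ 2 * C ^ 4 * ‖Q - P‖ ^ 2 := by
  have e : P⁻¹ * Q - 1 = P⁻¹ * (Q - P) := by rw [Matrix.mul_sub, rpt_inv_mul (hP.posDef hC)]
  rw [sg_sub_eq (hP.posDef hC) (hQ.posDef hC), e]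
  refine (nf_le hC hQ hP _).trans ?_
  have h1 : ‖P⁻¹ * (Q - P)‖ ≤ r * C * ‖Q - P‖ :=
    (norm_mul_le _ _).trans (mul_le_mul_of_nonneg_right (hP.norm_inv_le hC) (norm_nonneg _))
  have h2 := pow_le_pow_left₀ (norm_nonneg _) h1 2
  calc C ^ 2 * ‖P⁻¹ * (Q - P)‖ ^ 2 ≤ C ^ 2 * (r * C * ‖Q - P‖) ^ 2 :=
        mul_le_mul_of_nonneg_left h2 (sq_nonneg _)
    _ = _ := by ring

theorem norm_sub_sq_le_sg (hC : 0 < C) (hP : Bd C P) (hQ : Bd C Q) :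
    ‖Q - P‖ ^ 2 ≤ r ^ 2 * C ^ 4 * (sg P Q - 2 * r) := by
  have e : Q - P = P * (P⁻¹ * Q - 1) := by
    rw [Matrix.mul_sub, ← Matrix.mul_assoc, rpt_mul_inv (hP.posDef hC), Matrix.one_mul,
      Matrix.mul_one]
  rw [sg_sub_eq (hP.posDef hC) (hQ.posDef hC)]
  have h0 := le_nf hC hQ hP (P⁻¹ * Q - 1)
  have h1 : ‖Q - P‖ ≤ r * C * ‖P⁻¹ * Q - 1‖ := by
    conv_lhs => rw [e]
    exact (norm_mul_le _ _).trans (mul_le_mul_of_nonneg_right (hP.norm_le hC) (norm_nonneg _))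
  have h2 := pow_le_pow_left₀ (norm_nonneg _) h1 2
  calc ‖Q - P‖ ^ 2 ≤ (r * C) ^ 2 * ‖P⁻¹ * Q - 1‖ ^ 2 := by rw [← mul_pow]; exact h2
    _ ≤ (r * C) ^ 2 * (C ^ 2 * nf Q P (P⁻¹ * Q - 1) (P⁻¹ * Q - 1)) :=
        mul_le_mul_of_nonneg_left h0 (sq_nonneg _)
    _ = _ := by ring

theorem norm_kz_le_sub (hC : 0 < C) (hP : Bd C P) (hQ : Bd C Q) :
    ‖kz P Q‖ ≤ 2 * r * C * ‖Q - P‖ := by
  have e : kz P Q = P⁻¹ * (Q - P) + Q⁻¹ * (Q - P) := by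
    rw [Matrix.mul_sub, Matrix.mul_sub, rpt_inv_mul (hP.posDef hC), rpt_inv_mul (hQ.posDef hC),
      kz]
    abel
  have h1 : ‖P⁻¹ * (Q - P)‖ ≤ r * C * ‖Q - P‖ :=
    (norm_mul_le _ _).trans (mul_le_mul_of_nonneg_right (hP.norm_inv_le hC) (norm_nonneg _))
  have h2 : ‖Q⁻¹ * (Q - P)‖ ≤ r * C * ‖Q - P‖ :=
    (norm_mul_le _ _).trans (mul_le_mul_of_nonneg_right (hQ.norm_inv_le hC) (norm_nonneg _))
  rw [e]
  refine (norm_add_le _ _).trans ?_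
  linarith

theorem norm_dk_sq_le {l L : ℝ} (hC : 0 < C) (hP : Bd C P) (hQ : Bd C Q) (hl : 0 ≤ l)
    {α : E →L[ℝ] E} (hα : Ell l L α) (D D' : E →L[ℝ] Mat r) :
    l * ‖dk P Q D D'‖ ^ 2 ≤ C ^ 2 * qq α P Q D D' := by
  refine (norm_sq_le_npair hC hQ hP hl hα _).trans (mul_le_mul_of_nonneg_left ?_ (sq_nonneg _))
  exact le_add_of_nonneg_right
    (npair_nonneg (hP.posDef hC) (hQ.posDef hC) hα.1 (rpt_pos hl hα) _)

theorem norm_dkz_sq_le {l L : ℝ} (hC : 0 < C) (hP : Bd C P) (hQ : Bd C Q) (hl : 0 ≤ l)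
    {α : E →L[ℝ] E} (hα : Ell l L α) (D D' : E →L[ℝ] Mat r) :
    l * ‖dkz P Q D D'‖ ^ 2 ≤ 2 * C ^ 2 * qq α P Q D D' := by
  have h1 := norm_sq_le_npair hC hQ hP hl hα (dk P Q D D')
  have h2 := norm_sq_le_npair hC hP hQ hl hα (dk Q P D' D)
  have h3 : ‖dkz P Q D D'‖ ≤ ‖dk P Q D D'‖ + ‖dk Q P D' D‖ := norm_sub_le _ _
  have h4 : ‖dkz P Q D D'‖ ^ 2 ≤ 2 * (‖dk P Q D D'‖ ^ 2 + ‖dk Q P D' D‖ ^ 2) :=
    (pow_le_pow_left₀ (norm_nonneg _) h3 2).trans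
      (by nlinarith [sq_nonneg (‖dk P Q D D'‖ - ‖dk Q P D' D‖)])
  have h5 := mul_le_mul_of_nonneg_left h4 hl
  unfold qq
  linarith

variable (E) in
/-- the pointwise inequality behind the difference quotient estimate -/
theorem dq_pointwise (r : ℕ) {C l L : ℝ} (hC : 0 < C) (hl : 0 < l) : ∃ C₁ : ℝ, 0 ≤ C₁ ∧
    ∀ (P Q : Mat r) (D D' : E →L[ℝ] Mat r) (α α' : E →L[ℝ] E) (χ ε : ℝ) (p : E →L[ℝ] ℝ),
      Bd C P → Bd C Q → Ell l L α → ‖α - α'‖ ≤ ε →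
      pair (α - α') (mc Q D') (χ ^ 2 • dkz P Q D D' + ((2 * χ) • p).smulRight (kz P Q)) -
          spair α (dsg P Q D D') ((2 * χ) • p) ≤
        2⁻¹ * (χ ^ 2 * qq α P Q D D') +
          C₁ * (ε ^ 2 * (χ ^ 2 * ‖D'‖ ^ 2) + ‖p‖ ^ 2 * ‖Q - P‖ ^ 2) := by
  set d : ℝ := (Module.finrank ℝ E : ℝ) with hd
  have hd0 : 0 ≤ d := Nat.cast_nonneg _
  refine ⟨2 * C ^ 2 / l * (d * (r * C)) ^ 2 + 2 * d * (r * C) ^ 2
    + 8 * d ^ 2 * L ^ 2 * (r ^ 2 * C ^ 4) / l, by positivity, ?_⟩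
  intro P Q D D' α α' χ ε p hP hQ hα hε
  have hε0 : 0 ≤ ε := (norm_nonneg _).trans hε
  have hL0 : 0 ≤ L := (norm_nonneg _).trans hα.2.2
  have hq : 0 ≤ qq α P Q D D' := qq_nonneg (hP.posDef hC) (hQ.posDef hC) hα.1 (rpt_pos hl.le hα)
  have hz := norm_dkz_sq_le hC hP hQ hl.le hα D D'
  have hk := norm_kz_le_sub hC hP hQ
  have hs : l * ‖dsg P Q D D'‖ ^ 2 ≤ 2 * (r ^ 2 * C ^ 4 * ‖Q - P‖ ^ 2) * qq α P Q D D' :=
    ((le_spair hl.le hα _).trans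
      (spair_dsg_le' (hP.posDef hC) (hQ.posDef hC) hα.1 (rpt_pos hl.le hα))).trans
      (mul_le_mul_of_nonneg_right (by linarith [sg_sub_le hC hP hQ]) hq)
  have hm : ‖mc Q D'‖ ≤ r * C * ‖D'‖ :=
    (norm_lmul_le _ _).trans (mul_le_mul_of_nonneg_right (hQ.norm_inv_le hC) (norm_nonneg _))
  have hp : ‖(2 * χ) • p‖ = 2 * |χ| * ‖p‖ := by
    rw [norm_smul, Real.norm_eq_abs, abs_mul, abs_two]
  have hW : ‖χ ^ 2 • dkz P Q D D' + ((2 * χ) • p).smulRight (kz P Q)‖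
      ≤ χ ^ 2 * ‖dkz P Q D D'‖ + 2 * |χ| * ‖p‖ * (2 * r * C * ‖Q - P‖) := by
    refine (norm_add_le _ _).trans (add_le_add (le_of_eq ?_) ?_)
    · rw [norm_smul, Real.norm_of_nonneg (sq_nonneg _)]
    · rw [ContinuousLinearMap.norm_smulRight_apply, hp]
      exact mul_le_mul_of_nonneg_left hk (by positivity)
  have b1 : pair (α - α') (mc Q D') (χ ^ 2 • dkz P Q D D' + ((2 * χ) • p).smulRight (kz P Q))
      ≤ d * ε * (r * C * ‖D'‖)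
        * (χ ^ 2 * ‖dkz P Q D D'‖ + 2 * |χ| * ‖p‖ * (2 * r * C * ‖Q - P‖)) := by
    refine (le_abs_self _).trans ((abs_pair_le _ _ _).trans ?_)
    gcongr
  have b2 : -spair α (dsg P Q D D') ((2 * χ) • p)
      ≤ d * L * ‖dsg P Q D D'‖ * (2 * |χ| * ‖p‖) := by
    refine (neg_le_abs _).trans ((abs_spair_le _ _ _).trans ?_)
    rw [hp]
    gcongr
    exact hα.2.2
  generalize qq α P Q D D' = q at *
  generalize ‖dkz P Q D D'‖ = z at *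
  generalize ‖dsg P Q D D'‖ = s at *
  generalize ‖Q - P‖ = k at *
  generalize ‖D'‖ = a at *
  generalize ‖p‖ = π at *
  have hχ : |χ| ^ 2 = χ ^ 2 := sq_abs χ
  have hz' : z ^ 2 ≤ 2 * C ^ 2 * q / l := by rw [le_div_iff₀ hl]; linarith
  have hs' : s ^ 2 ≤ 2 * (r ^ 2 * C ^ 4 * k ^ 2) * q / l := by rw [le_div_iff₀ hl]; linarith
  have t1 : d * ε * (r * C * a) * (χ ^ 2 * z) ≤ χ ^ 2 * q / 4
      + 2 * C ^ 2 / l * (d * (r * C)) ^ 2 * (ε ^ 2 * (χ ^ 2 * a ^ 2)) := by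
    refine rpt_young (by positivity) (by positivity) ?_
    calc (d * ε * (r * C * a) * (χ ^ 2 * z)) ^ 2
        = (d * ε * (r * C * a) * χ ^ 2) ^ 2 * z ^ 2 := by ring
      _ ≤ (d * ε * (r * C * a) * χ ^ 2) ^ 2 * (2 * C ^ 2 * q / l) :=
          mul_le_mul_of_nonneg_left hz' (sq_nonneg _)
      _ = _ := by ring
  have t2 : d * ε * (r * C * a) * (2 * |χ| * π * (2 * r * C * k))
      ≤ 2 * d * (r * C) ^ 2 * (ε ^ 2 * (χ ^ 2 * a ^ 2) + π ^ 2 * k ^ 2) := by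
    have h1 : 2 * (ε * |χ| * a) * (π * k) ≤ ε ^ 2 * (χ ^ 2 * a ^ 2) + π ^ 2 * k ^ 2 := by
      rw [← hχ]
      nlinarith [sq_nonneg (ε * |χ| * a - π * k)]
    calc d * ε * (r * C * a) * (2 * |χ| * π * (2 * r * C * k))
        = 2 * d * (r * C) ^ 2 * (2 * (ε * |χ| * a) * (π * k)) := by ring
      _ ≤ _ := mul_le_mul_of_nonneg_left h1 (by positivity)
  have t3 : d * L * s * (2 * |χ| * π) ≤ χ ^ 2 * q / 4
      + 8 * d ^ 2 * L ^ 2 * (r ^ 2 * C ^ 4) / l * (π ^ 2 * k ^ 2) := by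
    refine rpt_young (by positivity) (by positivity) ?_
    calc (d * L * s * (2 * |χ| * π)) ^ 2 = (2 * d * L * π) ^ 2 * |χ| ^ 2 * s ^ 2 := by ring
      _ ≤ (2 * d * L * π) ^ 2 * χ ^ 2 * (2 * (r ^ 2 * C ^ 4 * k ^ 2) * q / l) := by
          rw [hχ]
          exact mul_le_mul_of_nonneg_left hs' (by positivity)
      _ = _ := by ring
  have p1 : 0 ≤ 2 * C ^ 2 / l * (d * (r * C)) ^ 2 * (π ^ 2 * k ^ 2) := by positivity
  have p2 : 0 ≤ 8 * d ^ 2 * L ^ 2 * (r ^ 2 * C ^ 4) / l * (ε ^ 2 * (χ ^ 2 * a ^ 2)) := by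
    positivity
  rw [mul_add] at b1
  linarith

end Pool.Agent.PW
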