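import Pool.Agent.P.MP_65ad7c_ag.RSub
import Pool.Agent.P.MP_65ad7c_ag.RPt
import Pool.Agent.P.MP_65ad7c_ag.TDG

open MeasureTheory Set Filter Topology Metric Matrix
open scoped ComplexOrder ContDiff Matrix.Norms.Frobenius RealInnerProductSpace ENNReal
open Pool.Agent.Lib.Sob

noncomputable section
namespace Pool.Agent.PW

variable {E : Type} [NormedAddCommGroup E] [InnerProductSpace ℝ E] [FiniteDimensional ℝ E]
  [MeasurableSpace E] [BorelSpace E] {r : ℕ} {U : Set E}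

/-- bounded difference quotients bound the weak derivative -/
theorem norm_wd_le_of_diff {V : Type} [NormedAddCommGroup V] [NormedSpace ℝ V] [CompleteSpace V]
    (hU : IsOpen U) {u : E → V} {D : E → E →L[ℝ] V} (h : WD 2 U u D) {K : Set E}
    (hK : IsCompact K) (hKU : K ⊆ U) {δ L : ℝ} (hδ : 0 < δ) (hL : 0 ≤ L)
    (hd : ∀ v : E, ‖v‖ ≤ δ → ∀ᵐ x, x ∈ K → ‖u (x + v) - u x‖ ≤ L * ‖v‖) :
    ∀ᵐ x, x ∈ K → ‖D x‖ ≤ Module.finrank ℝ E * L := by
  have hKm := hK.measurableSet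
  have key : ∀ p, ∀ᵐ x, x ∈ K → ‖D x (ob E p)‖ ≤ L := fun p => by
    have he : ‖ob E p‖ = 1 := (ob E).orthonormal.1 p
    have hm : AEStronglyMeasurable (fun x => max (‖D x (ob E p)‖ - L) 0) (volume.restrict K) :=
      (continuous_id.max continuous_const).comp_aestronglyMeasurable
        (((h.2.1.apply (ob E p)) K hK hKU).1.norm.sub aestronglyMeasurable_const)
    have h0 : eLpNorm (fun x => max (‖D x (ob E p)‖ - L) 0) 2 (volume.restrict K) ≤ 0 := by
      refine ge_of_tendsto (dq_tendsto hU h hK hKU (ob E p)) ?_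
      filter_upwards [Ioc_mem_nhdsGT hδ] with s hs
      have hn : ‖s • ob E p‖ = s := by rw [norm_smul, he, mul_one, Real.norm_of_nonneg hs.1.le]
      refine eLpNorm_mono_ae ((ae_restrict_iff' hKm).2 ?_)
      filter_upwards [hd (s • ob E p) (hn.le.trans hs.2)] with x hx hxK
      have h1 : ‖s⁻¹ • (u (x + s • ob E p) - u x)‖ ≤ L := by
        rw [norm_smul, Real.norm_of_nonneg (inv_pos.2 hs.1).le, inv_mul_le_iff₀ hs.1, mul_comm]
        simpa only [hn] using hx hxK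
      have h2 := norm_sub_norm_le (D x (ob E p)) (s⁻¹ • (u (x + s • ob E p) - u x))
      rw [norm_sub_rev] at h2
      rw [Real.norm_of_nonneg (le_max_right _ _)]
      exact max_le (by linarith) (norm_nonneg _)
    have h1 := (eLpNorm_eq_zero_iff hm two_ne_zero).1 (le_antisymm h0 zero_le)
    filter_upwards [(ae_restrict_iff' hKm).1 h1] with x hx hxK
    have h2 : max (‖D x (ob E p)‖ - L) 0 = 0 := hx hxK
    linarith [le_max_left (‖D x (ob E p)‖ - L) 0]
  filter_upwards [ae_all_iff.2 key] with x hx hxK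
  have h1 : ∑ p, ‖D x (ob E p)‖ ^ 2 ≤ Module.finrank ℝ E * L ^ 2 := by
    have := Finset.sum_le_card_nsmul Finset.univ (fun p => ‖D x (ob E p)‖ ^ 2) (L ^ 2)
      fun p _ => pow_le_pow_left₀ (norm_nonneg _) (hx p hxK) 2
    simpa using this
  have h2 : (Module.finrank ℝ E : ℝ) ≤ (Module.finrank ℝ E : ℝ) ^ 2 := by
    exact_mod_cast Nat.le_self_pow two_ne_zero _
  refine le_of_sq_le_sq ((norm_sq_le_sum (D x)).trans (h1.trans ?_)) (by positivity)
  rw [mul_pow]
  exact mul_le_mul_of_nonneg_right h2 (sq_nonneg L)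

/-- differences of a flat harmonic metric -/
theorem diff_bound (hE : 2 ≤ Module.finrank ℝ E) (r : ℕ) {C : ℝ} (hC : 1 ≤ C) :
    ∃ L : ℝ, 0 ≤ L ∧ ∀ (h : E → Mat r) (D : E → E →L[ℝ] Mat r),
      LH (ball 0 4) (fun _ => ContinuousLinearMap.id ℝ E) h D →
      (∀ x ∈ ball (0 : E) 4, Bd C (h x)) → N2 (closedBall 0 4) D ≤ ENNReal.ofReal C →
      ∀ v : E, ‖v‖ ≤ 1 / 4 → ∀ᵐ x, x ∈ closedBall (0 : E) 3 → ‖h (x + v) - h x‖ ≤ L * ‖v‖ := by
  obtain ⟨C₀, hC₀, hDG⟩ := degiorgi hE (l := 1) (L := 1) (R := 3) (R' := 7 / 2) one_pos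
    (by norm_num) (by norm_num)
  have hC0 : 0 < C := one_pos.trans_le hC
  have hK : IsCompact (closedBall (0 : E) (7 / 2)) := isCompact_closedBall _ _
  obtain ⟨W, hW0, hW⟩ : ∃ W : ℝ, 0 ≤ W ∧
      (volume.restrict (closedBall (0 : E) (7 / 2))) univ ^ (2 : ℝ≥0∞).toReal⁻¹ =
        ENNReal.ofReal W := by
    refine ⟨_, ENNReal.toReal_nonneg, (ENNReal.ofReal_toReal ?_).symm⟩
    rw [Measure.restrict_apply_univ]
    exact ENNReal.rpow_ne_top_of_nonneg (by simp) hK.measure_lt_top.ne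
  refine ⟨r * C ^ 2 * (C₀ * (r * C ^ 3 + W)), by positivity, fun h D H hb hn v hv => ?_⟩
  rcases eq_or_ne v 0 with rfl | hv0
  · exact Eventually.of_forall fun x _ => by simp
  have hvp : 0 < ‖v‖ := norm_pos_iff.2 hv0
  have s1 : ball (0 : E) (15 / 4) ⊆ ball 0 4 := ball_subset_ball (by norm_num)
  have s2 : ball (0 : E) (15 / 4) ⊆ {x | x + v ∈ ball (0 : E) 4} := fun x hx => by
    rw [mem_ball_zero_iff] at hx
    change x + v ∈ ball (0 : E) 4
    rw [mem_ball_zero_iff]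
    linarith [norm_add_le x v]
  have s3 : closedBall (0 : E) (7 / 2) ⊆ ball 0 (15 / 4) := closedBall_subset_ball (by norm_num)
  have H1 := H.mono s1
  have H2 : LH (ball 0 (15 / 4)) (fun _ => ContinuousLinearMap.id ℝ E) (fun x => h (x + v))
      fun x => D (x + v) := (H.translate v).mono s2
  obtain ⟨Df, hwd, hlb, hsub⟩ := sqrt_subsol isOpen_ball continuousOn_const (fun _ _ _ _ => rfl)
    (fun _ _ _ => real_inner_self_nonneg) H1 H2 (ε := ‖v‖ ^ 2) (by positivity) hK s3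
  have hell : Ell 1 1 (ContinuousLinearMap.id ℝ E) :=
    ⟨fun _ _ => rfl, fun w => by simp, ContinuousLinearMap.norm_id_le⟩
  have hN : N2 (closedBall 0 (7 / 2)) (fun x => √(sg (h x) (h (x + v)) - 2 * r + ‖v‖ ^ 2)) ≤
      ENNReal.ofReal ((r * C ^ 3 + W) * ‖v‖) := by
    have hm := ((H2.wd.1.sub H1.wd.1) _ hK s3).1
    have hc : cthickening (1 / 4) (closedBall (0 : E) (7 / 2)) = closedBall 0 (1 / 4 + 7 / 2) :=
      cthickening_closedBall (by norm_num) (by norm_num) _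
    have h1 : N2 (closedBall 0 (7 / 2)) (fun x => h (x + v) - h x) ≤
        ENNReal.ofReal ‖v‖ * ENNReal.ofReal C := by
      refine (dq_le isOpen_ball H.wd hK (δ := 1 / 4) ?_ hv).trans (mul_le_mul_right ?_ _)
      · rw [hc]
        exact closedBall_subset_ball (by norm_num)
      · refine le_trans (eLpNorm_mono_measure _ (Measure.restrict_mono ?_ le_rfl)) hn
        rw [hc]
        exact closedBall_subset_closedBall (by norm_num)
    have h2 : eLpNorm (fun x => r * C ^ 2 * ‖h (x + v) - h x‖) 2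
        (volume.restrict (closedBall (0 : E) (7 / 2))) ≤
        ENNReal.ofReal (r * C ^ 2) * (ENNReal.ofReal ‖v‖ * ENNReal.ofReal C) := by
      refine (eLpNorm_le_mul_eLpNorm_of_ae_le_mul (c := r * C ^ 2)
        (g := fun x => h (x + v) - h x) (Eventually.of_forall fun x => ?_) 2).trans
        (mul_le_mul_right h1 _)
      rw [Real.norm_of_nonneg (by positivity)]
    have h3 : eLpNorm (fun _ : E => ‖v‖) 2 (volume.restrict (closedBall (0 : E) (7 / 2))) ≤
        ENNReal.ofReal W * ENNReal.ofReal ‖v‖ := by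
      rw [← hW]
      exact eLpNorm_le_of_ae_bound (Eventually.of_forall fun _ => by simp)
    have h4 := eLpNorm_add_le (p := 2) (hm.norm.const_mul (r * C ^ 2))
      (aestronglyMeasurable_const (b := ‖v‖)) one_le_two
    refine (eLpNorm_mono_ae_real ((ae_restrict_iff' hK.measurableSet).2
      (Eventually.of_forall fun x hx => ?_))).trans (h4.trans ((add_le_add h2 h3).trans_eq ?_))
    · have h5 := sg_sub_le hC0 (hb x (s1 (s3 hx))) (hb _ (s2 (s3 hx)))
      have h6 : 0 ≤ r * C ^ 2 * ‖h (x + v) - h x‖ := by positivity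
      rw [Real.norm_of_nonneg (Real.sqrt_nonneg _)]
      change _ ≤ r * C ^ 2 * ‖h (x + v) - h x‖ + ‖v‖
      refine Real.sqrt_le_iff.2 ⟨by positivity, ?_⟩
      nlinarith [mul_nonneg h6 hvp.le]
    · rw [← ENNReal.ofReal_mul hvp.le, ← ENNReal.ofReal_mul (by positivity),
        ← ENNReal.ofReal_mul hW0, ← ENNReal.ofReal_add (by positivity) (by positivity)]
      congr 1
      ring
  filter_upwards [hDG 0 _ _ _ Df 0 _ isOpen_ball s3 (fun _ _ => hell) continuousOn_const hwd hlb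
    le_rfl (by positivity) hsub hN] with x hx hx3
  have hx7 : x ∈ ball (0 : E) (15 / 4) := closedBall_subset_ball (by norm_num) hx3
  have b1 := hb x (s1 hx7)
  have b2 := hb _ (s2 hx7)
  have h1 := norm_sub_sq_le_sg hC0 b1 b2
  have h2 := le_sg (b1.posDef hC0) (b2.posDef hC0)
  have h3 := hx hx3
  have h4 : sg (h x) (h (x + v)) - 2 * r + ‖v‖ ^ 2 ≤ (C₀ * ((r * C ^ 3 + W) * ‖v‖ + 0)) ^ 2 :=
    (Real.sqrt_le_iff.1 h3).2
  refine le_of_sq_le_sq (h1.trans ?_) (by positivity)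
  have h5 : sg (h x) (h (x + v)) - 2 * r ≤ (C₀ * ((r * C ^ 3 + W) * ‖v‖ + 0)) ^ 2 := by
    linarith [sq_nonneg ‖v‖]
  exact (mul_le_mul_of_nonneg_left h5 (by positivity)).trans_eq (by ring)

/-- the gradient bound -/
theorem lip_bound (hE : 2 ≤ Module.finrank ℝ E) (r : ℕ) {C : ℝ} (hC : 1 ≤ C) :
    ∃ L : ℝ, ∀ (h : E → Mat r) (D : E → E →L[ℝ] Mat r),
      LH (ball 0 4) (fun _ => ContinuousLinearMap.id ℝ E) h D →
      (∀ x ∈ ball (0 : E) 4, Bd C (h x)) → N2 (closedBall 0 4) D ≤ ENNReal.ofReal C →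
      ∀ᵐ x, x ∈ closedBall (0 : E) 3 → ‖D x‖ ≤ L := by
  obtain ⟨L, hL, h1⟩ := diff_bound hE r hC
  exact ⟨_, fun h D H hb hn => norm_wd_le_of_diff isOpen_ball H.wd (isCompact_closedBall _ _)
    (closedBall_subset_ball (by norm_num)) (δ := 1 / 4) (by norm_num) hL (h1 h D H hb hn)⟩

end Pool.Agent.PW
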