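import Pool.Agent.P.MP_65ad7c_ag.RPh
import Pool.Agent.P.MP_65ad7c_ag.RLip

open MeasureTheory Set Filter Topology Metric Matrix
open scoped ComplexOrder ContDiff Matrix.Norms.Frobenius RealInnerProductSpace ENNReal
open Pool.Agent.Lib.Sob

noncomputable section
namespace Pool.Agent.PW

/-- SEC 2-3 (writer h79): harmonic metrics are Lipschitz and pluriharmonic. -/
theorem ph_of_hm {n r : ℕ} {Γ : Type} [Group Γ] (A : KAtlas n Γ) (hn : 0 < n) (_hr : 0 < r)
    {C : ℝ} (hC : 1 ≤ C) :
    ∃ C' : ℝ, 1 ≤ C' ∧ ∀ (ρ : Γ →* Mat r) h D, A.toAtlas.HM ρ C h D →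
      ∃ h' D', A.PH (ball 0 3) ρ C' h' D' := by
  have hE : 2 ≤ Module.finrank ℝ (EC n) := by
    rw [finrank_real_of_complex, finrank_euclideanSpace_fin]; omega
  obtain ⟨L, hL⟩ := lip_bound hE r hC
  refine ⟨max C L, hC.trans (le_max_left _ _), fun ρ h D H => ?_⟩
  have h46 : ball (0 : EC n) 4 ⊆ ball 0 6 := ball_subset_ball (by norm_num)
  have h34 : ball (0 : EC n) 3 ⊆ ball 0 4 := ball_subset_ball (by norm_num)
  have hd : ∀ a, ∀ᵐ x, x ∈ ball (0 : EC n) 3 → ‖D a x‖ ≤ L := fun a => by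
    have hw := (H.wd a).mono h46
    have hb := (H.lbd a).mono h46
    refine (hL (h a) (D a) ⟨hw, hb, harm_of_wcurl (locLp_mc isOpen_ball hw hb) (ph_ae A H a).2⟩
      (fun x hx => H.bd a x (ball_subset_closedBall hx)) (H.n2 a)).mono
      fun x hx hx' => hx (ball_subset_closedBall hx')
  choose h' hc he using fun a => exists_rep isOpen_ball (H.wd a) (R := 3)
    (closedBall_subset_ball (by norm_num)) (hd a)
  refine ⟨h', D, fun a => ⟨(hc a).continuousOn, fun x hx => ?_, ?_, ?_, ?_, ?_⟩,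
    (H.mc.mono (h34.trans h46)).rep isOpen_ball (fun a => (hc a).continuousOn) he⟩
  · refine Bd.mono (by linarith) (le_max_left _ _) ?_
    refine mem_closed_of_ae isOpen_ball (hc a).continuousOn (isClosed_obst C 1) ?_ x hx
    filter_upwards [he a] with y hy hy'
    rw [hy hy']
    exact H.bd a y (ball_subset_closedBall (h34 hy'))
  · exact ((H.wd a).mono (h34.trans h46)).congr ((he a).mono fun x hx hx' => (hx hx').symm)
      (Eventually.of_forall fun _ _ => rfl)
  · exact (hd a).mono fun x hx hx' => (hx hx').trans (le_max_right _ _)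
  · filter_upwards [he a, (ph_ae A H a).1] with x h1 h2 hx
    rw [h1 hx]
    exact h2 (h34 hx)
  · refine ((ph_ae A H a).2.monoR h34).congrR ?_
    filter_upwards [he a] with x h1 hx
    rw [h1 hx]

end Pool.Agent.PW
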