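import Pool.Agent.P.MP_65ad7c_ag.FRot
import Pool.Agent.P.MP_65ad7c_ag.FRot2

open MeasureTheory Set Filter Topology Metric Matrix
open scoped ComplexOrder ContDiff Matrix.Norms.Frobenius RealInnerProductSpace ENNReal
open Pool.Agent.Lib.Sob

noncomputable section
namespace Pool.Agent.PW

/-- SEC 4 (writer h23): the twistor line of a pluriharmonic metric. -/
theorem tw_of_ph {n r : ℕ} {Γ : Type} [Group Γ] (A : KAtlas n Γ) {ρ : Γ →* Mat r} {C : ℝ}
    (hC : 1 ≤ C) {h : A.ι → EC n → Mat r} {D : A.ι → EC n → EC n →L[ℝ] Mat r}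
    (hp : A.PH (ball 0 3) ρ C h D) : TWc Γ r fun γ => (ρ γ).trace := by
  obtain ⟨ρ', g, h1, h2, -⟩ := A.exists_rot (by norm_num) (by norm_num) hC hp
  obtain ⟨c, c', hb⟩ := A.rot_bound r (R := 3) (by norm_num) hC
  let p : ℂ → ℂ := fun w => (1 - Complex.cosh w) / 2
  let q : ℂ → ℂ := fun w => Complex.I / 2 * Complex.sinh w
  have hpq : ∀ w, p w ^ 2 - p w + q w ^ 2 = 0 := fun w => by
    have := Complex.cosh_sq w
    simp only [p, q]
    linear_combination (4⁻¹ : ℂ) * this + (Complex.sinh w ^ 2 / 4) * Complex.I_sq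
  have htr : ∀ {ρ1 ρ2 : Γ →* Mat r} {κ : Mat r} (γ : Γ), IsUnit κ.det → ρ1 γ * κ = κ * ρ2 γ →
      (ρ1 γ).trace = (ρ2 γ).trace := fun {ρ1 ρ2 κ} γ hκ he => by
    have : ρ1 γ = κ * ρ2 γ * κ⁻¹ := by rw [← he, Matrix.mul_nonsing_inv_cancel_right _ _ hκ]
    rw [this, Matrix.trace_mul_cycle, Matrix.nonsing_inv_mul _ hκ, Matrix.one_mul]
  have h03 : (0 : EC n) ∈ ball (0 : EC n) 3 := mem_ball_self (by norm_num)
  refine ⟨fun w γ => (ρ' (p w) (q w) γ).trace, fun w => ⟨(ρ' (p w) (q w)).toHomUnits, fun γ => rfl⟩,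
    fun γ => ?_, fun w => ?_, fun γ => ?_, ?_, fun γ => ?_⟩
  · exact (LinearMap.toContinuousLinearMap (Matrix.traceLinearMap (Fin r) ℂ ℂ)).differentiable.comp
      (h2 p q (by fun_prop) (by fun_prop) hpq γ)
  · have e1 : Complex.cosh (w + 2 * Real.pi * Complex.I) = Complex.cosh w := by
      rw [Complex.cosh_add, Complex.cosh_mul_I, Complex.sinh_mul_I]; simp
    have e2 : Complex.sinh (w + 2 * Real.pi * Complex.I) = Complex.sinh w := by
      rw [Complex.sinh_add, Complex.cosh_mul_I, Complex.sinh_mul_I]; simp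
    simp only [p, q, e1, e2]
  · refine ⟨3 * |c γ| + ‖(1 : Mat r)‖ ^ 2, fun w => ?_⟩
    have b1 := ((hb ρ _ h _ D _ _ hp (hpq w) (h1 _ _ (hpq w)).1 (h1 _ _ (hpq w)).2).1 γ).norm_le
    set N := ‖(1 : Mat r)‖
    set e := Real.exp |w.re|
    have he : 1 ≤ e := Real.one_le_exp (abs_nonneg _)
    have a1 : ‖Complex.exp w‖ ≤ e := by
      rw [Complex.norm_exp]; exact Real.exp_le_exp.2 (le_abs_self _)
    have a2 : ‖Complex.exp (-w)‖ ≤ e := by
      rw [Complex.norm_exp]; exact Real.exp_le_exp.2 (neg_le_abs _)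
    have a3 : ‖p w‖ ≤ e := by
      have : ‖Complex.cosh w‖ ≤ e := by
        rw [Complex.cosh, norm_div, Complex.norm_two]
        linarith [norm_add_le (Complex.exp w) (Complex.exp (-w))]
      simp only [p]
      rw [norm_div, Complex.norm_two]
      linarith [norm_sub_le (1 : ℂ) (Complex.cosh w), norm_one (α := ℂ)]
    have a4 : ‖q w‖ ≤ e := by
      have : ‖Complex.sinh w‖ ≤ e := by
        rw [Complex.sinh, norm_div, Complex.norm_two]
        linarith [norm_sub_le (Complex.exp w) (Complex.exp (-w))]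
      simp only [q]
      rw [norm_mul, norm_div, Complex.norm_two, Complex.norm_I]
      linarith
    have a5 : c γ * (1 + ‖p w‖ + ‖q w‖) ≤ 3 * |c γ| * e := by
      calc _ ≤ |c γ| * (1 + ‖p w‖ + ‖q w‖) := by gcongr; exact le_abs_self _
        _ ≤ |c γ| * (3 * e) := by gcongr; linarith
        _ = _ := by ring
    have a6 : N ^ 2 ≤ Real.exp (N ^ 2 * e) :=
      (le_mul_of_one_le_right (sq_nonneg N) he).trans
        (by linarith [Real.add_one_le_exp (N ^ 2 * e)])
    calc ‖(ρ' (p w) (q w) γ).trace‖ = ‖(ρ' (p w) (q w) γ * 1).trace‖ := by rw [Matrix.mul_one]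
      _ ≤ ‖ρ' (p w) (q w) γ‖ * N := abs_trace_mul_le _ _
      _ ≤ Real.exp (3 * |c γ| * e) * N * N := by
          gcongr
          exact b1.trans (by gcongr)
      _ = Real.exp (3 * |c γ| * e) * N ^ 2 := by ring
      _ ≤ Real.exp (3 * |c γ| * e) * Real.exp (N ^ 2 * e) := by gcongr
      _ = _ := by rw [← Real.exp_add]; ring_nf
  · funext γ
    have e1 : p 0 = 0 := by simp [p]
    have e2 : q 0 = 0 := by simp [q]
    have hr := (h1 0 0 (by simp)).1
    simp only [e1, e2]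
    exact htr γ (by simpa using (hr.fr A.a0).unit 0 h03)
      (hr.unique (by norm_num) (A.rot_zero _ ρ h D) γ)
  · have e1 : p (Real.pi * Complex.I) = 1 := by simp [p, Complex.cosh_mul_I]
    have e2 : q (Real.pi * Complex.I) = 0 := by simp [q, Complex.sinh_mul_I]
    have hr := (h1 1 0 (by simp)).1
    have hr' := hp.rot_one isOpen_ball hC
    simp only [e1, e2]
    rw [htr γ (by
      rw [Matrix.det_mul]
      exact (Matrix.isUnit_nonsing_inv_det _ ((hr.fr A.a0).unit 0 h03)).mul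
        ((hr'.fr A.a0).unit 0 h03)) (hr.unique (by norm_num) hr' γ)]
    exact Matrix.trace_conjTranspose _

end Pool.Agent.PW
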