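import Pool.Agent.P.MP_65ad7c_ag.GPar

open MeasureTheory Set Filter Topology Metric Matrix
open scoped ComplexOrder ContDiff Matrix.Norms.Frobenius RealInnerProductSpace ENNReal
open Pool.Agent.Lib.Sob

noncomputable section
namespace Pool.Agent.PW

/-- SEC 5-6 (writer h63): twistor lines through irreducible characters of every rank give the
theorem. -/
theorem alb_of_tw {Γ : Type} [Group Γ] (hfg : Group.FG Γ)
    (htw : ∀ s : ℕ, 0 < s → ∀ ρ : Γ →* Mat s, Irr ρ → TWc Γ s fun γ => (ρ γ).trace) (r : ℕ) :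
    AlbTrivial Γ r := by
  intro P hP g M Λ _ _ Θ hΘ f hf y hy y' hy' h0 _
  obtain ⟨σ, _, T, R, hR, hM⟩ := G.exists_par hfg r
  obtain ⟨i0, hi0⟩ := Function.ne_iff.1 h0
  obtain ⟨a, ha⟩ := G.alb_abstract (τ := fun γ => γ⁻¹) inv_inv T R hR hM
    (fun y hy => G.tw_all htw hy) hP (G.ab_of hΘ) f hf (i0 := i0) fun h => hi0 (hy.2 _ h)
  obtain ⟨k, hk⟩ := Function.ne_iff.1 (hΘ.ne a)
  have key : ∀ x ∈ MvPolynomial.zeroLocus ℂ P,
      (fun i => MvPolynomial.eval x (f i)) = (MvPolynomial.eval x (f k) / Θ a k) • Θ a :=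
    fun x hx => funext fun j => by
      have : MvPolynomial.eval x _ = 0 := hx _ (ha j k)
      simp only [map_sub, map_mul, MvPolynomial.eval_C, sub_eq_zero] at this
      rw [Pi.smul_apply, smul_eq_mul, div_mul_eq_mul_div, eq_div_iff hk, mul_comm, this, mul_comm]
  rw [key y hy.2] at h0 ⊢
  rw [key y' hy'.2]
  exact ⟨_ / _, by rw [smul_smul, div_mul_cancel₀ _ (left_ne_zero_of_smul h0)]⟩

/-- SEC 5-6: the trivial group (the character variety is one point). -/
theorem alb_of_subsingleton {Γ : Type} [Group Γ] [Subsingleton Γ] (r : ℕ) : AlbTrivial Γ r := by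
  refine alb_of_tw inferInstance (fun s _ ρ _ => ?_) r
  convert G.tw_trivial (Γ := Γ) s using 2 with γ
  rw [Subsingleton.elim γ 1]; simp

end Pool.Agent.PW
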