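import Pool.Agent.P.MP_65ad7c_ag.Sec0
import Pool.Agent.P.MP_65ad7c_ag.Sec1
import Pool.Agent.P.MP_65ad7c_ag.Sec23
import Pool.Agent.P.MP_65ad7c_ag.Sec4
import Pool.Agent.P.MP_65ad7c_ag.Sec56

open MeasureTheory Set Filter Topology Metric Matrix
open scoped ComplexOrder ContDiff Matrix.Norms.Frobenius RealInnerProductSpace ENNReal
open Pool.Agent.Lib.Sob

noncomputable section
namespace Pool.Agent.PW

open scoped Manifold in
theorem main (n r : ℕ) (X : Type) [TopologicalSpace X] [T2Space X] [CompactSpace X]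
    [ConnectedSpace X] [ChartedSpace (EC n) X] [IsManifold 𝓘(ℂ, EC n) ω X] (hK : IsKahler n X)
    (x₀ : X) : AlbTrivial (FundamentalGroup X x₀) r := by
  rcases Nat.eq_zero_or_pos n with rfl | hn
  · have := subsingleton_pi1 X x₀
    exact alb_of_subsingleton r
  obtain ⟨A⟩ := exists_katlas n X hK x₀
  refine alb_of_tw A.toAtlas.fg (fun s hs ρ hρ => ?_) r
  obtain ⟨m, γs, β, hb⟩ := hρ.burn
  have hE : 2 ≤ Module.finrank ℝ (EC n) := by
    rw [finrank_real_of_complex, finrank_euclideanSpace_fin]; omega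
  obtain ⟨C, hC, h1⟩ := exists_hm A.toAtlas hE hs γs β (∑ s ∈ A.S, ‖ρ s‖)
  obtain ⟨h, D, hh⟩ := h1 ρ hb fun s hs =>
    Finset.single_le_sum (f := fun s => ‖ρ s‖) (fun _ _ => norm_nonneg _) hs
  obtain ⟨C', hC', h2⟩ := ph_of_hm A hn hs hC
  obtain ⟨h', D', hp⟩ := h2 ρ h D hh
  exact tw_of_ph A hC' hp

end Pool.Agent.PW
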