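import Pool.Agent.P.MP_65ad7c_ag.NAna
import Pool.Agent.P.MP_65ad7c_ag.FUniq

open MeasureTheory Set Filter Topology Metric Matrix
open scoped ComplexOrder ContDiff Matrix.Norms.Frobenius RealInnerProductSpace ENNReal
open Pool.Agent.Lib.Sob

noncomputable section
namespace Pool.Agent.PW

/-- the map `X ↦ a X b` -/
def nconjL {r : ℕ} (a b : Mat r) : Mat r →L[ℝ] Mat r :=
  (ContinuousLinearMap.mul ℝ (Mat r) a).comp ((ContinuousLinearMap.mul ℝ (Mat r)).flip b)

theorem nconjL_apply {r : ℕ} (a b X : Mat r) : nconjL a b X = a * (X * b) := rfl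

theorem nconj_norm3 {r : ℕ} {a X b : Mat r} {B C : ℝ} (ha : ‖a‖ ≤ B) (hX : ‖X‖ ≤ C)
    (hb : ‖b‖ ≤ B) : ‖a * X * b‖ ≤ B * C * B := by
  have hB : 0 ≤ B := (norm_nonneg _).trans ha
  have hC : 0 ≤ C := (norm_nonneg _).trans hX
  calc ‖a * X * b‖ ≤ ‖a * X‖ * ‖b‖ := norm_mul_le _ _
    _ ≤ ‖a‖ * ‖X‖ * ‖b‖ := mul_le_mul_of_nonneg_right (norm_mul_le _ _) (norm_nonneg _)
    _ ≤ B * C * B := mul_le_mul (mul_le_mul ha hX (norm_nonneg _) hB) hb (norm_nonneg _)
        (mul_nonneg hB hC)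

theorem nconj_cancel {r : ℕ} {u u' : Mat r} (hu : u * u' = 1) (X : Mat r) : u * (u' * X) = X := by
  rw [← Matrix.mul_assoc, hu, Matrix.one_mul]

section
variable {E : Type} [NormedAddCommGroup E] [InnerProductSpace ℝ E] [FiniteDimensional ℝ E]
  [MeasurableSpace E] [BorelSpace E] {r : ℕ} {Γ : Type} [Group Γ]

omit [MeasurableSpace E] [BorelSpace E] [FiniteDimensional ℝ E] in
theorem mc_conj {P u u' : Mat r} (hP : P.PosDef) (hu : u * u' = 1) (X : E →L[ℝ] Mat r) :
    mc (gm P u) (lmul uᴴ (rmul X u)) = lmul u' (rmul (mc P X) u) := by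
  have h : u'ᴴ * uᴴ = 1 := by rw [← conjTranspose_mul, hu, conjTranspose_one]
  refine ContinuousLinearMap.ext fun v => ?_
  simp only [mc, lmul_apply, rmul_apply, gm_inv hP hu, Matrix.mul_assoc, nconj_cancel h]

theorem bd_conj (r : ℕ) (C B : ℝ) : ∃ C' : ℝ, 1 ≤ C' ∧ ∀ P u u' : Mat r, 1 ≤ C → Bd C P →
    u * u' = 1 → ‖u‖ ≤ B → ‖u'‖ ≤ B → Bd C' (gm P u) := by
  refine ⟨max 1 (B * (r * C) * B), le_max_left _ _, fun P u u' hC hP hu h1 h2 => ?_⟩
  have hC0 : 0 < C := by linarith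
  have hp := hP.posDef hC0
  refine bd_of_norm (lt_of_lt_of_le one_pos (le_max_left _ _)) (gm_posDef hp hu) ?_ ?_
  · refine (nconj_norm3 ?_ (hP.norm_le hC0) h1).trans (le_max_right _ _)
    rwa [Matrix.frobenius_norm_conjTranspose]
  · rw [gm_inv hp hu]
    refine (nconj_norm3 h2 (hP.norm_inv_le hC0) ?_).trans (le_max_right _ _)
    rwa [Matrix.frobenius_norm_conjTranspose]

/-- a linear image of a coclosed form is coclosed -/
theorem Harm.clm {s : ℕ} {U : Set E} {α : E → E →L[ℝ] E} (hα : ContinuousOn α U)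
    {X : E → E →L[ℝ] Mat r} (hX : LocLp 2 U X) (H : Harm U α X) (L : Mat r →L[ℝ] Mat s) :
    Harm U α fun x => L.comp (X x) := by
  intro φ hφ
  have hi : Integrable fun x => ∑ p, fderiv ℝ φ x (α x (ob E p)) • X x (ob E p) := by
    refine integrable_finsetSum _ fun p _ => ?_
    have hc : ContinuousOn (fun x => fderiv ℝ φ x (α x (ob E p))) U :=
      hφ.continuous_fderiv.continuousOn.clm_apply (hα.clm_apply continuousOn_const)
    have h1 := ((hX.apply (ob E p)).smul hc).integrableOn (by norm_num) hφ.2.1 hφ.2.2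
    refine (integrableOn_iff_integrable_of_support_subset ?_).1 h1
    intro x hx
    by_contra h'
    have h0 : fderiv ℝ φ x = 0 :=
      image_eq_zero_of_notMem_tsupport fun h'' => h' (tsupport_fderiv_subset ℝ h'')
    exact hx (by simp [h0])
  have h2 := L.integral_comp_comm hi
  rw [H φ hφ, map_zero] at h2
  rw [← h2]
  refine integral_congr_ae (Eventually.of_forall fun x => ?_)
  simp only [map_sum, map_smul, ContinuousLinearMap.comp_apply]

theorem Harm.congr {U : Set E} {α : E → E →L[ℝ] E} {X Y : E → E →L[ℝ] Mat r} (H : Harm U α X)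
    (h : ∀ᵐ x, x ∈ U → X x = Y x) : Harm U α Y := by
  intro φ hφ
  rw [← H φ hφ]
  refine integral_congr_ae ?_
  filter_upwards [h] with x hx
  by_cases hxU : x ∈ U
  · rw [hx hxU]
  · simp [hφ.fderiv_zero_of_notMem hxU]

theorem HL.mono {α : E → E →L[ℝ] E} {C C' : ℝ} {h : E → Mat r} {D : E → E →L[ℝ] Mat r}
    (hC : 1 ≤ C) (hCC : C ≤ C') (H : HL α C h D) : HL α C' h D :=
  ⟨H.cont, fun x hx => (H.bd x hx).mono (by linarith) hCC, H.wd,
    H.dbd.mono fun _ hx hx' => (hx hx').trans hCC, H.harm⟩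

theorem hl_conj (r : ℕ) (C B : ℝ) : ∃ C' : ℝ, 1 ≤ C' ∧ ∀ (α : E → E →L[ℝ] E) (h : E → Mat r)
    (D : E → E →L[ℝ] Mat r) (u u' : Mat r), 1 ≤ C → ContinuousOn α (ball 0 2) → HL α C h D →
    u * u' = 1 → ‖u‖ ≤ B → ‖u'‖ ≤ B →
    HL α C' (fun x => gm (h x) u) fun x => lmul uᴴ (rmul (D x) u) := by
  obtain ⟨C1, h1, hb⟩ := bd_conj r C B
  refine ⟨max C1 (B * (C * B)), h1.trans (le_max_left _ _),
    fun α h D u u' hC hα H hu b1 b2 => ⟨?_, fun x hx => ?_, ?_, ?_, ?_⟩⟩
  · refine ((nconjL uᴴ u).continuous.comp_continuousOn H.cont).congr fun x _ => ?_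
    simp only [gm, Function.comp, nconjL_apply, Matrix.mul_assoc]
  · exact (hb _ u u' hC (H.bd x hx) hu b1 b2).mono (by linarith) (le_max_left _ _)
  · refine (H.wd.clm (by norm_num) (nconjL uᴴ u)).congr' (fun x _ => ?_) fun x _ => rfl
    simp only [gm, nconjL_apply, Matrix.mul_assoc]
  · filter_upwards [H.dbd] with x hx hxU
    have hB : 0 ≤ B := (norm_nonneg _).trans b1
    refine le_trans ?_ (le_max_right _ _)
    refine (norm_lmul_le _ _).trans (mul_le_mul ?_ ((norm_rmul_le _ _).trans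
      (mul_le_mul (hx hxU) b1 (norm_nonneg _) (by linarith))) (norm_nonneg _) hB)
    rwa [Matrix.frobenius_norm_conjTranspose]
  · refine (H.harm.clm hα (locLp_mc isOpen_ball H.wd (H.lbd hC)) (nconjL u' u)).congr
      (Eventually.of_forall fun x hx => ?_)
    rw [mc_conj ((H.bd x hx).posDef (by linarith)) hu]
    rfl

end

/-- constant change of frame, with uniform constants -/
theorem KAtlas.rel_conj {n : ℕ} {Γ : Type} [Group Γ] (A : KAtlas n Γ) (r : ℕ) (C B : ℝ) :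
    ∃ C' : ℝ, ∀ t p (ρ ρ' σ σ' : Γ →* Mat r) u u', A.Rel C t p ρ ρ' →
      Cj u u' ρ σ → Cj u u' ρ' σ' → ‖u‖ ≤ B → ‖u'‖ ≤ B → A.Rel C' t (gm p u) σ σ' := by
  obtain ⟨C1, h1, hl⟩ := hl_conj (E := EC n) r C B
  refine ⟨max C1 (B * C * B), ?_⟩
  rintro t p ρ ρ' σ σ' u u' ⟨h, D, g, hd, hp, hr, hg, hgb⟩ ⟨hu, hσ⟩ ⟨-, hσ'⟩ b1 b2
  have hu' : u' * u = 1 := mul_eq_one_comm.1 hu
  have hC := hd.one_le
  refine ⟨fun a x => gm (h a x) u, fun a x => lmul uᴴ (rmul (D a x) u),
    fun a x => u' * g a x * u, ⟨h1.trans (le_max_left _ _), fun a => ?_, fun a b x hx => ?_⟩,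
    by simp only [hp], ⟨fun a => ⟨?_, fun x hx => ?_, ?_⟩, fun a b x hx => ?_⟩, ?_, fun a x hx => ?_⟩
  · exact (hl _ _ _ u u' hC ((A.coef a).1.continuousOn.mono (ball_subset_ball (by norm_num)))
      (hd.loc a) hu b1 b2).mono h1 (le_max_left _ _)
  · rw [hd.mc a b x hx, gm_gm, gm_gm, hσ, Matrix.mul_assoc u', nconj_cancel hu]
  · refine ((nconjL u' u).continuous.comp_continuousOn (hr.fr a).cont).congr fun x _ => ?_
    simp only [Function.comp, nconjL_apply, Matrix.mul_assoc]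
  · rw [det_mul, det_mul]
    exact ((isUnit_det_of_left_inverse hu).mul ((hr.fr a).unit x hx)).mul
      (isUnit_det_of_right_inverse hu)
  · refine ((hr.fr a).wd.clm (by norm_num) (nconjL u' u)).congr' (fun x _ => ?_) fun x hx => ?_
    · simp only [nconjL_apply, Matrix.mul_assoc]
    · refine ContinuousLinearMap.ext fun v => ?_
      have e := mc_conj (((hd.loc a).bd x hx).posDef (by linarith)) hu (D a x)
      simp only [rotA, e, rotB, ContinuousLinearMap.comp_apply, _root_.neg_apply,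
        _root_.add_apply, _root_.smul_apply, nconjL_apply, rmul_apply,
        lmul_apply, Matrix.add_mul, Matrix.mul_add, Matrix.neg_mul, Matrix.mul_neg,
        Matrix.smul_mul, Matrix.mul_smul, Matrix.mul_assoc, nconj_cancel hu]
  · have e := hr.rel a b x hx
    rw [hσ, hσ']
    simp only [Matrix.mul_assoc, nconj_cancel hu]
    rw [← Matrix.mul_assoc (ρ _), e, Matrix.mul_assoc]
  · simp only [hg, Matrix.mul_one, hu']
  · have e : (u' * g a x * u)⁻¹ = u' * (g a x)⁻¹ * u := by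
      refine Matrix.inv_eq_left_inv ?_
      simp only [Matrix.mul_assoc, nconj_cancel hu,
        nconj_cancel (nonsing_inv_mul _ ((hr.fr a).unit x hx)), hu']
    refine ⟨(nconj_norm3 b2 (hgb a x hx).1 b1).trans (le_max_right _ _), ?_⟩
    rw [e]
    exact (nconj_norm3 b2 (hgb a x hx).2 b1).trans (le_max_right _ _)

end Pool.Agent.PW
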