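import Pool.Agent.P.MP_65ad7c_ag.Defs

/-! The Betti moduli space of a linear algebraic group, its components and its involution. -/

open Matrix

noncomputable section
namespace Pool.Agent.PW

variable {r : ℕ}

/-- `G` is Zariski closed in `GL_r(ℂ)` and closed under conjugate transposition (by a theorem of
Mostow these are, up to conjugation, the complex reductive groups). -/
def IsRed (G : Subgroup (GL (Fin r) ℂ)) : Prop :=
  (∃ S : Set (MvPolynomial (Fin r × Fin r) ℂ), ∀ g : GL (Fin r) ℂ,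
    g ∈ G ↔ ∀ p ∈ S, MvPolynomial.eval (fun ij => g.1 ij.1 ij.2) p = 0) ∧
  ∀ g ∈ G, ∃ g' ∈ G, g'.1 = g.1ᴴ

variable (Γ : Type) [Group Γ] (G : Subgroup (GL (Fin r) ℂ))

/-- The coordinate ring of the Betti moduli space: conjugation invariant regular functions on
`Hom(Γ, G)`. -/
def Inv : Subalgebra ℂ ((Γ →* G) → ℂ) where
  carrier := {f | f ∈ Algebra.adjoin ℂ {e : (Γ →* G) → ℂ | ∃ γ i j, e = fun ρ => (ρ γ).1.1 i j} ∧
    ∀ (g : G) ρ, f ((MulAut.conj g).toMonoidHom.comp ρ) = f ρ}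
  mul_mem' ha hb := ⟨mul_mem ha.1 hb.1, fun g ρ => by rw [Pi.mul_apply, Pi.mul_apply, ha.2, hb.2]⟩
  add_mem' ha hb := ⟨add_mem ha.1 hb.1, fun g ρ => by rw [Pi.add_apply, Pi.add_apply, ha.2, hb.2]⟩
  algebraMap_mem' c := ⟨Subalgebra.algebraMap_mem _ c, fun _ _ => rfl⟩

variable {Γ G}

/-- The complex points of the closed subvariety of `Spec (Inv Γ G)` defined by the ideal `P`, with
the topology of pointwise convergence (the analytic topology). -/
def Comp (P : Ideal (Inv Γ G)) : Set (Inv Γ G → ℂ) :=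
  {y | (∃ φ : Inv Γ G →ₐ[ℂ] ℂ, ⇑φ = y) ∧ ∀ f ∈ P, y f = 0}

/-- `y'` is the image of `y` under the antiholomorphic involution induced by
`ρ ↦ (γ ↦ ρ(γ⁻¹)ᴴ)`. -/
def IsS (y y' : Inv Γ G → ℂ) : Prop :=
  ∀ f f' : Inv Γ G, (∀ ρ ρ' : Γ →* G, (∀ γ, (ρ' γ).1.1 = (ρ γ⁻¹).1.1ᴴ) →
    f'.1 ρ = starRingEnd ℂ (f.1 ρ')) → y' f = starRingEnd ℂ (y f')

end Pool.Agent.PW
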