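import Pool.Agent.P.MP_65ad7c_ag.NUniq
import Pool.Agent.P.MP_65ad7c_ag.NConj
import Pool.Agent.P.MP_65ad7c_ag.FRot
import Pool.Agent.P.MP_65ad7c_ag.FHarm
import Pool.Agent.P.MP_65ad7c_ag.FInv
import Pool.Agent.P.MP_65ad7c_ag.AVar

open MeasureTheory Set Filter Topology Metric Matrix
open scoped ComplexOrder ContDiff Matrix.Norms.Frobenius RealInnerProductSpace ENNReal
open Pool.Agent.Lib.Sob

noncomputable section
namespace Pool.Agent.PW

variable {n r : ℕ} {Γ : Type} [Group Γ] {A : KAtlas n Γ} {C C' t : ℝ} {p : Mat r}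
  {ρ ρ' : Γ →* Mat r} {h g : A.ι → EC n → Mat r} {D : A.ι → EC n → EC n →L[ℝ] Mat r}

theorem nex_b23 : ball (0 : EC n) 2 ⊆ ball 0 3 := ball_subset_ball (by norm_num)

theorem KAtlas.PH.hd (hC : 1 ≤ C) (hp : A.PH (ball 0 3) ρ C h D) : A.toAtlas.HD ρ C h D := by
  refine ⟨hC, fun a => ⟨(hp.loc a).cont.mono nex_b23, fun x hx => (hp.loc a).bd x (nex_b23 hx),
    (hp.loc a).wd.mono nex_b23, (hp.loc a).dbd.mono fun x hx hx' => hx (nex_b23 hx'),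
    fun φ hφ => ?_⟩, hp.mc.mono nex_b23⟩
  exact hp.harm isOpen_ball (ball_subset_ball (by norm_num)) hC a φ (hφ.mono nex_b23)

theorem KAtlas.Rot.mono {U U' : Set (EC n)} {p q : ℂ} (hr : A.Rot U ρ h D p q ρ' g) (hU : U' ⊆ U) :
    A.Rot U' ρ h D p q ρ' g :=
  ⟨fun a => (hr.fr a).mono hU, fun a b x hx => hr.rel a b x ⟨hx.1, hU hx.2.1, hU hx.2.2⟩⟩

theorem KAtlas.Rel.mono (hCC : C ≤ C') (H : A.Rel C t p ρ ρ') : A.Rel C' t p ρ ρ' := by
  obtain ⟨h, D, g, h1, h2, h3, h4, h5⟩ := H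
  exact ⟨h, D, g, ⟨h1.one_le.trans hCC, fun a => (h1.loc a).mono h1.one_le hCC, h1.mc⟩, h2, h3, h4,
    fun a x hx => ⟨(h5 a x hx).1.trans hCC, (h5 a x hx).2.trans hCC⟩⟩

theorem pT_conic (t : ℝ) : pT t ^ 2 - pT t + qT t ^ 2 = 0 := by
  simp only [pT, qT]
  nlinarith [Real.sin_sq_add_cos_sq t]

theorem pT_conic' (t : ℝ) : ((pT t : ℝ) : ℂ) ^ 2 - (pT t : ℝ) + ((qT t : ℝ) : ℂ) ^ 2 = 0 := by
  exact_mod_cast pT_conic t

theorem pT_neg (t : ℝ) : pT (-t) = pT t := by simp [pT]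

theorem qT_neg (t : ℝ) : qT (-t) = -qT t := by simp [qT]; ring

theorem norm_pT_le (t : ℝ) : ‖((pT t : ℝ) : ℂ)‖ ≤ 1 := by
  rw [Complex.norm_real, Real.norm_eq_abs, abs_le, pT]
  constructor <;> linarith [Real.cos_le_one t, Real.neg_one_le_cos t]

theorem norm_qT_le (t : ℝ) : ‖((qT t : ℝ) : ℂ)‖ ≤ 1 := by
  rw [Complex.norm_real, Real.norm_eq_abs, abs_le, qT]
  constructor <;> linarith [Real.sin_le_one t, Real.neg_one_le_sin t]

/-- the rotated family of a pluriharmonic metric -/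
theorem KAtlas.rel_of_ph (A : KAtlas n Γ) (r : ℕ) {C : ℝ} (hC : 1 ≤ C) : ∃ C₁ : ℝ,
    ∀ (ρ : Γ →* Mat r) h D, A.PH (ball 0 3) ρ C h D → ∃ F : ℝ → Γ →* Mat r,
      (∀ t, A.Rel C₁ t (h A.a0 0) ρ (F t) ∧ ∃ C', A.Rel C' (-t) (h A.a0 0) (F t) ρ) ∧
      ∀ γ i j, AnalyticOnNhd ℝ (fun t => F t γ i j) univ := by
  obtain ⟨c, c', hc⟩ := A.rot_bound r (R := 3) (by norm_num) hC
  refine ⟨max C (Real.exp (|c'| * 3) * ‖(1 : Mat r)‖), fun ρ h D hp => ?_⟩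
  obtain ⟨ρ', g, h1, h2, -⟩ := A.exists_rot (R := 3) (by norm_num) (by norm_num) hC hp
  refine ⟨fun t => ρ' (pT t) (qT t), fun t => ?_, fun γ i j => ?_⟩
  · obtain ⟨hr, h0⟩ := h1 _ _ (pT_conic' t)
    have hb : ∀ a, ∀ x ∈ ball (0 : EC n) 2, ‖g (pT t) (qT t) a x‖ ≤
        max C (Real.exp (|c'| * 3) * ‖(1 : Mat r)‖) ∧ ‖(g (pT t) (qT t) a x)⁻¹‖ ≤
        max C (Real.exp (|c'| * 3) * ‖(1 : Mat r)‖) := by
      intro a x hx
      have h3 := ((hc ρ _ h _ D _ _ hp (pT_conic' t) hr h0).2 a x (nex_b23 hx)).mono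
        (L' := Real.exp (|c'| * 3)) (Real.exp_le_exp.2 (by
          have := norm_pT_le t
          have := norm_qT_le t
          have := norm_nonneg ((pT t : ℝ) : ℂ)
          have := norm_nonneg ((qT t : ℝ) : ℂ)
          nlinarith [le_abs_self c', abs_nonneg c']))
      exact ⟨h3.norm_le.trans (le_max_right _ _), h3.inv.norm_le.trans (le_max_right _ _)⟩
    refine ⟨⟨h, D, g (pT t) (qT t), ⟨hC.trans (le_max_left _ _),
      fun a => ((hp.hd hC).loc a).mono hC (le_max_left _ _), (hp.hd hC).mc⟩, rfl,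
      hr.mono nex_b23, h0, hb⟩, ?_⟩
    obtain ⟨C', D', hC', hp', hr'⟩ := hp.rot_inv (by norm_num) (by norm_num) hC (pT_conic t) hr h0
    refine ⟨max C' (max C (Real.exp (|c'| * 3) * ‖(1 : Mat r)‖)), _, D',
      fun a x => (g (pT t) (qT t) a x)⁻¹,
      ⟨hC'.trans (le_max_left _ _), fun a => ((hp'.hd hC').loc a).mono hC' (le_max_left _ _),
        (hp'.hd hC').mc⟩, by simp only [h0, gm_one], ?_, ?_, fun a x hx => ?_⟩
    · rw [pT_neg, qT_neg]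
      exact hr'.mono nex_b23
    · simp only [h0, inv_one]
    · rw [Matrix.nonsing_inv_nonsing_inv _ ((hr.fr a).unit x (nex_b23 hx))]
      exact ⟨(hb a x hx).2.trans (le_max_right _ _), (hb a x hx).1.trans (le_max_right _ _)⟩
  · have hd := h2 (fun w => (1 - Complex.cos w) / 2) (fun w => -Complex.sin w / 2) (by fun_prop)
      (by fun_prop) (fun w => by
        have := Complex.sin_sq_add_cos_sq w
        linear_combination (1 / 4 : ℂ) * this) γ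
    let L : Mat r →L[ℂ] ℂ := LinearMap.toContinuousLinearMap (Matrix.entryLinearMap ℂ ℂ i j)
    have h3 : Differentiable ℂ fun w => L (ρ' ((1 - Complex.cos w) / 2) (-Complex.sin w / 2) γ) :=
      L.differentiable.comp hd
    intro t _
    have h4 := ((h3.analyticAt (t : ℂ)).restrictScalars (𝕜 := ℝ)).comp
      (Complex.ofRealCLM.analyticAt t)
    refine h4.congr (Eventually.of_forall fun s => ?_)
    simp only [Function.comp, pT, qT]
    push_cast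
    rfl

theorem norm_le_of_bd_gm {P τ : Mat r} (hC : 1 ≤ C) (h1 : Bd C P) (h2 : Bd C (gm P τ)) :
    ‖τ‖ ≤ r * C := by
  have h0 : 0 < C := by linarith
  have h3 := le_nf h0 h2 h1 τ
  have h4 : nf (gm P τ) P τ τ = r := by
    have hu := (h2.posDef h0).isUnit
    rw [Matrix.isUnit_iff_isUnit_det] at hu
    have : (τ * (gm P τ)⁻¹ * τᴴ * P).trace = ((gm P τ)⁻¹ * gm P τ).trace := by
      rw [Matrix.mul_assoc, Matrix.mul_assoc, Matrix.trace_mul_comm]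
      simp only [gm, Matrix.mul_assoc]
    rw [nf, this, Matrix.nonsing_inv_mul _ hu]
    simp
  rw [h4] at h3
  have hr : (r : ℝ) ≤ r ^ 2 := by exact_mod_cast Nat.le_self_pow two_ne_zero r
  refine abs_le_of_sq_le_sq' ?_ (by positivity) |>.2
  nlinarith [sq_nonneg C]

/-- normalisation of the base value -/
theorem KAtlas.rel_norm (A : KAtlas n Γ) (r : ℕ) (C : ℝ) : ∃ C₁ : ℝ, ∀ p : Mat r, 1 ≤ C → Bd C p →
    ∃ (z z' : Mat r) (hz : z * z' = 1), (∀ t ρ ρ', A.Rel C t p ρ ρ' →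
      A.Rel C₁ t 1 (cj hz ρ) (cj hz ρ')) ∧ ∀ C' t ρ ρ', A.Rel C' t p ρ ρ' →
      ∃ C'', A.Rel C'' t 1 (cj hz ρ) (cj hz ρ') := by
  obtain ⟨C₁, h1⟩ := A.rel_conj r C (r * C)
  refine ⟨C₁, fun p hC hp => ?_⟩
  have h0 : 0 < C := by linarith
  obtain ⟨z, z', μ, hz, h2, -⟩ := exists_simul_diag (hp.posDef h0) (hp.posDef h0).1
  have hb : Bd C (1 : Mat r) := Obst.refl PosSemidef.one hC
  have h3 : ‖z‖ ≤ r * C := norm_le_of_bd_gm hC hp (h2 ▸ hb)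
  have h4 : ‖z'‖ ≤ r * C := norm_le_of_bd_gm hC hb (by rwa [← h2, gm_gm, hz, gm_one])
  refine ⟨z, z', hz, fun t ρ ρ' H => ?_, fun C' t ρ ρ' H => ?_⟩
  · exact h2 ▸ h1 t p ρ ρ' _ _ z z' H (cj_spec hz ρ) (cj_spec hz ρ') h3 h4
  · obtain ⟨C'', h5⟩ := A.rel_conj r C' (r * C)
    exact ⟨C'', h2 ▸ h5 t p ρ ρ' _ _ z z' H (cj_spec hz ρ) (cj_spec hz ρ') h3 h4⟩

end Pool.Agent.PW
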