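import Pool.Agent.P.MP_65ad7c_ag.NLim2
import Pool.Agent.P.MP_65ad7c_ag.NCon
import Pool.Agent.P.MP_65ad7c_ag.ANf

open MeasureTheory Set Filter Topology Metric Matrix
open scoped ComplexOrder ContDiff Matrix.Norms.Frobenius RealInnerProductSpace ENNReal
open Pool.Agent.Lib.Sob

noncomputable section
namespace Pool.Agent.PW

variable {n r : ℕ} {Γ : Type} [Group Γ]

theorem nlim_pT (t : ℝ) : ‖((pT t : ℝ) : ℂ)‖ ≤ 1 := by
  rw [Complex.norm_real, Real.norm_eq_abs, abs_le]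
  unfold pT
  constructor <;> linarith [Real.cos_le_one t, Real.neg_one_le_cos t]

theorem nlim_qT (t : ℝ) : ‖((qT t : ℝ) : ℂ)‖ ≤ 1 := by
  rw [Complex.norm_real, Real.norm_eq_abs, abs_le]
  unfold qT
  constructor <;> linarith [Real.sin_le_one t, Real.neg_one_le_sin t]

theorem nlim_rotB {p q : ℂ} (hp : ‖p‖ ≤ 1) (hq : ‖q‖ ≤ 1) (X : EC n →L[ℝ] Mat r) :
    ‖rotB p q X‖ ≤ 2 * ‖X‖ := by
  refine ContinuousLinearMap.opNorm_le_bound _ (by positivity) fun v => ?_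
  have e : rotB p q X v = p • X v + q • X (Complex.I • v) := rfl
  have h1 : ‖X v‖ ≤ ‖X‖ * ‖v‖ := X.le_opNorm v
  have h2 : ‖X (Complex.I • v)‖ ≤ ‖X‖ * ‖v‖ := by
    have := X.le_opNorm (Complex.I • v)
    rwa [norm_smul, Complex.norm_I, one_mul] at this
  have h3 : ‖p • X v‖ ≤ ‖X v‖ := by
    rw [norm_smul]
    exact mul_le_of_le_one_left (norm_nonneg _) hp
  have h4 : ‖q • X (Complex.I • v)‖ ≤ ‖X (Complex.I • v)‖ := by
    rw [norm_smul]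
    exact mul_le_of_le_one_left (norm_nonneg _) hq
  rw [e]
  have h5 := norm_add_le (p • X v) (q • X (Complex.I • v))
  linarith

/-- Lipschitz bounds for the metric and the frame -/
theorem lip_hg (r : ℕ) (C : ℝ) : ∃ L : ℝ, ∀ (α : EC n → EC n →L[ℝ] EC n) (t : ℝ)
    (h g : EC n → Mat r) (D : EC n → EC n →L[ℝ] Mat r), 1 ≤ C → HL α C h D →
    Frame (ball 0 2) (rotA (pT t) (qT t) h D) g → GB C g →
    ∀ x ∈ ball (0 : EC n) 2, ∀ y ∈ ball (0 : EC n) 2,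
      ‖h x - h y‖ ≤ L * ‖x - y‖ ∧ ‖g x - g y‖ ≤ L * ‖x - y‖ := by
  refine ⟨max C (2 * (r * C * C) * C), fun α t h g D hC H hf hb x hx y hy => ⟨?_, ?_⟩⟩
  · refine lipschitz_of_wd (by norm_num) isOpen_ball (convex_ball _ _) H.wd H.cont ?_ x hx y hy
    filter_upwards [H.dbd] with z hz hz2
    exact (hz hz2).trans (le_max_left _ _)
  · refine lipschitz_of_wd (by norm_num) isOpen_ball (convex_ball _ _) hf.wd hf.cont ?_ x hx y hy
    filter_upwards [H.dbd] with z hz hz2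
    have hC0 : 0 < C := by linarith
    have h1 : ‖mc (h z) (D z)‖ ≤ r * C * C :=
      (norm_lmul_le _ _).trans (mul_le_mul ((H.bd z hz2).norm_inv_le hC0) (hz hz2)
        (norm_nonneg _) (by positivity))
    have h2 : ‖rotA (pT t) (qT t) h D z‖ ≤ 2 * (r * C * C) :=
      (nlim_rotB (nlim_pT t) (nlim_qT t) _).trans (by linarith)
    rw [norm_neg]
    refine (norm_rmul_le _ _).trans (le_trans ?_ (le_max_right _ _))
    exact mul_le_mul h2 (hb z hz2).1 (norm_nonneg _) (by positivity)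

theorem nlim_ov {A : Pre (EC n) Γ} {a b : A.ι} {x : EC n} (hx : x ∈ A.ov (ball 0 1) a b) :
    x ∈ A.ov (ball 0 2) a b :=
  ⟨hx.1, ball_subset_ball (by norm_num) hx.2.1, ball_subset_ball (by norm_num) hx.2.2⟩

theorem KAtlas.rel_bound (A : KAtlas n Γ) (r : ℕ) (C : ℝ) (γ : Γ) : ∃ B : ℝ,
    ∀ t p (ρ ρ' : Γ →* Mat r), A.Rel C t p ρ ρ' → ‖ρ γ‖ ≤ B ∧ ‖ρ' γ‖ ≤ B := by
  obtain ⟨B1, h1⟩ := (A.chain γ).bound r (r * C)
  obtain ⟨B2, h2⟩ := (A.chain γ).bound r (C * (r * C) * C)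
  refine ⟨max B1 B2, fun t p ρ ρ' ⟨h, D, g, H, _, hr, _, hb⟩ => ?_⟩
  have hC := H.one_le
  have hl : ∀ a b, ∀ x ∈ A.ov (ball 0 1) a b, ‖ρ (A.c a b x)‖ ≤ r * C := fun a b x hx =>
    Pre.link_le hC H.mc (fun a => (H.loc a).bd) (nlim_ov hx)
  refine ⟨(h1 ρ hl).trans (le_max_left _ _), (h2 ρ' fun a b x hx => ?_).trans (le_max_right _ _)⟩
  have hx2 := nlim_ov hx
  have e : ρ' (A.c a b x) = (g a x)⁻¹ * ρ (A.c a b x) * g b (A.T a b x) := by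
    rw [Matrix.mul_assoc, hr.rel a b x hx2, ← Matrix.mul_assoc,
      Matrix.nonsing_inv_mul _ ((hr.fr a).unit x hx2.2.1), Matrix.one_mul]
  have hC0 : 0 ≤ C := by linarith
  rw [e]
  refine (norm_mul_le _ _).trans (mul_le_mul ((norm_mul_le _ _).trans
    (mul_le_mul (hb a x hx2.2.1).2 (hl a b x hx) (norm_nonneg _) hC0)) (hb b _ hx2.2.2).1
    (norm_nonneg _) (by positivity))

theorem nlim_gm {ι : Type} {l : Filter ι} {u v : ι → Mat r} {u₀ v₀ : Mat r}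
    (hu : Tendsto u l (𝓝 u₀)) (hv : Tendsto v l (𝓝 v₀)) :
    Tendsto (fun i => gm (u i) (v i)) l (𝓝 (gm u₀ v₀)) :=
  ((((adjL r).continuous.tendsto v₀).comp hv).mul hu).mul hv

/-- compactness -/
theorem KAtlas.rel_lim (A : KAtlas n Γ) {ι : Type} (𝒰 : Ultrafilter ι) {C t₀ : ℝ} {t : ι → ℝ}
    {p : ι → Mat r} {ρ ρ' : ι → Γ →* Mat r} (H : ∀ᶠ i in 𝒰, A.Rel C (t i) (p i) (ρ i) (ρ' i))
    (ht : Tendsto t 𝒰 (𝓝 t₀)) :
    ∃ (p₀ : Mat r) (ρ₀ ρ₀' : Γ →* Mat r), A.Rel C t₀ p₀ ρ₀ ρ₀' ∧ Tendsto p 𝒰 (𝓝 p₀) ∧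
      ∀ γ, Tendsto (fun i => ρ i γ) 𝒰 (𝓝 (ρ₀ γ)) ∧ Tendsto (fun i => ρ' i γ) 𝒰 (𝓝 (ρ₀' γ)) := by
  obtain ⟨ρ₀, hρ⟩ := ulim_rep 𝒰 (ρ := ρ) fun γ => by
    obtain ⟨B, hB⟩ := A.rel_bound r C γ
    exact ⟨B, H.mono fun i hi => (hB _ _ _ _ hi).1⟩
  obtain ⟨ρ₀', hρ'⟩ := ulim_rep 𝒰 (ρ := ρ') fun γ => by
    obtain ⟨B, hB⟩ := A.rel_bound r C γ
    exact ⟨B, H.mono fun i hi => (hB _ _ _ _ hi).2⟩
  obtain ⟨h, H1⟩ := Filter.Eventually.choice H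
  obtain ⟨D, H2⟩ := Filter.Eventually.choice H1
  obtain ⟨g, H3⟩ := Filter.Eventually.choice H2
  have hC : 1 ≤ C := by
    obtain ⟨i, hi⟩ := H3.exists
    exact hi.1.one_le
  have hC0 : 0 < C := by linarith
  obtain ⟨L, hL⟩ := lip_hg (n := n) r C
  have hh : ∀ a, ∃ F : EC n → Mat r, TendstoUniformlyOn (fun i => h i a) F 𝒰 (ball 0 2) := by
    intro a
    refine ulim_lip 𝒰 (L := L) (M := r * C) (H3.mono fun i hi => ⟨fun x hx => ?_, ?_⟩)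
    · exact ((hi.1.loc a).bd x hx).norm_le hC0
    · exact fun x hx y hy =>
        (hL _ _ _ _ _ hC (hi.1.loc a) (hi.2.2.1.fr a) (hi.2.2.2.2 a) x hx y hy).1
  have hg : ∀ a, ∃ F : EC n → Mat r, TendstoUniformlyOn (fun i => g i a) F 𝒰 (ball 0 2) := by
    intro a
    refine ulim_lip 𝒰 (L := L) (M := C) (H3.mono fun i hi => ⟨fun x hx => ?_, ?_⟩)
    · exact (hi.2.2.2.2 a x hx).1
    · exact fun x hx y hy =>
        (hL _ _ _ _ _ hC (hi.1.loc a) (hi.2.2.1.fr a) (hi.2.2.2.2 a) x hx y hy).2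
  choose h₀ hh using hh
  choose g₀ hg using hg
  have hloc : ∀ a, ∃ D₀, HL (A.α a) C (h₀ a) D₀ ∧
      Frame (ball 0 2) (rotA (pT t₀) (qT t₀) (h₀ a) D₀) (g₀ a) ∧ GB C (g₀ a) := fun a =>
    lim_local (l := (𝒰 : Filter ι)) (D := fun i => D i a)
      ((A.coef a).1.continuousOn.mono (ball_subset_ball (by norm_num))) hC
      (H3.mono fun i hi => ⟨hi.1.loc a, hi.2.2.1.fr a, hi.2.2.2.2 a⟩) ht (hh a) (hg a)
  choose D₀ hD using hloc
  have h02 : (0 : EC n) ∈ ball (0 : EC n) 2 := mem_ball_self (by norm_num)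
  refine ⟨h₀ A.a0 0, ρ₀, ρ₀', ⟨h₀, D₀, g₀, ⟨hC, fun a => (hD a).1, fun a b x hx => ?_⟩, rfl,
    ⟨fun a => (hD a).2.1, fun a b x hx => ?_⟩, ?_, fun a => (hD a).2.2⟩, ?_,
    fun γ => ⟨hρ γ, hρ' γ⟩⟩
  · refine tendsto_nhds_unique ((hh b).tendsto_at hx.2.2)
      ((nlim_gm ((hh a).tendsto_at hx.2.1) (hρ _)).congr' ?_)
    exact H3.mono fun i hi => (hi.1.mc a b x hx).symm
  · refine tendsto_nhds_unique ((hρ _).mul ((hg b).tendsto_at hx.2.2))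
      ((((hg a).tendsto_at hx.2.1).mul (hρ' _)).congr' ?_)
    exact H3.mono fun i hi => (hi.2.2.1.rel a b x hx).symm
  · refine tendsto_nhds_unique ((hg A.a0).tendsto_at h02) (tendsto_const_nhds.congr' ?_)
    exact H3.mono fun i hi => hi.2.2.2.1.symm
  · exact ((hh A.a0).tendsto_at h02).congr' (H3.mono fun i hi => hi.2.1)

end Pool.Agent.PW
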