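import Pool.Agent.P.MP_65ad7c_ag.NLim0
import Pool.Agent.P.MP_65ad7c_ag.TLip
import Pool.Agent.P.MP_65ad7c_ag.TMul

open MeasureTheory Set Filter Topology Metric Matrix
open scoped ComplexOrder ContDiff Matrix.Norms.Frobenius RealInnerProductSpace ENNReal
open Pool.Agent.Lib.Sob

noncomputable section
namespace Pool.Agent.PW

variable {E : Type} [NormedAddCommGroup E] [InnerProductSpace ℝ E] [FiniteDimensional ℝ E]
  [MeasurableSpace E] [BorelSpace E] {r : ℕ} {Γ : Type} [Group Γ]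

/-- weak convergence on compact subsets of the ball -/
def WkC (D : ℕ → E → E →L[ℝ] Mat r) (D₀ : E → E →L[ℝ] Mat r) : Prop :=
  ∀ K, IsCompact K → K ⊆ ball (0 : E) 2 → ∀ w : E → (E →L[ℝ] Mat r) →L[ℝ] ℝ,
    MemLp w 2 (volume.restrict K) →
      Tendsto (fun m => ∫ x in K, w x (D m x)) atTop (𝓝 (∫ x in K, w x (D₀ x)))

theorem nlim1_inv_cont {a : Mat r} (ha : IsUnit a.det) : ContinuousAt (fun b : Mat r => b⁻¹) a := by
  obtain ⟨u, hu⟩ := ha
  have h1 : ContinuousAt Ring.inverse a.det := hu ▸ NormedRing.inverse_continuousAt u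
  exact continuousAt_matrix_inv a h1

omit [InnerProductSpace ℝ E] [FiniteDimensional ℝ E] [MeasurableSpace E] [BorelSpace E] in
theorem nlim1_inv_contOn {U : Set E} {h : E → Mat r} (hc : ContinuousOn h U)
    (hp : ∀ x ∈ U, IsUnit (h x).det) : ContinuousOn (fun x => (h x)⁻¹) U := fun x hx =>
  (nlim1_inv_cont (hp x hx)).comp_continuousWithinAt (hc x hx)

/-- `a ↦ X ↦ a * X e` -/
def nlim1T (R : Type) [NormedRing R] [NormedAlgebra ℝ R] (e : E) :
    R →L[ℝ] (E →L[ℝ] R) →L[ℝ] R :=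
  ((ContinuousLinearMap.compL ℝ (E →L[ℝ] R) R R).flip
    (ContinuousLinearMap.apply ℝ R e)).comp (ContinuousLinearMap.mul ℝ R)

omit [FiniteDimensional ℝ E] [MeasurableSpace E] [BorelSpace E] in
theorem nlim1T_apply {R : Type} [NormedRing R] [NormedAlgebra ℝ R] (e : E) (a : R)
    (X : E →L[ℝ] R) : nlim1T R e a X = a * X e := rfl

omit [NormedAddCommGroup E] [InnerProductSpace ℝ E] [FiniteDimensional ℝ E] [MeasurableSpace E]
  [BorelSpace E] in
theorem nlim1_unif {X Y : Type} [NormedAddCommGroup X] [NormedSpace ℝ X] [NormedAddCommGroup Y]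
    [NormedSpace ℝ Y] {K : Set E} {W : E → X →L[ℝ] Y} {M : ℝ} (hM : ∀ x ∈ K, ‖W x‖ ≤ M)
    {u : ℕ → E → X} {u₀ : E → X} (hu : TendstoUniformlyOn u u₀ atTop K) :
    TendstoUniformlyOn (fun m x => W x (u m x)) (fun x => W x (u₀ x)) atTop K := by
  rw [Metric.tendstoUniformlyOn_iff] at hu ⊢
  intro ε hε
  have hM1 : 0 < |M| + 1 := by positivity
  filter_upwards [hu (ε / (|M| + 1)) (by positivity)] with m hm x hx
  have h1 := hm x hx
  rw [dist_eq_norm] at h1 ⊢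
  rw [← map_sub]
  have h2 := (W x).le_of_opNorm_le ((hM x hx).trans (le_abs_self M)) (u₀ x - u m x)
  rw [lt_div_iff₀ hM1] at h1
  nlinarith [norm_nonneg (u₀ x - u m x), abs_nonneg M]

theorem nlim1_lint {V : Type} [NormedAddCommGroup V] {K : Set E} (hK : IsCompact K)
    {u : ℕ → E → V} {u₀ : E → V} (hu : TendstoUniformlyOn u u₀ atTop K) :
    Tendsto (fun m => ∫⁻ x in K, ‖u m x - u₀ x‖ₑ) atTop (𝓝 0) := by
  rw [ENNReal.tendsto_nhds_zero]
  intro ε hε
  have hv : volume K ≠ ⊤ := hK.measure_lt_top.ne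
  obtain ⟨δ, hδ, hδ'⟩ := ENNReal.exists_nnreal_pos_mul_lt hv hε.ne'
  rw [Metric.tendstoUniformlyOn_iff] at hu
  filter_upwards [hu δ (by exact_mod_cast hδ)] with m hm
  calc ∫⁻ x in K, ‖u m x - u₀ x‖ₑ ≤ ∫⁻ _ in K, (δ : ℝ≥0∞) := by
        refine setLIntegral_mono' hK.measurableSet fun x hx => ?_
        have h1 := hm x hx
        rw [dist_comm, dist_eq_norm] at h1
        rw [← ofReal_norm, ← ENNReal.ofReal_coe_nnreal]
        exact ENNReal.ofReal_le_ofReal h1.le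
    _ = δ * volume K := by simp
    _ ≤ ε := hδ'.le

set_option maxSynthPendingDepth 3 in
theorem nlim1_ws {R κ : Type} [NormedRing R] [NormedAlgebra ℝ R] [FiniteDimensional ℝ R]
    [Fintype κ] {K : Set E} (hK : IsCompact K) {D : ℕ → E → E →L[ℝ] R} {D₀ : E → E →L[ℝ] R}
    {C : ℝ} (hm : ∀ m, MemLp (D m) 2 (volume.restrict K)) (hm₀ : MemLp D₀ 2 (volume.restrict K))
    (hb : ∀ m, ∀ᵐ x, x ∈ K → ‖D m x‖ ≤ C)
    (hweak : ∀ w : E → (E →L[ℝ] R) →L[ℝ] ℝ, MemLp w 2 (volume.restrict K) →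
      Tendsto (fun m => ∫ x in K, w x (D m x)) atTop (𝓝 (∫ x in K, w x (D₀ x))))
    {c : κ → E → ℝ} (hc : ∀ p, ContinuousOn (c p) K) (e : κ → E) {a : ℕ → E → R} {a₀ : E → R}
    (ha : ∀ m, ContinuousOn (a m) K) (ha₀ : ContinuousOn a₀ K)
    (hu : TendstoUniformlyOn a a₀ atTop K) :
    Tendsto (fun m => ∫ x in K, ∑ p, c p x • (a m x * D m x (e p))) atTop
      (𝓝 (∫ x in K, ∑ p, c p x • (a₀ x * D₀ x (e p)))) := by
  let W : E → R →L[ℝ] (E →L[ℝ] R) →L[ℝ] R := fun x => ∑ p, c p x • nlim1T R (e p)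
  have hWa : ∀ (x : E) (b : R) (X : E →L[ℝ] R), W x b X = ∑ p, c p x • (b * X (e p)) := by
    intro x b X
    simp only [W, _root_.sum_apply, _root_.smul_apply, nlim1T_apply]
  have hWc : ContinuousOn W K :=
    continuousOn_finsetSum _ fun p _ => (hc p).smul continuousOn_const
  obtain ⟨M, hM⟩ := hK.exists_bound_of_continuousOn hWc
  have hlim := weak_strong hK hm hm₀ hb hweak (w := fun m x => W x (a m x))
    (w₀ := fun x => W x (a₀ x)) (fun m => hWc.clm_apply (ha m)) (hWc.clm_apply ha₀)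
    (nlim1_unif hM hu)
  simpa only [hWa] using hlim

/-- uniform limits of Lipschitz harmonic metrics -/
theorem hl_limit {α : E → E →L[ℝ] E} (hα : ContinuousOn α (ball 0 2)) {C : ℝ} (hC : 1 ≤ C)
    {h : ℕ → E → Mat r} {D : ℕ → E → E →L[ℝ] Mat r} {h₀ : E → Mat r}
    (H : ∀ m, HL α C (h m) (D m)) (hu : TendstoUniformlyOn h h₀ atTop (ball 0 2)) :
    ∃ D₀, HL α C h₀ D₀ ∧ WkC D D₀ := by
  have hC0 : 0 < C := by linarith
  have hc : ContinuousOn h₀ (ball 0 2) :=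
    hu.continuousOn (Frequently.of_forall fun m => (H m).cont)
  have hbd : ∀ x ∈ ball (0 : E) 2, Bd C (h₀ x) := fun x hx =>
    (isClosed_obst C 1).mem_of_tendsto (hu.tendsto_at hx)
      (Eventually.of_forall fun m => (H m).bd x hx)
  obtain ⟨D₀, hwd, hwk⟩ := wd_weak isOpen_ball (fun m => (H m).wd) (LocLp.of_continuousOn hc)
    (fun K hK hKU => nlim1_lint hK (hu.mono hKU)) (fun K hK hKU => by
      refine ⟨(volume K ^ (2 : ℝ≥0∞).toReal⁻¹).toReal * C, fun m => ?_⟩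
      have h1 : ∀ᵐ x ∂volume.restrict K, ‖D m x‖ ≤ C := by
        rw [ae_restrict_iff' hK.measurableSet]
        filter_upwards [(H m).dbd] with x hx hxK using hx (hKU hxK)
      refine (eLpNorm_le_of_ae_bound h1).trans (le_of_eq ?_)
      rw [ENNReal.ofReal_mul ENNReal.toReal_nonneg, ENNReal.ofReal_toReal, Measure.restrict_apply_univ]
      exact ENNReal.rpow_ne_top_of_nonneg (by positivity) hK.measure_lt_top.ne)
  have hdbd : ∀ᵐ x, x ∈ ball (0 : E) 2 → ‖D₀ x‖ ≤ C := by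
    refine wd_norm_le (by norm_num) isOpen_ball hwd hC0.le fun x hx y hy => ?_
    exact le_of_tendsto' (((hu.tendsto_at hx).sub (hu.tendsto_at hy)).norm) fun m =>
      lipschitz_of_wd (by norm_num) isOpen_ball (convex_ball 0 2) (H m).wd (H m).cont (H m).dbd
        x hx y hy
  refine ⟨D₀, ⟨hc, hbd, hwd, hdbd, fun φ hφ => ?_⟩, hwk⟩
  have hK : IsCompact (tsupport φ) := hφ.2.1
  have hKU : tsupport φ ⊆ ball (0 : E) 2 := hφ.2.2
  have hun : ∀ {a : Mat r}, Bd C a → IsUnit a.det ∧ ‖a⁻¹‖ ≤ r * C := fun ha =>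
    ⟨(Matrix.isUnit_iff_isUnit_det _).1 (ha.posDef hC0).isUnit, ha.norm_inv_le hC0⟩
  have hinv := tendstoUniformlyOn_inv (hu.mono hKU)
    (Eventually.of_forall fun m x hx => hun ((H m).bd x (hKU hx))) fun x hx => hun (hbd x (hKU hx))
  have hlim : Tendsto (fun m => ∫ x in tsupport φ,
      ∑ p, fderiv ℝ φ x (α x (ob E p)) • mc (h m x) (D m x) (ob E p)) atTop
      (𝓝 (∫ x in tsupport φ, ∑ p, fderiv ℝ φ x (α x (ob E p)) • mc (h₀ x) (D₀ x) (ob E p))) :=
    nlim1_ws (R := Mat r) hK (fun m => (H m).wd.2.1 _ hK hKU) (hwd.2.1 _ hK hKU)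
      (fun m => (H m).dbd.mono fun x hx hxK => hx (hKU hxK)) (hwk _ hK hKU)
      (c := fun p x => fderiv ℝ φ x (α x (ob E p)))
      (fun p => ((hφ.1.continuous_fderiv (by simp)).continuousOn).clm_apply
        ((hα.mono hKU).clm_apply continuousOn_const)) (ob E)
      (a := fun m x => (h m x)⁻¹) (a₀ := fun x => (h₀ x)⁻¹)
      (fun m => nlim1_inv_contOn ((H m).cont.mono hKU)
        fun x hx => (hun ((H m).bd x (hKU hx))).1)
      (nlim1_inv_contOn (hc.mono hKU) fun x hx => (hun (hbd x (hKU hx))).1) hinv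
  have hset : ∀ (k : E → Mat r) (B : E → E →L[ℝ] Mat r),
      ∫ x in tsupport φ, ∑ p, fderiv ℝ φ x (α x (ob E p)) • mc (k x) (B x) (ob E p) =
        ∫ x, ∑ p, fderiv ℝ φ x (α x (ob E p)) • mc (k x) (B x) (ob E p) := by
    intro k B
    refine setIntegral_eq_integral_of_forall_compl_eq_zero fun x hx => ?_
    simp [fderiv_of_notMem_tsupport ℝ hx]
  simp only [hset] at hlim
  have h0 : ∀ m, ∫ x, ∑ p, fderiv ℝ φ x (α x (ob E p)) • mc (h m x) (D m x) (ob E p) = 0 :=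
    fun m => (H m).harm φ hφ
  simp only [h0] at hlim
  exact tendsto_nhds_unique hlim tendsto_const_nhds

end Pool.Agent.PW
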