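import Pool.Agent.P.MP_65ad7c_ag.KPre
import Pool.Agent.P.MP_65ad7c_ag.KLin

open MeasureTheory Set Filter Topology Metric Matrix
open scoped ComplexOrder ContDiff Matrix.Norms.Frobenius RealInnerProductSpace ENNReal
open Pool.Agent.Lib.Sob

noncomputable section
namespace Pool.Agent.PW

section resc
variable {n : ℕ}

/-- the affine rescaling `u ↦ z + ε u` -/
def aff (z : EC n) (ε : ℝ) (u : EC n) : EC n := z + (ε : ℂ) • u

theorem aff_hasFDerivAt (z : EC n) (ε : ℝ) (u : EC n) :
    HasFDerivAt (aff z ε) ((ε : ℂ) • ContinuousLinearMap.id ℂ (EC n)) u :=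
  ((hasFDerivAt_id u).const_smul (ε : ℂ)).const_add z

theorem aff_smooth (z : EC n) (ε : ℝ) : ContDiff ℝ ∞ (aff z ε) :=
  contDiff_const.add (contDiff_id.const_smul (ε : ℂ))

theorem aff_inv (z : EC n) {ε : ℝ} (hε : 0 < ε) (u : EC n) :
    ((ε⁻¹ : ℝ) : ℂ) • (aff z ε u - z) = u := by
  rw [aff, add_sub_cancel_left, smul_smul, ← Complex.ofReal_mul, inv_mul_cancel₀ hε.ne',
    Complex.ofReal_one, one_smul]

theorem aff_inv' (z : EC n) {ε : ℝ} (hε : 0 < ε) (w : EC n) :
    aff z ε (((ε⁻¹ : ℝ) : ℂ) • (w - z)) = w := by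
  rw [aff, smul_smul, ← Complex.ofReal_mul, mul_inv_cancel₀ hε.ne', Complex.ofReal_one, one_smul,
    add_sub_cancel]

/-- the rescaling as a homeomorphism -/
def affH (z : EC n) {ε : ℝ} (hε : 0 < ε) : EC n ≃ₜ EC n where
  toFun := fun w => ((ε⁻¹ : ℝ) : ℂ) • (w - z)
  invFun := aff z ε
  left_inv := aff_inv' z hε
  right_inv := aff_inv z hε
  continuous_toFun := by fun_prop
  continuous_invFun := (aff_smooth z ε).continuous

theorem aff_mem (z : EC n) {ε R : ℝ} (hε : 0 < ε) {u : EC n} (hu : u ∈ ball (0 : EC n) R) :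
    aff z ε u ∈ ball z (R * ε) := by
  rw [mem_ball_zero_iff] at hu
  rw [mem_ball_iff_norm, aff, add_sub_cancel_left, norm_smul, Complex.norm_real,
    Real.norm_of_nonneg hε.le, mul_comm]
  exact mul_lt_mul_of_pos_right hu hε

theorem herm_smul (g : Mat n) (c : ℝ) (u v : EC n) :
    herm (((c ^ 2 : ℝ) : ℂ) • g) u v = herm g ((c : ℂ) • u) ((c : ℂ) • v) := by
  simp only [herm, Matrix.smul_apply, smul_eq_mul, PiLp.smul_apply, map_mul, Complex.conj_ofReal]
  refine Finset.sum_congr rfl fun j _ => Finset.sum_congr rfl fun k _ => ?_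
  push_cast
  ring

theorem dz_aff (z : EC n) (ε c : ℝ) {f : EC n → ℂ} {u : EC n} (j : Fin n)
    (hf : DifferentiableAt ℝ f (aff z ε u)) :
    dz j (fun w => (c : ℂ) * f (aff z ε w)) u = c * ε * dz j f (aff z ε u) := by
  have h1 := (hf.hasFDerivAt.comp u ((aff_hasFDerivAt z ε u).restrictScalars ℝ)).const_mul (c : ℂ)
  have h2 : fderiv ℝ (fun w => (c : ℂ) * f (aff z ε w)) u = _ := h1.fderiv
  simp only [dz, h2, _root_.smul_apply, ContinuousLinearMap.comp_apply,
    ContinuousLinearMap.coe_restrictScalars', ContinuousLinearMap.id_apply, Complex.coe_smul,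
    map_smul, smul_eq_mul, Complex.real_smul]
  ring

theorem IsKahlerOn.resc {U : Set (EC n)} {g : EC n → Mat n} (h : IsKahlerOn U g) (hU : IsOpen U)
    (z : EC n) {ε : ℝ} (hε : 0 < ε) (hs : ball z (6 * ε) ⊆ U) :
    IsKahlerOn (ball 0 6) fun u => ((ε ^ 2 : ℝ) : ℂ) • g (aff z ε u) := by
  have hm : ∀ u ∈ ball (0 : EC n) 6, aff z ε u ∈ U := fun u hu => hs (aff_mem z hε hu)
  refine ⟨fun j k => ?_, fun u hu => ?_, fun u hu j k l => ?_⟩
  · exact contDiffOn_const.mul ((h.1 j k).comp (aff_smooth z ε).contDiffOn hm)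
  · exact (h.2.1 _ (hm u hu)).smul (Complex.zero_lt_real.2 (by positivity))
  · have hd : ∀ j k, DifferentiableAt ℝ (fun w => g w j k) (aff z ε u) := fun j k =>
      ((h.1 j k).contDiffAt (hU.mem_nhds (hm u hu))).differentiableAt (by simp)
    have e1 := dz_aff z ε (ε ^ 2) l (hd j k)
    have e2 := dz_aff z ε (ε ^ 2) j (hd l k)
    simp only [Matrix.smul_apply, smul_eq_mul]
    rw [e1, e2, h.2.2 _ (hm u hu)]

variable {X : Type} [TopologicalSpace X]

/-- a chart rescaled to the ball of radius 6 -/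
def resc (φ : OpenPartialHomeomorph X (EC n)) (z : EC n) {ε : ℝ} (hε : 0 < ε) :
    OpenPartialHomeomorph X (EC n) :=
  ((φ.transHomeomorph (affH z hε)).symm.restrOpen (ball 0 6) isOpen_ball).symm

theorem resc_apply (φ : OpenPartialHomeomorph X (EC n)) (z : EC n) {ε : ℝ} (hε : 0 < ε) (p : X) :
    resc φ z hε p = ((ε⁻¹ : ℝ) : ℂ) • (φ p - z) := rfl

theorem resc_symm (φ : OpenPartialHomeomorph X (EC n)) (z : EC n) {ε : ℝ} (hε : 0 < ε)
    (u : EC n) : (resc φ z hε).symm u = φ.symm (aff z ε u) := rfl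

theorem resc_target (φ : OpenPartialHomeomorph X (EC n)) (z : EC n) {ε : ℝ} (hε : 0 < ε)
    (hs : ball z (6 * ε) ⊆ φ.target) : (resc φ z hε).target = ball 0 6 :=
  Set.ext fun _ => ⟨fun h => h.2, fun h => ⟨hs (aff_mem z hε h), h⟩⟩

theorem resc_source (φ : OpenPartialHomeomorph X (EC n)) (z : EC n) {ε : ℝ} (hε : 0 < ε) (p : X) :
    p ∈ (resc φ z hε).source ↔ p ∈ φ.source ∧ resc φ z hε p ∈ ball (0 : EC n) 6 := Iff.rfl

end resc

open scoped Manifold in
theorem chart_trans {n : ℕ} {X : Type} [TopologicalSpace X] [ChartedSpace (EC n) X]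
    [IsManifold 𝓘(ℂ, EC n) ω X] (x y : X) {w : EC n} (hw : w ∈ (chartAt (EC n) x).target)
    (hw' : (chartAt (EC n) x).symm w ∈ (chartAt (EC n) y).source) :
    ContDiffAt ℂ ω (fun w => chartAt (EC n) y ((chartAt (EC n) x).symm w)) w := by
  have h := (contDiffGroupoid ω 𝓘(ℂ, EC n)).compatible (chart_mem_atlas (EC n) x)
    (chart_mem_atlas (EC n) y)
  have h1 := (mem_groupoid_of_pregroupoid.1 h).1
  simp only [contDiffPregroupoid, mfld_simps] at h1
  exact h1.contDiffAt (((chartAt (EC n) x).symm.isOpen_inter_preimage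
    (chartAt (EC n) y).open_source).mem_nhds ⟨hw, hw'⟩)

open scoped Manifold in
/-- SEC 0: the Kaehler atlas of a compact Kaehler manifold. -/
theorem exists_katlas (n : ℕ) (X : Type) [TopologicalSpace X] [T2Space X] [CompactSpace X]
    [ConnectedSpace X] [ChartedSpace (EC n) X] [IsManifold 𝓘(ℂ, EC n) ω X] (hK : IsKahler n X)
    (x₀ : X) : Nonempty (KAtlas n (FundamentalGroup X x₀)) := by
  obtain ⟨g, hg, hinv⟩ := hK
  have := ChartedSpace.locallyPathConnectedSpace (EC n) X
  have : PathConnectedSpace X := .of_locallyPathConnectedSpace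
  have hε : ∀ x : X, ∃ ε : ℝ, 0 < ε ∧
      ball (chartAt (EC n) x x) (6 * ε) ⊆ (chartAt (EC n) x).target := fun x => by
    obtain ⟨r, hr, h⟩ := Metric.isOpen_iff.1 (chartAt (EC n) x).open_target _
      (mem_chart_target (EC n) x)
    exact ⟨r / 6, by positivity, by rwa [mul_div_cancel₀ _ (by norm_num)]⟩
  choose ε hε hs using hε
  let e : X → OpenPartialHomeomorph X (EC n) := fun x =>
    resc (chartAt (EC n) x) (chartAt (EC n) x x) (hε x)
  obtain ⟨t, ht⟩ := isCompact_univ.elim_finite_subcover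
    (fun x => (e x).source ∩ e x ⁻¹' ball 0 1)
    (fun x => (e x).isOpen_inter_preimage isOpen_ball) fun x _ => by
      have h0 : e x x = 0 := by simp [e, resc_apply]
      refine mem_iUnion.2 ⟨x, (resc_source _ _ _ _).2 ⟨mem_chart_source _ x, ?_⟩, ?_⟩
      · change e x x ∈ _
        rw [h0]; exact mem_ball_self (by norm_num)
      · rw [mem_preimage, h0]; exact mem_ball_self one_pos
  have hT : ∀ x y u, u ∈ ball (0 : EC n) 6 → (e x).symm u ∈ (e y).source →
      ContDiffAt ℂ ω (fun u => e y ((e x).symm u)) u ∧ ∀ v, (ε y : ℂ) •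
        fderiv ℂ (fun u => e y ((e x).symm u)) u v =
        fderiv ℂ (fun w => chartAt (EC n) y ((chartAt (EC n) x).symm w))
          (aff (chartAt (EC n) x x) (ε x) u) ((ε x : ℂ) • v) := by
    intro x y u hu hu'
    have h1 := chart_trans x y (hs x (aff_mem _ (hε x) hu)) ((resc_source _ _ _ _).1 hu').1
    have ha : ContDiff ℂ ω (aff (chartAt (EC n) x x) (ε x)) :=
      contDiff_const.add (contDiff_id.const_smul (ε x : ℂ))
    refine ⟨((h1.comp u ha.contDiffAt).sub (contDiffAt_const (c := chartAt (EC n) y y))).const_smul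
      (((ε y)⁻¹ : ℝ) : ℂ), fun v => ?_⟩
    have h2 := (((h1.differentiableAt (by simp)).hasFDerivAt.comp u
      (aff_hasFDerivAt _ (ε x) u)).sub_const (chartAt (EC n) y y)).const_smul
        (((ε y)⁻¹ : ℝ) : ℂ)
    have h3 : fderiv ℂ (fun u => e y ((e x).symm u)) u = _ := h2.fderiv
    rw [h3, _root_.smul_apply, smul_smul, ← Complex.ofReal_mul, mul_inv_cancel₀ (hε y).ne',
      Complex.ofReal_one, one_smul]
    rfl
  let K0 : KCh (EC n) X :=
    { ι := t
      fin := inferInstance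
      e := fun a => e a
      tgt := fun a => resc_target _ _ _ (hs a)
      cover := fun p => by
        obtain ⟨a, ha, hp⟩ := mem_iUnion₂.1 (ht (mem_univ p))
        exact ⟨⟨a, ha⟩, hp⟩
      smooth := fun a b u hu =>
        (((hT a b u hu.1 hu.2).1.of_le le_top).restrict_scalars ℝ).contDiffWithinAt }
  obtain ⟨a0, h0⟩ := K0.cover x₀
  obtain ⟨Q, hQ0, hQ⟩ := K0.exists_Q x₀ a0
  let K : KQ (EC n) x₀ := { K0 with a0 := a0, mem0 := h0, Q := Q, Q0 := hQ0, step := hQ }
  let g' : t → EC n → Mat n := fun a u =>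
    (((ε a) ^ 2 : ℝ) : ℂ) • g a (aff (chartAt (EC n) (a : X) a) (ε a) u)
  have hk : ∀ a, IsKahlerOn (ball 0 6) (g' a) := fun a =>
    (hg a).resc (chartAt (EC n) (a : X)).open_target _ (hε a) (hs a)
  have hgi : ∀ a b : t, ∀ x ∈ K.pre.O a b, ∀ u v, herm (g' a x) u v =
      herm (g' b (K.pre.T a b x)) (fderiv ℂ (K.pre.T a b) x u) (fderiv ℂ (K.pre.T a b) x v) := by
    intro a b x hx u v
    have h1 := (hT a b x hx.1 hx.2).2
    have h2 : aff (chartAt (EC n) (b : X) b) (ε b) (K.pre.T a b x) =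
        chartAt (EC n) (b : X) ((chartAt (EC n) (a : X)).symm
          (aff (chartAt (EC n) (a : X) a) (ε a) x)) := aff_inv' _ (hε b) _
    simp only [g', herm_smul]
    rw [h2]
    erw [h1, h1]
    exact hinv a b _ (hs a (aff_mem _ (hε a) hx.1)) ((resc_source _ _ _ _).1 hx.2).1 _ _
  exact ⟨{
    toPre := K.pre
    α := fun a x => kα (g' a x)
    coef := fun a => kl_coef (hk a)
    α_inv := fun a b x hx v w => by
      have hd : DifferentiableAt ℂ (K.pre.T a b) x :=
        (hT a.1 b.1 x hx.1 hx.2).1.differentiableAt (by simp)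
      rw [Pre.jac, hd.fderiv_restrictScalars ℝ]
      exact kl_inv ((hk a).2.1 x hx.1) _ (hgi a b x hx) v w
    chain := K.chain
    reach := K.reach
    lift := K.lift
    g := g'
    kae := hk
    hol := fun a b x hx =>
      ((hT a.1 b.1 x hx.1 hx.2).1.differentiableAt (by simp)).differentiableWithinAt
    g_inv := hgi
    α_eq := fun _ _ => rfl }⟩

/-- SEC 0: finite generation, from `chain` and `S_mem`. -/
theorem Atlas.fg {E : Type} [NormedAddCommGroup E] [InnerProductSpace ℝ E] [FiniteDimensional ℝ E]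
    {Γ : Type} [Group Γ] (A : Atlas E Γ) : Group.FG Γ := by
  have key : ∀ {a b γ}, A.toPre.Chain a b γ → γ ∈ Subgroup.closure (A.S : Set Γ) := by
    intro a b γ h
    induction h with
    | nil a => exact one_mem _
    | cons a b d x γ hx _ ih =>
      refine mul_mem (Subgroup.subset_closure (A.S_mem a b x hx.1 ?_ ?_)) ih
      · exact (mem_ball_zero_iff.1 hx.2.1).le.trans (by norm_num)
      · exact (mem_ball_zero_iff.1 hx.2.2).le.trans (by norm_num)
  exact ⟨⟨A.S, eq_top_iff.2 fun γ _ => key (A.chain γ)⟩⟩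

/-- SEC 0: in dimension zero the group is trivial. -/
theorem subsingleton_pi1 (X : Type) [TopologicalSpace X] [ConnectedSpace X]
    [ChartedSpace (EC 0) X] (x₀ : X) : Subsingleton (FundamentalGroup X x₀) := by
  have : DiscreteTopology X := ChartedSpace.discreteTopology (EC 0) X
  have : Subsingleton X := PreconnectedSpace.trivial_of_discrete
  refine ⟨fun p q => ?_⟩
  obtain ⟨p⟩ := p
  obtain ⟨q⟩ := q
  have : p = q := Path.ext (funext fun _ => Subsingleton.elim _ _)
  rw [this]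

end Pool.Agent.PW
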