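import Pool.Agent.P.MP_65ad7c_ag.NSys
import Pool.Agent.P.MP_65ad7c_ag.Sec0
import Pool.Agent.P.MP_65ad7c_ag.LMain

open scoped Manifold ContDiff

noncomputable section
namespace Pool.Agent.PW

/-- the rotation system of a compact Kaehler manifold -/
theorem exists_rotSys (n : ℕ) (X : Type) [TopologicalSpace X] [T2Space X] [CompactSpace X]
    [ConnectedSpace X] [ChartedSpace (EC n) X] [IsManifold 𝓘(ℂ, EC n) ω X] (hK : IsKahler n X)
    (x₀ : X) : Nonempty (RotSys (FundamentalGroup X x₀)) := by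
  rcases Nat.eq_zero_or_pos n with rfl | hn
  · have := subsingleton_pi1 X x₀
    exact rotSys_of_subsingleton _
  · obtain ⟨A⟩ := exists_katlas n X hK x₀
    exact A.rotSys hn

/-- BLOCK N: the circle action gives an isotopy from the identity to `s`. -/
theorem exists_flow (n r : ℕ) (X : Type) [TopologicalSpace X] [T2Space X] [CompactSpace X]
    [ConnectedSpace X] [ChartedSpace (EC n) X] [IsManifold 𝓘(ℂ, EC n) ω X] (hK : IsKahler n X)
    (x₀ : X) (G : Subgroup (GL (Fin r) ℂ)) (hG : IsRed G)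
    (P : Ideal (Inv (FundamentalGroup X x₀) G)) (hP : P ∈ minimalPrimes _) :
    ∃ Φ Φ' : C(Comp P × unitInterval, Comp P), (∀ y, Φ (y, 0) = y) ∧
      (∀ y t, Φ' (Φ (y, t), t) = y) ∧ (∀ y t, Φ (Φ' (y, t), t) = y) ∧
      (∀ y, Φ (Φ (y, 1), 1) = y) ∧ ∀ y y' : Comp P, IsS y.1 y'.1 → y' = Φ (y, 1) := by
  obtain ⟨K⟩ := exists_rotSys n X hK x₀
  exact K.exists_flow G hG P hP

end Pool.Agent.PW
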