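import Pool.Agent.P.MP_65ad7c_ag.NPrep0
import Pool.Agent.P.MP_65ad7c_ag.NConj

open MeasureTheory Set Filter Topology Metric Matrix
open scoped ComplexOrder ContDiff Matrix.Norms.Frobenius RealInnerProductSpace ENNReal
open Pool.Agent.Lib.Sob

noncomputable section
namespace Pool.Agent.PW

section aux
variable {E : Type} [NormedAddCommGroup E] [InnerProductSpace ℝ E] [FiniteDimensional ℝ E]
  [MeasurableSpace E] [BorelSpace E] {r s : ℕ} {R : Mat r →* Mat s} {U : Set E}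

theorem nprep_wd (hR : Prep R) (hU : IsOpen U) {u : E → Mat r} {D : E → E →L[ℝ] Mat r}
    (hc : ContinuousOn u U) (h : WD 2 U u D) :
    WD 2 U (fun x => R (u x)) fun x => (fderiv ℝ R (u x)).comp (D x) :=
  wd_chain (by norm_num) hU h isOpen_univ (hR.sm.of_le (by simp)).contDiffOn fun K hK hKU =>
    ⟨u '' K, hK.image_of_continuousOn (hc.mono hKU), subset_univ _,
      Eventually.of_forall fun _ hx => mem_image_of_mem _ hx⟩

theorem nprep_hl (hR : Prep R) {C : ℝ} (hC : 1 ≤ C) : ∃ C' : ℝ, 1 ≤ C' ∧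
    ∀ (α : E → E →L[ℝ] E) (h : E → Mat r) (D : E → E →L[ℝ] Mat r), ContinuousOn α (ball 0 2) →
      HL α C h D → HL α C' (fun x => R (h x)) fun x => (fderiv ℝ R (h x)).comp (D x) := by
  obtain ⟨C₁, hC₁, h1⟩ := hR.bd hC
  obtain ⟨B, hB, h2⟩ := hR.bound (r * C)
  refine ⟨max C₁ (B * C), le_max_of_le_left hC₁, fun α h D hα H => ⟨?_, ?_, ?_, ?_, ?_⟩⟩
  · exact hR.sm.continuous.comp_continuousOn H.cont
  · exact fun x hx => (h1 _ (H.bd x hx)).mono (by linarith) (le_max_left _ _)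
  · exact nprep_wd hR isOpen_ball H.cont H.wd
  · filter_upwards [H.dbd] with x hx hx'
    refine (ContinuousLinearMap.opNorm_comp_le _ _).trans (le_max_of_le_right ?_)
    exact mul_le_mul (h2 _ ((H.bd x hx').norm_le (by linarith))).2 (hx hx') (norm_nonneg _)
      (by linarith)
  · refine (Harm.clm hα (locLp_mc isOpen_ball H.wd (H.lbd hC)) H.harm (fderiv ℝ R 1)).congr
      (Eventually.of_forall fun x hx => ?_)
    exact (hR.mc ((H.bd x hx).posDef (by linarith)) (D x)).symm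

theorem nprep_frame (hR : Prep R) (hU : IsOpen U) {B : E → E →L[ℝ] Mat r} {g : E → Mat r}
    (h : Frame U B g) : Frame U (fun x => (fderiv ℝ R 1).comp (B x)) fun x => R (g x) := by
  refine ⟨hR.sm.continuous.comp_continuousOn h.cont, fun x hx => (map_inv_mat R (h.unit x hx)).1,
    (nprep_wd hR hU h.cont h.wd).congr' (fun _ _ => rfl) fun x _ => ?_⟩
  refine ContinuousLinearMap.ext fun v => ?_
  change fderiv ℝ R (g x) (-(B x v * g x)) = -(fderiv ℝ R 1 (B x v) * R (g x))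
  rw [map_neg, hR.fderiv_right]

end aux

theorem nprep_rotB {n r s : ℕ} (L : Mat r →L[ℝ] Mat s) (p q : ℝ) (X : EC n →L[ℝ] Mat r) :
    L.comp (rotB p q X) = rotB p q (L.comp X) := by
  refine ContinuousLinearMap.ext fun v => ?_
  change L ((p : ℂ) • X v + (q : ℂ) • X (IL n v)) = (p : ℂ) • L (X v) + (q : ℂ) • L (X (IL n v))
  simp only [Complex.coe_smul, map_add, map_smul]

variable {n r : ℕ} {Γ : Type} [Group Γ] {A : KAtlas n Γ} {C C' t t' : ℝ} {p p' : Mat r}
  {ρ ρ' ρ₁ ρ₂ : Γ →* Mat r}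

/-- functoriality -/
theorem KAtlas.Rel.prep {s : ℕ} (R : Mat r →* Mat s) (hR : Prep R) (H : A.Rel C t p ρ ρ') :
    ∃ C', A.Rel C' t (R p) (R.comp ρ) (R.comp ρ') := by
  obtain ⟨h, D, g, hd, hp, hrot, hg, hb⟩ := H
  have hC := hd.one_le
  obtain ⟨C₁, hC₁, h1⟩ := nprep_hl (E := EC n) hR hC
  obtain ⟨B, hB, h2⟩ := hR.bound C
  refine ⟨max C₁ B, fun a x => R (h a x), fun a x => (fderiv ℝ R (h a x)).comp (D a x),
    fun a x => R (g a x), ⟨le_max_of_le_left hC₁, fun a => ?_, fun a b x hx => ?_⟩, ?_,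
    ⟨fun a => ?_, fun a b x hx => ?_⟩, ?_, fun a x hx => ?_⟩
  · exact (h1 _ _ _ ((A.coef a).1.continuousOn.mono (ball_subset_ball (by norm_num)))
      (hd.loc a)).mono hC₁ (le_max_left _ _)
  · change R (h b _) = gm (R (h a x)) (R (ρ _))
    rw [hd.mc a b x hx, hR.gm]
  · exact congrArg R hp
  · refine (nprep_frame hR isOpen_ball (hrot.fr a)).congr (Eventually.of_forall fun x hx => ?_)
    change (fderiv ℝ R 1).comp (rotB _ _ _) = rotB _ _ _
    rw [nprep_rotB, hR.mc (((hd.loc a).bd x hx).posDef (by linarith))]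
  · change R (ρ _) * R (g b _) = R (g a x) * R (ρ' _)
    rw [← map_mul, ← map_mul, hrot.rel a b x hx]
  · change R (g A.a0 0) = 1
    rw [hg, map_one]
  · refine ⟨(h2 _ (hb a x hx).1).1.trans (le_max_right _ _), ?_⟩
    rw [(map_inv_mat R ((hrot.fr a).unit x hx)).2]
    exact (h2 _ (hb a x hx).2).1.trans (le_max_right _ _)

end Pool.Agent.PW
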