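import Pool.Agent.P.MP_65ad7c_ag.NSS0
import Pool.Agent.P.MP_65ad7c_ag.NGI
import Pool.Agent.P.MP_65ad7c_ag.NCon

open MeasureTheory Set Filter Topology Metric Matrix
open scoped ComplexOrder ContDiff Matrix.Norms.Frobenius RealInnerProductSpace ENNReal
open Pool.Agent.Lib.Sob

noncomputable section
namespace Pool.Agent.PW

section
variable {E : Type} [NormedAddCommGroup E] [InnerProductSpace ℝ E] [FiniteDimensional ℝ E]
  [MeasurableSpace E] [BorelSpace E] {r : ℕ} {Γ : Type} [Group Γ]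
  {A : Atlas E Γ} {ρ : Γ →* Mat r} {C C' : ℝ} {h h' ζ : A.ι → E → Mat r}
  {D D' Dζ : A.ι → E → E →L[ℝ] Mat r}

theorem nss_cont_inv {M : Mat r} (hM : IsUnit M.det) :
    ContinuousAt (fun X : Mat r => X⁻¹) M := by
  obtain ⟨v, hv⟩ := hM
  exact continuousAt_matrix_inv M (hv ▸ NormedRing.inverse_continuousAt v)

theorem HL.wd_oP {α : E → E →L[ℝ] E} {u : E → Mat r} {W : E → E →L[ℝ] Mat r} (hC : 1 ≤ C)
    (H : HL α C u W) {e : Mat r} (he : eᴴ = e) (hee : e * e = e) :
    ContinuousOn (fun x => oP e (u x)) (ball 0 2) ∧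
      WD 2 (ball 0 2) (fun x => oP e (u x)) fun x => doP e (u x) (W x) := by
  have hC0 : 0 < C := lt_of_lt_of_le one_pos hC
  have hb : ∀ x ∈ ball (0 : E) 2, Bd C (oM e (u x)) := fun x hx => oM_bd he hee hC (H.bd x hx)
  have hdet : ∀ x ∈ ball (0 : E) 2, IsUnit (oM e (u x)).det := fun x hx =>
    (Matrix.isUnit_iff_isUnit_det _).1 ((hb x hx).posDef hC0).isUnit
  have c1 : ContinuousOn (fun x => oM e (u x)) (ball 0 2) :=
    ((continuousOn_const.mul H.cont).mul continuousOn_const).add continuousOn_const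
  have c2 : ContinuousOn (fun x => (oM e (u x))⁻¹) (ball 0 2) := fun x hx =>
    (nss_cont_inv (hdet x hx)).comp_continuousWithinAt (f := fun x => oM e (u x)) (c1 x hx)
  have c3 : ContinuousOn (fun x => e * u x) (ball 0 2) := continuousOn_const.mul H.cont
  refine ⟨c2.mul c3, ?_⟩
  have w1 : WD 2 (ball 0 2) (fun x => oM e (u x)) fun x => lmul e (rmul (W x) e) := by
    have w0 := (H.wd.clm (by norm_num) ((ContinuousLinearMap.mul ℝ (Mat r) e).comp
      ((ContinuousLinearMap.mul ℝ (Mat r)).flip e))).add_const (by norm_num) (1 - e)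
    refine w0.congr' (fun x _ => ?_) fun x _ => rfl
    simp [oM, Matrix.mul_assoc]
  have w2 := wd_inv isOpen_ball w1 fun K _ hK => ⟨r * C, fun x hx =>
    ⟨hdet x (hK hx), (hb x (hK hx)).norm_le hC0, (hb x (hK hx)).norm_inv_le hC0⟩⟩
  have w3 : WD 2 (ball 0 2) (fun x => e * u x) fun x => lmul e (W x) :=
    H.wd.clm (by norm_num) (ContinuousLinearMap.mul ℝ (Mat r) e)
  have w4 := wd_mul isOpen_ball w2 w3 (LB.of_continuousOn c2) (LB.of_continuousOn c3)
  exact w4.congr' (fun x _ => rfl) fun x hx => doP_eq he hee ((H.bd x hx).posDef hC0) (W x)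

/-- invariant subspaces have invariant complements -/
theorem Atlas.HD.proj (H : A.HD ρ C h D) {e : Mat r} (he : eᴴ = e) (hee : e * e = e)
    (hi : ∀ γ, e * ρ γ * e = ρ γ * e) : Cm ρ (oP e (h A.a0 0)) := by
  have hC0 : 0 < C := lt_of_lt_of_le one_pos H.one_le
  have h26 : ball (0 : E) 2 ⊆ ball 0 6 := ball_subset_ball (by norm_num)
  have hp : ∀ a, ∀ x ∈ ball (0 : E) 2, (h a x).PosDef := fun a x hx =>
    ((H.loc a).bd x hx).posDef hC0
  have hw := fun a => (H.loc a).wd_oP H.one_le he hee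
  have hs : A.Sec ρ fun a x => oP e (h a x) := fun a b x hx => by
    have h1 := oP_gm he hee (hp a x hx.2.1) (rep_mul_inv ρ (A.c a b x)) (hi _) (hi _)
    rw [← H.mc a b x hx] at h1
    exact h1
  have he' : ∀ a, ∀ᵐ x, x ∈ ball (0 : E) 2 →
      pair (A.α a x) (PW.mc (h a x) (D a x)) (doP e (h a x) (D a x))
        = npair (A.α a x) (h a x) (h a x) (doP e (h a x) (D a x)) := fun a => by
    filter_upwards [wd_herm (by norm_num) isOpen_ball (H.loc a).wd
      fun x hx => (hp a x hx).isHermitian] with x hx hx2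
    exact pair_doP he hee (hp a x hx2) (hx hx2) ((A.coef a).2 x (h26 hx2)).1
  have hz := A.toPre.ae_zero_of_pou
    (F := fun a x => pair (A.α a x) (PW.mc (h a x) (D a x)) (doP e (h a x) (D a x)))
    (fun a => locLp_pair ((A.coef a).1.continuousOn.mono h26)
      (locLp_mc isOpen_ball (H.loc a).wd ((H.loc a).lbd H.one_le)) (hw a).2.2.1)
    (fun a => by
      filter_upwards [he' a] with x hx hx2
      rw [hx hx2]
      refine npair_nonneg (hp a x hx2) (hp a x hx2) ((A.coef a).2 x (h26 hx2)).1 (fun v => ?_) _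
      by_cases hv : v = 0
      · simp [hv]
      · exact (((A.coef a).2 x (h26 hx2)).2 v hv).le)
    (fun χ hχ => H.glob hχ (fun a => (hw a).2) (fun a => LB.of_continuousOn (hw a).1) hs)
  refine Atlas.cm_of_const hs fun a => const_of_wd (hw a).2 (hw a).1 ?_
  filter_upwards [he' a, hz a] with x hx hx' hx2
  exact npair_eq_zero (hp a x hx2) (hp a x hx2) ((A.coef a).2 x (h26 hx2)).1
    ((A.coef a).2 x (h26 hx2)).2 ((hx hx2).symm.trans (hx' hx2))

end

end Pool.Agent.PW
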