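import Pool.Agent.P.MP_65ad7c_ag.NAna
import Pool.Agent.P.MP_65ad7c_ag.ANf
import Pool.Agent.P.MP_65ad7c_ag.ABurn

open MeasureTheory Set Filter Topology Metric Matrix
open scoped ComplexOrder ContDiff Matrix.Norms.Frobenius RealInnerProductSpace ENNReal
open Pool.Agent.Lib.Sob

noncomputable section
namespace Pool.Agent.PW

variable {E : Type} [NormedAddCommGroup E] [InnerProductSpace ℝ E] [FiniteDimensional ℝ E]
  {r : ℕ} {e h : Mat r}

/-- the compression of `h` to the range of `e`, extended by the identity -/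
def oM (e h : Mat r) : Mat r := e * h * e + (1 - e)

/-- the `h`-orthogonal projection onto the range of `e` -/
def oP (e h : Mat r) : Mat r := (oM e h)⁻¹ * (e * h)

/-- its derivative -/
def doP (e h : Mat r) (D : E →L[ℝ] Mat r) : E →L[ℝ] Mat r :=
  lmul (oP e h) (rmul (mc h D) (1 - oP e h))

theorem oM_bd (he : eᴴ = e) (hee : e * e = e) {C : ℝ} (hC : 1 ≤ C) (hh : Bd C h) :
    Bd C (oM e h) := by
  have hC0 : 0 < C := lt_of_lt_of_le one_pos hC
  have hq : (1 - e)ᴴ * (1 - e) = 1 - e := by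
    rw [conjTranspose_sub, conjTranspose_one, he, Matrix.mul_sub, Matrix.mul_one, Matrix.sub_mul,
      Matrix.one_mul, hee, sub_self, sub_zero]
  have hpsd : (1 - e : Mat r).PosSemidef := by
    rw [← hq]; exact posSemidef_conjTranspose_mul_self _
  have hi : (0 : ℝ) ≤ 1 - C⁻¹ := sub_nonneg.2 (inv_le_one_of_one_le₀ hC)
  have hj : (0 : ℝ) ≤ C - 1 := sub_nonneg.2 hC
  constructor
  · have h1 := (hh.1.conjTranspose_mul_mul_same e).add (hpsd.smul hi)
    have e1 : oM e h - C⁻¹ • (1 : Mat r) =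
        eᴴ * (h - C⁻¹ • (1 : Mat r)) * e + (1 - C⁻¹) • (1 - e) := by
      rw [he, oM, Matrix.mul_sub, Matrix.sub_mul, Matrix.mul_smul, Matrix.mul_one,
        Matrix.smul_mul, hee]
      module
    rw [e1]; exact h1
  · have h1 := (hh.2.conjTranspose_mul_mul_same e).add (hpsd.smul hj)
    have e1 : C • (1 : Mat r) - oM e h =
        eᴴ * (C • (1 : Mat r) - h) * e + (C - 1) • (1 - e) := by
      rw [he, oM, Matrix.mul_sub, Matrix.sub_mul, Matrix.mul_smul, Matrix.mul_one,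
        Matrix.smul_mul, hee]
      module
    rw [e1]; exact h1

theorem oM_posDef (he : eᴴ = e) (hee : e * e = e) (hh : h.PosDef) : (oM e h).PosDef := by
  have h1 : (1 : ℝ) ≤ 1 + ‖h‖ + ‖h⁻¹‖ := by
    have := norm_nonneg h
    have := norm_nonneg h⁻¹
    linarith
  have h0 : (0 : ℝ) < 1 + ‖h‖ + ‖h⁻¹‖ := lt_of_lt_of_le one_pos h1
  have hb : Bd (1 + ‖h‖ + ‖h⁻¹‖) h := bd_of_norm h0 hh
    (by have := norm_nonneg h⁻¹; linarith) (by have := norm_nonneg h; linarith)
  exact (oM_bd he hee h1 hb).posDef h0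

theorem nss0_unit {P : Mat r} (hP : P.PosDef) : IsUnit P.det :=
  (Matrix.isUnit_iff_isUnit_det P).1 hP.isUnit

theorem nss0_Me (hee : e * e = e) : oM e h * e = e * h * e := by
  rw [oM, Matrix.add_mul, Matrix.sub_mul, Matrix.one_mul, hee, sub_self, add_zero,
    Matrix.mul_assoc (e * h), hee]

theorem nss0_eM (hee : e * e = e) : e * oM e h = e * h * e := by
  rw [oM, Matrix.mul_add, Matrix.mul_sub, Matrix.mul_one, hee, sub_self, add_zero,
    ← Matrix.mul_assoc, ← Matrix.mul_assoc, hee]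

theorem nss0_comm (he : eᴴ = e) (hee : e * e = e) (hh : h.PosDef) :
    (oM e h)⁻¹ * e = e * (oM e h)⁻¹ := by
  have hu := nss0_unit (oM_posDef he hee hh)
  calc (oM e h)⁻¹ * e = (oM e h)⁻¹ * e * (oM e h * (oM e h)⁻¹) := by
        rw [Matrix.mul_nonsing_inv _ hu, Matrix.mul_one]
    _ = (oM e h)⁻¹ * (e * oM e h) * (oM e h)⁻¹ := by simp only [Matrix.mul_assoc]
    _ = (oM e h)⁻¹ * (oM e h * e) * (oM e h)⁻¹ := by rw [nss0_eM hee, nss0_Me hee]
    _ = ((oM e h)⁻¹ * oM e h) * e * (oM e h)⁻¹ := by simp only [Matrix.mul_assoc]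
    _ = _ := by rw [Matrix.nonsing_inv_mul _ hu, Matrix.one_mul]

theorem oP_spec (he : eᴴ = e) (hee : e * e = e) (hh : h.PosDef) :
    oP e h * e = e ∧ e * oP e h = oP e h ∧ (oP e h)ᴴ * h = h * oP e h := by
  have hM := oM_posDef he hee hh
  have hu := nss0_unit hM
  have hc := nss0_comm he hee hh
  refine ⟨?_, ?_, ?_⟩
  · rw [oP, Matrix.mul_assoc, ← nss0_Me hee, ← Matrix.mul_assoc, Matrix.nonsing_inv_mul _ hu,
      Matrix.one_mul]
  · rw [oP, ← Matrix.mul_assoc, ← hc, Matrix.mul_assoc, ← Matrix.mul_assoc e, hee]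
  · have hMi : ((oM e h)⁻¹)ᴴ = (oM e h)⁻¹ := hM.inv.isHermitian
    have hhh : hᴴ = h := hh.isHermitian
    rw [oP, conjTranspose_mul, conjTranspose_mul, hMi, he, hhh]
    calc h * e * (oM e h)⁻¹ * h = h * (e * (oM e h)⁻¹) * h := by simp only [Matrix.mul_assoc]
      _ = h * ((oM e h)⁻¹ * e) * h := by rw [hc]
      _ = _ := by simp only [Matrix.mul_assoc]

/-- the three properties characterise the projection -/
theorem oP_unique (he : eᴴ = e) (hee : e * e = e) (hh : h.PosDef) {P : Mat r} (h1 : P * e = e)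
    (h2 : e * P = P) (h3 : Pᴴ * h = h * P) : P = oP e h := by
  have hu := nss0_unit (oM_posDef he hee hh)
  have hMP : oM e h * P = e * h := by
    calc oM e h * P = e * (h * (e * P)) + (P - e * P) := by
          rw [oM, Matrix.add_mul, Matrix.sub_mul, Matrix.one_mul]
          simp only [Matrix.mul_assoc]
      _ = e * (Pᴴ * h) := by rw [h2, sub_self, add_zero, h3]
      _ = (P * e)ᴴ * h := by rw [conjTranspose_mul, he, Matrix.mul_assoc]
      _ = e * h := by rw [h1, he]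
  rw [oP, ← hMP, ← Matrix.mul_assoc, Matrix.nonsing_inv_mul _ hu, Matrix.one_mul]

theorem oP_gm (he : eᴴ = e) (hee : e * e = e) (hh : h.PosDef) {τ τ' : Mat r} (hτ : τ * τ' = 1)
    (h1 : e * τ * e = τ * e) (h2 : e * τ' * e = τ' * e) :
    oP e h * τ = τ * oP e (gm h τ) := by
  have hτ' : τ' * τ = 1 := mul_eq_one_comm.1 hτ
  obtain ⟨p1, p2, p3⟩ := oP_spec he hee hh
  have hq : τ' * oP e h * τ = oP e (gm h τ) := by
    refine oP_unique he hee (gm_posDef hh hτ) ?_ ?_ ?_
    · calc τ' * oP e h * τ * e = τ' * oP e h * (τ * e) := by simp only [Matrix.mul_assoc]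
        _ = τ' * oP e h * (e * τ * e) := by rw [h1]
        _ = τ' * ((oP e h * e) * τ * e) := by simp only [Matrix.mul_assoc]
        _ = τ' * (τ * e) := by rw [p1, h1]
        _ = e := by rw [← Matrix.mul_assoc, hτ', Matrix.one_mul]
    · calc e * (τ' * oP e h * τ) = e * (τ' * (e * oP e h) * τ) := by rw [p2]
        _ = (e * τ' * e) * oP e h * τ := by simp only [Matrix.mul_assoc]
        _ = τ' * (e * oP e h) * τ := by rw [h2]; simp only [Matrix.mul_assoc]
        _ = _ := by rw [p2]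
    · have ha : τ'ᴴ * τᴴ = 1 := by rw [← conjTranspose_mul, hτ, conjTranspose_one]
      calc (τ' * oP e h * τ)ᴴ * gm h τ = τᴴ * ((oP e h)ᴴ * ((τ'ᴴ * τᴴ) * h)) * τ := by
            simp only [gm, conjTranspose_mul, Matrix.mul_assoc]
        _ = τᴴ * (h * oP e h) * τ := by rw [ha, Matrix.one_mul, p3]
        _ = τᴴ * h * (τ * τ') * oP e h * τ := by
            rw [hτ]; simp only [Matrix.mul_one, Matrix.mul_assoc]
        _ = gm h τ * (τ' * oP e h * τ) := by simp only [gm, Matrix.mul_assoc]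
  rw [← hq, ← Matrix.mul_assoc, ← Matrix.mul_assoc, hτ, Matrix.one_mul]

omit [FiniteDimensional ℝ E] in
/-- the product rule gives `doP` -/
theorem doP_eq (he : eᴴ = e) (hee : e * e = e) (hh : h.PosDef) (D : E →L[ℝ] Mat r) :
    rmul (-lmul (oM e h)⁻¹ (rmul (lmul e (rmul D e)) (oM e h)⁻¹)) (e * h) +
      lmul (oM e h)⁻¹ (lmul e D) = doP e h D := by
  obtain ⟨-, p2, -⟩ := oP_spec he hee hh
  have hhu := nss0_unit hh
  ext1 v
  simp only [doP, mc, _root_.add_apply, rmul_apply, lmul_apply,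
    _root_.neg_apply]
  have e1 : oP e h * (h⁻¹ * D v * (1 - oP e h)) = (oM e h)⁻¹ * (e * D v) * (1 - oP e h) := by
    calc oP e h * (h⁻¹ * D v * (1 - oP e h))
        = (oM e h)⁻¹ * (e * ((h * h⁻¹) * D v)) * (1 - oP e h) := by
          conv_lhs => rw [oP]
          simp only [Matrix.mul_assoc]
          rfl
      _ = _ := by rw [Matrix.mul_nonsing_inv _ hhu, Matrix.one_mul]
  have e2 : (oM e h)⁻¹ * (e * (D v * e) * (oM e h)⁻¹) * (e * h) =
      (oM e h)⁻¹ * (e * D v) * oP e h := by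
    conv_rhs => rw [← p2, oP]
    simp only [Matrix.mul_assoc]
  rw [e1, Matrix.neg_mul, e2, Matrix.mul_sub, Matrix.mul_one]
  abel

/-- the second fundamental form is a square -/
theorem pair_doP (he : eᴴ = e) (hee : e * e = e) (hh : h.PosDef) {D : E →L[ℝ] Mat r}
    (hD : HermF D) {α : E →L[ℝ] E} (hα : ∀ v w, ⟪α v, w⟫ = ⟪v, α w⟫) :
    pair α (mc h D) (doP e h D) = npair α h h (doP e h D) := by
  obtain ⟨p1, p2, p3⟩ := oP_spec he hee hh
  have hhu := nss0_unit hh
  have hhi : (h⁻¹)ᴴ = h⁻¹ := hh.inv.isHermitian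
  have hPP : oP e h * oP e h = oP e h := by
    calc oP e h * oP e h = oP e h * (e * oP e h) := by rw [p2]
      _ = (oP e h * e) * oP e h := by rw [Matrix.mul_assoc]
      _ = _ := by rw [p1, p2]
  have hQQ : (1 - oP e h) * (1 - oP e h) = 1 - oP e h := by
    rw [Matrix.mul_sub, Matrix.mul_one, Matrix.sub_mul, Matrix.one_mul, hPP, sub_self, sub_zero]
  have hQ : (1 - oP e h)ᴴ * h = h * (1 - oP e h) := by
    rw [conjTranspose_sub, conjTranspose_one, Matrix.sub_mul, Matrix.mul_sub, p3, Matrix.one_mul,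
      Matrix.mul_one]
  have hA : ∀ w, (h⁻¹ * D w)ᴴ * h = h * (h⁻¹ * D w) := by
    intro w
    rw [conjTranspose_mul, hhi, hD w, Matrix.mul_assoc, Matrix.nonsing_inv_mul _ hhu,
      ← Matrix.mul_assoc, Matrix.mul_nonsing_inv _ hhu, Matrix.mul_one, Matrix.one_mul]
  have hY : ∀ w, h⁻¹ * ((oP e h * (h⁻¹ * D w * (1 - oP e h)))ᴴ * h) =
      (1 - oP e h) * (h⁻¹ * D w) * oP e h := by
    intro w
    generalize hAw : h⁻¹ * D w = Aw
    have hA' : Awᴴ * h = h * Aw := by rw [← hAw]; exact hA w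
    calc h⁻¹ * ((oP e h * (Aw * (1 - oP e h)))ᴴ * h)
        = h⁻¹ * ((1 - oP e h)ᴴ * (Awᴴ * ((oP e h)ᴴ * h))) := by
          rw [conjTranspose_mul, conjTranspose_mul]; simp only [Matrix.mul_assoc]
      _ = h⁻¹ * ((1 - oP e h)ᴴ * ((Awᴴ * h) * oP e h)) := by
          rw [p3]; simp only [Matrix.mul_assoc]
      _ = h⁻¹ * (((1 - oP e h)ᴴ * h) * (Aw * oP e h)) := by
          rw [hA']; simp only [Matrix.mul_assoc]
      _ = (h⁻¹ * h) * ((1 - oP e h) * Aw * oP e h) := by
          rw [hQ]; simp only [Matrix.mul_assoc]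
      _ = _ := by rw [Matrix.nonsing_inv_mul _ hhu, Matrix.one_mul]
  rw [pair_comm hα]
  unfold pair npair nf
  refine Finset.sum_congr rfl fun p _ => ?_
  simp only [doP, mc, rmul_apply, lmul_apply]
  congr 1
  rw [Matrix.mul_assoc _ _ h, Matrix.mul_assoc _ h⁻¹, hY]
  generalize h⁻¹ * D (ob E p) = X
  generalize h⁻¹ * D (α (ob E p)) = Y
  generalize hQ' : 1 - oP e h = Q at hQQ ⊢
  calc (oP e h * (X * Q) * Y).trace = (oP e h * (oP e h * (X * (Q * Q)) * Y)).trace := by
        rw [hQQ]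
        conv_lhs => rw [← hPP]
        simp only [Matrix.mul_assoc]
    _ = ((oP e h * (X * (Q * Q)) * Y) * oP e h).trace := Matrix.trace_mul_comm _ _
    _ = _ := by simp only [Matrix.mul_assoc]

end Pool.Agent.PW
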