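import Pool.Agent.P.MP_65ad7c_ag.ZBase
import Pool.Agent.P.MP_65ad7c_ag.ABurn
import Pool.Agent.P.MP_65ad7c_ag.GRep

open MeasureTheory Set Filter Topology Metric Matrix
open scoped ComplexOrder ContDiff Matrix.Norms.Frobenius RealInnerProductSpace ENNReal
open Pool.Agent.Lib.Sob

noncomputable section
namespace Pool.Agent.PW

variable {Γ : Type} [Group Γ] {r : ℕ}

/-- Burnside: a representation whose image does not span has an invariant subspace -/
theorem exists_inv_of_not_irr {ρ : Γ →* Mat r} (h : ¬Irr ρ) :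
    ∃ W : Submodule ℂ (Fin r → ℂ), W ≠ ⊥ ∧ W ≠ ⊤ ∧ ∀ γ, ∀ v ∈ W, ρ γ *ᵥ v ∈ W := by
  rcases Nat.eq_zero_or_pos r with rfl | hr
  · exact absurd (Subsingleton.elim _ _) h
  by_contra! hW
  have : Nonempty (Fin r) := ⟨⟨0, hr⟩⟩
  let e : Mat r ≃ₐ[ℂ] Module.End ℂ (Fin r → ℂ) := Matrix.toLinAlgEquiv'
  let R := (Algebra.adjoin ℂ (range ρ)).map e.toAlgHom
  have : IsSimpleModule R (Fin r → ℂ) := by
    refine { exists_pair_ne := exists_pair_ne _, eq_bot_or_eq_top := fun U => ?_ }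
    by_contra! hU
    obtain ⟨γ, x, hx, hγ⟩ := hW (U.restrictScalars ℂ) (by simpa using hU.1) (by simpa using hU.2)
    exact hγ (U.smul_mem (⟨e (ρ γ), _, Algebra.subset_adjoin ⟨γ, rfl⟩, rfl⟩ : R) hx)
  refine h (eq_top_iff.2 fun f _ => ?_)
  obtain ⟨⟨_, x, h3, rfl⟩, hx⟩ := G.burnside (R := R) (e f)
  obtain rfl : x = f := e.injective hx
  have h4 : x ∈ Subalgebra.toSubmodule (Algebra.adjoin ℂ (range ρ)) := h3
  rwa [Algebra.adjoin_eq_span, ← MonoidHom.coe_mrange, Submonoid.closure_eq] at h4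

lemma zalg_sq {s t : ℕ} (X : Matrix (Fin s) (Fin t) ℂ) : ‖X‖ ^ 2 = (X * Xᴴ).trace.re := by
  rw [Matrix.frobenius_norm_def, ← Real.sqrt_eq_rpow, Real.sq_sqrt (by positivity)]
  simp [Matrix.trace, Matrix.mul_apply, Complex.mul_conj, Complex.normSq_eq_norm_sq,
    -Complex.ofReal_pow]

lemma zalg_le {s t k : ℕ} {a : Matrix (Fin r) (Fin s) ℂ} {b : Matrix (Fin r) (Fin t) ℂ}
    (h : a * aᴴ + b * bᴴ = 1) (X : Matrix (Fin k) (Fin r) ℂ) : ‖X * a‖ ≤ ‖X‖ := by
  have e : X * Xᴴ = X * a * (X * a)ᴴ + X * b * (X * b)ᴴ := by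
    have := congrArg (fun Y => X * Y * Xᴴ) h
    simpa only [Matrix.mul_add, Matrix.add_mul, Matrix.mul_one, conjTranspose_mul,
      Matrix.mul_assoc] using this.symm
  refine abs_le_of_sq_le_sq' ?_ (norm_nonneg _) |>.2
  rw [zalg_sq X, e, trace_add, Complex.add_re, ← zalg_sq, ← zalg_sq]
  linarith [sq_nonneg ‖X * b‖]

lemma zalg_le' {s t : ℕ} {a : Matrix (Fin r) (Fin s) ℂ} {b : Matrix (Fin r) (Fin t) ℂ}
    (h : a * aᴴ + b * bᴴ = 1) (X : Mat r) : ‖aᴴ * X * a‖ ≤ ‖X‖ := by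
  refine (zalg_le h _).trans ?_
  have := zalg_le h Xᴴ
  rwa [← frobenius_norm_conjTranspose, conjTranspose_mul, conjTranspose_conjTranspose,
    frobenius_norm_conjTranspose] at this

lemma SSimple.zalg_sub {s : ℕ} {ρ : Γ →* Mat r} {ρ₁ : Γ →* Mat s} (hs : SSimple ρ)
    {i : Matrix (Fin r) (Fin s) ℂ} {p : Matrix (Fin s) (Fin r) ℂ} (hp : p * i = 1)
    (h : ∀ γ, ρ γ * i = i * ρ₁ γ) : SSimple ρ₁ := fun W hW => by
  obtain ⟨W', h1, h2⟩ := hs (W.map i.mulVecLin) (by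
    rintro γ _ ⟨v, hv, rfl⟩
    exact ⟨_, hW γ v hv, by simp [h]⟩)
  refine ⟨W'.comap i.mulVecLin, fun γ v hv => ?_, ?_, ?_⟩
  · have := h1 γ _ hv
    simpa [h] using this
  · refine Submodule.disjoint_def.2 fun x hx hx' => ?_
    have := congrArg (p *ᵥ ·) (Submodule.disjoint_def.1 h2.1 _ ⟨x, hx, rfl⟩ hx')
    simpa [hp] using this
  · refine codisjoint_iff.2 (eq_top_iff.2 fun x _ => ?_)
    obtain ⟨_, ⟨w, hw, rfl⟩, w', hw', e⟩ := Submodule.mem_sup.1
      (h2.2.eq_top.ge (Submodule.mem_top (x := i.mulVecLin x)))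
    refine Submodule.mem_sup.2 ⟨w, hw, x - w, ?_, by simp⟩
    rwa [Submodule.mem_comap, map_sub, ← e, add_sub_cancel_left]

lemma zalg_frame (P : Mat r) (hP : P * P = P) :
    ∃ (s t : ℕ) (_ : Fin s ⊕ Fin t ≃ Fin r) (a : Matrix (Fin r) (Fin s) ℂ)
      (b : Matrix (Fin r) (Fin t) ℂ), aᴴ * a = 1 ∧ bᴴ * b = 1 ∧ bᴴ * a = 0 ∧
        a * aᴴ + b * bᴴ = 1 ∧ P * a = a ∧ bᴴ * P = 0 := by
  let W : Submodule ℂ (EC r) := LinearMap.range (Matrix.toEuclideanLin P)
  let α := stdOrthonormalBasis ℂ W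
  let β := stdOrthonormalBasis ℂ Wᗮ
  let a : Matrix (Fin r) _ ℂ := Matrix.of fun i j => (α j : EC r) i
  let b : Matrix (Fin r) _ ℂ := Matrix.of fun i j => (β j : EC r) i
  have key : ∀ {s t : ℕ} (x : Fin s → EC r) (y : Fin t → EC r) (i j),
      ((Matrix.of fun i j => x j i)ᴴ * (Matrix.of fun i j => y j i)) i j = inner ℂ (x i) (y j) :=
    fun x y i j => by simp [Matrix.mul_apply, PiLp.inner_apply, mul_comm]
  have e : Fin (Module.finrank ℂ W) ⊕ Fin (Module.finrank ℂ Wᗮ) ≃ Fin r :=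
    finSumFinEquiv.trans (finCongr (by simpa using W.finrank_add_finrank_orthogonal))
  have h1 : aᴴ * a = 1 := by
    ext i j; rw [key, one_apply]; exact orthonormal_iff_ite.1 α.orthonormal i j
  have h2 : bᴴ * b = 1 := by
    ext i j; rw [key, one_apply]; exact orthonormal_iff_ite.1 β.orthonormal i j
  have h3 : bᴴ * a = 0 := by
    ext i j; rw [key]; exact Submodule.inner_left_of_mem_orthogonal (α j).2 (β i).2
  have h4 : aᴴ * b = 0 := by simpa using congrArg conjTranspose h3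
  refine ⟨_, _, e, a, b, h1, h2, h3, ?_, ?_, ?_⟩
  · rw [← fromCols_mul_fromRows, fromCols_mul_fromRows_eq_one_comm e.symm, fromRows_mul_fromCols,
      h1, h2, h3, h4, fromBlocks_one]
  · ext i j
    obtain ⟨v, hv⟩ := (α j).2
    have : (P * a) i j = (P *ᵥ (α j : EC r)) i := rfl
    rw [this]
    simp only [a, of_apply, ← hv]
    simp [hP]
  · ext i j
    refine Eq.trans ?_ ((key (fun j => (β j : EC r))
      (fun j => Matrix.toEuclideanLin P (EuclideanSpace.single j 1)) i j).trans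
        (Submodule.inner_left_of_mem_orthogonal (K := W) ⟨_, rfl⟩ (β i).2))
    simp [Matrix.mul_apply, b]

/-- a semisimple reducible representation is conjugate to a direct sum of its diagonal blocks in
a unitary basis -/
theorem SSimple.split {ρ : Γ →* Mat r} (hs : SSimple ρ) (h : ¬Irr ρ) :
    ∃ (s t : ℕ) (e : Fin s ⊕ Fin t ≃ Fin r) (ρ₁ : Γ →* Mat s) (ρ₂ : Γ →* Mat t) (ρ' : Γ →* Mat r)
      (u u' : Mat r), 0 < s ∧ 0 < t ∧ SSimple ρ₁ ∧ SSimple ρ₂ ∧ (∀ γ, ‖ρ₁ γ‖ ≤ ‖ρ γ‖) ∧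
      (∀ γ, ‖ρ₂ γ‖ ≤ ‖ρ γ‖) ∧ (∀ γ, ρ' γ = bdiag e (ρ₁ γ) (ρ₂ γ)) ∧ Cj u u' ρ' ρ := by
  obtain ⟨W, h0, h1, hW⟩ := exists_inv_of_not_irr h
  obtain ⟨W', hW', hc⟩ := hs W hW
  let P : Mat r := LinearMap.toMatrix' (W.projection W' hc)
  have hPv : ∀ v, P *ᵥ v = W.projection W' hc v := fun v => LinearMap.toMatrix'_mulVec _ v
  have ext' : ∀ X Y : Mat r, (∀ v, X *ᵥ v = Y *ᵥ v) → X = Y := fun X Y h =>
    Matrix.toLin'.injective (LinearMap.ext h)
  have hPP : P * P = P := ext' _ _ fun v => by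
    rw [← mulVec_mulVec, hPv, hPv,
      Submodule.projection_apply_of_mem_left hc (Submodule.projection_apply_mem hc v)]
  have hcm : ∀ γ, P * ρ γ = ρ γ * P := fun γ => ext' _ _ fun v => by
    rw [← mulVec_mulVec, ← mulVec_mulVec, hPv, hPv]
    conv_lhs => rw [← Submodule.projection_add_projection_eq_self hc v, mulVec_add, map_add]
    rw [Submodule.projection_apply_of_mem_left hc (hW γ _ (Submodule.projection_apply_mem hc v)),
      Submodule.projection_apply_of_mem_right hc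
        (hW' γ _ (Submodule.projection_apply_mem hc.symm v)), add_zero]
  obtain ⟨s, t, e, a, b, a1, a2, a3, a4, a5, a6⟩ := zalg_frame P hPP
  have b1 : a * aᴴ * P = P := by
    have := congrArg (· * P) a4
    simpa only [Matrix.add_mul, Matrix.mul_assoc b, a6, Matrix.mul_zero, add_zero,
      Matrix.one_mul] using this
  have b2 : (1 - P) * b * bᴴ = 1 - P := by
    have := congrArg ((1 - P) * ·) a4
    simpa only [Matrix.mul_add, ← Matrix.mul_assoc, Matrix.sub_mul 1 P a, Matrix.one_mul, a5,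
      sub_self, Matrix.zero_mul, zero_add, Matrix.mul_one] using this
  have c1 : ∀ γ, ρ γ * a = a * (aᴴ * ρ γ * a) := fun γ => by
    conv_lhs => rw [← a5, ← Matrix.mul_assoc, ← hcm, ← b1, Matrix.mul_assoc _ P, hcm]
    simp only [Matrix.mul_assoc, a5]
  have c2 : ∀ γ, bᴴ * ρ γ = bᴴ * ρ γ * b * bᴴ := fun γ => by
    have := congrArg (bᴴ * ρ γ * ·) a4
    simp only [Matrix.mul_add, Matrix.mul_one, ← Matrix.mul_assoc] at this
    rw [Matrix.mul_assoc _ _ a, c1, ← Matrix.mul_assoc, a3] at this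
    simpa using this.symm
  have c3 : ∀ γ, ρ γ * ((1 - P) * b) = (1 - P) * b * (bᴴ * ρ γ * b) := fun γ => by
    simp only [← Matrix.mul_assoc, b2, mul_sub, sub_mul, hcm, mul_one, one_mul]
  have c4 : bᴴ * ((1 - P) * b) = 1 := by
    rw [← Matrix.mul_assoc, Matrix.mul_sub, a6, sub_zero, Matrix.mul_one, a2]
  let ρ₁ : Γ →* Mat s :=
    { toFun := fun γ => aᴴ * ρ γ * a
      map_one' := by simp [a1]
      map_mul' := fun x y => by
        rw [Matrix.mul_assoc (aᴴ * ρ x), ← c1]; simp only [map_mul, Matrix.mul_assoc] }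
  let ρ₂ : Γ →* Mat t :=
    { toFun := fun γ => bᴴ * ρ γ * b
      map_one' := by simp [a2]
      map_mul' := fun x y => by
        simp only [← Matrix.mul_assoc, ← c2, map_mul] }
  let ρ' : Γ →* Mat r :=
    { toFun := fun γ => bdiag e (ρ₁ γ) (ρ₂ γ)
      map_one' := by simp [bdiag]
      map_mul' := fun x y => by simp [bdiag, fromBlocks_multiply] }
  refine ⟨s, t, e, ρ₁, ρ₂, ρ', (fromRows (aᴴ * P) bᴴ).submatrix e.symm id,
    (fromCols a ((1 - P) * b)).submatrix id e.symm, Nat.pos_of_ne_zero ?_, Nat.pos_of_ne_zero ?_,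
    hs.zalg_sub a1 c1, hs.zalg_sub c4 c3, fun γ => zalg_le' a4 _,
    fun γ => zalg_le' ((add_comm _ _).trans a4) _, fun _ => rfl, ?_, fun γ => ?_⟩
  · rintro rfl
    refine h0 ((Submodule.eq_bot_iff _).2 fun v hv => ?_)
    rw [← Submodule.projection_apply_of_mem_left hc hv, ← hPv, ← b1, Subsingleton.elim a 0]
    simp
  · rintro rfl
    refine h1 (eq_top_iff.2 fun v _ => ?_)
    rw [Subsingleton.elim b 0, Matrix.mul_zero, Matrix.zero_mul, eq_comm, sub_eq_zero] at b2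
    have := Submodule.projection_apply_mem hc v
    rwa [← hPv, ← b2, one_mulVec] at this
  · rw [← submatrix_mul _ _ _ id _ Function.bijective_id, fromRows_mul_fromCols, c4, a3,
      Matrix.mul_assoc, a5, a1, ← Matrix.mul_assoc, Matrix.mul_assoc aᴴ, mul_sub, hPP]
    simp
  · change _ = _ * bdiag e (aᴴ * ρ γ * a) (bᴴ * ρ γ * b) * _
    rw [bdiag, reindex_apply, submatrix_mul_equiv, submatrix_mul_equiv, fromCols_mul_fromBlocks,
      fromCols_mul_fromRows, Matrix.mul_zero, Matrix.mul_zero, add_zero, zero_add, ← c1, ← c3,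
      Matrix.mul_assoc, Matrix.mul_assoc (ρ γ), b2, ← Matrix.mul_assoc a, b1]
    simp [← mul_add]

end Pool.Agent.PW
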