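import Pool.Agent.P.MP_65ad7c_ag.ZBase
import Pool.Agent.P.MP_65ad7c_ag.ECen
import Pool.Agent.P.MP_65ad7c_ag.AVar

open MeasureTheory Set Filter Topology Metric Matrix
open scoped ComplexOrder ContDiff Matrix.Norms.Frobenius RealInnerProductSpace ENNReal
open Pool.Agent.Lib.Sob

noncomputable section
namespace Pool.Agent.PW

variable {E : Type} [NormedAddCommGroup E] [InnerProductSpace ℝ E] [FiniteDimensional ℝ E]
  [MeasurableSpace E] [BorelSpace E] {r : ℕ} {U : Set E} {Γ : Type} [Group Γ]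
  {V : Type} [NormedAddCommGroup V] [NormedSpace ℝ V]
  {A : Atlas E Γ} {ρ ρ' : Γ →* Mat r} {H h : A.ι → E → Mat r}
  {D : A.ι → E → E →L[ℝ] Mat r} {C M : ℝ}

theorem znorm_norm_le {X X' : Mat r} (hX : X * X' = 1) {N : ℝ} (hN : 1 ≤ N)
    (h : sg (gm 1 X) 1 ≤ N) : ‖X‖ ≤ N := by
  have h1 := le_nf one_pos (Obst.refl PosSemidef.one le_rfl) (Obst.refl PosSemidef.one le_rfl) X
  have h2 := trace_mul_nonneg (gm_posDef PosDef.one hX).inv.posSemidef PosSemidef.one
  have h3 : nf 1 1 X X = ((1 : Mat r)⁻¹ * gm 1 X).trace.re := by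
    simp only [nf, gm, inv_one, Matrix.mul_one, Matrix.one_mul]
    rw [trace_mul_comm]
  rw [sg] at h
  nlinarith [norm_nonneg X]

/-- normalisation of the centre in the base chart -/
theorem Atlas.normalise (A : Atlas E Γ) (hr : 0 < r) {M : ℝ} (hM : 0 ≤ M) :
    ∃ N' η : ℝ, 1 ≤ N' ∧ 0 ≤ η ∧ ∀ (ρ : Γ →* Mat r) C h D, A.HM ρ C h D → A.EB M h D →
      ∃ (u u' : Mat r) (ρ' : Γ →* Mat r) (Q : A.ι → Mat r), Cj u u' ρ ρ' ∧ A.Sz N' ρ' ∧
        ∀ a, Bd N' (Q a) ∧ N2 (closedBall 0 2)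
          (fun x => Real.log (sg (Q a) (gm (h a x) u))) ≤ ENNReal.ofReal η := by
  obtain ⟨η, hη, hc⟩ := A.exists_centres hr hM
  choose g hg using A.reach
  choose L1 hL1 k1 using fun a => A.toPre.chain_sg hr (hg a)
  choose L2 hL2 k2 using fun γ => A.toPre.chain_sg hr (A.chain γ)
  have hη0 : 0 ≤ η := by linarith
  have hS : 0 ≤ ∑ s ∈ A.S, L2 s := Finset.sum_nonneg fun s _ => hL2 s
  have hT : 0 ≤ ∑ a, (L2 (g a) + L1 a) := Finset.sum_nonneg fun a _ => add_nonneg (hL2 _) (hL1 a)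
  set K := ∑ s ∈ A.S, L2 s + ∑ a, (L2 (g a) + L1 a) with hK
  have hN : 1 ≤ Real.exp (K * η) := Real.one_le_exp (by positivity)
  refine ⟨Real.exp (K * η), η, hN, hη0, fun ρ C h D hh hE => ?_⟩
  obtain ⟨y, hy⟩ := hc h D hh.wd hh.lbd hE
  have s26 : closedBall (0 : E) 2 ⊆ ball 0 6 := closedBall_subset_ball (by norm_num)
  have s16 : ball (0 : E) 1 ⊆ ball 0 6 := ball_subset_ball (by norm_num)
  have hQ : ∀ a, (h a (y a)).PosDef := fun a => (hh.lbd a).posDef _ (s26 (hy a).1)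
  have m1 : A.MC (ball 0 1) ρ h := fun a b x hx => hh.mc a b x ⟨hx.1, s16 hx.2.1, s16 hx.2.2⟩
  have m2 : ∀ d, ∀ x ∈ ball (0 : E) 1, (h d x).PosDef := fun d x hx =>
    (hh.lbd d).posDef _ (s16 hx)
  have m3 := fun d => aesm_log_sg isOpen_ball (hh.wd d) (hh.lbd d) (hQ d)
    (isCompact_closedBall (0 : E) 1) (closedBall_subset_ball (by norm_num))
  have m4 : ∀ d, N2 (closedBall 0 1) (fun x => Real.log (sg (h d (y d)) (h d x))) ≤
      ENNReal.ofReal η := fun d => (eLpNorm_mono_measure _ (Measure.restrict_mono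
        (closedBall_subset_closedBall (by norm_num)) le_rfl)).trans (hy d).2
  have e1 := fun a => k1 a ρ h _ η hη m1 m2 hQ m3 m4
  have e2 := fun γ => k2 γ ρ h _ η hη m1 m2 hQ m3 m4
  obtain ⟨u, u', -, hu, hu1, -⟩ := exists_simul_diag (hQ A.a0) (hQ A.a0).isHermitian
  have hu' : u' * u = 1 := mul_eq_one_comm.1 hu
  have hρ : ∀ γ, ρ γ * ρ γ⁻¹ = 1 := fun γ => by rw [← map_mul, mul_inv_cancel, map_one]
  have hg' := fun γ => gm_posDef (hQ A.a0) (hρ γ)
  have key : ∀ {P Q : Mat r} {L : ℝ}, P.PosDef → Q.PosDef → L ≤ K → Real.log (sg P Q) ≤ L * η →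
      sg (gm P u) (gm Q u) ≤ Real.exp (K * η) := fun hP hQ hL h => by
    rw [sg_gm hP hQ hu]
    exact (Real.le_exp_log _).trans
      (Real.exp_le_exp.2 (h.trans (mul_le_mul_of_nonneg_right hL hη0)))
  let ρ' : Γ →* Mat r :=
    { toFun := fun γ => u' * ρ γ * u
      map_one' := by rw [map_one, Matrix.mul_one, hu']
      map_mul' := fun a b => by
        simp only [map_mul, Matrix.mul_assoc]
        rw [← Matrix.mul_assoc u, hu, Matrix.one_mul] }
  refine ⟨u, u', ρ', fun a => gm (h a (y a)) u, ⟨hu, fun _ => rfl⟩, fun s hs => ?_,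
    fun a => ⟨?_, ?_⟩⟩
  · have h1 := key (hg' s) (hQ A.a0)
      ((Finset.single_le_sum (fun s _ => hL2 s) hs).trans (le_add_of_nonneg_right hT)) (e2 s)
    have h2 : ρ s * u = u * ρ' s := by
      change _ = u * (u' * ρ s * u)
      rw [← Matrix.mul_assoc, ← Matrix.mul_assoc, hu, Matrix.one_mul]
    rw [gm_gm, h2, ← gm_gm, hu1] at h1
    exact znorm_norm_le (X' := ρ' s⁻¹) (by rw [← map_mul, mul_inv_cancel, map_one]) hN h1
  · have h1 := log_sg_le hr (hQ A.a0) (hg' (g a)) (hQ a)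
    have h2 := key (L := L2 (g a) + L1 a) (hQ A.a0) (hQ a)
      ((Finset.single_le_sum (f := fun a => L2 (g a) + L1 a)
        (fun a _ => add_nonneg (hL2 _) (hL1 a)) (Finset.mem_univ a)).trans
        (le_add_of_nonneg_left hS)) (by
          have h3 := e2 (g a)
          rw [sg_comm] at h3
          linarith [e1 a])
    rw [hu1] at h2
    exact obst_of_sg PosDef.one (gm_posDef (hQ a) hu) (by positivity) h2
  · refine (eLpNorm_congr_ae ?_).trans_le (hy a).2
    filter_upwards [ae_restrict_mem measurableSet_closedBall] with x hx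
    rw [sg_gm (hQ a) ((hh.lbd a).posDef _ (s26 hx)) hu]

end Pool.Agent.PW
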