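import Pool.Agent.P.MP_65ad7c_ag.ZBase
import Pool.Agent.P.MP_65ad7c_ag.ERef
import Pool.Agent.P.MP_65ad7c_ag.ELog
import Pool.Agent.P.MP_65ad7c_ag.EEn

open MeasureTheory Set Filter Topology Metric Matrix
open scoped ComplexOrder ContDiff Matrix.Norms.Frobenius RealInnerProductSpace ENNReal
open Pool.Agent.Lib.Sob

noncomputable section
namespace Pool.Agent.PW

variable {E : Type} [NormedAddCommGroup E] [InnerProductSpace ℝ E] [FiniteDimensional ℝ E]
  [MeasurableSpace E] [BorelSpace E] {r : ℕ} {U : Set E} {Γ : Type} [Group Γ]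
  {V : Type} [NormedAddCommGroup V] [NormedSpace ℝ V]
  {A : Atlas E Γ} {ρ ρ' : Γ →* Mat r} {H h : A.ι → E → Mat r}
  {D : A.ι → E → E →L[ℝ] Mat r} {C M : ℝ}

/-- for a harmonic metric `log sg (h, H)` is a subsolution -/
theorem Atlas.harm_sub_log (A : Atlas E Γ) (hr : 0 < r) {B : ℝ} (hB : 1 ≤ B) : ∃ C₁ : ℝ, 0 ≤ C₁ ∧
    ∀ (ρ : Γ →* Mat r) H C h D, A.Ref ρ H → A.RefBd B H → A.HM ρ C h D → ∀ b, ∃ Df,
        WD 2 (ball 0 6) (fun x => Real.log (sg (h b x) (H b x))) Df ∧
        LB (ball 0 6) (fun x => Real.log (sg (h b x) (H b x))) ∧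
        SubSol (ball 0 6) (closedBall 0 2) (A.α b) Df C₁ := by
  choose c hc0 hc using fun b => ref_test (r := r) (A.coef b) hB
  have hS : 0 ≤ ∑ b, c b := Finset.sum_nonneg fun b _ => hc0 b
  refine ⟨(∑ b, c b) * (r * B ^ 2), by positivity, fun ρ H C h D hR hRB hM b => ?_⟩
  have hU : IsOpen (ball (0 : E) 6) := isOpen_ball
  have hK : IsCompact (closedBall (0 : E) 2) := isCompact_closedBall _ _
  have hKU : closedBall (0 : E) 2 ⊆ ball 0 6 := closedBall_subset_ball (by norm_num)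
  have hv : WD 2 (ball 0 6) (H b) (fderiv ℝ (H b)) :=
    WD.of_contDiffOn (by norm_num) hU ((hR.sm b).of_le (by simp))
  have bv : LBd (ball 0 6) (H b) := LBd.of_continuousOn (hR.sm b).continuousOn (hR.pos b)
  have hu := hM.wd b
  have bu := hM.lbd b
  have cα : ContinuousOn (A.α b) (ball 0 6) := (A.coef b).1.continuousOn
  refine sub_log_local hr hU hK hKU (A.coef b) hu hv bu bv fun η Dη hη bη η0 ηK => ?_
  obtain ⟨wk, bk⟩ := wd_kz hU hu hv bu bv
  have wζ := wd_smul hU hη wk bη bk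
  have z : ∀ x ∈ ball (0 : E) 6, x ∉ closedBall (0 : E) 2 → η x • kz (h b x) (H b x) = 0 :=
    fun x hx hxK => by rw [ηK x hx hxK, zero_smul]
  have zD := wd_cs_ae (by norm_num) hU wζ hK.isClosed z
  have t1 := harm_test hU cα (locLp_mc hU hu bu) (hM.harm b) wζ ⟨_, hK, hKU, z⟩
  have t2 := hc b (H b) (hR.sm b) (hR.pos b) (hRB b) _ _ wζ z
  have hint : ∀ {Y : E → E →L[ℝ] Mat r}, LocLp 2 (ball 0 6) Y → IntegrableOn (fun x =>
      pair (A.α b x) (Y x) (η x • dkz (h b x) (H b x) (D b x) (fderiv ℝ (H b) x) +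
        (Dη x).smulRight (kz (h b x) (H b x)))) (ball 0 6) := fun hY =>
    (integrableOn_of_cs hU (locLp_pair cα hY wζ.2.1) hK hKU (zD.mono fun x hx h1 h2 => by
      rw [hx h1 h2]; simp [pair])).1
  have hh1 := wd_herm (by norm_num) hU hu fun x hx => (bu.posDef x hx).1
  have hh2 := wd_herm (by norm_num) hU hv fun x hx => (hR.pos b x hx).1
  have e := integral_sub (hint (locLp_mc hU hv bv)) (hint (locLp_mc hU hu bu))
  rw [t1, sub_zero] at e
  have i3 : IntegrableOn (fun x => η x * sg (h b x) (H b x)) (ball 0 6) :=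
    (integrableOn_of_cs hU (locLp_bilin_one (ContinuousLinearMap.mul ℝ ℝ) hη.1
      (wd_sg hU hu hv bu bv).1.1) hK hKU (Eventually.of_forall fun x h1 h2 => by
        rw [ηK x h1 h2]; simp)).1
  have t3 : ∫ x in ball (0 : E) 6, ‖η x • kz (h b x) (H b x)‖ ≤
      r * B ^ 2 * ∫ x in ball (0 : E) 6, η x * sg (h b x) (H b x) := by
    rw [← integral_const_mul]
    refine integral_mono_of_nonneg (Eventually.of_forall fun x => norm_nonneg _) (i3.const_mul _)
      ((ae_restrict_iff' hU.measurableSet).2 (Eventually.of_forall fun x hx => ?_))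
    by_cases hxK : x ∈ closedBall (0 : E) 2
    · have := norm_kz_le (bu.posDef x hx) (by linarith : 0 < B)
        (hRB b x (closedBall_subset_closedBall (by norm_num) hxK)).1
      simp only
      rw [norm_smul, Real.norm_of_nonneg (η0 x hx), mul_left_comm]
      exact mul_le_mul_of_nonneg_left this (η0 x hx)
    · simp [ηK x hx hxK]
  have n0 : 0 ≤ ∫ x in ball (0 : E) 6, ‖η x • kz (h b x) (H b x)‖ :=
    integral_nonneg fun x => norm_nonneg _
  calc _ = _ := by
        refine Eq.trans (setIntegral_congr_ae hU.measurableSet ?_) e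
        filter_upwards [hh1, hh2] with x a1 a2 hx
        exact (pair_key (bu.posDef x hx) (hR.pos b x hx) (a1 hx) (a2 hx) ((A.coef b).2 x hx).1
          _ _).symm
    _ ≤ _ := t2
    _ ≤ (∑ b, c b) * ∫ x in ball (0 : E) 6, ‖η x • kz (h b x) (H b x)‖ :=
        mul_le_mul_of_nonneg_right
          (Finset.single_le_sum (fun b _ => hc0 b) (Finset.mem_univ b)) n0
    _ ≤ _ := by rw [mul_assoc]; exact mul_le_mul_of_nonneg_left t3 hS

end Pool.Agent.PW
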