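import Pool.Agent.P.MP_65ad7c_ag.ZSum
import Pool.Agent.P.MP_65ad7c_ag.ZAlg
import Pool.Agent.P.MP_65ad7c_ag.ZSub
import Pool.Agent.P.MP_65ad7c_ag.ZNorm
import Pool.Agent.P.MP_65ad7c_ag.Sec1

open MeasureTheory Set Filter Topology Metric Matrix
open scoped ComplexOrder ContDiff Matrix.Norms.Frobenius RealInnerProductSpace ENNReal
open Pool.Agent.Lib.Sob

noncomputable section
namespace Pool.Agent.PW

variable {E : Type} [NormedAddCommGroup E] [InnerProductSpace ℝ E] [FiniteDimensional ℝ E]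
  [MeasurableSpace E] [BorelSpace E] {r : ℕ} {U : Set E} {Γ : Type} [Group Γ]
  {V : Type} [NormedAddCommGroup V] [NormedSpace ℝ V]
  {A : Atlas E Γ} {ρ ρ' : Γ →* Mat r} {H h : A.ι → E → Mat r}
  {D : A.ι → E → E →L[ℝ] Mat r} {C M : ℝ}

/-- semisimple representations have harmonic metrics of controlled energy -/
theorem Atlas.hasHM_ss (A : Atlas E Γ) (hE : 2 ≤ Module.finrank ℝ E) (N : ℝ) (r : ℕ) :
    ∃ M : ℝ, 0 ≤ M ∧ ∀ ρ : Γ →* Mat r, SSimple ρ → A.Sz N ρ → A.HasHM M ρ := by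
  suffices h : ∀ k : ℕ, ∃ M : ℝ, 0 ≤ M ∧ ∀ r ≤ k, ∀ ρ : Γ →* Mat r, SSimple ρ → A.Sz N ρ →
      A.HasHM M ρ by
    obtain ⟨M, hM, h⟩ := h r
    exact ⟨M, hM, h r le_rfl⟩
  intro k
  induction k with
  | zero =>
    refine ⟨0, le_rfl, fun r hr ρ _ _ => ?_⟩
    obtain rfl := Nat.le_zero.1 hr
    exact A.hasHM_zero ρ
  | succ k ih =>
    obtain ⟨M, hM, ih⟩ := ih
    obtain ⟨M', hM', h'⟩ := exists_hm_en A hE (r := k + 1) k.succ_pos N
    refine ⟨M + M + M', by linarith, fun r hr ρ hs hz => ?_⟩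
    rcases Nat.lt_or_ge r (k + 1) with hlt | hge
    · exact (ih r (Nat.lt_succ_iff.1 hlt) ρ hs hz).mono (by linarith)
    obtain rfl : r = k + 1 := le_antisymm hr hge
    by_cases hi : Irr ρ
    · obtain ⟨m, γs, β, hb⟩ := hi.burn
      obtain ⟨C, hC, h⟩ := h' m γs β
      obtain ⟨h, D, h1, h2⟩ := h ρ hb hz
      exact Atlas.HasHM.mono ⟨C, h, D, hC, h1, h2⟩ (by linarith)
    · obtain ⟨s, t, e, ρ₁, ρ₂, ρ', u, u', hs0, ht0, s1, s2, n1, n2, hd, hc⟩ := hs.split hi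
      have hst : s + t = k + 1 := by simpa using Fintype.card_congr e
      have a1 := ih s (by omega) ρ₁ s1 fun γ hγ => (n1 γ).trans (hz γ hγ)
      have a2 := ih t (by omega) ρ₂ s2 fun γ hγ => (n2 γ).trans (hz γ hγ)
      exact ((Atlas.HasHM.sum e hd hM hM a1 a2).conj hc).mono (by linarith)

/-- uniform bounds after a constant change of frame -/
theorem Atlas.hm_uniform (A : Atlas E Γ) (hE : 2 ≤ Module.finrank ℝ E) (hr : 0 < r) {M : ℝ}
    (hM : 0 ≤ M) : ∃ C N' : ℝ, 1 ≤ C ∧ ∀ (ρ : Γ →* Mat r) C₀ h D, 1 ≤ C₀ → A.HM ρ C₀ h D →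
      A.EB M h D → ∃ (u u' : Mat r) (ρ' : Γ →* Mat r) (h' : A.ι → E → Mat r),
        Cj u u' ρ ρ' ∧ A.Sz N' ρ' ∧ A.HM ρ' C h' (fun a x => lmul uᴴ (rmul (D a x) u)) ∧
        ∀ a, ∀ᵐ x, x ∈ ball (0 : E) 6 → h' a x = gm (h a x) u := by
  obtain ⟨χ, hχ', -⟩ := A.toPre.exists_pou (R := 4) (R' := 9 / 2) (by norm_num) (by norm_num)
    (by norm_num)
  have s96 : closedBall (0 : E) (9 / 2) ⊆ ball 0 6 := closedBall_subset_ball (by norm_num)
  have s26 : closedBall (0 : E) 2 ⊆ ball 0 6 := closedBall_subset_ball (by norm_num)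
  have s46 : closedBall (0 : E) 4 ⊆ ball 0 6 := closedBall_subset_ball (by norm_num)
  have hχ : A.Pou (ball 0 6) χ := hχ'.mono s96
  obtain ⟨N', η, hN', hη, hno⟩ := A.normalise hr hM
  obtain ⟨B, hB, hBd⟩ := A.h0_bd (r := r) hχ' N'
  obtain ⟨C₁, hC₁, hsub⟩ := A.harm_sub_log hr hB
  set c : ℝ := Real.log (2 * r * (B * N')) with hc
  have hr1 : (1 : ℝ) ≤ r := by exact_mod_cast hr
  have hBN : 1 ≤ B * N' := one_le_mul_of_one_le_of_one_le hB hN'
  have hc0 : 0 ≤ c := Real.log_nonneg (by nlinarith)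
  have hv : volume (closedBall (0 : E) 2) ≠ ⊤ := (isCompact_closedBall 0 2).measure_lt_top.ne
  set v : ℝ := (volume (closedBall (0 : E) 2) ^ (1 / (2 : ℝ≥0∞).toReal)).toReal with hvdef
  have hv0 : 0 ≤ v := ENNReal.toReal_nonneg
  set C₂ : ℝ := η + c * v with hC₂def
  have hC₂ : 0 ≤ C₂ := add_nonneg hη (mul_nonneg hc0 hv0)
  have hdg : ∀ a : A.ι, ∃ G : ℝ, 0 < G ∧ ∀ (f : E → ℝ) (Df : E → E →L[ℝ] ℝ),
      WD 2 (ball 0 6) f Df → LB (ball 0 6) f → SubSol (ball 0 6) (closedBall 0 2) (A.α a) Df C₁ →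
      N2 (closedBall 0 2) f ≤ ENNReal.ofReal C₂ →
      ∀ᵐ x, x ∈ closedBall (0 : E) 1 → f x ≤ G * (C₂ + C₁) := by
    intro a
    obtain ⟨l, L', hl, he⟩ := (A.coef a).ell (isCompact_closedBall 0 2) s26
    obtain ⟨G, hG, h⟩ := degiorgi hE (L := L') (R := 1) (R' := 2) hl one_pos one_lt_two
    exact ⟨G, hG, fun f Df h1 h2 h3 h4 => h 0 (ball 0 6) (A.α a) f Df C₁ C₂ isOpen_ball s26 he
      (A.coef a).1.continuousOn h1 h2 hC₁ hC₂ h3 h4⟩
  choose G hG hdg using hdg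
  set C' : ℝ := Real.exp ((∑ a, G a) * (C₂ + C₁)) with hC'
  have hGs : ∀ a, G a ≤ ∑ a, G a := fun a =>
    Finset.single_le_sum (f := G) (fun a _ => (hG a).le) (Finset.mem_univ a)
  have h1C' : 1 ≤ C' := Real.one_le_exp
    (mul_nonneg (Finset.sum_nonneg fun a _ => (hG a).le) (add_nonneg hC₂ hC₁))
  have hBC : 1 ≤ B * C' := one_le_mul_of_one_le_of_one_le hB h1C'
  have hn2 := fun a : A.ι => n2_le_of_en (r := r) (A.coef a) (isCompact_closedBall 0 4) s46 hBC
  choose L₂ hL₂ hn2 using hn2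
  have hLs : ∀ a, L₂ a ≤ ∑ a, L₂ a := fun a =>
    Finset.single_le_sum (f := L₂) (fun a _ => hL₂ a) (Finset.mem_univ a)
  have hS0 : 0 ≤ (∑ a, L₂ a) * (1 + M) :=
    mul_nonneg (Finset.sum_nonneg fun a _ => hL₂ a) (by linarith)
  refine ⟨B * C' + (∑ a, L₂ a) * (1 + M), N', by linarith, fun ρ C₀ h D hC₀ hh he => ?_⟩
  obtain ⟨u, u', ρ', Q, hcj, hz, hQ⟩ := hno ρ C₀ h D hh he
  obtain ⟨C₃, -, hh', he'⟩ := hh.conj hcj hC₀ he
  have hH := A.h0_ref hχ ρ'
  have hHb := hBd ρ' hz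
  have hs : ∀ a, ∀ᵐ x, x ∈ ball (0 : E) 1 → sg (gm (h a x) u) (A.h0 χ ρ' a x) ≤ C' := by
    intro a
    obtain ⟨Df, w1, w2, w3⟩ := hsub ρ' _ _ _ _ hH hHb hh' a
    have pQ : (Q a).PosDef := (hQ a).1.posDef (by linarith)
    have hn : N2 (closedBall 0 2) (fun x => Real.log (sg (gm (h a x) u) (A.h0 χ ρ' a x))) ≤
        ENNReal.ofReal C₂ := by
      have m1 := aesm_log_sg isOpen_ball (hh'.wd a) (hh'.lbd a) pQ (isCompact_closedBall 0 2) s26
      calc N2 (closedBall 0 2) (fun x => Real.log (sg (gm (h a x) u) (A.h0 χ ρ' a x)))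
          ≤ eLpNorm ((fun x => Real.log (sg (Q a) (gm (h a x) u))) + fun _ => c) 2
              (volume.restrict (closedBall (0 : E) 2)) := by
            refine eLpNorm_mono_ae_real ?_
            filter_upwards [ae_restrict_mem measurableSet_closedBall] with x hx
            have p1 := (hh'.lbd a).posDef x (s26 hx)
            have p2 := hH.pos a x (s26 hx)
            have b2 := (hHb a x (closedBall_subset_closedBall (by norm_num) hx)).1
            have e1 := log_sg_le hr p1 pQ p2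
            have e2 : sg (Q a) (A.h0 χ ρ' a x) ≤ 2 * r * (B * N') := by
              rw [mul_comm B N']
              exact sg_le_of_obst pQ (by nlinarith) (Obst.trans (by linarith) (by linarith)
                (Obst.symm (by linarith) (hQ a).1) b2)
            have e3 : Real.log (sg (Q a) (A.h0 χ ρ' a x)) ≤ c :=
              Real.log_le_log (lt_of_lt_of_le (by linarith) (le_sg pQ p2)) e2
            rw [Real.norm_of_nonneg (log_sg_nonneg hr p1 p2), Pi.add_apply, sg_comm (Q a)]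
            linarith
        _ ≤ N2 (closedBall 0 2) (fun x => Real.log (sg (Q a) (gm (h a x) u))) +
              eLpNorm (fun _ : E => c) 2 (volume.restrict (closedBall (0 : E) 2)) :=
            eLpNorm_add_le m1 aestronglyMeasurable_const (by norm_num)
        _ ≤ ENNReal.ofReal η + ENNReal.ofReal (c * v) := by
            refine add_le_add (hQ a).2 (le_of_eq ?_)
            rw [eLpNorm_const' c (by norm_num) (by norm_num), Measure.restrict_apply_univ,
              ENNReal.ofReal_mul hc0, hvdef,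
              ENNReal.ofReal_toReal (ENNReal.rpow_ne_top_of_nonneg (by norm_num) hv),
              Real.enorm_eq_ofReal hc0]
        _ = ENNReal.ofReal C₂ := (ENNReal.ofReal_add hη (mul_nonneg hc0 hv0)).symm
    filter_upwards [hdg a _ Df w1 w2 w3 hn] with x hx hx1
    have e1 := hx (ball_subset_closedBall hx1)
    have e2 : G a * (C₂ + C₁) ≤ (∑ a, G a) * (C₂ + C₁) :=
      mul_le_mul_of_nonneg_right (hGs a) (add_nonneg hC₂ hC₁)
    exact (Real.le_exp_log _).trans (Real.exp_le_exp.2 (e1.trans e2))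
  obtain ⟨h', m1, ho, hae⟩ := hh'.modify hH h1C' hs
  have hbd : ∀ a, ∀ x ∈ closedBall (0 : E) 4, Bd (B * C') (h' a x) := fun a x hx =>
    Obst.trans (by linarith) (by linarith)
      (hHb a x (closedBall_subset_closedBall (by norm_num) hx)).1 (ho a x (s46 hx))
  have hw : ∀ a, WD 2 (ball 0 6) (h' a) fun x => lmul uᴴ (rmul (D a x) u) := fun a =>
    (hh'.wd a).congr ((hae a).mono fun x hx hx6 => (hx hx6).symm)
      (Eventually.of_forall fun _ _ => rfl)
  have hl : ∀ a, LBd (ball 0 6) (h' a) := fun a => (hH.lbd a).of_obst h1C' (ho a)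
  refine ⟨u, u', ρ', h', hcj, hz, ⟨hw, hl, m1, fun a φ hφ => ?_,
    fun a x hx => (hbd a x hx).mono (by linarith) (by linarith), fun a => ?_⟩, hae⟩
  · rw [← hh'.harm a φ hφ]
    refine integral_congr_ae ?_
    filter_upwards [hae a] with x hx
    by_cases hx6 : x ∈ ball (0 : E) 6
    · rw [hx hx6]
    · simp [hφ.fderiv_zero_of_notMem hx6]
  · have hher : ∀ᵐ x, x ∈ closedBall (0 : E) 4 → HermF (lmul uᴴ (rmul (D a x) u)) := by
      filter_upwards [wd_herm (by norm_num) isOpen_ball (hw a)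
        fun x hx => ((hl a).posDef x hx).isHermitian] with x hx hx4 using hx (s46 hx4)
    refine (hn2 a (h' a) _ M hM (hbd a) hher ((lintegral_mono_set s46).trans
      (le_trans (le_of_eq ?_) (he' a)))).trans (ENNReal.ofReal_le_ofReal ?_)
    · refine lintegral_congr_ae ?_
      filter_upwards [ae_restrict_mem measurableSet_ball, ae_restrict_of_ae (hae a)] with x h6 hx
      rw [hx h6]
    · have := mul_le_mul_of_nonneg_right (hLs a) (show 0 ≤ 1 + M by linarith)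
      linarith

/-- A0: harmonic metrics for semisimple representations, with constants depending on the size -/
theorem Atlas.exists_hm_ss (A : Atlas E Γ) (hE : 2 ≤ Module.finrank ℝ E) (hr : 0 < r) (N : ℝ) :
    ∃ C N' : ℝ, 1 ≤ C ∧ ∀ ρ : Γ →* Mat r, SSimple ρ → A.Sz N ρ →
      ∃ (u u' : Mat r) (ρ' : Γ →* Mat r) (h : A.ι → E → Mat r) (D : A.ι → E → E →L[ℝ] Mat r),
        Cj u u' ρ ρ' ∧ A.Sz N' ρ' ∧ A.HM ρ' C h D := by
  obtain ⟨M, hM, h1⟩ := A.hasHM_ss hE N r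
  obtain ⟨C, N', hC, h2⟩ := A.hm_uniform hE hr hM
  refine ⟨C, N', hC, fun ρ hs hz => ?_⟩
  obtain ⟨C₀, h, D, hC₀, h3, h4⟩ := h1 ρ hs hz
  obtain ⟨u, u', ρ', h', c1, c2, c3, -⟩ := h2 ρ C₀ h D hC₀ h3 h4
  exact ⟨u, u', ρ', h', _, c1, c2, c3⟩

end Pool.Agent.PW
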