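import Pool.Agent.P.MP_65ad7c_ag.NEx
import Pool.Agent.P.MP_65ad7c_ag.NPrep
import Pool.Agent.P.MP_65ad7c_ag.NSS
import Pool.Agent.P.MP_65ad7c_ag.NLim
import Pool.Agent.P.MP_65ad7c_ag.ZMain
import Pool.Agent.P.MP_65ad7c_ag.Sec23
import Pool.Agent.P.MP_65ad7c_ag.LSys

open MeasureTheory Set Filter Topology Metric Matrix
open scoped ComplexOrder ContDiff Matrix.Norms.Frobenius RealInnerProductSpace ENNReal
open Pool.Agent.Lib.Sob

noncomputable section
namespace Pool.Agent.PW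

variable {n r s : ℕ} {Γ : Type} [Group Γ]

theorem nsys_entry_le (X : Mat r) (i j : Fin r) : ‖X i j‖ ≤ ‖X‖ := by
  rw [Matrix.frobenius_norm_def]
  have h1 : ‖X i j‖ ^ (2 : ℝ) ≤ ∑ i, ∑ j, ‖X i j‖ ^ (2 : ℝ) :=
    (Finset.single_le_sum (f := fun j => ‖X i j‖ ^ (2 : ℝ)) (fun _ _ => by positivity)
      (Finset.mem_univ j)).trans (Finset.single_le_sum (f := fun i => ∑ j, ‖X i j‖ ^ (2 : ℝ))
      (fun _ _ => by positivity) (Finset.mem_univ i))
  calc ‖X i j‖ = (‖X i j‖ ^ (2 : ℝ)) ^ (1 / 2 : ℝ) := by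
        rw [← Real.rpow_mul (norm_nonneg _)]; norm_num
    _ ≤ _ := Real.rpow_le_rpow (by positivity) h1 (by norm_num)

theorem nsys_norm_le (r : ℕ) (N : ℝ) : ∃ N' : ℝ, ∀ X : Mat r, (∀ i j, ‖X i j‖ ≤ N) → ‖X‖ ≤ N' := by
  refine ⟨(∑ _i : Fin r, ∑ _j : Fin r, N ^ (2 : ℝ)) ^ (1 / 2 : ℝ), fun X hX => ?_⟩
  rw [Matrix.frobenius_norm_def]
  refine Real.rpow_le_rpow (by positivity) ?_ (by norm_num)
  exact Finset.sum_le_sum fun i _ => Finset.sum_le_sum fun j _ =>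
    Real.rpow_le_rpow (norm_nonneg _) (hX i j) (by norm_num)

/-- the entry as a continuous linear map -/
def entL (i j : Fin r) : Mat r →L[ℝ] ℂ :=
  LinearMap.toContinuousLinearMap (Matrix.entryLinearMap ℝ ℂ i j)

theorem nsys_contDiff_eval (p : MvPolynomial (Fin r × Fin r) ℂ) :
    ContDiff ℝ ∞ fun m : Mat r => MvPolynomial.eval (fun x => m x.1 x.2) p := by
  induction p using MvPolynomial.induction_on with
  | C a => simpa using contDiff_const
  | add p q hp hq => simpa using hp.add hq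
  | mul_X p x hp =>
    simp only [map_mul, MvPolynomial.eval_X]
    exact hp.mul (entL x.1 x.2).contDiff

theorem prep_of_poly {R : Mat r →* Mat s} (hR : IsPoly R) (hs : ∀ m, R mᴴ = (R m)ᴴ) : Prep R := by
  refine ⟨?_, hs⟩
  choose p hp using hR
  have e : (R : Mat r → Mat s) = fun m => ∑ i, ∑ j,
      MvPolynomial.eval (fun x => m x.1 x.2) (p i j) • Matrix.single i j (1 : ℂ) := by
    funext m
    rw [Matrix.matrix_eq_sum_single (R m)]
    simp only [hp, Matrix.smul_single, smul_eq_mul, mul_one]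
  rw [e]
  exact ContDiff.sum fun i _ => ContDiff.sum fun j _ =>
    (nsys_contDiff_eval (p i j)).smul contDiff_const

theorem Atlas.closure_S {E : Type} [NormedAddCommGroup E] [InnerProductSpace ℝ E]
    [FiniteDimensional ℝ E] (A : Atlas E Γ) : Submonoid.closure (A.S : Set Γ) = ⊤ := by
  have key : ∀ a b γ, A.Chain a b γ → γ ∈ Submonoid.closure (A.S : Set Γ) := by
    intro a b γ h
    induction h with
    | nil a => exact one_mem _
    | cons a b d x γ hx _ ih =>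
      refine mul_mem (Submonoid.subset_closure (A.S_mem a b x hx.1 ?_ ?_)) ih
      · linarith [mem_ball_zero_iff.1 hx.2.1]
      · linarith [mem_ball_zero_iff.1 hx.2.2]
  exact eq_top_iff.2 fun γ _ => key _ _ γ (A.chain γ)

theorem nsys_analytic {F : ℝ → Mat r} (hF : ∀ i j, AnalyticOnNhd ℝ (fun t => F t i j) univ)
    (u v : Mat r) (i j : Fin r) : AnalyticOnNhd ℝ (fun t => (u * F t * v) i j) univ := by
  simp only [Matrix.mul_apply]
  exact Finset.analyticOnNhd_fun_sum _ fun k _ =>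
    (Finset.analyticOnNhd_fun_sum _ fun l _ => analyticOnNhd_const.mul (hF l k)).mul
      analyticOnNhd_const

/-- the analytic part of block N -/
theorem KAtlas.rotSys (A : KAtlas n Γ) (hn : 0 < n) : Nonempty (RotSys Γ) := by
  have hE : 2 ≤ Module.finrank ℝ (EC n) := by
    rw [finrank_real_of_complex, finrank_euclideanSpace_fin]; omega
  refine ⟨{ S := A.S, symm := A.S_inv, gen := A.toAtlas.closure_S
            Rel := fun C t ρ ρ' => A.Rel C t 1 ρ ρ', mono := fun h H => H.mono h, exi := ?_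
            uniq := ?_, prep := ?_, perp := ?_, bdd := ?_, lim := ?_
            zero := fun H γ => by rw [H.zero], half := fun H γ => by simpa using H.pi γ }⟩
  · intro r N hr
    obtain ⟨N₁, hN⟩ := nsys_norm_le r N
    obtain ⟨C, N', hC, h1⟩ := A.toAtlas.exists_hm_ss hE hr N₁
    obtain ⟨C₁, hC₁, h2⟩ := ph_of_hm A hn hr hC
    obtain ⟨C₂, h3⟩ := A.rel_of_ph r hC₁
    obtain ⟨C₃, h4⟩ := A.rel_norm r C₂
    refine ⟨C₃, fun ρ hs hz => ?_⟩
    obtain ⟨u, u', σ, h, D, hc, -, hm⟩ := h1 ρ hs fun s hs => hN _ (hz s hs)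
    obtain ⟨h', D', hp⟩ := h2 σ h D hm
    obtain ⟨F, h5, h6⟩ := h3 σ h' D' hp
    obtain ⟨z, z', hz, h7, h8⟩ := h4 _ (h5 0).1.pos.1 (h5 0).1.pos.2
    refine ⟨u * z, cj hz σ, fun t => cj hz (F t), ?_, fun γ => ?_, fun γ i j => ?_, fun t => ?_⟩
    · exact (IsUnit.of_mul_eq_one _ hc.1).mul (IsUnit.of_mul_eq_one _ hz)
    · rw [(cj_spec hz σ).2, hc.2]
      calc u * z * (z' * (u' * ρ γ * u) * z) = u * (z * z') * u' * ρ γ * (u * z) := by
            simp only [Matrix.mul_assoc]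
        _ = _ := by rw [hz, Matrix.mul_one, hc.1, Matrix.one_mul]
    · exact nsys_analytic (h6 γ) z' z i j
    · obtain ⟨C', h9⟩ := (h5 t).2
      exact ⟨h7 _ _ _ (h5 t).1, h8 _ _ _ _ h9⟩
  · intro r C₁ C₂ t ρ₁ ρ₁' ρ₂ ρ₂' g H₁ H₂ hg hi γ
    have hg' : g * g⁻¹ = 1 := Matrix.mul_nonsing_inv _ ((Matrix.isUnit_iff_isUnit_det _).1 hg)
    obtain ⟨C', h1⟩ := A.rel_conj r C₂ (max ‖g‖ ‖g⁻¹‖)
    have h2 := h1 t 1 ρ₂ ρ₂' ρ₁ _ g g⁻¹ H₂ ⟨hg', fun γ => by
      rw [Matrix.mul_assoc, ← hi, ← Matrix.mul_assoc, mul_eq_one_comm.1 hg', Matrix.one_mul]⟩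
      (cj_spec hg' ρ₂') (le_max_left _ _) (le_max_right _ _)
    rw [(H₁.uniq h2).2 rfl, (cj_spec hg' ρ₂').2, ← Matrix.mul_assoc, ← Matrix.mul_assoc, hg',
      Matrix.one_mul]
  · intro r s C t ρ ρ' R hR hs H
    simpa only [map_one] using H.prep R (prep_of_poly hR hs)
  · rintro r C t ρ ρ' ⟨h, D, g, h1, h2, -⟩ Q hQ hQQ hi γ
    have h3 := h1.proj hQ hQQ hi γ
    simpa only [h2, oP, oM, Matrix.mul_one, hQQ, add_sub_cancel, inv_one, Matrix.one_mul] using h3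
  · intro r C γ
    obtain ⟨B, hB⟩ := A.rel_bound r C γ
    exact ⟨B, fun t ρ ρ' H i j => ⟨(nsys_entry_le _ i j).trans (hB t _ ρ ρ' H).1,
      (nsys_entry_le _ i j).trans (hB t _ ρ ρ' H).2⟩⟩
  · intro r C ι U t t₀ ρ ρ' ρ₀ ρ₀' H ht h1 h2
    obtain ⟨p₀, σ, σ', h3, h4, h5⟩ := A.rel_lim U (p := fun _ => 1) (Eventually.of_forall H) ht
    have e1 : σ = ρ₀ := MonoidHom.ext fun γ => Matrix.ext fun i j => tendsto_nhds_unique
      (((entL i j).continuous.tendsto _).comp (h5 γ).1) (h1 γ i j)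
    have e2 : σ' = ρ₀' := MonoidHom.ext fun γ => Matrix.ext fun i j => tendsto_nhds_unique
      (((entL i j).continuous.tendsto _).comp (h5 γ).2) (h2 γ i j)
    have e3 : p₀ = 1 := tendsto_nhds_unique h4 tendsto_const_nhds
    exact ⟨C, e1 ▸ e2 ▸ e3 ▸ h3⟩

/-- the trivial group -/
theorem rotSys_of_subsingleton (Γ : Type) [Group Γ] [Subsingleton Γ] : Nonempty (RotSys Γ) := by
  have e : ∀ {r : ℕ} (ρ : Γ →* Mat r) γ, ρ γ = 1 := fun ρ γ => by
    rw [Subsingleton.elim γ 1, map_one]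
  refine ⟨{ S := ∅, symm := by simp, gen := Subsingleton.elim _ _, Rel := fun _ _ _ _ => True
            mono := fun _ _ => trivial, exi := ?_, uniq := fun g _ _ _ _ γ => by simp only [e]; simp
            prep := fun _ _ _ _ => ⟨0, trivial⟩, perp := fun _ Q _ _ _ γ => by simp only [e]; simp
            bdd := ?_, lim := fun _ _ _ _ _ _ _ _ _ _ _ _ => ⟨0, trivial⟩
            zero := fun _ γ => by simp only [e], half := fun _ γ => by simp only [e]; simp }⟩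
  · exact fun r N _ => ⟨0, fun ρ _ _ => ⟨1, ρ, fun _ => ρ, isUnit_one, fun γ => by simp,
      fun _ _ _ => analyticOnNhd_const, fun _ => ⟨trivial, 0, trivial⟩⟩⟩
  · exact fun r C γ => ⟨‖(1 : Mat r)‖, fun t ρ ρ' _ i j => by
      simp only [e]; exact ⟨nsys_entry_le _ i j, nsys_entry_le _ i j⟩⟩

end Pool.Agent.PW
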