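import Pool.Agent.P.MP_65ad7c_ag.SHT
import Pool.Agent.P.MP_65ad7c_ag.DTV

/-! The final argument for an arbitrary stratification. -/

open CategoryTheory TopologicalSpace Opposite Pool.Agent.HT Pool.Agent.PW Pool.Agent.PW.S
  Pool.Agent.PWD.TI

set_option backward.isDefEq.respectTransparency false

noncomputable section
namespace Pool.Agent.PQA

variable {Y : Type} [TopologicalSpace Y]

variable {N : ℕ} {ι : Type} {d : ℕ} {Z : Set (Amb N)} {D : ι → Set (Amb N)}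
  (π : C(↥(Z \ ⋃ i, D i), Y))

theorem isInt_res {O O' : Opens Y} (h : O' ≤ O) (lam : ((Kx d π).X 0).obj (op O))
    (hl : IsInt d Z (up π O) (lam ⟨2 * d, rfl⟩)) :
    IsInt d Z (up π O') (rs ((Kx d π).X 0) h lam ⟨2 * d, rfl⟩) := fun B f hf α h1 h2 =>
  (dualCx_rs (A := fun V q => Ac Z (up π V) q) 0 h lam ⟨2 * d, rfl⟩ ⟨_, h1⟩).trans
    (hl B f hf α (ac_mono π h (2 * d) h1) h2)

variable {U : ℕ → Opens Y} {I : PCx Y} {one : (I.X 0).obj (op (U 1))}
  {i : I ⟶ Kx d π} {p : Kx d π ⟶ I} {S : Y → Y → Prop}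

theorem fin_sx [Finite ι] {e : ℕ} (hI : SX e U (toCx I) one)
    (h : IsRes d π S (U := fun k => U (k + 1)) one i p)
    (Φ Φ' : C(Y × unitInterval, Y)) (h0 : ∀ y, Φ (y, 0) = y)
    (h1 : ∀ y t, Φ' (Φ (y, t), t) = y) (h2 : ∀ y t, Φ (Φ' (y, t), t) = y)
    (h3 : ∀ y, Φ (Φ (y, 1), 1) = y) (hS : ∀ y y', S y y' → y' = Φ (y, 1)) (j k : ℕ) :
    WIH d π p j (2 * k + 1) = WIH d π p j (2 * k) ∧
      (∀ x, x ∈ WIH d π p j (2 * k) → x ∈ FIH d π p j (k + 1) →
        x ∈ LinearMap.range ((I.d (j - 1) j).app (op ⊤)).hom) ∧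
      ∀ x, dv I j (j + 1) ⊤ x = 0 → x ∈ WIH d π p j (2 * k) ⊔ FIH d π p j (k + 1) := by
  let s : C(Y, Y) := ⟨fun y => Φ (y, 1), by fun_prop⟩
  have ss : ∀ y, s (s y) = y := h3
  have hs : ∀ V, Set.MapsTo (cj N) (up π (pre s V)) (up π V) :=
    mapsTo_up π h.cjZ h.cjD s fun u u' e => hS _ _ (h.cjπ u u' e)
  let O : Opens Y := U 1 ⊓ pre s (U 1)
  have hs0 : pre s O ≤ O := fun y hy => ⟨by simpa [ss] using hy.2, hy.1⟩
  have hs1 : O ≤ pre s O := fun y hy => ⟨hy.2, by simpa [ss] using hy.1⟩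
  have l0 : O ≤ U 1 := inf_le_left
  have hi : ((i.f 0).app (op O)).hom (((toCx I).X 0).res l0 one) =
      rs ((Kx d π).X 0) l0 (((i.f 0).app (op (U 1))).hom one) :=
    (((toCMap i).f 0).nat l0 one).symm
  have hint : IsInt d Z (up π O)
      (((i.f 0).app (op O)).hom (((toCx I).X 0).res l0 one) ⟨2 * d, rfl⟩) := by
    rw [hi]
    exact isInt_res π l0 _ h.int
  have key := sfin_one h.split.some (((toCx I).X 0).res l0 one)
    ((toCx I).res_cocycle l0 hI.closed) s hs0 _ _ (sig_int π h.cjZ s hs h.snc hs0 hs1 _ hint)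
  refine (fun act => ⟨fin_of_act π h s hs ((-1) ^ d) (pow_ne_zero _ (neg_ne_zero.2 one_ne_zero))
    act j k, tate_of_act π h s hs ((-1) ^ d) (pow_ne_zero _ (neg_ne_zero.2 one_ne_zero))
    act j k⟩) fun n z hz => ?_
  refine hI.iso Φ Φ' h0 h1 h2 s (fun _ => rfl)
    (((toCMap p).push s).comp ((sig d π h.cjZ s hs).comp (toCMap i))) ((-1) ^ d)
    (fun W l l' => ?_) n z hz
  have lW : W ≤ O := le_inf l fun y hy => l' (show s (s y) ∈ W by rw [ss]; exact hy)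
  generalize ((toCMap p).push s).comp ((sig d π h.cjZ s hs).comp (toCMap i)) = g at key ⊢
  have e1 := congrArg ((((toCx I).push s).X 0).res lW) key
  rw [(g.f 0).nat, PS.res_res] at e1
  refine e1.trans ?_
  show ((toCx I).X 0).res (pre_mono s lW) (((-1 : ℂ) ^ d) • ((toCx I).X 0).res hs0
    (((toCx I).X 0).res l0 one)) = _
  rw [map_smul, PS.res_res, PS.res_res]

end Pool.Agent.PQA
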