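import Pool.Agent.P.MP_65ad7c_ag.QDefs
import Pool.Agent.P.MP_65ad7c_ag.NMain

/-! The flow on a space embedded onto a component. -/

open Set
open scoped Manifold ContDiff ComplexConjugate Matrix
open Pool.Agent.PW (EC IsKahler)

noncomputable section
namespace Pool.Agent.PQ

/-- an isotopy from the identity to an involution that contains the relation `S` -/
def HasFlow {Y : Type} [TopologicalSpace Y] (S : Y → Y → Prop) : Prop :=
  ∃ Φ Φ' : C(Y × unitInterval, Y), (∀ y, Φ (y, 0) = y) ∧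
    (∀ y t, Φ' (Φ (y, t), t) = y) ∧ (∀ y t, Φ (Φ' (y, t), t) = y) ∧
    (∀ y, Φ (Φ (y, 1), 1) = y) ∧ ∀ y y' : Y, S y y' → y' = Φ (y, 1)

theorem HasFlow.homeo {Y Y' : Type} [TopologicalSpace Y] [TopologicalSpace Y'] (σ : Y ≃ₜ Y')
    {S : Y → Y → Prop} {S' : Y' → Y' → Prop} (h : HasFlow S')
    (hS : ∀ y y', S y y' → S' (σ y) (σ y')) : HasFlow S := by
  obtain ⟨Φ, Φ', h0, h1, h2, h3, h4⟩ := h
  refine ⟨⟨fun x => σ.symm (Φ (σ x.1, x.2)), by fun_prop⟩,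
    ⟨fun x => σ.symm (Φ' (σ x.1, x.2)), by fun_prop⟩, fun y => ?_, fun y t => ?_, fun y t => ?_,
    fun y => ?_, fun y y' hy => ?_⟩
  · simp [h0]
  · simp [h1]
  · simp [h2]
  · simp [h3]
  · simp [← h4 _ _ (hS y y' hy)]

theorem HasFlow.emb {Y E : Type} [TopologicalSpace Y] [TopologicalSpace E] {e : Y → E}
    (he : Topology.IsEmbedding e) {C : Set E} (hC : range e = C) {T : E → E → Prop}
    (h : HasFlow fun y y' : C => T y.1 y'.1) : HasFlow fun y y' => T (e y) (e y') := by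
  subst hC
  exact h.homeo he.toHomeomorph fun _ _ hy => hy

variable {r : ℕ} {Γ : Type} [Group Γ] {G : Subgroup (GL (Fin r) ℂ)}

theorem inv_eq : Inv Γ G = PW.Inv Γ G := by
  rw [← Algebra.adjoin_eq (PW.Inv Γ G)]
  refine congrArg (Algebra.adjoin ℂ) (Set.ext fun f => and_congr_right fun _ => ?_)
  constructor
  · intro h g ρ
    refine h g.1 g.2 ρ _ fun γ => ?_
    show ((g * ρ γ * g⁻¹ : G) : GL (Fin r) ℂ).1 * g.1.1 = g.1.1 * (ρ γ).1.1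
    rw [← Units.val_mul, ← Units.val_mul, ← Subgroup.coe_mul, ← Subgroup.coe_mul,
      inv_mul_cancel_right]
  · intro h g hg ρ ρ' e
    rw [← h ⟨g, hg⟩ ρ]
    refine congrArg f (MonoidHom.ext fun γ => ?_)
    have e1 : (show Γ →* G from ρ') γ * ⟨g, hg⟩ = ⟨g, hg⟩ * (show Γ →* G from ρ) γ :=
      Subtype.ext (Units.ext (e γ))
    exact eq_mul_inv_of_mul_eq e1

/-- the involution for a subalgebra `A` -/
def IsS' (A : Subalgebra ℂ ((Γ →* G) → ℂ)) (y y' : A → ℂ) : Prop :=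
  ∀ f f' : A, (∀ ρ ρ' : Γ →* G, (∀ γ, (ρ' γ).1.1 = (ρ γ⁻¹).1.1ᴴ) →
    f'.1 ρ = starRingEnd ℂ (f.1 ρ')) → y' f = starRingEnd ℂ (y f')

theorem flow_gen (A : Subalgebra ℂ ((Γ →* G) → ℂ)) (hA : A = PW.Inv Γ G)
    (H : ∀ P ∈ minimalPrimes (PW.Inv Γ G), HasFlow fun y y' : PW.Comp P => PW.IsS y.1 y'.1)
    {Y : Type} [TopologicalSpace Y] {e : Y → A → ℂ} (he : Topology.IsEmbedding e)
    (hY : ∃ P ∈ minimalPrimes A, ∀ y, y ∈ range e ↔
      (∃ φ : A →ₐ[ℂ] ℂ, ⇑φ = y) ∧ ∀ f ∈ P, y f = 0) :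
    HasFlow fun y y' => IsS' A (e y) (e y') := by
  subst hA
  obtain ⟨P, hP, hY⟩ := hY
  exact HasFlow.emb (T := PW.IsS) he (Set.ext hY) (H P hP)

theorem hasFlow (n r : ℕ) (X : Type) [TopologicalSpace X] [T2Space X] [CompactSpace X]
    [ConnectedSpace X] [ChartedSpace (EC n) X] [IsManifold 𝓘(ℂ, EC n) ω X] (hK : IsKahler n X)
    (x₀ : X) (G : Subgroup (GL (Fin r) ℂ)) (hG : IsRed G)
    (Y : Type) [TopologicalSpace Y] (e : Y → Fn (FundamentalGroup X x₀) G → ℂ)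
    (he : Topology.IsEmbedding e) (hY : IsComp (Set.range e)) :
    HasFlow fun y y' => IsS (e y) (e y') :=
  flow_gen (Inv (FundamentalGroup X x₀) G) inv_eq
    (fun P hP => PW.exists_flow n r X hK x₀ G hG P hP) he hY

theorem rot_isS (K : PW.RotSys Γ) (hG : PW.IsRed G) (P : Ideal (PW.Inv Γ G))
    (hP : P ∈ minimalPrimes _) (y : PW.Comp P) : ∃ y' : PW.Comp P, PW.IsS y.1 y'.1 := by
  rcases Nat.eq_zero_or_pos r with rfl | hr
  · refine ⟨y, fun f f' h => ?_⟩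
    obtain ⟨φ, hφ⟩ := y.2.1
    have hf : ∀ f : PW.Inv Γ G, y.1 f = f.1 1 := fun f => by
      have hf : f = algebraMap ℂ (PW.Inv Γ G) (f.1 1) := by
        refine Subtype.ext (funext fun ρ => ?_)
        have : ρ = 1 := MonoidHom.ext fun γ => Subtype.ext (Units.ext (Subsingleton.elim _ _))
        rw [this]
        rfl
      rw [← hφ, hf, AlgHom.commutes]
      rfl
    rw [hf, hf, h 1 1 fun _ => Subsingleton.elim _ _, Complex.conj_conj]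
  · obtain ⟨Ψ, h⟩ := PW.L.exists_Flow K hG hr
    exact ⟨⟨Ψ y.1 Real.pi, h.mem_comp hG hP y.2 _⟩, h.isS y.2.1⟩

theorem isS_gen (A : Subalgebra ℂ ((Γ →* G) → ℂ)) (hA : A = PW.Inv Γ G)
    (H : ∀ P ∈ minimalPrimes (PW.Inv Γ G), ∀ y : PW.Comp P, ∃ y' : PW.Comp P, PW.IsS y.1 y'.1)
    {Y : Type} {e : Y → A → ℂ} (hY : ∃ P ∈ minimalPrimes A, ∀ y, y ∈ range e ↔
      (∃ φ : A →ₐ[ℂ] ℂ, ⇑φ = y) ∧ ∀ f ∈ P, y f = 0) (y : Y) : ∃ y', IsS' A (e y) (e y') := by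
  subst hA
  obtain ⟨P, hP, hY⟩ := hY
  obtain ⟨y', h⟩ := H P hP ⟨e y, (hY _).1 ⟨y, rfl⟩⟩
  obtain ⟨z, hz⟩ := (hY _).2 y'.2
  exact ⟨z, hz ▸ h⟩

theorem exists_isS (n r : ℕ) (X : Type) [TopologicalSpace X] [T2Space X] [CompactSpace X]
    [ConnectedSpace X] [ChartedSpace (EC n) X] [IsManifold 𝓘(ℂ, EC n) ω X] (hK : IsKahler n X)
    (x₀ : X) (G : Subgroup (GL (Fin r) ℂ)) (hG : IsRed G)
    (Y : Type) (e : Y → Fn (FundamentalGroup X x₀) G → ℂ) (hY : IsComp (Set.range e)) (y : Y) :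
    ∃ y', IsS (e y) (e y') := by
  obtain ⟨K⟩ := PW.exists_rotSys n X hK x₀
  exact isS_gen (Inv (FundamentalGroup X x₀) G) inv_eq (fun P hP => rot_isS K hG P hP) hY y

end Pool.Agent.PQ
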