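import Pool.Agent.P.MP_65ad7c_ag.QShf
import Pool.Agent.P.MP_65ad7c_ag.QAct
import Pool.Agent.P.MP_65ad7c_ag.QBet
import Pool.Agent.P.MP_65ad7c_ag.QForms

/-! Assembly. -/

noncomputable section
namespace Pool.Agent.PQ

theorem Model.tate {Y : Type} [TopologicalSpace Y] {S : Y → Y → Prop} (M : Model S)
    (h : HasFlow S) (j k : ℕ) : M.W j (2 * k + 1) = M.W j (2 * k) ∧
      (∀ x ∈ M.W j (2 * k) ∩ M.F j (k + 1), ∃ b : Sec M.I (j - 1) ⊤, x = dv j b) ∧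
      ∀ x : Sec M.I j ⊤, dv (j + 1) x = 0 →
        ∃ w ∈ M.W j (2 * k), ∃ f ∈ M.F j (k + 1), x = w + f := by
  obtain ⟨Φ, Φ', h0, h1, h2, h3, h4⟩ := h
  obtain ⟨i, p, hR, hW, hF⟩ := M.isRes
  have := M.R.fin
  obtain ⟨a1, a2, a3⟩ := PQA.fin_sx M.R.π M.ic.sx hR Φ Φ' h0 h1 h2 h3 h4 j k
  rw [hW, hW, hF]
  refine ⟨by rw [a1], fun x hx => ?_, fun x hx => ?_⟩
  · obtain ⟨b, hb⟩ := a2 x hx.1 hx.2
    exact ⟨b, hb.symm⟩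
  · obtain ⟨w, hw, f, hf, e⟩ := Submodule.mem_sup.1 (a3 x hx)
    exact ⟨w, hw, f, hf, e.symm⟩

end Pool.Agent.PQ
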