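import Pool.Agent.P.MP_65ad7c_ag.QN0

/-! Flabby sheaves of vector spaces are injective. -/

open Set Pool.Agent.HT MeasureTheory Filter Topology Metric CategoryTheory TopologicalSpace Opposite
open scoped ContDiff

noncomputable section
namespace Pool.Agent.QN

section
variable {Y : Type} [TopologicalSpace Y]

/-- presheaves of vector spaces -/
abbrev Pre_QNa (Y : Type) [TopologicalSpace Y] := TopCat.Presheaf (ModuleCat.{0} ℂ) (TopCat.of Y)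

/-- restriction -/
def rs_QNa (P : Pre_QNa Y) {V W : Opens Y} (h : W ≤ V) : P.obj (op V) →ₗ[ℂ] P.obj (op W) :=
  (P.map (homOfLE h).op).hom

theorem rs_rs_QNa (P : Pre_QNa Y) {V W T : Opens Y} (h : W ≤ V) (h' : T ≤ W) (s : P.obj (op V)) :
    rs_QNa P h' (rs_QNa P h s) = rs_QNa P (h'.trans h) s := by
  have e := P.map_comp (homOfLE h).op (homOfLE h').op
  exact (congrArg (fun g => g.hom s) e).symm

theorem rs_self_QNa (P : Pre_QNa Y) {V : Opens Y} (h : V ≤ V) (s : P.obj (op V)) :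
    rs_QNa P h s = s := by
  have e := P.map_id (op V)
  exact congrArg (fun g => g.hom s) e

variable {B F : Pre_QNa Y}

/-- restriction of pairs -/
def rp_QNa (B F : Pre_QNa Y) {V W : Opens Y} (h : W ≤ V) :
    B.obj (op V) × F.obj (op V) →ₗ[ℂ] B.obj (op W) × F.obj (op W) :=
  (rs_QNa B h).prodMap (rs_QNa F h)

theorem rp_rp_QNa {V W T : Opens Y} (h : W ≤ V) (h' : T ≤ W) (s : B.obj (op V) × F.obj (op V)) :
    rp_QNa B F h' (rp_QNa B F h s) = rp_QNa B F (h'.trans h) s :=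
  Prod.ext (rs_rs_QNa B h h' s.1) (rs_rs_QNa F h h' s.2)

theorem rp_self_QNa {V : Opens Y} (h : V ≤ V) (s : B.obj (op V) × F.obj (op V)) :
    rp_QNa B F h s = s :=
  Prod.ext (rs_self_QNa B h s.1) (rs_self_QNa F h s.2)

/-- families of subspaces -/
abbrev Gr_QNa (B F : Pre_QNa Y) := ∀ V : Opens Y, Submodule ℂ (B.obj (op V) × F.obj (op V))

/-- graphs that are stable under restriction -/
structure Good_QNa (Γ : Gr_QNa B F) : Prop where
  res : ∀ (V W : Opens Y) (h : W ≤ V), ∀ p ∈ Γ V, rp_QNa B F h p ∈ Γ W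
  gr : ∀ (V : Opens Y) (k : F.obj (op V)), (0, k) ∈ Γ V → k = 0

theorem Good_QNa.uniq {Γ : Gr_QNa B F} (h : Good_QNa Γ) {V : Opens Y} {b : B.obj (op V)}
    {k k' : F.obj (op V)} (h1 : (b, k) ∈ Γ V) (h2 : (b, k') ∈ Γ V) : k = k' := by
  have h3 := sub_mem h1 h2
  rw [Prod.mk_sub_mk, sub_self] at h3
  exact sub_eq_zero.1 (h.gr V _ h3)

theorem max_QNa {Γ0 : Gr_QNa B F} (h0 : Good_QNa Γ0) :
    ∃ Γ, Γ0 ≤ Γ ∧ Maximal (· ∈ {Γ : Gr_QNa B F | Good_QNa Γ}) Γ := by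
  refine zorn_le_nonempty₀ _ (fun c hc hch y hy => ?_) Γ0 h0
  have : Nonempty c := ⟨⟨y, hy⟩⟩
  have hm : ∀ V p, p ∈ (⨆ Γ : c, Γ.1 V) ↔ ∃ Γ : c, p ∈ Γ.1 V := fun V p =>
    Submodule.mem_iSup_of_directed _ fun a b =>
      let ⟨z, hz, h1, h2⟩ := hch.directedOn a.1 a.2 b.1 b.2
      ⟨⟨z, hz⟩, h1 V, h2 V⟩
  refine ⟨fun V => ⨆ Γ : c, Γ.1 V, ⟨fun V W h p hp => ?_, fun V k hk => ?_⟩,
    fun z hz V => le_iSup (fun Γ : c => Γ.1 V) ⟨z, hz⟩⟩
  · obtain ⟨Γ, hΓ⟩ := (hm V p).1 hp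
    exact (hm W _).2 ⟨Γ, (hc Γ.2).res V W h p hΓ⟩
  · obtain ⟨Γ, hΓ⟩ := (hm V _).1 hk
    exact (hc Γ.2).gr V k hΓ

/-- pairs that are locally in the graph -/
def loc_QNa {Γ : Gr_QNa B F} (h : Good_QNa Γ) : Gr_QNa B F := fun V =>
  { carrier := {p | ∀ y ∈ V, ∃ (W : Opens Y) (hW : W ≤ V), y ∈ W ∧ rp_QNa B F hW p ∈ Γ W}
    zero_mem' := fun y hy => ⟨V, le_rfl, hy, by rw [map_zero]; exact zero_mem _⟩
    add_mem' := fun {p q} hp hq y hy => by
      obtain ⟨W, hW, h1, h2⟩ := hp y hy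
      obtain ⟨W', hW', h1', h2'⟩ := hq y hy
      have h3 := h.res _ _ (inf_le_left : W ⊓ W' ≤ W) _ h2
      have h4 := h.res _ _ (inf_le_right : W ⊓ W' ≤ W') _ h2'
      rw [rp_rp_QNa] at h3 h4
      exact ⟨W ⊓ W', inf_le_left.trans hW, ⟨h1, h1'⟩, by rw [map_add]; exact add_mem h3 h4⟩
    smul_mem' := fun a p hp y hy => by
      obtain ⟨W, hW, h1, h2⟩ := hp y hy
      exact ⟨W, hW, h1, by rw [map_smul]; exact Submodule.smul_mem _ a h2⟩ }

theorem loc_good_QNa (hF : F.IsSheaf) {Γ : Gr_QNa B F} (h : Good_QNa Γ) :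
    Good_QNa (loc_QNa h) := by
  refine ⟨fun V V' hV p hp y hy => ?_, fun V k hk => ?_⟩
  · obtain ⟨W, hW, h1, h2⟩ := hp y (hV hy)
    have h3 := h.res _ _ (inf_le_left : W ⊓ V' ≤ W) _ h2
    rw [rp_rp_QNa] at h3
    exact ⟨W ⊓ V', inf_le_right, ⟨h1, hy⟩, by rw [rp_rp_QNa]; exact h3⟩
  · choose W hW h1 h2 using fun y : V => hk y.1 y.2
    refine TopCat.Sheaf.eq_of_locally_eq' (⟨F, hF⟩ : TopCat.Sheaf (ModuleCat.{0} ℂ) (TopCat.of Y))
      W V (fun x => homOfLE (hW x)) (fun y hy => Opens.mem_iSup.2 ⟨⟨y, hy⟩, h1 _⟩) k 0 fun x => ?_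
    have h3 : rp_QNa B F (hW x) (0, k) = (0, rs_QNa F (hW x) k) :=
      Prod.ext (map_zero (rs_QNa B (hW x))) rfl
    exact (h.gr _ _ (h3 ▸ h2 x)).trans (map_zero (rs_QNa F (hW x))).symm

/-- the graph enlarged by one pair -/
def ext_QNa (Γ : Gr_QNa B F) {W : Opens Y} (q : B.obj (op W) × F.obj (op W)) : Gr_QNa B F :=
  fun T =>
  { carrier := {p | ∃ a : ℂ, (∀ h : T ≤ W, p - a • rp_QNa B F h q ∈ Γ T) ∧ (¬T ≤ W → p ∈ Γ T)}
    zero_mem' := ⟨0, fun h => by rw [zero_smul, sub_zero]; exact zero_mem _, fun _ => zero_mem _⟩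
    add_mem' := fun {p p'} ⟨a, h1, h2⟩ ⟨a', h1', h2'⟩ => ⟨a + a', fun h => by
      rw [add_smul, add_sub_add_comm]
      exact add_mem (h1 h) (h1' h), fun h => add_mem (h2 h) (h2' h)⟩
    smul_mem' := fun c p ⟨a, h1, h2⟩ => ⟨c * a, fun h => by
      rw [mul_smul, ← smul_sub]
      exact Submodule.smul_mem _ c (h1 h), fun h => Submodule.smul_mem _ c (h2 h)⟩ }

theorem ext_good_QNa {Γ : Gr_QNa B F} (h : Good_QNa Γ) {W : Opens Y}
    (q : B.obj (op W) × F.obj (op W)) (hq : ∀ (T : Opens Y) (hT : T ≤ W) (k : F.obj (op T)),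
      (rs_QNa B hT q.1, k) ∈ Γ T → rp_QNa B F hT q ∈ Γ T) : Good_QNa (ext_QNa Γ q) := by
  refine ⟨fun T T' hT p ⟨a, h1, h2⟩ => ?_, fun T k ⟨a, h1, h2⟩ => ?_⟩
  · by_cases hW : T ≤ W
    · refine ⟨a, fun _ => ?_, fun h' => (h' (hT.trans hW)).elim⟩
      have h3 := h.res _ _ hT _ (h1 hW)
      rwa [map_sub, map_smul, rp_rp_QNa] at h3
    · have h3 := h.res _ _ hT _ (h2 hW)
      exact ⟨0, fun _ => by rwa [zero_smul, sub_zero], fun _ => h3⟩
  · by_cases hW : T ≤ W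
    · have h3 := h1 hW
      refine h.gr T k ?_
      rcases eq_or_ne a 0 with rfl | ha
      · rwa [zero_smul, sub_zero] at h3
      · have h4 := Submodule.smul_mem _ (-a⁻¹) h3
        have e : (-a⁻¹ • ((0, k) - a • rp_QNa B F hW q)).1 = rs_QNa B hW q.1 := by
          rw [Prod.smul_fst, Prod.fst_sub, Prod.smul_fst, zero_sub, smul_neg, neg_smul, neg_neg,
            smul_smul, inv_mul_cancel₀ ha, one_smul]
          rfl
        have h5 := hq T hW (-a⁻¹ • ((0, k) - a • rp_QNa B F hW q)).2 (e ▸ h4)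
        have h6 := add_mem h3 (Submodule.smul_mem _ a h5)
        rwa [sub_add_cancel] at h6
    · exact h.gr T k (h2 hW)

theorem total_QNa (hF : F.IsSheaf)
    (fl : ∀ (V W : Opens Y) (hle : W ≤ V), Function.Surjective (rs_QNa F hle)) {Γ : Gr_QNa B F}
    (hm : Maximal (· ∈ {Γ : Gr_QNa B F | Good_QNa Γ}) Γ) (W : Opens Y) (b : B.obj (op W)) :
    ∃ k, (b, k) ∈ Γ W := by
  have h : Good_QNa Γ := hm.prop
  have hl : loc_QNa h ≤ Γ := hm.le_of_ge (loc_good_QNa hF h) fun V p hp y hy =>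
    ⟨V, le_rfl, hy, h.res _ _ _ p hp⟩
  let ι := {T : Opens Y // ∃ (hT : T ≤ W) (k : F.obj (op T)), (rs_QNa B hT b, k) ∈ Γ T}
  choose hT κ hκ using fun T : ι => T.2
  obtain ⟨kV, hk, -⟩ := TopCat.Sheaf.existsUnique_gluing
    (⟨F, hF⟩ : TopCat.Sheaf (ModuleCat.{0} ℂ) (TopCat.of Y)) (fun T : ι => T.1) κ fun T T' => by
      have h1 : (rs_QNa B _ (rs_QNa B _ b), rs_QNa F _ (κ T)) ∈ _ :=
        h.res _ _ (inf_le_left : T.1 ⊓ T'.1 ≤ T.1) _ (hκ T)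
      have h2 : (rs_QNa B _ (rs_QNa B _ b), rs_QNa F _ (κ T')) ∈ _ :=
        h.res _ _ (inf_le_right : T.1 ⊓ T'.1 ≤ T'.1) _ (hκ T')
      rw [rs_rs_QNa] at h1 h2
      exact h.uniq h1 h2
  have hV : (⨆ T : ι, T.1) ≤ W := iSup_le hT
  obtain ⟨k, rfl⟩ := fl _ _ hV kV
  have hq : ∀ (T : Opens Y) (hT : T ≤ W) (k' : F.obj (op T)),
      (rs_QNa B hT b, k') ∈ Γ T → rp_QNa B F hT (b, k) ∈ Γ T := fun T hTW k' hk' => by
    have h1 : rs_QNa F (le_iSup (fun T : ι => T.1) ⟨T, hTW, k', hk'⟩) (rs_QNa F hV k) = _ :=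
      hk ⟨T, hTW, k', hk'⟩
    rw [rs_rs_QNa] at h1
    have h2 := hκ ⟨T, hTW, k', hk'⟩
    rw [← h1] at h2
    exact h2
  have he : ext_QNa Γ (b, k) ≤ Γ := hm.le_of_ge (ext_good_QNa h (b, k) hq) fun T p hp =>
    ⟨0, fun _ => by rwa [zero_smul, sub_zero], fun _ => hp⟩
  exact ⟨k, he W ⟨1, fun h' => by
    rw [one_smul, rp_self_QNa, sub_self]
    exact zero_mem _, fun h' => (h' le_rfl).elim⟩⟩

theorem extend_QNa {A : Pre_QNa Y} (hF : F.IsSheaf)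
    (fl : ∀ (V W : Opens Y) (hle : W ≤ V), Function.Surjective (rs_QNa F hle)) (f : A ⟶ B)
    (g : A ⟶ F) (hf : ∀ V, Function.Injective (f.app V).hom) : ∃ e : B ⟶ F, f ≫ e = g := by
  have h0 : Good_QNa (B := B) (F := F) fun V =>
      LinearMap.range ((f.app (op V)).hom.prod (g.app (op V)).hom) := by
    refine ⟨fun V W h p ⟨a, ha⟩ => ⟨rs_QNa A h a, ?_⟩, fun V k ⟨a, ha⟩ => ?_⟩
    · rw [← ha]
      exact Prod.ext (congrArg (fun u => u.hom a) (f.naturality (homOfLE h).op))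
        (congrArg (fun u => u.hom a) (g.naturality (homOfLE h).op))
    · have h1 : a = 0 := hf _ ((congrArg Prod.fst ha).trans (map_zero _).symm)
      rw [h1, map_zero] at ha
      exact (congrArg Prod.snd ha).symm
  obtain ⟨Γ, hΓ, hm⟩ := max_QNa h0
  have h : Good_QNa Γ := hm.prop
  choose φ hφ using total_QNa hF fl hm
  let L : ∀ V : Opens Y, B.obj (op V) →ₗ[ℂ] F.obj (op V) := fun V =>
    { toFun := φ V
      map_add' := fun a b => h.uniq (hφ V _) (add_mem (hφ V a) (hφ V b))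
      map_smul' := fun c a => h.uniq (hφ V _) (Submodule.smul_mem _ c (hφ V a)) }
  refine ⟨⟨fun V => ModuleCat.ofHom (L V.unop), fun V W i => ?_⟩, ?_⟩
  · exact ModuleCat.hom_ext (LinearMap.ext fun s =>
      h.uniq (hφ _ _) (h.res _ _ (leOfHom i.unop) _ (hφ V.unop s)))
  · refine NatTrans.ext (funext fun V => ModuleCat.hom_ext (LinearMap.ext fun a => ?_))
    exact h.uniq (hφ _ _) (hΓ V.unop ⟨a, rfl⟩)

end

theorem injective_of_flabby {Y : Type} [TopologicalSpace Y]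
    (F : TopCat.Presheaf (ModuleCat.{0} ℂ) (TopCat.of Y)) (h : F.IsSheaf)
    (fl : ∀ (V W : Opens Y) (hle : W ≤ V), Function.Surjective (F.map (homOfLE hle).op).hom) :
    Injective (⟨F, h⟩ : TopCat.Sheaf (ModuleCat.{0} ℂ) (TopCat.of Y)) := by
  refine ⟨fun {A B} g f _ => ?_⟩
  have m1 : Mono f.hom := (Sheaf.Hom.mono_iff_presheaf_mono _ _ f).1 inferInstance
  obtain ⟨e, he⟩ := extend_QNa h fl f.hom g.hom fun V =>
    (ModuleCat.mono_iff_injective _).1 ((NatTrans.mono_iff_mono_app f.hom).1 m1 V)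
  exact ⟨⟨e⟩, Sheaf.hom_ext he⟩

end Pool.Agent.QN
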