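import Pool.Agent.P.MP_65ad7c_ag.QN0

/-! The smooth step function. -/

open Set Pool.Agent.HT MeasureTheory Filter Topology Metric
open scoped ContDiff

noncomputable section
namespace Pool.Agent.QN

theorem stp_smooth (l u : ℝ) : ContDiff ℝ ∞ (stp l u) := by
  unfold stp
  exact Real.smoothTransition.contDiff.comp ((contDiff_id.sub contDiff_const).div_const _)

theorem stp_left {l u t : ℝ} (h : l < u) (ht : t ≤ l) : stp l u t = 0 := by
  exact Real.smoothTransition.zero_of_nonpos
    (div_nonpos_of_nonpos_of_nonneg (sub_nonpos.2 ht) (sub_pos.2 h).le)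

theorem stp_right {l u t : ℝ} (h : l < u) (ht : u ≤ t) : stp l u t = 1 := by
  exact Real.smoothTransition.one_of_one_le
    ((one_le_div (sub_pos.2 h)).2 (sub_le_sub_right ht l))

theorem rho_cont (l u : ℝ) : Continuous (rho l u) := by
  exact (stp_smooth l u).continuous_deriv (by simp)

theorem rho_nonneg {l u : ℝ} (h : l < u) (t : ℝ) : 0 ≤ rho l u t := by
  have hm : Monotone (stp l u) := fun a b hab =>
    Real.smoothTransition.monotone
      (div_le_div_of_nonneg_right (sub_le_sub_right hab l) (sub_pos.2 h).le)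
  exact hm.deriv_nonneg

theorem rho_zero {l u t : ℝ} (h : l < u) (ht : t ∉ Icc l u) : rho l u t = 0 := by
  rw [mem_Icc, not_and_or, not_le, not_le] at ht
  rcases ht with ht | ht
  · have e : stp l u =ᶠ[𝓝 t] fun _ => (0 : ℝ) :=
      mem_of_superset (Iio_mem_nhds ht) fun s hs => stp_left h (le_of_lt hs)
    rw [rho, e.deriv_eq, deriv_const]
  · have e : stp l u =ᶠ[𝓝 t] fun _ => (1 : ℝ) :=
      mem_of_superset (Ioi_mem_nhds ht) fun s hs => stp_right h (le_of_lt hs)
    rw [rho, e.deriv_eq, deriv_const]

theorem rho_ne {l u : ℝ} (h : l < u) : ∃ t, rho l u t ≠ 0 := by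
  by_contra hc
  push Not at hc
  have := is_const_of_deriv_eq_zero ((stp_smooth l u).differentiable (by simp)) hc l u
  rw [stp_left h le_rfl, stp_right h le_rfl] at this
  exact zero_ne_one this

end Pool.Agent.QN
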