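import Pool.Agent.P.MP_65ad7c_ag.QN0

/-! Primitives by integration along a coordinate line. -/

open Set Pool.Agent.HT MeasureTheory Filter Topology Metric
open scoped ContDiff

noncomputable section
namespace Pool.Agent.QN

variable {E : Type} [NormedAddCommGroup E] [NormedSpace ℝ E] [FiniteDimensional ℝ E] {m n : ℕ}
  (b : Module.Basis (Fin m) ℝ E)

/-- the homotopy that slides along `e` into the hyperplane `c = a` -/
def G_QNd2 (c : E →L[ℝ] ℝ) (e : E) (a : ℝ) : ℝ × E → E :=
  fun p => p.2 + ((1 - p.1) * (a - c p.2)) • e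

omit [FiniteDimensional ℝ E] in
theorem smooth_QNd2 (c : E →L[ℝ] ℝ) (e : E) (a : ℝ) : ContDiff ℝ ∞ (G_QNd2 c e a) :=
  contDiff_snd.add (((contDiff_const.sub contDiff_fst).mul
    (contDiff_const.sub (c.contDiff.comp contDiff_snd))).smul contDiff_const)

omit [FiniteDimensional ℝ E] in
theorem fd_QNd2 (c : E →L[ℝ] ℝ) (e : E) (a : ℝ) (p u : ℝ × E) :
    fderiv ℝ (G_QNd2 c e a) p u =
      u.2 + (-(u.1 * (a - c p.2)) - (1 - p.1) * c u.2) • e := by
  have h : HasFDerivAt (G_QNd2 c e a) _ p :=
    (hasFDerivAt_snd (𝕜 := ℝ) (p := p)).add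
      ((((hasFDerivAt_fst (𝕜 := ℝ) (p := p)).const_sub 1).mul
        ((c.hasFDerivAt.comp p hasFDerivAt_snd).const_sub a)).smul_const e)
  rw [h.fderiv]
  simp only [add_apply, ContinuousLinearMap.coe_snd',
    ContinuousLinearMap.smulRight_apply, smul_apply,
    neg_apply, ContinuousLinearMap.comp_apply, ContinuousLinearMap.coe_fst',
    Function.comp_apply, smul_eq_mul]
  congr 2
  ring

omit [FiniteDimensional ℝ E] in
theorem alt_QNd2 (f : E [⋀^Fin (n + 1)]→L[ℝ] ℂ) (v : E) (w : Fin n → E) (c : Fin n → ℝ) :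
    f (Fin.cons v fun i => w i + c i • v) = f (Fin.cons v w) := by
  classical
  have key : ∀ s : Finset (Fin n),
      f (Fin.cons v fun i => if i ∈ s then w i + c i • v else w i) = f (Fin.cons v w) := by
    intro s
    induction s using Finset.induction_on with
    | empty => simp
    | insert j s hj ih =>
      have e1 : (fun i => if i ∈ insert j s then w i + c i • v else w i) =
          Function.update (fun i => if i ∈ s then w i + c i • v else w i) j (w j + c j • v) := by
        funext i
        by_cases h : i = j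
        · subst h; simp
        · simp [h]
      have e2 : Function.update (fun i => if i ∈ s then w i + c i • v else w i) j (w j) =
          fun i => if i ∈ s then w i + c i • v else w i := by
        funext i
        by_cases h : i = j
        · subst h; simp [hj]
        · simp [h]
      have e3 : f (Function.update (Fin.cons v fun i => if i ∈ s then w i + c i • v else w i)
          j.succ v) = 0 :=
        f.map_eq_zero_of_eq _ (i := 0) (j := j.succ)
          (by rw [Function.update_of_ne (Fin.succ_ne_zero j).symm]; simp)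
          (Fin.succ_ne_zero j).symm
      rw [e1, Fin.cons_update, f.map_update_add, f.map_update_smul, e3, smul_zero, add_zero,
        ← Fin.cons_update, e2, ih]
  simpa using key Finset.univ

omit [FiniteDimensional ℝ E] in
theorem one_QNd2 (c : E →L[ℝ] ℝ) (e : E) (a : ℝ) (σ : SF E n) :
    σ.pl _ (slice_smooth (smooth_QNd2 c e a) 1) = σ := by
  refine SF.ext (funext fun x => ContinuousAlternatingMap.ext fun v => ?_)
  rw [pl_slice (smooth_QNd2 c e a), pull_apply]
  have e1 : G_QNd2 c e a (1, x) = x := by simp [G_QNd2]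
  have e2 : (fderiv ℝ (G_QNd2 c e a) (1, x) ∘ fun i => (0, v i)) = v := by
    funext i
    simp [fd_QNd2]
  rw [e1, e2]

omit [FiniteDimensional ℝ E] in
theorem nil_QNd2 {c : E →L[ℝ] ℝ} {e : E} (he : c e = 1) {a : ℝ} {σ : SF E n}
    (h0 : ∀ x, c x = a → σ.1 x = 0) : σ.pl _ (slice_smooth (smooth_QNd2 c e a) 0) = 0 := by
  refine SF.ext (funext fun x => ContinuousAlternatingMap.ext fun v => ?_)
  rw [pl_slice (smooth_QNd2 c e a), pull_apply, h0 _ (by simp [G_QNd2, he])]
  rfl

theorem nilK_QNd2 {G : ℝ × E → E} (hG : ContDiff ℝ ∞ G) : (0 : SF E (n + 1)).K G hG = 0 := by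
  refine SF.ext (funext fun x => ContinuousAlternatingMap.ext fun v => ?_)
  rw [SF.K]
  change K0 _ x v = 0
  rw [K0_apply (pull_contDiff hG (0 : SF E (n + 1)).smooth).continuous]
  simp [pull_apply]

theorem K_QNd2 (c : E →L[ℝ] ℝ) (e : E) (a : ℝ) (σ : SF E (n + 1)) (x : E) (w : Fin n → E) :
    (σ.K _ (smooth_QNd2 c e a)).1 x w =
      ∫ s in a..(c x), σ.1 (x + (s - c x) • e) (Fin.cons e w) := by
  rw [SF.K]
  change K0 _ x w = _
  rw [K0_apply (pull_contDiff (smooth_QNd2 c e a) σ.smooth).continuous]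
  have h := intervalIntegral.smul_integral_comp_add_mul (a := 0) (b := 1)
    (fun s => σ.1 (x + (s - c x) • e) (Fin.cons e w)) (c x - a) a
  rw [mul_zero, add_zero, mul_one, add_sub_cancel] at h
  rw [← h, ← intervalIntegral.integral_smul]
  refine intervalIntegral.integral_congr fun t _ => ?_
  have e1 : G_QNd2 c e a (t, x) = x + (a + (c x - a) * t - c x) • e := by
    simp only [G_QNd2]
    congr 2
    ring
  have e2 : (fderiv ℝ (G_QNd2 c e a) (t, x) ∘ Fin.cons (1, 0) fun i => (0, w i)) =
      Fin.cons ((c x - a) • e) fun i => w i + (-((1 - t) * c (w i))) • e := by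
    funext i
    cases i using Fin.cases <;> simp [fd_QNd2]
  simp only [pull_apply]
  rw [e1, e2, ContinuousAlternatingMap.cons_smul, alt_QNd2]

theorem exists_prim (k : Fin m) (a : ℝ) (σ : SF E (n + 1)) (hd : SF.d (n + 1) σ = 0)
    (h0 : ∀ x, b.repr x k = a → σ.1 x = 0) :
    ∃ κ : SF E n, SF.d n κ = σ ∧ ∀ x w, κ.1 x w =
      ∫ s in a..(b.repr x k), σ.1 (x + (s - b.repr x k) • b k) (Fin.cons (b k) w) := by
  have he : LinearMap.toContinuousLinearMap (b.coord k) (b k) = 1 := by simp
  have h := SF.hom_succ (smooth_QNd2 (LinearMap.toContinuousLinearMap (b.coord k)) (b k) a) σ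
  rw [one_QNd2, nil_QNd2 he h0, hd, nilK_QNd2, sub_zero, zero_add] at h
  exact ⟨_, h.symm, fun x w => K_QNd2 _ _ _ _ x w⟩

theorem zero_of_line (k : Fin m) (a : ℝ) (σ : SF E 0) (hd : SF.d 0 σ = 0)
    (h0 : ∀ x, b.repr x k = a → σ.1 x = 0) : σ = 0 := by
  have he : LinearMap.toContinuousLinearMap (b.coord k) (b k) = 1 := by simp
  have h := SF.hom_zero (smooth_QNd2 (LinearMap.toContinuousLinearMap (b.coord k)) (b k) a) σ
  rwa [one_QNd2, nil_QNd2 he h0, hd, nilK_QNd2, sub_zero] at h

end Pool.Agent.QN
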