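import Pool.Agent.P.MP_65ad7c_ag.QNd
import Pool.Agent.P.MP_65ad7c_ag.QNd2

/-! One step of the Poincare lemma with compact supports. -/

open Set Pool.Agent.HT MeasureTheory Filter Topology Metric
open scoped ContDiff

noncomputable section
namespace Pool.Agent.QN

variable {E : Type} [NormedAddCommGroup E] [NormedSpace ℝ E] [FiniteDimensional ℝ E] {m n : ℕ}
  (b : Module.Basis (Fin m) ℝ E) {l u : Fin m → ℝ}

/-- the coordinate as a continuous linear map -/
def crd_QNe (k : Fin m) : E →L[ℝ] ℝ := LinearMap.toContinuousLinearMap (b.coord k)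

theorem crd_apply_QNe (k : Fin m) (x : E) : crd_QNe b k x = b.repr x k := rfl

theorem box_closed : IsClosed (box b l u) := by
  have : box b l u = ⋂ k, crd_QNe b k ⁻¹' Icc (l k) (u k) := by
    ext x
    simp only [box, mem_ofPred_eq, mem_iInter, mem_preimage, crd_apply_QNe]
  rw [this]
  exact isClosed_iInter fun k => isClosed_Icc.preimage (crd_QNe b k).continuous

theorem Off.d {C : Set E} (hC : IsClosed C) {η : SF E n} (h : Off C η) : Off C (SF.d n η) := by
  intro x hx
  have h0 : η.1 =ᶠ[𝓝 x] fun _ => 0 := by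
    filter_upwards [hC.isOpen_compl.mem_nhds hx] with y hy using h y hy
  rw [SF.d_val, h0.extDeriv_eq]
  ext v
  simp [extDeriv, ContinuousAlternatingMap.alternatizeUncurryFin_apply]

omit [FiniteDimensional ℝ E] in
theorem repr_same_QNe (k : Fin m) (x : E) (s : ℝ) :
    b.repr (x + s • b k) k = b.repr x k + s := by
  simp

omit [FiniteDimensional ℝ E] in
theorem repr_ne_QNe {j k : Fin m} (h : j ≠ k) (x : E) (s : ℝ) :
    b.repr (x + s • b k) j = b.repr x j := by
  simp [h.symm]

/-- the step function in the direction `k` -/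
def stpE_QNe (k : Fin m) (p q : ℝ) : E → ℝ := fun x => stp p q (b.repr x k)

theorem stpE_smooth_QNe (k : Fin m) (p q : ℝ) : ContDiff ℝ ∞ (stpE_QNe b k p q) :=
  (stp_smooth p q).comp (crd_QNe b k).contDiff

theorem stpE_fderiv_QNe (k : Fin m) (p q : ℝ) (x v : E) :
    fderiv ℝ (stpE_QNe b k p q) x v = rho p q (b.repr x k) * b.repr v k := by
  have h1 : HasDerivAt (stp p q) (rho p q (b.repr x k)) (crd_QNe b k x) :=
    ((stp_smooth p q).differentiable (by simp) _).hasDerivAt
  have h2 := h1.comp_hasFDerivAt x (crd_QNe b k).hasFDerivAt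
  have h3 : fderiv ℝ (stpE_QNe b k p q) x = rho p q (b.repr x k) • crd_QNe b k := h2.fderiv
  rw [h3]
  rfl

theorem step (hlu : ∀ k, l k < u k) (k : Fin m) (σ : SF E (n + 1)) (hs : Off (box b l u) σ)
    (hd : SF.d (n + 1) σ = 0) :
    ∃ η : SF E n, Off (box b l u) η ∧ Div b k (σ - SF.d n η) ∧ Per b l u k (σ - SF.d n η) ∧
      ∀ j, j ≠ k → (Div b j σ → Div b j (σ - SF.d n η)) ∧
        (Per b l u j σ → Per b l u j (σ - SF.d n η)) := by
  have hz : ∀ x, b.repr x k ∉ Icc (l k) (u k) → σ.1 x = 0 := fun x hx => hs x fun h => hx (h k)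
  obtain ⟨κa, hda, ha⟩ := exists_prim b k (l k - 1) σ hd fun x hx =>
    hz x fun h => by have := h.1; linarith
  obtain ⟨κb, hdb, hb⟩ := exists_prim b k (u k + 1) σ hd fun x hx =>
    hz x fun h => by have := h.2; linarith
  have hint : ∀ x (w : Fin (n + 1) → E) (p q : ℝ), IntervalIntegrable
      (fun s : ℝ => σ.1 (x + (s - b.repr x k) • b k) w) volume p q := fun x w p q => by
    have h1 : Continuous fun y => σ.1 y w :=
      (ContinuousAlternatingMap.apply ℝ E ℂ w).continuous.comp σ.smooth.continuous
    exact (h1.comp (by fun_prop)).intervalIntegrable p q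
  obtain ⟨θ, hθ⟩ : ∃ θ : SF E n, θ = κb - κa := ⟨_, rfl⟩
  have hθd : SF.d n θ = 0 := by rw [hθ, map_sub, hda, hdb, sub_self]
  have hθv : ∀ x w, θ.1 x w = ∫ s in (u k + 1)..(l k - 1),
      σ.1 (x + (s - b.repr x k) • b k) (Fin.cons (b k) w) := fun x w => by
    rw [hθ, SF.val_sub, Pi.sub_apply, ContinuousAlternatingMap.sub_apply, ha, hb,
      ← intervalIntegral.integral_add_adjacent_intervals (hint x _ (u k + 1) (l k - 1))
        (hint x _ (l k - 1) (b.repr x k)), add_sub_cancel_right]
  obtain ⟨η, hη⟩ : ∃ η : SF E n, η = κa + SF.fsmul _ (stpE_smooth_QNe b k (l k) (u k)) n θ :=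
    ⟨_, rfl⟩
  have hτ : ∀ x v, (σ - SF.d n η).1 x v = -(rho (l k) (u k) (b.repr x k) *
      ∑ i : Fin (n + 1), (-1) ^ (i : ℕ) * (b.repr (v i) k * θ.1 x (i.removeNth v))) := by
    intro x v
    have h1 := extDeriv_fsmul_apply (χ := stpE_QNe b k (l k) (u k)) (α := θ.1) (x := x)
      (cda_diff (stpE_smooth_QNe b k (l k) (u k)).contDiffAt) (θ.diff x) v
    have h2 : extDeriv θ.1 x v = 0 := by
      rw [← SF.d_val, hθd]
      rfl
    have h3 : (SF.d n (SF.fsmul _ (stpE_smooth_QNe b k (l k) (u k)) n θ)).1 x v =
        extDeriv (fun y => stpE_QNe b k (l k) (u k) y • θ.1 y) x v := rfl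
    rw [hη, map_add, hda, ← sub_sub, sub_self, zero_sub, SF.val_neg, Pi.neg_apply,
      ContinuousAlternatingMap.neg_apply, h3, h1, h2, mul_zero, zero_add, Finset.mul_sum]
    congr 1
    refine Finset.sum_congr rfl fun i _ => ?_
    rw [stpE_fderiv_QNe]
    push_cast
    ring
  refine ⟨η, fun x hx => ?_, fun x w hw => ?_, fun x s => ?_, fun j hj => ⟨fun h x w hw => ?_,
    fun h x s => ?_⟩⟩
  · obtain ⟨j, hj⟩ : ∃ j, b.repr x j ∉ Icc (l j) (u j) := not_forall.1 hx
    ext w
    have hv : η.1 x w = κa.1 x w + stp (l k) (u k) (b.repr x k) • (κb.1 x w - κa.1 x w) := by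
      rw [hη, hθ]
      rfl
    rw [hv]
    by_cases hjk : j = k
    · subst hjk
      rcases lt_or_ge (b.repr x j) (l j) with h1 | h1
      · have h2 : κa.1 x w = 0 := by
          rw [ha]
          refine (intervalIntegral.integral_congr fun s hs' => ?_).trans
            intervalIntegral.integral_zero
          have h3 : s < l j := lt_of_le_of_lt hs'.2 (max_lt (by linarith) h1)
          show σ.1 _ _ = 0
          rw [hz _ fun h => by
            have h4 := h.1
            rw [repr_same_QNe] at h4
            linarith]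
          rfl
        simp [h2, stp_left (hlu j) h1.le]
      · have h1' : u j < b.repr x j := lt_of_not_ge fun h => hj ⟨h1, h⟩
        have h2 : κb.1 x w = 0 := by
          rw [hb]
          refine (intervalIntegral.integral_congr fun s hs' => ?_).trans
            intervalIntegral.integral_zero
          have h3 : u j < s := lt_of_lt_of_le (lt_min (by linarith) h1') hs'.1
          show σ.1 _ _ = 0
          rw [hz _ fun h => by
            have h4 := h.2
            rw [repr_same_QNe] at h4
            linarith]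
          rfl
        simp [h2, stp_right (hlu j) h1'.le]
    · have h0 : ∀ s : ℝ, σ.1 (x + s • b k) = 0 := fun s => hs _ fun h => hj (by
        have h4 := h j
        rwa [repr_ne_QNe b hjk] at h4)
      simp [ha, hb, h0]
  · rw [hτ]
    simp [hw]
  · ext v
    have h1 : ∀ w, θ.1 (x + s • b k) w = θ.1 x w := fun w => by
      rw [hθv, hθv]
      refine intervalIntegral.integral_congr fun r _ => ?_
      have h2 : x + s • b k + (r - b.repr (x + s • b k) k) • b k = x + (r - b.repr x k) • b k := by
        rw [repr_same_QNe, add_assoc, ← add_smul]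
        congr 2
        ring
      simp only [h2]
    simp only [ContinuousAlternatingMap.smul_apply, hτ, h1, repr_same_QNe, Complex.real_smul]
    ring
  · have h1 : ∀ i : Fin (n + 1), θ.1 x (i.removeNth w) = 0 := fun i => by
      rw [hθv]
      refine (intervalIntegral.integral_congr fun r _ => ?_).trans intervalIntegral.integral_zero
      refine h _ _ fun i' => ?_
      cases i' using Fin.cases with
      | zero => simp [hj.symm]
      | succ i' => exact hw _
    rw [hτ]
    simp [h1]
  · ext v
    have h1 : ∀ w, (rho (l j) (u j) (b.repr x j) : ℂ) * θ.1 (x + s • b j) w =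
        (rho (l j) (u j) (b.repr x j + s) : ℂ) * θ.1 x w := fun w => by
      rw [hθv, hθv, ← intervalIntegral.integral_const_mul, ← intervalIntegral.integral_const_mul]
      refine intervalIntegral.integral_congr fun r _ => ?_
      have h2 := DFunLike.congr_fun (h (x + (r - b.repr x k) • b k) s) (Fin.cons (b k) w)
      rw [repr_ne_QNe b hj] at h2
      simp only [ContinuousAlternatingMap.smul_apply, Complex.real_smul] at h2
      simp only [repr_ne_QNe b hj.symm]
      rw [add_right_comm]
      exact h2
    simp only [ContinuousAlternatingMap.smul_apply, hτ, repr_ne_QNe b hj.symm, Complex.real_smul,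
      Finset.mul_sum, ← Finset.sum_neg_distrib]
    refine Finset.sum_congr rfl fun i _ => ?_
    linear_combination (-(rho (l k) (u k) (b.repr x k) : ℂ) * (-1) ^ (i : ℕ) *
      (b.repr (v i) k : ℂ)) * h1 (i.removeNth v)

end Pool.Agent.QN
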