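import Pool.Agent.P.MP_65ad7c_ag.QNe

/-! The Poincare lemma with compact supports in a box. -/

open Set Pool.Agent.HT MeasureTheory Filter Topology Metric
open scoped ContDiff

noncomputable section
namespace Pool.Agent.QN

variable {E : Type} [NormedAddCommGroup E] [NormedSpace ℝ E] [FiniteDimensional ℝ E] {m n : ℕ}

theorem box_compact (b : Module.Basis (Fin m) ℝ E) (l u : Fin m → ℝ) : IsCompact (box b l u) := by
  have h : box b l u = b.equivFunL.toHomeomorph ⁻¹' Icc l u := by
    ext x
    simp only [box, mem_ofPred_eq, mem_preimage, mem_Icc, Pi.le_def]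
    constructor
    · intro h
      exact ⟨fun k => (h k).1, fun k => (h k).2⟩
    · intro h k
      exact ⟨h.1 k, h.2 k⟩
  rw [h]
  exact (Homeomorph.isCompact_preimage _).2 isCompact_Icc

theorem off_sub_QNf {C : Set E} {a c : SF E n} (ha : Off C a) (hc : Off C c) : Off C (a - c) := by
  intro x hx
  show a.1 x - c.1 x = 0
  rw [ha x hx, hc x hx, sub_zero]

theorem off_add_QNf {C : Set E} {a c : SF E n} (ha : Off C a) (hc : Off C c) : Off C (a + c) := by
  intro x hx
  show a.1 x + c.1 x = 0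
  rw [ha x hx, hc x hx, add_zero]

theorem poin_set_QNf (b : Module.Basis (Fin m) ℝ E) {l u : Fin m → ℝ} (hlu : ∀ k, l k < u k)
    (σ : SF E (n + 1)) (hs : Off (box b l u) σ) (hd : SF.d (n + 1) σ = 0) (S : Finset (Fin m)) :
    ∃ η : SF E n, Off (box b l u) η ∧
      ∀ k ∈ S, Div b k (σ - SF.d n η) ∧ Per b l u k (σ - SF.d n η) := by
  classical
  induction S using Finset.induction_on with
  | empty => exact ⟨0, fun x _ => rfl, fun k hk => absurd hk (Finset.notMem_empty k)⟩
  | insert k S hk ih =>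
    obtain ⟨η, hη, hS⟩ := ih
    have h1 : Off (box b l u) (σ - SF.d n η) := off_sub_QNf hs (Off.d (box_closed b) hη)
    have h2 : SF.d (n + 1) (σ - SF.d n η) = 0 := by
      rw [map_sub, hd, SF.d_d, sub_zero]
    obtain ⟨η', hη', hD, hP, hj⟩ := step b hlu k (σ - SF.d n η) h1 h2
    have he : σ - SF.d n (η + η') = σ - SF.d n η - SF.d n η' := by
      rw [map_add, sub_sub]
    refine ⟨η + η', off_add_QNf hη hη', fun j hjm => ?_⟩
    rw [he]
    by_cases hjk : j = k
    · subst hjk
      exact ⟨hD, hP⟩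
    · have hjS : j ∈ S := (Finset.mem_insert.1 hjm).resolve_left hjk
      exact ⟨(hj j hjk).1 (hS j hjS).1, (hj j hjk).2 (hS j hjS).2⟩

theorem poin_all (b : Module.Basis (Fin m) ℝ E) {l u : Fin m → ℝ} (hlu : ∀ k, l k < u k)
    (σ : SF E (n + 1)) (hs : Off (box b l u) σ) (hd : SF.d (n + 1) σ = 0) :
    ∃ η : SF E n, Off (box b l u) η ∧
      ∀ k, Div b k (σ - SF.d n η) ∧ Per b l u k (σ - SF.d n η) := by
  obtain ⟨η, hη, h⟩ := poin_set_QNf b hlu σ hs hd Finset.univ
  exact ⟨η, hη, fun k => h k (Finset.mem_univ k)⟩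

theorem zero_of_div_QNf (b : Module.Basis (Fin m) ℝ E) (hn : n < m) (τ : SF E n)
    (h : ∀ k, Div b k τ) : τ = 0 := by
  classical
  apply SF.ext'
  funext x
  have key : (τ.1 x).toAlternatingMap.toMultilinearMap = 0 := by
    refine Module.Basis.ext_multilinear (fun _ => b) fun v => ?_
    have hv : ¬ Function.Surjective v := by
      intro hs
      have := Fintype.card_le_of_surjective v hs
      simp only [Fintype.card_fin] at this
      omega
    obtain ⟨k, hk⟩ := not_forall.1 hv
    have hk' : ∀ i, v i ≠ k := fun i hi => hk ⟨i, hi⟩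
    show τ.1 x (fun i => b (v i)) = 0
    refine h k x _ fun i => ?_
    rw [b.repr_self, Finsupp.single_apply, if_neg (hk' i)]
  ext w
  exact congrArg (fun f => f w) key

theorem poin_lt (b : Module.Basis (Fin m) ℝ E) {l u : Fin m → ℝ} (hlu : ∀ k, l k < u k)
    (hn : n < m) (σ : SF E n) (hs : Off (box b l u) σ) (hd : SF.d n σ = 0) :
    ExE (box b l u) n σ := by
  cases n with
  | zero =>
    refine zero_of_line b ⟨0, hn⟩ (l ⟨0, hn⟩ - 1) σ hd fun x hx => hs x fun hb => ?_
    have := (hb ⟨0, hn⟩).1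
    rw [hx] at this
    linarith
  | succ n =>
    obtain ⟨η, hη, h⟩ := poin_all b hlu σ hs hd
    refine ⟨η, hη, ?_⟩
    have := zero_of_div_QNf b hn (σ - SF.d n η) fun k => (h k).1
    exact (sub_eq_zero.1 this).symm

end Pool.Agent.QN
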