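import Pool.Agent.P.MP_65ad7c_ag.QN0

/-! Forms with compact support in a chart are integrable. -/

open Set Pool.Agent.HT MeasureTheory Filter Topology Metric
open scoped ContDiff

noncomputable section
namespace Pool.Agent.QN

variable {N d n m : ℕ} {Z : Set (Amb N)} {O O' : Set (Fin d → ℂ)}
  {f f' : (Fin d → ℂ) → Fin N → ℂ}

theorem mem_Z_QNh (h : IsChart Z O f) {z : Fin d → ℂ} (hz : z ∈ O) : (proj ∘ f) z ∈ Z := by
  obtain ⟨W, -, e⟩ := h.opn O subset_rfl h.isOpen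
  exact (e.subset ⟨z, hz, rfl⟩).1

theorem compact_QNh (h : IsChart Z O f) {K : Set (Amb N)} (hK : IsCompact K)
    (hKO : K ⊆ (proj ∘ f) '' O) : IsCompact (O ∩ (proj ∘ f) ⁻¹' K) := by
  have hinv : ∀ z ∈ O, Function.invFunOn (proj ∘ f) O ((proj ∘ f) z) = z :=
    fun z hz => h.inj.leftInvOn_invFunOn hz
  have e : O ∩ (proj ∘ f) ⁻¹' K = Function.invFunOn (proj ∘ f) O '' K := by
    refine Subset.antisymm (fun z hz => ⟨_, hz.2, hinv z hz.1⟩) ?_
    rintro _ ⟨y, hy, rfl⟩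
    obtain ⟨z, hz, rfl⟩ := hKO hy
    rw [hinv z hz]
    exact ⟨hz, hy⟩
  rw [e]
  refine hK.image_of_continuousOn (_root_.continuousOn_iff'.2 fun U hU => ?_)
  obtain ⟨W, hW, eW⟩ := h.opn (O ∩ U) inter_subset_left (h.isOpen.inter hU)
  refine ⟨W, hW, Subset.antisymm (fun y hy => ⟨?_, hy.2⟩) fun y hy => ⟨?_, hy.2⟩⟩
  · obtain ⟨z, hz, rfl⟩ := hKO hy.2
    have h1 := hy.1
    rw [mem_preimage, hinv z hz] at h1
    exact (eW.subset ⟨z, ⟨hz, h1⟩, rfl⟩).2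
  · obtain ⟨z, hz, rfl⟩ := hKO hy.2
    obtain ⟨w, hw, e'⟩ := eW.superset ⟨mem_Z_QNh h hz, hy.1⟩
    rw [mem_preimage, ← e', hinv w hw.1]
    exact hw.2

theorem pull_zero_off (h : IsChart Z O f) {K : Set (Amb N)} (hK : IsCompact K)
    {α : SF (Amb N) n} (hα : α ∈ Nul (Z \ K) n) {z : Fin d → ℂ} (hz : z ∈ O)
    (hzK : proj (f z) ∉ K) : pull (proj ∘ f) α.1 z = 0 := by
  refine Nul.gen hα ?_
  filter_upwards [h.isOpen.mem_nhds hz,
    (h.smooth hz).continuousAt.preimage_mem_nhds (hK.isClosed.isOpen_compl.mem_nhds hzK)]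
    with y hy hyK
  exact ⟨h.smooth hy, mem_Z_QNh h hy, hyK⟩

theorem chart_integrable (h : IsChart Z O f) {α : SF (Amb N) n}
    (hα : Om.mk Z α ∈ Ac Z ((proj ∘ f) '' O) n) (e : Fin n → Fin d → ℂ) :
    IntegrableOn (fun z => pull (proj ∘ f) α.1 z e) O := by
  obtain ⟨K, hK, hKO, hn⟩ := mem_Ac.1 hα
  have hc : ContinuousOn (fun z => pull (proj ∘ f) α.1 z e) (O ∩ (proj ∘ f) ⁻¹' K) :=
    fun z hz => ((continuous_eval_const e).continuousAt.comp
      (pull_contDiffAt (h.smooth hz.1) α.smooth.contDiffAt).continuousAt).continuousWithinAt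
  refine (hc.integrableOn_compact (compact_QNh h hK hKO)).of_forall_sdiff_eq_zero
    h.isOpen.measurableSet fun z hz => ?_
  rw [pull_zero_off h hK hn hz.1 fun h1 => hz.2 ⟨hz.1, h1⟩]
  rfl

end Pool.Agent.QN
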