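import Pool.Agent.P.MP_65ad7c_ag.QNf2
import Pool.Agent.P.MP_65ad7c_ag.QNg2

/-! The local Poincare lemma with compact supports on the manifold. -/

open Set Pool.Agent.HT MeasureTheory Filter Topology Metric
open scoped ContDiff

noncomputable section
namespace Pool.Agent.QN

variable {N d n m : ℕ} {ι : Type} {Z : Set (Amb N)} {D : ι → Set (Amb N)}

theorem bd_QNj (A : AC d Z D) {C : Set (Fin d → ℂ)} (hC : IsCompact C)
    (hCb : C ⊆ ball A.c A.ρ) {G : Set (Amb N)} (hCG : MapsTo A.ψ C G) {K : Set (Amb N)}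
    (hK : IsCompact K) (hKW : K ⊆ A.W) {a : SF (Amb N) n} (ha : a ∈ Nul (Z \ K) n)
    {σ : SF (Fin d → ℂ) n} (hσ : ∀ z ∈ ball A.c A.ρ, σ.1 z = pull A.ψ a.1 z)
    (he : ExE C n σ) : Om.mk Z a ∈ Bd Z (Z ∩ G) n := by
  cases n with
  | zero =>
    have he' : σ = 0 := he
    have h0 : Om.mk Z a = 0 := Om.mk_eq_zero.2 (nul_of_chart A hK hKW ha fun z hz => by
      rw [← hσ z hz, he']; rfl)
    rw [h0]
    exact Submodule.zero_mem _
  | succ n =>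
    obtain ⟨η, hη, hdη⟩ := he
    obtain ⟨β, hβ, hβη⟩ := of_chart A hC hCb hη
    have hC' : IsCompact (A.ψ '' C) := hC.image A.ψ_smooth.continuous
    have hCW : A.ψ '' C ⊆ A.W := image_subset_iff.2 fun z hz => (A.ψ_mem z (hCb hz)).2
    refine ⟨Om.mk Z β, mem_Ac.2 ⟨_, hC', image_subset_iff.2 fun z hz =>
      ⟨(A.ψ_mem z (hCb hz)).1, hCG hz⟩, hβ⟩, ?_⟩
    refine (Om.d_mk Z β).trans (Om.mk_eq_mk.2 ?_)
    refine nul_of_chart A (hK.union hC') (union_subset hKW hCW)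
      (Submodule.sub_mem _ (Nul.anti (sdiff_subset_sdiff_right subset_union_right) (Nul.d hβ))
        (Nul.anti (sdiff_subset_sdiff_right subset_union_left) ha)) fun z hz => ?_
    have e1 : pull A.ψ β.1 =ᶠ[𝓝 z] η.1 := by
      filter_upwards [isOpen_ball.mem_nhds hz] with y hy using hβη y hy
    have e2 : pull A.ψ (extDeriv β.1) z = σ.1 z := by
      rw [← pull_extDeriv A.ψ_smooth.contDiffAt (β.diff _), e1.extDeriv_eq, ← hdη, SF.d_val]
    have e3 : pull A.ψ (SF.d n β - a).1 z = pull A.ψ (extDeriv β.1) z - pull A.ψ a.1 z := by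
      ext v
      simp [pull_apply]
    rw [e3, e2, hσ z hz, sub_self]

theorem closed_QNj (A : AC d Z D) {C : Set (Fin d → ℂ)} (hC : IsClosed C)
    (hCb : C ⊆ ball A.c A.ρ) {a : SF (Amb N) n} (ha : SF.d n a ∈ Nul Z (n + 1))
    {σ : SF (Fin d → ℂ) n} (hs : Off C σ)
    (hσ : ∀ z ∈ ball A.c A.ρ, σ.1 z = pull A.ψ a.1 z) : SF.d n σ = 0 := by
  refine SF.ext (funext fun z => ?_)
  by_cases hz : z ∈ ball A.c A.ρ
  · have e1 : σ.1 =ᶠ[𝓝 z] pull A.ψ a.1 := by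
      filter_upwards [isOpen_ball.mem_nhds hz] with y hy using hσ y hy
    rw [SF.d_val, e1.extDeriv_eq, pull_extDeriv A.ψ_smooth.contDiffAt (a.diff _)]
    refine Nul.gen ha ?_
    filter_upwards [isOpen_ball.mem_nhds hz] with y hy using
      ⟨A.ψ_smooth.contDiffAt, (A.ψ_mem y hy).1⟩
  · exact Off.d hC hs z fun h => hz (hCb h)

theorem loc_poin (h : Geo d Z D) {b : Module.Basis (Fin m) ℝ (Fin d → ℂ)}
    {lam : Module.Dual ℂ (Om Z m)} (hl : IsLam Z b lam) {x : Amb N} (hx : x ∈ Z)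
    {G : Set (Amb N)} (hG : IsOpen G) (hxG : x ∈ G) :
    ∃ G', IsOpen G' ∧ x ∈ G' ∧ G' ⊆ G ∧
      (∀ n < m, ∀ α ∈ Ac Z (Z ∩ G') n, Om.d Z n α = 0 → α ∈ Bd Z (Z ∩ G) n) ∧
      ∀ α ∈ Ac Z (Z ∩ G') m, lam α = 0 → α ∈ Bd Z (Z ∩ G) m := by
  obtain ⟨A, rfl⟩ := h.chart x hx
  have hc : A.c ∈ ball A.c A.ρ := mem_ball_self A.ρ_pos
  have hO : ball A.c A.ρ ∩ A.ψ ⁻¹' G ∈ 𝓝 A.c :=
    (isOpen_ball.inter (hG.preimage A.ψ_smooth.continuous)).mem_nhds ⟨hc, hxG⟩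
  obtain ⟨l, u, hlu, hsub, hnb⟩ := exists_box b hO
  have hCb : box b l u ⊆ ball A.c A.ρ := fun z hz => (hsub hz).1
  have hCG : MapsTo A.ψ (box b l u) G := fun z hz => (hsub hz).2
  have key : ∀ (n : ℕ) (a : SF (Amb N) n),
      Om.mk Z a ∈ Ac Z (Z ∩ (G ∩ A.W ∩ A.φ ⁻¹' interior (box b l u))) n →
      ∃ σ : SF (Fin d → ℂ) n, Off (box b l u) σ ∧
        (∀ z ∈ ball A.c A.ρ, σ.1 z = pull A.ψ a.1 z) ∧
        (ExE (box b l u) n σ → Om.mk Z a ∈ Bd Z (Z ∩ G) n) := by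
    intro n a ha
    obtain ⟨K, hK, hKU, hn⟩ := mem_Ac.1 ha
    obtain ⟨σ, hs, hσ⟩ := to_chart A hK (fun y hy => ⟨(hKU hy).1, (hKU hy).2.1.2⟩) hn
    refine ⟨σ, fun z hz => hs z fun hz' => hz ?_, hσ, fun he =>
      bd_QNj A (box_compact b l u) hCb hCG hK (fun y hy => (hKU hy).2.1.2) hn hσ he⟩
    obtain ⟨y, hy, rfl⟩ := hz'
    exact interior_subset (hKU hy).2.2
  refine ⟨G ∩ A.W ∩ A.φ ⁻¹' interior (box b l u),
    (hG.inter A.W_open).inter (isOpen_interior.preimage A.φ_smooth.continuous),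
    ⟨⟨hxG, (A.ψ_mem _ hc).2⟩, ?_⟩, fun y hy => hy.1.1, fun n hn α hα hd => ?_,
    fun α hα h0 => ?_⟩
  · rw [mem_preimage, A.φψ _ hc]
    exact mem_interior_iff_mem_nhds.2 hnb
  · obtain ⟨a, rfl⟩ := Om.mk_surj α
    obtain ⟨σ, hs, hσ, he⟩ := key n a hα
    exact he (poin_lt b hlu hn σ hs
      (closed_QNj A (box_closed b) hCb (Om.mk_eq_zero.1 hd) hs hσ))
  · obtain ⟨a, rfl⟩ := Om.mk_surj α
    obtain ⟨σ, hs, hσ, he⟩ := key m a hα
    refine he (poin_top volume b hlu σ hs ?_)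
    have h1 := hl _ _ (ac_isChart A) a (by
      rw [ac_image]
      exact Ac.mono Z (inter_subset_inter_right _ fun y hy => hy.1.2) hα)
    rw [h0] at h1
    rw [← setIntegral_eq_integral_of_forall_compl_eq_zero (s := ball A.c A.ρ)
      (fun z hz => by rw [hs z fun h' => hz (hCb h')]; rfl), h1]
    refine setIntegral_congr_fun measurableSet_ball fun z hz => ?_
    rw [ac_pull A _ hz, hσ z hz]

end Pool.Agent.QN
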