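import Pool.Agent.P.MP_65ad7c_ag.QN0

/-! The canonical resolution datum. -/

open Set CategoryTheory TopologicalSpace Opposite

noncomputable section
namespace Pool.Agent.PQ

open Pool.Agent.HT (SF Om)

variable {Y : Type} [TopologicalSpace Y] {N d : ℕ} {ι : Type} {Z : Set (Amb N)}
  {D : ι → Set (Amb N)} (π : C(↥(Z \ ⋃ a, D a), Y))

variable (d) in
/-- The canonical pairing. -/
def kev {j : ℕ} {V : Opens Y} (q : ℕ) (l : Sec (PW.Kx d π) j V) (α : Form N q) : ℂ :=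
  if h : q + j = 2 * d then
    ofDual ((show ∀ q : {q // q + j = 2 * d}, Module.Dual ℂ (HT.Ac Z (PW.up π V) q.1) from l)
      ⟨q, h⟩) α
  else 0

/-- The value of a section on a class. -/
def kv {j : ℕ} {V : Opens Y} (l : Sec (PW.Kx d π) j V) (q : ℕ) (h : q + j = 2 * d) :
    Module.Dual ℂ (HT.Ac Z (PW.up π V) q) :=
  (show ∀ q : {q // q + j = 2 * d}, Module.Dual ℂ (HT.Ac Z (PW.up π V) q.1) from l) ⟨q, h⟩

variable {π} {j : ℕ} {V W : Opens Y}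

theorem kev_eq {q : ℕ} (h : q + j = 2 * d) (l : Sec (PW.Kx d π) j V) (α : Form N q) :
    kev d π q l α = ofDual (kv π l q h) α := dif_pos h

theorem kv_ext {l l' : Sec (PW.Kx d π) j V} (h : ∀ q hq α, kv π l q hq α = kv π l' q hq α) :
    l = l' := funext fun q => LinearMap.ext fun α => h q.1 q.2 α

theorem kv_zero (q : ℕ) (h : q + j = 2 * d) : kv π (0 : Sec (PW.Kx d π) j V) q h = 0 := rfl

theorem kv_add (l l' : Sec (PW.Kx d π) j V) (q : ℕ) (h : q + j = 2 * d) :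
    kv π (l + l') q h = kv π l q h + kv π l' q h := rfl

theorem kv_sub (l l' : Sec (PW.Kx d π) j V) (q : ℕ) (h : q + j = 2 * d) :
    kv π (l - l') q h = kv π l q h - kv π l' q h := rfl

theorem kv_smul (a : ℂ) (l : Sec (PW.Kx d π) j V) (q : ℕ) (h : q + j = 2 * d) :
    kv π (a • l) q h = a • kv π l q h := rfl

theorem kv_rs (hle : W ≤ V) (l : Sec (PW.Kx d π) j V) (q : ℕ) (h : q + j = 2 * d)
    (α : HT.Ac Z (PW.up π W) q) :
    kv π (rs hle l) q h α = kv π l q h ⟨α.1, PW.ac_mono π hle q α.2⟩ := rfl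

theorem kv_dv (l : Sec (PW.Kx d π) j V) (q : ℕ) (h : q + (j + 1) = 2 * d)
    (α : HT.Ac Z (PW.up π V) q) : kv π (dv (j + 1) l) q h α =
      kv π l (q + 1) (by omega) ⟨Om.d Z q α.1, PW.ac_d _ q α.1 α.2⟩ :=
  PW.S.dualCx_dv j V l ⟨q, h⟩ α

theorem exists_kv (q : ℕ) (h : q + j = 2 * d) (lam : Module.Dual ℂ (HT.Ac Z (PW.up π V) q)) :
    ∃ l : Sec (PW.Kx d π) j V, kv π l q h = lam := by
  classical
  exact ⟨(Pi.single ⟨q, h⟩ lam : ∀ q : {q // q + j = 2 * d},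
    Module.Dual ℂ (HT.Ac Z (PW.up π V) q.1)), Pi.single_eq_same (M := fun q : {q // q + j = 2 * d} =>
      Module.Dual ℂ (HT.Ac Z (PW.up π V) q.1)) _ _⟩

theorem kev_ne_QNk {q : ℕ} (h : ¬q + j = 2 * d) (l : Sec (PW.Kx d π) j V) (α : Form N q) :
    kev d π q l α = 0 := dif_neg h

theorem kev_cl_QNk {q : ℕ} (h : q + j = 2 * d) (l : Sec (PW.Kx d π) j V) (α : SF (Amb N) q)
    (hα : cl Z α ∈ HT.Ac Z (PW.up π V) q) : kev d π q l α.1 = kv π l q h ⟨cl Z α, hα⟩ :=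
  (kev_eq h l α.1).trans (ofDual_cl _ α hα)

theorem ofDual_lin_QNk {q : ℕ} {U : Set (Amb N)} (a : ℂ) (f g : Module.Dual ℂ (HT.Ac Z U q))
    (α : Form N q) : ofDual (a • f + g) α = a * ofDual f α + ofDual g α := by
  unfold ofDual
  split_ifs
  · rw [LinearMap.add_apply, LinearMap.smul_apply, smul_eq_mul]
  · rw [mul_zero, add_zero]

theorem kev_lin_QNk (q : ℕ) (a : ℂ) (l l' : Sec (PW.Kx d π) j V) (α : Form N q) :
    kev d π q (a • l + l') α = a * kev d π q l α + kev d π q l' α := by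
  by_cases h : q + j = 2 * d
  · rw [kev_eq h, kev_eq h, kev_eq h, kv_add, kv_smul, ofDual_lin_QNk]
  · rw [kev_ne_QNk h, kev_ne_QNk h, kev_ne_QNk h, mul_zero, add_zero]

theorem kev_isFun_QNk (q : ℕ) (l : Sec (PW.Kx d π) j V) : IsFun Z (PW.up π V) (kev d π q l) := by
  by_cases h : q + j = 2 * d
  · rw [funext (kev_eq h l)]
    exact isFun_ofDual _
  · rw [funext (kev_ne_QNk h l)]
    exact ⟨fun a _ _ _ _ => by rw [mul_zero, add_zero], fun _ _ _ => rfl⟩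

theorem kev_inj_QNk (l : Sec (PW.Kx d π) j V)
    (h : ∀ q, q + j = 2 * d → ∀ α, Ac Z (PW.up π V) α → kev d π q l α = 0) : l = 0 := by
  refine kv_ext fun q hq α => ?_
  obtain ⟨α, hα⟩ := α
  obtain ⟨β, rfl⟩ := Submodule.Quotient.mk_surjective _ α
  exact (kev_cl_QNk hq l β hα).symm.trans (h q hq β.1 ((ac_iff β).1 hα))

theorem kev_surj_QNk (q : ℕ) (h : q + j = 2 * d) (φ : Form N q → ℂ)
    (hφ : IsFun Z (PW.up π V) φ) :
    ∃ l : Sec (PW.Kx d π) j V, ∀ α, Ac Z (PW.up π V) α → kev d π q l α = φ α := by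
  obtain ⟨l, hl⟩ := exists_kv (π := π) (V := V) q h (toDual φ hφ)
  refine ⟨l, fun α hα => ?_⟩
  have h1 := (ac_iff (⟨α, hα.1⟩ : SF (Amb N) q)).2 hα
  refine (kev_cl_QNk h l ⟨α, hα.1⟩ h1).trans ?_
  rw [hl]
  exact toDual_cl hφ ⟨α, hα.1⟩ h1

theorem kev_rs_QNk (q : ℕ) (hle : W ≤ V) (l : Sec (PW.Kx d π) j V) (α : Form N q)
    (hα : Ac Z (PW.up π W) α) : kev d π q (rs hle l) α = kev d π q l α := by
  by_cases h : q + j = 2 * d
  · have h1 := (ac_iff (⟨α, hα.1⟩ : SF (Amb N) q)).2 hα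
    exact (kev_cl_QNk h (rs hle l) ⟨α, hα.1⟩ h1).trans ((kv_rs hle l q h _).trans
      (kev_cl_QNk h l ⟨α, hα.1⟩ (PW.ac_mono π hle q h1)).symm)
  · rw [kev_ne_QNk h, kev_ne_QNk h]

theorem kev_dv_QNk (q : ℕ) (l : Sec (PW.Kx d π) j V) (α : Form N q)
    (hα : Ac Z (PW.up π V) α) : kev d π q (dv (j + 1) l) α = kev d π (q + 1) l (dd α) := by
  by_cases h : q + (j + 1) = 2 * d
  · have h1 := (ac_iff (⟨α, hα.1⟩ : SF (Amb N) q)).2 hα
    exact (kev_cl_QNk h (dv (j + 1) l) ⟨α, hα.1⟩ h1).trans ((kv_dv l q h _).trans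
      (kev_cl_QNk (by omega) l (SF.d q ⟨α, hα.1⟩) (PW.ac_d _ q _ h1)).symm)
  · rw [kev_ne_QNk h, kev_ne_QNk (by omega)]

variable (π) in
/-- The canonical resolution datum. -/
def kres [Finite ι] (h : IsSNC d Z D) : Res Y where
  N := N
  d := d
  ι := ι
  fin := inferInstance
  Z := Z
  D := D
  snc := h
  π := π
  up := PW.up π
  up_eq _ := rfl
  K := PW.Kx d π
  ev q l α := kev d π q l α
  lin _ _ q := kev_lin_QNk q
  isFun _ _ q := kev_isFun_QNk q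
  inj _ _ := kev_inj_QNk
  surj _ _ q := kev_surj_QNk q
  ev_rs _ _ _ q := kev_rs_QNk q
  ev_dv _ _ q := kev_dv_QNk q

end Pool.Agent.PQ
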