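import Pool.Agent.P.MP_65ad7c_ag.QNc
import Pool.Agent.P.MP_65ad7c_ag.QNj
import Pool.Agent.P.MP_65ad7c_ag.QNk

/-! The local cohomology of the complex of duals of compactly supported forms. -/

open Set CategoryTheory TopologicalSpace Opposite

noncomputable section
namespace Pool.Agent.PQ

open Pool.Agent.HT (SF Om Geo)
open Pool.Agent.QN

variable {Y : Type} [TopologicalSpace Y] {N d : ℕ} {ι : Type} {Z : Set (Amb N)}
  {D : ι → Set (Amb N)} {π : C(↥(Z \ ⋃ a, D a), Y)} {j : ℕ} {V : Opens Y}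

theorem van_bot (c : Sec (PW.Kx d π) j V) : Van ⊥ c := by
  refine kv_ext fun q hq α => ?_
  have h0 : PW.up π (V ⊓ ⊥) = ∅ := by simp [PW.up]
  have h1 : α = 0 := by
    have h2 : α.1 ∈ HT.Ac Z ∅ q := h0 ▸ α.2
    rw [ac_empty] at h2
    exact Subtype.ext h2
  rw [h1, map_zero, map_zero]

theorem exact_top (I : PCx Y) (x : Y) (n : ℕ) : ExactAt I ⊤ x n := by
  refine ⟨fun V hx c hc => ⟨V ⊓ ⊤, inf_le_left, 0, ⟨hx, trivial⟩, ?_, ?_⟩⟩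
  · exact map_zero _
  · exact (map_zero _).trans hc.van.symm

variable [Finite ι] {b : Module.Basis (Fin (2 * d)) ℝ (Fin d → ℂ)}
  {lam : Module.Dual ℂ (Om Z (2 * d))}

/-- the local Poincare lemma in terms of open sets of `Y` -/
theorem loc_Y (h : Geo d Z D) (hπ : IsHomeomorph π) (hl : IsLam Z b lam) {x : Y} (hx : x ∈ V) :
    ∃ W : Opens Y, W ≤ V ∧ x ∈ W ∧
      (∀ n < 2 * d, ∀ α ∈ HT.Ac Z (PW.up π W) n, Om.d Z n α = 0 → α ∈ Bd Z (PW.up π V) n) ∧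
      ∀ α ∈ HT.Ac Z (PW.up π W) (2 * d), lam α = 0 → α ∈ Bd Z (PW.up π V) (2 * d) := by
  obtain ⟨G, hG, e⟩ := up_open h π V
  obtain ⟨u, rfl⟩ := hπ.surjective x
  have hu : u.1 ∈ Z ∩ G := e ▸ (⟨u, hx, rfl⟩ : u.1 ∈ PW.up π V)
  obtain ⟨G', hG', huG', hsub, h1, h2⟩ := loc_poin h hl hu.1 hG hu.2
  let W : Opens Y := ⟨π '' (Subtype.val ⁻¹' G'),
    hπ.isOpenMap _ (hG'.preimage continuous_subtype_val)⟩
  have hW : PW.up π W ⊆ Z ∩ G' := by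
    rintro _ ⟨v, ⟨w, hw, hwv⟩, rfl⟩
    obtain rfl := hπ.injective hwv
    exact ⟨w.2.1, hw⟩
  refine ⟨W, ?_, ⟨u, huG', rfl⟩, fun n hn α hα hd => ?_, fun α hα hd => ?_⟩
  · rintro _ ⟨v, hv, rfl⟩
    have h3 : v.1 ∈ PW.up π V := e ▸ (⟨v.2.1, hsub hv⟩ : v.1 ∈ Z ∩ G)
    obtain ⟨w, hw, hwv⟩ := h3
    obtain rfl := Subtype.ext hwv
    exact hw
  · rw [e]
    exact h1 n hn α (HT.Ac.mono Z hW hα) hd
  · rw [e]
    exact h2 α (HT.Ac.mono Z hW hα) hd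

theorem kv_bd {c : Sec (PW.Kx d π) j V} (hc : dv (j + 1) c = 0) (q : ℕ) (hq : q + j = 2 * d)
    (α : HT.Ac Z (PW.up π V) q) (hα : α.1 ∈ Bd Z (PW.up π V) q) : kv π c q hq α = 0 := by
  cases q with
  | zero =>
    have h1 : α = 0 := Subtype.ext hα
    rw [h1, map_zero]
  | succ q =>
    obtain ⟨β, hβ, e⟩ := hα
    have h1 := kv_dv c q (by omega) ⟨β, hβ⟩
    rw [hc, kv_zero] at h1
    have h2 : α = ⟨Om.d Z q β, PW.ac_d _ q β hβ⟩ := Subtype.ext e.symm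
    rw [h2]
    exact h1.symm

theorem kx_exact (h : Geo d Z D) (hπ : IsHomeomorph π) (hl : IsLam Z b lam) (x : Y) {n : ℕ}
    (hn : 0 < n) : ExactAt (PW.Kx d π) ⊥ x n := by
  obtain ⟨n, rfl⟩ : ∃ n', n = n' + 1 := ⟨n - 1, by omega⟩
  refine ⟨fun V hx c hc => ?_⟩
  obtain ⟨W, hW, hxW, h1, -⟩ := loc_Y h hπ hl hx
  by_cases hq : ∃ q, q + (n + 1) = 2 * d
  · obtain ⟨q, hq⟩ := hq
    let δ : HT.Ac Z (PW.up π W) q →ₗ[ℂ] HT.Ac Z (PW.up π W) (q + 1) :=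
      (Om.d Z q).restrict (PW.ac_d _ q)
    have h2 : kv π (rs hW c) q hq ∈ (LinearMap.ker δ).dualAnnihilator := by
      refine (Submodule.mem_dualAnnihilator _).2 fun α hα => ?_
      rw [kv_rs]
      exact kv_bd hc.cyc q hq _ (h1 q (by omega) α.1 α.2 (congrArg Subtype.val hα))
    rw [← LinearMap.range_dualMap_eq_dualAnnihilator_ker] at h2
    obtain ⟨μ, hμ⟩ := h2
    have hq1 : q + 1 + n = 2 * d := by omega
    obtain ⟨l, hl'⟩ := exists_kv (π := π) (V := W) (q + 1) hq1 μ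
    refine ⟨W, hW, l, hxW, van_bot l, kv_ext fun q' hq' α => ?_⟩
    obtain rfl : q' = q := by omega
    refine (kv_dv l q' hq' α).trans ?_
    rw [hl', ← hμ]
    rfl
  · exact ⟨W, hW, 0, hxW, van_bot _, kv_ext fun q' hq' _ => (hq ⟨q', hq'⟩).elim⟩

end Pool.Agent.PQ
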