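import Pool.Agent.P.MP_65ad7c_ag.QNl
import Pool.Agent.P.MP_65ad7c_ag.QNi2

/-! The fundamental class generates the cohomology in degree zero. -/

open Set CategoryTheory TopologicalSpace Opposite

noncomputable section
namespace Pool.Agent.PQ

open Pool.Agent.HT (SF Om Geo)
open Pool.Agent.QN

variable {Y : Type} [TopologicalSpace Y] {N d : ℕ} {ι : Type} {Z : Set (Amb N)}
  {D : ι → Set (Amb N)} {π : C(↥(Z \ ⋃ a, D a), Y)} {j : ℕ} {V : Opens Y}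

variable [Finite ι] {b : Module.Basis (Fin (2 * d)) ℝ (Fin d → ℂ)}
  {lam : Module.Dual ℂ (Om Z (2 * d))}

variable {one : Sec (PW.Kx d π) 0 ⊤}

omit [Finite ι] in
theorem key_QNl2 (h : Geo d Z D) {t : ℕ} (ht : t + 0 = 2 * d) {e : Fin t → Fin d → ℂ}
    {lam : Module.Dual ℂ (Om Z t)} (hl : IsLam Z e lam) (h1 : ∀ α, kv π one t ht α = lam α.1)
    (q : ℕ) (hq : q + (0 + 1) = 2 * d) (α : HT.Ac Z (PW.up π ⊤) q) :
    kv π (dv (0 + 1) one) q hq α = 0 := by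
  obtain rfl : t = q + 1 := by omega
  rw [kv_dv]
  exact (h1 _).trans (hl.stokes h α.1)

theorem smul_QNl2 {A : Type} [AddCommGroup A] [Module ℂ A] (φ ψ : Module.Dual ℂ A)
    (h : ∀ α, ψ α = 0 → φ α = 0) : ∃ a : ℂ, ∀ α, φ α = a * ψ α := by
  by_cases h0 : ∃ β, ψ β ≠ 0
  · obtain ⟨β, hβ⟩ := h0
    refine ⟨φ β / ψ β, fun α => ?_⟩
    have h1 := h (ψ β • α - ψ α • β) (by simp [mul_comm])
    rw [map_sub, map_smul, map_smul, smul_eq_mul, smul_eq_mul] at h1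
    field_simp
    linear_combination h1
  · push Not at h0
    exact ⟨0, fun α => by rw [h α (h0 α), zero_mul]⟩

theorem one_closed (h : Geo d Z D) (hl : IsLam Z b lam)
    (h1 : ∀ α, kv π one (2 * d) rfl α = lam α.1) : Cyc ⊥ one := by
  exact ⟨kv_ext fun q hq α => key_QNl2 h rfl hl h1 q hq α, van_bot one⟩

theorem one_ne (h : Geo d Z D) (hπ : IsHomeomorph π) (hl : IsLam Z b lam)
    (h1 : ∀ α, kv π one (2 * d) rfl α = lam α.1) (V : Opens Y) (hV : V ≠ ⊥) :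
    rs (le_top : V ≤ ⊤) one ≠ 0 := by
  intro h0
  obtain ⟨x, hx⟩ : (V : Set Y).Nonempty := (Opens.ne_bot_iff_nonempty V).1 hV
  obtain ⟨z, rfl⟩ := hπ.surjective x
  obtain ⟨W, hW, e⟩ := up_open h π V
  have hz : z.1 ∈ Z ∩ W := e ▸ ⟨z, hx, rfl⟩
  obtain ⟨α, hα, hne⟩ := hl.ne h hz.1 hW hz.2
  rw [← e] at hα
  have h2 := kv_rs (le_top : V ≤ ⊤) one (2 * d) rfl ⟨α, hα⟩
  rw [h0, h1] at h2
  exact hne h2.symm

theorem one_gen (h : Geo d Z D) (hπ : IsHomeomorph π) (hl : IsLam Z b lam)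
    (h1 : ∀ α, kv π one (2 * d) rfl α = lam α.1) (V : Opens Y) (x : Y) (hx : x ∈ V)
    (c : Sec (PW.Kx d π) 0 V) (hc : Cyc ⊥ c) :
    ∃ a : ℂ, LocBd ⊥ x (c - a • rs (le_top : V ≤ ⊤) one) := by
  obtain ⟨W, hW, hxW, -, h2⟩ := loc_Y h hπ hl hx
  obtain ⟨a, ha⟩ := smul_QNl2 (kv π (rs hW c) (2 * d) rfl)
    (lam.comp (HT.Ac Z (PW.up π W) (2 * d)).subtype) fun α hα => by
      rw [kv_rs]
      exact kv_bd hc.cyc _ _ _ (h2 α.1 α.2 hα)
  refine ⟨a, W, hW, 0, hxW, van_bot _, ?_⟩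
  have h3 : dv 0 (0 : Sec (PW.Kx d π) (0 - 1) W) = 0 := map_zero _
  rw [h3]
  refine kv_ext fun q hq α => ?_
  obtain rfl : q = 2 * d := hq
  have h4 := ha α
  rw [kv_rs] at h4
  rw [kv_rs, kv_sub, kv_smul, LinearMap.sub_apply, LinearMap.smul_apply, kv_rs, h1, h4]
  exact (sub_self _).symm

end Pool.Agent.PQ
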