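import Pool.Agent.P.MP_65ad7c_ag.QNl2
import Pool.Agent.P.MP_65ad7c_ag.QNi

/-! A model exists when the space is the complement of the divisor. -/

open Set CategoryTheory TopologicalSpace Opposite

noncomputable section
namespace Pool.Agent.PQ

open Pool.Agent.HT (SF Om Geo)
open Pool.Agent.QN

variable {Y : Type} [TopologicalSpace Y] {N d : ℕ} {ι : Type} {Z : Set (Amb N)}
  {D : ι → Set (Amb N)} {π : C(↥(Z \ ⋃ a, D a), Y)}

/-- the trivial stratification -/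
def triv : ℕ → Opens Y
  | 0 => ⊥
  | _ + 1 => ⊤

theorem y_chart [Finite ι] (h : Geo d Z D) (hπ : IsHomeomorph π) (x : Y) :
    ∃ (W : Opens Y) (φ : W → Fin d → ℂ), x ∈ W ∧ Topology.IsOpenEmbedding φ := by
  let e := hπ.homeomorph
  obtain ⟨A, hA⟩ := h.chart (e.symm x).1 (e.symm x).2.1
  have hc : Continuous fun y : Y => (e.symm y).1 := continuous_subtype_val.comp e.symm.continuous
  let W : Opens Y := ⟨(fun y : Y => (e.symm y).1) ⁻¹' A.W, A.W_open.preimage hc⟩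
  refine ⟨W, fun y => A.φ (e.symm y.1).1, ?_, ?_⟩
  · change (e.symm x).1 ∈ A.W
    rw [← hA]
    exact (A.ψ_mem _ (Metric.mem_ball_self A.ρ_pos)).2
  · have hz : ∀ y : W, A.ψ (A.φ (e.symm y.1).1) = (e.symm y.1).1 := fun y =>
      A.ψφ _ ⟨(e.symm y.1).2.1, y.2⟩
    refine .of_continuous_injective_isOpenMap
      (A.φ_smooth.continuous.comp (hc.comp continuous_subtype_val)) (fun y y' hy => ?_) ?_
    · refine Subtype.ext (e.symm.injective (Subtype.ext ?_))
      rw [← hz y, ← hz y']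
      exact congrArg A.ψ hy
    · intro S hS
      obtain ⟨G, hG, eG⟩ := up_open h π ⟨Subtype.val '' S, W.2.isOpenMap_subtype_val S hS⟩
      have : (fun y : W => A.φ (e.symm y.1).1) '' S = Metric.ball A.c A.ρ ∩ A.ψ ⁻¹' G := by
        ext z
        constructor
        · rintro ⟨y, hy, rfl⟩
          refine ⟨A.φ_mem _ y.2, ?_⟩
          rw [mem_preimage, hz y]
          exact (eG.subset ⟨e.symm y.1, ⟨y, hy, (e.apply_symm_apply y.1).symm⟩, rfl⟩).2
        · rintro ⟨h1, h2⟩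
          obtain ⟨u, ⟨y, hy, hu⟩, hu'⟩ := eG.superset ⟨(A.ψ_mem z h1).1, h2⟩
          refine ⟨y, hy, ?_⟩
          have : e.symm y.1 = u := by rw [hu]; exact e.symm_apply_apply u
          change A.φ (e.symm y.1).1 = z
          rw [this, hu', A.φψ z h1]
      rw [this]
      exact Metric.isOpen_ball.inter (hG.preimage A.ψ_smooth.continuous)

theorem rs_rs_QNm {I : PCx Y} {n : ℕ} {V W T : Opens Y} (h : W ≤ V) (h' : T ≤ W) (c : Sec I n V) :
    rs h' (rs h c) = rs (h'.trans h) c := by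
  unfold rs
  rw [← ModuleCat.comp_apply, ← Functor.map_comp]
  rfl

theorem dv_zero_QNm {I : PCx Y} {V : Opens Y} (c : Sec I 0 V) : dv 0 c = 0 := by
  unfold dv ap
  rw [I.shape 0 0 (by simp)]
  rfl

theorem kx_ic [Finite ι] (h : Geo d Z D) (hπ : IsHomeomorph π)
    {b : Module.Basis (Fin (2 * d)) ℝ (Fin d → ℂ)} {lam : Module.Dual ℂ (Om Z (2 * d))}
    (hl : IsLam Z b lam) {one : Sec (PW.Kx d π) 0 ⊤}
    (h1 : ∀ α, kv π one (2 * d) rfl α = lam α.1) : IsIC d triv (PW.Kx d π) one := by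
  have hc := one_closed h hl h1
  refine ⟨monotone_nat_of_le_succ fun _ => le_top, rfl, rfl, fun c x hx => ?_,
    kx_inj h π d, hc, fun V _ hV => one_ne h hπ hl h1 V hV,
    fun V _ x hx c hc => one_gen h hπ hl h1 V x hx c hc,
    fun _ x _ n hn _ => kx_exact h hπ hl x hn, fun c hc x _ n _ => ?_, fun c n => ⟨fun x hx => ?_⟩⟩
  · rcases c with _ | c
    · obtain ⟨W, φ, hW, hφ⟩ := y_chart h hπ x
      have e : ((W : Set Y) ∩ ((triv (0 + 1) : Opens Y) \ (triv 0 : Opens Y))) = W :=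
        inter_eq_left.2 fun y _ => ⟨trivial, id⟩
      exact ⟨W, φ ∘ Homeomorph.setCongr e, hW, hφ.comp (Homeomorph.setCongr e).isOpenEmbedding⟩
    · exact (hx.2 trivial).elim
  · obtain ⟨c, rfl⟩ := Nat.exists_eq_add_one.2 hc
    exact exact_top _ x n
  · rcases c with _ | c
    swap
    · exact (hx.2 trivial).elim
    rcases n with _ | n
    · refine ⟨⊤, Submodule.span ℂ {one}, trivial, fun b hb => ?_, fun y _ _ => ⟨fun b hb hy => ?_,
        fun V hV c hy hc => ?_⟩⟩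
      · obtain ⟨a, rfl⟩ := Submodule.mem_span_singleton.1 hb
        refine ⟨?_, van_bot _⟩
        exact (map_smul (ModuleCat.Hom.hom _) a one).trans (by
          rw [show (ModuleCat.Hom.hom _) one = _ from hc.cyc, smul_zero])
      · obtain ⟨a, rfl⟩ := Submodule.mem_span_singleton.1 hb
        obtain ⟨W, hW, b, hy, -, e⟩ := hy.bd
        have e' : a • rs hW one = 0 :=
          (map_smul (ModuleCat.Hom.hom _) a one).symm.trans (e.symm.trans (dv_zero_QNm b))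
        rcases smul_eq_zero.1 e' with h0 | h0
        · rw [h0, zero_smul]
        · exact (one_ne h hπ hl h1 W (fun hb => by rw [hb] at hy; exact hy) h0).elim
      · obtain ⟨a, ha⟩ := one_gen h hπ hl h1 V y hy c hc
        refine ⟨a • one, Submodule.mem_span_singleton.2 ⟨a, rfl⟩, ?_⟩
        rwa [show rs hV (a • one) = a • rs hV one from map_smul (ModuleCat.Hom.hom _) a one]
    · refine ⟨⊤, ⊥, trivial, fun b hb => ?_, fun y _ _ => ⟨fun b hb _ => hb,
        fun V hV c hy hc => ⟨0, zero_mem _, ?_⟩⟩⟩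
      · rw [show b = 0 from hb]
        exact ⟨map_zero (ModuleCat.Hom.hom _), van_bot _⟩
      · rw [show rs hV (0 : Sec (PW.Kx d π) (n + 1) ⊤) = 0 from map_zero (ModuleCat.Hom.hom _),
          sub_zero]
        exact (kx_exact h hπ hl y n.succ_pos).ex V hy c hc

theorem model_smooth (S : Y → Y → Prop) (N d : ℕ) (ι : Type) [Finite ι] (Z : Set (Amb N))
    (D : ι → Set (Amb N)) (h : IsSNC d Z D) (π : ↥(Z \ ⋃ a, D a) ≃ₜ Y) (cjZ : MapsTo cj Z Z)
    (cjD : ∀ a, ∃ b, MapsTo cj (D a) (D b))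
    (cjπ : ∀ u u', u'.1 = cj u.1 → S (π u) (π u')) :
    ∃ M : Model S, M.R.N = N ∧ M.R.ι = ι ∧ HEq M.R.Z Z ∧ HEq M.R.D D ∧ M.I = M.R.K ∧
      HEq M.p (𝟙 M.I) := by
  have hg := h.ht.geo'
  obtain ⟨b, hb⟩ := exists_fr d
  obtain ⟨lam, hl⟩ := exists_lam hg b
  let p : C(↥(Z \ ⋃ a, D a), Y) := π
  obtain ⟨one, h1⟩ := exists_kv (π := p) (d := d) (j := 0) (V := ⊤) (2 * d) rfl
    (lam.domRestrict _)
  have hid : ∀ j (l : Sec (PW.Kx d p) j ⊤), mp (𝟙 (PW.Kx d p) ≫ 𝟙 (PW.Kx d p)) l = l := fun _ _ => rfl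
  have e : (fun (i : Fin (2 * d)) (k : Fin d) =>
      if (k : ℕ) = i / 2 then Complex.I ^ ((i : ℕ) % 2) else 0) = fr d := by
    funext i k
    rw [fr, Pi.single_apply]
    simp only [Fin.ext_iff]
  have hi : IsInt d Z (PW.up p ⊤) (kev d p (2 * d) one) := ⟨fun O f hf α h2 h3 => by
    rw [e, ← hb, kev_eq rfl, h1]
    exact (ofDual_cl _ ⟨α, h2.1⟩ ((ac_iff ⟨α, h2.1⟩).2 h2)).trans
      (hl O f (chart_iff.1 hf) ⟨α, h2.1⟩ ((ac_iff ⟨α, h2.1⟩).2 h3))⟩
  exact ⟨⟨kres p h, triv, PW.Kx d p, one,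
    kx_ic hg π.isHomeomorph hl fun α => by rw [h1]; rfl, cjZ, cjD, cjπ, 𝟙 _, 𝟙 _,
    ⟨Homotopy.ofEq (Category.comp_id _)⟩, hi,
    fun j _ l hl => (hid j l).symm ▸ hl, fun j _ l hl => (hid j l).symm ▸ hl,
    fun j _ l hl => (hid j l).symm ▸ hl⟩, rfl, rfl, HEq.rfl, HEq.rfl, rfl, HEq.rfl⟩

end Pool.Agent.PQ
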