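import Pool.Agent.P.MP_65ad7c_ag.RBase

open MeasureTheory Set Filter Topology Metric Matrix
open scoped ComplexOrder ContDiff Matrix.Norms.Frobenius RealInnerProductSpace ENNReal
open Pool.Agent.Lib.Sob

noncomputable section
namespace Pool.Agent.PW

variable {n r : ℕ} {A : EC n →L[ℝ] Mat r} {β : EC n →L[ℝ] EC n →L[ℝ] Mat r}
  {G : Fin n → Fin n → Fin n → Fin n → ℂ}

theorem JFlat.ralg_eq (h : JFlat A β) (v w : EC n) :
    β v w = β w v - (A v * A w - A w * A v) := by
  have := h v w
  rw [cm, sub_eq_iff_eq_add] at this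
  rw [this]; abel

theorem JFlat.d11_sub (h : JFlat A β) (l j : Fin n) :
    d11 β l j - d11 β j l = -cm (d1 A l) (d1 A j) := by
  simp only [d11, d1, cm]
  rw [h.ralg_eq (EuclideanSpace.single l 1) (EuclideanSpace.single j 1),
    h.ralg_eq (EuclideanSpace.single l 1) (EuclideanSpace.single j Complex.I),
    h.ralg_eq (EuclideanSpace.single l Complex.I) (EuclideanSpace.single j 1),
    h.ralg_eq (EuclideanSpace.single l Complex.I) (EuclideanSpace.single j Complex.I)]
  simp only [Matrix.mul_sub, Matrix.sub_mul, Matrix.smul_mul, Matrix.mul_smul]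
  module

theorem JFlat.d22_sub (h : JFlat A β) (m k : Fin n) :
    d22 β m k - d22 β k m = -cm (d2 A m) (d2 A k) := by
  simp only [d22, d2, cm]
  rw [h.ralg_eq (EuclideanSpace.single m 1) (EuclideanSpace.single k 1),
    h.ralg_eq (EuclideanSpace.single m 1) (EuclideanSpace.single k Complex.I),
    h.ralg_eq (EuclideanSpace.single m Complex.I) (EuclideanSpace.single k 1),
    h.ralg_eq (EuclideanSpace.single m Complex.I) (EuclideanSpace.single k Complex.I)]
  simp only [Matrix.mul_add, Matrix.add_mul, Matrix.smul_mul, Matrix.mul_smul]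
  module

theorem JFlat.d21_sub (h : JFlat A β) (m j : Fin n) :
    d21 β m j - d12 β j m = -cm (d2 A m) (d1 A j) := by
  simp only [d21, d12, d1, d2, cm]
  rw [h.ralg_eq (EuclideanSpace.single m 1) (EuclideanSpace.single j 1),
    h.ralg_eq (EuclideanSpace.single m 1) (EuclideanSpace.single j Complex.I),
    h.ralg_eq (EuclideanSpace.single m Complex.I) (EuclideanSpace.single j 1),
    h.ralg_eq (EuclideanSpace.single m Complex.I) (EuclideanSpace.single j Complex.I)]
  simp only [Matrix.mul_add, Matrix.add_mul, Matrix.mul_sub, Matrix.sub_mul, Matrix.smul_mul,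
    Matrix.mul_smul]
  module

theorem ralg_swap3 (f : Fin n → Fin n → Fin n → ℂ) :
    ∑ a, ∑ b, ∑ c, f a b c = ∑ a, ∑ b, ∑ c, f c b a := by
  calc ∑ a, ∑ b, ∑ c, f a b c = ∑ a, ∑ c, ∑ b, f a b c :=
        Finset.sum_congr rfl fun a _ => Finset.sum_comm
    _ = ∑ c, ∑ a, ∑ b, f a b c := Finset.sum_comm
    _ = ∑ c, ∑ b, ∑ a, f a b c := Finset.sum_congr rfl fun c _ => Finset.sum_comm

/-- contraction with `G` -/
def ralgS (G F : Fin n → Fin n → Fin n → Fin n → ℂ) : ℂ :=
  ∑ j, ∑ k, ∑ l, ∑ m, G j k l m * F j k l m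

theorem ralgS_add (F F' : Fin n → Fin n → Fin n → Fin n → ℂ) :
    ralgS G (fun j k l m => F j k l m + F' j k l m) = ralgS G F + ralgS G F' := by
  simp only [ralgS, mul_add, Finset.sum_add_distrib]

theorem ralgS_sub (F F' : Fin n → Fin n → Fin n → Fin n → ℂ) :
    ralgS G (fun j k l m => F j k l m - F' j k l m) = ralgS G F - ralgS G F' := by
  simp only [ralgS, mul_sub, Finset.sum_sub_distrib]

theorem ralgS_mul (c : ℂ) (F : Fin n → Fin n → Fin n → Fin n → ℂ) :
    ralgS G (fun j k l m => c * F j k l m) = c * ralgS G F := by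
  simp only [ralgS, Finset.mul_sum, mul_left_comm c]

theorem ralgS_swap13 (hG : Anti G) (F : Fin n → Fin n → Fin n → Fin n → ℂ) :
    ralgS G (fun j k l m => F l k j m) = -ralgS G F := by
  simp only [ralgS]
  rw [ralg_swap3 fun j k l => ∑ m, G j k l m * F l k j m]
  simp only [← Finset.sum_neg_distrib]
  refine Finset.sum_congr rfl fun j _ => Finset.sum_congr rfl fun k _ =>
    Finset.sum_congr rfl fun l _ => Finset.sum_congr rfl fun m _ => ?_
  rw [hG.1 j k l m, neg_mul]

theorem ralgS_swap24 (hG : Anti G) (F : Fin n → Fin n → Fin n → Fin n → ℂ) :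
    ralgS G (fun j k l m => F j m l k) = -ralgS G F := by
  simp only [ralgS, ← Finset.sum_neg_distrib]
  refine Finset.sum_congr rfl fun j _ => ?_
  rw [ralg_swap3 fun k l m => G j k l m * F j m l k]
  refine Finset.sum_congr rfl fun k _ =>
    Finset.sum_congr rfl fun l _ => Finset.sum_congr rfl fun m _ => ?_
  rw [hG.2 j k l m, neg_mul]

theorem ralgS_anti13 (hG : Anti G) {F F' : Fin n → Fin n → Fin n → Fin n → ℂ}
    (hF : ∀ j k l m, F j k l m - F l k j m = 2 * F' j k l m) : ralgS G F = ralgS G F' := by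
  have h1 := ralgS_sub (G := G) F fun j k l m => F l k j m
  simp only [hF] at h1
  rw [ralgS_mul, ralgS_swap13 hG F] at h1
  linear_combination (-2⁻¹ : ℂ) * h1

theorem ralgS_anti24 (hG : Anti G) {F F' : Fin n → Fin n → Fin n → Fin n → ℂ}
    (hF : ∀ j k l m, F j k l m - F j m l k = 2 * F' j k l m) : ralgS G F = ralgS G F' := by
  have h1 := ralgS_sub (G := G) F fun j k l m => F j m l k
  simp only [hF] at h1
  rw [ralgS_mul, ralgS_swap24 hG F] at h1
  linear_combination (-2⁻¹ : ℂ) * h1

theorem ralgS_swap (hG : Anti G) (F : Fin n → Fin n → Fin n → Fin n → ℂ) :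
    ralgS G (fun j k l m => F l m j k) = ralgS G F := by
  rw [ralgS_swap13 hG fun j k l m => F j m l k, ralgS_swap24 hG, neg_neg]

/-- antisymmetrisation in `(l, j)` -/
theorem JFlat.sum_d11 (h : JFlat A β) (hG : Anti G) (Y : Fin n → Fin n → Mat r) :
    ∑ j, ∑ k, ∑ l, ∑ m, G j k l m * (d11 β l j * Y k m).trace =
      ∑ j, ∑ k, ∑ l, ∑ m, G j k l m * (-2⁻¹ * (cm (d1 A l) (d1 A j) * Y k m).trace) := by
  refine ralgS_anti13 hG fun j k l m => ?_
  rw [← trace_sub, ← Matrix.sub_mul, h.d11_sub, Matrix.neg_mul, trace_neg]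
  ring

/-- antisymmetrisation in `(m, k)` -/
theorem JFlat.sum_d22 (h : JFlat A β) (hG : Anti G) (Y : Fin n → Fin n → Mat r) :
    ∑ j, ∑ k, ∑ l, ∑ m, G j k l m * (Y j l * d22 β m k).trace =
      ∑ j, ∑ k, ∑ l, ∑ m, G j k l m * (-2⁻¹ * (Y j l * cm (d2 A m) (d2 A k)).trace) := by
  refine ralgS_anti24 hG fun j k l m => ?_
  rw [← trace_sub, ← Matrix.mul_sub, h.d22_sub, Matrix.mul_neg, trace_neg]
  ring

theorem JFlat.SF_eq_SF2 (h : JFlat A β) (hG : Anti G) : SF G A β = SF2 G β := by
  have h1 : ralgS G (fun j k l m => (d11 β l j * d22 β m k).trace) =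
      ralgS G (fun j k l m => -2⁻¹ * (cm (d1 A l) (d1 A j) * d22 β m k).trace) :=
    h.sum_d11 hG fun k m => d22 β m k
  have h2 : ralgS G (fun j k l m => (cm (d1 A l) (d1 A j) * d22 β m k).trace) =
      ralgS G (fun j k l m => -2⁻¹ * (cm (d1 A l) (d1 A j) * cm (d2 A m) (d2 A k)).trace) :=
    h.sum_d22 hG fun j l => cm (d1 A l) (d1 A j)
  change ralgS G _ = ralgS G _
  rw [ralgS_mul] at h1 h2
  rw [ralgS_sub, ralgS_sub, ralgS_mul, h1, h2]
  ring

theorem ralg_tr (a a' b b' : Mat r) :
    (cm a b * cm a' b').trace - (cm a b' * cm a' b).trace = -(cm a' a * cm b b').trace := by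
  have e1 : (b' * (a * (b * a'))).trace = (a * (b * (a' * b'))).trace := by
    rw [trace_mul_comm]; simp only [Matrix.mul_assoc]
  have e2 : (b * (a * (b' * a'))).trace = (a * (b' * (a' * b))).trace := by
    rw [trace_mul_comm]; simp only [Matrix.mul_assoc]
  have e3 : (a' * (a * (b * b'))).trace = (a * (b * (b' * a'))).trace := by
    rw [trace_mul_comm]; simp only [Matrix.mul_assoc]
  have e4 : (a' * (a * (b' * b))).trace = (a * (b' * (b * a'))).trace := by
    rw [trace_mul_comm]; simp only [Matrix.mul_assoc]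
  have e5 : (b * (a * (a' * b'))).trace = (a * (a' * (b' * b))).trace := by
    rw [trace_mul_comm]; simp only [Matrix.mul_assoc]
  have e6 : (b' * (a * (a' * b))).trace = (a * (a' * (b * b'))).trace := by
    rw [trace_mul_comm]; simp only [Matrix.mul_assoc]
  simp only [cm, Matrix.mul_sub, Matrix.sub_mul, Matrix.mul_assoc, trace_sub]
  rw [e1, e2, e3, e4, e5, e6]
  ring

theorem JFlat.ralg_d21 (h : JFlat A β) (m j : Fin n) :
    d21 β m j = SN β j m + (2 : ℂ)⁻¹ • cm (d1 A j) (d2 A m) := by
  have h1 := h.d21_sub m j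
  simp only [SN, cm] at h1 ⊢
  linear_combination (norm := module) (2 : ℂ)⁻¹ • h1

theorem JFlat.ralg_d12 (h : JFlat A β) (l k : Fin n) :
    d12 β l k = SN β l k - (2 : ℂ)⁻¹ • cm (d1 A l) (d2 A k) := by
  have h1 := h.d21_sub k l
  simp only [SN, cm] at h1 ⊢
  linear_combination (norm := module) (-(2 : ℂ)⁻¹) • h1

/-- the integrand in terms of `N` and `[a, a]` -/
theorem JFlat.SF_eq (h : JFlat A β) (hG : Anti G) :
    SF G A β = ∑ j, ∑ k, ∑ l, ∑ m, G j k l m * ((SN β j m * SN β l k).trace -
      8⁻¹ * (cm (d1 A l) (d1 A j) * cm (d2 A m) (d2 A k)).trace) := by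
  have h1 : ∀ j k l m, (d21 β m j * d12 β l k).trace =
      (SN β j m * SN β l k).trace + 2⁻¹ * (cm (d1 A j) (d2 A m) * SN β l k).trace -
        2⁻¹ * (cm (d1 A l) (d2 A k) * SN β j m).trace -
        4⁻¹ * (cm (d1 A j) (d2 A m) * cm (d1 A l) (d2 A k)).trace := by
    intro j k l m
    rw [h.ralg_d21, h.ralg_d12, trace_mul_comm (cm (d1 A l) (d2 A k)) (SN β j m)]
    simp only [Matrix.mul_sub, Matrix.add_mul, Matrix.smul_mul, Matrix.mul_smul, trace_sub,
      trace_add, trace_smul, smul_eq_mul]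
    ring
  have h2 := ralgS_swap hG fun j k l m => (cm (d1 A j) (d2 A m) * SN β l k).trace
  have h3 : ralgS G (fun j k l m => (cm (d1 A j) (d2 A m) * cm (d1 A l) (d2 A k)).trace) =
      ralgS G (fun j k l m => -2⁻¹ * (cm (d1 A l) (d1 A j) * cm (d2 A m) (d2 A k)).trace) := by
    refine ralgS_anti24 hG fun j k l m => ?_
    rw [ralg_tr]; ring
  change ralgS G _ = ralgS G _
  simp only [h1]
  rw [ralgS_mul] at h3
  rw [ralgS_sub, ralgS_sub, ralgS_sub, ralgS_sub, ralgS_add, ralgS_mul, ralgS_mul, ralgS_mul,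
    ralgS_mul, ralgS_mul, h2, h3]
  ring

theorem ralg_ind (P : EC n → Prop) (h0 : P 0) (ha : ∀ v w, P v → P w → P (v + w))
    (hs : ∀ (c : ℝ) v, P v → P (c • v)) (h1 : ∀ j, P (EuclideanSpace.single j 1))
    (hI : ∀ j, P (EuclideanSpace.single j Complex.I)) (v : EC n) : P v := by
  have hv : v = ∑ j, ((v j).re • EuclideanSpace.single j (1 : ℂ) +
      (v j).im • EuclideanSpace.single j Complex.I) := by
    ext i
    simp [Finset.sum_apply, Pi.single_apply, Finset.sum_add_distrib]
  rw [hv]
  exact Finset.sum_induction _ P ha h0 fun j _ => ha _ _ (hs _ _ (h1 j)) (hs _ _ (hI j))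

theorem ralg_I1 (j : Fin n) :
    Complex.I • EuclideanSpace.single j (1 : ℂ) = (EuclideanSpace.single j Complex.I : EC n) := by
  ext i; simp

theorem ralg_II (j : Fin n) :
    Complex.I • EuclideanSpace.single j Complex.I = -(EuclideanSpace.single j 1 : EC n) := by
  ext i; by_cases hi : i = j <;> simp [hi]

theorem ralg_split {P Q : Mat r} (h1 : P - Complex.I • Q = 0) (h2 : P + Complex.I • Q = 0) :
    P = 0 ∧ Q = 0 := by
  have hP : P = 0 := by linear_combination (norm := module) (2 : ℂ)⁻¹ • h1 + (2 : ℂ)⁻¹ • h2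
  refine ⟨hP, ?_⟩
  rw [hP, zero_add] at h2
  exact (smul_eq_zero.1 h2).resolve_left Complex.I_ne_zero

theorem ralg_cm1 (p q p' q' : Mat r) :
    (cm p p' - cm q q') - Complex.I • (cm p q' + cm q p') =
      (4 : ℂ) • cm ((2 : ℂ)⁻¹ • (p - Complex.I • q)) ((2 : ℂ)⁻¹ • (p' - Complex.I • q')) := by
  simp only [cm, Matrix.mul_sub, Matrix.sub_mul, Matrix.smul_mul, Matrix.mul_smul]
  match_scalars <;> ring_nf <;> simp

theorem ralg_cm2 (p q p' q' : Mat r) :
    (cm p p' - cm q q') + Complex.I • (cm p q' + cm q p') =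
      (4 : ℂ) • cm ((2 : ℂ)⁻¹ • (p + Complex.I • q)) ((2 : ℂ)⁻¹ • (p' + Complex.I • q')) := by
  simp only [cm, Matrix.mul_add, Matrix.add_mul, Matrix.smul_mul, Matrix.mul_smul]
  match_scalars <;> ring_nf <;> simp

theorem ralg_bil {V : Type} [AddCommGroup V] [Module ℝ V] (B : EC n → EC n → V)
    (ha : ∀ u v w, B (u + v) w = B u w + B v w) (hs : ∀ (c : ℝ) v w, B (c • v) w = c • B v w)
    (ha' : ∀ u v w, B u (v + w) = B u v + B u w) (hs' : ∀ (c : ℝ) v w, B v (c • w) = c • B v w)
    (h11 : ∀ l j, B (EuclideanSpace.single l 1) (EuclideanSpace.single j 1) = 0)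
    (h12 : ∀ l j, B (EuclideanSpace.single l 1) (EuclideanSpace.single j Complex.I) = 0)
    (h21 : ∀ l j, B (EuclideanSpace.single l Complex.I) (EuclideanSpace.single j 1) = 0)
    (h22 : ∀ l j, B (EuclideanSpace.single l Complex.I) (EuclideanSpace.single j Complex.I) = 0)
    (v w : EC n) : B v w = 0 := by
  have z : ∀ w, B 0 w = 0 := fun w => by simpa using hs 0 0 w
  have z' : ∀ v, B v 0 = 0 := fun v => by simpa using hs' 0 v 0
  have key : ∀ v, (∀ j, B v (EuclideanSpace.single j 1) = 0) →
      (∀ j, B v (EuclideanSpace.single j Complex.I) = 0) → ∀ w, B v w = 0 := fun v k1 k2 =>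
    ralg_ind (fun w => B v w = 0) (z' v) (fun a b h1 h2 => by rw [ha', h1, h2, add_zero])
      (fun c a h1 => by rw [hs', h1, smul_zero]) k1 k2
  exact ralg_ind (fun v => B v w = 0) (z w) (fun a b h1 h2 => by rw [ha, h1, h2, add_zero])
    (fun c a h1 => by rw [hs, h1, smul_zero]) (fun l => key _ (h11 l) (h12 l) w)
    (fun l => key _ (h21 l) (h22 l) w) v

/-- pluriharmonicity from the vanishing of `N` and of the commutators -/
theorem JFlat.ph (h : JFlat A β) (hN : ∀ j k, SN β j k = 0)
    (ha : ∀ j l, cm (d1 A l) (d1 A j) = 0) (hb : ∀ k m, cm (d2 A m) (d2 A k) = 0) :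
    PH1 A ∧ PH2 β := by
  have hc : ∀ l j,
      cm (A (EuclideanSpace.single l 1)) (A (EuclideanSpace.single j 1)) -
        cm (A (EuclideanSpace.single l Complex.I)) (A (EuclideanSpace.single j Complex.I)) = 0 ∧
      cm (A (EuclideanSpace.single l 1)) (A (EuclideanSpace.single j Complex.I)) +
        cm (A (EuclideanSpace.single l Complex.I)) (A (EuclideanSpace.single j 1)) = 0 := by
    intro l j
    refine ralg_split ?_ ?_
    · rw [ralg_cm1]; exact (congrArg ((4 : ℂ) • ·) (ha j l)).trans (smul_zero _)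
    · rw [ralg_cm2]; exact (congrArg ((4 : ℂ) • ·) (hb j l)).trans (smul_zero _)
  have hd : ∀ l j,
      β (EuclideanSpace.single l 1) (EuclideanSpace.single j 1) +
        β (EuclideanSpace.single l Complex.I) (EuclideanSpace.single j Complex.I) +
        β (EuclideanSpace.single j 1) (EuclideanSpace.single l 1) +
        β (EuclideanSpace.single j Complex.I) (EuclideanSpace.single l Complex.I) = 0 ∧
      β (EuclideanSpace.single l 1) (EuclideanSpace.single j Complex.I) -
        β (EuclideanSpace.single l Complex.I) (EuclideanSpace.single j 1) -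
        β (EuclideanSpace.single j 1) (EuclideanSpace.single l Complex.I) +
        β (EuclideanSpace.single j Complex.I) (EuclideanSpace.single l 1) = 0 := by
    intro l j
    refine ralg_split ?_ ?_
    · refine Eq.trans ?_ ((congrArg ((8 : ℂ) • ·) (hN j l)).trans (smul_zero _))
      simp only [SN, d21, d12, d1, d2]
      match_scalars <;> ring_nf <;> simp
    · refine Eq.trans ?_ ((congrArg ((8 : ℂ) • ·) (hN l j)).trans (smul_zero _))
      simp only [SN, d21, d12, d1, d2]
      match_scalars <;> ring_nf <;> simp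
  constructor
  · intro v w
    rw [← sub_eq_zero]
    refine ralg_bil (fun v w => cm (A (Complex.I • v)) (A (Complex.I • w)) - cm (A v) (A w))
      ?_ ?_ ?_ ?_ ?_ ?_ ?_ ?_ v w
    · intro u v w
      simp only [smul_add, map_add, cm, Matrix.mul_add, Matrix.add_mul]; abel
    · intro c v w
      simp only [smul_comm Complex.I c, map_smul, cm, Matrix.smul_mul, Matrix.mul_smul, smul_sub]
    · intro u v w
      simp only [smul_add, map_add, cm, Matrix.mul_add, Matrix.add_mul]; abel
    · intro c v w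
      simp only [smul_comm Complex.I c, map_smul, cm, Matrix.smul_mul, Matrix.mul_smul, smul_sub]
    all_goals
      intro l j
      obtain ⟨c1, c2⟩ := hc l j
      simp only [ralg_I1, ralg_II, map_neg, cm, Matrix.mul_neg, Matrix.neg_mul] at c1 c2 ⊢
    · linear_combination (norm := abel) -c1
    · linear_combination (norm := abel) -c2
    · linear_combination (norm := abel) -c2
    · linear_combination (norm := abel) c1
  · intro v w
    rw [← sub_eq_zero]
    refine ralg_bil (fun v w => β v (Complex.I • w) - β w (Complex.I • v))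
      ?_ ?_ ?_ ?_ ?_ ?_ ?_ ?_ v w
    · intro u v w
      simp only [smul_add, map_add, _root_.add_apply]; abel
    · intro c v w
      simp only [smul_comm Complex.I c, map_smul, _root_.smul_apply, smul_sub]
    · intro u v w
      simp only [smul_add, map_add, _root_.add_apply]; abel
    · intro c v w
      simp only [smul_comm Complex.I c, map_smul, _root_.smul_apply, smul_sub]
    all_goals
      intro l j
      obtain ⟨c1, c2⟩ := hc l j
      obtain ⟨e1, e2⟩ := hd l j
      have f11 := h (EuclideanSpace.single l 1) (EuclideanSpace.single j 1)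
      have f12 := h (EuclideanSpace.single l 1) (EuclideanSpace.single j Complex.I)
      have f21 := h (EuclideanSpace.single l Complex.I) (EuclideanSpace.single j 1)
      have f22 := h (EuclideanSpace.single l Complex.I) (EuclideanSpace.single j Complex.I)
      simp only [ralg_I1, ralg_II, map_neg]
    · linear_combination (norm := module) (2 : ℂ)⁻¹ • (e2 + f12 + f21 - c2)
    · linear_combination (norm := module) (-(2 : ℂ)⁻¹) • (e1 + f11 - f22 - c1)
    · linear_combination (norm := module) (2 : ℂ)⁻¹ • (e1 - f11 + f22 + c1)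
    · linear_combination (norm := module) (2 : ℂ)⁻¹ • (e2 - f12 - f21 + c2)

end Pool.Agent.PW
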