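import Pool.Agent.P.MP_65ad7c_ag.Base

/-! Definitions for sections 2 and 3. -/

open MeasureTheory Set Filter Topology Metric Matrix
open scoped ComplexOrder ContDiff Matrix.Norms.Frobenius RealInnerProductSpace ENNReal
open Pool.Agent.Lib.Sob

noncomputable section
namespace Pool.Agent.PW

section kaehler
variable {n r : ℕ} {V : Type} [NormedAddCommGroup V] [NormedSpace ℝ V] [NormedSpace ℂ V]
  [IsScalarTower ℝ ℂ V]

/-- `β (∂_l, ∂_j)` -/
def d11 (β : EC n →L[ℝ] EC n →L[ℝ] V) (l j : Fin n) : V :=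
  (2 : ℂ)⁻¹ • (d1 (β (EuclideanSpace.single l 1)) j -
    Complex.I • d1 (β (EuclideanSpace.single l Complex.I)) j)

/-- `β (∂bar_m, ∂bar_k)` -/
def d22 (β : EC n →L[ℝ] EC n →L[ℝ] V) (m k : Fin n) : V :=
  (2 : ℂ)⁻¹ • (d2 (β (EuclideanSpace.single m 1)) k +
    Complex.I • d2 (β (EuclideanSpace.single m Complex.I)) k)

/-- multiplication by a complex number as a real linear map -/
def smulC (V : Type) [NormedAddCommGroup V] [NormedSpace ℝ V] [NormedSpace ℂ V]
    [IsScalarTower ℝ ℂ V] (c : ℂ) : V →L[ℝ] V :=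
  (c • ContinuousLinearMap.id ℂ V).restrictScalars ℝ

@[simp] theorem smulC_apply (c : ℂ) (v : V) : smulC V c v = c • v := rfl

/-- `d1` as a real linear map -/
def d1L (j : Fin n) : (EC n →L[ℝ] V) →L[ℝ] V :=
  (smulC V (2 : ℂ)⁻¹).comp (ContinuousLinearMap.apply ℝ V (EuclideanSpace.single j 1) -
    (smulC V Complex.I).comp (ContinuousLinearMap.apply ℝ V (EuclideanSpace.single j Complex.I)))

/-- `d2` as a real linear map -/
def d2L (j : Fin n) : (EC n →L[ℝ] V) →L[ℝ] V :=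
  (smulC V (2 : ℂ)⁻¹).comp (ContinuousLinearMap.apply ℝ V (EuclideanSpace.single j 1) +
    (smulC V Complex.I).comp (ContinuousLinearMap.apply ℝ V (EuclideanSpace.single j Complex.I)))

@[simp] theorem d1L_apply (j : Fin n) (X : EC n →L[ℝ] V) : d1L j X = d1 X j := rfl
@[simp] theorem d2L_apply (j : Fin n) (X : EC n →L[ℝ] V) : d2L j X = d2 X j := rfl

theorem d1_d1L (β : EC n →L[ℝ] EC n →L[ℝ] V) (l j : Fin n) :
    d1 ((d1L j).comp β) l = d11 β l j := rfl
theorem d1_d2L (β : EC n →L[ℝ] EC n →L[ℝ] V) (l k : Fin n) :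
    d1 ((d2L k).comp β) l = d12 β l k := rfl
theorem d2_d1L (β : EC n →L[ℝ] EC n →L[ℝ] V) (m j : Fin n) :
    d2 ((d1L j).comp β) m = d21 β m j := rfl
theorem d2_d2L (β : EC n →L[ℝ] EC n →L[ℝ] V) (m k : Fin n) :
    d2 ((d2L k).comp β) m = d22 β m k := rfl

theorem dz_eq_d1 (j : Fin n) (f : EC n → ℂ) (z : EC n) : dz j f z = d1 (fderiv ℝ f z) j := by
  simp only [dz, d1, smul_eq_mul]; ring

/-- flatness of a jet -/
def JFlat (A : EC n →L[ℝ] Mat r) (β : EC n →L[ℝ] EC n →L[ℝ] Mat r) : Prop :=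
  ∀ v w, β v w - β w v = -cm (A v) (A w)

/-- antisymmetry of a coefficient tensor -/
def Anti (G : Fin n → Fin n → Fin n → Fin n → ℂ) : Prop :=
  (∀ j k l m, G l k j m = -G j k l m) ∧ ∀ j k l m, G j m l k = -G j k l m

theorem anti_kG (g : Mat n) : Anti (kG g) :=
  ⟨fun j k l m => by simp only [kG]; ring, fun j k l m => by simp only [kG]; ring⟩

/-- the integrand of the Siu-Sampson formula as a null Lagrangian -/
def SF2 (G : Fin n → Fin n → Fin n → Fin n → ℂ) (β : EC n →L[ℝ] EC n →L[ℝ] Mat r) : ℂ :=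
  ∑ j, ∑ k, ∑ l, ∑ m, G j k l m * ((d21 β m j * d12 β l k).trace - (d11 β l j * d22 β m k).trace)

/-- pointwise form of pluriharmonicity -/
def PH2 (β : EC n →L[ℝ] EC n →L[ℝ] Mat r) : Prop :=
  ∀ v w, β v (Complex.I • w) = β w (Complex.I • v)

end kaehler

section loc
variable {E : Type} [NormedAddCommGroup E] [InnerProductSpace ℝ E] [FiniteDimensional ℝ E]
  [MeasurableSpace E] [BorelSpace E] {r : ℕ}

/-- complex test functions -/
def IsTestC (U : Set E) (ψ : E → ℂ) : Prop :=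
  ContDiff ℝ ∞ ψ ∧ HasCompactSupport ψ ∧ tsupport ψ ⊆ U

/-- a locally bounded weakly harmonic metric on an open set -/
structure LH (U : Set E) (α : E → E →L[ℝ] E) (h : E → Mat r) (D : E → E →L[ℝ] Mat r) : Prop where
  wd : WD 2 U h D
  lbd : LBd U h
  harm : Harm U α fun x => mc (h x) (D x)

/-- divergence free coefficients -/
def DivFree (U : Set E) (α : E → E →L[ℝ] E) : Prop :=
  ∀ x ∈ U, ∀ v, ∑ q, ⟪ob E q, fderiv ℝ α x (ob E q) v⟫ = 0

end loc

end Pool.Agent.PW
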