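import Pool.Agent.P.MP_65ad7c_ag.Base

open MeasureTheory Set Filter Topology Metric Matrix
open scoped ComplexOrder ContDiff Matrix.Norms.Frobenius RealInnerProductSpace ENNReal
open Pool.Agent.Lib.Sob

noncomputable section
namespace Pool.Agent.PW

variable {E : Type} [NormedAddCommGroup E] [InnerProductSpace ℝ E] [FiniteDimensional ℝ E]
  [MeasurableSpace E] [BorelSpace E] {r : ℕ} {U : Set E}
  {V W : Type} [NormedAddCommGroup V] [NormedSpace ℝ V] [NormedAddCommGroup W] [NormedSpace ℝ W]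

omit [NormedSpace ℝ V] in
theorem tdq_mem {p : ℝ≥0∞} {u : E → V} {K L : Set E} (hL : MeasurableSet L) {w : E}
    (h : ∀ x ∈ K, x + w ∈ L) (hu : MemLp u p (volume.restrict L)) :
    MemLp (fun x => u (x + w)) p (volume.restrict K) :=
  (hu.comp_measurePreserving ((measurePreserving_add_right volume w).restrict_preimage hL)).mono_measure
    (Measure.restrict_mono h le_rfl)

omit [NormedSpace ℝ V] in
theorem tdq_n2 {u : E → V} {K L : Set E} (hL : MeasurableSet L) {w : E}
    (h : ∀ x ∈ K, x + w ∈ L) (hu : AEStronglyMeasurable u (volume.restrict L)) :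
    N2 K (fun x => u (x + w)) ≤ N2 L u := by
  unfold N2
  rw [← eLpNorm_comp_measurePreserving hu
    ((measurePreserving_add_right volume w).restrict_preimage hL)]
  exact eLpNorm_mono_measure _ (Measure.restrict_mono h le_rfl)

theorem tdq_lint {K L : Set E} (hL : MeasurableSet L) {w : E} (h : ∀ x ∈ K, x + w ∈ L)
    {G : E → ℝ≥0∞} (hG : Measurable G) : ∫⁻ x in K, G (x + w) ≤ ∫⁻ x in L, G x := by
  rw [← ((measurePreserving_add_right volume w).restrict_preimage hL).lintegral_comp hG]
  exact lintegral_mono' (Measure.restrict_mono h le_rfl) le_rfl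

omit [NormedSpace ℝ V] in
theorem tdq_sq (K : Set E) (u : E → V) : ∫⁻ x in K, ‖u x‖ₑ ^ 2 = N2 K u ^ 2 := by
  rw [lintegral_pow_eq (n := 2) (by norm_num) u]
  simp [N2]

omit [NormedSpace ℝ V] in
theorem tdq_tend {K : Set E} {f : ℕ → E → V}
    (h : Tendsto (fun k => ∫⁻ x in K, ‖f k x‖ₑ ^ 2) atTop (𝓝 0)) :
    Tendsto (fun k => N2 K (f k)) atTop (𝓝 0) := by
  simp only [tdq_sq] at h
  have := h.ennrpow_const ((2 : ℝ)⁻¹)
  rw [ENNReal.zero_rpow_of_pos (by norm_num)] at this
  refine this.congr fun k => ?_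
  rw [← ENNReal.rpow_natCast, ← ENNReal.rpow_mul]
  simp

theorem wd_translate {n : ℕ} {u : E → V} {D : E → E →L[ℝ] V} (h : WD n U u D) (v : E) :
    WD n {x | x + v ∈ U} (fun x => u (x + v)) fun x => D (x + v) := by
  have hc : ∀ K : Set E, IsCompact K → IsCompact ((fun x => x + v) '' K) := fun K hK =>
    hK.image (continuous_add_const v)
  refine ⟨fun K hK hKU => ?_, fun K hK hKU => ?_, fun φ hφ e => ?_⟩
  · exact tdq_mem (hc K hK).measurableSet (fun x hx => mem_image_of_mem _ hx)
      (h.1 _ (hc K hK) (image_subset_iff.2 hKU))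
  · exact tdq_mem (hc K hK).measurableSet (fun x hx => mem_image_of_mem _ hx)
      (h.2.1 _ (hc K hK) (image_subset_iff.2 hKU))
  · have hs : tsupport (fun y => φ (y - v)) ⊆ (fun x => x + v) '' tsupport φ :=
      closure_minimal (fun y hy => ⟨y - v, subset_tsupport φ hy, sub_add_cancel y v⟩)
        (hc _ hφ.2.1.isCompact).isClosed
    have hψ : IsTest U fun y => φ (y - v) :=
      ⟨hφ.1.comp (contDiff_id.sub contDiff_const),
        (hc _ hφ.2.1.isCompact).of_isClosed_subset (isClosed_tsupport _) hs,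
        hs.trans (image_subset_iff.2 hφ.2.2)⟩
    have := h.2.2 _ hψ e
    rw [← integral_add_right_eq_self _ v,
      ← integral_add_right_eq_self (fun y => φ (y - v) • D y e) v] at this
    simpa only [fderiv_comp_sub, add_sub_cancel_right] using this

omit [FiniteDimensional ℝ E] [MeasurableSpace E] [BorelSpace E] in
theorem tdq_seg {K : Set E} {δ : ℝ} {v : E} (hv : ‖v‖ ≤ δ) {t : ℝ} (h0 : 0 ≤ t) (h1 : t ≤ 1) :
    ∀ x ∈ K, x + t • v ∈ cthickening δ K := fun x hx =>
  mem_cthickening_of_dist_le _ x δ K hx (by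
    rw [dist_self_add_left, norm_smul, Real.norm_of_nonneg h0]
    exact (mul_le_of_le_one_left (norm_nonneg _) h1).trans hv)

theorem tdq_smooth [CompleteSpace V] {w : E → V} (hw : ContDiff ℝ 1 w) {K : Set E} {δ : ℝ} {v : E}
    (hv : ‖v‖ ≤ δ) :
    N2 K (fun x => w (x + v) - w x) ≤ ENNReal.ofReal ‖v‖ * N2 (cthickening δ K) (fderiv ℝ w) := by
  refine (ENNReal.pow_le_pow_left_iff (n := 2) (by norm_num)).1 ?_
  rw [mul_pow, ← tdq_sq, ← tdq_sq]
  set G : E → ℝ≥0∞ := fun x => ‖fderiv ℝ w x‖ₑ ^ 2 with hGdef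
  have hG : Measurable G := (hw.continuous_fderiv one_ne_zero).enorm.measurable.pow_const 2
  calc ∫⁻ x in K, ‖w (x + v) - w x‖ₑ ^ 2
      ≤ ∫⁻ x in K, ENNReal.ofReal ‖v‖ ^ 2 * ∫⁻ t in Ioc (0 : ℝ) 1, G (x + t • v) := by
        refine lintegral_mono fun x => ?_
        have := enorm_sub_pow_le_segment (n := 2) (by norm_num) hw (x + v) x
        simpa only [add_sub_cancel_left, ofReal_norm] using this
    _ = ENNReal.ofReal ‖v‖ ^ 2 * ∫⁻ t in Ioc (0 : ℝ) 1, ∫⁻ x in K, G (x + t • v) := by
        rw [lintegral_const_mul' _ _ (by simp),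
          lintegral_lintegral_swap (f := fun x (t : ℝ) => G (x + t • v))
            (hG.comp (show Measurable fun z : E × ℝ => z.1 + z.2 • v by fun_prop)).aemeasurable]
    _ ≤ _ := by
        gcongr
        refine (setLIntegral_mono' measurableSet_Ioc fun t ht =>
          tdq_lint isClosed_cthickening.measurableSet (tdq_seg hv ht.1.le ht.2) hG).trans ?_
        simp [hGdef]

omit [NormedSpace ℝ V] in
theorem tdq_add {K : Set E} {f g : E → V} (hf : AEStronglyMeasurable f (volume.restrict K))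
    (hg : AEStronglyMeasurable g (volume.restrict K)) :
    N2 K (fun x => f x + g x) ≤ N2 K f + N2 K g :=
  eLpNorm_add_le hf hg (by norm_num)

omit [NormedSpace ℝ V] in
theorem tdq_sub {K : Set E} {f g : E → V} (hf : AEStronglyMeasurable f (volume.restrict K))
    (hg : AEStronglyMeasurable g (volume.restrict K)) :
    N2 K (fun x => f x - g x) ≤ N2 K f + N2 K g :=
  eLpNorm_sub_le hf hg (by norm_num)

theorem dq_le [CompleteSpace V] (hU : IsOpen U) {u : E → V} {D : E → E →L[ℝ] V} (h : WD 2 U u D)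
    {K : Set E} (hK : IsCompact K) {δ : ℝ} (hδ : cthickening δ K ⊆ U) {v : E} (hv : ‖v‖ ≤ δ) :
    N2 K (fun x => u (x + v) - u x) ≤ ENNReal.ofReal ‖v‖ * N2 (cthickening δ K) D := by
  have hK' : IsCompact (cthickening δ K) := hK.cthickening
  have hm : MeasurableSet (cthickening δ K) := hK'.measurableSet
  obtain ⟨w, sw, -, t1, t2⟩ := h.approx (by norm_num) hU hK' hδ
  have a1 := tdq_tend t1
  have a2 := tdq_tend t2
  have hx1 : ∀ x ∈ K, x + v ∈ cthickening δ K := by
    simpa using tdq_seg (K := K) hv zero_le_one le_rfl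
  have hx0 : volume.restrict K ≤ volume.restrict (cthickening δ K) :=
    Measure.restrict_mono (self_subset_cthickening K) le_rfl
  have mu := (h.1 _ hK' hδ).1
  have mD := (h.2.1 _ hK' hδ).1
  have lim : Tendsto (fun k => ENNReal.ofReal ‖v‖ *
      (N2 (cthickening δ K) (fun x => fderiv ℝ (w k) x - D x) + N2 (cthickening δ K) D) +
      (N2 (cthickening δ K) (fun x => w k x - u x) + N2 (cthickening δ K) (fun x => w k x - u x)))
      atTop (𝓝 (ENNReal.ofReal ‖v‖ * (0 + N2 (cthickening δ K) D) + (0 + 0))) :=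
    (ENNReal.Tendsto.const_mul (a2.add tendsto_const_nhds) (Or.inr ENNReal.ofReal_ne_top)).add
      (a1.add a1)
  simp only [zero_add, add_zero] at lim
  refine ge_of_tendsto' lim fun k => ?_
  have cw := (sw k).continuous
  have cD : Continuous (fderiv ℝ (w k)) := (sw k).continuous_fderiv (by simp)
  have m1 : AEStronglyMeasurable (fun x => w k x - u x) (volume.restrict (cthickening δ K)) :=
    cw.aestronglyMeasurable.sub mu
  have m2 : AEStronglyMeasurable (fun x => w k (x + v) - u (x + v)) (volume.restrict K) :=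
    (cw.comp (continuous_add_const v)).aestronglyMeasurable.sub
      (tdq_mem hm hx1 (h.1 _ hK' hδ)).1
  have e : (fun x => u (x + v) - u x) = fun x => (w k (x + v) - w k x) +
      ((w k x - u x) - (w k (x + v) - u (x + v))) := by
    funext x; abel
  rw [e]
  refine (tdq_add ((cw.comp (continuous_add_const v)).sub cw).aestronglyMeasurable
    ((m1.mono_measure hx0).sub m2)).trans (add_le_add ?_ ?_)
  · refine (tdq_smooth ((sw k).of_le (by simp)) hv).trans ?_
    gcongr
    have := tdq_add (f := fun x => fderiv ℝ (w k) x - D x) (cD.aestronglyMeasurable.sub mD) mD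
    simp only [sub_add_cancel] at this
    exact this
  · exact (tdq_sub (m1.mono_measure hx0) m2).trans (add_le_add (eLpNorm_mono_measure _ hx0)
      (tdq_n2 (u := fun x => w k x - u x) hm hx1 m1))

omit [MeasurableSpace E] [BorelSpace E] in
theorem tdq_unif {w : E → V} (hw : ContDiff ℝ 1 w) {K : Set E} (hK : IsCompact K) (e : E) {η : ℝ}
    (hη : 0 < η) : ∀ᶠ s in 𝓝[>] (0 : ℝ), ∀ x ∈ K,
      ‖s⁻¹ • (w (x + s • e) - w x) - fderiv ℝ w x e‖ ≤ η * ‖e‖ := by
  have hK' : IsCompact (cthickening 1 K) := hK.cthickening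
  obtain ⟨ρ, hρ, hu⟩ := Metric.uniformContinuousOn_iff.1
    (hK'.uniformContinuousOn_of_continuous (hw.continuous_fderiv one_ne_zero).continuousOn) η hη
  have ht : Tendsto (fun s : ℝ => ‖s • e‖) (𝓝[>] 0) (𝓝 0) := by
    have : Continuous fun s : ℝ => ‖s • e‖ := by fun_prop
    simpa using (this.tendsto 0).mono_left nhdsWithin_le_nhds
  filter_upwards [ht.eventually (eventually_le_nhds (lt_min (half_pos hρ) one_pos)),
    self_mem_nhdsWithin] with s hs hs0 x hx
  have hs0' : 0 < s := hs0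
  have := (convex_closedBall x (min (ρ / 2) 1)).norm_image_sub_le_of_norm_fderiv_le'
    (𝕜 := ℝ) (f := w) (φ := fderiv ℝ w x) (C := η) (x := x) (y := x + s • e)
    (fun y _ => hw.differentiable one_ne_zero y)
    (fun y hy => by
      have hy' : dist y x ≤ min (ρ / 2) 1 := hy
      have := hu y (mem_cthickening_of_dist_le y x 1 K hx (hy'.trans (min_le_right _ _))) x
        (self_subset_cthickening K hx) (by linarith [min_le_left (ρ / 2) 1])
      rw [dist_eq_norm] at this
      exact this.le)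
    (mem_closedBall_self (lt_min (half_pos hρ) one_pos).le)
    (by rw [mem_closedBall, dist_self_add_left]; exact hs)
  rw [add_sub_cancel_left, norm_smul, Real.norm_of_nonneg hs0'.le, map_smul] at this
  have e1 : s⁻¹ • (w (x + s • e) - w x) - fderiv ℝ w x e =
      s⁻¹ • (w (x + s • e) - w x - s • fderiv ℝ w x e) := by
    rw [smul_sub s⁻¹ _ (s • _), inv_smul_smul₀ hs0'.ne']
  rw [e1, norm_smul, norm_inv, Real.norm_of_nonneg hs0'.le, inv_mul_le_iff₀ hs0']
  linarith

theorem dq_tendsto [CompleteSpace V] (hU : IsOpen U) {u : E → V} {D : E → E →L[ℝ] V}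
    (h : WD 2 U u D) {K : Set E} (hK : IsCompact K) (hKU : K ⊆ U) (e : E) :
    Tendsto (fun s : ℝ => N2 K fun x => s⁻¹ • (u (x + s • e) - u x) - D x e) (𝓝[>] 0) (𝓝 0) := by
  obtain ⟨δ, hδ, hδU⟩ := hK.exists_cthickening_subset_open hU hKU
  have hK' : IsCompact (cthickening δ K) := hK.cthickening
  have hm : MeasurableSet (cthickening δ K) := hK'.measurableSet
  obtain ⟨w, sw, -, -, t2⟩ := h.approx (by norm_num) hU hK' hδU
  have a2 := tdq_tend t2
  have hx0 : volume.restrict K ≤ volume.restrict (cthickening δ K) :=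
    Measure.restrict_mono (self_subset_cthickening K) le_rfl
  set A : ℝ≥0∞ := volume.restrict K univ ^ (2 : ℝ≥0∞).toReal⁻¹ with hA
  have hA' : A ≠ ⊤ := ENNReal.rpow_ne_top_of_nonneg (by simp) (by simpa using hK.measure_lt_top.ne)
  have lim : Tendsto (fun η : ℝ => ENNReal.ofReal ‖e‖ * ENNReal.ofReal η +
      (A * ENNReal.ofReal (η * ‖e‖) + ENNReal.ofReal ‖e‖ * ENNReal.ofReal η)) (𝓝[>] 0) (𝓝 0) := by
    have l1 : Tendsto (fun η : ℝ => ENNReal.ofReal η) (𝓝[>] 0) (𝓝 0) := by
      simpa using (ENNReal.continuous_ofReal.tendsto 0).mono_left nhdsWithin_le_nhds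
    have l2 : Tendsto (fun η : ℝ => ENNReal.ofReal (η * ‖e‖)) (𝓝[>] 0) (𝓝 0) := by
      have : Continuous fun η : ℝ => ENNReal.ofReal (η * ‖e‖) :=
        ENNReal.continuous_ofReal.comp (by fun_prop)
      simpa using (this.tendsto 0).mono_left nhdsWithin_le_nhds
    have l3 := ENNReal.Tendsto.const_mul (a := ENNReal.ofReal ‖e‖) l1 (Or.inr ENNReal.ofReal_ne_top)
    simpa using l3.add ((ENNReal.Tendsto.const_mul l2 (Or.inr hA')).add l3)
  refine ENNReal.tendsto_nhds_zero.2 fun ε hε => ?_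
  obtain ⟨η, hηε, hη⟩ := ((ENNReal.tendsto_nhds_zero.1 lim ε hε).and self_mem_nhdsWithin).exists
  have hη0 : 0 < η := hη
  obtain ⟨k, hk⟩ := (ENNReal.tendsto_nhds_zero.1 a2 _ (ENNReal.ofReal_pos.2 hη0)).exists
  have w1 : ContDiff ℝ 1 (w k) := (sw k).of_le (by simp)
  have cw := w1.continuous
  have cD : Continuous (fderiv ℝ (w k)) := w1.continuous_fderiv one_ne_zero
  have hd : WD 2 U (fun x => w k x - u x) fun x => fderiv ℝ (w k) x - D x :=
    (WD.of_contDiff (by norm_num) w1).sub (by norm_num) h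
  have ht : Tendsto (fun s : ℝ => ‖s • e‖) (𝓝[>] 0) (𝓝 0) := by
    have : Continuous fun s : ℝ => ‖s • e‖ := by fun_prop
    simpa using (this.tendsto 0).mono_left nhdsWithin_le_nhds
  filter_upwards [ht.eventually (eventually_le_nhds hδ), tdq_unif w1 hK e hη0,
    self_mem_nhdsWithin] with s hs hu hs0
  have hs0' : 0 < s := hs0
  refine le_trans ?_ hηε
  have hx1 : ∀ x ∈ K, x + s • e ∈ cthickening δ K := by
    simpa using tdq_seg (K := K) hs zero_le_one le_rfl
  have m1 : AEStronglyMeasurable (fun x => (fderiv ℝ (w k) x - D x) e) (volume.restrict K) :=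
    ((hd.2.1.apply e) K hK hKU).1
  have m2 : AEStronglyMeasurable (fun x => s⁻¹ • (w k (x + s • e) - w k x) - fderiv ℝ (w k) x e)
      (volume.restrict K) := Continuous.aestronglyMeasurable (by fun_prop)
  have m3 : AEStronglyMeasurable (fun x => s⁻¹ • ((w k (x + s • e) - u (x + s • e)) - (w k x - u x)))
      (volume.restrict K) :=
    ((tdq_mem (u := fun x => w k x - u x) hm hx1 (hd.1 _ hK' hδU)).1.sub
      (hd.1 K hK hKU).1).const_smul s⁻¹
  have e1 : (fun x => s⁻¹ • (u (x + s • e) - u x) - D x e) = fun x =>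
      (fderiv ℝ (w k) x - D x) e + ((s⁻¹ • (w k (x + s • e) - w k x) - fderiv ℝ (w k) x e) -
        s⁻¹ • ((w k (x + s • e) - u (x + s • e)) - (w k x - u x))) := by
    funext x
    simp only [_root_.sub_apply, smul_sub]
    abel
  rw [e1]
  refine (tdq_add m1 (m2.sub m3)).trans (add_le_add ?_ ((tdq_sub m2 m3).trans (add_le_add ?_ ?_)))
  · refine (eLpNorm_le_mul_eLpNorm_of_ae_le_mul (g := fun x => fderiv ℝ (w k) x - D x) (c := ‖e‖)
      (Eventually.of_forall fun x => ?_) 2).trans ?_
    · rw [mul_comm]; exact ContinuousLinearMap.le_opNorm _ _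
    · gcongr
      exact (eLpNorm_mono_measure _ hx0).trans hk
  · exact eLpNorm_le_of_ae_bound ((ae_restrict_mem hK.measurableSet).mono hu)
  · have h1 := dq_le hU hd hK hδU hs
    refine (eLpNorm_le_mul_eLpNorm_of_ae_le_mul (c := s⁻¹)
      (g := fun x => (w k (x + s • e) - u (x + s • e)) - (w k x - u x))
      (Eventually.of_forall fun x => ?_) 2).trans ?_
    · rw [norm_smul, norm_inv, Real.norm_of_nonneg hs0'.le]
    · refine (mul_le_mul_right h1 _).trans ?_
      rw [← mul_assoc, ← ENNReal.ofReal_mul (inv_pos.2 hs0').le, norm_smul,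
        Real.norm_of_nonneg hs0'.le, inv_mul_cancel_left₀ hs0'.ne']
      gcongr

end Pool.Agent.PW
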