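import Pool.Agent.P.MP_65ad7c_ag.RBase
import Pool.Agent.P.MP_65ad7c_ag.TMul
import Pool.Agent.P.MP_65ad7c_ag.TTest
import Pool.Agent.P.MP_65ad7c_ag.TDq
import Pool.Agent.P.MP_65ad7c_ag.AKey

open MeasureTheory Set Filter Topology Metric Matrix
open scoped ComplexOrder ContDiff Matrix.Norms.Frobenius RealInnerProductSpace ENNReal
open Pool.Agent.Lib.Sob

noncomputable section
namespace Pool.Agent.PW

variable {E : Type} [NormedAddCommGroup E] [InnerProductSpace ℝ E] [FiniteDimensional ℝ E]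
  [MeasurableSpace E] [BorelSpace E] {r : ℕ} {U : Set E}
  {α α' : E → E →L[ℝ] E} {h h' : E → Mat r} {D D' : E → E →L[ℝ] Mat r}

theorem LH.mono {U' : Set E} (H : LH U α h D) (hU : U' ⊆ U) : LH U' α h D :=
  ⟨H.wd.mono hU, H.lbd.mono hU, fun φ hφ => H.harm φ (hφ.mono hU)⟩

theorem LH.translate (H : LH U α h D) (v : E) :
    LH {x | x + v ∈ U} (fun x => α (x + v)) (fun x => h (x + v)) fun x => D (x + v) := by
  refine ⟨wd_translate H.wd v, fun K hK hKU => ?_, fun φ hφ => ?_⟩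
  · obtain ⟨C, hC, hb⟩ := H.lbd ((fun x => x + v) '' K) (hK.image (by fun_prop))
      (by rintro _ ⟨x, hx, rfl⟩; exact hKU hx)
    exact ⟨C, hC, fun x hx => hb _ (mem_image_of_mem _ hx)⟩
  · have hψ : IsTest U fun y => φ (y - v) := by
      refine ⟨hφ.1.comp (contDiff_id.sub contDiff_const),
        hφ.2.1.comp_homeomorph (Homeomorph.subRight v), fun y hy => ?_⟩
      have h1 : y - v ∈ tsupport φ :=
        tsupport_comp_subset_preimage φ (f := fun y => y - v) (by fun_prop) hy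
      simpa using hφ.2.2 h1
    have h1 := H.harm _ hψ
    rw [← integral_add_right_eq_self _ v] at h1
    simpa only [fderiv_comp_sub, add_sub_cancel_right] using h1

/-- real and extended `L²` norms -/
theorem integral_sq_eq_N2 {V : Type} [NormedAddCommGroup V] {K : Set E} {u : E → V}
    (hu : MemLp u 2 (volume.restrict K)) : ∫ x in K, ‖u x‖ ^ 2 = (N2 K u).toReal ^ 2 := by
  have h0 : 0 ≤ ∫ x in K, ‖u x‖ ^ 2 := integral_nonneg fun x => by positivity
  rw [N2, hu.eLpNorm_eq_integral_rpow_norm two_ne_zero ENNReal.ofNat_ne_top]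
  simp only [ENNReal.toReal_ofNat, Real.rpow_two]
  rw [ENNReal.toReal_ofReal (Real.rpow_nonneg h0 _), ← Real.rpow_two, ← Real.rpow_mul h0]
  norm_num

theorem integral_sq_le_of_N2 {V : Type} [NormedAddCommGroup V] {K : Set E} {u : E → V}
    (hu : MemLp u 2 (volume.restrict K)) {M : ℝ} (hM : 0 ≤ M) (h : N2 K u ≤ ENNReal.ofReal M) :
    ∫ x in K, ‖u x‖ ^ 2 ≤ M ^ 2 := by
  rw [integral_sq_eq_N2 hu]
  exact pow_le_pow_left₀ ENNReal.toReal_nonneg (ENNReal.toReal_le_of_le_ofReal hM h) 2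

theorem N2_le_of_integral_sq {V : Type} [NormedAddCommGroup V] {K : Set E} {u : E → V}
    (hu : MemLp u 2 (volume.restrict K)) {M : ℝ} (hM : 0 ≤ M) (h : ∫ x in K, ‖u x‖ ^ 2 ≤ M ^ 2) :
    N2 K u ≤ ENNReal.ofReal M := by
  rw [integral_sq_eq_N2 hu] at h
  have h1 : (N2 K u).toReal ≤ M := le_of_pow_le_pow_left₀ two_ne_zero hM h
  exact (ENNReal.le_ofReal_iff_toReal_le hu.eLpNorm_ne_top hM).2 h1

omit [MeasurableSpace E] [BorelSpace E] in
theorem cmp_pair_sub (a a' : E →L[ℝ] E) (X Y : E →L[ℝ] Mat r) :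
    pair (a - a') X Y = pair a X Y - pair a' X Y := by
  simp [pair, Matrix.mul_sub, Finset.sum_sub_distrib]

/-- comparison of two weakly harmonic metrics -/
theorem cmp_identity (hU : IsOpen U) (hα : ContinuousOn α U) (hα' : ContinuousOn α' U)
    (hs : ∀ x ∈ U, ∀ v w, ⟪α x v, w⟫ = ⟪v, α x w⟫) (H : LH U α h D) (H' : LH U α' h' D')
    {η : E → ℝ} {Dη : E → E →L[ℝ] ℝ} (hη : WD 2 U η Dη) (hb : LB U η) (hc : CS U η) :
    IntegrableOn (fun x => η x * qq (α x) (h x) (h' x) (D x) (D' x)) U ∧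
    IntegrableOn (fun x => spair (α x) (dsg (h x) (h' x) (D x) (D' x)) (Dη x)) U ∧
    IntegrableOn (fun x => pair (α x - α' x) (mc (h' x) (D' x))
      (η x • dkz (h x) (h' x) (D x) (D' x) + (Dη x).smulRight (kz (h x) (h' x)))) U ∧
    (∫ x in U, η x * qq (α x) (h x) (h' x) (D x) (D' x)) +
        ∫ x in U, spair (α x) (dsg (h x) (h' x) (D x) (D' x)) (Dη x) =
      ∫ x in U, pair (α x - α' x) (mc (h' x) (D' x))
        (η x • dkz (h x) (h' x) (D x) (D' x) + (Dη x).smulRight (kz (h x) (h' x))) := by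
  obtain ⟨K, hK, hKU, hη0⟩ := hc
  obtain ⟨hkz, hkzb⟩ := wd_kz hU H.wd H'.wd H.lbd H'.lbd
  have hζ := wd_smul hU hη hkz hb hkzb
  have hζc : CS U fun x => η x • kz (h x) (h' x) :=
    ⟨K, hK, hKU, fun x hx hxK => by simp only [hη0 x hx hxK, zero_smul]⟩
  have hD0 := wd_cs_ae (by norm_num) hU hη hK.isClosed hη0
  have hA := locLp_mc hU H.wd H.lbd
  have hA' := locLp_mc hU H'.wd H'.lbd
  have hint : ∀ {β : E → E →L[ℝ] E} {X : E → E →L[ℝ] Mat r}, ContinuousOn β U → LocLp 2 U X →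
      IntegrableOn (fun x => pair (β x) (X x)
        (η x • dkz (h x) (h' x) (D x) (D' x) + (Dη x).smulRight (kz (h x) (h' x)))) U := by
    intro β X hβ hX
    refine (integrableOn_of_cs hU (locLp_pair hβ hX hζ.2.1) hK hKU ?_).1
    filter_upwards [hD0] with x hx hxU hxK
    simp [pair, hη0 x hxU hxK, hx hxU hxK]
  have i1 : IntegrableOn (fun x => η x * qq (α x) (h x) (h' x) (D x) (D' x)) U := by
    refine (integrableOn_of_cs hU (locLp_bilin_lb (ContinuousLinearMap.mul ℝ ℝ) hη.1 hb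
      (locLp_qq hU hα H.wd H'.wd H.lbd H'.lbd)) hK hKU
      (Eventually.of_forall fun x hxU hxK => ?_)).1
    simp [hη0 x hxU hxK]
  have i2 : IntegrableOn (fun x => spair (α x) (dsg (h x) (h' x) (D x) (D' x)) (Dη x)) U := by
    refine (integrableOn_of_cs hU (locLp_spair hα (wd_sg hU H.wd H'.wd H.lbd H'.lbd).1.2.1
      hη.2.1) hK hKU ?_).1
    filter_upwards [hD0] with x hx hxU hxK
    simp [spair, hx hxU hxK]
  refine ⟨i1, i2, hint (hα.sub hα') hA', ?_⟩
  have e1 := harm_test hU hα hA H.harm hζ hζc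
  have e2 := harm_test hU hα' hA' H'.harm hζ hζc
  have e3 : ∫ x in U, pair (α x - α' x) (mc (h' x) (D' x))
        (η x • dkz (h x) (h' x) (D x) (D' x) + (Dη x).smulRight (kz (h x) (h' x))) =
      ∫ x in U, pair (α x) (mc (h' x) (D' x))
        (η x • dkz (h x) (h' x) (D x) (D' x) + (Dη x).smulRight (kz (h x) (h' x))) := by
    simp only [cmp_pair_sub]
    rw [integral_sub (hint hα hA') (hint hα' hA'), e2, sub_zero]
  rw [e3, ← integral_add i1 i2, ← sub_zero (∫ x in U, pair (α x) (mc (h' x) (D' x)) _), ← e1,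
    ← integral_sub (hint hα hA') (hint hα hA)]
  refine integral_congr_ae ?_
  have m1 := wd_herm (by norm_num) hU H.wd fun x hx => (H.lbd.posDef x hx).isHermitian
  have m2 := wd_herm (by norm_num) hU H'.wd fun x hx => (H'.lbd.posDef x hx).isHermitian
  filter_upwards [ae_restrict_mem hU.measurableSet, ae_restrict_of_ae m1, ae_restrict_of_ae m2]
    with x hx a1 a2
  exact (pair_key (H.lbd.posDef x hx) (H'.lbd.posDef x hx) (a1 hx) (a2 hx) (hs x hx) _ _).symm

end Pool.Agent.PW
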