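import Pool.Agent.P.MP_65ad7c_ag.RBase

open MeasureTheory Set Filter Topology Metric Matrix
open scoped ComplexOrder ContDiff Matrix.Norms.Frobenius RealInnerProductSpace ENNReal
open Pool.Agent.Lib.Sob

noncomputable section
namespace Pool.Agent.PW

variable {n : ℕ} {U : Set (EC n)} {g : EC n → Mat n}

theorem cof_det_smooth {M : EC n → Mat n} (h : ∀ j k, ContDiffOn ℝ ∞ (fun z => M z j k) U) :
    ContDiffOn ℝ ∞ (fun z => (M z).det) U := by
  simp only [Matrix.det_apply']
  exact ContDiffOn.sum fun σ _ => contDiffOn_const.mul (contDiffOn_prod fun i _ => h _ _)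

theorem cof_det_ne (hg : IsKahlerOn U g) {x : EC n} (hx : x ∈ U) : (g x).det ≠ 0 :=
  ((Matrix.isUnit_iff_isUnit_det _).1 (hg.2.1 x hx).isUnit).ne_zero

theorem cof_kW_eq (M : Mat n) (j k : Fin n) : kW M j k = M.det⁻¹ * M.adjugate k j := by
  rw [kW, ← Matrix.transpose_nonsing_inv, Matrix.transpose_apply, Matrix.inv_def,
    Ring.inverse_eq_inv', Matrix.smul_apply, smul_eq_mul]

theorem kW_contDiffOn (hg : IsKahlerOn U g) (j k : Fin n) :
    ContDiffOn ℝ ∞ (fun x => kW (g x) j k) U := by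
  simp only [cof_kW_eq, Matrix.adjugate_apply]
  refine ((cof_det_smooth hg.1).inv fun x hx => cof_det_ne hg hx).mul (cof_det_smooth ?_)
  intro p q
  simp only [Matrix.updateRow_apply]
  split_ifs
  · exact contDiffOn_const
  · exact hg.1 p q

theorem kH_contDiffOn (hg : IsKahlerOn U g) (j k : Fin n) :
    ContDiffOn ℝ ∞ (fun x => kH (g x) j k) U := by
  exact (cof_det_smooth hg.1).mul (kW_contDiffOn hg j k)

theorem kG_contDiffOn (hg : IsKahlerOn U g) (j k l m : Fin n) :
    ContDiffOn ℝ ∞ (fun x => kG (g x) j k l m) U := by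
  exact (cof_det_smooth hg.1).mul (((kW_contDiffOn hg j k).mul (kW_contDiffOn hg l m)).sub
    ((kW_contDiffOn hg j m).mul (kW_contDiffOn hg l k)))

theorem cof_has (hU : IsOpen U) {f : EC n → ℂ} (hf : ContDiffOn ℝ ∞ f U) {x : EC n}
    (hx : x ∈ U) : HasFDerivAt f (fderiv ℝ f x) x :=
  ((hf.contDiffAt (hU.mem_nhds hx)).differentiableAt (by simp)).hasFDerivAt

theorem cof_jacobi (A B : Mat n) :
    ∑ σ : Equiv.Perm (Fin n), ((Equiv.Perm.sign σ : ℤ) : ℂ) *
      ∑ i, (∏ j ∈ Finset.univ.erase i, A (σ j) j) * B (σ i) i =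
    ∑ p, ∑ q, A.adjugate q p * B p q := by
  simp only [Finset.mul_sum]
  rw [Finset.sum_comm, Finset.sum_comm (f := fun p q => A.adjugate q p * B p q)]
  refine Finset.sum_congr rfl fun i _ => ?_
  have h1 : (A.updateCol i fun p => B p i).det = ∑ p, A.adjugate i p * B p i := by
    rw [← Matrix.cramer_apply, Matrix.cramer_eq_adjugate_mulVec]; rfl
  rw [← h1, Matrix.det_apply']
  refine Finset.sum_congr rfl fun σ _ => ?_
  rw [← Finset.mul_prod_erase _ _ (Finset.mem_univ i), Matrix.updateCol_self, mul_comm (B _ _)]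
  congr 2
  exact Finset.prod_congr rfl fun j hj => (Matrix.updateCol_ne (Finset.ne_of_mem_erase hj)).symm

theorem cof_det_has (hU : IsOpen U) (hg : IsKahlerOn U g) {x : EC n} (hx : x ∈ U) :
    HasFDerivAt (fun y => (g y).det)
      (∑ p, ∑ q, ((g x).det * kW (g x) p q) • fderiv ℝ (fun y => g y p q) x) x := by
  have h1 := HasFDerivAt.fun_sum (u := Finset.univ) fun (σ : Equiv.Perm (Fin n)) _ =>
    (HasFDerivAt.finsetProd (u := Finset.univ) fun i _ =>
      cof_has hU (hg.1 (σ i) i) hx).const_mul ((Equiv.Perm.sign σ : ℤ) : ℂ)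
  simp only [Matrix.det_apply' (g _)] at h1 ⊢
  simp only [← Matrix.det_apply' (g x)]
  refine h1.congr_fderiv (ContinuousLinearMap.ext fun v => ?_)
  have h2 := cof_jacobi (g x) (Matrix.of fun p q => fderiv ℝ (fun y => g y p q) x v)
  simp only [Matrix.of_apply] at h2
  simp only [_root_.sum_apply, _root_.smul_apply, smul_eq_mul, h2,
    cof_kW_eq, mul_inv_cancel_left₀ (cof_det_ne hg hx)]

theorem cof_kW_has (hU : IsOpen U) (hg : IsKahlerOn U g) {x : EC n} (hx : x ∈ U) (j k : Fin n) :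
    HasFDerivAt (fun y => kW (g y) j k)
      (-∑ p, ∑ q, (kW (g x) j q * kW (g x) p k) • fderiv ℝ (fun y => g y p q) x) x := by
  have hu : ∀ y ∈ U, IsUnit (g y)ᵀ.det := fun y hy => by
    rw [Matrix.det_transpose]; exact (cof_det_ne hg hy).isUnit
  refine (cof_has hU (kW_contDiffOn hg j k) hx).congr_fderiv
    (ContinuousLinearMap.ext fun v => ?_)
  set B : Mat n := Matrix.of fun p q => fderiv ℝ (fun y => g y p q) x v with hB
  set W' : Mat n := Matrix.of fun p q => fderiv ℝ (fun y => kW (g y) p q) x v with hW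
  have h1 : kW (g x) * Bᵀ + W' * (g x)ᵀ = 0 := by
    ext a b
    have h2 := HasFDerivAt.fun_sum (u := Finset.univ) fun c _ =>
      (cof_has hU (kW_contDiffOn hg a c) hx).fun_mul (cof_has hU (hg.1 b c) hx)
    have h3 : HasFDerivAt (fun y => ∑ c, kW (g y) a c * g y b c) (0 : EC n →L[ℝ] ℂ) x := by
      refine (hasFDerivAt_const ((1 : Mat n) a b) x).congr_of_eventuallyEq ?_
      filter_upwards [hU.mem_nhds hx] with y hy
      rw [← Matrix.nonsing_inv_mul _ (hu y hy)]
      rfl
    have h4 := congrArg (fun L : EC n →L[ℝ] ℂ => L v) (h2.unique h3)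
    simp only [_root_.sum_apply, _root_.add_apply,
      _root_.smul_apply, smul_eq_mul, _root_.zero_apply,
      Finset.sum_add_distrib] at h4
    simp only [Matrix.add_apply, Matrix.mul_apply, Matrix.transpose_apply, hB, hW,
      Matrix.of_apply, Matrix.zero_apply, mul_comm _ (g x b _)]
    exact h4
  have h5 : W' = -(kW (g x) * Bᵀ * kW (g x)) := by
    have h6 : (g x)ᵀ * kW (g x) = 1 := Matrix.mul_nonsing_inv _ (hu x hx)
    rw [← neg_mul, neg_eq_of_add_eq_zero_right h1, mul_assoc, h6, mul_one]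
  have h7 := congrFun (congrFun h5 j) k
  simp only [hW, hB, Matrix.of_apply, Matrix.neg_apply, Matrix.mul_apply, Matrix.transpose_apply,
    Finset.sum_mul] at h7
  simp only [h7, _root_.neg_apply, _root_.sum_apply,
    _root_.smul_apply, smul_eq_mul, neg_inj]
  exact Finset.sum_congr rfl fun p _ => Finset.sum_congr rfl fun q _ => by ring

/-- `d1` as a complex linear functional -/
def cofD1 (j : Fin n) : (EC n →L[ℝ] ℂ) →ₗ[ℂ] ℂ where
  toFun X := d1 X j
  map_add' X Y := by simp only [d1, _root_.add_apply, smul_eq_mul]; ring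
  map_smul' c X := by
    simp only [d1, _root_.smul_apply, smul_eq_mul, RingHom.id_apply]; ring

/-- `d2` as a complex linear functional -/
def cofD2 (j : Fin n) : (EC n →L[ℝ] ℂ) →ₗ[ℂ] ℂ where
  toFun X := d2 X j
  map_add' X Y := by simp only [d2, _root_.add_apply, smul_eq_mul]; ring
  map_smul' c X := by
    simp only [d2, _root_.smul_apply, smul_eq_mul, RingHom.id_apply]; ring

theorem cof_kH (hU : IsOpen U) (hg : IsKahlerOn U g) {x : EC n} (hx : x ∈ U)
    (δ : (EC n →L[ℝ] ℂ) →ₗ[ℂ] ℂ) (j k : Fin n) :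
    δ (fderiv ℝ (fun y => kH (g y) j k) x) = ∑ p, ∑ q, δ (fderiv ℝ (fun y => g y p q) x) *
      ((g x).det * (kW (g x) j k * kW (g x) p q - kW (g x) j q * kW (g x) p k)) := by
  have h := ((cof_det_has hU hg hx).fun_mul (cof_kW_has hU hg hx j k)).fderiv
  change δ (fderiv ℝ (fun y => (g y).det * kW (g y) j k) x) = _
  rw [h]
  simp only [map_add, map_smul, map_neg, map_sum, smul_eq_mul, mul_neg, Finset.mul_sum,
    ← Finset.sum_neg_distrib, ← Finset.sum_add_distrib]
  exact Finset.sum_congr rfl fun p _ => Finset.sum_congr rfl fun q _ => by ring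

theorem cof_kG (hU : IsOpen U) (hg : IsKahlerOn U g) {x : EC n} (hx : x ∈ U)
    (δ : (EC n →L[ℝ] ℂ) →ₗ[ℂ] ℂ) (j k l m : Fin n) :
    δ (fderiv ℝ (fun y => kG (g y) j k l m) x) = ∑ p, ∑ q, δ (fderiv ℝ (fun y => g y p q) x) *
      ((g x).det * (kW (g x) p q * (kW (g x) j k * kW (g x) l m - kW (g x) j m * kW (g x) l k) -
        kW (g x) j q * kW (g x) p k * kW (g x) l m - kW (g x) j k * kW (g x) l q * kW (g x) p m +
        kW (g x) j q * kW (g x) p m * kW (g x) l k +
        kW (g x) j m * kW (g x) l q * kW (g x) p k)) := by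
  have h := ((cof_det_has hU hg hx).fun_mul
    (((cof_kW_has hU hg hx j k).fun_mul (cof_kW_has hU hg hx l m)).fun_sub
      ((cof_kW_has hU hg hx j m).fun_mul (cof_kW_has hU hg hx l k)))).fderiv
  change δ (fderiv ℝ (fun y => (g y).det *
    (kW (g y) j k * kW (g y) l m - kW (g y) j m * kW (g y) l k)) x) = _
  rw [h]
  simp only [map_add, map_sub, map_smul, map_neg, map_sum, smul_eq_mul, mul_neg, Finset.mul_sum,
    ← Finset.sum_neg_distrib, ← Finset.sum_add_distrib, ← Finset.sum_sub_distrib]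
  exact Finset.sum_congr rfl fun p _ => Finset.sum_congr rfl fun q _ => by ring

theorem cof_anti {S B : Fin n → Fin n → Fin n → ℂ} (hS : ∀ l p q, S l p q = S p l q)
    (hB : ∀ l p q, B p l q = -B l p q) : ∑ l, ∑ p, ∑ q, S l p q * B l p q = 0 := by
  have h : ∑ l, ∑ p, ∑ q, S l p q * B l p q = -∑ l, ∑ p, ∑ q, S l p q * B l p q := by
    conv_lhs => rw [Finset.sum_comm]
    simp only [← Finset.sum_neg_distrib]
    exact Finset.sum_congr rfl fun l _ => Finset.sum_congr rfl fun p _ =>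
      Finset.sum_congr rfl fun q _ => by rw [hS p l q, hB l p q, mul_neg]
  linear_combination h / 2

theorem cof_symm1 (hg : IsKahlerOn U g) {x : EC n} (hx : x ∈ U) (l p q : Fin n) :
    cofD1 l (fderiv ℝ (fun y => g y p q) x) = cofD1 p (fderiv ℝ (fun y => g y l q) x) := by
  have := hg.2.2 x hx p q l
  rwa [dz_eq_d1, dz_eq_d1] at this

theorem cof_conj (hU : IsOpen U) (hg : IsKahlerOn U g) {x : EC n} (hx : x ∈ U) (m p q : Fin n) :
    cofD2 m (fderiv ℝ (fun y => g y p q) x) =
      (starRingEnd ℂ) (cofD1 m (fderiv ℝ (fun y => g y q p) x)) := by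
  have h1 := (Complex.conjCLE : ℂ →L[ℝ] ℂ).hasFDerivAt.comp x (cof_has hU (hg.1 q p) hx)
  have h2 : (fun y => g y p q) =ᶠ[𝓝 x] (Complex.conjCLE : ℂ →L[ℝ] ℂ) ∘ fun y => g y q p := by
    filter_upwards [hU.mem_nhds hx] with y hy
    exact ((hg.2.1 y hy).isHermitian.apply p q).symm
  rw [(h1.congr_of_eventuallyEq h2).fderiv]
  change d2 _ m = (starRingEnd ℂ) (d1 _ m)
  simp [d1, d2, map_ofNat]

theorem cof_symm2 (hU : IsOpen U) (hg : IsKahlerOn U g) {x : EC n} (hx : x ∈ U) (m p q : Fin n) :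
    cofD2 m (fderiv ℝ (fun y => g y p q) x) = cofD2 q (fderiv ℝ (fun y => g y p m) x) := by
  rw [cof_conj hU hg hx, cof_conj hU hg hx, cof_symm1 hg hx]

/-- the first cofactor is divergence free -/
theorem kH_div (hU : IsOpen U) (hg : IsKahlerOn U g) {x : EC n} (hx : x ∈ U) (k : Fin n) :
    ∑ j, d1 (fderiv ℝ (fun y => kH (g y) j k) x) j = 0 := by
  have h : ∀ j, d1 (fderiv ℝ (fun y => kH (g y) j k) x) j = _ := fun j =>
    cof_kH hU hg hx (cofD1 j) j k
  simp only [h]
  exact cof_anti (S := fun l p q => cofD1 l (fderiv ℝ (fun y => g y p q) x)) (cof_symm1 hg hx)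
    fun l p q => by ring

/-- the second cofactor is divergence free in the third slot -/
theorem kG_div1 (hU : IsOpen U) (hg : IsKahlerOn U g) {x : EC n} (hx : x ∈ U) (j k m : Fin n) :
    ∑ l, d1 (fderiv ℝ (fun y => kG (g y) j k l m) x) l = 0 := by
  have h : ∀ l, d1 (fderiv ℝ (fun y => kG (g y) j k l m) x) l = _ := fun l =>
    cof_kG hU hg hx (cofD1 l) j k l m
  simp only [h]
  exact cof_anti (S := fun l p q => cofD1 l (fderiv ℝ (fun y => g y p q) x)) (cof_symm1 hg hx)
    fun l p q => by ring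

/-- the second cofactor is divergence free in the fourth slot -/
theorem kG_div2 (hU : IsOpen U) (hg : IsKahlerOn U g) {x : EC n} (hx : x ∈ U) (j k l : Fin n) :
    ∑ m, d2 (fderiv ℝ (fun y => kG (g y) j k l m) x) m = 0 := by
  have h : ∀ m, d2 (fderiv ℝ (fun y => kG (g y) j k l m) x) m = _ := fun m =>
    (cof_kG hU hg hx (cofD2 m) j k l m).trans Finset.sum_comm
  simp only [h]
  exact cof_anti (S := fun m q p => cofD2 m (fderiv ℝ (fun y => g y p q) x))
    (fun m q p => cof_symm2 hU hg hx m p q) fun m q p => by ring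

end Pool.Agent.PW
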