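import Pool.Agent.P.MP_65ad7c_ag.RNull

open MeasureTheory Set Filter Topology Metric Matrix
open scoped ComplexOrder ContDiff Matrix.Norms.Frobenius RealInnerProductSpace ENNReal
open Pool.Agent.Lib.Sob

noncomputable section
namespace Pool.Agent.PW

variable {n r : ℕ} {U : Set (EC n)}

/-- the trace form as a real bilinear map -/
def rcxTau (r : ℕ) : Mat r →L[ℝ] Mat r →L[ℝ] ℂ :=
  (ContinuousLinearMap.compL ℝ (Mat r) (Mat r) ℂ
    (LinearMap.toContinuousLinearMap (Matrix.traceLinearMap (Fin r) ℝ ℂ))).comp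
    (ContinuousLinearMap.mul ℝ (Mat r))

theorem rcxTau_apply (X Y : Mat r) : rcxTau r X Y = (X * Y).trace := rfl

/-- integrability against complex test functions -/
theorem integrable_testC {ψ F : EC n → ℂ} (hψ : Continuous ψ) (hc : HasCompactSupport ψ)
    (hs : tsupport ψ ⊆ U) (hF : LocLp 1 U F) : Integrable fun x => ψ x * F x := by
  have h1 : IntegrableOn (fun x => ψ x * F x) (tsupport ψ) :=
    (hF.integrableOn le_rfl hc hs).continuousOn_mul hψ.continuousOn hc
  refine h1.integrable_of_forall_notMem_eq_zero fun x hx => ?_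
  rw [image_eq_zero_of_notMem_tsupport hx, zero_mul]

/-- traces of products of `L²` functions -/
theorem locLp_trace {u w : EC n → Mat r} (hu : LocLp 2 U u) (hw : LocLp 2 U w) :
    LocLp 1 U fun x => (u x * w x).trace := locLp_bilin_one (rcxTau r) hu hw

theorem rcx_test {ψ : EC n → ℂ} (hψ : IsTestC U ψ) (L : ℂ →L[ℝ] ℝ) :
    IsTest U fun x => L (ψ x) := by
  have hs : tsupport (fun x => L (ψ x)) ⊆ tsupport ψ :=
    closure_mono fun x hx h0 => hx (by simp [h0])
  exact ⟨L.contDiff.comp hψ.1, hψ.2.1.of_isClosed_subset (isClosed_tsupport _) hs,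
    hs.trans hψ.2.2⟩

theorem rcx_dint {ψ F : EC n → ℂ} (hψ : IsTestC U ψ) (hF : LocLp 1 U F) (v : EC n) :
    Integrable fun x => fderiv ℝ ψ x v * F x :=
  integrable_testC ((hψ.1.continuous_fderiv (by simp)).clm_apply continuous_const)
    (hψ.2.1.fderiv_apply ℝ v) ((tsupport_fderiv_apply_subset ℝ v).trans hψ.2.2) hF

theorem rcx_fderiv {ψ : EC n → ℂ} (hψ : IsTestC U ψ) (L : ℂ →L[ℝ] ℝ) (x v : EC n) :
    fderiv ℝ (fun x => L (ψ x)) x v = L (fderiv ℝ ψ x v) := by
  have := (L.hasFDerivAt.comp x (hψ.1.differentiable (by simp) x).hasFDerivAt).fderiv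
  rw [show (fun x => L (ψ x)) = L ∘ ψ from rfl, this]; rfl

/-- from real to complex test functions -/
theorem rcx_cplx {F G G' : EC n → ℂ} (hF : LocLp 1 U F) (hG : LocLp 1 U G) (hG' : LocLp 1 U G')
    {v v' : EC n} (h : ∀ φ, IsTest U φ →
      ∫ x, φ x • F x = ∫ x, (fderiv ℝ φ x v • G x - fderiv ℝ φ x v' • G' x))
    {ψ : EC n → ℂ} (hψ : IsTestC U ψ) :
    ∫ x, ψ x * F x = ∫ x, (fderiv ℝ ψ x v * G x - fderiv ℝ ψ x v' * G' x) := by
  have t1 := rcx_test hψ Complex.reCLM
  have t2 := rcx_test hψ Complex.imCLM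
  have e1 : ∀ x, ψ x * F x =
      Complex.reCLM (ψ x) • F x + Complex.I * (Complex.imCLM (ψ x) • F x) := fun x => by
    conv_lhs => rw [← Complex.re_add_im (ψ x)]
    simp only [Complex.reCLM_apply, Complex.imCLM_apply, Complex.real_smul]; ring
  have e2 : ∀ x, fderiv ℝ ψ x v * G x - fderiv ℝ ψ x v' * G' x =
      (fderiv ℝ (fun x => Complex.reCLM (ψ x)) x v • G x -
        fderiv ℝ (fun x => Complex.reCLM (ψ x)) x v' • G' x) +
      Complex.I * (fderiv ℝ (fun x => Complex.imCLM (ψ x)) x v • G x -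
        fderiv ℝ (fun x => Complex.imCLM (ψ x)) x v' • G' x) := fun x => by
    simp only [rcx_fderiv hψ]
    conv_lhs => rw [← Complex.re_add_im (fderiv ℝ ψ x v), ← Complex.re_add_im (fderiv ℝ ψ x v')]
    simp only [Complex.reCLM_apply, Complex.imCLM_apply, Complex.real_smul]; ring
  have i : ∀ φ, IsTest U φ →
      Integrable fun x => fderiv ℝ φ x v • G x - fderiv ℝ φ x v' • G' x := fun φ hφ =>
    (hG.integrable_dtest le_rfl hφ v).sub (hG'.integrable_dtest le_rfl hφ v')
  simp only [e1, e2]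
  rw [integral_add (hF.integrable_test le_rfl t1) ((hF.integrable_test le_rfl t2).const_mul _),
    integral_add (i _ t1) ((i _ t2).const_mul _),
    integral_const_mul, integral_const_mul, h _ t1, h _ t2]

theorem rcx_int2 {a b : EC n → ℂ} (ha : Integrable a) (hb : Integrable b) (c d : ℂ) :
    ∫ x, (c * a x + d * b x) = c * (∫ x, a x) + d * ∫ x, b x := by
  rw [integral_add (ha.const_mul _) (hb.const_mul _), integral_const_mul, integral_const_mul]

theorem rcx_int4 {a b a' b' : EC n → ℂ} (ha : Integrable a) (hb : Integrable b)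
    (ha' : Integrable a') (hb' : Integrable b') (c d c' d' : ℂ) :
    ∫ x, ((c * a x + d * b x) + (c' * a' x + d' * b' x)) =
      (c * (∫ x, a x) + d * ∫ x, b x) + (c' * (∫ x, a' x) + d' * ∫ x, b' x) := by
  have i1 : Integrable fun x => c * a x + d * b x := (ha.const_mul _).add (hb.const_mul _)
  have i2 : Integrable fun x => c' * a' x + d' * b' x := (ha'.const_mul _).add (hb'.const_mul _)
  rw [integral_add i1 i2, rcx_int2 ha hb, rcx_int2 ha' hb']

/-- complex form of the null Lagrangian identity -/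
theorem null_lagr_cx (hU : IsOpen U) {u w : EC n → Mat r} {Du Dw : EC n → EC n →L[ℝ] Mat r}
    (hu : WD 2 U u Du) (hw : WD 2 U w Dw) {ψ : EC n → ℂ} (hψ : IsTestC U ψ) (l m : Fin n) :
    ∫ x, ψ x * ((d2 (Du x) m * d1 (Dw x) l).trace - (d1 (Du x) l * d2 (Dw x) m).trace) =
      ∫ x, (d2 (fderiv ℝ ψ x) m * (d1 (Du x) l * w x).trace -
        d1 (fderiv ℝ ψ x) l * (d2 (Du x) m * w x).trace) := by
  have lF : ∀ v v' : EC n, LocLp 1 U fun x =>
      (Du x v * Dw x v').trace - (Du x v' * Dw x v).trace := fun v v' =>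
    (locLp_trace (hu.2.1.apply v) (hw.2.1.apply v')).sub
      (locLp_trace (hu.2.1.apply v') (hw.2.1.apply v))
  have lG : ∀ v : EC n, LocLp 1 U fun x => (Du x v * w x).trace := fun v =>
    locLp_trace (hu.2.1.apply v) hw.1
  have key : ∀ v v' : EC n, ∫ x, ψ x * ((Du x v * Dw x v').trace - (Du x v' * Dw x v).trace) =
      ∫ x, (fderiv ℝ ψ x v * (Du x v' * w x).trace - fderiv ℝ ψ x v' * (Du x v * w x).trace) :=
    fun v v' => rcx_cplx (lF v v') (lG v') (lG v)
      (fun φ hφ => null_lagr hU (rcxTau r) hu hw hφ v v') hψ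
  have iL : ∀ v v' : EC n, Integrable fun x =>
      ψ x * ((Du x v * Dw x v').trace - (Du x v' * Dw x v).trace) := fun v v' =>
    integrable_testC hψ.1.continuous hψ.2.1 hψ.2.2 (lF v v')
  have iR : ∀ v v' : EC n, Integrable fun x =>
      fderiv ℝ ψ x v * (Du x v' * w x).trace - fderiv ℝ ψ x v' * (Du x v * w x).trace :=
    fun v v' => (rcx_dint hψ (lG v') v).sub (rcx_dint hψ (lG v) v')
  set a : EC n := EuclideanSpace.single m 1 with ha
  set b : EC n := EuclideanSpace.single m Complex.I with hb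
  set c : EC n := EuclideanSpace.single l 1 with hc
  set d : EC n := EuclideanSpace.single l Complex.I with hd
  have h1 := rcx_int4 (iL a c) (iL a d) (iL b c) (iL b d) 4⁻¹ (-(4⁻¹ * Complex.I))
    (4⁻¹ * Complex.I) (-(4⁻¹ * Complex.I * Complex.I))
  have h2 := rcx_int4 (iR a c) (iR a d) (iR b c) (iR b d) 4⁻¹ (-(4⁻¹ * Complex.I))
    (4⁻¹ * Complex.I) (-(4⁻¹ * Complex.I * Complex.I))
  rw [key, key, key, key, ← h2] at h1
  refine Eq.trans (integral_congr_ae (Eventually.of_forall fun x => ?_))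
    (h1.trans (integral_congr_ae (Eventually.of_forall fun x => ?_)))
  · simp only [d1, d2, ← ha, ← hb, ← hc, ← hd, Matrix.smul_mul, Matrix.mul_smul, Matrix.add_mul,
      Matrix.mul_add, Matrix.sub_mul, Matrix.mul_sub, trace_smul, trace_add, trace_sub,
      smul_eq_mul]
    ring
  · simp only [d1, d2, ← ha, ← hb, ← hc, ← hd, Matrix.smul_mul, Matrix.add_mul,
      Matrix.sub_mul, trace_smul, trace_add, trace_sub, smul_eq_mul]
    ring

/-- complex form of the product rule -/
theorem prod_cx (hU : IsOpen U) {u w : EC n → Mat r} {Du Dw : EC n → EC n →L[ℝ] Mat r}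
    (hu : WD 2 U u Du) (hw : WD 2 U w Dw) {ψ : EC n → ℂ} (hψ : IsTestC U ψ) (m : Fin n) :
    ∫ x, d2 (fderiv ℝ ψ x) m * (u x * w x).trace =
      -∫ x, ψ x * ((d2 (Du x) m * w x).trace + (u x * d2 (Dw x) m).trace) := by
  have hT := wd_bilin_one hU (rcxTau r) hu hw
  have lF : ∀ v : EC n, LocLp 1 U fun x => (Du x v * w x).trace + (u x * Dw x v).trace :=
    fun v => (locLp_trace (hu.2.1.apply v) hw.1).add (locLp_trace hu.1 (hw.2.1.apply v))
  have lG : LocLp 1 U fun x => (u x * w x).trace := locLp_trace hu.1 hw.1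
  have key : ∀ v : EC n, ∫ x, ψ x * ((Du x v * w x).trace + (u x * Dw x v).trace) =
      -∫ x, fderiv ℝ ψ x v * (u x * w x).trace := fun v => by
    have := rcx_cplx (lF v) (LocLp.of_continuousOn (continuousOn_const (c := (0 : ℂ)))) lG
      (v := v) (v' := v) (fun φ hφ => by
        have h := hT.2.2 φ hφ v
        simp only [smul_zero, zero_sub]
        rw [integral_neg]
        exact (neg_eq_iff_eq_neg.2 h).symm) hψ
    simpa [integral_neg] using this
  have iL : ∀ v : EC n, Integrable fun x =>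
      ψ x * ((Du x v * w x).trace + (u x * Dw x v).trace) := fun v =>
    integrable_testC hψ.1.continuous hψ.2.1 hψ.2.2 (lF v)
  set a : EC n := EuclideanSpace.single m 1 with ha
  set b : EC n := EuclideanSpace.single m Complex.I with hb
  have h1 := rcx_int2 (iL a) (iL b) 2⁻¹ (2⁻¹ * Complex.I)
  have h2 := rcx_int2 (rcx_dint hψ lG a) (rcx_dint hψ lG b) 2⁻¹ (2⁻¹ * Complex.I)
  rw [key, key] at h1
  have e1 : ∫ x, d2 (fderiv ℝ ψ x) m * (u x * w x).trace =
      ∫ x, (2⁻¹ * (fderiv ℝ ψ x a * (u x * w x).trace) +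
        2⁻¹ * Complex.I * (fderiv ℝ ψ x b * (u x * w x).trace)) :=
    integral_congr_ae (Eventually.of_forall fun x => by
      simp only [d2, ← ha, ← hb, smul_eq_mul]; ring)
  have e2 : ∫ x, ψ x * ((d2 (Du x) m * w x).trace + (u x * d2 (Dw x) m).trace) =
      ∫ x, (2⁻¹ * (ψ x * ((Du x a * w x).trace + (u x * Dw x a).trace)) +
        2⁻¹ * Complex.I * (ψ x * ((Du x b * w x).trace + (u x * Dw x b).trace))) :=
    integral_congr_ae (Eventually.of_forall fun x => by
      simp only [d2, ← ha, ← hb, Matrix.smul_mul, Matrix.mul_smul, Matrix.add_mul,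
        Matrix.mul_add, trace_smul, trace_add, smul_eq_mul]
      ring)
  rw [e1, e2, h1, h2]
  ring

end Pool.Agent.PW
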