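import Pool.Agent.P.MP_65ad7c_ag.RCmp
import Pool.Agent.P.MP_65ad7c_ag.RPt

open MeasureTheory Set Filter Topology Metric Matrix
open scoped ComplexOrder ContDiff Matrix.Norms.Frobenius RealInnerProductSpace ENNReal
open Pool.Agent.Lib.Sob

noncomputable section
namespace Pool.Agent.PW

variable {E : Type} [NormedAddCommGroup E] [InnerProductSpace ℝ E] [FiniteDimensional ℝ E]
  [MeasurableSpace E] [BorelSpace E] {r : ℕ} {U : Set E}
  {α : E → E →L[ℝ] E} {h : E → Mat r} {D : E → E →L[ℝ] Mat r}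

theorem rdq1_shift {V : Type} [NormedAddCommGroup V] {u : E → V} {K K' : Set E}
    (hK' : MeasurableSet K') (hu : AEStronglyMeasurable u (volume.restrict K')) {v : E}
    (hv : ∀ x ∈ K, x + v ∈ K') : N2 K (fun x => u (x + v)) ≤ N2 K' u := by
  have a := (measurePreserving_add_right (volume : Measure E) v).restrict_preimage hK'
  have b := eLpNorm_comp_measurePreserving (p := 2) hu a
  exact (eLpNorm_mono_measure _ (Measure.restrict_mono (fun x hx => hv x hx) le_rfl)).trans b.le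

omit [MeasurableSpace E] [BorelSpace E] in
theorem rdq1_lip (hU : IsOpen U) (hα : Coef U α) {K : Set E} (hK : IsCompact K) {δ : ℝ}
    (hδ : 0 ≤ δ) (hs : cthickening δ K ⊆ U) :
    ∃ M : ℝ, ∀ x ∈ K, ∀ v : E, ‖v‖ ≤ δ → ‖α x - α (x + v)‖ ≤ M * ‖v‖ := by
  obtain ⟨M, hM⟩ := hK.cthickening.exists_bound_of_continuousOn
    ((hα.1.continuousOn_fderiv_of_isOpen hU (by simp)).mono hs)
  refine ⟨M, fun x hx v hv => ?_⟩
  have hb : closedBall x δ ⊆ cthickening δ K := closedBall_subset_cthickening hx δ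
  have := (convex_closedBall x δ).norm_image_sub_le_of_norm_fderiv_le (𝕜 := ℝ) (f := α)
    (fun y hy => (hα.1.contDiffAt (hU.mem_nhds (hs (hb hy)))).differentiableAt (by simp))
    (fun y hy => hM y (hb hy)) (x := x + v) (y := x) (by simpa using hv) (mem_closedBall_self hδ)
  simpa using this

/-- the difference quotient estimate -/
theorem dq_bound (hU : IsOpen U) (hα : Coef U α) (H : LH U α h D) {K : Set E} (hK : IsCompact K)
    (hKU : K ⊆ U) : ∃ δ C : ℝ, 0 < δ ∧ 0 ≤ C ∧ cthickening δ K ⊆ U ∧ ∀ v : E, ‖v‖ ≤ δ →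
      N2 K (fun x => dk (h x) (h (x + v)) (D x) (D (x + v))) ≤ ENNReal.ofReal (C * ‖v‖) := by
  obtain ⟨χ, hχ, h1, h01⟩ := exists_cutoff hK hU hKU
  have χ1 : ∀ x ∈ K, χ x = 1 := fun x hx => h1.self_of_nhdsSet x hx
  have c1 : IsCompact (tsupport χ) := hχ.2.1.isCompact
  have s1 : K ⊆ tsupport χ := fun x hx => subset_tsupport χ (by
    rw [Function.mem_support, χ1 x hx]; exact one_ne_zero)
  obtain ⟨δ, hδ, s2⟩ := c1.exists_cthickening_subset_open hU hχ.2.2
  have c2 : IsCompact (cthickening δ (tsupport χ)) := c1.cthickening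
  obtain ⟨C, hC1, hC⟩ := H.lbd _ c2 s2
  have C0 : 0 < C := by linarith
  obtain ⟨l, L, hl, hE⟩ := hα.ell c1 hχ.2.2
  obtain ⟨M, hM⟩ := rdq1_lip hU hα c1 hδ.le s2
  obtain ⟨G, hG⟩ := (hχ.2.1.fderiv ℝ).exists_bound_of_continuous hχ.continuous_fderiv
  obtain ⟨C₁, hC₁, hp⟩ := dq_pointwise E r (L := L) C0 hl
  have mD := H.wd.2.1 _ c2 s2
  obtain ⟨N, N0, hN⟩ : ∃ N : ℝ, 0 ≤ N ∧ N2 (cthickening δ (tsupport χ)) D = ENNReal.ofReal N :=
    ⟨_, ENNReal.toReal_nonneg, (ENNReal.ofReal_toReal mD.2.ne).symm⟩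
  refine ⟨δ, √(2 * C ^ 2 * C₁ * (M ^ 2 + G ^ 2) * N ^ 2 / l), hδ, Real.sqrt_nonneg _,
    (cthickening_subset_of_subset δ s1).trans s2, fun v hv => ?_⟩
  have m2 : ∀ x ∈ tsupport χ, x + v ∈ cthickening δ (tsupport χ) := fun x hx =>
    mem_cthickening_of_dist_le _ x δ _ hx (by simpa using hv)
  have m1 : ∀ x ∈ tsupport χ, x ∈ cthickening δ (tsupport χ) := fun x hx =>
    self_subset_cthickening _ hx
  have cv : Continuous fun x : E => x + v := continuous_id.add continuous_const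
  have o1 : IsOpen (U ∩ {x | x + v ∈ U}) := hU.inter (hU.preimage cv)
  have k1 : tsupport χ ⊆ U ∩ {x | x + v ∈ U} := fun x hx => ⟨hχ.2.2 hx, s2 (m2 x hx)⟩
  have H1 := H.mono (U' := U ∩ {x | x + v ∈ U}) inter_subset_left
  have H2 := (H.translate v).mono (U' := U ∩ {x | x + v ∈ U}) inter_subset_right
  have hη : WD 2 (U ∩ {x | x + v ∈ U}) (fun x => χ x ^ 2) fun x => (2 * χ x) • fderiv ℝ χ x := by
    refine (WD.of_contDiff (by norm_num) ((hχ.1.of_le (by simp)).pow 2)).congr' (fun _ _ => rfl)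
      fun x _ => ?_
    simpa using ((hχ.differentiable x).hasFDerivAt.pow 2).fderiv
  obtain ⟨i1, i2, i3, e⟩ := cmp_identity o1 (hα.1.continuousOn.mono inter_subset_left)
    (hα.1.continuousOn.comp cv.continuousOn fun x hx => hx.2) (fun x hx => (hα.2 x hx.1).1) H1 H2 hη
    (fun _ _ _ => ⟨1, fun x _ => by
      rw [Real.norm_of_nonneg (sq_nonneg _)]
      exact pow_le_one₀ (h01 x).1 (h01 x).2⟩)
    ⟨_, c1, k1, fun x _ hx => by simp [image_eq_zero_of_notMem_tsupport hx]⟩
  rw [setIntegral_eq_of_subset_of_forall_sdiff_eq_zero o1.measurableSet k1 fun x hx => by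
      simp [image_eq_zero_of_notMem_tsupport hx.2],
    setIntegral_eq_of_subset_of_forall_sdiff_eq_zero o1.measurableSet k1 fun x hx => by
      simp [image_eq_zero_of_notMem_tsupport hx.2, spair],
    setIntegral_eq_of_subset_of_forall_sdiff_eq_zero o1.measurableSet k1 fun x hx => by
      simp [image_eq_zero_of_notMem_tsupport hx.2, pair]] at e
  replace i1 := i1.mono_set k1
  replace i2 := i2.mono_set k1
  replace i3 := i3.mono_set k1
  have a1 : MemLp (fun x => D (x + v)) 2 (volume.restrict (tsupport χ)) := H2.wd.2.1 _ c1 k1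
  have a2 : MemLp (fun x => h (x + v) - h x) 2 (volume.restrict (tsupport χ)) :=
    (H2.wd.1.sub H1.wd.1) _ c1 k1
  have b1 := integral_sq_le_of_N2 a1 N0 ((rdq1_shift c2.measurableSet mD.1 m2).trans hN.le)
  have b2 := integral_sq_le_of_N2 a2 (mul_nonneg (norm_nonneg v) N0)
    ((dq_le hU H.wd c1 s2 hv).trans (by rw [hN, ENNReal.ofReal_mul (norm_nonneg v)]))
  have j1 := a1.integrable_norm_pow two_ne_zero
  have j2 := a2.integrable_norm_pow two_ne_zero
  have j3 : Integrable (fun x => (M * ‖v‖) ^ 2 * ‖D (x + v)‖ ^ 2 + G ^ 2 * ‖h (x + v) - h x‖ ^ 2)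
      (volume.restrict (tsupport χ)) := (j1.const_mul _).add (j2.const_mul _)
  have key := setIntegral_mono_on (i3.sub i2) ((i1.const_mul 2⁻¹).add (j3.const_mul C₁))
    c1.measurableSet fun x hx => by
      have := hp (h x) (h (x + v)) (D x) (D (x + v)) (α x) (α (x + v)) (χ x) (M * ‖v‖)
        (fderiv ℝ χ x) (hC _ (m1 x hx)) (hC _ (m2 x hx)) (hE x hx) (hM x hx v hv)
      refine this.trans (add_le_add le_rfl (mul_le_mul_of_nonneg_left (add_le_add ?_ ?_) hC₁))
      · exact mul_le_mul_of_nonneg_left (mul_le_of_le_one_left (sq_nonneg _)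
          (pow_le_one₀ (h01 x).1 (h01 x).2)) (sq_nonneg _)
      · exact mul_le_mul_of_nonneg_right (pow_le_pow_left₀ (norm_nonneg _) (hG x) 2) (sq_nonneg _)
  simp only [Pi.sub_apply, Pi.add_apply] at key
  rw [integral_sub i3 i2, integral_add (i1.const_mul _) (j3.const_mul _), integral_const_mul,
    integral_const_mul,
    integral_add (j1.const_mul _) (j2.const_mul _), integral_const_mul, integral_const_mul] at key
  have f1 : ∫ x in tsupport χ, χ x ^ 2 * qq (α x) (h x) (h (x + v)) (D x) (D (x + v)) ≤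
      2 * C₁ * (M ^ 2 + G ^ 2) * N ^ 2 * ‖v‖ ^ 2 := by
    have t1 := mul_le_mul_of_nonneg_left b1 (sq_nonneg (M * ‖v‖))
    have t2 := mul_le_mul_of_nonneg_left b2 (sq_nonneg G)
    have t3 := mul_le_mul_of_nonneg_left (add_le_add t1 t2) hC₁
    linear_combination 2 * e + 2 * key + 2 * t3
  have a3 : MemLp (fun x => dk (h x) (h (x + v)) (D x) (D (x + v))) 2 (volume.restrict K) :=
    (wd_k o1 H1.wd H2.wd H1.lbd H2.lbd).2.1 _ hK (s1.trans k1)
  have q : ∀ x ∈ tsupport χ, l * ‖dk (h x) (h (x + v)) (D x) (D (x + v))‖ ^ 2 ≤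
      C ^ 2 * qq (α x) (h x) (h (x + v)) (D x) (D (x + v)) := fun x hx =>
    norm_dk_sq_le C0 (hC _ (m1 x hx)) (hC _ (m2 x hx)) hl.le (hE x hx) _ _
  have f2 := setIntegral_mono_on ((a3.integrable_norm_pow two_ne_zero).const_mul l)
    ((i1.mono_set s1).const_mul (C ^ 2)) hK.measurableSet fun x hx => by
      rw [χ1 x hx, one_pow, one_mul]
      exact q x (s1 hx)
  rw [integral_const_mul, integral_const_mul] at f2
  have f3 := setIntegral_mono_set i1 (ae_restrict_of_forall_mem c1.measurableSet fun x hx =>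
    mul_nonneg (sq_nonneg _) (nonneg_of_mul_nonneg_right
      ((mul_nonneg hl.le (sq_nonneg _)).trans (q x hx)) (by positivity))) s1.eventuallyLE
  refine N2_le_of_integral_sq a3 (by positivity) ?_
  rw [mul_pow, Real.sq_sqrt (by positivity), div_mul_eq_mul_div, le_div_iff₀ hl]
  have := mul_le_mul_of_nonneg_left (f3.trans f1) (sq_nonneg C)
  linear_combination f2 + this

end Pool.Agent.PW
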