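import Pool.Agent.P.MP_65ad7c_ag.RDq1
import Pool.Agent.P.MP_65ad7c_ag.TWeak2

open MeasureTheory Set Filter Topology Metric Matrix
open scoped ComplexOrder ContDiff Matrix.Norms.Frobenius RealInnerProductSpace ENNReal
open Pool.Agent.Lib.Sob

noncomputable section
namespace Pool.Agent.PW

variable {E : Type} [NormedAddCommGroup E] [InnerProductSpace ℝ E] [FiniteDimensional ℝ E]
  [MeasurableSpace E] [BorelSpace E] {r : ℕ} {U : Set E}
  {α : E → E →L[ℝ] E} {h : E → Mat r} {D : E → E →L[ℝ] Mat r}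

/-- a form whose components are Sobolev functions is a Sobolev function -/
theorem wd_of_components {V : Type} [NormedAddCommGroup V] [NormedSpace ℝ V] [CompleteSpace V]
    {A : E → E →L[ℝ] V} (h : ∀ p, ∃ γ, WD 2 U (fun x => A x (ob E p)) γ) : ∃ β, WD 2 U A β := by
  choose γ hγ using h
  have key : ∀ s : Finset (Fin (Module.finrank ℝ E)), ∃ β, WD 2 U (fun x => ∑ p ∈ s,
      ContinuousLinearMap.smulRightL ℝ E V (innerSL ℝ (ob E p)) (A x (ob E p))) β := by
    intro s
    induction s using Finset.induction_on with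
    | empty => exact ⟨_, by simpa using WD.const one_le_two (0 : E →L[ℝ] V)⟩
    | insert p s hp ih =>
      obtain ⟨β, hβ⟩ := ih
      simp only [Finset.sum_insert hp]
      exact ⟨_, ((hγ p).clm one_le_two _).add one_le_two hβ⟩
  obtain ⟨β, hβ⟩ := key Finset.univ
  refine ⟨β, hβ.congr' (fun x _ => ?_) fun _ _ => rfl⟩
  ext v
  conv_rhs => rw [← (ob E).sum_repr' v, map_sum]
  simp

theorem rdq2_smul {V : Type} [NormedAddCommGroup V] [NormedSpace ℝ V] (K : Set E) (c : ℝ)
    (f : E → V) : N2 K (fun x => c • f x) ≤ ‖c‖ₑ * eLpNorm f 2 (volume.restrict K) :=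
  eLpNorm_const_smul_le (c := c) (f := f)

theorem rdq2_alg {P Q X : Mat r} (hP : P.PosDef) (t : ℝ) :
    t • (P⁻¹ * Q - 1) - P⁻¹ * X = P⁻¹ * (t • (Q - P) - X) := by
  rw [Matrix.mul_sub, Matrix.mul_smul, Matrix.mul_sub,
    Matrix.nonsing_inv_mul P ((isUnit_iff_isUnit_det P).1 hP.isUnit)]

/-- the Maurer-Cartan form of a weakly harmonic metric is in `W^{1,2}` -/
theorem wd_mc (hU : IsOpen U) (hα : Coef U α) (H : LH U α h D) {U' K : Set E} (hU' : IsOpen U')
    (hK : IsCompact K) (h1 : U' ⊆ K) (h2 : K ⊆ U) :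
    ∃ β, WD 2 U' (fun x => mc (h x) (D x)) β := by
  obtain ⟨δ, C, hδ, hC, hth, hb⟩ := dq_bound hU hα H hK h2
  refine wd_of_components fun p => ?_
  obtain ⟨e, he⟩ : ∃ e, e = ob E p := ⟨_, rfl⟩
  have hn : ‖e‖ = 1 := by rw [he]; exact (ob E).norm_eq_one p
  rw [← he]
  obtain ⟨s, s0, sδ, st⟩ : ∃ s : ℕ → ℝ, (∀ m, 0 < s m) ∧ (∀ m, s m ≤ δ) ∧
      Tendsto s atTop (𝓝[>] 0) := by
    obtain ⟨s, -, hs, ht⟩ := exists_seq_strictAnti_tendsto' hδ
    exact ⟨s, fun m => (hs m).1, fun m => (hs m).2.le,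
      tendsto_nhdsWithin_iff.2 ⟨ht, Eventually.of_forall fun m => (hs m).1⟩⟩
  have hse : ∀ m, ‖s m • e‖ = s m := fun m => by
    rw [norm_smul, hn, mul_one, Real.norm_of_nonneg (s0 m).le]
  have H1 := H.mono (h1.trans h2)
  have H2 : ∀ m, LH U' (fun x => α (x + s m • e)) (fun x => h (x + s m • e))
      fun x => D (x + s m • e) := fun m => (H.translate (s m • e)).mono fun x hx =>
    hth (mem_cthickening_of_dist_le _ x δ K (h1 hx) (by
      rw [dist_eq_norm, add_sub_cancel_left, hse]; exact sδ m))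
  refine Exists.imp (fun _ hβ => hβ.1) (wd_weak hU' (v := fun x => mc (h x) (D x) e)
    (fun m => ((wd_k hU' H1.wd (H2 m).wd H1.lbd (H2 m).lbd).sub_const one_le_two 1).const_smul
      (s m)⁻¹) ((locLp_mc hU' H1.wd H1.lbd).apply e) (fun K' hK' hK'U => ?_)
    fun K' hK' hK'U => ⟨C, fun m => ?_⟩)
  · obtain ⟨B, hB⟩ := H1.lbd.lb_inv K' hK' hK'U
    have : IsFiniteMeasure (volume.restrict K') := ⟨by simpa using hK'.measure_lt_top⟩
    have t1 := (dq_tendsto hU H.wd hK' (hK'U.trans (h1.trans h2)) e).comp st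
    have t2 : Tendsto (fun m => ∫⁻ x in K',
        ‖(s m)⁻¹ • (h (x + s m • e) - h x) - D x e‖ₑ) atTop (𝓝 0) := by
      refine tendsto_lintegral_one_of_pow one_le_two (fun m => ?_) ?_
      · exact ((((H2 m).wd.1.sub H1.wd.1).smul (continuousOn_const (c := (s m)⁻¹))).sub
          (H1.wd.2.1.apply e) K' hK' hK'U).1
      · simp only [lintegral_pow_eq one_le_two]
        simpa [N2] using ENNReal.Tendsto.pow (n := 2) t1
    have t3 := ENNReal.Tendsto.const_mul (a := ENNReal.ofReal B) t2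
      (Or.inr ENNReal.ofReal_ne_top)
    rw [mul_zero] at t3
    refine tendsto_of_tendsto_of_tendsto_of_le_of_le tendsto_const_nhds t3 (fun _ => zero_le)
      fun m => ?_
    beta_reduce
    rw [← lintegral_const_mul' _ _ ENNReal.ofReal_ne_top]
    refine setLIntegral_mono' hK'.measurableSet fun x hx => ?_
    rw [mc, lmul_apply, rdq2_alg (H1.lbd.posDef x (hK'U hx)), ← ofReal_norm, ← ofReal_norm,
      ← ENNReal.ofReal_mul ((norm_nonneg _).trans (hB x hx))]
    exact ENNReal.ofReal_le_ofReal ((norm_mul_le _ _).trans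
      (mul_le_mul_of_nonneg_right (hB x hx) (norm_nonneg _)))
  · have h3 := hb (s m • e) ((hse m).trans_le (sδ m))
    rw [hse] at h3
    have h4 := (eLpNorm_mono_measure _ (Measure.restrict_mono (hK'U.trans h1) le_rfl)).trans h3
    refine (rdq2_smul K' (s m)⁻¹ _).trans ((mul_le_mul_right h4 _).trans (le_of_eq ?_))
    rw [Real.enorm_eq_ofReal (inv_nonneg.2 (s0 m).le),
      ← ENNReal.ofReal_mul (inv_nonneg.2 (s0 m).le), mul_comm C, ← mul_assoc,
      inv_mul_cancel₀ (s0 m).ne', one_mul]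

end Pool.Agent.PW
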