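import Pool.Agent.P.MP_65ad7c_ag.RBase

open MeasureTheory Set Filter Topology Metric Matrix
open scoped ComplexOrder ContDiff Matrix.Norms.Frobenius RealInnerProductSpace ENNReal
open Pool.Agent.Lib.Sob

noncomputable section
namespace Pool.Agent.PW

variable {n r : ℕ}

section aux
variable {V : Type} [NormedAddCommGroup V] [NormedSpace ℝ V] [NormedSpace ℂ V] [IsScalarTower ℝ ℂ V]

theorem rinv_single (j : Fin n) :
    (EuclideanSpace.single j Complex.I : EC n) = Complex.I • EuclideanSpace.single j (1 : ℂ) := by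
  ext p
  by_cases h : p = j <;> simp [h]

theorem rinv_exp (X : EC n →L[ℝ] V) (v : EC n) :
    X v = ∑ p, (v p • d1 X p + (starRingEnd ℂ) (v p) • d2 X p) := by
  have e : v = ∑ p, ((v p).re • (EuclideanSpace.single p (1 : ℂ) : EC n) +
      (v p).im • (EuclideanSpace.single p Complex.I : EC n)) := by
    ext q
    simp [Finset.sum_apply, Finset.sum_add_distrib, Pi.single_apply]
  conv_lhs => rw [e]
  rw [map_sum]
  refine Finset.sum_congr rfl fun p _ => ?_
  rw [map_add, map_smul, map_smul, ← algebraMap_smul ℂ (v p).re, ← algebraMap_smul ℂ (v p).im]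
  simp only [d1, d2, Complex.coe_algebraMap]
  have h1 : ((v p).re : ℂ) = (v p + (starRingEnd ℂ) (v p)) / 2 := Complex.re_eq_add_conj _
  have h2 : ((v p).im : ℂ) = -Complex.I * (v p - (starRingEnd ℂ) (v p)) / 2 := by
    rw [Complex.sub_conj]
    push_cast
    linear_combination ((v p).im : ℂ) * Complex.I_mul_I
  rw [h1, h2]
  match_scalars <;> ring

theorem rinv_hol (X : EC n →L[ℝ] V) (w : EC n) :
    (2 : ℂ)⁻¹ • (X w - Complex.I • X (Complex.I • w)) = ∑ p, w p • d1 X p := by
  rw [rinv_exp X w, rinv_exp X (Complex.I • w), Finset.smul_sum, ← Finset.sum_sub_distrib,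
    Finset.smul_sum]
  refine Finset.sum_congr rfl fun p _ => ?_
  simp only [PiLp.smul_apply, smul_eq_mul, map_mul, Complex.conj_I]
  match_scalars
  · linear_combination (-(w p) / 2) * Complex.I_mul_I
  · linear_combination ((starRingEnd ℂ) (w p) / 2) * Complex.I_mul_I

theorem rinv_anti (X : EC n →L[ℝ] V) (w : EC n) :
    (2 : ℂ)⁻¹ • (X w + Complex.I • X (Complex.I • w)) = ∑ p, (starRingEnd ℂ) (w p) • d2 X p := by
  rw [rinv_exp X w, rinv_exp X (Complex.I • w), Finset.smul_sum, ← Finset.sum_add_distrib,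
    Finset.smul_sum]
  refine Finset.sum_congr rfl fun p _ => ?_
  simp only [PiLp.smul_apply, smul_eq_mul, map_mul, Complex.conj_I]
  match_scalars
  · linear_combination ((w p) / 2) * Complex.I_mul_I
  · linear_combination (-(starRingEnd ℂ) (w p) / 2) * Complex.I_mul_I

end aux

theorem rinv_tr (x y : Fin n → ℂ) (a b : Fin n → Mat r) :
    ((∑ p, x p • a p) * ∑ q, y q • b q).trace = ∑ p, ∑ q, x p * y q * (a p * b q).trace := by
  rw [Finset.sum_mul_sum, trace_sum]
  refine Finset.sum_congr rfl fun p _ => ?_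
  rw [trace_sum]
  refine Finset.sum_congr rfl fun q _ => ?_
  rw [smul_mul_smul_comm, trace_smul, smul_eq_mul]

theorem rinv_cm (x y : Fin n → ℂ) (a b : Fin n → Mat r) :
    cm (∑ p, x p • a p) (∑ q, y q • b q) = ∑ q, ∑ p, (y q * x p) • cm (a p) (b q) := by
  unfold cm
  rw [Finset.sum_mul_sum, Finset.sum_comm, Finset.sum_mul_sum, ← Finset.sum_sub_distrib]
  refine Finset.sum_congr rfl fun q _ => ?_
  rw [← Finset.sum_sub_distrib]
  refine Finset.sum_congr rfl fun p _ => ?_
  rw [smul_mul_smul_comm, smul_mul_smul_comm, mul_comm (x p), smul_sub]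

theorem rinv_multi (x y z w p1 p2 : Fin n → ℂ) (Q : Fin n → Fin n → ℂ) (a b : Fin n → Mat r) :
    (∑ s, ∑ t, z s * w t * Q s t) * ((∑ p, x p • a p) * ∑ q, y q • b q).trace -
      2⁻¹ * (∑ s, z s * p1 s) *
        ((∑ p, x p • a p) * cm (∑ t, w t • b t) (∑ q, y q • b q)).trace -
      2⁻¹ * (∑ t, w t * p2 t) *
        (cm (∑ s, z s • a s) (∑ p, x p • a p) * ∑ q, y q • b q).trace =
    ∑ p, ∑ q, ∑ s, ∑ t, x p * y q * z s * w t * (Q s t * (a p * b q).trace -
      2⁻¹ * p1 s * (a p * cm (b t) (b q)).trace - 2⁻¹ * p2 t * (cm (a s) (a p) * b q).trace) := by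
  have h1 : (∑ s, ∑ t, z s * w t * Q s t) * ((∑ p, x p • a p) * ∑ q, y q • b q).trace =
      ∑ p, ∑ q, ∑ s, ∑ t, x p * y q * z s * w t * (Q s t * (a p * b q).trace) := by
    rw [rinv_tr, Finset.mul_sum]
    refine Finset.sum_congr rfl fun p _ => ?_
    rw [Finset.mul_sum]
    refine Finset.sum_congr rfl fun q _ => ?_
    rw [Finset.sum_mul]
    refine Finset.sum_congr rfl fun s _ => ?_
    rw [Finset.sum_mul]
    exact Finset.sum_congr rfl fun t _ => by ring
  have h2 : 2⁻¹ * (∑ s, z s * p1 s) *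
      ((∑ p, x p • a p) * cm (∑ t, w t • b t) (∑ q, y q • b q)).trace =
      ∑ p, ∑ q, ∑ s, ∑ t, x p * y q * z s * w t * (2⁻¹ * p1 s * (a p * cm (b t) (b q)).trace) := by
    rw [rinv_cm, Finset.sum_mul_sum, trace_sum, Finset.mul_sum]
    refine Finset.sum_congr rfl fun p _ => ?_
    rw [trace_sum, Finset.mul_sum]
    refine Finset.sum_congr rfl fun q _ => ?_
    rw [Finset.mul_sum _ _ (x p • a p), trace_sum, Finset.mul_sum _ _ (2⁻¹ : ℂ), Finset.sum_mul_sum]
    refine Finset.sum_congr rfl fun s _ => Finset.sum_congr rfl fun t _ => ?_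
    rw [smul_mul_smul_comm, trace_smul, smul_eq_mul]
    ring
  have h3 : 2⁻¹ * (∑ t, w t * p2 t) *
      (cm (∑ s, z s • a s) (∑ p, x p • a p) * ∑ q, y q • b q).trace =
      ∑ p, ∑ q, ∑ s, ∑ t, x p * y q * z s * w t * (2⁻¹ * p2 t * (cm (a s) (a p) * b q).trace) := by
    rw [rinv_cm, Finset.sum_mul_sum, trace_sum, Finset.mul_sum]
    refine Finset.sum_congr rfl fun p _ => ?_
    rw [trace_sum, Finset.mul_sum]
    refine Finset.sum_congr rfl fun q _ => ?_
    rw [Finset.sum_mul _ _ (y q • b q), trace_sum, Finset.mul_sum]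
    refine Finset.sum_congr rfl fun s _ => ?_
    rw [Finset.mul_sum _ _ (2⁻¹ : ℂ), Finset.sum_mul]
    refine Finset.sum_congr rfl fun t _ => ?_
    rw [smul_mul_smul_comm, trace_smul, smul_eq_mul]
    ring
  rw [h1, h2, h3]
  simp only [← Finset.sum_sub_distrib, mul_sub]

theorem rinv_swap (f : Fin n → Fin n → Fin n → Fin n → Fin n → Fin n → Fin n → Fin n → ℂ) :
    ∑ j, ∑ k, ∑ l, ∑ m, ∑ p, ∑ q, ∑ s, ∑ t, f j k l m p q s t =
      ∑ p, ∑ q, ∑ s, ∑ t, ∑ j, ∑ k, ∑ l, ∑ m, f j k l m p q s t := by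
  have h : ∀ g : Fin n → Fin n → Fin n → Fin n → ℂ, ∑ j, ∑ k, ∑ l, ∑ m, g j k l m =
      ∑ x : Fin n × Fin n × Fin n × Fin n, g x.1 x.2.1 x.2.2.1 x.2.2.2 := fun g => by
    simp only [Fintype.sum_prod_type]
  rw [h, h fun p q s t => ∑ j, ∑ k, ∑ l, ∑ m, f j k l m p q s t]
  rw [Finset.sum_congr rfl fun x _ => h _, Finset.sum_comm]
  exact Finset.sum_congr rfl fun y _ => (h fun j k l m => f j k l m y.1 y.2.1 y.2.2.1 y.2.2.2).symm

theorem rinv_contr {M N Wa Wb : Fin n → Fin n → ℂ}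
    (hW : ∀ p q, ∑ j, ∑ k, M p j * Wa j k * N q k = Wb p q) (d : ℂ)
    (T : Fin n → Fin n → Fin n → Fin n → ℂ) :
    ∑ j, ∑ k, ∑ l, ∑ m, d * (Wa j k * Wa l m - Wa j m * Wa l k) *
        ∑ p, ∑ q, ∑ s, ∑ t, M p j * N q k * M s l * N t m * T p q s t =
      ∑ p, ∑ q, ∑ s, ∑ t, d * (Wb p q * Wb s t - Wb p t * Wb s q) * T p q s t := by
  simp only [Finset.mul_sum]
  rw [rinv_swap]
  refine Finset.sum_congr rfl fun p _ => Finset.sum_congr rfl fun q _ =>
    Finset.sum_congr rfl fun s _ => Finset.sum_congr rfl fun t _ => ?_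
  have h1 : Wb p q * Wb s t = ∑ j, ∑ k, ∑ l, ∑ m,
      M p j * Wa j k * N q k * (M s l * Wa l m * N t m) := by
    rw [← hW, ← hW, Finset.sum_mul]
    refine Finset.sum_congr rfl fun j _ => ?_
    rw [Finset.sum_mul]
    refine Finset.sum_congr rfl fun k _ => ?_
    simp only [Finset.mul_sum]
  have h2 : Wb p t * Wb s q = ∑ j, ∑ k, ∑ l, ∑ m,
      M p j * Wa j m * N t m * (M s l * Wa l k * N q k) := by
    rw [← hW, ← hW, Finset.sum_mul]
    refine Finset.sum_congr rfl fun j _ => ?_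
    rw [Finset.sum_comm (f := fun l k => M s l * Wa l k * N q k), Finset.mul_sum]
    refine Finset.sum_congr rfl fun k _ => ?_
    rw [Finset.mul_sum]
    refine Finset.sum_congr rfl fun l _ => ?_
    rw [Finset.sum_mul]
  rw [h1, h2]
  simp only [← Finset.sum_sub_distrib, Finset.mul_sum, Finset.sum_mul]
  exact Finset.sum_congr rfl fun j _ => Finset.sum_congr rfl fun k _ =>
    Finset.sum_congr rfl fun l _ => Finset.sum_congr rfl fun m _ => by ring

theorem rinv_det (J : EC n →L[ℂ] EC n) : (J.restrictScalars ℝ).det =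
    Complex.normSq (Matrix.of fun p j => J (EuclideanSpace.single j 1) p).det := by
  have e : (J.restrictScalars ℝ).det =
      LinearMap.det ((J : EC n →ₗ[ℂ] EC n).restrictScalars ℝ) := rfl
  rw [e, LinearMap.det_restrictScalars, Algebra.norm_complex_apply,
    ← LinearMap.det_toMatrix (EuclideanSpace.basisFun (Fin n) ℂ).toBasis]
  congr 2

theorem rinv_conj {τ τ' : Mat r} (hτ : τ' * τ = 1) (x y : Mat r) :
    τ * x * τ' * (τ * y * τ') = τ * (x * y) * τ' := by
  calc τ * x * τ' * (τ * y * τ') = τ * x * (τ' * τ) * y * τ' := by simp only [Matrix.mul_assoc]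
    _ = _ := by rw [hτ]; simp only [Matrix.mul_one, Matrix.mul_assoc]

theorem rinv_conj_tr {τ τ' : Mat r} (hτ : τ' * τ = 1) (x : Mat r) :
    (τ * x * τ').trace = x.trace := by
  rw [trace_mul_comm, ← Matrix.mul_assoc, hτ, Matrix.one_mul]

theorem rinv_conj_cm {τ τ' : Mat r} (hτ : τ' * τ = 1) (x y : Mat r) :
    cm (τ * x * τ') (τ * y * τ') = τ * cm x y * τ' := by
  unfold cm
  rw [rinv_conj hτ, rinv_conj hτ, Matrix.mul_sub, Matrix.sub_mul]

/-- invariance of the boundary integrand under a holomorphic change of coordinates with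
derivative `J`, second derivative `S`, and a constant gauge transformation -/
theorem SP_inv (J : EC n →L[ℂ] EC n) {ga gb : Mat n} (hga : ga.PosDef) (hgb : gb.PosDef)
    (hg : ∀ u v, herm ga u v = herm gb (J u) (J v)) {τ τ' : Mat r} (hτ : τ' * τ = 1)
    {Aa Ab : EC n →L[ℝ] Mat r} (hA : ∀ v, Aa v = τ * Ab (J v) * τ') {pa pb : EC n →L[ℝ] ℝ}
    (hp : ∀ v, pa v = pb (J v)) {qa qb : EC n →L[ℝ] EC n →L[ℝ] ℝ}
    {S : EC n →L[ℝ] EC n →L[ℝ] EC n} (hS : ∀ v w, S (Complex.I • v) w = Complex.I • S v w)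
    (hS' : ∀ v w, S v (Complex.I • w) = Complex.I • S v w)
    (hq : ∀ v w, qa v w = qb (J v) (J w) + pb (S v w)) :
    SP (kG ga) Aa pa qa = ((|(J.restrictScalars ℝ).det| : ℝ) : ℂ) * SP (kG gb) Ab pb qb := by
  set M : Mat n := Matrix.of fun p j => J (EuclideanSpace.single j 1) p with hM
  have hMa : ∀ p j, J (EuclideanSpace.single j 1) p = M p j := fun _ _ => rfl
  have hg1 : gaᵀ = Mᴴ * gbᵀ * M := by
    ext k j
    have := hg (EuclideanSpace.single j 1) (EuclideanSpace.single k 1)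
    simp only [herm, hMa] at this
    rw [transpose_apply, show ga j k = _ from Eq.trans (by simp) this]
    simp only [Matrix.mul_apply, conjTranspose_apply, transpose_apply, Finset.sum_mul]
    exact Finset.sum_congr rfl fun p _ => Finset.sum_congr rfl fun q _ => by
      rw [Complex.star_def]; ring
  have hdet : ga.det = (Complex.normSq M.det : ℂ) * gb.det := by
    rw [← det_transpose ga, hg1, det_mul, det_mul, det_conjTranspose, det_transpose,
      Complex.normSq_eq_conj_mul_self, Complex.star_def]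
    ring
  have hMu : IsUnit M.det := by
    refine isUnit_iff_ne_zero.2 fun h => hga.det_pos.ne' ?_
    rw [hdet, h]; simp
  have hMu' : IsUnit Mᴴ.det := by
    rw [det_conjTranspose]; exact hMu.star
  have hW : M * kW ga * Mᴴ = kW gb := by
    unfold kW
    rw [hg1, Matrix.mul_inv_rev, Matrix.mul_inv_rev, ← Matrix.mul_assoc, mul_nonsing_inv _ hMu,
      Matrix.one_mul, Matrix.mul_assoc, nonsing_inv_mul _ hMu', Matrix.mul_one]
  have hW' : ∀ p q, ∑ j, ∑ k, M p j * kW ga j k * (starRingEnd ℂ) (M q k) = kW gb p q := by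
    intro p q
    rw [← hW, Finset.sum_comm]
    simp only [Matrix.mul_apply, conjTranspose_apply, Finset.sum_mul, Complex.star_def]
  have ha : ∀ j, d1 Aa j = τ * (∑ p, M p j • d1 Ab p) * τ' := by
    intro j
    simp only [← hMa, ← rinv_hol]
    rw [d1, rinv_single, hA, hA, map_smul]
    simp only [Matrix.mul_smul, Matrix.smul_mul, Matrix.mul_sub, Matrix.sub_mul]
  have hb : ∀ k, d2 Aa k = τ * (∑ q, (starRingEnd ℂ) (M q k) • d2 Ab q) * τ' := by
    intro k
    simp only [← hMa, ← rinv_anti]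
    rw [d2, rinv_single, hA, hA, map_smul]
    simp only [Matrix.mul_smul, Matrix.smul_mul, Matrix.mul_add, Matrix.add_mul]
  have hp1 : ∀ l, d1 (cx pa) l = ∑ s, M s l * d1 (cx pb) s := by
    intro l
    simp only [← hMa, ← smul_eq_mul, ← rinv_hol]
    rw [d1, rinv_single]
    simp only [cx, ContinuousLinearMap.comp_apply, hp, map_smul]
  have hp2 : ∀ m, d2 (cx pa) m = ∑ t, (starRingEnd ℂ) (M t m) * d2 (cx pb) t := by
    intro m
    simp only [← hMa, ← smul_eq_mul, ← rinv_anti]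
    rw [d2, rinv_single]
    simp only [cx, ContinuousLinearMap.comp_apply, hp, map_smul]
  have hq1 : ∀ v m, d2 (cx2 qa v) m = ∑ t, (starRingEnd ℂ) (M t m) * d2 (cx2 qb (J v)) t +
      2⁻¹ * (pb (S v (EuclideanSpace.single m 1)) +
        Complex.I * pb (Complex.I • S v (EuclideanSpace.single m 1))) := by
    intro v m
    simp only [← hMa, ← smul_eq_mul, ← rinv_anti]
    rw [d2, rinv_single]
    simp only [cx2, ContinuousLinearMap.comp_apply, ContinuousLinearMap.compL_apply, hq, map_smul,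
      hS', Complex.ofRealCLM_apply, smul_eq_mul]
    push_cast
    ring
  have hq2 : ∀ l m, d12 (cx2 qa) l m =
      ∑ s, ∑ t, M s l * (starRingEnd ℂ) (M t m) * d12 (cx2 qb) s t := by
    intro l m
    have h1 : ∀ t, ∑ s, M s l * d12 (cx2 qb) s t =
        2⁻¹ * (d2 (cx2 qb (J (EuclideanSpace.single l 1))) t -
          Complex.I * d2 (cx2 qb (Complex.I • J (EuclideanSpace.single l 1))) t) := fun t =>
      (rinv_hol ((d2L t).comp (cx2 qb)) (J (EuclideanSpace.single l 1))).symm
    have h2 : ∑ s, ∑ t, M s l * (starRingEnd ℂ) (M t m) * d12 (cx2 qb) s t =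
        ∑ t, (starRingEnd ℂ) (M t m) * ∑ s, M s l * d12 (cx2 qb) s t := by
      rw [Finset.sum_comm]
      refine Finset.sum_congr rfl fun t _ => ?_
      rw [Finset.mul_sum]
      exact Finset.sum_congr rfl fun s _ => by ring
    rw [h2, d12, hq1, hq1, rinv_single l, J.map_smul, hS, smul_smul, Complex.I_mul_I, neg_one_smul,
      map_neg]
    have e1 : ∀ u f g : Fin n → ℂ, ∑ t, u t * (2⁻¹ * (f t - Complex.I * g t)) =
        2⁻¹ * (∑ t, u t * f t - Complex.I * ∑ t, u t * g t) := fun u f g => by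
      rw [Finset.mul_sum, ← Finset.sum_sub_distrib, Finset.mul_sum]
      exact Finset.sum_congr rfl fun t _ => by ring
    simp only [h1, smul_eq_mul, e1]
    push_cast
    linear_combination (4⁻¹ * (pb (S (EuclideanSpace.single l 1) (EuclideanSpace.single m 1)) : ℂ)) *
      Complex.I_mul_I
  rw [rinv_det, ← hM, abs_of_nonneg (Complex.normSq_nonneg _)]
  unfold SP kG
  simp only [ha, hb, hp1, hp2, hq2, rinv_conj_cm hτ, rinv_conj hτ, rinv_conj_tr hτ, rinv_multi]
  rw [rinv_contr hW', hdet]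
  simp only [Finset.mul_sum, mul_assoc]

end Pool.Agent.PW
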