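import Pool.Agent.P.MP_65ad7c_ag.RCof
import Pool.Agent.P.MP_65ad7c_ag.RInv
import Pool.Agent.P.MP_65ad7c_ag.RAlg
import Pool.Agent.P.MP_65ad7c_ag.RCx
import Pool.Agent.P.MP_65ad7c_ag.BDc
import Pool.Agent.P.MP_65ad7c_ag.BInt

open MeasureTheory Set Filter Topology Metric Matrix
open scoped ComplexOrder ContDiff Matrix.Norms.Frobenius RealInnerProductSpace ENNReal
open Pool.Agent.Lib.Sob

noncomputable section
namespace Pool.Agent.PW

variable {n r : ℕ} {Γ : Type} [Group Γ]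

theorem SP_add (G : Fin n → Fin n → Fin n → Fin n → ℂ) (A : EC n →L[ℝ] Mat r)
    (p p' : EC n →L[ℝ] ℝ) (q q' : EC n →L[ℝ] EC n →L[ℝ] ℝ) :
    SP G A (p + p') (q + q') = SP G A p q + SP G A p' q' := by
  have e1 : ∀ l, d1 (cx (p + p')) l = d1 (cx p) l + d1 (cx p') l := fun l => by
    simp only [← d1L_apply, cx, ContinuousLinearMap.comp_add, map_add]
  have e2 : ∀ l, d2 (cx (p + p')) l = d2 (cx p) l + d2 (cx p') l := fun l => by
    simp only [← d2L_apply, cx, ContinuousLinearMap.comp_add, map_add]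
  have e3 : ∀ l m, d12 (cx2 (q + q')) l m = d12 (cx2 q) l m + d12 (cx2 q') l m := fun l m => by
    simp only [← d1_d2L, ← d1L_apply, cx2, ContinuousLinearMap.comp_add, map_add]
  simp only [SP, e1, e2, e3, ← Finset.sum_add_distrib]
  refine Finset.sum_congr rfl fun j _ => Finset.sum_congr rfl fun k _ =>
    Finset.sum_congr rfl fun l _ => Finset.sum_congr rfl fun m _ => ?_
  ring

/-- second order chain rule under a holomorphic map -/
theorem chain_two {O : Set (EC n)} (hO : IsOpen O) {T : EC n → EC n}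
    (hT : DifferentiableOn ℂ T O) (hT' : ContDiffOn ℝ ∞ T O) {x : EC n} (hx : x ∈ O) :
    fderiv ℝ T x = (fderiv ℂ T x).restrictScalars ℝ ∧
    ∃ S : EC n →L[ℝ] EC n →L[ℝ] EC n, (∀ v w, S (Complex.I • v) w = Complex.I • S v w) ∧
      (∀ v w, S v (Complex.I • w) = Complex.I • S v w) ∧
      ∀ φ : EC n → ℝ, ContDiffAt ℝ 2 φ (T x) →
        (∀ v, fderiv ℝ (fun y => φ (T y)) x v = fderiv ℝ φ (T x) (fderiv ℂ T x v)) ∧
        ∀ v w, fderiv ℝ (fderiv ℝ fun y => φ (T y)) x v w =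
          fderiv ℝ (fderiv ℝ φ) (T x) (fderiv ℂ T x v) (fderiv ℂ T x w) +
            fderiv ℝ φ (T x) (S v w) := by
  have h1 : ∀ y ∈ O, fderiv ℝ T y = (fderiv ℂ T y).restrictScalars ℝ := fun y hy =>
    ((hT.differentiableAt (hO.mem_nhds hy)).hasFDerivAt.restrictScalars ℝ).fderiv
  have hx' : ContDiffAt ℝ 2 T x := (hT'.contDiffAt (hO.mem_nhds hx)).of_le (by norm_cast)
  have hd : DifferentiableAt ℝ (fderiv ℝ T) x :=
    (hx'.fderiv_right (m := 1) (by norm_num)).differentiableAt one_ne_zero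
  have hap : ∀ v w, fderiv ℝ (fun y => fderiv ℝ T y w) x v = fderiv ℝ (fderiv ℝ T) x v w := by
    intro v w
    rw [fderiv_clm_apply hd (differentiableAt_const w)]
    simp
  have h2 : ∀ v w, fderiv ℝ (fderiv ℝ T) x v (Complex.I • w) =
      Complex.I • fderiv ℝ (fderiv ℝ T) x v w := by
    intro v w
    have e : (fun y => fderiv ℝ T y (Complex.I • w)) =ᶠ[𝓝 x]
        fun y => IL n (fderiv ℝ T y w) := by
      filter_upwards [hO.mem_nhds hx] with y hy
      simp [h1 y hy]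
    have hw : DifferentiableAt ℝ (fun y => fderiv ℝ T y w) x :=
      hd.clm_apply (differentiableAt_const w)
    rw [← hap, ← hap, e.fderiv_eq]
    exact congrArg (fun L : EC n →L[ℝ] EC n => L v)
      ((IL n).hasFDerivAt.comp x hw.hasFDerivAt).fderiv
  have hs : IsSymmSndFDerivAt ℝ T x := hx'.isSymmSndFDerivAt (by simp)
  refine ⟨h1 x hx, fderiv ℝ (fderiv ℝ T) x, fun v w => by rw [hs.eq, h2, hs.eq], h2,
    fun φ hφ => ?_⟩
  have hT1 : DifferentiableAt ℝ T x := hx'.differentiableAt (by norm_num)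
  have hφ1 : DifferentiableAt ℝ φ (T x) := hφ.differentiableAt (by norm_num)
  have hφ2 : DifferentiableAt ℝ (fderiv ℝ φ) (T x) :=
    (hφ.fderiv_right (m := 1) (by norm_num)).differentiableAt one_ne_zero
  refine ⟨fun v => ?_, fun v w => ?_⟩
  · have := (hφ1.hasFDerivAt.comp x hT1.hasFDerivAt).fderiv
    rw [h1 x hx] at this
    exact congrArg (fun L : EC n →L[ℝ] ℝ => L v) this
  · have e : fderiv ℝ (fun y => φ (T y)) =ᶠ[𝓝 x]
        fun y => (fderiv ℝ φ (T y)).comp (fderiv ℝ T y) := by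
      filter_upwards [hT1.continuousAt.eventually (hφ.eventually (by simp)),
        hx'.eventually (by simp)] with y a b
      exact ((a.differentiableAt (by norm_num)).hasFDerivAt.comp y
        (b.differentiableAt (by norm_num)).hasFDerivAt).fderiv
    have := ((hφ2.hasFDerivAt.comp x hT1.hasFDerivAt).clm_comp hd.hasFDerivAt).fderiv
    rw [e.fderiv_eq]
    refine (congrArg (fun L : EC n →L[ℝ] EC n →L[ℝ] ℝ => L v w) this).trans ?_
    simp [h1 x hx, add_comm]

theorem rglob_mul {U : Set (EC n)} {c F : EC n → ℂ} (hc : ContinuousOn c U) (hF : LocLp 1 U F) :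
    LocLp 1 U fun x => c x * F x :=
  locLp_bilin_lb (m := 1) (ContinuousLinearMap.mul ℝ ℂ) (LocLp.of_continuousOn hc)
    (LB.of_continuousOn hc) hF

theorem rglob_sum {U : Set (EC n)} {f : Fin n → EC n → ℂ} (hf : ∀ i, LocLp 1 U (f i)) :
    LocLp 1 U fun x => ∑ i, f i x :=
  fun K hK hKU => memLp_finsetSum _ fun i _ => hf i K hK hKU

theorem rglob_c1 {U : Set (EC n)} {p : EC n → EC n →L[ℝ] ℝ} (hp : ContinuousOn p U) (l : Fin n) :
    ContinuousOn (fun x => 2⁻¹ * d1 (cx (p x)) l) U := by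
  have h1 : ∀ v, ContinuousOn (fun x => (p x v : ℂ)) U := fun v =>
    Complex.continuous_ofReal.comp_continuousOn (hp.clm_apply continuousOn_const)
  simp only [d1, cx, ContinuousLinearMap.comp_apply, Complex.ofRealCLM_apply, smul_eq_mul]
  exact continuousOn_const.mul (continuousOn_const.mul ((h1 _).sub (continuousOn_const.mul (h1 _))))

theorem rglob_c2 {U : Set (EC n)} {p : EC n → EC n →L[ℝ] ℝ} (hp : ContinuousOn p U) (l : Fin n) :
    ContinuousOn (fun x => 2⁻¹ * d2 (cx (p x)) l) U := by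
  have h1 : ∀ v, ContinuousOn (fun x => (p x v : ℂ)) U := fun v =>
    Complex.continuous_ofReal.comp_continuousOn (hp.clm_apply continuousOn_const)
  simp only [d2, cx, ContinuousLinearMap.comp_apply, Complex.ofRealCLM_apply, smul_eq_mul]
  exact continuousOn_const.mul (continuousOn_const.mul ((h1 _).add (continuousOn_const.mul (h1 _))))

theorem rglob_c3 {U : Set (EC n)} {q : EC n → EC n →L[ℝ] EC n →L[ℝ] ℝ} (hq : ContinuousOn q U)
    (l m : Fin n) : ContinuousOn (fun x => d12 (cx2 (q x)) l m) U := by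
  have h1 : ∀ v w, ContinuousOn (fun x => (q x v w : ℂ)) U := fun v w =>
    Complex.continuous_ofReal.comp_continuousOn
      ((hq.clm_apply continuousOn_const).clm_apply continuousOn_const)
  have h2 : ∀ v, ContinuousOn (fun x => d2 (cx2 (q x) v) m) U := fun v => by
    simp only [d2, cx2, ContinuousLinearMap.comp_apply, ContinuousLinearMap.compL_apply,
      Complex.ofRealCLM_apply, smul_eq_mul]
    exact continuousOn_const.mul ((h1 _ _).add (continuousOn_const.mul (h1 _ _)))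
  simp only [d12, smul_eq_mul]
  exact continuousOn_const.mul ((h2 _).sub (continuousOn_const.mul (h2 _)))

theorem rglob_cm {U : Set (EC n)} {A : EC n → EC n →L[ℝ] Mat r}
    {β : EC n → EC n →L[ℝ] EC n →L[ℝ] Mat r} (hA : WD 2 U A β)
    (hf : ∀ᵐ x, x ∈ U → JFlat (A x) (β x)) (l j : Fin n) :
    (LocLp 2 U fun x => cm (d1 (A x) l) (d1 (A x) j)) ∧
      LocLp 2 U fun x => cm (d2 (A x) l) (d2 (A x) j) := by
  have b1 : ∀ l j, LocLp 2 U fun x => d11 (β x) l j := fun l j =>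
    (hA.clm (by norm_num) (d1L j)).2.1.clm (d1L l)
  have b2 : ∀ l j, LocLp 2 U fun x => d22 (β x) l j := fun l j =>
    (hA.clm (by norm_num) (d2L j)).2.1.clm (d2L l)
  refine ⟨((b1 l j).sub (b1 j l)).neg.congr ?_, ((b2 l j).sub (b2 j l)).neg.congr ?_⟩
  · filter_upwards [hf] with x hx hxU
    rw [(hx hxU).d11_sub, neg_neg]
  · filter_upwards [hf] with x hx hxU
    rw [(hx hxU).d22_sub, neg_neg]

theorem locLp_SP {U : Set (EC n)} (hU : IsOpen U) {g : EC n → Mat n} (hg : IsKahlerOn U g)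
    {A : EC n → EC n →L[ℝ] Mat r} {β : EC n → EC n →L[ℝ] EC n →L[ℝ] Mat r} (hA : WD 2 U A β)
    (hf : ∀ᵐ x, x ∈ U → JFlat (A x) (β x)) {φ : EC n → ℝ} (hφ : ContDiffOn ℝ ∞ φ U) :
    LocLp 1 U fun x => SP (kG (g x)) (A x) (fderiv ℝ φ x) (fderiv ℝ (fderiv ℝ φ) x) := by
  have hp : ContinuousOn (fderiv ℝ φ) U := hφ.continuousOn_fderiv_of_isOpen hU (by simp)
  have hq : ContinuousOn (fderiv ℝ (fderiv ℝ φ)) U :=
    (hφ.fderiv_of_isOpen (m := 1) hU (by norm_cast)).continuousOn_fderiv_of_isOpen hU le_rfl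
  have a1 : ∀ j, LocLp 2 U fun x => d1 (A x) j := fun j => hA.1.clm (d1L j)
  have a2 : ∀ j, LocLp 2 U fun x => d2 (A x) j := fun j => hA.1.clm (d2L j)
  unfold SP
  refine rglob_sum fun j => rglob_sum fun k => rglob_sum fun l => rglob_sum fun m =>
    rglob_mul (kG_contDiffOn hg j k l m).continuousOn ?_
  exact ((rglob_mul (rglob_c3 hq l m) (locLp_trace (a1 j) (a2 k))).sub
    (rglob_mul (rglob_c1 hp l) (locLp_trace (a1 j) (rglob_cm hA hf m k).2))).sub
      (rglob_mul (rglob_c2 hp m) (locLp_trace (rglob_cm hA hf l j).1 (a2 k)))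

theorem IsKahlerOn.mono {U U' : Set (EC n)} {g : EC n → Mat n} (hg : IsKahlerOn U g)
    (hU : U' ⊆ U) : IsKahlerOn U' g :=
  ⟨fun j k => (hg.1 j k).mono hU, fun z hz => hg.2.1 z (hU hz), fun z hz => hg.2.2 z (hU hz)⟩

/-- the boundary terms cancel -/
theorem sum_SP_zero (A : KAtlas n Γ) {U : Set (EC n)} (hU : IsOpen U) (hU6 : U ⊆ ball 0 6)
    {χ : A.ι → EC n → ℝ} (hχ : A.Pou U χ) {ρ : Γ →* Mat r} {h : A.ι → EC n → Mat r}
    {D : A.ι → EC n → EC n →L[ℝ] Mat r} {β : A.ι → EC n → EC n →L[ℝ] EC n →L[ℝ] Mat r}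
    (hw : ∀ a, WD 2 U (h a) (D a)) (hm : A.MC U ρ h) (hp : ∀ a, ∀ x ∈ U, (h a x).PosDef)
    (hA : ∀ a, WD 2 U (fun x => mc (h a x) (D a x)) (β a))
    (hf : ∀ a, ∀ᵐ x, x ∈ U → JFlat (mc (h a x) (D a x)) (β a x)) :
    ∑ a, ∫ x, SP (kG (A.g a x)) (mc (h a x) (D a x)) (fderiv ℝ (χ a) x)
      (fderiv ℝ (fderiv ℝ (χ a)) x) = 0 := by
  refine A.toPre.pou_zero hU hU6 hχ (fun a x p q => SP (kG (A.g a x)) (mc (h a x) (D a x)) p q)
    (fun a x p p' q q' => SP_add _ _ p p' q q')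
    (fun a φ hφ => locLp_SP hU ((A.kae a).mono hU6) (hA a) (hf a) hφ) fun a b => ?_
  filter_upwards [A.toPre.mc_compat hU hw hm hp a b] with x hx hx' φ hφ
  obtain ⟨h1, S, hS, hS', h2⟩ := chain_two (A.O_open a b) (A.hol a b) (A.T_smooth a b) hx'.1
  obtain ⟨h3, h4⟩ := h2 φ hφ
  have h5 := SP_inv (fderiv ℂ (A.T a b) x) ((A.kae a).2.1 x (hU6 hx'.2.1))
    ((A.kae b).2.1 _ (hU6 hx'.2.2)) (A.g_inv a b x hx'.1) (rep_inv_mul ρ (A.c a b x))
    (Aa := mc (h a x) (D a x)) (Ab := mc (h b (A.T a b x)) (D b (A.T a b x)))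
    (fun v => by rw [hx hx' v, h1]; rfl) h3 hS hS' h4
  rw [h5, Pre.jac, h1, Complex.real_smul]

end Pool.Agent.PW
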