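import Pool.Agent.P.MP_65ad7c_ag.RHarm
import Pool.Agent.P.MP_65ad7c_ag.TMul
import Pool.Agent.P.MP_65ad7c_ag.ANf

open MeasureTheory Set Filter Topology Metric Matrix
open scoped ComplexOrder ContDiff Matrix.Norms.Frobenius RealInnerProductSpace ENNReal
open Pool.Agent.Lib.Sob

noncomputable section
namespace Pool.Agent.PW

variable {n r : ℕ} {U : Set (EC n)} {h : EC n → Mat r} {D : EC n → EC n →L[ℝ] Mat r}
  {β : EC n → EC n →L[ℝ] EC n →L[ℝ] Mat r}

theorem jet_of {h : Mat r} {D A : EC n →L[ℝ] Mat r} {β : EC n →L[ℝ] EC n →L[ℝ] Mat r}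
    (hb : h.PosDef) (e : ∀ v, h * A v = D v) (hD : HermF D)
    (h1 : ∀ v w, D v * A w + h * β v w = D w * A v + h * β w v)
    (h2 : ∀ v w, (D v * A w + h * β v w)ᴴ = D v * A w + h * β v w) : Jet h A β := by
  refine ⟨fun v => by rw [e, hD], fun v w => hb.isUnit.mul_left_cancel ?_, fun v w => ?_⟩
  · have h3 := h1 v w
    rw [← e v, ← e w] at h3
    simp only [cm, mul_sub, mul_neg, ← mul_assoc]
    linear_combination (norm := abel) h3
  · have h3 := h2 v w
    rw [conjTranspose_add, conjTranspose_mul, conjTranspose_mul, hD, hb.1.eq, h1 v w, ← e v,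
      ← mul_assoc, ← hD w, ← e w, conjTranspose_mul, hb.1.eq] at h3
    exact add_left_cancel h3

/-- the pointwise relations hold almost everywhere -/
theorem jet_ae (hU : IsOpen U) (hh : WD 2 U h D) (hb : ∀ x ∈ U, (h x).PosDef)
    (hA : WD 2 U (fun x => mc (h x) (D x)) β) :
    ∀ᵐ x, x ∈ U → Jet (h x) (mc (h x) (D x)) (β x) := by
  have e : ∀ x ∈ U, ∀ v, h x * mc (h x) (D x) v = D x v := fun x hx v =>
    DFunLike.congr_fun (lmul_mc (hb x hx) (D x)) v
  have hD := wd_herm one_le_two hU hh fun x hx => (hb x hx).1.eq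
  have hw := fun w => (wd_mul_one hU hh (hA.clm one_le_two
    (ContinuousLinearMap.apply ℝ (Mat r) w))).congr' (v := fun x => D x w)
      (fun x hx => e x hx w) fun _ _ => rfl
  obtain ⟨s, hs, hd⟩ := TopologicalSpace.exists_countable_dense (EC n × EC n)
  have h1 := (ae_ball_iff hs).2 fun p _ => second_symm hU (wd_one_of_two hh) (hw p.1) (hw p.2)
  have h2 := (ae_ball_iff hs).2 fun p _ => (((hw p.2).clm le_rfl (adjL r)).congr
    (v := fun x => D x p.2) (hD.mono fun x hx hxU => hx hxU p.2) (ae_of_all _ fun _ _ => rfl)).unique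
      le_rfl hU (hw p.2)
  filter_upwards [hD, h1, h2] with x a0 a1 a2 hx
  refine jet_of (hb x hx) (e x hx) (a0 hx) (fun v w => ?_) fun v w => ?_
  · refine hd.induction (P := fun p => D x p.1 * mc (h x) (D x) p.2 + h x * β x p.1 p.2 =
      D x p.2 * mc (h x) (D x) p.1 + h x * β x p.2 p.1) (fun p hp => a1 p hp hx)
      (isClosed_eq (by fun_prop) (by fun_prop)) (v, w)
  · refine hd.induction (P := fun p =>
      adjL r (D x p.1 * mc (h x) (D x) p.2 + h x * β x p.1 p.2) =
      D x p.1 * mc (h x) (D x) p.2 + h x * β x p.1 p.2)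
      (fun p hp => DFunLike.congr_fun (a2 p hp hx) p.1)
      (isClosed_eq (by fun_prop) (by fun_prop)) (v, w)

end Pool.Agent.PW
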