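import Pool.Agent.P.MP_65ad7c_ag.RCof
import Pool.Agent.P.MP_65ad7c_ag.RHarm
import Pool.Agent.P.MP_65ad7c_ag.RCx
import Pool.Agent.P.MP_65ad7c_ag.RAlg

open MeasureTheory Set Filter Topology Metric Matrix
open scoped ComplexOrder ContDiff Matrix.Norms.Frobenius RealInnerProductSpace ENNReal
open Pool.Agent.Lib.Sob

noncomputable section
namespace Pool.Agent.PW

variable {n r : ℕ} {U : Set (EC n)} {g : EC n → Mat n} {A : EC n → EC n →L[ℝ] Mat r}
  {β : EC n → EC n →L[ℝ] EC n →L[ℝ] Mat r}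

theorem loc_int4 (f : Fin n → Fin n → Fin n → Fin n → EC n → ℂ)
    (hf : ∀ j k l m, Integrable (f j k l m)) :
    Integrable (fun x => ∑ j, ∑ k, ∑ l, ∑ m, f j k l m x) ∧
      ∫ x, ∑ j, ∑ k, ∑ l, ∑ m, f j k l m x = ∑ j, ∑ k, ∑ l, ∑ m, ∫ x, f j k l m x := by
  have h1 : ∀ j k l, Integrable fun x => ∑ m, f j k l m x :=
    fun j k l => integrable_finsetSum _ fun m _ => hf j k l m
  have h2 : ∀ j k, Integrable fun x => ∑ l, ∑ m, f j k l m x :=
    fun j k => integrable_finsetSum _ fun l _ => h1 j k l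
  have h3 : ∀ j, Integrable fun x => ∑ k, ∑ l, ∑ m, f j k l m x :=
    fun j => integrable_finsetSum _ fun k _ => h2 j k
  refine ⟨integrable_finsetSum _ fun j _ => h3 j, ?_⟩
  rw [integral_finsetSum _ fun j _ => h3 j]
  refine Finset.sum_congr rfl fun j _ => ?_
  rw [integral_finsetSum _ fun k _ => h2 j k]
  refine Finset.sum_congr rfl fun k _ => ?_
  rw [integral_finsetSum _ fun l _ => h1 j k l]
  exact Finset.sum_congr rfl fun l _ => integral_finsetSum _ fun m _ => hf j k l m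

theorem loc_test_clm {ψ : EC n → ℂ} (hψ : IsTestC U ψ) (L : (EC n →L[ℝ] ℂ) →L[ℝ] ℂ) :
    IsTestC U fun x => L (fderiv ℝ ψ x) := by
  have h1 : tsupport (fun x => L (fderiv ℝ ψ x)) ⊆ tsupport ψ :=
    (tsupport_comp_subset (g := L) (map_zero L) _).trans (tsupport_fderiv_subset ℝ)
  exact ⟨L.contDiff.comp (hψ.1.fderiv_right (m := ∞) (by simp)),
    hψ.2.1.of_isClosed_subset (isClosed_tsupport _) h1, h1.trans hψ.2.2⟩

theorem loc_int {ψ F : EC n → ℂ} (hψ : IsTestC U ψ) (hF : LocLp 1 U F) :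
    Integrable fun x => ψ x * F x := integrable_testC hψ.1.continuous hψ.2.1 hψ.2.2 hF

theorem loc_zero {ψ : EC n → ℂ} (hψ : IsTestC U ψ) {x : EC n} (hx : x ∉ U) :
    ψ x = 0 ∧ fderiv ℝ ψ x = 0 :=
  ⟨image_eq_zero_of_notMem_tsupport fun h => hx (hψ.2.2 h),
    image_eq_zero_of_notMem_tsupport fun h => hx (hψ.2.2 (tsupport_fderiv_subset ℝ h))⟩

theorem loc_d1_mul {f G : EC n → ℂ} {x : EC n} (hf : DifferentiableAt ℝ f x)
    (hG : DifferentiableAt ℝ G x) (l : Fin n) :
    d1 (fderiv ℝ (fun y => f y * G y) x) l =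
      f x * d1 (fderiv ℝ G x) l + G x * d1 (fderiv ℝ f x) l := by
  rw [fderiv_fun_mul hf hG]
  simp only [d1, _root_.add_apply, _root_.smul_apply, smul_eq_mul]
  ring

theorem loc_d2_mul {f G : EC n → ℂ} {x : EC n} (hf : DifferentiableAt ℝ f x)
    (hG : DifferentiableAt ℝ G x) (l : Fin n) :
    d2 (fderiv ℝ (fun y => f y * G y) x) l =
      f x * d2 (fderiv ℝ G x) l + G x * d2 (fderiv ℝ f x) l := by
  rw [fderiv_fun_mul hf hG]
  simp only [d2, _root_.add_apply, _root_.smul_apply, smul_eq_mul]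
  ring

theorem loc_fderiv_ofReal {χ : EC n → ℝ} (hχ : Differentiable ℝ χ) (x : EC n) :
    fderiv ℝ (fun y => (χ y : ℂ)) x = cx (fderiv ℝ χ x) :=
  (Complex.ofRealCLM.hasFDerivAt.comp x (hχ x).hasFDerivAt).fderiv

theorem loc_second {χ : EC n → ℝ} (hχ : ContDiff ℝ ∞ χ) (x : EC n) (l m : Fin n) :
    d2 (fderiv ℝ (fun y => d1 (cx (fderiv ℝ χ y)) l) x) m =
      d12 (cx2 (fderiv ℝ (fderiv ℝ χ) x)) l m := by
  have h1 : DifferentiableAt ℝ (fderiv ℝ χ) x :=
    ((hχ.fderiv_right (m := 1) (by norm_cast)).differentiable one_ne_zero) x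
  have h2 : HasFDerivAt (fun y => d1 (cx (fderiv ℝ χ y)) l)
      (((d1L l).comp (ContinuousLinearMap.compL ℝ (EC n) ℝ ℂ Complex.ofRealCLM)).comp
        (fderiv ℝ (fderiv ℝ χ) x)) x :=
    ((d1L l).comp (ContinuousLinearMap.compL ℝ (EC n) ℝ ℂ Complex.ofRealCLM)).hasFDerivAt.comp x
      h1.hasFDerivAt
  have h3 := (hχ.contDiffAt (x := x)).isSymmSndFDerivAt (by simp; norm_cast)
  rw [h2.fderiv]
  simp only [d2, d1, d12, cx2, ContinuousLinearMap.comp_apply, d1L_apply,
    ContinuousLinearMap.compL_apply, Complex.ofRealCLM_apply, smul_eq_mul]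
  rw [h3.eq (EuclideanSpace.single m 1) (EuclideanSpace.single l 1),
    h3.eq (EuclideanSpace.single m 1) (EuclideanSpace.single l Complex.I),
    h3.eq (EuclideanSpace.single m Complex.I) (EuclideanSpace.single l 1),
    h3.eq (EuclideanSpace.single m Complex.I) (EuclideanSpace.single l Complex.I)]
  ring

theorem loc_lp_d11 (hβ : LocLp 2 U β) (l j : Fin n) : LocLp 2 U fun x => d11 (β x) l j :=
  (hβ.clm (ContinuousLinearMap.compL ℝ (EC n) (EC n →L[ℝ] Mat r) (Mat r) (d1L j))).clm (d1L l)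

theorem loc_lp_d12 (hβ : LocLp 2 U β) (l k : Fin n) : LocLp 2 U fun x => d12 (β x) l k :=
  (hβ.clm (ContinuousLinearMap.compL ℝ (EC n) (EC n →L[ℝ] Mat r) (Mat r) (d2L k))).clm (d1L l)

theorem loc_lp_d21 (hβ : LocLp 2 U β) (m j : Fin n) : LocLp 2 U fun x => d21 (β x) m j :=
  (hβ.clm (ContinuousLinearMap.compL ℝ (EC n) (EC n →L[ℝ] Mat r) (Mat r) (d1L j))).clm (d2L m)

theorem loc_lp_d22 (hβ : LocLp 2 U β) (m k : Fin n) : LocLp 2 U fun x => d22 (β x) m k :=
  (hβ.clm (ContinuousLinearMap.compL ℝ (EC n) (EC n →L[ℝ] Mat r) (Mat r) (d2L k))).clm (d2L m)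

theorem loc_lp_sum {ι : Type} [Fintype ι] {f : ι → EC n → ℂ} (hf : ∀ i, LocLp 1 U (f i)) :
    LocLp 1 U fun x => ∑ i, f i x := fun K hK hKU =>
  memLp_finsetSum _ fun i _ => hf i K hK hKU

theorem loc_lp_mul {c F : EC n → ℂ} (hc : ContinuousOn c U) (hF : LocLp 1 U F) :
    LocLp 1 U fun x => c x * F x :=
  locLp_bilin_lb (m := 1) (ContinuousLinearMap.mul ℝ ℂ) (LocLp.of_continuousOn hc)
    (LB.of_continuousOn hc) hF

theorem locLp_SF (_hU : IsOpen U) (hg : IsKahlerOn U g) (hA : WD 2 U A β)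
    (hf : ∀ᵐ x, x ∈ U → JFlat (A x) (β x)) :
    LocLp 1 U fun x => SF (kG (g x)) (A x) (β x) := by
  have h1 : LocLp 1 U fun x => SF2 (kG (g x)) (β x) :=
    loc_lp_sum fun j => loc_lp_sum fun k => loc_lp_sum fun l => loc_lp_sum fun m =>
      loc_lp_mul (kG_contDiffOn hg j k l m).continuousOn
        ((locLp_trace (loc_lp_d21 hA.2.1 m j) (loc_lp_d12 hA.2.1 l k)).sub
          (locLp_trace (loc_lp_d11 hA.2.1 l j) (loc_lp_d22 hA.2.1 m k)))
  exact h1.congr (hf.mono fun x hx hx' => ((hx hx').SF_eq_SF2 (anti_kG _)).symm)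

/-- the pointwise algebra of the local formula -/
theorem loc_alg {G dG1 dG2 : Fin n → Fin n → Fin n → Fin n → ℂ} {A : EC n →L[ℝ] Mat r}
    {β : EC n →L[ℝ] EC n →L[ℝ] Mat r} (hf : JFlat A β) (hG : Anti G)
    (h1 : ∀ j k m, ∑ l, dG1 j k l m = 0) (h2 : ∀ j k l, ∑ m, dG2 j k l m = 0) (c : ℂ)
    (p : EC n →L[ℝ] ℝ) (q : EC n →L[ℝ] EC n →L[ℝ] ℝ) :
    ∑ j, ∑ k, ∑ l, ∑ m,
      (((c * dG2 j k l m + G j k l m * d2 (cx p) m) * (d11 β l j * d2 A k).trace -
        (c * dG1 j k l m + G j k l m * d1 (cx p) l) * (d21 β m j * d2 A k).trace) +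
      ((d1 (cx p) l * dG2 j k l m + G j k l m * d12 (cx2 q) l m) * (d1 A j * d2 A k).trace +
        d1 (cx p) l * G j k l m * ((d21 β m j * d2 A k).trace + (d1 A j * d22 β m k).trace))) =
      SP G A p q := by
  have e1 := hf.sum_d11 hG fun k m => d2 (cx p) m • d2 A k
  have e2 := hf.sum_d22 hG fun j l => d1 (cx p) l • d1 A j
  have e3 : ∑ j, ∑ k, ∑ l, ∑ m, dG2 j k l m *
      (c * (d11 β l j * d2 A k).trace + d1 (cx p) l * (d1 A j * d2 A k).trace) = 0 := by
    simp only [← Finset.sum_mul, h2, zero_mul, Finset.sum_const_zero]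
  have e4 : ∑ j, ∑ k, ∑ l, ∑ m, dG1 j k l m * (c * (d21 β m j * d2 A k).trace) = 0 := by
    refine Finset.sum_eq_zero fun j _ => Finset.sum_eq_zero fun k _ => ?_
    rw [Finset.sum_comm]
    simp only [← Finset.sum_mul, h1, zero_mul, Finset.sum_const_zero]
  simp only [Matrix.mul_smul, Matrix.smul_mul, trace_smul, smul_eq_mul] at e1 e2
  have e5 : SP G A p q = (∑ j, ∑ k, ∑ l, ∑ m,
      G j k l m * (d12 (cx2 q) l m * (d1 A j * d2 A k).trace)) +
      (∑ j, ∑ k, ∑ l, ∑ m, G j k l m * (d2 (cx p) m * (d11 β l j * d2 A k).trace)) +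
      (∑ j, ∑ k, ∑ l, ∑ m, G j k l m * (d1 (cx p) l * (d1 A j * d22 β m k).trace)) +
      (∑ j, ∑ k, ∑ l, ∑ m, dG2 j k l m *
        (c * (d11 β l j * d2 A k).trace + d1 (cx p) l * (d1 A j * d2 A k).trace)) -
      ∑ j, ∑ k, ∑ l, ∑ m, dG1 j k l m * (c * (d21 β m j * d2 A k).trace) := by
    rw [e1, e2, e3, e4, add_zero, sub_zero]
    simp only [SP, ← Finset.sum_add_distrib]
    refine Finset.sum_congr rfl fun j _ => Finset.sum_congr rfl fun k _ =>
      Finset.sum_congr rfl fun l _ => Finset.sum_congr rfl fun m _ => ?_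
    ring
  rw [e5]
  simp only [← Finset.sum_add_distrib, ← Finset.sum_sub_distrib]
  refine Finset.sum_congr rfl fun j _ => Finset.sum_congr rfl fun k _ =>
    Finset.sum_congr rfl fun l _ => Finset.sum_congr rfl fun m _ => ?_
  ring

/-- the local Siu-Sampson formula -/
theorem local_ss (hU : IsOpen U) (hg : IsKahlerOn U g) (hA : WD 2 U A β)
    (hf : ∀ᵐ x, x ∈ U → JFlat (A x) (β x)) {χ : EC n → ℝ} (hχ : IsTest U χ) :
    ∫ x, (χ x : ℂ) * SF (kG (g x)) (A x) (β x) =
      ∫ x, SP (kG (g x)) (A x) (fderiv ℝ χ x) (fderiv ℝ (fderiv ℝ χ) x) := by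
  have ha : ∀ j, WD 2 U (fun x => d1 (A x) j) fun x => (d1L j).comp (β x) :=
    fun j => hA.clm (by norm_num) (d1L j)
  have hb : ∀ k, WD 2 U (fun x => d2 (A x) k) fun x => (d2L k).comp (β x) :=
    fun k => hA.clm (by norm_num) (d2L k)
  have hχc : IsTestC U fun x => (χ x : ℂ) := by
    simpa using isTestC_mul_of_contDiffOn hU hχ (ζ := fun _ => 1) contDiffOn_const
  have hp : ∀ l, IsTestC U fun x => d1 (cx (fderiv ℝ χ x)) l := fun l => by
    simpa only [loc_fderiv_ofReal hχ.differentiable, d1L_apply] using loc_test_clm hχc (d1L l)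
  have hψ : ∀ j k l m, IsTestC U fun x => (χ x : ℂ) * kG (g x) j k l m :=
    fun j k l m => isTestC_mul_of_contDiffOn hU hχ (kG_contDiffOn hg j k l m)
  have hψ' : ∀ j k l m, IsTestC U fun x => d1 (cx (fderiv ℝ χ x)) l * kG (g x) j k l m :=
    fun j k l m => (hp l).mul_contDiffOn hU (kG_contDiffOn hg j k l m)
  have l11 := loc_lp_d11 hA.2.1
  have l12 := loc_lp_d12 hA.2.1
  have l21 := loc_lp_d21 hA.2.1
  have l22 := loc_lp_d22 hA.2.1
  obtain ⟨-, e0⟩ := loc_int4 (fun j k l m x => (χ x : ℂ) * kG (g x) j k l m *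
      ((d21 (β x) m j * d12 (β x) l k).trace - (d11 (β x) l j * d22 (β x) m k).trace))
    fun j k l m => loc_int (hψ j k l m)
      ((locLp_trace (l21 m j) (l12 l k)).sub (locLp_trace (l11 l j) (l22 m k)))
  have i1 : ∀ j k l m, Integrable fun x =>
      d2 (fderiv ℝ (fun y => (χ y : ℂ) * kG (g y) j k l m) x) m *
          (d11 (β x) l j * d2 (A x) k).trace -
        d1 (fderiv ℝ (fun y => (χ y : ℂ) * kG (g y) j k l m) x) l *
          (d21 (β x) m j * d2 (A x) k).trace := fun j k l m =>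
    (loc_int (loc_test_clm (hψ j k l m) (d2L m)) (locLp_trace (l11 l j) (hb k).1)).sub
      (loc_int (loc_test_clm (hψ j k l m) (d1L l)) (locLp_trace (l21 m j) (hb k).1))
  have i2 : ∀ j k l m, Integrable fun x =>
      d2 (fderiv ℝ (fun y => d1 (cx (fderiv ℝ χ y)) l * kG (g y) j k l m) x) m *
        (d1 (A x) j * d2 (A x) k).trace := fun j k l m =>
    loc_int (loc_test_clm (hψ' j k l m) (d2L m)) (locLp_trace (ha j).1 (hb k).1)
  have i3 : ∀ j k l m, Integrable fun x => d1 (cx (fderiv ℝ χ x)) l * kG (g x) j k l m *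
      ((d21 (β x) m j * d2 (A x) k).trace + (d1 (A x) j * d22 (β x) m k).trace) :=
    fun j k l m => loc_int (hψ' j k l m)
      ((locLp_trace (l21 m j) (hb k).1).add (locLp_trace (ha j).1 (l22 m k)))
  obtain ⟨-, e1⟩ := loc_int4 _ fun j k l m => (i1 j k l m).add ((i2 j k l m).add (i3 j k l m))
  calc ∫ x, (χ x : ℂ) * SF (kG (g x)) (A x) (β x)
      = ∫ x, ∑ j, ∑ k, ∑ l, ∑ m, (χ x : ℂ) * kG (g x) j k l m *
        ((d21 (β x) m j * d12 (β x) l k).trace - (d11 (β x) l j * d22 (β x) m k).trace) := by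
        refine integral_congr_ae (hf.mono fun x hx => ?_)
        by_cases hx' : x ∈ U
        · simp only [(hx hx').SF_eq_SF2 (anti_kG _), SF2, Finset.mul_sum, mul_assoc]
        · simp [hχ.zero_of_notMem hx']
    _ = _ := by
        rw [e0]
        refine Eq.trans ?_ (e1.symm.trans ?_)
        · refine Finset.sum_congr rfl fun j _ => Finset.sum_congr rfl fun k _ =>
            Finset.sum_congr rfl fun l _ => Finset.sum_congr rfl fun m _ => ?_
          have n1 := null_lagr_cx hU (ha j) (hb k) (hψ j k l m) l m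
          have n2 := prod_cx hU (ha j) (hb k) (hψ' j k l m) m
          simp only [d1_d1L, d1_d2L, d2_d1L, d2_d2L] at n1 n2
          rw [integral_add' (i1 j k l m) ((i2 j k l m).add (i3 j k l m)),
            integral_add' (i2 j k l m) (i3 j k l m), n1, n2, neg_add_cancel, add_zero]
        · refine integral_congr_ae (hf.mono fun x hx => ?_)
          simp only [Pi.add_apply]
          by_cases hx' : x ∈ U
          · have hG : ∀ j k l m, DifferentiableAt ℝ (fun y => kG (g y) j k l m) x :=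
              fun j k l m => ((kG_contDiffOn hg j k l m).contDiffAt
                (hU.mem_nhds hx')).differentiableAt (by simp)
            have hd : DifferentiableAt ℝ (fun y => (χ y : ℂ)) x :=
              hχc.1.differentiable (by simp) x
            have hd' : ∀ l, DifferentiableAt ℝ (fun y => d1 (cx (fderiv ℝ χ y)) l) x :=
              fun l => (hp l).1.differentiable (by simp) x
            simp only [loc_d1_mul hd (hG _ _ _ _), loc_d2_mul hd (hG _ _ _ _),
              loc_d2_mul (hd' _) (hG _ _ _ _), loc_fderiv_ofReal hχ.differentiable,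
              loc_second hχ.1]
            exact loc_alg (hx hx') (anti_kG _) (kG_div1 hU hg hx') (kG_div2 hU hg hx') _ _ _
          · have z1 : fderiv ℝ χ x = 0 := hχ.fderiv_zero_of_notMem hx'
            have z2 : fderiv ℝ (fderiv ℝ χ) x = 0 := image_eq_zero_of_notMem_tsupport fun h =>
              hx' (hχ.2.2 (tsupport_fderiv_subset ℝ (tsupport_fderiv_subset ℝ h)))
            simp only [(loc_zero (hψ _ _ _ _) hx').2, (loc_zero (hψ' _ _ _ _) hx').2, z1, z2]
            simp [SP, d1, d2, d12, cx, cx2]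

end Pool.Agent.PW
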