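import Pool.Agent.P.MP_65ad7c_ag.RBase
import Pool.Agent.P.MP_65ad7c_ag.TBil

open MeasureTheory Set Filter Topology Metric Matrix
open scoped ComplexOrder ContDiff Matrix.Norms.Frobenius RealInnerProductSpace ENNReal
open Pool.Agent.Lib.Sob

noncomputable section
namespace Pool.Agent.PW

variable {E : Type} [NormedAddCommGroup E] [InnerProductSpace ℝ E] [FiniteDimensional ℝ E]
  [MeasurableSpace E] [BorelSpace E] {U : Set E}
  {V₁ V₂ V₃ : Type} [NormedAddCommGroup V₁] [NormedSpace ℝ V₁] [CompleteSpace V₁]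
  [NormedAddCommGroup V₂] [NormedSpace ℝ V₂] [CompleteSpace V₂]
  [NormedAddCommGroup V₃] [NormedSpace ℝ V₃] [CompleteSpace V₃]

omit [CompleteSpace V₁] [CompleteSpace V₂] [CompleteSpace V₃] in
theorem null_lim {W : Type} [NormedAddCommGroup W] [NormedSpace ℝ W] (B : W →L[ℝ] V₂ →L[ℝ] V₃)
    {K : Set E} (hK : IsCompact K) (hKU : K ⊆ U) {c : E → ℝ} (hc : Continuous c)
    (hs : tsupport c ⊆ K) {Xk : ℕ → E → W} {X : E → W} {Y : E → V₂} (hk : ∀ k, LocLp 2 U (Xk k))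
    (hX : LocLp 2 U X) (hY : LocLp 2 U Y)
    (ht : Tendsto (fun k => ∫⁻ x in K, ‖Xk k x - X x‖ₑ ^ 2) atTop (𝓝 0)) :
    Tendsto (fun k => ∫ x, c x • B (Xk k x) (Y x)) atTop (𝓝 (∫ x, c x • B (X x) (Y x))) := by
  have cs : HasCompactSupport c := hK.of_isClosed_subset (isClosed_tsupport _) hs
  refine tendsto_integral_of_L1 _
    ((locLp_bilin_one B hX hY).integrable_smul le_rfl hc cs (hs.trans hKU)).1
    (Eventually.of_forall fun k =>
      (locLp_bilin_one B (hk k) hY).integrable_smul le_rfl hc cs (hs.trans hKU)) ?_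
  have h1 : Tendsto (fun k => eLpNorm (fun x => Xk k x - X x) (2 : ℕ) (volume.restrict K)) atTop
      (𝓝 0) := by
    simp only [lintegral_pow_eq (n := 2) one_le_two] at ht
    have := ht.ennrpow_const (((2 : ℕ) : ℝ)⁻¹)
    have hn' : (0 : ℝ) < (2 : ℕ) := by norm_num
    rw [ENNReal.zero_rpow_of_pos (inv_pos.2 hn')] at this
    refine this.congr fun k => ?_
    rw [← ENNReal.rpow_natCast, ← ENNReal.rpow_mul, mul_inv_cancel₀ hn'.ne', ENNReal.rpow_one]
  have hg := (hY.smul hc.continuousOn) K hK hKU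
  have h2 := ENNReal.Tendsto.mul_const (b := eLpNorm (fun x => c x • Y x) (2 : ℕ) (volume.restrict K))
    (ENNReal.Tendsto.const_mul (a := (‖B‖₊ : ℝ≥0∞)) h1 (Or.inr ENNReal.coe_ne_top)) (Or.inr hg.2.ne)
  rw [mul_zero, zero_mul] at h2
  refine tendsto_of_tendsto_of_tendsto_of_le_of_le tendsto_const_nhds h2 (fun _ => zero_le)
    fun k => ?_
  have hf := ((hk k).sub hX) K hK hKU
  have h3 := eLpNorm_le_eLpNorm_mul_eLpNorm'_of_norm (p := 2) (q := 2) (r := 1) hf.1 hg.1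
    (fun a y => B a y) ‖B‖₊ (Eventually.of_forall fun x => B.le_opNorm₂ _ _)
  rw [eLpNorm_one_eq_lintegral_enorm] at h3
  refine le_trans ?_ h3
  rw [← lintegral_indicator hK.measurableSet]
  refine lintegral_mono fun x => ?_
  by_cases hx : x ∈ K
  · rw [indicator_of_mem hx, map_smul, map_sub, _root_.sub_apply, smul_sub]
  · simp [image_eq_zero_of_notMem_tsupport (fun h => hx (hs h))]

theorem null_parts (hU : IsOpen U) (B : V₁ →L[ℝ] V₂ →L[ℝ] V₃) {u : E → V₁} {w : E → V₂}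
    {Dw : E → E →L[ℝ] V₂} (hu : ContDiff ℝ ∞ u) (hw : WD 2 U w Dw)
    {ψ : E → ℝ} (hψ : IsTest U ψ) (v v' : E) :
    ∫ x, fderiv ℝ ψ x v' • B (fderiv ℝ u x v) (w x) =
      -((∫ x, ψ x • B (fderiv ℝ (fderiv ℝ u) x v' v) (w x)) +
        ∫ x, ψ x • B (fderiv ℝ u x v) (Dw x v')) := by
  have h1 : ContDiff ℝ ∞ (fderiv ℝ u) := hu.fderiv_right (m := ∞) (by simp)
  have h2 : ContDiff ℝ 1 fun x => fderiv ℝ u x v :=
    (h1.of_le (by simp)).clm_apply contDiff_const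
  have h3 := (wd_bilin_cd one_le_two hU B h2.contDiffOn hw).2.2 ψ hψ v'
  have h4 : ∀ x, fderiv ℝ (fun y => fderiv ℝ u y v) x v' = fderiv ℝ (fderiv ℝ u) x v' v := by
    intro x
    rw [fderiv_clm_apply (h1.differentiable (by simp) x) (differentiableAt_const v)]
    simp
  have c1 : Continuous fun x => fderiv ℝ (fderiv ℝ u) x v' v :=
    ((h1.continuous_fderiv (by simp)).clm_apply continuous_const).clm_apply continuous_const
  rw [h3, ← integral_add
    ((locLp_bilin_one B (.of_continuousOn c1.continuousOn) hw.1).integrable_test le_rfl hψ)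
    ((locLp_bilin_one B (.of_continuousOn h2.continuous.continuousOn)
      (hw.2.1.apply v')).integrable_test le_rfl hψ)]
  congr 2
  funext x
  simp only [_root_.add_apply, ContinuousLinearMap.comp_apply,
    ContinuousLinearMap.flip_apply, h4, smul_add]

omit [CompleteSpace V₁] [CompleteSpace V₂] [CompleteSpace V₃] in
theorem null_split (B : V₁ →L[ℝ] V₂ →L[ℝ] V₃) {w : E → V₂} {X : E → E →L[ℝ] V₁}
    {Dw : E → E →L[ℝ] V₂} (hX : LocLp 2 U X) (hw : WD 2 U w Dw) {ψ : E → ℝ} (hψ : IsTest U ψ)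
    (v v' : E) :
    (∫ x, ψ x • (B (X x v) (Dw x v') - B (X x v') (Dw x v)) =
      (∫ x, ψ x • B (X x v) (Dw x v')) - ∫ x, ψ x • B (X x v') (Dw x v)) ∧
    ∫ x, (fderiv ℝ ψ x v • B (X x v') (w x) - fderiv ℝ ψ x v' • B (X x v) (w x)) =
      (∫ x, fderiv ℝ ψ x v • B (X x v') (w x)) - ∫ x, fderiv ℝ ψ x v' • B (X x v) (w x) := by
  constructor
  · simp only [smul_sub]
    exact integral_sub
      ((locLp_bilin_one B (hX.apply v) (hw.2.1.apply v')).integrable_test le_rfl hψ)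
      ((locLp_bilin_one B (hX.apply v') (hw.2.1.apply v)).integrable_test le_rfl hψ)
  · exact integral_sub ((locLp_bilin_one B (hX.apply v') hw.1).integrable_dtest le_rfl hψ v)
      ((locLp_bilin_one B (hX.apply v) hw.1).integrable_dtest le_rfl hψ v')

/-- null Lagrangians, smooth first factor -/
theorem null_lagr_smooth (hU : IsOpen U) (B : V₁ →L[ℝ] V₂ →L[ℝ] V₃) {u : E → V₁} {w : E → V₂}
    {Dw : E → E →L[ℝ] V₂} (hu : ContDiff ℝ ∞ u) (hw : WD 2 U w Dw)
    {ψ : E → ℝ} (hψ : IsTest U ψ) (v v' : E) :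
    ∫ x, ψ x • (B (fderiv ℝ u x v) (Dw x v') - B (fderiv ℝ u x v') (Dw x v)) =
      ∫ x, (fderiv ℝ ψ x v • B (fderiv ℝ u x v') (w x) -
        fderiv ℝ ψ x v' • B (fderiv ℝ u x v) (w x)) := by
  obtain ⟨h1, h2⟩ := null_split B (X := fderiv ℝ u)
    (.of_continuousOn (hu.continuous_fderiv (by simp)).continuousOn) hw hψ v v'
  have hs : ∀ x, fderiv ℝ (fderiv ℝ u) x v v' = fderiv ℝ (fderiv ℝ u) x v' v := fun x =>
    (hu.contDiffAt.isSymmSndFDerivAt (by
      rw [minSmoothness_of_isRCLikeNormedField]; exact WithTop.coe_le_coe.2 le_top)).eq v v'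
  rw [h1, h2, null_parts hU B hu hw hψ v v', null_parts hU B hu hw hψ v' v]
  simp only [hs]
  abel

/-- null Lagrangians -/
theorem null_lagr (hU : IsOpen U) (B : V₁ →L[ℝ] V₂ →L[ℝ] V₃) {u : E → V₁} {w : E → V₂}
    {Du : E → E →L[ℝ] V₁} {Dw : E → E →L[ℝ] V₂} (hu : WD 2 U u Du) (hw : WD 2 U w Dw)
    {ψ : E → ℝ} (hψ : IsTest U ψ) (v v' : E) :
    ∫ x, ψ x • (B (Du x v) (Dw x v') - B (Du x v') (Dw x v)) =
      ∫ x, (fderiv ℝ ψ x v • B (Du x v') (w x) - fderiv ℝ ψ x v' • B (Du x v) (w x)) := by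
  obtain ⟨g, hg, -, -, ht⟩ := hu.approx one_le_two hU hψ.2.1 hψ.2.2
  have lg : ∀ k, LocLp 2 U (fderiv ℝ (g k)) := fun k =>
    .of_continuousOn ((hg k).continuous_fderiv (by simp)).continuousOn
  have a : ∀ (e : E) {c : E → ℝ} {Y : E → V₂}, Continuous c → tsupport c ⊆ tsupport ψ →
      LocLp 2 U Y → Tendsto (fun k => ∫ x, c x • B (fderiv ℝ (g k) x e) (Y x)) atTop
        (𝓝 (∫ x, c x • B (Du x e) (Y x))) := fun e c Y hc hs hY =>
    null_lim (B.comp (ContinuousLinearMap.apply ℝ V₁ e)) hψ.2.1 hψ.2.2 hc hs lg hu.2.1 hY ht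
  have t1 := (a v hψ.continuous Subset.rfl (hw.2.1.apply v')).sub
    (a v' hψ.continuous Subset.rfl (hw.2.1.apply v))
  have t2 := (a v' (hψ.continuous_fderiv_apply v) (tsupport_fderiv_apply_subset ℝ v) hw.1).sub
    (a v (hψ.continuous_fderiv_apply v') (tsupport_fderiv_apply_subset ℝ v') hw.1)
  obtain ⟨h1, h2⟩ := null_split B hu.2.1 hw hψ v v'
  rw [h1, h2]
  refine tendsto_nhds_unique t1 (t2.congr fun k => ?_)
  obtain ⟨h3, h4⟩ := null_split B (lg k) hw hψ v v'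
  rw [← h3, ← h4, null_lagr_smooth hU B (hg k) hw hψ v v']

end Pool.Agent.PW
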