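import Pool.Agent.P.MP_65ad7c_ag.RBase
import Pool.Agent.P.MP_65ad7c_ag.TLip
import Pool.Agent.P.MP_65ad7c_ag.BExt
import Pool.Agent.P.MP_65ad7c_ag.ABd

open MeasureTheory Set Filter Topology Metric Matrix
open scoped ComplexOrder ContDiff Matrix.Norms.Frobenius RealInnerProductSpace ENNReal
open Pool.Agent.Lib.Sob

noncomputable section
namespace Pool.Agent.PW

variable {E : Type} [NormedAddCommGroup E] [InnerProductSpace ℝ E] [FiniteDimensional ℝ E]
  [MeasurableSpace E] [BorelSpace E] {r : ℕ} {U : Set E}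
  {V : Type} [NormedAddCommGroup V] [NormedSpace ℝ V] {Γ : Type} [Group Γ]

theorem rrep_norm_moll_le {k : ℕ} {g : E → V} {x : E} {L : ℝ}
    (h : ∀ᵐ t, t ∈ ball x (1 / ((k : ℝ) + 1)) → ‖g t‖ ≤ L) : ‖moll k g x‖ ≤ L := by
  unfold moll
  rw [convolution_lsmul_swap]
  have hi : Integrable fun t => (bump E k).normed volume (x - t) * L :=
    ((bump E k).integrable_normed.comp_sub_left x).mul_const L
  refine (norm_integral_le_of_norm_le hi ?_).trans (le_of_eq ?_)
  · filter_upwards [h] with t ht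
    rw [norm_smul, Real.norm_of_nonneg ((bump E k).nonneg_normed _)]
    by_cases h0 : (bump E k).normed volume (x - t) = 0
    · simp [h0]
    · have h' : x - t ∈ Function.support ((bump E k).normed volume) := h0
      rw [(bump E k).support_normed_eq, mem_ball, dist_zero_right] at h'
      refine mul_le_mul_of_nonneg_left (ht ?_) ((bump E k).nonneg_normed _)
      rw [mem_ball, dist_comm, dist_eq_norm]
      exact h'
  · rw [integral_mul_const, integral_sub_left_eq_self ((bump E k).normed volume) volume x,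
      (bump E k).integral_normed, one_mul]

/-- the continuous representative -/
theorem exists_rep [FiniteDimensional ℝ V] (hU : IsOpen U) {u : E → V} {D : E → E →L[ℝ] V}
    (h : WD 2 U u D) {R L : ℝ} (hR : closedBall (0 : E) R ⊆ U)
    (hL : ∀ᵐ x, x ∈ ball (0 : E) R → ‖D x‖ ≤ L) :
    ∃ u' : E → V, Continuous u' ∧ ∀ᵐ x, x ∈ ball (0 : E) R → u' x = u x := by
  have : CompleteSpace V := FiniteDimensional.complete ℝ V
  obtain ⟨u', D', K', O, hg, -, -, -, -, -, hKO, -, -, -, e1, e2, -⟩ :=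
    h.exists_global (by norm_num) hU (isCompact_closedBall (0 : E) R) hR
  have lu := hg.1.locallyIntegrable (by norm_num)
  have hL' : ∀ᵐ x, x ∈ ball (0 : E) R → ‖D' x‖ ≤ max L 0 := by
    filter_upwards [hL] with x hx hxR
    rw [e2 x (hKO (ball_subset_closedBall hxR))]
    exact (hx hxR).trans (le_max_left _ _)
  set S : Set E := {x | x ∈ ball (0 : E) R ∧ Tendsto (fun k => moll k u' x) atTop (𝓝 (u' x))}
    with hS
  have hlip : LipschitzOnWith (Real.toNNReal (max L 0)) u' S := by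
    refine LipschitzOnWith.of_dist_le_mul fun x hx y hy => ?_
    rw [Real.coe_toNNReal _ (le_max_right _ _), dist_eq_norm, dist_eq_norm]
    have hxR : ‖x‖ < R := by simpa using hx.1
    have hyR : ‖y‖ < R := by simpa using hy.1
    have hρ : 0 < R - max ‖x‖ ‖y‖ := sub_pos.2 (max_lt hxR hyR)
    have hev : ∀ᶠ k : ℕ in atTop, 1 / ((k : ℝ) + 1) < R - max ‖x‖ ‖y‖ :=
      (tendsto_one_div_add_atTop_nhds_zero_nat (𝕜 := ℝ)).eventually (gt_mem_nhds hρ)
    refine le_of_tendsto (hx.2.sub hy.2).norm ?_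
    filter_upwards [hev] with k hk
    refine (convex_closedBall (0 : E) (max ‖x‖ ‖y‖)).norm_image_sub_le_of_norm_fderiv_le
      (𝕜 := ℝ) (f := moll k u') (fun z _ => (contDiff_moll k lu).differentiable (by simp) z)
      (fun z hz => ?_) (by simp) (by simp)
    rw [hg.fderiv_moll (by norm_num)]
    refine rrep_norm_moll_le ?_
    filter_upwards [hL'] with t ht htz
    refine ht ?_
    have h1 : ‖z‖ ≤ max ‖x‖ ‖y‖ := by simpa only [mem_closedBall, dist_zero_right] using hz
    have h2 : ‖t - z‖ < 1 / ((k : ℝ) + 1) := by simpa only [mem_ball, dist_eq_norm] using htz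
    have h3 : ‖t‖ ≤ ‖t - z‖ + ‖z‖ := by simpa using norm_add_le (t - z) z
    rw [mem_ball, dist_zero_right]
    linarith
  obtain ⟨g, hgl, hge⟩ := hlip.extend_finite_dimension
  refine ⟨g, hgl.continuous, ?_⟩
  filter_upwards [ae_tendsto_moll lu] with x hx hxR
  rw [← hge ⟨hxR, hx⟩, e1 x (hKO (ball_subset_closedBall hxR))]

omit [NormedSpace ℝ V] in
/-- closed conditions that hold a.e. hold everywhere for a continuous function -/
theorem mem_closed_of_ae (hU : IsOpen U) {u : E → V} (hu : ContinuousOn u U) {F : Set V}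
    (hF : IsClosed F) (h : ∀ᵐ x, x ∈ U → u x ∈ F) : ∀ x ∈ U, u x ∈ F := by
  have ho : IsOpen (U ∩ u ⁻¹' Fᶜ) := hu.isOpen_inter_preimage hU hF.isOpen_compl
  have h0 : volume (U ∩ u ⁻¹' Fᶜ) = 0 := by
    refine measure_mono_null (fun x hx => ?_) (ae_iff.1 h)
    exact fun hh => hx.2 (hh hx.1)
  have he := (ho.measure_eq_zero_iff volume).1 h0
  intro x hx
  by_contra hn
  have : x ∈ U ∩ u ⁻¹' Fᶜ := ⟨hx, hn⟩
  rw [he] at this
  exact this

/-- compatibility passes to continuous representatives -/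
theorem Pre.MC.rep {A : Pre E Γ} (hU : IsOpen U) {ρ : Γ →* Mat r} {h h' : A.ι → E → Mat r}
    (hm : A.MC U ρ h) (hc : ∀ a, ContinuousOn (h' a) U)
    (he : ∀ a, ∀ᵐ x, x ∈ U → h' a x = h a x) : A.MC U ρ h' := by
  intro a b
  have hd := A.diffeo hU a b
  have c1 : ContinuousOn (fun x => h' b (A.T a b x)) (A.ov U a b) :=
    (hc b).comp hd.s.continuousOn fun x hx => hx.2.2
  have c2 : ContinuousOn (fun x => ρ (A.c a b x)) (A.ov U a b) := fun x hx => by
    refine ContinuousAt.continuousWithinAt ?_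
    refine (continuousAt_const (y := ρ (A.c a b x))).congr ?_
    filter_upwards [A.c_loc a b x hx.1] with y hy
    rw [hy]
  have c3 : ContinuousOn (fun x => gm (h' a x) (ρ (A.c a b x))) (A.ov U a b) := by
    have c4 : ContinuousOn (fun x => (ρ (A.c a b x))ᴴ) (A.ov U a b) :=
      (adjL r).continuous.comp_continuousOn c2
    exact (c4.mul ((hc a).mono fun x hx => hx.2.1)).mul c2
  refine eqOn_of_ae hd.o c1 c3 ?_
  have h1 : ∀ᵐ y, y ∈ A.ov U b a → h' b y = h b y := (he b).mono fun y hy hy' => hy hy'.2.1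
  filter_upwards [hd.ae_comp h1, he a] with x hx hx' hxo
  rw [hx hxo, hx' hxo.2.1, hm a b x hxo]

theorem WCurl.congrR {om om' : E → E →L[ℝ] Mat r} {Φ : E → E → E → Mat r} (h : WCurl U om Φ)
    (he : ∀ᵐ x, x ∈ U → om x = om' x) : WCurl U om' Φ := by
  intro φ hφ v w
  rw [← h φ hφ v w]
  refine integral_congr_ae ?_
  filter_upwards [he] with x hx
  by_cases hxU : x ∈ U
  · rw [hx hxU]
  · simp [hφ.fderiv_zero_of_notMem hxU]

theorem WCurl.monoR {U' : Set E} {om : E → E →L[ℝ] Mat r} {Φ : E → E → E → Mat r}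
    (h : WCurl U om Φ) (hU : U' ⊆ U) : WCurl U' om Φ := fun φ hφ => h φ (hφ.mono hU)

end Pool.Agent.PW
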