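import Pool.Agent.P.MP_65ad7c_ag.RAlg
import Pool.Agent.P.MP_65ad7c_ag.ANf

open MeasureTheory Set Filter Topology Metric Matrix
open scoped ComplexOrder ContDiff Matrix.Norms.Frobenius RealInnerProductSpace ENNReal
open Pool.Agent.Lib.Sob

noncomputable section
namespace Pool.Agent.PW

variable {n r : ℕ} {h : Mat r} {A : EC n →L[ℝ] Mat r} {β : EC n →L[ℝ] EC n →L[ℝ] Mat r}

theorem Jet.d1_adj (J : Jet h A β) (hh : h.PosDef) (j : Fin n) :
    (d1 A j)ᴴ * h = h * d2 A j := by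
  have key : ∀ v, (A v)ᴴ * h = h * A v := fun v => by
    rw [← J.herm v, conjTranspose_mul, hh.1.eq]
  simp [d1, d2, conjTranspose_smul, conjTranspose_sub, add_mul, mul_add, key]

theorem Jet.SN_adj (J : Jet h A β) (j k : Fin n) : (SN β j k)ᴴ * h = h * SN β k j := by
  simp only [SN, d21, d12, d1, d2, conjTranspose_smul, conjTranspose_sub, conjTranspose_add,
    add_mul, mul_add, sub_mul, mul_sub, smul_mul_assoc, mul_smul_comm, J.adj, star_inv₀,
    star_ofNat, RCLike.star_def, Complex.conj_I]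
  match_scalars <;> ring

theorem rsign_nf (hh : h.PosDef) {M M' : Mat r} (e : Mᴴ * h = h * M') :
    0 ≤ (M * M').trace.re ∧ ((M * M').trace.re = 0 → M = 0) := by
  have hu : IsUnit h.det := (isUnit_iff_isUnit_det _).1 hh.isUnit
  have e2 : (M * M').trace.re = nf h h M M := by
    rw [nf, Matrix.mul_assoc, Matrix.mul_assoc, e, nonsing_inv_mul_cancel_left _ _ hu]
  rw [e2]
  refine ⟨nf_nonneg hh hh M, fun h0 => ?_⟩
  have hC : 0 < ‖h‖ + ‖h⁻¹‖ + 1 := by positivity
  have hb := bd_of_norm hC hh (by linarith [norm_nonneg h⁻¹]) (by linarith [norm_nonneg h])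
  have := le_nf hC hb hb M
  rw [h0, mul_zero] at this
  exact norm_eq_zero.1 (pow_eq_zero_iff two_ne_zero |>.1 (le_antisymm this (sq_nonneg _)))

open scoped MatrixOrder in
theorem rsign_fac {ι : Type} [Fintype ι] [DecidableEq ι] {K : Matrix ι ι ℂ} (hK : K.PosDef) :
    ∃ B : Matrix ι ι ℂ, IsUnit B ∧ K = Bᴴ * B :=
  CStarAlgebra.isStrictlyPositive_iff_eq_star_mul_self.mp hK.isStrictlyPositive

theorem rsign_one {ι : Type} [Fintype ι] [DecidableEq ι] {K : Matrix ι ι ℂ} (hK : K.PosDef)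
    (hh : h.PosDef) (X Y : ι → Mat r) (hXY : ∀ p, (X p)ᴴ * h = h * Y p) :
    0 ≤ (∑ p, ∑ q, K p q * (X p * Y q).trace).re ∧
      ((∑ p, ∑ q, K p q * (X p * Y q).trace).re = 0 → ∀ p, X p = 0) := by
  obtain ⟨B, hB, rfl⟩ := rsign_fac hK
  have e1 : ∑ p, ∑ q, (Bᴴ * B) p q * (X p * Y q).trace =
      ∑ s, ((∑ p, star (B s p) • X p) * ∑ q, B s q • Y q).trace := by
    simp only [Matrix.mul_apply, conjTranspose_apply, Finset.sum_mul, Finset.mul_sum, trace_sum,
      smul_mul_assoc, mul_smul_comm, trace_smul, smul_eq_mul]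
    rw [Finset.sum_comm]
    refine (Finset.sum_congr rfl fun q _ => Finset.sum_comm).trans (Finset.sum_comm.trans ?_)
    refine Finset.sum_congr rfl fun s _ => Finset.sum_congr rfl fun q _ =>
      Finset.sum_congr rfl fun p _ => ?_
    ring
  have e2 := fun s => rsign_nf hh (M := ∑ p, star (B s p) • X p) (M' := ∑ q, B s q • Y q) (by
    simp only [conjTranspose_sum, conjTranspose_smul, star_star, Finset.sum_mul, Finset.mul_sum,
      smul_mul_assoc, mul_smul_comm, hXY])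
  rw [e1, Complex.re_sum]
  refine ⟨Finset.sum_nonneg fun s _ => (e2 s).1, fun h0 p => ?_⟩
  have h1 := fun s => (e2 s).2
    ((Finset.sum_eq_zero_iff_of_nonneg fun s _ => (e2 s).1).1 h0 s (Finset.mem_univ s))
  ext a b
  have h2 : (fun p => X p a b) ᵥ* Bᴴ = 0 ᵥ* Bᴴ := by
    funext s
    have := congrFun (congrFun (h1 s) a) b
    simp only [Matrix.sum_apply, Matrix.smul_apply, smul_eq_mul, Matrix.zero_apply] at this
    rw [zero_vecMul, Pi.zero_apply, ← this]
    simp only [vecMul, dotProduct, conjTranspose_apply, mul_comm]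
  exact congrFun (vecMul_injective_of_isUnit hB.star h2) p

open scoped Kronecker in
/-- the contraction of a two index tensor with its adjoint is nonnegative and definite -/
theorem contr_pos {W W' : Mat n} (hW : W.PosDef) (hW' : W'.PosDef) (hh : h.PosDef)
    (X Y : Fin n → Fin n → Mat r) (hXY : ∀ j m, (X j m)ᴴ * h = h * Y j m) :
    0 ≤ (∑ j, ∑ k, ∑ l, ∑ m, W j k * W' l m * (X j l * Y k m).trace).re ∧
      ((∑ j, ∑ k, ∑ l, ∑ m, W j k * W' l m * (X j l * Y k m).trace).re = 0 →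
        ∀ j l, X j l = 0) := by
  have := rsign_one (hW.kronecker hW') hh (fun p => X p.1 p.2) (fun p => Y p.1 p.2)
    fun p => hXY p.1 p.2
  simp only [Fintype.sum_prod_type, kroneckerMap_apply, Prod.forall] at this
  rw [Finset.sum_congr rfl fun j _ => Finset.sum_comm]
  exact this

/-- the same with one index of each type -/
theorem contr_pos' {W : Mat n} (hW : W.PosDef) (hh : h.PosDef) (X : Fin n → Fin n → Mat r)
    (hX : ∀ j m, (X j m)ᴴ * h = h * X m j) :
    0 ≤ (∑ j, ∑ k, ∑ l, ∑ m, W j k * W l m * (X j m * X l k).trace).re ∧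
      ((∑ j, ∑ k, ∑ l, ∑ m, W j k * W l m * (X j m * X l k).trace).re = 0 → ∀ j m, X j m = 0) := by
  have := contr_pos hW hW.transpose hh X (fun k l => X l k) hX
  rw [Finset.sum_congr rfl fun j _ => Finset.sum_congr rfl fun k _ => Finset.sum_comm]
  exact this

theorem rsign_swap (F : Fin n → Fin n → Fin n → Fin n → ℂ) :
    ∑ j, ∑ k, ∑ l, ∑ m, F j k l m = ∑ j, ∑ k, ∑ l, ∑ m, F j m l k := by
  refine Finset.sum_congr rfl fun j _ => ?_
  rw [Finset.sum_comm]
  exact (Finset.sum_congr rfl fun l _ => Finset.sum_comm).trans Finset.sum_comm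

theorem rsign_cm (X Y : Mat r) : cm X Y = -cm Y X := by simp [cm]

/-- the sign of the Siu-Sampson integrand -/
theorem Jet.SF_sign (J : Jet h A β) (hh : h.PosDef) {g : Mat n} (hg : g.PosDef)
    (h0 : ∑ j, ∑ k, kH g j k • SN β j k = 0) :
    0 ≤ (SF (kG g) A β).re ∧ ((SF (kG g) A β).re = 0 → PH1 A ∧ PH2 β) := by
  have hF : JFlat A β := J.flat
  have hW : (kW g).PosDef := hg.transpose.inv
  obtain ⟨d, hd, hdet⟩ : ∃ d : ℝ, 0 < d ∧ g.det = d := by
    obtain ⟨h1, h2⟩ := Complex.pos_iff.1 hg.det_pos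
    exact ⟨g.det.re, h1, Complex.ext rfl h2.symm⟩
  have ht : ∑ j, ∑ k, kW g j k • SN β j k = 0 := by
    have : g.det • ∑ j, ∑ k, kW g j k • SN β j k = 0 := by
      simpa only [kH, Finset.smul_sum, smul_smul, Matrix.smul_apply, smul_eq_mul] using h0
    exact (smul_eq_zero.1 this).resolve_left hg.det_pos.ne'
  have hX : ∀ j l, (cm (d1 A l) (d1 A j))ᴴ * h = h * cm (d2 A j) (d2 A l) := by
    intro j l
    simp only [cm, conjTranspose_sub, conjTranspose_mul, sub_mul, mul_sub, Matrix.mul_assoc,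
      J.d1_adj hh]
    simp only [← Matrix.mul_assoc, J.d1_adj hh]
  obtain ⟨p1, z1⟩ := contr_pos' hW hh (SN β) J.SN_adj
  obtain ⟨p2, z2⟩ := contr_pos hW hW hh (fun j l => cm (d1 A l) (d1 A j))
    (fun k m => cm (d2 A k) (d2 A m)) hX
  have t1 : ∑ j, ∑ k, ∑ l, ∑ m, kW g j m * kW g l k * (SN β j m * SN β l k).trace = 0 := by
    have e : ∑ j, ∑ k, ∑ l, ∑ m, kW g j k * kW g l m * (SN β j k * SN β l m).trace =
        ((∑ j, ∑ k, kW g j k • SN β j k) * ∑ l, ∑ m, kW g l m • SN β l m).trace := by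
      simp only [Finset.sum_mul]
      simp only [Finset.mul_sum, trace_sum, smul_mul_assoc, mul_smul_comm, trace_smul,
        smul_eq_mul, mul_assoc, mul_left_comm]
    rw [rsign_swap, e, ht, Matrix.zero_mul, trace_zero]
  have t2 : ∑ j, ∑ k, ∑ l, ∑ m, kW g j m * kW g l k *
        (cm (d1 A l) (d1 A j) * cm (d2 A m) (d2 A k)).trace =
      ∑ j, ∑ k, ∑ l, ∑ m, kW g j k * kW g l m *
        (cm (d1 A l) (d1 A j) * cm (d2 A k) (d2 A m)).trace := rsign_swap _
  have t3 : ∑ j, ∑ k, ∑ l, ∑ m, kW g j k * kW g l m *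
        (cm (d1 A l) (d1 A j) * cm (d2 A m) (d2 A k)).trace =
      -∑ j, ∑ k, ∑ l, ∑ m, kW g j k * kW g l m *
        (cm (d1 A l) (d1 A j) * cm (d2 A k) (d2 A m)).trace := by
    simp only [← Finset.sum_neg_distrib]
    refine Finset.sum_congr rfl fun j _ => Finset.sum_congr rfl fun k _ =>
      Finset.sum_congr rfl fun l _ => Finset.sum_congr rfl fun m _ => ?_
    rw [rsign_cm (d2 A m), Matrix.mul_neg, trace_neg, mul_neg]
  have e : SF (kG g) A β = (d : ℂ) *
      (∑ j, ∑ k, ∑ l, ∑ m, kW g j k * kW g l m * (SN β j m * SN β l k).trace -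
        ∑ j, ∑ k, ∑ l, ∑ m, kW g j m * kW g l k * (SN β j m * SN β l k).trace) -
      ((d / 8 : ℝ) : ℂ) * (∑ j, ∑ k, ∑ l, ∑ m, kW g j k * kW g l m *
        (cm (d1 A l) (d1 A j) * cm (d2 A m) (d2 A k)).trace -
        ∑ j, ∑ k, ∑ l, ∑ m, kW g j m * kW g l k *
          (cm (d1 A l) (d1 A j) * cm (d2 A m) (d2 A k)).trace) := by
    rw [hF.SF_eq (anti_kG g)]
    simp only [← Finset.sum_sub_distrib, Finset.mul_sum]
    refine Finset.sum_congr rfl fun j _ => Finset.sum_congr rfl fun k _ =>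
      Finset.sum_congr rfl fun l _ => Finset.sum_congr rfl fun m _ => ?_
    rw [kG, hdet]
    push_cast
    ring
  rw [e, t1, t2, t3, sub_zero, Complex.sub_re, Complex.re_ofReal_mul, Complex.re_ofReal_mul,
    Complex.sub_re, Complex.neg_re]
  have q1 := mul_nonneg hd.le p1
  have q2 := mul_nonneg hd.le p2
  refine ⟨by linarith, fun hz => ?_⟩
  have a1 := z1 ((mul_eq_zero.1 (le_antisymm (by linarith) q1)).resolve_left hd.ne')
  have a2 := z2 ((mul_eq_zero.1 (le_antisymm (by linarith) q2)).resolve_left hd.ne')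
  refine hF.ph a1 a2 fun k m => ?_
  have := hX m k
  rw [a2, conjTranspose_zero, Matrix.zero_mul] at this
  exact (hh.isUnit.mul_right_eq_zero).1 this.symm

end Pool.Agent.PW
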