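import Pool.Agent.P.MP_65ad7c_ag.RGlob
import Pool.Agent.P.MP_65ad7c_ag.RLocal
import Pool.Agent.P.MP_65ad7c_ag.RJet
import Pool.Agent.P.MP_65ad7c_ag.RSign
import Pool.Agent.P.MP_65ad7c_ag.RDiv
import Pool.Agent.P.MP_65ad7c_ag.RDq2
import Pool.Agent.P.MP_65ad7c_ag.RRep

open MeasureTheory Set Filter Topology Metric Matrix
open scoped ComplexOrder ContDiff Matrix.Norms.Frobenius RealInnerProductSpace ENNReal
open Pool.Agent.Lib.Sob

noncomputable section
namespace Pool.Agent.PW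

variable {n r : ℕ} {Γ : Type} [Group Γ]

theorem Coef.mono {E : Type} [NormedAddCommGroup E] [InnerProductSpace ℝ E] {U U' : Set E}
    {α : E → E →L[ℝ] E} (h : Coef U α) (hU : U' ⊆ U) : Coef U' α :=
  ⟨h.1.mono hU, fun x hx => h.2 x (hU hx)⟩

/-- harmonic metrics on a compact Kaehler manifold are pluriharmonic -/
theorem ph_ae (A : KAtlas n Γ) {ρ : Γ →* Mat r} {C : ℝ} {h : A.ι → EC n → Mat r}
    {D : A.ι → EC n → EC n →L[ℝ] Mat r} (H : A.toAtlas.HM ρ C h D) (a : A.ι) :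
    (∀ᵐ x, x ∈ ball (0 : EC n) 4 → PH1 (mc (h a x) (D a x))) ∧
      WCurl (ball 0 4) (fun x => (mc (h a x) (D a x)).comp (IL n)) fun _ _ _ => 0 := by
  have hU : IsOpen (ball (0 : EC n) (11 / 2)) := isOpen_ball
  have hU6 : ball (0 : EC n) (11 / 2) ⊆ ball 0 6 := ball_subset_ball (by norm_num)
  have h46 : ball (0 : EC n) 4 ⊆ ball 0 (11 / 2) := ball_subset_ball (by norm_num)
  have hL : ∀ a, LH (ball 0 6) (A.α a) (h a) (D a) := fun a => ⟨H.wd a, H.lbd a, H.harm a⟩
  choose β hβ using fun a => wd_mc isOpen_ball (A.coef a) (hL a) hU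
    (isCompact_closedBall 0 (11 / 2)) ball_subset_closedBall (closedBall_subset_ball (by norm_num))
  have hp : ∀ a, ∀ x ∈ ball (0 : EC n) (11 / 2), (h a x).PosDef :=
    fun a x hx => (H.lbd a).posDef x (hU6 hx)
  have hw : ∀ a, WD 2 (ball (0 : EC n) (11 / 2)) (h a) (D a) := fun a => (H.wd a).mono hU6
  have hJ := fun a => jet_ae hU (hw a) (hp a) (hβ a)
  have hf : ∀ a, ∀ᵐ x, x ∈ ball (0 : EC n) (11 / 2) → JFlat (mc (h a x) (D a x)) (β a x) :=
    fun a => (hJ a).mono fun x hx hx' => (hx hx').flat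
  have hg : ∀ a, IsKahlerOn (ball (0 : EC n) (11 / 2)) (A.g a) := fun a => (A.kae a).mono hU6
  obtain ⟨χ, hχ, hχp⟩ := A.toPre.exists_pou (R := 4) (R' := 5) (by norm_num) (by norm_num)
    (by norm_num)
  have hχ' : A.Pou (ball 0 (11 / 2)) χ := hχ.mono (closedBall_subset_ball (by norm_num))
  have hs : ∀ a, ∀ᵐ x, x ∈ ball (0 : EC n) (11 / 2) →
      0 ≤ (SF (kG (A.g a x)) (mc (h a x) (D a x)) (β a x)).re ∧
      ((SF (kG (A.g a x)) (mc (h a x) (D a x)) (β a x)).re = 0 →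
        PH1 (mc (h a x) (D a x)) ∧ PH2 (β a x)) := by
    intro a
    have e : A.α a = fun x => kα (A.g a x) := funext (A.α_eq a)
    have h1 := harm_ae hU ((A.coef a).mono hU6).1 (e ▸ divFree_kα hU (hg a)) (hβ a)
      ((hL a).mono hU6).harm
    filter_upwards [h1, hJ a] with x hx1 hx2 hx
    refine (hx2 hx).SF_sign (hp a x hx) ((hg a).2.1 x hx) ?_
    have h2 := hx1 hx
    rw [A.α_eq a x, trace_formula ((hg a).2.1 x hx)] at h2
    exact (smul_eq_zero.1 h2).resolve_left (by norm_num)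
  have hi : ∀ a, Integrable fun x =>
      (χ a x : ℂ) * SF (kG (A.g a x)) (mc (h a x) (D a x)) (β a x) := fun a => by
    have := (locLp_SF hU (hg a) (hβ a) (hf a)).integrable_test le_rfl (hχ'.1 a).1
    simpa only [Complex.real_smul] using this
  have hi' : ∀ a, Integrable fun x =>
      χ a x * (SF (kG (A.g a x)) (mc (h a x) (D a x)) (β a x)).re := fun a => by
    simpa using (hi a).re
  have hn : ∀ a, 0 ≤ᵐ[volume] fun x =>
      χ a x * (SF (kG (A.g a x)) (mc (h a x) (D a x)) (β a x)).re := fun a => by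
    filter_upwards [hs a] with x hx
    by_cases hx' : x ∈ ball (0 : EC n) (11 / 2)
    · exact mul_nonneg ((hχ'.1 a).2 x) (hx hx').1
    · simp [(hχ'.1 a).1.zero_of_notMem hx']
  have h0 : ∑ a, ∫ x, χ a x * (SF (kG (A.g a x)) (mc (h a x) (D a x)) (β a x)).re = 0 := by
    have h1 := sum_SP_zero A hU hU6 hχ' hw (H.mc.mono hU6) hp hβ hf
    rw [← Finset.sum_congr rfl fun a _ => local_ss hU (hg a) (hβ a) (hf a) (hχ'.1 a).1] at h1
    have h2 := congrArg Complex.re h1
    rw [Complex.re_sum] at h2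
    rw [← Complex.zero_re, ← h2]
    refine Finset.sum_congr rfl fun a _ => ?_
    have := integral_re (hi a)
    simpa using this
  have h1 := (Finset.sum_eq_zero_iff_of_nonneg fun a _ => integral_nonneg_of_ae (hn a)).1 h0 a
    (Finset.mem_univ a)
  have h2 := (integral_eq_zero_iff_of_nonneg_ae (hn a) (hi' a)).1 h1
  have h3 : ∀ᵐ x, x ∈ ball (0 : EC n) 4 → PH1 (mc (h a x) (D a x)) ∧ PH2 (β a x) := by
    filter_upwards [h2, hs a] with x hx1 hx2 hx
    exact (hx2 (h46 hx)).2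
      ((mul_eq_zero.1 hx1).resolve_left (hχp a x (ball_subset_closedBall hx)).ne')
  exact ⟨h3.mono fun x hx hx' => (hx hx').1,
    wcurl_of_ae ((hβ a).mono h46) (IL n) (h3.mono fun x hx hx' => (hx hx').2)⟩

end Pool.Agent.PW
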