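import Pool.Agent.P.MP_65ad7c_ag.Base

open MeasureTheory Set Filter Topology Metric Matrix
open scoped ComplexOrder ContDiff Matrix.Norms.Frobenius RealInnerProductSpace ENNReal
open Pool.Agent.Lib.Sob

noncomputable section
namespace Pool.Agent.PW

variable {E : Type} [NormedAddCommGroup E] [InnerProductSpace ℝ E] [FiniteDimensional ℝ E]
  [MeasurableSpace E] [BorelSpace E] {r : ℕ} {U : Set E}
  {V W : Type} [NormedAddCommGroup V] [NormedSpace ℝ V] [NormedAddCommGroup W] [NormedSpace ℝ W]

theorem wd_prodMk [CompleteSpace V] [CompleteSpace W] {n : ℕ} (hn : 1 ≤ n) {u : E → V}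
    {v : E → W} {D : E → E →L[ℝ] V} {D' : E → E →L[ℝ] W} (h : WD n U u D) (h' : WD n U v D') :
    WD n U (fun x => (u x, v x)) fun x => (D x).prod (D' x) := by
  refine ((h.clm hn (ContinuousLinearMap.inl ℝ V W)).add hn
    (h'.clm hn (ContinuousLinearMap.inr ℝ V W))).congr' (fun x _ => by simp) fun x _ => ?_
  ext e <;> simp

/-- chain rule for a `C¹` map with bounded derivative -/
theorem wd_chain_global [CompleteSpace V] [CompleteSpace W] {n : ℕ} (hn : 1 ≤ n) (hU : IsOpen U)
    {u : E → V} {D : E → E →L[ℝ] V} (h : WD n U u D) {F : V → W} (hF : ContDiff ℝ 1 F) {L : ℝ}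
    (hL : ∀ y, ‖fderiv ℝ F y‖ ≤ L) :
    WD n U (fun x => F (u x)) fun x => (fderiv ℝ F (u x)).comp (D x) := by
  set ψ : V → V →L[ℝ] W := fderiv ℝ F with hψdef
  have hψ : Continuous ψ := hF.continuous_fderiv one_ne_zero
  have hdF : Differentiable ℝ F := hF.differentiable one_ne_zero
  have hlip : ∀ s t, ‖F s - F t‖ ≤ L * ‖s - t‖ := fun s t =>
    convex_univ.norm_image_sub_le_of_norm_fderiv_le (fun x _ => hdF x) (fun x _ => hL x)
      (mem_univ t) (mem_univ s)
  have hL0 : 0 ≤ L := (norm_nonneg _).trans (hL 0)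
  have hcomp : ∀ {α : Type} [MeasurableSpace α] {μ : Measure α} {a : α → V →L[ℝ] W}
      {b : α → E →L[ℝ] V}, AEStronglyMeasurable a μ → AEStronglyMeasurable b μ →
      AEStronglyMeasurable (fun x => (a x).comp (b x)) μ := fun ha hb =>
    (ContinuousLinearMap.compL ℝ E V W).aestronglyMeasurable_comp₂ ha hb
  have hen : ∀ (a : V →L[ℝ] W) (b : E →L[ℝ] V) (c : ℝ), ‖a‖ ≤ c →
      ‖a.comp b‖ₑ ≤ ENNReal.ofReal c * ‖b‖ₑ := fun a b c hc => by
    rw [← ofReal_norm b, ← ENNReal.ofReal_mul ((norm_nonneg _).trans hc)]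
    exact enorm_le_ofReal ((a.opNorm_comp_le b).trans
      (mul_le_mul_of_nonneg_right hc (norm_nonneg _)))
  have l1 : LocLp n U fun x => F (u x) := by
    have a1 : LocLp n U fun x => F (u x) - F 0 :=
      h.1.of_le_mul (continuousOn_const (c := L))
        (fun K hK hKU => (hF.continuous.comp_aestronglyMeasurable (h.1 K hK hKU).1).sub
          aestronglyMeasurable_const)
        (Eventually.of_forall fun x _ => by simpa using hlip (u x) 0)
    simpa using a1.add (LocLp.of_continuousOn (continuousOn_const (c := F 0)))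
  have l2 : LocLp n U fun x => (ψ (u x)).comp (D x) :=
    h.2.1.of_le_mul (continuousOn_const (c := L))
      (fun K hK hKU => hcomp (hψ.comp_aestronglyMeasurable (h.1 K hK hKU).1) (h.2.1 K hK hKU).1)
      (Eventually.of_forall fun x _ => ((ψ (u x)).opNorm_comp_le _).trans
        (mul_le_mul_of_nonneg_right (hL _) (norm_nonneg _)))
  refine WD.of_tendsto hn l1 l2 fun K hK hKU => ?_
  obtain ⟨v, sv, t0, t1, t2⟩ := h.approx hn hU hK hKU
  refine ⟨univ, subset_univ _, fun k x => F (v k x), fun k x => (ψ (v k x)).comp (fderiv ℝ (v k) x),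
    fun k => ?_, ?_, ?_⟩
  · refine (WD.of_contDiff hn (hF.comp ((sv k).of_le (by simp)))).congr' (fun _ _ => rfl)
      fun x _ => ?_
    exact fderiv_comp x (hdF _) ((sv k).differentiable (by simp) x)
  · have t := ENNReal.Tendsto.const_mul (a := ENNReal.ofReal L ^ n) t1 (Or.inr (by simp))
    rw [mul_zero] at t
    refine tendsto_of_tendsto_of_tendsto_of_le_of_le tendsto_const_nhds t (fun _ => zero_le)
      fun k => ?_
    rw [← lintegral_const_mul' _ _ (by simp)]
    refine lintegral_mono fun x => ?_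
    rw [← mul_pow]
    refine pow_le_pow_left' ((enorm_le_ofReal (hlip _ _)).trans ?_) n
    rw [ENNReal.ofReal_mul hL0, ofReal_norm]
  · have mu := (h.1 K hK hKU).1
    have mD := (h.2.1 K hK hKU).1
    have t3 : Tendsto (fun k => ∫⁻ x in K, ‖(ψ (v k x) - ψ (u x)).comp (D x)‖ₑ ^ n) atTop
        (𝓝 0) := by
      have := tendsto_lintegral_of_dominated_convergence' (μ := volume.restrict K)
        (F := fun k x => ‖(ψ (v k x) - ψ (u x)).comp (D x)‖ₑ ^ n) (f := fun _ => 0)
        (fun x => ENNReal.ofReal (L + L) ^ n * ‖D x‖ₑ ^ n) (fun k =>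
          ((hcomp ((hψ.comp (sv k).continuous).aestronglyMeasurable.sub
            (hψ.comp_aestronglyMeasurable mu)) mD).enorm.pow_const n))
        (fun k => Eventually.of_forall fun x => ?_) ?_ ?_
      · simpa using this
      · simp only
        rw [← mul_pow]
        exact pow_le_pow_left' (hen _ _ _ ((norm_sub_le _ _).trans (add_le_add (hL _) (hL _)))) n
      · rw [lintegral_const_mul' _ _ (by simp)]
        exact ENNReal.mul_ne_top (by simp) (lintegral_pow_lt_top hn (h.2.1 K hK hKU)).ne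
      · filter_upwards [ae_restrict_of_ae t0, ae_restrict_mem hK.measurableSet] with x hx hxK
        simp only [ContinuousLinearMap.sub_comp]
        exact tendsto_enorm_sub_pow hn
          (((continuous_id.clm_comp (continuous_const (y := D x))).tendsto _).comp
            ((hψ.tendsto _).comp (hx hxK)))
    have t := ENNReal.Tendsto.const_mul (a := 2 ^ n)
      ((ENNReal.Tendsto.const_mul (a := ENNReal.ofReal L ^ n) t2 (Or.inr (by simp))).add t3)
      (Or.inr (by simp))
    simp only [mul_zero, add_zero] at t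
    refine tendsto_of_tendsto_of_tendsto_of_le_of_le tendsto_const_nhds t (fun _ => zero_le)
      fun k => ?_
    have m1 : AEMeasurable (fun x => ENNReal.ofReal L ^ n * ‖fderiv ℝ (v k) x - D x‖ₑ ^ n)
        (volume.restrict K) :=
      ((((sv k).continuous_fderiv (by simp)).aestronglyMeasurable.sub mD).enorm.pow_const
        n).const_mul _
    simp only
    rw [← lintegral_const_mul' _ _ (by simp), ← lintegral_add_left' m1,
      ← lintegral_const_mul' _ _ (by simp)]
    refine lintegral_mono fun x => ?_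
    have e : (ψ (v k x)).comp (fderiv ℝ (v k) x) - (ψ (u x)).comp (D x) =
        (ψ (v k x)).comp (fderiv ℝ (v k) x - D x) + (ψ (v k x) - ψ (u x)).comp (D x) := by
      rw [ContinuousLinearMap.comp_sub, ContinuousLinearMap.sub_comp]; abel
    simp only
    rw [e]
    refine (enorm_add_pow_le n _ _).trans ?_
    rw [← mul_pow]
    gcongr
    exact hen _ _ _ (hL _)

omit [InnerProductSpace ℝ E] [FiniteDimensional ℝ E] [MeasurableSpace E] [BorelSpace E] in
/-- a `C¹` map on an open set agrees near a compact subset with a compactly supported one -/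
theorem tchain_cut [FiniteDimensional ℝ V] {F : V → W} {Ω L : Set V} (hΩ : IsOpen Ω)
    (hF : ContDiffOn ℝ 1 F Ω) (hL : IsCompact L) (hLΩ : L ⊆ Ω) :
    ∃ G : V → W, ContDiff ℝ 1 G ∧ HasCompactSupport G ∧ ∀ y ∈ L, G =ᶠ[𝓝 y] F := by
  have : LocallyCompactSpace V := by
    have := FiniteDimensional.proper_real V
    infer_instance
  obtain ⟨K', hK', hKK', hK'O⟩ := exists_compact_between hL hΩ hLΩ
  obtain ⟨f, h1, h0, -⟩ := exists_contMDiffMap_one_nhds_of_subset_interior
    (n := (⊤ : ℕ∞)) (modelWithCornersSelf ℝ V) hL.isClosed hKK'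
  have hs : tsupport f ⊆ K' := closure_minimal (fun x hx => by
    by_contra h; exact hx (h0 x h)) hK'.isClosed
  have hf : ContDiff ℝ 1 f := f.contMDiff.contDiff.of_le (by simp)
  refine ⟨fun y => f y • F y, contDiff_iff_contDiffAt.2 fun y => ?_, ?_, fun y hy => ?_⟩
  · by_cases hy : y ∈ Ω
    · exact hf.contDiffAt.smul (hF.contDiffAt (hΩ.mem_nhds hy))
    · have h2 : (fun y => f y • F y) =ᶠ[𝓝 y] fun _ => 0 := by
        filter_upwards [hK'.isClosed.isOpen_compl.mem_nhds fun h => hy (hK'O h)] with z hz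
        rw [h0 z hz, zero_smul]
      exact contDiffAt_const.congr_of_eventuallyEq h2
  · exact HasCompactSupport.intro hK' fun z hz => by rw [h0 z hz, zero_smul]
  · filter_upwards [(eventually_nhdsSet_iff_forall.1 h1) y hy] with z hz
    rw [hz, one_smul]

/-- chain rule for a `C¹` map on an open set, locally compact range -/
theorem wd_chain [FiniteDimensional ℝ V] [CompleteSpace W] {n : ℕ} (hn : 1 ≤ n) (hU : IsOpen U)
    {u : E → V} {D : E → E →L[ℝ] V} (h : WD n U u D) {F : V → W} {Ω : Set V} (hΩ : IsOpen Ω)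
    (hF : ContDiffOn ℝ 1 F Ω)
    (hK : ∀ K, IsCompact K → K ⊆ U → ∃ L, IsCompact L ∧ L ⊆ Ω ∧ ∀ᵐ x, x ∈ K → u x ∈ L) :
    WD n U (fun x => F (u x)) fun x => (fderiv ℝ F (u x)).comp (D x) := by
  have : CompleteSpace V := FiniteDimensional.complete ℝ V
  refine WD.of_local hn fun x hx => ?_
  obtain ⟨K, hKc, hxK, hKU⟩ := exists_compact_subset hU hx
  obtain ⟨L, hLc, hLΩ, hL⟩ := hK K hKc hKU
  obtain ⟨G, hG, hGc, hGF⟩ := tchain_cut hΩ hF hLc hLΩ
  obtain ⟨C, hC⟩ := (hG.continuous_fderiv one_ne_zero).bounded_above_of_compact_support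
    (hGc.fderiv ℝ)
  refine ⟨interior K, isOpen_interior, hxK, (wd_chain_global hn isOpen_interior
    (h.mono (interior_subset.trans hKU)) hG hC).congr ?_ ?_⟩
  · filter_upwards [hL] with y hy hyK using (hGF _ (hy (interior_subset hyK))).eq_of_nhds
  · filter_upwards [hL] with y hy hyK
    rw [(hGF _ (hy (interior_subset hyK))).fderiv_eq]

end Pool.Agent.PW
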