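import Pool.Agent.P.MP_65ad7c_ag.RCmp
import Pool.Agent.P.MP_65ad7c_ag.TCacc
import Pool.Agent.P.MP_65ad7c_ag.TChain

open MeasureTheory Set Filter Topology Metric Matrix
open scoped ComplexOrder ContDiff Matrix.Norms.Frobenius RealInnerProductSpace ENNReal
open Pool.Agent.Lib.Sob

noncomputable section
namespace Pool.Agent.PW

variable {E : Type} [NormedAddCommGroup E] [InnerProductSpace ℝ E] [FiniteDimensional ℝ E]
  [MeasurableSpace E] [BorelSpace E] {r : ℕ} {U : Set E}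
  {α : E → E →L[ℝ] E} {h h' : E → Mat r} {D D' : E → E →L[ℝ] Mat r}

/-- chain rule for a real function of a real Sobolev function bounded below -/
theorem rsub_chain (hU : IsOpen U) {s : E → ℝ} {G : E → E →L[ℝ] ℝ} (hs : WD 2 U s G)
    (hb : LB U s) {a b : ℝ} (hab : b < a) (ha : ∀ x ∈ U, a ≤ s x) {F F' : ℝ → ℝ}
    (hF : ContDiffOn ℝ 1 F (Ioi b)) (hF' : ∀ t, b < t → HasDerivAt F (F' t) t) :
    WD 2 U (fun x => F (s x)) (fun x => F' (s x) • G x) ∧ LB U fun x => F (s x) := by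
  have hr : ∀ K, IsCompact K → K ⊆ U → ∃ C : ℝ, ∀ x ∈ K, s x ∈ Icc a C := by
    intro K hK hKU
    obtain ⟨C, hC⟩ := hb K hK hKU
    exact ⟨C, fun x hx => ⟨ha x (hKU hx), (le_abs_self _).trans (hC x hx)⟩⟩
  have hsub : ∀ C, Icc a C ⊆ Ioi b := fun C t ht => hab.trans_le ht.1
  constructor
  · refine (wd_chain (by norm_num) hU hs isOpen_Ioi hF ?_).congr' (fun _ _ => rfl) ?_
    · intro K hK hKU
      obtain ⟨C, hC⟩ := hr K hK hKU
      exact ⟨Icc a C, isCompact_Icc, hsub C, Eventually.of_forall hC⟩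
    · intro x hx
      rw [(hF' (s x) (hab.trans_le (ha x hx))).hasFDerivAt.fderiv]
      ext v
      simp [mul_comm]
  · intro K hK hKU
    obtain ⟨C, hC⟩ := hr K hK hKU
    obtain ⟨M, hM⟩ := isCompact_Icc.exists_bound_of_continuousOn (hF.continuousOn.mono (hsub C))
    exact ⟨M, fun x hx => hM _ (hC x hx)⟩

omit [MeasurableSpace E] [BorelSpace E] in
theorem rsub_spair (β : E →L[ℝ] E) (G p : E →L[ℝ] ℝ) (a b e : ℝ) :
    spair β G (((ContinuousLinearMap.mul ℝ ℝ).flip e).comp (b • G) +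
        ((ContinuousLinearMap.mul ℝ ℝ) a).comp p) =
      e * b * spair β G G + spair β (a • G) p := by
  unfold spair
  rw [Finset.mul_sum, ← Finset.sum_add_distrib]
  refine Finset.sum_congr rfl fun i _ => ?_
  simp
  ring

theorem rsub_deriv {c t : ℝ} (ht : 0 < t + c) :
    HasDerivAt (fun t => √(t + c)) (2 * √(t + c))⁻¹ t := by
  have := ((hasDerivAt_id t).add_const c).sqrt ht.ne'
  simpa using this

theorem rsub_deriv' {c t : ℝ} (ht : 0 < t + c) :
    HasDerivAt (fun t => (2 * √(t + c))⁻¹) (-(4 * √(t + c) ^ 3)⁻¹) t := by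
  have h0 : 0 < √(t + c) := Real.sqrt_pos.2 ht
  have h1 := ((rsub_deriv ht).const_mul 2).inv (by positivity)
  have h2 : -(2 * (2 * √(t + c))⁻¹) / (2 * √(t + c)) ^ 2 = -(4 * √(t + c) ^ 3)⁻¹ := by
    field_simp
    ring
  rw [h2] at h1
  exact h1

theorem rsub_cd (c : ℝ) : ContDiffOn ℝ 1 (fun t => √(t + c)) (Ioi (-c)) :=
  (contDiffOn_id.add contDiffOn_const).sqrt fun t ht => by
    have : -c < t := ht
    have h : 0 < t + c := by linarith
    exact h.ne'

theorem rsub_cd' (c : ℝ) : ContDiffOn ℝ 1 (fun t => (2 * √(t + c))⁻¹) (Ioi (-c)) :=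
  (contDiffOn_const.mul (rsub_cd c)).inv fun t ht => by
    have : -c < t := ht
    have h : 0 < t + c := by linarith
    have := Real.sqrt_pos.2 h
    positivity

/-- the square root of the distance function of two harmonic metrics is a subsolution -/
theorem sqrt_subsol (hU : IsOpen U) (hα : ContinuousOn α U)
    (hs : ∀ x ∈ U, ∀ v w, ⟪α x v, w⟫ = ⟪v, α x w⟫) (hp : ∀ x ∈ U, ∀ v, 0 ≤ ⟪v, α x v⟫)
    (H : LH U α h D) (H' : LH U α h' D') {ε : ℝ} (hε : 0 < ε) {K : Set E} (hK : IsCompact K)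
    (hKU : K ⊆ U) :
    ∃ Df, WD 2 U (fun x => √(sg (h x) (h' x) - 2 * r + ε)) Df ∧
      LB U (fun x => √(sg (h x) (h' x) - 2 * r + ε)) ∧ SubSol U K α Df 0 := by
  obtain ⟨w, b⟩ := wd_sg hU H.wd H'.wd H.lbd H'.lbd
  have hab : -(-2 * (r : ℝ) + ε) < 2 * r := by linarith
  have ha : ∀ x ∈ U, 2 * (r : ℝ) ≤ sg (h x) (h' x) := fun x hx =>
    le_sg (H.lbd.posDef x hx) (H'.lbd.posDef x hx)
  have e : ∀ x, sg (h x) (h' x) - 2 * r + ε = sg (h x) (h' x) + (-2 * r + ε) := fun x => by ring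
  obtain ⟨w1, b1⟩ := rsub_chain hU w b hab ha (rsub_cd _)
    (fun t ht => rsub_deriv (by linarith))
  obtain ⟨w2, b2⟩ := rsub_chain hU w b hab ha (rsub_cd' _)
    (fun t ht => rsub_deriv' (by linarith))
  simp only [e]
  refine ⟨_, w1, b1, fun η Dη hη hb h0 hc => ?_⟩
  rw [zero_mul]
  by_cases hi : IntegrableOn (fun x => spair (α x)
      ((2 * √(sg (h x) (h' x) + (-2 * r + ε)))⁻¹ • dsg (h x) (h' x) (D x) (D' x)) (Dη x)) U
  swap
  · exact (integral_undef hi).le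
  have w3 := wd_bilin (by norm_num) hU (ContinuousLinearMap.mul ℝ ℝ) w2 hη b2 hb
  have b3 := b2.bilin (ContinuousLinearMap.mul ℝ ℝ) hb
  obtain ⟨i1, i2, -, i4⟩ := cmp_identity hU hα hα hs H H' w3 b3
    ⟨K, hK, hKU, fun x hx hxK => by simp [hc x hx hxK]⟩
  have z : ∀ (x : E) (X Y : E →L[ℝ] Mat r), pair (α x - α x) X Y = 0 := by
    intro x X Y
    simp [pair]
  simp only [z, integral_zero] at i4
  rw [← i4, ← integral_add i1 i2]
  refine setIntegral_mono_on hi (i1.add i2) hU.measurableSet fun x hx => ?_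
  rw [rsub_spair]
  have p1 := H.lbd.posDef x hx
  have p2 := H'.lbd.posDef x hx
  have q1 := spair_dsg_le' (D := D x) (D' := D' x) p1 p2 (hs x hx) (hp x hx)
  have q2 := qq_nonneg (D := D x) (D' := D' x) p1 p2 (hs x hx) (hp x hx)
  have q3 := ha x hx
  have q4 := h0 x hx
  have q5 : 0 < sg (h x) (h' x) + (-2 * r + ε) := by linarith
  have q6 := Real.sq_sqrt q5.le
  have q7 := Real.sqrt_pos.2 q5
  simp only [ContinuousLinearMap.mul_apply']
  generalize √(sg (h x) (h' x) + (-2 * r + ε)) = f at q6 q7 ⊢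
  generalize spair (α x) (dsg (h x) (h' x) (D x) (D' x)) (dsg (h x) (h' x) (D x) (D' x)) = S
    at q1 ⊢
  generalize qq (α x) (h x) (h' x) (D x) (D' x) = Q at q1 q2 ⊢
  have q8 : S ≤ 2 * f ^ 2 * Q := by
    refine q1.trans (mul_le_mul_of_nonneg_right ?_ q2)
    linarith
  have q9 : (4 * f ^ 3)⁻¹ * S ≤ (2 * f)⁻¹ * Q := by
    have : (2 * f)⁻¹ * Q = (4 * f ^ 3)⁻¹ * (2 * f ^ 2 * Q) := by
      field_simp
      ring
    rw [this]
    exact mul_le_mul_of_nonneg_left q8 (by positivity)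
  have q10 := mul_le_mul_of_nonneg_left q9 q4
  linarith

end Pool.Agent.PW
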