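import Pool.Agent.P.MP_65ad7c_ag.SCos

/-! The conditions AX on the cylinder. -/

open TopologicalSpace

set_option backward.isDefEq.respectTransparency false

noncomputable section
namespace Pool.Agent.PW.S

variable {Y Z Z' : Type} [TopologicalSpace Y] [TopologicalSpace Z] [TopologicalSpace Z']

variable {U : ℕ → Opens Y} {I : Cx Y} {one : (I.X 0).obj (U 0)}

theorem heq_beta (hI : CInj Set.univ I) : ∃ v, HEq I.beta v :=
  heq_of_qis _ (vb_qis I) hI ((cinj_G _).push _)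

theorem CMap.Qis.exAt {A B : Cx Y} {u : CMap A B} {x : Y} (hu : u.Qis x) {n : ℕ}
    (h : A.ExAt x n) : B.ExAt x n := by
  intro V hx c hc
  obtain ⟨W, hW, a, hxW, ha, hb⟩ := hu.surj n V hx c hc
  obtain ⟨W', hW', hx', hb'⟩ := h W hxW a ha
  refine ⟨W', hW'.trans hW, hx', ?_⟩
  have h1 := u.map_bd hb'
  have h2 := B.res_bd hW' hb
  rw [map_sub, (u.f n).nat, PS.res_res] at h2
  have h3 := Submodule.sub_mem _ h1 h2
  rwa [sub_sub_cancel] at h3

theorem pull_exAt {A : Cx Y} {z : Y × unitInterval} {n : ℕ} (h : A.ExAt z.1 n) :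
    A.pull.ExAt z n := by
  intro V hz c hc
  obtain ⟨W, hW, hzW, hb⟩ := h (img V) (mem_img.2 ⟨z.2, hz⟩) c hc
  have h1 : img (V ⊓ pre (pr Y) W) ≤ W := (img_mono inf_le_right).trans (img_pre_le W)
  refine ⟨V ⊓ pre (pr Y) W, inf_le_left, ⟨hz, hzW⟩, ?_⟩
  have h2 := A.res_bd h1 hb
  rw [PS.res_res] at h2
  exact (A.comap_bd img img_mono n _).symm ▸ h2

theorem AX.cyl (hI : AX U I one) :
    AX (fun k => pre (pr Y) (U k)) I.cyl ((I.beta.f 0).app (U 0) one) := by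
  have key : ∀ (W : Opens (Y × unitInterval)) (h : W ≤ pre (pr Y) (U 0)),
      (I.cyl.X 0).res h ((I.beta.f 0).app (U 0) one) = (I.pull.aug.f 0).app W
        ((I.X 0).res ((img_mono h).trans (img_pre_le (U 0))) one) := fun W h =>
    ((I.pull.aug.f 0).nat h _).trans (congrArg _ ((I.X 0).res_res _ _ one))
  refine ⟨cinj_G _, I.beta.map_cocycle hI.closed, fun V h hV h0 => ?_,
    fun x V h hx c hc => ?_,
    fun k x hx n hn => (aug_qis I.pull x).exAt (pull_exAt (hI.supp k x.1 hx n hn)),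
    fun k x hx n hn => ?_⟩
  · obtain ⟨z, hz⟩ : ∃ z, z ∈ V := by
      by_contra hc
      exact hV (eq_bot_iff.2 fun z hz => (hc ⟨z, hz⟩).elim)
    have h1 := congrFun ((key V h).symm.trans h0) ⟨z, hz⟩
    obtain ⟨W, hW, hzW, h2⟩ := ((I.pull.X 0).germ_eq_zero hz _).1 h1
    refine hI.ne (img W) ((img_mono (hW.trans h)).trans (img_pre_le (U 0))) (fun hb => ?_)
      (((I.X 0).res_res _ _ one).symm.trans h2)
    have h3 : z.1 ∈ img W := mem_img.2 ⟨z.2, hzW⟩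
    rw [hb] at h3
    exact h3
  · obtain ⟨W, hW, a, hxW, ha, hb⟩ := (aug_qis I.pull x).surj 0 V hx c hc
    have hb' : (I.pull.aug.f 0).app W a = (I.cyl.X 0).res hW c := sub_eq_zero.1 hb
    have h0 : img W ≤ U 0 := (img_mono (hW.trans h)).trans (img_pre_le (U 0))
    obtain ⟨W1, hW1, α, hx1, e⟩ := hI.gen x.1 (img W) h0 (mem_img.2 ⟨x.2, hxW⟩) a ha
    have h1 : img (W ⊓ pre (pr Y) W1) ≤ W1 := (img_mono inf_le_right).trans (img_pre_le W1)
    refine ⟨W ⊓ pre (pr Y) W1, inf_le_left.trans hW, α, ⟨hxW, hx1⟩, ?_⟩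
    have e1 := congrArg ((I.X 0).res h1) e
    rw [map_smul, PS.res_res, PS.res_res] at e1
    have e2 : (I.cyl.X 0).res (inf_le_left.trans hW : W ⊓ pre (pr Y) W1 ≤ V) c =
        (I.pull.aug.f 0).app (W ⊓ pre (pr Y) W1) ((I.pull.X 0).res inf_le_left a) := by
      rw [← (I.cyl.X 0).res_res hW inf_le_left, ← hb']
      exact (I.pull.aug.f 0).nat inf_le_left a
    rw [e2, key]
    exact (congrArg ((I.pull.aug.f 0).app (W ⊓ pre (pr Y) W1)) e1).trans (map_smul _ _ _)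
  · obtain ⟨v, hv⟩ := heq_beta hI.inj
    exact cyl_cosupp I (U k) x.1 x.2 n
      ((hI.of_heq hv ((cinj_G _).push _)).cosupp k x.1 hx n hn)

theorem rsl_beta (A : Cx Y) (t : unitInterval) (n : ℕ) (V : Opens Y)
    (h : pre (slice Y t) (pre (pr Y) V) ≤ V) (s : (A.X n).obj V) :
    ((A.rsl t).f n).app (pre (pr Y) V) ((A.beta.f n).app V s) =
      (A.G.X n).res h ((A.aug.f n).app V s) :=
  (Gmap_aug (slice Y t) (A.toSlice t) n (pre (pr Y) V) ((A.X n).res (img_pre_le V) s)).trans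
    ((congrArg _ ((A.X n).res_res _ _ s)).trans ((A.aug.f n).nat h s).symm)

/-- all slices induce the same map on global cohomology -/
theorem rsl_indep (hI : CInj Set.univ I) (t t' : unitInterval) (n : ℕ)
    (ζ : (I.cyl.X n).obj ⊤) (hζ : (I.cyl.d n).app ⊤ ζ = 0) :
    (show (I.G.X n).obj ⊤ from ((I.rsl t).f n).app ⊤ ζ) -
      (show (I.G.X n).obj ⊤ from ((I.rsl t').f n).app ⊤ ζ) ∈ I.G.Bd n ⊤ := by
  obtain ⟨v, hv⟩ := heq_beta hI
  obtain ⟨a, -, hb⟩ := hv.surj_bd (n := n) (V := ⊤) ζ hζ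
  have hb' : (show (I.cyl.X n).obj ⊤ from (I.beta.f n).app ⊤ a) - ζ ∈ I.cyl.Bd n ⊤ :=
    (I.cyl.comap_bd (pre (pr Y)) (pre_mono _) n ⊤) ▸ hb
  have key : ∀ r : unitInterval, (I.aug.f n).app ⊤ a -
      (show (I.G.X n).obj ⊤ from ((I.rsl r).f n).app ⊤ ζ) ∈ I.G.Bd n ⊤ := by
    intro r
    have h1 := (I.rsl r).map_bd hb'
    rw [map_sub] at h1
    have h2 : ((I.rsl r).f n).app ⊤ ((I.beta.f n).app ⊤ a) = (I.aug.f n).app ⊤ a :=
      (rsl_beta I r n ⊤ le_top a).trans ((I.G.X n).res_self ⊤ _ _)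
    have h3 : (show (I.G.X n).obj ⊤ from ((I.rsl r).f n).app ⊤ ((I.beta.f n).app ⊤ a)) -
        (show (I.G.X n).obj ⊤ from ((I.rsl r).f n).app ⊤ ζ) ∈ I.G.Bd n ⊤ :=
      (I.G.comap_bd (pre (slice Y r)) (pre_mono _) n ⊤) ▸ h1
    exact h2 ▸ h3
  have h4 := Submodule.sub_mem _ (key t') (key t)
  rwa [sub_sub_sub_cancel_left] at h4

end Pool.Agent.PW.S
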