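import Mathlib

/-! Elementary presheaves of complex vector spaces, complexes, local notions. -/

open TopologicalSpace

set_option backward.isDefEq.respectTransparency false

noncomputable section
namespace Pool.Agent.PW.S

variable {Y Z Z' : Type} [TopologicalSpace Y] [TopologicalSpace Z] [TopologicalSpace Z']

variable (Y) in
/-- presheaves of complex vector spaces -/
structure PS : Type 1 where
  obj : Opens Y → Type
  acg : ∀ V, AddCommGroup (obj V)
  mod : ∀ V, Module ℂ (obj V)
  res : ∀ {V W : Opens Y}, W ≤ V → obj V →ₗ[ℂ] obj W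
  res_self : ∀ (V : Opens Y) (h : V ≤ V) (s : obj V), res h s = s
  res_res : ∀ {V W W' : Opens Y} (h : W ≤ V) (h' : W' ≤ W) (s : obj V),
    res h' (res h s) = res (h'.trans h) s

attribute [instance] PS.acg PS.mod
attribute [simp] PS.res_self PS.res_res

/-- morphisms of presheaves -/
@[ext] structure Mor (F F' : PS Y) where
  app : ∀ V, F.obj V →ₗ[ℂ] F'.obj V
  nat : ∀ {V W : Opens Y} (h : W ≤ V) (s : F.obj V), F'.res h (app V s) = app W (F.res h s)

namespace Mor
variable {F F' F'' : PS Y}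

/-- identity -/
protected def id (F : PS Y) : Mor F F := ⟨fun _ => LinearMap.id, fun _ _ => rfl⟩

/-- composition `g ∘ f` -/
def comp (g : Mor F' F'') (f : Mor F F') : Mor F F'' :=
  ⟨fun V => (g.app V).comp (f.app V), fun h s => by simp [g.nat, f.nat]⟩

instance : Zero (Mor F F') := ⟨⟨fun _ => 0, fun _ _ => by simp⟩⟩
instance : Add (Mor F F') :=
  ⟨fun f g => ⟨fun V => f.app V + g.app V, fun h s => by simp [f.nat, g.nat]⟩⟩
instance : Sub (Mor F F') :=
  ⟨fun f g => ⟨fun V => f.app V - g.app V, fun h s => by simp [f.nat, g.nat]⟩⟩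
instance : Neg (Mor F F') := ⟨fun f => ⟨fun V => -f.app V, fun h s => by simp [f.nat]⟩⟩
instance : SMul ℂ (Mor F F') := ⟨fun c f => ⟨fun V => c • f.app V, fun h s => by simp [f.nat]⟩⟩

@[simp] theorem id_app (V) (s : F.obj V) : (Mor.id F).app V s = s := rfl
@[simp] theorem comp_app (g : Mor F' F'') (f : Mor F F') (V) (s : F.obj V) :
    (g.comp f).app V s = g.app V (f.app V s) := rfl
@[simp] theorem zero_app (V) (s : F.obj V) : (0 : Mor F F').app V s = 0 := rfl
@[simp] theorem add_app (f g : Mor F F') (V) (s : F.obj V) :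
    (f + g).app V s = f.app V s + g.app V s := rfl
@[simp] theorem sub_app (f g : Mor F F') (V) (s : F.obj V) :
    (f - g).app V s = f.app V s - g.app V s := rfl
@[simp] theorem neg_app (f : Mor F F') (V) (s : F.obj V) : (-f).app V s = -f.app V s := rfl
@[simp] theorem smul_app (c : ℂ) (f : Mor F F') (V) (s : F.obj V) :
    (c • f).app V s = c • f.app V s := rfl

end Mor

/-- sub-presheaf -/
def PS.sub (F : PS Y) (S : ∀ V, Submodule ℂ (F.obj V))
    (hS : ∀ {V W : Opens Y} (h : W ≤ V) (s : F.obj V), s ∈ S V → F.res h s ∈ S W) : PS Y where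
  obj V := S V
  acg _ := inferInstance
  mod _ := inferInstance
  res h := (F.res h).restrict (hS h)
  res_self V h s := Subtype.ext (F.res_self V h s.1)
  res_res h h' s := Subtype.ext (F.res_res h h' s.1)

/-- product of two presheaves -/
def PS.prod (F F' : PS Y) : PS Y where
  obj V := F.obj V × F'.obj V
  acg _ := inferInstance
  mod _ := inferInstance
  res h := (F.res h).prodMap (F'.res h)
  res_self V h s := Prod.ext (F.res_self V h s.1) (F'.res_self V h s.2)
  res_res h h' s := Prod.ext (F.res_res h h' s.1) (F'.res_res h h' s.2)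

/-- precomposition with a monotone map of opens -/
def PS.comap (F : PS Y) (φ : Opens Z → Opens Y) (hφ : Monotone φ) : PS Z where
  obj V := F.obj (φ V)
  acg _ := inferInstance
  mod _ := inferInstance
  res h := F.res (hφ h)
  res_self _ _ s := F.res_self _ _ s
  res_res _ _ s := F.res_res _ _ s

/-- the constant presheaf `ℂ` -/
def PS.const : PS Y where
  obj _ := ℂ
  acg _ := inferInstance
  mod _ := inferInstance
  res _ := LinearMap.id
  res_self _ _ _ := rfl
  res_res _ _ _ := rfl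

/-- extension by zero of `F` restricted to `O`, as a sub-presheaf of `F` -/
def PS.ext0 (F : PS Y) (O : Opens Y) : PS Y :=
  F.sub (fun V => { carrier := {s | V ≤ O ∨ s = 0}
                    add_mem' := by
                      rintro a b (h | rfl) hb
                      · exact Or.inl h
                      · simpa using hb
                    zero_mem' := Or.inr rfl
                    smul_mem' := by
                      rintro c a (h | rfl)
                      · exact Or.inl h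
                      · exact Or.inr (smul_zero c) })
    (by
      rintro V W h s (hs | rfl)
      · exact Or.inl (h.trans hs)
      · exact Or.inr (map_zero _))

/-- a morphism on the presheaves precomposed with a monotone map -/
def Mor.comap {F F' : PS Y} (u : Mor F F') (φ : Opens Z → Opens Y) (hφ : Monotone φ) :
    Mor (F.comap φ hφ) (F'.comap φ hφ) :=
  ⟨fun V => u.app (φ V), fun h s => u.nat (hφ h) s⟩

variable (Y) in
/-- complexes in nonnegative degrees -/
structure Cx : Type 1 where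
  X : ℕ → PS Y
  d : ∀ n, Mor (X n) (X (n + 1))
  dd : ∀ n V s, (d (n + 1)).app V ((d n).app V s) = 0

attribute [simp] Cx.dd

/-- chain maps -/
@[ext] structure CMap (A B : Cx Y) where
  f : ∀ n, Mor (A.X n) (B.X n)
  comm : ∀ n V s, (B.d n).app V ((f n).app V s) = (f (n + 1)).app V ((A.d n).app V s)

namespace CMap
variable {A B C : Cx Y}

/-- identity -/
protected def id (A : Cx Y) : CMap A A := ⟨fun _ => Mor.id _, fun _ _ _ => rfl⟩

/-- composition `v ∘ u` -/
def comp (v : CMap B C) (u : CMap A B) : CMap A C :=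
  ⟨fun n => (v.f n).comp (u.f n), fun n V s => by simp [v.comm, u.comm]⟩

instance : Sub (CMap A B) :=
  ⟨fun u v => ⟨fun n => u.f n - v.f n, fun n V s => by simp [u.comm, v.comm]⟩⟩
instance : Add (CMap A B) :=
  ⟨fun u v => ⟨fun n => u.f n + v.f n, fun n V s => by simp [u.comm, v.comm]⟩⟩
instance : SMul ℂ (CMap A B) :=
  ⟨fun c u => ⟨fun n => c • u.f n, fun n V s => by simp [u.comm]⟩⟩

@[simp] theorem id_app (n V) (s : (A.X n).obj V) : ((CMap.id A).f n).app V s = s := rfl
@[simp] theorem comp_app (v : CMap B C) (u : CMap A B) (n V) (s : (A.X n).obj V) :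
    ((v.comp u).f n).app V s = (v.f n).app V ((u.f n).app V s) := rfl
@[simp] theorem sub_app (u v : CMap A B) (n V) (s : (A.X n).obj V) :
    ((u - v).f n).app V s = (u.f n).app V s - (v.f n).app V s := rfl
@[simp] theorem add_app (u v : CMap A B) (n V) (s : (A.X n).obj V) :
    ((u + v).f n).app V s = (u.f n).app V s + (v.f n).app V s := rfl
@[simp] theorem smul_app (c : ℂ) (u : CMap A B) (n V) (s : (A.X n).obj V) :
    ((c • u).f n).app V s = c • (u.f n).app V s := rfl

/-- null-homotopic -/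
def Null (u : CMap A B) : Prop :=
  ∃ k : ∀ n, Mor (A.X (n + 1)) (B.X n),
    (∀ V s, (u.f 0).app V s = (k 0).app V ((A.d 0).app V s)) ∧
    ∀ n V s, (u.f (n + 1)).app V s =
      (B.d n).app V ((k n).app V s) + (k (n + 1)).app V ((A.d (n + 1)).app V s)

end CMap

/-- boundaries -/
def Cx.Bd (A : Cx Y) : ∀ (n : ℕ) (V : Opens Y), Submodule ℂ ((A.X n).obj V)
  | 0, _ => ⊥
  | n + 1, V => LinearMap.range ((A.d n).app V)

/-- subcomplex -/
def Cx.sub (A : Cx Y) (S : ∀ n V, Submodule ℂ ((A.X n).obj V))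
    (hS : ∀ n {V W : Opens Y} (h : W ≤ V) s, s ∈ S n V → (A.X n).res h s ∈ S n W)
    (hd : ∀ n V s, s ∈ S n V → (A.d n).app V s ∈ S (n + 1) V) : Cx Y where
  X n := (A.X n).sub (S n) (hS n)
  d n := ⟨fun V => ((A.d n).app V).restrict (hd n V), fun h s => Subtype.ext ((A.d n).nat h s.1)⟩
  dd n V s := Subtype.ext (A.dd n V s.1)

/-- the inclusion of a subcomplex -/
def Cx.subι (A : Cx Y) (S : ∀ n V, Submodule ℂ ((A.X n).obj V)) (hS hd) :
    CMap (A.sub S hS hd) A :=
  ⟨fun n => ⟨fun V => (S n V).subtype, fun _ _ => rfl⟩, fun _ _ _ => rfl⟩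

/-- precomposition with a monotone map of opens -/
def Cx.comap (A : Cx Y) (φ : Opens Z → Opens Y) (hφ : Monotone φ) : Cx Z where
  X n := (A.X n).comap φ hφ
  d n := (A.d n).comap φ hφ
  dd n V s := A.dd n (φ V) s

/-- a chain map on the complexes precomposed with a monotone map -/
def CMap.comap {A B : Cx Y} (u : CMap A B) (φ : Opens Z → Opens Y) (hφ : Monotone φ) :
    CMap (A.comap φ hφ) (B.comap φ hφ) :=
  ⟨fun n => (u.f n).comap φ hφ, fun n V s => u.comm n (φ V) s⟩

/-- the chain map given by restriction along `ψ ≤ φ` -/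
def Cx.resMap (A : Cx Y) {φ ψ : Opens Z → Opens Y} (hφ : Monotone φ) (hψ : Monotone ψ)
    (h : ∀ V, ψ V ≤ φ V) : CMap (A.comap φ hφ) (A.comap ψ hψ) :=
  ⟨fun n => ⟨fun V => (A.X n).res (h V), fun _ s =>
      ((A.X n).res_res _ _ s).trans ((A.X n).res_res _ _ s).symm⟩,
    fun n V s => ((A.d n).nat (h V) s).symm⟩

/-- preimage of an open set -/
def pre (f : C(Y, Z)) (V : Opens Z) : Opens Y := ⟨f ⁻¹' V, V.2.preimage f.2⟩

@[simp] theorem mem_pre (f : C(Y, Z)) (V : Opens Z) (y : Y) : y ∈ pre f V ↔ f y ∈ V := Iff.rfl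

theorem pre_mono (f : C(Y, Z)) : Monotone (pre f) := fun _ _ h _ hy => h hy

theorem inf_mono (O : Opens Y) : Monotone fun V : Opens Y => V ⊓ O :=
  fun _ _ h => inf_le_inf_right O h

/-- direct image -/
abbrev PS.push (f : C(Y, Z)) (F : PS Y) : PS Z := F.comap (pre f) (pre_mono f)
/-- direct image -/
abbrev Cx.push (f : C(Y, Z)) (A : Cx Y) : Cx Z := A.comap (pre f) (pre_mono f)
/-- direct image -/
abbrev CMap.push (f : C(Y, Z)) {A B : Cx Y} (u : CMap A B) : CMap (A.push f) (B.push f) :=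
  u.comap (pre f) (pre_mono f)
/-- `j_* j^*` for the inclusion of `O` -/
abbrev PS.loc (O : Opens Y) (F : PS Y) : PS Y := F.comap (· ⊓ O) (inf_mono O)
/-- `j_* j^*` for the inclusion of `O` -/
abbrev Cx.loc (O : Opens Y) (A : Cx Y) : Cx Y := A.comap (· ⊓ O) (inf_mono O)

/-- the unit `A → j_* j^* A` -/
def Cx.toLoc (O : Opens Y) (A : Cx Y) : CMap A (A.loc O) :=
  A.resMap (φ := id) monotone_id (inf_mono O) fun _ => inf_le_left

/-- sections vanishing on `O` -/
def PS.gam (O : Opens Y) (F : PS Y) : PS Y :=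
  F.sub (fun V => LinearMap.ker (F.res (inf_le_left : V ⊓ O ≤ V))) fun h s hs => by
    rw [LinearMap.mem_ker] at hs ⊢
    rw [F.res_res, ← F.res_res inf_le_left (inf_le_inf_right O h), hs, map_zero]

/-- sections vanishing on `O` -/
def Cx.gam (O : Opens Y) (A : Cx Y) : Cx Y :=
  A.sub (fun n V => LinearMap.ker ((A.X n).res (inf_le_left : V ⊓ O ≤ V)))
    (fun n _ _ h s hs => by
      rw [LinearMap.mem_ker] at hs ⊢
      rw [(A.X n).res_res, ← (A.X n).res_res inf_le_left (inf_le_inf_right O h), hs, map_zero])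
    fun n V s hs => by
      rw [LinearMap.mem_ker] at hs ⊢
      rw [(A.d n).nat, hs, map_zero]

theorem Cx.gam_X (O : Opens Y) (A : Cx Y) (n : ℕ) : (A.gam O).X n = (A.X n).gam O := rfl

/-- the submodules of the truncation -/
def Cx.tauS (a : ℕ) (A : Cx Y) (n : ℕ) (V : Opens Y) : Submodule ℂ ((A.X n).obj V) where
  carrier := {s | (a ≤ n → (A.d n).app V s = 0) ∧ (a < n → s = 0)}
  add_mem' hs ht := ⟨fun h => by rw [map_add, hs.1 h, ht.1 h, add_zero],
    fun h => by rw [hs.2 h, ht.2 h, add_zero]⟩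
  zero_mem' := ⟨fun _ => map_zero _, fun _ => rfl⟩
  smul_mem' c _ hs := ⟨fun h => by rw [map_smul, hs.1 h, smul_zero],
    fun h => by rw [hs.2 h, smul_zero]⟩

/-- the truncation `τ_{≤ a}` -/
def Cx.tau (a : ℕ) (A : Cx Y) : Cx Y :=
  A.sub (A.tauS a)
    (fun n _ _ h s hs => ⟨fun ha => by rw [← (A.d n).nat, hs.1 ha, map_zero],
      fun ha => by rw [hs.2 ha, map_zero]⟩)
    fun n V s hs => ⟨fun _ => A.dd n V s, fun ha => hs.1 (Nat.lt_succ_iff.1 ha)⟩

/-- the inclusion of the truncation -/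
def Cx.tauι (a : ℕ) (A : Cx Y) : CMap (A.tau a) A := A.subι _ _ _

/-- `s` vanishes near `x` -/
def PS.LocZero (F : PS Y) (x : Y) {V : Opens Y} (s : F.obj V) : Prop :=
  ∃ (W : Opens Y) (h : W ≤ V), x ∈ W ∧ F.res h s = 0

/-- the extension property of injective sheaves, tested at the points of `O` -/
def Inj (O : Set Y) (I : PS Y) : Prop :=
  ∀ (A B : PS Y) (f : Mor A B) (g : Mor A I),
    (∀ x ∈ O, ∀ V : Opens Y, x ∈ V → ∀ a : A.obj V,
      B.LocZero x (f.app V a) → I.LocZero x (g.app V a)) →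
    ∃ h : Mor B I, ∀ V a, h.app V (f.app V a) = g.app V a

/-- all terms have the extension property -/
def CInj (O : Set Y) (I : Cx Y) : Prop := ∀ n, Inj O (I.X n)

/-- `s` is a boundary near `x` -/
def Cx.LocBd (A : Cx Y) (x : Y) {n : ℕ} {V : Opens Y} (s : (A.X n).obj V) : Prop :=
  ∃ (W : Opens Y) (h : W ≤ V), x ∈ W ∧ (A.X n).res h s ∈ A.Bd n W

/-- the stalk complex at `x` is exact in degree `n` -/
def Cx.ExAt (A : Cx Y) (x : Y) (n : ℕ) : Prop :=
  ∀ V : Opens Y, x ∈ V → ∀ c : (A.X n).obj V, (A.d n).app V c = 0 → A.LocBd x c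

/-- quasi-isomorphism on the stalks at `x` -/
structure CMap.Qis {A B : Cx Y} (u : CMap A B) (x : Y) : Prop where
  surj : ∀ (n : ℕ) (V : Opens Y), x ∈ V → ∀ z : (B.X n).obj V, (B.d n).app V z = 0 →
    ∃ (W : Opens Y) (h : W ≤ V) (a : (A.X n).obj W), x ∈ W ∧ (A.d n).app W a = 0 ∧
      (u.f n).app W a - (B.X n).res h z ∈ B.Bd n W
  inj : ∀ (n : ℕ) (V : Opens Y), x ∈ V → ∀ a : (A.X n).obj V, (A.d n).app V a = 0 →
    B.LocBd x ((u.f n).app V a) → A.LocBd x a

/-- the axioms of Goresky and MacPherson -/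
structure AX (U : ℕ → Opens Y) (I : Cx Y) (one : (I.X 0).obj (U 0)) : Prop where
  inj : CInj Set.univ I
  closed : (I.d 0).app _ one = 0
  ne : ∀ (V : Opens Y) (h : V ≤ U 0), V ≠ ⊥ → (I.X 0).res h one ≠ 0
  gen : ∀ (x : Y) (V : Opens Y) (h : V ≤ U 0), x ∈ V → ∀ c : (I.X 0).obj V,
    (I.d 0).app V c = 0 →
      ∃ (W : Opens Y) (hW : W ≤ V) (a : ℂ), x ∈ W ∧
        (I.X 0).res hW c = a • (I.X 0).res (hW.trans h) one
  supp : ∀ k, ∀ x ∈ U (k + 1), ∀ n, k / 2 < n → I.ExAt x n
  cosupp : ∀ k, ∀ x ∈ U (k + 1), ∀ n, n ≤ k / 2 + 1 → (I.gam (U k)).ExAt x n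

example (f : C(Y, Z)) (g : C(Z, Z')) (A : Cx Y) : (A.push f).push g = A.push (g.comp f) := rfl
example (A : Cx Y) : A.push (ContinuousMap.id Y) = A := rfl
example (f : C(Y, Z)) : pre f ⊤ = ⊤ := rfl

end Pool.Agent.PW.S
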