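import Pool.Agent.P.MP_65ad7c_ag.SDefs
import Pool.Agent.P.MP_65ad7c_ag.SBase

/-! From the presheaves of Mathlib to elementary presheaves: definitions. -/

open CategoryTheory TopologicalSpace Opposite Pool.Agent.HT

set_option backward.isDefEq.respectTransparency false

noncomputable section
namespace Pool.Agent.PW.S

variable {Y : Type} [TopologicalSpace Y]

/-- the elementary presheaf of a presheaf -/
def toPS (F : TopCat.Presheaf (ModuleCat.{0} ℂ) (TopCat.of Y)) : PS Y where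
  obj V := F.obj (op V)
  acg _ := inferInstance
  mod _ := inferInstance
  res h := rs F h
  res_self V h s := by
    show (F.map (𝟙 (op V))).hom s = s
    rw [F.map_id]
    rfl
  res_res {V W W'} h h' s := by
    show (F.map (homOfLE h).op ≫ F.map (homOfLE h').op).hom s = _
    rw [← F.map_comp]
    rfl

/-- the elementary morphism of a morphism -/
def toMor {F F' : TopCat.Presheaf (ModuleCat.{0} ℂ) (TopCat.of Y)} (f : F ⟶ F') :
    Mor (toPS F) (toPS F') where
  app V := (f.app (op V)).hom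
  nat h s := by
    show (f.app _ ≫ F'.map (homOfLE h).op).hom s = (F.map (homOfLE h).op ≫ f.app _).hom s
    rw [f.naturality]

/-- the elementary complex of a complex -/
def toCx (I : PCx Y) : Cx Y where
  X n := toPS (I.X n)
  d n := toMor (I.d n (n + 1))
  dd n V s := by
    show ((I.d n (n + 1) ≫ I.d (n + 1) (n + 1 + 1)).app (op V)).hom s = 0
    rw [I.d_comp_d]
    rfl

/-- the elementary chain map of a chain map -/
def toCMap {I J : PCx Y} (f : I ⟶ J) : CMap (toCx I) (toCx J) where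
  f n := toMor (f.f n)
  comm n V s := by
    show ((f.f n ≫ J.d n (n + 1)).app (op V)).hom s = ((I.d n (n + 1) ≫ f.f (n + 1)).app _).hom s
    rw [f.comm]

theorem toCx_d (I : PCx Y) (n : ℕ) (V : Opens Y) (s : (I.X n).obj (op V)) :
    ((toCx I).d n).app V s = dv I n (n + 1) V s := rfl

theorem toCMap_app {I J : PCx Y} (f : I ⟶ J) (n : ℕ) (V : Opens Y) (s : (I.X n).obj (op V)) :
    ((toCMap f).f n).app V s = ((f.f n).app (op V)).hom s := rfl

section dual
variable {t : ℕ} {E : ℕ → Type} [∀ q, AddCommGroup (E q)] [∀ q, Module ℂ (E q)]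
  {δ : ∀ q, E q →ₗ[ℂ] E (q + 1)} {A : Opens Y → ∀ q, Submodule ℂ (E q)}
  {hA : ∀ V W, W ≤ V → ∀ q, A W q ≤ A V q} {hδ : ∀ V q, ∀ α ∈ A V q, δ q α ∈ A V (q + 1)}
  {hδδ : ∀ q α, δ (q + 1) (δ q α) = 0}

theorem dualCx_d (j : ℕ) : (dualCx t δ A hA hδ hδδ).d j (j + 1) = dualD t δ A hA hδ j :=
  CochainComplex.of_d _ _ j

theorem dualCx_dv (j : ℕ) (V : Opens Y) (lam : ((dualCx t δ A hA hδ hδδ).X j).obj (op V))
    (q : {q // q + (j + 1) = t}) (α : A V q.1) :
    dv (dualCx t δ A hA hδ hδδ) j (j + 1) V lam q α =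
      lam ⟨q.1 + 1, by have := q.2; omega⟩ ⟨δ q.1 α.1, hδ V q.1 α.1 α.2⟩ := by
  show (((dualCx t δ A hA hδ hδδ).d j (j + 1)).app (op V)).hom lam q α = _
  rw [dualCx_d]
  rfl

theorem dualCx_rs (j : ℕ) {V W : Opens Y} (h : W ≤ V)
    (lam : ((dualCx t δ A hA hδ hδδ).X j).obj (op V)) (q : {q // q + j = t}) (α : A W q.1) :
    rs ((dualCx t δ A hA hδ hδδ).X j) h lam q α = lam q ⟨α.1, hA V W h q.1 α.2⟩ := rfl

/-- the transpose of a chain map `L` that sends `A (s⁻¹ V)` to `A V` -/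
def dualMapC (s : C(Y, Y)) (L : ∀ q, E q →ₗ[ℂ] E q)
    (hL : ∀ V q, ∀ α ∈ A (pre s V) q, L q α ∈ A V q) (hLd : ∀ q α, δ q (L q α) = L (q + 1) (δ q α)) :
    CMap (toCx (dualCx t δ A hA hδ hδδ)) ((toCx (dualCx t δ A hA hδ hδδ)).push s) where
  f j :=
    { app := fun V =>
        { toFun := fun lam q => (lam q).comp ((L q.1).restrict (hL V q.1))
          map_add' := fun _ _ => funext fun _ => LinearMap.add_comp _ _ _
          map_smul' := fun _ _ => funext fun _ => LinearMap.smul_comp _ _ _ }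
      nat := fun _ lam => funext fun q => LinearMap.ext fun _ =>
        congrArg (lam q) (Subtype.ext rfl) }
  comm j V lam := funext fun q => LinearMap.ext fun α =>
    (dualCx_dv j (pre s V) _ q α).trans
      ((congrArg (lam ⟨q.1 + 1, by have := q.2; omega⟩) (Subtype.ext (hLd q.1 α.1).symm)).trans
        (dualCx_dv j V lam q ⟨L q.1 α.1, hL V q.1 α.1 α.2⟩).symm)

theorem dualMapC_app (s : C(Y, Y)) (L : ∀ q, E q →ₗ[ℂ] E q)
    (hL : ∀ V q, ∀ α ∈ A (pre s V) q, L q α ∈ A V q) (hLd : ∀ q α, δ q (L q α) = L (q + 1) (δ q α))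
    (j : ℕ) (V : Opens Y) (lam : ((dualCx t δ A hA hδ hδδ).X j).obj (op V)) (q : {q // q + j = t})
    (α : A (pre s V) q.1) :
    ((dualMapC (hA := hA) (hδ := hδ) (hδδ := hδδ) s L hL hLd).f j).app V lam q α =
      lam q ⟨L q.1 α.1, hL V q.1 α.1 α.2⟩ := rfl

end dual

end Pool.Agent.PW.S
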