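import Pool.Agent.P.MP_65ad7c_ag.SInj
import Pool.Agent.P.MP_65ad7c_ag.SNull
import Pool.Agent.P.MP_65ad7c_ag.SGod

/-! Extension of chain maps along local quasi-isomorphisms. -/

open TopologicalSpace

set_option backward.isDefEq.respectTransparency false

noncomputable section
namespace Pool.Agent.PW.S

variable {Y Z Z' : Type} [TopologicalSpace Y] [TopologicalSpace Z] [TopologicalSpace Z']

variable {A B I : Cx Y}

/-- terms of the shifted mapping cone -/
def coneX (A B : Cx Y) : ℕ → PS Y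
  | 0 => A.X 0
  | n + 1 => (A.X (n + 1)).prod (B.X n)

/-- differential of the shifted mapping cone: `d (a, b) = (d a, u a - d b)` -/
def coneD (u : CMap A B) : ∀ n, Mor (coneX A B n) (coneX A B (n + 1))
  | 0 => (A.d 0).pair (u.f 0)
  | n + 1 => ((A.d (n + 1)).comp (Mor.fst _ _)).pair
      ((u.f (n + 1)).comp (Mor.fst _ _) - (B.d n).comp (Mor.snd _ _))

theorem coneD_D (u : CMap A B) : ∀ n V s, (coneD u (n + 1)).app V ((coneD u n).app V s) = 0 := by
  rintro (_ | n) V s
  · refine Prod.ext (A.dd 0 V s) ?_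
    show (u.f 1).app V ((A.d 0).app V s) - (B.d 0).app V ((u.f 0).app V s) = 0
    rw [u.comm, sub_self]
  · refine Prod.ext (A.dd (n + 1) V s.1) ?_
    show (u.f (n + 1 + 1)).app V ((A.d (n + 1)).app V s.1) -
      (B.d (n + 1)).app V ((u.f (n + 1)).app V s.1 - (B.d n).app V s.2) = 0
    rw [map_sub, B.dd, u.comm, sub_zero, sub_self]

/-- the shifted mapping cone -/
def cone (u : CMap A B) : Cx Y := ⟨coneX A B, coneD u, coneD_D u⟩

theorem scone_lift (u : CMap A B) (m : ℕ) (V : Opens Y) (a : (A.X m).obj V) (w : (B.X m).obj V)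
    (hw : w ∈ B.Bd m V) : ∃ l : (coneX A B m).obj V,
      (coneD u m).app V l = ((A.d m).app V a, (u.f m).app V a - w) := by
  cases m with
  | zero =>
    have h : w = 0 := hw
    exact ⟨a, by rw [h, sub_zero]; rfl⟩
  | succ m =>
    obtain ⟨e, rfl⟩ := hw
    exact ⟨(a, e), rfl⟩

theorem cone_exAt (u : CMap A B) {x : Y} (hu : u.Qis x) (n : ℕ) : (cone u).ExAt x n := by
  intro V hx c hc
  cases n with
  | zero =>
    have h1 : (A.d 0).app V c = 0 := congrArg Prod.fst hc
    have h2 : (u.f 0).app V c = 0 := congrArg Prod.snd hc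
    exact hu.inj 0 V hx c h1 ⟨V, le_rfl, hx, by rw [h2, map_zero]; exact zero_mem _⟩
  | succ m =>
    obtain ⟨a, b⟩ := c
    have h1 : (A.d (m + 1)).app V a = 0 := congrArg Prod.fst hc
    have h2 : (u.f (m + 1)).app V a - (B.d m).app V b = 0 := congrArg Prod.snd hc
    rw [sub_eq_zero] at h2
    obtain ⟨W, h, hW, a', ha'⟩ := hu.inj (m + 1) V hx a h1
      ⟨V, le_rfl, hx, b, by rw [PS.res_self, h2]⟩
    obtain ⟨W', h', a'', hW', d1, d2⟩ := hu.surj m W hW ((B.X m).res h b - (u.f m).app W a') (by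
      rw [map_sub, ← (B.d m).nat, ← h2, u.comm, ha', (u.f (m + 1)).nat, sub_self])
    obtain ⟨l, hl⟩ := scone_lift u m W' ((A.X m).res h' a' + a'') _ d2
    refine ⟨W', h'.trans h, hW', l, hl.trans (Prod.ext ?_ ?_)⟩
    · show (A.d m).app W' ((A.X m).res h' a' + a'') = (A.X (m + 1)).res (h'.trans h) a
      rw [map_add, d1, add_zero, ← (A.d m).nat, ha', PS.res_res]
    · show (u.f m).app W' ((A.X m).res h' a' + a'') - ((u.f m).app W' a'' -
        (B.X m).res h' ((B.X m).res h b - (u.f m).app W a')) = (B.X m).res (h'.trans h) b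
      rw [map_add, map_sub, PS.res_res, (u.f m).nat]
      abel

theorem scone_split {F F' F'' : PS Y} (ψ : Mor (F.prod F') F'') (V : Opens Y) (a : F.obj V)
    (b : F'.obj V) : ψ.app V (a, b) = (ψ.comp ((Mor.id F).pair 0)).app V a +
      (ψ.comp (Mor.pair 0 (Mor.id F'))).app V b := by
  rw [Mor.comp_app, Mor.comp_app, ← map_add]
  exact congrArg (ψ.app V) (Prod.ext (add_zero a).symm (zero_add b).symm)

/-- terms of a chain map out of the cone -/
def sconeF (p : ∀ n, Mor (A.X n) (I.X n)) (q : ∀ n, Mor (B.X n) (I.X (n + 1))) :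
    ∀ n, Mor (coneX A B n) (I.X n)
  | 0 => p 0
  | n + 1 => (p (n + 1)).comp (Mor.fst _ _) + (q n).comp (Mor.snd _ _)

theorem scone_h0 {O : Set Y} (u : CMap A B) (hu : ∀ x ∈ O, u.Qis x) (hI : CInj O I)
    (p : ∀ n, Mor (A.X n) (I.X n)) (q : ∀ n, Mor (B.X n) (I.X (n + 1)))
    (h1 : ∀ V a, (I.d 0).app V ((p 0).app V a) =
      (p 1).app V ((A.d 0).app V a) + (q 0).app V ((u.f 0).app V a))
    (h2 : ∀ n V a b, (I.d (n + 1)).app V ((p (n + 1)).app V a + (q n).app V b) =
      (p (n + 1 + 1)).app V ((A.d (n + 1)).app V a) +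
        (q (n + 1)).app V ((u.f (n + 1)).app V a - (B.d n).app V b)) :
    ∃ (k : ∀ n, Mor (A.X (n + 1)) (I.X n)) (h : ∀ n, Mor (B.X n) (I.X n)),
      (∀ V a, (p 0).app V a = (k 0).app V ((A.d 0).app V a) + (h 0).app V ((u.f 0).app V a)) ∧
      ∀ n V a b, (p (n + 1)).app V a + (q n).app V b =
        (I.d n).app V ((k n).app V a + (h n).app V b) +
          ((k (n + 1)).app V ((A.d (n + 1)).app V a) +
            (h (n + 1)).app V ((u.f (n + 1)).app V a - (B.d n).app V b)) := by
  obtain ⟨ψ, e1, e2⟩ := h0 (C := cone u) (fun x hx n => cone_exAt u (hu x hx) n) hI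
    ⟨sconeF p q, by
      rintro (_ | n) V s
      · exact h1 V s
      · exact h2 n V s.1 s.2⟩
  refine ⟨fun n => (ψ n).comp ((Mor.id (A.X (n + 1))).pair 0),
    fun n => (ψ n).comp (Mor.pair 0 (Mor.id (B.X n))), fun V a => ?_, fun n V a b => ?_⟩
  · exact (e1 V a).trans (scone_split (ψ 0) V _ _)
  · rw [← scone_split (ψ n) V a b, ← scone_split (ψ (n + 1)) V]
    exact e2 n V (a, b)

/-- H2a -/
theorem extend_qis {O : Set Y} (u : CMap A B) (hu : ∀ x ∈ O, u.Qis x) (hI : CInj O I)
    (g : CMap A I) : ∃ h : CMap B I, (h.comp u - g).Null := by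
  obtain ⟨k, h, h1, h2⟩ := scone_h0 u hu hI g.f (fun _ => 0)
    (fun V a => by rw [g.comm, Mor.zero_app, add_zero])
    (fun n V a b => by rw [Mor.zero_app, Mor.zero_app, add_zero, add_zero, g.comm])
  refine ⟨⟨h, fun n V b => ?_⟩, fun n => -k n, fun V a => ?_, fun n V a => ?_⟩
  · have e := h2 n V 0 b
    simp only [map_zero, Mor.zero_app, zero_add, add_zero, zero_sub, map_neg] at e
    exact (eq_neg_of_add_eq_zero_left e.symm).trans (neg_neg _)
  · show (h 0).app V ((u.f 0).app V a) - (g.f 0).app V a = -(k 0).app V ((A.d 0).app V a)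
    rw [h1]
    abel
  · show (h (n + 1)).app V ((u.f (n + 1)).app V a) - (g.f (n + 1)).app V a =
      (I.d n).app V (-(k n).app V a) + -(k (n + 1)).app V ((A.d (n + 1)).app V a)
    have e := h2 n V a 0
    simp only [map_zero, add_zero, sub_zero] at e
    rw [e, map_neg]
    abel

/-- the zero presheaf -/
def sconeZ : PS Y where
  obj _ := PUnit
  acg _ := inferInstance
  mod _ := inferInstance
  res _ := LinearMap.id
  res_self _ _ _ := rfl
  res_res _ _ _ := rfl

/-- terms of the shifted complex -/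
def sconeX (I : Cx Y) : ℕ → PS Y
  | 0 => sconeZ
  | n + 1 => I.X n

/-- differential of the shifted complex -/
def sconeD (I : Cx Y) : ∀ n, Mor (sconeX I n) (sconeX I (n + 1))
  | 0 => 0
  | n + 1 => -I.d n

/-- the shifted complex -/
def sconeS (I : Cx Y) : Cx Y where
  X := sconeX I
  d := sconeD I
  dd := by
    rintro (_ | n) V s
    · exact map_zero _
    · show -(I.d (n + 1)).app V (-(I.d n).app V s) = 0
      rw [map_neg, I.dd, neg_zero, neg_zero]

/-- H2b -/
theorem null_of_qis {O : Set Y} (u : CMap A B) (hu : ∀ x ∈ O, u.Qis x) (hI : CInj O I)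
    (h : CMap B I) (hn : (h.comp u).Null) : h.Null := by
  obtain ⟨k, k1, k2⟩ := hn
  obtain ⟨k', hh, -, h2⟩ := scone_h0 (I := sconeS I) u hu
    (by
      rintro (_ | n)
      · exact inj_of_zero fun _ _ => rfl
      · exact hI n)
    (fun n => match n with
      | 0 => 0
      | n + 1 => -k n) h.f
    (fun V a => by
      show (0 : (I.X 0).obj V) = -(k 0).app V ((A.d 0).app V a) + (h.f 0).app V ((u.f 0).app V a)
      rw [← k1]
      exact (neg_add_cancel _).symm)
    (fun n V a b => by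
      show -(I.d n).app V (-(k n).app V a + (h.f n).app V b) =
        -(k (n + 1)).app V ((A.d (n + 1)).app V a) +
          (h.f (n + 1)).app V ((u.f (n + 1)).app V a - (B.d n).app V b)
      have e : (h.f (n + 1)).app V ((u.f (n + 1)).app V a) = _ := k2 n V a
      rw [map_sub, e, map_add, map_neg, h.comm]
      abel)
  let κ : ∀ n, Mor (B.X (n + 1)) (I.X n) := fun n => hh (n + 1)
  let k'' : ∀ n, Mor (A.X (n + 1 + 1)) (I.X n) := fun n => k' (n + 1)
  refine ⟨fun n => -κ n, fun V b => ?_, fun n V b => ?_⟩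
  · have e : -(k 0).app V 0 + (h.f 0).app V b = 0 + ((k'' 0).app V ((A.d (0 + 1)).app V 0) +
        (κ 0).app V ((u.f (0 + 1)).app V 0 - (B.d 0).app V b)) := h2 0 V 0 b
    simpa using e
  · have e : -(k (n + 1)).app V 0 + (h.f (n + 1)).app V b =
        -(I.d n).app V ((k'' n).app V 0 + (κ n).app V b) +
          ((k'' (n + 1)).app V ((A.d (n + 1 + 1)).app V 0) +
            (κ (n + 1)).app V ((u.f (n + 1 + 1)).app V 0 - (B.d (n + 1)).app V b)) :=
      h2 (n + 1) V 0 b
    simpa using e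

/-- homotopy equivalences -/
structure HEq (u : CMap A B) (v : CMap B A) : Prop where
  left : (v.comp u - CMap.id A).Null
  right : (u.comp v - CMap.id B).Null

theorem heq_of_qis (u : CMap A B) (hu : ∀ x, u.Qis x) (hA : CInj Set.univ A)
    (hB : CInj Set.univ B) : ∃ v, HEq u v := by
  obtain ⟨v, hv⟩ := extend_qis u (fun x _ => hu x) hA (CMap.id A)
  refine ⟨v, hv, null_of_qis u (fun x _ => hu x) hB _ ((hv.comp_left u).congr fun n V s => ?_)⟩
  simp

theorem HEq.inj_bd {u : CMap A B} {v : CMap B A} (h : HEq u v) {n : ℕ} {V : Opens Y}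
    (z : (A.X n).obj V) (hz : (A.d n).app V z = 0) (hb : (u.f n).app V z ∈ B.Bd n V) :
    z ∈ A.Bd n V := by
  have h1 := sub_mem (v.map_bd hb) (h.left.bd z hz)
  simpa using h1

theorem HEq.surj_bd {u : CMap A B} {v : CMap B A} (h : HEq u v) {n : ℕ} {V : Opens Y}
    (z : (B.X n).obj V) (hz : (B.d n).app V z = 0) :
    ∃ a : (A.X n).obj V, (A.d n).app V a = 0 ∧ (u.f n).app V a - z ∈ B.Bd n V := by
  exact ⟨(v.f n).app V z, v.map_cocycle hz, h.right.bd z hz⟩

end Pool.Agent.PW.S
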