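import Pool.Agent.P.MP_65ad7c_ag.SCyl

/-! Vietoris-Begle for the projection of the cylinder. -/

open TopologicalSpace

set_option backward.isDefEq.respectTransparency false

noncomputable section
namespace Pool.Agent.PW.S

variable {Y Z Z' : Type} [TopologicalSpace Y] [TopologicalSpace Z] [TopologicalSpace Z']

/-- a local to global principle along a fibre of the cylinder -/
theorem svb_top (y : Y) (P : Opens (Y × unitInterval) → Prop)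
    (h1 : ∀ t, ∃ W : Opens (Y × unitInterval), (y, t) ∈ W ∧ P W)
    (h2 : ∀ (W₁ W₂ : Opens (Y × unitInterval)) (t : unitInterval), P W₁ → P W₂ → (y, t) ∈ W₁ →
      (y, t) ∈ W₂ → ∃ (V₃ : Opens Y) (W₃ : Opens (Y × unitInterval)), y ∈ V₃ ∧ (y, t) ∈ W₃ ∧
        ∀ U₁ U₂ : Opens (Y × unitInterval), U₁ ≤ W₁ → U₂ ≤ W₂ → U₁ ≤ pre (pr Y) V₃ →
          U₂ ≤ pre (pr Y) V₃ → U₁ ⊓ U₂ ≤ W₃ → P (U₁ ⊔ U₂)) :
    ∃ (W : Opens (Y × unitInterval)) (V : Opens Y), y ∈ V ∧ pre (pr Y) V ≤ W ∧ P W := by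
  choose W hW hP using h1
  obtain ⟨t, t0, tm, ⟨N, tN⟩, ht⟩ := exists_monotone_Icc_subset_open_cover_unitInterval
    (c := fun i => {s | (y, s) ∈ W i})
    (fun i => (W i).2.preimage (by fun_prop : Continuous fun s : unitInterval => (y, s)))
    (fun s _ => Set.mem_iUnion.2 ⟨s, hW s⟩)
  have key : ∀ k, ∃ U : Opens (Y × unitInterval), P U ∧ ∀ s ≤ t k, (y, s) ∈ U := by
    intro k
    induction k with
    | zero =>
      refine ⟨W 0, hP 0, fun s hs => ?_⟩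
      rw [t0] at hs
      rw [le_antisymm hs unitInterval.nonneg']
      exact hW 0
    | succ k ih =>
      obtain ⟨U, hU, hU'⟩ := ih
      obtain ⟨i, hi⟩ := ht k
      obtain ⟨V₃, W₃, m1, m2, h⟩ := h2 U (W i) (t k) hU (hP i) (hU' _ le_rfl)
        (hi ⟨le_rfl, tm k.le_succ⟩)
      obtain ⟨V₅, T, o1, o2, m3, m4, hb⟩ := isOpen_prod_iff.1 W₃.2 y (t k) m2
      let B₁ : Opens (Y × unitInterval) :=
        ⟨V₅ ×ˢ (Set.Iio (t k) ∪ T), o1.prod (isOpen_Iio.union o2)⟩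
      let B₂ : Opens (Y × unitInterval) :=
        ⟨V₅ ×ˢ (Set.Ioi (t k) ∪ T), o1.prod (isOpen_Ioi.union o2)⟩
      refine ⟨(U ⊓ pre (pr Y) V₃ ⊓ B₁) ⊔ (W i ⊓ pre (pr Y) V₃ ⊓ B₂), h _ _
        (inf_le_left.trans inf_le_left) (inf_le_left.trans inf_le_left)
        (inf_le_left.trans inf_le_right) (inf_le_left.trans inf_le_right) ?_, fun s hs => ?_⟩
      · rintro z ⟨⟨-, z1, z2⟩, -, -, z3⟩
        refine hb ⟨z1, ?_⟩
        rcases z2 with z2 | z2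
        · rcases z3 with z3 | z3
          · exact (lt_asymm (Set.mem_Iio.1 z2) (Set.mem_Ioi.1 z3)).elim
          · exact z3
        · exact z2
      · rcases lt_trichotomy s (t k) with hs' | hs' | hs'
        · exact Or.inl ⟨⟨hU' s hs'.le, m1⟩, m3, Or.inl hs'⟩
        · exact Or.inl ⟨⟨hU' s hs'.le, m1⟩, m3, Or.inr (hs' ▸ m4)⟩
        · exact Or.inr ⟨⟨hi ⟨hs'.le, hs⟩, m1⟩, m3, Or.inl hs'⟩
  obtain ⟨U, hU, hU'⟩ := key N
  rw [tN N le_rfl] at hU'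
  obtain ⟨u, v, o1, -, m1, m2, hb⟩ := generalized_tube_lemma (isCompact_singleton (x := y))
    (isCompact_univ (X := unitInterval)) U.2 (by
      rintro ⟨a, s⟩ ⟨ha, -⟩
      obtain rfl : a = y := ha
      exact hU' s unitInterval.le_one')
  exact ⟨U, ⟨u, o1⟩, m1 rfl, fun z hz => hb ⟨hz, m2 (Set.mem_univ _)⟩, hU⟩

theorem svb_img_le {V : Opens Y} {W : Opens (Y × unitInterval)} (h : W ≤ pre (pr Y) V) :
    img W ≤ V := (img_mono h).trans (img_pre_le V)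

theorem svb_le_pre (W : Opens (Y × unitInterval)) : W ≤ pre (pr Y) (img W) :=
  fun z hz => ⟨z, hz, rfl⟩

/-- boundaries extend to cocycles -/
theorem svb_ext {J : Cx Z} (hJ : CInj Set.univ J) {n : ℕ} {W W' : Opens Z} (h : W ≤ W')
    {x : (J.X n).obj W} (hx : x ∈ J.Bd n W) :
    ∃ x' : (J.X n).obj W', (J.d n).app W' x' = 0 ∧ (J.X n).res h x' = x := by
  cases n with
  | zero =>
    obtain rfl : x = 0 := hx
    exact ⟨0, map_zero _, map_zero _⟩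
  | succ n =>
    obtain ⟨b, rfl⟩ := hx
    obtain ⟨b', rfl⟩ := (hJ n).flabby h b
    exact ⟨_, J.dd _ _ b', (J.d n).nat h b'⟩

theorem svb_sep {I : PS Z} (hI : Inj Set.univ I) {U₁ U₂ : Opens Z} (s : I.obj (U₁ ⊔ U₂))
    (h₁ : I.res le_sup_left s = 0) (h₂ : I.res le_sup_right s = 0) : s = 0 :=
  hI.sep s fun _ _ hx => hx.elim (fun h => ⟨U₁, le_sup_left, h, h₁⟩)
    fun h => ⟨U₂, le_sup_right, h, h₂⟩

section
variable {A : Cx Y} {J : Cx (Y × unitInterval)} (ι : CMap A.pull J)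

/-- the image of a section of `A` over an open set of the cylinder -/
def svbE (n : ℕ) {V : Opens Y} {W : Opens (Y × unitInterval)} (h : W ≤ pre (pr Y) V) :
    (A.X n).obj V →ₗ[ℂ] (J.X n).obj W :=
  ((ι.f n).app W).comp ((A.X n).res (svb_img_le h))

theorem svbE_res (n : ℕ) {V : Opens Y} {W W' : Opens (Y × unitInterval)} (h : W ≤ pre (pr Y) V)
    (h' : W' ≤ W) (a : (A.X n).obj V) :
    (J.X n).res h' (svbE ι n h a) = svbE ι n (h'.trans h) a :=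
  ((ι.f n).nat h' _).trans (congrArg ((ι.f n).app W') ((A.X n).res_res _ _ a))

theorem svbE_res' (n : ℕ) {V V' : Opens Y} {W : Opens (Y × unitInterval)}
    (h : W ≤ pre (pr Y) V') (h' : V' ≤ V) (a : (A.X n).obj V) :
    svbE ι n h ((A.X n).res h' a) = svbE ι n (h.trans (pre_mono _ h')) a :=
  congrArg ((ι.f n).app W) ((A.X n).res_res _ _ a)

theorem svbE_self (n : ℕ) {W : Opens (Y × unitInterval)} (a : (A.X n).obj (img W)) :
    svbE ι n (svb_le_pre W) a = (ι.f n).app W a :=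
  congrArg ((ι.f n).app W) ((A.X n).res_self _ _ a)

theorem svbE_cocycle (n : ℕ) {V : Opens Y} {W : Opens (Y × unitInterval)} (h : W ≤ pre (pr Y) V)
    {a : (A.X n).obj V} (ha : (A.d n).app V a = 0) : (J.d n).app W (svbE ι n h a) = 0 :=
  ι.map_cocycle (A.res_cocycle (svb_img_le h) ha)

theorem svbE_bd (n : ℕ) {V : Opens Y} {W : Opens (Y × unitInterval)} (h : W ≤ pre (pr Y) V)
    {a : (A.X n).obj V} (ha : a ∈ A.Bd n V) : svbE ι n h a ∈ J.Bd n W := by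
  refine ι.map_bd ?_
  have h1 := A.res_bd (svb_img_le h) ha
  rw [← A.comap_bd img img_mono] at h1
  exact h1

/-- gluing of primitives -/
theorem svb_glue (hJ : CInj Set.univ J) {p : Y × unitInterval} (hι : ι.Qis p) (n : ℕ)
    {W₀ W₁ W₂ : Opens (Y × unitInterval)} (h₁ : W₁ ≤ W₀) (h₂ : W₂ ≤ W₀) (c : (J.X n).obj W₀)
    (c₁ : (J.X n).res h₁ c ∈ J.Bd n W₁) (c₂ : (J.X n).res h₂ c ∈ J.Bd n W₂) (p₁ : p ∈ W₁)
    (p₂ : p ∈ W₂) : ∃ W₃ : Opens (Y × unitInterval), p ∈ W₃ ∧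
      ∀ (U₁ U₂ : Opens (Y × unitInterval)) (k₁ : U₁ ≤ W₁) (k₂ : U₂ ≤ W₂),
        U₂ ≤ pre (pr Y) (img W₃) → U₁ ⊓ U₂ ≤ W₃ →
          (J.X n).res (sup_le (k₁.trans h₁) (k₂.trans h₂)) c ∈ J.Bd n (U₁ ⊔ U₂) := by
  cases n with
  | zero =>
    refine ⟨W₁, p₁, fun U₁ U₂ k₁ k₂ _ _ => svb_sep (hJ 0) _ ?_ ?_⟩
    · have e : (J.X 0).res h₁ c = 0 := c₁
      rw [(J.X 0).res_res, ← (J.X 0).res_res h₁ k₁, e, map_zero]
    · have e : (J.X 0).res h₂ c = 0 := c₂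
      rw [(J.X 0).res_res, ← (J.X 0).res_res h₂ k₂, e, map_zero]
  | succ m =>
    obtain ⟨b₁, e₁⟩ := c₁
    obtain ⟨b₂, e₂⟩ := c₂
    obtain ⟨W, hW, a, pW, ha, hb⟩ := hι.surj m (W₁ ⊓ W₂) ⟨p₁, p₂⟩
      ((J.X m).res inf_le_left b₁ - (J.X m).res inf_le_right b₂) (by
        rw [map_sub, ← (J.d m).nat, ← (J.d m).nat, e₁, e₂, PS.res_res, PS.res_res, sub_self])
    obtain ⟨x, hx, ex⟩ := svb_ext hJ (hW.trans inf_le_right) hb
    refine ⟨W, pW, fun U₁ U₂ k₁ k₂ l₂ hU => ?_⟩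
    obtain ⟨u, u₁, u₂⟩ := (hJ m).glue ((J.X m).res k₁ b₁)
      ((J.X m).res k₂ b₂ + svbE ι m l₂ a - (J.X m).res k₂ x) (by
        have e := congrArg ((J.X m).res hU) ex
        rw [← svbE_self ι m a] at e
        simp only [map_sub, map_add, PS.res_res, svbE_res] at e ⊢
        rw [e]
        abel)
    refine ⟨u, sub_eq_zero.1 (svb_sep (hJ (m + 1)) _ ?_ ?_)⟩
    · rw [map_sub, (J.d m).nat, u₁, ← (J.d m).nat, e₁, PS.res_res, PS.res_res, sub_self]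
    · rw [map_sub, (J.d m).nat, u₂, map_sub, map_add, svbE_cocycle ι m l₂ ha, ← (J.d m).nat,
        ← (J.d m).nat, hx, e₂, PS.res_res, PS.res_res, map_zero]
      abel

/-- the class of `z` over `W` comes from a neighbourhood of `y` -/
def svbP (y : Y) (n : ℕ) {V : Opens Y} (z : (J.X n).obj (pre (pr Y) V))
    (W : Opens (Y × unitInterval)) : Prop :=
  ∃ (V' : Opens Y) (hV : V' ≤ V) (hW : W ≤ pre (pr Y) V') (a : (A.X n).obj V'), y ∈ V' ∧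
    (A.d n).app V' a = 0 ∧
    svbE ι n hW a - (J.X n).res (hW.trans (pre_mono _ hV)) z ∈ J.Bd n W

theorem svbP_glue (hJ : CInj Set.univ J) {y : Y} {t : unitInterval} (hι : ι.Qis (y, t)) {n : ℕ}
    {V : Opens Y} {z : (J.X n).obj (pre (pr Y) V)} {W₁ W₂ : Opens (Y × unitInterval)}
    (h₁ : svbP ι y n z W₁) (h₂ : svbP ι y n z W₂) (p₁ : (y, t) ∈ W₁) (p₂ : (y, t) ∈ W₂) :
    ∃ (V₃ : Opens Y) (W₃ : Opens (Y × unitInterval)), y ∈ V₃ ∧ (y, t) ∈ W₃ ∧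
      ∀ U₁ U₂ : Opens (Y × unitInterval), U₁ ≤ W₁ → U₂ ≤ W₂ → U₁ ≤ pre (pr Y) V₃ →
        U₂ ≤ pre (pr Y) V₃ → U₁ ⊓ U₂ ≤ W₃ → svbP ι y n z (U₁ ⊔ U₂) := by
  obtain ⟨V₁, v₁, w₁, a₁, y₁, d₁, b₁⟩ := h₁
  obtain ⟨V₂, v₂, w₂, a₂, -, d₂, b₂⟩ := h₂
  have i₁ : img (W₁ ⊓ W₂) ≤ V₁ := svb_img_le (inf_le_left.trans w₁)
  have i₂ : img (W₁ ⊓ W₂) ≤ V₂ := svb_img_le (inf_le_right.trans w₂)
  obtain ⟨W₄, w₄, p₄, b₄⟩ := hι.inj n (W₁ ⊓ W₂) ⟨p₁, p₂⟩
    ((A.X n).res i₁ a₁ - (A.X n).res i₂ a₂) (by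
      change (A.d n).app _ _ = 0
      rw [map_sub, A.res_cocycle i₁ d₁, A.res_cocycle i₂ d₂, sub_self]) (by
      refine ⟨_, le_rfl, ⟨p₁, p₂⟩, ?_⟩
      have e := sub_mem (J.res_bd (inf_le_left (b := W₂)) b₁) (J.res_bd (inf_le_right (a := W₁)) b₂)
      simp only [map_sub, PS.res_res, svbE_res, sub_sub_sub_cancel_right] at e
      rw [PS.res_self, ← svbE_self, map_sub, svbE_res', svbE_res']
      exact e)
  have b₅ : (A.X n).res (img_mono w₄) ((A.X n).res i₁ a₁ - (A.X n).res i₂ a₂) ∈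
      A.Bd n (img W₄) := by
    rw [← A.comap_bd img img_mono]
    exact b₄
  have j₁ : img W₄ ≤ V₁ := (img_mono w₄).trans i₁
  obtain ⟨W₃, p₃, h⟩ := svb_glue ι hJ hι n (W₀ := pre (pr Y) (img W₄))
    (W₁ := W₁ ⊓ pre (pr Y) (img W₄)) (W₂ := W₂ ⊓ pre (pr Y) (img W₄)) inf_le_right inf_le_right
    (svbE ι n (pre_mono _ j₁) a₁ - (J.X n).res (pre_mono _ (j₁.trans v₁)) z) (by
      have e := J.res_bd (inf_le_left (b := pre (pr Y) (img W₄))) b₁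
      simpa only [map_sub, PS.res_res, svbE_res] using e) (by
      have e := add_mem (svbE_bd ι n (inf_le_right (a := W₂)) b₅)
        (J.res_bd (inf_le_left (b := pre (pr Y) (img W₄))) b₂)
      simpa only [map_sub, PS.res_res, svbE_res, svbE_res', sub_add_sub_cancel] using e)
    ⟨p₁, svb_le_pre W₄ p₄⟩ ⟨p₂, svb_le_pre W₄ p₄⟩
  refine ⟨img W₄ ⊓ img W₃, W₃, ⟨mem_img.2 ⟨t, p₄⟩, mem_img.2 ⟨t, p₃⟩⟩, p₃,
    fun U₁ U₂ k₁ k₂ l₁ l₂ hU => ?_⟩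
  have l₃ := l₁.trans (pre_mono _ inf_le_left)
  have l₄ := l₂.trans (pre_mono _ inf_le_left)
  refine ⟨V₁, v₁, (sup_le l₃ l₄).trans (pre_mono _ j₁), a₁, y₁, d₁, ?_⟩
  have e := h U₁ U₂ (le_inf k₁ l₃) (le_inf k₂ l₄) (l₂.trans (pre_mono _ inf_le_right)) hU
  simpa only [map_sub, PS.res_res, svbE_res] using e

end

theorem vb_gen (A : Cx Y) (J : Cx (Y × unitInterval)) (hJ : CInj Set.univ J)
    (ι : CMap A.pull J) (hι : ∀ z, ι.Qis z) (y : Y) :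
    ((ι.push (pr Y)).comp A.toPull).Qis y := by
  refine ⟨fun n V hy z hz => ?_, fun n V hy a ha h => ?_⟩
  · obtain ⟨W, V₀, y₀, hW, V', hV, hW', a, -, ha, hb⟩ := svb_top y (svbP ι y n (V := V) z)
      (fun t => by
        obtain ⟨W, hW, a, p, ha, hb⟩ := (hι (y, t)).surj n (pre (pr Y) V) hy z hz
        exact ⟨W, p, img W, svb_img_le hW, svb_le_pre W, a, mem_img.2 ⟨t, p⟩, ha, by
          rw [svbE_self]; exact hb⟩)
      fun W₁ W₂ t h₁ h₂ => svbP_glue ι hJ (hι (y, t)) h₁ h₂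
    have h0 : V₀ ≤ V' := fun x hx => hW' (hW (show (x, 0) ∈ pre (pr Y) V₀ from hx))
    refine ⟨V₀, h0.trans hV, (A.X n).res h0 a, y₀, A.res_cocycle h0 ha, ?_⟩
    rw [J.comap_bd]
    have e := J.res_bd hW hb
    rw [map_sub, svbE_res, PS.res_res, ← svbE_res' ι n le_rfl h0] at e
    exact e
  · obtain ⟨W, hW, p, hb⟩ := h
    rw [J.comap_bd] at hb
    obtain ⟨W', hW', p', hb'⟩ := (hι (y, 0)).inj n (pre (pr Y) V) hy
      ((A.X n).res (img_pre_le V) a) (A.res_cocycle (img_pre_le V) ha)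
      ⟨pre (pr Y) W, pre_mono _ hW, p, hb⟩
    refine ⟨img W', svb_img_le hW', mem_img.2 ⟨0, p'⟩, ?_⟩
    rw [← A.comap_bd img img_mono, ← (A.X n).res_res (img_pre_le V) (img_mono hW')]
    exact hb'

theorem vb_qis (A : Cx Y) (y : Y) : A.beta.Qis y :=
  vb_gen A A.cyl (cinj_G _) A.pull.aug (aug_qis _) y

end Pool.Agent.PW.S
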