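import Pool.Agent.P.MP_65ad7c_ag.SAX
import Pool.Agent.P.MP_65ad7c_ag.SVB

/-! The axioms on the cylinder: the cosupport condition. -/

open TopologicalSpace

set_option backward.isDefEq.respectTransparency false

noncomputable section
namespace Pool.Agent.PW.S

variable {Y Z Z' : Type} [TopologicalSpace Y] [TopologicalSpace Z] [TopologicalSpace Z']

/-- clamping the time coordinate -/
def scosClamp (Y : Type) [TopologicalSpace Y] (a b : unitInterval) :
    C(Y × unitInterval, Y × unitInterval) :=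
  ⟨fun z => (z.1, max a (min z.2 b)), by fun_prop⟩

theorem scos_over_idOn (A : Cx Y) (g : C(Y × unitInterval, Y × unitInterval))
    (hg : ∀ z, (g z).1 = z.1) (O : Opens (Y × unitInterval)) : IdOn g O (A.over g hg) :=
  fun n _ _ _ _ _ s => (A.X n).res_res _ _ s

theorem scos_box {W : Opens (Y × unitInterval)} {y : Y} {t : unitInterval} (hW : (y, t) ∈ W) :
    ∃ (V : Opens Y) (a b : unitInterval) (T : Opens (Y × unitInterval)), y ∈ V ∧ (y, t) ∈ T ∧
      pre (pr Y) V ≤ pre (scosClamp Y a b) W ∧ ∀ z ∈ T, scosClamp Y a b z = z := by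
  obtain ⟨u, v, hu, hv, hyu, htv, huv⟩ := isOpen_prod_iff.1 W.2 y t hW
  obtain ⟨a, b, hab, hn, hsub⟩ := exists_Icc_mem_subset_of_mem_nhds (hv.mem_nhds htv)
  refine ⟨⟨u, hu⟩, a, b, pre ContinuousMap.snd ⟨interior (Set.Icc a b), isOpen_interior⟩, hyu,
    mem_interior_iff_mem_nhds.2 hn, ?_, ?_⟩
  · intro z hz
    refine huv (Set.mk_mem_prod hz (hsub ⟨le_max_left _ _, max_le (hab.1.trans hab.2) ?_⟩))
    exact min_le_right _ _
  · intro z hz
    have hz' : z.2 ∈ Set.Icc a b := interior_subset hz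
    refine Prod.ext rfl ?_
    show max a (min z.2 b) = z.2
    rw [min_eq_left hz'.2, max_eq_right hz'.1]

theorem cyl_cosupp (A : Cx Y) (O : Opens Y) (y : Y) (t : unitInterval) (n : ℕ)
    (h : ((A.cyl.push (pr Y)).gam O).ExAt y n) :
    (A.cyl.gam (pre (pr Y) O)).ExAt (y, t) n := by
  intro W hW c hc
  obtain ⟨V, a, b, T, hyV, hT, hVW, hid⟩ := scos_box hW
  set m := scosClamp Y a b with hm
  have hm1 : ∀ z, (m z).1 = z.1 := fun _ => rfl
  set M : CMap A.cyl (A.cyl.push m) := Gmap m (A.over m hm1) with hM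
  have hMid : IdOn m T M := Gmap_idOn m T hid _ (scos_over_idOn A m hm1 T)
  have hc0 : (A.cyl.X n).res (inf_le_left : W ⊓ pre (pr Y) O ≤ W) c.1 = 0 := c.2
  have hdc : (A.cyl.d n).app W c.1 = 0 := congrArg Subtype.val hc
  have hle : pre (pr Y) (V ⊓ O) ≤ pre m (W ⊓ pre (pr Y) O) := fun z hz =>
    ⟨hVW hz.1, hz.2⟩
  have hz0 : (A.cyl.X n).res (pre_mono (pr Y) (inf_le_left : V ⊓ O ≤ V))
      ((A.cyl.X n).res hVW ((M.f n).app W c.1)) = 0 := by
    have h1 := (M.f n).nat (inf_le_left : W ⊓ pre (pr Y) O ≤ W) c.1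
    rw [hc0, map_zero] at h1
    have h2 : (A.cyl.X n).res (pre_mono m (inf_le_left : W ⊓ pre (pr Y) O ≤ W))
        ((M.f n).app W c.1) = 0 := h1
    rw [(A.cyl.X n).res_res, ← (A.cyl.X n).res_res (pre_mono m inf_le_left) hle, h2, map_zero]
  let c' : (((A.cyl.push (pr Y)).gam O).X n).obj V :=
    ⟨(A.cyl.X n).res hVW ((M.f n).app W c.1), hz0⟩
  have hdc' : (((A.cyl.push (pr Y)).gam O).d n).app V c' = 0 := by
    refine Subtype.ext ?_
    show (A.cyl.d n).app (pre (pr Y) V) ((A.cyl.X n).res hVW ((M.f n).app W c.1)) = 0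
    have h1 : (A.cyl.d n).app (pre m W) ((M.f n).app W c.1) =
        (M.f (n + 1)).app W ((A.cyl.d n).app W c.1) := M.comm n W c.1
    rw [← (A.cyl.d n).nat, h1, hdc, map_zero, map_zero]
  obtain ⟨V', hV', hy', hbd⟩ := h V hyV c' hdc'
  have hW1 : pre (pr Y) V' ⊓ T ≤ pre m W := fun z hz => hVW (hV' hz.1)
  have hW2 : pre (pr Y) V' ⊓ T ≤ W := fun z hz => by
    have h1 : m z ∈ W := hW1 hz
    rwa [hid z hz.2] at h1
  have key : (A.cyl.X n).res (inf_le_left : pre (pr Y) V' ⊓ T ≤ pre (pr Y) V')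
      ((A.cyl.X n).res (pre_mono (pr Y) hV') c'.1) = (A.cyl.X n).res hW2 c.1 := by
    show (A.cyl.X n).res _ ((A.cyl.X n).res _ ((A.cyl.X n).res hVW ((M.f n).app W c.1))) = _
    rw [(A.cyl.X n).res_res, (A.cyl.X n).res_res]
    exact hMid n W _ hW2 hW1 inf_le_right c.1
  refine ⟨pre (pr Y) V' ⊓ T, hW2, ⟨hy', hT⟩, ?_⟩
  cases n with
  | zero =>
    have h1 : (((A.cyl.push (pr Y)).gam O).X 0).res hV' c' = 0 := hbd
    have h2 : (A.cyl.X 0).res (pre_mono (pr Y) hV') c'.1 = 0 := congrArg Subtype.val h1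
    rw [h2, map_zero] at key
    exact Subtype.ext key.symm
  | succ k =>
    obtain ⟨e, he⟩ := hbd
    have h2 : (A.cyl.d k).app (pre (pr Y) V') e.1 =
        (A.cyl.X (k + 1)).res (pre_mono (pr Y) hV') c'.1 := congrArg Subtype.val he
    have he0 : (A.cyl.X k).res (pre_mono (pr Y) (inf_le_left : V' ⊓ O ≤ V')) e.1 = 0 := e.2
    have hle' : pre (pr Y) V' ⊓ T ⊓ pre (pr Y) O ≤ pre (pr Y) (V' ⊓ O) := fun z hz =>
      ⟨hz.1.1, hz.2⟩
    refine ⟨⟨(A.cyl.X k).res (inf_le_left : pre (pr Y) V' ⊓ T ≤ pre (pr Y) V') e.1, ?_⟩,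
      Subtype.ext ?_⟩
    · show (A.cyl.X k).res _ ((A.cyl.X k).res _ e.1) = 0
      rw [(A.cyl.X k).res_res, ← (A.cyl.X k).res_res (pre_mono (pr Y) inf_le_left) hle', he0,
        map_zero]
    · show (A.cyl.d k).app _ ((A.cyl.X k).res _ e.1) = (A.cyl.X (k + 1)).res hW2 c.1
      rw [← (A.cyl.d k).nat, h2, key]

end Pool.Agent.PW.S
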