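import Pool.Agent.P.MP_65ad7c_ag.SGodF

/-! The cylinder `Y × [0,1]`: definitions. -/

open TopologicalSpace

set_option backward.isDefEq.respectTransparency false

noncomputable section
namespace Pool.Agent.PW.S

variable {Y Z Z' : Type} [TopologicalSpace Y] [TopologicalSpace Z] [TopologicalSpace Z']

/-- the projection of the cylinder -/
def pr (Y : Type) [TopologicalSpace Y] : C(Y × unitInterval, Y) := ContinuousMap.fst

/-- the slice at time `t` -/
def slice (Y : Type) [TopologicalSpace Y] (t : unitInterval) : C(Y, Y × unitInterval) :=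
  ⟨fun y => (y, t), by fun_prop⟩

/-- the image of an open set under the projection -/
def img (W : Opens (Y × unitInterval)) : Opens Y :=
  ⟨Prod.fst '' (W : Set (Y × unitInterval)), isOpenMap_fst (W : Set (Y × unitInterval)) W.2⟩

theorem mem_img {W : Opens (Y × unitInterval)} {y : Y} : y ∈ img W ↔ ∃ t, (y, t) ∈ W :=
  ⟨fun ⟨z, hz, h⟩ => ⟨z.2, h ▸ hz⟩, fun ⟨t, h⟩ => ⟨(y, t), h, rfl⟩⟩

theorem img_mono : Monotone (img : Opens (Y × unitInterval) → Opens Y) :=
  fun _ _ h => Set.image_mono h

theorem img_pre_le (V : Opens Y) : img (pre (pr Y) V) ≤ V := by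
  rintro _ ⟨z, hz, rfl⟩
  exact hz

/-- presheaf pull-back to the cylinder -/
def Cx.pull (A : Cx Y) : Cx (Y × unitInterval) := A.comap img img_mono

/-- the Godement resolution of the pull-back -/
def Cx.cyl (A : Cx Y) : Cx (Y × unitInterval) := A.pull.G

/-- the unit -/
def Cx.toPull (A : Cx Y) : CMap A (A.pull.push (pr Y)) :=
  A.resMap (φ := id) (ψ := fun V => img (pre (pr Y) V)) monotone_id
    (img_mono.comp (pre_mono _)) img_pre_le

/-- the map `A → pr_* cyl A` -/
def Cx.beta (A : Cx Y) : CMap A (A.cyl.push (pr Y)) := (A.pull.aug.push (pr Y)).comp A.toPull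

theorem Cx.beta_app (A : Cx Y) (n : ℕ) (V : Opens Y) (s : (A.X n).obj V) :
    (A.beta.f n).app V s =
      (A.pull.aug.f n).app (pre (pr Y) V) ((A.X n).res (img_pre_le V) s) := rfl

/-- the canonical map along a map of the cylinder over `Y` -/
def Cx.over (A : Cx Y) (g : C(Y × unitInterval, Y × unitInterval)) (hg : ∀ z, (g z).1 = z.1) :
    CMap A.pull (A.pull.push g) :=
  A.resMap (φ := img) (ψ := fun W => img (pre g W)) img_mono (img_mono.comp (pre_mono _))
    (fun _ _ ⟨z, hz, h⟩ => ⟨g z, hz, (hg z).trans h⟩)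

/-- the canonical map to a slice -/
def Cx.toSlice (A : Cx Y) (t : unitInterval) : CMap A.pull (A.push (slice Y t)) :=
  A.resMap (φ := img) (ψ := pre (slice Y t)) img_mono (pre_mono _)
    (fun _ y hy => ⟨(y, t), hy, rfl⟩)

/-- restriction to a slice -/
def Cx.rsl (A : Cx Y) (t : unitInterval) : CMap A.cyl (A.G.push (slice Y t)) :=
  Gmap (slice Y t) (A.toSlice t)

end Pool.Agent.PW.S
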