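import Pool.Agent.P.MP_65ad7c_ag.SBr
import Pool.Agent.P.MP_65ad7c_ag.HMain

/-! Duals of the Hodge-theoretic facts. -/

open CategoryTheory TopologicalSpace Opposite Pool.Agent.HT

set_option backward.isDefEq.respectTransparency false

noncomputable section
namespace Pool.Agent.PW.S

variable {Y : Type} [TopologicalSpace Y]

/-- linear algebra -/
theorem dual_dec {E : Type} [AddCommGroup E] [Module ℂ E] {C0 C1 F F' : Submodule ℂ E}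
    (h10 : C1 ≤ C0) (ha : C0 ≤ (C0 ⊓ F) ⊔ (C0 ⊓ F') ⊔ C1)
    (hb : ∀ f ∈ C0 ⊓ F, ∀ f' ∈ C0 ⊓ F', f - f' ∈ C1 → f ∈ C1)
    (lam : Module.Dual ℂ E) (hl : ∀ x ∈ C1, lam x = 0) :
    ∃ a b w : Module.Dual ℂ E, lam = a + b + w ∧ (∀ x ∈ C1, a x = 0) ∧ (∀ x ∈ F, a x = 0) ∧
      (∀ x ∈ C1, b x = 0) ∧ (∀ x ∈ F', b x = 0) ∧ ∀ x ∈ C0, w x = 0 := by
  have h1 : (C1 ⊔ F) ⊓ (C0 ⊓ F') ≤ C1 := by
    rintro x ⟨hx, hx'⟩
    obtain ⟨c, hc, f, hf, rfl⟩ := Submodule.mem_sup.1 hx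
    have hf0 : f ∈ C0 := by simpa using C0.sub_mem hx'.1 (h10 hc)
    exact C1.add_mem hc (hb f ⟨hf0, hf⟩ _ hx' (by simpa using hc))
  have h2 : (C1 ⊔ F') ⊓ (C0 ⊓ F) ≤ C1 := by
    rintro x ⟨hx, hx'⟩
    obtain ⟨c, hc, f, hf, rfl⟩ := Submodule.mem_sup.1 hx
    have hf0 : f ∈ C0 := by simpa using C0.sub_mem hx'.1 (h10 hc)
    exact hb _ hx' f ⟨hf0, hf⟩ (by simpa using hc)
  have h3 : lam ∈ ((C1 ⊔ F) ⊓ (C0 ⊓ F')).dualAnnihilator :=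
    (Submodule.mem_dualAnnihilator _).2 fun x hx => hl x (h1 hx)
  have h4 : lam ∈ ((C1 ⊔ F') ⊓ (C0 ⊓ F)).dualAnnihilator :=
    (Submodule.mem_dualAnnihilator _).2 fun x hx => hl x (h2 hx)
  rw [Subspace.dualAnnihilator_inf_eq] at h3 h4
  obtain ⟨a, ha1, ψ, hψ, h5⟩ := Submodule.mem_sup.1 h3
  obtain ⟨b, hb1, χ, hχ, h6⟩ := Submodule.mem_sup.1 h4
  rw [Submodule.mem_dualAnnihilator] at ha1 hψ hb1 hχ
  have a1 : ∀ x ∈ C1, a x = 0 := fun x hx => ha1 x (Submodule.mem_sup_left hx)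
  have a2 : ∀ x ∈ F, a x = 0 := fun x hx => ha1 x (Submodule.mem_sup_right hx)
  have b1 : ∀ x ∈ C1, b x = 0 := fun x hx => hb1 x (Submodule.mem_sup_left hx)
  have b2 : ∀ x ∈ F', b x = 0 := fun x hx => hb1 x (Submodule.mem_sup_right hx)
  refine ⟨a, b, lam - a - b, by abel, a1, a2, b1, b2, fun x hx => ?_⟩
  obtain ⟨y, hy, r, hr, rfl⟩ := Submodule.mem_sup.1 (ha hx)
  obtain ⟨f, hf, f', hf', rfl⟩ := Submodule.mem_sup.1 hy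
  have e1 : lam f = b f := by rw [← h6, LinearMap.add_apply, hχ f hf, add_zero]
  have e2 : lam f' = a f' := by rw [← h5, LinearMap.add_apply, hψ f' hf', add_zero]
  simp only [LinearMap.sub_apply, map_add, e1, e2, hl r hr, a1 r hr, b1 r hr, a2 f hf.2,
    b2 f' hf'.2]
  ring

variable {N : ℕ} {ι : Type} {d : ℕ} {Z : Set (Amb N)} {D : ι → Set (Amb N)}
  (π : C(↥(Z \ ⋃ i, D i), Y))

theorem up_top : up π ⊤ = Z \ ⋃ i, D i :=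
  Subtype.coe_image_univ _

theorem wt_mono (j k : ℕ) : Wt d π j (2 * k) ≤ Wt d π j (2 * k + 1) :=
  fun _ h q α h1 h2 => h q α h1 (col_anti (by omega) h2)

theorem wt_closed (hD : ∀ i, D i ⊆ Z) {j m : ℕ} {lam : ((Kx d π).X j).obj (op ⊤)}
    (h : lam ∈ Wt d π j m) : dv (Kx d π) j (j + 1) ⊤ lam = 0 := by
  refine funext fun q => LinearMap.ext fun α => (dualCx_dv j ⊤ lam q α).trans ?_
  exact h ⟨q.1 + 1, by have := q.2; omega⟩ ⟨Om.d Z q.1 α.1, ac_d _ q.1 α.1 α.2⟩ (om_dd q.1 α.1)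
    (cls_exact hD _ (Ac.mono Z (up_top π).le α.2))

theorem bd_mem_ann {j : ℕ} (S : ∀ q, Set (Om Z q)) {lam : ((Kx d π).X j).obj (op ⊤)}
    (h : lam ∈ (toCx (Kx d π)).Bd j ⊤) : lam ∈ ann d π j S := by
  cases j with
  | zero =>
    have h0 : lam = 0 := h
    rw [h0]
    exact Submodule.zero_mem _
  | succ j =>
    obtain ⟨μ, rfl⟩ : ∃ μ : ((Kx d π).X j).obj (op ⊤), dv (Kx d π) j (j + 1) ⊤ μ = lam := h
    intro q α h1 _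
    refine (dualCx_dv j ⊤ μ q α).trans ?_
    exact (congrArg (μ ⟨q.1 + 1, by have := q.2; omega⟩) (Subtype.ext h1)).trans (map_zero _)

theorem sdual_cases (Z : Set (Amb N)) (D : ι → Set (Amb N)) {q j : ℕ} (k : ℕ)
    (hq : q + j = 2 * d) : col Z D (2 * k + 1 - j) q ≤ col Z D (2 * k + 1 + 1 - j) q ∨
      (2 * k + 1 + 1 - j = 2 * k + 1 - j + 1 ∧ q + 1 = 2 * k + 1 - j + 2 * (d + 1 - (k + 1))) := by
  rcases lt_or_ge (2 * k + 1) j with h | h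
  · exact Or.inl (col_anti (by omega))
  · rcases lt_or_ge q (2 * k + 1 - j) with h' | h'
    · exact Or.inl ((col_big h').trans (col_anti (by omega)))
    · exact Or.inr ⟨by omega, by omega⟩

theorem sdual_d_conj {q : ℕ} {α : Om Z q} (h : Om.d Z q α = 0) :
    Om.d Z q (Om.conj Z q α) = 0 := by
  rw [Om.d_conj, h, map_zero]

theorem sdual_span [Finite ι] (h : IsSNC d Z D) {U : Set (Amb N)} (hU : U = Z \ ⋃ i, D i)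
    {q c b : ℕ} (hq : q + 1 = c + 2 * b) (α : Ac Z U q) (h1 : Om.d Z q α.1 = 0)
    (h2 : α.1 ∈ col Z D c q) :
    ∃ f f' r : Ac Z U q, α = f + f' + r ∧
      (Om.d Z q f.1 = 0 ∧ f.1 ∈ col Z D c q ∧ f.1 ∈ Fil Z D b q) ∧
      (Om.d Z q f'.1 = 0 ∧ f'.1 ∈ col Z D c q ∧ f'.1 ∈ Om.conj Z q '' Fil Z D b q) ∧
      (Om.d Z q r.1 = 0 ∧ r.1 ∈ col Z D (c + 1) q) := by
  subst hU
  obtain ⟨f, hf, f', hf', r, hr, e⟩ := odd_span h hq (α := α.1) ⟨⟨α.2, h1⟩, h2⟩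
  exact ⟨⟨f, hf.1.1.1⟩, ⟨Om.conj Z q f', Ac.conj_mem hf'.1.1.1⟩, ⟨r, hr.1.1⟩, Subtype.ext e,
    ⟨hf.1.1.2, hf.1.2, hf.2⟩, ⟨sdual_d_conj hf'.1.1.2, col_conj hf'.1.2, f', hf'.2, rfl⟩,
    hr.1.2, hr.2⟩

theorem sdual_dec [Finite ι] (h : IsSNC d Z D) {U : Set (Amb N)} (hU : U = Z \ ⋃ i, D i)
    {q c b : ℕ} (hq : q + 1 = c + 2 * b) (lam : Module.Dual ℂ (Ac Z U q))
    (hl : ∀ α : Ac Z U q, Om.d Z q α.1 = 0 → α.1 ∈ col Z D (c + 1) q → lam α = 0) :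
    ∃ a b' w : Module.Dual ℂ (Ac Z U q), lam = a + b' + w ∧
      (∀ α : Ac Z U q, Om.d Z q α.1 = 0 → α.1 ∈ col Z D (c + 1) q → a α = 0) ∧
      (∀ α : Ac Z U q, Om.d Z q α.1 = 0 → α.1 ∈ Fil Z D b q → a α = 0) ∧
      (∀ α : Ac Z U q, Om.d Z q α.1 = 0 → α.1 ∈ col Z D (c + 1) q → b' α = 0) ∧
      (∀ α : Ac Z U q, Om.d Z q α.1 = 0 → α.1 ∈ Om.conj Z q '' Fil Z D b q → b' α = 0) ∧
      ∀ α : Ac Z U q, Om.d Z q α.1 = 0 → α.1 ∈ col Z D c q → w α = 0 := by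
  obtain ⟨a, b', w, e, a1, a2, b1, b2, w1⟩ := dual_dec
    (C0 := (LinearMap.ker (Om.d Z q) ⊓ col Z D c q).comap (Ac Z U q).subtype)
    (C1 := (LinearMap.ker (Om.d Z q) ⊓ col Z D (c + 1) q).comap (Ac Z U q).subtype)
    (F := (LinearMap.ker (Om.d Z q) ⊓ Fil Z D b q).comap (Ac Z U q).subtype)
    (F' := (LinearMap.ker (Om.d Z q) ⊓ (Fil Z D b q).comap (Om.conj Z q)).comap
      (Ac Z U q).subtype)
    (fun x hx => ⟨hx.1, col_anti (Nat.le_succ c) hx.2⟩)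
    (fun x hx => by
      obtain ⟨f, f', r, rfl, hf, hf', hr⟩ := sdual_span h hU hq x hx.1 hx.2
      obtain ⟨g, hg, hg'⟩ := hf'.2.2
      have h3 : Om.conj Z q f'.1 ∈ Fil Z D b q := by
        rw [← hg', Om.conj_conj]
        exact hg
      exact Submodule.add_mem_sup (Submodule.add_mem_sup ⟨⟨hf.1, hf.2.1⟩, ⟨hf.1, hf.2.2⟩⟩
        ⟨⟨hf'.1, hf'.2.1⟩, ⟨hf'.1, h3⟩⟩) ⟨hr.1, hr.2⟩)
    (fun f hf f' hf' hff => by
      subst hU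
      refine ⟨hf.1.1, odd_disj h hq (f := f.1) (f' := Om.conj Z q f'.1)
        ⟨⟨⟨f.2, hf.1.1⟩, hf.1.2⟩, hf.2.2⟩
        ⟨⟨⟨Ac.conj_mem f'.2, sdual_d_conj hf'.1.1⟩, col_conj hf'.1.2⟩, hf'.2.2⟩ ?_⟩
      rw [Om.conj_conj]
      exact hff.2)
    lam (fun x hx => hl x hx.1 hx.2)
  refine ⟨a, b', w, e, fun α h1 h2 => a1 α ⟨h1, h2⟩, fun α h1 h2 => a2 α ⟨h1, h2⟩,
    fun α h1 h2 => b1 α ⟨h1, h2⟩, fun α h1 h2 => b2 α ⟨h1, ?_⟩, fun α h1 h2 => w1 α ⟨h1, h2⟩⟩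
  obtain ⟨g, hg, hg'⟩ := h2
  have h3 : Om.conj Z q α.1 ∈ Fil Z D b q := by
    rw [← hg', Om.conj_conj]
    exact hg
  exact h3

theorem sdual_dec' [Finite ι] (h : IsSNC d Z D) {U : Set (Amb N)} (hU : U = Z \ ⋃ i, D i)
    {q j : ℕ} (k : ℕ) (hq : q + j = 2 * d) (lam : Module.Dual ℂ (Ac Z U q))
    (hl : ∀ α : Ac Z U q, Om.d Z q α.1 = 0 → α.1 ∈ col Z D (2 * k + 1 + 1 - j) q → lam α = 0) :
    ∃ a b' w : Module.Dual ℂ (Ac Z U q), lam = a + b' + w ∧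
      (∀ α : Ac Z U q, Om.d Z q α.1 = 0 → α.1 ∈ col Z D (2 * k + 1 + 1 - j) q → a α = 0) ∧
      (∀ α : Ac Z U q, Om.d Z q α.1 = 0 → α.1 ∈ Fil Z D (d + 1 - (k + 1)) q → a α = 0) ∧
      (∀ α : Ac Z U q, Om.d Z q α.1 = 0 → α.1 ∈ col Z D (2 * k + 1 + 1 - j) q → b' α = 0) ∧
      (∀ α : Ac Z U q, Om.d Z q α.1 = 0 →
        α.1 ∈ Om.conj Z q '' Fil Z D (d + 1 - (k + 1)) q → b' α = 0) ∧
      ∀ α : Ac Z U q, Om.d Z q α.1 = 0 → α.1 ∈ col Z D (2 * k + 1 - j) q → w α = 0 := by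
  rcases sdual_cases Z D k hq with h1 | ⟨h1, h2⟩
  · exact ⟨0, 0, lam, by rw [add_zero, zero_add], fun _ _ _ => rfl, fun _ _ _ => rfl,
      fun _ _ _ => rfl, fun _ _ _ => rfl, fun α h2 h3 => hl α h2 (h1 h3)⟩
  · rw [h1] at hl ⊢
    exact sdual_dec h hU h2 lam hl

/-- (a*) -/
theorem wt_dec [Finite ι] (h : IsSNC d Z D) {j k : ℕ} {lam : ((Kx d π).X j).obj (op ⊤)}
    (hl : lam ∈ Wt d π j (2 * k + 1)) :
    ∃ a ∈ Wt d π j (2 * k + 1) ⊓ Hg d π j (k + 1), ∃ b ∈ Wt d π j (2 * k + 1) ⊓ Hg' d π j (k + 1),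
      ∃ w ∈ Wt d π j (2 * k), lam = a + b + w := by
  choose a b w e a1 a2 b1 b2 w1 using fun q : {q // q + j = 2 * d} =>
    sdual_dec' h (up_top π) k q.2 (lam q) (hl q)
  exact ⟨a, ⟨a1, a2⟩, b, ⟨b1, b2⟩, w, w1, funext e⟩

/-- (b*) -/
theorem wt_of_hg [Finite ι] (h : IsSNC d Z D) {j k : ℕ} {lam : ((Kx d π).X j).obj (op ⊤)}
    (h1 : lam ∈ Wt d π j (2 * k + 1)) (h2 : lam ∈ Hg d π j (k + 1))
    (h3 : lam ∈ Hg' d π j (k + 1)) : lam ∈ Wt d π j (2 * k) := by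
  intro q α hα hc
  rcases sdual_cases Z D k q.2 with h4 | ⟨h4, h5⟩
  · exact h1 q α hα (h4 hc)
  · obtain ⟨f, f', r, rfl, hf, hf', hr⟩ := sdual_span h (up_top π) h5 α hα hc
    have e1 : lam q f = 0 := h2 q f hf.1 hf.2.2
    have e2 : lam q f' = 0 := h3 q f' hf'.1 hf'.2.2
    have e3 : lam q r = 0 := h1 q r hr.1 (col_anti h4.le hr.2)
    rw [map_add, map_add, e1, e2, e3, add_zero, add_zero]

end Pool.Agent.PW.S
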