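import Pool.Agent.P.MP_65ad7c_ag.SSig
import Pool.Agent.P.MP_65ad7c_ag.SBrA
import Pool.Agent.P.MP_65ad7c_ag.SIso

/-! The final argument. -/

open CategoryTheory TopologicalSpace Opposite Pool.Agent.HT

set_option backward.isDefEq.respectTransparency false

noncomputable section
namespace Pool.Agent.PW.S

variable {Y : Type} [TopologicalSpace Y]

theorem sfin_alg {K J : Type} [AddCommGroup K] [Module ℂ K] [AddCommGroup J] [Module ℂ J]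
    (P : K →ₗ[ℂ] J) (Q : J →ₗ[ℂ] K) (σ : K → K) {H H' : Submodule ℂ K} {ε : ℂ} (hε : ε ≠ 0)
    (hH : ∀ x ∈ H, Q (P x) ∈ H) (hH' : ∀ x ∈ H', Q (P x) ∈ H') (hσ : ∀ x ∈ H, σ x ∈ H')
    {x : K} (hx : x ∈ H) (act : Q (P (σ (Q (P x))) - ε • P x) ∈ H') : Q (P x) ∈ H' := by
  have h1 := H'.sub_mem (hH' _ (hσ _ (hH x hx))) act
  rw [map_sub, sub_sub_cancel, map_smul] at h1
  exact (H'.smul_mem_iff hε).1 h1

theorem sfin_gen {I K : PCx Y} {i : I ⟶ K} {p : K ⟶ I} (hsp : Homotopy (i ≫ p) (𝟙 I)) (j : ℕ)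
    (W1 W0 H H' : Submodule ℂ ((K.X j).obj (op ⊤)))
    (σ : (K.X j).obj (op ⊤) → (K.X j).obj (op ⊤)) {ε : ℂ} (hε : ε ≠ 0)
    (act : ∀ z : ((toCx I).X j).obj ⊤, ((toCx I).d j).app ⊤ z = 0 →
      ((toCMap p).f j).app ⊤ (σ (((toCMap i).f j).app ⊤ z)) - ε • z ∈ (toCx I).Bd j ⊤)
    (cl : ∀ x ∈ W1, dv K j (j + 1) ⊤ x = 0)
    (bd : ∀ x : (K.X j).obj (op ⊤), x ∈ (toCx K).Bd j ⊤ → x ∈ H ∧ x ∈ H') (h01 : W0 ≤ W1)
    (dec : ∀ x ∈ W1, ∃ a ∈ W1 ⊓ H, ∃ b ∈ W1 ⊓ H', ∃ w ∈ W0, x = a + b + w)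
    (hg : ∀ x ∈ W1, x ∈ H → x ∈ H' → x ∈ W0)
    (w1 : W1.map (((p ≫ i).f j).app (op ⊤)).hom ≤ W1)
    (w0 : W0.map (((p ≫ i).f j).app (op ⊤)).hom ≤ W0)
    (e1 : H.map (((p ≫ i).f j).app (op ⊤)).hom ≤ H)
    (e2 : H'.map (((p ≫ i).f j).app (op ⊤)).hom ≤ H')
    (s1 : ∀ x ∈ H, σ x ∈ H') (s2 : ∀ x ∈ H', σ x ∈ H) :
    W1.map ((p.f j).app (op ⊤)).hom ⊔ LinearMap.range ((I.d (j - 1) j).app (op ⊤)).hom =
      W0.map ((p.f j).app (op ⊤)).hom ⊔ LinearMap.range ((I.d (j - 1) j).app (op ⊤)).hom := by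
  set P := ((p.f j).app (op ⊤)).hom with hP
  set Q := ((i.f j).app (op ⊤)).hom with hQ
  have key : ∀ {T : Submodule ℂ ((K.X j).obj (op ⊤))},
      T.map (((p ≫ i).f j).app (op ⊤)).hom ≤ T → ∀ x ∈ T, Q (P x) ∈ T :=
    fun hT x hx => hT ⟨x, hx, rfl⟩
  have hc : ∀ x ∈ W1, ((toCx I).d j).app ⊤ (P x) = 0 := fun x hx =>
    (toCMap p).map_cocycle (n := j) (V := ⊤) (z := x) (cl x hx)
  have ha : ∀ x ∈ W1, Q (P (σ (Q (P x))) - ε • P x) ∈ H ∧ Q (P (σ (Q (P x))) - ε • P x) ∈ H' :=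
    fun x hx => bd _ ((toCMap i).map_bd (act (P x) (hc x hx)))
  refine le_antisymm (sup_le ?_ le_sup_right) (sup_le_sup_right (Submodule.map_mono h01) _)
  rintro _ ⟨x, hx, rfl⟩
  obtain ⟨a, ⟨a1, a2⟩, b, ⟨b1, b2⟩, w, hw, hx'⟩ := dec x hx
  have qa : Q (P a) ∈ W0 := hg _ (key w1 a a1) (key e1 a a2)
    (sfin_alg P Q σ hε (key e1) (key e2) s1 a2 (ha a a1).2)
  have qb : Q (P b) ∈ W0 := hg _ (key w1 b b1)
    (sfin_alg P Q σ hε (key e2) (key e1) s2 b2 (ha b b1).1) (key e2 b b2)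
  have qx : Q (P x) ∈ W0 := by
    rw [hx', map_add, map_add, map_add, map_add]
    exact W0.add_mem (W0.add_mem qa qb) (key w0 w hw)
  have h1 := split_bd hsp j ⊤ (P x) (hc x hx)
  rw [toCx_bd] at h1
  have h2 : P (Q (P x)) - P x ∈ LinearMap.range ((I.d (j - 1) j).app (op ⊤)).hom := h1
  have h3 := Submodule.sub_mem _ (Submodule.mem_sup_left (Submodule.mem_map_of_mem (f := P) qx))
    (Submodule.mem_sup_right h2)
  rwa [sub_sub_cancel] at h3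

theorem sfin_one {I K : PCx Y} {i : I ⟶ K} {p : K ⟶ I} (hsp : Homotopy (i ≫ p) (𝟙 I))
    {O : Opens Y} (one : (I.X 0).obj (op O)) (hc : dv I 0 1 O one = 0) (s : C(Y, Y))
    (h1 : pre s O ≤ O) (σ : CMap (toCx K) ((toCx K).push s)) (ε : ℂ)
    (hσ : (σ.f 0).app O (((i.f 0).app (op O)).hom one) =
      ε • ((toCx K).X 0).res h1 (((i.f 0).app (op O)).hom one)) :
    ((((toCMap p).push s).comp (σ.comp (toCMap i))).f 0).app O one =
      ε • ((toCx I).X 0).res h1 one := by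
  have h2 : ((toCx K).X 0).res h1 (((i.f 0).app (op O)).hom one) =
      ((toCMap i).f 0).app (pre s O) (((toCx I).X 0).res h1 one) := ((toCMap i).f 0).nat h1 one
  have h3 := split_bd hsp 0 (pre s O) (((toCx I).X 0).res h1 one)
    ((toCx I).res_cocycle h1 (z := one) hc)
  have h4 := sub_eq_zero.1 ((Submodule.mem_bot ℂ).1 h3)
  refine (congrArg (((toCMap p).f 0).app (pre s O)) hσ).trans ?_
  rw [h2, map_smul, h4]

variable {N : ℕ} {ι : Type} {d : ℕ} {Z : Set (Amb N)} {D : ι → Set (Amb N)}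
  (π : C(↥(Z \ ⋃ i, D i), Y)) {U : ℕ → Opens Y} {I : PCx Y} {one : (I.X 0).obj (op (U 0))}
  {i : I ⟶ Kx d π} {p : Kx d π ⟶ I} {S : Y → Y → Prop}

/-- the Hodge-theoretic argument, given the action of `p σ i` on cohomology -/
theorem fin_of_act [Finite ι] (h : IsRes d π S one i p) (s : C(Y, Y))
    (hs : ∀ V, Set.MapsTo (cj N) (up π (pre s V)) (up π V)) (ε : ℂ) (hε : ε ≠ 0)
    (act : ∀ (n : ℕ) (z : ((toCx I).X n).obj ⊤), ((toCx I).d n).app ⊤ z = 0 →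
      (show ((toCx I).X n).obj ⊤ from ((toCMap p).f n).app ⊤
        (((sig d π h.cjZ s hs).f n).app ⊤ (((toCMap i).f n).app ⊤ z))) - ε • z ∈ (toCx I).Bd n ⊤)
    (j k : ℕ) : WIH d π p j (2 * k + 1) = WIH d π p j (2 * k) :=
  sfin_gen h.split.some j (Wt d π j (2 * k + 1)) (Wt d π j (2 * k)) (Hg d π j (k + 1))
    (Hg' d π j (k + 1)) (fun x => ((sig d π h.cjZ s hs).f j).app ⊤ x) hε (act j)
    (fun _ hx => wt_closed π h.snc.sub hx)
    (fun _ hx => ⟨bd_mem_ann π _ hx, bd_mem_ann π _ hx⟩) (wt_mono π j k)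
    (fun _ hx => wt_dec π h.snc hx) (fun _ h1 h2 h3 => wt_of_hg π h.snc h1 h2 h3)
    (h.wt j _) (h.wt j _) (h.hg j _) (h.hg' j _)
    (fun _ hx => sig_hg π h.cjZ s hs h.cjD hx) (fun _ hx => sig_hg' π h.cjZ s hs h.cjD hx)

/-- the theorem for any space with an isotopy from the identity to the involution -/
theorem fin_of_flow [Finite ι] (hI : IsIC U I one) (h : IsRes d π S one i p)
    (Φ Φ' : C(Y × unitInterval, Y)) (h0 : ∀ y, Φ (y, 0) = y)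
    (h1 : ∀ y t, Φ' (Φ (y, t), t) = y) (h2 : ∀ y t, Φ (Φ' (y, t), t) = y)
    (hS : ∀ y y', S y y' → y' = Φ (y, 1)) (j k : ℕ) :
    WIH d π p j (2 * k + 1) = WIH d π p j (2 * k) := by
  let φ : unitInterval → Y ≃ₜ Y := fun t =>
    { toFun := fun y => Φ (y, t)
      invFun := fun y => Φ' (y, t)
      left_inv := fun y => h1 y t
      right_inv := fun y => h2 y t
      continuous_toFun := by fun_prop
      continuous_invFun := by fun_prop }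
  have hΦ : ∀ k y t, Φ (y, t) ∈ U k ↔ y ∈ U k := fun k y t =>
    ⟨fun hy => h1 y t ▸ hI.inv (φ t).symm k _ hy, hI.inv (φ t) k y⟩
  let s : C(Y, Y) := ⟨fun y => Φ (y, 1), by fun_prop⟩
  have hs : ∀ V, Set.MapsTo (cj N) (up π (pre s V)) (up π V) :=
    mapsTo_up π h.cjZ h.cjD s fun u u' e => hS _ _ (h.cjπ u u' e)
  have hs0 : pre s (U 0) ≤ U 0 := fun y hy => (hΦ 0 y 1).1 hy
  have hs1 : U 0 ≤ pre s (U 0) := fun y hy => (hΦ 0 y 1).2 hy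
  refine fin_of_act π h s hs ((-1) ^ d) (pow_ne_zero _ (neg_ne_zero.2 one_ne_zero))
    (fun n z hz => ?_) j k
  exact iso_main hI.mono hI.top (ax_of_isIC hI) Φ Φ' h0 h1 h2 hΦ s (fun _ => rfl) hs0
    (((toCMap p).push s).comp ((sig d π h.cjZ s hs).comp (toCMap i))) ((-1) ^ d)
    (sfin_one h.split.some one hI.closed s hs0 _ _
      (sig_int π h.cjZ s hs h.snc hs0 hs1 _ h.int)) n z hz

end Pool.Agent.PW.S
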