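import Pool.Agent.P.MP_65ad7c_ag.SBase

/-! Consequences of the extension property: sheaf properties. -/

open TopologicalSpace

set_option backward.isDefEq.respectTransparency false

noncomputable section
namespace Pool.Agent.PW.S

variable {Y Z Z' : Type} [TopologicalSpace Y] [TopologicalSpace Z] [TopologicalSpace Z']

open Classical in
/-- a morphism `A → loc O I` gives a morphism from the extension by zero to `I` -/
def sinjExt {A I : PS Y} (O : Opens Y) (g : Mor A (I.loc O)) : Mor (A.ext0 O) I where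
  app V := if h : V ≤ O then
      ((I.res (le_inf le_rfl h : V ≤ V ⊓ O)).comp (g.app V)).comp (Submodule.subtype _) else 0
  nat {V W} h s := by
    by_cases hV : V ≤ O
    · rw [dif_pos hV, dif_pos (h.trans hV)]
      show I.res h (I.res _ (g.app V s.1)) = I.res _ (g.app W (A.res h s.1))
      rw [← g.nat h s.1]
      exact (I.res_res _ _ _).trans (I.res_res _ _ _).symm
    · have h0 : s = 0 := Subtype.ext (s.2.resolve_left hV)
      rw [h0, map_zero, map_zero, map_zero, map_zero]

theorem sinjExt_pos {A I : PS Y} (O : Opens Y) (g : Mor A (I.loc O)) {V : Opens Y} (h : V ≤ O)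
    (s : (A.ext0 O).obj V) :
    (sinjExt O g).app V s = I.res (le_inf le_rfl h : V ≤ V ⊓ O) (g.app V s.1) := by
  unfold sinjExt
  simp only [dif_pos h]
  rfl

theorem sinj_zero {A : PS Y} {O V : Opens Y} (h : ¬V ≤ O) (s : (A.ext0 O).obj V) : s = 0 :=
  Subtype.ext (s.2.resolve_left h)

/-- multiples of a section -/
def sinjCst {I : PS Y} {V : Opens Y} (s : I.obj V) : Mor PS.const (I.loc V) where
  app W := LinearMap.toSpanSingleton ℂ _ (I.res (inf_le_right : W ⊓ V ≤ V) s)
  nat {W W'} h a := by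
    show I.res _ ((show ℂ from a) • I.res _ s) = (show ℂ from a) • I.res _ s
    rw [map_smul, I.res_res]

/-- the morphism defined by a section -/
def sinjSec {I : PS Y} {V : Opens Y} (s : I.obj V) : Mor (PS.const.ext0 V) I :=
  sinjExt V (sinjCst s)

theorem sinjSec_pos {I : PS Y} {V : Opens Y} (s : I.obj V) {W : Opens Y} (h : W ≤ V)
    (a : (PS.const.ext0 V).obj W) :
    (sinjSec s).app W a = (show ℂ from a.1) • I.res h s := by
  rw [sinjSec, sinjExt_pos V _ h]
  show I.res _ ((show ℂ from a.1) • I.res _ s) = _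
  rw [map_smul, I.res_res]

/-- the generator -/
def sinjGen {V W : Opens Y} (h : W ≤ V) : (PS.const.ext0 V).obj W := ⟨(1 : ℂ), Or.inl h⟩

theorem sinjSec_gen {I : PS Y} {V : Opens Y} (s : I.obj V) {W : Opens Y} (h : W ≤ V) :
    (sinjSec s).app W (sinjGen h) = I.res h s := by
  rw [sinjSec_pos s h]
  exact one_smul ℂ _

/-- the inclusion of extensions by zero -/
def sinjInc (A : PS Y) {V W : Opens Y} (h : W ≤ V) : Mor (A.ext0 W) (A.ext0 V) where
  app _ := Submodule.inclusion fun _ hs => hs.imp (fun h' => h'.trans h) id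
  nat _ _ := rfl

/-- the inclusion of the extension by zero -/
def sinjSub (A : PS Y) (V : Opens Y) : Mor (A.ext0 V) A where
  app _ := Submodule.subtype _
  nat _ _ := rfl

/-- the sum of two morphisms on a product -/
def sinjCop {A B C : PS Y} (f : Mor A C) (g : Mor B C) : Mor (A.prod B) C where
  app V := (f.app V).coprod (g.app V)
  nat h s := by
    show C.res h (f.app _ s.1 + g.app _ s.2) = f.app _ (A.res h s.1) + g.app _ (B.res h s.2)
    rw [map_add, f.nat, g.nat]

theorem sinj_locZero_zero (I : PS Y) {x : Y} {V : Opens Y} (hx : x ∈ V) :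
    I.LocZero x (0 : I.obj V) := ⟨V, le_rfl, hx, map_zero _⟩

theorem sinj_locZero_map {I J : PS Y} (u : Mor I J) {x : Y} {V : Opens Y} {s : I.obj V}
    (h : I.LocZero x s) : J.LocZero x (u.app V s) := by
  obtain ⟨W, hW, hx, h0⟩ := h
  exact ⟨W, hW, hx, by rw [u.nat, h0, map_zero]⟩

theorem Inj.mono {O O' : Set Y} (h : O ⊆ O') {I : PS Y} (hI : Inj O I) : Inj O' I :=
  fun A B f g H => hI A B f g fun x hx => H x (h hx)

/-- separated -/
theorem Inj.sep {O : Set Y} {I : PS Y} (hI : Inj O I) {V : Opens Y} (s : I.obj V)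
    (h : ∀ x ∈ O, x ∈ V → I.LocZero x s) : s = 0 := by
  obtain ⟨k, hk⟩ := hI (PS.const.ext0 V) (PS.const.ext0 V) 0 (sinjSec s) fun x hx W hW a _ => by
    by_cases hWV : W ≤ V
    · obtain ⟨U, hU, hxU, h0⟩ := h x hx (hWV hW)
      refine ⟨W ⊓ U, inf_le_left, ⟨hW, hxU⟩, ?_⟩
      rw [sinjSec_pos s hWV, map_smul, I.res_res, ← I.res_res hU inf_le_right, h0, map_zero,
        smul_zero]
    · rw [sinj_zero hWV a, map_zero]
      exact sinj_locZero_zero I hW
  have := hk V (sinjGen le_rfl)
  rw [sinjSec_gen, I.res_self, Mor.zero_app, map_zero] at this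
  exact this.symm

theorem Inj.eq_zero_of_bot {O : Set Y} {I : PS Y} (hI : Inj O I) {V : Opens Y} (hV : V ≤ ⊥)
    (s : I.obj V) : s = 0 :=
  hI.sep s fun _ _ hx => (hV hx).elim

/-- flabby -/
theorem Inj.flabby {O : Set Y} {I : PS Y} (hI : Inj O I) {V W : Opens Y} (h : W ≤ V)
    (s : I.obj W) : ∃ t : I.obj V, I.res h t = s := by
  obtain ⟨k, hk⟩ := hI _ _ (sinjInc PS.const h) (sinjSec s) fun x _ U hU a ha => by
    obtain ⟨U', hU', _, h0⟩ := ha
    have h2 : (show ℂ from a.1) = 0 := congrArg Subtype.val h0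
    have h1 : a = 0 := Subtype.ext h2
    rw [h1, map_zero]
    exact sinj_locZero_zero I hU
  refine ⟨k.app V (sinjGen le_rfl), ?_⟩
  rw [k.nat]
  have := hk W (sinjGen le_rfl)
  rw [sinjSec_gen, I.res_self] at this
  exact this

/-- gluing of two sections -/
theorem Inj.glue {O : Set Y} {I : PS Y} (hI : Inj O I) {V W : Opens Y} (s : I.obj V)
    (t : I.obj W) (h : I.res (inf_le_left : V ⊓ W ≤ V) s = I.res (inf_le_right : V ⊓ W ≤ W) t) :
    ∃ u : I.obj (V ⊔ W), I.res le_sup_left u = s ∧ I.res le_sup_right u = t := by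
  obtain ⟨k, hk⟩ := hI _ _
    (sinjCop (sinjInc PS.const (le_sup_left : V ≤ V ⊔ W)) (sinjInc PS.const le_sup_right))
    (sinjCop (sinjSec s) (sinjSec t)) fun x _ U hU a ha => by
      obtain ⟨U', hU', _, h0⟩ := ha
      have h1 : (show ℂ from a.1.1) + (show ℂ from a.2.1) = 0 := congrArg Subtype.val h0
      have h2 : (sinjCop (sinjSec s) (sinjSec t)).app U a = 0 := by
        show (sinjSec s).app U a.1 + (sinjSec t).app U a.2 = 0
        by_cases hV : U ≤ V
        · by_cases hW : U ≤ W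
          · have e : I.res hV s = I.res hW t := by
              rw [← I.res_res inf_le_left (le_inf hV hW), h, I.res_res]
            rw [sinjSec_pos s hV, sinjSec_pos t hW, e, ← add_smul, h1, zero_smul]
          · have e2 : a.2 = 0 := sinj_zero hW _
            have e1 : a.1 = 0 := by
              rw [e2] at h1
              exact Subtype.ext ((add_zero _).symm.trans h1)
            rw [e1, e2, map_zero, map_zero, add_zero]
        · have e1 : a.1 = 0 := sinj_zero hV _
          have e2 : a.2 = 0 := by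
            rw [e1] at h1
            exact Subtype.ext ((zero_add _).symm.trans h1)
          rw [e1, e2, map_zero, map_zero, add_zero]
      rw [h2]
      exact sinj_locZero_zero I hU
  refine ⟨k.app _ (sinjGen le_rfl), ?_, ?_⟩
  · rw [k.nat]
    have := hk V (sinjGen le_rfl, 0)
    have e : (sinjCop (sinjSec s) (sinjSec t)).app V (sinjGen le_rfl, 0) = s := by
      show (sinjSec s).app V (sinjGen le_rfl) + (sinjSec t).app V 0 = s
      rw [sinjSec_gen, I.res_self, map_zero, add_zero]
    rw [e] at this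
    refine Eq.trans (congrArg _ (Subtype.ext ?_)) this
    exact (add_zero (1 : ℂ)).symm
  · rw [k.nat]
    have := hk W (0, sinjGen le_rfl)
    have e : (sinjCop (sinjSec s) (sinjSec t)).app W (0, sinjGen le_rfl) = t := by
      show (sinjSec s).app W 0 + (sinjSec t).app W (sinjGen le_rfl) = t
      rw [sinjSec_gen, I.res_self, map_zero, zero_add]
    rw [e] at this
    refine Eq.trans (congrArg _ (Subtype.ext ?_)) this
    exact (zero_add (1 : ℂ)).symm

theorem inj_of_zero {O : Set Y} {I : PS Y} (h : ∀ V (s : I.obj V), s = 0) : Inj O I :=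
  fun _ _ _ _ _ => ⟨0, fun V _ => (h V _).trans (h V _).symm⟩

theorem Inj.prod {O : Set Y} {I J : PS Y} (hI : Inj O I) (hJ : Inj O J) : Inj O (I.prod J) := by
  intro A B f g H
  let p1 : Mor (I.prod J) I := ⟨fun V => LinearMap.fst ℂ (I.obj V) (J.obj V), fun _ _ => rfl⟩
  let p2 : Mor (I.prod J) J := ⟨fun V => LinearMap.snd ℂ (I.obj V) (J.obj V), fun _ _ => rfl⟩
  obtain ⟨k1, hk1⟩ := hI A B f (p1.comp g) fun x hx V hV a ha =>
    sinj_locZero_map p1 (H x hx V hV a ha)
  obtain ⟨k2, hk2⟩ := hJ A B f (p2.comp g) fun x hx V hV a ha =>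
    sinj_locZero_map p2 (H x hx V hV a ha)
  exact ⟨⟨fun V => (k1.app V).prod (k2.app V), fun h s => Prod.ext (k1.nat h s) (k2.nat h s)⟩,
    fun V a => Prod.ext (hk1 V a) (hk2 V a)⟩

theorem Inj.retract {O : Set Y} {I J : PS Y} (hJ : Inj O J) (a : Mor I J) (b : Mor J I)
    (h : ∀ V s, b.app V (a.app V s) = s) : Inj O I := by
  intro A B f g H
  obtain ⟨k, hk⟩ := hJ A B f (a.comp g) fun x hx V hV c hc =>
    sinj_locZero_map a (H x hx V hV c hc)
  exact ⟨b.comp k, fun V c => by rw [Mor.comp_app, hk, Mor.comp_app, h]⟩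

theorem Inj.loc {O' : Set Y} {I : PS Y} (hI : Inj O' I) (O : Opens Y) :
    Inj (O' ∩ O) (I.loc O) := by
  intro A B f g H
  let f' : Mor (A.ext0 O) (B.ext0 O) :=
    ⟨fun V => (f.app V).restrict fun s hs => hs.imp id fun h0 => by rw [h0, map_zero],
      fun h s => Subtype.ext (f.nat h s.1)⟩
  obtain ⟨k, hk⟩ := hI _ _ f' (sinjExt O g) fun x hx V hV a ha => by
    by_cases hVO : V ≤ O
    · obtain ⟨W, hW, hxW, h0⟩ := ha
      obtain ⟨U, hU, hxU, h1⟩ := H x ⟨hx, hVO hV⟩ V hV a.1 ⟨W, hW, hxW, congrArg Subtype.val h0⟩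
      refine ⟨U, hU, hxU, ?_⟩
      have h2 : I.res (inf_le_inf_right O hU) (g.app V a.1) = 0 := h1
      rw [sinjExt_pos O g hVO, I.res_res,
        ← I.res_res (inf_le_inf_right O hU) (le_inf le_rfl (hU.trans hVO)), h2, map_zero]
    · rw [sinj_zero hVO a, map_zero]
      exact sinj_locZero_zero I hV
  let r : ∀ V : Opens Y, B.obj V →ₗ[ℂ] (B.ext0 O).obj (V ⊓ O) := fun V =>
    (B.res (inf_le_left : V ⊓ O ≤ V)).codRestrict _ fun _ => Or.inl inf_le_right
  refine ⟨⟨fun V => (k.app (V ⊓ O)).comp (r V), fun {V W} h s => ?_⟩, fun V a => ?_⟩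
  · show I.res (inf_le_inf_right O h) (k.app _ (r V s)) = k.app _ (r W (B.res h s))
    rw [k.nat]
    exact congrArg _ (Subtype.ext ((B.res_res _ _ s).trans (B.res_res _ _ s).symm))
  · have := hk (V ⊓ O) ⟨A.res inf_le_left a, Or.inl inf_le_right⟩
    rw [sinjExt_pos O g inf_le_right] at this
    show k.app (V ⊓ O) (r V (f.app V a)) = g.app V a
    have e : r V (f.app V a) = f'.app (V ⊓ O) ⟨A.res inf_le_left a, Or.inl inf_le_right⟩ :=
      Subtype.ext (f.nat inf_le_left a)
    rw [e]
    refine this.trans ?_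
    show I.res _ (g.app (V ⊓ O) (A.res inf_le_left a)) = g.app V a
    rw [← g.nat]
    exact (I.res_res _ _ _).trans (I.res_self _ _ _)

theorem Inj.gam {O' : Set Y} {I : PS Y} (hI : Inj O' I) (O : Opens Y) : Inj O' (I.gam O) := by
  intro A B f g H
  let ι : Mor (I.gam O) I := ⟨fun _ => Submodule.subtype _, fun _ _ => rfl⟩
  obtain ⟨k, hk⟩ := hI _ _ (sinjCop f (sinjSub B O)) (sinjCop (ι.comp g) 0)
    fun x hx V hV a ha => by
      have e : (sinjCop (ι.comp g) (0 : Mor (B.ext0 O) I)).app V a = ι.app V (g.app V a.1) :=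
        add_zero _
      rw [e]
      by_cases hVO : V ≤ O
      · have h1 : I.res (inf_le_left : V ⊓ O ≤ V) (g.app V a.1).1 = 0 := (g.app V a.1).2
        exact ⟨V ⊓ O, inf_le_left, ⟨hV, hVO hV⟩, h1⟩
      · have e2 : a.2 = 0 := sinj_zero hVO _
        have e3 : (sinjCop f (sinjSub B O)).app V a = f.app V a.1 := by
          show f.app V a.1 + (sinjSub B O).app V a.2 = _
          rw [e2, map_zero, add_zero]
        rw [e3] at ha
        exact sinj_locZero_map ι (H x hx V hV a.1 ha)
  have hk0 : ∀ (V : Opens Y) (b : B.obj V), I.res (inf_le_left : V ⊓ O ≤ V) (k.app V b) = 0 := by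
    intro V b
    rw [k.nat]
    have := hk (V ⊓ O) (0, ⟨B.res inf_le_left b, Or.inl inf_le_right⟩)
    refine Eq.trans (congrArg _ ?_) (this.trans ?_)
    · show _ = f.app _ 0 + B.res inf_le_left b
      rw [map_zero, zero_add]
    · show ι.app _ (g.app _ 0) + 0 = 0
      rw [map_zero, map_zero, add_zero]
  refine ⟨⟨fun V => (k.app V).codRestrict _ (hk0 V), fun h s => Subtype.ext (k.nat h s)⟩,
    fun V a => Subtype.ext ?_⟩
  have := hk V (a, 0)
  refine Eq.trans (congrArg (k.app V) ?_) (this.trans (add_zero _))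
  exact (add_zero _).symm

/-- the restriction `I → loc O I` has a section -/
theorem Inj.split {O' : Set Y} {I : PS Y} (hI : Inj O' I) (O : Opens Y) :
    ∃ σ : Mor (I.loc O) I, ∀ (V : Opens Y) (s : I.obj (V ⊓ O)),
      I.res (inf_le_left : V ⊓ O ≤ V) (σ.app V s) = s := by
  obtain ⟨k, hk⟩ := hI _ _ (sinjSub (I.loc O) O) (sinjExt O (Mor.id (I.loc O)))
    fun x _ V hV a ha => by
      by_cases hVO : V ≤ O
      · obtain ⟨U, hU, hxU, h1⟩ := ha
        refine ⟨U, hU, hxU, ?_⟩
        have h2 : I.res (inf_le_inf_right O hU) a.1 = 0 := h1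
        rw [sinjExt_pos O _ hVO, I.res_res, Mor.id_app,
          ← I.res_res (inf_le_inf_right O hU) (le_inf le_rfl (hU.trans hVO)), h2, map_zero]
      · rw [sinj_zero hVO a, map_zero]
        exact sinj_locZero_zero I hV
  refine ⟨k, fun V s => ?_⟩
  rw [k.nat]
  have := hk (V ⊓ O) ⟨(I.loc O).res inf_le_left s, Or.inl inf_le_right⟩
  rw [sinjExt_pos O _ inf_le_right] at this
  exact this.trans ((I.res_res _ _ _).trans (I.res_self _ _ _))

end Pool.Agent.PW.S
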