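import Pool.Agent.P.MP_65ad7c_ag.SCone

/-! Rigidity, part 1: the open stratum, truncations, maps into the local complex. -/

open TopologicalSpace

set_option backward.isDefEq.respectTransparency false

noncomputable section
namespace Pool.Agent.PW.S

variable {Y Z Z' : Type} [TopologicalSpace Y] [TopologicalSpace Z] [TopologicalSpace Z']

/-- the constant presheaf extended by zero from `O`, in degree `0` -/
def cst (O : Opens Y) : Cx Y where
  X n := (PS.const.ext0 O).sub (fun _ => if n = 0 then ⊤ else ⊥) (by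
    intro V W h s hs
    split_ifs at hs ⊢
    · trivial
    · rw [Submodule.mem_bot] at hs ⊢
      rw [hs, map_zero])
  d _ := 0
  dd _ _ _ := rfl

/-- the value of a section of `cst O` -/
def srig0c {O : Opens Y} {n : ℕ} (V : Opens Y) : ((cst O).X n).obj V →ₗ[ℂ] ℂ :=
  ⟨⟨fun a => a.1.1, fun _ _ => rfl⟩, fun _ _ => rfl⟩

/-- the section of `cst O` with a given value -/
def srig0g {O V : Opens Y} (h : V ≤ O) (c : ℂ) : ((cst O).X 0).obj V :=
  ⟨⟨c, Or.inl h⟩, Submodule.mem_top⟩

theorem srig0c_or {O V : Opens Y} {n : ℕ} (a : ((cst O).X n).obj V) : V ≤ O ∨ srig0c V a = 0 :=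
  a.1.2

theorem srig0c_zero {O V : Opens Y} {n : ℕ} {a : ((cst O).X n).obj V} (h : srig0c V a = 0) :
    a = 0 := Subtype.ext (Subtype.ext h)

theorem srig0_succ {O V : Opens Y} {n : ℕ} (a : ((cst O).X (n + 1)).obj V) : a = 0 :=
  Subtype.ext ((Submodule.mem_bot ℂ).1 a.2)

open Classical in
/-- the morphism sending the generator to `e` -/
def srig0m {O : Opens Y} (F : PS Y) (e : F.obj O) : Mor ((cst O).X 0) F where
  app V := if h : V ≤ O then (srig0c V).smulRight (F.res h e) else 0
  nat {V W} h a := by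
    by_cases hV : V ≤ O
    · rw [dif_pos hV, dif_pos (h.trans hV), LinearMap.smulRight_apply, LinearMap.smulRight_apply,
        map_smul, F.res_res]
      rfl
    · rw [srig0c_zero ((srig0c_or a).resolve_left hV), map_zero, map_zero, map_zero, map_zero]

theorem srig0m_app {O V : Opens Y} (F : PS Y) (e : F.obj O) (h : V ≤ O)
    (a : ((cst O).X 0).obj V) : (srig0m F e).app V a = srig0c V a • F.res h e := by
  simp only [srig0m, dif_pos h, LinearMap.smulRight_apply]

theorem srig0m_cases {O V : Opens Y} (a : ((cst O).X 0).obj V) : V ≤ O ∨ a = 0 :=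
  (srig0c_or a).imp_right srig0c_zero

/-- the chain map sending the generator to the cocycle `e` -/
def srig0M {O : Opens Y} (A : Cx Y) (e : (A.X 0).obj O) (he : (A.d 0).app O e = 0) :
    CMap (cst O) A where
  f n := match n with
    | 0 => srig0m (A.X 0) e
    | _ + 1 => 0
  comm n V a := by
    cases n with
    | zero =>
      change (A.d 0).app V ((srig0m (A.X 0) e).app V a) = 0
      rcases srig0m_cases a with h | rfl
      · rw [srig0m_app _ _ h, map_smul, A.res_cocycle h he, smul_zero]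
      · rw [map_zero, map_zero]
    | succ n => exact map_zero ((A.d (n + 1)).app V)

theorem srig0M_gen {O : Opens Y} (A : Cx Y) (e : (A.X 0).obj O) (he : (A.d 0).app O e = 0) :
    ((srig0M A e he).f 0).app O (srig0g le_rfl 1) = e :=
  (srig0m_app (A.X 0) e le_rfl _).trans ((one_smul ℂ _).trans ((A.X 0).res_self O _ e))

variable {U : ℕ → Opens Y} {I J : Cx Y}

theorem srig0_qis {one : (I.X 0).obj (U 0)} (hU : Monotone U) (hI : AX U I one) :
    ∀ x ∈ (U 0 : Set Y), (srig0M I one hI.closed).Qis x := fun x hx0 => by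
  refine ⟨fun n V hx z hz => ?_, fun n V hx a _ hb => ?_⟩
  · cases n with
    | zero =>
      obtain ⟨W, hW, c, hxW, h⟩ := hI.gen x (V ⊓ U 0) inf_le_right ⟨hx, hx0⟩
        ((I.X 0).res inf_le_left z) (I.res_cocycle _ hz)
      refine ⟨W, hW.trans inf_le_left, srig0g (hW.trans inf_le_right) c, hxW, rfl, ?_⟩
      rw [(I.X 0).res_res] at h
      exact (Submodule.mem_bot ℂ).2 (sub_eq_zero.2
        ((srig0m_app (I.X 0) one (hW.trans inf_le_right) _).trans h.symm))
    | succ n =>
      obtain ⟨W, hW, hxW, h⟩ := hI.supp 0 x (hU zero_le_one hx0) (n + 1) (by omega) V hx z hz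
      refine ⟨W, hW, 0, hxW, rfl, ?_⟩
      rw [map_zero, zero_sub]
      exact neg_mem h
  · suffices h : a = 0 from ⟨V, le_rfl, hx, by rw [h, map_zero]; exact zero_mem _⟩
    cases n with
    | zero =>
      refine (srig0m_cases a).elim (fun hV => srig0c_zero ?_) id
      obtain ⟨W, hW, hxW, h⟩ := hb
      have h1 : (I.X 0).res hW ((srig0m (I.X 0) one).app V a) = 0 := (Submodule.mem_bot ℂ).1 h
      rw [srig0m_app _ _ hV, map_smul, (I.X 0).res_res, smul_eq_zero] at h1
      refine h1.resolve_right (hI.ne W _ ?_)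
      rintro rfl
      exact hxW
    | succ n => exact srig0_succ a

theorem srig0_inj (hJ : CInj Set.univ J) (O : Opens Y) : CInj O (J.loc O) := fun n =>
  ((hJ n).loc O).mono Set.inter_subset_right

/-- base case, uniqueness -/
theorem rig_null_zero {one : (I.X 0).obj (U 0)} (hU : Monotone U) (hI : AX U I one)
    (hJ : CInj Set.univ J) (u : CMap I (J.loc (U 0))) (hu : (u.f 0).app (U 0) one = 0) :
    u.Null := by
  refine null_of_qis _ (srig0_qis hU hI) (srig0_inj hJ _) u (CMap.null_of_zero fun n V a => ?_)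
  cases n with
  | zero =>
    change (u.f 0).app V ((srig0m (I.X 0) one).app V a) = 0
    rcases srig0m_cases a with h | rfl
    · rw [srig0m_app _ _ h, map_smul, ← (u.f 0).nat, hu, map_zero, smul_zero]
    · rw [map_zero, map_zero]
  | succ n => exact map_zero ((u.f (n + 1)).app V)

/-- base case, existence -/
theorem rig_exists_zero {one : (I.X 0).obj (U 0)} (hU : Monotone U) (hI : AX U I one)
    (hJ : CInj Set.univ J) (e : (J.X 0).obj (U 0)) (he : (J.d 0).app _ e = 0) :
    ∃ u : CMap I (J.loc (U 0)), (u.f 0).app (U 0) one = (J.X 0).res inf_le_left e := by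
  obtain ⟨u, k, k0, -⟩ := extend_qis _ (srig0_qis hU hI) (srig0_inj hJ _)
    (srig0M (J.loc (U 0)) ((J.X 0).res inf_le_left e) (J.res_cocycle inf_le_left he))
  have h := k0 (U 0) (srig0g le_rfl 1)
  rw [CMap.sub_app, CMap.comp_app, srig0M_gen, srig0M_gen] at h
  exact ⟨u, sub_eq_zero.1 (h.trans (map_zero ((k 0).app (U 0))))⟩

theorem srig0_tau {a n : ℕ} (h : a < n) {V : Opens Y} (s : ((I.tau a).X n).obj V) : s = 0 :=
  Subtype.ext (s.2.2 h)

theorem tau_qis {a : ℕ} {x : Y} (h : ∀ n, a < n → I.ExAt x n) : (I.tauι a).Qis x := by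
  refine ⟨fun n V hx z hz => ?_, fun n V hx s _ hb => ?_⟩
  · rcases le_or_gt n a with hn | hn
    · refine ⟨V, le_rfl, ⟨z, fun _ => hz, fun h1 => absurd h1 hn.not_gt⟩, hx, Subtype.ext hz, ?_⟩
      rw [(I.X n).res_self]
      exact (sub_self z).symm ▸ zero_mem (I.Bd n V)
    · obtain ⟨W, hW, hxW, h1⟩ := h n hn V hx z hz
      refine ⟨W, hW, 0, hxW, map_zero _, ?_⟩
      rw [map_zero, zero_sub]
      exact neg_mem h1
  · rcases le_or_gt n a with hn | hn
    · obtain ⟨W, hW, hxW, h1⟩ := hb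
      refine ⟨W, hW, hxW, ?_⟩
      cases n with
      | zero => exact (Submodule.mem_bot ℂ).2 (Subtype.ext ((Submodule.mem_bot ℂ).1 h1))
      | succ n =>
        obtain ⟨b, hb⟩ := h1
        exact ⟨⟨b, fun h2 => absurd h2 (by omega), fun h2 => absurd h2 (by omega)⟩,
          Subtype.ext hb⟩
    · exact ⟨V, le_rfl, hx, by rw [srig0_tau hn s, map_zero]; exact zero_mem _⟩

/-- maps from a complex in degrees `≤ a` to an injective complex exact in degrees `≤ a + 1` -/
theorem null_of_tau {O : Set Y} {B : Cx Y} (a : ℕ) (hB : CInj O B)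
    (hex : ∀ x ∈ O, ∀ n ≤ a + 1, B.ExAt x n) (u : CMap (I.tau a) B) : u.Null := by
  obtain ⟨k, k0, k1⟩ := h0_le (a + 1) hex hB (CMap.id B)
  refine ⟨fun n => (k n).comp (u.f (n + 1)), fun V s => ?_, fun n V s => ?_⟩
  · rw [Mor.comp_app, ← u.comm]
    exact k0 V _
  · rcases le_or_gt (n + 1) a with hn | hn
    · rw [Mor.comp_app, Mor.comp_app, ← u.comm]
      exact k1 n (by omega) V _
    · simp only [srig0_tau hn s, map_zero, add_zero]

/-- the same for maps of degree one -/
theorem null_of_tau_shift {O : Set Y} {B : Cx Y} (a : ℕ) (hB : CInj O B)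
    (hex : ∀ x ∈ O, ∀ n ≤ a + 1, B.ExAt x n) (θ : ∀ n, Mor ((I.tau a).X n) (B.X (n + 1)))
    (hθ : ∀ n V s, (B.d (n + 1)).app V ((θ n).app V s) +
      (θ (n + 1)).app V (((I.tau a).d n).app V s) = 0) :
    ∃ k : ∀ n, Mor ((I.tau a).X n) (B.X n), ∀ n V s, (θ n).app V s =
      (B.d n).app V ((k n).app V s) - (k (n + 1)).app V (((I.tau a).d n).app V s) := by
  obtain ⟨k, -, k1⟩ := h0_le (a + 1) hex hB (CMap.id B)
  refine ⟨fun n => (k n).comp (θ n), fun n V s => ?_⟩
  rcases le_or_gt n a with hn | hn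
  · rw [Mor.comp_app, Mor.comp_app, eq_neg_of_add_eq_zero_right (hθ n V s), map_neg,
      sub_neg_eq_add]
    exact k1 n (by omega) V _
  · simp only [srig0_tau hn s, map_zero, sub_zero]

theorem srig0_res0 (F : PS Y) {V W W' : Opens Y} (h : W ≤ V) (h' : W' ≤ V) (k : W' ≤ W)
    {s : F.obj V} (hs : F.res h s = 0) : F.res h' s = 0 := by
  rw [← F.res_res h k, hs, map_zero]

/-- local exactness only depends on the germ of the complex -/
theorem exAt_gam_loc {O O' : Opens Y} {x : Y} (hx : x ∈ O') {n : ℕ} (h : (J.gam O).ExAt x n) :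
    ((J.loc O').gam O).ExAt x n := by
  intro V hV c hc
  have h0 : (J.d n).app (V ⊓ O') c.1 = 0 := congrArg Subtype.val hc
  obtain ⟨W, hW, hxW, h1⟩ := h (V ⊓ O') ⟨hV, hx⟩
    ⟨c.1, srig0_res0 (J.X n) _ _ (inf_right_comm V O' O).le c.2⟩ (Subtype.ext h0)
  refine ⟨W, hW.trans inf_le_left, hxW, ?_⟩
  cases n with
  | zero =>
    exact (Submodule.mem_bot ℂ).2 (Subtype.ext (srig0_res0 (J.X 0) hW _ inf_le_left
      (congrArg Subtype.val ((Submodule.mem_bot ℂ).1 h1))))
  | succ n =>
    obtain ⟨b, hb⟩ := h1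
    refine ⟨⟨(J.X n).res inf_le_left b.1, ((J.X n).res_res _ _ b.1).trans
      (srig0_res0 (J.X n) _ _ inf_le_left b.2)⟩, Subtype.ext ?_⟩
    have h2 : (J.d n).app W b.1 = (J.X (n + 1)).res hW c.1 := congrArg Subtype.val hb
    refine ((J.d n).nat inf_le_left b.1).symm.trans ?_
    rw [h2]
    exact (J.X (n + 1)).res_res _ _ c.1

end Pool.Agent.PW.S
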