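import Pool.Agent.P.MP_65ad7c_ag.SDual

/-! The action of complex conjugation on the dual complex. -/

open CategoryTheory TopologicalSpace Opposite Pool.Agent.HT

set_option backward.isDefEq.respectTransparency false

noncomputable section
namespace Pool.Agent.PW.S

variable {Y : Type} [TopologicalSpace Y]

variable {N : ℕ} {ι : Type} {d : ℕ} {Z : Set (Amb N)} {D : ι → Set (Amb N)}
  (π : C(↥(Z \ ⋃ i, D i), Y))

theorem mapsTo_up (hZ : Set.MapsTo (cj N) Z Z) (hD : ∀ a, ∃ b, Set.MapsTo (cj N) (D a) (D b))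
    (s : C(Y, Y)) (hs : ∀ u u' : ↥(Z \ ⋃ i, D i), u'.1 = cj N u.1 → π u' = s (π u))
    (V : Opens Y) : Set.MapsTo (cj N) (up π (pre s V)) (up π V) := by
  rintro _ ⟨u, hu, rfl⟩
  have hmem : cj N u.1 ∈ Z \ ⋃ i, D i := by
    refine ⟨hZ u.2.1, fun hx => ?_⟩
    obtain ⟨a, ha⟩ := Set.mem_iUnion.1 hx
    obtain ⟨b, hb⟩ := hD a
    have h1 : cj N (cj N u.1) ∈ D b := hb ha
    rw [cj_cj] at h1
    exact u.2.2 (Set.mem_iUnion.2 ⟨b, h1⟩)
  refine ⟨⟨cj N u.1, hmem⟩, ?_, rfl⟩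
  have h2 : π ⟨cj N u.1, hmem⟩ = s (π u) := hs u ⟨cj N u.1, hmem⟩ rfl
  show π ⟨cj N u.1, hmem⟩ ∈ V
  rw [h2]
  exact hu

variable (d) in
/-- pull-back by complex conjugation, transposed -/
def sig (hZ : Set.MapsTo (cj N) Z Z) (s : C(Y, Y))
    (hs : ∀ V, Set.MapsTo (cj N) (up π (pre s V)) (up π V)) :
    CMap (toCx (Kx d π)) ((toCx (Kx d π)).push s) :=
  dualMapC (A := fun V q => Ac Z (up π V) q) s (Om.pull (cj N) hZ)
    (fun V _ _ hα => Ac.pull_mem _ cj_cj hZ (hs V) hα) (fun _ α => Om.d_pull _ hZ α)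

variable (hZ : Set.MapsTo (cj N) Z Z) (s : C(Y, Y))
  (hs : ∀ V, Set.MapsTo (cj N) (up π (pre s V)) (up π V))

theorem sig_app (j : ℕ) (V : Opens Y) (lam : ((Kx d π).X j).obj (op V))
    (q : {q // q + j = 2 * d}) (α : Ac Z (up π (pre s V)) q.1) :
    ((sig d π hZ s hs).f j).app V lam q α =
      lam q ⟨Om.pull (cj N) hZ q.1 α.1, Ac.pull_mem _ cj_cj hZ (hs V) α.2⟩ :=
  dualMapC_app (A := fun V q => Ac Z (up π V) q) s _ _ _ j V lam q α

theorem ssig_closed {q : ℕ} {α : Om Z q} (h : Om.d Z q α = 0) :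
    Om.d Z q (Om.pull (cj N) hZ q α) = 0 := by
  rw [Om.d_pull, h, map_zero]

theorem sig_hg (hD : ∀ a, ∃ b, Set.MapsTo (cj N) (D a) (D b)) {j a : ℕ}
    {lam : ((Kx d π).X j).obj (op ⊤)} (h : lam ∈ Hg d π j a) :
    (show ((Kx d π).X j).obj (op ⊤) from ((sig d π hZ s hs).f j).app ⊤ lam) ∈ Hg' d π j a := by
  intro q α h1 h2
  obtain ⟨β, hβ, e⟩ := h2
  refine (sig_app π hZ s hs j ⊤ lam q α).trans (h q _ (ssig_closed hZ h1) ?_)
  have h3 : Om.pull (cj N) hZ q.1 α.1 ∈ Fil Z D (d + 1 - a) q.1 := by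
    rw [← e]
    exact Fil_pull_conj hZ hD hβ
  exact h3

theorem sig_hg' (hD : ∀ a, ∃ b, Set.MapsTo (cj N) (D a) (D b)) {j a : ℕ}
    {lam : ((Kx d π).X j).obj (op ⊤)} (h : lam ∈ Hg' d π j a) :
    (show ((Kx d π).X j).obj (op ⊤) from ((sig d π hZ s hs).f j).app ⊤ lam) ∈ Hg d π j a := by
  intro q α h1 h2
  refine (sig_app π hZ s hs j ⊤ lam q α).trans (h q _ (ssig_closed hZ h1) ?_)
  have h3 : Om.conj Z q.1 (Om.pull (cj N) hZ q.1 (Om.conj Z q.1 α.1)) =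
      Om.pull (cj N) hZ q.1 α.1 := by
    rw [Om.conj_pull, Om.conj_conj]
  exact ⟨_, Fil_pull_conj hZ hD h2, h3⟩

theorem sig_int (h : IsSNC d Z D) {O : Opens Y} (h1 : pre s O ≤ O) (h2 : O ≤ pre s O)
    (lam : ((Kx d π).X 0).obj (op O)) (hl : IsInt d Z (up π O) (lam ⟨2 * d, rfl⟩)) :
    ((sig d π hZ s hs).f 0).app O lam =
      ((-1 : ℂ) ^ d) • ((toCx (Kx d π)).X 0).res h1 lam := by
  have hU : Set.MapsTo (cj N) (up π O) (up π O) := fun x hx =>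
    hs O (Set.image_mono (Set.preimage_mono h2) hx)
  refine funext fun q => LinearMap.ext fun α => ?_
  obtain ⟨q, hq⟩ := q
  obtain rfl : q = 2 * d := hq
  refine (sig_app π hZ s hs 0 O lam ⟨2 * d, rfl⟩ α).trans ?_
  refine (IsInt.pull_cj h hZ hU hl ⟨α.1, ac_mono π h1 (2 * d) α.2⟩).trans ?_
  exact congrArg ((-1 : ℂ) ^ d * ·)
    (dualCx_rs (A := fun V q => Ac Z (up π V) q) 0 h1 lam ⟨2 * d, rfl⟩ α).symm

end Pool.Agent.PW.S
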