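import Pool.Agent.P.MP_65ad7c_ag.Base

open MeasureTheory Set Filter Topology Metric Matrix
open scoped ComplexOrder ContDiff Matrix.Norms.Frobenius RealInnerProductSpace ENNReal
open Pool.Agent.Lib.Sob

noncomputable section
namespace Pool.Agent.PW

variable {E : Type} [NormedAddCommGroup E] [InnerProductSpace ℝ E] [FiniteDimensional ℝ E]
  [MeasurableSpace E] [BorelSpace E] {r : ℕ} {U : Set E}
  {V W : Type} [NormedAddCommGroup V] [NormedSpace ℝ V] [NormedAddCommGroup W] [NormedSpace ℝ W]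

/-- a diffeomorphism between open sets -/
structure Diffeo (O O' : Set E) (T T' : E → E) : Prop where
  o : IsOpen O
  o' : IsOpen O'
  m : MapsTo T O O'
  m' : MapsTo T' O' O
  l : ∀ x ∈ O, T' (T x) = x
  r : ∀ y ∈ O', T (T' y) = y
  s : ContDiffOn ℝ ∞ T O
  s' : ContDiffOn ℝ ∞ T' O'

variable {O O' : Set E} {T T' : E → E}

theorem Diffeo.symm (h : Diffeo O O' T T') : Diffeo O' O T' T :=
  ⟨h.o', h.o, h.m', h.m, h.r, h.l, h.s', h.s⟩

omit [FiniteDimensional ℝ E] [MeasurableSpace E] [BorelSpace E] in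
theorem tcomp_hasFDerivAt (h : Diffeo O O' T T') {x : E} (hx : x ∈ O) :
    HasFDerivAt T (fderiv ℝ T x) x :=
  ((h.s.contDiffAt (h.o.mem_nhds hx)).differentiableAt (by simp)).hasFDerivAt

omit [FiniteDimensional ℝ E] [MeasurableSpace E] [BorelSpace E] in
theorem tcomp_injOn (h : Diffeo O O' T T') : InjOn T O := fun x hx y hy hxy => by
  rw [← h.l x hx, hxy, h.l y hy]

omit [FiniteDimensional ℝ E] [MeasurableSpace E] [BorelSpace E] in
theorem tcomp_image (h : Diffeo O O' T T') : T '' O = O' := by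
  refine Subset.antisymm h.m.image_subset fun y hy => ⟨T' y, h.m' hy, h.r y hy⟩

omit [FiniteDimensional ℝ E] [MeasurableSpace E] [BorelSpace E] in
theorem tcomp_cont_fderiv (h : Diffeo O O' T T') : ContinuousOn (fderiv ℝ T) O :=
  h.s.continuousOn_fderiv_of_isOpen h.o (by simp)

theorem Diffeo.det_ne (h : Diffeo O O' T T') {x : E} (hx : x ∈ O) : (fderiv ℝ T x).det ≠ 0 := by
  have h1 := tcomp_hasFDerivAt h hx
  have h2 := tcomp_hasFDerivAt h.symm (h.m hx)
  have h3 : HasFDerivAt (fun y => T' (T y)) ((fderiv ℝ T' (T x)).comp (fderiv ℝ T x)) x :=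
    h2.comp x h1
  have h4 : HasFDerivAt (fun y => T' (T y)) (ContinuousLinearMap.id ℝ E) x := by
    refine (hasFDerivAt_id x).congr_of_eventuallyEq ?_
    filter_upwards [h.o.mem_nhds hx] with y hy using h.l y hy
  have h5 := h3.unique h4
  intro h0
  have h6 : ((fderiv ℝ T' (T x)).comp (fderiv ℝ T x)).det
      = (fderiv ℝ T' (T x)).det * (fderiv ℝ T x).det :=
    LinearMap.det_comp ((fderiv ℝ T' (T x) : E →L[ℝ] E) : E →ₗ[ℝ] E)
      ((fderiv ℝ T x : E →L[ℝ] E) : E →ₗ[ℝ] E)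
  have h7 : (ContinuousLinearMap.id ℝ E).det = 1 := LinearMap.det_id
  rw [h5, h7, h0, mul_zero] at h6
  exact one_ne_zero h6

theorem Diffeo.ae_comp (h : Diffeo O O' T T') {p : E → Prop} (hp : ∀ᵐ y, y ∈ O' → p y) :
    ∀ᵐ x, x ∈ O → p (T x) := by
  have hd : DifferentiableOn ℝ T' {y | ¬ (y ∈ O' → p y)} := fun y hy => by
    have hy' : y ∈ O' := by
      by_contra hn
      exact hy fun hh => absurd hh hn
    exact (tcomp_hasFDerivAt h.symm hy').differentiableAt.differentiableWithinAt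
  have h0 := addHaar_image_eq_zero_of_differentiableOn_of_addHaar_eq_zero (volume : Measure E) hd
    (ae_iff.1 hp)
  refine ae_iff.2 (measure_mono_null (fun x hx => ?_) h0)
  have hx1 : x ∈ O := by
    by_contra hn
    exact hx fun hh => absurd hh hn
  exact ⟨T x, fun hh => hx fun _ => hh (h.m hx1), h.l x hx1⟩

theorem Diffeo.lintegral_comp (h : Diffeo O O' T T') (F : E → ℝ≥0∞) :
    ∫⁻ x in O, ENNReal.ofReal |(fderiv ℝ T x).det| * F (T x) = ∫⁻ y in O', F y := by
  rw [← tcomp_image h]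
  exact (lintegral_image_eq_lintegral_abs_det_fderiv_mul volume h.o.measurableSet
    (fun x hx => (tcomp_hasFDerivAt h hx).hasFDerivWithinAt) (tcomp_injOn h) F).symm

theorem Diffeo.integral_comp (h : Diffeo O O' T T') (F : E → V) :
    ∫ x in O, |(fderiv ℝ T x).det| • F (T x) = ∫ y in O', F y := by
  rw [← tcomp_image h]
  exact (integral_image_eq_integral_abs_det_fderiv_smul volume h.o.measurableSet
    (fun x hx => (tcomp_hasFDerivAt h hx).hasFDerivWithinAt) (tcomp_injOn h) F).symm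

theorem tcomp_lint_le (h : Diffeo O O' T T') {K : Set E} (hK : IsCompact K) (hKO : K ⊆ O) :
    ∃ C : ℝ≥0∞, C ≠ ⊤ ∧ ∀ F : E → ℝ≥0∞, ∫⁻ x in K, F (T x) ≤ C * ∫⁻ y in T '' K, F y := by
  have hc : ContinuousOn (fun x => |(fderiv ℝ T x).det|⁻¹) K := by
    refine ContinuousOn.inv₀ ?_ fun x hx => abs_ne_zero.2 (h.det_ne (hKO hx))
    exact (ContinuousLinearMap.continuous_det.comp_continuousOn
      ((tcomp_cont_fderiv h).mono hKO)).abs
  obtain ⟨C, hC⟩ := hK.exists_bound_of_continuousOn hc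
  refine ⟨ENNReal.ofReal C, ENNReal.ofReal_ne_top, fun F => ?_⟩
  rw [lintegral_image_eq_lintegral_abs_det_fderiv_mul volume hK.measurableSet
    (fun x hx => (tcomp_hasFDerivAt h (hKO hx)).hasFDerivWithinAt) ((tcomp_injOn h).mono hKO) F,
    ← lintegral_const_mul' _ _ ENNReal.ofReal_ne_top]
  refine setLIntegral_mono' hK.measurableSet fun x hx => ?_
  have hp : 0 < |(fderiv ℝ T x).det| := abs_pos.2 (h.det_ne (hKO hx))
  have h1 : |(fderiv ℝ T x).det|⁻¹ ≤ C := (le_abs_self _).trans (hC x hx)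
  have hC0 : 0 ≤ C := (inv_pos.2 hp).le.trans h1
  have h2 : (1 : ℝ) ≤ C * |(fderiv ℝ T x).det| := by
    have := mul_le_mul_of_nonneg_right h1 hp.le
    rwa [inv_mul_cancel₀ hp.ne'] at this
  rw [← mul_assoc, ← ENNReal.ofReal_mul hC0]
  exact le_mul_of_one_le_left' (ENNReal.one_le_ofReal.2 h2)

omit [NormedSpace ℝ V] in
theorem tcomp_aesm (h : Diffeo O O' T T') {K : Set E} (hK : IsCompact K) (hKO : K ⊆ O)
    {u : E → V} (hu : AEStronglyMeasurable u (volume.restrict (T '' K))) :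
    AEStronglyMeasurable (fun x => u (T x)) (volume.restrict K) := by
  have hK' : IsCompact (T '' K) := hK.image_of_continuousOn (h.s.continuousOn.mono hKO)
  have hT : AEMeasurable T (volume.restrict K) :=
    (h.s.continuousOn.mono hKO).aemeasurable hK.measurableSet
  have h1 : AEStronglyMeasurable (hu.mk u ∘ T) (volume.restrict K) :=
    hu.stronglyMeasurable_mk.aestronglyMeasurable.comp_aemeasurable hT
  refine h1.congr ?_
  have h2 : ∀ᵐ y, y ∈ T '' K → u y = hu.mk u y :=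
    (ae_restrict_iff' hK'.measurableSet).1 hu.ae_eq_mk
  have h3 : ∀ᵐ y, y ∈ O' → y ∈ T '' K → u y = hu.mk u y := h2.mono fun y hy _ => hy
  have h4 := h.ae_comp h3
  filter_upwards [ae_restrict_mem hK.measurableSet, ae_restrict_of_ae h4] with x hx hx'
  exact (hx' (hKO hx) ⟨x, hx, rfl⟩).symm

theorem Diffeo.locLp_comp (h : Diffeo O O' T T') {n : ℕ} (hn : 1 ≤ n) {u : E → V}
    (hu : LocLp n O' u) : LocLp n O fun x => u (T x) := by
  intro K hK hKO
  have hK' : IsCompact (T '' K) := hK.image_of_continuousOn (h.s.continuousOn.mono hKO)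
  have hKO' : T '' K ⊆ O' := (h.m.mono_left hKO).image_subset
  have h1 := hu _ hK' hKO'
  obtain ⟨C, hC, hle⟩ := tcomp_lint_le h hK hKO
  refine memLp_of_lintegral_pow hn (tcomp_aesm h hK hKO h1.1) ?_
  refine (hle fun y => ‖u y‖ₑ ^ n).trans_lt ?_
  exact ENNReal.mul_lt_top hC.lt_top (lintegral_pow_lt_top hn h1)

theorem Diffeo.wd_comp [CompleteSpace V] (h : Diffeo O O' T T') {n : ℕ} (hn : 1 ≤ n) {u : E → V}
    {D : E → E →L[ℝ] V} (hu : WD n O' u D) :
    WD n O (fun x => u (T x)) fun x => (D (T x)).comp (fderiv ℝ T x) := by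
  have l1 := h.locLp_comp hn hu.1
  have l2' := h.locLp_comp hn hu.2.1
  have l2 : LocLp n O fun x => (D (T x)).comp (fderiv ℝ T x) := by
    refine l2'.of_le_mul (tcomp_cont_fderiv h).norm (fun K hK hKO => ?_)
      (Eventually.of_forall fun x _ => ?_)
    · have h1 := ((tcomp_cont_fderiv h).mono hKO).aestronglyMeasurable hK.measurableSet
        (μ := volume)
      exact (ContinuousLinearMap.compL ℝ E E V).aestronglyMeasurable_comp₂ (l2' K hK hKO).1 h1
    · rw [mul_comm]
      exact ContinuousLinearMap.opNorm_comp_le _ _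
  refine WD.of_tendsto hn l1 l2 fun K hK hKO => ⟨O, hKO, ?_⟩
  have hK' : IsCompact (T '' K) := hK.image_of_continuousOn (h.s.continuousOn.mono hKO)
  have hKO' : T '' K ⊆ O' := (h.m.mono_left hKO).image_subset
  obtain ⟨v, hv, -, t1, t2⟩ := hu.approx hn h.o' hK' hKO'
  obtain ⟨C, hC, hle⟩ := tcomp_lint_le h hK hKO
  obtain ⟨M, hM⟩ := hK.exists_bound_of_continuousOn ((tcomp_cont_fderiv h).mono hKO)
  refine ⟨fun k x => v k (T x), fun k => fderiv ℝ fun x => v k (T x), fun k => ?_, ?_, ?_⟩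
  · refine WD.of_contDiffOn hn h.o ?_
    exact ((hv k).of_le (by simp)).comp_contDiffOn (h.s.of_le (by simp))
  · have t3 := ENNReal.Tendsto.const_mul (a := C) t1 (Or.inr hC)
    rw [mul_zero] at t3
    refine tendsto_of_tendsto_of_tendsto_of_le_of_le tendsto_const_nhds t3 (fun k => zero_le)
      fun k => hle fun y => ‖v k y - u y‖ₑ ^ n
  · have hM' : ENNReal.ofReal M ^ n ≠ ⊤ := ENNReal.pow_ne_top ENNReal.ofReal_ne_top
    have t3 := ENNReal.Tendsto.const_mul (a := ENNReal.ofReal M ^ n * C) t2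
      (Or.inr (ENNReal.mul_ne_top hM' hC))
    rw [mul_zero] at t3
    refine tendsto_of_tendsto_of_tendsto_of_le_of_le tendsto_const_nhds t3 (fun k => zero_le)
      fun k => ?_
    calc ∫⁻ x in K, ‖fderiv ℝ (fun x => v k (T x)) x - (D (T x)).comp (fderiv ℝ T x)‖ₑ ^ n
        ≤ ∫⁻ x in K, ENNReal.ofReal M ^ n * ‖fderiv ℝ (v k) (T x) - D (T x)‖ₑ ^ n := by
          refine setLIntegral_mono' hK.measurableSet fun x hx => ?_
          have h1 : fderiv ℝ (fun x => v k (T x)) x
              = (fderiv ℝ (v k) (T x)).comp (fderiv ℝ T x) :=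
            ((((hv k).differentiable (by simp)) (T x)).hasFDerivAt.comp x
              (tcomp_hasFDerivAt h (hKO hx))).fderiv
          rw [h1, ← ContinuousLinearMap.sub_comp, ← mul_pow]
          refine pow_le_pow_left' ?_ n
          rw [← ofReal_norm, ← ofReal_norm,
            ← ENNReal.ofReal_mul ((norm_nonneg _).trans (hM x hx))]
          refine ENNReal.ofReal_le_ofReal ((ContinuousLinearMap.opNorm_comp_le _ _).trans ?_)
          rw [mul_comm]
          exact mul_le_mul_of_nonneg_right (hM x hx) (norm_nonneg _)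
      _ = ENNReal.ofReal M ^ n * ∫⁻ x in K, ‖fderiv ℝ (v k) (T x) - D (T x)‖ₑ ^ n :=
          lintegral_const_mul' _ _ hM'
      _ ≤ ENNReal.ofReal M ^ n * (C * ∫⁻ y in T '' K, ‖fderiv ℝ (v k) y - D y‖ₑ ^ n) :=
          mul_le_mul_right (hle fun y => ‖fderiv ℝ (v k) y - D y‖ₑ ^ n) _
      _ = _ := (mul_assoc _ _ _).symm

end Pool.Agent.PW
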