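import Pool.Agent.P.MP_65ad7c_ag.TBil
import Pool.Agent.P.MP_65ad7c_ag.ABd
import Pool.Agent.P.MP_65ad7c_ag.ASg

open MeasureTheory Set Filter Topology Metric Matrix
open scoped ComplexOrder ContDiff Matrix.Norms.Frobenius RealInnerProductSpace ENNReal
open Pool.Agent.Lib.Sob

noncomputable section
namespace Pool.Agent.PW

variable {E : Type} [NormedAddCommGroup E] [InnerProductSpace ℝ E] [FiniteDimensional ℝ E]
  [MeasurableSpace E] [BorelSpace E] {r : ℕ} {U : Set E}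
  {V W : Type} [NormedAddCommGroup V] [NormedSpace ℝ V] [NormedAddCommGroup W] [NormedSpace ℝ W]

variable {u v h h' : E → Mat r} {D D' : E → E →L[ℝ] Mat r}

theorem LB.mul (h1 : LB U u) (h2 : LB U v) : LB U fun x => u x * v x :=
  h1.bilin (ContinuousLinearMap.mul ℝ (Mat r)) h2

theorem wd_mul (hU : IsOpen U) (h1 : WD 2 U u D) (h2 : WD 2 U v D') (b1 : LB U u) (b2 : LB U v) :
    WD 2 U (fun x => u x * v x) fun x => rmul (D x) (v x) + lmul (u x) (D' x) := by
  exact wd_bilin (by norm_num) hU (ContinuousLinearMap.mul ℝ (Mat r)) h1 h2 b1 b2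

theorem wd_mul_one (hU : IsOpen U) (h1 : WD 2 U u D) (h2 : WD 2 U v D') :
    WD 1 U (fun x => u x * v x) fun x => rmul (D x) (v x) + lmul (u x) (D' x) := by
  exact wd_bilin_one hU (ContinuousLinearMap.mul ℝ (Mat r)) h1 h2

theorem wd_smul (hU : IsOpen U) {η : E → ℝ} {Dη : E → E →L[ℝ] ℝ} (h1 : WD 2 U η Dη)
    (h2 : WD 2 U v D') (b1 : LB U η) (b2 : LB U v) :
    WD 2 U (fun x => η x • v x) fun x => η x • D' x + (Dη x).smulRight (v x) := by
  refine (wd_bilin (by norm_num) hU (ContinuousLinearMap.lsmul ℝ ℝ : ℝ →L[ℝ] Mat r →L[ℝ] Mat r)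
    h1 h2 b1 b2).congr' (fun _ _ => rfl) fun x _ => ?_
  refine ContinuousLinearMap.ext fun e => ?_
  simp [add_comm]

theorem wd_adj (h1 : WD 2 U u D) : WD 2 U (fun x => (u x)ᴴ) fun x => (adjL r).comp (D x) := by
  exact h1.clm (by norm_num) (adjL r)

theorem wd_inv (hU : IsOpen U) (h1 : WD 2 U u D)
    (hb : ∀ K, IsCompact K → K ⊆ U →
      ∃ C : ℝ, ∀ x ∈ K, IsUnit (u x).det ∧ ‖u x‖ ≤ C ∧ ‖(u x)⁻¹‖ ≤ C) :
    WD 2 U (fun x => (u x)⁻¹) fun x => -lmul (u x)⁻¹ (rmul (D x) (u x)⁻¹) := by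
  have hΩ : IsOpen {X : Mat r | IsUnit X} := Units.isOpen
  have hF : ContDiffOn ℝ 1 (Ring.inverse : Mat r → Mat r) {X : Mat r | IsUnit X} := by
    rintro _ ⟨y, rfl⟩
    exact (contDiffAt_ringInverse ℝ y).contDiffWithinAt
  have hu : ∀ x ∈ U, IsUnit (u x) := fun x hx => by
    obtain ⟨C, hC⟩ := hb {x} isCompact_singleton (singleton_subset_iff.2 hx)
    exact (Matrix.isUnit_iff_isUnit_det _).2 (hC x rfl).1
  refine (wd_chain (by norm_num) hU h1 hΩ hF fun K hK hKU => ?_).congr'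
    (fun x _ => (Matrix.nonsing_inv_eq_ringInverse _).symm) fun x hx => ?_
  · obtain ⟨C, hC⟩ := hb K hK hKU
    have hc : IsCompact ((closedBall (0 : Mat r) C ×ˢ closedBall (0 : Mat r) C) ∩
        {p : Mat r × Mat r | p.1 * p.2 = 1}) :=
      ((isCompact_closedBall _ _).prod (isCompact_closedBall _ _)).inter_right
        (isClosed_eq (continuous_fst.mul continuous_snd) continuous_const)
    refine ⟨_, hc.image continuous_fst, ?_, Eventually.of_forall fun x hx => ?_⟩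
    · rintro _ ⟨p, hp, rfl⟩
      exact (Matrix.isUnit_iff_isUnit_det _).2 (Matrix.isUnit_det_of_right_inverse hp.2)
    · obtain ⟨a, b, c⟩ := hC x hx
      exact ⟨(u x, (u x)⁻¹), ⟨⟨mem_closedBall_zero_iff.2 b, mem_closedBall_zero_iff.2 c⟩,
        Matrix.mul_nonsing_inv _ a⟩, rfl⟩
  · obtain ⟨y, hy⟩ := hu x hx
    rw [← hy, (hasFDerivAt_ringInverse (𝕜 := ℝ) y).fderiv]
    refine ContinuousLinearMap.ext fun e => ?_
    simp [mul_assoc]

theorem wd_gm (hU : IsOpen U) (h1 : WD 2 U h D) (h2 : WD 2 U u D') (b1 : LB U h) (b2 : LB U u) :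
    WD 2 U (fun x => gm (h x) (u x)) fun x => dgm (h x) (u x) (D x) (D' x) := by
  have b3 : LB U fun x => (u x)ᴴ := fun K hK hKU => by
    obtain ⟨C, hC⟩ := b2 K hK hKU
    exact ⟨C, fun x hx => by rw [Matrix.frobenius_norm_conjTranspose]; exact hC x hx⟩
  refine (wd_mul hU (wd_mul hU (wd_adj h2) h1 b3 b1) h2 (b3.mul b1) b2).congr'
    (fun _ _ => rfl) fun x _ => ?_
  refine ContinuousLinearMap.ext fun e => ?_
  simp [dgm, add_mul, mul_assoc]

/-- the derivative of a Hermitian function is Hermitian -/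
theorem wd_herm {n : ℕ} (hn : 1 ≤ n) (hU : IsOpen U) (h1 : WD n U h D)
    (hh : ∀ x ∈ U, (h x)ᴴ = h x) : ∀ᵐ x, x ∈ U → HermF (D x) := by
  have h2 : WD n U h fun x => (adjL r).comp (D x) :=
    (h1.clm hn (adjL r)).congr' hh fun _ _ => rfl
  filter_upwards [WD.unique hn hU h2 h1] with x hx hxU v
  exact congrArg (fun L : E →L[ℝ] Mat r => L v) (hx hxU)

end Pool.Agent.PW
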