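import Pool.Agent.P.MP_65ad7c_ag.TBil

open MeasureTheory Set Filter Topology Metric Matrix
open scoped ComplexOrder ContDiff Matrix.Norms.Frobenius RealInnerProductSpace ENNReal
open Pool.Agent.Lib.Sob

noncomputable section
namespace Pool.Agent.PW

variable {E : Type} [NormedAddCommGroup E] [InnerProductSpace ℝ E] [FiniteDimensional ℝ E]
  [MeasurableSpace E] [BorelSpace E] {r : ℕ} {U : Set E}
  {V W : Type} [NormedAddCommGroup V] [NormedSpace ℝ V] [NormedAddCommGroup W] [NormedSpace ℝ W]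

theorem tsob_tendsto_sub {α G : Type*} [MeasurableSpace α] {μ : Measure α}
    [NormedAddCommGroup G] {f : ℕ → α → G}
    (h : Tendsto (fun k => ∫⁻ x, ‖f k x‖ₑ ^ 2 ∂μ) atTop (𝓝 0)) :
    Tendsto (fun k => eLpNorm (f k) 2 μ) atTop (𝓝 0) := by
  simp only [lintegral_pow_eq (show 1 ≤ 2 by norm_num)] at h
  have := h.ennrpow_const ((2 : ℝ)⁻¹)
  rw [ENNReal.zero_rpow_of_pos (by norm_num)] at this
  refine this.congr fun k => ?_
  rw [← ENNReal.rpow_natCast, ← ENNReal.rpow_mul]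
  norm_num

theorem tsob_tendsto_norm {α G : Type*} [MeasurableSpace α] {μ : Measure α}
    [NormedAddCommGroup G] {f : ℕ → α → G} {g : α → G}
    (hf : ∀ k, AEStronglyMeasurable (f k) μ) (hg : MemLp g 2 μ)
    (h : Tendsto (fun k => eLpNorm (fun x => f k x - g x) 2 μ) atTop (𝓝 0)) :
    Tendsto (fun k => eLpNorm (f k) 2 μ) atTop (𝓝 (eLpNorm g 2 μ)) := by
  have lo := ENNReal.Tendsto.sub (tendsto_const_nhds (x := eLpNorm g 2 μ)) h (Or.inl hg.2.ne)
  have hi := h.add (tendsto_const_nhds (x := eLpNorm g 2 μ))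
  rw [tsub_zero] at lo
  rw [zero_add] at hi
  refine tendsto_of_tendsto_of_tendsto_of_le_of_le lo hi (fun k => ?_) fun k => ?_
  · rw [tsub_le_iff_right]
    have := eLpNorm_sub_le (p := 2) (hf k) ((hf k).sub hg.1) (by norm_num)
    rwa [sub_sub_cancel] at this
  · have := eLpNorm_add_le (p := 2) ((hf k).sub hg.1) hg.1 (by norm_num)
    rwa [sub_add_cancel] at this

theorem tsob_ind {α G : Type*} [MeasurableSpace α] {μ : Measure α}
    [NormedAddCommGroup G] {f : α → G} {K : Set α} (hK : MeasurableSet K)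
    (h : MemLp f 2 (μ.restrict K)) : MemLp (K.indicator f) 2 μ :=
  (memLp_indicator_iff_restrict hK).2 h

theorem tsob_ind_le {α G : Type*} [MeasurableSpace α] {μ : Measure α}
    [NormedAddCommGroup G] (K : Set α) (f : α → G) :
    eLpNorm (K.indicator f) 2 μ ≤ eLpNorm f 2 μ := eLpNorm_indicator_le _

theorem tsob_sq {α : Type*} [MeasurableSpace α] {μ : Measure α} (f : α → ℝ) :
    eLpNorm f 2 μ ^ 2 = eLpNorm (fun x => f x * f x) 1 μ := by
  have := lintegral_pow_eq (μ := μ) (show 1 ≤ 2 by norm_num) f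
  rw [Nat.cast_ofNat] at this
  rw [← this, eLpNorm_one_eq_lintegral_enorm]
  simp only [enorm_mul, sq]

theorem tsob_smooth (hE : 2 ≤ Module.finrank ℝ E) : ∃ C : NNReal,
    ∀ (φ : E → ℝ) (S : Set E), ContDiff ℝ ∞ φ → HasCompactSupport φ →
      eLpNorm φ 2 (volume.restrict S) ^ 2 ≤ C * eLpNorm φ 2 volume *
        eLpNorm (fderiv ℝ φ) 2 volume * volume S ^ ((Module.finrank ℝ E : ℝ)⁻¹) := by
  have hd : (1 : NNReal) < (Module.finrank ℝ E : NNReal) := by exact_mod_cast hE
  set p : NNReal := NNReal.conjExponent (Module.finrank ℝ E : NNReal)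
  have hp : NNReal.HolderConjugate (Module.finrank ℝ E) p :=
    NNReal.HolderConjugate.conjExponent hd
  refine ⟨eLpNormLESNormFDerivOneConst (volume : Measure E) p * 2, fun φ S hφ hc => ?_⟩
  have h1 : ContDiff ℝ 1 φ := hφ.of_le (by simp)
  have cd : Continuous (fderiv ℝ φ) := hφ.continuous_fderiv (by simp)
  have gn := eLpNorm_le_eLpNorm_fderiv_one (volume : Measure E) (u := fun x => φ x * φ x)
    (h1.mul h1) hc.mul_right hp
  have hder : fderiv ℝ (fun x => φ x * φ x) = fun x => (2 * φ x) • fderiv ℝ φ x := by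
    funext x
    rw [fderiv_fun_mul (h1.differentiable one_ne_zero x) (h1.differentiable one_ne_zero x),
      two_mul, add_smul]
  have ho := eLpNorm_le_eLpNorm_mul_eLpNorm'_of_norm (μ := (volume : Measure E)) (p := 2) (q := 2)
    (r := 1) hφ.continuous.aestronglyMeasurable cd.aestronglyMeasurable
    (fun (a : ℝ) (L : E →L[ℝ] ℝ) => (2 * a) • L) 2 (Eventually.of_forall fun x => by
      simp [norm_smul])
  have hS := eLpNorm_le_eLpNorm_mul_rpow_measure_univ (μ := volume.restrict S) (p := 1) (q := p)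
    (f := fun x => φ x * φ x) (by exact_mod_cast hp.symm.lt.le)
    (hφ.continuous.mul hφ.continuous).aestronglyMeasurable
  have he : 1 / (1 : ℝ≥0∞).toReal - 1 / (p : ℝ≥0∞).toReal = (Module.finrank ℝ E : ℝ)⁻¹ := by
    have := hp.coe.inv_add_inv_eq_one
    simp only [NNReal.coe_natCast] at this
    simp only [ENNReal.toReal_one, ENNReal.coe_toReal, one_div]
    linarith
  rw [he, Measure.restrict_apply_univ] at hS
  rw [tsob_sq]
  refine hS.trans (mul_le_mul_left ?_ _)
  refine (eLpNorm_restrict_le _ _ _ _).trans (gn.trans ?_)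
  rw [hder, ENNReal.coe_mul, mul_assoc, mul_assoc, ← mul_assoc ((2 : NNReal) : ℝ≥0∞)]
  exact mul_le_mul_right ho _

/-- the Sobolev step of the De Giorgi iteration:
`∫ v² ≤ C ‖v‖₂ ‖Dv‖₂ |{v ≠ 0}|^{1/d}` (apply the `L¹` Gagliardo-Nirenberg inequality to `v²`) -/
theorem sobolev_step (hE : 2 ≤ Module.finrank ℝ E) : ∃ C : ℝ, 0 < C ∧
    ∀ (v : E → ℝ) (D : E → E →L[ℝ] ℝ) (K S : Set E), WD 2 univ v D → IsCompact K →
      MeasurableSet S → (∀ x, x ∉ K → v x = 0) → (∀ᵐ x, x ∉ S → v x = 0) →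
      eLpNorm v 2 volume ^ 2 ≤ ENNReal.ofReal C * eLpNorm v 2 volume * eLpNorm D 2 volume *
        volume S ^ ((Module.finrank ℝ E : ℝ)⁻¹) := by
  obtain ⟨C, hC⟩ := tsob_smooth hE
  refine ⟨C + 1, by positivity, fun v D K S h hK hS h0 hS0 => ?_⟩
  obtain ⟨K', -, -, -, φ, hφ, t1, t2⟩ :=
    h.approx_test (by norm_num) isOpen_univ hK (subset_univ _) (fun x _ hx => h0 x hx)
  have ev : K.indicator v = v := indicator_eq_self.2 fun x hx => by
    by_contra h'; exact hx (h0 x h')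
  rw [ev] at t1
  have mv : MemLp v 2 volume := by
    simpa using h.1.memLp_of_support hK (subset_univ _) h0
  have mD : MemLp (K.indicator D) 2 volume := by
    have m : MemLp D 2 (volume.restrict K) := by simpa using h.2.1 K hK (subset_univ _)
    exact tsob_ind hK.measurableSet m
  have s1 := tsob_tendsto_sub t1
  have s2 := tsob_tendsto_sub t2
  have s3 : Tendsto (fun k => eLpNorm (fun x => φ k x - v x) 2 (volume.restrict (S ∩ K))) atTop
      (𝓝 0) := tendsto_of_tendsto_of_tendsto_of_le_of_le tendsto_const_nhds s1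
    (fun _ => zero_le) fun k => eLpNorm_restrict_le _ _ _ _
  have n1 := tsob_tendsto_norm (fun k => (hφ k).continuous.aestronglyMeasurable) mv s1
  have n2 := tsob_tendsto_norm (fun k => (hφ k).continuous_fderiv.aestronglyMeasurable) mD s2
  have n3 := tsob_tendsto_norm (fun k => (hφ k).continuous.aestronglyMeasurable)
    (mv.restrict (S ∩ K)) s3
  have hfin : volume (S ∩ K) ^ ((Module.finrank ℝ E : ℝ)⁻¹) ≠ ⊤ :=
    ENNReal.rpow_ne_top_of_nonneg (by positivity)
      ((measure_mono inter_subset_right).trans_lt hK.measure_lt_top).ne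
  have n4 := ENNReal.Tendsto.mul_const (ENNReal.Tendsto.mul
    (ENNReal.Tendsto.const_mul (a := (C : ℝ≥0∞)) n1 (Or.inr ENNReal.coe_ne_top))
    (Or.inr mD.2.ne) n2 (Or.inr (ENNReal.mul_ne_top ENNReal.coe_ne_top mv.2.ne))) (Or.inr hfin)
  have key := le_of_tendsto_of_tendsto' (ENNReal.Tendsto.pow (n := 2) n3) n4
    fun k => hC (φ k) (S ∩ K) (hφ k).1 (hφ k).2.1
  have er : eLpNorm v 2 (volume.restrict (S ∩ K)) = eLpNorm v 2 volume := by
    rw [← eLpNorm_indicator_eq_eLpNorm_restrict (hS.inter hK.measurableSet)]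
    refine eLpNorm_congr_ae ?_
    filter_upwards [hS0] with x hx
    by_cases hx' : x ∈ S ∩ K
    · simp [hx']
    · rw [indicator_of_notMem hx']
      by_cases hxS : x ∈ S
      · exact (h0 x fun hxK => hx' ⟨hxS, hxK⟩).symm
      · exact (hx hxS).symm
  rw [er] at key
  refine key.trans ?_
  refine mul_le_mul' (mul_le_mul' (mul_le_mul' ?_ le_rfl) (tsob_ind_le K D))
    (ENNReal.rpow_le_rpow (measure_mono inter_subset_left) (by positivity))
  rw [← ENNReal.ofReal_coe_nnreal]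
  exact ENNReal.ofReal_le_ofReal (by linarith)

/-- the geometric iteration lemma -/
theorem iter_tendsto {Y : ℕ → ℝ} {C b δ : ℝ} (hC : 0 < C) (hb : 1 ≤ b) (hδ : 0 < δ)
    (h0 : ∀ j, 0 ≤ Y j) (hs : ∀ j, Y (j + 1) ≤ C * b ^ j * Y j ^ (1 + δ))
    (hY : Y 0 ≤ C ^ (-δ⁻¹) * b ^ (-(δ ^ 2)⁻¹)) (hb1 : 1 < b) : Tendsto Y atTop (𝓝 0) := by
  have hb0 : 0 < b := by linarith
  set q : ℝ := b ^ (-δ⁻¹) with hq
  have hq0 : 0 < q := Real.rpow_pos_of_pos hb0 _
  have hq1 : q < 1 := Real.rpow_lt_one_of_one_lt_of_neg hb1 (by simpa using hδ)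
  have hqδ : q ^ δ = b⁻¹ := by
    rw [hq, ← Real.rpow_mul hb0.le, neg_mul, inv_mul_cancel₀ hδ.ne', Real.rpow_neg_one]
  have hY0 : Y 0 ^ δ ≤ C⁻¹ * q := by
    refine (Real.rpow_le_rpow (h0 0) hY hδ.le).trans (le_of_eq ?_)
    rw [Real.mul_rpow (Real.rpow_nonneg hC.le _) (Real.rpow_nonneg hb0.le _),
      ← Real.rpow_mul hC.le, ← Real.rpow_mul hb0.le, neg_mul, inv_mul_cancel₀ hδ.ne',
      Real.rpow_neg_one, hq]
    congr 2
    field_simp
  have key : ∀ j, Y j ≤ Y 0 * q ^ j := by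
    intro j
    induction j with
    | zero => simp
    | succ j ih =>
      have hA : 0 ≤ Y 0 * q ^ j := mul_nonneg (h0 0) (pow_nonneg hq0.le _)
      have e1 : Y j ^ (1 + δ) ≤ (Y 0 * q ^ j) * (Y 0 ^ δ * b⁻¹ ^ j) := by
        refine (Real.rpow_le_rpow (h0 j) ih (by linarith)).trans (le_of_eq ?_)
        rw [Real.rpow_add' hA (by linarith), Real.rpow_one,
          Real.mul_rpow (h0 0) (pow_nonneg hq0.le _), ← Real.rpow_natCast q j,
          ← Real.rpow_mul hq0.le, mul_comm (j : ℝ) δ, Real.rpow_mul hq0.le, hqδ,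
          Real.rpow_natCast, Real.rpow_natCast]
      calc Y (j + 1) ≤ C * b ^ j * Y j ^ (1 + δ) := hs j
        _ ≤ C * b ^ j * ((Y 0 * q ^ j) * ((C⁻¹ * q) * b⁻¹ ^ j)) := by
          refine mul_le_mul_of_nonneg_left (e1.trans ?_) (by positivity)
          gcongr
        _ = Y 0 * q ^ (j + 1) := by
          rw [inv_pow]
          field_simp
          ring
  have lim := (tendsto_pow_atTop_nhds_zero_of_lt_one hq0.le hq1).const_mul (Y 0)
  rw [mul_zero] at lim
  exact tendsto_of_tendsto_of_tendsto_of_le_of_le tendsto_const_nhds lim h0 key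

end Pool.Agent.PW
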