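import Pool.Agent.P.MP_65ad7c_ag.Base

open MeasureTheory Set Filter Topology Metric Matrix
open scoped ComplexOrder ContDiff Matrix.Norms.Frobenius RealInnerProductSpace ENNReal
open Pool.Agent.Lib.Sob

noncomputable section
namespace Pool.Agent.PW

variable {E : Type} [NormedAddCommGroup E] [InnerProductSpace ℝ E] [FiniteDimensional ℝ E]
  [MeasurableSpace E] [BorelSpace E] {r : ℕ} {U : Set E}
  {V W : Type} [NormedAddCommGroup V] [NormedSpace ℝ V] [NormedAddCommGroup W] [NormedSpace ℝ W]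

theorem tweak_hilbert {H : Type} [NormedAddCommGroup H] [InnerProductSpace ℝ H] [CompleteSpace H]
    (u : ℕ → H) (h : ∀ w, CauchySeq fun m => ⟪w, u m⟫) :
    ∃ g : H, ∀ w, Tendsto (fun m => ⟪w, u m⟫) atTop (𝓝 ⟪w, g⟫) := by
  choose l hl using fun w => cauchySeq_tendsto_of_complete (h w)
  have ht : Tendsto (fun m x => (innerSL ℝ (u m)) x) atTop (𝓝 l) := by
    refine tendsto_pi_nhds.2 fun w => ?_
    simpa only [innerSL_apply_apply, real_inner_comm] using hl w
  refine ⟨(InnerProductSpace.toDual ℝ H).symm (continuousLinearMapOfTendsto _ ht), fun w => ?_⟩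
  rw [real_inner_comm, InnerProductSpace.toDual_symm_apply]
  exact hl w

theorem tweak_inner {α : Type} [MeasurableSpace α] {μ : Measure α} {a b : α → ℝ}
    (ha : MemLp a 2 μ) (hb : MemLp b 2 μ) : ⟪ha.toLp a, hb.toLp b⟫ = ∫ x, a x * b x ∂μ := by
  rw [L2.inner_def]
  refine integral_congr_ae ?_
  filter_upwards [ha.coeFn_toLp, hb.coeFn_toLp] with x h1 h2
  rw [h1, h2]
  simp [mul_comm]

theorem tweak_cs {α : Type} [MeasurableSpace α] {μ : Measure α} {a b : α → ℝ}
    (ha : MemLp a 2 μ) (hb : MemLp b 2 μ) :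
    |∫ x, a x * b x ∂μ| ≤ (eLpNorm a 2 μ).toReal * (eLpNorm b 2 μ).toReal := by
  rw [← tweak_inner ha hb, ← Lp.norm_toLp a ha, ← Lp.norm_toLp b hb]
  exact abs_real_inner_le_norm _ _

theorem tweak_two {α : Type} [MeasurableSpace α] {μ : Measure α} {a : α → ℝ}
    (ha : MemLp a ((2 : ℕ) : ℝ≥0∞) μ) : MemLp a 2 μ := by
  simpa using ha

theorem tweak_two' {α : Type} [MeasurableSpace α] {μ : Measure α} {a : α → ℝ}
    (ha : MemLp a 2 μ) : MemLp a ((2 : ℕ) : ℝ≥0∞) μ := by
  simpa using ha

/-- approximation by test functions -/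
theorem tweak_approx {K : Set E} (hK : IsCompact K) {δ : ℝ} (hδ : 0 < δ) {g : E → ℝ}
    (hg : MemLp g 2 volume) (h0 : ∀ x ∉ K, g x = 0) {ε : ℝ} (hε : 0 < ε) :
    ∃ φ : E → ℝ, IsTest (cthickening δ K) φ ∧
      eLpNorm (fun x => φ x - g x) 2 volume ≤ ENNReal.ofReal ε := by
  have h1 := tendsto_lintegral_moll (n := 2) (by norm_num) (tweak_two' hg)
  have hpos : (0 : ℝ≥0∞) < ENNReal.ofReal ε ^ 2 :=
    ENNReal.pow_pos (ENNReal.ofReal_pos.2 hε) 2
  have h2 := h1.eventually (eventually_le_nhds hpos)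
  have h3 := (tendsto_one_div_add_atTop_nhds_zero_nat (𝕜 := ℝ)).eventually (eventually_le_nhds hδ)
  obtain ⟨k, hk2, hk3⟩ := (h2.and h3).exists
  have hl : LocallyIntegrable g := hg.locallyIntegrable (by norm_num)
  have hs : tsupport (moll k g) ⊆ cthickening δ K :=
    closure_minimal (fun x hx => by
      by_contra h
      exact hx (moll_eq_zero h0 fun h' => h (cthickening_mono hk3 K h'))) isClosed_cthickening
  refine ⟨moll k g, ⟨contDiff_moll k hl, hK.cthickening.of_isClosed_subset (isClosed_tsupport _) hs,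
    hs⟩, ?_⟩
  rw [lintegral_pow_eq (n := 2) (by norm_num) (fun x => moll k g x - g x)] at hk2
  have := (ENNReal.pow_le_pow_left_iff (n := 2) (by norm_num)).1 hk2
  simpa using this

/-- weak limits, scalar case on one compact set: the limit functional is an `L²` function -/
theorem exists_weak_limit {K : Set E} (hK : IsCompact K) (hU : IsOpen U) (hKU : K ⊆ U)
    {f : ℕ → E → ℝ} (hf : ∀ m, LocLp 2 U (f m))
    (hb : ∀ K', IsCompact K' → K' ⊆ U → ∃ C : ℝ, ∀ m, N2 K' (f m) ≤ ENNReal.ofReal C)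
    (hc : ∀ φ, IsTest U φ → ∃ l, Tendsto (fun m => ∫ x, φ x * f m x) atTop (𝓝 l)) :
    ∃ g : E → ℝ, MemLp g 2 (volume.restrict K) ∧ ∀ w : E → ℝ, MemLp w 2 (volume.restrict K) →
      Tendsto (fun m => ∫ x in K, w x * f m x) atTop (𝓝 (∫ x in K, w x * g x)) := by
  obtain ⟨δ, hδ, hδU⟩ := hK.exists_cthickening_subset_open hU hKU
  have hK' : IsCompact (cthickening δ K) := hK.cthickening
  obtain ⟨C, hC⟩ := hb _ hK' hδU
  have hfK : ∀ m, MemLp (f m) 2 (volume.restrict K) := fun m => tweak_two (hf m K hK hKU)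
  have hfK' : ∀ m, MemLp (f m) 2 (volume.restrict (cthickening δ K)) :=
    fun m => tweak_two (hf m _ hK' hδU)
  have hcau : ∀ w : E → ℝ, MemLp w 2 (volume.restrict K) →
      CauchySeq fun m => ∫ x in K, w x * f m x := by
    intro w hw
    have hw' : MemLp (K.indicator w) 2 volume := (memLp_indicator_iff_restrict hK.measurableSet).2 hw
    refine Metric.cauchySeq_iff.2 fun ε hε => ?_
    have hC1 : 0 < |C| + 1 := by positivity
    obtain ⟨φ, hφ, hφw⟩ := tweak_approx hK hδ hw' (fun x hx => indicator_of_notMem hx w)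
      (ε := ε / 3 / (|C| + 1)) (by positivity)
    obtain ⟨l, hl⟩ := hc φ (hφ.mono hδU)
    obtain ⟨N, hN⟩ := Metric.cauchySeq_iff.1 hl.cauchySeq (ε / 3) (by positivity)
    have hφ2 : MemLp φ 2 volume := hφ.continuous.memLp_of_hasCompactSupport hφ.2.1
    have key : ∀ m, |(∫ x, φ x * f m x) - ∫ x in K, w x * f m x| ≤ ε / 3 := by
      intro m
      have e1 : ∫ x, φ x * f m x = ∫ x in cthickening δ K, φ x * f m x :=
        (setIntegral_eq_integral_of_forall_compl_eq_zero fun x hx => by
          rw [hφ.zero_of_notMem hx, zero_mul]).symm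
      have e2 : ∫ x in K, w x * f m x = ∫ x in cthickening δ K, K.indicator w x * f m x := by
        rw [setIntegral_eq_integral_of_forall_compl_eq_zero (s := cthickening δ K) fun x hx => by
          rw [indicator_of_notMem (fun h => hx (self_subset_cthickening K h)), zero_mul],
          ← integral_indicator hK.measurableSet]
        refine integral_congr_ae (Eventually.of_forall fun x => ?_)
        by_cases hx : x ∈ K <;> simp [hx]
      have i1 : Integrable (fun x => φ x * f m x) (volume.restrict (cthickening δ K)) :=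
        (hφ2.restrict _).integrable_mul (hfK' m)
      have i2 : Integrable (fun x => K.indicator w x * f m x) (volume.restrict (cthickening δ K)) :=
        (hw'.restrict _).integrable_mul (hfK' m)
      rw [e1, e2, ← integral_sub i1 i2]
      have h1 := tweak_cs ((hφ2.sub hw').restrict (cthickening δ K)) (hfK' m)
      have h2 : (eLpNorm (φ - K.indicator w) 2 (volume.restrict (cthickening δ K))).toReal ≤
          ε / 3 / (|C| + 1) :=
        ENNReal.toReal_le_of_le_ofReal (by positivity)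
          ((eLpNorm_mono_measure _ Measure.restrict_le_self).trans hφw)
      have h3 : (eLpNorm (f m) 2 (volume.restrict (cthickening δ K))).toReal ≤ |C| + 1 :=
        ENNReal.toReal_le_of_le_ofReal hC1.le ((hC m).trans (ENNReal.ofReal_le_ofReal
          (by linarith [le_abs_self C])))
      have h4 := mul_le_mul h2 h3 ENNReal.toReal_nonneg (by positivity)
      rw [div_mul_cancel₀ _ hC1.ne'] at h4
      refine le_trans (le_of_eq ?_) (h1.trans h4)
      congr 1
      refine integral_congr_ae (Eventually.of_forall fun x => ?_)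
      simp only [Pi.sub_apply, sub_mul]
    refine ⟨N, fun m hm n hn => ?_⟩
    have a1 := abs_le.1 (key m)
    have a2 := abs_le.1 (key n)
    have a3 := hN m hm n hn
    rw [Real.dist_eq, abs_lt] at a3 ⊢
    constructor <;> linarith [a1.1, a1.2, a2.1, a2.2, a3.1, a3.2]
  obtain ⟨g, hg⟩ := tweak_hilbert (fun m => (hfK m).toLp (f m)) fun w => by
    have := hcau w (Lp.memLp w)
    simpa only [← tweak_inner (Lp.memLp w) (hfK _), Lp.toLp_coeFn] using this
  refine ⟨g, Lp.memLp g, fun w hw => ?_⟩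
  have := hg (hw.toLp w)
  rw [← Lp.toLp_coeFn g (Lp.memLp g), tweak_inner] at this
  simpa only [tweak_inner] using this

/-- `g` represents the weak limit on `K` -/
def TweakRep (f : ℕ → E → ℝ) (K : Set E) (g : E → ℝ) : Prop :=
  MemLp g 2 (volume.restrict K) ∧ ∀ w : E → ℝ, MemLp w 2 (volume.restrict K) →
    Tendsto (fun m => ∫ x in K, w x * f m x) atTop (𝓝 (∫ x in K, w x * g x))

theorem TweakRep.mono {f : ℕ → E → ℝ} {K L : Set E} {g : E → ℝ} (h : TweakRep f L g)
    (hK : MeasurableSet K) (hKL : K ⊆ L) : TweakRep f K g := by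
  refine ⟨h.1.mono_measure (Measure.restrict_mono hKL le_rfl), fun w hw => ?_⟩
  have hw' : MemLp (K.indicator w) 2 (volume.restrict L) :=
    ((memLp_indicator_iff_restrict hK).2 hw).restrict L
  have e : ∀ v : E → ℝ, ∫ x in L, K.indicator w x * v x = ∫ x in K, w x * v x := by
    intro v
    rw [setIntegral_eq_integral_of_forall_compl_eq_zero (s := L) fun x hx => by
      rw [indicator_of_notMem (fun h => hx (hKL h)), zero_mul], ← integral_indicator hK]
    refine integral_congr_ae (Eventually.of_forall fun x => ?_)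
    by_cases hx : x ∈ K <;> simp [hx]
  simpa only [e] using h.2 _ hw'

theorem TweakRep.unique {f : ℕ → E → ℝ} {K : Set E} {g g' : E → ℝ} (h : TweakRep f K g)
    (h' : TweakRep f K g') : g =ᵐ[volume.restrict K] g' := by
  have e : h.1.toLp g = h'.1.toLp g' := by
    refine ext_inner_left ℝ fun w => ?_
    rw [← Lp.toLp_coeFn w (Lp.memLp w), tweak_inner, tweak_inner]
    exact tendsto_nhds_unique (h.2 _ (Lp.memLp w)) (h'.2 _ (Lp.memLp w))
  exact (MemLp.toLp_eq_toLp_iff h.1 h'.1).1 e

theorem TweakRep.congr {f : ℕ → E → ℝ} {K : Set E} {g g' : E → ℝ} (h : TweakRep f K g)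
    (e : g =ᵐ[volume.restrict K] g') : TweakRep f K g' := by
  refine ⟨h.1.ae_eq e, fun w hw => ?_⟩
  have : ∫ x in K, w x * g' x = ∫ x in K, w x * g x :=
    integral_congr_ae (e.mono fun x hx => by simp only [hx])
  rw [this]
  exact h.2 w hw

omit [MeasurableSpace E] [BorelSpace E] in
theorem tweak_exh (hU : IsOpen U) : ∃ L : ℕ → Set E, (∀ j, IsCompact (L j) ∧ L j ⊆ U) ∧
    ∀ K, IsCompact K → K ⊆ U → ∃ j, K ⊆ L j := by
  refine ⟨fun j => closedBall 0 j \ thickening (1 / ((j : ℝ) + 1)) Uᶜ, fun j => ⟨?_, ?_⟩, ?_⟩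
  · exact (isCompact_closedBall _ _).diff isOpen_thickening
  · intro x hx
    by_contra h
    exact hx.2 (self_subset_thickening (by positivity) _ h)
  · intro K hK hKU
    obtain ⟨δ, hδ, hδU⟩ := hK.exists_thickening_subset_open hU hKU
    obtain ⟨R, hR⟩ := hK.isBounded.subset_closedBall (0 : E)
    have h3 := (tendsto_one_div_add_atTop_nhds_zero_nat (𝕜 := ℝ)).eventually (eventually_le_nhds hδ)
    have h4 := (tendsto_natCast_atTop_atTop (R := ℝ)).eventually (eventually_ge_atTop R)
    obtain ⟨j, hj3, hj4⟩ := (h3.and h4).exists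
    refine ⟨j, fun x hx => ⟨closedBall_subset_closedBall hj4 (hR hx), fun h => ?_⟩⟩
    obtain ⟨y, hy, hxy⟩ := mem_thickening_iff.1 h
    exact hy (hδU (mem_thickening_iff.2 ⟨x, hx, by rw [dist_comm]; exact hxy.trans_le hj3⟩))

/-- weak limits on an open set -/
theorem exists_weak_limit_loc (hU : IsOpen U) {f : ℕ → E → ℝ} (hf : ∀ m, LocLp 2 U (f m))
    (hb : ∀ K', IsCompact K' → K' ⊆ U → ∃ C : ℝ, ∀ m, N2 K' (f m) ≤ ENNReal.ofReal C)
    (hc : ∀ φ, IsTest U φ → ∃ l, Tendsto (fun m => ∫ x, φ x * f m x) atTop (𝓝 l)) :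
    ∃ g : E → ℝ, LocLp 2 U g ∧ ∀ K, IsCompact K → K ⊆ U → ∀ w : E → ℝ,
      MemLp w 2 (volume.restrict K) →
      Tendsto (fun m => ∫ x in K, w x * f m x) atTop (𝓝 (∫ x in K, w x * g x)) := by
  classical
  obtain ⟨L, hL, hLK⟩ := tweak_exh hU
  have hG : ∀ j, ∃ g, TweakRep f (L j) g := fun j =>
    exists_weak_limit (hL j).1 hU (hL j).2 hf hb hc
  choose G hG using hG
  have key : ∀ K, IsCompact K → K ⊆ U →
      TweakRep f K fun x => if h : ∃ i, x ∈ L i then G (Nat.find h) x else 0 := by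
    intro K hK hKU
    obtain ⟨j, hj⟩ := hLK K hK hKU
    refine ((hG j).mono hK.measurableSet hj).congr ?_
    have h1 : ∀ i, ∀ᵐ x, x ∈ K ∩ L i → G j x = G i x := fun i => by
      have hm : MeasurableSet (K ∩ L i) := hK.measurableSet.inter (hL i).1.measurableSet
      exact (ae_restrict_iff' hm).1 (((hG j).mono hm (inter_subset_left.trans hj)).unique
        ((hG i).mono hm inter_subset_right))
    refine (ae_restrict_iff' hK.measurableSet).2 ?_
    filter_upwards [ae_all_iff.2 h1] with x hx hxK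
    have hex : ∃ i, x ∈ L i := ⟨j, hj hxK⟩
    simp only [dif_pos hex]
    exact hx _ ⟨hxK, Nat.find_spec hex⟩
  exact ⟨_, fun K hK hKU => tweak_two' (key K hK hKU).1, fun K hK hKU => (key K hK hKU).2⟩

end Pool.Agent.PW
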