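import Pool.Agent.P.MP_65ad7c_ag.XI1
import Pool.Agent.P.MP_65ad7c_ag.VPrime

open Set Filter Topology Asymptotics
open scoped ComplexConjugate
open Pool.Agent.HT (Amb proj cj IsChart IsSNC)
open Pool.Agent.PWV (ZC ZI Dim)

noncomputable section
namespace Pool.Agent.HIR

variable {n N : ℕ}

theorem thin_hyper {u : Fin N → ℂ} (hu : u ≠ 0) : Weil.Thin N {c : Fin N → ℂ | c ⬝ᵥ u = 0} := by
  obtain ⟨i, hi⟩ := Function.ne_iff.1 hu
  have ha : AnalyticOnNhd ℂ (fun c : Fin N → ℂ => c ⬝ᵥ u) univ := fun c _ =>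
    Finset.analyticAt_fun_sum _ fun j _ =>
      ((ContinuousLinearMap.proj (R := ℂ) (φ := fun _ : Fin N => ℂ) j).analyticAt c).mul
        analyticAt_const
  have h := Weil.thin_zero_set isOpen_univ isPreconnected_univ ha
    ⟨Pi.single i 1, mem_univ _, by simpa using hi⟩
  exact h.mono (fun c hc => ⟨mem_univ _, hc⟩) (by simp)

theorem lin_XM3 (c : Fin (N + 1) → ℂ) : ∃ δ : MvPolynomial (Fin N) ℂ, ∀ y : Fin N → ℂ,
    MvPolynomial.eval y δ = c ⬝ᵥ (Fin.cons 1 y : Fin (N + 1) → ℂ) :=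
  ⟨MvPolynomial.C (c 0) + ∑ j, MvPolynomial.C (c j.succ) * MvPolynomial.X j, fun y => by
    simp [dotProduct, Fin.sum_univ_succ]⟩

/-- generic hyperplane sections have smaller dimension -/
theorem thin_dim {V : Set (Fin N → ℂ)} (hV : ZC V) {k : ℕ} (hd : Dim V k) :
    Weil.Thin (N + 1) {c : Fin (N + 1) → ℂ |
      ¬ Dim (V ∩ {y | c ⬝ᵥ (Fin.cons 1 y : Fin (N + 1) → ℂ) = 0}) (k - 1)} := by
  cases k with
  | zero =>
    refine (Weil.thin_empty _).mono (fun c hc => hc ?_) le_rfl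
    exact hd.mono inter_subset_left
  | succ e =>
    obtain ⟨s, h1, h2, -, rfl⟩ := hV.exists_primes
    have h3 : ∀ p : s, ∃ y, y ∈ ZI p.1 := fun p => by
      by_contra h
      exact (h2 p p.2).ne_top ((Ideal.eq_top_iff_one _).2
        (PWV.null (h2 p p.2) fun x hx => absurd ⟨x, hx⟩ h))
    choose y hy using h3
    have : Finite s := h1.to_subtype
    refine (Weil.thin_iUnion fun p : s => thin_hyper (cons_ne (y p))).mono (fun c hc => ?_) le_rfl
    by_contra h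
    simp only [mem_iUnion, not_exists] at h
    refine hc ?_
    obtain ⟨δ, hδ⟩ := lin_XM3 c
    rw [iUnion₂_inter]
    refine PWV.dim_biUnion h1 fun p hp => ?_
    have h4 : δ ∉ p := fun h5 => h ⟨p, hp⟩ ((hδ _).symm.trans (hy ⟨p, hp⟩ δ h5))
    refine (PWV.drop (h2 p hp) h4 (hd.mono (subset_biUnion_of_mem (u := ZI) hp))).mono ?_
    exact fun x hx => ⟨hx.1, (hδ x).trans hx.2⟩

theorem zc_hyp (c : Fin (N + 1) → ℂ) :
    ZC {y : Fin N → ℂ | c ⬝ᵥ (Fin.cons 1 y : Fin (N + 1) → ℂ) = 0} := by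
  obtain ⟨δ, hδ⟩ := lin_XM3 c
  simpa only [hδ] using PWV.zc_zero δ

/-- add a transverse real hyperplane section to the divisor -/
theorem Tv.add {S : Sp n} {ph : Amb S.M → Amb N} {c : Fin N → ℂ} (h : Tv S ph c)
    (hph : HolP n S.X ph) (hr : ∀ x, ph (cj S.M x) = cj N (ph x)) (hc : star c = c) :
    DivOK S (Function.update S.D S.r (hyp S.X ph c)) (S.r + 1) := by
  obtain ⟨D, hD⟩ : ∃ D, D = Function.update S.D S.r (hyp S.X ph c) := ⟨_, rfl⟩
  rw [← hD]
  have cs : ∀ (P : Set (Amb S.M) → Prop) (j : ℕ), (j = S.r → P (hyp S.X ph c)) →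
      P (S.D j) → P (D j) := by
    intro P j h1 h2
    by_cases hj : j = S.r
    · rw [hD, hj, Function.update_self]
      exact h1 hj
    · rw [hD, Function.update_of_ne hj]
      exact h2
  have hf : ∀ j, S.r + 1 ≤ j → D j = ∅ := fun j hj =>
    cs (· = ∅) j (fun e => by omega) (S.fin j (by omega))
  have hcl : IsClosed (hyp S.X ph c) := by
    have h1 : IsClosed {a : Amb N | ∀ k, ∑ j, c j * a (j, k) = 0} := by
      rw [setOf_forall]
      exact isClosed_iInter fun k => isClosed_eq (by fun_prop) continuous_const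
    exact (hph.cont S.mf).preimage_isClosed_of_isClosed S.closedX h1
  refine ⟨snc_of_pt (r := S.r + 1) S.snc.compact
    (fun j => cs (· ⊆ S.X) j (fun _ _ hx => hx.1) (S.snc.sub j))
    (fun j => cs IsClosed j (fun _ => hcl) (S.closedD j)) hf fun x hx => ?_, hf, fun j => ?_⟩
  · by_cases hxh : x ∈ hyp S.X ph c
    · obtain ⟨φ, z, l, hp, hl, hco⟩ := h x hxh
      refine ⟨φ, z, (kappa_XG1 (P := fun j => x ∈ D j) (Q := fun j i => Co (D j) φ z i)
        (R := fun j i => (j = S.r ∧ i = l) ∨ (i ≠ l ∧ x ∈ S.D j ∧ Co (S.D j) φ z i))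
        (fun j => ?_) ?_).imp fun κ hκ => ⟨hp, hκ⟩⟩
      · refine cs (fun Y => x ∈ Y → ∃ i, Co Y φ z i ∧ ((j = S.r ∧ i = l) ∨
          (i ≠ l ∧ x ∈ S.D j ∧ Co (S.D j) φ z i))) j (fun hj _ => ⟨l, hl, Or.inl ⟨hj, rfl⟩⟩)
          fun hj => ?_
        obtain ⟨i, h1, h2⟩ := hco j hj
        exact ⟨i, h2, Or.inr ⟨h1, hj, h2⟩⟩
      · rintro j j' i (⟨a, b⟩ | ⟨a, b, d⟩) (⟨a', b'⟩ | ⟨a', b', d'⟩)
        · exact a.trans a'.symm
        · exact absurd b a'
        · exact absurd b' a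
        · exact Co.inj hp d d' b
    · obtain ⟨φ, z, hp, hco⟩ := Sp.chart hx
      refine ⟨φ, z, (kappa_XG1 (P := fun j => x ∈ D j) (Q := fun j i => Co (D j) φ z i)
        (R := fun j i => x ∈ S.D j ∧ Co (S.D j) φ z i) (fun j => ?_)
        fun j j' i a b => Co.inj hp a.2 b.2 a.1).imp fun κ hκ => ⟨hp, hκ⟩⟩
      refine cs (fun Y => x ∈ Y → ∃ i, Co Y φ z i ∧ x ∈ S.D j ∧ Co (S.D j) φ z i) j
        (fun _ hj => absurd hj hxh) fun hj => ?_
      obtain ⟨i, hi⟩ := hco j hj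
      exact ⟨i, hi, hj, hi⟩
  · refine cs (fun Y => MapsTo (cj S.M) Y Y) j (fun _ x hx => ⟨S.cjX hx.1, fun k => ?_⟩) (S.cjD j)
    have h1 := congrArg conj (hx.2 k)
    rw [map_sum, map_zero] at h1
    rw [← h1]
    refine Finset.sum_congr rfl fun i _ => ?_
    have h2 : conj (c i) = c i := congrFun hc i
    rw [hr, cj_apply, map_mul, h2]

end Pool.Agent.HIR
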