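import Pool.Agent.P.MP_65ad7c_ag.USard
import Pool.Agent.P.MP_65ad7c_ag.XM3

open Set Filter Topology Asymptotics
open Pool.Agent.HT (Amb proj cj IsChart IsSNC)

noncomputable section
namespace Pool.Agent.HIR

variable {n N a : ℕ} {S : Sp n} {ph : Amb S.M → Amb N} {c : Fin a → Fin N → ℂ}

/-- the hyperplanes with index `≥ b` are independent along the stratum -/
def Nd (g : E n → Fin N → ℂ) (z : E n) (T : Finset (Fin n)) (c : Fin a → Fin N → ℂ) (b : ℕ) : Prop :=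
  ∀ lam : Fin a → ℂ, (∀ i, lam i ≠ 0 → b ≤ i ∧ c i ⬝ᵥ g z = 0) →
    (∀ l, l ∉ T → pd l (fun y => (∑ i, lam i • c i) ⬝ᵥ g y) z = 0) → lam = 0

/-- `Nd` at every point -/
def Ndg (S : Sp n) (ph : Amb S.M → Amb N) (c : Fin a → Fin N → ℂ) (b : ℕ) : Prop :=
  ∀ x ∈ S.X, ∃ (φ : E n → Amb S.M) (z : E n) (g : E n → Fin N → ℂ) (T : Finset (Fin n)),
    Pt S.X φ z x ∧ AnalyticAt ℂ g z ∧ g z ≠ 0 ∧ ph ∘ φ =ᶠ[𝓝 z] proj ∘ g ∧
    (∀ j, x ∈ S.D j → ∃ i ∈ T, Co (S.D j) φ z i) ∧ Nd g z T c b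

theorem thin_ndg (hph : HolP n S.X ph) :
    Weil.Thin (a * N) {c : Fin a → Fin N → ℂ | ¬ Ndg S ph c 0} := by
  classical
  obtain ⟨J, hJ, φ, g, O, h1, h2⟩ := cover_adapted hph
  refine (Weil.thin_iUnion fun k => Weil.thin_iUnion fun T => usard (a := a)
    (fun w hw => ⟨((h1 k).2 w hw).2.1, ((h1 k).2 w hw).2.2.1⟩) T).mono ?_ le_rfl
  intro c hc
  by_contra hn
  refine hc fun x hx => ?_
  obtain ⟨k, w, hw, rfl⟩ := h2 x hx
  obtain ⟨hp, hg, hg0, -, hD⟩ := (h1 k).2 w hw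
  refine ⟨φ k, w, g k, Finset.univ.filter fun i => ∃ j, φ k w ∈ S.D j ∧ Co (S.D j) (φ k) w i,
    hp, hg, hg0, mem_of_superset ((h1 k).1.mem_nhds hw) fun y hy => ((h1 k).2 y hy).2.2.2.1,
    fun j hj => (hD j hj).imp fun i hi => ⟨Finset.mem_filter.2 ⟨Finset.mem_univ _, j, hj, hi⟩, hi⟩,
    fun lam l1 l2 => ?_⟩
  by_contra h0
  refine hn (mem_iUnion₂.2 ⟨k, _, w, hw, fun i hi => ?_, lam, h0, fun i hi => (l1 i hi).2, l2⟩)
  obtain ⟨j, hj, hco⟩ := (Finset.mem_filter.1 hi).2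
  exact hco.zero.1 hj

theorem Nd.comp {g : E n → Fin N → ℂ} {z z' : E n} {T : Finset (Fin n)} {i : Fin a} {l : Fin n}
    {σ : E n → E n} (h : Nd g z T c i) (hg : AnalyticAt ℂ g z) (h0 : c i ⬝ᵥ g z = 0)
    (hb : Bi (fun w => Function.update w l (c i ⬝ᵥ g w)) σ z z') :
    Nd (g ∘ σ) z' (insert l T) c (i + 1) := by
  intro lam l1 l2
  obtain ⟨F, hF⟩ : ∃ F : E n → ℂ, F = fun y => (∑ i, lam i • c i) ⬝ᵥ g y := ⟨_, rfl⟩
  have aF : An z F := hF ▸ an_dot_XM4 analyticAt_const hg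
  have au : An z fun y => c i ⬝ᵥ g y := an_dot_XM4 analyticAt_const hg
  have l3 : ∀ k, k ∉ insert l T → pd k (F ∘ σ) z' = 0 := hF ▸ l2
  have key := h (lam + Pi.single i (-pd l (F ∘ σ) z')) (fun j hj => ?_) fun k hk => ?_
  · funext j
    by_contra hj
    have h1 := (l1 j hj).1
    have h2 := congrFun key j
    rw [Pi.add_apply, Pi.single_eq_of_ne (fun e => by subst e; omega), add_zero] at h2
    exact hj h2
  · by_cases e : j = i
    · subst e
      exact ⟨le_rfl, h0⟩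
    · rw [Pi.add_apply, Pi.single_eq_of_ne e, add_zero] at hj
      have h1 := l1 j hj
      rw [Function.comp_apply, hb.map'] at h1
      exact ⟨by omega, h1.2⟩
  · have e1 : (fun y => (∑ j, (lam + Pi.single i (-pd l (F ∘ σ) z') : Fin a → ℂ) j • c j) ⬝ᵥ g y) =
        F + (fun _ => -pd l (F ∘ σ) z') * fun y => c i ⬝ᵥ g y := by
      funext y
      simp [hF, add_smul, Finset.sum_add_distrib, Pi.single_apply]
    have e2 : F =ᶠ[𝓝 z] (F ∘ σ) ∘ fun w => Function.update w l (c i ⬝ᵥ g w) :=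
      hb.left.mono fun w hw => (congrArg F hw).symm
    have e3 := (pd_comp hb.an (hb.map.symm ▸ hb.symm.comp aF) k).self_of_nhds
    rw [e1, (pd_add aF (analyticAt_const.mul au) k).self_of_nhds, Pi.add_apply,
      (pd_mul analyticAt_const au k).self_of_nhds, pd_const, (pd_congr e2 k).self_of_nhds, e3,
      Finset.sum_apply, Finset.sum_eq_single l (fun j _ hj => ?_)
        fun h => absurd (Finset.mem_univ _) h]
    · have e4 : (co l ∘ fun w : E n => Function.update w l (c i ⬝ᵥ g w)) = fun y => c i ⬝ᵥ g y := by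
        funext w
        simp [co]
      simp only [e4, Pi.mul_apply, Pi.add_apply, Function.comp_apply, hb.map, Pi.zero_apply]
      ring
    · have e4 : (co j ∘ fun w : E n => Function.update w l (c i ⬝ᵥ g w)) = co j := by
        funext w
        simp [co, hj]
      rw [Pi.mul_apply, e4, pd_co, Function.comp_apply, hb.map]
      by_cases hT : j ∈ T
      · rw [if_neg fun e : j = k => hk (e ▸ hT), zero_mul]
      · rw [l3 j (by simp [hj, hT]), mul_zero]

theorem Ndg.chart {i : Fin a} (h : Ndg S ph c i) {x : Amb S.M} (hx : x ∈ hyp S.X ph (c i)) :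
    ∃ (φ : E n → Amb S.M) (z : E n) (g : E n → Fin N → ℂ) (T : Finset (Fin n)) (l : Fin n),
      Pt S.X φ z x ∧ AnalyticAt ℂ g z ∧ g z ≠ 0 ∧ ph ∘ φ =ᶠ[𝓝 z] proj ∘ g ∧
      Co (hyp S.X ph (c i)) φ z l ∧ (∀ j, x ∈ S.D j → ∃ k ∈ T, k ≠ l ∧ Co (S.D j) φ z k) ∧
      Nd g z (insert l T) c (i + 1) := by
  obtain ⟨φ, z, g, T, hp, hg, hg0, he, hD, hN⟩ := h x hx.1
  have hc0 : c i ⬝ᵥ g z = 0 := (proj_hyp hg0 _).1 (by
    rw [← show ph (φ z) = proj (g z) from he.self_of_nhds, hp.eq]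
    exact hx.2)
  obtain ⟨l, hlT, hl⟩ : ∃ l, l ∉ T ∧ pd l (fun y => c i ⬝ᵥ g y) z ≠ 0 := by
    by_contra hcon
    have h1 := hN (Pi.single i 1) (fun j hj => ?_) fun l hl => ?_
    · simpa using congrFun h1 i
    · obtain rfl : j = i := by
        by_contra e
        exact hj (Pi.single_eq_of_ne e _)
      exact ⟨le_rfl, hc0⟩
    · by_contra h0
      exact hcon ⟨l, hl, by simpa [Pi.single_apply] using h0⟩
  obtain ⟨σ, hb⟩ := bi_update (an_dot_XM4 analyticAt_const hg) hl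
  have ht := hb.symm.tendsto
  refine ⟨φ ∘ σ, _, g ∘ σ, T, l, hp.comp hb, hg.comp_of_eq hb.an' hb.map', ?_, ht.eventually he,
    ?_, fun j hj => ?_, hN.comp hg hc0 hb⟩
  · rwa [Function.comp_apply, hb.map']
  · filter_upwards [ht.eventually (hp.ev.and (he.and (hg.continuousAt.eventually_ne hg0))),
      hb.right] with y hy hr
    have e : c i ⬝ᵥ g (σ y) = y l := by
      have := congrFun hr l
      rwa [Function.update_self] at this
    rw [← e, ← proj_hyp hy.2.2, ← show ph (φ (σ y)) = proj (g (σ y)) from hy.2.1]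
    exact ⟨fun h => h.2, fun h => ⟨hy.1.mem, h⟩⟩
  · obtain ⟨k, hk, hi⟩ := hD j hj
    have hkl : k ≠ l := fun e => hlT (e ▸ hk)
    exact ⟨k, hk, hkl, hi.comp hb (Eventually.of_forall fun y => Function.update_of_ne hkl _ _)⟩

theorem Ndg.tv {i : Fin a} (h : Ndg S ph c i) : Tv S ph (c i) := fun x hx => by
  obtain ⟨φ, z, g, T, l, h1, -, -, -, h2, h3, -⟩ := h.chart hx
  exact ⟨φ, z, l, h1, h2, fun j hj => (h3 j hj).imp fun k hk => hk.2⟩

theorem Ndg.add {i : Fin a} (h : Ndg S ph c i)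
    (h' : DivOK S (Function.update S.D S.r (hyp S.X ph (c i))) (S.r + 1)) :
    Ndg h'.sp ph c (i + 1) := by
  intro x hx
  by_cases hi : x ∈ hyp S.X ph (c i)
  · obtain ⟨φ, z, g, T, l, h1, h2, h3, h4, h5, h6, h7⟩ := h.chart hi
    refine ⟨φ, z, g, _, h1, h2, h3, h4, fun j hj => ?_, h7⟩
    dsimp only at hj ⊢
    by_cases e : j = S.r
    · rw [e, Function.update_self]
      exact ⟨l, Finset.mem_insert_self _ _, h5⟩
    · rw [Function.update_of_ne e] at hj ⊢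
      exact (h6 j hj).imp fun k hk => ⟨Finset.mem_insert_of_mem hk.1, hk.2.2⟩
  · obtain ⟨φ, z, g, T, h1, h2, h3, h4, h5, h6⟩ := h x hx
    refine ⟨φ, z, g, T, h1, h2, h3, h4, fun j hj => ?_,
      fun lam l1 => h6 lam fun j hj => ⟨(l1 j hj).1.trans' (by omega), (l1 j hj).2⟩⟩
    dsimp only at hj ⊢
    by_cases e : j = S.r
    · rw [e, Function.update_self] at hj
      exact absurd hj hi
    · rw [Function.update_of_ne e] at hj ⊢
      exact h5 j hj

theorem Ndg.iter (h : Ndg S ph c 0) (hph : HolP n S.X ph)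
    (hr : ∀ x, ph (cj S.M x) = cj N (ph x)) (hc : ∀ i, star (c i) = c i) (b : ℕ) (hb : b ≤ a) :
    ∃ (D : ℕ → Set (Amb S.M)) (h : DivOK S D (S.r + b)), (∀ j < S.r, D j = S.D j) ∧
      (∀ i : Fin a, i < b → D (S.r + i) = hyp S.X ph (c i)) ∧ Ndg h.sp ph c b := by
  induction b with
  | zero => exact ⟨S.D, ⟨S.snc, S.fin, S.cjD⟩, fun _ _ => rfl, fun i hi => absurd hi (by omega), h⟩
  | succ b ih =>
    obtain ⟨D, h0, h1, h2, h3⟩ := ih (by omega)
    have h' := (Ndg.tv (i := ⟨b, hb⟩) h3).add hph hr (hc _)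
    refine ⟨_, ⟨h'.snc, h'.fin, h'.cjD⟩, fun j hj => ?_, fun i hi => ?_,
      Ndg.add (i := ⟨b, hb⟩) h3 h'⟩
    · exact (Function.update_of_ne (by dsimp only; omega) _ _).trans (h1 j hj)
    · by_cases e : i = ⟨b, hb⟩
      · subst e
        exact Function.update_self ..
      · have e' : (i : ℕ) ≠ b := fun e' => e (Fin.ext e')
        exact (Function.update_of_ne (by dsimp only; omega) _ _).trans (h2 i (by omega))

end Pool.Agent.HIR
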