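import Mathlib

/-! Kuratowski-Ulam and two genericity lemmas. -/

open Set Filter Topology

noncomputable section
namespace Pool.Agent.PWV

section
variable {X Y C : Type} [TopologicalSpace X] [TopologicalSpace Y] [TopologicalSpace C]

theorem uku_closed [SecondCountableTopology Y] {F : Set (X × Y)} (hF : IsClosed F)
    (h0 : interior F = ∅) : ∀ᶠ x in residual X, interior {y | (x, y) ∈ F} = ∅ := by
  obtain ⟨b, hb, hne, hB⟩ := TopologicalSpace.exists_countable_basis Y
  have key : ∀ U ∈ b, ∀ᶠ x in residual X, ¬ ∀ y ∈ U, (x, y) ∈ F := by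
    intro U hU
    have hc : IsClosed {x | ∀ y ∈ U, (x, y) ∈ F} := by
      simp only [ofPred_forall]
      exact isClosed_iInter fun y => isClosed_iInter fun _ => hF.preimage (by fun_prop)
    refine residual_of_dense_open hc.isOpen_compl (interior_eq_empty_iff_dense_compl.1 ?_)
    refine eq_empty_of_forall_notMem fun x hx => ?_
    obtain ⟨y, hy⟩ := nonempty_iff_ne_empty.2 fun e : U = ∅ => hne (e ▸ hU)
    have h1 : (x, y) ∈ interior F := mem_interior_iff_mem_nhds.2 (mem_of_superset
      (prod_mem_nhds (mem_interior_iff_mem_nhds.1 hx) ((hB.isOpen hU).mem_nhds hy))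
      fun p hp => hp.1 p.2 hp.2)
    rw [h0] at h1
    exact h1
  filter_upwards [(eventually_countable_ball hb).2 key] with x hx
  refine eq_empty_of_forall_notMem fun y hy => ?_
  obtain ⟨U, hU, -, h2⟩ := hB.exists_subset_of_mem_open hy isOpen_interior
  exact hx U hU fun z hz => (h2.trans interior_subset) hz

theorem uku_lift [SecondCountableTopology Y] [SecondCountableTopology C] [BaireSpace C]
    {φ : X × C → Y} (hφ : Continuous φ) (ho : ∀ᶠ c in residual C, IsOpenMap fun x => φ (x, c))
    {M : Set (C × Y)} (hM : IsMeagre M) :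
    ∀ᶠ x in residual X, IsMeagre {c | (c, φ (x, c)) ∈ M} := by
  obtain ⟨S, h1, h2, h3⟩ := isMeagre_iff_countable_union_isNowhereDense.1 hM
  have key : ∀ t ∈ S, ∀ᶠ x in residual X, IsMeagre {c | (c, φ (x, c)) ∈ closure t} := by
    intro t ht
    have hc : IsClosed {p : X × C | (p.2, φ p) ∈ closure t} :=
      isClosed_closure.preimage (continuous_snd.prodMk hφ)
    have h0 : interior {p : X × C | (p.2, φ p) ∈ closure t} = ∅ := by
      refine eq_empty_of_forall_notMem fun p hp => ?_
      obtain ⟨V, hV, W, hW, hVW⟩ := mem_nhds_prod_iff.1 (mem_interior_iff_mem_nhds.1 hp)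
      obtain ⟨c, ⟨a1, a2⟩, a3⟩ := (dense_of_mem_residual
        (ho.and (uku_closed isClosed_closure (h1 t ht)))).inter_nhds_nonempty hW
      have a4 : φ (p.1, c) ∈ interior {y | (c, y) ∈ closure t} :=
        mem_interior_iff_mem_nhds.2 (mem_of_superset (a1.image_mem_nhds hV) (by
          rintro _ ⟨x, hx, rfl⟩
          exact hVW (mk_mem_prod hx a3)))
      rw [a2] at a4
      exact a4
    filter_upwards [uku_closed hc h0] with x hx
    have hs : IsClosed {c | (c, φ (x, c)) ∈ closure t} := hc.preimage (f := fun c => (x, c))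
      (by fun_prop)
    exact (hs.isNowhereDense_iff.2 hx).isMeagre
  filter_upwards [(eventually_countable_ball h2).2 key] with x hx
  refine (isMeagre_biUnion h2 hx).mono fun c hc => ?_
  obtain ⟨t, ht, hc'⟩ := h3 hc
  exact mem_iUnion₂.2 ⟨t, ht, subset_closure hc'⟩

end

theorem uku_poly {σ : Type} [Finite σ] {h : MvPolynomial σ ℂ} (h0 : h ≠ 0) :
    ∀ᶠ v in residual (σ → ℝ), MvPolynomial.eval (fun i => (v i : ℂ)) h ≠ 0 := by
  have hc : IsClosed {v : σ → ℝ | MvPolynomial.eval (fun i => (v i : ℂ)) h = 0} :=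
    isClosed_eq ((MvPolynomial.continuous_eval h).comp (by fun_prop)) continuous_const
  refine residual_of_dense_open hc.isOpen_compl (interior_eq_empty_iff_dense_compl.1 ?_)
  refine eq_empty_of_forall_notMem fun x hx => h0 ?_
  have h1 := mem_interior_iff_mem_nhds.1 hx
  rw [nhds_pi] at h1
  obtain ⟨I, -, t, ht, hI⟩ := Filter.mem_pi.1 h1
  refine MvPolynomial.funext_set (fun i => Complex.ofReal '' t i)
    (fun i => (infinite_of_mem_nhds _ (ht i)).image Complex.ofReal_injective.injOn) fun y hy => ?_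
  choose u hu hu' using fun i => hy i trivial
  rw [map_zero, ← show (fun i => (u i : ℂ)) = y from funext hu']
  exact hI fun i _ => hu i

theorem uku_det (a p : ℕ) : ∀ᶠ B in residual (Fin (a + p) → Fin a → ℝ),
    (Matrix.of fun i j => B (Fin.castAdd p i) j).det ≠ 0 := by
  refine residual_of_dense_open (isOpen_ne_fun (Continuous.matrix_det ?_) continuous_const)
    fun B => ?_
  · exact continuous_matrix fun i j => by simp only [Matrix.of_apply]; fun_prop
  · have ht : Tendsto (fun (s : ℝ) i j => B i j + s * if i = Fin.castAdd p j then 1 else 0)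
        (𝓝[≠] 0) (𝓝 B) := by
      refine Tendsto.mono_left (Continuous.tendsto' (by fun_prop) _ _ ?_) nhdsWithin_le_nhds
      simp
    refine mem_closure_of_tendsto ht ?_
    have hf := Matrix.finite_spectrum (-Matrix.of fun i j => B (Fin.castAdd p i) j)
    filter_upwards [nhdsNE_le_cofinite 0 hf.compl_mem_cofinite] with s hs
    have h1 := (Matrix.isUnit_iff_isUnit_det _).1 (spectrum.notMem_iff.1 hs)
    refine fun e => h1.ne_zero (Eq.trans (congrArg Matrix.det ?_) e)
    ext i j
    simp [Matrix.algebraMap_matrix_apply, add_comm, Fin.ext_iff]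

theorem uku_onto {a p : ℕ} {B : Fin (a + p) → Fin a → ℝ}
    (h : (Matrix.of fun i j => B (Fin.castAdd p i) j).det ≠ 0) :
    IsOpenMap fun v : Fin (a + p) → ℝ => -∑ j, v j • B j := by
  have e : ∀ v : Fin (a + p) → ℝ, (-(Matrix.of B).vecMulLinear) v = -∑ j, v j • B j := fun v => by
    ext i
    simp [Matrix.vecMul, dotProduct]
  rw [← funext e]
  refine LinearMap.isOpenMap_of_finiteDimensional _ fun y => ?_
  obtain ⟨u, hu⟩ := Matrix.vecMul_surjective_iff_isUnit.2
    ((Matrix.isUnit_iff_isUnit_det _).2 h.isUnit) (-y)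
  refine ⟨Fin.append u 0, ?_⟩
  rw [e, neg_eq_iff_eq_neg, ← hu, Fin.sum_univ_add]
  ext i
  simp [Matrix.vecMul, dotProduct]

end Pool.Agent.PWV
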