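import Pool.Agent.P.MP_65ad7c_ag.ULow
import Pool.Agent.P.MP_65ad7c_ag.UKu

open Set Filter Topology Metric

noncomputable section
namespace Pool.Agent.PWV

open MvPolynomial

variable {K : Cx} {a n : ℕ}

/-- real systems of `a` affine equations in `n` unknowns, by columns -/
abbrev UC (a n : ℕ) := (Fin a → ℝ) × (Fin n → Fin a → ℝ)

/-- the complex solutions -/
def UL (c : UC a n) : Set (Fin n → ℂ) := {x | ∀ i, (c.1 i : ℂ) + ∑ j, (c.2 j i : ℂ) * x j = 0}

theorem ul_closed (c : UC a n) : IsClosed (UL c) := by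
  simp only [UL, ofPred_forall]
  exact isClosed_iInter fun i => isClosed_eq (by fun_prop) continuous_const

theorem ul_convex (c : UC a n) : Convex ℝ (UL c) := by
  intro x hx y hy s t _ _ hst i
  have h : (s : ℂ) + t = 1 := by exact_mod_cast hst
  simp only [Pi.add_apply, Pi.smul_apply, Complex.real_smul, mul_add, Finset.sum_add_distrib,
    mul_left_comm _ (s : ℂ), mul_left_comm _ (t : ℂ), ← Finset.mul_sum]
  linear_combination s * hx i + t * hy i - (c.1 i : ℂ) * h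

theorem ul_step (v : Fin n → ℝ) (c : UC a n) :
    UL ((c.1, Fin.cons (-∑ j, v j • c.2 j) c.2) : UC a (n + 1)) =
      prj (fun i => (v i : ℂ)) ⁻¹' UL c := by
  ext x
  refine forall_congr' fun i => Eq.congr_left ?_
  simp only [Fin.sum_univ_succ, Fin.cons_zero, Fin.cons_succ, prj, Pi.neg_apply, Finset.sum_apply,
    Pi.smul_apply, smul_eq_mul, mul_sub, Finset.sum_sub_distrib]
  push_cast
  rw [neg_mul, Finset.sum_mul, Finset.sum_congr rfl fun j _ =>
    show (v j : ℂ) * c.2 j i * x 0 = c.2 j i * (x 0 * v j) by ring]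
  ring

theorem ul_point (t : Fin a → ℝ) {B : Fin a → Fin a → ℝ} (h : (Matrix.of B).det ≠ 0) :
    UL ((-∑ j, t j • B j, B) : UC a a) = {fun i => (t i : ℂ)} := by
  have e : ∀ (x : Fin a → ℂ) i, (((-∑ j, t j • B j) i : ℝ) : ℂ) + ∑ j, (B j i : ℂ) * x j =
      Matrix.vecMul (x - fun i => (t i : ℂ)) (Complex.ofRealHom.mapMatrix (Matrix.of B)) i := by
    intro x i
    simp [Matrix.vecMul, dotProduct, sub_mul, mul_comm (x _), neg_add_eq_sub]
  ext x
  simp only [UL, mem_ofPred_eq, e, mem_singleton_iff]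
  refine ⟨fun H => sub_eq_zero.1 (Matrix.eq_zero_of_vecMul_eq_zero ?_ (funext H)), fun H i => ?_⟩
  · rw [← RingHom.map_det]
    exact Complex.ofReal_ne_zero.2 h
  · simp [H]

theorem udim_step {V : Set (Fin (n + 1) → ℂ)} {k : ℕ} (hd : Dim V k) :
    ∃ h : MvPolynomial (Fin n) ℂ, h ≠ 0 ∧ ∀ v, eval v h ≠ 0 → k ≤ n + 1 → ∀ L m,
      Dim (prj v '' V ∩ L) m → Dim (V ∩ prj v ⁻¹' L) m := by
  by_cases hk : k ≤ n + 1
  · obtain ⟨g, hg, hV⟩ := (hd.mono_nat hk).exists_poly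
    obtain ⟨h, h0, hh⟩ := monic_dir hg
    refine ⟨h, h0, fun v hv _ L m hm => ?_⟩
    obtain ⟨G, hG, hgG⟩ := hh v hv
    obtain ⟨f', hf'⟩ := shear_poly v
    refine ((dim_roots hG hm).image f').mono ?_
    rintro x ⟨h1, h2⟩
    refine ⟨Fin.cons (x 0) (prj v x), ⟨?_, ?_⟩, ?_⟩
    · rw [Fin.tail_cons]
      exact ⟨⟨x, h1, rfl⟩, h2⟩
    · rw [Fin.tail_cons, Fin.cons_zero, ← hgG, shear_prj]
      exact hV x h1
    · show (fun i => eval (Fin.cons (x 0) (prj v x) : Fin (n + 1) → ℂ) (f' i)) = x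
      rw [← hf', Fin.tail_cons, Fin.cons_zero, shear_prj]
  · exact ⟨1, one_ne_zero, fun _ _ h => absurd h hk⟩

theorem udim_par {p m : ℕ} {L : Set (Fin n → ℂ)} {G : Fin n → MvPolynomial (Fin p) ℂ}
    (h : L ⊆ range fun x i => eval x (G i)) (hm : p + 1 ≤ m) (V : Set (Fin n → ℂ)) :
    Dim (V ∩ L) m :=
  (((dim_univ p).image G).mono (inter_subset_right.trans (by rwa [image_univ]))).mono_nat hm

/-- restriction to a general real affine subspace -/
theorem utow (a p : ℕ) : ∀ M : Set (UC a (a + p)), IsMeagre M →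
    ∀ (Q : FC K (Fin (a + p) → ℂ)) (b : ℤ), GW Q b →
    ∀ (V : ℕ → Set (Fin (a + p) → ℂ)) (k : ℕ → ℕ), (∀ e, Dim (V e) (k e)) →
    ∃ c ∉ M, (UL c).Nonempty ∧ (∀ j : ℤ, j + 1 + a ≤ b → Q.Ex j univ (UL c)) ∧
      (∃ G : Fin (a + p) → MvPolynomial (Fin p) ℂ, UL c ⊆ range fun x i => eval x (G i)) ∧
      ∀ e, Dim (V e ∩ UL c) (k e - a) := by
  induction p with
  | zero =>
    intro M hM Q b hQ V k hV
    obtain ⟨g, hg, hg'⟩ := FC.ulow_point Q hQ
    have h1 : ∀ e, ∃ g : MvPolynomial (Fin a) ℂ, g ≠ 0 ∧ (k e ≤ a → ∀ x ∈ V e, eval x g = 0) := by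
      intro e
      by_cases h : k e ≤ a
      · exact ((hV e).mono_nat h).exists_poly.imp fun g hg => ⟨hg.1, fun _ => hg.2⟩
      · exact ⟨1, one_ne_zero, fun h' => absurd h' h⟩
    choose w hw hw' using h1
    obtain ⟨t, t1, t2, t3⟩ := (dense_of_mem_residual ((uku_lift
      (φ := fun q : (Fin (a + 0) → ℝ) × (Fin (a + 0) → Fin a → ℝ) => -∑ j, q.1 j • q.2 j)
      (by fun_prop) ((uku_det a 0).mono fun B hB => uku_onto hB)
      (hM.preimage_of_isOpenMap continuous_swap (Homeomorph.prodComm _ _).isOpenMap)).and ((uku_poly hg).and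
      (eventually_countable_forall.2 fun e => uku_poly (hw e))))).nonempty
    obtain ⟨B, b1, b2⟩ := (dense_of_mem_residual (inter_mem t1 (uku_det a 0))).nonempty
    have e := ul_point t (B := B) b2
    have hG : ({fun i => (t i : ℂ)} : Set (Fin a → ℂ)) ⊆
        range fun (x : Fin 0 → ℂ) i => eval x (C (t i : ℂ)) := by
      rintro _ rfl
      exact ⟨0, by simp⟩
    refine ⟨(-∑ j, t j • B j, B), b1, ?_⟩
    rw [show UL _ = _ from e]
    refine ⟨singleton_nonempty _, hg' _ t2, ⟨_, hG⟩, fun e => ?_⟩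
    by_cases h : k e ≤ a
    · exact (dim_empty _).mono fun x hx => t3 e (hx.2 ▸ hw' e h x hx.1)
    · exact udim_par hG (by omega) _
  | succ p ih =>
    intro M hM Q b hQ V k hV
    obtain ⟨g, hg, hg'⟩ := FC.ulow_step (n := a + p) Q hQ
    choose w hw hw' using fun e => udim_step (n := a + p) (hV e)
    have hM' : IsMeagre ((fun q : UC a (a + p) × (Fin a → ℝ) =>
        ((q.1.1, Fin.cons q.2 q.1.2) : UC a (a + p + 1))) ⁻¹' M) :=
      hM.preimage_of_isOpenMap (by fun_prop) (IsOpenMap.of_inverse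
        (f' := fun c => ((c.1, fun j => c.2 j.succ), c.2 0)) (by fun_prop)
        (fun c => Prod.ext rfl (Fin.cons_self_tail _)) fun c => rfl)
    obtain ⟨v, v1, v2, v3⟩ := (dense_of_mem_residual ((uku_lift
      (φ := fun q : (Fin (a + p) → ℝ) × UC a (a + p) => -∑ j, q.1 j • q.2.2 j) (by fun_prop)
      (((tendsto_residual_of_isOpenMap continuous_snd isOpenMap_snd).eventually
        (uku_det a p)).mono fun B hB => uku_onto hB) hM').and ((uku_poly hg).and
      (eventually_countable_forall.2 fun e => uku_poly (hw e))))).nonempty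
    obtain ⟨Q', hQ', hE⟩ := hg' _ v2
    obtain ⟨f, hf⟩ := prj_poly fun i => (v i : ℂ)
    obtain ⟨c, c1, c2, c3, ⟨G, hG⟩, c4⟩ := ih _ v1 Q' b hQ'
      (fun e => prj (fun i => (v i : ℂ)) '' V e) k fun e => by
        rw [funext hf]
        exact (hV e).image f
    have hG' : prj (fun i => (v i : ℂ)) ⁻¹' UL c ⊆ range fun (x : Fin (p + 1) → ℂ) i =>
        eval x ((Fin.cons (X 0) fun i => rename Fin.succ (G i) + X 0 * C (v i : ℂ) :
          Fin (a + p + 1) → MvPolynomial (Fin (p + 1)) ℂ) i) := by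
      intro x hx
      obtain ⟨y, hy⟩ := hG hx
      refine ⟨Fin.cons (x 0) y, ?_⟩
      rw [← shear_prj (fun i => (v i : ℂ)) x, ← hy]
      funext i
      refine Fin.cases ?_ (fun i => ?_) i <;> simp [shear, eval_rename, Function.comp_def]
    refine ⟨(c.1, Fin.cons (-∑ j, v j • c.2 j) c.2), c1, ?_⟩
    rw [show UL _ = _ from ul_step v c]
    refine ⟨c2.preimage fun x => ⟨_, prj_shear _ x 0⟩, fun j hj =>
      hE _ (ul_closed c) (ul_convex c) c2 j (c3 j hj), ⟨_, hG'⟩, fun e => ?_⟩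
    by_cases h : k e ≤ a + p + 1
    · exact hw' e _ (v3 e) h _ _ (c4 e)
    · exact udim_par hG' (by omega) _

theorem utow' (h : a ≤ n) {M : Set (Fin a → Fin (n + 1) → ℝ)} (hM : IsMeagre M)
    {Q : FC K (Fin n → ℂ)} {b : ℤ} (hQ : GW Q b) {V : ℕ → Set (Fin n → ℂ)} {k : ℕ → ℕ}
    (hV : ∀ e, Dim (V e) (k e)) : ∃ c ∉ M, ∀ L, L = {y : Fin n → ℂ | ∀ i,
      (fun l => (c i l : ℂ)) ⬝ᵥ (Fin.cons 1 y : Fin (n + 1) → ℂ) = 0} →
      (∀ j : ℤ, j + 1 + a ≤ b → Q.Ex j univ L) ∧ ∀ e, Dim (V e ∩ L) (k e - a) := by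
  obtain ⟨p, rfl⟩ := Nat.exists_eq_add_of_le h
  obtain ⟨c, c1, -, c2, -, c3⟩ := utow a p _ (hM.preimage_of_isOpenMap
    (f := fun (c : UC a (a + p)) i => (Fin.cons (c.1 i) fun j => c.2 j i : Fin (a + p + 1) → ℝ))
    (by fun_prop) (IsOpenMap.of_inverse (f' := fun c => (fun i => c i 0, fun j i => c i j.succ))
      (by fun_prop) (fun c => funext fun i => Fin.cons_self_tail _) fun c => rfl)) Q b hQ V k hV
  refine ⟨_, c1, fun L hL => ?_⟩
  obtain rfl : L = UL c := by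
    rw [hL]
    ext y
    simp [UL, dotProduct, Fin.sum_univ_succ]
  exact ⟨c2, c3⟩

end Pool.Agent.PWV
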