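import Pool.Agent.P.MP_65ad7c_ag.VEmb
import Pool.Agent.P.MP_65ad7c_ag.VPrime
import Pool.Agent.P.MP_65ad7c_ag.DQ

open Set Filter Topology TopologicalSpace MvPolynomial
open Pool.Agent.PWD
open Pool.Agent.PWF (Pts)

noncomputable section
namespace Pool.Agent.PWV

variable {R : Type} [CommRing R] [Algebra ℂ R] {Y : Set (R → ℂ)} {N d : ℕ} {f : Fin N → R}
  {U : ℕ → Opens Y}

theorem open_zero_XJ0 {k : ℕ} {p : MvPolynomial (Fin k) ℂ} {O : Set (Fin k → ℂ)} (hO : IsOpen O)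
    {z : Fin k → ℂ} (hz : z ∈ O) (h : ∀ x ∈ O, eval x p = 0) : p = 0 := by
  obtain ⟨ε, hε, hb⟩ := Metric.isOpen_iff.1 hO z hz
  refine MvPolynomial.funext_set (fun i => Metric.ball (z i) ε)
    (fun i => infinite_of_mem_nhds (z i) (Metric.ball_mem_nhds _ hε)) fun x hx => ?_
  rw [map_zero]
  refine h x (hb ?_)
  rw [ball_pi _ hε]
  exact hx

theorem range_emb (hf : Algebra.adjoin ℂ (range f) = ⊤) (P : Ideal R) :
    range (emb (Y := Pts P) f) = ZI (P.comap (aeval f : MvPolynomial (Fin N) ℂ →ₐ[ℂ] R)) := by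
  have hY : IsVar (Pts P) := ⟨P, rfl⟩
  ext z
  constructor
  · rintro ⟨y, rfl⟩ q hq
    rw [← emb_aeval hY]
    exact y.2.2 _ hq
  · intro hz
    let φ : R →ₐ[ℂ] ℂ := AlgHom.liftOfSurjective _ (dvar_surj hf) (aeval z)
      fun q hq => hz q (by
        have h0 : aeval f q = 0 := hq
        rw [Ideal.mem_comap, h0]
        exact P.zero_mem)
    have hφ : ∀ q, φ (aeval f q) = eval z q := fun q => AlgHom.liftOfSurjective_apply _ _ _ _ q
    refine ⟨⟨φ, ⟨φ, rfl⟩, fun g hg => ?_⟩, funext fun j => ?_⟩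
    · obtain ⟨q, rfl⟩ := dvar_surj hf g
      rw [hφ]
      exact hz q hg
    · simpa [emb] using hφ (X j)

theorem dimLT_of_dim (hY : IsVar Y) (hf : Algebra.adjoin ℂ (range f) = ⊤) {A : Set Y} {k : ℕ}
    (h : Dim (emb f '' A) k) : DimLT A k := by
  intro g
  choose p hp using dvar_surj hf
  obtain ⟨q, hq, h'⟩ := h fun i => p (g i)
  refine ⟨q, hq, fun y hy => ?_⟩
  have h2 := h' _ ⟨y, hy, rfl⟩
  simpa only [← emb_aeval hY, hp] using h2

theorem dim_range (hY : IsVar Y) (hU : IsStrat d U) : Dim (range (emb (Y := Y) f)) (d + 1) := by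
  have h := hU.dim 0
  rw [hU.zero] at h
  have h2 := dim_image (f := f) hY h
  simpa using h2

theorem not_dim_range (hY : IsVar Y) (hf : Algebra.adjoin ℂ (range f) = ⊤) (hU : IsStrat d U)
    (h1 : (U 1).1.Nonempty) : ¬ Dim (range (emb (Y := Y) f)) d := by
  intro h
  rw [← image_univ] at h
  have h2 := dimLT_of_dim hY hf h
  obtain ⟨x, hx⟩ := h1
  obtain ⟨T, hT⟩ := hU.chart 0
  have hx0 : x ∉ (U 0 : Set Y) := by rw [hU.zero]; simp
  obtain ⟨g, W, -, hW, he⟩ := hT x ⟨hx, hx0⟩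
  obtain ⟨p, hp, h3⟩ := h2 g
  refine hp (open_zero_XJ0 he.isOpen_range ⟨⟨x, hW, hx, hx0⟩, rfl⟩ ?_)
  rintro _ ⟨y, rfl⟩
  exact h3 y.1 trivial

theorem exists_eqn (hY : IsVar Y) (hf : Algebra.adjoin ℂ (range f) = ⊤) (hU : IsStrat d U)
    (h1 : (U 1).1.Nonempty) : ∃ h : MvPolynomial (Fin N) ℂ, (∃ y : Y, eval (emb f y) h ≠ 0) ∧
      ∀ y : Y, y ∉ U 1 → eval (emb f y) h = 0 := by
  obtain ⟨T, hT⟩ := hU.alg 1
  obtain ⟨x, hx⟩ := h1
  have h2 : ¬ ∀ g ∈ T, x.1 g = 0 := fun h => (hT x).2 h hx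
  push Not at h2
  obtain ⟨g, hg, hxg⟩ := h2
  obtain ⟨q, rfl⟩ := dvar_surj hf g
  refine ⟨q, ⟨x, by rwa [← emb_aeval hY]⟩, fun y hy => ?_⟩
  rw [← emb_aeval hY]
  exact (hT y).1 hy _ hg

/-- local coordinates on the image give local coordinates on the variety -/
theorem emb_of_chart (hY : IsVar Y) (hf : Algebra.adjoin ℂ (range f) = ⊤) {k : ℕ}
    {ι : Fin k → Fin N} {F : Set (Fin N → ℂ)} (hF : F ⊆ range (emb (Y := Y) f)) {O : Opens Y}
    {x : Y} (hx : x ∈ O) (h : Chart F (fun i => X (ι i)) (emb f x)) :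
    ∃ W : Opens Y, x ∈ W ∧ IsOpenEmbedding
      fun (y : ↥((W : Set Y) ∩ ((O : Set Y) \ (emb f ⁻¹' F)ᶜ))) i => y.1.1 (f (ι i)) := by
  have he : IsClosedEmbedding (emb (Y := Y) f) := hY.closedEmb hf
  obtain ⟨O', N', ψ, hO', hN', hxN, hψ, hFN, hinv⟩ := h
  refine ⟨O ⊓ ⟨emb f ⁻¹' N', hN'.preimage (emb f).continuous⟩, ⟨hx, hxN⟩, ?_⟩
  have hpm : ∀ y : Y, (fun i => y.1 (f (ι i))) = pm (fun i => X (ι i)) (emb f y) := fun y => by
    funext i; simp [pm, emb]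
  have key : ∀ y : Y, emb f y ∈ F → emb f y ∈ N' →
      (fun i => y.1 (f (ι i))) ∈ O' ∧ ψ (fun i => y.1 (f (ι i))) = emb f y := fun y h1 h2 => by
    obtain ⟨u, hu, hu'⟩ : emb f y ∈ ψ '' O' := hFN ▸ ⟨h1, h2⟩
    rw [hpm, ← hu', hinv u hu]
    exact ⟨hu, rfl⟩
  refine IsOpenEmbedding.of_continuous_injective_isOpenMap ?_ ?_ ?_
  · exact continuous_pi fun i => (continuous_apply _).comp
      (continuous_subtype_val.comp continuous_subtype_val)
  · intro y y' hyy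
    have h1 := (key y.1 (not_not.1 y.2.2.2) y.2.1.2).2
    have h2 := (key y'.1 (not_not.1 y'.2.2.2) y'.2.1.2).2
    have h3 : (fun i => y.1.1 (f (ι i))) = fun i => y'.1.1 (f (ι i)) := hyy
    rw [h3, h2] at h1
    exact Subtype.ext (he.injective h1.symm)
  · intro V hV
    obtain ⟨V1, hV1, rfl⟩ := isOpen_induced_iff.1 hV
    obtain ⟨V2, hV2, hVV⟩ := he.isInducing.isOpen_iff.1 (hV1.inter O.2)
    have h1 := hψ.isOpen_inter_preimage hO' hV2
    refine (congrArg IsOpen (Set.ext fun u => ⟨?_, ?_⟩)).mpr h1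
    · rintro ⟨y, hy, rfl⟩
      obtain ⟨h2, h3⟩ := key y.1 (not_not.1 y.2.2.2) y.2.1.2
      refine ⟨h2, ?_⟩
      have h4 : y.1 ∈ emb f ⁻¹' V2 := by rw [hVV]; exact ⟨hy, y.2.2.1⟩
      rw [mem_preimage, h3]
      exact h4
    · rintro ⟨hu, hu2⟩
      have h2 : ψ u ∈ F ∩ N' := hFN ▸ ⟨u, hu, rfl⟩
      obtain ⟨y, hy⟩ := hF h2.1
      have h3 : y ∈ V1 ∩ (O : Set Y) := by
        have h4 : y ∈ emb f ⁻¹' V2 := by rw [mem_preimage, hy]; exact hu2
        rw [hVV] at h4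
        exact h4
      have h5 : emb f y ∈ F := by rw [hy]; exact h2.1
      have h6 : emb f y ∈ N' := by rw [hy]; exact h2.2
      refine ⟨⟨y, ⟨h3.2, h6⟩, h3.2, not_not.2 h5⟩, h3.1, ?_⟩
      show (fun i => y.1 (f (ι i))) = u
      rw [hpm, hy, hinv u hu]

end Pool.Agent.PWV
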