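import Pool.Agent.P.MP_65ad7c_ag.DVI

open Set Filter Topology TopologicalSpace
open Pool.Agent.PWD

noncomputable section
namespace Pool.Agent.PWV

variable {R : Type} [CommRing R] [Algebra ℂ R] {Y : Set (R → ℂ)} {N d : ℕ} {f : Fin N → R}
  {U : ℕ → Opens Y} {I : PWD.Cx Y} {one : Sec I 0 (U 1)}
  (hY : IsVar Y) (hf : Algebra.adjoin ℂ (range f) = ⊤) (hI : IsIC U I one)
include hY hf

theorem uic_gw (hU : IsStrat d U) : GW (icQ f hI) d := by
  have hz := ic_zc hY hf hU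
  have key : ∀ k : ℕ, (∃ c, d = k + c) ∨ icF f U (d + 1 - (k + 1)) \ icF f U (d + 1 - k) = ∅ :=
    fun k => by
      rcases Nat.lt_or_ge d k with h | h
      · rw [show d + 1 - (k + 1) = d + 1 - k by omega]
        exact Or.inr Set.sdiff_self
      · exact Or.inl ⟨d - k, by omega⟩
  refine FC.stratW _ (fun k => icF f U (d + 1 - k)) (fun k => hz _)
    (fun k => (dim_image hY (hU.dim _)).mono_nat (by omega)) (fun k => ?_) (D := d + 1)
    ((q_supp hI.inj (ic_emb hY hf)).mono ?_) (fun k => ?_) (fun k => ?_)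
  · rcases key k with ⟨c, rfl⟩ | h
    · obtain ⟨𝒢, h1, h2⟩ := strat_chart hY hf hU (c := c) (k := k) (by omega)
      refine ⟨𝒢, h1, ?_⟩
      rw [show k + c + 1 - (k + 1) = c by omega, show k + c + 1 - k = c + 1 by omega, ic_diff hY hf]
      rintro _ ⟨y, hy, rfl⟩
      exact h2 y hy
    · exact ⟨∅, finite_empty, fun x hx => (h ▸ hx : x ∈ (∅ : Set _)).elim⟩
  · rintro _ ⟨y, rfl⟩
    exact ⟨y, by simp [hU.zero], rfl⟩
  · rcases key k with ⟨c, rfl⟩ | h
    · rw [show k + c + 1 - (k + 1) = c by omega, show k + c + 1 - k = c + 1 by omega]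
      exact ic_gam_pc hY hf hI c
    · rw [h]
      exact fun γ _ _ h3 => (h3 ⟨le_rfl, zero_le_one⟩).elim
  · rcases key k with ⟨c, rfl⟩ | h
    · rw [show k + c + 1 - (k + 1) = c by omega, show k + c + 1 - k = c + 1 by omega]
      rcases Nat.eq_zero_or_pos c with rfl | hc
      · exact fun x _ j hj => FC.ex_neg _ (by push_cast at hj; omega) _ _
      · exact (ic_gam_deg hY hf hI hc).mono subset_rfl (by push_cast; omega)
    · rw [h]
      exact fun x hx => hx.elim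

theorem uic_inj {m j : ℕ} {L : Set (Fin N → ℂ)} (h : (icQ f hI).Ex (m - 1) univ L)
    {α : Sec I m ⊤} (hα : dd m (m + 1) α = 0) {O : Opens Y} (hO : emb f ⁻¹' L ⊆ (O : Set Y)) {t : Sec I j O}
    (ht : rs le_top α = dd j m t) : ∃ (k : ℕ) (s : Sec I k ⊤), α = dd k m s := by
  have hs := q_supp hI.inj (ic_emb hY hf)
  rw [FC.Ex, hs.ZT_eq univ, hs.ZT_eq L, univ_inter, ← image_preimage_eq_inter_range,
    ← image_univ] at h
  obtain ⟨u, rfl⟩ := vf_flabby (hI.inj _) t
  obtain ⟨O', h0, k, s, h1, -, h2⟩ := dv_near (O := ⊤) (s := α - dd j m u) hY hf hI h subset_rfl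
    (subset_univ _) ⟨supp_top.2 fun y hy => ⟨O, hO (not_not.1 hy), by
      rw [map_sub, vf_rs_dd, ht, sub_self]⟩, by rw [map_sub, hα, vf_dd_dd, sub_self]⟩
  obtain rfl : O' = ⊤ := top_le_iff.1 h1
  rw [vf_rs_self, eq_sub_iff_add_eq] at h2
  by_cases hj : j + 1 = m
  · by_cases hk : k + 1 = m
    · obtain rfl : k = j := by omega
      exact ⟨k, s + u, by rw [map_add, h2]⟩
    · exact ⟨j, u, by rw [← h2, vf_dd_ne hk, zero_add]⟩
  · exact ⟨k, s, by rw [← h2, vf_dd_ne hj, add_zero]⟩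

end Pool.Agent.PWV
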