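import Pool.Agent.P.MP_65ad7c_ag.YE1
import Pool.Agent.P.MP_65ad7c_ag.UGeo
import Pool.Agent.P.MP_65ad7c_ag.UIC
import Pool.Agent.P.MP_65ad7c_ag.UDef

open Set Filter Topology TopologicalSpace
open scoped Manifold ContDiff
open Pool.Agent.PW Pool.Agent.PWD Pool.Agent.HIR

noncomputable section
namespace Pool.Agent.PWF

section
variable {R : Type} [CommRing R] [Algebra ℂ R] {N d : ℕ} {f : Fin N → R} {P : Ideal R}

theorem wq_all' (hP : P.IsPrime) (hf : Algebra.adjoin ℂ (range f) = ⊤)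
    {Sr : (R → ℂ) → (R → ℂ) → Prop}
    (hS : ∀ y y' : Pts P, PWV.emb f y' = star (PWV.emb f y) → Sr y.1 y'.1)
    (hs : ∀ y : Pts P, ∃ y' : Pts P, PWV.emb f y' = star (PWV.emb f y)) {U : ℕ → Opens (Pts P)}
    (hU : IsStrat d U) (h1 : (U 1).1.Nonempty) {I : Cx (Pts P)} {one : Sec I 0 (U 1)}
    (hI : IsIC U I one) :
    ∃ (U' : ℕ → Opens (Pts P)) (one' : Sec I 0 (U' 1)), IsStrat d U' ∧ IsIC U' I one' ∧
      ∀ m, ∃ Q : Data (Pts P) (d - m), Model Q Sr d m (fun e => U' e) ∧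
        (∀ α : Glo I m, Coc univ α → α ∈ WQ one' Q (2 * m)) ∧
        Inj I {y | ∀ i : Fin (d - m), Q.c i.castSucc ⬝ᵥ Q.vec y = 0} m := by
  have hY : IsVar (Pts P) := ⟨P, rfl⟩
  have hr := PWV.range_emb hf P
  generalize hq : P.comap (MvPolynomial.aeval f : MvPolynomial (Fin N) ℂ →ₐ[ℂ] R) = p at hr
  have hp : p.IsPrime := hq ▸ Ideal.comap_isPrime _ _
  have hs' : ∀ y ∈ PWV.ZI p, star y ∈ PWV.ZI p := by
    rw [← hr]
    rintro _ ⟨y, rfl⟩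
    exact hs y
  have hd := PWV.dim_range (f := f) hY hU
  have hd' := PWV.not_dim_range hY hf hU h1
  have hdN : d ≤ N := not_lt.1 fun h => hd' (((PWV.dim_univ N).mono (subset_univ _)).mono_nat h)
  rw [hr] at hd hd'
  obtain ⟨h₀, ⟨y₀, hy₀⟩, h0⟩ := PWV.exists_eqn hY hf hU h1
  have hy : PWV.emb f y₀ ∈ PWV.ZI p := hr ▸ mem_range_self y₀
  obtain ⟨S, ph, H, hH, hN, hdv, hr0, hmd⟩ := exists_md hp hs' hd hd' fun hm => hy₀ (hy h₀ hm)
  obtain ⟨S', ph', hmd', hD, hA⟩ := exists_rb hH hmd hr0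
  obtain ⟨h, hh, hdim⟩ := hN.drop hp hd
  rw [← hr] at hdim hmd'
  obtain ⟨U', hU', hle, hU1, hF⟩ := PWV.exists_refine hY hf hU
    (fun y hy => (hh _).trans (hdv _ (h0 y hy))) hdim
  have hI' := hI.refine hU hU' hle hF
  have : Nonempty (Pts P) := ⟨y₀⟩
  refine ⟨U', _, hU', hI', fun m => ?_⟩
  obtain ⟨Q, hQ, hZ, L, hL, hE⟩ := exists_model' hY hf hS hmd' hD hA hU' (fun y => by rw [hU1, hh])
    m hdN (PWV.uic_gw hY hf hI' hU')
  obtain ⟨u, hu⟩ := hQ.exists_nat hY hI'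
  refine ⟨Q, model_iff.2 hQ, fun α hα => ?_, fun α hα O j t hO ht => ?_⟩
  · obtain ⟨η, hη⟩ := hQ.exists_rp hY hu hU' hI' hZ hα.2
    exact wq_iff.2 ⟨hα.2, u, η, hu, hη, hQ.inW_top hη⟩
  rcases le_or_gt m d with hm | hm
  · exact PWV.uic_inj hY hf hI' (hE _ (by omega)) hα.2 (hL.le.trans hO) ht
  · obtain ⟨k, s, e⟩ := av3 hY hf hU hI hm hα.2
    exact ⟨k, s, e.symm⟩

end

theorem fin_q' (n r : ℕ) (X : Type) [TopologicalSpace X] [T2Space X] [CompactSpace X]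
    [ConnectedSpace X] [ChartedSpace (EC n) X] [IsManifold 𝓘(ℂ, EC n) ω X] (hK : IsKahler n X)
    (x₀ : X) (G : Subgroup (GL (Fin r) ℂ)) (hG : Red G) (R : Type) [CommRing R] [Algebra ℂ R]
    (e : (FundamentalGroup X x₀ →* G) → R →ₐ[ℂ] ℂ) (he : IsInv e)
    (P : Ideal R) (hP : P ∈ minimalPrimes R) :
    (∀ y : Pts P, ∃ y' : Pts P, Cnj e y.1 y'.1) ∧
      (∃ (d : ℕ) (U : ℕ → Opens (Pts P)) (I : Cx (Pts P)) (one : Sec I 0 (U 1)),
        IsStrat d U ∧ (U 1).1.Nonempty ∧ IsIC U I one) ∧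
      ∀ (d : ℕ) (U : ℕ → Opens (Pts P)) (I : Cx (Pts P)) (one : Sec I 0 (U 1)),
        IsStrat d U → IsIC U I one →
        ((U 1).1.Nonempty → ∃ (U' : ℕ → Opens (Pts P)) (one' : Sec I 0 (U' 1)),
          IsStrat d U' ∧ IsIC U' I one' ∧ ∀ m, ∃ Q : Data (Pts P) (d - m),
            Model Q (Cnj e) d m (fun c => U' c) ∧
            (∀ α : Glo I m, Coc univ α → α ∈ WQ one' Q (2 * m)) ∧
            Inj I {y | ∀ i : Fin (d - m), Q.c i.castSucc ⬝ᵥ Q.vec y = 0} m) ∧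
        ∀ (m : ℕ) (Q : Data (Pts P) (d - m)), Model Q (Cnj e) d m (fun c => U c) →
          ∀ k, WQ one Q (2 * k + 1) = WQ one Q (2 * k) := by
  obtain ⟨K⟩ := exists_rotSys n X hK x₀
  obtain ⟨N, f, hf, hc⟩ := exists_real_gens hG he K.S K.gen
  have key : ∀ y y' : Pts P, Cnj e y.1 y'.1 ↔ PWV.emb f y' = star (PWV.emb f y) := fun y y' => by
    obtain ⟨φ, hφ⟩ := y.2.1
    obtain ⟨φ', hφ'⟩ := y'.2.1
    rw [← hφ, ← hφ', hc, funext_iff, hφ, hφ']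
    rfl
  obtain ⟨h3, h4, h5⟩ := fin_q n r X hK x₀ G hG R e he P hP
  exact ⟨h3, h4, fun d U I one hU hI => ⟨fun h4 => wq_all' hP.1.1 hf (fun y y' h => (key y y').2 h)
    (fun y => (h3 y).imp fun y' h => (key y y').1 h) hU h4 hI, (h5 d U I one hU hI).2⟩⟩

end Pool.Agent.PWF
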