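import Pool.Agent.P.MP_65ad7c_ag.VLow
import Pool.Agent.P.MP_65ad7c_ag.VStar

open Set Filter Topology Metric

noncomputable section
namespace Pool.Agent.PWV

variable {X : Cx} {E F : Type} [NormedAddCommGroup E] [NormedSpace ℝ E] [NormedAddCommGroup F]
  [NormedSpace ℝ F]

namespace FC

/-- Unique continuation in the lowest degree. -/
theorem uc (Q : FC X E) {A B : Set E} {b j : ℤ} (hBA : B ⊆ A) (hP : Q.PC A) (hD : Q.Deg A b)
    (hj : ∀ x ∈ A, ∃ y ∈ B, Relation.ReflTransGen (fun p q => segment ℝ p q ⊆ A) x y)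
    (hjb : j + 1 ≤ b) : Q.Ex j A B := by
  intro v hv hd
  refine Q.low_good hBA j (fun x hx i hi => hD x hx i (by omega)) hv fun x hx => ?_
  obtain ⟨y, hy, h⟩ := hj x hx
  clear hx
  induction h using Relation.ReflTransGen.head_induction_on with
  | refl =>
    refine ⟨0, zero_mem _, ?_⟩
    rw [map_zero, sub_zero]
    exact ZT_anti (singleton_subset_iff.2 hy) _ hv
  | @head p q hpq _ ih =>
    obtain ⟨w, hw, hw'⟩ := ih
    rw [segment_symm] at hpq
    obtain ⟨u, hu, hu'⟩ := hP.segment hpq j (v - X.d j w) hw' (by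
      rw [map_sub, X.dd, sub_zero]
      exact ZT_anti hpq _ hd)
    refine ⟨w + u, add_mem hw (ZT_anti (empty_subset _) _ hu), ?_⟩
    rw [map_add, ← sub_sub]
    exact ZT_anti (singleton_subset_iff.2 (right_mem_segment ℝ q p)) _ hu'

end FC

/-- From a point of the plane there is a segment of prescribed length that misses a finite set. -/
theorem exists_ray {P : Set ℂ} (hP : P.Finite) {τ : ℂ} (hτ : τ ∉ P) {s : ℝ} (hs : ‖τ‖ ≤ s) :
    ∃ τ' : ℂ, ‖τ'‖ = s ∧ Disjoint (segment ℝ τ τ') P := by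
  obtain ⟨t, ht⟩ := (hP.image fun p => (p - τ).im / (p - τ).re).infinite_compl.nonempty
  obtain ⟨u, hu⟩ : ∃ u : ℂ, u = ⟨1, t⟩ := ⟨_, rfl⟩
  have hu1 : 1 ≤ ‖u‖ := by
    have := Complex.re_le_norm u
    rwa [show u.re = 1 by rw [hu]] at this
  have h0 : 0 ≤ s + ‖τ‖ := add_nonneg ((norm_nonneg τ).trans hs) (norm_nonneg τ)
  have hc : ContinuousOn (fun l : ℝ => ‖τ + l • u‖) (Icc 0 (s + ‖τ‖)) := by fun_prop
  have h1 : s ≤ ‖τ + (s + ‖τ‖) • u‖ := by
    have a := norm_sub_le (τ + (s + ‖τ‖) • u) τ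
    rw [add_sub_cancel_left, norm_smul, Real.norm_of_nonneg h0] at a
    have b := le_mul_of_one_le_right h0 hu1
    linarith
  obtain ⟨l, -, hl⟩ := intermediate_value_Icc h0 hc (show s ∈ Icc _ _ from ⟨by simpa using hs, h1⟩)
  refine ⟨τ + l • u, hl, disjoint_left.2 fun p hp hpP => ?_⟩
  rw [segment_eq_image'] at hp
  obtain ⟨θ, -, rfl⟩ := hp
  simp only [add_sub_cancel_left, smul_smul] at hpP
  have hne : θ * l ≠ 0 := fun h => hτ (by rwa [h, zero_smul, add_zero] at hpP)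
  refine ht ⟨_, hpP, ?_⟩
  simp only [add_sub_cancel_left, Complex.smul_re, Complex.smul_im, hu, smul_eq_mul]
  rw [mul_one, mul_div_cancel_left₀ _ hne]

end Pool.Agent.PWV
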