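import Pool.Agent.P.MP_65ad7c_ag.VCS
import Pool.Agent.P.MP_65ad7c_ag.VUC

open Set Filter Topology Metric

noncomputable section
namespace Pool.Agent.PWV

variable {X : Cx} {N : ℕ}

namespace FC

/-- all costalks along a subvariety of dimension `< e` -/
theorem ulow_gam (Q : FC X (Fin N → ℂ)) {b : ℤ} (h : GW Q b) (e : ℕ) :
    ∀ V : Set (Fin N → ℂ), ZC V → Dim V e → (Q.gam V).Deg univ (b - e + 1) := by
  induction e with
  | zero =>
    intro V hV hd
    have hs := Q.supp_gam hV.isClosed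
    rw [dim_zero.1 hd] at hs ⊢
    simpa using (hs.deg_off (b - (0 : ℕ) + 1)).1
  | succ e ih =>
    intro V hV hd x _ j hj
    obtain ⟨V', hV', hd', -, hD⟩ := h V e hV hd
    have hc := hV'.isClosed
    refine tri_mid hc (empty_subset _) ?_ ?_
    · rw [Q.gam_gam hV.isClosed hc]
      exact ih _ (hV.inter hV') (hd'.mono inter_subset_right) x trivial j (by push_cast at hj; omega)
    · intro v hv hdv
      obtain ⟨O, hO, hx, hdO⟩ := (mem_loc_ZT _ hc.isOpen_compl).1 hdv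
      have hlow : (Q.gam V).Deg (O ∩ V'ᶜ) (b - e) := fun y hy i hi => by
        by_cases hyV : y ∈ V
        · exact hD y ⟨hyV, hy.2⟩ i hi
        · exact ((Q.supp_gam hV.isClosed).deg_off (b - e)).1 y hyV i hi
      obtain ⟨w, hw, hvw⟩ := hlow.ex_low (empty_subset _) (j := j) (by push_cast at hj; omega) v
        (mem_ZT.2 ⟨hv.1, fun y hy => hy.elim⟩) hdO
      exact ⟨w, mem_ZT.2 ⟨hw.1, fun y hy => hy.elim⟩,
        (mem_loc_ZT _ hc.isOpen_compl).2 ⟨O, hO, hx, hvw⟩⟩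

theorem ulow_two {P : Set ℂ} (hP : P.Finite) (h0 : (0 : ℂ) ∉ P) (h1 : (1 : ℂ) ∉ P) :
    ∃ z : ℂ, Disjoint (segment ℝ 0 z) P ∧ Disjoint (segment ℝ z 1) P := by
  obtain ⟨r, hr⟩ := ((hP.image fun p => p.im / (2 * p.re)).union
    (hP.image fun p => p.im / (2 * (1 - p.re)))).infinite_compl.nonempty
  refine ⟨⟨1 / 2, r⟩, disjoint_left.2 ?_, disjoint_left.2 ?_⟩
  · rintro _ ⟨s, t, -, -, -, rfl⟩ hp
    have ht : t ≠ 0 := by
      rintro rfl
      exact h0 (by simpa using hp)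
    refine hr (Or.inl ⟨_, hp, ?_⟩)
    simp
    field_simp
  · rintro _ ⟨s, t, -, -, hst, rfl⟩ hp
    obtain rfl : t = 1 - s := by linarith
    have hs : s ≠ 0 := by
      rintro rfl
      exact h1 (by simpa using hp)
    refine hr (Or.inr ⟨_, hp, ?_⟩)
    simp only [Complex.add_im, Complex.smul_im, Complex.add_re, Complex.smul_re, smul_eq_mul,
      Complex.one_im, Complex.one_re]
    rw [show (2 : ℝ) * (1 - (s * (1 / 2) + (1 - s) * 1)) = s by ring]
    field_simp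
    ring

theorem ulow_line (g : MvPolynomial (Fin N) ℂ) (x u : Fin N → ℂ) :
    ∃ p : Polynomial ℂ, ∀ s, p.eval s = MvPolynomial.eval (x + s • u) g := by
  induction g using MvPolynomial.induction_on with
  | C a => exact ⟨Polynomial.C a, fun s => by simp⟩
  | add a b ha hb =>
    obtain ⟨p, hp⟩ := ha
    obtain ⟨q, hq⟩ := hb
    exact ⟨p + q, fun s => by simp [hp, hq]⟩
  | mul_X a i ha =>
    obtain ⟨p, hp⟩ := ha
    exact ⟨p * (Polynomial.C (x i) + Polynomial.X * Polynomial.C (u i)),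
      fun s => by simp [hp, mul_comm s]⟩

theorem ulow_chain (g : MvPolynomial (Fin N) ℂ) {x t : Fin N → ℂ}
    (hx : MvPolynomial.eval x g ≠ 0) (ht : MvPolynomial.eval t g ≠ 0) :
    Relation.ReflTransGen (fun p q => segment ℝ p q ⊆ {y | MvPolynomial.eval y g = 0}ᶜ) x t := by
  obtain ⟨p, hp⟩ := ulow_line g x (t - x)
  have e0 : x + (0 : ℂ) • (t - x) = x := by simp
  have e1 : x + (1 : ℂ) • (t - x) = t := by simp
  have hp0 : p ≠ 0 := fun e => hx (by rw [← e0, ← hp, e, Polynomial.eval_zero])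
  obtain ⟨z, h1, h2⟩ := ulow_two (Polynomial.finite_setOfPred_isRoot hp0)
    (fun h => hx (by rw [← e0, ← hp]; exact h)) (fun h => ht (by rw [← e1, ← hp]; exact h))
  have key : ∀ a c : ℂ, Disjoint (segment ℝ a c) {s | p.IsRoot s} →
      segment ℝ (x + a • (t - x)) (x + c • (t - x)) ⊆ {y | MvPolynomial.eval y g = 0}ᶜ := by
    rintro a c h _ ⟨l, m, hl, hm, hlm, rfl⟩ hy
    refine disjoint_left.1 h ⟨l, m, hl, hm, hlm, rfl⟩ ((hp _).trans ?_)
    rw [← show _ = (0 : ℂ) from hy]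
    congr 2
    obtain rfl : m = 1 - l := by linarith
    funext i
    simp
    ring
  have k1 := key _ _ h1
  have k2 := key _ _ h2
  rw [e0] at k1
  rw [e1] at k2
  exact Relation.ReflTransGen.head k1 (Relation.ReflTransGen.single k2)

/-- restriction to a general point -/
theorem ulow_point (Q : FC X (Fin N → ℂ)) {b : ℤ} (h : GW Q b) :
    ∃ g : MvPolynomial (Fin N) ℂ, g ≠ 0 ∧ ∀ t, MvPolynomial.eval t g ≠ 0 →
      ∀ j : ℤ, j + 1 + N ≤ b → Q.Ex j univ {t} := by
  obtain ⟨g, hg, hp, hd⟩ := topW Q h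
  refine ⟨g, hg, fun t ht j hj => ?_⟩
  have hc := (zc_zero g).isClosed
  refine tri_mid hc (subset_univ _)
    ((ulow_gam Q h N _ (zc_zero g) (dim_hyp hg)).ex_low (subset_univ _) (by omega)) ?_
  rw [Ex, loc_ZT_open _ hc.isOpen_compl isOpen_univ, univ_inter,
    loc_ZT_sub _ hc.isOpen_compl (singleton_subset_iff.2 ht)]
  exact uc Q (singleton_subset_iff.2 ht) hp hd
    (fun x hx => ⟨t, rfl, ulow_chain g hx ht⟩) (by omega)

section cyl
variable {E : Type} [NormedAddCommGroup E] [NormedSpace ℝ E] [FiniteDimensional ℝ E]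

/-- outside the disc bundle nothing changes -/
theorem ulow_cyl (Q : FC X (E × ℂ)) (hP : Q.PC (univ ×ˢ Db)ᶜ) {L : Set E} (hL : IsClosed L)
    (hc : Convex ℝ L) {x : E} (hx : x ∈ L) : (Q.loc (univ ×ˢ Db)ᶜ).Acyc univ (L ×ˢ univ) := by
  have : ProperSpace E := FiniteDimensional.proper_real E
  have hDb : IsClosed Db := isClosed_closedBall
  have hF : IsClosed ((univ : Set E) ×ˢ Db) := isClosed_univ.prod hDb
  have key : ∀ K : Set E, IsCompact K → Convex ℝ K → x ∈ K → ∀ τ : ℂ,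
      (Q.loc (univ ×ˢ Db)ᶜ).Acyc (K ×ˢ {τ}) {(x, τ)} := fun K hK hK' hxK τ =>
    prodloc Q isOpen_univ hDb.isOpen_compl hF.isOpen_compl (fun y _ τ => by simp)
      (hP.mono fun p hp h => hp.2 h.2) hK hK' (subset_univ _) hxK τ
  refine vb_tower _ (fun i : ℕ => closedBall x i ×ˢ closedBall (0 : ℂ) i) (fun i j hij => ?_)
    (fun i => (isCompact_closedBall _ _).prod (isCompact_closedBall _ _)) (fun _ => subset_univ _)
    (relCl_of_isClosed (hL.prod isClosed_univ) (subset_univ _)) (fun p _ => ?_) Prod.snd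
    continuous_snd.continuousOn fun i τ => ?_
  · have h : (i : ℝ) ≤ j := by exact_mod_cast hij
    exact prod_mono (closedBall_subset_closedBall h) (closedBall_subset_closedBall h)
  · obtain ⟨i, hi⟩ := exists_nat_gt (max (dist p.1 x) (dist p.2 0))
    refine ⟨i, mem_nhdsWithin_of_mem_nhds (prod_mem_nhds ?_ ?_)⟩
    · exact closedBall_mem_nhds_of_mem ((le_max_left _ _).trans_lt hi)
    · exact closedBall_mem_nhds_of_mem ((le_max_right _ _).trans_lt hi)
  · by_cases hτ : τ ∈ closedBall (0 : ℂ) i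
    · have hi : x ∈ closedBall x (i : ℝ) := mem_closedBall_self (by positivity)
      have e1 : (closedBall x (i : ℝ) ×ˢ closedBall (0 : ℂ) i) ∩ Prod.snd ⁻¹' {τ} =
          closedBall x i ×ˢ {τ} := by
        ext p
        exact ⟨fun h => ⟨h.1.1, h.2⟩, fun h => ⟨⟨h.1, by rw [show p.2 = τ from h.2]; exact hτ⟩, h.2⟩⟩
      have e2 : L ×ˢ univ ∩ (closedBall x (i : ℝ) ×ˢ closedBall (0 : ℂ) i) ∩ Prod.snd ⁻¹' {τ} =
          (L ∩ closedBall x i) ×ˢ {τ} := by
        rw [inter_assoc, e1, prod_inter_prod, univ_inter]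
      rw [e1, e2]
      exact (key _ (isCompact_closedBall _ _) (convex_closedBall _ _) hi τ).left
        (prod_mono_left inter_subset_right) (singleton_subset_iff.2 (mk_mem_prod ⟨hx, hi⟩ rfl))
        (key _ ((isCompact_closedBall _ _).inter_left hL) (hc.inter (convex_closedBall _ _))
          ⟨hx, hi⟩ τ)
    · have e1 : (closedBall x (i : ℝ) ×ˢ closedBall (0 : ℂ) i) ∩ Prod.snd ⁻¹' {τ} = ∅ :=
        eq_empty_of_forall_notMem fun p h => hτ (by rw [← show p.2 = τ from h.2]; exact h.1.2)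
      rw [inter_assoc, e1, inter_empty]
      exact fun n => ex_self _ n _

end cyl

/-- one step of the tower of projections -/
theorem ulow_step {n : ℕ} (Q : FC X (Fin (n + 1) → ℂ)) {b : ℤ} (h : GW Q b) :
    ∃ k : MvPolynomial (Fin n) ℂ, k ≠ 0 ∧ ∀ v, MvPolynomial.eval v k ≠ 0 →
      ∃ Q' : FC X (Fin n → ℂ), GW Q' b ∧ ∀ L : Set (Fin n → ℂ), IsClosed L → Convex ℝ L →
        L.Nonempty → ∀ j, Q'.Ex j univ L → Q.Ex j univ (prj v ⁻¹' L) := by
  obtain ⟨g, hg, hp, hd⟩ := topW Q h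
  obtain ⟨k, hk, hk'⟩ := monic_dir hg
  refine ⟨k, hk, fun v hv => ?_⟩
  obtain ⟨G, hG, hgG⟩ := hk' v hv
  obtain ⟨R, hR, h0, hb⟩ := rootb hG
  have hs := isHomeomorph_sc v hR h0
  have tr := tr_comap Q hs.isInducing
  have him : sc v R '' (Rt G R)ᶜ ⊆ {x | MvPolynomial.eval x g = 0}ᶜ := by
    rintro _ ⟨p, hp, rfl⟩ e
    exact hp ((hgG p.1 _).1 e)
  have p0 : (Q.comap _ hs.isInducing).PC (Rt G R)ᶜ := (tr.pc hs.isEmbedding _).2 (hp.mono him)
  have d0 : (Q.comap _ hs.isInducing).Deg (Rt G R)ᶜ (b - (n + 1)) :=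
    (tr.deg _ _).2 (hd.mono him (by push_cast; exact le_rfl))
  have hF : IsClosed ((univ : Set (Fin n → ℂ)) ×ˢ Db) := isClosed_univ.prod isClosed_closedBall
  refine ⟨_, stepW hG hR h0 hb _ p0 d0 (preW Q h hG hgG hs), fun L hL hc ⟨x, hx⟩ j hj => ?_⟩
  have hsup := supp_gam (Q.comap _ hs.isInducing) hF
  rw [Ex, hsup.map_fst_ZT, hsup.map_fst_ZT] at hj
  have h1 : ((Q.comap _ hs.isInducing).gam (univ ×ˢ Db)).Ex j univ (L ×ˢ univ) := by
    rw [Ex, hsup.ZT_eq univ, hsup.ZT_eq (L ×ˢ univ), univ_inter, prod_inter_prod, inter_univ,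
      univ_inter]
    exact hj
  have h2 := ulow_cyl (Q.comap _ hs.isInducing)
    (p0.mono (compl_subset_compl.2 fun p hp => ⟨trivial, ?_⟩)) hL hc hx j
  · have h3 := (tr j univ _ (subset_univ _)).1 (tri_mid hF (subset_univ _) h1 h2)
    rw [image_univ, hs.surjective.range_eq] at h3
    have e : prj v ⁻¹' L = sc v R '' L ×ˢ univ := by
      ext y
      obtain ⟨p, rfl⟩ := hs.surjective y
      rw [hs.injective.mem_set_image, mem_preimage, prj_sc]
      simp
    rwa [e]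
  · have h1 := hb p.1 _ hp
    rw [norm_mul, Complex.norm_real, Real.norm_eq_abs, abs_of_pos (h0 p.1)] at h1
    exact mem_closedBall_zero_iff.2 ((mul_lt_iff_lt_one_right (h0 p.1)).1 h1).le

end FC

end Pool.Agent.PWV
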