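import Pool.Agent.P.MP_65ad7c_ag.XI1

open Set Filter Topology Asymptotics
open scoped ComplexConjugate
open Pool.Agent.HT (Amb proj cj IsChart IsSNC)
open Pool.Agent.PWV (ZC ZI Dim)

noncomputable section
namespace Pool.Agent.HIR

variable {n N : ℕ} {S : Sp n} {ph : Amb S.M → Amb N}

/-- countably many charts adapted to the divisors -/
theorem cover_adapted (hph : HolP n S.X ph) :
    ∃ (J : Type) (_ : Countable J) (φ : J → E n → Amb S.M) (g : J → E n → Fin N → ℂ)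
      (O : J → Set (E n)), (∀ k, IsOpen (O k) ∧ ∀ w ∈ O k, Pt S.X (φ k) w (φ k w) ∧
        AnalyticAt ℂ (g k) w ∧ g k w ≠ 0 ∧ ph (φ k w) = proj (g k w) ∧
        ∀ j, φ k w ∈ S.D j → ∃ i, Co (S.D j) (φ k) w i) ∧ ∀ x ∈ S.X, ∃ k, ∃ w ∈ O k, φ k w = x := by
  have key : ∀ x ∈ S.X, ∃ (φ : E n → Amb S.M) (g : E n → Fin N → ℂ) (O : Set (E n)),
      (IsOpen O ∧ ∀ w ∈ O, Pt S.X φ w (φ w) ∧ AnalyticAt ℂ g w ∧ g w ≠ 0 ∧
        ph (φ w) = proj (g w) ∧ ∀ j, φ w ∈ S.D j → ∃ i, Co (S.D j) φ w i) ∧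
      φ '' O ∈ 𝓝[S.X] x := by
    intro x hx
    obtain ⟨φ, z, κ, hp, -, hκ⟩ := chart_XE3 hx
    obtain ⟨g, hg, hg0, hge⟩ := hph φ z x hp
    have h1 : ∀ᶠ w in 𝓝 z, ∀ j ∈ Finset.range S.r, φ w ∈ S.D j → ∃ i, Co (S.D j) φ w i := by
      rw [Filter.eventually_all_finset]
      intro j _
      filter_upwards [eventually_eventually_nhds.2 (hκ j)] with w hw hm
      obtain ⟨k, -, hk⟩ := co_of_XE3 hm hw
      exact ⟨k, hk⟩
    have h2 : ∀ᶠ w in 𝓝 z, Pt S.X φ w (φ w) ∧ AnalyticAt ℂ g w ∧ g w ≠ 0 ∧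
        ph (φ w) = proj (g w) ∧ ∀ j, φ w ∈ S.D j → ∃ i, Co (S.D j) φ w i := by
      filter_upwards [hp.ev, hg.eventually_analyticAt, hg.continuousAt.eventually_ne hg0, hge, h1]
        with w a b c d e
      exact ⟨a, b, c, d, fun j hj => e j (Finset.mem_range.2 (Sp.lt hj)) hj⟩
    obtain ⟨O, hO1, hO2, hO3⟩ := eventually_nhds_iff.1 h2
    refine ⟨φ, g, O, ⟨hO2, hO1⟩, ?_⟩
    rw [← hp.map]
    exact image_mem_map (hO2.mem_nhds hO3)
  choose! φ g O h1 h2 using key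
  obtain ⟨t, ht, htc, hcov⟩ := TopologicalSpace.countable_cover_nhdsWithin
    (f := fun x => φ x '' O x) h2
  refine ⟨t, htc.to_subtype, fun k => φ k, fun k => g k, fun k => O k,
    fun k => h1 k (ht k.2), fun x hx => ?_⟩
  obtain ⟨k, hk, w, hw, e⟩ := mem_iUnion₂.1 (hcov hx)
  exact ⟨⟨k, hk⟩, w, hw, e⟩

theorem dot_der_XM4 {P : Type} [NormedAddCommGroup P] [NormedSpace ℂ P] {a b : P → Fin N → ℂ}
    {p : P} (ha : DifferentiableAt ℂ a p) (hb : DifferentiableAt ℂ b p) (q : P) :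
    fderiv ℂ (fun y => a y ⬝ᵥ b y) p q = fderiv ℂ a p q ⬝ᵥ b p + a p ⬝ᵥ fderiv ℂ b p q := by
  have h1 := hasFDerivAt_pi'.1 ha.hasFDerivAt
  have h2 := hasFDerivAt_pi'.1 hb.hasFDerivAt
  have h3 := HasFDerivAt.fun_sum (u := Finset.univ) fun j _ => (h1 j).fun_mul (h2 j)
  have h4 : fderiv ℂ (fun y => a y ⬝ᵥ b y) p = _ := h3.fderiv
  rw [h4]
  simp only [dotProduct, sum_apply, add_apply,
    smul_apply, ContinuousLinearMap.comp_apply, ContinuousLinearMap.proj_apply,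
    smul_eq_mul, ← Finset.sum_add_distrib]
  exact Finset.sum_congr rfl fun j _ => by ring

theorem an_dot_XM4 {P : Type} [NormedAddCommGroup P] [NormedSpace ℂ P] {a b : P → Fin N → ℂ}
    {p : P} (ha : AnalyticAt ℂ a p) (hb : AnalyticAt ℂ b p) :
    AnalyticAt ℂ (fun y => a y ⬝ᵥ b y) p :=
  Finset.analyticAt_fun_sum _ fun j _ => (analyticAt_pi_iff.1 ha j).mul (analyticAt_pi_iff.1 hb j)

/-- the parametrisation of the incidence variety -/
def psi_XM4 (g : E n → Fin N → ℂ) (T : Finset (Fin n)) (i : Fin N) (p : (Fin N → ℂ) × E n) :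
    Fin N → ℂ :=
  p.1 - (p.1 ⬝ᵥ g (rho T p.2) / g (rho T p.2) i) • Pi.single i 1

theorem an_G_XM4 {g : E n → Fin N → ℂ} {T : Finset (Fin n)} {p : (Fin N → ℂ) × E n}
    (hg : AnalyticAt ℂ g (rho T p.2)) :
    AnalyticAt ℂ (fun p : (Fin N → ℂ) × E n => g (rho T p.2)) p :=
  AnalyticAt.comp (f := fun p : (Fin N → ℂ) × E n => rho T p.2) hg
    (AnalyticAt.comp (f := fun p : (Fin N → ℂ) × E n => p.2) (an_rho T p.2) analyticAt_snd)

theorem an_psi_XM4 {g : E n → Fin N → ℂ} {T : Finset (Fin n)} {i : Fin N} {p : (Fin N → ℂ) × E n}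
    (hg : AnalyticAt ℂ g (rho T p.2)) (hi : g (rho T p.2) i ≠ 0) :
    AnalyticAt ℂ (psi_XM4 g T i) p :=
  analyticAt_fst.sub (((an_dot_XM4 analyticAt_fst (an_G_XM4 hg)).div
    (analyticAt_pi_iff.1 (an_G_XM4 hg) i) hi).smul analyticAt_const)

theorem psi_dot_XM4 {g : E n → Fin N → ℂ} {T : Finset (Fin n)} {i : Fin N}
    {p : (Fin N → ℂ) × E n} (hi : g (rho T p.2) i ≠ 0) :
    psi_XM4 g T i p ⬝ᵥ g (rho T p.2) = 0 := by
  rw [psi_XM4, sub_dotProduct, smul_dotProduct, single_dotProduct, one_mul, smul_eq_mul,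
    div_mul_cancel₀ _ hi, sub_self]

/-- Sard for the incidence variety -/
theorem thin_tangent {g : E n → Fin N → ℂ} {O : Set (E n)} (hO : IsOpen O)
    (hg : ∀ w ∈ O, AnalyticAt ℂ g w ∧ g w ≠ 0) (T : Finset (Fin n)) :
    Weil.Thin N {c : Fin N → ℂ | ∃ w ∈ O, (∀ i ∈ T, w i = 0) ∧ c ⬝ᵥ g w = 0 ∧
      ∀ l, l ∉ T → pd l (fun y => c ⬝ᵥ g y) w = 0} := by
  have hth : ∀ i : Fin N, Weil.Thin N _ := fun i =>
    Weil.thin_crit (U := {p : (Fin N → ℂ) × E n | rho T p.2 ∈ O ∧ g (rho T p.2) i ≠ 0})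
      (g := psi_XM4 g T i) (fun p hp => an_psi_XM4 (hg _ hp.1).1 hp.2) N
  refine (Weil.thin_iUnion hth).mono ?_ le_rfl
  rintro c ⟨w, hw, hT, hc, hl⟩
  obtain ⟨i, hi⟩ := Function.ne_iff.1 (hg w hw).2
  have hr : rho T w = w := rho_fix hT
  have hi' : g (rho T (c, w).2) i ≠ 0 := by rw [hr]; exact hi
  have hg' : AnalyticAt ℂ g (rho T (c, w).2) := by rw [hr]; exact (hg w hw).1
  have hval : psi_XM4 g T i (c, w) = c := by
    simp only [psi_XM4, hr, hc, zero_div, zero_smul, sub_zero]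
  refine mem_iUnion.2 ⟨i, (c, w), ⟨⟨by rw [hr]; exact hw, hi'⟩, ?_⟩, hval⟩
  have hG := an_G_XM4 hg'
  have hf : An w fun y => c ⬝ᵥ g y := an_dot_XM4 analyticAt_const (hg w hw).1
  have key : ∀ q, fderiv ℂ (psi_XM4 g T i) (c, w) q ⬝ᵥ g w = 0 := by
    intro q
    have h1 := dot_der_XM4 (an_psi_XM4 hg' hi').differentiableAt hG.differentiableAt q
    have h2 : (fun y => psi_XM4 g T i y ⬝ᵥ g (rho T y.2)) =ᶠ[𝓝 (c, w)] fun _ => 0 := by
      filter_upwards [(analyticAt_pi_iff.1 hG i).continuousAt.eventually_ne hi'] with y hy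
      exact psi_dot_XM4 hy
    have h3 := dot_der_XM4 (differentiableAt_const c) hG.differentiableAt q
    have h4 : fderiv ℂ (fun y : (Fin N → ℂ) × E n => c ⬝ᵥ g (rho T y.2)) (c, w) q = 0 := by
      have h5 := HasFDerivAt.comp (f := fun y : (Fin N → ℂ) × E n => y.2) (c, w)
        (hf.rho hT).differentiableAt.hasFDerivAt (hasFDerivAt_snd (𝕜 := ℂ) (p := (c, w)))
      have h6 : fderiv ℂ (fun y : (Fin N → ℂ) × E n => c ⬝ᵥ g (rho T y.2)) (c, w) = _ := h5.fderiv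
      rw [h6, ContinuousLinearMap.comp_apply, fderiv_rho hf hT, fderiv_eq_sum]
      refine Finset.sum_eq_zero fun l _ => ?_
      by_cases h : l ∈ T
      · simp [rho, h]
      · rw [hl l h, mul_zero]
    rw [h4, fderiv_fun_const] at h3
    rw [h2.fderiv_eq, fderiv_fun_const, hval, hr] at h1
    simp only [Pi.zero_apply, zero_apply, zero_dotProduct, zero_add] at h1 h3
    rw [← h3, add_zero] at h1
    exact h1.symm
  have hne : LinearMap.range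
      (fderiv ℂ (psi_XM4 g T i) (c, w) : ((Fin N → ℂ) × E n) →ₗ[ℂ] (Fin N → ℂ)) ≠ ⊤ := by
    intro e
    obtain ⟨q, hq⟩ := LinearMap.range_eq_top.1 e (Pi.single i 1)
    have h1 := key q
    rw [show fderiv ℂ (psi_XM4 g T i) (c, w) q = Pi.single i 1 from hq, single_dotProduct,
      one_mul] at h1
    exact hi h1
  simpa using Submodule.finrank_lt hne

/-- Bertini -/
theorem thin_tv (hph : HolP n S.X ph) : Weil.Thin N {c : Fin N → ℂ | ¬ Tv S ph c} := by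
  classical
  obtain ⟨J, hJ, φ, g, O, h1, h2⟩ := cover_adapted hph
  have hth := fun (k : J) (T : Finset (Fin n)) =>
    thin_tangent (h1 k).1 (fun w hw => ⟨((h1 k).2 w hw).2.1, ((h1 k).2 w hw).2.2.1⟩) T
  refine (Weil.thin_iUnion fun k => Weil.thin_iUnion fun T => hth k T).mono ?_ le_rfl
  intro c hc
  by_contra hn
  refine hc fun x hx => ?_
  obtain ⟨k, w, hw, rfl⟩ := h2 x hx.1
  obtain ⟨hp, hg, hg0, he, hD⟩ := (h1 k).2 w hw
  let T : Finset (Fin n) := Finset.univ.filter fun i => ∃ j, φ k w ∈ S.D j ∧ Co (S.D j) (φ k) w i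
  have hT : ∀ i ∈ T, w i = 0 := fun i hi => by
    obtain ⟨j, hj, hco⟩ := (Finset.mem_filter.1 hi).2
    exact hco.zero.1 hj
  have hc0 : c ⬝ᵥ g k w = 0 := (proj_hyp hg0 c).1 (he ▸ hx.2)
  obtain ⟨l, hlT, hl⟩ : ∃ l, l ∉ T ∧ pd l (fun y => c ⬝ᵥ g k y) w ≠ 0 := by
    by_contra hcon
    refine hn (mem_iUnion.2 ⟨k, mem_iUnion.2 ⟨T, w, hw, hT, hc0, fun l hl => ?_⟩⟩)
    by_contra h0
    exact hcon ⟨l, hl, h0⟩
  obtain ⟨σ, hb⟩ := bi_update (an_dot_XM4 analyticAt_const hg) hl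
  refine ⟨φ k ∘ σ, _, l, hp.comp hb, ?_, fun j hj => ?_⟩
  · filter_upwards [hb.symm.tendsto.eventually ((h1 k).1.mem_nhds hw), hb.right] with y hy hr
    obtain ⟨hp', -, hg0', he', -⟩ := (h1 k).2 _ hy
    have e : c ⬝ᵥ g k (σ y) = y l := by
      have := congrFun hr l
      rwa [Function.update_self] at this
    rw [← e, ← proj_hyp hg0' c, ← he']
    exact ⟨fun h => h.2, fun h => ⟨hp'.mem, h⟩⟩
  · obtain ⟨i, hi⟩ := hD j hj
    have hil : i ≠ l := fun e =>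
      hlT (e ▸ Finset.mem_filter.2 ⟨Finset.mem_univ _, j, hj, hi⟩)
    refine ⟨i, hil, hi.comp hb (Eventually.of_forall fun y => ?_)⟩
    exact Function.update_of_ne hil _ _

end Pool.Agent.HIR
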