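import Pool.Agent.P.MP_65ad7c_ag.VDefs

open Set Filter Topology Metric

noncomputable section
namespace Pool.Agent.PWV

namespace Cx
variable {X : Cx} {A B C : X.Sub} {n : ℤ}

theorem exs_mid (hBC : B ≤ C) (hAB : A ≤ B) (sB : X.Stab B) (h1 : X.ExS n A B)
    (h2 : X.ExS n B C) : X.ExS n A C := by
  intro v hv hd
  obtain ⟨w, hw, h3⟩ := h2 v hv (hAB _ hd)
  obtain ⟨w', hw', h4⟩ := h1 _ h3 (by rwa [map_sub, X.dd, sub_zero])
  exact ⟨w + w', add_mem hw (hBC _ hw'), by rwa [map_add, ← sub_sub]⟩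

theorem exs_left (hAB : A ≤ B) (hBC : B ≤ C) (sB : X.Stab B) (h1 : X.ExS (n + 1) A C)
    (h2 : X.ExS n B C) : X.ExS (n + 1) A B := by
  intro v hv hd
  obtain ⟨w, hw, h3⟩ := h1 v (hBC _ hv) hd
  obtain ⟨u, -, h4⟩ := h2 w hw (by simpa using sub_mem hv (hAB _ h3))
  exact ⟨_, h4, by rwa [map_sub, X.dd, sub_zero]⟩

theorem exs_right (hAB : A ≤ B) (hBC : B ≤ C) (sC : X.Stab C) (sB : X.Stab B) (h1 : X.ExS n A C)
    (h2 : X.ExS (n + 1) A B) : X.ExS n B C := by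
  intro v hv hd
  obtain ⟨w, hw, h3⟩ := h2 _ hd (by rw [X.dd]; exact zero_mem _)
  obtain ⟨u, hu, h4⟩ := h1 (v - w) (sub_mem hv (hBC _ hw)) (by rwa [map_sub])
  refine ⟨u, hu, ?_⟩
  have := add_mem (hAB _ h4) hw
  rwa [sub_right_comm, sub_add_cancel] at this

theorem exs_exc (sA : X.Stab A) (sB : X.Stab B) : X.ExS n (A ⊓ B) B ↔ X.ExS n A (A ⊔ B) := by
  constructor
  · intro h v hv hd
    obtain ⟨a, ha, b, hb, rfl⟩ := Submodule.mem_sup.1 hv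
    obtain ⟨w, hw, h1⟩ := h b hb ⟨by simpa using sub_mem hd (sA _ a ha), sB _ b hb⟩
    exact ⟨w, Submodule.mem_sup_right hw, by rw [add_sub_assoc]; exact add_mem ha h1.1⟩
  · intro h v hv hd
    obtain ⟨w, hw, h1⟩ := h v (Submodule.mem_sup_right hv) hd.1
    obtain ⟨a, ha, b, hb, rfl⟩ := Submodule.mem_sup.1 hw
    refine ⟨b, hb, ?_, sub_mem hv (sB _ b hb)⟩
    have := add_mem h1 (sA _ a ha)
    rwa [map_add, add_comm (X.d n a), ← sub_sub, sub_add_cancel] at this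

theorem Stab.inf (sA : X.Stab A) (sB : X.Stab B) : X.Stab (A ⊓ B) := by
  intro n v hv
  exact ⟨sA n v hv.1, sB n v hv.2⟩

theorem Stab.sup (sA : X.Stab A) (sB : X.Stab B) : X.Stab (A ⊔ B) := by
  intro n v hv
  obtain ⟨a, ha, b, hb, rfl⟩ := Submodule.mem_sup.1 hv
  rw [map_add]
  exact Submodule.add_mem_sup (sA n a ha) (sB n b hb)

variable {G : X.Sub}

theorem valg_low (hAB : A ≤ B) (sA : X.Stab A) (sB : X.Stab B) (sG : X.Stab G) (n : ℤ) :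
    X.ExS n (A ⊓ G) (B ⊓ G) ↔ X.ExS n A (A ⊔ B ⊓ G) := by
  rw [← exs_exc sA (sB.inf sG), ← inf_assoc, inf_eq_left.2 hAB]

theorem valg_up (hAB : A ≤ B) (sA : X.Stab A) (sB : X.Stab B) (sG : X.Stab G) (n : ℤ) :
    X.ExS n (A ⊔ B ⊓ G) B ↔ X.ExS n (A ⊔ G) (B ⊔ G) := by
  have e : A ⊔ B ⊓ G = (A ⊔ G) ⊓ B := funext fun k => by
    simp only [Pi.sup_apply, Pi.inf_apply]
    rw [sup_inf_assoc_of_le _ (hAB k), inf_comm]
  rw [e, exs_exc (sA.sup sG) sB, sup_right_comm, sup_eq_right.2 hAB]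

theorem tri_mid (hAB : A ≤ B) (sA : X.Stab A) (sB : X.Stab B) (sG : X.Stab G)
    (h1 : X.ExS n (A ⊓ G) (B ⊓ G)) (h3 : X.ExS n (A ⊔ G) (B ⊔ G)) : X.ExS n A B := by
  exact exs_mid (sup_le hAB inf_le_left) le_sup_left (sA.sup (sB.inf sG))
    ((valg_low hAB sA sB sG n).1 h1) ((valg_up hAB sA sB sG n).2 h3)

theorem tri_left (hAB : A ≤ B) (sA : X.Stab A) (sB : X.Stab B) (sG : X.Stab G)
    (h2 : X.ExS (n + 1) A B) (h3 : X.ExS n (A ⊔ G) (B ⊔ G)) :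
    X.ExS (n + 1) (A ⊓ G) (B ⊓ G) := by
  exact (valg_low hAB sA sB sG _).2 (exs_left le_sup_left (sup_le hAB inf_le_left)
    (sA.sup (sB.inf sG)) h2 ((valg_up hAB sA sB sG n).2 h3))

theorem tri_right (hAB : A ≤ B) (sA : X.Stab A) (sB : X.Stab B) (sG : X.Stab G)
    (h2 : X.ExS n A B) (h1 : X.ExS (n + 1) (A ⊓ G) (B ⊓ G)) : X.ExS n (A ⊔ G) (B ⊔ G) := by
  exact (valg_up hAB sA sB sG n).1 (exs_right le_sup_left (sup_le hAB inf_le_left) sB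
    (sA.sup (sB.inf sG)) h2 ((valg_low hAB sA sB sG _).1 h1))

end Cx

end Pool.Agent.PWV
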