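import Pool.Agent.P.MP_65ad7c_ag.VStar

open Set Filter Topology Metric

noncomputable section
namespace Pool.Agent.PWV

variable {X : Cx}

namespace FC

theorem vart1_pt (Q : FC X ℂ) {P : Set ℂ} {β : ℤ} {K : Set ℂ} (hK : IsCompact K)
    (hc : Convex ℝ K) (p0 : Q.PC (K \ P)) (d1 : Q.DegLe K β) (h : (K ∩ P).Subsingleton)
    {j : ℤ} (hj : β < j + 1) : Q.Ex j K ∅ := by
  rcases K.eq_empty_or_nonempty with rfl | ⟨c₀, h₀⟩
  · exact Q.ex_self j ∅
  obtain ⟨c, h1, h2⟩ : ∃ c ∈ K, K \ {c} ⊆ K \ P := by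
    rcases (K ∩ P).eq_empty_or_nonempty with e | ⟨c, h1⟩
    · exact ⟨c₀, h₀, fun x hx => ⟨hx.1, fun h2 => (e.subset ⟨hx.1, h2⟩).elim⟩⟩
    · exact ⟨c, h1.1, fun x hx => ⟨hx.1, fun h2 => hx.2 (h ⟨hx.1, h2⟩ h1)⟩⟩
  exact Ex.mid (singleton_subset_iff.2 h1) (empty_subset _)
    (Q.star hK h1 (hc.starConvex h1) (p0.mono h2) j) (d1 c h1 j hj)

/-- Vanishing above the middle degree on a compact convex subset of the plane. -/
theorem art1 (Q : FC X ℂ) {P : Set ℂ} (hP : P.Finite) {β : ℤ} {K : Set ℂ} (hK : IsCompact K)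
    (hc : Convex ℝ K) (p0 : Q.PC (K \ P)) (d0 : Q.DegLe (K \ P) (β - 1)) (d1 : Q.DegLe K β)
    {j : ℤ} (hj : β < j + 1) : Q.Ex j K ∅ := by
  induction hn : (K ∩ P).ncard using Nat.strong_induction_on generalizing K with
  | _ n ih =>
  rcases (K ∩ P).subsingleton_or_nontrivial with h | ⟨x, hx, y, hy, hxy⟩
  · exact Q.vart1_pt hK hc p0 d1 h hj
  obtain ⟨f, hf⟩ := geometric_hahn_banach_point_point hxy
  obtain ⟨s, hs, hs'⟩ := (Ioo_infinite hf).exists_notMem_finite (hP.image f)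
  have key : ∀ H : Set ℂ, IsClosed H → Convex ℝ H → ∀ z ∈ K ∩ P, z ∉ H → Q.Ex j (K ∩ H) ∅ :=
    fun H h1 h2 z hz hz' => ih _ (hn ▸ ncard_lt_ncard
      ⟨inter_subset_inter_left _ inter_subset_left, fun e => hz' (e hz).1.2⟩ (hP.inter_of_right _))
      (hK.inter_right h1) (hc.inter h2) (p0.mono fun _ h => ⟨h.1.1, h.2⟩)
      (d0.mono (fun _ h => ⟨h.1.1, h.2⟩) le_rfl) (d1.mono inter_subset_left le_rfl) rfl
  have c1 : IsClosed {t | f t ≤ s} := isClosed_le f.continuous continuous_const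
  have c2 : IsClosed {t | s ≤ f t} := isClosed_le continuous_const f.continuous
  have v1 : Convex ℝ {t | f t ≤ s} := convex_halfSpace_le f.toLinearMap.isLinear s
  have v2 : Convex ℝ {t | s ≤ f t} := convex_halfSpace_ge f.toLinearMap.isLinear s
  have e1 := key _ c1 v1 y hy hs.2.not_ge
  have e2 := key _ c2 v2 x hx hs.1.not_ge
  have hu : K ∩ {t | f t ≤ s} ∪ K ∩ {t | s ≤ f t} = K := by
    rw [← inter_union_distrib_left]
    exact inter_eq_left.2 fun t _ => le_total (f t) s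
  have hP' : ∀ t ∈ K ∩ {t | f t ≤ s} ∩ (K ∩ {t | s ≤ f t}), t ∉ P := fun t ht h =>
    hs' ⟨t, h, le_antisymm ht.1.2 ht.2.2⟩
  obtain ⟨m, rfl⟩ : ∃ m, j = m + 1 := ⟨j - 1, by ring⟩
  have e3 := Q.vart1_pt (P := P) (β := β - 1) (j := m)
    ((hK.inter_right c1).inter_right (hK.isClosed.inter c2)) ((hc.inter v1).inter (hc.inter v2))
    (p0.mono fun _ h => ⟨h.1.1.1, h.2⟩) (d0.mono (fun t h => ⟨h.1.1, hP' t h⟩) le_rfl)
    (fun t h => (hP' t h.1 h.2).elim) (by omega)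
  intro v hv hd
  have h := mv_good (empty_subset _) (empty_subset _)
    (sep_of_isClosed (hK.isClosed.inter c1) (hK.isClosed.inter c2))
    (sep_of_isClosed isClosed_empty isClosed_empty) (by rwa [inter_self])
    (e1 v hv (ZT_anti inter_subset_left _ hd)) (e2 v hv (ZT_anti inter_subset_left _ hd))
  rwa [hu, union_self] at h

end FC

end Pool.Agent.PWV
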