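import Pool.Agent.P.MP_65ad7c_ag.VProd
import Pool.Agent.P.MP_65ad7c_ag.VUC
import Pool.Agent.P.MP_65ad7c_ag.VArc

open Set Filter Topology Metric

noncomputable section
namespace Pool.Agent.PWV

variable {X : Cx} {E F : Type} [NormedAddCommGroup E] [NormedSpace ℝ E] [FiniteDimensional ℝ E]
  [NormedAddCommGroup F] [NormedSpace ℝ F] [FiniteDimensional ℝ F]

namespace FC

theorem cod1 (Q : FC X (E × ℂ)) {b : ℤ} (hP : Q.PC univ) (hD : Q.Deg univ b) :
    (Q.gam (univ ×ˢ {0})).PC (univ ×ˢ {0}) ∧ (Q.gam (univ ×ˢ {0})).Deg (univ ×ˢ {0}) (b + 1) := by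
  have := FiniteDimensional.proper_real E
  have hC : IsClosed (univ ×ˢ {0} : Set (E × ℂ)) := isClosed_univ.prod isClosed_singleton
  refine ⟨LC.pc fun y hy => ⟨closedBall y.1 1 ×ˢ {0}, prod_mono (subset_univ _) subset_rfl, ?_,
    fun x hx n => ?_⟩, fun x hx j hj => ?_⟩
  · refine mem_of_superset (inter_mem (nhdsWithin_le_nhds (continuous_fst.continuousAt.preimage_mem_nhds
      (closedBall_mem_nhds y.1 one_pos))) self_mem_nhdsWithin) fun z hz => ⟨hz.1, hz.2.2⟩
  · obtain ⟨m, rfl⟩ : ∃ m, n = m + 1 := ⟨n - 1, by ring⟩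
    obtain ⟨x, t⟩ := x
    obtain rfl : t = 0 := hx.2
    refine tri_left hC (singleton_subset_iff.2 hx) (Q.star
      ((isCompact_closedBall _ _).prod isCompact_singleton) hx
      (((convex_closedBall _ _).prod (convex_singleton _)).starConvex hx)
      (hP.mono (subset_univ _)) _) ?_
    exact Q.prodloc isOpen_univ (Ω := {0}ᶜ) isOpen_compl_singleton hC.isOpen_compl
      (fun _ _ _ => by simp) (hP.mono (subset_univ _)) (isCompact_closedBall _ _)
      (convex_closedBall _ _) (subset_univ _) hx.1 0 m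
  · rw [Q.gam_ex hC, ex_iff_good]
    intro v hv hd
    obtain ⟨e, he, hN⟩ := Metric.isOpen_iff.1 (Q.opn _ (X.d (j + 1) v)) x
      ((mem_ZT.1 hd).2 x (Or.inl rfl))
    have h0 : x.2 = 0 := hx.2
    have hy : (x.1, ((e / 2 : ℝ) : ℂ)) ∈ ball x e ∩ (univ ×ˢ {0} : Set (E × ℂ))ᶜ := by
      refine ⟨?_, fun h => ?_⟩
      · rw [mem_ball, Prod.dist_eq, dist_self, h0, dist_zero_right, Complex.norm_real,
          Real.norm_of_nonneg (by positivity)]
        exact max_lt he (by linarith)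
      · have h1 : ((e / 2 : ℝ) : ℂ) = 0 := h.2
        rw [Complex.ofReal_eq_zero] at h1
        linarith
    have h1 : Q.Ex j (ball x e) (ball x e ∩ (univ ×ˢ {0} : Set (E × ℂ))ᶜ) :=
      Q.uc inter_subset_left (hP.mono (subset_univ _)) (hD.mono (subset_univ _) le_rfl)
        (fun z hz => ⟨_, hy, .single ((convex_ball x e).segment_subset hz hy.1)⟩) (by omega)
    have h2 := (Q.ex_exc (sep_of_isOpen isOpen_ball hC.isOpen_compl)).2 h1
    rw [empty_union] at hv ⊢
    refine Good.mono (ex_iff_good.1 h2 v hv (mem_ZT.2 ⟨(mem_ZT.1 hd).1, ?_⟩))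
      (union_subset_union_left _ (singleton_subset_iff.2 (mem_ball_self he))) subset_rfl
    rintro z (hz | hz)
    · exact hN hz
    · exact (mem_ZT.1 hd).2 z (Or.inr hz)

end FC

end Pool.Agent.PWV
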