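import Pool.Agent.P.MP_65ad7c_ag.DVar
import Pool.Agent.P.MP_65ad7c_ag.VDim

/-! Algebraic subsets, dimension and charts of an affine variety in coordinates. -/

open Set Filter Topology TopologicalSpace MvPolynomial
open Pool.Agent.PWD

noncomputable section
namespace Pool.Agent.PWV

variable {R : Type} [CommRing R] [Algebra ℂ R] {Y : Set (R → ℂ)} {N : ℕ} {f : Fin N → R}

/-- The coordinates. -/
def emb (f : Fin N → R) : C(Y, Fin N → ℂ) :=
  ⟨fun y j => y.1 (f j), continuous_pi fun j => (continuous_apply (f j)).comp continuous_subtype_val⟩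

theorem emb_aeval (hY : IsVar Y) (y : Y) (p : MvPolynomial (Fin N) ℂ) :
    y.1 (aeval f p) = eval (emb f y) p := by
  obtain ⟨P, rfl⟩ := hY
  obtain ⟨φ, hφ⟩ := y.2.1
  change _ = eval (fun j => y.1 (f j)) p
  rw [← hφ, dvar_eval]

theorem zc_range (hY : IsVar Y) (hf : Algebra.adjoin ℂ (range f) = ⊤) :
    ZC (range (emb (Y := Y) f)) := by
  obtain ⟨P, hP⟩ := id hY
  refine ⟨{q | aeval f q = 0 ∨ aeval f q ∈ P}, Set.ext fun z => ⟨?_, fun hz => ?_⟩⟩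
  · rintro ⟨y, rfl⟩ q hq
    obtain ⟨⟨φ, hφ⟩, hy⟩ : (∃ φ : R →ₐ[ℂ] ℂ, ⇑φ = y.1) ∧ ∀ g ∈ P, y.1 g = 0 := hP.le y.2
    rw [← emb_aeval hY]
    rcases hq with h | h
    · rw [h, ← hφ, map_zero]
    · exact hy _ h
  · let φ : R →ₐ[ℂ] ℂ := AlgHom.liftOfSurjective _ (dvar_surj hf) (aeval z)
      fun q hq => hz q (Or.inl hq)
    have hφ : ∀ q, φ (aeval f q) = eval z q := fun q => AlgHom.liftOfSurjective_apply _ _ _ _ q
    refine ⟨⟨φ, ?_⟩, funext fun j => ?_⟩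
    · rw [hP]
      refine ⟨⟨φ, rfl⟩, fun g hg => ?_⟩
      obtain ⟨q, rfl⟩ := dvar_surj hf g
      rw [hφ]
      exact hz q (Or.inr hg)
    · simpa [emb] using hφ (X j)

theorem zc_image (hY : IsVar Y) (hf : Algebra.adjoin ℂ (range f) = ⊤) {H : Set Y}
    (hH : ∃ T : Set R, ∀ y, y ∈ H ↔ ∀ g ∈ T, y.1 g = 0) : ZC (emb f '' H) := by
  obtain ⟨T, hT⟩ := hH
  have : emb f '' H = range (emb (Y := Y) f) ∩ {x | ∀ q ∈ {q | aeval f q ∈ T}, eval x q = 0} := by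
    ext x
    constructor
    · rintro ⟨y, hy, rfl⟩
      exact ⟨⟨y, rfl⟩, fun q hq => by rw [← emb_aeval hY]; exact (hT y).1 hy _ hq⟩
    · rintro ⟨⟨y, rfl⟩, h⟩
      refine ⟨y, (hT y).2 fun g hg => ?_, rfl⟩
      obtain ⟨q, rfl⟩ := dvar_surj hf g
      rw [emb_aeval hY]
      exact h q hg
  rw [this]
  exact (zc_range hY hf).inter ⟨_, rfl⟩

theorem dim_image (hY : IsVar Y) {A : Set Y} {k : ℕ} (h : DimLT A k) : Dim (emb f '' A) k := by
  intro F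
  obtain ⟨p, hp, h'⟩ := h fun i => aeval f (F i)
  refine ⟨p, hp, ?_⟩
  rintro _ ⟨y, hy, rfl⟩
  simpa only [emb_aeval hY] using h' y hy

theorem chart_image (hY : IsVar Y) (hf : Algebra.adjoin ℂ (range f) = ⊤) {k : ℕ}
    {G : Fin k → MvPolynomial (Fin N) ℂ} {W F : Set Y} (hW : IsOpen W) {x : Y} (hx : x ∈ W ∩ F)
    (h : IsOpenEmbedding fun (y : ↥(W ∩ F)) i => y.1.1 (aeval f (G i))) :
    Chart (emb f '' F) G (emb f x) := by
  classical
  have he : IsClosedEmbedding (emb (Y := Y) f) := hY.closedEmb hf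
  obtain ⟨W₁, hW₁, hWW⟩ := he.isInducing.isOpen_iff.1 hW
  set g := fun (y : ↥(W ∩ F)) i => y.1.1 (aeval f (G i)) with hg
  have : Nonempty ↥(W ∩ F) := ⟨⟨x, hx⟩⟩
  have hinv : ∀ y, Function.invFun g (g y) = y := Function.leftInverse_invFun h.injective
  refine ⟨range g, W₁, fun z => emb f (Function.invFun g z).1, h.isOpen_range, hW₁,
    by rw [← mem_preimage, hWW]; exact hx.1, ?_, ?_, ?_⟩
  · refine ((emb f).continuous.comp continuous_subtype_val).comp_continuousOn ?_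
    rw [h.isInducing.continuousOn_iff]
    exact continuousOn_id.congr (by rintro _ ⟨y, rfl⟩; simp [hinv])
  · ext z
    constructor
    · rintro ⟨⟨y, hy, rfl⟩, hz⟩
      rw [← mem_preimage, hWW] at hz
      exact ⟨g ⟨y, hz, hy⟩, ⟨_, rfl⟩, by simp only [hinv]⟩
    · rintro ⟨z, -, rfl⟩
      refine ⟨⟨_, (Function.invFun g z).2.2, rfl⟩, ?_⟩
      rw [← mem_preimage, hWW]
      exact (Function.invFun g z).2.1
  · rintro _ ⟨y, rfl⟩
    funext i
    simp only [hinv, pm]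
    exact (emb_aeval hY _ _).symm

theorem strat_chart (hY : IsVar Y) (hf : Algebra.adjoin ℂ (range f) = ⊤) {d : ℕ}
    {U : ℕ → Opens Y} (hU : IsStrat d U) {c k : ℕ} (hk : k = d - c) :
    ∃ 𝒢 : Set (Fin k → MvPolynomial (Fin N) ℂ), 𝒢.Finite ∧
      ∀ y ∈ (U (c + 1) \ U c : Set Y), ∃ G ∈ 𝒢, Chart (emb f '' (U c : Set Y)ᶜ) G (emb f y) := by
  subst hk
  obtain ⟨T, hT⟩ := hU.chart c
  choose p hp using dvar_surj hf
  refine ⟨{G | ∀ i, G i ∈ p '' T}, Set.Finite.pi' fun _ => T.finite_toSet.image p, fun y hy => ?_⟩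
  obtain ⟨g, W, h1, h2, h3⟩ := hT y hy
  refine ⟨fun i => p (g i), fun i => ⟨_, h1 i, rfl⟩, chart_image hY hf (W := W ∩ U (c + 1))
    (W.2.inter (U _).2) ⟨⟨h2, hy.1⟩, hy.2⟩ ?_⟩
  simp only [hp]
  have e : (W : Set Y) ∩ U (c + 1) ∩ (U c : Set Y)ᶜ =
      (W : Set Y) ∩ ((U (c + 1) : Set Y) \ U c) := inter_assoc _ _ _
  exact h3.comp (Homeomorph.setCongr e).isOpenEmbedding

end Pool.Agent.PWV
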