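import Pool.Agent.P.MP_65ad7c_ag.VRat
import Pool.Agent.P.MP_65ad7c_ag.VTr
import Pool.Agent.P.MP_65ad7c_ag.VArc

open Set Filter Topology Metric

noncomputable section
namespace Pool.Agent.PWV

open MvPolynomial

variable {X : Cx} {N M : ℕ}

theorem vgwt_emb (f : Fin M → MvPolynomial (Fin N) ℂ) (h : MvPolynomial (Fin N) ℂ)
    (g : Fin N → MvPolynomial (Fin M) ℂ) (t : MvPolynomial (Fin M) ℂ)
    (h1 : ∀ x, eval x h ≠ 0 → eval (ratm f h x) t ≠ 0)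
    (h2 : ∀ x, eval x h ≠ 0 → ratm g t (ratm f h x) = x) : IsEmbedding (ratC f h) := by
  have h3 : IsEmbedding fun x : {x : Fin N → ℂ // eval x h ≠ 0} =>
      (⟨ratC f h x, h1 x.1 x.2⟩ : {y : Fin M → ℂ // eval y t ≠ 0}) := by
    refine IsEmbedding.of_comp ((ratC f h).continuous.subtype_mk _) (ratC g t).continuous ?_
    convert IsEmbedding.subtypeVal (p := fun x : Fin N → ℂ => eval x h ≠ 0) using 1
    exact funext fun x => h2 x.1 x.2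
  exact IsEmbedding.subtypeVal.comp h3

theorem vgwt_open (h : MvPolynomial (Fin N) ℂ) : IsOpen {x : Fin N → ℂ | eval x h ≠ 0} :=
  isOpen_ne_fun (continuous_eval h) continuous_const

namespace FC

theorem vgwt_supp {T T' : Type} [MetricSpace T] [MetricSpace T'] {Q : FC X T} {C : Set T}
    (hQ : Q.Supp C) (p : C(T, T')) {D : Set T'} (hD : IsClosed D) (h : MapsTo p C D) :
    (Q.map p).Supp D := fun n v hv y hy => eventually_comap.2 <| by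
  filter_upwards [hD.isOpen_compl.mem_nhds hy] with y' hy' x hx
  exact hQ n v hv x fun hc => hy' (hx ▸ h hc)

/-- The class `GW` is stable under direct images along rational embeddings. -/
theorem gwt (Q : FC X (Fin N → ℂ)) {a : ℤ} (hQ : GW Q a) (f : Fin M → MvPolynomial (Fin N) ℂ)
    (h : MvPolynomial (Fin N) ℂ) (g : Fin N → MvPolynomial (Fin M) ℂ) (t : MvPolynomial (Fin M) ℂ)
    {W : Set (Fin M → ℂ)} (hW : ZC W)
    (h1 : ∀ x, eval x h ≠ 0 →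
      eval (ratm f h x) t ≠ 0 ∧ ratm f h x ∈ W ∧ ratm g t (ratm f h x) = x)
    (h2 : ∀ y ∈ W, eval y t ≠ 0 → eval (ratm g t y) h ≠ 0 ∧ ratm f h (ratm g t y) = y) :
    GW (Q.pushR f h) a := by
  intro V e hV hd
  have hκ := vgwt_emb f h g t (fun x hx => (h1 x hx).1) fun x hx => (h1 x hx).2.2
  have d0 : Dim {x | eval x h ≠ 0 ∧ ratm f h x ∈ V} (e + 1) :=
    ((hd.mono (B := V ∩ {y | eval y t ≠ 0}) inter_subset_left).ratm g fun y hy => hy.2).mono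
      fun x hx => ⟨_, ⟨hx.2, (h1 x hx.1).1⟩, (h1 x hx.1).2.2⟩
  obtain ⟨V₄, z4, d4, p4, g4⟩ := hQ _ e (zc_zcl _) d0.zcl
  set Vh := zcl {x | eval x h ≠ 0 ∧ ratm f h x ∈ V}
  have e1 : ratC f h ⁻¹' V = Subtype.val ⁻¹' Vh :=
    Set.ext fun x => ⟨fun hx => subset_zcl _ ⟨x.2, hx⟩, fun hx => hV.ratm f h x.2 hx⟩
  have t1 := tr_gam_comap (φ := (Subtype.val : {x : Fin N → ℂ // eval x h ≠ 0} → _)) Q.supp_univ
    IsInducing.subtypeVal (vgwt_open h) (by rw [univ_inter]; exact Subtype.range_coe_subtype)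
    (C := Vh) (zc_zcl _).isClosed
  have t2 := tr_map_emb ((Q.comap _ IsInducing.subtypeVal).gam (Subtype.val ⁻¹' Vh)) _ hκ
  have e2 : (Q.pushR f h).gam V =
      ((Q.comap _ IsInducing.subtypeVal).gam (Subtype.val ⁻¹' Vh)).map (ratC f h) :=
    (map_gam _ _ hV.isClosed).trans (congrArg (fun C => (gam _ C).map (ratC f h)) e1)
  rw [← e2] at t2
  have p5 : ((Q.pushR f h).gam V).PC (ratC f h '' (Subtype.val ⁻¹' (Vh \ V₄))) :=
    (t2.pc hκ _).1 ((t1.pc IsEmbedding.subtypeVal _).2 (p4.mono (image_preimage_subset _ _)))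
  have g5 : ((Q.pushR f h).gam V).Deg (ratC f h '' (Subtype.val ⁻¹' (Vh \ V₄))) (a - e) :=
    (t2.deg _ _).1 ((t1.deg _ _).2 (g4.mono (image_preimage_subset _ _) le_rfl))
  have sW : ((Q.pushR f h).gam V).Supp W :=
    (vgwt_supp (supp_univ _) (ratC f h) hW.isClosed fun x _ => (h1 x.1 x.2).2.1).gam V
  have z0 : IsClosed (V ∩ {y | eval y t = 0}) := (hV.inter (zc_zero t)).isClosed
  have s0 : ((Q.pushR f h).gam (V ∩ {y | eval y t = 0})).Supp ∅ := by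
    rw [pushR, map_gam _ _ z0]
    exact vgwt_supp (supp_gam _ (z0.preimage (ratC f h).continuous)) _ isClosed_empty
      fun x hx => (h1 x.1 x.2).1 hx.2
  have hδ : ∀ p : Ideal (MvPolynomial (Fin M) ℂ), ∃ δ, p.IsPrime → δ ∉ p ∧
      (t ∈ p ∨ (ZI p ⊆ W ∧ δ = t) ∨ ∀ x ∈ W, eval x δ = 0) := fun p => by
    by_cases k1 : t ∈ p
    · exact ⟨1, fun hp => ⟨hp.one_notMem, Or.inl k1⟩⟩
    by_cases k2 : ZI p ⊆ W
    · exact ⟨t, fun _ => ⟨k1, Or.inr (Or.inl ⟨k2, rfl⟩)⟩⟩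
    obtain ⟨δ, k3, k4⟩ := hW.exists_not_mem k2
    exact ⟨δ, fun _ => ⟨k3, Or.inr (Or.inr k4)⟩⟩
  choose δ hδ using hδ
  obtain ⟨V₂, z2, d2, h3⟩ := comp hV hd δ fun p hp => (hδ p hp).1
  have d1 : Dim (zcl (ratm f h '' (V₄ ∩ {x | eval x h ≠ 0}))) e :=
    ((d4.mono inter_subset_left).ratm f fun x hx => hx.2).zcl
  refine ⟨_, (zc_zcl _).union z2, d1.union d2, ?_⟩
  generalize hS : V \ (zcl (ratm f h '' (V₄ ∩ {x | eval x h ≠ 0})) ∪ V₂) = S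
  suffices key : ∀ x ∈ S, ∃ A ∈ 𝓝[S] x, ((Q.pushR f h).gam V).PC A ∧
      ((Q.pushR f h).gam V).Deg A (a - e) by
    refine ⟨pc_local fun x hx => (key x hx).imp fun A hA => ⟨hA.1, hA.2.1⟩, fun x hx => ?_⟩
    obtain ⟨A, k1, -, k2⟩ := key x hx
    exact k2 x (mem_of_mem_nhdsWithin hx k1)
  subst hS
  intro x hx
  obtain ⟨p, hp, -, -, -, k1, k2⟩ := h3 x ⟨hx.1, fun k => hx.2 (Or.inr k)⟩
  rcases (hδ p hp).2 with k3 | ⟨k3, k4⟩ | k3
  · obtain ⟨U, k4, k5, k6⟩ := _root_.eventually_nhds_iff.1 k2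
    have k7 : ∀ n A B, A ⊆ U → B ⊆ A → ((Q.pushR f h).gam V).Ex n A B := fun n A B hA hB =>
      (ex_gam_congr _ k5 hV.isClosed z0 (Set.ext fun y => ⟨fun hy => ⟨⟨hy.1, k4 y hy.2 hy.1 t k3⟩,
        hy.2⟩, fun hy => ⟨hy.1.1, hy.2⟩⟩) hA hB n).2 (s0.ex_off (by simp) hB)
    refine ⟨U, mem_nhdsWithin_of_mem_nhds (k5.mem_nhds k6), fun γ _ _ hm n => ?_,
      fun y hy j _ => k7 j _ _ (singleton_subset_iff.2 hy) (empty_subset _)⟩
    exact k7 n _ _ hm.image_subset (singleton_subset_iff.2 ⟨0, left_mem_Icc.2 zero_le_one, rfl⟩)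
  · refine ⟨_, ?_, p5, g5⟩
    rw [k4] at k1
    filter_upwards [self_mem_nhdsWithin, nhdsWithin_le_nhds k2,
      nhdsWithin_le_nhds ((vgwt_open t).mem_nhds k1)] with y k5 k6 k7
    obtain ⟨k8, k9⟩ := h2 y (k3 (k6 k5.1)) k7
    exact ⟨⟨_, k8⟩, ⟨subset_zcl _ ⟨k8, k9.symm ▸ k5.1⟩,
      fun k => k5.2 (Or.inl (subset_zcl _ ⟨_, ⟨k, k8⟩, k9⟩))⟩, k9⟩
  · exact ⟨Wᶜ, mem_nhdsWithin_of_mem_nhds (hW.isClosed.isOpen_compl.mem_nhds fun k => k1 (k3 x k)),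
      sW.pc_off, (sW.deg_off _).1⟩

end FC

end Pool.Agent.PWV
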