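import Pool.Agent.P.MP_65ad7c_ag.VDefs

open Set Filter Topology Metric

noncomputable section
namespace Pool.Agent.PWV

variable {X : Cx} {T T' : Type} [MetricSpace T] [MetricSpace T']

/-- Gluing of germs along an arbitrary subset of a metric space. -/
theorem FC.glue_res (Q : FC X T) (A : Set T) (n : ℤ) (ι : Type) (O : ι → Set T) (v : ι → X.V n)
    (hO : ∀ i, IsOpen (O i)) (hv : ∀ i, v i ∈ Q.top n)
    (h : ∀ i j, ∀ x ∈ A, x ∈ O i → x ∈ O j → v i - v j ∈ Q.z n x) :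
    ∃ w ∈ Q.top n, ∀ i, ∀ x ∈ A, x ∈ O i → w - v i ∈ Q.z n x := by
  obtain ⟨U, hU⟩ : ∃ U : Set T, U = ⋃ i, O i := ⟨_, rfl⟩
  have hUo : IsOpen U := hU ▸ isOpen_iUnion hO
  obtain ⟨V, hVo, hVc, hVl, hVs⟩ := precise_refinement (fun i => (Subtype.val : U → T) ⁻¹' O i)
    (fun i => (hO i).preimage continuous_subtype_val) (by
      rw [← preimage_iUnion, ← hU]; exact Subtype.coe_preimage_self U)
  obtain ⟨W, hWc, hWo, hWs⟩ := exists_iUnion_eq_closure_subset hVo hVl.point_finite hVc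
  have hl : LocallyFinite fun i => closure (W i) := hVl.subset hWs
  obtain ⟨G, hG⟩ : ∃ G : Set U, G = {x | ∀ i j, x ∈ closure (W i) → x ∈ closure (W j) →
    v i - v j ∈ Q.z n x.1} := ⟨_, rfl⟩
  have hGo : IsOpen G := by
    rw [hG, isOpen_iff_eventually]
    intro x hx
    have h1 := hl.eventually_subset (fun _ => isClosed_closure) x
    have hf := hl.point_finite x
    have h2 : ∀ᶠ y : U in 𝓝 x, ∀ i ∈ {i | x ∈ closure (W i)}, ∀ j ∈ {i | x ∈ closure (W i)},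
        v i - v j ∈ Q.z n y.1 :=
      (eventually_all_finite hf).2 fun i hi => (eventually_all_finite hf).2 fun j hj =>
        ((Q.opn n (v i - v j)).preimage continuous_subtype_val).mem_nhds (hx i j hi hj)
    filter_upwards [h1, h2] with y g1 g2 i j hi hj
    exact g2 i (g1 hi) j (g1 hj)
  obtain ⟨w, hw, hw'⟩ := Q.glue n ι (fun i => Subtype.val '' (G ∩ W i)) v
    (fun i => hUo.isOpenMap_subtype_val _ (hGo.inter (hWo i))) hv (by
      rintro i j _ ⟨⟨x, ⟨hx, hi⟩, rfl⟩, ⟨y, ⟨-, hj⟩, e⟩⟩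
      rw [Subtype.val_injective e] at hj
      rw [hG] at hx
      exact hx i j (subset_closure hi) (subset_closure hj))
  refine ⟨w, hw, fun i x hx hi => ?_⟩
  have hxU : x ∈ U := hU ▸ mem_iUnion.2 ⟨i, hi⟩
  obtain ⟨j, hj⟩ := mem_iUnion.1 (hWc.symm ▸ mem_univ (⟨x, hxU⟩ : U) : (⟨x, hxU⟩ : U) ∈ iUnion W)
  have hxG : (⟨x, hxU⟩ : U) ∈ G := by
    rw [hG]
    exact fun a b ha hb => h a b x hx (hVs a (hWs a ha)) (hVs b (hWs b hb))
  have := add_mem (hw' j x ⟨_, ⟨hxG, hj⟩, rfl⟩) (h j i x hx (hVs j (hWs j (subset_closure hj))) hi)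
  rwa [sub_add_sub_cancel] at this

end Pool.Agent.PWV
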