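import Pool.Agent.P.MP_65ad7c_ag.VGWT

open Set Filter Topology Metric

noncomputable section
namespace Pool.Agent.PWV

open MvPolynomial

/-- homogeneous coordinates as polynomials -/
def vkap_U (N : ℕ) : Fin (N + 1) → MvPolynomial (Fin N) ℂ := Fin.cons 1 X

/-- the affine form with coefficients `c` -/
def vkap_l {N : ℕ} (c : Fin (N + 1) → ℂ) : MvPolynomial (Fin N) ℂ := ∑ j, C (c j) * vkap_U N j

theorem vkap_eval_U {N : ℕ} (x : Fin N → ℂ) (j : Fin (N + 1)) :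
    eval x (vkap_U N j) = (Fin.cons 1 x : Fin (N + 1) → ℂ) j := by
  refine Fin.cases ?_ (fun j => ?_) j <;> simp [vkap_U]

theorem vkap_eval_l {N : ℕ} (c : Fin (N + 1) → ℂ) (x : Fin N → ℂ) :
    eval x (vkap_l c) = c ⬝ᵥ (Fin.cons 1 x : Fin (N + 1) → ℂ) := by
  simp only [vkap_l, map_sum, map_mul, eval_C, vkap_eval_U, dotProduct]

theorem vkap_norm {N : ℕ} (x : Fin N → ℂ) : 1 ≤ ‖(Fin.cons 1 x : Fin (N + 1) → ℂ)‖ := by
  simpa using norm_le_pi_norm (Fin.cons 1 x : Fin (N + 1) → ℂ) 0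

/-- numerators of the embedding -/
def vkap_f {N a : ℕ} (c : Fin (a + 1) → Fin (N + 1) → ℂ) (m : Fin ((a + 1) * (N + 1))) :
    MvPolynomial (Fin N) ℂ :=
  vkap_U N (finProdFinEquiv.symm m).2 *
    ∏ i ∈ Finset.univ.erase (finProdFinEquiv.symm m).1, vkap_l (c i)

theorem vkap_h {N a : ℕ} (c : Fin (a + 1) → Fin (N + 1) → ℂ) (x : Fin N → ℂ) :
    eval x (∏ i, vkap_l (c i)) ≠ 0 ↔ ∀ i, c i ⬝ᵥ (Fin.cons 1 x : Fin (N + 1) → ℂ) ≠ 0 := by
  simp only [map_prod, vkap_eval_l, Finset.prod_ne_zero_iff, Finset.mem_univ, true_imp_iff]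

theorem vkap_rat {N a : ℕ} (c : Fin (a + 1) → Fin (N + 1) → ℂ) {x : Fin N → ℂ}
    (hx : ∀ i, c i ⬝ᵥ (Fin.cons 1 x : Fin (N + 1) → ℂ) ≠ 0) (i : Fin (a + 1)) (j : Fin (N + 1)) :
    ratm (vkap_f c) (∏ i, vkap_l (c i)) x (finProdFinEquiv (i, j)) =
      (Fin.cons 1 x : Fin (N + 1) → ℂ) j / (c i ⬝ᵥ (Fin.cons 1 x : Fin (N + 1) → ℂ)) := by
  have h1 : (∏ k ∈ Finset.univ.erase i, c k ⬝ᵥ (Fin.cons 1 x : Fin (N + 1) → ℂ)) ≠ 0 :=
    Finset.prod_ne_zero_iff.2 fun k _ => hx k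
  simp only [ratm, vkap_f, Equiv.symm_apply_apply, map_mul, map_prod, vkap_eval_U, vkap_eval_l]
  rw [← Finset.mul_prod_erase Finset.univ _ (Finset.mem_univ i), mul_div_mul_right _ _ h1]

/-- The embedding `x ↦ ((1, x) / l_i x)_i`. -/
theorem exists_kappa {N a : ℕ} (c : Fin (a + 1) → Fin (N + 1) → ℂ) :
    ∃ (M : ℕ) (f : Fin M → MvPolynomial (Fin N) ℂ) (h : MvPolynomial (Fin N) ℂ)
      (g : Fin N → MvPolynomial (Fin M) ℂ) (t : MvPolynomial (Fin M) ℂ) (W : Set (Fin M → ℂ)),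
      ZC W ∧ (∀ x, eval x h ≠ 0 →
        eval (ratm f h x) t ≠ 0 ∧ ratm f h x ∈ W ∧ ratm g t (ratm f h x) = x) ∧
      (∀ y ∈ W, eval y t ≠ 0 → eval (ratm g t y) h ≠ 0 ∧ ratm f h (ratm g t y) = y) ∧
      ∀ ε > 0, ∀ x, x ∈ ⋂ i, Far (c i) ε ↔ eval x h ≠ 0 ∧ ‖ratm f h x‖ ≤ ε⁻¹ := by
  refine ⟨(a + 1) * (N + 1), vkap_f c, ∏ i, vkap_l (c i),
    fun j => X (finProdFinEquiv (0, j.succ)), X (finProdFinEquiv (0, 0)),
    {y | (∀ i, ∑ j, c i j * y (finProdFinEquiv (i, j)) = 1) ∧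
      ∀ i j, y (finProdFinEquiv (i, j)) * y (finProdFinEquiv (0, 0)) =
        y (finProdFinEquiv (i, 0)) * y (finProdFinEquiv (0, j))}, ?_, ?_, ?_, ?_⟩
  · refine ⟨range (fun i : Fin (a + 1) => ∑ j, C (c i j) * X (finProdFinEquiv (i, j)) - 1) ∪
      range (fun p : Fin (a + 1) × Fin (N + 1) =>
        X (finProdFinEquiv p) * X (finProdFinEquiv (0, 0)) -
          X (finProdFinEquiv (p.1, 0)) * X (finProdFinEquiv (0, p.2))), ?_⟩
    ext y
    simp only [mem_ofPred_eq, mem_union, or_imp, forall_and, forall_mem_range, map_sub, map_sum,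
      map_mul, eval_C, eval_X, map_one, sub_eq_zero, Prod.forall]
  · intro x hx
    rw [vkap_h] at hx
    refine ⟨?_, ⟨fun i => ?_, fun i j => ?_⟩, ?_⟩
    · rw [eval_X, vkap_rat c hx]
      exact div_ne_zero (by simp) (hx 0)
    · simp only [vkap_rat c hx, ← mul_div_assoc, ← Finset.sum_div]
      exact div_self (hx i)
    · simp only [vkap_rat c hx]
      ring
    · funext j
      show eval _ (X _) / eval _ (X _) = _
      rw [eval_X, eval_X, vkap_rat c hx, vkap_rat c hx, Fin.cons_succ, Fin.cons_zero]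
      have := hx 0
      field_simp
  · rintro y ⟨h1, h2⟩ ht
    rw [eval_X] at ht
    generalize hx : ratm (fun j : Fin N => X (finProdFinEquiv ((0 : Fin (a + 1)), j.succ)))
      (X (finProdFinEquiv ((0 : Fin (a + 1)), (0 : Fin (N + 1))))) y = x
    have hu : ∀ j, (Fin.cons 1 x : Fin (N + 1) → ℂ) j =
        y (finProdFinEquiv (0, j)) / y (finProdFinEquiv (0, 0)) := fun j => by
      refine Fin.cases ?_ (fun j => ?_) j
      · rw [Fin.cons_zero, div_self ht]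
      · rw [Fin.cons_succ, ← hx]
        simp only [ratm, eval_X]
    have hv : ∀ i j, y (finProdFinEquiv (i, 0)) * (Fin.cons 1 x : Fin (N + 1) → ℂ) j =
        y (finProdFinEquiv (i, j)) := fun i j => by
      rw [hu, ← mul_div_assoc, ← h2, mul_div_cancel_right₀ _ ht]
    have hL : ∀ i, y (finProdFinEquiv (i, 0)) * (c i ⬝ᵥ (Fin.cons 1 x : Fin (N + 1) → ℂ)) = 1 :=
      fun i => by
        rw [dotProduct, Finset.mul_sum]
        refine (Finset.sum_congr rfl fun j _ => ?_).trans (h1 i)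
        rw [← hv i j]
        ring
    have hne : ∀ i, c i ⬝ᵥ (Fin.cons 1 x : Fin (N + 1) → ℂ) ≠ 0 := fun i e => by
      have := hL i
      rw [e, mul_zero] at this
      exact zero_ne_one this
    refine ⟨(vkap_h c x).2 hne, funext fun m => ?_⟩
    obtain ⟨⟨i, j⟩, rfl⟩ := finProdFinEquiv.surjective m
    rw [vkap_rat c hne, div_eq_iff (hne i), ← hv i j, mul_right_comm, hL, one_mul]
  · intro ε hε x
    have hn := vkap_norm x
    rw [mem_iInter, vkap_h]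
    constructor
    · intro hx
      have hpos : ∀ i, 0 < ‖c i ⬝ᵥ (Fin.cons 1 x : Fin (N + 1) → ℂ)‖ := fun i =>
        lt_of_lt_of_le (mul_pos hε (lt_of_lt_of_le one_pos hn)) (hx i)
      have hne : ∀ i, c i ⬝ᵥ (Fin.cons 1 x : Fin (N + 1) → ℂ) ≠ 0 := fun i =>
        norm_pos_iff.1 (hpos i)
      refine ⟨hne, (pi_norm_le_iff_of_nonneg (inv_pos.2 hε).le).2 fun m => ?_⟩
      obtain ⟨⟨i, j⟩, rfl⟩ := finProdFinEquiv.surjective m
      rw [vkap_rat c hne, norm_div, div_le_iff₀ (hpos i), inv_mul_eq_div, le_div_iff₀ hε, mul_comm]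
      exact (mul_le_mul_of_nonneg_left (norm_le_pi_norm _ j) hε.le).trans (hx i)
    · rintro ⟨hne, hx⟩ i
      have hpos : 0 < ‖c i ⬝ᵥ (Fin.cons 1 x : Fin (N + 1) → ℂ)‖ := norm_pos_iff.2 (hne i)
      show ε * _ ≤ _
      rw [mul_comm, ← le_div_iff₀ hε]
      refine (pi_norm_le_iff_of_nonneg (div_pos hpos hε).le).2 fun j => ?_
      have h1 := (norm_le_pi_norm _ (finProdFinEquiv (i, j))).trans hx
      rwa [vkap_rat c hne, norm_div, div_le_iff₀ hpos, inv_mul_eq_div] at h1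

theorem isClosed_Far {N : ℕ} (c : Fin (N + 1) → ℂ) (ε : ℝ) : IsClosed (Far c ε) := by
  have h : Continuous fun x : Fin N → ℂ => (Fin.cons 1 x : Fin (N + 1) → ℂ) :=
    continuous_pi fun j => by
      refine Fin.cases ?_ (fun j => ?_) j
      · simpa using continuous_const
      · simpa using continuous_apply j
  exact isClosed_le (continuous_const.mul h.norm) (continuous_const.dotProduct h).norm

theorem Far_anti {N : ℕ} (c : Fin (N + 1) → ℂ) : Antitone (Far c) := by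
  intro ε ε' h x hx
  exact (mul_le_mul_of_nonneg_right h (norm_nonneg _)).trans hx

end Pool.Agent.PWV
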