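import Pool.Agent.P.MP_65ad7c_ag.VBas1

open Set Filter Topology Metric

noncomputable section
namespace Pool.Agent.PWV

variable {X : Cx} {T T' : Type} [MetricSpace T] [MetricSpace T']

namespace FC

theorem vlg_step {F : Type} [MetricSpace F] (Q : FC X T) {C B : Set T} (hC : IsCompact C)
    (hB : IsClosed B) (hBC : B ⊆ C) (f : T → F) (hf : ContinuousOn f C) (i : ℤ)
    (h : ∀ t, Q.Ex (i + 1) (C ∩ f ⁻¹' {t}) (B ∩ f ⁻¹' {t}))
    (ih : ∀ K, IsClosed K → Q.Ex i (C ∩ f ⁻¹' K) (B ∩ f ⁻¹' K)) (K : Set F) (hK : IsClosed K) :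
    Q.Ex (i + 1) (C ∩ f ⁻¹' K) (B ∩ f ⁻¹' K) := by
  rw [ex_iff_good]
  intro v hv hdv
  have cC : ∀ L : Set F, IsClosed L → IsClosed (C ∩ f ⁻¹' L) := fun L hL =>
    hf.preimage_isClosed_of_isClosed hC.isClosed hL
  have cB : ∀ L : Set F, IsClosed L → IsClosed (B ∩ f ⁻¹' L) := fun L hL =>
    (hf.mono hBC).preimage_isClosed_of_isClosed hB hL
  have hL : IsCompact (f '' C ∩ K) := (hC.image_of_continuousOn hf).inter_right hK
  have key : Q.Good (i + 1) v (C ∩ f ⁻¹' (K ∩ closure (f '' C ∩ K)))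
      (B ∩ f ⁻¹' (K ∩ closure (f '' C ∩ K))) := by
    refine hL.induction_on (p := fun s => Q.Good (i + 1) v (C ∩ f ⁻¹' (K ∩ closure s))
      (B ∩ f ⁻¹' (K ∩ closure s))) ?_ ?_ ?_ ?_
    · refine ⟨0, zero_mem _, mem_ZT.2 ⟨?_, fun x hx => ?_⟩⟩
      · rw [map_zero, sub_zero]
        exact (mem_ZT.1 hv).1
      · simp at hx
    · intro s t hst ht
      have e : f ⁻¹' (K ∩ closure s) ⊆ f ⁻¹' (K ∩ closure t) :=
        preimage_mono (inter_subset_inter_right _ (closure_mono hst))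
      exact ht.mono (inter_subset_inter_right _ e) (inter_subset_inter_right _ e)
    · intro s t hs ht
      have cs : IsClosed (K ∩ closure s) := hK.inter isClosed_closure
      have ct : IsClosed (K ∩ closure t) := hK.inter isClosed_closure
      have e : ∀ D : Set T, D ∩ f ⁻¹' (K ∩ closure s) ∩ (D ∩ f ⁻¹' (K ∩ closure t)) =
          D ∩ f ⁻¹' (K ∩ closure s ∩ (K ∩ closure t)) := fun D => by
        rw [preimage_inter (s := K ∩ closure s), ← inter_inter_distrib_left]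
      have := mv_good (inter_subset_inter_left _ hBC) (inter_subset_inter_left _ hBC)
        (sep_of_isClosed (cC _ cs) (cC _ ct)) (sep_of_isClosed (cB _ cs) (cB _ ct))
        (by rw [e, e]; exact ih _ (cs.inter ct)) hs ht
      rw [closure_union, inter_union_distrib_left, preimage_union, inter_union_distrib_left,
        inter_union_distrib_left]
      exact this
    · intro t ht
      have e : f ⁻¹' {t} ⊆ f ⁻¹' K := preimage_mono (singleton_subset_iff.2 ht.2)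
      obtain ⟨w, hw, hw'⟩ := h t v (ZT_anti (inter_subset_inter_right _ e) _ hv)
        (ZT_anti (inter_subset_inter_right _ e) _ hdv)
      have c1 : IsCompact (C \ {x | v - X.d (i + 1) w ∈ Q.z (i + 1 + 1) x}) :=
        hC.diff (Q.opn _ _)
      have c2 : IsCompact (B \ {x | w ∈ Q.z (i + 1) x}) :=
        (hC.of_isClosed_subset hB hBC).diff (Q.opn _ _)
      have c3 := (c1.union c2).image_of_continuousOn
        (hf.mono (union_subset sdiff_subset (sdiff_subset.trans hBC)))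
      have c4 : t ∉ f '' ((C \ {x | v - X.d (i + 1) w ∈ Q.z (i + 1 + 1) x}) ∪
          (B \ {x | w ∈ Q.z (i + 1) x})) := by
        rintro ⟨x, hx | hx, rfl⟩
        · exact hx.2 ((mem_ZT.1 hw').2 x ⟨hx.1, rfl⟩)
        · exact hx.2 ((mem_ZT.1 hw).2 x ⟨hx.1, rfl⟩)
      obtain ⟨s, hs, hsc, hs'⟩ := exists_mem_nhds_isClosed_subset
        (c3.isClosed.isOpen_compl.mem_nhds c4)
      refine ⟨s, mem_nhdsWithin_of_mem_nhds hs, w, mem_ZT.2 ⟨(mem_ZT.1 hw).1, fun x hx => ?_⟩,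
        mem_ZT.2 ⟨(mem_ZT.1 hw').1, fun x hx => ?_⟩⟩
      · by_contra hn
        exact hs' (hsc.closure_subset hx.2.2) ⟨x, Or.inr ⟨hx.1, hn⟩, rfl⟩
      · by_contra hn
        exact hs' (hsc.closure_subset hx.2.2) ⟨x, Or.inl ⟨hx.1, hn⟩, rfl⟩
  exact key.mono (fun x hx => ⟨hx.1, hx.2, subset_closure ⟨⟨x, hx.1, rfl⟩, hx.2⟩⟩)
    fun x hx => ⟨hx.1, hx.2, subset_closure ⟨⟨x, hBC hx.1, rfl⟩, hx.2⟩⟩

/-- Vietoris-Begle on a compact set. -/
theorem lg {F : Type} [MetricSpace F] (Q : FC X T) {C B : Set T} (hC : IsCompact C)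
    (hB : IsClosed B) (hBC : B ⊆ C) (f : T → F) (hf : ContinuousOn f C) (n : ℤ)
    (h : ∀ t, ∀ i ≤ n, Q.Ex i (C ∩ f ⁻¹' {t}) (B ∩ f ⁻¹' {t})) : Q.Ex n C B := by
  by_cases hn : n + 1 < 0
  · exact Q.ex_neg hn _ _
  have key : ∀ i, -2 ≤ i → i ≤ n → ∀ K, IsClosed K → Q.Ex i (C ∩ f ⁻¹' K) (B ∩ f ⁻¹' K) := by
    intro i hi
    induction i, hi using Int.leInduction with
    | base => exact fun _ _ _ => Q.ex_neg (by norm_num) _ _
    | succ i _ ih =>
      exact fun hin => vlg_step Q hC hB hBC f hf i (fun t => h t _ hin) (ih (by omega))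
  simpa using key n (by omega) le_rfl univ isClosed_univ

end FC

end Pool.Agent.PWV
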