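import Pool.Agent.P.MP_65ad7c_ag.VTr

open Set Filter Topology Metric

noncomputable section
namespace Pool.Agent.PWV

variable {X : Cx} {T T' : Type} [MetricSpace T] [MetricSpace T']

namespace FC

/-- A locally exact element is exact on an open set if the cocycles one degree lower are flabby. -/
theorem sur_of_fl (Q : FC X T) (n : ℤ)
    (fl : ∀ N, IsOpen N → ∀ w ∈ Q.top n, X.d n w ∈ Q.ZT N (n + 1) →
      ∃ k ∈ Q.top n, X.d n k ∈ Q.ZT univ (n + 1) ∧ w - k ∈ Q.ZT N n)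
    {U : Set T} (hU : IsOpen U) {v : X.V (n + 1)} (hv : v ∈ Q.top (n + 1))
    (h : ∀ x ∈ U, Q.Good n v {x} ∅) : Q.Good n v U ∅ := by
  have key : ∀ {x : T} {w w' : X.V n}, v - X.d n w ∈ Q.z (n + 1) x → w' - w ∈ Q.z n x →
      v - X.d n w' ∈ Q.z (n + 1) x := fun {x w w'} h1 h2 => by
    have h3 := sub_mem h1 (Q.d_z x n _ h2)
    rwa [map_sub, sub_sub, add_sub_cancel] at h3
  let S := {p : Set T × X.V n // IsOpen p.1 ∧ p.2 ∈ Q.top n ∧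
    ∀ x ∈ p.1, v - X.d n p.2 ∈ Q.z (n + 1) x}
  obtain ⟨m, hm⟩ := exists_maximal_of_chains_bounded
    (r := fun p q : S => p.1.1 ⊆ q.1.1 ∧ ∀ x ∈ p.1.1, q.1.2 - p.1.2 ∈ Q.z n x)
    (fun c hc => by
      obtain ⟨w, hw, hw'⟩ := Q.glue n c (fun i => i.1.1.1) (fun i => i.1.1.2) (fun i => i.1.2.1)
        (fun i => i.1.2.2.1) (fun i j x hx => by
          by_cases e : i.1 = j.1
          · rw [e, sub_self]
            exact zero_mem _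
          · rcases hc i.2 j.2 e with h1 | h1
            · exact sub_mem_comm_iff.1 (h1.2 x hx.1)
            · exact h1.2 x hx.2)
      refine ⟨⟨(⋃ i : c, i.1.1.1, w), isOpen_iUnion fun i => i.1.2.1, hw, fun x hx => ?_⟩,
        fun a ha => ⟨subset_iUnion (fun i : c => i.1.1.1) ⟨a, ha⟩, hw' ⟨a, ha⟩⟩⟩
      obtain ⟨i, hi⟩ := mem_iUnion.1 hx
      exact key (i.1.2.2.2 x hi) (hw' i x hi))
    (fun {a b c} h1 h2 => ⟨h1.1.trans h2.1, fun x hx => by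
      have h3 := add_mem (h2.2 x (h1.1 hx)) (h1.2 x hx)
      rwa [sub_add_sub_cancel] at h3⟩)
  obtain ⟨⟨U₀, w₀⟩, hU₀, hw₀, hv₀⟩ := m
  refine ⟨w₀, mem_ZT.2 ⟨hw₀, fun _ hx => hx.elim⟩,
    mem_ZT.2 ⟨sub_mem hv (Q.d_top n _ hw₀), fun x hx => hv₀ x ?_⟩⟩
  obtain ⟨w₁, hw₁, hv₁⟩ := h x hx
  replace hw₁ := (mem_ZT.1 hw₁).1
  have hN := Q.opn (n + 1) (v - X.d n w₁)
  obtain ⟨k, hk, hdk, hwk⟩ := fl _ (hU₀.inter hN) (w₀ - w₁) (sub_mem hw₀ hw₁)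
    (mem_ZT.2 ⟨Q.d_top n _ (sub_mem hw₀ hw₁), fun y hy => by
      have h3 := sub_mem hy.2 (hv₀ y hy.1)
      rwa [sub_sub_sub_cancel_left, ← map_sub] at h3⟩)
  obtain ⟨w, hw, hw'⟩ := Q.glue n Bool (fun i => cond i U₀ {y | v - X.d n w₁ ∈ Q.z (n + 1) y})
    (fun i => cond i w₀ (w₁ + k)) (fun i => by cases i; exacts [hN, hU₀])
    (fun i => by cases i; exacts [add_mem hw₁ hk, hw₀]) (fun i j y hy => by
      cases i <;> cases j
      · simp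
      · have h3 := (mem_ZT.1 hwk).2 y ⟨hy.2, hy.1⟩
        rw [sub_sub] at h3
        exact sub_mem_comm_iff.1 h3
      · have h3 := (mem_ZT.1 hwk).2 y ⟨hy.1, hy.2⟩
        rwa [sub_sub] at h3
      · simp)
  refine (hm ⟨(U₀ ∪ {y | v - X.d n w₁ ∈ Q.z (n + 1) y}, w), hU₀.union hN, hw, ?_⟩
    ⟨subset_union_left, hw' true⟩).1 (Or.inr ((mem_ZT.1 hv₁).2 x rfl))
  rintro y (hy | hy)
  · exact key (hv₀ y hy) (hw' true y hy)
  · refine key (w := w₁ + k) ?_ (hw' false y hy)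
    rw [map_add, ← sub_sub]
    exact sub_mem hy ((mem_ZT.1 hdk).2 y trivial)

theorem vlow_fl (Q : FC X T) (n : ℤ) (hlow : ∀ x, ∀ i < n, Q.Ex i {x} ∅) :
    ∀ N, IsOpen N → ∀ w ∈ Q.top n, X.d n w ∈ Q.ZT N (n + 1) →
      ∃ k ∈ Q.top n, X.d n k ∈ Q.ZT univ (n + 1) ∧ w - k ∈ Q.ZT N n := by
  let P : ℤ → Prop := fun i => i ≤ n → ∀ N, IsOpen N → ∀ w ∈ Q.top i, X.d i w ∈ Q.ZT N (i + 1) →
      ∃ k ∈ Q.top i, X.d i k ∈ Q.ZT univ (i + 1) ∧ w - k ∈ Q.ZT N i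
  have h0 : ∀ i < 0, P i := fun i hi _ N _ w hw _ =>
    ⟨0, zero_mem _, by rw [map_zero]; exact zero_mem _,
      by rw [sub_zero]; exact mem_ZT.2 ⟨hw, fun x _ => Q.neg i hi x hw⟩⟩
  have h1 : ∀ i, P i → P (i + 1) := fun i ih hi N hN w hw hd => by
    obtain ⟨u, hu, hu'⟩ := sur_of_fl Q i (ih (by omega)) hN hw fun x hx =>
      hlow x i (by omega) w (mem_ZT.2 ⟨hw, fun _ hy => hy.elim⟩)
        (mem_ZT.2 ⟨(mem_ZT.1 hd).1, fun y hy => (mem_ZT.1 hd).2 y (hy ▸ hx)⟩)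
    exact ⟨X.d i u, Q.d_top i u (mem_ZT.1 hu).1, by rw [X.dd]; exact zero_mem _, hu'⟩
  rcases lt_or_ge n 0 with hn | hn
  · exact h0 n hn le_rfl
  · exact Int.leInduction (motive := fun i _ => P i) (m := -1) (h0 _ (by omega))
      (fun i _ => h1 i) n (by omega) le_rfl

theorem low_good (Q : FC X T) {A B : Set T} (hBA : B ⊆ A) (n : ℤ)
    (hlow : ∀ x ∈ A, ∀ i < n, Q.Ex i {x} ∅) {v : X.V (n + 1)} (hv : v ∈ Q.ZT B (n + 1))
    (hloc : ∀ x ∈ A, Q.Good n v {x} ∅) : Q.Good n v A B := by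
  let Q₂ := Q.comap (Subtype.val : A → T) IsInducing.subtypeVal
  have e1 : ∀ x : A, Q₂.ZT {x} = Q.ZT {x.1} := fun x => funext fun i => Submodule.ext fun u => by
    simp only [mem_ZT, mem_singleton_iff, forall_eq]
    rfl
  have e2 : Q₂.ZT ∅ = Q.ZT ∅ := (ZT_empty Q₂).trans (ZT_empty Q).symm
  have fl := vlow_fl Q₂ n fun x i hi => by
    rw [Ex, e1, e2]
    exact hlow x x.2 i hi
  obtain ⟨hv1, hv2⟩ := mem_ZT.1 hv
  obtain ⟨w, hw, hw'⟩ := sur_of_fl Q₂ n fl isOpen_univ hv1 fun x _ => by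
    rw [Good, e1, e2]
    exact hloc x x.2
  replace hw := (mem_ZT.1 hw).1
  obtain ⟨k, -, hdk, hwk⟩ := fl _ (Q₂.opn (n + 1) v) w hw (mem_ZT.2 ⟨Q.d_top n w hw, fun y hy => by
    have h3 := sub_mem hy ((mem_ZT.1 hw').2 y trivial)
    rwa [sub_sub_cancel] at h3⟩)
  have h4 := mem_ZT.1 (add_mem hw' hdk)
  rw [sub_add, ← map_sub] at h4
  exact ⟨w - k, mem_ZT.2 ⟨(mem_ZT.1 hwk).1, fun x hx => (mem_ZT.1 hwk).2 ⟨x, hBA hx⟩ (hv2 x hx)⟩,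
    mem_ZT.2 ⟨h4.1, fun x hx => h4.2 ⟨x, hx⟩ trivial⟩⟩

theorem Deg.ex_low {Q : FC X T} {A B : Set T} {b j : ℤ} (h : Q.Deg A b) (hBA : B ⊆ A)
    (hj : j + 1 < b) : Q.Ex j A B := by
  intro v hv hd
  exact low_good Q hBA j (fun x hx i hi => h x hx i (by omega)) hv fun x hx =>
    h x hx j hj v (ZT_anti (empty_subset B) _ hv) (ZT_anti (singleton_subset_iff.2 hx) _ hd)

end FC

end Pool.Agent.PWV
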