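import Pool.Agent.P.MP_65ad7c_ag.VTower
import Pool.Agent.P.MP_65ad7c_ag.VStar
import Pool.Agent.P.MP_65ad7c_ag.VBas2

open Set Filter Topology Metric

noncomputable section
namespace Pool.Agent.PWV

variable {X : Cx} {E F : Type} [NormedAddCommGroup E] [NormedSpace ℝ E] [FiniteDimensional ℝ E]
  [NormedAddCommGroup F] [NormedSpace ℝ F] [FiniteDimensional ℝ F]

theorem vprod_exh {G : Type} [NormedAddCommGroup G] [ProperSpace G] {Ω : Set G} (hΩ : IsOpen Ω) :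
    ∃ L : ℕ → Set G, Monotone L ∧ (∀ i, IsCompact (L i)) ∧ (∀ i, L i ⊆ Ω) ∧
      ∀ t ∈ Ω, ∀ᶠ i in atTop, L i ∈ 𝓝 t := by
  have hpos : ∀ i : ℕ, (0 : ℝ) < 1 / ((i : ℝ) + 1) := fun i => by positivity
  refine ⟨fun i => closedBall 0 (i : ℝ) ∩ (thickening (1 / ((i : ℝ) + 1)) Ωᶜ)ᶜ, ?_, ?_, ?_, ?_⟩
  · intro i j hij
    have h : (i : ℝ) ≤ j := by exact_mod_cast hij
    refine inter_subset_inter (closedBall_subset_closedBall h) (compl_subset_compl.2 ?_)
    exact thickening_mono (one_div_le_one_div_of_le (by positivity) (by linarith)) _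
  · intro i
    exact (isCompact_closedBall _ _).inter_right isOpen_thickening.isClosed_compl
  · intro i t ht
    by_contra h
    exact ht.2 (self_subset_thickening (hpos i) _ h)
  · intro t ht
    obtain ⟨r, hr, hb⟩ := Metric.isOpen_iff.1 hΩ t ht
    have e1 : ∀ᶠ i : ℕ in atTop, 1 / ((i : ℝ) + 1) < r / 2 :=
      (tendsto_one_div_add_atTop_nhds_zero_nat (𝕜 := ℝ)).eventually
        (gt_mem_nhds (by positivity))
    have e2 : ∀ᶠ i : ℕ in atTop, ‖t‖ + r / 2 ≤ (i : ℝ) :=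
      tendsto_natCast_atTop_atTop.eventually (eventually_ge_atTop _)
    filter_upwards [e1, e2] with i h1 h2
    filter_upwards [ball_mem_nhds t (half_pos hr)] with s hs
    rw [mem_ball] at hs
    refine ⟨?_, fun h => ?_⟩
    · rw [mem_closedBall_zero_iff]
      have := norm_le_norm_add_norm_sub' s t
      rw [dist_eq_norm] at hs
      linarith
    · obtain ⟨z, hz, hd⟩ := mem_thickening_iff.1 h
      refine hz (hb ?_)
      rw [mem_ball]
      have := dist_triangle z s t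
      rw [dist_comm] at hd
      linarith

theorem vprod_thick {G : Type} [NormedAddCommGroup G] (K : Set G) (ε : ℝ) :
    ∃ δ : ℕ → ℝ, Monotone δ ∧ (∀ i, δ i < ε) ∧
      ∀ y ∈ thickening ε K, ∀ᶠ i in atTop, cthickening (δ i) K ∈ 𝓝 y := by
  refine ⟨fun i => ε - 1 / ((i : ℝ) + 1), ?_, ?_, ?_⟩
  · intro i j hij
    have h : (i : ℝ) ≤ j := by exact_mod_cast hij
    have := one_div_le_one_div_of_le (a := (i : ℝ) + 1) (b := (j : ℝ) + 1) (by positivity)
      (by linarith)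
    dsimp only
    linarith
  · intro i
    have : (0 : ℝ) < 1 / ((i : ℝ) + 1) := by positivity
    linarith
  · intro y hy
    obtain ⟨z, hz, hd⟩ := mem_thickening_iff.1 hy
    have e1 : ∀ᶠ i : ℕ in atTop, 1 / ((i : ℝ) + 1) < ε - dist y z :=
      (tendsto_one_div_add_atTop_nhds_zero_nat (𝕜 := ℝ)).eventually
        (gt_mem_nhds (by linarith))
    filter_upwards [e1] with i h1
    refine mem_of_superset (isOpen_thickening.mem_nhds ?_) (thickening_subset_cthickening _ _)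
    exact mem_thickening_iff.2 ⟨z, hz, by linarith⟩

namespace FC

theorem starb (Q : FC X (E × F)) {K : Set E} (hK : IsCompact K) (hc : Convex ℝ K) {x : E}
    (hx : x ∈ K) {ε : ℝ} (hε : 0 < ε) {Ω : Set F} (hΩ : IsOpen Ω)
    (hP : Q.PC (thickening ε K ×ˢ Ω)) : Q.Acyc (thickening ε K ×ˢ Ω) ({x} ×ˢ Ω) := by
  have : ProperSpace E := FiniteDimensional.proper_real E
  have : ProperSpace F := FiniteDimensional.proper_real F
  obtain ⟨L, hLm, hLc, hLs, hLn⟩ := vprod_exh hΩ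
  obtain ⟨δ, hδm, hδl, hδn⟩ := vprod_thick K ε
  have hsub : ∀ i, cthickening (δ i) K ⊆ thickening ε K := fun i =>
    cthickening_subset_thickening' hε (hδl i) K
  refine vb_tower Q (fun i => cthickening (δ i) K ×ˢ L i) ?_ ?_ ?_ ?_ ?_ Prod.snd
    continuous_snd.continuousOn ?_
  · intro i j hij
    exact prod_mono (cthickening_mono (hδm hij) K) (hLm hij)
  · intro i
    exact (hK.cthickening).prod (hLc i)
  · intro i
    exact prod_mono (hsub i) (hLs i)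
  · refine ⟨prod_mono (singleton_subset_iff.2 (self_subset_thickening hε K hx)) subset_rfl, ?_⟩
    intro p hp
    have h1 : closure ({x} ×ˢ Ω) ⊆ ({x} : Set E) ×ˢ (univ : Set F) :=
      closure_minimal (prod_mono subset_rfl (subset_univ _)) (isClosed_singleton.prod isClosed_univ)
    exact ⟨(h1 hp.1).1, hp.2.2⟩
  · intro p hp
    obtain ⟨i, h1, h2⟩ := ((hδn p.1 hp.1).and (hLn p.2 hp.2)).exists
    exact ⟨i, nhdsWithin_le_nhds (prod_mem_nhds h1 h2)⟩
  · intro i t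
    by_cases ht : t ∈ L i
    · have hxi : x ∈ cthickening (δ i) K := self_subset_cthickening K hx
      have e1 : (cthickening (δ i) K ×ˢ L i) ∩ Prod.snd ⁻¹' {t} =
          cthickening (δ i) K ×ˢ ({t} : Set F) := by
        ext p
        constructor
        · rintro ⟨⟨h1, _⟩, h3⟩
          exact ⟨h1, h3⟩
        · rintro ⟨h1, h3⟩
          have h4 : p.2 = t := h3
          exact ⟨⟨h1, h4 ▸ ht⟩, h3⟩
      have e2 : ({x} ×ˢ Ω) ∩ (cthickening (δ i) K ×ˢ L i) ∩ Prod.snd ⁻¹' {t} = {(x, t)} := by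
        ext p
        constructor
        · rintro ⟨⟨⟨h1, _⟩, _⟩, h3⟩
          exact Prod.ext h1 h3
        · rintro rfl
          exact ⟨⟨⟨rfl, hLs i ht⟩, hxi, ht⟩, rfl⟩
      rw [e1, e2]
      have hmem : (x, t) ∈ cthickening (δ i) K ×ˢ ({t} : Set F) := ⟨hxi, rfl⟩
      refine star Q (hK.cthickening.prod isCompact_singleton) hmem
        (((hc.cthickening _).prod (convex_singleton t)).starConvex hmem) (hP.mono ?_)
      exact sdiff_subset.trans (prod_mono (hsub i) (singleton_subset_iff.2 (hLs i ht)))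
    · have e1 : (cthickening (δ i) K ×ˢ L i) ∩ Prod.snd ⁻¹' {t} = ∅ := by
        refine eq_empty_of_forall_notMem ?_
        rintro p ⟨⟨_, h2⟩, h3⟩
        have h4 : p.2 = t := h3
        exact ht (h4 ▸ h2)
      have e2 : ({x} ×ˢ Ω) ∩ (cthickening (δ i) K ×ˢ L i) ∩ Prod.snd ⁻¹' {t} = ∅ := by
        rw [inter_assoc, e1, inter_empty]
      rw [e1, e2]
      exact fun n => Q.ex_self n ∅

theorem prodloc (Q : FC X (E × F)) {N : Set E} (hN : IsOpen N) {Ω : Set F} (hΩ : IsOpen Ω)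
    {W : Set (E × F)} (hW : IsOpen W) (hWN : ∀ y ∈ N, ∀ τ, (y, τ) ∈ W ↔ τ ∈ Ω)
    (hP : Q.PC (N ×ˢ Ω)) {K : Set E} (hK : IsCompact K) (hc : Convex ℝ K) (hKN : K ⊆ N) {x : E}
    (hx : x ∈ K) (τ : F) : (Q.loc W).Acyc (K ×ˢ {τ}) {(x, τ)} := by
  intro n v hv hdv
  obtain ⟨N₁, hN₁, hs₁, hv₁⟩ := (Q.mem_loc_ZT hW).1 hv
  obtain ⟨N₂, hN₂, hs₂, hv₂⟩ := (Q.mem_loc_ZT hW).1 hdv
  obtain ⟨u, w, hu, hw, hKu, hτw, huw⟩ := generalized_tube_lemma hK isCompact_singleton hN₂ hs₂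
  obtain ⟨e₁, he₁, h₁⟩ := hK.exists_thickening_subset_open (hu.inter hN) (subset_inter hKu hKN)
  obtain ⟨e₂, he₂, h₂⟩ := Metric.isOpen_iff.1 hw τ (hτw rfl)
  obtain ⟨e₃, he₃, h₃⟩ := Metric.isOpen_iff.1 hN₁ (x, τ) (hs₁ rfl)
  obtain ⟨e, he, l₁, l₂, l₃⟩ : ∃ e : ℝ, 0 < e ∧ e ≤ e₁ ∧ e ≤ e₂ ∧ e ≤ e₃ :=
    ⟨min e₁ (min e₂ e₃), by positivity, min_le_left _ _,
      (min_le_right _ _).trans (min_le_left _ _), (min_le_right _ _).trans (min_le_right _ _)⟩
  have hU : thickening e K ⊆ u ∩ N := (thickening_mono l₁ K).trans h₁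
  have hUN : thickening e K ⊆ N := hU.trans inter_subset_right
  have hbU : ball x e ⊆ thickening e K := ball_subset_thickening hx e
  have hΩ₂ : IsOpen (Ω ∩ ball τ e) := hΩ.inter isOpen_ball
  have hPA : Q.PC (thickening e K ×ˢ (Ω ∩ ball τ e)) :=
    hP.mono (prod_mono hUN inter_subset_left)
  have hBA : ball x e ×ˢ (Ω ∩ ball τ e) ⊆ thickening e K ×ˢ (Ω ∩ ball τ e) :=
    prod_mono hbU subset_rfl
  have a₁ := starb Q hK hc hx he hΩ₂ hPA
  have a₂ := starb Q (K := {x}) isCompact_singleton (convex_singleton x) (mem_singleton x) he hΩ₂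
    (by rw [thickening_singleton]; exact hPA.mono hBA)
  rw [thickening_singleton] at a₂
  have a₃ : Q.Acyc (thickening e K ×ˢ (Ω ∩ ball τ e)) (ball x e ×ˢ (Ω ∩ ball τ e)) :=
    Acyc.left hBA (prod_mono (singleton_subset_iff.2 (mem_ball_self he)) subset_rfl) a₁ a₂
  have sB : ball x e ×ˢ (Ω ∩ ball τ e) ⊆ N₁ ∩ W := by
    rintro ⟨y, s⟩ ⟨h1, h2, h3⟩
    refine ⟨h₃ ?_, (hWN y (hUN (hbU h1)) s).2 h2⟩
    rw [← ball_prod_same]
    exact ⟨ball_subset_ball l₃ h1, ball_subset_ball l₃ h3⟩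
  have sA : thickening e K ×ˢ (Ω ∩ ball τ e) ⊆ N₂ ∩ W := by
    rintro ⟨y, s⟩ ⟨h1, h2, h3⟩
    exact ⟨huw ⟨(hU h1).1, h₂ (ball_subset_ball l₂ h3)⟩, (hWN y (hUN h1) s).2 h2⟩
  obtain ⟨z, hz, hvz⟩ := a₃ n v (ZT_anti sB _ hv₁) (ZT_anti sA _ hv₂)
  have tr : ∀ {S : Set E}, S ⊆ N → S ×ˢ ball τ e ∩ W ⊆ S ×ˢ (Ω ∩ ball τ e) := by
    rintro S hS ⟨y, s⟩ ⟨⟨h1, h2⟩, h3⟩
    exact ⟨h1, (hWN y (hS h1) s).1 h3, h2⟩
  refine ⟨z, (Q.mem_loc_ZT hW).2 ⟨ball x e ×ˢ ball τ e, isOpen_ball.prod isOpen_ball, ?_,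
    ZT_anti (tr (hbU.trans hUN)) _ hz⟩, (Q.mem_loc_ZT hW).2 ⟨thickening e K ×ˢ ball τ e,
    isOpen_thickening.prod isOpen_ball, ?_, ZT_anti (tr hUN) _ hvz⟩⟩
  · exact singleton_subset_iff.2 ⟨mem_ball_self he, mem_ball_self he⟩
  · exact prod_mono (self_subset_thickening he K) (singleton_subset_iff.2 (mem_ball_self he))

end FC

end Pool.Agent.PWV
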