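import Pool.Agent.P.MP_65ad7c_ag.VDefs

open Set Filter Topology Metric

noncomputable section
namespace Pool.Agent.PWV

section aux
open Polynomial

variable {D : Type} [CommRing D] [IsDomain D]

theorem vrootp_clear (q : (FractionRing D)[X]) : ∃ c ≠ (0 : D), ∃ Q : D[X],
    Q.map (algebraMap D (FractionRing D)) = C (algebraMap D (FractionRing D) c) * q := by
  obtain ⟨c, hc, h⟩ := IsLocalization.integerNormalization_spec (nonZeroDivisors D) q
  exact ⟨c, nonZeroDivisors.ne_zero hc, _, by rw [h, ← smul_eq_C_mul, algebraMap_smul]⟩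

theorem vrootp_dvd {a b : D[X]} (h : a.map (algebraMap D (FractionRing D)) ∣
    b.map (algebraMap D (FractionRing D))) : ∃ c ≠ (0 : D), a ∣ C c * b := by
  obtain ⟨q, hq⟩ := h
  obtain ⟨c, hc, Q, hQ⟩ := vrootp_clear q
  refine ⟨c, hc, Q, map_injective _ (IsFractionRing.injective D (FractionRing D)) ?_⟩
  rw [Polynomial.map_mul, Polynomial.map_mul, map_C, hq, hQ, mul_left_comm]

theorem vrootp_cop {a b : D[X]} (h : IsCoprime (a.map (algebraMap D (FractionRing D)))
    (b.map (algebraMap D (FractionRing D)))) :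
    ∃ c ≠ (0 : D), ∃ A B : D[X], A * a + B * b = C c := by
  obtain ⟨u, v, h⟩ := h
  obtain ⟨c, hc, U, hU⟩ := vrootp_clear u
  obtain ⟨c', hc', V, hV⟩ := vrootp_clear v
  refine ⟨c * c', mul_ne_zero hc hc', C c' * U, C c * V,
    map_injective _ (IsFractionRing.injective D (FractionRing D)) ?_⟩
  simp only [Polynomial.map_add, Polynomial.map_mul, map_C, hU, hV, map_mul]
  linear_combination C (algebraMap D (FractionRing D) c) * C (algebraMap D (FractionRing D) c') * h

theorem vrootp_gen [CharZero D] {g : D[X]} (hg : g.Monic) : ∃ δ ≠ (0 : D), ∃ k : ℕ,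
    ∀ φ : D →+* ℂ, φ δ ≠ 0 → {t | (g.map φ).eval t = 0}.ncard = k := by
  have : CharZero (FractionRing D) :=
    charZero_of_injective_algebraMap (IsFractionRing.injective D (FractionRing D))
  obtain ⟨h, n, h1, h2, h3⟩ := exists_squarefree_dvd_pow_of_ne_zero
    (hg.map (algebraMap D (FractionRing D))).ne_zero
  obtain ⟨b, hb, H, hH⟩ := vrootp_clear h
  have hu : IsUnit (C (algebraMap D (FractionRing D) b)) :=
    isUnit_C.2 (Ne.isUnit (by simpa using hb))
  have ha : Associated (H.map (algebraMap D (FractionRing D))) h :=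
    hH ▸ associated_unit_mul_left _ _ hu
  obtain ⟨c₁, n₁, d₁⟩ := vrootp_dvd (ha.dvd.trans h2)
  obtain ⟨c₂, n₂, d₂⟩ := vrootp_dvd (a := g) (b := H ^ n)
    (by rw [Polynomial.map_pow]; exact h3.trans (pow_dvd_pow_of_dvd ha.symm.dvd n))
  obtain ⟨c₃, n₃, A, B, d₃⟩ := vrootp_cop (a := H) (b := derivative H) (by
    rw [← derivative_map]
    exact (PerfectField.separable_iff_squarefree.2 h1).of_dvd ha.dvd)
  have n₄ : H.leadingCoeff ≠ 0 := fun e => h1.ne_zero (by
    rw [leadingCoeff_eq_zero.1 e, Polynomial.map_zero] at ha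
    exact (associated_zero_iff_eq_zero _).1 ha.symm)
  refine ⟨c₁ * c₂ * c₃ * H.leadingCoeff, mul_ne_zero (mul_ne_zero (mul_ne_zero n₁ n₂) n₃) n₄,
    H.natDegree, fun φ hφ => ?_⟩
  simp only [map_mul, ne_eq, mul_eq_zero, not_or] at hφ
  obtain ⟨⟨⟨m₁, m₂⟩, m₃⟩, m₄⟩ := hφ
  have hs : (H.map φ).Separable := by
    refine ⟨C (φ c₃)⁻¹ * A.map φ, C (φ c₃)⁻¹ * B.map φ, ?_⟩
    rw [derivative_map, mul_assoc, mul_assoc, ← mul_add, ← Polynomial.map_mul,
      ← Polynomial.map_mul, ← Polynomial.map_add, d₃, map_C, ← C_mul, inv_mul_cancel₀ m₃, C_1]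
  have he : {t | (g.map φ).eval t = 0} = (H.map φ).rootSet ℂ := by
    ext t
    rw [mem_rootSet_of_ne hs.ne_zero, coe_aeval_eq_eval]
    constructor
    · intro ht
      have h4 := eval_dvd (x := t) (map_dvd φ d₂)
      rw [show (g.map φ).eval t = 0 from ht, zero_dvd_iff, Polynomial.map_mul, map_C, eval_mul,
        eval_C, Polynomial.map_pow, eval_pow] at h4
      exact eq_zero_of_pow_eq_zero ((mul_eq_zero.1 h4).resolve_left m₂)
    · intro ht
      have h4 := eval_dvd (x := t) (map_dvd φ d₁)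
      rw [ht, zero_dvd_iff, Polynomial.map_mul, map_C, eval_mul, eval_C] at h4
      exact (mul_eq_zero.1 h4).resolve_left m₁
  rw [he, ← Nat.card_coe_set_eq, Nat.card_eq_fintype_card,
    card_rootSet_eq_natDegree hs (IsAlgClosed.splits _), natDegree_map_of_leadingCoeff_ne_zero _ m₄]

end aux

open MvPolynomial

/-- The number of distinct roots is generically constant on an irreducible variety. -/
theorem rootp {σ : Type} {G : Polynomial (MvPolynomial σ ℂ)} (hG : G.Monic)
    {p : Ideal (MvPolynomial σ ℂ)} (hp : p.IsPrime) :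
    ∃ δ ∉ p, ∃ k : ℕ, ∀ x ∈ ZI p, eval x δ ≠ 0 → (rt G x).ncard = k := by
  have : CharZero (MvPolynomial σ ℂ ⧸ p) :=
    charZero_of_injective_algebraMap (algebraMap ℂ (MvPolynomial σ ℂ ⧸ p)).injective
  obtain ⟨δ, hδ, k, h⟩ := vrootp_gen (hG.map (Ideal.Quotient.mk p))
  obtain ⟨δ, rfl⟩ := Ideal.Quotient.mk_surjective δ
  refine ⟨δ, fun e => hδ (Ideal.Quotient.eq_zero_iff_mem.2 e), k, fun x hx h0 => ?_⟩
  have h1 := h (Ideal.Quotient.lift p (eval x) hx) h0
  rwa [Polynomial.map_map] at h1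

end Pool.Agent.PWV
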