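import Pool.Agent.P.MP_65ad7c_ag.VElim
import Pool.Agent.P.MP_65ad7c_ag.VIft

open Set Filter Topology Metric

noncomputable section
namespace Pool.Agent.PWV

open MvPolynomial

theorem vsmooth_eval_aeval {σ τ : Type} (x : σ → ℂ) (f : τ → MvPolynomial σ ℂ)
    (P : MvPolynomial τ ℂ) : eval x (aeval f P) = eval (fun i => eval x (f i)) P := by
  induction P using MvPolynomial.induction_on with
  | C a => simp
  | add p q hp hq => simp only [map_add, hp, hq]
  | mul_X p i hp => simp only [map_mul, hp, aeval_X, eval_X]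

theorem vsmooth_eval_rename {n : ℕ} (x : Fin (n + 1) → ℂ) (f : MvPolynomial (Fin n) ℂ) :
    eval x (rename Fin.succ f) = eval (Fin.tail x) f := by
  rw [eval_rename]
  rfl

theorem vsmooth_cyl {n e : ℕ} {V : Set (Fin n → ℂ)}
    (h : Dim {y : Fin (n + 1) → ℂ | Fin.tail y ∈ V} (e + 1)) : Dim V e := by
  intro f
  obtain ⟨P, hP, hv⟩ := h (Fin.cons (X 0) fun i => rename Fin.succ (f i))
  have hQ : finSuccEquiv ℂ e P ≠ 0 := fun h0 => hP ((finSuccEquiv ℂ e).map_eq_zero_iff.1 h0)
  refine ⟨(finSuccEquiv ℂ e P).leadingCoeff, Polynomial.leadingCoeff_ne_zero.2 hQ, fun x hx => ?_⟩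
  have h0 : (finSuccEquiv ℂ e P).map (eval fun i => eval x (f i)) = 0 := by
    apply Polynomial.funext
    intro t
    rw [← eval_eq_eval_mv_eval', Polynomial.eval_zero, ← hv (Fin.cons t x) (by simpa using hx)]
    congr 2
    funext i
    refine Fin.cases ?_ (fun j => ?_) i
    · simp
    · simp only [Fin.cons_succ, vsmooth_eval_rename, Fin.tail_cons]
  have h1 := congrArg (fun Q => Polynomial.coeff Q (finSuccEquiv ℂ e P).natDegree) h0
  simpa only [Polynomial.coeff_map, Polynomial.coeff_zero, Polynomial.leadingCoeff] using h1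

theorem vsmooth_root {n e : ℕ} {p : Ideal (MvPolynomial (Fin (n + 1)) ℂ)} (hp : p.IsPrime)
    (h : Dim (ZI p) e) :
    Dim (ZI (p.comap (rename (R := ℂ) (Fin.succ (n := n))).toRingHom)) e := by
  intro f
  obtain ⟨P, hP, hv⟩ := h fun i => rename Fin.succ (f i)
  refine ⟨P, hP, fun x hx => ?_⟩
  rw [← vsmooth_eval_aeval]
  refine hx _ (Ideal.mem_comap.2 (null hp fun y hy => ?_))
  have h1 := hv y hy
  simp only [vsmooth_eval_rename] at h1
  change eval y (rename Fin.succ (aeval f P)) = 0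
  rw [vsmooth_eval_rename, vsmooth_eval_aeval, h1]

/-- Generic flatness of an irreducible variety. -/
theorem smooth (n : ℕ) : ∀ p : Ideal (MvPolynomial (Fin n) ℂ), p.IsPrime →
    ∃ δ ∉ p, ∃ e, ¬ Dim (ZI p) e ∧ ∀ x ∈ ZI p, eval x δ ≠ 0 → Flat (ZI p) e x := by
  induction n with
  | zero =>
    intro p hp
    have h1 : (1 : MvPolynomial (Fin 0) ℂ) ∉ p := (Ideal.ne_top_iff_one p).1 hp.ne_top
    refine ⟨1, h1, 0, fun h => h1 (null hp fun x hx => ?_), fun x hx _ => ?_⟩
    · rw [dim_zero.1 h] at hx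
      exact hx.elim
    · refine ⟨0, rfl, fun _ => x, ?_, rfl, fun u => ⟨fun _ => Subsingleton.elim _ _, fun _ => hx⟩⟩
      refine IsOpenEmbedding.of_continuous_injective_isOpenMap continuous_const
        (fun a b _ => Subsingleton.elim a b) fun U _ => isOpen_discrete _
  | succ n ih =>
    intro p hp
    have hq : (p.comap (rename (R := ℂ) (Fin.succ (n := n))).toRingHom).IsPrime :=
      Ideal.comap_isPrime _ p
    obtain ⟨δ, hδ, e, he, hf⟩ := ih _ hq
    rcases elim hp with hc | ⟨δ', hδ', m, hm⟩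
    · have hZ : ZI p = {y : Fin (n + 1) → ℂ |
          Fin.tail y ∈ ZI (p.comap (rename (R := ℂ) (Fin.succ (n := n))).toRingHom)} :=
        Set.ext hc
      refine ⟨rename Fin.succ δ, fun h => hδ (Ideal.mem_comap.2 h), e + 1, fun h => ?_,
        fun x hx h0 => ?_⟩
      · rw [hZ] at h
        exact he (vsmooth_cyl h)
      · rw [vsmooth_eval_rename] at h0
        rw [hZ]
        exact (hf _ ((hc x).1 hx) h0).cyl
    · refine ⟨rename Fin.succ (δ * δ'), fun h => ?_, e, fun h => he (vsmooth_root hp h),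
        fun x hx h0 => ?_⟩
      · exact (hq.mem_or_mem (Ideal.mem_comap.2 h)).elim hδ hδ'
      · rw [vsmooth_eval_rename, map_mul, mul_ne_zero_iff] at h0
        obtain ⟨h1, h2⟩ := hm x h0.2
        have h3 := (hf _ (h1.1 hx).1 h0.1).root (h1.1 hx).2 (h2 hx)
        have hc : Continuous fun y : Fin (n + 1) → ℂ => eval (Fin.tail y) δ' :=
          (MvPolynomial.continuous_eval δ').comp (continuous_pi fun i => continuous_apply i.succ)
        have h4 : ∀ᶠ y in 𝓝 x, eval (Fin.tail y) δ' ≠ 0 :=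
          hc.continuousAt.eventually_ne h0.2
        obtain ⟨k, hk, φ, hφ, hφ0, -, hφ1⟩ :=
          h3.shrink (V' := ZI p) (h4.mono fun y hy => (hm y hy).1) univ_mem
        exact ⟨k, hk, φ, hφ, hφ0, hφ1⟩

end Pool.Agent.PWV
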