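import Pool.Agent.P.MP_65ad7c_ag.VTA
import Pool.Agent.P.MP_65ad7c_ag.VPrime
import Pool.Agent.P.MP_65ad7c_ag.VRootP
import Pool.Agent.P.MP_65ad7c_ag.VRootC

open Set Filter Topology Metric

noncomputable section
namespace Pool.Agent.PWV

variable {X : Cx} {n : ℕ}

namespace FC

/-- The local step: near a point where the number of roots is constant. -/
theorem vstepa_local {G : Polynomial (MvPolynomial (Fin n) ℂ)} (hG : G.Monic)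
    {R : (Fin n → ℂ) → ℝ} (hR : Continuous R) (h0 : ∀ x, 0 < R x)
    (hb : ∀ x, ∀ t ∈ rt G x, ‖t‖ < R x) (Q : FC X ((Fin n → ℂ) × ℂ)) {β : ℤ}
    (p0 : Q.PC (Rt G R)ᶜ) (d0 : Q.DegLe (Rt G R)ᶜ (β - 1)) {U W : Set (Fin n → ℂ)}
    (p1 : Q.PC (Rt G R ∩ U ×ˢ univ)) (d1 : Q.DegLe (Rt G R ∩ U ×ˢ univ) β) (hWU : W ⊆ U)
    {k : ℕ} (hk : ∀ y ∈ W, (rt G y).ncard = k) {x : Fin n → ℂ} (hx : x ∈ W) :
    ∃ W' ∈ 𝓝[W] x, ((Q.res (univ ×ˢ Db)).map (fstC _ ℂ)).PC W' ∧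
      ((Q.res (univ ×ˢ Db)).map (fstC _ ℂ)).DegLe W' β := by
  obtain ⟨W', hW'W, hW', r, hr, hrt⟩ := rootc hG hk hx
  have hne : ∀ y, (R y : ℂ) ≠ 0 := fun y => Complex.ofReal_ne_zero.2 (h0 y).ne'
  have hmem : ∀ y ∈ W', ∀ i, r i y ∈ rt G y := fun y hy i => by
    rw [(hrt y hy).2]; exact mem_range_self i
  refine ⟨W', hW', ta Q (fun i y => r i y / R y) ?_ ?_ ?_ ?_ ?_ p0 p1 d0 d1⟩
  · intro i
    exact (hr i).div (Complex.continuous_ofReal.comp hR).continuousOn fun y _ => hne y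
  · intro y hy i j hij
    exact (hrt y hy).1 ((div_left_inj' (hne y)).1 hij)
  · intro y hy i
    rw [norm_div, Complex.norm_real, Real.norm_eq_abs, abs_of_pos (h0 y), div_lt_one (h0 y)]
    exact hb y _ (hmem y hy i)
  · intro y hy τ hτ hin
    have h1 : (R y : ℂ) * τ ∈ rt G y := hin
    rw [(hrt y hy).2] at h1
    obtain ⟨i, hi⟩ := h1
    refine hτ i ?_
    have hi' : r i y = (R y : ℂ) * τ := hi
    show τ = r i y / R y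
    rw [hi', mul_div_cancel_left₀ _ (hne y)]
  · intro y hy i
    refine ⟨?_, hWU (hW'W hy), mem_univ _⟩
    show (R y : ℂ) * (r i y / R y) ∈ rt G y
    rw [mul_div_cancel₀ _ (hne y)]
    exact hmem y hy i

theorem stepA {G : Polynomial (MvPolynomial (Fin n) ℂ)} (hG : G.Monic) {R : (Fin n → ℂ) → ℝ}
    (hR : Continuous R) (h0 : ∀ x, 0 < R x) (hb : ∀ x, ∀ t ∈ rt G x, ‖t‖ < R x)
    (Q : FC X ((Fin n → ℂ) × ℂ)) {a : ℤ} (p0 : Q.PC (Rt G R)ᶜ)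
    (d0 : Q.DegLe (Rt G R)ᶜ (a - (n + 1)))
    (hS : ∀ V (e : ℕ), ZC V → Dim V (e + 1) → ∃ V', ZC V' ∧ Dim V' e ∧
      Q.PC (Rt G R ∩ (V \ V') ×ˢ univ) ∧ Q.DegLe (Rt G R ∩ (V \ V') ×ˢ univ) (a - e)) :
    GA ((Q.res (univ ×ˢ Db)).map (fstC _ ℂ)) a := by
  intro V e hV hd
  rcases lt_or_ge n e with hne | hen
  · refine ⟨V, hV, ((dim_univ n).mono (subset_univ V)).mono_nat hne, ?_, ?_⟩
    · intro γ _ _ hm
      have := hm (left_mem_Icc.2 zero_le_one)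
      exact absurd this.1 this.2
    · intro x hx
      exact absurd hx.1 hx.2
  obtain ⟨V1, hV1, hd1, p1, d1⟩ := hS V e hV hd
  have hδk : ∀ p : Ideal (MvPolynomial (Fin n) ℂ), ∃ δ : MvPolynomial (Fin n) ℂ, p.IsPrime →
      δ ∉ p ∧ ∃ k : ℕ, ∀ x ∈ ZI p, MvPolynomial.eval x δ ≠ 0 → (rt G x).ncard = k := by
    intro p
    by_cases hp : p.IsPrime
    · obtain ⟨δ, h1, h2⟩ := rootp hG hp
      exact ⟨δ, fun _ => ⟨h1, h2⟩⟩
    · exact ⟨0, fun h => absurd h hp⟩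
  choose δ hδ using hδk
  obtain ⟨V2, hV2, hd2, hc⟩ := comp hV hd δ fun p hp => (hδ p hp).1
  have hen' : (e : ℤ) ≤ n := by exact_mod_cast hen
  have d0' : Q.DegLe (Rt G R)ᶜ (a - e - 1) := DegLe.mono d0 subset_rfl (by omega)
  have key : ∀ x ∈ V \ (V1 ∪ V2), ∃ W' ∈ 𝓝[V \ (V1 ∪ V2)] x,
      ((Q.res (univ ×ˢ Db)).map (fstC _ ℂ)).PC W' ∧
      ((Q.res (univ ×ˢ Db)).map (fstC _ ℂ)).DegLe W' (a - e) := by
    intro x hx
    obtain ⟨p, hp, -, -, hxp, hxδ, hev⟩ := hc x ⟨hx.1, fun h => hx.2 (Or.inr h)⟩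
    obtain ⟨k, hk⟩ := (hδ p hp).2
    set W : Set (Fin n → ℂ) :=
      {y | y ∈ V \ (V1 ∪ V2) ∧ y ∈ ZI p ∧ MvPolynomial.eval y (δ p) ≠ 0} with hW
    have hWn : W ∈ 𝓝[V \ (V1 ∪ V2)] x := by
      have h2 : ∀ᶠ y in 𝓝 x, MvPolynomial.eval y (δ p) ≠ 0 :=
        (MvPolynomial.continuous_eval (δ p)).continuousAt.eventually_ne hxδ
      filter_upwards [self_mem_nhdsWithin, nhdsWithin_le_nhds hev, nhdsWithin_le_nhds h2]
        with y h3 h4 h5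
      exact ⟨h3, h4 h3.1, h5⟩
    obtain ⟨W', hW', h1, h2⟩ := vstepa_local hG hR h0 hb Q p0 d0' p1 d1
      (W := W) (fun y hy => ⟨hy.1.1, fun h => hy.1.2 (Or.inl h)⟩)
      (fun y hy => hk y hy.2.1 hy.2.2) (x := x) ⟨hx, hxp, hxδ⟩
    exact ⟨W', nhdsWithin_le_of_mem hWn hW', h1, h2⟩
  refine ⟨V1 ∪ V2, hV1.union hV2, hd1.union hd2, pc_local fun y hy => ?_, fun x hx => ?_⟩
  · obtain ⟨W', h1, h2, -⟩ := key y hy
    exact ⟨W', h1, h2⟩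
  · obtain ⟨W', h1, -, h3⟩ := key x hx
    exact h3 x (mem_of_mem_nhdsWithin hx h1)

end FC

end Pool.Agent.PWV
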