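import Pool.Agent.P.MP_65ad7c_ag.VStepW0
import Pool.Agent.P.MP_65ad7c_ag.VSmooth
import Pool.Agent.P.MP_65ad7c_ag.VRootP
import Pool.Agent.P.MP_65ad7c_ag.VRootC

open Set Filter Topology Metric

noncomputable section
namespace Pool.Agent.PWV

variable {X : Cx} {n : ℕ}

theorem vstepw_gen {G : Polynomial (MvPolynomial (Fin n) ℂ)} (hG : G.Monic)
    (p : Ideal (MvPolynomial (Fin n) ℂ)) : ∃ δ : MvPolynomial (Fin n) ℂ, p.IsPrime → δ ∉ p ∧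
      ∃ k e : ℕ, ¬ Dim (ZI p) e ∧ ∀ x ∈ ZI p, MvPolynomial.eval x δ ≠ 0 →
        (rt G x).ncard = k ∧ Flat (ZI p) e x := by
  by_cases hp : p.IsPrime
  · obtain ⟨δ, h1, k, h2⟩ := rootp hG hp
    obtain ⟨δ', h3, e, h4, h5⟩ := smooth n p hp
    refine ⟨δ * δ', fun _ => ⟨fun h => (hp.mem_or_mem h).elim h1 h3, k, e, h4, fun x hx h => ?_⟩⟩
    rw [map_mul] at h
    exact ⟨h2 x hx (left_ne_zero_of_mul h), h5 x hx (right_ne_zero_of_mul h)⟩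
  · exact ⟨0, fun h => absurd h hp⟩

namespace FC

theorem stepW {G : Polynomial (MvPolynomial (Fin n) ℂ)} (hG : G.Monic) {R : (Fin n → ℂ) → ℝ}
    (hR : Continuous R) (h0 : ∀ x, 0 < R x) (hb : ∀ x, ∀ t ∈ rt G x, ‖t‖ < R x)
    (Q : FC X ((Fin n → ℂ) × ℂ)) {a : ℤ} (p0 : Q.PC (Rt G R)ᶜ)
    (d0 : Q.Deg (Rt G R)ᶜ (a - (n + 1)))
    (hS : ∀ V (e : ℕ), ZC V → Dim V (e + 1) → ∃ V', ZC V' ∧ Dim V' e ∧
      (Q.gam (Rt G R ∩ V ×ˢ univ)).PC (Rt G R ∩ (V \ V') ×ˢ univ) ∧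
      (Q.gam (Rt G R ∩ V ×ˢ univ)).Deg (Rt G R ∩ (V \ V') ×ˢ univ) (a - e)) :
    GW ((Q.gam (univ ×ˢ Db)).map (fstC _ ℂ)) a := by
  intro V e hV hd
  obtain ⟨V1, z1, d1, p1, g1⟩ := hS V e hV hd
  choose δ hδ using vstepw_gen hG
  obtain ⟨V2, z2, d2, h2⟩ := comp hV hd δ fun p hp => (hδ p hp).1
  have key : ∀ x ∈ V \ (V1 ∪ V2), ∃ O, IsOpen O ∧ x ∈ O ∧
      (((Q.gam (univ ×ˢ Db)).map (fstC _ ℂ)).gam V).PC (V ∩ O) ∧
      (((Q.gam (univ ×ˢ Db)).map (fstC _ ℂ)).gam V).Deg (V ∩ O) (a - e) := by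
    intro x hx
    obtain ⟨p, hp, pV, -, xp, xδ, ev⟩ := h2 x ⟨hx.1, fun h => hx.2 (Or.inr h)⟩
    obtain ⟨-, k, e2, nd, hk⟩ := hδ p hp
    have he : e2 ≤ e := by
      by_contra hc
      exact nd ((hd.mono pV).mono_nat (by omega))
    obtain ⟨W, -, hW, r, rc, hr⟩ := rootc hG
      (W := {y | y ∈ ZI p ∧ MvPolynomial.eval y (δ p) ≠ 0}) (fun y hy => (hk y hy.1 hy.2).1)
      (x := x) ⟨xp, xδ⟩
    have hN : {y | (y ∈ V → y ∈ W) ∧ y ∉ V1} ∈ 𝓝 x := by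
      filter_upwards [ev, eventually_nhdsWithin_iff.1 hW,
        (MvPolynomial.continuous_eval (δ p)).continuousAt.eventually_ne xδ,
        z1.isClosed.isOpen_compl.mem_nhds fun h => hx.2 (Or.inl h)] with y a1 a2 a3 a4
      exact ⟨fun h => a2 ⟨a1 h, a3⟩, a4⟩
    obtain ⟨m, hm, φ, hφ, φ0, φN, φV⟩ := (hk x xp xδ).2.shrink (V' := V)
      (ev.mono fun y h => ⟨h, fun h' => pV h'⟩) hN
    have mV : ∀ u, φ (u, 0) ∈ V := fun u => (φV _).2 rfl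
    have mW : ∀ u, φ (u, 0) ∈ W := fun u => (φN (mem_range_self _)).1 (mV u)
    have cφ : Continuous fun u => φ (u, 0) :=
      hφ.continuous.comp (continuous_id.prodMk continuous_const)
    have R0 : ∀ y, (R y : ℂ) ≠ 0 := fun y => Complex.ofReal_ne_zero.2 (h0 y).ne'
    have hSr : ∀ u τ, (φ (u, 0), τ) ∈ Rt G R ↔ ∃ i, τ = r i (φ (u, 0)) / R (φ (u, 0)) := by
      intro u τ
      show (R (φ (u, 0)) : ℂ) * τ ∈ rt G (φ (u, 0)) ↔ _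
      rw [(hr _ (mW u)).2]
      refine exists_congr fun i => ?_
      rw [eq_div_iff (R0 _), mul_comm, eq_comm]
    refine ⟨range φ, hφ.isOpen_range, ⟨0, φ0⟩, stepW_loc Q hφ hV.isClosed φV (isClosed_Rt G hR)
      (fun i u => r i (φ (u, 0)) / R (φ (u, 0)))
      (fun i => ((rc i).comp_continuous cφ mW).div
        (Complex.continuous_ofReal.comp (hR.comp cφ)) fun u => R0 _)
      (fun u i j h => (hr _ (mW u)).1 ((div_left_inj' (R0 _)).1 h)) (fun u i => ?_) hSr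
      (by omega) p0 d0 (S₁ := Rt G R ∩ (V \ V1) ×ˢ univ)
      (fun u i => ⟨(hSr u _).2 ⟨i, rfl⟩, ⟨mV u, (φN (mem_range_self _)).2⟩, trivial⟩) p1 g1⟩
    rw [norm_div, Complex.norm_real, Real.norm_eq_abs, abs_of_pos (h0 _), div_lt_one (h0 _)]
    exact hb _ _ ((hr _ (mW u)).2.ge (mem_range_self i))
  refine ⟨V1 ∪ V2, z1.union z2, d1.union d2, pc_local fun x hx => ?_, fun x hx => ?_⟩
  · obtain ⟨O, o1, o2, o3, -⟩ := key x hx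
    exact ⟨V ∩ O, mem_nhdsWithin.2 ⟨O, o1, o2, fun y hy => ⟨hy.2.1, hy.1⟩⟩, o3⟩
  · obtain ⟨O, -, o2, -, o4⟩ := key x hx
    exact o4 x ⟨hx.1, o2⟩

end FC

end Pool.Agent.PWV
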