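import Pool.Agent.P.MP_65ad7c_ag.VDefs

open Set Filter Topology Metric

noncomputable section
namespace Pool.Agent.PWV

/-- A small fibrewise perturbation of the identity is a homeomorphism. -/
theorem vstraight_pert {B : Type} [TopologicalSpace B] (h : B × ℂ → ℂ) (hc : Continuous h)
    (hl : ∀ b t t', ‖h (b, t) - h (b, t')‖ ≤ 1 / 2 * ‖t - t'‖) :
    ∃ Φ : B × ℂ ≃ₜ B × ℂ, ∀ p, Φ p = (p.1, p.2 + h p) := by
  have low : ∀ b t t', ‖t - t'‖ ≤ 2 * ‖t + h (b, t) - (t' + h (b, t'))‖ := fun b t t' => by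
    have h1 := norm_sub_le (t + h (b, t) - (t' + h (b, t'))) (h (b, t) - h (b, t'))
    have h2 : t + h (b, t) - (t' + h (b, t')) - (h (b, t) - h (b, t')) = t - t' := by ring
    rw [h2] at h1
    linarith [hl b t t']
  have ex : ∀ p : B × ℂ, ∃ t, t + h (p.1, t) = p.2 := fun p => by
    have hK : ContractingWith (1 / 2) fun t => p.2 - h (p.1, t) := by
      refine ⟨by norm_num, LipschitzWith.of_dist_le_mul fun t t' => ?_⟩
      rw [dist_eq_norm, dist_eq_norm, sub_sub_sub_cancel_left, norm_sub_rev]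
      simpa using hl p.1 t t'
    exact ⟨_, eq_sub_iff_add_eq.1 hK.fixedPoint_isFixedPt.symm⟩
  choose ψ hψ using ex
  have cψ : Continuous ψ := continuous_iff_continuousAt.2 fun p₀ => by
    rw [ContinuousAt, tendsto_iff_norm_sub_tendsto_zero]
    have h1 : Continuous fun p : B × ℂ => 2 * ‖p.2 - (ψ p₀ + h (p.1, ψ p₀))‖ := by fun_prop
    have h2 := h1.tendsto p₀
    rw [hψ p₀, sub_self, norm_zero, mul_zero] at h2
    refine squeeze_zero (fun _ => norm_nonneg _) (fun p => ?_) h2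
    have h3 := low p.1 (ψ p) (ψ p₀)
    rwa [hψ p] at h3
  refine ⟨{ toFun := fun p => (p.1, p.2 + h p)
            invFun := fun p => (p.1, ψ p)
            left_inv := fun p => Prod.ext rfl ?_
            right_inv := fun p => Prod.ext rfl (hψ p)
            continuous_toFun := by fun_prop
            continuous_invFun := by fun_prop }, fun _ => rfl⟩
  have h3 := low p.1 (ψ (p.1, p.2 + h p)) p.2
  rw [hψ (p.1, p.2 + h p), sub_self, norm_zero, mul_zero] at h3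
  exact sub_eq_zero.1 (norm_le_zero_iff.1 h3)

theorem vstraight_rho {k : ℕ} (a : Fin k → ℂ) (hinj : Function.Injective a)
    (h1 : ∀ i, ‖a i‖ < 1) :
    ∃ ρ : ℝ, 0 < ρ ∧ (∀ i j, j ≠ i → ρ ≤ ‖a j - a i‖) ∧ ∀ i, ρ ≤ 1 - ‖a i‖ := by
  have e1 : ∀ᶠ ρ : ℝ in 𝓝 0, ∀ i j, j ≠ i → ρ ≤ ‖a j - a i‖ := by
    simp only [eventually_all]
    exact fun i j hij => eventually_le_nhds (norm_pos_iff.2 (sub_ne_zero.2 (hinj.ne hij)))
  have e2 : ∀ᶠ ρ : ℝ in 𝓝 0, ∀ i, ρ ≤ 1 - ‖a i‖ :=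
    eventually_all.2 fun i => eventually_le_nhds (sub_pos.2 (h1 i))
  have e3 : ∀ᶠ ρ : ℝ in 𝓝[>] 0, 0 < ρ := self_mem_nhdsWithin
  exact (e3.and ((e1.and e2).filter_mono nhdsWithin_le_nhds)).exists

/-- Local straightening of continuous distinct points of the open unit disc. -/
theorem straight {B : Type} [TopologicalSpace B] {k : ℕ} (r : Fin k → B → ℂ)
    (hr : ∀ i, Continuous (r i)) (b₀ : B) (hinj : Function.Injective fun i => r i b₀)
    (h1 : ∀ i, ‖r i b₀‖ < 1) :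
    ∃ W ∈ 𝓝 b₀, ∃ Φ : B × ℂ ≃ₜ B × ℂ, (∀ p, (Φ p).1 = p.1) ∧ (∀ p, (Φ p).2 ∈ Db ↔ p.2 ∈ Db) ∧
      ∀ b ∈ W, ∀ i, Φ (b, r i b₀) = (b, r i b) := by
  obtain ⟨ρ, hρ, hρ1, hρ2⟩ := vstraight_rho _ hinj h1
  obtain ⟨δ, hδ, hδ1⟩ : ∃ δ : ℝ, 0 < δ ∧ k * (δ / ρ) ≤ 1 / 2 := by
    refine ⟨ρ / (2 * (k + 1)), by positivity, ?_⟩
    rw [div_div_cancel_left' hρ.ne', ← div_eq_mul_inv, div_le_div_iff₀ (by positivity) two_pos]
    linarith
  obtain ⟨χ, cχ, lχ, χ1, χ0⟩ : ∃ χ : Fin k → ℂ → ℝ, (∀ i, Continuous (χ i)) ∧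
      (∀ i t t', |χ i t - χ i t'| ≤ ‖t - t'‖ / ρ) ∧ (∀ i, χ i (r i b₀) = 1) ∧
      ∀ i t, ρ ≤ ‖t - r i b₀‖ → χ i t = 0 := by
    refine ⟨fun i t => max (1 - ‖t - r i b₀‖ / ρ) 0, fun i => by fun_prop, fun i t t' => ?_,
      fun i => by simp, fun i t ht => max_eq_right (sub_nonpos.2 ((one_le_div hρ).2 ht))⟩
    refine (abs_max_sub_max_le_abs _ _ _).trans ?_
    rw [sub_sub_sub_cancel_left, ← sub_div, abs_div, abs_of_pos hρ]
    refine div_le_div_of_nonneg_right ((abs_norm_sub_norm_le _ _).trans_eq ?_) hρ.le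
    rw [sub_sub_sub_cancel_right, norm_sub_rev]
  obtain ⟨c, cc, bc, ec⟩ : ∃ c : ℂ → ℂ, Continuous c ∧ (∀ z, ‖c z‖ ≤ δ) ∧
      ∀ z, ‖z‖ ≤ δ → c z = z := by
    have hm : ∀ z : ℂ, 0 < max δ ‖z‖ := fun z => lt_max_of_lt_left hδ
    refine ⟨fun z => (δ / max δ ‖z‖) • z, ?_, fun z => ?_, fun z hz => ?_⟩
    · exact (continuous_const.div (by fun_prop) fun z => (hm z).ne').smul continuous_id
    · rw [norm_smul, Real.norm_of_nonneg (div_pos hδ (hm z)).le, div_mul_eq_mul_div,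
        div_le_iff₀ (hm z)]
      exact mul_le_mul_of_nonneg_left (le_max_right _ _) hδ.le
    · simp only [max_eq_left hz, div_self hδ.ne', one_smul]
  obtain ⟨Φ, hΦ⟩ := vstraight_pert (fun p : B × ℂ => ∑ i, χ i p.2 • c (r i p.1 - r i b₀))
    (by fun_prop) fun b t t' => by
      rw [← Finset.sum_sub_distrib]
      refine (norm_sum_le_of_le _ (n := fun _ => δ / ρ * ‖t - t'‖) fun i _ => ?_).trans ?_
      · rw [← sub_smul, norm_smul, Real.norm_eq_abs]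
        refine (mul_le_mul (lχ i t t') (bc _) (norm_nonneg _) (by positivity)).trans_eq ?_
        ring
      · rw [Finset.sum_const, Finset.card_univ, Fintype.card_fin, nsmul_eq_mul, ← mul_assoc]
        exact mul_le_mul_of_nonneg_right hδ1 (norm_nonneg _)
  have fix : ∀ p : B × ℂ, p.2 ∉ Db → Φ p = p := fun p hp => by
    have h2 : 1 < ‖p.2‖ := by simpa [Db] using hp
    rw [hΦ, Finset.sum_eq_zero, add_zero]
    intro i _
    rw [χ0 i p.2 (by linarith [hρ2 i, norm_sub_norm_le p.2 (r i b₀)]), zero_smul]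
  refine ⟨{b | ∀ i, ‖r i b - r i b₀‖ ≤ δ}, eventually_all.2 fun i => ?_, Φ, fun p => by rw [hΦ],
    fun p => not_iff_not.1 ⟨fun hp => ?_, fun hp => by rwa [fix p hp]⟩, fun b hb i => ?_⟩
  · have h2 : Continuous fun b => ‖r i b - r i b₀‖ := by fun_prop
    exact (h2.tendsto b₀).eventually (eventually_le_nhds (by simpa using hδ))
  · rwa [Φ.injective (fix _ hp)] at hp
  · rw [hΦ, Finset.sum_eq_single i (fun j _ hj => by rw [χ0 j _ (hρ1 j i hj.symm), zero_smul])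
      (fun h => absurd (Finset.mem_univ i) h), χ1, one_smul, ec _ (hb i), add_sub_cancel]

end Pool.Agent.PWV
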