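import Pool.Agent.P.MP_65ad7c_ag.VProd
import Pool.Agent.P.MP_65ad7c_ag.VStraight
import Pool.Agent.P.MP_65ad7c_ag.VTr
import Pool.Agent.P.MP_65ad7c_ag.VArc

open Set Filter Topology Metric

noncomputable section
namespace Pool.Agent.PWV

variable {X : Cx} {E F : Type} [NormedAddCommGroup E] [NormedSpace ℝ E] [FiniteDimensional ℝ E]
  [NormedAddCommGroup F] [NormedSpace ℝ F] [FiniteDimensional ℝ F]

namespace FC

omit [FiniteDimensional ℝ E] in
theorem vtw2_star (Q : FC X (E × ℂ)) {K : Set E} (hK : IsCompact K) (hc : Convex ℝ K) {x : E}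
    (hx : x ∈ K) (t : ℂ) (hP : Q.PC (K ×ˢ {t})) : Q.Acyc (K ×ˢ {t}) {(x, t)} :=
  star Q (hK.prod isCompact_singleton) (c := (x, t)) ⟨hx, rfl⟩
    ((hc.prod (convex_singleton t)).starConvex ⟨hx, rfl⟩) (hP.mono sdiff_subset)

theorem vtw2_closed_Db : IsClosed Db := isClosed_closedBall

theorem vtw2_mem_Db {t : ℂ} : t ∈ Db ↔ ‖t‖ ≤ 1 := by simp [Db]

theorem tw_pc0 (Q : FC X (E × ℂ)) {S : Set (E × ℂ)} (hS : IsClosed S) {P : Set ℂ} (hP : P.Finite)
    (h1 : ∀ τ ∈ P, ‖τ‖ < 1) {N : Set E} (hN : IsOpen N) (hSN : ∀ y ∈ N, ∀ τ, (y, τ) ∈ S ↔ τ ∈ P)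
    (p0 : Q.PC Sᶜ) (p1 : (Q.gam S).PC S) {K : Set E} (hK : IsCompact K) (hc : Convex ℝ K)
    (hKN : K ⊆ N) {x : E} (hx : x ∈ K) :
    (Q.gam (univ ×ˢ Db)).Acyc (K ×ˢ Db) ({x} ×ˢ Db) := by
  intro n
  have hF : IsClosed ((univ : Set E) ×ˢ Db) := isClosed_univ.prod vtw2_closed_Db
  have hDc : IsCompact Db := isCompact_closedBall _ _
  refine lg _ (hK.prod hDc) (isClosed_singleton.prod vtw2_closed_Db)
    (prod_mono (singleton_subset_iff.2 hx) subset_rfl) Prod.snd continuous_snd.continuousOn n ?_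
  intro t i _
  by_cases ht : t ∈ Db
  · have e1 : (K ×ˢ Db) ∩ Prod.snd ⁻¹' {t} = K ×ˢ {t} := by
      ext ⟨y, τ⟩
      simp only [mem_inter_iff, mem_prod, mem_preimage, mem_singleton_iff]
      constructor
      · rintro ⟨⟨h, _⟩, h'⟩; exact ⟨h, h'⟩
      · rintro ⟨h, rfl⟩; exact ⟨⟨h, ht⟩, rfl⟩
    have e2 : (({x} : Set E) ×ˢ Db) ∩ Prod.snd ⁻¹' {t} = {(x, t)} := by
      ext ⟨y, τ⟩
      simp only [mem_inter_iff, mem_prod, mem_preimage, mem_singleton_iff, Prod.mk.injEq]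
      constructor
      · rintro ⟨⟨h, _⟩, h'⟩; exact ⟨h, h'⟩
      · rintro ⟨h, rfl⟩; exact ⟨⟨h, ht⟩, rfl⟩
    rw [e1, e2]
    have hBA : ({(x, t)} : Set (E × ℂ)) ⊆ K ×ˢ {t} := singleton_subset_iff.2 ⟨hx, rfl⟩
    by_cases htP : t ∈ P
    · have hint : K ×ˢ ({t} : Set ℂ) ⊆ interior ((univ : Set E) ×ˢ Db) := by
        refine subset_trans ?_ (interior_maximal
          (prod_mono subset_rfl ball_subset_closedBall) (isOpen_univ.prod isOpen_ball))
        rintro ⟨y, τ⟩ ⟨_, h⟩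
        refine ⟨mem_univ _, ?_⟩
        have h' : τ = t := h
        simpa [h'] using h1 t htP
      rw [ex_gam_interior Q hF hBA hint]
      refine tri_mid hS hBA (vtw2_star (Q.gam S) hK hc hx t (p1.mono ?_) i)
        (prodloc Q hN (Ω := Pᶜ) hP.isClosed.isOpen_compl hS.isOpen_compl ?_ (p0.mono ?_) hK hc hKN
          hx t i)
      · rintro ⟨y, τ⟩ ⟨hy, h⟩
        have h' : τ = t := h
        exact (hSN y (hKN hy) τ).2 (h' ▸ htP)
      · intro y hy τ
        simp only [mem_compl_iff, hSN y hy τ]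
      · rintro ⟨y, τ⟩ ⟨hy, h⟩ hs
        exact h ((hSN y hy τ).1 hs)
    · obtain ⟨m, rfl⟩ : ∃ m, i = m + 1 := ⟨i - 1, by ring⟩
      refine tri_left hF hBA (vtw2_star Q hK hc hx t (p0.mono ?_) (m + 1))
        (prodloc Q hN (Ω := Dbᶜ) vtw2_closed_Db.isOpen_compl hF.isOpen_compl ?_ (p0.mono ?_) hK hc
          hKN hx t m)
      · rintro ⟨y, τ⟩ ⟨hy, h⟩ hs
        have h' : τ = t := h
        exact htP (h' ▸ (hSN y (hKN hy) τ).1 hs)
      · intro y _ τ
        simp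
      · rintro ⟨y, τ⟩ ⟨hy, h⟩ hs
        exact h (vtw2_mem_Db.2 (h1 τ ((hSN y hy τ).1 hs)).le)
  · have e1 : (K ×ˢ Db) ∩ Prod.snd ⁻¹' {t} = ∅ := by
      ext ⟨y, τ⟩
      simp only [mem_inter_iff, mem_prod, mem_preimage, mem_singleton_iff, mem_empty_iff_false,
        iff_false]
      rintro ⟨⟨_, h⟩, rfl⟩; exact ht h
    have e2 : (({x} : Set E) ×ˢ Db) ∩ Prod.snd ⁻¹' {t} = ∅ := by
      ext ⟨y, τ⟩
      simp only [mem_inter_iff, mem_prod, mem_preimage, mem_singleton_iff, mem_empty_iff_false,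
        iff_false]
      rintro ⟨⟨_, h⟩, rfl⟩; exact ht h
    rw [e1, e2]
    exact ex_self _ _ _

theorem tw_pc (Q : FC X (E × ℂ)) {k : ℕ} (r : Fin k → E → ℂ) (hr : ∀ i, Continuous (r i))
    (hinj : ∀ y, Function.Injective fun i => r i y) (h1 : ∀ y i, ‖r i y‖ < 1) {S : Set (E × ℂ)}
    (hS : ∀ p, p ∈ S ↔ ∃ i, p.2 = r i p.1) (p0 : Q.PC Sᶜ) (p1 : (Q.gam S).PC S) :
    ((Q.gam (univ ×ˢ Db)).map (fstC E ℂ)).PC univ := by
  have hF : IsClosed ((univ : Set E) ×ˢ Db) := isClosed_univ.prod vtw2_closed_Db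
  have hSc : IsClosed S := by
    have : S = ⋃ i, {p : E × ℂ | p.2 = r i p.1} := by
      ext p
      simp only [hS, mem_iUnion, mem_ofPred_eq]
    rw [this]
    exact isClosed_iUnion_of_finite fun i =>
      isClosed_eq continuous_snd ((hr i).comp continuous_fst)
  refine LC.pc ?_
  intro y _
  obtain ⟨W, hW, Φ, hΦ1, hΦ2, hΦ3⟩ := straight r hr y (hinj y) (h1 y)
  obtain ⟨ε, hε, hball⟩ := nhds_basis_closedBall.mem_iff.1 (interior_mem_nhds.2 hW)
  refine ⟨closedBall y ε, subset_univ _, mem_nhdsWithin_of_mem_nhds (closedBall_mem_nhds y hε), ?_⟩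
  intro x hx
  have hrange : range Φ = univ ∩ univ := by rw [Φ.range_coe, inter_self]
  have tF := tr_gam_comap (supp_univ Q) Φ.isInducing isOpen_univ hrange hF
  have tS := tr_gam_comap (supp_univ Q) Φ.isInducing isOpen_univ hrange hSc
  have hpre : Φ ⁻¹' ((univ : Set E) ×ˢ Db) = univ ×ˢ Db := by
    ext p
    simp only [mem_preimage, mem_prod, mem_univ, true_and, hΦ2]
  have him : ∀ A : Set E, Φ '' (A ×ˢ Db) = A ×ˢ Db := by
    intro A
    rw [← Φ.preimage_symm]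
    ext p
    obtain ⟨q, rfl⟩ := Φ.surjective p
    simp only [mem_preimage, Homeomorph.symm_apply_apply, mem_prod, hΦ1, hΦ2]
  rw [hpre] at tF
  have key := tw_pc0 (Q.comap Φ Φ.isInducing) (S := Φ ⁻¹' S) (hSc.preimage Φ.continuous)
    (P := range fun i => r i y) (finite_range _) (by rintro _ ⟨i, rfl⟩; exact h1 y i)
    (N := interior W) isOpen_interior ?_ ?_ ?_ (isCompact_closedBall y ε) (convex_closedBall y ε)
    hball hx
  · rw [tF.acyc (prod_mono (singleton_subset_iff.2 hx) subset_rfl), him, him] at key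
    intro n
    have := key n
    unfold Ex at this ⊢
    rw [Supp.map_fst_ZT (supp_gam Q hF), Supp.map_fst_ZT (supp_gam Q hF)]
    exact this
  · intro b hb τ
    rw [mem_preimage, hS]
    constructor
    · rintro ⟨i, hi⟩
      refine ⟨i, ?_⟩
      have h2 : Φ (b, τ) = Φ (b, r i y) := by
        rw [hΦ3 b (interior_subset hb) i]
        refine Prod.ext (hΦ1 _) ?_
        rw [hi, hΦ1]
      exact (congrArg Prod.snd (Φ.injective h2)).symm
    · rintro ⟨i, rfl⟩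
      exact ⟨i, by rw [hΦ3 b (interior_subset hb) i]⟩
  · rw [(tr_comap Q Φ.isInducing).pc Φ.isEmbedding, ← preimage_compl,
      image_preimage_eq _ Φ.surjective]
    exact p0
  · rw [tS.pc Φ.isEmbedding, image_preimage_eq _ Φ.surjective]
    exact p1

end FC

end Pool.Agent.PWV
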