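import Pool.Agent.P.MP_65ad7c_ag.VTW1
import Pool.Agent.P.MP_65ad7c_ag.VTW2
import Pool.Agent.P.MP_65ad7c_ag.VCod

open Set Filter Topology Metric

noncomputable section
namespace Pool.Agent.PWV

variable {X : Cx} {T : Type} [MetricSpace T]

/-- Exchange of the last two factors. -/
def vstepw0_swap (A B C : Type) [TopologicalSpace A] [TopologicalSpace B] [TopologicalSpace C] :
    (A × C) × B ≃ₜ (A × B) × C where
  toFun p := ((p.1.1, p.2), p.1.2)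
  invFun p := ((p.1.1, p.2), p.1.2)
  left_inv _ := rfl
  right_inv _ := rfl
  continuous_toFun := by fun_prop
  continuous_invFun := by fun_prop

namespace FC

theorem stepW_loc {e m k : ℕ} (Q : FC X (T × ℂ)) {φ : (Fin e → ℂ) × (Fin m → ℂ) → T}
    (hφ : IsOpenEmbedding φ) {V : Set T} (hV : IsClosed V) (hφV : ∀ u, φ u ∈ V ↔ u.2 = 0)
    {S : Set (T × ℂ)} (hS : IsClosed S) (r : Fin k → (Fin e → ℂ) → ℂ) (hr : ∀ i, Continuous (r i))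
    (hinj : ∀ u, Function.Injective fun i => r i u) (h1 : ∀ u i, ‖r i u‖ < 1)
    (hSr : ∀ u τ, (φ (u, 0), τ) ∈ S ↔ ∃ i, τ = r i u) {b β : ℤ} (hb : β - 1 ≤ b + m)
    (p0 : Q.PC Sᶜ) (d0 : Q.Deg Sᶜ b) {S₁ : Set (T × ℂ)} (hS₁ : ∀ u i, (φ (u, 0), r i u) ∈ S₁)
    (p1 : (Q.gam (S ∩ V ×ˢ univ)).PC S₁) (d1 : (Q.gam (S ∩ V ×ˢ univ)).Deg S₁ β) :
    (((Q.gam (univ ×ˢ Db)).map (fstC T ℂ)).gam V).PC (V ∩ range φ) ∧
      (((Q.gam (univ ×ˢ Db)).map (fstC T ℂ)).gam V).Deg (V ∩ range φ) β := by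
  let φ0 : (Fin e → ℂ) → T := fun u => φ (u, 0)
  have hφ0 : IsEmbedding φ0 := hφ.isEmbedding.comp (isEmbedding_prodMkLeft 0)
  have hr0 : φ0 '' univ = V ∩ range φ := by
    ext x
    constructor
    · rintro ⟨u, -, rfl⟩
      exact ⟨(hφV _).2 rfl, _, rfl⟩
    · rintro ⟨hx, ⟨u, w⟩, rfl⟩
      obtain rfl : w = 0 := (hφV _).1 hx
      exact ⟨u, trivial, rfl⟩
  let ψ : (Fin e → ℂ) × ℂ → T × ℂ := Prod.map φ0 id
  have hψ : IsEmbedding ψ := hφ0.prodMap IsEmbedding.id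
  have hC : IsClosed (V ×ˢ (univ : Set ℂ)) := hV.prod isClosed_univ
  have hO : IsOpen (range φ ×ˢ (univ : Set ℂ)) := hφ.isOpen_range.prod isOpen_univ
  have hDb : IsClosed Db := isClosed_closedBall
  have hrψ : range ψ = V ×ˢ (univ : Set ℂ) ∩ range φ ×ˢ (univ : Set ℂ) := by
    ext ⟨x, t⟩
    constructor
    · rintro ⟨⟨u, t'⟩, h⟩
      obtain ⟨rfl, rfl⟩ := Prod.mk.inj h
      exact ⟨⟨(hφV _).2 rfl, trivial⟩, ⟨_, rfl⟩, trivial⟩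
    · rintro ⟨⟨hx, -⟩, ⟨⟨u, w⟩, hu⟩, -⟩
      obtain rfl : φ (u, w) = x := hu
      obtain rfl : w = 0 := (hφV _).1 hx
      exact ⟨(u, t), rfl⟩
  let χ : ((Fin e → ℂ) × ℂ) × (Fin m → ℂ) → T × ℂ := fun p => (φ (p.1.1, p.2), p.1.2)
  have hχ : IsEmbedding χ :=
    (hφ.isEmbedding.prodMap IsEmbedding.id).comp (vstepw0_swap _ _ ℂ).isEmbedding
  have hrχ : range χ = univ ∩ range φ ×ˢ (univ : Set ℂ) := by
    ext ⟨x, t⟩
    constructor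
    · rintro ⟨p, h⟩
      obtain ⟨rfl, rfl⟩ := Prod.mk.inj h
      exact ⟨trivial, ⟨_, rfl⟩, trivial⟩
    · rintro ⟨-, ⟨⟨u, w⟩, hu⟩, -⟩
      obtain rfl : φ (u, w) = x := hu
      exact ⟨((u, t), w), rfl⟩
  obtain ⟨c1, c2⟩ := cod_gen (supp_univ Q) hχ hO hrχ hC
    (fun u => ⟨fun h => (hφV _).1 h.1, fun h => ⟨(hφV _).2 h, trivial⟩⟩)
    (hS.isOpen_compl.preimage hχ.continuous) p0 d0
  have hsub : ψ '' (ψ ⁻¹' S)ᶜ ⊆ V ×ˢ (univ : Set ℂ) ∩ range χ ∩ Sᶜ := by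
    rintro _ ⟨⟨u, t⟩, h, rfl⟩
    exact ⟨⟨⟨(hφV _).2 rfl, trivial⟩, ((u, t), 0), rfl⟩, h⟩
  have hsub' : ψ '' (ψ ⁻¹' S) ⊆ S₁ := by
    rintro _ ⟨⟨u, t⟩, h, rfl⟩
    obtain ⟨i, rfl⟩ := (hSr u t).1 h
    exact hS₁ u i
  have t0 := tr_comap (Q.gam (V ×ˢ univ)) hψ.isInducing
  have t1 := tr_gam_comap (supp_gam Q hC) hψ.isInducing hO hrψ hS
  rw [gam_gam Q hC hS, inter_comm] at t1
  have hF : IsClosed ((univ : Set T) ×ˢ Db) := isClosed_univ.prod hDb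
  have hF' : IsClosed ((univ : Set (Fin e → ℂ)) ×ˢ Db) := isClosed_univ.prod hDb
  have t2 := tr_gam_comap (supp_gam Q hC) hψ.isInducing hO hrψ hF
  have eF : ψ ⁻¹' ((univ : Set T) ×ˢ Db) = (univ : Set (Fin e → ℂ)) ×ˢ Db := by
    ext p
    exact ⟨fun h => ⟨trivial, h.2⟩, fun h => ⟨trivial, h.2⟩⟩
  rw [eF] at t2
  have t3 := Tr.map_fst (supp_gam _ hF) (supp_gam _ hF') t2
  have q0 := (t0.pc hψ _).2 (c1.mono hsub)
  have g0 := (t0.deg _ _).2 (c2.mono hsub hb)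
  have q1 := (t1.pc hψ _).2 (p1.mono hsub')
  have g1 := (t1.deg _ _).2 (d1.mono hsub' le_rfl)
  have a1 := tw_pc _ r hr hinj h1 (S := ψ ⁻¹' S) (fun p => hSr p.1 p.2) q0 q1
  have a2 := tw_deg _ (hS.preimage hψ.continuous)
    (fun y => (finite_range fun i => r i y).subset fun τ h => by
      obtain ⟨i, rfl⟩ := (hSr y τ).1 h
      exact ⟨i, rfl⟩)
    (fun p h => by
      obtain ⟨i, hi⟩ := (hSr p.1 p.2).1 h
      rw [hi]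
      exact h1 _ _) q0 g0 g1
  have eV : (fstC T ℂ) ⁻¹' V = V ×ˢ (univ : Set ℂ) := by
    ext p
    exact ⟨fun h => ⟨h, trivial⟩, fun h => h.1⟩
  rw [map_gam _ _ hV, eV, gam_gam Q hF hC, inter_comm (univ ×ˢ Db), ← gam_gam Q hC hF, ← hr0]
  exact ⟨(t3.pc hφ0 _).1 a1, (t3.deg _ _).1 a2⟩

end FC

end Pool.Agent.PWV
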