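import Pool.Agent.P.MP_65ad7c_ag.VArt1
import Pool.Agent.P.MP_65ad7c_ag.VStraight
import Pool.Agent.P.MP_65ad7c_ag.VTr
import Pool.Agent.P.MP_65ad7c_ag.VArc

open Set Filter Topology Metric

noncomputable section
namespace Pool.Agent.PWV

variable {X : Cx} {E : Type} [MetricSpace E]

theorem vta_compact : IsCompact Db := isCompact_closedBall _ _

namespace FC

theorem vta_ZT (Q : FC X (E × ℂ)) (A : Set E) :
    ((Q.res (univ ×ˢ Db)).map (fstC E ℂ)).ZT A = Q.ZT (A ×ˢ Db) := by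
  have hC : IsClosed ((univ : Set E) ×ˢ Db) := isClosed_univ.prod vta_compact.isClosed
  rw [(supp_res Q hC).map_fst_ZT, res_ZT Q hC, prod_inter_prod, inter_univ, inter_self]

theorem vta_ex (Q : FC X (E × ℂ)) (n : ℤ) (A B : Set E) :
    ((Q.res (univ ×ˢ Db)).map (fstC E ℂ)).Ex n A B ↔ Q.Ex n (A ×ˢ Db) (B ×ˢ Db) := by
  rw [Ex, vta_ZT, vta_ZT, Ex]

theorem vta_arc (Q : FC X (E × ℂ)) {U : Set E} (h : ∀ t : ℂ, Q.PC (U ×ˢ {t})) {γ : ℝ → E}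
    (hc : ContinuousOn γ (Icc 0 1)) (hi : InjOn γ (Icc 0 1)) (hm : MapsTo γ (Icc 0 1) U) (n : ℤ) :
    Q.Ex n ((γ '' Icc 0 1) ×ˢ Db) ({γ 0} ×ˢ Db) := by
  refine lg Q ((isCompact_Icc.image_of_continuousOn hc).prod vta_compact)
    (isClosed_singleton.prod vta_compact.isClosed)
    (prod_mono (singleton_subset_iff.2 ⟨0, left_mem_Icc.2 zero_le_one, rfl⟩) Subset.rfl)
    Prod.snd continuous_snd.continuousOn n fun t i _ => ?_
  by_cases ht : t ∈ Db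
  · have e1 : (γ '' Icc 0 1) ×ˢ Db ∩ Prod.snd ⁻¹' {t} = (fun s => (γ s, t)) '' Icc 0 1 := by
      ext ⟨x, τ⟩
      constructor
      · rintro ⟨⟨⟨s, hs, rfl⟩, -⟩, rfl⟩
        exact ⟨s, hs, rfl⟩
      · rintro ⟨s, hs, e⟩
        cases e
        exact ⟨⟨⟨s, hs, rfl⟩, ht⟩, rfl⟩
    have e2 : ({γ 0} ×ˢ Db ∩ Prod.snd ⁻¹' {t} : Set (E × ℂ)) = {(γ 0, t)} := by
      ext ⟨x, τ⟩
      constructor
      · rintro ⟨⟨rfl, -⟩, rfl⟩
        rfl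
      · intro e
        cases e
        exact ⟨⟨rfl, ht⟩, rfl⟩
    rw [e1, e2]
    exact h t (fun s => (γ s, t)) (hc.prodMk continuousOn_const)
      (fun a ha b hb e => hi ha hb (congrArg Prod.fst e)) (fun s hs => ⟨hm hs, rfl⟩) i
  · have e : ∀ A : Set E, A ×ˢ Db ∩ Prod.snd ⁻¹' {t} = ∅ := fun A =>
      eq_empty_of_forall_notMem fun x hx => ht (by rw [← mem_singleton_iff.1 hx.2]; exact hx.1.2)
    rw [e, e]
    exact ex_self Q i ∅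

theorem vta_deg (Q : FC X (E × ℂ)) {k : ℕ} (r : Fin k → ℂ) (y : E) {S₀ S₁ : Set (E × ℂ)}
    (hS₀ : ∀ τ, (∀ i, τ ≠ r i) → (y, τ) ∈ S₀) (hS₁ : ∀ i, (y, r i) ∈ S₁)
    {β : ℤ} (p0 : Q.PC S₀) (d0 : Q.DegLe S₀ (β - 1)) (d1 : Q.DegLe S₁ β) {j : ℤ}
    (hj : β < j + 1) : Q.Ex j ({y} ×ˢ Db) (∅ ×ˢ Db) := by
  have hφ : IsEmbedding (Prod.mk y : ℂ → E × ℂ) := isEmbedding_prodMkRight y
  have tr := tr_comap Q hφ.isInducing
  have hs : Prod.mk y '' (Db \ range r) ⊆ S₀ := by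
    rintro _ ⟨τ, hτ, rfl⟩
    exact hS₀ τ fun i e => hτ.2 ⟨i, e.symm⟩
  have h := art1 (Q.comap _ hφ.isInducing) (finite_range r) vta_compact (convex_closedBall _ _)
    ((tr.pc hφ _).2 (p0.mono hs)) ((tr.degLe _ _).2 (d0.mono hs le_rfl))
    ((tr.degLe _ _).2 (by
      rintro _ ⟨τ, -, rfl⟩ i hi
      by_cases hτ : τ ∈ range r
      · obtain ⟨l, rfl⟩ := hτ
        exact d1 _ (hS₁ l) i hi
      · exact d0 _ (hS₀ τ fun l e => hτ ⟨l, e.symm⟩) i (by omega))) hj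
  have h' := (tr j Db ∅ (empty_subset _)).1 h
  rwa [image_empty, ← singleton_prod, ← empty_prod (t := Db)] at h'

theorem ta (Q : FC X (E × ℂ)) {k : ℕ} (r : Fin k → E → ℂ) {W : Set E}
    (hr : ∀ i, ContinuousOn (r i) W) (hinj : ∀ y ∈ W, Function.Injective fun i => r i y)
    (h1 : ∀ y ∈ W, ∀ i, ‖r i y‖ < 1) {S₀ S₁ : Set (E × ℂ)}
    (hS₀ : ∀ y ∈ W, ∀ τ, (∀ i, τ ≠ r i y) → (y, τ) ∈ S₀) (hS₁ : ∀ y ∈ W, ∀ i, (y, r i y) ∈ S₁)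
    {β : ℤ} (p0 : Q.PC S₀) (p1 : Q.PC S₁) (d0 : Q.DegLe S₀ (β - 1)) (d1 : Q.DegLe S₁ β) :
    ((Q.res (univ ×ˢ Db)).map (fstC E ℂ)).PC W ∧
      ((Q.res (univ ×ˢ Db)).map (fstC E ℂ)).DegLe W β := by
  refine ⟨pc_local fun y hy => ?_, fun y hy j hj => (vta_ex Q j _ _).2
    (vta_deg Q (fun i => r i y) y (hS₀ y hy) (hS₁ y hy) p0 d0 d1 hj)⟩
  obtain ⟨U, hU, Φ, f1, f2, f3⟩ := straight (B := W) (fun i b => r i b.1)
    (fun i => continuousOn_iff_continuous_domRestrict.1 (hr i)) ⟨y, hy⟩ (hinj y hy) (h1 y hy)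
  refine ⟨Subtype.val '' U, ?_, ?_⟩
  · rw [nhdsWithin_eq_map_subtype_coe hy]
    exact image_mem_map hU
  have hv : IsEmbedding (Subtype.val : W → E) := IsEmbedding.subtypeVal
  have tr1 := tr_comap ((Q.res (univ ×ˢ Db)).map (fstC E ℂ)) hv.isInducing
  refine (tr1.pc hv U).1 ?_
  have hψ : IsEmbedding (Prod.map (Subtype.val : W → E) (id : ℂ → ℂ) ∘ Φ) :=
    (hv.prodMap IsEmbedding.id).comp Φ.isEmbedding
  have tr2 := tr_comap Q hψ.isInducing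
  have him : ∀ A : Set W, (Prod.map (Subtype.val : W → E) (id : ℂ → ℂ) ∘ Φ) '' (A ×ˢ Db) =
      (Subtype.val '' A) ×ˢ Db := by
    intro A
    ext ⟨x, τ⟩
    constructor
    · rintro ⟨p, hp, e⟩
      rw [← e]
      exact ⟨⟨(Φ p).1, by rw [f1]; exact hp.1, rfl⟩, (f2 p).2 hp.2⟩
    · rintro ⟨⟨b, hb, rfl⟩, hτ⟩
      obtain ⟨p, hp⟩ := Φ.surjective (b, τ)
      refine ⟨p, ⟨?_, ?_⟩, ?_⟩
      · rw [← f1 p, hp]; exact hb
      · rw [← f2 p, hp]; exact hτ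
      · rw [Function.comp_apply, hp]; rfl
  have hpc : ∀ t : ℂ, (Q.comap _ hψ.isInducing).PC (U ×ˢ {t}) := by
    intro t
    refine (tr2.pc hψ _).2 ?_
    by_cases ht : ∃ i, t = r i y
    · obtain ⟨i, rfl⟩ := ht
      refine p1.mono ?_
      rintro _ ⟨⟨b, τ⟩, ⟨hb, rfl⟩, rfl⟩
      rw [Function.comp_apply, f3 b hb i]
      exact hS₁ b.1 b.2 i
    · refine p0.mono ?_
      rintro _ ⟨⟨b, τ⟩, ⟨hb, rfl⟩, rfl⟩
      refine hS₀ _ (Φ (b, τ)).1.2 _ fun i e => ht ⟨i, ?_⟩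
      have e1 : Φ (b, τ) = Φ (b, r i y) := by
        rw [f3 b hb i]
        refine Prod.ext (f1 _) ?_
        have e2 : (Φ (b, τ)).2 = r i (Φ (b, τ)).1.1 := e
        rw [e2, f1]
      exact congrArg Prod.snd (Φ.injective e1)
  intro γ hc hi hm n
  have hsub : ({γ 0} : Set W) ⊆ γ '' Icc 0 1 :=
    singleton_subset_iff.2 ⟨0, left_mem_Icc.2 zero_le_one, rfl⟩
  refine (tr1 n _ _ hsub).2 ((vta_ex Q n _ _).2 ?_)
  rw [← him, ← him]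
  exact (tr2 n _ _ (prod_mono hsub Subset.rfl)).1 (vta_arc _ hpc hc hi hm n)

end FC

end Pool.Agent.PWV
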