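import Pool.Agent.P.MP_65ad7c_ag.VUC

open Set Filter Topology Metric

noncomputable section
namespace Pool.Agent.PWV

variable {X : Cx} {E F : Type} [NormedAddCommGroup E] [NormedSpace ℝ E] [FiniteDimensional ℝ E]
  [NormedAddCommGroup F] [NormedSpace ℝ F] [FiniteDimensional ℝ F]

namespace FC

omit [FiniteDimensional ℝ E] in
theorem vtw1_loc (Q : FC X (E × ℂ)) {S : Set (E × ℂ)} (hS : IsClosed S)
    (hfin : ∀ y, {τ | (y, τ) ∈ S}.Finite) {β j : ℤ} (p0 : Q.PC Sᶜ) (d0 : Q.Deg Sᶜ (β - 1))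
    (hj : j + 1 < β) {u : Set E} (hu : IsOpen u) {δ : ℝ} (hδ : 0 < δ) :
    (Q.gam (univ ×ˢ Db)).Ex j ((u ×ˢ ball (0 : ℂ) (δ + 1)) ∩ Sᶜ) ∅ := by
  have hF : IsClosed ((univ : Set E) ×ˢ Db) := isClosed_univ.prod isClosed_closedBall
  have hA : IsOpen ((u ×ˢ ball (0 : ℂ) (δ + 1)) ∩ Sᶜ) := (hu.prod isOpen_ball).inter hS.isOpen_compl
  rw [gam_ex Q hF, empty_union, ex_exc Q (sep_of_isOpen hA hF.isOpen_compl)]
  refine uc Q (b := β - 1) inter_subset_left (p0.mono inter_subset_right)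
    (d0.mono inter_subset_right le_rfl) ?_ (by omega)
  rintro ⟨y, τ⟩ ⟨⟨hy, hτ⟩, hS'⟩
  obtain ⟨τ', h1, h2⟩ := exists_ray (hfin y) (τ := τ) hS' (le_max_left ‖τ‖ (1 + δ / 2))
  have hτ' : τ' ∈ ball (0 : ℂ) (δ + 1) := by
    rw [mem_ball_zero_iff] at hτ ⊢
    rw [h1]
    exact max_lt hτ (by linarith)
  have hseg : segment ℝ (y, τ) (y, τ') ⊆ (u ×ˢ ball (0 : ℂ) (δ + 1)) ∩ Sᶜ := by
    rw [← Prod.image_mk_segment_right]
    rintro _ ⟨σ, hσ, rfl⟩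
    exact ⟨⟨hy, (convex_ball 0 _).segment_subset hτ hτ' hσ⟩, Set.disjoint_left.1 h2 hσ⟩
  refine ⟨(y, τ'), ⟨hseg (right_mem_segment ℝ _ _), fun h => ?_⟩, .single hseg⟩
  have h3 : ‖τ'‖ ≤ 1 := mem_closedBall_zero_iff.1 h.2
  have := le_max_right ‖τ‖ (1 + δ / 2)
  linarith

theorem tw_deg (Q : FC X (E × ℂ)) {S : Set (E × ℂ)} (hS : IsClosed S)
    (hfin : ∀ y, {τ | (y, τ) ∈ S}.Finite) (h1 : ∀ p ∈ S, ‖p.2‖ < 1) {β : ℤ} (p0 : Q.PC Sᶜ)
    (d0 : Q.Deg Sᶜ (β - 1)) (d1 : (Q.gam S).Deg S β) :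
    ((Q.gam (univ ×ˢ Db)).map (fstC E ℂ)).Deg univ β := by
  intro y _ j hj
  have hF : IsClosed ((univ : Set E) ×ˢ Db) := isClosed_univ.prod isClosed_closedBall
  have hR := supp_gam Q hF
  show X.ExS j _ _
  rw [hR.map_fst_ZT, hR.map_fst_ZT, empty_prod]
  refine tri_mid hS (empty_subset _) ?_ ?_
  · have hSF : (univ ×ˢ Db) ∩ S = S :=
      inter_eq_right.2 fun p hp => ⟨trivial, mem_closedBall_zero_iff.2 (h1 p hp).le⟩
    rw [gam_gam Q hF hS, hSF]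
    refine Deg.ex_low (fun x _ => ?_) (empty_subset _) hj
    by_cases hx : x ∈ S
    · exact d1 x hx
    · exact ((supp_gam Q hS).deg_off β).1 x hx
  · intro v hv hd
    obtain ⟨N, hN, hKN, hd⟩ := (mem_loc_ZT _ hS.isOpen_compl).1 hd
    obtain ⟨u, u', hu, hu', hy, hD, huu⟩ :=
      generalized_tube_lemma isCompact_singleton (isCompact_closedBall (0 : ℂ) 1) hN hKN
    obtain ⟨δ, hδ, hth⟩ := (isCompact_closedBall (0 : ℂ) 1).exists_thickening_subset_open hu' hD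
    rw [thickening_closedBall hδ zero_le_one] at hth
    rw [loc_ZT_sub _ hS.isOpen_compl (empty_subset _)] at hv ⊢
    obtain ⟨w, hw, hw'⟩ := vtw1_loc Q hS hfin p0 d0 hj hu hδ v hv
      (ZT_anti (inter_subset_inter_left _ ((prod_mono Subset.rfl hth).trans huu)) _ hd)
    refine ⟨w, hw, (mem_loc_ZT _ hS.isOpen_compl).2 ⟨_, hu.prod isOpen_ball, ?_, hw'⟩⟩
    exact prod_mono hy (closedBall_subset_ball (by linarith))

end FC

end Pool.Agent.PWV
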