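import Pool.Agent.P.MP_65ad7c_ag.VLG

open Set Filter Topology Metric

noncomputable section
namespace Pool.Agent.PWV

variable {X : Cx} {T T' : Type} [MetricSpace T] [MetricSpace T']

namespace FC

theorem vtower_step (Q : FC X T) {A B C C' : Set T} (hm : C ⊆ C') (hc : RelCl C A)
    (hc' : RelCl C' A) (hB : RelCl B A) {n : ℤ} (h0 : Q.Ex n C (B ∩ C)) {v : X.V (n + 1 + 1)}
    {w w₂ : X.V (n + 1)} (a1 : w ∈ Q.ZT (B ∩ C) (n + 1))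
    (a2 : v - X.d (n + 1) w ∈ Q.ZT C (n + 1 + 1)) (b1 : w₂ ∈ Q.ZT (B ∩ C') (n + 1))
    (b2 : v - X.d (n + 1) w₂ ∈ Q.ZT C' (n + 1 + 1)) :
    ∃ w', (w' ∈ Q.ZT (B ∩ C') (n + 1) ∧ v - X.d (n + 1) w' ∈ Q.ZT C' (n + 1 + 1)) ∧
      w' - w ∈ Q.ZT C (n + 1) := by
  obtain ⟨s, hs, hs'⟩ := h0 (w₂ - w)
    (sub_mem (ZT_anti (inter_subset_inter_right _ hm) _ b1) a1) (by
      have := sub_mem a2 (ZT_anti hm _ b2)
      rwa [sub_sub_sub_cancel_left, ← map_sub] at this)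
  have e : B ∩ C = C ∩ (B ∩ C') := by
    ext x; exact ⟨fun h => ⟨h.2, h.1, hm h.2⟩, fun h => ⟨h.2.1, h.1⟩⟩
  rw [e, Q.ZT_inter (sep_of_relCl hc (hB.inter hc'))] at hs
  obtain ⟨s₁, h1, s₂, h2, rfl⟩ := Submodule.mem_sup.1 hs
  refine ⟨w₂ - X.d n s₂, ⟨sub_mem b1 (Q.ZT_stab _ n _ h2), ?_⟩, ?_⟩
  · rwa [map_sub, X.dd, sub_zero]
  · have := add_mem hs' (Q.ZT_stab _ n _ h1)
    have e2 : w₂ - w - X.d n (s₁ + s₂) + X.d n s₁ = w₂ - X.d n s₂ - w := by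
      rw [map_add]; abel
    rwa [e2] at this

theorem tower (Q : FC X T) {A B : Set T} (As : ℕ → Set T) (hm : Monotone As)
    (hc : ∀ i, RelCl (As i) A) (hB : RelCl B A) (hcov : ∀ x ∈ A, ∃ i, As i ∈ 𝓝[A] x) (n : ℤ)
    (h0 : ∀ i, Q.Ex n (As i) (B ∩ As i)) (h1 : ∀ i, Q.Ex (n + 1) (As i) (B ∩ As i)) :
    Q.Ex (n + 1) A B := by
  intro v hv hd
  have ex : ∀ i, ∃ w ∈ Q.ZT (B ∩ As i) (n + 1), v - X.d (n + 1) w ∈ Q.ZT (As i) (n + 1 + 1) :=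
    fun i => h1 i v (ZT_anti inter_subset_left _ hv) (ZT_anti (hc i).1 _ hd)
  have step : ∀ i w, ∃ w', w ∈ Q.ZT (B ∩ As i) (n + 1) ∧
      v - X.d (n + 1) w ∈ Q.ZT (As i) (n + 1 + 1) →
      (w' ∈ Q.ZT (B ∩ As (i + 1)) (n + 1) ∧ v - X.d (n + 1) w' ∈ Q.ZT (As (i + 1)) (n + 1 + 1)) ∧
        w' - w ∈ Q.ZT (As i) (n + 1) := fun i w => by
    by_cases h : w ∈ Q.ZT (B ∩ As i) (n + 1) ∧ v - X.d (n + 1) w ∈ Q.ZT (As i) (n + 1 + 1)
    · obtain ⟨w₂, b1, b2⟩ := ex (i + 1)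
      obtain ⟨w', h'⟩ := Q.vtower_step (hm (Nat.le_succ i)) (hc i) (hc (i + 1)) hB (h0 i)
        h.1 h.2 b1 b2
      exact ⟨w', fun _ => h'⟩
    · exact ⟨w, fun h' => absurd h' h⟩
  choose g hg using step
  obtain ⟨w₀, hw₀⟩ := ex 0
  obtain ⟨w, e0, e1⟩ : ∃ w : ℕ → X.V (n + 1), w 0 = w₀ ∧ ∀ i, w (i + 1) = g i (w i) :=
    ⟨fun i => Nat.rec w₀ g i, rfl, fun _ => rfl⟩
  have hP : ∀ i, w i ∈ Q.ZT (B ∩ As i) (n + 1) ∧
      v - X.d (n + 1) (w i) ∈ Q.ZT (As i) (n + 1 + 1) := fun i => by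
    induction i with
    | zero => rw [e0]; exact hw₀
    | succ i ih => rw [e1]; exact (hg i _ ih).1
  have hD : ∀ i j, i ≤ j → w j - w i ∈ Q.ZT (As i) (n + 1) := fun i j hij => by
    induction j, hij using Nat.le_induction with
    | base => rw [sub_self]; exact zero_mem _
    | succ j hij ih =>
      have := add_mem (ZT_anti (hm hij) _ (hg j _ (hP j)).2) ih
      rwa [← e1, sub_add_sub_cancel] at this
  obtain ⟨W, hW, hW'⟩ := Q.glue_res A (n + 1) ℕ (fun i => {x | ∀ᶠ y in 𝓝[A] x, y ∈ As i}) w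
    (fun i => isOpen_iff_eventually.2 fun y hy => eventually_nhds_nhdsWithin.2 hy)
    (fun i => (mem_ZT.1 (hP i).1).1) (fun i j x hx hi hj => by
      rcases le_total i j with h | h
      · have := neg_mem ((mem_ZT.1 (hD i j h)).2 x (Eventually.self_of_nhdsWithin hi hx))
        rwa [neg_sub] at this
      · exact (mem_ZT.1 (hD j i h)).2 x (Eventually.self_of_nhdsWithin hj hx))
  refine ⟨W, mem_ZT.2 ⟨hW, fun x hx => ?_⟩,
    mem_ZT.2 ⟨sub_mem (mem_ZT.1 hv).1 (Q.d_top _ _ hW), fun x hx => ?_⟩⟩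
  · obtain ⟨i, hi⟩ := hcov x (hB.1 hx)
    have := add_mem (hW' i x (hB.1 hx) hi)
      ((mem_ZT.1 (hP i).1).2 x ⟨hx, mem_of_mem_nhdsWithin (hB.1 hx) hi⟩)
    rwa [sub_add_cancel] at this
  · obtain ⟨i, hi⟩ := hcov x hx
    have := sub_mem ((mem_ZT.1 (hP i).2).2 x (mem_of_mem_nhdsWithin hx hi))
      (Q.d_z x _ _ (hW' i x hx hi))
    rwa [map_sub, sub_sub, add_sub_cancel] at this

theorem vb_tower {F : Type} [MetricSpace F] (Q : FC X T) {A B : Set T} (As : ℕ → Set T)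
    (hm : Monotone As) (hK : ∀ i, IsCompact (As i)) (hs : ∀ i, As i ⊆ A) (hB : RelCl B A)
    (hcov : ∀ x ∈ A, ∃ i, As i ∈ 𝓝[A] x) (f : T → F) (hf : ContinuousOn f A)
    (h : ∀ i t, Q.Acyc (As i ∩ f ⁻¹' {t}) (B ∩ As i ∩ f ⁻¹' {t})) : Q.Acyc A B := by
  have key : ∀ i n, Q.Ex n (As i) (B ∩ As i) := fun i n => by
    refine Q.lg (hK i) (isClosed_of_closure_subset fun x hx => ?_) inter_subset_right f
      (hf.mono (hs i)) n fun t j _ => h i t j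
    have h1 : x ∈ As i := (hK i).isClosed.closure_subset (closure_mono inter_subset_right hx)
    exact ⟨hB.2 ⟨closure_mono inter_subset_left hx, hs i h1⟩, h1⟩
  intro n
  obtain ⟨m, rfl⟩ : ∃ m, n = m + 1 := ⟨n - 1, by ring⟩
  exact Q.tower As hm (fun i => relCl_of_isClosed (hK i).isClosed (hs i)) hB hcov m
    (fun i => key i m) fun i => key i (m + 1)

end FC

end Pool.Agent.PWV
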