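import Pool.Agent.P.MP_e12fcd_ag.Weil.Sard
import Pool.Agent.Lib.SCV.Smooth

/-! Resolution of singularities: local definitions. -/

open Set Filter Topology Asymptotics
open scoped ComplexConjugate

noncomputable section
namespace Pool.Agent.HIR

/-- affine space -/
abbrev E (n : ℕ) := Fin n → ℂ

variable {n : ℕ}

/-- derivative in the direction of a coordinate -/
def pd (i : Fin n) (f : E n → ℂ) (z : E n) : ℂ := fderiv ℂ f z (Pi.single i 1)

/-- the coordinate function -/
def co (i : Fin n) (z : E n) : ℂ := z i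

/-- `f` vanishes at `z` to order at least `m` -/
def Ord (z : E n) (m : ℕ) (f : E n → ℂ) : Prop := f =O[𝓝 z] fun w => ‖w - z‖ ^ m

/-- kill the coordinates in `K` -/
def rho (K : Finset (Fin n)) (z : E n) : E n := fun i => if i ∈ K then 0 else z i

/-- monomials -/
def mon (α : Fin n → ℕ) (z : E n) : ℂ := ∏ i, z i ^ α i

/-- the chart `p` of the blow-up of the coordinate subspace `T` -/
def bet (T : Finset (Fin n)) (p : Fin n) (w : E n) : E n :=
  fun i => if i ∈ T.erase p then w p * w i else w i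

/-- conjugate function -/
def cf (f : E n → ℂ) (z : E n) : ℂ := conj (f (star z))

/-- exponents of the coordinates that vanish at `w` -/
def cut (α : Fin n → ℕ) (w : E n) : Fin n → ℕ := fun i => if w i = 0 then α i else 0

/-- exponents on coordinates from exponents on divisors -/
def exv (J : Finset ℕ) (c : ℕ → Fin n) (a : ℕ → ℕ) : Fin n → ℕ :=
  fun i => ∑ j ∈ J with c j = i, a j

/-- a germ of a biholomorphic map with its inverse -/
structure Bi (τ σ : E n → E n) (z z' : E n) : Prop where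
  an : AnalyticAt ℂ τ z
  an' : AnalyticAt ℂ σ z'
  map : τ z = z'
  map' : σ z' = z
  left : ∀ᶠ w in 𝓝 z, σ (τ w) = w
  right : ∀ᶠ w in 𝓝 z', τ (σ w) = w

section rees
variable {T : Type}

/-- graded families of functions -/
abbrev Gr (T : Type) := ℕ → (T → ℂ) → Prop

/-- the algebra of germs generated by `L` over `H` -/
inductive In (l : Filter T) (H : (T → ℂ) → Prop) (L : Set (ℕ × (T → ℂ))) : ℕ → (T → ℂ) → Prop
  | gen {m f} : (m, f) ∈ L → In l H L m f
  | hol {f} : H f → In l H L 0 f
  | anti {m f} : In l H L (m + 1) f → In l H L m f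
  | mul {m m' f g} : In l H L m f → In l H L m' g → In l H L (m + m') (f * g)
  | add {m f g} : In l H L m f → In l H L m g → In l H L m (f + g)
  | zero {m} : In l H L m 0
  | congr {m f g} : In l H L m f → f =ᶠ[l] g → In l H L m g

/-- `H` is a ring of germs -/
structure Ring' (l : Filter T) (H : (T → ℂ) → Prop) : Prop where
  const : ∀ c : ℂ, H fun _ => c
  add : ∀ f g, H f → H g → H (f + g)
  mul : ∀ f g, H f → H g → H (f * g)
  congr : ∀ f g, H f → f =ᶠ[l] g → H g

/-- Rees algebras of germs -/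
structure Rees (l : Filter T) (H : (T → ℂ) → Prop) (A : Gr T) : Prop where
  an : ∀ m f, A m f → H f
  hol : ∀ f, H f → A 0 f
  anti : ∀ m f, A (m + 1) f → A m f
  mul : ∀ m m' f g, A m f → A m' g → A (m + m') (f * g)
  add : ∀ m f g, A m f → A m g → A m (f + g)
  zero : ∀ m, A m 0
  congr : ∀ m f g, A m f → f =ᶠ[l] g → A m g

/-- the elements of a graded family -/
def els (A : Gr T) : Set (ℕ × (T → ℂ)) := {q | A q.1 q.2}

/-- inclusion -/
def Le (A B : Gr T) : Prop := ∀ m f, A m f → B m f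

end rees

/-- analytic germs -/
abbrev An (z : E n) (f : E n → ℂ) : Prop := AnalyticAt ℂ f z

/-- generated algebra of analytic germs -/
abbrev LIn (z : E n) (L : Set (ℕ × (E n → ℂ))) : Gr (E n) := In (𝓝 z) (An z) L

/-- Rees algebras of analytic germs -/
abbrev LR (z : E n) (A : Gr (E n)) : Prop := Rees (𝓝 z) (An z) A

/-- all analytic germs -/
def top (z : E n) : Gr (E n) := fun _ f => An z f

/-- iterated derivatives -/
inductive Dg (L : Set (ℕ × (E n → ℂ))) : ℕ → (E n → ℂ) → Prop
  | base {m f} : (m, f) ∈ L → Dg L m f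
  | der {m f} (i : Fin n) : Dg L (m + 1) f → Dg L m (pd i f)

/-- the differential algebra generated by `L` -/
def DIn (z : E n) (L : Set (ℕ × (E n → ℂ))) : Gr (E n) := LIn z (els (Dg L))

/-- closed under the derivative in the direction `i` -/
def Dif (i : Fin n) (A : Gr (E n)) : Prop := ∀ m f, A (m + 1) f → A m (pd i f)

/-- singular point -/
def LSg (z : E n) (A : Gr (E n)) : Prop := ∀ m f, A m f → Ord z m f

/-- `K` is a set of coordinates of maximal contact -/
structure PK (A : Gr (E n)) (K : Finset (Fin n)) : Prop where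
  co : ∀ i ∈ K, A 1 (co i)
  der : ∀ i ∈ K, Dif i A

/-- the exponents live on coordinates outside `K` that vanish at `z` -/
def Sup (z : E n) (K : Finset (Fin n)) (α : Fin n → ℕ) : Prop := ∀ i, α i ≠ 0 → i ∉ K ∧ z i = 0

section inv
variable (z : E n) (A B : Gr (E n)) (K : Finset (Fin n)) (b : ℕ) (α : Fin n → ℕ) (ν : ℕ)

/-- the residual ideal -/
def RR : Set (E n → ℂ) := {g | An z g ∧ g ∘ rho K =ᶠ[𝓝 z] g ∧ A b (mon α * g)}

/-- the monomial divides the coefficient ideal -/
def Div : Prop := ∀ c, A b c → (c ∘ rho K) =O[𝓝 z] mon α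

/-- the residual order is at most `ν` -/
def ResLE : Prop := ∃ g ∈ RR z A K b α, ¬ Ord z (ν + 1) g

/-- the companion algebra -/
def Cmp : Gr (E n) := DIn z (els A ∪ {ν} ×ˢ RR z A K b α)

/-- the coefficient of `c` is dominated by the monomial times elements of `B` -/
def Dm (m : ℕ) (c : E n → ℂ) : Prop := ∃ s : List (E n → ℂ), (∀ g ∈ s, B ν g) ∧
  (fun w => ‖c (rho K w)‖ ^ b) =O[𝓝 z]
    fun w => (‖mon α w‖ * (s.map fun g => ‖g (rho K w)‖).sum) ^ m

/-- the coefficients of `A` are dominated by the monomial times elements of `B` -/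
def Dom : Prop := ∀ m c, A m c → Dm z B K b α ν m c

/-- the local invariant of the loop -/
structure LI : Prop where
  pk : PK A K
  sup : Sup z K α
  dom : Dom z A B K b α ν
  res : ResLE z A K b α ν
  le : Le A B
  cmp : Le B (Cmp z A K b α ν)

end inv

/-- the elements of `A` vanish to the right order along the coordinate subspace `T` -/
def VanC (z : E n) (T : Finset (Fin n)) (A : Gr (E n)) : Prop :=
  ∀ m f, A m f → ∀ᶠ w in 𝓝 z, (∀ i ∈ T, w i = 0) → Ord w m f

/-- the transform in the chart `p` -/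
def ltr (A : Gr (E n)) (T : Finset (Fin n)) (p : Fin n) (w : E n) : Gr (E n) :=
  LIn w {q | An w q.2 ∧ ∃ f, A q.1 f ∧ f ∘ bet T p =ᶠ[𝓝 w] co p ^ q.1 * q.2}

/-- the new exponents -/
def nex (α : Fin n → ℕ) (T : Finset (Fin n)) (p : Fin n) (w : E n) (ν b : ℕ) : Fin n → ℕ :=
  fun i => if i = p then ∑ j ∈ T, α j + ν - b else if w i = 0 then α i else 0

/-- `L` is a finite set of generators of the family `A` near `z` -/
structure Gen (A : E n → Gr (E n)) (μ : ℕ) (z : E n) (L : Set (ℕ × (E n → ℂ))) : Prop where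
  fin : L.Finite
  wt : ∀ q ∈ L, 1 ≤ q.1 ∧ q.1 ≤ μ
  an : ∀ q ∈ L, An z q.2
  eq : ∀ᶠ w in 𝓝 z, A w = LIn w L

/-- locally finitely generated -/
def LFg (A : E n → Gr (E n)) (μ : ℕ) (z : E n) : Prop := ∃ L, Gen A μ z L

/-- transport along a map -/
def push (A : Gr (E n)) (τ : E n → E n) (z' : E n) : Gr (E n) := fun m h => An z' h ∧ A m (h ∘ τ)

/-- the conjugate algebra -/
def cA (A : Gr (E n)) : Gr (E n) := fun m h => A m (cf h)

/-- one more element of weight one -/
def Extra (z : E n) (A : Gr (E n)) (N : Finset (Fin n)) : Prop :=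
  ∃ u v, A 1 u ∧ (∀ i ∈ N, v i = 0) ∧ fderiv ℂ u z v ≠ 0

/-- the divisors `J` are the coordinates `c` in the first chart and `c'` in the second -/
structure DvC (τ : E n → E n) (z : E n) (J : Finset ℕ) (c c' : ℕ → Fin n) : Prop where
  inj : InjOn c J
  inj' : InjOn c' J
  zero : ∀ j ∈ J, z (c j) = 0
  iff : ∀ j ∈ J, ∀ᶠ w in 𝓝 z, w (c j) = 0 ↔ τ w (c' j) = 0

/-- the ideal spanned by a finite set -/
def Spn (w : E n) (F : Finset (E n → ℂ)) (c : E n → ℂ) : Prop :=
  ∃ q : (E n → ℂ) → E n → ℂ, (∀ f ∈ F, An w (q f)) ∧ c =ᶠ[𝓝 w] ∑ f ∈ F, q f * f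

/-- a change of coordinates that fixes the coordinates in `N` and whose coordinates outside `K`
do not depend on the variables in `K` -/
structure Ty3 (τ : E n → E n) (z : E n) (K N : Finset (Fin n)) : Prop where
  sub : K ⊆ N
  fix : ∀ i ∈ N, co i ∘ τ =ᶠ[𝓝 z] co i
  ind : ∀ i ∉ K, (co i ∘ τ) ∘ rho K =ᶠ[𝓝 z] co i ∘ τ

/-- the invariants are transported along `τ` -/
def Tr (τ : E n → E n) (z z' : E n) (A : Gr (E n)) (K K' : Finset (Fin n)) (b : ℕ)
    (α α' : Fin n → ℕ) : Prop :=
  Div z A K b α → Div z' (push A τ z') K' b α' ∧ ∀ ν, ResLE z A K b α ν →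
    ResLE z' (push A τ z') K' b α' ν ∧
      Le (Cmp z' (push A τ z') K' b α' ν) (push (Cmp z A K b α ν) τ z')

/-- two charts with maximal contact, adapted to the same divisors -/
structure Two (τ σ : E n → E n) (z z' : E n) (A : Gr (E n)) (K K' : Finset (Fin n))
    (J : Finset ℕ) (c c' : ℕ → Fin n) : Prop where
  bi : Bi τ σ z z'
  rees : LR z A
  sg : LSg z A
  pk : PK A K
  pk' : PK (push A τ z') K'
  card : K.card = K'.card
  dv : DvC τ z J c c'
  out : ∀ j ∈ J, c j ∉ K
  out' : ∀ j ∈ J, c' j ∉ K'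

/-- the functions whose transform lies in `B` -/
def pre (B : Gr (E n)) (T : Finset (Fin n)) (p : Fin n) (w : E n) : Gr (E n) := fun m h =>
  An (bet T p w) h ∧ ∃ h', B m h' ∧ h ∘ bet T p =ᶠ[𝓝 w] co p ^ m * h'

open Classical in
/-- the family of companion algebras -/
def CpF (A : E n → Gr (E n)) (K : Finset (Fin n)) (b : ℕ) (α : Fin n → ℕ) (ν : ℕ) (w : E n) :
    Gr (E n) := if LSg w (A w) then Cmp w (A w) K b (cut α w) ν else top w

end Pool.Agent.HIR
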