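import Pool.Agent.P.MP_65ad7c_ag.XA0
import Pool.Agent.P.MP_65ad7c_ag.XA1

open Set Filter Topology Asymptotics
open scoped ComplexConjugate

noncomputable section
namespace Pool.Agent.HIR

variable {n m m' : ℕ} {z : E n} {f g : E n → ℂ} {i j : Fin n} {K T : Finset (Fin n)}

/-- `rho` as a linear map -/
def rhoL_XA2 (K : Finset (Fin n)) : E n →L[ℂ] E n :=
  LinearMap.toContinuousLinearMap
    { toFun := rho K
      map_add' := fun v w => by
        funext i
        by_cases hi : i ∈ K <;> simp [rho, hi]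
      map_smul' := fun c v => by
        funext i
        by_cases hi : i ∈ K <;> simp [rho, hi] }

theorem hasF_co_XA2 (i : Fin n) (z : E n) :
    HasFDerivAt (co i) (ContinuousLinearMap.proj i : E n →L[ℂ] ℂ) z :=
  (ContinuousLinearMap.proj i : E n →L[ℂ] ℂ).hasFDerivAt

theorem fderiv_rho_XA2 (hf : An (rho K z) f) (v : E n) :
    fderiv ℂ (f ∘ rho K) z v = fderiv ℂ f (rho K z) (rho K v) := by
  have h1 : HasFDerivAt (rho K) (rhoL_XA2 K) z := (rhoL_XA2 K).hasFDerivAt
  rw [(hf.differentiableAt.hasFDerivAt.comp z h1).fderiv]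
  rfl

theorem an_co (i : Fin n) (z : E n) : An z (co i) := by
  exact analyticAt_pi_iff.1 analyticAt_id i

theorem an_mon (α : Fin n → ℕ) (z : E n) : An z (mon α) := by
  exact Finset.analyticAt_fun_prod _ fun i _ => (an_co i z).pow (α i)

theorem an_rho (K : Finset (Fin n)) (z : E n) : AnalyticAt ℂ (rho K) z := by
  exact (rhoL_XA2 K).analyticAt z

theorem an_bet (T : Finset (Fin n)) (p : Fin n) (z : E n) : AnalyticAt ℂ (bet T p) z := by
  refine analyticAt_pi_iff.2 fun i => ?_
  unfold bet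
  split_ifs
  · exact (an_co p z).mul (an_co i z)
  · exact an_co i z

theorem an_pd (h : An z f) (i : Fin n) : An z (pd i f) := by
  exact ((ContinuousLinearMap.apply ℂ ℂ (Pi.single i (1 : ℂ) : E n)).analyticAt _).comp h.fderiv

theorem an_cf (h : An z f) : An (star z) (cf f) := by
  refine an_of_ev ?_
  have ht : Tendsto (star : E n → E n) (𝓝 (star z)) (𝓝 z) := by
    have := (continuous_star (R := E n)).tendsto (star z)
    rwa [star_star] at this
  filter_upwards [ht.eventually h.eventually_analyticAt] with w hw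
  have := hw.differentiableAt.star_star
  rw [star_star] at this
  exact this

theorem ring_an (z : E n) : Ring' (𝓝 z) (An z) := by
  exact ⟨fun _ => analyticAt_const, fun _ _ => AnalyticAt.add, fun _ _ => AnalyticAt.mul,
    fun _ _ => AnalyticAt.congr⟩

theorem rho_fix (h : ∀ i ∈ K, z i = 0) : rho K z = z := by
  funext i
  unfold rho
  split_ifs with hi
  · exact (h i hi).symm
  · rfl

theorem rho_rho (K : Finset (Fin n)) (z : E n) : rho K (rho K z) = rho K z := by
  exact rho_fix fun i hi => if_pos hi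

theorem tendsto_rho (h : ∀ i ∈ K, z i = 0) : Tendsto (rho K) (𝓝 z) (𝓝 z) := by
  have := (an_rho K z).continuousAt.tendsto
  rwa [rho_fix h] at this

theorem An.rho (hf : An z f) (h : ∀ i ∈ K, z i = 0) : An z (f ∘ rho K) := by
  exact AnalyticAt.comp_of_eq hf (an_rho K z) (rho_fix h)

theorem mon_rho {α : Fin n → ℕ} (h : ∀ i, α i ≠ 0 → i ∉ K) (w : E n) :
    mon α (rho K w) = mon α w := by
  refine Finset.prod_congr rfl fun i _ => ?_
  by_cases hi : α i = 0
  · rw [hi, pow_zero, pow_zero]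
  · rw [show rho K w i = w i from if_neg (h i hi)]

theorem fderiv_rho (hf : An z f) (h : ∀ i ∈ K, z i = 0) (v : E n) :
    fderiv ℂ (f ∘ rho K) z v = fderiv ℂ f z (rho K v) := by
  rw [fderiv_rho_XA2 (by rw [rho_fix h]; exact hf), rho_fix h]

theorem fderiv_eq_sum (f : E n → ℂ) (z v : E n) : fderiv ℂ f z v = ∑ i, v i * pd i f z := by
  have e : v = ∑ i, v i • (Pi.single i (1 : ℂ) : E n) := by
    funext j
    simp [Finset.sum_apply, Pi.single_apply]
  conv_lhs => rw [e]
  rw [map_sum]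
  exact Finset.sum_congr rfl fun i _ => by rw [map_smul]; rfl

theorem pd_congr (h : f =ᶠ[𝓝 z] g) (i : Fin n) : pd i f =ᶠ[𝓝 z] pd i g := by
  filter_upwards [h.fderiv (𝕜 := ℂ)] with w hw
  unfold pd
  rw [hw]

theorem pd_const (i : Fin n) (c : ℂ) : pd i (fun _ : E n => c) = 0 := by
  funext w
  simp [pd]

theorem pd_co (i j : Fin n) : pd i (co j) = fun _ => if j = i then 1 else 0 := by
  funext w
  unfold pd
  rw [(hasF_co_XA2 j w).fderiv]
  simp [Pi.single_apply]

theorem pd_add (hf : An z f) (hg : An z g) (i : Fin n) :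
    pd i (f + g) =ᶠ[𝓝 z] pd i f + pd i g := by
  filter_upwards [hf.eventually_analyticAt, hg.eventually_analyticAt] with w h1 h2
  unfold pd
  rw [fderiv_add h1.differentiableAt h2.differentiableAt]
  rfl

theorem pd_mul (hf : An z f) (hg : An z g) (i : Fin n) :
    pd i (f * g) =ᶠ[𝓝 z] pd i f * g + f * pd i g := by
  filter_upwards [hf.eventually_analyticAt, hg.eventually_analyticAt] with w h1 h2
  unfold pd
  rw [fderiv_mul h1.differentiableAt h2.differentiableAt]
  simp only [add_apply, smul_apply, smul_eq_mul,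
    Pi.add_apply, Pi.mul_apply]
  ring

theorem pd_pow_co (i : Fin n) (k : ℕ) :
    pd i (co i ^ (k + 1)) = fun w => ((k : ℂ) + 1) * w i ^ k := by
  funext w
  unfold pd
  have e : HasFDerivAt (co i ^ (k + 1)) _ w := (hasF_co_XA2 i w).pow (k + 1)
  rw [e.fderiv]
  simp [co]

theorem pd_pow_co_ne (h : j ≠ i) (k : ℕ) : pd i (co j ^ k) = 0 := by
  funext w
  unfold pd
  have e : HasFDerivAt (co j ^ k) _ w := (hasF_co_XA2 j w).pow k
  rw [e.fderiv]
  simp [h]

/-- chain rule -/
theorem pd_comp {τ : E n → E n} (hτ : AnalyticAt ℂ τ z) (hf : An (τ z) f) (i : Fin n) :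
    pd i (f ∘ τ) =ᶠ[𝓝 z] ∑ j, pd i (co j ∘ τ) * (pd j f ∘ τ) := by
  filter_upwards [hτ.eventually_analyticAt,
    hτ.continuousAt.tendsto.eventually hf.eventually_analyticAt] with w h1 h2
  rw [Finset.sum_apply]
  have e : pd i (f ∘ τ) w = fderiv ℂ f (τ w) (fderiv ℂ τ w (Pi.single i 1)) := by
    unfold pd
    rw [fderiv_comp w h2.differentiableAt h1.differentiableAt]
    rfl
  rw [e, fderiv_eq_sum]
  refine Finset.sum_congr rfl fun j _ => ?_
  have e2 : pd i (co j ∘ τ) w = fderiv ℂ τ w (Pi.single i 1) j := by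
    unfold pd
    rw [((hasF_co_XA2 j (τ w)).comp w h1.differentiableAt.hasFDerivAt).fderiv]
    rfl
  rw [Pi.mul_apply, e2]
  rfl

theorem pd_rho_of_mem (hf : An (rho K z) f) (hi : i ∈ K) : pd i (f ∘ rho K) z = 0 := by
  have e : rho K (Pi.single i (1 : ℂ) : E n) = 0 := by
    funext j
    unfold rho
    split_ifs with hj
    · rfl
    · exact Pi.single_eq_of_ne (fun h : j = i => hj (h ▸ hi)) _
  unfold pd
  rw [fderiv_rho_XA2 hf, e, map_zero]

theorem pd_rho_of_notMem (hf : An (rho K z) f) (hi : i ∉ K) :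
    pd i (f ∘ rho K) z = pd i f (rho K z) := by
  have e : rho K (Pi.single i (1 : ℂ) : E n) = Pi.single i 1 :=
    rho_fix fun j hj => Pi.single_eq_of_ne (fun h : j = i => hi (h ▸ hj)) _
  unfold pd
  rw [fderiv_rho_XA2 hf, e]

theorem cf_cf (f : E n → ℂ) : cf (cf f) = f := by
  funext w
  simp [cf]

theorem pd_cf (i : Fin n) (f : E n → ℂ) : pd i (cf f) = cf (pd i f) := by
  funext w
  by_cases h : DifferentiableAt ℂ f (star w)
  · have h1 := h.hasFDerivAt.star_star
    rw [star_star] at h1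
    have h2 : HasFDerivAt (cf f) _ w := h1
    have e : star (Pi.single i (1 : ℂ) : E n) = Pi.single i 1 := by
      funext j
      by_cases hj : j = i
      · subst hj
        simp
      · simp [Pi.single_eq_of_ne hj]
    show fderiv ℂ (cf f) w (Pi.single i 1) = conj (fderiv ℂ f (star w) (Pi.single i 1))
    rw [h2.fderiv]
    show star (fderiv ℂ f (star w) (star (Pi.single i (1 : ℂ) : E n))) = _
    rw [e]
    rfl
  · have h2 : ¬ DifferentiableAt ℂ (cf f) w := fun h2 => h (by
      have h3 : DifferentiableAt ℂ (cf (cf f)) (star w) := h2.star_star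
      rwa [cf_cf] at h3)
    show fderiv ℂ (cf f) w (Pi.single i 1) = conj (fderiv ℂ f (star w) (Pi.single i 1))
    rw [fderiv_zero_of_not_differentiableAt h, fderiv_zero_of_not_differentiableAt h2]
    simp

theorem mon_exv {J : Finset ℕ} (c : ℕ → Fin n) (a : ℕ → ℕ) (w : E n) :
    mon (exv J c a) w = ∏ j ∈ J, w (c j) ^ a j := by
  unfold mon exv
  rw [← Finset.prod_fiberwise J c fun j => w (c j) ^ a j]
  refine Finset.prod_congr rfl fun i _ => ?_
  rw [← Finset.prod_pow_eq_pow_sum]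
  refine Finset.prod_congr rfl fun j hj => ?_
  rw [(Finset.mem_filter.1 hj).2]

theorem exv_of_mem {J : Finset ℕ} {c : ℕ → Fin n} (hc : InjOn c J) (a : ℕ → ℕ) {j : ℕ}
    (hj : j ∈ J) : exv J c a (c j) = a j := by
  unfold exv
  refine Finset.sum_eq_single_of_mem j (Finset.mem_filter.2 ⟨hj, rfl⟩) fun l hl hne => ?_
  exact absurd (hc (Finset.mem_filter.1 hl).1 hj (Finset.mem_filter.1 hl).2) hne

theorem exv_ne {J : Finset ℕ} {c : ℕ → Fin n} {a : ℕ → ℕ} (h : exv J c a i ≠ 0) :
    ∃ j ∈ J, c j = i ∧ a j ≠ 0 := by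
  obtain ⟨j, hj, h0⟩ := Finset.exists_ne_zero_of_sum_ne_zero h
  exact ⟨j, (Finset.mem_filter.1 hj).1, (Finset.mem_filter.1 hj).2, h0⟩

/-- the monomial is a unit times the monomial of the coordinates that vanish at `w` -/
theorem mon_cut (α : Fin n → ℕ) (w : E n) :
    mon (α - cut α w) w ≠ 0 ∧ mon α = mon (α - cut α w) * mon (cut α w) := by
  constructor
  · refine Finset.prod_ne_zero_iff.2 fun i _ => ?_
    by_cases hi : w i = 0
    · simp [cut, hi]
    · exact pow_ne_zero _ hi
  · funext v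
    rw [Pi.mul_apply]
    unfold mon
    rw [← Finset.prod_mul_distrib]
    refine Finset.prod_congr rfl fun i _ => ?_
    rw [← pow_add, Pi.sub_apply, Nat.sub_add_cancel]
    unfold cut
    split_ifs
    · exact le_rfl
    · exact Nat.zero_le _

theorem mon_zero : mon (0 : Fin n → ℕ) = 1 := by
  funext w
  simp [mon]

theorem cut_zero (w : E n) : cut (0 : Fin n → ℕ) w = 0 := by
  funext i
  simp [cut]

theorem cut_self {α : Fin n → ℕ} (h : ∀ i, α i ≠ 0 → z i = 0) : cut α z = α := by
  funext i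
  unfold cut
  split_ifs with hi
  · rfl
  · by_contra h0
    exact hi (h i fun h1 => h0 h1.symm)

theorem pd_rho_ev (hf : An z f) (h : f ∘ rho K =ᶠ[𝓝 z] f) (hz : ∀ i ∈ K, z i = 0) :
    (i ∈ K → pd i f =ᶠ[𝓝 z] 0) ∧ (i ∉ K → pd i f ∘ rho K =ᶠ[𝓝 z] pd i f) := by
  have h1 := pd_congr h i
  have h2 : ∀ᶠ w in 𝓝 z, An (rho K w) f := (tendsto_rho hz).eventually hf.eventually_analyticAt
  constructor
  · intro hi
    filter_upwards [h1, h2] with w e1 e2
    rw [← e1, pd_rho_of_mem e2 hi]
    rfl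
  · intro hi
    filter_upwards [h1, h2] with w e1 e2
    rw [← e1, pd_rho_of_notMem e2 hi]
    rfl

end Pool.Agent.HIR
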