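import Pool.Agent.P.MP_65ad7c_ag.XA3

open Set Filter Topology Asymptotics
open scoped ComplexConjugate

noncomputable section
namespace Pool.Agent.HIR

variable {n m m' : ℕ} {z : E n} {f g : E n → ℂ} {i j : Fin n} {K T : Finset (Fin n)}

theorem Ord.pd (h : Ord z (m + 1) f) (hf : An z f) (i : Fin n) : Ord z m (pd i f) := by
  obtain ⟨C, hC, hb⟩ := IsBigO.exists_nonneg h
  obtain ⟨r, hr, hball⟩ := Metric.eventually_nhds_iff.1 (hb.bound.and hf.eventually_analyticAt)
  refine IsBigO.of_bound (C * 2 ^ (m + 1)) ?_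
  filter_upwards [Metric.ball_mem_nhds z (half_pos hr)] with w hw
  rw [Metric.mem_ball, dist_eq_norm] at hw
  have key : ∀ ρ : ℝ, ‖w - z‖ < ρ → ρ < r / 2 → ‖HIR.pd i f w‖ ≤ C * 2 ^ (m + 1) * ρ ^ m := by
    intro ρ h1 h2
    have hρ : 0 < ρ := lt_of_le_of_lt (norm_nonneg _) h1
    have hn : ∀ t : ℂ, ‖t‖ ≤ ρ → ‖w + t • (Pi.single i 1 : E n) - z‖ ≤ 2 * ρ := by
      intro t ht
      have e : w + t • (Pi.single i 1 : E n) - z = (w - z) + t • (Pi.single i 1 : E n) := by abel
      rw [e]
      refine (norm_add_le _ _).trans ?_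
      rw [norm_smul, Pi.norm_single, norm_one]
      linarith
    have hder : ∀ t : ℂ, ‖t‖ ≤ ρ → HasDerivAt (fun t : ℂ => f (w + t • (Pi.single i 1 : E n)))
        (HIR.pd i f (w + t • (Pi.single i 1 : E n))) t := by
      intro t ht
      have ha := (hball (y := w + t • (Pi.single i 1 : E n)) (by
        rw [dist_eq_norm]; linarith [hn t ht])).2
      have hl : HasDerivAt (fun t : ℂ => w + t • (Pi.single i 1 : E n)) (Pi.single i 1 : E n) t := by
        simpa using ((hasDerivAt_id t).smul_const (Pi.single i 1 : E n)).const_add w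
      exact ha.differentiableAt.hasFDerivAt.comp_hasDerivAt t hl
    have hd : DiffContOnCl ℂ (fun t : ℂ => f (w + t • (Pi.single i 1 : E n))) (Metric.ball 0 ρ) := by
      refine DifferentiableOn.diffContOnCl fun t ht => ?_
      rw [closure_ball _ hρ.ne', Metric.mem_closedBall, dist_zero_right] at ht
      exact (hder t ht).differentiableAt.differentiableWithinAt
    have hc := Complex.norm_deriv_le_of_forall_mem_sphere_norm_le (C := C * (2 * ρ) ^ (m + 1)) hρ hd
      fun t ht => by
        have ht' : ‖t‖ ≤ ρ := by simpa using (Metric.sphere_subset_closedBall ht)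
        have hb' := (hball (y := w + t • (Pi.single i 1 : E n)) (by
          rw [dist_eq_norm]; linarith [hn t ht'])).1
        refine hb'.trans (mul_le_mul_of_nonneg_left ?_ hC)
        rw [norm_pow, norm_norm]
        exact pow_le_pow_left₀ (norm_nonneg _) (hn t ht') _
    rw [(hder 0 (by simpa using hρ.le)).deriv, zero_smul, add_zero] at hc
    refine hc.trans (le_of_eq ?_)
    field_simp
    ring
  have hlim : Tendsto (fun ρ : ℝ => C * 2 ^ (m + 1) * ρ ^ m) (𝓝[>] ‖w - z‖)
      (𝓝 (C * 2 ^ (m + 1) * ‖w - z‖ ^ m)) :=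
    (Continuous.tendsto (by fun_prop) _).mono_left nhdsWithin_le_nhds
  rw [norm_pow, norm_norm]
  refine ge_of_tendsto hlim ?_
  filter_upwards [Ioo_mem_nhdsGT hw] with ρ hρ using key ρ hρ.1 hρ.2

theorem mv_XA4 (hf : An z f) (φ : E n → E n) (hφ : ∀ w, ‖φ w - z‖ ≤ ‖w - z‖)
    (hK : ∀ w, ∀ i ∉ K, φ w i = w i) (h : ∀ i ∈ K, Ord z m (pd i f)) :
    Ord z (m + 1) (f - f ∘ φ) := by
  have hs : (fun x => ∑ i ∈ K, ‖pd i f x‖) =O[𝓝 z] fun w => ‖w - z‖ ^ m :=
    (IsBigO.sum fun i hi => IsBigO.norm_left (h i hi)).congr_left fun x => by simp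
  obtain ⟨C, hC, hb⟩ := IsBigO.exists_nonneg hs
  obtain ⟨r, hr, hball⟩ := Metric.eventually_nhds_iff.1 (hb.bound.and hf.eventually_analyticAt)
  refine IsBigO.of_bound (2 * C) ?_
  filter_upwards [Metric.ball_mem_nhds z hr] with w hw
  rw [Metric.mem_ball, dist_eq_norm] at hw
  have hn : ∀ t ∈ Icc (0 : ℝ) 1, ‖φ w + t • (w - φ w) - z‖ ≤ ‖w - z‖ := by
    intro t ht
    have e : φ w + t • (w - φ w) - z = (1 - t) • (φ w - z) + t • (w - z) := by module
    rw [e]
    refine (norm_add_le _ _).trans ?_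
    rw [norm_smul, norm_smul, Real.norm_of_nonneg (sub_nonneg.2 ht.2), Real.norm_of_nonneg ht.1]
    nlinarith [hφ w, ht.2]
  have hv : ‖w - φ w‖ ≤ 2 * ‖w - z‖ := by
    have e : w - φ w = (w - z) - (φ w - z) := by abel
    rw [e]
    linarith [norm_sub_le (w - z) (φ w - z), hφ w]
  have hmv := norm_image_sub_le_of_norm_deriv_le_segment_01'
    (f := fun t : ℝ => f (φ w + t • (w - φ w)))
    (f' := fun t : ℝ => fderiv ℂ f (φ w + t • (w - φ w)) (w - φ w))
    (C := 2 * C * ‖w - z‖ ^ (m + 1)) (fun t ht => by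
      have ha := (hball (y := φ w + t • (w - φ w)) (by
        rw [dist_eq_norm]; linarith [hn t ht])).2
      have hl : HasDerivAt (fun t : ℝ => φ w + t • (w - φ w)) (w - φ w) t := by
        simpa using ((hasDerivAt_id t).smul_const (w - φ w)).const_add (φ w)
      exact ((ha.differentiableAt.hasFDerivAt.restrictScalars ℝ).comp_hasDerivAt t
        hl).hasDerivWithinAt) (fun t ht => by
      have ht' : t ∈ Icc (0 : ℝ) 1 := ⟨ht.1, ht.2.le⟩
      have hb' := (hball (y := φ w + t • (w - φ w)) (by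
        rw [dist_eq_norm]; linarith [hn t ht'])).1
      rw [norm_pow, norm_norm, Real.norm_of_nonneg (Finset.sum_nonneg fun _ _ => norm_nonneg _)]
        at hb'
      rw [fderiv_eq_sum, ← Finset.sum_subset (Finset.subset_univ K) fun i _ hi => by
        simp [hK w i hi]]
      refine (norm_sum_le _ _).trans ?_
      calc ∑ i ∈ K, ‖(w - φ w) i * pd i f (φ w + t • (w - φ w))‖
          ≤ ∑ i ∈ K, 2 * ‖w - z‖ * ‖pd i f (φ w + t • (w - φ w))‖ := by
            refine Finset.sum_le_sum fun i _ => ?_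
            rw [norm_mul]
            exact mul_le_mul_of_nonneg_right ((norm_le_pi_norm _ i).trans hv) (norm_nonneg _)
        _ = 2 * ‖w - z‖ * ∑ i ∈ K, ‖pd i f (φ w + t • (w - φ w))‖ := by rw [Finset.mul_sum]
        _ ≤ 2 * ‖w - z‖ * (C * ‖w - z‖ ^ m) := by
            refine mul_le_mul_of_nonneg_left (hb'.trans (mul_le_mul_of_nonneg_left ?_ hC))
              (by positivity)
            exact pow_le_pow_left₀ (norm_nonneg _) (hn t ht') _
        _ = 2 * C * ‖w - z‖ ^ (m + 1) := by ring)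
  simpa using hmv

theorem ord_succ (hf : An z f) (h0 : f z = 0) (h : ∀ i, Ord z m (pd i f)) : Ord z (m + 1) f := by
  refine (mv_XA4 hf (fun _ => z) (K := Finset.univ) (fun w => by simp) (fun w i hi => by simp at hi)
    fun i _ => h i).congr (Eventually.of_forall fun w => ?_)
  simp [h0]

theorem ord_of_rho (hf : An z f) (hz : ∀ i ∈ K, z i = 0) (h0 : Ord z (m + 1) (f ∘ rho K))
    (h : ∀ i ∈ K, Ord z m (pd i f)) : Ord z (m + 1) f := by
  have h1 := mv_XA4 hf (rho K) (K := K) (fun w => ?_) (fun w i hi => by simp [rho, hi]) h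
  · simpa using h1.add h0
  · refine (pi_norm_le_iff_of_nonneg (norm_nonneg _)).2 fun i => ?_
    by_cases hi : i ∈ K
    · simp [rho, hi, hz i hi]
    · simpa [rho, hi] using norm_le_pi_norm (w - z) i

theorem not_ord_ev (hf : An z f) (h : ¬ Ord z m f) : ∀ᶠ w in 𝓝 z, ¬ Ord w m f := by
  induction m generalizing f with
  | zero => exact absurd (ord_zero hf.continuousAt) h
  | succ m ih =>
    by_cases h0 : f z = 0
    · have : ∃ i, ¬ Ord z m (pd i f) := by
        by_contra hc
        push Not at hc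
        exact h (ord_succ hf h0 hc)
      obtain ⟨i, hi⟩ := this
      filter_upwards [ih (an_pd hf i) hi, hf.eventually_analyticAt] with w h1 h2 h3
      exact h1 (h3.pd h2 i)
    · filter_upwards [hf.continuousAt.eventually_ne h0] with w h1 h2
      exact h1 h2.eq_zero

theorem zero_of_ord (hf : An z f) (h : ∀ m, Ord z m f) : f =ᶠ[𝓝 z] 0 := by
  obtain ⟨p, hp⟩ := hf
  have ht : Tendsto (fun y : E n => z + y) (𝓝 0) (𝓝 z) := by
    have : Continuous fun y : E n => z + y := by fun_prop
    simpa using this.tendsto 0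
  have key : ∀ k, ∀ y : E n, (p k fun _ => y) = 0 := by
    intro k
    induction k using Nat.strong_induction_on with
    | _ k ih =>
      refine IsBigO.continuousMultilinearMap_apply_eq_zero ?_
      have h1 := hp.isBigO_sub_partialSum_pow (k + 1)
      have h2 : (fun y : E n => f (z + y)) =O[𝓝 0] fun y => ‖y‖ ^ (k + 1) := by
        simpa [Function.comp_def] using IsBigO.comp_tendsto (h (k + 1)) ht
      refine (h2.sub h1).congr_left fun y => ?_
      rw [FormalMultilinearSeries.partialSum, Finset.sum_range_succ,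
        Finset.sum_eq_zero fun j hj => ih j (Finset.mem_range.1 hj) y]
      simp
  filter_upwards [hp.eventually_hasSum_sub] with w hw
  simp only [key] at hw
  exact hw.unique hasSum_zero

end Pool.Agent.HIR
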