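import Pool.Agent.P.MP_65ad7c_ag.XA4

open Set Filter Topology Asymptotics
open scoped ComplexConjugate

noncomputable section
namespace Pool.Agent.HIR

section gen
variable {T : Type} {l : Filter T} {H : (T → ℂ) → Prop} {L L' : Set (ℕ × (T → ℂ))}
  {A B C : Gr T} {m m' : ℕ} {f g : T → ℂ}

theorem Le.refl (A : Gr T) : Le A A := by
  exact fun _ _ h => h

theorem Le.trans (h : Le A B) (h' : Le B C) : Le A C := by
  exact fun m f hf => h' m f (h m f hf)

theorem Le.antisymm (h : Le A B) (h' : Le B A) : A = B := by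
  funext m f
  exact propext ⟨h m f, h' m f⟩

theorem In.rees (hH : Ring' l H) (hL : ∀ q ∈ L, H q.2) : Rees l H (In l H L) := by
  refine ⟨?_, fun f h => In.hol h, fun m f h => In.anti h, fun m m' f g h h' => In.mul h h',
    fun m f g h h' => In.add h h', fun m => In.zero, fun m f g h e => In.congr h e⟩
  intro m f h
  induction h with
  | gen h => exact hL _ h
  | hol h => exact h
  | anti _ ih => exact ih
  | mul _ _ ih ih' => exact hH.mul _ _ ih ih'
  | add _ _ ih ih' => exact hH.add _ _ ih ih'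
  | zero => exact hH.const 0
  | congr _ e ih => exact hH.congr _ _ ih e

theorem In.le (hA : Rees l H A) (h : ∀ q ∈ L, A q.1 q.2) : Le (In l H L) A := by
  intro m f hf
  induction hf with
  | gen hq => exact h _ hq
  | hol hq => exact hA.hol _ hq
  | anti _ ih => exact hA.anti _ _ ih
  | mul _ _ ih ih' => exact hA.mul _ _ _ _ ih ih'
  | add _ _ ih ih' => exact hA.add _ _ _ ih ih'
  | zero => exact hA.zero _
  | congr _ e ih => exact hA.congr _ _ _ ih e

theorem In.mono (h : L ⊆ L') : Le (In l H L) (In l H L') := by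
  intro m f hf
  induction hf with
  | gen hq => exact In.gen (h hq)
  | hol hq => exact In.hol hq
  | anti _ ih => exact In.anti ih
  | mul _ _ ih ih' => exact In.mul ih ih'
  | add _ _ ih ih' => exact In.add ih ih'
  | zero => exact In.zero
  | congr _ e ih => exact In.congr ih e

theorem In.els (hA : Rees l H A) : In l H (els A) = A := by
  exact Le.antisymm (In.le hA fun q hq => hq) fun m f hf => In.gen hf

/-- two sets of generators that agree as germs -/
theorem In.congr_gen (h : ∀ q ∈ L, ∃ g, (q.1, g) ∈ L' ∧ g =ᶠ[l] q.2) :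
    Le (In l H L) (In l H L') := by
  intro m f hf
  induction hf with
  | gen hq =>
    obtain ⟨g, hg, e⟩ := h _ hq
    exact In.congr (In.gen hg) e
  | hol hq => exact In.hol hq
  | anti _ ih => exact In.anti ih
  | mul _ _ ih ih' => exact In.mul ih ih'
  | add _ _ ih ih' => exact In.add ih ih'
  | zero => exact In.zero
  | congr _ e ih => exact In.congr ih e

theorem In.comp {T' : Type} {l' : Filter T'} {H' : (T' → ℂ) → Prop} {B' : Gr T'} {φ : T' → T}
    (hφ : Tendsto φ l' l) (hH : ∀ f, H f → H' (f ∘ φ)) (hB : Rees l' H' B')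
    (hL : ∀ q ∈ L, B' q.1 (q.2 ∘ φ)) (h : In l H L m f) : B' m (f ∘ φ) := by
  induction h with
  | gen hq => exact hL _ hq
  | hol hq => exact hB.hol _ (hH _ hq)
  | anti _ ih => exact hB.anti _ _ ih
  | mul _ _ ih ih' => exact hB.mul _ _ _ _ ih ih'
  | add _ _ ih ih' => exact hB.add _ _ _ ih ih'
  | zero => exact hB.zero _
  | congr _ e ih => exact hB.congr _ _ _ ih (hφ.eventually e)

theorem Rees.anti' (hA : Rees l H A) (h : A m f) (hm : m' ≤ m) : A m' f := by
  induction hm with
  | refl => exact h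
  | step _ ih => exact ih (hA.anti _ _ h)

theorem Rees.hol_mul (hA : Rees l H A) (hg : H g) (h : A m f) : A m (g * f) := by
  have := hA.mul _ _ _ _ (hA.hol _ hg) h
  rwa [Nat.zero_add] at this

theorem Rees.pow (hA : Rees l H A) (hH : Ring' l H) (h : A m f) (t : ℕ) : A (t * m) (f ^ t) := by
  induction t with
  | zero =>
    rw [Nat.zero_mul, pow_zero]
    exact hA.hol _ (hH.const 1)
  | succ t ih =>
    rw [Nat.succ_mul, pow_succ]
    exact hA.mul _ _ _ _ ih h

theorem Rees.sub (hA : Rees l H A) (hH : Ring' l H) (h : A m f) (h' : A m g) : A m (f - g) := by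
  have h2 := hA.add _ _ _ h (hA.hol_mul (hH.const (-1)) h')
  refine hA.congr _ _ _ h2 (Eventually.of_forall fun x => ?_)
  simp [sub_eq_add_neg]

theorem Rees.sum (hA : Rees l H A) {ι : Type} (s : Finset ι) {F : ι → T → ℂ}
    (h : ∀ k ∈ s, A m (F k)) : A m (∑ k ∈ s, F k) := by
  classical
  induction s using Finset.induction_on with
  | empty => rw [Finset.sum_empty]; exact hA.zero m
  | insert a s ha ih =>
    rw [Finset.sum_insert ha]
    exact hA.add _ _ _ (h a (Finset.mem_insert_self a s))
      (ih fun k hk => h k (Finset.mem_insert_of_mem hk))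

theorem Rees.top (hH : Ring' l H) : Rees l H fun _ f => H f := by
  exact ⟨fun _ _ h => h, fun _ h => h, fun _ _ h => h, fun _ _ _ _ h h' => hH.mul _ _ h h',
    fun _ _ _ h h' => hH.add _ _ h h', fun _ => hH.const 0, fun _ _ _ h e => hH.congr _ _ h e⟩

/-- an algebra that contains `1` in weight one is everything -/
theorem Rees.eq_top (hA : Rees l H A) (hH : Ring' l H) (h : A 1 1) : A = fun _ f => H f := by
  funext m f
  refine propext ⟨hA.an m f, fun hf => ?_⟩
  have h1 := hA.pow hH h m
  rw [Nat.mul_one, one_pow] at h1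
  have h2 := hA.hol_mul hf h1
  rwa [mul_one] at h2

end gen

variable {n m : ℕ} {z : E n} {L : Set (ℕ × (E n → ℂ))} {A B : Gr (E n)} {f g : E n → ℂ}
  {i : Fin n}

theorem lr_In (hL : ∀ q ∈ L, An z q.2) : LR z (LIn z L) := by
  exact In.rees (ring_an z) hL

theorem lr_top (z : E n) : LR z (top z) := by
  exact Rees.top (ring_an z)

theorem le_top' (hA : LR z A) : Le A (top z) := by
  exact fun m f h => hA.an m f h

theorem Rees.unit (hA : LR z A) (hg : An z g) (h0 : g z ≠ 0) (h : A m (g * f)) : A m f := by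
  have h1 := hA.hol_mul (hg.inv h0) h
  refine hA.congr _ _ _ h1 ?_
  filter_upwards [hg.continuousAt.eventually_ne h0] with w hw
  simp only [Pi.mul_apply, Pi.inv_apply]
  rw [← mul_assoc, inv_mul_cancel₀ hw, one_mul]

theorem Rees.spn (hA : LR z A) {F : Finset (E n → ℂ)} (hF : ∀ f ∈ F, A m f) (h : Spn z F g) :
    A m g := by
  obtain ⟨q, hq, e⟩ := h
  exact hA.congr _ _ _ (hA.sum F fun f hf => hA.hol_mul (hq f hf) (hF f hf)) e.symm

theorem LSg.mono (h : LSg z B) (hle : Le A B) : LSg z A := by
  exact fun m f hf => h m f (hle m f hf)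

theorem not_lsg_one (h : A 1 f) (h0 : f z ≠ 0) : ¬ LSg z A := by
  exact fun hs => h0 (Ord.eq_zero (m := 0) (hs 1 f h))

theorem not_lsg_top (z : E n) : ¬ LSg z (top z) := by
  exact not_lsg_one (A := top z) (f := fun _ => 1) analyticAt_const one_ne_zero

theorem LSg.zero {K : Finset (Fin n)} (h : LSg z A) (hK : PK A K) : ∀ i ∈ K, z i = 0 := by
  exact fun i hi => Ord.eq_zero (m := 0) (f := co i) (h 1 _ (hK.co i hi))

theorem lsg_In (hL : ∀ q ∈ L, An z q.2) : LSg z (LIn z L) ↔ ∀ q ∈ L, Ord z q.1 q.2 := by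
  refine ⟨fun h q hq => h q.1 q.2 (In.gen hq), fun h m f hf => ?_⟩
  induction hf with
  | gen hq => exact h _ hq
  | hol hq => exact ord_zero hq.continuousAt
  | anti _ ih => exact ih.mono (Nat.le_succ _)
  | mul _ _ ih ih' => exact ih.mul ih'
  | add _ _ ih ih' => exact ih.add ih'
  | zero => exact ord_zero_fun z _
  | congr _ e ih => exact ih.congr e

theorem gen_top (z : E n) : Gen (fun w => top w) 1 z {(1, 1)} := by
  have han : ∀ w : E n, ∀ q ∈ ({(1, 1)} : Set (ℕ × (E n → ℂ))), An w q.2 := by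
    intro w q hq
    rw [mem_singleton_iff.1 hq]
    exact analyticAt_const
  refine ⟨finite_singleton _, ?_, han z, Eventually.of_forall fun w => ?_⟩
  · intro q hq
    rw [mem_singleton_iff.1 hq]
    exact ⟨le_rfl, le_rfl⟩
  · exact (Rees.eq_top (lr_In (han w)) (ring_an w) (In.gen rfl)).symm

end Pool.Agent.HIR
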