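import Pool.Agent.P.MP_65ad7c_ag.XB1

open Set Filter Topology Asymptotics
open scoped ComplexConjugate

noncomputable section
namespace Pool.Agent.HIR

variable {n m : ℕ} {z : E n} {L : Set (ℕ × (E n → ℂ))} {A B : Gr (E n)} {f g : E n → ℂ}
  {i : Fin n}

theorem der_XB2 (hB : LR z B) (hle : ∀ q ∈ L, B q.1 q.2)
    (hd : ∀ m f, (m + 1, f) ∈ L → B m (pd i f)) (hL : ∀ q ∈ L, An z q.2) (h : LIn z L m f) :
    B (m - 1) (pd i f) := by
  have hB' : Le (LIn z L) B := In.le hB hle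
  induction h with
  | @gen m f h =>
    rcases m with _ | m
    · exact hB.hol _ (an_pd (hL _ h) i)
    · exact hd m f h
  | hol h => exact hB.hol _ (an_pd h i)
  | anti _ ih => exact hB.anti' ih (by omega)
  | @mul m m' f g hf hg ihf ihg =>
    have h1 := hB' _ _ hf
    have h2 := hB' _ _ hg
    refine hB.congr _ _ _ (hB.add _ _ _ ?_ ?_) (pd_mul (hB.an _ _ h1) (hB.an _ _ h2) i).symm
    · exact hB.anti' (hB.mul _ _ _ _ ihf h2) (by omega)
    · exact hB.anti' (hB.mul _ _ _ _ h1 ihg) (by omega)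
  | @add m f g hf hg ihf ihg =>
    exact hB.congr _ _ _ (hB.add _ _ _ ihf ihg)
      (pd_add (hB.an _ _ (hB' _ _ hf)) (hB.an _ _ (hB' _ _ hg)) i).symm
  | zero =>
    have e : pd i (0 : E n → ℂ) = 0 := pd_const i 0
    rw [e]
    exact hB.zero _
  | congr _ e ih => exact hB.congr _ _ _ ih (pd_congr e i)

/-- derivatives of the elements of a generated algebra -/
theorem In.der (hL : ∀ q ∈ L, An z q.2) (hB : LR z B) (hle : ∀ q ∈ L, B q.1 q.2)
    (hd : ∀ m f, (m + 1, f) ∈ L → B m (pd i f)) (h : LIn z L (m + 1) f) : B m (pd i f) := by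
  exact der_XB2 hB hle hd hL h

theorem In.dif (hL : ∀ q ∈ L, An z q.2) (hd : ∀ m f, (m + 1, f) ∈ L → LIn z L m (pd i f)) :
    Dif i (LIn z L) := by
  exact fun m f h => In.der hL (lr_In hL) (fun q hq => In.gen hq) hd h

theorem Dg.an (hL : ∀ q ∈ L, An z q.2) (h : Dg L m f) : An z f := by
  induction h with
  | base h => exact hL _ h
  | der i _ ih => exact an_pd ih i

theorem wt_XB2 {μ : ℕ} (hL : ∀ q ∈ L, q.1 ≤ μ) (h : Dg L m f) : m ≤ μ := by
  induction h with
  | base h => exact hL _ h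
  | der i _ ih => omega

theorem Dg.finite (hL : L.Finite) : (els (Dg L)).Finite := by
  obtain ⟨μ, hμ⟩ := (hL.image Prod.fst).bddAbove
  have hw : ∀ q ∈ L, q.1 ≤ μ := fun q hq => hμ ⟨q, hq, rfl⟩
  have key : ∀ k m, μ < m + k → {f | Dg L m f}.Finite := by
    intro k
    induction k with
    | zero =>
      intro m hm
      refine Set.finite_empty.subset fun f hf => ?_
      have := wt_XB2 hw hf
      omega
    | succ k ih =>
      intro m hm
      refine ((hL.image Prod.snd).union (Set.finite_iUnion fun i : Fin n =>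
        (ih (m + 1) (by omega)).image (pd i))).subset fun f hf => ?_
      have hf' : Dg L m f := hf
      cases hf' with
      | base h => exact Or.inl ⟨_, h, rfl⟩
      | der i h => exact Or.inr (Set.mem_iUnion.2 ⟨i, _, h, rfl⟩)
  refine ((Set.finite_Iic μ).biUnion fun m _ =>
    (Set.finite_singleton m).prod (key (μ + 1) m (by omega))).subset fun q hq => ?_
  exact Set.mem_biUnion (wt_XB2 hw hq) ⟨rfl, hq⟩

theorem Dg.wt {μ : ℕ} (hL : ∀ q ∈ L, q.1 ≤ μ) (h : Dg L m f) : m ≤ μ := by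
  exact wt_XB2 hL h

theorem lr_DIn (hL : ∀ q ∈ L, An z q.2) : LR z (DIn z L) := by
  exact lr_In fun q hq => Dg.an hL hq

theorem DIn.base (h : (m, f) ∈ L) : DIn z L m f := by
  exact In.gen (Dg.base h)

theorem DIn.dif (hL : ∀ q ∈ L, An z q.2) (i : Fin n) : Dif i (DIn z L) := by
  exact In.dif (fun q hq => Dg.an hL hq) fun m f h => In.gen (Dg.der i h)

theorem DIn.le (hB : LR z B) (hd : ∀ i, Dif i B) (h : ∀ q ∈ L, B q.1 q.2) : Le (DIn z L) B := by
  have key : ∀ m f, Dg L m f → B m f := by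
    intro m f hf
    induction hf with
    | base hq => exact h _ hq
    | der i _ ih => exact hd i _ _ ih
  exact In.le hB fun q hq => key _ _ hq

theorem lsg_DIn (hL : ∀ q ∈ L, An z q.2) : LSg z (DIn z L) ↔ ∀ q ∈ L, Ord z q.1 q.2 := by
  refine ⟨fun h q hq => h _ _ (DIn.base hq), fun h => ?_⟩
  have key : ∀ m f, Dg L m f → Ord z m f := by
    intro m f hf
    induction hf with
    | base hq => exact h _ hq
    | der i hq ih => exact ih.pd (Dg.an hL hq) i
  exact (lsg_In fun q hq => Dg.an hL hq).2 fun q hq => key _ _ hq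

theorem dif_top (z : E n) (i : Fin n) : Dif i (top z) := by
  exact fun m f h => an_pd h i

/-- a differential algebra that is not singular is everything -/
theorem top_of_not_ord (hB : LR z B) (hd : ∀ i, Dif i B) (hf : B m f) (h : ¬ Ord z m f) :
    B = top z := by
  induction m generalizing f with
  | zero => exact absurd (ord_zero (hB.an _ _ hf).continuousAt) h
  | succ m ih =>
    by_cases h0 : f z = 0
    · obtain ⟨i, hi⟩ : ∃ i, ¬ Ord z m (pd i f) := by
        by_contra hc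
        exact h (ord_succ (hB.an _ _ hf) h0 fun i => by_contra fun hi => hc ⟨i, hi⟩)
      exact ih (hd i _ _ hf) hi
    · have h1 : B (m + 1) 1 := Rees.unit hB (hB.an _ _ hf) h0 (by rwa [mul_one])
      exact hB.eq_top (ring_an z) (hB.anti' h1 (by omega))

variable {K : Finset (Fin n)} {b ν : ℕ} {α : Fin n → ℕ}

theorem an_XB2 (hA : LR z A) : ∀ q ∈ els A ∪ {ν} ×ˢ RR z A K b α, An z q.2 := by
  rintro q (hq | hq)
  · exact hA.an _ _ hq
  · exact hq.2.1

theorem lr_Cmp (hA : LR z A) : LR z (Cmp z A K b α ν) := by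
  exact lr_DIn (an_XB2 hA)

theorem dif_Cmp (hA : LR z A) (i : Fin n) : Dif i (Cmp z A K b α ν) := by
  exact DIn.dif (an_XB2 hA) i

theorem le_Cmp : Le A (Cmp z A K b α ν) := by
  exact fun m f h => DIn.base (Or.inl h)

theorem rr_Cmp (h : g ∈ RR z A K b α) : Cmp z A K b α ν ν g := by
  exact DIn.base (Or.inr ⟨rfl, h⟩)

theorem Cmp_le (hB : LR z B) (hd : ∀ i, Dif i B) (h : Le A B)
    (h' : ∀ g ∈ RR z A K b α, B ν g) : Le (Cmp z A K b α ν) B := by
  refine DIn.le hB hd ?_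
  rintro ⟨m, f⟩ (hq | ⟨hq, hq'⟩)
  · exact h _ _ hq
  · obtain rfl : m = ν := hq
    exact h' _ hq'

theorem ResLE.mono {ν' : ℕ} (h : ResLE z A K b α ν) (hν : ν ≤ ν') : ResLE z A K b α ν' := by
  obtain ⟨g, hg, ho⟩ := h
  exact ⟨g, hg, fun h' => ho (h'.mono (by omega))⟩

/-- the residual order has dropped where the companion algebra is not singular -/
theorem res_drop (hA : LR z A) (hs : LSg z A) (hB : Le B (Cmp z A K b α (ν + 1)))
    (h : ¬ LSg z B) : ResLE z A K b α ν := by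
  by_contra hc
  refine h (LSg.mono ((lsg_DIn (an_XB2 hA)).2 ?_) hB)
  rintro ⟨m, f⟩ (hq | ⟨hq, hq'⟩)
  · exact hs _ _ hq
  · obtain rfl : m = ν + 1 := hq
    exact by_contra fun ho => hc ⟨f, hq', ho⟩

theorem one_XB2 (hz : ∀ i ∈ K, z i = 0) (hg : An z g) :
    (fun w => ‖g (rho K w)‖) =O[𝓝 z] fun _ => (1 : ℝ) :=
  (hg.continuousAt.tendsto.comp (tendsto_rho hz)).norm.isBigO_one ℝ

theorem sum_XB2 (hz : ∀ i ∈ K, z i = 0) {s : List (E n → ℂ)} (hs : ∀ g ∈ s, An z g) :
    (fun w => (s.map fun g => ‖g (rho K w)‖).sum) =O[𝓝 z] fun _ => (1 : ℝ) := by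
  induction s with
  | nil =>
    simp only [List.map_nil, List.sum_nil]
    exact isBigO_zero _ _
  | cons g s ih =>
    simp only [List.map_cons, List.sum_cons]
    exact (one_XB2 hz (hs g (by simp))).add (ih fun g hg => hs g (by simp [hg]))

theorem nn_XB2 (K : Finset (Fin n)) (s : List (E n → ℂ)) (w : E n) :
    0 ≤ (s.map fun g => ‖g (rho K w)‖).sum :=
  List.sum_nonneg fun x hx => by
    obtain ⟨g, -, rfl⟩ := List.mem_map.1 hx
    exact norm_nonneg _

theorem app_XB2 (z : E n) (K : Finset (Fin n)) (α : Fin n → ℕ) (s t : List (E n → ℂ)) (m : ℕ) :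
    ((fun w => (‖mon α w‖ * (s.map fun g => ‖g (rho K w)‖).sum) ^ m) =O[𝓝 z]
      fun w => (‖mon α w‖ * ((s ++ t).map fun g => ‖g (rho K w)‖).sum) ^ m) ∧
    ((fun w => (‖mon α w‖ * (t.map fun g => ‖g (rho K w)‖).sum) ^ m) =O[𝓝 z]
      fun w => (‖mon α w‖ * ((s ++ t).map fun g => ‖g (rho K w)‖).sum) ^ m) := by
  constructor <;>
  · refine IsBigO.pow (isBigO_of_le _ fun w => ?_) m
    have h1 := nn_XB2 K s w
    have h2 := nn_XB2 K t w
    have h3 := norm_nonneg (mon α w)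
    rw [List.map_append, List.sum_append, Real.norm_of_nonneg (by positivity),
      Real.norm_of_nonneg (by positivity)]
    exact mul_le_mul_of_nonneg_left (by linarith) h3

theorem div_of_dom (hb : 0 < b) (hB : LR z B) (hz : ∀ i ∈ K, z i = 0)
    (h : Dom z A B K b α ν) : Div z A K b α := by
  intro c hc
  obtain ⟨s, hs, hO⟩ := h b c hc
  have h1 := (isBigO_of_pow hb hO).trans
    ((isBigO_refl (fun w => ‖mon α w‖) (𝓝 z)).mul (sum_XB2 hz fun g hg => hB.an _ _ (hs g hg)))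
  simp only [mul_one] at h1
  exact isBigO_norm_norm.1 h1

/-- domination can be checked on generators -/
theorem dom_In (hb : 0 < b) (hB : LR z B) (hz : ∀ i ∈ K, z i = 0)
    (hL : ∀ q ∈ L, Dm z B K b α ν q.1 q.2) : Dom z (LIn z L) B K b α ν := by
  intro m c h
  induction h with
  | gen h => exact hL _ h
  | hol h =>
    refine ⟨[], by simp, ?_⟩
    simpa only [pow_zero, one_pow] using (one_XB2 hz h).pow b
  | @anti m f _ ih =>
    obtain ⟨s, hs, hO⟩ := ih
    refine ⟨s, hs, hO.trans ?_⟩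
    have h1 : (fun w => ‖mon α w‖) =O[𝓝 z] fun _ => (1 : ℝ) :=
      (an_mon α z).continuousAt.tendsto.norm.isBigO_one ℝ
    have h2 := (isBigO_refl (fun w => (‖mon α w‖ * (s.map fun g => ‖g (rho K w)‖).sum) ^ m)
      (𝓝 z)).mul (h1.mul (sum_XB2 hz fun g hg => hB.an _ _ (hs g hg)))
    simpa only [mul_one, pow_succ] using h2
  | @mul m m' f g _ _ ihf ihg =>
    obtain ⟨s, hs, hO⟩ := ihf
    obtain ⟨t, ht, hO'⟩ := ihg
    refine ⟨s ++ t, fun g hg => (List.mem_append.1 hg).elim (hs g) (ht g), ?_⟩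
    have h1 := (hO.trans (app_XB2 z K α s t m).1).mul (hO'.trans (app_XB2 z K α s t m').2)
    simpa only [Pi.mul_apply, norm_mul, mul_pow _ _ b, pow_add] using h1
  | @add m f g _ _ ihf ihg =>
    obtain ⟨s, hs, hO⟩ := ihf
    obtain ⟨t, ht, hO'⟩ := ihg
    refine ⟨s ++ t, fun g hg => (List.mem_append.1 hg).elim (hs g) (ht g), ?_⟩
    refine IsBigO.trans (IsBigO.of_bound (2 ^ (b - 1)) (Eventually.of_forall fun w => ?_))
      ((hO.trans (app_XB2 z K α s t m).1).add (hO'.trans (app_XB2 z K α s t m).2))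
    rw [Real.norm_of_nonneg (by positivity), Real.norm_of_nonneg (by positivity), Pi.add_apply]
    exact (pow_le_pow_left₀ (norm_nonneg _) (norm_add_le _ _) b).trans
      (add_pow_le (norm_nonneg _) (norm_nonneg _) b)
  | zero =>
    refine ⟨[], by simp, ?_⟩
    simp only [Pi.zero_apply, norm_zero, zero_pow hb.ne']
    exact isBigO_zero _ _
  | congr _ e ih =>
    obtain ⟨s, hs, hO⟩ := ih
    refine ⟨s, hs, hO.congr' ?_ EventuallyEq.rfl⟩
    filter_upwards [(tendsto_rho hz).eventually e] with w hw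
    rw [hw]

theorem step_XB2 (hz : ∀ i ∈ K, z i = 0) (hg : An z g) (h0 : g z = 0)
    (hr : g ∘ rho K =ᶠ[𝓝 z] g) (h : ¬ Ord z (m + 1) g) : ∃ l, l ∉ K ∧ ¬ Ord z m (pd l g) := by
  obtain ⟨l, hl⟩ : ∃ l, ¬ Ord z m (pd l g) := by
    by_contra hc
    exact h (ord_succ hg h0 fun i => by_contra fun hi => hc ⟨i, hi⟩)
  exact ⟨l, fun hK => hl ((ord_zero_fun z m).congr ((pd_rho_ev hg hr hz).1 hK).symm), hl⟩

/-- one more coordinate of maximal contact -/
theorem extra_co (hB : LR z B) (hd : ∀ i, Dif i B) (hs : LSg z B) (hz : ∀ i ∈ K, z i = 0)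
    (hg : B (m + 1) g) (hr : g ∘ rho K =ᶠ[𝓝 z] g) (h : ¬ Ord z (m + 2) g) :
    ∃ u l, B 1 u ∧ l ∉ K ∧ pd l u z ≠ 0 := by
  induction m generalizing g with
  | zero =>
    obtain ⟨l, hl, ho⟩ := step_XB2 hz (hB.an _ _ hg) (hs _ _ hg).eq_zero hr h
    exact ⟨g, l, hg, hl, fun h0 => ho (ord_one (an_pd (hB.an _ _ hg) l) h0)⟩
  | succ m ih =>
    obtain ⟨l, hl, ho⟩ := step_XB2 hz (hB.an _ _ hg) (hs _ _ hg).eq_zero hr h
    exact ih (hd l _ _ hg) ((pd_rho_ev (hB.an _ _ hg) hr hz).2 hl) ho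

end Pool.Agent.HIR
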