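import Pool.Agent.P.MP_65ad7c_ag.XB5

open Set Filter Topology Asymptotics
open scoped ComplexConjugate

noncomputable section
namespace Pool.Agent.HIR

variable {n m μ b ν : ℕ} {z : E n} {L : Set (ℕ × (E n → ℂ))} {A : E n → Gr (E n)}
  {K : Finset (Fin n)} {α : Fin n → ℕ}

open Classical in
theorem spn_image_XB6 {F : Finset (E n → ℂ)} {γ q : (E n → ℂ) → E n → ℂ} {c : E n → ℂ}
    (hq : ∀ f ∈ F, An z (q f)) (hc : c =ᶠ[𝓝 z] ∑ f ∈ F, q f * γ f) : Spn z (F.image γ) c := by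
  refine ⟨fun g => ∑ f ∈ F with γ f = g, q f, fun g _ =>
    Finset.analyticAt_sum _ fun f hf => hq f (Finset.mem_filter.1 hf).1, ?_⟩
  have e : ∑ g ∈ F.image γ, (∑ f ∈ F with γ f = g, q f) * g = ∑ f ∈ F, q f * γ f := by
    rw [← Finset.sum_fiberwise_of_maps_to (s := F) (t := F.image γ) (g := γ)
      fun f hf => Finset.mem_image_of_mem γ hf]
    refine Finset.sum_congr rfl fun g _ => ?_
    rw [Finset.sum_mul]
    exact Finset.sum_congr rfl fun f hf => by rw [(Finset.mem_filter.1 hf).2]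
  rw [e]
  exact hc

theorem step_XB6 {F : Finset (E n → ℂ)} {γ q : (E n → ℂ) → E n → ℂ} {c : E n → ℂ}
    (hz : ∀ i ∈ K, z i = 0) (hc : c =ᶠ[𝓝 z] ∑ f ∈ F, q f * f)
    (hγ : ∀ f ∈ F, f ∘ rho K =ᶠ[𝓝 z] mon α * γ f) :
    c ∘ rho K =ᶠ[𝓝 z] mon α * ∑ f ∈ F, (q f ∘ rho K) * γ f := by
  filter_upwards [(tendsto_rho hz).eventually hc, (F.eventually_all).2 hγ] with w h1 h2
  simp only [Function.comp_apply, Pi.mul_apply, Finset.sum_apply] at h1 h2 ⊢
  rw [h1, Finset.mul_sum]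
  refine Finset.sum_congr rfl fun f hf => ?_
  rw [h2 f hf]
  ring

/-- generators of the residual ideal -/
theorem Gen.rr_gen (h : Gen A μ z L) (hK : PK (A z) K) (hz : ∀ i ∈ K, z i = 0) (hα : Sup z K α)
    (hd : Div z (A z) K b α) : ∃ G : Finset (E n → ℂ), (∀ g ∈ G, g ∈ RR z (A z) K b α) ∧
      (∀ c, A z b c → ∃ g, Spn z G g ∧ c ∘ rho K =ᶠ[𝓝 z] mon α * g) ∧
      ∀ᶠ w in 𝓝 z, (∀ i ∈ K, w i = 0) →
        (∀ g ∈ G, mon (α - cut α w) * g ∈ RR w (A w) K b (cut α w)) ∧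
        ∀ g ∈ RR w (A w) K b (cut α w), Spn w G g := by
  classical
  obtain ⟨F, hF, hev⟩ := h.fgb b
  obtain ⟨hz1, hz2⟩ := hev.self_of_nhds
  have hαK : ∀ i, α i ≠ 0 → i ∉ K := fun i hi => (hα i hi).1
  have ex : ∀ f ∈ F, ∃ g, An z g ∧ g ∘ rho K = g ∧ f ∘ rho K =ᶠ[𝓝 z] mon α * g := by
    intro f hf
    obtain ⟨q, hq, e⟩ := div_mon ((hF f hf).rho hz) (fun i hi => (hα i hi).2) (hd f (hz1 f hf))
    refine ⟨q ∘ rho K, hq.rho hz, funext fun w => ?_, ?_⟩
    · simp only [Function.comp_apply, rho_rho]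
    · filter_upwards [(tendsto_rho hz).eventually e] with w hw
      simpa only [Function.comp_apply, Pi.mul_apply, rho_rho, mon_rho hαK] using hw
  choose! γ h1 h2 h3 using ex
  refine ⟨F.image γ, fun g hg => ?_, fun c hc => ?_, ?_⟩
  · obtain ⟨f, hf, rfl⟩ := Finset.mem_image.1 hg
    exact ⟨h1 f hf, (h2 f hf).eventuallyEq,
      h.rees.congr _ _ _ (coef h.rees hK hz (hz1 f hf)) (h3 f hf)⟩
  · obtain ⟨q, hq, e⟩ := hz2 c hc
    exact ⟨_, spn_image_XB6 (fun f hf => (hq f hf).rho hz) EventuallyEq.rfl, step_XB6 hz e h3⟩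
  · filter_upwards [hev, h.ev, h.pk_ev hK,
      (F.eventually_all).2 fun f hf => (h1 f hf).eventually_analyticAt,
      (F.eventually_all).2 fun f hf => (h3 f hf).eventuallyEq_nhds] with w hw hg hp ha he hwK
    have hc1 : ∀ i, (α - cut α w) i ≠ 0 → i ∉ K := fun i hi => hαK i fun h0 => hi (by simp [h0])
    have hc2 : ∀ i, cut α w i ≠ 0 → i ∉ K := fun i hi => hαK i fun h0 => hi (by simp [cut, h0])
    have hm := (mon_cut α w).2
    refine ⟨fun g hg' => ?_, fun g hg' => ?_⟩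
    · obtain ⟨f, hf, rfl⟩ := Finset.mem_image.1 hg'
      refine ⟨(an_mon _ w).mul (ha f hf), Eventually.of_forall fun y => ?_, ?_⟩
      · have h4 := congrFun (h2 f hf) y
        simp only [Function.comp_apply, Pi.mul_apply, mon_rho hc1] at h4 ⊢
        rw [h4]
      · refine hg.rees.congr _ _ _ (coef hg.rees hp hwK (hw.1 f hf)) ?_
        rw [← mul_assoc, mul_comm (mon (cut α w)), ← hm]
        exact he f hf
    · obtain ⟨q, hq, e⟩ := hw.2 _ hg'.2.2
      have e1 := step_XB6 hwK e he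
      have hq' : ∀ f ∈ F, An w (mon (α - cut α w) * (q f ∘ rho K)) := fun f hf =>
        (an_mon _ w).mul ((hq f hf).rho hwK)
      refine spn_image_XB6 hq' (canc_mon (α := cut α w) hg'.1
        (Finset.analyticAt_sum _ fun f hf => (hq' f hf).mul (ha f hf)) ?_)
      filter_upwards [e1, hg'.2.1] with y y1 y2
      have y3 := congrFun hm y
      simp only [Function.comp_apply, Pi.mul_apply, Finset.sum_apply, mon_rho hc2] at y1 y2 y3 ⊢
      rw [← y2, y1, y3, Finset.mul_sum, Finset.mul_sum]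
      exact Finset.sum_congr rfl fun f _ => by ring

/-- the companion algebras form a finitely generated family -/
theorem Gen.cpf (h : Gen A μ z L) (hK : PK (A z) K) (hz : ∀ i ∈ K, z i = 0) (hα : Sup z K α)
    (hd : Div z (A z) K b α) (hν : 1 ≤ ν) : LFg (CpF A K b α ν) (max μ ν) z := by
  obtain ⟨G, hG, -, hev⟩ := h.rr_gen hK hz hα hd
  let L' : Set (ℕ × (E n → ℂ)) := L ∪ {ν} ×ˢ (G : Set (E n → ℂ))
  have hfin : L'.Finite := h.fin.union ((finite_singleton ν).prod G.finite_toSet)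
  have han : ∀ w, (∀ q ∈ L, An w q.2) → (∀ g ∈ G, An w g) → ∀ q ∈ L', An w q.2 := by
    rintro w a1 a2 q (hq | hq)
    · exact a1 q hq
    · exact a2 _ hq.2
  have hwt : ∀ q ∈ L', q.1 ≤ max μ ν := by
    rintro q (hq | hq)
    · exact (h.wt q hq).2.trans (le_max_left _ _)
    · exact (show q.1 = ν from hq.1).le.trans (le_max_right _ _)
  refine ⟨{q | q ∈ els (Dg L') ∧ 1 ≤ q.1}, (Dg.finite hfin).subset fun q hq => hq.1,
    fun q hq => ⟨hq.2, Dg.wt hwt hq.1⟩,
    fun q hq => Dg.an (han z h.an fun g hg => (hG g hg).1) hq.1, ?_⟩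
  filter_upwards [hev, h.ev, h.pk_ev hK,
    (G.eventually_all).2 fun g hg => (hG g hg).1.eventually_analyticAt] with w hw hg hp ha
  have a1 := han w hg.an ha
  have a2 : ∀ q ∈ {q | q ∈ els (Dg L') ∧ 1 ≤ q.1}, An w q.2 := fun q hq => Dg.an a1 hq.1
  have hB := lr_In a2
  have hD : ∀ i, Dif i (LIn w {q | q ∈ els (Dg L') ∧ 1 ≤ q.1}) := fun i =>
    In.dif a2 fun k f hf => by
      have d1 : Dg L' k (pd i f) := Dg.der i hf.1
      rcases k with _ | k
      · exact In.hol (Dg.an a1 d1)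
      · exact In.gen ⟨d1, Nat.succ_le_succ (Nat.zero_le k)⟩
  have hA : Le (A w) (LIn w {q | q ∈ els (Dg L') ∧ 1 ≤ q.1}) := by
    rw [hg.self]
    exact In.mono fun q hq => ⟨Dg.base (Or.inl hq), (hg.wt q hq).1⟩
  unfold CpF
  split_ifs with hs
  · obtain ⟨w1, w2⟩ := hw (hs.zero hp)
    refine Le.antisymm (Cmp_le hB hD hA fun g hg' => Rees.spn hB (fun f hf => ?_) (w2 g hg'))
      (In.le (lr_Cmp hg.rees) fun q hq => ?_)
    · exact In.gen ⟨Dg.base (Or.inr ⟨rfl, hf⟩), hν⟩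
    · have key : ∀ k f, Dg L' k f → Cmp w (A w) K b (cut α w) ν k f := by
        intro k f hf
        induction hf with
        | @base k f hf =>
          rcases hf with hf | hf
          · refine le_Cmp _ _ ?_
            rw [hg.self]
            exact In.gen hf
          · obtain rfl : k = ν := hf.1
            exact Rees.unit (lr_Cmp hg.rees) (an_mon _ w) (mon_cut α w).1 (rr_Cmp (w1 f hf.2))
        | der i _ ih => exact dif_Cmp hg.rees i _ _ ih
      exact key _ _ hq.1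
  · unfold LSg at hs
    push Not at hs
    obtain ⟨k, f, f1, f2⟩ := hs
    exact (top_of_not_ord hB hD (hA k f f1) f2).symm

theorem Gen.li_cmp (h : Gen A μ z L) (hK : PK (A z) K) (hz : ∀ i ∈ K, z i = 0) (hα : Sup z K α)
    (hd : Div z (A z) K μ.factorial α) (hr : ResLE z (A z) K μ.factorial α ν) :
    LI z (A z) (Cmp z (A z) K μ.factorial α ν) K μ.factorial α ν := by
  refine ⟨hK, hα, ?_, hr, le_Cmp, Le.refl _⟩
  obtain ⟨G, hG, hc, -⟩ := h.rr_gen hK hz hα hd
  have key := dom_In (L := L) (α := α) (ν := ν) (Nat.factorial_pos μ)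
    (lr_Cmp (K := K) (b := μ.factorial) (α := α) (ν := ν) h.rees) hz fun q hq => ?_
  · rwa [← h.self] at key
  obtain ⟨t, ht⟩ := Nat.dvd_factorial (h.wt q hq).1 (h.wt q hq).2
  have h1 : A z q.1 q.2 := by
    rw [h.self]
    exact In.gen hq
  have h2 := h.rees.pow (ring_an z) h1 t
  rw [mul_comm, ← ht] at h2
  obtain ⟨g, ⟨r, hr1, hr2⟩, e⟩ := hc _ h2
  refine ⟨G.toList, fun f hf => rr_Cmp (hG f (Finset.mem_toList.1 hf)), ?_⟩
  simp only [Finset.sum_map_toList]
  have h3 : g =O[𝓝 z] fun w => ∑ f ∈ G, ‖f (rho K w)‖ := by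
    refine hr2.trans_isBigO ?_
    have e2 : (∑ f ∈ G, r f * f) = fun w => ∑ f ∈ G, r f w * f w := by
      funext w
      simp only [Finset.sum_apply, Pi.mul_apply]
    rw [e2]
    refine IsBigO.fun_sum fun f hf => ?_
    have h4 : f =O[𝓝 z] fun w => ∑ f ∈ G, ‖f (rho K w)‖ := by
      refine IsBigO.of_bound' ?_
      filter_upwards [(hG f hf).2.1] with w hw
      rw [← hw]
      exact (Finset.single_le_sum (f := fun f : E n → ℂ => ‖f (rho K w)‖)
        (fun _ _ => norm_nonneg _) hf).trans (le_abs_self _)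
    simpa only [one_mul] using ((hr1 f hf).continuousAt.tendsto.isBigO_one ℝ).mul h4
  have h5 : (fun w => ‖q.2 (rho K w)‖ ^ t) =O[𝓝 z]
      fun w => ‖mon α w‖ * ∑ f ∈ G, ‖f (rho K w)‖ := by
    refine EventuallyEq.trans_isBigO (f₂ := fun w => ‖mon α w‖ * ‖g w‖) ?_
      ((isBigO_refl _ _).mul h3.norm_left)
    filter_upwards [e] with w hw
    simp only [Function.comp_apply, Pi.mul_apply, Pi.pow_apply] at hw
    rw [← norm_pow, hw, norm_mul]
  have h6 := h5.pow q.1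
  simp only [← pow_mul] at h6
  rwa [mul_comm t, ← ht] at h6

end Pool.Agent.HIR
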