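import Pool.Agent.P.MP_65ad7c_ag.XC1
import Pool.Agent.P.MP_65ad7c_ag.XB3

open Set Filter Topology Asymptotics
open scoped ComplexConjugate

noncomputable section
namespace Pool.Agent.HIR

variable {n b ν : ℕ} {z z' : E n} {τ σ : E n → E n} {A B : Gr (E n)} {K K' N : Finset (Fin n)}
  {α α' : Fin n → ℕ}

/-- type I: only the coordinates in `K` change -/
theorem pk_type1 (hb : Bi τ σ z z) (hA : LR z A) (hK : PK A K)
    (h1 : ∀ i ∉ K, co i ∘ τ =ᶠ[𝓝 z] co i) (h2 : ∀ i ∈ K, A 1 (co i ∘ τ)) :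
    PK (push A τ z) K := by
  refine ⟨fun i hi => ⟨an_co i z, h2 i hi⟩, fun i hi m h hh => ?_⟩
  have hB := lr_push hb hA
  have e1 : (h ∘ τ) ∘ σ =ᶠ[𝓝 z] h := hb.right.mono fun w hw => congrArg h hw
  have ha : An (σ z) (h ∘ τ) := by rw [hb.map']; exact hb.comp hh.1
  refine hB.congr _ _ _ ?_ ((pd_comp hb.an' ha i).symm.trans (pd_congr e1 i))
  refine hB.sum _ fun j _ => ?_
  by_cases hj : j ∈ K
  · exact hB.hol_mul (an_pd (hb.symm.comp (an_co j z)) i)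
      (push_mem hb hA (hK.der j hj m _ hh.2))
  · have e2 : co j ∘ σ =ᶠ[𝓝 z] co j := by
      filter_upwards [hb.symm.tendsto.eventually (h1 j hj), hb.right] with w h3 h4
      exact h3.symm.trans (congrArg (co j) h4)
    have hne : j ≠ i := fun e => hj (e ▸ hi)
    refine hB.congr _ _ _ (hB.zero m) ?_
    filter_upwards [pd_congr e2 i] with w hw
    rw [Pi.mul_apply, hw, pd_co]
    simp [hne]

theorem rho_XC2 (h1 : ∀ i ∉ K, co i ∘ τ =ᶠ[𝓝 z] co i) :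
    ∀ᶠ w in 𝓝 z, rho K (τ w) = rho K w := by
  have h : ∀ᶠ w in 𝓝 z, ∀ i, i ∉ K → τ w i = w i :=
    eventually_all.2 fun i => by
      by_cases hi : i ∈ K
      · exact Eventually.of_forall fun w hw => absurd hi hw
      · exact (h1 i hi).mono fun w hw _ => hw
  filter_upwards [h] with w hw
  funext i
  by_cases hi : i ∈ K
  · simp [rho, hi]
  · simp [rho, hi, hw i hi]

theorem tr_type1 (hb : Bi τ σ z z) (hA : LR z A) (hK : PK A K) (hα : Sup z K α)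
    (hz : ∀ i ∈ K, z i = 0) (h1 : ∀ i ∉ K, co i ∘ τ =ᶠ[𝓝 z] co i)
    (h2 : ∀ i ∈ K, A 1 (co i ∘ τ)) : Tr τ z z A K K b α α := by
  have hB := lr_push hb hA
  have hK' := pk_type1 hb hA hK h1 h2
  have hr := rho_XC2 h1
  have hs : ∀ i, α i ≠ 0 → i ∉ K := fun i hi => (hα i hi).1
  have hg : ∀ g : E n → ℂ, g ∘ rho K =ᶠ[𝓝 z] g → g ∘ τ =ᶠ[𝓝 z] g := fun g e => by
    filter_upwards [hr, e, hb.tendsto.eventually e] with w a1 a2 a3
    exact a3.symm.trans ((congrArg g a1).trans a2)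
  have hmg : ∀ g : E n → ℂ, g ∘ rho K =ᶠ[𝓝 z] g → (mon α * g) ∘ τ =ᶠ[𝓝 z] mon α * g :=
    fun g e => hg _ (e.mono fun w hw => by
      change mon α (rho K w) * (g ∘ rho K) w = mon α w * g w
      rw [mon_rho hs, hw])
  have hrr : ∀ c : E n → ℂ, (c ∘ rho K) ∘ rho K = c ∘ rho K := fun c =>
    funext fun w => congrArg c (rho_rho K w)
  intro hd
  refine ⟨fun c hc => ?_, fun ν hν => ⟨?_, ?_⟩⟩
  · have h3 := hd _ (hA.congr _ _ _ (coef hB hK' hz hc).2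
      (hg _ (EventuallyEq.of_eq (hrr c))))
    rwa [hrr] at h3
  · obtain ⟨g, ⟨a1, a2, a3⟩, a4⟩ := hν
    exact ⟨g, ⟨a1, a2, (an_mon α z).mul a1, hA.congr _ _ _ a3 (hmg g a2).symm⟩, a4⟩
  · refine Cmp_le (lr_push hb (lr_Cmp hA)) (dif_push hb (lr_Cmp hA) (dif_Cmp hA))
      (push_le le_Cmp) ?_
    rintro g ⟨a1, a2, a3⟩
    exact ⟨a1, (lr_Cmp hA).congr _ _ _
      (rr_Cmp ⟨a1, a2, hA.congr _ _ _ a3.2 (hmg g a2)⟩) (hg g a2).symm⟩

theorem geo_XC2 (hb : Bi τ σ z z') (hz' : ∀ i ∈ K', z' i = 0)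
    (h : ∀ᶠ w in 𝓝 z, (∀ i ∈ K', τ w i = 0) → ∀ i ∈ K, w i = 0) :
    ∀ᶠ w in 𝓝 z', τ (rho K (σ (rho K' w))) = rho K' w := by
  filter_upwards [(hb.symm.tendsto.comp (tendsto_rho hz')).eventually h,
    (tendsto_rho hz').eventually hb.right] with w a1 a2
  have a3 : ∀ i ∈ K, σ (rho K' w) i = 0 := a1 fun i hi => by
    change τ (σ (rho K' w)) i = 0
    rw [a2]
    simp [rho, hi]
  rw [rho_fix a3, a2]

theorem rr_XC2 (hb : Bi τ σ z z') (hA : LR z A) (hK' : PK (push A τ z') K')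
    (hα' : ∀ i, α' i ≠ 0 → i ∉ K') (hz' : ∀ i ∈ K', z' i = 0) {u : E n → ℂ} (hu : An z u)
    (hm : mon α' ∘ τ =ᶠ[𝓝 z] u * mon α) {g : E n → ℂ} (hg : g ∈ RR z A K b α) :
    (g ∘ σ) ∘ rho K' ∈ RR z' (push A τ z') K' b α' := by
  have hB := lr_push hb hA
  refine ⟨(hb.symm.comp hg.1).rho hz',
    EventuallyEq.of_eq (funext fun w => congrArg (g ∘ σ) (rho_rho K' w)), ?_⟩
  have a1 := push_mem hb hA (hA.hol_mul hu hg.2.2)
  have a2 : (u * (mon α * g)) ∘ σ =ᶠ[𝓝 z'] mon α' * (g ∘ σ) := by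
    filter_upwards [hb.symm.tendsto.eventually hm, hb.right] with w b1 b2
    have b3 : mon α' w = u (σ w) * mon α (σ w) := (congrArg (mon α') b2).symm.trans b1
    change u (σ w) * (mon α (σ w) * g (σ w)) = mon α' w * g (σ w)
    rw [b3, mul_assoc]
  refine hB.congr _ _ _ (coef hB hK' hz' (hB.congr _ _ _ a1 a2)) (EventuallyEq.of_eq ?_)
  funext w
  change mon α' (rho K' w) * g (σ (rho K' w)) = mon α' w * g (σ (rho K' w))
  rw [mon_rho hα']

/-- type II: the hypersurfaces of maximal contact are the same -/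
theorem tr_type2 (hb : Bi τ σ z z') (hA : LR z A) (hK : PK A K) (hK' : PK (push A τ z') K')
    (hα : ∀ i, α i ≠ 0 → i ∉ K) (hα' : ∀ i, α' i ≠ 0 → i ∉ K') (hz : ∀ i ∈ K, z i = 0)
    (h : ∀ᶠ w in 𝓝 z, (∀ i ∈ K, w i = 0) ↔ ∀ i ∈ K', τ w i = 0)
    (hm : ∃ u, An z u ∧ u z ≠ 0 ∧ mon α' ∘ τ =ᶠ[𝓝 z] u * mon α) :
    Tr τ z z' A K K' b α α' := by
  obtain ⟨u, hu, hu0, hm⟩ := hm
  have hB := lr_push hb hA
  have hz' : ∀ i ∈ K', z' i = 0 := hb.map ▸ h.self_of_nhds.1 hz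
  have g1 := geo_XC2 (K := K) hb hz' (h.mono fun w hw => hw.2)
  have g2 : ∀ᶠ w in 𝓝 z, σ (rho K' (τ (rho K w))) = rho K w := by
    refine geo_XC2 hb.symm hz ?_
    filter_upwards [hb.symm.tendsto.eventually h, hb.right] with w a1 a2 a3
    exact a2 ▸ a1.1 a3
  have hu1 : (u ∘ σ) z' ≠ 0 := by
    change u (σ z') ≠ 0
    rwa [hb.map']
  have hu' : An z' (u ∘ σ)⁻¹ := (hb.symm.comp hu).inv hu1
  have hm' : mon α ∘ σ =ᶠ[𝓝 z'] (u ∘ σ)⁻¹ * mon α' := by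
    filter_upwards [hb.symm.tendsto.eventually hm, hb.right,
      (hb.symm.comp hu).continuousAt.eventually_ne hu1] with w b1 b2 b4
    have b3 : mon α' w = u (σ w) * mon α (σ w) := (congrArg (mon α') b2).symm.trans b1
    change mon α (σ w) = (u (σ w))⁻¹ * mon α' w
    rw [b3, ← mul_assoc, inv_mul_cancel₀ (show u (σ w) ≠ 0 from b4), one_mul]
  intro hd
  refine ⟨fun c hc => ?_, fun ν hν => ⟨?_, ?_⟩⟩
  · have a1 := (hd _ hc.2).comp_tendsto (hb.symm.tendsto.comp (tendsto_rho hz'))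
    have a2 : ((c ∘ τ) ∘ rho K) ∘ σ ∘ rho K' =ᶠ[𝓝 z'] c ∘ rho K' :=
      g1.mono fun w hw => congrArg c hw
    have a3 : (mon α ∘ σ ∘ rho K') =O[𝓝 z'] mon α' := by
      have b1 : ((u ∘ σ)⁻¹ * mon α') =O[𝓝 z'] mon α' :=
        ((hu'.continuousAt.isBigO_one (F := ℂ)).mul
          (isBigO_refl (mon α') (𝓝 z'))).congr_right fun w => one_mul _
      have b2 := ((hm'.trans_isBigO b1).comp_tendsto (tendsto_rho hz'))
      exact b2.congr_right fun w => mon_rho hα' w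
    exact (a2.symm.trans_isBigO a1).trans a3
  · obtain ⟨g, a1, a2⟩ := hν
    refine ⟨_, rr_XC2 hb hA hK' hα' hz' hu hm a1, fun ho => a2 ?_⟩
    have e : (τ ∘ rho K) z = z' := by
      change τ (rho K z) = z'
      rw [rho_fix hz, hb.map]
    have hφ : AnalyticAt ℂ (τ ∘ rho K) z :=
      AnalyticAt.comp (by rw [rho_fix hz]; exact hb.an) (an_rho K z)
    refine (Ord.comp (e ▸ ho) hφ.differentiableAt).congr ?_
    filter_upwards [g2, a1.2.1] with w b1 b2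
    exact (congrArg g b1).trans b2
  · have hC := lr_Cmp (K := K) (b := b) (α := α) (ν := ν) hA
    have hD := lr_push hb hC
    have hdif := dif_push hb hC (dif_Cmp hA)
    refine Cmp_le hD hdif (push_le le_Cmp) fun g hg => ?_
    have a1 := rr_XC2 hb.symm hB (by rwa [push_push hb hA]) hα hz hu' hm' hg
    rw [push_push hb hA] at a1
    have a2 := coef hD ⟨fun i hi => push_le le_Cmp _ _ (hK'.co i hi), fun i _ => hdif i⟩ hz'
      (push_mem hb hC (rr_Cmp a1))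
    refine hD.congr _ _ _ a2 ?_
    filter_upwards [g1, hg.2.1] with w b1 b2
    exact (congrArg g b1).trans b2

end Pool.Agent.HIR
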