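import Pool.Agent.P.MP_65ad7c_ag.XC1
import Pool.Agent.P.MP_65ad7c_ag.XB3

open Set Filter Topology Asymptotics
open scoped ComplexConjugate

noncomputable section
namespace Pool.Agent.HIR

variable {n b : ℕ} {z z' : E n} {τ σ : E n → E n} {A : Gr (E n)} {K K' : Finset (Fin n)}
  {J : Finset ℕ} {c c' : ℕ → Fin n}

theorem card_XC4 (hi : InjOn c J) (ho : ∀ j ∈ J, c j ∉ K) :
    (K ∪ J.image c).card = K.card + J.card := by
  rw [Finset.card_union_of_disjoint, Finset.card_image_of_injOn hi]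
  rw [Finset.disjoint_right]
  intro i hi'
  obtain ⟨j, hj, rfl⟩ := Finset.mem_image.1 hi'
  exact ho j hj

theorem Two.tan_XC4 (h : Two τ σ z z' A K K' J c c') {v : E n} {j : ℕ} (hj : j ∈ J)
    (hv : v (c j) = 0) : fderiv ℂ τ z v (c' j) = 0 := by
  have := h.bi.tan (T := {c j}) (T' := {c' j}) (v := v)
    (fun i hi => by rw [Finset.mem_singleton.1 hi]; exact h.dv.zero j hj)
    ((h.dv.iff j hj).mono fun w hw h0 i hi => by
      rw [Finset.mem_singleton.1 hi]
      exact hw.1 (h0 _ (Finset.mem_singleton_self _)))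
    (fun i hi => by rw [Finset.mem_singleton.1 hi]; exact hv)
  exact this _ (Finset.mem_singleton_self _)

theorem Two.back (h : Two τ σ z z' A K K' J c c') (hE : ¬ Extra z A (K ∪ J.image c)) {v : E n}
    (hv : ∀ i ∈ K' ∪ J.image c', fderiv ℂ τ z v i = 0) : ∀ i ∈ K ∪ J.image c, v i = 0 := by
  refine lin_onto (fderiv ℂ τ z) (fun w hw => ?_) ?_ (fun w hw i hi => ?_) v hv
  · have := h.bi.left_d w
    rw [hw, map_zero] at this
    exact this.symm
  · rw [card_XC4 h.dv.inj h.out, card_XC4 h.dv.inj' h.out', h.card]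
  · rcases Finset.mem_union.1 hi with hi | hi
    · rw [← h.bi.fderiv_co]
      by_contra hne
      exact hE ⟨co i ∘ τ, w, (h.pk'.co i hi).2, hw, hne⟩
    · obtain ⟨j, hj, rfl⟩ := Finset.mem_image.1 hi
      exact h.tan_XC4 hj (hw _ (Finset.mem_union_right _ (Finset.mem_image_of_mem c hj)))

theorem Two.inj (h : Two τ σ z z' A K K' J c c') (hE : ¬ Extra z A (K ∪ J.image c)) {v : E n}
    (hv : ∀ i ∉ K, v i = 0) (hv' : ∀ i ∈ K', fderiv ℂ τ z v i = 0) : v = 0 := by
  have hb := h.back hE (v := v) (fun i hi => by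
    rcases Finset.mem_union.1 hi with hi | hi
    · exact hv' i hi
    · obtain ⟨j, hj, rfl⟩ := Finset.mem_image.1 hi
      exact h.tan_XC4 hj (hv _ (h.out j hj)))
  funext i
  by_cases hi : i ∈ K
  · exact hb i (Finset.mem_union_left _ hi)
  · exact hv i hi

theorem Two.not_extra (h : Two τ σ z z' A K K' J c c') (hE : ¬ Extra z A (K ∪ J.image c)) :
    ¬ Extra z' (push A τ z') (K' ∪ J.image c') := by
  rintro ⟨u, v, ⟨hu, hu'⟩, hv, hne⟩
  have e : fderiv ℂ τ z (fderiv ℂ σ z' v) = v := h.bi.symm.left_d v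
  refine hE ⟨u ∘ τ, fderiv ℂ σ z' v, hu', h.back hE (fun i hi => by rw [e]; exact hv i hi), ?_⟩
  have hu2 : DifferentiableAt ℂ u (τ z) := by rw [h.bi.map]; exact hu.differentiableAt
  rw [fderiv_comp z hu2 h.bi.an.differentiableAt, ContinuousLinearMap.comp_apply, e, h.bi.map]
  exact hne

/-- the power of an extra element lies in the residual ideal -/
theorem extra_rr {N : Finset (Fin n)} (hA : LR z A) (hs : LSg z A) (hK : PK A K) (hN : K ⊆ N)
    (hE : Extra z A N) : ∃ g ∈ RR z A K b 0, ¬ Ord z (b + 1) g := by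
  obtain ⟨u, v, hu, hv, hne⟩ := hE
  have hz : ∀ i ∈ K, z i = 0 := hs.zero hK
  have hua : An z u := hA.an _ _ hu
  have hur : An z (u ∘ rho K) := An.rho hua hz
  refine ⟨(u ∘ rho K) ^ b, ⟨hur.pow b, ?_, ?_⟩, not_ord_pow hur (v := v) ?_ b⟩
  · refine Eventually.of_forall fun w => ?_
    simp only [Function.comp_apply, Pi.pow_apply, rho_rho]
  · rw [mon_zero, one_mul]
    have := hA.pow (ring_an z) (coef hA hK hz hu) b
    rwa [mul_one] at this
  · rw [fderiv_rho hua hz, rho_fix fun i hi => hv i (hN hi)]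
    exact hne

theorem extra_exp (hb : 0 < b) (hA : LR z A) (hs : LSg z A) (hK : PK A K) {a : ℕ → ℕ}
    (hc : ∀ j ∈ J, z (c j) = 0) (hE : Extra z A (K ∪ J.image c))
    (hd : Div z A K b (exv J c a)) : ∀ j ∈ J, a j = 0 := by
  obtain ⟨u, v, hu, hv, hne⟩ := hE
  intro j hj
  by_contra ha
  have hz : ∀ i ∈ K, z i = 0 := hs.zero hK
  have hua : An z u := hA.an _ _ hu
  have h1 : A b (u ^ b) := by
    have := hA.pow (ring_an z) hu b
    rwa [mul_one] at this
  have hl : HasDerivAt (fun t : ℂ => z + t • v) v 0 := by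
    simpa using ((hasDerivAt_id (0 : ℂ)).smul_const v).const_add z
  have ht : Tendsto (fun t : ℂ => z + t • v) (𝓝 0) (𝓝 z) := by
    simpa using hl.continuousAt.tendsto
  have h2 := (hd _ h1).comp_tendsto ht
  have h3 : (mon (exv J c a) ∘ fun t : ℂ => z + t • v) = fun _ => 0 := by
    funext t
    rw [Function.comp_apply, mon_exv]
    refine Finset.prod_eq_zero hj ?_
    have : (z + t • v) (c j) = 0 := by
      rw [Pi.add_apply, Pi.smul_apply, hc j hj,
        hv _ (Finset.mem_union_right _ (Finset.mem_image_of_mem c hj)), smul_zero, add_zero]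
    rw [this, zero_pow ha]
  rw [h3, isBigO_zero_right_iff] at h2
  have h4 : (u ∘ fun t : ℂ => z + t • v) =ᶠ[𝓝 0] fun _ => 0 := by
    filter_upwards [h2] with t h
    have e : rho K (z + t • v) = z + t • v := rho_fix fun i hi => by
      rw [Pi.add_apply, Pi.smul_apply, hz i hi, hv i (Finset.mem_union_left _ hi), smul_zero,
        add_zero]
    simp only [Function.comp_apply, Pi.pow_apply, e, Pi.zero_apply] at h
    exact (pow_eq_zero_iff hb.ne').1 h
  have h5 : HasDerivAt (u ∘ fun t : ℂ => z + t • v) (fderiv ℂ u z v) 0 := by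
    refine HasFDerivAt.comp_hasDerivAt_of_eq (0 : ℂ) hua.differentiableAt.hasFDerivAt hl ?_
    simp
  exact hne (h5.unique ((hasDerivAt_const (0 : ℂ) (0 : ℂ)).congr_of_eventuallyEq h4))

theorem exv_zero_XC4 {a : ℕ → ℕ} (ha : ∀ j ∈ J, a j = 0) (c : ℕ → Fin n) : exv J c a = 0 := by
  funext i
  by_contra hne
  obtain ⟨j, hj, -, h⟩ := exv_ne hne
  exact h (ha j hj)

theorem Two.tr_extra (h : Two τ σ z z' A K K' J c c') (hb : 0 < b)
    (hE : Extra z A (K ∪ J.image c)) (a : ℕ → ℕ) :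
    Tr τ z z' A K K' b (exv J c a) (exv J c' a) := by
  intro hd
  have ha := extra_exp hb h.rees h.sg h.pk h.dv.zero hE hd
  rw [exv_zero_XC4 ha c, exv_zero_XC4 ha c']
  have hA' : LR z' (push A τ z') := lr_push h.bi h.rees
  have hs' : LSg z' (push A τ z') := (lsg_push h.bi h.rees).2 h.sg
  have hz' : ∀ i ∈ K', z' i = 0 := hs'.zero h.pk'
  have hE' : Extra z' (push A τ z') (K' ∪ J.image c') := by
    by_contra hn
    have := h.symm.not_extra hn
    rw [push_push h.bi h.rees] at this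
    exact this hE
  refine ⟨fun f hf => ?_, fun ν hν => ?_⟩
  · rw [mon_zero]
    exact (An.rho hf.1 hz').continuousAt.tendsto.isBigO_one ℂ
  · have hbν : b ≤ ν := by
      obtain ⟨g, ⟨-, -, hg⟩, hn⟩ := hν
      rw [mon_zero, one_mul] at hg
      by_contra hlt
      exact hn ((h.sg _ _ hg).mono (by omega))
    have hC : LR z (Cmp z A K b 0 ν) := lr_Cmp h.rees
    refine ⟨ResLE.mono (extra_rr hA' hs' h.pk' Finset.subset_union_left hE') hbν, ?_⟩
    refine Cmp_le (lr_push h.bi hC) (dif_push h.bi hC (dif_Cmp h.rees)) (push_le le_Cmp)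
      fun g hg => ?_
    rcases hbν.eq_or_lt with rfl | hlt
    · have hg' := hg.2.2
      rw [mon_zero, one_mul] at hg'
      exact push_le le_Cmp _ _ hg'
    · obtain ⟨g0, hg0, hn⟩ := extra_rr (b := b) h.rees h.sg h.pk Finset.subset_union_left hE
      rw [top_of_not_ord hC (dif_Cmp h.rees) (rr_Cmp hg0) fun ho => hn (ho.mono hlt),
        push_top h.bi]
      exact hg.1

end Pool.Agent.HIR
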