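import Pool.Agent.P.MP_65ad7c_ag.XC2
import Pool.Agent.P.MP_65ad7c_ag.XC4

open Set Filter Topology Asymptotics
open scoped ComplexConjugate

noncomputable section
namespace Pool.Agent.HIR

variable {n b ν : ℕ} {z z' : E n} {τ σ : E n → E n} {A : Gr (E n)} {K K' : Finset (Fin n)}
  {J : Finset ℕ} {c c' : ℕ → Fin n}

theorem fderiv_co_XC5 {φ : E n → E n} (h : AnalyticAt ℂ φ z) (i : Fin n) (v : E n) :
    fderiv ℂ (co i ∘ φ) z v = fderiv ℂ φ z v i := by
  have h1 : HasFDerivAt (co i ∘ φ)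
      ((ContinuousLinearMap.proj i : E n →L[ℂ] ℂ).comp (fderiv ℂ φ z)) z :=
    (ContinuousLinearMap.proj i : E n →L[ℂ] ℂ).hasFDerivAt.comp z h.differentiableAt.hasFDerivAt
  rw [h1.fderiv]
  rfl

theorem mon_congr_XC5 {α : Fin n → ℕ} {y w : E n} (h : ∀ i, α i ≠ 0 → y i = w i) :
    mon α y = mon α w := by
  refine Finset.prod_congr rfl fun i _ => ?_
  by_cases hi : α i = 0
  · rw [hi, pow_zero, pow_zero]
  · rw [h i hi]

theorem Two.tr_not_extra (h : Two τ σ z z' A K K' J c c') (hE : ¬ Extra z A (K ∪ J.image c))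
    (a : ℕ → ℕ) : Tr τ z z' A K K' b (exv J c a) (exv J c' a) := by
  obtain ⟨s⟩ : Nonempty (K ≃ K') := ⟨Finset.equivOfCardEq h.card⟩
  obtain ⟨φ, hφ1, hφ2⟩ : ∃ φ : E n → E n, (∀ i : K, co i ∘ φ = co (s i) ∘ τ) ∧
      ∀ i ∉ K, co i ∘ φ = co i :=
    ⟨fun w i => if hi : i ∈ K then τ w (s ⟨i, hi⟩) else w i,
      fun i => funext fun w => dif_pos i.2, fun i hi => funext fun w => dif_neg hi⟩
  have hz : ∀ i ∈ K, z i = 0 := h.sg.zero h.pk
  have hz' : ∀ i ∈ K', z' i = 0 := ((lsg_push h.bi h.rees).2 h.sg).zero h.pk'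
  have han : AnalyticAt ℂ φ z := by
    refine AnalyticAt.pi (f := fun i w => φ w i) fun i => ?_
    change An z (co i ∘ φ)
    by_cases hi : i ∈ K
    · rw [hφ1 ⟨i, hi⟩]
      exact h.bi.comp (an_co _ _)
    · rw [hφ2 i hi]
      exact an_co _ _
  have hφz : φ z = z := by
    funext i
    by_cases hi : i ∈ K
    · have e : φ z i = τ z (s ⟨i, hi⟩) := congrFun (hφ1 ⟨i, hi⟩) z
      rw [e, h.bi.map, hz' _ (s ⟨i, hi⟩).2, hz i hi]
    · exact congrFun (hφ2 i hi) z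
  obtain ⟨ψ, hb1⟩ := bi_of_inj han fun v hv => by
    refine h.inj hE (fun i hi => ?_) fun j hj => ?_
    · have e := fderiv_co_XC5 han i v
      have e' := fderiv_co_XC5 (φ := id) (z := z) analyticAt_id i v
      rw [hφ2 i hi, hv] at e
      rw [fderiv_id] at e'
      exact e'.symm.trans e
    · have e := fderiv_co_XC5 han (s.symm ⟨j, hj⟩) v
      rw [hφ1, hv, s.apply_symm_apply, h.bi.fderiv_co] at e
      exact e
  rw [hφz] at hb1
  have hsup : Sup z K (exv J c a) := fun i hi => by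
    obtain ⟨j, hj, rfl, -⟩ := exv_ne hi
    exact ⟨h.out j hj, h.dv.zero j hj⟩
  have h1 : ∀ i ∉ K, co i ∘ φ =ᶠ[𝓝 z] co i := fun i hi => by rw [hφ2 i hi]
  have h2 : ∀ i ∈ K, A 1 (co i ∘ φ) := fun i hi => by
    rw [hφ1 ⟨i, hi⟩]
    exact (h.pk'.co _ (s ⟨i, hi⟩).2).2
  have hb2 := hb1.symm.trans h.bi
  have he : (τ ∘ ψ) ∘ φ =ᶠ[𝓝 z] τ := hb1.left.mono fun w hw => congrArg τ hw
  refine Tr.congr (hb1.trans hb2) h.rees he
    ((tr_type1 hb1 h.rees h.pk hsup hz h1 h2).trans hb2 ?_)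
  refine tr_type2 hb2 (lr_push hb1 h.rees) (pk_type1 hb1 h.rees h.pk h1 h2) ?_
    (fun i hi => (hsup i hi).1) (fun i hi => ?_) hz ?_ ?_
  · rw [push_trans hb2, ← push_congr h.bi h.rees he.symm]
    exact h.pk'
  · obtain ⟨j, hj, rfl, -⟩ := exv_ne hi
    exact h.out' j hj
  · refine hb1.right.mono fun w hw => ?_
    have e : ∀ i : K, w i = τ (ψ w) (s i) := fun i =>
      (congrFun hw i).symm.trans (congrFun (hφ1 i) (ψ w))
    refine ⟨fun hh j hj => ?_, fun hh i hi => (e ⟨i, hi⟩).trans (hh _ (s ⟨i, hi⟩).2)⟩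
    have e' := e (s.symm ⟨j, hj⟩)
    rw [s.apply_symm_apply] at e'
    exact e'.symm.trans (hh _ (s.symm ⟨j, hj⟩).2)
  · obtain ⟨u, hu, hu0, hm⟩ := h.dv.mon h.bi a
    refine ⟨u ∘ ψ, hb1.symm.comp hu, ?_, ?_⟩
    · rw [Function.comp_apply, hb1.map']
      exact hu0
    · filter_upwards [hb1.symm.tendsto.eventually hm, hb1.right] with w hw hw'
      refine hw.trans (congrArg (u (ψ w) * ·) (mon_congr_XC5 fun i hi => ?_))
      exact (congrFun (hφ2 i (hsup i hi).1) (ψ w)).symm.trans (congrFun hw' i)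

/-- independence of the chart -/
theorem Two.tr (h : Two τ σ z z' A K K' J c c') (hb : 0 < b) (a : ℕ → ℕ) :
    Tr τ z z' A K K' b (exv J c a) (exv J c' a) := by
  by_cases hE : Extra z A (K ∪ J.image c)
  · exact h.tr_extra hb hE a
  · exact h.tr_not_extra hE a

theorem Two.cmp (h : Two τ σ z z' A K K' J c c') (hb : 0 < b) {a : ℕ → ℕ}
    (hd : Div z A K b (exv J c a)) (hr : ResLE z A K b (exv J c a) ν) :
    Cmp z' (push A τ z') K' b (exv J c' a) ν = push (Cmp z A K b (exv J c a) ν) τ z' := by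
  obtain ⟨hd', h1⟩ := h.tr hb a hd
  obtain ⟨hr', h2⟩ := h1 ν hr
  have h3 := ((h.symm.tr hb a hd').2 ν hr').2
  rw [push_push h.bi h.rees] at h3
  refine h2.antisymm fun m f hf => ?_
  exact In.congr (h3 m _ hf.2).2 (h.bi.right.mono fun w hw => congrArg f hw)

end Pool.Agent.HIR
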