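import Pool.Agent.P.MP_65ad7c_ag.XC7

open Set Filter Topology Asymptotics
open scoped ComplexConjugate

noncomputable section
namespace Pool.Agent.HIR

variable {n b ν : ℕ} {w : E n} {A B : Gr (E n)} {g g' : E n → ℂ} {K T : Finset (Fin n)}
  {p : Fin n} {α : Fin n → ℕ}

/-- the data of one step -/
structure Stp (w : E n) (A B : Gr (E n)) (K T : Finset (Fin n)) (p : Fin n) (b : ℕ)
    (α : Fin n → ℕ) (ν : ℕ) : Prop where
  pos : 0 < b
  mem : p ∈ T
  out : p ∉ K
  zero : w p = 0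
  sub : K ⊆ T
  wK : ∀ i ∈ K, w i = 0
  rA : LR (bet T p w) A
  rB : LR (bet T p w) B
  li : LI (bet T p w) A B K b α ν
  van : VanC (bet T p w) T B

theorem cont_list_XC8 {z : E n} (s : List (E n → ℂ)) (hs : ∀ u ∈ s, An z u) :
    ∀ᶠ y in 𝓝 z, ContinuousAt (fun y => (s.map fun u => ‖u y‖).sum) y := by
  induction s with
  | nil => exact Eventually.of_forall fun y => by simpa using continuousAt_const
  | cons u s ih =>
    filter_upwards [ih fun v hv => hs v (List.mem_cons_of_mem _ hv),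
      (hs u List.mem_cons_self).eventually_analyticAt] with y h1 h2
    simp only [List.map_cons, List.sum_cons]
    exact h2.continuousAt.norm.add h1

theorem Stp.zT_XC8 (h : Stp w A B K T p b α ν) : ∀ i ∈ T, bet T p w i = 0 :=
  (bet_zero h.mem).2 h.zero

theorem Stp.tend_XC8 (T : Finset (Fin n)) (p : Fin n) (w : E n) :
    Tendsto (bet T p) (𝓝 w) (𝓝 (bet T p w)) :=
  (an_bet T p w).continuousAt.tendsto

theorem Stp.rr_div (h : Stp w A B K T p b α ν) (hg : g ∈ RR (bet T p w) A K b α) :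
    ∃ g', An w g' ∧ g ∘ bet T p =ᶠ[𝓝 w] co p ^ ν * g' := by
  obtain ⟨hga, hgr, hgA⟩ := hg
  have hzK : ∀ i ∈ K, bet T p w i = 0 := fun i hi => h.zT_XC8 i (h.sub hi)
  obtain ⟨s, hs, hO⟩ := h.li.dom b _ hgA
  have hO1 := isBigO_of_pow h.pos hO
  let s' : List (E n → ℂ) := s.map fun u => u ∘ rho K
  have hs' : ∀ y, (s'.map fun u => ‖u y‖).sum = (s.map fun u => ‖u (rho K y)‖).sum := by
    intro y
    simp only [s', List.map_map]
    rfl
  have han : ∀ u ∈ s', An (bet T p w) u := by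
    intro u hu
    obtain ⟨v, hv, rfl⟩ := List.mem_map.1 hu
    exact An.rho (h.rB.an _ _ (hs v hv)) hzK
  have hO2 : (fun y => ‖mon α y‖ * ‖g y‖) =O[𝓝 (bet T p w)]
      fun y => ‖mon α y‖ * (s'.map fun u => ‖u y‖).sum := by
    refine hO1.congr' ?_ (Eventually.of_forall fun y => by simp only [hs'])
    filter_upwards [hgr] with y hy
    rw [Pi.mul_apply, norm_mul, mon_rho (fun i hi => (h.li.sup i hi).1)]
    rw [show g (rho K y) = g y from hy]
  have hO3 := canc_bigO (F := fun y => ‖g y‖) (G := fun y => (s'.map fun u => ‖u y‖).sum)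
    (hga.eventually_analyticAt.mono fun y hy => hy.continuousAt.norm) (cont_list_XC8 s' han) hO2
  refine bdiv h.mem h.zero hga
    (ord_near (C := {y | ∀ i ∈ T, y i = 0}) hO3 fun u hu => ?_)
  obtain ⟨v, hv, rfl⟩ := List.mem_map.1 hu
  filter_upwards [h.van ν v (hs v hv)] with y hy hC
  have e : rho K y = y := rho_fix fun i hi => hC i (h.sub hi)
  exact Ord.comp (by rw [e]; exact hy hC) (an_rho K y).differentiableAt

theorem Stp.le (h : Stp w A B K T p b α ν) : b ≤ ∑ j ∈ T, α j + ν := by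
  by_contra hlt
  obtain ⟨g, hg, hno⟩ := h.li.res
  obtain ⟨g', hg', e⟩ := h.rr_div hg
  obtain ⟨k, hk⟩ : ∃ k, b = (∑ j ∈ T, α j + ν) + (k + 1) := ⟨b - (∑ j ∈ T, α j + ν) - 1, by omega⟩
  obtain ⟨h', hh', e'⟩ := bdiv h.mem h.zero (h.rA.an _ _ hg.2.2) (h.van b _ (h.li.le _ _ hg.2.2))
  have hm := mon_bet h.mem α
  have hk' : An w (co p ^ k * h') := ((an_co p w).pow k).mul hh'
  have e1 : co p ^ (∑ j ∈ T, α j + ν) * (mon (Function.update α p 0) * g') =ᶠ[𝓝 w]
      co p ^ (∑ j ∈ T, α j + ν) * (co p * (co p ^ k * h')) := by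
    filter_upwards [e, e'] with y h1 h2
    have h3 := congrFun hm y
    simp only [Function.comp_apply, Pi.mul_apply, Pi.pow_apply] at h1 h2 h3 ⊢
    rw [h1, h3, hk] at h2
    linear_combination h2
  have e2 := canc_co ((an_mon _ w).mul hg') ((an_co p w).mul hk') e1
  obtain ⟨q, hq, e3⟩ := div_of_mon_mul hg' h.zero (by simp) hk' e2
  refine hno (bord0 h.mem h.zero hg.1 hq ?_)
  filter_upwards [e, e3] with y h1 h2
  simp only [Function.comp_apply, Pi.mul_apply, Pi.pow_apply] at h1 h2 ⊢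
  rw [h1, h2]
  ring

theorem Stp.rr (h : Stp w A B K T p b α ν) (hg : g ∈ RR (bet T p w) A K b α) (hg' : An w g')
    (e : g ∘ bet T p =ᶠ[𝓝 w] co p ^ ν * g') :
    g' ∈ RR w (ltr A T p w) K b (nex α T p w ν b) := by
  refine ⟨hg', ?_, ?_⟩
  · refine canc_co (i := p) (k := ν) (An.rho hg' h.wK) hg' ?_
    filter_upwards [(tendsto_rho h.wK).eventually e, e,
      (Stp.tend_XC8 T p w).eventually hg.2.1] with y h1 h2 h3
    simp only [Function.comp_apply, Pi.mul_apply, Pi.pow_apply] at h1 h2 h3 ⊢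
    have h4 : co p (rho K y) = co p y := by simp [co, rho, h.out]
    rw [← rho_bet h.sub h.out, h3, h4] at h1
    rw [← h1, h2]
  · obtain ⟨u, hu, hu0, hm⟩ := mon_nex (α := α) h.mem h.zero h.le
    refine Rees.unit (lr_ltr A T p w) hu hu0
      (ltr_gen hg.2.2 (hu.mul ((an_mon _ w).mul hg')) ?_)
    filter_upwards [e] with y h1
    have h3 := congrFun hm y
    simp only [Function.comp_apply, Pi.mul_apply, Pi.pow_apply] at h1 h3 ⊢
    rw [h1]
    linear_combination g' y * h3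

theorem Stp.res (h : Stp w A B K T p b α ν) :
    ResLE w (ltr A T p w) K b (nex α T p w ν b) ν := by
  obtain ⟨g, hg, hno⟩ := h.li.res
  obtain ⟨g', hg', e⟩ := h.rr_div hg
  exact ⟨g', h.rr hg hg' e, fun ho => hno (bord h.mem h.zero hg.1 hg' e ho)⟩

theorem Stp.sup (h : Stp w A B K T p b α ν) : Sup w K (nex α T p w ν b) := by
  intro i hi
  by_cases hip : i = p
  · subst hip
    exact ⟨h.out, h.zero⟩
  · by_cases hw : w i = 0
    · refine ⟨(h.li.sup i ?_).1, hw⟩
      simpa [nex, hip, hw] using hi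
    · simp [nex, hip, hw] at hi

theorem Stp.cmp (h : Stp w A B K T p b α ν) :
    Le (ltr B T p w) (Cmp w (ltr A T p w) K b (nex α T p w ν b) ν) := by
  have hC : LR w (Cmp w (ltr A T p w) K b (nex α T p w ν b) ν) := lr_Cmp (lr_ltr A T p w)
  have hv : VanC (bet T p w) T A := fun m f hf => h.van m f (h.li.le m f hf)
  refine ltr_le_of_pre hC (h.li.cmp.trans (Cmp_le (lr_pre hC)
    (dif_pre h.mem hC (dif_Cmp (lr_ltr A T p w))) (fun m f hf => ?_) fun g hg => ?_))
  · obtain ⟨h1, f', h2, h3⟩ := le_pre_ltr h.mem h.zero h.rA hv m f hf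
    exact ⟨h1, f', le_Cmp m f' h2, h3⟩
  · obtain ⟨g', hg', e⟩ := h.rr_div hg
    exact ⟨hg.1, g', rr_Cmp (h.rr hg hg' e), e⟩

end Pool.Agent.HIR
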