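import Pool.Agent.P.MP_65ad7c_ag.XC8

open Set Filter Topology Asymptotics
open scoped ComplexConjugate

noncomputable section
namespace Pool.Agent.HIR

variable {n b ν : ℕ} {w : E n} {A B : Gr (E n)} {K T : Finset (Fin n)} {p : Fin n}
  {α : Fin n → ℕ}

theorem cont_XC9 (s : List (E n → ℂ)) (hs : ∀ g ∈ s, An w (g ∘ rho K)) :
    ∀ᶠ y in 𝓝 w, ContinuousAt (fun y => (s.map fun g => ‖g (rho K y)‖).sum) y := by
  induction s with
  | nil => exact Eventually.of_forall fun y => by simpa using continuousAt_const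
  | cons g s ih =>
    filter_upwards [ih fun g hg => hs g (List.mem_cons_of_mem _ hg),
      (hs g List.mem_cons_self).eventually_analyticAt] with y h1 h2
    simp only [List.map_cons, List.sum_cons]
    exact h2.continuousAt.norm.add h1

theorem sum_XC9 (t : (E n → ℂ) → E n → ℂ) (s : List (E n → ℂ))
    (hs : ∀ g ∈ s, g ∘ bet T p =ᶠ[𝓝 w] co p ^ ν * t g) :
    ∀ᶠ y in 𝓝 w, (s.map fun g => ‖g (bet T p y)‖).sum =
      ‖y p‖ ^ ν * ((s.map t).map fun g => ‖g y‖).sum := by
  induction s with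
  | nil => exact Eventually.of_forall fun y => by simp
  | cons g s ih =>
    filter_upwards [ih fun g hg => hs g (List.mem_cons_of_mem _ hg), hs g List.mem_cons_self]
      with y h1 h2
    have h3 : g (bet T p y) = y p ^ ν * t g y := h2
    simp only [List.map_cons, List.sum_cons]
    rw [h1, h3, norm_mul, norm_pow, mul_add]

theorem mon_XC9 (p : Fin n) (k : ℕ) (y : E n) : mon (Pi.single p k) y = y p ^ k := by
  unfold mon
  rw [Finset.prod_eq_single p]
  · rw [Pi.single_eq_same]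
  · intro i _ hi
    rw [Pi.single_eq_of_ne hi, pow_zero]
  · intro h
    exact absurd (Finset.mem_univ p) h

theorem Stp.dom (h : Stp w A B K T p b α ν) :
    Dom w (ltr A T p w) (ltr B T p w) K b (nex α T p w ν b) ν := by
  refine dom_In h.pos (lr_ltr B T p w) h.wK ?_
  rintro ⟨m, f'⟩ ⟨hf', f, hf, e⟩
  obtain ⟨s, hs, hO⟩ := h.li.dom m f hf
  have hpre : ∀ g ∈ s, ∃ g', ltr B T p w ν g' ∧ g ∘ bet T p =ᶠ[𝓝 w] co p ^ ν * g' :=
    fun g hg => (le_pre_ltr h.mem h.zero h.rB h.van ν g (hs g hg)).2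
  choose! t ht1 ht2 using hpre
  obtain ⟨u, hu, -, hue⟩ := mon_nex (α := α) h.mem h.zero h.le
  have hmem : ∀ g ∈ s.map t, ltr B T p w ν g := by
    intro g hg
    obtain ⟨g0, h0, rfl⟩ := List.mem_map.1 hg
    exact ht1 g0 h0
  refine ⟨s.map t, hmem, ?_⟩
  have hρ := tendsto_rho h.wK
  have h1 := hO.comp_tendsto (an_bet T p w).continuousAt.tendsto
  have hp : ∀ y : E n, rho K y p = y p := fun y => if_neg h.out
  have hU : (fun y => ‖u y‖ ^ m) =O[𝓝 w] fun _ => (1 : ℝ) :=
    (hu.continuousAt.norm.pow m).tendsto.isBigO_one ℝ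
  refine canc_bigO (α := Pi.single p (m * b)) ?_ ?_ ?_
  · filter_upwards [(An.rho hf' h.wK).eventually_analyticAt] with y hy
    exact hy.continuousAt.norm.pow b
  · filter_upwards [cont_XC9 (s.map t) fun g hg => An.rho ((lr_ltr B T p w).an _ _ (hmem g hg)) h.wK]
      with y hy
    exact ((an_mon _ y).continuousAt.norm.mul hy).pow m
  · have h2 := hU.mul (isBigO_refl (fun y => ‖mon (Pi.single p (m * b)) y‖ *
      (‖mon (nex α T p w ν b) y‖ * ((s.map t).map fun g => ‖g (rho K y)‖).sum) ^ m) (𝓝 w))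
    simp only [one_mul] at h2
    refine IsBigO.trans (h1.congr' ?_ ?_) h2
    · filter_upwards [hρ.eventually e] with y hy
      have h3 : f (bet T p (rho K y)) = rho K y p ^ m * f' (rho K y) := hy
      simp only [Function.comp_apply]
      rw [rho_bet h.sub h.out, h3, hp, mon_XC9, norm_mul, mul_pow, norm_pow, norm_pow, ← pow_mul]
    · filter_upwards [hρ.eventually (sum_XC9 t s ht2)] with y hy
      have h3 : y p ^ ν * mon α (bet T p y) = y p ^ b * (u y * mon (nex α T p w ν b) y) :=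
        congrFun hue y
      have h4 := congrArg norm h3
      simp only [norm_mul, norm_pow] at h4
      simp only [Function.comp_apply, rho_bet h.sub h.out]
      rw [hy, hp, mon_XC9, norm_pow, ← mul_assoc, mul_comm ‖mon α (bet T p y)‖, h4]
      ring

/-- the invariant persists -/
theorem lstep (hb : 0 < b) (hp : p ∈ T) (hw : w p = 0) (hK : K ⊆ T) (hA : LR (bet T p w) A)
    (hB : LR (bet T p w) B) (hl : LI (bet T p w) A B K b α ν) (hv : VanC (bet T p w) T B)
    (hs : LSg w (ltr A T p w)) :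
    b ≤ ∑ j ∈ T, α j + ν ∧ LI w (ltr A T p w) (ltr B T p w) K b (nex α T p w ν b) ν := by
  obtain ⟨h1, h2⟩ := lpk hl.pk hK hA hs
  have h : Stp w A B K T p b α ν := ⟨hb, hp, h1, hw, hK, hs.zero h2, hA, hB, hl, hv⟩
  exact ⟨h.le, h2, h.sup, h.dom, h.res, ltr_mono hl.le, h.cmp⟩

end Pool.Agent.HIR
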