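import Pool.Agent.P.MP_65ad7c_ag.XB2

open Set Filter Topology Asymptotics
open scoped ComplexConjugate

noncomputable section
namespace Pool.Agent.HIR

variable {n m b ν : ℕ} {z : E n} {A B : Gr (E n)} {L : Set (ℕ × (E n → ℂ))} {g : E n → ℂ}
  {K : Finset (Fin n)} {α : Fin n → ℕ}

theorem tendsto_star_XD1 (z : E n) : Tendsto (star : E n → E n) (𝓝 (star z)) (𝓝 z) := by
  have h := (continuous_star (R := E n)).tendsto (star z)
  rwa [star_star] at h

theorem cf_mul_XD1 (f g : E n → ℂ) : cf (f * g) = cf f * cf g := by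
  funext w
  simp only [cf, Pi.mul_apply, map_mul]

theorem cf_add_XD1 (f g : E n → ℂ) : cf (f + g) = cf f + cf g := by
  funext w
  simp only [cf, Pi.add_apply, map_add]

theorem cf_zero_XD1 : cf (0 : E n → ℂ) = 0 := by
  funext w
  simp only [cf, Pi.zero_apply, map_zero]

theorem cf_congr_XD1 {f : E n → ℂ} (h : f =ᶠ[𝓝 z] g) : cf f =ᶠ[𝓝 (star z)] cf g := by
  filter_upwards [(tendsto_star_XD1 z).eventually h] with w hw
  simp only [cf, hw]

theorem cf_congr'_XD1 {f : E n → ℂ} (h : f =ᶠ[𝓝 (star z)] g) : cf f =ᶠ[𝓝 z] cf g := by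
  have h1 := cf_congr_XD1 h
  rwa [star_star] at h1

theorem an_cf'_XD1 (h : An (star z) g) : An z (cf g) := by
  have h1 := an_cf h
  rwa [star_star] at h1

theorem cf_co_XD1 (i : Fin n) : cf (co i) = co i := by
  funext w
  simp [cf, co]

theorem cf_mon_XD1 (α : Fin n → ℕ) : cf (mon α) = mon α := by
  funext w
  simp [cf, mon]

theorem rho_star_XD1 (K : Finset (Fin n)) (w : E n) : rho K (star w) = star (rho K w) := by
  funext i
  by_cases h : i ∈ K <;> simp [rho, h]

theorem cf_rho_XD1 (f : E n → ℂ) (K : Finset (Fin n)) : cf (f ∘ rho K) = cf f ∘ rho K := by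
  funext w
  simp only [cf, Function.comp_apply, rho_star_XD1]

theorem bigO_cf_XD1 {f : E n → ℂ} (h : f =O[𝓝 z] g) : cf f =O[𝓝 (star z)] cf g := by
  have h1 := (h.comp_tendsto (tendsto_star_XD1 z)).norm_norm
  refine IsBigO.of_norm_norm (h1.congr (fun w => ?_) fun w => ?_) <;>
    simp only [cf, Function.comp_apply, Complex.norm_conj]

theorem in_cf_XD1 {f : E n → ℂ} (h : LIn z L m f) :
    LIn (star z) ((fun q => (q.1, cf q.2)) '' L) m (cf f) := by
  induction h with
  | gen h => exact In.gen ⟨_, h, rfl⟩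
  | hol h => exact In.hol (an_cf h)
  | anti _ ih => exact In.anti ih
  | mul _ _ ih ih' => rw [cf_mul_XD1]; exact In.mul ih ih'
  | add _ _ ih ih' => rw [cf_add_XD1]; exact In.add ih ih'
  | zero => rw [cf_zero_XD1]; exact In.zero
  | congr _ e ih => exact In.congr ih (cf_congr_XD1 e)

theorem cA_cA (A : Gr (E n)) : cA (cA A) = A := by
  funext m h
  simp only [cA, cf_cf]

theorem lr_cA (hA : LR z A) : LR (star z) (cA A) := by
  refine ⟨fun m f h => ?_, fun f h => hA.hol _ (an_cf'_XD1 h), fun m f h => hA.anti _ _ h,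
    fun m m' f g h h' => ?_, fun m f g h h' => ?_, fun m => ?_,
    fun m f g h e => hA.congr _ _ _ h (cf_congr'_XD1 e)⟩
  · have h1 := an_cf (hA.an _ _ h)
    rwa [cf_cf] at h1
  · show A _ (cf (f * g))
    rw [cf_mul_XD1]
    exact hA.mul _ _ _ _ h h'
  · show A _ (cf (f + g))
    rw [cf_add_XD1]
    exact hA.add _ _ _ h h'
  · show A _ (cf 0)
    rw [cf_zero_XD1]
    exact hA.zero _

theorem cA_le (h : Le A B) : Le (cA A) (cA B) := by
  exact fun m f hf => h m (cf f) hf

theorem cA_top (z : E n) : cA (top z) = top (star z) := by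
  funext m f
  refine propext ⟨fun h => ?_, fun h => an_cf'_XD1 h⟩
  have h1 := an_cf (z := z) (f := cf f) h
  rwa [cf_cf] at h1

theorem cA_In (z : E n) (L : Set (ℕ × (E n → ℂ))) :
    cA (LIn z L) = LIn (star z) ((fun q => (q.1, cf q.2)) '' L) := by
  funext m f
  refine propext ⟨fun h => ?_, fun h => ?_⟩
  · have h1 := in_cf_XD1 (z := z) (L := L) (f := cf f) h
    rwa [cf_cf] at h1
  · have h1 := in_cf_XD1 h
    rw [star_star, image_image] at h1
    simp only [cf_cf, Prod.mk.eta, image_id'] at h1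
    exact h1

theorem LSg.cA (h : LSg z A) : LSg (star z) (cA A) := by
  intro m f hf
  have h1 := (h m (cf f) hf).cf
  rwa [cf_cf] at h1

theorem Dif.cA {i : Fin n} (h : Dif i A) : Dif i (cA A) := by
  intro m f hf
  show A m (cf (pd i f))
  rw [← pd_cf]
  exact h m (cf f) hf

theorem PK.cA (h : PK A K) : PK (cA A) K := by
  refine ⟨fun i hi => ?_, fun i hi => (h.der i hi).cA⟩
  show A 1 (cf (HIR.co i))
  rw [cf_co_XD1]
  exact h.co i hi

theorem rr_cA (h : g ∈ RR z A K b α) : cf g ∈ RR (star z) (cA A) K b α := by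
  refine ⟨an_cf h.1, ?_, ?_⟩
  · rw [← cf_rho_XD1]
    exact cf_congr_XD1 h.2.1
  · show A b (cf (mon α * cf g))
    rw [cf_mul_XD1, cf_mon_XD1, cf_cf]
    exact h.2.2

theorem Div.cA (h : Div z A K b α) : Div (star z) (cA A) K b α := by
  intro c hc
  have h1 := bigO_cf_XD1 (h (cf c) hc)
  rwa [cf_rho_XD1, cf_cf, cf_mon_XD1] at h1

theorem ResLE.cA (h : ResLE z A K b α ν) : ResLE (star z) (cA A) K b α ν := by
  obtain ⟨g, hg, hn⟩ := h
  refine ⟨cf g, rr_cA hg, fun ho => hn ?_⟩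
  have h1 := ho.cf
  rwa [star_star, cf_cf] at h1

theorem cmp_le_XD1 (hA : LR z A) :
    Le (Cmp (star z) (cA A) K b α ν) (cA (Cmp z A K b α ν)) := by
  refine Cmp_le (lr_cA (lr_Cmp hA)) (fun i => (dif_Cmp hA i).cA) (cA_le le_Cmp) fun g hg => ?_
  have h1 := rr_cA hg
  rw [star_star, cA_cA] at h1
  exact rr_Cmp h1

theorem cA_Cmp (hA : LR z A) : cA (Cmp z A K b α ν) = Cmp (star z) (cA A) K b α ν := by
  refine Le.antisymm ?_ (cmp_le_XD1 hA)
  have h1 := cA_le (cmp_le_XD1 (K := K) (b := b) (α := α) (ν := ν) (lr_cA hA))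
  rwa [star_star, cA_cA, cA_cA] at h1

end Pool.Agent.HIR
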