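import Pool.Agent.P.MP_65ad7c_ag.XA0
import Pool.Agent.P.MP_65ad7c_ag.HDefs

open Set Filter Topology Asymptotics
open scoped ComplexConjugate
open Pool.Agent.HT (Amb proj cj IsChart IsSNC)

noncomputable section
namespace Pool.Agent.HIR

variable {n M : ℕ}

/-- `φ` is a holomorphic chart of `X` near `z`, and `φ z = x` -/
def Pt (X : Set (Amb M)) (φ : E n → Amb M) (z : E n) (x : Amb M) : Prop :=
  ∃ O g, IsChart X O g ∧ φ = proj ∘ g ∧ z ∈ O ∧ φ z = x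

/-- holomorphic germs on `X` -/
def Hol (n : ℕ) (X : Set (Amb M)) (x : Amb M) (f : Amb M → ℂ) : Prop :=
  ∀ (φ : E n → Amb M) z, Pt X φ z x → An z (f ∘ φ)

/-- the conjugate chart -/
def cφ (φ : E n → Amb M) (z : E n) : Amb M := cj M (φ (star z))

/-- the conjugate function -/
def cF (f : Amb M → ℂ) (x : Amb M) : ℂ := conj (f (cj M x))

/-- `f` vanishes on `D` near `x` -/
def VanD (D : Set (Amb M)) (x : Amb M) (f : Amb M → ℂ) : Prop := ∀ᶠ y in 𝓝[D] x, f y = 0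

/-- in the chart `φ` the set `C` is the coordinate subspace `T` -/
def Sub (C : Set (Amb M)) (φ : E n → Amb M) (z : E n) (T : Finset (Fin n)) : Prop :=
  ∀ᶠ y in 𝓝 z, φ y ∈ C ↔ ∀ i ∈ T, y i = 0

/-- in the chart `φ` the set `D` is the coordinate hyperplane `i` -/
def Co (D : Set (Amb M)) (φ : E n → Amb M) (z : E n) (i : Fin n) : Prop :=
  ∀ᶠ y in 𝓝 z, φ y ∈ D ↔ y i = 0

/-- `C` lies in `D` near `x` -/
def Cin (C D : Set (Amb M)) (x : Amb M) : Prop := ∀ᶠ y in 𝓝[C] x, y ∈ D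

/-- `ε` is a reduced local equation of `D` -/
def Eq1 (n : ℕ) (X D : Set (Amb M)) (x : Amb M) (ε : Amb M → ℂ) : Prop :=
  Hol n X x ε ∧ (∀ᶠ y in 𝓝[X] x, ε y = 0 ↔ y ∈ D) ∧
    ∀ (φ : E n → Amb M) z, Pt X φ z x → ¬ Ord z 2 (ε ∘ φ)

/-- families of graded algebras of germs -/
abbrev Alg (M : ℕ) := Amb M → Gr (Amb M)

/-- the algebra in a chart -/
def loc (G : Alg M) (φ : E n → Amb M) (w : E n) : Gr (E n) :=
  fun m h => ∃ f, G (φ w) m f ∧ f ∘ φ =ᶠ[𝓝 w] h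

/-- projective manifolds with a normal crossing divisor, defined over the reals -/
structure Sp (n : ℕ) where
  M : ℕ
  X : Set (Amb M)
  D : ℕ → Set (Amb M)
  r : ℕ
  snc : IsSNC n X D
  fin : ∀ j, r ≤ j → D j = ∅
  cjX : MapsTo (cj M) X X
  cjD : ∀ j, MapsTo (cj M) (D j) (D j)

open Classical in
/-- the active divisors through `x` -/
def Sp.J (S : Sp n) (r₀ : ℕ) (x : Amb S.M) : Finset ℕ :=
  (Finset.Ico r₀ S.r).filter fun j => x ∈ S.D j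

/-- Rees algebras on `S` -/
abbrev GR (S : Sp n) (G : Alg S.M) : Prop := ∀ x ∈ S.X, Rees (𝓝[S.X] x) (Hol n S.X x) (G x)

/-- invariant under conjugation -/
def CjA (S : Sp n) (G : Alg S.M) : Prop := ∀ x ∈ S.X, ∀ m f, G x m f → G (cj S.M x) m (cF f)

/-- the singular locus -/
def Sg (S : Sp n) (G : Alg S.M) : Set (Amb S.M) :=
  {x | x ∈ S.X ∧ ∀ (φ : E n → Amb S.M) z, Pt S.X φ z x → LSg z (loc G φ z)}

/-- locally finitely generated, real Rees algebras -/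
structure Good (S : Sp n) (G : Alg S.M) (μ : ℕ) : Prop where
  pos : 1 ≤ μ
  rees : GR S G
  fg : ∀ (φ : E n → Amb S.M) z x, Pt S.X φ z x → LFg (loc G φ) μ z
  rl : CjA S G

/-- inclusion of algebras -/
def GLe (S : Sp n) (G H : Alg S.M) : Prop := ∀ x ∈ S.X, Le (G x) (H x)

/-- admissible centres -/
structure Ctr (S : Sp n) (C : Set (Amb S.M)) : Prop where
  closed : IsClosed C
  sub : C ⊆ S.X
  rl : MapsTo (cj S.M) C C
  chart : ∃ s, ∀ x ∈ C, ∃ (φ : E n → Amb S.M) (z : E n) (T : Finset (Fin n)), Pt S.X φ z x ∧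
    T.card = s ∧ Sub C φ z T ∧ ∀ j, x ∈ S.D j → ∃ i, Co (S.D j) φ z i

/-- blow-ups -/
structure Bl (S : Sp n) where
  S' : Sp n
  C : Set (Amb S.M)
  π : Amb S'.M → Amb S.M
  ctr : Ctr S C
  cont : Continuous π
  maps : MapsTo π S'.X S.X
  rl : ∀ x, π (cj S'.M x) = cj S.M (π x)
  inj : InjOn π (S'.X \ π ⁻¹' C)
  surj : SurjOn π S'.X (S.X \ C)
  off : ∀ x' ∈ S'.X, π x' ∉ C → ∀ (φ : E n → Amb S.M) z, Pt S.X φ z (π x') →
    ∃ φ', Pt S'.X φ' z x' ∧ π ∘ φ' =ᶠ[𝓝 z] φ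
  on : ∀ x' ∈ S'.X, π x' ∈ C → ∀ (φ : E n → Amb S.M) z T, Pt S.X φ z (π x') → Sub C φ z T →
    ∃ φ' w p, p ∈ T ∧ w p = 0 ∧ bet T p w = z ∧ Pt S'.X φ' w x' ∧ π ∘ φ' =ᶠ[𝓝 w] φ ∘ bet T p
  r : S'.r = S.r + 1
  exc : S'.D S.r = S'.X ∩ π ⁻¹' C
  str : ∀ j < S.r, S'.D j = closure (S'.X ∩ π ⁻¹' (S.D j \ C))

variable {S : Sp n}

/-- the transform of an algebra -/
def tr (β : Bl S) (G : Alg S.M) : Alg β.S'.M := fun x m f => x ∈ β.S'.X →
  In (𝓝[β.S'.X] x) (Hol n β.S'.X x) {q | Hol n β.S'.X x q.2 ∧ ∃ g ε, G (β.π x) q.1 g ∧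
    Eq1 n β.S'.X (β.S'.D S.r) x ε ∧ g ∘ β.π =ᶠ[𝓝[β.S'.X] x] ε ^ q.1 * q.2} m f

/-- `G` can be resolved -/
inductive Res : (S : Sp n) → Alg S.M → Prop
  | done {S : Sp n} {G : Alg S.M} : Sg S G = ∅ → Res S G
  | step {S : Sp n} {G : Alg S.M} (β : Bl S) : β.C ⊆ Sg S G → Res β.S' (tr β G) → Res S G

/-- add the ideals of the divisors in `A` in weight one -/
def addD (S : Sp n) (H : Alg S.M) (A : Finset ℕ) : Alg S.M := fun x m f => x ∈ S.X →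
  In (𝓝[S.X] x) (Hol n S.X x)
    (els (H x) ∪ {1} ×ˢ {g | Hol n S.X x g ∧ ∃ j ∈ A, VanD (S.D j) x g}) m f

section alg
variable (S) (G H : Alg S.M) (r₀ k b : ℕ) (a : ℕ → Amb S.M → ℕ) (ν : ℕ)

/-- charts of maximal contact adapted to the active divisors -/
structure PC (x : Amb S.M) (φ : E n → Amb S.M) (z : E n) (K : Finset (Fin n)) (c : ℕ → Fin n) :
    Prop where
  pt : Pt S.X φ z x
  sg : x ∈ Sg S G
  pk : PK (loc G φ z) K
  card : K.card = k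
  co : ∀ j ∈ S.J r₀ x, Co (S.D j) φ z (c j)
  out : ∀ j ∈ S.J r₀ x, c j ∉ K

/-- maximal contact of codimension `k` -/
def PKg : Prop := ∀ x ∈ Sg S G, ∃ φ z K c, PC S G r₀ k x φ z K c

/-- the old divisors belong to the algebra -/
def Old : Prop := ∀ x ∈ Sg S G, ∀ j < r₀, x ∈ S.D j → ∀ f, Hol n S.X x f → VanD (S.D j) x f →
  G x 1 f

/-- exponents -/
structure Ex : Prop where
  lc : ∀ j, ∀ x ∈ Sg S G ∩ S.D j, ∀ᶠ y in 𝓝[Sg S G ∩ S.D j] x, a j y = a j x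
  rl : ∀ j, ∀ x, a j (cj S.M x) = a j x

/-- the exponents in a chart -/
def ex (x : Amb S.M) (c : ℕ → Fin n) : Fin n → ℕ := exv (S.J r₀ x) c fun j => a j x

/-- the residual order is at most `ν` -/
def Inv0 : Prop := ∀ x ∈ Sg S G, ∃ φ z K c, PC S G r₀ k x φ z K c ∧
  Div z (loc G φ z) K b (ex S r₀ a x c) ∧ ResLE z (loc G φ z) K b (ex S r₀ a x c) ν

/-- the invariant of the loop -/
def Inv : Prop := ∀ x ∈ Sg S G, ∃ φ z K c, PC S G r₀ k x φ z K c ∧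
  LI z (loc G φ z) (loc H φ z) K b (ex S r₀ a x c) ν

/-- the companion algebra -/
def Cp : Alg S.M := fun x m f => Hol n S.X x f ∧ ∀ φ z K c, PC S G r₀ k x φ z K c →
  Cmp z (loc G φ z) K b (ex S r₀ a x c) ν m (f ∘ φ)

/-- the points where the coefficient ideal vanishes -/
def Zi : Set (Amb S.M) := {x | x ∈ Sg S G ∧ ∀ φ z K c, PC S G r₀ k x φ z K c →
  ∀ ν, ¬ ResLE z (loc G φ z) K b 0 ν}

/-- the standing hypotheses -/
structure Std (μ : ℕ) : Prop where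
  good : Good S G μ
  le : r₀ ≤ S.r
  old : Old S G r₀

/-- small sets of divisors have small weight -/
def M1 (ρ : ℕ) : Prop := ∀ x ∈ Sg S G, ∀ B ⊆ S.J r₀ x, B.card < ρ → ∑ j ∈ B, a j x < b

/-- the sets of `ρ` divisors have weight at most `s`, with equality only in `𝒜` -/
def M2 (ρ s : ℕ) (𝒜 : Finset (Finset ℕ)) : Prop := ∀ x ∈ Sg S G, ∀ B ⊆ S.J r₀ x, B.card = ρ →
  ∑ j ∈ B, a j x ≤ s ∧ (∑ j ∈ B, a j x = s → B ∈ 𝒜)

/-- the centre in the monomial case -/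
def MC (A : Finset ℕ) (s : ℕ) : Set (Amb S.M) :=
  {x | x ∈ Sg S G ∧ A ⊆ S.J r₀ x ∧ ∑ j ∈ A, a j x = s}

end alg

open Classical in
/-- the new exponents -/
def tra (β : Bl S) (r₀ b : ℕ) (a : ℕ → Amb S.M → ℕ) (ν : ℕ) : ℕ → Amb β.S'.M → ℕ := fun j x =>
  if j = S.r then
    ∑ i ∈ S.J r₀ (β.π x) with Cin β.C (S.D i) (β.π x), a i (β.π x) + ν - b
  else a j (β.π x)

/-- blow-ups exist -/
def BLX (n : ℕ) : Prop := ∀ (S : Sp n) (C : Set (Amb S.M)), Ctr S C → ∃ β : Bl S, β.C = C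

/-- resolution under maximal contact of codimension `k` -/
def RK (n k : ℕ) : Prop := ∀ (S : Sp n) (G : Alg S.M) (r₀ μ : ℕ), Std S G r₀ μ →
  PKg S G r₀ k → Res S G

/-- a chart upstairs over a point of the centre -/
structure Up (β : Bl S) (x' : Amb β.S'.M) (φ : E n → Amb S.M) (T : Finset (Fin n)) (p : Fin n)
    (φ' : E n → Amb β.S'.M) (w : E n) : Prop where
  pt : Pt S.X φ (bet T p w) (β.π x')
  pt' : Pt β.S'.X φ' w x'
  mem : p ∈ T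
  zero : w p = 0
  sub : Sub β.C φ (bet T p w) T
  comm : β.π ∘ φ' =ᶠ[𝓝 w] φ ∘ bet T p

/-- a chart upstairs off the exceptional divisor -/
structure Off (β : Bl S) (x' : Amb β.S'.M) (φ : E n → Amb S.M) (φ' : E n → Amb β.S'.M)
    (z : E n) : Prop where
  pt : Pt S.X φ z (β.π x')
  pt' : Pt β.S'.X φ' z x'
  out : β.π x' ∉ β.C
  comm : β.π ∘ φ' =ᶠ[𝓝 z] φ

end Pool.Agent.HIR
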