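import Pool.Agent.P.MP_65ad7c_ag.XE0
import Pool.Agent.P.MP_65ad7c_ag.XA6

open Set Filter Topology Asymptotics
open scoped ComplexConjugate
open Pool.Agent.HT (Amb proj cj IsChart IsSNC)

noncomputable section
namespace Pool.Agent.HIR

variable {n M : ℕ} {X C : Set (Amb M)} {φ φ' : E n → Amb M} {z z' : E n} {x : Amb M}
  {τ σ : E n → E n}

theorem sum_ne_XE1 {v : Fin M → ℂ} (hv : v ≠ 0) : ∑ k, v k * conj (v k) ≠ 0 := by
  simp only [Complex.mul_conj, ← Complex.ofReal_sum, Ne, Complex.ofReal_eq_zero,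
    Finset.sum_eq_zero_iff_of_nonneg fun i _ => Complex.normSq_nonneg (v i), Complex.normSq_eq_zero]
  exact fun h => hv (funext fun i => h i (Finset.mem_univ i))

theorem col_XE1 (v : Fin M → ℂ) (k : Fin M) :
    (fun i => proj v (i, k)) = (conj (v k) / ∑ j, v j * conj (v j)) • v := by
  funext i
  show v i * conj (v k) / ∑ j, v j * conj (v j) = _
  rw [Pi.smul_apply, smul_eq_mul]
  ring

theorem cj_cj (x : Amb M) : cj M (cj M x) = x := by
  ext p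
  exact Complex.conj_conj _

theorem cj_proj (v : Fin M → ℂ) : cj M (proj v) = proj (star v) := by
  ext p
  show conj (proj v p) = _
  simp [proj]

theorem proj_smul {c : ℂ} (hc : c ≠ 0) (v : Fin M → ℂ) : proj (c • v) = proj v := by
  ext p
  have : ∀ i j, c * v i * conj (c * v j) = c * conj c * (v i * conj (v j)) := fun i j => by
    rw [map_mul]; ring
  simp only [proj, Pi.smul_apply, smul_eq_mul, this, ← Finset.mul_sum]
  exact mul_div_mul_left _ _ (mul_ne_zero hc ((map_ne_zero _).2 hc))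

theorem proj_eq_iff {v v' : Fin M → ℂ} (hv : v ≠ 0) (hv' : v' ≠ 0) :
    proj v = proj v' ↔ ∃ c : ℂ, c ≠ 0 ∧ v' = c • v := by
  refine ⟨fun h => ?_, fun ⟨c, hc, e⟩ => by rw [e, proj_smul hc]⟩
  obtain ⟨k, hk⟩ := Function.ne_iff.1 hv'
  have ha : conj (v' k) / ∑ j, v' j * conj (v' j) ≠ 0 :=
    div_ne_zero ((map_ne_zero _).2 hk) (sum_ne_XE1 hv')
  have e := col_XE1 v' k
  rw [← h, col_XE1] at e
  have e' : v' = ((conj (v' k) / ∑ j, v' j * conj (v' j))⁻¹ *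
      (conj (v k) / ∑ j, v j * conj (v j))) • v := by
    rw [mul_smul, e, inv_smul_smul₀ ha]
  refine ⟨_, fun h0 => hv' ?_, e'⟩
  rw [e', h0, zero_smul]

theorem cont_proj {v : Fin M → ℂ} (hv : v ≠ 0) : ContinuousAt proj v := by
  have h : ∀ i j, Continuous fun v : Fin M → ℂ => v i * conj (v j) := fun i j =>
    (continuous_apply i).mul (Complex.continuous_conj.comp (continuous_apply j))
  exact (PiLp.continuous_toLp 2 _).continuousAt.comp (continuousAt_pi.2 fun p =>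
    (h p.1 p.2).continuousAt.div (continuous_finsetSum _ fun k _ => h k k).continuousAt
      (sum_ne_XE1 hv))

/-- a column of the projector spans the line -/
theorem proj_col (v : Fin M → ℂ) (k : Fin M) :
    (fun i => proj v (i, k)) = (conj (v k) / ∑ j, v j * conj (v j)) • v := by
  exact col_XE1 v k

theorem proj_diag {v : Fin M → ℂ} (hv : v ≠ 0) (k : Fin M) : proj v (k, k) = 0 ↔ v k = 0 := by
  show v k * conj (v k) / ∑ j, v j * conj (v j) = 0 ↔ _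
  rw [div_eq_zero_iff, or_iff_left (sum_ne_XE1 hv), mul_eq_zero, map_eq_zero, or_self]

theorem map_cj (hC : MapsTo (cj M) C C) (x : Amb M) :
    Filter.map (cj M) (𝓝[C] x) = 𝓝[C] (cj M x) := by
  have h : ∀ y, Filter.map (cj M) (𝓝[C] y) ≤ 𝓝[C] (cj M y) := fun y =>
    (cj M).continuous.continuousWithinAt.tendsto_nhdsWithin hC
  refine le_antisymm (h x) ?_
  have h1 := map_mono (m := cj M) (h (cj M x))
  rwa [Filter.map_map, show (cj M ∘ cj M : Amb M → Amb M) = id from funext cj_cj, Filter.map_id,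
    cj_cj] at h1

theorem Pt.mem (h : Pt X φ z x) : x ∈ X := by
  obtain ⟨O, g, hc, rfl, hz, rfl⟩ := h
  obtain ⟨W, -, e⟩ := hc.opn O subset_rfl hc.isOpen
  exact (e.subset ⟨z, hz, rfl⟩).1

theorem Pt.eq (h : Pt X φ z x) : φ z = x := by
  obtain ⟨O, g, -, -, -, e⟩ := h
  exact e

theorem Pt.ev (h : Pt X φ z x) : ∀ᶠ w in 𝓝 z, Pt X φ w (φ w) := by
  obtain ⟨O, g, hc, e, hz, -⟩ := h
  filter_upwards [hc.isOpen.mem_nhds hz] with w hw
  exact ⟨O, g, hc, e, hw, rfl⟩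

theorem Pt.cont (h : Pt X φ z x) : Tendsto φ (𝓝 z) (𝓝 x) := by
  obtain ⟨O, g, hc, rfl, hz, rfl⟩ := h
  exact (cont_proj (hc.ne z hz)).comp
    ((hc.hol z hz).differentiableAt (hc.isOpen.mem_nhds hz)).continuousAt

theorem Pt.map (h : Pt X φ z x) : Filter.map φ (𝓝 z) = 𝓝[X] x := by
  refine le_antisymm (tendsto_nhdsWithin_iff.2 ⟨h.cont, h.ev.mono fun w hw => hw.mem⟩)
    fun s hs => ?_
  obtain ⟨O, g, hc, rfl, hz, rfl⟩ := h
  obtain ⟨U, hU, ho, hzU⟩ := mem_nhds_iff.1 (inter_mem (hc.isOpen.mem_nhds hz) (mem_map.1 hs))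
  obtain ⟨W, hW, e⟩ := hc.opn U (fun w hw => (hU hw).1) ho
  refine mem_nhdsWithin.2 ⟨W, hW, (e.subset ⟨z, hzU, rfl⟩).2, fun y hy => ?_⟩
  obtain ⟨w, hw, rfl⟩ := e.superset ⟨hy.2, hy.1⟩
  exact (hU hw).2

theorem Pt.tendsto (h : Pt X φ z x) : Tendsto φ (𝓝 z) (𝓝[X] x) := by
  exact h.map.le

theorem Pt.ev_iff (h : Pt X φ z x) {P : Amb M → Prop} :
    (∀ᶠ y in 𝓝[X] x, P y) ↔ ∀ᶠ w in 𝓝 z, P (φ w) := by
  rw [← h.map, eventually_map]

theorem Pt.ev_sub (h : Pt X φ z x) (hC : C ⊆ X) {P : Amb M → Prop} :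
    (∀ᶠ y in 𝓝[C] x, P y) ↔ ∀ᶠ w in 𝓝 z, φ w ∈ C → P (φ w) := by
  rw [← h.ev_iff (P := fun y => y ∈ C → P y), eventually_nhdsWithin_iff, eventually_nhdsWithin_iff]
  exact eventually_congr (Eventually.of_forall fun y =>
    ⟨fun h1 _ h2 => h1 h2, fun h1 h2 => h1 (hC h2) h2⟩)

theorem Pt.inv (h : Pt X φ z x) : ∃ ι : Amb M → E n, ∀ᶠ w in 𝓝 z, ι (φ w) = w := by
  obtain ⟨O, g, hc, rfl, hz, -⟩ := h
  refine ⟨Function.invFunOn (proj ∘ g) O, ?_⟩
  filter_upwards [hc.isOpen.mem_nhds hz] with w hw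
  exact hc.inj.leftInvOn_invFunOn hw

theorem Pt.lift (h : Pt X φ z x) (g : E n → ℂ) : ∃ f : Amb M → ℂ, f ∘ φ =ᶠ[𝓝 z] g := by
  obtain ⟨ι, hι⟩ := h.inv
  exact ⟨g ∘ ι, hι.mono fun w hw => congrArg g hw⟩

theorem Pt.comp (h : Pt X φ z x) (hb : Bi τ σ z z') : Pt X (φ ∘ σ) z' x := by
  obtain ⟨O, g, hc, rfl, hz, rfl⟩ := h
  obtain ⟨U, hU, ho, hzU⟩ := mem_nhds_iff.1
    (inter_mem hb.symm.ev (hb.symm.tendsto (hc.isOpen.mem_nhds hz)))
  have b : ∀ w ∈ U, Bi σ τ w (σ w) := fun w hw => (hU hw).1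
  have m : ∀ w ∈ U, σ w ∈ O := fun w hw => (hU hw).2
  have d : ∀ w ∈ U, DifferentiableAt ℂ g (σ w) := fun w hw =>
    (hc.hol _ (m w hw)).differentiableAt (hc.isOpen.mem_nhds (m w hw))
  refine ⟨U, g ∘ σ, ⟨ho, fun w hw =>
    ((d w hw).comp w (b w hw).an.differentiableAt).differentiableWithinAt,
    fun w hw => hc.ne _ (m w hw), fun w hw v c hv => ?_, fun w hw w' hw' e => ?_,
    fun O' hO' ho' => ?_⟩, rfl, hzU, congrArg (proj ∘ g) hb.map'⟩
  · rw [fderiv_comp w (d w hw) (b w hw).an.differentiableAt] at hv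
    have h0 : fderiv ℂ σ w v = 0 := hc.imm _ (m w hw) _ c hv
    rw [← (b w hw).left_d v, h0, map_zero]
  · rw [← (b w hw).map', ← (b w' hw').map', hc.inj (m w hw) (m w' hw') e]
  · obtain ⟨W, hW, e⟩ := hc.opn (σ '' O') (by
      rintro _ ⟨w, hw, rfl⟩
      exact m w (hO' hw)) (isOpen_iff_mem_nhds.2 (by
      rintro _ ⟨w, hw, rfl⟩
      rw [← (b w (hO' hw)).map_nhds]
      exact image_mem_map (ho'.mem_nhds hw)))
    exact ⟨W, hW, by rw [← e, image_image]; rfl⟩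

theorem conj_XE1 {O : Set (E n)} {f : E n → Fin M → ℂ} (h : IsChart X O f)
    (hZ : MapsTo (cj M) X X) : IsChart X (star ⁻¹' O) (star ∘ f ∘ star) := by
  have hd : ∀ z ∈ star ⁻¹' O, HasFDerivAt (star ∘ f ∘ star)
      ((starL ℂ).toContinuousLinearMap.comp <|
        (fderiv ℂ f (star z)).comp (starL ℂ).toContinuousLinearMap) z := fun z hz => by
    have := ((h.hol _ hz).differentiableAt (h.isOpen.mem_nhds hz)).hasFDerivAt.star_star
    rwa [star_star] at this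
  have hp : ∀ z, (proj ∘ star ∘ f ∘ star) z = cj M ((proj ∘ f) (star z)) := fun z =>
    (cj_proj _).symm
  refine ⟨h.isOpen.preimage continuous_star,
    fun z hz => (hd z hz).differentiableAt.differentiableWithinAt,
    fun z hz => star_ne_zero.2 (h.ne _ hz), fun z hz v c hv => ?_, fun z hz w hw e => ?_,
    fun O' hO' ho => ?_⟩
  · rw [(hd z hz).fderiv] at hv
    have h1 : star (fderiv ℂ f (star z) (star v)) = c • star (f (star z)) := hv
    have h2 : fderiv ℂ f (star z) (star v) = star c • f (star z) := by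
      rw [← star_star (fderiv ℂ f (star z) (star v)), h1, star_smul, star_star]
    exact star_eq_zero.1 (h.imm _ hz _ _ h2)
  · rw [hp, hp] at e
    exact star_injective (h.inj hz hw (Function.LeftInverse.injective cj_cj e))
  · obtain ⟨W, hW, e⟩ := h.opn (star ⁻¹' O') (fun z hz => by simpa using hO' hz)
      (ho.preimage continuous_star)
    refine ⟨cj M ⁻¹' W, hW.preimage (cj M).continuous, ?_⟩
    ext x
    constructor
    · rintro ⟨z, hz, rfl⟩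
      have h1 : (proj ∘ f) (star z) ∈ X ∩ W := e ▸ ⟨star z, by simpa using hz, rfl⟩
      rw [hp]
      exact ⟨hZ h1.1, by rw [mem_preimage, cj_cj]; exact h1.2⟩
    · intro hx
      obtain ⟨z, hz, e'⟩ : cj M x ∈ (proj ∘ f) '' (star ⁻¹' O') := e ▸ ⟨hZ hx.1, hx.2⟩
      exact ⟨star z, hz, by rw [hp, star_star, e', cj_cj]⟩

theorem Pt.bar (h : Pt X φ z x) (hX : MapsTo (cj M) X X) : Pt X (cφ φ) (star z) (cj M x) := by
  obtain ⟨O, g, hc, rfl, hz, rfl⟩ := h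
  refine ⟨_, _, conj_XE1 hc hX, funext fun w => cj_proj _, ?_, ?_⟩
  · rwa [mem_preimage, star_star]
  · rw [cφ, star_star]

theorem Pt.rep (h : Pt X φ z x) : ∃ g : E n → Fin M → ℂ, φ = proj ∘ g ∧ AnalyticAt ℂ g z ∧
    g z ≠ 0 ∧ ∀ (v : E n) (c : ℂ), fderiv ℂ g z v = c • g z → v = 0 := by
  obtain ⟨O, g, hc, e, hz, -⟩ := h
  exact ⟨g, e, an_of_diffOn_pi hc.isOpen hc.hol z hz, hc.ne z hz, hc.imm z hz⟩

/-- a chart of `X` is a chart of any set that agrees with `X` near the point -/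
theorem Pt.congr_set {X' : Set (Amb M)} (h : Pt X φ z x) (e : ∀ᶠ y in 𝓝 x, y ∈ X ↔ y ∈ X') :
    Pt X' φ z x := by
  obtain ⟨V, hV, hVo, hxV⟩ := mem_nhds_iff.1 e
  have h1 : ∀ᶠ w in 𝓝 z, φ w ∈ V := h.cont (hVo.mem_nhds hxV)
  obtain ⟨O, g, hc, rfl, hz, rfl⟩ := h
  obtain ⟨U, hU, ho, hzU⟩ := mem_nhds_iff.1 (inter_mem (hc.isOpen.mem_nhds hz) h1)
  have s : U ⊆ O := fun w hw => (hU hw).1
  refine ⟨U, g, ⟨ho, hc.hol.mono s, fun w hw => hc.ne w (s hw), fun w hw => hc.imm w (s hw),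
    hc.inj.mono s, fun O' hO' ho' => ?_⟩, rfl, hzU, rfl⟩
  obtain ⟨W, hW, e'⟩ := hc.opn O' (hO'.trans s) ho'
  refine ⟨W ∩ V, hW.inter hVo, Subset.antisymm ?_ fun y hy =>
    e'.superset ⟨(hV hy.2.2).2 hy.1, hy.2.1⟩⟩
  rintro _ ⟨w, hw, rfl⟩
  have h2 := e'.subset ⟨w, hw, rfl⟩
  have h3 : (proj ∘ g) w ∈ V := (hU (hO' hw)).2
  exact ⟨(hV h3).1 h2.1, h2.2, h3⟩

end Pool.Agent.HIR
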