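import Pool.Agent.P.MP_65ad7c_ag.XE1

open Set Filter Topology Asymptotics
open scoped ComplexConjugate
open Pool.Agent.HT (Amb proj cj IsChart IsSNC)

noncomputable section
namespace Pool.Agent.HIR

variable {n M : ℕ} {X : Set (Amb M)} {φ φ' : E n → Amb M} {z z' : E n} {x : Amb M}

theorem an_app_XE2 {e : ℕ} {g : E e → Fin M → ℂ} {w : E e} (hg : AnalyticAt ℂ g w) (k : Fin M) :
    AnalyticAt ℂ (fun y => g y k) w :=
  ((ContinuousLinearMap.proj (R := ℂ) (φ := fun _ : Fin M => ℂ) k).analyticAt (g w)).comp hg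

theorem an_nrm_XE2 {e : ℕ} {g : E e → Fin M → ℂ} {w : E e} (hg : AnalyticAt ℂ g w) {k : Fin M}
    (hk : g w k ≠ 0) : AnalyticAt ℂ (fun y => (g y k)⁻¹ • g y) w :=
  ((an_app_XE2 hg k).inv hk).smul hg

theorem d_nrm_XE2 {e : ℕ} {g : E e → Fin M → ℂ} {w : E e} (hg : DifferentiableAt ℂ g w)
    {k : Fin M} (hk : g w k ≠ 0) (v : E e) :
    fderiv ℂ (fun y => (g y k)⁻¹ • g y) w v =
      (g w k)⁻¹ • fderiv ℂ g w v - ((g w k ^ 2)⁻¹ * fderiv ℂ g w v k) • g w := by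
  have h0 := hg.hasFDerivAt
  have h1 : HasFDerivAt (fun y => g y k)
      ((ContinuousLinearMap.proj (R := ℂ) (φ := fun _ : Fin M => ℂ) k).comp (fderiv ℂ g w)) w :=
    (ContinuousLinearMap.proj (R := ℂ) (φ := fun _ : Fin M => ℂ) k).hasFDerivAt.comp w h0
  have h2 := (hasDerivAt_inv hk).comp_hasFDerivAt w h1
  have h3 := h2.smul h0
  have h4 : HasFDerivAt (fun y => (g y k)⁻¹ • g y) _ w := h3
  rw [h4.fderiv]
  ext i
  simp
  ring

theorem nrm_smul_XE2 {c : ℂ} (hc : c ≠ 0) (u : Fin M → ℂ) (k : Fin M) :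
    ((c • u) k)⁻¹ • (c • u) = (u k)⁻¹ • u := by
  rw [smul_smul, Pi.smul_apply, smul_eq_mul, mul_inv, mul_comm c⁻¹, mul_assoc,
    inv_mul_cancel₀ hc, mul_one]

theorem ev_ne_XE2 {e : ℕ} {g : E e → Fin M → ℂ} {w : E e} (hg : AnalyticAt ℂ g w) {k : Fin M}
    (hk : g w k ≠ 0) : ∀ᶠ y in 𝓝 w, g y k ≠ 0 :=
  (an_app_XE2 hg k).continuousAt.eventually_ne hk

/-- a projective immersion has a holomorphic left inverse -/
theorem exists_left_inv {g : E n → Fin M → ℂ} (hg : AnalyticAt ℂ g z) (h0 : g z ≠ 0)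
    (hi : ∀ (v : E n) (c : ℂ), fderiv ℂ g z v = c • g z → v = 0) :
    ∃ (k : Fin M) (F : (Fin M → ℂ) → E n), g z k ≠ 0 ∧ AnalyticAt ℂ F ((g z k)⁻¹ • g z) ∧
      ∀ᶠ w in 𝓝 z, F ((g w k)⁻¹ • g w) = w := by
  obtain ⟨k, hk⟩ : ∃ k, g z k ≠ 0 := Function.ne_iff.1 h0
  set G : E n → Fin M → ℂ := fun y => (g y k)⁻¹ • g y with hG
  have hGa : AnalyticAt ℂ G z := an_nrm_XE2 hg hk
  have hinj : ∀ v, fderiv ℂ G z v = 0 → v = 0 := by
    intro v hv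
    rw [hG, d_nrm_XE2 hg.differentiableAt hk, sub_eq_zero] at hv
    refine hi v (g z k * ((g z k ^ 2)⁻¹ * fderiv ℂ g z v k)) ?_
    rw [← smul_smul, ← hv, smul_smul, mul_inv_cancel₀ hk, one_smul]
  obtain ⟨L, hL⟩ := LinearMap.exists_leftInverse_of_injective
    (fderiv ℂ G z : E n →ₗ[ℂ] (Fin M → ℂ)) (LinearMap.ker_eq_bot'.2 hinj)
  set L' : (Fin M → ℂ) →L[ℂ] E n := LinearMap.toContinuousLinearMap L with hL'
  have hτ : AnalyticAt ℂ (L' ∘ G) z := (L'.analyticAt _).comp hGa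
  have hd : ∀ v, fderiv ℂ (L' ∘ G) z v = 0 → v = 0 := by
    intro v hv
    rw [fderiv_comp z L'.differentiableAt hGa.differentiableAt, L'.fderiv] at hv
    have h1 : L (fderiv ℂ G z v) = v := LinearMap.congr_fun hL v
    rw [← h1]
    exact hv
  obtain ⟨σ, hσ⟩ := bi_of_inj hτ hd
  refine ⟨k, σ ∘ L', hk, ?_, hσ.left⟩
  exact AnalyticAt.comp (x := G z) hσ.an' (L'.analyticAt _)

theorem factor_XE2 {e : ℕ} {g : E e → Fin M → ℂ} {w : E e} (h : Pt X φ z x)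
    (hg : AnalyticAt ℂ g w) (h0 : g w ≠ 0) (hx : proj (g w) = x)
    (hX : ∀ᶠ y in 𝓝 w, proj (g y) ∈ X) :
    ∃ τ : E e → E n, AnalyticAt ℂ τ w ∧ τ w = z ∧ φ ∘ τ =ᶠ[𝓝 w] proj ∘ g := by
  obtain ⟨g0, hφ, ha, hne, himm⟩ := h.rep
  obtain ⟨k, F, hk, hF, hl⟩ := exists_left_inv ha hne himm
  have hx0 : proj (g0 z) = proj (g w) := by
    rw [hx, ← h.eq, hφ]; rfl
  obtain ⟨c, hc, hcw⟩ := (proj_eq_iff hne h0).1 hx0
  have hwk : g w k ≠ 0 := by
    rw [hcw, Pi.smul_apply, smul_eq_mul]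
    exact mul_ne_zero hc hk
  have hN : (g w k)⁻¹ • g w = (g0 z k)⁻¹ • g0 z := by
    rw [hcw]; exact nrm_smul_XE2 hc _ k
  refine ⟨fun y => F ((g y k)⁻¹ • g y), ?_, ?_, ?_⟩
  · refine AnalyticAt.comp (g := F) (f := fun y => (g y k)⁻¹ • g y) ?_ (an_nrm_XE2 hg hwk)
    rw [← hN] at hF
    exact hF
  · show F ((g w k)⁻¹ • g w) = z
    rw [hN]
    exact hl.self_of_nhds
  · have hP : ∀ᶠ p in 𝓝[X] x, ∀ v : Fin M → ℂ, v ≠ 0 → proj v = p →
        φ (F ((v k)⁻¹ • v)) = p := by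
      rw [h.ev_iff]
      filter_upwards [hl, ev_ne_XE2 ha hk] with y hy hyk v hv hp
      have hy0 : g0 y ≠ 0 := fun h1 => hyk (by rw [h1]; rfl)
      have hp' : proj (g0 y) = proj v := by
        rw [hp, hφ]; rfl
      obtain ⟨c', hc', hv'⟩ := (proj_eq_iff hy0 hv).1 hp'
      rw [hv', nrm_smul_XE2 hc', hy]
    have hT : Tendsto (proj ∘ g) (𝓝 w) (𝓝[X] x) := by
      refine tendsto_nhdsWithin_iff.2 ⟨?_, hX⟩
      rw [← hx]
      exact (cont_proj h0).tendsto.comp hg.continuousAt.tendsto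
    filter_upwards [hT.eventually hP, ev_ne_XE2 hg hwk] with y hy hyk
    exact hy (g y) (fun h1 => hyk (by rw [h1]; rfl)) rfl

theorem half_XE2 (h : Pt X φ z x) (h' : Pt X φ' z' x) :
    ∃ τ : E n → E n, AnalyticAt ℂ τ z ∧ τ z = z' ∧ φ' ∘ τ =ᶠ[𝓝 z] φ := by
  obtain ⟨g, hφ, ha, hne, -⟩ := h.rep
  have hx : proj (g z) = x := by
    rw [← h.eq, hφ]; rfl
  have hX : ∀ᶠ y in 𝓝 z, proj (g y) ∈ X := by
    filter_upwards [h.ev] with y hy
    have h1 := hy.mem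
    rw [hφ] at h1
    exact h1
  obtain ⟨τ, h1, h2, h3⟩ := factor_XE2 h' ha hne hx hX
  exact ⟨τ, h1, h2, by rw [hφ]; exact h3⟩

theorem inv_XE2 {τ σ : E n → E n} (h : Pt X φ z x) (hτ : AnalyticAt ℂ τ z) (h1 : τ z = z')
    (hσ : AnalyticAt ℂ σ z') (h2 : σ z' = z) (e1 : φ' ∘ τ =ᶠ[𝓝 z] φ) (e2 : φ ∘ σ =ᶠ[𝓝 z'] φ') :
    ∀ᶠ w in 𝓝 z, σ (τ w) = w := by
  obtain ⟨ι, hι⟩ := h.inv
  have t1 : Tendsto τ (𝓝 z) (𝓝 z') := by
    rw [← h1]; exact hτ.continuousAt.tendsto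
  have t2 : Tendsto σ (𝓝 z') (𝓝 z) := by
    have := hσ.continuousAt.tendsto
    rwa [h2] at this
  filter_upwards [hι, (t2.comp t1).eventually hι, e1, t1.eventually e2] with w a1 a2 a3 a4
  have a2' : ι (φ (σ (τ w))) = σ (τ w) := a2
  have a3' : φ' (τ w) = φ w := a3
  have a4' : φ (σ (τ w)) = φ' (τ w) := a4
  rw [← a2', a4', a3', a1]

/-- transition maps are biholomorphic -/
theorem Pt.trans (h : Pt X φ z x) (h' : Pt X φ' z' x) :
    ∃ τ σ, Bi τ σ z z' ∧ φ' ∘ τ =ᶠ[𝓝 z] φ ∧ φ ∘ σ =ᶠ[𝓝 z'] φ' := by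
  obtain ⟨τ, a1, a2, a3⟩ := half_XE2 h h'
  obtain ⟨σ, b1, b2, b3⟩ := half_XE2 h' h
  exact ⟨τ, σ, ⟨a1, b1, a2, b2, inv_XE2 h a1 a2 b1 b2 a3 b3, inv_XE2 h' b1 b2 a1 a2 b3 a3⟩, a3, b3⟩

/-- the normalised column of a matrix -/
def col_XE2 (k : Fin M) (y : Amb M) : Fin M → ℂ := (y (k, k))⁻¹ • fun i => y (i, k)

theorem col_proj_XE2 {v : Fin M → ℂ} {k : Fin M} (hk : v k ≠ 0) :
    col_XE2 k (proj v) = (v k)⁻¹ • v := by
  have hv : v ≠ 0 := fun h1 => hk (by rw [h1]; rfl)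
  have h1 := proj_col v k
  have h2 : proj v (k, k) = ((conj (v k) / ∑ j, v j * conj (v j)) • v) k := congr_fun h1 k
  have h3 : proj v (k, k) ≠ 0 := fun h => hk ((proj_diag hv k).1 h)
  have hc : (conj (v k) / ∑ j, v j * conj (v j)) ≠ 0 := by
    intro h
    rw [h, zero_smul] at h2
    exact h3 h2
  unfold col_XE2
  rw [h1, h2]
  exact nrm_smul_XE2 hc v k

theorem cont_col_XE2 {k : Fin M} {y : Amb M} (hy : y (k, k) ≠ 0) :
    ContinuousAt (col_XE2 k) y := by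
  have h1 : ∀ p : Fin M × Fin M, Continuous fun y : Amb M => y p := fun p => by fun_prop
  have h2 : Continuous fun y : Amb M => fun i : Fin M => y (i, k) :=
    continuous_pi fun i => h1 (i, k)
  exact ((h1 (k, k)).continuousAt.inv₀ hy).smul h2.continuousAt

/-- an immersion whose image is `X` near the point is a chart -/
theorem pt_of_imm {g : E n → Fin M → ℂ} (hg : AnalyticAt ℂ g z) (h0 : g z ≠ 0)
    (hi : ∀ (v : E n) (c : ℂ), fderiv ℂ g z v = c • g z → v = 0)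
    (hX : Filter.map (proj ∘ g) (𝓝 z) = 𝓝[X] proj (g z)) : Pt X (proj ∘ g) z (proj (g z)) := by
  obtain ⟨k, F, hk, hF, hl⟩ := exists_left_inv hg h0 hi
  set ι : Amb M → E n := F ∘ col_XE2 k with hι
  have hxk : proj (g z) (k, k) ≠ 0 := fun h => hk ((proj_diag h0 k).1 h)
  -- continuity of the inverse near the point
  have hW0 : ∀ᶠ y in 𝓝 (proj (g z)), ContinuousAt ι y := by
    have h1 : Continuous fun y : Amb M => y (k, k) := by fun_prop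
    have h2 : Tendsto (col_XE2 k) (𝓝 (proj (g z))) (𝓝 ((g z k)⁻¹ • g z)) := by
      rw [← col_proj_XE2 hk]
      exact (cont_col_XE2 hxk).tendsto
    filter_upwards [h1.continuousAt.eventually_ne hxk, h2.eventually hF.eventually_analyticAt]
      with y a1 a2
    exact a2.continuousAt.comp (cont_col_XE2 a1)
  obtain ⟨W0, hW0c, hW0o, hW0x⟩ := eventually_nhds_iff.1 hW0
  have hιc : ContinuousOn ι W0 := fun y hy => (hW0c y hy).continuousWithinAt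
  -- a good neighbourhood of z
  have hB : ∀ᶠ w in 𝓝 z, AnalyticAt ℂ g w ∧ g w k ≠ 0 ∧ ι (proj (g w)) = w ∧ proj (g w) ∈ X ∧
      ∀ (v : E n) (c : ℂ), fderiv ℂ g w v = c • g w → v = 0 := by
    have h1 : ∀ᶠ w in 𝓝 z, proj (g w) ∈ X := by
      have : X ∈ Filter.map (proj ∘ g) (𝓝 z) := by
        rw [hX]; exact self_mem_nhdsWithin
      exact this
    have h2 : Tendsto (fun w => (g w k)⁻¹ • g w) (𝓝 z) (𝓝 ((g z k)⁻¹ • g z)) :=
      (an_nrm_XE2 hg hk).continuousAt.tendsto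
    filter_upwards [hg.eventually_analyticAt, ev_ne_XE2 hg hk, hl.eventually_nhds, h1,
      h2.eventually hF.eventually_analyticAt] with w a1 a2 a3 a4 a5
    refine ⟨a1, a2, ?_, a4, ?_⟩
    · show F (col_XE2 k (proj (g w))) = w
      rw [col_proj_XE2 a2]
      exact a3.self_of_nhds
    · intro v c hv
      have d1 : fderiv ℂ (fun y => (g y k)⁻¹ • g y) w v = 0 := by
        rw [d_nrm_XE2 a1.differentiableAt a2, hv, smul_smul, Pi.smul_apply, smul_eq_mul,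
          ← sub_smul]
        have : (g w k)⁻¹ * c - (g w k ^ 2)⁻¹ * (c * g w k) = 0 := by
          field_simp
          ring
        rw [this, zero_smul]
      have d2 : (F ∘ fun y => (g y k)⁻¹ • g y) =ᶠ[𝓝 w] id := a3
      have d3 := d2.fderiv_eq (𝕜 := ℂ)
      rw [fderiv_comp w a5.differentiableAt (an_nrm_XE2 a1 a2).differentiableAt, fderiv_id] at d3
      have d4 := DFunLike.congr_fun d3 v
      rw [ContinuousLinearMap.comp_apply, d1, map_zero] at d4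
      exact d4.symm
  obtain ⟨B, hBp, hBo, hBz⟩ := eventually_nhds_iff.1 hB
  have hne : ∀ w ∈ B, g w ≠ 0 := fun w hw h1 => (hBp w hw).2.1 (by rw [h1]; rfl)
  have hφc : ContinuousOn (proj ∘ g) B := fun w hw =>
    ((cont_proj (hne w hw)).comp (hBp w hw).1.continuousAt).continuousWithinAt
  have him : (proj ∘ g) '' B ∈ 𝓝[X] proj (g z) := by
    rw [← hX]
    exact image_mem_map (hBo.mem_nhds hBz)
  obtain ⟨W1, hW1o, hW1x, hW1s⟩ := mem_nhdsWithin.1 him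
  refine ⟨B ∩ (proj ∘ g) ⁻¹' (W1 ∩ W0), g, ⟨?_, ?_, ?_, ?_, ?_, ?_⟩, rfl, ⟨hBz, hW1x, hW0x⟩, rfl⟩
  · exact hφc.isOpen_inter_preimage hBo (hW1o.inter hW0o)
  · exact fun w hw => (hBp w hw.1).1.differentiableAt.differentiableWithinAt
  · exact fun w hw => hne w hw.1
  · exact fun w hw => (hBp w hw.1).2.2.2.2
  · intro a ha b hb hab
    have h1 : proj (g a) = proj (g b) := hab
    rw [← (hBp a ha.1).2.2.1, h1, (hBp b hb.1).2.2.1]
  · intro O' hO' hO'o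
    refine ⟨W1 ∩ (W0 ∩ ι ⁻¹' O'), hW1o.inter (hιc.isOpen_inter_preimage hW0o hO'o), ?_⟩
    ext y
    constructor
    · rintro ⟨w, hw, rfl⟩
      have hw' := hO' hw
      refine ⟨(hBp w hw'.1).2.2.2.1, hw'.2.1, hw'.2.2, ?_⟩
      show ι (proj (g w)) ∈ O'
      rw [(hBp w hw'.1).2.2.1]
      exact hw
    · rintro ⟨hy, hy1, -, hy2⟩
      obtain ⟨w, hw, rfl⟩ := hW1s ⟨hy1, hy⟩
      refine ⟨w, ?_, rfl⟩
      have h1 : ι (proj (g w)) ∈ O' := hy2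
      rwa [(hBp w hw).2.2.1] at h1

/-- a holomorphic map into `X` is holomorphic in charts -/
theorem Pt.factor {e : ℕ} {g : E e → Fin M → ℂ} {w : E e} (h : Pt X φ z x) (hg : AnalyticAt ℂ g w)
    (h0 : g w ≠ 0) (hx : proj (g w) = x) (hX : ∀ᶠ y in 𝓝 w, proj (g y) ∈ X) :
    ∃ τ : E e → E n, AnalyticAt ℂ τ w ∧ τ w = z ∧ φ ∘ τ =ᶠ[𝓝 w] proj ∘ g := by
  exact factor_XE2 h hg h0 hx hX

end Pool.Agent.HIR
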