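import Pool.Agent.P.MP_65ad7c_ag.XE2
import Pool.Agent.P.MP_65ad7c_ag.XA4

open Set Filter Topology Asymptotics
open scoped ComplexConjugate
open Pool.Agent.HT (Amb proj cj IsChart IsSNC)

noncomputable section
namespace Pool.Agent.HIR

section
variable {n M : ℕ} {X C D : Set (Amb M)} {φ φ' : E n → Amb M} {z z' : E n} {x : Amb M}
  {f : Amb M → ℂ} {τ σ : E n → E n} {i : Fin n} {T T' : Finset (Fin n)}

theorem hol_of_pt (h : Pt X φ z x) (hf : An z (f ∘ φ)) : Hol n X x f := by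
  intro φ' z' h'
  obtain ⟨τ, σ, hb, -, e2⟩ := h.trans h'
  exact (hb.symm.comp hf).congr (e2.fun_comp f)

theorem ring_hol (n : ℕ) (X : Set (Amb M)) (x : Amb M) : Ring' (𝓝[X] x) (Hol n X x) := by
  refine ⟨fun c φ z _ => analyticAt_const, fun f g hf hg φ z hp => (hf φ z hp).add (hg φ z hp),
    fun f g hf hg φ z hp => (hf φ z hp).mul (hg φ z hp), fun f g hf e φ z hp => ?_⟩
  exact (hf φ z hp).congr (e.comp_tendsto hp.tendsto)

theorem Hol.cF (h : Hol n X x f) (hX : MapsTo (cj M) X X) : Hol n X (cj M x) (cF f) := by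
  intro φ z hp
  have h1 := hp.bar hX
  rw [cj_cj] at h1
  have h2 := an_cf (h _ _ h1)
  rw [star_star] at h2
  have e : cf (f ∘ cφ φ) = HIR.cF f ∘ φ := by
    funext w
    simp only [cf, HIR.cF, cφ, Function.comp_apply, star_star]
  rwa [e] at h2

theorem cF_cF (f : Amb M → ℂ) : cF (cF f) = f := by
  funext y
  simp only [cF, cj_cj, Complex.conj_conj]

theorem cF_comp (f : Amb M → ℂ) (φ : E n → Amb M) : cF f ∘ cφ φ = cf (f ∘ φ) := by
  funext w
  simp only [cF, cφ, cf, Function.comp_apply, cj_cj]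

theorem cφ_cφ (φ : E n → Amb M) : cφ (cφ φ) = φ := by
  funext w
  simp only [cφ, star_star, cj_cj]

theorem Co.zero (h : Co D φ z i) : φ z ∈ D ↔ z i = 0 := by
  exact h.self_of_nhds

theorem Co.ev (h : Co D φ z i) : ∀ᶠ w in 𝓝 z, Co D φ w i := by
  exact h.eventually_nhds

theorem Sub.zero (h : Sub C φ z T) : φ z ∈ C ↔ ∀ i ∈ T, z i = 0 := by
  exact h.self_of_nhds

theorem Sub.ev (h : Sub C φ z T) : ∀ᶠ w in 𝓝 z, Sub C φ w T := by
  exact h.eventually_nhds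

theorem Sub.uniq (h : Sub C φ z T) (h' : Sub C φ z T') (hz : φ z ∈ C) : T = T' := by
  refine Finset.Subset.antisymm (fun j hj => mem_of_van (h'.zero.1 hz) ?_)
    fun j hj => mem_of_van (h.zero.1 hz) ?_
  · filter_upwards [h, h'] with w a b c using a.1 (b.2 c) j hj
  · filter_upwards [h, h'] with w a b c using b.1 (a.2 c) j hj

theorem Co.comp (h : Co D φ z i) (hb : Bi τ σ z z') (e : co i ∘ τ =ᶠ[𝓝 z] co i) :
    Co D (φ ∘ σ) z' i := by
  filter_upwards [hb.symm.tendsto.eventually h, hb.symm.tendsto.eventually e, hb.right]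
    with y a b c
  simp only [Function.comp_apply, co, c] at b
  rw [Function.comp_apply, a, b]

theorem cj_mem_XE3 (hD : MapsTo (cj M) D D) (y : Amb M) : cj M y ∈ D ↔ y ∈ D :=
  ⟨fun h => cj_cj y ▸ hD h, fun h => hD h⟩

theorem Co.bar (h : Co D φ z i) (hD : MapsTo (cj M) D D) : Co D (cφ φ) (star z) i := by
  have ht : Tendsto (star : E n → E n) (𝓝 (star z)) (𝓝 z) := by
    have := (continuous_star (R := E n)).tendsto (star z)
    rwa [star_star] at this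
  filter_upwards [ht.eventually h] with y a
  rw [cφ, cj_mem_XE3 hD, a, Pi.star_apply, star_eq_zero]

theorem cin_iff (hp : Pt X φ z x) (hC : C ⊆ X) (hs : Sub C φ z T) (hx : x ∈ C)
    (h : Co D φ z i) : Cin C D x ↔ i ∈ T := by
  rw [Cin, hp.ev_sub hC]
  refine ⟨fun a => mem_of_van (hs.zero.1 (hp.eq ▸ hx)) ?_, fun a => ?_⟩
  · filter_upwards [a, hs, h] with w a b c d using c.1 (a (b.2 d))
  · filter_upwards [hs, h] with w b c d using c.2 (b.1 d i a)

theorem Cin.bar (h : Cin C D x) (hC : MapsTo (cj M) C C) (hD : MapsTo (cj M) D D) :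
    Cin C D (cj M x) := by
  rw [Cin, ← map_cj hC, eventually_map]
  exact h.mono fun y hy => hD hy

theorem vanD_iff (hp : Pt X φ z x) (hD : D ⊆ X) :
    VanD D x f ↔ ∀ᶠ w in 𝓝 z, φ w ∈ D → f (φ w) = 0 := by
  exact hp.ev_sub hD

theorem eq1_unit (hp : Pt X φ z x) (hc : Co D φ z i) (h : Eq1 n X D x f) :
    ∃ u, An z u ∧ u z ≠ 0 ∧ f ∘ φ =ᶠ[𝓝 z] u * co i := by
  have hf := h.1 φ z hp
  have h1 : ∀ᶠ w in 𝓝 z, f (φ w) = 0 ↔ w i = 0 := by
    filter_upwards [hp.ev_iff.1 h.2.1, hc] with w a b using a.trans b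
  by_cases hz : z i = 0
  · refine unit_of_zero hf hz (h1.mono fun w a => a.2) fun hd => h.2.2 φ z hp ?_
    refine ord_succ hf (h1.self_of_nhds.2 hz) fun k => ord_one (an_pd hf k) ?_
    rw [pd, hd]
    rfl
  · refine ⟨fun w => f (φ w) / w i, hf.div (an_co i z) hz,
      div_ne_zero (fun a => hz (h1.self_of_nhds.1 a)) hz, ?_⟩
    filter_upwards [((continuous_apply i).continuousAt (x := z)).eventually_ne hz] with w a
    exact (div_mul_cancel₀ _ a).symm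

theorem exists_eq1 (hp : Pt X φ z x) (hc : Co D φ z i) :
    ∃ ε, Eq1 n X D x ε ∧ ε ∘ φ =ᶠ[𝓝 z] co i := by
  obtain ⟨ε, hε⟩ := hp.lift (co i)
  refine ⟨ε, ⟨hol_of_pt hp ((an_co i z).congr hε.symm), hp.ev_iff.2 ?_, fun φ' z' hp' ho => ?_⟩, hε⟩
  · filter_upwards [hε, hc] with w a b
    rw [b, show ε (φ w) = w i from a]
  · obtain ⟨τ, σ, hb, e1, -⟩ := hp.trans hp'
    rw [← hb.map] at ho
    have h1 := ((ho.comp hb.an.differentiableAt).congr (e1.fun_comp ε)).congr hε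
    refine not_ord_pow (an_co i z) (v := Pi.single i 1) ?_ 1 (by rwa [pow_one])
    have := congrFun (pd_co i i) z
    rw [pd, if_pos rfl] at this
    rw [this]
    exact one_ne_zero

theorem eq1_one (hD : IsClosed D) (hx : x ∉ D) : Eq1 n X D x 1 := by
  refine ⟨fun φ z _ => analyticAt_const, ?_, fun φ z _ ho => one_ne_zero (ho.eq_zero (m := 1))⟩
  filter_upwards [nhdsWithin_le_nhds (hD.isOpen_compl.mem_nhds hx)] with y hy
  exact ⟨fun a => absurd a one_ne_zero, fun a => absurd a hy⟩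

theorem Eq1.cF (h : Eq1 n X D x f) (hX : MapsTo (cj M) X X) (hD : MapsTo (cj M) D D) :
    Eq1 n X D (cj M x) (cF f) := by
  refine ⟨h.1.cF hX, ?_, fun φ z hp ho => ?_⟩
  · rw [← map_cj hX, eventually_map]
    filter_upwards [h.2.1] with y a
    rw [cj_mem_XE3 hD, ← a, HIR.cF, cj_cj, map_eq_zero]
  · have h1 := hp.bar hX
    rw [cj_cj] at h1
    have h2 := ho.cf
    rw [← cF_comp, cF_cF] at h2
    exact h.2.2 _ _ h1 h2

end

variable {n : ℕ} {S : Sp n} {φ : E n → Amb S.M} {z : E n} {x : Amb S.M} {r₀ j j' : ℕ} {i : Fin n}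

theorem Sp.closedX (S : Sp n) : IsClosed S.X := by
  exact S.snc.compact.isClosed

theorem chart_XE3 (hx : x ∈ S.X) : ∃ (φ : E n → Amb S.M) (z : E n) (κ : ℕ → Option (Fin n)),
    Pt S.X φ z x ∧ (∀ i j k, κ i = some k → κ j = some k → i = j) ∧
      ∀ j, ∀ᶠ w in 𝓝 z, φ w ∈ S.D j ↔ ∃ k, κ j = some k ∧ w k = 0 := by
  obtain ⟨O, g, κ, hc, ⟨z, hz, e⟩, h1, h2⟩ := S.snc.chart x hx
  exact ⟨proj ∘ g, z, κ, ⟨O, g, hc, rfl, hz, e⟩, h1, fun j =>
    Filter.mem_of_superset (hc.isOpen.mem_nhds hz) fun w hw => h2 j w hw⟩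

theorem co_of_XE3 {κ : Option (Fin n)} {D : Set (Amb S.M)} (hz : φ z ∈ D)
    (h : ∀ᶠ w in 𝓝 z, φ w ∈ D ↔ ∃ k, κ = some k ∧ w k = 0) : ∃ k, κ = some k ∧ Co D φ z k := by
  obtain ⟨k, rfl, -⟩ := h.self_of_nhds.1 hz
  exact ⟨k, rfl, h.mono fun w a => by simpa using a⟩

theorem Sp.closedD (S : Sp n) (j : ℕ) : IsClosed (S.D j) := by
  refine isClosed_of_closure_subset fun x hx => ?_
  obtain ⟨φ, z, κ, hp, -, h⟩ :=
    chart_XE3 (S.closedX.closure_subset (closure_mono (S.snc.sub j) hx))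
  by_contra hn
  have h0 : ∀ᶠ w in 𝓝 z, φ w ∈ S.D j → False := by
    cases hk : κ j with
    | none => filter_upwards [h j] with w a b using by simpa [hk] using a.1 b
    | some k =>
      have hz : z k ≠ 0 := fun a => hn (hp.eq ▸ (h j).self_of_nhds.2 ⟨k, hk, a⟩)
      filter_upwards [h j, ((continuous_apply k).continuousAt (x := z)).eventually_ne hz]
        with w a b c
      obtain ⟨k', h1, h2⟩ := a.1 c
      rw [hk, Option.some.injEq] at h1
      exact b (h1 ▸ h2)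
  have := mem_closure_iff_nhdsWithin_neBot.1 hx
  obtain ⟨_, a⟩ := ((hp.ev_sub (S.snc.sub j) (P := fun _ => False)).2 h0).exists
  exact a

theorem Sp.chart (hx : x ∈ S.X) : ∃ (φ : E n → Amb S.M) (z : E n), Pt S.X φ z x ∧
    ∀ j, x ∈ S.D j → ∃ i, Co (S.D j) φ z i := by
  obtain ⟨φ, z, κ, hp, -, h⟩ := chart_XE3 hx
  refine ⟨φ, z, hp, fun j hj => ?_⟩
  obtain ⟨k, -, hk⟩ := co_of_XE3 (hp.eq ▸ hj) (h j)
  exact ⟨k, hk⟩

theorem mem_J : j ∈ S.J r₀ x ↔ r₀ ≤ j ∧ x ∈ S.D j := by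
  simp only [Sp.J, Finset.mem_filter, Finset.mem_Ico]
  refine ⟨fun h => ⟨h.1.1, h.2⟩, fun h => ⟨⟨h.1, not_le.1 fun a => ?_⟩, h.2⟩⟩
  have := h.2
  rw [S.fin j a] at this
  exact this

theorem Sp.lt (hx : x ∈ S.D j) : j < S.r := by
  refine not_le.1 fun a => ?_
  rw [S.fin j a] at hx
  exact hx

theorem J_ev (S : Sp n) (r₀ : ℕ) (x : Amb S.M) : ∀ᶠ y in 𝓝 x, S.J r₀ y ⊆ S.J r₀ x := by
  have h : ∀ᶠ y in 𝓝 x, ∀ j ∈ Finset.range S.r, y ∈ S.D j → x ∈ S.D j := by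
    refine (Filter.eventually_all_finset _).2 fun j _ => ?_
    by_cases hx : x ∈ S.D j
    · exact Eventually.of_forall fun _ _ => hx
    · filter_upwards [(S.closedD j).isOpen_compl.mem_nhds hx] with y a b using absurd b a
  filter_upwards [h] with y a j hj
  rw [mem_J] at hj ⊢
  exact ⟨hj.1, a j (Finset.mem_range.2 (Sp.lt hj.2)) hj.2⟩

theorem J_cj (S : Sp n) (r₀ : ℕ) (x : Amb S.M) : S.J r₀ (cj S.M x) = S.J r₀ x := by
  ext j
  rw [mem_J, mem_J, cj_mem_XE3 (S.cjD j)]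

theorem Co.inj (hp : Pt S.X φ z x) (h : Co (S.D j) φ z i) (h' : Co (S.D j') φ z i)
    (hx : x ∈ S.D j) : j = j' := by
  have h1 : ∀ᶠ w in 𝓝 z, φ w ∈ S.D j ↔ φ w ∈ S.D j' := by
    filter_upwards [h, h'] with w a b using a.trans b.symm
  have hx' : x ∈ S.D j' := hp.eq ▸ h1.self_of_nhds.1 (hp.eq ▸ hx)
  obtain ⟨ψ, y, κ, hq, hi, hκ⟩ := chart_XE3 hp.mem
  have h2 := hq.ev_iff.1 ((hp.ev_iff (P := fun y => y ∈ S.D j ↔ y ∈ S.D j')).2 h1)
  obtain ⟨k, e, hk⟩ := co_of_XE3 (hq.eq ▸ hx) (hκ j)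
  obtain ⟨k', e', hk'⟩ := co_of_XE3 (hq.eq ▸ hx') (hκ j')
  have h3 : k' ∈ ({k} : Finset (Fin n)) := by
    refine mem_of_van (z := y) (fun i hi => ?_) ?_
    · rw [Finset.mem_singleton.1 hi]
      exact hk.zero.1 (hq.eq ▸ hx)
    · filter_upwards [h2, hk, hk'] with w a b c d
      exact c.1 (a.1 (b.2 (d k (Finset.mem_singleton_self k))))
  exact hi j j' k e (Finset.mem_singleton.1 h3 ▸ e')

theorem card_J_le (hx : x ∈ S.X) : (S.J r₀ x).card ≤ n := by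
  obtain ⟨φ, z, κ, hp, hi, h⟩ := chart_XE3 hx
  have h1 : ∀ j ∈ S.J r₀ x, ∃ k, κ j = some k := fun j hj => by
    obtain ⟨k, e, -⟩ := co_of_XE3 (hp.eq ▸ (mem_J.1 hj).2) (h j)
    exact ⟨k, e⟩
  refine (Finset.card_le_card_of_injOn (t := Finset.univ.map ⟨some, Option.some_injective _⟩) κ
    (fun j hj => ?_) fun j hj j' _ e => ?_).trans_eq (by simp)
  · obtain ⟨k, e⟩ := h1 j hj
    exact Finset.mem_coe.2 (Finset.mem_map.2 ⟨k, Finset.mem_univ _, e.symm⟩)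
  · obtain ⟨k, e'⟩ := h1 j hj
    exact hi j j' k e' (e ▸ e')

/-- pointed adapted charts give a normal crossing divisor -/
theorem snc_of_pt {M r : ℕ} {X : Set (Amb M)} {D : ℕ → Set (Amb M)} (hX : IsCompact X)
    (hD : ∀ j, D j ⊆ X) (hc : ∀ j, IsClosed (D j)) (hr : ∀ j, r ≤ j → D j = ∅)
    (h : ∀ x ∈ X, ∃ (φ : E n → Amb M) (z : E n) (κ : ℕ → Option (Fin n)), Pt X φ z x ∧
      (∀ j j' i, x ∈ D j → x ∈ D j' → κ j = some i → κ j' = some i → j = j') ∧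
      ∀ j, x ∈ D j → ∃ i, κ j = some i ∧ Co (D j) φ z i) : IsSNC n X D := by
  classical
  refine ⟨hX, hD, fun x hx => ?_⟩
  obtain ⟨φ, z, κ, hp, h1, h2⟩ := h x hx
  have hj : ∀ j, ∀ᶠ w in 𝓝 z, φ w ∈ D j ↔
      ∃ k, (if x ∈ D j then κ j else none) = some k ∧ w k = 0 := by
    intro j
    by_cases hxj : x ∈ D j
    · obtain ⟨i, e, hi⟩ := h2 j hxj
      filter_upwards [hi] with w a
      simpa [hxj, e] using a
    · filter_upwards [hp.cont.eventually ((hc j).isOpen_compl.mem_nhds hxj)] with w a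
      simpa [hxj] using a
  have hall : ∀ᶠ w in 𝓝 z, ∀ j, φ w ∈ D j ↔
      ∃ k, (if x ∈ D j then κ j else none) = some k ∧ w k = 0 := by
    filter_upwards [(Filter.eventually_all_finset (Finset.range r)).2 fun j _ => hj j] with w a j
    by_cases hjr : j < r
    · exact a j (Finset.mem_range.2 hjr)
    · simp [hr j (not_lt.1 hjr)]
  obtain ⟨U, hU, hUo, hz⟩ := eventually_nhds_iff.1 hall
  obtain ⟨O, g, hch, rfl, hzO, e⟩ := hp
  refine ⟨O ∩ U, g, fun j => if x ∈ D j then κ j else none,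
    ⟨hch.isOpen.inter hUo, hch.hol.mono inter_subset_left, fun w hw => hch.ne w hw.1,
      fun w hw => hch.imm w hw.1, hch.inj.mono inter_subset_left,
      fun O' a b => hch.opn O' (a.trans inter_subset_left) b⟩, ⟨z, ⟨hzO, hz⟩, e⟩,
    fun j j' k a b => ?_, fun j w hw => hU w hw.2 j⟩
  by_cases c : x ∈ D j
  · by_cases d : x ∈ D j'
    · simp only [c, d, if_true] at a b
      exact h1 j j' k c d a b
    · simp [d] at b
  · simp [c] at a

end Pool.Agent.HIR
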