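import Pool.Agent.P.MP_65ad7c_ag.XE3
import Pool.Agent.P.MP_65ad7c_ag.XC1
import Pool.Agent.P.MP_65ad7c_ag.XD1

open Set Filter Topology Asymptotics
open scoped ComplexConjugate
open Pool.Agent.HT (Amb proj cj IsChart IsSNC)

noncomputable section
namespace Pool.Agent.HIR

variable {n m μ : ℕ} {S : Sp n} {G H : Alg S.M} {φ φ' : E n → Amb S.M} {z z' : E n} {x : Amb S.M}
  {f : Amb S.M → ℂ} {τ σ : E n → E n} {C : Set (Amb S.M)}

theorem lr_loc (hG : GR S G) (h : Pt S.X φ z x) : LR z (loc G φ z) := by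
  obtain rfl := h.eq
  have R := hG _ h.mem
  refine ⟨?_, fun g hg => ?_, ?_, ?_, ?_, fun m => ⟨0, R.zero m, EventuallyEq.rfl⟩, ?_⟩
  · rintro m g ⟨f, hf, e⟩
    exact (R.an m f hf φ z h).congr e
  · obtain ⟨f, e⟩ := h.lift g
    exact ⟨f, R.hol f (hol_of_pt h (hg.congr e.symm)), e⟩
  · rintro m g ⟨f, hf, e⟩
    exact ⟨f, R.anti m f hf, e⟩
  · rintro m m' g g' ⟨f, hf, e⟩ ⟨f', hf', e'⟩
    exact ⟨f * f', R.mul m m' f f' hf hf', e.mul e'⟩
  · rintro m g g' ⟨f, hf, e⟩ ⟨f', hf', e'⟩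
    exact ⟨f + f', R.add m f f' hf hf', e.add e'⟩
  · rintro m g g' ⟨f, hf, e⟩ e'
    exact ⟨f, hf, e.trans e'⟩

theorem mem_loc (hG : GR S G) (h : Pt S.X φ z x) : loc G φ z m (f ∘ φ) ↔ G x m f := by
  obtain rfl := h.eq
  refine ⟨?_, fun hf => ⟨f, hf, EventuallyEq.rfl⟩⟩
  rintro ⟨f', hf', e⟩
  exact (hG _ h.mem).congr m f' f hf' (h.ev_iff.2 e)

theorem loc_le (hle : GLe S G H) (h : Pt S.X φ z x) : Le (loc G φ z) (loc H φ z) := by
  obtain rfl := h.eq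
  rintro m g ⟨f, hf, e⟩
  exact ⟨f, hle _ h.mem m f hf, e⟩

theorem le_of_loc (hG : GR S G) (hH : GR S H) (h : Pt S.X φ z x)
    (e : Le (loc G φ z) (loc H φ z)) : Le (G x) (H x) := by
  exact fun m f hf => (mem_loc hH h).1 (e m _ ((mem_loc hG h).2 hf))

theorem loc_trans (hG : GR S G) (h : Pt S.X φ z x) (h' : Pt S.X φ' z' x) (hb : Bi τ σ z z')
    (e : φ' ∘ τ =ᶠ[𝓝 z] φ) : loc G φ' z' = push (loc G φ z) τ z' := by
  have hx : φ' z' = φ z := h'.eq.trans h.eq.symm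
  funext m g
  refine propext ⟨fun hg => ⟨(lr_loc hG h').an m g hg, ?_⟩, ?_⟩
  · obtain ⟨f, hf, e1⟩ := hg
    exact ⟨f, hx ▸ hf, (e.symm.fun_comp f).trans (e1.comp_tendsto hb.tendsto)⟩
  · rintro ⟨-, f, hf, e1⟩
    refine ⟨f, hx ▸ hf, ?_⟩
    rw [← hb.map_nhds]
    exact (e.fun_comp f).trans e1

theorem loc_comp (hG : GR S G) (h : Pt S.X φ z x) (hb : Bi τ σ z z') :
    loc G (φ ∘ σ) z' = push (loc G φ z) τ z' := by
  exact loc_trans hG h (h.comp hb) hb (hb.left.mono fun w hw => congrArg φ hw)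

theorem loc_In {L : Set (ℕ × (Amb S.M → ℂ))} (h : Pt S.X φ z x)
    (e : G x = In (𝓝[S.X] x) (Hol n S.X x) L) :
    loc G φ z = LIn z {q | ∃ f, (q.1, f) ∈ L ∧ f ∘ φ =ᶠ[𝓝 z] q.2} := by
  obtain rfl := h.eq
  refine Le.antisymm ?_ fun m g hg => ?_
  · rintro m g ⟨f, hf, e1⟩
    rw [e] at hf
    refine In.congr ?_ e1
    clear e1
    induction hf with
    | gen hL => exact In.gen ⟨_, hL, EventuallyEq.rfl⟩
    | hol hf => exact In.hol (hf φ z h)
    | anti _ ih => exact In.anti ih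
    | mul _ _ ih ih' => exact In.mul ih ih'
    | add _ _ ih ih' => exact In.add ih ih'
    | zero => exact In.zero
    | congr _ e1 ih => exact In.congr ih (h.ev_iff.1 e1)
  · unfold loc
    rw [e]
    induction hg with
    | gen hL =>
      obtain ⟨f, hf, e1⟩ := hL
      exact ⟨f, In.gen hf, e1⟩
    | @hol g hg =>
      obtain ⟨f, e1⟩ := h.lift g
      exact ⟨f, In.hol (hol_of_pt h (hg.congr e1.symm)), e1⟩
    | anti _ ih =>
      obtain ⟨f, hf, e1⟩ := ih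
      exact ⟨f, In.anti hf, e1⟩
    | mul _ _ ih ih' =>
      obtain ⟨f, hf, e1⟩ := ih
      obtain ⟨f', hf', e1'⟩ := ih'
      exact ⟨f * f', In.mul hf hf', e1.mul e1'⟩
    | add _ _ ih ih' =>
      obtain ⟨f, hf, e1⟩ := ih
      obtain ⟨f', hf', e1'⟩ := ih'
      exact ⟨f + f', In.add hf hf', e1.add e1'⟩
    | zero => exact ⟨0, In.zero, EventuallyEq.rfl⟩
    | congr _ e2 ih =>
      obtain ⟨f, hf, e1⟩ := ih
      exact ⟨f, hf, e1.trans e2⟩

theorem loc_top (h : Pt S.X φ z x) (e : ∀ m f, G x m f ↔ Hol n S.X x f) :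
    loc G φ z = top z := by
  obtain rfl := h.eq
  funext m g
  refine propext ⟨?_, fun hg => ?_⟩
  · rintro ⟨f, hf, e1⟩
    exact ((e m f).1 hf φ z h).congr e1
  · obtain ⟨f, e1⟩ := h.lift g
    exact ⟨f, (e m f).2 (hol_of_pt h (AnalyticAt.congr hg e1.symm)), e1⟩

theorem sg_iff (hG : GR S G) (h : Pt S.X φ z x) : x ∈ Sg S G ↔ LSg z (loc G φ z) := by
  refine ⟨fun hx => hx.2 φ z h, fun hs => ⟨h.mem, fun φ' z' h' => ?_⟩⟩
  obtain ⟨τ, σ, hb, e, -⟩ := h.trans h'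
  rw [loc_trans hG h h' hb e]
  exact (lsg_push hb (lr_loc hG h)).2 hs

theorem sg_mono (hle : GLe S G H) : Sg S H ⊆ Sg S G := by
  exact fun x hx => ⟨hx.1, fun φ z h => (hx.2 φ z h).mono (loc_le hle h)⟩

theorem good_of_one (hμ : 1 ≤ μ) (hG : GR S G) (hc : CjA S G)
    (h : ∀ x ∈ S.X, ∃ (φ : E n → Amb S.M) (z : E n), Pt S.X φ z x ∧ LFg (loc G φ) μ z) :
    Good S G μ := by
  refine ⟨hμ, hG, fun φ' z' x h' => ?_, hc⟩
  obtain ⟨φ, z, hp, L, hL⟩ := h x h'.mem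
  obtain ⟨τ, σ, hb, e, e'⟩ := hp.trans h'
  refine ⟨_, (hL.push hb).congr ?_⟩
  filter_upwards [h'.ev, hb.symm.tendsto.eventually hp.ev, e', hb.symm.ev,
    hb.symm.tendsto.eventually e.eventually_nhds] with w h1 h2 h3 h4 h5
  have h6 : φ (σ w) = φ' w := h3
  exact loc_trans hG (h6 ▸ h2) h1 h4.symm h5

theorem Good.mono {μ' : ℕ} (h : Good S G μ) (hμ : μ ≤ μ') : Good S G μ' := by
  exact ⟨h.pos.trans hμ, h.rees,
    fun φ z x hp => (h.fg φ z x hp).imp fun _ hL => hL.mono hμ, h.rl⟩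

theorem Good.closed (h : Good S G μ) : IsClosed (Sg S G) := by
  refine isClosed_of_closure_subset fun x hx => ?_
  have hX : x ∈ S.X := closure_minimal (fun y hy => hy.1) S.closedX hx
  obtain ⟨φ, z, hp, -⟩ := Sp.chart hX
  by_contra hs
  obtain ⟨L, hL⟩ := h.fg φ z x hp
  have h1 : ∀ᶠ y in 𝓝[S.X] x, y ∉ Sg S G := by
    rw [hp.ev_iff]
    filter_upwards [hL.not_lsg_ev fun h2 => hs ((sg_iff h.rees hp).2 h2), hp.ev] with w h2 h3
    exact fun h4 => h2 ((sg_iff h.rees h3).1 h4)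
  obtain ⟨y, hy, hy'⟩ :=
    ((mem_closure_iff_frequently.1 hx).and_eventually (eventually_nhdsWithin_iff.1 h1)).exists
  exact hy' hy.1 hy

theorem Good.compact (h : Good S G μ) : IsCompact (Sg S G) := by
  exact S.snc.compact.of_isClosed_subset h.closed fun x hx => hx.1

theorem an_cf_XE4 {u v : E n → ℂ} (e : u =ᶠ[𝓝 z] v) : cf u =ᶠ[𝓝 (star z)] cf v := by
  have h : Tendsto (star : E n → E n) (𝓝 (star z)) (𝓝 z) := by
    simpa only [star_star] using continuous_star.tendsto (star z)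
  filter_upwards [h.eventually e] with w hw using congrArg conj hw

theorem loc_cj (hc : CjA S G) (h : Pt S.X φ z x) :
    loc G (cφ φ) (star z) = cA (loc G φ z) := by
  obtain rfl := h.eq
  have h0 : cφ φ (star z) = cj S.M (φ z) := by rw [cφ, star_star]
  funext m g
  refine propext ⟨?_, ?_⟩
  · rintro ⟨f, hf, e⟩
    rw [h0] at hf
    have h1 := hc _ (S.cjX h.mem) m f hf
    rw [cj_cj] at h1
    refine ⟨cF f, h1, ?_⟩
    filter_upwards [(continuous_star.tendsto z).eventually e] with w hw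
    have h2 : f (cj S.M (φ (star (star w)))) = g (star w) := hw
    rw [star_star] at h2
    exact congrArg conj h2
  · rintro ⟨f, hf, e⟩
    refine ⟨cF f, h0 ▸ hc _ h.mem m f hf, ?_⟩
    have h1 := an_cf_XE4 e
    rwa [cf_cf, ← cF_comp] at h1

theorem Good.sg_cj (h : Good S G μ) : MapsTo (cj S.M) (Sg S G) (Sg S G) := by
  intro x hx
  obtain ⟨φ, z, hp, -⟩ := Sp.chart hx.1
  rw [sg_iff h.rees (hp.bar S.cjX), loc_cj h.rl hp]
  exact (hx.2 φ z hp).cA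

theorem Good.sg_ev (hG : Good S G μ) (h : Pt S.X φ z x) :
    ∀ᶠ w in 𝓝 z, φ w ∈ Sg S G ↔ LSg w (loc G φ w) := by
  filter_upwards [h.ev] with w hw using sg_iff hG.rees hw

theorem Good.vanC (hG : Good S G μ) (h : Pt S.X φ z x) (hC : C ⊆ Sg S G) {T : Finset (Fin n)}
    (hs : Sub C φ z T) : VanC z T (loc G φ z) := by
  obtain ⟨L, hL⟩ := hG.fg φ z x h
  refine hL.vanC ?_
  filter_upwards [hs, hG.sg_ev h] with w h1 h2 hw using h2.1 (hC (h1.2 hw))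

theorem Good.van (hG : Good S G μ) (h : Pt S.X φ z x) {u : E n → ℂ} (hu : loc G φ z 1 u) :
    ∀ᶠ w in 𝓝 z, φ w ∈ Sg S G → u w = 0 := by
  obtain ⟨L, hL⟩ := hG.fg φ z x h
  filter_upwards [hL.mem_ev hu, hG.sg_ev h] with w h1 h2 hw
  exact Ord.eq_zero (m := 0) (h2.1 hw 1 u h1)

theorem Old.co {r₀ j : ℕ} {i : Fin n} (h : Old S G r₀) (hp : Pt S.X φ z x) (hx : x ∈ Sg S G)
    (hj : j < r₀) (hD : x ∈ S.D j) (hc : Co (S.D j) φ z i) : loc G φ z 1 (co i) := by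
  obtain ⟨f, e⟩ := hp.lift (HIR.co i)
  refine ⟨f, ?_, e⟩
  rw [hp.eq]
  refine h x hx j hj hD f (hol_of_pt hp ((an_co i z).congr e.symm))
    ((vanD_iff hp (S.snc.sub j)).2 ?_)
  filter_upwards [e, hc] with w h1 h2 hw using h1.trans (h2.1 hw)

theorem Old.mono {r₀ : ℕ} (h : Old S G r₀) (hle : GLe S G H) : Old S H r₀ := by
  exact fun x hx j hj hD f hf hv => hle x hx.1 1 f (h x (sg_mono hle hx) j hj hD f hf hv)

end Pool.Agent.HIR
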