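import Pool.Agent.P.MP_65ad7c_ag.XE4
import Pool.Agent.P.MP_65ad7c_ag.XC5

open Set Filter Topology Asymptotics
open scoped ComplexConjugate
open Pool.Agent.HT (Amb proj cj IsChart IsSNC)

noncomputable section
namespace Pool.Agent.HIR

variable {n μ r₀ k b ν : ℕ} {S : Sp n} {G : Alg S.M} {φ φ' : E n → Amb S.M} {z z' : E n}
  {x : Amb S.M} {K K' : Finset (Fin n)} {c c' : ℕ → Fin n} {a : ℕ → Amb S.M → ℕ}

theorem PC.lsg (h : PC S G r₀ k x φ z K c) : LSg z (loc G φ z) := by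
  exact h.sg.2 φ z h.pt

theorem PC.zero (h : PC S G r₀ k x φ z K c) : ∀ i ∈ K, z i = 0 := by
  exact LSg.zero h.lsg h.pk

theorem PC.zero' (h : PC S G r₀ k x φ z K c) : ∀ j ∈ S.J r₀ x, z (c j) = 0 := by
  intro j hj
  have h1 := (h.co j hj).zero
  rw [h.pt.eq] at h1
  exact h1.1 (mem_J.1 hj).2

theorem PC.inj (h : PC S G r₀ k x φ z K c) : InjOn c (S.J r₀ x) := by
  intro j hj j' hj' e
  have hj1 : j ∈ S.J r₀ x := hj
  have hj2 : j' ∈ S.J r₀ x := hj'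
  have h2 := h.co j' hj2
  rw [← e] at h2
  exact Co.inj h.pt (h.co j hj1) h2 (mem_J.1 hj1).2

theorem PC.sup (h : PC S G r₀ k x φ z K c) (a : ℕ → Amb S.M → ℕ) : Sup z K (ex S r₀ a x c) := by
  intro i hi
  obtain ⟨j, hj, rfl, -⟩ := exv_ne hi
  exact ⟨h.out j hj, h.zero' j hj⟩

theorem PC.sum (h : PC S G r₀ k x φ z K c) (a : ℕ → Amb S.M → ℕ) :
    ∑ i with z i = 0, ex S r₀ a x c i = ∑ j ∈ S.J r₀ x, a j x := by
  unfold ex exv
  refine Finset.sum_fiberwise_of_maps_to (fun j hj => ?_) _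
  exact Finset.mem_filter.2 ⟨Finset.mem_univ _, h.zero' j hj⟩

theorem ex_zero : ex S r₀ 0 x c = 0 := by
  funext i
  simp [ex, exv]

theorem ex_zero' (S : Sp n) (G : Alg S.M) : Ex S G 0 := by
  exact ⟨fun _ _ _ => Eventually.of_forall fun _ => rfl, fun _ _ => rfl⟩

theorem PC.J_ev (h : PC S G r₀ k x φ z K c) :
    ∀ᶠ w in 𝓝 z, S.J r₀ (φ w) = (S.J r₀ x).filter fun j => w (c j) = 0 := by
  have h1 := h.pt.cont.eventually (Pool.Agent.HIR.J_ev S r₀ x)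
  have h2 : ∀ᶠ w in 𝓝 z, ∀ j ∈ S.J r₀ x, (φ w ∈ S.D j ↔ w (c j) = 0) :=
    (Filter.eventually_all_finset _).2 fun j hj => h.co j hj
  filter_upwards [h1, h2] with w hw1 hw2
  ext j
  rw [Finset.mem_filter]
  constructor
  · intro hj
    exact ⟨hw1 hj, (hw2 j (hw1 hj)).1 (mem_J.1 hj).2⟩
  · rintro ⟨hj, h0⟩
    exact mem_J.2 ⟨(mem_J.1 hj).1, (hw2 j hj).2 h0⟩

theorem PC.ev (h : PC S G r₀ k x φ z K c) (hG : Good S G μ) :
    ∀ᶠ w in 𝓝 z, φ w ∈ Sg S G → PC S G r₀ k (φ w) φ w K c := by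
  obtain ⟨L, hL⟩ := hG.fg φ z x h.pt
  have h1 := h.pt.cont.eventually (Pool.Agent.HIR.J_ev S r₀ x)
  have h2 : ∀ᶠ w in 𝓝 z, ∀ j ∈ S.J r₀ x, Co (S.D j) φ w (c j) :=
    (Filter.eventually_all_finset _).2 fun j hj => (h.co j hj).ev
  filter_upwards [h.pt.ev, hL.pk_ev h.pk, h1, h2] with w hw0 hw hw1 hw2 hs
  exact ⟨hw0, hs, hw, h.card, fun j hj => hw2 j (hw1 hj), fun j hj => h.out j (hw1 hj)⟩

theorem PC.a_ev (h : PC S G r₀ k x φ z K c) (ha : Ex S G a) :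
    ∀ᶠ w in 𝓝 z, φ w ∈ Sg S G → ∀ j ∈ S.J r₀ (φ w), a j (φ w) = a j x := by
  have h1 := h.pt.cont.eventually (Pool.Agent.HIR.J_ev S r₀ x)
  have h2 : ∀ᶠ w in 𝓝 z, ∀ j ∈ S.J r₀ x, (φ w ∈ Sg S G ∩ S.D j → a j (φ w) = a j x) :=
    (Filter.eventually_all_finset _).2 fun j hj =>
      (h.pt.ev_sub (C := Sg S G ∩ S.D j) (P := fun y => a j y = a j x) fun y hy => hy.1.1).1
        (ha.lc j x ⟨h.sg, (mem_J.1 hj).2⟩)
  filter_upwards [h1, h2] with w hw1 hw2 hs j hj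
  exact hw2 j (hw1 hj) ⟨hs, (mem_J.1 hj).2⟩

theorem PC.ex_ev (h : PC S G r₀ k x φ z K c) (ha : Ex S G a) :
    ∀ᶠ w in 𝓝 z, φ w ∈ Sg S G → ex S r₀ a (φ w) c = cut (ex S r₀ a x c) w := by
  filter_upwards [h.J_ev, h.a_ev ha] with w hw1 hw2 hs
  funext i
  have e : ex S r₀ a (φ w) c i = ∑ j ∈ S.J r₀ (φ w) with c j = i, a j x :=
    Finset.sum_congr rfl fun j hj => hw2 hs j (Finset.mem_filter.1 hj).1
  rw [e, hw1]
  unfold cut ex exv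
  split_ifs with h0
  · refine Finset.sum_congr ?_ fun _ _ => rfl
    ext j
    simp only [Finset.mem_filter]
    constructor
    · rintro ⟨⟨h1, -⟩, h2⟩
      exact ⟨h1, h2⟩
    · rintro ⟨h1, h2⟩
      exact ⟨⟨h1, h2 ▸ h0⟩, h2⟩
  · refine Finset.sum_eq_zero fun j hj => ?_
    obtain ⟨h1, h2⟩ := Finset.mem_filter.1 hj
    exact absurd (h2 ▸ (Finset.mem_filter.1 h1).2) h0

theorem PC.bar (h : PC S G r₀ k x φ z K c) (hG : Good S G μ) :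
    PC S G r₀ k (cj S.M x) (cφ φ) (star z) K c := by
  refine ⟨h.pt.bar S.cjX, hG.sg_cj h.sg, ?_, h.card, fun j hj => ?_, fun j hj => ?_⟩
  · rw [loc_cj hG.rl h.pt]
    exact h.pk.cA
  · rw [J_cj] at hj
    exact (h.co j hj).bar (S.cjD j)
  · rw [J_cj] at hj
    exact h.out j hj

theorem ex_cj (ha : Ex S G a) : ex S r₀ a (cj S.M x) c = ex S r₀ a x c := by
  unfold ex
  rw [J_cj]
  simp only [ha.rl]

theorem PC.two (h : PC S G r₀ k x φ z K c) (h' : PC S G r₀ k x φ' z' K' c') (hG : GR S G) :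
    ∃ τ σ, Two τ σ z z' (loc G φ z) K K' (S.J r₀ x) c c' ∧
      loc G φ' z' = push (loc G φ z) τ z' ∧ φ' ∘ τ =ᶠ[𝓝 z] φ := by
  obtain ⟨τ, σ, hb, e, -⟩ := h.pt.trans h'.pt
  have hl := loc_trans hG h.pt h'.pt hb e
  refine ⟨τ, σ, ⟨hb, lr_loc hG h.pt, h.lsg, h.pk, hl ▸ h'.pk, h.card.trans h'.card.symm,
    ⟨h.inj, h'.inj, h.zero', fun j hj => ?_⟩, h.out, h'.out⟩, hl, e⟩
  filter_upwards [h.co j hj, hb.tendsto.eventually (h'.co j hj), e] with w h1 h2 h3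
  rw [← h1, ← h2]
  rw [← h3]
  exact Iff.rfl

theorem PC.ind (h : PC S G r₀ k x φ z K c) (h' : PC S G r₀ k x φ' z' K' c') (hG : GR S G)
    (hb : 0 < b) (hd : Div z (loc G φ z) K b (ex S r₀ a x c))
    (hr : ResLE z (loc G φ z) K b (ex S r₀ a x c) ν) :
    Div z' (loc G φ' z') K' b (ex S r₀ a x c') ∧ ResLE z' (loc G φ' z') K' b (ex S r₀ a x c') ν ∧
      ∀ m f, Cmp z (loc G φ z) K b (ex S r₀ a x c) ν m (f ∘ φ) →
        Cmp z' (loc G φ' z') K' b (ex S r₀ a x c') ν m (f ∘ φ') := by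
  obtain ⟨τ, σ, ht, hl, e⟩ := h.two h' hG
  obtain ⟨h1, h2⟩ := ht.tr hb (fun j => a j x) hd
  rw [hl]
  refine ⟨h1, (h2 ν hr).1, fun m f hf => ?_⟩
  have h3 := ht.cmp hb (a := fun j => a j x) hd hr
  unfold ex
  rw [h3]
  have e1 : f ∘ φ =ᶠ[𝓝 z] (f ∘ φ') ∘ τ := by
    filter_upwards [e] with w hw
    exact congrArg f hw.symm
  have e2 : (f ∘ φ) ∘ σ =ᶠ[𝓝 z'] f ∘ φ' := by
    filter_upwards [ht.bi.symm.tendsto.eventually e, ht.bi.right] with w hw hw'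
    have : φ' (τ (σ w)) = φ (σ w) := hw
    rw [hw'] at this
    exact congrArg f this.symm
  refine ⟨?_, In.congr hf e1⟩
  exact (ht.bi.symm.comp ((lr_Cmp ht.rees).an m _ hf)).congr e2

theorem Inv0.all (hI : Inv0 S G r₀ k b a ν) (hG : GR S G) (hb : 0 < b)
    (h : PC S G r₀ k x φ z K c) : Div z (loc G φ z) K b (ex S r₀ a x c) ∧
      ResLE z (loc G φ z) K b (ex S r₀ a x c) ν := by
  obtain ⟨φ₀, z₀, K₀, c₀, h0, hd, hr⟩ := hI x h.sg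
  obtain ⟨h1, h2, -⟩ := h0.ind h hG hb hd hr
  exact ⟨h1, h2⟩

end Pool.Agent.HIR
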