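import Pool.Agent.P.MP_65ad7c_ag.XE8
import Pool.Agent.P.MP_65ad7c_ag.XC9

open Set Filter Topology Asymptotics
open scoped ComplexConjugate
open Pool.Agent.HT (Amb proj cj IsChart IsSNC)

noncomputable section
namespace Pool.Agent.HIR

variable {n μ μ' r₀ k b ν : ℕ} {S : Sp n} {G H : Alg S.M} {β : Bl S} {a : ℕ → Amb S.M → ℕ}
  {φ : E n → Amb S.M} {φ' : E n → Amb β.S'.M} {w : E n} {x' : Amb β.S'.M}
  {K T : Finset (Fin n)} {c : ℕ → Fin n} {p : Fin n}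

theorem sum_ev_XE9 (ha : Ex S G a) (hC : β.C ⊆ Sg S G) (r₀ : ℕ) {x : Amb S.M} (hx : x ∈ β.C) :
    ∀ᶠ y in 𝓝[β.C] x, ∀ j, (j ∈ S.J r₀ y ∧ Cin β.C (S.D j) y ↔ j ∈ S.J r₀ x ∧ Cin β.C (S.D j) x) ∧
      (j ∈ S.J r₀ x ∧ Cin β.C (S.D j) x → a j y = a j x) := by
  obtain ⟨s, hs⟩ := β.ctr.chart
  obtain ⟨φ, z, T, hp, -, hsub, hco⟩ := hs x hx
  have h1 : ∀ j ∈ S.J r₀ x, ∀ᶠ y in 𝓝[β.C] x, (Cin β.C (S.D j) y ↔ Cin β.C (S.D j) x) := by
    intro j hj
    obtain ⟨i, hi⟩ := hco j (mem_J.1 hj).2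
    rw [hp.ev_sub β.ctr.sub]
    filter_upwards [hp.ev, hsub.ev, hi.ev] with w a1 a2 a3 a4
    rw [cin_iff a1 β.ctr.sub a2 a4 a3, cin_iff hp β.ctr.sub hsub hx hi]
  have h2 : ∀ j ∈ S.J r₀ x, ∀ᶠ y in 𝓝[β.C] x,
      (Cin β.C (S.D j) x → y ∈ S.D j ∧ a j y = a j x) := by
    intro j hj
    by_cases hc : Cin β.C (S.D j) x
    · have h3 : 𝓝[β.C] x ≤ 𝓝[Sg S G ∩ S.D j] x := by
        refine le_inf inf_le_left (le_principal_iff.2 ?_)
        filter_upwards [hc, self_mem_nhdsWithin] with y a1 a2 using ⟨hC a2, a1⟩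
      filter_upwards [hc, h3 (ha.lc j x ⟨hC hx, (mem_J.1 hj).2⟩)] with y a1 a2 _ using ⟨a1, a2⟩
    · exact Eventually.of_forall fun y h => absurd h hc
  filter_upwards [(eventually_all_finset _).2 h1, (eventually_all_finset _).2 h2,
    mem_nhdsWithin_of_mem_nhds (J_ev S r₀ x)] with y a1 a2 a3 j
  refine ⟨⟨fun h => ⟨a3 h.1, (a1 j (a3 h.1)).1 h.2⟩, fun h => ⟨?_, (a1 j h.1).2 h.2⟩⟩,
    fun h => (a2 j h.1 h.2).2⟩
  exact mem_J.2 ⟨(mem_J.1 h.1).1, (a2 j h.1 h.2).1⟩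

theorem ne_r_XE9 {x : Amb S.M} {j : ℕ} (hj : j ∈ S.J r₀ x) : j ≠ S.r :=
  (Sp.lt (mem_J.1 hj).2).ne

theorem Ex.tra (ha : Ex S G a) (hG : GR S G) (hC : β.C ⊆ Sg S G) (r₀ b ν : ℕ) :
    Ex β.S' (tr β G) (tra β r₀ b a ν) := by
  classical
  constructor
  · intro j x' hx'
    by_cases hj : j = S.r
    · subst hj
      have hD : β.S'.D S.r ⊆ β.π ⁻¹' β.C := by
        rw [β.exc]
        exact inter_subset_right
      have ht : Tendsto β.π (𝓝[Sg β.S' (tr β G) ∩ β.S'.D S.r] x') (𝓝[β.C] β.π x') :=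
        β.cont.continuousWithinAt.tendsto_nhdsWithin fun y hy => hD hy.2
      filter_upwards [ht.eventually (sum_ev_XE9 ha hC r₀ (hD hx'.2))] with y hy
      simp only [HIR.tra, if_true]
      congr 2
      refine Finset.sum_congr ?_ fun j hj => (hy j).2 (Finset.mem_filter.1 hj)
      ext j
      rw [Finset.mem_filter, Finset.mem_filter]
      exact (hy j).1
    · have ht : Tendsto β.π (𝓝[Sg β.S' (tr β G) ∩ β.S'.D j] x') (𝓝[Sg S G ∩ S.D j] β.π x') :=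
        β.cont.continuousWithinAt.tendsto_nhdsWithin fun y hy =>
          ⟨sg_tr hG hC hy.1, β.str_sub hj hy.2⟩
      filter_upwards [ht.eventually (ha.lc j _ ⟨sg_tr hG hC hx'.1, β.str_sub hj hx'.2⟩)] with y hy
      simp only [HIR.tra, if_neg hj]
      exact hy
  · intro j x'
    simp only [HIR.tra, β.rl, J_cj, ha.rl]
    split_ifs with hj
    · congr 2
      refine Finset.sum_congr ?_ fun _ _ => rfl
      ext i
      rw [Finset.mem_filter, Finset.mem_filter]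
      refine and_congr_right fun _ => ⟨fun h => ?_, fun h => h.bar β.ctr.rl (S.cjD i)⟩
      have := h.bar β.ctr.rl (S.cjD i)
      rwa [cj_cj] at this
    · rfl

theorem ex_up (h : PC S G r₀ k (β.π x') φ (bet T p w) K c) (hu : Up β x' φ T p φ' w)
    (hr : r₀ ≤ S.r) : ex β.S' r₀ (tra β r₀ b a ν) x' (Function.update c S.r p) =
      nex (ex S r₀ a (β.π x') c) T p w ν b := by
  classical
  funext i
  have hn : S.r ∉ (S.J r₀ (β.π x')).filter fun j => c j ≠ p ∧ w (c j) = 0 :=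
    fun hh => ne_r_XE9 (Finset.mem_filter.1 hh).1 rfl
  have e1 : ∀ q : Fin n, ∑ j ∈ ((S.J r₀ (β.π x')).filter fun j => c j ≠ p ∧ w (c j) = 0) with
      Function.update c S.r p j = q, tra β r₀ b a ν j x' =
      ∑ j ∈ (S.J r₀ (β.π x')).filter fun j => (c j ≠ p ∧ w (c j) = 0) ∧ c j = q,
        a j (β.π x') := by
    intro q
    rw [Finset.filter_filter]
    refine Finset.sum_congr (Finset.filter_congr fun j hj => ?_) fun j hj => ?_
    · rw [Function.update_of_ne (ne_r_XE9 hj)]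
    · simp only [tra, if_neg (ne_r_XE9 (Finset.mem_filter.1 hj).1)]
  unfold ex exv nex
  rw [hu.J hr h.co, Finset.filter_insert, Function.update_self]
  by_cases hi : i = p
  · subst hi
    rw [if_pos rfl, if_pos rfl, Finset.sum_insert fun hh => hn (Finset.mem_filter.1 hh).1, e1,
      Finset.filter_false_of_mem fun j _ hh => hh.1.1 hh.2, Finset.sum_empty, add_zero,
      Finset.sum_fiberwise_eq_sum_filter]
    simp only [tra, if_true]
    congr 2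
    refine Finset.sum_congr (Finset.filter_congr fun j hj => ?_) fun _ _ => rfl
    exact cin_iff hu.pt β.ctr.sub hu.sub hu.memC (h.co j hj)
  · rw [if_neg (Ne.symm hi), if_neg hi, e1]
    split_ifs with h0
    · refine Finset.sum_congr (Finset.filter_congr fun j _ => ?_) fun _ _ => rfl
      exact ⟨fun hh => hh.2, fun hh => ⟨⟨hh ▸ hi, hh ▸ h0⟩, hh⟩⟩
    · refine Finset.sum_eq_zero fun j hj => ?_
      have hh := (Finset.mem_filter.1 hj).2
      exact absurd (hh.2 ▸ hh.1.2) h0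

theorem ex_off (hx : x' ∈ β.S'.X) (h : β.π x' ∉ β.C) :
    ex β.S' r₀ (tra β r₀ b a ν) x' c = ex S r₀ a (β.π x') c := by
  funext i
  unfold ex exv
  rw [Bl.J_off hx h]
  refine Finset.sum_congr rfl fun j hj => ?_
  simp only [tra, if_neg (ne_r_XE9 (Finset.mem_filter.1 hj).1)]

/-- the invariant of the loop persists -/
theorem Inv.tr (h : Inv S G H r₀ k b a ν) (hb : 0 < b) (hG : Good S G μ) (hH : Good S H μ')
    (hr : r₀ ≤ S.r) (hle : GLe S G H) (hC : β.C ⊆ Sg S H) :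
    Inv β.S' (HIR.tr β G) (HIR.tr β H) r₀ k b (tra β r₀ b a ν) ν := by
  intro x' hx'
  have hC' : β.C ⊆ Sg S G := hC.trans (sg_mono hle)
  obtain ⟨φ, z, K, c, hp, hl⟩ := h _ (sg_tr hG.rees hC' hx')
  by_cases hx : β.π x' ∈ β.C
  · obtain ⟨τ, σ, T, p, φ', w, hbi, hty, hKT, hu, hp'⟩ := hp.up hG hC' hx'.1 hx
    have hl' := hty.li hbi (lr_loc hG.rees hp.pt) (lr_loc hH.rees hp.pt) hp.zero
      (fun i hi => by
        obtain ⟨j, hj, e, -⟩ := exv_ne hi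
        exact Finset.mem_union_right _ (Finset.mem_image.2 ⟨j, hj, e⟩)) hl
    rw [← loc_comp hG.rees hp.pt hbi, ← loc_comp hH.rees hp.pt hbi] at hl'
    have eG := (hu.loc_tr G).self_of_nhds
    have eH := (hu.loc_tr H).self_of_nhds
    have hs := hx'.2 φ' w hu.pt'
    rw [eG] at hs
    have h2 := (lstep hb hu.mem hu.zero hKT (lr_loc hG.rees hu.pt) (lr_loc hH.rees hu.pt) hl'
      (hH.vanC hu.pt hC hu.sub) hs).2
    refine ⟨φ', w, K, Function.update c S.r p, (hp'.of_up hu hKT hG.rees hr hx').2, ?_⟩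
    rw [eG, eH, ex_up hp' hu hr]
    exact h2
  · obtain ⟨φ', ho⟩ := Bl.exists_off hx'.1 hx hp.pt
    refine ⟨φ', z, K, c, hp.off hG.rees ho, ?_⟩
    rw [ho.loc_tr hG.rees, ho.loc_tr hH.rees, ex_off hx'.1 hx]
    exact hl

theorem Inv.inv0 (h : Inv S G H r₀ k b a ν) (hb : 0 < b) (hH : GR S H) : Inv0 S G r₀ k b a ν := by
  intro x hx
  obtain ⟨φ, z, K, c, hp, hl⟩ := h x hx
  exact ⟨φ, z, K, c, hp, div_of_dom hb (lr_loc hH hp.pt) hp.zero hl.dom, hl.res⟩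

theorem Inv.drop (h : Inv S G H r₀ k b a (ν + 1)) (hb : 0 < b) (hG : GR S G) (hH : GR S H)
    (he : Sg S H = ∅) : Inv0 S G r₀ k b a ν := by
  intro x hx
  obtain ⟨φ, z, K, c, hp, hl⟩ := h x hx
  refine ⟨φ, z, K, c, hp, div_of_dom hb (lr_loc hH hp.pt) hp.zero hl.dom,
    res_drop (lr_loc hG hp.pt) hp.lsg hl.cmp fun hs => ?_⟩
  have h1 := (sg_iff hH hp.pt).2 hs
  rw [he] at h1
  exact h1

end Pool.Agent.HIR
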