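import Pool.Agent.P.MP_65ad7c_ag.XE5
import Pool.Agent.P.MP_65ad7c_ag.XB6

open Set Filter Topology Asymptotics
open scoped ComplexConjugate
open Pool.Agent.HT (Amb proj cj IsChart IsSNC)

noncomputable section
namespace Pool.Agent.HIR

variable {n μ r₀ k b ν : ℕ} {S : Sp n} {G : Alg S.M} {a : ℕ → Amb S.M → ℕ}
  {φ : E n → Amb S.M} {z : E n} {x : Amb S.M} {K : Finset (Fin n)} {c : ℕ → Fin n}

theorem cp_rees (hG : GR S G) : GR S (Cp S G r₀ k b a ν) := by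
  intro x hx
  have R := ring_hol n S.X x
  refine ⟨fun m f h => h.1, fun f hf => ⟨hf, fun φ z K c h => ?_⟩,
    fun m f hf => ⟨hf.1, fun φ z K c h => ?_⟩,
    fun m m' f g hf hg => ⟨R.mul _ _ hf.1 hg.1, fun φ z K c h => ?_⟩,
    fun m f g hf hg => ⟨R.add _ _ hf.1 hg.1, fun φ z K c h => ?_⟩,
    fun m => ⟨R.const 0, fun φ z K c h => ?_⟩,
    fun m f g hf e => ⟨R.congr _ _ hf.1 e, fun φ z K c h => ?_⟩⟩
  · exact (lr_Cmp (lr_loc hG h.pt)).hol _ (hf φ z h.pt)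
  · exact (lr_Cmp (lr_loc hG h.pt)).anti _ _ (hf.2 φ z K c h)
  · exact (lr_Cmp (lr_loc hG h.pt)).mul _ _ _ _ (hf.2 φ z K c h) (hg.2 φ z K c h)
  · exact (lr_Cmp (lr_loc hG h.pt)).add _ _ _ (hf.2 φ z K c h) (hg.2 φ z K c h)
  · exact (lr_Cmp (lr_loc hG h.pt)).zero m
  · exact (lr_Cmp (lr_loc hG h.pt)).congr _ _ _ (hf.2 φ z K c h) (h.pt.tendsto.eventually e)

theorem le_cp (hG : GR S G) : GLe S G (Cp S G r₀ k b a ν) := by
  intro x hx m f hf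
  exact ⟨(hG x hx).an m f hf, fun φ z K c h => le_Cmp _ _ ((mem_loc hG h.pt).2 hf)⟩

theorem loc_cp (hG : GR S G) (hb : 0 < b) (hI : Inv0 S G r₀ k b a ν)
    (h : PC S G r₀ k x φ z K c) :
    loc (Cp S G r₀ k b a ν) φ z = Cmp z (loc G φ z) K b (ex S r₀ a x c) ν := by
  have hR : LR z (Cmp z (loc G φ z) K b (ex S r₀ a x c) ν) := lr_Cmp (lr_loc hG h.pt)
  obtain ⟨hd, hr⟩ := hI.all hG hb h
  refine Le.antisymm ?_ ?_
  · rintro m g ⟨f, hf, e⟩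
    rw [h.pt.eq] at hf
    exact hR.congr _ _ _ (hf.2 φ z K c h) e
  · intro m g hg
    obtain ⟨f, e⟩ := h.pt.lift g
    have hf := hR.congr _ _ _ hg e.symm
    refine ⟨f, ?_, e⟩
    rw [h.pt.eq]
    exact ⟨hol_of_pt h.pt (hR.an _ _ hf),
      fun φ' z' K' c' h' => (h.ind h' hG hb hd hr).2.2 m f hf⟩

theorem loc_cp_off (h : Pt S.X φ z x) (hx : x ∉ Sg S G) :
    loc (Cp S G r₀ k b a ν) φ z = top z := by
  exact loc_top h fun m f => ⟨fun hf => hf.1, fun hf => ⟨hf, fun _ _ _ _ h' => absurd h'.sg hx⟩⟩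

theorem cp_cj (hG : Good S G μ) (ha : Ex S G a) : CjA S (Cp S G r₀ k b a ν) := by
  intro x hx m f hf
  refine ⟨hf.1.cF S.cjX, fun φ z K c h => ?_⟩
  have h' := h.bar hG
  rw [cj_cj] at h'
  have h1 := hf.2 _ _ _ _ h'
  rw [loc_cj hG.rl h.pt, ← cA_Cmp (lr_loc hG.rees h.pt)] at h1
  have e : cF f ∘ φ = cf (f ∘ cφ φ) := by
    rw [← cF_comp f (cφ φ), cφ_cφ]
  rw [ex_cj ha, e]
  exact h1

theorem good_cp (hG : Good S G μ) (hb : 0 < b) (ha : Ex S G a) (hI : Inv0 S G r₀ k b a ν)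
    (hν : 1 ≤ ν) : Good S (Cp S G r₀ k b a ν) (max μ ν) := by
  refine good_of_one (le_trans hν (le_max_right _ _)) (cp_rees hG.rees) (cp_cj hG ha)
    fun x hx => ?_
  by_cases hs : x ∈ Sg S G
  · obtain ⟨φ, z, K, c, h, hd, hr⟩ := hI x hs
    obtain ⟨L, hL⟩ := hG.fg φ z x h.pt
    obtain ⟨L', hL'⟩ := hL.cpf h.pk h.zero (h.sup a) hd hν
    refine ⟨φ, z, h.pt, L', hL'.congr ?_⟩
    filter_upwards [h.pt.ev, hG.sg_ev h.pt, h.ev hG, h.ex_ev ha] with w h1 h2 h3 h4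
    by_cases hw : φ w ∈ Sg S G
    · rw [loc_cp hG.rees hb hI (h3 hw), h4 hw, CpF, if_pos (h2.1 hw)]
    · rw [loc_cp_off h1 hw, CpF, if_neg fun h5 => hw (h2.2 h5)]
  · obtain ⟨φ, z, hp, -⟩ := Sp.chart hx
    refine ⟨φ, z, hp, _, ((gen_top z).mono (le_trans hν (le_max_right _ _))).congr ?_⟩
    filter_upwards [hp.ev, hp.cont.eventually (hG.closed.isOpen_compl.mem_nhds hs)] with w h1 h2
    exact loc_cp_off h1 h2

theorem inv_cp (hG : Good S G μ) (hI : Inv0 S G r₀ k μ.factorial a ν) :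
    Inv S G (Cp S G r₀ k μ.factorial a ν) r₀ k μ.factorial a ν := by
  intro x hx
  obtain ⟨φ, z, K, c, h, hd, hr⟩ := hI x hx
  obtain ⟨L, hL⟩ := hG.fg φ z x h.pt
  refine ⟨φ, z, K, c, h, ?_⟩
  rw [loc_cp hG.rees (Nat.factorial_pos μ) hI h]
  exact hL.li_cmp h.pk h.zero (h.sup a) hd hr

theorem pkg_cp (hG : GR S G) (hb : 0 < b) (hI : Inv0 S G r₀ k b a ν) (hν : 1 ≤ ν) :
    PKg S (Cp S G r₀ k b a ν) S.r (k + 1) := by
  intro x hx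
  obtain ⟨φ, z, K, c, h, hd, g, hg, ho⟩ := hI x (sg_mono (le_cp hG) hx)
  obtain ⟨m, rfl⟩ : ∃ m, ν = m + 1 := ⟨ν - 1, by omega⟩
  have hA := lr_loc hG h.pt
  have hR : LR z (Cmp z (loc G φ z) K b (ex S r₀ a x c) (m + 1)) := lr_Cmp hA
  have e := loc_cp hG hb hI h
  have hs := hx.2 φ z h.pt
  rw [e] at hs
  obtain ⟨u, l, hu, hl, hp⟩ := extra_co hR (dif_Cmp hA) hs h.zero (rr_Cmp hg) hg.2.1 ho
  obtain ⟨σ, hσ⟩ := bi_update (hR.an _ _ hu) hp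
  have hJ : ∀ j, j ∉ S.J S.r x := fun j hj =>
    absurd (Sp.lt (mem_J.1 hj).2) (not_lt.2 (mem_J.1 hj).1)
  refine ⟨φ ∘ σ, _, insert l K, c, h.pt.comp hσ, hx, ?_, ?_, fun j hj => absurd hj (hJ j),
    fun j hj => absurd hj (hJ j)⟩
  · rw [loc_comp (cp_rees hG) h.pt hσ, e]
    exact pk_update hR (dif_Cmp hA) (fun i hi => le_Cmp _ _ (h.pk.co i hi)) hu hl hσ
  · rw [Finset.card_insert_of_notMem hl, h.card]

theorem Inv0.inv (hI : Inv0 S G r₀ k μ.factorial a 0) (hG : Good S G μ) :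
    Inv S G G r₀ k μ.factorial a 0 := by
  intro x hx
  obtain ⟨φ, z, K, c, h, hd, hr⟩ := hI x hx
  obtain ⟨L, hL⟩ := hG.fg φ z x h.pt
  exact ⟨φ, z, K, c, h, hL.li_self h.pk h.zero (h.sup a) hd hr⟩

end Pool.Agent.HIR
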