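import Pool.Agent.P.MP_65ad7c_ag.XE7

open Set Filter Topology Asymptotics
open scoped ComplexConjugate
open Pool.Agent.HT (Amb proj cj IsChart IsSNC)

noncomputable section
namespace Pool.Agent.HIR

variable {n μ r₁ k : ℕ} {S : Sp n} {H : Alg S.M} {A : Finset ℕ} {φ : E n → Amb S.M} {z : E n}
  {x : Amb S.M}

theorem addD_eq_XF2 (hx : x ∈ S.X) : addD S H A x = In (𝓝[S.X] x) (Hol n S.X x)
    (els (H x) ∪ {1} ×ˢ {g | Hol n S.X x g ∧ ∃ j ∈ A, VanD (S.D j) x g}) := by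
  funext m f
  exact propext ⟨fun h => h hx, fun h _ => h⟩

theorem addD_rees (hH : GR S H) : GR S (addD S H A) := by
  intro x hx
  rw [addD_eq_XF2 hx]
  exact In.rees (ring_hol _ _ _) fun q hq => hq.elim (fun h => (hH x hx).an _ _ h) fun h => h.2.1

theorem le_addD : GLe S H (addD S H A) := by
  intro x _ m f hf _
  exact In.gen (Or.inl hf)

theorem loc_addD (h : Pt S.X φ z x) : loc (addD S H A) φ z = LIn z (els (loc H φ z) ∪
    {1} ×ˢ {g | An z g ∧ ∃ j ∈ A, ∀ᶠ y in 𝓝 z, φ y ∈ S.D j → g y = 0}) := by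
  rw [loc_In h (addD_eq_XF2 h.mem)]
  refine congrArg (LIn z) (Set.ext fun q => ⟨?_, ?_⟩)
  · rintro ⟨f, hf | ⟨h1, h2, j, hj, h3⟩, e⟩
    · refine Or.inl ⟨f, ?_, e⟩
      rw [h.eq]
      exact hf
    · refine Or.inr ⟨h1, (h2 φ z h).congr e, j, hj, ?_⟩
      filter_upwards [(vanD_iff h (S.snc.sub j)).1 h3, e] with y h4 h5 h6
      rw [← h5]
      exact h4 h6
  · rintro (⟨f, hf, e⟩ | ⟨h1, h2, j, hj, h3⟩)
    · refine ⟨f, Or.inl ?_, e⟩
      rw [h.eq] at hf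
      exact hf
    · obtain ⟨f, e⟩ := h.lift q.2
      refine ⟨f, Or.inr ⟨h1, hol_of_pt h (h2.congr e.symm), j, hj, ?_⟩, e⟩
      refine (vanD_iff h (S.snc.sub j)).2 ?_
      filter_upwards [h3, e] with y h4 h5 h6
      exact h5.trans (h4 h6)

theorem an_gen_XF2 (hH : GR S H) (h : Pt S.X φ z x) : ∀ q ∈ els (loc H φ z) ∪
    {1} ×ˢ {g | An z g ∧ ∃ j ∈ A, ∀ᶠ y in 𝓝 z, φ y ∈ S.D j → g y = 0}, An z q.2 :=
  fun _ hq => hq.elim (fun h' => (lr_loc hH h).an _ _ h') fun h' => h'.2.1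

theorem off_XF2 {j : ℕ} (h : Pt S.X φ z x) (hj : x ∉ S.D j) :
    ∀ᶠ y in 𝓝 z, φ y ∈ S.D j ↔ (1 : E n → ℂ) y = 0 := by
  filter_upwards [h.cont.eventually ((S.closedD j).isOpen_compl.mem_nhds hj)] with y hy
  exact ⟨fun h1 => absurd h1 hy, fun h1 => absurd h1 one_ne_zero⟩

theorem an_XF2 {e : E n → ℂ} (he : e = 1 ∨ ∃ i, e = co i) (w : E n) : An w e := by
  rcases he with rfl | ⟨i, rfl⟩
  · exact analyticAt_const
  · exact an_co i w

/-- the functions that vanish on a divisor are the multiples of its equation -/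
theorem div_XF2 {B : Gr (E n)} {e g : E n → ℂ} (hB : LR z B) (he : e = 1 ∨ ∃ i, e = co i)
    (h1 : B 1 e) (hg : An z g) (hv : ∀ᶠ y in 𝓝 z, e y = 0 → g y = 0) : B 1 g := by
  by_cases h0 : e z = 0
  · rcases he with rfl | ⟨i, rfl⟩
    · exact absurd h0 one_ne_zero
    · obtain ⟨q, hq, e1⟩ := div_co hg h0 hv
      refine hB.congr _ _ _ (hB.hol_mul hq h1) ?_
      rw [mul_comm]
      exact e1.symm
  · refine Rees.unit hB (an_XF2 he z) h0 ?_
    rw [mul_comm]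
    exact hB.hol_mul hg h1

theorem sg_addD (hH : GR S H) : x ∈ Sg S (addD S H A) ↔ x ∈ Sg S H ∧ ∀ j ∈ A, x ∈ S.D j := by
  constructor
  · intro hx
    refine ⟨sg_mono le_addD hx, fun j hj => by_contra fun hn => ?_⟩
    obtain ⟨φ, z, hp, -⟩ := Sp.chart hx.1
    have h1 := hx.2 φ z hp
    rw [loc_addD hp] at h1
    refine not_lsg_one (f := 1) (In.gen (Or.inr ⟨rfl, analyticAt_const, j, hj, ?_⟩)) one_ne_zero h1
    filter_upwards [off_XF2 hp hn] with y hy using hy.1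
  · rintro ⟨hx, hA⟩
    refine ⟨hx.1, fun φ z hp => ?_⟩
    rw [loc_addD hp, lsg_In (an_gen_XF2 hH hp)]
    rintro ⟨m, g⟩ (hq | ⟨h1, h2, j, hj, h3⟩)
    · exact hx.2 φ z hp _ _ hq
    · obtain rfl : m = 1 := h1
      refine ord_one h2 (h3.self_of_nhds ?_)
      rw [hp.eq]
      exact hA j hj

theorem cF_ev_XF2 {M : ℕ} {C : Set (Amb M)} (hC : MapsTo (cj M) C C) {y : Amb M}
    {f g : Amb M → ℂ} (h : f =ᶠ[𝓝[C] y] g) : cF f =ᶠ[𝓝[C] cj M y] cF g := by
  rw [← map_cj hC, Filter.EventuallyEq, eventually_map]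
  filter_upwards [h] with u hu
  simp only [cF, cj_cj, hu]

theorem cj_addD_XF2 (hH : CjA S H) : CjA S (addD S H A) := by
  intro x hx m f hf _
  have h := hf hx
  clear hf
  induction h with
  | gen hq =>
    rcases hq with hq | ⟨h1, h2, j, hj, h3⟩
    · exact In.gen (Or.inl (hH x hx _ _ hq))
    · refine In.gen (Or.inr ⟨h1, h2.cF S.cjX, j, hj, ?_⟩)
      have h4 := cF_ev_XF2 (S.cjD j) (g := 0) h3
      filter_upwards [h4] with u hu
      rw [hu]
      simp [cF]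
  | hol h => exact In.hol (h.cF S.cjX)
  | anti _ ih => exact In.anti ih
  | mul _ _ ih ih' =>
    exact In.congr (In.mul ih ih') (Eventually.of_forall fun u => by simp [cF])
  | add _ _ ih ih' =>
    exact In.congr (In.add ih ih') (Eventually.of_forall fun u => by simp [cF])
  | zero => exact In.congr In.zero (Eventually.of_forall fun u => by simp [cF])
  | congr _ e ih => exact In.congr ih (cF_ev_XF2 S.cjX e)

theorem good_addD (hH : Good S H μ) : Good S (addD S H A) μ := by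
  refine good_of_one hH.pos (addD_rees hH.rees) (cj_addD_XF2 hH.rl) fun x hx => ?_
  obtain ⟨φ, z, hp, hc⟩ := Sp.chart hx
  obtain ⟨L, hL⟩ := hH.fg φ z x hp
  have he : ∀ j, ∃ e : E n → ℂ, (e = 1 ∨ ∃ i, e = co i) ∧
      ∀ᶠ y in 𝓝 z, φ y ∈ S.D j ↔ e y = 0 := by
    intro j
    by_cases hj : x ∈ S.D j
    · obtain ⟨i, hi⟩ := hc j hj
      exact ⟨co i, Or.inr ⟨i, rfl⟩, hi⟩
    · exact ⟨1, Or.inl rfl, off_XF2 hp hj⟩
  choose e he1 he2 using he
  refine ⟨φ, z, hp, L ∪ (fun j => (1, e j)) '' A, hL.fin.union (A.finite_toSet.image _), ?_, ?_, ?_⟩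
  · rintro q (hq | ⟨j, -, rfl⟩)
    · exact hL.wt q hq
    · exact ⟨le_rfl, hH.pos⟩
  · rintro q (hq | ⟨j, -, rfl⟩)
    · exact hL.an q hq
    · exact an_XF2 (he1 j) z
  · filter_upwards [hp.ev, hL.ev, (eventually_all_finset A).2 fun j _ =>
      (he2 j).eventually_nhds] with w hw hLw hew
    have hB : LR w (LIn w (L ∪ (fun j => (1, e j)) '' A)) := by
      refine lr_In ?_
      rintro q (hq | ⟨j, -, rfl⟩)
      · exact hLw.an q hq
      · exact an_XF2 (he1 j) w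
    rw [loc_addD hw]
    refine Le.antisymm (In.le hB ?_) (In.le (lr_In (an_gen_XF2 hH.rees hw)) ?_)
    · rintro ⟨m, g⟩ (hq | ⟨h1, h2, j, hj, h3⟩)
      · rw [hLw.self] at hq
        exact In.mono subset_union_left _ _ hq
      · obtain rfl : m = 1 := h1
        refine div_XF2 hB (he1 j) (In.gen (Or.inr ⟨j, hj, rfl⟩)) h2 ?_
        filter_upwards [h3, hew j hj] with y h4 h5 h6 using h4 (h5.2 h6)
    · rintro q (hq | ⟨j, hj, rfl⟩)
      · refine In.gen (Or.inl ?_)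
        rw [hLw.self]
        exact In.gen hq
      · refine In.gen (Or.inr ⟨rfl, an_XF2 (he1 j) w, j, hj, ?_⟩)
        filter_upwards [hew j hj] with y hy using hy.1

theorem pkg_addD (hH : GR S H) (h : PKg S H r₁ k) : PKg S (addD S H A) r₁ k := by
  intro x hx
  obtain ⟨φ, z, K, c, hc⟩ := h x (sg_mono le_addD hx)
  refine ⟨φ, z, K, c, hc.pt, hx, ⟨fun i hi => loc_le le_addD hc.pt _ _ (hc.pk.co i hi),
    fun i hi => ?_⟩, hc.card, hc.co, hc.out⟩
  rw [loc_addD hc.pt]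
  refine In.dif (an_gen_XF2 hH hc.pt) ?_
  rintro m f (hq | ⟨h1, h2, -⟩)
  · exact In.gen (Or.inl (hc.pk.der i hi m f hq))
  · obtain rfl : m = 0 := Nat.succ_injective h1
    exact In.hol (an_pd h2 i)

theorem van_addD {j : ℕ} {f : Amb S.M → ℂ} (hj : j ∈ A) (hf : Hol n S.X x f)
    (hv : VanD (S.D j) x f) : addD S H A x 1 f := by
  intro _
  exact In.gen (Or.inr ⟨rfl, hf, j, hj, hv⟩)

theorem off_tr_XF2 {β : Bl S} {x' : Amb β.S'.M} {φ' : E n → Amb β.S'.M} (hH : GR S H)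
    (h : Off β x' φ φ' z) :
    loc (tr β (addD S H A)) φ' z = loc (addD β.S' (tr β H) A) φ' z := by
  have he : ∀ j, ∀ᶠ y in 𝓝 z, φ' y ∈ β.S'.D j ↔ φ y ∈ S.D j := by
    intro j
    filter_upwards [h.ev] with y hy
    rw [Bl.mem_off hy.2.pt'.mem hy.2.out, hy.1]
  rw [h.loc_tr (addD_rees hH), loc_addD h.pt, loc_addD h.pt', h.loc_tr hH]
  refine congrArg (LIn z) (congrArg _ (congrArg _ (Set.ext fun g => and_congr_right fun _ =>
    exists_congr fun j => and_congr_right fun _ => ⟨fun h1 => ?_, fun h1 => ?_⟩)))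
  · filter_upwards [h1, he j] with y h2 h3 h4 using h2 (h3.1 h4)
  · filter_upwards [h1, he j] with y h2 h3 h4 using h2 (h3.2 h4)

theorem up_tr_XF2 {β : Bl S} {x' : Amb β.S'.M} {φ' : E n → Amb β.S'.M} {T : Finset (Fin n)}
    {p : Fin n} {w : E n} (hH : Good S H μ) (hA : ∀ j ∈ A, j < S.r)
    (hC : β.C ⊆ Sg S (addD S H A)) (h : Up β x' φ T p φ' w)
    (hc : ∀ j, β.π x' ∈ S.D j → ∃ i, Co (S.D j) φ (bet T p w) i) :
    loc (tr β (addD S H A)) φ' w = loc (addD β.S' (tr β H) A) φ' w := by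
  have hD : ∀ j ∈ A, ∀ y ∈ β.C, y ∈ S.D j := fun j hj y hy =>
    ((sg_addD hH.rees).1 (hC hy)).2 j hj
  have he : ∀ j ∈ A, ∃ (i : Fin n) (e : E n → ℂ), Co (S.D j) φ (bet T p w) i ∧
      bet T p w i = 0 ∧ (e = 1 ∨ ∃ i, e = co i) ∧ co i ∘ bet T p = co p ^ 1 * e ∧
      ∀ᶠ y in 𝓝 w, φ' y ∈ β.S'.D j ↔ e y = 0 := by
    intro j hj
    have h1 := hD j hj _ h.memC
    obtain ⟨i, hi⟩ := hc j h1
    have h2 : i ∈ T := (cin_iff h.pt β.ctr.sub h.sub h.memC hi).1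
      (eventually_nhdsWithin_of_forall (hD j hj))
    have h3 : bet T p w i = 0 := hi.zero.1 (by rw [h.pt.eq]; exact h1)
    by_cases hp : i = p
    · subst hp
      refine ⟨i, 1, hi, h3, Or.inl rfl, ?_, off_XF2 h.pt' (h.str_self (hA j hj).ne hi)⟩
      funext y
      simp [co, bet_self]
    · exact ⟨i, co i, hi, h3, Or.inr ⟨i, rfl⟩, co_bet h2 hp, h.str (hA j hj).ne hi h3 hp⟩
  have hB := lr_loc (addD_rees (A := A) (tr_rees β H)) h.pt'
  have hR := loc_addD (H := tr β H) (A := A) h.pt'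
  rw [(h.loc_tr H).self_of_nhds] at hR
  have hL := loc_addD (H := H) (A := A) h.pt
  rw [(h.loc_tr (addD S H A)).self_of_nhds]
  refine Le.antisymm (ltr_le_of_pre hB ?_) ?_
  · rw [hL]
    refine In.le (lr_pre hB) ?_
    rintro ⟨m, g⟩ (hq | ⟨h1, h2, j, hj, h3⟩)
    · obtain ⟨h1, g', h2, h3⟩ := le_pre_ltr h.mem h.zero (lr_loc hH.rees h.pt)
        (hH.vanC h.pt (hC.trans (sg_mono le_addD)) h.sub) _ _ hq
      refine ⟨h1, g', ?_, h3⟩
      rw [hR]
      exact In.gen (Or.inl h2)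
    · obtain rfl : m = 1 := h1
      obtain ⟨i, e, e1, e2, e3, e4, e5⟩ := he j hj
      obtain ⟨q, hq, e6⟩ := div_co h2 e2 (by
        filter_upwards [h3, e1] with y h4 h5 h6 using h4 (h5.2 h6))
      refine ⟨h2, (q ∘ bet T p) * e, hB.hol_mul (hq.comp (an_bet T p w)) ?_, ?_⟩
      · rw [hR]
        refine In.gen (Or.inr ⟨rfl, an_XF2 e3 w, j, hj, ?_⟩)
        filter_upwards [e5] with y hy using hy.1
      · filter_upwards [(an_bet T p w).continuousAt.eventually e6] with y hy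
        have h7 := congrFun e4 y
        simp only [Function.comp_apply, Pi.mul_apply] at hy h7 ⊢
        rw [hy, h7]
        ring
  · rw [hR]
    refine In.le (lr_ltr _ T p w) ?_
    rintro ⟨m, g⟩ (hq | ⟨h1, h2, j, hj, h3⟩)
    · exact ltr_mono (loc_le le_addD h.pt) _ _ hq
    · obtain rfl : m = 1 := h1
      obtain ⟨i, e, e1, e2, e3, e4, e5⟩ := he j hj
      refine div_XF2 (lr_ltr _ T p w) e3 (ltr_gen (f := co i) ?_ (an_XF2 e3 w) e4.eventuallyEq) h2 ?_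
      · rw [hL]
        refine In.gen (Or.inr ⟨rfl, an_co i _, j, hj, ?_⟩)
        filter_upwards [e1] with y hy using hy.1
      · filter_upwards [h3, e5] with y h4 h5 h6 using h4 (h5.2 h6)

theorem tr_addD {β : Bl S} (hH : Good S H μ) (hA : ∀ j ∈ A, j < S.r)
    (hC : β.C ⊆ Sg S (addD S H A)) : tr β (addD S H A) = addD β.S' (tr β H) A := by
  funext x'
  by_cases hx : x' ∈ β.S'.X
  · have key : ∃ (φ' : E n → Amb β.S'.M) (w : E n), Pt β.S'.X φ' w x' ∧
        loc (tr β (addD S H A)) φ' w = loc (addD β.S' (tr β H) A) φ' w := by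
      by_cases h : β.π x' ∈ β.C
      · obtain ⟨s, hs⟩ := β.ctr.chart
        obtain ⟨φ, z, T, hp, -, hT, hc⟩ := hs _ h
        obtain ⟨φ', w, p, rfl, hu⟩ := Bl.exists_up hx h hp hT
        exact ⟨φ', w, hu.pt', up_tr_XF2 hH hA hC hu hc⟩
      · obtain ⟨φ, z, hp, -⟩ := Sp.chart (β.maps hx)
        obtain ⟨φ', ho⟩ := Bl.exists_off hx h hp
        exact ⟨φ', z, ho.pt', off_tr_XF2 hH.rees ho⟩
    obtain ⟨φ', w, hp, e⟩ := key
    refine Le.antisymm (le_of_loc (tr_rees β _) (addD_rees (tr_rees β H)) hp ?_)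
      (le_of_loc (addD_rees (tr_rees β H)) (tr_rees β _) hp ?_)
    · rw [e]
      exact Le.refl _
    · rw [e]
      exact Le.refl _
  · funext m f
    exact propext ⟨fun _ h => absurd h hx, fun _ h => absurd h hx⟩

end Pool.Agent.HIR
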