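import Pool.Agent.P.MP_65ad7c_ag.XE9
import Pool.Agent.P.MP_65ad7c_ag.XB5

open Set Filter Topology Asymptotics
open scoped ComplexConjugate
open Pool.Agent.HT (Amb proj cj IsChart IsSNC)

noncomputable section
namespace Pool.Agent.HIR

variable {n μ r₀ k s ρ : ℕ} {S : Sp n} {G : Alg S.M} {a : ℕ → Amb S.M → ℕ} {φ : E n → Amb S.M}
  {z : E n} {x : Amb S.M} {K : Finset (Fin n)} {c : ℕ → Fin n} {A : Finset ℕ}

theorem lmon_XF5 (hI : Inv0 S G r₀ k μ.factorial a 0) (hG : Good S G μ)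
    (h : PC S G r₀ k x φ z K c) : ∀ᶠ w in 𝓝 z, φ w ∈ Sg S G ↔
      (∀ i ∈ K, w i = 0) ∧ μ.factorial ≤ ∑ i with w i = 0, ex S r₀ a x c i := by
  obtain ⟨L, hL⟩ := hG.fg φ z x h.pt
  obtain ⟨hd, hr⟩ := hI.all hG.rees (Nat.factorial_pos μ) h
  filter_upwards [hL.lmon h.pk hd hr, hG.sg_ev h.pt] with w h1 h2
  exact h2.trans h1

theorem Inv0.le_sum (hI : Inv0 S G r₀ k μ.factorial a 0) (hG : Good S G μ) (hx : x ∈ Sg S G) :
    μ.factorial ≤ ∑ j ∈ S.J r₀ x, a j x := by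
  obtain ⟨φ, z, K, c, h, -, -⟩ := hI x hx
  have h1 := (lmon_XF5 hI hG h).self_of_nhds
  rw [h.pt.eq, h.sum] at h1
  exact (h1.1 hx).2

theorem sub_mc (hI : Inv0 S G r₀ k μ.factorial a 0) (hG : Good S G μ) (ha : Ex S G a)
    (hs : μ.factorial ≤ s) (h : PC S G r₀ k x φ z K c) (hx : x ∈ MC S G r₀ a A s) :
    Sub (MC S G r₀ a A s) φ z (K ∪ A.image c) := by
  obtain ⟨-, hA, hsum⟩ := hx
  filter_upwards [lmon_XF5 hI hG h, h.J_ev, h.a_ev ha] with w h1 h2 h3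
  constructor
  · rintro ⟨m1, m2, -⟩ i hi
    rcases Finset.mem_union.1 hi with hi | hi
    · exact (h1.1 m1).1 i hi
    · obtain ⟨j, hj, rfl⟩ := Finset.mem_image.1 hi
      have := m2 hj
      rw [h2] at this
      exact (Finset.mem_filter.1 this).2
  · intro h0
    have hc0 : ∀ j ∈ A, w (c j) = 0 := fun j hj =>
      h0 _ (Finset.mem_union_right _ (Finset.mem_image_of_mem c hj))
    have e : ∑ i ∈ A.image c, ex S r₀ a x c i = s := by
      rw [Finset.sum_image (h.inj.mono (Finset.coe_subset.2 hA)), ← hsum]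
      exact Finset.sum_congr rfl fun j hj => exv_of_mem h.inj _ (hA hj)
    have m1 : φ w ∈ Sg S G := by
      refine h1.2 ⟨fun i hi => h0 i (Finset.mem_union_left _ hi), hs.trans ?_⟩
      rw [← e]
      refine Finset.sum_le_sum_of_subset fun i hi => ?_
      obtain ⟨j, hj, rfl⟩ := Finset.mem_image.1 hi
      exact Finset.mem_filter.2 ⟨Finset.mem_univ _, hc0 j hj⟩
    have m2 : A ⊆ S.J r₀ (φ w) := fun j hj => by
      rw [h2]
      exact Finset.mem_filter.2 ⟨hA hj, hc0 j hj⟩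
    refine ⟨m1, m2, ?_⟩
    rw [← hsum]
    exact Finset.sum_congr rfl fun j hj => h3 m1 j (m2 hj)

theorem ctr_mc (hn : 0 < n) (hI : Inv0 S G r₀ k μ.factorial a 0) (hG : Std S G r₀ μ)
    (ha : Ex S G a) (hs : μ.factorial ≤ s) : Ctr S (MC S G r₀ a A s) := by
  refine ctr_of hn hG (fun x hx => hx.1) ?_ (fun x hx => ?_) (k + A.card) fun x hx => ?_
  · refine isClosed_of_closure_subset fun x hx => ?_
    have hne := mem_closure_iff_nhdsWithin_neBot.1 hx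
    have m1 : x ∈ Sg S G := closure_minimal (fun y hy => hy.1) hG.good.closed hx
    have hsub : ∀ j ∈ A, MC S G r₀ a A s ⊆ Sg S G ∩ S.D j := fun j hj y hy =>
      ⟨hy.1, (mem_J.1 (hy.2.1 hj)).2⟩
    have m2 : ∀ j ∈ A, x ∈ S.D j := fun j hj =>
      closure_minimal (fun y hy => (hsub j hj hy).2) (S.closedD j) hx
    have h3 : ∀ᶠ y in 𝓝[MC S G r₀ a A s] x, ∀ j ∈ A, a j y = a j x :=
      (Finset.eventually_all A).2 fun j hj =>
        (ha.lc j x ⟨m1, m2 j hj⟩).filter_mono (nhdsWithin_mono _ (hsub j hj))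
    obtain ⟨y, hy, hy'⟩ := (h3.and self_mem_nhdsWithin).exists
    refine ⟨m1, fun j hj => mem_J.2 ⟨(mem_J.1 (hy'.2.1 hj)).1, m2 j hj⟩, ?_⟩
    rw [← hy'.2.2]
    exact Finset.sum_congr rfl fun j hj => (hy j hj).symm
  · refine ⟨hG.good.sg_cj hx.1, by rw [J_cj]; exact hx.2.1, ?_⟩
    rw [← hx.2.2]
    exact Finset.sum_congr rfl fun j _ => ha.rl j x
  · obtain ⟨φ, z, K, c, h, -, -⟩ := hI x hx.1
    refine ⟨φ, z, K ∪ A.image c, h.pt, ?_, sub_mc hI hG.good ha hs h hx,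
      fun j hj => ⟨c j, h.co j hj⟩⟩
    rw [Finset.card_union_of_disjoint,
      Finset.card_image_of_injOn (h.inj.mono (Finset.coe_subset.2 hx.2.1)), h.card]
    rw [Finset.disjoint_right]
    intro i hi
    obtain ⟨j, hj, rfl⟩ := Finset.mem_image.1 hi
    exact h.out j (hx.2.1 hj)

/-- over the centre one of the divisors is missing, and the new exponent is `s - b` -/
theorem mc_up (hI : Inv0 S G r₀ k μ.factorial a 0) (hG : Std S G r₀ μ) (ha : Ex S G a)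
    (hs : μ.factorial ≤ s) {β : Bl S} (hβ : β.C = MC S G r₀ a A s) {x' : Amb β.S'.M}
    (hx' : x' ∈ Sg β.S' (tr β G)) (hx : β.π x' ∈ β.C) :
    (∃ j ∈ A, x' ∉ β.S'.D j) ∧ tra β r₀ μ.factorial a 0 S.r x' = s - μ.factorial := by
  have hC : β.C ⊆ Sg S G := fun y hy => by rw [hβ] at hy; exact hy.1
  have hm : β.π x' ∈ MC S G r₀ a A s := hβ ▸ hx
  obtain ⟨φ, z, K, c, h, -, -⟩ := hI _ hm.1
  obtain ⟨τ, σ, T, p, φ', w, -, -, hK, hu, h2⟩ := h.up hG.good hC hx'.1 hx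
  have hT : T = K ∪ A.image c := by
    refine hu.sub.uniq ?_ (by rw [hu.pt.eq]; exact hx)
    rw [hβ]
    exact sub_mc hI hG.good ha hs h2 hm
  have hp := (h2.of_up hu hK hG.good.rees hG.le hx').1
  constructor
  · have hpT := hu.mem
    rw [hT] at hpT
    obtain ⟨j, hj, rfl⟩ := Finset.mem_image.1 ((Finset.mem_union.1 hpT).resolve_left hp)
    have hjJ := hm.2.1 hj
    exact ⟨j, hj, hu.str_self (Sp.lt (mem_J.1 hjJ).2).ne (h2.co j hjJ)⟩
  · rw [tra, if_pos rfl, add_zero, ← hm.2.2]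
    congr 2
    ext i
    simp only [Finset.mem_filter]
    constructor
    · rintro ⟨hi, hc⟩
      rw [cin_iff h2.pt β.ctr.sub hu.sub hx (h2.co i hi), hT] at hc
      obtain ⟨j, hj, e⟩ :=
        Finset.mem_image.1 ((Finset.mem_union.1 hc).resolve_left (h2.out i hi))
      rwa [← h2.inj (hm.2.1 hj) hi e]
    · intro hi
      refine ⟨hm.2.1 hi, ?_⟩
      rw [cin_iff h2.pt β.ctr.sub hu.sub hx (h2.co i (hm.2.1 hi)), hT]
      exact Finset.mem_union_right _ (Finset.mem_image_of_mem c hi)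

theorem tra_sum_XF5 {β : Bl S} {b ν : ℕ} {x' : Amb β.S'.M} {B : Finset ℕ}
    (hB : B ⊆ S.J r₀ (β.π x')) :
    ∑ j ∈ B, tra β r₀ b a ν j x' = ∑ j ∈ B, a j (β.π x') :=
  Finset.sum_congr rfl fun j hj => by
    rw [tra, if_neg (Sp.lt (mem_J.1 (hB hj)).2).ne]

theorem cmp_XF5 (hI : Inv0 S G r₀ k μ.factorial a 0) (hG : Std S G r₀ μ) (ha : Ex S G a)
    (hs : μ.factorial ≤ s) {β : Bl S} (hβ : β.C = MC S G r₀ a A s) (hA : A.card = ρ)
    (h1 : M1 S G r₀ μ.factorial a ρ) {x' : Amb β.S'.M} (hx' : x' ∈ Sg β.S' (tr β G))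
    {B : Finset ℕ} (hB : B ⊆ β.S'.J r₀ x') :
    (B ⊆ S.J r₀ (β.π x') ∧ (∑ j ∈ B, a j (β.π x') = s → B ≠ A)) ∨
      ∃ B' ⊆ S.J r₀ (β.π x'), B'.card = B.card ∧
        ∑ j ∈ B, tra β r₀ μ.factorial a 0 j x' < ∑ j ∈ B', a j (β.π x') := by
  have hC : β.C ⊆ Sg S G := fun y hy => by rw [hβ] at hy; exact hy.1
  have hsg : β.π x' ∈ Sg S G := sg_tr hG.good.rees hC hx'
  by_cases hx : β.π x' ∈ β.C
  · obtain ⟨⟨j, hj, hjD⟩, he⟩ := mc_up hI hG ha hs hβ hx' hx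
    have hm : β.π x' ∈ MC S G r₀ a A s := hβ ▸ hx
    have hjB : j ∉ B := fun hb => hjD (mem_J.1 (hB hb)).2
    have hB' : B ⊆ insert S.r (S.J r₀ (β.π x')) := hB.trans (β.J_sub r₀ x')
    by_cases hr : S.r ∈ B
    · right
      have hB0 : B.erase S.r ⊆ S.J r₀ (β.π x') := Finset.subset_insert_iff.1 hB'
      have hj0 : j ∉ B.erase S.r := fun hb => hjB (Finset.mem_of_mem_erase hb)
      refine ⟨insert j (B.erase S.r), Finset.insert_subset (hm.2.1 hj) hB0, ?_, ?_⟩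
      · rw [Finset.card_insert_of_notMem hj0, Finset.card_erase_add_one hr]
      · have e1 := h1 _ hsg (A.erase j) ((Finset.erase_subset _ _).trans hm.2.1)
          (hA ▸ Finset.card_erase_lt_of_mem hj)
        have e2 := Finset.add_sum_erase A (fun j => a j (β.π x')) hj
        rw [hm.2.2] at e2
        rw [Finset.sum_insert hj0, ← Finset.add_sum_erase B _ hr, he, tra_sum_XF5 hB0]
        omega
    · left
      refine ⟨(Finset.subset_insert_iff_of_notMem hr).1 hB', fun _ e => hjB (e ▸ hj)⟩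
  · left
    rw [Bl.J_off hx'.1 hx] at hB
    refine ⟨hB, fun e e' => hx ?_⟩
    rw [hβ]
    exact ⟨hsg, e' ▸ hB, e' ▸ e⟩

theorem mstep (hI : Inv0 S G r₀ k μ.factorial a 0) (hG : Std S G r₀ μ) (ha : Ex S G a)
    (hs : μ.factorial ≤ s) {β : Bl S} (hβ : β.C = MC S G r₀ a A s) (hA : A.card = ρ)
    {𝒜 : Finset (Finset ℕ)} (h1 : M1 S G r₀ μ.factorial a ρ) (h2 : M2 S G r₀ a ρ s 𝒜) :
    M1 β.S' (tr β G) r₀ μ.factorial (tra β r₀ μ.factorial a 0) ρ ∧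
      M2 β.S' (tr β G) r₀ (tra β r₀ μ.factorial a 0) ρ s (𝒜.erase A) := by
  have hC : β.C ⊆ Sg S G := fun y hy => by rw [hβ] at hy; exact hy.1
  refine ⟨fun x' hx' B hB hc => ?_, fun x' hx' B hB hc => ?_⟩
  · have hsg : β.π x' ∈ Sg S G := sg_tr hG.good.rees hC hx'
    rcases cmp_XF5 hI hG ha hs hβ hA h1 hx' hB with ⟨e1, -⟩ | ⟨B', e1, e2, e3⟩
    · rw [tra_sum_XF5 e1]
      exact h1 _ hsg B e1 hc
    · exact e3.trans (h1 _ hsg B' e1 (e2 ▸ hc))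
  · have hsg : β.π x' ∈ Sg S G := sg_tr hG.good.rees hC hx'
    rcases cmp_XF5 hI hG ha hs hβ hA h1 hx' hB with ⟨e1, e2⟩ | ⟨B', e1, e2, e3⟩
    · rw [tra_sum_XF5 e1]
      obtain ⟨f1, f2⟩ := h2 _ hsg B e1 hc
      exact ⟨f1, fun e => Finset.mem_erase.2 ⟨e2 e, f2 e⟩⟩
    · have := e3.trans_le (h2 _ hsg B' e1 (e2.trans hc)).1
      exact ⟨this.le, fun e => absurd e this.ne⟩

end Pool.Agent.HIR
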