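import Pool.Agent.P.MP_e12fcd_ag.Weil.Shiffman
import Pool.Agent.P.MP_65ad7c_ag.XE3

open Set Filter Topology Asymptotics
open scoped ComplexConjugate
open Pool.Agent.HT (Amb proj cj IsChart IsSNC)

noncomputable section
namespace Pool.Agent.HIR

variable {n M N q : ℕ}

/-- compact complex submanifolds of dimension `e` -/
structure Mf (e : ℕ) (X : Set (Amb M)) : Prop where
  compact : IsCompact X
  chart : ∀ x ∈ X, ∃ (φ : E e → Amb M) (z : E e), Pt X φ z x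

/-- `ph` is a holomorphic map from `X` to projective space -/
def HolP (n : ℕ) (X : Set (Amb M)) (ph : Amb M → Amb N) : Prop :=
  ∀ (φ : E n → Amb M) z x, Pt X φ z x → ∃ g : E n → Fin N → ℂ, AnalyticAt ℂ g z ∧ g z ≠ 0 ∧
    ph ∘ φ =ᶠ[𝓝 z] proj ∘ g

/-- `ph` is an immersion at `x` -/
def ImmP (n : ℕ) (X : Set (Amb M)) (ph : Amb M → Amb N) (x : Amb M) : Prop :=
  ∃ (φ : E n → Amb M) (z : E n) (g : E n → Fin N → ℂ), Pt X φ z x ∧ AnalyticAt ℂ g z ∧ g z ≠ 0 ∧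
    ph ∘ φ =ᶠ[𝓝 z] proj ∘ g ∧ ∀ (v : E n) (c : ℂ), fderiv ℂ g z v = c • g z → v = 0

/-- the inclusion of a coordinate subspace -/
def emb {e : ℕ} (s : Fin e ↪ Fin n) (w : E e) : E n := Function.extend s w 0

/-- evaluation of a polynomial -/
def ev (P : MvPolynomial (Fin N) ℂ) (v : Fin N → ℂ) : ℂ := MvPolynomial.eval v P

/-- the Segre product -/
def tens (v : Fin M → ℂ) (y : Fin q → ℂ) : Fin (M * q) → ℂ :=
  fun k => v (finProdFinEquiv.symm k).1 * y (finProdFinEquiv.symm k).2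

/-- the partial trace -/
def ptr (M q : ℕ) (x : Amb (M * q)) : Amb M :=
  WithLp.toLp 2 fun p => ∑ a, x (finProdFinEquiv (p.1, a), finProdFinEquiv (p.2, a))

/-- the graph of `H` over the complement of `C` -/
def gph (X C : Set (Amb M)) (H : (Fin M → ℂ) → Fin q → ℂ) : Set (Amb (M * q)) :=
  {x | ∃ v, v ≠ 0 ∧ proj v ∈ X ∧ proj v ∉ C ∧ x = proj (tens v (H v))}

/-- `H` is a system of real homogeneous generators of the ideal of `C` in `X` -/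
structure SegD (n : ℕ) (X C : Set (Amb M)) (H : (Fin M → ℂ) → Fin q → ℂ) : Prop where
  mf : Mf n X
  closed : IsClosed C
  sub : C ⊆ X
  an : ∀ v, AnalyticAt ℂ H v
  hom : ∃ k : ℕ, ∀ (c : ℂ) v, H (c • v) = c ^ k • H v
  rl : ∀ v, H (star v) = star (H v)
  zero : ∀ v, v ≠ 0 → (H v = 0 ↔ proj v ∈ C)
  ind : ∀ (g : E n → Fin M → ℂ) z T, Pt X (proj ∘ g) z (proj (g z)) → AnalyticAt ℂ g z →
    g z ≠ 0 → proj (g z) ∈ C → Sub C (proj ∘ g) z T →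
    ∀ c : E n, fderiv ℂ (H ∘ g) z c = 0 → ∀ i ∈ T, c i = 0

/-- a blow-up without its divisors -/
structure PreBl (S : Sp n) (C : Set (Amb S.M)) {M' : ℕ} (X' : Set (Amb M'))
    (π : Amb M' → Amb S.M) : Prop where
  compact : IsCompact X'
  cjX : MapsTo (cj M') X' X'
  cont : Continuous π
  maps : MapsTo π X' S.X
  rl : ∀ x, π (cj M' x) = cj S.M (π x)
  inj : InjOn π (X' \ π ⁻¹' C)
  surj : SurjOn π X' (S.X \ C)
  off : ∀ x' ∈ X', π x' ∉ C → ∀ (φ : E n → Amb S.M) z, Pt S.X φ z (π x') →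
    ∃ φ', Pt X' φ' z x' ∧ π ∘ φ' =ᶠ[𝓝 z] φ
  on : ∀ x' ∈ X', π x' ∈ C → ∀ (φ : E n → Amb S.M) z T, Pt S.X φ z (π x') → Sub C φ z T →
    ∃ φ' w p, p ∈ T ∧ w p = 0 ∧ bet T p w = z ∧ Pt X' φ' w x' ∧ π ∘ φ' =ᶠ[𝓝 w] φ ∘ bet T p

end Pool.Agent.HIR
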