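import Pool.Agent.P.MP_65ad7c_ag.XG0

open Set Filter Topology Asymptotics
open scoped ComplexConjugate
open Pool.Agent.HT (Amb proj cj IsChart IsSNC)

noncomputable section
namespace Pool.Agent.HIR

theorem es_top_XG4 {K : ℕ} (w : Fin K → ℂ) : Weil.ShifAux.es K w = 1 := by
  rw [Weil.ShifAux.es, Finset.prod_X_add_C_coeff _ _ (by simp)]
  simp

theorem roots_finite_XG4 (K : ℕ) (a : ℕ → ℂ) :
    {t : ℂ | t ^ K + ∑ j ∈ Finset.range K, a j * t ^ j = 0}.Finite := by
  let p : Polynomial ℂ :=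
    Polynomial.X ^ K + ∑ j ∈ Finset.range K, Polynomial.C (a j) * Polynomial.X ^ j
  have hp : p ≠ 0 := by
    intro e
    have := congrArg (fun q : Polynomial ℂ => q.coeff K) e
    simp [p, Polynomial.finsetSum_coeff, Polynomial.coeff_C_mul, Polynomial.coeff_X_pow] at this
  refine (Polynomial.finite_setOfPred_isRoot hp).subset fun t ht => ?_
  have ht' : t ^ K + ∑ j ∈ Finset.range K, a j * t ^ j = 0 := ht
  simpa [p, Polynomial.IsRoot, Polynomial.eval_finsetSum] using ht'

variable {V P : Type} [NormedAddCommGroup V] [NormedSpace ℂ V] [FiniteDimensional ℂ V]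
  [NormedAddCommGroup P] [NormedSpace ℂ P] [FiniteDimensional ℂ P]
  {c : Weil.PChain V P} {m : ℕ} {π : V →L[ℂ] (Fin m → ℂ)} {W : Set V} {Δ F : Set (Fin m → ℂ)}
  {K : ℕ}

/-- the characteristic polynomial of a linear form -/
theorem norm_poly (h : Weil.LocalCover c π W Δ F K) (l : V →L[ℂ] ℂ) :
    ∃ g : ℕ → (Fin m → ℂ) → ℂ, (∀ j, DifferentiableOn ℂ (g j) Δ) ∧
      (∀ v ∈ W ∩ closure (c.F '' c.good),
        l v ^ K + ∑ j ∈ Finset.range K, g j (π v) * l v ^ j = 0) ∧
      ∀ y ∈ Δ \ F, ∃ s : Fin K → c.Z, Function.Injective s ∧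
        (∀ z, (z ∈ c.good ∧ c.F z ∈ W ∧ π (c.F z) = y) ↔ ∃ a, z = s a) ∧
        ∀ t : ℂ, t ^ K + ∑ j ∈ Finset.range K, g j y * t ^ j = ∏ a, (t - l (c.F (s a))) := by
  classical
  have : ProperSpace V := FiniteDimensional.proper ℂ V
  choose N hN s hs1 hs2 using h.sheets
  obtain ⟨R, hR⟩ := h.bdd.subset_closedBall 0
  let C : Set (Fin K → V) := univ.pi fun _ => closure (c.F '' c.good) ∩ Metric.closedBall 0 R
  have hC : IsCompact C :=
    isCompact_univ_pi fun _ => (isCompact_closedBall 0 R).inter_left isClosed_closure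
  let w : (Fin m → ℂ) → Fin K → V := fun y a => if hy : y ∈ Δ \ F then c.F (s y hy a y) else 0
  have hw : ∀ y (hy : y ∈ Δ \ F), w y = fun a => c.F (s y hy a y) := fun y hy => by
    funext a; simp only [w, dif_pos hy]
  have hself : ∀ y (hy : y ∈ Δ \ F), y ∈ N y hy := fun y hy => mem_of_mem_nhds (hN y hy)
  have hwC : ∀ y ∈ Δ \ F, w y ∈ C := by
    intro y hy a _
    rw [hw y hy]
    have := ((hs2 y hy y (hself y hy)).2 _).2 ⟨a, rfl⟩
    exact ⟨subset_closure ⟨_, this.1, rfl⟩, hR this.2.1⟩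
  let e : ℕ → (Fin K → V) → ℂ := fun j u => Weil.ShifAux.es j fun a => -l (u a)
  have he : ∀ j ≤ K, Differentiable ℂ (e j) := fun j hj =>
    (Weil.ShifAux.differentiable_es hj).comp (differentiable_pi.2 fun a =>
      (l.differentiable.comp (differentiable_apply a)).neg)
  have hext : ∀ j, ∃ g : (Fin m → ℂ) → ℂ, DifferentiableOn ℂ g Δ ∧
      (j ≤ K → EqOn g (fun y => e j (w y)) (Δ \ F)) := by
    intro j
    by_cases hj : j ≤ K
    swap
    · exact ⟨0, differentiableOn_const _, fun h => absurd h hj⟩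
    obtain ⟨M, hM⟩ := hC.exists_bound_of_continuousOn (he j hj).continuous.continuousOn
    refine (Weil.extend_bdd h.openΔ h.openDiff h.null (f := fun y => e j (w y)) (M := M) ?_
      fun y hy => hM _ (hwC y hy)).imp fun g hg => ⟨hg.1, fun _ => hg.2⟩
    intro y hy
    have h1 : DifferentiableAt ℂ (fun y' => e j fun a => c.F (s y hy a y')) y :=
      (he j hj _).comp y (differentiableAt_pi.2 fun a => (hs1 y hy a).differentiableAt (hN y hy))
    refine (h1.congr_of_eventuallyEq ?_).differentiableWithinAt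
    filter_upwards [hN y hy, h.openDiff.mem_nhds hy] with y' h2 h3
    rw [hw y' h3]
    refine Weil.ShifAux.es_congr j (fun z => -l (c.F z)) (hs2 y' h3 y' (hself y' h3)).1
      (hs2 y hy y' h2).1 fun z => ?_
    rw [← (hs2 y' h3 y' (hself y' h3)).2 z, (hs2 y hy y' h2).2 z]
  choose g hg hg' using hext
  have hsum : ∀ T, ∀ y ∈ Δ \ F, T ^ K + ∑ j ∈ Finset.range K, g j y * T ^ j =
      ∏ a, (T - l (w y a)) := by
    intro T y hy
    simp only [sub_eq_add_neg]
    rw [← Weil.ShifAux.sum_es, Finset.sum_range_succ, es_top_XG4, one_mul, add_comm]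
    congr 1
    refine Finset.sum_congr rfl fun j hj => ?_
    rw [hg' j (Finset.mem_range.1 hj).le hy]
  let G : V → ℂ := fun v => l v ^ K + ∑ j ∈ Finset.range K, g j (π v) * l v ^ j
  have hG : DifferentiableOn ℂ G W := by
    refine (l.differentiable.pow K).differentiableOn.add (DifferentiableOn.fun_sum fun j _ => ?_)
    exact ((hg j).comp π.differentiableOn h.maps).mul (l.differentiable.pow j).differentiableOn
  refine ⟨g, hg, fun v hv => ?_, fun y hy => ?_⟩
  · have h1 : v ∈ closure (c.F '' c.good ∩ W ∩ π ⁻¹' (Δ \ F)) := by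
      have h2 : v ∈ closure (c.F '' c.good ∩ W) := h.openW.closure_inter ⟨hv.2, hv.1⟩
      exact closure_minimal h.dense isClosed_closure h2
    have h3 : ContinuousAt G v := hG.continuousOn.continuousAt (h.openW.mem_nhds hv.1)
    refine tendsto_nhds_unique_of_frequently_eq h3 tendsto_const_nhds
      ((mem_closure_iff_frequently.1 h1).mono ?_)
    rintro _ ⟨⟨⟨z, hz, rfl⟩, hzW⟩, hy⟩
    obtain ⟨a, ha⟩ := ((hs2 _ hy _ (hself _ hy)).2 z).1 ⟨hz, hzW, rfl⟩
    simp only [G]
    rw [hsum _ _ hy, hw _ hy]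
    refine Finset.prod_eq_zero (Finset.mem_univ a) ?_
    beta_reduce
    rw [← ha, sub_self]
  · refine ⟨fun a => s y hy a y, (hs2 y hy y (hself y hy)).1, (hs2 y hy y (hself y hy)).2,
      fun t => ?_⟩
    rw [hsum t y hy, hw y hy]

theorem fibre_finite (h : Weil.LocalCover c π W Δ F K) (y : Fin m → ℂ) :
    {v | v ∈ W ∩ closure (c.F '' c.good) ∧ π v = y}.Finite := by
  classical
  let b := Module.finBasis ℂ V
  choose g _ hg _ using fun i => norm_poly h (LinearMap.toContinuousLinearMap (b.coord i))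
  have hf : (univ.pi fun i => {t : ℂ | t ^ K + ∑ j ∈ Finset.range K, g i j y * t ^ j = 0}).Finite :=
    Set.Finite.pi fun i => roots_finite_XG4 K fun j => g i j y
  refine (hf.preimage (f := fun v i => b.repr v i) ?_).subset ?_
  · intro v _ v' _ e
    exact b.repr.injective (Finsupp.ext fun i => congrFun e i)
  · rintro v ⟨hv, rfl⟩ i _
    exact hg i v hv

theorem dense_diff (h : Weil.LocalCover c π W Δ F K) : Δ ⊆ closure (Δ \ F) := by
  intro y hy
  have hfr : ((Module.finrank ℝ (Fin m → ℂ) : ℕ) : ℝ) = 2 * (m : ℝ) := by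
    rw [Module.finrank_pi_fintype]
    simp [Complex.finrank_real_complex, mul_comm]
  have hE0 : MeasureTheory.volume F = 0 :=
    Weil.HNull.measure_zero MeasureTheory.volume (by rw [hfr]; exact h.null.mono_dim (by linarith))
  exact h.openΔ.inter_closure
    ⟨hy, MeasureTheory.Measure.dense_of_ae (MeasureTheory.compl_mem_ae_iff.2 hE0) _⟩

theorem exists_form {s : Set V} (hs : s.Finite) (h0 : (0 : V) ∉ s) :
    ∃ l : V →L[ℂ] ℂ, ∀ v ∈ s, l v ≠ 0 := by
  obtain ⟨k, l, hl⟩ := Weil.ShifAux.exists_forms V hs.toFinset.card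
  obtain ⟨i, hi⟩ := hl (fun a => (hs.toFinset.equivFin.symm a : V)) fun a e =>
    h0 (e ▸ hs.mem_toFinset.1 (hs.toFinset.equivFin.symm a).2)
  refine ⟨l i, fun v hv => ?_⟩
  have := hi (hs.toFinset.equivFin ⟨v, hs.mem_toFinset.2 hv⟩)
  rwa [Equiv.symm_apply_apply] at this

end Pool.Agent.HIR
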