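import Pool.Agent.P.MP_65ad7c_ag.XG8

open Set Filter Topology Asymptotics
open scoped ComplexConjugate
open Pool.Agent.HT (Amb proj cj IsChart IsSNC)

noncomputable section
namespace Pool.Agent.HIR

variable {n M q : ℕ} {X C : Set (Amb M)} {H : (Fin M → ℂ) → Fin q → ℂ} {g : E n → Fin M → ℂ}
  {z : E n} {T : Finset (Fin n)} {A : Fin n → E n → Fin q → ℂ}

/-- the local data at a point of the centre -/
structure SegL (X C : Set (Amb M)) (H : (Fin M → ℂ) → Fin q → ℂ) (g : E n → Fin M → ℂ) (z : E n)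
    (T : Finset (Fin n)) (A : Fin n → E n → Fin q → ℂ) : Prop where
  pt : Pt X (proj ∘ g) z (proj (g z))
  an : AnalyticAt ℂ g z
  ne : g z ≠ 0
  imm : ∀ (v : E n) (c : ℂ), fderiv ℂ g z v = c • g z → v = 0
  zero : ∀ i ∈ T, z i = 0
  sub : Sub C (proj ∘ g) z T
  anA : ∀ i, AnalyticAt ℂ (A i) z
  eq : ∀ᶠ u in 𝓝 z, H (g u) = ∑ i ∈ T, u i • A i u
  ind : ∀ c : E n, ∑ i ∈ T, c i • A i z = 0 → ∀ i ∈ T, c i = 0

theorem SegD.exists_loc (h : SegD n X C H) {φ : E n → Amb M} {x : Amb M} (hp : Pt X φ z x)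
    (hx : x ∈ C) (hs : Sub C φ z T) : ∃ g A, φ = proj ∘ g ∧ SegL X C H g z T A := by
  obtain ⟨g, rfl, han, hne, himm⟩ := hp.rep
  obtain rfl : proj (g z) = x := hp.eq
  have hz : ∀ i ∈ T, z i = 0 := hs.zero.1 hx
  have hH : AnalyticAt ℂ (H ∘ g) z := (h.an _).comp han
  have hq : ∀ a : Fin q, ∃ r : Fin n → E n → ℂ, (∀ i, An z (r i)) ∧
      (fun u => H (g u) a) =ᶠ[𝓝 z] ∑ i ∈ T, co i * r i := fun a => by
    refine div_sub (analyticAt_pi_iff.1 hH a) hz ?_
    filter_upwards [hs, han.continuousAt.eventually_ne hne] with w h1 h2 h3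
    rw [(h.zero _ h2).2 (h1.2 h3)]
    rfl
  choose r hr hr' using hq
  have hA : ∀ i, AnalyticAt ℂ (fun u a => r a i u) z := fun i =>
    analyticAt_pi_iff.2 fun a => hr a i
  have he : ∀ᶠ u in 𝓝 z, H (g u) = ∑ i ∈ T, u i • fun a => r a i u := by
    filter_upwards [eventually_all.2 hr'] with u hu
    funext a
    simpa [co, Finset.sum_apply] using hu a
  refine ⟨g, fun i u a => r a i u, rfl, hp, han, hne, himm, hz, hs, hA, he, fun c hc => ?_⟩
  refine h.ind g z T hp han hne hx hs c ?_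
  have hd : HasFDerivAt (fun u : E n => ∑ i ∈ T, u i • fun a => r a i u) _ z :=
    HasFDerivAt.fun_sum fun i _ =>
      (hasFDerivAt_apply (𝕜 := ℂ) i z).fun_smul (hA i).differentiableAt.hasFDerivAt
  rw [(hd.congr_of_eventuallyEq (f₁ := H ∘ g) he).fderiv, ← hc, ContinuousLinearMap.sum_apply]
  refine Finset.sum_congr rfl fun i hi => ?_
  simp [hz i hi]

/-- a continuous family of left inverses -/
theorem SegL.left (h : SegL X C H g z T A) : ∃ Λ : E n → (Fin q → ℂ) →L[ℂ] E n,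
    ContinuousAt Λ z ∧ ∀ᶠ u in 𝓝 z, ContinuousAt Λ u ∧
      ∀ c : E n, ∀ j ∈ T, Λ u (∑ i ∈ T, c i • A i u) j = c j := by
  let Ψ : E n → (T → ℂ) →L[ℂ] Fin q → ℂ := fun u =>
    ∑ i : T, ContinuousLinearMap.smulRightL ℂ (T → ℂ) (Fin q → ℂ) (ContinuousLinearMap.proj i)
      (A i u)
  have hΨ : ∀ u (c : E n), Ψ u (fun i => c i) = ∑ i ∈ T, c i • A i u := fun u c => by
    rw [← Finset.sum_coe_sort T]
    simp [Ψ]
  let ext : (T → ℂ) →L[ℂ] E n :=
    ContinuousLinearMap.pi fun j => if hj : j ∈ T then ContinuousLinearMap.proj ⟨j, hj⟩ else 0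
  have hext : ∀ (c : T → ℂ) (j : T), ext c j = c j := fun c j => by simp [ext]
  have hinj : LinearMap.ker (Ψ z).toLinearMap = ⊥ := by
    refine LinearMap.ker_eq_bot'.2 fun c hc => funext fun j => ?_
    have h1 : Ψ z (fun i => ext c i) = 0 := by
      simp only [hext]
      exact hc
    rw [hΨ] at h1
    exact (hext c j).symm.trans (h.ind _ h1 j j.2)
  obtain ⟨l₀, hl₀⟩ := LinearMap.exists_leftInverse_of_injective _ hinj
  let l := LinearMap.toContinuousLinearMap l₀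
  have hB0 : l.comp (Ψ z) = 1 := ContinuousLinearMap.ext fun c => LinearMap.congr_fun hl₀ c
  have hc : ∀ᶠ u in 𝓝 z, ContinuousAt (fun u => l.comp (Ψ u)) u := by
    filter_upwards [eventually_all.2 fun i => (h.anA i).eventually_continuousAt] with u hu
    refine continuousAt_const.clm_comp (tendsto_finsetSum _ fun i _ => ?_)
    exact (ContinuousLinearMap.continuous _).continuousAt.comp (hu i)
  have hu : ∀ᶠ u in 𝓝 z, IsUnit (l.comp (Ψ u)) :=
    hc.self_of_nhds.eventually (Units.isOpen.mem_nhds (by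
      show IsUnit (l.comp (Ψ z))
      rw [hB0]
      exact isUnit_one))
  have key : ∀ᶠ u in 𝓝 z,
      ContinuousAt (fun u => ext.comp ((Ring.inverse (l.comp (Ψ u))).comp l)) u ∧
      ∀ c : E n, ∀ j ∈ T,
        ext.comp ((Ring.inverse (l.comp (Ψ u))).comp l) (∑ i ∈ T, c i • A i u) j = c j := by
    filter_upwards [hc, hu] with u h1 h2
    refine ⟨continuousAt_const.clm_comp (ContinuousAt.clm_comp ?_ continuousAt_const),
      fun c j hj => ?_⟩
    · obtain ⟨B, hB⟩ := h2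
      have h3 := NormedRing.inverse_continuousAt B
      rw [hB] at h3
      exact ContinuousAt.comp (f := fun u => l.comp (Ψ u)) h3 h1
    · have h3 := DFunLike.congr_fun (Ring.inverse_mul_cancel _ h2) fun i : T => c i
      rw [← hΨ]
      exact (hext _ ⟨j, hj⟩).trans (congrFun h3 ⟨j, hj⟩)
  exact ⟨_, key.self_of_nhds.1, key⟩

theorem tens_XG9 : Continuous fun p : (Fin M → ℂ) × (Fin q → ℂ) => tens p.1 p.2 := by
  unfold tens
  fun_prop

/-- the points of the blow-up over the chart -/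
theorem SegL.fib (h : SegL X C H g z T A) (hD : SegD n X C H) :
    ∀ᶠ u in 𝓝 z, ∀ x ∈ closure (gph X C H), ptr M q x = proj (g u) →
      ∃ c : E n, (∃ p ∈ T, c p ≠ 0) ∧ (∀ i ∈ T, ∀ j ∈ T, u i * c j = u j * c i) ∧
        x = proj (tens (g u) (∑ i ∈ T, c i • A i u)) := by
  obtain ⟨Λ, -, hΛ⟩ := h.left
  filter_upwards [hΛ, h.pt.ev, h.sub.ev, h.eq.eventually_nhds, h.an.eventually_continuousAt,
    h.an.continuousAt.eventually_ne h.ne,
    eventually_all.2 fun i => (h.anA i).eventually_continuousAt] with u h1 h2 h3 h4 h5 h6 h7 x hx e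
  obtain ⟨ι, hι⟩ := h2.inv
  have : (𝓝[gph X C H] x).NeBot := mem_closure_iff_nhdsWithin_neBot.1 hx
  let 𝒰 := Ultrafilter.of (𝓝[gph X C H] x)
  have hle : (𝒰 : Filter _) ≤ 𝓝[gph X C H] x := Ultrafilter.of_le _
  have hg : ∀ᶠ y in (𝒰 : Filter _), y ∈ gph X C H := hle self_mem_nhdsWithin
  have hx' : Tendsto id (𝒰 : Filter _) (𝓝 x) := hle.trans nhdsWithin_le_nhds
  have hptr : Tendsto (ptr M q) (𝒰 : Filter _) (𝓝[X] (proj ∘ g) u) := by
    refine tendsto_nhdsWithin_iff.2 ⟨?_, hg.mono fun y hy => hD.maps (subset_closure hy)⟩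
    have := (cont_ptr.tendsto x).comp hx'
    rwa [e] at this
  have hU : Tendsto (fun y => ι (ptr M q y)) (𝒰 : Filter _) (𝓝 u) := by
    refine Tendsto.comp ?_ hptr
    rw [← h2.map, tendsto_map'_iff]
    exact tendsto_id.congr' (EventuallyEq.symm hι)
  have hφ : ∀ᶠ y in (𝒰 : Filter _), proj (g (ι (ptr M q y))) = ptr M q y := by
    refine hptr.eventually (p := fun y => proj (g (ι y)) = y) (h2.ev_iff.2 ?_)
    filter_upwards [hι] with w hw
    rw [hw]
    rfl
  let r : E n → E n := fun w i => if i ∈ T then w i else 0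
  let c : Amb (M * q) → E n := fun y => ((‖r (ι (ptr M q y))‖⁻¹ : ℝ) : ℂ) • r (ι (ptr M q y))
  have hc : ∀ᶠ y in (𝒰 : Filter _), c y ∈ Metric.sphere (0 : E n) 1 ∧
      y = proj (tens (g (ι (ptr M q y))) (∑ i ∈ T, c y i • A i (ι (ptr M q y)))) := by
    filter_upwards [hg, hφ, hU.eventually h3, hU.eventually h4, hU.eventually (h5.eventually_ne h6)]
      with y y1 y2 y3 y4 y5
    have hC : ptr M q y ∉ C := by
      obtain ⟨v, hv, -, hvC, rfl⟩ := y1
      rwa [ptr_tens fun h0 => hvC ((hD.zero v hv).1 h0)]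
    have hr : r (ι (ptr M q y)) ≠ 0 := fun h0 => hC (y2 ▸ y3.2 fun i hi => by
      simpa [r, hi] using congrFun h0 i)
    have hn : ‖r (ι (ptr M q y))‖ ≠ 0 := norm_ne_zero_iff.2 hr
    refine ⟨by simp [c, norm_smul, hn], ?_⟩
    have e1 : ∑ i ∈ T, c y i • A i (ι (ptr M q y)) =
        ((‖r (ι (ptr M q y))‖⁻¹ : ℝ) : ℂ) • H (g (ι (ptr M q y))) := by
      rw [y4, Finset.smul_sum]
      exact Finset.sum_congr rfl fun i hi => by simp [c, r, hi, smul_smul]
    rw [e1, ← one_smul ℂ (g (ι (ptr M q y))), tens_smul, one_smul,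
      proj_smul (by simpa using hr)]
    exact hD.eq_off (subset_closure y1) y5 y2.symm (by rwa [y2])
  obtain ⟨c₀, hc₀, hlim⟩ := (isCompact_sphere (0 : E n) 1).ultrafilter_le_nhds' (𝒰.map c)
    (hc.mono fun y hy => hy.1)
  have hlim' : Tendsto c (𝒰 : Filter _) (𝓝 c₀) := hlim
  have hci : ∀ i, Tendsto (fun y => c y i) (𝒰 : Filter _) (𝓝 (c₀ i)) := tendsto_pi_nhds.1 hlim'
  have hUi := tendsto_pi_nhds.1 hU
  have hp : ∃ p ∈ T, c₀ p ≠ 0 := by
    by_contra hcon
    push Not at hcon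
    have h0 : c₀ = 0 := funext fun i => by
      by_cases hi : i ∈ T
      · exact hcon i hi
      · refine tendsto_nhds_unique (hci i) ?_
        simp [c, r, hi]
    simp [h0] at hc₀
  refine ⟨c₀, hp, fun i hi j hj => ?_, ?_⟩
  · refine tendsto_nhds_unique ((hUi i).mul (hci j)) (((hUi j).mul (hci i)).congr fun y => ?_)
    simp only [c, r, Pi.smul_apply, if_pos hi, if_pos hj, smul_eq_mul]
    ring
  · have hne : ∑ i ∈ T, c₀ i • A i u ≠ 0 := fun h0 => by
      obtain ⟨p, hp, hp'⟩ := hp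
      have := h1.2 c₀ p hp
      rw [h0, map_zero] at this
      exact hp' this.symm
    have hs : Tendsto (fun y => ∑ i ∈ T, c y i • A i (ι (ptr M q y))) (𝒰 : Filter _)
        (𝓝 (∑ i ∈ T, c₀ i • A i u)) :=
      tendsto_finsetSum _ fun i _ => (hci i).smul ((h7 i).tendsto.comp hU)
    have ht := (cont_proj (tens_ne h6 hne)).tendsto.comp
      ((tens_XG9.tendsto (g u, _)).comp ((h5.tendsto.comp hU).prodMk_nhds hs))
    exact tendsto_nhds_unique hx' (ht.congr' (hc.mono fun y hy => hy.2.symm))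

end Pool.Agent.HIR
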