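import Pool.Agent.P.MP_65ad7c_ag.XI2
import Pool.Agent.P.MP_65ad7c_ag.XI3
import Pool.Agent.P.MP_65ad7c_ag.XI6
import Pool.Agent.P.MP_65ad7c_ag.XF7
import Pool.Agent.P.MP_65ad7c_ag.XH1

open Set Filter Topology Asymptotics
open scoped ComplexConjugate
open Pool.Agent.HT (Amb proj cj IsChart IsSNC)
open Pool.Agent.PWV (ZC ZI Dim)

noncomputable section
namespace Pool.Agent.HIR

variable {n d N : ℕ} {p : Ideal (MvPolynomial (Fin N) ℂ)} {Y : Set (Fin N → ℂ)}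
  {H₀ H P : MvPolynomial (Fin (N + 1)) ℂ}

theorem RI.step {S : Sp n} {G : Alg S.M} {ph : Amb S.M → Amb (N + 1)} (h : RI S G ph Y H₀ H)
    (β : Bl S) (hC : β.C ⊆ Sg S G) (hP : RH P) (hn : NV Y (H * P))
    (hv : ∀ x ∈ β.C, ph x ∈ Wo H → ph x ∈ Zs {P}) :
    RI β.S' (tr β G) (ph ∘ β.π) Y H₀ (H * P) := by
  obtain ⟨k, hk⟩ := hP.hom
  have key : ∀ x, ph x ∈ Wo (H * P) → ph x ∈ Wo H ∧ x ∉ β.C := fun x hx => by
    rw [Wo_mul] at hx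
    exact ⟨hx.1, fun hc => Zs_Wo hk (hv x hc hx.1) hx.2⟩
  refine ⟨h.good.tr hC, h.hol.bl β, fun x => ?_, h.rh.mul hP, hn, fun v h0 => ?_, ?_,
    fun x hx hw => ?_, fun y hy hw => ?_, fun x hx h0 => h.ovr _ (sg_tr h.good.rees hC hx) h0⟩
  · simp only [Function.comp_apply, β.rl, h.rl]
  · rw [ev_mul_XG7, Pi.mul_apply, h.dvd v h0, zero_mul]
  · intro x hx y hy e
    have a := key _ hx.2
    have b := key _ hy.2
    exact β.inj ⟨hx.1, a.2⟩ ⟨hy.1, b.2⟩ (h.inj ⟨β.maps hx.1, a.1⟩ ⟨β.maps hy.1, b.1⟩ e)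
  · have a := key _ hw
    exact ImmP.off β hx a.2 (h.imm _ (β.maps hx) a.1)
  · obtain ⟨x, hx, e⟩ := h.sur y hy (by rw [Wo_mul] at hw; exact hw.1)
    have a := key x (e ▸ hw)
    obtain ⟨x', hx', rfl⟩ := β.surj ⟨hx.1, a.2⟩
    exact ⟨x', (sg_off h.good.rees hx' a.2).2 hx, e⟩

theorem ra_ind (hp : p.IsPrime) (hs : ∀ y ∈ ZI p, star y ∈ ZI p) (hd : Dim (ZI p) (d + 1))
    (hd' : ¬ Dim (ZI p) d) {S : Sp n} {G : Alg S.M} (hR : Res S G) :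
    ∀ (ph : Amb S.M → Amb (N + 1)) (H : MvPolynomial (Fin (N + 1)) ℂ), RI S G ph (ZI p) H₀ H →
      ∃ (S' : Sp d) (ph' : Amb S'.M → Amb (N + 1)) (H' : MvPolynomial (Fin (N + 1)) ℂ),
        RH H' ∧ NV (ZI p) H' ∧ (∀ v, ev H₀ v = 0 → ev H' v = 0) ∧ S'.r = 0 ∧
          Md d S'.X ph' (ZI p) H' := by
  induction hR with
  | done h0 =>
    intro ph H h
    obtain ⟨y, hy, hn⟩ := h.nv
    obtain ⟨x, hx, -⟩ := h.sur y hy (aff_Wo.2 hn)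
    rw [h0] at hx
    exact hx.elim
  | step β hC _ ih =>
    intro ph H h
    by_cases h2 : ∀ (P : MvPolynomial (Fin (N + 1)) ℂ) (k : ℕ), P.IsHomogeneous k →
        NV (ZI p) P → ¬ ∀ x ∈ β.C, ph x ∈ Wo H → ph x ∈ Zs {P}
    · obtain ⟨S', ph', h3, h4⟩ := md_of_ctr hp hd hd' h β.ctr hC h2
      exact ⟨S', ph', H, h.rh, h.nv, h.dvd, h3, h4⟩
    · obtain ⟨P, k, hk, hn, hv⟩ : ∃ (P : MvPolynomial (Fin (N + 1)) ℂ) (k : ℕ),
          P.IsHomogeneous k ∧ NV (ZI p) P ∧ ∀ x ∈ β.C, ph x ∈ Wo H → ph x ∈ Zs {P} := by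
        by_contra h3
        exact h2 fun P k a b c => h3 ⟨P, k, a, b, c⟩
      obtain ⟨P', a1, a2, a3⟩ := exists_rh hp hs hk hn
      refine ih _ _ (h.step β hC a1 (h.nv.mul hp a2) fun x hx hw Q hQ i => ?_)
      rw [mem_singleton_iff.1 hQ]
      exact a3 _ (hv x hx hw P rfl i)

/-- resolution of singularities -/
theorem exists_md (hp : p.IsPrime) (hs : ∀ y ∈ ZI p, star y ∈ ZI p) (hd : Dim (ZI p) (d + 1))
    (hd' : ¬ Dim (ZI p) d) {h₀ : MvPolynomial (Fin N) ℂ} (h0 : h₀ ∉ p) :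
    ∃ (S : Sp d) (ph : Amb S.M → Amb (N + 1)) (H : MvPolynomial (Fin (N + 1)) ℂ),
      RH H ∧ NV (ZI p) H ∧ (∀ y, MvPolynomial.eval y h₀ = 0 → ev H (Fin.cons 1 y) = 0) ∧
        S.r = 0 ∧ Md d S.X ph (ZI p) H := by
  obtain ⟨P, k, hk, hP⟩ := exists_homog h₀
  have hn : NV (ZI p) P := by
    by_contra hn
    refine h0 (Pool.Agent.PWV.null hp fun y hy => ?_)
    by_contra h1
    exact hn ⟨y, hy, by rwa [hP]⟩
  obtain ⟨H, a1, a2, a3⟩ := exists_rh hp hs hk hn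
  obtain ⟨𝒬, b1, b2, b3⟩ := exists_eqs (Pool.Agent.PWV.zc_ZI p) hs
  have hol : HolP N ((mf_Prj N).sp (cj_Prj _)).X id := fun φ z x hx => by
    obtain ⟨g, e, c1, c2, -⟩ := hx.rep
    exact ⟨g, c1, c2, Filter.EventuallyEq.of_eq e⟩
  have hG := good_pol (S := (mf_Prj N).sp (cj_Prj _)) hol (fun _ => rfl) b1 b2
  have hSg := sg_pol (S := (mf_Prj N).sp (cj_Prj _)) (𝒬 := 𝒬) hol fun Q hQ => (b2 Q hQ).hom
  obtain ⟨S', ph', H', c1, c2, c3, c4, c5⟩ := ra_ind (H₀ := P) hp hs hd hd' (prin (blx N) hG) id H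
    ⟨hG, hol, fun _ => rfl, a1, a2, a3, injOn_id _, fun x hx _ => by
      obtain ⟨φ, z, hφ⟩ := (mf_Prj N).chart x hx
      obtain ⟨g, e, d1, d2, d3⟩ := hφ.rep
      exact ⟨φ, z, g, hφ, d1, d2, Filter.EventuallyEq.of_eq e, d3⟩,
    fun y hy _ => ⟨aff y, by rw [hSg]; exact ⟨⟨_, cons_ne y, rfl⟩, (b3 y).2 hy⟩, rfl⟩,
    fun x hx h1 => by
      rw [hSg] at hx
      exact (b3 _).1 (by rw [show aff (deh (id x)) = x from aff_deh hx.1 h1]; exact hx.2)⟩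
  exact ⟨S', ph', H', c1, c2, fun y hy => c3 _ (by rwa [hP]), c4, c5⟩

end Pool.Agent.HIR
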