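import Pool.Agent.P.MP_65ad7c_ag.XI4

open Set Filter Topology Asymptotics
open scoped ComplexConjugate
open Pool.Agent.HT (Amb proj cj IsChart IsSNC)
open Pool.Agent.PWV (ZC ZI Dim)

noncomputable section
namespace Pool.Agent.HIR

variable {n N : ℕ} {S : Sp n} {ph : Amb S.M → Amb (N + 1)} {Y : Set (Fin N → ℂ)}
  {H : MvPolynomial (Fin (N + 1)) ℂ}

theorem Md.tr (h : Md n S.X ph Y H) (β : Bl S) (hC : ∀ x ∈ β.C, ph x ∉ Wo H) :
    Md n β.S'.X (ph ∘ β.π) Y H := by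
  refine ⟨h.hol.bl β, fun x => ?_, fun x hx => h.im _ (β.maps hx), fun y hy => ?_,
    fun x hx y hy e => ?_, ?_⟩
  · show ph (β.π _) = _
    rw [β.rl, h.rl]
    rfl
  · obtain ⟨x, hx, e⟩ := h.surj y hy
    have h1 : IsClosed (β.π '' β.S'.X) := (β.S'.mf.compact.image β.cont).isClosed
    have h2 : S.X ∩ ph ⁻¹' Wo H ⊆ β.π '' β.S'.X := fun u hu =>
      β.surj ⟨hu.1, fun hc => hC u hc hu.2⟩
    obtain ⟨x', hx', e'⟩ := h1.closure_subset_iff.2 h2 (h.dense hx)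
    exact ⟨x', hx', by rw [Function.comp_apply, e', e]⟩
  · exact β.inj ⟨hx.1, fun hc => hC _ hc hx.2⟩ ⟨hy.1, fun hc => hC _ hc hy.2⟩
      (h.inj ⟨β.maps hx.1, hx.2⟩ ⟨β.maps hy.1, hy.2⟩ e)
  · refine β.dense.trans (isClosed_closure.closure_subset_iff.2 fun x' hx' => ?_)
    obtain ⟨φ, z, hp, -⟩ := Sp.chart (β.maps hx'.1)
    obtain ⟨φ', ho⟩ := Bl.exists_off hx'.1 hx'.2 hp
    have h1 := (closure_iff_XG1 hp inter_subset_left).1 (h.dense (β.maps hx'.1))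
    refine (closure_iff_XG1 ho.pt' inter_subset_left).2 (h1.mp ?_)
    filter_upwards [ho.ev] with u hu hm
    refine ⟨hu.2.pt'.mem, ?_⟩
    show ph (β.π (φ' u)) ∈ Wo H
    rw [hu.1]
    exact hm.2

/-- a divisor that does not contain the centre pulls back to its strict transform -/
theorem pull_XI8 (β : Bl S) {x' : Amb β.S'.M} (hx : x' ∈ β.S'.X) {j : ℕ} (hj : j ≠ S.r)
    (h : β.π x' ∈ β.C → ¬ Cin β.C (S.D j) (β.π x')) :
    ∀ᶠ y in 𝓝[β.S'.X] x', β.π y ∈ S.D j → y ∈ β.S'.D j := by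
  have ht : Tendsto β.π (𝓝[β.S'.X] x') (𝓝 (β.π x')) :=
    β.cont.continuousAt.tendsto.mono_left nhdsWithin_le_nhds
  by_cases hD : β.π x' ∈ S.D j
  · by_cases hc : β.π x' ∈ β.C
    · obtain ⟨s, hs⟩ := β.ctr.chart
      obtain ⟨φ, z, T, hp, -, hT, hco⟩ := hs _ hc
      obtain ⟨i, hi⟩ := hco j hD
      have hiT : i ∉ T := fun hm => h hc ((cin_iff hp β.ctr.sub hT hc hi).2 hm)
      have hz : z i = 0 := hi.zero.1 (hp.eq ▸ hD)
      obtain ⟨φ', w, p, rfl, hu⟩ := Bl.exists_up hx hc hp hT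
      have h1 := hu.str hj hi hz fun e => hiT (e ▸ hu.mem)
      refine (hu.pt'.ev_iff (P := fun y => β.π y ∈ S.D j → y ∈ β.S'.D j)).2 ?_
      filter_upwards [h1, hu.comm, (tb_XE6 T p w).eventually hi] with u a1 a2 a3 a4
      rw [show β.π (φ' u) = φ (bet T p u) from a2] at a4
      have a5 := a3.1 a4
      rw [bet, if_neg fun hm => hiT (Finset.mem_of_mem_erase hm)] at a5
      exact a1.2 a5
    · filter_upwards [ht.eventually (β.ctr.closed.isOpen_compl.mem_nhds hc), self_mem_nhdsWithin]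
        with y a1 a2 a3
      exact (Bl.mem_off a2 a1).2 a3
  · filter_upwards [ht.eventually ((S.closedD j).isOpen_compl.mem_nhds hD)] with y a1 a2
    exact absurd a2 a1

theorem LocU.tr {A : Set (Amb S.M)} (h : LocU S A) (β : Bl S) : LocU β.S' (β.π ⁻¹' A) := by
  intro x' hx
  obtain ⟨J, hJ⟩ := h _ (β.maps hx)
  have h1 := (β.tendsto x').eventually hJ
  have ht : Tendsto β.π (𝓝[β.S'.X] x') (𝓝 (β.π x')) :=
    β.cont.continuousAt.tendsto.mono_left nhdsWithin_le_nhds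
  by_cases hc : ∃ j ∈ J, Cin β.C (S.D j) (β.π x')
  · obtain ⟨j₀, hj₀, hc⟩ := hc
    refine ⟨insert S.r J, ?_⟩
    filter_upwards [h1, ht.eventually (eventually_nhdsWithin_iff.1 hc), self_mem_nhdsWithin]
      with y a1 a2 a3
    rw [mem_preimage, a1]
    constructor
    · rintro ⟨j, hj, hy⟩
      by_cases hy' : β.π y ∈ β.C
      · exact ⟨S.r, mem_insert _ _, β.exc ▸ ⟨a3, hy'⟩⟩
      · exact ⟨j, mem_insert_of_mem _ hj, (Bl.mem_off a3 hy').2 hy⟩
    · rintro ⟨j, hj, hy⟩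
      by_cases e : j = S.r
      · rw [e, β.exc] at hy
        exact ⟨j₀, hj₀, a2 hy.2⟩
      · exact ⟨j, hj.resolve_left e, β.str_sub e hy⟩
  · refine ⟨J \ {S.r}, ?_⟩
    have h2 : ∀ᶠ y in 𝓝[β.S'.X] x', ∀ j ∈ Finset.range S.r,
        j ∈ J → β.π y ∈ S.D j → y ∈ β.S'.D j := by
      refine (eventually_all_finset _).2 fun j hj => ?_
      by_cases hjJ : j ∈ J
      · filter_upwards [pull_XI8 β hx (Finset.mem_range.1 hj).ne fun _ hh => hc ⟨j, hjJ, hh⟩]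
          with y a1 _
        exact a1
      · exact Eventually.of_forall fun y a1 => absurd a1 hjJ
    filter_upwards [h1, h2] with y a1 a2
    rw [mem_preimage, a1]
    constructor
    · rintro ⟨j, hj, hy⟩
      have hl := Sp.lt hy
      exact ⟨j, ⟨hj, hl.ne⟩, a2 j (Finset.mem_range.2 hl) hj hy⟩
    · rintro ⟨j, hj, hy⟩
      exact ⟨j, hj.1, β.str_sub hj.2 hy⟩

theorem LocU.mem {A : Set (Amb S.M)} (h : LocU S A) {x : Amb S.M} (hx : x ∈ S.X) (hA : x ∈ A) :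
    ∃ j, x ∈ S.D j := by
  obtain ⟨J, hJ⟩ := h x hx
  obtain ⟨j, -, hj⟩ := (hJ.self_of_nhdsWithin hx).1 hA
  exact ⟨j, hj⟩

end Pool.Agent.HIR
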