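import Pool.Agent.P.MP_65ad7c_ag.XI2
import Pool.Agent.P.MP_65ad7c_ag.XI3
import Pool.Agent.P.MP_65ad7c_ag.XI8
import Pool.Agent.P.MP_65ad7c_ag.XF7
import Pool.Agent.P.MP_65ad7c_ag.XH1

open Set Filter Topology Asymptotics
open scoped ComplexConjugate
open Pool.Agent.HT (Amb proj cj IsChart IsSNC)
open Pool.Agent.PWV (ZC ZI Dim)

noncomputable section
namespace Pool.Agent.HIR

variable {n N : ℕ} {Y : Set (Fin N → ℂ)} {H P : MvPolynomial (Fin (N + 1)) ℂ}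

theorem rb_ind {A B Z : Set (Amb (N + 1))} (hZ : Z ⊆ B) (hW : Z ⊆ (Wo H)ᶜ) {S : Sp n} {G : Alg S.M}
    (hR : Res S G) : ∀ ph : Amb S.M → Amb (N + 1), Good S G 1 → Md n S.X ph Y H →
      (∀ j, S.D j ⊆ ph ⁻¹' B) → LocU S (ph ⁻¹' A) → Sg S G ⊆ ph ⁻¹' Z →
      (∀ x ∈ S.X, ph x ∈ Z → x ∈ Sg S G ∨ ∃ j, x ∈ S.D j) →
      ∃ (S' : Sp n) (ph' : Amb S'.M → Amb (N + 1)), Md n S'.X ph' Y H ∧
        (∀ j, S'.D j ⊆ ph' ⁻¹' B) ∧ LocU S' (ph' ⁻¹' A) ∧
        ∀ x ∈ S'.X, ph' x ∈ Z → ∃ j, x ∈ S'.D j := by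
  induction hR with
  | @done S G he =>
    intro ph _ hM hD hA _ hc
    refine ⟨S, ph, hM, hD, hA, fun x hx hz => (hc x hx hz).resolve_left ?_⟩
    rw [he]
    exact notMem_empty x
  | @step S G β hC _ ih =>
    intro ph hG hM hD hA hS hc
    refine ih (ph ∘ β.π) (hG.tr hC) (hM.tr β fun x hx => hW (hS (hC hx))) (fun j x hx => ?_)
      (hA.tr β) (fun x hx => hS (sg_tr hG.rees hC hx)) fun x hx hz => ?_
    · by_cases hj : j = S.r
      · subst hj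
        rw [β.exc] at hx
        exact hZ (hS (hC hx.2))
      · exact hD j (β.str_sub hj hx)
    · by_cases hx' : β.π x ∈ β.C
      · exact Or.inr ((Bl.union hx).2 (Or.inl hx'))
      · rcases hc _ (β.maps hx) hz with h1 | h1
        · exact Or.inl ((sg_off hG.rees hx hx').2 h1)
        · exact Or.inr ((Bl.union hx).2 (Or.inr h1))

/-- the boundary becomes a normal crossing divisor -/
theorem exists_rb (hH : RH H) {S : Sp n} {ph : Amb S.M → Amb (N + 1)} (h : Md n S.X ph Y H)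
    (hr : S.r = 0) : ∃ (S' : Sp n) (ph' : Amb S'.M → Amb (N + 1)), Md n S'.X ph' Y H ∧
      (∀ x ∈ S'.X, (∃ j, x ∈ S'.D j) ↔ ph' x ∉ Wo H) ∧ LocU S' {x | ph' x (0, 0) = 0} := by
  obtain ⟨k, hk⟩ := hH.hom
  have r0 : ∀ P ∈ ({MvPolynomial.X 0} : Set (MvPolynomial (Fin (N + 1)) ℂ)), RH P := by
    intro P hP
    rw [mem_singleton_iff.1 hP]
    exact rh_X 0
  have rH : ∀ P ∈ ({H} : Set (MvPolynomial (Fin (N + 1)) ℂ)), RH P := by
    intro P hP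
    rw [mem_singleton_iff.1 hP]
    exact hH
  have g0 := good_pol (S := S) h.hol h.rl (finite_singleton _) r0
  have s0 := sg_pol (S := S) h.hol fun P hP => (r0 P hP).hom
  obtain ⟨S1, ph1, m1, d1, -, c1⟩ := rb_ind (H := H) (Y := Y) (A := ∅)
    (B := {x : Amb (N + 1) | x (0, 0) = 0})
    (Z := {x : Amb (N + 1) | x (0, 0) = 0} ∩ Zs {MvPolynomial.X 0}) inter_subset_left
    (fun x hx hw => hw.1 hx.1) (prin (blx n) g0) ph g0 h
    (fun j => by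
      rw [S.fin j (by omega)]
      exact empty_subset _)
    (fun x _ => ⟨∅, Eventually.of_forall fun y => by simp⟩)
    (fun x hx => by
      rw [s0] at hx
      exact ⟨(Zs_X0 (h.hol.prj S.mf hx.1)).1 hx.2, hx.2⟩)
    (fun x hx hz => Or.inl (by
      rw [s0]
      exact ⟨hx, hz.2⟩))
  have l1 : LocU S1 (ph1 ⁻¹' {x : Amb (N + 1) | x (0, 0) = 0}) := by
    intro x _
    refine ⟨univ, ?_⟩
    filter_upwards [self_mem_nhdsWithin] with y hy
    constructor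
    · intro h0
      obtain ⟨j, hj⟩ := c1 y hy ⟨h0, (Zs_X0 (m1.hol.prj S1.mf hy)).2 h0⟩
      exact ⟨j, mem_univ j, hj⟩
    · rintro ⟨j, -, hj⟩
      exact d1 j hj
  have g1 := good_pol (S := S1) m1.hol m1.rl (finite_singleton _) rH
  have s1 := sg_pol (S := S1) m1.hol fun P hP => (rH P hP).hom
  obtain ⟨S2, ph2, m2, d2, l2, c2⟩ := rb_ind (H := H) (Y := Y)
    (A := {x : Amb (N + 1) | x (0, 0) = 0}) (B := (Wo H)ᶜ) (Z := Zs {H}) (Zs_Wo hk) (Zs_Wo hk)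
    (prin (blx n) g1) ph1 g1 m1 (fun j x hx hw => hw.1 (d1 j hx)) l1
    (fun x hx => by
      rw [s1] at hx
      exact hx.2)
    (fun x hx hz => Or.inl (by
      rw [s1]
      exact ⟨hx, hz⟩))
  refine ⟨S2, ph2, m2, fun x hx => ⟨fun ⟨j, hj⟩ => d2 j hj, fun hw => ?_⟩, l2⟩
  by_cases h0 : ph2 x (0, 0) = 0
  · exact l2.mem hx h0
  · exact c2 x hx (mem_Zs_of hk (m2.hol.prj S2.mf hx) h0 hw)

end Pool.Agent.HIR
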