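import Pool.Agent.P.MP_65ad7c_ag.XM5
import Pool.Agent.P.MP_65ad7c_ag.XJ0
import Pool.Agent.P.MP_65ad7c_ag.DFf

open Set Filter Topology TopologicalSpace
open scoped ComplexConjugate
open Pool.Agent.HT (Amb proj cj IsChart IsSNC)
open Pool.Agent.PWV (ZC ZI Dim)
open Pool.Agent.PWD (IsVar IsStrat DimLT Data)

noncomputable section
namespace Pool.Agent.HIR

variable {R : Type} [CommRing R] [Algebra ℂ R] {Y : Set (R → ℂ)} {N d : ℕ} {f : Fin N → R}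
  {U : ℕ → Opens Y}

/-- models exist -/
theorem exists_model (hY : IsVar Y) (hf : Algebra.adjoin ℂ (range f) = ⊤) [Nonempty Y]
    {Sr : (R → ℂ) → (R → ℂ) → Prop}
    (hS : ∀ y y' : Y, PWV.emb f y' = star (PWV.emb f y) → Sr y.1 y'.1) {S : Sp d}
    {ph : Amb S.M → Amb (N + 1)} {H : MvPolynomial (Fin (N + 1)) ℂ}
    (hm : Md d S.X ph (range (PWV.emb (Y := Y) f)) H)
    (hD : ∀ x ∈ S.X, (∃ j, x ∈ S.D j) ↔ ph x ∉ Wo H) (hA : LocU S {x | ph x (0, 0) = 0})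
    (hU : IsStrat d U) (h1 : ∀ y, y ∈ U 1 ↔ ev H (Fin.cons 1 (PWV.emb f y)) ≠ 0) (m : ℕ) :
    ∃ Q : Data Y (d - m), Q.IsModel Sr d m U ∧
      ∀ e, DimLT ((U e : Set Y)ᶜ ∩ Q.Z) (m + 1 - e) := by
  obtain ⟨r, D, al, be, h, c, snc, cjD, dj1, dj2, hal, hbe, hh, dm1, dm2⟩ :=
    exists_geo hm.hol hm.rl hD hA (V := fun e => PWV.emb f '' (U e : Set Y)ᶜ)
      (fun e => PWV.zc_image hY hf (hU.alg e)) (k := fun e => d + 1 - e)
      (fun e => PWV.dim_image hY (hU.dim e)) (d - m)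
  have he : IsClosedEmbedding (PWV.emb (Y := Y) f) := hY.closedEmb hf
  obtain ⟨π, hπ, hπ'⟩ : ∃ π : Amb S.M → Y,
      (∀ x ∈ S.X, ph x (0, 0) ≠ 0 → PWV.emb f (π x) = deh (ph x)) ∧
      ∀ x ∈ S.X, ph x (0, 0) ≠ 0 → ph x = aff (PWV.emb f (π x)) := by
    have a : ∀ x ∈ S.X, ph x (0, 0) ≠ 0 →
        PWV.emb f (Function.invFun (PWV.emb (Y := Y) f) (deh (ph x))) = deh (ph x) :=
      fun x hx h0 => Function.invFun_eq (hm.im x hx h0)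
    exact ⟨fun x => Function.invFun (PWV.emb (Y := Y) f) (deh (ph x)), a, fun x hx h0 => by
      rw [a x hx h0, aff_deh (hm.hol.prj S.mf hx) h0]⟩
  let Q : Data Y (d - m) := ⟨N, f, c, S.M, r, S.X, D, al, be, h, π, ph⟩
  have pre : ∀ {W : Set Y} {x : Amb S.M}, x ∈ Q.pre W ↔ x ∈ S.X ∧ ph x (0, 0) ≠ 0 ∧ π x ∈ W :=
    fun {W x} => ⟨fun hx => ⟨hx.1.1, fun h0 => hx.1.2 ((hal x hx.1.1).2 h0), hx.2⟩,
      fun hx => ⟨⟨hx.1, fun h0 => hx.2.1 ((hal x hx.1).1 h0)⟩, hx.2.2⟩⟩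
  have wo : ∀ x ∈ S.X, ph x (0, 0) ≠ 0 → (π x ∈ U 1 ↔ ph x ∈ Wo H) := fun x hx h0 => by
    rw [h1, ← aff_Wo, ← hπ' x hx h0]
  refine ⟨Q, ⟨hf, fun e => ?_, snc, S.cjX, cjD, ⟨dj1, dj2⟩, ?_, ?_, ?_, ?_, ?_, ?_,
    hm.hol.cont S.mf, ?_, ?_, ?_⟩, fun e => ?_⟩
  · refine PWV.dimLT_of_dim hY hf (((dm1 e).mono ?_).mono_nat (by omega))
    rintro _ ⟨y, hy, rfl⟩
    exact ⟨⟨y, hy.1, rfl⟩, hy.2⟩
  · rw [he.isInducing.continuousOn_iff]
    refine ContinuousOn.congr (f := fun x => deh (ph x)) (fun x hx => ?_) fun x hx => ?_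
    · exact (cont_deh (pre.1 hx).2.1).comp_continuousWithinAt
        ((hm.hol.cont S.mf x (pre.1 hx).1).mono fun y hy => (pre.1 hy).1)
    · exact hπ x (pre.1 hx).1 (pre.1 hx).2.1
  · intro y _
    obtain ⟨x, hx, e⟩ := hm.surj _ ⟨y, rfl⟩
    have h0 : ph x (0, 0) ≠ 0 := by
      rw [e]
      exact aff_zero _
    refine ⟨x, pre.2 ⟨hx, h0, trivial⟩, he.injective ?_⟩
    show PWV.emb f (π x) = _
    rw [hπ x hx h0, e, deh_aff]
  · intro x hx x' hx' e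
    obtain ⟨a1, a2, a3⟩ := pre.1 hx
    obtain ⟨b1, b2, b3⟩ := pre.1 hx'
    refine hm.inj ⟨a1, (wo x a1 a2).1 a3⟩ ⟨b1, (wo x' b1 b2).1 b3⟩ ?_
    have e' : π x = π x' := e
    rw [hπ' x a1 a2, hπ' x' b1 b2, e']
  · intro x hx
    obtain ⟨a1, a2, -⟩ := pre.1 hx
    exact (wo x a1 a2).not.trans (hbe x a1 a2).symm
  · intro x hx
    obtain ⟨a1, a2, -⟩ := pre.1 hx
    have b2 : ph (cj S.M x) (0, 0) ≠ 0 := by
      rw [hm.rl, cj_apply]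
      exact (map_ne_zero _).2 a2
    refine hS (π x) (π (cj S.M x)) ?_
    rw [hπ _ (S.cjX a1) b2, hπ x a1 a2, hm.rl, deh_cj]
  · intro O g hg j
    refine DifferentiableOn.congr (f := fun z => deh (ph (proj (g z))) j) (fun z hz => ?_)
      fun z hz => congrFun (hπ _ (pre.1 hz.2).1 (pre.1 hz.2).2.1) j
    obtain ⟨G, hG, -, e⟩ := hm.hol (proj ∘ g) z _ ⟨O, g, hg, rfl, hz.1, rfl⟩
    have h0 : G z 0 ≠ 0 := fun h0 => (pre.1 hz.2).2.1 (by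
      have e0 : ph ((proj ∘ g) z) = proj (G z) := e.self_of_nhds
      rw [e0]
      simp [proj, h0])
    have an : ∀ i, AnalyticAt ℂ (fun w => G w i) z := fun i => analyticAt_pi_iff.1 hG i
    refine DifferentiableAt.differentiableWithinAt
      (((an j.succ).div (an 0) h0).differentiableAt.congr_of_eventuallyEq ?_)
    filter_upwards [e, (an 0).continuousAt.eventually_ne h0] with w e1 e2
    have e0 : ph (proj (g w)) = proj (G w) := e1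
    rw [e0, deh_proj e2]
    rfl
  · intro x hx
    exact hπ' x (pre.1 hx).1 (pre.1 hx).2.1
  · intro x hx
    obtain ⟨i, -, hi⟩ := mem_iUnion₂.1 hx
    exact (hal x (snc.sub i hi)).1 hx
  · intro i x hx
    show x ∈ D (h i) ↔ _
    rw [hh]
    exact ⟨fun a => a.2, fun a => ⟨hx, a⟩⟩
  · refine PWV.dimLT_of_dim hY hf (((dm2 e).mono ?_).mono_nat (by omega))
    rintro _ ⟨y, hy, rfl⟩
    exact ⟨⟨y, hy.1, rfl⟩, hy.2⟩

end Pool.Agent.HIR
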