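import Pool.Agent.P.MP_65ad7c_ag.LPt

open Set

noncomputable section
namespace Pool.Agent.PW.L

theorem coeff_XJ2 {A : Type} [CommRing A] [Algebra ℂ A] (V : Submodule ℂ A) (s : Set A)
    (hs : s ⊆ V) {p : Polynomial A}
    (hp : p ∈ Algebra.adjoin ℂ ((fun v : A => Polynomial.monomial 1 v) '' s)) (k : ℕ) :
    p.coeff k ∈ V ^ k := by
  induction hp using Algebra.adjoin_induction generalizing k with
  | mem x hx =>
    obtain ⟨v, hv, rfl⟩ := hx
    rw [Polynomial.coeff_monomial]
    split_ifs with h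
    · rw [← h, pow_one]
      exact hs hv
    · exact zero_mem _
  | algebraMap c =>
    rw [Polynomial.algebraMap_apply, Polynomial.coeff_C]
    split_ifs with h
    · rw [h, pow_zero]
      exact Submodule.algebraMap_mem c
    · exact zero_mem _
  | add x y _ _ hx hy =>
    rw [Polynomial.coeff_add]
    exact add_mem (hx k) (hy k)
  | mul x y _ _ hx hy =>
    rw [Polynomial.coeff_mul]
    refine Submodule.sum_mem _ fun c hc => ?_
    rw [← Finset.HasAntidiagonal.mem_antidiagonal.1 hc, pow_add]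
    exact Submodule.mul_mem_mul (hx _) (hy _)

theorem mono_XJ2 {A : Type} [CommRing A] [Algebra ℂ A] (s : Set A) (k : ℕ) :
    ∀ b ∈ Submodule.span ℂ s ^ k, Polynomial.monomial k b ∈
      Algebra.adjoin ℂ ((fun v : A => Polynomial.monomial 1 v) '' s) := by
  have h1 : ∀ v ∈ Submodule.span ℂ s, Polynomial.monomial 1 v ∈
      Algebra.adjoin ℂ ((fun v : A => Polynomial.monomial 1 v) '' s) := by
    intro v hv
    induction hv using Submodule.span_induction with
    | mem x hx => exact Algebra.subset_adjoin ⟨x, hx, rfl⟩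
    | zero => rw [map_zero]; exact zero_mem _
    | add x y _ _ hx hy => rw [map_add]; exact add_mem hx hy
    | smul c x _ hx => rw [← Polynomial.smul_monomial]; exact Subalgebra.smul_mem _ hx c
  induction k with
  | zero =>
    intro b hb
    rw [pow_zero] at hb
    obtain ⟨c, rfl⟩ := Submodule.mem_one.1 hb
    rw [Polynomial.monomial_zero_left, ← Polynomial.algebraMap_apply]
    exact Subalgebra.algebraMap_mem _ c
  | succ k ih =>
    intro b hb
    rw [pow_succ] at hb
    refine Submodule.mul_induction_on hb (fun m hm n hn => ?_) fun x y hx hy => ?_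
    · rw [← Polynomial.monomial_mul_monomial]
      exact mul_mem (ih m hm) (h1 n hn)
    · rw [map_add]
      exact add_mem hx hy

/-- Hilbert's argument -/
theorem hilb_abs {A : Type} [CommRing A] [Algebra ℂ A] (V : Submodule ℂ A) (hV : V.FG)
    (B : Subalgebra ℂ A) (hB : ∀ b ∈ B, ∃ k, b ∈ V ^ k)
    (hT : ∀ s : Finset A, (∀ a ∈ s, ∃ k, a ∈ V ^ k) → ∃ T : A →ₗ[ℂ] A, T 1 = 1 ∧
      (∀ a, ∀ b ∈ B, T (a * b) = T a * b) ∧ (∀ k, ∀ a ∈ V ^ k, T a ∈ V ^ k) ∧ ∀ a ∈ s, T a ∈ B) :
    B.FG := by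
  classical
  obtain ⟨s, rfl⟩ := hV
  let R : Subalgebra ℂ (Polynomial A) :=
    Algebra.adjoin ℂ ((fun v : A => Polynomial.monomial 1 v) '' (s : Set A))
  have hR : R.FG := ⟨s.image fun v : A => Polynomial.monomial 1 v, by rw [Finset.coe_image]⟩
  have : IsNoetherianRing R := isNoetherianRing_of_fg hR
  let Z : Set R := {p | ∃ (k : ℕ) (b : A), 0 < k ∧ b ∈ B ∧ p.1 = Polynomial.monomial k b}
  obtain ⟨t, ht, hsp⟩ := (Submodule.fg_span_iff_fg_span_finset_subset (R := R) Z).1
    (IsNoetherian.noetherian _)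
  have hch : ∀ p : R, ∃ (k : ℕ) (b : A), p ∈ t →
      0 < k ∧ b ∈ B ∧ p.1 = Polynomial.monomial k b := by
    intro p
    by_cases hp : p ∈ t
    · obtain ⟨k, b, h⟩ := ht hp
      exact ⟨k, b, fun _ => h⟩
    · exact ⟨0, 0, fun h => absurd h hp⟩
  choose d β hd using hch
  have key : ∀ k, ∀ b ∈ B, b ∈ Submodule.span ℂ (s : Set A) ^ k →
      b ∈ Algebra.adjoin ℂ (t.image β : Set A) := by
    intro k
    induction k using Nat.strong_induction_on with
    | _ k ih =>
      intro b hb hk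
      rcases Nat.eq_zero_or_pos k with rfl | k0
      · rw [pow_zero] at hk
        obtain ⟨c, rfl⟩ := Submodule.mem_one.1 hk
        exact Subalgebra.algebraMap_mem _ c
      have hm : (⟨Polynomial.monomial k b, mono_XJ2 _ k b hk⟩ : R) ∈ Submodule.span R (t : Set R) :=
        hsp ▸ Submodule.subset_span ⟨k, b, k0, hb, rfl⟩
      obtain ⟨f, -, hf⟩ := Submodule.mem_span_finset.1 hm
      let a : R → A := fun p => if d p ≤ k then (f p).1.coeff (k - d p) else 0
      have ha : ∀ p, a p ∈ Submodule.span ℂ (s : Set A) ^ (k - d p) := by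
        intro p
        simp only [a]
        split_ifs
        · exact coeff_XJ2 _ _ Submodule.subset_span (f p).2 _
        · exact zero_mem _
      have e : b = ∑ p ∈ t, a p * β p := by
        have h1 := congrArg (fun q : R => q.1.coeff k) hf
        simp only [AddSubmonoidClass.coe_finsetSum, Polynomial.finsetSum_coeff,
          Polynomial.coeff_monomial_same] at h1
        rw [← h1]
        refine Finset.sum_congr rfl fun p hp => ?_
        rw [smul_eq_mul, Subalgebra.coe_mul, (hd p hp).2.2, ← Polynomial.C_mul_X_pow_eq_monomial,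
          ← mul_assoc, Polynomial.coeff_mul_X_pow', Polynomial.coeff_mul_C]
        simp only [a]
        split_ifs
        · rfl
        · rw [zero_mul]
      obtain ⟨T, t1, t2, t3, t4⟩ := hT (t.image a) fun x hx => by
        obtain ⟨p, -, rfl⟩ := Finset.mem_image.1 hx
        exact ⟨_, ha p⟩
      have e2 : b = ∑ p ∈ t, T (a p) * β p := by
        have h1 := t2 1 b hb
        rw [one_mul, t1, one_mul] at h1
        rw [← h1]
        conv_lhs => rw [e, map_sum]
        exact Finset.sum_congr rfl fun p hp => t2 _ _ (hd p hp).2.1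
      rw [e2]
      refine Subalgebra.sum_mem _ fun p hp => mul_mem ?_ ?_
      · have := (hd p hp).1
        exact ih (k - d p) (by omega) _ (t4 _ (Finset.mem_image_of_mem a hp)) (t3 _ _ (ha p))
      · exact Algebra.subset_adjoin (Finset.mem_coe.2 (Finset.mem_image_of_mem β hp))
  refine ⟨t.image β, le_antisymm (Algebra.adjoin_le fun x hx => ?_) fun b hb => ?_⟩
  · obtain ⟨p, hp, rfl⟩ := Finset.mem_image.1 (Finset.mem_coe.1 hx)
    exact (hd p hp).2.1
  · obtain ⟨k, hk⟩ := hB b hb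
    exact key k b hb hk

theorem le_XJ2 {A : Type} [CommRing A] [Algebra ℂ A] {V : Submodule ℂ A} (h1 : (1 : A) ∈ V)
    {a : A} {k : ℕ} (ha : a ∈ V ^ k) (l : ℕ) : a ∈ V ^ (k + l) := by
  induction l with
  | zero => exact ha
  | succ l ih =>
    rw [← add_assoc, pow_succ, ← mul_one a]
    exact Submodule.mul_mem_mul ih h1

/-- the elements of the powers of a subspace that contains one -/
def sub_XJ2 {A : Type} [CommRing A] [Algebra ℂ A] {V : Submodule ℂ A} (h1 : (1 : A) ∈ V) :
    Subalgebra ℂ A where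
  carrier := {a | ∃ k, a ∈ V ^ k}
  mul_mem' := fun ⟨k, hk⟩ ⟨l, hl⟩ => ⟨k + l, by rw [pow_add]; exact Submodule.mul_mem_mul hk hl⟩
  add_mem' := fun ⟨k, hk⟩ ⟨l, hl⟩ =>
    ⟨k + l, add_mem (le_XJ2 h1 hk l) (by rw [add_comm k l]; exact le_XJ2 h1 hl k)⟩
  algebraMap_mem' c := ⟨0, by rw [pow_zero]; exact Submodule.algebraMap_mem c⟩

theorem pow_XJ2 {A : Type} [CommRing A] [Algebra ℂ A] {V : Submodule ℂ A} (φ : A →ₐ[ℂ] A)
    (h : ∀ v ∈ V, φ v ∈ V) {a : A} {k : ℕ} (ha : a ∈ V ^ k) : φ a ∈ V ^ k := by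
  have h1 : Submodule.map φ.toLinearMap V ≤ V := Submodule.map_le_iff_le_comap.2 h
  have h2 : Submodule.map φ.toLinearMap (V ^ k) ≤ V ^ k := by
    rw [Submodule.map_pow]
    exact pow_le_pow_left' h1 k
  exact h2 ⟨a, ha, rfl⟩

variable {r : ℕ} {G : Subgroup (GL (Fin r) ℂ)} {Γ : Type} [Group Γ]

/-- conjugation acting on functions -/
def cj_XJ2 (g : G) : ((Γ →* G) → ℂ) →ₐ[ℂ] ((Γ →* G) → ℂ) where
  toFun f ρ := f (cjG g ρ)
  map_one' := rfl
  map_mul' _ _ := rfl
  map_zero' := rfl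
  map_add' _ _ := rfl
  commutes' _ := rfl

theorem ent_XJ2 (g : G) (γ : Γ) (i j : Fin r) :
    cj_XJ2 g (fun ρ : Γ →* G => (ρ γ).1.1 i j) =
      ∑ b, ∑ a, (g.1.1 i a * (g⁻¹).1.1 b j) • fun ρ : Γ →* G => (ρ γ).1.1 a b := by
  funext ρ
  have := mat_cjG g ρ γ
  rw [mat_apply, mat_apply] at this
  change (cjG g ρ γ).1.1 i j = _
  rw [this]
  simp only [Matrix.mul_apply, Finset.sum_apply, Pi.smul_apply, smul_eq_mul, Finset.sum_mul]
  exact Finset.sum_congr rfl fun b _ => Finset.sum_congr rfl fun a _ => by ring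

/-- the ring of invariants is finitely generated -/
theorem inv_finiteType (hG : IsRed G) (S : Finset Γ) (hS : Submonoid.closure (S : Set Γ) = ⊤) :
    Algebra.FiniteType ℂ (Inv Γ G) := by
  classical
  rw [← Subalgebra.fg_iff_finiteType]
  let F : Γ × Fin r × Fin r → (Γ →* G) → ℂ := fun x ρ => (ρ x.1).1.1 x.2.1 x.2.2
  let s : Finset ((Γ →* G) → ℂ) := insert 1 ((S ×ˢ Finset.univ).image F)
  let V : Submodule ℂ ((Γ →* G) → ℂ) := Submodule.span ℂ (s : Set _)
  have h1 : (1 : (Γ →* G) → ℂ) ∈ V :=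
    Submodule.subset_span (Finset.mem_coe.2 (Finset.mem_insert_self _ _))
  have h2 : ∀ γ ∈ S, ∀ i j, (fun ρ : Γ →* G => (ρ γ).1.1 i j) ∈ V := fun γ hγ i j =>
    Submodule.subset_span (Finset.mem_coe.2 (Finset.mem_insert_of_mem (Finset.mem_image.2
      ⟨(γ, i, j), Finset.mem_product.2 ⟨hγ, Finset.mem_univ _⟩, rfl⟩)))
  have h3 : OO G Γ ≤ sub_XJ2 h1 := by
    refine Algebra.adjoin_le ?_
    rintro f ⟨γ, i, j, rfl⟩
    have hγ : γ ∈ Submonoid.closure (S : Set Γ) := hS ▸ Submonoid.mem_top γ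
    induction hγ using Submonoid.closure_induction generalizing i j with
    | mem x hx => exact ⟨1, by rw [pow_one]; exact h2 x hx i j⟩
    | one =>
      rw [lpt_one]
      exact Subalgebra.algebraMap_mem _ _
    | mul γ δ _ _ e1 e2 =>
      rw [lpt_mul]
      exact Subalgebra.sum_mem _ fun k _ => Subalgebra.mul_mem _ (e1 i k) (e2 k j)
  have h4 : ∀ v ∈ V, v ∈ OO G Γ := by
    have : V ≤ (OO G Γ).toSubmodule := by
      refine Submodule.span_le.2 fun x hx => ?_
      rcases Finset.mem_insert.1 (Finset.mem_coe.1 hx) with rfl | hx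
      · exact one_mem (OO G Γ)
      · obtain ⟨y, -, rfl⟩ := Finset.mem_image.1 hx
        exact Algebra.subset_adjoin ⟨y.1, y.2.1, y.2.2, rfl⟩
    exact fun v hv => this hv
  have h5 : ∀ k, ∀ a ∈ V ^ k, a ∈ OO G Γ := fun k a ha =>
    Submodule.pow_induction_on_left V (C := fun a => a ∈ OO G Γ)
      (fun c => Subalgebra.algebraMap_mem _ c) (fun _ _ => add_mem)
      (fun m hm _ hx => mul_mem (h4 m hm) hx) ha
  have h6 : ∀ g : G, ∀ v ∈ V, cj_XJ2 g v ∈ V := by
    intro g
    have : V ≤ V.comap (cj_XJ2 g).toLinearMap := by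
      refine Submodule.span_le.2 fun x hx => ?_
      rcases Finset.mem_insert.1 (Finset.mem_coe.1 hx) with rfl | hx
      · exact h1
      · obtain ⟨y, hy, rfl⟩ := Finset.mem_image.1 hx
        change cj_XJ2 g (fun ρ : Γ →* G => (ρ y.1).1.1 y.2.1 y.2.2) ∈ V
        rw [ent_XJ2]
        exact Submodule.sum_mem _ fun b _ => Submodule.sum_mem _ fun a _ =>
          Submodule.smul_mem _ _ (h2 _ (Finset.mem_product.1 hy).1 a b)
    exact fun v hv => this hv
  refine hilb_abs V ⟨s, rfl⟩ (Inv Γ G) (fun b hb => h3 (mem_Inv.1 hb).1) fun t ht => ?_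
  obtain ⟨c, c1, c2⟩ := rey hG (κ := t) (f := fun x => x.1) fun x => by
    obtain ⟨k, hk⟩ := ht x.1 x.2
    exact h5 k _ hk
  let T : ((Γ →* G) → ℂ) →ₗ[ℂ] ((Γ →* G) → ℂ) := ∑ h ∈ c.support, c h • (cj_XJ2 h).toLinearMap
  have hT : ∀ f, T f = ∑ h ∈ c.support, c h • cj_XJ2 h f := fun f => by
    simp only [T, LinearMap.sum_apply, LinearMap.smul_apply, AlgHom.toLinearMap_apply]
  refine ⟨T, ?_, fun a b hb => ?_, fun k a ha => ?_, fun a ha => ?_⟩
  · rw [hT]
    simp only [map_one]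
    rw [← Finset.sum_smul]
    change (c.sum fun _ x => x) • _ = _
    rw [c1, one_smul]
  · rw [hT, hT, Finset.sum_mul]
    refine Finset.sum_congr rfl fun h _ => ?_
    have : cj_XJ2 h b = b := funext fun ρ => (mem_Inv.1 hb).2 h ρ
    rw [map_mul, this, smul_mul_assoc]
  · rw [hT]
    exact Submodule.sum_mem _ fun h _ => Submodule.smul_mem _ _ (pow_XJ2 _ (h6 h) ha)
  · have e : T a = av c a := by
      rw [hT]
      funext ρ
      simp only [av, Finsupp.sum, Finset.sum_apply, Pi.smul_apply, smul_eq_mul]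
      rfl
    rw [e]
    exact c2 ⟨a, ha⟩

end Pool.Agent.PW.L
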