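import Pool.Agent.P.MP_65ad7c_ag.XJ2
import Pool.Agent.P.MP_65ad7c_ag.DFl

open Set Matrix
open scoped ComplexConjugate
open Pool.Agent.PW

noncomputable section
namespace Pool.Agent.PWF

variable {r : ℕ} {Γ : Type} [Group Γ] {G : Subgroup (GL (Fin r) ℂ)} {R : Type} [CommRing R]
  [Algebra ℂ R] {e : (Γ →* G) → R →ₐ[ℂ] ℂ}

theorem ext_XJ3 (he : IsInv e) {a b : R} (h : ∀ ρ, e ρ a = e ρ b) : a = b :=
  sub_eq_zero.mp (he.1 _ fun ρ => by rw [map_sub, h, sub_self])

theorem star_XJ3 (hG : Red G) (he : IsInv e) (g : R) : ∃ g' : R, ∀ ρ ρ' : Γ →* G,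
    (∀ γ, (ρ' γ).1.1 = (ρ γ⁻¹).1.1ᴴ) → e ρ g' = conj (e ρ' g) := by
  obtain ⟨φ, hφ⟩ := equiv_DFl he
  obtain ⟨f', hf'⟩ := L.exists_star hG (φ g)
  refine ⟨φ.symm f', fun ρ ρ' h => ?_⟩
  rw [← hφ, ← hφ, φ.apply_symm_apply]
  exact hf' ρ ρ' h

/-- the real structure of the coordinate ring -/
theorem exists_invol (hG : Red G) (he : IsInv e) : ∃ τ : R →+* R, (∀ g, τ (τ g) = g) ∧
    (∀ (c : ℂ) g, τ (c • g) = conj c • τ g) ∧
    ∀ y y' : R → ℂ, Cnj e y y' ↔ ∀ g, y' g = conj (y (τ g)) := by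
  choose th hth using fun ρ : Γ →* G => L.exists_dual hG ρ
  choose t ht using star_XJ3 hG he
  have h1 : ∀ g ρ, e ρ (t g) = conj (e (th ρ) g) := fun g ρ => ht g ρ (th ρ) (hth ρ)
  refine ⟨{ toFun := t
            map_one' := ext_XJ3 he fun ρ => by rw [h1, map_one, map_one, map_one]
            map_mul' := fun a b => ext_XJ3 he fun ρ => by
              rw [map_mul, h1, h1, h1, map_mul, map_mul]
            map_zero' := ext_XJ3 he fun ρ => by rw [h1, map_zero, map_zero, map_zero]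
            map_add' := fun a b => ext_XJ3 he fun ρ => by
              rw [map_add, h1, h1, h1, map_add, map_add] },
    fun g => ext_XJ3 he fun ρ => ?_, fun c g => ext_XJ3 he fun ρ => ?_,
    fun y y' => ⟨fun h g => h g (t g) (ht g), fun h f f' hf => ?_⟩⟩
  · change e ρ (t (t g)) = e ρ g
    rw [h1, ht g (th ρ) ρ (L.linv_symm (hth ρ)), Complex.conj_conj]
  · change e ρ (t (c • g)) = e ρ (conj c • t g)
    rw [map_smul, h1, h1, map_smul, smul_eq_mul, smul_eq_mul, map_mul]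
  · have h2 : f' = t f := ext_XJ3 he fun ρ => by rw [h1, hf ρ (th ρ) (hth ρ)]
    rw [h2]
    exact h f

/-- real generators -/
theorem exists_real_gens (hG : Red G) (he : IsInv e) (S : Finset Γ)
    (hS : Submonoid.closure (S : Set Γ) = ⊤) :
    ∃ (N : ℕ) (f : Fin N → R), Algebra.adjoin ℂ (range f) = ⊤ ∧
      ∀ y y' : R →ₐ[ℂ] ℂ, Cnj e y y' ↔ ∀ j, y' (f j) = conj (y (f j)) := by
  obtain ⟨τ, h1, h2, h3⟩ := exists_invol hG he
  obtain ⟨φ, -⟩ := equiv_DFl he
  have hft : Algebra.FiniteType ℂ R :=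
    Algebra.FiniteType.equiv (L.inv_finiteType hG S hS) φ.symm
  obtain ⟨s, hs⟩ := hft.out
  let F : s ⊕ s → R := Sum.elim (fun g => g.1 + τ g.1) fun g => Complex.I • (g.1 - τ g.1)
  have hF : ∀ j, τ (F j) = F j := by
    rintro (g | g)
    · change τ (g.1 + τ g.1) = g.1 + τ g.1
      rw [map_add, h1, add_comm]
    · change τ (Complex.I • (g.1 - τ g.1)) = Complex.I • (g.1 - τ g.1)
      rw [h2, map_sub, h1, Complex.conj_I, neg_smul, ← smul_neg, neg_sub]
  have hr : range (F ∘ (Fintype.equivFin (s ⊕ s)).symm) = range F :=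
    (Fintype.equivFin (s ⊕ s)).symm.surjective.range_comp F
  have ht : Algebra.adjoin ℂ (range F) = ⊤ := by
    rw [eq_top_iff, ← hs]
    refine Algebra.adjoin_le fun g hg => ?_
    have e1 : g = (2⁻¹ : ℂ) • (F (Sum.inl ⟨g, hg⟩) - Complex.I • F (Sum.inr ⟨g, hg⟩)) := by
      change g = (2⁻¹ : ℂ) • (g + τ g - Complex.I • Complex.I • (g - τ g))
      rw [smul_smul, Complex.I_mul_I, neg_smul, one_smul, sub_neg_eq_add, add_add_sub_cancel,
        ← two_smul ℂ g, smul_smul, inv_mul_cancel₀ two_ne_zero, one_smul]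
    rw [e1]
    exact Subalgebra.smul_mem _ (sub_mem (Algebra.subset_adjoin (mem_range_self _))
      (Subalgebra.smul_mem _ (Algebra.subset_adjoin (mem_range_self _)) _)) _
  refine ⟨_, F ∘ (Fintype.equivFin (s ⊕ s)).symm, hr ▸ ht, fun y y' => ?_⟩
  rw [h3]
  refine ⟨fun h j => by rw [h, Function.comp_apply, hF], fun h g => ?_⟩
  have hg : g ∈ Algebra.adjoin ℂ (range F) := ht ▸ Algebra.mem_top
  induction hg using Algebra.adjoin_induction with
  | mem x hx =>
    obtain ⟨j, rfl⟩ := hx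
    have h4 := h (Fintype.equivFin (s ⊕ s) j)
    rw [Function.comp_apply, Equiv.symm_apply_apply] at h4
    rw [hF, h4]
  | algebraMap c =>
    rw [Algebra.algebraMap_eq_smul_one, h2, map_one, map_smul, map_smul, map_one, map_one,
      smul_eq_mul, smul_eq_mul, mul_one, mul_one, Complex.conj_conj]
  | add a b _ _ ha hb => rw [map_add, map_add, map_add, map_add, ha, hb]
  | mul a b _ _ ha hb => rw [map_mul, map_mul, map_mul, map_mul, ha, hb]

end Pool.Agent.PWF
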