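import Pool.Agent.P.MP_65ad7c_ag.DDefs

open Set Topology TopologicalSpace

noncomputable section
namespace Pool.Agent.PWD

/-- the strata of `U'` are flat in the strata of `U` -/
def Flt {Y : Type} [TopologicalSpace Y] (U U' : ℕ → Opens Y) : Prop :=
  ∀ c, 0 < c → ∀ x ∈ (U' (c + 1) \ U' c : Set Y), ∃ k, x ∈ (U (k + 1) \ U k : Set Y) ∧
    ∀ W : Set Y, IsOpen W → x ∈ W → ∃ (O : Set Y) (e m : ℕ)
      (χ : (Fin e → ℂ) × (Fin m → ℂ) → Y), IsOpen O ∧ x ∈ O ∧ O ⊆ W ∧ IsEmbedding χ ∧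
      range χ = O \ U k ∧ O ∩ U k ⊆ U' c ∧ ∀ u, χ u ∉ U' c ↔ u.2 = 0

end Pool.Agent.PWD
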