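import Pool.Agent.P.MP_65ad7c_ag.VSmooth
import Pool.Agent.P.MP_65ad7c_ag.VInt

open Set Filter Topology MvPolynomial

noncomputable section
namespace Pool.Agent.PWV

theorem Chart.congr {σ : Type} {k : ℕ} {V V' : Set (σ → ℂ)} {G : Fin k → MvPolynomial σ ℂ}
    {x : σ → ℂ} (h : Chart V G x) (e : ∀ᶠ y in 𝓝 x, y ∈ V ↔ y ∈ V') : Chart V' G x := by
  obtain ⟨O, N, ψ, hO, hN, hx, hψ, h1, h2⟩ := h
  obtain ⟨W, hW, hWo, hxW⟩ := eventually_nhds_iff.1 e
  refine ⟨O ∩ ψ ⁻¹' W, N ∩ W, ψ, hψ.isOpen_inter_preimage hO hWo, hN.inter hWo, ⟨hx, hxW⟩,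
    hψ.mono inter_subset_left, ?_, fun y hy => h2 y hy.1⟩
  ext y
  constructor
  · rintro ⟨a, b, c⟩
    obtain ⟨u, hu, rfl⟩ := h1.le ⟨(hW y c).2 a, b⟩
    exact ⟨u, ⟨hu, c⟩, rfl⟩
  · rintro ⟨u, ⟨hu, c⟩, rfl⟩
    have h3 := h1.ge ⟨u, hu, rfl⟩
    exact ⟨(hW _ c).1 h3.1, h3.2, c⟩

theorem tail_cont_XK1 (n : ℕ) : Continuous fun y : Fin (n + 1) → ℂ => Fin.tail y :=
  continuous_pi fun i => continuous_apply i.succ

theorem Chart.cyl_XK1 {n e : ℕ} {V : Set (Fin n → ℂ)} {ι : Fin e → Fin n} {x : Fin (n + 1) → ℂ}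
    (h : Chart V (fun i => X (ι i)) (Fin.tail x)) :
    Chart {y : Fin (n + 1) → ℂ | Fin.tail y ∈ V}
      (fun i => X ((Fin.cons 0 fun j => (ι j).succ : Fin (e + 1) → Fin (n + 1)) i)) x := by
  obtain ⟨O, N, ψ, hO, hN, hx, hψ, h1, h2⟩ := h
  refine ⟨{z | Fin.tail z ∈ O}, {y | Fin.tail y ∈ N}, fun z => Fin.cons (z 0) (ψ (Fin.tail z)),
    hO.preimage (tail_cont_XK1 e), hN.preimage (tail_cont_XK1 n), hx, ?_, ?_, fun z hz => ?_⟩
  · refine continuousOn_pi.2 fun i => ?_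
    refine Fin.cases ?_ (fun j => ?_) i
    · exact (continuous_apply 0).continuousOn
    · exact (continuous_apply j).comp_continuousOn
        (hψ.comp (tail_cont_XK1 e).continuousOn fun z hz => hz)
  · ext y
    constructor
    · rintro ⟨a, b⟩
      obtain ⟨u, hu, e1⟩ := h1.le ⟨a, b⟩
      refine ⟨Fin.cons (y 0) u, by simpa using hu, ?_⟩
      simp only [Fin.cons_zero, Fin.tail_cons, e1, Fin.cons_self_tail]
    · rintro ⟨z, hz, rfl⟩
      exact h1.ge ⟨_, hz, rfl⟩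
  · funext i
    refine Fin.cases ?_ (fun j => ?_) i
    · simp [pm]
    · have h3 := congrFun (h2 _ hz) j
      simp only [pm, eval_X] at h3
      simp only [pm, eval_X, Fin.cons_succ]
      exact h3

theorem Chart.root_XK1 {n e : ℕ} {V : Set (Fin n → ℂ)} {ι : Fin e → Fin n} {x : Fin (n + 1) → ℂ}
    (h : Chart V (fun i => X (ι i)) (Fin.tail x)) {m : MvPolynomial (Fin (n + 1)) ℂ}
    (hm : eval x (pderiv 0 m) ≠ 0) :
    Chart {y : Fin (n + 1) → ℂ | Fin.tail y ∈ V ∧ eval y m = 0} (fun i => X (ι i).succ) x := by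
  obtain ⟨O, N, ψ, hO, hN, hx, hψ, h1, h2⟩ := h
  obtain ⟨E, hxE, hE⟩ := ift m hm
  have hc : ContinuousOn (fun u => (ψ u, (0 : ℂ))) O := hψ.prodMk continuousOn_const
  have key : ∀ u, (ψ u, (0 : ℂ)) ∈ E.target →
      Fin.tail (E.symm (ψ u, 0)) = ψ u ∧ eval (E.symm (ψ u, 0)) m = 0 := fun u hu => by
    have h3 := E.right_inv hu
    rw [hE] at h3
    exact Prod.ext_iff.1 h3
  refine ⟨O ∩ (fun u => (ψ u, (0 : ℂ))) ⁻¹' E.target, E.source ∩ {y | Fin.tail y ∈ N},
    fun u => E.symm (ψ u, 0), hc.isOpen_inter_preimage hO E.open_target,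
    E.open_source.inter (hN.preimage (tail_cont_XK1 n)), ⟨hxE, hx⟩,
    E.continuousOn_symm.comp (hc.mono inter_subset_left) fun u hu => hu.2, ?_, fun u hu => ?_⟩
  · ext y
    constructor
    · rintro ⟨⟨a, b⟩, c, d⟩
      obtain ⟨u, hu, e1⟩ := h1.le ⟨a, d⟩
      have e2 : E y = (ψ u, 0) := by rw [hE, e1, b]
      refine ⟨u, ⟨hu, ?_⟩, ?_⟩
      · change (ψ u, (0 : ℂ)) ∈ E.target
        rw [← e2]
        exact E.map_source c
      · change E.symm (ψ u, 0) = y
        rw [← e2]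
        exact E.left_inv c
    · rintro ⟨u, ⟨hu, c⟩, rfl⟩
      have h3 := h1.ge ⟨u, hu, rfl⟩
      obtain ⟨k1, k2⟩ := key u c
      refine ⟨⟨?_, k2⟩, E.map_target c, ?_⟩
      · rw [k1]
        exact h3.1
      · change Fin.tail (E.symm (ψ u, 0)) ∈ N
        rw [k1]
        exact h3.2
  · funext i
    have h3 := congrFun (h2 _ hu.1) i
    have h4 := congrFun (key u hu.2).1 (ι i)
    simp only [pm, eval_X] at h3 ⊢
    exact h4.trans h3

theorem trdeg_le_XK1 {S T : Type} [CommRing S] [CommRing T] [IsDomain S] [IsDomain T] [Algebra ℂ S]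
    [Algebra ℂ T] (φ : S →ₐ[ℂ] T) (hφ : Function.Injective φ) (t : T)
    (hgen : ∀ Z : T → Prop, (∀ s, Z (φ s)) → Z t → (∀ a b, Z a → Z b → Z (a + b)) →
      (∀ a b, Z a → Z b → Z (a * b)) → ∀ a, Z a) :
    Algebra.trdeg ℂ T ≤ Algebra.trdeg ℂ S + 1 := by
  let : Algebra S T := (φ : S →+* T).toAlgebra
  have : IsScalarTower ℂ S T := IsScalarTower.of_algebraMap_eq fun a => (φ.commutes a).symm
  have : FaithfulSMul S T := (faithfulSMul_iff_algebraMap_injective S T).2 hφ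
  have hs : Function.Surjective (Polynomial.aeval t : Polynomial S →ₐ[S] T) :=
    hgen (fun a => ∃ P, Polynomial.aeval t P = a) (fun s => ⟨Polynomial.C s, Polynomial.aeval_C _ _⟩)
      ⟨Polynomial.X, Polynomial.aeval_X _⟩
      (by rintro _ _ ⟨P, rfl⟩ ⟨Q, rfl⟩; exact ⟨P + Q, map_add _ _ _⟩)
      (by rintro _ _ ⟨P, rfl⟩ ⟨Q, rfl⟩; exact ⟨P * Q, map_mul _ _ _⟩)
  have h1 := trdeg_le_of_surjective _ hs
  rw [Polynomial.trdeg_of_isDomain] at h1
  rw [← trdeg_add_eq ℂ S (A := T)]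
  exact add_le_add le_rfl h1

theorem dim_XK1 {n : ℕ} {q : Ideal (MvPolynomial (Fin (n + 1)) ℂ)} (hq : q.IsPrime) {k : ℕ}
    (h : Dim (ZI (q.comap
      (rename Fin.succ : MvPolynomial (Fin n) ℂ →ₐ[ℂ] MvPolynomial (Fin (n + 1)) ℂ))) k) :
    Dim (ZI q) (k + 1) ∧ ∀ m ∈ q, pderiv 0 m ∉ q → Dim (ZI q) k := by
  have := hq
  set ρ : MvPolynomial (Fin n) ℂ →ₐ[ℂ] MvPolynomial (Fin (n + 1)) ℂ := rename Fin.succ with hρ
  have hp : (q.comap ρ).IsPrime := Ideal.comap_isPrime ρ q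
  rw [dim_iff_trdeg hp] at h
  have hφ : ∀ f, Ideal.quotientMapₐ q ρ le_rfl (Ideal.Quotient.mk (q.comap ρ) f) =
      Ideal.Quotient.mk q (ρ f) := fun f => rfl
  have hi : Function.Injective (Ideal.quotientMapₐ q ρ le_rfl) := by
    refine (injective_iff_map_eq_zero _).2 fun a ha => ?_
    obtain ⟨f, rfl⟩ := Ideal.Quotient.mk_surjective a
    rw [hφ, Ideal.Quotient.eq_zero_iff_mem] at ha
    exact Ideal.Quotient.eq_zero_iff_mem.2 ha
  have hg : ∀ Z : MvPolynomial (Fin (n + 1)) ℂ ⧸ q → Prop,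
      (∀ s, Z (Ideal.quotientMapₐ q ρ le_rfl s)) → Z (Ideal.Quotient.mk q (X 0)) →
      (∀ a b, Z a → Z b → Z (a + b)) → (∀ a b, Z a → Z b → Z (a * b)) → ∀ a, Z a := by
    intro Z z1 z2 z3 z4 a
    obtain ⟨f, rfl⟩ := Ideal.Quotient.mk_surjective a
    induction f using MvPolynomial.induction_on with
    | C c =>
      have h3 := z1 (Ideal.Quotient.mk _ (C c))
      rwa [hφ, hρ, rename_C] at h3
    | add P Q hP hQ =>
      rw [map_add]
      exact z3 _ _ hP hQ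
    | mul_X P i hP =>
      rw [map_mul]
      refine z4 _ _ hP (Fin.cases z2 (fun j => ?_) i)
      have h3 := z1 (Ideal.Quotient.mk _ (X j))
      rwa [hφ, hρ, rename_X] at h3
  refine ⟨?_, fun m hm hm' => ?_⟩
  · rw [dim_iff_trdeg hq]
    refine (trdeg_le_XK1 _ hi _ hg).trans_lt ?_
    obtain ⟨j, hj⟩ := Cardinal.lt_aleph0.1 (h.trans (Cardinal.natCast_lt_aleph0))
    rw [hj] at h ⊢
    have h' : j < k := by exact_mod_cast h
    exact_mod_cast Nat.succ_lt_succ h'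
  · rw [dim_iff_trdeg hq, vint_trdeg _ hi (Ideal.Quotient.mk q (X 0))
      ((finSuccEquiv ℂ n m).map (Ideal.Quotient.mk (q.comap ρ))) ?_ ?_ hg]
    · exact h
    · intro h0
      refine hm' (velim_mem fun i => ?_)
      have h3 := congrArg (fun P => Polynomial.coeff (Polynomial.derivative P) i) h0
      simp only [Polynomial.derivative_map, Polynomial.coeff_map, Polynomial.derivative_zero,
        Polynomial.coeff_zero] at h3
      rw [velim_pderiv]
      have h4 := Ideal.Quotient.eq_zero_iff_mem.1 h3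
      exact h4
    · have h2 : (finSuccEquiv ℂ n m).eval₂ (ρ : MvPolynomial (Fin n) ℂ →+* _) (X 0) ∈ q := by
        refine null hq fun x hx => ?_
        rw [vint_eval₂, ← eval_eq_eval_mv_eval', Fin.cons_self_tail]
        exact hx m hm
      rw [Polynomial.eval₂_map, ← Ideal.Quotient.eq_zero_iff_mem.2 h2, Polynomial.hom_eval₂]
      rfl

/-- generically, some of the coordinates are local coordinates -/
theorem gchart (n : ℕ) : ∀ p : Ideal (MvPolynomial (Fin n) ℂ), p.IsPrime →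
    ∃ δ ∉ p, ∃ (e : ℕ) (ι : Fin e → Fin n), ¬ Dim (ZI p) e ∧ Dim (ZI p) (e + 1) ∧
      ∀ x ∈ ZI p, eval x δ ≠ 0 → Chart (ZI p) (fun i => X (ι i)) x := by
  induction n with
  | zero =>
    intro p hp
    have h1 : (1 : MvPolynomial (Fin 0) ℂ) ∉ p := (Ideal.ne_top_iff_one p).1 hp.ne_top
    refine ⟨1, h1, 0, id, fun h => h1 (null hp fun x hx => ?_), (dim_univ 0).mono (subset_univ _),
      fun x hx _ => ?_⟩
    · rw [dim_zero.1 h] at hx
      exact hx.elim
    · refine ⟨univ, univ, fun _ => x, isOpen_univ, isOpen_univ, trivial, continuousOn_const, ?_,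
        fun y _ => Subsingleton.elim _ _⟩
      ext y
      exact ⟨fun _ => ⟨x, trivial, Subsingleton.elim _ _⟩, fun ⟨_, _, e⟩ => ⟨e ▸ hx, trivial⟩⟩
  | succ n ih =>
    intro p hp
    have hq : (p.comap (rename (R := ℂ) (Fin.succ (n := n))).toRingHom).IsPrime :=
      Ideal.comap_isPrime _ p
    obtain ⟨δ, hδ, e, ι, he, he', hf⟩ := ih _ hq
    obtain ⟨d1, d2⟩ := dim_XK1 hp he'
    rcases elim hp with hc | ⟨δ', hδ', m, hm⟩
    · have hZ : ZI p = {y : Fin (n + 1) → ℂ |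
          Fin.tail y ∈ ZI (p.comap (rename (R := ℂ) (Fin.succ (n := n))).toRingHom)} :=
        Set.ext hc
      refine ⟨rename Fin.succ δ, fun h => hδ (Ideal.mem_comap.2 h), e + 1,
        Fin.cons 0 fun j => (ι j).succ, fun h => ?_, d1, fun x hx h0 => ?_⟩
      · rw [hZ] at h
        exact he (vsmooth_cyl h)
      · rw [vsmooth_eval_rename] at h0
        rw [hZ]
        exact (hf _ ((hc x).1 hx) h0).cyl_XK1
    · have hδ'' : rename Fin.succ δ' ∉ p := fun h => hδ' (Ideal.mem_comap.2 h)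
      refine ⟨rename Fin.succ (δ * δ'), fun h => ?_, e, fun i => (ι i).succ,
        fun h => he (vsmooth_root hp h), d2 m ?_ fun h => ?_, fun x hx h0 => ?_⟩
      · exact (hq.mem_or_mem (Ideal.mem_comap.2 h)).elim hδ hδ'
      · refine (hp.mem_or_mem (null hp (f := rename Fin.succ δ' * m) fun x hx => ?_)).resolve_left
          hδ''
        rw [map_mul, vsmooth_eval_rename]
        by_cases h0 : eval (Fin.tail x) δ' = 0
        · rw [h0, zero_mul]
        · rw [((hm x h0).1.1 hx).2, mul_zero]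
      · refine hδ'' (null hp fun x hx => ?_)
        rw [vsmooth_eval_rename]
        by_contra h0
        exact (hm x h0).2 hx (hx _ h)
      · rw [vsmooth_eval_rename, map_mul, mul_ne_zero_iff] at h0
        obtain ⟨h1, h2⟩ := hm x h0.2
        have h3 := (hf _ (h1.1 hx).1 h0.1).root_XK1 (h2 hx)
        have hc : Continuous fun y : Fin (n + 1) → ℂ => eval (Fin.tail y) δ' :=
          (MvPolynomial.continuous_eval δ').comp (tail_cont_XK1 n)
        have h4 : ∀ᶠ y in 𝓝 x, eval (Fin.tail y) δ' ≠ 0 :=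
          hc.continuousAt.eventually_ne h0.2
        exact h3.congr (h4.mono fun y hy => (hm y hy).1.symm)

end Pool.Agent.PWV
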