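import Pool.Agent.P.MP_65ad7c_ag.XK1
import Pool.Agent.P.MP_65ad7c_ag.VStratW

open Set Filter Topology MvPolynomial

noncomputable section
namespace Pool.Agent.PWV

variable {N d : ℕ}

/-- `F` is flat at `x` in a stratum of `Z` -/
def FlatIn (Z : ℕ → Set (Fin N → ℂ)) (F : Set (Fin N → ℂ)) (x : Fin N → ℂ) : Prop :=
  ∃ k, x ∈ Z k \ Z (k + 1) ∧ ∀ W ∈ 𝓝 x, ∃ (O : Set (Fin N → ℂ)) (e m : ℕ)
    (χ : (Fin e → ℂ) × (Fin m → ℂ) → Fin N → ℂ), IsOpen O ∧ x ∈ O ∧ O ⊆ W ∧ IsEmbedding χ ∧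
    range χ = Z k ∩ O ∧ O ∩ F ⊆ Z k ∧ ∀ u, χ u ∈ F ↔ u.2 = 0

theorem ne_XK2 {p : Ideal (MvPolynomial (Fin N) ℂ)} (hp : p.IsPrime) : ¬ ZI p ⊆ ∅ := fun h =>
  hp.ne_top ((Ideal.eq_top_iff_one p).2 (null hp fun _ hx => (h hx).elim))

theorem strat_XK2 {Z : ℕ → Set (Fin N → ℂ)} (h0 : Z (d + 1) = ∅)
    {p : Ideal (MvPolynomial (Fin N) ℂ)} (hp : p.IsPrime) :
    ∃ k, (ZI p ⊆ Z 0 → ZI p ⊆ Z k) ∧ ¬ ZI p ⊆ Z (k + 1) := by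
  classical
  have hex : ∃ k, ¬ ZI p ⊆ Z (k + 1) := ⟨d, h0 ▸ ne_XK2 hp⟩
  refine ⟨Nat.find hex, fun h => ?_, Nat.find_spec hex⟩
  rcases hk : Nat.find hex with _ | j
  · exact h
  · exact not_not.1 (Nat.find_min hex (show j < Nat.find hex by omega))

theorem prime_XK2 {Z : ℕ → Set (Fin N → ℂ)} (hZ : ∀ c, ZC (Z c)) (h0 : Z (d + 1) = ∅)
    (hch : ∀ c, ∃ 𝒢 : Set (Fin (d - c) → MvPolynomial (Fin N) ℂ), 𝒢.Finite ∧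
      ∀ x ∈ Z c \ Z (c + 1), ∃ G ∈ 𝒢, Chart (Z c) G x)
    {p : Ideal (MvPolynomial (Fin N) ℂ)} (hp : p.IsPrime) :
    ∃ δ ∉ p, ∀ (F : Set (Fin N → ℂ)) (e : ℕ), ZI p ⊆ F → F ⊆ Z 0 → ¬ Dim (ZI p) e →
      Dim (ZI p) (e + 1) → ∀ x ∈ ZI p, eval x δ ≠ 0 → (∀ᶠ y in 𝓝 x, y ∈ F → y ∈ ZI p) →
      (∃ ι : Fin e → Fin N, Chart F (fun i => X (ι i)) x) ∧ FlatIn Z F x := by
  obtain ⟨δ₁, a1, e₁, ι, a2, a3, a4⟩ := gchart N p hp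
  obtain ⟨k, b1, b2⟩ := strat_XK2 h0 hp
  obtain ⟨δ₂, c1, c2⟩ := vstrata_not_mem (hZ (k + 1)) b2
  obtain ⟨𝒢, g1, g2⟩ := hch k
  obtain ⟨δ₃, d1, d2⟩ := vsw_pair g1 hp
  refine ⟨δ₁ * δ₂ * δ₃, fun h => ?_, fun F e hF hs he he' x hx hδ hev => ?_⟩
  · rcases hp.mem_or_mem h with h | h
    · exact (hp.mem_or_mem h).elim a1 c1
    · exact d1 h
  rw [map_mul, map_mul] at hδ
  have k1 : eval x δ₁ ≠ 0 := left_ne_zero_of_mul (left_ne_zero_of_mul hδ)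
  have k2 : eval x δ₂ ≠ 0 := right_ne_zero_of_mul (left_ne_zero_of_mul hδ)
  have k3 : eval x δ₃ ≠ 0 := right_ne_zero_of_mul hδ
  have hiff : ∀ᶠ y in 𝓝 x, y ∈ F ↔ y ∈ ZI p := hev.mono fun y hy => ⟨hy, fun h => hF h⟩
  have hee : e₁ = e := by
    by_contra hne
    rcases Nat.lt_or_gt_of_ne hne with h | h
    · exact he (a3.mono_nat h)
    · exact a2 (he'.mono_nat h)
  subst hee
  have hk : ZI p ⊆ Z k := b1 (hF.trans hs)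
  have hxk : x ∈ Z k \ Z (k + 1) := ⟨hk hx, c2 x k2⟩
  refine ⟨⟨ι, (a4 x hx k1).congr (hiff.mono fun y hy => hy.symm)⟩, k, hxk, fun W hW => ?_⟩
  obtain ⟨G, hG, hc⟩ := g2 x hxk
  obtain ⟨e', -, H⟩ := d2 G hG
  obtain ⟨m, -, χ, O, q1, q2, q3, q4, q5, q6⟩ :=
    H x hx k3 (Z k) F hk hc hiff (W ∩ {y | y ∈ F → y ∈ ZI p}) (inter_mem hW hev)
  exact ⟨O, e', m, χ, q2, q3, fun y hy => (q4 hy).1, q1, q5,
    fun y hy => hk ((q4 hy.1).2 hy.2), q6⟩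

theorem filt_step {Z : ℕ → Set (Fin N → ℂ)} (hZ : ∀ c, ZC (Z c)) (h0 : Z (d + 1) = ∅)
    (hch : ∀ c, ∃ 𝒢 : Set (Fin (d - c) → MvPolynomial (Fin N) ℂ), 𝒢.Finite ∧
      ∀ x ∈ Z c \ Z (c + 1), ∃ G ∈ 𝒢, Chart (Z c) G x)
    {F : Set (Fin N → ℂ)} (hF : ZC F) (hs : F ⊆ Z 0) {e : ℕ} (hd : Dim F (e + 1)) :
    ∃ V, ZC V ∧ Dim V e ∧ ∀ x ∈ F \ V,
      (∃ ι : Fin e → Fin N, Chart F (fun i => X (ι i)) x) ∧ FlatIn Z F x := by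
  choose! δ h1 h2 using fun (p : Ideal (MvPolynomial (Fin N) ℂ)) (hp : p.IsPrime) =>
    prime_XK2 hZ h0 hch hp
  obtain ⟨V, g1, g2, g3⟩ := comp hF hd δ h1
  refine ⟨V, g1, g2, fun x hx => ?_⟩
  obtain ⟨p, k1, k2, k3, k4, k5, k6⟩ := g3 x hx
  exact h2 p k1 F e k2 hs k3 (hd.mono k2) x k4 k5 k6

theorem exists_filt {Z : ℕ → Set (Fin N → ℂ)} (hZ : ∀ c, ZC (Z c)) (ha : Antitone Z)
    (hd : ∀ c, Dim (Z c) (d + 1 - c))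
    (hch : ∀ c, ∃ 𝒢 : Set (Fin (d - c) → MvPolynomial (Fin N) ℂ), 𝒢.Finite ∧
      ∀ x ∈ Z c \ Z (c + 1), ∃ G ∈ 𝒢, Chart (Z c) G x)
    {F₁ : Set (Fin N → ℂ)} (h1 : ZC F₁) (h10 : F₁ ⊆ Z 0) (h11 : Z 1 ⊆ F₁) (hd1 : Dim F₁ d) :
    ∃ F : ℕ → Set (Fin N → ℂ), F 0 = Z 0 ∧ F 1 = F₁ ∧ Antitone F ∧ (∀ c, ZC (F c)) ∧
      (∀ c, Z c ⊆ F c) ∧ (∀ c, Dim (F c) (d + 1 - c)) ∧ ∀ c, 0 < c → ∀ x ∈ F c \ F (c + 1),
        (∃ ι : Fin (d - c) → Fin N, Chart (F c) (fun i => X (ι i)) x) ∧ FlatIn Z (F c) x := by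
  have h0 : Z (d + 1) = ∅ := dim_zero.1 (by simpa using hd (d + 1))
  have step : ∀ (c : ℕ) (A : Set (Fin N → ℂ)), ∃ B : Set (Fin N → ℂ),
      ZC A → A ⊆ Z 0 → Z (c + 1) ⊆ A → Dim A (d + 1 - (c + 1)) →
      ZC B ∧ B ⊆ A ∧ Z (c + 2) ⊆ B ∧ Dim B (d + 1 - (c + 2)) ∧ ∀ x ∈ A \ B,
        (∃ ι : Fin (d - (c + 1)) → Fin N, Chart A (fun i => X (ι i)) x) ∧ FlatIn Z A x := by
    intro c A
    by_cases hA : ZC A ∧ A ⊆ Z 0 ∧ Z (c + 1) ⊆ A ∧ Dim A (d + 1 - (c + 1))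
    swap
    · exact ⟨∅, fun a1 a2 a3 a4 => absurd ⟨a1, a2, a3, a4⟩ hA⟩
    obtain ⟨a1, a2, a3, a4⟩ := hA
    have hz : Z (c + 2) ⊆ A := (ha (show c + 1 ≤ c + 2 by omega)).trans a3
    by_cases hc : c + 1 ≤ d
    · obtain ⟨V, v1, v2, v3⟩ := filt_step hZ h0 hch a1 a2 (e := d - (c + 1))
        (a4.mono_nat (by omega))
      refine ⟨(V ∩ A) ∪ Z (c + 2), fun _ _ _ _ => ⟨(v1.inter a1).union (hZ _),
        union_subset inter_subset_right hz, subset_union_right,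
        Dim.union ((v2.mono inter_subset_left).mono_nat (by omega)) (hd _), fun x hx => ?_⟩⟩
      exact v3 x ⟨hx.1, fun h => hx.2 (Or.inl ⟨h, hx.1⟩)⟩
    · refine ⟨A, fun _ _ _ _ => ⟨a1, Subset.rfl, hz, a4.mono_nat (by omega),
        fun x hx => absurd hx.1 hx.2⟩⟩
  choose B hB using step
  let G : ℕ → Set (Fin N → ℂ) := fun c => Nat.rec F₁ B c
  have hG0 : G 0 = F₁ := rfl
  have hGs : ∀ c, G (c + 1) = B c (G c) := fun c => rfl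
  have inv : ∀ c, ZC (G c) ∧ G c ⊆ Z 0 ∧ Z (c + 1) ⊆ G c ∧ Dim (G c) (d + 1 - (c + 1)) := by
    intro c
    induction c with
    | zero => exact ⟨h1, h10, h11, hd1.mono_nat (by omega)⟩
    | succ c ih =>
      obtain ⟨b1, b2, b3, b4, -⟩ := hB c (G c) ih.1 ih.2.1 ih.2.2.1 ih.2.2.2
      exact ⟨b1, b2.trans ih.2.1, b3, b4⟩
  have hst := fun c => hB c (G c) (inv c).1 (inv c).2.1 (inv c).2.2.1 (inv c).2.2.2
  refine ⟨fun c => Nat.casesOn c (Z 0) G, rfl, rfl, antitone_nat_of_succ_le fun c => ?_,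
    fun c => ?_, fun c => ?_, fun c => ?_, fun c hc => ?_⟩
  · cases c with
    | zero => exact h10
    | succ c => exact (hst c).2.1
  · cases c with
    | zero => exact hZ 0
    | succ c => exact (inv c).1
  · cases c with
    | zero => exact Subset.rfl
    | succ c => exact (inv c).2.2.1
  · cases c with
    | zero => exact hd 0
    | succ c => exact (inv c).2.2.2
  · cases c with
    | zero => exact absurd hc (lt_irrefl 0)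
    | succ c => exact (hst c).2.2.2.2

end Pool.Agent.PWV
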