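import Pool.Agent.P.MP_65ad7c_ag.XK2
import Pool.Agent.P.MP_65ad7c_ag.XJ0
import Pool.Agent.P.MP_65ad7c_ag.XK0

open Set Filter Topology TopologicalSpace MvPolynomial
open Pool.Agent.PWD

noncomputable section
namespace Pool.Agent.PWV

variable {R : Type} [CommRing R] [Algebra ℂ R] {Y : Set (R → ℂ)} {N d : ℕ} {f : Fin N → R}
  {U : ℕ → Opens Y}

theorem mem_img_XK3 (hY : IsVar Y) (hf : Algebra.adjoin ℂ (range f) = ⊤) {W : Opens Y} {y : Y} :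
    emb f y ∈ emb f '' (W : Set Y)ᶜ ↔ y ∉ W :=
  (show Function.Injective (emb (Y := Y) f) from (hY.closedEmb hf).injective).mem_set_image

theorem flt_XK3 (hY : IsVar Y) (hf : Algebra.adjoin ℂ (range f) = ⊤) {F : Set (Fin N → ℂ)}
    {V : Opens Y} (hV : ∀ y, y ∉ V ↔ emb f y ∈ F) {x : Y}
    (h : FlatIn (fun c => emb f '' (U c : Set Y)ᶜ) F (emb f x)) :
    ∃ k, x ∈ (U (k + 1) \ U k : Set Y) ∧
      ∀ W : Set Y, IsOpen W → x ∈ W → ∃ (O : Set Y) (e m : ℕ)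
        (χ : (Fin e → ℂ) × (Fin m → ℂ) → Y), IsOpen O ∧ x ∈ O ∧ O ⊆ W ∧ IsEmbedding χ ∧
        range χ = O \ U k ∧ O ∩ U k ⊆ V ∧ ∀ u, χ u ∉ V ↔ u.2 = 0 := by
  have he : IsClosedEmbedding (emb (Y := Y) f) := hY.closedEmb hf
  obtain ⟨k, ⟨h1, h2⟩, h3⟩ := h
  refine ⟨k, ⟨not_not.1 fun h => h2 ((mem_img_XK3 hY hf).2 h), (mem_img_XK3 hY hf).1 h1⟩,
    fun W hW hx => ?_⟩
  obtain ⟨W₁, hW₁, rfl⟩ := he.isInducing.isOpen_iff.1 hW
  obtain ⟨O, e, m, χ, a1, a2, a3, a4, a5, a6, a7⟩ := h3 W₁ (hW₁.mem_nhds hx)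
  have hm : ∀ u, χ u ∈ emb f '' (U k : Set Y)ᶜ ∩ O := fun u => a5 ▸ mem_range_self u
  choose χ' b1 b2 using fun u => (hm u).1
  refine ⟨emb f ⁻¹' O, e, m, χ', a1.preimage (emb f).continuous, a2, preimage_mono a3,
    he.isEmbedding.of_comp_iff.1 (by rwa [show emb f ∘ χ' = χ from funext b2]),
    Set.ext fun y => ⟨?_, fun hy => ?_⟩, fun y hy => ?_, fun u => by rw [hV, b2, a7]⟩
  · rintro ⟨u, rfl⟩
    exact ⟨by rw [mem_preimage, b2]; exact (hm u).2, b1 u⟩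
  · obtain ⟨u, hu⟩ : emb f y ∈ range χ := a5 ▸ ⟨⟨y, hy.2, rfl⟩, hy.1⟩
    exact ⟨u, he.injective ((b2 u).trans hu)⟩
  · exact not_not.1 fun h => (mem_img_XK3 hY hf).1 (a6 ⟨hy.1, (hV y).1 h⟩) hy.2

/-- refine a stratification -/
theorem exists_refine (hY : IsVar Y) (hf : Algebra.adjoin ℂ (range f) = ⊤) (hU : IsStrat d U)
    {h : MvPolynomial (Fin N) ℂ} (h0 : ∀ y : Y, y ∉ U 1 → eval (emb f y) h = 0)
    (hd : Dim (range (emb (Y := Y) f) ∩ {x | eval x h = 0}) d) :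
    ∃ U' : ℕ → Opens Y, IsStrat d U' ∧ (∀ c, U' c ≤ U c) ∧
      (∀ y, y ∈ U' 1 ↔ eval (emb f y) h ≠ 0) ∧ Flt U U' := by
  classical
  have hz : ∀ y : Y, y ∉ U 0 := fun y hy => by
    rw [hU.zero] at hy
    exact hy
  obtain ⟨F, e0, e1, ha, hF, hZF, hD, hch⟩ := exists_filt (d := d)
    (Z := fun c => emb f '' (U c : Set Y)ᶜ) (fun c => zc_image hY hf (hU.alg c))
    (fun a b hab => image_mono (compl_subset_compl.2 (hU.mono hab)))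
    (fun c => dim_image hY (hU.dim c))
    (fun c => by
      obtain ⟨𝒢, h1, h2⟩ := strat_chart hY hf hU (c := c) rfl
      refine ⟨𝒢, h1, ?_⟩
      rintro _ ⟨⟨y, hy, rfl⟩, h3⟩
      exact h2 y ⟨not_not.1 fun h => h3 ⟨y, h, rfl⟩, hy⟩)
    (F₁ := range (emb (Y := Y) f) ∩ {x | eval x h = 0})
    ((zc_range hY hf).inter ⟨{h}, by simp⟩)
    (by
      rintro _ ⟨⟨y, rfl⟩, -⟩
      exact ⟨y, hz y, rfl⟩)
    (by
      rintro _ ⟨y, hy, rfl⟩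
      exact ⟨⟨y, rfl⟩, h0 y hy⟩) hd
  let U' : ℕ → Opens Y := fun c =>
    ⟨(emb f ⁻¹' F c)ᶜ, ((hF c).isClosed.preimage (emb f).continuous).isOpen_compl⟩
  have hm : ∀ c y, y ∉ U' c ↔ emb f y ∈ F c := fun c y => not_not
  have hle : ∀ c, U' c ≤ U c := fun c y hy => not_not.1 fun h => hy (hZF c ⟨y, h, rfl⟩)
  have hr : ∀ c, F c ⊆ range (emb (Y := Y) f) := fun c =>
    (ha (Nat.zero_le c)).trans (e0.le.trans (image_subset_range _ _))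
  have hx' : ∀ c, ∀ x ∈ (U' (c + 1) \ U' c : Set Y), emb f x ∈ F c \ F (c + 1) := fun c x hx =>
    ⟨(hm c x).1 hx.2, hx.1⟩
  refine ⟨U', ⟨?_, fun a b hab y hy h => hy (ha hab h), fun c => ?_, fun c => ?_, fun c => ?_⟩,
    hle, fun y => ?_, fun c hc x hx => flt_XK3 hY hf (hm c) (hch c hc _ (hx' c x hx)).2⟩
  · exact le_bot_iff.1 (hU.zero ▸ hle 0)
  · obtain ⟨S, hS⟩ := hF c
    refine ⟨aeval f '' S, fun y => ?_⟩
    rw [hm, hS, forall_mem_image]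
    simp only [emb_aeval hY, mem_ofPred_eq]
  · refine dimLT_of_dim hY hf ((hD c).mono ?_)
    rintro _ ⟨y, hy, rfl⟩
    exact (hm c y).1 hy
  · rcases Nat.eq_zero_or_pos c with rfl | hc
    · obtain ⟨T, hT⟩ := hU.chart 0
      refine ⟨T, fun x hx => ?_⟩
      obtain ⟨g, W, h1, h2, h3⟩ := hT x ⟨hle _ hx.1, hz x⟩
      have hs : (W : Set Y) ∩ ((U' (0 + 1) : Set Y) \ U' 0) ⊆
          (W : Set Y) ∩ ((U (0 + 1) : Set Y) \ U 0) := fun y hy => ⟨hy.1, hle _ hy.2.1, hz y⟩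
      refine ⟨g, W, h1, h2, h3.comp (IsOpenEmbedding.inclusion hs ?_)⟩
      have e : (Subtype.val ⁻¹' ((W : Set Y) ∩ ((U' (0 + 1) : Set Y) \ U' 0)) :
          Set ↥((W : Set Y) ∩ ((U (0 + 1) : Set Y) \ U 0))) = Subtype.val ⁻¹' (U' (0 + 1)) :=
        Set.ext fun y => ⟨fun hy => hy.2.1, fun hy => ⟨y.2.1, hy, fun h => hz _ (hle 0 h)⟩⟩
      rw [e]
      exact (U' _).2.preimage continuous_subtype_val
    · refine ⟨Finset.univ.image f, fun x hx => ?_⟩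
      obtain ⟨ι, hι⟩ := (hch c hc _ (hx' c x hx)).1
      obtain ⟨W, h1, h2⟩ := emb_of_chart hY hf (hr c) (O := U' (c + 1)) hx.1 hι
      exact ⟨fun i => f (ι i), W, fun i => Finset.mem_image_of_mem f (Finset.mem_univ _), h1, h2⟩
  · rw [← not_iff_not, hm, e1, not_not]
    exact ⟨fun h => h.2, fun h => ⟨⟨y, rfl⟩, h⟩⟩

end Pool.Agent.PWV
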