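import Pool.Agent.P.MP_65ad7c_ag.DTF

open Set Filter Topology

noncomputable section
namespace Pool.Agent.PWD.TI

variable {T : Type} [TopologicalSpace T] {V : Type} [AddCommGroup V]

theorem box_XK4 {N m : ℕ} {Q : FC (Fin N → ℝ) V} {y : Fin N → ℝ} (hy : y ∈ dtc_K 0 0 m) {a : V}
    (h1 : a ∈ Q.van (dtc_K 0 0 m)ᶜ) (h2 : a ∈ Q.z y) :
    ∃ A, dtc_G m A ∧ y ∈ A ∧ a ∈ Q.van (dtc_K 0 0 m ∩ Aᶜ)ᶜ := by
  obtain ⟨r, hr, h3⟩ := Metric.isOpen_iff.1 (Q.opn a) y h2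
  refine ⟨{x | ∀ i : Fin N, m ≤ i.val → x i ∈ Metric.ball (y i) r}, ⟨?_, ?_, ?_, ?_⟩, ?_, ?_⟩
  · simp only [ofPred_forall]
    exact isOpen_iInter_of_finite fun i => isOpen_iInter_of_finite fun _ =>
      Metric.isOpen_ball.preimage (continuous_apply i)
  · intro x hx x' hx' s t hs ht hst i hi
    exact convex_ball (y i) r (hx i hi) (hx' i hi) hs ht hst
  · exact ⟨y, fun i _ => Metric.mem_ball_self hr⟩
  · intro x hx x' e i hi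
    rw [e i hi]
    exact hx i hi
  · exact fun i _ => Metric.mem_ball_self hr
  · refine FC.mem_van.2 fun x hx => ?_
    by_cases hK : x ∈ dtc_K 0 0 m
    · refine h3 ((dist_pi_lt_iff hr).2 fun i => ?_)
      rcases lt_or_ge i.val m with hi | hi
      · have e1 : x i = 0 := by simpa using hK i hi
        have e2 : y i = 0 := by simpa using hy i hi
        rw [e1, e2, dist_self]
        exact hr
      · exact (not_not.1 fun hh => hx ⟨hK, hh⟩ :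
          x ∈ {x : Fin N → ℝ | ∀ i : Fin N, m ≤ i.val → x i ∈ Metric.ball (y i) r}) i hi
    · exact FC.mem_van.1 h1 x hK

/-- cohomology with supports in a linear subspace is constant along it -/
theorem FC.LC.flat {N m : ℕ} {Q : FC (Fin N → ℝ) V} {n₀ e : ℤ} {B : ℤ → AddSubgroup V}
    (h : Q.LC n₀ B) (he : ∀ n < e, B n = ⊥) (hn : e + N ≤ n₀) (hm : m ≤ N) {n : ℤ}
    (hn' : n + 1 < n₀) {y : Fin N → ℝ} (hy : y ∈ dtc_K 0 0 m) :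
    (∀ a ∈ Q.G n, a ∈ Q.van (dtc_K 0 0 m)ᶜ → Q.d a ∈ Q.z y →
      ∃ b ∈ Q.G n, b ∈ Q.van (dtc_K 0 0 m)ᶜ ∧ Q.d b ∈ Q.van univ ∧ b - a ∈ Q.z y) ∧
    ∀ b ∈ Q.G n, b ∈ Q.van (dtc_K 0 0 m)ᶜ → Q.d b ∈ Q.van univ →
      ∀ c ∈ Q.G (n - 1), c ∈ Q.van (dtc_K 0 0 m)ᶜ → b - Q.d c ∈ Q.z y →
      ∃ c' ∈ Q.G (n - 1), c' ∈ Q.van (dtc_K 0 0 m)ᶜ ∧ b - Q.d c' ∈ Q.van univ := by
  have hz := (dtc_ind h he hn 0 le_rfl m hm).2
  refine ⟨fun a ha h1 h2 => ?_, fun b hb h1 h2 c hc h3 h4 => ?_⟩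
  · obtain ⟨A, hA, hyA, h3⟩ := box_XK4 hy (FC.d_van h1) h2
    obtain ⟨c, hc, c1, c2⟩ := hz A hA (n + 1) hn' (Q.d a) (Q.dG n a ha) h3 (by
      rw [Q.dd]
      exact zero_mem _)
    rw [add_sub_cancel_right] at hc
    refine ⟨a - c, sub_mem ha hc, sub_mem h1 (FC.van_anti (compl_subset_compl.2 inter_subset_left) c1),
      by rw [map_sub]; exact c2, ?_⟩
    rw [sub_sub_cancel_left]
    exact neg_mem (FC.mem_van.1 c1 y fun hh => hh.2 hyA)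
  · obtain ⟨A, hA, hyA, h5⟩ := box_XK4 hy (sub_mem h1 (FC.d_van h3)) h4
    obtain ⟨c', hc', c1, c2⟩ := hz A hA n (by omega) (b - Q.d c) (sub_mem hb (FC.dG' hc)) h5 (by
      rw [map_sub, Q.dd, sub_zero]
      exact h2)
    refine ⟨c + c', add_mem hc hc',
      add_mem h3 (FC.van_anti (compl_subset_compl.2 inter_subset_left) c1), ?_⟩
    rw [map_add, ← sub_sub]
    exact c2

/-- real coordinates, the normal ones first -/
theorem exists_real_coords (e m : ℕ) :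
    ∃ θ : (Fin (2 * m + 2 * e) → ℝ) ≃ₜ (Fin e → ℂ) × (Fin m → ℂ),
      ∀ t, t ∈ dtc_K 0 0 (2 * m) ↔ (θ t).2 = 0 := by
  have L : ∀ k : ℕ, Nonempty ((Fin (2 * k) → ℝ) ≃L[ℝ] (Fin k → ℂ)) := fun k =>
    ⟨ContinuousLinearEquiv.ofFinrankEq (by
      rw [Module.finrank_pi_fintype, Module.finrank_pi_fintype]
      simp [mul_comm])⟩
  obtain ⟨Lm⟩ := L m
  obtain ⟨Le⟩ := L e
  refine ⟨((Fin.appendHomeomorph (X := ℝ) (2 * m) (2 * e)).symm.trans (Homeomorph.prodComm _ _)).trans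
    (Le.toHomeomorph.prodCongr Lm.toHomeomorph), fun t => ?_⟩
  show _ ↔ Lm (fun i => t (Fin.castAdd (2 * e) i)) = 0
  rw [Lm.map_eq_zero_iff]
  constructor
  · intro ht
    funext i
    simpa using ht (Fin.castAdd (2 * e) i) i.2
  · intro ht i hi
    have : t i = 0 := congrFun ht ⟨i.val, hi⟩
    simp [this]

/-- costalks along a flat subset of a stratum -/
theorem SAX.flat {Q : FC T V} {d : ℕ} {U : ℕ → Set T} (h : SAX Q d U) {k : ℕ} {x : T}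
    (hx : x ∈ U (k + 1) \ U k) (n : ℤ) : ∃ W, IsOpen W ∧ x ∈ W ∧
    ∀ (O A : Set T) (e m : ℕ) (χ : (Fin e → ℂ) × (Fin m → ℂ) → T), IsOpen O → IsOpen A → O ⊆ W →
      IsEmbedding χ → range χ = O \ U k → O ∩ U k ⊆ A → (∀ u, χ u ∉ A ↔ u.2 = 0) → ∀ y ∈ O \ A,
      (∀ a ∈ Q.G n, a ∈ Q.van (O ∩ A) → Q.d a ∈ Q.z y →
        ∃ b ∈ Q.G n, b ∈ Q.van (O ∩ A) ∧ Q.d b ∈ Q.van O ∧ b - a ∈ Q.z y) ∧
      ∀ b ∈ Q.G n, b ∈ Q.van (O ∩ A) → Q.d b ∈ Q.van O →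
        ∀ c ∈ Q.G (n - 1), c ∈ Q.van (O ∩ A) → b - Q.d c ∈ Q.z y →
        ∃ c' ∈ Q.G (n - 1), c' ∈ Q.van (O ∩ A) ∧ b - Q.d c' ∈ Q.van O := by
  choose W' B hW' hxW' hB hS using h.lc k x hx
  refine ⟨U (k + 1) ∩ ⋂ j ∈ Finset.Ico 0 (n + 2), W' j,
    (h.opn _).inter (isOpen_biInter_finset fun j _ => hW' j),
    ⟨hx.1, mem_iInter₂.2 fun j _ => hxW' j⟩, fun O A e m χ hO _ hs hχ hr hUA hχA y hy => ?_⟩
  obtain ⟨θ, hθ⟩ := exists_real_coords e m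
  have hψ : IsEmbedding (χ ∘ θ) := hχ.comp θ.isEmbedding
  have h0 : ∀ t, (χ ∘ θ) t ∈ O \ U k := fun t => hr.le (mem_range_self (θ t))
  have h0' : ∀ t, (χ ∘ θ) t ∈ U (k + 1) \ U k := fun t => ⟨(hs (h0 t).1).1, (h0 t).2⟩
  have h2 : ∀ y ∈ O, y ∉ U k → y ∈ range (χ ∘ θ) := fun y hy hy' => by
    obtain ⟨u, rfl⟩ : y ∈ range χ := hr.ge ⟨hy, hy'⟩
    exact ⟨θ.symm u, by simp⟩
  have hK : ∀ t, t ∈ dtc_K 0 0 (2 * m) ↔ (χ ∘ θ) t ∉ A := fun t => (hθ t).trans (hχA _).symm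
  generalize χ ∘ θ = ψ at hψ h0 h0' h2 hK
  have h3 : ∀ j, 0 ≤ j → j < n + 2 → ∀ t, ψ t ∈ W' j := fun j h1 h2 t =>
    mem_iInter₂.1 (hs (h0 t).1).2 j (Finset.mem_Ico.2 ⟨h1, h2⟩)
  have hL : (dtfPull Q hψ.isInducing (h.opn k) hO (fun t => (h0 t).1) h2).LC
      (n + 2) fun j => if 0 ≤ j then B j else ⊥ := by
    refine ⟨fun j _ b hb => ?_, fun j hn b hb => ?_, fun j hn t a ha hd => ?_,
      fun j hn t b hb e he hd => ?_⟩
    · split_ifs at hb with h1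
      · exact ⟨(hB j b hb).1, (hB j b hb).2.1⟩
      · rw [AddSubgroup.mem_bot.1 hb]
        exact zero_mem _
    · split_ifs at hb with h1
      · exact FC.mem_van.2 fun t _ => FC.mem_van.1 (hB j b hb).2.2 _ (h3 j h1 hn t)
      · rw [AddSubgroup.mem_bot.1 hb, map_zero]
        exact zero_mem _
    · split_ifs with h1
      · obtain ⟨b, hb, e, he, he', h4⟩ := (hS j (ψ t) ⟨h3 j h1 hn t, h0' t⟩).1 a ha.1 ha.2 hd
        exact ⟨b, hb, e, ⟨he, he'⟩, h4⟩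
      · refine ⟨0, zero_mem _, 0, zero_mem _, ?_⟩
        rw [Q.neg j (not_le.1 h1) a ha.1, map_zero, sub_zero, sub_zero]
        exact zero_mem _
    · split_ifs at hb with h1
      · exact FC.mem_van.2 fun s _ => FC.mem_van.1
          ((hS j (ψ t) ⟨h3 j h1 hn t, h0' t⟩).2 b hb e he.1 he.2 hd) _ (h3 j h1 hn s)
      · rw [AddSubgroup.mem_bot.1 hb]
        exact zero_mem _
  obtain ⟨t₀, rfl⟩ := h2 y hy.1 fun hh => hy.2 (hUA ⟨hy.1, hh⟩)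
  obtain ⟨F1, F2⟩ := hL.flat (e := min 0 (n + 2 - (2 * m + 2 * e : ℕ))) (m := 2 * m) (n := n)
    (fun j hj => if_neg (by omega)) (by omega) (by omega) (by omega) ((hK t₀).2 hy.2)
  have cut : ∀ j, ∀ a ∈ Q.G j, a ∈ Q.van (O ∩ A) → ∃ a' ∈ Q.G j ⊓ Q.van (U k),
      a' - a ∈ Q.van O ∧ ∀ t ∈ (dtc_K 0 0 (2 * m))ᶜ, a' ∈ Q.z (ψ t) := fun j a ha h4 => by
    obtain ⟨a', ha', h5, h6⟩ := FC.cut hO (h.opn k) ha
      (FC.van_anti (subset_inter inter_subset_left hUA) h4)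
    refine ⟨a', ⟨ha', h6⟩, h5, fun t ht => ?_⟩
    have := add_mem (FC.mem_van.1 h5 _ (h0 t).1)
      (FC.mem_van.1 h4 _ ⟨(h0 t).1, not_not.1 fun hh => ht ((hK t).2 hh)⟩)
    rwa [sub_add_cancel] at this
  have back : ∀ a ∈ Q.van (U k), (∀ t ∈ (dtc_K 0 0 (2 * m))ᶜ, a ∈ Q.z (ψ t)) →
      a ∈ Q.van (O ∩ A) := fun a h4 h5 => FC.mem_van.2 fun p hp => by
    by_cases hp' : p ∈ U k
    · exact FC.mem_van.1 h4 p hp'
    · obtain ⟨t, rfl⟩ := h2 p hp.1 hp'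
      exact h5 t fun hh => (hK t).1 hh hp.2
  have back' : ∀ a ∈ Q.van (U k), (∀ t ∈ (univ : Set (Fin (2 * m + 2 * e) → ℝ)), a ∈ Q.z (ψ t)) →
      a ∈ Q.van O := fun a h4 h5 => FC.mem_van.2 fun p hp => by
    by_cases hp' : p ∈ U k
    · exact FC.mem_van.1 h4 p hp'
    · obtain ⟨t, rfl⟩ := h2 p hp hp'
      exact h5 t (mem_univ t)
  refine ⟨fun a ha h4 hd => ?_, fun b hb h4 hd c hc h5 h6 => ?_⟩
  · obtain ⟨a', ha', a1, a2⟩ := cut n a ha h4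
    have a3 : a' - a ∈ Q.z (ψ t₀) := FC.mem_van.1 a1 _ hy.1
    obtain ⟨b, hb, b1, b2, b3⟩ := F1 a' ha' (FC.mem_van.2 a2) (by
      have := add_mem (Q.dz _ _ a3) hd
      rw [map_sub, sub_add_cancel] at this
      exact this)
    refine ⟨b, hb.1, back b hb.2 (FC.mem_van.1 b1), back' _ (FC.d_van hb.2) (FC.mem_van.1 b2), ?_⟩
    have := add_mem (show b - a' ∈ Q.z (ψ t₀) from b3) a3
    rwa [sub_add_sub_cancel] at this
  · obtain ⟨b', hb', b1, b2⟩ := cut n b hb h4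
    obtain ⟨c', hc', c1, c2⟩ := cut (n - 1) c hc h5
    obtain ⟨c'', hc'', e1, e2⟩ := F2 b' hb' (FC.mem_van.2 b2) (FC.mem_van.2 fun t _ => by
      have := add_mem (Q.dz _ _ (FC.mem_van.1 b1 _ (h0 t).1)) (FC.mem_van.1 hd _ (h0 t).1)
      rw [map_sub, sub_add_cancel] at this
      exact this) c' hc' (FC.mem_van.2 c2) (by
      have := sub_mem (add_mem h6 (FC.mem_van.1 b1 _ hy.1)) (Q.dz _ _ (FC.mem_van.1 c1 _ hy.1))
      have e : b - Q.d c + (b' - b) - Q.d (c' - c) = b' - Q.d c' := by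
        rw [map_sub]
        abel
      rw [e] at this
      exact this)
    refine ⟨c'', hc''.1, back _ hc''.2 (FC.mem_van.1 e1), ?_⟩
    have := sub_mem (back' (b' - Q.d c'') (sub_mem hb'.2 (FC.d_van hc''.2)) (FC.mem_van.1 e2)) b1
    have e : b' - Q.d c'' - (b' - b) = b - Q.d c'' := by abel
    rwa [e] at this

end Pool.Agent.PWD.TI
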