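import Pool.Agent.P.MP_65ad7c_ag.XK4
import Pool.Agent.P.MP_65ad7c_ag.XK0
import Pool.Agent.P.MP_65ad7c_ag.DTI
import Pool.Agent.P.MP_65ad7c_ag.DYT

open Set Filter Topology TopologicalSpace

set_option backward.isDefEq.respectTransparency false

noncomputable section
namespace Pool.Agent.PWD

section top
variable {Y : Type} [TopologicalSpace Y] {I : Cx Y} {C S : Set Y} {n : ℕ}

theorem cob_iff_XK5 {W : Opens Y} {y : Y} {s : Sec I n W} :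
    Cob C y s ↔ ∃ (W' : Opens Y) (h : W' ≤ W), y ∈ W' ∧ SY.Bd C (rs h s) :=
  ⟨fun ⟨W', h, k, t, hy, ht, e⟩ => ⟨W', h, hy, k, t, ht, e⟩,
    fun ⟨W', h, hy, k, t, ht, e⟩ => ⟨W', h, k, t, hy, ht, e⟩⟩

theorem cob_of_rs_XK5 {W W' : Opens Y} {y : Y} {s : Sec I n W} (h : W' ≤ W)
    (hs : Cob C y (rs h s)) : Cob C y s := by
  obtain ⟨V, hV, hy, e⟩ := cob_iff_XK5.1 hs
  rw [vf_rs_rs] at e
  exact cob_iff_XK5.2 ⟨V, hV.trans h, hy, e⟩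

theorem cob_add_XK5 {W : Opens Y} {y : Y} {s s' : Sec I n W} (hs : Cob C y s)
    (hs' : SY.Bd C s') : Cob C y (s + s') := by
  obtain ⟨V, hV, hy, e⟩ := cob_iff_XK5.1 hs
  exact cob_iff_XK5.2 ⟨V, hV, hy, by rw [map_add]; exact e.add (hs'.res hV)⟩

theorem coc_rs_XK5 {W W' : Opens Y} {s : Sec I n W} (hs : Coc C s) (h : W' ≤ W) :
    Coc C (rs h s) :=
  ⟨SY.supp_rs hs.1 h, by rw [← vf_rs_dd, hs.2, map_zero]⟩

theorem supp_smul_XK5 {W : Opens Y} {s : Sec I n W} (a : ℂ) (h : Supp C s) : Supp C (a • s) := by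
  intro y hy hC
  obtain ⟨A, hA, yA, eA⟩ := h y hy hC
  exact ⟨A, hA, yA, by rw [map_smul, eA, smul_zero]⟩

/-- coboundaries with supports -/
def bdS_XK5 (I : Cx Y) (C : Set Y) (n : ℕ) (W : Opens Y) : Submodule ℂ (Sec I n W) where
  carrier := {s | SY.Bd C s}
  add_mem' h h' := SY.Bd.add h h'
  zero_mem' := SY.bd_zero C
  smul_mem' a _ := fun ⟨k, t, ht, e⟩ => ⟨k, a • t, supp_smul_XK5 a ht, by rw [map_smul, e]⟩

/-- cocycles with supports -/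
def cocS_XK5 (I : Cx Y) (C : Set Y) (n : ℕ) (W : Opens Y) : Submodule ℂ (Sec I n W) where
  carrier := {s | Coc C s}
  add_mem' h h' := ⟨SY.supp_add h.1 h'.1, by rw [map_add, h.2, h'.2, add_zero]⟩
  zero_mem' := ⟨SY.supp_zero C, map_zero _⟩
  smul_mem' a _ h := ⟨supp_smul_XK5 a h.1, by rw [map_smul, h.2, smul_zero]⟩

theorem LC.of_loc (h : ∀ x ∈ S, ∃ (O : Opens Y) (S' : Set Y), x ∈ O ∧ LC I C S' n ∧
    (O : Set Y) ∩ S ⊆ S') : LC I C S n := by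
  intro x hx
  obtain ⟨O, S', hO, hL, hS⟩ := h x hx
  obtain ⟨W, B, hW, hB, H⟩ := hL x (hS ⟨hO, hx⟩)
  refine ⟨W ⊓ O, B.map (rs inf_le_left), ⟨hW, hO⟩, ?_, fun y hy hyW => ⟨?_, ?_⟩⟩
  · rintro _ ⟨b, hb, rfl⟩
    exact coc_rs_XK5 (hB b hb) _
  · rintro _ ⟨b, hb, rfl⟩ hc
    rw [(H y (hS ⟨hyW.2, hy⟩) hyW.1).1 b hb (cob_of_rs_XK5 _ hc), map_zero]
  · intro W' hW' s hy' hs
    obtain ⟨b, hb, e⟩ := (H y (hS ⟨hyW.2, hy⟩) hyW.1).2 W' (hW'.trans inf_le_left) s hy' hs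
    exact ⟨_, ⟨b, hb, rfl⟩, by rwa [vf_rs_rs]⟩

theorem lc_of_sur_inj (h : ∀ x ∈ S, ∃ O : Opens Y, x ∈ O ∧ ∀ y ∈ S, y ∈ O →
    (∀ s : Sec I n O, Coc C s → Cob C y s → SY.Bd C s) ∧
    ∀ (W : Opens Y) (hW : W ≤ O) (s : Sec I n W), y ∈ W → Coc C s →
      ∃ b : Sec I n O, Coc C b ∧ Cob C y (s - rs hW b)) : LC I C S n := by
  intro x hx
  obtain ⟨O, hO, H⟩ := h x hx
  obtain ⟨N, hN⟩ := (bdS_XK5 I C n O).exists_isCompl
  refine ⟨O, N ⊓ cocS_XK5 I C n O, hO, fun b hb => hb.2, fun y hy hyO => ⟨fun b hb hc => ?_, ?_⟩⟩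
  · exact (Submodule.mem_bot ℂ).1 (hN.inf_eq_bot ▸ (⟨(H y hy hyO).1 b hb.2 hc, hb.1⟩ :
      b ∈ bdS_XK5 I C n O ⊓ N))
  · intro W hW s hyW hs
    obtain ⟨b, hb, e⟩ := (H y hy hyO).2 W hW s hyW hs
    obtain ⟨u, hu, v, hv, rfl⟩ := Submodule.mem_sup.1 (hN.sup_eq_top ▸ Submodule.mem_top :
      b ∈ bdS_XK5 I C n O ⊔ N)
    have hu' : SY.Bd C u := hu
    refine ⟨v, ⟨hv, ?_⟩, ?_⟩
    · have := (cocS_XK5 I C n O).sub_mem hb (show u ∈ cocS_XK5 I C n O from ⟨hu'.supp, hu'.closed⟩)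
      rwa [add_sub_cancel_left] at this
    · have := cob_add_XK5 e (hu'.res hW)
      rwa [map_add, add_comm (rs hW u), ← sub_sub, sub_add_cancel] at this

end top

variable {R : Type} {Y : Set (R → ℂ)} {d : ℕ} {U U' : ℕ → Opens Y} {I : Cx Y}
  {one : Sec I 0 (U 1)}

theorem lc_flt (hU : IsStrat d U) (hI : IsIC U I one) (hF : Flt U U') {c : ℕ} (hc : 0 < c)
    (n : ℕ) : LC I (U' c : Set Y)ᶜ (U' (c + 1) \ U' c) n := by
  have hs := ti_sx hU hI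
  refine lc_of_sur_inj fun x hx => ?_
  obtain ⟨k, hk, H⟩ := hF c hc x hx
  obtain ⟨W₀, h₀, hx₀, H₀⟩ := hs.toSAX.flat hk (n : ℤ)
  obtain ⟨O₀, e, m, χ, hO, hxO, hOW, hχ, hr, hA, hz⟩ := H W₀ h₀ hx₀
  let O : Opens Y := ⟨O₀, hO⟩
  refine ⟨O, hxO, fun y hy hyO => ?_⟩
  obtain ⟨H1, H2⟩ := H₀ O₀ (U' c) e m χ hO (U' c).2 hOW hχ hr hA hz y ⟨hyO, hy.2⟩
  have v1 : ∀ {j : ℕ} {t : Sec I j ⊤} {P : Opens Y}, Pi.single j t ∈
      (TI.toFC (tiCx I) hs.inj).van P ↔ rs (le_top : P ≤ ⊤) t = 0 := TI.single_mem_van hs.inj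
  have v2 : ∀ {j : ℕ} {t : Sec I j ⊤}, Pi.single j t ∈ (TI.toFC (tiCx I) hs.inj).van
      (O₀ ∩ U' c) ↔ Supp (U' c : Set Y)ᶜ (rs (le_top : O ≤ ⊤) t) := by
    intro j t
    rw [ti_supp, vf_rs_rs]
    exact v1 (P := O ⊓ U' c)
  have v3 : ∀ (j : ℕ) (t : Sec I j ⊤), (TI.toFC (tiCx I) hs.inj).d (Pi.single j t) =
      Pi.single (j + 1) (dd j (j + 1) t) := TI.dTot_single (tiCx I)
  refine ⟨fun s hs' hb => ?_, fun W hW s hyW hs' => ?_⟩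
  · obtain ⟨t, rfl⟩ := vf_flabby (hI.inj n) s
    have hb' : Cob ((O ⊓ U' c : Opens Y) : Set Y)ᶜ y (rs (le_top : O ≤ ⊤) t) := by
      obtain ⟨V, hV, hyV, hb⟩ := cob_iff_XK5.1 hb
      exact cob_iff_XK5.2 ⟨V, hV, hyV, hb.mono fun z _ h1 h2 => h1 h2.2⟩
    let s' : (((tiCx I).gam (O ⊓ U' c)).X n).obj O := ⟨rs (le_top : O ≤ ⊤) t,
      ti_supp.1 (SY.supp_mono hs'.1 fun z _ h1 h2 => h1 h2.2)⟩
    obtain ⟨a, ha, h1, h2⟩ := (TI.locBd_iff hs.inj (O ⊓ U' c) hyO s' t rfl).1 (ti_cob.1 hb')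
    obtain ⟨b, hb, h3, h4⟩ := H2 _ (TI.single_mem_gTot (tiCx I) n t) (v2.2 hs'.1)
      (by rw [v3]; exact (v1 (P := O)).2 (by rw [vf_rs_dd]; exact hs'.2)) a ha h1 h2
    cases n with
    | zero =>
      rw [(TI.toFC (tiCx I) hs.inj).neg _ (by simp) b hb, map_zero, sub_zero] at h4
      exact SY.bd_zero_iff.2 ((v1 (P := O)).1 h4)
    | succ n =>
      have hb' : b ∈ TI.gTot (tiCx I) n := by
        have e1 : ((n + 1 : ℕ) : ℤ) - 1 = n := by omega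
        rwa [e1] at hb
      obtain ⟨u, rfl⟩ : ∃ u : Sec I n ⊤, b = Pi.single n u := ⟨_, TI.eq_single_of_mem hb'⟩
      rw [v3, ← Pi.single_sub] at h4
      have h5 := (v1 (P := O)).1 h4
      rw [map_sub, sub_eq_zero, vf_rs_dd] at h5
      exact ⟨n, _, v2.1 h3, h5.symm⟩
  · obtain ⟨t, rfl, ht⟩ := SY.glue_ext hI.inj (le_top : W ≤ ⊤) (le_top : O ⊓ U' c ≤ ⊤) s 0
      (by rw [map_zero]; exact SY.rs_eq_zero hs'.1 _ fun z hz h => h hz.2.2)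
    obtain ⟨b, hb, h1, h2, h3⟩ := H1 _ (TI.single_mem_gTot (tiCx I) n t)
      ((v1 (P := O ⊓ U' c)).2 ht) (by
        rw [v3]
        exact TI.single_mem_zTot.2 ⟨W, le_top, hyW, (vf_rs_dd _ _ _ t).trans hs'.2⟩)
    obtain ⟨u, rfl⟩ : ∃ u : Sec I n ⊤, b = Pi.single n u := ⟨_, TI.eq_single_of_mem hb⟩
    rw [v3] at h2
    rw [← Pi.single_sub] at h3
    obtain ⟨V, hV, hyV, h4⟩ := TI.single_mem_zTot.1 h3
    have h5 : rs hV (u - t) = 0 := h4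
    refine ⟨rs le_top u, ⟨v2.1 h1, by rw [← vf_rs_dd]; exact (v1 (P := O)).1 h2⟩,
      cob_iff_XK5.2 ⟨W ⊓ V, inf_le_left, ⟨hyW, hyV⟩, ?_⟩⟩
    have h6 := congrArg (rs (inf_le_right : W ⊓ V ≤ V)) h5
    rw [vf_rs_rs, map_zero, map_sub, sub_eq_zero] at h6
    rw [map_sub, vf_rs_rs, vf_rs_rs, vf_rs_rs, h6, sub_self]
    exact SY.bd_zero _

/-- the axioms hold for a finer stratification -/
theorem IsIC.refine (hI : IsIC U I one) (hU : IsStrat d U) (hU' : IsStrat d U')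
    (hle : ∀ c, U' c ≤ U c) (hF : Flt U U') : IsIC U' I (rs (hle 1) one) := by
  have ld : ∀ c, TI.LD (2 * (d - c)) (U' (c + 1) \ U' c : Set Y) := fun c x hx => by
    obtain ⟨T, hT⟩ := hU'.chart c
    obtain ⟨g, W, -, hW, h⟩ := hT x hx
    let θ : (Fin (d - c) → ℂ) ≃L[ℝ] Fin (2 * (d - c)) → ℝ :=
      ContinuousLinearEquiv.ofFinrankEq (by simp [Module.finrank_pi_fintype, mul_comm])
    refine ⟨W, fun y => θ fun k => y.1 (g k), W.2, hW, Continuous.continuousOn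
      (θ.continuous.comp (continuous_pi fun k => (continuous_apply _).comp continuous_subtype_val)),
      fun y hy z hz e => ?_⟩
    exact congrArg Subtype.val (h.injective (a₁ := ⟨y, hy⟩) (a₂ := ⟨z, hz⟩) (θ.injective e))
  have cax := (ti_sx hU hI).cax_inf (V := U') hU'.mono hU'.top ld
    (fun c => (inf_eq_right.2 (hle c)).symm) (hle 1)
  refine ⟨hI.inj, by rw [← vf_rs_dd, hI.closed, map_zero],
    fun y hy h => hI.ne y (hle 1 hy) (cob_of_rs_XK5 _ h), fun W h s hs y hy => ?_,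
    fun c n W s h0 hn hs y hy hy' => hI.supp c n W s h0 hn hs y hy (hle _ hy'),
    fun c n W s hc hn hs y hy hy' => ?_, fun c n => ?_⟩
  · rw [vf_rs_rs]
    exact hI.norm W _ s hs y hy
  · exact (ti_cob (s := ⟨s, ti_supp.1 hs.1⟩)).2
      (cax.cosupp c hc y hy' n hn W hy _ (Subtype.ext hs.2))
  · rcases Nat.eq_zero_or_pos c with rfl | hc
    · have e : U' 0 = U 0 := hU'.zero.trans hU.zero.symm
      rw [e]
      exact ⟨LC.of_loc fun x _ => ⟨⊤, _, trivial, (hI.lc 0 n).1, fun y hy => ⟨hle _ hy.2.1, hy.2.2⟩⟩,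
        LC.of_loc fun x _ => ⟨⊤, _, trivial, (hI.lc 0 n).2, fun y hy => ⟨hle _ hy.2.1, hy.2.2⟩⟩⟩
    · refine ⟨LC.of_loc fun x hx => ?_, lc_flt hU hI hF hc n⟩
      obtain ⟨k, hk, H⟩ := hF c hc x hx
      obtain ⟨O, e, m, χ, hO, hxO, hOW, -, -, hA, -⟩ := H _ (U (k + 1)).2 hk.1
      exact ⟨⟨O, hO⟩, _, hxO, (hI.lc k n).1, fun y hy => ⟨hOW hy.1, fun h => hy.2.2 (hA ⟨hy.1, h⟩)⟩⟩

end Pool.Agent.PWD
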