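import Pool.Agent.P.MP_65ad7c_ag.DId
import Pool.Agent.P.MP_65ad7c_ag.DYT

open Set Filter Topology TopologicalSpace CategoryTheory
open Pool.Agent.HT (Form Amb)

noncomputable section
namespace Pool.Agent.PWD

/-- a map to `I` followed by the differential -/
def dcomp_XL1 {Y : Type} [TopologicalSpace Y] {I : Cx Y} {A : PSh ℂ Y} {n : ℕ}
    (u : Hom A (SY.IP I n)) : Hom A (SY.IP I (n + 1)) where
  app W := (dd (I := I) (W := W) n (n + 1)).comp (u.app W)
  nat h x := (SY.rs_d h (u.app _ x)).trans (congrArg (dd (I := I) n (n + 1)) (u.nat h x))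

theorem loc_XL1 {Y : Type} [TopologicalSpace Y] {I : Cx Y} {A : PSh ℂ Y} {n : ℕ}
    (g : Hom A (SY.IP I n)) (W : Opens Y) (x : A.obj W)
    (h : ∀ y ∈ W, ∃ (O : Opens Y) (hO : O ≤ W), y ∈ O ∧ g.app O (A.res hO x) = 0) :
    g.app W x = 0 :=
  (SY.IP_sh I n).sep W _ fun y hy => by
    obtain ⟨O, hO, h1, h2⟩ := h y hy
    exact SY.near_bot.2 ⟨O, hO, h1, (g.nat hO x).trans h2⟩

theorem DR.exists_u {Y : Type} [TopologicalSpace Y] {U : ℕ → Opens Y} {I : Cx Y}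
    {one₀ one : Sec I 0 (U 1)} (C : DR one₀) (hI : ∀ n, Injective (I.X n)) (hc : dd 0 1 one = 0)
    (hne : ∀ (V : Opens Y) (h : V ≤ U 1), (C.A 0).res h C.e = 0 → V = ⊥) :
    ∃ u : ∀ n, Hom (C.A n) (SY.IP I n), (u 0).app (U 1) C.e = one ∧
      ∀ n W x, dd (I := I) (W := W) n (n + 1) ((u n).app W x) =
        (u (n + 1)).app W ((C.d n).app W x) := by
  obtain ⟨u0, h0⟩ := SY.ext_of_inj (hI 0) (SY.dyhA (U 1)) (C.A 0) (SY.dyhG C.e)
    (SY.dyhG (J := SY.IP I 0) one) (by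
      rintro V ⟨c, hV | rfl⟩ h
      · by_cases hc0 : c = 0
        · change c • SY.dyhV (J := SY.IP I 0) one V = 0
          rw [hc0, zero_smul]
        · have h1 : c • SY.dyhV C.e V = 0 := h
          rw [SY.dyhV_of_le _ hV] at h1
          have h2 := hne V hV (by simpa [hc0] using congrArg (c⁻¹ • ·) h1)
          exact loc_XL1 _ V _ fun y hy => by simp [h2] at hy
      · exact zero_smul ℂ (SY.dyhV (J := SY.IP I 0) one V))
  have h1 : ∀ (V : Opens Y) (hV : V ≤ U 1), u0.app V ((C.A 0).res hV C.e) = rs hV one := by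
    intro V hV
    have h2 : u0.app V ((1 : ℂ) • SY.dyhV C.e V) = (1 : ℂ) • SY.dyhV (J := SY.IP I 0) one V :=
      h0 V (⟨1, Or.inl hV⟩ : SY.dyhSub (U 1) V)
    rw [one_smul, one_smul, SY.dyhV_of_le _ hV] at h2
    exact h2.trans (SY.dyhV_of_le (J := SY.IP I 0) one hV)
  let P : ∀ n, Hom (C.A n) (SY.IP I n) → Prop := fun n u =>
    ∀ W x, (C.d n).app W x = 0 → (dcomp_XL1 u).app W x = 0
  have p0 : P 0 u0 := fun W x hx => loc_XL1 _ W x fun y hy => by
    by_cases hU : y ∈ U 1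
    · obtain ⟨c, O, hO, h2, h3⟩ := C.poin0 (W ⊓ U 1) inf_le_right ((C.A 0).res inf_le_left x)
        (by rw [← (C.d 0).nat, hx, map_zero]) y ⟨hy, hU⟩
      rw [Sub.bot_sub, Submodule.mem_bot, map_sub, map_smul, (C.A 0).res_res, (C.A 0).res_res,
        sub_eq_zero] at h3
      refine ⟨O, hO.trans inf_le_left, h2, ?_⟩
      rw [h3, map_smul]
      have h4 : (dcomp_XL1 u0).app O ((C.A 0).res (hO.trans inf_le_right) C.e) = 0 := by
        refine (congrArg (dd (I := I) 0 1) (h1 O _)).trans ?_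
        rw [← SY.rs_d, hc, map_zero]
        rfl
      rw [h4, smul_zero]
    · obtain ⟨O, hO, h2, h3⟩ := SY.near_bot.1 (C.zero 0 W x y hy hU)
      exact ⟨O, hO, h2, by rw [h3, map_zero]⟩
  have step : ∀ n u, P n u → ∃ u', P (n + 1) u' ∧
      ∀ W x, u'.app W ((C.d n).app W x) = (dcomp_XL1 u).app W x := by
    intro n u hu
    obtain ⟨u', hu'⟩ := SY.ext_of_inj (hI (n + 1)) _ _ (C.d n) (dcomp_XL1 u) hu
    refine ⟨u', fun W x hx => loc_XL1 _ W x fun y hy => ?_, hu'⟩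
    obtain ⟨O, hO, h2, z, -, hz⟩ := SY.near_map.1 (C.poin n W x hx y hy)
    refine ⟨O, hO, h2, ?_⟩
    rw [← hz]
    exact (congrArg (dd (I := I) (n + 1) (n + 1 + 1)) (hu' O z)).trans (SY.d_d _)
  choose F F1 F2 using step
  let s : ∀ n, {u // P n u} := fun n =>
    Nat.rec ⟨u0, p0⟩ (fun n p => ⟨F n p.1 p.2, F1 n p.1 p.2⟩) n
  refine ⟨fun n => (s n).1, ?_, fun n W x => (F2 n (s n).1 (s n).2 W x).symm⟩
  have h2 := h1 (U 1) le_rfl
  rwa [(C.A 0).res_id, SY.rs_self] at h2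

variable {R : Type} [CommRing R] [Algebra ℂ R] {Y : Set (R → ℂ)} {a d m : ℕ} {Q : Data Y a}
  {S : (R → ℂ) → (R → ℂ) → Prop} {U : ℕ → Opens Y} {I : Cx Y} {one : Sec I 0 (U 1)}

/-- the natural map exists -/
theorem Data.IsModel.exists_nat (hQ : Q.IsModel S d m U) (hY : IsVar Y) (hI : IsIC U I one) :
    ∃ u, Q.IsNat one u := by
  have hu0 : Q.IsNat (0 : Sec I 0 (U 1)) fun _ _ => 0 :=
    ⟨fun _ _ _ _ _ => rfl, fun _ _ _ h _ _ => map_zero (rs h), fun n _ _ _ => map_zero (dd n _), rfl⟩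
  obtain ⟨u, h1, h2⟩ := (hQ.dr hY hu0).exists_u hI.inj hI.closed (by
    intro V hV h
    refine eq_bot_iff.2 fun y hy => ?_
    obtain ⟨x, hx, rfl⟩ := hQ.surj (mem_univ y)
    have h3 : Van (Q.pre V) (one0 (Amb Q.M)) := Data.cl_eq_zero.1 h
    have h4 := h3 (fun _ => x) univ isOpen_univ contDiffOn_const (fun _ _ => ⟨hx.1, hy⟩) x trivial
    rw [pull_one0] at h4
    exact absurd (congrArg (fun f => f Fin.elim0) h4) one_ne_zero)
  have ext : ∀ n (W : Opens Y), ∃ g : Form (Amb Q.M) n →ₗ[ℂ] Sec I n W,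
      ∀ η (h : Q.Adm W η), g η = (u n).app W (Data.cl η h) := by
    intro n W
    obtain ⟨g, hg⟩ := LinearMap.exists_extend (p := Q.admS W n) (V' := Sec I n W)
      { toFun := fun η => (u n).app W (Data.cl η.1 η.2)
        map_add' := fun η η' => map_add ((u n).app W) (Data.cl η.1 η.2) (Data.cl η'.1 η'.2)
        map_smul' := fun c η => map_smul ((u n).app W) c (Data.cl η.1 η.2) }
    exact ⟨g, fun η h => LinearMap.congr_fun hg ⟨η, h⟩⟩
  choose g hg using ext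
  refine ⟨g, fun n W η h h0 => ?_, fun n W W' hW η h => ?_, fun n W η h => ?_, ?_⟩
  · rw [hg n W η h, Data.cl_eq_zero.2 h0]
    exact map_zero ((u n).app W)
  · rw [hg n W η h, hg n W' η (h.anti hW)]
    exact (u n).nat hW _
  · rw [hg n W η h, hg (n + 1) W _ h.d]
    exact h2 n W _
  · exact (hg 0 (U 1) _ (hQ.adm_one subset_rfl)).trans h1

end Pool.Agent.PWD
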