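import Pool.Agent.P.MP_65ad7c_ag.DFk

open Set Filter Topology TopologicalSpace
open scoped ContDiff
open Pool.Agent.HT (Form Amb)

noncomputable section
namespace Pool.Agent.PWD

variable {R : Type} [CommRing R] [Algebra ℂ R] {Y : Set (R → ℂ)} {a d m : ℕ} {Q : Data Y a}
  {S : (R → ℂ) → (R → ℂ) → Prop} {U : ℕ → Opens Y} {I : Cx Y} {one : Sec I 0 (U 1)}
  {u : ∀ n W, Form (Amb Q.M) n →ₗ[ℂ] Sec I n W}

theorem Z_alg_XL2 (hY : IsVar Y) (Q : Data Y a) :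
    ∃ T : Set R, ∀ y, y ∈ Q.Z ↔ ∀ g ∈ T, y.1 g = 0 := by
  obtain ⟨P, hP⟩ := hY
  refine ⟨range fun i : Fin a =>
    algebraMap ℂ R (Q.c i.castSucc 0) + ∑ j, Q.c i.castSucc j.succ • Q.f j, fun y => ?_⟩
  obtain ⟨φ, hφ⟩ := ((Set.ext_iff.1 hP y.1).1 y.2).1
  rw [forall_mem_range]
  refine forall_congr' fun i => ?_
  have e : Q.c i.castSucc ⬝ᵥ vecf Q.f y =
      y.1 (algebraMap ℂ R (Q.c i.castSucc 0) + ∑ j, Q.c i.castSucc j.succ • Q.f j) := by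
    unfold vecf
    rw [← hφ]
    simp [dotProduct, Fin.sum_univ_succ]
  rw [e]

/-- every class comes from the open part of the section -/
theorem Data.IsModel.exists_rp (hQ : Q.IsModel S d m U) (hY : IsVar Y) (hu : Q.IsNat one u)
    (hU : IsStrat d U) (hI : IsIC U I one)
    (hZ : ∀ e, DimLT ((U e : Set Y)ᶜ ∩ Q.Z) (m + 1 - e)) {α : Sec I m ⊤}
    (hα : dd m (m + 1) α = 0) : ∃ η, Data.Rp u η α := by
  have := hY.locallyCompact hQ.gen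
  have := hY.secondCountable hQ.gen
  obtain ⟨O, h, k, t, h1, h2⟩ := av2 hY hQ.gen hU hI (Z_alg_XL2 hY Q) hZ le_rfl (O := ⊤)
    (subset_univ _) hα
  obtain ⟨v, h3, h4⟩ := SY.Bd.extend hI.inj h (⟨k, t, SY.supp_univ t, h2⟩ : SY.Bd univ (rs h α))
  have hs : Supp (U 1 : Set Y)ᶜᶜ (rs (le_top : O ⊔ U 1 ≤ ⊤) (α - v)) := by
    refine SY.supp_of_rs (le_sup_left : O ≤ O ⊔ U 1) ?_ fun y hy hy' => ?_
    · rw [SY.rs_comp, map_sub, h4, sub_self]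
    · exact (Opens.mem_sup.1 hy).resolve_right (not_not.1 hy')
  obtain ⟨x, -, h5, h6⟩ := SY.cmp_surj (hQ.dr hY hu) hI (U 1).isOpen.isClosed_compl
    (fun _ _ hy => hy) hs (by rw [← SY.rs_d, map_sub, hα, h3.closed, sub_zero, map_zero])
  obtain ⟨η, hη, rfl⟩ := Data.cl_surj (Q := Q) x
  have hZO : Q.Z ⊆ (O ⊔ U 1 : Opens Y) := fun y hy => by
    by_cases hy' : y ∈ U 1
    · exact Opens.mem_sup.2 (Or.inr hy')
    · exact Opens.mem_sup.2 (Or.inl (h1 ⟨hy, hy'⟩))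
  refine ⟨η, (hQ.rp_iff hY hu).2 ⟨_, hη, hZO, h5, (SY.rel_iff _).2 ⟨_, le_rfl, hZO, ?_⟩⟩⟩
  have e := (h6.mono (C' := univ) fun _ _ _ => trivial).add (h3.res (le_top : O ⊔ U 1 ≤ ⊤))
  rw [map_sub, sub_right_comm, sub_add_cancel] at e
  exact e

theorem lg_top {V : Type} [NormedAddCommGroup V] [NormedSpace ℝ V] {G : Set (V → ℂ)} {O : Set V}
    {w n : ℕ} {β : Form V n} (h : Lg G O w n β) : Lg G O (n + 1) n β := by
  induction h with
  | zero => exact Lg.zero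
  | smooth h => exact Lg.smooth h
  | add _ _ h1 h2 => exact Lg.add h1 h2
  | log hh _ h1 => exact Lg.log hh h1

/-- the weights are at most twice the degree -/
theorem Data.IsModel.inW_top (hQ : Q.IsModel S d m U) {n : ℕ} {η : Form (Amb Q.M) n}
    {α : Sec I n ⊤} (h : Data.Rp u η α) : InW d Q.X Q.D Q.T Q.al Q.be (2 * n) η := by
  have hG : (Q.C d).Glob Q.X := amb_glob hQ.snc
  have h0 : (Q.C d).Tri Q.X Q.T Q.al Q.be := ⟨hG, hQ.disjT', hQ.disjB⟩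
  have : CompactSpace Q.X := isCompact_iff_compactSpace.1 hG.cpt
  have hs := hQ.rp_sm h
  obtain ⟨O, j, t, h1, h2, h3, -⟩ := h
  obtain ⟨i, hi⟩ := (h0.kh.mhs n).W_top
  have h4 := (h0.kh.mhs n).W_mono (Int.self_le_toNat i) (hi (hQ.z0 h1 h2 h3 hs))
  obtain ⟨b, hb⟩ := InW.of_kWc (k := i.toNat) h0 hs h4
  refine ⟨b, fun n' J hJ => ⟨(hb n' J hJ).1, fun e x hx => ?_⟩⟩
  obtain ⟨O', γ, hO, hxO, g1, g2⟩ := (hb n' J hJ).2 e x hx
  exact ⟨O', γ, hO, hxO, lg_mono_DFc (lg_top g1) (by omega), g2⟩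

end Pool.Agent.PWD
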