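import Pool.Agent.P.MP_65ad7c_ag.XL3
import Pool.Agent.P.MP_65ad7c_ag.XJ3
import Pool.Agent.P.MP_65ad7c_ag.DF9
import Pool.Agent.P.MP_65ad7c_ag.DFm

open Set TopologicalSpace
open scoped Manifold ContDiff
open Pool.Agent.PW Pool.Agent.PWD

noncomputable section
namespace Pool.Agent.PWF

theorem fin_all (n r : ℕ) (X : Type) [TopologicalSpace X] [T2Space X] [CompactSpace X]
    [ConnectedSpace X] [ChartedSpace (EC n) X] [IsManifold 𝓘(ℂ, EC n) ω X] (hK : IsKahler n X)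
    (x₀ : X) (G : Subgroup (GL (Fin r) ℂ)) (hG : Red G) (R : Type) [CommRing R] [Algebra ℂ R]
    (e : (FundamentalGroup X x₀ →* G) → R →ₐ[ℂ] ℂ) (he : IsInv e)
    (P : Ideal R) (hP : P ∈ minimalPrimes R) (d : ℕ) (U : ℕ → Opens (Pts P)) (hU : IsStrat d U)
    (h1 : (U 1).1.Nonempty) (I : Cx (Pts P)) (one : Sec I 0 (U 1)) (hI : IsIC U I one) (m : ℕ)
    (α : Glo I m) (hα : Coc univ α) : α ∈ Wt (Cnj e) d I m (2 * m) := by
  obtain ⟨K⟩ := exists_rotSys n X hK x₀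
  obtain ⟨N, f, hf, hc⟩ := exists_real_gens hG he K.S K.gen
  have key : ∀ y y' : Pts P, Cnj e y.1 y'.1 ↔ PWV.emb f y' = star (PWV.emb f y) := fun y y' => by
    obtain ⟨φ, hφ⟩ := y.2.1
    obtain ⟨φ', hφ'⟩ := y'.2.1
    rw [← hφ, ← hφ', hc, funext_iff, hφ, hφ']
    rfl
  exact wt_iff.2 (HIR.wt_all hP.1.1 hf (fun y y' h => (key y y').2 h)
    (fun y => (exists_cnj n r X hK x₀ G hG R e he P hP y).imp fun y' h => (key y y').1 h)
    hU h1 hI hα.2)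

end Pool.Agent.PWF
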