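import Pool.Agent.P.MP_65ad7c_ag.XI0

open Set Filter Topology Asymptotics
open scoped ComplexConjugate
open Pool.Agent.HT (Amb proj cj IsChart IsSNC)
open Pool.Agent.PWV (ZC ZI Dim)

noncomputable section
namespace Pool.Agent.HIR

variable {n : ℕ}

theorem key_XM1 {S : Sp n} {A : Set (Amb S.M)} {J : Set ℕ} {y : Amb S.M} {j : ℕ}
    (hy : y ∈ S.D j) (h : ∀ᶠ u in 𝓝[S.X] y, u ∈ A ↔ ∃ l ∈ J, u ∈ S.D l) :
    Cin (S.D j) A y ↔ j ∈ J := by
  classical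
  refine ⟨fun hc => ?_, fun hj => ?_⟩
  · obtain ⟨φ, z, κ, hp, hi, hκ⟩ := chart_XE3 (S.snc.sub j hy)
    obtain ⟨k, e, hk⟩ := co_of_XE3 (hp.eq ▸ hy) (hκ j)
    have h1 := dense_mon (z := z) (T := {k}) (α := fun i => if i = k then 0 else 1)
      (by simpa using hk.zero.1 (hp.eq ▸ hy)) (fun i hi => by simpa using hi)
    have h2 := (hp.ev_sub (S.snc.sub j)).1 hc
    have h3 := hp.ev_iff.1 h
    have h4 := (Finset.range S.r).eventually_all.2 fun l _ => hκ l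
    obtain ⟨w, ⟨a1, a2⟩, a3, a4, a5, a6⟩ :=
      (h1.and_eventually (h2.and (h3.and (h4.and hk)))).exists
    obtain ⟨l, hl, hw⟩ := a4.1 (a3 (a6.2 (a1 k (Finset.mem_singleton_self k))))
    obtain ⟨k', e', hk'⟩ := (a5 l (Finset.mem_range.2 (Sp.lt hw))).1 hw
    have h5 : k' = k := by
      by_contra hne
      exact a2 (Finset.prod_eq_zero (Finset.mem_univ k') (by simp [hne, hk']))
    exact hi l j k (h5 ▸ e') e ▸ hl
  · filter_upwards [h.filter_mono (nhdsWithin_mono y (S.snc.sub j)), self_mem_nhdsWithin]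
      with u a b using a.2 ⟨j, hj, b⟩

theorem ev_XM1 {S : Sp n} {A : Set (Amb S.M)} (hA : LocU S A) {x : Amb S.M} (hx : x ∈ S.X) :
    ∃ J : Set ℕ, ∀ᶠ y in 𝓝[S.X] x, (y ∈ A ↔ ∃ l ∈ J, y ∈ S.D l) ∧
      ∀ j, y ∈ S.D j → (Cin (S.D j) A y ↔ j ∈ J) := by
  obtain ⟨J, hJ⟩ := hA x hx
  refine ⟨J, hJ.and ?_⟩
  filter_upwards [eventually_eventually_nhdsWithin.2 hJ] with y hy j hj using key_XM1 hj hy

/-- split the divisors into the parts inside and outside `A` -/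
theorem exists_split (S : Sp n) {A : Set (Amb S.M)} (hA : LocU S A) (hc : MapsTo (cj S.M) A A) :
    ∃ (D : ℕ → Set (Amb S.M)) (r : ℕ) (al : Set ℕ), DivOK S D r ∧
      (∀ x, (∃ j, x ∈ D j) ↔ ∃ j, x ∈ S.D j) ∧ ∀ x ∈ S.X, x ∈ A ↔ ∃ j ∈ al, x ∈ D j := by
  obtain ⟨D, hD⟩ : ∃ D : ℕ → Set (Amb S.M), ∀ m y, y ∈ D m ↔
      y ∈ S.D (m / 2) ∧ (Cin (S.D (m / 2)) A y ↔ m % 2 = 0) :=
    ⟨fun m => {y | y ∈ S.D (m / 2) ∧ (Cin (S.D (m / 2)) A y ↔ m % 2 = 0)}, fun _ _ => Iff.rfl⟩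
  have h0 : ∀ j y, y ∈ S.D j → Cin (S.D j) A y → y ∈ D (2 * j) := by
    intro j y a b
    rw [hD, show 2 * j / 2 = j by omega]
    exact ⟨a, iff_of_true b (by omega)⟩
  have h1 : ∀ j y, y ∈ S.D j → ¬ Cin (S.D j) A y → y ∈ D (2 * j + 1) := by
    intro j y a b
    rw [hD, show (2 * j + 1) / 2 = j by omega]
    exact ⟨a, iff_of_false b (by omega)⟩
  have hsub : ∀ m, D m ⊆ S.D (m / 2) := fun m y hy => ((hD m y).1 hy).1
  have hfin : ∀ m, 2 * S.r ≤ m → D m = ∅ := fun m hm =>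
    subset_eq_empty (hsub m) (S.fin _ (by omega))
  have hcl : ∀ m, IsClosed (D m) := by
    intro m
    refine isClosed_of_closure_subset fun x hx => ?_
    have hx1 : x ∈ S.D (m / 2) := (S.closedD _).closure_subset (closure_mono (hsub m) hx)
    obtain ⟨J, hJ⟩ := ev_XM1 hA (S.snc.sub _ hx1)
    have := mem_closure_iff_nhdsWithin_neBot.1 hx
    obtain ⟨y, a, b⟩ := ((hJ.filter_mono (nhdsWithin_mono x ((hsub m).trans (S.snc.sub _)))).and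
      self_mem_nhdsWithin).exists
    have c := (hD m y).1 b
    exact (hD m x).2 ⟨hx1, ((hJ.self_of_nhdsWithin (S.snc.sub _ hx1)).2 _ hx1).trans
      ((a.2 _ c.1).symm.trans c.2)⟩
  refine ⟨D, 2 * S.r, {m | m % 2 = 0}, ⟨?_, hfin, fun m y hy => ?_⟩, fun x => ?_, fun x hx => ?_⟩
  · refine snc_of_pt S.snc.compact (fun m => (hsub m).trans (S.snc.sub _)) hcl hfin fun x hx => ?_
    obtain ⟨φ, z, κ, hp, hi, hκ⟩ := chart_XE3 hx
    obtain ⟨J, hJ⟩ := ev_XM1 hA hx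
    refine ⟨φ, z, fun m => κ (m / 2), hp, fun m m' i a a' e e' => ?_, fun m a => ?_⟩
    · have b := hi _ _ _ e e'
      have c := ((hD m x).1 a).2
      have c' := ((hD m' x).1 a').2
      rw [b] at c
      have d := c.symm.trans c'
      omega
    · have c := (hD m x).1 a
      obtain ⟨k, e, hk⟩ := co_of_XE3 (hp.eq ▸ c.1) (hκ (m / 2))
      have d := ((hJ.self_of_nhdsWithin hx).2 _ c.1).symm.trans c.2
      refine ⟨k, e, ?_⟩
      filter_upwards [hk, hp.ev_iff.1 hJ] with w b b'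
      rw [← b, hD]
      exact ⟨fun f => f.1, fun f => ⟨f, (b'.2 _ f).trans d⟩⟩
  · have c := (hD m y).1 hy
    refine (hD m _).2 ⟨S.cjD _ c.1, Iff.trans ⟨fun a => ?_, fun a => a.bar (S.cjD _) hc⟩ c.2⟩
    have b := a.bar (S.cjD _) hc
    rwa [cj_cj] at b
  · refine ⟨fun ⟨m, a⟩ => ⟨_, hsub m a⟩, fun ⟨j, a⟩ => ?_⟩
    by_cases b : Cin (S.D j) A x
    · exact ⟨_, h0 j x a b⟩
    · exact ⟨_, h1 j x a b⟩
  · obtain ⟨J, hJ⟩ := ev_XM1 hA hx
    have c := hJ.self_of_nhdsWithin hx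
    refine ⟨fun a => ?_, fun ⟨m, a, b⟩ => ?_⟩
    · obtain ⟨l, hl, b⟩ := c.1.1 a
      exact ⟨2 * l, Nat.mul_mod_right 2 l, h0 l x b ((c.2 l b).2 hl)⟩
    · have d := (hD m x).1 b
      exact (d.2.2 a).self_of_nhdsWithin d.1

end Pool.Agent.HIR
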