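import Pool.Agent.P.MP_65ad7c_ag.XI0

open Set Filter Topology Asymptotics
open scoped ComplexConjugate
open Pool.Agent.HT (Amb proj cj IsChart IsSNC)
open Pool.Agent.PWV (ZC ZI Dim)

noncomputable section
namespace Pool.Agent.HIR

variable {m : ℕ}

/-- a holomorphic function that vanishes at the real points near a real point is zero -/
theorem real_ident {F : (Fin m → ℂ) → ℂ} {a : Fin m → ℝ}
    (hF : AnalyticAt ℂ F fun i => (a i : ℂ))
    (h : ∀ᶠ b : Fin m → ℝ in 𝓝 a, F (fun i => (b i : ℂ)) = 0) :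
    F =ᶠ[𝓝 fun i => (a i : ℂ)] 0 := by
  obtain ⟨R1, hR1, h1⟩ := Metric.eventually_nhds_iff_ball.1 hF.eventually_analyticAt
  obtain ⟨R2, hR2, h2⟩ := Metric.eventually_nhds_iff_ball.1 h
  have hR : 0 < min R1 R2 := lt_min hR1 hR2
  set R := min R1 R2 with hRd
  have hRa : R ≤ R1 := min_le_left _ _
  have hRb : R ≤ R2 := min_le_right _ _
  refine Metric.eventually_nhds_iff_ball.2 ⟨R / 4, by positivity, fun w hw => ?_⟩
  have hw' : ∀ i, ‖w i - (a i : ℂ)‖ < R / 4 := by
    intro i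
    have h3 := (dist_pi_lt_iff (by positivity)).1 (Metric.mem_ball.1 hw) i
    rwa [dist_eq_norm] at h3
  have hre : ∀ i, |(w i).re - a i| < R / 4 := by
    intro i
    have h3 := Complex.abs_re_le_norm (w i - (a i : ℂ))
    simp only [Complex.sub_re, Complex.ofReal_re] at h3
    exact h3.trans_lt (hw' i)
  have him : ∀ i, |(w i).im| < R / 4 := by
    intro i
    have h3 := Complex.abs_im_le_norm (w i - (a i : ℂ))
    simp only [Complex.sub_im, Complex.ofReal_im, sub_zero] at h3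
    exact h3.trans_lt (hw' i)
  let γ : ℂ → Fin m → ℂ := fun s i => ((w i).re : ℂ) + s * ((w i).im : ℂ)
  have hγ : ∀ s, AnalyticAt ℂ γ s := by
    intro s
    refine analyticAt_pi_iff.2 fun i => ?_
    exact analyticAt_const.add (analyticAt_id.mul analyticAt_const)
  have hmem : ∀ s ∈ Metric.ball (0 : ℂ) 2, γ s ∈ Metric.ball (fun i => (a i : ℂ)) R1 := by
    intro s hs
    rw [Metric.mem_ball, dist_pi_lt_iff hR1]
    intro i
    have hs' : ‖s‖ < 2 := by simpa using hs
    have e1 : γ s i - (a i : ℂ) = (((w i).re - a i : ℝ) : ℂ) + s * ((w i).im : ℂ) := by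
      simp only [γ]
      push_cast
      ring
    rw [dist_eq_norm, e1]
    have h3 := norm_add_le ((((w i).re - a i : ℝ)) : ℂ) (s * ((w i).im : ℂ))
    rw [norm_mul, Complex.norm_real, Complex.norm_real, Real.norm_eq_abs, Real.norm_eq_abs] at h3
    have h4 := hre i
    have h5 := him i
    have h6 : ‖s‖ * |(w i).im| ≤ 2 * |(w i).im| :=
      mul_le_mul_of_nonneg_right hs'.le (abs_nonneg _)
    linarith
  have hg : AnalyticOnNhd ℂ (fun s => F (γ s)) (Metric.ball (0 : ℂ) 2) := fun s hs =>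
    (h1 _ (hmem s hs)).comp (hγ s)
  have hreal : ∀ t : ℝ, |t| < 2 → F (γ (t : ℂ)) = 0 := by
    intro t ht
    have hb : (fun i => (w i).re + t * (w i).im) ∈ Metric.ball a R2 := by
      rw [Metric.mem_ball, dist_pi_lt_iff hR2]
      intro i
      rw [Real.dist_eq]
      have e1 : (w i).re + t * (w i).im - a i = ((w i).re - a i) + t * (w i).im := by ring
      rw [e1]
      have h3 := abs_add_le ((w i).re - a i) (t * (w i).im)
      rw [abs_mul] at h3
      have h4 := hre i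
      have h5 := him i
      have h6 : |t| * |(w i).im| ≤ 2 * |(w i).im| :=
        mul_le_mul_of_nonneg_right ht.le (abs_nonneg _)
      linarith
    have h7 := h2 _ hb
    have e2 : γ (t : ℂ) = fun i => (((w i).re + t * (w i).im : ℝ) : ℂ) := by
      funext i
      simp only [γ]
      push_cast
      ring
    rw [e2]
    exact h7
  have hfr : ∃ᶠ s in 𝓝[≠] (0 : ℂ), F (γ s) = 0 := by
    have ht : Tendsto (fun t : ℝ => (t : ℂ)) (𝓝[≠] 0) (𝓝[≠] 0) := by
      refine tendsto_nhdsWithin_iff.2 ⟨?_, ?_⟩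
      · have h3 : Tendsto (fun t : ℝ => (t : ℂ)) (𝓝 0) (𝓝 ((0 : ℝ) : ℂ)) :=
          Complex.continuous_ofReal.tendsto 0
        rw [Complex.ofReal_zero] at h3
        exact h3.mono_left nhdsWithin_le_nhds
      · filter_upwards [self_mem_nhdsWithin] with t ht
        simpa using ht
    refine ht.frequently (Eventually.frequently ?_)
    have h3 : ∀ᶠ t : ℝ in 𝓝 0, |t| < 2 := by
      filter_upwards [Metric.ball_mem_nhds (0 : ℝ) (by norm_num : (0 : ℝ) < 2)] with t ht
      simpa using ht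
    filter_upwards [mem_nhdsWithin_of_mem_nhds h3] with t ht
    exact hreal t ht
  have hz := hg.eqOn_zero_of_preconnected_of_frequently_eq_zero
    (convex_ball (0 : ℂ) 2).isPreconnected (Metric.mem_ball_self (by norm_num)) hfr
  have hI : Complex.I ∈ Metric.ball (0 : ℂ) 2 := by simp
  have h8 := hz hI
  have e3 : γ Complex.I = w := by
    funext i
    simp only [γ]
    rw [mul_comm]
    exact Complex.re_add_im (w i)
  simp only [e3] at h8
  exact h8

theorem zero_meagre_XM2 {F : (Fin m → ℂ) → ℂ} {z : Fin m → ℂ} (hF : AnalyticAt ℂ F z)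
    (hne : ¬ F =ᶠ[𝓝 z] 0) :
    ∃ N ∈ 𝓝 z, IsMeagre {b : Fin m → ℝ | (fun i => (b i : ℂ)) ∈ N ∧
      F (fun i => (b i : ℂ)) = 0} := by
  obtain ⟨R, hR, h1⟩ := Metric.eventually_nhds_iff_ball.1 hF.eventually_analyticAt
  have hA : AnalyticOnNhd ℂ F (Metric.ball z R) := h1
  have hsub : Metric.closedBall z (R / 2) ⊆ Metric.ball z R :=
    Metric.closedBall_subset_ball (by linarith)
  have hc : Continuous fun (b : Fin m → ℝ) (i : Fin m) => (b i : ℂ) := by fun_prop
  refine ⟨Metric.closedBall z (R / 2), Metric.closedBall_mem_nhds z (by positivity), ?_⟩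
  have hcl : IsClosed {b : Fin m → ℝ | (fun i => (b i : ℂ)) ∈ Metric.closedBall z (R / 2) ∧
      F (fun i => (b i : ℂ)) = 0} := by
    have h2 : IsClosed (Metric.closedBall z (R / 2) ∩ F ⁻¹' {0}) :=
      (hA.continuousOn.mono hsub).preimage_isClosed_of_isClosed Metric.isClosed_closedBall
        isClosed_singleton
    exact h2.preimage hc
  refine IsNowhereDense.isMeagre ?_
  rw [hcl.isNowhereDense_iff]
  refine eq_empty_of_forall_notMem fun b hb => hne ?_
  have hb1 := interior_subset hb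
  have hb2 : ∀ᶠ b' : Fin m → ℝ in 𝓝 b, F (fun i => (b' i : ℂ)) = 0 := by
    filter_upwards [mem_interior_iff_mem_nhds.1 hb] with b' hb'
    exact hb'.2
  have h3 := real_ident (hA _ (hsub hb1.1)) hb2
  have h4 := hA.eqOn_zero_of_preconnected_of_eventuallyEq_zero
    (convex_ball z R).isPreconnected (hsub hb1.1) h3
  filter_upwards [Metric.ball_mem_nhds z hR] with w hw
  exact h4 hw

theorem reg_meagre_XM2 {j : ℕ} (hj : j < m) {φ : (Fin j → ℂ) → Fin m → ℂ} {u : Fin j → ℂ}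
    (hφ : AnalyticAt ℂ φ u) (hi : Function.Injective (fderiv ℂ φ u)) :
    ∃ N ∈ 𝓝 u, IsMeagre {b : Fin m → ℝ | (fun i => (b i : ℂ)) ∈ φ '' N} := by
  obtain ⟨r, hr, hrφ⟩ := Weil.exists_left_inverse hφ hi
  have hru : r (φ u) = u := hrφ.self_of_nhds
  have hlt : LinearMap.range (fderiv ℂ φ u : (Fin j → ℂ) →ₗ[ℂ] (Fin m → ℂ)) < ⊤ := by
    refine lt_top_iff_ne_top.2 fun ht => ?_
    have h1 := LinearMap.finrank_range_le (fderiv ℂ φ u : (Fin j → ℂ) →ₗ[ℂ] (Fin m → ℂ))
    rw [ht] at h1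
    simp at h1
    omega
  obtain ⟨l, hl0, hl⟩ := Submodule.exists_le_ker_of_lt_top _ hlt
  let lc : (Fin m → ℂ) →L[ℂ] ℂ := LinearMap.toContinuousLinearMap l
  have hφ' : AnalyticAt ℂ φ (r (φ u)) := by rwa [hru]
  have hF : AnalyticAt ℂ (fun w => lc (w - φ (r w))) (φ u) :=
    (lc.analyticAt _).comp (analyticAt_id.sub (hφ'.comp hr))
  have hne : ¬ (fun w => lc (w - φ (r w))) =ᶠ[𝓝 (φ u)] 0 := by
    intro h0
    have h1 : HasFDerivAt φ (fderiv ℂ φ u) (r (φ u)) := by
      rw [hru]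
      exact hφ.differentiableAt.hasFDerivAt
    have h2 := lc.hasFDerivAt.comp (φ u)
      ((hasFDerivAt_id (φ u)).sub (h1.comp (φ u) hr.differentiableAt.hasFDerivAt))
    have h3 : HasFDerivAt (fun w => lc (w - φ (r w))) (0 : (Fin m → ℂ) →L[ℂ] ℂ) (φ u) :=
      (hasFDerivAt_const (0 : ℂ) (φ u)).congr_of_eventuallyEq h0
    have h4 := h2.unique h3
    refine hl0 (LinearMap.ext fun v => ?_)
    have h5 := congrArg (fun T : (Fin m → ℂ) →L[ℂ] ℂ => T v) h4
    have h6 : l (fderiv ℂ φ u (fderiv ℂ r (φ u) v)) = 0 := hl ⟨_, rfl⟩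
    simp only [ContinuousLinearMap.comp_apply, sub_apply,
      ContinuousLinearMap.id_apply, map_sub, zero_apply] at h5
    have h7 : l v - l (fderiv ℂ φ u (fderiv ℂ r (φ u) v)) = 0 := h5
    rw [h6, sub_zero] at h7
    exact h7
  obtain ⟨N, hN, hM⟩ := zero_meagre_XM2 hF hne
  refine ⟨{v | r (φ v) = v} ∩ φ ⁻¹' N, inter_mem hrφ (hφ.continuousAt hN), hM.mono ?_⟩
  rintro b ⟨v, ⟨hv1, hv2⟩, hv⟩
  refine ⟨hv ▸ hv2, ?_⟩
  have hv1' : r (φ v) = v := hv1
  rw [← hv, hv1', sub_self, map_zero]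

theorem thin_meagre (k : ℕ) : ∀ S : Set (Fin m → ℂ), k ≤ m → Weil.Thin k S →
    IsMeagre {b : Fin m → ℝ | (fun i => (b i : ℂ)) ∈ S} := by
  induction k using Nat.strong_induction_on with
  | _ k ih =>
  rintro S hk ⟨J, hJ, d, U, φ, h1, h2⟩
  have key : ∀ j, IsMeagre {b : Fin m → ℝ | (fun i => (b i : ℂ)) ∈ φ j '' U j} := by
    intro j
    have hd : d j < m := (h1 j).1.trans_le hk
    have hcr := ih (d j) (h1 j).1 _ hd.le (Weil.thin_crit (h1 j).2 (d j))
    let A : Set (Fin (d j) → ℂ) := {u | u ∈ U j ∧ Function.Injective (fderiv ℂ (φ j) u)}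
    have hA : ∀ u ∈ A, ∃ N ∈ 𝓝 u,
        IsMeagre {b : Fin m → ℝ | (fun i => (b i : ℂ)) ∈ φ j '' N} := fun u hu =>
      reg_meagre_XM2 hd ((h1 j).2 u hu.1) hu.2
    choose! N hN hM using hA
    obtain ⟨t, htA, htc, hcov⟩ := TopologicalSpace.countable_cover_nhdsWithin
      (f := N) (s := A) fun x hx => mem_nhdsWithin_of_mem_nhds (hN x hx)
    have : Countable t := htc.to_subtype
    have hreg := isMeagre_iUnion (fun x : t => hM x (htA x.2))
    refine (hcr.union hreg).mono ?_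
    rintro b ⟨u, hu, hb⟩
    by_cases hr : Module.finrank ℂ (LinearMap.range
        (fderiv ℂ (φ j) u : (Fin (d j) → ℂ) →ₗ[ℂ] (Fin m → ℂ))) < d j
    · exact Or.inl ⟨u, ⟨hu, hr⟩, hb⟩
    · right
      have hinj : Function.Injective (fderiv ℂ (φ j) u) := by
        have h3 := LinearMap.finrank_range_add_finrank_ker
          (fderiv ℂ (φ j) u : (Fin (d j) → ℂ) →ₗ[ℂ] (Fin m → ℂ))
        have h4 : Module.finrank ℂ (LinearMap.ker
            (fderiv ℂ (φ j) u : (Fin (d j) → ℂ) →ₗ[ℂ] (Fin m → ℂ))) = 0 := by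
          simp only [Module.finrank_fintype_fun_eq_card, Fintype.card_fin] at h3
          omega
        have h5 := Submodule.finrank_eq_zero.1 h4
        exact LinearMap.ker_eq_bot.1 h5
      obtain ⟨y, hy, hxy⟩ := mem_iUnion₂.1 (hcov ⟨hu, hinj⟩)
      exact mem_iUnion.2 ⟨⟨y, hy⟩, u, hxy, hb⟩
  refine (isMeagre_iUnion key).mono fun b hb => ?_
  obtain ⟨j, hj⟩ := mem_iUnion.1 (h2 hb)
  exact mem_iUnion.2 ⟨j, hj⟩

/-- a thin set does not contain all real points -/
theorem exists_real {S : Set (Fin m → ℂ)} (h : Weil.Thin m S) :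
    ∃ c : Fin m → ℂ, star c = c ∧ c ∉ S := by
  have h1 := thin_meagre m S le_rfl h
  obtain ⟨b, hb⟩ := (dense_of_mem_residual h1).nonempty
  refine ⟨fun i => (b i : ℂ), ?_, hb⟩
  funext i
  simp

end Pool.Agent.HIR
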