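import Pool.Agent.P.MP_65ad7c_ag.XM1
import Pool.Agent.P.MP_65ad7c_ag.XM2
import Pool.Agent.P.MP_65ad7c_ag.XM3
import Pool.Agent.P.MP_65ad7c_ag.XM4

open Set Filter Topology Asymptotics
open scoped ComplexConjugate
open Pool.Agent.HT (Amb proj cj IsChart IsSNC)
open Pool.Agent.PWV (ZC ZI Dim)

noncomputable section
namespace Pool.Agent.HIR

variable {n N : ℕ} {S : Sp n} {ph : Amb S.M → Amb (N + 1)}

theorem zc_cut_XM5 {V : Set (Fin N → ℂ)} (hV : ZC V) (c : ℕ → Fin (N + 1) → ℂ) (b : ℕ) :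
    ZC (V ∩ {y | ∀ i < b, c i ⬝ᵥ (Fin.cons 1 y : Fin (N + 1) → ℂ) = 0}) := by
  induction b with
  | zero => simpa using hV
  | succ b ih =>
    have e : V ∩ {y | ∀ i < b + 1, c i ⬝ᵥ (Fin.cons 1 y : Fin (N + 1) → ℂ) = 0} =
        (V ∩ {y | ∀ i < b, c i ⬝ᵥ (Fin.cons 1 y : Fin (N + 1) → ℂ) = 0}) ∩
          {y | c b ⬝ᵥ (Fin.cons 1 y : Fin (N + 1) → ℂ) = 0} := by
      ext y
      simp only [mem_inter_iff, mem_ofPred_eq, Nat.forall_lt_succ_right, and_assoc]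
    rw [e]
    exact ih.inter (zc_hyp _)

theorem snc_comp_XM5 {M : ℕ} {X : Set (Amb M)} {ι κ : Type} {D : ι → Set (Amb M)}
    (h : IsSNC n X D) {u : κ → ι} (hu : Function.Injective u) : IsSNC n X fun i => D (u i) := by
  refine ⟨h.compact, fun i => h.sub _, fun x hx => ?_⟩
  obtain ⟨O, f, k, h1, h2, h3, h4⟩ := h.chart x hx
  exact ⟨O, f, fun i => k (u i), h1, h2, fun i j l hi hj => hu (h3 _ _ l hi hj), fun i => h4 _⟩

theorem bert_iter (hph : HolP n S.X ph) (hr : ∀ x, ph (cj S.M x) = cj (N + 1) (ph x))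
    {V : ℕ → Set (Fin N → ℂ)} (hV : ∀ e, ZC (V e)) {k : ℕ → ℕ} (hk : ∀ e, Dim (V e) (k e)) (a : ℕ) :
    ∃ (c : ℕ → Fin (N + 1) → ℂ) (D : ℕ → Set (Amb S.M)), DivOK S D (S.r + a) ∧
      (∀ j < S.r, D j = S.D j) ∧ (∀ i < a, D (S.r + i) = hyp S.X ph (c i)) ∧
      ∀ b ≤ a, ∀ e, Dim (V e ∩ {y | ∀ i < b, c i ⬝ᵥ (Fin.cons 1 y : Fin (N + 1) → ℂ) = 0})
        (k e - b) := by
  induction a with
  | zero =>
    refine ⟨fun _ => 0, S.D, ⟨S.snc, S.fin, S.cjD⟩, fun _ _ => rfl, fun i hi => absurd hi (by omega),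
      fun b hb e => ?_⟩
    obtain rfl : b = 0 := by omega
    simpa using hk e
  | succ a ih =>
    obtain ⟨c, D, h, h1, h2, h3⟩ := ih
    have t1 := thin_tv (S := h.sp) (ph := ph) hph
    have t2 := Weil.thin_iUnion fun e : ℕ => thin_dim (zc_cut_XM5 (hV e) c a) (h3 a le_rfl e)
    obtain ⟨c0, hc0, hn⟩ := exists_real (t1.union t2)
    have n1 : Tv h.sp ph c0 := by
      by_contra hh
      exact hn (Or.inl hh)
    have n2 : ∀ e, Dim ((V e ∩ {y | ∀ i < a, c i ⬝ᵥ (Fin.cons 1 y : Fin (N + 1) → ℂ) = 0}) ∩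
        {y | c0 ⬝ᵥ (Fin.cons 1 y : Fin (N + 1) → ℂ) = 0}) (k e - a - 1) := fun e => by
      by_contra hh
      exact hn (Or.inr (mem_iUnion.2 ⟨e, hh⟩))
    have h' := n1.add hph hr hc0
    refine ⟨Function.update c a c0, Function.update D (S.r + a) (hyp S.X ph c0),
      ⟨h'.snc, h'.fin, h'.cjD⟩, fun j hj => ?_, fun i hi => ?_, fun b hb e => ?_⟩
    · rw [Function.update_of_ne (by omega), h1 j hj]
    · by_cases hia : i = a
      · subst hia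
        rw [Function.update_self, Function.update_self]
      · rw [Function.update_of_ne (by omega), Function.update_of_ne hia, h2 i (by omega)]
    · have key : ∀ b ≤ a, ∀ y : Fin N → ℂ,
          (∀ i < b, Function.update c a c0 i ⬝ᵥ (Fin.cons 1 y : Fin (N + 1) → ℂ) = 0) ↔
          ∀ i < b, c i ⬝ᵥ (Fin.cons 1 y : Fin (N + 1) → ℂ) = 0 := fun b hb y =>
        forall₂_congr fun i hi => by rw [Function.update_of_ne (by omega)]
      by_cases hba : b ≤ a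
      · simp only [key b hba]
        exact h3 b hba e
      · obtain rfl : b = a + 1 := by omega
        have e1 : V e ∩ {y | ∀ i < a + 1,
            Function.update c a c0 i ⬝ᵥ (Fin.cons 1 y : Fin (N + 1) → ℂ) = 0} =
            (V e ∩ {y | ∀ i < a, c i ⬝ᵥ (Fin.cons 1 y : Fin (N + 1) → ℂ) = 0}) ∩
              {y | c0 ⬝ᵥ (Fin.cons 1 y : Fin (N + 1) → ℂ) = 0} := by
          ext y
          simp only [mem_inter_iff, mem_ofPred_eq, Nat.forall_lt_succ_right, and_assoc, key a le_rfl,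
            Function.update_self]
        rw [e1, ← Nat.sub_sub]
        exact n2 e

/-- the divisors of the model -/
theorem exists_geo {H : MvPolynomial (Fin (N + 1)) ℂ} (hph : HolP n S.X ph)
    (hr : ∀ x, ph (cj S.M x) = cj (N + 1) (ph x))
    (hD : ∀ x ∈ S.X, (∃ j, x ∈ S.D j) ↔ ph x ∉ Wo H) (hA : LocU S {x | ph x (0, 0) = 0})
    {V : ℕ → Set (Fin N → ℂ)} (hV : ∀ e, ZC (V e)) {k : ℕ → ℕ} (hk : ∀ e, Dim (V e) (k e)) (a : ℕ) :
    ∃ (r : ℕ) (D : Fin r → Set (Amb S.M)) (al be : Finset (Fin r)) (h : Fin (a + 1) ↪ Fin r)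
      (c : Fin (a + 1) → Fin (N + 1) → ℂ), IsSNC n S.X D ∧
      (∀ i, MapsTo (cj S.M) (D i) (D i)) ∧ Disjoint al be ∧ (∀ i, h i ∉ al ∪ be) ∧
      (∀ x ∈ S.X, x ∈ ⋃ i ∈ al, D i ↔ ph x (0, 0) = 0) ∧
      (∀ x ∈ S.X, ph x (0, 0) ≠ 0 → (x ∈ ⋃ i ∈ be, D i ↔ ph x ∉ Wo H)) ∧
      (∀ i, D (h i) = hyp S.X ph (c i)) ∧
      (∀ e, Dim (V e ∩ {y | ∀ i, c i ⬝ᵥ (Fin.cons 1 y : Fin (N + 1) → ℂ) = 0}) (k e - (a + 1))) ∧
      ∀ e, Dim (V e ∩ {y | ∀ i : Fin a, c i.castSucc ⬝ᵥ (Fin.cons 1 y : Fin (N + 1) → ℂ) = 0})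
        (k e - a) := by
  classical
  have hc : MapsTo (cj S.M) {x | ph x (0, 0) = 0} {x | ph x (0, 0) = 0} := fun x hx => by
    have hx' : ph x (0, 0) = 0 := hx
    show ph (cj S.M x) (0, 0) = 0
    rw [hr, cj_apply, hx', map_zero]
  obtain ⟨D0, r0, al0, h0, hu, hal⟩ := exists_split S hA hc
  obtain ⟨c, D, h, h1, h2, h3⟩ := bert_iter (S := h0.sp) (ph := ph) hph hr hV hk (a + 1)
  have h1' : ∀ j < r0, D j = D0 j := h1
  have hlt : ∀ {j x}, x ∈ D0 j → j < r0 := fun {j x} hx => by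
    by_contra hj
    rw [h0.fin j (not_lt.1 hj)] at hx
    exact hx
  refine ⟨r0 + (a + 1), fun i => D i, Finset.univ.filter fun i => (i : ℕ) < r0 ∧ (i : ℕ) ∈ al0,
    Finset.univ.filter fun i => (i : ℕ) < r0 ∧ (i : ℕ) ∉ al0, Fin.natAddEmb r0, fun i => c i,
    snc_comp_XM5 h.snc Fin.val_injective, fun i => h.cjD _, ?_, fun i => ?_, fun x hx => ?_,
    fun x hx hx0 => ?_, fun i => h2 i i.2, fun e => ?_, fun e => ?_⟩
  · rw [Finset.disjoint_filter]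
    exact fun i _ hi hi' => hi'.2 hi.2
  · simp
  · refine Iff.trans ?_ (hal x hx).symm
    simp only [mem_iUnion, Finset.mem_filter, Finset.mem_univ, true_and, exists_prop]
    constructor
    · rintro ⟨i, ⟨hi, hi'⟩, hxi⟩
      exact ⟨i, hi', h1' i hi ▸ hxi⟩
    · rintro ⟨j, hj, hxj⟩
      have := hlt hxj
      exact ⟨⟨j, by omega⟩, ⟨this, hj⟩, (h1' j this).symm ▸ hxj⟩
  · rw [← hD x hx, ← hu x]
    simp only [mem_iUnion, Finset.mem_filter, Finset.mem_univ, true_and, exists_prop]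
    constructor
    · rintro ⟨i, ⟨hi, -⟩, hxi⟩
      exact ⟨i, h1' i hi ▸ hxi⟩
    · rintro ⟨j, hxj⟩
      have := hlt hxj
      exact ⟨⟨j, by omega⟩, ⟨this, fun hj => hx0 ((hal x hx).2 ⟨j, hj, hxj⟩)⟩,
        (h1' j this).symm ▸ hxj⟩
  · have e1 : {y : Fin N → ℂ | ∀ i : Fin (a + 1), c i ⬝ᵥ (Fin.cons 1 y : Fin (N + 1) → ℂ) = 0} =
        {y | ∀ i < a + 1, c i ⬝ᵥ (Fin.cons 1 y : Fin (N + 1) → ℂ) = 0} :=
      Set.ext fun y => ⟨fun hy i hi => hy ⟨i, hi⟩, fun hy i => hy i i.2⟩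
    rw [e1]
    exact h3 (a + 1) le_rfl e
  · have e1 : {y : Fin N → ℂ | ∀ i : Fin a,
        c (i.castSucc : ℕ) ⬝ᵥ (Fin.cons 1 y : Fin (N + 1) → ℂ) = 0} =
        {y | ∀ i < a, c i ⬝ᵥ (Fin.cons 1 y : Fin (N + 1) → ℂ) = 0} :=
      Set.ext fun y => ⟨fun hy i hi => hy ⟨i, hi⟩, fun hy i => hy i i.2⟩
    rw [e1]
    exact h3 a (by omega) e

end Pool.Agent.HIR
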