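import Pool.Agent.P.MP_65ad7c_ag.YA0

open Set Filter Topology Metric

noncomputable section
namespace Pool.Agent.PWV

variable {E : Type} [MetricSpace E] {U H : Set (E × ℂ)} {c : ℂ} {ρ : ℝ}

theorem Str.mono {W W' : Set E} {Φ : E × ℂ ≃ₜ E × ℂ} {P : Set ℂ} (h : Str H W c ρ Φ P)
    (hW : W' ⊆ W) : Str H W' c ρ Φ P :=
  ⟨h.fst, h.cball, h.ball, h.fin, fun b hb => h.mem b (hW hb)⟩

theorem image_YA1 {Φ : E × ℂ ≃ₜ E × ℂ} (h1 : ∀ p, (Φ p).1 = p.1) {S : Set ℂ}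
    (h2 : ∀ p, (Φ p).2 ∈ S ↔ p.2 ∈ S) (A : Set E) : Φ '' (A ×ˢ S) = A ×ˢ S := by
  ext q
  obtain ⟨p, rfl⟩ := Φ.surjective q
  rw [Φ.injective.mem_set_image, mem_prod, mem_prod, h1, h2]

theorem Str.image {W : Set E} {Φ : E × ℂ ≃ₜ E × ℂ} {P : Set ℂ} (h : Str H W c ρ Φ P) (A : Set E) :
    Φ '' (A ×ˢ closedBall c ρ) = A ×ˢ closedBall c ρ ∧ Φ '' (A ×ˢ Metric.ball c ρ) = A ×ˢ Metric.ball c ρ :=
  ⟨image_YA1 h.fst h.cball A, image_YA1 h.fst h.ball A⟩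

theorem rho_YA1 {ι : Type} [Fintype ι] (a : ι → ℂ) (hinj : Function.Injective a) {c : ℂ} {σ : ℝ}
    (h1 : ∀ i, ‖a i - c‖ < σ) :
    ∃ ρ : ℝ, 0 < ρ ∧ (∀ i j, j ≠ i → ρ ≤ ‖a j - a i‖) ∧ ∀ i, ρ ≤ σ - ‖a i - c‖ := by
  have e1 : ∀ᶠ ρ : ℝ in 𝓝 0, ∀ i j, j ≠ i → ρ ≤ ‖a j - a i‖ := by
    simp only [eventually_all]
    exact fun i j hij => eventually_le_nhds (norm_pos_iff.2 (sub_ne_zero.2 (hinj.ne hij)))
  have e2 : ∀ᶠ ρ : ℝ in 𝓝 0, ∀ i, ρ ≤ σ - ‖a i - c‖ :=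
    eventually_all.2 fun i => eventually_le_nhds (sub_pos.2 (h1 i))
  have e3 : ∀ᶠ ρ : ℝ in 𝓝[>] 0, 0 < ρ := self_mem_nhdsWithin
  exact (e3.and ((e1.and e2).filter_mono nhdsWithin_le_nhds)).exists

theorem straight_YA1 {B ι : Type} [TopologicalSpace B] [Fintype ι] (r : ι → B → ℂ)
    (hr : ∀ i, Continuous (r i)) (b₀ : B) (hinj : Function.Injective fun i => r i b₀)
    {c₀ : ℂ} {σ : ℝ} (h1 : ∀ i, ‖r i b₀ - c₀‖ < σ) :
    ∃ W ∈ 𝓝 b₀, ∃ Φ : B × ℂ ≃ₜ B × ℂ, (∀ p, (Φ p).1 = p.1) ∧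
      (∀ p, p.2 ∉ ball c₀ σ → Φ p = p) ∧ ∀ b ∈ W, ∀ i, Φ (b, r i b₀) = (b, r i b) := by
  classical
  obtain ⟨ρ, hρ, hρ1, hρ2⟩ := rho_YA1 _ hinj h1
  obtain ⟨δ, hδ, hδ1⟩ : ∃ δ : ℝ, 0 < δ ∧ Fintype.card ι * (δ / ρ) ≤ 1 / 2 := by
    refine ⟨ρ / (2 * (Fintype.card ι + 1)), by positivity, ?_⟩
    rw [div_div_cancel_left' hρ.ne', ← div_eq_mul_inv, div_le_div_iff₀ (by positivity) two_pos]
    linarith
  obtain ⟨χ, cχ, lχ, χ1, χ0⟩ : ∃ χ : ι → ℂ → ℝ, (∀ i, Continuous (χ i)) ∧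
      (∀ i t t', |χ i t - χ i t'| ≤ ‖t - t'‖ / ρ) ∧ (∀ i, χ i (r i b₀) = 1) ∧
      ∀ i t, ρ ≤ ‖t - r i b₀‖ → χ i t = 0 := by
    refine ⟨fun i t => max (1 - ‖t - r i b₀‖ / ρ) 0, fun i => by fun_prop, fun i t t' => ?_,
      fun i => by simp, fun i t ht => max_eq_right (sub_nonpos.2 ((one_le_div hρ).2 ht))⟩
    refine (abs_max_sub_max_le_abs _ _ _).trans ?_
    rw [sub_sub_sub_cancel_left, ← sub_div, abs_div, abs_of_pos hρ]
    refine div_le_div_of_nonneg_right ((abs_norm_sub_norm_le _ _).trans_eq ?_) hρ.le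
    rw [sub_sub_sub_cancel_right, norm_sub_rev]
  obtain ⟨c, cc, bc, ec⟩ : ∃ c : ℂ → ℂ, Continuous c ∧ (∀ z, ‖c z‖ ≤ δ) ∧
      ∀ z, ‖z‖ ≤ δ → c z = z := by
    have hm : ∀ z : ℂ, 0 < max δ ‖z‖ := fun z => lt_max_of_lt_left hδ
    refine ⟨fun z => (δ / max δ ‖z‖) • z, ?_, fun z => ?_, fun z hz => ?_⟩
    · exact (continuous_const.div (by fun_prop) fun z => (hm z).ne').smul continuous_id
    · rw [norm_smul, Real.norm_of_nonneg (div_pos hδ (hm z)).le, div_mul_eq_mul_div,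
        div_le_iff₀ (hm z)]
      exact mul_le_mul_of_nonneg_left (le_max_right _ _) hδ.le
    · simp only [max_eq_left hz, div_self hδ.ne', one_smul]
  obtain ⟨Φ, hΦ⟩ := vstraight_pert (fun p : B × ℂ => ∑ i, χ i p.2 • c (r i p.1 - r i b₀))
    (by fun_prop) fun b t t' => by
      rw [← Finset.sum_sub_distrib]
      refine (norm_sum_le_of_le _ (n := fun _ => δ / ρ * ‖t - t'‖) fun i _ => ?_).trans ?_
      · rw [← sub_smul, norm_smul, Real.norm_eq_abs]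
        refine (mul_le_mul (lχ i t t') (bc _) (norm_nonneg _) (by positivity)).trans_eq ?_
        ring
      · rw [Finset.sum_const, Finset.card_univ, nsmul_eq_mul, ← mul_assoc]
        exact mul_le_mul_of_nonneg_right hδ1 (norm_nonneg _)
  refine ⟨{b | ∀ i, ‖r i b - r i b₀‖ ≤ δ}, eventually_all.2 fun i => ?_, Φ, fun p => by rw [hΦ],
    fun p hp => ?_, fun b hb i => ?_⟩
  · have h2 : Continuous fun b => ‖r i b - r i b₀‖ := by fun_prop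
    exact (h2.tendsto b₀).eventually (eventually_le_nhds (by simpa using hδ))
  · have h2 : σ ≤ ‖p.2 - c₀‖ := by simpa [dist_eq_norm] using hp
    rw [hΦ, Finset.sum_eq_zero, add_zero]
    intro i _
    have h3 := norm_sub_norm_le (p.2 - c₀) (r i b₀ - c₀)
    rw [sub_sub_sub_cancel_right] at h3
    rw [χ0 i p.2 (by linarith [hρ2 i]), zero_smul]
  · rw [hΦ, Finset.sum_eq_single i (fun j _ hj => by rw [χ0 j _ (hρ1 j i hj.symm), zero_smul])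
      (fun h => absurd (Finset.mem_univ i) h), χ1, one_smul, ec _ (hb i), add_sub_cancel]

/-- Local straightening of the roots in a disc. -/
theorem exists_str {F W : Set E} (hF : IsClosed F) {x : E} (hx : x ∈ F) (hW : W ∈ 𝓝[F] x)
    (hr : Roots H W) (hρ : 0 < ρ) (hs : ∀ τ ∈ sphere c ρ, (x, τ) ∉ H) :
    ∃ W' ∈ 𝓝[F] x, ∃ Φ P, Str H W' c ρ Φ P := by
  classical
  obtain ⟨k, r, hrc, hrW⟩ := hr
  obtain ⟨η, hη, hηW⟩ : ∃ η > 0, closedBall x η ∩ F ⊆ W :=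
    (nhdsWithin_hasBasis nhds_basis_closedBall F).mem_iff.1 hW
  have hS : IsClosed (closedBall x η ∩ F) := isClosed_closedBall.inter hF
  have hxS : x ∈ closedBall x η ∩ F := ⟨mem_closedBall_self hη.le, hx⟩
  have hext : ∀ i, ∃ R : E → ℂ, Continuous R ∧ ∀ y ∈ closedBall x η ∩ F, R y = r i y := fun i => by
    obtain ⟨g, hg⟩ := ContinuousMap.exists_restrict_eq hS
      ⟨_, continuousOn_iff_continuous_domRestrict.1 ((hrc i).mono hηW)⟩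
    exact ⟨g, g.continuous, fun y hy => DFunLike.congr_fun hg ⟨y, hy⟩⟩
  choose R cR eR using hext
  have hinj : Function.Injective fun i : {i // R i x ∈ ball c ρ} => R i x := fun i j hij => by
    refine Subtype.ext ((hrW x (hηW hxS)).1 ?_)
    simpa only [eR _ x hxS] using hij
  obtain ⟨W0, hW0, Φ, h1, h2, h3⟩ := straight_YA1 (fun i : {i // R i x ∈ ball c ρ} => R i)
    (fun i => cR i) x hinj (c₀ := c) (σ := ρ) fun i => by simpa [dist_eq_norm] using i.2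
  have hpres : ∀ S : Set ℂ, ball c ρ ⊆ S → ∀ p, (Φ p).2 ∈ S ↔ p.2 ∈ S := fun S hS p => by
    refine not_iff_not.1 ⟨fun hp => ?_, fun hp => by rwa [h2 p fun h => hp (hS h)]⟩
    rwa [Φ.injective (h2 _ fun h => hp (hS h))] at hp
  have hout : ∀ᶠ b in 𝓝 x, ∀ i, R i x ∉ ball c ρ → R i b ∉ closedBall c ρ := by
    simp only [eventually_all]
    intro i hi
    refine (cR i).continuousAt.eventually (isClosed_closedBall.isOpen_compl.mem_nhds fun h => ?_)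
    refine hs (R i x) ?_ (((hrW x (hηW hxS)).2 _).2 ⟨i, eR i x hxS⟩)
    rw [← closedBall_sdiff_ball]
    exact ⟨h, hi⟩
  refine ⟨(W0 ∩ {b | ∀ i, R i x ∉ ball c ρ → R i b ∉ closedBall c ρ}) ∩ (closedBall x η ∩ F),
    inter_mem (mem_nhdsWithin_of_mem_nhds (inter_mem hW0 hout))
      (inter_mem (mem_nhdsWithin_of_mem_nhds (closedBall_mem_nhds x hη)) self_mem_nhdsWithin),
    Φ, range fun i : {i // R i x ∈ ball c ρ} => R i x, h1, hpres _ ball_subset_closedBall,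
    hpres _ Subset.rfl, finite_range _, fun b hb τ hτ => ⟨fun h => ?_, ?_⟩⟩
  · have e : Φ (b, τ) = (b, (Φ (b, τ)).2) := Prod.ext (h1 _) rfl
    rw [e] at h
    obtain ⟨i, hi⟩ := ((hrW b (hηW hb.2)).2 _).1 h
    rw [← eR i b hb.2] at hi
    have hin : R i x ∈ ball c ρ := by
      by_contra hn
      exact hb.1.2 i hn (hi ▸ (hpres _ ball_subset_closedBall (b, τ)).2 hτ)
    refine ⟨⟨i, hin⟩, ?_⟩
    have h4 := h3 b hb.1.1 ⟨i, hin⟩
    rw [hi] at e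
    exact congrArg Prod.snd (Φ.injective (h4.trans e.symm))
  · rintro ⟨i, rfl⟩
    rw [h3 b hb.1.1 i]
    exact ((hrW b (hηW hb.2)).2 _).2 ⟨i, eR i b hb.2⟩

theorem tube_YA1 {K : Set ℂ} (hK : IsCompact K) {V : Set (E × ℂ)} (hV : IsOpen V) :
    IsOpen {a | ∀ τ ∈ K, (a, τ) ∈ V} :=
  isOpen_iff_mem_nhds.2 fun _ ha =>
    hK.eventually_forall_of_forall_eventually (P := fun a τ => (a, τ) ∈ V)
      fun τ hτ => hV.mem_nhds (ha τ hτ)

theorem nice_open (hU : IsOpen U) (hH : IsClosed H) (c : ℂ) (ρ : ℝ) : IsOpen (Nice U H c ρ) :=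
  (tube_YA1 (isCompact_closedBall c ρ) hU).inter (tube_YA1 (isCompact_sphere c ρ) hH.isOpen_compl)

theorem scale_YA1 {A : Set E} (hA : IsCompact A) {K : Set ℂ} (hK : IsCompact K) {V : Set (E × ℂ)}
    (hV : IsOpen V) (h : ∀ a ∈ A, ∀ u ∈ K, (a, c + (ρ : ℂ) * u) ∈ V) :
    ∀ᶠ s : ℝ in 𝓝 ρ, ∀ q ∈ A ×ˢ K, (q.1, c + (s : ℂ) * q.2) ∈ V := by
  refine (hA.prod hK).eventually_forall_of_forall_eventually
    (P := fun (s : ℝ) (q : E × ℂ) => (q.1, c + (s : ℂ) * q.2) ∈ V) fun q hq => ?_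
  have hc : Continuous fun z : ℝ × E × ℂ => (z.2.1, c + (z.1 : ℂ) * z.2.2) := by fun_prop
  exact hc.continuousAt.eventually (hV.mem_nhds (h q.1 hq.1 q.2 hq.2))

theorem nice_right (hU : IsOpen U) (hH : IsClosed H) {A : Set E} (hA : IsCompact A) (hρ : 0 ≤ ρ)
    (h : A ⊆ Nice U H c ρ) : ∀ᶠ s in 𝓝[>] ρ, A ⊆ Nice U H c s := by
  have hd : ∀ u : ℂ, dist (c + (ρ : ℂ) * u) c = ρ * ‖u‖ := fun u => by
    rw [dist_eq_norm, add_sub_cancel_left, norm_mul, Complex.norm_real, Real.norm_of_nonneg hρ]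
  have e1 := scale_YA1 (c := c) (ρ := ρ) hA (isCompact_closedBall (0 : ℂ) 1) hU fun a ha u hu =>
    (h ha).1 _ (by
      rw [mem_closedBall, hd]
      exact mul_le_of_le_one_right hρ (by simpa using hu))
  have e2 := scale_YA1 (c := c) (ρ := ρ) hA (isCompact_sphere (0 : ℂ) 1) hH.isOpen_compl
    fun a ha u hu => (h ha).2 _ (by
      rw [mem_sphere, hd, (by simpa using hu : ‖u‖ = 1), mul_one])
  filter_upwards [mem_nhdsWithin_of_mem_nhds e1, mem_nhdsWithin_of_mem_nhds e2,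
    self_mem_nhdsWithin] with s h1 h2 hs a ha
  have hs0 : 0 < s := hρ.trans_lt hs
  have hs1 : (s : ℂ) ≠ 0 := Complex.ofReal_ne_zero.2 hs0.ne'
  have hτ : ∀ τ : ℂ, c + (s : ℂ) * ((τ - c) / s) = τ := fun τ => by field_simp; ring
  have hn : ∀ τ : ℂ, ‖(τ - c) / s‖ = dist τ c / s := fun τ => by
    rw [norm_div, Complex.norm_real, Real.norm_of_nonneg hs0.le, dist_eq_norm]
  refine ⟨fun τ hτ' => ?_, fun τ hτ' => ?_⟩
  · have h3 := h1 (a, (τ - c) / s) ⟨ha, by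
      rw [mem_closedBall_zero_iff, hn]
      exact (div_le_one hs0).2 hτ'⟩
    rwa [hτ] at h3
  · have h3 := h2 (a, (τ - c) / s) ⟨ha, by
      rw [mem_sphere_zero_iff_norm, hn, mem_sphere.1 hτ', div_self hs0.ne']⟩
    rwa [hτ] at h3

theorem nice_small (hU : IsOpen U) {a : E} (ha : (a, c) ∈ U) (hf : {τ | (a, τ) ∈ H}.Finite) :
    ∃ s > 0, a ∈ Nice U H c s ∧ ∀ τ ∈ closedBall c s, τ ≠ c → (a, τ) ∉ H := by
  have e1 : {τ | (a, τ) ∈ U} ∈ 𝓝 c :=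
    (hU.preimage (by fun_prop : Continuous fun τ : ℂ => (a, τ))).mem_nhds ha
  have e2 : ({τ | (a, τ) ∈ H} \ {c})ᶜ ∈ 𝓝 c :=
    (hf.subset sdiff_subset).isClosed.isOpen_compl.mem_nhds fun h => h.2 rfl
  obtain ⟨s, hs, hsub⟩ := nhds_basis_closedBall.mem_iff.1 (inter_mem e1 e2)
  have h1 : ∀ τ ∈ closedBall c s, τ ≠ c → (a, τ) ∉ H := fun τ hτ hne h => (hsub hτ).2 ⟨h, hne⟩
  refine ⟨s, hs, ⟨fun τ hτ => (hsub hτ).1, fun τ hτ => h1 τ (sphere_subset_closedBall hτ) ?_⟩, h1⟩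
  rintro rfl
  simp only [mem_sphere, dist_self] at hτ
  exact hs.ne hτ

end Pool.Agent.PWV
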