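import Pool.Agent.P.MP_65ad7c_ag.YA1

open Set Filter Topology Metric

noncomputable section
namespace Pool.Agent.PWV

variable {X : Cx} {E T : Type} [MetricSpace E] [MetricSpace T]

namespace FC

theorem push_ZT (Q : FC X (E × ℂ)) {K : Set ℂ} (hK : IsCompact K) (A : Set E) :
    (Q.push K).ZT A = Q.ZT (A ×ˢ K) := by
  have hC : IsClosed ((univ : Set E) ×ˢ K) := isClosed_univ.prod hK.isClosed
  have : CompactSpace K := isCompact_iff_compactSpace.1 hK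
  rw [push, (supp_res Q hC).map_ZT hC (fstC E ℂ) fun D hD hc => ?_, res_ZT Q hC]
  · congr 1
    ext x
    simp [fstC]
  · have h1 := isClosedMap_fst_of_compactSpace (X := E) (Y := K) _
      (hc.preimage (continuous_fst.prodMk (continuous_subtype_val.comp continuous_snd)))
    convert h1 using 1
    ext y
    exact ⟨fun ⟨x, hx, e⟩ => ⟨(x.1, ⟨x.2, (hD hx).2⟩), hx, e⟩, fun ⟨x, hx, e⟩ => ⟨_, hx, e⟩⟩

theorem push_ex (Q : FC X (E × ℂ)) {K : Set ℂ} (hK : IsCompact K) (n : ℤ) (A B : Set E) :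
    (Q.push K).Ex n A B ↔ Q.Ex n (A ×ˢ K) (B ×ˢ K) := by
  rw [Ex, push_ZT Q hK, push_ZT Q hK, Ex]

theorem pc_slice (Q : FC X (E × ℂ)) (τ : ℂ) {S : Set E} (h : (Q.push {τ}).PC S) :
    Q.PC (S ×ˢ {τ}) := by
  intro γ hc hi hm n
  have e : ∀ s ∈ Icc (0 : ℝ) 1, γ s = ((γ s).1, τ) := fun s hs => Prod.ext rfl (hm hs).2
  have h1 := (push_ex Q isCompact_singleton n _ _).1 (h (fun s => (γ s).1) hc.fst
    (fun a ha b hb hab => hi ha hb (by rw [e a ha, e b hb]; exact Prod.ext hab rfl))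
    (fun s hs => (hm hs).1) n)
  have e1 : ((fun s => (γ s).1) '' Icc 0 1) ×ˢ ({τ} : Set ℂ) = γ '' Icc 0 1 := by
    ext ⟨x, t⟩
    constructor
    · rintro ⟨⟨s, hs, rfl⟩, rfl⟩
      exact ⟨s, hs, e s hs⟩
    · rintro ⟨s, hs, h2⟩
      exact ⟨⟨s, hs, congrArg Prod.fst h2⟩, by rw [← h2]; exact (hm hs).2⟩
  rw [e1, singleton_prod_singleton, ← e 0 (left_mem_Icc.2 zero_le_one)] at h1
  exact h1

theorem ex_split (Q : FC X T) {A₁ A₂ B₁ B₂ : Set T} (h1 : IsClosed A₁) (h2 : IsClosed A₂)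
    (hd : Disjoint A₁ A₂) (b1 : B₁ ⊆ A₁) (b2 : B₂ ⊆ A₂) {n : ℤ}
    (h : Q.Ex n (A₁ ∪ A₂) (B₁ ∪ B₂)) : Q.Ex n A₁ B₁ := by
  intro v hv hdv
  have ht : v ∈ (Q.ZT A₁ ⊔ Q.ZT A₂) (n + 1) := by
    rw [← ZT_inter Q (sep_of_isClosed h1 h2), hd.inter_eq, ZT_empty]
    exact hv.1
  obtain ⟨a, ha, b, hb, rfl⟩ := Submodule.mem_sup.1 ht
  have hb1 : b ∈ Q.ZT (B₁ ∪ B₂) (n + 1) := by
    rw [ZT_union]
    refine ⟨?_, ZT_anti b2 _ hb⟩
    have := sub_mem hv (ZT_anti b1 _ ha)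
    rwa [add_sub_cancel_left] at this
  have hb2 : X.d (n + 1) b ∈ Q.ZT (A₁ ∪ A₂) (n + 1 + 1) := by
    rw [ZT_union]
    refine ⟨?_, Q.ZT_stab _ _ _ hb⟩
    have := sub_mem hdv (Q.ZT_stab _ _ _ ha)
    rwa [map_add, add_sub_cancel_left] at this
  obtain ⟨w, hw, hw'⟩ := h b hb1 hb2
  refine ⟨w, ZT_anti subset_union_left _ hw, ?_⟩
  rw [add_sub_assoc]
  exact add_mem ha (ZT_anti subset_union_left _ hw')

theorem arc_YA2 (Q : FC X (E × ℂ)) {K P : Set ℂ} (hK : IsCompact K) (hP : IsClosed P) {U : Set E}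
    (h : ∀ t ∈ K, t ∉ P → Q.PC (U ×ˢ {t})) {γ : ℝ → E}
    (hc : ContinuousOn γ (Icc 0 1)) (hi : InjOn γ (Icc 0 1)) (hm : MapsTo γ (Icc 0 1) U) (n : ℤ) :
    Q.Ex n ((γ '' Icc 0 1) ×ˢ K) ((γ '' Icc 0 1) ×ˢ (P ∩ K) ∪ {γ 0} ×ˢ K) := by
  have hA := isCompact_Icc.image_of_continuousOn hc
  refine lg Q (hA.prod hK)
    ((hA.isClosed.prod (hP.inter hK.isClosed)).union (isClosed_singleton.prod hK.isClosed))
    (union_subset (prod_mono Subset.rfl inter_subset_right)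
      (prod_mono (singleton_subset_iff.2 ⟨0, left_mem_Icc.2 zero_le_one, rfl⟩) Subset.rfl))
    Prod.snd continuous_snd.continuousOn n fun t i _ => ?_
  by_cases ht : t ∈ K ∧ t ∉ P
  · have e1 : (γ '' Icc 0 1) ×ˢ K ∩ Prod.snd ⁻¹' {t} = (fun s => (γ s, t)) '' Icc 0 1 := by
      ext ⟨x, τ⟩
      constructor
      · rintro ⟨⟨⟨s, hs, rfl⟩, -⟩, rfl⟩
        exact ⟨s, hs, rfl⟩
      · rintro ⟨s, hs, e⟩
        cases e
        exact ⟨⟨⟨s, hs, rfl⟩, ht.1⟩, rfl⟩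
    have e2 : (((γ '' Icc 0 1) ×ˢ (P ∩ K) ∪ {γ 0} ×ˢ K) ∩ Prod.snd ⁻¹' {t} : Set (E × ℂ)) =
        {(γ 0, t)} := by
      ext ⟨x, τ⟩
      constructor
      · rintro ⟨⟨-, h1, -⟩ | ⟨rfl, -⟩, rfl⟩
        · exact (ht.2 h1).elim
        · rfl
      · intro e
        cases e
        exact ⟨Or.inr ⟨rfl, ht.1⟩, rfl⟩
    rw [e1, e2]
    exact h t ht.1 ht.2 (fun s => (γ s, t)) (hc.prodMk continuousOn_const)
      (fun a ha b hb e => hi ha hb (congrArg Prod.fst e)) (fun s hs => ⟨hm hs, rfl⟩) i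
  · have e : (((γ '' Icc 0 1) ×ˢ (P ∩ K) ∪ {γ 0} ×ˢ K) ∩ Prod.snd ⁻¹' {t} : Set (E × ℂ)) =
        (γ '' Icc 0 1) ×ˢ K ∩ Prod.snd ⁻¹' {t} := by
      ext ⟨x, τ⟩
      constructor
      · rintro ⟨⟨h0, -, h1⟩ | ⟨rfl, h1⟩, rfl⟩
        · exact ⟨⟨h0, h1⟩, rfl⟩
        · exact ⟨⟨⟨0, left_mem_Icc.2 zero_le_one, rfl⟩, h1⟩, rfl⟩
      · rintro ⟨⟨h0, h1⟩, rfl⟩
        exact ⟨Or.inl ⟨h0, by_contra fun h2 => ht ⟨h1, h2⟩, h1⟩, rfl⟩
    rw [e]
    exact ex_self Q i _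

variable {Q : FC X (E × ℂ)} {H : Set (E × ℂ)} {W : Set E} {c : ℂ} {ρ : ℝ} {Φ : E × ℂ ≃ₜ E × ℂ}
  {P : Set ℂ}

/-- Direct images along a straightened disc bundle. -/
theorem ta_str (h : Str H W c ρ Φ P) (p0 : Q.PC (W ×ˢ closedBall c ρ \ H))
    (p1 : Q.PC (W ×ˢ closedBall c ρ ∩ H)) : (Q.push (closedBall c ρ)).PC W := by
  have tr := tr_comap Q Φ.isInducing
  have hpc : ∀ t ∈ closedBall c ρ, t ∉ (∅ : Set ℂ) → (Q.comap _ Φ.isInducing).PC (W ×ˢ {t}) := by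
    intro t ht _
    refine (tr.pc Φ.isEmbedding _).2 ?_
    by_cases hP : t ∈ P
    · refine p1.mono ?_
      rintro _ ⟨⟨b, τ⟩, ⟨hb, rfl⟩, rfl⟩
      exact ⟨⟨by rw [h.fst]; exact hb, (h.cball _).2 ht⟩, (h.mem b hb _ ht).2 hP⟩
    · refine p0.mono ?_
      rintro _ ⟨⟨b, τ⟩, ⟨hb, rfl⟩, rfl⟩
      exact ⟨⟨by rw [h.fst]; exact hb, (h.cball _).2 ht⟩, fun h1 => hP ((h.mem b hb _ ht).1 h1)⟩
  intro γ hc hi hm n
  have hsub : ({γ 0} : Set E) ⊆ γ '' Icc 0 1 :=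
    singleton_subset_iff.2 ⟨0, left_mem_Icc.2 zero_le_one, rfl⟩
  refine (push_ex Q (isCompact_closedBall c ρ) n _ _).2 ?_
  have h1 := arc_YA2 _ (isCompact_closedBall c ρ) isClosed_empty hpc hc hi hm n
  rw [empty_inter, prod_empty, empty_union] at h1
  have h2 := (tr n _ _ (prod_mono hsub Subset.rfl)).1 h1
  rwa [(h.image _).1, (h.image _).1] at h2

/-- Descent along a straightened disc bundle. -/
theorem fd_str (h : Str H W c ρ Φ P) (p0 : Q.PC (W ×ˢ closedBall c ρ \ H))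
    (p1 : (Q.push (closedBall c ρ)).PC W) : Q.PC (W ×ˢ closedBall c ρ ∩ H) := by
  have tr := tr_comap Q Φ.isInducing
  have hK := isCompact_closedBall c ρ
  have hpc : ∀ t ∈ closedBall c ρ, t ∉ P → (Q.comap _ Φ.isInducing).PC (W ×ˢ {t}) := by
    intro t ht hP
    refine (tr.pc Φ.isEmbedding _).2 (p0.mono ?_)
    rintro _ ⟨⟨b, τ⟩, ⟨hb, rfl⟩, rfl⟩
    exact ⟨⟨by rw [h.fst]; exact hb, (h.cball _).2 ht⟩, fun h1 => hP ((h.mem b hb _ ht).1 h1)⟩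
  have hf : (P ∩ closedBall c ρ).Finite := h.fin.inter_of_left _
  have key : ∀ t ∈ P ∩ closedBall c ρ, (Q.comap _ Φ.isInducing).PC (W ×ˢ {t}) := by
    intro t ht
    refine pc_slice _ t fun γ hc hi hm n => (push_ex _ isCompact_singleton n _ _).2 ?_
    have hsub : ({γ 0} : Set E) ⊆ γ '' Icc 0 1 :=
      singleton_subset_iff.2 ⟨0, left_mem_Icc.2 zero_le_one, rfl⟩
    have hA := (isCompact_Icc.image_of_continuousOn hc).isClosed
    have a1 : (Q.comap _ Φ.isInducing).Acyc ((γ '' Icc 0 1) ×ˢ closedBall c ρ)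
        ({γ 0} ×ˢ closedBall c ρ) := fun m => by
      refine (tr m _ _ (prod_mono hsub Subset.rfl)).2 ?_
      rw [(h.image _).1, (h.image _).1]
      exact (push_ex Q hK m _ _).1 (p1 γ hc hi hm m)
    have a2 := Acyc.right (union_subset (prod_mono Subset.rfl inter_subset_right)
      (prod_mono hsub Subset.rfl)) subset_union_right a1
      fun m => arc_YA2 _ hK h.fin.isClosed hpc hc hi hm m
    have a3 := (ex_exc _ (sep_of_isClosed (hA.prod hf.isClosed)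
      (isClosed_singleton.prod hK.isClosed))).1 (a2 n)
    have e : P ∩ closedBall c ρ = {t} ∪ (P ∩ closedBall c ρ) \ {t} := by
      rw [union_sdiff_self, union_eq_self_of_subset_left (singleton_subset_iff.2 ht)]
    rw [prod_inter_prod, inter_eq_self_of_subset_right hsub, inter_assoc, inter_self, e,
      prod_union, prod_union] at a3
    exact ex_split _ (hA.prod isClosed_singleton) (hA.prod (hf.subset sdiff_subset).isClosed)
      (disjoint_left.2 fun p h1 h2 => h2.2.2 h1.2) (prod_mono hsub Subset.rfl)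
      (prod_mono hsub Subset.rfl) a3
  have all : (Q.comap _ Φ.isInducing).PC (W ×ˢ (P ∩ closedBall c ρ)) := by
    intro γ hc hi hm
    have h0 : (0 : ℝ) ∈ Icc (0 : ℝ) 1 := left_mem_Icc.2 zero_le_one
    exact key _ (hm h0).2 γ hc hi fun s hs => ⟨(hm hs).1,
      isPreconnected_Icc.constant_of_mapsTo hf.isDiscrete hc.snd (fun s hs => (hm hs).2) hs h0⟩
  refine ((tr.pc Φ.isEmbedding _).1 all).mono ?_
  rintro p ⟨⟨h1, h2⟩, h3⟩
  obtain ⟨⟨b, τ⟩, rfl⟩ := Φ.surjective p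
  rw [h.fst] at h1
  have h4 := (h.cball _).1 h2
  exact ⟨(b, τ), ⟨h1, (h.mem b h1 τ h4).1 h3, h4⟩, rfl⟩

end FC

end Pool.Agent.PWV
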