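import Pool.Agent.P.MP_65ad7c_ag.YA2

open Set Filter Topology Metric

noncomputable section
namespace Pool.Agent.PWV

variable {X : Cx} {E T T' : Type} [MetricSpace E] [MetricSpace T] [MetricSpace T']

namespace FC

variable {Q : FC X T} {A C S W W' : Set T}

theorem loc_loc (Q : FC X T) (hW : IsOpen W) (hW' : IsOpen W') :
    (Q.loc W).loc W' = Q.loc (W ∩ W') := by
  refine FC.ext rfl ?_
  funext n y
  refine Submodule.ext fun v => ?_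
  rw [mem_loc_z _ hW', mem_loc_z _ (hW.inter hW')]
  constructor
  · intro h
    filter_upwards [nhdsWithin_mono y inter_subset_right h, self_mem_nhdsWithin] with x h1 h2
    exact ((mem_loc_z Q hW).1 h1).self_of_nhdsWithin h2.1
  · intro h
    obtain ⟨N, hN, hy, hs⟩ := mem_nhdsWithin.1 h
    filter_upwards [nhdsWithin_le_nhds (hN.mem_nhds hy), self_mem_nhdsWithin] with x h1 h2
    rw [mem_loc_z Q hW]
    filter_upwards [nhdsWithin_le_nhds ((hN.inter hW').mem_nhds ⟨h1, h2⟩), self_mem_nhdsWithin]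
      with x' h3 h4
    exact hs ⟨h3.1, h4, h3.2⟩

theorem comap_loc (Q : FC X T) (hW : IsOpen W) {φ : T' → T} (hφ : IsHomeomorph φ) :
    (Q.loc W).comap φ hφ.isInducing = (Q.comap φ hφ.isInducing).loc (φ ⁻¹' W) := by
  refine FC.ext rfl ?_
  funext n y
  refine Submodule.ext fun v => ?_
  rw [mem_loc_z _ (hW.preimage hφ.continuous)]
  show v ∈ (Q.loc W).z n (φ y) ↔ ∀ᶠ x in 𝓝[φ ⁻¹' W] y, v ∈ Q.z n (φ x)
  rw [mem_loc_z _ hW, ← hφ.isOpenEmbedding.map_nhdsWithin_preimage_eq W y, eventually_map]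

theorem loc_le_YA3 (Q : FC X T) (hW : IsOpen W) (hW' : IsOpen W') {M : Set T} (hM : IsOpen M)
    (h : W' ∩ M ⊆ W) (hA : A ⊆ M) : (Q.loc W).ZT A ≤ (Q.loc W').ZT A := by
  intro n v hv
  obtain ⟨N, hN, hAN, hv⟩ := (mem_loc_ZT Q hW).1 hv
  refine (mem_loc_ZT Q hW').2 ⟨N ∩ M, hN.inter hM, subset_inter hAN hA, ZT_anti ?_ n hv⟩
  exact fun x hx => ⟨hx.1.1, h ⟨hx.2, hx.1.2⟩⟩

theorem loc_congr (Q : FC X T) (hW : IsOpen W) (hW' : IsOpen W') {M : Set T} (hM : IsOpen M)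
    (h : W ∩ M = W' ∩ M) (hA : A ⊆ M) : (Q.loc W).ZT A = (Q.loc W').ZT A :=
  le_antisymm (loc_le_YA3 Q hW hW' hM (h ▸ inter_subset_left) hA)
    (loc_le_YA3 Q hW' hW hM (h ▸ inter_subset_left) hA)

theorem gam_loc_eq (hW : IsOpen W) (h : Q.loc W = Q) (D : Set T) : (Q.gam D).loc W = Q.gam D := by
  refine FC.ext rfl ?_
  show (Q.loc W).z = Q.z
  rw [h]

theorem Supp.loc {Y Y' : Set T} (h : Q.Supp Y) (hW : IsOpen W) (hY : IsClosed Y')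
    (hs : Y ∩ W ⊆ Y') : (Q.loc W).Supp Y' := by
  intro n v hv x hx
  rw [mem_loc_z Q hW]
  filter_upwards [nhdsWithin_le_nhds (hY.isOpen_compl.mem_nhds hx), self_mem_nhdsWithin]
    with y h1 h2
  exact h n v hv y fun h3 => h1 (hs ⟨h3, h2⟩)

omit [MetricSpace T] in
theorem sub_YA3 (γ : ℝ → T) : {γ 0} ⊆ γ '' Icc 0 1 :=
  singleton_subset_iff.2 ⟨0, left_mem_Icc.2 zero_le_one, rfl⟩

theorem ex_loc_YA3 (hW : IsOpen W) (hA : A ⊆ W) {B : Set T} (hB : B ⊆ A) {n : ℤ} :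
    (Q.loc W).Ex n A B ↔ Q.Ex n A B := by
  rw [Ex, Ex, loc_ZT_sub Q hW hA, loc_ZT_sub Q hW (hB.trans hA)]

theorem pc_loc_iff (hW : IsOpen W) (hS : S ⊆ W) : (Q.loc W).PC S ↔ Q.PC S := by
  refine forall_congr' fun γ => forall₃_congr fun _ _ h3 => forall_congr' fun n => ?_
  exact ex_loc_YA3 hW (h3.image_subset.trans hS) (sub_YA3 γ)

theorem ex_loc_iff (hW : IsOpen W) (hA : A ⊆ W) {B : Set T} (hB : B ⊆ A) {n : ℤ} :
    (Q.loc W).Ex n A B ↔ Q.Ex n A B :=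
  ex_loc_YA3 hW hA hB

theorem ex_gam_loc_iff (hW : IsOpen W) (hC : IsClosed C) (hCW : Cᶜ ⊆ W) (hA : A ⊆ W) {B : Set T}
    (hB : B ⊆ A) {n : ℤ} : ((Q.loc W).gam C).Ex n A B ↔ (Q.gam C).Ex n A B := by
  rw [gam_ex _ hC, gam_ex _ hC]
  exact ex_loc_YA3 hW (union_subset hA hCW) (union_subset_union_left _ hB)

theorem pc_tri_mid (hC : IsClosed C) (h1 : (Q.gam C).PC S) (h3 : (Q.loc Cᶜ).PC S) : Q.PC S :=
  fun γ a b c n => tri_mid hC (sub_YA3 γ) (h1 γ a b c n) (h3 γ a b c n)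

theorem pc_tri_left (hC : IsClosed C) (h2 : Q.PC S) (h3 : (Q.loc Cᶜ).PC S) : (Q.gam C).PC S := by
  intro γ a b c n
  obtain ⟨m, rfl⟩ : ∃ m, n = m + 1 := ⟨n - 1, by ring⟩
  exact tri_left hC (sub_YA3 γ) (h2 γ a b c (m + 1)) (h3 γ a b c m)

theorem Supp.push {R : FC X (E × ℂ)} {Y : Set (E × ℂ)} (h : R.Supp Y) (K : Set ℂ) {Y' : Set E}
    (hY : IsClosed Y') (hs : ∀ p ∈ Y, p.1 ∈ Y') : (R.push K).Supp Y' := by
  intro n v hv y hy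
  refine eventually_comap.2 ?_
  filter_upwards [hY.isOpen_compl.mem_nhds hy] with y' h1 x hx
  show v ∈ ⨅ _ : x ∈ closure (univ ×ˢ K), R.z n x
  rw [Submodule.mem_iInf]
  refine fun _ => h n v hv x fun h2 => h1 ?_
  rw [← hx]
  exact hs x h2

/-- Localisation commutes with finite direct images. -/
theorem cm1 {R : FC X (E × ℂ)} {H : Set (E × ℂ)} (h : R.Supp H) (hH : IsClosed H) {B A : Set E}
    (hB : IsClosed B) {c : ℂ} {ρ : ℝ} (hA : ∀ a ∈ A, ∀ τ ∈ sphere c ρ, (a, τ) ∉ H) :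
    ((R.loc (Bᶜ ×ˢ univ)).push (closedBall c ρ)).ZT A =
      ((R.push (closedBall c ρ)).loc Bᶜ).ZT A := by
  have hK : IsCompact (closedBall c ρ) := isCompact_closedBall c ρ
  have hV : IsOpen (Bᶜ ×ˢ (univ : Set ℂ)) := hB.isOpen_compl.prod isOpen_univ
  rw [push_ZT _ hK]
  refine vb2_ext fun n v => ?_
  rw [mem_loc_ZT _ hV, mem_loc_ZT _ hB.isOpen_compl]
  constructor
  · rintro ⟨M, hM, hAM, hv⟩
    refine ⟨{a | ∀ τ ∈ closedBall c ρ, (a, τ) ∈ M}, ?_, fun a ha τ hτ => hAM ⟨ha, hτ⟩, ?_⟩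
    · rw [isOpen_iff_mem_nhds]
      intro a ha
      exact hK.eventually_forall_of_forall_eventually (P := fun a τ => (a, τ) ∈ M)
        fun τ hτ => hM.mem_nhds (ha τ hτ)
    · rw [push_ZT _ hK]
      refine ZT_anti ?_ n hv
      exact fun p hp => ⟨hp.1.1 p.2 hp.2, hp.1.2, mem_univ _⟩
  · rintro ⟨N, hN, hAN, hv⟩
    rw [push_ZT _ hK] at hv
    refine ⟨N ×ˢ ball c ρ ∪ Hᶜ, (hN.prod isOpen_ball).union hH.isOpen_compl, ?_, ?_⟩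
    · rintro ⟨a, τ⟩ ⟨ha, hτ⟩
      rcases (mem_closedBall.1 hτ).lt_or_eq with h1 | h1
      · exact Or.inl ⟨hAN ha, h1⟩
      · exact Or.inr (hA a ha τ h1)
    · refine mem_ZT.2 ⟨hv.1, fun p hp => ?_⟩
      rcases hp.1 with h1 | h1
      · exact (mem_ZT.1 hv).2 p ⟨⟨h1.1, hp.2.1⟩, ball_subset_closedBall h1.2⟩
      · exact h n v hv.1 p h1

theorem key_YA3 (R : FC X (E × ℂ)) {U : Set (E × ℂ)} (hU : IsOpen U) {Δ : Set E}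
    (hΔ : IsClosed Δ) {O : Set ℂ} (hO : IsOpen O) (S : Set E) {m : ℤ} (x : X.V m) :
    x ∈ ((R.pushO (U ∩ univ ×ˢ O)).loc Δᶜ).ZT S m ↔
      ∃ N, IsOpen N ∧ S ⊆ N ∧ x ∈ R.ZT (N ×ˢ O ∩ (U ∩ Δᶜ ×ˢ univ)) m := by
  rw [mem_loc_ZT _ hΔ.isOpen_compl]
  refine exists_congr fun N => and_congr_right fun hN => and_congr_right fun _ => ?_
  have h1 := hN.inter hΔ.isOpen_compl
  rw [pushO, map_ZT_open _ _ h1, loc_ZT_open _ (hU.inter (isOpen_univ.prod hO))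
    (h1.preimage (fstC E ℂ).continuous)]
  have e : (fstC E ℂ) ⁻¹' (N ∩ Δᶜ) ∩ (U ∩ univ ×ˢ O) = N ×ˢ O ∩ (U ∩ Δᶜ ×ˢ univ) := by
    ext p
    exact ⟨fun h => ⟨⟨h.1.1, h.2.2.2⟩, h.2.1, h.1.2, mem_univ _⟩,
      fun h => ⟨⟨h.1.1, h.2.2.1⟩, h.2.1, mem_univ _, h.1.2⟩⟩
  rw [e]

/-- Closed discs are limits of open discs. -/
theorem cm2 (R : FC X (E × ℂ)) {U : Set (E × ℂ)} (hU : IsOpen U) {Δ A B : Set E} (hΔ : IsClosed Δ)
    (hA : IsCompact A) (hB : IsCompact B) {c : ℂ} {ρ : ℝ} (hρ : 0 ≤ ρ) {n : ℤ}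
    (h : ∀ᶠ s in 𝓝[>] ρ, ((R.pushO (U ∩ univ ×ˢ ball c s)).loc Δᶜ).Ex n A B) :
    ((R.loc (U ∩ Δᶜ ×ˢ univ)).push (closedBall c ρ)).Ex n A B := by
  have hK : IsCompact (closedBall c ρ) := isCompact_closedBall c ρ
  have hV : IsOpen (U ∩ Δᶜ ×ˢ (univ : Set ℂ)) := hU.inter (hΔ.isOpen_compl.prod isOpen_univ)
  rw [push_ex _ hK]
  intro v hv hd
  obtain ⟨MB, hMB, sB, hv⟩ := (mem_loc_ZT _ hV).1 hv
  obtain ⟨MA, hMA, sA, hd⟩ := (mem_loc_ZT _ hV).1 hd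
  obtain ⟨uB, wB, huB, hwB, b1, b2, b3⟩ := generalized_tube_lemma hB hK hMB sB
  obtain ⟨uA, wA, huA, hwA, a1, a2, a3⟩ := generalized_tube_lemma hA hK hMA sA
  obtain ⟨δ, hδ, hs⟩ := hK.exists_thickening_subset_open (hwA.inter hwB) (subset_inter a2 b2)
  rw [thickening_closedBall hδ hρ] at hs
  have h2 : ∀ᶠ s in 𝓝[>] ρ, s ∈ Ioo ρ (δ + ρ) := Ioo_mem_nhdsGT (by linarith)
  obtain ⟨s, h3, h4⟩ := (h.and h2).exists
  have h5 : ball c s ⊆ wA ∩ wB := (ball_subset_ball h4.2.le).trans hs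
  have h6 : closedBall c ρ ⊆ ball c s := closedBall_subset_ball h4.1
  have eB : uB ×ˢ ball c s ∩ (U ∩ Δᶜ ×ˢ univ) ⊆ MB ∩ (U ∩ Δᶜ ×ˢ univ) :=
    fun p hp => ⟨b3 ⟨hp.1.1, (h5 hp.1.2).2⟩, hp.2⟩
  have eA : uA ×ˢ ball c s ∩ (U ∩ Δᶜ ×ˢ univ) ⊆ MA ∩ (U ∩ Δᶜ ×ˢ univ) :=
    fun p hp => ⟨a3 ⟨hp.1.1, (h5 hp.1.2).1⟩, hp.2⟩
  obtain ⟨w, hw, hw'⟩ := h3 v
    ((key_YA3 R hU hΔ isOpen_ball B v).2 ⟨uB, huB, b1, ZT_anti eB _ hv⟩)
    ((key_YA3 R hU hΔ isOpen_ball A _).2 ⟨uA, huA, a1, ZT_anti eA _ hd⟩)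
  obtain ⟨N, hN, n1, n2⟩ := (key_YA3 R hU hΔ isOpen_ball B w).1 hw
  obtain ⟨N', hN', m1, m2⟩ := (key_YA3 R hU hΔ isOpen_ball A _).1 hw'
  exact ⟨w, (mem_loc_ZT _ hV).2 ⟨_, hN.prod isOpen_ball, prod_mono n1 h6, n2⟩,
    (mem_loc_ZT _ hV).2 ⟨_, hN'.prod isOpen_ball, prod_mono m1 h6, m2⟩⟩

end FC

end Pool.Agent.PWV
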