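import Pool.Agent.P.MP_65ad7c_ag.YA3
import Pool.Agent.P.MP_65ad7c_ag.VProd

open Set Filter Topology Metric

noncomputable section
namespace Pool.Agent.PWV

variable {X : Cx} {E : Type} [NormedAddCommGroup E] [NormedSpace ℝ E] [FiniteDimensional ℝ E]

namespace FC

theorem pc_prod_YA4 (Q : FC X E) (R : FC X (E × ℂ)) {W : Set E} (hW : IsOpen W) {Ω : Set ℂ}
    (hΩ : IsOpen Ω) (hZ : ∀ A, IsOpen A → A ⊆ W → Q.ZT A = R.ZT (A ×ˢ Ω))
    (hP : R.PC (W ×ˢ Ω)) : Q.PC W := by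
  have : ProperSpace E := FiniteDimensional.proper_real E
  refine pc_local fun y hy => ?_
  obtain ⟨r, hr, hrW⟩ := (nhds_basis_closedBall.mem_iff).1 (hW.mem_nhds hy)
  refine ⟨closedBall y r, nhdsWithin_le_nhds (closedBall_mem_nhds y hr), pc_of_acyc fun x hx => ?_⟩
  have hK : IsCompact (closedBall y r) := isCompact_closedBall y r
  have hc : Convex ℝ (closedBall y r) := convex_closedBall y r
  generalize closedBall y r = K at hrW hx hK hc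
  intro n v hv hdv
  obtain ⟨hv0, hv1⟩ := mem_ZT.1 hv
  obtain ⟨hd0, hd1⟩ := mem_ZT.1 hdv
  obtain ⟨e₁, he₁, h₁⟩ := hK.exists_thickening_subset_open
    ((Q.opn (n + 1 + 1) (X.d (n + 1) v)).inter hW) (subset_inter (fun z hz => hd1 z hz) hrW)
  obtain ⟨e₂, he₂, h₂⟩ := Metric.isOpen_iff.1 (Q.opn (n + 1) v) x (hv1 x rfl)
  obtain ⟨e, he, l₁, l₂⟩ : ∃ e : ℝ, 0 < e ∧ e ≤ e₁ ∧ e ≤ e₂ :=
    ⟨min e₁ e₂, by positivity, min_le_left _ _, min_le_right _ _⟩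
  have hU := (thickening_mono l₁ K).trans h₁
  have hUW : thickening e K ⊆ W := hU.trans inter_subset_right
  have hbU : ball x e ⊆ thickening e K := ball_subset_thickening hx e
  have hPA : R.PC (thickening e K ×ˢ Ω) := hP.mono (prod_mono hUW subset_rfl)
  have hBA : ball x e ×ˢ Ω ⊆ thickening e K ×ˢ Ω := prod_mono hbU subset_rfl
  have a₁ := starb R hK hc hx he hΩ hPA
  have a₂ := starb R (K := {x}) isCompact_singleton (convex_singleton x) (mem_singleton x) he hΩ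
    (by rw [thickening_singleton]; exact hPA.mono hBA)
  rw [thickening_singleton] at a₂
  have a₃ : R.Acyc (thickening e K ×ˢ Ω) (ball x e ×ˢ Ω) :=
    Acyc.left hBA (prod_mono (singleton_subset_iff.2 (mem_ball_self he)) subset_rfl) a₁ a₂
  have e1 := hZ _ isOpen_thickening hUW
  have e2 := hZ _ isOpen_ball (hbU.trans hUW)
  have a₄ : Q.Ex n (thickening e K) (ball x e) := by
    unfold Ex
    rw [e1, e2]
    exact a₃ n
  obtain ⟨z, hz, hvz⟩ := a₄ v (mem_ZT.2 ⟨hv0, fun z hz => h₂ (ball_subset_ball l₂ hz)⟩)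
    (mem_ZT.2 ⟨hd0, fun z hz => (hU hz).1⟩)
  exact ⟨z, ZT_anti (singleton_subset_iff.2 (mem_ball_self he)) _ hz,
    ZT_anti (self_subset_thickening he K) _ hvz⟩

/-- Direct images of the complement of the roots in an open disc bundle. -/
theorem po_str {Q : FC X (E × ℂ)} {H : Set (E × ℂ)} (hH : IsClosed H) {W : Set E} (hW : IsOpen W)
    {c : ℂ} {ρ : ℝ} {Φ : E × ℂ ≃ₜ E × ℂ} {P : Set ℂ} (h : Str H W c ρ Φ P)
    (p0 : Q.PC (W ×ˢ ball c ρ \ H)) : (Q.pushO (Hᶜ ∩ univ ×ˢ ball c ρ)).PC W := by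
  have hΩ : IsOpen (ball c ρ \ P) := isOpen_ball.sdiff h.fin.isClosed
  have hO : IsOpen (Hᶜ ∩ (univ : Set E) ×ˢ ball c ρ) :=
    hH.isOpen_compl.inter (isOpen_univ.prod isOpen_ball)
  have him : ∀ A ⊆ W, Φ '' (A ×ˢ (ball c ρ \ P)) =
      fstC E ℂ ⁻¹' A ∩ (Hᶜ ∩ (univ : Set E) ×ˢ ball c ρ) := by
    intro A hA
    ext q
    constructor
    · rintro ⟨⟨a, τ⟩, ⟨h1, h2, h3⟩, rfl⟩
      refine ⟨?_, fun hm => h3 ((h.mem a (hA h1) τ (ball_subset_closedBall h2)).1 hm),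
        mem_univ _, (h.ball _).2 h2⟩
      change (Φ (a, τ)).1 ∈ A
      rw [h.fst]
      exact h1
    · rintro ⟨h1, h2, -, h3⟩
      obtain ⟨⟨a, τ⟩, rfl⟩ := Φ.surjective q
      have h4 : a ∈ A := by
        have h5 : (Φ (a, τ)).1 ∈ A := h1
        rwa [h.fst] at h5
      have h6 : τ ∈ ball c ρ := (h.ball _).1 h3
      exact ⟨(a, τ), ⟨h4, h6, fun hm =>
        h2 ((h.mem a (hA h4) τ (ball_subset_closedBall h6)).2 hm)⟩, rfl⟩
  refine pc_prod_YA4 _ (Q.comap Φ Φ.isInducing) hW hΩ (fun A hA hAW => ?_) ?_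
  · rw [comap_ZT, him A hAW, pushO, map_ZT_open _ _ hA,
      loc_ZT_open _ hO (hA.preimage (fstC E ℂ).continuous)]
  · refine ((tr_comap Q Φ.isInducing).pc Φ.isEmbedding _).2 (p0.mono ?_)
    rw [him W subset_rfl]
    rintro q ⟨h1, h2, -, h3⟩
    exact ⟨⟨h1, h3⟩, h2⟩

/-- Constancy in the vertical direction. -/
theorem ver (Q : FC X (E × ℂ)) {U U₀ : Set (E × ℂ)} (hU : IsOpen U) (hU₀ : IsOpen U₀) (h : U₀ ⊆ U)
    (p0 : Q.PC U₀) {Δ : Set E} (hΔ : IsClosed Δ) {a : E} {K : Set ℂ} (hK : IsCompact K)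
    (hc : Convex ℝ K) (hs : {a} ×ˢ K ⊆ U₀) {τ : ℂ} (hτ : τ ∈ K) :
    (Q.loc (U ∩ Δᶜ ×ˢ univ)).Acyc ({a} ×ˢ K) {(a, τ)} := by
  obtain ⟨u, N, hu, hN, hau, hKN, huN⟩ := generalized_tube_lemma isCompact_singleton hK hU₀ hs
  have hV : IsOpen (U ∩ Δᶜ ×ˢ (univ : Set ℂ)) := hU.inter (hΔ.isOpen_compl.prod isOpen_univ)
  have hσ : IsHomeomorph (Prod.swap : ℂ × E → E × ℂ) := (Homeomorph.prodComm ℂ E).isHomeomorph
  have hΩ : IsOpen (u \ Δ) := hu.sdiff hΔ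
  have hW : IsOpen ((univ : Set ℂ) ×ˢ (u \ Δ)) := isOpen_univ.prod hΩ
  have hP : (Q.comap _ hσ.isInducing).PC (N ×ˢ (u \ Δ)) := by
    refine ((tr_comap Q hσ.isInducing).pc hσ.isEmbedding _).2 (p0.mono ?_)
    rintro q ⟨⟨s, b⟩, ⟨h1, h2, h3⟩, rfl⟩
    exact huN ⟨h2, h1⟩
  have a₁ := prodloc (Q.comap _ hσ.isInducing) hN hΩ hW
    (fun y _ b => ⟨fun hb => hb.2, fun hb => ⟨mem_univ _, hb⟩⟩) hP hK hc hKN hτ a
  have hM : IsOpen (N ×ˢ u) := hN.prod hu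
  have hcg : Prod.swap ⁻¹' (U ∩ Δᶜ ×ˢ (univ : Set ℂ)) ∩ N ×ˢ u =
      (univ : Set ℂ) ×ˢ (u \ Δ) ∩ N ×ˢ u := by
    ext ⟨s, b⟩
    constructor
    · rintro ⟨⟨h1, h2, h3⟩, h4, h5⟩
      exact ⟨⟨mem_univ _, h5, h2⟩, h4, h5⟩
    · rintro ⟨⟨h1, h2, h3⟩, h4, h5⟩
      exact ⟨⟨h (huN ⟨h5, h4⟩), h3, mem_univ _⟩, h4, h5⟩
  have hBA : ({(τ, a)} : Set (ℂ × E)) ⊆ K ×ˢ {a} := singleton_subset_iff.2 ⟨hτ, rfl⟩
  have hA : K ×ˢ ({a} : Set E) ⊆ N ×ˢ u := prod_mono hKN hau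
  have e1 := loc_congr (Q.comap _ hσ.isInducing) (hV.preimage hσ.continuous) hW hM hcg hA
  have e2 := loc_congr (Q.comap _ hσ.isInducing) (hV.preimage hσ.continuous) hW hM hcg
    (hBA.trans hA)
  have a₂ : ((Q.loc (U ∩ Δᶜ ×ˢ univ)).comap _ hσ.isInducing).Acyc (K ×ˢ {a}) {(τ, a)} := by
    rw [comap_loc Q hV hσ]
    intro n
    unfold Ex
    rw [e1, e2]
    exact a₁ n
  have a₃ := ((tr_comap _ hσ.isInducing).acyc hBA).1 a₂
  rwa [image_swap_prod, image_singleton, Prod.swap_prod_mk] at a₃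

end FC

end Pool.Agent.PWV
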