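import Pool.Agent.P.MP_65ad7c_ag.YA3
import Pool.Agent.P.MP_65ad7c_ag.XK1

open Set Filter Topology Metric

noncomputable section
namespace Pool.Agent.PWV

variable {X : Cx} {E T : Type} [MetricSpace E] [MetricSpace T] {N : ℕ}

theorem Mf.inter {S O : Set T} (h : Mf S) (hO : IsOpen O) : Mf (S ∩ O) := by
  intro x hx U hU
  obtain ⟨k, χ, h1, h2, h3, h4⟩ := h x hx.1 (U ∩ O) (inter_mem hU (hO.mem_nhds hx.2))
  exact ⟨k, χ, h1, h2, fun y hy => ⟨⟨(h3 hy).1, (h3 hy).2.2⟩, (h3 hy).2.1⟩,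
    nhdsWithin_mono _ inter_subset_left h4⟩

theorem mf_of_chart {V V' : Set (Fin N → ℂ)} (hV : IsClosed V')
    (h : ∀ x ∈ V \ V', ∃ (k : ℕ) (G : Fin k → MvPolynomial (Fin N) ℂ), Chart V G x) :
    Mf (V \ V') := by
  intro x hx U hU
  obtain ⟨k, G, O, M, ψ, hO, hM, hxM, hψ, h1, h2⟩ := h x hx
  obtain ⟨y0, hy0, rfl⟩ := h1.le ⟨hx.1, hxM⟩
  have hc : ContinuousAt ψ y0 := hψ.continuousAt (hO.mem_nhds hy0)
  have hn : O ∩ ψ ⁻¹' (U ∩ V'ᶜ) ∈ 𝓝 y0 :=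
    inter_mem (hO.mem_nhds hy0) (hc (inter_mem hU (hV.isOpen_compl.mem_nhds hx.2)))
  obtain ⟨r, hr, hb⟩ := Metric.mem_nhds_iff.1 hn
  let β := OpenPartialHomeomorph.univBall y0 r
  have hs : β.source = univ := OpenPartialHomeomorph.univBall_source y0 r
  have ht : β.target = ball y0 r := OpenPartialHomeomorph.univBall_target y0 hr
  have hβ : IsOpenEmbedding β := β.isOpenEmbedding hs
  have hm : ∀ u, β u ∈ ball y0 r := fun u => ht ▸ β.map_source (hs ▸ mem_univ u)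
  have hG : Continuous (pm G : (Fin N → ℂ) → Fin k → ℂ) :=
    continuous_pi fun i => MvPolynomial.continuous_eval (G i)
  have hχ : Continuous (ψ ∘ β) := hψ.comp_continuous hβ.continuous fun u => (hb (hm u)).1
  have he : pm G ∘ (ψ ∘ β) = β := funext fun u => h2 _ (hb (hm u)).1
  refine ⟨k, ψ ∘ β, IsEmbedding.of_comp hχ hG (he.symm ▸ hβ.isEmbedding), ?_, ?_, ?_⟩
  · show ψ (β 0) = ψ y0
    rw [show β 0 = y0 from OpenPartialHomeomorph.univBall_apply_zero y0 r]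
  · rintro _ ⟨u, rfl⟩
    have h3 := hb (hm u)
    exact ⟨⟨(h1.ge ⟨_, h3.1, rfl⟩).1, h3.2.2⟩, h3.2.1⟩
  · refine mem_nhdsWithin.2 ⟨M ∩ pm G ⁻¹' ball y0 r, hM.inter (isOpen_ball.preimage hG),
      ⟨hxM, by rw [mem_preimage, h2 _ hy0]; exact mem_ball_self hr⟩, ?_⟩
    rintro z ⟨⟨z1, z2⟩, z3⟩
    obtain ⟨y, hy, rfl⟩ := h1.le ⟨z3.1, z1⟩
    rw [mem_preimage, h2 _ hy, ← ht] at z2
    exact ⟨β.symm y, congrArg ψ (β.right_inv z2)⟩

theorem gen_mf {p : Ideal (MvPolynomial (Fin N) ℂ)} (hp : p.IsPrime) : ∃ δ ∉ p, Mf (Gen p δ) := by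
  obtain ⟨δ, hδ, e, s, -, -, h⟩ := gchart N p hp
  refine ⟨δ, hδ, ?_⟩
  exact mf_of_chart (V := ZI p) (V' := {x | MvPolynomial.eval x δ = 0})
    (isClosed_eq (MvPolynomial.continuous_eval δ) continuous_const)
    fun x hx => ⟨e, _, h x hx.1 hx.2⟩

theorem gen_chart {V : Set (Fin N → ℂ)} {e : ℕ} (hV : ZC V) (hd : Dim V (e + 1)) :
    ∃ V', ZC V' ∧ Dim V' e ∧ ∀ x ∈ V \ V',
      ∃ s : Fin e → Fin N, Chart V (fun i => MvPolynomial.X (s i)) x := by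
  have h0 : ∀ p : Ideal (MvPolynomial (Fin N) ℂ), ∃ δ : MvPolynomial (Fin N) ℂ, p.IsPrime →
      δ ∉ p ∧ ∃ (e : ℕ) (s : Fin e → Fin N), ¬ Dim (ZI p) e ∧ Dim (ZI p) (e + 1) ∧
        ∀ x ∈ ZI p, MvPolynomial.eval x δ ≠ 0 →
          Chart (ZI p) (fun i => MvPolynomial.X (s i)) x := fun p => by
    by_cases hp : p.IsPrime
    · obtain ⟨δ, h⟩ := gchart N p hp
      exact ⟨δ, fun _ => h⟩
    · exact ⟨0, fun h => (hp h).elim⟩
  choose δ hδ using h0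
  obtain ⟨V', h1, h2, h3⟩ := comp hV hd δ fun p hp => (hδ p hp).1
  refine ⟨V', h1, h2, fun x hx => ?_⟩
  obtain ⟨p, hp, a1, a2, a3, a4, a5⟩ := h3 x hx
  obtain ⟨-, e', s, b1, b2, b3⟩ := hδ p hp
  have he : e' = e := by
    by_contra hne
    rcases Nat.lt_or_gt_of_ne hne with hl | hl
    · exact a2 (b2.mono_nat hl)
    · exact b1 ((hd.mono a1).mono_nat hl)
  subst he
  exact ⟨s, (b3 x a3 a4).congr (a5.mono fun y hy => ⟨fun h => a1 h, hy⟩)⟩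

theorem ball_nhds_YA5 {k : ℕ} {χ : (Fin k → ℂ) → T} {S : Set T} {x : T} (h1 : IsEmbedding χ)
    (h2 : χ 0 = x) (h4 : range χ ∈ 𝓝[S] x) : χ '' closedBall 0 1 ∈ 𝓝[S] x := by
  subst h2
  exact nhdsWithin_le_of_mem h4
    (h1.isInducing.image_mem_nhdsWithin (closedBall_mem_nhds 0 one_pos))

namespace FC

theorem acyc_chart (Q : FC X T) {k : ℕ} {χ : (Fin k → ℂ) → T} (hχ : IsEmbedding χ)
    (h : Q.PC (range χ)) {y : T} (hy : y ∈ χ '' closedBall 0 1) :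
    Q.Acyc (χ '' closedBall 0 1) {y} := by
  obtain ⟨u, hu, rfl⟩ := hy
  have ht := tr_comap Q hχ.isInducing
  have h1 : (Q.comap χ hχ.isInducing).PC univ := (ht.pc hχ univ).2 (by rwa [image_univ])
  have h2 := star (Q.comap χ hχ.isInducing) (isCompact_closedBall 0 1) hu
    ((convex_closedBall 0 1).starConvex hu) (h1.mono (subset_univ _))
  have h3 := (ht.acyc (singleton_subset_iff.2 hu)).1 h2
  rwa [image_singleton] at h3

/-- Horizontal and vertical constancy give constancy. -/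
theorem box (R : FC X (E × ℂ)) {S : Set E} (hS : Mf S) {U : Set (E × ℂ)} (hU : IsOpen U)
    (hor : ∀ τ : ℂ, R.PC (S ×ˢ {τ} ∩ U))
    (ver : ∀ a ∈ S, ∀ K : Set ℂ, IsCompact K → Convex ℝ K → {a} ×ˢ K ⊆ U → ∀ τ ∈ K,
      R.Acyc ({a} ×ˢ K) {(a, τ)}) : R.PC (S ×ˢ univ ∩ U) := by
  refine pc_local ?_
  rintro ⟨a, τ0⟩ ⟨⟨ha, -⟩, hy⟩
  obtain ⟨U1, hU1, U2, hU2, h12⟩ := mem_nhds_prod_iff.1 (hU.mem_nhds hy)
  obtain ⟨ε, hε, hb⟩ := Metric.nhds_basis_closedBall.mem_iff.1 hU2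
  obtain ⟨k, χ, h1, h2, h3, h4⟩ := hS a ha U1 hU1
  have hB := ball_nhds_YA5 h1 h2 h4
  have hin : ∀ u, ∀ t ∈ closedBall τ0 ε, (χ u, t) ∈ U := fun u t ht =>
    h12 ⟨(h3 ⟨u, rfl⟩).2, hb ht⟩
  refine ⟨(χ '' closedBall 0 1) ×ˢ closedBall τ0 ε, ?_, pc_of_acyc ?_⟩
  · refine nhdsWithin_mono _ inter_subset_left ?_
    exact nhdsWithin_prod hB (nhdsWithin_le_nhds (closedBall_mem_nhds τ0 hε))
  · rintro ⟨b, t⟩ ⟨⟨u, hu, rfl⟩, ht⟩
    have hsub : ({χ u} : Set E) ×ˢ closedBall τ0 ε ⊆ (χ '' closedBall 0 1) ×ˢ closedBall τ0 ε :=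
      prod_mono (singleton_subset_iff.2 ⟨u, hu, rfl⟩) subset_rfl
    refine Acyc.mid hsub (singleton_subset_iff.2 ⟨rfl, ht⟩) (fun n => ?_)
      (ver _ (h3 ⟨u, rfl⟩).1 _ (isCompact_closedBall τ0 ε) (convex_closedBall τ0 ε) ?_ t ht)
    · refine lg R (((isCompact_closedBall 0 1).image h1.continuous).prod
        (isCompact_closedBall τ0 ε)) (isClosed_singleton.prod isClosed_closedBall) hsub
        Prod.snd continuous_snd.continuousOn n fun s i _ => ?_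
      by_cases hs : s ∈ closedBall τ0 ε
      · have he : IsEmbedding fun w => (χ w, s) := (isEmbedding_prodMkLeft s).comp h1
        have h5 := acyc_chart R he ((hor s).mono (by
          rintro _ ⟨w, rfl⟩
          exact ⟨⟨(h3 ⟨w, rfl⟩).1, rfl⟩, hin w s hs⟩)) (y := (χ u, s)) ⟨u, hu, rfl⟩ i
        have e1 : (χ '' closedBall 0 1) ×ˢ closedBall τ0 ε ∩ Prod.snd ⁻¹' {s} =
            (fun w => (χ w, s)) '' closedBall 0 1 := by
          ext ⟨c, s'⟩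
          constructor
          · rintro ⟨⟨⟨w, hw, rfl⟩, -⟩, rfl⟩
            exact ⟨w, hw, rfl⟩
          · rintro ⟨w, hw, e⟩
            cases e
            exact ⟨⟨⟨w, hw, rfl⟩, hs⟩, rfl⟩
        have e2 : ({χ u} : Set E) ×ˢ closedBall τ0 ε ∩ Prod.snd ⁻¹' {s} = {(χ u, s)} := by
          ext ⟨c, s'⟩
          constructor
          · rintro ⟨⟨rfl, -⟩, rfl⟩
            rfl
          · intro e
            cases e
            exact ⟨⟨rfl, hs⟩, rfl⟩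
        rw [e1, e2]
        exact h5
      · have e1 : ∀ A : Set E, A ×ˢ closedBall τ0 ε ∩ Prod.snd ⁻¹' {s} = ∅ := fun A =>
          eq_empty_of_forall_notMem fun z hz => hs (hz.2 ▸ hz.1.2)
        rw [e1, e1]
        exact R.ex_self _ _
    · rintro ⟨c, s⟩ ⟨rfl, hs⟩
      exact hin u s hs

/-- Good neighbourhoods of points give good neighbourhoods along a manifold. -/
theorem la_of_gn (Q : FC X T) {S : Set T} (hS : Mf S) (hP : Q.PC S)
    (h : ∀ x ∈ S, ∃ K ∈ 𝓝 x, Q.Acyc K {x}) : Q.LA S := by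
  intro x hx
  obtain ⟨K, hK, hA⟩ := h x hx
  obtain ⟨k, χ, h1, h2, h3, h4⟩ := hS x hx K hK
  obtain ⟨W, hW, hxW, hWB⟩ := mem_nhdsWithin.1 (ball_nhds_YA5 h1 h2 h4)
  have hp : Q.PC (range χ) := hP.mono fun y hy => (h3 hy).1
  have hxB : x ∈ χ '' closedBall 0 1 := ⟨0, mem_closedBall_self zero_le_one, h2⟩
  have hBK : χ '' closedBall 0 1 ⊆ K := fun y hy => (h3 (image_subset_range _ _ hy)).2
  have hKB := Acyc.left hBK (singleton_subset_iff.2 hxB) hA (acyc_chart Q h1 hp hxB)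
  refine ⟨W ∩ interior K, K, hW.inter isOpen_interior, ⟨hxW, mem_interior_iff_mem_nhds.2 hK⟩,
    fun y hy => interior_subset hy.2, fun y hy => ?_⟩
  have hyB := hWB ⟨hy.2.1, hy.1⟩
  exact Acyc.mid hBK (singleton_subset_iff.2 hyB) hKB (acyc_chart Q h1 hp hyB)

end FC

end Pool.Agent.PWV
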