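import Pool.Agent.P.MP_65ad7c_ag.YA3
import Pool.Agent.P.MP_65ad7c_ag.VRat

open Set Filter Topology Metric

noncomputable section
namespace Pool.Agent.PWV

open MvPolynomial

variable {X X' : Cx} {N : ℕ} {ι κ : Type} {Q : ι → FC X (Fin N → ℂ)} {O : ι → Set (Fin N → ℂ)}
  {C Y : Set (Fin N → ℂ)}

theorem gen_mul {σ : Type} (p : Ideal (MvPolynomial σ ℂ)) (δ δ' : MvPolynomial σ ℂ) :
    Gen p (δ * δ') = Gen p δ ∩ Gen p δ' := by
  ext x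
  simp only [Gen, mem_inter_iff, mem_ofPred_eq, map_mul, mul_ne_zero_iff]
  tauto

theorem gen_mul' {σ : Type} (p : Ideal (MvPolynomial σ ℂ)) (δ δ' : MvPolynomial σ ℂ) :
    Gen p (δ * δ') = Gen p δ ∩ {x | eval x δ' ≠ 0} := by
  ext x
  simp only [Gen, mem_inter_iff, mem_ofPred_eq, map_mul, mul_ne_zero_iff]
  tauto

theorem CF.of_imp (h : CF Q O) {Q' : κ → FC X' (Fin N → ℂ)} {O' : κ → Set (Fin N → ℂ)} (s : κ → ι)
    (hO : ∀ j, O' j ⊆ O (s j)) (hP : ∀ j, ∀ S ⊆ O' j, (Q (s j)).PC S → (Q' j).PC S) :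
    CF Q' O' := by
  intro p hp
  obtain ⟨δ, hδ, H⟩ := h p hp
  exact ⟨δ, hδ, fun j => hP j _ inter_subset_right
    ((H (s j)).mono (inter_subset_inter_right _ (hO j)))⟩

theorem CF.mono (h : CF Q O) {O' : ι → Set (Fin N → ℂ)} (hO : ∀ i, O' i ⊆ O i) : CF Q O' := by
  exact h.of_imp id hO fun _ _ _ H => H

theorem cf_of_pc (h : ∀ i, (Q i).PC (O i)) : CF Q O := by
  intro p hp
  exact ⟨1, (Ideal.ne_top_iff_one p).1 hp.ne_top, fun i => (h i).mono inter_subset_right⟩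

theorem cf_zero (Q : ι → FC X (Fin 0 → ℂ)) (O : ι → Set (Fin 0 → ℂ)) : CF Q O := by
  refine cf_of_pc fun i γ _ hi _ => ?_
  have h01 : (0 : ℝ) = 1 :=
    hi (left_mem_Icc.2 zero_le_one) (right_mem_Icc.2 zero_le_one) (Subsingleton.elim _ _)
  exact absurd h01 zero_ne_one

theorem CF.dim (h : CF Q O) {V : Set (Fin N → ℂ)} {e : ℕ} (hV : ZC V) (hd : Dim V (e + 1)) :
    ∃ V', ZC V' ∧ Dim V' e ∧ ∀ i, (Q i).PC ((V \ V') ∩ O i) := by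
  classical
  choose δ hδ H using h
  let δ' : Ideal (MvPolynomial (Fin N) ℂ) → MvPolynomial (Fin N) ℂ := fun p =>
    if hp : p.IsPrime then δ p hp else 1
  have hδ' : ∀ p (hp : p.IsPrime), δ' p = δ p hp := fun p hp => dif_pos hp
  obtain ⟨V', h1, h2, h3⟩ := comp hV hd δ' fun p hp => by rw [hδ' p hp]; exact hδ p hp
  refine ⟨V', h1, h2, fun i => FC.pc_local fun y hy => ?_⟩
  obtain ⟨p, hp, -, -, -, hy2, hy3⟩ := h3 y hy.1
  rw [hδ' p hp] at hy2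
  refine ⟨Gen p (δ p hp) ∩ O i, ?_, H p hp i⟩
  have ho : IsOpen {x : Fin N → ℂ | eval x (δ p hp) ≠ 0} :=
    isOpen_ne_fun (MvPolynomial.continuous_eval _) continuous_const
  filter_upwards [nhdsWithin_le_nhds hy3, nhdsWithin_le_nhds (ho.mem_nhds hy2),
    self_mem_nhdsWithin] with x a b c
  exact ⟨⟨a c.1.1, b⟩, c.2⟩

theorem CF.top (h : CF Q O) :
    ∃ g : MvPolynomial (Fin N) ℂ, g ≠ 0 ∧ ∀ i, (Q i).PC (O i \ {x | eval x g = 0}) := by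
  obtain ⟨δ, hδ, H⟩ := h ⊥ Ideal.isPrime_bot
  refine ⟨δ, fun h0 => hδ (by rw [h0]; exact zero_mem _), fun i => (H i).mono fun x hx => ?_⟩
  refine ⟨⟨fun f hf => ?_, hx.2⟩, hx.1⟩
  rw [Ideal.mem_bot.1 hf, map_zero]

theorem CF.tri_mid (hC : IsClosed C) (h1 : CF (fun i => (Q i).gam C) O)
    (h3 : CF (fun i => (Q i).loc Cᶜ) O) : CF Q O := by
  intro p hp
  obtain ⟨δ, hδ, H⟩ := h1 p hp
  obtain ⟨δ', hδ', H'⟩ := h3 p hp
  refine ⟨δ * δ', fun hm => (hp.mem_or_mem hm).elim hδ hδ', fun i => ?_⟩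
  rw [gen_mul]
  exact FC.pc_tri_mid hC ((H i).mono fun x hx => ⟨hx.1.1, hx.2⟩)
    ((H' i).mono fun x hx => ⟨hx.1.2, hx.2⟩)

theorem CF.tri_left (hC : IsClosed C) (h2 : CF Q O) (h3 : CF (fun i => (Q i).loc Cᶜ) O) :
    CF (fun i => (Q i).gam C) O := by
  intro p hp
  obtain ⟨δ, hδ, H⟩ := h2 p hp
  obtain ⟨δ', hδ', H'⟩ := h3 p hp
  refine ⟨δ * δ', fun hm => (hp.mem_or_mem hm).elim hδ hδ', fun i => ?_⟩
  rw [gen_mul]
  exact FC.pc_tri_left hC ((H i).mono fun x hx => ⟨hx.1.1, hx.2⟩)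
    ((H' i).mono fun x hx => ⟨hx.1.2, hx.2⟩)

theorem CF.supp (hY : ZC Y) (hs : ∀ i, (Q i).Supp Y) (h : CF Q fun i => O i ∩ Y) : CF Q O := by
  intro p hp
  by_cases hs' : ZI p ⊆ Y
  · obtain ⟨δ, hδ, H⟩ := h p hp
    exact ⟨δ, hδ, fun i => (H i).mono fun x hx => ⟨hx.1, hx.2, hs' hx.1.1⟩⟩
  · obtain ⟨δ, hδ, H⟩ := hY.exists_not_mem hs'
    exact ⟨δ, hδ, fun i => (hs i).pc_off.mono fun x hx hx' => hx.1.2 (H x hx')⟩

theorem exists_resid (hY : ZC Y) (hC : ZC C) {e : ℕ} (hd : Dim Y (e + 1)) :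
    ∃ Y', ZC Y' ∧ Y' ⊆ Y ∧ Y \ C ⊆ Y' ∧ Dim (C ∩ Y') e := by
  obtain ⟨s, hf, hp, -, rfl⟩ := hY.exists_primes
  have hf' : {p ∈ s | ¬ ZI p ⊆ C}.Finite := hf.subset fun _ h => h.1
  refine ⟨⋃ p ∈ {p ∈ s | ¬ ZI p ⊆ C}, ZI p, zc_biUnion hf' fun p _ => zc_ZI p,
    biUnion_subset_biUnion_left fun _ h => h.1, fun x hx => ?_, ?_⟩
  · obtain ⟨p, hps, hxp⟩ := mem_iUnion₂.1 hx.1
    exact mem_iUnion₂.2 ⟨p, ⟨hps, fun hc => hx.2 (hc hxp)⟩, hxp⟩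
  · rw [inter_iUnion₂]
    refine dim_biUnion hf' fun p hps => ?_
    obtain ⟨δ, hδ, H⟩ := hC.exists_not_mem hps.2
    exact (drop (hp p hps.1) hδ (hd.mono (subset_biUnion_of_mem (u := fun p => ZI p) hps.1))).mono
      fun x hx => ⟨hx.2, H x hx.1⟩

/-- Reduction to a localisation and a complex with smaller support. -/
theorem TL.red {e : ℕ} (h : TL X e N) (hO : ∀ i, IsOpen (O i)) (hY : ZC Y) (hC : ZC C)
    {D : Set (Fin N → ℂ)} (hD : ZC D) (hd : Dim (D ∩ Y) e) (hs : ∀ i, (Q i).Supp Y)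
    (hl : ∀ i, (Q i).loc Cᶜ = Q i) (h1 : CF Q fun i => O i \ C)
    (h2 : CF (fun i => (Q i).loc Dᶜ) O) : CF Q O := by
  have hs' : ∀ i, ((Q i).gam D).Supp (D ∩ Y) := fun i n v hv x hx => by
    by_cases hxD : x ∈ D
    · exact (hs i).gam D n v hv x fun hxY => hx ⟨hxD, hxY⟩
    · exact FC.supp_gam (Q i) hD.isClosed n v hv x hxD
  have h3 := h ι (fun i => (Q i).gam D) O (D ∩ Y) C hO (hD.inter hY) hd hC hs'
    (CF.tri_left hD.isClosed h1 (h2.mono fun i => sdiff_subset))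
  have h4 : (fun i => ((Q i).gam D).loc Cᶜ) = fun i => (Q i).gam D :=
    funext fun i => FC.gam_loc_eq hC.isClosed.isOpen_compl (hl i) D
  rw [h4] at h3
  exact CF.tri_mid hD.isClosed h3 h2

end Pool.Agent.PWV
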