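import Pool.Agent.P.MP_65ad7c_ag.YB0
import Pool.Agent.P.MP_65ad7c_ag.VRootP
import Pool.Agent.P.MP_65ad7c_ag.VPair

open Set Filter Topology Metric

noncomputable section
namespace Pool.Agent.PWV

open MvPolynomial

variable {X : Cx} {n : ℕ} {ι : Type} {Q : ι → FC X (Fin (n + 1) → ℂ)}
  {O : ι → Set (Fin (n + 1) → ℂ)}

theorem ex_ne_YB1 {σ : Type} {h : MvPolynomial σ ℂ} (h0 : h ≠ 0) : ∃ v, eval v h ≠ 0 := by
  by_contra hc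
  push Not at hc
  exact h0 (MvPolynomial.funext fun x => by rw [hc x, map_zero])

theorem ex_dim_YB1 {p : Ideal (MvPolynomial (Fin n) ℂ)} (hp : p.IsPrime) :
    ∃ e, ¬ Dim (ZI p) e ∧ Dim (ZI p) (e + 1) := by
  classical
  have hex : ∃ k, Dim (ZI p) k := ⟨n + 1, (dim_univ n).mono (subset_univ _)⟩
  have h0 : Nat.find hex ≠ 0 := fun h => by
    have h1 := Nat.find_spec hex
    rw [h, dim_zero] at h1
    refine hp.ne_top ((Ideal.eq_top_iff_one p).2 (null hp fun x hx => ?_))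
    rw [h1] at hx
    exact hx.elim
  obtain ⟨e, he⟩ := Nat.exists_eq_succ_of_ne_zero h0
  exact ⟨e, Nat.find_min hex (by omega), by
    have := Nat.find_spec hex
    rwa [he] at this⟩

theorem exists_prj {g : MvPolynomial (Fin (n + 1)) ℂ} (hg : g ≠ 0) : ∃ π : Prj n, π.g = g := by
  obtain ⟨h, h0, hh⟩ := monic_dir hg
  obtain ⟨v, hv⟩ := ex_ne_YB1 h0
  obtain ⟨G, hG, e⟩ := hh v hv
  exact ⟨⟨g, v, G, hG, e⟩, rfl⟩

namespace Prj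
variable (π : Prj n)

theorem mem_H_YB1 (a : Fin n → ℂ) (τ : ℂ) : (a, τ) ∈ π.H ↔ τ ∈ rt π.G a := by
  show ((1 : ℝ) : ℂ) * τ ∈ rt π.G a ↔ _
  rw [Complex.ofReal_one, one_mul]

theorem fin_H (a : Fin n → ℂ) : {τ | (a, τ) ∈ π.H}.Finite := by
  refine (rt_finite π.monic a).subset fun τ h => ?_
  exact (π.mem_H_YB1 a τ).1 h

theorem roots {p : Ideal (MvPolynomial (Fin n) ℂ)} (hp : p.IsPrime) :
    ∃ δ ∉ p, ∀ x ∈ Gen p δ, ∃ W ∈ 𝓝[ZI p] x, Roots π.H W := by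
  obtain ⟨δ, hδ, k, hk⟩ := rootp π.monic hp
  refine ⟨δ, hδ, fun x hx => ?_⟩
  obtain ⟨W, -, hW, r, hr, hr'⟩ :=
    rootc π.monic (W := Gen p δ) (k := k) (fun y hy => hk y hy.1 hy.2) hx
  refine ⟨W, ?_, k, r, hr, fun y hy => ⟨(hr' y hy).1, fun τ => ?_⟩⟩
  · have ho : {y : Fin n → ℂ | eval y δ ≠ 0} ∈ 𝓝 x :=
      (isOpen_ne_fun (MvPolynomial.continuous_eval δ) continuous_const).mem_nhds hx.2
    rw [nhdsWithin_restrict' _ ho]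
    exact hW
  · rw [π.mem_H_YB1, (hr' y hy).2]
    exact ⟨fun ⟨i, hi⟩ => ⟨i, hi.symm⟩, fun ⟨i, hi⟩ => ⟨i, hi.symm⟩⟩

theorem zc_pre {B : Set (Fin n → ℂ)} (hB : ZC B) : ZC (prj π.v ⁻¹' B) := by
  obtain ⟨f, hf⟩ := prj_poly π.v
  have := hB.preimage f
  convert this using 1
  ext x
  rw [mem_preimage, hf]
  rfl

theorem dim_img {A : Set (Fin (n + 1) → ℂ)} {e : ℕ} (h : Dim A e) : Dim (prj π.v '' A) e := by
  obtain ⟨f, hf⟩ := prj_poly π.v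
  have := h.image f
  rwa [show (fun x i => eval x (f i)) = prj π.v from (funext hf).symm] at this

theorem dim_pre {B : Set (Fin n → ℂ)} {e : ℕ} (h : Dim B e) : Dim (prj π.v ⁻¹' B ∩ π.Z) e := by
  obtain ⟨f', hf'⟩ := shear_poly π.v
  refine ((dim_roots π.monic h).image f').mono ?_
  rintro x ⟨h2, h1⟩
  refine ⟨Fin.cons (x 0) (prj π.v x), ⟨?_, ?_⟩, ?_⟩
  · rw [Fin.tail_cons]
    exact h2
  · rw [Fin.tail_cons, Fin.cons_zero, ← π.hg, shear_prj]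
    exact h1
  · show (fun i => eval (Fin.cons (x 0) (prj π.v x) : Fin (n + 1) → ℂ) (f' i)) = x
    rw [← hf', Fin.tail_cons, Fin.cons_zero, shear_prj]

theorem dim_cyl {δ : MvPolynomial (Fin n) ℂ} (h : δ ≠ 0) :
    Dim (prj π.v ⁻¹' {x | eval x δ = 0}) (n + 1) := by
  obtain ⟨f, hf⟩ := prj_poly π.v
  obtain ⟨y, hy⟩ := ex_ne_YB1 h
  have h1 : aeval f δ ≠ 0 := fun h0 => hy (by
    have := vdim_subst (shear π.v y 0) f δ
    rw [h0, map_zero, ← hf, prj_shear] at this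
    exact this.symm)
  refine (dim_hyp h1).mono fun x hx => ?_
  show eval x (aeval f δ) = 0
  rw [vdim_subst, ← hf]
  exact hx

theorem dim_Z : Dim π.Z (n + 1) := by
  refine dim_hyp (g := π.g) fun h0 => ?_
  refine Set.infinite_univ (α := ℂ) ((rt_finite π.monic 0).subset fun t _ => ?_)
  rw [← π.hg, h0, map_zero]

theorem pre_prj (B : Set (Fin n → ℂ)) : π.φ ⁻¹' (prj π.v ⁻¹' B) = B ×ˢ univ := by
  ext p
  simp only [mem_preimage, π.prj_φ, mem_prod, mem_univ, and_true]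

theorem open_dnO (hO : ∀ i, IsOpen (O i)) (j : ι × Dsc) : IsOpen (π.dnO O j) := by
  exact nice_open ((hO j.1).preimage π.hφ.continuous) π.closed_H _ _

/-- Direct images are constructible. -/
theorem cf_dn (h : CF Q O) (p0 : ∀ i, (Q i).PC (O i \ π.Z)) : CF (π.dn Q) (π.dnO O) := by
  intro p hp
  obtain ⟨e, he, hd⟩ := ex_dim_YB1 hp
  obtain ⟨W, h1, h2, -, h4⟩ := FC.vpre_core π.monic π.hg (fun _ => 1) (zc_ZI p) hd
  obtain ⟨V4, -, d4, p4⟩ := h.dim h1 h2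
  obtain ⟨V', z', d', s'⟩ := h4 V4 d4
  obtain ⟨δ1, hδ1, e1⟩ := z'.exists_not_mem (p := p) fun hs => he (d'.mono hs)
  obtain ⟨δ2, hδ2, e2⟩ := π.roots hp
  refine ⟨δ1 * δ2, fun hm => (hp.mem_or_mem hm).elim hδ1 hδ2, ?_⟩
  rintro ⟨i, c, ρ, hρ⟩
  rw [gen_mul]
  refine FC.pc_local fun y hy => ?_
  obtain ⟨W0, hW0, hr⟩ := e2 y hy.1.2
  obtain ⟨W', hW', Φ, P, hS⟩ := exists_str (zc_ZI p).isClosed hy.1.1.1 hW0 hr hρ hy.2.2
  refine ⟨W' ∩ (Gen p δ1 ∩ Gen p δ2 ∩ π.dnO O (i, c, ⟨ρ, hρ⟩)),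
    inter_mem (nhdsWithin_mono _ (fun z hz => hz.1.1.1) hW') self_mem_nhdsWithin, ?_⟩
  refine FC.ta_str (hS.mono inter_subset_left) ?_ ?_
  · refine ((π.tr_up (Q i)).pc π.hφ.isEmbedding _).2 ((p0 i).mono ?_)
    rintro _ ⟨q, ⟨⟨hq1, hq2⟩, hq3⟩, rfl⟩
    exact ⟨hq1.2.2.1 q.2 hq2, fun hz => hq3 ((π.mem_H q).2 hz)⟩
  · refine ((π.tr_up (Q i)).pc π.hφ.isEmbedding _).2 ((p4 i).mono ?_)
    rintro _ ⟨q, ⟨⟨hq1, hq2⟩, hq3⟩, rfl⟩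
    refine ⟨s' ⟨q, ⟨hq3, ⟨hq1.2.1.1.1, fun hv => hq1.2.1.1.2 (e1 _ hv)⟩, trivial⟩, rfl⟩, ?_⟩
    exact hq1.2.2.1 q.2 hq2

/-- Descent of constructibility. -/
theorem cf_desc (hO : ∀ i, IsOpen (O i))
    (h0 : ∀ p : Ideal (MvPolynomial (Fin n) ℂ), p.IsPrime → ∃ δ ∉ p, ∀ i,
      (π.up (Q i)).PC (Gen p δ ×ˢ univ ∩ (π.φ ⁻¹' O i \ π.H)))
    (h1 : CF (π.dn Q) (π.dnO O)) : CF Q O := by
  intro p hp
  obtain ⟨f, hf⟩ := prj_poly π.v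
  have hp' : (p.comap (aeval f : MvPolynomial (Fin n) ℂ →ₐ[ℂ] _).toRingHom).IsPrime :=
    Ideal.comap_isPrime _ _
  set p' := p.comap (aeval f : MvPolynomial (Fin n) ℂ →ₐ[ℂ] _).toRingHom with hp'd
  have hgen : ∀ (δ : MvPolynomial (Fin n) ℂ) (q : (Fin n → ℂ) × ℂ),
      π.φ q ∈ Gen p (aeval f δ) → q.1 ∈ Gen p' δ := by
    intro δ q hq
    have e0 : pm f (π.φ q) = q.1 := (hf _).symm.trans (π.prj_φ q)
    refine ⟨e0 ▸ vpair_mem f hq.1, ?_⟩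
    have := hq.2
    rw [mem_ofPred_eq, vpair_eval, e0] at this
    exact this
  obtain ⟨δ0, hδ0, e0⟩ := h0 p' hp'
  by_cases hg : π.g ∈ p
  · obtain ⟨δ1, hδ1, e1⟩ := h1 p' hp'
    obtain ⟨δ2, hδ2, e2⟩ := π.roots hp'
    have hδ : δ0 * δ1 * δ2 ∉ p' := fun hm =>
      (hp'.mem_or_mem hm).elim (fun hm => (hp'.mem_or_mem hm).elim hδ0 hδ1) hδ2
    refine ⟨aeval f (δ0 * δ1 * δ2), hδ, fun i => ?_⟩
    have hU : IsOpen (π.φ ⁻¹' O i) := (hO i).preimage π.hφ.continuous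
    have key : (π.up (Q i)).PC (Gen p' (δ0 * δ1 * δ2) ×ˢ univ ∩ π.H ∩ π.φ ⁻¹' O i) := by
      rw [gen_mul, gen_mul]
      refine FC.pc_local ?_
      rintro ⟨a, t⟩ ⟨⟨⟨ha, -⟩, -⟩, hat⟩
      obtain ⟨s, hs, hN, -⟩ := nice_small hU hat (π.fin_H a)
      obtain ⟨W0, hW0, hr⟩ := e2 a ha.2
      obtain ⟨W', hW', Φ, P, hS⟩ := exists_str (zc_ZI p').isClosed ha.2.1 hW0 hr hs hN.2
      refine ⟨(W' ∩ (Gen p' δ0 ∩ Gen p' δ1 ∩ Gen p' δ2 ∩ Nice (π.φ ⁻¹' O i) π.H t s)) ×ˢ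
        closedBall t s ∩ π.H, ?_, FC.fd_str (hS.mono inter_subset_left) ?_ ?_⟩
      · have t1 : Tendsto Prod.fst (𝓝[(Gen p' δ0 ∩ Gen p' δ1 ∩ Gen p' δ2) ×ˢ univ ∩ π.H ∩
            π.φ ⁻¹' O i] (a, t)) (𝓝[ZI p'] a) :=
          (continuous_fst.continuousWithinAt (x := (a, t))).tendsto_nhdsWithin
            fun q hq => hq.1.1.1.2.1
        have t2 : ∀ᶠ q in 𝓝 (a, t), q.1 ∈ Nice (π.φ ⁻¹' O i) π.H t s :=
          (continuous_fst.tendsto (a, t)).eventually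
            ((nice_open hU π.closed_H t s).mem_nhds hN)
        have t3 : ∀ᶠ q in 𝓝 (a, t), q.2 ∈ closedBall t s :=
          (continuous_snd.tendsto (a, t)).eventually (closedBall_mem_nhds t hs)
        filter_upwards [t1.eventually hW', nhdsWithin_le_nhds t2, nhdsWithin_le_nhds t3,
          self_mem_nhdsWithin] with q q1 q2 q3 q4
        exact ⟨⟨⟨q1, q4.1.1.1, q2⟩, q3⟩, q4.1.2⟩
      · refine (e0 i).mono ?_
        rintro q ⟨⟨q1, q2⟩, q3⟩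
        exact ⟨⟨q1.2.1.1.1, trivial⟩, q1.2.2.1 q.2 q2, q3⟩
      · exact (e1 (i, t, ⟨s, hs⟩)).mono fun q hq => ⟨hq.2.1.1.2, hq.2.2⟩
    refine (((π.tr_up (Q i)).pc π.hφ.isEmbedding _).1 key).mono fun x hx => ?_
    obtain ⟨q, rfl⟩ := π.hφ.surjective x
    exact ⟨q, ⟨⟨⟨hgen _ q hx.1, trivial⟩, (π.mem_H q).2 (hx.1.1 _ hg)⟩, hx.2⟩, rfl⟩
  · refine ⟨aeval f δ0 * π.g, fun hm => (hp.mem_or_mem hm).elim hδ0 hg, fun i => ?_⟩
    rw [gen_mul']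
    refine (((π.tr_up (Q i)).pc π.hφ.isEmbedding _).1 (e0 i)).mono fun x hx => ?_
    obtain ⟨q, rfl⟩ := π.hφ.surjective x
    exact ⟨q, ⟨⟨hgen _ q hx.1.1, trivial⟩, hx.2, fun hq => hx.1.2 ((π.mem_H q).1 hq)⟩, rfl⟩

end Prj

end Pool.Agent.PWV
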