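import Pool.Agent.P.MP_65ad7c_ag.YB1
import Pool.Agent.P.MP_65ad7c_ag.YA5

open Set Filter Topology Metric

noncomputable section
namespace Pool.Agent.PWV

variable {X : Cx}

namespace FC

/-- Good neighbourhoods. -/
theorem gn (n : ℕ) : ∀ (Q : FC X (Fin n → ℂ)) (O : Set (Fin n → ℂ)), IsOpen O →
    (CF (fun _ : Unit => Q) fun _ => O) → ∀ x ∈ O,
    ∃ K, IsCompact K ∧ K ∈ 𝓝 x ∧ K ⊆ O ∧ Q.Acyc K {x} := by
  induction n with
  | zero =>
    intro Q O _ _ x hx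
    refine ⟨{x}, isCompact_singleton, ?_, singleton_subset_iff.2 hx, fun k => Q.ex_self k _⟩
    exact mem_of_superset univ_mem fun y _ => Subsingleton.elim y x
  | succ n ih =>
    intro Q O hO h x hx
    obtain ⟨g, hg, hP⟩ := h.top
    obtain ⟨π, rfl⟩ := exists_prj hg
    obtain ⟨⟨a, t⟩, rfl⟩ := π.hφ.surjective x
    obtain ⟨s, hs, ha, hτ⟩ := nice_small (U := π.φ ⁻¹' O) (H := π.H) (c := t)
      (hO.preimage π.hφ.continuous) (a := a) hx (π.fin_H a)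
    have h1 := π.cf_dn h hP
    have h2 : CF (fun _ : Unit => (π.up Q).push (closedBall t s))
        fun _ => Nice (π.φ ⁻¹' O) π.H t s :=
      h1.of_imp (fun _ => ((), (t, ⟨s, hs⟩))) (fun _ => Subset.rfl) fun _ _ _ hS => hS
    obtain ⟨K, hK, hKa, hKO, hA⟩ := ih _ _
      (nice_open (hO.preimage π.hφ.continuous) π.closed_H t s) h2 a ha
    have haK : a ∈ K := mem_of_mem_nhds hKa
    have a1 : (π.up Q).Acyc (K ×ˢ closedBall t s) ({a} ×ˢ closedBall t s) := fun k =>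
      ((π.up Q).push_ex (isCompact_closedBall t s) k K {a}).1 (hA k)
    have hm : (a, t) ∈ ({a} : Set (Fin n → ℂ)) ×ˢ closedBall t s :=
      ⟨rfl, mem_closedBall_self hs.le⟩
    have a2 : (π.up Q).Acyc ({a} ×ˢ closedBall t s) {(a, t)} := by
      refine star _ (isCompact_singleton.prod (isCompact_closedBall t s)) hm
        (((convex_singleton a).prod (convex_closedBall t s)).starConvex hm) ?_
      rw [(π.tr_up Q).pc π.hφ.isEmbedding]
      refine (hP ()).mono ?_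
      rintro _ ⟨⟨b, τ⟩, ⟨⟨hb, hτ'⟩, hne⟩, rfl⟩
      obtain rfl : b = a := hb
      refine ⟨ha.1 τ hτ', fun hz => hτ τ hτ' ?_ ((π.mem_H _).2 hz)⟩
      rintro rfl
      exact hne rfl
    have s1 : ({a} : Set (Fin n → ℂ)) ×ˢ closedBall t s ⊆ K ×ˢ closedBall t s :=
      prod_mono (singleton_subset_iff.2 haK) Subset.rfl
    have s2 : ({(a, t)} : Set ((Fin n → ℂ) × ℂ)) ⊆ {a} ×ˢ closedBall t s :=
      singleton_subset_iff.2 hm
    have a3 := ((π.tr_up Q).acyc (s2.trans s1)).1 (a1.mid s1 s2 a2)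
    rw [image_singleton] at a3
    refine ⟨_, (hK.prod (isCompact_closedBall t s)).image π.hφ.continuous, ?_, ?_, a3⟩
    · exact π.hφ.isOpenMap.image_mem_nhds (prod_mem_nhds hKa (closedBall_mem_nhds t hs))
    · rintro _ ⟨⟨b, τ⟩, ⟨hb, hτ'⟩, rfl⟩
      exact (hKO hb).1 τ hτ'

theorem la_of_cf {N : ℕ} {Q : FC X (Fin N → ℂ)} (h : CF1 Q) {S : Set (Fin N → ℂ)} (hS : Mf S)
    (hP : Q.PC S) : Q.LA S := by
  refine la_of_gn Q hS hP fun x _ => ?_
  obtain ⟨K, -, h1, -, h2⟩ := gn N Q univ isOpen_univ h x (mem_univ x)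
  exact ⟨K, h1, h2⟩

end FC

variable {n : ℕ} {ι : Type} {Q : ι → FC X (Fin (n + 1) → ℂ)} {O : ι → Set (Fin (n + 1) → ℂ)}
  {C Y : Set (Fin (n + 1) → ℂ)}

/-- The support lies in a hypersurface. -/
theorem TL.caseA {e : ℕ} (h : TL X (e + 1) n) (he : e ≤ n) (hO : ∀ i, IsOpen (O i)) (hY : ZC Y)
    (hd : Dim Y (e + 1)) (hC : ZC C) (hdC : Dim C e) (hs : ∀ i, (Q i).Supp Y)
    (h1 : CF Q fun i => O i \ C) :
    ∃ D, ZC D ∧ Dim (D ∩ Y) e ∧ CF (fun i => (Q i).loc Dᶜ) O := by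
  obtain ⟨g, hg, hgY⟩ := (hd.mono_nat (Nat.succ_le_succ he)).exists_poly
  obtain ⟨π, rfl⟩ := exists_prj hg
  have hYZ : Y ⊆ π.Z := hgY
  have hYH : π.φ ⁻¹' Y ⊆ π.H := fun p hp => (π.mem_H p).2 (hYZ hp)
  have hB : ZC (zcl (prj π.v '' C)) := zc_zcl _
  have hdB : Dim (zcl (prj π.v '' C)) e := (π.dim_img hdC).zcl
  have hCB : prj π.v '' C ⊆ zcl (prj π.v '' C) := subset_zcl _
  generalize zcl (prj π.v '' C) = B at hB hdB hCB
  have hD := π.zc_pre hB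
  have hDo : IsOpen (prj π.v ⁻¹' B)ᶜ := hD.isClosed.isOpen_compl
  refine ⟨prj π.v ⁻¹' B, hD, (π.dim_pre hdB).mono (inter_subset_inter_right _ hYZ), ?_⟩
  refine π.cf_desc hO (fun p hp => ⟨1, (Ideal.ne_top_iff_one p).1 hp.ne_top, fun i => ?_⟩) ?_
  · have s1 : ((Q i).loc (prj π.v ⁻¹' B)ᶜ).Supp Y :=
      (hs i).loc hDo hY.isClosed inter_subset_left
    exact (s1.comap π.hφ.isInducing).pc_off.mono fun p hp hy => hp.2.2 (hYH hy)
  · have c1 : CF (π.dn Q) (π.dnO fun i => O i \ C) :=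
      π.cf_dn h1 fun i => (hs i).pc_off.mono fun x hx hy => hx.2 (hYZ hy)
    have c2 : CF (π.dn Q) fun j => π.dnO O j \ B := by
      refine c1.mono fun j a ha => ⟨fun τ hτ => ⟨ha.1.1 τ hτ, fun hc => ha.2 (hCB ?_)⟩, ha.1.2⟩
      exact ⟨_, hc, π.prj_φ (a, τ)⟩
    have c3 := h _ (π.dn Q) (π.dnO O) (zcl (prj π.v '' Y)) B (π.open_dnO hO) (zc_zcl _)
      (π.dim_img hd).zcl hB (fun j => ((hs j.1).comap π.hφ.isInducing).push _
        (zc_zcl _).isClosed fun p hp => subset_zcl _ ⟨_, hp, π.prj_φ p⟩) c2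
    refine c3.of_imp id (fun _ => Subset.rfl) fun j S hS hP γ g1 g2 g3 k => ?_
    have e1 : π.up ((Q j.1).loc (prj π.v ⁻¹' B)ᶜ) = (π.up (Q j.1)).loc (Bᶜ ×ˢ univ) := by
      rw [← π.pre_prj Bᶜ]
      exact FC.comap_loc _ hDo π.hφ
    have sH : (π.up (Q j.1)).Supp π.H := ((hs j.1).comap π.hφ.isInducing).mono hYH
    have e2 : ∀ A ⊆ S, (π.dn (fun i => (Q i).loc (prj π.v ⁻¹' B)ᶜ) j).ZT A =
        ((π.dn Q j).loc Bᶜ).ZT A := fun A hA => by
      unfold Prj.dn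
      rw [e1]
      exact FC.cm1 sH π.closed_H hB.isClosed fun a ha => (hS (hA ha)).2
    have := hP γ g1 g2 g3 k
    unfold FC.Ex at this ⊢
    rw [e2 _ g3.image_subset, e2 _ (singleton_subset_iff.2 (g3 ⟨le_rfl, zero_le_one⟩))]
    exact this

end Pool.Agent.PWV
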