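import Pool.Agent.P.MP_65ad7c_ag.YB2
import Pool.Agent.P.MP_65ad7c_ag.YA4

open Set Filter Topology Metric

noncomputable section
namespace Pool.Agent.PWV

variable {X : Cx} {n : ℕ} {ι : Type} {Q : ι → FC X (Fin (n + 1) → ℂ)}
  {O : ι → Set (Fin (n + 1) → ℂ)} {C : Set (Fin (n + 1) → ℂ)}

theorem bot_YB3 {N : ℕ} : ZI (⊥ : Ideal (MvPolynomial (Fin N) ℂ)) = univ :=
  eq_univ_of_forall fun x f hf => by rw [(Submodule.mem_bot _).1 hf, map_zero]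

/-- the direct images of the complement of the roots are constant off the discriminant -/
theorem po_YB3 (π : Prj n) (hO : ∀ i, IsOpen (O i)) (p0 : ∀ i, (Q i).PC (O i \ π.Z))
    {Δ : Set (Fin n → ℂ)} (hr : ∀ x ∉ Δ, ∃ W ∈ 𝓝 x, Roots π.H W) (j : ι × Dsc) :
    ((π.up (Q j.1)).pushO (π.Hᶜ ∩ univ ×ˢ ball j.2.1 j.2.2)).PC (π.dnO O j \ Δ) := by
  refine FC.pc_local fun x hx => ?_
  obtain ⟨W, hW, h1⟩ := hr x hx.2
  obtain ⟨W', hW', Φ, P, h2⟩ := exists_str isClosed_univ (mem_univ x) (nhdsWithin_le_nhds hW) h1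
    j.2.2.2 hx.1.2
  rw [nhdsWithin_univ] at hW'
  obtain ⟨W₁, h3, h4, h5⟩ :=
    _root_.mem_nhds_iff.1 (inter_mem hW' ((π.open_dnO hO j).mem_nhds hx.1))
  refine ⟨W₁, nhdsWithin_le_nhds (h4.mem_nhds h5), FC.po_str π.closed_H h4
    (h2.mono (h3.trans inter_subset_left)) ?_⟩
  refine ((π.tr_up _).pc π.hφ.isEmbedding _).2 ((p0 j.1).mono ?_)
  rintro _ ⟨p, ⟨⟨h6, h7⟩, h8⟩, rfl⟩
  exact ⟨(h3 h6).2.1 p.2 (ball_subset_closedBall h7), fun h => h8 ((π.mem_H p).2 h)⟩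

/-- passage from open to closed discs -/
theorem key_YB3 {E : Type} [MetricSpace E] (R : FC X (E × ℂ)) {U H : Set (E × ℂ)} (hU : IsOpen U)
    (hH : IsClosed H) {Δ S : Set E} (hΔ : IsClosed Δ) {c : ℂ} {ρ : ℝ} (hρ : 0 ≤ ρ)
    (h : ∀ s, 0 < s → ((R.pushO (Hᶜ ∩ univ ×ˢ ball c s)).loc Δᶜ).PC (S ∩ Nice U H c s)) :
    ((R.loc (Hᶜ ∩ Δᶜ ×ˢ univ)).push (closedBall c ρ)).PC (S ∩ Nice U H c ρ) := by
  intro γ hc hi hm k
  have hA : IsCompact (γ '' Icc 0 1) := isCompact_Icc.image_of_continuousOn hc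
  have hs : γ '' Icc 0 1 ⊆ S ∩ Nice U H c ρ := hm.image_subset
  refine FC.cm2 R hH.isOpen_compl hΔ hA isCompact_singleton hρ ?_
  filter_upwards [nice_right hU hH hA hρ (hs.trans inter_subset_right), self_mem_nhdsWithin]
    with s h1 h2
  exact h s (hρ.trans_lt h2) γ hc hi (fun t ht => ⟨(hm ht).1, h1 ⟨t, ht, rfl⟩⟩) k

/-- The support is the whole space. -/
theorem TL.caseB (h : TL X (n + 1) n) (hO : ∀ i, IsOpen (O i)) (hdC : Dim C (n + 1))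
    (h1 : CF Q fun i => O i \ C) :
    ∃ D, ZC D ∧ Dim D (n + 1) ∧ CF (fun i => (Q i).loc Dᶜ) O := by
  obtain ⟨g₁, hg₁, p1⟩ := h1.top
  obtain ⟨g₂, hg₂, h2⟩ := hdC.exists_poly
  obtain ⟨π, hπ⟩ := exists_prj (mul_ne_zero hg₁ hg₂)
  have p0 : ∀ i, (Q i).PC (O i \ π.Z) := fun i => (p1 i).mono fun x hx => by
    have h3 : MvPolynomial.eval x g₁ * MvPolynomial.eval x g₂ ≠ 0 := by
      rw [← map_mul, ← hπ]; exact hx.2
    exact ⟨⟨hx.1, fun hc => right_ne_zero_of_mul h3 (h2 x hc)⟩, left_ne_zero_of_mul h3⟩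
  obtain ⟨δ, hδ, hr⟩ := π.roots (p := ⊥) Ideal.isPrime_bot
  set Δ : Set (Fin n → ℂ) := {x | MvPolynomial.eval x δ = 0} with hΔ
  have zΔ : ZC Δ := zc_zero δ
  have hr' : ∀ x ∉ Δ, ∃ W ∈ 𝓝 x, Roots π.H W := fun x hx => by
    have h3 := hr x ⟨bot_YB3 ▸ mem_univ x, hx⟩
    rwa [bot_YB3, nhdsWithin_univ] at h3
  have zD : ZC (π.Z ∪ prj π.v ⁻¹' Δ) := (zc_zero π.g).union (π.zc_pre zΔ)
  refine ⟨_, zD, π.dim_Z.union (π.dim_cyl fun h0 => hδ (h0 ▸ zero_mem _)), ?_⟩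
  have e1 : ∀ i, π.up ((Q i).loc (π.Z ∪ prj π.v ⁻¹' Δ)ᶜ) =
      (π.up (Q i)).loc (π.Hᶜ ∩ Δᶜ ×ˢ univ) := fun i => by
    refine (FC.comap_loc _ zD.isClosed.isOpen_compl π.hφ).trans (congrArg _ ?_)
    ext p
    simp only [mem_preimage, mem_compl_iff, mem_union, mem_inter_iff, mem_prod, mem_univ, and_true,
      π.mem_H, π.prj_φ, not_or]
  have h3 := h (ι × Dsc) (fun j => (π.up (Q j.1)).pushO (π.Hᶜ ∩ univ ×ˢ ball j.2.1 j.2.2))
    (π.dnO O) univ Δ (π.open_dnO hO) zc_univ (dim_univ n) zΔ (fun _ => FC.supp_univ _)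
    (cf_of_pc (po_YB3 π hO p0 hr'))
  have hU : ∀ i, IsOpen (π.φ ⁻¹' O i) := fun i => (hO i).preimage π.hφ.continuous
  have h4 : ∀ p : Ideal (MvPolynomial (Fin n) ℂ), p.IsPrime → ∃ δ ∉ p, ∀ i c ρ, 0 ≤ ρ →
      (((π.up (Q i)).loc (π.Hᶜ ∩ Δᶜ ×ˢ univ)).push (closedBall c ρ)).PC
        (Gen p δ ∩ Nice (π.φ ⁻¹' O i) π.H c ρ) := fun p hp =>
    (h3 p hp).imp fun δ' h5 => ⟨h5.1, fun i c ρ hρ => key_YB3 _ (hU i) π.closed_H zΔ.isClosed hρ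
      fun s hs => h5.2 (i, c, ⟨s, hs⟩)⟩
  refine π.cf_desc hO (fun p hp => ?_) fun p hp => (h4 p hp).imp fun δ' h5 => ⟨h5.1, fun j => ?_⟩
  · obtain ⟨δ₁, a1, a2⟩ := h4 p hp
    obtain ⟨δ₂, b1, b2⟩ := gen_mf hp
    refine ⟨δ₂ * δ₁, fun hm => (hp.mem_or_mem hm).elim b1 a1, fun i => ?_⟩
    have hU₀ : IsOpen (π.φ ⁻¹' O i \ π.H) := (hU i).sdiff π.closed_H
    rw [e1]
    refine FC.box _ ?_ hU₀ (fun τ => ?_) fun a _ K hK hc hs τ hτ => ?_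
    · rw [gen_mul']
      exact b2.inter ((MvPolynomial.continuous_eval δ₁).isOpen_preimage _ isOpen_ne)
    · have h6 := a2 i τ 0 le_rfl
      rw [closedBall_zero] at h6
      refine (FC.pc_slice _ τ h6).mono ?_
      rintro ⟨a, t⟩ ⟨⟨h7, rfl⟩, h8⟩
      rw [gen_mul] at h7
      refine ⟨⟨h7.2, fun s hs => ?_, fun s hs => ?_⟩, rfl⟩
      · rw [closedBall_zero] at hs
        exact hs ▸ h8.1
      · rw [sphere_zero] at hs
        exact hs ▸ h8.2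
    · refine FC.ver _ π.closed_H.isOpen_compl hU₀ (fun p hp => hp.2) ?_ zΔ.isClosed hK hc hs hτ
      refine ((π.tr_up _).pc π.hφ.isEmbedding _).2 ((p0 i).mono ?_)
      rintro _ ⟨p, hp, rfl⟩
      exact ⟨hp.1, fun h => hp.2 ((π.mem_H p).2 h)⟩
  · show ((π.up ((Q j.1).loc (π.Z ∪ prj π.v ⁻¹' Δ)ᶜ)).push _).PC _
    rw [e1]
    exact h5.2 j.1 j.2.1 j.2.2 j.2.2.2.le

theorem tl (X : Cx) (e : ℕ) : ∀ N, TL X e N := by
  induction e with
  | zero =>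
    intro N ι Q O Y C _ _ hd hC hs _
    refine cf_of_pc fun i => ?_
    have h1 : ((Q i).loc Cᶜ).Supp ∅ :=
      (hs i).loc hC.isClosed.isOpen_compl isClosed_empty (by rw [dim_zero.1 hd, empty_inter])
    exact h1.pc_off.mono fun _ _ h => h
  | succ e ih =>
    intro N
    induction N with
    | zero => exact fun ι Q O Y C _ _ _ _ _ _ => cf_zero _ _
    | succ n ihn =>
      intro ι Q O Y C hO hY hd hC hs h
      rcases lt_or_ge (n + 1) e with he | he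
      · exact ih _ ι Q O Y C hO hY (((dim_univ _).mono (subset_univ Y)).mono_nat he) hC hs h
      obtain ⟨Y', z', s1, s2, d'⟩ := exists_resid hY hC hd
      have hW : IsOpen Cᶜ := hC.isClosed.isOpen_compl
      have hs' : ∀ i, ((Q i).loc Cᶜ).Supp Y' := fun i => (hs i).loc hW z'.isClosed s2
      have hl : ∀ i, ((Q i).loc Cᶜ).loc Cᶜ = (Q i).loc Cᶜ := fun i => by
        rw [FC.loc_loc _ hW hW, inter_self]
      have h1 : CF (fun i => (Q i).loc Cᶜ) fun i => O i \ C :=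
        h.of_imp id (fun _ => Subset.rfl) fun i S hS hP =>
          (FC.pc_loc_iff hW fun x hx => (hS hx).2).2 hP
      have h2 : CF (fun i => (Q i).loc Cᶜ) fun i => O i \ (C ∩ Y') :=
        CF.supp z' hs' (h1.mono fun i x hx => ⟨hx.1.1, fun hc => hx.1.2 ⟨hc, hx.2⟩⟩)
      rcases he.eq_or_lt with rfl | he
      · obtain ⟨D, zD, dD, h3⟩ := (ih n).caseB hO d' h2
        exact (ih _).red hO z' hC zD (dD.mono inter_subset_left) hs' hl h1 h3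
      · obtain ⟨D, zD, dD, h3⟩ := ihn.caseA (by omega) hO z' (hd.mono s1) (hC.inter z') d' hs' h2
        exact (ih _).red hO z' hC zD dD hs' hl h1 h3

theorem CF1.loc {N : ℕ} {R : FC X (Fin N → ℂ)} (h : CF1 R) {C : Set (Fin N → ℂ)} (hC : ZC C) :
    CF1 (R.loc Cᶜ) :=
  tl X (N + 1) N Unit (fun _ => R) (fun _ => univ) univ C (fun _ => isOpen_univ) zc_univ
    (dim_univ N) hC (fun _ => FC.supp_univ R) (CF.mono h fun _ => subset_univ _)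

theorem CF1.gam {N : ℕ} {R : FC X (Fin N → ℂ)} (h : CF1 R) {C : Set (Fin N → ℂ)} (hC : ZC C) :
    CF1 (R.gam C) :=
  CF.tri_left (Q := fun _ : Unit => R) hC.isClosed h (h.loc hC)

end Pool.Agent.PWV
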