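import Pool.Agent.P.MP_65ad7c_ag.YA3
import Pool.Agent.P.MP_65ad7c_ag.VLCn

open Set Filter Topology Metric

noncomputable section
namespace Pool.Agent.PWV

variable {X X' : Cx} {T : Type} [MetricSpace T] {Q : FC X T} {Q' : FC X' T} {A B C S : Set T}
  {n : ℤ}

theorem Mp.Iso.mono {f : Mp Q' Q} (h : f.Iso n A) (hB : B ⊆ A) : f.Iso n B := by
  exact fun x hx => h x (hB hx)

theorem Mp.up_YC0 (f : Mp Q' Q) {v : X'.V n} (hv : v ∈ Q'.ZT A n) : f.p n v ∈ Q.ZT A n :=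
  FC.mem_ZT.2 ⟨f.top n v (FC.mem_ZT.1 hv).1, fun x hx => f.z n x v ((FC.mem_ZT.1 hv).2 x hx)⟩

theorem Mp.dn_YC0 (f : Mp Q' Q) (h : f.Iso n A) {v : X'.V n} (hv : v ∈ Q'.top n)
    (h' : f.p n v ∈ Q.ZT A n) : v ∈ Q'.ZT A n :=
  FC.mem_ZT.2 ⟨hv, fun x hx => h x hx v hv ((FC.mem_ZT.1 h').2 x hx)⟩

theorem Mp.ex_iff (f : Mp Q' Q) (h : ∀ n, f.Iso n A) (hB : B ⊆ A) :
    Q'.Ex n A B ↔ Q.Ex n A B := by
  constructor
  · intro e v hv hd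
    obtain ⟨v', hv', rfl⟩ := f.sur _ v (FC.mem_ZT.1 hv).1
    obtain ⟨w, hw, hw'⟩ := e v' (f.dn_YC0 ((h _).mono hB) hv' hv)
      (f.dn_YC0 (h _) (Q'.d_top _ _ hv') (by rwa [f.d]))
    refine ⟨f.p n w, f.up_YC0 hw, ?_⟩
    have := f.up_YC0 hw'
    rwa [map_sub, f.d] at this
  · intro e v hv hd
    obtain ⟨w, hw, hw'⟩ := e (f.p _ v) (f.up_YC0 hv) (by
      rw [← f.d]
      exact f.up_YC0 hd)
    obtain ⟨w', hw1, rfl⟩ := f.sur _ w (FC.mem_ZT.1 hw).1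
    refine ⟨w', f.dn_YC0 ((h _).mono hB) hw1 hw, f.dn_YC0 (h _)
      (sub_mem (FC.mem_ZT.1 hv).1 (Q'.d_top _ _ hw1)) ?_⟩
    rwa [map_sub, f.d]

theorem Mp.ex_gam_iff (f : Mp Q' Q) (hC : IsClosed C) (h : ∀ n, f.Iso n (A ∪ Cᶜ)) (hB : B ⊆ A) :
    (Q'.gam C).Ex n A B ↔ (Q.gam C).Ex n A B := by
  rw [FC.gam_ex Q' hC, FC.gam_ex Q hC]
  exact f.ex_iff h (union_subset_union_left _ hB)

theorem Mp.supp (f : Mp Q' Q) (h : ∀ n, f.Iso n Cᶜ) (hs : Q.Supp C) : Q'.Supp C := by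
  exact fun n v hv x hx => h n x hx v hv (hs n _ (f.top n v hv) x hx)

theorem Mp.lcn (f : Mp Q' Q) (h1 : f.Iso (n + 1) univ) (h2 : f.Iso (n + 1 + 1) univ)
    (h : Q.LCn S n) : Q'.LCn S n := by
  intro x hx
  obtain ⟨W, D, hW, hxW, a1, a2⟩ := h x hx
  refine ⟨W, D.comap (f.p (n + 1)) ⊓ Q'.top (n + 1), hW, hxW, fun b hb => ⟨hb.2, ?_⟩,
    fun y hy => ⟨fun b hb hg => ?_, fun v hv hd => ?_⟩⟩
  · refine FC.mem_Z.2 fun y hy => h2 y (mem_univ y) _ (Q'.d_top _ _ hb.2) ?_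
    rw [f.d]
    exact FC.mem_Z.1 (a1 _ hb.1).2 y hy
  · obtain ⟨w, hw, hw'⟩ := (FC.vlcn_pt hb.2).1 hg
    have h3 := (a2 y hy).1 _ hb.1 ((FC.vlcn_pt (f.top _ _ hb.2)).2 ⟨f.p n w, f.top _ _ hw, by
      have := f.z _ _ _ hw'
      rwa [map_sub, f.d] at this⟩)
    exact FC.mem_Z.2 fun t ht => h1 t (mem_univ t) _ hb.2 (FC.mem_Z.1 h3 t ht)
  · obtain ⟨b, hb, hg⟩ := (a2 y hy).2 (f.p _ v) (f.top _ _ hv) (by
      rw [← f.d]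
      exact f.z _ _ _ hd)
    obtain ⟨w, hw, hw'⟩ := (FC.vlcn_pt (sub_mem (f.top _ _ hv) (a1 b hb).1)).1 hg
    obtain ⟨b', hb', rfl⟩ := f.sur _ b (a1 b hb).1
    obtain ⟨w', hw1, rfl⟩ := f.sur _ w hw
    refine ⟨b', ⟨hb, hb'⟩, (FC.vlcn_pt (sub_mem hv hb')).2 ⟨w', hw1, h1 y (mem_univ y) _
      (sub_mem (sub_mem hv hb') (Q'.d_top _ _ hw1)) ?_⟩⟩
    rwa [map_sub, map_sub, f.d]

theorem Mp.one (f : Mp Q' Q) (h : f.Iso 0 S) {a : X.V 0} (ha : Q.One a S) {a' : X'.V 0}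
    (h1 : a' ∈ Q'.top 0) (h2 : f.p 0 a' = a) (h3 : X'.d 0 a' = 0) : Q'.One a' S := by
  refine ⟨h1, h3, fun x hx hz => ha.ne x hx (h2 ▸ f.z 0 x a' hz), fun x hx v hv hd => ?_⟩
  obtain ⟨c, hc⟩ := ha.gen x hx (f.p 0 v) (f.top 0 v hv) (by
    rw [← f.d]
    exact f.z _ _ _ hd)
  refine ⟨c, h x hx _ (sub_mem hv (Submodule.smul_mem _ c h1)) ?_⟩
  rwa [map_sub, map_smul, h2]

/-- There are no sections with support in `C` in low degrees. -/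
theorem Mp.codeg {R : FC X T} (hC : IsClosed C) (f : Mp Q' (R.loc Cᶜ))
    (h : f.Iso (n + 1) univ) (x : T) : (Q'.gam C).Ex n {x} ∅ := by
  intro v hv _
  have hv1 : v ∈ Q'.ZT (closure C)ᶜ (n + 1) := (FC.mem_ZT.1 hv).1
  refine ⟨0, zero_mem _, ?_⟩
  rw [map_zero, sub_zero]
  refine FC.mem_ZT.2 ⟨hv1, fun y _ => h y (mem_univ y) v (FC.mem_ZT.1 hv1).1 ?_⟩
  rw [FC.mem_loc_z R hC.isOpen_compl]
  filter_upwards [self_mem_nhdsWithin] with t ht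
  have h1 := f.z _ t v ((FC.mem_ZT.1 hv1).2 t (by rwa [hC.closure_eq]))
  exact ((FC.mem_loc_z R hC.isOpen_compl).1 h1).self_of_nhdsWithin ht

namespace FC

theorem pc_congr (h : ∀ n A B, B ⊆ A → A ⊆ S → (Q'.Ex n A B ↔ Q.Ex n A B)) :
    Q'.PC S ↔ Q.PC S := by
  have key : ∀ γ : ℝ → T, MapsTo γ (Icc 0 1) S → ∀ n,
      (Q'.Ex n (γ '' Icc 0 1) {γ 0} ↔ Q.Ex n (γ '' Icc 0 1) {γ 0}) := fun γ hγ n =>
    h n _ _ (singleton_subset_iff.2 ⟨0, left_mem_Icc.2 zero_le_one, rfl⟩) hγ.image_subset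
  exact ⟨fun e γ h1 h2 h3 n => (key γ h3 n).1 (e γ h1 h2 h3 n),
    fun e γ h1 h2 h3 n => (key γ h3 n).2 (e γ h1 h2 h3 n)⟩

theorem One.loc {a : X.V 0} (h : Q.One a S) {W : Set T} (hW : IsOpen W) (hS : S ⊆ W) :
    (Q.loc W).One a S := by
  refine ⟨h.top, h.cl, fun x hx hz => h.ne x hx
    (((mem_loc_z Q hW).1 hz).self_of_nhdsWithin (hS hx)), fun x hx v hv hd => ?_⟩
  obtain ⟨c, hc⟩ := h.gen x hx v hv (((mem_loc_z Q hW).1 hd).self_of_nhdsWithin (hS hx))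
  exact ⟨c, (mem_loc_z Q hW).2 (nhdsWithin_le_nhds ((Q.opn _ _).mem_nhds hc))⟩

theorem One.mono {a : X.V 0} (h : Q.One a S) (hS : A ⊆ S) : Q.One a A := by
  exact ⟨h.top, h.cl, fun x hx => h.ne x (hS hx), fun x hx => h.gen x (hS hx)⟩

theorem lcn_of_ex (h : ∀ x ∈ S, Q.Ex n {x} ∅) : Q.LCn S n := by
  intro x _
  refine ⟨univ, ⊥, isOpen_univ, mem_univ x, fun b hb => ?_, fun y hy => ⟨fun b hb _ => ?_,
    fun v hv hd => ⟨0, zero_mem _, ?_⟩⟩⟩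
  · obtain rfl := (Submodule.mem_bot ℂ).1 hb
    exact ⟨zero_mem _, by
      rw [map_zero]
      exact zero_mem _⟩
  · obtain rfl := (Submodule.mem_bot ℂ).1 hb
    exact zero_mem _
  · rw [sub_zero]
    exact h y hy.1 v (mem_ZT.2 ⟨hv, fun _ hx => hx.elim⟩)
      (mem_ZT.2 ⟨Q.d_top _ _ hv, fun t ht => ht ▸ hd⟩)

theorem lcn_one_YC0 (hn : n < 0) {a : X.V (n + 1)} (h1 : a ∈ Q.top (n + 1))
    (h2 : X.d (n + 1) a = 0) (h3 : ∀ x ∈ S, a ∉ Q.z (n + 1) x)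
    (h4 : ∀ x ∈ S, ∀ v ∈ Q.top (n + 1), X.d (n + 1) v ∈ Q.z (n + 1 + 1) x →
      ∃ c : ℂ, v - c • a ∈ Q.z (n + 1) x) : Q.LCn S n := by
  intro x _
  refine ⟨univ, Submodule.span ℂ {a}, isOpen_univ, mem_univ x, fun b hb => ?_,
    fun y hy => ⟨fun b hb hg => ?_, fun v hv hd => ?_⟩⟩
  · obtain ⟨c, rfl⟩ := Submodule.mem_span_singleton.1 hb
    refine ⟨Submodule.smul_mem _ c h1, ?_⟩
    rw [map_smul, h2, smul_zero]
    exact zero_mem _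
  · obtain ⟨c, rfl⟩ := Submodule.mem_span_singleton.1 hb
    obtain ⟨w, hw, hw'⟩ := (vlcn_pt (Submodule.smul_mem _ c h1)).1 hg
    have h5 : c • a ∈ Q.z (n + 1) y := by
      simpa using add_mem hw' (Q.d_z y n w (Q.neg n hn y hw))
    by_cases hc : c = 0
    · rw [hc, zero_smul]
      exact zero_mem _
    · exact absurd ((Submodule.smul_mem_iff _ hc).1 h5) (h3 y hy.1)
  · obtain ⟨c, hc⟩ := h4 y hy.1 v hv hd
    refine ⟨c • a, Submodule.mem_span_singleton.2 ⟨c, rfl⟩,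
      (vlcn_pt (sub_mem hv (Submodule.smul_mem _ c h1))).2 ⟨0, zero_mem _, ?_⟩⟩
    rwa [map_zero, sub_zero]

theorem One.lcn {a : X.V 0} (h : Q.One a S) : Q.LCn S (-1) := by
  exact lcn_one_YC0 (n := -1) (by norm_num) (a := a) h.top h.cl h.ne h.gen

theorem One.pc {a : X.V 0} (h : Q.One a S) (h0 : ∀ x ∈ S, ∀ n, 0 ≤ n → Q.Ex n {x} ∅) :
    Q.PC S := by
  refine pc_of_lcn fun n => ?_
  rcases lt_trichotomy n (-1) with hn | rfl | hn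
  · exact lcn_of_ex fun x _ => Q.ex_neg (by omega) _ _
  · exact h.lcn
  · exact lcn_of_ex fun x hx => h0 x hx n (by omega)

theorem LA.lcn (h : Q.LA S) (n : ℤ) : Q.LCn S n := by
  intro x hx
  obtain ⟨W, K, hW, hxW, hWK, hK⟩ := h x hx
  set Zc : Submodule ℂ (X.V (n + 1)) :=
    Q.top (n + 1) ⊓ (Q.Z K (n + 1 + 1)).comap (X.d (n + 1)) with hZc
  set Bd : Submodule ℂ (X.V (n + 1)) := (Q.top n).map (X.d n) ⊔ Q.Z K (n + 1) with hBd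
  obtain ⟨D, hD⟩ := Submodule.exists_isCompl (Bd.comap Zc.subtype)
  refine ⟨W, D.map Zc.subtype, hW, hxW, ?_, fun y hy => ⟨?_, fun v hv hd => ?_⟩⟩
  · rintro _ ⟨b, _, rfl⟩
    exact ⟨b.2.1, mem_Z.2 fun t ht => mem_Z.1 b.2.2 t (hWK ht)⟩
  · rintro _ ⟨b, hb, rfl⟩ hg
    obtain ⟨w, hw, hw'⟩ := (vlcn_pt b.2.1).1 hg
    obtain ⟨r, hr, hr'⟩ := hK y hy n (b.1 - X.d n w)
      (mem_ZT.2 ⟨sub_mem b.2.1 (Q.d_top _ _ hw), fun t ht => ht ▸ hw'⟩) (by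
        rw [map_sub, X.dd, sub_zero]
        exact ⟨Q.d_top _ _ b.2.1, b.2.2⟩)
    have h1 : b ∈ Bd.comap Zc.subtype := by
      refine Submodule.mem_sup.2 ⟨X.d n (w + r), ⟨w + r, add_mem hw (mem_ZT.1 hr).1, rfl⟩,
        _, hr'.2, ?_⟩
      rw [map_add]
      show _ = b.1
      abel
    have h2 : b = 0 := (Submodule.disjoint_def.1 hD.disjoint) b h1 hb
    rw [h2, map_zero]
    exact zero_mem _
  · obtain ⟨w, hw, hw'⟩ := hK y hy (n + 1) (X.d (n + 1) v)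
      (mem_ZT.2 ⟨Q.d_top _ _ hv, fun t ht => ht ▸ hd⟩) (by
        rw [X.dd]
        exact zero_mem _)
    have hu : v - w ∈ Zc := ⟨sub_mem hv (mem_ZT.1 hw).1, by
      show X.d (n + 1) (v - w) ∈ Q.Z K (n + 1 + 1)
      rw [map_sub]
      exact hw'.2⟩
    have hm : (⟨v - w, hu⟩ : Zc) ∈ Bd.comap Zc.subtype ⊔ D := by
      rw [hD.sup_eq_top]
      exact Submodule.mem_top
    obtain ⟨u1, h1, u2, h2, e⟩ := Submodule.mem_sup.1 hm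
    obtain ⟨_, ⟨r, hr, rfl⟩, k, hk, e1⟩ := Submodule.mem_sup.1 (Submodule.mem_comap.1 h1)
    have e2 : u1.1 + u2.1 = v - w := congrArg Subtype.val e
    have e3 : X.d n r + k = u1.1 := e1
    refine ⟨u2.1, ⟨u2, h2, rfl⟩, (vlcn_pt (sub_mem hv u2.2.1)).2 ⟨r, hr, ?_⟩⟩
    have e4 : v - u2.1 - X.d n r = w + k := by
      rw [← sub_eq_zero, show v - u2.1 - X.d n r - (w + k) = v - w - (X.d n r + k + u2.1) by abel,
        e3, e2, sub_self]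
    rw [e4]
    exact add_mem ((mem_ZT.1 hw).2 y rfl) (mem_Z.1 hk y (hWK hy.2))

end FC

end Pool.Agent.PWV
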