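import Pool.Agent.P.MP_65ad7c_ag.YA0

open Set Filter Topology Metric

noncomputable section
namespace Pool.Agent.PWV

variable {X : Cx} {T : Type} [TopologicalSpace T]

theorem rec_YC1 {A : ℤ → Type} (a : ∀ n, A n) (s : ∀ n, A n → A (n + 1)) (k : ℤ) :
    ∃ g : ∀ n, A n, (∀ n ≤ k, g n = a n) ∧ ∀ n, k ≤ n → g (n + 1) = s n (g n) := by
  refine ⟨fun n => Int.inductionOn' n k (a k) (fun n _ x => s n x) fun n _ _ => a (n - 1),
    fun n hn => ?_, fun n hn => Int.inductionOn'_add_one hn⟩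
  rcases hn.eq_or_lt with rfl | h
  · exact Int.inductionOn'_self
  · obtain ⟨m, rfl⟩ : ∃ m, n = m - 1 := ⟨n + 1, by omega⟩
    exact Int.inductionOn'_sub_one (by omega)

theorem ker_YC1 {V F : Type} [AddCommGroup V] [Module ℂ V] [AddCommGroup F] [Module ℂ F]
    (ι : V →ₗ[ℂ] F) (hι : Function.Injective ι) (N : Submodule ℂ V) :
    ∃ ψ : V →ₗ[ℂ] F, ∀ v, ψ v = 0 ↔ v ∈ N := by
  obtain ⟨s, hs⟩ := N.mkQ.exists_rightInverse_of_surjective N.range_mkQ
  have h : Function.Injective s := fun a b hab => by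
    have h1 := congrArg N.mkQ hab
    rwa [← LinearMap.comp_apply, ← LinearMap.comp_apply, hs] at h1
  refine ⟨ι ∘ₗ s ∘ₗ N.mkQ, fun v => ?_⟩
  rw [LinearMap.comp_apply, LinearMap.comp_apply, map_eq_zero_iff _ hι, map_eq_zero_iff _ h,
    Submodule.mkQ_apply, Submodule.Quotient.mk_eq_zero]

/-- a large space -/
abbrev kF_YC1 (Q : FC X T) : Type := List T → ∀ n, Q.top n

/-- the terms of the new complex -/
abbrev kV_YC1 (Q : FC X T) (n : ℤ) : Type := Q.top n × (T → kF_YC1 Q)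

/-- the terms embed in the large space -/
def kI_YC1 (Q : FC X T) (n : ℤ) : kV_YC1 Q n →ₗ[ℂ] kF_YC1 Q where
  toFun u l := match l with
    | [] => Pi.single n u.1
    | x :: l => u.2 x l
  map_add' u v := by
    funext l
    cases l with
    | nil => exact Pi.single_add (f := fun n => Q.top n) n u.1 v.1
    | cons x l => rfl
  map_smul' c u := by
    funext l
    cases l with
    | nil => exact Pi.single_smul (f := fun n => Q.top n) n c u.1
    | cons x l => rfl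

theorem kI_inj_YC1 (Q : FC X T) (n : ℤ) : Function.Injective (kI_YC1 Q n) := fun u v h =>
  Prod.ext (Pi.single_injective n (congrFun h [])) (funext fun x => funext fun l => congrFun h (x :: l))

/-- the differential -/
def kD_YC1 (Q : FC X T) (n : ℤ) (ψ : T → kV_YC1 Q n →ₗ[ℂ] kF_YC1 Q) :
    kV_YC1 Q n →ₗ[ℂ] kV_YC1 Q (n + 1) :=
  (((X.d n).restrict (Q.d_top n)) ∘ₗ LinearMap.fst ℂ _ _).prod (LinearMap.pi ψ)

/-- the germ kernels -/
def kZ_YC1 (Q : FC X T) (Z : Set T) (k n : ℤ) (x : T) : Submodule ℂ (kV_YC1 Q n) where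
  carrier := {u | u.1.1 ∈ Q.z n x ∧ (k + 2 ≤ n → ∀ᶠ y in 𝓝 x, y ∈ Z → u.2 y = 0)}
  add_mem' := fun {u v} hu hv => ⟨add_mem hu.1 hv.1, fun h => by
    filter_upwards [hu.2 h, hv.2 h] with y h1 h2 hy
    show u.2 y + v.2 y = 0
    rw [h1 hy, h2 hy, add_zero]⟩
  zero_mem' := ⟨zero_mem _, fun _ => Eventually.of_forall fun _ _ => rfl⟩
  smul_mem' := fun c u hu => ⟨Submodule.smul_mem _ c hu.1, fun h => by
    filter_upwards [hu.2 h] with y h1 hy
    show c • u.2 y = 0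
    rw [h1 hy, smul_zero]⟩

theorem kZ_open_YC1 (Q : FC X T) (Z : Set T) (k n : ℤ) (u : kV_YC1 Q n) :
    IsOpen {x | u ∈ kZ_YC1 Q Z k n x} := by
  rw [isOpen_iff_eventually]
  intro x hx
  have h1 : ∀ᶠ y in 𝓝 x, u.1.1 ∈ Q.z n y := (Q.opn n u.1.1).mem_nhds hx.1
  by_cases h : k + 2 ≤ n
  · filter_upwards [h1, (hx.2 h).eventually_nhds] with y h2 h3 using ⟨h2, fun _ => h3⟩
  · filter_upwards [h1] with y h2 using ⟨h2, fun h' => absurd h' h⟩

/-- Killing the cohomology along `Z` in degrees `> k`. -/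
theorem kill (Q : FC X T) {Z : Set T} (hZ : IsClosed Z) {k : ℤ} (hk : -1 ≤ k) {a : X.V 0}
    (ha : a ∈ Q.top 0) (hd : X.d 0 a = 0) :
    ∃ (X' : Cx) (Q' : FC X' T) (f : Mp Q' Q) (a' : X'.V 0), a' ∈ Q'.top 0 ∧ f.p 0 a' = a ∧
      X'.d 0 a' = 0 ∧ (∀ n, f.Iso n Zᶜ) ∧ (∀ n ≤ k + 1, f.Iso n univ) ∧
      (∀ x ∈ Z, ∀ n, k ≤ n → 0 ≤ n → Q'.Ex n {x} ∅) ∧
      (k = -1 → ∀ x ∈ Z, ∀ v ∈ Q'.top 0, X'.d 0 v ∈ Q'.z (0 + 1) x →
        ∃ c : ℂ, v - c • a' ∈ Q'.z 0 x) := by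
  classical
  let a' : kV_YC1 Q 0 := (⟨a, ha⟩, 0)
  let A : ∀ n, Submodule ℂ (kV_YC1 Q n) := Function.update (fun _ => ⊥) 0 (Submodule.span ℂ {a'})
  choose s hs using fun n => ker_YC1 (kI_YC1 Q n) (kI_inj_YC1 Q n)
  obtain ⟨ψ, h0, h1⟩ := rec_YC1 (A := fun n => T → kV_YC1 Q n →ₗ[ℂ] kF_YC1 Q) (fun _ => 0)
    (fun n ψ x => s (n + 1) (kZ_YC1 Q Z k (n + 1) x ⊔ LinearMap.range (kD_YC1 Q n ψ) ⊔ A (n + 1))) k
  have h2 : ∀ n, k ≤ n → ∀ x v, ψ (n + 1) x v = 0 ↔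
      v ∈ kZ_YC1 Q Z k (n + 1) x ⊔ LinearMap.range (kD_YC1 Q n (ψ n)) ⊔ A (n + 1) :=
    fun n hn x v => by rw [h1 n hn]; exact hs _ _ _
  have h3 : ∀ n x, ∀ v ∈ kZ_YC1 Q Z k n x, ψ n x v = 0 := fun n x v hv => by
    rcases le_or_gt n k with h | h
    · rw [h0 n h]; rfl
    · obtain ⟨m, rfl⟩ : ∃ m, n = m + 1 := ⟨n - 1, by omega⟩
      exact (h2 m (by omega) x v).2 (Submodule.mem_sup_left (Submodule.mem_sup_left hv))
  let X' : Cx :=
    { V := kV_YC1 Q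
      d := fun n => kD_YC1 Q n (ψ n)
      dd := fun n v => Prod.ext (Subtype.ext (X.dd n v.1.1)) (funext fun x => by
        show ψ (n + 1) x _ = 0
        rcases le_or_gt k n with h | h
        · exact (h2 n h x _).2 (Submodule.mem_sup_left (Submodule.mem_sup_right ⟨v, rfl⟩))
        · rw [h0 (n + 1) h]; rfl) }
  let Q' : FC X' T :=
    { top := fun _ => ⊤
      z := kZ_YC1 Q Z k
      d_top := fun _ _ _ => trivial
      d_z := fun x n v hv => ⟨Q.d_z x n v.1.1 hv.1, fun _ => by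
        filter_upwards [(kZ_open_YC1 Q Z k n v).mem_nhds hv] with y hy _ using h3 n y v hy⟩
      opn := kZ_open_YC1 Q Z k
      glue := fun n ι O v hO _ h => by
        obtain ⟨w, hw, hw'⟩ := Q.glue n ι O (fun i => (v i).1.1) hO (fun i => (v i).1.2)
          fun i j x hx => (h i j x hx).1
        refine ⟨(⟨w, hw⟩, fun y => if hy : ∃ i, y ∈ O i then (v hy.choose).2 y else 0), trivial,
          fun i x hx => ⟨hw' i x hx, fun hn => ?_⟩⟩
        filter_upwards [(hO i).mem_nhds hx] with y hy hyZ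
        have hy' : ∃ i, y ∈ O i := ⟨i, hy⟩
        show (if hy : ∃ i, y ∈ O i then (v hy.choose).2 y else 0) - (v i).2 y = 0
        rw [dif_pos hy']
        exact ((h _ i y ⟨hy'.choose_spec, hy⟩).2 hn).self_of_nhds hyZ
      neg := fun n hn x v _ => ⟨Q.neg n hn x v.1.2, fun h => by omega⟩ }
  let f : Mp Q' Q :=
    { p := fun n => (Q.top n).subtype ∘ₗ LinearMap.fst ℂ _ _
      d := fun _ _ => rfl
      top := fun _ v _ => v.1.2
      sur := fun _ v hv => ⟨(⟨v, hv⟩, 0), trivial, rfl⟩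
      z := fun _ _ _ hv => hv.1 }
  have h4 : ∀ x ∈ Z, ∀ n, k ≤ n → ∀ v : X'.V (n + 1), X'.d (n + 1) v ∈ Q'.z (n + 1 + 1) x →
      v ∈ kZ_YC1 Q Z k (n + 1) x ⊔ LinearMap.range (kD_YC1 Q n (ψ n)) ⊔ A (n + 1) :=
    fun x hx n hn v hv => (h2 n hn x v).1 ((hv.2 (by omega)).self_of_nhds hx)
  refine ⟨X', Q', f, a', trivial, rfl, Prod.ext (Subtype.ext hd) (funext fun x => ?_),
    fun n x hx v _ hv => ⟨hv, fun _ => ?_⟩, fun n hn x _ v _ hv => ⟨hv, fun h => by omega⟩,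
    fun x hx n hn hn0 v _ hv => ?_, fun hk' x hx v _ hv => ?_⟩
  · show ψ 0 x a' = 0
    rcases le_or_gt 0 k with h | h
    · rw [h0 0 h]; rfl
    · have h7 := h2 (-1) (by omega) x
      refine (h7 a').2 (Submodule.mem_sup_right ?_)
      show a' ∈ A 0
      simp only [A, Function.update_self]
      exact Submodule.mem_span_singleton_self a'
  · filter_upwards [hZ.isOpen_compl.mem_nhds hx] with y hy hyZ using absurd hyZ hy
  · have h5 := h4 x hx n hn v ((FC.mem_ZT.1 hv).2 x rfl)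
    have h6 : A (n + 1) = ⊥ := Function.update_of_ne (by omega) _ _
    rw [h6, sup_bot_eq] at h5
    obtain ⟨b, hb, _, ⟨w, rfl⟩, rfl⟩ := Submodule.mem_sup.1 h5
    refine ⟨w, FC.mem_ZT.2 ⟨trivial, fun _ h => h.elim⟩, FC.mem_ZT.2 ⟨trivial, ?_⟩⟩
    rintro _ rfl
    show b + kD_YC1 Q n (ψ n) w - kD_YC1 Q n (ψ n) w ∈ _
    rwa [add_sub_cancel_right]
  · have h5 : v ∈ kZ_YC1 Q Z k 0 x ⊔ LinearMap.range (kD_YC1 Q (-1) (ψ (-1))) ⊔ A 0 :=
      h4 x hx (-1) hk'.le v hv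
    obtain ⟨_, hb, t, ht, rfl⟩ := Submodule.mem_sup.1 h5
    obtain ⟨b, hb', _, ⟨w, rfl⟩, rfl⟩ := Submodule.mem_sup.1 hb
    simp only [A, Function.update_self] at ht
    obtain ⟨c, rfl⟩ := Submodule.mem_span_singleton.1 ht
    refine ⟨c, ?_⟩
    rw [add_sub_cancel_right]
    exact add_mem hb' (Q'.d_z x (-1) w (Q'.neg (-1) (by omega) x trivial))

/-- functions in degree zero -/
def fn_YC1 (T : Type) : Cx where
  V _ := T → ℂ
  d _ := 0
  dd _ _ := rfl

/-- discontinuous functions on `Y` -/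
def fc_YC1 (Y : Set T) : FC (fn_YC1 T) T where
  top _ := ⊤
  z n x :=
    { carrier := {f : T → ℂ | n = 0 → ∀ᶠ y in 𝓝 x, y ∈ Y → f y = 0}
      add_mem' := fun {u v} hu hv h => by
        filter_upwards [hu h, hv h] with y h1 h2 hy
        show (u : T → ℂ) y + (v : T → ℂ) y = 0
        rw [h1 hy, h2 hy, add_zero]
      zero_mem' := fun _ => Eventually.of_forall fun _ _ => rfl
      smul_mem' := fun c u hu h => by
        filter_upwards [hu h] with y h1 hy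
        show c • (u : T → ℂ) y = 0
        rw [h1 hy, smul_zero] }
  d_top _ _ _ := trivial
  d_z _ _ _ _ _ := Eventually.of_forall fun _ _ => rfl
  opn n v := by
    rw [isOpen_iff_eventually]
    intro x hx
    by_cases h : n = 0
    · filter_upwards [(hx h).eventually_nhds] with y h3 _ using h3
    · exact Eventually.of_forall fun y h' => absurd h' h
  glue n ι O v hO _ h := by
    classical
    refine ⟨fun y => if hy : ∃ i, y ∈ O i then (v hy.choose : T → ℂ) y else 0, trivial,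
      fun i x hx hn => ?_⟩
    filter_upwards [(hO i).mem_nhds hx] with y hy hyZ
    have hy' : ∃ i, y ∈ O i := ⟨i, hy⟩
    show (if hy : ∃ i, y ∈ O i then (v hy.choose : T → ℂ) y else 0) - (v i : T → ℂ) y = 0
    rw [dif_pos hy']
    exact (h _ i y ⟨hy'.choose_spec, hy⟩ hn).self_of_nhds hyZ
  neg n hn x v _ h := by omega

/-- A flabby resolution of the constant sheaf on a closed set. -/
theorem exists_const {Y : Set T} (hY : IsClosed Y) :
    ∃ (X : Cx) (Q : FC X T) (a : X.V 0), Q.Supp Y ∧ Q.One a Y ∧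
      ∀ x ∈ Y, ∀ n, 0 ≤ n → Q.Ex n {x} ∅ := by
  obtain ⟨X, Q, f, a, h1, h2, h3, h4, -, h5, h6⟩ := kill (fc_YC1 Y) hY (k := -1) le_rfl
    (a := fun _ => (1 : ℂ)) trivial rfl
  refine ⟨X, Q, a, fun n v hv x hx => h4 n x hx v hv fun _ => ?_,
    ⟨h1, h3, fun x hx h => ?_, h6 rfl⟩, fun x hx n hn => h5 x hx n (by omega) hn⟩
  · filter_upwards [hY.isOpen_compl.mem_nhds hx] with y hy hyZ using absurd hyZ hy
  · have h7 := (f.z 0 x a h rfl).self_of_nhds hx
    rw [h2] at h7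
    exact one_ne_zero h7

end Pool.Agent.PWV
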