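import Pool.Agent.P.MP_65ad7c_ag.YC0
import Pool.Agent.P.MP_65ad7c_ag.YC1
import Pool.Agent.P.MP_65ad7c_ag.YB3

open Set Filter Topology Metric

noncomputable section
namespace Pool.Agent.PWV

variable {X X' : Cx} {N d c : ℕ}

theorem cf_kill {Q : FC X (Fin N → ℂ)} {Q' : FC X' (Fin N → ℂ)} (h : CF1 Q)
    {Z : Set (Fin N → ℂ)} (hZ : ZC Z) (f : Mp Q' Q) {k : ℤ} (h1 : ∀ n, f.Iso n Zᶜ)
    (h2 : ∀ n ≤ k + 1, f.Iso n univ) (h3 : ∀ x ∈ Z, ∀ n, k ≤ n → Q'.Ex n {x} ∅) : CF1 Q' := by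
  intro p hp
  obtain ⟨δ, hδ, hP⟩ := h p hp
  have hP0 : Q.PC (Gen p δ) := by simpa using hP ()
  by_cases hs : ZI p ⊆ Z
  · obtain ⟨ε, hε, hM⟩ := gen_mf hp
    refine ⟨ε * δ, fun e => (hp.mem_or_mem e).elim hε hδ, fun _ => ?_⟩
    have hS : Mf (Gen p (ε * δ)) := by
      rw [gen_mul']
      exact hM.inter (isOpen_ne_fun (MvPolynomial.continuous_eval δ) continuous_const)
    have hQ : Q.PC (Gen p (ε * δ)) := hP0.mono (by rw [gen_mul]; exact inter_subset_right)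
    have hL := FC.la_of_cf h hS hQ
    refine (FC.pc_of_lcn (S := Gen p (ε * δ)) fun n => ?_).mono inter_subset_left
    rcases le_or_gt k n with hn | hn
    · exact FC.lcn_of_ex fun x hx => h3 x (hs hx.1) n hn
    · exact f.lcn (h2 _ (by omega)) (h2 _ (by omega)) (hL.lcn n)
  · obtain ⟨ε, hε, hz⟩ := hZ.exists_not_mem hs
    refine ⟨δ * ε, fun e => (hp.mem_or_mem e).elim hδ hε, fun _ => ?_⟩
    have hsub : Gen p (δ * ε) ∩ univ ⊆ Zᶜ := by
      rw [gen_mul']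
      exact fun x hx hxZ => hx.1.2 (hz x hxZ)
    refine (FC.pc_congr fun n A B hB hA =>
      f.ex_iff (fun m => (h1 m).mono (hA.trans hsub)) hB).2 (hP0.mono ?_)
    rw [gen_mul]
    exact fun x hx => hx.1.1

theorem fic_one {p : Ideal (MvPolynomial (Fin N) ℂ)} (hp : p.IsPrime) :
    ∃ (d : ℕ) (X : Cx) (Q : FC X (Fin N → ℂ)) (a : X.V 0) (F : ℕ → Set (Fin N → ℂ)),
      F 0 = ZI p ∧ (F 0 \ F 1).Nonempty ∧ FIC d F Q a 1 := by
  obtain ⟨δ, hδ, e, ι, n1, n2, hch⟩ := gchart N p hp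
  have hY := (zc_ZI p).isClosed
  obtain ⟨X, Q, a, hs, ho, hx⟩ := exists_const hY
  have hP : Q.PC (ZI p) := ho.pc hx
  have hd := drop hp hδ n2
  refine ⟨e, X, Q, a, fun j => if j = 0 then ZI p else ZI p ∩ {x | MvPolynomial.eval x δ = 0},
    rfl, ?_, ⟨hs, ?_, fun j => ?_, fun i j hij => ?_, fun j hj => ?_, fun j hj x hx' => ?_,
      ho.mono sdiff_subset, fun j hj => ?_, fun j hj x hx' n h0 _ => ?_,
      fun j hj h0 => by omega⟩⟩
  · by_contra hne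
    rw [not_nonempty_iff_eq_empty, sdiff_eq_empty] at hne
    exact n1 (hd.mono hne)
  · exact CF.supp (zc_ZI p) (fun _ => hs) (cf_of_pc fun _ => hP.mono inter_subset_right)
  · split_ifs
    exacts [zc_ZI p, (zc_ZI p).inter (zc_zero δ)]
  · by_cases hi : i = 0
    · simp only [hi, if_true]
      split_ifs
      exacts [Subset.rfl, inter_subset_left]
    · have hj : j ≠ 0 := by omega
      simp only [hi, hj, if_false]
      exact Subset.rfl
  · rcases Nat.le_one_iff_eq_zero_or_eq_one.1 hj with rfl | rfl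
    exacts [n2, hd]
  · obtain rfl : j = 0 := by omega
    exact ⟨ι, hch x hx'.1 fun h0 => hx'.2 ⟨hx'.1, h0⟩⟩
  · obtain rfl : j = 0 := by omega
    refine ⟨hP.mono sdiff_subset, ?_⟩
    have : Q.gam (ZI p) = Q := hs.gam_eq hY
    exact (this.symm ▸ hP : (Q.gam (ZI p)).PC (ZI p)).mono sdiff_subset
  · obtain rfl : j = 0 := by omega
    exact hx x hx'.1 n h0

/-- The step of the construction of Deligne. -/
theorem FIC.step {Q : FC X (Fin N → ℂ)} {a : X.V 0} {F : ℕ → Set (Fin N → ℂ)}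
    (h : FIC d F Q a c) (h0 : 0 < c) (hc : c ≤ d) :
    ∃ (X' : Cx) (Q' : FC X' (Fin N → ℂ)) (a' : X'.V 0) (F' : ℕ → Set (Fin N → ℂ)),
      (∀ j ≤ c, F' j = F j) ∧ FIC d F' Q' a' (c + 1) := by
  have cl : ∀ j, IsClosed (F j) := fun j => (h.zc j).isClosed
  have op : IsOpen (F c)ᶜ := (cl c).isOpen_compl
  obtain ⟨X', Q', f, a', a1, a2, a3, i1, i2, i3, -⟩ := kill (Q.loc (F c)ᶜ) (cl c)
    (k := (c : ℤ) - 1) (by omega) (a := a) h.one.top h.one.cl
  have c1 : CF1 Q' := cf_kill (h.cf.loc (h.zc c)) (h.zc c) f i1 i2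
    fun x hx n hn => i3 x hx n hn (by omega)
  have c2 : CF1 (Q'.gam (F c)) := c1.gam (h.zc c)
  have hd : Dim (F c) (d - c + 1) := by
    have := h.dim c le_rfl
    rwa [show d + 1 - c = d - c + 1 by omega] at this
  obtain ⟨V1, z1, d1, p1⟩ := CF.dim c1 (h.zc c) hd
  obtain ⟨V2, z2, d2, p2⟩ := CF.dim c2 (h.zc c) hd
  obtain ⟨V3, z3, d3, p3⟩ := gen_chart (h.zc c) hd
  obtain ⟨F', hF⟩ : ∃ F' : ℕ → Set (Fin N → ℂ),
      F' = fun j => if j ≤ c then F j else F c ∩ (V1 ∪ V2 ∪ V3) := ⟨_, rfl⟩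
  have e1 : ∀ j ≤ c, F' j = F j := fun j hj => by simp only [hF, hj, if_true]
  have e2 : ∀ j, c < j → F' j = F c ∩ (V1 ∪ V2 ∪ V3) := fun j hj => by
    simp only [hF, hj.not_ge, if_false]
  have s1 : ∀ j < c, F j \ F (j + 1) ⊆ (F c)ᶜ := fun j hj x hx hx' => hx.2 (h.anti hj hx')
  have s2 : ∀ j ≤ c, (F j)ᶜ ⊆ (F c)ᶜ := fun j hj => compl_subset_compl.2 (h.anti hj)
  have t1 : ∀ n A B, B ⊆ A → A ⊆ (F c)ᶜ → (Q'.Ex n A B ↔ Q.Ex n A B) := fun n A B hB hA =>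
    (f.ex_iff (fun m => (i1 m).mono hA) hB).trans (FC.ex_loc_iff op hA hB)
  have t2 : ∀ j ≤ c, ∀ n A B, B ⊆ A → A ⊆ (F c)ᶜ →
      ((Q'.gam (F j)).Ex n A B ↔ (Q.gam (F j)).Ex n A B) := fun j hj n A B hB hA =>
    (f.ex_gam_iff (cl j) (fun m => (i1 m).mono (union_subset hA (s2 j hj))) hB).trans
      (FC.ex_gam_loc_iff op (cl j) (s2 j hj) hA hB)
  have old : ∀ j < c, F' j = F j ∧ F' (j + 1) = F (j + 1) := fun j hj => ⟨e1 j hj.le, e1 _ hj⟩
  have new : F' c \ F' (c + 1) ⊆ F c \ (V1 ∪ V2 ∪ V3) := by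
    rw [e1 c le_rfl, e2 _ c.lt_succ_self]
    exact fun x hx => ⟨hx.1, fun hv => hx.2 ⟨hx.1, hv⟩⟩
  refine ⟨X', Q', a', F', e1, ?_, c1, fun j => ?_, fun i j hij => ?_, fun j hj => ?_,
    fun j hj x hx => ?_, ?_, fun j hj => ?_, fun j hj x hx n n0 n1 => ?_,
    fun j hj j0 x hx n n1 => ?_⟩
  · rw [e1 0 h0.le]
    exact f.supp (fun n => (i1 n).mono (s2 0 h0.le)) (h.supp.loc op (cl 0) inter_subset_left)
  · rcases le_or_gt j c with hj | hj
    · rw [e1 j hj]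
      exact h.zc j
    · rw [e2 j hj]
      exact (h.zc c).inter ((z1.union z2).union z3)
  · rcases le_or_gt j c with hj | hj
    · rw [e1 j hj, e1 i (hij.trans hj)]
      exact h.anti hij
    · rcases le_or_gt i c with hi | hi
      · rw [e2 j hj, e1 i hi]
        exact inter_subset_left.trans (h.anti hi)
      · rw [e2 j hj, e2 i hi]
  · rcases le_or_gt j c with hj' | hj'
    · rw [e1 j hj']
      exact h.dim j hj'
    · rw [e2 j hj', show d + 1 - j = d - c by omega]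
      exact ((d1.union d2).union d3).mono inter_subset_right
  · rcases (Nat.lt_succ_iff.1 hj).lt_or_eq with hj' | rfl
    · rw [(old j hj').2] at hx
      rw [(old j hj').1] at hx ⊢
      exact h.chart j hj' x hx
    · rw [e1 j le_rfl]
      exact p3 x ⟨(new hx).1, fun hv => (new hx).2 (Or.inr hv)⟩
  · rw [(old 0 h0).1, (old 0 h0).2]
    exact f.one ((i2 0 (by omega)).mono (subset_univ _)) (h.one.loc op (s1 0 h0)) a1 a2 a3
  · rcases (Nat.lt_succ_iff.1 hj).lt_or_eq with hj' | rfl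
    · rw [(old j hj').1, (old j hj').2]
      exact ⟨(FC.pc_congr fun n A B hB hA => t1 n A B hB (hA.trans (s1 j hj'))).2 (h.pc j hj').1,
        (FC.pc_congr fun n A B hB hA => t2 j hj'.le n A B hB (hA.trans (s1 j hj'))).2
          (h.pc j hj').2⟩
    · refine ⟨(p1 ()).mono fun x hx =>
        ⟨⟨(new hx).1, fun hv => (new hx).2 (Or.inl (Or.inl hv))⟩, trivial⟩, ?_⟩
      have := (p2 ()).mono (B := F' j \ F' (j + 1)) fun x hx =>
        ⟨⟨(new hx).1, fun hv => (new hx).2 (Or.inl (Or.inr hv))⟩, trivial⟩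
      rwa [← e1 j le_rfl] at this
  · rcases (Nat.lt_succ_iff.1 hj).lt_or_eq with hj' | rfl
    · rw [(old j hj').1, (old j hj').2] at hx
      exact (t1 n _ _ (empty_subset _) (singleton_subset_iff.2 (s1 j hj' hx))).2
        (h.deg j hj' x hx n n0 n1)
    · exact i3 x (new hx).1 n (by omega) n0
  · rcases (Nat.lt_succ_iff.1 hj).lt_or_eq with hj' | rfl
    · rw [(old j hj').2] at hx
      rw [(old j hj').1] at hx ⊢
      exact (t2 j hj'.le n _ _ (empty_subset _) (singleton_subset_iff.2 (s1 j hj' hx))).2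
        (h.codeg j hj' j0 x hx n n1)
    · rw [e1 j le_rfl]
      exact f.codeg (cl j) (i2 _ (by omega)) x

theorem exists_fic {p : Ideal (MvPolynomial (Fin N) ℂ)} (hp : p.IsPrime) :
    ∃ (d : ℕ) (X : Cx) (Q : FC X (Fin N → ℂ)) (a : X.V 0) (F : ℕ → Set (Fin N → ℂ)),
      F 0 = ZI p ∧ (F 0 \ F 1).Nonempty ∧ ∀ c, FIC d F Q a c := by
  obtain ⟨d, X, Q, a, F, b⟩ := fic_one hp
  have key : ∀ c ≤ d, ∃ (X : Cx) (Q : FC X (Fin N → ℂ)) (a : X.V 0)
      (F : ℕ → Set (Fin N → ℂ)), F 0 = ZI p ∧ (F 0 \ F 1).Nonempty ∧ FIC d F Q a (c + 1) := by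
    intro c
    induction c with
    | zero => exact fun _ => ⟨X, Q, a, F, b⟩
    | succ c ih =>
      intro hc
      obtain ⟨X, Q, a, F, b1, b2, b3⟩ := ih (by omega)
      obtain ⟨X', Q', a', F', e, h⟩ := b3.step c.succ_pos hc
      refine ⟨X', Q', a', F', (e 0 (by omega)).trans b1, ?_, h⟩
      rwa [e 0 (by omega), e 1 (by omega)]
  obtain ⟨X, Q, a, F, b1, b2, h⟩ := key d le_rfl
  have em : ∀ j, d + 1 ≤ j → F j = ∅ := fun j hj => by
    have := h.dim (d + 1) le_rfl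
    rw [Nat.sub_self, dim_zero] at this
    exact subset_eq_empty (h.anti hj) this
  have lt : ∀ j x, x ∈ F j \ F (j + 1) → j < d + 1 := fun j x hx => by
    by_contra hj
    have := hx.1
    rw [em j (by omega)] at this
    exact this
  have pe : ∀ (R : FC X (Fin N → ℂ)) (j : ℕ), d + 1 ≤ j → R.PC (F j \ F (j + 1)) :=
    fun R j hj γ _ _ hm => absurd (lt j _ (hm (left_mem_Icc.2 zero_le_one))) (by omega)
  refine ⟨d, X, Q, a, F, b1, b2, fun c => ⟨h.supp, h.cf, h.zc, h.anti, fun j _ => ?_,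
    fun j _ x hx => h.chart j (lt j x hx) x hx, h.one, fun j _ => ?_,
    fun j _ x hx => h.deg j (lt j x hx) x hx, fun j _ j0 x hx => h.codeg j (lt j x hx) j0 x hx⟩⟩
  · rcases le_or_gt j (d + 1) with hj | hj
    · exact h.dim j hj
    · rw [em j hj.le]
      exact dim_empty _
  · rcases lt_or_ge j (d + 1) with hj | hj
    exacts [h.pc j hj, ⟨pe _ j hj, pe _ j hj⟩]

theorem FIC.lcn {Q : FC X (Fin N → ℂ)} {a : X.V 0} {F : ℕ → Set (Fin N → ℂ)}
    (h : FIC d F Q a c) {j : ℕ} (hj : j < c) (n : ℤ) :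
    Q.LCn (F j \ F (j + 1)) n ∧ (Q.gam (F j)).LCn (F j \ F (j + 1)) n := by
  have hM : Mf (F j \ F (j + 1)) := mf_of_chart (h.zc _).isClosed fun x hx =>
    (h.chart j hj x hx).elim fun s hs => ⟨_, _, hs⟩
  exact ⟨(FC.la_of_cf h.cf hM (h.pc j hj).1).lcn n,
    (FC.la_of_cf (h.cf.gam (h.zc j)) hM (h.pc j hj).2).lcn n⟩

end Pool.Agent.PWV
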