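import Pool.Agent.P.MP_65ad7c_ag.VSh
import Pool.Agent.P.MP_65ad7c_ag.YC3

open Set Filter Topology TopologicalSpace CategoryTheory Opposite
open Pool.Agent.PWD (Sec rs dd Coc Cob)

noncomputable section
namespace Pool.Agent.PWV

variable {X : Cx} {Y : Type} [TopologicalSpace Y]

/-- `I` is the complex of sheaves presented by `R`. -/
structure Pres (R : FC X Y) (I : PWD.Cx Y)
    (m : ∀ (n : ℕ) (W : Opens Y), R.top n →ₗ[ℂ] Sec I n W) : Prop where
  inj : ∀ n, Injective (I.X n)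
  sur : ∀ n W, Function.Surjective (m n W)
  ker : ∀ (n : ℕ) (W : Opens Y) v, m n W v = 0 ↔ ∀ y ∈ W, v.1 ∈ R.z n y
  res : ∀ n (W W' : Opens Y) (h : W' ≤ W) v, rs h (m n W v) = m n W' v
  d : ∀ (n : ℕ) W (v : R.top n), dd n (n + 1) (m n W v) = m (n + 1) W ⟨X.d n v.1, R.d_top n v.1 v.2⟩

section gen
variable {V V' : Type} [AddCommGroup V] [Module ℂ V] [AddCommGroup V'] [Module ℂ V']

/-- a vector space with the subspaces of elements that vanish on open sets -/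
structure Kr_YD0 (Y V : Type) [TopologicalSpace Y] [AddCommGroup V] [Module ℂ V] where
  K : Opens Y → Submodule ℂ V
  anti : ∀ {W W'}, W' ≤ W → K W ≤ K W'
  loc : ∀ (ι : Type) (O : ι → Opens Y) v, (∀ i, v ∈ K (O i)) → v ∈ K (iSup O)
  glue : ∀ (ι : Type) (O : ι → Opens Y) (v : ι → V), (∀ i j, v i - v j ∈ K (O i ⊓ O j)) →
    ∃ w, ∀ i, w - v i ∈ K (O i)

/-- the map of quotients -/
def q_YD0 {p : Submodule ℂ V} {q : Submodule ℂ V'} (f : V →ₗ[ℂ] V') (h : p ≤ q.comap f) :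
    ModuleCat.of ℂ (V ⧸ p) ⟶ ModuleCat.of ℂ (V' ⧸ q) := ModuleCat.ofHom (Submodule.mapQ p q f h)

theorem qmk_YD0 {p : Submodule ℂ V} {q : Submodule ℂ V'} (f : V →ₗ[ℂ] V') (h : p ≤ q.comap f)
    (v : V) : (q_YD0 f h).hom (Submodule.Quotient.mk v) = Submodule.Quotient.mk (f v) := rfl

theorem qext_YD0 {p : Submodule ℂ V} {B : ModuleCat.{0} ℂ} {f g : ModuleCat.of ℂ (V ⧸ p) ⟶ B}
    (h : ∀ v, f.hom (Submodule.Quotient.mk v) = g.hom (Submodule.Quotient.mk v)) : f = g :=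
  ModuleCat.hom_ext (LinearMap.ext fun v => Submodule.Quotient.induction_on p v h)

theorem qid_YD0 {p : Submodule ℂ V} (h : p ≤ p.comap LinearMap.id) :
    q_YD0 LinearMap.id h = 𝟙 (ModuleCat.of ℂ (V ⧸ p)) :=
  qext_YD0 fun v => by rw [qmk_YD0, ModuleCat.hom_id, LinearMap.id_apply, LinearMap.id_apply]

theorem qcomp_YD0 {V'' : Type} [AddCommGroup V''] [Module ℂ V''] {p : Submodule ℂ V}
    {q : Submodule ℂ V'} {r : Submodule ℂ V''} (f : V →ₗ[ℂ] V') (h : p ≤ q.comap f)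
    (g : V' →ₗ[ℂ] V'') (h' : q ≤ r.comap g) (v : V) :
    (q_YD0 f h ≫ q_YD0 g h').hom (Submodule.Quotient.mk v) = Submodule.Quotient.mk (g (f v)) := by
  rw [ModuleCat.hom_comp, LinearMap.comp_apply, qmk_YD0, qmk_YD0]

/-- the presheaf of sections -/
def pre_YD0 (A : Kr_YD0 Y V) : TopCat.Presheaf (ModuleCat.{0} ℂ) (TopCat.of Y) where
  obj W := ModuleCat.of ℂ (V ⧸ A.K W.unop)
  map i := q_YD0 LinearMap.id (A.anti (leOfHom i.unop))
  map_id _ := qid_YD0 _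
  map_comp _ _ := qext_YD0 fun v => by rw [qmk_YD0, qcomp_YD0]; rfl

theorem sheaf_YD0 (A : Kr_YD0 Y V) : (pre_YD0 A).IsSheaf := by
  rw [TopCat.Presheaf.isSheaf_iff_isSheafUniqueGluing]
  intro ι O s hs
  choose v hv using fun i => Submodule.Quotient.mk_surjective (A.K (O i)) (s i)
  obtain ⟨w, hw'⟩ := A.glue ι O v fun i j => by
      have h := hs i j
      rw [← hv i, ← hv j] at h
      exact (Submodule.Quotient.eq (A.K (O i ⊓ O j))).1 h
  refine ⟨Submodule.Quotient.mk (p := A.K (iSup O)) w, fun i => ?_, fun t ht => ?_⟩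
  · rw [← hv i]
    exact (Submodule.Quotient.eq (A.K (O i))).2 (hw' i)
  · obtain ⟨t, rfl⟩ := Submodule.Quotient.mk_surjective (A.K (iSup O)) t
    refine (Submodule.Quotient.eq (A.K (iSup O))).2 (A.loc ι O _ fun i => ?_)
    have h := ht i
    rw [← hv i] at h
    have h2 := sub_mem ((Submodule.Quotient.eq (A.K (O i))).1 h) (hw' i)
    rwa [sub_sub_sub_cancel_right] at h2

/-- the differential -/
def d_YD0 {A : Kr_YD0 Y V} {A' : Kr_YD0 Y V'} (d : V →ₗ[ℂ] V')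
    (hd : ∀ W, A.K W ≤ (A'.K W).comap d) : pre_YD0 A ⟶ pre_YD0 A' where
  app _ := q_YD0 d (hd _)
  naturality _ _ i := qext_YD0 fun v =>
    (qcomp_YD0 LinearMap.id (A.anti (leOfHom i.unop)) d (hd _) v).trans
      (qcomp_YD0 d (hd _) LinearMap.id (A'.anti (leOfHom i.unop)) v).symm

/-- the sheaf of sections -/
def sh_YD0 (A : Kr_YD0 Y V) : TopCat.Sheaf (ModuleCat.{0} ℂ) (TopCat.of Y) :=
  ⟨pre_YD0 A, sheaf_YD0 A⟩

theorem inj_YD0 (A : Kr_YD0 Y V) : Injective (sh_YD0 A) := by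
  refine injective_of_flabby _ (sheaf_YD0 A) fun U W h v => ?_
  obtain ⟨v, rfl⟩ := Submodule.Quotient.mk_surjective (A.K W) v
  exact ⟨Submodule.Quotient.mk (p := A.K U) v, qmk_YD0 LinearMap.id (A.anti h) v⟩

end gen

theorem gen_YD0 {V : ℕ → Type} [∀ n, AddCommGroup (V n)] [∀ n, Module ℂ (V n)]
    (A : ∀ n, Kr_YD0 Y (V n)) (d : ∀ n, V n →ₗ[ℂ] V (n + 1))
    (hd : ∀ n W, (A n).K W ≤ ((A (n + 1)).K W).comap (d n)) (hdd : ∀ n v, d (n + 1) (d n v) = 0) :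
    ∃ (I : PWD.Cx Y) (m : ∀ (n : ℕ) (W : Opens Y), V n →ₗ[ℂ] Sec I n W),
      (∀ n, Injective (I.X n)) ∧ (∀ n W, Function.Surjective (m n W)) ∧
      (∀ n W v, m n W v = 0 ↔ v ∈ (A n).K W) ∧
      (∀ n (W W' : Opens Y) (h : W' ≤ W) v, rs h (m n W v) = m n W' v) ∧
      ∀ n W v, dd n (n + 1) (m n W v) = m (n + 1) W (d n v) := by
  let D : ∀ n, sh_YD0 (A n) ⟶ sh_YD0 (A (n + 1)) := fun n => ⟨d_YD0 (d n) (hd n)⟩
  have hD : ∀ n, D n ≫ D (n + 1) = 0 := fun n =>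
    ObjectProperty.hom_ext _ (NatTrans.ext (funext fun W => qext_YD0 fun v =>
      (qcomp_YD0 (d n) (hd n _) (d (n + 1)) (hd (n + 1) _) v).trans (by rw [hdd]; rfl)))
  refine ⟨CochainComplex.of (fun n => sh_YD0 (A n)) D hD, fun n W => ((A n).K W).mkQ,
    fun n => inj_YD0 (A n), fun n W => Submodule.Quotient.mk_surjective _,
    fun n W v => Submodule.Quotient.mk_eq_zero _,
    fun n W W' h v => qmk_YD0 LinearMap.id ((A n).anti h) v, fun n W v => ?_⟩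
  have h := CochainComplex.of_d (fun n => sh_YD0 (A n)) D n
  exact (congrArg (fun f : sh_YD0 (A n) ⟶ sh_YD0 (A (n + 1)) =>
    (f.hom.app (op W)).hom (((A n).K W).mkQ v)) h).trans (qmk_YD0 (d n) (hd n W) v)

/-- the data of a presented complex -/
def kr_YD0 (R : FC X Y) (n : ℤ) : Kr_YD0 Y (R.top n) where
  K W := (R.Z W n).comap (R.top n).subtype
  anti h _ hv := FC.mem_Z.2 fun y hy => FC.mem_Z.1 hv y (h hy)
  loc ι O v hv := FC.mem_Z.2 fun y hy => by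
    obtain ⟨i, hi⟩ := Opens.mem_iSup.1 hy
    exact FC.mem_Z.1 (hv i) y hi
  glue ι O v hv := by
    obtain ⟨w, hw, hw'⟩ := R.glue n ι (fun i => O i) (fun i => (v i).1) (fun i => (O i).2)
      (fun i => (v i).2) fun i j x hx => FC.mem_Z.1 (hv i j) x hx
    exact ⟨⟨w, hw⟩, fun i => FC.mem_Z.2 (hw' i)⟩

theorem exists_pres (R : FC X Y) : ∃ I m, Pres R I m := by
  obtain ⟨I, m, h1, h2, h3, h4, h5⟩ := gen_YD0 (V := fun n : ℕ => R.top n) (fun n => kr_YD0 R n)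
    (fun n => (X.d n).restrict (R.d_top n))
    (fun n W v hv => FC.mem_Z.2 fun y hy => R.d_z y n _ (FC.mem_Z.1 hv y hy))
    fun n v => Subtype.ext (X.dd n v.1)
  exact ⟨I, m, h1, h2, fun n W v => (h3 n W v).trans FC.mem_Z, h4, h5⟩

end Pool.Agent.PWV
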