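import Pool.Agent.P.MP_65ad7c_ag.YD0
import Pool.Agent.P.MP_65ad7c_ag.YA0

open Set Filter Topology TopologicalSpace CategoryTheory Opposite
open Pool.Agent.PWD (Sec rs dd Coc Cob)

noncomputable section
namespace Pool.Agent.PWV

variable {X : Cx} {Y T : Type} [TopologicalSpace Y] [MetricSpace T] {Q : FC X T} {e : Y → T}
  (he : IsClosedEmbedding e) {I : PWD.Cx Y}
  {m : ∀ (n : ℕ) (W : Opens Y), (Q.comap e he.isInducing).top n →ₗ[ℂ] Sec I n W}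
  (h : Pres (Q.comap e he.isInducing) I m) (hs : Q.Supp (range e)) {C S : Set Y}
  {D : Set T} (hD : IsClosed D) (hC : ∀ y, y ∈ C ↔ e y ∈ D) {j : ℤ} {n : ℕ} (hj : j + 1 = n)
include h hs hD hC hj

omit hs hD hC hj in
theorem supp_YD1 {W : Opens Y} (v : (Q.comap e he.isInducing).top n) :
    PWD.Supp C (m n W v) ↔ ∀ y ∈ W, y ∉ C → v.1 ∈ Q.z n (e y) := by
  refine forall₃_congr fun y hy _ => ⟨?_, fun hv => ?_⟩
  · rintro ⟨W', h1, h2, h3⟩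
    rw [h.res] at h3
    exact (h.ker n W' v).1 h3 y h2
  · refine ⟨W ⊓ ⟨_, (Q.comap e he.isInducing).opn n v.1⟩, inf_le_left, ⟨hy, hv⟩, ?_⟩
    rw [h.res]
    exact (h.ker n _ v).2 fun y' hy' => hy'.2

omit hs hj in
theorem gam_YD1 {W : Opens Y} {v : X.V n} (hv : v ∈ (Q.gam D).top n) :
    PWD.Supp C (m n W ⟨v, hv.1⟩) :=
  (supp_YD1 he h _).2 fun y _ hy => (FC.mem_ZT.1 hv).2 (e y) (by
    rw [hD.closure_eq]
    exact fun h1 => hy ((hC y).2 h1))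

omit hj in
theorem lift_YD1 {W : Opens Y} {s : Sec I n W} (hc : PWD.Supp C s) :
    ∃ (v : X.V n) (hv : v ∈ (Q.gam D).top n), m n W ⟨v, hv.1⟩ = s := by
  obtain ⟨v, rfl⟩ := h.sur n W s
  rw [supp_YD1 he h] at hc
  obtain ⟨W1, hW1, hW⟩ := he.isInducing.isOpen_iff.1 W.isOpen
  have key : ∀ x ∈ W1, x ∉ D → v.1 ∈ Q.z n x := fun x h1 h2 => by
    by_cases hx : x ∈ range e
    · obtain ⟨y, rfl⟩ := hx
      exact hc y (by rw [← SetLike.mem_coe, ← hW]; exact h1) fun h3 => h2 ((hC y).1 h3)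
    · exact hs n v.1 v.2 x hx
  obtain ⟨w, hw, hw'⟩ := Q.glue n Bool (fun i => cond i W1 Dᶜ) (fun i => cond i v.1 0)
    (fun i => by cases i; exacts [hD.isOpen_compl, hW1])
    (fun i => by cases i; exacts [zero_mem _, v.2])
    (fun i j x hx => by
      cases i <;> cases j
      · simp
      · simpa using key x hx.2 hx.1
      · simpa using key x hx.1 hx.2
      · simp)
  refine ⟨w, FC.mem_ZT.2 ⟨hw, fun x hx => ?_⟩, ?_⟩
  · rw [hD.closure_eq] at hx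
    simpa using hw' false x hx
  · rw [← sub_eq_zero, ← map_sub]
    refine (h.ker n W _).2 fun y hy => hw' true (e y) ?_
    rw [← SetLike.mem_coe, ← hW] at hy
    exact hy

omit hs hD hC hj in
theorem zero_YD1 {W : Opens Y} {y : Y} (hy : y ∈ W) (v : (Q.comap e he.isInducing).top n)
    (hv : v.1 ∈ Q.z n (e y)) : Cob C y (m n W v) := by
  refine ⟨W ⊓ ⟨_, (Q.comap e he.isInducing).opn n v.1⟩, inf_le_left, 0, 0, ⟨hy, hv⟩,
    fun y' hy' _ => ⟨_, le_rfl, hy', map_zero _⟩, ?_⟩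
  rw [map_zero, h.res, eq_comm]
  exact (h.ker n _ v).2 fun y' hy' => hy'.2

omit hs hD hC hj in
theorem ne_YD1 {W W' : Opens Y} {y : Y} (hy : y ∈ W') (h1 : W' ≤ W) {k : ℕ} (hk : k + 1 ≠ n)
    (t : Sec I k W') (v : (Q.comap e he.isInducing).top n) (h3 : dd k n t = rs h1 (m n W v)) :
    v.1 ∈ Q.z n (e y) := by
  rw [PWD.vf_dd_ne hk, h.res] at h3
  exact (h.ker n W' v).1 h3.symm y hy

/-- `Good` with a free index. -/
def Gd_YD1 (R : FC X T) (j N : ℤ) (hN : j + 1 = N) (v : X.V N) (x : T) : Prop :=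
  R.Good j (hN ▸ v) {x} ∅

omit he h hs hD hC hj in
theorem gd0_YD1 (R : FC X T) {N : ℤ} (hN : j + 1 = N) {v : X.V N} {x : T} (hv : v ∈ R.top N)
    (h1 : v ∈ R.z N x) : Gd_YD1 R j N hN v x := by
  subst hN
  refine ⟨0, zero_mem _, ?_⟩
  rw [map_zero, sub_zero]
  exact FC.mem_ZT.2 ⟨hv, fun x hx => by rw [mem_singleton_iff.1 hx]; exact h1⟩

omit he h hs hD hC hj in
theorem gd1_YD1 (R : FC X T) {N : ℤ} (hN : j + 1 = N) (h0 : j < 0) {v : X.V N} {x : T}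
    (h1 : Gd_YD1 R j N hN v x) : v ∈ R.z N x := by
  subst hN
  obtain ⟨w, hw, h1⟩ := h1
  have h3 := add_mem ((FC.mem_ZT.1 h1).2 x rfl) (R.d_z x _ w (R.neg j h0 x hw.1))
  rwa [sub_add_cancel] at h3

omit he h hs hD hC hj in
theorem gd2_YD1 (R : FC X T) {N : ℤ} (hN : j + 1 = N) {x : T} (hx : R.Ex j {x} ∅) {v : X.V N}
    (hv : v ∈ R.top N) (h1 : X.d N v ∈ R.z (N + 1) x) : Gd_YD1 R j N hN v x := by
  subst hN
  exact hx v (FC.mem_ZT.2 ⟨hv, fun x hx => hx.elim⟩) (FC.mem_ZT.2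
    ⟨R.d_top _ v hv, fun x hx => by rw [mem_singleton_iff.1 hx]; exact h1⟩)

omit he h hs hD hC hj in
theorem gd3_YD1 (R : FC X T) {N : ℤ} (hN : j + 1 = N) {S' : Set T} (hl : R.LCn S' j) :
    ∀ x ∈ S', ∃ (W : Set T) (B : Submodule ℂ (X.V N)), IsOpen W ∧ x ∈ W ∧
      (∀ b ∈ B, b ∈ R.top N ∧ X.d N b ∈ R.Z W (N + 1)) ∧
      ∀ y ∈ S' ∩ W, (∀ b ∈ B, Gd_YD1 R j N hN b y → b ∈ R.Z W N) ∧
        ∀ v ∈ R.top N, X.d N v ∈ R.z (N + 1) y → ∃ b ∈ B, Gd_YD1 R j N hN (v - b) y := by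
  subst hN
  exact hl

theorem good_YD1 {W : Opens Y} {y : Y} (hy : y ∈ W) (v : X.V n) (hv : v ∈ (Q.gam D).top n) :
    Gd_YD1 (Q.gam D) j n hj v (e y) ↔ Cob C y (m n W ⟨v, hv.1⟩) := by
  constructor
  · intro h0
    cases n with
    | zero => exact zero_YD1 he h hy _ (gd1_YD1 (Q.gam D) hj (by omega) h0 :)
    | succ k =>
      obtain rfl : j = k := by omega
      obtain ⟨w, hw, h1⟩ := h0
      refine ⟨W ⊓ ⟨_, (Q.comap e he.isInducing).opn ((k : ℤ) + 1)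
        ((show X.V ((k : ℤ) + 1) from v) - X.d k w)⟩, inf_le_left, k,
        m k _ ⟨w, hw.1.1⟩, ⟨hy, (FC.mem_ZT.1 h1).2 (e y) rfl⟩, gam_YD1 he h hD hC hw.1, ?_⟩
      rw [h.d, h.res, eq_comm, ← sub_eq_zero, ← map_sub]
      exact (h.ker (k + 1) _ _).2 fun y' hy' => hy'.2
  · rintro ⟨W', h1, k, t, h2, h5, h3⟩
    by_cases hk : k + 1 = n
    · subst hk
      obtain rfl : j = k := by omega
      obtain ⟨w, hw, rfl⟩ := lift_YD1 he h hs hD hC h5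
      rw [h.d, h.res, eq_comm, ← sub_eq_zero, ← map_sub] at h3
      refine ⟨w, FC.mem_ZT.2 ⟨hw, fun x hx => hx.elim⟩, FC.mem_ZT.2
        ⟨sub_mem hv ((Q.gam D).d_top _ w hw), fun x hx => ?_⟩⟩
      rw [mem_singleton_iff.1 hx]
      exact (h.ker (k + 1) W' _).1 h3 y h2
    · exact gd0_YD1 _ hj hv (ne_YD1 he h h2 h1 hk t _ h3)

omit hj in
theorem coc_YD1 {W : Opens Y} {s : Sec I n W} (hc : Coc C s) :
    ∃ (v : X.V n) (hv : v ∈ (Q.gam D).top n), m n W ⟨v, hv.1⟩ = s ∧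
      ∀ y ∈ W, X.d n v ∈ Q.z (n + 1) (e y) := by
  obtain ⟨v, hv, rfl⟩ := lift_YD1 he h hs hD hC hc.1
  have h1 := hc.2
  rw [h.d] at h1
  exact ⟨v, hv, rfl, (h.ker (n + 1) W _).1 h1⟩

theorem Pres.cob {y : Y} (hx : (Q.gam D).Ex j {e y} ∅) {W : Opens Y} {s : Sec I n W}
    (hc : Coc C s) (hy : y ∈ W) : Cob C y s := by
  obtain ⟨v, hv, rfl, h1⟩ := coc_YD1 he h hs hD hC hc
  exact (good_YD1 he h hs hD hC hj hy v hv).1 (gd2_YD1 _ hj hx hv (h1 y hy))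

theorem Pres.lc {S' : Set T} (hS : ∀ y ∈ S, e y ∈ S') (hl : (Q.gam D).LCn S' j) :
    PWD.LC I C S n := by
  intro x hx
  obtain ⟨W, B, h1, h2, h3, h4⟩ := gd3_YD1 _ hj hl (e x) (hS x hx)
  refine ⟨⟨e ⁻¹' W, h1.preimage he.continuous⟩,
    (B.comap ((Q.comap e he.isInducing).top n).subtype).map (m n _), h2, ?_,
    fun y hy hyW => ⟨?_, ?_⟩⟩
  · rintro _ ⟨b, hb, rfl⟩
    refine ⟨gam_YD1 he h hD hC (h3 b hb).1, ?_⟩
    rw [h.d]
    exact (h.ker (n + 1) _ _).2 fun y hy => FC.mem_Z.1 (h3 b hb).2 (e y) hy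
  · rintro _ ⟨b, hb, rfl⟩ hc
    have := (h4 (e y) ⟨hS y hy, hyW⟩).1 b hb
      ((good_YD1 he h hs hD hC hj hyW b (h3 b hb).1).2 hc)
    exact (h.ker n _ _).2 fun y' hy' => FC.mem_Z.1 this (e y') hy'
  · intro W' h5 s h6 hc
    obtain ⟨v, hv, rfl, h7⟩ := coc_YD1 he h hs hD hC hc
    obtain ⟨b, hb, h8⟩ := (h4 (e y) ⟨hS y hy, hyW⟩).2 v hv (h7 y h6)
    refine ⟨_, ⟨⟨b, (h3 b hb).1.1⟩, hb, rfl⟩, ?_⟩
    rw [h.res, ← map_sub]
    exact (good_YD1 he h hs hD hC hj h6 _ (sub_mem hv (h3 b hb).1)).1 h8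

omit hs hD hC hj in
theorem Pres.one {a : X.V 0} {S' : Set T} (ha : Q.One a S') {U : Opens Y}
    (hU : ∀ y ∈ U, e y ∈ S') :
    ∃ one : Sec I 0 U, dd 0 1 one = 0 ∧ (∀ y ∈ U, ¬Cob univ y one) ∧
      ∀ (W : Opens Y) (h : W ≤ U) (s : Sec I 0 W), Coc univ s → ∀ y ∈ W,
        ∃ c : ℂ, Cob univ y (s - c • rs h one) := by
  refine ⟨m 0 U ⟨a, ha.top⟩, ?_, fun y hy => ?_, fun W h1 s hc y hy => ?_⟩
  · rw [h.d]
    refine (h.ker (0 + 1) U _).2 fun y _ => ?_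
    have : X.d 0 a ∈ Q.z (0 + 1) (e y) := by
      rw [ha.cl]
      exact zero_mem _
    exact this
  · rintro ⟨W', h1, k, t, h2, -, h3⟩
    exact ha.ne (e y) (hU y hy) (ne_YD1 he h h2 h1 (Nat.succ_ne_zero k) t _ h3)
  · obtain ⟨v, rfl⟩ := h.sur 0 W s
    have h2 := hc.2
    rw [h.d] at h2
    obtain ⟨c, h3⟩ := ha.gen (e y) (hU y (h1 hy)) v.1 v.2 ((h.ker (0 + 1) W _).1 h2 y hy)
    refine ⟨c, ?_⟩
    rw [h.res, ← map_smul, ← map_sub]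
    exact zero_YD1 he h hy _ h3

end Pool.Agent.PWV
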