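import Pool.Agent.P.MP_65ad7c_ag.YD1
import Pool.Agent.P.MP_65ad7c_ag.YC2
import Pool.Agent.P.MP_65ad7c_ag.XJ0

open Set Filter Topology TopologicalSpace CategoryTheory Opposite
open Pool.Agent.PWD (Sec rs dd Coc Cob IsIC IsStrat IsVar)

noncomputable section
namespace Pool.Agent.PWV

variable {R : Type} [CommRing R] [Algebra ℂ R] {N : ℕ} {f : Fin N → R}

theorem strat_of_filt {Y : Set (R → ℂ)} (hY : IsVar Y) (hf : Algebra.adjoin ℂ (range f) = ⊤)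
    {d : ℕ} {F : ℕ → Set (Fin N → ℂ)} (h0 : F 0 = range (emb (Y := Y) f)) (hz : ∀ j, ZC (F j))
    (ha : Antitone F) (hd : ∀ j, Dim (F j) (d + 1 - j))
    (hc : ∀ j, ∀ x ∈ F j \ F (j + 1),
      ∃ s : Fin (d - j) → Fin N, Chart (F j) (fun i => MvPolynomial.X (s i)) x) :
    ∃ U : ℕ → Opens Y, IsStrat d U ∧ ∀ j y, y ∉ U j ↔ emb f y ∈ F j := by
  classical
  let U' : ℕ → Opens Y := fun c =>
    ⟨(emb f ⁻¹' F c)ᶜ, ((hz c).isClosed.preimage (emb f).continuous).isOpen_compl⟩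
  have hm : ∀ c y, y ∉ U' c ↔ emb f y ∈ F c := fun c y => not_not
  have hr : ∀ c, F c ⊆ range (emb (Y := Y) f) := fun c => (ha (Nat.zero_le c)).trans h0.le
  refine ⟨U', ⟨?_, fun a b hab y hy h => hy (ha hab h), fun c => ?_, fun c => ?_, fun c => ?_⟩, hm⟩
  · refine le_bot_iff.1 fun y hy => absurd hy ((hm 0 y).2 ?_)
    rw [h0]
    exact ⟨y, rfl⟩
  · obtain ⟨S, hS⟩ := hz c
    refine ⟨MvPolynomial.aeval f '' S, fun y => ?_⟩
    rw [hm, hS, forall_mem_image]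
    simp only [emb_aeval hY, mem_ofPred_eq]
  · refine dimLT_of_dim hY hf ((hd c).mono ?_)
    rintro _ ⟨y, hy, rfl⟩
    exact (hm c y).1 hy
  · refine ⟨Finset.univ.image f, fun x hx => ?_⟩
    obtain ⟨ι, hι⟩ := hc c (emb f x) ⟨(hm c x).1 hx.2, hx.1⟩
    obtain ⟨W, h1, h2⟩ := emb_of_chart hY hf (hr c) (O := U' (c + 1)) hx.1 hι
    exact ⟨fun i => f (ι i), W, fun i => Finset.mem_image_of_mem f (Finset.mem_univ _), h1, h2⟩

theorem stratum_YD2 {T : Type} {F : ℕ → Set T} {x : T} (h0 : x ∈ F 0) {c : ℕ}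
    (hc : x ∉ F (c + 1)) : ∃ j ≤ c, x ∈ F j \ F (j + 1) := by
  induction c with
  | zero => exact ⟨0, le_rfl, h0, hc⟩
  | succ c ih =>
    by_cases h : x ∈ F (c + 1)
    · exact ⟨c + 1, le_rfl, h, hc⟩
    · obtain ⟨j, hj, hx⟩ := ih h
      exact ⟨j, hj.trans (Nat.le_succ c), hx⟩

theorem cob_off_YD2 {Y : Type} [TopologicalSpace Y] {I : PWD.Cx Y} {n : ℕ} {W : Opens Y}
    {C : Set Y} {s : Sec I n W} (hs : Coc C s) {y : Y} (hy : y ∈ W) (hC : y ∉ C) : Cob C y s := by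
  obtain ⟨W', h, h1, h2⟩ := hs.1 y hy hC
  exact ⟨W', h, 0, 0, h1, fun z hz _ => ⟨W', le_rfl, hz, map_zero _⟩, by rw [map_zero, h2]⟩

/-- The intersection complex exists. -/
theorem exists_ic {P : Ideal R} (hP : P.IsPrime) (hf : Algebra.adjoin ℂ (range f) = ⊤) :
    ∃ (d : ℕ) (U : ℕ → Opens (PWF.Pts P)) (I : PWD.Cx (PWF.Pts P)) (one : Sec I 0 (U 1)),
      IsStrat d U ∧ (U 1).1.Nonempty ∧ IsIC U I one := by
  have hY : IsVar (PWF.Pts P) := ⟨P, rfl⟩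
  have he : IsClosedEmbedding (emb (Y := PWF.Pts P) f) := hY.closedEmb hf
  obtain ⟨d, X, Q, a, F, h0, hne, hF⟩ := exists_fic
    (Ideal.IsPrime.comap (MvPolynomial.aeval f : MvPolynomial (Fin N) ℂ →ₐ[ℂ] R) (K := P))
  rw [← range_emb hf P] at h0
  obtain ⟨U, hU, hm⟩ := strat_of_filt hY hf h0 (hF 0).zc (hF 0).anti
    (fun j => (hF j).dim j le_rfl) (fun j => (hF (j + 1)).chart j (Nat.lt_succ_self j))
  have hm' : ∀ j y, y ∈ U j ↔ emb f y ∉ F j := fun j y => by rw [← hm, not_not]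
  have hr : ∀ y, emb (Y := PWF.Pts P) f y ∈ F 0 := fun y => h0 ▸ ⟨y, rfl⟩
  obtain ⟨I, m, h⟩ := exists_pres (Q.comap (emb f) he.isInducing)
  have hs : Q.Supp (range (emb (Y := PWF.Pts P) f)) := h0 ▸ (hF 0).supp
  obtain ⟨one, o1, o2, o3⟩ := Pres.one he h (hF 0).one (U := U 1)
    (fun y hy => ⟨hr y, (hm' 1 y).1 hy⟩)
  have hu : ∀ y : PWF.Pts P, y ∈ (univ : Set (PWF.Pts P)) ↔ emb f y ∈ (univ : Set (Fin N → ℂ)) :=
    fun y => Iff.rfl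
  have hC : ∀ c, ∀ y : PWF.Pts P, y ∈ ((U c : Set (PWF.Pts P)))ᶜ ↔ emb f y ∈ F c := hm
  have hj : ∀ n : ℕ, (n : ℤ) - 1 + 1 = n := fun n => by ring
  have hS : ∀ c, ∀ y ∈ ((U (c + 1) : Set (PWF.Pts P)) \ U c), emb f y ∈ F c \ F (c + 1) :=
    fun c y hy => ⟨(hm c y).1 hy.2, (hm' _ y).1 hy.1⟩
  refine ⟨d, U, I, one, hU, ?_, h.inj, o1, o2, o3, fun c n W s hn hc hs' y hy hy' => ?_,
    fun c n W s hc hn hs' y hy hy' => ?_, fun c n => ⟨?_, ?_⟩⟩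
  · obtain ⟨x, hx0, hx1⟩ := hne
    rw [h0] at hx0
    obtain ⟨y, rfl⟩ := hx0
    exact ⟨y, (hm' 1 y).2 hx1⟩
  · obtain ⟨j, hjc, hx⟩ := stratum_YD2 (hr y) ((hm' _ y).1 hy')
    refine Pres.cob he h hs isClosed_univ hu (hj n) ?_ hs' hy
    rw [FC.gam_univ]
    exact (hF (j + 1)).deg j (Nat.lt_succ_self j) _ hx _ (by omega) (by omega)
  · by_cases hyc : y ∈ U c
    · exact cob_off_YD2 hs' hy (not_not.2 hyc)
    · exact Pres.cob he h hs ((hF 0).zc c).isClosed (hC c) (hj n)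
        ((hF (c + 1)).codeg c (Nat.lt_succ_self c) hc _ (hS c y ⟨hy', hyc⟩) _ (by omega)) hs' hy
  · refine Pres.lc he h hs isClosed_univ hu (hj n) (hS c) ?_
    rw [FC.gam_univ]
    exact ((hF (c + 1)).lcn (Nat.lt_succ_self c) _).1
  · exact Pres.lc he h hs ((hF 0).zc c).isClosed (hC c) (hj n) (hS c)
      ((hF (c + 1)).lcn (Nat.lt_succ_self c) _).2

end Pool.Agent.PWV
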