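import Pool.Agent.P.MP_65ad7c_ag.DQ

/-! The weight filtration computed on one model. -/

open Set TopologicalSpace Matrix Pool.Agent.PWD

noncomputable section
namespace Pool.Agent.PWF

variable {R : Type} [CommRing R] [Algebra ℂ R] {Y : Set (R → ℂ)}

/-- `W_k IH^m(Y)` computed on `Q`: cocycles whose restriction to the linear section `Z` comes from
`W_k H^m(Z, Z - U)`. -/
def WQ {d m : ℕ} {U : Opens Y} {I : Cx Y} (one : Sec I 0 U) (Q : Data Y (d - m)) (k : ℕ) :
    Set (Glo I m) :=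
  {α | Near (fun i O => {h | Eqn d Q.X (Q.D i) O h}) Q.X Q.D Q.pre
      {y | ∀ i : Fin (d - m), Q.c i.castSucc ⬝ᵥ Q.vec y = 0}
      (Finset.univ.map (Fin.castSuccEmb.trans Q.h)) Q.al Q.be one k α}

end Pool.Agent.PWF
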