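import Pool.Agent.P.MP_65ad7c_ag.Base

open MeasureTheory Set Filter Topology Metric Matrix
open scoped ComplexOrder ContDiff Matrix.Norms.Frobenius RealInnerProductSpace ENNReal
open Pool.Agent.Lib.Sob

noncomputable section
namespace Pool.Agent.PW

variable {E : Type} [NormedAddCommGroup E] [InnerProductSpace ℝ E] [FiniteDimensional ℝ E]
  [MeasurableSpace E] [BorelSpace E] {r : ℕ} {U : Set E} {Γ : Type} [Group Γ]
  {V : Type} [NormedAddCommGroup V] [NormedSpace ℝ V]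

/-- semisimple representation -/
def SSimple (ρ : Γ →* Mat r) : Prop :=
  ∀ W : Submodule ℂ (Fin r → ℂ), (∀ γ, ∀ v ∈ W, ρ γ *ᵥ v ∈ W) →
    ∃ W' : Submodule ℂ (Fin r → ℂ), (∀ γ, ∀ v ∈ W', ρ γ *ᵥ v ∈ W') ∧ IsCompl W W'

/-- `ρ' = u⁻¹ ρ u` -/
def Cj (u u' : Mat r) (ρ ρ' : Γ →* Mat r) : Prop := u * u' = 1 ∧ ∀ γ, ρ' γ = u' * ρ γ * u

/-- block diagonal matrix -/
def bdiag {s t : ℕ} (e : Fin s ⊕ Fin t ≃ Fin r) (X : Mat s) (Y : Mat t) : Mat r :=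
  Matrix.reindex e e (Matrix.fromBlocks X 0 0 Y)

/-- energy bound in every chart -/
def Atlas.EB (A : Atlas E Γ) (M : ℝ) (h : A.ι → E → Mat r) (D : A.ι → E → E →L[ℝ] Mat r) : Prop :=
  ∀ a, ∫⁻ x in ball (0 : E) 6, ENNReal.ofReal (en (A.α a x) (h a x) (D a x)) ≤ ENNReal.ofReal M

/-- there is a harmonic metric of energy at most `M` -/
def Atlas.HasHM (A : Atlas E Γ) (M : ℝ) (ρ : Γ →* Mat r) : Prop :=
  ∃ C h D, 1 ≤ C ∧ A.HM ρ C h D ∧ A.EB M h D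

end Pool.Agent.PW
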