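import Pool.Agent.P.MP_65ad7c_ag.ZBase
import Pool.Agent.P.MP_65ad7c_ag.EEn

open MeasureTheory Set Filter Topology Metric Matrix
open scoped ComplexOrder ContDiff Matrix.Norms.Frobenius RealInnerProductSpace ENNReal
open Pool.Agent.Lib.Sob

noncomputable section
namespace Pool.Agent.PW

variable {E : Type} [NormedAddCommGroup E] [InnerProductSpace ℝ E] [FiniteDimensional ℝ E]
  [MeasurableSpace E] [BorelSpace E] {r : ℕ} {U : Set E} {Γ : Type} [Group Γ]
  {V : Type} [NormedAddCommGroup V] [NormedSpace ℝ V]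
  {A : Atlas E Γ} {ρ ρ' : Γ →* Mat r} {H h : A.ι → E → Mat r}
  {D : A.ι → E → E →L[ℝ] Mat r} {C M : ℝ}

theorem zconj_inv {u u' : Mat r} (hu : u * u' = 1) (P : Mat r) :
    (gm P u)⁻¹ = u' * P⁻¹ * u'ᴴ := by
  have e : u⁻¹ = u' := Matrix.inv_eq_right_inv hu
  rw [gm, Matrix.mul_inv_rev, Matrix.mul_inv_rev, ← Matrix.conjTranspose_nonsing_inv, e,
    Matrix.mul_assoc]

omit [FiniteDimensional ℝ E] [MeasurableSpace E] [BorelSpace E] in
theorem zconj_mc {u u' : Mat r} (hu : u * u' = 1) (P : Mat r) (X : E →L[ℝ] Mat r) (v : E) :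
    mc (gm P u) (lmul uᴴ (rmul X u)) v = u' * mc P X v * u := by
  have e : u'ᴴ * uᴴ = 1 := by rw [← conjTranspose_mul, hu, conjTranspose_one]
  simp only [mc, lmul_apply, rmul_apply, zconj_inv hu]
  calc u' * P⁻¹ * u'ᴴ * (uᴴ * (X v * u)) = u' * P⁻¹ * (u'ᴴ * uᴴ) * (X v * u) := by
        simp only [Matrix.mul_assoc]
    _ = _ := by rw [e]; simp only [Matrix.mul_assoc, Matrix.one_mul]

omit [MeasurableSpace E] [BorelSpace E] in
theorem zconj_en {u u' : Mat r} (hu : u * u' = 1) (α : E →L[ℝ] E) (P : Mat r)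
    (X : E →L[ℝ] Mat r) : en α (gm P u) (lmul uᴴ (rmul X u)) = en α P X := by
  simp only [en, pair, zconj_mc hu]
  refine Finset.sum_congr rfl fun p _ => ?_
  congr 1
  generalize mc P X (ob E p) = Y
  generalize mc P X (α (ob E p)) = Z
  calc (u' * Y * u * (u' * Z * u)).trace = (u' * (Y * (u * u') * Z * u)).trace := by
        simp only [Matrix.mul_assoc]
    _ = (Y * (u * u') * Z * u * u').trace := Matrix.trace_mul_comm _ _
    _ = (Y * Z).trace := by rw [Matrix.mul_assoc _ u u', hu]; simp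

/-- two sided multiplication -/
def zconj_L (a b : Mat r) : Mat r →L[ℝ] Mat r :=
  (ContinuousLinearMap.mul ℝ (Mat r) a).comp ((ContinuousLinearMap.mul ℝ (Mat r)).flip b)

theorem zconj_L_apply (a b X : Mat r) : zconj_L a b X = a * X * b :=
  (Matrix.mul_assoc a X b).symm

theorem zconj_harm {u u' : Mat r} (hu : u * u' = 1) {α : E → E →L[ℝ] E}
    {X Y : E → E →L[ℝ] Mat r} (hX : Harm U α X) (hY : ∀ x v, Y x v = u' * X x v * u) :
    Harm U α Y := by
  intro φ hφ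
  have hu' : u' * u = 1 := mul_eq_one_comm.1 hu
  let L : Mat r ≃L[ℝ] Mat r := ContinuousLinearEquiv.equivOfInverse (zconj_L u' u) (zconj_L u u')
    (fun Z => by
      rw [zconj_L_apply, zconj_L_apply]
      calc u * (u' * Z * u) * u' = (u * u') * Z * (u * u') := by simp only [Matrix.mul_assoc]
        _ = Z := by rw [hu]; simp)
    (fun Z => by
      rw [zconj_L_apply, zconj_L_apply]
      calc u' * (u * Z * u') * u = (u' * u) * Z * (u' * u) := by simp only [Matrix.mul_assoc]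
        _ = Z := by rw [hu']; simp)
  have e : ∀ Z, L Z = u' * Z * u := fun Z => zconj_L_apply _ _ _
  have := L.integral_comp_comm (μ := volume)
    fun x => ∑ p, fderiv ℝ φ x (α x (ob E p)) • X x (ob E p)
  rw [hX φ hφ, map_zero] at this
  rw [← this]
  refine integral_congr_ae (Eventually.of_forall fun x => ?_)
  beta_reduce
  rw [map_sum]
  simp only [map_smul]
  simp only [e, hY]

/-- constant change of frame -/
theorem Atlas.HM.conj {u u' : Mat r} (hc : Cj u u' ρ ρ') (hC : 1 ≤ C) (hh : A.HM ρ C h D)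
    (he : A.EB M h D) : ∃ C' : ℝ, 1 ≤ C' ∧
      A.HM ρ' C' (fun a x => gm (h a x) u) (fun a x => lmul uᴴ (rmul (D a x) u)) ∧
      A.EB M (fun a x => gm (h a x) u) fun a x => lmul uᴴ (rmul (D a x) u) := by
  obtain ⟨hu, hρ⟩ := hc
  have hG : (gm 1 u).PosDef := gm_posDef PosDef.one hu
  obtain ⟨B, hB1, hB2, hB3⟩ : ∃ B : ℝ, 1 ≤ B ∧ Bd B (gm 1 u) ∧ ‖uᴴ‖ * ‖u‖ ≤ B := by
    have a1 := norm_nonneg (gm 1 u)
    have a2 := norm_nonneg (gm 1 u)⁻¹
    have a3 : 0 ≤ ‖uᴴ‖ * ‖u‖ := by positivity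
    refine ⟨1 + ‖gm 1 u‖ + ‖(gm 1 u)⁻¹‖ + ‖uᴴ‖ * ‖u‖, by linarith, ?_, by linarith⟩
    exact bd_of_norm (by linarith) hG (by linarith) (by linarith)
  have hbd : ∀ {c : ℝ} {P : Mat r}, 1 ≤ c → Bd c P → Bd (B * c) (gm P u) := by
    intro c P hc1 hP
    exact Obst.trans (by linarith) (by linarith) hB2 (Obst.gm hP u)
  refine ⟨B * C, one_le_mul_of_one_le_of_one_le hB1 hC, ⟨fun a => ?_, fun a K hK hKU => ?_,
    fun a b x hx => ?_, fun a => ?_, fun a x hx => hbd hC (hh.bd a x hx), fun a => ?_⟩,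
    fun a => ?_⟩
  · refine ((hh.wd a).clm (by norm_num) (zconj_L uᴴ u)).congr' (fun x _ => ?_) fun x _ => ?_
    · exact zconj_L_apply _ _ _
    · rfl
  · obtain ⟨c, hc1, hc2⟩ := hh.lbd a K hK hKU
    exact ⟨B * c, one_le_mul_of_one_le_of_one_le hB1 hc1, fun x hx => hbd hc1 (hc2 x hx)⟩
  · beta_reduce
    rw [hh.mc a b x hx, gm_gm, gm_gm, hρ]
    congr 1
    rw [← Matrix.mul_assoc, ← Matrix.mul_assoc, hu, Matrix.one_mul]
  · exact zconj_harm hu (hh.harm a) fun x v => zconj_mc hu _ _ v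
  · rw [ENNReal.ofReal_mul (by linarith)]
    refine le_trans (eLpNorm_le_mul_eLpNorm_of_ae_le_mul (g := D a) (c := B)
      (Eventually.of_forall fun x => ?_) 2) (mul_le_mul_right (hh.n2 a) _)
    calc ‖lmul uᴴ (rmul (D a x) u)‖ ≤ ‖uᴴ‖ * ‖rmul (D a x) u‖ := norm_lmul_le _ _
      _ ≤ ‖uᴴ‖ * (‖D a x‖ * ‖u‖) := by gcongr; exact norm_rmul_le _ _
      _ = ‖uᴴ‖ * ‖u‖ * ‖D a x‖ := by ring
      _ ≤ B * ‖D a x‖ := by gcongr
  · simp only [zconj_en hu]
    exact he a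

theorem Atlas.HasHM.conj {u u' : Mat r} (hc : Cj u u' ρ ρ') (hh : A.HasHM M ρ) :
    A.HasHM M ρ' := by
  obtain ⟨C, h, D, hC, h1, h2⟩ := hh
  obtain ⟨C', hC', h3, h4⟩ := h1.conj hc hC h2
  exact ⟨C', _, _, hC', h3, h4⟩

theorem Atlas.HasHM.mono {M' : ℝ} (hh : A.HasHM M ρ) (hM : M ≤ M') : A.HasHM M' ρ := by
  obtain ⟨C, h, D, hC, h1, h2⟩ := hh
  exact ⟨C, h, D, hC, h1, fun a => (h2 a).trans (ENNReal.ofReal_le_ofReal hM)⟩

/-- modification on a null set -/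
theorem Atlas.HM.modify (hh : A.HM ρ C h D) (hH : A.Ref ρ H) {C' : ℝ} (h1 : 1 ≤ C')
    (hs : ∀ a, ∀ᵐ x, x ∈ ball (0 : E) 1 → sg (h a x) (H a x) ≤ C') :
    ∃ h' : A.ι → E → Mat r, A.MC (ball 0 6) ρ h' ∧
      (∀ a, ∀ x ∈ ball (0 : E) 6, Obst C' (H a x) (h' a x)) ∧
      ∀ a, ∀ᵐ x, x ∈ ball (0 : E) 6 → h' a x = h a x := by
  classical
  have key : ∀ a b, ∀ x ∈ A.ov (ball 0 6) a b,
      sg (h b (A.T a b x)) (H b (A.T a b x)) = sg (h a x) (H a x) := by
    intro a b x hx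
    rw [hh.mc a b x hx, hH.mc a b x hx]
    refine sg_gm (u' := ρ (A.c a b x)⁻¹) ((hh.lbd a).posDef x hx.2.1) (hH.pos a x hx.2.1) ?_
    rw [← map_mul, mul_inv_cancel, map_one]
  refine ⟨fun a x => if sg (h a x) (H a x) ≤ C' then h a x else H a x, fun a b x hx => ?_,
    fun a x hx => ?_, fun a => ?_⟩
  · simp only [key a b x hx]
    split_ifs
    · exact hh.mc a b x hx
    · exact hH.mc a b x hx
  · beta_reduce
    split_ifs with h2
    · exact obst_of_sg (hH.pos a x hx) ((hh.lbd a).posDef x hx) (by linarith)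
        (by rw [sg_comm]; exact h2)
    · exact Obst.refl (hH.pos a x hx).posSemidef h1
  · filter_upwards [A.ae_cover (p := fun b y => sg (h b y) (H b y) ≤ C') hs a] with x hx hx6
    obtain ⟨b, hb1, hb2, hb3⟩ := hx hx6
    rw [key a b x ⟨hb1, hx6, ball_subset_ball (by norm_num) hb2⟩] at hb3
    exact if_pos hb3

end Pool.Agent.PW
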