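import Pool.Agent.P.MP_65ad7c_ag.ZConj

open MeasureTheory Set Filter Topology Metric Matrix
open scoped ComplexOrder ContDiff Matrix.Norms.Frobenius RealInnerProductSpace ENNReal
open Pool.Agent.Lib.Sob

noncomputable section
namespace Pool.Agent.PW

variable {E : Type} [NormedAddCommGroup E] [InnerProductSpace ℝ E] [FiniteDimensional ℝ E]
  [MeasurableSpace E] [BorelSpace E] {r : ℕ} {U : Set E} {Γ : Type} [Group Γ]
  {V : Type} [NormedAddCommGroup V] [NormedSpace ℝ V]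
  {A : Atlas E Γ} {ρ ρ' : Γ →* Mat r} {H h : A.ι → E → Mat r}
  {D : A.ι → E → E →L[ℝ] Mat r} {C M : ℝ}

section alg
variable {s t : ℕ} (e : Fin s ⊕ Fin t ≃ Fin r)

theorem zsum_add (X X' : Mat s) (Y Y' : Mat t) :
    bdiag e (X + X') (Y + Y') = bdiag e X Y + bdiag e X' Y' := by
  ext i j
  obtain ⟨i, rfl⟩ := e.surjective i
  obtain ⟨j, rfl⟩ := e.surjective j
  rcases i with i | i <;> rcases j with j | j <;> simp [bdiag]

theorem zsum_sub (X X' : Mat s) (Y Y' : Mat t) :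
    bdiag e (X - X') (Y - Y') = bdiag e X Y - bdiag e X' Y' := by
  ext i j
  obtain ⟨i, rfl⟩ := e.surjective i
  obtain ⟨j, rfl⟩ := e.surjective j
  rcases i with i | i <;> rcases j with j | j <;> simp [bdiag]

theorem zsum_smul (c : ℝ) (X : Mat s) (Y : Mat t) :
    bdiag e (c • X) (c • Y) = c • bdiag e X Y := by
  ext i j
  obtain ⟨i, rfl⟩ := e.surjective i
  obtain ⟨j, rfl⟩ := e.surjective j
  rcases i with i | i <;> rcases j with j | j <;> simp [bdiag]

theorem zsum_mul (X X' : Mat s) (Y Y' : Mat t) :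
    bdiag e (X * X') (Y * Y') = bdiag e X Y * bdiag e X' Y' := by
  simp only [bdiag, reindex_apply, submatrix_mul_equiv, fromBlocks_multiply, Matrix.mul_zero,
    Matrix.zero_mul, add_zero, zero_add]

theorem zsum_one : bdiag e (1 : Mat s) (1 : Mat t) = 1 := by
  simp only [bdiag, reindex_apply, fromBlocks_one, submatrix_one_equiv]

theorem zsum_adj (X : Mat s) (Y : Mat t) : bdiag e Xᴴ Yᴴ = (bdiag e X Y)ᴴ := by
  simp only [bdiag, reindex_apply, conjTranspose_submatrix, fromBlocks_conjTranspose,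
    conjTranspose_zero]

theorem zsum_trace (X : Mat s) (Y : Mat t) : (bdiag e X Y).trace = X.trace + Y.trace := by
  simp only [Matrix.trace, Matrix.diag]
  rw [← e.sum_comp, Fintype.sum_sum_type]
  simp [bdiag]

theorem zsum_inv {X : Mat s} {Y : Mat t} (hX : X.PosDef) (hY : Y.PosDef) :
    (bdiag e X Y)⁻¹ = bdiag e X⁻¹ Y⁻¹ := by
  apply Matrix.inv_eq_right_inv
  rw [← zsum_mul, Matrix.mul_nonsing_inv _ ((isUnit_iff_isUnit_det _).1 hX.isUnit),
    Matrix.mul_nonsing_inv _ ((isUnit_iff_isUnit_det _).1 hY.isUnit), zsum_one]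

theorem zsum_psd {X : Mat s} {Y : Mat t} (hX : X.PosSemidef) (hY : Y.PosSemidef) :
    (bdiag e X Y).PosSemidef := by
  unfold bdiag
  rw [reindex_apply]
  refine PosSemidef.submatrix ?_ _
  rw [posSemidef_iff_dotProduct_mulVec]
  refine ⟨IsHermitian.fromBlocks hX.isHermitian (by simp) hY.isHermitian, fun x => ?_⟩
  rw [← Sum.elim_comp_inl_inr x, fromBlocks_mulVec, Function.star_sumElim,
    sumElim_dotProduct_sumElim]
  simp only [Matrix.zero_mulVec, add_zero, zero_add, Sum.elim_comp_inl, Sum.elim_comp_inr]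
  exact add_nonneg (hX.dotProduct_mulVec_nonneg _) (hY.dotProduct_mulVec_nonneg _)

theorem zsum_bd {X : Mat s} {Y : Mat t} (hX : Bd C X) (hY : Bd C Y) : Bd C (bdiag e X Y) := by
  constructor
  · rw [← zsum_one e, ← zsum_smul, ← zsum_sub]
    exact zsum_psd e hX.1 hY.1
  · rw [← zsum_one e, ← zsum_smul, ← zsum_sub]
    exact zsum_psd e hX.2 hY.2

theorem zsum_gm (X u : Mat s) (Y v : Mat t) :
    gm (bdiag e X Y) (bdiag e u v) = bdiag e (gm X u) (gm Y v) := by
  unfold gm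
  rw [← zsum_adj, ← zsum_mul, ← zsum_mul]

/-- the first block as a linear map -/
def zsumL : Mat s →L[ℝ] Mat r :=
  LinearMap.toContinuousLinearMap
    { toFun := fun X => bdiag e X 0
      map_add' := fun X Y => by rw [← zsum_add, add_zero]
      map_smul' := fun c X => by rw [RingHom.id_apply, ← zsum_smul, smul_zero] }

/-- the second block as a linear map -/
def zsumR : Mat t →L[ℝ] Mat r :=
  LinearMap.toContinuousLinearMap
    { toFun := fun Y => bdiag e 0 Y
      map_add' := fun X Y => by rw [← zsum_add, add_zero]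
      map_smul' := fun c X => by rw [RingHom.id_apply, ← zsum_smul, smul_zero] }

theorem zsum_split (X : Mat s) (Y : Mat t) : zsumL e X + zsumR e Y = bdiag e X Y := by
  change bdiag e X 0 + bdiag e 0 Y = _
  rw [← zsum_add, add_zero, zero_add]

/-- the direct sum of two forms -/
def zsumD (X : E →L[ℝ] Mat s) (Y : E →L[ℝ] Mat t) : E →L[ℝ] Mat r :=
  (zsumL e).comp X + (zsumR e).comp Y

omit [FiniteDimensional ℝ E] [MeasurableSpace E] [BorelSpace E] in
theorem zsumD_apply (X : E →L[ℝ] Mat s) (Y : E →L[ℝ] Mat t) (v : E) :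
    zsumD e X Y v = bdiag e (X v) (Y v) := zsum_split e _ _

omit [FiniteDimensional ℝ E] [MeasurableSpace E] [BorelSpace E] in
theorem zsum_mc {P : Mat s} {Q : Mat t} (hP : P.PosDef) (hQ : Q.PosDef) (X : E →L[ℝ] Mat s)
    (Y : E →L[ℝ] Mat t) (v : E) :
    mc (bdiag e P Q) (zsumD e X Y) v = bdiag e (mc P X v) (mc Q Y v) := by
  simp only [mc, lmul_apply, zsumD_apply]
  rw [zsum_inv e hP hQ, ← zsum_mul]

omit [MeasurableSpace E] [BorelSpace E] in
theorem zsum_en {P : Mat s} {Q : Mat t} (hP : P.PosDef) (hQ : Q.PosDef) (α : E →L[ℝ] E)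
    (X : E →L[ℝ] Mat s) (Y : E →L[ℝ] Mat t) :
    en α (bdiag e P Q) (zsumD e X Y) = en α P X + en α Q Y := by
  simp only [en, pair, zsum_mc e hP hQ, ← zsum_mul, zsum_trace, Complex.add_re,
    Finset.sum_add_distrib]

theorem zsum_wd {u : E → Mat s} {v : E → Mat t} {X : E → E →L[ℝ] Mat s} {Y : E → E →L[ℝ] Mat t}
    (hu : WD 2 U u X) (hv : WD 2 U v Y) :
    WD 2 U (fun x => bdiag e (u x) (v x)) fun x => zsumD e (X x) (Y x) :=
  ((hu.clm one_le_two (zsumL e)).add one_le_two (hv.clm one_le_two (zsumR e))).congr'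
    (fun _ _ => zsum_split e _ _) fun _ _ => rfl

omit [InnerProductSpace ℝ E] [FiniteDimensional ℝ E] [MeasurableSpace E] [BorelSpace E] in
theorem zsum_lbd {u : E → Mat s} {v : E → Mat t} (hu : LBd U u) (hv : LBd U v) :
    LBd U fun x => bdiag e (u x) (v x) := by
  intro K hK hKU
  obtain ⟨C₁, a1, b1⟩ := hu K hK hKU
  obtain ⟨C₂, a2, b2⟩ := hv K hK hKU
  refine ⟨max C₁ C₂, le_max_of_le_left a1, fun x hx => zsum_bd e ?_ ?_⟩
  · exact (b1 x hx).mono (by linarith) (le_max_left _ _)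
  · exact (b2 x hx).mono (by linarith) (le_max_right _ _)

end alg

/-- the integrand of the weak equation is integrable -/
theorem zsum_int {α : E → E →L[ℝ] E} (hα : ContinuousOn α U) {X : E → E →L[ℝ] Mat r}
    (hX : LocLp 2 U X) {φ : E → ℝ} (hφ : IsTest U φ) :
    Integrable fun x => ∑ p, fderiv ℝ φ x (α x (ob E p)) • X x (ob E p) := by
  refine integrable_finsetSum _ fun p _ => ?_
  have h1 : ContinuousOn (fun x => fderiv ℝ φ x (α x (ob E p))) U :=
    hφ.continuous_fderiv.continuousOn.clm_apply (hα.clm_apply continuousOn_const)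
  have h2 := locLp_one_of_two ((hX.apply (ob E p)).smul h1)
  have h3 := h2.memLp_of_support hφ.2.1 hφ.2.2 fun x hx => by
    have h4 : fderiv ℝ φ x = 0 :=
      image_eq_zero_of_notMem_tsupport fun h' => hx (tsupport_fderiv_subset ℝ h')
    rw [h4, _root_.zero_apply, zero_smul]
  rw [Nat.cast_one] at h3
  exact memLp_one_iff_integrable.1 h3

theorem zsum_harm {s t : ℕ} (e : Fin s ⊕ Fin t ≃ Fin r) {α : E → E →L[ℝ] E}
    (hα : ContinuousOn α U) {X : E → E →L[ℝ] Mat s} {Y : E → E →L[ℝ] Mat t}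
    {Z : E → E →L[ℝ] Mat r} (hX : LocLp 2 U X) (hY : LocLp 2 U Y) (h1 : Harm U α X)
    (h2 : Harm U α Y) (hZ : ∀ x ∈ U, ∀ v, Z x v = bdiag e (X x v) (Y x v)) : Harm U α Z := by
  intro φ hφ
  have i1 := zsum_int hα hX hφ
  have i2 := zsum_int hα hY hφ
  have key : ∀ x, ∑ p, fderiv ℝ φ x (α x (ob E p)) • Z x (ob E p) =
      zsumL e (∑ p, fderiv ℝ φ x (α x (ob E p)) • X x (ob E p)) +
        zsumR e (∑ p, fderiv ℝ φ x (α x (ob E p)) • Y x (ob E p)) := by
    intro x
    by_cases hx : x ∈ U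
    · simp only [map_sum, map_smul, ← Finset.sum_add_distrib, ← smul_add, zsum_split, hZ x hx]
    · simp only [hφ.fderiv_zero_of_notMem hx, _root_.zero_apply, zero_smul,
        Finset.sum_const_zero, map_zero, add_zero]
  simp only [key]
  rw [integral_add ((zsumL e).integrable_comp i1) ((zsumR e).integrable_comp i2),
    (zsumL e).integral_comp_comm i1, (zsumR e).integral_comp_comm i2, h1 φ hφ, h2 φ hφ,
    map_zero, map_zero, add_zero]

theorem zsum_n2 (hw : ∀ a, WD 2 (ball 0 6) (h a) (D a)) :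
    ∃ C₀ : ℝ, ∀ a, N2 (closedBall 0 4) (D a) ≤ ENNReal.ofReal C₀ := by
  refine ⟨∑ a, (N2 (closedBall 0 4) (D a)).toReal, fun a => ?_⟩
  have h1 : N2 (closedBall 0 4) (D a) ≠ ⊤ := by
    have := ((hw a).2.1 (closedBall 0 4) (isCompact_closedBall _ _)
      (closedBall_subset_ball (by norm_num))).2
    rw [Nat.cast_ofNat] at this
    exact this.ne
  rw [← ENNReal.ofReal_toReal h1]
  refine ENNReal.ofReal_le_ofReal ?_
  exact Finset.single_le_sum (f := fun a => (N2 (closedBall 0 4) (D a)).toReal)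
    (fun _ _ => ENNReal.toReal_nonneg) (Finset.mem_univ a)

/-- direct sums -/
theorem Atlas.HasHM.sum {s t : ℕ} (e : Fin s ⊕ Fin t ≃ Fin r) {ρ₁ : Γ →* Mat s}
    {ρ₂ : Γ →* Mat t} (hρ : ∀ γ, ρ γ = bdiag e (ρ₁ γ) (ρ₂ γ)) {M₁ M₂ : ℝ} (h1 : 0 ≤ M₁)
    (h2 : 0 ≤ M₂) (h₁ : A.HasHM M₁ ρ₁) (h₂ : A.HasHM M₂ ρ₂) : A.HasHM (M₁ + M₂) ρ := by
  obtain ⟨C₁, u, X, c1, a1, b1⟩ := h₁
  obtain ⟨C₂, v, Y, c2, a2, b2⟩ := h₂
  have hw : ∀ a, WD 2 (ball 0 6) (fun x => bdiag e (u a x) (v a x))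
      fun x => zsumD e (X a x) (Y a x) := fun a => zsum_wd e (a1.wd a) (a2.wd a)
  obtain ⟨C₀, hC₀⟩ := zsum_n2 (A := A) (h := fun a x => bdiag e (u a x) (v a x))
    (D := fun a x => zsumD e (X a x) (Y a x)) hw
  refine ⟨max C₀ (max C₁ C₂), fun a x => bdiag e (u a x) (v a x),
    fun a x => zsumD e (X a x) (Y a x), le_max_of_le_right (le_max_of_le_left c1),
    ⟨hw, fun a => zsum_lbd e (a1.lbd a) (a2.lbd a), ?_, fun a => ?_, fun a x hx => ?_,
      fun a => (hC₀ a).trans (ENNReal.ofReal_le_ofReal (le_max_left _ _))⟩, fun a => ?_⟩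
  · intro a b x hx
    rw [hρ, zsum_gm, ← a1.mc a b x hx, ← a2.mc a b x hx]
  · refine zsum_harm e (A.coef a).1.continuousOn (locLp_mc isOpen_ball (a1.wd a) (a1.lbd a))
      (locLp_mc isOpen_ball (a2.wd a) (a2.lbd a)) (a1.harm a) (a2.harm a) fun x hx w => ?_
    exact zsum_mc e ((a1.lbd a).posDef x hx) ((a2.lbd a).posDef x hx) _ _ w
  · refine zsum_bd e ?_ ?_
    · exact (a1.bd a x hx).mono (by linarith) (le_max_of_le_right (le_max_left _ _))
    · exact (a2.bd a x hx).mono (by linarith) (le_max_of_le_right (le_max_right _ _))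
  · have m1 := ((en_loc isOpen_ball (A.coef a) (a1.wd a) (a1.lbd a)).1.aestronglyMeasurable le_rfl
      isOpen_ball).aemeasurable.ennreal_ofReal
    rw [ENNReal.ofReal_add h1 h2]
    refine le_trans ?_ (add_le_add (b1 a) (b2 a))
    rw [← lintegral_add_left' m1]
    refine setLIntegral_mono' measurableSet_ball fun x hx => ?_
    rw [zsum_en e ((a1.lbd a).posDef x hx) ((a2.lbd a).posDef x hx)]
    exact ENNReal.ofReal_add_le

theorem Atlas.hasHM_zero (A : Atlas E Γ) (ρ : Γ →* Mat 0) : A.HasHM 0 ρ := by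
  have hb : Bd 1 (1 : Mat 0) := Obst.refl PosSemidef.one le_rfl
  refine ⟨1, fun _ _ => 1, fun _ _ => 0, le_rfl, ⟨fun _ => WD.const one_le_two _,
    fun _ K _ _ => ⟨1, le_rfl, fun _ _ => hb⟩, fun _ _ _ _ => Subsingleton.elim _ _,
    fun _ _ _ => Subsingleton.elim _ _, fun _ _ _ => hb, fun _ => ?_⟩, fun a => ?_⟩
  · exact (eLpNorm_zero' (ε := E →L[ℝ] Mat 0)).le.trans zero_le
  · have : ∀ x, en (A.α a x) (1 : Mat 0) (0 : E →L[ℝ] Mat 0) = 0 := fun x => by
      simp [en, pair, mc]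
    simp only [this, ENNReal.ofReal_zero, lintegral_zero, le_refl]

end Pool.Agent.PW
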